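import Pool.Agent.Lib.MP_d6150d_an.TM3

/-! The potential of the Loud system in the logarithmic coordinate. -/

namespace Pool.Agent.Lib.MP_d6150d_an

open Real Set Filter Topology

theorem analytic_div {f g : ℝ → ℝ} (hf : ∀ z, AnalyticAt ℝ f z) (h : ∀ z, f z = f 0 + z * g z)
    (h0 : HasDerivAt f (g 0) 0) (z : ℝ) : AnalyticAt ℝ g z := by
  have e : g = dslope f 0 := by
    funext y
    by_cases hy : y = 0
    · rw [hy, dslope_same, h0.deriv]
    · rw [dslope_of_ne _ hy, slope_def_field, h y]; field_simp; ring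
  by_cases hz : z = 0
  · obtain ⟨p, hp⟩ := hf 0
    rw [e, hz]; exact ⟨_, hp.has_fpower_series_dslope_fslope⟩
  · have : AnalyticAt ℝ (fun y ↦ (f y - f 0) / y) z :=
      ((hf z).sub analyticAt_const).div analyticAt_id hz
    refine this.congr ?_
    filter_upwards [isOpen_ne.mem_nhds hz] with y hy
    rw [h y]; field_simp; ring

theorem ph1_zero : ph1 0 = 1 := by simp [ph1]

theorem ph1_an (z : ℝ) : AnalyticAt ℝ ph1 z :=
  analytic_div (f := exp) (fun _ ↦ analyticAt_rexp) (fun z ↦ by rw [exp_zero]; exact exp_eq_ph z)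
    (by simpa [ph1_zero] using hasDerivAt_exp 0) z

theorem ph2_cont : ContinuousAt ph2 0 := by
  have : ContinuousOn ph2 (Icc (-1) 1) := by
    refine continuousOn_tsum (u := fun n ↦ 1 ^ n / n.factorial) (fun n ↦ by fun_prop)
      (Real.summable_pow_div_factorial 1) fun n x hx ↦ ?_
    rw [Real.norm_eq_abs, abs_div, abs_pow, Nat.abs_cast]
    gcongr
    · exact abs_le.2 hx
    · omega
  exact this.continuousAt (Icc_mem_nhds (by norm_num) (by norm_num))

theorem ph2_an (z : ℝ) : AnalyticAt ℝ ph2 z := by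
  refine analytic_div ph1_an (fun z ↦ by rw [ph1_zero]; rfl) ?_ z
  rw [hasDerivAt_iff_tendsto_slope_zero]
  refine (ph2_cont.tendsto.mono_left nhdsWithin_le_nhds).congr' ?_
  filter_upwards [self_mem_nhdsWithin] with y hy
  have : y ≠ 0 := hy
  simp only [zero_add, ph1, smul_eq_mul]; field_simp; ring

theorem ph1_pos (z : ℝ) : 0 < ph1 z := by
  have h := exp_eq_ph z
  rcases lt_trichotomy z 0 with hz | hz | hz
  · have := exp_lt_one_iff.2 hz; nlinarith
  · rw [hz, ph1_zero]; norm_num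
  · have := one_lt_exp_iff.2 hz; nlinarith

theorem hasDerivAt_ph1 (a t : ℝ) : HasDerivAt (fun t ↦ t * ph1 (a * t)) (exp (a * t)) t := by
  by_cases ha : a = 0
  · simpa [ha, ph1_zero] using hasDerivAt_id' t
  · have := (((hasDerivAt_id t).const_mul a).exp.sub_const 1).div_const a
    refine (this.congr_of_eventuallyEq (Eventually.of_forall fun y ↦ ?_)).congr_deriv ?_
    · simp only [id, exp_eq_ph]; field_simp; ring
    · simp only [id]; field_simp

theorem ph1_neg (z : ℝ) : ph1 z = exp z * ph1 (-z) := by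
  by_cases hz : z = 0
  · simp [hz]
  · apply mul_left_cancel₀ hz
    have h1 := exp_eq_ph z
    have h2 := exp_eq_ph (-z)
    have h3 : exp z * exp (-z) = 1 := by rw [← exp_add]; simp
    linear_combination -h1 - exp z * h2 + h3

variable (D F : ℝ)

/-- the quotient of the potential by `t ^ 2` -/
noncomputable def muR (t : ℝ) : ℝ :=
  2 * (2 * F * ph2 (2 * F * t) - (2 * F - 1) * ph2 ((2 * F - 1) * t)) +
    D * (2 * (2 * F * ph2 (2 * F * t) - 2 * ((2 * F - 1) * ph2 ((2 * F - 1) * t)) +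
      (2 * F - 2) * ph2 ((2 * F - 2) * t)))

/-- the potential -/
noncomputable def vR (t : ℝ) : ℝ := t ^ 2 * muR D F t

/-- the factor vanishing at the saddle -/
noncomputable def om (t : ℝ) : ℝ := (1 + D) * exp t - D

/-- the derivative of the potential -/
noncomputable def WR (t : ℝ) : ℝ := 2 * exp ((2 * F - 2) * t) * ((exp t - 1) * om D t)

/-- the signed square root of the potential -/
noncomputable def gR (t : ℝ) : ℝ := t * √(muR D F t)

/-- the primitive of the time form -/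
noncomputable def uR (t : ℝ) : ℝ := t * ph1 (F * t)

/-- the domain -/
def JR : Set ℝ := {t | 0 < om D t}

theorem vR_eq (t : ℝ) : vR D F t = 2 * ((1 + D) * (t * ph1 (2 * F * t)) -
    (1 + 2 * D) * (t * ph1 ((2 * F - 1) * t)) + D * (t * ph1 ((2 * F - 2) * t))) := by
  simp only [vR, muR, ph1]; ring

theorem exp_a1 (t : ℝ) : exp (2 * F * t) = exp ((2 * F - 2) * t) * exp t * exp t := by
  rw [← exp_add, ← exp_add]; ring_nf

theorem exp_a2 (t : ℝ) : exp ((2 * F - 1) * t) = exp ((2 * F - 2) * t) * exp t := by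
  rw [← exp_add]; ring_nf

theorem hasDerivAt_vR (t : ℝ) : HasDerivAt (vR D F) (WR D F t) t := by
  have := ((((hasDerivAt_ph1 (2 * F) t).const_mul (1 + D)).sub
    ((hasDerivAt_ph1 (2 * F - 1) t).const_mul (1 + 2 * D))).add
    ((hasDerivAt_ph1 (2 * F - 2) t).const_mul D)).const_mul 2
  refine (this.congr_of_eventuallyEq (Eventually.of_forall fun y ↦ vR_eq D F y)).congr_deriv ?_
  rw [exp_a1, exp_a2, WR, om]; ring

theorem muR_an (t : ℝ) : AnalyticAt ℝ (muR D F) t := by
  have h : ∀ a : ℝ, AnalyticAt ℝ (fun t ↦ ph2 (a * t)) t := fun a ↦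
    (ph2_an _).comp (f := fun t ↦ a * t) (by fun_prop)
  have h1 := h (2 * F)
  have h2 := h (2 * F - 1)
  have h3 := h (2 * F - 2)
  unfold muR; fun_prop

theorem muR_zero : muR D F 0 = 1 := by simp only [muR, mul_zero, ph2_zero]; ring

theorem uR_an (t : ℝ) : AnalyticAt ℝ (uR F) t :=
  analyticAt_id.mul ((ph1_an _).comp (f := fun t ↦ F * t) (by fun_prop))

theorem JR_open : IsOpen (JR D) := isOpen_lt continuous_const (by unfold om; fun_prop)

theorem zero_mem_JR : (0 : ℝ) ∈ JR D := by simp [JR, om]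

variable {D} in
theorem JR_conn {a b t : ℝ} (ha : a ∈ JR D) (hb : b ∈ JR D) (h1 : a ≤ t) (h2 : t ≤ b) :
    t ∈ JR D := by
  have e1 := exp_le_exp.2 h1
  have e2 := exp_le_exp.2 h2
  simp only [JR, om, mem_ofPred_eq] at *
  rcases le_total 0 (1 + D) with h | h <;> nlinarith

theorem JR_convex : Convex ℝ (JR D) :=
  (OrdConnected.convex ⟨fun _ ha _ hb _ ht ↦ JR_conn ha hb ht.1 ht.2⟩)

variable {D F}

theorem WR_pos {t : ℝ} (ht : t ∈ JR D) (h : 0 < t) : 0 < WR D F t := by
  have := one_lt_exp_iff.2 h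
  have h2 : 0 < om D t := ht
  unfold WR; have : 0 < exp t - 1 := by linarith
  positivity

theorem WR_neg {t : ℝ} (ht : t ∈ JR D) (h : t < 0) : WR D F t < 0 := by
  have := exp_lt_one_iff.2 h
  have h2 : 0 < om D t := ht
  exact mul_neg_of_pos_of_neg (by positivity) (mul_neg_of_neg_of_pos (by linarith) h2)

theorem vR_cont : Continuous (vR D F) :=
  continuous_iff_continuousAt.2 fun t ↦ (hasDerivAt_vR D F t).continuousAt

theorem vR_mono {a b : ℝ} (hb : b ∈ JR D) (h0 : 0 ≤ a) (h : a < b) : vR D F a < vR D F b := by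
  refine strictMonoOn_of_deriv_pos (convex_Icc 0 b) vR_cont.continuousOn (fun t ht ↦ ?_)
    ⟨h0, h.le⟩ ⟨h0.trans h.le, le_rfl⟩ h
  rw [interior_Icc] at ht
  rw [(hasDerivAt_vR D F t).deriv]
  exact WR_pos (JR_conn (zero_mem_JR D) hb ht.1.le ht.2.le) ht.1

theorem vR_anti {a b : ℝ} (ha : a ∈ JR D) (h0 : b ≤ 0) (h : a < b) : vR D F b < vR D F a := by
  refine strictAntiOn_of_deriv_neg (convex_Icc a 0) vR_cont.continuousOn (fun t ht ↦ ?_)
    ⟨le_rfl, h.le.trans h0⟩ ⟨h.le, h0⟩ h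
  rw [interior_Icc] at ht
  rw [(hasDerivAt_vR D F t).deriv]
  exact WR_neg (JR_conn ha (zero_mem_JR D) ht.1.le ht.2.le) ht.2

theorem vR_pos {t : ℝ} (ht : t ∈ JR D) (h : t ≠ 0) : 0 < vR D F t := by
  have h0 : vR D F 0 = 0 := by simp [vR]
  rcases h.lt_or_gt with h | h
  · exact h0 ▸ vR_anti ht le_rfl h
  · exact h0 ▸ vR_mono ht le_rfl h

theorem muR_pos {t : ℝ} (ht : t ∈ JR D) : 0 < muR D F t := by
  by_cases h : t = 0
  · rw [h, muR_zero]; norm_num
  · exact (mul_pos_iff_of_pos_left (by positivity)).1 (vR_pos ht h)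

theorem gR_sq {t : ℝ} (ht : t ∈ JR D) : gR D F t ^ 2 = vR D F t := by
  rw [gR, mul_pow, sq_sqrt (muR_pos ht).le, vR]

theorem sqrt_mu_an {t : ℝ} (ht : t ∈ JR D) : AnalyticAt ℝ (fun t ↦ √(muR D F t)) t := by
  exact ContDiffAt.analyticAt ((muR_an D F t).contDiffAt.sqrt (muR_pos ht).ne')

theorem gR_an {t : ℝ} (ht : t ∈ JR D) : AnalyticAt ℝ (gR D F) t :=
  analyticAt_id.mul (sqrt_mu_an ht)

theorem gR_deriv {t : ℝ} (ht : t ∈ JR D) : 2 * gR D F t * deriv (gR D F) t = WR D F t := by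
  have h1 := ((gR_an (F := F) ht).differentiableAt.hasDerivAt.pow 2).congr_of_eventuallyEq
    (f₁ := vR D F) (by
      filter_upwards [(JR_open D).mem_nhds ht] with y hy using (gR_sq hy).symm)
  rw [← h1.unique (hasDerivAt_vR D F t)]; simp

theorem gR_pos {t : ℝ} (ht : t ∈ JR D) (h : 0 < t) : 0 < gR D F t :=
  mul_pos h (sqrt_pos.2 (muR_pos ht))

theorem gR_neg {t : ℝ} (ht : t ∈ JR D) (h : t < 0) : gR D F t < 0 :=
  mul_neg_of_neg_of_pos h (sqrt_pos.2 (muR_pos ht))

theorem gR_deriv_pos {t : ℝ} (ht : t ∈ JR D) : 0 < deriv (gR D F) t := by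
  have h := gR_deriv (F := F) ht
  rcases lt_trichotomy t 0 with h0 | h0 | h0
  · have := WR_neg (F := F) ht h0
    have := gR_neg (F := F) ht h0
    nlinarith
  · subst h0
    have := (hasDerivAt_id (0 : ℝ)).mul (sqrt_mu_an (F := F) ht).differentiableAt.hasDerivAt
    have e : deriv (gR D F) 0 = _ := this.deriv
    rw [e]; simp [muR_zero]
  · have := WR_pos (F := F) ht h0
    have := gR_pos (F := F) ht h0
    nlinarith

end Pool.Agent.Lib.MP_d6150d_an
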