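import Pool.Agent.Lib.MP_d6150d_an.An

/-! Averages over level curves and the maximum principle. -/

namespace Pool.Agent.Lib.MP_d6150d_an

open Real Set Filter Topology intervalIntegral

theorem no_max {w K p : ℝ → ℝ} {r0 c K' : ℝ} (hc : r0 < c)
    (hw : ∀ r ∈ Icc r0 c, HasDerivAt w (p r * K r) r) (hp : ∀ r ∈ Icc r0 c, 0 < p r)
    (h0 : K r0 = 0) (hK : HasDerivAt K K' r0) (hK' : 0 < K') : ∃ r ∈ Ioc r0 c, w r0 < w r := by
  have h1 : ∀ᶠ r in 𝓝[>] r0, 0 < K r := by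
    have := (hasDerivAt_iff_tendsto_slope.1 hK).eventually (lt_mem_nhds hK')
    filter_upwards [nhdsWithin_mono r0 (fun r (hr : r0 < r) ↦ hr.ne') this, self_mem_nhdsWithin]
      with r hr hr'
    rw [slope_def_field, h0, sub_zero] at hr
    exact (div_pos_iff_of_pos_right (sub_pos.2 hr')).1 hr
  obtain ⟨e, he, h2⟩ := (mem_nhdsGT_iff_exists_Ioo_subset).1 h1
  have he : r0 < e := he
  have hm : r0 < min e c := lt_min he hc
  have hs : Icc r0 (min e c) ⊆ Icc r0 c := Icc_subset_Icc_right (min_le_right _ _)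
  refine ⟨min e c, ⟨hm, min_le_right _ _⟩, strictMonoOn_of_deriv_pos (convex_Icc r0 (min e c))
    (fun r hr ↦ (hw r (hs hr)).continuousAt.continuousWithinAt) (fun r hr ↦ ?_) ⟨le_rfl, hm.le⟩
    ⟨hm.le, le_rfl⟩ hm⟩
  rw [interior_Icc] at hr
  rw [(hw r (hs (Ioo_subset_Icc_self hr))).deriv]
  exact mul_pos (hp r (hs (Ioo_subset_Icc_self hr))) (h2 ⟨hr.1, hr.2.trans_le (min_le_left _ _)⟩)

theorem no_three {J J' K K' A β : ℝ → ℝ} {a b c : ℝ} (hab : a < b) (hbc : b < c)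
    (hJ : ∀ r ∈ Icc a c, HasDerivAt J (J' r) r) (hK : ∀ r ∈ Icc a c, HasDerivAt K (K' r) r)
    (hA : ∀ r ∈ Icc a c, 0 < A r) (hβ : ContinuousOn β (Icc a c))
    (e : ∀ r ∈ Icc a c, J' r + β r * J r = A r * K r)
    (hs : ∀ r ∈ Icc a c, K r = 0 → 0 ≤ J r → 0 < K' r)
    (ha : J a = 0) (hb : J b = 0) (hc : J c = 0) : False := by
  have hac := hab.trans hbc
  have hγ : Continuous fun r ↦ β (projIcc a c hac.le r) :=
    hβ.comp_continuous (continuous_subtype_val.comp continuous_projIcc) fun r ↦ Subtype.prop _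
  let u : ℝ → ℝ := fun r ↦ exp (∫ s in a..r, β (projIcc a c hac.le s))
  have hu : ∀ r, 0 < u r := fun r ↦ exp_pos _
  have hw : ∀ r ∈ Icc a c, HasDerivAt (fun r ↦ J r * u r) (A r * u r * K r) r := fun r hr ↦ by
    refine ((hJ r hr).mul (hγ.integral_hasStrictDerivAt a r).hasDerivAt.exp).congr_deriv ?_
    rw [projIcc_of_mem _ hr]
    linear_combination u r * e r hr
  obtain ⟨r1, hr1, hm⟩ := isCompact_Icc.exists_isMaxOn (nonempty_Icc.2 hac.le)
    (fun r hr ↦ (hw r hr).continuousAt.continuousWithinAt)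
  have hbm : b ∈ Icc a c := ⟨hab.le, hbc.le⟩
  obtain ⟨r0, hr0, hm, hp⟩ : ∃ r0 ∈ Ioo a c, IsMaxOn (fun r ↦ J r * u r) (Icc a c) r0 ∧
      0 ≤ J r0 := by
    have h1 : J b * u b ≤ J r1 * u r1 := hm hbm
    rw [hb, zero_mul] at h1
    rcases h1.eq_or_lt with h1 | h1
    · refine ⟨b, ⟨hab, hbc⟩, fun r hr ↦ ?_, hb.ge⟩
      have : J r * u r ≤ J r1 * u r1 := hm hr
      show J r * u r ≤ J b * u b
      rw [hb, zero_mul]; linarith
    · refine ⟨r1, ⟨hr1.1.lt_of_ne ?_, hr1.2.lt_of_ne ?_⟩, hm,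
        ((mul_pos_iff_of_pos_right (hu r1)).1 h1).le⟩
      · rintro rfl; simp [ha] at h1
      · rintro rfl; simp [hc] at h1
  have hr := Ioo_subset_Icc_self hr0
  have h0 : K r0 = 0 := by
    have := (hm.isLocalMax (Icc_mem_nhds hr0.1 hr0.2)).hasDerivAt_eq_zero (hw r0 hr)
    exact (mul_eq_zero.1 this).resolve_left (mul_pos (hA r0 hr) (hu r0)).ne'
  have hsub : Icc r0 c ⊆ Icc a c := Icc_subset_Icc_left hr0.1.le
  obtain ⟨r, h1, h2⟩ := no_max (p := fun r ↦ A r * u r) hr0.2 (fun r h ↦ hw r (hsub h))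
    (fun r h ↦ mul_pos (hA r (hsub h)) (hu r)) h0 (hK r0 hr) (hs r0 hr h0 hp)
  exact h2.not_ge (hm (hsub (Ioc_subset_Icc_self h1)))

variable (D F : ℝ)

/-- the inverse of `gR` -/
noncomputable def XR (ρ : ℝ) : ℝ := Function.invFunOn (gR D F) (JR D) ρ

/-- the range of `gR` contains an interval -/
def Rng (R : ℝ) : Prop := ∀ ρ, |ρ| < R → ∃ t ∈ JR D, gR D F t = ρ

/-- the derivative with respect to `gR` -/
noncomputable def Dg (f : ℝ → ℝ) (t : ℝ) : ℝ := deriv f t / deriv (gR D F) t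

/-- the Euler operator -/
noncomputable def th (f : ℝ → ℝ) (t : ℝ) : ℝ := gR D F t * Dg D F f t

/-- analytic on the domain -/
def AnJ (f : ℝ → ℝ) : Prop := ∀ t ∈ JR D, AnalyticAt ℝ f t

/-- the average -/
noncomputable def Av (f : ℝ → ℝ) (r : ℝ) : ℝ := ∫ θ in (0 : ℝ)..2 * π, f (XR D F (r * cos θ))

/-- the weighted average -/
noncomputable def Jf (f : ℝ → ℝ) (r : ℝ) : ℝ := Av D F (fun t ↦ gR D F t * f t) r

/-- the first order operators -/
noncomputable def Lop (α b c : ℝ) (f : ℝ → ℝ) (t : ℝ) : ℝ :=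
  (α - c * vR D F t) * th D F f t + (b - 3 * c * vR D F t) * f t

/-- the function whose weighted average is the derivative of the period -/
noncomputable def phi4 (t : ℝ) : ℝ := th D F (th D F (uR F)) t - uR F t

variable {D F} {R : ℝ} {f h : ℝ → ℝ}

theorem gR_mono : StrictMonoOn (gR D F) (JR D) :=
  strictMonoOn_of_deriv_pos (JR_convex D) (fun _ ht ↦ (gR_an ht).continuousAt.continuousWithinAt)
    fun _ ht ↦ gR_deriv_pos (interior_subset ht)

theorem XR_g {t : ℝ} (ht : t ∈ JR D) : XR D F (gR D F t) = t :=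
  gR_mono.injOn.leftInvOn_invFunOn ht

theorem Rng.mem (H : Rng D F R) {ρ : ℝ} (h : |ρ| < R) : XR D F ρ ∈ JR D :=
  Function.invFunOn_mem (H ρ h)

theorem Rng.eq (H : Rng D F R) {ρ : ℝ} (h : |ρ| < R) : gR D F (XR D F ρ) = ρ :=
  Function.invFunOn_eq (H ρ h)

theorem abs_nhds {ρ R : ℝ} (h : |ρ| < R) : {x : ℝ | |x| < R} ∈ 𝓝 ρ :=
  (isOpen_lt continuous_abs continuous_const).mem_nhds h

theorem Rng.cont (H : Rng D F R) {ρ : ℝ} (h : |ρ| < R) : ContinuousAt (XR D F) ρ := by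
  refine continuousAt_of_monotoneOn_of_image_mem_nhds (s := {x : ℝ | |x| < R})
    (fun a ha b hb hab ↦ ?_) (abs_nhds h) ?_
  · rw [← gR_mono.le_iff_le (H.mem ha) (H.mem hb), H.eq ha, H.eq hb]; exact hab
  · have h1 := (gR_an (F := F) (H.mem h)).continuousAt.eventually (abs_nhds ((H.eq h).symm ▸ h))
    filter_upwards [h1, (JR_open D).mem_nhds (H.mem h)] with t h1 h2 using ⟨_, h1, XR_g h2⟩

theorem Rng.deriv (H : Rng D F R) (hf : AnJ D f) {ρ : ℝ} (h : |ρ| < R) :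
    HasDerivAt (fun ρ ↦ f (XR D F ρ)) (Dg D F f (XR D F ρ)) ρ := by
  have h1 := HasDerivAt.of_local_left_inverse (H.cont h)
    (gR_an (F := F) (H.mem h)).differentiableAt.hasDerivAt (gR_deriv_pos (H.mem h)).ne'
    (by filter_upwards [abs_nhds h] with x hx using H.eq hx)
  exact (hf _ (H.mem h)).differentiableAt.hasDerivAt.comp ρ h1

theorem AnJ.g : AnJ D (gR D F) := fun _ ht ↦ gR_an ht

theorem AnJ.v : AnJ D (vR D F) := fun t _ ↦ (analyticAt_id.pow 2).mul (muR_an D F t)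

theorem AnJ.u : AnJ D (uR F) := fun t _ ↦ uR_an F t

theorem AnJ.const (c : ℝ) : AnJ D fun _ ↦ c := fun _ _ ↦ analyticAt_const

theorem AnJ.add (hf : AnJ D f) (hh : AnJ D h) : AnJ D fun t ↦ f t + h t :=
  fun t ht ↦ (hf t ht).add (hh t ht)

theorem AnJ.sub (hf : AnJ D f) (hh : AnJ D h) : AnJ D fun t ↦ f t - h t :=
  fun t ht ↦ (hf t ht).sub (hh t ht)

theorem AnJ.mul (hf : AnJ D f) (hh : AnJ D h) : AnJ D fun t ↦ f t * h t :=
  fun t ht ↦ (hf t ht).mul (hh t ht)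

theorem AnJ.dg (hf : AnJ D f) : AnJ D (Dg D F f) := fun t ht ↦
  (hf t ht).deriv.div (gR_an ht).deriv (gR_deriv_pos ht).ne'

theorem AnJ.th (hf : AnJ D f) : AnJ D (th D F f) := AnJ.g.mul hf.dg

theorem AnJ.lop (hf : AnJ D f) (α b c : ℝ) : AnJ D (Lop D F α b c f) :=
  (((AnJ.const α).sub ((AnJ.const c).mul AnJ.v)).mul hf.th).add
    (((AnJ.const b).sub ((AnJ.const (3 * c)).mul AnJ.v)).mul hf)

theorem AnJ.phi4 : AnJ D (phi4 D F) := AnJ.u.th.th.sub AnJ.u

theorem abs_mul_cos {r R : ℝ} (h : |r| < R) (θ : ℝ) : |r * cos θ| < R := by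
  rw [abs_mul]; exact (mul_le_of_le_one_right (abs_nonneg _) (abs_cos_le_one θ)).trans_lt h

theorem Rng.icont (H : Rng D F R) (hf : AnJ D f) {r : ℝ} (h : |r| < R) :
    Continuous fun θ ↦ f (XR D F (r * cos θ)) :=
  continuous_iff_continuousAt.2 fun θ ↦ ContinuousAt.comp (g := fun ρ ↦ f (XR D F ρ))
    (H.deriv hf (abs_mul_cos h θ)).continuousAt (by fun_prop)

theorem Rng.congr (H : Rng D F R) {r : ℝ} (hr : |r| < R) (e : ∀ t ∈ JR D, f t = h t) :
    Av D F f r = Av D F h r :=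
  integral_congr fun θ _ ↦ e _ (H.mem (abs_mul_cos hr θ))

theorem Rng.lin (H : Rng D F R) {r : ℝ} (hr : |r| < R) (hf : AnJ D f) (hh : AnJ D h) (a b : ℝ) :
    Av D F (fun t ↦ a * f t + b * h t) r = a * Av D F f r + b * Av D F h r := by
  unfold Av
  rw [integral_add (((H.icont hf hr).const_mul a).intervalIntegrable _ _)
    (((H.icont hh hr).const_mul b).intervalIntegrable _ _), integral_const_mul, integral_const_mul]

theorem Rng.av_deriv (H : Rng D F R) (hf : AnJ D f) {r : ℝ} (hr : |r| < R) (h0 : r ≠ 0) :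
    HasDerivAt (Av D F f) (Av D F (th D F f) r / r) r := by
  obtain ⟨R', h1, h2⟩ := exists_between hr
  obtain ⟨M, hM⟩ := (isCompact_Icc (a := -R') (b := R')).exists_bound_of_continuousOn
    (f := fun ρ ↦ Dg D F f (XR D F ρ)) fun ρ hρ ↦
      (H.deriv hf.dg ((abs_le.2 hρ).trans_lt h2)).continuousAt.continuousWithinAt
  have := (intervalIntegral.hasDerivAt_integral_of_dominated_loc_of_deriv_le (μ := MeasureTheory.volume)
    (a := 0) (b := 2 * π) (bound := fun _ ↦ M) (F := fun r θ ↦ f (XR D F (r * cos θ)))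
    (F' := fun r θ ↦ Dg D F f (XR D F (r * cos θ)) * cos θ) (abs_nhds h1)
    (by filter_upwards [abs_nhds hr] with x hx using (H.icont hf hx).aestronglyMeasurable)
    ((H.icont hf hr).intervalIntegrable _ _)
    ((H.icont hf.dg hr).mul continuous_cos).aestronglyMeasurable
    (Eventually.of_forall fun θ _ x hx ↦ by
      rw [norm_mul]
      exact (mul_le_of_le_one_right (norm_nonneg _) (abs_cos_le_one θ)).trans
        (hM _ (abs_le.1 (abs_mul_cos hx θ).le)))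
    intervalIntegrable_const
    (Eventually.of_forall fun θ _ x hx ↦ by
      exact HasDerivAt.comp (h₂ := fun ρ ↦ f (XR D F ρ)) x
        (H.deriv hf (abs_mul_cos (hx.trans h2) θ)) (hasDerivAt_mul_const (cos θ)))).2
  refine this.congr_deriv ?_
  rw [eq_div_iff h0, ← integral_mul_const]
  refine integral_congr fun θ _ ↦ ?_
  simp only [th, H.eq (abs_mul_cos hr θ)]; ring

theorem Rng.parts (H : Rng D F R) (hf : AnJ D f) {r : ℝ} (hr : |r| < R) :
    r ^ 2 * Av D F (Dg D F f) r = Jf D F (fun t ↦ th D F f t + f t) r := by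
  have h1 : ∀ θ, HasDerivAt (fun θ ↦ r * sin θ * f (XR D F (r * cos θ)))
      (r * cos θ * f (XR D F (r * cos θ)) +
        r * sin θ * (Dg D F f (XR D F (r * cos θ)) * (r * -sin θ))) θ := fun θ ↦
    ((hasDerivAt_sin θ).const_mul r).mul
      (HasDerivAt.comp (h₂ := fun ρ ↦ f (XR D F ρ)) θ (H.deriv hf (abs_mul_cos hr θ))
        ((hasDerivAt_cos θ).const_mul r))
  have c1 := H.icont hf hr
  have c2 := H.icont (hf.dg (F := F)) hr
  have c3 : Continuous fun θ ↦ r * cos θ * f (XR D F (r * cos θ)) +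
      r * sin θ * (Dg D F f (XR D F (r * cos θ)) * (r * -sin θ)) :=
    (Continuous.mul (by fun_prop) c1).add (Continuous.mul (by fun_prop) (c2.mul (by fun_prop)))
  have h2 := integral_eq_sub_of_hasDerivAt (a := 0) (b := 2 * π) (fun θ _ ↦ h1 θ)
    (c3.intervalIntegrable _ _)
  rw [sin_two_pi, sin_zero, mul_zero, zero_mul, zero_mul, sub_zero] at h2
  rw [← add_zero (_ * _), ← h2, Av, ← integral_const_mul, ← integral_add
    ((c2.const_mul _).intervalIntegrable _ _) (c3.intervalIntegrable _ _)]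
  refine integral_congr fun θ _ ↦ ?_
  simp only [th, H.eq (abs_mul_cos hr θ)]
  linear_combination (-r ^ 2 * Dg D F f (XR D F (r * cos θ))) * sin_sq_add_cos_sq θ

theorem Dg_mul (hf : AnJ D f) (hh : AnJ D h) {t : ℝ} (ht : t ∈ JR D) :
    Dg D F (fun t ↦ f t * h t) t = Dg D F f t * h t + f t * Dg D F h t := by
  rw [Dg, Dg, Dg, deriv_fun_mul (hf t ht).differentiableAt (hh t ht).differentiableAt]; ring

theorem Dg_sub (hf : AnJ D f) (hh : AnJ D h) {t : ℝ} (ht : t ∈ JR D) :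
    Dg D F (fun t ↦ f t - h t) t = Dg D F f t - Dg D F h t := by
  rw [Dg, Dg, Dg, deriv_fun_sub (hf t ht).differentiableAt (hh t ht).differentiableAt]; ring

theorem Dg_g {t : ℝ} (ht : t ∈ JR D) : Dg D F (gR D F) t = 1 := div_self (gR_deriv_pos ht).ne'

theorem Rng.j_deriv (H : Rng D F R) (hf : AnJ D f) {r : ℝ} (hr : |r| < R) (h0 : r ≠ 0) :
    HasDerivAt (Jf D F f) (Jf D F (fun t ↦ th D F f t + f t) r / r) r := by
  refine (H.av_deriv (AnJ.g.mul hf) hr h0).congr_deriv (congrArg (· / r) (H.congr hr fun t ht ↦ ?_))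
  simp only [th, Dg_mul AnJ.g hf ht, Dg_g ht]; ring

theorem Rng.j_lop (H : Rng D F R) (hf : AnJ D f) {r : ℝ} (hr : |r| < R) (α b c : ℝ) :
    Jf D F (Lop D F α b c f) r = (α - c * r ^ 2) * Jf D F (fun t ↦ th D F f t + f t) r +
      (b - α - c * r ^ 2) * Jf D F f r := by
  have a1 := (AnJ.g (F := F)).mul ((hf.th (F := F)).add hf)
  have a2 := (AnJ.g (F := F)).mul hf
  have a3 := (AnJ.g (F := F)).mul a2
  have h1 := H.parts a3 hr
  rw [H.congr hr (h := fun t ↦ 1 * (gR D F t * (th D F f t + f t)) + 1 * (gR D F t * f t))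
    (fun t ht ↦ by simp only [th, Dg_mul AnJ.g a2 ht, Dg_mul AnJ.g hf ht, Dg_g ht]; ring),
    H.lin hr a1 a2] at h1
  have h2 := H.lin hr a1 a2 α (b - α)
  have h3 := H.lin hr (((AnJ.const α).mul a1).add ((AnJ.const (b - α)).mul a2))
    ((AnJ.g (F := F)).mul ((a3.th (F := F)).add a3)) 1 (-c)
  unfold Jf at *
  rw [h2, ← h1] at h3
  rw [H.congr hr (h := _) fun t ht ↦ ?_, h3]
  · ring
  · simp only [Lop, th, Dg_mul AnJ.g a2 ht, Dg_mul AnJ.g hf ht, Dg_g ht, ← gR_sq ht]; ring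

theorem Rng.t_deriv (H : Rng D F R) {r : ℝ} (hr : |r| < R) (h0 : r ≠ 0) :
    HasDerivAt (Av D F (Dg D F (uR F))) (Jf D F (phi4 D F) r / r ^ 3) r := by
  refine (H.av_deriv AnJ.u.dg hr h0).congr_deriv ?_
  have a1 := ((AnJ.u (D := D) (F := F)).th (F := F)).sub (AnJ.u (F := F))
  have h1 := H.parts a1 hr
  have e : ∀ t ∈ JR D, Dg D F (fun t ↦ th D F (uR F) t - uR F t) t = th D F (Dg D F (uR F)) t :=
    fun t ht ↦ by
      rw [Dg_sub AnJ.u.th AnJ.u ht]
      show Dg D F (fun t ↦ gR D F t * _) t - _ = _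
      rw [Dg_mul AnJ.g AnJ.u.dg ht, Dg_g ht, th]; ring
  rw [H.congr hr e] at h1
  have h2 : Jf D F (phi4 D F) r = Jf D F (fun t ↦ th D F (fun t ↦ th D F (uR F) t - uR F t) t +
      (th D F (uR F) t - uR F t)) r := H.congr hr fun t ht ↦ by
    have := Dg_sub (F := F) ((AnJ.u (F := F)).th (F := F)) (AnJ.u (F := F)) ht
    have e1 : ∀ f, th D F f t = gR D F t * Dg D F f t := fun _ ↦ rfl
    beta_reduce
    rw [phi4, e1 (th D F (uR F)), e1 fun t ↦ _ - _, this, e1 (uR F)]; ring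
  rw [h2, ← h1]; field_simp

theorem Rng.j_pos (H : Rng D F R) (hf : AnJ D f) {r : ℝ} (hr : |r| < R) (h0 : 0 < r)
    (hs : ∀ a ∈ JR D, ∀ b ∈ JR D, a < 0 → 0 < b → vR D F a = vR D F b → f a < f b) :
    0 < Jf D F f r := by
  have key : ∀ ρ, 0 < ρ → |ρ| < R → f (XR D F (-ρ)) < f (XR D F ρ) := fun ρ h1 h2 ↦ by
    have h3 : |-ρ| < R := by rwa [abs_neg]
    have g0 : gR D F 0 = 0 := by simp [gR]
    refine hs _ (H.mem h3) _ (H.mem h2) ?_ ?_ ?_
    · rw [← gR_mono.lt_iff_lt (H.mem h3) (zero_mem_JR D), H.eq h3, g0]; linarith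
    · rw [← gR_mono.lt_iff_lt (zero_mem_JR D) (H.mem h2), H.eq h2, g0]; exact h1
    · rw [← gR_sq (H.mem h3), ← gR_sq (H.mem h2), H.eq h3, H.eq h2]; ring
  have c1 := H.icont hf hr
  have c2 := H.icont hf (r := -r) (by rwa [abs_neg])
  have c3 : ∀ r : ℝ, Continuous fun θ ↦ r * cos θ := fun r ↦ by fun_prop
  have c4 : Continuous fun θ ↦ r * cos θ * f (XR D F (r * cos θ)) := (c3 r).mul c1
  have c5 : Continuous fun θ ↦ -r * cos θ * f (XR D F (-r * cos θ)) := (c3 (-r)).mul c2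
  have e : Jf D F f r = ∫ θ in (0 : ℝ)..π,
      r * cos θ * (f (XR D F (r * cos θ)) - f (XR D F (-r * cos θ))) := by
    have e1 : Jf D F f r = ∫ θ in (0 : ℝ)..2 * π, r * cos θ * f (XR D F (r * cos θ)) :=
      integral_congr fun θ _ ↦ by simp only [H.eq (abs_mul_cos hr θ)]
    have e2 := integral_comp_add_right (a := 0) (b := π)
      (fun θ ↦ r * cos θ * f (XR D F (r * cos θ))) π
    rw [zero_add, ← two_mul] at e2
    rw [e1, ← integral_add_adjacent_intervals (b := π) (c4.intervalIntegrable _ _)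
      (c4.intervalIntegrable _ _), ← e2]
    simp only [cos_add_pi, mul_neg, ← neg_mul]
    rw [← integral_add (c4.intervalIntegrable _ _) (c5.intervalIntegrable _ _)]
    exact integral_congr fun θ _ ↦ by ring
  rw [e]
  refine integral_pos pi_pos ((c3 r).mul (c1.sub c2)).continuousOn (fun θ _ ↦ ?_) ⟨0, ⟨le_rfl, pi_pos.le⟩, ?_⟩
  · rcases lt_trichotomy (r * cos θ) 0 with h | h | h
    · have := key (-(r * cos θ)) (by linarith) (by rw [abs_neg]; exact abs_mul_cos hr θ)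
      rw [neg_neg] at this
      rw [neg_mul]
      exact (mul_pos_of_neg_of_neg h (by linarith)).le
    · rw [h, zero_mul]
    · have := key _ h (abs_mul_cos hr θ)
      rw [neg_mul]
      exact (mul_pos h (by linarith)).le
  · have := key r h0 hr
    simp only [cos_zero, mul_one]
    exact mul_pos h0 (by linarith)

variable (D F) in
/-- the composed operator applied to `phi4` -/
noncomputable def NR (α1 b1 c1 α2 b2 c2 κ : ℝ) (t : ℝ) : ℝ :=
  Lop D F α1 b1 c1 (Lop D F α2 b2 c2 (phi4 D F)) t - κ * phi4 D F t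

variable (D F) in
/-- the criterion -/
def Crit : Prop := ∃ α1 b1 c1 α2 b2 c2 κ σ : ℝ, 0 ≤ κ ∧
  ∀ a ∈ JR D, ∀ b ∈ JR D, a < 0 → 0 < b → vR D F a = vR D F b →
    0 < α1 - c1 * vR D F b ∧ 0 < α2 - c2 * vR D F b ∧
      σ * NR D F α1 b1 c1 α2 b2 c2 κ a < σ * NR D F α1 b1 c1 α2 b2 c2 κ b

theorem Crit.no_three (C : Crit D F) (H : Rng D F R) {a b c : ℝ} (h0 : 0 < a) (hab : a < b)
    (hbc : b < c) (hc : c < R) (za : Jf D F (phi4 D F) a = 0) (zb : Jf D F (phi4 D F) b = 0)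
    (zc : Jf D F (phi4 D F) c = 0) : False := by
  obtain ⟨α1, b1, c1, α2, b2, c2, κ, σ, hκ, C⟩ := C
  have p : ∀ r ∈ Icc a c, 0 < r := fun r hr ↦ h0.trans_le hr.1
  have q : ∀ r ∈ Icc a c, |r| < R := fun r hr ↦ by
    rw [abs_of_pos (p r hr)]; exact hr.2.trans_lt hc
  have hA : ∀ r ∈ Icc a c, 0 < α1 - c1 * r ^ 2 ∧ 0 < α2 - c2 * r ^ 2 := fun r hr ↦ by
    have h2 := q r hr
    have h3 : |-r| < R := by rwa [abs_neg]
    have g0 : gR D F 0 = 0 := by simp [gR]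
    have := C _ (H.mem h3) _ (H.mem h2)
      (by rw [← gR_mono.lt_iff_lt (H.mem h3) (zero_mem_JR D), H.eq h3, g0]; linarith [p r hr])
      (by rw [← gR_mono.lt_iff_lt (zero_mem_JR D) (H.mem h2), H.eq h2, g0]; exact p r hr)
      (by rw [← gR_sq (H.mem h3), ← gR_sq (H.mem h2), H.eq h3, H.eq h2]; ring)
    rw [← gR_sq (H.mem h2), H.eq h2] at this
    exact ⟨this.1, this.2.1⟩
  have a1 := AnJ.phi4 (D := D) (F := F)
  have a2 := a1.lop (F := F) α2 b2 c2
  have a3 := a2.lop (F := F) α1 b1 c1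
  refine MP_d6150d_an.no_three (J := fun r ↦ σ * Jf D F (phi4 D F) r)
    (K := fun r ↦ σ * Jf D F (Lop D F α2 b2 c2 (phi4 D F)) r)
    (A := fun r ↦ 1 / ((α2 - c2 * r ^ 2) * r))
    (β := fun r ↦ (b2 - α2 - c2 * r ^ 2) / ((α2 - c2 * r ^ 2) * r)) hab hbc
    (fun r hr ↦ (H.j_deriv a1 (q r hr) (p r hr).ne').const_mul σ)
    (fun r hr ↦ (H.j_deriv a2 (q r hr) (p r hr).ne').const_mul σ)
    (fun r hr ↦ one_div_pos.2 (mul_pos (hA r hr).2 (p r hr)))
    (ContinuousOn.div (by fun_prop) (by fun_prop) fun r hr ↦ (mul_pos (hA r hr).2 (p r hr)).ne')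
    (fun r hr ↦ ?_) (fun r hr h1 h2 ↦ ?_) (by simp [za]) (by simp [zb]) (by simp [zc])
  · have := (hA r hr).2.ne'
    have := (p r hr).ne'
    rw [H.j_lop a1 (q r hr)]
    generalize α2 - c2 * r ^ 2 = A at *
    field_simp
  · have h3 := H.j_pos ((AnJ.const σ).mul (a3.sub ((AnJ.const κ).mul a1))) (q r hr) (p r hr)
      fun a ha b hb h1 h2 h3 ↦ (C a ha b hb h1 h2 h3).2.2
    have h4 := H.lin (q r hr) ((AnJ.g (F := F)).mul a3) ((AnJ.g (F := F)).mul a1) σ (-σ * κ)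
    have h5 := H.j_lop a2 (q r hr) α1 b1 c1
    unfold Jf at *
    rw [H.congr (q r hr) (h := _) fun t _ ↦ ?_, h4, h5] at h3
    · rw [← mul_div_assoc]
      refine div_pos ((mul_pos_iff_of_pos_left (hA r hr).1).1 ?_) (p r hr)
      have := mul_nonneg hκ h2
      have h6 := congrArg ((b1 - α1 - c1 * r ^ 2) * ·) h1
      linarith
    · ring

end Pool.Agent.Lib.MP_d6150d_an
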