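import Pool.Agent.Lib.MP_d6150d_an.B1LD

/-! A generated chart: the computations. -/

namespace Pool.Agent.Lib.MP_d6150d_an.B1L

theorem k0 : chk C 0x8828388208803 [(-13194139533312, -10101763080192), (32298154065920,
    35184372088832), (0, 140737488355328), (0, 52776558133248)] = true := by
  decide +kernel

theorem k1 : chk C 0x880 [(-10101763080192, -7009386627072), (32298154065920, 35184372088832), (0,
    140737488355328), (0, 26388279066624)] = true := by
  decide +kernel

theorem k2 : chk C 0x8808802881388082830 [(-10101763080192, -7009386627072), (32298154065920,
    35184372088832), (0, 140737488355328), (26388279066624, 52776558133248)] = true := by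
  decide +kernel

end Pool.Agent.Lib.MP_d6150d_an.B1L
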