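import Pool.Agent.Lib.MP_d6150d_an.B1M
import Pool.Agent.Lib.MP_d6150d_an.B1LK0

/-! A generated chart: the inequality. -/

namespace Pool.Agent.Lib.MP_d6150d_an.B1L

set_option linter.unnecessarySeqFocus false
set_option linter.unusedTactic false
set_option linter.unusedVariables false

theorem gd : Gd C [(-13194139533312, -7009386627072), (32298154065920, 35184372088832), (0,
    140737488355328), (0, 52776558133248)] := .split 0 (chk_sound k0) (.split 3 (chk_sound k1)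
    (chk_sound k2))

set_option maxRecDepth 100000 in
theorem eq {D F o a a2 x oo p r V iV i1 i2 n N w B A xi z16 z17 z18 z19 z20 z21 z22 z23 z24 z25 : ℝ}
    (ha2 : a2 = a * a) (hx : x = a2 * a2) (hoo : oo = o * o) (hp : p = x * a2 * oo) (hr : r = x * a
    * (oo * o)) (hV : V = (1 - x) * ((1 + D) * x - D)) (hiV : iV = V⁻¹) (hi1 : i1 = (1 - 2 * F)⁻¹)
    (hi2 : i2 = (2 - 2 * F)⁻¹) (hn : n = (2 * D * (1 - p) * i2 - (1 + 2 * D) * (x - p) * i1) * iV)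
    (hN : N = n + 1) (hw : w = -(N * V * F⁻¹)) (hB : B = -(D * iV)) (hA : A = -((1 + 2 * D) * x *
    iV) - 2 * B) (hxi : xi = 1 - p * (p + w / 8)⁻¹) (hz16 : z16 = b1q3 D F) (hz17 : z17 = b1q2 D F)
    (hz18 : z18 = z16 * w + z17 * p) (hz19 : z19 = (b1r2 D F - 2 * b1q2 D F) * F) (hz20 : z20 = p *
    z19) (hz21 : z21 = -(F * (p * p * iV))) (hz22 : z22 = N * A) (hz23 : z23 = N * N * B) (hz24 :
    z24 = b1k F z18 z20 z21 n z22 z23) (hz25 : z25 = b1sep D F xi) : outR prog 0 [D, F, o, a] = z24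
    + r * z25 := by
  replace ha2 : a2 = (a * a) := ha2.trans (by push_cast <;> ring)
  replace hx : x = (a2 * a2) := hx.trans (by push_cast <;> ring)
  replace hoo : oo = (o * o) := hoo.trans (by push_cast <;> ring)
  replace hp : p = ((x * a2) * oo) := hp.trans (by push_cast <;> ring)
  replace hr : r = ((x * a) * (oo * o)) := hr.trans (by push_cast <;> ring)
  replace hV : V = (((Int.cast (1) : ℝ) - x) * ((((Int.cast (1) : ℝ) + D) * x) - D)) := hV.trans (by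
    push_cast <;> ring)
  replace hiV : iV = V⁻¹ := hiV.trans (by push_cast <;> ring)
  replace hi1 : i1 = ((Int.cast (1) : ℝ) - ((Int.cast (2) : ℝ) * F))⁻¹ := hi1.trans (by push_cast
    <;> ring)
  replace hi2 : i2 = ((Int.cast (2) : ℝ) - ((Int.cast (2) : ℝ) * F))⁻¹ := hi2.trans (by push_cast
    <;> ring)
  replace hn : n = ((((((Int.cast (2) : ℝ) * D) * ((Int.cast (1) : ℝ) - p)) * i2) - ((((Int.cast (1)
    : ℝ) + ((Int.cast (2) : ℝ) * D)) * (x - p)) * i1)) * iV) := hn.trans (by push_cast <;> ring)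
  replace hN : N = (n + (Int.cast (1) : ℝ)) := hN.trans (by push_cast <;> ring)
  replace hw : w = ((Int.cast (-1) : ℝ) * ((N * V) * F⁻¹)) := hw.trans (by push_cast <;> ring)
  replace hB : B = ((Int.cast (-1) : ℝ) * (D * iV)) := hB.trans (by push_cast <;> ring)
  replace hA : A = (((Int.cast (-1) : ℝ) * ((((Int.cast (1) : ℝ) + ((Int.cast (2) : ℝ) * D)) * x) *
    iV)) - ((Int.cast (2) : ℝ) * B)) := hA.trans (by push_cast <;> ring)
  replace hxi : xi = ((Int.cast (1) : ℝ) - (p * (p + (((Int.cast (1) : ℝ) / (Nat.cast 8 : ℝ)) *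
    w))⁻¹)) := hxi.trans (by push_cast <;> ring)
  replace hz16 : z16 = (mB1Co D F).1 := hz16.trans (mB1Co_0 ..)
  replace hz17 : z17 = (mB1Co D F).2.1 := hz17.trans (mB1Co_1 ..)
  replace hz18 : z18 = ((z16 * w) + (z17 * p)) := hz18.trans (by push_cast <;> ring)
  replace hz19 : z19 = (mB1Co D F).2.2 := hz19.trans (mB1Co_2 ..)
  replace hz20 : z20 = (p * z19) := hz20.trans (by push_cast <;> ring)
  replace hz21 : z21 = ((Int.cast (-1) : ℝ) * (F * ((p * p) * iV))) := hz21.trans (by push_cast <;>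
    ring)
  replace hz22 : z22 = (N * A) := hz22.trans (by push_cast <;> ring)
  replace hz23 : z23 = ((N * N) * B) := hz23.trans (by push_cast <;> ring)
  replace hz24 : z24 = (mB1K F z18 z20 z21 n z22 z23) := hz24.trans (mB1K_0 ..)
  replace hz25 : z25 = (mB1Sep D F xi) := hz25.trans (mB1Sep_0 ..)
  have e0 : (z24 + (r * z25)) = z24 + r * z25 := by push_cast <;> ring
  subst ha2 hx hoo hp hr hV hiV hi1 hi2 hn hN hw hB hA hxi hz16 hz17 hz18 hz19 hz20 hz21 hz22 hz23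
    hz24 hz25
  exact Eq.trans rfl e0

theorem l0 : ((-13194139533312 : ℤ) : ℝ) / 2 ^ 47 = -3 / 32 := by norm_num
theorem u0 : (-51 / 1024 : ℝ) = ((-7009386627072 : ℤ) : ℝ) / 2 ^ 47 := by norm_num
theorem l1 : ((32298154065920 : ℤ) : ℝ) / 2 ^ 47 = 235 / 1024 := by norm_num
theorem u1 : (1 / 4 : ℝ) = ((35184372088832 : ℤ) : ℝ) / 2 ^ 47 := by norm_num
theorem l2 : ((0 : ℤ) : ℝ) / 2 ^ 47 = 0 := by norm_num
theorem u2 : (1 : ℝ) = ((140737488355328 : ℤ) : ℝ) / 2 ^ 47 := by norm_num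
theorem l3 : ((0 : ℤ) : ℝ) / 2 ^ 47 = 0 := by norm_num
theorem u3 : (3 / 8 : ℝ) = ((52776558133248 : ℤ) : ℝ) / 2 ^ 47 := by norm_num

theorem out0 {D F o a : ℝ} (a0 : -3 / 32 ≤ D) (b0 : D ≤ -51 / 1024) (a1 : 235 / 1024 ≤ F) (b1 : F ≤
    1 / 4) (a2 : 0 ≤ o) (b2 : o ≤ 1) (a3 : 0 ≤ a) (b3 : a ≤ 3 / 8) : 0 < outR prog 0 [D, F, o, a] :=
  gd 0 (by decide) [D, F, o, a] (.cons ⟨l0.le.trans a0, b0.trans u0.le⟩ (.cons ⟨l1.le.trans a1,
    b1.trans u1.le⟩ (.cons ⟨l2.le.trans a2, b2.trans u2.le⟩ (.cons ⟨l3.le.trans a3, b3.trans u3.le⟩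
    (.nil))))) ⟨nofun, nofun, nofun, nofun, trivial⟩ (List.forall_mem_nil _) (Van.of0 rfl) (nofun)

theorem pos0 {D F o a a2 x oo p r V iV i1 i2 n N w B A xi z16 z17 z18 z19 z20 z21 z22 z23 z24 z25 :
    ℝ} (ha2 : a2 = a * a) (hx : x = a2 * a2) (hoo : oo = o * o) (hp : p = x * a2 * oo) (hr : r = x *
    a * (oo * o)) (hV : V = (1 - x) * ((1 + D) * x - D)) (hiV : iV = V⁻¹) (hi1 : i1 = (1 - 2 * F)⁻¹)
    (hi2 : i2 = (2 - 2 * F)⁻¹) (hn : n = (2 * D * (1 - p) * i2 - (1 + 2 * D) * (x - p) * i1) * iV)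
    (hN : N = n + 1) (hw : w = -(N * V * F⁻¹)) (hB : B = -(D * iV)) (hA : A = -((1 + 2 * D) * x *
    iV) - 2 * B) (hxi : xi = 1 - p * (p + w / 8)⁻¹) (hz16 : z16 = b1q3 D F) (hz17 : z17 = b1q2 D F)
    (hz18 : z18 = z16 * w + z17 * p) (hz19 : z19 = (b1r2 D F - 2 * b1q2 D F) * F) (hz20 : z20 = p *
    z19) (hz21 : z21 = -(F * (p * p * iV))) (hz22 : z22 = N * A) (hz23 : z23 = N * N * B) (hz24 :
    z24 = b1k F z18 z20 z21 n z22 z23) (hz25 : z25 = b1sep D F xi) (a0 : -3 / 32 ≤ D) (b0 : D ≤ -51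
    / 1024) (a1 : 235 / 1024 ≤ F) (b1 : F ≤ 1 / 4) (a2 : 0 ≤ o) (b2 : o ≤ 1) (a3 : 0 ≤ a) (b3 : a ≤
    3 / 8) : 0 < z24 + r * z25 :=
  have e := eq ha2 hx hoo hp hr hV hiV hi1 hi2 hn hN hw hB hA hxi hz16 hz17 hz18 hz19 hz20 hz21 hz22
    hz23 hz24 hz25
  (out0 a0 b0 a1 b1 a2 b2 a3 b3).trans_eq e

end Pool.Agent.Lib.MP_d6150d_an.B1L
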