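import Pool.Agent.Lib.MP_d6150d_an.B1ND

/-! A generated chart: the computations. -/

namespace Pool.Agent.Lib.MP_d6150d_an.B1N

theorem k0 : chk C 0x88182882801882810 [(-13194139533312, -7009386627072), (32298154065920,
    33741263077376), (0, 35184372088832)] = true := by
  decide +kernel

theorem k1 : chk C 0x8882188808210 [(-13194139533312, -7009386627072), (33741263077376,
    35184372088832), (0, 35184372088832)] = true := by
  decide +kernel

theorem k2 : chk C 0x88288218881208820 [(-13194139533312, -7009386627072), (32298154065920,
    33741263077376), (35184372088832, 70368744177664)] = true := by
  decide +kernel

theorem k3 : chk C 0x8880288288210 [(-13194139533312, -7009386627072), (33741263077376,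
    35184372088832), (35184372088832, 70368744177664)] = true := by
  decide +kernel

theorem k4 : chk C 0x88088108808180801 [(-13194139533312, -7009386627072), (32298154065920,
    35184372088832), (70368744177664, 105553116266496)] = true := by
  decide +kernel

theorem k5 : chk C 0x880880088081801 [(-13194139533312, -7009386627072), (32298154065920,
    35184372088832), (105553116266496, 140737488355328)] = true := by
  decide +kernel

theorem k6 : chk C 0x8808801880810 [(-13194139533312, -7009386627072), (32298154065920,
    35184372088832), (140737488355328, 175921860444160)] = true := by
  decide +kernel

end Pool.Agent.Lib.MP_d6150d_an.B1N
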