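import Pool.Agent.Lib.MP_d6150d_an.B1ND

/-! A generated chart: the computations. -/

namespace Pool.Agent.Lib.MP_d6150d_an.B1N

theorem k7 : chk C 0x880818810 [(-13194139533312, -7009386627072), (32298154065920, 35184372088832),
    (175921860444160, 211106232532992)] = true := by
  decide +kernel

theorem k8 : chk C 0x88180881802 [(-13194139533312, -7009386627072), (32298154065920,
    35184372088832), (211106232532992, 281474976710656)] = true := by
  decide +kernel

theorem k9 : chk C 0x8808088288002 [(-13194139533312, -7009386627072), (32298154065920,
    35184372088832), (281474976710656, 422212465065984)] = true := by
  decide +kernel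

theorem k10 : chk C 0x88080880802 [(-13194139533312, -7009386627072), (32298154065920,
    35184372088832), (422212465065984, 562949953421312)] = true := by
  decide +kernel

end Pool.Agent.Lib.MP_d6150d_an.B1N
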