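import Pool.Agent.Lib.MP_d6150d_an.B1M
import Pool.Agent.Lib.MP_d6150d_an.B1NK0
import Pool.Agent.Lib.MP_d6150d_an.B1NK1

/-! A generated chart: the inequality. -/

namespace Pool.Agent.Lib.MP_d6150d_an.B1N

set_option linter.unnecessarySeqFocus false
set_option linter.unusedTactic false
set_option linter.unusedVariables false

theorem gd : Gd C [(-13194139533312, -7009386627072), (32298154065920, 35184372088832), (0,
    562949953421312)] := .split 2 (.split 2 (.split 2 (.split 2 (.split 1 (chk_sound k0) (chk_sound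
    k1)) (.split 1 (chk_sound k2) (chk_sound k3))) (.split 2 (chk_sound k4) (chk_sound k5))) (.split
    2 (.split 2 (chk_sound k6) (chk_sound k7)) (chk_sound k8))) (.split 2 (chk_sound k9) (chk_sound
    k10))

set_option maxRecDepth 100000 in
theorem eq {D F s t x p1 yi mu xy iW L M N B A v xi z15 z16 z17 z18 z19 z20 z21 z22 z23 z24 : ℝ} (ht
    : t = -s) (hx : x = Real.exp t) (hp1 : p1 = ph1 t) (hyi : yi = Real.exp (F * s)) (hmu : mu = muR
    D F t) (hxy : xy = x * yi) (hiW : iW = (p1 * ((1 + D) * x - D))⁻¹) (hL : L = F * (xy * xy * iW))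
    (hM : M = mu * L) (hN : N = t * M) (hB : B = D * iW) (hA : A = (1 + 2 * D) * x * iW - 2 * B) (hv
    : v = t * t * mu) (hxi : xi = 1 - (1 + v / 8)⁻¹) (hz15 : z15 = b1q3 D F) (hz16 : z16 = b1q2 D F)
    (hz17 : z17 = t * (z15 * v + z16)) (hz18 : z18 = (b1r2 D F - 2 * b1q2 D F) * F) (hz19 : z19 = t
    * z18) (hz20 : z20 = N - 1) (hz21 : z21 = M * A) (hz22 : z22 = N * M * B) (hz23 : z23 = b1k F
    z17 z19 L z20 z21 z22) (hz24 : z24 = b1sep D F xi) : outR prog 0 [D, F, s] = -(z23 + t * yi *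
    z24) := by
  replace ht : t = ((Int.cast (-1) : ℝ) * s) := ht.trans (by push_cast <;> ring)
  replace hyi : yi = (Real.exp (F * s)) := hyi.trans (congrArg Real.exp (by push_cast <;> ring))
  replace hmu : mu = (mMu D F t) := hmu.trans (mMu_0 ..)
  replace hxy : xy = (x * yi) := hxy.trans (by push_cast <;> ring)
  replace hiW : iW = (p1 * ((((Int.cast (1) : ℝ) + D) * x) - D))⁻¹ := hiW.trans (by push_cast <;>
    ring)
  replace hL : L = (F * ((xy * xy) * iW)) := hL.trans (by push_cast <;> ring)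
  replace hM : M = (mu * L) := hM.trans (by push_cast <;> ring)
  replace hN : N = (t * M) := hN.trans (by push_cast <;> ring)
  replace hB : B = (D * iW) := hB.trans (by push_cast <;> ring)
  replace hA : A = (((((Int.cast (1) : ℝ) + ((Int.cast (2) : ℝ) * D)) * x) * iW) - ((Int.cast (2) :
    ℝ) * B)) := hA.trans (by push_cast <;> ring)
  replace hv : v = ((t * t) * mu) := hv.trans (by push_cast <;> ring)
  replace hxi : xi = ((Int.cast (1) : ℝ) - ((Int.cast (1) : ℝ) + (((Int.cast (1) : ℝ) / (Nat.cast 8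
    : ℝ)) * v))⁻¹) := hxi.trans (by push_cast <;> ring)
  replace hz15 : z15 = (mB1Co D F).1 := hz15.trans (mB1Co_0 ..)
  replace hz16 : z16 = (mB1Co D F).2.1 := hz16.trans (mB1Co_1 ..)
  replace hz17 : z17 = (t * ((z15 * v) + z16)) := hz17.trans (by push_cast <;> ring)
  replace hz18 : z18 = (mB1Co D F).2.2 := hz18.trans (mB1Co_2 ..)
  replace hz19 : z19 = (t * z18) := hz19.trans (by push_cast <;> ring)
  replace hz20 : z20 = (N - (Int.cast (1) : ℝ)) := hz20.trans (by push_cast <;> ring)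
  replace hz21 : z21 = (M * A) := hz21.trans (by push_cast <;> ring)
  replace hz22 : z22 = ((N * M) * B) := hz22.trans (by push_cast <;> ring)
  replace hz23 : z23 = (mB1K F z17 z19 L z20 z21 z22) := hz23.trans (mB1K_0 ..)
  replace hz24 : z24 = (mB1Sep D F xi) := hz24.trans (mB1Sep_0 ..)
  have e0 : ((Int.cast (-1) : ℝ) * (z23 + ((t * yi) * z24))) = -(z23 + t * yi * z24) := by push_cast
    <;> ring
  subst ht hx hp1 hyi hmu hxy hiW hL hM hN hB hA hv hxi hz15 hz16 hz17 hz18 hz19 hz20 hz21 hz22 hz23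
    hz24
  exact Eq.trans rfl e0

theorem l0 : ((-13194139533312 : ℤ) : ℝ) / 2 ^ 47 = -3 / 32 := by norm_num
theorem u0 : (-51 / 1024 : ℝ) = ((-7009386627072 : ℤ) : ℝ) / 2 ^ 47 := by norm_num
theorem l1 : ((32298154065920 : ℤ) : ℝ) / 2 ^ 47 = 235 / 1024 := by norm_num
theorem u1 : (1 / 4 : ℝ) = ((35184372088832 : ℤ) : ℝ) / 2 ^ 47 := by norm_num
theorem l2 : ((0 : ℤ) : ℝ) / 2 ^ 47 = 0 := by norm_num
theorem u2 : (4 : ℝ) = ((562949953421312 : ℤ) : ℝ) / 2 ^ 47 := by norm_num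

theorem out0 (V2 : ∀ D F : ℝ, -3 / 32 ≤ D → D ≤ -51 / 1024 → 235 / 1024 ≤ F → F ≤ 1 / 4 → (fun s ↦
    outR prog 0 [D, F, s]) =O[nhdsWithin 0 (Set.Ioi 0)] fun s : ℝ ↦ s ^ 4) {D F s : ℝ} (a0 : -3 / 32
    ≤ D) (b0 : D ≤ -51 / 1024) (a1 : 235 / 1024 ≤ F) (b1 : F ≤ 1 / 4) (a2 : 0 ≤ s) (b2 : s ≤ 4) (p2
    : 0 < s) : 0 < outR prog 0 [D, F, s] :=
  gd 0 (by decide) [D, F, s] (.cons ⟨l0.le.trans a0, b0.trans u0.le⟩ (.cons ⟨l1.le.trans a1,
    b1.trans u1.le⟩ (.cons ⟨l2.le.trans a2, b2.trans u2.le⟩ (.nil)))) ⟨nofun, nofun, fun _ ↦ p2,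
    trivial⟩ (List.forall_mem_nil _) (⟨fun _ ↦ allB_iff.2 fun _ _ ↦ trivial, fun y0 a0 b0 ↦ ⟨fun _ ↦
    allB_iff.2 fun _ _ ↦ trivial, fun y1 a1 b1 ↦ ⟨fun _ ↦ V2 y0 y1 (l0.ge.trans a0) (b0.trans u0.ge)
    (l1.ge.trans a1) (b1.trans u1.ge), fun _ _ _ ↦ trivial⟩⟩⟩) (nofun)

end Pool.Agent.Lib.MP_d6150d_an.B1N
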