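import Pool.Agent.Lib.MP_d6150d_an.B1PD

/-! A generated chart: the computations. -/

namespace Pool.Agent.Lib.MP_d6150d_an.B1P

theorem k0 : chk C 0x882882188188120 [(-13194139533312, -10101763080192), (32298154065920,
    33741263077376), (0, 79164837199872)] = true := by
  decide +kernel

theorem k1 : chk C 0x88188801812 [(-10101763080192, -7009386627072), (32298154065920,
    33741263077376), (0, 79164837199872)] = true := by
  decide +kernel

theorem k2 : chk C 0x8828880218828881210 [(-13194139533312, -10101763080192), (33741263077376,
    35184372088832), (0, 79164837199872)] = true := by
  decide +kernel

theorem k3 : chk C 0x8818288188120 [(-10101763080192, -7009386627072), (33741263077376,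
    35184372088832), (0, 79164837199872)] = true := by
  decide +kernel

theorem k4 : chk C 0x88801880811 [(-13194139533312, -7009386627072), (32298154065920,
    35184372088832), (79164837199872, 158329674399744)] = true := by
  decide +kernel

theorem k5 : chk C 0x88812 [(-13194139533312, -7009386627072), (32298154065920, 35184372088832),
    (158329674399744, 316659348799488)] = true := by
  decide +kernel

theorem k6 : chk C 0x882 [(-13194139533312, -7009386627072), (32298154065920, 35184372088832),
    (316659348799488, 633318697598976)] = true := by
  decide +kernel

end Pool.Agent.Lib.MP_d6150d_an.B1P
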