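import Pool.Agent.Lib.MP_d6150d_an.B1M
import Pool.Agent.Lib.MP_d6150d_an.B1PK0

/-! A generated chart: the inequality. -/

namespace Pool.Agent.Lib.MP_d6150d_an.B1P

set_option linter.unnecessarySeqFocus false
set_option linter.unusedTactic false
set_option linter.unusedVariables false

theorem gd : Gd C [(-13194139533312, -7009386627072), (32298154065920, 35184372088832), (0,
    633318697598976)] := .split 2 (.split 2 (.split 2 (.split 1 (.split 0 (chk_sound k0) (chk_sound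
    k1)) (.split 0 (chk_sound k2) (chk_sound k3))) (chk_sound k4)) (chk_sound k5)) (chk_sound k6)

set_option maxRecDepth 100000 in
theorem eq {D F t nt q p1 yi mu iW L M N B A v xi z14 z15 z16 z17 z18 z19 z20 z21 z22 z23 : ℝ} (hnt
    : nt = -t) (hq : q = Real.exp nt) (hp1 : p1 = ph1 nt) (hyi : yi = Real.exp (F * nt)) (hmu : mu =
    muR D F t) (hiW : iW = (p1 * (1 + D - D * q))⁻¹) (hL : L = F * (yi * yi * iW)) (hM : M = mu * L)
    (hN : N = t * M) (hB : B = D * (q * q) * iW) (hA : A = (1 + 2 * D) * q * iW - 2 * B) (hv : v = t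
    * t * mu) (hxi : xi = 1 - (1 + v / 8)⁻¹) (hz14 : z14 = b1q3 D F) (hz15 : z15 = b1q2 D F) (hz16 :
    z16 = t * (z14 * v + z15)) (hz17 : z17 = (b1r2 D F - 2 * b1q2 D F) * F) (hz18 : z18 = t * z17)
    (hz19 : z19 = N - 1) (hz20 : z20 = M * A) (hz21 : z21 = N * M * B) (hz22 : z22 = b1k F z16 z18 L
    z19 z20 z21) (hz23 : z23 = b1sep D F xi) : outR prog 0 [D, F, t] = -(z22 + t * yi * z23) := by
  replace hnt : nt = ((Int.cast (-1) : ℝ) * t) := hnt.trans (by push_cast <;> ring)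
  replace hyi : yi = (Real.exp (F * nt)) := hyi.trans (congrArg Real.exp (by push_cast <;> ring))
  replace hmu : mu = (mMu D F t) := hmu.trans (mMu_0 ..)
  replace hiW : iW = (p1 * (((Int.cast (1) : ℝ) + D) - (D * q)))⁻¹ := hiW.trans (by push_cast <;>
    ring)
  replace hL : L = (F * ((yi * yi) * iW)) := hL.trans (by push_cast <;> ring)
  replace hM : M = (mu * L) := hM.trans (by push_cast <;> ring)
  replace hN : N = (t * M) := hN.trans (by push_cast <;> ring)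
  replace hB : B = ((D * (q * q)) * iW) := hB.trans (by push_cast <;> ring)
  replace hA : A = (((((Int.cast (1) : ℝ) + ((Int.cast (2) : ℝ) * D)) * q) * iW) - ((Int.cast (2) :
    ℝ) * B)) := hA.trans (by push_cast <;> ring)
  replace hv : v = ((t * t) * mu) := hv.trans (by push_cast <;> ring)
  replace hxi : xi = ((Int.cast (1) : ℝ) - ((Int.cast (1) : ℝ) + (((Int.cast (1) : ℝ) / (Nat.cast 8
    : ℝ)) * v))⁻¹) := hxi.trans (by push_cast <;> ring)
  replace hz14 : z14 = (mB1Co D F).1 := hz14.trans (mB1Co_0 ..)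
  replace hz15 : z15 = (mB1Co D F).2.1 := hz15.trans (mB1Co_1 ..)
  replace hz16 : z16 = (t * ((z14 * v) + z15)) := hz16.trans (by push_cast <;> ring)
  replace hz17 : z17 = (mB1Co D F).2.2 := hz17.trans (mB1Co_2 ..)
  replace hz18 : z18 = (t * z17) := hz18.trans (by push_cast <;> ring)
  replace hz19 : z19 = (N - (Int.cast (1) : ℝ)) := hz19.trans (by push_cast <;> ring)
  replace hz20 : z20 = (M * A) := hz20.trans (by push_cast <;> ring)
  replace hz21 : z21 = ((N * M) * B) := hz21.trans (by push_cast <;> ring)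
  replace hz22 : z22 = (mB1K F z16 z18 L z19 z20 z21) := hz22.trans (mB1K_0 ..)
  replace hz23 : z23 = (mB1Sep D F xi) := hz23.trans (mB1Sep_0 ..)
  have e0 : ((Int.cast (-1) : ℝ) * (z22 + ((t * yi) * z23))) = -(z22 + t * yi * z23) := by push_cast
    <;> ring
  subst hnt hq hp1 hyi hmu hiW hL hM hN hB hA hv hxi hz14 hz15 hz16 hz17 hz18 hz19 hz20 hz21 hz22
    hz23
  exact Eq.trans rfl e0

theorem l0 : ((-13194139533312 : ℤ) : ℝ) / 2 ^ 47 = -3 / 32 := by norm_num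
theorem u0 : (-51 / 1024 : ℝ) = ((-7009386627072 : ℤ) : ℝ) / 2 ^ 47 := by norm_num
theorem l1 : ((32298154065920 : ℤ) : ℝ) / 2 ^ 47 = 235 / 1024 := by norm_num
theorem u1 : (1 / 4 : ℝ) = ((35184372088832 : ℤ) : ℝ) / 2 ^ 47 := by norm_num
theorem l2 : ((0 : ℤ) : ℝ) / 2 ^ 47 = 0 := by norm_num
theorem u2 : (9 / 2 : ℝ) = ((633318697598976 : ℤ) : ℝ) / 2 ^ 47 := by norm_num

theorem out0 (V2 : ∀ D F : ℝ, -3 / 32 ≤ D → D ≤ -51 / 1024 → 235 / 1024 ≤ F → F ≤ 1 / 4 → (fun t ↦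
    outR prog 0 [D, F, t]) =O[nhdsWithin 0 (Set.Ioi 0)] fun t : ℝ ↦ t ^ 4) {D F t : ℝ} (a0 : -3 / 32
    ≤ D) (b0 : D ≤ -51 / 1024) (a1 : 235 / 1024 ≤ F) (b1 : F ≤ 1 / 4) (a2 : 0 ≤ t) (b2 : t ≤ 9 / 2)
    (p2 : 0 < t) : 0 < outR prog 0 [D, F, t] :=
  gd 0 (by decide) [D, F, t] (.cons ⟨l0.le.trans a0, b0.trans u0.le⟩ (.cons ⟨l1.le.trans a1,
    b1.trans u1.le⟩ (.cons ⟨l2.le.trans a2, b2.trans u2.le⟩ (.nil)))) ⟨nofun, nofun, fun _ ↦ p2,
    trivial⟩ (List.forall_mem_nil _) (⟨fun _ ↦ allB_iff.2 fun _ _ ↦ trivial, fun y0 a0 b0 ↦ ⟨fun _ ↦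
    allB_iff.2 fun _ _ ↦ trivial, fun y1 a1 b1 ↦ ⟨fun _ ↦ V2 y0 y1 (l0.ge.trans a0) (b0.trans u0.ge)
    (l1.ge.trans a1) (b1.trans u1.ge), fun _ _ _ ↦ trivial⟩⟩⟩) (nofun)

end Pool.Agent.Lib.MP_d6150d_an.B1P
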