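import Pool.Agent.Lib.MP_d6150d_an.B1RD

/-! A generated chart: the computations. -/

namespace Pool.Agent.Lib.MP_d6150d_an.B1R

theorem k0 : chk C 0x88188128383 [(-13194139533312, -7009386627072), (32298154065920,
    35184372088832), (0, 140737488355328), (0, 52776558133248)] = true := by
  decide +kernel

end Pool.Agent.Lib.MP_d6150d_an.B1R
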