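import Pool.Agent.Lib.MP_d6150d_an.B1M
import Pool.Agent.Lib.MP_d6150d_an.B1RK0

/-! A generated chart: the inequality. -/

namespace Pool.Agent.Lib.MP_d6150d_an.B1R

set_option linter.unnecessarySeqFocus false
set_option linter.unusedTactic false
set_option linter.unusedVariables false

theorem gd : Gd C [(-13194139533312, -7009386627072), (32298154065920, 35184372088832), (0,
    140737488355328), (0, 52776558133248)] := chk_sound k0

set_option maxRecDepth 100000 in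
theorem eq {D F o s z zo q W iW i1 i2 n N w m b xi z14 z15 z16 z17 z18 z19 z20 : ℝ} (hz : z = s * s)
    (hzo : zo = z * o) (hq : q = z * zo) (hW : W = (1 - q) * (1 + D - D * q)) (hiW : iW = W⁻¹) (hi1
    : i1 = (1 - 2 * F)⁻¹) (hi2 : i2 = (2 - 2 * F)⁻¹) (hn : n = (2 * D * (F - zo * q) * i2 + (1 + 2 *
    D) * (zo - 2 * F) * i1 - (1 + D)) * iW) (hN : N = z * n + 1) (hw : w = N * W * F⁻¹) (hm : m = N
    * o * (1 + 2 * D - 2 * (D * q)) * iW) (hb : b = N * N * (D * (o * o)) * iW) (hxi : xi = 1 - z *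
    (z + w / 8)⁻¹) (hz14 : z14 = b1q3 D F) (hz15 : z15 = b1q2 D F) (hz16 : z16 = z14 * w + z15 * z)
    (hz17 : z17 = (b1r2 D F - 2 * b1q2 D F) * F) (hz18 : z18 = F * iW) (hz19 : z19 = b1tl F z z16
    z17 z18 n m b) (hz20 : z20 = b1sep D F xi) : outR prog 0 [D, F, o, s] = -(s * z19 + z20) := by
  replace hz : z = (s * s) := hz.trans (by push_cast <;> ring)
  replace hzo : zo = (z * o) := hzo.trans (by push_cast <;> ring)
  replace hq : q = (z * zo) := hq.trans (by push_cast <;> ring)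
  replace hW : W = (((Int.cast (1) : ℝ) - q) * (((Int.cast (1) : ℝ) + D) - (D * q))) := hW.trans (by
    push_cast <;> ring)
  replace hiW : iW = W⁻¹ := hiW.trans (by push_cast <;> ring)
  replace hi1 : i1 = ((Int.cast (1) : ℝ) - ((Int.cast (2) : ℝ) * F))⁻¹ := hi1.trans (by push_cast
    <;> ring)
  replace hi2 : i2 = ((Int.cast (2) : ℝ) - ((Int.cast (2) : ℝ) * F))⁻¹ := hi2.trans (by push_cast
    <;> ring)
  replace hn : n = (((((((Int.cast (2) : ℝ) * D) * (F - (zo * q))) * i2) + ((((Int.cast (1) : ℝ) +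
    ((Int.cast (2) : ℝ) * D)) * (zo - ((Int.cast (2) : ℝ) * F))) * i1)) - ((Int.cast (1) : ℝ) + D))
    * iW) := hn.trans (by push_cast <;> ring)
  replace hN : N = ((z * n) + (Int.cast (1) : ℝ)) := hN.trans (by push_cast <;> ring)
  replace hw : w = ((N * W) * F⁻¹) := hw.trans (by push_cast <;> ring)
  replace hm : m = (((N * o) * (((Int.cast (1) : ℝ) + ((Int.cast (2) : ℝ) * D)) - ((Int.cast (2) :
    ℝ) * (D * q)))) * iW) := hm.trans (by push_cast <;> ring)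
  replace hb : b = (((N * N) * (D * (o * o))) * iW) := hb.trans (by push_cast <;> ring)
  replace hxi : xi = ((Int.cast (1) : ℝ) - (z * (z + (((Int.cast (1) : ℝ) / (Nat.cast 8 : ℝ)) *
    w))⁻¹)) := hxi.trans (by push_cast <;> ring)
  replace hz14 : z14 = (mB1Co D F).1 := hz14.trans (mB1Co_0 ..)
  replace hz15 : z15 = (mB1Co D F).2.1 := hz15.trans (mB1Co_1 ..)
  replace hz16 : z16 = ((z14 * w) + (z15 * z)) := hz16.trans (by push_cast <;> ring)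
  replace hz17 : z17 = (mB1Co D F).2.2 := hz17.trans (mB1Co_2 ..)
  replace hz18 : z18 = (F * iW) := hz18.trans (by push_cast <;> ring)
  replace hz19 : z19 = (mB1Tl F z z16 z17 z18 n m b) := hz19.trans (mB1Tl_0 ..)
  replace hz20 : z20 = (mB1Sep D F xi) := hz20.trans (mB1Sep_0 ..)
  have e0 : ((Int.cast (-1) : ℝ) * ((s * z19) + z20)) = -(s * z19 + z20) := by push_cast <;> ring
  subst hz hzo hq hW hiW hi1 hi2 hn hN hw hm hb hxi hz14 hz15 hz16 hz17 hz18 hz19 hz20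
  exact Eq.trans rfl e0

theorem l0 : ((-13194139533312 : ℤ) : ℝ) / 2 ^ 47 = -3 / 32 := by norm_num
theorem u0 : (-51 / 1024 : ℝ) = ((-7009386627072 : ℤ) : ℝ) / 2 ^ 47 := by norm_num
theorem l1 : ((32298154065920 : ℤ) : ℝ) / 2 ^ 47 = 235 / 1024 := by norm_num
theorem u1 : (1 / 4 : ℝ) = ((35184372088832 : ℤ) : ℝ) / 2 ^ 47 := by norm_num
theorem l2 : ((0 : ℤ) : ℝ) / 2 ^ 47 = 0 := by norm_num
theorem u2 : (1 : ℝ) = ((140737488355328 : ℤ) : ℝ) / 2 ^ 47 := by norm_num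
theorem l3 : ((0 : ℤ) : ℝ) / 2 ^ 47 = 0 := by norm_num
theorem u3 : (3 / 8 : ℝ) = ((52776558133248 : ℤ) : ℝ) / 2 ^ 47 := by norm_num

theorem out0 {D F o s : ℝ} (a0 : -3 / 32 ≤ D) (b0 : D ≤ -51 / 1024) (a1 : 235 / 1024 ≤ F) (b1 : F ≤
    1 / 4) (a2 : 0 ≤ o) (b2 : o ≤ 1) (a3 : 0 ≤ s) (b3 : s ≤ 3 / 8) : 0 < outR prog 0 [D, F, o, s] :=
  gd 0 (by decide) [D, F, o, s] (.cons ⟨l0.le.trans a0, b0.trans u0.le⟩ (.cons ⟨l1.le.trans a1,
    b1.trans u1.le⟩ (.cons ⟨l2.le.trans a2, b2.trans u2.le⟩ (.cons ⟨l3.le.trans a3, b3.trans u3.le⟩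
    (.nil))))) ⟨nofun, nofun, nofun, nofun, trivial⟩ (List.forall_mem_nil _) (Van.of0 rfl) (nofun)

theorem pos0 {D F o s z zo q W iW i1 i2 n N w m b xi z14 z15 z16 z17 z18 z19 z20 : ℝ} (hz : z = s *
    s) (hzo : zo = z * o) (hq : q = z * zo) (hW : W = (1 - q) * (1 + D - D * q)) (hiW : iW = W⁻¹)
    (hi1 : i1 = (1 - 2 * F)⁻¹) (hi2 : i2 = (2 - 2 * F)⁻¹) (hn : n = (2 * D * (F - zo * q) * i2 + (1
    + 2 * D) * (zo - 2 * F) * i1 - (1 + D)) * iW) (hN : N = z * n + 1) (hw : w = N * W * F⁻¹) (hm :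
    m = N * o * (1 + 2 * D - 2 * (D * q)) * iW) (hb : b = N * N * (D * (o * o)) * iW) (hxi : xi = 1
    - z * (z + w / 8)⁻¹) (hz14 : z14 = b1q3 D F) (hz15 : z15 = b1q2 D F) (hz16 : z16 = z14 * w + z15
    * z) (hz17 : z17 = (b1r2 D F - 2 * b1q2 D F) * F) (hz18 : z18 = F * iW) (hz19 : z19 = b1tl F z
    z16 z17 z18 n m b) (hz20 : z20 = b1sep D F xi) (a0 : -3 / 32 ≤ D) (b0 : D ≤ -51 / 1024) (a1 :
    235 / 1024 ≤ F) (b1 : F ≤ 1 / 4) (a2 : 0 ≤ o) (b2 : o ≤ 1) (a3 : 0 ≤ s) (b3 : s ≤ 3 / 8) : 0 <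
    -(s * z19 + z20) :=
  have e := eq hz hzo hq hW hiW hi1 hi2 hn hN hw hm hb hxi hz14 hz15 hz16 hz17 hz18 hz19 hz20
  (out0 a0 b0 a1 b1 a2 b2 a3 b3).trans_eq e

end Pool.Agent.Lib.MP_d6150d_an.B1R
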