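import Pool.Agent.Lib.MP_d6150d_an.B1G
import Pool.Agent.Lib.MP_d6150d_an.B1P
import Pool.Agent.Lib.MP_d6150d_an.B1N
import Pool.Agent.Lib.MP_d6150d_an.B1R
import Pool.Agent.Lib.MP_d6150d_an.B1L

/-! The strip `B1`: `-3 / 32 ≤ D ≤ -1 / 20`, `23 / 100 ≤ F ≤ 1 / 4`. -/

namespace Pool.Agent.Lib.MP_d6150d_an

open Real Set Filter Topology Asymptotics

variable {D F t : ℝ}

theorem b1_eqP (h0 : t ≠ 0) : outR B1P.prog 0 [D, F, t] = b1G D F t := by
  have hx := (exp_pos t).ne'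
  have e1 : exp ((2 - 2 * F) * t) = exp (F * -t) * exp (F * -t) * exp t ^ 2 := by
    rw [sq, ← exp_add, ← exp_add, ← exp_add]; ring_nf
  have e2 : wR D t = t * (ph1 (-t) * (1 + D - D * exp (-t))) * exp t ^ 2 := by
    rw [x2_wph, ph1_neg t, exp_neg]; field_simp
  have e3 : t * t * muR D F t = vR D F t := by rw [vR]; ring
  rw [B1P.eq rfl rfl rfl rfl rfl rfl rfl rfl rfl rfl rfl rfl rfl rfl rfl rfl rfl rfl rfl rfl rfl rfl
    rfl, b1G, b1Z, mul_add t (b1k ..), b1k_mul, e3, b1N, yR, QR, e1, e2, mul_neg F t, ← mul_assoc t (exp _)]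
  generalize b1sep D F _ = S
  rw [vR]
  generalize ph1 (-t) * (1 + D - D * exp (-t)) = W
  rw [exp_neg t]
  congr 3 <;> simp only [div_eq_mul_inv, mul_inv] <;> generalize W⁻¹ = j <;> field_simp

theorem b1_eqN (h0 : t ≠ 0) : outR B1N.prog 0 [D, F, -t] = b1G D F t := by
  have e1 : exp ((2 - 2 * F) * t) = exp t * exp (F * -t) * (exp t * exp (F * -t)) := by
    rw [← exp_add, ← exp_add]; ring_nf
  have e3 : t * t * muR D F t = vR D F t := by rw [vR]; ring
  rw [B1N.eq (neg_neg t).symm rfl rfl rfl rfl rfl rfl rfl rfl rfl rfl rfl rfl rfl rfl rfl rfl rfl rfl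
    rfl rfl rfl rfl rfl, b1G, b1Z, mul_add t (b1k ..), b1k_mul, e3, b1N, yR, QR, e1, x2_wph,
    mul_neg F t, ← mul_assoc t (exp _)]
  generalize b1sep D F _ = S
  rw [vR]
  generalize ph1 t * ((1 + D) * exp t - D) = W
  congr 3 <;> simp only [div_eq_mul_inv, mul_inv] <;> generalize W⁻¹ = j <;> field_simp

theorem b1_n (hF : F ≤ 1 / 4) (hw : wR D t ≠ 0) : b1N D F t - 1 =
    (2 * D * (1 - exp ((2 - 2 * F) * t)) * (2 - 2 * F)⁻¹ - (1 + 2 * D) *
      (exp t - exp ((2 - 2 * F) * t)) * (1 - 2 * F)⁻¹) * (-wR D t)⁻¹ := by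
  have e4 := x2_n (D := D) (F := F) (by linarith) (by linarith) t
  rw [b1N, e4, show 2 * F - 1 = -(1 - 2 * F) by ring, inv_neg]
  generalize (2 - 2 * F)⁻¹ = i2
  generalize (1 - 2 * F)⁻¹ = i1
  field_simp
  ring

section

variable (a1 : -3 / 32 ≤ D) (b1 : D ≤ -51 / 1024) (a2 : 235 / 1024 ≤ F) (b2 : F ≤ 1 / 4)
include a1 b1 a2 b2

theorem b1_P (h0 : 0 < t) (h1 : t ≤ 9 / 2) : 0 < b1G D F t := by
  rw [← b1_eqP h0.ne']
  refine B1P.out0 (fun D F _ _ a _ ↦ ?_) a1 b1 a2 b2 h0.le h1 h0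
  refine ((b1_center (D := D) (F := F) (by linarith)).mono
    (nhdsWithin_mono _ fun t (ht : 0 < t) ↦ ht.ne')).congr' ?_ EventuallyEq.rfl
  filter_upwards [self_mem_nhdsWithin] with t (ht : 0 < t) using (b1_eqP ht.ne').symm

theorem b1_N (h0 : t < 0) (h1 : -4 ≤ t) : 0 < b1G D F t := by
  rw [← b1_eqN h0.ne]
  refine B1N.out0 (fun D F _ _ a _ ↦ ?_) a1 b1 a2 b2 (by linarith) (by linarith) (by linarith)
  have h : Tendsto (fun s : ℝ ↦ -s) (𝓝[>] 0) (𝓝[≠] 0) := by
    refine tendsto_nhdsWithin_iff.2 ⟨(continuous_neg.tendsto' 0 0 neg_zero).mono_left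
      nhdsWithin_le_nhds, ?_⟩
    filter_upwards [self_mem_nhdsWithin] with s (hs : 0 < s) using neg_ne_zero.2 hs.ne'
  refine ((b1_center (D := D) (F := F) (by linarith)).comp_tendsto h).congr' ?_
    (Eventually.of_forall fun s ↦ by simp only [Function.comp]; ring)
  filter_upwards [self_mem_nhdsWithin] with s (hs : 0 < s)
  simpa using (b1_eqN (D := D) (F := F) (neg_ne_zero.2 hs.ne')).symm

theorem b1_R (ht : t ∈ JR D) (h1 : 9 / 2 ≤ t) : 0 < b1G D F t := by
  have h0 : 0 < t := by linarith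
  have hw := wR_ne ht h0.ne'
  have hv := vR_pos (F := F) ht h0.ne'
  have hF : F ≠ 0 := by linarith
  have k1 := mul_inv_cancel₀ (show 1 - 2 * F ≠ 0 by linarith)
  have k2 := mul_inv_cancel₀ (show 2 - 2 * F ≠ 0 by linarith)
  have en := b1_n b2 hw
  have eN : b1N D F t * wR D t = F * vR D F t * exp ((2 - 2 * F) * t) := by
    rw [b1N, yR]; field_simp
  have e1 : exp ((2 - 2 * F) * t) = exp (-(F * t)) * exp (-(F * t)) * exp t ^ 2 := by
    rw [sq, ← exp_add, ← exp_add, ← exp_add]; ring_nf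
  have e2 : exp ((4 * F - 1) * t) = (exp t)⁻¹ / exp (-(F * t)) ^ 4 := by
    rw [← exp_neg, ← exp_nat_mul, ← exp_sub]; ring_nf
  have hs := exp_pos (-(F * t))
  have hx := exp_pos t
  have s1 : exp (-(F * t)) ≤ 3 / 8 := (exp_le_exp.2 (by nlinarith)).trans b1_ebd
  have o1 : exp ((4 * F - 1) * t) ≤ 1 := exp_le_one_iff.2 (by nlinarith)
  have e3 : wR D t = (exp t - 1) * ((1 + D) * exp t - D) := by rw [wR_eq, om]
  rw [b1G, b1Z, QR]
  rw [e1] at en eN ⊢
  rw [e2] at o1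
  generalize exp (-(F * t)) = s at *
  generalize exp t = x at *
  generalize b1N D F t = N at *
  generalize vR D F t = v at *
  generalize wR D t = W at *
  have h := B1R.pos0 (D := D) (F := F) (o := x⁻¹ / s ^ 4) (s := s) (q := x⁻¹) (W := W / x ^ 2)
    (n := (N - 1) / (s * s)) (N := N) (w := v * (s * s))
    (m := N * (((1 + 2 * D) * x - 2 * D) / W) / (s * s * (s * s)))
    (b := N * N * (D / W) / (s * s * (s * s) * (s * s * (s * s))))
    (xi := 1 - (1 + v / 8)⁻¹) rfl rfl (by field_simp) (by rw [e3]; field_simp) rfl rfl rfl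
    (by
      rw [en]
      generalize (2 - 2 * F)⁻¹ = i2 at *
      generalize (1 - 2 * F)⁻¹ = i1 at *
      field_simp
      linear_combination (D * x ^ 2 * s ^ 2) * k2 - (1 + 2 * D) * x ^ 2 * s ^ 2 * k1)
    (by field_simp; ring) (by field_simp; linear_combination -eN) (by field_simp)
    (by field_simp) (by field_simp) rfl rfl rfl rfl rfl rfl rfl a1 b1 a2 b2 (by positivity) o1 hs.le s1
  have e5 := b1tl_eq (F := F) (z := s * s) (by positivity)
    (b1q3 D F * (v * (s * s)) + b1q2 D F * (s * s)) ((b1r2 D F - 2 * b1q2 D F) * F)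
    (F * (W / x ^ 2)⁻¹) ((N - 1) / (s * s))
    (N * (((1 + 2 * D) * x - 2 * D) / W) / (s * s * (s * s)))
    (N * N * (D / W) / (s * s * (s * s) * (s * s * (s * s))))
  have e6 : b1k F (b1q3 D F * v + b1q2 D F) ((b1r2 D F - 2 * b1q2 D F) * F)
      (F * (s * s * x ^ 2) / W) (N - 1) (N * (((1 + 2 * D) * x - 2 * D) / W)) (N * N * (D / W)) =
      _ := Eq.trans (by congr 1 <;> field_simp) e5
  rw [e6]
  nlinarith [mul_pos (mul_pos h0 hs) h]

theorem b1_L (ht : t ∈ JR D) (h1 : t ≤ -4) : 0 < b1G D F t := by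
  have h0 : t < 0 := by linarith
  have hw := wR_ne ht h0.ne
  have hv := vR_pos (F := F) ht h0.ne
  have hF : F ≠ 0 := by linarith
  have en := b1_n b2 hw
  have eN : b1N D F t * wR D t = F * vR D F t * exp ((2 - 2 * F) * t) := by
    rw [b1N, yR]; field_simp
  have e2 : -wR D t = (1 - exp t) * ((1 + D) * exp t - D) := by rw [wR_eq, om]; ring
  have hp := exp_pos ((2 - 2 * F) * t)
  have h := B1L.pos0 (D := D) (F := F) (o := exp ((1 - 4 * F) * t / 4)) (a := exp (t / 4))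
    (x := exp t) (p := exp ((2 - 2 * F) * t)) (r := exp ((2 - 2 * F) * t) * exp (-(F * t)))
    (V := -wR D t) (n := b1N D F t - 1) (N := b1N D F t)
    (w := vR D F t * exp ((2 - 2 * F) * t)) (B := D / wR D t) (A := (QR D t - 2 * D) / wR D t)
    (xi := 1 - (1 + vR D F t / 8)⁻¹)
    (z18 := exp ((2 - 2 * F) * t) * (b1q3 D F * vR D F t + b1q2 D F))
    (z21 := exp ((2 - 2 * F) * t) * (F * exp ((2 - 2 * F) * t) / wR D t)) rfl
    (by simp only [← exp_add]; ring_nf) rfl (by simp only [← exp_add]; ring_nf)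
    (by simp only [← exp_add]; ring_nf) e2 rfl rfl rfl en (by ring)
    (by rw [mul_neg, eN]; field_simp) (by field_simp) (by rw [QR]; field_simp)
    (by field_simp) rfl rfl (by ring) rfl rfl (by field_simp) rfl rfl rfl rfl a1 b1 a2 b2
    (exp_pos _).le (exp_le_one_iff.2 (by nlinarith)) (exp_pos _).le
    ((exp_le_exp.2 (by linarith)).trans b1_ebd)
  rw [← b1k_mul, mul_assoc (exp _), ← mul_add] at h
  exact neg_pos.2 (mul_neg_of_neg_of_pos h0 ((mul_pos_iff_of_pos_left hp).1 h))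

end

theorem B1_holds (D F : ℝ) (h1 : -3 / 32 ≤ D) (h2 : D ≤ -1 / 20) (h3 : 23 / 100 ≤ F)
    (h4 : F ≤ 1 / 4) : NoThree D F := by
  have h5 : 235 / 1024 ≤ F := by linarith
  have h6 : D ≤ -51 / 1024 := by linarith
  refine b1_red (by linarith) (by rw [b1q2]; linarith) (by rw [b1q3]; linarith) fun t ht h0 ↦ ?_
  rcases h0.lt_or_gt with h | h
  · rcases le_total t (-4) with k | k
    exacts [b1_L h1 h6 h5 h4 ht k, b1_N h1 h6 h5 h4 h k]
  · rcases le_total t (9 / 2) with k | k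
    exacts [b1_P h1 h6 h5 h4 h k, b1_R h1 h6 h5 h4 ht k]

end Pool.Agent.Lib.MP_d6150d_an
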