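import Pool.Agent.Lib.MP_d6150d_an.KN

/-! Explicit expansions at the center. -/

namespace Pool.Agent.Lib.MP_d6150d_an

open Real Set Filter Topology Asymptotics

variable {D F : ℝ} {f k : ℝ → ℝ} {a0 a1 a2 a3 a4 a5 a6 b0 b1 b2 b3 b4 b5 b6 : ℝ}

theorem jet_ex (hf : AnalyticAt ℝ f 0) : ∃ a1 a2 a3 a4 a5 a6, Jet D F f (f 0) a1 a2 a3 a4 a5 a6 := by
  obtain ⟨h1, a1, e1⟩ := div_g (D := D) (F := F) hf
  obtain ⟨h2, a2, e2⟩ := div_g (D := D) (F := F) a1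
  obtain ⟨h3, a3, e3⟩ := div_g (D := D) (F := F) a2
  obtain ⟨h4, a4, e4⟩ := div_g (D := D) (F := F) a3
  obtain ⟨h5, a5, e5⟩ := div_g (D := D) (F := F) a4
  obtain ⟨h6, a6, e6⟩ := div_g (D := D) (F := F) a5
  obtain ⟨h7, a7, e7⟩ := div_g (D := D) (F := F) a6
  refine ⟨h1 0, h2 0, h3 0, h4 0, h5 0, h6 0, h7, a7, ?_⟩
  filter_upwards [e1, e2, e3, e4, e5, e6, e7] with t e1 e2 e3 e4 e5 e6 e7
  rw [e1, e2, e3, e4, e5, e6, e7]; ring

theorem Jet.congr (J : Jet D F f a0 a1 a2 a3 a4 a5 a6) (e : ∀ t ∈ JR D, k t = f t) :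
    Jet D F k a0 a1 a2 a3 a4 a5 a6 := by
  obtain ⟨h, ha, e'⟩ := J
  refine ⟨h, ha, ?_⟩
  filter_upwards [e', (JR_open D).mem_nhds (zero_mem_JR D)] with t h1 h2
  rw [e t h2, h1]

theorem Jet.const (c : ℝ) : Jet D F (fun _ ↦ c) c 0 0 0 0 0 0 :=
  ⟨fun _ ↦ 0, analyticAt_const, Eventually.of_forall fun _ ↦ by ring⟩

theorem Jet.g : Jet D F (gR D F) 0 1 0 0 0 0 0 :=
  ⟨fun _ ↦ 0, analyticAt_const, Eventually.of_forall fun _ ↦ by ring⟩

theorem Jet.v : Jet D F (vR D F) 0 0 1 0 0 0 0 :=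
  Jet.congr (f := fun t ↦ gR D F t ^ 2)
    ⟨fun _ ↦ 0, analyticAt_const, Eventually.of_forall fun _ ↦ by ring⟩ fun _ ht ↦ (gR_sq ht).symm

theorem Jet.add (J : Jet D F f a0 a1 a2 a3 a4 a5 a6) (K : Jet D F k b0 b1 b2 b3 b4 b5 b6) :
    Jet D F (fun t ↦ f t + k t) (a0 + b0) (a1 + b1) (a2 + b2) (a3 + b3) (a4 + b4) (a5 + b5)
      (a6 + b6) := by
  simpa using J.lin K (-1)

theorem Jet.mul (J : Jet D F f a0 a1 a2 a3 a4 a5 a6) (K : Jet D F k b0 b1 b2 b3 b4 b5 b6) :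
    Jet D F (fun t ↦ f t * k t) (a0 * b0) (a0 * b1 + a1 * b0) (a0 * b2 + a1 * b1 + a2 * b0)
      (a0 * b3 + a1 * b2 + a2 * b1 + a3 * b0) (a0 * b4 + a1 * b3 + a2 * b2 + a3 * b1 + a4 * b0)
      (a0 * b5 + a1 * b4 + a2 * b3 + a3 * b2 + a4 * b1 + a5 * b0)
      (a0 * b6 + a1 * b5 + a2 * b4 + a3 * b3 + a4 * b2 + a5 * b1 + a6 * b0) := by
  obtain ⟨h, ha, e⟩ := J
  obtain ⟨h', ha', e'⟩ := K
  have g := gR_an (F := F) (zero_mem_JR D)
  refine ⟨fun t ↦ (a1 * b6 + a2 * b5 + a3 * b4 + a4 * b3 + a5 * b2 + a6 * b1) +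
    (a2 * b6 + a3 * b5 + a4 * b4 + a5 * b3 + a6 * b2) * gR D F t +
    (a3 * b6 + a4 * b5 + a5 * b4 + a6 * b3) * gR D F t ^ 2 +
    (a4 * b6 + a5 * b5 + a6 * b4) * gR D F t ^ 3 + (a5 * b6 + a6 * b5) * gR D F t ^ 4 +
    a6 * b6 * gR D F t ^ 5 + h t * (b0 + b1 * gR D F t + b2 * gR D F t ^ 2 + b3 * gR D F t ^ 3 +
      b4 * gR D F t ^ 4 + b5 * gR D F t ^ 5 + b6 * gR D F t ^ 6 + gR D F t ^ 7 * h' t) +
    h' t * (a0 + a1 * gR D F t + a2 * gR D F t ^ 2 + a3 * gR D F t ^ 3 + a4 * gR D F t ^ 4 +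
      a5 * gR D F t ^ 5 + a6 * gR D F t ^ 6), by fun_prop, ?_⟩
  filter_upwards [e, e'] with t e e'
  rw [e, e']; ring

theorem jet_step {a : ℝ} (hk : ContinuousAt k 0) (e : ∀ᶠ t in 𝓝[≠] 0, a + gR D F t * k t = 0) :
    a = 0 ∧ ∀ᶠ t in 𝓝[≠] 0, k t = 0 := by
  have g := (gR_an (F := F) (zero_mem_JR D)).continuousAt
  have h : a = 0 := by
    have h1 : Tendsto (fun t ↦ a + gR D F t * k t) (𝓝[≠] 0) (𝓝 (a + gR D F 0 * k 0)) :=
      (continuousAt_const.add (g.mul hk)).tendsto.mono_left nhdsWithin_le_nhds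
    have := tendsto_nhds_unique h1 (tendsto_const_nhds.congr' (e.mono fun t ht ↦ ht.symm))
    simpa [gR] using this
  refine ⟨h, ?_⟩
  filter_upwards [e, self_mem_nhdsWithin,
    nhdsWithin_le_nhds ((JR_open D).mem_nhds (zero_mem_JR D))] with t e h0 ht
  rw [h, zero_add] at e
  refine (mul_eq_zero.1 e).resolve_left ?_
  rcases lt_or_gt_of_ne h0 with h | h
  exacts [(gR_neg ht h).ne, (gR_pos ht h).ne']

theorem Jet.uniq (J : Jet D F f a0 a1 a2 a3 a4 a5 a6) (K : Jet D F f b0 b1 b2 b3 b4 b5 b6) :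
    a0 = b0 ∧ a1 = b1 ∧ a2 = b2 ∧ a3 = b3 ∧ a4 = b4 ∧ a5 = b5 ∧ a6 = b6 := by
  obtain ⟨h, ha, e⟩ := J.lin K 1
  have g := (gR_an (F := F) (zero_mem_JR D)).continuousAt
  have c := ha.continuousAt
  obtain ⟨e0, e⟩ := jet_step (D := D) (F := F) (a := a0 - b0) (k := fun t ↦ a1 - b1 + gR D F t *
    (a2 - b2 + gR D F t * (a3 - b3 + gR D F t * (a4 - b4 + gR D F t * (a5 - b5 + gR D F t *
    (a6 - b6 + gR D F t * h t)))))) (by fun_prop) (by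
      filter_upwards [nhdsWithin_le_nhds e] with t e
      linear_combination -e)
  obtain ⟨e1, e⟩ := jet_step (by fun_prop) e
  obtain ⟨e2, e⟩ := jet_step (by fun_prop) e
  obtain ⟨e3, e⟩ := jet_step (by fun_prop) e
  obtain ⟨e4, e⟩ := jet_step (by fun_prop) e
  obtain ⟨e5, e⟩ := jet_step (by fun_prop) e
  obtain ⟨e6, -⟩ := jet_step c e
  exact ⟨sub_eq_zero.1 e0, sub_eq_zero.1 e1, sub_eq_zero.1 e2, sub_eq_zero.1 e3, sub_eq_zero.1 e4,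
    sub_eq_zero.1 e5, sub_eq_zero.1 e6⟩

variable (D F) in
/-- the coefficient of order two -/
noncomputable def ja2 : ℝ := (1 - F - 2 * D) / 6

variable (D F) in
/-- the coefficient of order three -/
noncomputable def ja3 : ℝ := (1 - 5 * F - D + 4 * F ^ 2 + 10 * D * F + 10 * D ^ 2) / 36

variable (D F) in
/-- the coefficient of order four -/
noncomputable def ja4 : ℝ := (4 - 57 * F - 6 * D + 156 * F ^ 2 + 102 * D * F - 60 * D ^ 2 -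
  103 * F ^ 3 - 312 * D * F ^ 2 - 480 * D ^ 2 * F - 320 * D ^ 3) / 1080

variable (D F) in
/-- the coefficient of order five -/
noncomputable def ja5 : ℝ := (1 - 58 * F - 2 * D + 369 * F ^ 2 + 126 * D * F + 21 * D ^ 2 -
  712 * F ^ 3 - 828 * D * F ^ 2 + 168 * D ^ 2 * F + 700 * D ^ 3 + 400 * F ^ 4 + 1424 * D * F ^ 3 +
  2772 * D ^ 2 * F ^ 2 + 3080 * D ^ 3 * F + 1540 * D ^ 4) / 4320

theorem jet_uR : ∃ a6, Jet D F (uR F) 0 1 (ja2 D F) (ja3 D F) (ja4 D F) (ja5 D F) a6 := by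
  obtain ⟨a1, a2, a3, a4, a5, a6, U⟩ := jet_u (D := D) (F := F)
  obtain ⟨b1, b2, b3, b4, b5, b6, X⟩ := jet_ex (D := D) (F := F) (f := fun t ↦ 1 - exp (-t))
    (by fun_prop)
  simp only [neg_zero, exp_zero, sub_self] at X
  have Y := (Jet.const 1).lin U (-F)
  have Q := (Jet.const 1).lin X 1
  have P := X.lin (X.mul X) (-D)
  have y : ∀ t, 1 - -F * uR F t = exp (F * t) := fun t ↦ by rw [exp_eq_ph (F * t), uR]; ring
  have dx : ∀ t, deriv (fun t ↦ 1 - exp (-t)) t = exp (-t) := fun t ↦ by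
    simpa using ((hasDerivAt_neg t).exp.const_sub 1).deriv
  obtain ⟨-, r1, r2, r3, r4, r5, -⟩ := (Y.mul X.th).uniq ((Q.mul U.th).congr fun t _ ↦ by
    simp only [y, th, Dg, dx, (hasDerivAt_uR t).deriv]; ring)
  obtain ⟨-, -, s2, s3, s4, s5, s6⟩ := ((U.th.mul Y).mul P).uniq (Jet.v.congr fun t ht ↦ by
    have h1 := gR_deriv (F := F) ht
    have h2 := (gR_deriv_pos (F := F) ht).ne'
    have h3 : exp ((2 * F - 2) * t) = exp (F * t) * exp (F * t) * exp (-t) ^ 2 := by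
      rw [sq, ← exp_add, ← exp_add, ← exp_add]; ring_nf
    have h4 : exp (-t) * exp t = 1 := by rw [← exp_add]; simp
    simp only [y, th, Dg, (hasDerivAt_uR t).deriv, ← gR_sq ht]
    rw [WR, om, h3] at h1
    field_simp
    linear_combination (-gR D F t / 2) * h1 - gR D F t * exp (F * t) ^ 2 *
      ((1 + D) * (1 + exp (-t) * exp t) - (1 + 2 * D) * exp (-t)) * h4)
  obtain ⟨f0, h0, e0⟩ := exists_f0 (D := D) (F := F)
  obtain ⟨c1, c2, c3, c4, c5, c6, J0⟩ := jet_ex (D := D) (F := F) (h0 0 (zero_mem_JR D))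
  obtain ⟨-, h1, -⟩ := U.th.uniq ((Jet.g.add (Jet.v.mul J0)).congr fun t ht ↦ by
    rw [th, e0 t ht, ← gR_sq ht]; ring)
  obtain rfl : a1 = 1 := by linarith
  obtain rfl : b1 = 1 := by linarith
  obtain rfl : a2 = ja2 D F := by rw [ja2]; linear_combination s3 / 3 - r2 / 6
  obtain rfl : b2 = (-1 - 2 * F - D) / 3 := by simp only [ja2] at r2; linear_combination r2 / 2
  obtain rfl : a3 = ja3 D F := by
    simp only [ja2, ja3] at r3 s4 ⊢; linear_combination s4 / 4 - r3 / 12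
  obtain rfl : b3 = (1 + 13 * F + 11 * D + 22 * F ^ 2 + 22 * D * F + 10 * D ^ 2) / 36 := by
    simp only [ja2, ja3] at r3; linear_combination r3 / 3
  obtain rfl : a4 = ja4 D F := by
    simp only [ja2, ja3, ja4] at r4 s5 ⊢; linear_combination s5 / 5 - r4 / 20
  obtain rfl : b4 = (1 - 3 * F - 24 * D - 96 * F ^ 2 - 177 * D * F - 105 * D ^ 2 - 172 * F ^ 3 -
      258 * D * F ^ 2 - 210 * D ^ 2 * F - 80 * D ^ 3) / 270 := by
    simp only [ja2, ja3, ja4] at r4; linear_combination r4 / 4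
  obtain rfl : a5 = ja5 D F := by
    simp only [ja2, ja3, ja4, ja5] at r5 s6 ⊢; linear_combination s6 / 6 - r5 / 30
  exact ⟨a6, U⟩

theorem Jet.poly (c0 c1 c2 c3 c4 : ℝ) : Jet D F (fun t ↦ c0 + c1 * vR D F t + c2 * vR D F t ^ 2 +
    c3 * vR D F t ^ 3 + c4 * vR D F t ^ 4) c0 0 c1 0 c2 0 c3 :=
  have g := gR_an (F := F) (zero_mem_JR D)
  Jet.congr (f := fun t ↦ c0 + c1 * gR D F t ^ 2 + c2 * (gR D F t ^ 2) ^ 2 +
    c3 * (gR D F t ^ 2) ^ 3 + c4 * (gR D F t ^ 2) ^ 4)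
    ⟨fun t ↦ c4 * gR D F t, by fun_prop, Eventually.of_forall fun _ ↦ by ring⟩
    fun _ ht ↦ by rw [gR_sq ht]

theorem Jet.cast (J : Jet D F f a0 a1 a2 a3 a4 a5 a6) (e0 : a0 = b0) (e1 : a1 = b1) (e2 : a2 = b2)
    (e3 : a3 = b3) (e4 : a4 = b4) (e5 : a5 = b5) (e6 : a6 = b6) : Jet D F f b0 b1 b2 b3 b4 b5 b6 := by
  subst e0 e1 e2 e3 e4 e5 e6; exact J

/-- The expansion of the kernel. -/
theorem Gp.K_jet (o : Gp) : ∃ a6, Jet D F (o.K D F) 0 0 0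
    (3 * (16 * o.p0 + 4 * o.q0 + o.r0) * ja3 D F)
    (8 * (25 * o.p0 + 5 * o.q0 + o.r0) * ja4 D F + 2 * (9 * o.p1 + 3 * o.q1 + o.r1) * ja2 D F)
    (15 * (36 * o.p0 + 6 * o.q0 + o.r0) * ja5 D F + 6 * (16 * o.p1 + 4 * o.q1 + o.r1) * ja3 D F)
    (24 * (49 * o.p0 + 7 * o.q0 + o.r0) * a6 + 12 * (25 * o.p1 + 5 * o.q1 + o.r1) * ja4 D F +
      3 * (9 * o.p2 + 3 * o.q2 + o.r2) * ja2 D F) := by
  obtain ⟨a6, U⟩ := jet_uR (D := D) (F := F)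
  refine ⟨a6, (((((((Jet.poly o.p0 o.p1 o.p2 o.p3 o.p4).mul U.th.th.th.th).add
    ((Jet.poly o.q0 (o.p1 + o.q1) (2 * o.p2 + o.q2) (4 * o.p3 + o.q3) (8 * o.p4)).mul U.th.th.th)).add
    ((Jet.poly (-3 * o.p0 - o.q0 + o.r0) (o.r1 - o.p1) (o.q2 + o.r2) (2 * o.p3 + 3 * o.q3)
      (14 * o.p4)).mul U.th.th)).add
    ((Jet.poly (-2 * (o.p0 + o.q0 + o.r0)) (-(o.p1 + o.q1 + o.r1)) (-(2 * o.p2 + o.q2))
      (-(4 * o.p3 + o.q3)) (-(8 * o.p4))).mul U.th)).add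
    ((Jet.poly 0 0 (-(o.p2 + o.q2 + o.r2)) (-(3 * (o.p3 + o.q3))) (-(15 * o.p4))).mul U)).add
    ((Jet.const (4 * o.p0 + 2 * o.q0 + o.r0)).mul Jet.g)).congr (k := o.K D F)
      (fun t _ ↦ ?_) |>.cast (by ring) (by ring) (by ring) (by ring) (by ring) (by ring) (by ring)⟩
  simp only [Gp.K, Gp.P, Gp.C3, Gp.C2, Gp.C1, Gp.C0, TR]; ring

/-- The expansion of the kernel corrected by a null function. -/
theorem Gp.KN_jet (o : Gp) (h : ℝ) (K : Jet D F (o.K D F) 0 0 0 a3 a4 a5 a6)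
    (J : Jet D F f b0 b1 b2 b3 b4 b5 b6) : Jet D F (o.KN D F f h) 0 0 0 (a3 + h * b1)
      (a4 + 2 * h * b2 - b0) (a5 + 3 * h * b3 - 2 * b1) (a6 + 4 * h * b4 - 3 * b2) :=
  (K.add (Jet.v.mul (((((Jet.const h).lin Jet.v 1).mul J.th)).lin (Jet.v.mul J) 1))).congr
    (k := o.KN D F f h) (fun t _ ↦ by simp only [Gp.KN]; ring) |>.cast
    (by ring) (by ring) (by ring) (by ring) (by ring) (by ring) (by ring)

theorem cont_v {E : ℝ → ℝ} (hE : ContinuousAt E 0) : ContinuousAt (fun t ↦ E (vR D F t)) 0 :=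
  ContinuousAt.comp (by simpa [vR] using hE) (AnJ.v (F := F) 0 (zero_mem_JR D)).continuousAt

/-- order five -/
theorem Jet.center5 (J : Jet D F f 0 0 0 0 a4 a5 a6) {E : ℝ → ℝ} (hE : ContinuousAt E 0) :
    (fun t ↦ f t - (a4 * vR D F t ^ 2 + vR D F t ^ 3 * E (vR D F t))) =O[𝓝 0] fun t ↦ t ^ 5 := by
  obtain ⟨h, ha, e⟩ := J
  have g := (gR_an (F := F) (zero_mem_JR D)).continuousAt
  have c := ha.continuousAt
  have cE := cont_v (D := D) (F := F) hE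
  refine (cont_bigO (D := D) (F := F) (k := fun t ↦ a5 + gR D F t * (a6 - E (vR D F t)) +
    gR D F t ^ 2 * h t) ((continuousAt_const.add (g.mul (continuousAt_const.sub cE))).add
      ((g.pow 2).mul c)) 5).congr' ?_ EventuallyEq.rfl
  filter_upwards [e, (JR_open D).mem_nhds (zero_mem_JR D)] with t e ht
  rw [e]; generalize E (vR D F t) = x; rw [← gR_sq ht]; ring

/-- order seven -/
theorem Jet.center7 (J : Jet D F f 0 0 0 0 a4 0 a6) {E : ℝ → ℝ} (hE : ContinuousAt E 0) :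
    (fun t ↦ f t - (a4 * vR D F t ^ 2 + a6 * vR D F t ^ 3 + vR D F t ^ 4 * E (vR D F t)))
      =O[𝓝 0] fun t ↦ t ^ 7 := by
  obtain ⟨h, ha, e⟩ := J
  have g := (gR_an (F := F) (zero_mem_JR D)).continuousAt
  have c := ha.continuousAt
  have cE := cont_v (D := D) (F := F) hE
  refine (cont_bigO (D := D) (F := F) (k := fun t ↦ h t - gR D F t * E (vR D F t))
    (c.sub (g.mul cE)) 7).congr' ?_ EventuallyEq.rfl
  filter_upwards [e, (JR_open D).mem_nhds (zero_mem_JR D)] with t e ht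
  rw [e]; generalize E (vR D F t) = x; rw [← gR_sq ht]; ring

end Pool.Agent.Lib.MP_d6150d_an
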