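import Pool.Agent.Lib.MP_d6150d_an.X2M
import Pool.Agent.Lib.MP_d6150d_an.KNJ

/-! The strip `X2`: the operator, the separator and the reduction to one inequality. -/

namespace Pool.Agent.Lib.MP_d6150d_an

open Real Set Filter Topology Asymptotics

/-- the operator -/
noncomputable def x2o (F : ℝ) : Gp := ⟨0, 0, 0, 0, 0, x2c F, 0, 1, 1 / F - 2, 0, 0, 0⟩

/-- the kernel divided by `exp (F * t)` -/
noncomputable def x2Z (D F t : ℝ) : ℝ := x2phi F (2 * F * yR D F t / wR D t - 1)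
  ((QR D t - 2 * D) / wR D t) (D / wR D t) (exp ((2 - 2 * F) * t) / wR D t)

/-- the basic function of the separator -/
noncomputable def x2r (F v : ℝ) : ℝ := (√(1 + F * v / 3))⁻¹

/-- the separator -/
noncomputable def x2E (D F v : ℝ) : ℝ :=
  x2r F v * x2r F v * x2r F v * x2sep D F (1 - x2r F v * x2r F v)

/-- the function whose sign is studied -/
noncomputable def x2G (D F t : ℝ) : ℝ := t * (x2Z D F t - exp (-(F * t)) * x2E D F (vR D F t))

variable {D F t : ℝ}

theorem x2_K (hF : F ≠ 0) (ht : t ∈ JR D) (h0 : t ≠ 0) : F ^ 3 * (x2o F).K D F t =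
    vR D F t ^ 2 * (exp (F * t) * x2Z D F t + F * (1 - F)) := by
  have hw := wR_ne ht h0
  have hu : uR F t = (exp (F * t) - 1) / F := by rw [exp_eq_ph, uR]; field_simp; ring
  have hP : PR D t = wR D t + QR D t - D := by rw [wR]; ring
  rw [Gp.K_eq ht h0, hu]
  simp only [x2o, Gp.P, Gp.C3, Gp.C2, Gp.C1, Gp.C0, x2Z, x2phi, U1, U2, U3, pjR, yR, hP]
  generalize wR D t = W at *
  generalize QR D t = Q
  generalize vR D F t = v
  generalize exp ((2 - 2 * F) * t) = e
  generalize exp (F * t) = y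
  generalize x2c F = c
  generalize U4 D F t = u
  generalize gR D F t = g
  field_simp
  ring

theorem x2_emn (z : ℝ) : exp z * exp (-z) = 1 := by rw [← exp_add]; simp

theorem x2_red (hF : 0 < F) (H : ∀ t ∈ JR D, t ≠ 0 → 0 < x2G D F t) : NoThree D F := by
  refine Crit1.noThree ⟨x2o F, 1, fun x ↦ by simp [x2o, Gp.P], fun a ha b hb a0 b0 e ↦
    ⟨by simp [x2o, Gp.Q]; positivity, ?_⟩⟩
  have p1 := mul_neg_of_pos_of_neg (exp_pos (F * a)) (neg_of_mul_pos_right (H a ha a0.ne) a0.le)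
  have p2 := mul_pos (exp_pos (F * b)) ((mul_pos_iff_of_pos_left b0).1 (H b hb b0.ne'))
  rw [mul_sub, ← mul_assoc, x2_emn, one_mul] at p1 p2
  have e1 := x2_K hF.ne' ha a0.ne
  have e2 := x2_K hF.ne' hb b0.ne'
  rw [e] at p1 e1
  refine lt_of_mul_lt_mul_left ?_ (pow_pos hF 3).le
  rw [one_mul, one_mul, e1, e2]
  exact mul_lt_mul_of_pos_left (by linarith) (pow_pos (vR_pos hb b0.ne') 2)

theorem x2_center (hF : 0 < F) : x2G D F =O[𝓝[≠] 0] fun t ↦ t ^ 2 := by
  obtain ⟨a6, J⟩ := (x2o F).K_jet (D := D) (F := F)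
  have hr : DifferentiableAt ℝ (x2r F) 0 :=
    (DifferentiableAt.sqrt (f := fun v ↦ 1 + F * v / 3) (by fun_prop) (by simp)).inv (by simp)
  have hE : DifferentiableAt ℝ (fun v ↦ (x2E D F v + F * (1 - F)) / F ^ 3) 0 := by
    unfold x2E x2sep; fun_prop
  have h := (J.cast rfl rfl rfl (b3 := 0) (by simp [x2o]) rfl rfl rfl).center5
    (continuousAt_dslope_same.2 hE)
  have hm : ContinuousAt (fun t ↦ F ^ 3 * (muR D F t ^ 2 * exp (F * t))⁻¹) 0 :=
    continuousAt_const.mul (ContinuousAt.inv₀ (((muR_an D F 0).continuousAt.pow 2).mul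
      (by fun_prop)) (by simp [muR_zero]))
  refine ((isBigO_refl (fun t : ℝ ↦ (t ^ 3)⁻¹) _).mul
    ((h.mul (hm.isBigO_one ℝ)).mono nhdsWithin_le_nhds)).congr' ?_ ?_
  · filter_upwards [self_mem_nhdsWithin,
      nhdsWithin_le_nhds ((JR_open D).mem_nhds (zero_mem_JR D))] with t h0 ht
    have h0 : t ≠ 0 := h0
    have e1 := x2_K hF.ne' ht h0
    have e2 := sub_smul_dslope (fun v ↦ (x2E D F v + F * (1 - F)) / F ^ 3) 0 (vR D F t)
    have e3 : x2E D F 0 = F * (F * F * (1 - F - 2 * D) * x2c F / 3 - (1 - F)) := by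
      simp [x2E, x2r, x2sep]
    have e4 := x2_emn (F * t)
    have hm := (muR_pos (F := F) ht).ne'
    have hy := (exp_pos (F * t)).ne'
    have hF := hF.ne'
    rw [sub_zero, smul_eq_mul, e3] at e2
    obtain e5 : exp (-(F * t)) = (exp (F * t))⁻¹ := exp_neg _
    have e6 : (x2o F).K D F t =
      vR D F t ^ 2 * (exp (F * t) * x2Z D F t + F * (1 - F)) / F ^ 3 := by rw [← e1]; field_simp
    rw [x2G, e5, e6, pow_succ (vR D F t) 2, mul_assoc (vR D F t ^ 2), e2]
    simp only [x2o, ja2]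
    generalize x2E D F (vR D F t) = E
    rw [vR]
    field_simp
    ring
  · filter_upwards [self_mem_nhdsWithin] with t h0
    have h0 : t ≠ 0 := h0
    field_simp

theorem x2cen_eq (h0 : t ≠ 0) (M A B L : ℝ) :
    x2cen F t M A B L = t * x2phi F (t * M - 1) (A / t) (B / t) (L / t) := by
  simp only [x2cen, x2phi]; field_simp; ring

theorem x2tl_eq (q n A B L : ℝ) :
    x2phi F (q * n) (q * A) (q * q * B) (q * L) = q * q * x2tl F q n A B L := by
  simp only [x2tl, x2phi]; ring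

theorem x2_wph (t : ℝ) : wR D t = t * (ph1 t * ((1 + D) * exp t - D)) := by
  rw [wR_eq, om, exp_eq_ph t]; ring

theorem x2_n (h1 : 2 * F - 1 ≠ 0) (h2 : 2 - 2 * F ≠ 0) (t : ℝ) :
    2 * F * yR D F t = wR D t - (2 * D * (1 - exp ((2 - 2 * F) * t)) * (2 - 2 * F)⁻¹ +
      (1 + 2 * D) * (exp t - exp ((2 - 2 * F) * t)) * (2 * F - 1)⁻¹) := by
  have e1 := exp_eq_ph (2 * F * t)
  have e2 := exp_eq_ph ((2 * F - 1) * t)
  have e3 := exp_eq_ph ((2 * F - 2) * t)
  have e4 := exp_y (F := F) t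
  have k1 := mul_inv_cancel₀ h1
  have k2 := mul_inv_cancel₀ h2
  rw [exp_a1] at e1
  rw [exp_a2] at e2
  rw [yR, vR_eq, wR, PR, QR]
  generalize exp ((2 - 2 * F) * t) = p at *
  generalize exp ((2 * F - 2) * t) = r at *
  generalize exp t = x at *
  generalize (2 - 2 * F)⁻¹ = i2 at *
  generalize (2 * F - 1)⁻¹ = i1 at *
  generalize ph1 (2 * F * t) = a at *
  generalize ph1 ((2 * F - 1) * t) = b at *
  generalize ph1 ((2 * F - 2) * t) = c at *
  linear_combination (-(1 + D) * p) * e1 + (1 + 2 * D) * p * (1 + i1) * e2 + D * p * (2 * i2 - 1) * e3 +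
    ((1 + D) * x ^ 2 - (1 + 2 * D) * (1 + i1) * x - D * (2 * i2 - 1)) * e4 +
    (1 + 2 * D) * p * t * b * k1 - 2 * D * p * t * c * k2

theorem x2r_scale {g u : ℝ} (hg : 0 < g) : g * (√(g * g * u))⁻¹ = (√u)⁻¹ := by
  rw [sqrt_mul (mul_self_nonneg g), sqrt_mul_self hg.le, mul_inv, ← mul_assoc,
    mul_inv_cancel₀ hg.ne', one_mul]

theorem x2_ebd : exp (-(5 / 2)) ≤ 1 / 12 := by
  rw [exp_neg, one_div]
  refine inv_anti₀ (by norm_num) (le_trans ?_ (sum_le_exp_of_nonneg (by norm_num) 8))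
  simp only [Finset.sum_range_succ, Nat.factorial]; norm_num

end Pool.Agent.Lib.MP_d6150d_an
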