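import Pool.Agent.Lib.MP_d6150d_an.B1M
import Pool.Agent.Lib.MP_d6150d_an.X2G

/-! The strip `B1`: the operator, the separator and the reduction to one inequality. -/

namespace Pool.Agent.Lib.MP_d6150d_an

open Real Set Filter Topology Asymptotics

/-- the operator -/
noncomputable def b1o (D F : ℝ) : Gp := ⟨0, 0, 0, 0, 1, -4, 0, b1q2 D F, b1r2 D F, 0, b1q3 D F, 0⟩

/-- the logarithmic derivative of `exp (F * t)` -/
noncomputable def b1N (D F t : ℝ) : ℝ := 2 * F * yR D F t / wR D t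

/-- the kernel divided by `-exp (F * t)` -/
noncomputable def b1Z (D F t : ℝ) : ℝ := b1k F (b1q3 D F * vR D F t + b1q2 D F)
  ((b1r2 D F - 2 * b1q2 D F) * F) (F * exp ((2 - 2 * F) * t) / wR D t) (b1N D F t - 1)
  (b1N D F t * ((QR D t - 2 * D) / wR D t)) (b1N D F t * b1N D F t * (D / wR D t))

/-- the function whose sign is studied -/
noncomputable def b1G (D F t : ℝ) : ℝ :=
  -(t * (b1Z D F t + exp (-(F * t)) * b1sep D F (1 - (1 + vR D F t / 8)⁻¹)))

variable {D F t : ℝ}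

theorem b1_K (hF : F ≠ 0) (ht : t ∈ JR D) (h0 : t ≠ 0) : F ^ 3 * (b1o D F).K D F t =
    vR D F t ^ 2 * (F ^ 2 * (b1q2 D F + b1r2 D F + 3 * b1q3 D F * vR D F t) -
      exp (F * t) * b1Z D F t) := by
  have hw := wR_ne ht h0
  have hu : uR F t = (exp (F * t) - 1) / F := by rw [exp_eq_ph, uR]; field_simp; ring
  have hP : PR D t = wR D t + QR D t - D := by rw [wR]; ring
  rw [Gp.K_eq ht h0, hu]
  simp only [b1o, Gp.P, Gp.C3, Gp.C2, Gp.C1, Gp.C0, b1Z, b1N, b1k, U1, U2, U3, pjR, yR, hP]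
  generalize wR D t = W at *
  generalize QR D t = Q
  generalize vR D F t = v
  generalize exp ((2 - 2 * F) * t) = e
  generalize exp (F * t) = y
  generalize b1q2 D F = c2
  generalize b1q3 D F = c3
  generalize b1r2 D F = r2
  generalize U4 D F t = u
  generalize gR D F t = g
  field_simp
  ring

theorem b1_red (hF : 0 < F) (h2 : 0 ≤ b1q2 D F) (h3 : 0 ≤ b1q3 D F)
    (H : ∀ t ∈ JR D, t ≠ 0 → 0 < b1G D F t) : NoThree D F := by
  refine Crit1.noThree ⟨b1o D F, 1, fun x ↦ by simp [b1o, Gp.P], fun a ha b hb a0 b0 e ↦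
    ⟨by have := vR_pos (F := F) hb b0.ne'; simp [b1o, Gp.Q]; positivity, ?_⟩⟩
  have p1 := mul_pos (exp_pos (F * a)) (pos_of_mul_neg_right (neg_pos.1 (H a ha a0.ne)) a0.le)
  have p2 := mul_neg_of_pos_of_neg (exp_pos (F * b))
    (neg_of_mul_neg_right (neg_pos.1 (H b hb b0.ne')) b0.le)
  rw [mul_add, ← mul_assoc, x2_emn, one_mul] at p1 p2
  have e1 := b1_K hF.ne' ha a0.ne
  have e2 := b1_K hF.ne' hb b0.ne'
  rw [e] at p1 e1
  refine lt_of_mul_lt_mul_left ?_ (pow_pos hF 3).le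
  rw [one_mul, one_mul, e1, e2]
  exact mul_lt_mul_of_pos_left (by linarith) (pow_pos (vR_pos hb b0.ne') 2)

theorem b1_sep (hF : F ≠ 0) : ∃ E : ℝ → ℝ, ContinuousAt E 0 ∧ ∀ v, 0 ≤ v →
    F ^ 2 * (b1q2 D F + b1r2 D F + 3 * b1q3 D F * v) + b1sep D F (1 - (1 + v / 8)⁻¹) =
      F ^ 3 * (-2 * ja2 D F + (12 * ja4 D F + 3 * (3 * b1q2 D F + b1r2 D F) * ja2 D F) * v +
        v ^ 2 * E v) := by
  refine ⟨fun v ↦ (1 + v / 8)⁻¹ / (64 * F) * ((1 + v / 8)⁻¹ *
    (3 / 4 * (16 * F - 4) - 19 / 50 - 11 / 10 * (16 * D + 1) + (1 - (1 + v / 8)⁻¹) *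
      (4 / 5 * (16 * F - 4) - 17 / 100 - 13 / 50 * (16 * D + 1))) -
    8 * (F * (12 * ja4 D F + 3 * (3 * b1q2 D F + b1r2 D F) * ja2 D F) - 3 * b1q3 D F)),
    by fun_prop (disch := simp), fun v hv ↦ ?_⟩
  have h : 8 + v ≠ 0 := by positivity
  have e : (1 + v / 8)⁻¹ = 8 / (8 + v) := by field_simp
  simp only [b1sep, e]
  generalize b1q2 D F = c2
  generalize b1q3 D F = c3
  generalize b1r2 D F = r2
  generalize ja2 D F = a2
  generalize ja4 D F = a4
  field_simp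
  ring

theorem b1_center (hF : 0 < F) : b1G D F =O[𝓝[≠] 0] fun t ↦ t ^ 4 := by
  obtain ⟨a6, J⟩ := (b1o D F).K_jet (D := D) (F := F)
  obtain ⟨E, hE, hs⟩ := b1_sep (D := D) hF.ne'
  have h := (J.cast rfl rfl rfl (b3 := 0) (by simp [b1o]) (b4 := -2 * ja2 D F)
    (by simp only [b1o]; ring) (b5 := 0) (by simp only [b1o]; ring)
    (b6 := 12 * ja4 D F + 3 * (3 * b1q2 D F + b1r2 D F) * ja2 D F)
    (by simp only [b1o]; ring)).center7 hE
  have hm : ContinuousAt (fun t ↦ F ^ 3 * (muR D F t ^ 2 * exp (F * t))⁻¹) 0 :=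
    continuousAt_const.mul (ContinuousAt.inv₀ (((muR_an D F 0).continuousAt.pow 2).mul
      (by fun_prop)) (by simp [muR_zero]))
  refine ((isBigO_refl (fun t : ℝ ↦ (t ^ 3)⁻¹) _).mul
    ((h.mul (hm.isBigO_one ℝ)).mono nhdsWithin_le_nhds)).congr' ?_ ?_
  · filter_upwards [self_mem_nhdsWithin,
      nhdsWithin_le_nhds ((JR_open D).mem_nhds (zero_mem_JR D))] with t h0 ht
    have h0 : t ≠ 0 := h0
    have e1 := b1_K hF.ne' ht h0
    have e2 := hs _ (vR_pos (F := F) ht h0).le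
    have hm := (muR_pos (F := F) ht).ne'
    have hy := (exp_pos (F * t)).ne'
    have e3 : F ^ 3 * ((b1o D F).K D F t - (-2 * ja2 D F * vR D F t ^ 2 +
        (12 * ja4 D F + 3 * (3 * b1q2 D F + b1r2 D F) * ja2 D F) * vR D F t ^ 3 +
        vR D F t ^ 4 * E (vR D F t))) = -(vR D F t ^ 2 * (exp (F * t) * b1Z D F t +
          b1sep D F (1 - (1 + vR D F t / 8)⁻¹))) := by
      linear_combination e1 + vR D F t ^ 2 * e2
    rw [← mul_assoc (_ - _), mul_comm (_ - _), e3, b1G, exp_neg]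
    generalize b1sep D F _ = S
    rw [vR]
    field_simp
  · filter_upwards [self_mem_nhdsWithin] with t h0
    have h0 : t ≠ 0 := h0
    field_simp

theorem b1k_mul (s c3 c2 c1 n m b : ℝ) :
    s * b1k F c3 c2 c1 n m b = b1k F (s * c3) (s * c2) (s * c1) n m b := by
  simp only [b1k]; ring

theorem b1tl_eq {z : ℝ} (hz : z ≠ 0) (c3 c2 c1 n m b : ℝ) :
    b1k F (c3 / z) c2 (z * c1) (z * n) (z * z * m) (z * z * (z * z) * b) =
      z * b1tl F z c3 c2 c1 n m b := by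
  simp only [b1k, b1tl]; field_simp; ring

theorem b1_ebd : exp (-1) ≤ 3 / 8 := by
  rw [exp_neg, inv_le_comm₀ (exp_pos _) (by norm_num)]
  exact le_trans (by norm_num) exp_one_gt_d9.le

end Pool.Agent.Lib.MP_d6150d_an
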