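import Pool.Agent.Lib.MP_d6150d_an.GDef

/-! A generated chart: the program. -/

namespace Pool.Agent.Lib.MP_d6150d_an.B1L

def prog3 : List Ins := .sub false 1 0 :: .int 60 :: .smul 480 142 :: .add false 1 0 :: .smul 320
    151 :: .add true 1 0 :: .mul 153 0 :: .sub true 6 0 :: .mul 155 0 :: .add true 14 0 :: .mul 23 0
    :: .smul 3 104 :: .add true 0 71 :: .smul 3 0 :: .mul 0 38 :: .add true 4 0 :: .mul 156 0 ::
    .smul 3 152 :: .sub false 1 0 :: .smul 8 0 :: .cst 3 4 :: .mul 0 158 :: .cst 19 50 :: .sub false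
    1 0 :: .cst 11 10 :: .mul 0 169 :: .sub false 2 0 :: .cst 4 5 :: .mul 0 165 :: .cst 17 100 ::
    .sub false 1 0 :: .cst 13 50 :: .mul 0 176 :: .sub true 2 0 :: .mul 48 0 :: .add true 8 0 ::
    .mul 50 0 :: .add true 17 0 :: .mul 52 0 :: .add true 59 0 :: .mul 68 0 :: .mul 70 0 :: .add
    false 74 0 :: .cpy 0 :: []

def prog2 : List Ins := .mul 0 57 :: .mul 91 0 :: .smul (-1) 0 :: .sub false 22 35 :: .sub false 0
    22 :: .sub false 60 15 :: .mul 0 96 :: .add true 37 40 :: .mul 1 0 :: .add false 4 0 :: .add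
    true 2 40 :: .mul 101 66 :: .add false 4 0 :: .add false 0 46 :: .mul 3 0 :: .sub true 5 0 ::
    .mul 13 0 :: .add false 18 0 :: .mul 99 101 :: .mul 97 98 :: .mul 1 0 :: .mul 111 111 :: .cst 1
    6 :: .sub false 118 113 :: .sub true 0 108 :: .mul 2 0 :: .mul 99 0 :: .smul (-1) 0 :: .sub
    false 0 71 :: .sub false 0 38 :: .cst 1 8 :: .mul 0 82 :: .add false 109 0 :: .inv 0 :: .mul 111
    0 :: .sub false 130 0 :: .cst 1 90 :: .int 156 :: .smul 103 128 :: .sub true 1 0 :: .mul 130 0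
    :: .int 57 :: .sub true 1 0 :: .mul 133 0 :: .add false 132 0 :: .int 102 :: .smul 312 136 ::
    .sub true 1 0 :: .mul 138 0 :: .int 6 :: prog3

def prog1 : List Ins := .cst 16 25 :: .cst 9 25 :: .mul 0 46 :: .add false 2 0 :: .cst 48 25 :: .mul
    0 42 :: .sub true 2 0 :: .mul 0 34 :: .add false 8 0 :: .mul 28 40 :: .mul 0 17 :: .smul (-1) 0
    :: .mul 59 19 :: .smul (-1) 0 :: .smul 2 0 :: .sub false 3 0 :: .mul 21 0 :: .mul 22 0 :: .smul
    4 58 :: .mul 59 25 :: .smul 5 0 :: .sub false 2 0 :: .sub false 0 27 :: .mul 5 0 :: .mul 4 4 ::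
    .mul 0 31 :: .smul 3 0 :: .sub false 3 0 :: .mul 33 33 :: .mul 0 15 :: .smul 2 0 :: .mul 14 14
    :: .smul 3 0 :: .sub true 2 0 :: .mul 39 0 :: .add true 7 0 :: .mul 27 0 :: .sub false 74 81 ::
    .smul 3 0 :: .int 3 :: .sub false 1 0 :: .smul 2 34 :: .sub true 1 0 :: .mul 0 83 :: .mul 71 0
    :: .mul 25 51 :: .add true 0 28 :: .mul 2 0 :: .add false 11 0 :: .mul 76 76 :: prog2

def prog : List Ins := .cst 29 500 :: .cst 1 100 :: .var 0 :: .smul 16 0 :: .int 1 :: .add true 1 0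
    :: .mul 4 0 :: .sub false 6 0 :: .cst 9 100 :: .var 1 :: .smul 16 0 :: .int 4 :: .sub true 1 0
    :: .mul 4 0 :: .sub false 6 0 :: .smul 2 12 :: .var 3 :: .mul 0 0 :: .mul 0 0 :: .mul 0 1 ::
    .var 2 :: .mul 0 0 :: .mul 2 0 :: .sub false 18 0 :: .mul 8 0 :: .int 2 :: .smul 2 16 :: .sub
    true 1 0 :: .inv 0 :: .mul 4 0 :: .add true 25 14 :: .sub false 12 8 :: .mul 1 0 :: .sub true 28
    6 :: .inv 0 :: .mul 2 0 :: .sub false 6 0 :: .sub false 32 18 :: .add false 33 35 :: .mul 0 20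
    :: .sub false 0 37 :: .mul 3 0 :: .inv 0 :: .mul 6 0 :: .add true 0 39 :: .mul 0 3 :: .inv 36 ::
    .mul 1 0 :: .smul (-1) 0 :: .mul 34 0 :: prog1

def vs : List Vr := [⟨2, 0, false, false⟩, ⟨2, 0, false, false⟩, ⟨2, 0, false, false⟩, ⟨5, 0, false,
    false⟩]

def C : Chart := ⟨vs, prog, [], 1, 3⟩

end Pool.Agent.Lib.MP_d6150d_an.B1L
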