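import Pool.Agent.Lib.MP_d6150d_an.GMac
import Pool.Agent.Lib.MP_d6150d_an.KNJ

/-! The strip `B1`: definitions and program forms. -/

namespace Pool.Agent.Lib.MP_d6150d_an

/-- the coefficients of the operator -/
noncomputable def b1q3 (D F : ℝ) : ℝ := 29 / 500 - 1 / 100 * (16 * D + 1) - 9 / 100 * (16 * F - 4)
noncomputable def b1q2 (D F : ℝ) : ℝ := 16 / 25 + 9 / 25 * (16 * D + 1) - 48 / 25 * (16 * F - 4)
noncomputable def b1r2 (D F : ℝ) : ℝ := 3 * (16 * F - 4 - (16 * D + 1)) - 3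

/-- the separator -/
noncomputable def b1sep (D F x : ℝ) : ℝ :=
  F * F * (-(2 * F * ja2 D F) - b1q2 D F - b1r2 D F +
    x * (8 * (F * (12 * ja4 D F + 3 * (3 * b1q2 D F + b1r2 D F) * ja2 D F) - 3 * b1q3 D F) +
      x * (3 / 4 * (16 * F - 4) - 19 / 50 - 11 / 10 * (16 * D + 1) +
        x * (4 / 5 * (16 * F - 4) - 17 / 100 - 13 / 50 * (16 * D + 1)))))

/-- the kernel in terms of logarithmic derivatives -/
noncomputable def b1k (F c3 c2 c1 n m b : ℝ) : ℝ :=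
  c3 * ((n + 1) * m * (4 * F - 5 * (F * n) - (n + 1)) - 3 * (F * n * (F * n) * n) +
    (n + 1) * (2 * b - 3 * (m * m))) + c2 * (F * n * n + (n + 1) * m) +
    c1 * (2 * b - (n + 1) * m - m * m + (n + 1 - 3) * F * (F * n + m) -
      (F * n + m + F * n) * (F * n + m + F * (n + 1) + m))

/-- the same in the right tail -/
noncomputable def b1tl (F z c3 c2 c1 n m b : ℝ) : ℝ :=
  c3 * ((z * n + 1) * m * (4 * F - 1 - (5 * F + 1) * (z * n)) - 3 * (F * n * (F * n) * (z * n)) +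
    (z * n + 1) * (z * z) * (2 * b - 3 * (m * m))) + z * (c2 * (F * n * n + (z * n + 1) * m) +
    c1 * (z * (z * z * (2 * b - m * m) - (z * n + 1) * m) + (z * n + 1 - 3) * F * (F * n + z * m) -
      (F * n + z * m + F * n) * (z * (F * n + z * m + z * m) + F * (z * n + 1))))

noncomputable def mB1Co (D F : ℝ) : ℝ × ℝ × ℝ :=
  let z0 := (((Int.cast (16) : ℝ) * D) + (Int.cast (1) : ℝ))
  let z1 := (((Int.cast (16) : ℝ) * F) - (Int.cast (4) : ℝ))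
  let z2 := ((((Int.cast (16) : ℝ) / (Nat.cast 25 : ℝ)) + (((Int.cast (9) : ℝ) / (Nat.cast 25 : ℝ))
    * z0)) - (((Int.cast (48) : ℝ) / (Nat.cast 25 : ℝ)) * z1))
  (((((Int.cast (29) : ℝ) / (Nat.cast 500 : ℝ)) - (((Int.cast (1) : ℝ) / (Nat.cast 100 : ℝ)) * z0))
    - (((Int.cast (9) : ℝ) / (Nat.cast 100 : ℝ)) * z1)), z2, (((((Int.cast (3) : ℝ) * (z1 - z0)) -
    (Int.cast (3) : ℝ)) - ((Int.cast (2) : ℝ) * z2)) * F))

theorem mB1Co_0 (D F : ℝ) : b1q3 D F = (mB1Co D F).1 := by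
  simp only [mB1Co, b1q3, b1q2, b1r2]; push_cast; ring

theorem mB1Co_1 (D F : ℝ) : b1q2 D F = (mB1Co D F).2.1 := by
  simp only [mB1Co, b1q3, b1q2, b1r2]; push_cast; ring

theorem mB1Co_2 (D F : ℝ) : (b1r2 D F - 2 * b1q2 D F) * F = (mB1Co D F).2.2 := by
  simp only [mB1Co, b1q3, b1q2, b1r2]; push_cast; ring

noncomputable def mB1Sep (D F x : ℝ) : ℝ :=
  let z0 := (((Int.cast (1) : ℝ) / (Nat.cast 6 : ℝ)) * (((Int.cast (1) : ℝ) - F) - ((Int.cast (2) :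
    ℝ) * D)))
  let z1 := (((Int.cast (16) : ℝ) * D) + (Int.cast (1) : ℝ))
  let z2 := (((Int.cast (16) : ℝ) * F) - (Int.cast (4) : ℝ))
  let z3 := ((((Int.cast (16) : ℝ) / (Nat.cast 25 : ℝ)) + (((Int.cast (9) : ℝ) / (Nat.cast 25 : ℝ))
    * z1)) - (((Int.cast (48) : ℝ) / (Nat.cast 25 : ℝ)) * z2))
  let z4 := (((Int.cast (3) : ℝ) * (z2 - z1)) - (Int.cast (3) : ℝ))
  ((F * F) * (((((Int.cast (-1) : ℝ) * (((Int.cast (2) : ℝ) * F) * z0)) - z3) - z4) + (x *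
    (((Int.cast (8) : ℝ) * ((F * ((((Int.cast (1) : ℝ) / (Nat.cast 90 : ℝ)) * (((Int.cast (4) : ℝ) +
    (F * ((F * ((Int.cast (156) : ℝ) - ((Int.cast (103) : ℝ) * F))) - (Int.cast (57) : ℝ)))) + (D *
    (((F * ((Int.cast (102) : ℝ) - ((Int.cast (312) : ℝ) * F))) - (Int.cast (6) : ℝ)) - (D *
    (((Int.cast (60) : ℝ) + ((Int.cast (480) : ℝ) * F)) + ((Int.cast (320) : ℝ) * D))))))) +
    (((Int.cast (3) : ℝ) * (((Int.cast (3) : ℝ) * z3) + z4)) * z0))) - ((Int.cast (3) : ℝ) *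
    ((((Int.cast (29) : ℝ) / (Nat.cast 500 : ℝ)) - (((Int.cast (1) : ℝ) / (Nat.cast 100 : ℝ)) * z1))
    - (((Int.cast (9) : ℝ) / (Nat.cast 100 : ℝ)) * z2))))) + (x * ((((((Int.cast (3) : ℝ) /
    (Nat.cast 4 : ℝ)) * z2) - ((Int.cast (19) : ℝ) / (Nat.cast 50 : ℝ))) - (((Int.cast (11) : ℝ) /
    (Nat.cast 10 : ℝ)) * z1)) + (x * (((((Int.cast (4) : ℝ) / (Nat.cast 5 : ℝ)) * z2) - ((Int.cast
    (17) : ℝ) / (Nat.cast 100 : ℝ))) - (((Int.cast (13) : ℝ) / (Nat.cast 50 : ℝ)) * z1)))))))))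

theorem mB1Sep_0 (D F x : ℝ) : b1sep D F x = (mB1Sep D F x) := by
  simp only [mB1Sep, b1sep, b1q3, b1q2, b1r2, ja2, ja4]; push_cast; ring

noncomputable def mB1K (F c3 c2 c1 n m b : ℝ) : ℝ :=
  let z0 := (n + (Int.cast (1) : ℝ))
  let z1 := (z0 * m)
  let z2 := (F * n)
  let z3 := (m * m)
  let z4 := (z2 + m)
  (((c3 * (((z1 * ((((Int.cast (4) : ℝ) * F) - ((Int.cast (5) : ℝ) * z2)) - z0)) - ((Int.cast (3) :
    ℝ) * ((z2 * z2) * n))) + (z0 * (((Int.cast (2) : ℝ) * b) - ((Int.cast (3) : ℝ) * z3))))) + (c2 *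
    ((z2 * n) + z1))) + (c1 * ((((((Int.cast (2) : ℝ) * b) - z1) - z3) + (((z0 - (Int.cast (3) : ℝ))
    * F) * z4)) - ((z4 + z2) * ((z4 + (F * z0)) + m)))))

theorem mB1K_0 (F c3 c2 c1 n m b : ℝ) : b1k F c3 c2 c1 n m b = (mB1K F c3 c2 c1 n m b) := by
  simp only [mB1K, b1k]; push_cast; ring

noncomputable def mB1Tl (F z c3 c2 c1 n m b : ℝ) : ℝ :=
  let z0 := (z * n)
  let z1 := (z0 + (Int.cast (1) : ℝ))
  let z2 := (z1 * m)
  let z3 := (F * n)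
  let z4 := (z * z)
  let z5 := (z * m)
  let z6 := (z3 + z5)
  ((c3 * (((z2 * ((((Int.cast (4) : ℝ) * F) - (Int.cast (1) : ℝ)) - ((((Int.cast (5) : ℝ) * F) +
    (Int.cast (1) : ℝ)) * z0))) - ((Int.cast (3) : ℝ) * ((z3 * z3) * z0))) + ((z1 * z4) *
    (((Int.cast (2) : ℝ) * b) - ((Int.cast (3) : ℝ) * (m * m)))))) + (z * ((c2 * ((z3 * n) + z2)) +
    (c1 * (((z * ((z4 * (((Int.cast (2) : ℝ) * b) - (m * m))) - z2)) + (((z1 - (Int.cast (3) : ℝ)) *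
    F) * z6)) - ((z6 + z3) * ((z * (z6 + z5)) + (F * z1))))))))

theorem mB1Tl_0 (F z c3 c2 c1 n m b : ℝ) : b1tl F z c3 c2 c1 n m b = (mB1Tl F z c3 c2 c1 n m b) :=
    by
  simp only [mB1Tl, b1tl]; push_cast; ring

end Pool.Agent.Lib.MP_d6150d_an
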