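import Pool.Agent.Lib.MP_d6150d_an.GDef

/-! A generated chart: the program. -/

namespace Pool.Agent.Lib.MP_d6150d_an.B1N

def prog3 : List Ins := .int 60 :: .smul 480 147 :: .add false 1 0 :: .smul 320 156 :: .add true 1 0
    :: .mul 158 0 :: .sub true 6 0 :: .mul 160 0 :: .add true 14 0 :: .mul 23 0 :: .smul 3 115 ::
    .add true 0 64 :: .smul 3 0 :: .mul 0 37 :: .add true 4 0 :: .mul 161 0 :: .smul 3 157 :: .sub
    false 1 0 :: .smul 8 0 :: .cst 3 4 :: .mul 0 163 :: .cst 19 50 :: .sub false 1 0 :: .cst 11 10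
    :: .mul 0 174 :: .sub false 2 0 :: .cst 4 5 :: .mul 0 170 :: .cst 17 100 :: .sub false 1 0 ::
    .cst 13 50 :: .mul 0 181 :: .sub true 2 0 :: .mul 48 0 :: .add true 8 0 :: .mul 50 0 :: .add
    false 17 0 :: .mul 52 0 :: .add true 58 0 :: .mul 67 0 :: .mul 69 0 :: .add false 71 0 :: .smul
    (-1) 0 :: .cpy 0 :: []

def prog2 : List Ins := .mul 106 0 :: .mul 25 37 :: .add true 0 28 :: .mul 2 0 :: .add false 11 0 ::
    .sub false 18 31 :: .sub false 0 18 :: .sub false 42 11 :: .mul 0 104 :: .add true 33 36 :: .mul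
    1 0 :: .add false 4 0 :: .add true 2 36 :: .mul 109 48 :: .add false 4 0 :: .add true 0 42 ::
    .mul 3 0 :: .sub true 5 0 :: .mul 57 0 :: .add false 14 0 :: .mul 126 68 :: .mul 117 117 :: .cst
    1 6 :: .sub false 124 119 :: .sub true 0 58 :: .mul 2 0 :: .mul 115 0 :: .smul (-1) 0 :: .sub
    false 0 83 :: .sub false 0 32 :: .cst 1 8 :: .mul 0 94 :: .add false 133 0 :: .inv 0 :: .sub
    true 135 0 :: .cst 1 90 :: .int 156 :: .smul 103 133 :: .sub true 1 0 :: .mul 135 0 :: .int 57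
    :: .sub true 1 0 :: .mul 138 0 :: .add false 137 0 :: .int 102 :: .smul 312 141 :: .sub true 1 0
    :: .mul 143 0 :: .int 6 :: .sub false 1 0 :: prog3

def prog1 : List Ins := .mul 46 57 :: .exp 0 :: .mul 4 0 :: .mul 0 0 :: .add false 55 57 :: .mul 0 7
    :: .sub false 0 59 :: .mul 8 0 :: .inv 0 :: .mul 5 0 :: .mul 56 0 :: .mul 25 0 :: .mul 68 0 ::
    .sub false 0 64 :: .add true 0 65 :: .smul 2 68 :: .add true 67 0 :: .mul 0 19 :: .mul 0 9 ::
    .mul 72 10 :: .smul 2 0 :: .sub false 2 0 :: .mul 10 0 :: .mul 8 0 :: .smul 4 70 :: .mul 71 11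
    :: .smul 5 0 :: .sub false 2 0 :: .sub false 0 13 :: .mul 5 0 :: .mul 4 4 :: .mul 0 17 :: .smul
    3 0 :: .sub false 3 0 :: .mul 21 22 :: .mul 0 15 :: .smul 2 0 :: .mul 14 14 :: .smul 3 0 :: .sub
    true 2 0 :: .mul 25 0 :: .add true 7 0 :: .mul 45 0 :: .sub false 86 93 :: .smul 3 0 :: .int 3
    :: .sub false 1 0 :: .smul 2 52 :: .sub true 1 0 :: .mul 0 95 :: prog2

def prog : List Ins := .var 2 :: .smul (-1) 0 :: .cst 29 500 :: .cst 1 100 :: .var 0 :: .smul 16 0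
    :: .int 1 :: .add true 1 0 :: .mul 4 0 :: .sub false 6 0 :: .cst 9 100 :: .var 1 :: .smul 16 0
    :: .int 4 :: .sub true 1 0 :: .mul 4 0 :: .sub false 6 0 :: .mul 15 15 :: .smul 2 6 :: .mul 0 17
    :: .tri 0 :: .mul 4 0 :: .sub true 5 17 :: .mul 0 23 :: .tri 0 :: .mul 4 0 :: .sub false 6 0 ::
    .smul 2 1 :: .sub false 8 0 :: .int 2 :: .sub true 15 0 :: .mul 0 33 :: .tri 0 :: .mul 4 0 ::
    .add true 7 0 :: .mul 36 0 :: .add false 11 0 :: .smul 2 0 :: .mul 26 0 :: .mul 28 0 :: .cst 16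
    25 :: .cst 9 25 :: .mul 0 40 :: .add false 2 0 :: .cst 48 25 :: .mul 0 36 :: .sub false 2 0 ::
    .add true 7 0 :: .mul 52 0 :: .tri 53 :: prog1

def vs : List Vr := [⟨3, 0, false, false⟩, ⟨3, 0, false, false⟩, ⟨7, 4, false, false⟩]

def C : Chart := ⟨vs, prog, [], 1, 3⟩

end Pool.Agent.Lib.MP_d6150d_an.B1N
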