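import Pool.Agent.Lib.MP_d6150d_an.GDef

/-! A generated chart: the program. -/

namespace Pool.Agent.Lib.MP_d6150d_an.B1P

def prog3 : List Ins := .sub false 1 0 :: .int 60 :: .smul 480 149 :: .add false 1 0 :: .smul 320
    158 :: .add true 1 0 :: .mul 160 0 :: .sub true 6 0 :: .mul 162 0 :: .add true 14 0 :: .mul 23 0
    :: .smul 3 117 :: .add true 0 64 :: .smul 3 0 :: .mul 0 37 :: .add true 4 0 :: .mul 163 0 ::
    .smul 3 159 :: .sub false 1 0 :: .smul 8 0 :: .cst 3 4 :: .mul 0 165 :: .cst 19 50 :: .sub false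
    1 0 :: .cst 11 10 :: .mul 0 176 :: .sub false 2 0 :: .cst 4 5 :: .mul 0 172 :: .cst 17 100 ::
    .sub false 1 0 :: .cst 13 50 :: .mul 0 183 :: .sub true 2 0 :: .mul 48 0 :: .add true 8 0 ::
    .mul 50 0 :: .add false 17 0 :: .mul 52 0 :: .add true 58 0 :: .mul 67 0 :: .mul 69 0 :: .add
    false 71 0 :: .smul (-1) 0 :: .cpy 0 :: []

def prog2 : List Ins := .mul 0 97 :: .mul 108 0 :: .mul 25 39 :: .add false 0 28 :: .mul 2 0 :: .add
    false 11 0 :: .sub false 18 31 :: .sub false 0 18 :: .sub true 44 11 :: .mul 0 106 :: .add true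
    33 36 :: .mul 1 0 :: .add false 4 0 :: .add false 2 36 :: .mul 111 50 :: .add false 4 0 :: .add
    true 0 42 :: .mul 3 0 :: .sub true 5 0 :: .mul 59 0 :: .add false 14 0 :: .mul 128 72 :: .mul
    119 119 :: .cst 1 6 :: .sub false 126 121 :: .sub true 0 60 :: .mul 2 0 :: .mul 117 0 :: .smul
    (-1) 0 :: .sub false 0 85 :: .sub false 0 32 :: .cst 1 8 :: .mul 0 96 :: .add false 135 0 ::
    .inv 0 :: .sub true 137 0 :: .cst 1 90 :: .int 156 :: .smul 103 135 :: .sub true 1 0 :: .mul 137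
    0 :: .int 57 :: .sub true 1 0 :: .mul 140 0 :: .add false 139 0 :: .int 102 :: .smul 312 143 ::
    .sub true 1 0 :: .mul 145 0 :: .int 6 :: prog3

def prog1 : List Ins := .exp 0 :: .mul 0 0 :: .tri 3 :: .add false 55 57 :: .mul 58 3 :: .sub false
    1 0 :: .mul 4 0 :: .inv 0 :: .mul 8 0 :: .mul 56 0 :: .mul 25 0 :: .mul 68 0 :: .sub true 0 64
    :: .add true 0 65 :: .smul 2 68 :: .add true 67 0 :: .mul 0 15 :: .mul 0 9 :: .mul 17 17 :: .mul
    73 0 :: .mul 0 12 :: .smul 2 0 :: .sub false 4 0 :: .mul 12 0 :: .mul 10 0 :: .smul 4 72 :: .mul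
    73 13 :: .smul 5 0 :: .sub false 2 0 :: .sub true 0 15 :: .mul 5 0 :: .mul 4 4 :: .mul 0 19 ::
    .smul 3 0 :: .sub false 3 0 :: .mul 23 24 :: .mul 0 15 :: .smul 2 0 :: .mul 14 14 :: .smul 3 0
    :: .sub false 2 0 :: .mul 27 0 :: .add false 7 0 :: .mul 47 0 :: .sub false 88 95 :: .smul 3 0
    :: .int 3 :: .sub false 1 0 :: .smul 2 54 :: .sub true 1 0 :: prog2

def prog : List Ins := .var 2 :: .cst 29 500 :: .cst 1 100 :: .var 0 :: .smul 16 0 :: .int 1 :: .add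
    true 1 0 :: .mul 4 0 :: .sub false 6 0 :: .cst 9 100 :: .var 1 :: .smul 16 0 :: .int 4 :: .sub
    true 1 0 :: .mul 4 0 :: .sub false 6 0 :: .mul 15 15 :: .smul 2 6 :: .mul 0 17 :: .tri 0 :: .mul
    4 0 :: .sub true 5 17 :: .mul 0 23 :: .tri 0 :: .mul 4 0 :: .sub false 6 0 :: .smul 2 1 :: .sub
    false 8 0 :: .int 2 :: .sub true 15 0 :: .mul 0 33 :: .tri 0 :: .mul 4 0 :: .add true 7 0 ::
    .mul 36 0 :: .add false 11 0 :: .smul 2 0 :: .mul 26 0 :: .mul 28 0 :: .cst 16 25 :: .cst 9 25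
    :: .mul 0 40 :: .add false 2 0 :: .cst 48 25 :: .mul 0 36 :: .sub false 2 0 :: .add true 7 0 ::
    .mul 52 0 :: .smul (-1) 53 :: .mul 44 0 :: prog1

def vs : List Vr := [⟨3, 0, false, false⟩, ⟨3, 0, false, false⟩, ⟨7, 4, false, false⟩]

def C : Chart := ⟨vs, prog, [], 1, 3⟩

end Pool.Agent.Lib.MP_d6150d_an.B1P
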