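import Pool.Agent.Lib.MP_d6150d_an.GDef

/-! A generated chart: the program. -/

namespace Pool.Agent.Lib.MP_d6150d_an.B1R

def prog3 : List Ins := .sub true 1 0 :: .mul 140 0 :: .int 6 :: .sub false 1 0 :: .int 60 :: .smul
    480 144 :: .add false 1 0 :: .smul 320 153 :: .add true 1 0 :: .mul 155 0 :: .sub true 6 0 ::
    .mul 157 0 :: .add true 14 0 :: .mul 23 0 :: .smul 3 107 :: .add true 0 70 :: .smul 3 0 :: .mul
    0 38 :: .add true 4 0 :: .mul 158 0 :: .smul 3 154 :: .sub false 1 0 :: .smul 8 0 :: .cst 3 4 ::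
    .mul 0 160 :: .cst 19 50 :: .sub false 1 0 :: .cst 11 10 :: .mul 0 171 :: .sub false 2 0 :: .cst
    4 5 :: .mul 0 167 :: .cst 17 100 :: .sub false 1 0 :: .cst 13 50 :: .mul 0 178 :: .sub true 2 0
    :: .mul 48 0 :: .add true 8 0 :: .mul 50 0 :: .add true 17 0 :: .mul 52 0 :: .add true 59 0 ::
    .mul 68 0 :: .add false 70 0 :: .smul (-1) 0 :: .cpy 0 :: []

def prog2 : List Ins := .mul 2 0 :: .mul 90 58 :: .sub false 17 16 :: .mul 25 0 :: .sub false 0 39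
    :: .mul 88 0 :: .sub true 60 12 :: .mul 0 96 :: .mul 91 44 :: .add true 36 0 :: .mul 2 0 :: .add
    false 5 0 :: .add false 2 39 :: .add true 3 4 :: .mul 97 0 :: .mul 104 69 :: .add true 1 0 ::
    .mul 4 0 :: .sub true 6 0 :: .mul 17 0 :: .add true 19 0 :: .mul 104 0 :: .add true 31 0 :: .mul
    122 0 :: .mul 113 113 :: .cst 1 6 :: .sub false 120 115 :: .sub true 0 109 :: .mul 2 0 :: .mul
    103 0 :: .smul (-1) 0 :: .sub false 0 74 :: .sub false 0 37 :: .cst 1 8 :: .mul 0 85 :: .add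
    false 118 0 :: .inv 0 :: .mul 120 0 :: .sub true 132 0 :: .cst 1 90 :: .int 156 :: .smul 103 130
    :: .sub true 1 0 :: .mul 132 0 :: .int 57 :: .sub true 1 0 :: .mul 135 0 :: .add false 134 0 ::
    .int 102 :: .smul 312 138 :: prog3

def prog1 : List Ins := .cst 16 25 :: .cst 9 25 :: .mul 0 45 :: .add false 2 0 :: .cst 48 25 :: .mul
    0 41 :: .sub true 2 0 :: .mul 0 40 :: .add false 8 0 :: .mul 13 40 :: .smul 2 20 :: .sub false
    31 0 :: .mul 2 0 :: .mul 0 20 :: .mul 18 0 :: .smul 4 54 :: .sub false 0 60 :: .smul 5 56 ::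
    .add false 0 62 :: .mul 0 24 :: .sub true 3 0 :: .mul 6 0 :: .mul 61 28 :: .mul 0 0 :: .mul 0 29
    :: .smul 3 0 :: .sub false 4 0 :: .mul 60 60 :: .mul 32 0 :: .mul 33 33 :: .mul 61 61 :: .mul 77
    0 :: .mul 2 0 :: .mul 0 40 :: .smul 2 0 :: .mul 21 21 :: .smul 3 0 :: .sub false 2 0 :: .mul 9 0
    :: .add true 12 0 :: .mul 31 0 :: .sub false 77 84 :: .smul 3 0 :: .int 3 :: .sub false 1 0 ::
    .smul 2 38 :: .sub true 1 0 :: .mul 0 86 :: .mul 25 54 :: .add false 0 34 :: prog2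

def prog : List Ins := .var 3 :: .cst 29 500 :: .cst 1 100 :: .var 0 :: .smul 16 0 :: .int 1 :: .add
    true 1 0 :: .mul 4 0 :: .sub false 6 0 :: .cst 9 100 :: .var 1 :: .smul 16 0 :: .int 4 :: .sub
    true 1 0 :: .mul 4 0 :: .sub false 6 0 :: .mul 15 15 :: .smul 2 13 :: .var 2 :: .mul 2 0 :: .mul
    3 0 :: .mul 1 0 :: .sub false 11 0 :: .mul 5 0 :: .int 2 :: .smul 2 14 :: .sub true 1 0 :: .inv
    0 :: .mul 4 0 :: .add true 23 11 :: .sub true 10 4 :: .mul 1 0 :: .sub true 26 6 :: .inv 0 ::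
    .mul 2 0 :: .add false 6 0 :: .add false 30 32 :: .sub false 1 0 :: .sub false 32 17 :: .mul 35
    18 :: .sub false 3 0 :: .mul 2 0 :: .inv 0 :: .mul 5 0 :: .mul 27 0 :: .add true 0 39 :: .mul 0
    4 :: .inv 36 :: .mul 1 0 :: .mul 33 0 :: prog1

def vs : List Vr := [⟨2, 0, false, false⟩, ⟨2, 0, false, false⟩, ⟨1, 0, false, false⟩, ⟨6, 0, false,
    false⟩]

def C : Chart := ⟨vs, prog, [], 1, 3⟩

end Pool.Agent.Lib.MP_d6150d_an.B1R
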