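import Pool.Agent.Lib.MP_d6150d_an.B2LD

/-! A generated chart: the computations. -/

namespace Pool.Agent.Lib.MP_d6150d_an.B2L

theorem k0 : chk C 0x880880288812822 [(-13194139533312, -7696581394432), (32298154065920,
    35184372088832), (0, 211106232532992)] = true := by
  decide +kernel

theorem k1 : chk C 0x880880288088022 [(-13194139533312, -7696581394432), (32298154065920,
    35184372088832), (211106232532992, 422212465065984)] = true := by
  decide +kernel

theorem k2 : chk C 0x88081808800 [(-7696581394432, -2199023255552), (32298154065920,
    33741263077376), (0, 105553116266496)] = true := by
  decide +kernel

theorem k3 : chk C 0x88802828800 [(-7696581394432, -2199023255552), (33741263077376,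
    35184372088832), (0, 105553116266496)] = true := by
  decide +kernel

theorem k4 : chk C 0x88180880802 [(-7696581394432, -2199023255552), (32298154065920,
    35184372088832), (105553116266496, 211106232532992)] = true := by
  decide +kernel

theorem k5 : chk C 0x88088028820 [(-7696581394432, -2199023255552), (32298154065920,
    35184372088832), (211106232532992, 316659348799488)] = true := by
  decide +kernel

end Pool.Agent.Lib.MP_d6150d_an.B2L
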