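import Pool.Agent.Lib.MP_d6150d_an.B2LD

/-! A generated chart: the computations. -/

namespace Pool.Agent.Lib.MP_d6150d_an.B2L

theorem k6 : chk C 0x88088028820 [(-7696581394432, -2199023255552), (32298154065920,
    35184372088832), (316659348799488, 422212465065984)] = true := by
  decide +kernel

end Pool.Agent.Lib.MP_d6150d_an.B2L
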