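import Pool.Agent.Lib.MP_d6150d_an.B2MD

/-! A generated chart: the computations. -/

namespace Pool.Agent.Lib.MP_d6150d_an.B2M

theorem k0 : chk C 0x88180 [(-13194139533312, -7696581394432), (32298154065920, 35184372088832),
    (-985162418487296, -703687441776640)] = true := by
  decide +kernel

theorem k1 : chk C 0x8818082 [(-7696581394432, -4947802324992), (32298154065920, 35184372088832),
    (-985162418487296, -703687441776640)] = true := by
  decide +kernel

theorem k2 : chk C 0x88182 [(-4947802324992, -3573412790272), (32298154065920, 35184372088832),
    (-985162418487296, -703687441776640)] = true := by
  decide +kernel

theorem k3 : chk C 0x88180 [(-3573412790272, -2199023255552), (32298154065920, 35184372088832),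
    (-985162418487296, -844424930131968)] = true := by
  decide +kernel

theorem k4 : chk C 0x880880188088012 [(-3573412790272, -2199023255552), (32298154065920,
    35184372088832), (-844424930131968, -703687441776640)] = true := by
  decide +kernel

theorem k5 : chk C 0x880818810 [(-13194139533312, -7696581394432), (32298154065920, 35184372088832),
    (-703687441776640, -562949953421312)] = true := by
  decide +kernel

theorem k6 : chk C 0x8808801881802 [(-7696581394432, -4947802324992), (32298154065920,
    35184372088832), (-703687441776640, -562949953421312)] = true := by
  decide +kernel

theorem k7 : chk C 0x8818812 [(-4947802324992, -3573412790272), (32298154065920, 35184372088832),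
    (-703687441776640, -562949953421312)] = true := by
  decide +kernel

end Pool.Agent.Lib.MP_d6150d_an.B2M
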