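import Pool.Agent.Lib.MP_d6150d_an.B2MD

/-! A generated chart: the computations. -/

namespace Pool.Agent.Lib.MP_d6150d_an.B2M

theorem k8 : chk C 0x880880188088012 [(-3573412790272, -2199023255552), (32298154065920,
    35184372088832), (-703687441776640, -562949953421312)] = true := by
  decide +kernel

theorem k9 : chk C 0x881881088188102 [(-13194139533312, -7696581394432), (32298154065920,
    35184372088832), (-562949953421312, -422212465065984)] = true := by
  decide +kernel

theorem k10 : chk C 0x88088018810881810 [(-7696581394432, -2199023255552), (32298154065920,
    35184372088832), (-562949953421312, -492581209243648)] = true := by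
  decide +kernel

theorem k11 : chk C 0x8808821881088188110 [(-7696581394432, -2199023255552), (32298154065920,
    35184372088832), (-492581209243648, -422212465065984)] = true := by
  decide +kernel

end Pool.Agent.Lib.MP_d6150d_an.B2M
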