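import Pool.Agent.Lib.MP_d6150d_an.B2A
import Pool.Agent.Lib.MP_d6150d_an.B2MK0
import Pool.Agent.Lib.MP_d6150d_an.B2MK1

/-! A generated chart: the inequality. -/

namespace Pool.Agent.Lib.MP_d6150d_an.B2M

set_option linter.unnecessarySeqFocus false
set_option linter.unusedTactic false
set_option linter.unusedVariables false

theorem gd : Gd C [(-13194139533312, -2199023255552), (32298154065920, 35184372088832),
    (-985162418487296, -422212465065984)] := .split 2 (.split 0 (chk_sound k0) (.split 0 (chk_sound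
    k1) (.split 0 (chk_sound k2) (.split 2 (chk_sound k3) (chk_sound k4))))) (.split 2 (.split 0
    (chk_sound k5) (.split 0 (chk_sound k6) (.split 0 (chk_sound k7) (chk_sound k8)))) (.split 0
    (chk_sound k9) (.split 2 (chk_sound k10) (chk_sound k11))))

set_option maxRecDepth 100000 in
theorem eq {D F t h y a b A B s x z M i e j u l P Q R Y c0 c1 c2 c3 k4 k3 k2 k1 o K E z31 : ℝ} (hh :
    h = Real.exp ((1 - 4 * F) * t)) (hy : y = Real.exp (F * t)) (ha : a = 31 / 20 + 10 * D) (hb : b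
    = 1 / 4000 - 9 / 200 * D) (hA : A = aB4 D F) (hB : B = aB6 D F) (hs : s = y ^ 4 * h) (hx : x = y
    ^ 3 * h) (hz : z = x ^ 2) (hM : M = (1 + D) / F * (s ^ 2 - z) + 2 * (1 + 2 * D) / (1 - 2 * F) *
    (s - z) - D / (1 - F) * (1 - z)) (hi : i = -(-D + s * (1 + 2 * D - (1 + D) * s))⁻¹) (he : e =
    (12 * z + M)⁻¹) (hj : j = 12 * z * e) (hu : u = 12 * M * e) (hl : l = 12 * (x * h * y ^ 2) * e)
    (hP : P = (1 + D) * s ^ 2 * i) (hQ : Q = (1 + 2 * D) * s * i) (hR : R = D * i) (hY : Y = M / 2 *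
    i) (hc0 : c0 = a * j ^ 2) (hc1 : c1 = 7 / 100 * (j * u)) (hc2 : c2 = b * u ^ 2) (hc3 : c3 = 1 /
    70 * u ^ 2) (hk4 : k4 = 16 * (c0 + c1 + c2)) (hk3 : k3 = 16 * c0 + 104 * c1 + 112 * c2 + 8 * c3)
    (hk2 : k2 = (-4) * c0 + 68 * c1 + 160 * c2 + 28 * c3) (hk1 : k1 = (-14) * c1 + 28 * c2 + 10 *
    c3) (ho : o = 1) (hK : K = k4 * (Y ^ 4 * (pjR F P Q R).2.2) + k3 * (Y ^ 3 * (pjR F P Q R).2.1 *
    o ^ 2) + k2 * (Y ^ 2 * (pjR F P Q R).1 * o ^ 4) + k1 * (Y * o ^ 6)) (hE : E = A * (2 - j) + (1 -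
    j) * (12 * B + (1 - j) * (-29 / 500 + (-9 / 10) * D + (1 / 80 + 2 * D) * j))) (hz31 : z31 =
    (√M)⁻¹) : outR prog 0 [D, F, t] = u ^ 2 * ((b + 1 / 70) * (1 - l * (2 - j)) + F * l * E) - F * K
    + 8 * a * F * l * (12 * x * e * (M * z31)) := by
  replace hh : h = (Real.exp (((Int.cast (1) : ℝ) - ((Int.cast (4) : ℝ) * F)) * t)) := hh.trans
    (congrArg Real.exp (by push_cast <;> ring))
  replace hy : y = (Real.exp (F * t)) := hy.trans (congrArg Real.exp (by push_cast <;> ring))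
  replace ha : a = (((Int.cast (31) : ℝ) / (Nat.cast 20 : ℝ)) + ((Int.cast (10) : ℝ) * D)) :=
    ha.trans (by push_cast <;> ring)
  replace hb : b = (((Int.cast (1) : ℝ) / (Nat.cast 4000 : ℝ)) - (((Int.cast (9) : ℝ) / (Nat.cast
    200 : ℝ)) * D)) := hb.trans (by push_cast <;> ring)
  replace hA : A = (mAB D F).1 := hA.trans (mAB_0 ..)
  replace hB : B = (mAB D F).2 := hB.trans (mAB_1 ..)
  replace hs : s = (((y * y) * (y * y)) * h) := hs.trans (by push_cast <;> ring)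
  replace hx : x = (((y * y) * y) * h) := hx.trans (by push_cast <;> ring)
  replace hz : z = (x * x) := hz.trans (by push_cast <;> ring)
  replace hM : M = ((((((Int.cast (1) : ℝ) + D) * F⁻¹) * ((s * s) - z)) + ((((Int.cast (2) : ℝ) *
    ((Int.cast (1) : ℝ) + ((Int.cast (2) : ℝ) * D))) * ((Int.cast (1) : ℝ) - ((Int.cast (2) : ℝ) *
    F))⁻¹) * (s - z))) - ((D * ((Int.cast (1) : ℝ) - F)⁻¹) * ((Int.cast (1) : ℝ) - z))) := hM.trans
    (by push_cast <;> ring)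
  replace hi : i = ((Int.cast (-1) : ℝ) * (((Int.cast (-1) : ℝ) * D) + (s * (((Int.cast (1) : ℝ) +
    ((Int.cast (2) : ℝ) * D)) - (((Int.cast (1) : ℝ) + D) * s))))⁻¹) := hi.trans (by push_cast <;>
    ring)
  replace he : e = (((Int.cast (12) : ℝ) * z) + M)⁻¹ := he.trans (by push_cast <;> ring)
  replace hj : j = (((Int.cast (12) : ℝ) * z) * e) := hj.trans (by push_cast <;> ring)
  replace hu : u = (((Int.cast (12) : ℝ) * M) * e) := hu.trans (by push_cast <;> ring)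
  replace hl : l = (((Int.cast (12) : ℝ) * ((x * h) * (y * y))) * e) := hl.trans (by push_cast <;>
    ring)
  replace hP : P = ((((Int.cast (1) : ℝ) + D) * (s * s)) * i) := hP.trans (by push_cast <;> ring)
  replace hQ : Q = ((((Int.cast (1) : ℝ) + ((Int.cast (2) : ℝ) * D)) * s) * i) := hQ.trans (by
    push_cast <;> ring)
  replace hR : R = (D * i) := hR.trans (by push_cast <;> ring)
  replace hY : Y = ((((Int.cast (1) : ℝ) / (Nat.cast 2 : ℝ)) * M) * i) := hY.trans (by push_cast <;>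
    ring)
  replace hc0 : c0 = (a * (j * j)) := hc0.trans (by push_cast <;> ring)
  replace hc1 : c1 = (((Int.cast (7) : ℝ) / (Nat.cast 100 : ℝ)) * (j * u)) := hc1.trans (by
    push_cast <;> ring)
  replace hc2 : c2 = (b * (u * u)) := hc2.trans (by push_cast <;> ring)
  replace hc3 : c3 = (((Int.cast (1) : ℝ) / (Nat.cast 70 : ℝ)) * (u * u)) := hc3.trans (by push_cast
    <;> ring)
  replace hk4 : k4 = ((Int.cast (16) : ℝ) * ((c0 + c1) + c2)) := hk4.trans (by push_cast <;> ring)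
  replace hk3 : k3 = (((((Int.cast (16) : ℝ) * c0) + ((Int.cast (104) : ℝ) * c1)) + ((Int.cast (112)
    : ℝ) * c2)) + ((Int.cast (8) : ℝ) * c3)) := hk3.trans (by push_cast <;> ring)
  replace hk2 : k2 = (((((Int.cast (-4) : ℝ) * c0) + ((Int.cast (68) : ℝ) * c1)) + ((Int.cast (160)
    : ℝ) * c2)) + ((Int.cast (28) : ℝ) * c3)) := hk2.trans (by push_cast <;> ring)
  replace hk1 : k1 = ((((Int.cast (-14) : ℝ) * c1) + ((Int.cast (28) : ℝ) * c2)) + ((Int.cast (10) :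
    ℝ) * c3)) := hk1.trans (by push_cast <;> ring)
  replace ho : o = (Int.cast (1) : ℝ) := ho.trans (by push_cast <;> ring)
  replace hK : K = (mK4 F P Q R Y o k4 k3 k2 k1) := hK.trans (mK4_0 ..)
  replace hE : E = ((A * ((Int.cast (2) : ℝ) - j)) + (((Int.cast (1) : ℝ) - j) * (((Int.cast (12) :
    ℝ) * B) + (((Int.cast (1) : ℝ) - j) * ((((Int.cast (-29) : ℝ) / (Nat.cast 500 : ℝ)) +
    (((Int.cast (-9) : ℝ) / (Nat.cast 10 : ℝ)) * D)) + ((((Int.cast (1) : ℝ) / (Nat.cast 80 : ℝ)) +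
    ((Int.cast (2) : ℝ) * D)) * j)))))) := hE.trans (by push_cast <;> ring)
  have e0 : ((((u * u) * (((b + ((Int.cast (1) : ℝ) / (Nat.cast 70 : ℝ))) * ((Int.cast (1) : ℝ) - (l
    * ((Int.cast (2) : ℝ) - j)))) + ((F * l) * E))) - (F * K)) + (((((Int.cast (8) : ℝ) * a) * F) *
    l) * ((((Int.cast (12) : ℝ) * x) * e) * (M * z31)))) = u ^ 2 * ((b + 1 / 70) * (1 - l * (2 - j))
    + F * l * E) - F * K + 8 * a * F * l * (12 * x * e * (M * z31)) := by push_cast <;> ring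
  subst hh hy ha hb hA hB hs hx hz hM hi he hj hu hl hP hQ hR hY hc0 hc1 hc2 hc3 hk4 hk3 hk2 hk1 ho
    hK hE hz31
  exact Eq.trans rfl e0

theorem l0 : ((-13194139533312 : ℤ) : ℝ) / 2 ^ 47 = -3 / 32 := by norm_num
theorem u0 : (-1 / 64 : ℝ) = ((-2199023255552 : ℤ) : ℝ) / 2 ^ 47 := by norm_num
theorem l1 : ((32298154065920 : ℤ) : ℝ) / 2 ^ 47 = 235 / 1024 := by norm_num
theorem u1 : (1 / 4 : ℝ) = ((35184372088832 : ℤ) : ℝ) / 2 ^ 47 := by norm_num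
theorem l2 : ((-985162418487296 : ℤ) : ℝ) / 2 ^ 47 = -7 := by norm_num
theorem u2 : (-3 : ℝ) = ((-422212465065984 : ℤ) : ℝ) / 2 ^ 47 := by norm_num

theorem out0 {D F t : ℝ} (a0 : -3 / 32 ≤ D) (b0 : D ≤ -1 / 64) (a1 : 235 / 1024 ≤ F) (b1 : F ≤ 1 /
    4) (a2 : -7 ≤ t) (b2 : t ≤ -3) : 0 < outR prog 0 [D, F, t] :=
  gd 0 (by decide) [D, F, t] (.cons ⟨l0.le.trans a0, b0.trans u0.le⟩ (.cons ⟨l1.le.trans a1,
    b1.trans u1.le⟩ (.cons ⟨l2.le.trans a2, b2.trans u2.le⟩ (.nil)))) ⟨nofun, nofun, nofun, trivial⟩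
    (List.forall_mem_nil _) (Van.of0 rfl) (nofun)

theorem pos0 {D F t h y a b A B s x z M i e j u l P Q R Y c0 c1 c2 c3 k4 k3 k2 k1 o K E z31 : ℝ} (hh
    : h = Real.exp ((1 - 4 * F) * t)) (hy : y = Real.exp (F * t)) (ha : a = 31 / 20 + 10 * D) (hb :
    b = 1 / 4000 - 9 / 200 * D) (hA : A = aB4 D F) (hB : B = aB6 D F) (hs : s = y ^ 4 * h) (hx : x =
    y ^ 3 * h) (hz : z = x ^ 2) (hM : M = (1 + D) / F * (s ^ 2 - z) + 2 * (1 + 2 * D) / (1 - 2 * F)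
    * (s - z) - D / (1 - F) * (1 - z)) (hi : i = -(-D + s * (1 + 2 * D - (1 + D) * s))⁻¹) (he : e =
    (12 * z + M)⁻¹) (hj : j = 12 * z * e) (hu : u = 12 * M * e) (hl : l = 12 * (x * h * y ^ 2) * e)
    (hP : P = (1 + D) * s ^ 2 * i) (hQ : Q = (1 + 2 * D) * s * i) (hR : R = D * i) (hY : Y = M / 2 *
    i) (hc0 : c0 = a * j ^ 2) (hc1 : c1 = 7 / 100 * (j * u)) (hc2 : c2 = b * u ^ 2) (hc3 : c3 = 1 /
    70 * u ^ 2) (hk4 : k4 = 16 * (c0 + c1 + c2)) (hk3 : k3 = 16 * c0 + 104 * c1 + 112 * c2 + 8 * c3)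
    (hk2 : k2 = (-4) * c0 + 68 * c1 + 160 * c2 + 28 * c3) (hk1 : k1 = (-14) * c1 + 28 * c2 + 10 *
    c3) (ho : o = 1) (hK : K = k4 * (Y ^ 4 * (pjR F P Q R).2.2) + k3 * (Y ^ 3 * (pjR F P Q R).2.1 *
    o ^ 2) + k2 * (Y ^ 2 * (pjR F P Q R).1 * o ^ 4) + k1 * (Y * o ^ 6)) (hE : E = A * (2 - j) + (1 -
    j) * (12 * B + (1 - j) * (-29 / 500 + (-9 / 10) * D + (1 / 80 + 2 * D) * j))) (hz31 : z31 =
    (√M)⁻¹) (a0 : -3 / 32 ≤ D) (b0 : D ≤ -1 / 64) (a1 : 235 / 1024 ≤ F) (b1 : F ≤ 1 / 4) (a2 : -7 ≤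
    t) (b2 : t ≤ -3) : 0 < u ^ 2 * ((b + 1 / 70) * (1 - l * (2 - j)) + F * l * E) - F * K + 8 * a *
    F * l * (12 * x * e * (M * z31)) :=
  have e := eq hh hy ha hb hA hB hs hx hz hM hi he hj hu hl hP hQ hR hY hc0 hc1 hc2 hc3 hk4 hk3 hk2
    hk1 ho hK hE hz31
  (out0 a0 b0 a1 b1 a2 b2).trans_eq e

end Pool.Agent.Lib.MP_d6150d_an.B2M
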