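import Pool.Agent.Lib.MP_d6150d_an.B2RD

/-! A generated chart: the computations. -/

namespace Pool.Agent.Lib.MP_d6150d_an.B2R

theorem k0 : chk C 0x88082 [(-13194139533312, -7696581394432), (32298154065920, 35184372088832), (0,
    105553116266496)] = true := by
  decide +kernel

theorem k1 : chk C 0x882828800882821 [(-7696581394432, -2199023255552), (32298154065920,
    35184372088832), (0, 105553116266496)] = true := by
  decide +kernel

theorem k2 : chk C 0x8880280 [(-13194139533312, -2199023255552), (32298154065920, 35184372088832),
    (105553116266496, 211106232532992)] = true := by
  decide +kernel

theorem k3 : chk C 0x8808802 [(-13194139533312, -2199023255552), (32298154065920, 35184372088832),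
    (211106232532992, 422212465065984)] = true := by
  decide +kernel

theorem k4 : chk C 0x8808288810288088022 [(-13194139533312, -2199023255552), (32298154065920,
    35184372088832), (422212465065984, 844424930131968)] = true := by
  decide +kernel

end Pool.Agent.Lib.MP_d6150d_an.B2R
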