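import Pool.Agent.Lib.MP_d6150d_an.B2A
import Pool.Agent.Lib.MP_d6150d_an.B2RK0

/-! A generated chart: the inequality. -/

namespace Pool.Agent.Lib.MP_d6150d_an.B2R

set_option linter.unnecessarySeqFocus false
set_option linter.unusedTactic false
set_option linter.unusedVariables false

theorem gd : Gd C [(-13194139533312, -2199023255552), (32298154065920, 35184372088832), (0,
    844424930131968)] := .split 2 (.split 2 (.split 2 (.split 0 (chk_sound k0) (chk_sound k1))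
    (chk_sound k2)) (chk_sound k3)) (chk_sound k4)

set_option maxRecDepth 100000 in
theorem eq {D F s t a b A B x z y p mu i j n u q P Q R Y c0 c1 c2 c3 k4 k3 k2 k1 o K E : ℝ} (ht : t
    = s) (ha : a = 31 / 20 + 10 * D) (hb : b = 1 / 4000 - 9 / 200 * D) (hA : A = aB4 D F) (hB : B =
    aB6 D F) (hx : x = Real.exp (t / 2)) (hz : z = Real.exp (-(t / 2))) (hy : y = Real.exp (-(F *
    t))) (hp : p = ph1 (t / 2)) (hmu : mu = muR D F t) (hi : i = (p * (1 + z) / 2 * (1 + D - D * z ^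
    2))⁻¹) (hj : j = (1 + t ^ 2 * mu / 12)⁻¹) (hn : n = mu * j) (hu : u = t ^ 2 * n) (hq : q =
    (√mu)⁻¹) (hP : P = (1 + D) * x * i) (hQ : Q = (1 + 2 * D) * z * i) (hR : R = D * z ^ 3 * i) (hY
    : Y = mu * y * y * x / 2 * i) (hc0 : c0 = a * j ^ 2) (hc1 : c1 = 7 / 100 * (j * u)) (hc2 : c2 =
    b * u ^ 2) (hc3 : c3 = 1 / 70 * u ^ 2) (hk4 : k4 = 16 * (c0 + c1 + c2)) (hk3 : k3 = 16 * c0 +
    104 * c1 + 112 * c2 + 8 * c3) (hk2 : k2 = (-4) * c0 + 68 * c1 + 160 * c2 + 28 * c3) (hk1 : k1 =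
    (-14) * c1 + 28 * c2 + 10 * c3) (ho : o = 1) (hK : K = k4 * (Y ^ 4 * (pjR F P Q R).2.2) + k3 *
    (Y ^ 3 * (pjR F P Q R).2.1 * o ^ 2) + k2 * (Y ^ 2 * (pjR F P Q R).1 * o ^ 4) + k1 * (Y * o ^ 6))
    (hE : E = A * (2 - j) + (1 - j) * (12 * B + (1 - j) * (-29 / 500 + (-9 / 10) * D + (1 / 80 + 2 *
    D) * j))) : outR prog 0 [D, F, s] = F * (K + 8 * c0 * y * (mu * q)) - t * u * n * ((b + 1 / 70)
    * (1 - y * j * (2 - j)) + F * y * j * E) := by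
  replace ha : a = (((Int.cast (31) : ℝ) / (Nat.cast 20 : ℝ)) + ((Int.cast (10) : ℝ) * D)) :=
    ha.trans (by push_cast <;> ring)
  replace hb : b = (((Int.cast (1) : ℝ) / (Nat.cast 4000 : ℝ)) - (((Int.cast (9) : ℝ) / (Nat.cast
    200 : ℝ)) * D)) := hb.trans (by push_cast <;> ring)
  replace hA : A = (mAB D F).1 := hA.trans (mAB_0 ..)
  replace hB : B = (mAB D F).2 := hB.trans (mAB_1 ..)
  replace hx : x = (Real.exp (((Int.cast (1) : ℝ) / (Nat.cast 2 : ℝ)) * t)) := hx.trans (congrArg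
    Real.exp (by push_cast <;> ring))
  replace hz : z = (Real.exp ((Int.cast (-1) : ℝ) * (((Int.cast (1) : ℝ) / (Nat.cast 2 : ℝ)) * t)))
    := hz.trans (congrArg Real.exp (by push_cast <;> ring))
  replace hy : y = (Real.exp ((Int.cast (-1) : ℝ) * (F * t))) := hy.trans (congrArg Real.exp (by
    push_cast <;> ring))
  replace hp : p = (ph1 (((Int.cast (1) : ℝ) / (Nat.cast 2 : ℝ)) * t)) := hp.trans (congrArg ph1 (by
    push_cast <;> ring))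
  replace hmu : mu = (mMu D F t) := hmu.trans (mMu_0 ..)
  replace hi : i = ((((Int.cast (1) : ℝ) / (Nat.cast 2 : ℝ)) * (p * ((Int.cast (1) : ℝ) + z))) *
    (((Int.cast (1) : ℝ) + D) - (D * (z * z))))⁻¹ := hi.trans (by push_cast <;> ring)
  replace hj : j = ((Int.cast (1) : ℝ) + (((Int.cast (1) : ℝ) / (Nat.cast 12 : ℝ)) * ((t * t) *
    mu)))⁻¹ := hj.trans (by push_cast <;> ring)
  replace hn : n = (mu * j) := hn.trans (by push_cast <;> ring)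
  replace hu : u = ((t * t) * n) := hu.trans (by push_cast <;> ring)
  replace hP : P = ((((Int.cast (1) : ℝ) + D) * x) * i) := hP.trans (by push_cast <;> ring)
  replace hQ : Q = ((((Int.cast (1) : ℝ) + ((Int.cast (2) : ℝ) * D)) * z) * i) := hQ.trans (by
    push_cast <;> ring)
  replace hR : R = ((D * ((z * z) * z)) * i) := hR.trans (by push_cast <;> ring)
  replace hY : Y = ((((Int.cast (1) : ℝ) / (Nat.cast 2 : ℝ)) * (((mu * y) * y) * x)) * i) :=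
    hY.trans (by push_cast <;> ring)
  replace hc0 : c0 = (a * (j * j)) := hc0.trans (by push_cast <;> ring)
  replace hc1 : c1 = (((Int.cast (7) : ℝ) / (Nat.cast 100 : ℝ)) * (j * u)) := hc1.trans (by
    push_cast <;> ring)
  replace hc2 : c2 = (b * (u * u)) := hc2.trans (by push_cast <;> ring)
  replace hc3 : c3 = (((Int.cast (1) : ℝ) / (Nat.cast 70 : ℝ)) * (u * u)) := hc3.trans (by push_cast
    <;> ring)
  replace hk4 : k4 = ((Int.cast (16) : ℝ) * ((c0 + c1) + c2)) := hk4.trans (by push_cast <;> ring)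
  replace hk3 : k3 = (((((Int.cast (16) : ℝ) * c0) + ((Int.cast (104) : ℝ) * c1)) + ((Int.cast (112)
    : ℝ) * c2)) + ((Int.cast (8) : ℝ) * c3)) := hk3.trans (by push_cast <;> ring)
  replace hk2 : k2 = (((((Int.cast (-4) : ℝ) * c0) + ((Int.cast (68) : ℝ) * c1)) + ((Int.cast (160)
    : ℝ) * c2)) + ((Int.cast (28) : ℝ) * c3)) := hk2.trans (by push_cast <;> ring)
  replace hk1 : k1 = ((((Int.cast (-14) : ℝ) * c1) + ((Int.cast (28) : ℝ) * c2)) + ((Int.cast (10) :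
    ℝ) * c3)) := hk1.trans (by push_cast <;> ring)
  replace ho : o = (Int.cast (1) : ℝ) := ho.trans (by push_cast <;> ring)
  replace hK : K = (mK4 F P Q R Y o k4 k3 k2 k1) := hK.trans (mK4_0 ..)
  replace hE : E = ((A * ((Int.cast (2) : ℝ) - j)) + (((Int.cast (1) : ℝ) - j) * (((Int.cast (12) :
    ℝ) * B) + (((Int.cast (1) : ℝ) - j) * ((((Int.cast (-29) : ℝ) / (Nat.cast 500 : ℝ)) +
    (((Int.cast (-9) : ℝ) / (Nat.cast 10 : ℝ)) * D)) + ((((Int.cast (1) : ℝ) / (Nat.cast 80 : ℝ)) +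
    ((Int.cast (2) : ℝ) * D)) * j)))))) := hE.trans (by push_cast <;> ring)
  have e0 : ((F * (K + ((((Int.cast (8) : ℝ) * c0) * y) * (mu * q)))) - (((t * u) * n) * (((b +
    ((Int.cast (1) : ℝ) / (Nat.cast 70 : ℝ))) * ((Int.cast (1) : ℝ) - ((y * j) * ((Int.cast (2) : ℝ)
    - j)))) + (((F * y) * j) * E)))) = F * (K + 8 * c0 * y * (mu * q)) - t * u * n * ((b + 1 / 70) *
    (1 - y * j * (2 - j)) + F * y * j * E) := by push_cast <;> ring
  subst ht ha hb hA hB hx hz hy hp hmu hi hj hn hu hq hP hQ hR hY hc0 hc1 hc2 hc3 hk4 hk3 hk2 hk1 ho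
    hK hE
  exact Eq.trans rfl e0

theorem l0 : ((-13194139533312 : ℤ) : ℝ) / 2 ^ 47 = -3 / 32 := by norm_num
theorem u0 : (-1 / 64 : ℝ) = ((-2199023255552 : ℤ) : ℝ) / 2 ^ 47 := by norm_num
theorem l1 : ((32298154065920 : ℤ) : ℝ) / 2 ^ 47 = 235 / 1024 := by norm_num
theorem u1 : (1 / 4 : ℝ) = ((35184372088832 : ℤ) : ℝ) / 2 ^ 47 := by norm_num
theorem l2 : ((0 : ℤ) : ℝ) / 2 ^ 47 = 0 := by norm_num
theorem u2 : (6 : ℝ) = ((844424930131968 : ℤ) : ℝ) / 2 ^ 47 := by norm_num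

theorem out0 (V2 : ∀ D F : ℝ, -3 / 32 ≤ D → D ≤ -1 / 64 → 235 / 1024 ≤ F → F ≤ 1 / 4 → (fun s ↦ outR
    prog 0 [D, F, s]) =O[nhdsWithin 0 (Set.Ioi 0)] fun s : ℝ ↦ s ^ 6) {D F s : ℝ} (a0 : -3 / 32 ≤ D)
    (b0 : D ≤ -1 / 64) (a1 : 235 / 1024 ≤ F) (b1 : F ≤ 1 / 4) (a2 : 0 ≤ s) (b2 : s ≤ 6) (p2 : 0 < s)
    : 0 < outR prog 0 [D, F, s] :=
  gd 0 (by decide) [D, F, s] (.cons ⟨l0.le.trans a0, b0.trans u0.le⟩ (.cons ⟨l1.le.trans a1,
    b1.trans u1.le⟩ (.cons ⟨l2.le.trans a2, b2.trans u2.le⟩ (.nil)))) ⟨nofun, nofun, fun _ ↦ p2,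
    trivial⟩ (List.forall_mem_nil _) (⟨fun _ ↦ allB_iff.2 fun _ _ ↦ trivial, fun y0 a0 b0 ↦ ⟨fun _ ↦
    allB_iff.2 fun _ _ ↦ trivial, fun y1 a1 b1 ↦ ⟨fun _ ↦ V2 y0 y1 (l0.ge.trans a0) (b0.trans u0.ge)
    (l1.ge.trans a1) (b1.trans u1.ge), fun _ _ _ ↦ trivial⟩⟩⟩) (nofun)

end Pool.Agent.Lib.MP_d6150d_an.B2R
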