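import Pool.Agent.Lib.MP_d6150d_an.B2A
import Pool.Agent.Lib.MP_d6150d_an.B2SK0

/-! A generated chart: the inequality. -/

namespace Pool.Agent.Lib.MP_d6150d_an.B2S

set_option linter.unnecessarySeqFocus false
set_option linter.unusedTactic false
set_option linter.unusedVariables false

theorem gd : Gd C [(-13194139533312, -2199023255552), (32298154065920, 35184372088832), (0,
    140737488355328), (0, 35734127902720)] := .split 3 (chk_sound k0) (.split 0 (.split 1 (chk_sound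
    k1) (chk_sound k2)) (chk_sound k3))

set_option maxRecDepth 100000 in
theorem eq {D F h y a b A B z p r m n o i L k e j q Q R Y a1 a2 b1 b2 g1 p2 u3 u4 c0 c1 c2 c3 K E :
    ℝ} (ha : a = 31 / 20 + 10 * D) (hb : b = 1 / 4000 - 9 / 200 * D) (hA : A = aB4 D F) (hB : B =
    aB6 D F) (hz : z = y ^ 2) (hp : p = z * h) (hr : r = z * p) (hm : m = (-2) * (1 + 2 * D) / (1 -
    2 * F) * (1 - p) + D / (1 - F) * (1 - p * r)) (hn : n = (1 + D) / F * (1 - z) + m * z) (ho : o =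
    1 + 2 * D - D * r) (hi : i = (1 + D - r * o)⁻¹) (hL : L = F * n * i) (hk : k = n * i * (1 + D -
    m * F - p * o)) (he : e = (12 * z + n)⁻¹) (hj : j = 12 * z * e) (hq : q = (√n)⁻¹) (hQ : Q = (1 +
    2 * D) * i) (hR : R = D * r * i) (hY : Y = n * i / 2) (ha1 : a1 = Q - 2 * R) (ha2 : a2 = 3 * Q -
    4 * R) (hb1 : b1 = (2 - F) * a1 - a2) (hb2 : b2 = (2 - F) * a2 - (7 * Q - 8 * R)) (hg1 : g1 = b1
    - (4 - 3 * F) * a1) (hp2 : p2 = -F - r * a1) (hu3 : u3 = g1 + 6 * a1 - 3 * a1 * p2) (hu4 : u4 =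
    2 * (g1 - 3 * b1) + a1 * (3 * F ^ 2 + r * (g1 - 3 * b1)) + (4 - 3 * F) * b1 + b2 + 12 * a1 - 3 *
    a2 * p2 - (4 + 5 * F) * u3 - 5 * a1 * (3 * F ^ 2 + r * u3)) (hc0 : c0 = a * z ^ 2) (hc1 : c1 = 7
    / 100 * (z * n)) (hc2 : c2 = b * n ^ 2) (hc3 : c3 = 1 / 70 * n ^ 2) (hK : K = a * L ^ 2 * (1 + L
    * (6 - 15 * L)) + 7 / 100 * k * L * (15 * L ^ 2 - 24 * L - 7) + k ^ 2 * (b * (12 * L - 15 * L ^
    2 - 1) + 1 / 70 * (3 * L - 1)) + F * h * Y ^ 2 * (Y * (16 * (c0 + c1 + c2) * Y * u4 + (16 * c0 +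
    104 * c1 + 112 * c2 + 8 * c3) * u3) - ((-4) * c0 + 68 * c1 + 160 * c2 + 28 * c3) * a1)) (hE : E
    = A * (2 - j) + (1 - j) * (12 * B + (1 - j) * (-29 / 500 + (-9 / 10) * D + (1 / 80 + 2 * D) *
    j))) : outR prog 0 [D, F, h, y] = y * (K + 8 * a * F * (n * q)) - 12 * n ^ 2 * e * (F * E - (b +
    1 / 70) * (2 - j)) := by
  replace ha : a = (((Int.cast (31) : ℝ) / (Nat.cast 20 : ℝ)) + ((Int.cast (10) : ℝ) * D)) :=
    ha.trans (by push_cast <;> ring)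
  replace hb : b = (((Int.cast (1) : ℝ) / (Nat.cast 4000 : ℝ)) - (((Int.cast (9) : ℝ) / (Nat.cast
    200 : ℝ)) * D)) := hb.trans (by push_cast <;> ring)
  replace hA : A = (mAB D F).1 := hA.trans (mAB_0 ..)
  replace hB : B = (mAB D F).2 := hB.trans (mAB_1 ..)
  replace hz : z = (y * y) := hz.trans (by push_cast <;> ring)
  replace hp : p = (z * h) := hp.trans (by push_cast <;> ring)
  replace hr : r = (z * p) := hr.trans (by push_cast <;> ring)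
  replace hm : m = (((((Int.cast (-2) : ℝ) * ((Int.cast (1) : ℝ) + ((Int.cast (2) : ℝ) * D))) *
    ((Int.cast (1) : ℝ) - ((Int.cast (2) : ℝ) * F))⁻¹) * ((Int.cast (1) : ℝ) - p)) + ((D *
    ((Int.cast (1) : ℝ) - F)⁻¹) * ((Int.cast (1) : ℝ) - (p * r)))) := hm.trans (by push_cast <;>
    ring)
  replace hn : n = (((((Int.cast (1) : ℝ) + D) * F⁻¹) * ((Int.cast (1) : ℝ) - z)) + (m * z)) :=
    hn.trans (by push_cast <;> ring)
  replace ho : o = (((Int.cast (1) : ℝ) + ((Int.cast (2) : ℝ) * D)) - (D * r)) := ho.trans (by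
    push_cast <;> ring)
  replace hi : i = (((Int.cast (1) : ℝ) + D) - (r * o))⁻¹ := hi.trans (by push_cast <;> ring)
  replace hL : L = ((F * n) * i) := hL.trans (by push_cast <;> ring)
  replace hk : k = ((n * i) * ((((Int.cast (1) : ℝ) + D) - (m * F)) - (p * o))) := hk.trans (by
    push_cast <;> ring)
  replace he : e = (((Int.cast (12) : ℝ) * z) + n)⁻¹ := he.trans (by push_cast <;> ring)
  replace hj : j = (((Int.cast (12) : ℝ) * z) * e) := hj.trans (by push_cast <;> ring)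
  replace hQ : Q = (((Int.cast (1) : ℝ) + ((Int.cast (2) : ℝ) * D)) * i) := hQ.trans (by push_cast
    <;> ring)
  replace hR : R = ((D * r) * i) := hR.trans (by push_cast <;> ring)
  replace hY : Y = (((Int.cast (1) : ℝ) / (Nat.cast 2 : ℝ)) * (n * i)) := hY.trans (by push_cast <;>
    ring)
  replace ha1 : a1 = (Q - ((Int.cast (2) : ℝ) * R)) := ha1.trans (by push_cast <;> ring)
  replace ha2 : a2 = (((Int.cast (3) : ℝ) * Q) - ((Int.cast (4) : ℝ) * R)) := ha2.trans (by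
    push_cast <;> ring)
  replace hb1 : b1 = ((((Int.cast (2) : ℝ) - F) * a1) - a2) := hb1.trans (by push_cast <;> ring)
  replace hb2 : b2 = ((((Int.cast (2) : ℝ) - F) * a2) - (((Int.cast (7) : ℝ) * Q) - ((Int.cast (8) :
    ℝ) * R))) := hb2.trans (by push_cast <;> ring)
  replace hg1 : g1 = (b1 - (((Int.cast (4) : ℝ) - ((Int.cast (3) : ℝ) * F)) * a1)) := hg1.trans (by
    push_cast <;> ring)
  replace hp2 : p2 = (((Int.cast (-1) : ℝ) * F) - (r * a1)) := hp2.trans (by push_cast <;> ring)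
  replace hu3 : u3 = ((g1 + ((Int.cast (6) : ℝ) * a1)) - (((Int.cast (3) : ℝ) * a1) * p2)) :=
    hu3.trans (by push_cast <;> ring)
  replace hu4 : u4 = (((((((((Int.cast (2) : ℝ) * (g1 - ((Int.cast (3) : ℝ) * b1))) + (a1 *
    (((Int.cast (3) : ℝ) * (F * F)) + (r * (g1 - ((Int.cast (3) : ℝ) * b1)))))) + (((Int.cast (4) :
    ℝ) - ((Int.cast (3) : ℝ) * F)) * b1)) + b2) + ((Int.cast (12) : ℝ) * a1)) - (((Int.cast (3) : ℝ)
    * a2) * p2)) - (((Int.cast (4) : ℝ) + ((Int.cast (5) : ℝ) * F)) * u3)) - (((Int.cast (5) : ℝ) *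
    a1) * (((Int.cast (3) : ℝ) * (F * F)) + (r * u3)))) := hu4.trans (by push_cast <;> ring)
  replace hc0 : c0 = (a * (z * z)) := hc0.trans (by push_cast <;> ring)
  replace hc1 : c1 = (((Int.cast (7) : ℝ) / (Nat.cast 100 : ℝ)) * (z * n)) := hc1.trans (by
    push_cast <;> ring)
  replace hc2 : c2 = (b * (n * n)) := hc2.trans (by push_cast <;> ring)
  replace hc3 : c3 = (((Int.cast (1) : ℝ) / (Nat.cast 70 : ℝ)) * (n * n)) := hc3.trans (by push_cast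
    <;> ring)
  replace hK : K = (((((a * (L * L)) * ((Int.cast (1) : ℝ) + (L * ((Int.cast (6) : ℝ) - ((Int.cast
    (15) : ℝ) * L))))) + (((((Int.cast (7) : ℝ) / (Nat.cast 100 : ℝ)) * k) * L) * ((((Int.cast (15)
    : ℝ) * (L * L)) - ((Int.cast (24) : ℝ) * L)) - (Int.cast (7) : ℝ)))) + ((k * k) * ((b *
    ((((Int.cast (12) : ℝ) * L) - ((Int.cast (15) : ℝ) * (L * L))) - (Int.cast (1) : ℝ))) +
    (((Int.cast (1) : ℝ) / (Nat.cast 70 : ℝ)) * (((Int.cast (3) : ℝ) * L) - (Int.cast (1) : ℝ))))))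
    + (((F * h) * (Y * Y)) * ((Y * (((((Int.cast (16) : ℝ) * ((c0 + c1) + c2)) * Y) * u4) +
    ((((((Int.cast (16) : ℝ) * c0) + ((Int.cast (104) : ℝ) * c1)) + ((Int.cast (112) : ℝ) * c2)) +
    ((Int.cast (8) : ℝ) * c3)) * u3))) - ((((((Int.cast (-4) : ℝ) * c0) + ((Int.cast (68) : ℝ) *
    c1)) + ((Int.cast (160) : ℝ) * c2)) + ((Int.cast (28) : ℝ) * c3)) * a1)))) := hK.trans (by
    push_cast <;> ring)
  replace hE : E = ((A * ((Int.cast (2) : ℝ) - j)) + (((Int.cast (1) : ℝ) - j) * (((Int.cast (12) :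
    ℝ) * B) + (((Int.cast (1) : ℝ) - j) * ((((Int.cast (-29) : ℝ) / (Nat.cast 500 : ℝ)) +
    (((Int.cast (-9) : ℝ) / (Nat.cast 10 : ℝ)) * D)) + ((((Int.cast (1) : ℝ) / (Nat.cast 80 : ℝ)) +
    ((Int.cast (2) : ℝ) * D)) * j)))))) := hE.trans (by push_cast <;> ring)
  have e0 : ((y * (K + ((((Int.cast (8) : ℝ) * a) * F) * (n * q)))) - ((((Int.cast (12) : ℝ) * (n *
    n)) * e) * ((F * E) - ((b + ((Int.cast (1) : ℝ) / (Nat.cast 70 : ℝ))) * ((Int.cast (2) : ℝ) -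
    j))))) = y * (K + 8 * a * F * (n * q)) - 12 * n ^ 2 * e * (F * E - (b + 1 / 70) * (2 - j)) := by
    push_cast <;> ring
  subst ha hb hA hB hz hp hr hm hn ho hi hL hk he hj hq hQ hR hY ha1 ha2 hb1 hb2 hg1 hp2 hu3 hu4 hc0
    hc1 hc2 hc3 hK hE
  exact Eq.trans rfl e0

theorem l0 : ((-13194139533312 : ℤ) : ℝ) / 2 ^ 47 = -3 / 32 := by norm_num
theorem u0 : (-1 / 64 : ℝ) = ((-2199023255552 : ℤ) : ℝ) / 2 ^ 47 := by norm_num
theorem l1 : ((32298154065920 : ℤ) : ℝ) / 2 ^ 47 = 235 / 1024 := by norm_num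
theorem u1 : (1 / 4 : ℝ) = ((35184372088832 : ℤ) : ℝ) / 2 ^ 47 := by norm_num
theorem l2 : ((0 : ℤ) : ℝ) / 2 ^ 47 = 0 := by norm_num
theorem u2 : (1 : ℝ) = ((140737488355328 : ℤ) : ℝ) / 2 ^ 47 := by norm_num
theorem l3 : ((0 : ℤ) : ℝ) / 2 ^ 47 = 0 := by norm_num
theorem u3 : (65 / 256 : ℝ) = ((35734127902720 : ℤ) : ℝ) / 2 ^ 47 := by norm_num

theorem out0 {D F h y : ℝ} (a0 : -3 / 32 ≤ D) (b0 : D ≤ -1 / 64) (a1 : 235 / 1024 ≤ F) (b1 : F ≤ 1 /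
    4) (a2 : 0 ≤ h) (b2 : h ≤ 1) (a3 : 0 ≤ y) (b3 : y ≤ 65 / 256) : 0 < outR prog 0 [D, F, h, y] :=
  gd 0 (by decide) [D, F, h, y] (.cons ⟨l0.le.trans a0, b0.trans u0.le⟩ (.cons ⟨l1.le.trans a1,
    b1.trans u1.le⟩ (.cons ⟨l2.le.trans a2, b2.trans u2.le⟩ (.cons ⟨l3.le.trans a3, b3.trans u3.le⟩
    (.nil))))) ⟨nofun, nofun, nofun, nofun, trivial⟩ (List.forall_mem_nil _) (Van.of0 rfl) (nofun)

theorem pos0 {D F h y a b A B z p r m n o i L k e j q Q R Y a1 a2 b1 b2 g1 p2 u3 u4 c0 c1 c2 c3 K E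
    : ℝ} (ha : a = 31 / 20 + 10 * D) (hb : b = 1 / 4000 - 9 / 200 * D) (hA : A = aB4 D F) (hB : B =
    aB6 D F) (hz : z = y ^ 2) (hp : p = z * h) (hr : r = z * p) (hm : m = (-2) * (1 + 2 * D) / (1 -
    2 * F) * (1 - p) + D / (1 - F) * (1 - p * r)) (hn : n = (1 + D) / F * (1 - z) + m * z) (ho : o =
    1 + 2 * D - D * r) (hi : i = (1 + D - r * o)⁻¹) (hL : L = F * n * i) (hk : k = n * i * (1 + D -
    m * F - p * o)) (he : e = (12 * z + n)⁻¹) (hj : j = 12 * z * e) (hq : q = (√n)⁻¹) (hQ : Q = (1 +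
    2 * D) * i) (hR : R = D * r * i) (hY : Y = n * i / 2) (ha1 : a1 = Q - 2 * R) (ha2 : a2 = 3 * Q -
    4 * R) (hb1 : b1 = (2 - F) * a1 - a2) (hb2 : b2 = (2 - F) * a2 - (7 * Q - 8 * R)) (hg1 : g1 = b1
    - (4 - 3 * F) * a1) (hp2 : p2 = -F - r * a1) (hu3 : u3 = g1 + 6 * a1 - 3 * a1 * p2) (hu4 : u4 =
    2 * (g1 - 3 * b1) + a1 * (3 * F ^ 2 + r * (g1 - 3 * b1)) + (4 - 3 * F) * b1 + b2 + 12 * a1 - 3 *
    a2 * p2 - (4 + 5 * F) * u3 - 5 * a1 * (3 * F ^ 2 + r * u3)) (hc0 : c0 = a * z ^ 2) (hc1 : c1 = 7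
    / 100 * (z * n)) (hc2 : c2 = b * n ^ 2) (hc3 : c3 = 1 / 70 * n ^ 2) (hK : K = a * L ^ 2 * (1 + L
    * (6 - 15 * L)) + 7 / 100 * k * L * (15 * L ^ 2 - 24 * L - 7) + k ^ 2 * (b * (12 * L - 15 * L ^
    2 - 1) + 1 / 70 * (3 * L - 1)) + F * h * Y ^ 2 * (Y * (16 * (c0 + c1 + c2) * Y * u4 + (16 * c0 +
    104 * c1 + 112 * c2 + 8 * c3) * u3) - ((-4) * c0 + 68 * c1 + 160 * c2 + 28 * c3) * a1)) (hE : E
    = A * (2 - j) + (1 - j) * (12 * B + (1 - j) * (-29 / 500 + (-9 / 10) * D + (1 / 80 + 2 * D) *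
    j))) (a0 : -3 / 32 ≤ D) (b0 : D ≤ -1 / 64) (a1 : 235 / 1024 ≤ F) (b1 : F ≤ 1 / 4) (a2 : 0 ≤ h)
    (b2 : h ≤ 1) (a3 : 0 ≤ y) (b3 : y ≤ 65 / 256) : 0 < y * (K + 8 * a * F * (n * q)) - 12 * n ^ 2 *
    e * (F * E - (b + 1 / 70) * (2 - j)) :=
  have e := eq ha hb hA hB hz hp hr hm hn ho hi hL hk he hj hq hQ hR hY ha1 ha2 hb1 hb2 hg1 hp2 hu3
    hu4 hc0 hc1 hc2 hc3 hK hE
  (out0 a0 b0 a1 b1 a2 b2 a3 b3).trans_eq e

end Pool.Agent.Lib.MP_d6150d_an.B2S
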