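import Pool.Agent.Lib.MP_d6150d_an.B2TD

/-! A generated chart: the computations. -/

namespace Pool.Agent.Lib.MP_d6150d_an.B2T

theorem k0 : chk C 0x8808800 [(-13194139533312, -7696581394432), (32298154065920, 35184372088832),
    (0, 140737488355328), (0, 28147497671066)] = true := by
  decide +kernel

theorem k1 : chk C 0x8808830 [(-7696581394432, -4947802324992), (32298154065920, 35184372088832),
    (0, 140737488355328), (0, 28147497671066)] = true := by
  decide +kernel

theorem k2 : chk C 0x882838820 [(-4947802324992, -3573412790272), (32298154065920, 35184372088832),
    (0, 140737488355328), (0, 28147497671066)] = true := by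
  decide +kernel

theorem k3 : chk C 0x8818088028388082830 [(-3573412790272, -2199023255552), (32298154065920,
    35184372088832), (0, 140737488355328), (0, 28147497671066)] = true := by
  decide +kernel

end Pool.Agent.Lib.MP_d6150d_an.B2T
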