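import Pool.Agent.Lib.MP_d6150d_an.B2K
import Pool.Agent.Lib.MP_d6150d_an.B2L
import Pool.Agent.Lib.MP_d6150d_an.B2M
import Pool.Agent.Lib.MP_d6150d_an.B2R
import Pool.Agent.Lib.MP_d6150d_an.B2S
import Pool.Agent.Lib.MP_d6150d_an.B2T

/-! The strip `B`, away from the corner `(0, 1 / 4)`. -/

namespace Pool.Agent.Lib.MP_d6150d_an

namespace B2

open Real Set Filter Topology Asymptotics

variable {D F t : ℝ}

/-- the expression computed on the left branch -/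
noncomputable def gL (D F h y : ℝ) : ℝ :=
  let s := y ^ 4 * h
  let x := y ^ 3 * h
  let M := (1 + D) / F * (s ^ 2 - x ^ 2) + 2 * (1 + 2 * D) / (1 - 2 * F) * (s - x ^ 2) -
    D / (1 - F) * (1 - x ^ 2)
  let i := -(-D + s * (1 + 2 * D - (1 + D) * s))⁻¹
  let e := (12 * x ^ 2 + M)⁻¹
  (12 * M * e) ^ 2 * ((1 / 4000 - 9 / 200 * D + 1 / 70) *
    (1 - 12 * (x * h * y ^ 2) * e * (2 - 12 * x ^ 2 * e)) +
      F * (12 * (x * h * y ^ 2) * e) * eB D F (12 * x ^ 2 * e)) -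
    F * kB (31 / 20 + 10 * D) (1 / 4000 - 9 / 200 * D) (12 * x ^ 2 * e) (12 * M * e) F
      ((1 + D) * s ^ 2 * i) ((1 + 2 * D) * s * i) (D * i) (M / 2 * i) +
    8 * (31 / 20 + 10 * D) * F * (12 * (x * h * y ^ 2) * e) * (12 * x * e * (M * (√M)⁻¹))

theorem vE (f0 : 235 / 1024 ≤ F) (f1 : F ≤ 1 / 4) (t : ℝ) : vR D F t =
    (-2 * (1 + 2 * D) / (1 - 2 * F) - (1 + D) / F - -D / (1 - F)) + exp ((2 * F - 2) * t) *
      ((1 + D) / F * exp t ^ 2 - -2 * (1 + 2 * D) / (1 - 2 * F) * exp t + -D / (1 - F)) :=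
  vR_expl (mul_div_cancel₀ _ (by linarith)) (mul_div_cancel₀ _ (by linarith))
    (mul_div_cancel₀ _ (by linarith)) t

theorem inv12 {v z : ℝ} (v0 : 0 < v) (z0 : 0 < z) :
    12 * z * (12 * z + v * z)⁻¹ = (1 + v / 12)⁻¹ := by field_simp

theorem gL_sign (f0 : 235 / 1024 ≤ F) (f1 : F ≤ 1 / 4) (ht : t ∈ JR D) (h0 : t < 0)
    (h : 0 < gL D F (exp ((1 - 4 * F) * t)) (exp (F * t))) : 0 < t * dB D F t := by
  have e1 : exp (F * t) ^ 4 * exp ((1 - 4 * F) * t) = exp t := by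
    rw [← exp_nat_mul, ← exp_add]; congr 1; push_cast; ring
  have e2 : (exp (F * t) ^ 3 * exp ((1 - 4 * F) * t)) ^ 2 = exp ((2 - 2 * F) * t) := by
    rw [← exp_nat_mul, ← exp_add, ← exp_nat_mul]; congr 1; push_cast; ring
  have v0 := vR_pos (F := F) ht h0.ne
  have y0 := exp_pos (F * t)
  have x0 : 0 < exp (F * t) ^ 3 * exp ((1 - 4 * F) * t) := by positivity
  have e3 : (1 + D) / F * (exp t ^ 2 - exp ((2 - 2 * F) * t)) + 2 * (1 + 2 * D) / (1 - 2 * F) *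
      (exp t - exp ((2 - 2 * F) * t)) - D / (1 - F) * (1 - exp ((2 - 2 * F) * t)) =
      vR D F t * exp ((2 - 2 * F) * t) := by
    rw [vE f0 f1]
    linear_combination -((1 + D) / F * exp t ^ 2 - -2 * (1 + 2 * D) / (1 - 2 * F) * exp t +
      -D / (1 - F)) * exp_y (F := F) t
  have e4 : -(-D + exp t * (1 + 2 * D - (1 + D) * exp t))⁻¹ = (wR D t)⁻¹ := by
    rw [neg_inv, wR, PR, QR]; congr 1; ring
  have e5 : vR D F t * exp ((2 - 2 * F) * t) * (√(vR D F t * exp ((2 - 2 * F) * t)))⁻¹ =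
      -(gR D F t * (exp (F * t) ^ 3 * exp ((1 - 4 * F) * t))) := by
    rw [← div_eq_mul_inv, div_sqrt, ← e2, ← gR_sq ht, ← mul_pow, sqrt_sq_eq_abs,
      abs_of_neg (mul_neg_of_neg_of_pos (gR_neg ht h0) x0)]
  have e6 := inv12 v0 (exp_pos ((2 - 2 * F) * t))
  have key := hom (F := F) (l := (wR D t)⁻¹) (P := (1 + D) * exp t ^ 2 * (wR D t)⁻¹)
    (Q := (1 + 2 * D) * exp t * (wR D t)⁻¹) (R := D * (wR D t)⁻¹)
    (Y := vR D F t * exp ((2 - 2 * F) * t) / 2 * (wR D t)⁻¹) (c := (1 + vR D F t / 12)⁻¹)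
    (u := 12 * (vR D F t * exp ((2 - 2 * F) * t)) *
      (12 * exp ((2 - 2 * F) * t) + vR D F t * exp ((2 - 2 * F) * t))⁻¹) ht h0.ne one_ne_zero
    (mul_comm _ _) (mul_comm _ _) (mul_comm _ _) (by rw [yR]; ring)
    (inv_mul_cancel₀ (wR_ne ht h0.ne)).symm (by rw [← e6]; ring) rfl
  simp only [gL, e1, e2, e3, e4, e5, e6] at h
  have j0 : 0 < (1 + vR D F t / 12)⁻¹ := by positivity
  generalize (1 + vR D F t / 12)⁻¹ = j at *
  generalize kB _ _ _ _ _ _ _ _ _ = k at key h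
  generalize (12 * exp ((2 - 2 * F) * t) + vR D F t * exp ((2 - 2 * F) * t))⁻¹ = e at *
  generalize 12 * (vR D F t * exp ((2 - 2 * F) * t)) * e = u at *
  have e7 : 12 * (exp (F * t) ^ 3 * exp ((1 - 4 * F) * t) * exp ((1 - 4 * F) * t) *
    exp (F * t) ^ 2) * e * exp (F * t) = j := by linear_combination 12 * e * e2 + e6
  generalize 12 * (exp (F * t) ^ 3 * exp ((1 - 4 * F) * t) * exp ((1 - 4 * F) * t) *
    exp (F * t) ^ 2) * e = l at *
  refine mul_pos_of_neg_of_neg h0 (neg_of_mul_neg_left (b := j ^ 2) ?_ (sq_nonneg _))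
  linear_combination mul_pos h y0 + key - (u ^ 2 * ((1 / 4000 - 9 / 200 * D + 1 / 70) * (2 - j) -
    F * eB D F j) + 8 * (31 / 20 + 10 * D) * F * gR D F t * j) * e7 -
    8 * (31 / 20 + 10 * D) * F * gR D F t * l * exp (F * t) * (12 * e * e2 + e6)

theorem alg {a b F h z v i m o p r n D L k Q R Y a1 a2 b1 b2 g1 p2 u3 u4 : ℝ} (hp : p = z * h)
    (hr : r = z * p) (hn : F * n = (1 + D) * (1 - z) + F * m * z) (hv : n = v * z)
    (ho : o = 1 + 2 * D - D * r) (hi : (1 + D - r * o) * i = 1) (hL : L = F * n * i)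
    (hk : k = n * i * (1 + D - m * F - p * o)) (hQ : Q = (1 + 2 * D) * i) (hR : R = D * r * i)
    (hY : Y = n * i / 2) (ha1 : a1 = Q - 2 * R) (ha2 : a2 = 3 * Q - 4 * R)
    (hb1 : b1 = (2 - F) * a1 - a2) (hb2 : b2 = (2 - F) * a2 - (7 * Q - 8 * R))
    (hg1 : g1 = b1 - (4 - 3 * F) * a1) (hp2 : p2 = -F - r * a1)
    (hu3 : u3 = g1 + 6 * a1 - 3 * a1 * p2)
    (hu4 : u4 = 2 * (g1 - 3 * b1) + a1 * (3 * F ^ 2 + r * (g1 - 3 * b1)) + (4 - 3 * F) * b1 + b2 +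
      12 * a1 - 3 * a2 * p2 - (4 + 5 * F) * u3 - 5 * a1 * (3 * F ^ 2 + r * u3)) :
    F * kB a b z n F ((1 + D) * i) (r * Q) (r * R) Y - n ^ 2 * (b + 1 / 70) = z ^ 2 *
      (a * L ^ 2 * (1 + L * (6 - 15 * L)) + 7 / 100 * k * L * (15 * L ^ 2 - 24 * L - 7) +
        k ^ 2 * (b * (12 * L - 15 * L ^ 2 - 1) + 1 / 70 * (3 * L - 1)) + F * h * Y ^ 2 *
        (Y * (16 * (a * z ^ 2 + 7 / 100 * (z * n) + b * n ^ 2) * Y * u4 + (16 * (a * z ^ 2) +
          104 * (7 / 100 * (z * n)) + 112 * (b * n ^ 2) + 8 * (1 / 70 * n ^ 2)) * u3) -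
          ((-4) * (a * z ^ 2) + 68 * (7 / 100 * (z * n)) + 160 * (b * n ^ 2) +
            28 * (1 / 70 * n ^ 2)) * a1)) := by
  have e1 : (1 + D) * i = 1 + r * Q - r * R := by rw [hQ, hR]; rw [ho] at hi; linear_combination hi
  have e2 : pjR F (1 + r * Q - r * R) (r * Q) (r * R) =
      (-F - r * a1, 3 * F ^ 2 + r * u3, -15 * F ^ 3 + r * u4) := by
    clear hQ hR hr
    subst hu4 hu3 hp2 hg1 hb2 hb1 ha2 ha1
    simp only [pjR, Prod.mk.injEq]
    exact ⟨by ring, by ring, by ring⟩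
  have e3 : k = v * (1 - L) := by
    rw [hk, hL]
    linear_combination i * (1 + D - m * F - p * o) * hv + v * hi + v * i * hn + v * i * o * hr
  have e4 : L = 2 * F * Y := by rw [hL, hY]; ring
  rw [kB, e1, e2, e3, e4, hv, hr, hp]
  ring

theorem e23 : (125859 / 100000 : ℝ) ≤ exp (23 / 100) :=
  le_trans (by simp only [Finset.sum_range_succ, Nat.factorial]; norm_num)
    (sum_le_exp_of_nonneg (by norm_num) 5)

theorem far (d0 : -3 / 32 ≤ D) (d1 : D ≤ -1 / 64) (f0 : 23 / 100 ≤ F) (f1 : F ≤ 1 / 4)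
    (ht : t ∈ JR D) (t1 : 6 ≤ t) : 0 < t * dB D F t := by
  have h0 : 0 < t := by linarith
  have f0' : 235 / 1024 ≤ F := by linarith
  have v0 := vR_pos (F := F) ht h0.ne'
  obtain ⟨y, hy⟩ : ∃ y, y = exp (-(F * t)) := ⟨_, rfl⟩
  obtain ⟨h, hh⟩ : ∃ h, h = exp (-((1 - 4 * F) * t)) := ⟨_, rfl⟩
  obtain ⟨z, hz⟩ : ∃ z, z = y ^ 2 := ⟨_, rfl⟩
  obtain ⟨p, hp⟩ : ∃ p, p = z * h := ⟨_, rfl⟩
  obtain ⟨r, hr⟩ : ∃ r, r = z * p := ⟨_, rfl⟩
  obtain ⟨m, hm⟩ : ∃ m, m = (-2) * (1 + 2 * D) / (1 - 2 * F) * (1 - p) +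
    D / (1 - F) * (1 - p * r) := ⟨_, rfl⟩
  obtain ⟨n, hn⟩ : ∃ n, n = (1 + D) / F * (1 - z) + m * z := ⟨_, rfl⟩
  obtain ⟨i, hi⟩ : ∃ i, i = (1 + D - r * (1 + 2 * D - D * r))⁻¹ := ⟨_, rfl⟩
  have y0 : 0 < y := hy ▸ exp_pos _
  have z0 : 0 < z := hz ▸ pow_pos y0 2
  have y1 : exp (F * t) * y = 1 := by rw [hy, ← exp_add]; simp
  have y2 : y ≤ 65 / 256 := by
    have h1 : (256 / 65 : ℝ) ≤ exp (23 / 100) ^ 6 :=
      le_trans (by norm_num) (pow_le_pow_left₀ (by norm_num) e23 6)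
    rw [← exp_nat_mul] at h1
    have h2 := h1.trans (exp_le_exp.2 (show ((6 : ℕ) : ℝ) * (23 / 100) ≤ F * t by
      push_cast; nlinarith only [f0, t1]))
    nlinarith only [h2, y0, y1]
  have r1 : r * exp t = 1 := by
    rw [hr, hp, hz, hy, hh, ← exp_nat_mul, ← exp_add, ← exp_add, ← exp_add, exp_eq_one_iff]
    push_cast; ring
  have z1 : exp ((2 - 2 * F) * t) = z * exp t ^ 2 := by
    rw [hz, hy, ← exp_nat_mul, ← exp_nat_mul, ← exp_add]; congr 1; push_cast; ring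
  have z2 : exp ((2 * F - 2) * t) = p * r := by
    rw [hr, hp, hz, hy, hh, ← exp_nat_mul, ← exp_add, ← exp_add, ← exp_add]
    congr 1; push_cast; ring
  have hv : n = vR D F t * z := by
    rw [vE f0' f1, z2, hn, hm]
    linear_combination -((1 + D) / F * (r * exp t + 1)) * r1 + (1 + D) / F * r * exp t ^ 2 * hr +
      2 * (1 + 2 * D) / (1 - 2 * F) * -(p * z) * r1
  have w1 : r ^ 2 * wR D t = 1 + D - r * (1 + 2 * D - D * r) := by
    rw [wR, PR, QR]; linear_combination ((1 + D) * (r * exp t + 1) - (1 + 2 * D) * r) * r1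
  have i1 : (1 + D - r * (1 + 2 * D - D * r)) * i = 1 := by
    rw [hi]
    refine mul_inv_cancel₀ (w1 ▸ mul_ne_zero (pow_ne_zero 2 fun e ↦ ?_) (wR_ne ht h0.ne'))
    simp [e] at r1
  have e5 : n * (√n)⁻¹ = gR D F t * y := by
    rw [← div_eq_mul_inv, div_sqrt, hv, hz, ← gR_sq ht, ← mul_pow,
      sqrt_sq (mul_pos (gR_pos ht h0) y0).le]
  have e6 : 12 * z * (12 * z + n)⁻¹ = (1 + vR D F t / 12)⁻¹ := hv ▸ inv12 v0 z0
  have key := hom (F := F) (l := r ^ 2 * i) (P := (1 + D) * i) (Q := r * ((1 + 2 * D) * i))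
    (R := r * (D * r * i)) (Y := n * i / 2) (c := z) (u := n) ht h0.ne' one_ne_zero
    (by rw [PR]; linear_combination -(1 + D) * i * (r * exp t + 1) * r1)
    (by rw [QR]; linear_combination -(1 + 2 * D) * i * r * r1) (by ring)
    (by rw [yR, z1, hv]; linear_combination -(vR D F t * z * i / 2) * (r * exp t + 1) * r1)
    (by linear_combination -i * w1 - i1) hv e6
  have A := alg (a := 31 / 20 + 10 * D) (b := 1 / 4000 - 9 / 200 * D) (F := F) (D := D) (m := m) hp hr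
    (by rw [hn]; linear_combination (1 - z) * mul_div_cancel₀ (1 + D) (b := F) (by linarith)) hv rfl i1 rfl rfl rfl rfl rfl rfl rfl rfl rfl rfl rfl rfl rfl
  have c := B2S.pos0 rfl rfl rfl rfl hz hp hr hm hn rfl hi rfl rfl rfl rfl rfl rfl rfl rfl rfl rfl
    rfl rfl rfl rfl rfl rfl rfl rfl rfl rfl rfl rfl d0 d1 f0' f1 (hh ▸ (exp_pos _).le)
    (hh ▸ exp_le_one_iff.2 (by nlinarith only [f1, h0])) y0.le y2
  rw [← eB, e5] at c
  generalize kB _ _ _ _ _ _ _ _ _ = k at key A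
  generalize (31 / 20 + 10 * D) * (F * n * i) ^ 2 * _ + _ + _ + _ = K at A c
  refine mul_pos h0 ((mul_pos_iff_of_pos_left (pow_pos z0 2)).1 ?_)
  rw [key]
  generalize (12 * z + n)⁻¹ = e at *
  linear_combination mul_pos z0 c - exp (F * t) * A - z * K * (exp (F * t) * hz + y * y1) -
    8 * (31 / 20 + 10 * D) * F * z * gR D F t * hz

theorem sign (d0 : -3 / 32 ≤ D) (d1 : D ≤ -1 / 64) (f0 : 23 / 100 ≤ F) (f1 : F ≤ 1 / 4)
    (ht : t ∈ JR D) (h0 : t ≠ 0) : 0 < t * dB D F t := by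
  have f0' : 235 / 1024 ≤ F := by linarith
  rcases h0.lt_or_gt with t0 | t0
  · rcases le_total t (-3) with l | l
    · refine gL_sign f0' f1 ht t0 ?_
      rcases le_total (-7) t with k | k
      · exact B2M.pos0 rfl rfl rfl rfl rfl rfl rfl rfl rfl rfl rfl rfl rfl rfl rfl rfl rfl rfl rfl rfl
          rfl rfl rfl rfl rfl rfl rfl rfl rfl rfl rfl d0 d1 f0' f1 k l
      refine B2T.pos0 rfl rfl rfl rfl rfl rfl rfl rfl rfl rfl rfl rfl rfl rfl rfl rfl rfl rfl rfl rfl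
        rfl rfl rfl rfl rfl rfl rfl rfl rfl d0 d1 f0' f1 (exp_pos _).le
        (exp_le_one_iff.2 (by nlinarith)) (exp_pos _).le ?_
      have h1 : (5 : ℝ) ≤ exp (23 / 100) ^ 7 :=
        le_trans (by norm_num) (pow_le_pow_left₀ (by norm_num) e23 7)
      rw [← exp_nat_mul] at h1
      have h2 := h1.trans (exp_le_exp.2 (show ((7 : ℕ) : ℝ) * (23 / 100) ≤ -(F * t) by
        push_cast; nlinarith))
      rw [exp_neg, le_inv_comm₀ (by norm_num) (exp_pos _)] at h2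
      exact h2.trans_eq (by norm_num)
    have e : ∀ D F s, outR B2L.prog 0 [D, F, s] = gB D F (-s) := fun D F s ↦
      B2L.eq rfl rfl rfl rfl rfl rfl rfl rfl rfl rfl rfl rfl rfl rfl rfl rfl rfl rfl rfl rfl rfl rfl
        rfl rfl rfl rfl rfl rfl rfl rfl
    have n : Tendsto (fun s : ℝ ↦ -s) (𝓝[>] 0) (𝓝[≠] 0) := by
      simpa using (tendsto_neg_nhdsGT (a := (0 : ℝ))).mono_right (nhdsLT_le_nhdsNE _)
    have := (B2L.out0 (fun D F _ _ f0 _ ↦ (gB_bigO (by linarith) n fun _ ↦ by ring).congr_left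
      fun s ↦ (e D F s).symm) (s := -t) d0 d1 f0' f1 (by linarith) (by linarith)
      (by linarith)).trans_eq (e D F _)
    exact gB_sign ht h0 (by rwa [neg_neg] at this)
  rcases le_total 6 t with l | l
  · exact far d0 d1 f0 f1 ht l
  have e : ∀ D F s, outR B2R.prog 0 [D, F, s] = gB D F s := fun D F s ↦
    B2R.eq rfl rfl rfl rfl rfl rfl rfl rfl rfl rfl rfl rfl rfl rfl rfl rfl rfl rfl rfl rfl rfl rfl
      rfl rfl rfl rfl rfl rfl rfl rfl
  exact gB_sign ht h0 ((B2R.out0 (fun D F _ _ f0 _ ↦ (gB_bigO (by linarith) (σ := id)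
    (tendsto_nhdsWithin_mono_right (fun _ h ↦ ne_of_gt h) tendsto_id) fun _ ↦ rfl).congr_left
      fun s ↦ (e D F s).symm) d0 d1 f0' f1 t0.le l t0).trans_eq (e D F t))

end B2

open B2 in
/-- the strip `B` away from the corner -/
theorem B12_holds (D F : ℝ) (d0 : -3 / 32 ≤ D) (d1 : D ≤ -1 / 64) (f0 : 23 / 100 ≤ F)
    (f1 : F ≤ 1 / 4) : NoThree D F := by
  refine CritG.noThree ⟨oB D, 1, fun h ↦ 60 * (12 + h)⁻¹, fun h ↦ 60 * (-1 / (12 + h) ^ 2),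
    fun a ha b hb a0 b0 e ↦ ?_⟩
  have v0 := vR_pos (F := F) hb b0.ne'
  have h1 := neg_of_mul_pos_right (sign d0 d1 f0 f1 ha a0.ne) a0.le
  have h2 := (mul_pos_iff_of_pos_left b0).1 (sign d0 d1 f0 f1 hb b0.ne')
  rw [dB] at h1 h2
  rw [e] at h1
  generalize vR D F b = v at *
  have v1 : 0 < 12 + v := by linarith
  refine ⟨(((hasDerivAt_id' v).const_add 12).inv v1.ne').const_mul 60, ?_, ?_, ?_⟩
  · have : 0 ≤ (1 / 4000 - 9 / 200 * D) * v ^ 2 := mul_nonneg (by linarith) (sq_nonneg v)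
    simp only [Gp.P, oB]; linarith
  · refine le_of_mul_le_mul_right (a := (12 + v) ^ 2) ?_ (pow_pos v1 2)
    have hA : 0 ≤ 88 - 3 * v - 6 * v ^ 2 + 79 / 100 * v ^ 3 := by
      nlinarith [mul_nonneg v0.le (sq_nonneg (v - 5)), sq_nonneg (v - 5)]
    have hB : 0 ≤ 200 + 109 * v - 12 * v ^ 2 + 37 / 100 * v ^ 3 := by
      nlinarith [mul_nonneg v0.le (sq_nonneg (v - 16))]
    have hC := mul_nonneg (sub_nonneg.2 d0) v0.le
    have hD := mul_nonneg (sub_nonneg.2 d1) v0.le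
    simp only [Gp.P, Gp.Q, Gp.S, oB]
    field_simp
    nlinarith [mul_nonneg (sub_nonneg.2 d1) hA, mul_nonneg (sub_nonneg.2 d0) hB,
      mul_nonneg hC v0.le, mul_nonneg hD v0.le, mul_nonneg hC (sq_nonneg v),
      mul_nonneg hD (sq_nonneg v)]
  · rw [one_mul, one_mul]
    exact lt_of_mul_lt_mul_left (a := F) (by linarith) (by linarith)

theorem B2_holds (D F : ℝ) (d0 : -1 / 20 ≤ D) (d1 : D ≤ -1 / 64) (f0 : 23 / 100 ≤ F)
    (f1 : F ≤ 1 / 4) : NoThree D F := B12_holds D F (by linarith) d1 f0 f1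

end Pool.Agent.Lib.MP_d6150d_an
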