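import Pool.Agent.Lib.MP_d6150d_an.Loc

/-! Closed form of the kernel corrected by null functions, behaviour at the center, separators. -/

namespace Pool.Agent.Lib.MP_d6150d_an

open Real Set Filter Topology Asymptotics

variable {D F t : ℝ}

theorem TR_zero (k : ℕ) : TR D F (k + 1) 0 = 0 := by simp [TR, th, gR]

theorem U1_eq (ht : t ∈ JR D) : U1 D F t = 1 / 2 * TR D F 1 t := by
  by_cases h0 : t = 0
  · rw [h0, TR_zero]; simp [U1, yR, vR]
  · rw [TR1 ht h0]; ring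

theorem U2_eq (ht : t ∈ JR D) : U2 D F t = 1 / 4 * TR D F 2 t - 1 / 2 * TR D F 1 t := by
  by_cases h0 : t = 0
  · rw [h0, TR_zero, TR_zero]; simp [U2, yR, vR]
  · rw [TR1 ht h0, TR2 ht h0]; ring

theorem U3_eq (ht : t ∈ JR D) :
    U3 D F t = 1 / 8 * TR D F 3 t - 3 / 4 * TR D F 2 t + TR D F 1 t := by
  by_cases h0 : t = 0
  · rw [h0, TR_zero, TR_zero, TR_zero]; simp [U3, yR, vR]
  · rw [TR1 ht h0, TR2 ht h0, TR3 ht h0]; ring

theorem U4_eq (ht : t ∈ JR D) : U4 D F t =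
    1 / 16 * TR D F 4 t - 3 / 4 * TR D F 3 t + 11 / 4 * TR D F 2 t - 3 * TR D F 1 t := by
  by_cases h0 : t = 0
  · rw [h0, TR_zero, TR_zero, TR_zero, TR_zero]; simp [U4, yR, vR]
  · rw [TR1 ht h0, TR2 ht h0, TR3 ht h0, TR4 ht h0]; ring

theorem HT.congr' {f f' k : ℝ → ℝ} (a : HT D F f f') (e : ∀ t ∈ JR D, k t = f t) : HT D F k f' :=
  ⟨a.an.congr fun t ht ↦ (e t ht).symm, fun t ht ↦ (th_congr e ht).trans (a.eq t ht)⟩

theorem ht_U0 : HT D F (uR F) fun t ↦ 2 * U1 D F t :=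
  (TR_ht 0).congr fun t ht ↦ by rw [U1_eq ht]; ring

theorem ht_U1 : HT D F (U1 D F) fun t ↦ 2 * (U1 D F t + U2 D F t) :=
  (((TR_ht 1).smul (1 / 2)).congr' fun _ ↦ U1_eq).congr fun t ht ↦ by
    rw [U1_eq ht, U2_eq ht]; ring

theorem ht_U2 : HT D F (U2 D F) fun t ↦ 2 * (2 * U2 D F t + U3 D F t) :=
  ((((TR_ht 2).smul (1 / 4)).sub ((TR_ht 1).smul (1 / 2))).congr' fun _ ↦ U2_eq).congr
    fun t ht ↦ by rw [U2_eq ht, U3_eq ht]; ring

theorem ht_U3 : HT D F (U3 D F) fun t ↦ 2 * (3 * U3 D F t + U4 D F t) :=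
  (((((TR_ht 3).smul (1 / 8)).sub ((TR_ht 2).smul (3 / 4))).add (TR_ht 1)).congr'
    fun _ ↦ U3_eq).congr fun t ht ↦ by rw [U3_eq ht, U4_eq ht]; ring

/-- the coefficients of a null function, as functions of the level -/
structure Nl where
  f0 : ℝ → ℝ
  f1 : ℝ → ℝ
  f2 : ℝ → ℝ
  f3 : ℝ → ℝ
  fg : ℝ → ℝ

namespace Nl

variable (n : Nl)

/-- the function on the branches -/
noncomputable def fn (D F t : ℝ) : ℝ := n.f0 (vR D F t) * uR F t + n.f1 (vR D F t) * U1 D F t +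
  n.f2 (vR D F t) * U2 D F t + n.f3 (vR D F t) * U3 D F t + n.fg (vR D F t) * gR D F t

/-- the coefficients are analytic at `v` -/
def An (v : ℝ) : Prop := AnalyticAt ℝ n.f0 v ∧ AnalyticAt ℝ n.f1 v ∧ AnalyticAt ℝ n.f2 v ∧
  AnalyticAt ℝ n.f3 v ∧ AnalyticAt ℝ n.fg v

/-- the derivatives of the coefficients at `v` are the coefficients of `m` -/
def Der (m : Nl) (v : ℝ) : Prop := HasDerivAt n.f0 (m.f0 v) v ∧ HasDerivAt n.f1 (m.f1 v) v ∧
  HasDerivAt n.f2 (m.f2 v) v ∧ HasDerivAt n.f3 (m.f3 v) v ∧ HasDerivAt n.fg (m.fg v) v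

variable {n}

theorem An.fn (h : n.An (vR D F t)) (ht : t ∈ JR D) : AnalyticAt ℝ (n.fn D F) t := by
  obtain ⟨h0, h1, h2, h3, hg⟩ := h
  have v := AnJ.v (F := F) t ht
  exact (((((h0.comp v).mul (uR_an F t)).add ((h1.comp v).mul (ht_U1.an t ht))).add
    ((h2.comp v).mul (ht_U2.an t ht))).add ((h3.comp v).mul (ht_U3.an t ht))).add
    ((hg.comp v).mul (gR_an ht))

theorem Der.th {m : Nl} (h : n.Der m (vR D F t)) (ht : t ∈ JR D) : th D F (n.fn D F) t =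
    2 * vR D F t * m.fn D F t + 2 * n.f0 (vR D F t) * U1 D F t +
      2 * n.f1 (vR D F t) * (U1 D F t + U2 D F t) + 2 * n.f2 (vR D F t) * (2 * U2 D F t + U3 D F t) +
      2 * n.f3 (vR D F t) * (3 * U3 D F t + U4 D F t) + n.fg (vR D F t) * gR D F t := by
  obtain ⟨h0, h1, h2, h3, hg⟩ := h
  have d : ∀ {f f' : ℝ → ℝ}, HT D F f f' → HasDerivAt f (deriv f t) t ∧
      gR D F t * (deriv f t / deriv (gR D F) t) = f' t := fun a ↦
    ⟨(a.an t ht).differentiableAt.hasDerivAt, a.eq t ht⟩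
  obtain ⟨v, ev⟩ := d (HT.v (D := D) (F := F))
  obtain ⟨u0, e0⟩ := d (ht_U0 (D := D) (F := F))
  obtain ⟨u1, e1⟩ := d (ht_U1 (D := D) (F := F))
  obtain ⟨u2, e2⟩ := d (ht_U2 (D := D) (F := F))
  obtain ⟨u3, e3⟩ := d (ht_U3 (D := D) (F := F))
  obtain ⟨g, eg⟩ := d (HT.g (D := D) (F := F))
  have H : HasDerivAt (n.fn D F) _ t := (((((h0.comp t v).mul u0).add ((h1.comp t v).mul u1)).add
    ((h2.comp t v).mul u2)).add ((h3.comp t v).mul u3)).add ((hg.comp t v).mul g)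
  rw [MP_d6150d_an.th, Dg, H.deriv]
  simp only [Function.comp, Nl.fn]
  linear_combination (m.f0 (vR D F t) * uR F t + m.f1 (vR D F t) * U1 D F t +
    m.f2 (vR D F t) * U2 D F t + m.f3 (vR D F t) * U3 D F t + m.fg (vR D F t) * gR D F t) * ev +
    n.f0 (vR D F t) * e0 + n.f1 (vR D F t) * e1 + n.f2 (vR D F t) * e2 + n.f3 (vR D F t) * e3 +
    n.fg (vR D F t) * eg

end Nl

namespace Gp

variable (o : Gp) (n m : Nl) (h v : ℝ)

def k4 : ℝ := 16 * o.P v + 2 * v * (h - v) * n.f3 v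
def k3 : ℝ := 96 * o.P v + 8 * o.C3 v +
  v * ((h - v) * (2 * v * m.f3 v + 6 * n.f3 v + 2 * n.f2 v) - v * n.f3 v)
def k2 : ℝ := 112 * o.P v + 24 * o.C3 v + 4 * o.C2 v +
  v * ((h - v) * (2 * v * m.f2 v + 4 * n.f2 v + 2 * n.f1 v) - v * n.f2 v)
def k1 : ℝ := 16 * o.P v + 8 * o.C3 v + 4 * o.C2 v + 2 * o.C1 v +
  v * ((h - v) * (2 * v * m.f1 v + 2 * n.f1 v + 2 * n.f0 v) - v * n.f1 v)
def k0 : ℝ := o.C0 v + v * ((h - v) * (2 * v * m.f0 v) - v * n.f0 v)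
def kg : ℝ := 4 * o.p0 + 2 * o.q0 + o.r0 + v * ((h - v) * (2 * v * m.fg v + n.fg v) - v * n.fg v)

variable {n m}

/-- the closed form -/
theorem KN_eq (hd : n.Der m (vR D F t)) (ht : t ∈ JR D) : o.KN D F (n.fn D F) h t =
    o.k4 n h (vR D F t) * U4 D F t + o.k3 n m h (vR D F t) * U3 D F t +
      o.k2 n m h (vR D F t) * U2 D F t + o.k1 n m h (vR D F t) * U1 D F t +
      o.k0 n m h (vR D F t) * uR F t + o.kg n m h (vR D F t) * gR D F t := by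
  rw [KN, hd.th ht, Gp.K]
  simp only [k4, k3, k2, k1, k0, kg, Nl.fn]
  rw [U1_eq ht, U2_eq ht, U3_eq ht, U4_eq ht]; ring

end Gp

/-- The homogeneous form of the functions `U_j`. -/
theorem U_hom {l : ℝ} (hl : l ≠ 0) (t : ℝ) :
    U1 D F t = exp (F * t) * (vR D F t * (exp ((2 - 2 * F) * t) / 2) * l) / (l * wR D t) ∧
    U2 D F t = exp (F * t) * (vR D F t * (exp ((2 - 2 * F) * t) / 2) * l) ^ 2 *
      (pjR F (l * PR D t) (l * QR D t) (l * D)).1 / (l * wR D t) ^ 3 ∧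
    U3 D F t = exp (F * t) * (vR D F t * (exp ((2 - 2 * F) * t) / 2) * l) ^ 3 *
      (pjR F (l * PR D t) (l * QR D t) (l * D)).2.1 / (l * wR D t) ^ 5 ∧
    U4 D F t = exp (F * t) * (vR D F t * (exp ((2 - 2 * F) * t) / 2) * l) ^ 4 *
      (pjR F (l * PR D t) (l * QR D t) (l * D)).2.2 / (l * wR D t) ^ 7 := by
  simp only [pjR_smul, U1, U2, U3, U4, yR]
  by_cases hw : wR D t = 0
  · simp [hw]
  refine ⟨?_, ?_, ?_, ?_⟩ <;> field_simp

/-- The kernel times the seventh power of `W = l * wR`, where `Y = l * yR`. -/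
theorem Gp.KN_hom (o : Gp) {n m : Nl} (h : ℝ) (hd : n.Der m (vR D F t)) (ht : t ∈ JR D)
    (h0 : t ≠ 0) {l P Q R Y W : ℝ} (hP : P = l * PR D t) (hQ : Q = l * QR D t) (hR : R = l * D)
    (hY : Y = l * yR D F t) (hW : W = l * wR D t) :
    W ^ 7 * o.KN D F (n.fn D F) h t = exp (F * t) *
      (o.k4 n h (vR D F t) * (Y ^ 4 * (pjR F P Q R).2.2) +
        o.k3 n m h (vR D F t) * (Y ^ 3 * (pjR F P Q R).2.1 * W ^ 2) +
        o.k2 n m h (vR D F t) * (Y ^ 2 * (pjR F P Q R).1 * W ^ 4) +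
        o.k1 n m h (vR D F t) * (Y * W ^ 6)) +
      W ^ 7 * (o.k0 n m h (vR D F t) * uR F t + o.kg n m h (vR D F t) * gR D F t) := by
  have hw := wR_ne ht h0
  subst hP hQ hR hY hW
  rw [o.KN_eq h hd ht]
  simp only [pjR_smul, U1, U2, U3, U4]
  field_simp
  ring

theorem g_bigO : gR D F =O[𝓝 0] fun t ↦ t := by
  have := (gR_an (F := F) (zero_mem_JR D)).differentiableAt.hasDerivAt.isBigO_sub
  have g0 : gR D F 0 = 0 := by simp [gR]
  simp only [g0, sub_zero] at this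
  exact this

theorem cont_bigO {k : ℝ → ℝ} (hk : ContinuousAt k 0) (j : ℕ) :
    (fun t ↦ gR D F t ^ j * k t) =O[𝓝 0] fun t ↦ t ^ j := by
  simpa using (g_bigO.pow j).mul (hk.isBigO_one ℝ)

theorem bound_of_bigO {k : ℝ → ℝ} {j : ℕ} (h : k =O[𝓝 0] fun t ↦ t ^ j) :
    ∃ K δ : ℝ, 0 < δ ∧ ∀ t, |t| < δ → |k t| ≤ K * |t| ^ j := by
  obtain ⟨K, hK⟩ := h.bound
  obtain ⟨δ, hδ, hb⟩ := Metric.eventually_nhds_iff.1 hK
  exact ⟨K, δ, hδ, fun t ht ↦ by simpa using hb (by simpa using ht)⟩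

/-- The kernel vanishes to order three at the center. -/
theorem Gp.KN_center (o : Gp) (h : ℝ) {f E : ℝ → ℝ} (hf : AnalyticAt ℝ f 0)
    (hE : ContinuousAt E 0) :
    (fun t ↦ o.KN D F f h t - vR D F t ^ 2 * E (vR D F t)) =O[𝓝 0] fun t ↦ t ^ 3 := by
  obtain ⟨_, _, Ψ, an, e, -⟩ := o.repr (D := D) (F := F) (R := 0) fun ρ hρ ↦
    absurd (abs_nonneg ρ) hρ.not_ge
  have z := zero_mem_JR D
  have g := gR_an (F := F) z
  have v := AnJ.v (F := F) 0 z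
  have cE : ContinuousAt (fun t ↦ E (vR D F t)) 0 :=
    ContinuousAt.comp (by simpa [vR] using hE) v.continuousAt
  refine (cont_bigO (D := D) (F := F) (k := fun t ↦ Ψ t + (h - vR D F t) * Dg D F f t -
    gR D F t * (f t + E (vR D F t))) (((an 0 z).continuousAt.add ((continuousAt_const.sub
      v.continuousAt).mul (hf.deriv.div g.deriv (gR_deriv_pos z).ne').continuousAt)).sub
      (g.continuousAt.mul (hf.continuousAt.add cE))) 3).congr' ?_ EventuallyEq.rfl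
  filter_upwards [(JR_open D).mem_nhds z] with t ht
  simp only [Gp.KN, th, ← e t ht, ← gR_sq ht]; ring

variable {o : Gp} {f : ℝ → ℝ} {σ h h1 h2 : ℝ}

theorem sg_of_sep0 (E : ℝ → ℝ) (hf : ∀ t ∈ JR D, vR D F t ≤ h → AnalyticAt ℝ f t)
    (C : ∀ t ∈ JR D, t ≠ 0 → vR D F t < h → 0 < t * (σ * (o.KN D F f h t - E (vR D F t)))) :
    o.Sg D F σ h := by
  refine ⟨f, hf, fun a ha b hb a0 b0 e l ↦ ?_⟩
  have p1 := neg_of_mul_pos_right (C a ha a0.ne (e ▸ l)) a0.le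
  have p2 := (mul_pos_iff_of_pos_left b0).1 (C b hb b0.ne' l)
  rw [e] at p1
  linarith

/-- The sign condition on a bounded interval of levels. -/
theorem sg_of_sep (E0 E1 : ℝ → ℝ) (hf : ∀ t ∈ JR D, vR D F t ≤ h → AnalyticAt ℝ f t)
    (l1 : h1 ≤ h) (l2 : h ≤ h2) (C : ∀ t ∈ JR D, t ≠ 0 → vR D F t < h →
      ∀ x, x = max h1 (vR D F t) ∨ x = h2 → 0 < t * (σ * (o.KN D F f x t -
        (E0 (vR D F t) + (x - vR D F t) * E1 (vR D F t))))) : o.Sg D F σ h := by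
  refine sg_of_sep0 (fun v ↦ E0 v + (h - v) * E1 v) hf fun t ht t0 l ↦ ?_
  have p1 := C t ht t0 l _ (Or.inl rfl)
  have p2 := C t ht t0 l _ (Or.inr rfl)
  have l3 : max h1 (vR D F t) ≤ h := max_le l1 l.le
  generalize max h1 (vR D F t) = x at *
  rcases l2.eq_or_lt with rfl | l4
  · exact p2
  refine (mul_pos_iff_of_pos_left (by linarith : 0 < h2 - x)).1 ?_
  have := add_pos_of_pos_of_nonneg (mul_pos (sub_pos.2 l4) p1) (mul_nonneg (sub_nonneg.2 l3) p2.le)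
  simp only [Gp.KN] at this ⊢
  linarith

/-- The sign condition on an unbounded interval of levels. -/
theorem sg_of_sep' (E0 E1 : ℝ → ℝ) (hf : ∀ t ∈ JR D, vR D F t ≤ h → AnalyticAt ℝ f t)
    (l1 : h1 ≤ h) (C : ∀ t ∈ JR D, t ≠ 0 → vR D F t < h →
      0 < t * (σ * (o.KN D F f (max h1 (vR D F t)) t -
        (E0 (vR D F t) + (max h1 (vR D F t) - vR D F t) * E1 (vR D F t)))) ∧
      0 ≤ t * (σ * (vR D F t * th D F f t - E1 (vR D F t)))) : o.Sg D F σ h := by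
  refine sg_of_sep0 (fun v ↦ E0 v + (h - v) * E1 v) hf fun t ht t0 l ↦ ?_
  obtain ⟨p1, p2⟩ := C t ht t0 l
  have l3 : max h1 (vR D F t) ≤ h := max_le l1 l.le
  generalize max h1 (vR D F t) = x at *
  have := add_pos_of_pos_of_nonneg p1 (mul_nonneg (sub_nonneg.2 l3) p2)
  simp only [Gp.KN] at this ⊢
  linarith

end Pool.Agent.Lib.MP_d6150d_an
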