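import Pool.Agent.Lib.MP_d6150d_an.GChk
import Pool.Agent.Lib.MP_d6150d_an.KN

/-! Program forms of the recurrent expressions. -/

namespace Pool.Agent.Lib.MP_d6150d_an

noncomputable def mPj (F P Q R : ℝ) : ℝ × ℝ × ℝ :=
  let z0 := ((Int.cast (2) : ℝ) - F)
  let z1 := ((P - Q) + R)
  let z2 := (((Int.cast (2) : ℝ) * P) - Q)
  let z3 := ((z0 * z1) - z2)
  let z4 := ((Int.cast (4) : ℝ) - ((Int.cast (3) : ℝ) * F))
  let z5 := (((Int.cast (4) : ℝ) * P) - Q)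
  let z6 := ((z0 * z2) - z5)
  let z7 := ((z4 * z3) + z6)
  let z8 := ((z1 * z7) - ((Int.cast (3) : ℝ) * (z2 * z3)))
  (z3, z8, ((z1 * ((((Int.cast (6) : ℝ) - ((Int.cast (5) : ℝ) * F)) * z8) + (((z2 * (z7 - ((Int.cast
    (3) : ℝ) * z6))) + (z1 * ((z4 * z6) + ((z0 * z5) - (((Int.cast (8) : ℝ) * P) - Q))))) -
    ((Int.cast (3) : ℝ) * (z5 * z3))))) - ((Int.cast (5) : ℝ) * (z2 * z8))))

theorem mPj_0 (F P Q R : ℝ) : (pjR F P Q R).1 = (mPj F P Q R).1 := by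
  simp only [mPj, pjR]; push_cast; ring

theorem mPj_1 (F P Q R : ℝ) : (pjR F P Q R).2.1 = (mPj F P Q R).2.1 := by
  simp only [mPj, pjR]; push_cast; ring

theorem mPj_2 (F P Q R : ℝ) : (pjR F P Q R).2.2 = (mPj F P Q R).2.2 := by
  simp only [mPj, pjR]; push_cast; ring

noncomputable def mMu (D F t : ℝ) : ℝ :=
  let z0 := ((Int.cast (2) : ℝ) * F)
  let z1 := (z0 * (ph2 (z0 * t)))
  let z2 := (z0 - (Int.cast (1) : ℝ))
  let z3 := (z2 * (ph2 (z2 * t)))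
  let z4 := (z0 - (Int.cast (2) : ℝ))
  ((Int.cast (2) : ℝ) * ((z1 - z3) + (D * ((z1 - ((Int.cast (2) : ℝ) * z3)) + (z4 * (ph2 (z4 *
    t)))))))

theorem mMu_0 (D F t : ℝ) : muR D F t = (mMu D F t) := by
  simp only [mMu, muR]; push_cast; ring

noncomputable def mK4 (F P Q R Y W k4 k3 k2 k1 : ℝ) : ℝ :=
  let z0 := ((P - Q) + R)
  let z1 := ((Int.cast (4) : ℝ) - ((Int.cast (3) : ℝ) * F))
  let z2 := ((Int.cast (2) : ℝ) - F)
  let z3 := (((Int.cast (2) : ℝ) * P) - Q)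
  let z4 := ((z2 * z0) - z3)
  let z5 := (((Int.cast (4) : ℝ) * P) - Q)
  let z6 := ((z2 * z3) - z5)
  let z7 := ((z1 * z4) + z6)
  let z8 := ((z0 * z7) - ((Int.cast (3) : ℝ) * (z3 * z4)))
  let z9 := (W * W)
  (Y * ((Y * ((Y * (((k4 * Y) * ((z0 * ((((Int.cast (6) : ℝ) - ((Int.cast (5) : ℝ) * F)) * z8) +
    (((z3 * (z7 - ((Int.cast (3) : ℝ) * z6))) + (z0 * ((z1 * z6) + ((z2 * z5) - (((Int.cast (8) : ℝ)
    * P) - Q))))) - ((Int.cast (3) : ℝ) * (z5 * z4))))) - ((Int.cast (5) : ℝ) * (z3 * z8)))) + ((k3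
    * z8) * z9))) + ((k2 * z4) * (z9 * z9)))) + (k1 * ((z9 * z9) * z9))))

theorem mK4_0 (F P Q R Y W k4 k3 k2 k1 : ℝ) : k4 * (Y ^ 4 * (pjR F P Q R).2.2) + k3 * (Y ^ 3 * (pjR
    F P Q R).2.1 * W ^ 2) + k2 * (Y ^ 2 * (pjR F P Q R).1 * W ^ 4) + k1 * (Y * W ^ 6) = (mK4 F P Q R
    Y W k4 k3 k2 k1) := by
  simp only [mK4, pjR]; push_cast; ring

noncomputable def mK3 (F P Q R Y W k3 k2 k1 : ℝ) : ℝ :=
  let z0 := ((P - Q) + R)
  let z1 := ((Int.cast (2) : ℝ) - F)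
  let z2 := (((Int.cast (2) : ℝ) * P) - Q)
  let z3 := ((z1 * z0) - z2)
  let z4 := (W * W)
  (Y * ((Y * (((k3 * Y) * ((z0 * ((((Int.cast (4) : ℝ) - ((Int.cast (3) : ℝ) * F)) * z3) + ((z1 *
    z2) - (((Int.cast (4) : ℝ) * P) - Q)))) - ((Int.cast (3) : ℝ) * (z2 * z3)))) + ((k2 * z3) *
    z4))) + (k1 * (z4 * z4))))

theorem mK3_0 (F P Q R Y W k3 k2 k1 : ℝ) : k3 * (Y ^ 3 * (pjR F P Q R).2.1) + k2 * (Y ^ 2 * (pjR F P
    Q R).1 * W ^ 2) + k1 * (Y * W ^ 4) = (mK3 F P Q R Y W k3 k2 k1) := by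
  simp only [mK3, pjR]; push_cast; ring

noncomputable def mK2 (F P Q R Y W k2 k1 : ℝ) : ℝ :=
  (Y * (((k2 * Y) * ((((Int.cast (2) : ℝ) - F) * ((P - Q) + R)) - (((Int.cast (2) : ℝ) * P) - Q))) +
    (k1 * (W * W))))

theorem mK2_0 (F P Q R Y W k2 k1 : ℝ) : k2 * (Y ^ 2 * (pjR F P Q R).1) + k1 * (Y * W ^ 2) = (mK2 F P
    Q R Y W k2 k1) := by
  simp only [mK2, pjR]; push_cast; ring

theorem Van.of0 : ∀ {vs bs f}, vs.all (fun v ↦ Nat.beq v.m 0) = true → Van vs bs f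
  | [], _, _, _ => trivial
  | _ :: _, [], _, _ => trivial
  | v :: _, _ :: _, _, h => by
    rw [List.all_cons, Bool.and_eq_true, Nat.beq_eq] at h
    exact ⟨fun _ ↦ allB_iff.2 fun _ _ ↦ by rw [h.1]; trivial, fun _ _ _ ↦ Van.of0 h.2⟩

open Real

variable {D F t l s P Q R Y W : ℝ} (o : Gp) {n m : Nl} (h : ℝ)

/-- The kernel times `W ^ 7`, with two scalings: `s W = l wR`, `s ^ 2 Y = l yR`. -/
theorem Gp.KN_hom4 (hd : n.Der m (vR D F t)) (ht : t ∈ JR D) (h0 : t ≠ 0) (hs : s ≠ 0)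
    (hP : P = l * PR D t) (hQ : Q = l * QR D t) (hR : R = l * D) (hY : s ^ 2 * Y = l * yR D F t)
    (hW : s * W = l * wR D t) : W ^ 7 * o.KN D F (n.fn D F) h t = s * exp (F * t) *
      (o.k4 n h (vR D F t) * (Y ^ 4 * (pjR F P Q R).2.2) +
        o.k3 n m h (vR D F t) * (Y ^ 3 * (pjR F P Q R).2.1 * W ^ 2) +
        o.k2 n m h (vR D F t) * (Y ^ 2 * (pjR F P Q R).1 * W ^ 4) +
        o.k1 n m h (vR D F t) * (Y * W ^ 6)) +
      W ^ 7 * (o.k0 n m h (vR D F t) * uR F t + o.kg n m h (vR D F t) * gR D F t) := by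
  have := o.KN_hom h hd ht h0 hP hQ hR hY hW
  apply mul_left_cancel₀ (pow_ne_zero 7 hs)
  linear_combination this

/-- The same with `W ^ 5`, when the top coefficient vanishes. -/
theorem Gp.KN_hom3 (hd : n.Der m (vR D F t)) (ht : t ∈ JR D) (h0 : t ≠ 0) (hs : s ≠ 0)
    (hP : P = l * PR D t) (hQ : Q = l * QR D t) (hR : R = l * D) (hY : s ^ 2 * Y = l * yR D F t)
    (hW : s * W = l * wR D t) (e4 : o.k4 n h (vR D F t) = 0) :
    W ^ 5 * o.KN D F (n.fn D F) h t = s * exp (F * t) *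
      (o.k3 n m h (vR D F t) * (Y ^ 3 * (pjR F P Q R).2.1) +
        o.k2 n m h (vR D F t) * (Y ^ 2 * (pjR F P Q R).1 * W ^ 2) +
        o.k1 n m h (vR D F t) * (Y * W ^ 4)) +
      W ^ 5 * (o.k0 n m h (vR D F t) * uR F t + o.kg n m h (vR D F t) * gR D F t) := by
  have hw := wR_ne ht h0
  obtain rfl : Y = l * yR D F t / s ^ 2 := by rw [← hY]; field_simp
  obtain rfl : W = l * wR D t / s := by rw [← hW]; field_simp
  subst hP hQ hR
  rw [o.KN_eq h hd ht, e4]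
  simp only [pjR_smul, U1, U2, U3]
  field_simp
  ring

/-- The same with `W ^ 3`, when the two top coefficients vanish. -/
theorem Gp.KN_hom2 (hd : n.Der m (vR D F t)) (ht : t ∈ JR D) (h0 : t ≠ 0) (hs : s ≠ 0)
    (hP : P = l * PR D t) (hQ : Q = l * QR D t) (hR : R = l * D) (hY : s ^ 2 * Y = l * yR D F t)
    (hW : s * W = l * wR D t) (e4 : o.k4 n h (vR D F t) = 0) (e3 : o.k3 n m h (vR D F t) = 0) :
    W ^ 3 * o.KN D F (n.fn D F) h t = s * exp (F * t) *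
      (o.k2 n m h (vR D F t) * (Y ^ 2 * (pjR F P Q R).1) + o.k1 n m h (vR D F t) * (Y * W ^ 2)) +
      W ^ 3 * (o.k0 n m h (vR D F t) * uR F t + o.kg n m h (vR D F t) * gR D F t) := by
  have hw := wR_ne ht h0
  obtain rfl : Y = l * yR D F t / s ^ 2 := by rw [← hY]; field_simp
  obtain rfl : W = l * wR D t / s := by rw [← hW]; field_simp
  subst hP hQ hR
  rw [o.KN_eq h hd ht, e4, e3]
  simp only [pjR_smul, U1, U2]
  field_simp
  ring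

end Pool.Agent.Lib.MP_d6150d_an
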