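import Pool.Agent.Lib.MP_d6150d_an.B2J
import Pool.Agent.Lib.MP_d6150d_an.GMac

/-! The strip `B`, away from the corner: the coefficients of the separator. -/

namespace Pool.Agent.Lib.MP_d6150d_an

/-- the coefficient of order four of the kernel -/
noncomputable def aB4 (D F : ℝ) : ℝ := -8 * (31 / 20 + 10 * D) * ja4 D F - 49 / 50 * ja2 D F

/-- the coefficient of order six of the kernel -/
noncomputable def aB6 (D F : ℝ) : ℝ := 72 * (31 / 20 + 10 * D) * ja6 D F + 189 / 25 * ja4 D F +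
  (27 * (1 / 4000 - 9 / 200 * D) + 9 / 70) * ja2 D F

noncomputable def mAB (D F : ℝ) : ℝ × ℝ :=
  let z0 := (((Int.cast (31) : ℝ) / (Nat.cast 20 : ℝ)) + ((Int.cast (10) : ℝ) * D))
  let z1 := (((Int.cast (1) : ℝ) / (Nat.cast 1080 : ℝ)) * (((((((Int.cast (-320) : ℝ) * D) +
    (((Int.cast (-480) : ℝ) * F) + (Int.cast (-60) : ℝ))) * D) + (((((Int.cast (-312) : ℝ) * F) +
    (Int.cast (102) : ℝ)) * F) + (Int.cast (-6) : ℝ))) * D) + (((((((Int.cast (-103) : ℝ) * F) +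
    (Int.cast (156) : ℝ)) * F) + (Int.cast (-57) : ℝ)) * F) + (Int.cast (4) : ℝ))))
  let z2 := (((Int.cast (1) : ℝ) / (Nat.cast 6 : ℝ)) * (((Int.cast (-2) : ℝ) * D) + (((Int.cast (-1)
    : ℝ) * F) + (Int.cast (1) : ℝ))))
  (((((Int.cast (-8) : ℝ) * z0) * z1) - (((Int.cast (49) : ℝ) / (Nat.cast 50 : ℝ)) * z2)),
    (((((Int.cast (72) : ℝ) * z0) * (((Int.cast (1) : ℝ) / (Nat.cast 136080 : ℝ)) *
    (((((((((((Int.cast (-62720) : ℝ) * D) + (((Int.cast (-156800) : ℝ) * F) + (Int.cast (-44800) :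
    ℝ))) * D) + (((((Int.cast (-180320) : ℝ) * F) + (Int.cast (-49280) : ℝ)) * F) + (Int.cast
    (-4760) : ℝ))) * D) + (((((((Int.cast (-123760) : ℝ) * F) + (Int.cast (10416) : ℝ)) * F) +
    (Int.cast (-1596) : ℝ)) * F) + (Int.cast (28) : ℝ))) * D) + (((((((((Int.cast (-53854) : ℝ) * F)
    + (Int.cast (45478) : ℝ)) * F) + (Int.cast (-11886) : ℝ)) * F) + (Int.cast (802) : ℝ)) * F) +
    (Int.cast (20) : ℝ))) * D) + (((((((((((Int.cast (-13171) : ℝ) * F) + (Int.cast (26927) : ℝ)) *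
    F) + (Int.cast (-17893) : ℝ)) * F) + (Int.cast (4441) : ℝ)) * F) + (Int.cast (-296) : ℝ)) * F) +
    (Int.cast (-8) : ℝ))))) + (((Int.cast (189) : ℝ) / (Nat.cast 25 : ℝ)) * z1)) + ((((Int.cast (27)
    : ℝ) * (((Int.cast (1) : ℝ) / (Nat.cast 4000 : ℝ)) - (((Int.cast (9) : ℝ) / (Nat.cast 200 : ℝ))
    * D))) + ((Int.cast (9) : ℝ) / (Nat.cast 70 : ℝ))) * z2)))

theorem mAB_0 (D F : ℝ) : aB4 D F = (mAB D F).1 := by
  simp only [mAB, aB4, ja2, ja4]; push_cast; ring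

theorem mAB_1 (D F : ℝ) : aB6 D F = (mAB D F).2 := by
  simp only [mAB, aB6, ja2, ja4, ja6]; push_cast; ring

end Pool.Agent.Lib.MP_d6150d_an
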