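import Pool.Agent.Lib.MP_d6150d_an.KNJ

/-! The coefficient of order six at the center. -/

namespace Pool.Agent.Lib.MP_d6150d_an

open Real Set Filter Topology Asymptotics

variable {D F : ℝ} {f k : ℝ → ℝ} {a0 a1 a2 a3 a4 a5 a6 : ℝ}

theorem Jet.congr_ev (J : Jet D F f a0 a1 a2 a3 a4 a5 a6) (e : ∀ᶠ t in 𝓝 0, k t = f t) :
    Jet D F k a0 a1 a2 a3 a4 a5 a6 := by
  obtain ⟨h, ha, e'⟩ := J
  refine ⟨h, ha, ?_⟩
  filter_upwards [e', e] with t h1 h2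
  rw [h2, h1]

theorem Jet.zero (J : Jet D F f a0 a1 a2 a3 a4 a5 a6) : f 0 = a0 := by
  obtain ⟨h, -, e⟩ := J
  simpa [gR] using e.self_of_nhds

variable (D F) in
/-- the coefficient of order six -/
noncomputable def ja6 : ℝ := (-8 - 296 * F + 20 * D + 4441 * F ^ 2 + 802 * D * F + 28 * D ^ 2 -
  17893 * F ^ 3 - 11886 * D * F ^ 2 - 1596 * D ^ 2 * F - 4760 * D ^ 3 + 26927 * F ^ 4 +
  45478 * D * F ^ 3 + 10416 * D ^ 2 * F ^ 2 - 49280 * D ^ 3 * F - 44800 * D ^ 4 - 13171 * F ^ 5 -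
  53854 * D * F ^ 4 - 123760 * D ^ 2 * F ^ 3 - 180320 * D ^ 3 * F ^ 2 - 156800 * D ^ 4 * F -
  62720 * D ^ 5) / 136080

theorem jet_uR6 : Jet D F (uR F) 0 1 (ja2 D F) (ja3 D F) (ja4 D F) (ja5 D F) (ja6 D F) := by
  obtain ⟨a6, U⟩ := jet_uR (D := D) (F := F)
  have z := zero_mem_JR D
  have aX : AnalyticAt ℝ (fun t ↦ 1 - exp (-t)) 0 := by fun_prop
  obtain ⟨b1, b2, b3, b4, b5, b6, X⟩ := jet_ex (D := D) (F := F) aX
  obtain ⟨x, ax, ex⟩ := div_g (D := D) (F := F) aX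
  obtain ⟨d1, d2, d3, d4, d5, d6, X'⟩ := jet_ex (D := D) (F := F) ax
  obtain ⟨c1, c2, c3, c4, c5, c6, U'⟩ := jet_ex (D := D) (F := F) (AnJ.u.dg (F := F) 0 z)
  simp only [neg_zero, exp_zero, sub_self, zero_add] at X ex
  have Y := (Jet.const 1).lin U (-F)
  have Q := (Jet.const 1).lin X 1
  have y : ∀ t, 1 - -F * uR F t = exp (F * t) := fun t ↦ by rw [exp_eq_ph (F * t), uR]; ring
  have dx : ∀ t, deriv (fun t ↦ 1 - exp (-t)) t = exp (-t) := fun t ↦ by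
    simpa using ((hasDerivAt_neg t).exp.const_sub 1).deriv
  obtain ⟨-, r1, r2, r3, r4, r5, r6⟩ := (Y.mul X.th).uniq ((Q.mul U.th).congr fun t _ ↦ by
    simp only [y, th, Dg, dx, (hasDerivAt_uR t).deriv]; ring)
  obtain ⟨-, u0, u1, u2, u3, u4, u5⟩ := U.th.uniq ((Jet.g.mul U').congr fun _ _ ↦ rfl)
  obtain ⟨-, x0, x1, x2, x3, x4, x5⟩ := X.uniq ((Jet.g.mul X').congr_ev ex)
  simp only [zero_mul, one_mul, zero_add, add_zero] at u0 u1 u2 u3 u4 u5 x0 x1 x2 x3 x4 x5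
  have H := (U'.mul Y).mul (X'.mul ((Jet.const 1).lin X (-D)))
  rw [← u0, ← u1, ← u2, ← u3, ← u4, ← u5, ← x0, ← x1, ← x2, ← x3, ← x4, ← x5] at H
  obtain rfl : b1 = 1 := by linarith
  obtain ⟨-, -, -, -, -, s5, -⟩ := H.uniq ((Jet.const 1).congr_ev (by
    filter_upwards [ex, (JR_open D).mem_nhds z] with t e ht
    by_cases h0 : t = 0
    · rw [h0]; exact H.zero.trans (by ring)
    have h1 := gR_deriv (F := F) ht
    have h2 := (gR_deriv_pos (F := F) ht).ne'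
    have h3 : exp ((2 * F - 2) * t) = exp (F * t) * exp (F * t) * exp (-t) ^ 2 := by
      rw [sq, ← exp_add, ← exp_add, ← exp_add]; ring_nf
    have h4 : exp (-t) * exp t = 1 := by rw [← exp_add]; simp
    have h5 : gR D F t ≠ 0 := fun h ↦ (vR_pos (F := F) ht h0).ne' (by rw [← gR_sq ht, h]; simp)
    simp only [y, Dg, (hasDerivAt_uR t).deriv]
    rw [WR, om, h3] at h1
    rw [div_mul_eq_mul_div, div_mul_eq_mul_div, div_eq_iff h2]
    apply mul_left_cancel₀ h5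
    linear_combination (-1 / 2) * h1 - exp (F * t) ^ 2 *
      ((1 + D) * (1 + exp (-t) * exp t) - (1 + 2 * D) * exp (-t)) * h4 -
      exp (F * t) ^ 2 * (1 + D * (1 - exp (-t))) * e))
  obtain rfl : b2 = (-1 - 2 * F - D) / 3 := by simp only [ja2] at r2; linear_combination r2 / 2
  obtain rfl : b3 = (1 + 13 * F + 11 * D + 22 * F ^ 2 + 22 * D * F + 10 * D ^ 2) / 36 := by
    simp only [ja2, ja3] at r3; linear_combination r3 / 3
  obtain rfl : b4 = (1 - 3 * F - 24 * D - 96 * F ^ 2 - 177 * D * F - 105 * D ^ 2 - 172 * F ^ 3 -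
      258 * D * F ^ 2 - 210 * D ^ 2 * F - 80 * D ^ 3) / 270 := by
    simp only [ja2, ja3, ja4] at r4; linear_combination r4 / 4
  obtain rfl : b5 = (1 - 46 * F + 22 * D - 147 * F ^ 2 + 762 * D * F + 861 * D ^ 2 + 1436 * F ^ 3 +
      4512 * D * F ^ 2 + 5208 * D ^ 2 * F + 2380 * D ^ 3 + 3076 * F ^ 4 + 6152 * D * F ^ 3 +
      6972 * D ^ 2 * F ^ 2 + 4760 * D ^ 3 * F + 1540 * D ^ 4) / 4320 := by
    simp only [ja2, ja3, ja4, ja5] at r5; linear_combination r5 / 5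
  obtain rfl : a6 = ja6 D F := by
    simp only [ja2, ja3, ja4, ja5, ja6] at r6 s5 ⊢; linear_combination s5 / 7 - r6 / 42
  exact U

/-- The expansion of the kernel, with all the coefficients. -/
theorem Gp.K_jet6 (o : Gp) : Jet D F (o.K D F) 0 0 0
    (3 * (16 * o.p0 + 4 * o.q0 + o.r0) * ja3 D F)
    (8 * (25 * o.p0 + 5 * o.q0 + o.r0) * ja4 D F + 2 * (9 * o.p1 + 3 * o.q1 + o.r1) * ja2 D F)
    (15 * (36 * o.p0 + 6 * o.q0 + o.r0) * ja5 D F + 6 * (16 * o.p1 + 4 * o.q1 + o.r1) * ja3 D F)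
    (24 * (49 * o.p0 + 7 * o.q0 + o.r0) * ja6 D F + 12 * (25 * o.p1 + 5 * o.q1 + o.r1) * ja4 D F +
      3 * (9 * o.p2 + 3 * o.q2 + o.r2) * ja2 D F) := by
  have U := jet_uR6 (D := D) (F := F)
  refine (((((((Jet.poly o.p0 o.p1 o.p2 o.p3 o.p4).mul U.th.th.th.th).add
    ((Jet.poly o.q0 (o.p1 + o.q1) (2 * o.p2 + o.q2) (4 * o.p3 + o.q3) (8 * o.p4)).mul U.th.th.th)).add
    ((Jet.poly (-3 * o.p0 - o.q0 + o.r0) (o.r1 - o.p1) (o.q2 + o.r2) (2 * o.p3 + 3 * o.q3)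
      (14 * o.p4)).mul U.th.th)).add
    ((Jet.poly (-2 * (o.p0 + o.q0 + o.r0)) (-(o.p1 + o.q1 + o.r1)) (-(2 * o.p2 + o.q2))
      (-(4 * o.p3 + o.q3)) (-(8 * o.p4))).mul U.th)).add
    ((Jet.poly 0 0 (-(o.p2 + o.q2 + o.r2)) (-(3 * (o.p3 + o.q3))) (-(15 * o.p4))).mul U)).add
    ((Jet.const (4 * o.p0 + 2 * o.q0 + o.r0)).mul Jet.g)).congr (k := o.K D F)
      (fun t _ ↦ ?_) |>.cast (by ring) (by ring) (by ring) (by ring) (by ring) (by ring) (by ring)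
  simp only [Gp.K, Gp.P, Gp.C3, Gp.C2, Gp.C1, Gp.C0, TR]; ring

end Pool.Agent.Lib.MP_d6150d_an
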