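import Pool.Agent.Lib.MP_d6150d_an.Gen

/-! The criteria localised to a set of levels, with a null function. -/

namespace Pool.Agent.Lib.MP_d6150d_an

open Real Set Filter Topology intervalIntegral

variable {D F R : ℝ} {I I' : Set ℝ} {n m : ℕ}

theorem circ_null {φ φ' : ℝ → ℝ} {r : ℝ} (h0 : 0 ≤ r) (h : ∀ ρ ∈ Icc (-r) r, HasDerivAt φ (φ' ρ) ρ)
    (c : ContinuousOn φ' (Icc (-r) r)) :
    ∫ θ in (0 : ℝ)..2 * π, (r ^ 2 - (r * cos θ) ^ 2) * φ' (r * cos θ) -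
      r * cos θ * φ (r * cos θ) = 0 := by
  have m : ∀ θ, r * cos θ ∈ Icc (-r) r := fun θ ↦
    ⟨by nlinarith [neg_one_le_cos θ], by nlinarith [cos_le_one θ]⟩
  have h1 : ∀ θ, HasDerivAt (fun θ ↦ -(r * sin θ) * φ (r * cos θ))
      ((r ^ 2 - (r * cos θ) ^ 2) * φ' (r * cos θ) - r * cos θ * φ (r * cos θ)) θ := fun θ ↦
    (((hasDerivAt_sin θ).const_mul r).neg.mul
      (HasDerivAt.comp (h₂ := φ) θ (h _ (m θ)) ((hasDerivAt_cos θ).const_mul r))).congr_deriv (by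
        simp only [Function.comp, Pi.neg_apply]
        linear_combination r ^ 2 * φ' (r * cos θ) * sin_sq_add_cos_sq θ)
  have c1 : Continuous fun θ ↦ φ (r * cos θ) := ContinuousOn.comp_continuous
    (fun ρ hρ ↦ (h ρ hρ).continuousAt.continuousWithinAt) (by fun_prop) m
  have c2 : Continuous fun θ ↦ φ' (r * cos θ) := c.comp_continuous (by fun_prop) m
  rw [integral_eq_sub_of_hasDerivAt (fun θ _ ↦ h1 θ)
    (((Continuous.mul (by fun_prop) c2).sub (Continuous.mul (by fun_prop) c1)).intervalIntegrable _ _)]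
  simp

theorem circ_pos {φ : ℝ → ℝ} {r : ℝ} (h0 : 0 < r) (c : ContinuousOn φ (Icc (-r) r))
    (hs : ∀ ρ ∈ Ioo 0 r, 0 < φ (-ρ) + φ ρ) : 0 < ∫ θ in (0 : ℝ)..2 * π, φ (r * cos θ) := by
  have m : ∀ θ, r * cos θ ∈ Icc (-r) r := fun θ ↦
    ⟨by nlinarith [neg_one_le_cos θ], by nlinarith [cos_le_one θ]⟩
  have c1 : Continuous fun θ ↦ φ (r * cos θ) := c.comp_continuous (by fun_prop) m
  have c2 : Continuous fun θ ↦ φ (-(r * cos θ)) := c.comp_continuous (by fun_prop) fun θ ↦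
    ⟨by linarith [(m θ).2], by linarith [(m θ).1]⟩
  have e2 := integral_comp_add_right (a := 0) (b := π) (fun θ ↦ φ (r * cos θ)) π
  rw [zero_add, ← two_mul] at e2
  have c3 : Continuous fun θ ↦ φ (r * cos θ) + φ (-(r * cos θ)) := c1.add c2
  rw [← integral_add_adjacent_intervals (b := π) (c1.intervalIntegrable _ _)
    (c1.intervalIntegrable _ _), ← e2]
  simp only [cos_add_pi, mul_neg]
  rw [← integral_add (c1.intervalIntegrable _ _) (c2.intervalIntegrable _ _),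
    ← integral_add_adjacent_intervals (b := π / 2) (c3.intervalIntegrable _ _)
    (c3.intervalIntegrable _ _)]
  refine add_pos (intervalIntegral_pos_of_pos_on (c3.intervalIntegrable _ _) (fun θ hθ ↦ ?_)
    (by positivity)) (intervalIntegral_pos_of_pos_on (c3.intervalIntegrable _ _) (fun θ hθ ↦ ?_)
    (half_lt_self pi_pos))
  · have h1 : cos θ < 1 := cos_zero ▸ cos_lt_cos_of_nonneg_of_le_pi le_rfl
      (by linarith [hθ.2, pi_pos]) hθ.1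
    have := hs _ ⟨mul_pos h0 (cos_pos_of_mem_Ioo ⟨by linarith [hθ.1, pi_pos], hθ.2⟩),
      mul_lt_of_lt_one_right h0 h1⟩
    linarith
  · have h1 : -1 < cos θ := cos_pi ▸ cos_lt_cos_of_nonneg_of_le_pi
      (by linarith [hθ.1, pi_pos]) le_rfl hθ.2
    have := hs (-(r * cos θ)) ⟨neg_pos.2 (mul_neg_of_pos_of_neg h0
      (cos_neg_of_pi_div_two_lt_of_lt hθ.1 (by linarith [hθ.2, pi_pos]))), by nlinarith⟩
    rw [neg_neg] at this
    linarith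

variable (D F) in
/-- the function `K` corrected by the null function attached to `f` at the level `h` -/
noncomputable def Gp.KN (o : Gp) (f : ℝ → ℝ) (h t : ℝ) : ℝ :=
  o.K D F t + vR D F t * ((h - vR D F t) * th D F f t - vR D F t * f t)

variable (D F) in
/-- the sign condition at the level `h` -/
def Gp.Sg (o : Gp) (σ h : ℝ) : Prop := ∃ f : ℝ → ℝ, (∀ t ∈ JR D, vR D F t ≤ h → AnalyticAt ℝ f t) ∧
  ∀ a ∈ JR D, ∀ b ∈ JR D, a < 0 → 0 < b → vR D F a = vR D F b → vR D F b < h →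
    σ * o.KN D F f h a < σ * o.KN D F f h b

theorem Gp.sign_loc (o : Gp) (H : Rng D F R) : ∃ J1 J2 : ℝ → ℝ, ∀ r ∈ Ioo 0 R,
    HasDerivAt (Jf D F (phi4 D F)) (J1 r / r) r ∧ HasDerivAt J1 (J2 r / r) r ∧
      ∀ σ, o.Sg D F σ (r ^ 2) → 0 < σ * (o.P (r ^ 2) * J2 r + o.Q (r ^ 2) * J1 r +
        o.S (r ^ 2) * Jf D F (phi4 D F) r) := by
  obtain ⟨J1, J2, Ψ, an, e, h⟩ := o.repr H
  refine ⟨J1, J2, fun r hr ↦ ⟨(h r hr).1, (h r hr).2.1, fun σ ⟨f, af, hs⟩ ↦ ?_⟩⟩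
  have ab : ∀ ρ ∈ Icc (-r) r, |ρ| < R := fun ρ hρ ↦ (abs_le.2 hρ).trans_lt hr.2
  have a1 : ∀ ρ ∈ Icc (-r) r, AnalyticAt ℝ f (XR D F ρ) := fun ρ hρ ↦ af _ (H.mem (ab ρ hρ)) (by
    rw [← gR_sq (H.mem (ab ρ hρ)), H.eq (ab ρ hρ)]; exact sq_le_sq' hρ.1 hρ.2)
  have dX : ∀ {k : ℝ → ℝ} {ρ : ℝ}, ρ ∈ Icc (-r) r → AnalyticAt ℝ k (XR D F ρ) →
      HasDerivAt (fun ρ ↦ k (XR D F ρ)) (Dg D F k (XR D F ρ)) ρ := fun {k ρ} hρ hk ↦
    hk.differentiableAt.hasDerivAt.comp ρ (HasDerivAt.of_local_left_inverse (H.cont (ab ρ hρ))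
      (gR_an (F := F) (H.mem (ab ρ hρ))).differentiableAt.hasDerivAt
      (gR_deriv_pos (H.mem (ab ρ hρ))).ne'
      (by filter_upwards [abs_nhds (ab ρ hρ)] with x hx using H.eq hx))
  have cX : ∀ {k : ℝ → ℝ}, (∀ ρ ∈ Icc (-r) r, AnalyticAt ℝ k (XR D F ρ)) →
      ContinuousOn (fun ρ ↦ k (XR D F ρ)) (Icc (-r) r) := fun hk ρ hρ ↦
    (dX hρ (hk ρ hρ)).continuousAt.continuousWithinAt
  have c1 := cX a1
  have c2 := cX (k := Dg D F f) fun ρ hρ ↦ (a1 ρ hρ).deriv.div (gR_an (H.mem (ab ρ hρ))).deriv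
    (gR_deriv_pos (H.mem (ab ρ hρ))).ne'
  have c3 := cX fun ρ hρ ↦ an _ (H.mem (ab ρ hρ))
  have c4 : ContinuousOn (fun ρ ↦ (r ^ 2 - ρ ^ 2) * Dg D F f (XR D F ρ) - ρ * f (XR D F ρ))
      (Icc (-r) r) := (ContinuousOn.mul (by fun_prop) c2).sub (continuousOn_id.mul c1)
  have n0 := circ_null hr.1.le (fun ρ hρ ↦ dX hρ (a1 ρ hρ)) c2
  have h4 := circ_pos hr.1 (continuousOn_const (c := σ).mul (c3.add c4)) fun ρ hρ ↦ by
    obtain ⟨m1, m2, m3, m4, m5, e1, e2, e3⟩ := H.pair hρ.1 (hρ.2.trans hr.2)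
    have := hs _ m1 _ m2 m3 m4 m5 (by rw [e3]; exact pow_lt_pow_left₀ hρ.2 hρ.1.le two_ne_zero)
    simp only [Gp.KN, th] at this
    rw [← e _ m1, ← e _ m2, m5, e1, e2, e3] at this
    refine (mul_pos_iff_of_pos_left (pow_pos hρ.1 3)).1 ?_
    simp only [Pi.mul_apply, Pi.add_apply]
    linarith
  have m : ∀ θ, r * cos θ ∈ Icc (-r) r := fun θ ↦
    ⟨by nlinarith [neg_one_le_cos θ, hr.1], by nlinarith [cos_le_one θ, hr.1]⟩
  simp only [Pi.mul_apply, Pi.add_apply] at h4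
  have c5 : Continuous fun θ ↦ Ψ (XR D F (r * cos θ)) := c3.comp_continuous (by fun_prop) m
  have c6 : Continuous fun θ ↦ (r ^ 2 - (r * cos θ) ^ 2) * Dg D F f (XR D F (r * cos θ)) -
      r * cos θ * f (XR D F (r * cos θ)) := c4.comp_continuous (by fun_prop) m
  rw [integral_const_mul, integral_add (c5.intervalIntegrable _ _) (c6.intervalIntegrable _ _), n0,
    add_zero] at h4
  rw [← (h r hr).2.2, mul_left_comm]
  exact mul_pos (pow_pos hr.1 4) h4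

variable (D F) in
/-- at most `n` critical levels in `I` -/
def Cnt (I : Set ℝ) (n : ℕ) : Prop := ∀ R, Rng D F R → ∀ S : Finset ℝ,
  (∀ r ∈ S, r ∈ Ioo 0 R ∧ r ^ 2 ∈ I ∧ Jf D F (phi4 D F) r = 0) → S.card ≤ n

variable (D F) in
/-- `h` is the level of a pair of conjugate points -/
def Lev (h : ℝ) : Prop := ∃ a ∈ JR D, ∃ b ∈ JR D, a < 0 ∧ 0 < b ∧ vR D F a = h ∧ vR D F b = h

theorem Rng.lev (H : Rng D F R) {r : ℝ} (hr : r ∈ Ioo 0 R) : Lev D F (r ^ 2) := by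
  obtain ⟨m1, m2, m3, m4, m5, -, -, m6⟩ := H.pair hr.1 hr.2
  exact ⟨_, m1, _, m2, m3, m4, m5.trans m6, m6⟩

theorem Cnt.union (a : Cnt D F I n) (b : Cnt D F I' m) : Cnt D F (I ∪ I') (n + m) := by
  classical
  intro R H S hS
  rw [← Finset.card_filter_add_card_filter_not (s := S) (fun r ↦ r ^ 2 ∈ I)]
  refine add_le_add (a R H _ fun r hr ↦ ?_) (b R H _ fun r hr ↦ ?_)
  · rw [Finset.mem_filter] at hr
    exact ⟨(hS r hr.1).1, hr.2, (hS r hr.1).2.2⟩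
  · rw [Finset.mem_filter] at hr
    exact ⟨(hS r hr.1).1, (hS r hr.1).2.1.resolve_left hr.2, (hS r hr.1).2.2⟩

theorem Cnt.mono (a : Cnt D F I n) (h : ∀ x ∈ I', Lev D F x → x ∈ I) (k : n ≤ m) : Cnt D F I' m :=
  fun R H S hS ↦ (a R H S fun r hr ↦
    ⟨(hS r hr).1, h _ (hS r hr).2.1 (H.lev (hS r hr).1), (hS r hr).2.2⟩).trans k

theorem Cnt.noThree (a : Cnt D F I n) (h : ∀ x, Lev D F x → x ∈ I) (k : n ≤ 2) : NoThree D F := by
  intro _ _ t _ _ _ _ R hc H x y h0 h1 h2 z1 z2 z3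
  generalize gR D F t = c at *
  have := a.mono (I' := univ) (fun x _ ↦ h x) k R H {x, y, c} (by
    simp only [Finset.mem_insert, Finset.mem_singleton]
    rintro r (rfl | rfl | rfl)
    exacts [⟨⟨h0, by linarith⟩, trivial, z1⟩, ⟨⟨by linarith, by linarith⟩, trivial, z2⟩,
      ⟨⟨by linarith, hc⟩, trivial, z3⟩])
  rw [Finset.card_eq_three.2 ⟨x, y, c, h1.ne, (h1.trans h2).ne, h2.ne, rfl⟩] at this
  omega

/-- order zero -/
theorem Gp.cnt0 (o : Gp) (σ : ℝ)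
    (h : ∀ x ∈ I, Lev D F x → o.P x = 0 ∧ o.Q x = 0 ∧ o.Sg D F σ x) : Cnt D F I 0 := by
  intro R H S hS
  obtain ⟨J1, J2, k⟩ := o.sign_loc H
  refine Nat.le_zero.2 (Finset.card_eq_zero.2 (Finset.eq_empty_of_forall_notMem fun r hr ↦ ?_))
  obtain ⟨h1, h2, h3⟩ := hS r hr
  obtain ⟨p, q, s⟩ := h _ h2 (H.lev h1)
  have := (k r h1).2.2 σ s
  simp [p, q, h3] at this

theorem sq_mem (hI : I.OrdConnected) {a b r : ℝ} (h0 : 0 < a) (ha : a ^ 2 ∈ I) (hb : b ^ 2 ∈ I)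
    (hr : r ∈ Icc a b) : r ^ 2 ∈ I :=
  hI.out ha hb ⟨pow_le_pow_left₀ h0.le hr.1 2, pow_le_pow_left₀ (h0.le.trans hr.1) hr.2 2⟩

/-- order one -/
theorem Gp.cnt1 (o : Gp) (σ : ℝ) (hI : I.OrdConnected)
    (h : ∀ x ∈ I, Lev D F x → o.P x = 0 ∧ 0 ≤ o.Q x ∧ o.Sg D F σ x) : Cnt D F I 1 := by
  intro R H S hS
  obtain ⟨J1, J2, k⟩ := o.sign_loc H
  have key : ∀ a ∈ S, ∀ b ∈ S, ¬a < b := fun a ha b hb hab ↦ by
    obtain ⟨a1, a2, za⟩ := hS a ha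
    obtain ⟨b1, b2, zb⟩ := hS b hb
    have m : ∀ r ∈ Icc a b, r ∈ Ioo 0 R := fun r hr ↦ ⟨a1.1.trans_le hr.1, hr.2.trans_lt b1.2⟩
    refine no_two (J := fun r ↦ σ * Jf D F (phi4 D F) r) hab
      (fun r hr ↦ (k r (m r hr)).1.const_mul σ) (fun r hr h1 ↦ ?_) (by simp [za]) (by simp [zb])
    obtain ⟨p, q, s⟩ := h _ (sq_mem hI a1.1 a2 b2 hr) (H.lev (m r hr))
    have p3 := (k r (m r hr)).2.2 σ s
    rw [p] at p3
    rw [← mul_div_assoc]
    refine div_pos (pos_of_mul_pos_right ?_ q) (m r hr).1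
    have h5 := congrArg (o.S (r ^ 2) * ·) h1
    beta_reduce at h5
    linarith
  exact Finset.card_le_one.2 fun a ha b hb ↦
    le_antisymm (not_lt.1 (key b hb a ha)) (not_lt.1 (key a ha b hb))

/-- order two -/
theorem Gp.cnt2 (o : Gp) (σ : ℝ) (B B' : ℝ → ℝ) (hI : I.OrdConnected)
    (h : ∀ x ∈ I, Lev D F x → HasDerivAt B (B' x) x ∧ 0 < o.P x ∧
      o.P x * (B x ^ 2 + 2 * x * B' x) + o.Q x * B x + o.S x ≤ 0 ∧ o.Sg D F σ x) :
    Cnt D F I 2 := by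
  intro R H S hS
  obtain ⟨J1, J2, k⟩ := o.sign_loc H
  have key : ∀ a ∈ S, ∀ b ∈ S, ∀ c ∈ S, a < b → b < c → False := fun a ha b hb c hc hab hbc ↦ by
    obtain ⟨a1, a2, za⟩ := hS a ha
    obtain ⟨c1, c2, zc⟩ := hS c hc
    have m : ∀ r ∈ Icc a c, r ∈ Ioo 0 R := fun r hr ↦ ⟨a1.1.trans_le hr.1, hr.2.trans_lt c1.2⟩
    have C' := fun r hr ↦ h _ (sq_mem hI a1.1 a2 c2 hr) (H.lev (m r hr))
    have dB : ∀ r ∈ Icc a c, HasDerivAt (fun r ↦ B (r ^ 2)) (B' (r ^ 2) * (2 * r)) r := fun r hr ↦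
      (HasDerivAt.comp (h₂ := B) (h := fun r ↦ r ^ 2) r (C' r hr).1
        (hasDerivAt_pow 2 r)).congr_deriv (by simp)
    refine no_three (J := fun r ↦ σ * Jf D F (phi4 D F) r)
      (K := fun r ↦ σ * (J1 r - B (r ^ 2) * Jf D F (phi4 D F) r)) (A := fun r ↦ 1 / r)
      (β := fun r ↦ -B (r ^ 2) / r) hab hbc (fun r hr ↦ (k r (m r hr)).1.const_mul σ)
      (fun r hr ↦ ((k r (m r hr)).2.1.sub ((dB r hr).mul (k r (m r hr)).1)).const_mul σ)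
      (fun r hr ↦ one_div_pos.2 (m r hr).1)
      (ContinuousOn.div (fun r hr ↦ (dB r hr).continuousAt.neg.continuousWithinAt) (by fun_prop)
        fun r hr ↦ (m r hr).1.ne') (fun r hr ↦ by ring) (fun r hr h1 h2 ↦ ?_)
      (by simp [za]) (by simp [(hS b hb).2.2]) (by simp [zc])
    obtain ⟨-, p1, p2, s⟩ := C' r hr
    have p3 := (k r (m r hr)).2.2 σ s
    have r0 := (m r hr).1
    refine (mul_pos_iff_of_pos_left (mul_pos r0 p1)).1 ?_
    have p4 := mul_nonneg h2 (neg_nonneg.2 p2)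
    have : r * o.P (r ^ 2) * (σ * (J2 r / r - (B' (r ^ 2) * (2 * r) * Jf D F (phi4 D F) r +
        B (r ^ 2) * (J1 r / r)))) = o.P (r ^ 2) * (σ * (J2 r - (B' (r ^ 2) * (2 * r ^ 2) *
        Jf D F (phi4 D F) r + B (r ^ 2) * J1 r))) := by field_simp
    rw [this]
    have h5 := congrArg ((o.Q (r ^ 2) + o.P (r ^ 2) * B (r ^ 2)) * ·) h1
    beta_reduce at h5
    linarith
  by_contra h
  obtain ⟨a, b, c, ha, hb, hc, h1, h2, h3⟩ := Finset.two_lt_card_iff.1 (not_le.1 h)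
  rcases h1.lt_or_gt with h1 | h1 <;> rcases h2.lt_or_gt with h2 | h2 <;>
    rcases h3.lt_or_gt with h3 | h3
  exacts [key a ha b hb c hc h1 h3, key a ha c hc b hb h2 h3, key a ha b hb c hc h1 h3,
    key c hc a ha b hb h2 h1, key b hb a ha c hc h1 h2, key b hb a ha c hc h1 h2,
    key b hb c hc a ha h3 h2, key c hc b hb a ha h3 h1]

/-- the condition is affine in the level: it is enough to test two values -/
theorem Gp.KN_affine (o : Gp) {f : ℝ → ℝ} {σ h h1 h2 a b : ℝ} (e : vR D F a = vR D F b)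
    (k1 : h1 ≤ h) (k2 : h ≤ h2) (p1 : σ * o.KN D F f h1 a < σ * o.KN D F f h1 b)
    (p2 : σ * o.KN D F f h2 a < σ * o.KN D F f h2 b) : σ * o.KN D F f h a < σ * o.KN D F f h b := by
  simp only [Gp.KN, e] at *
  rcases le_total 0 (σ * vR D F b * (th D F f b - th D F f a)) with k | k
  · nlinarith [mul_nonneg k (sub_nonneg.2 k1)]
  · nlinarith [mul_nonneg (neg_nonneg.2 k) (sub_nonneg.2 k2)]

end Pool.Agent.Lib.MP_d6150d_an
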