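import Pool.Agent.Lib.MP_d6150d_an.WKey
import Pool.Agent.Lib.MP_d6150d_an.Loc

/-! The strip `S1`, low levels: the identities behind the charts near the center. -/

namespace Pool.Agent.Lib.MP_d6150d_an

open Real Set Filter Topology Asymptotics

variable {D F N K κ t : ℝ}

/-- the kernel minus the separator -/
noncomputable def dS (D F κ t : ℝ) : ℝ := (oW κ).K D F t -
  (-2 * κ * ja2 D F * vR D F t ^ 2 + (12 * κ * ja4 D F - 6 * ja2 D F) * vR D F t ^ 3)

/-- the scaled derivative of the potential -/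
noncomputable def wS (D t : ℝ) : ℝ :=
  ph1 (t / 2) * (1 + exp (-(t / 2))) / 2 * (1 + D - D * exp (-(t / 2)) ^ 2)

/-- the scaled potential -/
noncomputable def yS (D F t : ℝ) : ℝ :=
  muR D F t * exp (-(F * t)) * exp (-(F * t)) * exp (t / 2) / 2

/-- the expression computed by the programs -/
noncomputable def gS (D F N K t : ℝ) : ℝ :=
  let V := N * (t ^ 2 * muR D F t)
  let p := pjR F ((1 + D) * exp (t / 2)) ((1 + 2 * D) * exp (-(t / 2))) (D * exp (-(t / 2)) ^ 3)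
  8 * (V - K) * (yS D F t ^ 3 * p.2.1) + 8 * (3 * V - K) * (yS D F t ^ 2 * p.1 * wS D t ^ 2) +
    2 * (3 * V + K) * (yS D F t * wS D t ^ 4) + wS D t ^ 5 * (t * (muR D F t * exp (-(F * t)))) *
      ((-2) * K * ja2 D F + (12 * K * ja4 D F - 6 * N * ja2 D F) * (t ^ 2 * muR D F t))

theorem dS_center : dS D F κ =O[𝓝 0] fun t ↦ t ^ 7 := by
  obtain ⟨a6, J⟩ := (oW κ).K_jet (D := D) (F := F)
  refine ((J.cast (b4 := -2 * κ * ja2 D F) (b6 := 12 * κ * ja4 D F - 6 * ja2 D F) rfl rfl rfl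
    (by simp [oW]) (by simp only [oW]; ring) (by simp only [oW]; ring)
    (by simp only [oW]; ring)).center7 (E := fun _ ↦ 0) continuousAt_const).congr_left fun t ↦ ?_
  simp only [dS]; ring

theorem oW_hom {l s P Q R Y W : ℝ} (ht : t ∈ JR D) (h0 : t ≠ 0) (hs : s ≠ 0)
    (hP : P = l * PR D t) (hQ : Q = l * QR D t) (hR : R = l * D) (hY : s ^ 2 * Y = l * yR D F t)
    (hW : s * W = l * wR D t) : W ^ 5 * (oW κ).K D F t = -(vR D F t * s * exp (F * t)) *
      (8 * (vR D F t - κ) * (Y ^ 3 * (pjR F P Q R).2.1) +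
        8 * (3 * vR D F t - κ) * (Y ^ 2 * (pjR F P Q R).1 * W ^ 2) +
        2 * (3 * vR D F t + κ) * (Y * W ^ 4)) := by
  have hw := wR_ne ht h0
  obtain rfl : Y = l * yR D F t / s ^ 2 := by rw [← hY]; field_simp
  obtain rfl : W = l * wR D t / s := by rw [← hW]; field_simp
  subst hP hQ hR
  rw [Gp.K_eq ht h0]
  simp only [Gp.P, Gp.C3, Gp.C2, Gp.C1, Gp.C0, oW, pjR_smul, U1, U2, U3]
  field_simp
  ring

theorem half_mul (t : ℝ) : exp (t / 2) * exp (-(t / 2)) = 1 := by rw [← exp_add]; simp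

theorem half_sq (t : ℝ) : exp t = exp (t / 2) ^ 2 := by rw [sq, ← exp_add, add_halves]

theorem wS_eq (D t : ℝ) : t * wS D t = exp (-(t / 2)) ^ 3 * wR D t := by
  have h1 := half_mul t
  have h2 := exp_eq_ph (t / 2)
  rw [wR_eq, om, wS, half_sq t]
  generalize exp (t / 2) = x, exp (-(t / 2)) = z, ph1 (t / 2) = p at *
  linear_combination -(1 + z) * (1 + D - D * z ^ 2) * h2 -
    ((x - 1) * (1 + D - D * z ^ 2) + (1 + D) * z * (x ^ 2 - 1) * (x * z + 1)) * h1

theorem wS_pos (ht : t ∈ JR D) : 0 < wS D t := by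
  have h1 := half_mul t
  have h2 : 0 < (1 + D) * exp t - D := ht
  have h3 := ph1_pos (t / 2)
  have h4 : 1 + D - D * exp (-(t / 2)) ^ 2 = ((1 + D) * exp t - D) * exp (-(t / 2)) ^ 2 := by
    rw [half_sq t]; linear_combination -(1 + D) * (exp (t / 2) * exp (-(t / 2)) + 1) * h1
  rw [wS, h4]; positivity

theorem gS_eq (hK : K = N * κ) (ht : t ∈ JR D) (h0 : t ≠ 0) :
    gS D F N K t * (t ^ 3 * (muR D F t * exp (F * t))) = -(N * wS D t ^ 5 * dS D F κ t) := by
  have h1 := half_mul t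
  have h2 : exp (F * t) * exp (-(F * t)) = 1 := by rw [← exp_add]; simp
  have h3 : exp ((2 - 2 * F) * t) = exp (t / 2) ^ 4 * exp (-(F * t)) ^ 2 := by
    rw [← exp_nat_mul, ← exp_nat_mul, ← exp_add]; congr 1; push_cast; ring
  have key := oW_hom (κ := κ) (F := F) (l := exp (-(t / 2)) ^ 3) (P := (1 + D) * exp (t / 2))
    (Q := (1 + 2 * D) * exp (-(t / 2))) (R := D * exp (-(t / 2)) ^ 3) (Y := yS D F t) ht h0 h0
    (by rw [PR, half_sq t]
        generalize exp (t / 2) = x, exp (-(t / 2)) = z at *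
        linear_combination -(1 + D) * x * ((x * z) ^ 2 + x * z + 1) * h1)
    (by rw [QR, half_sq t]
        generalize exp (t / 2) = x, exp (-(t / 2)) = z at *
        linear_combination -(1 + 2 * D) * z * (x * z + 1) * h1) (mul_comm _ _)
    (by rw [yR, yS, vR, h3]
        generalize exp (t / 2) = x, exp (-(t / 2)) = z at *
        linear_combination -(t ^ 2 * muR D F t * exp (-(F * t)) ^ 2 * x / 2) *
          ((x * z) ^ 2 + x * z + 1) * h1) (wS_eq D t)
  subst hK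
  simp only [gS, dS, vR] at key ⊢
  generalize pjR F _ _ _ = p at *
  linear_combination N * key + N * wS D t ^ 5 * t ^ 4 * muR D F t ^ 2 * (-2 * κ * ja2 D F +
    (12 * κ * ja4 D F - 6 * ja2 D F) * (t ^ 2 * muR D F t)) * h2

theorem gS_bigO (hN : N ≠ 0) : gS D F N K =O[𝓝[≠] 0] fun t ↦ t ^ 4 := by
  have h1 := (ph1_an 0).continuousAt
  have h2 := (muR_an D F 0).continuousAt
  have h3 : ContinuousAt (fun t : ℝ ↦ ph1 (t / 2)) 0 :=
    ContinuousAt.comp_of_eq (g := ph1) (f := fun t : ℝ ↦ t / 2) h1 (by fun_prop) (zero_div _)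
  have h4 : ContinuousAt (fun t ↦ -(N * wS D t ^ 5) / (muR D F t * exp (F * t))) 0 := by
    unfold wS
    exact ContinuousAt.div (by fun_prop) (by fun_prop) (by simp [muR_zero])
  refine ((((dS_center (D := D) (F := F) (κ := K / N)).mul (h4.isBigO_one ℝ)).mono
    nhdsWithin_le_nhds).mul (isBigO_refl (fun t : ℝ ↦ (t ^ 3)⁻¹) _)).congr' ?_ ?_
  · filter_upwards [self_mem_nhdsWithin,
      nhdsWithin_le_nhds ((JR_open _).mem_nhds (zero_mem_JR D))] with t h0 ht
    have h0 : t ≠ 0 := h0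
    have := gS_eq (F := F) (K := K) (κ := K / N) (mul_div_cancel₀ K hN).symm ht h0
    have := muR_pos (F := F) ht
    field_simp
    linarith
  · filter_upwards [self_mem_nhdsWithin] with t h0
    have h0 : t ≠ 0 := h0
    field_simp

theorem gS_right (hN : N ≠ 0) : gS D F N K =O[𝓝[>] 0] fun t ↦ t ^ 4 :=
  (gS_bigO hN).mono (nhdsWithin_mono _ fun _ h ↦ ne_of_gt h)

theorem gS_left (hN : N ≠ 0) : (fun u ↦ gS D F N K (-u)) =O[𝓝[>] 0] fun t ↦ t ^ 4 := by
  have T : Tendsto (fun u : ℝ ↦ -u) (𝓝[>] 0) (𝓝[≠] 0) := by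
    simpa using (tendsto_neg_nhdsGT (a := (0 : ℝ))).mono_right (nhdsLT_le_nhdsNE _)
  exact ((gS_bigO hN).comp_tendsto T).congr (fun u ↦ rfl) fun u ↦ by
    simp only [Function.comp]; ring

theorem gS_iso (hD : D = 0) (hF : F = 1) : gS D F N K t = 0 := by
  subst hD hF
  have h1 := half_mul t
  have h2 : exp (-(1 * t)) = exp (-(t / 2)) ^ 2 := by rw [half_sq]; congr 2; ring
  have h3 : muR 0 1 t = ph1 (t / 2) ^ 2 * (1 + exp (t / 2)) ^ 2 / 4 := by
    by_cases h0 : t = 0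
    · simp [h0, muR_zero, ph1_zero]; norm_num
    apply mul_left_cancel₀ (pow_ne_zero 2 h0)
    have e1 := exp_eq_ph (t / 2)
    have e2 := exp_eq_ph ((2 * 1 - 1) * t)
    have e3 := exp_eq_ph (2 * 1 * t)
    rw [show (2 * 1 * t) = (2 : ℕ) * t by push_cast; ring, exp_nat_mul, half_sq t] at e3
    rw [show (2 * 1 - 1) * t = t by ring, half_sq t] at e2
    rw [← vR, vR_eq, show (2 * 1 * t) = (2 : ℕ) * t by push_cast; ring,
      show (2 * 1 - 1) * t = t by ring]
    push_cast at *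
    generalize exp (t / 2) = x, ph1 (t / 2) = p at *
    linear_combination 2 * e2 - e3 + (1 + x) ^ 2 * (x - 1 + t / 2 * p) * e1
  have h4 : yS 0 1 t = wS 0 t ^ 2 * exp (-(t / 2)) / 2 := by
    rw [yS, wS, h2, h3]
    generalize exp (t / 2) = x, exp (-(t / 2)) = z, ph1 (t / 2) = p at *
    linear_combination p ^ 2 * z / 8 * ((1 + x) ^ 2 * z ^ 2 + x * z + 1 + 2 * z) * h1
  simp only [gS, h4, pjR, ja2, ja4]
  generalize exp (t / 2) = x, exp (-(t / 2)) = z, wS 0 t = W, N * (t ^ 2 * muR 0 1 t) = V at *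
  linear_combination W ^ 6 * z * (3 * (V - K) * (x * z + 1) - 2 * (3 * V - K)) * h1

theorem dS_sign (hK : K = N * κ) (hN : 0 < N) (ht : t ∈ JR D) (h0 : t ≠ 0)
    (h : 0 < gS D F N K t) : t * dS D F κ t < 0 := by
  have h1 := gS_eq (F := F) hK ht h0
  have h2 := mul_pos hN (pow_pos (wS_pos ht) 5)
  have h3 : 0 < gS D F N K t * (t ^ 4 * (muR D F t * exp (F * t))) := by
    have := muR_pos (F := F) ht
    positivity
  refine neg_of_mul_neg_right (a := N * wS D t ^ 5) ?_ h2.le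
  linear_combination h3 + t * h1

end Pool.Agent.Lib.MP_d6150d_an
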