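import Pool.Agent.Lib.MP_d6150d_an.S2a

/-! Three criteria for the monotonicity of the period at one level. -/

namespace Pool.Agent.Lib.MP_d6150d_an

open Real Set Filter Topology

variable {D F R : ℝ}

theorem conc {N p M M' : ℝ → ℝ} {a b t : ℝ} (Na : N a = 0) (Nb : N b = 0)
    (dN : ∀ t, HasDerivAt N (p t * M t) t) (hp : ∀ t, 0 < p t) (dM : ∀ t, HasDerivAt M (M' t) t)
    (h : ∀ t ∈ Ioo a b, M' t < 0) (ht : t ∈ Ioo a b) : 0 < N t := by
  by_contra k
  push Not at k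
  have cN : Continuous N := continuous_iff_continuousAt.2 fun t ↦ (dN t).continuousAt
  have cM : Continuous M := continuous_iff_continuousAt.2 fun t ↦ (dM t).continuousAt
  obtain ⟨x, hx, e1⟩ := exists_hasDerivAt_eq_slope N _ ht.1 cN.continuousOn fun x _ ↦ dN x
  obtain ⟨y, hy, e2⟩ := exists_hasDerivAt_eq_slope N _ ht.2 cN.continuousOn fun x _ ↦ dN x
  obtain ⟨z, hz, e3⟩ := exists_hasDerivAt_eq_slope M _ (hx.2.trans hy.1) cM.continuousOn
    fun x _ ↦ dM x
  have h1 : M x ≤ 0 := nonpos_of_mul_nonpos_right (by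
    rw [e1]; exact div_nonpos_of_nonpos_of_nonneg (by linarith) (by linarith [ht.1])) (hp x)
  have h2 : 0 ≤ M y := nonneg_of_mul_nonneg_right (by
    rw [e2]; exact div_nonneg (by linarith) (by linarith [ht.2])) (hp y)
  have h3 := h z ⟨hx.1.trans hz.1, hz.2.trans hy.2⟩
  rw [e3] at h3
  exact h3.not_ge (div_nonneg (by linarith) (by linarith [hx.2, hy.1]))

theorem conc2 {N p M q W : ℝ → ℝ} {a b t : ℝ} (Na : 0 ≤ N a) (Nb : N b = 0) (Mb : M b ≤ 0)
    (dN : ∀ t, HasDerivAt N (p t * M t) t) (hp : ∀ t, 0 < p t)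
    (dM : ∀ t, HasDerivAt M (q t * W t) t) (hq : ∀ t ∈ Icc a b, 0 ≤ q t) (hW : Monotone W)
    (ht : t ∈ Ioo a b) : 0 ≤ N t := by
  by_contra k
  push Not at k
  have cN : Continuous N := continuous_iff_continuousAt.2 fun t ↦ (dN t).continuousAt
  have cM : Continuous M := continuous_iff_continuousAt.2 fun t ↦ (dM t).continuousAt
  obtain ⟨x, hx, e1⟩ := exists_hasDerivAt_eq_slope N _ ht.1 cN.continuousOn fun x _ ↦ dN x
  obtain ⟨y, hy, e2⟩ := exists_hasDerivAt_eq_slope N _ ht.2 cN.continuousOn fun x _ ↦ dN x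
  obtain ⟨z, hz, e3⟩ := exists_hasDerivAt_eq_slope M _ (hx.2.trans hy.1) cM.continuousOn
    fun x _ ↦ dM x
  obtain ⟨w, hw, e4⟩ := exists_hasDerivAt_eq_slope M _ hy.2 cM.continuousOn fun x _ ↦ dM x
  have h1 : M x < 0 := neg_of_mul_neg_right (by
    rw [e1]; exact div_neg_of_neg_of_pos (by linarith) (by linarith [ht.1])) (hp x).le
  have h2 : 0 < M y := pos_of_mul_pos_right (by
    rw [e2]; exact div_pos (by linarith) (by linarith [ht.2])) (hp y).le
  have h3 : 0 < W z := pos_of_mul_pos_right (by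
    rw [e3]; exact div_pos (by linarith) (by linarith [hx.2, hy.1]))
    (hq z ⟨by linarith [hx.1, hz.1], by linarith [hz.2, hy.2]⟩)
  have h4 := mul_nonneg (hq w ⟨by linarith [ht.1, hy.1, hw.1], hw.2.le⟩)
    (h3.le.trans (hW (by linarith [hz.2, hw.1] : z ≤ w)))
  rw [e4] at h4
  exact h4.not_gt (div_neg_of_neg_of_pos (by linarith) (by linarith [hy.2]))

theorem F_uR (t : ℝ) : F * uR F t = exp (F * t) - 1 := by rw [uR, exp_eq_ph]; ring

theorem uR_nonneg {t : ℝ} (h : 0 ≤ t) : 0 ≤ uR F t := mul_nonneg h (ph1_pos _).le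

theorem sφ_pos {t : ℝ} (ht : t ∈ JR D) (h : 0 < t) : 0 < sφ D F t := by
  have := WR_pos (F := F) ht h
  rw [WR_eq] at this
  exact pos_of_mul_pos_right this (by positivity)

/-- an affine function of `uR` on the right branch, `phi4` on the left branch -/
theorem far_pos (H : Rng D F R) {r C γ b : ℝ} (hr : r ∈ Ioo 0 R) (F0 : 0 < F) (hB : 0 ≤ D * (F - 2))
    (hb : b ∈ JR D) (b0 : 0 < b) (hv : vR D F b = r ^ 2) (C0 : 0 ≤ C)
    (hL : ∀ t ∈ JR D, t < 0 → -(4 * C) ≤ gR D F t * (F * phi4 D F t - 1))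
    (g1 : 1 ≤ 2 * r ^ 2 * γ) (g2 : sv2 D F (exp (-b)) ≤ 2 * sφ D F b ^ 2 * γ)
    (hE : π * C < (F * r ^ 2 * (1 / (2 * sφ D F b) - γ * uR F b) - 1 / 2) * r) :
    0 < Jf D F (phi4 D F) r := by
  have p0 := sφ_pos (F := F) hb b0
  have r0 := hr.1
  have r2 : 0 < r ^ 2 := by positivity
  obtain ⟨δ, hδ⟩ : ∃ δ, δ = 1 / (2 * sφ D F b) - γ * uR F b := ⟨_, rfl⟩
  rw [← hδ] at hE
  have E0 : 0 < F * r ^ 2 * δ - 1 / 2 :=
    pos_of_mul_pos_left ((mul_nonneg pi_pos.le C0).trans_lt hE) r0.le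
  have δ0 : 0 ≤ δ := nonneg_of_mul_nonneg_right (by linarith) (mul_pos F0 r2)
  have γ0 : 0 ≤ γ := nonneg_of_mul_nonneg_right (by linarith) (mul_pos two_pos r2)
  have dχ : ∀ t, HasDerivAt (fun t ↦ γ * uR F t + δ) (γ * exp (F * t)) t := fun t ↦
    ((hasDerivAt_uR t).const_mul γ).add_const δ
  have eb : (γ * uR F b + δ) * sφ D F b = 1 / 2 := by rw [hδ]; field_simp; ring
  obtain ⟨f, f0, af, hf⟩ := divi (D := D) (F := F) (χ := fun t ↦ γ * uR F t + δ)
    (fun t ↦ (analyticAt_const.mul (uR_an F t)).add analyticAt_const) dχ hb b0.ne'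
    (by rw [WR_eq]; linear_combination 2 * exp (F * b) * eb)
  rw [hv] at hf
  have u0 : uR F 0 = 0 := by simp [uR]
  have key : ∀ t ∈ Ioo 0 b,
      0 ≤ γ * (r ^ 2 - vR D F t) + (γ * uR F t + δ) * sφ D F t - 1 / 2 := fun t ht ↦
    conc2 (N := fun t ↦ γ * (r ^ 2 - vR D F t) + (γ * uR F t + δ) * sφ D F t - 1 / 2)
      (p := fun t ↦ exp (F * t))
      (M := fun t ↦ (γ * uR F t + δ) * sv2 D F (exp (-t)) - γ * sφ D F t)
      (q := fun t ↦ (γ * uR F t + δ) * exp (-t)) (W := fun t ↦ svW D F (exp (-t)))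
      (by simp only [vR, sφ, sv1, neg_zero, exp_zero]; nlinarith) (by simp only [hv]; linarith)
      (nonpos_of_mul_nonpos_right (a := sφ D F b) (by
        have := congrArg (· * sv2 D F (exp (-b))) eb
        beta_reduce at this
        linarith) p0)
      (fun t ↦ (((((hasDerivAt_vR D F t).const_sub _).const_mul γ).add
        ((dχ t).mul (dφ t))).sub_const _).congr_deriv (by rw [WR_eq]; ring))
      (fun _ ↦ exp_pos _)
      (fun t ↦ (((dχ t).mul (ds2 t)).sub ((dφ t).const_mul γ)).congr_deriv (by ring))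
      (fun t ht ↦ mul_nonneg (add_nonneg (mul_nonneg γ0 (uR_nonneg ht.1)) δ0) (exp_pos _).le)
      (fun x y h ↦ by
        have := mul_le_mul_of_nonneg_left (exp_le_exp.2 (neg_le_neg h)) hB
        simp only [svW]; linarith) ht
  have Fr : 0 < F * r ^ 2 := mul_pos F0 r2
  refine base H hr (c := r * (2 * δ - 1 / (F * r ^ 2)) / (π / 2))
    (f1 := fun t ↦ (uR F t - th D F (uR F) t) / r ^ 2 + 1 / (F * r ^ 2)) (f2 := f)
    (fun t ht _ ↦ (((uR_an F t).sub (AnJ.u.th t ht)).div analyticAt_const r2.ne').add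
      analyticAt_const) (fun t ht k ↦ af t ht (mul_nonneg k b0.le))
    (fun a ha t ht a0 t0 e k ↦ ?_) (le_of_eq ?_)
  · obtain ⟨κ, κ0, eκ⟩ := hf t ht k
    have tb : t < b := by
      by_contra l
      rcases (not_lt.1 l).eq_or_lt with l | l
      · rw [← l, hv] at k; exact k.false
      · exact (vR_mono ht b0.le l).not_gt (hv ▸ k)
    have h1 : 0 ≤ IN D F f (r ^ 2) t := by
      rw [eκ, WR_eq]
      refine mul_nonneg κ0.le ?_
      have := mul_nonneg (exp_pos (F * t)).le (key t ⟨t0, tb⟩)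
      linarith
    have h2 : IN D F (fun t ↦ (uR F t - th D F (uR F) t) / r ^ 2 + 1 / (F * r ^ 2)) (r ^ 2) a =
        gR D F a * (F * phi4 D F a - 1) / (F * r ^ 2) := by
      rw [IN_phi4 r2.ne' ha]; field_simp
    have h3 : r * (2 * δ - 1 / (F * r ^ 2)) / (π / 2) =
        4 * ((F * r ^ 2 * δ - 1 / 2) * r / π) / (F * r ^ 2) := by field_simp; ring
    have h4 : C < (F * r ^ 2 * δ - 1 / 2) * r / π := by rw [lt_div_iff₀ pi_pos]; linarith
    have h5 : 0 < (gR D F a * (F * phi4 D F a - 1) + 4 * ((F * r ^ 2 * δ - 1 / 2) * r / π)) /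
        (F * r ^ 2) := div_pos (by linarith [hL a ha a0]) Fr
    rw [h2, h3]
    rw [add_div] at h5
    linarith
  · rw [f0, u0, div_mul_cancel₀ _ (by positivity)]
    simp [th, gR]

theorem ph1_mul {a : ℝ} (t : ℝ) : a * (t * ph1 (a * t)) = exp (a * t) - 1 := by
  rw [exp_eq_ph]; ring

/-- the explicit form of the potential -/
theorem vR_expl {a β c : ℝ} (ha : F * a = 1 + D) (hβ : (1 - 2 * F) * β = -2 * (1 + 2 * D)) (hc : (1 - F) * c = -D) (t : ℝ) :
    vR D F t = (β - a - c) + exp ((2 * F - 2) * t) * (a * exp t ^ 2 - β * exp t + c) := by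
  have e0 := ph1_mul (a := 2 * F) t
  have e1 := ph1_mul (a := 2 * F - 1) t
  have e2 := ph1_mul (a := 2 * F - 2) t
  rw [exp_a1] at e0
  rw [exp_a2] at e1
  rw [vR_eq]
  linear_combination a * e0 - β * e1 + c * e2 - 2 * (t * ph1 (2 * F * t)) * ha -
    (t * ph1 ((2 * F - 1) * t)) * hβ + 2 * (t * ph1 ((2 * F - 2) * t)) * hc

/-- an affine function of `exp t` on both branches -/
theorem aff_pos (H : Rng D F R) {r a β c : ℝ} (hr : r ∈ Ioo 0 R) (F0 : 0 < F) (F1 : F < 1 / 2)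
    (ha : F * a = 1 + D) (hβ : (1 - 2 * F) * β = -2 * (1 + 2 * D)) (hc : (1 - F) * c = -D)
    (h1 : β - a - c ≤ r ^ 2) (h2 : 2 * c ≤ β * exp (XR D F r)) : 0 < Jf D F (phi4 D F) r := by
  obtain ⟨m1, m2, m3, m4, m5, -, -, m6⟩ := H.pair hr.1 hr.2
  generalize XR D F (-r) = x at *
  generalize XR D F r = y at *
  have hV := vR_expl ha hβ hc
  obtain ⟨K, hK⟩ : ∃ K, K = r ^ 2 - (β - a - c) := ⟨_, rfl⟩
  have K0 : 0 ≤ K := by linarith
  have w1 := WR_neg (F := F) m1 m3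
  have w2 := WR_pos (F := F) m2 m4
  have s12 : 0 < exp y - exp x := sub_pos.2 (exp_lt_exp.2 (m3.trans m4))
  obtain ⟨γ, hγ⟩ : ∃ γ, γ = (exp y / WR D F y - exp x / WR D F x) / (exp y - exp x) := ⟨_, rfl⟩
  obtain ⟨α, hα⟩ : ∃ α, α = exp x / WR D F x - γ * exp x := ⟨_, rfl⟩
  have e1 : (α + γ * exp x) * WR D F x = exp x := by rw [hα]; field_simp [w1.ne]; ring
  have e2 : (α + γ * exp y) * WR D F y = exp y := by
    have : α + γ * exp y = exp y / WR D F y := by
      rw [eq_div_iff s12.ne'] at hγ; linear_combination hα + hγ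
    rw [this]; field_simp
  have de : ∀ k t : ℝ, HasDerivAt (fun t ↦ exp (k * t)) (k * exp (k * t)) t := fun k t ↦ dey t
  have y1 : ∀ t, exp (F * t) = exp ((F - 1) * t) * exp t := fun t ↦ by rw [← exp_add]; ring_nf
  have y2 : ∀ t, exp ((2 * F - 2) * t) = exp ((F - 1) * t) ^ 2 := fun t ↦ by
    rw [sq, ← exp_add]; ring_nf
  have y3 : ∀ t, exp ((2 - 2 * F) * t) * exp ((F - 1) * t) ^ 2 = 1 := fun t ↦ by
    rw [sq, ← exp_add, ← exp_add]; ring_nf; simp
  have y4 : ∀ t, exp ((2 - 2 * F) * t) = exp t * exp ((1 - 2 * F) * t) := fun t ↦ by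
    rw [← exp_add]; ring_nf
  have y5 : ∀ t, exp ((1 - 2 * F) * t) = exp t * exp ((-2 * F) * t) := fun t ↦ by
    rw [← exp_add]; ring_nf
  have aχ : ∀ t, AnalyticAt ℝ (fun t ↦ α * exp ((F - 1) * t) + γ * exp (F * t)) t := fun t ↦ by
    fun_prop
  have dχ := fun t ↦ ((de (F - 1) t).const_mul α).add ((de F t).const_mul γ)
  -- the function `N`
  have eN : ∀ t, (α * ((F - 1) * exp ((F - 1) * t)) + γ * (F * exp (F * t))) * (r ^ 2 - vR D F t) +
      ((α * exp ((F - 1) * t) + γ * exp (F * t)) * WR D F t - exp (F * t)) / 2 =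
      exp ((F - 1) * t) ^ 3 * exp t * ((γ * F * K - 1 / 2) * exp ((2 - 2 * F) * t) +
        α * (F - 1) * K * exp ((1 - 2 * F) * t) + (α * a + γ * β / 2) * exp t -
        (α * β / 2 + γ * c)) := fun t ↦ by
    have k3 := y3 t
    have k4 := y4 t
    rw [hV t, WR, om, y1, y2, hK]
    generalize exp ((F - 1) * t) = Y at *
    generalize exp t = s at *
    generalize exp ((2 - 2 * F) * t) = P at *
    generalize exp ((1 - 2 * F) * t) = Q at *
    linear_combination (-Y * s * (γ * F * (r ^ 2 - (β - a - c)) - 1 / 2) -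
      Y * α * (F - 1) * (r ^ 2 - (β - a - c))) * k3 +
      Y ^ 3 * α * (F - 1) * (r ^ 2 - (β - a - c)) * k4 -
      Y ^ 3 * (α + γ * s) * (s ^ 2 * ha + s / 2 * hβ - hc)
  have z : ∀ t, vR D F t = r ^ 2 → (α + γ * exp t) * WR D F t = exp t →
      (α * exp ((F - 1) * t) + γ * exp (F * t)) * WR D F t = exp (F * t) ∧
      (γ * F * K - 1 / 2) * exp ((2 - 2 * F) * t) + α * (F - 1) * K * exp ((1 - 2 * F) * t) +
        (α * a + γ * β / 2) * exp t - (α * β / 2 + γ * c) = 0 := fun t k1 k2 ↦ by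
    have k3 : (α * exp ((F - 1) * t) + γ * exp (F * t)) * WR D F t = exp (F * t) := by
      rw [y1]; linear_combination exp ((F - 1) * t) * k2
    have := eN t
    rw [k1, k3, sub_self, sub_self, mul_zero, zero_div, add_zero] at this
    exact ⟨k3, (mul_eq_zero.1 this.symm).resolve_left (by positivity)⟩
  obtain ⟨z1, z2⟩ := z x (m5.trans m6) e1
  obtain ⟨z3, z4⟩ := z y m6 e2
  have l1 : F * K * (α + γ * exp x) - exp x / 2 < 0 := by
    have : α + γ * exp x < 0 := neg_of_mul_pos_left ((exp_pos x).trans_eq e1.symm) w1.le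
    have := mul_nonneg (mul_nonneg F0.le K0) (neg_nonneg.2 this.le)
    linarith [exp_pos x]
  have l2 : F * K * (α + γ * exp y) - exp y / 2 ≤ 0 := by
    have p : 0 < α + γ * exp y := pos_of_mul_pos_left ((exp_pos y).trans_eq e2.symm) w2.le
    have q : WR D F y - 2 * F * K = exp ((2 * F - 2) * y) * (β * exp y - 2 * c) := by
      rw [hK, ← m6, hV y, WR, om]
      linear_combination -exp ((2 * F - 2) * y) * (2 * exp y ^ 2 * ha + exp y * hβ - 2 * hc)
    have := mul_nonneg p.le (q ▸ mul_nonneg (exp_pos ((2 * F - 2) * y)).le (sub_nonneg.2 h2))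
    linarith
  have key : ∀ t ∈ Ioo x y, 0 < (γ * F * K - 1 / 2) * exp ((2 - 2 * F) * t) +
      α * (F - 1) * K * exp ((1 - 2 * F) * t) + (α * a + γ * β / 2) * exp t -
      (α * β / 2 + γ * c) := fun t ht ↦
    conc (N := fun t ↦ (γ * F * K - 1 / 2) * exp ((2 - 2 * F) * t) +
      α * (F - 1) * K * exp ((1 - 2 * F) * t) + (α * a + γ * β / 2) * exp t - (α * β / 2 + γ * c))
      (p := exp) (M := fun t ↦ (γ * F * K - 1 / 2) * (2 - 2 * F) * exp ((1 - 2 * F) * t) +
        α * (F - 1) * K * (1 - 2 * F) * exp ((-2 * F) * t) + (α * a + γ * β / 2)) z2 z4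
      (fun t ↦ (((((de _ t).const_mul _).add ((de _ t).const_mul _)).add
        ((hasDerivAt_exp t).const_mul _)).sub_const _).congr_deriv (by rw [y4, y5]; ring))
      exp_pos (fun t ↦ (((de _ t).const_mul _).add ((de _ t).const_mul _)).add_const _)
      (fun t ht ↦ by
        have a1 := sub_pos.2 (exp_lt_exp.2 ht.1)
        have a2 := sub_pos.2 (exp_lt_exp.2 ht.2)
        have a3 : F * K * (α + γ * exp t) - exp t / 2 < 0 :=
          neg_of_mul_neg_right (a := exp y - exp x) (by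
            have b1 := mul_pos a2 (neg_pos.2 l1)
            have b2 := mul_nonneg a1.le (neg_nonneg.2 l2)
            linarith) s12.le
        have a4 := mul_pos (mul_pos (show 0 < (1 - 2 * F) * (2 - 2 * F) by nlinarith)
          (exp_pos ((-2 * F) * t))) (neg_pos.2 a3)
        rw [y5]; linarith) ht
  obtain ⟨f1, f10, af1, hf1⟩ := divi (D := D) (F := F) aχ dχ m1 m3.ne z1
  obtain ⟨f2, f20, af2, hf2⟩ := divi (D := D) (F := F) aχ dχ m2 m4.ne' z3
  rw [m5] at hf1
  rw [m6] at hf1 hf2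
  refine base H hr (c := 0) (f1 := f1) (f2 := f2)
    (fun t ht k ↦ af1 t ht (mul_nonneg_of_nonpos_of_nonpos k m3.le))
    (fun t ht k ↦ af2 t ht (mul_nonneg k m4.le)) (fun s hs t ht s0 t0 e k ↦ ?_)
    (by rw [f10, f20]; simp)
  obtain ⟨κ1, κ10, e1⟩ := hf1 s hs (e ▸ k)
  obtain ⟨κ2, κ20, e2⟩ := hf2 t ht k
  have xs : x < s := by
    by_contra l
    rcases (not_lt.1 l).eq_or_lt with l | l
    · rw [← e, l, m5, m6] at k; exact k.false
    · exact (vR_anti hs m3.le l).not_gt (by rw [m5, m6, e]; exact k)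
  have ty : t < y := by
    by_contra l
    rcases (not_lt.1 l).eq_or_lt with l | l
    · rw [← l, m6] at k; exact k.false
    · exact (vR_mono ht m4.le l).not_gt (m6 ▸ k)
  rw [e1, e2, eN, eN]
  have := key s ⟨xs, s0.trans m4⟩
  have := key t ⟨m3.trans t0, ty⟩
  positivity

end Pool.Agent.Lib.MP_d6150d_an
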