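import Pool.Agent.Lib.MP_d6150d_an.GDef

/-! A generated chart: the program. -/

namespace Pool.Agent.Lib.MP_d6150d_an.B2L

def prog6 : List Ins := .cpy 0 :: []

def prog5 : List Ins := .int 802 :: .add true 1 0 :: .mul 0 259 :: .int 20 :: .add false 1 0 :: .add
    true 12 0 :: .mul 0 245 :: .smul (-13171) 264 :: .int 26927 :: .add true 1 0 :: .mul 0 267 ::
    .int (-17893) :: .add true 1 0 :: .mul 0 270 :: .int 4441 :: .add true 1 0 :: .mul 0 273 :: .int
    (-296) :: .add true 1 0 :: .mul 0 276 :: .int (-8) :: .add false 1 0 :: .add true 15 0 :: .mul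
    55 0 :: .mul 57 0 :: .cst 189 25 :: .mul 0 72 :: .add false 2 0 :: .smul 27 210 :: .cst 9 70 ::
    .add false 1 0 :: .mul 0 69 :: .add false 4 0 :: .smul 12 0 :: .cst (-29) 500 :: .cst (-9) 10 ::
    .mul 0 275 :: .add false 2 0 :: .cst 1 80 :: .add true 0 213 :: .mul 0 234 :: .add true 3 0 ::
    .mul 76 0 :: .add true 9 0 :: .mul 78 0 :: .add true 80 0 :: .mul 118 0 :: .add false 121 0 ::
    .mul 128 0 :: .sub false 131 0 :: prog6

def prog4 : List Ins := .mul 0 207 :: .add false 0 113 :: .add true 8 0 :: .mul 23 0 :: .mul 25 0 ::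
    .cst 49 50 :: .cst 1 6 :: .smul (-2) 196 :: .smul (-1) 215 :: .add false 0 206 :: .add true 2 0
    :: .mul 4 0 :: .mul 6 0 :: .sub true 8 0 :: .mul 0 41 :: .sub true 212 159 :: .smul 72 166 ::
    .cst 1 136080 :: .smul (-62720) 207 :: .smul (-156800) 226 :: .int (-44800) :: .add false 1 0 ::
    .add false 3 0 :: .mul 0 212 :: .smul (-180320) 231 :: .int (-49280) :: .add false 1 0 :: .mul 0
    234 :: .int (-4760) :: .add false 1 0 :: .add true 6 0 :: .mul 0 220 :: .smul (-123760) 239 ::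
    .int 10416 :: .add true 1 0 :: .mul 0 242 :: .int (-1596) :: .add false 1 0 :: .mul 0 245 ::
    .int 28 :: .add false 1 0 :: .add true 9 0 :: .mul 0 231 :: .smul (-53854) 250 :: .int 45478 ::
    .add true 1 0 :: .mul 0 253 :: .int (-11886) :: .add true 1 0 :: .mul 0 256 :: prog5

def prog3 : List Ins := .add true 10 0 :: .mul 104 0 :: .smul (-14) 89 :: .smul 28 83 :: .add false
    1 0 :: .smul 10 22 :: .add true 1 0 :: .mul 8 20 :: .mul 1 0 :: .add true 7 0 :: .mul 113 0 ::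
    .smul 8 103 :: .mul 0 135 :: .rsq 139 :: .mul 140 0 :: .mul 2 0 :: .add true 5 0 :: .mul 174 0
    :: .mul 171 107 :: .mul 0 109 :: .add false 102 38 :: .mul 144 115 :: .sub true 158 116 :: .mul
    1 0 :: .sub true 171 0 :: .mul 4 0 :: .mul 183 149 :: .mul 0 121 :: .smul (-8) 128 :: .cst 1
    1080 :: .smul (-320) 169 :: .smul (-480) 188 :: .int (-60) :: .add false 1 0 :: .add true 3 0 ::
    .mul 0 174 :: .smul (-312) 193 :: .int 102 :: .add true 1 0 :: .mul 0 196 :: .int (-6) :: .add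
    false 1 0 :: .add true 6 0 :: .mul 0 182 :: .smul (-103) 201 :: .int 156 :: .add true 1 0 ::
    .mul 0 204 :: .int (-57) :: .add true 1 0 :: prog4

def prog2 : List Ins := .add false 4 0 :: .mul 17 0 :: .mul 8 7 :: .smul 3 0 :: .sub true 2 0 ::
    .mul 18 0 :: .smul 3 6 :: .sub true 6 0 :: .mul 14 0 :: .mul 19 9 :: .mul 19 11 :: .smul 8 36 ::
    .sub false 0 33 :: .sub false 2 0 :: .add true 4 0 :: .mul 31 0 :: .add false 7 0 :: .mul 18 22
    :: .smul 3 0 :: .sub false 2 0 :: .add true 14 0 :: .mul 37 0 :: .mul 28 17 :: .smul 5 0 :: .sub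
    true 2 0 :: .mul 52 0 :: .smul 16 68 :: .smul 104 64 :: .add false 1 0 :: .smul 112 59 :: .add
    false 1 0 :: .cst 1 70 :: .mul 0 63 :: .smul 8 0 :: .add false 3 0 :: .mul 0 30 :: .mul 133 133
    :: .mul 1 0 :: .add true 12 0 :: .mul 92 0 :: .smul (-4) 82 :: .smul 68 78 :: .add false 1 0 ::
    .smul 160 73 :: .add false 1 0 :: .smul 28 12 :: .add true 1 0 :: .mul 0 52 :: .mul 11 11 ::
    .mul 1 0 :: prog3

def prog1 : List Ins := .cst 1 12 :: .mul 54 54 :: .mul 0 28 :: .mul 2 0 :: .add false 51 0 :: .inv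
    0 :: .mul 0 0 :: .mul 7 0 :: .cst 7 100 :: .mul 35 3 :: .mul 8 0 :: .mul 5 0 :: .mul 3 0 :: .add
    false 5 0 :: .cst 1 4000 :: .cst 9 200 :: .mul 0 55 :: .sub false 2 0 :: .mul 7 7 :: .mul 1 0 ::
    .add false 6 0 :: .smul 16 0 :: .mul 0 25 :: .mul 32 42 :: .mul 0 28 :: .smul 2 64 :: .add true
    73 0 :: .mul 0 40 :: .mul 0 32 :: .sub false 4 0 :: .mul 38 43 :: .mul 70 0 :: .mul 0 36 :: .add
    true 3 0 :: .int 6 :: .smul 5 92 :: .sub true 1 0 :: .int 4 :: .smul 3 95 :: .sub true 1 0 ::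
    .sub true 76 97 :: .mul 0 7 :: .smul 2 17 :: .sub true 0 14 :: .sub true 2 0 :: .mul 5 0 :: .mul
    5 2 :: .smul 4 22 :: .sub true 0 19 :: .sub true 2 0 :: prog2

def prog : List Ins := .var 1 :: .cst 1 2 :: .smul 2 1 :: .var 2 :: .smul (-1) 0 :: .mul 2 0 :: .tri
    0 :: .mul 6 0 :: .int 1 :: .sub true 8 0 :: .mul 0 7 :: .tri 0 :: .mul 4 0 :: .sub false 7 0 ::
    .var 0 :: .smul 2 2 :: .sub false 10 0 :: .int 2 :: .sub true 19 0 :: .mul 0 18 :: .tri 0 ::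
    .mul 4 0 :: .add true 7 0 :: .mul 10 0 :: .add false 12 0 :: .smul 2 0 :: .mul 31 27 :: .smul
    (-1) 0 :: .exp 0 :: .mul 3 0 :: .mul 0 1 :: .mul 35 32 :: .tri 0 :: .mul 4 2 :: .mul 40 0 ::
    .smul (-1) 5 :: .exp 0 :: .add false 34 0 :: .mul 6 0 :: .mul 45 0 :: .add false 37 29 :: .mul 4
    4 :: .mul 31 0 :: .sub false 2 0 :: .mul 4 0 :: .inv 0 :: .mul 11 0 :: .cst 31 20 :: .smul 10 37
    :: .add true 1 0 :: prog1

def vs : List Vr := [⟨4, 0, false, false⟩, ⟨3, 0, false, false⟩, ⟨10, 6, false, false⟩]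

def C : Chart := ⟨vs, prog, [], 1, 3⟩

end Pool.Agent.Lib.MP_d6150d_an.B2L
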