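import Pool.Agent.Lib.MP_d6150d_an.GDef

/-! A generated chart: the program. -/

namespace Pool.Agent.Lib.MP_d6150d_an.B2M

def prog6 : List Ins := .cpy 0 :: []

def prog5 : List Ins := .mul 28 17 :: .smul 5 0 :: .sub true 2 0 :: .mul 47 0 :: .smul 16 56 ::
    .smul 104 54 :: .add false 1 0 :: .smul 112 54 :: .add false 1 0 :: .mul 210 215 :: .smul 8 0 ::
    .add false 2 0 :: .mul 0 29 :: .mul 262 262 :: .mul 1 0 :: .add true 11 0 :: .mul 70 0 :: .smul
    (-4) 69 :: .smul 68 67 :: .add false 1 0 :: .smul 160 67 :: .add false 1 0 :: .smul 28 12 ::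
    .add false 1 0 :: .mul 0 51 :: .mul 11 11 :: .mul 1 0 :: .add true 10 0 :: .mul 82 0 :: .smul
    (-14) 78 :: .smul 28 77 :: .add false 1 0 :: .smul 10 22 :: .add true 1 0 :: .mul 8 20 :: .mul 1
    0 :: .add true 7 0 :: .mul 91 0 :: .mul 284 0 :: .sub false 103 0 :: .smul 8 226 :: .mul 0 287
    :: .mul 0 238 :: .smul 12 274 :: .mul 0 252 :: .rsq 257 :: .mul 258 0 :: .mul 2 0 :: .mul 5 0 ::
    .add false 9 0 :: prog6

def prog4 : List Ins := .mul 1 0 :: .add false 3 0 :: .mul 154 158 :: .add false 1 0 :: .smul 16 0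
    :: .mul 0 9 :: .mul 203 189 :: .mul 0 12 :: .mul 184 192 :: .mul 0 14 :: .sub false 2 0 :: .mul
    209 16 :: .add false 1 0 :: .int 6 :: .smul 5 210 :: .sub true 1 0 :: .smul 3 212 :: .sub true
    129 0 :: .sub true 163 214 :: .mul 0 6 :: .smul 2 12 :: .sub false 0 11 :: .sub true 2 0 :: .mul
    5 0 :: .mul 5 2 :: .smul 4 17 :: .sub true 0 16 :: .sub true 2 0 :: .add false 4 0 :: .mul 16 0
    :: .mul 8 7 :: .smul 3 0 :: .sub true 2 0 :: .mul 17 0 :: .smul 3 6 :: .sub true 6 0 :: .mul 14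
    0 :: .mul 19 9 :: .mul 19 11 :: .smul 8 31 :: .sub false 0 30 :: .sub false 2 0 :: .add true 4 0
    :: .mul 30 0 :: .add false 7 0 :: .mul 18 22 :: .smul 3 0 :: .sub false 2 0 :: .add false 14 0
    :: .mul 36 0 :: prog5

def prog3 : List Ins := .mul 0 146 :: .int 4441 :: .add true 1 0 :: .mul 0 149 :: .int (-296) ::
    .add true 1 0 :: .mul 0 152 :: .int (-8) :: .add false 1 0 :: .add true 15 0 :: .mul 55 0 ::
    .mul 57 0 :: .cst 189 25 :: .mul 0 72 :: .add false 2 0 :: .smul 27 117 :: .cst 9 70 :: .add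
    false 1 0 :: .mul 0 69 :: .add false 4 0 :: .smul 12 0 :: .cst (-29) 500 :: .cst (-9) 10 :: .mul
    0 171 :: .add false 2 0 :: .cst 1 80 :: .add true 0 153 :: .mul 0 121 :: .add true 3 0 :: .mul
    76 0 :: .add true 9 0 :: .mul 78 0 :: .add true 80 0 :: .mul 122 0 :: .add true 124 0 :: .mul
    141 0 :: .cst 1 2 :: .mul 0 149 :: .smul (-1) 186 :: .mul 186 173 :: .sub false 166 0 :: .mul
    175 0 :: .add false 3 0 :: .inv 0 :: .smul (-1) 0 :: .mul 7 0 :: .mul 140 140 :: .mul 133 0 ::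
    .cst 7 100 :: .mul 143 156 :: prog4

def prog2 : List Ins := .sub true 8 0 :: .mul 0 44 :: .sub true 101 46 :: .smul 72 39 :: .cst 1
    136080 :: .smul (-62720) 103 :: .smul (-156800) 102 :: .int (-44800) :: .add false 1 0 :: .add
    false 3 0 :: .mul 0 108 :: .smul (-180320) 107 :: .int (-49280) :: .add false 1 0 :: .mul 0 110
    :: .int (-4760) :: .add false 1 0 :: .add true 6 0 :: .mul 0 116 :: .smul (-123760) 115 :: .int
    10416 :: .add true 1 0 :: .mul 0 118 :: .int (-1596) :: .add false 1 0 :: .mul 0 121 :: .int 28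
    :: .add false 1 0 :: .add true 9 0 :: .mul 0 127 :: .smul (-53854) 126 :: .int 45478 :: .add
    true 1 0 :: .mul 0 129 :: .int (-11886) :: .add true 1 0 :: .mul 0 132 :: .int 802 :: .add true
    1 0 :: .mul 0 135 :: .int 20 :: .add false 1 0 :: .add true 12 0 :: .mul 0 141 :: .smul (-13171)
    140 :: .int 26927 :: .add true 1 0 :: .mul 0 143 :: .int (-17893) :: .add true 1 0 :: prog3

def prog1 : List Ins := .mul 31 35 :: .mul 0 41 :: .smul 12 0 :: .mul 0 11 :: .int 2 :: .mul 15 13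
    :: .sub true 1 0 :: .mul 3 0 :: .sub true 57 0 :: .mul 9 0 :: .mul 56 6 :: .cst 31 20 :: .smul
    10 60 :: .add true 1 0 :: .smul (-8) 0 :: .cst 1 1080 :: .smul (-320) 64 :: .smul (-480) 63 ::
    .int (-60) :: .add false 1 0 :: .add true 3 0 :: .mul 0 69 :: .smul (-312) 68 :: .int 102 ::
    .add true 1 0 :: .mul 0 71 :: .int (-6) :: .add false 1 0 :: .add true 6 0 :: .mul 0 77 :: .smul
    (-103) 76 :: .int 156 :: .add true 1 0 :: .mul 0 79 :: .int (-57) :: .add true 1 0 :: .mul 0 82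
    :: .int 4 :: .add false 1 0 :: .add true 9 0 :: .mul 24 0 :: .mul 26 0 :: .cst 49 50 :: .cst 1 6
    :: .smul (-2) 92 :: .smul (-1) 91 :: .add false 0 95 :: .add true 2 0 :: .mul 4 0 :: .mul 6 0 ::
    prog2

def prog : List Ins := .int 1 :: .var 0 :: .add false 1 0 :: .var 1 :: .inv 0 :: .mul 2 0 :: .var 2
    :: .mul 3 0 :: .exp 0 :: .mul 0 0 :: .mul 0 0 :: .smul 4 7 :: .sub true 11 0 :: .mul 0 6 :: .exp
    0 :: .mul 4 0 :: .mul 0 0 :: .mul 7 8 :: .mul 0 3 :: .mul 0 0 :: .sub true 3 0 :: .mul 15 0 ::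
    .smul 2 20 :: .add true 22 0 :: .smul 2 0 :: .smul 2 21 :: .sub true 25 0 :: .inv 0 :: .mul 3 0
    :: .sub true 13 9 :: .mul 1 0 :: .add false 9 0 :: .sub true 31 28 :: .inv 0 :: .mul 32 0 ::
    .sub false 34 15 :: .mul 1 0 :: .sub false 5 0 :: .smul 12 0 :: .smul 12 19 :: .add false 0 2 ::
    .inv 0 :: .mul 3 0 :: .mul 0 0 :: .cst 1 4000 :: .cst 9 200 :: .mul 0 44 :: .sub false 2 0 ::
    .cst 1 70 :: .add false 1 0 :: prog1

def vs : List Vr := [⟨4, 0, false, false⟩, ⟨3, 0, false, false⟩, ⟨7, 0, false, false⟩]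

def C : Chart := ⟨vs, prog, [], 1, 3⟩

end Pool.Agent.Lib.MP_d6150d_an.B2M
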