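import Pool.Agent.Lib.MP_d6150d_an.GDef

/-! A generated chart: the program. -/

namespace Pool.Agent.Lib.MP_d6150d_an.B2S

def prog6 : List Ins := .add true 3 0 :: .mul 76 0 :: .add true 9 0 :: .mul 78 0 :: .add true 80 0
    :: .mul 299 0 :: .add false 236 231 :: .mul 0 84 :: .sub false 2 0 :: .mul 123 0 :: .sub false
    129 0 :: .cpy 0 :: []

def prog5 : List Ins := .add true 9 0 :: .mul 0 248 :: .smul (-53854) 246 :: .int 45478 :: .add true
    1 0 :: .mul 0 249 :: .int (-11886) :: .add true 1 0 :: .mul 0 252 :: .int 802 :: .add true 1 0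
    :: .mul 0 255 :: .int 20 :: .add false 1 0 :: .add true 12 0 :: .mul 0 262 :: .smul (-13171) 260
    :: .int 26927 :: .add true 1 0 :: .mul 0 263 :: .int (-17893) :: .add true 1 0 :: .mul 0 266 ::
    .int 4441 :: .add true 1 0 :: .mul 0 269 :: .int (-296) :: .add true 1 0 :: .mul 0 272 :: .int
    (-8) :: .add false 1 0 :: .add true 15 0 :: .mul 55 0 :: .mul 57 0 :: .cst 189 25 :: .mul 0 73
    :: .add false 2 0 :: .smul 27 217 :: .cst 9 70 :: .add false 1 0 :: .mul 0 71 :: .add false 4 0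
    :: .smul 12 0 :: .cst (-29) 500 :: .cst (-9) 10 :: .mul 0 292 :: .add false 2 0 :: .cst 1 80 ::
    .add true 0 284 :: .mul 0 77 :: prog6

def prog4 : List Ins := .add true 6 0 :: .mul 0 198 :: .smul (-103) 196 :: .int 156 :: .add true 1 0
    :: .mul 0 199 :: .int (-57) :: .add true 1 0 :: .mul 0 202 :: .add false 0 101 :: .add true 8 0
    :: .mul 23 0 :: .mul 25 0 :: .cst 49 50 :: .cst 1 6 :: .smul (-2) 212 :: .add false 83 209 ::
    .add true 1 0 :: .mul 3 0 :: .mul 5 0 :: .sub true 7 0 :: .mul 38 36 :: .sub false 125 0 :: .mul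
    2 0 :: .sub true 217 2 :: .smul 72 220 :: .cst 1 136080 :: .smul (-62720) 224 :: .smul (-156800)
    222 :: .int (-44800) :: .add false 1 0 :: .add false 3 0 :: .mul 0 229 :: .smul (-180320) 227 ::
    .int (-49280) :: .add false 1 0 :: .mul 0 230 :: .int (-4760) :: .add false 1 0 :: .add true 6 0
    :: .mul 0 237 :: .smul (-123760) 235 :: .int 10416 :: .add true 1 0 :: .mul 0 238 :: .int
    (-1596) :: .add false 1 0 :: .mul 0 241 :: .int 28 :: .add false 1 0 :: prog5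

def prog3 : List Ins := .sub true 4 0 :: .mul 55 0 :: .smul 16 64 :: .smul 104 63 :: .add false 1 0
    :: .smul 112 62 :: .add false 1 0 :: .mul 82 65 :: .smul 8 0 :: .add false 2 0 :: .mul 0 16 ::
    .add true 9 0 :: .mul 78 0 :: .smul (-4) 75 :: .smul 68 74 :: .add false 1 0 :: .smul 160 73 ::
    .add false 1 0 :: .smul 28 10 :: .add false 1 0 :: .mul 0 68 :: .sub true 8 0 :: .mul 86 0 ::
    .add false 92 0 :: .smul 8 169 :: .mul 0 169 :: .rsq 142 :: .mul 143 0 :: .mul 2 0 :: .add true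
    5 0 :: .mul 179 0 :: .smul 12 89 :: .smul 12 171 :: .add false 0 149 :: .inv 0 :: .mul 3 0 ::
    .smul (-8) 181 :: .cst 1 1080 :: .smul (-320) 185 :: .smul (-480) 183 :: .int (-60) :: .add
    false 1 0 :: .add true 3 0 :: .mul 0 190 :: .smul (-312) 188 :: .int 102 :: .add true 1 0 ::
    .mul 0 191 :: .int (-6) :: .add false 1 0 :: prog4

def prog2 : List Ins := .smul 2 0 :: .sub false 2 0 :: .mul 4 0 :: .smul 3 4 :: .smul 4 4 :: .sub
    false 1 0 :: .sub true 3 0 :: .int 4 :: .smul 3 102 :: .sub true 1 0 :: .mul 0 8 :: .sub false 4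
    0 :: .smul 3 5 :: .sub true 1 0 :: .smul 2 0 :: .mul 109 109 :: .smul 3 0 :: .mul 89 3 :: .add
    false 1 0 :: .mul 17 0 :: .add false 5 0 :: .mul 11 14 :: .add false 1 0 :: .mul 25 17 :: .smul
    7 25 :: .smul 8 25 :: .sub false 1 0 :: .sub false 3 0 :: .add false 5 0 :: .smul 12 27 :: .add
    false 1 0 :: .smul 3 25 :: .smul (-1) 126 :: .mul 105 31 :: .sub false 1 0 :: .mul 3 0 :: .sub
    false 5 0 :: .smul 5 131 :: .add false 30 0 :: .smul 6 37 :: .add false 28 0 :: .smul 3 39 ::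
    .mul 0 7 :: .sub true 2 0 :: .mul 5 0 :: .sub false 8 0 :: .smul 5 44 :: .mul 119 3 :: .add
    false 31 0 :: .mul 2 0 :: prog3

def prog1 : List Ins := .mul 16 10 :: .mul 19 45 :: .sub false 44 0 :: .mul 31 16 :: .sub false 1 0
    :: .mul 4 0 :: .mul 6 0 :: .mul 0 16 :: .smul 15 16 :: .smul 24 18 :: .sub false 1 0 :: .int 7
    :: .sub true 1 0 :: .mul 5 0 :: .add false 15 0 :: .mul 9 9 :: .cst 1 4000 :: .cst 9 200 :: .mul
    0 65 :: .sub false 2 0 :: .smul 12 29 :: .sub false 0 12 :: .sub true 0 65 :: .mul 3 0 :: .cst 1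
    70 :: .smul 3 34 :: .sub true 0 69 :: .mul 2 0 :: .add true 4 0 :: .mul 13 0 :: .add false 15 0
    :: .mul 75 60 :: .cst 1 2 :: .mul 0 32 :: .mul 0 0 :: .mul 3 0 :: .mul 75 75 :: .mul 82 0 ::
    .mul 77 54 :: .mul 39 0 :: .add false 2 0 :: .mul 57 57 :: .mul 22 0 :: .add false 2 0 :: .smul
    16 0 :: .mul 0 11 :: .int 2 :: .sub true 0 91 :: .mul 83 58 :: .mul 63 59 :: prog2

def prog : List Ins := .var 3 :: .cst 31 20 :: .var 0 :: .smul 10 0 :: .add true 2 0 :: .var 1 ::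
    .int 1 :: .add false 0 4 :: .inv 2 :: .mul 1 0 :: .mul 9 9 :: .sub false 4 0 :: .mul 2 0 ::
    .smul 2 10 :: .add true 7 0 :: .smul (-2) 0 :: .smul 2 10 :: .sub true 10 0 :: .inv 0 :: .mul 3
    0 :: .var 2 :: .mul 10 0 :: .sub false 15 0 :: .mul 3 0 :: .sub true 17 18 :: .inv 0 :: .mul 23
    0 :: .mul 16 5 :: .mul 6 0 :: .sub false 22 0 :: .mul 3 0 :: .add false 7 0 :: .mul 0 21 :: .add
    false 20 0 :: .mul 28 0 :: .mul 32 7 :: .sub false 21 0 :: .mul 9 0 :: .sub false 30 0 :: .inv 0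
    :: .mul 5 0 :: .mul 0 0 :: .mul 37 0 :: .int 6 :: .smul 15 3 :: .sub true 1 0 :: .mul 5 0 ::
    .add true 40 0 :: .mul 5 0 :: .cst 7 100 :: prog1

def vs : List Vr := [⟨2, 0, false, false⟩, ⟨1, 0, false, false⟩, ⟨1, 0, false, false⟩, ⟨5, 0, false,
    false⟩]

def C : Chart := ⟨vs, prog, [], 1, 3⟩

end Pool.Agent.Lib.MP_d6150d_an.B2S
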