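import Pool.Agent.Lib.MP_d6150d_an.GDef

/-! A generated chart: the program. -/

namespace Pool.Agent.Lib.MP_d6150d_an.B2T

def prog5 : List Ins := .smul 104 54 :: .add false 1 0 :: .smul 112 54 :: .add false 1 0 :: .mul 210
    215 :: .smul 8 0 :: .add false 2 0 :: .mul 0 29 :: .mul 257 257 :: .mul 1 0 :: .add true 11 0 ::
    .mul 70 0 :: .smul (-4) 69 :: .smul 68 67 :: .add false 1 0 :: .smul 160 67 :: .add false 1 0 ::
    .smul 28 12 :: .add false 1 0 :: .mul 0 51 :: .mul 11 11 :: .mul 1 0 :: .add true 10 0 :: .mul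
    82 0 :: .smul (-14) 78 :: .smul 28 77 :: .add false 1 0 :: .smul 10 22 :: .add false 1 0 :: .mul
    8 20 :: .mul 1 0 :: .add true 7 0 :: .mul 91 0 :: .mul 279 0 :: .sub false 103 0 :: .smul 8 226
    :: .mul 0 282 :: .mul 0 238 :: .smul 12 274 :: .mul 0 252 :: .rsq 257 :: .mul 258 0 :: .mul 2 0
    :: .mul 5 0 :: .add false 9 0 :: .cpy 0 :: []

def prog4 : List Ins := .mul 0 9 :: .mul 198 189 :: .mul 0 12 :: .mul 184 192 :: .mul 0 14 :: .sub
    false 2 0 :: .mul 204 16 :: .add false 1 0 :: .int 6 :: .smul 5 205 :: .sub true 1 0 :: .smul 3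
    207 :: .sub true 129 0 :: .sub true 163 209 :: .mul 0 6 :: .smul 2 12 :: .sub false 0 11 :: .sub
    false 2 0 :: .mul 5 0 :: .mul 5 2 :: .smul 4 17 :: .sub false 0 16 :: .sub true 2 0 :: .add
    false 4 0 :: .mul 16 0 :: .mul 8 7 :: .smul 3 0 :: .sub false 2 0 :: .mul 17 0 :: .smul 3 6 ::
    .sub false 6 0 :: .mul 14 0 :: .mul 19 9 :: .mul 19 11 :: .smul 8 31 :: .sub false 0 30 :: .sub
    false 2 0 :: .add true 4 0 :: .mul 30 0 :: .add false 7 0 :: .mul 18 22 :: .smul 3 0 :: .sub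
    false 2 0 :: .add false 14 0 :: .mul 36 0 :: .mul 28 17 :: .smul 5 0 :: .sub false 2 0 :: .mul
    47 0 :: .smul 16 56 :: prog5

def prog3 : List Ins := .add true 1 0 :: .mul 0 147 :: .int (-8) :: .add false 1 0 :: .add true 15 0
    :: .mul 55 0 :: .mul 57 0 :: .cst 189 25 :: .mul 0 72 :: .add false 2 0 :: .smul 27 117 :: .cst
    9 70 :: .add false 1 0 :: .mul 0 69 :: .add false 4 0 :: .smul 12 0 :: .cst (-29) 500 :: .cst
    (-9) 10 :: .mul 0 166 :: .add false 2 0 :: .cst 1 80 :: .add true 0 153 :: .mul 0 121 :: .add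
    true 3 0 :: .mul 76 0 :: .add true 9 0 :: .mul 78 0 :: .add true 80 0 :: .mul 122 0 :: .add true
    124 0 :: .mul 141 0 :: .cst 1 2 :: .mul 0 149 :: .smul (-1) 181 :: .mul 181 173 :: .sub false
    166 0 :: .mul 175 0 :: .add false 3 0 :: .inv 0 :: .smul (-1) 0 :: .mul 7 0 :: .mul 140 140 ::
    .mul 133 0 :: .cst 7 100 :: .mul 143 156 :: .mul 1 0 :: .add false 3 0 :: .mul 154 158 :: .add
    false 1 0 :: .smul 16 0 :: prog4

def prog2 : List Ins := .smul (-62720) 98 :: .smul (-156800) 97 :: .int (-44800) :: .add false 1 0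
    :: .add false 3 0 :: .mul 0 103 :: .smul (-180320) 102 :: .int (-49280) :: .add false 1 0 ::
    .mul 0 105 :: .int (-4760) :: .add false 1 0 :: .add true 6 0 :: .mul 0 111 :: .smul (-123760)
    110 :: .int 10416 :: .add true 1 0 :: .mul 0 113 :: .int (-1596) :: .add false 1 0 :: .mul 0 116
    :: .int 28 :: .add false 1 0 :: .add true 9 0 :: .mul 0 122 :: .smul (-53854) 121 :: .int 45478
    :: .add true 1 0 :: .mul 0 124 :: .int (-11886) :: .add true 1 0 :: .mul 0 127 :: .int 802 ::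
    .add true 1 0 :: .mul 0 130 :: .int 20 :: .add false 1 0 :: .add true 12 0 :: .mul 0 136 ::
    .smul (-13171) 135 :: .int 26927 :: .add true 1 0 :: .mul 0 138 :: .int (-17893) :: .add true 1
    0 :: .mul 0 141 :: .int 4441 :: .add true 1 0 :: .mul 0 144 :: .int (-296) :: prog3

def prog1 : List Ins := .mul 15 13 :: .sub false 1 0 :: .mul 3 0 :: .sub true 52 0 :: .mul 9 0 ::
    .mul 51 6 :: .cst 31 20 :: .smul 10 55 :: .add true 1 0 :: .smul (-8) 0 :: .cst 1 1080 :: .smul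
    (-320) 59 :: .smul (-480) 58 :: .int (-60) :: .add false 1 0 :: .add true 3 0 :: .mul 0 64 ::
    .smul (-312) 63 :: .int 102 :: .add true 1 0 :: .mul 0 66 :: .int (-6) :: .add false 1 0 :: .add
    true 6 0 :: .mul 0 72 :: .smul (-103) 71 :: .int 156 :: .add true 1 0 :: .mul 0 74 :: .int (-57)
    :: .add true 1 0 :: .mul 0 77 :: .int 4 :: .add false 1 0 :: .add true 9 0 :: .mul 24 0 :: .mul
    26 0 :: .cst 49 50 :: .cst 1 6 :: .smul (-2) 87 :: .smul (-1) 86 :: .add false 0 90 :: .add true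
    2 0 :: .mul 4 0 :: .mul 6 0 :: .sub true 8 0 :: .mul 0 44 :: .sub false 96 46 :: .smul 72 39 ::
    .cst 1 136080 :: prog2

def prog : List Ins := .int 1 :: .var 0 :: .add false 1 0 :: .var 1 :: .inv 0 :: .mul 2 0 :: .var 3
    :: .mul 0 0 :: .mul 0 0 :: .var 2 :: .mul 1 0 :: .mul 0 0 :: .mul 4 5 :: .mul 0 3 :: .mul 0 0 ::
    .sub false 3 0 :: .mul 10 0 :: .smul 2 15 :: .add true 17 0 :: .smul 2 0 :: .smul 2 16 :: .sub
    true 20 0 :: .inv 0 :: .mul 3 0 :: .sub false 13 9 :: .mul 1 0 :: .add false 9 0 :: .sub true 26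
    23 :: .inv 0 :: .mul 27 0 :: .sub false 29 15 :: .mul 1 0 :: .sub false 5 0 :: .smul 12 0 ::
    .smul 12 19 :: .add false 0 2 :: .inv 0 :: .mul 3 0 :: .mul 0 0 :: .cst 1 4000 :: .cst 9 200 ::
    .mul 0 39 :: .sub false 2 0 :: .cst 1 70 :: .add false 1 0 :: .mul 31 35 :: .mul 0 38 :: .smul
    12 0 :: .mul 0 11 :: .int 2 :: prog1

def vs : List Vr := [⟨2, 0, false, false⟩, ⟨2, 0, false, false⟩, ⟨2, 0, false, false⟩, ⟨6, 0, false,
    false⟩]

def C : Chart := ⟨vs, prog, [], 1, 3⟩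

end Pool.Agent.Lib.MP_d6150d_an.B2T
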