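import Pool.Agent.Lib.MP_d6150d_an.B3bLD

/-! A generated chart: the computations. -/

namespace Pool.Agent.Lib.MP_d6150d_an.B3bL

theorem k0 : chk C 0x8 [(-2199023255552, -274877906944), (32298154065920, 33741263077376), (0,
    105553116266496)] = true := by
  decide +kernel

theorem k1 : chk C 0x8 [(-2199023255552, -274877906944), (33741263077376, 34462817583104), (0,
    105553116266496)] = true := by
  decide +kernel

theorem k2 : chk C 0x88180818080 [(-2199023255552, -1236950581248), (34462817583104,
    35184372088832), (0, 105553116266496)] = true := by
  decide +kernel

theorem k3 : chk C 0x8 [(-1236950581248, -274877906944), (34462817583104, 34823594835968), (0,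
    105553116266496)] = true := by
  decide +kernel

theorem k4 : chk C 0x8828281 [(-1236950581248, -755914244096), (34823594835968, 35184372088832), (0,
    105553116266496)] = true := by
  decide +kernel

theorem k5 : chk C 0x8 [(-755914244096, -274877906944), (34823594835968, 35003983462400), (0,
    105553116266496)] = true := by
  decide +kernel

theorem k6 : chk C 0x8881282 [(-755914244096, -515396075520), (35003983462400, 35184372088832), (0,
    105553116266496)] = true := by
  decide +kernel

theorem k7 : chk C 0x88181808180 [(-515396075520, -274877906944), (35003983462400, 35184372088832),
    (0, 52776558133248)] = true := by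
  decide +kernel

theorem k8 : chk C 0x88822808181 [(-515396075520, -274877906944), (35003983462400, 35184372088832),
    (52776558133248, 79164837199872)] = true := by
  decide +kernel

theorem k9 : chk C 0x882818081 [(-515396075520, -274877906944), (35003983462400, 35184372088832),
    (79164837199872, 105553116266496)] = true := by
  decide +kernel

theorem k10 : chk C 0x8818812 [(-2199023255552, -1236950581248), (32298154065920, 35184372088832),
    (105553116266496, 211106232532992)] = true := by
  decide +kernel

theorem k11 : chk C 0x8 [(-1236950581248, -274877906944), (32298154065920, 33741263077376),
    (105553116266496, 158329674399744)] = true := by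
  decide +kernel

end Pool.Agent.Lib.MP_d6150d_an.B3bL
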