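import Pool.Agent.Lib.MP_d6150d_an.B3bLD

/-! A generated chart: the computations. -/

namespace Pool.Agent.Lib.MP_d6150d_an.B3bL

theorem k12 : chk C 0x8880281808181808181 [(-1236950581248, -274877906944), (33741263077376,
    35184372088832), (105553116266496, 158329674399744)] = true := by
  decide +kernel

theorem k13 : chk C 0x88181808181808181 [(-1236950581248, -274877906944), (32298154065920,
    35184372088832), (158329674399744, 211106232532992)] = true := by
  decide +kernel

theorem k14 : chk C 0x880 [(-2199023255552, -1236950581248), (32298154065920, 35184372088832),
    (211106232532992, 316659348799488)] = true := by
  decide +kernel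

theorem k15 : chk C 0x88822818081808181 [(-1236950581248, -274877906944), (32298154065920,
    35184372088832), (211106232532992, 316659348799488)] = true := by
  decide +kernel

theorem k16 : chk C 0x882 [(-2199023255552, -1236950581248), (32298154065920, 35184372088832),
    (316659348799488, 422212465065984)] = true := by
  decide +kernel

end Pool.Agent.Lib.MP_d6150d_an.B3bL
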