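import Pool.Agent.Lib.MP_d6150d_an.B3bLD

/-! A generated chart: the computations. -/

namespace Pool.Agent.Lib.MP_d6150d_an.B3bL

theorem k17 : chk C 0x88280808188108801 [(-1236950581248, -274877906944), (32298154065920,
    35184372088832), (316659348799488, 422212465065984)] = true := by
  decide +kernel

end Pool.Agent.Lib.MP_d6150d_an.B3bL
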