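import Pool.Agent.Lib.MP_d6150d_an.B3bMD

/-! A generated chart: the computations. -/

namespace Pool.Agent.Lib.MP_d6150d_an.B3bM

theorem k0 : chk C 0x8881182881088108080 [(-2199023255552, -274877906944), (32369622321725,
    35184372088832), (-1266637395197952, -1055531162664960)] = true := by
  decide +kernel

theorem k1 : chk C 0x88280 [(-2199023255552, -1236950581248), (32369622321725, 35184372088832),
    (-1055531162664960, -844424930131968)] = true := by
  decide +kernel

theorem k2 : chk C 0x881 [(-1236950581248, -755914244096), (32369622321725, 35184372088832),
    (-1055531162664960, -949978046398464)] = true := by
  decide +kernel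

theorem k3 : chk C 0x88188812188108810 [(-755914244096, -274877906944), (32369622321725,
    35184372088832), (-1055531162664960, -949978046398464)] = true := by
  decide +kernel

theorem k4 : chk C 0x8818088180288208800 [(-1236950581248, -274877906944), (32369622321725,
    35184372088832), (-949978046398464, -844424930131968)] = true := by
  decide +kernel

theorem k5 : chk C 0x88180 [(-2199023255552, -1236950581248), (32369622321725, 35184372088832),
    (-844424930131968, -738871813865472)] = true := by
  decide +kernel

theorem k6 : chk C 0x88182 [(-1236950581248, -755914244096), (32369622321725, 35184372088832),
    (-844424930131968, -738871813865472)] = true := by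
  decide +kernel

end Pool.Agent.Lib.MP_d6150d_an.B3bM
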