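import Pool.Agent.Lib.MP_d6150d_an.B3bMD

/-! A generated chart: the computations. -/

namespace Pool.Agent.Lib.MP_d6150d_an.B3bM

theorem k7 : chk C 0x8808801881802881820 [(-755914244096, -274877906944), (32369622321725,
    35184372088832), (-844424930131968, -738871813865472)] = true := by
  decide +kernel

theorem k8 : chk C 0x8808812 [(-2199023255552, -1236950581248), (32369622321725, 35184372088832),
    (-738871813865472, -633318697598976)] = true := by
  decide +kernel

theorem k9 : chk C 0x880818812 [(-1236950581248, -755914244096), (32369622321725, 35184372088832),
    (-738871813865472, -633318697598976)] = true := by
  decide +kernel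

theorem k10 : chk C 0x88088018810 [(-755914244096, -274877906944), (32369622321725, 35184372088832),
    (-738871813865472, -686095255732224)] = true := by
  decide +kernel

theorem k11 : chk C 0x880881821880810 [(-755914244096, -274877906944), (32369622321725,
    35184372088832), (-686095255732224, -633318697598976)] = true := by
  decide +kernel

theorem k12 : chk C 0x88180881802 [(-2199023255552, -1236950581248), (32369622321725,
    35184372088832), (-633318697598976, -527765581332480)] = true := by
  decide +kernel

end Pool.Agent.Lib.MP_d6150d_an.B3bM
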