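import Pool.Agent.Lib.MP_d6150d_an.B3bMD

/-! A generated chart: the computations. -/

namespace Pool.Agent.Lib.MP_d6150d_an.B3bM

theorem k13 : chk C 0x88088218810880810 [(-1236950581248, -274877906944), (32369622321725,
    35184372088832), (-633318697598976, -580542139465728)] = true := by
  decide +kernel

theorem k14 : chk C 0x88288018810 [(-1236950581248, -274877906944), (32369622321725,
    35184372088832), (-580542139465728, -527765581332480)] = true := by
  decide +kernel

theorem k15 : chk C 0x8828188108810 [(-2199023255552, -274877906944), (32369622321725,
    35184372088832), (-527765581332480, -474989023199232)] = true := by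
  decide +kernel

theorem k16 : chk C 0x882808188108810 [(-2199023255552, -274877906944), (32369622321725,
    35184372088832), (-474989023199232, -422212465065984)] = true := by
  decide +kernel

end Pool.Agent.Lib.MP_d6150d_an.B3bM
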