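import Pool.Agent.Lib.MP_d6150d_an.B3bPD

/-! A generated chart: the computations. -/

namespace Pool.Agent.Lib.MP_d6150d_an.B3bP

theorem k0 : chk C 0x888081280818081 [(-2199023255552, -274877906944), (32369622321725,
    35184372088832), (281474976710656, 387028092977152)] = true := by
  decide +kernel

theorem k1 : chk C 0x8818180 [(-2199023255552, -274877906944), (32369622321725, 35184372088832),
    (387028092977152, 492581209243648)] = true := by
  decide +kernel

theorem k2 : chk C 0x88088018810 [(-2199023255552, -274877906944), (32369622321725, 35184372088832),
    (492581209243648, 703687441776640)] = true := by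
  decide +kernel

theorem k3 : chk C 0x88888221280 [(-2199023255552, -274877906944), (32369622321725, 35184372088832),
    (703687441776640, 1125899906842624)] = true := by
  decide +kernel

end Pool.Agent.Lib.MP_d6150d_an.B3bP
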