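import Pool.Agent.Lib.MP_d6150d_an.B3bA
import Pool.Agent.Lib.MP_d6150d_an.B3bPK0

/-! A generated chart: the inequality. -/

namespace Pool.Agent.Lib.MP_d6150d_an.B3bP

set_option linter.unnecessarySeqFocus false
set_option linter.unusedTactic false
set_option linter.unusedVariables false

theorem gd : Gd C [(-2199023255552, -274877906944), (32369622321725, 35184372088832),
    (281474976710656, 1125899906842624)] := .split 2 (.split 2 (.split 2 (chk_sound k0) (chk_sound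
    k1)) (chk_sound k2)) (chk_sound k3)

set_option maxRecDepth 100000 in
theorem eq {D F t h y a b c A B e0 e1 e2 e3 z p r m n o i L k e j q Q R Y a1 a2 b1 b2 g1 p2 u3 u4 c0
    c1 c2 c3 K E : ℝ} (hh : h = Real.exp (-((1 - 4 * F) * t))) (hy : y = Real.exp (-(F * t))) (ha :
    a = pC D F) (hb : b = bC D F) (hc : c = qC D F) (hA : A = aC4 D F) (hB : B = aC6 D F) (he0 : e0
    = eC0 D F) (he1 : e1 = eC1 D F) (he2 : e2 = eC2 D F) (he3 : e3 = eC3 D F) (hz : z = y ^ 2) (hp :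
    p = z * h) (hr : r = z * p) (hm : m = (-2) * (1 + 2 * D) / (1 - 2 * F) * (1 - p) + D / (1 - F) *
    (1 - p * r)) (hn : n = (1 + D) / F * (1 - z) + m * z) (ho : o = 1 + 2 * D - D * r) (hi : i = (1
    + D - r * o)⁻¹) (hL : L = F * n * i) (hk : k = n * i * (1 + D - m * F - p * o)) (he : e = (20 *
    z + n)⁻¹) (hj : j = 20 * z * e) (hq : q = (√n)⁻¹) (hQ : Q = (1 + 2 * D) * i) (hR : R = D * r *
    i) (hY : Y = n * i / 2) (ha1 : a1 = Q - 2 * R) (ha2 : a2 = 3 * Q - 4 * R) (hb1 : b1 = (2 - F) *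
    a1 - a2) (hb2 : b2 = (2 - F) * a2 - (7 * Q - 8 * R)) (hg1 : g1 = b1 - (4 - 3 * F) * a1) (hp2 :
    p2 = -F - r * a1) (hu3 : u3 = g1 + 6 * a1 - 3 * a1 * p2) (hu4 : u4 = 2 * (g1 - 3 * b1) + a1 * (3
    * F ^ 2 + r * (g1 - 3 * b1)) + (4 - 3 * F) * b1 + b2 + 12 * a1 - 3 * a2 * p2 - (4 + 5 * F) * u3
    - 5 * a1 * (3 * F ^ 2 + r * u3)) (hc0 : c0 = z ^ 2) (hc1 : c1 = a * (z * n)) (hc2 : c2 = b * n ^
    2) (hc3 : c3 = c * n ^ 2) (hK : K = L ^ 2 * (1 + L * (6 - 15 * L)) + a * k * L * (15 * L ^ 2 -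
    24 * L - 7) + k ^ 2 * (b * (12 * L - 15 * L ^ 2 - 1) + c * (3 * L - 1)) + F * h * Y ^ 2 * (Y *
    (16 * (c0 + c1 + c2) * Y * u4 + (16 * c0 + 104 * c1 + 112 * c2 + 8 * c3) * u3) - ((-4) * c0 + 68
    * c1 + 160 * c2 + 28 * c3) * a1)) (hE : E = A * (2 - j) + (1 - j) * (20 * B + (1 - j) * (e0 + j
    * (e1 + j * (e2 + j * e3))))) : outR prog 0 [D, F, t] = y * (K + 8 * F * (n * q)) - 20 * n ^ 2 *
    e * (F * E - (b + c) * (2 - j)) := by
  replace hh : h = (Real.exp ((Int.cast (-1) : ℝ) * (((Int.cast (1) : ℝ) - ((Int.cast (4) : ℝ) * F))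
    * t))) := hh.trans (congrArg Real.exp (by push_cast <;> ring))
  replace hy : y = (Real.exp ((Int.cast (-1) : ℝ) * (F * t))) := hy.trans (congrArg Real.exp (by
    push_cast <;> ring))
  replace ha : a = (mC D F).1 := ha.trans (mC_0 ..)
  replace hb : b = (mC D F).2.1 := hb.trans (mC_1 ..)
  replace hc : c = (mC D F).2.2.1 := hc.trans (mC_2 ..)
  replace hA : A = (mC D F).2.2.2.1 := hA.trans (mC_3 ..)
  replace hB : B = (mC D F).2.2.2.2.1 := hB.trans (mC_4 ..)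
  replace he0 : e0 = (mC D F).2.2.2.2.2.1 := he0.trans (mC_5 ..)
  replace he1 : e1 = (mC D F).2.2.2.2.2.2.1 := he1.trans (mC_6 ..)
  replace he2 : e2 = (mC D F).2.2.2.2.2.2.2.1 := he2.trans (mC_7 ..)
  replace he3 : e3 = (mC D F).2.2.2.2.2.2.2.2 := he3.trans (mC_8 ..)
  replace hz : z = (y * y) := hz.trans (by push_cast <;> ring)
  replace hp : p = (z * h) := hp.trans (by push_cast <;> ring)
  replace hr : r = (z * p) := hr.trans (by push_cast <;> ring)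
  replace hm : m = (((((Int.cast (-2) : ℝ) * ((Int.cast (1) : ℝ) + ((Int.cast (2) : ℝ) * D))) *
    ((Int.cast (1) : ℝ) - ((Int.cast (2) : ℝ) * F))⁻¹) * ((Int.cast (1) : ℝ) - p)) + ((D *
    ((Int.cast (1) : ℝ) - F)⁻¹) * ((Int.cast (1) : ℝ) - (p * r)))) := hm.trans (by push_cast <;>
    ring)
  replace hn : n = (((((Int.cast (1) : ℝ) + D) * F⁻¹) * ((Int.cast (1) : ℝ) - z)) + (m * z)) :=
    hn.trans (by push_cast <;> ring)
  replace ho : o = (((Int.cast (1) : ℝ) + ((Int.cast (2) : ℝ) * D)) - (D * r)) := ho.trans (by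
    push_cast <;> ring)
  replace hi : i = (((Int.cast (1) : ℝ) + D) - (r * o))⁻¹ := hi.trans (by push_cast <;> ring)
  replace hL : L = ((F * n) * i) := hL.trans (by push_cast <;> ring)
  replace hk : k = ((n * i) * ((((Int.cast (1) : ℝ) + D) - (m * F)) - (p * o))) := hk.trans (by
    push_cast <;> ring)
  replace he : e = (((Int.cast (20) : ℝ) * z) + n)⁻¹ := he.trans (by push_cast <;> ring)
  replace hj : j = (((Int.cast (20) : ℝ) * z) * e) := hj.trans (by push_cast <;> ring)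
  replace hQ : Q = (((Int.cast (1) : ℝ) + ((Int.cast (2) : ℝ) * D)) * i) := hQ.trans (by push_cast
    <;> ring)
  replace hR : R = ((D * r) * i) := hR.trans (by push_cast <;> ring)
  replace hY : Y = (((Int.cast (1) : ℝ) / (Nat.cast 2 : ℝ)) * (n * i)) := hY.trans (by push_cast <;>
    ring)
  replace ha1 : a1 = (Q - ((Int.cast (2) : ℝ) * R)) := ha1.trans (by push_cast <;> ring)
  replace ha2 : a2 = (((Int.cast (3) : ℝ) * Q) - ((Int.cast (4) : ℝ) * R)) := ha2.trans (by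
    push_cast <;> ring)
  replace hb1 : b1 = ((((Int.cast (2) : ℝ) - F) * a1) - a2) := hb1.trans (by push_cast <;> ring)
  replace hb2 : b2 = ((((Int.cast (2) : ℝ) - F) * a2) - (((Int.cast (7) : ℝ) * Q) - ((Int.cast (8) :
    ℝ) * R))) := hb2.trans (by push_cast <;> ring)
  replace hg1 : g1 = (b1 - (((Int.cast (4) : ℝ) - ((Int.cast (3) : ℝ) * F)) * a1)) := hg1.trans (by
    push_cast <;> ring)
  replace hp2 : p2 = (((Int.cast (-1) : ℝ) * F) - (r * a1)) := hp2.trans (by push_cast <;> ring)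
  replace hu3 : u3 = ((g1 + ((Int.cast (6) : ℝ) * a1)) - (((Int.cast (3) : ℝ) * a1) * p2)) :=
    hu3.trans (by push_cast <;> ring)
  replace hu4 : u4 = (((((((((Int.cast (2) : ℝ) * (g1 - ((Int.cast (3) : ℝ) * b1))) + (a1 *
    (((Int.cast (3) : ℝ) * (F * F)) + (r * (g1 - ((Int.cast (3) : ℝ) * b1)))))) + (((Int.cast (4) :
    ℝ) - ((Int.cast (3) : ℝ) * F)) * b1)) + b2) + ((Int.cast (12) : ℝ) * a1)) - (((Int.cast (3) : ℝ)
    * a2) * p2)) - (((Int.cast (4) : ℝ) + ((Int.cast (5) : ℝ) * F)) * u3)) - (((Int.cast (5) : ℝ) *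
    a1) * (((Int.cast (3) : ℝ) * (F * F)) + (r * u3)))) := hu4.trans (by push_cast <;> ring)
  replace hc0 : c0 = (z * z) := hc0.trans (by push_cast <;> ring)
  replace hc1 : c1 = (a * (z * n)) := hc1.trans (by push_cast <;> ring)
  replace hc2 : c2 = (b * (n * n)) := hc2.trans (by push_cast <;> ring)
  replace hc3 : c3 = (c * (n * n)) := hc3.trans (by push_cast <;> ring)
  replace hK : K = (((((L * L) * ((Int.cast (1) : ℝ) + (L * ((Int.cast (6) : ℝ) - ((Int.cast (15) :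
    ℝ) * L))))) + (((a * k) * L) * ((((Int.cast (15) : ℝ) * (L * L)) - ((Int.cast (24) : ℝ) * L)) -
    (Int.cast (7) : ℝ)))) + ((k * k) * ((b * ((((Int.cast (12) : ℝ) * L) - ((Int.cast (15) : ℝ) * (L
    * L))) - (Int.cast (1) : ℝ))) + (c * (((Int.cast (3) : ℝ) * L) - (Int.cast (1) : ℝ)))))) + (((F
    * h) * (Y * Y)) * ((Y * (((((Int.cast (16) : ℝ) * ((c0 + c1) + c2)) * Y) * u4) + ((((((Int.cast
    (16) : ℝ) * c0) + ((Int.cast (104) : ℝ) * c1)) + ((Int.cast (112) : ℝ) * c2)) + ((Int.cast (8) :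
    ℝ) * c3)) * u3))) - ((((((Int.cast (-4) : ℝ) * c0) + ((Int.cast (68) : ℝ) * c1)) + ((Int.cast
    (160) : ℝ) * c2)) + ((Int.cast (28) : ℝ) * c3)) * a1)))) := hK.trans (by push_cast <;> ring)
  replace hE : E = ((A * ((Int.cast (2) : ℝ) - j)) + (((Int.cast (1) : ℝ) - j) * (((Int.cast (20) :
    ℝ) * B) + (((Int.cast (1) : ℝ) - j) * (e0 + (j * (e1 + (j * (e2 + (j * e3)))))))))) := hE.trans
    (by push_cast <;> ring)
  have e0 : ((y * (K + (((Int.cast (8) : ℝ) * F) * (n * q)))) - ((((Int.cast (20) : ℝ) * (n * n)) *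
    e) * ((F * E) - ((b + c) * ((Int.cast (2) : ℝ) - j))))) = y * (K + 8 * F * (n * q)) - 20 * n ^ 2
    * e * (F * E - (b + c) * (2 - j)) := by push_cast <;> ring
  subst hh hy ha hb hc hA hB he0 he1 he2 he3 hz hp hr hm hn ho hi hL hk he hj hq hQ hR hY ha1 ha2
    hb1 hb2 hg1 hp2 hu3 hu4 hc0 hc1 hc2 hc3 hK hE
  exact Eq.trans rfl e0

theorem l0 : ((-2199023255552 : ℤ) : ℝ) / 2 ^ 47 = -1 / 64 := by norm_num
theorem u0 : (-1 / 512 : ℝ) = ((-274877906944 : ℤ) : ℝ) / 2 ^ 47 := by norm_num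
theorem l1 : ((32369622321725 : ℤ) : ℝ) / 2 ^ 47 ≤ 23 / 100 := by norm_num
theorem u1 : (1 / 4 : ℝ) = ((35184372088832 : ℤ) : ℝ) / 2 ^ 47 := by norm_num
theorem l2 : ((281474976710656 : ℤ) : ℝ) / 2 ^ 47 = 2 := by norm_num
theorem u2 : (8 : ℝ) = ((1125899906842624 : ℤ) : ℝ) / 2 ^ 47 := by norm_num

theorem out0 {D F t : ℝ} (a0 : -1 / 64 ≤ D) (b0 : D ≤ -1 / 512) (a1 : 23 / 100 ≤ F) (b1 : F ≤ 1 / 4)
    (a2 : 2 ≤ t) (b2 : t ≤ 8) : 0 < outR prog 0 [D, F, t] :=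
  gd 0 (by decide) [D, F, t] (.cons ⟨l0.le.trans a0, b0.trans u0.le⟩ (.cons ⟨l1.trans a1, b1.trans
    u1.le⟩ (.cons ⟨l2.le.trans a2, b2.trans u2.le⟩ (.nil)))) ⟨nofun, nofun, nofun, trivial⟩
    (List.forall_mem_nil _) (Van.of0 rfl) (nofun)

theorem pos0 {D F t h y a b c A B e0 e1 e2 e3 z p r m n o i L k e j q Q R Y a1 a2 b1 b2 g1 p2 u3 u4
    c0 c1 c2 c3 K E : ℝ} (hh : h = Real.exp (-((1 - 4 * F) * t))) (hy : y = Real.exp (-(F * t))) (ha
    : a = pC D F) (hb : b = bC D F) (hc : c = qC D F) (hA : A = aC4 D F) (hB : B = aC6 D F) (he0 :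
    e0 = eC0 D F) (he1 : e1 = eC1 D F) (he2 : e2 = eC2 D F) (he3 : e3 = eC3 D F) (hz : z = y ^ 2)
    (hp : p = z * h) (hr : r = z * p) (hm : m = (-2) * (1 + 2 * D) / (1 - 2 * F) * (1 - p) + D / (1
    - F) * (1 - p * r)) (hn : n = (1 + D) / F * (1 - z) + m * z) (ho : o = 1 + 2 * D - D * r) (hi :
    i = (1 + D - r * o)⁻¹) (hL : L = F * n * i) (hk : k = n * i * (1 + D - m * F - p * o)) (he : e =
    (20 * z + n)⁻¹) (hj : j = 20 * z * e) (hq : q = (√n)⁻¹) (hQ : Q = (1 + 2 * D) * i) (hR : R = D *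
    r * i) (hY : Y = n * i / 2) (ha1 : a1 = Q - 2 * R) (ha2 : a2 = 3 * Q - 4 * R) (hb1 : b1 = (2 -
    F) * a1 - a2) (hb2 : b2 = (2 - F) * a2 - (7 * Q - 8 * R)) (hg1 : g1 = b1 - (4 - 3 * F) * a1)
    (hp2 : p2 = -F - r * a1) (hu3 : u3 = g1 + 6 * a1 - 3 * a1 * p2) (hu4 : u4 = 2 * (g1 - 3 * b1) +
    a1 * (3 * F ^ 2 + r * (g1 - 3 * b1)) + (4 - 3 * F) * b1 + b2 + 12 * a1 - 3 * a2 * p2 - (4 + 5 *
    F) * u3 - 5 * a1 * (3 * F ^ 2 + r * u3)) (hc0 : c0 = z ^ 2) (hc1 : c1 = a * (z * n)) (hc2 : c2 =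
    b * n ^ 2) (hc3 : c3 = c * n ^ 2) (hK : K = L ^ 2 * (1 + L * (6 - 15 * L)) + a * k * L * (15 * L
    ^ 2 - 24 * L - 7) + k ^ 2 * (b * (12 * L - 15 * L ^ 2 - 1) + c * (3 * L - 1)) + F * h * Y ^ 2 *
    (Y * (16 * (c0 + c1 + c2) * Y * u4 + (16 * c0 + 104 * c1 + 112 * c2 + 8 * c3) * u3) - ((-4) * c0
    + 68 * c1 + 160 * c2 + 28 * c3) * a1)) (hE : E = A * (2 - j) + (1 - j) * (20 * B + (1 - j) * (e0
    + j * (e1 + j * (e2 + j * e3))))) (a0 : -1 / 64 ≤ D) (b0 : D ≤ -1 / 512) (a1 : 23 / 100 ≤ F) (b1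
    : F ≤ 1 / 4) (a2 : 2 ≤ t) (b2 : t ≤ 8) : 0 < y * (K + 8 * F * (n * q)) - 20 * n ^ 2 * e * (F * E
    - (b + c) * (2 - j)) :=
  have e := eq hh hy ha hb hc hA hB he0 he1 he2 he3 hz hp hr hm hn ho hi hL hk he hj hq hQ hR hY ha1
    ha2 hb1 hb2 hg1 hp2 hu3 hu4 hc0 hc1 hc2 hc3 hK hE
  (out0 a0 b0 a1 b1 a2 b2).trans_eq e

end Pool.Agent.Lib.MP_d6150d_an.B3bP
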