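import Pool.Agent.Lib.MP_d6150d_an.B3bRD

/-! A generated chart: the computations. -/

namespace Pool.Agent.Lib.MP_d6150d_an.B3bR

theorem k0 : chk C 0x88282880821 [(-2199023255552, -1236950581248), (32298154065920,
    35184372088832), (0, 140737488355328)] = true := by
  decide +kernel

theorem k1 : chk C 0x88810 [(-1236950581248, -274877906944), (32298154065920, 33741263077376), (0,
    140737488355328)] = true := by
  decide +kernel

theorem k2 : chk C 0x88082 [(-1236950581248, -274877906944), (33741263077376, 34462817583104), (0,
    140737488355328)] = true := by
  decide +kernel

theorem k3 : chk C 0x8881282 [(-1236950581248, -755914244096), (34462817583104, 35184372088832), (0,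
    140737488355328)] = true := by
  decide +kernel

theorem k4 : chk C 0x8828281818181808181 [(-755914244096, -274877906944), (34462817583104,
    35184372088832), (0, 70368744177664)] = true := by
  decide +kernel

theorem k5 : chk C 0x8 [(-755914244096, -274877906944), (34462817583104, 34823594835968),
    (70368744177664, 140737488355328)] = true := by
  decide +kernel

theorem k6 : chk C 0x8818180882818180281 [(-755914244096, -274877906944), (34823594835968,
    35184372088832), (70368744177664, 140737488355328)] = true := by
  decide +kernel

theorem k7 : chk C 0x8 [(-2199023255552, -274877906944), (32298154065920, 33741263077376),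
    (140737488355328, 281474976710656)] = true := by
  decide +kernel

theorem k8 : chk C 0x8 [(-2199023255552, -274877906944), (33741263077376, 34462817583104),
    (140737488355328, 281474976710656)] = true := by
  decide +kernel

end Pool.Agent.Lib.MP_d6150d_an.B3bR
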