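import Pool.Agent.Lib.MP_d6150d_an.B3bRD

/-! A generated chart: the computations. -/

namespace Pool.Agent.Lib.MP_d6150d_an.B3bR

theorem k9 : chk C 0x880 [(-2199023255552, -1236950581248), (34462817583104, 35184372088832),
    (140737488355328, 281474976710656)] = true := by
  decide +kernel

theorem k10 : chk C 0x8 [(-1236950581248, -274877906944), (34462817583104, 34823594835968),
    (140737488355328, 281474976710656)] = true := by
  decide +kernel

theorem k11 : chk C 0x8 [(-1236950581248, -274877906944), (34823594835968, 35003983462400),
    (140737488355328, 281474976710656)] = true := by
  decide +kernel

theorem k12 : chk C 0x8880280888228180802 [(-1236950581248, -274877906944), (35003983462400,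
    35184372088832), (140737488355328, 281474976710656)] = true := by
  decide +kernel

end Pool.Agent.Lib.MP_d6150d_an.B3bR
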