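import Pool.Agent.Lib.MP_d6150d_an.B3bA
import Pool.Agent.Lib.MP_d6150d_an.B3bRK0
import Pool.Agent.Lib.MP_d6150d_an.B3bRK1

/-! A generated chart: the inequality. -/

namespace Pool.Agent.Lib.MP_d6150d_an.B3bR

set_option linter.unnecessarySeqFocus false
set_option linter.unusedTactic false
set_option linter.unusedVariables false

theorem gd : Gd C [(-2199023255552, -274877906944), (32298154065920, 35184372088832), (0,
    281474976710656)] := .split 2 (.split 0 (chk_sound k0) (.split 1 (chk_sound k1) (.split 1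
    (chk_sound k2) (.split 0 (chk_sound k3) (.split 2 (chk_sound k4) (.split 1 (chk_sound k5)
    (chk_sound k6))))))) (.split 1 (chk_sound k7) (.split 1 (chk_sound k8) (.split 0 (chk_sound k9)
    (.split 1 (chk_sound k10) (.split 1 (chk_sound k11) (chk_sound k12))))))

set_option maxRecDepth 100000 in
theorem eq {D F s t a b c A B e0 e1 e2 e3 x z y p mu i j n u q P Q R Y c0 c1 c2 c3 k4 k3 k2 k1 o K E
    : ℝ} (ht : t = s) (ha : a = pC D F) (hb : b = bC D F) (hc : c = qC D F) (hA : A = aC4 D F) (hB :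
    B = aC6 D F) (he0 : e0 = eC0 D F) (he1 : e1 = eC1 D F) (he2 : e2 = eC2 D F) (he3 : e3 = eC3 D F)
    (hx : x = Real.exp (t / 2)) (hz : z = Real.exp (-(t / 2))) (hy : y = Real.exp (-(F * t))) (hp :
    p = ph1 (t / 2)) (hmu : mu = muR D F t) (hi : i = (p * (1 + z) / 2 * (1 + D - D * z ^ 2))⁻¹) (hj
    : j = (1 + t ^ 2 * mu / 20)⁻¹) (hn : n = mu * j) (hu : u = t ^ 2 * n) (hq : q = (√mu)⁻¹) (hP : P
    = (1 + D) * x * i) (hQ : Q = (1 + 2 * D) * z * i) (hR : R = D * z ^ 3 * i) (hY : Y = mu * y * y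
    * x / 2 * i) (hc0 : c0 = j ^ 2) (hc1 : c1 = a * (j * u)) (hc2 : c2 = b * u ^ 2) (hc3 : c3 = c *
    u ^ 2) (hk4 : k4 = 16 * (c0 + c1 + c2)) (hk3 : k3 = 16 * c0 + 104 * c1 + 112 * c2 + 8 * c3) (hk2
    : k2 = (-4) * c0 + 68 * c1 + 160 * c2 + 28 * c3) (hk1 : k1 = (-14) * c1 + 28 * c2 + 10 * c3) (ho
    : o = 1) (hK : K = k4 * (Y ^ 4 * (pjR F P Q R).2.2) + k3 * (Y ^ 3 * (pjR F P Q R).2.1 * o ^ 2) +
    k2 * (Y ^ 2 * (pjR F P Q R).1 * o ^ 4) + k1 * (Y * o ^ 6)) (hE : E = A * (2 - j) + (1 - j) * (20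
    * B + (1 - j) * (e0 + j * (e1 + j * (e2 + j * e3))))) : outR prog 0 [D, F, s] = F * (K + 8 * c0
    * y * (mu * q)) - t * u * n * ((b + c) * (1 - y * j * (2 - j)) + F * y * j * E) := by
  replace ha : a = (mC D F).1 := ha.trans (mC_0 ..)
  replace hb : b = (mC D F).2.1 := hb.trans (mC_1 ..)
  replace hc : c = (mC D F).2.2.1 := hc.trans (mC_2 ..)
  replace hA : A = (mC D F).2.2.2.1 := hA.trans (mC_3 ..)
  replace hB : B = (mC D F).2.2.2.2.1 := hB.trans (mC_4 ..)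
  replace he0 : e0 = (mC D F).2.2.2.2.2.1 := he0.trans (mC_5 ..)
  replace he1 : e1 = (mC D F).2.2.2.2.2.2.1 := he1.trans (mC_6 ..)
  replace he2 : e2 = (mC D F).2.2.2.2.2.2.2.1 := he2.trans (mC_7 ..)
  replace he3 : e3 = (mC D F).2.2.2.2.2.2.2.2 := he3.trans (mC_8 ..)
  replace hx : x = (Real.exp (((Int.cast (1) : ℝ) / (Nat.cast 2 : ℝ)) * t)) := hx.trans (congrArg
    Real.exp (by push_cast <;> ring))
  replace hz : z = (Real.exp ((Int.cast (-1) : ℝ) * (((Int.cast (1) : ℝ) / (Nat.cast 2 : ℝ)) * t)))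
    := hz.trans (congrArg Real.exp (by push_cast <;> ring))
  replace hy : y = (Real.exp ((Int.cast (-1) : ℝ) * (F * t))) := hy.trans (congrArg Real.exp (by
    push_cast <;> ring))
  replace hp : p = (ph1 (((Int.cast (1) : ℝ) / (Nat.cast 2 : ℝ)) * t)) := hp.trans (congrArg ph1 (by
    push_cast <;> ring))
  replace hmu : mu = (mMu D F t) := hmu.trans (mMu_0 ..)
  replace hi : i = ((((Int.cast (1) : ℝ) / (Nat.cast 2 : ℝ)) * (p * ((Int.cast (1) : ℝ) + z))) *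
    (((Int.cast (1) : ℝ) + D) - (D * (z * z))))⁻¹ := hi.trans (by push_cast <;> ring)
  replace hj : j = ((Int.cast (1) : ℝ) + (((Int.cast (1) : ℝ) / (Nat.cast 20 : ℝ)) * ((t * t) *
    mu)))⁻¹ := hj.trans (by push_cast <;> ring)
  replace hn : n = (mu * j) := hn.trans (by push_cast <;> ring)
  replace hu : u = ((t * t) * n) := hu.trans (by push_cast <;> ring)
  replace hP : P = ((((Int.cast (1) : ℝ) + D) * x) * i) := hP.trans (by push_cast <;> ring)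
  replace hQ : Q = ((((Int.cast (1) : ℝ) + ((Int.cast (2) : ℝ) * D)) * z) * i) := hQ.trans (by
    push_cast <;> ring)
  replace hR : R = ((D * ((z * z) * z)) * i) := hR.trans (by push_cast <;> ring)
  replace hY : Y = ((((Int.cast (1) : ℝ) / (Nat.cast 2 : ℝ)) * (((mu * y) * y) * x)) * i) :=
    hY.trans (by push_cast <;> ring)
  replace hc0 : c0 = (j * j) := hc0.trans (by push_cast <;> ring)
  replace hc1 : c1 = (a * (j * u)) := hc1.trans (by push_cast <;> ring)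
  replace hc2 : c2 = (b * (u * u)) := hc2.trans (by push_cast <;> ring)
  replace hc3 : c3 = (c * (u * u)) := hc3.trans (by push_cast <;> ring)
  replace hk4 : k4 = ((Int.cast (16) : ℝ) * ((c0 + c1) + c2)) := hk4.trans (by push_cast <;> ring)
  replace hk3 : k3 = (((((Int.cast (16) : ℝ) * c0) + ((Int.cast (104) : ℝ) * c1)) + ((Int.cast (112)
    : ℝ) * c2)) + ((Int.cast (8) : ℝ) * c3)) := hk3.trans (by push_cast <;> ring)
  replace hk2 : k2 = (((((Int.cast (-4) : ℝ) * c0) + ((Int.cast (68) : ℝ) * c1)) + ((Int.cast (160)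
    : ℝ) * c2)) + ((Int.cast (28) : ℝ) * c3)) := hk2.trans (by push_cast <;> ring)
  replace hk1 : k1 = ((((Int.cast (-14) : ℝ) * c1) + ((Int.cast (28) : ℝ) * c2)) + ((Int.cast (10) :
    ℝ) * c3)) := hk1.trans (by push_cast <;> ring)
  replace ho : o = (Int.cast (1) : ℝ) := ho.trans (by push_cast <;> ring)
  replace hK : K = (mK4 F P Q R Y o k4 k3 k2 k1) := hK.trans (mK4_0 ..)
  replace hE : E = ((A * ((Int.cast (2) : ℝ) - j)) + (((Int.cast (1) : ℝ) - j) * (((Int.cast (20) :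
    ℝ) * B) + (((Int.cast (1) : ℝ) - j) * (e0 + (j * (e1 + (j * (e2 + (j * e3)))))))))) := hE.trans
    (by push_cast <;> ring)
  have e0 : ((F * (K + ((((Int.cast (8) : ℝ) * c0) * y) * (mu * q)))) - (((t * u) * n) * (((b + c) *
    ((Int.cast (1) : ℝ) - ((y * j) * ((Int.cast (2) : ℝ) - j)))) + (((F * y) * j) * E)))) = F * (K +
    8 * c0 * y * (mu * q)) - t * u * n * ((b + c) * (1 - y * j * (2 - j)) + F * y * j * E) := by
    push_cast <;> ring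
  subst ht ha hb hc hA hB he0 he1 he2 he3 hx hz hy hp hmu hi hj hn hu hq hP hQ hR hY hc0 hc1 hc2 hc3
    hk4 hk3 hk2 hk1 ho hK hE
  exact Eq.trans rfl e0

theorem l0 : ((-2199023255552 : ℤ) : ℝ) / 2 ^ 47 = -1 / 64 := by norm_num
theorem u0 : (-1 / 512 : ℝ) = ((-274877906944 : ℤ) : ℝ) / 2 ^ 47 := by norm_num
theorem l1 : ((32298154065920 : ℤ) : ℝ) / 2 ^ 47 = 235 / 1024 := by norm_num
theorem u1 : (1 / 4 : ℝ) = ((35184372088832 : ℤ) : ℝ) / 2 ^ 47 := by norm_num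
theorem l2 : ((0 : ℤ) : ℝ) / 2 ^ 47 = 0 := by norm_num
theorem u2 : (2 : ℝ) = ((281474976710656 : ℤ) : ℝ) / 2 ^ 47 := by norm_num

theorem out0 (V2 : ∀ D F : ℝ, -1 / 64 ≤ D → D ≤ -1 / 512 → 235 / 1024 ≤ F → F ≤ 1 / 4 → (fun s ↦
    outR prog 0 [D, F, s]) =O[nhdsWithin 0 (Set.Ioi 0)] fun s : ℝ ↦ s ^ 6) {D F s : ℝ} (a0 : -1 / 64
    ≤ D) (b0 : D ≤ -1 / 512) (a1 : 235 / 1024 ≤ F) (b1 : F ≤ 1 / 4) (a2 : 0 ≤ s) (b2 : s ≤ 2) (p2 :
    0 < s) : 0 < outR prog 0 [D, F, s] :=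
  gd 0 (by decide) [D, F, s] (.cons ⟨l0.le.trans a0, b0.trans u0.le⟩ (.cons ⟨l1.le.trans a1,
    b1.trans u1.le⟩ (.cons ⟨l2.le.trans a2, b2.trans u2.le⟩ (.nil)))) ⟨nofun, nofun, fun _ ↦ p2,
    trivial⟩ (List.forall_mem_nil _) (⟨fun _ ↦ allB_iff.2 fun _ _ ↦ trivial, fun y0 a0 b0 ↦ ⟨fun _ ↦
    allB_iff.2 fun _ _ ↦ trivial, fun y1 a1 b1 ↦ ⟨fun _ ↦ V2 y0 y1 (l0.ge.trans a0) (b0.trans u0.ge)
    (l1.ge.trans a1) (b1.trans u1.ge), fun _ _ _ ↦ trivial⟩⟩⟩) (nofun)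

end Pool.Agent.Lib.MP_d6150d_an.B3bR
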