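import Pool.Agent.Lib.MP_d6150d_an.B3bSD

/-! A generated chart: the computations. -/

namespace Pool.Agent.Lib.MP_d6150d_an.B3bS

theorem k0 : chk C 0x88283818083 [(-2199023255552, -274877906944), (32369622321725, 35184372088832),
    (0, 140737488355328), (0, 22539988369408)] = true := by
  decide +kernel

end Pool.Agent.Lib.MP_d6150d_an.B3bS
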