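import Pool.Agent.Lib.MP_d6150d_an.B3bA
import Pool.Agent.Lib.MP_d6150d_an.B3bSK0

/-! A generated chart: the inequality. -/

namespace Pool.Agent.Lib.MP_d6150d_an.B3bS

set_option linter.unnecessarySeqFocus false
set_option linter.unusedTactic false
set_option linter.unusedVariables false

theorem gd : Gd C [(-2199023255552, -274877906944), (32369622321725, 35184372088832), (0,
    140737488355328), (0, 22539988369408)] := chk_sound k0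

set_option maxRecDepth 100000 in
theorem eq {D F h y a b c A B e0 e1 e2 e3 z p r m n o i L k e j q Q R Y a1 a2 b1 b2 g1 p2 u3 u4 c0
    c1 c2 c3 K E : ℝ} (ha : a = pC D F) (hb : b = bC D F) (hc : c = qC D F) (hA : A = aC4 D F) (hB :
    B = aC6 D F) (he0 : e0 = eC0 D F) (he1 : e1 = eC1 D F) (he2 : e2 = eC2 D F) (he3 : e3 = eC3 D F)
    (hz : z = y ^ 2) (hp : p = z * h) (hr : r = z * p) (hm : m = (-2) * (1 + 2 * D) / (1 - 2 * F) *
    (1 - p) + D / (1 - F) * (1 - p * r)) (hn : n = (1 + D) / F * (1 - z) + m * z) (ho : o = 1 + 2 *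
    D - D * r) (hi : i = (1 + D - r * o)⁻¹) (hL : L = F * n * i) (hk : k = n * i * (1 + D - m * F -
    p * o)) (he : e = (20 * z + n)⁻¹) (hj : j = 20 * z * e) (hq : q = (√n)⁻¹) (hQ : Q = (1 + 2 * D)
    * i) (hR : R = D * r * i) (hY : Y = n * i / 2) (ha1 : a1 = Q - 2 * R) (ha2 : a2 = 3 * Q - 4 * R)
    (hb1 : b1 = (2 - F) * a1 - a2) (hb2 : b2 = (2 - F) * a2 - (7 * Q - 8 * R)) (hg1 : g1 = b1 - (4 -
    3 * F) * a1) (hp2 : p2 = -F - r * a1) (hu3 : u3 = g1 + 6 * a1 - 3 * a1 * p2) (hu4 : u4 = 2 * (g1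
    - 3 * b1) + a1 * (3 * F ^ 2 + r * (g1 - 3 * b1)) + (4 - 3 * F) * b1 + b2 + 12 * a1 - 3 * a2 * p2
    - (4 + 5 * F) * u3 - 5 * a1 * (3 * F ^ 2 + r * u3)) (hc0 : c0 = z ^ 2) (hc1 : c1 = a * (z * n))
    (hc2 : c2 = b * n ^ 2) (hc3 : c3 = c * n ^ 2) (hK : K = L ^ 2 * (1 + L * (6 - 15 * L)) + a * k *
    L * (15 * L ^ 2 - 24 * L - 7) + k ^ 2 * (b * (12 * L - 15 * L ^ 2 - 1) + c * (3 * L - 1)) + F *
    h * Y ^ 2 * (Y * (16 * (c0 + c1 + c2) * Y * u4 + (16 * c0 + 104 * c1 + 112 * c2 + 8 * c3) * u3)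
    - ((-4) * c0 + 68 * c1 + 160 * c2 + 28 * c3) * a1)) (hE : E = A * (2 - j) + (1 - j) * (20 * B +
    (1 - j) * (e0 + j * (e1 + j * (e2 + j * e3))))) : outR prog 0 [D, F, h, y] = y * (K + 8 * F * (n
    * q)) - 20 * n ^ 2 * e * (F * E - (b + c) * (2 - j)) := by
  replace ha : a = (mC D F).1 := ha.trans (mC_0 ..)
  replace hb : b = (mC D F).2.1 := hb.trans (mC_1 ..)
  replace hc : c = (mC D F).2.2.1 := hc.trans (mC_2 ..)
  replace hA : A = (mC D F).2.2.2.1 := hA.trans (mC_3 ..)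
  replace hB : B = (mC D F).2.2.2.2.1 := hB.trans (mC_4 ..)
  replace he0 : e0 = (mC D F).2.2.2.2.2.1 := he0.trans (mC_5 ..)
  replace he1 : e1 = (mC D F).2.2.2.2.2.2.1 := he1.trans (mC_6 ..)
  replace he2 : e2 = (mC D F).2.2.2.2.2.2.2.1 := he2.trans (mC_7 ..)
  replace he3 : e3 = (mC D F).2.2.2.2.2.2.2.2 := he3.trans (mC_8 ..)
  replace hz : z = (y * y) := hz.trans (by push_cast <;> ring)
  replace hp : p = (z * h) := hp.trans (by push_cast <;> ring)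
  replace hr : r = (z * p) := hr.trans (by push_cast <;> ring)
  replace hm : m = (((((Int.cast (-2) : ℝ) * ((Int.cast (1) : ℝ) + ((Int.cast (2) : ℝ) * D))) *
    ((Int.cast (1) : ℝ) - ((Int.cast (2) : ℝ) * F))⁻¹) * ((Int.cast (1) : ℝ) - p)) + ((D *
    ((Int.cast (1) : ℝ) - F)⁻¹) * ((Int.cast (1) : ℝ) - (p * r)))) := hm.trans (by push_cast <;>
    ring)
  replace hn : n = (((((Int.cast (1) : ℝ) + D) * F⁻¹) * ((Int.cast (1) : ℝ) - z)) + (m * z)) :=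
    hn.trans (by push_cast <;> ring)
  replace ho : o = (((Int.cast (1) : ℝ) + ((Int.cast (2) : ℝ) * D)) - (D * r)) := ho.trans (by
    push_cast <;> ring)
  replace hi : i = (((Int.cast (1) : ℝ) + D) - (r * o))⁻¹ := hi.trans (by push_cast <;> ring)
  replace hL : L = ((F * n) * i) := hL.trans (by push_cast <;> ring)
  replace hk : k = ((n * i) * ((((Int.cast (1) : ℝ) + D) - (m * F)) - (p * o))) := hk.trans (by
    push_cast <;> ring)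
  replace he : e = (((Int.cast (20) : ℝ) * z) + n)⁻¹ := he.trans (by push_cast <;> ring)
  replace hj : j = (((Int.cast (20) : ℝ) * z) * e) := hj.trans (by push_cast <;> ring)
  replace hQ : Q = (((Int.cast (1) : ℝ) + ((Int.cast (2) : ℝ) * D)) * i) := hQ.trans (by push_cast
    <;> ring)
  replace hR : R = ((D * r) * i) := hR.trans (by push_cast <;> ring)
  replace hY : Y = (((Int.cast (1) : ℝ) / (Nat.cast 2 : ℝ)) * (n * i)) := hY.trans (by push_cast <;>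
    ring)
  replace ha1 : a1 = (Q - ((Int.cast (2) : ℝ) * R)) := ha1.trans (by push_cast <;> ring)
  replace ha2 : a2 = (((Int.cast (3) : ℝ) * Q) - ((Int.cast (4) : ℝ) * R)) := ha2.trans (by
    push_cast <;> ring)
  replace hb1 : b1 = ((((Int.cast (2) : ℝ) - F) * a1) - a2) := hb1.trans (by push_cast <;> ring)
  replace hb2 : b2 = ((((Int.cast (2) : ℝ) - F) * a2) - (((Int.cast (7) : ℝ) * Q) - ((Int.cast (8) :
    ℝ) * R))) := hb2.trans (by push_cast <;> ring)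
  replace hg1 : g1 = (b1 - (((Int.cast (4) : ℝ) - ((Int.cast (3) : ℝ) * F)) * a1)) := hg1.trans (by
    push_cast <;> ring)
  replace hp2 : p2 = (((Int.cast (-1) : ℝ) * F) - (r * a1)) := hp2.trans (by push_cast <;> ring)
  replace hu3 : u3 = ((g1 + ((Int.cast (6) : ℝ) * a1)) - (((Int.cast (3) : ℝ) * a1) * p2)) :=
    hu3.trans (by push_cast <;> ring)
  replace hu4 : u4 = (((((((((Int.cast (2) : ℝ) * (g1 - ((Int.cast (3) : ℝ) * b1))) + (a1 *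
    (((Int.cast (3) : ℝ) * (F * F)) + (r * (g1 - ((Int.cast (3) : ℝ) * b1)))))) + (((Int.cast (4) :
    ℝ) - ((Int.cast (3) : ℝ) * F)) * b1)) + b2) + ((Int.cast (12) : ℝ) * a1)) - (((Int.cast (3) : ℝ)
    * a2) * p2)) - (((Int.cast (4) : ℝ) + ((Int.cast (5) : ℝ) * F)) * u3)) - (((Int.cast (5) : ℝ) *
    a1) * (((Int.cast (3) : ℝ) * (F * F)) + (r * u3)))) := hu4.trans (by push_cast <;> ring)
  replace hc0 : c0 = (z * z) := hc0.trans (by push_cast <;> ring)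
  replace hc1 : c1 = (a * (z * n)) := hc1.trans (by push_cast <;> ring)
  replace hc2 : c2 = (b * (n * n)) := hc2.trans (by push_cast <;> ring)
  replace hc3 : c3 = (c * (n * n)) := hc3.trans (by push_cast <;> ring)
  replace hK : K = (((((L * L) * ((Int.cast (1) : ℝ) + (L * ((Int.cast (6) : ℝ) - ((Int.cast (15) :
    ℝ) * L))))) + (((a * k) * L) * ((((Int.cast (15) : ℝ) * (L * L)) - ((Int.cast (24) : ℝ) * L)) -
    (Int.cast (7) : ℝ)))) + ((k * k) * ((b * ((((Int.cast (12) : ℝ) * L) - ((Int.cast (15) : ℝ) * (L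
    * L))) - (Int.cast (1) : ℝ))) + (c * (((Int.cast (3) : ℝ) * L) - (Int.cast (1) : ℝ)))))) + (((F
    * h) * (Y * Y)) * ((Y * (((((Int.cast (16) : ℝ) * ((c0 + c1) + c2)) * Y) * u4) + ((((((Int.cast
    (16) : ℝ) * c0) + ((Int.cast (104) : ℝ) * c1)) + ((Int.cast (112) : ℝ) * c2)) + ((Int.cast (8) :
    ℝ) * c3)) * u3))) - ((((((Int.cast (-4) : ℝ) * c0) + ((Int.cast (68) : ℝ) * c1)) + ((Int.cast
    (160) : ℝ) * c2)) + ((Int.cast (28) : ℝ) * c3)) * a1)))) := hK.trans (by push_cast <;> ring)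
  replace hE : E = ((A * ((Int.cast (2) : ℝ) - j)) + (((Int.cast (1) : ℝ) - j) * (((Int.cast (20) :
    ℝ) * B) + (((Int.cast (1) : ℝ) - j) * (e0 + (j * (e1 + (j * (e2 + (j * e3)))))))))) := hE.trans
    (by push_cast <;> ring)
  have e0 : ((y * (K + (((Int.cast (8) : ℝ) * F) * (n * q)))) - ((((Int.cast (20) : ℝ) * (n * n)) *
    e) * ((F * E) - ((b + c) * ((Int.cast (2) : ℝ) - j))))) = y * (K + 8 * F * (n * q)) - 20 * n ^ 2
    * e * (F * E - (b + c) * (2 - j)) := by push_cast <;> ring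
  subst ha hb hc hA hB he0 he1 he2 he3 hz hp hr hm hn ho hi hL hk he hj hq hQ hR hY ha1 ha2 hb1 hb2
    hg1 hp2 hu3 hu4 hc0 hc1 hc2 hc3 hK hE
  exact Eq.trans rfl e0

theorem l0 : ((-2199023255552 : ℤ) : ℝ) / 2 ^ 47 = -1 / 64 := by norm_num
theorem u0 : (-1 / 512 : ℝ) = ((-274877906944 : ℤ) : ℝ) / 2 ^ 47 := by norm_num
theorem l1 : ((32369622321725 : ℤ) : ℝ) / 2 ^ 47 ≤ 23 / 100 := by norm_num
theorem u1 : (1 / 4 : ℝ) = ((35184372088832 : ℤ) : ℝ) / 2 ^ 47 := by norm_num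
theorem l2 : ((0 : ℤ) : ℝ) / 2 ^ 47 = 0 := by norm_num
theorem u2 : (1 : ℝ) = ((140737488355328 : ℤ) : ℝ) / 2 ^ 47 := by norm_num
theorem l3 : ((0 : ℤ) : ℝ) / 2 ^ 47 = 0 := by norm_num
theorem u3 : (41 / 256 : ℝ) = ((22539988369408 : ℤ) : ℝ) / 2 ^ 47 := by norm_num

theorem out0 {D F h y : ℝ} (a0 : -1 / 64 ≤ D) (b0 : D ≤ -1 / 512) (a1 : 23 / 100 ≤ F) (b1 : F ≤ 1 /
    4) (a2 : 0 ≤ h) (b2 : h ≤ 1) (a3 : 0 ≤ y) (b3 : y ≤ 41 / 256) : 0 < outR prog 0 [D, F, h, y] :=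
  gd 0 (by decide) [D, F, h, y] (.cons ⟨l0.le.trans a0, b0.trans u0.le⟩ (.cons ⟨l1.trans a1,
    b1.trans u1.le⟩ (.cons ⟨l2.le.trans a2, b2.trans u2.le⟩ (.cons ⟨l3.le.trans a3, b3.trans u3.le⟩
    (.nil))))) ⟨nofun, nofun, nofun, nofun, trivial⟩ (List.forall_mem_nil _) (Van.of0 rfl) (nofun)

theorem pos0 {D F h y a b c A B e0 e1 e2 e3 z p r m n o i L k e j q Q R Y a1 a2 b1 b2 g1 p2 u3 u4 c0
    c1 c2 c3 K E : ℝ} (ha : a = pC D F) (hb : b = bC D F) (hc : c = qC D F) (hA : A = aC4 D F) (hB :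
    B = aC6 D F) (he0 : e0 = eC0 D F) (he1 : e1 = eC1 D F) (he2 : e2 = eC2 D F) (he3 : e3 = eC3 D F)
    (hz : z = y ^ 2) (hp : p = z * h) (hr : r = z * p) (hm : m = (-2) * (1 + 2 * D) / (1 - 2 * F) *
    (1 - p) + D / (1 - F) * (1 - p * r)) (hn : n = (1 + D) / F * (1 - z) + m * z) (ho : o = 1 + 2 *
    D - D * r) (hi : i = (1 + D - r * o)⁻¹) (hL : L = F * n * i) (hk : k = n * i * (1 + D - m * F -
    p * o)) (he : e = (20 * z + n)⁻¹) (hj : j = 20 * z * e) (hq : q = (√n)⁻¹) (hQ : Q = (1 + 2 * D)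
    * i) (hR : R = D * r * i) (hY : Y = n * i / 2) (ha1 : a1 = Q - 2 * R) (ha2 : a2 = 3 * Q - 4 * R)
    (hb1 : b1 = (2 - F) * a1 - a2) (hb2 : b2 = (2 - F) * a2 - (7 * Q - 8 * R)) (hg1 : g1 = b1 - (4 -
    3 * F) * a1) (hp2 : p2 = -F - r * a1) (hu3 : u3 = g1 + 6 * a1 - 3 * a1 * p2) (hu4 : u4 = 2 * (g1
    - 3 * b1) + a1 * (3 * F ^ 2 + r * (g1 - 3 * b1)) + (4 - 3 * F) * b1 + b2 + 12 * a1 - 3 * a2 * p2
    - (4 + 5 * F) * u3 - 5 * a1 * (3 * F ^ 2 + r * u3)) (hc0 : c0 = z ^ 2) (hc1 : c1 = a * (z * n))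
    (hc2 : c2 = b * n ^ 2) (hc3 : c3 = c * n ^ 2) (hK : K = L ^ 2 * (1 + L * (6 - 15 * L)) + a * k *
    L * (15 * L ^ 2 - 24 * L - 7) + k ^ 2 * (b * (12 * L - 15 * L ^ 2 - 1) + c * (3 * L - 1)) + F *
    h * Y ^ 2 * (Y * (16 * (c0 + c1 + c2) * Y * u4 + (16 * c0 + 104 * c1 + 112 * c2 + 8 * c3) * u3)
    - ((-4) * c0 + 68 * c1 + 160 * c2 + 28 * c3) * a1)) (hE : E = A * (2 - j) + (1 - j) * (20 * B +
    (1 - j) * (e0 + j * (e1 + j * (e2 + j * e3))))) (a0 : -1 / 64 ≤ D) (b0 : D ≤ -1 / 512) (a1 : 23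
    / 100 ≤ F) (b1 : F ≤ 1 / 4) (a2 : 0 ≤ h) (b2 : h ≤ 1) (a3 : 0 ≤ y) (b3 : y ≤ 41 / 256) : 0 < y *
    (K + 8 * F * (n * q)) - 20 * n ^ 2 * e * (F * E - (b + c) * (2 - j)) :=
  have e := eq ha hb hc hA hB he0 he1 he2 he3 hz hp hr hm hn ho hi hL hk he hj hq hQ hR hY ha1 ha2
    hb1 hb2 hg1 hp2 hu3 hu4 hc0 hc1 hc2 hc3 hK hE
  (out0 a0 b0 a1 b1 a2 b2 a3 b3).trans_eq e

end Pool.Agent.Lib.MP_d6150d_an.B3bS
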