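import Pool.Agent.Lib.MP_d6150d_an.B3bTD

/-! A generated chart: the computations. -/

namespace Pool.Agent.Lib.MP_d6150d_an.B3bT

theorem k0 : chk C 0x883808803 [(-2199023255552, -1236950581248), (32369622321725, 35184372088832),
    (0, 140737488355328), (0, 17867063951360)] = true := by
  decide +kernel

theorem k1 : chk C 0x8818388308803 [(-1236950581248, -755914244096), (32369622321725,
    35184372088832), (0, 140737488355328), (0, 17867063951360)] = true := by
  decide +kernel

theorem k2 : chk C 0x88182881088038803 [(-755914244096, -515396075520), (32369622321725,
    35184372088832), (0, 140737488355328), (0, 17867063951360)] = true := by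
  decide +kernel

theorem k3 : chk C 0x88088038830 [(-515396075520, -274877906944), (32369622321725, 35184372088832),
    (0, 140737488355328), (0, 8933531975680)] = true := by
  decide +kernel

theorem k4 : chk C 0x88083881283 [(-515396075520, -395136991232), (32369622321725, 35184372088832),
    (0, 140737488355328), (8933531975680, 17867063951360)] = true := by
  decide +kernel

theorem k5 : chk C 0x88380 [(-395136991232, -274877906944), (32369622321725, 35184372088832), (0,
    140737488355328), (8933531975680, 13400297963520)] = true := by
  decide +kernel

theorem k6 : chk C 0x88280 [(-395136991232, -274877906944), (32369622321725, 35184372088832), (0,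
    70368744177664), (13400297963520, 17867063951360)] = true := by
  decide +kernel

end Pool.Agent.Lib.MP_d6150d_an.B3bT
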