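import Pool.Agent.Lib.MP_d6150d_an.B3bTD

/-! A generated chart: the computations. -/

namespace Pool.Agent.Lib.MP_d6150d_an.B3bT

theorem k7 : chk C 0x88283 [(-395136991232, -335007449088), (32369622321725, 35184372088832),
    (70368744177664, 140737488355328), (13400297963520, 17867063951360)] = true := by
  decide +kernel

theorem k8 : chk C 0x881 [(-335007449088, -274877906944), (32369622321725, 35184372088832),
    (70368744177664, 140737488355328), (13400297963520, 15633680957440)] = true := by
  decide +kernel

theorem k9 : chk C 0x8 [(-335007449088, -274877906944), (32369622321725, 35184372088832),
    (70368744177664, 105553116266496), (15633680957440, 17867063951360)] = true := by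
  decide +kernel

theorem k10 : chk C 0x8888808318218018382 [(-335007449088, -274877906944), (32369622321725,
    33776997205278), (105553116266496, 140737488355328), (15633680957440, 17867063951360)] = true :=
    by
  decide +kernel

theorem k11 : chk C 0x8 [(-335007449088, -274877906944), (33776997205278, 35184372088832),
    (105553116266496, 140737488355328), (15633680957440, 17867063951360)] = true := by
  decide +kernel

end Pool.Agent.Lib.MP_d6150d_an.B3bT
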