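import Pool.Agent.Lib.MP_d6150d_an.B3bA
import Pool.Agent.Lib.MP_d6150d_an.B3bTK0
import Pool.Agent.Lib.MP_d6150d_an.B3bTK1

/-! A generated chart: the inequality. -/

namespace Pool.Agent.Lib.MP_d6150d_an.B3bT

set_option linter.unnecessarySeqFocus false
set_option linter.unusedTactic false
set_option linter.unusedVariables false

theorem gd : Gd C [(-2199023255552, -274877906944), (32369622321725, 35184372088832), (0,
    140737488355328), (0, 17867063951360)] := .split 0 (chk_sound k0) (.split 0 (chk_sound k1)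
    (.split 0 (chk_sound k2) (.split 3 (chk_sound k3) (.split 0 (chk_sound k4) (.split 3 (chk_sound
    k5) (.split 2 (chk_sound k6) (.split 0 (chk_sound k7) (.split 3 (chk_sound k8) (.split 2
    (chk_sound k9) (.split 1 (chk_sound k10) (chk_sound k11)))))))))))

set_option maxRecDepth 100000 in
theorem eq {D F h y a b c A B e0 e1 e2 e3 s x z M i e j u l P Q R Y c0 c1 c2 c3 k4 k3 k2 k1 o K E
    z34 : ℝ} (ha : a = pC D F) (hb : b = bC D F) (hc : c = qC D F) (hA : A = aC4 D F) (hB : B = aC6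
    D F) (he0 : e0 = eC0 D F) (he1 : e1 = eC1 D F) (he2 : e2 = eC2 D F) (he3 : e3 = eC3 D F) (hs : s
    = y ^ 4 * h) (hx : x = y ^ 3 * h) (hz : z = x ^ 2) (hM : M = (1 + D) / F * (s ^ 2 - z) + 2 * (1
    + 2 * D) / (1 - 2 * F) * (s - z) - D / (1 - F) * (1 - z)) (hi : i = -(-D + s * (1 + 2 * D - (1 +
    D) * s))⁻¹) (he : e = (20 * z + M)⁻¹) (hj : j = 20 * z * e) (hu : u = 20 * M * e) (hl : l = 20 *
    (x * h * y ^ 2) * e) (hP : P = (1 + D) * s ^ 2 * i) (hQ : Q = (1 + 2 * D) * s * i) (hR : R = D *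
    i) (hY : Y = M / 2 * i) (hc0 : c0 = j ^ 2) (hc1 : c1 = a * (j * u)) (hc2 : c2 = b * u ^ 2) (hc3
    : c3 = c * u ^ 2) (hk4 : k4 = 16 * (c0 + c1 + c2)) (hk3 : k3 = 16 * c0 + 104 * c1 + 112 * c2 + 8
    * c3) (hk2 : k2 = (-4) * c0 + 68 * c1 + 160 * c2 + 28 * c3) (hk1 : k1 = (-14) * c1 + 28 * c2 +
    10 * c3) (ho : o = 1) (hK : K = k4 * (Y ^ 4 * (pjR F P Q R).2.2) + k3 * (Y ^ 3 * (pjR F P Q
    R).2.1 * o ^ 2) + k2 * (Y ^ 2 * (pjR F P Q R).1 * o ^ 4) + k1 * (Y * o ^ 6)) (hE : E = A * (2 -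
    j) + (1 - j) * (20 * B + (1 - j) * (e0 + j * (e1 + j * (e2 + j * e3))))) (hz34 : z34 = (√M)⁻¹) :
    outR prog 0 [D, F, h, y] = u ^ 2 * ((b + c) * (1 - l * (2 - j)) + F * l * E) - F * K + 8 * F * l
    * (20 * x * e * (M * z34)) := by
  replace ha : a = (mC D F).1 := ha.trans (mC_0 ..)
  replace hb : b = (mC D F).2.1 := hb.trans (mC_1 ..)
  replace hc : c = (mC D F).2.2.1 := hc.trans (mC_2 ..)
  replace hA : A = (mC D F).2.2.2.1 := hA.trans (mC_3 ..)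
  replace hB : B = (mC D F).2.2.2.2.1 := hB.trans (mC_4 ..)
  replace he0 : e0 = (mC D F).2.2.2.2.2.1 := he0.trans (mC_5 ..)
  replace he1 : e1 = (mC D F).2.2.2.2.2.2.1 := he1.trans (mC_6 ..)
  replace he2 : e2 = (mC D F).2.2.2.2.2.2.2.1 := he2.trans (mC_7 ..)
  replace he3 : e3 = (mC D F).2.2.2.2.2.2.2.2 := he3.trans (mC_8 ..)
  replace hs : s = (((y * y) * (y * y)) * h) := hs.trans (by push_cast <;> ring)
  replace hx : x = (((y * y) * y) * h) := hx.trans (by push_cast <;> ring)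
  replace hz : z = (x * x) := hz.trans (by push_cast <;> ring)
  replace hM : M = ((((((Int.cast (1) : ℝ) + D) * F⁻¹) * ((s * s) - z)) + ((((Int.cast (2) : ℝ) *
    ((Int.cast (1) : ℝ) + ((Int.cast (2) : ℝ) * D))) * ((Int.cast (1) : ℝ) - ((Int.cast (2) : ℝ) *
    F))⁻¹) * (s - z))) - ((D * ((Int.cast (1) : ℝ) - F)⁻¹) * ((Int.cast (1) : ℝ) - z))) := hM.trans
    (by push_cast <;> ring)
  replace hi : i = ((Int.cast (-1) : ℝ) * (((Int.cast (-1) : ℝ) * D) + (s * (((Int.cast (1) : ℝ) +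
    ((Int.cast (2) : ℝ) * D)) - (((Int.cast (1) : ℝ) + D) * s))))⁻¹) := hi.trans (by push_cast <;>
    ring)
  replace he : e = (((Int.cast (20) : ℝ) * z) + M)⁻¹ := he.trans (by push_cast <;> ring)
  replace hj : j = (((Int.cast (20) : ℝ) * z) * e) := hj.trans (by push_cast <;> ring)
  replace hu : u = (((Int.cast (20) : ℝ) * M) * e) := hu.trans (by push_cast <;> ring)
  replace hl : l = (((Int.cast (20) : ℝ) * ((x * h) * (y * y))) * e) := hl.trans (by push_cast <;>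
    ring)
  replace hP : P = ((((Int.cast (1) : ℝ) + D) * (s * s)) * i) := hP.trans (by push_cast <;> ring)
  replace hQ : Q = ((((Int.cast (1) : ℝ) + ((Int.cast (2) : ℝ) * D)) * s) * i) := hQ.trans (by
    push_cast <;> ring)
  replace hR : R = (D * i) := hR.trans (by push_cast <;> ring)
  replace hY : Y = ((((Int.cast (1) : ℝ) / (Nat.cast 2 : ℝ)) * M) * i) := hY.trans (by push_cast <;>
    ring)
  replace hc0 : c0 = (j * j) := hc0.trans (by push_cast <;> ring)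
  replace hc1 : c1 = (a * (j * u)) := hc1.trans (by push_cast <;> ring)
  replace hc2 : c2 = (b * (u * u)) := hc2.trans (by push_cast <;> ring)
  replace hc3 : c3 = (c * (u * u)) := hc3.trans (by push_cast <;> ring)
  replace hk4 : k4 = ((Int.cast (16) : ℝ) * ((c0 + c1) + c2)) := hk4.trans (by push_cast <;> ring)
  replace hk3 : k3 = (((((Int.cast (16) : ℝ) * c0) + ((Int.cast (104) : ℝ) * c1)) + ((Int.cast (112)
    : ℝ) * c2)) + ((Int.cast (8) : ℝ) * c3)) := hk3.trans (by push_cast <;> ring)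
  replace hk2 : k2 = (((((Int.cast (-4) : ℝ) * c0) + ((Int.cast (68) : ℝ) * c1)) + ((Int.cast (160)
    : ℝ) * c2)) + ((Int.cast (28) : ℝ) * c3)) := hk2.trans (by push_cast <;> ring)
  replace hk1 : k1 = ((((Int.cast (-14) : ℝ) * c1) + ((Int.cast (28) : ℝ) * c2)) + ((Int.cast (10) :
    ℝ) * c3)) := hk1.trans (by push_cast <;> ring)
  replace ho : o = (Int.cast (1) : ℝ) := ho.trans (by push_cast <;> ring)
  replace hK : K = (mK4 F P Q R Y o k4 k3 k2 k1) := hK.trans (mK4_0 ..)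
  replace hE : E = ((A * ((Int.cast (2) : ℝ) - j)) + (((Int.cast (1) : ℝ) - j) * (((Int.cast (20) :
    ℝ) * B) + (((Int.cast (1) : ℝ) - j) * (e0 + (j * (e1 + (j * (e2 + (j * e3)))))))))) := hE.trans
    (by push_cast <;> ring)
  have e0 : ((((u * u) * (((b + c) * ((Int.cast (1) : ℝ) - (l * ((Int.cast (2) : ℝ) - j)))) + ((F *
    l) * E))) - (F * K)) + ((((Int.cast (8) : ℝ) * F) * l) * ((((Int.cast (20) : ℝ) * x) * e) * (M *
    z34)))) = u ^ 2 * ((b + c) * (1 - l * (2 - j)) + F * l * E) - F * K + 8 * F * l * (20 * x * e *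
    (M * z34)) := by push_cast <;> ring
  subst ha hb hc hA hB he0 he1 he2 he3 hs hx hz hM hi he hj hu hl hP hQ hR hY hc0 hc1 hc2 hc3 hk4
    hk3 hk2 hk1 ho hK hE hz34
  exact Eq.trans rfl e0

theorem l0 : ((-2199023255552 : ℤ) : ℝ) / 2 ^ 47 = -1 / 64 := by norm_num
theorem u0 : (-1 / 512 : ℝ) = ((-274877906944 : ℤ) : ℝ) / 2 ^ 47 := by norm_num
theorem l1 : ((32369622321725 : ℤ) : ℝ) / 2 ^ 47 ≤ 23 / 100 := by norm_num
theorem u1 : (1 / 4 : ℝ) = ((35184372088832 : ℤ) : ℝ) / 2 ^ 47 := by norm_num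
theorem l2 : ((0 : ℤ) : ℝ) / 2 ^ 47 = 0 := by norm_num
theorem u2 : (1 : ℝ) = ((140737488355328 : ℤ) : ℝ) / 2 ^ 47 := by norm_num
theorem l3 : ((0 : ℤ) : ℝ) / 2 ^ 47 = 0 := by norm_num
theorem u3 : (65 / 512 : ℝ) = ((17867063951360 : ℤ) : ℝ) / 2 ^ 47 := by norm_num

theorem out0 {D F h y : ℝ} (a0 : -1 / 64 ≤ D) (b0 : D ≤ -1 / 512) (a1 : 23 / 100 ≤ F) (b1 : F ≤ 1 /
    4) (a2 : 0 ≤ h) (b2 : h ≤ 1) (a3 : 0 ≤ y) (b3 : y ≤ 65 / 512) : 0 < outR prog 0 [D, F, h, y] :=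
  gd 0 (by decide) [D, F, h, y] (.cons ⟨l0.le.trans a0, b0.trans u0.le⟩ (.cons ⟨l1.trans a1,
    b1.trans u1.le⟩ (.cons ⟨l2.le.trans a2, b2.trans u2.le⟩ (.cons ⟨l3.le.trans a3, b3.trans u3.le⟩
    (.nil))))) ⟨nofun, nofun, nofun, nofun, trivial⟩ (List.forall_mem_nil _) (Van.of0 rfl) (nofun)

theorem pos0 {D F h y a b c A B e0 e1 e2 e3 s x z M i e j u l P Q R Y c0 c1 c2 c3 k4 k3 k2 k1 o K E
    z34 : ℝ} (ha : a = pC D F) (hb : b = bC D F) (hc : c = qC D F) (hA : A = aC4 D F) (hB : B = aC6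
    D F) (he0 : e0 = eC0 D F) (he1 : e1 = eC1 D F) (he2 : e2 = eC2 D F) (he3 : e3 = eC3 D F) (hs : s
    = y ^ 4 * h) (hx : x = y ^ 3 * h) (hz : z = x ^ 2) (hM : M = (1 + D) / F * (s ^ 2 - z) + 2 * (1
    + 2 * D) / (1 - 2 * F) * (s - z) - D / (1 - F) * (1 - z)) (hi : i = -(-D + s * (1 + 2 * D - (1 +
    D) * s))⁻¹) (he : e = (20 * z + M)⁻¹) (hj : j = 20 * z * e) (hu : u = 20 * M * e) (hl : l = 20 *
    (x * h * y ^ 2) * e) (hP : P = (1 + D) * s ^ 2 * i) (hQ : Q = (1 + 2 * D) * s * i) (hR : R = D *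
    i) (hY : Y = M / 2 * i) (hc0 : c0 = j ^ 2) (hc1 : c1 = a * (j * u)) (hc2 : c2 = b * u ^ 2) (hc3
    : c3 = c * u ^ 2) (hk4 : k4 = 16 * (c0 + c1 + c2)) (hk3 : k3 = 16 * c0 + 104 * c1 + 112 * c2 + 8
    * c3) (hk2 : k2 = (-4) * c0 + 68 * c1 + 160 * c2 + 28 * c3) (hk1 : k1 = (-14) * c1 + 28 * c2 +
    10 * c3) (ho : o = 1) (hK : K = k4 * (Y ^ 4 * (pjR F P Q R).2.2) + k3 * (Y ^ 3 * (pjR F P Q
    R).2.1 * o ^ 2) + k2 * (Y ^ 2 * (pjR F P Q R).1 * o ^ 4) + k1 * (Y * o ^ 6)) (hE : E = A * (2 -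
    j) + (1 - j) * (20 * B + (1 - j) * (e0 + j * (e1 + j * (e2 + j * e3))))) (hz34 : z34 = (√M)⁻¹)
    (a0 : -1 / 64 ≤ D) (b0 : D ≤ -1 / 512) (a1 : 23 / 100 ≤ F) (b1 : F ≤ 1 / 4) (a2 : 0 ≤ h) (b2 : h
    ≤ 1) (a3 : 0 ≤ y) (b3 : y ≤ 65 / 512) : 0 < u ^ 2 * ((b + c) * (1 - l * (2 - j)) + F * l * E) -
    F * K + 8 * F * l * (20 * x * e * (M * z34)) :=
  have e := eq ha hb hc hA hB he0 he1 he2 he3 hs hx hz hM hi he hj hu hl hP hQ hR hY hc0 hc1 hc2 hc3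
    hk4 hk3 hk2 hk1 ho hK hE hz34
  (out0 a0 b0 a1 b1 a2 b2 a3 b3).trans_eq e

end Pool.Agent.Lib.MP_d6150d_an.B3bT
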