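import Pool.Agent.Lib.MP_d6150d_an.B3bWD

/-! A generated chart: the computations. -/

namespace Pool.Agent.Lib.MP_d6150d_an.B3bW

theorem k0 : chk C 0x888180180 [(-2199023255552, -274877906944), (32369622321725, 35184372088832),
    (0, 35184372088832)] = true := by
  decide +kernel

theorem k1 : chk C 0x88182808081808182 [(-2199023255552, -274877906944), (32369622321725,
    35184372088832), (35184372088832, 70368744177664)] = true := by
  decide +kernel

theorem k2 : chk C 0x8882288808221882820 [(-2199023255552, -274877906944), (32369622321725,
    35184372088832), (70368744177664, 105553116266496)] = true := by
  decide +kernel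

theorem k3 : chk C 0x8888888221002 [(-2199023255552, -274877906944), (32369622321725,
    35184372088832), (105553116266496, 140737488355328)] = true := by
  decide +kernel

end Pool.Agent.Lib.MP_d6150d_an.B3bW
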