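import Pool.Agent.Lib.MP_d6150d_an.B3bA
import Pool.Agent.Lib.MP_d6150d_an.B3bWK0

/-! A generated chart: the inequality. -/

namespace Pool.Agent.Lib.MP_d6150d_an.B3bW

set_option linter.unnecessarySeqFocus false
set_option linter.unusedTactic false
set_option linter.unusedVariables false

theorem gd : Gd C [(-2199023255552, -274877906944), (32369622321725, 35184372088832), (0,
    140737488355328)] := .split 2 (.split 2 (chk_sound k0) (chk_sound k1)) (.split 2 (chk_sound k2)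
    (chk_sound k3))

set_option maxRecDepth 100000 in
theorem eq {D F j a b c A B e0 e1 e2 e3 u W : ℝ} (ha : a = pC D F) (hb : b = bC D F) (hc : c = qC D
    F) (hA : A = aC4 D F) (hB : B = aC6 D F) (he0 : e0 = eC0 D F) (he1 : e1 = eC1 D F) (he2 : e2 =
    eC2 D F) (he3 : e3 = eC3 D F) (hu : u = 48 * (1 - j)) (hW : W = 15 / 2 * j - 2) : outR prog 0
    [D, F, j] = -((j ^ 2 + a * (u * j) + b * u ^ 2) * (W ^ 2 - 15 * j * (1 - j)) + ((-10) * j ^ 2 +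
    c * u ^ 2) * W + 24 * j ^ 2 - 16 * a * (u * j)) := by
  replace ha : a = (mC D F).1 := ha.trans (mC_0 ..)
  replace hb : b = (mC D F).2.1 := hb.trans (mC_1 ..)
  replace hc : c = (mC D F).2.2.1 := hc.trans (mC_2 ..)
  replace hA : A = (mC D F).2.2.2.1 := hA.trans (mC_3 ..)
  replace hB : B = (mC D F).2.2.2.2.1 := hB.trans (mC_4 ..)
  replace he0 : e0 = (mC D F).2.2.2.2.2.1 := he0.trans (mC_5 ..)
  replace he1 : e1 = (mC D F).2.2.2.2.2.2.1 := he1.trans (mC_6 ..)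
  replace he2 : e2 = (mC D F).2.2.2.2.2.2.2.1 := he2.trans (mC_7 ..)
  replace he3 : e3 = (mC D F).2.2.2.2.2.2.2.2 := he3.trans (mC_8 ..)
  replace hu : u = ((Int.cast (48) : ℝ) * ((Int.cast (1) : ℝ) - j)) := hu.trans (by push_cast <;>
    ring)
  replace hW : W = ((((Int.cast (15) : ℝ) / (Nat.cast 2 : ℝ)) * j) - (Int.cast (2) : ℝ)) := hW.trans
    (by push_cast <;> ring)
  have e0 : ((Int.cast (-1) : ℝ) * (((((((j * j) + (a * (u * j))) + (b * (u * u))) * ((W * W) -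
    (((Int.cast (15) : ℝ) * j) * ((Int.cast (1) : ℝ) - j)))) + ((((Int.cast (-10) : ℝ) * (j * j)) +
    (c * (u * u))) * W)) + ((Int.cast (24) : ℝ) * (j * j))) - (((Int.cast (16) : ℝ) * a) * (u *
    j)))) = -((j ^ 2 + a * (u * j) + b * u ^ 2) * (W ^ 2 - 15 * j * (1 - j)) + ((-10) * j ^ 2 + c *
    u ^ 2) * W + 24 * j ^ 2 - 16 * a * (u * j)) := by push_cast <;> ring
  subst ha hb hc hA hB he0 he1 he2 he3 hu hW
  exact Eq.trans rfl e0

theorem l0 : ((-2199023255552 : ℤ) : ℝ) / 2 ^ 47 = -1 / 64 := by norm_num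
theorem u0 : (-1 / 512 : ℝ) = ((-274877906944 : ℤ) : ℝ) / 2 ^ 47 := by norm_num
theorem l1 : ((32369622321725 : ℤ) : ℝ) / 2 ^ 47 ≤ 23 / 100 := by norm_num
theorem u1 : (1 / 4 : ℝ) = ((35184372088832 : ℤ) : ℝ) / 2 ^ 47 := by norm_num
theorem l2 : ((0 : ℤ) : ℝ) / 2 ^ 47 = 0 := by norm_num
theorem u2 : (1 : ℝ) = ((140737488355328 : ℤ) : ℝ) / 2 ^ 47 := by norm_num

theorem out0 {D F j : ℝ} (a0 : -1 / 64 ≤ D) (b0 : D ≤ -1 / 512) (a1 : 23 / 100 ≤ F) (b1 : F ≤ 1 / 4)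
    (a2 : 0 ≤ j) (b2 : j ≤ 1) : 0 < outR prog 0 [D, F, j] :=
  gd 0 (by decide) [D, F, j] (.cons ⟨l0.le.trans a0, b0.trans u0.le⟩ (.cons ⟨l1.trans a1, b1.trans
    u1.le⟩ (.cons ⟨l2.le.trans a2, b2.trans u2.le⟩ (.nil)))) ⟨nofun, nofun, nofun, trivial⟩
    (List.forall_mem_nil _) (Van.of0 rfl) (nofun)

theorem pos0 {D F j a b c A B e0 e1 e2 e3 u W : ℝ} (ha : a = pC D F) (hb : b = bC D F) (hc : c = qC
    D F) (hA : A = aC4 D F) (hB : B = aC6 D F) (he0 : e0 = eC0 D F) (he1 : e1 = eC1 D F) (he2 : e2 =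
    eC2 D F) (he3 : e3 = eC3 D F) (hu : u = 48 * (1 - j)) (hW : W = 15 / 2 * j - 2) (a0 : -1 / 64 ≤
    D) (b0 : D ≤ -1 / 512) (a1 : 23 / 100 ≤ F) (b1 : F ≤ 1 / 4) (a2 : 0 ≤ j) (b2 : j ≤ 1) : 0 < -((j
    ^ 2 + a * (u * j) + b * u ^ 2) * (W ^ 2 - 15 * j * (1 - j)) + ((-10) * j ^ 2 + c * u ^ 2) * W +
    24 * j ^ 2 - 16 * a * (u * j)) :=
  have e := eq ha hb hc hA hB he0 he1 he2 he3 hu hW
  (out0 a0 b0 a1 b1 a2 b2).trans_eq e

end Pool.Agent.Lib.MP_d6150d_an.B3bW
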