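import Pool.Agent.Lib.MP_d6150d_an.B3bK
import Pool.Agent.Lib.MP_d6150d_an.B3bL
import Pool.Agent.Lib.MP_d6150d_an.B3bM
import Pool.Agent.Lib.MP_d6150d_an.B3bP
import Pool.Agent.Lib.MP_d6150d_an.B3bR
import Pool.Agent.Lib.MP_d6150d_an.B3bS
import Pool.Agent.Lib.MP_d6150d_an.B3bT
import Pool.Agent.Lib.MP_d6150d_an.B3bW

/-! The strip `B`, closer to the corner `(0, 1 / 4)`. -/

namespace Pool.Agent.Lib.MP_d6150d_an

namespace B3b

open Real Set Filter Topology Asymptotics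

variable {D F t : ℝ}

/-- the expression computed on the left branch -/
noncomputable def gL (D F h y : ℝ) : ℝ :=
  let s := y ^ 4 * h
  let x := y ^ 3 * h
  let M := (1 + D) / F * (s ^ 2 - x ^ 2) + 2 * (1 + 2 * D) / (1 - 2 * F) * (s - x ^ 2) -
    D / (1 - F) * (1 - x ^ 2)
  let i := -(-D + s * (1 + 2 * D - (1 + D) * s))⁻¹
  let e := (20 * x ^ 2 + M)⁻¹
  (20 * M * e) ^ 2 * ((bC D F + qC D F) *
    (1 - 20 * (x * h * y ^ 2) * e * (2 - 20 * x ^ 2 * e)) +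
      F * (20 * (x * h * y ^ 2) * e) * eC D F (20 * x ^ 2 * e)) -
    F * kC (pC D F) (bC D F) (qC D F) (20 * x ^ 2 * e) (20 * M * e) F
      ((1 + D) * s ^ 2 * i) ((1 + 2 * D) * s * i) (D * i) (M / 2 * i) +
    8 * F * (20 * (x * h * y ^ 2) * e) * (20 * x * e * (M * (√M)⁻¹))

theorem vE (f0 : 23 / 100 ≤ F) (f1 : F ≤ 1 / 4) (t : ℝ) : vR D F t =
    (-2 * (1 + 2 * D) / (1 - 2 * F) - (1 + D) / F - -D / (1 - F)) + exp ((2 * F - 2) * t) *
      ((1 + D) / F * exp t ^ 2 - -2 * (1 + 2 * D) / (1 - 2 * F) * exp t + -D / (1 - F)) :=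
  vR_expl (mul_div_cancel₀ _ (by linarith)) (mul_div_cancel₀ _ (by linarith))
    (mul_div_cancel₀ _ (by linarith)) t

theorem inv20 {v z : ℝ} (v0 : 0 < v) (z0 : 0 < z) :
    20 * z * (20 * z + v * z)⁻¹ = (1 + v / 20)⁻¹ := by field_simp

theorem gL_sign (f0 : 23 / 100 ≤ F) (f1 : F ≤ 1 / 4) (ht : t ∈ JR D) (h0 : t < 0)
    (h : 0 < gL D F (exp ((1 - 4 * F) * t)) (exp (F * t))) : 0 < t * dC D F t := by
  have e1 : exp (F * t) ^ 4 * exp ((1 - 4 * F) * t) = exp t := by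
    rw [← exp_nat_mul, ← exp_add]; congr 1; push_cast; ring
  have e2 : (exp (F * t) ^ 3 * exp ((1 - 4 * F) * t)) ^ 2 = exp ((2 - 2 * F) * t) := by
    rw [← exp_nat_mul, ← exp_add, ← exp_nat_mul]; congr 1; push_cast; ring
  have v0 := vR_pos (F := F) ht h0.ne
  have y0 := exp_pos (F * t)
  have x0 : 0 < exp (F * t) ^ 3 * exp ((1 - 4 * F) * t) := by positivity
  have e3 : (1 + D) / F * (exp t ^ 2 - exp ((2 - 2 * F) * t)) + 2 * (1 + 2 * D) / (1 - 2 * F) *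
      (exp t - exp ((2 - 2 * F) * t)) - D / (1 - F) * (1 - exp ((2 - 2 * F) * t)) =
      vR D F t * exp ((2 - 2 * F) * t) := by
    rw [vE f0 f1]
    linear_combination -((1 + D) / F * exp t ^ 2 - -2 * (1 + 2 * D) / (1 - 2 * F) * exp t +
      -D / (1 - F)) * exp_y (F := F) t
  have e4 : -(-D + exp t * (1 + 2 * D - (1 + D) * exp t))⁻¹ = (wR D t)⁻¹ := by
    rw [neg_inv, wR, PR, QR]; congr 1; ring
  have e5 : vR D F t * exp ((2 - 2 * F) * t) * (√(vR D F t * exp ((2 - 2 * F) * t)))⁻¹ =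
      -(gR D F t * (exp (F * t) ^ 3 * exp ((1 - 4 * F) * t))) := by
    rw [← div_eq_mul_inv, div_sqrt, ← e2, ← gR_sq ht, ← mul_pow, sqrt_sq_eq_abs,
      abs_of_neg (mul_neg_of_neg_of_pos (gR_neg ht h0) x0)]
  have e6 := inv20 v0 (exp_pos ((2 - 2 * F) * t))
  have key := hom (F := F) (l := (wR D t)⁻¹) (P := (1 + D) * exp t ^ 2 * (wR D t)⁻¹)
    (Q := (1 + 2 * D) * exp t * (wR D t)⁻¹) (R := D * (wR D t)⁻¹)
    (Y := vR D F t * exp ((2 - 2 * F) * t) / 2 * (wR D t)⁻¹) (c := (1 + vR D F t / 20)⁻¹)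
    (u := 20 * (vR D F t * exp ((2 - 2 * F) * t)) *
      (20 * exp ((2 - 2 * F) * t) + vR D F t * exp ((2 - 2 * F) * t))⁻¹) ht h0.ne one_ne_zero
    (mul_comm _ _) (mul_comm _ _) (mul_comm _ _) (by rw [yR]; ring)
    (inv_mul_cancel₀ (wR_ne ht h0.ne)).symm (by rw [← e6]; ring) rfl
  simp only [gL, e1, e2, e3, e4, e5, e6] at h
  have j0 : 0 < (1 + vR D F t / 20)⁻¹ := by positivity
  generalize (1 + vR D F t / 20)⁻¹ = j at *
  generalize kC _ _ _ _ _ _ _ _ _ _ = k at key h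
  generalize (20 * exp ((2 - 2 * F) * t) + vR D F t * exp ((2 - 2 * F) * t))⁻¹ = e at *
  generalize 20 * (vR D F t * exp ((2 - 2 * F) * t)) * e = u at *
  have e7 : 20 * (exp (F * t) ^ 3 * exp ((1 - 4 * F) * t) * exp ((1 - 4 * F) * t) *
    exp (F * t) ^ 2) * e * exp (F * t) = j := by linear_combination 20 * e * e2 + e6
  generalize 20 * (exp (F * t) ^ 3 * exp ((1 - 4 * F) * t) * exp ((1 - 4 * F) * t) *
    exp (F * t) ^ 2) * e = l at *
  refine mul_pos_of_neg_of_neg h0 (neg_of_mul_neg_left (b := j ^ 2) ?_ (sq_nonneg _))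
  linear_combination mul_pos h y0 + key - (u ^ 2 * ((bC D F + qC D F) * (2 - j) -
    F * eC D F j) + 8 * F * gR D F t * j) * e7 -
    8 * F * gR D F t * l * exp (F * t) * (20 * e * e2 + e6)

theorem alg {a b c F h z v i m o p r n D L k Q R Y a1 a2 b1 b2 g1 p2 u3 u4 : ℝ} (hp : p = z * h)
    (hr : r = z * p) (hn : F * n = (1 + D) * (1 - z) + F * m * z) (hv : n = v * z)
    (ho : o = 1 + 2 * D - D * r) (hi : (1 + D - r * o) * i = 1) (hL : L = F * n * i)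
    (hk : k = n * i * (1 + D - m * F - p * o)) (hQ : Q = (1 + 2 * D) * i) (hR : R = D * r * i)
    (hY : Y = n * i / 2) (ha1 : a1 = Q - 2 * R) (ha2 : a2 = 3 * Q - 4 * R)
    (hb1 : b1 = (2 - F) * a1 - a2) (hb2 : b2 = (2 - F) * a2 - (7 * Q - 8 * R))
    (hg1 : g1 = b1 - (4 - 3 * F) * a1) (hp2 : p2 = -F - r * a1)
    (hu3 : u3 = g1 + 6 * a1 - 3 * a1 * p2)
    (hu4 : u4 = 2 * (g1 - 3 * b1) + a1 * (3 * F ^ 2 + r * (g1 - 3 * b1)) + (4 - 3 * F) * b1 + b2 +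
      12 * a1 - 3 * a2 * p2 - (4 + 5 * F) * u3 - 5 * a1 * (3 * F ^ 2 + r * u3)) :
    F * kC a b c z n F ((1 + D) * i) (r * Q) (r * R) Y - n ^ 2 * (b + c) = z ^ 2 *
      (L ^ 2 * (1 + L * (6 - 15 * L)) + a * k * L * (15 * L ^ 2 - 24 * L - 7) +
        k ^ 2 * (b * (12 * L - 15 * L ^ 2 - 1) + c * (3 * L - 1)) + F * h * Y ^ 2 *
        (Y * (16 * (z ^ 2 + a * (z * n) + b * n ^ 2) * Y * u4 + (16 * z ^ 2 +
          104 * (a * (z * n)) + 112 * (b * n ^ 2) + 8 * (c * n ^ 2)) * u3) -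
          ((-4) * z ^ 2 + 68 * (a * (z * n)) + 160 * (b * n ^ 2) +
            28 * (c * n ^ 2)) * a1)) := by
  have e1 : (1 + D) * i = 1 + r * Q - r * R := by rw [hQ, hR]; rw [ho] at hi; linear_combination hi
  have e2 : pjR F (1 + r * Q - r * R) (r * Q) (r * R) =
      (-F - r * a1, 3 * F ^ 2 + r * u3, -15 * F ^ 3 + r * u4) := by
    clear hQ hR hr
    subst hu4 hu3 hp2 hg1 hb2 hb1 ha2 ha1
    simp only [pjR, Prod.mk.injEq]
    exact ⟨by ring, by ring, by ring⟩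
  have e3 : k = v * (1 - L) := by
    rw [hk, hL]
    linear_combination i * (1 + D - m * F - p * o) * hv + v * hi + v * i * hn + v * i * o * hr
  have e4 : L = 2 * F * Y := by rw [hL, hY]; ring
  rw [kC, e1, e2, e3, e4, hv, hr, hp]
  ring

theorem e23 : (125859 / 100000 : ℝ) ≤ exp (23 / 100) :=
  le_trans (by simp only [Finset.sum_range_succ, Nat.factorial]; norm_num)
    (sum_le_exp_of_nonneg (by norm_num) 5)

theorem far (d0 : -1 / 64 ≤ D) (d1 : D ≤ -1 / 512) (f0 : 23 / 100 ≤ F) (f1 : F ≤ 1 / 4)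
    (ht : t ∈ JR D) (t1 : 2 ≤ t) : 0 < t * dC D F t := by
  have h0 : 0 < t := by linarith
  have v0 := vR_pos (F := F) ht h0.ne'
  obtain ⟨y, hy⟩ : ∃ y, y = exp (-(F * t)) := ⟨_, rfl⟩
  obtain ⟨h, hh⟩ : ∃ h, h = exp (-((1 - 4 * F) * t)) := ⟨_, rfl⟩
  obtain ⟨z, hz⟩ : ∃ z, z = y ^ 2 := ⟨_, rfl⟩
  obtain ⟨p, hp⟩ : ∃ p, p = z * h := ⟨_, rfl⟩
  obtain ⟨r, hr⟩ : ∃ r, r = z * p := ⟨_, rfl⟩
  obtain ⟨m, hm⟩ : ∃ m, m = (-2) * (1 + 2 * D) / (1 - 2 * F) * (1 - p) +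
    D / (1 - F) * (1 - p * r) := ⟨_, rfl⟩
  obtain ⟨n, hn⟩ : ∃ n, n = (1 + D) / F * (1 - z) + m * z := ⟨_, rfl⟩
  obtain ⟨i, hi⟩ : ∃ i, i = (1 + D - r * (1 + 2 * D - D * r))⁻¹ := ⟨_, rfl⟩
  have y0 : 0 < y := hy ▸ exp_pos _
  have z0 : 0 < z := hz ▸ pow_pos y0 2
  have y1 : exp (F * t) * y = 1 := by rw [hy, ← exp_add]; simp
  have r1 : r * exp t = 1 := by
    rw [hr, hp, hz, hy, hh, ← exp_nat_mul, ← exp_add, ← exp_add, ← exp_add, exp_eq_one_iff]
    push_cast; ring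
  have z1 : exp ((2 - 2 * F) * t) = z * exp t ^ 2 := by
    rw [hz, hy, ← exp_nat_mul, ← exp_nat_mul, ← exp_add]; congr 1; push_cast; ring
  have z2 : exp ((2 * F - 2) * t) = p * r := by
    rw [hr, hp, hz, hy, hh, ← exp_nat_mul, ← exp_add, ← exp_add, ← exp_add]
    congr 1; push_cast; ring
  have hv : n = vR D F t * z := by
    rw [vE f0 f1, z2, hn, hm]
    linear_combination -((1 + D) / F * (r * exp t + 1)) * r1 + (1 + D) / F * r * exp t ^ 2 * hr +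
      2 * (1 + 2 * D) / (1 - 2 * F) * -(p * z) * r1
  have w1 : r ^ 2 * wR D t = 1 + D - r * (1 + 2 * D - D * r) := by
    rw [wR, PR, QR]; linear_combination ((1 + D) * (r * exp t + 1) - (1 + 2 * D) * r) * r1
  have i1 : (1 + D - r * (1 + 2 * D - D * r)) * i = 1 := by
    rw [hi]
    refine mul_inv_cancel₀ (w1 ▸ mul_ne_zero (pow_ne_zero 2 fun e ↦ ?_) (wR_ne ht h0.ne'))
    simp [e] at r1
  have e5 : n * (√n)⁻¹ = gR D F t * y := by
    rw [← div_eq_mul_inv, div_sqrt, hv, hz, ← gR_sq ht, ← mul_pow,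
      sqrt_sq (mul_pos (gR_pos ht h0) y0).le]
  have e6 : 20 * z * (20 * z + n)⁻¹ = (1 + vR D F t / 20)⁻¹ := hv ▸ inv20 v0 z0
  have key := hom (F := F) (l := r ^ 2 * i) (P := (1 + D) * i) (Q := r * ((1 + 2 * D) * i))
    (R := r * (D * r * i)) (Y := n * i / 2) (c := z) (u := n) ht h0.ne' one_ne_zero
    (by rw [PR]; linear_combination -(1 + D) * i * (r * exp t + 1) * r1)
    (by rw [QR]; linear_combination -(1 + 2 * D) * i * r * r1) (by ring)
    (by rw [yR, z1, hv]; linear_combination -(vR D F t * z * i / 2) * (r * exp t + 1) * r1)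
    (by linear_combination -i * w1 - i1) hv e6
  have A := alg (a := pC D F) (b := bC D F) (c := qC D F) (F := F) (D := D) (m := m) hp hr
    (by rw [hn]; linear_combination (1 - z) * mul_div_cancel₀ (1 + D) (b := F) (by linarith)) hv
    rfl i1 rfl rfl rfl rfl rfl rfl rfl rfl rfl rfl rfl rfl rfl
  have c := (le_total t 8).elim
    (fun t2 ↦ B3bP.pos0 hh hy rfl rfl rfl rfl rfl rfl rfl rfl rfl hz hp hr hm hn rfl hi
      rfl rfl rfl rfl rfl rfl rfl rfl rfl rfl rfl rfl rfl rfl rfl rfl rfl rfl rfl rfl rfl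
      rfl
      d0 d1 f0 f1 t1 t2)
    fun t2 ↦ B3bS.pos0 rfl rfl rfl rfl rfl rfl rfl rfl rfl hz hp hr hm hn rfl hi
      rfl rfl rfl rfl rfl rfl rfl rfl rfl rfl rfl rfl rfl rfl rfl rfl rfl rfl rfl rfl rfl
      rfl
      d0 d1 f0 f1 (hh ▸ (exp_pos _).le)
      (hh ▸ exp_le_one_iff.2 (by nlinarith only [f1, h0])) y0.le (by
        have h1 : (256 / 41 : ℝ) ≤ exp (23 / 100) ^ 8 :=
          le_trans (by norm_num) (pow_le_pow_left₀ (by norm_num) e23 8)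
        rw [← exp_nat_mul] at h1
        have h2 := h1.trans (exp_le_exp.2 (show ((8 : ℕ) : ℝ) * (23 / 100) ≤ F * t by
          push_cast; nlinarith only [f0, t2]))
        nlinarith only [h2, y0, y1])
  rw [← eC, e5] at c
  generalize kC _ _ _ _ _ _ _ _ _ _ = k at key A
  generalize (F * n * i) ^ 2 * _ + _ + _ + _ = K at A c
  refine mul_pos h0 ((mul_pos_iff_of_pos_left (pow_pos z0 2)).1 ?_)
  rw [key]
  generalize (20 * z + n)⁻¹ = e at *
  linear_combination mul_pos z0 c - exp (F * t) * A - z * K * (exp (F * t) * hz + y * y1) -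
    8 * F * z * gR D F t * hz

theorem sign (d0 : -1 / 64 ≤ D) (d1 : D ≤ -1 / 512) (f0 : 23 / 100 ≤ F) (f1 : F ≤ 1 / 4)
    (ht : t ∈ JR D) (h0 : t ≠ 0) : 0 < t * dC D F t := by
  have f0' : 235 / 1024 ≤ F := by linarith
  rcases h0.lt_or_gt with t0 | t0
  · rcases le_total t (-3) with l | l
    · refine gL_sign f0 f1 ht t0 ?_
      rcases le_total (-9) t with k | k
      · exact B3bM.pos0 rfl rfl rfl rfl rfl rfl rfl rfl rfl rfl rfl rfl rfl rfl rfl rfl rfl rfl rfl rfl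
          rfl rfl rfl rfl rfl rfl rfl rfl rfl rfl rfl rfl rfl rfl rfl rfl
          d0 d1 f0 f1 k l
      refine B3bT.pos0 rfl rfl rfl rfl rfl rfl rfl rfl rfl rfl rfl rfl rfl rfl rfl rfl rfl rfl rfl rfl rfl
        rfl rfl rfl rfl rfl rfl rfl rfl rfl rfl rfl rfl rfl
        d0 d1 f0 f1 (exp_pos _).le (exp_le_one_iff.2 (by nlinarith)) (exp_pos _).le ?_
      have h1 : (512 / 65 : ℝ) ≤ exp (23 / 100) ^ 9 :=
        le_trans (by norm_num) (pow_le_pow_left₀ (by norm_num) e23 9)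
      rw [← exp_nat_mul] at h1
      have h2 := h1.trans (exp_le_exp.2 (show ((9 : ℕ) : ℝ) * (23 / 100) ≤ -(F * t) by
        push_cast; nlinarith))
      rw [exp_neg, le_inv_comm₀ (by norm_num) (exp_pos _)] at h2
      exact h2.trans_eq (by norm_num)
    have e : ∀ D F s, outR B3bL.prog 0 [D, F, s] = gC D F (-s) := fun D F s ↦
      B3bL.eq rfl rfl rfl rfl rfl rfl rfl rfl rfl rfl rfl rfl rfl rfl rfl rfl rfl rfl rfl rfl rfl
      rfl rfl rfl rfl rfl rfl rfl rfl rfl rfl rfl rfl rfl rfl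
    have n : Tendsto (fun s : ℝ ↦ -s) (𝓝[>] 0) (𝓝[≠] 0) := by
      simpa using (tendsto_neg_nhdsGT (a := (0 : ℝ))).mono_right (nhdsLT_le_nhdsNE _)
    have := (B3bL.out0 (fun D F _ _ f0 _ ↦ (gC_bigO (by linarith) n fun _ ↦ by ring).congr_left
      fun s ↦ (e D F s).symm) (s := -t) d0 d1 f0' f1 (by linarith) (by linarith)
      (by linarith)).trans_eq (e D F _)
    exact gC_sign ht h0 (by rwa [neg_neg] at this)
  rcases le_total 2 t with l | l
  · exact far d0 d1 f0 f1 ht l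
  have e : ∀ D F s, outR B3bR.prog 0 [D, F, s] = gC D F s := fun D F s ↦
    B3bR.eq rfl rfl rfl rfl rfl rfl rfl rfl rfl rfl rfl rfl rfl rfl rfl rfl rfl rfl rfl rfl rfl
      rfl rfl rfl rfl rfl rfl rfl rfl rfl rfl rfl rfl rfl rfl
  exact gC_sign ht h0 ((B3bR.out0 (fun D F _ _ f0 _ ↦ (gC_bigO (by linarith) (σ := id)
    (tendsto_nhdsWithin_mono_right (fun _ h ↦ ne_of_gt h) tendsto_id) fun _ ↦ rfl).congr_left
      fun s ↦ (e D F s).symm) d0 d1 f0' f1 t0.le l t0).trans_eq (e D F t))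

end B3b

open B3b in
/-- the strip `B` closer to the corner -/
theorem B3b_holds (D F : ℝ) (d0 : -1 / 64 ≤ D) (d1 : D ≤ -1 / 512) (f0 : 23 / 100 ≤ F)
    (f1 : F ≤ 1 / 4) : NoThree D F := by
  refine CritG.noThree ⟨oC D F, 1, fun h ↦ 360 * (48 + h)⁻¹ - 2,
    fun h ↦ 360 * (-1 / (48 + h) ^ 2), fun a ha b hb a0 b0 e ↦ ?_⟩
  have v0 := vR_pos (F := F) hb b0.ne'
  have h1 := neg_of_mul_pos_right (sign d0 d1 f0 f1 ha a0.ne) a0.le
  have h2 := (mul_pos_iff_of_pos_left b0).1 (sign d0 d1 f0 f1 hb b0.ne')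
  rw [dC] at h1 h2
  rw [e] at h1
  generalize vR D F b = v at *
  have v1 : 0 < 48 + v := by linarith
  refine ⟨((((hasDerivAt_id' v).const_add 48).inv v1.ne').const_mul 360).sub_const 2, ?_, ?_, ?_⟩
  · have p0 : 0 ≤ pC D F * v := mul_nonneg (by rw [pC]; linarith) v0.le
    have p1 : 0 ≤ bC D F * v ^ 2 := mul_nonneg (by rw [bC]; linarith) (sq_nonneg v)
    simp only [Gp.P, oC]; linarith
  · obtain ⟨i, hi⟩ : ∃ i, i = (48 + v)⁻¹ := ⟨_, rfl⟩
    have i0 : 0 < i := hi ▸ inv_pos.2 v1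
    have i1 : (48 + v) * i = 1 := hi ▸ mul_inv_cancel₀ v1.ne'
    have c := B3bW.pos0 (j := 48 * i) rfl rfl rfl rfl rfl rfl rfl rfl rfl rfl rfl d0 d1 f0 f1 (by positivity)
      (by nlinarith only [i1, mul_pos v0 i0])
    have e1 : 48 * (1 - 48 * i) = v * (48 * i) := by linear_combination -48 * i1
    have e2 : -1 / (48 + v) ^ 2 = -i ^ 2 := by rw [hi]; field_simp
    have e3 : 15 * (48 * i) * (1 - 48 * i) = 720 * v * i ^ 2 := by
      linear_combination -720 * i * i1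
    rw [e1, e3] at c
    refine le_of_mul_le_mul_left (a := (48 * i) ^ 2) ?_ (by positivity)
    simp only [Gp.P, Gp.Q, Gp.S, oC, e2, ← hi]
    linear_combination c.le
  · rw [one_mul, one_mul]
    exact lt_of_mul_lt_mul_left (a := F) (by linarith) (by linarith)

end Pool.Agent.Lib.MP_d6150d_an
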