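import Pool.Agent.Lib.MP_d6150d_an.B2J
import Pool.Agent.Lib.MP_d6150d_an.GMac

/-! The strip `B`, closer to the corner: the coefficients of the operator and of the separator. -/

namespace Pool.Agent.Lib.MP_d6150d_an

/-- a coefficient of the operator -/
noncomputable def pC (D _F : ℝ) : ℝ := 1 / 125 - 2 * D

/-- a coefficient of the operator -/
noncomputable def bC (_D F : ℝ) : ℝ := 801 / 160000 - 1 / 50 * F

/-- a coefficient of the operator -/
noncomputable def qC (D _F : ℝ) : ℝ := 7 / 25000 - 7 / 25 * D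

/-- the coefficient of order four of the kernel -/
noncomputable def aC4 (D F : ℝ) : ℝ := -8 * ja4 D F - 14 * pC D F * ja2 D F

/-- the coefficient of order six of the kernel -/
noncomputable def aC6 (D F : ℝ) : ℝ := 72 * ja6 D F + 108 * pC D F * ja4 D F +
  (27 * bC D F + 9 * qC D F) * ja2 D F

/-- a coefficient of the separator -/
noncomputable def eC0 (D F : ℝ) : ℝ :=
  (-1187 - 6308 * ((1024 * D + 9) / 7) + 1485 * (100 * F - 24)) / 100000

/-- a coefficient of the separator -/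
noncomputable def eC1 (D F : ℝ) : ℝ :=
  (-16816 + (1024 * D + 9) / 7 * (-9909 + 876 * ((1024 * D + 9) / 7) - 441 * (100 * F - 24)) +
    (100 * F - 24) * (793 + 452 * (100 * F - 24))) / 100000

/-- a coefficient of the separator -/
noncomputable def eC2 (D _F : ℝ) : ℝ :=
  (1024 * D + 9) / 7 * (8303 - 900 * ((1024 * D + 9) / 7)) / 100000

/-- a coefficient of the separator -/
noncomputable def eC3 (D _F : ℝ) : ℝ := (-5232 - 5934 * ((1024 * D + 9) / 7)) / 100000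

noncomputable def mC (D F : ℝ) : ℝ × ℝ × ℝ × ℝ × ℝ × ℝ × ℝ × ℝ × ℝ :=
  let z0 := (((Int.cast (1) : ℝ) / (Nat.cast 125 : ℝ)) - ((Int.cast (2) : ℝ) * D))
  let z1 := (((Int.cast (801) : ℝ) / (Nat.cast 160000 : ℝ)) - (((Int.cast (1) : ℝ) / (Nat.cast 50 :
    ℝ)) * F))
  let z2 := (((Int.cast (7) : ℝ) / (Nat.cast 25000 : ℝ)) - (((Int.cast (7) : ℝ) / (Nat.cast 25 : ℝ))
    * D))
  let z3 := (((Int.cast (1) : ℝ) / (Nat.cast 1080 : ℝ)) * (((((((Int.cast (-320) : ℝ) * D) +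
    (((Int.cast (-480) : ℝ) * F) + (Int.cast (-60) : ℝ))) * D) + (((((Int.cast (-312) : ℝ) * F) +
    (Int.cast (102) : ℝ)) * F) + (Int.cast (-6) : ℝ))) * D) + (((((((Int.cast (-103) : ℝ) * F) +
    (Int.cast (156) : ℝ)) * F) + (Int.cast (-57) : ℝ)) * F) + (Int.cast (4) : ℝ))))
  let z4 := (((Int.cast (1) : ℝ) / (Nat.cast 6 : ℝ)) * (((Int.cast (-2) : ℝ) * D) + (((Int.cast (-1)
    : ℝ) * F) + (Int.cast (1) : ℝ))))
  let z5 := (((Int.cast (9) : ℝ) / (Nat.cast 7 : ℝ)) + (((Int.cast (1024) : ℝ) / (Nat.cast 7 : ℝ)) *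
    D))
  let z6 := (((Int.cast (100) : ℝ) * F) - (Int.cast (24) : ℝ))
  (z0, z1, z2, (((Int.cast (-8) : ℝ) * z3) - (((Int.cast (14) : ℝ) * z0) * z4)), ((((Int.cast (72) :
    ℝ) * (((Int.cast (1) : ℝ) / (Nat.cast 136080 : ℝ)) * (((((((((((Int.cast (-62720) : ℝ) * D) +
    (((Int.cast (-156800) : ℝ) * F) + (Int.cast (-44800) : ℝ))) * D) + (((((Int.cast (-180320) : ℝ)
    * F) + (Int.cast (-49280) : ℝ)) * F) + (Int.cast (-4760) : ℝ))) * D) + (((((((Int.cast (-123760)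
    : ℝ) * F) + (Int.cast (10416) : ℝ)) * F) + (Int.cast (-1596) : ℝ)) * F) + (Int.cast (28) : ℝ)))
    * D) + (((((((((Int.cast (-53854) : ℝ) * F) + (Int.cast (45478) : ℝ)) * F) + (Int.cast (-11886)
    : ℝ)) * F) + (Int.cast (802) : ℝ)) * F) + (Int.cast (20) : ℝ))) * D) + (((((((((((Int.cast
    (-13171) : ℝ) * F) + (Int.cast (26927) : ℝ)) * F) + (Int.cast (-17893) : ℝ)) * F) + (Int.cast
    (4441) : ℝ)) * F) + (Int.cast (-296) : ℝ)) * F) + (Int.cast (-8) : ℝ))))) + (((Int.cast (108) :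
    ℝ) * z0) * z3)) + ((((Int.cast (27) : ℝ) * z1) + ((Int.cast (9) : ℝ) * z2)) * z4)), ((((Int.cast
    (-1187) : ℝ) / (Nat.cast 100000 : ℝ)) - (((Int.cast (1577) : ℝ) / (Nat.cast 25000 : ℝ)) * z5)) +
    (((Int.cast (297) : ℝ) / (Nat.cast 20000 : ℝ)) * z6)), ((((Int.cast (-1051) : ℝ) / (Nat.cast
    6250 : ℝ)) + (z5 * ((((Int.cast (-9909) : ℝ) / (Nat.cast 100000 : ℝ)) + (((Int.cast (219) : ℝ) /
    (Nat.cast 25000 : ℝ)) * z5)) - (((Int.cast (441) : ℝ) / (Nat.cast 100000 : ℝ)) * z6)))) + (z6 *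
    (((Int.cast (793) : ℝ) / (Nat.cast 100000 : ℝ)) + (((Int.cast (113) : ℝ) / (Nat.cast 25000 : ℝ))
    * z6)))), (z5 * (((Int.cast (8303) : ℝ) / (Nat.cast 100000 : ℝ)) - (((Int.cast (9) : ℝ) /
    (Nat.cast 1000 : ℝ)) * z5))), (((Int.cast (-327) : ℝ) / (Nat.cast 6250 : ℝ)) - (((Int.cast
    (2967) : ℝ) / (Nat.cast 50000 : ℝ)) * z5)))

theorem mC_0 (D F : ℝ) : pC D F = (mC D F).1 := by
  simp only [mC, pC]; push_cast; ring

theorem mC_1 (D F : ℝ) : bC D F = (mC D F).2.1 := by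
  simp only [mC, bC]; push_cast; ring

theorem mC_2 (D F : ℝ) : qC D F = (mC D F).2.2.1 := by
  simp only [mC, qC]; push_cast; ring

theorem mC_3 (D F : ℝ) : aC4 D F = (mC D F).2.2.2.1 := by
  simp only [mC, aC4, pC, ja2, ja4]; push_cast; ring

theorem mC_4 (D F : ℝ) : aC6 D F = (mC D F).2.2.2.2.1 := by
  simp only [mC, aC6, pC, bC, qC, ja2, ja4, ja6]; push_cast; ring

theorem mC_5 (D F : ℝ) : eC0 D F = (mC D F).2.2.2.2.2.1 := by
  simp only [mC, eC0]; push_cast; ring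

theorem mC_6 (D F : ℝ) : eC1 D F = (mC D F).2.2.2.2.2.2.1 := by
  simp only [mC, eC1]; push_cast; ring

theorem mC_7 (D F : ℝ) : eC2 D F = (mC D F).2.2.2.2.2.2.2.1 := by
  simp only [mC, eC2]; push_cast; ring

theorem mC_8 (D F : ℝ) : eC3 D F = (mC D F).2.2.2.2.2.2.2.2 := by
  simp only [mC, eC3]; push_cast; ring

end Pool.Agent.Lib.MP_d6150d_an
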