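import Pool.Agent.Lib.MP_d6150d_an.B3bA
import Pool.Agent.Lib.MP_d6150d_an.S1LKey
import Pool.Agent.Lib.MP_d6150d_an.S2b

/-! The strip `B`, closer to the corner: the operator and the identities. -/

namespace Pool.Agent.Lib.MP_d6150d_an

namespace B3b

open Real Set Filter Topology Asymptotics

variable {D F t : ℝ}

/-- the operator -/
noncomputable def oC (D F : ℝ) : Gp :=
  ⟨1, -10, 24, pC D F, 0, -16 * pC D F, bC D F, qC D F, 0, 0, 0, 0⟩

/-- the main factor of the separator -/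
noncomputable def eC (D F j : ℝ) : ℝ := aC4 D F * (2 - j) + (1 - j) * (20 * aC6 D F + (1 - j) *
  (eC0 D F + j * (eC1 D F + j * (eC2 D F + j * eC3 D F))))

/-- the separator, times `F` -/
noncomputable def sC (D F v : ℝ) : ℝ :=
  v ^ 2 * ((bC D F + qC D F) * (1 - (1 + v / 20)⁻¹) ^ 2 +
    F * (1 + v / 20)⁻¹ * eC D F (1 + v / 20)⁻¹)

/-- the kernel minus the separator, times `F` -/
noncomputable def dC (D F t : ℝ) : ℝ := F * (oC D F).K D F t - sC D F (vR D F t)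

/-- the main part of the kernel -/
noncomputable def kC (a b c j u F P Q R Y : ℝ) : ℝ :=
  16 * (j ^ 2 + a * (j * u) + b * u ^ 2) * (Y ^ 4 * (pjR F P Q R).2.2) +
    (16 * j ^ 2 + 104 * (a * (j * u)) + 112 * (b * u ^ 2) + 8 * (c * u ^ 2)) *
      (Y ^ 3 * (pjR F P Q R).2.1 * 1 ^ 2) +
    ((-4) * j ^ 2 + 68 * (a * (j * u)) + 160 * (b * u ^ 2) + 28 * (c * u ^ 2)) *
      (Y ^ 2 * (pjR F P Q R).1 * 1 ^ 4) +
    ((-14) * (a * (j * u)) + 28 * (b * u ^ 2) + 10 * (c * u ^ 2)) * (Y * 1 ^ 6)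

theorem hom {l s P Q R Y c u j : ℝ} (ht : t ∈ JR D) (h0 : t ≠ 0) (hs : s ≠ 0)
    (hP : P = l * PR D t) (hQ : Q = l * QR D t) (hR : R = l * D) (hY : s ^ 2 * Y = l * yR D F t)
    (hW : s = l * wR D t) (hu : u = vR D F t * c) (hj : j = (1 + vR D F t / 20)⁻¹) :
    c ^ 2 * dC D F t = F * s * exp (F * t) * kC (pC D F) (bC D F) (qC D F) c u F P Q R Y +
      8 * F * c ^ 2 * gR D F t - u ^ 2 * ((bC D F + qC D F) *
        (exp (F * t) - j * (2 - j)) + F * j * eC D F j) := by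
  have hw := wR_ne ht h0
  have e : s * kC (pC D F) (bC D F) (qC D F) c u F P Q R Y * exp (F * t) =
      c ^ 2 * ((oC D F).K D F t + (bC D F + qC D F) * vR D F t ^ 2 * uR F t - 8 * gR D F t) := by
    obtain rfl : Y = l * yR D F t / s ^ 2 := by rw [← hY]; field_simp
    obtain rfl : l = s / wR D t := by rw [hW]; field_simp
    subst hP hQ hR hu
    rw [Gp.K_eq ht h0]
    simp only [Gp.P, Gp.C3, Gp.C2, Gp.C1, Gp.C0, oC, kC, pjR_smul, U1, U2, U3, U4]
    generalize pjR F _ _ _ = p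
    generalize pC D F = a, bC D F = b, qC D F = q
    field_simp
    ring
  rw [dC, sC, ← hj, hu]
  rw [hu] at e
  linear_combination -F * e - c ^ 2 * (bC D F + qC D F) * vR D F t ^ 2 * F_uR (F := F) t

theorem center (hF : F ≠ 0) : dC D F =O[𝓝 0] fun t ↦ t ^ 7 := by
  have J := (oC D F).K_jet6 (D := D) (F := F)
  have c : ContinuousAt (fun v : ℝ ↦ (1 + v / 20)⁻¹) 0 := ContinuousAt.inv₀ (by fun_prop) (by simp)
  refine (((J.cast (b4 := aC4 D F) (b6 := aC6 D F) rfl rfl rfl (by simp only [oC]; ring)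
    (by simp only [oC, aC4]; ring) (by simp only [oC]; ring)
    (by simp only [oC, aC6]; ring)).center7 (E := fun v ↦ (1 + v / 20)⁻¹ *
      ((1 + v / 20)⁻¹ * ((bC D F + qC D F) / F - aC4 D F + (1 + v / 20)⁻¹ *
        (eC0 D F + (1 + v / 20)⁻¹ * (eC1 D F + (1 + v / 20)⁻¹ *
          (eC2 D F + (1 + v / 20)⁻¹ * eC3 D F)))) / 400 -
      aC6 D F * (1 + (1 + v / 20)⁻¹) / 20)) (by fun_prop)).const_mul_left F).congr' ?_
      EventuallyEq.rfl
  filter_upwards [(JR_open D).mem_nhds (zero_mem_JR D)] with t ht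
  have h1 : 0 < 1 + vR D F t / 20 := by rw [← gR_sq ht]; positivity
  have h2 := mul_inv_cancel₀ h1.ne'
  simp only [dC, sC, eC]
  generalize (1 + vR D F t / 20)⁻¹ = j at *
  have h3 : 1 - j = vR D F t * j / 20 := by linarith
  have h4 : 2 - j = 1 + vR D F t * j / 20 := by linarith
  have h5 := mul_div_cancel₀ (bC D F + qC D F) hF
  rw [h3, h4]
  linear_combination -(vR D F t ^ 4 * j ^ 2 / 400) * h5 + F * vR D F t ^ 2 * (aC4 D F *
    (1 + vR D F t * j / 20) + aC6 D F * vR D F t * (1 + j)) * h2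

/-- the expression computed near the center -/
noncomputable def gC (D F t : ℝ) : ℝ :=
  let z := exp (-(t / 2))
  let y := exp (-(F * t))
  let m := muR D F t
  let i := (ph1 (t / 2) * (1 + z) / 2 * (1 + D - D * z ^ 2))⁻¹
  let j := (1 + t ^ 2 * m / 20)⁻¹
  F * (kC (pC D F) (bC D F) (qC D F) j (t ^ 2 * (m * j)) F
    ((1 + D) * exp (t / 2) * i) ((1 + 2 * D) * z * i) (D * z ^ 3 * i)
    (m * y * y * exp (t / 2) / 2 * i) + 8 * j ^ 2 * y * (m * (√m)⁻¹)) -
    t * (t ^ 2 * (m * j)) * (m * j) * ((bC D F + qC D F) * (1 - y * j * (2 - j)) +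
      F * y * j * eC D F j)

theorem gC_eq (ht : t ∈ JR D) (h0 : t ≠ 0) :
    gC D F t * t = (1 + vR D F t / 20)⁻¹ ^ 2 * exp (-(F * t)) * dC D F t := by
  have h1 := half_mul t
  have h2 : exp (F * t) * exp (-(F * t)) = 1 := by rw [← exp_add]; simp
  have h3 : exp ((2 - 2 * F) * t) = exp (t / 2) ^ 4 * exp (-(F * t)) ^ 2 := by
    rw [← exp_nat_mul, ← exp_nat_mul, ← exp_add]; congr 1; push_cast; ring
  have h4 := mul_inv_cancel₀ (wS_pos ht).ne'
  have h5 : muR D F t * (√(muR D F t))⁻¹ = √(muR D F t) := div_sqrt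
  have key := hom (F := F) (l := exp (-(t / 2)) ^ 3 * (wS D t)⁻¹)
    (P := (1 + D) * exp (t / 2) * (wS D t)⁻¹) (Q := (1 + 2 * D) * exp (-(t / 2)) * (wS D t)⁻¹)
    (R := D * exp (-(t / 2)) ^ 3 * (wS D t)⁻¹)
    (Y := muR D F t * exp (-(F * t)) * exp (-(F * t)) * exp (t / 2) / 2 * (wS D t)⁻¹)
    (c := (1 + vR D F t / 20)⁻¹) (u := t ^ 2 * (muR D F t * (1 + vR D F t / 20)⁻¹)) ht h0 h0
    (by rw [PR, half_sq t]
        generalize exp (t / 2) = x, exp (-(t / 2)) = z at *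
        linear_combination -(1 + D) * x * ((x * z) ^ 2 + x * z + 1) * (wS D t)⁻¹ * h1)
    (by rw [QR, half_sq t]
        generalize exp (t / 2) = x, exp (-(t / 2)) = z at *
        linear_combination -(1 + 2 * D) * z * (x * z + 1) * (wS D t)⁻¹ * h1) (by ring)
    (by rw [yR, vR, h3]
        generalize exp (t / 2) = x, exp (-(t / 2)) = z at *
        linear_combination -(t ^ 2 * muR D F t * exp (-(F * t)) ^ 2 * x / 2) *
          ((x * z) ^ 2 + x * z + 1) * (wS D t)⁻¹ * h1)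
    (by linear_combination (wS D t)⁻¹ * wS_eq D t - t * h4) (by rw [vR]; ring) rfl
  simp only [gC, h5]
  simp only [wS, vR, gR] at key ⊢
  generalize (1 + t ^ 2 * muR D F t / 20)⁻¹ = j at *
  generalize kC _ _ _ _ _ _ _ _ _ _ = k at key ⊢
  linear_combination -exp (-(F * t)) * key - (F * t * k - (t ^ 2 * (muR D F t * j)) ^ 2 *
    (bC D F + qC D F)) * h2

theorem gC_bigO (hF : F ≠ 0) {σ : ℝ → ℝ} (h : Tendsto σ (𝓝[>] 0) (𝓝[≠] 0))
    (e : ∀ s, σ s ^ 6 = s ^ 6) : (fun s ↦ gC D F (σ s)) =O[𝓝[>] 0] fun s ↦ s ^ 6 := by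
  have c : ContinuousAt (fun t ↦ (1 + vR D F t / 20)⁻¹ ^ 2 * exp (-(F * t))) 0 :=
    ((ContinuousAt.inv₀ (continuousAt_const.add (vR_cont.continuousAt.div_const 20))
      (by simp [vR])).pow 2).mul (by fun_prop)
  obtain ⟨K, hK⟩ := ((c.isBigO_one ℝ).mul (center (D := D) hF)).bound
  have : gC D F =O[𝓝[≠] 0] fun t ↦ t ^ 6 := by
    refine .of_bound K ?_
    filter_upwards [nhdsWithin_le_nhds ((JR_open D).mem_nhds (zero_mem_JR D)),
      nhdsWithin_le_nhds hK, self_mem_nhdsWithin] with t ht h h0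
    rw [← gC_eq ht h0, one_mul, norm_mul, pow_succ t 6, norm_mul, ← mul_assoc] at h
    exact le_of_mul_le_mul_right h (norm_pos_iff.2 h0)
  exact (this.comp_tendsto h).congr (fun _ ↦ rfl) e

theorem gC_sign (ht : t ∈ JR D) (h0 : t ≠ 0) (h : 0 < gC D F t) : 0 < t * dC D F t := by
  have h1 : 0 < (1 + vR D F t / 20)⁻¹ ^ 2 * exp (-(F * t)) := by rw [← gR_sq ht]; positivity
  refine (mul_pos_iff_of_pos_left h1).1 ?_
  linear_combination mul_pos h (pow_pos (abs_pos.2 h0) 2) + t * gC_eq (F := F) ht h0 +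
    gC D F t * sq_abs t

end B3b

end Pool.Agent.Lib.MP_d6150d_an
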