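import Pool.Agent.Lib.MP_d6150d_an.GDef

/-! A generated chart: the program. -/

namespace Pool.Agent.Lib.MP_d6150d_an.B3bL

def prog6 : List Ins := .add false 2 0 :: .cst 441 100000 :: .mul 0 8 :: .sub true 2 0 :: .mul 16 0
    :: .add false 8 0 :: .cst 793 100000 :: .cst 113 25000 :: .mul 0 14 :: .add true 2 0 :: .mul 16
    0 :: .add false 5 0 :: .cst 8303 100000 :: .cst 9 1000 :: .mul 0 26 :: .sub false 2 0 :: .mul 28
    0 :: .cst (-327) 6250 :: .cst 2967 50000 :: .mul 0 31 :: .sub true 2 0 :: .mul 268 0 :: .add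
    true 5 0 :: .mul 270 0 :: .add true 12 0 :: .mul 272 0 :: .add true 30 0 :: .mul 112 0 :: .add
    true 46 0 :: .mul 114 0 :: .add true 116 0 :: .mul 153 0 :: .add false 156 0 :: .mul 163 0 ::
    .sub false 166 0 :: .cpy 0 :: []

def prog5 : List Ins := .mul 0 257 :: .int 20 :: .add false 1 0 :: .add true 12 0 :: .mul 0 243 ::
    .smul (-13171) 262 :: .int 26927 :: .add true 1 0 :: .mul 0 265 :: .int (-17893) :: .add true 1
    0 :: .mul 0 268 :: .int 4441 :: .add true 1 0 :: .mul 0 271 :: .int (-296) :: .add true 1 0 ::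
    .mul 0 274 :: .int (-8) :: .add false 1 0 :: .add true 15 0 :: .mul 55 0 :: .smul 72 0 :: .smul
    108 216 :: .mul 0 71 :: .add false 2 0 :: .smul 27 210 :: .smul 9 145 :: .add false 1 0 :: .mul
    0 68 :: .add false 4 0 :: .smul 20 0 :: .cst (-1187) 100000 :: .cst 1577 25000 :: .cst 9 7 ::
    .cst 1024 7 :: .mul 0 275 :: .add true 2 0 :: .mul 4 0 :: .sub false 6 0 :: .cst 297 20000 ::
    .smul 100 298 :: .int 24 :: .sub true 1 0 :: .mul 3 0 :: .add false 5 0 :: .cst (-1051) 6250 ::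
    .cst (-9909) 100000 :: .cst 219 25000 :: .mul 0 11 :: prog6

def prog4 : List Ins := .add false 0 115 :: .add true 8 0 :: .mul 23 0 :: .smul (-8) 0 :: .smul 14
    147 :: .cst 1 6 :: .smul (-2) 195 :: .smul (-1) 214 :: .add false 0 205 :: .add true 2 0 :: .mul
    4 0 :: .mul 6 0 :: .sub true 8 0 :: .mul 0 40 :: .sub true 211 161 :: .cst 1 136080 :: .smul
    (-62720) 205 :: .smul (-156800) 224 :: .int (-44800) :: .add false 1 0 :: .add false 3 0 :: .mul
    0 210 :: .smul (-180320) 229 :: .int (-49280) :: .add false 1 0 :: .mul 0 232 :: .int (-4760) ::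
    .add false 1 0 :: .add false 6 0 :: .mul 0 218 :: .smul (-123760) 237 :: .int 10416 :: .add true
    1 0 :: .mul 0 240 :: .int (-1596) :: .add false 1 0 :: .mul 0 243 :: .int 28 :: .add false 1 0
    :: .add true 9 0 :: .mul 0 229 :: .smul (-53854) 248 :: .int 45478 :: .add true 1 0 :: .mul 0
    251 :: .int (-11886) :: .add true 1 0 :: .mul 0 254 :: .int 802 :: .add true 1 0 :: prog5

def prog3 : List Ins := .add true 10 0 :: .mul 104 0 :: .smul (-14) 91 :: .smul 28 85 :: .add false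
    1 0 :: .smul 10 22 :: .add true 1 0 :: .mul 8 20 :: .mul 1 0 :: .add false 7 0 :: .mul 113 0 ::
    .smul 8 107 :: .mul 0 135 :: .rsq 139 :: .mul 140 0 :: .mul 2 0 :: .add true 5 0 :: .mul 174 0
    :: .mul 171 109 :: .mul 0 111 :: .add false 104 38 :: .mul 144 118 :: .sub true 158 119 :: .mul
    1 0 :: .sub true 171 0 :: .mul 4 0 :: .mul 183 149 :: .mul 0 124 :: .cst 1 1080 :: .smul (-320)
    168 :: .smul (-480) 187 :: .int (-60) :: .add false 1 0 :: .add false 3 0 :: .mul 0 173 :: .smul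
    (-312) 192 :: .int 102 :: .add true 1 0 :: .mul 0 195 :: .int (-6) :: .add false 1 0 :: .add
    true 6 0 :: .mul 0 181 :: .smul (-103) 200 :: .int 156 :: .add true 1 0 :: .mul 0 203 :: .int
    (-57) :: .add true 1 0 :: .mul 0 206 :: prog4

def prog2 : List Ins := .smul 3 0 :: .sub true 2 0 :: .mul 18 0 :: .smul 3 6 :: .sub true 6 0 ::
    .mul 14 0 :: .mul 19 9 :: .mul 19 11 :: .smul 8 35 :: .sub false 0 33 :: .sub false 2 0 :: .add
    true 4 0 :: .mul 31 0 :: .add false 7 0 :: .mul 18 22 :: .smul 3 0 :: .sub false 2 0 :: .add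
    true 14 0 :: .mul 37 0 :: .mul 28 17 :: .smul 5 0 :: .sub true 2 0 :: .mul 51 0 :: .smul 16 69
    :: .smul 104 63 :: .add false 1 0 :: .smul 112 58 :: .add false 1 0 :: .cst 7 25000 :: .cst 7 25
    :: .mul 0 119 :: .sub false 2 0 :: .mul 0 65 :: .smul 8 0 :: .add false 6 0 :: .mul 0 33 :: .mul
    133 133 :: .mul 1 0 :: .add true 15 0 :: .mul 92 0 :: .smul (-4) 86 :: .smul 68 80 :: .add false
    1 0 :: .smul 160 75 :: .add false 1 0 :: .smul 28 12 :: .add true 1 0 :: .mul 0 55 :: .mul 11 11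
    :: .mul 1 0 :: prog3

def prog1 : List Ins := .mul 2 0 :: .add false 48 0 :: .inv 0 :: .mul 0 0 :: .cst 1 125 :: .smul 2
    44 :: .sub false 1 0 :: .mul 33 4 :: .mul 9 0 :: .mul 6 0 :: .mul 3 0 :: .add false 7 0 :: .cst
    801 160000 :: .cst 1 50 :: .mul 0 71 :: .sub true 2 0 :: .mul 7 7 :: .mul 1 0 :: .add false 6 0
    :: .smul 16 0 :: .mul 0 23 :: .mul 30 40 :: .mul 0 26 :: .add false 70 17 :: .mul 0 37 :: .mul 0
    29 :: .sub false 3 0 :: .mul 35 40 :: .mul 67 0 :: .mul 0 33 :: .add true 3 0 :: .int 6 :: .smul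
    5 89 :: .sub true 1 0 :: .int 4 :: .smul 3 92 :: .sub true 1 0 :: .sub true 73 94 :: .mul 0 7 ::
    .smul 2 16 :: .sub true 0 14 :: .sub true 2 0 :: .mul 5 0 :: .mul 5 2 :: .smul 4 21 :: .sub true
    0 19 :: .sub true 2 0 :: .add false 4 0 :: .mul 17 0 :: .mul 8 7 :: prog2

def prog : List Ins := .var 1 :: .cst 1 2 :: .smul 2 1 :: .var 2 :: .smul (-1) 0 :: .mul 2 0 :: .tri
    0 :: .mul 6 0 :: .int 1 :: .sub true 8 0 :: .mul 0 7 :: .tri 0 :: .mul 4 0 :: .sub false 7 0 ::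
    .var 0 :: .smul 2 2 :: .sub false 10 0 :: .int 2 :: .sub true 19 0 :: .mul 0 18 :: .tri 0 ::
    .mul 4 0 :: .add true 7 0 :: .mul 10 0 :: .add false 12 0 :: .smul 2 0 :: .mul 31 27 :: .smul
    (-1) 0 :: .exp 0 :: .mul 3 0 :: .mul 0 1 :: .mul 35 32 :: .tri 0 :: .mul 4 2 :: .mul 40 0 ::
    .smul (-1) 5 :: .exp 0 :: .add false 34 0 :: .mul 6 0 :: .mul 45 0 :: .add false 37 29 :: .mul 4
    4 :: .mul 31 0 :: .sub false 2 0 :: .mul 4 0 :: .inv 0 :: .mul 11 0 :: .cst 1 20 :: .mul 51 51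
    :: .mul 0 25 :: prog1

def vs : List Vr := [⟨4, 0, false, false⟩, ⟨3, 0, false, false⟩, ⟨10, 6, false, false⟩]

def C : Chart := ⟨vs, prog, [], 1, 3⟩

end Pool.Agent.Lib.MP_d6150d_an.B3bL
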