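import Pool.Agent.Lib.MP_d6150d_an.GDef

/-! A generated chart: the program. -/

namespace Pool.Agent.Lib.MP_d6150d_an.B3bM

def prog6 : List Ins := .add true 11 0 :: .mul 68 0 :: .smul (-4) 68 :: .smul 68 67 :: .add false 1
    0 :: .smul 160 67 :: .add false 1 0 :: .smul 28 12 :: .add true 1 0 :: .mul 0 51 :: .mul 11 11
    :: .mul 1 0 :: .add true 10 0 :: .mul 80 0 :: .smul (-14) 78 :: .smul 28 77 :: .add false 1 0 ::
    .smul 10 22 :: .add true 1 0 :: .mul 8 20 :: .mul 1 0 :: .add true 7 0 :: .mul 89 0 :: .mul 319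
    0 :: .sub false 101 0 :: .smul 8 321 :: .mul 0 269 :: .smul 20 308 :: .mul 0 286 :: .rsq 291 ::
    .mul 292 0 :: .mul 2 0 :: .mul 5 0 :: .add false 8 0 :: .cpy 0 :: []

def prog5 : List Ins := .sub true 1 0 :: .smul 3 247 :: .sub true 165 0 :: .sub true 195 249 :: .mul
    0 6 :: .smul 2 12 :: .sub false 0 11 :: .sub true 2 0 :: .mul 5 0 :: .mul 5 2 :: .smul 4 17 ::
    .sub true 0 16 :: .sub true 2 0 :: .add false 4 0 :: .mul 16 0 :: .mul 8 7 :: .smul 3 0 :: .sub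
    true 2 0 :: .mul 17 0 :: .smul 3 6 :: .sub true 6 0 :: .mul 14 0 :: .mul 19 9 :: .mul 19 11 ::
    .smul 8 31 :: .sub false 0 30 :: .sub false 2 0 :: .add true 4 0 :: .mul 30 0 :: .add false 7 0
    :: .mul 18 22 :: .smul 3 0 :: .sub false 2 0 :: .add true 14 0 :: .mul 36 0 :: .mul 28 17 ::
    .smul 5 0 :: .sub true 2 0 :: .mul 47 0 :: .smul 16 55 :: .smul 104 54 :: .add false 1 0 ::
    .smul 112 54 :: .add false 1 0 :: .mul 242 250 :: .smul 8 0 :: .add false 2 0 :: .mul 0 29 ::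
    .mul 297 297 :: .mul 1 0 :: prog6

def prog4 : List Ins := .add false 5 0 :: .cst 8303 100000 :: .cst 9 1000 :: .mul 0 26 :: .sub false
    2 0 :: .mul 28 0 :: .cst (-327) 6250 :: .cst 2967 50000 :: .mul 0 31 :: .sub true 2 0 :: .mul
    151 0 :: .add true 5 0 :: .mul 153 0 :: .add true 12 0 :: .mul 155 0 :: .add true 30 0 :: .mul
    112 0 :: .add true 46 0 :: .mul 114 0 :: .add true 116 0 :: .mul 156 0 :: .add true 158 0 ::
    .mul 178 0 :: .cst 1 2 :: .mul 0 186 :: .smul (-1) 223 :: .mul 223 210 :: .sub false 203 0 ::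
    .mul 212 0 :: .add false 3 0 :: .inv 0 :: .smul (-1) 0 :: .mul 7 0 :: .mul 174 174 :: .mul 175
    191 :: .mul 142 0 :: .add false 2 0 :: .mul 189 193 :: .add false 1 0 :: .smul 16 0 :: .mul 0 7
    :: .mul 238 224 :: .mul 0 10 :: .mul 219 227 :: .mul 0 12 :: .sub false 2 0 :: .mul 244 14 ::
    .add false 1 0 :: .int 6 :: .smul 5 245 :: prog5

def prog3 : List Ins := .mul 0 146 :: .int 4441 :: .add true 1 0 :: .mul 0 149 :: .int (-296) ::
    .add true 1 0 :: .mul 0 152 :: .int (-8) :: .add false 1 0 :: .add true 15 0 :: .mul 55 0 ::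
    .smul 72 0 :: .smul 108 69 :: .mul 0 73 :: .add false 2 0 :: .smul 27 117 :: .smul 9 114 :: .add
    false 1 0 :: .mul 0 68 :: .add false 4 0 :: .smul 20 0 :: .cst (-1187) 100000 :: .cst 1577 25000
    :: .cst 9 7 :: .cst 1024 7 :: .mul 0 173 :: .add true 2 0 :: .mul 4 0 :: .sub false 6 0 :: .cst
    297 20000 :: .smul 100 176 :: .int 24 :: .sub true 1 0 :: .mul 3 0 :: .add false 5 0 :: .cst
    (-1051) 6250 :: .cst (-9909) 100000 :: .cst 219 25000 :: .mul 0 11 :: .add false 2 0 :: .cst 441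
    100000 :: .mul 0 8 :: .sub false 2 0 :: .mul 16 0 :: .add false 8 0 :: .cst 793 100000 :: .cst
    113 25000 :: .mul 0 14 :: .add true 2 0 :: .mul 16 0 :: prog4

def prog2 : List Ins := .mul 6 0 :: .sub true 10 0 :: .mul 0 42 :: .sub true 102 44 :: .cst 1 136080
    :: .smul (-62720) 103 :: .smul (-156800) 102 :: .int (-44800) :: .add false 1 0 :: .add false 3
    0 :: .mul 0 108 :: .smul (-180320) 107 :: .int (-49280) :: .add false 1 0 :: .mul 0 110 :: .int
    (-4760) :: .add false 1 0 :: .add false 6 0 :: .mul 0 116 :: .smul (-123760) 115 :: .int 10416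
    :: .add true 1 0 :: .mul 0 118 :: .int (-1596) :: .add false 1 0 :: .mul 0 121 :: .int 28 ::
    .add false 1 0 :: .add true 9 0 :: .mul 0 127 :: .smul (-53854) 126 :: .int 45478 :: .add true 1
    0 :: .mul 0 129 :: .int (-11886) :: .add true 1 0 :: .mul 0 132 :: .int 802 :: .add true 1 0 ::
    .mul 0 135 :: .int 20 :: .add false 1 0 :: .add true 12 0 :: .mul 0 141 :: .smul (-13171) 140 ::
    .int 26927 :: .add true 1 0 :: .mul 0 143 :: .int (-17893) :: .add true 1 0 :: prog3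

def prog1 : List Ins := .mul 0 48 :: .sub false 2 0 :: .add false 4 0 :: .mul 34 38 :: .mul 0 44 ::
    .smul 20 0 :: .mul 0 14 :: .int 2 :: .mul 18 16 :: .sub true 1 0 :: .mul 3 0 :: .sub true 60 0
    :: .mul 9 0 :: .mul 59 6 :: .cst 1 1080 :: .smul (-320) 63 :: .smul (-480) 62 :: .int (-60) ::
    .add false 1 0 :: .add false 3 0 :: .mul 0 68 :: .smul (-312) 67 :: .int 102 :: .add true 1 0 ::
    .mul 0 70 :: .int (-6) :: .add false 1 0 :: .add true 6 0 :: .mul 0 76 :: .smul (-103) 75 ::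
    .int 156 :: .add true 1 0 :: .mul 0 78 :: .int (-57) :: .add true 1 0 :: .mul 0 81 :: .int 4 ::
    .add false 1 0 :: .add true 9 0 :: .mul 24 0 :: .smul (-8) 0 :: .cst 1 125 :: .sub false 0 69 ::
    .smul 14 0 :: .cst 1 6 :: .smul (-2) 93 :: .smul (-1) 92 :: .add false 0 96 :: .add true 2 0 ::
    .mul 4 0 :: prog2

def prog : List Ins := .int 1 :: .var 0 :: .add false 1 0 :: .var 1 :: .inv 0 :: .mul 2 0 :: .var 2
    :: .mul 3 0 :: .exp 0 :: .mul 0 0 :: .mul 0 0 :: .smul 4 7 :: .sub true 11 0 :: .mul 0 6 :: .exp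
    0 :: .mul 4 0 :: .mul 0 0 :: .mul 7 8 :: .mul 0 3 :: .mul 0 0 :: .sub true 3 0 :: .mul 15 0 ::
    .smul 2 20 :: .add false 22 0 :: .smul 2 0 :: .smul 2 21 :: .sub true 25 0 :: .inv 0 :: .mul 3 0
    :: .sub true 13 9 :: .mul 1 0 :: .add false 9 0 :: .sub true 31 28 :: .inv 0 :: .mul 32 0 ::
    .sub false 34 15 :: .mul 1 0 :: .sub true 5 0 :: .smul 20 0 :: .smul 20 19 :: .add false 0 2 ::
    .inv 0 :: .mul 3 0 :: .mul 0 0 :: .cst 801 160000 :: .cst 1 50 :: .mul 0 42 :: .sub true 2 0 ::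
    .cst 7 25000 :: .cst 7 25 :: prog1

def vs : List Vr := [⟨5, 0, false, false⟩, ⟨4, 0, false, false⟩, ⟨6, 0, false, false⟩]

def C : Chart := ⟨vs, prog, [], 1, 3⟩

end Pool.Agent.Lib.MP_d6150d_an.B3bM
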