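import Pool.Agent.Lib.MP_d6150d_an.GDef

/-! A generated chart: the program. -/

namespace Pool.Agent.Lib.MP_d6150d_an.B3bP

def prog7 : List Ins := .sub false 164 0 :: .cpy 0 :: []

def prog6 : List Ins := .mul 0 293 :: .add true 2 0 :: .mul 4 0 :: .sub false 6 0 :: .cst 297 20000
    :: .smul 100 304 :: .int 24 :: .sub true 1 0 :: .mul 3 0 :: .add false 5 0 :: .cst (-1051) 6250
    :: .cst (-9909) 100000 :: .cst 219 25000 :: .mul 0 11 :: .add false 2 0 :: .cst 441 100000 ::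
    .mul 0 8 :: .sub true 2 0 :: .mul 16 0 :: .add false 8 0 :: .cst 793 100000 :: .cst 113 25000 ::
    .mul 0 14 :: .add true 2 0 :: .mul 16 0 :: .add false 5 0 :: .cst 8303 100000 :: .cst 9 1000 ::
    .mul 0 26 :: .sub false 2 0 :: .mul 28 0 :: .cst (-327) 6250 :: .cst 2967 50000 :: .mul 0 31 ::
    .sub true 2 0 :: .mul 109 0 :: .add true 5 0 :: .mul 111 0 :: .add true 12 0 :: .mul 113 0 ::
    .add true 30 0 :: .mul 112 0 :: .add true 46 0 :: .mul 114 0 :: .add true 116 0 :: .mul 344 0 ::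
    .add false 272 264 :: .mul 0 120 :: .sub false 2 0 :: .mul 158 0 :: prog7

def prog5 : List Ins := .mul 0 249 :: .int 28 :: .add false 1 0 :: .add true 9 0 :: .mul 0 247 ::
    .smul (-53854) 254 :: .int 45478 :: .add true 1 0 :: .mul 0 257 :: .int (-11886) :: .add true 1
    0 :: .mul 0 260 :: .int 802 :: .add true 1 0 :: .mul 0 263 :: .int 20 :: .add false 1 0 :: .add
    true 12 0 :: .mul 0 261 :: .smul (-13171) 268 :: .int 26927 :: .add true 1 0 :: .mul 0 271 ::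
    .int (-17893) :: .add true 1 0 :: .mul 0 274 :: .int 4441 :: .add true 1 0 :: .mul 0 277 :: .int
    (-296) :: .add true 1 0 :: .mul 0 280 :: .int (-8) :: .add false 1 0 :: .add true 15 0 :: .mul
    55 0 :: .smul 72 0 :: .smul 108 233 :: .mul 0 72 :: .add false 2 0 :: .smul 27 216 :: .smul 9
    209 :: .add false 1 0 :: .mul 0 70 :: .add false 4 0 :: .smul 20 0 :: .cst (-1187) 100000 ::
    .cst 1577 25000 :: .cst 9 7 :: .cst 1024 7 :: prog6

def prog4 : List Ins := .add true 1 0 :: .mul 0 200 :: .int (-6) :: .add false 1 0 :: .add true 6 0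
    :: .mul 0 198 :: .smul (-103) 205 :: .int 156 :: .add true 1 0 :: .mul 0 208 :: .int (-57) ::
    .add true 1 0 :: .mul 0 211 :: .add false 0 99 :: .add true 8 0 :: .mul 23 0 :: .smul (-8) 0 ::
    .smul 14 163 :: .cst 1 6 :: .smul (-2) 212 :: .add false 81 214 :: .add true 1 0 :: .mul 3 0 ::
    .mul 5 0 :: .sub true 7 0 :: .mul 37 35 :: .sub true 123 0 :: .mul 2 0 :: .sub true 222 2 ::
    .cst 1 136080 :: .smul (-62720) 223 :: .smul (-156800) 230 :: .int (-44800) :: .add false 1 0 ::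
    .add false 3 0 :: .mul 0 228 :: .smul (-180320) 235 :: .int (-49280) :: .add false 1 0 :: .mul 0
    238 :: .int (-4760) :: .add false 1 0 :: .add false 6 0 :: .mul 0 236 :: .smul (-123760) 243 ::
    .int 10416 :: .add true 1 0 :: .mul 0 246 :: .int (-1596) :: .add false 1 0 :: prog5

def prog3 : List Ins := .mul 5 0 :: .sub false 8 0 :: .smul 5 44 :: .mul 121 3 :: .add false 31 0 ::
    .mul 2 0 :: .sub true 4 0 :: .mul 55 0 :: .smul 16 64 :: .smul 104 63 :: .add false 1 0 :: .smul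
    112 62 :: .add false 1 0 :: .mul 81 65 :: .smul 8 0 :: .add false 2 0 :: .mul 0 16 :: .add true
    9 0 :: .mul 77 0 :: .smul (-4) 75 :: .smul 68 74 :: .add false 1 0 :: .smul 160 73 :: .add false
    1 0 :: .smul 28 10 :: .add true 1 0 :: .mul 0 68 :: .sub true 8 0 :: .mul 85 0 :: .add false 91
    0 :: .smul 8 179 :: .rsq 143 :: .mul 144 0 :: .mul 2 0 :: .add true 4 0 :: .mul 180 0 :: .smul
    20 88 :: .smul 20 176 :: .add false 0 150 :: .inv 0 :: .mul 3 0 :: .cst 1 1080 :: .smul (-320)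
    185 :: .smul (-480) 192 :: .int (-60) :: .add false 1 0 :: .add false 3 0 :: .mul 0 190 :: .smul
    (-312) 197 :: .int 102 :: prog4

def prog2 : List Ins := .smul 16 0 :: .mul 0 10 :: .int 2 :: .sub true 0 102 :: .mul 89 60 :: .mul
    65 61 :: .smul 2 0 :: .sub false 2 0 :: .mul 4 0 :: .smul 3 4 :: .smul 4 4 :: .sub false 1 0 ::
    .sub true 3 0 :: .int 4 :: .smul 3 113 :: .sub true 1 0 :: .mul 0 8 :: .sub false 4 0 :: .smul 3
    5 :: .sub true 1 0 :: .smul 2 0 :: .mul 120 120 :: .smul 3 0 :: .mul 91 3 :: .add true 1 0 ::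
    .mul 17 0 :: .add false 5 0 :: .mul 11 14 :: .add false 1 0 :: .mul 25 17 :: .smul 7 25 :: .smul
    8 25 :: .sub false 1 0 :: .sub false 3 0 :: .add false 5 0 :: .smul 12 27 :: .add false 1 0 ::
    .smul 3 25 :: .smul (-1) 137 :: .mul 107 31 :: .sub false 1 0 :: .mul 3 0 :: .sub false 5 0 ::
    .smul 5 142 :: .add false 30 0 :: .smul 6 37 :: .add false 28 0 :: .smul 3 39 :: .mul 0 7 ::
    .sub true 2 0 :: prog3

def prog1 : List Ins := .add true 44 0 :: .mul 5 0 :: .cst 1 125 :: .sub false 0 39 :: .mul 16 10 ::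
    .mul 19 54 :: .sub false 48 0 :: .mul 31 16 :: .sub true 1 0 :: .mul 4 0 :: .mul 6 0 :: .mul 0
    16 :: .smul 15 16 :: .smul 24 18 :: .sub false 1 0 :: .int 7 :: .sub true 1 0 :: .mul 5 0 ::
    .add false 16 0 :: .mul 9 9 :: .cst 801 160000 :: .cst 1 50 :: .mul 0 71 :: .sub true 2 0 ::
    .smul 12 29 :: .sub false 0 12 :: .sub true 0 70 :: .mul 3 0 :: .cst 7 25000 :: .cst 7 25 ::
    .mul 0 73 :: .sub false 2 0 :: .smul 3 37 :: .sub true 0 77 :: .mul 2 0 :: .add true 7 0 :: .mul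
    16 0 :: .add false 18 0 :: .mul 87 63 :: .cst 1 2 :: .mul 0 35 :: .mul 0 0 :: .mul 3 0 :: .mul
    82 82 :: .mul 83 56 :: .mul 41 0 :: .add false 2 0 :: .mul 59 59 :: .mul 24 0 :: .add false 2 0
    :: prog2

def prog : List Ins := .var 1 :: .var 2 :: .mul 1 0 :: .smul (-1) 0 :: .exp 0 :: .int 1 :: .var 0 ::
    .add false 1 0 :: .inv 7 :: .mul 1 0 :: .mul 5 5 :: .sub true 5 0 :: .mul 2 0 :: .smul 2 6 ::
    .add false 8 0 :: .smul (-2) 0 :: .smul 2 15 :: .sub true 11 0 :: .inv 0 :: .mul 3 0 :: .smul 4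
    19 :: .sub true 15 0 :: .mul 0 20 :: .smul (-1) 0 :: .exp 0 :: .mul 14 0 :: .sub true 20 0 ::
    .mul 7 0 :: .sub true 22 27 :: .inv 0 :: .mul 23 0 :: .mul 20 5 :: .mul 6 0 :: .sub false 27 0
    :: .mul 3 0 :: .add false 7 0 :: .mul 0 25 :: .add true 24 0 :: .mul 37 0 :: .mul 32 7 :: .sub
    false 25 0 :: .mul 9 0 :: .sub true 34 0 :: .inv 0 :: .mul 5 0 :: .mul 0 0 :: .int 6 :: .smul 15
    2 :: .sub true 1 0 :: .mul 4 0 :: prog1

def vs : List Vr := [⟨3, 0, false, false⟩, ⟨3, 0, false, false⟩, ⟨7, 0, false, false⟩]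

def C : Chart := ⟨vs, prog, [], 1, 3⟩

end Pool.Agent.Lib.MP_d6150d_an.B3bP
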