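import Pool.Agent.Lib.MP_d6150d_an.GDef

/-! A generated chart: the program. -/

namespace Pool.Agent.Lib.MP_d6150d_an.B3bS

def prog6 : List Ins := .sub true 1 0 :: .mul 3 0 :: .add false 5 0 :: .cst (-1051) 6250 :: .cst
    (-9909) 100000 :: .cst 219 25000 :: .mul 0 11 :: .add false 2 0 :: .cst 441 100000 :: .mul 0 8
    :: .sub true 2 0 :: .mul 16 0 :: .add false 8 0 :: .cst 793 100000 :: .cst 113 25000 :: .mul 0
    14 :: .add true 2 0 :: .mul 16 0 :: .add false 5 0 :: .cst 8303 100000 :: .cst 9 1000 :: .mul 0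
    26 :: .sub false 2 0 :: .mul 28 0 :: .cst (-327) 6250 :: .cst 2967 50000 :: .mul 0 31 :: .sub
    true 2 0 :: .mul 109 0 :: .add true 5 0 :: .mul 111 0 :: .add true 12 0 :: .mul 113 0 :: .add
    true 30 0 :: .mul 112 0 :: .add true 46 0 :: .mul 114 0 :: .add true 116 0 :: .mul 336 0 :: .add
    false 272 264 :: .mul 0 120 :: .sub false 2 0 :: .mul 158 0 :: .sub false 164 0 :: .cpy 0 :: []

def prog5 : List Ins := .add true 1 0 :: .mul 0 249 :: .int (-11886) :: .add true 1 0 :: .mul 0 252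
    :: .int 802 :: .add true 1 0 :: .mul 0 255 :: .int 20 :: .add false 1 0 :: .add true 12 0 ::
    .mul 0 257 :: .smul (-13171) 260 :: .int 26927 :: .add true 1 0 :: .mul 0 263 :: .int (-17893)
    :: .add true 1 0 :: .mul 0 266 :: .int 4441 :: .add true 1 0 :: .mul 0 269 :: .int (-296) ::
    .add true 1 0 :: .mul 0 272 :: .int (-8) :: .add false 1 0 :: .add true 15 0 :: .mul 55 0 ::
    .smul 72 0 :: .smul 108 233 :: .mul 0 72 :: .add false 2 0 :: .smul 27 216 :: .smul 9 209 ::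
    .add false 1 0 :: .mul 0 70 :: .add false 4 0 :: .smul 20 0 :: .cst (-1187) 100000 :: .cst 1577
    25000 :: .cst 9 7 :: .cst 1024 7 :: .mul 0 289 :: .add true 2 0 :: .mul 4 0 :: .sub false 6 0 ::
    .cst 297 20000 :: .smul 100 296 :: .int 24 :: prog6

def prog4 : List Ins := .int 156 :: .add true 1 0 :: .mul 0 200 :: .int (-57) :: .add true 1 0 ::
    .mul 0 203 :: .add false 0 99 :: .add true 8 0 :: .mul 23 0 :: .smul (-8) 0 :: .smul 14 163 ::
    .cst 1 6 :: .smul (-2) 208 :: .add false 81 210 :: .add true 1 0 :: .mul 3 0 :: .mul 5 0 :: .sub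
    true 7 0 :: .mul 37 35 :: .sub false 123 0 :: .mul 2 0 :: .sub false 218 2 :: .cst 1 136080 ::
    .smul (-62720) 219 :: .smul (-156800) 222 :: .int (-44800) :: .add false 1 0 :: .add false 3 0
    :: .mul 0 224 :: .smul (-180320) 227 :: .int (-49280) :: .add false 1 0 :: .mul 0 230 :: .int
    (-4760) :: .add false 1 0 :: .add false 6 0 :: .mul 0 232 :: .smul (-123760) 235 :: .int 10416
    :: .add true 1 0 :: .mul 0 238 :: .int (-1596) :: .add false 1 0 :: .mul 0 241 :: .int 28 ::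
    .add false 1 0 :: .add true 9 0 :: .mul 0 243 :: .smul (-53854) 246 :: .int 45478 :: prog5

def prog3 : List Ins := .mul 55 0 :: .smul 16 64 :: .smul 104 63 :: .add false 1 0 :: .smul 112 62
    :: .add false 1 0 :: .mul 81 65 :: .smul 8 0 :: .add false 2 0 :: .mul 0 16 :: .add true 9 0 ::
    .mul 77 0 :: .smul (-4) 75 :: .smul 68 74 :: .add false 1 0 :: .smul 160 73 :: .add false 1 0 ::
    .smul 28 10 :: .add false 1 0 :: .mul 0 68 :: .sub true 8 0 :: .mul 85 0 :: .add false 91 0 ::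
    .smul 8 171 :: .rsq 143 :: .mul 144 0 :: .mul 2 0 :: .add true 4 0 :: .mul 177 0 :: .smul 20 88
    :: .smul 20 172 :: .add false 0 150 :: .inv 0 :: .mul 3 0 :: .cst 1 1080 :: .smul (-320) 181 ::
    .smul (-480) 184 :: .int (-60) :: .add false 1 0 :: .add false 3 0 :: .mul 0 186 :: .smul (-312)
    189 :: .int 102 :: .add true 1 0 :: .mul 0 192 :: .int (-6) :: .add false 1 0 :: .add true 6 0
    :: .mul 0 194 :: .smul (-103) 197 :: prog4

def prog2 : List Ins := .sub false 2 0 :: .mul 4 0 :: .smul 3 4 :: .smul 4 4 :: .sub false 1 0 ::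
    .sub true 3 0 :: .int 4 :: .smul 3 105 :: .sub true 1 0 :: .mul 0 8 :: .sub false 4 0 :: .smul 3
    5 :: .sub true 1 0 :: .smul 2 0 :: .mul 112 112 :: .smul 3 0 :: .mul 91 3 :: .add false 1 0 ::
    .mul 17 0 :: .add false 5 0 :: .mul 11 14 :: .add false 1 0 :: .mul 25 17 :: .smul 7 25 :: .smul
    8 25 :: .sub false 1 0 :: .sub false 3 0 :: .add false 5 0 :: .smul 12 27 :: .add false 1 0 ::
    .smul 3 25 :: .smul (-1) 129 :: .mul 107 31 :: .sub false 1 0 :: .mul 3 0 :: .sub false 5 0 ::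
    .smul 5 134 :: .add false 30 0 :: .smul 6 37 :: .add false 28 0 :: .smul 3 39 :: .mul 0 7 ::
    .sub true 2 0 :: .mul 5 0 :: .sub false 8 0 :: .smul 5 44 :: .mul 121 3 :: .add false 31 0 ::
    .mul 2 0 :: .sub true 4 0 :: prog3

def prog1 : List Ins := .mul 31 16 :: .sub false 1 0 :: .mul 4 0 :: .mul 6 0 :: .mul 0 16 :: .smul
    15 16 :: .smul 24 18 :: .sub false 1 0 :: .int 7 :: .sub true 1 0 :: .mul 5 0 :: .add false 16 0
    :: .mul 9 9 :: .cst 801 160000 :: .cst 1 50 :: .mul 0 63 :: .sub true 2 0 :: .smul 12 29 :: .sub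
    false 0 12 :: .sub true 0 66 :: .mul 3 0 :: .cst 7 25000 :: .cst 7 25 :: .mul 0 69 :: .sub false
    2 0 :: .smul 3 37 :: .sub true 0 73 :: .mul 2 0 :: .add true 7 0 :: .mul 16 0 :: .add false 18 0
    :: .mul 79 63 :: .cst 1 2 :: .mul 0 35 :: .mul 0 0 :: .mul 3 0 :: .mul 78 78 :: .mul 79 56 ::
    .mul 41 0 :: .add false 2 0 :: .mul 59 59 :: .mul 24 0 :: .add false 2 0 :: .smul 16 0 :: .mul 0
    10 :: .int 2 :: .sub true 0 94 :: .mul 85 60 :: .mul 65 61 :: .smul 2 0 :: prog2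

def prog : List Ins := .var 3 :: .var 1 :: .int 1 :: .var 0 :: .add false 1 0 :: .inv 3 :: .mul 1 0
    :: .mul 6 6 :: .sub false 5 0 :: .mul 2 0 :: .smul 2 6 :: .add false 8 0 :: .smul (-2) 0 ::
    .smul 2 11 :: .sub true 11 0 :: .inv 0 :: .mul 3 0 :: .var 2 :: .mul 10 0 :: .sub false 16 0 ::
    .mul 3 0 :: .sub true 18 19 :: .inv 0 :: .mul 19 0 :: .mul 16 5 :: .mul 6 0 :: .sub false 23 0
    :: .mul 3 0 :: .add false 7 0 :: .mul 0 21 :: .add false 20 0 :: .mul 29 0 :: .mul 28 7 :: .sub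
    false 21 0 :: .mul 9 0 :: .sub false 30 0 :: .inv 0 :: .mul 5 0 :: .mul 0 0 :: .int 6 :: .smul
    15 2 :: .sub true 1 0 :: .mul 4 0 :: .add true 40 0 :: .mul 5 0 :: .cst 1 125 :: .sub false 0 35
    :: .mul 16 10 :: .mul 19 46 :: .sub false 44 0 :: prog1

def vs : List Vr := [⟨2, 0, false, false⟩, ⟨2, 0, false, false⟩, ⟨2, 0, false, false⟩, ⟨3, 0, false,
    false⟩]

def C : Chart := ⟨vs, prog, [], 1, 3⟩

end Pool.Agent.Lib.MP_d6150d_an.B3bS
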