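import Pool.Agent.Lib.MP_d6150d_an.GDef

/-! A generated chart: the program. -/

namespace Pool.Agent.Lib.MP_d6150d_an.B3bT

def prog6 : List Ins := .smul 160 67 :: .add false 1 0 :: .smul 28 12 :: .add false 1 0 :: .mul 0 51
    :: .mul 11 11 :: .mul 1 0 :: .add true 10 0 :: .mul 80 0 :: .smul (-14) 78 :: .smul 28 77 ::
    .add false 1 0 :: .smul 10 22 :: .add false 1 0 :: .mul 8 20 :: .mul 1 0 :: .add true 7 0 ::
    .mul 89 0 :: .mul 314 0 :: .sub false 101 0 :: .smul 8 316 :: .mul 0 269 :: .smul 20 308 :: .mul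
    0 286 :: .rsq 291 :: .mul 292 0 :: .mul 2 0 :: .mul 5 0 :: .add false 8 0 :: .cpy 0 :: []

def prog5 : List Ins := .smul 2 12 :: .sub false 0 11 :: .sub false 2 0 :: .mul 5 0 :: .mul 5 2 ::
    .smul 4 17 :: .sub false 0 16 :: .sub true 2 0 :: .add false 4 0 :: .mul 16 0 :: .mul 8 7 ::
    .smul 3 0 :: .sub false 2 0 :: .mul 17 0 :: .smul 3 6 :: .sub false 6 0 :: .mul 14 0 :: .mul 19
    9 :: .mul 19 11 :: .smul 8 31 :: .sub false 0 30 :: .sub false 2 0 :: .add true 4 0 :: .mul 30 0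
    :: .add false 7 0 :: .mul 18 22 :: .smul 3 0 :: .sub false 2 0 :: .add false 14 0 :: .mul 36 0
    :: .mul 28 17 :: .smul 5 0 :: .sub false 2 0 :: .mul 47 0 :: .smul 16 55 :: .smul 104 54 :: .add
    false 1 0 :: .smul 112 54 :: .add false 1 0 :: .mul 242 250 :: .smul 8 0 :: .add false 2 0 ::
    .mul 0 29 :: .mul 292 292 :: .mul 1 0 :: .add true 11 0 :: .mul 68 0 :: .smul (-4) 68 :: .smul
    68 67 :: .add false 1 0 :: prog6

def prog4 : List Ins := .mul 28 0 :: .cst (-327) 6250 :: .cst 2967 50000 :: .mul 0 31 :: .sub true 2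
    0 :: .mul 151 0 :: .add true 5 0 :: .mul 153 0 :: .add true 12 0 :: .mul 155 0 :: .add true 30 0
    :: .mul 112 0 :: .add true 46 0 :: .mul 114 0 :: .add true 116 0 :: .mul 156 0 :: .add true 158
    0 :: .mul 178 0 :: .cst 1 2 :: .mul 0 186 :: .smul (-1) 218 :: .mul 218 210 :: .sub false 203 0
    :: .mul 212 0 :: .add false 3 0 :: .inv 0 :: .smul (-1) 0 :: .mul 7 0 :: .mul 174 174 :: .mul
    175 191 :: .mul 142 0 :: .add false 2 0 :: .mul 189 193 :: .add false 1 0 :: .smul 16 0 :: .mul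
    0 7 :: .mul 233 224 :: .mul 0 10 :: .mul 219 227 :: .mul 0 12 :: .sub false 2 0 :: .mul 239 14
    :: .add false 1 0 :: .int 6 :: .smul 5 240 :: .sub true 1 0 :: .smul 3 242 :: .sub true 165 0 ::
    .sub true 195 244 :: .mul 0 6 :: prog5

def prog3 : List Ins := .add true 1 0 :: .mul 0 147 :: .int (-8) :: .add false 1 0 :: .add true 15 0
    :: .mul 55 0 :: .smul 72 0 :: .smul 108 69 :: .mul 0 73 :: .add false 2 0 :: .smul 27 117 ::
    .smul 9 114 :: .add false 1 0 :: .mul 0 68 :: .add false 4 0 :: .smul 20 0 :: .cst (-1187)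
    100000 :: .cst 1577 25000 :: .cst 9 7 :: .cst 1024 7 :: .mul 0 168 :: .add true 2 0 :: .mul 4 0
    :: .sub false 6 0 :: .cst 297 20000 :: .smul 100 171 :: .int 24 :: .sub true 1 0 :: .mul 3 0 ::
    .add false 5 0 :: .cst (-1051) 6250 :: .cst (-9909) 100000 :: .cst 219 25000 :: .mul 0 11 ::
    .add false 2 0 :: .cst 441 100000 :: .mul 0 8 :: .sub false 2 0 :: .mul 16 0 :: .add false 8 0
    :: .cst 793 100000 :: .cst 113 25000 :: .mul 0 14 :: .add true 2 0 :: .mul 16 0 :: .add false 5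
    0 :: .cst 8303 100000 :: .cst 9 1000 :: .mul 0 26 :: .sub false 2 0 :: prog4

def prog2 : List Ins := .smul (-62720) 98 :: .smul (-156800) 97 :: .int (-44800) :: .add false 1 0
    :: .add false 3 0 :: .mul 0 103 :: .smul (-180320) 102 :: .int (-49280) :: .add false 1 0 ::
    .mul 0 105 :: .int (-4760) :: .add false 1 0 :: .add false 6 0 :: .mul 0 111 :: .smul (-123760)
    110 :: .int 10416 :: .add true 1 0 :: .mul 0 113 :: .int (-1596) :: .add false 1 0 :: .mul 0 116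
    :: .int 28 :: .add false 1 0 :: .add true 9 0 :: .mul 0 122 :: .smul (-53854) 121 :: .int 45478
    :: .add true 1 0 :: .mul 0 124 :: .int (-11886) :: .add true 1 0 :: .mul 0 127 :: .int 802 ::
    .add true 1 0 :: .mul 0 130 :: .int 20 :: .add false 1 0 :: .add true 12 0 :: .mul 0 136 ::
    .smul (-13171) 135 :: .int 26927 :: .add true 1 0 :: .mul 0 138 :: .int (-17893) :: .add true 1
    0 :: .mul 0 141 :: .int 4441 :: .add true 1 0 :: .mul 0 144 :: .int (-296) :: prog3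

def prog1 : List Ins := .smul 20 0 :: .mul 0 14 :: .int 2 :: .mul 18 16 :: .sub false 1 0 :: .mul 3
    0 :: .sub true 55 0 :: .mul 9 0 :: .mul 54 6 :: .cst 1 1080 :: .smul (-320) 58 :: .smul (-480)
    57 :: .int (-60) :: .add false 1 0 :: .add false 3 0 :: .mul 0 63 :: .smul (-312) 62 :: .int 102
    :: .add true 1 0 :: .mul 0 65 :: .int (-6) :: .add false 1 0 :: .add true 6 0 :: .mul 0 71 ::
    .smul (-103) 70 :: .int 156 :: .add true 1 0 :: .mul 0 73 :: .int (-57) :: .add true 1 0 :: .mul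
    0 76 :: .int 4 :: .add false 1 0 :: .add true 9 0 :: .mul 24 0 :: .smul (-8) 0 :: .cst 1 125 ::
    .sub false 0 69 :: .smul 14 0 :: .cst 1 6 :: .smul (-2) 88 :: .smul (-1) 87 :: .add false 0 91
    :: .add true 2 0 :: .mul 4 0 :: .mul 6 0 :: .sub true 10 0 :: .mul 0 42 :: .sub false 97 44 ::
    .cst 1 136080 :: prog2

def prog : List Ins := .int 1 :: .var 0 :: .add false 1 0 :: .var 1 :: .inv 0 :: .mul 2 0 :: .var 3
    :: .mul 0 0 :: .mul 0 0 :: .var 2 :: .mul 1 0 :: .mul 0 0 :: .mul 4 5 :: .mul 0 3 :: .mul 0 0 ::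
    .sub false 3 0 :: .mul 10 0 :: .smul 2 15 :: .add false 17 0 :: .smul 2 0 :: .smul 2 16 :: .sub
    true 20 0 :: .inv 0 :: .mul 3 0 :: .sub false 13 9 :: .mul 1 0 :: .add false 9 0 :: .sub true 26
    23 :: .inv 0 :: .mul 27 0 :: .sub false 29 15 :: .mul 1 0 :: .sub false 5 0 :: .smul 20 0 ::
    .smul 20 19 :: .add false 0 2 :: .inv 0 :: .mul 3 0 :: .mul 0 0 :: .cst 801 160000 :: .cst 1 50
    :: .mul 0 37 :: .sub true 2 0 :: .cst 7 25000 :: .cst 7 25 :: .mul 0 43 :: .sub false 2 0 ::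
    .add false 4 0 :: .mul 34 38 :: .mul 0 41 :: prog1

def vs : List Vr := [⟨3, 0, false, false⟩, ⟨2, 0, false, false⟩, ⟨2, 0, false, false⟩, ⟨3, 0, false,
    false⟩]

def C : Chart := ⟨vs, prog, [], 1, 3⟩

end Pool.Agent.Lib.MP_d6150d_an.B3bT
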