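import Pool.Agent.Lib.MP_d6150d_an.GDef

/-! A generated chart: the program. -/

namespace Pool.Agent.Lib.MP_d6150d_an.B3bW

def prog : List Ins := .var 2 :: .mul 0 0 :: .cst 1 125 :: .var 0 :: .smul 2 0 :: .sub false 2 0 ::
    .int 1 :: .sub true 0 6 :: .smul 48 0 :: .mul 0 8 :: .mul 4 0 :: .add false 9 0 :: .cst 801
    160000 :: .cst 1 50 :: .var 1 :: .mul 1 0 :: .sub true 3 0 :: .mul 8 8 :: .mul 1 0 :: .add false
    7 0 :: .cst 15 2 :: .mul 0 20 :: .int 2 :: .sub true 1 0 :: .mul 0 0 :: .smul 15 24 :: .mul 0 18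
    :: .sub true 2 0 :: .mul 8 0 :: .smul (-10) 27 :: .cst 7 25000 :: .cst 7 25 :: .mul 0 28 :: .sub
    false 2 0 :: .mul 0 16 :: .add true 5 0 :: .mul 0 12 :: .add false 8 0 :: .smul 24 36 :: .add
    false 1 0 :: .smul 16 34 :: .mul 0 31 :: .sub false 2 0 :: .smul (-1) 0 :: .cpy 0 :: []

def vs : List Vr := [⟨1, 0, false, false⟩, ⟨1, 0, false, false⟩, ⟨4, 0, false, false⟩]

def C : Chart := ⟨vs, prog, [], 1, 3⟩

end Pool.Agent.Lib.MP_d6150d_an.B3bW
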