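import Pool.Agent.Lib.MP_d6150d_an.BcAD

/-! A generated chart: the computations. -/

namespace Pool.Agent.Lib.MP_d6150d_an.BcA

theorem k0 : chk C 0x88188128818812881881220 [(0, 140737488355328), (0, 140737488355328), (0,
    70368744177664), (562949953421312, 615726511554560)] = true := by
  decide +kernel

theorem k1 : chk C 0x8828882088220 [(0, 140737488355328), (0, 140737488355328), (0, 70368744177664),
    (615726511554560, 668503069687808)] = true := by
  decide +kernel

theorem k2 : chk C 0x88288128808802880881220 [(0, 140737488355328), (0, 140737488355328),
    (70368744177664, 140737488355328), (562949953421312, 615726511554560)] = true := by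
  decide +kernel

theorem k3 : chk C 0x880828828820882882018882020 [(0, 140737488355328), (0, 140737488355328),
    (70368744177664, 140737488355328), (615726511554560, 668503069687808)] = true := by
  decide +kernel

end Pool.Agent.Lib.MP_d6150d_an.BcA
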