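import Pool.Agent.Lib.MP_d6150d_an.BcAD

/-! A generated chart: the computations. -/

namespace Pool.Agent.Lib.MP_d6150d_an.BcA

theorem k4 : chk C 0x88088288203 [(0, 140737488355328), (0, 140737488355328), (0, 70368744177664),
    (668503069687808, 774056185954304)] = true := by
  decide +kernel

theorem k5 : chk C 0x8882088288800880203 [(0, 140737488355328), (0, 140737488355328),
    (70368744177664, 140737488355328), (668503069687808, 774056185954304)] = true := by
  decide +kernel

theorem k6 : chk C 0x888088023 [(0, 140737488355328), (0, 140737488355328), (0, 140737488355328),
    (774056185954304, 985162418487296)] = true := by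
  decide +kernel

end Pool.Agent.Lib.MP_d6150d_an.BcA
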