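import Pool.Agent.Lib.MP_d6150d_an.CcMac

/-! Program forms of the recurrent expressions. -/

namespace Pool.Agent.Lib.MP_d6150d_an

noncomputable def mBc0 (f n h n2 h1 b1 : ℝ) : ℝ × ℝ :=
  let z0 := ((Int.cast (1) : ℝ) + n)
  ((n2 + (z0 * h1)), (z0 * (((h1 * ((((Int.cast (1) : ℝ) - f) - (((Int.cast (5) : ℝ) + f) * n)) -
    ((Int.cast (3) : ℝ) * h))) - ((Int.cast (3) : ℝ) * n2)) + ((((Int.cast (2) : ℝ) * f) * z0) *
    b1))))

theorem mBc0_0 (f n h n2 h1 b1 : ℝ) : (mBc0 f n h n2 h1 b1).1 = (mBc0 f n h n2 h1 b1).1 := by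
  rfl

theorem mBc0_1 (f n h n2 h1 b1 : ℝ) : (mBc0 f n h n2 h1 b1).2 = (mBc0 f n h n2 h1 b1).2 := by
  rfl

noncomputable def mBcR (f a h m w b : ℝ) : ℝ × ℝ × ℝ × ℝ :=
  let z0 := (a * m)
  let z1 := (((Int.cast (1) : ℝ) - (a * a)) - z0)
  let z2 := (m - w)
  let z3 := (((Int.cast (2) : ℝ) * f) * (a * b))
  let z4 := ((h * z2) + z3)
  let z5 := (a * (z4 - (m * m)))
  let z6 := (a + (f - (Int.cast (1) : ℝ)))
  (z1, ((a * z1) + z5), (((((a + (Int.cast (3) : ℝ)) * ((z6 * z1) + z5)) + (z0 * z1)) + ((z6 + m) *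
    z5)) + (a * ((((z4 * (z2 - ((Int.cast (2) : ℝ) * h))) - (((Int.cast (2) : ℝ) + f) * (h * z0))) +
    (z3 * ((m + z2) - (f * a)))) + ((Int.cast (2) : ℝ) * (m * (((Int.cast (2) : ℝ) * z0) + z4)))))),
    (a * ((((m - (Int.cast (1) : ℝ)) * (m - (Int.cast (3) : ℝ))) + (a * ((a + m) - (Int.cast (4) :
    ℝ)))) - z4)))

theorem mBcR_0 (f a h m w b : ℝ) : (mBcR f a h m w b).1 = (mBcR f a h m w b).1 := by
  rfl

theorem mBcR_1 (f a h m w b : ℝ) : (mBcR f a h m w b).2.1 = (mBcR f a h m w b).2.1 := by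
  rfl

theorem mBcR_2 (f a h m w b : ℝ) : (mBcR f a h m w b).2.2.1 = (mBcR f a h m w b).2.2.1 := by
  rfl

theorem mBcR_3 (f a h m w b : ℝ) : (mBcR f a h m w b).2.2.2 = (mBcR f a h m w b).2.2.2 := by
  rfl

noncomputable def mBcK (F d : ℝ) : ℝ :=
  ((((Int.cast (16) : ℝ) / (Nat.cast 45 : ℝ)) * F) * (((((Int.cast (1) : ℝ) - ((Int.cast (4) : ℝ) *
    F)) * ((Int.cast (1) : ℝ) - F)) * ((Int.cast (2) : ℝ) - ((Int.cast (11) : ℝ) * F))) + (d *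
    ((((Int.cast (3) : ℝ) - ((Int.cast (21) : ℝ) * F)) + ((Int.cast (126) : ℝ) * (F * F))) - (d *
    (((Int.cast (30) : ℝ) + ((Int.cast (210) : ℝ) * F)) - ((Int.cast (160) : ℝ) * d)))))))

theorem mBcK_0 (F d : ℝ) : mBcK F d = (mBcK F d) := by
  rfl

noncomputable def mBcP (q r al c k X V : ℝ) : ℝ :=
  (((((((Int.cast (16) : ℝ) * c) * ((Int.cast (1) : ℝ) + ((Int.cast (3) : ℝ) * X))) + (q *
    ((Int.cast (1) : ℝ) - ((Int.cast (3) : ℝ) * X)))) + r) - (k * V)) - (al * (X * X)))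

theorem mBcP_0 (q r al c k X V : ℝ) : mBcP q r al c k X V = (mBcP q r al c k X V) := by
  rfl

end Pool.Agent.Lib.MP_d6150d_an
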