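import Pool.Agent.Lib.MP_d6150d_an.GEq
import Pool.Agent.Lib.MP_d6150d_an.BcMac
import Pool.Agent.Lib.MP_d6150d_an.BcAK0
import Pool.Agent.Lib.MP_d6150d_an.BcAK1

/-! A generated chart: the inequality. -/

namespace Pool.Agent.Lib.MP_d6150d_an.BcA

set_option linter.unnecessarySeqFocus false
set_option linter.unusedTactic false
set_option linter.unusedVariables false

theorem gd : Gd C [(0, 140737488355328), (0, 140737488355328), (0, 140737488355328),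
    (562949953421312, 985162418487296)] := .split 3 (.split 3 (.split 2 (.split 3 (chk_sound k0)
    (chk_sound k1)) (.split 3 (chk_sound k2) (chk_sound k3))) (.split 2 (chk_sound k4) (chk_sound
    k5))) (chk_sound k6)

set_option maxRecDepth 100000 in
theorem eq {x o w u F f aa qq al y1 y2 y5 m ph s ch d r z15 pc rr r2 A0 B0 i2 Om W iw N0 H0 iq a g
    mm om b c zr ro X S V k z40 z41 z42 z43 G0 z45 G1 : ℝ} (hF : F = 1 / 4 - x / 50) (hf : f = F⁻¹)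
    (haa : aa = 1 / 2 + x / 25) (hqq : qq = 77 / 100) (hal : al = 7 * x / 40) (hy1 : y1 = Real.exp
    (-(aa * u))) (hy2 : y2 = Real.exp (-u)) (hy5 : y5 = Real.exp (-((aa + x / 25) * u))) (hm : m = w
    + 2 * x / 25 * o * (1 - w)) (hph : ph = y1 * w) (hs : s = y2 * m ^ 2) (hch : ch = y5 * (2 * w -
    m)) (hd : d = 1 / 512 * m ^ 2) (hr : r = Real.exp (3 - u / 2)) (hz15 : z15 = Real.exp 6) (hpc :
    pc = 1 / 512 * z15) (hrr : rr = 364 * d - 29 / 100 - 2 * x / 5) (hr2 : r2 = r ^ 2) (hA0 : A0 =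
    (1 - d) * f / 2) (hB0 : B0 = (1 - 2 * d) / aa) (hi2 : i2 = (2 - 2 * F)⁻¹) (hOm : Om = 2 * (r2 *
    (A0 * (s - ph) + B0 * (1 - ph) - d * ph * i2) + pc * i2)) (hW : W = (1 - s) * (r2 * (1 - d) +
    pc)) (hiw : iw = W⁻¹) (hN0 : N0 = F * Om) (hH0 : H0 = Om * (r2 * (1 - 2 * d) + 2 * pc)) (hiq :
    iq = iw ^ 2) (ha : a = -(N0 * iw)) (hg : g = iq * H0) (hmm : mm = iq * (2 * W * (W + N0) - H0))
    (hom : om = iq * (Om * (pc + s * r2 * (1 - d)))) (hb : b = -(iq * (Om * pc))) (hc : c = F * (1 -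
    F + 2 * d) / 3) (hzr : zr = (√(r2 * ph + c * Om))⁻¹) (hro : ro = r * zr) (hX : X = 1 - ph * ro ^
    2) (hS : S = ch * ro ^ 3) (hV : V = Om * zr ^ 2) (hk : k = mBcK F d) (hz40 : z40 = (mBcR f a g
    mm om b).1) (hz41 : z41 = (mBcR f a g mm om b).2.1) (hz42 : z42 = mBcP qq rr al c k X V) (hz43 :
    z43 = (mBcR f a g mm om b).2.2.2) (hG0 : G0 = Om * ((qq + rr) * z40 + qq * z41 - S * z42) - 16 *
    r2 * ph * z43) (hz45 : z45 = (mBcR f a g mm om b).2.2.1) (hG1 : G1 = 1 / 460 * Om ^ 2 * (z45 - 3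
    * S * ph * ro ^ 2 * (f - 1 - 5 * X))) : outR prog 0 [x, o, w, u] = G1 - y1 * (r2 * G0) := by
  replace hF : F = (((Int.cast (1) : ℝ) / (Nat.cast 4 : ℝ)) - (((Int.cast (1) : ℝ) / (Nat.cast 50 :
    ℝ)) * x)) := hF.trans (by push_cast <;> ring)
  replace hf : f = F⁻¹ := hf.trans (by push_cast <;> ring)
  replace haa : aa = (((Int.cast (1) : ℝ) / (Nat.cast 2 : ℝ)) + (((Int.cast (1) : ℝ) / (Nat.cast 25
    : ℝ)) * x)) := haa.trans (by push_cast <;> ring)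
  replace hqq : qq = ((Int.cast (77) : ℝ) / (Nat.cast 100 : ℝ)) := hqq.trans (by push_cast <;> ring)
  replace hal : al = (((Int.cast (1) : ℝ) / (Nat.cast 40 : ℝ)) * ((Int.cast (7) : ℝ) * x)) :=
    hal.trans (by push_cast <;> ring)
  replace hy1 : y1 = (Real.exp ((Int.cast (-1) : ℝ) * (aa * u))) := hy1.trans (congrArg Real.exp (by
    push_cast <;> ring))
  replace hy2 : y2 = (Real.exp ((Int.cast (-1) : ℝ) * u)) := hy2.trans (congrArg Real.exp (by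
    push_cast <;> ring))
  replace hy5 : y5 = (Real.exp ((Int.cast (-1) : ℝ) * ((aa + (((Int.cast (1) : ℝ) / (Nat.cast 25 :
    ℝ)) * x)) * u))) := hy5.trans (congrArg Real.exp (by push_cast <;> ring))
  replace hm : m = (w + (((((Int.cast (1) : ℝ) / (Nat.cast 25 : ℝ)) * ((Int.cast (2) : ℝ) * x)) * o)
    * ((Int.cast (1) : ℝ) - w))) := hm.trans (by push_cast <;> ring)
  replace hph : ph = (y1 * w) := hph.trans (by push_cast <;> ring)
  replace hs : s = (y2 * (m * m)) := hs.trans (by push_cast <;> ring)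
  replace hch : ch = (y5 * (((Int.cast (2) : ℝ) * w) - m)) := hch.trans (by push_cast <;> ring)
  replace hd : d = (((Int.cast (1) : ℝ) / (Nat.cast 512 : ℝ)) * (m * m)) := hd.trans (by push_cast
    <;> ring)
  replace hr : r = (Real.exp ((Int.cast (3) : ℝ) - (((Int.cast (1) : ℝ) / (Nat.cast 2 : ℝ)) * u)))
    := hr.trans (congrArg Real.exp (by push_cast <;> ring))
  replace hz15 : z15 = (Real.exp (Int.cast (6) : ℝ)) := hz15.trans (congrArg Real.exp (by push_cast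
    <;> ring))
  replace hpc : pc = (((Int.cast (1) : ℝ) / (Nat.cast 512 : ℝ)) * z15) := hpc.trans (by push_cast
    <;> ring)
  replace hrr : rr = ((((Int.cast (364) : ℝ) * d) - ((Int.cast (29) : ℝ) / (Nat.cast 100 : ℝ))) -
    (((Int.cast (1) : ℝ) / (Nat.cast 5 : ℝ)) * ((Int.cast (2) : ℝ) * x))) := hrr.trans (by push_cast
    <;> ring)
  replace hr2 : r2 = (r * r) := hr2.trans (by push_cast <;> ring)
  replace hA0 : A0 = (((Int.cast (1) : ℝ) / (Nat.cast 2 : ℝ)) * (((Int.cast (1) : ℝ) - d) * f)) :=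
    hA0.trans (by push_cast <;> ring)
  replace hB0 : B0 = (((Int.cast (1) : ℝ) - ((Int.cast (2) : ℝ) * d)) * aa⁻¹) := hB0.trans (by
    push_cast <;> ring)
  replace hi2 : i2 = ((Int.cast (2) : ℝ) - ((Int.cast (2) : ℝ) * F))⁻¹ := hi2.trans (by push_cast
    <;> ring)
  replace hOm : Om = ((Int.cast (2) : ℝ) * ((r2 * (((A0 * (s - ph)) + (B0 * ((Int.cast (1) : ℝ) -
    ph))) - ((d * ph) * i2))) + (pc * i2))) := hOm.trans (by push_cast <;> ring)
  replace hW : W = (((Int.cast (1) : ℝ) - s) * ((r2 * ((Int.cast (1) : ℝ) - d)) + pc)) := hW.trans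
    (by push_cast <;> ring)
  replace hiw : iw = W⁻¹ := hiw.trans (by push_cast <;> ring)
  replace hN0 : N0 = (F * Om) := hN0.trans (by push_cast <;> ring)
  replace hH0 : H0 = (Om * ((r2 * ((Int.cast (1) : ℝ) - ((Int.cast (2) : ℝ) * d))) + ((Int.cast (2)
    : ℝ) * pc))) := hH0.trans (by push_cast <;> ring)
  replace hiq : iq = (iw * iw) := hiq.trans (by push_cast <;> ring)
  replace ha : a = ((Int.cast (-1) : ℝ) * (N0 * iw)) := ha.trans (by push_cast <;> ring)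
  replace hg : g = (iq * H0) := hg.trans (by push_cast <;> ring)
  replace hmm : mm = (iq * ((((Int.cast (2) : ℝ) * W) * (W + N0)) - H0)) := hmm.trans (by push_cast
    <;> ring)
  replace hom : om = (iq * (Om * (pc + ((s * r2) * ((Int.cast (1) : ℝ) - d))))) := hom.trans (by
    push_cast <;> ring)
  replace hb : b = ((Int.cast (-1) : ℝ) * (iq * (Om * pc))) := hb.trans (by push_cast <;> ring)
  replace hc : c = (((Int.cast (1) : ℝ) / (Nat.cast 3 : ℝ)) * (F * (((Int.cast (1) : ℝ) - F) +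
    ((Int.cast (2) : ℝ) * d)))) := hc.trans (by push_cast <;> ring)
  replace hzr : zr = (√((r2 * ph) + (c * Om)))⁻¹ := hzr.trans (congrArg (fun x : ℝ ↦ (√x)⁻¹) (by
    push_cast <;> ring))
  replace hro : ro = (r * zr) := hro.trans (by push_cast <;> ring)
  replace hX : X = ((Int.cast (1) : ℝ) - (ph * (ro * ro))) := hX.trans (by push_cast <;> ring)
  replace hS : S = (ch * ((ro * ro) * ro)) := hS.trans (by push_cast <;> ring)
  replace hV : V = (Om * (zr * zr)) := hV.trans (by push_cast <;> ring)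
  replace hk : k = (mBcK F d) := hk.trans (mBcK_0 ..)
  replace hz40 : z40 = (mBcR f a g mm om b).1 := hz40.trans (mBcR_0 ..)
  replace hz41 : z41 = (mBcR f a g mm om b).2.1 := hz41.trans (mBcR_1 ..)
  replace hz42 : z42 = (mBcP qq rr al c k X V) := hz42.trans (mBcP_0 ..)
  replace hz43 : z43 = (mBcR f a g mm om b).2.2.2 := hz43.trans (mBcR_3 ..)
  replace hG0 : G0 = ((Om * ((((qq + rr) * z40) + (qq * z41)) - (S * z42))) - ((((Int.cast (16) : ℝ)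
    * r2) * ph) * z43)) := hG0.trans (by push_cast <;> ring)
  replace hz45 : z45 = (mBcR f a g mm om b).2.2.1 := hz45.trans (mBcR_2 ..)
  replace hG1 : G1 = ((((Int.cast (1) : ℝ) / (Nat.cast 460 : ℝ)) * (Om * Om)) * (z45 - (((((Int.cast
    (3) : ℝ) * S) * ph) * (ro * ro)) * ((f - (Int.cast (1) : ℝ)) - ((Int.cast (5) : ℝ) * X))))) :=
    hG1.trans (by push_cast <;> ring)
  have e0 : (G1 - (y1 * (r2 * G0))) = G1 - y1 * (r2 * G0) := by push_cast <;> ring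
  subst hF hf haa hqq hal hy1 hy2 hy5 hm hph hs hch hd hr hz15 hpc hrr hr2 hA0 hB0 hi2 hOm hW hiw
    hN0 hH0 hiq ha hg hmm hom hb hc hzr hro hX hS hV hk hz40 hz41 hz42 hz43 hG0 hz45 hG1
  refine Eq.trans ?_ e0 <;>
    simp only [outR, prog, prog1, prog2, prog3, prog4, runR, stepR, gtR, mBcR, mBcK, mBcP]

theorem l0 : ((0 : ℤ) : ℝ) / 2 ^ 47 = 0 := by norm_num
theorem u0 : (1 : ℝ) = ((140737488355328 : ℤ) : ℝ) / 2 ^ 47 := by norm_num
theorem l1 : ((0 : ℤ) : ℝ) / 2 ^ 47 = 0 := by norm_num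
theorem u1 : (1 : ℝ) = ((140737488355328 : ℤ) : ℝ) / 2 ^ 47 := by norm_num
theorem l2 : ((0 : ℤ) : ℝ) / 2 ^ 47 = 0 := by norm_num
theorem u2 : (1 : ℝ) = ((140737488355328 : ℤ) : ℝ) / 2 ^ 47 := by norm_num
theorem l3 : ((562949953421312 : ℤ) : ℝ) / 2 ^ 47 = 4 := by norm_num
theorem u3 : (7 : ℝ) = ((985162418487296 : ℤ) : ℝ) / 2 ^ 47 := by norm_num

theorem out0 {x o w u : ℝ} (a0 : 0 ≤ x) (b0 : x ≤ 1) (a1 : 0 ≤ o) (b1 : o ≤ 1) (a2 : 0 ≤ w) (b2 : w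
    ≤ 1) (a3 : 4 ≤ u) (b3 : u ≤ 7) : 0 < outR prog 0 [x, o, w, u] :=
  gd 0 (by decide) [x, o, w, u] (.cons ⟨l0.le.trans a0, b0.trans u0.le⟩ (.cons ⟨l1.le.trans a1,
    b1.trans u1.le⟩ (.cons ⟨l2.le.trans a2, b2.trans u2.le⟩ (.cons ⟨l3.le.trans a3, b3.trans u3.le⟩
    (.nil))))) ⟨nofun, nofun, nofun, nofun, trivial⟩ (List.forall_mem_nil _) (Van.of0 rfl) (nofun)

theorem pos0 {x o w u F f aa qq al y1 y2 y5 m ph s ch d r z15 pc rr r2 A0 B0 i2 Om W iw N0 H0 iq a g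
    mm om b c zr ro X S V k z40 z41 z42 z43 G0 z45 G1 : ℝ} (hF : F = 1 / 4 - x / 50) (hf : f = F⁻¹)
    (haa : aa = 1 / 2 + x / 25) (hqq : qq = 77 / 100) (hal : al = 7 * x / 40) (hy1 : y1 = Real.exp
    (-(aa * u))) (hy2 : y2 = Real.exp (-u)) (hy5 : y5 = Real.exp (-((aa + x / 25) * u))) (hm : m = w
    + 2 * x / 25 * o * (1 - w)) (hph : ph = y1 * w) (hs : s = y2 * m ^ 2) (hch : ch = y5 * (2 * w -
    m)) (hd : d = 1 / 512 * m ^ 2) (hr : r = Real.exp (3 - u / 2)) (hz15 : z15 = Real.exp 6) (hpc :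
    pc = 1 / 512 * z15) (hrr : rr = 364 * d - 29 / 100 - 2 * x / 5) (hr2 : r2 = r ^ 2) (hA0 : A0 =
    (1 - d) * f / 2) (hB0 : B0 = (1 - 2 * d) / aa) (hi2 : i2 = (2 - 2 * F)⁻¹) (hOm : Om = 2 * (r2 *
    (A0 * (s - ph) + B0 * (1 - ph) - d * ph * i2) + pc * i2)) (hW : W = (1 - s) * (r2 * (1 - d) +
    pc)) (hiw : iw = W⁻¹) (hN0 : N0 = F * Om) (hH0 : H0 = Om * (r2 * (1 - 2 * d) + 2 * pc)) (hiq :
    iq = iw ^ 2) (ha : a = -(N0 * iw)) (hg : g = iq * H0) (hmm : mm = iq * (2 * W * (W + N0) - H0))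
    (hom : om = iq * (Om * (pc + s * r2 * (1 - d)))) (hb : b = -(iq * (Om * pc))) (hc : c = F * (1 -
    F + 2 * d) / 3) (hzr : zr = (√(r2 * ph + c * Om))⁻¹) (hro : ro = r * zr) (hX : X = 1 - ph * ro ^
    2) (hS : S = ch * ro ^ 3) (hV : V = Om * zr ^ 2) (hk : k = mBcK F d) (hz40 : z40 = (mBcR f a g
    mm om b).1) (hz41 : z41 = (mBcR f a g mm om b).2.1) (hz42 : z42 = mBcP qq rr al c k X V) (hz43 :
    z43 = (mBcR f a g mm om b).2.2.2) (hG0 : G0 = Om * ((qq + rr) * z40 + qq * z41 - S * z42) - 16 *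
    r2 * ph * z43) (hz45 : z45 = (mBcR f a g mm om b).2.2.1) (hG1 : G1 = 1 / 460 * Om ^ 2 * (z45 - 3
    * S * ph * ro ^ 2 * (f - 1 - 5 * X))) (a0 : 0 ≤ x) (b0 : x ≤ 1) (a1 : 0 ≤ o) (b1 : o ≤ 1) (a2 :
    0 ≤ w) (b2 : w ≤ 1) (a3 : 4 ≤ u) (b3 : u ≤ 7) : 0 < G1 - y1 * (r2 * G0) :=
  have e := eq hF hf haa hqq hal hy1 hy2 hy5 hm hph hs hch hd hr hz15 hpc hrr hr2 hA0 hB0 hi2 hOm hW
    hiw hN0 hH0 hiq ha hg hmm hom hb hc hzr hro hX hS hV hk hz40 hz41 hz42 hz43 hG0 hz45 hG1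
  (out0 a0 b0 a1 b1 a2 b2 a3 b3).trans_eq e

end Pool.Agent.Lib.MP_d6150d_an.BcA
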