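import Pool.Agent.Lib.MP_d6150d_an.GEq
import Pool.Agent.Lib.MP_d6150d_an.BcMac
import Pool.Agent.Lib.MP_d6150d_an.BcBK0

/-! A generated chart: the inequality. -/

namespace Pool.Agent.Lib.MP_d6150d_an.BcB

set_option linter.unnecessarySeqFocus false
set_option linter.unusedTactic false
set_option linter.unusedVariables false

theorem gd : Gd C [(0, 140737488355328), (0, 140737488355328), (0, 140737488355328), (0,
    140737488355328)] := chk_sound k0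

set_option maxRecDepth 100000 in
theorem eq {x j w r F f aa qq al y1 y2 z8 pc ph s d ch rr r2 A0 B0 i2 Om W iw N0 H0 iq a g mm om b c
    zr ro X S V k z37 z38 z39 z40 G0 z42 G1 : ℝ} (hF : F = 1 / 4 - x / 50) (hf : f = F⁻¹) (haa : aa
    = 1 / 2 + x / 25) (hqq : qq = 77 / 100) (hal : al = 7 * x / 40) (hy1 : y1 = Real.exp (-(aa *
    7))) (hy2 : y2 = Real.exp (-7)) (hz8 : z8 = Real.exp 7) (hpc : pc = 1 / 512 * z8) (hph : ph = y1
    * w) (hs : s = j * r ^ 2 * y2) (hd : d = 1 / 512 * j) (hch : ch = 0) (hrr : rr = 364 * d - 29 /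
    100 - 2 * x / 5) (hr2 : r2 = r ^ 2) (hA0 : A0 = (1 - d) * f / 2) (hB0 : B0 = (1 - 2 * d) / aa)
    (hi2 : i2 = (2 - 2 * F)⁻¹) (hOm : Om = 2 * (r2 * (A0 * (s - ph) + B0 * (1 - ph) - d * ph * i2) +
    pc * i2)) (hW : W = (1 - s) * (r2 * (1 - d) + pc)) (hiw : iw = W⁻¹) (hN0 : N0 = F * Om) (hH0 :
    H0 = Om * (r2 * (1 - 2 * d) + 2 * pc)) (hiq : iq = iw ^ 2) (ha : a = -(N0 * iw)) (hg : g = iq *
    H0) (hmm : mm = iq * (2 * W * (W + N0) - H0)) (hom : om = iq * (Om * (pc + s * r2 * (1 - d))))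
    (hb : b = -(iq * (Om * pc))) (hc : c = F * (1 - F + 2 * d) / 3) (hzr : zr = (√(r2 * ph + c *
    Om))⁻¹) (hro : ro = r * zr) (hX : X = 1 - ph * ro ^ 2) (hS : S = ch * ro ^ 3) (hV : V = Om * zr
    ^ 2) (hk : k = mBcK F d) (hz37 : z37 = (mBcR f a g mm om b).1) (hz38 : z38 = (mBcR f a g mm om
    b).2.1) (hz39 : z39 = mBcP qq rr al c k X V) (hz40 : z40 = (mBcR f a g mm om b).2.2.2) (hG0 : G0
    = Om * ((qq + rr) * z37 + qq * z38 - S * z39) - 16 * r2 * ph * z40) (hz42 : z42 = (mBcR f a g mm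
    om b).2.2.1) (hG1 : G1 = 1 / 460 * Om ^ 2 * (z42 - 3 * S * ph * ro ^ 2 * (f - 1 - 5 * X))) :
    outR prog 0 [x, j, w, r] = G1 ∧ outR prog 1 [x, j, w, r] = G1 - y1 * r * (r2 * G0) := by
  replace hF : F = (((Int.cast (1) : ℝ) / (Nat.cast 4 : ℝ)) - (((Int.cast (1) : ℝ) / (Nat.cast 50 :
    ℝ)) * x)) := hF.trans (by push_cast <;> ring)
  replace hf : f = F⁻¹ := hf.trans (by push_cast <;> ring)
  replace haa : aa = (((Int.cast (1) : ℝ) / (Nat.cast 2 : ℝ)) + (((Int.cast (1) : ℝ) / (Nat.cast 25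
    : ℝ)) * x)) := haa.trans (by push_cast <;> ring)
  replace hqq : qq = ((Int.cast (77) : ℝ) / (Nat.cast 100 : ℝ)) := hqq.trans (by push_cast <;> ring)
  replace hal : al = (((Int.cast (1) : ℝ) / (Nat.cast 40 : ℝ)) * ((Int.cast (7) : ℝ) * x)) :=
    hal.trans (by push_cast <;> ring)
  replace hy1 : y1 = (Real.exp ((Int.cast (-1) : ℝ) * ((Int.cast (7) : ℝ) * aa))) := hy1.trans
    (congrArg Real.exp (by push_cast <;> ring))
  replace hy2 : y2 = (Real.exp (Int.cast (-7) : ℝ)) := hy2.trans (congrArg Real.exp (by push_cast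
    <;> ring))
  replace hz8 : z8 = (Real.exp (Int.cast (7) : ℝ)) := hz8.trans (congrArg Real.exp (by push_cast <;>
    ring))
  replace hpc : pc = (((Int.cast (1) : ℝ) / (Nat.cast 512 : ℝ)) * z8) := hpc.trans (by push_cast <;>
    ring)
  replace hph : ph = (y1 * w) := hph.trans (by push_cast <;> ring)
  replace hs : s = ((j * (r * r)) * y2) := hs.trans (by push_cast <;> ring)
  replace hd : d = (((Int.cast (1) : ℝ) / (Nat.cast 512 : ℝ)) * j) := hd.trans (by push_cast <;>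
    ring)
  replace hch : ch = (Int.cast (0) : ℝ) := hch.trans (by push_cast <;> ring)
  replace hrr : rr = ((((Int.cast (364) : ℝ) * d) - ((Int.cast (29) : ℝ) / (Nat.cast 100 : ℝ))) -
    (((Int.cast (1) : ℝ) / (Nat.cast 5 : ℝ)) * ((Int.cast (2) : ℝ) * x))) := hrr.trans (by push_cast
    <;> ring)
  replace hr2 : r2 = (r * r) := hr2.trans (by push_cast <;> ring)
  replace hA0 : A0 = (((Int.cast (1) : ℝ) / (Nat.cast 2 : ℝ)) * (((Int.cast (1) : ℝ) - d) * f)) :=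
    hA0.trans (by push_cast <;> ring)
  replace hB0 : B0 = (((Int.cast (1) : ℝ) - ((Int.cast (2) : ℝ) * d)) * aa⁻¹) := hB0.trans (by
    push_cast <;> ring)
  replace hi2 : i2 = ((Int.cast (2) : ℝ) - ((Int.cast (2) : ℝ) * F))⁻¹ := hi2.trans (by push_cast
    <;> ring)
  replace hOm : Om = ((Int.cast (2) : ℝ) * ((r2 * (((A0 * (s - ph)) + (B0 * ((Int.cast (1) : ℝ) -
    ph))) - ((d * ph) * i2))) + (pc * i2))) := hOm.trans (by push_cast <;> ring)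
  replace hW : W = (((Int.cast (1) : ℝ) - s) * ((r2 * ((Int.cast (1) : ℝ) - d)) + pc)) := hW.trans
    (by push_cast <;> ring)
  replace hiw : iw = W⁻¹ := hiw.trans (by push_cast <;> ring)
  replace hN0 : N0 = (F * Om) := hN0.trans (by push_cast <;> ring)
  replace hH0 : H0 = (Om * ((r2 * ((Int.cast (1) : ℝ) - ((Int.cast (2) : ℝ) * d))) + ((Int.cast (2)
    : ℝ) * pc))) := hH0.trans (by push_cast <;> ring)
  replace hiq : iq = (iw * iw) := hiq.trans (by push_cast <;> ring)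
  replace ha : a = ((Int.cast (-1) : ℝ) * (N0 * iw)) := ha.trans (by push_cast <;> ring)
  replace hg : g = (iq * H0) := hg.trans (by push_cast <;> ring)
  replace hmm : mm = (iq * ((((Int.cast (2) : ℝ) * W) * (W + N0)) - H0)) := hmm.trans (by push_cast
    <;> ring)
  replace hom : om = (iq * (Om * (pc + ((s * r2) * ((Int.cast (1) : ℝ) - d))))) := hom.trans (by
    push_cast <;> ring)
  replace hb : b = ((Int.cast (-1) : ℝ) * (iq * (Om * pc))) := hb.trans (by push_cast <;> ring)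
  replace hc : c = (((Int.cast (1) : ℝ) / (Nat.cast 3 : ℝ)) * (F * (((Int.cast (1) : ℝ) - F) +
    ((Int.cast (2) : ℝ) * d)))) := hc.trans (by push_cast <;> ring)
  replace hzr : zr = (√((r2 * ph) + (c * Om)))⁻¹ := hzr.trans (congrArg (fun x : ℝ ↦ (√x)⁻¹) (by
    push_cast <;> ring))
  replace hro : ro = (r * zr) := hro.trans (by push_cast <;> ring)
  replace hX : X = ((Int.cast (1) : ℝ) - (ph * (ro * ro))) := hX.trans (by push_cast <;> ring)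
  replace hS : S = (ch * ((ro * ro) * ro)) := hS.trans (by push_cast <;> ring)
  replace hV : V = (Om * (zr * zr)) := hV.trans (by push_cast <;> ring)
  replace hk : k = (mBcK F d) := hk.trans (mBcK_0 ..)
  replace hz37 : z37 = (mBcR f a g mm om b).1 := hz37.trans (mBcR_0 ..)
  replace hz38 : z38 = (mBcR f a g mm om b).2.1 := hz38.trans (mBcR_1 ..)
  replace hz39 : z39 = (mBcP qq rr al c k X V) := hz39.trans (mBcP_0 ..)
  replace hz40 : z40 = (mBcR f a g mm om b).2.2.2 := hz40.trans (mBcR_3 ..)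
  replace hG0 : G0 = ((Om * ((((qq + rr) * z37) + (qq * z38)) - (S * z39))) - ((((Int.cast (16) : ℝ)
    * r2) * ph) * z40)) := hG0.trans (by push_cast <;> ring)
  replace hz42 : z42 = (mBcR f a g mm om b).2.2.1 := hz42.trans (mBcR_2 ..)
  replace hG1 : G1 = ((((Int.cast (1) : ℝ) / (Nat.cast 460 : ℝ)) * (Om * Om)) * (z42 - (((((Int.cast
    (3) : ℝ) * S) * ph) * (ro * ro)) * ((f - (Int.cast (1) : ℝ)) - ((Int.cast (5) : ℝ) * X))))) :=
    hG1.trans (by push_cast <;> ring)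
  have e1 : (G1 - ((y1 * r) * (r2 * G0))) = G1 - y1 * r * (r2 * G0) := by push_cast <;> ring
  subst hF hf haa hqq hal hy1 hy2 hz8 hpc hph hs hd hch hrr hr2 hA0 hB0 hi2 hOm hW hiw hN0 hH0 hiq
    ha hg hmm hom hb hc hzr hro hX hS hV hk hz37 hz38 hz39 hz40 hG0 hz42 hG1
  refine ⟨?_, Eq.trans ?_ e1⟩ <;>
    simp only [outR, prog, prog1, prog2, prog3, prog4, runR, stepR, gtR, mBcR, mBcK, mBcP]

theorem l0 : ((0 : ℤ) : ℝ) / 2 ^ 47 = 0 := by norm_num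
theorem u0 : (1 : ℝ) = ((140737488355328 : ℤ) : ℝ) / 2 ^ 47 := by norm_num
theorem l1 : ((0 : ℤ) : ℝ) / 2 ^ 47 = 0 := by norm_num
theorem u1 : (1 : ℝ) = ((140737488355328 : ℤ) : ℝ) / 2 ^ 47 := by norm_num
theorem l2 : ((0 : ℤ) : ℝ) / 2 ^ 47 = 0 := by norm_num
theorem u2 : (1 : ℝ) = ((140737488355328 : ℤ) : ℝ) / 2 ^ 47 := by norm_num
theorem l3 : ((0 : ℤ) : ℝ) / 2 ^ 47 = 0 := by norm_num
theorem u3 : (1 : ℝ) = ((140737488355328 : ℤ) : ℝ) / 2 ^ 47 := by norm_num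

theorem out0 {x j w r : ℝ} (a0 : 0 ≤ x) (b0 : x ≤ 1) (a1 : 0 ≤ j) (b1 : j ≤ 1) (a2 : 0 ≤ w) (b2 : w
    ≤ 1) (a3 : 0 ≤ r) (b3 : r ≤ 1) : 0 < outR prog 0 [x, j, w, r] :=
  gd 0 (by decide) [x, j, w, r] (.cons ⟨l0.le.trans a0, b0.trans u0.le⟩ (.cons ⟨l1.le.trans a1,
    b1.trans u1.le⟩ (.cons ⟨l2.le.trans a2, b2.trans u2.le⟩ (.cons ⟨l3.le.trans a3, b3.trans u3.le⟩
    (.nil))))) ⟨nofun, nofun, nofun, nofun, trivial⟩ (List.forall_mem_nil _) (Van.of0 rfl) (nofun)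

theorem pos0 {x j w r F f aa qq al y1 y2 z8 pc ph s d ch rr r2 A0 B0 i2 Om W iw N0 H0 iq a g mm om b
    c zr ro X S V k z37 z38 z39 z40 G0 z42 G1 : ℝ} (hF : F = 1 / 4 - x / 50) (hf : f = F⁻¹) (haa :
    aa = 1 / 2 + x / 25) (hqq : qq = 77 / 100) (hal : al = 7 * x / 40) (hy1 : y1 = Real.exp (-(aa *
    7))) (hy2 : y2 = Real.exp (-7)) (hz8 : z8 = Real.exp 7) (hpc : pc = 1 / 512 * z8) (hph : ph = y1
    * w) (hs : s = j * r ^ 2 * y2) (hd : d = 1 / 512 * j) (hch : ch = 0) (hrr : rr = 364 * d - 29 /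
    100 - 2 * x / 5) (hr2 : r2 = r ^ 2) (hA0 : A0 = (1 - d) * f / 2) (hB0 : B0 = (1 - 2 * d) / aa)
    (hi2 : i2 = (2 - 2 * F)⁻¹) (hOm : Om = 2 * (r2 * (A0 * (s - ph) + B0 * (1 - ph) - d * ph * i2) +
    pc * i2)) (hW : W = (1 - s) * (r2 * (1 - d) + pc)) (hiw : iw = W⁻¹) (hN0 : N0 = F * Om) (hH0 :
    H0 = Om * (r2 * (1 - 2 * d) + 2 * pc)) (hiq : iq = iw ^ 2) (ha : a = -(N0 * iw)) (hg : g = iq *
    H0) (hmm : mm = iq * (2 * W * (W + N0) - H0)) (hom : om = iq * (Om * (pc + s * r2 * (1 - d))))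
    (hb : b = -(iq * (Om * pc))) (hc : c = F * (1 - F + 2 * d) / 3) (hzr : zr = (√(r2 * ph + c *
    Om))⁻¹) (hro : ro = r * zr) (hX : X = 1 - ph * ro ^ 2) (hS : S = ch * ro ^ 3) (hV : V = Om * zr
    ^ 2) (hk : k = mBcK F d) (hz37 : z37 = (mBcR f a g mm om b).1) (hz38 : z38 = (mBcR f a g mm om
    b).2.1) (hz39 : z39 = mBcP qq rr al c k X V) (hz40 : z40 = (mBcR f a g mm om b).2.2.2) (hG0 : G0
    = Om * ((qq + rr) * z37 + qq * z38 - S * z39) - 16 * r2 * ph * z40) (hz42 : z42 = (mBcR f a g mm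
    om b).2.2.1) (hG1 : G1 = 1 / 460 * Om ^ 2 * (z42 - 3 * S * ph * ro ^ 2 * (f - 1 - 5 * X))) (a0 :
    0 ≤ x) (b0 : x ≤ 1) (a1 : 0 ≤ j) (b1 : j ≤ 1) (a2 : 0 ≤ w) (b2 : w ≤ 1) (a3 : 0 ≤ r) (b3 : r ≤
    1) : 0 < G1 :=
  have e := eq hF hf haa hqq hal hy1 hy2 hz8 hpc hph hs hd hch hrr hr2 hA0 hB0 hi2 hOm hW hiw hN0
    hH0 hiq ha hg hmm hom hb hc hzr hro hX hS hV hk hz37 hz38 hz39 hz40 hG0 hz42 hG1
  (out0 a0 b0 a1 b1 a2 b2 a3 b3).trans_eq e.1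

theorem out1 {x j w r : ℝ} (a0 : 0 ≤ x) (b0 : x ≤ 1) (a1 : 0 ≤ j) (b1 : j ≤ 1) (a2 : 0 ≤ w) (b2 : w
    ≤ 1) (a3 : 0 ≤ r) (b3 : r ≤ 1) : 0 < outR prog 1 [x, j, w, r] :=
  gd 1 (by decide) [x, j, w, r] (.cons ⟨l0.le.trans a0, b0.trans u0.le⟩ (.cons ⟨l1.le.trans a1,
    b1.trans u1.le⟩ (.cons ⟨l2.le.trans a2, b2.trans u2.le⟩ (.cons ⟨l3.le.trans a3, b3.trans u3.le⟩
    (.nil))))) ⟨nofun, nofun, nofun, nofun, trivial⟩ (List.forall_mem_nil _) (Van.of0 rfl) (nofun)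

theorem pos1 {x j w r F f aa qq al y1 y2 z8 pc ph s d ch rr r2 A0 B0 i2 Om W iw N0 H0 iq a g mm om b
    c zr ro X S V k z37 z38 z39 z40 G0 z42 G1 : ℝ} (hF : F = 1 / 4 - x / 50) (hf : f = F⁻¹) (haa :
    aa = 1 / 2 + x / 25) (hqq : qq = 77 / 100) (hal : al = 7 * x / 40) (hy1 : y1 = Real.exp (-(aa *
    7))) (hy2 : y2 = Real.exp (-7)) (hz8 : z8 = Real.exp 7) (hpc : pc = 1 / 512 * z8) (hph : ph = y1
    * w) (hs : s = j * r ^ 2 * y2) (hd : d = 1 / 512 * j) (hch : ch = 0) (hrr : rr = 364 * d - 29 /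
    100 - 2 * x / 5) (hr2 : r2 = r ^ 2) (hA0 : A0 = (1 - d) * f / 2) (hB0 : B0 = (1 - 2 * d) / aa)
    (hi2 : i2 = (2 - 2 * F)⁻¹) (hOm : Om = 2 * (r2 * (A0 * (s - ph) + B0 * (1 - ph) - d * ph * i2) +
    pc * i2)) (hW : W = (1 - s) * (r2 * (1 - d) + pc)) (hiw : iw = W⁻¹) (hN0 : N0 = F * Om) (hH0 :
    H0 = Om * (r2 * (1 - 2 * d) + 2 * pc)) (hiq : iq = iw ^ 2) (ha : a = -(N0 * iw)) (hg : g = iq *
    H0) (hmm : mm = iq * (2 * W * (W + N0) - H0)) (hom : om = iq * (Om * (pc + s * r2 * (1 - d))))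
    (hb : b = -(iq * (Om * pc))) (hc : c = F * (1 - F + 2 * d) / 3) (hzr : zr = (√(r2 * ph + c *
    Om))⁻¹) (hro : ro = r * zr) (hX : X = 1 - ph * ro ^ 2) (hS : S = ch * ro ^ 3) (hV : V = Om * zr
    ^ 2) (hk : k = mBcK F d) (hz37 : z37 = (mBcR f a g mm om b).1) (hz38 : z38 = (mBcR f a g mm om
    b).2.1) (hz39 : z39 = mBcP qq rr al c k X V) (hz40 : z40 = (mBcR f a g mm om b).2.2.2) (hG0 : G0
    = Om * ((qq + rr) * z37 + qq * z38 - S * z39) - 16 * r2 * ph * z40) (hz42 : z42 = (mBcR f a g mm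
    om b).2.2.1) (hG1 : G1 = 1 / 460 * Om ^ 2 * (z42 - 3 * S * ph * ro ^ 2 * (f - 1 - 5 * X))) (a0 :
    0 ≤ x) (b0 : x ≤ 1) (a1 : 0 ≤ j) (b1 : j ≤ 1) (a2 : 0 ≤ w) (b2 : w ≤ 1) (a3 : 0 ≤ r) (b3 : r ≤
    1) : 0 < G1 - y1 * r * (r2 * G0) :=
  have e := eq hF hf haa hqq hal hy1 hy2 hz8 hpc hph hs hd hch hrr hr2 hA0 hB0 hi2 hOm hW hiw hN0
    hH0 hiq ha hg hmm hom hb hc hzr hro hX hS hV hk hz37 hz38 hz39 hz40 hG0 hz42 hG1
  (out1 a0 b0 a1 b1 a2 b2 a3 b3).trans_eq e.2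

end Pool.Agent.Lib.MP_d6150d_an.BcB
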