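import Pool.Agent.Lib.MP_d6150d_an.BcJD

/-! A generated chart: the computations. -/

namespace Pool.Agent.Lib.MP_d6150d_an.BcJ

theorem k0 : chk C 0x88820888218891108881188911021 [(0, 70368744177664), (0, 70368744177664), (0,
    140737488355328)] = true := by
  decide +kernel

theorem k1 : chk C 0x8888111 [(70368744177664, 140737488355328), (0, 70368744177664), (0,
    140737488355328)] = true := by
  decide +kernel

theorem k2 : chk C 0x8888200 [(0, 140737488355328), (70368744177664, 140737488355328), (0,
    140737488355328)] = true := by
  decide +kernel

end Pool.Agent.Lib.MP_d6150d_an.BcJ
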