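import Pool.Agent.Lib.MP_d6150d_an.GChk

/-! Soundness of the generic checker on the faces of the cone of the cut variables. -/

namespace Pool.Agent.Lib.MP_d6150d_an

open Set Filter Topology Asymptotics

/-- the variables with a division are positive -/
def PosM : List Vr → List ℝ → Prop
  | v :: vs, y :: Y => (0 < v.m → 0 < y) ∧ PosM vs Y
  | _, _ => True

/-- one of the cut variables is positive -/
def AnyC : List Vr → List ℝ → Prop
  | v :: vs, y :: Y => (v.c = true ∧ 0 < y) ∨ AnyC vs Y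
  | _, _ => False

variable {P : St} {c : Ctx}

theorem fin_sound2 (G : c.Good P) (hn : c.n = nn P.Ss) : ∀ (vs : List Vr) (bs : List (ℤ × ℤ))
    (Y pre : List ℝ) (cu : Bool) (a : TM) (f : List ℝ → ℝ) (h : Adm P (alg vs bs) pre),
    vs.length = bs.length → P.Ss.drop pre.length = strides vs → InB bs Y → PosM vs Y →
    VG h.sx c.n a (fun x ↦ f (aff vs bs x)) → Van vs bs f → (cu = true → Nn vs bs f) →
    fin c P.Ss vs bs (triv pre) (P.Ss.take pre.length).prod cu a = true →
    0 ≤ f Y ∧ (cu = false ∨ AnyC vs Y → 0 < f Y)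
  | [], [], _, pre, cu, a, f, h, _, _, .nil, _, v, _, hN, e => by
    cases cu
    · have : 0 < f [] := v.posG G e (τ := []) rfl
      exact ⟨this.le, fun _ ↦ this⟩
    · exact ⟨hN rfl, by simp [AnyC]⟩
  | v :: vs, b :: bs, _, pre, cu, a, f, h, hl, hS, .cons (b := y) (l₂ := Y) hy hY, hP, va, hV, hN,
      e => by
    have hl' := Nat.succ.inj hl
    have hp : pre.length < P.Ss.length := by
      by_contra hp
      rw [List.drop_of_length_le (not_lt.1 hp)] at hS
      simp [strides] at hS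
    rw [List.drop_eq_getElem_cons hp] at hS
    obtain ⟨s1, s2⟩ := List.cons.inj hS
    have IH := fun (τ : ℝ) cu a f (h : Adm P (alg vs bs) (pre ++ [τ])) ↦
      fin_sound2 G hn vs bs Y (pre ++ [τ]) cu a f h hl' (by rw [List.length_append]; exact s2) hY hP.2
    have s3 : ∀ τ : ℝ, (P.Ss.take (pre ++ [τ]).length).prod =
        (P.Ss.take pre.length).prod * (2 * v.d + 1) := fun τ ↦ by
      rw [List.length_append, List.length_singleton, List.prod_take_succ _ _ hp, s1]
    simp only [s3, ← triv_snoc] at IH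
    obtain ⟨τ, hτ, rfl⟩ := aff1_surj v hy
    have tp : v.os b = true → 0 < aff1 v b τ → 0 < τ := fun ho h1 ↦ by
      rw [ho] at hτ
      rw [aff1_os ho] at h1
      exact (lt_of_le_of_ne hτ.1 fun h ↦ by simp [← h] at h1)
    rw [fin] at e
    cases hc : (v.c && cu) <;> rw [hc] at e
    · have hN' : cu = true → Nn vs bs fun x ↦ f (aff1 v b τ :: x) := fun h ↦ by
        have := hN h _ hy.1 hy.2
        rwa [show v.c = false by simpa [h] using hc] at this
      have hany : cu = false ∨ AnyC (v :: vs) (aff1 v b τ :: Y) → cu = false ∨ AnyC vs Y := by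
        cases cu <;> simp_all [AnyC]
      cases hd : (v.os b && Nat.blt 0 v.m) <;> rw [hd] at e
      · have := IH τ cu a _ (h.next hτ) (va.inst hτ) (hV.2 _ hy.1 hy.2) hN' e
        exact ⟨this.1, fun h ↦ this.2 (hany h)⟩
      · rw [Bool.and_eq_true, Nat.blt_eq] at hd
        have t0 := tp hd.1 (hP.1 hd.2)
        have b0 : (0 : ℝ) < b.2 / 2 ^ 47 := by
          have := hP.1 hd.2
          rw [aff1_os hd.1] at this
          exact (mul_pos_iff_of_pos_right t0).1 this
        have hV1 := allB_iff.1 (hV.1 (os_zero hd.1).le)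
        simp only [alg, hd.1, cond_true] at h va hτ
        obtain ⟨a', g, v2, e2, e3⟩ := dvs_sound G hn hp (j := cond v.c 1 0) h va e fun x hx ↦ by
          simpa only [aff, aff1_os hd.1] using (hV1 _ (aff_mem hl' hY hx)).ordT b0
        have tm := pow_pos t0 v.m
        have := IH τ cu a' (fun x ↦ (τ ^ v.m)⁻¹ * (f (aff1 v b τ :: x) - 0)) (h.next hτ)
          ((VG.inst (m := cond v.c 1 0) (h := h) v2 hτ).congr fun x hx ↦ by
            have := e3 τ hτ x hx
            simp only [aff] at this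
            rw [this]; field_simp; ring)
          ((hV.2 _ hy.1 hy.2).lin _ (Van.zero _ _)) (fun h ↦ (hN' h).smul (inv_pos.2 tm).le) e2
        simp only [sub_zero] at this
        exact ⟨(mul_nonneg_iff_of_pos_left (inv_pos.2 tm)).1 this.1,
          fun h ↦ (mul_pos_iff_of_pos_left (inv_pos.2 tm)).1 (this.2 (hany h))⟩
    · simp only [cond_true, Bool.and_eq_true, decide_eq_true_eq, frT_eq] at e hc
      obtain ⟨⟨⟨ho, hl2⟩, e1⟩, e0⟩ := e
      have z0 : (b.1 : ℝ) / 2 ^ 47 ≤ 0 ∧ (0 : ℝ) ≤ b.2 / 2 ^ 47 := by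
        have := hy.1.trans hy.2
        rw [os_zero ho, Int.cast_zero, zero_div] at this ⊢
        exact ⟨le_rfl, this⟩
      simp only [alg, ho, hc.1, cond_true, add_comm 1 v.m] at h va hτ
      obtain ⟨f0, f1, e3, v0, v1⟩ := va.split G hn hp hl2
      have e4 : ∀ x ∈ (Alg.of (alg vs bs)).D, f (0 :: aff vs bs x) = f0 x := fun x hx ↦ by
        simpa [aff, aff1_os ho] using e3 0 (Alg.I_zero _) x hx
      have i0 := IH 0 true _ (fun x ↦ f (0 :: x)) (h.next (Alg.I_zero _)) (v0.congr e4) (hV.2 _ z0.1 z0.2)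
        (fun _ ↦ by simpa [hc.1] using hN hc.2 _ hy.1 hy.2) e0
      rcases (show 0 ≤ τ from hτ.1).eq_or_lt with rfl | t0
      · have a0 : aff1 v b 0 = 0 := by rw [aff1_os ho, mul_zero]
        rw [a0]
        exact ⟨i0.1, fun h ↦ i0.2 (.inr (by simpa [AnyC, hc.2] using h))⟩
      have i1 := IH τ false _ (fun x ↦ τ⁻¹ * (f (aff1 v b τ :: x) - f (0 :: x))) (h.next hτ)
        ((VG.inst (m := v.m) (h := h) v1 hτ).congr fun x hx ↦ by
          have := e3 τ hτ x hx
          simp only [aff] at this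
          rw [this, e4 x hx]; field_simp; ring)
        ((hV.2 _ hy.1 hy.2).lin _ (hV.2 _ z0.1 z0.2)) (by simp) e1
      have := (mul_pos_iff_of_pos_left (inv_pos.2 t0)).1 (i1.2 (.inl rfl))
      have h5 : 0 < f (aff1 v b τ :: Y) := by linarith [i0.1]
      exact ⟨h5.le, fun _ ↦ h5⟩

/-- the chart is valid on the box, faces included -/
def Gd2 (C : Chart) (B : List (ℤ × ℤ)) : Prop := ∀ j < C.ng, ∀ Y, InB B Y → PosM C.vs Y →
  (C.vs.any Vr.c = true → AnyC C.vs Y) →
  (∀ n ∈ C.cons, 0 ≤ outR (C.prog.take n) 0 Y) → Van C.vs B (outR C.prog j) →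
  (C.vs.any Vr.c = true → Nn C.vs B (outR C.prog j)) → 0 < outR C.prog j Y

variable {C : Chart} {B : List (ℤ × ℤ)}

theorem Gd2.split (i : ℕ) (l : Gd2 C (splL B i)) (r : Gd2 C (splR B i)) : Gd2 C B :=
  fun j hj Y hY hP hA hc hV hN ↦
    let ⟨a, b, c⟩ := spl_mem i hY
    c.elim (fun k ↦ l j hj Y k hP hA hc (hV.mono a) fun h ↦ (hN h).mono a)
      fun k ↦ r j hj Y k hP hA hc (hV.mono b) fun h ↦ (hN h).mono b

theorem leaf_sound2 (h2 : 2 * nn (strides C.vs) ≤ 16384) (hl : C.vs.length = B.length)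
    (h0 : 0 < B.length) {k : ℕ} (e : leaf C (mkC (strides C.vs) []) k B = true) : Gd2 C B := by
  obtain ⟨P, p1, p2⟩ : ∃ P : St, P.Ss = strides C.vs ∧ P.fl = flags C.vs B := by
    obtain _ | ⟨b, B⟩ := B
    · simp at h0
    generalize C.vs = vs at hl
    obtain _ | ⟨v, vs⟩ := vs
    · simp at hl
    exact ⟨⟨strides (v :: vs), flags (v :: vs) (b :: B), (flags vs B).map fun _ ↦ 0, {0}, 0,
      by simp [strides], by simp, rfl, by simp,
      fun τ h ↦ by rw [show τ = 0 from h]; exact flag_zero (flags (v :: vs) (b :: B))⟩, rfl, rfl⟩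
  have G := mkC_good h2 P p1
  have h : Adm P (alg C.vs B) [] := ⟨by simp, fun x hx ↦ by
    rw [p2, ← alg_fl]; exact (Alg.of_mem hx).2⟩
  rw [leaf, frC_eq, frL_eq, ← p2] at e
  have hn : (setF (mkC (strides C.vs) []) (pm (strides C.vs) (evP P.fl) 1)).n = nn P.Ss := by
    rw [p1]; rfl
  generalize setF _ _ = c at G hn e
  have hv := varT_IV (S := h.sx) G C.vs B 1 id (fun i z hi ↦ by
      rw [← p1] at hi ⊢
      obtain ⟨a1, a2, a3⟩ := mo_str i P.Ss G.k0 hi
      have a4 : _ < c.n := hn ▸ keep_lt a1 a2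
      have a5 : i < C.vs.length := by
        by_contra hh
        rw [p1, List.getD_eq_default _ _ (by simpa [strides] using hh)] at hi
        omega
      rw [one_mul]
      exact (VG.mon (S := h.sx) a4 (by have := G.n2; omega) a1 z).congr fun x hx ↦ by
        rw [Sx.mo, id, ← a3 x (by rwa [alg_len hl hx])]; rfl)
    (fun i ↦ (Alg.var_N _ i).congr fun x _ ↦ gtR_eq x i) fun x hx ↦ alg_len hl hx
  intro j hj Y hY hP hA hc hV hN
  cases h3 : Nat.ble 2 k <;> rw [h3] at e <;>
    simp only [cond_true, cond_false, Bool.and_eq_true, Bool.or_eq_true, Nat.blt_eq,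
      Nat.beq_eq] at e
  · obtain ⟨s, hs, e2⟩ := run_sound G hv _ (IV.nil G) e.2
    have e3 := allG_sound e2 j hj
    rw [← p1] at e3
    refine (fin_sound2 G hn C.vs B Y [] _ _ (outR C.prog j) h hl p1 hY hP (hs j) hV
      (fun hk ↦ hN (e.1.resolve_left ?_)) e3).2 (e.1.imp (fun hk ↦ by rw [hk]; rfl) hA)
    rintro rfl
    simp at hk
  · obtain ⟨s, hs, e2⟩ := run_sound G hv _ (IV.nil G) e.2
    obtain ⟨x, hx, rfl⟩ := aff_surj hl hY
    have h5 := hc (C.cons.getD ((k - 2) % 3) 0) (by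
      rw [List.getD_eq_getElem _ _ e.1]; exact List.getElem_mem _)
    generalize C.cons.getD ((k - 2) % 3) 0 = n at *
    cases h6 : Nat.ble 5 k <;> rw [h6] at e2
    · have h4 := ((hs 0).smul (-1)).posG G e2 hx
      simp only [outR, id, Int.reduceNeg, Int.cast_neg, Int.cast_one] at h4 h5
      linarith
    · obtain ⟨s', hs', e3⟩ := run_sound G hv _ hs e2
      have e4 := allG_sound e3 j hj
      rw [mlt, frN_eq, frT_eq] at e4
      have h4 := (((hs' j).sub ((VG.cst G _).mul G (hs 0))).tight G).posG G e4 hx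
      simp only [← runR_append, List.take_append_drop, id] at h4
      exact (mul_nonneg (by positivity) h5).trans_lt (sub_pos.1 h4)

theorem go_sound2 {F : ℕ → List (ℤ × ℤ) → Bool} {n : ℕ}
    (hF : ∀ k B, B.length = n → F k B = true → Gd2 C B) :
    ∀ f x B, B.length = n → go F f x B ≠ 0 → Gd2 C B
  | 0, _, _, _, h => absurd rfl h
  | f + 1, x, B, hB, h => by
    rw [go, spl_eq] at h
    cases h1 : Nat.ble 8 (Nat.mod x 16) <;> rw [h1] at h
    · cases h2 : go F f (Nat.div x 16) (splL B (Nat.mod x 16)) with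
      | zero => rw [h2] at h; exact absurd rfl h
      | succ y =>
        rw [h2] at h
        exact Gd2.split _ (go_sound2 hF f _ _ ((spl_len B _).1.trans hB) (by rw [h2]; omega))
          (go_sound2 hF f y _ ((spl_len B _).2.trans hB) h)
    · cases h2 : F (Nat.sub (Nat.mod x 16) 8) B
      · rw [h2] at h; exact absurd rfl h
      · exact hF _ B hB h2

theorem chk_sound2 {x : ℕ} (h : chk C x B = true) : Gd2 C B := by
  rw [chk, frC_eq, Bool.and_eq_true, Bool.and_eq_true, Bool.and_eq_true, Nat.ble_eq, Nat.beq_eq,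
    Nat.blt_eq, Nat.blt_eq] at h
  exact go_sound2 (fun k B' hB e ↦ leaf_sound2 h.1.1.1 (h.1.1.2.trans hB.symm) (hB ▸ h.1.2) e)
    _ x B rfl h.2.ne'

end Pool.Agent.Lib.MP_d6150d_an
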