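import Pool.Agent.Lib.MP_d6150d_an.GEq
import Pool.Agent.Lib.MP_d6150d_an.BcMac
import Pool.Agent.Lib.MP_d6150d_an.PpChk
import Pool.Agent.Lib.MP_d6150d_an.BcJK0

/-! A generated chart: the inequality. -/

namespace Pool.Agent.Lib.MP_d6150d_an.BcJ

set_option linter.unnecessarySeqFocus false
set_option linter.unusedTactic false
set_option linter.unusedVariables false

theorem gd : Gd2 C [(0, 140737488355328), (0, 140737488355328), (0, 140737488355328)] := .split 1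
    (.split 0 (chk_sound2 k0) (chk_sound2 k1)) (chk_sound2 k2)

set_option maxRecDepth 100000 in
theorem eq {x j ta F f aa qq al T y3 y4 s ph ch pc d r rr r2 A0 B0 i2 Om W iw N0 H0 iq a g mm om b c
    zr ro X S V k z38 z39 z40 z41 G0 z43 G1 : ℝ} (hF : F = 1 / 4 - x / 50) (hf : f = F⁻¹) (haa : aa
    = 1 / 2 + x / 25) (hqq : qq = 77 / 100) (hal : al = 7 * x / 40) (hT : T = 4 + 2 * ta) (hy3 : y3
    = Real.exp 4) (hy4 : y4 = Real.exp (aa * 4)) (hs : s = Real.exp (-T)) (hph : ph = Real.exp (-(aa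
    * T))) (hch : ch = Real.exp (-((aa + x / 25) * T))) (hpc : pc = 1 / 512 * y3 * j) (hd : d = pc *
    s) (hr : r = 1) (hrr : rr = 364 * d - 29 / 100 - 2 * x / 5) (hr2 : r2 = r ^ 2) (hA0 : A0 = (1 -
    d) * f / 2) (hB0 : B0 = (1 - 2 * d) / aa) (hi2 : i2 = (2 - 2 * F)⁻¹) (hOm : Om = 2 * (r2 * (A0 *
    (s - ph) + B0 * (1 - ph) - d * ph * i2) + pc * i2)) (hW : W = (1 - s) * (r2 * (1 - d) + pc))
    (hiw : iw = W⁻¹) (hN0 : N0 = F * Om) (hH0 : H0 = Om * (r2 * (1 - 2 * d) + 2 * pc)) (hiq : iq =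
    iw ^ 2) (ha : a = -(N0 * iw)) (hg : g = iq * H0) (hmm : mm = iq * (2 * W * (W + N0) - H0)) (hom
    : om = iq * (Om * (pc + s * r2 * (1 - d)))) (hb : b = -(iq * (Om * pc))) (hc : c = F * (1 - F +
    2 * d) / 3) (hzr : zr = (√(r2 * ph + c * Om))⁻¹) (hro : ro = r * zr) (hX : X = 1 - ph * ro ^ 2)
    (hS : S = ch * ro ^ 3) (hV : V = Om * zr ^ 2) (hk : k = mBcK F d) (hz38 : z38 = (mBcR f a g mm
    om b).1) (hz39 : z39 = (mBcR f a g mm om b).2.1) (hz40 : z40 = mBcP qq rr al c k X V) (hz41 :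
    z41 = (mBcR f a g mm om b).2.2.2) (hG0 : G0 = Om * ((qq + rr) * z38 + qq * z39 - S * z40) - 16 *
    r2 * ph * z41) (hz43 : z43 = (mBcR f a g mm om b).2.2.1) (hG1 : G1 = 1 / 460 * Om ^ 2 * (z43 - 3
    * S * ph * ro ^ 2 * (f - 1 - 5 * X))) : outR prog 0 [x, j, ta] = -(r2 * G0) ∧ outR prog 1 [x, j,
    ta] = y4 * (1 - aa + aa * j) * G1 - r2 * G0 := by
  replace hF : F = (((Int.cast (1) : ℝ) / (Nat.cast 4 : ℝ)) - (((Int.cast (1) : ℝ) / (Nat.cast 50 :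
    ℝ)) * x)) := hF.trans (by push_cast <;> ring)
  replace hf : f = F⁻¹ := hf.trans (by push_cast <;> ring)
  replace haa : aa = (((Int.cast (1) : ℝ) / (Nat.cast 2 : ℝ)) + (((Int.cast (1) : ℝ) / (Nat.cast 25
    : ℝ)) * x)) := haa.trans (by push_cast <;> ring)
  replace hqq : qq = ((Int.cast (77) : ℝ) / (Nat.cast 100 : ℝ)) := hqq.trans (by push_cast <;> ring)
  replace hal : al = (((Int.cast (1) : ℝ) / (Nat.cast 40 : ℝ)) * ((Int.cast (7) : ℝ) * x)) :=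
    hal.trans (by push_cast <;> ring)
  replace hT : T = ((Int.cast (4) : ℝ) + ((Int.cast (2) : ℝ) * ta)) := hT.trans (by push_cast <;>
    ring)
  replace hy3 : y3 = (Real.exp (Int.cast (4) : ℝ)) := hy3.trans (congrArg Real.exp (by push_cast <;>
    ring))
  replace hy4 : y4 = (Real.exp ((Int.cast (4) : ℝ) * aa)) := hy4.trans (congrArg Real.exp (by
    push_cast <;> ring))
  replace hs : s = (Real.exp ((Int.cast (-1) : ℝ) * T)) := hs.trans (congrArg Real.exp (by push_cast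
    <;> ring))
  replace hph : ph = (Real.exp ((Int.cast (-1) : ℝ) * (aa * T))) := hph.trans (congrArg Real.exp (by
    push_cast <;> ring))
  replace hch : ch = (Real.exp ((Int.cast (-1) : ℝ) * ((aa + (((Int.cast (1) : ℝ) / (Nat.cast 25 :
    ℝ)) * x)) * T))) := hch.trans (congrArg Real.exp (by push_cast <;> ring))
  replace hpc : pc = ((((Int.cast (1) : ℝ) / (Nat.cast 512 : ℝ)) * y3) * j) := hpc.trans (by
    push_cast <;> ring)
  replace hd : d = (pc * s) := hd.trans (by push_cast <;> ring)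
  replace hr : r = (Int.cast (1) : ℝ) := hr.trans (by push_cast <;> ring)
  replace hrr : rr = ((((Int.cast (364) : ℝ) * d) - ((Int.cast (29) : ℝ) / (Nat.cast 100 : ℝ))) -
    (((Int.cast (1) : ℝ) / (Nat.cast 5 : ℝ)) * ((Int.cast (2) : ℝ) * x))) := hrr.trans (by push_cast
    <;> ring)
  replace hr2 : r2 = (r * r) := hr2.trans (by push_cast <;> ring)
  replace hA0 : A0 = (((Int.cast (1) : ℝ) / (Nat.cast 2 : ℝ)) * (((Int.cast (1) : ℝ) - d) * f)) :=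
    hA0.trans (by push_cast <;> ring)
  replace hB0 : B0 = (((Int.cast (1) : ℝ) - ((Int.cast (2) : ℝ) * d)) * aa⁻¹) := hB0.trans (by
    push_cast <;> ring)
  replace hi2 : i2 = ((Int.cast (2) : ℝ) - ((Int.cast (2) : ℝ) * F))⁻¹ := hi2.trans (by push_cast
    <;> ring)
  replace hOm : Om = ((Int.cast (2) : ℝ) * ((r2 * (((A0 * (s - ph)) + (B0 * ((Int.cast (1) : ℝ) -
    ph))) - ((d * ph) * i2))) + (pc * i2))) := hOm.trans (by push_cast <;> ring)
  replace hW : W = (((Int.cast (1) : ℝ) - s) * ((r2 * ((Int.cast (1) : ℝ) - d)) + pc)) := hW.trans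
    (by push_cast <;> ring)
  replace hiw : iw = W⁻¹ := hiw.trans (by push_cast <;> ring)
  replace hN0 : N0 = (F * Om) := hN0.trans (by push_cast <;> ring)
  replace hH0 : H0 = (Om * ((r2 * ((Int.cast (1) : ℝ) - ((Int.cast (2) : ℝ) * d))) + ((Int.cast (2)
    : ℝ) * pc))) := hH0.trans (by push_cast <;> ring)
  replace hiq : iq = (iw * iw) := hiq.trans (by push_cast <;> ring)
  replace ha : a = ((Int.cast (-1) : ℝ) * (N0 * iw)) := ha.trans (by push_cast <;> ring)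
  replace hg : g = (iq * H0) := hg.trans (by push_cast <;> ring)
  replace hmm : mm = (iq * ((((Int.cast (2) : ℝ) * W) * (W + N0)) - H0)) := hmm.trans (by push_cast
    <;> ring)
  replace hom : om = (iq * (Om * (pc + ((s * r2) * ((Int.cast (1) : ℝ) - d))))) := hom.trans (by
    push_cast <;> ring)
  replace hb : b = ((Int.cast (-1) : ℝ) * (iq * (Om * pc))) := hb.trans (by push_cast <;> ring)
  replace hc : c = (((Int.cast (1) : ℝ) / (Nat.cast 3 : ℝ)) * (F * (((Int.cast (1) : ℝ) - F) +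
    ((Int.cast (2) : ℝ) * d)))) := hc.trans (by push_cast <;> ring)
  replace hzr : zr = (√((r2 * ph) + (c * Om)))⁻¹ := hzr.trans (congrArg (fun x : ℝ ↦ (√x)⁻¹) (by
    push_cast <;> ring))
  replace hro : ro = (r * zr) := hro.trans (by push_cast <;> ring)
  replace hX : X = ((Int.cast (1) : ℝ) - (ph * (ro * ro))) := hX.trans (by push_cast <;> ring)
  replace hS : S = (ch * ((ro * ro) * ro)) := hS.trans (by push_cast <;> ring)
  replace hV : V = (Om * (zr * zr)) := hV.trans (by push_cast <;> ring)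
  replace hk : k = (mBcK F d) := hk.trans (mBcK_0 ..)
  replace hz38 : z38 = (mBcR f a g mm om b).1 := hz38.trans (mBcR_0 ..)
  replace hz39 : z39 = (mBcR f a g mm om b).2.1 := hz39.trans (mBcR_1 ..)
  replace hz40 : z40 = (mBcP qq rr al c k X V) := hz40.trans (mBcP_0 ..)
  replace hz41 : z41 = (mBcR f a g mm om b).2.2.2 := hz41.trans (mBcR_3 ..)
  replace hG0 : G0 = ((Om * ((((qq + rr) * z38) + (qq * z39)) - (S * z40))) - ((((Int.cast (16) : ℝ)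
    * r2) * ph) * z41)) := hG0.trans (by push_cast <;> ring)
  replace hz43 : z43 = (mBcR f a g mm om b).2.2.1 := hz43.trans (mBcR_2 ..)
  replace hG1 : G1 = ((((Int.cast (1) : ℝ) / (Nat.cast 460 : ℝ)) * (Om * Om)) * (z43 - (((((Int.cast
    (3) : ℝ) * S) * ph) * (ro * ro)) * ((f - (Int.cast (1) : ℝ)) - ((Int.cast (5) : ℝ) * X))))) :=
    hG1.trans (by push_cast <;> ring)
  have e0 : ((Int.cast (-1) : ℝ) * (r2 * G0)) = -(r2 * G0) := by push_cast <;> ring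
  have e1 : (((y4 * (((Int.cast (1) : ℝ) - aa) + (aa * j))) * G1) - (r2 * G0)) = y4 * (1 - aa + aa *
    j) * G1 - r2 * G0 := by push_cast <;> ring
  subst hF hf haa hqq hal hT hy3 hy4 hs hph hch hpc hd hr hrr hr2 hA0 hB0 hi2 hOm hW hiw hN0 hH0 hiq
    ha hg hmm hom hb hc hzr hro hX hS hV hk hz38 hz39 hz40 hz41 hG0 hz43 hG1
  refine ⟨Eq.trans ?_ e0, Eq.trans ?_ e1⟩ <;>
    simp only [outR, prog, prog1, prog2, prog3, prog4, runR, stepR, gtR, mBcR, mBcK, mBcP]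

theorem l0 : ((0 : ℤ) : ℝ) / 2 ^ 47 = 0 := by norm_num
theorem u0 : (1 : ℝ) = ((140737488355328 : ℤ) : ℝ) / 2 ^ 47 := by norm_num
theorem l1 : ((0 : ℤ) : ℝ) / 2 ^ 47 = 0 := by norm_num
theorem u1 : (1 : ℝ) = ((140737488355328 : ℤ) : ℝ) / 2 ^ 47 := by norm_num
theorem l2 : ((0 : ℤ) : ℝ) / 2 ^ 47 = 0 := by norm_num
theorem u2 : (1 : ℝ) = ((140737488355328 : ℤ) : ℝ) / 2 ^ 47 := by norm_num

theorem out0 (N : ∀ ta : ℝ, 0 ≤ ta → ta ≤ 1 → 0 ≤ outR prog 0 [0, 0, ta]) {x j ta : ℝ} (a0 : 0 ≤ x)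
    (b0 : x ≤ 1) (a1 : 0 ≤ j) (b1 : j ≤ 1) (a2 : 0 ≤ ta) (b2 : ta ≤ 1)  (p1 : 0 < j) : 0
    < outR prog 0 [x, j, ta] :=
  gd 0 (by decide) [x, j, ta] (.cons ⟨l0.le.trans a0, b0.trans u0.le⟩ (.cons ⟨l1.le.trans a1,
    b1.trans u1.le⟩ (.cons ⟨l2.le.trans a2, b2.trans u2.le⟩ (.nil)))) ⟨nofun, nofun, nofun, trivial⟩
    (fun _ ↦ .inr (.inl ⟨rfl, p1⟩)) (List.forall_mem_nil _) (Van.of0 rfl) (fun _ _ _ _ _ _ _ y2 a2 b2 ↦ N y2
    (l2.ge.trans a2) (b2.trans u2.ge))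

theorem out1 (N : ∀ ta : ℝ, 0 ≤ ta → ta ≤ 1 → 0 ≤ outR prog 1 [0, 0, ta]) {x j ta : ℝ} (a0 : 0 ≤ x)
    (b0 : x ≤ 1) (a1 : 0 ≤ j) (b1 : j ≤ 1) (a2 : 0 ≤ ta) (b2 : ta ≤ 1)  (p1 : 0 < j) : 0
    < outR prog 1 [x, j, ta] :=
  gd 1 (by decide) [x, j, ta] (.cons ⟨l0.le.trans a0, b0.trans u0.le⟩ (.cons ⟨l1.le.trans a1,
    b1.trans u1.le⟩ (.cons ⟨l2.le.trans a2, b2.trans u2.le⟩ (.nil)))) ⟨nofun, nofun, nofun, trivial⟩
    (fun _ ↦ .inr (.inl ⟨rfl, p1⟩)) (List.forall_mem_nil _) (Van.of0 rfl) (fun _ _ _ _ _ _ _ y2 a2 b2 ↦ N y2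
    (l2.ge.trans a2) (b2.trans u2.ge))

end Pool.Agent.Lib.MP_d6150d_an.BcJ
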