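import Pool.Agent.Lib.MP_d6150d_an.GEq
import Pool.Agent.Lib.MP_d6150d_an.BcMac
import Pool.Agent.Lib.MP_d6150d_an.PpChk
import Pool.Agent.Lib.MP_d6150d_an.BcLK0

/-! A generated chart: the inequality. -/

namespace Pool.Agent.Lib.MP_d6150d_an.BcL

set_option linter.unnecessarySeqFocus false
set_option linter.unusedTactic false
set_option linter.unusedVariables false

theorem gd : Gd2 C [(0, 140737488355328), (0, 140737488355328), (0, 140737488355328), (0,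
    140737488355328)] := .split 1 (.split 0 (.split 1 (.split 3 (chk_sound2 k0) (chk_sound2 k1))
    (chk_sound2 k2)) (chk_sound2 k3)) (chk_sound2 k4)

set_option maxRecDepth 100000 in
theorem eq {x j o w F f aa qq al y3 y4 T y1 y2 y5 m ph s ch pc d r rr r2 A0 B0 i2 Om W iw N0 H0 iq a
    g mm om b c zr ro X S V k z42 z43 z44 z45 G0 z47 G1 : ℝ} (hF : F = 1 / 4 - x / 50) (hf : f =
    F⁻¹) (haa : aa = 1 / 2 + x / 25) (hqq : qq = 77 / 100) (hal : al = 7 * x / 40) (hy3 : y3 =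
    Real.exp 4) (hy4 : y4 = Real.exp (aa * 4)) (hT : T = 6) (hy1 : y1 = Real.exp (-(aa * T))) (hy2 :
    y2 = Real.exp (-T)) (hy5 : y5 = Real.exp (-((aa + x / 25) * T))) (hm : m = w + 2 * x / 25 * o *
    (1 - w)) (hph : ph = y1 * w) (hs : s = y2 * m ^ 2) (hch : ch = y5 * (2 * w - m)) (hpc : pc = 1 /
    512 * y3 * j) (hd : d = pc * s) (hr : r = 1) (hrr : rr = 364 * d - 29 / 100 - 2 * x / 5) (hr2 :
    r2 = r ^ 2) (hA0 : A0 = (1 - d) * f / 2) (hB0 : B0 = (1 - 2 * d) / aa) (hi2 : i2 = (2 - 2 *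
    F)⁻¹) (hOm : Om = 2 * (r2 * (A0 * (s - ph) + B0 * (1 - ph) - d * ph * i2) + pc * i2)) (hW : W =
    (1 - s) * (r2 * (1 - d) + pc)) (hiw : iw = W⁻¹) (hN0 : N0 = F * Om) (hH0 : H0 = Om * (r2 * (1 -
    2 * d) + 2 * pc)) (hiq : iq = iw ^ 2) (ha : a = -(N0 * iw)) (hg : g = iq * H0) (hmm : mm = iq *
    (2 * W * (W + N0) - H0)) (hom : om = iq * (Om * (pc + s * r2 * (1 - d)))) (hb : b = -(iq * (Om *
    pc))) (hc : c = F * (1 - F + 2 * d) / 3) (hzr : zr = (√(r2 * ph + c * Om))⁻¹) (hro : ro = r *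
    zr) (hX : X = 1 - ph * ro ^ 2) (hS : S = ch * ro ^ 3) (hV : V = Om * zr ^ 2) (hk : k = mBcK F d)
    (hz42 : z42 = (mBcR f a g mm om b).1) (hz43 : z43 = (mBcR f a g mm om b).2.1) (hz44 : z44 = mBcP
    qq rr al c k X V) (hz45 : z45 = (mBcR f a g mm om b).2.2.2) (hG0 : G0 = Om * ((qq + rr) * z42 +
    qq * z43 - S * z44) - 16 * r2 * ph * z45) (hz47 : z47 = (mBcR f a g mm om b).2.2.1) (hG1 : G1 =
    1 / 460 * Om ^ 2 * (z47 - 3 * S * ph * ro ^ 2 * (f - 1 - 5 * X))) : outR prog 0 [x, j, o, w] =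
    -(r2 * G0) ∧ outR prog 1 [x, j, o, w] = y4 * (1 - aa + aa * j) * G1 - r2 * G0 := by
  replace hF : F = (((Int.cast (1) : ℝ) / (Nat.cast 4 : ℝ)) - (((Int.cast (1) : ℝ) / (Nat.cast 50 :
    ℝ)) * x)) := hF.trans (by push_cast <;> ring)
  replace hf : f = F⁻¹ := hf.trans (by push_cast <;> ring)
  replace haa : aa = (((Int.cast (1) : ℝ) / (Nat.cast 2 : ℝ)) + (((Int.cast (1) : ℝ) / (Nat.cast 25
    : ℝ)) * x)) := haa.trans (by push_cast <;> ring)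
  replace hqq : qq = ((Int.cast (77) : ℝ) / (Nat.cast 100 : ℝ)) := hqq.trans (by push_cast <;> ring)
  replace hal : al = (((Int.cast (1) : ℝ) / (Nat.cast 40 : ℝ)) * ((Int.cast (7) : ℝ) * x)) :=
    hal.trans (by push_cast <;> ring)
  replace hy3 : y3 = (Real.exp (Int.cast (4) : ℝ)) := hy3.trans (congrArg Real.exp (by push_cast <;>
    ring))
  replace hy4 : y4 = (Real.exp ((Int.cast (4) : ℝ) * aa)) := hy4.trans (congrArg Real.exp (by
    push_cast <;> ring))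
  replace hT : T = (Int.cast (6) : ℝ) := hT.trans (by push_cast <;> ring)
  replace hy1 : y1 = (Real.exp ((Int.cast (-1) : ℝ) * (aa * T))) := hy1.trans (congrArg Real.exp (by
    push_cast <;> ring))
  replace hy2 : y2 = (Real.exp ((Int.cast (-1) : ℝ) * T)) := hy2.trans (congrArg Real.exp (by
    push_cast <;> ring))
  replace hy5 : y5 = (Real.exp ((Int.cast (-1) : ℝ) * ((aa + (((Int.cast (1) : ℝ) / (Nat.cast 25 :
    ℝ)) * x)) * T))) := hy5.trans (congrArg Real.exp (by push_cast <;> ring))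
  replace hm : m = (w + (((((Int.cast (1) : ℝ) / (Nat.cast 25 : ℝ)) * ((Int.cast (2) : ℝ) * x)) * o)
    * ((Int.cast (1) : ℝ) - w))) := hm.trans (by push_cast <;> ring)
  replace hph : ph = (y1 * w) := hph.trans (by push_cast <;> ring)
  replace hs : s = (y2 * (m * m)) := hs.trans (by push_cast <;> ring)
  replace hch : ch = (y5 * (((Int.cast (2) : ℝ) * w) - m)) := hch.trans (by push_cast <;> ring)
  replace hpc : pc = ((((Int.cast (1) : ℝ) / (Nat.cast 512 : ℝ)) * y3) * j) := hpc.trans (by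
    push_cast <;> ring)
  replace hd : d = (pc * s) := hd.trans (by push_cast <;> ring)
  replace hr : r = (Int.cast (1) : ℝ) := hr.trans (by push_cast <;> ring)
  replace hrr : rr = ((((Int.cast (364) : ℝ) * d) - ((Int.cast (29) : ℝ) / (Nat.cast 100 : ℝ))) -
    (((Int.cast (1) : ℝ) / (Nat.cast 5 : ℝ)) * ((Int.cast (2) : ℝ) * x))) := hrr.trans (by push_cast
    <;> ring)
  replace hr2 : r2 = (r * r) := hr2.trans (by push_cast <;> ring)
  replace hA0 : A0 = (((Int.cast (1) : ℝ) / (Nat.cast 2 : ℝ)) * (((Int.cast (1) : ℝ) - d) * f)) :=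
    hA0.trans (by push_cast <;> ring)
  replace hB0 : B0 = (((Int.cast (1) : ℝ) - ((Int.cast (2) : ℝ) * d)) * aa⁻¹) := hB0.trans (by
    push_cast <;> ring)
  replace hi2 : i2 = ((Int.cast (2) : ℝ) - ((Int.cast (2) : ℝ) * F))⁻¹ := hi2.trans (by push_cast
    <;> ring)
  replace hOm : Om = ((Int.cast (2) : ℝ) * ((r2 * (((A0 * (s - ph)) + (B0 * ((Int.cast (1) : ℝ) -
    ph))) - ((d * ph) * i2))) + (pc * i2))) := hOm.trans (by push_cast <;> ring)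
  replace hW : W = (((Int.cast (1) : ℝ) - s) * ((r2 * ((Int.cast (1) : ℝ) - d)) + pc)) := hW.trans
    (by push_cast <;> ring)
  replace hiw : iw = W⁻¹ := hiw.trans (by push_cast <;> ring)
  replace hN0 : N0 = (F * Om) := hN0.trans (by push_cast <;> ring)
  replace hH0 : H0 = (Om * ((r2 * ((Int.cast (1) : ℝ) - ((Int.cast (2) : ℝ) * d))) + ((Int.cast (2)
    : ℝ) * pc))) := hH0.trans (by push_cast <;> ring)
  replace hiq : iq = (iw * iw) := hiq.trans (by push_cast <;> ring)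
  replace ha : a = ((Int.cast (-1) : ℝ) * (N0 * iw)) := ha.trans (by push_cast <;> ring)
  replace hg : g = (iq * H0) := hg.trans (by push_cast <;> ring)
  replace hmm : mm = (iq * ((((Int.cast (2) : ℝ) * W) * (W + N0)) - H0)) := hmm.trans (by push_cast
    <;> ring)
  replace hom : om = (iq * (Om * (pc + ((s * r2) * ((Int.cast (1) : ℝ) - d))))) := hom.trans (by
    push_cast <;> ring)
  replace hb : b = ((Int.cast (-1) : ℝ) * (iq * (Om * pc))) := hb.trans (by push_cast <;> ring)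
  replace hc : c = (((Int.cast (1) : ℝ) / (Nat.cast 3 : ℝ)) * (F * (((Int.cast (1) : ℝ) - F) +
    ((Int.cast (2) : ℝ) * d)))) := hc.trans (by push_cast <;> ring)
  replace hzr : zr = (√((r2 * ph) + (c * Om)))⁻¹ := hzr.trans (congrArg (fun x : ℝ ↦ (√x)⁻¹) (by
    push_cast <;> ring))
  replace hro : ro = (r * zr) := hro.trans (by push_cast <;> ring)
  replace hX : X = ((Int.cast (1) : ℝ) - (ph * (ro * ro))) := hX.trans (by push_cast <;> ring)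
  replace hS : S = (ch * ((ro * ro) * ro)) := hS.trans (by push_cast <;> ring)
  replace hV : V = (Om * (zr * zr)) := hV.trans (by push_cast <;> ring)
  replace hk : k = (mBcK F d) := hk.trans (mBcK_0 ..)
  replace hz42 : z42 = (mBcR f a g mm om b).1 := hz42.trans (mBcR_0 ..)
  replace hz43 : z43 = (mBcR f a g mm om b).2.1 := hz43.trans (mBcR_1 ..)
  replace hz44 : z44 = (mBcP qq rr al c k X V) := hz44.trans (mBcP_0 ..)
  replace hz45 : z45 = (mBcR f a g mm om b).2.2.2 := hz45.trans (mBcR_3 ..)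
  replace hG0 : G0 = ((Om * ((((qq + rr) * z42) + (qq * z43)) - (S * z44))) - ((((Int.cast (16) : ℝ)
    * r2) * ph) * z45)) := hG0.trans (by push_cast <;> ring)
  replace hz47 : z47 = (mBcR f a g mm om b).2.2.1 := hz47.trans (mBcR_2 ..)
  replace hG1 : G1 = ((((Int.cast (1) : ℝ) / (Nat.cast 460 : ℝ)) * (Om * Om)) * (z47 - (((((Int.cast
    (3) : ℝ) * S) * ph) * (ro * ro)) * ((f - (Int.cast (1) : ℝ)) - ((Int.cast (5) : ℝ) * X))))) :=
    hG1.trans (by push_cast <;> ring)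
  have e0 : ((Int.cast (-1) : ℝ) * (r2 * G0)) = -(r2 * G0) := by push_cast <;> ring
  have e1 : (((y4 * (((Int.cast (1) : ℝ) - aa) + (aa * j))) * G1) - (r2 * G0)) = y4 * (1 - aa + aa *
    j) * G1 - r2 * G0 := by push_cast <;> ring
  subst hF hf haa hqq hal hy3 hy4 hT hy1 hy2 hy5 hm hph hs hch hpc hd hr hrr hr2 hA0 hB0 hi2 hOm hW
    hiw hN0 hH0 hiq ha hg hmm hom hb hc hzr hro hX hS hV hk hz42 hz43 hz44 hz45 hG0 hz47 hG1
  refine ⟨Eq.trans ?_ e0, Eq.trans ?_ e1⟩ <;>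
    simp only [outR, prog, prog1, prog2, prog3, prog4, runR, stepR, gtR, mBcR, mBcK, mBcP]

theorem l0 : ((0 : ℤ) : ℝ) / 2 ^ 47 = 0 := by norm_num
theorem u0 : (1 : ℝ) = ((140737488355328 : ℤ) : ℝ) / 2 ^ 47 := by norm_num
theorem l1 : ((0 : ℤ) : ℝ) / 2 ^ 47 = 0 := by norm_num
theorem u1 : (1 : ℝ) = ((140737488355328 : ℤ) : ℝ) / 2 ^ 47 := by norm_num
theorem l2 : ((0 : ℤ) : ℝ) / 2 ^ 47 = 0 := by norm_num
theorem u2 : (1 : ℝ) = ((140737488355328 : ℤ) : ℝ) / 2 ^ 47 := by norm_num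
theorem l3 : ((0 : ℤ) : ℝ) / 2 ^ 47 = 0 := by norm_num
theorem u3 : (1 : ℝ) = ((140737488355328 : ℤ) : ℝ) / 2 ^ 47 := by norm_num

theorem out0 (N : ∀ o w : ℝ, 0 ≤ o → o ≤ 1 → 0 ≤ w → w ≤ 1 → 0 ≤ outR prog 0 [0, 0, o, w]) {x j o w
    : ℝ} (a0 : 0 ≤ x) (b0 : x ≤ 1) (a1 : 0 ≤ j) (b1 : j ≤ 1) (a2 : 0 ≤ o) (b2 : o ≤ 1) (a3 : 0 ≤ w)
    (b3 : w ≤ 1)  (p1 : 0 < j) : 0 < outR prog 0 [x, j, o, w] :=
  gd 0 (by decide) [x, j, o, w] (.cons ⟨l0.le.trans a0, b0.trans u0.le⟩ (.cons ⟨l1.le.trans a1,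
    b1.trans u1.le⟩ (.cons ⟨l2.le.trans a2, b2.trans u2.le⟩ (.cons ⟨l3.le.trans a3, b3.trans u3.le⟩
    (.nil))))) ⟨nofun, nofun, nofun, nofun, trivial⟩
    (fun _ ↦ .inr (.inl ⟨rfl, p1⟩)) (List.forall_mem_nil _) (Van.of0 rfl)
    (fun _ _ _ _ _ _ _ y2 a2 b2 y3 a3 b3 ↦ N y2 y3 (l2.ge.trans a2) (b2.trans u2.ge) (l3.ge.trans
    a3) (b3.trans u3.ge))

theorem out1 (N : ∀ o w : ℝ, 0 ≤ o → o ≤ 1 → 0 ≤ w → w ≤ 1 → 0 ≤ outR prog 1 [0, 0, o, w]) {x j o w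
    : ℝ} (a0 : 0 ≤ x) (b0 : x ≤ 1) (a1 : 0 ≤ j) (b1 : j ≤ 1) (a2 : 0 ≤ o) (b2 : o ≤ 1) (a3 : 0 ≤ w)
    (b3 : w ≤ 1)  (p1 : 0 < j) : 0 < outR prog 1 [x, j, o, w] :=
  gd 1 (by decide) [x, j, o, w] (.cons ⟨l0.le.trans a0, b0.trans u0.le⟩ (.cons ⟨l1.le.trans a1,
    b1.trans u1.le⟩ (.cons ⟨l2.le.trans a2, b2.trans u2.le⟩ (.cons ⟨l3.le.trans a3, b3.trans u3.le⟩
    (.nil))))) ⟨nofun, nofun, nofun, nofun, trivial⟩
    (fun _ ↦ .inr (.inl ⟨rfl, p1⟩)) (List.forall_mem_nil _) (Van.of0 rfl)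
    (fun _ _ _ _ _ _ _ y2 a2 b2 y3 a3 b3 ↦ N y2 y3 (l2.ge.trans a2) (b2.trans u2.ge) (l3.ge.trans
    a3) (b3.trans u3.ge))

end Pool.Agent.Lib.MP_d6150d_an.BcL
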