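import Pool.Agent.Lib.MP_d6150d_an.BcMD

/-! A generated chart: the computations. -/

namespace Pool.Agent.Lib.MP_d6150d_an.BcM

theorem k0 : chk C 0x881881828809188800890129200 [(0, 140737488355328), (0, 140737488355328), (0,
    35184372088832)] = true := by
  decide +kernel

theorem k1 : chk C 0x88182888008992018880088900120 [(0, 140737488355328), (0, 140737488355328),
    (35184372088832, 70368744177664)] = true := by
  decide +kernel

theorem k2 : chk C 0x888118880088811888209921010 [(0, 140737488355328), (0, 140737488355328),
    (70368744177664, 105553116266496)] = true := by
  decide +kernel

end Pool.Agent.Lib.MP_d6150d_an.BcM
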