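import Pool.Agent.Lib.MP_d6150d_an.BcMD

/-! A generated chart: the computations. -/

namespace Pool.Agent.Lib.MP_d6150d_an.BcM

theorem k3 : chk C 0x88800888811188099292188091201 [(0, 70368744177664), (0, 70368744177664),
    (105553116266496, 140737488355328)] = true := by
  decide +kernel

theorem k4 : chk C 0x8888011 [(70368744177664, 140737488355328), (0, 70368744177664),
    (105553116266496, 140737488355328)] = true := by
  decide +kernel

theorem k5 : chk C 0x88088188200 [(0, 140737488355328), (70368744177664, 140737488355328),
    (105553116266496, 140737488355328)] = true := by
  decide +kernel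

end Pool.Agent.Lib.MP_d6150d_an.BcM
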