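import Pool.Agent.Lib.MP_d6150d_an.GEq
import Pool.Agent.Lib.MP_d6150d_an.BcMac
import Pool.Agent.Lib.MP_d6150d_an.PpChk
import Pool.Agent.Lib.MP_d6150d_an.BcMK0
import Pool.Agent.Lib.MP_d6150d_an.BcMK1

/-! A generated chart: the inequality. -/

namespace Pool.Agent.Lib.MP_d6150d_an.BcM

set_option linter.unnecessarySeqFocus false
set_option linter.unusedTactic false
set_option linter.unusedVariables false

theorem gd : Gd2 C [(0, 140737488355328), (0, 140737488355328), (0, 140737488355328)] := .split 2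
    (.split 2 (chk_sound2 k0) (chk_sound2 k1)) (.split 2 (chk_sound2 k2) (.split 1 (.split 0 (chk_sound2
    k3) (chk_sound2 k4)) (chk_sound2 k5)))

set_option maxRecDepth 100000 in
theorem eq {x j r F f aa qq al d D rr t E xi yi mu z14 iW M a g b mm om v c R X S V k z29 z30 z31
    z32 G0 z34 G1 : ℝ} (hF : F = 1 / 4 - x / 50) (hf : f = F⁻¹) (haa : aa = 1 / 2 + x / 25) (hqq :
    qq = 77 / 100) (hal : al = 7 * x / 40) (hd : d = 1 / 512 * j) (hD : D = -d) (hrr : rr = 364 * d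
    - 29 / 100 - 2 * x / 5) (ht : t = -(4 * r)) (hE : E = Real.exp (t / 2)) (hxi : xi = Real.exp
    (-(t / 2))) (hyi : yi = Real.exp (-(F * t))) (hmu : mu = muR D F t) (hz14 : z14 = ph1 (t / 2))
    (hiW : iW = (z14 * (1 + xi) / 2 * (1 + D - D * xi ^ 2))⁻¹) (hM : M = mu * yi ^ 2 * E * iW) (ha :
    a = F * t * M) (hg : g = M * iW * xi * (1 + 2 * D - 2 * D * xi ^ 2)) (hb : b = M * iW * D * xi ^
    3) (hmm : mm = 2 - 2 * a - g) (hom : om = g + t * M) (hv : v = t ^ 2 * mu) (hc : c = F * (1 - F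
    + 2 * d) / 3) (hR : R = (√(1 + c * v))⁻¹) (hX : X = 1 - R ^ 2) (hS : S = yi * R ^ 3) (hV : V = v
    * R ^ 2) (hk : k = mBcK F d) (hz29 : z29 = (mBcR f a g mm om b).1) (hz30 : z30 = (mBcR f a g mm
    om b).2.1) (hz31 : z31 = mBcP qq rr al c k X V) (hz32 : z32 = (mBcR f a g mm om b).2.2.2) (hG0 :
    G0 = v * ((qq + rr) * z29 + qq * z30 - S * z31) - 16 * z32) (hz34 : z34 = (mBcR f a g mm om
    b).2.2.1) (hG1 : G1 = 1 / 460 * v ^ 2 * (z34 - 3 * S * R ^ 2 * (f - 1 - 5 * X))) : outR prog 0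
    [x, j, r] = -G0 ∧ outR prog 1 [x, j, r] = (1 - aa + aa * j) * G1 - G0 := by
  replace hF : F = (((Int.cast (1) : ℝ) / (Nat.cast 4 : ℝ)) - (((Int.cast (1) : ℝ) / (Nat.cast 50 :
    ℝ)) * x)) := hF.trans (by push_cast <;> ring)
  replace hf : f = F⁻¹ := hf.trans (by push_cast <;> ring)
  replace haa : aa = (((Int.cast (1) : ℝ) / (Nat.cast 2 : ℝ)) + (((Int.cast (1) : ℝ) / (Nat.cast 25
    : ℝ)) * x)) := haa.trans (by push_cast <;> ring)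
  replace hqq : qq = ((Int.cast (77) : ℝ) / (Nat.cast 100 : ℝ)) := hqq.trans (by push_cast <;> ring)
  replace hal : al = (((Int.cast (1) : ℝ) / (Nat.cast 40 : ℝ)) * ((Int.cast (7) : ℝ) * x)) :=
    hal.trans (by push_cast <;> ring)
  replace hd : d = (((Int.cast (1) : ℝ) / (Nat.cast 512 : ℝ)) * j) := hd.trans (by push_cast <;>
    ring)
  replace hD : D = ((Int.cast (-1) : ℝ) * d) := hD.trans (by push_cast <;> ring)
  replace hrr : rr = ((((Int.cast (364) : ℝ) * d) - ((Int.cast (29) : ℝ) / (Nat.cast 100 : ℝ))) -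
    (((Int.cast (1) : ℝ) / (Nat.cast 5 : ℝ)) * ((Int.cast (2) : ℝ) * x))) := hrr.trans (by push_cast
    <;> ring)
  replace ht : t = ((Int.cast (-1) : ℝ) * ((Int.cast (4) : ℝ) * r)) := ht.trans (by push_cast <;>
    ring)
  replace hE : E = (Real.exp (((Int.cast (1) : ℝ) / (Nat.cast 2 : ℝ)) * t)) := hE.trans (congrArg
    Real.exp (by push_cast <;> ring))
  replace hxi : xi = (Real.exp ((Int.cast (-1) : ℝ) * (((Int.cast (1) : ℝ) / (Nat.cast 2 : ℝ)) *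
    t))) := hxi.trans (congrArg Real.exp (by push_cast <;> ring))
  replace hyi : yi = (Real.exp ((Int.cast (-1) : ℝ) * (F * t))) := hyi.trans (congrArg Real.exp (by
    push_cast <;> ring))
  replace hmu : mu = (mMu D F t) := hmu.trans (mMu_0 ..)
  replace hz14 : z14 = (ph1 (((Int.cast (1) : ℝ) / (Nat.cast 2 : ℝ)) * t)) := hz14.trans (congrArg
    ph1 (by push_cast <;> ring))
  replace hiW : iW = ((((Int.cast (1) : ℝ) / (Nat.cast 2 : ℝ)) * (z14 * ((Int.cast (1) : ℝ) + xi)))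
    * (((Int.cast (1) : ℝ) + D) - (D * (xi * xi))))⁻¹ := hiW.trans (by push_cast <;> ring)
  replace hM : M = (((mu * (yi * yi)) * E) * iW) := hM.trans (by push_cast <;> ring)
  replace ha : a = ((F * t) * M) := ha.trans (by push_cast <;> ring)
  replace hg : g = (((M * iW) * xi) * (((Int.cast (1) : ℝ) + ((Int.cast (2) : ℝ) * D)) - (((Int.cast
    (2) : ℝ) * D) * (xi * xi)))) := hg.trans (by push_cast <;> ring)
  replace hb : b = (((M * iW) * D) * ((xi * xi) * xi)) := hb.trans (by push_cast <;> ring)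
  replace hmm : mm = (((Int.cast (2) : ℝ) - ((Int.cast (2) : ℝ) * a)) - g) := hmm.trans (by
    push_cast <;> ring)
  replace hom : om = (g + (t * M)) := hom.trans (by push_cast <;> ring)
  replace hv : v = ((t * t) * mu) := hv.trans (by push_cast <;> ring)
  replace hc : c = (((Int.cast (1) : ℝ) / (Nat.cast 3 : ℝ)) * (F * (((Int.cast (1) : ℝ) - F) +
    ((Int.cast (2) : ℝ) * d)))) := hc.trans (by push_cast <;> ring)
  replace hR : R = (√((Int.cast (1) : ℝ) + (c * v)))⁻¹ := hR.trans (congrArg (fun x : ℝ ↦ (√x)⁻¹)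
    (by push_cast <;> ring))
  replace hX : X = ((Int.cast (1) : ℝ) - (R * R)) := hX.trans (by push_cast <;> ring)
  replace hS : S = (yi * ((R * R) * R)) := hS.trans (by push_cast <;> ring)
  replace hV : V = (v * (R * R)) := hV.trans (by push_cast <;> ring)
  replace hk : k = (mBcK F d) := hk.trans (mBcK_0 ..)
  replace hz29 : z29 = (mBcR f a g mm om b).1 := hz29.trans (mBcR_0 ..)
  replace hz30 : z30 = (mBcR f a g mm om b).2.1 := hz30.trans (mBcR_1 ..)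
  replace hz31 : z31 = (mBcP qq rr al c k X V) := hz31.trans (mBcP_0 ..)
  replace hz32 : z32 = (mBcR f a g mm om b).2.2.2 := hz32.trans (mBcR_3 ..)
  replace hG0 : G0 = ((v * ((((qq + rr) * z29) + (qq * z30)) - (S * z31))) - ((Int.cast (16) : ℝ) *
    z32)) := hG0.trans (by push_cast <;> ring)
  replace hz34 : z34 = (mBcR f a g mm om b).2.2.1 := hz34.trans (mBcR_2 ..)
  replace hG1 : G1 = ((((Int.cast (1) : ℝ) / (Nat.cast 460 : ℝ)) * (v * v)) * (z34 - ((((Int.cast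
    (3) : ℝ) * S) * (R * R)) * ((f - (Int.cast (1) : ℝ)) - ((Int.cast (5) : ℝ) * X))))) := hG1.trans
    (by push_cast <;> ring)
  have e0 : ((Int.cast (-1) : ℝ) * G0) = -G0 := by push_cast <;> ring
  have e1 : (((((Int.cast (1) : ℝ) - aa) + (aa * j)) * G1) - G0) = (1 - aa + aa * j) * G1 - G0 := by
    push_cast <;> ring
  subst hF hf haa hqq hal hd hD hrr ht hE hxi hyi hmu hz14 hiW hM ha hg hb hmm hom hv hc hR hX hS hV
    hk hz29 hz30 hz31 hz32 hG0 hz34 hG1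
  refine ⟨Eq.trans ?_ e0, Eq.trans ?_ e1⟩ <;>
    simp only [outR, prog, prog1, prog2, prog3, prog4, runR, stepR, gtR, mMu, mBcR, mBcK, mBcP]

theorem l0 : ((0 : ℤ) : ℝ) / 2 ^ 47 = 0 := by norm_num
theorem u0 : (1 : ℝ) = ((140737488355328 : ℤ) : ℝ) / 2 ^ 47 := by norm_num
theorem l1 : ((0 : ℤ) : ℝ) / 2 ^ 47 = 0 := by norm_num
theorem u1 : (1 : ℝ) = ((140737488355328 : ℤ) : ℝ) / 2 ^ 47 := by norm_num
theorem l2 : ((0 : ℤ) : ℝ) / 2 ^ 47 = 0 := by norm_num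
theorem u2 : (1 : ℝ) = ((140737488355328 : ℤ) : ℝ) / 2 ^ 47 := by norm_num

theorem out0 (V2 : ∀ x j : ℝ, 0 ≤ x → x ≤ 1 → 0 ≤ j → j ≤ 1 → (fun r ↦ outR prog 0 [x, j, r])
    =O[nhdsWithin 0 (Set.Ioi 0)] fun r : ℝ ↦ r ^ 5) (N : ∀ r : ℝ, 0 ≤ r → r ≤ 1 → 0 ≤ outR prog 0
    [0, 0, r]) {x j r : ℝ} (a0 : 0 ≤ x) (b0 : x ≤ 1) (a1 : 0 ≤ j) (b1 : j ≤ 1) (a2 : 0 ≤ r) (b2 : r
    ≤ 1)  (p1 : 0 < j) (p2 : 0 < r) : 0 < outR prog 0 [x, j, r] :=
  gd 0 (by decide) [x, j, r] (.cons ⟨l0.le.trans a0, b0.trans u0.le⟩ (.cons ⟨l1.le.trans a1,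
    b1.trans u1.le⟩ (.cons ⟨l2.le.trans a2, b2.trans u2.le⟩ (.nil)))) ⟨nofun, nofun, fun _ ↦ p2, trivial⟩
    (fun _ ↦ .inr (.inl ⟨rfl, p1⟩)) (List.forall_mem_nil _) (⟨fun _ ↦ allB_iff.2 fun _ _ ↦ trivial, fun y0 a0 b0 ↦
    ⟨fun _ ↦ allB_iff.2 fun _ _ ↦ trivial, fun y1 a1 b1 ↦ ⟨fun _ ↦ V2 y0 y1 (l0.ge.trans a0)
    (b0.trans u0.ge) (l1.ge.trans a1) (b1.trans u1.ge), fun _ _ _ ↦ trivial⟩⟩⟩) (fun _ _ _ _ _ _ _
    y2 a2 b2 ↦ N y2 (l2.ge.trans a2) (b2.trans u2.ge))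

theorem out1 (V2 : ∀ x j : ℝ, 0 ≤ x → x ≤ 1 → 0 ≤ j → j ≤ 1 → (fun r ↦ outR prog 1 [x, j, r])
    =O[nhdsWithin 0 (Set.Ioi 0)] fun r : ℝ ↦ r ^ 5) (N : ∀ r : ℝ, 0 ≤ r → r ≤ 1 → 0 ≤ outR prog 1
    [0, 0, r]) {x j r : ℝ} (a0 : 0 ≤ x) (b0 : x ≤ 1) (a1 : 0 ≤ j) (b1 : j ≤ 1) (a2 : 0 ≤ r) (b2 : r
    ≤ 1)  (p1 : 0 < j) (p2 : 0 < r) : 0 < outR prog 1 [x, j, r] :=
  gd 1 (by decide) [x, j, r] (.cons ⟨l0.le.trans a0, b0.trans u0.le⟩ (.cons ⟨l1.le.trans a1,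
    b1.trans u1.le⟩ (.cons ⟨l2.le.trans a2, b2.trans u2.le⟩ (.nil)))) ⟨nofun, nofun, fun _ ↦ p2, trivial⟩
    (fun _ ↦ .inr (.inl ⟨rfl, p1⟩)) (List.forall_mem_nil _) (⟨fun _ ↦ allB_iff.2 fun _ _ ↦ trivial, fun y0 a0 b0 ↦
    ⟨fun _ ↦ allB_iff.2 fun _ _ ↦ trivial, fun y1 a1 b1 ↦ ⟨fun _ ↦ V2 y0 y1 (l0.ge.trans a0)
    (b0.trans u0.ge) (l1.ge.trans a1) (b1.trans u1.ge), fun _ _ _ ↦ trivial⟩⟩⟩) (fun _ _ _ _ _ _ _
    y2 a2 b2 ↦ N y2 (l2.ge.trans a2) (b2.trans u2.ge))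

end Pool.Agent.Lib.MP_d6150d_an.BcM
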