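import Pool.Agent.Lib.MP_d6150d_an.BcPD

/-! A generated chart: the computations. -/

namespace Pool.Agent.Lib.MP_d6150d_an.BcP

theorem k0 : chk C 0x88890008818828992092002 [(0, 140737488355328), (0, 140737488355328), (0,
    70368744177664)] = true := by
  decide +kernel

theorem k1 : chk C 0x880882890890200 [(0, 140737488355328), (0, 140737488355328), (70368744177664,
    140737488355328)] = true := by
  decide +kernel

end Pool.Agent.Lib.MP_d6150d_an.BcP
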