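import Pool.Agent.Lib.MP_d6150d_an.BcRD

/-! A generated chart: the computations. -/

namespace Pool.Agent.Lib.MP_d6150d_an.BcR

theorem k0 : chk C 0x8838892892320 [(0, 35184372088832), (0, 35184372088832), (0, 8796093022208),
    (0, 35184372088832)] = true := by
  decide +kernel

theorem k1 : chk C 0x883888881108888110320 [(0, 35184372088832), (35184372088832, 70368744177664),
    (0, 8796093022208), (0, 35184372088832)] = true := by
  decide +kernel

theorem k2 : chk C 0x88813 [(0, 35184372088832), (0, 70368744177664), (8796093022208,
    17592186044416), (0, 35184372088832)] = true := by
  decide +kernel

theorem k3 : chk C 0x888881222 [(35184372088832, 70368744177664), (0, 70368744177664), (0,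
    17592186044416), (0, 35184372088832)] = true := by
  decide +kernel

theorem k4 : chk C 0x88388880188801320 [(0, 35184372088832), (70368744177664, 105553116266496), (0,
    8796093022208), (0, 35184372088832)] = true := by
  decide +kernel

theorem k5 : chk C 0x888801088881023 [(0, 35184372088832), (105553116266496, 140737488355328), (0,
    8796093022208), (0, 35184372088832)] = true := by
  decide +kernel

theorem k6 : chk C 0x883 [(0, 35184372088832), (70368744177664, 140737488355328), (8796093022208,
    17592186044416), (0, 35184372088832)] = true := by
  decide +kernel

end Pool.Agent.Lib.MP_d6150d_an.BcR
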