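import Pool.Agent.Lib.MP_d6150d_an.BcRD

/-! A generated chart: the computations. -/

namespace Pool.Agent.Lib.MP_d6150d_an.BcR

theorem k7 : chk C 0x8888103888031 [(35184372088832, 70368744177664), (70368744177664,
    140737488355328), (0, 17592186044416), (0, 35184372088832)] = true := by
  decide +kernel

theorem k8 : chk C 0x888888818302008892012 [(0, 35184372088832), (0, 70368744177664), (0,
    8796093022208), (35184372088832, 70368744177664)] = true := by
  decide +kernel

theorem k9 : chk C 0x8888888112002 [(0, 35184372088832), (70368744177664, 140737488355328), (0,
    8796093022208), (35184372088832, 70368744177664)] = true := by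
  decide +kernel

theorem k10 : chk C 0x881 [(0, 35184372088832), (0, 140737488355328), (8796093022208,
    17592186044416), (35184372088832, 70368744177664)] = true := by
  decide +kernel

theorem k11 : chk C 0x888881122 [(35184372088832, 70368744177664), (0, 140737488355328), (0,
    17592186044416), (35184372088832, 70368744177664)] = true := by
  decide +kernel

theorem k12 : chk C 0x881888038881013 [(0, 70368744177664), (0, 140737488355328), (17592186044416,
    35184372088832), (0, 70368744177664)] = true := by
  decide +kernel

theorem k13 : chk C 0x888881033 [(0, 70368744177664), (0, 140737488355328), (35184372088832,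
    70368744177664), (0, 70368744177664)] = true := by
  decide +kernel

end Pool.Agent.Lib.MP_d6150d_an.BcR
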