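import Pool.Agent.Lib.MP_d6150d_an.BcRD

/-! A generated chart: the computations. -/

namespace Pool.Agent.Lib.MP_d6150d_an.BcR

theorem k14 : chk C 0x88881028888832223 [(70368744177664, 140737488355328), (0, 70368744177664), (0,
    70368744177664), (0, 70368744177664)] = true := by
  decide +kernel

theorem k15 : chk C 0x8888102883883888038831023 [(70368744177664, 140737488355328), (70368744177664,
    140737488355328), (0, 70368744177664), (0, 70368744177664)] = true := by
  decide +kernel

theorem k16 : chk C 0x8808838881303 [(0, 140737488355328), (0, 140737488355328), (70368744177664,
    140737488355328), (0, 70368744177664)] = true := by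
  decide +kernel

theorem k17 : chk C 0x8838892993320 [(0, 35184372088832), (0, 35184372088832), (0, 4398046511104),
    (70368744177664, 140737488355328)] = true := by
  decide +kernel

end Pool.Agent.Lib.MP_d6150d_an.BcR
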