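import Pool.Agent.Lib.MP_d6150d_an.BcRD

/-! A generated chart: the computations. -/

namespace Pool.Agent.Lib.MP_d6150d_an.BcR

theorem k18 : chk C 0x888888883088183320202 [(0, 35184372088832), (35184372088832, 70368744177664),
    (0, 4398046511104), (70368744177664, 140737488355328)] = true := by
  decide +kernel

theorem k19 : chk C 0x8881888881881320202 [(0, 35184372088832), (70368744177664, 140737488355328),
    (0, 4398046511104), (70368744177664, 140737488355328)] = true := by
  decide +kernel

theorem k20 : chk C 0x881 [(0, 35184372088832), (0, 140737488355328), (4398046511104,
    8796093022208), (70368744177664, 140737488355328)] = true := by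
  decide +kernel

theorem k21 : chk C 0x888881222 [(35184372088832, 70368744177664), (0, 140737488355328), (0,
    8796093022208), (70368744177664, 140737488355328)] = true := by
  decide +kernel

theorem k22 : chk C 0x880 [(0, 70368744177664), (0, 140737488355328), (8796093022208,
    17592186044416), (70368744177664, 140737488355328)] = true := by
  decide +kernel

theorem k23 : chk C 0x8 [(0, 70368744177664), (0, 140737488355328), (17592186044416,
    35184372088832), (70368744177664, 140737488355328)] = true := by
  decide +kernel

theorem k24 : chk C 0x8 [(0, 70368744177664), (0, 140737488355328), (35184372088832,
    70368744177664), (70368744177664, 140737488355328)] = true := by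
  decide +kernel

theorem k25 : chk C 0x8888888122222 [(70368744177664, 140737488355328), (0, 140737488355328), (0,
    70368744177664), (70368744177664, 140737488355328)] = true := by
  decide +kernel

theorem k26 : chk C 0x8 [(0, 140737488355328), (0, 140737488355328), (70368744177664,
    140737488355328), (70368744177664, 140737488355328)] = true := by
  decide +kernel

end Pool.Agent.Lib.MP_d6150d_an.BcR
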