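import Pool.Agent.Lib.MP_d6150d_an.GEq
import Pool.Agent.Lib.MP_d6150d_an.BcMac
import Pool.Agent.Lib.MP_d6150d_an.PpChk
import Pool.Agent.Lib.MP_d6150d_an.BcRK0
import Pool.Agent.Lib.MP_d6150d_an.BcRK1
import Pool.Agent.Lib.MP_d6150d_an.BcRK2
import Pool.Agent.Lib.MP_d6150d_an.BcRK3

/-! A generated chart: the inequality. -/

namespace Pool.Agent.Lib.MP_d6150d_an.BcR

set_option linter.unnecessarySeqFocus false
set_option linter.unusedTactic false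
set_option linter.unusedVariables false

theorem gd : Gd2 C [(0, 140737488355328), (0, 140737488355328), (0, 140737488355328), (0,
    140737488355328)] := .split 3 (.split 2 (.split 0 (.split 2 (.split 2 (.split 3 (.split 1
    (.split 0 (.split 2 (.split 1 (chk_sound2 k0) (chk_sound2 k1)) (chk_sound2 k2)) (chk_sound2 k3))
    (.split 0 (.split 2 (.split 1 (chk_sound2 k4) (chk_sound2 k5)) (chk_sound2 k6)) (chk_sound2 k7)))
    (.split 0 (.split 2 (.split 1 (chk_sound2 k8) (chk_sound2 k9)) (chk_sound2 k10)) (chk_sound2 k11)))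
    (chk_sound2 k12)) (chk_sound2 k13)) (.split 1 (chk_sound2 k14) (chk_sound2 k15))) (chk_sound2 k16))
    (.split 2 (.split 0 (.split 2 (.split 2 (.split 2 (.split 0 (.split 2 (.split 1 (.split 1
    (chk_sound2 k17) (chk_sound2 k18)) (chk_sound2 k19)) (chk_sound2 k20)) (chk_sound2 k21)) (chk_sound2
    k22)) (chk_sound2 k23)) (chk_sound2 k24)) (chk_sound2 k25)) (chk_sound2 k26))

set_option maxRecDepth 100000 in
theorem eq {x j o w F f aa qq al d rr z8 z z10 si ps q A0 B0 C0 ka iw Om N n H B g sH c ro X V k n2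
    bq n3 ng gg bb S z38 z39 z40 G0 z42 G1 : ℝ} (hF : F = 1 / 4 - x / 50) (hf : f = F⁻¹) (haa : aa =
    1 / 2 + x / 25) (hqq : qq = 77 / 100) (hal : al = 7 * x / 40) (hd : d = 1 / 512 * j) (hrr : rr =
    364 * d - 29 / 100 - 2 * x / 5) (hz8 : z8 = Real.exp (-(8 * F))) (hz : z = z8 * w) (hz10 : z10 =
    Real.exp (-(8 * x / 25))) (hsi : si = z10 * (1 - 4 * x / 25 * (1 - w)) * (1 - o)) (hps : ps = z
    * si) (hq : q = z * ps) (hA0 : A0 = (1 - d) * f / 2) (hB0 : B0 = (1 - 2 * d) / aa) (hC0 : C0 = d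
    / (2 - 2 * F)) (hka : ka = -(A0 + B0 + C0)) (hiw : iw = ((1 - q) * (1 - d + d * q))⁻¹) (hOm : Om
    = 2 * (A0 + ka * z + B0 * q + C0 * q ^ 2)) (hN : N = (2 * F * ka + B0 * ps + 2 * C0 * ps * q) *
    iw) (hn : n = z * N) (hH : H = f * (1 + n) * iw * (1 - 2 * d + 2 * d * q)) (hB : B = -(f * (1 +
    n) * iw * d * si)) (hg : g = q * H) (hsH : sH = si * H) (hc : c = F * (1 - F + 2 * d) / 3) (hro
    : ro = (√(z + c * Om))⁻¹) (hX : X = 1 - z * ro ^ 2) (hV : V = Om * ro ^ 2) (hk : k = mBcK F d)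
    (hn2 : n2 = N ^ 2) (hbq : bq = q * B) (hn3 : n3 = N ^ 3) (hng : ng = N * sH) (hgg : gg = ps * H
    * sH) (hbb : bb = ps * B) (hS : S = ro ^ 3) (hz38 : z38 = (mBc0 f n g n2 sH bq).1) (hz39 : z39 =
    (mBc0 f n g n2 sH bq).2) (hz40 : z40 = mBcP qq rr al c k X V) (hG0 : G0 = Om * ((qq + rr) * z38
    + qq * z39 - S * z40) - 16 * (4 * N + z * (4 * z38 - z39))) (hz42 : z42 = mCU f n g n3 ng gg bb)
    (hG1 : G1 = 1 / 460 * Om ^ 2 * (z42 - 3 * S * ro ^ 2 * (f - 1 - 5 * X))) : outR prog 0 [x, j, o,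
    w] = G0 ∧ outR prog 1 [x, j, o, w] = G0 - (1 - aa + aa * j) * G1 := by
  replace hF : F = (((Int.cast (1) : ℝ) / (Nat.cast 4 : ℝ)) - (((Int.cast (1) : ℝ) / (Nat.cast 50 :
    ℝ)) * x)) := hF.trans (by push_cast <;> ring)
  replace hf : f = F⁻¹ := hf.trans (by push_cast <;> ring)
  replace haa : aa = (((Int.cast (1) : ℝ) / (Nat.cast 2 : ℝ)) + (((Int.cast (1) : ℝ) / (Nat.cast 25
    : ℝ)) * x)) := haa.trans (by push_cast <;> ring)
  replace hqq : qq = ((Int.cast (77) : ℝ) / (Nat.cast 100 : ℝ)) := hqq.trans (by push_cast <;> ring)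
  replace hal : al = (((Int.cast (1) : ℝ) / (Nat.cast 40 : ℝ)) * ((Int.cast (7) : ℝ) * x)) :=
    hal.trans (by push_cast <;> ring)
  replace hd : d = (((Int.cast (1) : ℝ) / (Nat.cast 512 : ℝ)) * j) := hd.trans (by push_cast <;>
    ring)
  replace hrr : rr = ((((Int.cast (364) : ℝ) * d) - ((Int.cast (29) : ℝ) / (Nat.cast 100 : ℝ))) -
    (((Int.cast (1) : ℝ) / (Nat.cast 5 : ℝ)) * ((Int.cast (2) : ℝ) * x))) := hrr.trans (by push_cast
    <;> ring)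
  replace hz8 : z8 = (Real.exp ((Int.cast (-1) : ℝ) * ((Int.cast (8) : ℝ) * F))) := hz8.trans
    (congrArg Real.exp (by push_cast <;> ring))
  replace hz : z = (z8 * w) := hz.trans (by push_cast <;> ring)
  replace hz10 : z10 = (Real.exp ((Int.cast (-1) : ℝ) * (((Int.cast (1) : ℝ) / (Nat.cast 25 : ℝ)) *
    ((Int.cast (8) : ℝ) * x)))) := hz10.trans (congrArg Real.exp (by push_cast <;> ring))
  replace hsi : si = ((z10 * ((Int.cast (1) : ℝ) - ((((Int.cast (1) : ℝ) / (Nat.cast 25 : ℝ)) *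
    ((Int.cast (4) : ℝ) * x)) * ((Int.cast (1) : ℝ) - w)))) * ((Int.cast (1) : ℝ) - o)) := hsi.trans
    (by push_cast <;> ring)
  replace hps : ps = (z * si) := hps.trans (by push_cast <;> ring)
  replace hq : q = (z * ps) := hq.trans (by push_cast <;> ring)
  replace hA0 : A0 = (((Int.cast (1) : ℝ) / (Nat.cast 2 : ℝ)) * (((Int.cast (1) : ℝ) - d) * f)) :=
    hA0.trans (by push_cast <;> ring)
  replace hB0 : B0 = (((Int.cast (1) : ℝ) - ((Int.cast (2) : ℝ) * d)) * aa⁻¹) := hB0.trans (by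
    push_cast <;> ring)
  replace hC0 : C0 = (d * ((Int.cast (2) : ℝ) - ((Int.cast (2) : ℝ) * F))⁻¹) := hC0.trans (by
    push_cast <;> ring)
  replace hka : ka = ((Int.cast (-1) : ℝ) * ((A0 + B0) + C0)) := hka.trans (by push_cast <;> ring)
  replace hiw : iw = (((Int.cast (1) : ℝ) - q) * (((Int.cast (1) : ℝ) - d) + (d * q)))⁻¹ :=
    hiw.trans (by push_cast <;> ring)
  replace hOm : Om = ((Int.cast (2) : ℝ) * (((A0 + (ka * z)) + (B0 * q)) + (C0 * (q * q)))) :=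
    hOm.trans (by push_cast <;> ring)
  replace hN : N = ((((((Int.cast (2) : ℝ) * F) * ka) + (B0 * ps)) + ((((Int.cast (2) : ℝ) * C0) *
    ps) * q)) * iw) := hN.trans (by push_cast <;> ring)
  replace hn : n = (z * N) := hn.trans (by push_cast <;> ring)
  replace hH : H = (((f * ((Int.cast (1) : ℝ) + n)) * iw) * (((Int.cast (1) : ℝ) - ((Int.cast (2) :
    ℝ) * d)) + (((Int.cast (2) : ℝ) * d) * q))) := hH.trans (by push_cast <;> ring)
  replace hB : B = ((Int.cast (-1) : ℝ) * ((((f * ((Int.cast (1) : ℝ) + n)) * iw) * d) * si)) :=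
    hB.trans (by push_cast <;> ring)
  replace hg : g = (q * H) := hg.trans (by push_cast <;> ring)
  replace hsH : sH = (si * H) := hsH.trans (by push_cast <;> ring)
  replace hc : c = (((Int.cast (1) : ℝ) / (Nat.cast 3 : ℝ)) * (F * (((Int.cast (1) : ℝ) - F) +
    ((Int.cast (2) : ℝ) * d)))) := hc.trans (by push_cast <;> ring)
  replace hro : ro = (√(z + (c * Om)))⁻¹ := hro.trans (congrArg (fun x : ℝ ↦ (√x)⁻¹) (by push_cast
    <;> ring))
  replace hX : X = ((Int.cast (1) : ℝ) - (z * (ro * ro))) := hX.trans (by push_cast <;> ring)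
  replace hV : V = (Om * (ro * ro)) := hV.trans (by push_cast <;> ring)
  replace hk : k = (mBcK F d) := hk.trans (mBcK_0 ..)
  replace hn2 : n2 = (N * N) := hn2.trans (by push_cast <;> ring)
  replace hbq : bq = (q * B) := hbq.trans (by push_cast <;> ring)
  replace hn3 : n3 = ((N * N) * N) := hn3.trans (by push_cast <;> ring)
  replace hng : ng = (N * sH) := hng.trans (by push_cast <;> ring)
  replace hgg : gg = ((ps * H) * sH) := hgg.trans (by push_cast <;> ring)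
  replace hbb : bb = (ps * B) := hbb.trans (by push_cast <;> ring)
  replace hS : S = ((ro * ro) * ro) := hS.trans (by push_cast <;> ring)
  replace hz38 : z38 = (mBc0 f n g n2 sH bq).1 := hz38.trans (mBc0_0 ..)
  replace hz39 : z39 = (mBc0 f n g n2 sH bq).2 := hz39.trans (mBc0_1 ..)
  replace hz40 : z40 = (mBcP qq rr al c k X V) := hz40.trans (mBcP_0 ..)
  replace hG0 : G0 = ((Om * ((((qq + rr) * z38) + (qq * z39)) - (S * z40))) - ((Int.cast (16) : ℝ) *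
    (((Int.cast (4) : ℝ) * N) + (z * (((Int.cast (4) : ℝ) * z38) - z39))))) := hG0.trans (by
    push_cast <;> ring)
  replace hz42 : z42 = (mCU f n g n3 ng gg bb) := hz42.trans (mCU_0 ..)
  replace hG1 : G1 = ((((Int.cast (1) : ℝ) / (Nat.cast 460 : ℝ)) * (Om * Om)) * (z42 - ((((Int.cast
    (3) : ℝ) * S) * (ro * ro)) * ((f - (Int.cast (1) : ℝ)) - ((Int.cast (5) : ℝ) * X))))) :=
    hG1.trans (by push_cast <;> ring)
  have e1 : (G0 - ((((Int.cast (1) : ℝ) - aa) + (aa * j)) * G1)) = G0 - (1 - aa + aa * j) * G1 := by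
    push_cast <;> ring
  subst hF hf haa hqq hal hd hrr hz8 hz hz10 hsi hps hq hA0 hB0 hC0 hka hiw hOm hN hn hH hB hg hsH
    hc hro hX hV hk hn2 hbq hn3 hng hgg hbb hS hz38 hz39 hz40 hG0 hz42 hG1
  refine ⟨?_, Eq.trans ?_ e1⟩ <;>
    simp only [outR, prog, prog1, prog2, prog3, prog4, runR, stepR, gtR, mBc0, mCU, mBcK, mBcP]

theorem l0 : ((0 : ℤ) : ℝ) / 2 ^ 47 = 0 := by norm_num
theorem u0 : (1 : ℝ) = ((140737488355328 : ℤ) : ℝ) / 2 ^ 47 := by norm_num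
theorem l1 : ((0 : ℤ) : ℝ) / 2 ^ 47 = 0 := by norm_num
theorem u1 : (1 : ℝ) = ((140737488355328 : ℤ) : ℝ) / 2 ^ 47 := by norm_num
theorem l2 : ((0 : ℤ) : ℝ) / 2 ^ 47 = 0 := by norm_num
theorem u2 : (1 : ℝ) = ((140737488355328 : ℤ) : ℝ) / 2 ^ 47 := by norm_num
theorem l3 : ((0 : ℤ) : ℝ) / 2 ^ 47 = 0 := by norm_num
theorem u3 : (1 : ℝ) = ((140737488355328 : ℤ) : ℝ) / 2 ^ 47 := by norm_num

theorem out0 (N : ∀ w : ℝ, 0 ≤ w → w ≤ 1 → 0 ≤ outR prog 0 [0, 0, 0, w]) {x j o w : ℝ} (a0 : 0 ≤ x)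
    (b0 : x ≤ 1) (a1 : 0 ≤ j) (b1 : j ≤ 1) (a2 : 0 ≤ o) (b2 : o ≤ 1) (a3 : 0 ≤ w) (b3 : w ≤ 1)  (p1 : 0 < j)  : 0 < outR prog 0 [x, j, o, w] :=
  gd 0 (by decide) [x, j, o, w] (.cons ⟨l0.le.trans a0, b0.trans u0.le⟩ (.cons ⟨l1.le.trans a1,
    b1.trans u1.le⟩ (.cons ⟨l2.le.trans a2, b2.trans u2.le⟩ (.cons ⟨l3.le.trans a3, b3.trans u3.le⟩
    (.nil))))) ⟨nofun, nofun, nofun, nofun, trivial⟩
    (fun _ ↦ .inr (.inl ⟨rfl, p1⟩)) (List.forall_mem_nil _) (Van.of0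
    rfl) (fun _ _ _ _ _ _ _ _ _ _ y3 a3 b3 ↦ N y3 (l3.ge.trans a3) (b3.trans u3.ge))

theorem out1 (N : ∀ w : ℝ, 0 ≤ w → w ≤ 1 → 0 ≤ outR prog 1 [0, 0, 0, w]) {x j o w : ℝ} (a0 : 0 ≤ x)
    (b0 : x ≤ 1) (a1 : 0 ≤ j) (b1 : j ≤ 1) (a2 : 0 ≤ o) (b2 : o ≤ 1) (a3 : 0 ≤ w) (b3 : w ≤ 1)  (p1 : 0 < j)  : 0 < outR prog 1 [x, j, o, w] :=
  gd 1 (by decide) [x, j, o, w] (.cons ⟨l0.le.trans a0, b0.trans u0.le⟩ (.cons ⟨l1.le.trans a1,
    b1.trans u1.le⟩ (.cons ⟨l2.le.trans a2, b2.trans u2.le⟩ (.cons ⟨l3.le.trans a3, b3.trans u3.le⟩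
    (.nil))))) ⟨nofun, nofun, nofun, nofun, trivial⟩
    (fun _ ↦ .inr (.inl ⟨rfl, p1⟩)) (List.forall_mem_nil _) (Van.of0
    rfl) (fun _ _ _ _ _ _ _ _ _ _ y3 a3 b3 ↦ N y3 (l3.ge.trans a3) (b3.trans u3.ge))

end Pool.Agent.Lib.MP_d6150d_an.BcR
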