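import Pool.Agent.Lib.MP_d6150d_an.BcGl
import Pool.Agent.Lib.MP_d6150d_an.BcP
import Pool.Agent.Lib.MP_d6150d_an.BcM
import Pool.Agent.Lib.MP_d6150d_an.BcR
import Pool.Agent.Lib.MP_d6150d_an.BcJ
import Pool.Agent.Lib.MP_d6150d_an.BcL
import Pool.Agent.Lib.MP_d6150d_an.BcA
import Pool.Agent.Lib.MP_d6150d_an.BcB

/-! The region `-1 / 512 ≤ D < 0`, `23 / 100 ≤ F ≤ 1 / 4`. -/

namespace Pool.Agent.Lib.MP_d6150d_an

open Real Set

variable {x l t T : ℝ}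

theorem bcP_e (x j r : ℝ) : outR BcP.prog 0 [x, j, r] = (bcC x (1 / 512 * j) (4 * r)).1 ∧
    outR BcP.prog 1 [x, j, r] = (bcC x (1 / 512 * j) (4 * r)).1 -
      (1 - (1 / 2 + x / 25) + (1 / 2 + x / 25) * j) * (bcC x (1 / 512 * j) (4 * r)).2 :=
  BcP.eq
      rfl rfl rfl rfl rfl rfl rfl rfl rfl rfl rfl rfl rfl rfl rfl rfl rfl rfl rfl rfl rfl rfl rfl
      rfl rfl rfl rfl rfl rfl rfl rfl rfl rfl rfl rfl

theorem bc_hi (x0 : 0 ≤ x) (x1 : x ≤ 1) (l : ℝ) :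
    exp ((1 / 2 + x / 25) * l) ≤ 1 - (1 / 2 + x / 25) + (1 / 2 + x / 25) * exp l :=
  cc_exp_hi (by linarith) (by linarith) l

theorem bcP (x0 : 0 ≤ x) (x1 : x ≤ 1) (l0 : l ≤ 0) (t0 : 0 < t) (t1 : t ≤ 4) :
    0 < bcH x (1 / 512 * exp l) (exp ((1 / 2 + x / 25) * l)) t := by
  obtain ⟨r, rfl⟩ : ∃ r, t = 4 * r := ⟨t / 4, by ring⟩
  have j0 := exp_pos l
  have j1 := exp_le_one_iff.2 l0
  have p0 := BcP.out0 (fun x j a b c d ↦ bcC_big (d := 1 / 512 * j) a b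
    (by linarith) (by linarith) 4 (fun _ ↦ rfl) 1 0
    fun r ↦ (bcP_e x j r).1.trans (by ring))
    (fun r _ _ ↦ by rw [(bcP_e 0 0 r).1, (bcC_iso (mul_zero _) _).1])
    x0 x1 j0.le j1 (by linarith : 0 ≤ r) (by linarith) j0 (by linarith)
  have p1 := BcP.out1 (fun x j a b c d ↦ bcC_big (d := 1 / 512 * j) a b
    (by linarith) (by linarith) 4 (fun _ ↦ rfl) 1 _
    fun r ↦ (bcP_e x j r).2.trans (by rw [one_mul, sub_eq_add_neg, ← neg_mul]))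
    (fun r _ _ ↦ by
      rw [(bcP_e 0 0 r).2, (bcC_iso (mul_zero _) _).1, (bcC_iso (mul_zero _) _).2]; simp)
    x0 x1 j0.le j1 (by linarith : 0 ≤ r) (by linarith) j0 (by linarith)
  rw [(bcP_e _ _ _).1] at p0
  rw [(bcP_e _ _ _).2] at p1
  have := cc_aff (exp_pos _).le (bc_hi x0 x1 l) (by rwa [zero_mul, sub_zero]) p1
  rw [bcC_eq x1 (by linarith) (by linarith)] at this
  exact (mul_pos_iff_of_pos_left (exp_pos _)).1 this

theorem bcM_e (x j r : ℝ) : outR BcM.prog 0 [x, j, r] = -(bcC x (1 / 512 * j) (-(4 * r))).1 ∧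
    outR BcM.prog 1 [x, j, r] = (1 - (1 / 2 + x / 25) + (1 / 2 + x / 25) * j) *
      (bcC x (1 / 512 * j) (-(4 * r))).2 - (bcC x (1 / 512 * j) (-(4 * r))).1 :=
  BcM.eq
      rfl rfl rfl rfl rfl rfl rfl rfl rfl rfl rfl rfl rfl rfl rfl rfl rfl rfl rfl rfl rfl rfl rfl
      rfl rfl rfl rfl rfl rfl rfl rfl rfl rfl rfl rfl

theorem bcM (x0 : 0 ≤ x) (x1 : x ≤ 1) (l0 : l ≤ 0) (T0 : 0 < T) (T1 : T ≤ 4) :
    bcH x (1 / 512 * exp l) (exp ((1 / 2 + x / 25) * l)) (-T) < 0 := by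
  obtain ⟨r, rfl⟩ : ∃ r, T = 4 * r := ⟨T / 4, by ring⟩
  have j0 := exp_pos l
  have j1 := exp_le_one_iff.2 l0
  have p0 := BcM.out0 (fun x j a b c d ↦ bcC_big (d := 1 / 512 * j) a b
    (by linarith) (by linarith) _
    (fun _ ↦ (neg_mul _ _).symm) (-1) 0 fun r ↦ (bcM_e x j r).1.trans (by ring))
    (fun r _ _ ↦ by rw [(bcM_e 0 0 r).1, (bcC_iso (mul_zero _) _).1, neg_zero])
    x0 x1 j0.le j1 (by linarith : 0 ≤ r) (by linarith) j0 (by linarith)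
  have p1 := BcM.out1 (fun x j a b c d ↦ bcC_big (d := 1 / 512 * j) a b
    (by linarith) (by linarith) _
    (fun _ ↦ (neg_mul _ _).symm) (-1) _
    fun r ↦ (bcM_e x j r).2.trans (by rw [sub_eq_neg_add, neg_one_mul]))
    (fun r _ _ ↦ by
      rw [(bcM_e 0 0 r).2, (bcC_iso (mul_zero _) _).1, (bcC_iso (mul_zero _) _).2]; simp)
    x0 x1 j0.le j1 (by linarith : 0 ≤ r) (by linarith) j0 (by linarith)
  rw [(bcM_e _ _ _).1] at p0
  rw [(bcM_e _ _ _).2] at p1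
  have := cc_aff (A := -(bcC x (1 / 512 * exp l) (-(4 * r))).1)
    (B := -(bcC x (1 / 512 * exp l) (-(4 * r))).2) (exp_pos _).le (bc_hi x0 x1 l)
    (by rwa [zero_mul, sub_zero]) (by linarith)
  rw [mul_neg, neg_sub_neg, ← neg_sub, bcC_eq x1 (by linarith) (by linarith), neg_pos] at this
  exact neg_of_mul_neg_right this (exp_pos _).le

theorem bcR_e (x j o w : ℝ) : outR BcR.prog 0 [x, j, o, w] = (bcT x (1 / 512 * j)
    (exp (-(8 * (1 / 4 - x / 50))) * w)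
      (exp (-(8 * x / 25)) * (1 - 4 * x / 25 * (1 - w)) * (1 - o))).1 ∧
    outR BcR.prog 1 [x, j, o, w] = (bcT x (1 / 512 * j) (exp (-(8 * (1 / 4 - x / 50))) * w)
      (exp (-(8 * x / 25)) * (1 - 4 * x / 25 * (1 - w)) * (1 - o))).1 -
      (1 - (1 / 2 + x / 25) + (1 / 2 + x / 25) * j) * (bcT x (1 / 512 * j)
        (exp (-(8 * (1 / 4 - x / 50))) * w)
        (exp (-(8 * x / 25)) * (1 - 4 * x / 25 * (1 - w)) * (1 - o))).2 :=
  BcR.eq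
      rfl rfl rfl rfl rfl rfl rfl rfl rfl rfl rfl rfl rfl rfl rfl rfl rfl rfl rfl rfl rfl rfl rfl
      rfl rfl rfl rfl rfl rfl rfl rfl rfl rfl rfl rfl rfl rfl rfl rfl rfl rfl rfl rfl

theorem bc_lt {a w : ℝ} (a0 : 0 < a) (w0 : 0 ≤ w) (w1 : w ≤ 1) :
    0 ≤ exp (-a) * w ∧ exp (-a) * w < 1 :=
  ⟨by positivity, (mul_le_of_le_one_right (exp_pos _).le w1).trans_lt
    (exp_lt_one_iff.2 (by linarith))⟩

theorem bcRt (x0 : 0 ≤ x) (x1 : x ≤ 1) (l0 : l ≤ 0) (t0 : 4 < t) :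
    0 < bcH x (1 / 512 * exp l) (exp ((1 / 2 + x / 25) * l)) t := by
  have j0 := exp_pos l
  have j1 := exp_le_one_iff.2 l0
  have I := fun w (w0 : 0 ≤ w) (w1 : w ≤ 1) ↦ bcT_iso (d := 1 / 512 * 0)
    (z := exp (-(8 * (1 / 4 - 0 / 50))) * w)
    (si := exp (-(8 * 0 / 25)) * (1 - 4 * 0 / 25 * (1 - w)) * (1 - 0)) (by simp)
    (by simp) (bc_lt (by norm_num) w0 w1).1 (bc_lt (by norm_num) w0 w1).2
  have w0 := exp_pos (-(2 * (1 / 4 - x / 50) * (t - 4)))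
  have w1 : exp (-(2 * (1 / 4 - x / 50) * (t - 4))) ≤ 1 := exp_le_one_iff.2 (by nlinarith)
  have h1 := (exp_le_exp.2 (show -(2 * x / 25 * (t - 4)) ≤ _ by
    nlinarith [mul_nonneg (mul_nonneg x0 x0) (sub_pos.2 t0).le])).trans
    (cc_exp_hi (a := 4 * x / 25) (by linarith) (by linarith) (-(2 * (1 / 4 - x / 50) * (t - 4))))
  obtain ⟨o, o0, o1, e⟩ := bc_frac (exp_pos _).le (h1.trans_eq (zero_add _).symm)
  have p0 := BcR.out0 (fun w a b ↦ by rw [(bcR_e 0 0 0 w).1, (I w a b).1])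
    x0 x1 j0.le j1 (sub_nonneg.2 o1) (sub_le_self _ o0) w0.le w1 j0
  have p1 := BcR.out1 (fun w a b ↦ by rw [(bcR_e 0 0 0 w).2, (I w a b).1, (I w a b).2]; simp)
    x0 x1 j0.le j1 (sub_nonneg.2 o1) (sub_le_self _ o0) w0.le w1 j0
  rw [(bcR_e _ _ _ _).1] at p0
  rw [(bcR_e _ _ _ _).2] at p1
  refine bcT_pos x0 x1 (by linarith) (by linarith) (by linarith) ?_ ?_
    (cc_aff (exp_pos _).le (bc_hi x0 x1 l) (by rwa [zero_mul, sub_zero]) p1)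
  · rw [← exp_add]; congr 1; ring
  · rw [show -(2 * x / 25 * t) = -(8 * x / 25) + -(2 * x / 25 * (t - 4)) by ring, exp_add, e]; ring

/-- the two outputs of the charts with small `p` -/
noncomputable def bcO (x j s ph ch : ℝ) : ℝ × ℝ :=
  let G := bcL x (1 / 512 * exp 4 * j * s) s ph 1 (1 / 512 * exp 4 * j) ch
  (-(1 ^ 2 * G.1), exp ((1 / 2 + x / 25) * 4) *
      (1 - (1 / 2 + x / 25) + (1 / 2 + x / 25) * j) * G.2 - 1 ^ 2 * G.1)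

theorem bcO_iso {s ph ch : ℝ} (es : s = ph ^ 2) (ec : ch = ph) (p : 0 ≤ ph ∧ ph < 1) :
    0 ≤ (bcO 0 0 s ph ch).1 ∧ 0 ≤ (bcO 0 0 s ph ch).2 := by
  have I := bcL_iso (d := 1 / 512 * exp 4 * 0 * s)
    (pc := 1 / 512 * exp 4 * 0) (by simp) (by simp) rfl es ec p.1 p.2
  simp only [bcO, I.1, I.2]
  simp

theorem bcO_neg {s ph ch : ℝ} (x0 : 0 ≤ x) (x1 : x ≤ 1) (l0 : l ≤ 0) (T0 : 0 < T)
    (es : s = exp (-T)) (ep : ph = exp (-((1 / 2 + x / 25) * T)))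
    (hc : ch ≤ exp (-((1 / 2 + x / 25 + x / 25) * T)))
    (p0 : 0 < (bcO x (exp (l + T - 4)) s ph ch).1) (p1 : 0 < (bcO x (exp (l + T - 4)) s ph ch).2) :
    bcH x (1 / 512 * exp l) (exp ((1 / 2 + x / 25) * l)) (-T) < 0 := by
  refine bcL_neg (d := 1 / 512 * exp 4 * exp (l + T - 4) * s) (pc := 1 / 512 * exp 4 * exp (l + T - 4))
    (nu := exp ((1 / 2 + x / 25) * 4) * exp ((1 / 2 + x / 25) * (l + T - 4))) x0 x1 l0 T0
    (by rw [es, mul_assoc, mul_assoc, ← exp_add, ← exp_add]; congr 2; ring) es ep one_pos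
    (by ring) hc (by rw [← exp_add]; congr 1; ring) ?_
  simp only [bcO] at p0 p1
  generalize bcL _ _ _ _ _ _ _ = G at *
  have := cc_aff (A := -(1 ^ 2 * G.1)) (B := -(exp ((1 / 2 + x / 25) * 4) * G.2)) (exp_pos _).le
    (bc_hi x0 x1 (l + T - 4)) (by rwa [zero_mul, sub_zero]) (by linarith)
  linarith

theorem bcJ_e {x ta T : ℝ} (j : ℝ) (h : T = 4 + 2 * ta) :
    outR BcJ.prog 0 [x, j, ta] = (bcO x j (exp (-T)) (exp (-((1 / 2 + x / 25) * T)))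
      (exp (-((1 / 2 + x / 25 + x / 25) * T)))).1 ∧
    outR BcJ.prog 1 [x, j, ta] = (bcO x j (exp (-T)) (exp (-((1 / 2 + x / 25) * T)))
      (exp (-((1 / 2 + x / 25 + x / 25) * T)))).2 :=
  BcJ.eq
      rfl rfl rfl rfl rfl h rfl rfl rfl rfl rfl rfl rfl rfl rfl rfl rfl rfl rfl rfl rfl rfl rfl
      rfl rfl rfl rfl rfl rfl rfl rfl rfl rfl rfl rfl rfl rfl rfl rfl rfl rfl rfl rfl rfl

theorem bcJ (x0 : 0 ≤ x) (x1 : x ≤ 1) (l0 : l ≤ 0) (T0 : 4 ≤ T) (T1 : T ≤ 6) (h : l + T ≤ 4) :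
    bcH x (1 / 512 * exp l) (exp ((1 / 2 + x / 25) * l)) (-T) < 0 := by
  obtain ⟨ta, e⟩ : ∃ ta, T = 4 + 2 * ta := ⟨(T - 4) / 2, by ring⟩
  have I := fun ta (a : 0 ≤ ta) ↦ bcO_iso (s := exp (-(4 + 2 * ta)))
    (ph := exp (-((1 / 2 + 0 / 25) * (4 + 2 * ta))))
    (ch := exp (-((1 / 2 + 0 / 25 + 0 / 25) * (4 + 2 * ta))))
    (by rw [sq, ← exp_add]; congr 1; ring) (by congr 1; ring)
    ⟨(exp_pos _).le, exp_lt_one_iff.2 (by linarith)⟩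
  have j0 := exp_pos (l + T - 4)
  have j1 : exp (l + T - 4) ≤ 1 := exp_le_one_iff.2 (by linarith)
  exact bcO_neg x0 x1 l0 (by linarith) rfl rfl le_rfl
    ((BcJ.out0 (fun ta a _ ↦ (I ta a).1.trans_eq (bcJ_e 0 rfl).1.symm) x0 x1 j0.le j1
      (by linarith) (by linarith) j0).trans_eq (bcJ_e _ e).1)
    ((BcJ.out1 (fun ta a _ ↦ (I ta a).2.trans_eq (bcJ_e 0 rfl).2.symm) x0 x1 j0.le j1
      (by linarith) (by linarith) j0).trans_eq (bcJ_e _ e).2)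

theorem bcL_e {x o m w : ℝ} (j : ℝ) (h : m = w + 2 * x / 25 * o * (1 - w)) :
    outR BcL.prog 0 [x, j, o, w] = (bcO x j (exp (-6) * m ^ 2) (exp (-((1 / 2 + x / 25) * 6)) * w)
      (exp (-((1 / 2 + x / 25 + x / 25) * 6)) * (2 * w - m))).1 ∧
    outR BcL.prog 1 [x, j, o, w] = (bcO x j (exp (-6) * m ^ 2) (exp (-((1 / 2 + x / 25) * 6)) * w)
      (exp (-((1 / 2 + x / 25 + x / 25) * 6)) * (2 * w - m))).2 :=
  BcL.eq
      rfl rfl rfl rfl rfl rfl rfl rfl rfl rfl rfl h rfl rfl rfl rfl rfl rfl rfl rfl rfl rfl rfl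
      rfl rfl rfl rfl rfl rfl rfl rfl rfl rfl rfl rfl rfl rfl rfl rfl rfl rfl rfl rfl rfl rfl rfl
      rfl rfl

theorem bcLt (x0 : 0 ≤ x) (x1 : x ≤ 1) (l0 : l ≤ 0) (T0 : 6 ≤ T) (h : l + T ≤ 4) :
    bcH x (1 / 512 * exp l) (exp ((1 / 2 + x / 25) * l)) (-T) < 0 := by
  obtain ⟨o, m, w, o0, o1, m0, m1, e, es, ep, ec⟩ := bc_tail x0 T0
  have I := fun m (a : 0 ≤ m) (b : m ≤ 1) ↦ bcO_iso (s := exp (-6) * m ^ 2)
    (ph := exp (-((1 / 2 + 0 / 25) * 6)) * m)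
    (ch := exp (-((1 / 2 + 0 / 25 + 0 / 25) * 6)) * (2 * m - m))
    (by rw [mul_pow, sq (exp _), ← exp_add]; congr 2; ring) (by congr 1 <;> ring_nf)
    (bc_lt (by norm_num) a b)
  have j0 := exp_pos (l + T - 4)
  have j1 : exp (l + T - 4) ≤ 1 := exp_le_one_iff.2 (by linarith)
  exact bcO_neg x0 x1 l0 (by linarith) (by rw [es, ← exp_add]; congr 1; ring) ep ec
    ((BcL.out0 (fun o m _ _ a b ↦ (I m a b).1.trans_eq (bcL_e 0 (by ring)).1.symm) x0 x1 j0.le j1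
      o0 o1 m0 m1 j0).trans_eq (bcL_e _ e).1)
    ((BcL.out1 (fun o m _ _ a b ↦ (I m a b).2.trans_eq (bcL_e 0 (by ring)).2.symm) x0 x1 j0.le j1
      o0 o1 m0 m1 j0).trans_eq (bcL_e _ e).2)

theorem bc_one {d s ph r pc ch : ℝ} (x0 : 0 ≤ x) (x1 : x ≤ 1) (l0 : l ≤ 0) (T0 : 0 < T)
    (ed : d = 1 / 512 * exp l) (es : s = exp (-T)) (ep : ph = exp (-((1 / 2 + x / 25) * T)))
    (r0 : 0 < r) (hp : d * r ^ 2 = pc * s) (hc : ch ≤ exp (-((1 / 2 + x / 25 + x / 25) * T)))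
    (p : 0 < (bcL x d s ph r pc ch).2 -
      exp (-((1 / 2 + x / 25) * (l + T))) * (r ^ 2 * (bcL x d s ph r pc ch).1)) :
    bcH x (1 / 512 * exp l) (exp ((1 / 2 + x / 25) * l)) (-T) < 0 := by
  refine bcL_neg x0 x1 l0 T0 ed es ep r0 hp hc rfl
    ((mul_pos (exp_pos ((1 / 2 + x / 25) * (l + T))) p).trans_eq ?_)
  rw [mul_sub, ← mul_assoc, ← exp_add, add_neg_cancel, exp_zero, one_mul]

theorem bcA (x0 : 0 ≤ x) (x1 : x ≤ 1) (l0 : l ≤ 0) (h : 4 ≤ l + T) (h' : l + T ≤ 7) :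
    bcH x (1 / 512 * exp l) (exp ((1 / 2 + x / 25) * l)) (-T) < 0 := by
  obtain ⟨o, m, w, o0, o1, m0, m1, e, es, ep, ec⟩ := bc_tail (u := l + T) (T := T) x0 (by linarith)
  rw [add_sub_cancel_right] at es
  refine bc_one x0 x1 l0 (by linarith) (d := 1 / 512 * m ^ 2) (s := exp (-(l + T)) * m ^ 2)
    (by rw [es]) ?_ ep (exp_pos (3 - (l + T) / 2)) ?_ ec (BcA.pos0
      rfl rfl rfl rfl rfl rfl rfl rfl e rfl rfl rfl rfl rfl rfl rfl rfl rfl rfl rfl rfl rfl rfl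
      rfl rfl rfl rfl rfl rfl rfl rfl rfl rfl rfl rfl rfl rfl rfl rfl rfl rfl rfl rfl rfl rfl rfl
      x0 x1 o0 o1 m0 m1 h h')
  · rw [es, ← exp_add]; congr 1; ring
  · have : exp (3 - (l + T) / 2) ^ 2 = exp 6 * exp (-(l + T)) := by
      rw [sq, ← exp_add, ← exp_add]; congr 1; ring
    rw [this]; ring

theorem bcB_e {x j w r : ℝ} {G : ℝ × ℝ} (h : G = bcL x (1 / 512 * j) (j * r ^ 2 * exp (-7))
    (exp (-((1 / 2 + x / 25) * 7)) * w) r (1 / 512 * exp 7) 0) :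
    outR BcB.prog 0 [x, j, w, r] = G.2 ∧ outR BcB.prog 1 [x, j, w, r] =
      G.2 - exp (-((1 / 2 + x / 25) * 7)) * r * (r ^ 2 * G.1) :=
  h ▸ BcB.eq
      rfl rfl rfl rfl rfl rfl rfl rfl rfl rfl rfl rfl rfl rfl rfl rfl rfl rfl rfl rfl rfl rfl rfl
      rfl rfl rfl rfl rfl rfl rfl rfl rfl rfl rfl rfl rfl rfl rfl rfl rfl rfl rfl rfl

theorem bcB (x0 : 0 ≤ x) (x1 : x ≤ 1) (l0 : l ≤ 0) (h : 7 ≤ l + T) :
    bcH x (1 / 512 * exp l) (exp ((1 / 2 + x / 25) * l)) (-T) < 0 := by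
  have j0 := exp_pos l
  have j1 := exp_le_one_iff.2 l0
  have w0 := exp_pos (-((1 / 2 + x / 25) * (T - 7)))
  have w1 : exp (-((1 / 2 + x / 25) * (T - 7))) ≤ 1 := exp_le_one_iff.2 (by nlinarith)
  have r0 := exp_pos ((7 - (l + T)) / 2)
  have r1 : exp ((7 - (l + T)) / 2) ≤ 1 := exp_le_one_iff.2 (by linarith)
  have p0 := (BcB.out0 x0 x1 j0.le j1 w0.le w1 r0.le r1).trans_eq (bcB_e rfl).1
  have p1 := (BcB.out1 x0 x1 j0.le j1 w0.le w1 r0.le r1).trans_eq (bcB_e rfl).2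
  refine bc_one (pc := 1 / 512 * exp 7) (s := exp l * exp ((7 - (l + T)) / 2) ^ 2 * exp (-7))
    (ph := exp (-((1 / 2 + x / 25) * 7)) * exp (-((1 / 2 + x / 25) * (T - 7)))) (ch := 0)
    x0 x1 l0 (by linarith) rfl ?_ ?_ r0 ?_ (exp_pos _).le ?_
  · rw [sq, ← exp_add, ← exp_add, ← exp_add]; congr 1; ring
  · rw [← exp_add]; congr 1; ring
  · have : exp 7 * exp (-7) = 1 := by rw [← exp_add]; simp
    linear_combination -(1 / 512 * exp l * exp ((7 - (l + T)) / 2) ^ 2) * this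
  · refine cc_aff (exp_pos _).le ?_ (by rwa [zero_mul, sub_zero]) p1
    rw [← exp_add]
    exact exp_le_exp.2 (by nlinarith)

theorem Bc_holds (D F : ℝ) (h1 : -1 / 512 ≤ D) (h2 : D < 0) (h3 : 23 / 100 ≤ F) (h4 : F ≤ 1 / 4) :
    NoThree D F := by
  obtain ⟨x, rfl⟩ : ∃ x, F = 1 / 4 - x / 50 := ⟨(1 / 4 - F) * 50, by ring⟩
  obtain ⟨l, rfl⟩ : ∃ l, D = -(1 / 512 * exp l) :=
    ⟨log (-D * 512), by rw [exp_log (by linarith)]; ring⟩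
  have x0 : 0 ≤ x := by linarith
  have x1 : x ≤ 1 := by linarith
  have l0 : l ≤ 0 := exp_le_one_iff.1 (by linarith)
  refine bc_noThree (q := 77 / 100) (r := 364 * (1 / 512 * exp l) - 29 / 100 - 2 * x / 5)
    (al := 7 * x / 40) (la := exp ((1 / 2 + x / 25) * l) * (1 / 460)) (by linarith) (by norm_num)
    (by positivity) ?_ fun t _ t0 ↦ ?_
  · have e : exp l = exp (l / 2) ^ 2 := by rw [sq, ← exp_add, add_halves]
    have k1 : exp ((1 / 2 + x / 25) * l) ≤ exp (l / 2) := exp_le_exp.2 (by nlinarith)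
    have k2 : (1 / 4 - x / 50)⁻¹ ≤ 100 / 23 :=
      (inv_le_comm₀ (by linarith) (by norm_num)).2 (by linarith)
    have k3 : 0 < (1 / 4 - x / 50)⁻¹ := inv_pos.2 (by linarith)
    refine le_trans (b := 4 * (100 / 23 + 2) ^ 2 * (exp (l / 2) * (1 / 460))) (by gcongr) ?_
    rw [e]
    nlinarith [sq_nonneg (exp (l / 2) - 8 / 25)]
  rcases t0.lt_or_gt with t0 | t0
  · obtain ⟨T, rfl⟩ : ∃ T, t = -T := ⟨-t, by ring⟩
    refine mul_pos_of_neg_of_neg t0 ?_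
    rcases le_total (l + T) 4 with k | k
    · rcases le_total T 4 with k1 | k1
      · exact bcM x0 x1 l0 (by linarith) k1
      · exact (le_total T 6).elim (bcJ x0 x1 l0 k1 · k) (bcLt x0 x1 l0 · k)
    · exact (le_total (l + T) 7).elim (bcA x0 x1 l0 k) (bcB x0 x1 l0)
  · exact mul_pos t0 ((le_or_gt t 4).elim (bcP x0 x1 l0 t0) (bcRt x0 x1 l0))

end Pool.Agent.Lib.MP_d6150d_an
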