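import Pool.Agent.Lib.MP_d6150d_an.B2
import Pool.Agent.Lib.MP_d6150d_an.B3b
import Pool.Agent.Lib.MP_d6150d_an.BcFin

/-! The whole strip `B`, from three cells. -/

namespace Pool.Agent.Lib.MP_d6150d_an

/-- the whole strip `B` -/
theorem B_holds' (D F : ℝ) (h1 : -3 / 32 ≤ D) (h2 : D < 0) (h3 : 23 / 100 ≤ F) (h4 : F ≤ 1 / 4) :
    NoThree D F := by
  rcases le_total D (-1 / 64) with a | a
  · exact B12_holds D F h1 a h3 h4
  rcases le_total D (-1 / 512) with b | b
  · exact B3b_holds D F a b h3 h4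
  exact Bc_holds D F b h2 h3 h4

end Pool.Agent.Lib.MP_d6150d_an
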