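import Pool.Agent.Lib.MP_d6150d_an.BCen

/-! The strip `B`: elementary bounds and the reduction. -/

namespace Pool.Agent.Lib.MP_d6150d_an.BB

open Real Set Filter Topology Asymptotics

variable {f d F e t L : ℝ}

theorem e_bd (f0 : 0 ≤ f) (f1 : f ≤ 41 / 512) (d1 : exp L ≤ 3 / 32) :
    29 * exp L ≤ 10 * exp ((1 + f) / 2 * L) ∧ 10 * exp ((1 + f) / 2 * L) ≤ 1 + 25 * exp L ∧
      exp ((1 + f) / 2 * L) ≤ 1 / 20 + 5 * exp L := by
  have d0 := exp_pos L
  have e0 := exp_pos ((1 + f) / 2 * L)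
  have L0 : L ≤ 0 := exp_le_one_iff.1 (by linarith)
  have h1 : exp ((1 + f) / 2 * L) ^ 2 ≤ exp L := by
    rw [← exp_nat_mul]; exact exp_le_exp.2 (by push_cast; nlinarith)
  have h2 : exp L ^ 6 ≤ exp ((1 + f) / 2 * L) ^ 11 := by
    rw [← exp_nat_mul, ← exp_nat_mul]; exact exp_le_exp.2 (by push_cast; nlinarith)
  generalize exp ((1 + f) / 2 * L) = e at *
  generalize exp L = d at *
  have h3 : (29 / 10 * d) ^ 11 ≤ d ^ 6 := by
    have := mul_le_mul_of_nonneg_right (pow_le_pow_left₀ d0.le d1 5) (pow_pos d0 6).le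
    have h4 := pow_pos d0 6
    linarith [show (29 / 10 * d) ^ 11 = (29 / 10) ^ 11 * (d ^ 5 * d ^ 6) by ring]
  refine ⟨?_, ?_, ?_⟩
  · linarith [(pow_le_pow_iff_left₀ (by positivity) e0.le (by norm_num)).1 (h3.trans h2)]
  · exact (sq_le_sq₀ (by positivity) (by positivity)).1 (by nlinarith [sq_nonneg (1 - 25 * d)])
  · exact (sq_le_sq₀ (by positivity) (by positivity)).1 (by nlinarith [sq_nonneg (1 / 20 - 5 * d)])

theorem r_bd (f0 : 0 ≤ f) (f1 : f ≤ 41 / 512) (r1 : exp L ≤ 4) :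
    744 * (exp L * (√(16 * exp L + 1))⁻¹) ≤ 200 * exp ((1 + f) / 2 * L) ∧
      200 * exp ((1 + f) / 2 * L) ≤ 53 * ((16 * exp L + 1) * (√(16 * exp L + 1))⁻¹) := by
  have d0 := exp_pos L
  have e0 := exp_pos ((1 + f) / 2 * L)
  have k0 := exp_pos (f * L)
  have h1 : exp ((1 + f) / 2 * L) ^ 2 = exp L * exp (f * L) := by
    rw [← exp_nat_mul, ← exp_add]; congr 1; push_cast; ring
  have h2 : exp (f * L) ≤ 2809 / 2500 := by
    refine (pow_le_pow_iff_left₀ k0.le (by norm_num) (show 12 ≠ 0 by norm_num)).1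
      (le_trans ?_ (show (4 : ℝ) ≤ _ by norm_num))
    rw [← exp_nat_mul]
    rcases le_total L 0 with h | h
    · exact (exp_le_one_iff.2 (by push_cast; nlinarith)).trans (by norm_num)
    · exact (exp_le_exp.2 (by push_cast; nlinarith)).trans r1
  have h3 : 8649 / 625 * exp L ≤ exp (f * L) * (16 * exp L + 1) := by
    rcases le_total L 0 with h | h
    · have h4 : exp (L / 4) ≤ exp (f * L) := exp_le_exp.2 (by nlinarith)
      have h5 : exp L = exp (L / 4) ^ 4 := by rw [← exp_nat_mul]; congr 1; push_cast; ring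
      refine le_trans ?_ (mul_le_mul_of_nonneg_right h4 (by positivity))
      rw [h5]
      have h6 := exp_pos (L / 4)
      generalize exp (L / 4) = x at *
      have : 8649 / 625 * x ^ 3 ≤ 16 * x ^ 4 + 1 := by
        nlinarith [sq_nonneg (x ^ 2 - 8649 / 20000 * x - 7 / 50), sq_nonneg (x - 651 / 1000)]
      nlinarith [mul_le_mul_of_nonneg_left this h6.le]
    · have := one_le_exp (mul_nonneg f0 h)
      nlinarith
  have s0 : 0 < √(16 * exp L + 1) := by positivity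
  have s2 := sq_sqrt (show 0 ≤ 16 * exp L + 1 by positivity)
  rw [← div_eq_mul_inv, ← div_eq_mul_inv, div_sqrt, ← mul_div_assoc, div_le_iff₀ s0]
  generalize exp ((1 + f) / 2 * L) = r at *
  generalize √(16 * exp L + 1) = s at *
  constructor
  · refine (sq_le_sq₀ (by positivity) (by positivity)).1 ?_
    rw [mul_pow, mul_pow, mul_pow, h1, s2]
    nlinarith [mul_le_mul_of_nonneg_left h3 d0.le]
  · refine (sq_le_sq₀ (by positivity) (by positivity)).1 ?_
    rw [mul_pow, mul_pow, h1, s2]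
    nlinarith [mul_le_mul_of_nonneg_left h2 d0.le]

theorem texp {c : ℝ} (hc : 1 / 8 ≤ c) (ht : 8 ≤ t) : t * exp (-(c * t)) ≤ 8 * exp (-(8 * c)) := by
  have h1 := add_one_le_exp (c * (t - 8))
  have h2 : exp (-(8 * c)) = exp (-(c * t)) * exp (c * (t - 8)) := by rw [← exp_add]; ring_nf
  rw [h2]
  nlinarith [mul_le_mul_of_nonneg_left (show t ≤ 8 * exp (c * (t - 8)) by nlinarith)
    (exp_pos (-(c * t))).le]

theorem ebd1 : exp (-(471 / 128)) ≤ 13 / 512 := by
  rw [exp_neg, inv_le_comm₀ (exp_pos _) (by norm_num)]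
  refine le_trans ?_ (sum_le_exp_of_nonneg (by norm_num) 11)
  simp only [Finset.sum_range_succ, Nat.factorial]; norm_num

theorem ebd2 : exp (-4) ≤ 19 / 1024 := by
  rw [exp_neg, inv_le_comm₀ (exp_pos _) (by norm_num)]
  refine le_trans ?_ (sum_le_exp_of_nonneg (by norm_num) 11)
  simp only [Finset.sum_range_succ, Nat.factorial]; norm_num

theorem ph1_le {z : ℝ} (h : z ≤ 0) : ph1 z ≤ 1 := by
  rcases h.eq_or_lt with rfl | h
  · exact ph1_zero.le
  · have := add_one_le_exp z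
    rw [exp_eq_ph] at this
    nlinarith

theorem bernP {A B C x y e : ℝ} (h0 : 0 < b0 A B C x) (h1 : 0 < b1 A B C x y)
    (h2 : 0 < b0 A B C y) (l : x ≤ e) (u : e ≤ y) : 0 < b0 A B C e := by
  simpa using bern (σ := 1) (by simpa) (by simpa) (by simpa) l u

theorem bernN {A B C x y e : ℝ} (h0 : 0 < -b0 A B C x) (h1 : 0 < -b1 A B C x y)
    (h2 : 0 < -b0 A B C y) (l : x ≤ e) (u : e ≤ y) : b0 A B C e < 0 := by
  simpa using bern (σ := -1) (by simpa using h0) (by simpa using h1) (by simpa using h2) l u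

theorem Fm.aff (ε η f d x0 x1 x2 z a s s' l x : ℝ) :
    (Fm.mk ε η f d x0 x1 x2 z a ((1 - l) * s + l * s')).T x =
      (1 - l) * (Fm.mk ε η f d x0 x1 x2 z 1 s).T x + l * (Fm.mk ε η f d x0 x1 x2 z 1 s').T x -
      (1 - a) * (1024 * (Fm.mk ε η f d x0 x1 x2 z a ((1 - l) * s + l * s')).j *
        (Fm.mk ε η f d x0 x1 x2 z a ((1 - l) * s + l * s')).V ^ 2 *
        (Fm.mk ε η f d x0 x1 x2 z a ((1 - l) * s + l * s')).W ^ 7 *
        (-s2 f d + x * -s3 f d + x ^ 2 * -s4 f d)) := by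
  simp only [Fm.T, Fm.G, Fm.h3, Fm.h4, Fm.a, Fm.b, Fm.o, Fm.g, Fm.j, Fm.V, Fm.Y, Fm.H, Fm.W, Fm.P,
    Fm.Q, Fm.R, Fm.F]
  generalize 2 * (((1 - f * f) * (3 + f))⁻¹ * _) = H
  generalize ε * ((1 - d) * x0) - ε * ((1 - 2 * d) * x1) + η * x2 = W
  generalize (√(16 * z + 2 * H))⁻¹ = j
  generalize (√(2 * H))⁻¹ = i
  simp only [Gb, H3, H4, E2, E3, E4, Ek]
  ring

/-- the polynomial form of the weight inequality -/
def Wp (d e u v A B : ℝ) : ℝ :=
  -(v * (v * (e * v * (6 * (1743000 + (-18580000) * d) * e * v + (144900 + 233700 * d) * (48 * u - 36) -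
    6 * (-550000 + 7500000 * d)) + 8 * ((3321 + 279400 * d) * A + (-58200 + (-107600) * d) * B +
    (137500 + (-1875000) * d))) + 64 * u * ((4443 + 44600 * d) * (A + B) + (-17670 + 72050 * d) *
    (B + 1))) + 512 * (u * u) * ((599 + 210 * d) * (A + 4 * B + 3)))

theorem red (hF : 0 < F) (d0 : 0 ≤ d) (d1 : d ≤ 3 / 32) (e0 : 0 < e)
    (hW : ∀ u, 0 ≤ u → u ≤ 1 → 0 < Wp d e u (1 - u) (16 - 60 * u + 48 * (u * u)) (4 - 6 * u))
    (H : ∀ t, t ≠ 0 → 0 < t * ZB f d F e t) : NoThree (-d) F := by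
  refine CritG.noThree ⟨op d e, 1, fun h ↦ 4 - 6 * (e * h / (e * h + 8)),
    fun h ↦ -48 * e / (e * h + 8) ^ 2, fun a ha b hb a0 b0 hv ↦ ?_⟩
  have v0 := vR_pos (F := F) hb b0.ne'
  have k1 := neg_of_mul_neg_left (neg_of_mul_pos_right (H a a0.ne) a0.le) (exp_pos _).le
  have k2 := pos_of_mul_pos_left ((mul_pos_iff_of_pos_left b0).1 (H b b0.ne')) (exp_pos _).le
  rw [hv] at k1
  generalize vR (-d) F b = h at *
  have n : 0 < e * h + 8 := by positivity
  refine ⟨?_, ?_, ?_, lt_of_mul_lt_mul_left (by linarith) hF.le⟩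
  · have h1 := (hasDerivAt_id h).const_mul e
    refine (((h1.div (h1.add_const 8) n.ne').const_mul 6).const_sub 4).congr_deriv ?_
    simp only [id]; field_simp; ring
  · have : 0 < p0 d := by rw [p0]; linarith
    simp only [op, Gp.P, p1, p2, p3, p4]
    positivity
  · have h1 := hW (e * h / (e * h + 8)) (by positivity) ((div_le_one n).2 (by linarith))
    refine neg_nonneg.1 (nonneg_of_mul_nonneg_right (b := _) ?_ (show 0 < 512 / (e * h + 8) ^ 2 by
      positivity))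
    refine (mul_pos (pow_pos v0 2) h1).le.trans_eq ?_
    simp only [Wp, op, Gp.P, Gp.Q, Gp.S, p0, s1, p1, r2, q2, p2, q3, p3, p4]
    field_simp
    ring

end Pool.Agent.Lib.MP_d6150d_an.BB
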