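import Pool.Agent.Lib.MP_d6150d_an.BCLD

/-! A generated chart: the computations. -/

namespace Pool.Agent.Lib.MP_d6150d_an.BCL

theorem k5 : chk C 0x88811 [(1408749273088, 2817498546176), (0, 824633720832), (70368744177664,
    105553116266496)] = true := by
  decide +kernel

theorem k6 : chk C 0x99288299202 [(0, 1408749273088), (0, 412316860416), (105553116266496,
    140737488355328)] = true := by
  decide +kernel

theorem k7 : chk C 0x88800 [(0, 1408749273088), (412316860416, 824633720832), (105553116266496,
    140737488355328)] = true := by
  decide +kernel

theorem k8 : chk C 0x88821 [(1408749273088, 2817498546176), (0, 824633720832), (105553116266496,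
    140737488355328)] = true := by
  decide +kernel

theorem k9 : chk C 0x88800 [(0, 2817498546176), (824633720832, 1649267441664), (0, 70368744177664)]
    = true := by
  decide +kernel

theorem k10 : chk C 0x880888002 [(0, 1408749273088), (824633720832, 1649267441664), (70368744177664,
    105553116266496)] = true := by
  decide +kernel

end Pool.Agent.Lib.MP_d6150d_an.BCL
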