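import Pool.Agent.Lib.MP_d6150d_an.BCLD

/-! A generated chart: the computations. -/

namespace Pool.Agent.Lib.MP_d6150d_an.BCL

theorem k56 : chk C 0x88188128812 [(2817498546176, 5634997092352), (3298534883328, 4947802324992),
    (0, 140737488355328)] = true := by
  decide +kernel

theorem k57 : chk C 0x88188128812 [(2817498546176, 5634997092352), (4947802324992, 6597069766656),
    (0, 140737488355328)] = true := by
  decide +kernel

theorem k58 : chk C 0x8818810 [(5634997092352, 11269994184704), (3298534883328, 4947802324992), (0,
    70368744177664)] = true := by
  decide +kernel

theorem k59 : chk C 0x880818810 [(5634997092352, 11269994184704), (3298534883328, 4947802324992),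
    (70368744177664, 105553116266496)] = true := by
  decide +kernel

end Pool.Agent.Lib.MP_d6150d_an.BCL
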