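import Pool.Agent.Lib.MP_d6150d_an.BCLD

/-! A generated chart: the computations. -/

namespace Pool.Agent.Lib.MP_d6150d_an.BCL

theorem k60 : chk C 0x8808801 [(5634997092352, 11269994184704), (3298534883328, 4947802324992),
    (105553116266496, 140737488355328)] = true := by
  decide +kernel

theorem k61 : chk C 0x8818810 [(5634997092352, 11269994184704), (4947802324992, 6597069766656), (0,
    70368744177664)] = true := by
  decide +kernel

theorem k62 : chk C 0x88088018810 [(5634997092352, 11269994184704), (4947802324992, 6597069766656),
    (70368744177664, 105553116266496)] = true := by
  decide +kernel

theorem k63 : chk C 0x8808801 [(5634997092352, 11269994184704), (4947802324992, 6597069766656),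
    (105553116266496, 140737488355328)] = true := by
  decide +kernel

theorem k64 : chk C 0x8818810 [(0, 5634997092352), (3298534883328, 4947802324992), (140737488355328,
    175921860444160)] = true := by
  decide +kernel

end Pool.Agent.Lib.MP_d6150d_an.BCL
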