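import Pool.Agent.Lib.MP_d6150d_an.BCLD

/-! A generated chart: the computations. -/

namespace Pool.Agent.Lib.MP_d6150d_an.BCL

theorem k65 : chk C 0x8818810 [(0, 5634997092352), (3298534883328, 4947802324992), (175921860444160,
    211106232532992)] = true := by
  decide +kernel

theorem k66 : chk C 0x88088088002 [(0, 5634997092352), (4947802324992, 6597069766656),
    (140737488355328, 211106232532992)] = true := by
  decide +kernel

theorem k67 : chk C 0x8818812 [(5634997092352, 11269994184704), (3298534883328, 4947802324992),
    (140737488355328, 211106232532992)] = true := by
  decide +kernel

theorem k68 : chk C 0x8818812 [(5634997092352, 11269994184704), (4947802324992, 6597069766656),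
    (140737488355328, 211106232532992)] = true := by
  decide +kernel

theorem k69 : chk C 0x8818810 [(0, 5634997092352), (3298534883328, 4947802324992), (211106232532992,
    246290604621824)] = true := by
  decide +kernel

end Pool.Agent.Lib.MP_d6150d_an.BCL
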