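import Pool.Agent.Lib.MP_d6150d_an.BCLD

/-! A generated chart: the computations. -/

namespace Pool.Agent.Lib.MP_d6150d_an.BCL

theorem k75 : chk C 0x88802888021 [(0, 2817498546176), (6597069766656, 9895604649984),
    (70368744177664, 105553116266496)] = true := by
  decide +kernel

theorem k76 : chk C 0x88801 [(0, 2817498546176), (6597069766656, 9895604649984), (105553116266496,
    140737488355328)] = true := by
  decide +kernel

theorem k77 : chk C 0x88801 [(2817498546176, 5634997092352), (6597069766656, 9895604649984), (0,
    70368744177664)] = true := by
  decide +kernel

theorem k78 : chk C 0x8818811 [(2817498546176, 5634997092352), (6597069766656, 9895604649984),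
    (70368744177664, 105553116266496)] = true := by
  decide +kernel

theorem k79 : chk C 0x88811 [(2817498546176, 5634997092352), (6597069766656, 9895604649984),
    (105553116266496, 140737488355328)] = true := by
  decide +kernel

theorem k80 : chk C 0x8818810 [(0, 5634997092352), (9895604649984, 13194139533312), (0,
    70368744177664)] = true := by
  decide +kernel

end Pool.Agent.Lib.MP_d6150d_an.BCL
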