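import Pool.Agent.Lib.MP_d6150d_an.BCLD

/-! A generated chart: the computations. -/

namespace Pool.Agent.Lib.MP_d6150d_an.BCL

theorem k98 : chk C 0x88188088010 [(0, 11269994184704), (6597069766656, 9895604649984),
    (211106232532992, 246290604621824)] = true := by
  decide +kernel

theorem k99 : chk C 0x8808801 [(0, 5634997092352), (6597069766656, 9895604649984), (246290604621824,
    281474976710656)] = true := by
  decide +kernel

theorem k100 : chk C 0x88801 [(5634997092352, 11269994184704), (6597069766656, 9895604649984),
    (246290604621824, 281474976710656)] = true := by
  decide +kernel

theorem k101 : chk C 0x8818810 [(0, 11269994184704), (9895604649984, 13194139533312),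
    (211106232532992, 246290604621824)] = true := by
  decide +kernel

theorem k102 : chk C 0x88188088010 [(0, 11269994184704), (9895604649984, 13194139533312),
    (246290604621824, 281474976710656)] = true := by
  decide +kernel

end Pool.Agent.Lib.MP_d6150d_an.BCL
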