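import Pool.Agent.Lib.MP_d6150d_an.BCLD

/-! A generated chart: the computations. -/

namespace Pool.Agent.Lib.MP_d6150d_an.BCL

theorem k18 : chk C 0x888800091 [(0, 1408749273088), (0, 412316860416), (175921860444160,
    211106232532992)] = true := by
  decide +kernel

theorem k19 : chk C 0x88800 [(0, 1408749273088), (412316860416, 824633720832), (175921860444160,
    211106232532992)] = true := by
  decide +kernel

theorem k20 : chk C 0x881 [(1408749273088, 2817498546176), (0, 824633720832), (175921860444160,
    211106232532992)] = true := by
  decide +kernel

theorem k21 : chk C 0x8818812 [(2817498546176, 5634997092352), (0, 824633720832), (140737488355328,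
    211106232532992)] = true := by
  decide +kernel

theorem k22 : chk C 0x88800888002 [(0, 2817498546176), (824633720832, 1649267441664),
    (140737488355328, 211106232532992)] = true := by
  decide +kernel

theorem k23 : chk C 0x882 [(2817498546176, 5634997092352), (824633720832, 1649267441664),
    (140737488355328, 211106232532992)] = true := by
  decide +kernel

end Pool.Agent.Lib.MP_d6150d_an.BCL
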