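import Pool.Agent.Lib.MP_d6150d_an.BCLD

/-! A generated chart: the computations. -/

namespace Pool.Agent.Lib.MP_d6150d_an.BCL

theorem k24 : chk C 0x888800091 [(0, 1408749273088), (0, 412316860416), (211106232532992,
    246290604621824)] = true := by
  decide +kernel

theorem k25 : chk C 0x88800 [(0, 1408749273088), (412316860416, 824633720832), (211106232532992,
    246290604621824)] = true := by
  decide +kernel

theorem k26 : chk C 0x881 [(1408749273088, 2817498546176), (0, 824633720832), (211106232532992,
    246290604621824)] = true := by
  decide +kernel

theorem k27 : chk C 0x888800091 [(0, 1408749273088), (0, 412316860416), (246290604621824,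
    281474976710656)] = true := by
  decide +kernel

theorem k28 : chk C 0x880 [(1408749273088, 2817498546176), (0, 412316860416), (246290604621824,
    281474976710656)] = true := by
  decide +kernel

theorem k29 : chk C 0x8888200 [(0, 2817498546176), (412316860416, 824633720832), (246290604621824,
    281474976710656)] = true := by
  decide +kernel

theorem k30 : chk C 0x88821 [(2817498546176, 5634997092352), (0, 824633720832), (211106232532992,
    281474976710656)] = true := by
  decide +kernel

end Pool.Agent.Lib.MP_d6150d_an.BCL
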