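import Pool.Agent.Lib.MP_d6150d_an.BCLD

/-! A generated chart: the computations. -/

namespace Pool.Agent.Lib.MP_d6150d_an.BCL

theorem k31 : chk C 0x88828882100 [(0, 5634997092352), (824633720832, 1649267441664),
    (211106232532992, 281474976710656)] = true := by
  decide +kernel

theorem k32 : chk C 0x8818810 [(5634997092352, 11269994184704), (0, 824633720832), (0,
    140737488355328)] = true := by
  decide +kernel

theorem k33 : chk C 0x880888000 [(5634997092352, 11269994184704), (824633720832, 1649267441664), (0,
    140737488355328)] = true := by
  decide +kernel

theorem k34 : chk C 0x8818812 [(5634997092352, 11269994184704), (0, 824633720832), (140737488355328,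
    211106232532992)] = true := by
  decide +kernel

theorem k35 : chk C 0x8808801 [(5634997092352, 11269994184704), (0, 824633720832), (211106232532992,
    281474976710656)] = true := by
  decide +kernel

end Pool.Agent.Lib.MP_d6150d_an.BCL
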