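import Pool.Agent.Lib.MP_d6150d_an.BCLD

/-! A generated chart: the computations. -/

namespace Pool.Agent.Lib.MP_d6150d_an.BCL

theorem k36 : chk C 0x8808822 [(5634997092352, 11269994184704), (824633720832, 1649267441664),
    (140737488355328, 281474976710656)] = true := by
  decide +kernel

theorem k37 : chk C 0x8818810 [(0, 2817498546176), (1649267441664, 3298534883328), (0,
    70368744177664)] = true := by
  decide +kernel

theorem k38 : chk C 0x88188088010 [(0, 2817498546176), (1649267441664, 3298534883328),
    (70368744177664, 105553116266496)] = true := by
  decide +kernel

theorem k39 : chk C 0x8818810 [(0, 2817498546176), (1649267441664, 3298534883328), (105553116266496,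
    140737488355328)] = true := by
  decide +kernel

theorem k40 : chk C 0x881 [(2817498546176, 5634997092352), (1649267441664, 3298534883328), (0,
    70368744177664)] = true := by
  decide +kernel

end Pool.Agent.Lib.MP_d6150d_an.BCL
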