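import Pool.Agent.Lib.MP_d6150d_an.BCLD

/-! A generated chart: the computations. -/

namespace Pool.Agent.Lib.MP_d6150d_an.BCL

theorem k41 : chk C 0x881888012 [(2817498546176, 5634997092352), (1649267441664, 3298534883328),
    (70368744177664, 140737488355328)] = true := by
  decide +kernel

theorem k42 : chk C 0x88188128812 [(5634997092352, 8452495638528), (1649267441664, 3298534883328),
    (0, 140737488355328)] = true := by
  decide +kernel

theorem k43 : chk C 0x88188128812 [(8452495638528, 11269994184704), (1649267441664, 3298534883328),
    (0, 140737488355328)] = true := by
  decide +kernel

theorem k44 : chk C 0x88801888012 [(0, 2817498546176), (1649267441664, 3298534883328),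
    (140737488355328, 211106232532992)] = true := by
  decide +kernel

end Pool.Agent.Lib.MP_d6150d_an.BCL
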