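import Pool.Agent.Lib.MP_d6150d_an.BCLD

/-! A generated chart: the computations. -/

namespace Pool.Agent.Lib.MP_d6150d_an.BCL

theorem k50 : chk C 0x8818810 [(0, 2817498546176), (3298534883328, 4947802324992), (0,
    70368744177664)] = true := by
  decide +kernel

theorem k51 : chk C 0x8818810 [(0, 2817498546176), (3298534883328, 4947802324992), (70368744177664,
    105553116266496)] = true := by
  decide +kernel

theorem k52 : chk C 0x88801 [(0, 2817498546176), (3298534883328, 4947802324992), (105553116266496,
    140737488355328)] = true := by
  decide +kernel

theorem k53 : chk C 0x880 [(0, 2817498546176), (4947802324992, 6597069766656), (0, 70368744177664)]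
    = true := by
  decide +kernel

theorem k54 : chk C 0x88088188102 [(0, 2817498546176), (4947802324992, 6597069766656),
    (70368744177664, 105553116266496)] = true := by
  decide +kernel

theorem k55 : chk C 0x881 [(0, 2817498546176), (4947802324992, 6597069766656), (105553116266496,
    140737488355328)] = true := by
  decide +kernel

end Pool.Agent.Lib.MP_d6150d_an.BCL
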