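import Pool.Agent.Lib.MP_d6150d_an.BMac
import Pool.Agent.Lib.MP_d6150d_an.PpChk
import Pool.Agent.Lib.MP_d6150d_an.BCLK0
import Pool.Agent.Lib.MP_d6150d_an.BCLK1
import Pool.Agent.Lib.MP_d6150d_an.BCLK2
import Pool.Agent.Lib.MP_d6150d_an.BCLK3
import Pool.Agent.Lib.MP_d6150d_an.BCLK4
import Pool.Agent.Lib.MP_d6150d_an.BCLK5
import Pool.Agent.Lib.MP_d6150d_an.BCLK6
import Pool.Agent.Lib.MP_d6150d_an.BCLK7
import Pool.Agent.Lib.MP_d6150d_an.BCLK8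
import Pool.Agent.Lib.MP_d6150d_an.BCLK9
import Pool.Agent.Lib.MP_d6150d_an.BCLK10
import Pool.Agent.Lib.MP_d6150d_an.BCLK11
import Pool.Agent.Lib.MP_d6150d_an.BCLK12
import Pool.Agent.Lib.MP_d6150d_an.BCLK13
import Pool.Agent.Lib.MP_d6150d_an.BCLK14
import Pool.Agent.Lib.MP_d6150d_an.BCLK15
import Pool.Agent.Lib.MP_d6150d_an.BCLK16
import Pool.Agent.Lib.MP_d6150d_an.BCLK17
import Pool.Agent.Lib.MP_d6150d_an.BCLK18

/-! A generated chart: the inequality. -/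

namespace Pool.Agent.Lib.MP_d6150d_an.BCL

set_option linter.unnecessarySeqFocus false
set_option linter.unusedTactic false
set_option linter.unusedVariables false
set_option linter.unusedSimpArgs false

theorem gd : Gd2 C [(0, 11269994184704), (0, 13194139533312), (0, 281474976710656)] := .split 1
    (.split 1 (.split 1 (.split 0 (.split 2 (.split 0 (.split 1 (.split 2 (.split 0 (chk_sound2 k0)
    (chk_sound2 k1)) (.split 2 (.split 0 (.split 1 (.split 2 (chk_sound2 k2) (chk_sound2 k3))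
    (chk_sound2 k4)) (chk_sound2 k5)) (.split 0 (.split 1 (chk_sound2 k6) (chk_sound2 k7))
    (chk_sound2 k8)))) (.split 2 (chk_sound2 k9) (.split 2 (.split 0 (chk_sound2 k10) (chk_sound2
    k11)) (chk_sound2 k12)))) (.split 1 (chk_sound2 k13) (chk_sound2 k14))) (.split 2 (.split 1
    (.split 0 (.split 2 (.split 0 (.split 1 (chk_sound2 k15) (chk_sound2 k16)) (chk_sound2 k17))
    (.split 0 (.split 1 (chk_sound2 k18) (chk_sound2 k19)) (chk_sound2 k20))) (chk_sound2 k21))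
    (.split 0 (chk_sound2 k22) (chk_sound2 k23))) (.split 1 (.split 0 (.split 2 (.split 0 (.split 1
    (chk_sound2 k24) (chk_sound2 k25)) (chk_sound2 k26)) (.split 1 (.split 0 (chk_sound2 k27)
    (chk_sound2 k28)) (chk_sound2 k29))) (chk_sound2 k30)) (chk_sound2 k31)))) (.split 2 (.split 1
    (chk_sound2 k32) (chk_sound2 k33)) (.split 1 (.split 2 (chk_sound2 k34) (chk_sound2 k35))
    (chk_sound2 k36)))) (.split 2 (.split 0 (.split 0 (.split 2 (chk_sound2 k37) (.split 2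
    (chk_sound2 k38) (chk_sound2 k39))) (.split 2 (chk_sound2 k40) (chk_sound2 k41))) (.split 0
    (chk_sound2 k42) (chk_sound2 k43))) (.split 0 (.split 2 (.split 0 (chk_sound2 k44) (chk_sound2
    k45)) (.split 2 (chk_sound2 k46) (chk_sound2 k47))) (.split 2 (chk_sound2 k48) (chk_sound2
    k49))))) (.split 2 (.split 0 (.split 0 (.split 1 (.split 2 (chk_sound2 k50) (.split 2
    (chk_sound2 k51) (chk_sound2 k52))) (.split 2 (chk_sound2 k53) (.split 2 (chk_sound2 k54)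
    (chk_sound2 k55)))) (.split 1 (chk_sound2 k56) (chk_sound2 k57))) (.split 1 (.split 2
    (chk_sound2 k58) (.split 2 (chk_sound2 k59) (chk_sound2 k60))) (.split 2 (chk_sound2 k61)
    (.split 2 (chk_sound2 k62) (chk_sound2 k63))))) (.split 2 (.split 0 (.split 1 (.split 2
    (chk_sound2 k64) (chk_sound2 k65)) (chk_sound2 k66)) (.split 1 (chk_sound2 k67) (chk_sound2
    k68))) (.split 0 (.split 1 (.split 2 (chk_sound2 k69) (chk_sound2 k70)) (chk_sound2 k71))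
    (.split 1 (chk_sound2 k72) (chk_sound2 k73)))))) (.split 2 (.split 0 (.split 1 (.split 0 (.split
    2 (chk_sound2 k74) (.split 2 (chk_sound2 k75) (chk_sound2 k76))) (.split 2 (chk_sound2 k77)
    (.split 2 (chk_sound2 k78) (chk_sound2 k79)))) (.split 2 (chk_sound2 k80) (.split 2 (.split 0
    (chk_sound2 k81) (chk_sound2 k82)) (chk_sound2 k83)))) (.split 1 (.split 2 (.split 1 (chk_sound2
    k84) (chk_sound2 k85)) (.split 2 (.split 1 (.split 2 (chk_sound2 k86) (chk_sound2 k87))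
    (chk_sound2 k88)) (chk_sound2 k89))) (.split 2 (chk_sound2 k90) (.split 2 (chk_sound2 k91)
    (chk_sound2 k92))))) (.split 2 (.split 1 (.split 2 (.split 0 (chk_sound2 k93) (chk_sound2 k94))
    (chk_sound2 k95)) (.split 2 (chk_sound2 k96) (chk_sound2 k97))) (.split 1 (.split 2 (chk_sound2
    k98) (.split 0 (chk_sound2 k99) (chk_sound2 k100))) (.split 2 (chk_sound2 k101) (chk_sound2
    k102)))))

set_option maxRecDepth 100000 in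
theorem eq {f d u t F sF a0 a1 a2 c0 c1 c2 z10 z11 z12 W z14 z15 z16 Y z18 P z20 Q z22 R tY V j iy w
    a b o z32 g V3 el eu z37 G z39 Z3 z41 Z4 : ℝ} (ht : t = -u) (hF : F = (1 - f) * (1 / 4)) (hsF :
    sF = F * t) (ha0 : a0 = 2 * sF) (ha1 : a1 = a0 - t) (ha2 : a2 = a1 - t) (hc0 : c0 = (1 - d) * (2
    * F)) (hc1 : c1 = (1 - 2 * d) * (2 * F - 1)) (hc2 : c2 = d * (2 - 2 * F)) (hz10 : z10 = ph1 a0)
    (hz11 : z11 = ph1 a1) (hz12 : z12 = ph1 a2) (hW : W = c0 * z10 - c1 * z11 + c2 * z12) (hz14 :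
    z14 = ph2 a0) (hz15 : z15 = ph2 a1) (hz16 : z16 = ph2 a2) (hY : Y = c0 * z14 - c1 * z15 + c2 *
    z16) (hz18 : z18 = Real.exp a0) (hP : P = (1 - d) * z18) (hz20 : z20 = Real.exp a1) (hQ : Q = (1
    - 2 * d) * z20) (hz22 : z22 = Real.exp a2) (hR : R = -(d * z22)) (htY : tY = 2 * (t * Y)) (hV :
    V = t * tY) (hj : j = (√(16 + V))⁻¹) (hiy : iy = Real.exp (-sF)) (hw : w = 16 * (j * j)) (ha : a
    = 4 * (j * iy)) (hb : b = a * w) (ho : o = 1 - w) (hz32 : z32 = (√(2 * Y))⁻¹) (hg : g = tY * z32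
    * iy) (hV3 : V3 = V * V * V) (hel : el = 29 * d) (heu : eu = 1 + 25 * d) (hz37 : z37 = BB.Gb f d
    F sF P Q R Y W V 1 a b o g) (hG : G = 100 * (1 / 1048576 * z37)) (hz39 : z39 = BB.H3 f d F sF P
    Q R Y W a b o) (hZ3 : Z3 = 2560 * (1 / 1048576 * (V3 * z39))) (hz41 : z41 = BB.H4 f d F sF P Q R
    Y W a b o) (hZ4 : Z4 = 256 * (1 / 1048576 * (V3 * V * z41))) : outR prog 0 [f, d, u] = -(G + el
    * (Z3 + el * Z4)) ∧ outR prog 1 [f, d, u] = -(2 * G + (el + eu) * Z3 + 2 * (el * (eu * Z4))) ∧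
    outR prog 2 [f, d, u] = -(G + eu * (Z3 + eu * Z4)) := by
  replace ht : t = ((Int.cast (-1) : ℝ) * u) := ht.trans (by push_cast <;> ring)
  replace hF : F = (((Int.cast (1) : ℝ) / (Nat.cast 4 : ℝ)) * ((Int.cast (1) : ℝ) - f)) := hF.trans
    (by push_cast <;> ring)
  replace hsF : sF = (F * t) := hsF.trans (by push_cast <;> ring)
  replace ha0 : a0 = ((Int.cast (2) : ℝ) * sF) := ha0.trans (by push_cast <;> ring)
  replace ha1 : a1 = (a0 - t) := ha1.trans (by push_cast <;> ring)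
  replace ha2 : a2 = (a1 - t) := ha2.trans (by push_cast <;> ring)
  replace hc0 : c0 = (((Int.cast (1) : ℝ) - d) * ((Int.cast (2) : ℝ) * F)) := hc0.trans (by
    push_cast <;> ring)
  replace hc1 : c1 = (((Int.cast (1) : ℝ) - ((Int.cast (2) : ℝ) * d)) * (((Int.cast (2) : ℝ) * F) -
    (Int.cast (1) : ℝ))) := hc1.trans (by push_cast <;> ring)
  replace hc2 : c2 = (d * ((Int.cast (2) : ℝ) - ((Int.cast (2) : ℝ) * F))) := hc2.trans (by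
    push_cast <;> ring)
  replace hW : W = (((c0 * z10) - (c1 * z11)) + (c2 * z12)) := hW.trans (by push_cast <;> ring)
  replace hY : Y = (((c0 * z14) - (c1 * z15)) + (c2 * z16)) := hY.trans (by push_cast <;> ring)
  replace hP : P = (((Int.cast (1) : ℝ) - d) * z18) := hP.trans (by push_cast <;> ring)
  replace hQ : Q = (((Int.cast (1) : ℝ) - ((Int.cast (2) : ℝ) * d)) * z20) := hQ.trans (by push_cast
    <;> ring)
  replace hR : R = ((Int.cast (-1) : ℝ) * (d * z22)) := hR.trans (by push_cast <;> ring)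
  replace htY : tY = ((Int.cast (2) : ℝ) * (t * Y)) := htY.trans (by push_cast <;> ring)
  replace hV : V = (t * tY) := hV.trans (by push_cast <;> ring)
  replace hj : j = (√((Int.cast (16) : ℝ) + V))⁻¹ := hj.trans (congrArg (fun x : ℝ ↦ (√x)⁻¹) (by
    push_cast <;> ring))
  replace hiy : iy = (Real.exp ((Int.cast (-1) : ℝ) * sF)) := hiy.trans (congrArg Real.exp (by
    push_cast <;> ring))
  replace hw : w = ((Int.cast (16) : ℝ) * (j * j)) := hw.trans (by push_cast <;> ring)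
  replace ha : a = ((Int.cast (4) : ℝ) * (j * iy)) := ha.trans (by push_cast <;> ring)
  replace hb : b = (a * w) := hb.trans (by push_cast <;> ring)
  replace ho : o = ((Int.cast (1) : ℝ) - w) := ho.trans (by push_cast <;> ring)
  replace hz32 : z32 = (√((Int.cast (2) : ℝ) * Y))⁻¹ := hz32.trans (congrArg (fun x : ℝ ↦ (√x)⁻¹)
    (by push_cast <;> ring))
  replace hg : g = ((tY * z32) * iy) := hg.trans (by push_cast <;> ring)
  replace hV3 : V3 = ((V * V) * V) := hV3.trans (by push_cast <;> ring)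
  replace hel : el = ((Int.cast (29) : ℝ) * d) := hel.trans (by push_cast <;> ring)
  replace heu : eu = ((Int.cast (1) : ℝ) + ((Int.cast (25) : ℝ) * d)) := heu.trans (by push_cast <;>
    ring)
  replace hz37 : z37 = (BB.mC f d F sF P Q R Y W V a b o g).1 := hz37.trans (BB.mC_0 ..)
  replace hG : G = ((Int.cast (100) : ℝ) * (((Int.cast (1) : ℝ) / (Nat.cast 1048576 : ℝ)) * z37)) :=
    hG.trans (by push_cast <;> ring)
  replace hz39 : z39 = (BB.mC f d F sF P Q R Y W V a b o g).2.1 := hz39.trans (BB.mC_1 ..)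
  replace hZ3 : Z3 = ((Int.cast (2560) : ℝ) * (((Int.cast (1) : ℝ) / (Nat.cast 1048576 : ℝ)) * (V3 *
    z39))) := hZ3.trans (by push_cast <;> ring)
  replace hz41 : z41 = (BB.mC f d F sF P Q R Y W V a b o g).2.2 := hz41.trans (BB.mC_2 ..)
  replace hZ4 : Z4 = ((Int.cast (256) : ℝ) * (((Int.cast (1) : ℝ) / (Nat.cast 1048576 : ℝ)) * ((V3 *
    V) * z41))) := hZ4.trans (by push_cast <;> ring)
  have e0 : ((Int.cast (-1) : ℝ) * (G + (el * (Z3 + (el * Z4))))) = -(G + el * (Z3 + el * Z4)) := by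
    push_cast <;> ring
  have e1 : ((Int.cast (-1) : ℝ) * ((((Int.cast (2) : ℝ) * G) + ((el + eu) * Z3)) + ((Int.cast (2) :
    ℝ) * (el * (eu * Z4))))) = -(2 * G + (el + eu) * Z3 + 2 * (el * (eu * Z4))) := by push_cast <;>
    ring
  have e2 : ((Int.cast (-1) : ℝ) * (G + (eu * (Z3 + (eu * Z4))))) = -(G + eu * (Z3 + eu * Z4)) := by
    push_cast <;> ring
  subst ht hF hsF ha0 ha1 ha2 hc0 hc1 hc2 hz10 hz11 hz12 hW hz14 hz15 hz16 hY hz18 hP hz20 hQ hz22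
    hR htY hV hj hiy hw ha hb ho hz32 hg hV3 hel heu hz37 hG hz39 hZ3 hz41 hZ4
  refine ⟨Eq.trans ?_ e0, Eq.trans ?_ e1, Eq.trans ?_ e2⟩ <;>
    simp only [outR, prog, prog1, prog2, prog3, prog4, prog5, prog6, prog7, prog8, runR, stepR, gtR,
      List.take, BB.mO, BB.mC]

theorem l0 : ((0 : ℤ) : ℝ) / 2 ^ 47 = 0 := by norm_num
theorem u0 : (41 / 512 : ℝ) = ((11269994184704 : ℤ) : ℝ) / 2 ^ 47 := by norm_num
theorem l1 : ((0 : ℤ) : ℝ) / 2 ^ 47 = 0 := by norm_num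
theorem u1 : (3 / 32 : ℝ) = ((13194139533312 : ℤ) : ℝ) / 2 ^ 47 := by norm_num
theorem l2 : ((0 : ℤ) : ℝ) / 2 ^ 47 = 0 := by norm_num
theorem u2 : (2 : ℝ) = ((281474976710656 : ℤ) : ℝ) / 2 ^ 47 := by norm_num

theorem out0 (V2 : ∀ f d : ℝ, 0 ≤ f → f ≤ 41 / 512 → 0 ≤ d → d ≤ 3 / 32 → (fun u ↦ outR prog 0 [f,
    d, u]) =O[nhdsWithin 0 (Set.Ioi 0)] fun u : ℝ ↦ u ^ 7) (N : ∀ u : ℝ, 0 ≤ u → u ≤ 2 → 0 ≤ outR
    prog 0 [0, 0, u]) {f d u : ℝ} (a0 : 0 ≤ f) (b0 : f ≤ 41 / 512) (a1 : 0 ≤ d) (b1 : d ≤ 3 / 32)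
    (a2 : 0 ≤ u) (b2 : u ≤ 2) (p2 : 0 < u) (pc : 0 < f ∨ 0 < d) : 0 < outR prog 0 [f, d, u] :=
  gd 0 (by decide) [f, d, u] (.cons ⟨l0.le.trans a0, b0.trans u0.le⟩ (.cons ⟨l1.le.trans a1,
    b1.trans u1.le⟩ (.cons ⟨l2.le.trans a2, b2.trans u2.le⟩ (.nil)))) ⟨nofun, nofun, fun _ ↦ p2,
    trivial⟩ (fun _ ↦ pc.elim (fun h ↦ .inl ⟨rfl, h⟩) (fun h ↦ .inr (.inl ⟨rfl, h⟩)))
    (List.forall_mem_nil _) (⟨fun _ ↦ allB_iff.2 fun _ _ ↦ trivial, fun y0 a0 b0 ↦ ⟨fun _ ↦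
    allB_iff.2 fun _ _ ↦ trivial, fun y1 a1 b1 ↦ ⟨fun _ ↦ V2 y0 y1 (l0.ge.trans a0) (b0.trans u0.ge)
    (l1.ge.trans a1) (b1.trans u1.ge), fun _ _ _ ↦ trivial⟩⟩⟩) (fun _ _ _ _ _ _ _ y2 a2 b2 ↦ N y2
    (l2.ge.trans a2) (b2.trans u2.ge))

theorem out1 (V2 : ∀ f d : ℝ, 0 ≤ f → f ≤ 41 / 512 → 0 ≤ d → d ≤ 3 / 32 → (fun u ↦ outR prog 1 [f,
    d, u]) =O[nhdsWithin 0 (Set.Ioi 0)] fun u : ℝ ↦ u ^ 7) (N : ∀ u : ℝ, 0 ≤ u → u ≤ 2 → 0 ≤ outR
    prog 1 [0, 0, u]) {f d u : ℝ} (a0 : 0 ≤ f) (b0 : f ≤ 41 / 512) (a1 : 0 ≤ d) (b1 : d ≤ 3 / 32)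
    (a2 : 0 ≤ u) (b2 : u ≤ 2) (p2 : 0 < u) (pc : 0 < f ∨ 0 < d) : 0 < outR prog 1 [f, d, u] :=
  gd 1 (by decide) [f, d, u] (.cons ⟨l0.le.trans a0, b0.trans u0.le⟩ (.cons ⟨l1.le.trans a1,
    b1.trans u1.le⟩ (.cons ⟨l2.le.trans a2, b2.trans u2.le⟩ (.nil)))) ⟨nofun, nofun, fun _ ↦ p2,
    trivial⟩ (fun _ ↦ pc.elim (fun h ↦ .inl ⟨rfl, h⟩) (fun h ↦ .inr (.inl ⟨rfl, h⟩)))
    (List.forall_mem_nil _) (⟨fun _ ↦ allB_iff.2 fun _ _ ↦ trivial, fun y0 a0 b0 ↦ ⟨fun _ ↦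
    allB_iff.2 fun _ _ ↦ trivial, fun y1 a1 b1 ↦ ⟨fun _ ↦ V2 y0 y1 (l0.ge.trans a0) (b0.trans u0.ge)
    (l1.ge.trans a1) (b1.trans u1.ge), fun _ _ _ ↦ trivial⟩⟩⟩) (fun _ _ _ _ _ _ _ y2 a2 b2 ↦ N y2
    (l2.ge.trans a2) (b2.trans u2.ge))

theorem out2 (V2 : ∀ f d : ℝ, 0 ≤ f → f ≤ 41 / 512 → 0 ≤ d → d ≤ 3 / 32 → (fun u ↦ outR prog 2 [f,
    d, u]) =O[nhdsWithin 0 (Set.Ioi 0)] fun u : ℝ ↦ u ^ 7) (N : ∀ u : ℝ, 0 ≤ u → u ≤ 2 → 0 ≤ outR
    prog 2 [0, 0, u]) {f d u : ℝ} (a0 : 0 ≤ f) (b0 : f ≤ 41 / 512) (a1 : 0 ≤ d) (b1 : d ≤ 3 / 32)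
    (a2 : 0 ≤ u) (b2 : u ≤ 2) (p2 : 0 < u) (pc : 0 < f ∨ 0 < d) : 0 < outR prog 2 [f, d, u] :=
  gd 2 (by decide) [f, d, u] (.cons ⟨l0.le.trans a0, b0.trans u0.le⟩ (.cons ⟨l1.le.trans a1,
    b1.trans u1.le⟩ (.cons ⟨l2.le.trans a2, b2.trans u2.le⟩ (.nil)))) ⟨nofun, nofun, fun _ ↦ p2,
    trivial⟩ (fun _ ↦ pc.elim (fun h ↦ .inl ⟨rfl, h⟩) (fun h ↦ .inr (.inl ⟨rfl, h⟩)))
    (List.forall_mem_nil _) (⟨fun _ ↦ allB_iff.2 fun _ _ ↦ trivial, fun y0 a0 b0 ↦ ⟨fun _ ↦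
    allB_iff.2 fun _ _ ↦ trivial, fun y1 a1 b1 ↦ ⟨fun _ ↦ V2 y0 y1 (l0.ge.trans a0) (b0.trans u0.ge)
    (l1.ge.trans a1) (b1.trans u1.ge), fun _ _ _ ↦ trivial⟩⟩⟩) (fun _ _ _ _ _ _ _ y2 a2 b2 ↦ N y2
    (l2.ge.trans a2) (b2.trans u2.ge))

end Pool.Agent.Lib.MP_d6150d_an.BCL
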