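import Pool.Agent.Lib.MP_d6150d_an.GDef

/-! A generated chart: the program. -/

namespace Pool.Agent.Lib.MP_d6150d_an.BCL

def prog8 : List Ins := .mul 405 0 :: .smul 256 0 :: .mul 90 0 :: .add true 42 0 :: .mul 92 0 ::
    .add false 94 0 :: .smul (-1) 0 :: .smul 2 96 :: .smul 25 404 :: .add false 412 0 :: .add false
    98 0 :: .mul 0 50 :: .add false 4 0 :: .mul 3 11 :: .mul 102 0 :: .smul 2 0 :: .add false 3 0 ::
    .smul (-1) 0 :: .add true 57 4 :: .mul 9 0 :: .add false 109 0 :: .smul (-1) 0 :: .cpy 0 :: .cpy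
    5 :: .cpy 17 :: []

def prog7 : List Ins := .smul (-669000) 346 :: .add false 1 0 :: .mul 127 0 :: .add true 4 0 :: .mul
    129 0 :: .add true 13 0 :: .mul 175 0 :: .sub true 19 0 :: .mul 45 0 :: .mul 364 0 :: .smul 2560
    0 :: .mul 48 252 :: .smul 9584 279 :: .smul 95840 271 :: .add false 1 0 :: .smul 215640 268 ::
    .add false 1 0 :: .smul 71880 251 :: .add false 1 0 :: .smul (-8985) 239 :: .add false 1 0 ::
    .smul 3360 288 :: .smul 33600 280 :: .add false 1 0 :: .smul 75600 277 :: .add false 1 0 ::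
    .smul 25200 260 :: .add false 1 0 :: .smul (-3150) 248 :: .add true 1 0 :: .mul 376 0 :: .add
    false 10 0 :: .smul (-696) 384 :: .smul (-193) 379 :: .add false 1 0 :: .mul 214 0 :: .sub false
    4 0 :: .int (-8985) :: .smul (-3150) 384 :: .add false 1 0 :: .sub true 393 165 :: .mul 0 0 ::
    .mul 2 0 :: .smul 6210 395 :: .smul (-11700) 390 :: .add false 1 0 :: .add false 3 0 :: .mul 216
    0 :: .sub true 11 0 :: .mul 37 0 :: prog8

def prog6 : List Ins := .add true 4 0 :: .mul 76 0 :: .add true 9 0 :: .mul 78 0 :: .add true 80 0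
    :: .mul 124 0 :: .sub true 129 0 :: .mul 162 0 :: .add true 164 0 :: .mul 314 0 :: .smul 100 0
    :: .smul 29 307 :: .mul 167 203 :: .smul 71088 230 :: .smul 427344 222 :: .add false 1 0 ::
    .smul 323568 219 :: .add false 1 0 :: .smul (-104796) 202 :: .add false 1 0 :: .smul 39681 190
    :: .add false 1 0 :: .smul 713600 239 :: .smul 6285200 231 :: .add false 1 0 :: .smul 12227400
    228 :: .add false 1 0 :: .smul 3437700 211 :: .add false 1 0 :: .smul (-349950) 199 :: .add true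
    1 0 :: .mul 327 0 :: .add false 10 0 :: .smul (-15200) 335 :: .smul (-7760) 330 :: .add false 1
    0 :: .mul 165 0 :: .sub false 4 0 :: .int 39681 :: .smul (-349950) 335 :: .add false 1 0 :: .sub
    false 0 5 :: .int 26964 :: .smul 1018950 339 :: .add false 1 0 :: .smul 16400 347 :: .smul 17900
    342 :: .add false 1 0 :: .add false 3 0 :: .int (-66645) :: prog7

def prog5 : List Ins := .int 4441 :: .smul 11886 247 :: .add false 1 0 :: .smul 10416 64 :: .add
    false 1 0 :: .smul 180320 63 :: .add false 1 0 :: .int (-17893) :: .smul (-45478) 254 :: .add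
    false 1 0 :: .smul (-123760) 71 :: .add false 1 0 :: .int 26927 :: .smul 53854 259 :: .add false
    1 0 :: .smul (-13171) 265 :: .add true 1 0 :: .mul 267 0 :: .add true 6 0 :: .mul 269 0 :: .add
    true 13 0 :: .mul 271 0 :: .add true 22 0 :: .mul 273 0 :: .add true 33 0 :: .mul 47 0 :: .int
    263844000 :: .smul 13106772000 273 :: .add false 1 0 :: .mul 0 71 :: .add false 4 0 :: .int
    (-490636440) :: .smul 21555072000 278 :: .add true 1 0 :: .mul 0 70 :: .add true 4 0 :: .mul 103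
    0 :: .smul 32 0 :: .smul 3 66 :: .add false 1 0 :: .smul 128 0 :: .smul 256 117 :: .sub false 1
    0 :: .int (-4121640) :: .smul (-738108000) 290 :: .add false 1 0 :: .smul 211000 298 :: .smul
    (-656000) 293 :: .add false 1 0 :: .smul 256 0 :: prog6

def prog4 : List Ins := .smul 312 196 :: .add false 1 0 :: .smul (-103) 202 :: .add true 1 0 :: .mul
    204 0 :: .add true 6 0 :: .mul 206 0 :: .add true 13 0 :: .mul 22 0 :: .int 41508000 :: .smul
    (-2952396000) 206 :: .add true 1 0 :: .sub false 215 212 :: .add true 0 200 :: .mul 2 0 :: .add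
    true 6 0 :: .mul 33 0 :: .smul 126 0 :: .int (-82621) :: .smul 1703200 215 :: .add false 1 0 ::
    .add false 3 0 :: .sub false 0 48 :: .smul 256 0 :: .sub true 227 45 :: .int 125496000 :: .smul
    (-1337760000) 222 :: .add true 1 0 :: .int (-8) :: .smul (-20) 225 :: .add false 1 0 :: .smul 28
    42 :: .add false 1 0 :: .smul 4760 41 :: .add false 1 0 :: .mul 46 46 :: .smul (-44800) 0 ::
    .add false 2 0 :: .mul 2 234 :: .smul 62720 0 :: .add false 2 0 :: .int (-296) :: .smul (-802)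
    238 :: .add false 1 0 :: .smul (-1596) 55 :: .add false 1 0 :: .smul 49280 54 :: .add false 1 0
    :: .smul (-156800) 12 :: .add false 1 0 :: prog5

def prog3 : List Ins := .smul 60988 34 :: .add false 1 0 :: .smul (-82621) 22 :: .add false 1 0 ::
    .smul 4470400 71 :: .smul 30432000 63 :: .add false 1 0 :: .smul 34191200 60 :: .add false 1 0
    :: .smul (-752800) 43 :: .add false 1 0 :: .smul 1703200 31 :: .add true 1 0 :: .mul 159 0 ::
    .add false 10 0 :: .int 16 :: .add false 0 57 :: .rsq 0 :: .mul 0 29 :: .smul 4 0 :: .mul 0 40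
    :: .smul (-102000) 173 :: .smul (-4820) 168 :: .add false 1 0 :: .mul 3 0 :: .sub false 10 0 ::
    .smul 256 0 :: .mul 9 9 :: .smul 16 0 :: .mul 9 0 :: .mul 0 50 :: .cst 1 136080 :: .mul 0 182 ::
    .int (-13944000) :: .smul 148640000 180 :: .add true 1 0 :: .smul 6 182 :: .add false 142 0 ::
    .mul 184 184 :: .smul (-60) 0 :: .add false 2 0 :: .mul 2 187 :: .smul 320 0 :: .add false 2 0
    :: .int (-57) :: .smul (-102) 191 :: .add false 1 0 :: .smul (-480) 8 :: .add false 1 0 :: .int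
    156 :: prog4

def prog2 : List Ins := .smul (-297280000) 8 :: .add false 1 0 :: .smul 74320000 5 :: .add true 1 0
    :: .mul 100 0 :: .add false 6 0 :: .mul 104 75 :: .smul 2 0 :: .mul 106 0 :: .smul 2318400 26 ::
    .smul 6032800 18 :: .add false 1 0 :: .smul 816400 15 :: .add false 1 0 :: .mul 18 23 :: .mul 83
    0 :: .smul 230600 0 :: .add false 3 0 :: .smul 3739200 35 :: .smul 76826400 27 :: .add false 1 0
    :: .smul 68413200 24 :: .add false 1 0 :: .smul (-16402200) 7 :: .add true 1 0 :: .mul 121 0 ::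
    .add true 8 0 :: .mul 18 0 :: .add false 22 0 :: .mul 14 39 :: .int 13944000 :: .smul
    (-148640000) 127 :: .add true 1 0 :: .mul 0 133 :: .smul 2 103 :: .rsq 0 :: .mul 28 0 :: .smul
    (-1) 134 :: .exp 0 :: .mul 2 0 :: .mul 6 0 :: .mul 11 0 :: .add false 13 0 :: .smul 256 0 ::
    .mul 35 35 :: .smul 53136 62 :: .smul (-93648) 54 :: .add false 1 0 :: .smul (-548240) 51 ::
    .add false 1 0 :: prog3

def prog1 : List Ins := .sub true 0 13 :: .sub true 2 0 :: .mul 5 0 :: .mul 5 2 :: .smul 4 18 ::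
    .sub true 0 18 :: .sub true 2 0 :: .add false 4 0 :: .mul 17 0 :: .mul 8 7 :: .smul 3 0 :: .sub
    true 2 0 :: .mul 18 0 :: .smul 3 6 :: .sub true 6 0 :: .mul 14 0 :: .mul 19 9 :: .mul 19 11 ::
    .smul 8 32 :: .sub false 0 32 :: .sub false 2 0 :: .add true 4 0 :: .mul 31 0 :: .add false 7 0
    :: .mul 18 22 :: .smul 3 0 :: .sub false 2 0 :: .add false 14 0 :: .mul 37 0 :: .mul 28 17 ::
    .smul 5 0 :: .sub true 2 0 :: .mul 47 0 :: .smul 27888000 0 :: .mul 50 22 :: .mul 78 75 :: .mul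
    70 67 :: .sub false 1 0 :: .mul 63 60 :: .add false 1 0 :: .mul 0 0 :: .mul 6 0 :: .smul
    27888000 0 :: .add false 9 0 :: .mul 61 42 :: .mul 4 4 :: .mul 1 0 :: .smul (-6972000) 0 :: .add
    false 4 0 :: .smul (-297280000) 16 :: prog2

def prog : List Ins := .cst 1 1048576 :: .cst 1 4 :: .int 1 :: .var 0 :: .sub false 1 0 :: .mul 3 0
    :: .var 2 :: .smul (-1) 0 :: .mul 2 0 :: .var 1 :: .sub false 7 0 :: .smul 2 5 :: .mul 1 0 ::
    .smul 2 4 :: .tri 0 :: .mul 4 0 :: .smul 2 8 :: .sub true 16 0 :: .sub true 8 17 :: .mul 1 0 ::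
    .sub true 8 14 :: .tri 0 :: .mul 4 0 :: .sub false 9 0 :: .int 2 :: .sub true 0 17 :: .mul 20 0
    :: .sub false 8 23 :: .tri 0 :: .mul 4 0 :: .add false 8 0 :: .mul 28 0 :: .mul 0 1 :: .mul 0 2
    :: .mul 0 3 :: .mul 30 26 :: .mul 22 18 :: .sub false 1 0 :: .mul 34 11 :: .smul (-1) 0 :: .add
    true 2 0 :: .int 6 :: .smul 5 42 :: .sub true 1 0 :: .int 4 :: .smul 3 45 :: .sub true 1 0 ::
    .sub true 24 47 :: .mul 0 7 :: .smul 2 13 :: prog1

def vs : List Vr := [⟨3, 0, false, true⟩, ⟨3, 0, false, true⟩, ⟨14, 7, false, false⟩]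

def C : Chart := ⟨vs, prog, [], 3, 4⟩

end Pool.Agent.Lib.MP_d6150d_an.BCL
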