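import Pool.Agent.Lib.MP_d6150d_an.BCLD

/-! A generated chart: the computations. -/

namespace Pool.Agent.Lib.MP_d6150d_an.BCL

theorem k45 : chk C 0x8818812 [(2817498546176, 5634997092352), (1649267441664, 3298534883328),
    (140737488355328, 211106232532992)] = true := by
  decide +kernel

theorem k46 : chk C 0x881888010 [(0, 5634997092352), (1649267441664, 3298534883328),
    (211106232532992, 246290604621824)] = true := by
  decide +kernel

theorem k47 : chk C 0x881888010 [(0, 5634997092352), (1649267441664, 3298534883328),
    (246290604621824, 281474976710656)] = true := by
  decide +kernel

theorem k48 : chk C 0x8818812 [(5634997092352, 11269994184704), (1649267441664, 3298534883328),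
    (140737488355328, 211106232532992)] = true := by
  decide +kernel

theorem k49 : chk C 0x8808801 [(5634997092352, 11269994184704), (1649267441664, 3298534883328),
    (211106232532992, 281474976710656)] = true := by
  decide +kernel

end Pool.Agent.Lib.MP_d6150d_an.BCL
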