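import Pool.Agent.Lib.MP_d6150d_an.BCRD

/-! A generated chart: the computations. -/

namespace Pool.Agent.Lib.MP_d6150d_an.BCR

theorem k0 : chk C 0x88188089010 [(0, 1408749273088), (0, 412316860416), (0, 35184372088832)] = true
    := by
  decide +kernel

theorem k1 : chk C 0x888118910 [(0, 704374636544), (0, 412316860416), (35184372088832,
    43980465111040)] = true := by
  decide +kernel

theorem k2 : chk C 0x888118910 [(0, 704374636544), (0, 412316860416), (43980465111040,
    52776558133248)] = true := by
  decide +kernel

theorem k3 : chk C 0x88811 [(704374636544, 1408749273088), (0, 412316860416), (35184372088832,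
    52776558133248)] = true := by
  decide +kernel

end Pool.Agent.Lib.MP_d6150d_an.BCR
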