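import Pool.Agent.Lib.MP_d6150d_an.BCRD

/-! A generated chart: the computations. -/

namespace Pool.Agent.Lib.MP_d6150d_an.BCR

theorem k52 : chk C 0x8888111 [(1408749273088, 2817498546176), (0, 1649267441664), (175921860444160,
    211106232532992)] = true := by
  decide +kernel

theorem k53 : chk C 0x880 [(0, 2817498546176), (1649267441664, 3298534883328), (140737488355328,
    211106232532992)] = true := by
  decide +kernel

theorem k54 : chk C 0x888882111 [(2817498546176, 5634997092352), (0, 3298534883328),
    (140737488355328, 211106232532992)] = true := by
  decide +kernel

theorem k55 : chk C 0x89921 [(0, 1408749273088), (0, 1649267441664), (211106232532992,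
    246290604621824)] = true := by
  decide +kernel

theorem k56 : chk C 0x8888111 [(1408749273088, 2817498546176), (0, 1649267441664), (211106232532992,
    246290604621824)] = true := by
  decide +kernel

theorem k57 : chk C 0x89921 [(0, 1408749273088), (0, 1649267441664), (246290604621824,
    281474976710656)] = true := by
  decide +kernel

end Pool.Agent.Lib.MP_d6150d_an.BCR
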