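import Pool.Agent.Lib.MP_d6150d_an.BCRD

/-! A generated chart: the computations. -/

namespace Pool.Agent.Lib.MP_d6150d_an.BCR

theorem k58 : chk C 0x8888111 [(1408749273088, 2817498546176), (0, 1649267441664), (246290604621824,
    281474976710656)] = true := by
  decide +kernel

theorem k59 : chk C 0x880 [(0, 2817498546176), (1649267441664, 3298534883328), (211106232532992,
    281474976710656)] = true := by
  decide +kernel

theorem k60 : chk C 0x888880111 [(2817498546176, 5634997092352), (0, 3298534883328),
    (211106232532992, 281474976710656)] = true := by
  decide +kernel

theorem k61 : chk C 0x880888102 [(0, 2817498546176), (3298534883328, 6597069766656),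
    (140737488355328, 281474976710656)] = true := by
  decide +kernel

theorem k62 : chk C 0x88802 [(2817498546176, 5634997092352), (3298534883328, 6597069766656),
    (140737488355328, 281474976710656)] = true := by
  decide +kernel

theorem k63 : chk C 0x881888010 [(5634997092352, 11269994184704), (0, 1649267441664),
    (140737488355328, 211106232532992)] = true := by
  decide +kernel

end Pool.Agent.Lib.MP_d6150d_an.BCR
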