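import Pool.Agent.Lib.MP_d6150d_an.BCRD

/-! A generated chart: the computations. -/

namespace Pool.Agent.Lib.MP_d6150d_an.BCR

theorem k64 : chk C 0x880 [(5634997092352, 11269994184704), (1649267441664, 3298534883328),
    (140737488355328, 211106232532992)] = true := by
  decide +kernel

theorem k65 : chk C 0x88088088101 [(5634997092352, 11269994184704), (0, 3298534883328),
    (211106232532992, 281474976710656)] = true := by
  decide +kernel

theorem k66 : chk C 0x88088188102 [(5634997092352, 11269994184704), (3298534883328, 6597069766656),
    (140737488355328, 281474976710656)] = true := by
  decide +kernel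

theorem k67 : chk C 0x88188088010 [(0, 5634997092352), (6597069766656, 13194139533312),
    (140737488355328, 211106232532992)] = true := by
  decide +kernel

end Pool.Agent.Lib.MP_d6150d_an.BCR
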