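import Pool.Agent.Lib.MP_d6150d_an.BCRD

/-! A generated chart: the computations. -/

namespace Pool.Agent.Lib.MP_d6150d_an.BCR

theorem k9 : chk C 0x8888011 [(1408749273088, 2817498546176), (0, 824633720832), (70368744177664,
    105553116266496)] = true := by
  decide +kernel

theorem k10 : chk C 0x88091880912 [(0, 1408749273088), (0, 824633720832), (105553116266496,
    140737488355328)] = true := by
  decide +kernel

theorem k11 : chk C 0x88811 [(1408749273088, 2817498546176), (0, 824633720832), (105553116266496,
    140737488355328)] = true := by
  decide +kernel

theorem k12 : chk C 0x88800 [(0, 2817498546176), (824633720832, 1649267441664), (0, 70368744177664)]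
    = true := by
  decide +kernel

theorem k13 : chk C 0x880888002 [(0, 2817498546176), (824633720832, 1649267441664), (70368744177664,
    140737488355328)] = true := by
  decide +kernel

theorem k14 : chk C 0x88811 [(2817498546176, 5634997092352), (0, 824633720832), (0,
    140737488355328)] = true := by
  decide +kernel

end Pool.Agent.Lib.MP_d6150d_an.BCR
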