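import Pool.Agent.Lib.MP_d6150d_an.BCRD

/-! A generated chart: the computations. -/

namespace Pool.Agent.Lib.MP_d6150d_an.BCR

theorem k15 : chk C 0x8880282 [(2817498546176, 5634997092352), (824633720832, 1649267441664), (0,
    140737488355328)] = true := by
  decide +kernel

theorem k16 : chk C 0x8818810 [(0, 2817498546176), (1649267441664, 3298534883328), (0,
    70368744177664)] = true := by
  decide +kernel

theorem k17 : chk C 0x880888020 [(0, 2817498546176), (1649267441664, 3298534883328),
    (70368744177664, 105553116266496)] = true := by
  decide +kernel

theorem k18 : chk C 0x880 [(0, 2817498546176), (1649267441664, 3298534883328), (105553116266496,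
    140737488355328)] = true := by
  decide +kernel

theorem k19 : chk C 0x888028812 [(2817498546176, 5634997092352), (1649267441664, 3298534883328), (0,
    140737488355328)] = true := by
  decide +kernel

theorem k20 : chk C 0x8818810 [(5634997092352, 11269994184704), (0, 824633720832), (0,
    140737488355328)] = true := by
  decide +kernel

end Pool.Agent.Lib.MP_d6150d_an.BCR
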