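import Pool.Agent.Lib.MP_d6150d_an.BCRD

/-! A generated chart: the computations. -/

namespace Pool.Agent.Lib.MP_d6150d_an.BCR

theorem k21 : chk C 0x8880282 [(5634997092352, 8452495638528), (824633720832, 1649267441664), (0,
    140737488355328)] = true := by
  decide +kernel

theorem k22 : chk C 0x88282 [(8452495638528, 11269994184704), (824633720832, 1649267441664), (0,
    140737488355328)] = true := by
  decide +kernel

theorem k23 : chk C 0x888028812 [(5634997092352, 8452495638528), (1649267441664, 3298534883328), (0,
    140737488355328)] = true := by
  decide +kernel

theorem k24 : chk C 0x888028812 [(8452495638528, 11269994184704), (1649267441664, 3298534883328),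
    (0, 140737488355328)] = true := by
  decide +kernel

theorem k25 : chk C 0x8818810 [(0, 2817498546176), (3298534883328, 4947802324992), (0,
    70368744177664)] = true := by
  decide +kernel

end Pool.Agent.Lib.MP_d6150d_an.BCR
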