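import Pool.Agent.Lib.MP_d6150d_an.BCRD

/-! A generated chart: the computations. -/

namespace Pool.Agent.Lib.MP_d6150d_an.BCR

theorem k26 : chk C 0x880888002 [(0, 2817498546176), (3298534883328, 4947802324992),
    (70368744177664, 140737488355328)] = true := by
  decide +kernel

theorem k27 : chk C 0x88088028802 [(0, 2817498546176), (4947802324992, 6597069766656), (0,
    140737488355328)] = true := by
  decide +kernel

theorem k28 : chk C 0x888028812 [(2817498546176, 5634997092352), (3298534883328, 4947802324992), (0,
    140737488355328)] = true := by
  decide +kernel

theorem k29 : chk C 0x888028812 [(2817498546176, 5634997092352), (4947802324992, 6597069766656), (0,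
    140737488355328)] = true := by
  decide +kernel

end Pool.Agent.Lib.MP_d6150d_an.BCR
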