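import Pool.Agent.Lib.MP_d6150d_an.BCRD

/-! A generated chart: the computations. -/

namespace Pool.Agent.Lib.MP_d6150d_an.BCR

theorem k30 : chk C 0x8818810 [(5634997092352, 11269994184704), (3298534883328, 4947802324992), (0,
    70368744177664)] = true := by
  decide +kernel

theorem k31 : chk C 0x8818810 [(5634997092352, 11269994184704), (4947802324992, 6597069766656), (0,
    70368744177664)] = true := by
  decide +kernel

theorem k32 : chk C 0x8808801 [(5634997092352, 8452495638528), (3298534883328, 6597069766656),
    (70368744177664, 105553116266496)] = true := by
  decide +kernel

theorem k33 : chk C 0x8808801 [(8452495638528, 11269994184704), (3298534883328, 6597069766656),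
    (70368744177664, 105553116266496)] = true := by
  decide +kernel

theorem k34 : chk C 0x8818810 [(5634997092352, 11269994184704), (3298534883328, 6597069766656),
    (105553116266496, 140737488355328)] = true := by
  decide +kernel

theorem k35 : chk C 0x8808801 [(0, 2817498546176), (6597069766656, 9895604649984), (0,
    70368744177664)] = true := by
  decide +kernel

end Pool.Agent.Lib.MP_d6150d_an.BCR
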