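import Pool.Agent.Lib.MP_d6150d_an.BCRD

/-! A generated chart: the computations. -/

namespace Pool.Agent.Lib.MP_d6150d_an.BCR

theorem k47 : chk C 0x8818810 [(5634997092352, 11269994184704), (6597069766656, 9895604649984),
    (105553116266496, 140737488355328)] = true := by
  decide +kernel

theorem k48 : chk C 0x88088188102 [(5634997092352, 11269994184704), (9895604649984, 13194139533312),
    (70368744177664, 140737488355328)] = true := by
  decide +kernel

theorem k49 : chk C 0x889189121 [(0, 1408749273088), (0, 1649267441664), (140737488355328,
    175921860444160)] = true := by
  decide +kernel

theorem k50 : chk C 0x8888111 [(1408749273088, 2817498546176), (0, 1649267441664), (140737488355328,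
    175921860444160)] = true := by
  decide +kernel

theorem k51 : chk C 0x89921 [(0, 1408749273088), (0, 1649267441664), (175921860444160,
    211106232532992)] = true := by
  decide +kernel

end Pool.Agent.Lib.MP_d6150d_an.BCR
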