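import Pool.Agent.Lib.MP_d6150d_an.BMac
import Pool.Agent.Lib.MP_d6150d_an.PpChk
import Pool.Agent.Lib.MP_d6150d_an.BCRK0
import Pool.Agent.Lib.MP_d6150d_an.BCRK1
import Pool.Agent.Lib.MP_d6150d_an.BCRK2
import Pool.Agent.Lib.MP_d6150d_an.BCRK3
import Pool.Agent.Lib.MP_d6150d_an.BCRK4
import Pool.Agent.Lib.MP_d6150d_an.BCRK5
import Pool.Agent.Lib.MP_d6150d_an.BCRK6
import Pool.Agent.Lib.MP_d6150d_an.BCRK7
import Pool.Agent.Lib.MP_d6150d_an.BCRK8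
import Pool.Agent.Lib.MP_d6150d_an.BCRK9
import Pool.Agent.Lib.MP_d6150d_an.BCRK10
import Pool.Agent.Lib.MP_d6150d_an.BCRK11
import Pool.Agent.Lib.MP_d6150d_an.BCRK12
import Pool.Agent.Lib.MP_d6150d_an.BCRK13

/-! A generated chart: the inequality. -/

namespace Pool.Agent.Lib.MP_d6150d_an.BCR

set_option linter.unnecessarySeqFocus false
set_option linter.unusedTactic false
set_option linter.unusedVariables false
set_option linter.unusedSimpArgs false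

theorem gd : Gd2 C [(0, 11269994184704), (0, 13194139533312), (0, 281474976710656)] := .split 2
    (.split 1 (.split 1 (.split 0 (.split 1 (.split 0 (.split 1 (.split 2 (.split 0 (.split 1
    (.split 2 (chk_sound2 k0) (.split 2 (.split 0 (.split 2 (chk_sound2 k1) (chk_sound2 k2))
    (chk_sound2 k3)) (chk_sound2 k4))) (chk_sound2 k5)) (chk_sound2 k6)) (.split 2 (.split 0 (.split
    2 (chk_sound2 k7) (chk_sound2 k8)) (chk_sound2 k9)) (.split 0 (chk_sound2 k10) (chk_sound2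
    k11)))) (.split 2 (chk_sound2 k12) (chk_sound2 k13))) (.split 1 (chk_sound2 k14) (chk_sound2
    k15))) (.split 0 (.split 2 (chk_sound2 k16) (.split 2 (chk_sound2 k17) (chk_sound2 k18)))
    (chk_sound2 k19))) (.split 1 (.split 1 (chk_sound2 k20) (.split 0 (chk_sound2 k21) (chk_sound2
    k22))) (.split 0 (chk_sound2 k23) (chk_sound2 k24)))) (.split 0 (.split 0 (.split 1 (.split 2
    (chk_sound2 k25) (chk_sound2 k26)) (chk_sound2 k27)) (.split 1 (chk_sound2 k28) (chk_sound2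
    k29))) (.split 2 (.split 1 (chk_sound2 k30) (chk_sound2 k31)) (.split 2 (.split 0 (chk_sound2
    k32) (chk_sound2 k33)) (chk_sound2 k34))))) (.split 0 (.split 1 (.split 0 (.split 2 (chk_sound2
    k35) (chk_sound2 k36)) (.split 2 (chk_sound2 k37) (chk_sound2 k38))) (.split 2 (chk_sound2 k39)
    (.split 0 (chk_sound2 k40) (chk_sound2 k41)))) (.split 2 (.split 1 (.split 1 (chk_sound2 k42)
    (chk_sound2 k43)) (chk_sound2 k44)) (.split 1 (.split 2 (.split 0 (chk_sound2 k45) (chk_sound2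
    k46)) (chk_sound2 k47)) (chk_sound2 k48))))) (.split 1 (.split 0 (.split 1 (.split 2 (.split 0
    (.split 1 (.split 2 (.split 0 (chk_sound2 k49) (chk_sound2 k50)) (.split 0 (chk_sound2 k51)
    (chk_sound2 k52))) (chk_sound2 k53)) (chk_sound2 k54)) (.split 0 (.split 1 (.split 2 (.split 0
    (chk_sound2 k55) (chk_sound2 k56)) (.split 0 (chk_sound2 k57) (chk_sound2 k58))) (chk_sound2
    k59)) (chk_sound2 k60))) (.split 0 (chk_sound2 k61) (chk_sound2 k62))) (.split 1 (.split 2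
    (.split 1 (chk_sound2 k63) (chk_sound2 k64)) (chk_sound2 k65)) (chk_sound2 k66))) (.split 0
    (.split 2 (chk_sound2 k67) (chk_sound2 k68)) (.split 2 (chk_sound2 k69) (chk_sound2 k70))))

set_option maxRecDepth 100000 in
theorem eq {f d u F sF a0 a1 a2 c0 c1 c2 z9 z10 z11 W z13 z14 z15 Y z17 P z19 Q z21 R tY V j iy w a
    b o z31 g V3 el eu z36 G z38 Z3 z40 Z4 : ℝ} (hF : F = (1 - f) * (1 / 4)) (hsF : sF = F * u) (ha0
    : a0 = 2 * sF) (ha1 : a1 = a0 - u) (ha2 : a2 = a1 - u) (hc0 : c0 = (1 - d) * (2 * F)) (hc1 : c1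
    = (1 - 2 * d) * (2 * F - 1)) (hc2 : c2 = d * (2 - 2 * F)) (hz9 : z9 = ph1 a0) (hz10 : z10 = ph1
    a1) (hz11 : z11 = ph1 a2) (hW : W = c0 * z9 - c1 * z10 + c2 * z11) (hz13 : z13 = ph2 a0) (hz14 :
    z14 = ph2 a1) (hz15 : z15 = ph2 a2) (hY : Y = c0 * z13 - c1 * z14 + c2 * z15) (hz17 : z17 =
    Real.exp a0) (hP : P = (1 - d) * z17) (hz19 : z19 = Real.exp a1) (hQ : Q = (1 - 2 * d) * z19)
    (hz21 : z21 = Real.exp a2) (hR : R = -(d * z21)) (htY : tY = 2 * (u * Y)) (hV : V = u * tY) (hj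
    : j = (√(16 + V))⁻¹) (hiy : iy = Real.exp (-sF)) (hw : w = 16 * (j * j)) (ha : a = 4 * (j * iy))
    (hb : b = a * w) (ho : o = 1 - w) (hz31 : z31 = (√(2 * Y))⁻¹) (hg : g = tY * z31 * iy) (hV3 : V3
    = V * V * V) (hel : el = 29 * d) (heu : eu = 1 + 25 * d) (hz36 : z36 = BB.Gb f d F sF P Q R Y W
    V 1 a b o g) (hG : G = 100 * (1 / 1048576 * z36)) (hz38 : z38 = BB.H3 f d F sF P Q R Y W a b o)
    (hZ3 : Z3 = 2560 * (1 / 1048576 * (V3 * z38))) (hz40 : z40 = BB.H4 f d F sF P Q R Y W a b o)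
    (hZ4 : Z4 = 256 * (1 / 1048576 * (V3 * V * z40))) : outR prog 0 [f, d, u] = G + el * (Z3 + el *
    Z4) ∧ outR prog 1 [f, d, u] = 2 * G + (el + eu) * Z3 + 2 * (el * (eu * Z4)) ∧ outR prog 2 [f, d,
    u] = G + eu * (Z3 + eu * Z4) := by
  replace hF : F = (((Int.cast (1) : ℝ) / (Nat.cast 4 : ℝ)) * ((Int.cast (1) : ℝ) - f)) := hF.trans
    (by push_cast <;> ring)
  replace hsF : sF = (F * u) := hsF.trans (by push_cast <;> ring)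
  replace ha0 : a0 = ((Int.cast (2) : ℝ) * sF) := ha0.trans (by push_cast <;> ring)
  replace ha1 : a1 = (a0 - u) := ha1.trans (by push_cast <;> ring)
  replace ha2 : a2 = (a1 - u) := ha2.trans (by push_cast <;> ring)
  replace hc0 : c0 = (((Int.cast (1) : ℝ) - d) * ((Int.cast (2) : ℝ) * F)) := hc0.trans (by
    push_cast <;> ring)
  replace hc1 : c1 = (((Int.cast (1) : ℝ) - ((Int.cast (2) : ℝ) * d)) * (((Int.cast (2) : ℝ) * F) -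
    (Int.cast (1) : ℝ))) := hc1.trans (by push_cast <;> ring)
  replace hc2 : c2 = (d * ((Int.cast (2) : ℝ) - ((Int.cast (2) : ℝ) * F))) := hc2.trans (by
    push_cast <;> ring)
  replace hW : W = (((c0 * z9) - (c1 * z10)) + (c2 * z11)) := hW.trans (by push_cast <;> ring)
  replace hY : Y = (((c0 * z13) - (c1 * z14)) + (c2 * z15)) := hY.trans (by push_cast <;> ring)
  replace hP : P = (((Int.cast (1) : ℝ) - d) * z17) := hP.trans (by push_cast <;> ring)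
  replace hQ : Q = (((Int.cast (1) : ℝ) - ((Int.cast (2) : ℝ) * d)) * z19) := hQ.trans (by push_cast
    <;> ring)
  replace hR : R = ((Int.cast (-1) : ℝ) * (d * z21)) := hR.trans (by push_cast <;> ring)
  replace htY : tY = ((Int.cast (2) : ℝ) * (u * Y)) := htY.trans (by push_cast <;> ring)
  replace hV : V = (u * tY) := hV.trans (by push_cast <;> ring)
  replace hj : j = (√((Int.cast (16) : ℝ) + V))⁻¹ := hj.trans (congrArg (fun x : ℝ ↦ (√x)⁻¹) (by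
    push_cast <;> ring))
  replace hiy : iy = (Real.exp ((Int.cast (-1) : ℝ) * sF)) := hiy.trans (congrArg Real.exp (by
    push_cast <;> ring))
  replace hw : w = ((Int.cast (16) : ℝ) * (j * j)) := hw.trans (by push_cast <;> ring)
  replace ha : a = ((Int.cast (4) : ℝ) * (j * iy)) := ha.trans (by push_cast <;> ring)
  replace hb : b = (a * w) := hb.trans (by push_cast <;> ring)
  replace ho : o = ((Int.cast (1) : ℝ) - w) := ho.trans (by push_cast <;> ring)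
  replace hz31 : z31 = (√((Int.cast (2) : ℝ) * Y))⁻¹ := hz31.trans (congrArg (fun x : ℝ ↦ (√x)⁻¹)
    (by push_cast <;> ring))
  replace hg : g = ((tY * z31) * iy) := hg.trans (by push_cast <;> ring)
  replace hV3 : V3 = ((V * V) * V) := hV3.trans (by push_cast <;> ring)
  replace hel : el = ((Int.cast (29) : ℝ) * d) := hel.trans (by push_cast <;> ring)
  replace heu : eu = ((Int.cast (1) : ℝ) + ((Int.cast (25) : ℝ) * d)) := heu.trans (by push_cast <;>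
    ring)
  replace hz36 : z36 = (BB.mC f d F sF P Q R Y W V a b o g).1 := hz36.trans (BB.mC_0 ..)
  replace hG : G = ((Int.cast (100) : ℝ) * (((Int.cast (1) : ℝ) / (Nat.cast 1048576 : ℝ)) * z36)) :=
    hG.trans (by push_cast <;> ring)
  replace hz38 : z38 = (BB.mC f d F sF P Q R Y W V a b o g).2.1 := hz38.trans (BB.mC_1 ..)
  replace hZ3 : Z3 = ((Int.cast (2560) : ℝ) * (((Int.cast (1) : ℝ) / (Nat.cast 1048576 : ℝ)) * (V3 *
    z38))) := hZ3.trans (by push_cast <;> ring)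
  replace hz40 : z40 = (BB.mC f d F sF P Q R Y W V a b o g).2.2 := hz40.trans (BB.mC_2 ..)
  replace hZ4 : Z4 = ((Int.cast (256) : ℝ) * (((Int.cast (1) : ℝ) / (Nat.cast 1048576 : ℝ)) * ((V3 *
    V) * z40))) := hZ4.trans (by push_cast <;> ring)
  have e0 : (G + (el * (Z3 + (el * Z4)))) = G + el * (Z3 + el * Z4) := by push_cast <;> ring
  have e1 : ((((Int.cast (2) : ℝ) * G) + ((el + eu) * Z3)) + ((Int.cast (2) : ℝ) * (el * (eu *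
    Z4)))) = 2 * G + (el + eu) * Z3 + 2 * (el * (eu * Z4)) := by push_cast <;> ring
  have e2 : (G + (eu * (Z3 + (eu * Z4)))) = G + eu * (Z3 + eu * Z4) := by push_cast <;> ring
  subst hF hsF ha0 ha1 ha2 hc0 hc1 hc2 hz9 hz10 hz11 hW hz13 hz14 hz15 hY hz17 hP hz19 hQ hz21 hR
    htY hV hj hiy hw ha hb ho hz31 hg hV3 hel heu hz36 hG hz38 hZ3 hz40 hZ4
  refine ⟨Eq.trans ?_ e0, Eq.trans ?_ e1, Eq.trans ?_ e2⟩ <;>
    simp only [outR, prog, prog1, prog2, prog3, prog4, prog5, prog6, prog7, prog8, runR, stepR, gtR,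
      List.take, BB.mO, BB.mC]

theorem l0 : ((0 : ℤ) : ℝ) / 2 ^ 47 = 0 := by norm_num
theorem u0 : (41 / 512 : ℝ) = ((11269994184704 : ℤ) : ℝ) / 2 ^ 47 := by norm_num
theorem l1 : ((0 : ℤ) : ℝ) / 2 ^ 47 = 0 := by norm_num
theorem u1 : (3 / 32 : ℝ) = ((13194139533312 : ℤ) : ℝ) / 2 ^ 47 := by norm_num
theorem l2 : ((0 : ℤ) : ℝ) / 2 ^ 47 = 0 := by norm_num
theorem u2 : (2 : ℝ) = ((281474976710656 : ℤ) : ℝ) / 2 ^ 47 := by norm_num

theorem out0 (V2 : ∀ f d : ℝ, 0 ≤ f → f ≤ 41 / 512 → 0 ≤ d → d ≤ 3 / 32 → (fun u ↦ outR prog 0 [f,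
    d, u]) =O[nhdsWithin 0 (Set.Ioi 0)] fun u : ℝ ↦ u ^ 7) (N : ∀ u : ℝ, 0 ≤ u → u ≤ 2 → 0 ≤ outR
    prog 0 [0, 0, u]) {f d u : ℝ} (a0 : 0 ≤ f) (b0 : f ≤ 41 / 512) (a1 : 0 ≤ d) (b1 : d ≤ 3 / 32)
    (a2 : 0 ≤ u) (b2 : u ≤ 2) (p2 : 0 < u) (pc : 0 < f ∨ 0 < d) : 0 < outR prog 0 [f, d, u] :=
  gd 0 (by decide) [f, d, u] (.cons ⟨l0.le.trans a0, b0.trans u0.le⟩ (.cons ⟨l1.le.trans a1,
    b1.trans u1.le⟩ (.cons ⟨l2.le.trans a2, b2.trans u2.le⟩ (.nil)))) ⟨nofun, nofun, fun _ ↦ p2,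
    trivial⟩ (fun _ ↦ pc.elim (fun h ↦ .inl ⟨rfl, h⟩) (fun h ↦ .inr (.inl ⟨rfl, h⟩)))
    (List.forall_mem_nil _) (⟨fun _ ↦ allB_iff.2 fun _ _ ↦ trivial, fun y0 a0 b0 ↦ ⟨fun _ ↦
    allB_iff.2 fun _ _ ↦ trivial, fun y1 a1 b1 ↦ ⟨fun _ ↦ V2 y0 y1 (l0.ge.trans a0) (b0.trans u0.ge)
    (l1.ge.trans a1) (b1.trans u1.ge), fun _ _ _ ↦ trivial⟩⟩⟩) (fun _ _ _ _ _ _ _ y2 a2 b2 ↦ N y2
    (l2.ge.trans a2) (b2.trans u2.ge))

theorem out1 (V2 : ∀ f d : ℝ, 0 ≤ f → f ≤ 41 / 512 → 0 ≤ d → d ≤ 3 / 32 → (fun u ↦ outR prog 1 [f,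
    d, u]) =O[nhdsWithin 0 (Set.Ioi 0)] fun u : ℝ ↦ u ^ 7) (N : ∀ u : ℝ, 0 ≤ u → u ≤ 2 → 0 ≤ outR
    prog 1 [0, 0, u]) {f d u : ℝ} (a0 : 0 ≤ f) (b0 : f ≤ 41 / 512) (a1 : 0 ≤ d) (b1 : d ≤ 3 / 32)
    (a2 : 0 ≤ u) (b2 : u ≤ 2) (p2 : 0 < u) (pc : 0 < f ∨ 0 < d) : 0 < outR prog 1 [f, d, u] :=
  gd 1 (by decide) [f, d, u] (.cons ⟨l0.le.trans a0, b0.trans u0.le⟩ (.cons ⟨l1.le.trans a1,
    b1.trans u1.le⟩ (.cons ⟨l2.le.trans a2, b2.trans u2.le⟩ (.nil)))) ⟨nofun, nofun, fun _ ↦ p2,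
    trivial⟩ (fun _ ↦ pc.elim (fun h ↦ .inl ⟨rfl, h⟩) (fun h ↦ .inr (.inl ⟨rfl, h⟩)))
    (List.forall_mem_nil _) (⟨fun _ ↦ allB_iff.2 fun _ _ ↦ trivial, fun y0 a0 b0 ↦ ⟨fun _ ↦
    allB_iff.2 fun _ _ ↦ trivial, fun y1 a1 b1 ↦ ⟨fun _ ↦ V2 y0 y1 (l0.ge.trans a0) (b0.trans u0.ge)
    (l1.ge.trans a1) (b1.trans u1.ge), fun _ _ _ ↦ trivial⟩⟩⟩) (fun _ _ _ _ _ _ _ y2 a2 b2 ↦ N y2
    (l2.ge.trans a2) (b2.trans u2.ge))

theorem out2 (V2 : ∀ f d : ℝ, 0 ≤ f → f ≤ 41 / 512 → 0 ≤ d → d ≤ 3 / 32 → (fun u ↦ outR prog 2 [f,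
    d, u]) =O[nhdsWithin 0 (Set.Ioi 0)] fun u : ℝ ↦ u ^ 7) (N : ∀ u : ℝ, 0 ≤ u → u ≤ 2 → 0 ≤ outR
    prog 2 [0, 0, u]) {f d u : ℝ} (a0 : 0 ≤ f) (b0 : f ≤ 41 / 512) (a1 : 0 ≤ d) (b1 : d ≤ 3 / 32)
    (a2 : 0 ≤ u) (b2 : u ≤ 2) (p2 : 0 < u) (pc : 0 < f ∨ 0 < d) : 0 < outR prog 2 [f, d, u] :=
  gd 2 (by decide) [f, d, u] (.cons ⟨l0.le.trans a0, b0.trans u0.le⟩ (.cons ⟨l1.le.trans a1,
    b1.trans u1.le⟩ (.cons ⟨l2.le.trans a2, b2.trans u2.le⟩ (.nil)))) ⟨nofun, nofun, fun _ ↦ p2,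
    trivial⟩ (fun _ ↦ pc.elim (fun h ↦ .inl ⟨rfl, h⟩) (fun h ↦ .inr (.inl ⟨rfl, h⟩)))
    (List.forall_mem_nil _) (⟨fun _ ↦ allB_iff.2 fun _ _ ↦ trivial, fun y0 a0 b0 ↦ ⟨fun _ ↦
    allB_iff.2 fun _ _ ↦ trivial, fun y1 a1 b1 ↦ ⟨fun _ ↦ V2 y0 y1 (l0.ge.trans a0) (b0.trans u0.ge)
    (l1.ge.trans a1) (b1.trans u1.ge), fun _ _ _ ↦ trivial⟩⟩⟩) (fun _ _ _ _ _ _ _ y2 a2 b2 ↦ N y2
    (l2.ge.trans a2) (b2.trans u2.ge))

end Pool.Agent.Lib.MP_d6150d_an.BCR
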