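import Pool.Agent.Lib.MP_d6150d_an.GDef

/-! A generated chart: the program. -/

namespace Pool.Agent.Lib.MP_d6150d_an.BCR

def prog8 : List Ins := .smul 256 0 :: .mul 90 0 :: .add true 42 0 :: .mul 92 0 :: .add false 94 0
    :: .smul 2 95 :: .smul 25 403 :: .add false 410 0 :: .add false 97 0 :: .mul 0 49 :: .add false
    4 0 :: .mul 3 10 :: .mul 101 0 :: .smul 2 0 :: .add false 3 0 :: .add true 55 3 :: .mul 8 0 ::
    .add false 107 0 :: .cpy 0 :: .cpy 4 :: .cpy 15 :: []

def prog7 : List Ins := .add false 1 0 :: .mul 127 0 :: .add true 4 0 :: .mul 129 0 :: .add true 13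
    0 :: .mul 175 0 :: .sub true 19 0 :: .mul 45 0 :: .mul 363 0 :: .smul 2560 0 :: .mul 48 252 ::
    .smul 9584 279 :: .smul 95840 271 :: .add false 1 0 :: .smul 215640 268 :: .add false 1 0 ::
    .smul 71880 251 :: .add false 1 0 :: .smul (-8985) 239 :: .add false 1 0 :: .smul 3360 288 ::
    .smul 33600 280 :: .add false 1 0 :: .smul 75600 277 :: .add false 1 0 :: .smul 25200 260 ::
    .add false 1 0 :: .smul (-3150) 248 :: .add true 1 0 :: .mul 376 0 :: .add false 10 0 :: .smul
    (-696) 383 :: .smul (-193) 379 :: .add false 1 0 :: .mul 214 0 :: .sub false 4 0 :: .int (-8985)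
    :: .smul (-3150) 384 :: .add false 1 0 :: .sub true 392 165 :: .mul 0 0 :: .mul 2 0 :: .smul
    6210 394 :: .smul (-11700) 390 :: .add false 1 0 :: .add false 3 0 :: .mul 216 0 :: .sub true 11
    0 :: .mul 37 0 :: .mul 404 0 :: prog8

def prog6 : List Ins := .mul 76 0 :: .add true 9 0 :: .mul 78 0 :: .add true 80 0 :: .mul 124 0 ::
    .sub true 129 0 :: .mul 162 0 :: .add true 164 0 :: .mul 313 0 :: .smul 100 0 :: .smul 29 307 ::
    .mul 167 203 :: .smul 71088 230 :: .smul 427344 222 :: .add false 1 0 :: .smul 323568 219 ::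
    .add false 1 0 :: .smul (-104796) 202 :: .add false 1 0 :: .smul 39681 190 :: .add false 1 0 ::
    .smul 713600 239 :: .smul 6285200 231 :: .add false 1 0 :: .smul 12227400 228 :: .add false 1 0
    :: .smul 3437700 211 :: .add false 1 0 :: .smul (-349950) 199 :: .add true 1 0 :: .mul 327 0 ::
    .add false 10 0 :: .smul (-15200) 334 :: .smul (-7760) 330 :: .add false 1 0 :: .mul 165 0 ::
    .sub false 4 0 :: .int 39681 :: .smul (-349950) 335 :: .add false 1 0 :: .sub false 0 5 :: .int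
    26964 :: .smul 1018950 339 :: .add false 1 0 :: .smul 16400 346 :: .smul 17900 342 :: .add false
    1 0 :: .add false 3 0 :: .int (-66645) :: .smul (-669000) 346 :: prog7

def prog5 : List Ins := .smul 11886 247 :: .add false 1 0 :: .smul 10416 64 :: .add false 1 0 ::
    .smul 180320 63 :: .add false 1 0 :: .int (-17893) :: .smul (-45478) 254 :: .add false 1 0 ::
    .smul (-123760) 71 :: .add false 1 0 :: .int 26927 :: .smul 53854 259 :: .add false 1 0 :: .smul
    (-13171) 264 :: .add true 1 0 :: .mul 266 0 :: .add true 6 0 :: .mul 268 0 :: .add true 13 0 ::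
    .mul 270 0 :: .add true 22 0 :: .mul 272 0 :: .add true 33 0 :: .mul 47 0 :: .int 263844000 ::
    .smul 13106772000 273 :: .add false 1 0 :: .mul 0 71 :: .add false 4 0 :: .int (-490636440) ::
    .smul 21555072000 278 :: .add true 1 0 :: .mul 0 70 :: .add true 4 0 :: .mul 103 0 :: .smul 32 0
    :: .smul 3 66 :: .add false 1 0 :: .smul 128 0 :: .smul 256 117 :: .sub false 1 0 :: .int
    (-4121640) :: .smul (-738108000) 290 :: .add false 1 0 :: .smul 211000 297 :: .smul (-656000)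
    293 :: .add false 1 0 :: .smul 256 0 :: .add true 4 0 :: prog6

def prog4 : List Ins := .add false 1 0 :: .smul (-103) 201 :: .add true 1 0 :: .mul 203 0 :: .add
    true 6 0 :: .mul 205 0 :: .add true 13 0 :: .mul 22 0 :: .int 41508000 :: .smul (-2952396000)
    206 :: .add true 1 0 :: .sub false 214 211 :: .add true 0 200 :: .mul 2 0 :: .add true 6 0 ::
    .mul 33 0 :: .smul 126 0 :: .int (-82621) :: .smul 1703200 215 :: .add false 1 0 :: .add false 3
    0 :: .sub false 0 48 :: .smul 256 0 :: .sub true 226 45 :: .int 125496000 :: .smul (-1337760000)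
    222 :: .add true 1 0 :: .int (-8) :: .smul (-20) 225 :: .add false 1 0 :: .smul 28 42 :: .add
    false 1 0 :: .smul 4760 41 :: .add false 1 0 :: .mul 46 46 :: .smul (-44800) 0 :: .add false 2 0
    :: .mul 2 234 :: .smul 62720 0 :: .add false 2 0 :: .int (-296) :: .smul (-802) 238 :: .add
    false 1 0 :: .smul (-1596) 55 :: .add false 1 0 :: .smul 49280 54 :: .add false 1 0 :: .smul
    (-156800) 12 :: .add false 1 0 :: .int 4441 :: prog5

def prog3 : List Ins := .add false 1 0 :: .smul (-82621) 22 :: .add false 1 0 :: .smul 4470400 71 ::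
    .smul 30432000 63 :: .add false 1 0 :: .smul 34191200 60 :: .add false 1 0 :: .smul (-752800) 43
    :: .add false 1 0 :: .smul 1703200 31 :: .add true 1 0 :: .mul 159 0 :: .add false 10 0 :: .int
    16 :: .add false 0 57 :: .rsq 0 :: .mul 0 29 :: .smul 4 0 :: .mul 0 40 :: .smul (-102000) 172 ::
    .smul (-4820) 168 :: .add false 1 0 :: .mul 3 0 :: .sub false 10 0 :: .smul 256 0 :: .mul 9 9 ::
    .smul 16 0 :: .mul 9 0 :: .mul 0 50 :: .cst 1 136080 :: .mul 0 181 :: .int (-13944000) :: .smul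
    148640000 180 :: .add true 1 0 :: .smul 6 182 :: .add false 142 0 :: .mul 184 184 :: .smul (-60)
    0 :: .add false 2 0 :: .mul 2 187 :: .smul 320 0 :: .add false 2 0 :: .int (-57) :: .smul (-102)
    191 :: .add false 1 0 :: .smul (-480) 8 :: .add false 1 0 :: .int 156 :: .smul 312 196 :: prog4

def prog2 : List Ins := .add false 1 0 :: .smul 74320000 5 :: .add true 1 0 :: .mul 100 0 :: .add
    false 6 0 :: .mul 104 75 :: .smul 2 0 :: .mul 106 0 :: .smul 2318400 26 :: .smul 6032800 18 ::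
    .add false 1 0 :: .smul 816400 15 :: .add false 1 0 :: .mul 18 23 :: .mul 83 0 :: .smul 230600 0
    :: .add false 3 0 :: .smul 3739200 35 :: .smul 76826400 27 :: .add false 1 0 :: .smul 68413200
    24 :: .add false 1 0 :: .smul (-16402200) 7 :: .add true 1 0 :: .mul 121 0 :: .add true 8 0 ::
    .mul 18 0 :: .add false 22 0 :: .mul 14 39 :: .int 13944000 :: .smul (-148640000) 127 :: .add
    true 1 0 :: .mul 0 132 :: .smul 2 103 :: .rsq 0 :: .mul 28 0 :: .smul (-1) 134 :: .exp 0 :: .mul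
    2 0 :: .mul 6 0 :: .mul 11 0 :: .add false 13 0 :: .smul 256 0 :: .mul 35 35 :: .smul 53136 62
    :: .smul (-93648) 54 :: .add false 1 0 :: .smul (-548240) 51 :: .add false 1 0 :: .smul 60988 34
    :: prog3

def prog1 : List Ins := .sub true 2 0 :: .mul 5 0 :: .mul 5 2 :: .smul 4 18 :: .sub true 0 18 ::
    .sub true 2 0 :: .add false 4 0 :: .mul 17 0 :: .mul 8 7 :: .smul 3 0 :: .sub true 2 0 :: .mul
    18 0 :: .smul 3 6 :: .sub true 6 0 :: .mul 14 0 :: .mul 19 9 :: .mul 19 11 :: .smul 8 32 :: .sub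
    false 0 32 :: .sub false 2 0 :: .add true 4 0 :: .mul 31 0 :: .add false 7 0 :: .mul 18 22 ::
    .smul 3 0 :: .sub false 2 0 :: .add true 14 0 :: .mul 37 0 :: .mul 28 17 :: .smul 5 0 :: .sub
    true 2 0 :: .mul 47 0 :: .smul 27888000 0 :: .mul 50 22 :: .mul 78 75 :: .mul 70 67 :: .sub
    false 1 0 :: .mul 63 60 :: .add false 1 0 :: .mul 0 0 :: .mul 6 0 :: .smul 27888000 0 :: .add
    false 9 0 :: .mul 61 42 :: .mul 4 4 :: .mul 1 0 :: .smul (-6972000) 0 :: .add false 4 0 :: .smul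
    (-297280000) 16 :: .smul (-297280000) 8 :: prog2

def prog : List Ins := .cst 1 1048576 :: .cst 1 4 :: .int 1 :: .var 0 :: .sub false 1 0 :: .mul 3 0
    :: .var 2 :: .mul 1 0 :: .var 1 :: .sub false 6 0 :: .smul 2 4 :: .mul 1 0 :: .smul 2 4 :: .tri
    0 :: .mul 4 0 :: .smul 2 8 :: .sub true 15 0 :: .sub true 8 16 :: .mul 1 0 :: .sub true 8 14 ::
    .tri 0 :: .mul 4 0 :: .sub false 9 0 :: .int 2 :: .sub true 0 17 :: .mul 20 0 :: .sub false 8 23
    :: .tri 0 :: .mul 4 0 :: .add false 8 0 :: .mul 28 0 :: .mul 0 1 :: .mul 0 2 :: .mul 0 3 :: .mul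
    30 26 :: .mul 22 18 :: .sub false 1 0 :: .mul 34 11 :: .smul (-1) 0 :: .add true 2 0 :: .int 6
    :: .smul 5 41 :: .sub true 1 0 :: .int 4 :: .smul 3 44 :: .sub true 1 0 :: .sub true 24 46 ::
    .mul 0 7 :: .smul 2 13 :: .sub true 0 13 :: prog1

def vs : List Vr := [⟨3, 0, false, true⟩, ⟨3, 0, false, true⟩, ⟨14, 7, false, false⟩]

def C : Chart := ⟨vs, prog, [], 3, 4⟩

end Pool.Agent.Lib.MP_d6150d_an.BCR
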