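import Pool.Agent.Lib.MP_d6150d_an.BCRD

/-! A generated chart: the computations. -/

namespace Pool.Agent.Lib.MP_d6150d_an.BCR

theorem k41 : chk C 0x88812 [(2817498546176, 5634997092352), (9895604649984, 13194139533312),
    (70368744177664, 140737488355328)] = true := by
  decide +kernel

theorem k42 : chk C 0x8818810 [(5634997092352, 11269994184704), (6597069766656, 8246337208320), (0,
    70368744177664)] = true := by
  decide +kernel

theorem k43 : chk C 0x8818800 [(5634997092352, 11269994184704), (8246337208320, 9895604649984), (0,
    70368744177664)] = true := by
  decide +kernel

theorem k44 : chk C 0x8808801 [(5634997092352, 11269994184704), (9895604649984, 13194139533312), (0,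
    70368744177664)] = true := by
  decide +kernel

theorem k45 : chk C 0x88801 [(5634997092352, 8452495638528), (6597069766656, 9895604649984),
    (70368744177664, 105553116266496)] = true := by
  decide +kernel

theorem k46 : chk C 0x8808801 [(8452495638528, 11269994184704), (6597069766656, 9895604649984),
    (70368744177664, 105553116266496)] = true := by
  decide +kernel

end Pool.Agent.Lib.MP_d6150d_an.BCR
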