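import Pool.Agent.Lib.MP_d6150d_an.BFam

/-! The strip `B`: the center. -/

namespace Pool.Agent.Lib.MP_d6150d_an.BB

open Real Set Filter Topology Asymptotics

variable {f d F e t : ℝ}

theorem jB_pos {v : ℝ} (hv : 0 ≤ v) : 0 < jB v := by
  rw [jB]; positivity

theorem jB_sq {v : ℝ} (hv : 0 ≤ v) : jB v ^ 2 * (16 + v) = 16 := by
  have h : 0 < 16 + v := by linarith
  rw [jB, mul_pow, inv_pow, sq_sqrt h.le]; field_simp; ring

theorem jB_zero : jB 0 = 1 := by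
  rw [jB, show (16 : ℝ) + 0 = 4 ^ 2 by norm_num, sqrt_sq (by norm_num)]; norm_num

theorem jB_cont : ContinuousAt jB 0 := by
  unfold jB
  exact continuousAt_const.mul (ContinuousAt.inv₀ (by fun_prop) (sqrt_pos.2 (by norm_num)).ne')

theorem Ek_exp (s n m c s' i β' c' : ℝ) {j v : ℝ} (hj : 0 < j) (h : j ^ 2 * (16 + v) = 16) :
    Ek s (n - s) (16 * m + 3 / 2 * n - s) c j (j ^ 3) (1 - j ^ 2) = n + m * v + v ^ 2 *
      (n * (j ^ 2 / (16 * (1 + j))) * (1 + 2 * j) / (32 * (1 + j)) -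
        (16 * m + n / 2) * (j ^ 2 / (16 * (1 + j))) * (1 + j + j ^ 2) / 16 +
        j ^ 5 * (c * j ^ 2 - (16 * m + 3 / 2 * n - s)) / 256) ∧
    Ek s' (i - s') β' c' j (j ^ 3) (1 - j ^ 2) = i + v * (-(j ^ 2 / (16 * (1 + j))) * i +
      j ^ 3 * (j ^ 2 * (β' + (1 - j ^ 2) * c') - (i - s')) / 16) := by
  obtain rfl : v = 16 * (1 - j ^ 2) / j ^ 2 := by field_simp; linarith
  simp only [Ek]
  constructor <;> field_simp <;> ring

theorem E_exp (f d F e : ℝ) : ∃ E : ℝ → ℝ, ContinuousAt E 0 ∧ ∀ v, 0 ≤ v → EB f d F e v =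
    n0 d F * v ^ 2 + (m6 d F + -3 * (p3 d + q3 d) * e) * v ^ 3 + v ^ 4 * E v := by
  simp only [EB, E2, E3, E4]
  generalize s2 f d = s, n0 d F = n, m6 d F = m, (-515205 / 32 - 23065875 / 8 * d + _) = c, s3 f d = s',
    -3 * (p3 d + q3 d) = i, (26964 + 1018950 * d + _) = β', (-66645 - 669000 * d) = c'
  generalize (-15 * p4 d + _) = α''
  generalize s4 f d = s'', 30 * p4 d = β'', -15 * p4 d = c''
  refine ⟨(fun j ↦ (n * (j ^ 2 / (16 * (1 + j))) * (1 + 2 * j) / (32 * (1 + j)) -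
        (16 * m + n / 2) * (j ^ 2 / (16 * (1 + j))) * (1 + j + j ^ 2) / 16 +
        j ^ 5 * (c * j ^ 2 - (16 * m + 3 / 2 * n - s)) / 256) + e * (-(j ^ 2 / (16 * (1 + j))) * i +
      j ^ 3 * (j ^ 2 * (β' + (1 - j ^ 2) * c') - (i - s')) / 16) +
      e ^ 2 * Ek s'' α'' β'' c'' j (j ^ 3) (1 - j ^ 2)) ∘ jB, ContinuousAt.comp ?_ jB_cont,
    fun v hv ↦ ?_⟩
  · rw [jB_zero]; simp only [Ek]; fun_prop (disch := norm_num)
  · obtain ⟨h1, h2⟩ := Ek_exp s n m c s' i β' c' (jB_pos hv) (jB_sq hv)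
    rw [h1, h2]; simp only [Function.comp]; ring

theorem Z_bigO (f d F e : ℝ) : ZB f d F e =O[𝓝 0] fun t ↦ t ^ 7 := by
  obtain ⟨E, hE, h⟩ := E_exp f d F e
  have J : Jet (-d) F (fun t ↦ F * (op d e).K (-d) F t + (op d e).C0 (vR (-d) F t)) 0 0 0 0 (n0 d F) 0
      (m6 d F + -3 * (p3 d + q3 d) * e) :=
    ((((Jet.const F).mul (op d e).K_jet6).add (Jet.poly 0 0 (-(p2 d + q2 d + r2 d))
      (-3 * (p3 d + q3 d) * e) (-15 * p4 d * e ^ 2))).congr
      (fun t _ ↦ by simp only [op, Gp.C0]; ring)).cast (by ring) (by ring) (by ring)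
      (by simp only [op]; ring) (by simp only [op, n0]; ring) (by simp only [op]; ring)
      (by simp only [op, m6]; ring)
  have c : ContinuousAt (fun t ↦ exp (-(F * t))) 0 := by fun_prop
  refine ((J.center7 hE).mul (c.isBigO_one ℝ)).congr' ?_ (by simp)
  filter_upwards [(JR_open (-d)).mem_nhds (zero_mem_JR (-d))] with t ht
  rw [ZB, h _ (by rw [← gR_sq ht]; positivity)]

/-- the value and the polar form of a quadratic polynomial -/
def b0 (A B C x : ℝ) : ℝ := A + x * (B + x * C)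
def b1 (A B C x y : ℝ) : ℝ := 2 * A + (x + y) * B + 2 * (x * (y * C))

theorem b1_eq (A B C x y : ℝ) : b1 A B C x y = 4 * b0 A B C ((x + y) / 2) - b0 A B C x - b0 A B C y := by
  simp only [b0, b1]; ring

theorem bern {A B C x y e σ : ℝ} (h0 : 0 < σ * b0 A B C x) (h1 : 0 < σ * b1 A B C x y)
    (h2 : 0 < σ * b0 A B C y) (l : x ≤ e) (u : e ≤ y) : 0 < σ * b0 A B C e := by
  rcases l.eq_or_lt with rfl | l
  · exact h0
  refine (mul_pos_iff_of_pos_left (pow_pos (sub_pos.2 (l.trans_le u)) 2)).1 ?_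
  have := add_pos_of_nonneg_of_pos (add_nonneg (mul_nonneg (sq_nonneg (y - e)) h0.le)
    (mul_nonneg (mul_nonneg (sub_pos.2 l).le (sub_nonneg.2 u)) h1.le))
    (mul_pos (pow_pos (sub_pos.2 l) 2) h2)
  simp only [b0, b1] at this ⊢
  linarith

section

variable (f d t)

noncomputable def cF : ℝ := (1 - f) * (1 / 4)
noncomputable def ca0 : ℝ := 2 * (cF f * t)
noncomputable def ca1 : ℝ := ca0 f t - t
noncomputable def ca2 : ℝ := ca1 f t - t
noncomputable def cW : ℝ := (1 - d) * (2 * cF f) * ph1 (ca0 f t) -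
  (1 - 2 * d) * (2 * cF f - 1) * ph1 (ca1 f t) + d * (2 - 2 * cF f) * ph1 (ca2 f t)
noncomputable def cY : ℝ := (1 - d) * (2 * cF f) * ph2 (ca0 f t) -
  (1 - 2 * d) * (2 * cF f - 1) * ph2 (ca1 f t) + d * (2 - 2 * cF f) * ph2 (ca2 f t)
noncomputable def cV : ℝ := t * (2 * (t * cY f d t))
noncomputable def cj : ℝ := (√(16 + cV f d t))⁻¹
noncomputable def ca : ℝ := 4 * (cj f d t * exp (-(cF f * t)))
noncomputable def cw : ℝ := 16 * (cj f d t * cj f d t)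
noncomputable def cG : ℝ := Gb f d (cF f) (cF f * t) ((1 - d) * exp (ca0 f t))
  ((1 - 2 * d) * exp (ca1 f t)) (-(d * exp (ca2 f t))) (cY f d t) (cW f d t) (cV f d t) 1 (ca f d t)
  (ca f d t * cw f d t) (1 - cw f d t) (2 * (t * cY f d t) * (√(2 * cY f d t))⁻¹ * exp (-(cF f * t)))
noncomputable def c3 : ℝ := H3 f d (cF f) (cF f * t) ((1 - d) * exp (ca0 f t))
  ((1 - 2 * d) * exp (ca1 f t)) (-(d * exp (ca2 f t))) (cY f d t) (cW f d t) (ca f d t)
  (ca f d t * cw f d t) (1 - cw f d t)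
noncomputable def c4 : ℝ := H4 f d (cF f) (cF f * t) ((1 - d) * exp (ca0 f t))
  ((1 - 2 * d) * exp (ca1 f t)) (-(d * exp (ca2 f t))) (cY f d t) (cW f d t) (ca f d t)
  (ca f d t * cw f d t) (1 - cw f d t)
noncomputable def cA : ℝ := 100 * (1 / 1048576 * cG f d t)
noncomputable def cB : ℝ := 2560 * (1 / 1048576 * (cV f d t * cV f d t * cV f d t * c3 f d t))
noncomputable def cC : ℝ :=
  256 * (1 / 1048576 * (cV f d t * cV f d t * cV f d t * cV f d t * c4 f d t))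
noncomputable def cq (x : ℝ) : ℝ := b0 (cA f d t) (cB f d t) (cC f d t) x
noncomputable def cp (x y : ℝ) : ℝ := b1 (cA f d t) (cB f d t) (cC f d t) x y

end

theorem cW_eq (h0 : t ≠ 0) : cW f d t = exp ((2 * cF f - 2) * t) * (ph1 t * om (-d) t) := by
  have k0 := cexp (2 * cF f) t
  have k1 := cexp (2 * cF f - 1) t
  have k2 := cexp (2 * cF f - 2) t
  have k3 := exp_eq_ph t
  rw [exp_a1] at k0
  rw [exp_a2] at k1
  apply mul_left_cancel₀ h0
  rw [cW, show ca2 f t = (2 * cF f - 2) * t by simp only [ca2, ca1, ca0]; ring,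
    show ca1 f t = (2 * cF f - 1) * t by simp only [ca1, ca0]; ring,
    show ca0 f t = 2 * cF f * t by simp only [ca0]; ring, om]
  linear_combination (1 - d) * k0 - (1 - 2 * d) * k1 - d * k2 +
    exp ((2 * cF f - 2) * t) * ((1 - d) * exp t + d) * k3

theorem cen_id (d0 : 0 ≤ d) (d1 : d ≤ 3 / 32) (h0 : t ≠ 0) (x : ℝ) :
    cq f d t x = 25 / 1024 * cW f d t ^ 7 * ZB f d (cF f) (x / 10) t := by
  have ht := mem_JR d0 d1 t
  have a2 : ca2 f t = (2 * cF f - 2) * t := by simp only [ca2, ca1, ca0]; ring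
  have a1 : ca1 f t = (2 * cF f - 1) * t := by simp only [ca1, ca0]; ring
  have a0 : ca0 f t = 2 * cF f * t := by simp only [ca0]; ring
  have hY : 2 * cY f d t = muR (-d) (cF f) t := by rw [cY, a0, a1, a2, muR]; ring
  have hV : cV f d t = 1 * vR (-d) (cF f) t := by rw [cV, vR, ← hY]; ring
  have hj : cj f d t = jB (vR (-d) (cF f) t) / 4 := by rw [cj, hV, jB, one_mul]; ring
  have := master (f := f) (l := exp ((2 * cF f - 2) * t)) (P := (1 - d) * exp (ca0 f t))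
    (Q := (1 - 2 * d) * exp (ca1 f t)) (R := -(d * exp (ca2 f t))) (Y := cY f d t) (W := cW f d t)
    (a := ca f d t) (b := ca f d t * cw f d t) (o := 1 - cw f d t)
    (g := 2 * (t * cY f d t) * (√(2 * cY f d t))⁻¹ * exp (-(cF f * t))) ht h0 h0 (mul_comm _ _)
    (by rw [a0, exp_a1, PR]; ring) (by rw [a1, exp_a2, QR]; ring) (by rw [a2]; ring)
    (by rw [yR, vR, ← hY]; linear_combination (-t ^ 2 * cY f d t) * exp_y (F := cF f) t)
    (by rw [cW_eq h0, wR_eq, exp_eq_ph t]; ring) hV (by rw [ca, hj]; ring) (by rw [ca, cw, hj]; ring)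
    (by rw [cw, hj]; ring)
    (by rw [gR, ← hY]; linear_combination t * exp (-(cF f * t)) * div_sqrt (x := 2 * cY f d t)) (x / 10)
  rw [one_mul] at hV
  rw [← hV] at this
  simp only [cq, b0, cA, cB, cC, cG, c3, c4]
  linear_combination 100 / 1048576 * this

theorem cW_pos (d0 : 0 ≤ d) (d1 : d ≤ 3 / 32) (h0 : t ≠ 0) : 0 < cW f d t := by
  rw [cW_eq h0]; exact mul_pos (exp_pos _) (mul_pos (ph1_pos t) (mem_JR d0 d1 t))

theorem cq_bigO (d0 : 0 ≤ d) (d1 : d ≤ 3 / 32) (x : ℝ) :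
    (fun t ↦ cq f d t x) =O[𝓝[≠] 0] fun t ↦ t ^ 7 := by
  have c : ContinuousAt (fun t ↦ 25 / 1024 * (exp ((2 * cF f - 2) * t) * (ph1 t * om (-d) t)) ^ 7) 0 := by
    have := (ph1_an 0).continuousAt
    unfold om; fun_prop
  refine (((c.isBigO_one ℝ).mul (Z_bigO f d (cF f) (x / 10))).mono nhdsWithin_le_nhds).congr' ?_
    (by simp)
  filter_upwards [self_mem_nhdsWithin] with t h0
  rw [cen_id d0 d1 h0, cW_eq h0]

theorem cp_bigO (d0 : 0 ≤ d) (d1 : d ≤ 3 / 32) (x y : ℝ) :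
    (fun t ↦ cp f d t x y) =O[𝓝[≠] 0] fun t ↦ t ^ 7 :=
  ((((cq_bigO d0 d1 ((x + y) / 2)).const_mul_left 4).sub (cq_bigO d0 d1 x)).sub
    (cq_bigO d0 d1 y)).congr_left fun _ ↦ (b1_eq ..).symm

theorem cq_iso (t x : ℝ) : cq 0 0 t x = 0 := by
  by_cases h0 : t = 0
  · simp [h0, cq, b0, cA, cB, cC, cG, cV, Gb, Ts]
  · rw [cen_id le_rfl (by norm_num) h0, cF, Z_iso h0, mul_zero]

theorem cp_iso (t x y : ℝ) : cp 0 0 t x y = 0 := by
  have := b1_eq (cA 0 0 t) (cB 0 0 t) (cC 0 0 t) x y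
  have h := cq_iso t
  simp only [cq] at h
  rw [cp, this, h, h, h]; ring

theorem bigO_pos {k : ℝ → ℝ} (h : k =O[𝓝[≠] 0] fun t ↦ t ^ 7) : k =O[𝓝[>] 0] fun t ↦ t ^ 7 :=
  h.mono (nhdsWithin_mono _ fun t (ht : 0 < t) ↦ ht.ne')

theorem bigO_neg {k : ℝ → ℝ} (h : k =O[𝓝[≠] 0] fun t ↦ t ^ 7) :
    (fun t ↦ -k (-t)) =O[𝓝[>] 0] fun t ↦ t ^ 7 := by
  have c : Tendsto (fun s : ℝ ↦ -s) (𝓝[>] 0) (𝓝[≠] 0) := by
    refine tendsto_nhdsWithin_iff.2 ⟨(continuous_neg.tendsto' 0 0 neg_zero).mono_left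
      nhdsWithin_le_nhds, ?_⟩
    filter_upwards [self_mem_nhdsWithin] with s (hs : 0 < s) using neg_ne_zero.2 hs.ne'
  exact ((h.comp_tendsto c).neg_left.neg_right).congr_right fun s ↦ by
    simp only [Function.comp]; ring

end Pool.Agent.Lib.MP_d6150d_an.BB
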