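import Pool.Agent.Lib.MP_d6150d_an.BJet
import Pool.Agent.Lib.MP_d6150d_an.GMac

/-! The strip `B`: the operator, the separator and the master identity. -/

namespace Pool.Agent.Lib.MP_d6150d_an.BB

open Real Set Filter Topology Asymptotics

/-- the coefficients of the operator -/
def p0 (d : ℝ) : ℝ := 1743000 - 18580000 * d
def s1 (d : ℝ) : ℝ := -550000 + 7500000 * d
def p1 (d : ℝ) : ℝ := 144900 + 233700 * d
def r2 (d : ℝ) : ℝ := 137500 - 1875000 * d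
def q2 (d : ℝ) : ℝ := -58200 - 107600 * d
def p2 (d : ℝ) : ℝ := 3321 + 279400 * d
def q3 (d : ℝ) : ℝ := -17670 + 72050 * d
def p3 (d : ℝ) : ℝ := 4443 + 44600 * d
def p4 (d : ℝ) : ℝ := 599 + 210 * d

/-- the operator -/
def op (d e : ℝ) : Gp := ⟨p0 d, -10 * p0 d, 24 * p0 d, p1 d, s1 d - 4 * p1 d, -4 * s1 d, p2 d, q2 d,
  r2 d, p3 d * e, q3 d * e, p4 d * e ^ 2⟩

/-- the image of the exponential under a polynomial in the Euler derivative -/
def Ts (b4 b3 b2 b1 b0 F sF P Q R Y W : ℝ) : ℝ :=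
  sF * (16 * b4 * (Y ^ 4 * (pjR F P Q R).2.2) + (96 * b4 + 8 * b3) * (Y ^ 3 * (pjR F P Q R).2.1 * W ^ 2) +
    (112 * b4 + 24 * b3 + 4 * b2) * (Y ^ 2 * (pjR F P Q R).1 * W ^ 4) +
    (16 * b4 + 8 * b3 + 4 * b2 + 2 * b1) * (Y * W ^ 6)) + b0 * W ^ 7

/-- the shape of the separators -/
def Ek (s α β c a b o : ℝ) : ℝ := a * s + b * (α + o * (β + o * c))

noncomputable def n0 (d F : ℝ) : ℝ :=
  F * (-8 * p0 d * ja4 (-d) F - 2 * (3 * p1 d + s1 d) * ja2 (-d) F) - (p2 d + q2 d + r2 d)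
noncomputable def m6 (d F : ℝ) : ℝ := F * (72 * p0 d * ja6 (-d) F + 12 * (5 * p1 d + s1 d) * ja4 (-d) F +
  3 * (9 * p2 d + 3 * q2 d + r2 d) * ja2 (-d) F)
def s2 (f d : ℝ) : ℝ := -102000 * f - 4820 * d
def s3 (f d : ℝ) : ℝ := -15200 * f - 7760 * d
def s4 (f d : ℝ) : ℝ := -696 * f - 193 * d
noncomputable def E2 (f d F : ℝ) : ℝ → ℝ → ℝ → ℝ := Ek (s2 f d) (n0 d F - s2 f d)
  (16 * m6 d F + 3 / 2 * n0 d F - s2 f d) (-515205 / 32 - 23065875 / 8 * d + (211000 * f - 656000 * d))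
def E3 (f d : ℝ) : ℝ → ℝ → ℝ → ℝ := Ek (s3 f d) (-3 * (p3 d + q3 d) - s3 f d)
  (26964 + 1018950 * d + (16400 * f + 17900 * d)) (-66645 - 669000 * d)
def E4 (f d : ℝ) : ℝ → ℝ → ℝ → ℝ := Ek (s4 f d) (-15 * p4 d + (6210 * f - 11700 * d))
  (30 * p4 d) (-15 * p4 d)

/-- the three pieces of the scaled kernel -/
noncomputable def Gb (f d F sF P Q R Y W V z a b o g : ℝ) : ℝ :=
  256 * (z * (z * Ts (p0 d) (-10 * p0 d) (31 * p0 d) (-30 * p0 d) 0 F sF P Q R Y W +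
    V * Ts (p1 d) (s1 d - 3 * p1 d) (-4 * s1 d - p1 d) (3 * (p1 d + s1 d)) 0 F sF P Q R Y W) +
    W ^ 7 * (8 * p0 d * F * g)) +
  256 * V ^ 2 * (Ts (p2 d) (2 * p2 d + q2 d) (q2 d + r2 d) (-(2 * p2 d + q2 d)) (-(p2 d + q2 d + r2 d))
    F sF P Q R Y W - W ^ 7 * E2 f d F a b o)
def H3 (f d F sF P Q R Y W a b o : ℝ) : ℝ :=
  Ts (p3 d) (4 * p3 d + q3 d) (2 * p3 d + 3 * q3 d) (-(4 * p3 d + q3 d)) (-3 * (p3 d + q3 d))
    F sF P Q R Y W - W ^ 7 * E3 f d a b o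
def H4 (f d F sF P Q R Y W a b o : ℝ) : ℝ :=
  Ts (p4 d) (8 * p4 d) (14 * p4 d) (-8 * p4 d) (-15 * p4 d) F sF P Q R Y W - W ^ 7 * E4 f d a b o

/-- the algebraic function of the level -/
noncomputable def jB (v : ℝ) : ℝ := 4 * (√(16 + v))⁻¹

/-- the separator -/
noncomputable def EB (f d F e v : ℝ) : ℝ :=
  v ^ 2 * E2 f d F (jB v) (jB v ^ 3) (1 - jB v ^ 2) + e * v ^ 3 * E3 f d (jB v) (jB v ^ 3) (1 - jB v ^ 2) +
    e ^ 2 * v ^ 4 * E4 f d (jB v) (jB v ^ 3) (1 - jB v ^ 2)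

/-- the function whose sign is studied -/
noncomputable def ZB (f d F e t : ℝ) : ℝ := (F * (op d e).K (-d) F t + (op d e).C0 (vR (-d) F t) -
  EB f d F e (vR (-d) F t)) * exp (-(F * t))

variable {D f d F e t l s sF P Q R Y W V z a b o g : ℝ}

theorem K_hom (o : Gp) (ht : t ∈ JR D) (h0 : t ≠ 0) (hs : s ≠ 0)
    (hP : P = l * PR D t) (hQ : Q = l * QR D t) (hR : R = l * D) (hY : s ^ 2 * Y = l * yR D F t)
    (hW : s * W = l * wR D t) : W ^ 7 * o.K D F t = s * exp (F * t) *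
      (16 * o.P (vR D F t) * (Y ^ 4 * (pjR F P Q R).2.2) +
        (96 * o.P (vR D F t) + 8 * o.C3 (vR D F t)) * (Y ^ 3 * (pjR F P Q R).2.1 * W ^ 2) +
        (112 * o.P (vR D F t) + 24 * o.C3 (vR D F t) + 4 * o.C2 (vR D F t)) *
          (Y ^ 2 * (pjR F P Q R).1 * W ^ 4) +
        (16 * o.P (vR D F t) + 8 * o.C3 (vR D F t) + 4 * o.C2 (vR D F t) + 2 * o.C1 (vR D F t)) *
          (Y * W ^ 6)) +
      W ^ 7 * (o.C0 (vR D F t) * uR F t + (4 * o.p0 + 2 * o.q0 + o.r0) * gR D F t) := by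
  have hw := wR_ne ht h0
  obtain rfl : Y = l * yR D F t / s ^ 2 := by rw [← hY]; field_simp
  obtain rfl : W = l * wR D t / s := by rw [← hW]; field_simp
  subst hP hQ hR
  rw [o.K_eq ht h0]
  simp only [pjR_smul, U1, U2, U3, U4]
  field_simp
  ring

/-- the master identity -/
theorem master (ht : t ∈ JR (-d)) (h0 : t ≠ 0) (hs : s ≠ 0) (hF : sF = s * F)
    (hP : P = l * PR (-d) t) (hQ : Q = l * QR (-d) t) (hR : R = l * -d)
    (hY : s ^ 2 * Y = l * yR (-d) F t) (hW : s * W = l * wR (-d) t) (hV : V = z * vR (-d) F t)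
    (ha : a = jB (vR (-d) F t) * exp (-(F * t))) (hb : b = jB (vR (-d) F t) ^ 3 * exp (-(F * t)))
    (ho : o = 1 - jB (vR (-d) F t) ^ 2) (hg : g = z ^ 2 * gR (-d) F t * exp (-(F * t))) (e : ℝ) :
    Gb f d F sF P Q R Y W V z a b o g + 256 * V ^ 2 * (e * vR (-d) F t) *
      (H3 f d F sF P Q R Y W a b o + e * vR (-d) F t * H4 f d F sF P Q R Y W a b o) =
      256 * z ^ 2 * W ^ 7 * ZB f d F e t := by
  have h := K_hom (op d e) ht h0 hs hP hQ hR hY hW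
  have e1 : exp (F * t) * exp (-(F * t)) = 1 := by rw [← exp_add]; simp
  have e2 : F * uR F t = exp (F * t) - 1 := by rw [uR, exp_eq_ph]; ring
  subst hF hV ha hb ho hg
  simp only [Gb, H3, H4, Ts, ZB, EB, E2, E3, E4, Ek]
  generalize Gp.K _ _ _ _ = K at *
  generalize vR (-d) F t = v at *
  generalize jB v = j
  generalize gR (-d) F t = g at *
  generalize exp (F * t) = y at *
  generalize exp (-(F * t)) = i at *
  generalize uR F t = u at *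
  generalize W ^ 7 = m0 at *
  generalize Y ^ 4 * (pjR F P Q R).2.2 = m4 at *
  generalize Y ^ 3 * (pjR F P Q R).2.1 * W ^ 2 = m3 at *
  generalize Y ^ 2 * (pjR F P Q R).1 * W ^ 4 = m2 at *
  generalize Y * W ^ 6 = m1 at *
  linear_combination (norm := (simp only [op, Gp.P, Gp.C3, Gp.C2, Gp.C1, Gp.C0]; ring))
    (-256 * z ^ 2 * F * i) * h - 256 * z ^ 2 * m0 * i * (op d e).C0 v * e2 -
    256 * z ^ 2 * (s * F * (16 * (op d e).P v * m4 + (96 * (op d e).P v + 8 * (op d e).C3 v) * m3 +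
      (112 * (op d e).P v + 24 * (op d e).C3 v + 4 * (op d e).C2 v) * m2 + (16 * (op d e).P v +
      8 * (op d e).C3 v + 4 * (op d e).C2 v + 2 * (op d e).C1 v) * m1) + m0 * (op d e).C0 v) * e1

end Pool.Agent.Lib.MP_d6150d_an.BB
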