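import Pool.Agent.Lib.MP_d6150d_an.BFLD

/-! A generated chart: the computations. -/

namespace Pool.Agent.Lib.MP_d6150d_an.BFL

theorem k0 : chk C 0x884 [(0, 11269994184704), (0, 13194139533312), (0, 43980465111040), (0,
    140737488355328), (0, 35184372088832)] = true := by
  decide +kernel

theorem k1 : chk C 0x880 [(0, 11269994184704), (0, 13194139533312), (0, 43980465111040), (0,
    140737488355328), (35184372088832, 52776558133248)] = true := by
  decide +kernel

theorem k2 : chk C 0x88184 [(0, 11269994184704), (0, 13194139533312), (0, 21990232555520), (0,
    140737488355328), (52776558133248, 70368744177664)] = true := by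
  decide +kernel

theorem k3 : chk C 0x88802 [(0, 11269994184704), (0, 13194139533312), (21990232555520,
    43980465111040), (0, 140737488355328), (52776558133248, 70368744177664)] = true := by
  decide +kernel

end Pool.Agent.Lib.MP_d6150d_an.BFL
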