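import Pool.Agent.Lib.MP_d6150d_an.BMac
import Pool.Agent.Lib.MP_d6150d_an.PpChk
import Pool.Agent.Lib.MP_d6150d_an.BFLK0

/-! A generated chart: the inequality. -/

namespace Pool.Agent.Lib.MP_d6150d_an.BFL

set_option linter.unnecessarySeqFocus false
set_option linter.unusedTactic false
set_option linter.unusedVariables false
set_option linter.unusedSimpArgs false

theorem gd : Gd2 C [(0, 11269994184704), (0, 13194139533312), (0, 43980465111040), (0,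
    140737488355328), (0, 70368744177664)] := .split 4 (chk_sound2 k0) (.split 4 (chk_sound2 k1)
    (.split 2 (chk_sound2 k2) (chk_sound2 k3)))

set_option maxRecDepth 100000 in
theorem eq {f d u c k F i z m s x2 p P Q R W f2 I H Y V j j2 a b o z22 g k3 z25 x3 z27 x4 z29 : ℝ}
    (hF : F = (1 - f) * (1 / 4)) (hi : i = k * k) (hz : z = i * (k * u)) (hm : m = k * c) (hs : s =
    d * i * i) (hx2 : x2 = 1) (hp : p = m * z) (hP : P = (-1) * ((1 - d) * s)) (hQ : Q = (-1) * ((1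
    - 2 * d) * i)) (hR : R = 1 * x2) (hW : W = P - Q + R) (hf2 : f2 = f * f) (hI : I = ((1 - f2) *
    (3 + f))⁻¹) (hH : H = 2 * (I * ((1 - d) * (3 + 4 * f + f2) * (s - z) + (1 - 2 * d) * (3 - 2 * f
    - f2) * (i - z) + (1 - f2) * (x2 - d * z)))) (hY : Y = (-1) * H) (hV : V = 2 * H) (hj : j =
    (√(16 * z + V))⁻¹) (hj2 : j2 = j * j) (ha : a = 4 * (m * j)) (hb : b = 64 * (p * j * j2)) (ho :
    o = 1 - 16 * (z * j2)) (hz22 : z22 = (√V)⁻¹) (hg : g = (-1) * (p * V * z22)) (hk3 : k3 = k * i)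
    (hz25 : z25 = BB.H3 f d F F P Q R Y W a b o) (hx3 : x3 = k3 * z25) (hz27 : z27 = BB.H4 f d F F P
    Q R Y W a b o) (hx4 : x4 = V * z27) (hz29 : z29 = BB.Gb f d F F P Q R Y W V z a b o g) : outR
    prog 0 [f, d, u, c, k] = -z27 ∧ outR prog 1 [f, d, u, c, k] = -(2 * x4 + x3) ∧ outR prog 2 [f,
    d, u, c, k] = -(256 * (V * V * V * (x4 + x3)) + k3 * k3 * z29) := by
  replace hF : F = (((Int.cast (1) : ℝ) / (Nat.cast 4 : ℝ)) * ((Int.cast (1) : ℝ) - f)) := hF.trans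
    (by push_cast <;> ring)
  replace hi : i = (k * k) := hi.trans (by push_cast <;> ring)
  replace hz : z = (i * (k * u)) := hz.trans (by push_cast <;> ring)
  replace hm : m = (k * c) := hm.trans (by push_cast <;> ring)
  replace hs : s = ((d * i) * i) := hs.trans (by push_cast <;> ring)
  replace hx2 : x2 = (Int.cast (1) : ℝ) := hx2.trans (by push_cast <;> ring)
  replace hp : p = (m * z) := hp.trans (by push_cast <;> ring)
  replace hP : P = ((Int.cast (-1) : ℝ) * (((Int.cast (1) : ℝ) - d) * s)) := hP.trans (by push_cast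
    <;> ring)
  replace hQ : Q = ((Int.cast (-1) : ℝ) * (((Int.cast (1) : ℝ) - ((Int.cast (2) : ℝ) * d)) * i)) :=
    hQ.trans (by push_cast <;> ring)
  replace hR : R = ((Int.cast (1) : ℝ) * x2) := hR.trans (by push_cast <;> ring)
  replace hW : W = ((P - Q) + R) := hW.trans (by push_cast <;> ring)
  replace hf2 : f2 = (f * f) := hf2.trans (by push_cast <;> ring)
  replace hI : I = (((Int.cast (1) : ℝ) - f2) * ((Int.cast (3) : ℝ) + f))⁻¹ := hI.trans (by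
    push_cast <;> ring)
  replace hH : H = ((Int.cast (2) : ℝ) * (I * ((((((Int.cast (1) : ℝ) - d) * (((Int.cast (3) : ℝ) +
    ((Int.cast (4) : ℝ) * f)) + f2)) * (s - z)) + ((((Int.cast (1) : ℝ) - ((Int.cast (2) : ℝ) * d))
    * (((Int.cast (3) : ℝ) - ((Int.cast (2) : ℝ) * f)) - f2)) * (i - z))) + (((Int.cast (1) : ℝ) -
    f2) * (x2 - (d * z)))))) := hH.trans (by push_cast <;> ring)
  replace hY : Y = ((Int.cast (-1) : ℝ) * H) := hY.trans (by push_cast <;> ring)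
  replace hV : V = ((Int.cast (2) : ℝ) * H) := hV.trans (by push_cast <;> ring)
  replace hj : j = (√(((Int.cast (16) : ℝ) * z) + V))⁻¹ := hj.trans (congrArg (fun x : ℝ ↦ (√x)⁻¹)
    (by push_cast <;> ring))
  replace hj2 : j2 = (j * j) := hj2.trans (by push_cast <;> ring)
  replace ha : a = ((Int.cast (4) : ℝ) * (m * j)) := ha.trans (by push_cast <;> ring)
  replace hb : b = ((Int.cast (64) : ℝ) * ((p * j) * j2)) := hb.trans (by push_cast <;> ring)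
  replace ho : o = ((Int.cast (1) : ℝ) - ((Int.cast (16) : ℝ) * (z * j2))) := ho.trans (by push_cast
    <;> ring)
  replace hg : g = ((Int.cast (-1) : ℝ) * ((p * V) * z22)) := hg.trans (by push_cast <;> ring)
  replace hk3 : k3 = (k * i) := hk3.trans (by push_cast <;> ring)
  replace hz25 : z25 = (BB.mO f d F F P Q R Y W V z a b o g).2.1 := hz25.trans (BB.mO_1 ..)
  replace hx3 : x3 = (k3 * z25) := hx3.trans (by push_cast <;> ring)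
  replace hz27 : z27 = (BB.mO f d F F P Q R Y W V z a b o g).2.2 := hz27.trans (BB.mO_2 ..)
  replace hx4 : x4 = (V * z27) := hx4.trans (by push_cast <;> ring)
  replace hz29 : z29 = (BB.mO f d F F P Q R Y W V z a b o g).1 := hz29.trans (BB.mO_0 ..)
  have e0 : ((Int.cast (-1) : ℝ) * z27) = -z27 := by push_cast <;> ring
  have e1 : ((Int.cast (-1) : ℝ) * (((Int.cast (2) : ℝ) * x4) + x3)) = -(2 * x4 + x3) := by
    push_cast <;> ring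
  have e2 : ((Int.cast (-1) : ℝ) * (((Int.cast (256) : ℝ) * (((V * V) * V) * (x4 + x3))) + ((k3 *
    k3) * z29))) = -(256 * (V * V * V * (x4 + x3)) + k3 * k3 * z29) := by push_cast <;> ring
  subst hF hi hz hm hs hx2 hp hP hQ hR hW hf2 hI hH hY hV hj hj2 ha hb ho hz22 hg hk3 hz25 hx3 hz27
    hx4 hz29
  refine ⟨Eq.trans ?_ e0, Eq.trans ?_ e1, Eq.trans ?_ e2⟩ <;>
    simp only [outR, prog, prog1, prog2, prog3, prog4, prog5, prog6, prog7, prog8, runR, stepR, gtR,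
      List.take, BB.mO, BB.mC]

theorem l0 : ((0 : ℤ) : ℝ) / 2 ^ 47 = 0 := by norm_num
theorem u0 : (41 / 512 : ℝ) = ((11269994184704 : ℤ) : ℝ) / 2 ^ 47 := by norm_num
theorem l1 : ((0 : ℤ) : ℝ) / 2 ^ 47 = 0 := by norm_num
theorem u1 : (3 / 32 : ℝ) = ((13194139533312 : ℤ) : ℝ) / 2 ^ 47 := by norm_num
theorem l2 : ((0 : ℤ) : ℝ) / 2 ^ 47 = 0 := by norm_num
theorem u2 : (5 / 16 : ℝ) = ((43980465111040 : ℤ) : ℝ) / 2 ^ 47 := by norm_num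
theorem l3 : ((0 : ℤ) : ℝ) / 2 ^ 47 = 0 := by norm_num
theorem u3 : (1 : ℝ) = ((140737488355328 : ℤ) : ℝ) / 2 ^ 47 := by norm_num
theorem l4 : ((0 : ℤ) : ℝ) / 2 ^ 47 = 0 := by norm_num
theorem u4 : (1 / 2 : ℝ) = ((70368744177664 : ℤ) : ℝ) / 2 ^ 47 := by norm_num

theorem out0 {f d u c k : ℝ} (a0 : 0 ≤ f) (b0 : f ≤ 41 / 512) (a1 : 0 ≤ d) (b1 : d ≤ 3 / 32) (a2 : 0
    ≤ u) (b2 : u ≤ 5 / 16) (a3 : 0 ≤ c) (b3 : c ≤ 1) (a4 : 0 ≤ k) (b4 : k ≤ 1 / 2) : 0 < outR prog 0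
    [f, d, u, c, k] :=
  gd 0 (by decide) [f, d, u, c, k] (.cons ⟨l0.le.trans a0, b0.trans u0.le⟩ (.cons ⟨l1.le.trans a1,
    b1.trans u1.le⟩ (.cons ⟨l2.le.trans a2, b2.trans u2.le⟩ (.cons ⟨l3.le.trans a3, b3.trans u3.le⟩
    (.cons ⟨l4.le.trans a4, b4.trans u4.le⟩ (.nil)))))) ⟨nofun, nofun, nofun, nofun, nofun, trivial⟩
    (nofun) (List.forall_mem_nil _) (Van.of0 rfl) (nofun)

theorem pos0 {f d u c k F i z m s x2 p P Q R W f2 I H Y V j j2 a b o z22 g k3 z25 x3 z27 x4 z29 : ℝ}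
    (hF : F = (1 - f) * (1 / 4)) (hi : i = k * k) (hz : z = i * (k * u)) (hm : m = k * c) (hs : s =
    d * i * i) (hx2 : x2 = 1) (hp : p = m * z) (hP : P = (-1) * ((1 - d) * s)) (hQ : Q = (-1) * ((1
    - 2 * d) * i)) (hR : R = 1 * x2) (hW : W = P - Q + R) (hf2 : f2 = f * f) (hI : I = ((1 - f2) *
    (3 + f))⁻¹) (hH : H = 2 * (I * ((1 - d) * (3 + 4 * f + f2) * (s - z) + (1 - 2 * d) * (3 - 2 * f
    - f2) * (i - z) + (1 - f2) * (x2 - d * z)))) (hY : Y = (-1) * H) (hV : V = 2 * H) (hj : j =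
    (√(16 * z + V))⁻¹) (hj2 : j2 = j * j) (ha : a = 4 * (m * j)) (hb : b = 64 * (p * j * j2)) (ho :
    o = 1 - 16 * (z * j2)) (hz22 : z22 = (√V)⁻¹) (hg : g = (-1) * (p * V * z22)) (hk3 : k3 = k * i)
    (hz25 : z25 = BB.H3 f d F F P Q R Y W a b o) (hx3 : x3 = k3 * z25) (hz27 : z27 = BB.H4 f d F F P
    Q R Y W a b o) (hx4 : x4 = V * z27) (hz29 : z29 = BB.Gb f d F F P Q R Y W V z a b o g) (a0 : 0 ≤
    f) (b0 : f ≤ 41 / 512) (a1 : 0 ≤ d) (b1 : d ≤ 3 / 32) (a2 : 0 ≤ u) (b2 : u ≤ 5 / 16) (a3 : 0 ≤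
    c) (b3 : c ≤ 1) (a4 : 0 ≤ k) (b4 : k ≤ 1 / 2) : 0 < -z27 :=
  have e := eq hF hi hz hm hs hx2 hp hP hQ hR hW hf2 hI hH hY hV hj hj2 ha hb ho hz22 hg hk3 hz25
    hx3 hz27 hx4 hz29
  (out0 a0 b0 a1 b1 a2 b2 a3 b3 a4 b4).trans_eq e.1

theorem out1 {f d u c k : ℝ} (a0 : 0 ≤ f) (b0 : f ≤ 41 / 512) (a1 : 0 ≤ d) (b1 : d ≤ 3 / 32) (a2 : 0
    ≤ u) (b2 : u ≤ 5 / 16) (a3 : 0 ≤ c) (b3 : c ≤ 1) (a4 : 0 ≤ k) (b4 : k ≤ 1 / 2) : 0 < outR prog 1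
    [f, d, u, c, k] :=
  gd 1 (by decide) [f, d, u, c, k] (.cons ⟨l0.le.trans a0, b0.trans u0.le⟩ (.cons ⟨l1.le.trans a1,
    b1.trans u1.le⟩ (.cons ⟨l2.le.trans a2, b2.trans u2.le⟩ (.cons ⟨l3.le.trans a3, b3.trans u3.le⟩
    (.cons ⟨l4.le.trans a4, b4.trans u4.le⟩ (.nil)))))) ⟨nofun, nofun, nofun, nofun, nofun, trivial⟩
    (nofun) (List.forall_mem_nil _) (Van.of0 rfl) (nofun)

theorem pos1 {f d u c k F i z m s x2 p P Q R W f2 I H Y V j j2 a b o z22 g k3 z25 x3 z27 x4 z29 : ℝ}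
    (hF : F = (1 - f) * (1 / 4)) (hi : i = k * k) (hz : z = i * (k * u)) (hm : m = k * c) (hs : s =
    d * i * i) (hx2 : x2 = 1) (hp : p = m * z) (hP : P = (-1) * ((1 - d) * s)) (hQ : Q = (-1) * ((1
    - 2 * d) * i)) (hR : R = 1 * x2) (hW : W = P - Q + R) (hf2 : f2 = f * f) (hI : I = ((1 - f2) *
    (3 + f))⁻¹) (hH : H = 2 * (I * ((1 - d) * (3 + 4 * f + f2) * (s - z) + (1 - 2 * d) * (3 - 2 * f
    - f2) * (i - z) + (1 - f2) * (x2 - d * z)))) (hY : Y = (-1) * H) (hV : V = 2 * H) (hj : j =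
    (√(16 * z + V))⁻¹) (hj2 : j2 = j * j) (ha : a = 4 * (m * j)) (hb : b = 64 * (p * j * j2)) (ho :
    o = 1 - 16 * (z * j2)) (hz22 : z22 = (√V)⁻¹) (hg : g = (-1) * (p * V * z22)) (hk3 : k3 = k * i)
    (hz25 : z25 = BB.H3 f d F F P Q R Y W a b o) (hx3 : x3 = k3 * z25) (hz27 : z27 = BB.H4 f d F F P
    Q R Y W a b o) (hx4 : x4 = V * z27) (hz29 : z29 = BB.Gb f d F F P Q R Y W V z a b o g) (a0 : 0 ≤
    f) (b0 : f ≤ 41 / 512) (a1 : 0 ≤ d) (b1 : d ≤ 3 / 32) (a2 : 0 ≤ u) (b2 : u ≤ 5 / 16) (a3 : 0 ≤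
    c) (b3 : c ≤ 1) (a4 : 0 ≤ k) (b4 : k ≤ 1 / 2) : 0 < -(2 * x4 + x3) :=
  have e := eq hF hi hz hm hs hx2 hp hP hQ hR hW hf2 hI hH hY hV hj hj2 ha hb ho hz22 hg hk3 hz25
    hx3 hz27 hx4 hz29
  (out1 a0 b0 a1 b1 a2 b2 a3 b3 a4 b4).trans_eq e.2.1

theorem out2 {f d u c k : ℝ} (a0 : 0 ≤ f) (b0 : f ≤ 41 / 512) (a1 : 0 ≤ d) (b1 : d ≤ 3 / 32) (a2 : 0
    ≤ u) (b2 : u ≤ 5 / 16) (a3 : 0 ≤ c) (b3 : c ≤ 1) (a4 : 0 ≤ k) (b4 : k ≤ 1 / 2) : 0 < outR prog 2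
    [f, d, u, c, k] :=
  gd 2 (by decide) [f, d, u, c, k] (.cons ⟨l0.le.trans a0, b0.trans u0.le⟩ (.cons ⟨l1.le.trans a1,
    b1.trans u1.le⟩ (.cons ⟨l2.le.trans a2, b2.trans u2.le⟩ (.cons ⟨l3.le.trans a3, b3.trans u3.le⟩
    (.cons ⟨l4.le.trans a4, b4.trans u4.le⟩ (.nil)))))) ⟨nofun, nofun, nofun, nofun, nofun, trivial⟩
    (nofun) (List.forall_mem_nil _) (Van.of0 rfl) (nofun)

theorem pos2 {f d u c k F i z m s x2 p P Q R W f2 I H Y V j j2 a b o z22 g k3 z25 x3 z27 x4 z29 : ℝ}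
    (hF : F = (1 - f) * (1 / 4)) (hi : i = k * k) (hz : z = i * (k * u)) (hm : m = k * c) (hs : s =
    d * i * i) (hx2 : x2 = 1) (hp : p = m * z) (hP : P = (-1) * ((1 - d) * s)) (hQ : Q = (-1) * ((1
    - 2 * d) * i)) (hR : R = 1 * x2) (hW : W = P - Q + R) (hf2 : f2 = f * f) (hI : I = ((1 - f2) *
    (3 + f))⁻¹) (hH : H = 2 * (I * ((1 - d) * (3 + 4 * f + f2) * (s - z) + (1 - 2 * d) * (3 - 2 * f
    - f2) * (i - z) + (1 - f2) * (x2 - d * z)))) (hY : Y = (-1) * H) (hV : V = 2 * H) (hj : j =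
    (√(16 * z + V))⁻¹) (hj2 : j2 = j * j) (ha : a = 4 * (m * j)) (hb : b = 64 * (p * j * j2)) (ho :
    o = 1 - 16 * (z * j2)) (hz22 : z22 = (√V)⁻¹) (hg : g = (-1) * (p * V * z22)) (hk3 : k3 = k * i)
    (hz25 : z25 = BB.H3 f d F F P Q R Y W a b o) (hx3 : x3 = k3 * z25) (hz27 : z27 = BB.H4 f d F F P
    Q R Y W a b o) (hx4 : x4 = V * z27) (hz29 : z29 = BB.Gb f d F F P Q R Y W V z a b o g) (a0 : 0 ≤
    f) (b0 : f ≤ 41 / 512) (a1 : 0 ≤ d) (b1 : d ≤ 3 / 32) (a2 : 0 ≤ u) (b2 : u ≤ 5 / 16) (a3 : 0 ≤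
    c) (b3 : c ≤ 1) (a4 : 0 ≤ k) (b4 : k ≤ 1 / 2) : 0 < -(256 * (V * V * V * (x4 + x3)) + k3 * k3 *
    z29) :=
  have e := eq hF hi hz hm hs hx2 hp hP hQ hR hW hf2 hI hH hY hV hj hj2 ha hb ho hz22 hg hk3 hz25
    hx3 hz27 hx4 hz29
  (out2 a0 b0 a1 b1 a2 b2 a3 b3 a4 b4).trans_eq e.2.2

end Pool.Agent.Lib.MP_d6150d_an.BFL
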