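import Pool.Agent.Lib.MP_d6150d_an.GDef

/-! A generated chart: the program. -/

namespace Pool.Agent.Lib.MP_d6150d_an.BFL

def prog8 : List Ins := .smul (-738108000) 388 :: .add false 1 0 :: .smul 211000 399 :: .smul
    (-656000) 391 :: .add false 1 0 :: .smul 256 0 :: .add true 4 0 :: .mul 256 0 :: .add true 9 0
    :: .mul 258 0 :: .add true 79 0 :: .mul 266 0 :: .sub true 124 0 :: .mul 200 0 :: .add true 152
    0 :: .mul 197 0 :: .add false 199 0 :: .smul (-1) 0 :: .cpy 0 :: .cpy 207 :: .cpy 259 :: []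

def prog7 : List Ins := .smul (-1596) 54 :: .add false 1 0 :: .smul 49280 53 :: .add false 1 0 ::
    .smul (-156800) 12 :: .add false 1 0 :: .int 4441 :: .smul 11886 345 :: .add false 1 0 :: .smul
    10416 63 :: .add false 1 0 :: .smul 180320 62 :: .add false 1 0 :: .int (-17893) :: .smul
    (-45478) 352 :: .add false 1 0 :: .smul (-123760) 70 :: .add false 1 0 :: .int 26927 :: .smul
    53854 357 :: .add false 1 0 :: .smul (-13171) 366 :: .add true 1 0 :: .mul 368 0 :: .add true 6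
    0 :: .mul 370 0 :: .add true 13 0 :: .mul 372 0 :: .add true 22 0 :: .mul 374 0 :: .add true 33
    0 :: .mul 47 0 :: .int 263844000 :: .smul 13106772000 371 :: .add false 1 0 :: .mul 0 70 :: .add
    false 4 0 :: .int (-490636440) :: .smul 21555072000 376 :: .add true 1 0 :: .mul 0 69 :: .add
    true 4 0 :: .mul 102 0 :: .smul 32 0 :: .smul 3 65 :: .add false 1 0 :: .smul 128 0 :: .smul 256
    112 :: .sub false 1 0 :: .int (-4121640) :: prog8

def prog6 : List Ins := .add false 2 0 :: .int (-57) :: .smul (-102) 290 :: .add false 1 0 :: .smul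
    (-480) 8 :: .add false 1 0 :: .int 156 :: .smul 312 295 :: .add false 1 0 :: .smul (-103) 304 ::
    .add true 1 0 :: .mul 306 0 :: .add true 6 0 :: .mul 308 0 :: .add true 13 0 :: .mul 22 0 ::
    .int 41508000 :: .smul (-2952396000) 305 :: .add true 1 0 :: .sub false 317 314 :: .add true 0
    293 :: .mul 2 0 :: .add true 6 0 :: .mul 33 0 :: .smul 126 0 :: .int (-82621) :: .smul 1703200
    314 :: .add false 1 0 :: .add false 3 0 :: .sub false 0 44 :: .smul 256 0 :: .int 125496000 ::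
    .smul (-1337760000) 320 :: .add true 1 0 :: .int (-8) :: .smul (-20) 323 :: .add false 1 0 ::
    .smul 28 41 :: .add false 1 0 :: .smul 4760 40 :: .add false 1 0 :: .mul 45 45 :: .smul (-44800)
    0 :: .add false 2 0 :: .mul 2 332 :: .smul 62720 0 :: .add false 2 0 :: .int (-296) :: .smul
    (-802) 336 :: .add false 1 0 :: prog7

def prog5 : List Ins := .int 13944000 :: .smul (-148640000) 239 :: .add true 1 0 :: .mul 0 248 ::
    .mul 114 125 :: .rsq 126 :: .mul 1 0 :: .smul (-1) 0 :: .mul 4 0 :: .mul 147 0 :: .add false 10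
    0 :: .smul 256 0 :: .smul 53136 166 :: .smul (-93648) 163 :: .add false 1 0 :: .smul (-548240)
    160 :: .add false 1 0 :: .smul 60988 158 :: .add false 1 0 :: .smul (-82621) 157 :: .add false 1
    0 :: .smul 4470400 175 :: .smul 30432000 172 :: .add false 1 0 :: .smul 34191200 169 :: .add
    false 1 0 :: .smul (-752800) 167 :: .add false 1 0 :: .smul 1703200 166 :: .add true 1 0 :: .mul
    268 0 :: .add false 10 0 :: .smul (-102000) 279 :: .smul (-4820) 271 :: .add false 1 0 :: .mul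
    151 0 :: .sub false 4 0 :: .smul 256 0 :: .cst 1 136080 :: .mul 0 284 :: .int (-13944000) ::
    .smul 148640000 279 :: .add true 1 0 :: .smul 6 281 :: .add false 237 0 :: .mul 283 283 :: .smul
    (-60) 0 :: .add false 2 0 :: .mul 2 286 :: .smul 320 0 :: prog6

def prog4 : List Ins := .int (-66645) :: .smul (-669000) 189 :: .add false 1 0 :: .mul 52 0 :: .add
    true 4 0 :: .mul 54 0 :: .add true 13 0 :: .mul 62 0 :: .sub true 19 0 :: .mul 45 0 :: .add
    false 47 0 :: .smul (-1) 0 :: .mul 83 83 :: .mul 0 84 :: .add true 52 4 :: .mul 1 0 :: .smul 256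
    0 :: .mul 53 53 :: .smul 27888000 122 :: .smul 27888000 119 :: .add false 1 0 :: .smul
    (-6972000) 116 :: .add false 1 0 :: .smul (-297280000) 127 :: .smul (-297280000) 124 :: .add
    false 1 0 :: .smul 74320000 121 :: .add true 1 0 :: .mul 216 0 :: .add true 6 0 :: .mul 206 0 ::
    .smul 2318400 135 :: .smul 6032800 132 :: .add false 1 0 :: .smul 816400 129 :: .add false 1 0
    :: .smul 230600 127 :: .add false 1 0 :: .smul 3739200 142 :: .smul 76826400 139 :: .add false 1
    0 :: .smul 68413200 136 :: .add false 1 0 :: .smul (-16402200) 134 :: .add true 1 0 :: .mul 233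
    0 :: .add true 8 0 :: .mul 118 0 :: .add true 17 0 :: .mul 225 0 :: prog5

def prog3 : List Ins := .sub true 148 0 :: .sub true 149 0 :: .mul 0 0 :: .mul 5 0 :: .smul 6210 151
    :: .smul (-11700) 143 :: .add false 1 0 :: .add true 3 0 :: .mul 13 0 :: .sub true 20 0 :: .smul
    (-1) 0 :: .mul 32 1 :: .smul 2 0 :: .mul 145 144 :: .smul 71088 68 :: .smul 427344 65 :: .add
    false 1 0 :: .smul 323568 62 :: .add false 1 0 :: .smul (-104796) 60 :: .add false 1 0 :: .smul
    39681 59 :: .add false 1 0 :: .smul 713600 77 :: .smul 6285200 74 :: .add false 1 0 :: .smul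
    12227400 71 :: .add false 1 0 :: .smul 3437700 69 :: .add false 1 0 :: .smul (-349950) 68 ::
    .add true 1 0 :: .mul 170 0 :: .add false 10 0 :: .smul (-15200) 181 :: .smul (-7760) 173 ::
    .add false 1 0 :: .mul 53 0 :: .sub false 4 0 :: .int 39681 :: .smul (-349950) 178 :: .add false
    1 0 :: .sub false 0 5 :: .int 26964 :: .smul 1018950 182 :: .add false 1 0 :: .smul 16400 193 ::
    .smul 17900 185 :: .add false 1 0 :: .add false 3 0 :: prog4

def prog2 : List Ins := .smul 95840 0 :: .add false 4 0 :: .mul 58 37 :: .mul 4 4 :: .mul 1 0 ::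
    .smul 215640 0 :: .add false 4 0 :: .mul 3 8 :: .mul 65 0 :: .smul 71880 0 :: .add false 3 0 ::
    .mul 3 58 :: .smul (-8985) 0 :: .add false 2 0 :: .smul 3360 18 :: .smul 33600 15 :: .add false
    1 0 :: .smul 75600 12 :: .add false 1 0 :: .smul 25200 10 :: .add false 1 0 :: .smul (-3150) 9
    :: .add true 1 0 :: .mul 111 0 :: .add false 10 0 :: .var 3 :: .mul 108 0 :: .smul 16 103 ::
    .smul 2 87 :: .add false 1 0 :: .rsq 0 :: .mul 4 0 :: .smul 4 0 :: .mul 0 21 :: .smul (-696) 131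
    :: .smul (-193) 123 :: .add false 1 0 :: .mul 3 0 :: .sub false 13 0 :: .mul 12 115 :: .mul 0 9
    :: .mul 10 10 :: .mul 1 0 :: .smul 64 0 :: .mul 0 32 :: .int (-8985) :: .smul (-3150) 134 ::
    .add false 1 0 :: .mul 124 6 :: .smul 16 0 :: prog3

def prog1 : List Ins := .sub false 2 0 :: .smul 1 49 :: .add false 1 0 :: .int 6 :: .smul 5 49 ::
    .sub true 1 0 :: .int 4 :: .smul 3 52 :: .sub true 1 0 :: .int 2 :: .sub true 0 55 :: .mul 0 8
    :: .smul 2 14 :: .sub false 0 13 :: .sub false 2 0 :: .mul 6 0 :: .mul 5 2 :: .smul 4 19 :: .sub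
    false 0 18 :: .sub true 2 0 :: .add false 4 0 :: .mul 18 0 :: .mul 8 7 :: .smul 3 0 :: .sub true
    2 0 :: .mul 19 0 :: .smul 3 6 :: .sub false 6 0 :: .mul 14 0 :: .mul 20 9 :: .mul 19 11 :: .smul
    8 33 :: .sub false 0 32 :: .sub false 2 0 :: .add true 4 0 :: .mul 32 0 :: .add false 7 0 ::
    .mul 18 22 :: .smul 3 0 :: .sub false 2 0 :: .add false 14 0 :: .mul 38 0 :: .mul 28 17 :: .smul
    5 0 :: .sub true 2 0 :: .mul 49 0 :: .smul 9584 0 :: .mul 52 22 :: .mul 45 45 :: .mul 1 0 ::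
    prog2

def prog : List Ins := .cst 1 4 :: .int 1 :: .var 0 :: .sub false 1 0 :: .mul 3 0 :: .mul 2 2 ::
    .sub false 4 0 :: .int 3 :: .add false 0 5 :: .mul 2 0 :: .inv 0 :: .var 1 :: .sub false 10 0 ::
    .smul 4 10 :: .add false 6 0 :: .add false 0 9 :: .mul 3 0 :: .var 4 :: .mul 0 0 :: .mul 7 0 ::
    .mul 0 1 :: .var 2 :: .mul 4 0 :: .mul 4 0 :: .sub true 3 0 :: .mul 8 0 :: .smul 2 14 :: .sub
    true 25 0 :: .smul 2 25 :: .sub false 21 0 :: .sub false 0 24 :: .mul 3 0 :: .sub true 13 8 ::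
    .mul 1 0 :: .add false 8 0 :: .mul 23 11 :: .sub false 34 0 :: .mul 30 0 :: .add false 3 0 ::
    .mul 28 0 :: .smul 2 0 :: .smul (-1) 0 :: .mul 37 0 :: .mul 0 1 :: .mul 0 2 :: .mul 0 3 :: .mul
    33 25 :: .smul (-1) 0 :: .mul 20 29 :: .smul (-1) 0 :: prog1

def vs : List Vr := [⟨2, 0, false, false⟩, ⟨2, 0, false, false⟩, ⟨1, 0, false, false⟩, ⟨1, 0, false,
    false⟩, ⟨3, 0, false, false⟩]

def C : Chart := ⟨vs, prog, [], 3, 3⟩

end Pool.Agent.Lib.MP_d6150d_an.BFL
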