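import Pool.Agent.Lib.MP_d6150d_an.BDef

/-! The strip `B`: the scaled families. -/

namespace Pool.Agent.Lib.MP_d6150d_an.BB

open Real Set Filter Topology Asymptotics

/-- the data of a chart away from the center -/
structure Fm where
  ε : ℝ
  η : ℝ
  f : ℝ
  d : ℝ
  x0 : ℝ
  x1 : ℝ
  x2 : ℝ
  z : ℝ
  sa : ℝ
  sb : ℝ

namespace Fm

variable (m : Fm)

noncomputable def F : ℝ := (1 - m.f) * (1 / 4)
def P : ℝ := m.ε * ((1 - m.d) * m.x0)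
def Q : ℝ := m.ε * ((1 - 2 * m.d) * m.x1)
def R : ℝ := m.η * m.x2
def W : ℝ := m.P - m.Q + m.R
noncomputable def H : ℝ := 2 * (((1 - m.f * m.f) * (3 + m.f))⁻¹ *
  ((1 - m.d) * (3 + 4 * m.f + m.f * m.f) * (m.x0 - m.z) +
    (1 - 2 * m.d) * (3 - 2 * m.f - m.f * m.f) * (m.x1 - m.z) + (1 - m.f * m.f) * (m.x2 - m.d * m.z)))
noncomputable def Y : ℝ := m.ε * m.H
noncomputable def V : ℝ := 2 * m.H
noncomputable def j : ℝ := (√(16 * m.z + m.V))⁻¹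
noncomputable def a : ℝ := 4 * (m.sa * m.j)
noncomputable def b : ℝ := 64 * (m.sb * m.j * (m.j * m.j))
noncomputable def o : ℝ := 1 - 16 * (m.z * (m.j * m.j))
noncomputable def g : ℝ := m.ε * (m.sb * m.V * (√m.V)⁻¹)
noncomputable def G : ℝ := Gb m.f m.d m.F m.F m.P m.Q m.R m.Y m.W m.V m.z m.a m.b m.o m.g
noncomputable def h3 : ℝ := H3 m.f m.d m.F m.F m.P m.Q m.R m.Y m.W m.a m.b m.o
noncomputable def h4 : ℝ := H4 m.f m.d m.F m.F m.P m.Q m.R m.Y m.W m.a m.b m.o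
/-- the scaled kernel -/
noncomputable def T (x : ℝ) : ℝ := m.G + 256 * m.V ^ 2 * x * (m.h3 + x * m.h4)

end Fm

variable {f d F e t : ℝ}

theorem mem_JR (d0 : 0 ≤ d) (d1 : d ≤ 3 / 32) (t : ℝ) : t ∈ JR (-d) := by
  have := exp_pos t
  simp only [JR, om, mem_setOf]; nlinarith

theorem cexp (c t : ℝ) : c * (t * ph1 (c * t)) = exp (c * t) - 1 := by rw [exp_eq_ph]; ring

theorem Fm.id (m : Fm) {μ : ℝ} (f0 : 0 ≤ m.f) (f1 : m.f ≤ 41 / 512) (d0 : 0 ≤ m.d) (d1 : m.d ≤ 3 / 32)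
    (hε : m.ε = 1 ∧ 0 < t ∨ m.ε = -1 ∧ t < 0) (hη : m.η = -m.ε) (hμ : 0 < μ) (hz : m.z = μ ^ 2)
    (h0 : m.x0 = m.z * exp (2 * m.F * t)) (h1 : m.x1 = m.z * exp ((2 * m.F - 1) * t))
    (h2 : m.x2 = m.d * m.z * exp ((2 * m.F - 2) * t)) (ha : m.sa = μ * exp (-(m.F * t)))
    (hb : m.sb = m.sa * m.z) : m.V = m.z * vR (-m.d) m.F t ∧ 0 < m.W ∧
      ∀ e, m.T (e * vR (-m.d) m.F t) = 256 * m.z ^ 2 * m.W ^ 7 * ZB m.f m.d m.F e t := by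
  have ht := mem_JR d0 d1 t
  have t0 : t ≠ 0 := hε.elim (fun h ↦ h.2.ne') fun h ↦ h.2.ne
  have hv := vR_pos (F := m.F) ht t0
  have hV : m.V = m.z * vR (-m.d) m.F t := by
    have k0 := cexp (2 * m.F) t
    have k1 := cexp (2 * m.F - 1) t
    have k2 := cexp (2 * m.F - 2) t
    have n1 : 1 - m.f * m.f ≠ 0 := by nlinarith
    have n2 : 3 + m.f ≠ 0 := by linarith
    rw [vR_eq, Fm.V, Fm.H, h0, h1, h2]
    generalize exp (2 * m.F * t) = y0 at *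
    generalize exp ((2 * m.F - 1) * t) = y1 at *
    generalize exp ((2 * m.F - 2) * t) = y2 at *
    generalize t * ph1 (2 * m.F * t) = u0 at *
    generalize t * ph1 ((2 * m.F - 1) * t) = u1 at *
    generalize t * ph1 ((2 * m.F - 2) * t) = u2 at *
    simp only [Fm.F] at k0 k1 k2
    rw [mul_left_comm 2 (_ : ℝ)⁻¹, mul_left_comm 2 (_ : ℝ)⁻¹, inv_mul_eq_iff_eq_mul₀ (mul_ne_zero n1 n2)]
    linear_combination (-4 * m.z * (1 - m.d) * (3 + 4 * m.f + m.f * m.f)) * k0 -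
      4 * m.z * (1 - 2 * m.d) * (3 - 2 * m.f - m.f * m.f) * k1 - 4 * m.z * m.d * (1 - m.f * m.f) * k2
  have e2 : m.ε * m.ε = 1 := hε.elim (fun h ↦ by simp [h.1]) fun h ↦ by simp [h.1]
  have hP : m.P = m.ε * m.z * exp ((2 * m.F - 2) * t) * PR (-m.d) t := by
    rw [Fm.P, h0, exp_a1, PR]; ring
  have hQ : m.Q = m.ε * m.z * exp ((2 * m.F - 2) * t) * QR (-m.d) t := by
    rw [Fm.Q, h1, exp_a2, QR]; ring
  have hR : m.R = m.ε * m.z * exp ((2 * m.F - 2) * t) * -m.d := by rw [Fm.R, h2, hη]; ring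
  have hW : 1 * m.W = m.ε * m.z * exp ((2 * m.F - 2) * t) * wR (-m.d) t := by
    rw [Fm.W, hP, hQ, hR, wR]; ring
  have hs : 0 < √(16 + vR (-m.d) m.F t) := sqrt_pos.2 (by linarith)
  have hj : m.j = μ⁻¹ * (√(16 + vR (-m.d) m.F t))⁻¹ := by
    rw [Fm.j, hV, hz, show 16 * μ ^ 2 + μ ^ 2 * vR (-m.d) m.F t = μ ^ 2 * (16 + vR (-m.d) m.F t) by
      ring, sqrt_mul (sq_nonneg μ), sqrt_sq hμ.le, mul_inv]
  have hg : gR (-m.d) m.F t = m.ε * √(vR (-m.d) m.F t) := by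
    rw [← gR_sq ht, sqrt_sq_eq_abs]
    rcases hε with h | h
    · rw [h.1, abs_of_pos (gR_pos ht h.2), one_mul]
    · rw [h.1, abs_of_neg (gR_neg ht h.2)]; ring
  refine ⟨hV, ?_, fun e ↦ master ht t0 one_ne_zero (one_mul _).symm hP hQ hR ?_ hW hV ?_ ?_ ?_ ?_ e⟩
  · rw [← one_mul m.W, hW, wR_eq, hz]
    have h3 : 0 < om (-m.d) t := ht
    have h4 : 0 < m.ε * (exp t - 1) := by
      rcases hε with h | h
      · rw [h.1, one_mul]; exact sub_pos.2 (one_lt_exp_iff.2 h.2)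
      · have := exp_lt_one_iff.2 h.2
        rw [h.1]; linarith
    have := mul_pos (mul_pos (mul_pos h4 h3) (pow_pos hμ 2)) (exp_pos ((2 * m.F - 2) * t))
    linarith
  · have := exp_y (F := m.F) t
    rw [Fm.Y, yR]
    rw [Fm.V] at hV
    linear_combination m.ε / 2 * hV - m.ε * m.z * vR (-m.d) m.F t / 2 * this
  · rw [Fm.a, hj, ha, jB]; field_simp
  · rw [Fm.b, hj, hb, ha, hz, jB]; field_simp; ring
  · rw [Fm.o, hj, hz, jB]; field_simp; ring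
  · rw [Fm.g, mul_assoc, ← div_eq_mul_inv, div_sqrt, hV, hg, hb, ha, hz, sqrt_mul (sq_nonneg μ),
      sqrt_sq hμ.le]
    ring

/-- the isochronous center, right branch -/
theorem isoR {z q x s : ℝ} (h0 : 0 ≤ z) (h1 : z ≤ 1) (hq : q = z * z) (hx : x = 0) (hs : s = z * z) :
    (Fm.mk 1 (-1) 0 0 1 q x z z s).G = 0 ∧ (Fm.mk 1 (-1) 0 0 1 q x z z s).h3 = 0 ∧
      (Fm.mk 1 (-1) 0 0 1 q x z z s).h4 = 0 := by
  subst hq hx hs
  have hH : (Fm.mk 1 (-1) 0 0 1 (z * z) 0 z z (z * z)).H = 2 * (1 - z) ^ 2 := by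
    simp only [Fm.H]; ring
  have hV : (Fm.mk 1 (-1) 0 0 1 (z * z) 0 z z (z * z)).V = (2 * (1 - z)) ^ 2 := by
    rw [Fm.V, hH]; ring
  have hj : (Fm.mk 1 (-1) 0 0 1 (z * z) 0 z z (z * z)).j = (2 * (1 + z))⁻¹ := by
    rw [Fm.j, hV, ← sqrt_sq (show 0 ≤ 2 * (1 + z) by linarith)]
    congr 2; ring
  have hg : (Fm.mk 1 (-1) 0 0 1 (z * z) 0 z z (z * z)).g = z * z * (2 * (1 - z)) := by
    rw [Fm.g, mul_assoc, ← div_eq_mul_inv, div_sqrt, hV, sqrt_sq (by linarith), one_mul]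
  have n : 1 + z ≠ 0 := by linarith
  simp only [Fm.G, Fm.h3, Fm.h4, Fm.Y, Fm.a, Fm.b, Fm.o, hH, hV, hj, hg]
  simp only [Fm.F, Fm.W, Fm.P, Fm.Q, Fm.R, Gb, H3, H4, Ts, E2, E3, E4, Ek, n0, m6, s2, s3, s4, p0, s1,
    p1, r2, q2, p2, q3, p3, p4, ja2, ja4, ja6, pjR]
  refine ⟨?_, ?_, ?_⟩ <;> field_simp <;> ring

/-- the isochronous center, left branch -/
theorem isoL {z q x s : ℝ} (h0 : 0 ≤ z) (h1 : z ≤ 1) (hq : q = z * z) (hx : x = 0) (hs : s = z) :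
    (Fm.mk (-1) 1 0 x q 1 0 z 1 s).G = 0 ∧ (Fm.mk (-1) 1 0 x q 1 0 z 1 s).h3 = 0 ∧
      (Fm.mk (-1) 1 0 x q 1 0 z 1 s).h4 = 0 := by
  subst hq hx hs
  have hH : (Fm.mk (-1) 1 0 0 (s * s) 1 0 s 1 s).H = 2 * (1 - s) ^ 2 := by
    simp only [Fm.H]; ring
  have hV : (Fm.mk (-1) 1 0 0 (s * s) 1 0 s 1 s).V = (2 * (1 - s)) ^ 2 := by
    rw [Fm.V, hH]; ring
  have hj : (Fm.mk (-1) 1 0 0 (s * s) 1 0 s 1 s).j = (2 * (1 + s))⁻¹ := by
    rw [Fm.j, hV, ← sqrt_sq (show 0 ≤ 2 * (1 + s) by linarith)]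
    congr 2; ring
  have hg : (Fm.mk (-1) 1 0 0 (s * s) 1 0 s 1 s).g = -1 * (s * (2 * (1 - s))) := by
    rw [Fm.g, mul_assoc, ← div_eq_mul_inv, div_sqrt, hV, sqrt_sq (by linarith)]
  have n : 1 + s ≠ 0 := by linarith
  simp only [Fm.G, Fm.h3, Fm.h4, Fm.Y, Fm.a, Fm.b, Fm.o, hH, hV, hj, hg]
  simp only [Fm.F, Fm.W, Fm.P, Fm.Q, Fm.R, Gb, H3, H4, Ts, E2, E3, E4, Ek, n0, m6, s2, s3, s4, p0, s1,
    p1, r2, q2, p2, q3, p3, p4, ja2, ja4, ja6, pjR]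
  refine ⟨?_, ?_, ?_⟩ <;> field_simp <;> ring

/-- the end of the right branch -/
theorem endR (f0 : 0 ≤ f) (f1 : f ≤ 41 / 512) {q x s : ℝ} (hq : q = 0) (hx : x = 0) (hs : s = 0) :
    (Fm.mk 1 (-1) f d 1 q x 0 0 s).G = 0 ∧ (Fm.mk 1 (-1) f d 1 q x 0 0 s).h3 = 0 ∧
      (Fm.mk 1 (-1) f d 1 q x 0 0 s).h4 = 0 := by
  subst hq hx hs
  have hH : 1 - d = 2 * ((1 - f) * (1 / 4)) * (Fm.mk 1 (-1) f d 1 0 0 0 0 0).H := by
    have n := mul_inv_cancel₀ (mul_ne_zero (show 1 - f * f ≠ 0 by nlinarith)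
      (show 3 + f ≠ 0 by linarith))
    simp only [Fm.H]; linear_combination (d - 1) * n
  simp only [Fm.G, Fm.h3, Fm.h4, Fm.Y, Fm.V, Fm.a, Fm.b, Fm.o, Fm.g, Fm.F, Fm.W, Fm.P, Fm.Q, Fm.R]
  generalize Fm.H _ = H at *
  rw [hH]
  generalize (1 - f) * (1 / 4) = F
  simp only [Gb, H3, H4, Ts, E2, E3, E4, Ek, pjR]
  refine ⟨?_, ?_, ?_⟩ <;> ring

theorem Z_iso (h0 : t ≠ 0) (e : ℝ) : ZB 0 0 ((1 - 0) * (1 / 4)) e t = 0 := by
  rcases h0.lt_or_gt with h | h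
  · obtain ⟨-, hW, H⟩ := (Fm.mk (-1) 1 0 0 (exp (t / 4) ^ 2 * exp (t / 4) ^ 2) 1 0 (exp (t / 4) ^ 2) 1
      (exp (t / 4) ^ 2)).id (t := t) le_rfl (by norm_num) le_rfl (by norm_num) (.inr ⟨rfl, h⟩)
      (neg_neg _).symm (exp_pos (t / 4)) rfl
      (by simp only [Fm.F, sq, ← exp_add]; congr 1; ring)
      (by simp only [Fm.F, sq, ← exp_add]; rw [eq_comm, exp_eq_one_iff]; ring) (by simp)
      (by simp only [Fm.F, ← exp_add]; rw [eq_comm, exp_eq_one_iff]; ring) (by simp)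
    obtain ⟨g, h3, h4⟩ := isoL (z := exp (t / 4) ^ 2) (by positivity)
      (pow_le_one₀ (exp_pos _).le (exp_le_one_iff.2 (by linarith))) rfl rfl rfl
    have := H e
    rw [Fm.T, g, h3, h4] at this
    have h5 := mul_pos (mul_pos (by norm_num : (0 : ℝ) < 256) (pow_pos (pow_pos (exp_pos (t / 4)) 2) 2))
      (pow_pos hW 7)
    exact (mul_eq_zero.1 (this.symm.trans (by ring))).resolve_left h5.ne'
  · obtain ⟨-, hW, H⟩ := (Fm.mk 1 (-1) 0 0 1 (exp (-t / 4) ^ 2 * exp (-t / 4) ^ 2) 0 (exp (-t / 4) ^ 2)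
      (exp (-t / 4) ^ 2) (exp (-t / 4) ^ 2 * exp (-t / 4) ^ 2)).id (t := t) le_rfl (by norm_num) le_rfl
      (by norm_num) (.inl ⟨rfl, h⟩) rfl (exp_pos (-t / 4)) rfl
      (by simp only [Fm.F, sq, ← exp_add]; rw [eq_comm, exp_eq_one_iff]; ring)
      (by simp only [Fm.F, sq, ← exp_add]; congr 1; ring) (by simp)
      (by simp only [Fm.F, sq, ← exp_add]; congr 1; ring) rfl
    obtain ⟨g, h3, h4⟩ := isoR (z := exp (-t / 4) ^ 2) (by positivity)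
      (pow_le_one₀ (exp_pos _).le (exp_le_one_iff.2 (by linarith))) rfl rfl rfl
    have := H e
    rw [Fm.T, g, h3, h4] at this
    have h5 := mul_pos (mul_pos (by norm_num : (0 : ℝ) < 256) (pow_pos (pow_pos (exp_pos (-t / 4)) 2) 2))
      (pow_pos hW 7)
    exact (mul_eq_zero.1 (this.symm.trans (by ring))).resolve_left h5.ne'

end Pool.Agent.Lib.MP_d6150d_an.BB
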