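import Pool.Agent.Lib.MP_d6150d_an.BMLD

/-! A generated chart: the computations. -/

namespace Pool.Agent.Lib.MP_d6150d_an.BML

theorem k0 : chk C 0x888009188800912 [(0, 1408749273088), (0, 4398046511104), (281474976710656,
    387028092977152)] = true := by
  decide +kernel

theorem k1 : chk C 0x88821 [(1408749273088, 2817498546176), (0, 4398046511104), (281474976710656,
    387028092977152)] = true := by
  decide +kernel

theorem k2 : chk C 0x881 [(2817498546176, 5634997092352), (0, 4398046511104), (281474976710656,
    387028092977152)] = true := by
  decide +kernel

theorem k3 : chk C 0x881888882000910 [(0, 5634997092352), (0, 4398046511104), (387028092977152,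
    492581209243648)] = true := by
  decide +kernel

theorem k4 : chk C 0x8818882091888209120 [(0, 2817498546176), (0, 4398046511104), (492581209243648,
    703687441776640)] = true := by
  decide +kernel

theorem k5 : chk C 0x881 [(2817498546176, 5634997092352), (0, 4398046511104), (492581209243648,
    703687441776640)] = true := by
  decide +kernel

theorem k6 : chk C 0x8828888200910 [(0, 5634997092352), (0, 4398046511104), (703687441776640,
    914793674309632)] = true := by
  decide +kernel

theorem k7 : chk C 0x888820910 [(0, 5634997092352), (0, 4398046511104), (914793674309632,
    1125899906842624)] = true := by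
  decide +kernel

end Pool.Agent.Lib.MP_d6150d_an.BML
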