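import Pool.Agent.Lib.MP_d6150d_an.BMLD

/-! A generated chart: the computations. -/

namespace Pool.Agent.Lib.MP_d6150d_an.BML

theorem k8 : chk C 0x88880008888820002 [(0, 5634997092352), (4398046511104, 8796093022208),
    (281474976710656, 492581209243648)] = true := by
  decide +kernel

theorem k9 : chk C 0x88888820000 [(0, 5634997092352), (4398046511104, 8796093022208),
    (492581209243648, 703687441776640)] = true := by
  decide +kernel

theorem k10 : chk C 0x888008888802002 [(0, 5634997092352), (4398046511104, 8796093022208),
    (703687441776640, 1125899906842624)] = true := by
  decide +kernel

theorem k11 : chk C 0x88880008828880102 [(0, 5634997092352), (8796093022208, 17592186044416),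
    (281474976710656, 492581209243648)] = true := by
  decide +kernel

theorem k12 : chk C 0x888882000 [(0, 5634997092352), (8796093022208, 17592186044416),
    (492581209243648, 703687441776640)] = true := by
  decide +kernel

theorem k13 : chk C 0x8880088882002 [(0, 5634997092352), (8796093022208, 17592186044416),
    (703687441776640, 1125899906842624)] = true := by
  decide +kernel

end Pool.Agent.Lib.MP_d6150d_an.BML
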