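import Pool.Agent.Lib.MP_d6150d_an.BMLD

/-! A generated chart: the computations. -/

namespace Pool.Agent.Lib.MP_d6150d_an.BML

theorem k14 : chk C 0x888018808882012 [(0, 5634997092352), (17592186044416, 35184372088832),
    (281474976710656, 492581209243648)] = true := by
  decide +kernel

theorem k15 : chk C 0x882888010 [(0, 5634997092352), (17592186044416, 35184372088832),
    (492581209243648, 703687441776640)] = true := by
  decide +kernel

theorem k16 : chk C 0x88810888102 [(0, 5634997092352), (17592186044416, 35184372088832),
    (703687441776640, 1125899906842624)] = true := by
  decide +kernel

theorem k17 : chk C 0x88088118818880112 [(0, 5634997092352), (35184372088832, 70368744177664),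
    (281474976710656, 492581209243648)] = true := by
  decide +kernel

theorem k18 : chk C 0x880888021 [(0, 5634997092352), (35184372088832, 70368744177664),
    (492581209243648, 703687441776640)] = true := by
  decide +kernel

theorem k19 : chk C 0x8828821 [(0, 5634997092352), (35184372088832, 70368744177664),
    (703687441776640, 1125899906842624)] = true := by
  decide +kernel

theorem k20 : chk C 0x881888012 [(0, 5634997092352), (70368744177664, 105553116266496),
    (281474976710656, 492581209243648)] = true := by
  decide +kernel

end Pool.Agent.Lib.MP_d6150d_an.BML
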