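import Pool.Agent.Lib.MP_d6150d_an.BMLD

/-! A generated chart: the computations. -/

namespace Pool.Agent.Lib.MP_d6150d_an.BML

theorem k21 : chk C 0x8818d288218d2882102 [(0, 5634997092352), (105553116266496, 140737488355328),
    (281474976710656, 492581209243648)] = true := by
  decide +kernel

theorem k22 : chk C 0x881888011 [(0, 5634997092352), (70368744177664, 140737488355328),
    (492581209243648, 703687441776640)] = true := by
  decide +kernel

theorem k23 : chk C 0x880881288288211 [(0, 5634997092352), (70368744177664, 140737488355328),
    (703687441776640, 1125899906842624)] = true := by
  decide +kernel

theorem k24 : chk C 0x8da22880881ad1221 [(0, 5634997092352), (140737488355328, 211106232532992),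
    (281474976710656, 492581209243648)] = true := by
  decide +kernel

theorem k25 : chk C 0x881a2 [(0, 5634997092352), (211106232532992, 281474976710656),
    (281474976710656, 492581209243648)] = true := by
  decide +kernel

theorem k26 : chk C 0x881888211 [(0, 5634997092352), (140737488355328, 281474976710656),
    (492581209243648, 703687441776640)] = true := by
  decide +kernel

theorem k27 : chk C 0x88188088211 [(0, 5634997092352), (140737488355328, 281474976710656),
    (703687441776640, 1125899906842624)] = true := by
  decide +kernel

end Pool.Agent.Lib.MP_d6150d_an.BML
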