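import Pool.Agent.Lib.MP_d6150d_an.BMLD

/-! A generated chart: the computations. -/

namespace Pool.Agent.Lib.MP_d6150d_an.BML

theorem k28 : chk C 0xad1d88111a2 [(0, 5634997092352), (281474976710656, 562949953421312),
    (281474976710656, 492581209243648)] = true := by
  decide +kernel

theorem k29 : chk C 0x881888111 [(0, 5634997092352), (281474976710656, 562949953421312),
    (492581209243648, 703687441776640)] = true := by
  decide +kernel

theorem k30 : chk C 0x881888211 [(0, 5634997092352), (281474976710656, 562949953421312),
    (703687441776640, 1125899906842624)] = true := by
  decide +kernel

theorem k31 : chk C 0x882881882881222 [(5634997092352, 11269994184704), (0, 4398046511104),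
    (281474976710656, 1125899906842624)] = true := by
  decide +kernel

theorem k32 : chk C 0x880888222 [(5634997092352, 11269994184704), (4398046511104, 8796093022208),
    (281474976710656, 1125899906842624)] = true := by
  decide +kernel

theorem k33 : chk C 0x882888222 [(5634997092352, 11269994184704), (8796093022208, 17592186044416),
    (281474976710656, 1125899906842624)] = true := by
  decide +kernel

theorem k34 : chk C 0x88288288188081222 [(5634997092352, 11269994184704), (17592186044416,
    35184372088832), (281474976710656, 1125899906842624)] = true := by
  decide +kernel

end Pool.Agent.Lib.MP_d6150d_an.BML
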