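import Pool.Agent.Lib.MP_d6150d_an.BMLD

/-! A generated chart: the computations. -/

namespace Pool.Agent.Lib.MP_d6150d_an.BML

theorem k35 : chk C 0x8880188821882881122 [(5634997092352, 11269994184704), (35184372088832,
    70368744177664), (281474976710656, 703687441776640)] = true := by
  decide +kernel

theorem k36 : chk C 0x8828821 [(5634997092352, 11269994184704), (35184372088832, 70368744177664),
    (703687441776640, 1125899906842624)] = true := by
  decide +kernel

theorem k37 : chk C 0x881888012 [(5634997092352, 11269994184704), (70368744177664, 105553116266496),
    (281474976710656, 492581209243648)] = true := by
  decide +kernel

theorem k38 : chk C 0x8d28d218d288210 [(5634997092352, 8452495638528), (105553116266496,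
    140737488355328), (281474976710656, 387028092977152)] = true := by
  decide +kernel

theorem k39 : chk C 0x8d28d218d28d210 [(8452495638528, 11269994184704), (105553116266496,
    140737488355328), (281474976710656, 387028092977152)] = true := by
  decide +kernel

theorem k40 : chk C 0x881 [(5634997092352, 11269994184704), (105553116266496, 140737488355328),
    (387028092977152, 492581209243648)] = true := by
  decide +kernel

theorem k41 : chk C 0x8818811 [(5634997092352, 11269994184704), (70368744177664, 140737488355328),
    (492581209243648, 703687441776640)] = true := by
  decide +kernel

theorem k42 : chk C 0x88188288211 [(5634997092352, 11269994184704), (70368744177664,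
    140737488355328), (703687441776640, 1125899906842624)] = true := by
  decide +kernel

end Pool.Agent.Lib.MP_d6150d_an.BML
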