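import Pool.Agent.Lib.MP_d6150d_an.BMLD

/-! A generated chart: the computations. -/

namespace Pool.Agent.Lib.MP_d6150d_an.BML

theorem k43 : chk C 0x8da22880881ad1221 [(5634997092352, 11269994184704), (140737488355328,
    211106232532992), (281474976710656, 492581209243648)] = true := by
  decide +kernel

theorem k44 : chk C 0x881a2 [(5634997092352, 11269994184704), (211106232532992, 281474976710656),
    (281474976710656, 492581209243648)] = true := by
  decide +kernel

theorem k45 : chk C 0x881888211 [(5634997092352, 11269994184704), (140737488355328,
    281474976710656), (492581209243648, 703687441776640)] = true := by
  decide +kernel

theorem k46 : chk C 0x881888211 [(5634997092352, 11269994184704), (140737488355328,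
    281474976710656), (703687441776640, 1125899906842624)] = true := by
  decide +kernel

theorem k47 : chk C 0xa81d88111a2 [(5634997092352, 11269994184704), (281474976710656,
    562949953421312), (281474976710656, 492581209243648)] = true := by
  decide +kernel

theorem k48 : chk C 0x881888211 [(5634997092352, 11269994184704), (281474976710656,
    562949953421312), (492581209243648, 703687441776640)] = true := by
  decide +kernel

theorem k49 : chk C 0x881888211 [(5634997092352, 11269994184704), (281474976710656,
    562949953421312), (703687441776640, 1125899906842624)] = true := by
  decide +kernel

end Pool.Agent.Lib.MP_d6150d_an.BML
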