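import Pool.Agent.Lib.MP_d6150d_an.BMac
import Pool.Agent.Lib.MP_d6150d_an.PpChk
import Pool.Agent.Lib.MP_d6150d_an.BMLK0
import Pool.Agent.Lib.MP_d6150d_an.BMLK1
import Pool.Agent.Lib.MP_d6150d_an.BMLK2
import Pool.Agent.Lib.MP_d6150d_an.BMLK3
import Pool.Agent.Lib.MP_d6150d_an.BMLK4
import Pool.Agent.Lib.MP_d6150d_an.BMLK5
import Pool.Agent.Lib.MP_d6150d_an.BMLK6

/-! A generated chart: the inequality. -/

namespace Pool.Agent.Lib.MP_d6150d_an.BML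

set_option linter.unnecessarySeqFocus false
set_option linter.unusedTactic false
set_option linter.unusedVariables false
set_option linter.unusedSimpArgs false

theorem gd : Gd2 C [(0, 11269994184704), (0, 562949953421312), (281474976710656, 1125899906842624)]
    := .split 0 (.split 1 (.split 1 (.split 1 (.split 1 (.split 1 (.split 1 (.split 1 (.split 2
    (.split 2 (.split 2 (.split 0 (.split 0 (chk_sound2 k0) (chk_sound2 k1)) (chk_sound2 k2))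
    (chk_sound2 k3)) (.split 0 (chk_sound2 k4) (chk_sound2 k5))) (.split 2 (chk_sound2 k6)
    (chk_sound2 k7))) (.split 2 (.split 2 (chk_sound2 k8) (chk_sound2 k9)) (chk_sound2 k10)))
    (.split 2 (.split 2 (chk_sound2 k11) (chk_sound2 k12)) (chk_sound2 k13))) (.split 2 (.split 2
    (chk_sound2 k14) (chk_sound2 k15)) (chk_sound2 k16))) (.split 2 (.split 2 (chk_sound2 k17)
    (chk_sound2 k18)) (chk_sound2 k19))) (.split 2 (.split 2 (.split 1 (chk_sound2 k20) (chk_sound2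
    k21)) (chk_sound2 k22)) (chk_sound2 k23))) (.split 2 (.split 2 (.split 1 (chk_sound2 k24)
    (chk_sound2 k25)) (chk_sound2 k26)) (chk_sound2 k27))) (.split 2 (.split 2 (chk_sound2 k28)
    (chk_sound2 k29)) (chk_sound2 k30))) (.split 1 (.split 1 (.split 1 (.split 1 (.split 1 (.split 1
    (.split 1 (chk_sound2 k31) (chk_sound2 k32)) (chk_sound2 k33)) (chk_sound2 k34)) (.split 2
    (chk_sound2 k35) (chk_sound2 k36))) (.split 2 (.split 2 (.split 1 (chk_sound2 k37) (.split 2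
    (.split 0 (chk_sound2 k38) (chk_sound2 k39)) (chk_sound2 k40))) (chk_sound2 k41)) (chk_sound2
    k42))) (.split 2 (.split 2 (.split 1 (chk_sound2 k43) (chk_sound2 k44)) (chk_sound2 k45))
    (chk_sound2 k46))) (.split 2 (.split 2 (chk_sound2 k47) (chk_sound2 k48)) (chk_sound2 k49)))

set_option maxRecDepth 100000 in
theorem eq {f r t h x s d F c z p x1 P Q R W f2 I H Y V j j2 a b o z24 g V3 S el eu z30 G z32 Z3 z34
    Z4 : ℝ} (hh : h = t * (-1 / 2)) (hx : x = Real.exp h) (hs : s = x * x) (hd : d = r * s) (hF : F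
    = (1 - f) * (1 / 4)) (hc : c = Real.exp (f * h)) (hz : z = x * c) (hp : p = c * z) (hx1 : x1 =
    1) (hP : P = (-1) * ((1 - d) * s)) (hQ : Q = (-1) * ((1 - 2 * d) * x1)) (hR : R = 1 * r) (hW : W
    = P - Q + R) (hf2 : f2 = f * f) (hI : I = ((1 - f2) * (3 + f))⁻¹) (hH : H = 2 * (I * ((1 - d) *
    (3 + 4 * f + f2) * (s - z) + (1 - 2 * d) * (3 - 2 * f - f2) * (x1 - z) + (1 - f2) * (r - d *
    z)))) (hY : Y = (-1) * H) (hV : V = 2 * H) (hj : j = (√(16 * z + V))⁻¹) (hj2 : j2 = j * j) (ha :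
    a = 4 * (c * j)) (hb : b = 64 * (p * j * j2)) (ho : o = 1 - 16 * (z * j2)) (hz24 : z24 = (√V)⁻¹)
    (hg : g = (-1) * (p * V * z24)) (hV3 : V3 = V * V * V) (hS : S = (√(16 * r + 1))⁻¹) (hel : el =
    744 * (r * S)) (heu : eu = 53 * ((16 * r + 1) * S)) (hz30 : z30 = BB.Gb f d F F P Q R Y W V z a
    b o g) (hG : G = 40000 * (1 / 1099511627776 * z30)) (hz32 : z32 = BB.H3 f d F F P Q R Y W a b o)
    (hZ3 : Z3 = 51200 * (1 / 1099511627776 * (V3 * z32))) (hz34 : z34 = BB.H4 f d F F P Q R Y W a b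
    o) (hZ4 : Z4 = 256 * (1 / 1099511627776 * (V3 * V * z34))) : outR prog 0 [f, r, t] = -(G + el *
    (Z3 + el * Z4)) ∧ outR prog 1 [f, r, t] = -(2 * G + (el + eu) * Z3 + 2 * (el * (eu * Z4))) ∧
    outR prog 2 [f, r, t] = -(G + eu * (Z3 + eu * Z4)) ∧ outR (prog.take 11) 0 [f, r, t] = 3 - 32 *
    d := by
  replace hh : h = (((Int.cast (-1) : ℝ) / (Nat.cast 2 : ℝ)) * t) := hh.trans (by push_cast <;>
    ring)
  replace hs : s = (x * x) := hs.trans (by push_cast <;> ring)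
  replace hd : d = (r * s) := hd.trans (by push_cast <;> ring)
  replace hF : F = (((Int.cast (1) : ℝ) / (Nat.cast 4 : ℝ)) * ((Int.cast (1) : ℝ) - f)) := hF.trans
    (by push_cast <;> ring)
  replace hc : c = (Real.exp (f * h)) := hc.trans (congrArg Real.exp (by push_cast <;> ring))
  replace hz : z = (x * c) := hz.trans (by push_cast <;> ring)
  replace hp : p = (c * z) := hp.trans (by push_cast <;> ring)
  replace hx1 : x1 = (Int.cast (1) : ℝ) := hx1.trans (by push_cast <;> ring)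
  replace hP : P = ((Int.cast (-1) : ℝ) * (((Int.cast (1) : ℝ) - d) * s)) := hP.trans (by push_cast
    <;> ring)
  replace hQ : Q = ((Int.cast (-1) : ℝ) * (((Int.cast (1) : ℝ) - ((Int.cast (2) : ℝ) * d)) * x1)) :=
    hQ.trans (by push_cast <;> ring)
  replace hR : R = ((Int.cast (1) : ℝ) * r) := hR.trans (by push_cast <;> ring)
  replace hW : W = ((P - Q) + R) := hW.trans (by push_cast <;> ring)
  replace hf2 : f2 = (f * f) := hf2.trans (by push_cast <;> ring)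
  replace hI : I = (((Int.cast (1) : ℝ) - f2) * ((Int.cast (3) : ℝ) + f))⁻¹ := hI.trans (by
    push_cast <;> ring)
  replace hH : H = ((Int.cast (2) : ℝ) * (I * ((((((Int.cast (1) : ℝ) - d) * (((Int.cast (3) : ℝ) +
    ((Int.cast (4) : ℝ) * f)) + f2)) * (s - z)) + ((((Int.cast (1) : ℝ) - ((Int.cast (2) : ℝ) * d))
    * (((Int.cast (3) : ℝ) - ((Int.cast (2) : ℝ) * f)) - f2)) * (x1 - z))) + (((Int.cast (1) : ℝ) -
    f2) * (r - (d * z)))))) := hH.trans (by push_cast <;> ring)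
  replace hY : Y = ((Int.cast (-1) : ℝ) * H) := hY.trans (by push_cast <;> ring)
  replace hV : V = ((Int.cast (2) : ℝ) * H) := hV.trans (by push_cast <;> ring)
  replace hj : j = (√(((Int.cast (16) : ℝ) * z) + V))⁻¹ := hj.trans (congrArg (fun x : ℝ ↦ (√x)⁻¹)
    (by push_cast <;> ring))
  replace hj2 : j2 = (j * j) := hj2.trans (by push_cast <;> ring)
  replace ha : a = ((Int.cast (4) : ℝ) * (c * j)) := ha.trans (by push_cast <;> ring)
  replace hb : b = ((Int.cast (64) : ℝ) * ((p * j) * j2)) := hb.trans (by push_cast <;> ring)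
  replace ho : o = ((Int.cast (1) : ℝ) - ((Int.cast (16) : ℝ) * (z * j2))) := ho.trans (by push_cast
    <;> ring)
  replace hg : g = ((Int.cast (-1) : ℝ) * ((p * V) * z24)) := hg.trans (by push_cast <;> ring)
  replace hV3 : V3 = ((V * V) * V) := hV3.trans (by push_cast <;> ring)
  replace hS : S = (√(((Int.cast (16) : ℝ) * r) + (Int.cast (1) : ℝ)))⁻¹ := hS.trans (congrArg (fun
    x : ℝ ↦ (√x)⁻¹) (by push_cast <;> ring))
  replace hel : el = ((Int.cast (744) : ℝ) * (r * S)) := hel.trans (by push_cast <;> ring)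
  replace heu : eu = ((Int.cast (53) : ℝ) * ((((Int.cast (16) : ℝ) * r) + (Int.cast (1) : ℝ)) * S))
    := heu.trans (by push_cast <;> ring)
  replace hz30 : z30 = (BB.mO f d F F P Q R Y W V z a b o g).1 := hz30.trans (BB.mO_0 ..)
  replace hG : G = ((Int.cast (40000) : ℝ) * (((Int.cast (1) : ℝ) / (Nat.cast 1099511627776 : ℝ)) *
    z30)) := hG.trans (by push_cast <;> ring)
  replace hz32 : z32 = (BB.mO f d F F P Q R Y W V z a b o g).2.1 := hz32.trans (BB.mO_1 ..)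
  replace hZ3 : Z3 = ((Int.cast (51200) : ℝ) * (((Int.cast (1) : ℝ) / (Nat.cast 1099511627776 : ℝ))
    * (V3 * z32))) := hZ3.trans (by push_cast <;> ring)
  replace hz34 : z34 = (BB.mO f d F F P Q R Y W V z a b o g).2.2 := hz34.trans (BB.mO_2 ..)
  replace hZ4 : Z4 = ((Int.cast (256) : ℝ) * (((Int.cast (1) : ℝ) / (Nat.cast 1099511627776 : ℝ)) *
    ((V3 * V) * z34))) := hZ4.trans (by push_cast <;> ring)
  have e0 : ((Int.cast (-1) : ℝ) * (G + (el * (Z3 + (el * Z4))))) = -(G + el * (Z3 + el * Z4)) := by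
    push_cast <;> ring
  have e1 : ((Int.cast (-1) : ℝ) * ((((Int.cast (2) : ℝ) * G) + ((el + eu) * Z3)) + ((Int.cast (2) :
    ℝ) * (el * (eu * Z4))))) = -(2 * G + (el + eu) * Z3 + 2 * (el * (eu * Z4))) := by push_cast <;>
    ring
  have e2 : ((Int.cast (-1) : ℝ) * (G + (eu * (Z3 + (eu * Z4))))) = -(G + eu * (Z3 + eu * Z4)) := by
    push_cast <;> ring
  have e3 : ((Int.cast (3) : ℝ) - ((Int.cast (32) : ℝ) * d)) = 3 - 32 * d := by push_cast <;> ring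
  subst hh hx hs hd hF hc hz hp hx1 hP hQ hR hW hf2 hI hH hY hV hj hj2 ha hb ho hz24 hg hV3 hS hel
    heu hz30 hG hz32 hZ3 hz34 hZ4
  refine ⟨Eq.trans ?_ e0, Eq.trans ?_ e1, Eq.trans ?_ e2, Eq.trans ?_ e3⟩ <;>
    simp only [outR, prog, prog1, prog2, prog3, prog4, prog5, prog6, prog7, prog8, runR, stepR, gtR,
      List.take, BB.mO, BB.mC]

theorem l0 : ((0 : ℤ) : ℝ) / 2 ^ 47 = 0 := by norm_num
theorem u0 : (41 / 512 : ℝ) = ((11269994184704 : ℤ) : ℝ) / 2 ^ 47 := by norm_num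
theorem l1 : ((0 : ℤ) : ℝ) / 2 ^ 47 = 0 := by norm_num
theorem u1 : (4 : ℝ) = ((562949953421312 : ℤ) : ℝ) / 2 ^ 47 := by norm_num
theorem l2 : ((281474976710656 : ℤ) : ℝ) / 2 ^ 47 = 2 := by norm_num
theorem u2 : (8 : ℝ) = ((1125899906842624 : ℤ) : ℝ) / 2 ^ 47 := by norm_num

theorem out0 (N : ∀ t : ℝ, 2 ≤ t → t ≤ 8 → 0 ≤ outR prog 0 [0, 0, t]) {f r t : ℝ} (a0 : 0 ≤ f) (b0 :
    f ≤ 41 / 512) (a1 : 0 ≤ r) (b1 : r ≤ 4) (a2 : 2 ≤ t) (b2 : t ≤ 8) (pc : 0 < f ∨ 0 < r) (c0 : 0 ≤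
    outR (prog.take 11) 0 [f, r, t]) : 0 < outR prog 0 [f, r, t] :=
  gd 0 (by decide) [f, r, t] (.cons ⟨l0.le.trans a0, b0.trans u0.le⟩ (.cons ⟨l1.le.trans a1,
    b1.trans u1.le⟩ (.cons ⟨l2.le.trans a2, b2.trans u2.le⟩ (.nil)))) ⟨nofun, nofun, nofun, trivial⟩
    (fun _ ↦ pc.elim (fun h ↦ .inl ⟨rfl, h⟩) (fun h ↦ .inr (.inl ⟨rfl, h⟩))) (List.forall_mem_cons.2
    ⟨c0, List.forall_mem_nil _⟩) (Van.of0 rfl) (fun _ _ _ _ _ _ _ y2 a2 b2 ↦ N y2 (l2.ge.trans a2)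
    (b2.trans u2.ge))

theorem out1 (N : ∀ t : ℝ, 2 ≤ t → t ≤ 8 → 0 ≤ outR prog 1 [0, 0, t]) {f r t : ℝ} (a0 : 0 ≤ f) (b0 :
    f ≤ 41 / 512) (a1 : 0 ≤ r) (b1 : r ≤ 4) (a2 : 2 ≤ t) (b2 : t ≤ 8) (pc : 0 < f ∨ 0 < r) (c0 : 0 ≤
    outR (prog.take 11) 0 [f, r, t]) : 0 < outR prog 1 [f, r, t] :=
  gd 1 (by decide) [f, r, t] (.cons ⟨l0.le.trans a0, b0.trans u0.le⟩ (.cons ⟨l1.le.trans a1,
    b1.trans u1.le⟩ (.cons ⟨l2.le.trans a2, b2.trans u2.le⟩ (.nil)))) ⟨nofun, nofun, nofun, trivial⟩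
    (fun _ ↦ pc.elim (fun h ↦ .inl ⟨rfl, h⟩) (fun h ↦ .inr (.inl ⟨rfl, h⟩))) (List.forall_mem_cons.2
    ⟨c0, List.forall_mem_nil _⟩) (Van.of0 rfl) (fun _ _ _ _ _ _ _ y2 a2 b2 ↦ N y2 (l2.ge.trans a2)
    (b2.trans u2.ge))

theorem out2 (N : ∀ t : ℝ, 2 ≤ t → t ≤ 8 → 0 ≤ outR prog 2 [0, 0, t]) {f r t : ℝ} (a0 : 0 ≤ f) (b0 :
    f ≤ 41 / 512) (a1 : 0 ≤ r) (b1 : r ≤ 4) (a2 : 2 ≤ t) (b2 : t ≤ 8) (pc : 0 < f ∨ 0 < r) (c0 : 0 ≤
    outR (prog.take 11) 0 [f, r, t]) : 0 < outR prog 2 [f, r, t] :=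
  gd 2 (by decide) [f, r, t] (.cons ⟨l0.le.trans a0, b0.trans u0.le⟩ (.cons ⟨l1.le.trans a1,
    b1.trans u1.le⟩ (.cons ⟨l2.le.trans a2, b2.trans u2.le⟩ (.nil)))) ⟨nofun, nofun, nofun, trivial⟩
    (fun _ ↦ pc.elim (fun h ↦ .inl ⟨rfl, h⟩) (fun h ↦ .inr (.inl ⟨rfl, h⟩))) (List.forall_mem_cons.2
    ⟨c0, List.forall_mem_nil _⟩) (Van.of0 rfl) (fun _ _ _ _ _ _ _ y2 a2 b2 ↦ N y2 (l2.ge.trans a2)
    (b2.trans u2.ge))

end Pool.Agent.Lib.MP_d6150d_an.BML
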