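import Pool.Agent.Lib.MP_d6150d_an.BTLD

/-! A generated chart: the computations. -/

namespace Pool.Agent.Lib.MP_d6150d_an.BTL

theorem k0 : chk C 0x888109388820932 [(0, 1408749273088), (0, 28587302322176), (0, 2611340115968),
    (0, 4398046511104)] = true := by
  decide +kernel

theorem k1 : chk C 0x882 [(1408749273088, 2817498546176), (0, 28587302322176), (0, 2611340115968),
    (0, 4398046511104)] = true := by
  decide +kernel

theorem k2 : chk C 0x8 [(2817498546176, 5634997092352), (0, 28587302322176), (0, 2611340115968), (0,
    4398046511104)] = true := by
  decide +kernel

theorem k3 : chk C 0x8 [(5634997092352, 11269994184704), (0, 28587302322176), (0, 2611340115968),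
    (0, 4398046511104)] = true := by
  decide +kernel

theorem k4 : chk C 0x88888820000 [(0, 11269994184704), (0, 28587302322176), (0, 2611340115968),
    (4398046511104, 8796093022208)] = true := by
  decide +kernel

theorem k5 : chk C 0x888880000 [(0, 11269994184704), (0, 28587302322176), (0, 2611340115968),
    (8796093022208, 17592186044416)] = true := by
  decide +kernel

theorem k6 : chk C 0x882888000 [(0, 11269994184704), (0, 28587302322176), (0, 2611340115968),
    (17592186044416, 35184372088832)] = true := by
  decide +kernel

end Pool.Agent.Lib.MP_d6150d_an.BTL
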