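import Pool.Agent.Lib.MP_d6150d_an.BTLD

/-! A generated chart: the computations. -/

namespace Pool.Agent.Lib.MP_d6150d_an.BTL

theorem k7 : chk C 0x880888000 [(0, 11269994184704), (0, 28587302322176), (0, 2611340115968),
    (35184372088832, 70368744177664)] = true := by
  decide +kernel

theorem k8 : chk C 0x8880388088030 [(0, 11269994184704), (0, 28587302322176), (0, 2611340115968),
    (70368744177664, 140737488355328)] = true := by
  decide +kernel

theorem k9 : chk C 0x888338808880030 [(0, 11269994184704), (0, 28587302322176), (0, 2611340115968),
    (140737488355328, 281474976710656)] = true := by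
  decide +kernel

theorem k10 : chk C 0x8882088388303 [(0, 11269994184704), (0, 28587302322176), (0, 2611340115968),
    (281474976710656, 562949953421312)] = true := by
  decide +kernel

end Pool.Agent.Lib.MP_d6150d_an.BTL
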