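import Pool.Agent.Lib.MP_d6150d_an.BMac
import Pool.Agent.Lib.MP_d6150d_an.PpChk
import Pool.Agent.Lib.MP_d6150d_an.BTLK0
import Pool.Agent.Lib.MP_d6150d_an.BTLK1

/-! A generated chart: the inequality. -/

namespace Pool.Agent.Lib.MP_d6150d_an.BTL

set_option linter.unnecessarySeqFocus false
set_option linter.unusedTactic false
set_option linter.unusedVariables false
set_option linter.unusedSimpArgs false

theorem gd : Gd2 C [(0, 11269994184704), (0, 28587302322176), (0, 2611340115968), (0,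
    562949953421312)] := .split 3 (.split 3 (.split 3 (.split 3 (.split 3 (.split 3 (.split 3
    (.split 0 (.split 0 (.split 0 (chk_sound2 k0) (chk_sound2 k1)) (chk_sound2 k2)) (chk_sound2 k3))
    (chk_sound2 k4)) (chk_sound2 k5)) (chk_sound2 k6)) (chk_sound2 k7)) (chk_sound2 k8)) (chk_sound2
    k9)) (chk_sound2 k10)

set_option maxRecDepth 100000 in
theorem eq {f m z r F p s d x1 c P Q R W f2 I H Y V j j2 a b o z21 g b2 g2 V3 S el eu z29 G z31 Z3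
    z33 Z4 z35 Gb z37 Z3b z39 Z4b : ℝ} (hF : F = (1 - f) * (1 / 4)) (hp : p = z - f * (19 / 256))
    (hs : s = z * (z + f * m)) (hd : d = r * s) (hx1 : x1 = 1) (hc : c = 1) (hP : P = (-1) * ((1 -
    d) * s)) (hQ : Q = (-1) * ((1 - 2 * d) * x1)) (hR : R = 1 * r) (hW : W = P - Q + R) (hf2 : f2 =
    f * f) (hI : I = ((1 - f2) * (3 + f))⁻¹) (hH : H = 2 * (I * ((1 - d) * (3 + 4 * f + f2) * (s -
    z) + (1 - 2 * d) * (3 - 2 * f - f2) * (x1 - z) + (1 - f2) * (r - d * z)))) (hY : Y = (-1) * H)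
    (hV : V = 2 * H) (hj : j = (√(16 * z + V))⁻¹) (hj2 : j2 = j * j) (ha : a = 4 * (c * j)) (hb : b
    = 64 * (z * j * j2)) (ho : o = 1 - 16 * (z * j2)) (hz21 : z21 = (√V)⁻¹) (hg : g = (-1) * (z * V
    * z21)) (hb2 : b2 = 64 * (p * j * j2)) (hg2 : g2 = (-1) * (p * V * z21)) (hV3 : V3 = V * V * V)
    (hS : S = (√(16 * r + 1))⁻¹) (hel : el = 744 * (r * S)) (heu : eu = 53 * ((16 * r + 1) * S))
    (hz29 : z29 = BB.Gb f d F F P Q R Y W V z a b o g) (hG : G = 40000 * (1 / 1099511627776 * z29))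
    (hz31 : z31 = BB.H3 f d F F P Q R Y W a b o) (hZ3 : Z3 = 51200 * (1 / 1099511627776 * (V3 *
    z31))) (hz33 : z33 = BB.H4 f d F F P Q R Y W a b o) (hZ4 : Z4 = 256 * (1 / 1099511627776 * (V3 *
    V * z33))) (hz35 : z35 = BB.Gb f d F F P Q R Y W V z a b2 o g2) (hGb : Gb = 40000 * (1 /
    1099511627776 * z35)) (hz37 : z37 = BB.H3 f d F F P Q R Y W a b2 o) (hZ3b : Z3b = 51200 * (1 /
    1099511627776 * (V3 * z37))) (hz39 : z39 = BB.H4 f d F F P Q R Y W a b2 o) (hZ4b : Z4b = 256 *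
    (1 / 1099511627776 * (V3 * V * z39))) : outR prog 0 [f, m, z, r] = -(G + el * (Z3 + el * Z4)) ∧
    outR prog 1 [f, m, z, r] = -(2 * G + (el + eu) * Z3 + 2 * (el * (eu * Z4))) ∧ outR prog 2 [f, m,
    z, r] = -(G + eu * (Z3 + eu * Z4)) ∧ outR prog 3 [f, m, z, r] = -(Gb + el * (Z3b + el * Z4b)) ∧
    outR prog 4 [f, m, z, r] = -(2 * Gb + (el + eu) * Z3b + 2 * (el * (eu * Z4b))) ∧ outR prog 5 [f,
    m, z, r] = -(Gb + eu * (Z3b + eu * Z4b)) := by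
  replace hF : F = (((Int.cast (1) : ℝ) / (Nat.cast 4 : ℝ)) * ((Int.cast (1) : ℝ) - f)) := hF.trans
    (by push_cast <;> ring)
  replace hp : p = (z - (((Int.cast (19) : ℝ) / (Nat.cast 256 : ℝ)) * f)) := hp.trans (by push_cast
    <;> ring)
  replace hs : s = (z * (z + (f * m))) := hs.trans (by push_cast <;> ring)
  replace hd : d = (r * s) := hd.trans (by push_cast <;> ring)
  replace hx1 : x1 = (Int.cast (1) : ℝ) := hx1.trans (by push_cast <;> ring)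
  replace hc : c = (Int.cast (1) : ℝ) := hc.trans (by push_cast <;> ring)
  replace hP : P = ((Int.cast (-1) : ℝ) * (((Int.cast (1) : ℝ) - d) * s)) := hP.trans (by push_cast
    <;> ring)
  replace hQ : Q = ((Int.cast (-1) : ℝ) * (((Int.cast (1) : ℝ) - ((Int.cast (2) : ℝ) * d)) * x1)) :=
    hQ.trans (by push_cast <;> ring)
  replace hR : R = ((Int.cast (1) : ℝ) * r) := hR.trans (by push_cast <;> ring)
  replace hW : W = ((P - Q) + R) := hW.trans (by push_cast <;> ring)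
  replace hf2 : f2 = (f * f) := hf2.trans (by push_cast <;> ring)
  replace hI : I = (((Int.cast (1) : ℝ) - f2) * ((Int.cast (3) : ℝ) + f))⁻¹ := hI.trans (by
    push_cast <;> ring)
  replace hH : H = ((Int.cast (2) : ℝ) * (I * ((((((Int.cast (1) : ℝ) - d) * (((Int.cast (3) : ℝ) +
    ((Int.cast (4) : ℝ) * f)) + f2)) * (s - z)) + ((((Int.cast (1) : ℝ) - ((Int.cast (2) : ℝ) * d))
    * (((Int.cast (3) : ℝ) - ((Int.cast (2) : ℝ) * f)) - f2)) * (x1 - z))) + (((Int.cast (1) : ℝ) -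
    f2) * (r - (d * z)))))) := hH.trans (by push_cast <;> ring)
  replace hY : Y = ((Int.cast (-1) : ℝ) * H) := hY.trans (by push_cast <;> ring)
  replace hV : V = ((Int.cast (2) : ℝ) * H) := hV.trans (by push_cast <;> ring)
  replace hj : j = (√(((Int.cast (16) : ℝ) * z) + V))⁻¹ := hj.trans (congrArg (fun x : ℝ ↦ (√x)⁻¹)
    (by push_cast <;> ring))
  replace hj2 : j2 = (j * j) := hj2.trans (by push_cast <;> ring)
  replace ha : a = ((Int.cast (4) : ℝ) * (c * j)) := ha.trans (by push_cast <;> ring)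
  replace hb : b = ((Int.cast (64) : ℝ) * ((z * j) * j2)) := hb.trans (by push_cast <;> ring)
  replace ho : o = ((Int.cast (1) : ℝ) - ((Int.cast (16) : ℝ) * (z * j2))) := ho.trans (by push_cast
    <;> ring)
  replace hg : g = ((Int.cast (-1) : ℝ) * ((z * V) * z21)) := hg.trans (by push_cast <;> ring)
  replace hb2 : b2 = ((Int.cast (64) : ℝ) * ((p * j) * j2)) := hb2.trans (by push_cast <;> ring)
  replace hg2 : g2 = ((Int.cast (-1) : ℝ) * ((p * V) * z21)) := hg2.trans (by push_cast <;> ring)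
  replace hV3 : V3 = ((V * V) * V) := hV3.trans (by push_cast <;> ring)
  replace hS : S = (√(((Int.cast (16) : ℝ) * r) + (Int.cast (1) : ℝ)))⁻¹ := hS.trans (congrArg (fun
    x : ℝ ↦ (√x)⁻¹) (by push_cast <;> ring))
  replace hel : el = ((Int.cast (744) : ℝ) * (r * S)) := hel.trans (by push_cast <;> ring)
  replace heu : eu = ((Int.cast (53) : ℝ) * ((((Int.cast (16) : ℝ) * r) + (Int.cast (1) : ℝ)) * S))
    := heu.trans (by push_cast <;> ring)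
  replace hz29 : z29 = (BB.mO f d F F P Q R Y W V z a b o g).1 := hz29.trans (BB.mO_0 ..)
  replace hG : G = ((Int.cast (40000) : ℝ) * (((Int.cast (1) : ℝ) / (Nat.cast 1099511627776 : ℝ)) *
    z29)) := hG.trans (by push_cast <;> ring)
  replace hz31 : z31 = (BB.mO f d F F P Q R Y W V z a b o g).2.1 := hz31.trans (BB.mO_1 ..)
  replace hZ3 : Z3 = ((Int.cast (51200) : ℝ) * (((Int.cast (1) : ℝ) / (Nat.cast 1099511627776 : ℝ))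
    * (V3 * z31))) := hZ3.trans (by push_cast <;> ring)
  replace hz33 : z33 = (BB.mO f d F F P Q R Y W V z a b o g).2.2 := hz33.trans (BB.mO_2 ..)
  replace hZ4 : Z4 = ((Int.cast (256) : ℝ) * (((Int.cast (1) : ℝ) / (Nat.cast 1099511627776 : ℝ)) *
    ((V3 * V) * z33))) := hZ4.trans (by push_cast <;> ring)
  replace hz35 : z35 = (BB.mO f d F F P Q R Y W V z a b2 o g2).1 := hz35.trans (BB.mO_0 ..)
  replace hGb : Gb = ((Int.cast (40000) : ℝ) * (((Int.cast (1) : ℝ) / (Nat.cast 1099511627776 : ℝ))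
    * z35)) := hGb.trans (by push_cast <;> ring)
  replace hz37 : z37 = (BB.mO f d F F P Q R Y W V z a b2 o g2).2.1 := hz37.trans (BB.mO_1 ..)
  replace hZ3b : Z3b = ((Int.cast (51200) : ℝ) * (((Int.cast (1) : ℝ) / (Nat.cast 1099511627776 :
    ℝ)) * (V3 * z37))) := hZ3b.trans (by push_cast <;> ring)
  replace hz39 : z39 = (BB.mO f d F F P Q R Y W V z a b2 o g2).2.2 := hz39.trans (BB.mO_2 ..)
  replace hZ4b : Z4b = ((Int.cast (256) : ℝ) * (((Int.cast (1) : ℝ) / (Nat.cast 1099511627776 : ℝ))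
    * ((V3 * V) * z39))) := hZ4b.trans (by push_cast <;> ring)
  have e0 : ((Int.cast (-1) : ℝ) * (G + (el * (Z3 + (el * Z4))))) = -(G + el * (Z3 + el * Z4)) := by
    push_cast <;> ring
  have e1 : ((Int.cast (-1) : ℝ) * ((((Int.cast (2) : ℝ) * G) + ((el + eu) * Z3)) + ((Int.cast (2) :
    ℝ) * (el * (eu * Z4))))) = -(2 * G + (el + eu) * Z3 + 2 * (el * (eu * Z4))) := by push_cast <;>
    ring
  have e2 : ((Int.cast (-1) : ℝ) * (G + (eu * (Z3 + (eu * Z4))))) = -(G + eu * (Z3 + eu * Z4)) := by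
    push_cast <;> ring
  have e3 : ((Int.cast (-1) : ℝ) * (Gb + (el * (Z3b + (el * Z4b))))) = -(Gb + el * (Z3b + el * Z4b))
    := by push_cast <;> ring
  have e4 : ((Int.cast (-1) : ℝ) * ((((Int.cast (2) : ℝ) * Gb) + ((el + eu) * Z3b)) + ((Int.cast (2)
    : ℝ) * (el * (eu * Z4b))))) = -(2 * Gb + (el + eu) * Z3b + 2 * (el * (eu * Z4b))) := by
    push_cast <;> ring
  have e5 : ((Int.cast (-1) : ℝ) * (Gb + (eu * (Z3b + (eu * Z4b))))) = -(Gb + eu * (Z3b + eu * Z4b))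
    := by push_cast <;> ring
  subst hF hp hs hd hx1 hc hP hQ hR hW hf2 hI hH hY hV hj hj2 ha hb ho hz21 hg hb2 hg2 hV3 hS hel
    heu hz29 hG hz31 hZ3 hz33 hZ4 hz35 hGb hz37 hZ3b hz39 hZ4b
  refine ⟨Eq.trans ?_ e0, Eq.trans ?_ e1, Eq.trans ?_ e2, Eq.trans ?_ e3, Eq.trans ?_ e4, Eq.trans
    ?_ e5⟩ <;>
    simp only [outR, prog, prog1, prog2, prog3, prog4, prog5, prog6, prog7, prog8, prog9, runR,
      stepR, gtR, List.take, BB.mO, BB.mC]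

theorem l0 : ((0 : ℤ) : ℝ) / 2 ^ 47 = 0 := by norm_num
theorem u0 : (41 / 512 : ℝ) = ((11269994184704 : ℤ) : ℝ) / 2 ^ 47 := by norm_num
theorem l1 : ((0 : ℤ) : ℝ) / 2 ^ 47 = 0 := by norm_num
theorem u1 : (13 / 64 : ℝ) = ((28587302322176 : ℤ) : ℝ) / 2 ^ 47 := by norm_num
theorem l2 : ((0 : ℤ) : ℝ) / 2 ^ 47 = 0 := by norm_num
theorem u2 : (19 / 1024 : ℝ) = ((2611340115968 : ℤ) : ℝ) / 2 ^ 47 := by norm_num
theorem l3 : ((0 : ℤ) : ℝ) / 2 ^ 47 = 0 := by norm_num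
theorem u3 : (4 : ℝ) = ((562949953421312 : ℤ) : ℝ) / 2 ^ 47 := by norm_num

theorem out0 (N : ∀ m z : ℝ, 0 ≤ m → m ≤ 13 / 64 → 0 ≤ z → z ≤ 19 / 1024 → 0 ≤ outR prog 0 [0, m, z,
    0]) {f m z r : ℝ} (a0 : 0 ≤ f) (b0 : f ≤ 41 / 512) (a1 : 0 ≤ m) (b1 : m ≤ 13 / 64) (a2 : 0 ≤ z)
    (b2 : z ≤ 19 / 1024) (a3 : 0 ≤ r) (b3 : r ≤ 4) (pc : 0 < f ∨ 0 < r) : 0 < outR prog 0 [f, m, z,
    r] :=
  gd 0 (by decide) [f, m, z, r] (.cons ⟨l0.le.trans a0, b0.trans u0.le⟩ (.cons ⟨l1.le.trans a1,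
    b1.trans u1.le⟩ (.cons ⟨l2.le.trans a2, b2.trans u2.le⟩ (.cons ⟨l3.le.trans a3, b3.trans u3.le⟩
    (.nil))))) ⟨nofun, nofun, nofun, nofun, trivial⟩ (fun _ ↦ pc.elim (fun h ↦ .inl ⟨rfl, h⟩) (fun h
    ↦ .inr (.inr (.inr (.inl ⟨rfl, h⟩))))) (List.forall_mem_nil _) (Van.of0 rfl) (fun _ _ _ _ y1 a1
    b1 y2 a2 b2 _ _ _ ↦ N y1 y2 (l1.ge.trans a1) (b1.trans u1.ge) (l2.ge.trans a2) (b2.trans u2.ge))

theorem out1 (N : ∀ m z : ℝ, 0 ≤ m → m ≤ 13 / 64 → 0 ≤ z → z ≤ 19 / 1024 → 0 ≤ outR prog 1 [0, m, z,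
    0]) {f m z r : ℝ} (a0 : 0 ≤ f) (b0 : f ≤ 41 / 512) (a1 : 0 ≤ m) (b1 : m ≤ 13 / 64) (a2 : 0 ≤ z)
    (b2 : z ≤ 19 / 1024) (a3 : 0 ≤ r) (b3 : r ≤ 4) (pc : 0 < f ∨ 0 < r) : 0 < outR prog 1 [f, m, z,
    r] :=
  gd 1 (by decide) [f, m, z, r] (.cons ⟨l0.le.trans a0, b0.trans u0.le⟩ (.cons ⟨l1.le.trans a1,
    b1.trans u1.le⟩ (.cons ⟨l2.le.trans a2, b2.trans u2.le⟩ (.cons ⟨l3.le.trans a3, b3.trans u3.le⟩
    (.nil))))) ⟨nofun, nofun, nofun, nofun, trivial⟩ (fun _ ↦ pc.elim (fun h ↦ .inl ⟨rfl, h⟩) (fun h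
    ↦ .inr (.inr (.inr (.inl ⟨rfl, h⟩))))) (List.forall_mem_nil _) (Van.of0 rfl) (fun _ _ _ _ y1 a1
    b1 y2 a2 b2 _ _ _ ↦ N y1 y2 (l1.ge.trans a1) (b1.trans u1.ge) (l2.ge.trans a2) (b2.trans u2.ge))

theorem out2 (N : ∀ m z : ℝ, 0 ≤ m → m ≤ 13 / 64 → 0 ≤ z → z ≤ 19 / 1024 → 0 ≤ outR prog 2 [0, m, z,
    0]) {f m z r : ℝ} (a0 : 0 ≤ f) (b0 : f ≤ 41 / 512) (a1 : 0 ≤ m) (b1 : m ≤ 13 / 64) (a2 : 0 ≤ z)
    (b2 : z ≤ 19 / 1024) (a3 : 0 ≤ r) (b3 : r ≤ 4) (pc : 0 < f ∨ 0 < r) : 0 < outR prog 2 [f, m, z,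
    r] :=
  gd 2 (by decide) [f, m, z, r] (.cons ⟨l0.le.trans a0, b0.trans u0.le⟩ (.cons ⟨l1.le.trans a1,
    b1.trans u1.le⟩ (.cons ⟨l2.le.trans a2, b2.trans u2.le⟩ (.cons ⟨l3.le.trans a3, b3.trans u3.le⟩
    (.nil))))) ⟨nofun, nofun, nofun, nofun, trivial⟩ (fun _ ↦ pc.elim (fun h ↦ .inl ⟨rfl, h⟩) (fun h
    ↦ .inr (.inr (.inr (.inl ⟨rfl, h⟩))))) (List.forall_mem_nil _) (Van.of0 rfl) (fun _ _ _ _ y1 a1
    b1 y2 a2 b2 _ _ _ ↦ N y1 y2 (l1.ge.trans a1) (b1.trans u1.ge) (l2.ge.trans a2) (b2.trans u2.ge))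

theorem out3 (N : ∀ m z : ℝ, 0 ≤ m → m ≤ 13 / 64 → 0 ≤ z → z ≤ 19 / 1024 → 0 ≤ outR prog 3 [0, m, z,
    0]) {f m z r : ℝ} (a0 : 0 ≤ f) (b0 : f ≤ 41 / 512) (a1 : 0 ≤ m) (b1 : m ≤ 13 / 64) (a2 : 0 ≤ z)
    (b2 : z ≤ 19 / 1024) (a3 : 0 ≤ r) (b3 : r ≤ 4) (pc : 0 < f ∨ 0 < r) : 0 < outR prog 3 [f, m, z,
    r] :=
  gd 3 (by decide) [f, m, z, r] (.cons ⟨l0.le.trans a0, b0.trans u0.le⟩ (.cons ⟨l1.le.trans a1,
    b1.trans u1.le⟩ (.cons ⟨l2.le.trans a2, b2.trans u2.le⟩ (.cons ⟨l3.le.trans a3, b3.trans u3.le⟩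
    (.nil))))) ⟨nofun, nofun, nofun, nofun, trivial⟩ (fun _ ↦ pc.elim (fun h ↦ .inl ⟨rfl, h⟩) (fun h
    ↦ .inr (.inr (.inr (.inl ⟨rfl, h⟩))))) (List.forall_mem_nil _) (Van.of0 rfl) (fun _ _ _ _ y1 a1
    b1 y2 a2 b2 _ _ _ ↦ N y1 y2 (l1.ge.trans a1) (b1.trans u1.ge) (l2.ge.trans a2) (b2.trans u2.ge))

theorem out4 (N : ∀ m z : ℝ, 0 ≤ m → m ≤ 13 / 64 → 0 ≤ z → z ≤ 19 / 1024 → 0 ≤ outR prog 4 [0, m, z,
    0]) {f m z r : ℝ} (a0 : 0 ≤ f) (b0 : f ≤ 41 / 512) (a1 : 0 ≤ m) (b1 : m ≤ 13 / 64) (a2 : 0 ≤ z)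
    (b2 : z ≤ 19 / 1024) (a3 : 0 ≤ r) (b3 : r ≤ 4) (pc : 0 < f ∨ 0 < r) : 0 < outR prog 4 [f, m, z,
    r] :=
  gd 4 (by decide) [f, m, z, r] (.cons ⟨l0.le.trans a0, b0.trans u0.le⟩ (.cons ⟨l1.le.trans a1,
    b1.trans u1.le⟩ (.cons ⟨l2.le.trans a2, b2.trans u2.le⟩ (.cons ⟨l3.le.trans a3, b3.trans u3.le⟩
    (.nil))))) ⟨nofun, nofun, nofun, nofun, trivial⟩ (fun _ ↦ pc.elim (fun h ↦ .inl ⟨rfl, h⟩) (fun h
    ↦ .inr (.inr (.inr (.inl ⟨rfl, h⟩))))) (List.forall_mem_nil _) (Van.of0 rfl) (fun _ _ _ _ y1 a1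
    b1 y2 a2 b2 _ _ _ ↦ N y1 y2 (l1.ge.trans a1) (b1.trans u1.ge) (l2.ge.trans a2) (b2.trans u2.ge))

theorem out5 (N : ∀ m z : ℝ, 0 ≤ m → m ≤ 13 / 64 → 0 ≤ z → z ≤ 19 / 1024 → 0 ≤ outR prog 5 [0, m, z,
    0]) {f m z r : ℝ} (a0 : 0 ≤ f) (b0 : f ≤ 41 / 512) (a1 : 0 ≤ m) (b1 : m ≤ 13 / 64) (a2 : 0 ≤ z)
    (b2 : z ≤ 19 / 1024) (a3 : 0 ≤ r) (b3 : r ≤ 4) (pc : 0 < f ∨ 0 < r) : 0 < outR prog 5 [f, m, z,
    r] :=
  gd 5 (by decide) [f, m, z, r] (.cons ⟨l0.le.trans a0, b0.trans u0.le⟩ (.cons ⟨l1.le.trans a1,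
    b1.trans u1.le⟩ (.cons ⟨l2.le.trans a2, b2.trans u2.le⟩ (.cons ⟨l3.le.trans a3, b3.trans u3.le⟩
    (.nil))))) ⟨nofun, nofun, nofun, nofun, trivial⟩ (fun _ ↦ pc.elim (fun h ↦ .inl ⟨rfl, h⟩) (fun h
    ↦ .inr (.inr (.inr (.inl ⟨rfl, h⟩))))) (List.forall_mem_nil _) (Van.of0 rfl) (fun _ _ _ _ y1 a1
    b1 y2 a2 b2 _ _ _ ↦ N y1 y2 (l1.ge.trans a1) (b1.trans u1.ge) (l2.ge.trans a2) (b2.trans u2.ge))

end Pool.Agent.Lib.MP_d6150d_an.BTL
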