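import Pool.Agent.Lib.MP_d6150d_an.BBd
import Pool.Agent.Lib.MP_d6150d_an.BCL
import Pool.Agent.Lib.MP_d6150d_an.BML
import Pool.Agent.Lib.MP_d6150d_an.BTL
import Pool.Agent.Lib.MP_d6150d_an.BFL

/-! The strip `B`: the left branch. -/

namespace Pool.Agent.Lib.MP_d6150d_an.BB

open Real Set Filter Topology Asymptotics

variable {f d e t L : ℝ}

theorem CL_eq (f d t : ℝ) : outR BCL.prog 0 [f, d, t] = -cq f d (-t) (29 * d) ∧
    outR BCL.prog 1 [f, d, t] = -cp f d (-t) (29 * d) (1 + 25 * d) ∧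
    outR BCL.prog 2 [f, d, t] = -cq f d (-t) (1 + 25 * d) :=
  BCL.eq rfl rfl rfl rfl rfl rfl rfl rfl rfl rfl rfl rfl rfl rfl rfl rfl rfl rfl rfl rfl rfl
    rfl rfl rfl rfl rfl rfl rfl rfl rfl rfl rfl rfl rfl rfl rfl rfl rfl rfl rfl rfl rfl

noncomputable def lA (m : Fm) : ℝ := 40000 * (1 / 1099511627776 * m.G)
noncomputable def lB (m : Fm) : ℝ := 51200 * (1 / 1099511627776 * (m.V * m.V * m.V * m.h3))
noncomputable def lC (m : Fm) : ℝ := 256 * (1 / 1099511627776 * (m.V * m.V * m.V * m.V * m.h4))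
noncomputable def l0 (r : ℝ) : ℝ := 744 * (r * (√(16 * r + 1))⁻¹)
noncomputable def l1 (r : ℝ) : ℝ := 53 * ((16 * r + 1) * (√(16 * r + 1))⁻¹)
/-- the data on the left branch -/
def mL (f r s z a b : ℝ) : Fm := ⟨-1, 1, f, r * s, s, 1, r, z, a, b⟩
noncomputable def mN (f r t : ℝ) : Fm := mL f r (exp (t * (-1 / 2)) * exp (t * (-1 / 2)))
  (exp (t * (-1 / 2)) * exp (f * (t * (-1 / 2)))) (exp (f * (t * (-1 / 2))))
  (exp (f * (t * (-1 / 2))) * (exp (t * (-1 / 2)) * exp (f * (t * (-1 / 2)))))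
/-- the three Bernstein coefficients -/
def Tri (m : Fm) (r g0 g1 g2 : ℝ) : Prop := g0 = -b0 (lA m) (lB m) (lC m) (l0 r) ∧
  g1 = -b1 (lA m) (lB m) (lC m) (l0 r) (l1 r) ∧ g2 = -b0 (lA m) (lB m) (lC m) (l1 r)

theorem ML_eq (f r t : ℝ) : Tri (mN f r t) r (outR BML.prog 0 [f, r, t]) (outR BML.prog 1 [f, r, t])
    (outR BML.prog 2 [f, r, t]) ∧ outR (BML.prog.take 11) 0 [f, r, t] = 3 - 32 * (mN f r t).d :=
  have h := BML.eq rfl rfl rfl rfl rfl rfl rfl rfl rfl rfl rfl rfl rfl rfl rfl rfl rfl rfl rfl rfl rfl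
    rfl rfl rfl rfl rfl rfl rfl rfl rfl rfl rfl rfl rfl rfl
  ⟨⟨h.1, h.2.1, h.2.2.1⟩, h.2.2.2⟩

theorem TL_eq (f m z r : ℝ) : Tri (mL f r (z * (z + f * m)) z 1 z) r (outR BTL.prog 0 [f, m, z, r])
      (outR BTL.prog 1 [f, m, z, r]) (outR BTL.prog 2 [f, m, z, r]) ∧
    Tri (mL f r (z * (z + f * m)) z 1 (z - f * (19 / 256))) r (outR BTL.prog 3 [f, m, z, r])
      (outR BTL.prog 4 [f, m, z, r]) (outR BTL.prog 5 [f, m, z, r]) :=
  have h := BTL.eq rfl rfl rfl rfl rfl rfl rfl rfl rfl rfl rfl rfl rfl rfl rfl rfl rfl rfl rfl rfl rfl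
    rfl rfl rfl rfl rfl rfl rfl rfl rfl rfl rfl rfl rfl rfl rfl rfl rfl rfl rfl
  ⟨⟨h.1, h.2.1, h.2.2.1⟩, h.2.2.2⟩

/-- the data far away on the left branch -/
def mF (f d u c k : ℝ) : Fm :=
  ⟨-1, 1, f, d, d * (k * k) * (k * k), k * k, 1, k * k * (k * u), k * c, k * c * (k * k * (k * u))⟩

theorem FL_eq (f d u c k : ℝ) : outR BFL.prog 0 [f, d, u, c, k] = -(mF f d u c k).h4 ∧
    outR BFL.prog 1 [f, d, u, c, k] =
      -(2 * ((mF f d u c k).V * (mF f d u c k).h4) + k * (k * k) * (mF f d u c k).h3) ∧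
    outR BFL.prog 2 [f, d, u, c, k] = -(256 * ((mF f d u c k).V * (mF f d u c k).V * (mF f d u c k).V *
      ((mF f d u c k).V * (mF f d u c k).h4 + k * (k * k) * (mF f d u c k).h3)) +
      k * (k * k) * (k * (k * k)) * (mF f d u c k).G) :=
  BFL.eq rfl rfl rfl rfl rfl rfl rfl rfl rfl rfl rfl rfl rfl rfl rfl rfl rfl rfl rfl rfl rfl
    rfl rfl rfl rfl rfl rfl rfl rfl

theorem Tri.zero {s z a b g0 g1 g2 : ℝ} (h : Tri (mL 0 0 s z a b) 0 g0 g1 g2) (z0 : 0 ≤ z) (z1 : z ≤ 1)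
    (hs : s = z * z) (ha : a = 1) (hb : b = z) : 0 ≤ g0 ∧ 0 ≤ g1 ∧ 0 ≤ g2 := by
  subst ha
  obtain ⟨h1, h2, h3⟩ : (mL 0 0 s z 1 b).G = 0 ∧ (mL 0 0 s z 1 b).h3 = 0 ∧ (mL 0 0 s z 1 b).h4 = 0 :=
    isoL z0 z1 hs (zero_mul _) hb
  simp [h.1, h.2.1, h.2.2, b0, b1, lA, lB, lC, h1, h2, h3]

theorem Tri.neg {m : Fm} {g0 g1 g2 : ℝ} (h : Tri m (exp L) g0 g1 g2) (f0 : 0 ≤ f) (f1 : f ≤ 41 / 512)
    (r1 : exp L ≤ 4) (h0 : 0 < g0) (h1 : 0 < g1) (h2 : 0 < g2) :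
    m.T (exp ((1 + f) / 2 * L) * m.V) < 0 := by
  obtain ⟨l, u⟩ := r_bd f0 f1 r1
  have := bernN (h0.trans_eq h.1) (h1.trans_eq h.2.1) (h2.trans_eq h.2.2) l u
  simp only [b0, lA, lB, lC] at this
  rw [Fm.T]
  linarith

theorem ML_N (ht : 2 ≤ t) : 0 ≤ outR BML.prog 0 [0, 0, t] ∧ 0 ≤ outR BML.prog 1 [0, 0, t] ∧
    0 ≤ outR BML.prog 2 [0, 0, t] :=
  (ML_eq 0 0 t).1.zero (by positivity) (by simpa using by linarith) (by simp) (by simp) (by simp)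

section

variable (f0 : 0 ≤ f) (f1 : f ≤ 41 / 512)
include f0 f1

theorem CL_neg (d0 : 0 < d) (d1 : d ≤ 3 / 32) (l : 29 * d ≤ 10 * e) (u : 10 * e ≤ 1 + 25 * d)
    (h0 : 0 < t) (h1 : t ≤ 2) : ZB f d (cF f) e (-t) < 0 := by
  have g0 := BCL.out0
    (fun f d _ _ a b ↦ (bigO_neg (cq_bigO a b _)).congr_left fun t ↦ (CL_eq f d t).1.symm)
    (fun t _ _ ↦ by simp [(CL_eq ..).1, cq_iso]) f0 f1 d0.le d1 h0.le h1 h0 (.inr d0)
  have g1 := BCL.out1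
    (fun f d _ _ a b ↦ (bigO_neg (cp_bigO a b _ _)).congr_left fun t ↦ (CL_eq f d t).2.1.symm)
    (fun t _ _ ↦ by simp [(CL_eq ..).2.1, cp_iso]) f0 f1 d0.le d1 h0.le h1 h0 (.inr d0)
  have g2 := BCL.out2
    (fun f d _ _ a b ↦ (bigO_neg (cq_bigO a b _)).congr_left fun t ↦ (CL_eq f d t).2.2.symm)
    (fun t _ _ ↦ by simp [(CL_eq ..).2.2, cq_iso]) f0 f1 d0.le d1 h0.le h1 h0 (.inr d0)
  have h : cq f d (-t) (10 * e) < 0 := bernN (g0.trans_eq (CL_eq ..).1) (g1.trans_eq (CL_eq ..).2.1)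
    (g2.trans_eq (CL_eq ..).2.2) l u
  have n := neg_ne_zero.2 h0.ne'
  have := cW_pos (f := f) d0.le d1 n
  rw [cen_id d0.le d1 n, mul_div_cancel_left₀ e (by norm_num)] at h
  exact neg_of_mul_neg_right h (by positivity)

variable (d1 : exp (L - t) ≤ 3 / 32)
include d1

theorem mN_id (h0 : 0 < t) : (mN f (exp L) t).d = exp (L - t) ∧ 0 < (mN f (exp L) t).W ∧
    0 < (mN f (exp L) t).V ∧ ((mN f (exp L) t).T (exp ((1 + f) / 2 * L) * (mN f (exp L) t).V) < 0 →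
      ZB f (exp (L - t)) (cF f) (exp ((1 + f) / 2 * (L - t))) (-t) < 0) := by
  have hd : (mN f (exp L) t).d = exp (L - t) := by
    simp only [mN, mL, ← exp_add]; congr 1; ring
  obtain ⟨hV, hW, H⟩ := (mN f (exp L) t).id (t := -t) (μ := exp (-((1 + f) / 4 * t))) f0 f1
    (hd ▸ (exp_pos _).le) (hd ▸ d1) (.inr ⟨rfl, neg_lt_zero.2 h0⟩) (neg_neg _).symm (exp_pos _)
    (by simp only [mN, mL, sq, ← exp_add]; congr 1; ring)
    (by simp only [mN, mL, Fm.F, ← exp_add]; congr 1; ring)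
    (by simp only [mN, mL, Fm.F, ← exp_add]; rw [eq_comm, exp_eq_one_iff]; ring)
    (by simp only [mN, mL, Fm.F, ← exp_add]; congr 1; ring)
    (by simp only [mN, mL, Fm.F, ← exp_add]; congr 1; ring) rfl
  refine ⟨hd, hW, ?_, fun h ↦ ?_⟩
  · rw [hV, hd]
    exact mul_pos (mul_pos (exp_pos _) (exp_pos _))
      (vR_pos (mem_JR (exp_pos _).le d1 _) (neg_ne_zero.2 h0.ne'))
  have he : exp ((1 + f) / 2 * L) * (mN f (exp L) t).z = exp ((1 + f) / 2 * (L - t)) := by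
    simp only [mN, mL, ← exp_add]; congr 1; ring
  rw [hV, ← mul_assoc, he, H, hd] at h
  exact neg_of_mul_neg_right h (by positivity)

theorem ML_neg (r1 : exp L ≤ 4) (h1 : 2 ≤ t) (h2 : t ≤ 8) :
    ZB f (exp (L - t)) (cF f) (exp ((1 + f) / 2 * (L - t))) (-t) < 0 := by
  obtain ⟨hd, -, -, H⟩ := mN_id f0 f1 d1 (by linarith)
  have r0 := exp_pos L
  have c : 0 ≤ outR (BML.prog.take 11) 0 [f, exp L, t] := by rw [(ML_eq ..).2, hd]; linarith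
  exact H ((ML_eq ..).1.neg f0 f1 r1
    (BML.out0 (fun _ a _ ↦ (ML_N a).1) f0 f1 r0.le r1 h1 h2 (.inr r0) c)
    (BML.out1 (fun _ a _ ↦ (ML_N a).2.1) f0 f1 r0.le r1 h1 h2 (.inr r0) c)
    (BML.out2 (fun _ a _ ↦ (ML_N a).2.2) f0 f1 r0.le r1 h1 h2 (.inr r0) c))

theorem TL_neg (r1 : exp L ≤ 4) (h1 : 8 ≤ t) :
    ZB f (exp (L - t)) (cF f) (exp ((1 + f) / 2 * (L - t))) (-t) < 0 := by
  have h0 : 0 < t := by linarith
  obtain ⟨-, hW, hV, H⟩ := mN_id f0 f1 d1 h0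
  have r0 := exp_pos L
  have N := fun m z (a : 0 ≤ z) (b : z ≤ 19 / 1024) ↦ And.intro
    ((TL_eq 0 m z 0).1.zero a (by linarith) (by ring) rfl rfl)
    ((TL_eq 0 m z 0).2.zero a (by linarith) (by ring) rfl (by ring))
  obtain ⟨z, hz⟩ : ∃ z, z = exp (t * (-1 / 2)) * exp (f * (t * (-1 / 2))) := ⟨_, rfl⟩
  have hz' : z = exp (-((1 + f) / 2 * t)) := by rw [hz, ← exp_add]; congr 1; ring
  have z0 : 0 < z := hz' ▸ exp_pos _
  have k1 := texp (c := (1 + f) / 2) (by linarith) h1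
  have k2 : exp (-(8 * ((1 + f) / 2))) ≤ 19 / 1024 := (exp_le_exp.2 (by linarith)).trans ebd2
  have k3 := texp (c := (1 - f) / 2) (by linarith) h1
  have k4 : exp (-(8 * ((1 - f) / 2))) ≤ 13 / 512 := (exp_le_exp.2 (by linarith)).trans ebd1
  rw [← hz'] at k1
  have z1 : z ≤ 19 / 1024 := by nlinarith
  have p0 := ph1_pos (-f * t)
  have p1 := ph1_le (show -f * t ≤ 0 by nlinarith)
  have q0 := ph1_pos (-f / 2 * t)
  have q1 := ph1_le (show -f / 2 * t ≤ 0 by nlinarith)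
  have y0 := exp_pos (-((1 - f) / 2 * t))
  obtain ⟨m, hm⟩ : ∃ m, m = exp (-((1 - f) / 2 * t)) * (t * ph1 (-f * t)) := ⟨_, rfl⟩
  have m0 : 0 ≤ m := by rw [hm]; positivity
  have m1 : m ≤ 13 / 64 := by nlinarith [mul_le_mul_of_nonneg_left p1 (mul_pos h0 y0).le]
  have hs : exp (t * (-1 / 2)) * exp (t * (-1 / 2)) = z * (z + f * m) := by
    have k := cexp (-f) t
    have a1 : z = exp (-((1 - f) / 2 * t)) * exp (-f * t) := by rw [hz', ← exp_add]; congr 1; ring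
    have a2 : exp (t * (-1 / 2)) * exp (t * (-1 / 2)) = z * exp (-((1 - f) / 2 * t)) := by
      rw [hz', ← exp_add, ← exp_add]; congr 1; ring
    rw [a2, hm]
    linear_combination (-z) * a1 + z * exp (-((1 - f) / 2 * t)) * k
  obtain ⟨l, hl⟩ : ∃ l, l = 128 / 19 * (z * (t * ph1 (-f / 2 * t))) := ⟨_, rfl⟩
  have l0 : 0 ≤ l := by rw [hl]; positivity
  have l1 : l ≤ 1 := by nlinarith [mul_le_mul_of_nonneg_left q1 (mul_pos h0 z0).le]
  have hb : exp (f * (t * (-1 / 2))) * z = (1 - l) * z + l * (z - f * (19 / 256)) := by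
    have k := cexp (-f / 2) t
    rw [show f * (t * (-1 / 2)) = -f / 2 * t by ring, hl]
    linear_combination (-z) * k
  have a1 : exp (f * (t * (-1 / 2))) ≤ 1 := exp_le_one_iff.2 (by nlinarith)
  have T1 := (TL_eq f m z (exp L)).1.neg f0 f1 r1
    (BTL.out0 (fun m z _ _ a b ↦ (N m z a b).1.1) f0 f1 m0 m1 z0.le z1 r0.le r1 (.inr r0))
    (BTL.out1 (fun m z _ _ a b ↦ (N m z a b).1.2.1) f0 f1 m0 m1 z0.le z1 r0.le r1 (.inr r0))
    (BTL.out2 (fun m z _ _ a b ↦ (N m z a b).1.2.2) f0 f1 m0 m1 z0.le z1 r0.le r1 (.inr r0))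
  have T2 := (TL_eq f m z (exp L)).2.neg f0 f1 r1
    (BTL.out3 (fun m z _ _ a b ↦ (N m z a b).2.1) f0 f1 m0 m1 z0.le z1 r0.le r1 (.inr r0))
    (BTL.out4 (fun m z _ _ a b ↦ (N m z a b).2.2.1) f0 f1 m0 m1 z0.le z1 r0.le r1 (.inr r0))
    (BTL.out5 (fun m z _ _ a b ↦ (N m z a b).2.2.2) f0 f1 m0 m1 z0.le z1 r0.le r1 (.inr r0))
  refine H ?_
  have d0 : 0 ≤ exp L * (z * (z + f * m)) := by positivity
  rw [mN, ← hz, hs, hb] at hW hV ⊢
  generalize exp (f * (t * (-1 / 2))) = a at *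
  have x0 : 0 ≤ exp ((1 + f) / 2 * L) * (mL f (exp L) (z * (z + f * m)) z 1 z).V :=
    (mul_pos (exp_pos _) hV).le
  have T3 : (mL f (exp L) (z * (z + f * m)) z 1 (z - f * (19 / 256))).T
    (exp ((1 + f) / 2 * L) * (mL f (exp L) (z * (z + f * m)) z 1 z).V) < 0 := T2
  refine (Fm.aff (-1) 1 f (exp L * (z * (z + f * m))) (z * (z + f * m)) 1 (exp L) z a z
    (z - f * (19 / 256)) l (exp ((1 + f) / 2 * L) * (mL f (exp L) (z * (z + f * m)) z 1 z).V)).trans_lt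
    (sub_neg.2 (lt_of_lt_of_le ?_ (mul_nonneg (sub_nonneg.2 a1) (mul_nonneg (mul_nonneg (mul_nonneg
      (mul_nonneg (by norm_num) (inv_nonneg.2 (sqrt_nonneg _))) (sq_nonneg _)) (pow_pos hW 7).le)
      (add_nonneg (add_nonneg (by rw [s2]; linarith) (mul_nonneg x0 (by rw [s3]; linarith)))
        (mul_nonneg (sq_nonneg _) (by rw [s4]; linarith)))))))
  rcases l0.eq_or_lt with rfl | l0
  · rw [sub_zero, one_mul, zero_mul, add_zero]; exact T1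
  · exact add_neg_of_nonpos_of_neg (mul_nonpos_of_nonneg_of_nonpos (sub_nonneg.2 l1) T1.le)
      (mul_neg_of_pos_of_neg l0 T3)

theorem FL_neg (r1 : 4 ≤ exp L) :
    ZB f (exp (L - t)) (cF f) (exp ((1 + f) / 2 * (L - t))) (-t) < 0 := by
  have L0 : 0 ≤ L := one_le_exp_iff.1 (by linarith)
  have h0 : 0 < t := by linarith [exp_lt_exp.1 (show exp (L - t) < exp L by linarith)]
  have d0 := exp_pos (L - t)
  have k0 := exp_pos (-L / 2)
  have u0 := exp_pos (L / 2 - (1 + f) / 2 * t)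
  have c0 := exp_pos (-f / 2 * t)
  have k1 : exp (-L / 2) ≤ 1 / 2 := by
    have : exp (-L / 2) ^ 2 * exp L = 1 := by rw [sq, ← exp_add, ← exp_add, exp_eq_one_iff]; ring
    exact (sq_le_sq₀ k0.le (by norm_num)).1 (by nlinarith [pow_pos k0 2])
  have u1 : exp (L / 2 - (1 + f) / 2 * t) ≤ 5 / 16 := by
    refine (sq_le_sq₀ u0.le (by norm_num)).1 (le_trans ?_ (d1.trans (by norm_num)))
    rw [sq, ← exp_add]; exact exp_le_exp.2 (by nlinarith)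
  have c1 : exp (-f / 2 * t) ≤ 1 := exp_le_one_iff.2 (by nlinarith)
  have g0 := (BFL.out0 f0 f1 d0.le d1 u0.le u1 c0.le c1 k0.le k1).trans_eq (FL_eq ..).1
  have g1 := (BFL.out1 f0 f1 d0.le d1 u0.le u1 c0.le c1 k0.le k1).trans_eq (FL_eq ..).2.1
  have g2 := (BFL.out2 f0 f1 d0.le d1 u0.le u1 c0.le c1 k0.le k1).trans_eq (FL_eq ..).2.2
  obtain ⟨hV, hW, H⟩ := (mF f (exp (L - t)) (exp (L / 2 - (1 + f) / 2 * t)) (exp (-f / 2 * t))
    (exp (-L / 2))).id (t := -t) (μ := exp (-L / 2 - (1 + f) / 4 * t)) f0 f1 d0.le d1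
    (.inr ⟨rfl, neg_lt_zero.2 h0⟩) (neg_neg _).symm (exp_pos _)
    (by simp only [mF, sq, ← exp_add]; congr 1; ring)
    (by simp only [mF, Fm.F, ← exp_add]; congr 1; ring)
    (by simp only [mF, Fm.F, ← exp_add]; congr 1; ring)
    (by simp only [mF, Fm.F, ← exp_add]; rw [eq_comm, exp_eq_one_iff]; ring)
    (by simp only [mF, Fm.F, ← exp_add]; congr 1; ring) rfl
  have k := H (exp ((1 + f) / 2 * (L - t)))
  have hz : (mF f (exp (L - t)) (exp (L / 2 - (1 + f) / 2 * t)) (exp (-f / 2 * t)) (exp (-L / 2))).z =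
      exp (-((3 + f) / 2 * L)) * exp ((1 + f) / 2 * (L - t)) := by
    simp only [mF, ← exp_add]; congr 1; ring
  have x1 : exp (-((3 + f) / 2 * L)) ≤ exp (-L / 2) * (exp (-L / 2) * exp (-L / 2)) := by
    rw [← exp_add, ← exp_add]; exact exp_le_exp.2 (by nlinarith)
  have x0 := exp_pos (-((3 + f) / 2 * L))
  have v0 := vR_pos (F := cF f) (mem_JR d0.le d1 _) (neg_ne_zero.2 h0.ne')
  change _ = _ * vR (-exp (L - t)) (cF f) (-t) at hV
  change Fm.T _ (_ * vR (-exp (L - t)) (cF f) (-t)) = _ * ZB f (exp (L - t)) (cF f) _ _ at k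
  generalize mF f _ _ _ _ = m at *
  have V0 : 0 < m.V := by rw [hV, hz]; positivity
  have h := bernN (A := 256 * m.V ^ 4 * m.h4) (B := 256 * m.V ^ 3 * m.h3) (C := m.G)
    (by rw [b0]; linarith [mul_pos (pow_pos V0 4) g0]) (by rw [b1]; linarith [mul_pos (pow_pos V0 3) g1])
    (by rw [b0]; linarith) x0.le x1
  have h3 : b0 (256 * m.V ^ 4 * m.h4) (256 * m.V ^ 3 * m.h3) m.G (exp (-((3 + f) / 2 * L))) =
      exp (-((3 + f) / 2 * L)) ^ 2 * (256 * m.z ^ 2 * m.W ^ 7) *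
        ZB f (exp (L - t)) (cF f) (exp ((1 + f) / 2 * (L - t))) (-t) := by
    rw [mul_assoc _ _ (ZB ..), ← k, b0, Fm.T, hV, hz]; ring
  rw [h3] at h
  exact neg_of_mul_neg_right h (by positivity)

end

end Pool.Agent.Lib.MP_d6150d_an.BB
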