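import Pool.Agent.Lib.MP_d6150d_an.GDef

/-! A generated chart: the program. -/

namespace Pool.Agent.Lib.MP_d6150d_an.BML

def prog8 : List Ins := .mul 392 0 :: .add false 10 0 :: .smul (-696) 389 :: .smul (-193) 395 ::
    .add false 1 0 :: .mul 221 0 :: .sub false 4 0 :: .int (-8985) :: .smul (-3150) 400 :: .add
    false 1 0 :: .sub true 392 169 :: .mul 0 0 :: .mul 2 0 :: .smul 6210 400 :: .smul (-11700) 406
    :: .add false 1 0 :: .add true 3 0 :: .mul 222 0 :: .sub true 11 0 :: .mul 37 0 :: .mul 408 0 ::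
    .smul 256 0 :: .mul 90 0 :: .add true 42 0 :: .mul 92 0 :: .add false 98 0 :: .smul (-1) 0 ::
    .smul 2 100 :: .mul 99 98 :: .smul 53 0 :: .add false 98 0 :: .mul 0 50 :: .add false 4 0 ::
    .mul 3 11 :: .mul 102 0 :: .smul 2 0 :: .add false 3 0 :: .smul (-1) 0 :: .add true 57 4 :: .mul
    9 0 :: .add false 113 0 :: .smul (-1) 0 :: .cpy 0 :: .cpy 5 :: .cpy 17 :: []

def prog7 : List Ins := .add true 1 0 :: .mul 343 0 :: .add false 10 0 :: .smul (-15200) 340 ::
    .smul (-7760) 346 :: .add false 1 0 :: .mul 172 0 :: .sub false 4 0 :: .int 39681 :: .smul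
    (-349950) 351 :: .add false 1 0 :: .sub false 0 5 :: .int 26964 :: .smul 1018950 355 :: .add
    false 1 0 :: .smul 16400 352 :: .smul 17900 358 :: .add false 1 0 :: .add false 3 0 :: .int
    (-66645) :: .smul (-669000) 362 :: .add false 1 0 :: .mul 131 0 :: .add true 4 0 :: .mul 133 0
    :: .add true 13 0 :: .mul 181 0 :: .sub true 19 0 :: .mul 45 0 :: .mul 367 0 :: .smul 51200 0 ::
    .mul 48 259 :: .smul 9584 280 :: .smul 95840 277 :: .add false 1 0 :: .smul 215640 274 :: .add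
    false 1 0 :: .smul 71880 258 :: .add false 1 0 :: .smul (-8985) 245 :: .add false 1 0 :: .smul
    3360 289 :: .smul 33600 286 :: .add false 1 0 :: .smul 75600 283 :: .add false 1 0 :: .smul
    25200 267 :: .add false 1 0 :: .smul (-3150) 254 :: .add true 1 0 :: prog8

def prog6 : List Ins := .mul 0 72 :: .add true 4 0 :: .mul 105 0 :: .smul 32 0 :: .smul 3 68 :: .add
    false 1 0 :: .smul 128 0 :: .smul 256 120 :: .sub false 1 0 :: .int (-4121640) :: .smul
    (-738108000) 302 :: .add false 1 0 :: .smul 211000 299 :: .smul (-656000) 305 :: .add false 1 0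
    :: .smul 256 0 :: .add true 4 0 :: .mul 76 0 :: .add true 9 0 :: .mul 78 0 :: .add true 82 0 ::
    .mul 126 0 :: .sub true 132 0 :: .mul 165 0 :: .add true 167 0 :: .mul 313 0 :: .smul 40000 0 ::
    .smul 16 325 :: .add false 0 310 :: .rsq 0 :: .mul 328 0 :: .smul 744 0 :: .mul 174 210 :: .smul
    71088 231 :: .smul 427344 228 :: .add false 1 0 :: .smul 323568 225 :: .add false 1 0 :: .smul
    (-104796) 209 :: .add false 1 0 :: .smul 39681 196 :: .add false 1 0 :: .smul 713600 240 ::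
    .smul 6285200 237 :: .add false 1 0 :: .smul 12227400 234 :: .add false 1 0 :: .smul 3437700 218
    :: .add false 1 0 :: .smul (-349950) 205 :: prog7

def prog5 : List Ins := .add false 1 0 :: .mul 48 48 :: .smul (-44800) 0 :: .add false 2 0 :: .mul 2
    246 :: .smul 62720 0 :: .add false 2 0 :: .int (-296) :: .smul (-802) 250 :: .add false 1 0 ::
    .smul (-1596) 57 :: .add false 1 0 :: .smul 49280 56 :: .add false 1 0 :: .smul (-156800) 12 ::
    .add false 1 0 :: .int 4441 :: .smul 11886 259 :: .add false 1 0 :: .smul 10416 66 :: .add false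
    1 0 :: .smul 180320 65 :: .add false 1 0 :: .int (-17893) :: .smul (-45478) 266 :: .add false 1
    0 :: .smul (-123760) 73 :: .add false 1 0 :: .int 26927 :: .smul 53854 271 :: .add false 1 0 ::
    .smul (-13171) 261 :: .add true 1 0 :: .mul 263 0 :: .add true 6 0 :: .mul 265 0 :: .add true 13
    0 :: .mul 267 0 :: .add true 22 0 :: .mul 269 0 :: .add true 33 0 :: .mul 47 0 :: .int 263844000
    :: .smul 13106772000 285 :: .add false 1 0 :: .mul 0 73 :: .add false 4 0 :: .int (-490636440)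
    :: .smul 21555072000 290 :: .add true 1 0 :: prog6

def prog4 : List Ins := .smul 6 192 :: .add false 138 0 :: .mul 194 194 :: .smul (-60) 0 :: .add
    false 2 0 :: .mul 2 197 :: .smul 320 0 :: .add false 2 0 :: .int (-57) :: .smul (-102) 201 ::
    .add false 1 0 :: .smul (-480) 8 :: .add false 1 0 :: .int 156 :: .smul 312 206 :: .add false 1
    0 :: .smul (-103) 196 :: .add true 1 0 :: .mul 198 0 :: .add true 6 0 :: .mul 200 0 :: .add true
    13 0 :: .mul 22 0 :: .int 41508000 :: .smul (-2952396000) 216 :: .add true 1 0 :: .sub false 208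
    206 :: .add true 0 194 :: .mul 2 0 :: .add true 6 0 :: .mul 33 0 :: .smul 126 0 :: .int (-82621)
    :: .smul 1703200 225 :: .add false 1 0 :: .add false 3 0 :: .sub false 0 49 :: .smul 256 0 ::
    .mul 222 46 :: .smul 16 0 :: .sub true 222 0 :: .int 125496000 :: .smul (-1337760000) 234 ::
    .add true 1 0 :: .int (-8) :: .smul (-20) 237 :: .add false 1 0 :: .smul 28 44 :: .add false 1 0
    :: .smul 4760 43 :: prog5

def prog3 : List Ins := .rsq 28 :: .mul 1 0 :: .smul (-1) 0 :: .mul 5 0 :: .mul 10 0 :: .add false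
    12 0 :: .smul 256 0 :: .mul 35 35 :: .smul 53136 56 :: .smul (-93648) 53 :: .add false 1 0 ::
    .smul (-548240) 50 :: .add false 1 0 :: .smul 60988 34 :: .add false 1 0 :: .smul (-82621) 21 ::
    .add false 1 0 :: .smul 4470400 65 :: .smul 30432000 62 :: .add false 1 0 :: .smul 34191200 59
    :: .add false 1 0 :: .smul (-752800) 43 :: .add false 1 0 :: .smul 1703200 30 :: .add true 1 0
    :: .mul 168 0 :: .add false 10 0 :: .smul 16 162 :: .add false 0 57 :: .rsq 0 :: .mul 166 0 ::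
    .smul 4 0 :: .mul 0 39 :: .smul (-102000) 171 :: .smul (-4820) 177 :: .add false 1 0 :: .mul 3 0
    :: .sub false 10 0 :: .smul 256 0 :: .mul 41 9 :: .mul 10 10 :: .mul 1 0 :: .smul 64 0 :: .mul 0
    50 :: .cst 1 136080 :: .mul 0 176 :: .int (-13944000) :: .smul 148640000 190 :: .add true 1 0 ::
    prog4

def prog2 : List Ins := .sub true 2 0 :: .mul 49 0 :: .smul 27888000 0 :: .mul 52 22 :: .mul 45 45
    :: .mul 1 0 :: .smul 27888000 0 :: .add false 4 0 :: .mul 58 37 :: .mul 4 4 :: .mul 1 0 :: .smul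
    (-6972000) 0 :: .add false 4 0 :: .smul (-297280000) 11 :: .smul (-297280000) 8 :: .add false 1
    0 :: .smul 74320000 5 :: .add true 1 0 :: .mul 110 0 :: .add true 6 0 :: .mul 104 0 :: .smul 2
    74 :: .smul 2318400 20 :: .smul 6032800 17 :: .add false 1 0 :: .smul 816400 14 :: .add false 1
    0 :: .mul 17 22 :: .mul 79 0 :: .smul 230600 0 :: .add false 3 0 :: .smul 3739200 29 :: .smul
    76826400 26 :: .add false 1 0 :: .smul 68413200 23 :: .add false 1 0 :: .smul (-16402200) 7 ::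
    .add true 1 0 :: .mul 130 0 :: .add true 8 0 :: .mul 18 0 :: .add true 20 0 :: .mul 126 0 ::
    .mul 15 84 :: .int 13944000 :: .smul (-148640000) 137 :: .add true 1 0 :: .mul 0 127 :: .mul 133
    132 :: .mul 0 27 :: prog3

def prog1 : List Ins := .mul 0 2 :: .mul 0 3 :: .mul 26 45 :: .smul (-1) 0 :: .mul 20 36 :: .smul
    (-1) 0 :: .sub false 2 0 :: .smul 1 55 :: .add false 1 0 :: .int 6 :: .smul 5 40 :: .sub true 1
    0 :: .int 4 :: .smul 3 43 :: .sub true 1 0 :: .int 2 :: .sub true 0 46 :: .mul 0 8 :: .smul 2 14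
    :: .sub true 0 13 :: .sub true 2 0 :: .mul 6 0 :: .mul 5 2 :: .smul 4 19 :: .sub true 0 18 ::
    .sub true 2 0 :: .add false 4 0 :: .mul 18 0 :: .mul 8 7 :: .smul 3 0 :: .sub true 2 0 :: .mul
    19 0 :: .smul 3 6 :: .sub true 6 0 :: .mul 14 0 :: .mul 20 9 :: .mul 19 11 :: .smul 8 33 :: .sub
    false 0 32 :: .sub false 2 0 :: .add true 4 0 :: .mul 32 0 :: .add false 7 0 :: .mul 18 22 ::
    .smul 3 0 :: .sub false 2 0 :: .add true 14 0 :: .mul 38 0 :: .mul 28 17 :: .smul 5 0 :: prog2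

def prog : List Ins := .int 3 :: .var 1 :: .cst (-1) 2 :: .var 2 :: .mul 1 0 :: .exp 0 :: .mul 0 0
    :: .mul 5 0 :: .smul 32 0 :: .sub false 8 0 :: .cpy 0 :: .cst 1 1099511627776 :: .var 0 :: .mul
    0 8 :: .exp 0 :: .mul 9 0 :: .cst 1 4 :: .int 1 :: .sub false 0 5 :: .mul 2 0 :: .mul 7 7 ::
    .sub false 3 0 :: .add false 21 9 :: .mul 1 0 :: .inv 0 :: .sub false 7 17 :: .smul 4 13 :: .add
    false 26 0 :: .add false 0 7 :: .mul 3 0 :: .sub true 23 14 :: .mul 1 0 :: .smul 2 24 :: .sub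
    true 15 0 :: .smul 2 21 :: .sub false 34 0 :: .sub false 0 15 :: .mul 3 0 :: .sub true 20 22 ::
    .mul 1 0 :: .add false 8 0 :: .mul 33 25 :: .sub false 40 0 :: .mul 21 0 :: .add true 3 0 ::
    .mul 20 0 :: .smul 2 0 :: .smul (-1) 0 :: .mul 28 0 :: .mul 0 1 :: prog1

def vs : List Vr := [⟨3, 0, false, true⟩, ⟨3, 0, false, true⟩, ⟨6, 0, false, false⟩]

def C : Chart := ⟨vs, prog, [11], 3, 3⟩

end Pool.Agent.Lib.MP_d6150d_an.BML
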