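import Pool.Agent.Lib.MP_d6150d_an.BMRD

/-! A generated chart: the computations. -/

namespace Pool.Agent.Lib.MP_d6150d_an.BMR

theorem k0 : chk C 0x8828809188811891021 [(0, 5634997092352), (0, 3298534883328), (281474976710656,
    387028092977152)] = true := by
  decide +kernel

theorem k1 : chk C 0x8828828881201 [(5634997092352, 11269994184704), (0, 3298534883328),
    (281474976710656, 387028092977152)] = true := by
  decide +kernel

theorem k2 : chk C 0x8828800 [(0, 11269994184704), (3298534883328, 6597069766656), (281474976710656,
    387028092977152)] = true := by
  decide +kernel

theorem k3 : chk C 0x88801888801891010 [(0, 11269994184704), (0, 3298534883328), (387028092977152,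
    492581209243648)] = true := by
  decide +kernel

theorem k4 : chk C 0x880 [(0, 11269994184704), (3298534883328, 6597069766656), (387028092977152,
    492581209243648)] = true := by
  decide +kernel

theorem k5 : chk C 0x881808882188202 [(0, 11269994184704), (6597069766656, 13194139533312),
    (281474976710656, 492581209243648)] = true := by
  decide +kernel

theorem k6 : chk C 0x88088190188099212 [(0, 5634997092352), (0, 3298534883328), (492581209243648,
    703687441776640)] = true := by
  decide +kernel

end Pool.Agent.Lib.MP_d6150d_an.BMR
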