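import Pool.Agent.Lib.MP_d6150d_an.BMRD

/-! A generated chart: the computations. -/

namespace Pool.Agent.Lib.MP_d6150d_an.BMR

theorem k7 : chk C 0x8818812 [(5634997092352, 11269994184704), (0, 3298534883328), (492581209243648,
    703687441776640)] = true := by
  decide +kernel

theorem k8 : chk C 0x882880820 [(0, 11269994184704), (3298534883328, 6597069766656),
    (492581209243648, 703687441776640)] = true := by
  decide +kernel

theorem k9 : chk C 0x882880820 [(0, 11269994184704), (6597069766656, 13194139533312),
    (492581209243648, 703687441776640)] = true := by
  decide +kernel

theorem k10 : chk C 0x88801880910 [(0, 5634997092352), (0, 3298534883328), (703687441776640,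
    809240558043136)] = true := by
  decide +kernel

theorem k11 : chk C 0x88801880910 [(0, 5634997092352), (0, 3298534883328), (809240558043136,
    914793674309632)] = true := by
  decide +kernel

theorem k12 : chk C 0x8828821 [(5634997092352, 11269994184704), (0, 3298534883328),
    (703687441776640, 914793674309632)] = true := by
  decide +kernel

theorem k13 : chk C 0x88288088020 [(0, 11269994184704), (3298534883328, 6597069766656),
    (703687441776640, 914793674309632)] = true := by
  decide +kernel

theorem k14 : chk C 0x8819929209922 [(0, 2817498546176), (0, 1649267441664), (914793674309632,
    1125899906842624)] = true := by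
  decide +kernel

theorem k15 : chk C 0x888008802 [(0, 2817498546176), (1649267441664, 3298534883328),
    (914793674309632, 1125899906842624)] = true := by
  decide +kernel

end Pool.Agent.Lib.MP_d6150d_an.BMR
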