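import Pool.Agent.Lib.MP_d6150d_an.BMRD

/-! A generated chart: the computations. -/

namespace Pool.Agent.Lib.MP_d6150d_an.BMR

theorem k16 : chk C 0x88288088021 [(2817498546176, 5634997092352), (0, 3298534883328),
    (914793674309632, 1125899906842624)] = true := by
  decide +kernel

theorem k17 : chk C 0x88288088020 [(0, 5634997092352), (3298534883328, 6597069766656),
    (914793674309632, 1125899906842624)] = true := by
  decide +kernel

theorem k18 : chk C 0x88288088211 [(5634997092352, 11269994184704), (0, 6597069766656),
    (914793674309632, 1125899906842624)] = true := by
  decide +kernel

theorem k19 : chk C 0x8828828818200 [(0, 11269994184704), (6597069766656, 13194139533312),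
    (703687441776640, 914793674309632)] = true := by
  decide +kernel

theorem k20 : chk C 0x881881880882100 [(0, 11269994184704), (6597069766656, 13194139533312),
    (914793674309632, 1125899906842624)] = true := by
  decide +kernel

end Pool.Agent.Lib.MP_d6150d_an.BMR
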