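import Pool.Agent.Lib.MP_d6150d_an.BMac
import Pool.Agent.Lib.MP_d6150d_an.PpChk
import Pool.Agent.Lib.MP_d6150d_an.BMRK0
import Pool.Agent.Lib.MP_d6150d_an.BMRK1
import Pool.Agent.Lib.MP_d6150d_an.BMRK2

/-! A generated chart: the inequality. -/

namespace Pool.Agent.Lib.MP_d6150d_an.BMR

set_option linter.unnecessarySeqFocus false
set_option linter.unusedTactic false
set_option linter.unusedVariables false
set_option linter.unusedSimpArgs false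

theorem gd : Gd2 C [(0, 11269994184704), (0, 13194139533312), (281474976710656, 1125899906842624)]
    := .split 2 (.split 2 (.split 1 (.split 2 (.split 1 (.split 0 (chk_sound2 k0) (chk_sound2 k1))
    (chk_sound2 k2)) (.split 1 (chk_sound2 k3) (chk_sound2 k4))) (chk_sound2 k5)) (.split 1 (.split
    1 (.split 0 (chk_sound2 k6) (chk_sound2 k7)) (chk_sound2 k8)) (chk_sound2 k9))) (.split 1
    (.split 2 (.split 1 (.split 0 (.split 2 (chk_sound2 k10) (chk_sound2 k11)) (chk_sound2 k12))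
    (chk_sound2 k13)) (.split 0 (.split 1 (.split 0 (.split 1 (chk_sound2 k14) (chk_sound2 k15))
    (chk_sound2 k16)) (chk_sound2 k17)) (chk_sound2 k18))) (.split 2 (chk_sound2 k19) (chk_sound2
    k20)))

set_option maxRecDepth 100000 in
theorem eq {f d t F q z x0 x2 sb P Q R W f2 I H Y V j j2 a b o z21 g V3 el eu z26 G z28 Z3 z30 Z4 :
    ℝ} (hF : F = (1 - f) * (1 / 4)) (hq : q = Real.exp (-t)) (hz : z = Real.exp ((-2) * (F * t)))
    (hx0 : x0 = 1) (hx2 : x2 = d * (q * q)) (hsb : sb = z * z) (hP : P = 1 * ((1 - d) * x0)) (hQ : Q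
    = 1 * ((1 - 2 * d) * q)) (hR : R = (-1) * x2) (hW : W = P - Q + R) (hf2 : f2 = f * f) (hI : I =
    ((1 - f2) * (3 + f))⁻¹) (hH : H = 2 * (I * ((1 - d) * (3 + 4 * f + f2) * (x0 - z) + (1 - 2 * d)
    * (3 - 2 * f - f2) * (q - z) + (1 - f2) * (x2 - d * z)))) (hY : Y = 1 * H) (hV : V = 2 * H) (hj
    : j = (√(16 * z + V))⁻¹) (hj2 : j2 = j * j) (ha : a = 4 * (z * j)) (hb : b = 64 * (sb * j * j2))
    (ho : o = 1 - 16 * (z * j2)) (hz21 : z21 = (√V)⁻¹) (hg : g = 1 * (sb * V * z21)) (hV3 : V3 = V *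
    V * V) (hel : el = 29 * d) (heu : eu = 1 + 25 * d) (hz26 : z26 = BB.Gb f d F F P Q R Y W V z a b
    o g) (hG : G = 100 * (1 / 1048576 * (z * z * z26))) (hz28 : z28 = BB.H3 f d F F P Q R Y W a b o)
    (hZ3 : Z3 = 2560 * (1 / 1048576 * (z * V3 * z28))) (hz30 : z30 = BB.H4 f d F F P Q R Y W a b o)
    (hZ4 : Z4 = 256 * (1 / 1048576 * (V3 * V * z30))) : outR prog 0 [f, d, t] = G + el * (Z3 + el *
    Z4) ∧ outR prog 1 [f, d, t] = 2 * G + (el + eu) * Z3 + 2 * (el * (eu * Z4)) ∧ outR prog 2 [f, d,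
    t] = G + eu * (Z3 + eu * Z4) := by
  replace hF : F = (((Int.cast (1) : ℝ) / (Nat.cast 4 : ℝ)) * ((Int.cast (1) : ℝ) - f)) := hF.trans
    (by push_cast <;> ring)
  replace hq : q = (Real.exp ((Int.cast (-1) : ℝ) * t)) := hq.trans (congrArg Real.exp (by push_cast
    <;> ring))
  replace hz : z = (Real.exp ((Int.cast (-2) : ℝ) * (F * t))) := hz.trans (congrArg Real.exp (by
    push_cast <;> ring))
  replace hx0 : x0 = (Int.cast (1) : ℝ) := hx0.trans (by push_cast <;> ring)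
  replace hx2 : x2 = (d * (q * q)) := hx2.trans (by push_cast <;> ring)
  replace hsb : sb = (z * z) := hsb.trans (by push_cast <;> ring)
  replace hP : P = ((Int.cast (1) : ℝ) * (((Int.cast (1) : ℝ) - d) * x0)) := hP.trans (by push_cast
    <;> ring)
  replace hQ : Q = ((Int.cast (1) : ℝ) * (((Int.cast (1) : ℝ) - ((Int.cast (2) : ℝ) * d)) * q)) :=
    hQ.trans (by push_cast <;> ring)
  replace hR : R = ((Int.cast (-1) : ℝ) * x2) := hR.trans (by push_cast <;> ring)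
  replace hW : W = ((P - Q) + R) := hW.trans (by push_cast <;> ring)
  replace hf2 : f2 = (f * f) := hf2.trans (by push_cast <;> ring)
  replace hI : I = (((Int.cast (1) : ℝ) - f2) * ((Int.cast (3) : ℝ) + f))⁻¹ := hI.trans (by
    push_cast <;> ring)
  replace hH : H = ((Int.cast (2) : ℝ) * (I * ((((((Int.cast (1) : ℝ) - d) * (((Int.cast (3) : ℝ) +
    ((Int.cast (4) : ℝ) * f)) + f2)) * (x0 - z)) + ((((Int.cast (1) : ℝ) - ((Int.cast (2) : ℝ) * d))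
    * (((Int.cast (3) : ℝ) - ((Int.cast (2) : ℝ) * f)) - f2)) * (q - z))) + (((Int.cast (1) : ℝ) -
    f2) * (x2 - (d * z)))))) := hH.trans (by push_cast <;> ring)
  replace hY : Y = ((Int.cast (1) : ℝ) * H) := hY.trans (by push_cast <;> ring)
  replace hV : V = ((Int.cast (2) : ℝ) * H) := hV.trans (by push_cast <;> ring)
  replace hj : j = (√(((Int.cast (16) : ℝ) * z) + V))⁻¹ := hj.trans (congrArg (fun x : ℝ ↦ (√x)⁻¹)
    (by push_cast <;> ring))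
  replace hj2 : j2 = (j * j) := hj2.trans (by push_cast <;> ring)
  replace ha : a = ((Int.cast (4) : ℝ) * (z * j)) := ha.trans (by push_cast <;> ring)
  replace hb : b = ((Int.cast (64) : ℝ) * ((sb * j) * j2)) := hb.trans (by push_cast <;> ring)
  replace ho : o = ((Int.cast (1) : ℝ) - ((Int.cast (16) : ℝ) * (z * j2))) := ho.trans (by push_cast
    <;> ring)
  replace hg : g = ((Int.cast (1) : ℝ) * ((sb * V) * z21)) := hg.trans (by push_cast <;> ring)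
  replace hV3 : V3 = ((V * V) * V) := hV3.trans (by push_cast <;> ring)
  replace hel : el = ((Int.cast (29) : ℝ) * d) := hel.trans (by push_cast <;> ring)
  replace heu : eu = ((Int.cast (1) : ℝ) + ((Int.cast (25) : ℝ) * d)) := heu.trans (by push_cast <;>
    ring)
  replace hz26 : z26 = (BB.mO f d F F P Q R Y W V z a b o g).1 := hz26.trans (BB.mO_0 ..)
  replace hG : G = ((Int.cast (100) : ℝ) * (((Int.cast (1) : ℝ) / (Nat.cast 1048576 : ℝ)) * ((z * z)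
    * z26))) := hG.trans (by push_cast <;> ring)
  replace hz28 : z28 = (BB.mO f d F F P Q R Y W V z a b o g).2.1 := hz28.trans (BB.mO_1 ..)
  replace hZ3 : Z3 = ((Int.cast (2560) : ℝ) * (((Int.cast (1) : ℝ) / (Nat.cast 1048576 : ℝ)) * ((z *
    V3) * z28))) := hZ3.trans (by push_cast <;> ring)
  replace hz30 : z30 = (BB.mO f d F F P Q R Y W V z a b o g).2.2 := hz30.trans (BB.mO_2 ..)
  replace hZ4 : Z4 = ((Int.cast (256) : ℝ) * (((Int.cast (1) : ℝ) / (Nat.cast 1048576 : ℝ)) * ((V3 *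
    V) * z30))) := hZ4.trans (by push_cast <;> ring)
  have e0 : (G + (el * (Z3 + (el * Z4)))) = G + el * (Z3 + el * Z4) := by push_cast <;> ring
  have e1 : ((((Int.cast (2) : ℝ) * G) + ((el + eu) * Z3)) + ((Int.cast (2) : ℝ) * (el * (eu *
    Z4)))) = 2 * G + (el + eu) * Z3 + 2 * (el * (eu * Z4)) := by push_cast <;> ring
  have e2 : (G + (eu * (Z3 + (eu * Z4)))) = G + eu * (Z3 + eu * Z4) := by push_cast <;> ring
  subst hF hq hz hx0 hx2 hsb hP hQ hR hW hf2 hI hH hY hV hj hj2 ha hb ho hz21 hg hV3 hel heu hz26 hG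
    hz28 hZ3 hz30 hZ4
  refine ⟨Eq.trans ?_ e0, Eq.trans ?_ e1, Eq.trans ?_ e2⟩ <;>
    simp only [outR, prog, prog1, prog2, prog3, prog4, prog5, prog6, prog7, prog8, runR, stepR, gtR,
      List.take, BB.mO, BB.mC]

theorem l0 : ((0 : ℤ) : ℝ) / 2 ^ 47 = 0 := by norm_num
theorem u0 : (41 / 512 : ℝ) = ((11269994184704 : ℤ) : ℝ) / 2 ^ 47 := by norm_num
theorem l1 : ((0 : ℤ) : ℝ) / 2 ^ 47 = 0 := by norm_num
theorem u1 : (3 / 32 : ℝ) = ((13194139533312 : ℤ) : ℝ) / 2 ^ 47 := by norm_num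
theorem l2 : ((281474976710656 : ℤ) : ℝ) / 2 ^ 47 = 2 := by norm_num
theorem u2 : (8 : ℝ) = ((1125899906842624 : ℤ) : ℝ) / 2 ^ 47 := by norm_num

theorem out0 (N : ∀ t : ℝ, 2 ≤ t → t ≤ 8 → 0 ≤ outR prog 0 [0, 0, t]) {f d t : ℝ} (a0 : 0 ≤ f) (b0 :
    f ≤ 41 / 512) (a1 : 0 ≤ d) (b1 : d ≤ 3 / 32) (a2 : 2 ≤ t) (b2 : t ≤ 8) (pc : 0 < f ∨ 0 < d) : 0
    < outR prog 0 [f, d, t] :=
  gd 0 (by decide) [f, d, t] (.cons ⟨l0.le.trans a0, b0.trans u0.le⟩ (.cons ⟨l1.le.trans a1,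
    b1.trans u1.le⟩ (.cons ⟨l2.le.trans a2, b2.trans u2.le⟩ (.nil)))) ⟨nofun, nofun, nofun, trivial⟩
    (fun _ ↦ pc.elim (fun h ↦ .inl ⟨rfl, h⟩) (fun h ↦ .inr (.inl ⟨rfl, h⟩))) (List.forall_mem_nil _)
    (Van.of0 rfl) (fun _ _ _ _ _ _ _ y2 a2 b2 ↦ N y2 (l2.ge.trans a2) (b2.trans u2.ge))

theorem out1 (N : ∀ t : ℝ, 2 ≤ t → t ≤ 8 → 0 ≤ outR prog 1 [0, 0, t]) {f d t : ℝ} (a0 : 0 ≤ f) (b0 :
    f ≤ 41 / 512) (a1 : 0 ≤ d) (b1 : d ≤ 3 / 32) (a2 : 2 ≤ t) (b2 : t ≤ 8) (pc : 0 < f ∨ 0 < d) : 0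
    < outR prog 1 [f, d, t] :=
  gd 1 (by decide) [f, d, t] (.cons ⟨l0.le.trans a0, b0.trans u0.le⟩ (.cons ⟨l1.le.trans a1,
    b1.trans u1.le⟩ (.cons ⟨l2.le.trans a2, b2.trans u2.le⟩ (.nil)))) ⟨nofun, nofun, nofun, trivial⟩
    (fun _ ↦ pc.elim (fun h ↦ .inl ⟨rfl, h⟩) (fun h ↦ .inr (.inl ⟨rfl, h⟩))) (List.forall_mem_nil _)
    (Van.of0 rfl) (fun _ _ _ _ _ _ _ y2 a2 b2 ↦ N y2 (l2.ge.trans a2) (b2.trans u2.ge))

theorem out2 (N : ∀ t : ℝ, 2 ≤ t → t ≤ 8 → 0 ≤ outR prog 2 [0, 0, t]) {f d t : ℝ} (a0 : 0 ≤ f) (b0 :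
    f ≤ 41 / 512) (a1 : 0 ≤ d) (b1 : d ≤ 3 / 32) (a2 : 2 ≤ t) (b2 : t ≤ 8) (pc : 0 < f ∨ 0 < d) : 0
    < outR prog 2 [f, d, t] :=
  gd 2 (by decide) [f, d, t] (.cons ⟨l0.le.trans a0, b0.trans u0.le⟩ (.cons ⟨l1.le.trans a1,
    b1.trans u1.le⟩ (.cons ⟨l2.le.trans a2, b2.trans u2.le⟩ (.nil)))) ⟨nofun, nofun, nofun, trivial⟩
    (fun _ ↦ pc.elim (fun h ↦ .inl ⟨rfl, h⟩) (fun h ↦ .inr (.inl ⟨rfl, h⟩))) (List.forall_mem_nil _)
    (Van.of0 rfl) (fun _ _ _ _ _ _ _ y2 a2 b2 ↦ N y2 (l2.ge.trans a2) (b2.trans u2.ge))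

end Pool.Agent.Lib.MP_d6150d_an.BMR
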