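import Pool.Agent.Lib.MP_d6150d_an.GDef

/-! A generated chart: the program. -/

namespace Pool.Agent.Lib.MP_d6150d_an.BMR

def prog8 : List Ins := .sub false 4 0 :: .int (-8985) :: .smul (-3150) 384 :: .add false 1 0 ::
    .sub true 401 167 :: .mul 0 0 :: .mul 2 0 :: .smul 6210 403 :: .smul (-11700) 390 :: .add false
    1 0 :: .add true 3 0 :: .mul 220 0 :: .sub true 11 0 :: .mul 37 0 :: .mul 413 0 :: .smul 256 0
    :: .mul 91 0 :: .add true 42 0 :: .mul 93 0 :: .add false 95 0 :: .smul 2 96 :: .smul 25 403 ::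
    .add false 419 0 :: .add false 98 0 :: .mul 0 49 :: .add false 4 0 :: .mul 3 10 :: .mul 102 0 ::
    .smul 2 0 :: .add false 3 0 :: .add true 55 3 :: .mul 8 0 :: .add false 108 0 :: .cpy 0 :: .cpy
    4 :: .cpy 15 :: []

def prog7 : List Ins := .mul 170 0 :: .sub false 4 0 :: .int 39681 :: .smul (-349950) 335 :: .add
    false 1 0 :: .sub false 0 5 :: .int 26964 :: .smul 1018950 339 :: .add false 1 0 :: .smul 16400
    355 :: .smul 17900 342 :: .add false 1 0 :: .add false 3 0 :: .int (-66645) :: .smul (-669000)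
    346 :: .add false 1 0 :: .mul 129 0 :: .add true 4 0 :: .mul 131 0 :: .add true 13 0 :: .mul 179
    0 :: .sub true 19 0 :: .mul 45 0 :: .mul 372 0 :: .smul 2560 0 :: .mul 49 256 :: .smul 9584 277
    :: .smul 95840 274 :: .add false 1 0 :: .smul 215640 271 :: .add false 1 0 :: .smul 71880 255 ::
    .add false 1 0 :: .smul (-8985) 242 :: .add false 1 0 :: .smul 3360 286 :: .smul 33600 283 ::
    .add false 1 0 :: .smul 75600 280 :: .add false 1 0 :: .smul 25200 264 :: .add false 1 0 ::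
    .smul (-3150) 251 :: .add true 1 0 :: .mul 376 0 :: .add false 10 0 :: .smul (-696) 392 :: .smul
    (-193) 379 :: .add false 1 0 :: .mul 219 0 :: prog8

def prog6 : List Ins := .smul 3 68 :: .add false 1 0 :: .smul 128 0 :: .smul 256 120 :: .sub false 1
    0 :: .int (-4121640) :: .smul (-738108000) 288 :: .add false 1 0 :: .smul 211000 304 :: .smul
    (-656000) 291 :: .add false 1 0 :: .smul 256 0 :: .add true 4 0 :: .mul 76 0 :: .add true 9 0 ::
    .mul 78 0 :: .add true 82 0 :: .mul 126 0 :: .sub true 132 0 :: .mul 165 0 :: .add true 167 0 ::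
    .mul 310 0 :: .mul 321 0 :: .smul 100 0 :: .smul 29 306 :: .mul 171 206 :: .mul 316 0 :: .smul
    71088 228 :: .smul 427344 225 :: .add false 1 0 :: .smul 323568 222 :: .add false 1 0 :: .smul
    (-104796) 206 :: .add false 1 0 :: .smul 39681 193 :: .add false 1 0 :: .smul 713600 237 ::
    .smul 6285200 234 :: .add false 1 0 :: .smul 12227400 231 :: .add false 1 0 :: .smul 3437700 215
    :: .add false 1 0 :: .smul (-349950) 202 :: .add true 1 0 :: .mul 327 0 :: .add false 10 0 ::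
    .smul (-15200) 343 :: .smul (-7760) 330 :: .add false 1 0 :: prog7

def prog5 : List Ins := .mul 2 232 :: .smul 62720 0 :: .add false 2 0 :: .int (-296) :: .smul (-802)
    236 :: .add false 1 0 :: .smul (-1596) 57 :: .add false 1 0 :: .smul 49280 56 :: .add false 1 0
    :: .smul (-156800) 12 :: .add false 1 0 :: .int 4441 :: .smul 11886 245 :: .add false 1 0 ::
    .smul 10416 66 :: .add false 1 0 :: .smul 180320 65 :: .add false 1 0 :: .int (-17893) :: .smul
    (-45478) 252 :: .add false 1 0 :: .smul (-123760) 73 :: .add false 1 0 :: .int 26927 :: .smul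
    53854 257 :: .add false 1 0 :: .smul (-13171) 271 :: .add true 1 0 :: .mul 273 0 :: .add true 6
    0 :: .mul 275 0 :: .add true 13 0 :: .mul 277 0 :: .add true 22 0 :: .mul 279 0 :: .add true 33
    0 :: .mul 47 0 :: .int 263844000 :: .smul 13106772000 271 :: .add false 1 0 :: .mul 0 73 :: .add
    false 4 0 :: .int (-490636440) :: .smul 21555072000 276 :: .add true 1 0 :: .mul 0 72 :: .add
    true 4 0 :: .mul 105 0 :: .smul 32 0 :: prog6

def prog4 : List Ins := .add false 2 0 :: .mul 2 183 :: .smul 320 0 :: .add false 2 0 :: .int (-57)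
    :: .smul (-102) 187 :: .add false 1 0 :: .smul (-480) 8 :: .add false 1 0 :: .int 156 :: .smul
    312 192 :: .add false 1 0 :: .smul (-103) 206 :: .add true 1 0 :: .mul 208 0 :: .add true 6 0 ::
    .mul 210 0 :: .add true 13 0 :: .mul 22 0 :: .int 41508000 :: .smul (-2952396000) 202 :: .add
    true 1 0 :: .sub false 219 216 :: .add true 0 197 :: .mul 2 0 :: .add true 6 0 :: .mul 33 0 ::
    .smul 126 0 :: .int (-82621) :: .smul 1703200 211 :: .add false 1 0 :: .add false 3 0 :: .sub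
    false 0 49 :: .smul 256 0 :: .mul 224 46 :: .smul 16 0 :: .sub true 233 0 :: .int 125496000 ::
    .smul (-1337760000) 220 :: .add true 1 0 :: .int (-8) :: .smul (-20) 223 :: .add false 1 0 ::
    .smul 28 44 :: .add false 1 0 :: .smul 4760 43 :: .add false 1 0 :: .mul 48 48 :: .smul (-44800)
    0 :: .add false 2 0 :: prog5

def prog3 : List Ins := .mul 9 0 :: .add false 11 0 :: .smul 256 0 :: .mul 34 34 :: .smul 53136 55
    :: .smul (-93648) 52 :: .add false 1 0 :: .smul (-548240) 49 :: .add false 1 0 :: .smul 60988 33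
    :: .add false 1 0 :: .smul (-82621) 20 :: .add false 1 0 :: .smul 4470400 64 :: .smul 30432000
    61 :: .add false 1 0 :: .smul 34191200 58 :: .add false 1 0 :: .smul (-752800) 42 :: .add false
    1 0 :: .smul 1703200 29 :: .add true 1 0 :: .mul 154 0 :: .add false 10 0 :: .smul 16 164 ::
    .add false 0 56 :: .rsq 0 :: .mul 167 0 :: .smul 4 0 :: .mul 0 38 :: .smul (-102000) 176 ::
    .smul (-4820) 163 :: .add false 1 0 :: .mul 3 0 :: .sub false 10 0 :: .smul 256 0 :: .mul 175 9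
    :: .mul 10 10 :: .mul 1 0 :: .smul 64 0 :: .mul 0 49 :: .cst 1 136080 :: .mul 0 186 :: .int
    (-13944000) :: .smul 148640000 176 :: .add true 1 0 :: .smul 6 178 :: .add false 137 0 :: .mul
    180 180 :: .smul (-60) 0 :: prog4

def prog2 : List Ins := .mul 52 22 :: .mul 45 45 :: .mul 1 0 :: .smul 27888000 0 :: .add false 4 0
    :: .mul 58 37 :: .mul 4 4 :: .mul 1 0 :: .smul (-6972000) 0 :: .add false 4 0 :: .smul
    (-297280000) 11 :: .smul (-297280000) 8 :: .add false 1 0 :: .smul 74320000 5 :: .add true 1 0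
    :: .mul 97 0 :: .add true 6 0 :: .mul 107 0 :: .smul 2 74 :: .smul 2318400 20 :: .smul 6032800
    17 :: .add false 1 0 :: .smul 816400 14 :: .add false 1 0 :: .mul 17 22 :: .mul 79 0 :: .smul
    230600 0 :: .add false 3 0 :: .smul 3739200 29 :: .smul 76826400 26 :: .add false 1 0 :: .smul
    68413200 23 :: .add false 1 0 :: .smul (-16402200) 7 :: .add true 1 0 :: .mul 117 0 :: .add true
    8 0 :: .mul 18 0 :: .add true 20 0 :: .mul 129 0 :: .mul 15 84 :: .int 13944000 :: .smul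
    (-148640000) 124 :: .add true 1 0 :: .mul 0 138 :: .mul 134 26 :: .rsq 27 :: .mul 1 0 :: .smul 1
    0 :: .mul 4 0 :: prog3

def prog1 : List Ins := .smul 1 0 :: .mul 24 18 :: .smul 1 0 :: .sub false 2 0 :: .smul (-1) 16 ::
    .add false 1 0 :: .int 6 :: .smul 5 51 :: .sub true 1 0 :: .int 4 :: .smul 3 54 :: .sub true 1 0
    :: .int 2 :: .sub true 0 57 :: .mul 0 8 :: .smul 2 14 :: .sub false 0 13 :: .sub true 2 0 ::
    .mul 6 0 :: .mul 5 2 :: .smul 4 19 :: .sub false 0 18 :: .sub true 2 0 :: .add false 4 0 :: .mul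
    18 0 :: .mul 8 7 :: .smul 3 0 :: .sub true 2 0 :: .mul 19 0 :: .smul 3 6 :: .sub true 6 0 ::
    .mul 14 0 :: .mul 20 9 :: .mul 19 11 :: .smul 8 33 :: .sub false 0 32 :: .sub false 2 0 :: .add
    true 4 0 :: .mul 32 0 :: .add false 7 0 :: .mul 18 22 :: .smul 3 0 :: .sub false 2 0 :: .add
    true 14 0 :: .mul 38 0 :: .mul 28 17 :: .smul 5 0 :: .sub true 2 0 :: .mul 49 0 :: .smul
    27888000 0 :: prog2

def prog : List Ins := .cst 1 1048576 :: .cst 1 4 :: .int 1 :: .var 0 :: .sub false 1 0 :: .mul 3 0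
    :: .var 2 :: .mul 1 0 :: .smul (-2) 0 :: .exp 0 :: .mul 0 0 :: .mul 7 7 :: .sub false 9 0 ::
    .int 3 :: .add false 0 10 :: .mul 2 0 :: .inv 0 :: .var 1 :: .sub false 15 0 :: .smul 4 15 ::
    .add false 6 0 :: .add false 0 9 :: .mul 3 0 :: .sub true 20 13 :: .mul 1 0 :: .smul 2 7 :: .sub
    true 23 0 :: .smul 2 23 :: .sub false 14 0 :: .sub false 0 17 :: .mul 3 0 :: .smul (-1) 24 ::
    .exp 0 :: .sub true 0 23 :: .mul 3 0 :: .add false 10 0 :: .mul 3 3 :: .mul 19 0 :: .mul 20 28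
    :: .sub false 1 0 :: .mul 27 0 :: .add true 5 0 :: .mul 25 0 :: .smul 2 0 :: .smul 1 0 :: .mul
    39 0 :: .mul 0 1 :: .mul 0 2 :: .mul 0 3 :: .mul 30 46 :: prog1

def vs : List Vr := [⟨3, 0, false, true⟩, ⟨3, 0, false, true⟩, ⟨6, 0, false, false⟩]

def C : Chart := ⟨vs, prog, [], 3, 3⟩

end Pool.Agent.Lib.MP_d6150d_an.BMR
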