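import Pool.Agent.Lib.MP_d6150d_an.BDef

/-! Program forms of the recurrent expressions. -/

namespace Pool.Agent.Lib.MP_d6150d_an

set_option linter.unusedSimpArgs false

noncomputable def BB.mO (f d F sF P Q R Y W V z a b o g : ℝ) : ℝ × ℝ × ℝ :=
  let z0 := (sF * Y)
  let z1 := (z0 * Y)
  let z2 := (z1 * Y)
  let z3 := ((P - Q) + R)
  let z4 := ((Int.cast (4) : ℝ) - ((Int.cast (3) : ℝ) * F))
  let z5 := ((Int.cast (2) : ℝ) - F)
  let z6 := (((Int.cast (2) : ℝ) * P) - Q)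
  let z7 := ((z5 * z3) - z6)
  let z8 := (((Int.cast (4) : ℝ) * P) - Q)
  let z9 := ((z5 * z6) - z8)
  let z10 := ((z4 * z7) + z9)
  let z11 := ((z3 * z10) - ((Int.cast (3) : ℝ) * (z6 * z7)))
  let z12 := ((z2 * Y) * ((z3 * ((((Int.cast (6) : ℝ) - ((Int.cast (5) : ℝ) * F)) * z11) + (((z6 *
    (z10 - ((Int.cast (3) : ℝ) * z9))) + (z3 * ((z4 * z9) + ((z5 * z8) - (((Int.cast (8) : ℝ) * P) -
    Q))))) - ((Int.cast (3) : ℝ) * (z8 * z7))))) - ((Int.cast (5) : ℝ) * (z6 * z11))))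
  let z13 := (W * W)
  let z14 := ((z2 * z11) * z13)
  let z15 := (z13 * z13)
  let z16 := ((z1 * z7) * z15)
  let z17 := (z15 * z13)
  let z18 := (z0 * z17)
  let z19 := (z17 * W)
  let z20 := (a * z19)
  let z21 := (((Int.cast (-102000) : ℝ) * f) + ((Int.cast (-4820) : ℝ) * d))
  let z22 := (b * z19)
  let z23 := (((Int.cast (1) : ℝ) / (Nat.cast 136080 : ℝ)) * F)
  let z24 := (d * d)
  let z25 := (z24 * d)
  let z26 := (((((Int.cast (4) : ℝ) + ((Int.cast (6) : ℝ) * d)) + ((Int.cast (-60) : ℝ) * z24)) +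
    ((Int.cast (320) : ℝ) * z25)) + (F * ((((Int.cast (-57) : ℝ) + ((Int.cast (-102) : ℝ) * d)) +
    ((Int.cast (-480) : ℝ) * z24)) + (F * (((Int.cast (156) : ℝ) + ((Int.cast (312) : ℝ) * d)) +
    ((Int.cast (-103) : ℝ) * F))))))
  let z27 := (((Int.cast (1) : ℝ) - F) + ((Int.cast (2) : ℝ) * d))
  let z28 := (((Int.cast (126) : ℝ) * (z23 * ((((Int.cast (-13944000) : ℝ) + ((Int.cast (148640000)
    : ℝ) * d)) * z26) + (((Int.cast (41508000) : ℝ) + ((Int.cast (-2952396000) : ℝ) * d)) * z27))))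
    + ((Int.cast (-82621) : ℝ) + ((Int.cast (1703200) : ℝ) * d)))
  let z29 := (z24 * z24)
  let z30 := (((Int.cast (-15200) : ℝ) * f) + ((Int.cast (-7760) : ℝ) * d))
  ((((Int.cast (256) : ℝ) * ((z * ((z * (((((Int.cast (27888000) : ℝ) * z12) + ((Int.cast (27888000)
    : ℝ) * z14)) + ((Int.cast (-6972000) : ℝ) * z16)) + (d * ((((Int.cast (-297280000) : ℝ) * z12) +
    ((Int.cast (-297280000) : ℝ) * z14)) + ((Int.cast (74320000) : ℝ) * z16))))) + (V *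
    ((((((Int.cast (2318400) : ℝ) * z12) + ((Int.cast (6032800) : ℝ) * z14)) + ((Int.cast (816400) :
    ℝ) * z16)) + ((Int.cast (230600) : ℝ) * z18)) + (d * (((((Int.cast (3739200) : ℝ) * z12) +
    ((Int.cast (76826400) : ℝ) * z14)) + ((Int.cast (68413200) : ℝ) * z16)) + ((Int.cast (-16402200)
    : ℝ) * z18))))))) + (z19 * ((((Int.cast (13944000) : ℝ) + ((Int.cast (-148640000) : ℝ) * d)) *
    F) * g)))) + ((V * V) * (((Int.cast (256) : ℝ) * ((((((((Int.cast (53136) : ℝ) * z12) +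
    ((Int.cast (-93648) : ℝ) * z14)) + ((Int.cast (-548240) : ℝ) * z16)) + ((Int.cast (60988) : ℝ) *
    z18)) + ((Int.cast (-82621) : ℝ) * z19)) + (d * ((((((Int.cast (4470400) : ℝ) * z12) +
    ((Int.cast (30432000) : ℝ) * z14)) + ((Int.cast (34191200) : ℝ) * z16)) + ((Int.cast (-752800) :
    ℝ) * z18)) + ((Int.cast (1703200) : ℝ) * z19)))) - (z20 * z21))) - (z22 * (((Int.cast (256) : ℝ)
    * (z28 - z21)) + (o * ((((Int.cast (128) : ℝ) * (((Int.cast (32) : ℝ) * (z23 * (((((Int.cast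
    (125496000) : ℝ) + ((Int.cast (-1337760000) : ℝ) * d)) * (((((((Int.cast (-8) : ℝ) + ((Int.cast
    (-20) : ℝ) * d)) + ((Int.cast (28) : ℝ) * z24)) + ((Int.cast (4760) : ℝ) * z25)) + ((Int.cast
    (-44800) : ℝ) * z29)) + ((Int.cast (62720) : ℝ) * (z29 * d))) + (F * ((((((Int.cast (-296) : ℝ)
    + ((Int.cast (-802) : ℝ) * d)) + ((Int.cast (-1596) : ℝ) * z24)) + ((Int.cast (49280) : ℝ) *
    z25)) + ((Int.cast (-156800) : ℝ) * z29)) + (F * (((((Int.cast (4441) : ℝ) + ((Int.cast (11886)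
    : ℝ) * d)) + ((Int.cast (10416) : ℝ) * z24)) + ((Int.cast (180320) : ℝ) * z25)) + (F *
    ((((Int.cast (-17893) : ℝ) + ((Int.cast (-45478) : ℝ) * d)) + ((Int.cast (-123760) : ℝ) * z24))
    + (F * (((Int.cast (26927) : ℝ) + ((Int.cast (53854) : ℝ) * d)) + ((Int.cast (-13171) : ℝ) *
    F))))))))))) + (((Int.cast (263844000) : ℝ) + ((Int.cast (13106772000) : ℝ) * d)) * z26)) +
    (((Int.cast (-490636440) : ℝ) + ((Int.cast (21555072000) : ℝ) * d)) * z27)))) + ((Int.cast (3) :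
    ℝ) * z28))) - ((Int.cast (256) : ℝ) * z21)) + (o * (((Int.cast (-4121640) : ℝ) + ((Int.cast
    (-738108000) : ℝ) * d)) + ((Int.cast (256) : ℝ) * (((Int.cast (211000) : ℝ) * f) + ((Int.cast
    (-656000) : ℝ) * d)))))))))))), (((((((((Int.cast (71088) : ℝ) * z12) + ((Int.cast (427344) : ℝ)
    * z14)) + ((Int.cast (323568) : ℝ) * z16)) + ((Int.cast (-104796) : ℝ) * z18)) + ((Int.cast
    (39681) : ℝ) * z19)) + (d * ((((((Int.cast (713600) : ℝ) * z12) + ((Int.cast (6285200) : ℝ) *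
    z14)) + ((Int.cast (12227400) : ℝ) * z16)) + ((Int.cast (3437700) : ℝ) * z18)) + ((Int.cast
    (-349950) : ℝ) * z19)))) - (z20 * z30)) - (z22 * ((((Int.cast (39681) : ℝ) + ((Int.cast
    (-349950) : ℝ) * d)) - z30) + (o * ((((Int.cast (26964) : ℝ) + ((Int.cast (1018950) : ℝ) * d)) +
    (((Int.cast (16400) : ℝ) * f) + ((Int.cast (17900) : ℝ) * d))) + (o * ((Int.cast (-66645) : ℝ) +
    ((Int.cast (-669000) : ℝ) * d)))))))), (((((((((Int.cast (9584) : ℝ) * z12) + ((Int.cast (95840)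
    : ℝ) * z14)) + ((Int.cast (215640) : ℝ) * z16)) + ((Int.cast (71880) : ℝ) * z18)) + ((Int.cast
    (-8985) : ℝ) * z19)) + (d * ((((((Int.cast (3360) : ℝ) * z12) + ((Int.cast (33600) : ℝ) * z14))
    + ((Int.cast (75600) : ℝ) * z16)) + ((Int.cast (25200) : ℝ) * z18)) + ((Int.cast (-3150) : ℝ) *
    z19)))) - (z20 * (((Int.cast (-696) : ℝ) * f) + ((Int.cast (-193) : ℝ) * d)))) - (z22 *
    ((((Int.cast (-8985) : ℝ) + ((Int.cast (-3150) : ℝ) * d)) * (((Int.cast (1) : ℝ) - o) *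
    ((Int.cast (1) : ℝ) - o))) + (((Int.cast (6210) : ℝ) * f) + ((Int.cast (-11700) : ℝ) * d))))))

theorem BB.mO_0 (f d F sF P Q R Y W V z a b o g : ℝ) : BB.Gb f d F sF P Q R Y W V z a b o g = (BB.mO
    f d F sF P Q R Y W V z a b o g).1 := by
  simp only [BB.mO, BB.Gb, BB.E2, BB.s2, BB.n0, BB.m6, ja2, ja4, ja6,
    BB.Ts, BB.Ek, BB.p0, BB.s1, BB.p1, BB.r2, BB.q2, BB.p2, BB.q3, BB.p3, BB.p4, pjR]
  push_cast; ring

theorem BB.mO_1 (f d F sF P Q R Y W V z a b o g : ℝ) : BB.H3 f d F sF P Q R Y W a b o = (BB.mO f d F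
    sF P Q R Y W V z a b o g).2.1 := by
  simp only [BB.mO, BB.H3, BB.E3, BB.s3,
    BB.Ts, BB.Ek, BB.p0, BB.s1, BB.p1, BB.r2, BB.q2, BB.p2, BB.q3, BB.p3, BB.p4, pjR]
  push_cast; ring

theorem BB.mO_2 (f d F sF P Q R Y W V z a b o g : ℝ) : BB.H4 f d F sF P Q R Y W a b o = (BB.mO f d F
    sF P Q R Y W V z a b o g).2.2 := by
  simp only [BB.mO, BB.H4, BB.E4, BB.s4,
    BB.Ts, BB.Ek, BB.p0, BB.s1, BB.p1, BB.r2, BB.q2, BB.p2, BB.q3, BB.p3, BB.p4, pjR]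
  push_cast; ring

noncomputable def BB.mC (f d F sF P Q R Y W V a b o g : ℝ) : ℝ × ℝ × ℝ :=
  let z0 := (sF * Y)
  let z1 := (z0 * Y)
  let z2 := (z1 * Y)
  let z3 := ((P - Q) + R)
  let z4 := ((Int.cast (4) : ℝ) - ((Int.cast (3) : ℝ) * F))
  let z5 := ((Int.cast (2) : ℝ) - F)
  let z6 := (((Int.cast (2) : ℝ) * P) - Q)
  let z7 := ((z5 * z3) - z6)
  let z8 := (((Int.cast (4) : ℝ) * P) - Q)
  let z9 := ((z5 * z6) - z8)
  let z10 := ((z4 * z7) + z9)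
  let z11 := ((z3 * z10) - ((Int.cast (3) : ℝ) * (z6 * z7)))
  let z12 := ((z2 * Y) * ((z3 * ((((Int.cast (6) : ℝ) - ((Int.cast (5) : ℝ) * F)) * z11) + (((z6 *
    (z10 - ((Int.cast (3) : ℝ) * z9))) + (z3 * ((z4 * z9) + ((z5 * z8) - (((Int.cast (8) : ℝ) * P) -
    Q))))) - ((Int.cast (3) : ℝ) * (z8 * z7))))) - ((Int.cast (5) : ℝ) * (z6 * z11))))
  let z13 := (W * W)
  let z14 := ((z2 * z11) * z13)
  let z15 := (z13 * z13)
  let z16 := ((z1 * z7) * z15)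
  let z17 := (z15 * z13)
  let z18 := (z0 * z17)
  let z19 := (z17 * W)
  let z20 := (a * z19)
  let z21 := (((Int.cast (-102000) : ℝ) * f) + ((Int.cast (-4820) : ℝ) * d))
  let z22 := (b * z19)
  let z23 := (((Int.cast (1) : ℝ) / (Nat.cast 136080 : ℝ)) * F)
  let z24 := (d * d)
  let z25 := (z24 * d)
  let z26 := (((((Int.cast (4) : ℝ) + ((Int.cast (6) : ℝ) * d)) + ((Int.cast (-60) : ℝ) * z24)) +
    ((Int.cast (320) : ℝ) * z25)) + (F * ((((Int.cast (-57) : ℝ) + ((Int.cast (-102) : ℝ) * d)) +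
    ((Int.cast (-480) : ℝ) * z24)) + (F * (((Int.cast (156) : ℝ) + ((Int.cast (312) : ℝ) * d)) +
    ((Int.cast (-103) : ℝ) * F))))))
  let z27 := (((Int.cast (1) : ℝ) - F) + ((Int.cast (2) : ℝ) * d))
  let z28 := (((Int.cast (126) : ℝ) * (z23 * ((((Int.cast (-13944000) : ℝ) + ((Int.cast (148640000)
    : ℝ) * d)) * z26) + (((Int.cast (41508000) : ℝ) + ((Int.cast (-2952396000) : ℝ) * d)) * z27))))
    + ((Int.cast (-82621) : ℝ) + ((Int.cast (1703200) : ℝ) * d)))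
  let z29 := (z24 * z24)
  let z30 := (((Int.cast (-15200) : ℝ) * f) + ((Int.cast (-7760) : ℝ) * d))
  ((((Int.cast (256) : ℝ) * (((((((Int.cast (27888000) : ℝ) * z12) + ((Int.cast (27888000) : ℝ) *
    z14)) + ((Int.cast (-6972000) : ℝ) * z16)) + (d * ((((Int.cast (-297280000) : ℝ) * z12) +
    ((Int.cast (-297280000) : ℝ) * z14)) + ((Int.cast (74320000) : ℝ) * z16)))) + (V *
    ((((((Int.cast (2318400) : ℝ) * z12) + ((Int.cast (6032800) : ℝ) * z14)) + ((Int.cast (816400) :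
    ℝ) * z16)) + ((Int.cast (230600) : ℝ) * z18)) + (d * (((((Int.cast (3739200) : ℝ) * z12) +
    ((Int.cast (76826400) : ℝ) * z14)) + ((Int.cast (68413200) : ℝ) * z16)) + ((Int.cast (-16402200)
    : ℝ) * z18)))))) + (z19 * ((((Int.cast (13944000) : ℝ) + ((Int.cast (-148640000) : ℝ) * d)) * F)
    * g)))) + ((V * V) * (((Int.cast (256) : ℝ) * ((((((((Int.cast (53136) : ℝ) * z12) + ((Int.cast
    (-93648) : ℝ) * z14)) + ((Int.cast (-548240) : ℝ) * z16)) + ((Int.cast (60988) : ℝ) * z18)) +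
    ((Int.cast (-82621) : ℝ) * z19)) + (d * ((((((Int.cast (4470400) : ℝ) * z12) + ((Int.cast
    (30432000) : ℝ) * z14)) + ((Int.cast (34191200) : ℝ) * z16)) + ((Int.cast (-752800) : ℝ) * z18))
    + ((Int.cast (1703200) : ℝ) * z19)))) - (z20 * z21))) - (z22 * (((Int.cast (256) : ℝ) * (z28 -
    z21)) + (o * ((((Int.cast (128) : ℝ) * (((Int.cast (32) : ℝ) * (z23 * (((((Int.cast (125496000)
    : ℝ) + ((Int.cast (-1337760000) : ℝ) * d)) * (((((((Int.cast (-8) : ℝ) + ((Int.cast (-20) : ℝ) *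
    d)) + ((Int.cast (28) : ℝ) * z24)) + ((Int.cast (4760) : ℝ) * z25)) + ((Int.cast (-44800) : ℝ) *
    z29)) + ((Int.cast (62720) : ℝ) * (z29 * d))) + (F * ((((((Int.cast (-296) : ℝ) + ((Int.cast
    (-802) : ℝ) * d)) + ((Int.cast (-1596) : ℝ) * z24)) + ((Int.cast (49280) : ℝ) * z25)) +
    ((Int.cast (-156800) : ℝ) * z29)) + (F * (((((Int.cast (4441) : ℝ) + ((Int.cast (11886) : ℝ) *
    d)) + ((Int.cast (10416) : ℝ) * z24)) + ((Int.cast (180320) : ℝ) * z25)) + (F * ((((Int.cast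
    (-17893) : ℝ) + ((Int.cast (-45478) : ℝ) * d)) + ((Int.cast (-123760) : ℝ) * z24)) + (F *
    (((Int.cast (26927) : ℝ) + ((Int.cast (53854) : ℝ) * d)) + ((Int.cast (-13171) : ℝ) *
    F))))))))))) + (((Int.cast (263844000) : ℝ) + ((Int.cast (13106772000) : ℝ) * d)) * z26)) +
    (((Int.cast (-490636440) : ℝ) + ((Int.cast (21555072000) : ℝ) * d)) * z27)))) + ((Int.cast (3) :
    ℝ) * z28))) - ((Int.cast (256) : ℝ) * z21)) + (o * (((Int.cast (-4121640) : ℝ) + ((Int.cast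
    (-738108000) : ℝ) * d)) + ((Int.cast (256) : ℝ) * (((Int.cast (211000) : ℝ) * f) + ((Int.cast
    (-656000) : ℝ) * d)))))))))))), (((((((((Int.cast (71088) : ℝ) * z12) + ((Int.cast (427344) : ℝ)
    * z14)) + ((Int.cast (323568) : ℝ) * z16)) + ((Int.cast (-104796) : ℝ) * z18)) + ((Int.cast
    (39681) : ℝ) * z19)) + (d * ((((((Int.cast (713600) : ℝ) * z12) + ((Int.cast (6285200) : ℝ) *
    z14)) + ((Int.cast (12227400) : ℝ) * z16)) + ((Int.cast (3437700) : ℝ) * z18)) + ((Int.cast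
    (-349950) : ℝ) * z19)))) - (z20 * z30)) - (z22 * ((((Int.cast (39681) : ℝ) + ((Int.cast
    (-349950) : ℝ) * d)) - z30) + (o * ((((Int.cast (26964) : ℝ) + ((Int.cast (1018950) : ℝ) * d)) +
    (((Int.cast (16400) : ℝ) * f) + ((Int.cast (17900) : ℝ) * d))) + (o * ((Int.cast (-66645) : ℝ) +
    ((Int.cast (-669000) : ℝ) * d)))))))), (((((((((Int.cast (9584) : ℝ) * z12) + ((Int.cast (95840)
    : ℝ) * z14)) + ((Int.cast (215640) : ℝ) * z16)) + ((Int.cast (71880) : ℝ) * z18)) + ((Int.cast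
    (-8985) : ℝ) * z19)) + (d * ((((((Int.cast (3360) : ℝ) * z12) + ((Int.cast (33600) : ℝ) * z14))
    + ((Int.cast (75600) : ℝ) * z16)) + ((Int.cast (25200) : ℝ) * z18)) + ((Int.cast (-3150) : ℝ) *
    z19)))) - (z20 * (((Int.cast (-696) : ℝ) * f) + ((Int.cast (-193) : ℝ) * d)))) - (z22 *
    ((((Int.cast (-8985) : ℝ) + ((Int.cast (-3150) : ℝ) * d)) * (((Int.cast (1) : ℝ) - o) *
    ((Int.cast (1) : ℝ) - o))) + (((Int.cast (6210) : ℝ) * f) + ((Int.cast (-11700) : ℝ) * d))))))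

theorem BB.mC_0 (f d F sF P Q R Y W V a b o g : ℝ) : BB.Gb f d F sF P Q R Y W V 1 a b o g = (BB.mC f
    d F sF P Q R Y W V a b o g).1 := by
  simp only [BB.mC, BB.Gb, BB.E2, BB.s2, BB.n0, BB.m6, ja2, ja4, ja6,
    BB.Ts, BB.Ek, BB.p0, BB.s1, BB.p1, BB.r2, BB.q2, BB.p2, BB.q3, BB.p3, BB.p4, pjR]
  push_cast; ring

theorem BB.mC_1 (f d F sF P Q R Y W V a b o g : ℝ) : BB.H3 f d F sF P Q R Y W a b o = (BB.mC f d F
    sF P Q R Y W V a b o g).2.1 := by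
  simp only [BB.mC, BB.H3, BB.E3, BB.s3,
    BB.Ts, BB.Ek, BB.p0, BB.s1, BB.p1, BB.r2, BB.q2, BB.p2, BB.q3, BB.p3, BB.p4, pjR]
  push_cast; ring

theorem BB.mC_2 (f d F sF P Q R Y W V a b o g : ℝ) : BB.H4 f d F sF P Q R Y W a b o = (BB.mC f d F
    sF P Q R Y W V a b o g).2.2 := by
  simp only [BB.mC, BB.H4, BB.E4, BB.s4,
    BB.Ts, BB.Ek, BB.p0, BB.s1, BB.p1, BB.r2, BB.q2, BB.p2, BB.q3, BB.p3, BB.p4, pjR]
  push_cast; ring

end Pool.Agent.Lib.MP_d6150d_an
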