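import Pool.Agent.Lib.MP_d6150d_an.BWD

/-! A generated chart: the computations. -/

namespace Pool.Agent.Lib.MP_d6150d_an.BW

theorem k0 : chk C 0x8808288812882088808218021880820 [(0, 6597069766656), (0, 70368744177664), (0,
    35184372088832)] = true := by
  decide +kernel

theorem k1 : chk C 0x88082880820 [(0, 6597069766656), (70368744177664, 140737488355328), (0,
    35184372088832)] = true := by
  decide +kernel

theorem k2 : chk C 0x8888202 [(0, 6597069766656), (0, 140737488355328), (35184372088832,
    70368744177664)] = true := by
  decide +kernel

theorem k3 : chk C 0x8888888202102 [(6597069766656, 13194139533312), (0, 140737488355328), (0,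
    70368744177664)] = true := by
  decide +kernel

theorem k4 : chk C 0x8 [(0, 13194139533312), (0, 140737488355328), (70368744177664,
    140737488355328)] = true := by
  decide +kernel

end Pool.Agent.Lib.MP_d6150d_an.BW
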