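import Pool.Agent.Lib.MP_d6150d_an.BMac
import Pool.Agent.Lib.MP_d6150d_an.PpChk
import Pool.Agent.Lib.MP_d6150d_an.BWK0

/-! A generated chart: the inequality. -/

namespace Pool.Agent.Lib.MP_d6150d_an.BW

set_option linter.unnecessarySeqFocus false
set_option linter.unusedTactic false
set_option linter.unusedVariables false
set_option linter.unusedSimpArgs false

theorem gd : Gd2 C [(0, 13194139533312), (0, 140737488355328), (0, 140737488355328)] := .split 2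
    (.split 0 (.split 2 (.split 1 (chk_sound2 k0) (chk_sound2 k1)) (chk_sound2 k2)) (chk_sound2 k3))
    (chk_sound2 k4)

set_option maxRecDepth 100000 in
theorem eq {d g u e v A B : ℝ} (he : e = 29 / 10 * d + g * (1 / 20 + 21 / 10 * d)) (hv : v = 1 - u)
    (hA : A = 16 - 60 * u + 48 * (u * u)) (hB : B = 4 - 6 * u) : outR prog 0 [d, g, u] = -(v * (v *
    (e * v * (6 * (1743000 + (-18580000) * d) * e * v + (144900 + 233700 * d) * (48 * u - 36) - 6 *
    (-550000 + 7500000 * d)) + 8 * ((3321 + 279400 * d) * A + (-58200 + (-107600) * d) * B + (137500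
    + (-1875000) * d))) + 64 * u * ((4443 + 44600 * d) * (A + B) + (-17670 + 72050 * d) * (B + 1)))
    + 512 * (u * u) * ((599 + 210 * d) * (A + 4 * B + 3))) := by
  replace he : e = ((((Int.cast (29) : ℝ) / (Nat.cast 10 : ℝ)) * d) + (g * (((Int.cast (1) : ℝ) /
    (Nat.cast 20 : ℝ)) + (((Int.cast (21) : ℝ) / (Nat.cast 10 : ℝ)) * d)))) := he.trans (by
    push_cast <;> ring)
  replace hv : v = ((Int.cast (1) : ℝ) - u) := hv.trans (by push_cast <;> ring)
  replace hA : A = (((Int.cast (16) : ℝ) - ((Int.cast (60) : ℝ) * u)) + ((Int.cast (48) : ℝ) * (u *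
    u))) := hA.trans (by push_cast <;> ring)
  replace hB : B = ((Int.cast (4) : ℝ) - ((Int.cast (6) : ℝ) * u)) := hB.trans (by push_cast <;>
    ring)
  have e0 : ((Int.cast (-1) : ℝ) * ((v * ((v * (((e * v) * ((((((Int.cast (6) : ℝ) * ((Int.cast
    (1743000) : ℝ) + ((Int.cast (-18580000) : ℝ) * d))) * e) * v) + (((Int.cast (144900) : ℝ) +
    ((Int.cast (233700) : ℝ) * d)) * (((Int.cast (48) : ℝ) * u) - (Int.cast (36) : ℝ)))) -
    ((Int.cast (6) : ℝ) * ((Int.cast (-550000) : ℝ) + ((Int.cast (7500000) : ℝ) * d))))) +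
    ((Int.cast (8) : ℝ) * (((((Int.cast (3321) : ℝ) + ((Int.cast (279400) : ℝ) * d)) * A) +
    (((Int.cast (-58200) : ℝ) + ((Int.cast (-107600) : ℝ) * d)) * B)) + ((Int.cast (137500) : ℝ) +
    ((Int.cast (-1875000) : ℝ) * d)))))) + (((Int.cast (64) : ℝ) * u) * ((((Int.cast (4443) : ℝ) +
    ((Int.cast (44600) : ℝ) * d)) * (A + B)) + (((Int.cast (-17670) : ℝ) + ((Int.cast (72050) : ℝ) *
    d)) * (B + (Int.cast (1) : ℝ))))))) + (((Int.cast (512) : ℝ) * (u * u)) * (((Int.cast (599) : ℝ)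
    + ((Int.cast (210) : ℝ) * d)) * ((A + ((Int.cast (4) : ℝ) * B)) + (Int.cast (3) : ℝ)))))) = -(v
    * (v * (e * v * (6 * (1743000 + (-18580000) * d) * e * v + (144900 + 233700 * d) * (48 * u - 36)
    - 6 * (-550000 + 7500000 * d)) + 8 * ((3321 + 279400 * d) * A + (-58200 + (-107600) * d) * B +
    (137500 + (-1875000) * d))) + 64 * u * ((4443 + 44600 * d) * (A + B) + (-17670 + 72050 * d) * (B
    + 1))) + 512 * (u * u) * ((599 + 210 * d) * (A + 4 * B + 3))) := by push_cast <;> ring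
  subst he hv hA hB
  refine Eq.trans ?_ e0 <;>
    simp only [outR, prog, prog1, runR, stepR, gtR, List.take, BB.mO, BB.mC]

theorem l0 : ((0 : ℤ) : ℝ) / 2 ^ 47 = 0 := by norm_num
theorem u0 : (3 / 32 : ℝ) = ((13194139533312 : ℤ) : ℝ) / 2 ^ 47 := by norm_num
theorem l1 : ((0 : ℤ) : ℝ) / 2 ^ 47 = 0 := by norm_num
theorem u1 : (1 : ℝ) = ((140737488355328 : ℤ) : ℝ) / 2 ^ 47 := by norm_num
theorem l2 : ((0 : ℤ) : ℝ) / 2 ^ 47 = 0 := by norm_num
theorem u2 : (1 : ℝ) = ((140737488355328 : ℤ) : ℝ) / 2 ^ 47 := by norm_num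

theorem out0 {d g u : ℝ} (a0 : 0 ≤ d) (b0 : d ≤ 3 / 32) (a1 : 0 ≤ g) (b1 : g ≤ 1) (a2 : 0 ≤ u) (b2 :
    u ≤ 1) : 0 < outR prog 0 [d, g, u] :=
  gd 0 (by decide) [d, g, u] (.cons ⟨l0.le.trans a0, b0.trans u0.le⟩ (.cons ⟨l1.le.trans a1,
    b1.trans u1.le⟩ (.cons ⟨l2.le.trans a2, b2.trans u2.le⟩ (.nil)))) ⟨nofun, nofun, nofun, trivial⟩
    (nofun) (List.forall_mem_nil _) (Van.of0 rfl) (nofun)

theorem pos0 {d g u e v A B : ℝ} (he : e = 29 / 10 * d + g * (1 / 20 + 21 / 10 * d)) (hv : v = 1 -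
    u) (hA : A = 16 - 60 * u + 48 * (u * u)) (hB : B = 4 - 6 * u) (a0 : 0 ≤ d) (b0 : d ≤ 3 / 32) (a1
    : 0 ≤ g) (b1 : g ≤ 1) (a2 : 0 ≤ u) (b2 : u ≤ 1) : 0 < -(v * (v * (e * v * (6 * (1743000 +
    (-18580000) * d) * e * v + (144900 + 233700 * d) * (48 * u - 36) - 6 * (-550000 + 7500000 * d))
    + 8 * ((3321 + 279400 * d) * A + (-58200 + (-107600) * d) * B + (137500 + (-1875000) * d))) + 64
    * u * ((4443 + 44600 * d) * (A + B) + (-17670 + 72050 * d) * (B + 1))) + 512 * (u * u) * ((599 +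
    210 * d) * (A + 4 * B + 3))) :=
  have e := eq he hv hA hB
  (out0 a0 b0 a1 b1 a2 b2).trans_eq e

end Pool.Agent.Lib.MP_d6150d_an.BW
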