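import Pool.Agent.Lib.MP_d6150d_an.BRt
import Pool.Agent.Lib.MP_d6150d_an.BLf
import Pool.Agent.Lib.MP_d6150d_an.BW

/-! The strip `B`: `-3 / 32 ≤ D < 0`, `23 / 100 ≤ F ≤ 1 / 4`. -/

namespace Pool.Agent.Lib.MP_d6150d_an

open Real

theorem B_holds (D F : ℝ) (h1 : -3 / 32 ≤ D) (h2 : D < 0) (h3 : 23 / 100 ≤ F) (h4 : F ≤ 1 / 4) :
    NoThree D F := by
  obtain ⟨f, rfl⟩ : ∃ f, F = BB.cF f := ⟨1 - 4 * F, by rw [BB.cF]; ring⟩
  obtain ⟨L, rfl⟩ : ∃ L, D = -exp L := ⟨log (-D), by rw [exp_log (neg_pos.2 h2), neg_neg]⟩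
  have f0 : 0 ≤ f := by rw [BB.cF] at h4; linarith
  have f1 : f ≤ 41 / 512 := by rw [BB.cF] at h3; linarith
  have d0 := exp_pos L
  have d1 : exp L ≤ 3 / 32 := by linarith
  obtain ⟨l, u, w⟩ := BB.e_bd f0 f1 d1
  refine BB.red (f := f) (by linarith) d0.le d1 (exp_pos ((1 + f) / 2 * L)) (fun x a b ↦ ?_)
    fun t h0 ↦ ?_
  · have n : 0 < 1 / 20 + 21 / 10 * exp L := by positivity
    exact BW.pos0 (g := (exp ((1 + f) / 2 * L) - 29 / 10 * exp L) / (1 / 20 + 21 / 10 * exp L))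
      (by rw [div_mul_cancel₀ _ n.ne']; ring) rfl rfl rfl d0.le d1 (div_nonneg (by linarith) n.le)
      ((div_le_one n).2 (by linarith)) a b
  rcases h0.lt_or_gt with h | h
  · refine mul_pos_of_neg_of_neg h ?_
    obtain ⟨s, rfl⟩ : ∃ s, t = -s := ⟨-t, (neg_neg t).symm⟩
    rcases le_total s 2 with k | k
    · exact BB.CL_neg f0 f1 d0 d1 l u (by linarith) k
    obtain ⟨M, rfl⟩ : ∃ M, L = M - s := ⟨L + s, by ring⟩
    rcases le_total (exp M) 4 with r | r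
    · rcases le_total s 8 with k' | k'
      exacts [BB.ML_neg f0 f1 d1 r k k', BB.TL_neg f0 f1 d1 r k']
    · exact BB.FL_neg f0 f1 d1 r
  · exact mul_pos h (BB.right_pos f0 f1 d0 d1 l u h)

end Pool.Agent.Lib.MP_d6150d_an
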