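import Pool.Agent.Lib.MP_d6150d_an.BTRD

/-! A generated chart: the computations. -/

namespace Pool.Agent.Lib.MP_d6150d_an.BTR

theorem k0 : chk C 0x888888830000910 [(0, 704374636544), (0, 824633720832), (0, 1786706395136), (0,
    446676598784)] = true := by
  decide +kernel

theorem k1 : chk C 0x88888010091 [(0, 704374636544), (0, 824633720832), (1786706395136,
    3573412790272), (0, 223338299392)] = true := by
  decide +kernel

theorem k2 : chk C 0x98888300913 [(0, 704374636544), (0, 824633720832), (1786706395136,
    3573412790272), (223338299392, 446676598784)] = true := by
  decide +kernel

theorem k3 : chk C 0x8 [(704374636544, 1408749273088), (0, 824633720832), (0, 3573412790272), (0,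
    446676598784)] = true := by
  decide +kernel

theorem k4 : chk C 0x8888888300000 [(0, 1408749273088), (824633720832, 1649267441664), (0,
    3573412790272), (0, 446676598784)] = true := by
  decide +kernel

theorem k5 : chk C 0x888883300883901 [(0, 1408749273088), (0, 1649267441664), (0, 3573412790272),
    (446676598784, 893353197568)] = true := by
  decide +kernel

end Pool.Agent.Lib.MP_d6150d_an.BTR
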