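import Pool.Agent.Lib.MP_d6150d_an.BTRD

/-! A generated chart: the computations. -/

namespace Pool.Agent.Lib.MP_d6150d_an.BTR

theorem k6 : chk C 0x88888010091 [(0, 704374636544), (0, 824633720832), (3573412790272,
    5360119185408), (0, 223338299392)] = true := by
  decide +kernel

theorem k7 : chk C 0x98888300913 [(0, 704374636544), (0, 824633720832), (3573412790272,
    5360119185408), (223338299392, 446676598784)] = true := by
  decide +kernel

theorem k8 : chk C 0x88888010091 [(0, 704374636544), (0, 824633720832), (5360119185408,
    7146825580544), (0, 223338299392)] = true := by
  decide +kernel

theorem k9 : chk C 0x98888300913 [(0, 704374636544), (0, 824633720832), (5360119185408,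
    7146825580544), (223338299392, 446676598784)] = true := by
  decide +kernel

theorem k10 : chk C 0x8 [(704374636544, 1408749273088), (0, 824633720832), (3573412790272,
    7146825580544), (0, 446676598784)] = true := by
  decide +kernel

theorem k11 : chk C 0x8888888300000 [(0, 1408749273088), (824633720832, 1649267441664),
    (3573412790272, 7146825580544), (0, 446676598784)] = true := by
  decide +kernel

theorem k12 : chk C 0x888883300883901 [(0, 1408749273088), (0, 1649267441664), (3573412790272,
    7146825580544), (446676598784, 893353197568)] = true := by
  decide +kernel

end Pool.Agent.Lib.MP_d6150d_an.BTR
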