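import Pool.Agent.Lib.MP_d6150d_an.BTRD

/-! A generated chart: the computations. -/

namespace Pool.Agent.Lib.MP_d6150d_an.BTR

theorem k70 : chk C 0x881888883300910 [(0, 2817498546176), (0, 1649267441664), (14293651161088,
    21440476741632), (893353197568, 1786706395136)] = true := by
  decide +kernel

theorem k71 : chk C 0x888883300 [(0, 2817498546176), (1649267441664, 3298534883328),
    (14293651161088, 21440476741632), (893353197568, 1786706395136)] = true := by
  decide +kernel

theorem k72 : chk C 0x88888100091 [(0, 704374636544), (0, 824633720832), (21440476741632,
    23227183136768), (0, 223338299392)] = true := by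
  decide +kernel

theorem k73 : chk C 0x9888880300913 [(0, 704374636544), (0, 824633720832), (21440476741632,
    23227183136768), (223338299392, 446676598784)] = true := by
  decide +kernel

theorem k74 : chk C 0x88888100091 [(0, 704374636544), (0, 824633720832), (23227183136768,
    25013889531904), (0, 223338299392)] = true := by
  decide +kernel

theorem k75 : chk C 0x9888883000913 [(0, 704374636544), (0, 824633720832), (23227183136768,
    25013889531904), (223338299392, 446676598784)] = true := by
  decide +kernel

end Pool.Agent.Lib.MP_d6150d_an.BTR
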