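import Pool.Agent.Lib.MP_d6150d_an.BTRD

/-! A generated chart: the computations. -/

namespace Pool.Agent.Lib.MP_d6150d_an.BTR

theorem k82 : chk C 0x9888883000913 [(0, 704374636544), (0, 824633720832), (26800595927040,
    28587302322176), (223338299392, 446676598784)] = true := by
  decide +kernel

theorem k83 : chk C 0x8888888130000 [(0, 704374636544), (824633720832, 1649267441664),
    (25013889531904, 28587302322176), (0, 446676598784)] = true := by
  decide +kernel

theorem k84 : chk C 0x881 [(704374636544, 1408749273088), (0, 1649267441664), (25013889531904,
    28587302322176), (0, 446676598784)] = true := by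
  decide +kernel

theorem k85 : chk C 0x88888813000883901 [(0, 1408749273088), (0, 1649267441664), (25013889531904,
    28587302322176), (446676598784, 893353197568)] = true := by
  decide +kernel

theorem k86 : chk C 0x881 [(1408749273088, 2817498546176), (0, 1649267441664), (21440476741632,
    28587302322176), (0, 893353197568)] = true := by
  decide +kernel

theorem k87 : chk C 0x8888828831888132000 [(0, 704374636544), (1649267441664, 3298534883328),
    (21440476741632, 28587302322176), (0, 446676598784)] = true := by
  decide +kernel

end Pool.Agent.Lib.MP_d6150d_an.BTR
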