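import Pool.Agent.Lib.MP_d6150d_an.BTRD

/-! A generated chart: the computations. -/

namespace Pool.Agent.Lib.MP_d6150d_an.BTR

theorem k88 : chk C 0x8888330 [(0, 704374636544), (1649267441664, 3298534883328), (21440476741632,
    28587302322176), (446676598784, 893353197568)] = true := by
  decide +kernel

theorem k89 : chk C 0x8 [(704374636544, 1408749273088), (1649267441664, 3298534883328),
    (21440476741632, 28587302322176), (0, 893353197568)] = true := by
  decide +kernel

theorem k90 : chk C 0x8 [(1408749273088, 2817498546176), (1649267441664, 3298534883328),
    (21440476741632, 28587302322176), (0, 893353197568)] = true := by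
  decide +kernel

theorem k91 : chk C 0x881888883300910 [(0, 2817498546176), (0, 1649267441664), (21440476741632,
    28587302322176), (893353197568, 1786706395136)] = true := by
  decide +kernel

theorem k92 : chk C 0x888883300 [(0, 2817498546176), (1649267441664, 3298534883328),
    (21440476741632, 28587302322176), (893353197568, 1786706395136)] = true := by
  decide +kernel

theorem k93 : chk C 0x88388188131 [(2817498546176, 5634997092352), (0, 3298534883328),
    (14293651161088, 28587302322176), (0, 1786706395136)] = true := by
  decide +kernel

theorem k94 : chk C 0x8883088883001 [(0, 704374636544), (3298534883328, 6597069766656),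
    (14293651161088, 21440476741632), (0, 446676598784)] = true := by
  decide +kernel

theorem k95 : chk C 0x888821088883001 [(0, 704374636544), (3298534883328, 6597069766656),
    (21440476741632, 28587302322176), (0, 446676598784)] = true := by
  decide +kernel

end Pool.Agent.Lib.MP_d6150d_an.BTR
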