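import Pool.Agent.Lib.MP_d6150d_an.BTRD

/-! A generated chart: the computations. -/

namespace Pool.Agent.Lib.MP_d6150d_an.BTR

theorem k96 : chk C 0x88388813188188312 [(0, 704374636544), (3298534883328, 6597069766656),
    (14293651161088, 28587302322176), (446676598784, 893353197568)] = true := by
  decide +kernel

theorem k97 : chk C 0x881 [(704374636544, 1408749273088), (3298534883328, 6597069766656),
    (14293651161088, 28587302322176), (0, 893353197568)] = true := by
  decide +kernel

theorem k98 : chk C 0x881 [(1408749273088, 2817498546176), (3298534883328, 6597069766656),
    (14293651161088, 28587302322176), (0, 893353197568)] = true := by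
  decide +kernel

theorem k99 : chk C 0x888880130 [(0, 2817498546176), (3298534883328, 6597069766656),
    (14293651161088, 28587302322176), (893353197568, 1786706395136)] = true := by
  decide +kernel

theorem k100 : chk C 0x88823 [(2817498546176, 5634997092352), (3298534883328, 6597069766656),
    (14293651161088, 28587302322176), (0, 1786706395136)] = true := by
  decide +kernel

theorem k101 : chk C 0x8888000881908819031 [(0, 2817498546176), (0, 3298534883328), (14293651161088,
    28587302322176), (1786706395136, 3573412790272)] = true := by
  decide +kernel

theorem k102 : chk C 0x8888311 [(2817498546176, 5634997092352), (0, 3298534883328), (14293651161088,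
    28587302322176), (1786706395136, 3573412790272)] = true := by
  decide +kernel

theorem k103 : chk C 0x888882300 [(0, 5634997092352), (3298534883328, 6597069766656),
    (14293651161088, 28587302322176), (1786706395136, 3573412790272)] = true := by
  decide +kernel

end Pool.Agent.Lib.MP_d6150d_an.BTR
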