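import Pool.Agent.Lib.MP_d6150d_an.BTRD

/-! A generated chart: the computations. -/

namespace Pool.Agent.Lib.MP_d6150d_an.BTR

theorem k104 : chk C 0x88388088031 [(5634997092352, 11269994184704), (0, 3298534883328), (0,
    14293651161088), (0, 1786706395136)] = true := by
  decide +kernel

theorem k105 : chk C 0x8880388088031 [(5634997092352, 11269994184704), (0, 3298534883328),
    (14293651161088, 28587302322176), (0, 1786706395136)] = true := by
  decide +kernel

theorem k106 : chk C 0x882888018881021 [(5634997092352, 11269994184704), (0, 3298534883328), (0,
    28587302322176), (1786706395136, 3573412790272)] = true := by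
  decide +kernel

theorem k107 : chk C 0x882888038880323 [(5634997092352, 11269994184704), (3298534883328,
    6597069766656), (0, 28587302322176), (0, 3573412790272)] = true := by
  decide +kernel

theorem k108 : chk C 0x88388810188388312 [(0, 704374636544), (6597069766656, 9895604649984), (0,
    14293651161088), (0, 446676598784)] = true := by
  decide +kernel

end Pool.Agent.Lib.MP_d6150d_an.BTR
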