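import Pool.Agent.Lib.MP_d6150d_an.BTRD

/-! A generated chart: the computations. -/

namespace Pool.Agent.Lib.MP_d6150d_an.BTR

theorem k109 : chk C 0x883888101 [(0, 704374636544), (6597069766656, 9895604649984),
    (14293651161088, 21440476741632), (0, 446676598784)] = true := by
  decide +kernel

theorem k110 : chk C 0x88183888101 [(0, 704374636544), (6597069766656, 9895604649984),
    (21440476741632, 28587302322176), (0, 446676598784)] = true := by
  decide +kernel

theorem k111 : chk C 0x881 [(704374636544, 1408749273088), (6597069766656, 9895604649984), (0,
    28587302322176), (0, 446676598784)] = true := by
  decide +kernel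

theorem k112 : chk C 0x88810 [(0, 1408749273088), (6597069766656, 9895604649984), (0,
    28587302322176), (446676598784, 893353197568)] = true := by
  decide +kernel

theorem k113 : chk C 0x88813 [(1408749273088, 2817498546176), (6597069766656, 9895604649984), (0,
    28587302322176), (0, 893353197568)] = true := by
  decide +kernel

theorem k114 : chk C 0x88388823188388312 [(0, 704374636544), (9895604649984, 13194139533312), (0,
    28587302322176), (0, 446676598784)] = true := by
  decide +kernel

theorem k115 : chk C 0x881 [(704374636544, 1408749273088), (9895604649984, 13194139533312), (0,
    28587302322176), (0, 446676598784)] = true := by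
  decide +kernel

theorem k116 : chk C 0x881 [(0, 1408749273088), (9895604649984, 13194139533312), (0,
    28587302322176), (446676598784, 893353197568)] = true := by
  decide +kernel

theorem k117 : chk C 0x88813 [(1408749273088, 2817498546176), (9895604649984, 13194139533312), (0,
    28587302322176), (0, 893353197568)] = true := by
  decide +kernel

theorem k118 : chk C 0x880888101 [(0, 2817498546176), (6597069766656, 13194139533312), (0,
    28587302322176), (893353197568, 1786706395136)] = true := by
  decide +kernel

end Pool.Agent.Lib.MP_d6150d_an.BTR
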