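import Pool.Agent.Lib.MP_d6150d_an.BTRD

/-! A generated chart: the computations. -/

namespace Pool.Agent.Lib.MP_d6150d_an.BTR

theorem k119 : chk C 0x888803388880231 [(2817498546176, 5634997092352), (6597069766656,
    13194139533312), (0, 28587302322176), (0, 1786706395136)] = true := by
  decide +kernel

theorem k120 : chk C 0x8818808883010 [(0, 5634997092352), (6597069766656, 13194139533312), (0,
    28587302322176), (1786706395136, 3573412790272)] = true := by
  decide +kernel

theorem k121 : chk C 0x88803888031 [(5634997092352, 11269994184704), (6597069766656,
    13194139533312), (0, 14293651161088), (0, 1786706395136)] = true := by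
  decide +kernel

theorem k122 : chk C 0x88803888031 [(5634997092352, 11269994184704), (6597069766656,
    13194139533312), (14293651161088, 28587302322176), (0, 1786706395136)] = true := by
  decide +kernel

theorem k123 : chk C 0x881 [(5634997092352, 11269994184704), (6597069766656, 13194139533312), (0,
    28587302322176), (1786706395136, 3573412790272)] = true := by
  decide +kernel

end Pool.Agent.Lib.MP_d6150d_an.BTR
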