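import Pool.Agent.Lib.MP_d6150d_an.BTRD

/-! A generated chart: the computations. -/

namespace Pool.Agent.Lib.MP_d6150d_an.BTR

theorem k13 : chk C 0x881 [(1408749273088, 2817498546176), (0, 1649267441664), (0, 7146825580544),
    (0, 893353197568)] = true := by
  decide +kernel

theorem k14 : chk C 0x8888813088388183120 [(0, 352187318272), (1649267441664, 3298534883328), (0,
    7146825580544), (0, 446676598784)] = true := by
  decide +kernel

theorem k15 : chk C 0x8 [(352187318272, 704374636544), (1649267441664, 3298534883328), (0,
    7146825580544), (0, 446676598784)] = true := by
  decide +kernel

theorem k16 : chk C 0x8888233 [(0, 704374636544), (1649267441664, 3298534883328), (0,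
    7146825580544), (446676598784, 893353197568)] = true := by
  decide +kernel

theorem k17 : chk C 0x8 [(704374636544, 1408749273088), (1649267441664, 3298534883328), (0,
    7146825580544), (0, 893353197568)] = true := by
  decide +kernel

theorem k18 : chk C 0x8 [(1408749273088, 2817498546176), (1649267441664, 3298534883328), (0,
    7146825580544), (0, 893353197568)] = true := by
  decide +kernel

theorem k19 : chk C 0x881888882330910 [(0, 2817498546176), (0, 1649267441664), (0, 7146825580544),
    (893353197568, 1786706395136)] = true := by
  decide +kernel

theorem k20 : chk C 0x888882330 [(0, 2817498546176), (1649267441664, 3298534883328), (0,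
    7146825580544), (893353197568, 1786706395136)] = true := by
  decide +kernel

theorem k21 : chk C 0x88888010091 [(0, 704374636544), (0, 824633720832), (7146825580544,
    8933531975680), (0, 223338299392)] = true := by
  decide +kernel

end Pool.Agent.Lib.MP_d6150d_an.BTR
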