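import Pool.Agent.Lib.MP_d6150d_an.BTRD

/-! A generated chart: the computations. -/

namespace Pool.Agent.Lib.MP_d6150d_an.BTR

theorem k22 : chk C 0x9888882300913 [(0, 704374636544), (0, 824633720832), (7146825580544,
    8933531975680), (223338299392, 446676598784)] = true := by
  decide +kernel

theorem k23 : chk C 0x88888010091 [(0, 704374636544), (0, 824633720832), (8933531975680,
    10720238370816), (0, 223338299392)] = true := by
  decide +kernel

theorem k24 : chk C 0x9888882300913 [(0, 704374636544), (0, 824633720832), (8933531975680,
    10720238370816), (223338299392, 446676598784)] = true := by
  decide +kernel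

theorem k25 : chk C 0x8 [(704374636544, 1408749273088), (0, 824633720832), (7146825580544,
    10720238370816), (0, 446676598784)] = true := by
  decide +kernel

theorem k26 : chk C 0x8888888300000 [(0, 1408749273088), (824633720832, 1649267441664),
    (7146825580544, 10720238370816), (0, 446676598784)] = true := by
  decide +kernel

theorem k27 : chk C 0x888883300883901 [(0, 1408749273088), (0, 1649267441664), (7146825580544,
    10720238370816), (446676598784, 893353197568)] = true := by
  decide +kernel

end Pool.Agent.Lib.MP_d6150d_an.BTR
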