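import Pool.Agent.Lib.MP_d6150d_an.BTRD

/-! A generated chart: the computations. -/

namespace Pool.Agent.Lib.MP_d6150d_an.BTR

theorem k28 : chk C 0x88888010091 [(0, 704374636544), (0, 824633720832), (10720238370816,
    12506944765952), (0, 223338299392)] = true := by
  decide +kernel

theorem k29 : chk C 0x9888881300913 [(0, 704374636544), (0, 824633720832), (10720238370816,
    12506944765952), (223338299392, 446676598784)] = true := by
  decide +kernel

theorem k30 : chk C 0x88888010091 [(0, 704374636544), (0, 824633720832), (12506944765952,
    14293651161088), (0, 223338299392)] = true := by
  decide +kernel

theorem k31 : chk C 0x9888881300913 [(0, 704374636544), (0, 824633720832), (12506944765952,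
    14293651161088), (223338299392, 446676598784)] = true := by
  decide +kernel

theorem k32 : chk C 0x8 [(704374636544, 1408749273088), (0, 824633720832), (10720238370816,
    14293651161088), (0, 446676598784)] = true := by
  decide +kernel

theorem k33 : chk C 0x888888882300000 [(0, 1408749273088), (824633720832, 1649267441664),
    (10720238370816, 14293651161088), (0, 446676598784)] = true := by
  decide +kernel

end Pool.Agent.Lib.MP_d6150d_an.BTR
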