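import Pool.Agent.Lib.MP_d6150d_an.BTRD

/-! A generated chart: the computations. -/

namespace Pool.Agent.Lib.MP_d6150d_an.BTR

theorem k34 : chk C 0x888883300883901 [(0, 1408749273088), (0, 1649267441664), (10720238370816,
    14293651161088), (446676598784, 893353197568)] = true := by
  decide +kernel

theorem k35 : chk C 0x881 [(1408749273088, 2817498546176), (0, 1649267441664), (7146825580544,
    14293651161088), (0, 893353197568)] = true := by
  decide +kernel

theorem k36 : chk C 0x8888008888881300030 [(0, 1408749273088), (1649267441664, 3298534883328),
    (7146825580544, 14293651161088), (0, 893353197568)] = true := by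
  decide +kernel

theorem k37 : chk C 0x8 [(1408749273088, 2817498546176), (1649267441664, 3298534883328),
    (7146825580544, 14293651161088), (0, 893353197568)] = true := by
  decide +kernel

theorem k38 : chk C 0x881888883300910 [(0, 2817498546176), (0, 1649267441664), (7146825580544,
    14293651161088), (893353197568, 1786706395136)] = true := by
  decide +kernel

theorem k39 : chk C 0x8888000 [(0, 2817498546176), (1649267441664, 3298534883328), (7146825580544,
    14293651161088), (893353197568, 1786706395136)] = true := by
  decide +kernel

theorem k40 : chk C 0x88388188131 [(2817498546176, 5634997092352), (0, 3298534883328), (0,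
    14293651161088), (0, 1786706395136)] = true := by
  decide +kernel

end Pool.Agent.Lib.MP_d6150d_an.BTR
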