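import Pool.Agent.Lib.MP_d6150d_an.BTRD

/-! A generated chart: the computations. -/

namespace Pool.Agent.Lib.MP_d6150d_an.BTR

theorem k41 : chk C 0x8881088881001 [(0, 704374636544), (3298534883328, 6597069766656), (0,
    7146825580544), (0, 446676598784)] = true := by
  decide +kernel

theorem k42 : chk C 0x8883088883001 [(0, 704374636544), (3298534883328, 6597069766656),
    (7146825580544, 14293651161088), (0, 446676598784)] = true := by
  decide +kernel

theorem k43 : chk C 0x88801 [(0, 704374636544), (3298534883328, 6597069766656), (0, 14293651161088),
    (446676598784, 893353197568)] = true := by
  decide +kernel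

theorem k44 : chk C 0x8818812 [(704374636544, 1408749273088), (3298534883328, 6597069766656), (0,
    14293651161088), (0, 893353197568)] = true := by
  decide +kernel

theorem k45 : chk C 0x881 [(1408749273088, 2817498546176), (3298534883328, 6597069766656), (0,
    14293651161088), (0, 893353197568)] = true := by
  decide +kernel

theorem k46 : chk C 0x88800 [(0, 2817498546176), (3298534883328, 6597069766656), (0,
    14293651161088), (893353197568, 1786706395136)] = true := by
  decide +kernel

theorem k47 : chk C 0x883 [(2817498546176, 5634997092352), (3298534883328, 6597069766656), (0,
    14293651161088), (0, 1786706395136)] = true := by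
  decide +kernel

theorem k48 : chk C 0x88888322190881903 [(0, 2817498546176), (0, 1649267441664), (0,
    14293651161088), (1786706395136, 3573412790272)] = true := by
  decide +kernel

end Pool.Agent.Lib.MP_d6150d_an.BTR
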