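import Pool.Agent.Lib.MP_d6150d_an.BTRD

/-! A generated chart: the computations. -/

namespace Pool.Agent.Lib.MP_d6150d_an.BTR

theorem k49 : chk C 0x8888300 [(0, 2817498546176), (1649267441664, 3298534883328), (0,
    14293651161088), (1786706395136, 3573412790272)] = true := by
  decide +kernel

theorem k50 : chk C 0x8888111 [(2817498546176, 5634997092352), (0, 3298534883328), (0,
    14293651161088), (1786706395136, 3573412790272)] = true := by
  decide +kernel

theorem k51 : chk C 0x888828300 [(0, 5634997092352), (3298534883328, 6597069766656), (0,
    14293651161088), (1786706395136, 3573412790272)] = true := by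
  decide +kernel

theorem k52 : chk C 0x88888100091 [(0, 704374636544), (0, 824633720832), (14293651161088,
    16080357556224), (0, 223338299392)] = true := by
  decide +kernel

theorem k53 : chk C 0x9888880300913 [(0, 704374636544), (0, 824633720832), (14293651161088,
    16080357556224), (223338299392, 446676598784)] = true := by
  decide +kernel

theorem k54 : chk C 0x88888100091 [(0, 704374636544), (0, 824633720832), (16080357556224,
    17867063951360), (0, 223338299392)] = true := by
  decide +kernel

theorem k55 : chk C 0x9888880300913 [(0, 704374636544), (0, 824633720832), (16080357556224,
    17867063951360), (223338299392, 446676598784)] = true := by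
  decide +kernel

end Pool.Agent.Lib.MP_d6150d_an.BTR
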