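import Pool.Agent.Lib.MP_d6150d_an.BMac
import Pool.Agent.Lib.MP_d6150d_an.PpChk
import Pool.Agent.Lib.MP_d6150d_an.BTRK0
import Pool.Agent.Lib.MP_d6150d_an.BTRK1
import Pool.Agent.Lib.MP_d6150d_an.BTRK2
import Pool.Agent.Lib.MP_d6150d_an.BTRK3
import Pool.Agent.Lib.MP_d6150d_an.BTRK4
import Pool.Agent.Lib.MP_d6150d_an.BTRK5
import Pool.Agent.Lib.MP_d6150d_an.BTRK6
import Pool.Agent.Lib.MP_d6150d_an.BTRK7
import Pool.Agent.Lib.MP_d6150d_an.BTRK8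
import Pool.Agent.Lib.MP_d6150d_an.BTRK9
import Pool.Agent.Lib.MP_d6150d_an.BTRK10
import Pool.Agent.Lib.MP_d6150d_an.BTRK11
import Pool.Agent.Lib.MP_d6150d_an.BTRK12
import Pool.Agent.Lib.MP_d6150d_an.BTRK13
import Pool.Agent.Lib.MP_d6150d_an.BTRK14
import Pool.Agent.Lib.MP_d6150d_an.BTRK15
import Pool.Agent.Lib.MP_d6150d_an.BTRK16
import Pool.Agent.Lib.MP_d6150d_an.BTRK17

/-! A generated chart: the inequality. -/

namespace Pool.Agent.Lib.MP_d6150d_an.BTR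

set_option linter.unnecessarySeqFocus false
set_option linter.unusedTactic false
set_option linter.unusedVariables false
set_option linter.unusedSimpArgs false

theorem gd : Gd2 C [(0, 11269994184704), (0, 13194139533312), (0, 28587302322176), (0,
    3573412790272)] := .split 1 (.split 0 (.split 2 (.split 3 (.split 1 (.split 0 (.split 2 (.split
    3 (.split 1 (.split 0 (.split 2 (.split 3 (.split 1 (.split 0 (.split 2 (chk_sound2 k0) (.split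
    3 (chk_sound2 k1) (chk_sound2 k2))) (chk_sound2 k3)) (chk_sound2 k4)) (chk_sound2 k5)) (.split 3
    (.split 1 (.split 0 (.split 2 (.split 3 (chk_sound2 k6) (chk_sound2 k7)) (.split 3 (chk_sound2
    k8) (chk_sound2 k9))) (chk_sound2 k10)) (chk_sound2 k11)) (chk_sound2 k12))) (chk_sound2 k13))
    (.split 0 (.split 0 (.split 3 (.split 0 (chk_sound2 k14) (chk_sound2 k15)) (chk_sound2 k16))
    (chk_sound2 k17)) (chk_sound2 k18))) (.split 1 (chk_sound2 k19) (chk_sound2 k20))) (.split 3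
    (.split 1 (.split 0 (.split 2 (.split 3 (.split 1 (.split 0 (.split 2 (.split 3 (chk_sound2 k21)
    (chk_sound2 k22)) (.split 3 (chk_sound2 k23) (chk_sound2 k24))) (chk_sound2 k25)) (chk_sound2
    k26)) (chk_sound2 k27)) (.split 3 (.split 1 (.split 0 (.split 2 (.split 3 (chk_sound2 k28)
    (chk_sound2 k29)) (.split 3 (chk_sound2 k30) (chk_sound2 k31))) (chk_sound2 k32)) (chk_sound2
    k33)) (chk_sound2 k34))) (chk_sound2 k35)) (.split 0 (chk_sound2 k36) (chk_sound2 k37))) (.split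
    1 (chk_sound2 k38) (chk_sound2 k39)))) (chk_sound2 k40)) (.split 0 (.split 3 (.split 0 (.split 0
    (.split 3 (.split 2 (chk_sound2 k41) (chk_sound2 k42)) (chk_sound2 k43)) (chk_sound2 k44))
    (chk_sound2 k45)) (chk_sound2 k46)) (chk_sound2 k47))) (.split 1 (.split 0 (.split 1 (chk_sound2
    k48) (chk_sound2 k49)) (chk_sound2 k50)) (chk_sound2 k51))) (.split 3 (.split 1 (.split 0
    (.split 2 (.split 3 (.split 1 (.split 0 (.split 2 (.split 3 (.split 0 (.split 1 (.split 2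
    (.split 3 (chk_sound2 k52) (chk_sound2 k53)) (.split 3 (chk_sound2 k54) (chk_sound2 k55)))
    (chk_sound2 k56)) (chk_sound2 k57)) (chk_sound2 k58)) (.split 3 (.split 0 (.split 1 (.split 2
    (.split 3 (chk_sound2 k59) (chk_sound2 k60)) (.split 3 (chk_sound2 k61) (chk_sound2 k62)))
    (chk_sound2 k63)) (chk_sound2 k64)) (chk_sound2 k65))) (chk_sound2 k66)) (.split 0 (.split 0
    (chk_sound2 k67) (chk_sound2 k68)) (chk_sound2 k69))) (.split 1 (chk_sound2 k70) (chk_sound2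
    k71))) (.split 3 (.split 1 (.split 0 (.split 2 (.split 3 (.split 0 (.split 1 (.split 2 (.split 3
    (chk_sound2 k72) (chk_sound2 k73)) (.split 3 (chk_sound2 k74) (chk_sound2 k75))) (chk_sound2
    k76)) (chk_sound2 k77)) (chk_sound2 k78)) (.split 3 (.split 0 (.split 1 (.split 2 (.split 3
    (chk_sound2 k79) (chk_sound2 k80)) (.split 3 (chk_sound2 k81) (chk_sound2 k82))) (chk_sound2
    k83)) (chk_sound2 k84)) (chk_sound2 k85))) (chk_sound2 k86)) (.split 0 (.split 0 (.split 3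
    (chk_sound2 k87) (chk_sound2 k88)) (chk_sound2 k89)) (chk_sound2 k90))) (.split 1 (chk_sound2
    k91) (chk_sound2 k92)))) (chk_sound2 k93)) (.split 0 (.split 3 (.split 0 (.split 0 (.split 3
    (.split 2 (chk_sound2 k94) (chk_sound2 k95)) (chk_sound2 k96)) (chk_sound2 k97)) (chk_sound2
    k98)) (chk_sound2 k99)) (chk_sound2 k100))) (.split 1 (.split 0 (chk_sound2 k101) (chk_sound2
    k102)) (chk_sound2 k103)))) (.split 1 (.split 3 (.split 2 (chk_sound2 k104) (chk_sound2 k105))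
    (chk_sound2 k106)) (chk_sound2 k107))) (.split 0 (.split 3 (.split 0 (.split 3 (.split 1 (.split
    0 (.split 3 (.split 0 (.split 2 (chk_sound2 k108) (.split 2 (chk_sound2 k109) (chk_sound2
    k110))) (chk_sound2 k111)) (chk_sound2 k112)) (chk_sound2 k113)) (.split 0 (.split 3 (.split 0
    (chk_sound2 k114) (chk_sound2 k115)) (chk_sound2 k116)) (chk_sound2 k117))) (chk_sound2 k118))
    (chk_sound2 k119)) (chk_sound2 k120)) (.split 3 (.split 2 (chk_sound2 k121) (chk_sound2 k122))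
    (chk_sound2 k123)))

set_option maxRecDepth 100000 in
theorem eq {f d n z F q x0 x2 sb P Q R W f2 I H Y V j j2 a b o z20 g z22 z23 z24 : ℝ} (hF : F = (1 -
    f) * (1 / 4)) (hq : q = z * (z - f * n)) (hx0 : x0 = 1) (hx2 : x2 = d * (q * q)) (hsb : sb = z *
    z) (hP : P = 1 * ((1 - d) * x0)) (hQ : Q = 1 * ((1 - 2 * d) * q)) (hR : R = (-1) * x2) (hW : W =
    P - Q + R) (hf2 : f2 = f * f) (hI : I = ((1 - f2) * (3 + f))⁻¹) (hH : H = 2 * (I * ((1 - d) * (3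
    + 4 * f + f2) * (x0 - z) + (1 - 2 * d) * (3 - 2 * f - f2) * (q - z) + (1 - f2) * (x2 - d * z))))
    (hY : Y = 1 * H) (hV : V = 2 * H) (hj : j = (√(16 * z + V))⁻¹) (hj2 : j2 = j * j) (ha : a = 4 *
    (z * j)) (hb : b = 64 * (sb * j * j2)) (ho : o = 1 - 16 * (z * j2)) (hz20 : z20 = (√V)⁻¹) (hg :
    g = 1 * (sb * V * z20)) (hz22 : z22 = BB.Gb f d F F P Q R Y W V z a b o g) (hz23 : z23 = BB.H3 f
    d F F P Q R Y W a b o) (hz24 : z24 = BB.H4 f d F F P Q R Y W a b o) : outR prog 0 [f, d, n, z] =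
    z22 ∧ outR prog 1 [f, d, n, z] = z23 ∧ outR prog 2 [f, d, n, z] = z24 := by
  replace hF : F = (((Int.cast (1) : ℝ) / (Nat.cast 4 : ℝ)) * ((Int.cast (1) : ℝ) - f)) := hF.trans
    (by push_cast <;> ring)
  replace hq : q = (z * (z - (f * n))) := hq.trans (by push_cast <;> ring)
  replace hx0 : x0 = (Int.cast (1) : ℝ) := hx0.trans (by push_cast <;> ring)
  replace hx2 : x2 = (d * (q * q)) := hx2.trans (by push_cast <;> ring)
  replace hsb : sb = (z * z) := hsb.trans (by push_cast <;> ring)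
  replace hP : P = ((Int.cast (1) : ℝ) * (((Int.cast (1) : ℝ) - d) * x0)) := hP.trans (by push_cast
    <;> ring)
  replace hQ : Q = ((Int.cast (1) : ℝ) * (((Int.cast (1) : ℝ) - ((Int.cast (2) : ℝ) * d)) * q)) :=
    hQ.trans (by push_cast <;> ring)
  replace hR : R = ((Int.cast (-1) : ℝ) * x2) := hR.trans (by push_cast <;> ring)
  replace hW : W = ((P - Q) + R) := hW.trans (by push_cast <;> ring)
  replace hf2 : f2 = (f * f) := hf2.trans (by push_cast <;> ring)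
  replace hI : I = (((Int.cast (1) : ℝ) - f2) * ((Int.cast (3) : ℝ) + f))⁻¹ := hI.trans (by
    push_cast <;> ring)
  replace hH : H = ((Int.cast (2) : ℝ) * (I * ((((((Int.cast (1) : ℝ) - d) * (((Int.cast (3) : ℝ) +
    ((Int.cast (4) : ℝ) * f)) + f2)) * (x0 - z)) + ((((Int.cast (1) : ℝ) - ((Int.cast (2) : ℝ) * d))
    * (((Int.cast (3) : ℝ) - ((Int.cast (2) : ℝ) * f)) - f2)) * (q - z))) + (((Int.cast (1) : ℝ) -
    f2) * (x2 - (d * z)))))) := hH.trans (by push_cast <;> ring)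
  replace hY : Y = ((Int.cast (1) : ℝ) * H) := hY.trans (by push_cast <;> ring)
  replace hV : V = ((Int.cast (2) : ℝ) * H) := hV.trans (by push_cast <;> ring)
  replace hj : j = (√(((Int.cast (16) : ℝ) * z) + V))⁻¹ := hj.trans (congrArg (fun x : ℝ ↦ (√x)⁻¹)
    (by push_cast <;> ring))
  replace hj2 : j2 = (j * j) := hj2.trans (by push_cast <;> ring)
  replace ha : a = ((Int.cast (4) : ℝ) * (z * j)) := ha.trans (by push_cast <;> ring)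
  replace hb : b = ((Int.cast (64) : ℝ) * ((sb * j) * j2)) := hb.trans (by push_cast <;> ring)
  replace ho : o = ((Int.cast (1) : ℝ) - ((Int.cast (16) : ℝ) * (z * j2))) := ho.trans (by push_cast
    <;> ring)
  replace hg : g = ((Int.cast (1) : ℝ) * ((sb * V) * z20)) := hg.trans (by push_cast <;> ring)
  replace hz22 : z22 = (BB.mO f d F F P Q R Y W V z a b o g).1 := hz22.trans (BB.mO_0 ..)
  replace hz23 : z23 = (BB.mO f d F F P Q R Y W V z a b o g).2.1 := hz23.trans (BB.mO_1 ..)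
  replace hz24 : z24 = (BB.mO f d F F P Q R Y W V z a b o g).2.2 := hz24.trans (BB.mO_2 ..)
  subst hF hq hx0 hx2 hsb hP hQ hR hW hf2 hI hH hY hV hj hj2 ha hb ho hz20 hg hz22 hz23 hz24
  refine ⟨?_, ?_, ?_⟩ <;>
    simp only [outR, prog, prog1, prog2, prog3, prog4, prog5, prog6, prog7, prog8, runR, stepR, gtR,
      List.take, BB.mO, BB.mC]

theorem l0 : ((0 : ℤ) : ℝ) / 2 ^ 47 = 0 := by norm_num
theorem u0 : (41 / 512 : ℝ) = ((11269994184704 : ℤ) : ℝ) / 2 ^ 47 := by norm_num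
theorem l1 : ((0 : ℤ) : ℝ) / 2 ^ 47 = 0 := by norm_num
theorem u1 : (3 / 32 : ℝ) = ((13194139533312 : ℤ) : ℝ) / 2 ^ 47 := by norm_num
theorem l2 : ((0 : ℤ) : ℝ) / 2 ^ 47 = 0 := by norm_num
theorem u2 : (13 / 64 : ℝ) = ((28587302322176 : ℤ) : ℝ) / 2 ^ 47 := by norm_num
theorem l3 : ((0 : ℤ) : ℝ) / 2 ^ 47 = 0 := by norm_num
theorem u3 : (13 / 512 : ℝ) = ((3573412790272 : ℤ) : ℝ) / 2 ^ 47 := by norm_num

theorem out0 (V3 : ∀ f d n : ℝ, 0 ≤ f → f ≤ 41 / 512 → 0 ≤ d → d ≤ 3 / 32 → 0 ≤ n → n ≤ 13 / 64 →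
    outR prog 0 [f, d, n, 0] = 0) (N : ∀ n z : ℝ, 0 ≤ n → n ≤ 13 / 64 → 0 ≤ z → z ≤ 13 / 512 → 0 ≤
    outR prog 0 [0, 0, n, z]) {f d n z : ℝ} (a0 : 0 ≤ f) (b0 : f ≤ 41 / 512) (a1 : 0 ≤ d) (b1 : d ≤
    3 / 32) (a2 : 0 ≤ n) (b2 : n ≤ 13 / 64) (a3 : 0 ≤ z) (b3 : z ≤ 13 / 512) (p3 : 0 < z) (pc : 0 <
    f ∨ 0 < d) : 0 < outR prog 0 [f, d, n, z] :=
  gd 0 (by decide) [f, d, n, z] (.cons ⟨l0.le.trans a0, b0.trans u0.le⟩ (.cons ⟨l1.le.trans a1,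
    b1.trans u1.le⟩ (.cons ⟨l2.le.trans a2, b2.trans u2.le⟩ (.cons ⟨l3.le.trans a3, b3.trans u3.le⟩
    (.nil))))) ⟨nofun, nofun, nofun, fun _ ↦ p3, trivial⟩ (fun _ ↦ pc.elim (fun h ↦ .inl ⟨rfl, h⟩)
    (fun h ↦ .inr (.inl ⟨rfl, h⟩))) (List.forall_mem_nil _) (⟨fun _ ↦ allB_iff.2 fun _ _ ↦ trivial,
    fun y0 a0 b0 ↦ ⟨fun _ ↦ allB_iff.2 fun _ _ ↦ trivial, fun y1 a1 b1 ↦ ⟨fun _ ↦ allB_iff.2 fun _ _
    ↦ trivial, fun y2 a2 b2 ↦ ⟨fun _ ↦ V3 y0 y1 y2 (l0.ge.trans a0) (b0.trans u0.ge) (l1.ge.trans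
    a1) (b1.trans u1.ge) (l2.ge.trans a2) (b2.trans u2.ge), fun _ _ _ ↦ trivial⟩⟩⟩⟩) (fun _ _ _ _ _
    _ _ y2 a2 b2 y3 a3 b3 ↦ N y2 y3 (l2.ge.trans a2) (b2.trans u2.ge) (l3.ge.trans a3) (b3.trans
    u3.ge))

theorem out1 (V3 : ∀ f d n : ℝ, 0 ≤ f → f ≤ 41 / 512 → 0 ≤ d → d ≤ 3 / 32 → 0 ≤ n → n ≤ 13 / 64 →
    outR prog 1 [f, d, n, 0] = 0) (N : ∀ n z : ℝ, 0 ≤ n → n ≤ 13 / 64 → 0 ≤ z → z ≤ 13 / 512 → 0 ≤
    outR prog 1 [0, 0, n, z]) {f d n z : ℝ} (a0 : 0 ≤ f) (b0 : f ≤ 41 / 512) (a1 : 0 ≤ d) (b1 : d ≤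
    3 / 32) (a2 : 0 ≤ n) (b2 : n ≤ 13 / 64) (a3 : 0 ≤ z) (b3 : z ≤ 13 / 512) (p3 : 0 < z) (pc : 0 <
    f ∨ 0 < d) : 0 < outR prog 1 [f, d, n, z] :=
  gd 1 (by decide) [f, d, n, z] (.cons ⟨l0.le.trans a0, b0.trans u0.le⟩ (.cons ⟨l1.le.trans a1,
    b1.trans u1.le⟩ (.cons ⟨l2.le.trans a2, b2.trans u2.le⟩ (.cons ⟨l3.le.trans a3, b3.trans u3.le⟩
    (.nil))))) ⟨nofun, nofun, nofun, fun _ ↦ p3, trivial⟩ (fun _ ↦ pc.elim (fun h ↦ .inl ⟨rfl, h⟩)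
    (fun h ↦ .inr (.inl ⟨rfl, h⟩))) (List.forall_mem_nil _) (⟨fun _ ↦ allB_iff.2 fun _ _ ↦ trivial,
    fun y0 a0 b0 ↦ ⟨fun _ ↦ allB_iff.2 fun _ _ ↦ trivial, fun y1 a1 b1 ↦ ⟨fun _ ↦ allB_iff.2 fun _ _
    ↦ trivial, fun y2 a2 b2 ↦ ⟨fun _ ↦ V3 y0 y1 y2 (l0.ge.trans a0) (b0.trans u0.ge) (l1.ge.trans
    a1) (b1.trans u1.ge) (l2.ge.trans a2) (b2.trans u2.ge), fun _ _ _ ↦ trivial⟩⟩⟩⟩) (fun _ _ _ _ _
    _ _ y2 a2 b2 y3 a3 b3 ↦ N y2 y3 (l2.ge.trans a2) (b2.trans u2.ge) (l3.ge.trans a3) (b3.trans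
    u3.ge))

theorem out2 (V3 : ∀ f d n : ℝ, 0 ≤ f → f ≤ 41 / 512 → 0 ≤ d → d ≤ 3 / 32 → 0 ≤ n → n ≤ 13 / 64 →
    outR prog 2 [f, d, n, 0] = 0) (N : ∀ n z : ℝ, 0 ≤ n → n ≤ 13 / 64 → 0 ≤ z → z ≤ 13 / 512 → 0 ≤
    outR prog 2 [0, 0, n, z]) {f d n z : ℝ} (a0 : 0 ≤ f) (b0 : f ≤ 41 / 512) (a1 : 0 ≤ d) (b1 : d ≤
    3 / 32) (a2 : 0 ≤ n) (b2 : n ≤ 13 / 64) (a3 : 0 ≤ z) (b3 : z ≤ 13 / 512) (p3 : 0 < z) (pc : 0 <
    f ∨ 0 < d) : 0 < outR prog 2 [f, d, n, z] :=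
  gd 2 (by decide) [f, d, n, z] (.cons ⟨l0.le.trans a0, b0.trans u0.le⟩ (.cons ⟨l1.le.trans a1,
    b1.trans u1.le⟩ (.cons ⟨l2.le.trans a2, b2.trans u2.le⟩ (.cons ⟨l3.le.trans a3, b3.trans u3.le⟩
    (.nil))))) ⟨nofun, nofun, nofun, fun _ ↦ p3, trivial⟩ (fun _ ↦ pc.elim (fun h ↦ .inl ⟨rfl, h⟩)
    (fun h ↦ .inr (.inl ⟨rfl, h⟩))) (List.forall_mem_nil _) (⟨fun _ ↦ allB_iff.2 fun _ _ ↦ trivial,
    fun y0 a0 b0 ↦ ⟨fun _ ↦ allB_iff.2 fun _ _ ↦ trivial, fun y1 a1 b1 ↦ ⟨fun _ ↦ allB_iff.2 fun _ _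
    ↦ trivial, fun y2 a2 b2 ↦ ⟨fun _ ↦ V3 y0 y1 y2 (l0.ge.trans a0) (b0.trans u0.ge) (l1.ge.trans
    a1) (b1.trans u1.ge) (l2.ge.trans a2) (b2.trans u2.ge), fun _ _ _ ↦ trivial⟩⟩⟩⟩) (fun _ _ _ _ _
    _ _ y2 a2 b2 y3 a3 b3 ↦ N y2 y3 (l2.ge.trans a2) (b2.trans u2.ge) (l3.ge.trans a3) (b3.trans
    u3.ge))

end Pool.Agent.Lib.MP_d6150d_an.BTR
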