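import Pool.Agent.Lib.MP_d6150d_an.BBd
import Pool.Agent.Lib.MP_d6150d_an.BCR
import Pool.Agent.Lib.MP_d6150d_an.BMR
import Pool.Agent.Lib.MP_d6150d_an.BTR

/-! The strip `B`: the right branch. -/

namespace Pool.Agent.Lib.MP_d6150d_an.BB

open Real Set Filter Topology Asymptotics

variable {f d e t : ℝ}

theorem CR_eq (f d t : ℝ) : outR BCR.prog 0 [f, d, t] = cq f d t (29 * d) ∧
    outR BCR.prog 1 [f, d, t] = cp f d t (29 * d) (1 + 25 * d) ∧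
    outR BCR.prog 2 [f, d, t] = cq f d t (1 + 25 * d) :=
  BCR.eq rfl rfl rfl rfl rfl rfl rfl rfl rfl rfl rfl rfl rfl rfl rfl rfl rfl rfl rfl rfl rfl
    rfl rfl rfl rfl rfl rfl rfl rfl rfl rfl rfl rfl rfl rfl rfl rfl rfl rfl rfl rfl

/-- the data on the right branch -/
def mR (f d q z : ℝ) : Fm := ⟨1, -1, f, d, 1, q, d * (q * q), z, z, z * z⟩

noncomputable def rA (m : Fm) : ℝ := 100 * (1 / 1048576 * (m.z * m.z * m.G))
noncomputable def rB (m : Fm) : ℝ := 2560 * (1 / 1048576 * (m.z * (m.V * m.V * m.V) * m.h3))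
noncomputable def rC (m : Fm) : ℝ := 256 * (1 / 1048576 * (m.V * m.V * m.V * m.V * m.h4))
noncomputable def mM (f d t : ℝ) : Fm := mR f d (exp (-t)) (exp (-2 * (cF f * t)))

theorem MR_eq (f d t : ℝ) :
    outR BMR.prog 0 [f, d, t] = b0 (rA (mM f d t)) (rB (mM f d t)) (rC (mM f d t)) (29 * d) ∧
    outR BMR.prog 1 [f, d, t] =
      b1 (rA (mM f d t)) (rB (mM f d t)) (rC (mM f d t)) (29 * d) (1 + 25 * d) ∧
    outR BMR.prog 2 [f, d, t] = b0 (rA (mM f d t)) (rB (mM f d t)) (rC (mM f d t)) (1 + 25 * d) :=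
  BMR.eq rfl rfl rfl rfl rfl rfl rfl rfl rfl rfl rfl rfl rfl rfl rfl rfl rfl rfl rfl rfl rfl
    rfl rfl rfl rfl rfl rfl rfl rfl rfl rfl

theorem TR_eq (f d n z : ℝ) : outR BTR.prog 0 [f, d, n, z] = (mR f d (z * (z - f * n)) z).G ∧
    outR BTR.prog 1 [f, d, n, z] = (mR f d (z * (z - f * n)) z).h3 ∧
    outR BTR.prog 2 [f, d, n, z] = (mR f d (z * (z - f * n)) z).h4 :=
  BTR.eq rfl rfl rfl rfl rfl rfl rfl rfl rfl rfl rfl rfl rfl rfl rfl rfl rfl rfl rfl rfl rfl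
    rfl rfl rfl

theorem MR_iso (ht : 2 ≤ t) : rA (mM 0 0 t) = 0 ∧ rB (mM 0 0 t) = 0 ∧ rC (mM 0 0 t) = 0 := by
  obtain ⟨h1, h2, h3⟩ : (mM 0 0 t).G = 0 ∧ (mM 0 0 t).h3 = 0 ∧ (mM 0 0 t).h4 = 0 :=
    isoR (exp_pos _).le (exp_le_one_iff.2 (by rw [cF]; linarith))
      (by rw [← exp_add, cF]; congr 1; ring) (zero_mul _) rfl
  simp [rA, rB, rC, h1, h2, h3]

section

variable (f0 : 0 ≤ f) (f1 : f ≤ 41 / 512) (d0 : 0 < d) (d1 : d ≤ 3 / 32)
include f0 f1 d0 d1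

theorem mM_id (h0 : 0 < t) : (mM f d t).V = (mM f d t).z * vR (-d) (cF f) t ∧ 0 < (mM f d t).W ∧
    ∀ e, (mM f d t).T (e * vR (-d) (cF f) t) =
      256 * (mM f d t).z ^ 2 * (mM f d t).W ^ 7 * ZB f d (cF f) e t :=
  (mM f d t).id (μ := exp (-(cF f * t))) f0 f1 d0.le d1 (.inl ⟨rfl, h0⟩) rfl (exp_pos _)
    (by simp only [mM, mR, sq, ← exp_add]; congr 1; ring)
    (by simp only [mM, mR, Fm.F, cF, ← exp_add]; rw [eq_comm, exp_eq_one_iff]; ring)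
    (by simp only [mM, mR, Fm.F, cF, ← exp_add]; congr 1; ring)
    (by simp only [mM, mR, Fm.F, cF, mul_assoc d, ← exp_add]; congr 2; ring)
    (by simp only [mM, mR, Fm.F, cF, ← exp_add]; congr 1; ring) rfl

theorem TR_pos (e0 : 0 < e) (h1 : 8 ≤ t) : 0 < ZB f d (cF f) e t := by
  have h0 : 0 < t := by linarith
  obtain ⟨hV, hW, H⟩ := mM_id f0 f1 d0 d1 h0
  have z0 := exp_pos (-2 * (cF f * t))
  have k1 : exp (-(8 * (2 * cF f))) ≤ 13 / 512 := (exp_le_exp.2 (by rw [cF]; linarith)).trans ebd1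
  have k2 := texp (c := 2 * cF f) (by rw [cF]; linarith) h1
  rw [show -(2 * cF f * t) = -2 * (cF f * t) by ring] at k2
  have p0 := ph1_pos (-f * t)
  have p1 := ph1_le (show -f * t ≤ 0 by nlinarith)
  have hq : exp (-2 * (cF f * t)) * (exp (-2 * (cF f * t)) -
      f * (exp (-2 * (cF f * t)) * (t * ph1 (-f * t)))) = exp (-t) := by
    have k := cexp (-f) t
    have k' : exp (-t) = exp (-2 * (cF f * t)) * exp (-2 * (cF f * t)) * exp (-f * t) := by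
      rw [← exp_add, ← exp_add, cF]; congr 1; ring
    rw [k']
    linear_combination exp (-2 * (cF f * t)) ^ 2 * k
  have n0 : 0 ≤ exp (-2 * (cF f * t)) * (t * ph1 (-f * t)) := by positivity
  have n1 : exp (-2 * (cF f * t)) * (t * ph1 (-f * t)) ≤ 13 / 64 := by
    nlinarith [mul_le_mul_of_nonneg_left p1 (mul_pos h0 z0).le]
  have z1 : exp (-2 * (cF f * t)) ≤ 13 / 512 := by nlinarith
  have V := fun f d n (a : 0 ≤ f) (b : f ≤ 41 / 512) ↦ endR (d := d) (q := 0 * (0 - f * n))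
    (x := d * (0 * (0 - f * n) * (0 * (0 - f * n)))) (s := 0 * 0) a b (by ring) (by ring) (by ring)
  have N := fun n z (a : 0 ≤ z) (b : z ≤ 13 / 512) ↦ isoR (q := z * (z - 0 * n))
    (x := 0 * (z * (z - 0 * n) * (z * (z - 0 * n)))) (s := z * z) a (by linarith) (by ring) (by ring) rfl
  have g0 := BTR.out0 (fun f d n a b _ _ _ _ ↦ (TR_eq ..).1.trans (V f d n a b).1)
    (fun n z _ _ a b ↦ ((TR_eq ..).1.trans (N n z a b).1).ge) f0 f1 d0.le d1 n0 n1 z0.le z1 z0 (.inr d0)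
  have g1 := BTR.out1 (fun f d n a b _ _ _ _ ↦ (TR_eq ..).2.1.trans (V f d n a b).2.1)
    (fun n z _ _ a b ↦ ((TR_eq ..).2.1.trans (N n z a b).2.1).ge) f0 f1 d0.le d1 n0 n1 z0.le z1 z0
    (.inr d0)
  have g2 := BTR.out2 (fun f d n a b _ _ _ _ ↦ (TR_eq ..).2.2.trans (V f d n a b).2.2)
    (fun n z _ _ a b ↦ ((TR_eq ..).2.2.trans (N n z a b).2.2).ge) f0 f1 d0.le d1 n0 n1 z0.le z1 z0
    (.inr d0)
  rw [(TR_eq ..).1, hq] at g0
  rw [(TR_eq ..).2.1, hq] at g1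
  rw [(TR_eq ..).2.2, hq] at g2
  have x0 := mul_pos e0 (vR_pos (F := cF f) (mem_JR d0.le d1 t) h0.ne')
  have h2 : 0 < (mM f d t).T (e * vR (-d) (cF f) t) :=
    add_pos_of_pos_of_nonneg g0 (mul_nonneg (mul_nonneg (by positivity) x0.le)
      (add_pos g1 (mul_pos x0 g2)).le)
  rw [H] at h2
  exact pos_of_mul_pos_right h2 (by positivity)

variable (l : 29 * d ≤ 10 * e) (u : 10 * e ≤ 1 + 25 * d)
include l u

theorem CR_pos (h0 : 0 < t) (h1 : t ≤ 2) : 0 < ZB f d (cF f) e t := by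
  have g0 := BCR.out0
    (fun f d _ _ a b ↦ (bigO_pos (cq_bigO a b _)).congr_left fun t ↦ (CR_eq f d t).1.symm)
    (fun t _ _ ↦ ((CR_eq ..).1.trans (cq_iso ..)).ge) f0 f1 d0.le d1 h0.le h1 h0 (.inr d0)
  have g1 := BCR.out1
    (fun f d _ _ a b ↦ (bigO_pos (cp_bigO a b _ _)).congr_left fun t ↦ (CR_eq f d t).2.1.symm)
    (fun t _ _ ↦ ((CR_eq ..).2.1.trans (cp_iso ..)).ge) f0 f1 d0.le d1 h0.le h1 h0 (.inr d0)
  have g2 := BCR.out2
    (fun f d _ _ a b ↦ (bigO_pos (cq_bigO a b _)).congr_left fun t ↦ (CR_eq f d t).2.2.symm)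
    (fun t _ _ ↦ ((CR_eq ..).2.2.trans (cq_iso ..)).ge) f0 f1 d0.le d1 h0.le h1 h0 (.inr d0)
  have h : 0 < cq f d t (10 * e) := bernP (g0.trans_eq (CR_eq ..).1) (g1.trans_eq (CR_eq ..).2.1)
    (g2.trans_eq (CR_eq ..).2.2) l u
  have := cW_pos (f := f) d0.le d1 h0.ne'
  rw [cen_id d0.le d1 h0.ne', mul_div_cancel_left₀ e (by norm_num)] at h
  exact pos_of_mul_pos_right h (by positivity)

theorem MR_pos (h1 : 2 ≤ t) (h2 : t ≤ 8) : 0 < ZB f d (cF f) e t := by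
  have h0 : 0 < t := by linarith
  obtain ⟨hV, hW, H⟩ := mM_id f0 f1 d0 d1 h0
  have g0 := BMR.out0 (fun t a _ ↦ by simp [(MR_eq ..).1, MR_iso a, b0]) f0 f1 d0.le d1 h1 h2 (.inr d0)
  have g1 := BMR.out1 (fun t a _ ↦ by simp [(MR_eq ..).2.1, MR_iso a, b1]) f0 f1 d0.le d1 h1 h2
    (.inr d0)
  have g2 := BMR.out2 (fun t a _ ↦ by simp [(MR_eq ..).2.2, MR_iso a, b0]) f0 f1 d0.le d1 h1 h2
    (.inr d0)
  have h := bernP (g0.trans_eq (MR_eq ..).1) (g1.trans_eq (MR_eq ..).2.1)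
    (g2.trans_eq (MR_eq ..).2.2) l u
  have k := H e
  have h3 : b0 (rA (mM f d t)) (rB (mM f d t)) (rC (mM f d t)) (10 * e) =
      25 / 1024 * (mM f d t).z ^ 4 * (mM f d t).W ^ 7 * ZB f d (cF f) e t := by
    simp only [b0, rA, rB, rC, Fm.T, hV] at k ⊢
    linear_combination 100 / 1048576 * (mM f d t).z ^ 2 * k
  rw [h3] at h
  exact pos_of_mul_pos_right h (by positivity)

theorem right_pos (h0 : 0 < t) : 0 < ZB f d (cF f) e t := by
  rcases le_total t 2 with h | h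
  · exact CR_pos f0 f1 d0 d1 l u h0 h
  rcases le_total t 8 with k | k
  · exact MR_pos f0 f1 d0 d1 l u h k
  · exact TR_pos f0 f1 d0 d1 (by linarith) k

end

end Pool.Agent.Lib.MP_d6150d_an.BB
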