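import Pool.Agent.Lib.MP_d6150d_an.GDef

/-! A generated chart: the program. -/

namespace Pool.Agent.Lib.MP_d6150d_an.BTL

def prog9 : List Ins := .sub true 267 0 :: .mul 300 0 :: .add true 7 0 :: .mul 452 0 :: .smul 40000
    0 :: .mul 6 86 :: .sub true 105 0 :: .mul 131 0 :: .mul 457 0 :: .smul 51200 0 :: .mul 11 50 ::
    .sub true 61 0 :: .mul 87 0 :: .mul 462 0 :: .smul 256 0 :: .mul 140 0 :: .add true 6 0 :: .mul
    142 0 :: .add false 13 0 :: .smul (-1) 0 :: .smul 2 15 :: .mul 47 11 :: .add false 1 0 :: .mul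
    50 8 :: .mul 149 0 :: .smul 2 0 :: .add false 3 0 :: .smul (-1) 0 :: .add true 18 4 :: .mul 56 0
    :: .add false 25 0 :: .smul (-1) 0 :: .cpy 0 :: .cpy 5 :: .cpy 14 :: .cpy 50 :: .cpy 55 :: .cpy
    67 :: []

def prog8 : List Ins := .int (-8985) :: .smul (-3150) 382 :: .add false 1 0 :: .sub true 399 169 ::
    .mul 0 0 :: .mul 2 0 :: .smul 6210 401 :: .smul (-11700) 388 :: .add false 1 0 :: .add true 3 0
    :: .mul 222 0 :: .sub true 11 0 :: .mul 37 0 :: .mul 412 0 :: .smul 256 0 :: .mul 90 0 :: .add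
    true 42 0 :: .mul 92 0 :: .add false 98 0 :: .smul (-1) 0 :: .smul 2 100 :: .mul 99 98 :: .smul
    53 0 :: .add false 98 0 :: .mul 0 50 :: .add false 4 0 :: .mul 3 11 :: .mul 102 0 :: .smul 2 0
    :: .add false 3 0 :: .smul (-1) 0 :: .add true 57 4 :: .mul 9 0 :: .add false 113 0 :: .smul
    (-1) 0 :: .cst 19 256 :: .mul 0 431 :: .sub true 435 0 :: .mul 0 322 :: .mul 0 295 :: .smul (-1)
    0 :: .mul 299 0 :: .mul 304 0 :: .add false 306 0 :: .smul 256 0 :: .mul 7 271 :: .mul 0 261 ::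
    .smul 64 0 :: .mul 0 310 :: .mul 0 135 :: prog9

def prog7 : List Ins := .sub false 4 0 :: .int 39681 :: .smul (-349950) 333 :: .add false 1 0 ::
    .sub false 0 5 :: .int 26964 :: .smul 1018950 337 :: .add false 1 0 :: .smul 16400 353 :: .smul
    17900 340 :: .add false 1 0 :: .add false 3 0 :: .int (-66645) :: .smul (-669000) 344 :: .add
    false 1 0 :: .mul 131 0 :: .add true 4 0 :: .mul 133 0 :: .add true 13 0 :: .mul 181 0 :: .sub
    true 19 0 :: .mul 45 0 :: .mul 371 0 :: .smul 51200 0 :: .mul 48 258 :: .smul 9584 279 :: .smul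
    95840 276 :: .add false 1 0 :: .smul 215640 273 :: .add false 1 0 :: .smul 71880 257 :: .add
    false 1 0 :: .smul (-8985) 244 :: .add false 1 0 :: .smul 3360 288 :: .smul 33600 285 :: .add
    false 1 0 :: .smul 75600 282 :: .add false 1 0 :: .smul 25200 266 :: .add false 1 0 :: .smul
    (-3150) 253 :: .add true 1 0 :: .mul 374 0 :: .add false 10 0 :: .smul (-696) 390 :: .smul
    (-193) 377 :: .add false 1 0 :: .mul 221 0 :: .sub false 4 0 :: prog8

def prog6 : List Ins := .smul 256 120 :: .sub false 1 0 :: .int (-4121640) :: .smul (-738108000) 284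
    :: .add false 1 0 :: .smul 211000 300 :: .smul (-656000) 287 :: .add false 1 0 :: .smul 256 0 ::
    .add true 4 0 :: .mul 76 0 :: .add true 9 0 :: .mul 78 0 :: .add true 82 0 :: .mul 126 0 :: .sub
    true 132 0 :: .mul 165 0 :: .add true 167 0 :: .mul 317 0 :: .smul 40000 0 :: .smul 16 306 ::
    .add false 0 317 :: .rsq 0 :: .mul 309 0 :: .smul 744 0 :: .mul 174 209 :: .smul 71088 230 ::
    .smul 427344 227 :: .add false 1 0 :: .smul 323568 224 :: .add false 1 0 :: .smul (-104796) 208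
    :: .add false 1 0 :: .smul 39681 195 :: .add false 1 0 :: .smul 713600 239 :: .smul 6285200 236
    :: .add false 1 0 :: .smul 12227400 233 :: .add false 1 0 :: .smul 3437700 217 :: .add false 1 0
    :: .smul (-349950) 204 :: .add true 1 0 :: .mul 325 0 :: .add false 10 0 :: .smul (-15200) 341
    :: .smul (-7760) 328 :: .add false 1 0 :: .mul 172 0 :: prog7

def prog5 : List Ins := .int (-296) :: .smul (-802) 232 :: .add false 1 0 :: .smul (-1596) 57 ::
    .add false 1 0 :: .smul 49280 56 :: .add false 1 0 :: .smul (-156800) 12 :: .add false 1 0 ::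
    .int 4441 :: .smul 11886 241 :: .add false 1 0 :: .smul 10416 66 :: .add false 1 0 :: .smul
    180320 65 :: .add false 1 0 :: .int (-17893) :: .smul (-45478) 248 :: .add false 1 0 :: .smul
    (-123760) 73 :: .add false 1 0 :: .int 26927 :: .smul 53854 253 :: .add false 1 0 :: .smul
    (-13171) 267 :: .add true 1 0 :: .mul 269 0 :: .add true 6 0 :: .mul 271 0 :: .add true 13 0 ::
    .mul 273 0 :: .add true 22 0 :: .mul 275 0 :: .add true 33 0 :: .mul 47 0 :: .int 263844000 ::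
    .smul 13106772000 267 :: .add false 1 0 :: .mul 0 73 :: .add false 4 0 :: .int (-490636440) ::
    .smul 21555072000 272 :: .add false 1 0 :: .mul 0 72 :: .add true 4 0 :: .mul 105 0 :: .smul 32
    0 :: .smul 3 68 :: .add false 1 0 :: .smul 128 0 :: prog6

def prog4 : List Ins := .add false 2 0 :: .int (-57) :: .smul (-102) 183 :: .add false 1 0 :: .smul
    (-480) 8 :: .add false 1 0 :: .int 156 :: .smul 312 188 :: .add false 1 0 :: .smul (-103) 202 ::
    .add true 1 0 :: .mul 204 0 :: .add true 6 0 :: .mul 206 0 :: .add true 13 0 :: .mul 22 0 ::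
    .int 41508000 :: .smul (-2952396000) 198 :: .add false 1 0 :: .sub false 215 212 :: .add true 0
    193 :: .mul 2 0 :: .add false 6 0 :: .mul 33 0 :: .smul 126 0 :: .int (-82621) :: .smul 1703200
    207 :: .add false 1 0 :: .add false 3 0 :: .sub false 0 49 :: .smul 256 0 :: .mul 229 46 ::
    .smul 16 0 :: .sub false 229 0 :: .int 125496000 :: .smul (-1337760000) 216 :: .add false 1 0 ::
    .int (-8) :: .smul (-20) 219 :: .add false 1 0 :: .smul 28 44 :: .add false 1 0 :: .smul 4760 43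
    :: .add false 1 0 :: .mul 48 48 :: .smul (-44800) 0 :: .add false 2 0 :: .mul 2 228 :: .smul
    62720 0 :: .add false 2 0 :: prog5

def prog3 : List Ins := .mul 34 34 :: .smul 53136 55 :: .smul (-93648) 52 :: .add false 1 0 :: .smul
    (-548240) 49 :: .add false 1 0 :: .smul 60988 33 :: .add false 1 0 :: .smul (-82621) 20 :: .add
    false 1 0 :: .smul 4470400 64 :: .smul 30432000 61 :: .add false 1 0 :: .smul 34191200 58 ::
    .add false 1 0 :: .smul (-752800) 42 :: .add false 1 0 :: .smul 1703200 29 :: .add true 1 0 ::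
    .mul 150 0 :: .add false 10 0 :: .smul 16 169 :: .add false 0 56 :: .rsq 0 :: .mul 170 0 ::
    .smul 4 0 :: .mul 0 38 :: .smul (-102000) 172 :: .smul (-4820) 159 :: .add false 1 0 :: .mul 3 0
    :: .sub false 10 0 :: .smul 256 0 :: .mul 181 9 :: .mul 10 10 :: .mul 1 0 :: .smul 64 0 :: .mul
    0 49 :: .cst 1 136080 :: .mul 0 182 :: .int (-13944000) :: .smul 148640000 172 :: .add false 1 0
    :: .smul 6 174 :: .add false 137 0 :: .mul 176 176 :: .smul (-60) 0 :: .add false 2 0 :: .mul 2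
    179 :: .smul 320 0 :: prog4

def prog2 : List Ins := .smul 27888000 0 :: .add false 4 0 :: .mul 58 37 :: .mul 4 4 :: .mul 1 0 ::
    .smul (-6972000) 0 :: .add false 4 0 :: .smul (-297280000) 11 :: .smul (-297280000) 8 :: .add
    false 1 0 :: .smul 74320000 5 :: .add true 1 0 :: .mul 93 0 :: .add true 6 0 :: .mul 112 0 ::
    .smul 2 74 :: .smul 2318400 20 :: .smul 6032800 17 :: .add false 1 0 :: .smul 816400 14 :: .add
    false 1 0 :: .mul 17 22 :: .mul 79 0 :: .smul 230600 0 :: .add false 3 0 :: .smul 3739200 29 ::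
    .smul 76826400 26 :: .add false 1 0 :: .smul 68413200 23 :: .add false 1 0 :: .smul (-16402200)
    7 :: .add true 1 0 :: .mul 113 0 :: .add true 8 0 :: .mul 18 0 :: .add false 20 0 :: .mul 134 0
    :: .mul 15 84 :: .int 13944000 :: .smul (-148640000) 120 :: .add false 1 0 :: .mul 0 134 :: .mul
    140 26 :: .rsq 27 :: .mul 1 0 :: .smul (-1) 0 :: .mul 4 0 :: .mul 9 0 :: .add false 11 0 ::
    .smul 256 0 :: prog3

def prog1 : List Ins := .sub false 2 0 :: .smul 1 37 :: .add false 1 0 :: .int 6 :: .smul 5 47 ::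
    .sub true 1 0 :: .int 4 :: .smul 3 50 :: .sub true 1 0 :: .int 2 :: .sub true 0 53 :: .mul 0 8
    :: .smul 2 14 :: .sub false 0 13 :: .sub true 2 0 :: .mul 6 0 :: .mul 5 2 :: .smul 4 19 :: .sub
    false 0 18 :: .sub true 2 0 :: .add false 4 0 :: .mul 18 0 :: .mul 8 7 :: .smul 3 0 :: .sub true
    2 0 :: .mul 19 0 :: .smul 3 6 :: .sub true 6 0 :: .mul 14 0 :: .mul 20 9 :: .mul 19 11 :: .smul
    8 33 :: .sub false 0 32 :: .sub false 2 0 :: .add true 4 0 :: .mul 32 0 :: .add false 7 0 ::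
    .mul 18 22 :: .smul 3 0 :: .sub false 2 0 :: .add true 14 0 :: .mul 38 0 :: .mul 28 17 :: .smul
    5 0 :: .sub true 2 0 :: .mul 49 0 :: .smul 27888000 0 :: .mul 52 22 :: .mul 45 45 :: .mul 1 0 ::
    prog2

def prog : List Ins := .cst 1 1099511627776 :: .var 2 :: .cst 1 4 :: .int 1 :: .var 0 :: .sub false
    1 0 :: .mul 3 0 :: .mul 2 2 :: .sub false 4 0 :: .int 3 :: .add false 0 5 :: .mul 2 0 :: .inv 0
    :: .var 3 :: .var 1 :: .mul 10 0 :: .add false 14 0 :: .mul 15 0 :: .mul 4 0 :: .sub false 15 0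
    :: .smul 4 15 :: .add false 11 0 :: .add false 0 14 :: .mul 3 0 :: .sub false 6 22 :: .mul 1 0
    :: .smul 2 7 :: .sub false 23 0 :: .smul 2 23 :: .sub false 19 0 :: .sub false 0 22 :: .mul 3 0
    :: .sub false 28 30 :: .mul 1 0 :: .add false 8 0 :: .mul 16 33 :: .sub false 22 0 :: .mul 28 0
    :: .add false 3 0 :: .mul 26 0 :: .smul 2 0 :: .smul (-1) 0 :: .mul 35 0 :: .mul 0 1 :: .mul 0 2
    :: .mul 0 3 :: .mul 26 28 :: .smul (-1) 0 :: .mul 20 44 :: .smul (-1) 0 :: prog1

def vs : List Vr := [⟨2, 0, false, true⟩, ⟨1, 0, false, false⟩, ⟨2, 0, false, false⟩, ⟨4, 0, false,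
    true⟩]

def C : Chart := ⟨vs, prog, [], 6, 3⟩

end Pool.Agent.Lib.MP_d6150d_an.BTL
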