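import Pool.Agent.Lib.MP_d6150d_an.GDef

/-! A generated chart: the program. -/

namespace Pool.Agent.Lib.MP_d6150d_an.BTR

def prog8 : List Ins := .sub false 11 0 :: .cpy 0 :: .cpy 38 :: .cpy 84 :: []

def prog7 : List Ins := .add false 1 0 :: .smul 16400 347 :: .smul 17900 339 :: .add false 1 0 ::
    .add false 3 0 :: .int (-66645) :: .smul (-669000) 343 :: .add false 1 0 :: .mul 123 0 :: .add
    true 4 0 :: .mul 125 0 :: .add true 13 0 :: .mul 173 0 :: .sub false 19 0 :: .smul 9584 268 ::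
    .smul 95840 265 :: .add false 1 0 :: .smul 215640 262 :: .add false 1 0 :: .smul 71880 246 ::
    .add false 1 0 :: .smul (-8985) 233 :: .add false 1 0 :: .smul 3360 277 :: .smul 33600 274 ::
    .add false 1 0 :: .smul 75600 271 :: .add false 1 0 :: .smul 25200 255 :: .add false 1 0 ::
    .smul (-3150) 242 :: .add true 1 0 :: .mul 369 0 :: .add false 10 0 :: .smul (-696) 380 :: .smul
    (-193) 372 :: .add false 1 0 :: .mul 209 0 :: .sub false 4 0 :: .int (-8985) :: .smul (-3150)
    377 :: .add false 1 0 :: .sub true 389 157 :: .mul 0 0 :: .mul 2 0 :: .smul 6210 391 :: .smul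
    (-11700) 383 :: .add false 1 0 :: .add true 3 0 :: .mul 210 0 :: prog8

def prog6 : List Ins := .smul 128 0 :: .smul 256 120 :: .sub false 1 0 :: .int (-4121640) :: .smul
    (-738108000) 291 :: .add false 1 0 :: .smul 211000 302 :: .smul (-656000) 294 :: .add false 1 0
    :: .smul 256 0 :: .add true 4 0 :: .mul 76 0 :: .add true 9 0 :: .mul 78 0 :: .add true 82 0 ::
    .mul 126 0 :: .sub true 132 0 :: .mul 165 0 :: .add false 167 0 :: .smul 71088 223 :: .smul
    427344 220 :: .add false 1 0 :: .smul 323568 217 :: .add false 1 0 :: .smul (-104796) 201 ::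
    .add false 1 0 :: .smul 39681 188 :: .add false 1 0 :: .smul 713600 232 :: .smul 6285200 229 ::
    .add false 1 0 :: .smul 12227400 226 :: .add false 1 0 :: .smul 3437700 210 :: .add false 1 0 ::
    .smul (-349950) 197 :: .add true 1 0 :: .mul 324 0 :: .add false 10 0 :: .smul (-15200) 335 ::
    .smul (-7760) 327 :: .add false 1 0 :: .mul 164 0 :: .sub false 4 0 :: .int 39681 :: .smul
    (-349950) 332 :: .add false 1 0 :: .sub false 0 5 :: .int 26964 :: .smul 1018950 336 :: prog7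

def prog5 : List Ins := .add false 2 0 :: .int (-296) :: .smul (-802) 239 :: .add false 1 0 :: .smul
    (-1596) 57 :: .add false 1 0 :: .smul 49280 56 :: .add false 1 0 :: .smul (-156800) 12 :: .add
    false 1 0 :: .int 4441 :: .smul 11886 248 :: .add false 1 0 :: .smul 10416 66 :: .add false 1 0
    :: .smul 180320 65 :: .add false 1 0 :: .int (-17893) :: .smul (-45478) 255 :: .add false 1 0 ::
    .smul (-123760) 73 :: .add false 1 0 :: .int 26927 :: .smul 53854 260 :: .add false 1 0 :: .smul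
    (-13171) 269 :: .add true 1 0 :: .mul 271 0 :: .add true 6 0 :: .mul 273 0 :: .add true 13 0 ::
    .mul 275 0 :: .add true 22 0 :: .mul 277 0 :: .add true 33 0 :: .mul 47 0 :: .int 263844000 ::
    .smul 13106772000 274 :: .add false 1 0 :: .mul 0 73 :: .add false 4 0 :: .int (-490636440) ::
    .smul 21555072000 279 :: .add true 1 0 :: .mul 0 72 :: .add true 4 0 :: .mul 105 0 :: .smul 32 0
    :: .smul 3 68 :: .add false 1 0 :: prog6

def prog4 : List Ins := .smul 320 0 :: .add false 2 0 :: .int (-57) :: .smul (-102) 190 :: .add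
    false 1 0 :: .smul (-480) 8 :: .add false 1 0 :: .int 156 :: .smul 312 195 :: .add false 1 0 ::
    .smul (-103) 204 :: .add true 1 0 :: .mul 206 0 :: .add true 6 0 :: .mul 208 0 :: .add true 13 0
    :: .mul 22 0 :: .int 41508000 :: .smul (-2952396000) 205 :: .add true 1 0 :: .sub false 217 214
    :: .add true 0 200 :: .mul 2 0 :: .add true 6 0 :: .mul 33 0 :: .smul 126 0 :: .int (-82621) ::
    .smul 1703200 214 :: .add false 1 0 :: .add false 3 0 :: .sub false 0 49 :: .smul 256 0 :: .mul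
    231 46 :: .smul 16 0 :: .sub false 231 0 :: .int 125496000 :: .smul (-1337760000) 223 :: .add
    true 1 0 :: .int (-8) :: .smul (-20) 226 :: .add false 1 0 :: .smul 28 44 :: .add false 1 0 ::
    .smul 4760 43 :: .add false 1 0 :: .mul 48 48 :: .smul (-44800) 0 :: .add false 2 0 :: .mul 2
    235 :: .smul 62720 0 :: prog5

def prog3 : List Ins := .smul 256 0 :: .mul 35 35 :: .smul 53136 56 :: .smul (-93648) 53 :: .add
    false 1 0 :: .smul (-548240) 50 :: .add false 1 0 :: .smul 60988 34 :: .add false 1 0 :: .smul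
    (-82621) 21 :: .add false 1 0 :: .smul 4470400 65 :: .smul 30432000 62 :: .add false 1 0 ::
    .smul 34191200 59 :: .add false 1 0 :: .smul (-752800) 43 :: .add false 1 0 :: .smul 1703200 30
    :: .add true 1 0 :: .mul 157 0 :: .add false 10 0 :: .smul 16 171 :: .add false 0 57 :: .rsq 0
    :: .mul 174 0 :: .smul 4 0 :: .mul 0 39 :: .smul (-102000) 174 :: .smul (-4820) 166 :: .add
    false 1 0 :: .mul 3 0 :: .sub false 10 0 :: .smul 256 0 :: .mul 41 9 :: .mul 10 10 :: .mul 1 0
    :: .smul 64 0 :: .mul 0 50 :: .cst 1 136080 :: .mul 0 184 :: .int (-13944000) :: .smul 148640000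
    179 :: .add true 1 0 :: .smul 6 181 :: .add false 138 0 :: .mul 183 183 :: .smul (-60) 0 :: .add
    false 2 0 :: .mul 2 186 :: prog4

def prog2 : List Ins := .smul 27888000 0 :: .add false 4 0 :: .mul 58 37 :: .mul 4 4 :: .mul 1 0 ::
    .smul (-6972000) 0 :: .add false 4 0 :: .smul (-297280000) 11 :: .smul (-297280000) 8 :: .add
    false 1 0 :: .smul 74320000 5 :: .add true 1 0 :: .mul 99 0 :: .add true 6 0 :: .mul 113 0 ::
    .smul 2 74 :: .smul 2318400 20 :: .smul 6032800 17 :: .add false 1 0 :: .smul 816400 14 :: .add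
    false 1 0 :: .mul 17 22 :: .mul 79 0 :: .smul 230600 0 :: .add false 3 0 :: .smul 3739200 29 ::
    .smul 76826400 26 :: .add false 1 0 :: .smul 68413200 23 :: .add false 1 0 :: .smul (-16402200)
    7 :: .add true 1 0 :: .mul 119 0 :: .add true 8 0 :: .mul 18 0 :: .add true 20 0 :: .mul 135 0
    :: .mul 15 84 :: .int 13944000 :: .smul (-148640000) 126 :: .add true 1 0 :: .mul 0 135 :: .mul
    141 141 :: .mul 0 27 :: .rsq 28 :: .mul 1 0 :: .smul 1 0 :: .mul 5 0 :: .mul 10 0 :: .add false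
    12 0 :: prog3

def prog1 : List Ins := .sub false 2 0 :: .smul (-1) 16 :: .add false 1 0 :: .int 6 :: .smul 5 48 ::
    .sub true 1 0 :: .int 4 :: .smul 3 51 :: .sub true 1 0 :: .int 2 :: .sub true 0 54 :: .mul 0 8
    :: .smul 2 14 :: .sub false 0 13 :: .sub true 2 0 :: .mul 6 0 :: .mul 5 2 :: .smul 4 19 :: .sub
    false 0 18 :: .sub true 2 0 :: .add false 4 0 :: .mul 18 0 :: .mul 8 7 :: .smul 3 0 :: .sub true
    2 0 :: .mul 19 0 :: .smul 3 6 :: .sub true 6 0 :: .mul 14 0 :: .mul 20 9 :: .mul 19 11 :: .smul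
    8 33 :: .sub false 0 32 :: .sub false 2 0 :: .add true 4 0 :: .mul 32 0 :: .add false 7 0 ::
    .mul 18 22 :: .smul 3 0 :: .sub false 2 0 :: .add true 14 0 :: .mul 38 0 :: .mul 28 17 :: .smul
    5 0 :: .sub true 2 0 :: .mul 49 0 :: .smul 27888000 0 :: .mul 52 22 :: .mul 45 45 :: .mul 1 0 ::
    prog2

def prog : List Ins := .var 3 :: .cst 1 4 :: .int 1 :: .var 0 :: .sub false 1 0 :: .mul 3 0 :: .mul
    2 2 :: .sub false 4 0 :: .int 3 :: .add false 0 5 :: .mul 2 0 :: .inv 0 :: .var 1 :: .sub false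
    10 0 :: .smul 4 10 :: .add false 6 0 :: .add false 0 9 :: .mul 3 0 :: .sub false 15 17 :: .mul 1
    0 :: .smul 2 7 :: .sub true 18 0 :: .smul 2 18 :: .sub false 14 0 :: .sub false 0 17 :: .mul 3 0
    :: .var 2 :: .mul 23 0 :: .sub true 27 0 :: .mul 28 0 :: .sub false 0 29 :: .mul 5 0 :: .add
    false 12 0 :: .mul 3 3 :: .mul 21 0 :: .mul 22 34 :: .sub false 1 0 :: .mul 29 0 :: .add false 5
    0 :: .mul 27 0 :: .smul 2 0 :: .smul 1 0 :: .mul 36 0 :: .mul 0 1 :: .mul 0 2 :: .mul 0 3 ::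
    .mul 32 43 :: .smul 1 0 :: .mul 26 18 :: .smul 1 0 :: prog1

def vs : List Vr := [⟨3, 0, false, true⟩, ⟨3, 0, false, true⟩, ⟨1, 0, false, false⟩, ⟨3, 1, false,
    false⟩]

def C : Chart := ⟨vs, prog, [], 3, 3⟩

end Pool.Agent.Lib.MP_d6150d_an.BTR
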