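import Pool.Agent.Lib.MP_d6150d_an.GDef

/-! A generated chart: the program. -/

namespace Pool.Agent.Lib.MP_d6150d_an.BW

def prog1 : List Ins := .mul 3 0 :: .add false 7 0 :: .int 137500 :: .smul (-1875000) 48 :: .add
    false 1 0 :: .add false 3 0 :: .smul 8 0 :: .add true 23 0 :: .mul 55 0 :: .smul 64 57 :: .int
    4443 :: .smul 44600 56 :: .add false 1 0 :: .add true 20 13 :: .mul 1 0 :: .int (-17670) ::
    .smul 72050 61 :: .add true 1 0 :: .add true 18 67 :: .mul 1 0 :: .add true 5 0 :: .mul 11 0 ::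
    .add true 13 0 :: .mul 70 0 :: .smul 512 33 :: .int 599 :: .smul 210 71 :: .add false 1 0 ::
    .smul 4 28 :: .add false 36 0 :: .int 3 :: .add true 1 0 :: .mul 4 0 :: .mul 8 0 :: .add false
    10 0 :: .smul (-1) 0 :: .cpy 0 :: []

def prog : List Ins := .int 1 :: .var 2 :: .sub true 1 0 :: .cst 29 10 :: .var 0 :: .mul 1 0 :: .var
    1 :: .cst 1 20 :: .cst 21 10 :: .mul 0 4 :: .add false 2 0 :: .mul 4 0 :: .add false 6 0 :: .mul
    0 10 :: .int 1743000 :: .smul (-18580000) 10 :: .add true 1 0 :: .smul 6 0 :: .mul 0 5 :: .mul 0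
    16 :: .int 144900 :: .smul 233700 16 :: .add false 1 0 :: .smul 48 21 :: .int 36 :: .sub true 1
    0 :: .mul 3 0 :: .add false 7 0 :: .int (-550000) :: .smul 7500000 24 :: .add false 1 0 :: .smul
    6 0 :: .sub true 4 0 :: .mul 19 0 :: .int 3321 :: .smul 279400 30 :: .add false 1 0 :: .int 16
    :: .smul 60 36 :: .sub false 1 0 :: .mul 38 38 :: .smul 48 0 :: .add true 2 0 :: .mul 6 0 ::
    .int (-58200) :: .smul (-107600) 40 :: .add false 1 0 :: .int 4 :: .smul 6 46 :: .sub true 1 0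
    :: prog1

def vs : List Vr := [⟨2, 0, false, false⟩, ⟨2, 0, false, false⟩, ⟨4, 0, false, false⟩]

def C : Chart := ⟨vs, prog, [], 1, 3⟩

end Pool.Agent.Lib.MP_d6150d_an.BW
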