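import Pool.Agent.Lib.MP_d6150d_an.GDef

/-! A generated chart: the program. -/

namespace Pool.Agent.Lib.MP_d6150d_an.BcA

def prog4 : List Ins := .add false 1 0 :: .smul 160 179 :: .sub false 1 0 :: .mul 181 0 :: .sub true
    6 0 :: .mul 183 0 :: .add true 13 0 :: .mul 20 0 :: .mul 58 58 :: .mul 147 0 :: .mul 2 0 :: .sub
    false 26 0 :: .cst 1 40 :: .smul 7 200 :: .mul 1 0 :: .mul 56 56 :: .mul 1 0 :: .sub true 5 0 ::
    .mul 64 0 :: .sub true 42 0 :: .mul 158 0 :: .smul 16 213 :: .mul 0 183 :: .sub false 136 214 ::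
    .sub false 137 222 :: .mul 1 0 :: .add false 154 139 :: .int 4 :: .sub false 1 0 :: .mul 157 0
    :: .add false 4 0 :: .sub true 0 126 :: .mul 160 0 :: .mul 10 0 :: .sub true 13 0 :: .mul 227 0
    :: .mul 198 0 :: .sub false 73 0 :: .cpy 0 :: []

def prog3 : List Ins := .mul 143 0 :: .mul 0 0 :: .mul 0 1 :: .mul 12 0 :: .smul 3 0 :: .mul 0 116
    :: .mul 0 4 :: .mul 118 5 :: .sub true 149 0 :: .smul 5 0 :: .sub true 86 0 :: .mul 4 0 :: .sub
    true 28 0 :: .mul 99 0 :: .cst 77 100 :: .smul 364 143 :: .cst 29 100 :: .sub false 1 0 :: .cst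
    1 5 :: .mul 0 155 :: .sub false 2 0 :: .add true 6 0 :: .mul 0 83 :: .mul 101 84 :: .add true 0
    66 :: .mul 10 0 :: .add false 3 0 :: .smul 16 30 :: .smul 3 19 :: .add false 170 0 :: .mul 2 0
    :: .sub true 172 2 :: .mul 17 0 :: .add false 2 0 :: .add false 0 13 :: .cst 16 45 :: .mul 0 159
    :: .smul 4 160 :: .sub true 179 0 :: .mul 0 45 :: .smul 11 163 :: .sub true 141 0 :: .mul 2 0 ::
    .smul 21 166 :: .sub false 192 0 :: .mul 168 168 :: .smul 126 0 :: .add false 2 0 :: .int 30 ::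
    .smul 210 172 :: prog4

def prog2 : List Ins := .mul 22 0 :: .smul (-1) 0 :: .mul 30 0 :: .mul 4 0 :: .add true 6 0 :: .mul
    18 18 :: .sub true 1 0 :: .mul 35 0 :: .add true 18 0 :: .mul 36 0 :: .mul 22 21 :: .add false 1
    0 :: .add true 37 25 :: .mul 0 5 :: .add false 2 0 :: .smul 2 24 :: .sub false 19 0 :: .mul 12 0
    :: .add false 68 90 :: .mul 28 31 :: .mul 1 0 :: .sub false 3 0 :: .add false 35 25 :: .mul 95
    51 :: .sub true 1 0 :: .mul 21 0 :: .add false 4 0 :: .smul 2 39 :: .add true 0 23 :: .mul 42 0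
    :: .smul 2 0 :: .add true 4 0 :: .mul 60 0 :: .add false 18 0 :: .add false 99 100 :: .mul 0 131
    :: .smul (-1) 0 :: .exp 0 :: .smul 2 127 :: .sub true 0 119 :: .mul 2 0 :: .mul 133 102 :: .cst
    1 3 :: .sub true 134 116 :: .add false 0 102 :: .mul 118 0 :: .mul 3 0 :: .mul 0 85 :: .add
    false 6 0 :: .rsq 0 :: prog3

def prog1 : List Ins := .smul 2 23 :: .sub true 1 0 :: .inv 0 :: .mul 4 0 :: .sub false 6 0 :: .mul
    47 0 :: .int 6 :: .exp 0 :: .mul 48 0 :: .mul 0 6 :: .add false 4 0 :: .smul 2 0 :: .mul 0 0 ::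
    .mul 62 0 :: .mul 37 2 :: .sub false 56 32 :: .mul 58 43 :: .add false 0 8 :: .mul 2 0 :: .inv 0
    :: .mul 5 0 :: .smul (-1) 0 :: .add true 0 70 :: .sub false 45 64 :: .add true 2 0 :: .mul 3 3
    :: .sub false 67 0 :: .mul 7 7 :: .smul 2 9 :: .add false 10 14 :: .mul 1 0 :: .mul 73 38 ::
    .smul 2 23 :: .add false 1 0 :: .mul 22 0 :: .sub true 4 0 :: .mul 8 0 :: .mul 15 0 :: .sub true
    11 0 :: .mul 14 0 :: .mul 12 5 :: .mul 58 83 :: .mul 0 69 :: .add false 34 0 :: .mul 32 0 ::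
    .mul 17 0 :: .sub true 9 0 :: .mul 6 0 :: .smul 2 70 :: .mul 37 40 :: prog2

def prog : List Ins := .cst 1 460 :: .int 3 :: .cst 1 2 :: .var 3 :: .mul 1 0 :: .sub true 3 0 ::
    .exp 0 :: .mul 0 0 :: .int 1 :: .cst 1 512 :: .var 2 :: .cst 1 25 :: .var 0 :: .smul 2 0 :: .mul
    2 0 :: .var 1 :: .mul 1 0 :: .sub true 8 6 :: .mul 1 0 :: .add false 8 0 :: .mul 0 0 :: .mul 11
    0 :: .sub false 13 0 :: .cst 1 4 :: .cst 1 50 :: .mul 0 12 :: .sub false 2 0 :: .inv 0 :: .mul 5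
    0 :: .mul 26 0 :: .smul (-1) 26 :: .exp 0 :: .mul 0 11 :: .mul 21 20 :: .add false 31 0 :: .mul
    0 31 :: .smul (-1) 0 :: .exp 0 :: .mul 0 27 :: .sub true 6 0 :: .mul 10 0 :: .smul 2 19 :: .sub
    false 33 0 :: .inv 8 :: .mul 1 0 :: .sub false 36 6 :: .mul 1 0 :: .add false 6 0 :: .mul 26 9
    :: .int 2 :: prog1

def vs : List Vr := [⟨2, 0, false, false⟩, ⟨1, 0, false, false⟩, ⟨2, 0, false, false⟩, ⟨5, 0, false,
    false⟩]

def C : Chart := ⟨vs, prog, [], 1, 3⟩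

end Pool.Agent.Lib.MP_d6150d_an.BcA
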