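import Pool.Agent.Lib.MP_d6150d_an.GDef

/-! A generated chart: the program. -/

namespace Pool.Agent.Lib.MP_d6150d_an.BcB

def prog4 : List Ins := .smul 7 188 :: .mul 1 0 :: .mul 58 58 :: .mul 1 0 :: .sub true 5 0 :: .mul
    66 0 :: .sub true 42 0 :: .mul 155 0 :: .smul 16 205 :: .mul 0 180 :: .sub false 132 205 :: .sub
    false 133 148 :: .mul 1 0 :: .add false 151 135 :: .int 4 :: .sub false 1 0 :: .mul 154 0 ::
    .add false 4 0 :: .sub false 0 122 :: .mul 157 0 :: .mul 10 0 :: .sub false 13 0 :: .mul 219 0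
    :: .mul 73 0 :: .sub false 75 0 :: .cpy 0 :: .cpy 77 :: []

def prog3 : List Ins := .cst 77 100 :: .smul 364 143 :: .cst 29 100 :: .sub false 1 0 :: .cst 1 5 ::
    .smul 2 143 :: .mul 1 0 :: .sub false 3 0 :: .add true 7 0 :: .mul 0 79 :: .mul 98 80 :: .add
    true 0 62 :: .mul 11 0 :: .add false 3 0 :: .smul 16 32 :: .smul 3 21 :: .add false 161 0 ::
    .mul 2 0 :: .sub true 163 2 :: .mul 18 0 :: .add false 2 0 :: .add false 0 13 :: .cst 16 45 ::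
    .mul 0 159 :: .smul 4 160 :: .sub true 170 0 :: .mul 0 47 :: .smul 11 163 :: .sub true 138 0 ::
    .mul 2 0 :: .smul 21 166 :: .sub false 118 0 :: .mul 168 168 :: .smul 126 0 :: .add false 2 0 ::
    .int 30 :: .smul 210 172 :: .add false 1 0 :: .smul 160 180 :: .sub false 1 0 :: .mul 182 0 ::
    .sub true 6 0 :: .mul 184 0 :: .add true 13 0 :: .mul 20 0 :: .mul 60 60 :: .mul 144 0 :: .mul 2
    0 :: .sub false 26 0 :: .cst 1 40 :: prog4

def prog2 : List Ins := .mul 36 0 :: .mul 22 21 :: .add false 1 0 :: .add true 37 25 :: .mul 0 5 ::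
    .add false 2 0 :: .smul 2 24 :: .sub false 19 0 :: .mul 12 0 :: .add false 69 94 :: .mul 28 31
    :: .mul 1 0 :: .sub false 3 0 :: .add false 35 25 :: .mul 99 52 :: .sub true 1 0 :: .mul 21 0 ::
    .add false 4 0 :: .smul 2 39 :: .add true 0 23 :: .mul 42 0 :: .smul 2 0 :: .add true 4 0 ::
    .mul 61 0 :: .add false 18 0 :: .int 0 :: .mul 123 97 :: .cst 1 3 :: .sub true 123 114 :: .add
    false 0 97 :: .mul 116 0 :: .mul 3 0 :: .mul 0 80 :: .add false 6 0 :: .rsq 0 :: .mul 133 0 ::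
    .mul 0 0 :: .mul 0 1 :: .mul 12 0 :: .smul 3 0 :: .mul 0 111 :: .mul 0 4 :: .mul 113 5 :: .sub
    false 138 0 :: .smul 5 0 :: .sub true 80 0 :: .mul 4 0 :: .sub false 22 0 :: .mul 94 0 :: .mul
    122 147 :: prog3

def prog1 : List Ins := .add false 4 0 :: .smul 2 0 :: .mul 0 0 :: .mul 52 0 :: .mul 40 2 :: .sub
    false 50 34 :: .mul 53 47 :: .add false 0 8 :: .mul 2 0 :: .inv 0 :: .mul 5 0 :: .smul (-1) 0 ::
    .int 3 :: .add true 1 0 :: .sub false 49 59 :: .add true 3 0 :: .mul 4 4 :: .sub false 62 0 ::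
    .mul 8 8 :: .smul 2 10 :: .add false 11 15 :: .mul 1 0 :: .mul 69 39 :: .smul 2 24 :: .add false
    1 0 :: .mul 23 0 :: .sub true 4 0 :: .mul 8 0 :: .mul 16 0 :: .sub true 11 0 :: .mul 14 0 ::
    .mul 12 5 :: .mul 61 79 :: .mul 0 74 :: .add false 35 0 :: .mul 33 0 :: .mul 17 0 :: .sub false
    9 0 :: .mul 6 0 :: .smul 2 74 :: .mul 38 41 :: .mul 22 0 :: .smul (-1) 0 :: .mul 31 0 :: .mul 4
    0 :: .add true 6 0 :: .mul 18 18 :: .sub false 1 0 :: .mul 36 0 :: .add false 18 0 :: prog2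

def prog : List Ins := .cst 1 460 :: .var 3 :: .mul 0 0 :: .cst 1 2 :: .int 1 :: .cst 1 512 :: .var
    1 :: .mul 1 0 :: .sub false 3 0 :: .cst 1 4 :: .cst 1 50 :: .var 0 :: .mul 1 0 :: .sub false 3 0
    :: .inv 0 :: .mul 6 0 :: .mul 12 0 :: .mul 10 14 :: .int (-7) :: .exp 0 :: .mul 2 0 :: .cst 1 25
    :: .mul 0 10 :: .add false 19 0 :: .smul 7 0 :: .smul (-1) 0 :: .exp 0 :: .var 2 :: .mul 1 0 ::
    .sub false 8 0 :: .mul 13 0 :: .smul 2 23 :: .sub false 27 0 :: .inv 9 :: .mul 1 0 :: .sub false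
    30 6 :: .mul 1 0 :: .add false 6 0 :: .mul 30 9 :: .int 2 :: .smul 2 26 :: .sub true 1 0 :: .inv
    0 :: .mul 4 0 :: .sub false 6 0 :: .mul 42 0 :: .int 7 :: .exp 0 :: .mul 42 0 :: .mul 0 6 ::
    prog1

def vs : List Vr := [⟨1, 0, false, false⟩, ⟨1, 0, false, false⟩, ⟨2, 0, false, false⟩, ⟨4, 0, false,
    false⟩]

def C : Chart := ⟨vs, prog, [], 2, 3⟩

end Pool.Agent.Lib.MP_d6150d_an.BcB
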