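import Pool.Agent.Lib.MP_d6150d_an.CcCore

/-! The function `ccG` in three coordinate systems. -/

namespace Pool.Agent.Lib.MP_d6150d_an

open Real Set

variable {D F t : ℝ}

theorem mC0_smul (be f n g b k : ℝ) :
    mC0 be f n g (k * n ^ 2) (k * g) (k * b) = k * mC0 be f n g (n ^ 2) g b := by
  simp only [mC0]; ring

theorem mCU_smul (f n g b k : ℝ) : mCU f n g (k * n ^ 3) (k * (n * g)) (k * g ^ 2) (k * b) =
    k * mCU f n g (n ^ 3) (n * g) (g ^ 2) b := by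
  simp only [mCU]; ring

theorem mCR_eq (be f a g b : ℝ) {m w : ℝ} (hm : m = 2 - 2 * a - g) (hw : w = g + f * a) :
    (mCR be f a g m w b).1 = mC0 be f (a - 1) g ((a - 1) ^ 2) g b ∧ (mCR be f a g m w b).2 =
      mCU f (a - 1) g ((a - 1) ^ 3) ((a - 1) * g) (g ^ 2) b := by
  subst hm hw
  simp only [mCR, mC0, mCU]
  push_cast
  constructor <;> ring

theorem cc_centre {f be ga e E xi yi mu z iW M a g b mm om v c R X S z0 G0 z1 G1 : ℝ}
    (hF : F ≠ 0) (ht : t ∈ JR D) (hf : f = F⁻¹) (hE : E = exp (t / 2))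
    (hxi : xi = exp (-(t / 2))) (hyi : yi = exp (-(F * t))) (hmu : mu = muR D F t)
    (hz : z = ph1 (t / 2)) (hiW : iW = (z * (1 + xi) / 2 * (1 + D - D * xi ^ 2))⁻¹)
    (hM : M = mu * yi ^ 2 * E * iW) (ha : a = F * t * M)
    (hg : g = M * iW * xi * (1 + 2 * D - 2 * D * xi ^ 2)) (hb : b = M * iW * D * xi ^ 3)
    (hmm : mm = 2 - 2 * a - g) (hom : om = g + t * M)
    (hv : v = t ^ 2 * mu) (hc : c = F * (1 - F - 2 * D) / 3) (hR : R = (√(1 + c * v))⁻¹)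
    (hX : X = 1 - R ^ 2) (hS : S = yi * R ^ 3) (hz0 : z0 = (mCR be f a g mm om b).1)
    (hG0 : G0 = z0 - S * (1 - be + 3 * be * X)) (hz1 : z1 = (mCR be f a g mm om b).2)
    (hG1 : G1 = ga * v * (z1 - 3 * S * R ^ 2 * (f - 1 - 5 * X))) :
    G0 - e * G1 = exp (-(F * t)) * ccG D F be (e * ga) t := by
  obtain ⟨m0, m1⟩ := mCR_eq be f a g b hmm (hom.trans (by rw [hf, ha]; field_simp))
  rw [m0] at hz0
  rw [m1] at hz1
  by_cases h0 : t = 0
  · subst h0 hG1 hG0 hz0 hS hX hR hv hg ha hM hiW hz hmu hyi hxi hE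
    simp [ccG, ccK, ccS, ccPi, ccR, vR, uR, TR_zero, muR_zero, ph1_zero, mC0]
  have E0 : E ≠ 0 := hE ▸ (exp_pos _).ne'
  have e1 : exp t = E ^ 2 := by rw [hE, sq, ← exp_add, add_halves]
  have e2 : xi = E⁻¹ := by rw [hxi, hE, exp_neg]
  have e3 : exp ((2 - 2 * F) * t) = yi ^ 2 * E ^ 4 := by
    rw [hyi, hE, ← exp_nat_mul, ← exp_nat_mul, ← exp_add]; congr 1; push_cast; ring
  have e4 : t * z = 2 * (E - 1) := by rw [hz, hE, exp_eq_ph]; ring
  have e5 : wR D t = t * E ^ 3 * iW⁻¹ := by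
    rw [hiW, inv_inv, wR_eq, MP_d6150d_an.om, e1, e2]
    have : t * E ^ 3 * (z * (1 + E⁻¹) / 2 * (1 + D - D * E⁻¹ ^ 2)) =
      t * z * (E ^ 3 * (1 + E⁻¹) / 2 * (1 + D - D * E⁻¹ ^ 2)) := by ring
    rw [this, e4]; field_simp; ring
  have i0 : iW ≠ 0 := fun h ↦ wR_ne ht h0 (by rw [e5, h]; simp)
  have e6 : yR D F t = t ^ 2 * mu * (yi ^ 2 * E ^ 4) / 2 := by rw [yR, vR, e3, hmu]
  have e7 : exp (-(F * t)) * exp (F * t) = 1 := by rw [← exp_add]; simp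
  have k := cc_closed (be := be) (la := e * ga) hF ht h0 (n := a - 1) (g := g) (b := b)
    (by rw [ha, hM, e5, e6]; field_simp)
    (by rw [hg, hM, e5, e6, QR, e1, e2]; field_simp)
    (by rw [hb, hM, e5, e6, e2]; field_simp)
  have ev : vR D F t = v := by rw [hv, hmu, vR]
  rw [ccG, k, ccS, ccPi, ev, ← hc, ccR, ← hR, ← hX, ← hf, hG0, hG1, hz0, hz1, hS, ← hyi]
  rw [← hyi] at e7
  linear_combination -(mC0 be f (a - 1) g ((a - 1) ^ 2) g b -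
    e * ga * v * mCU f (a - 1) g ((a - 1) ^ 3) ((a - 1) * g) (g ^ 2) b) * e7

theorem cc_vR_exp (hF : F ≠ 0) (h1 : 1 - 2 * F ≠ 0) (h2 : 2 - 2 * F ≠ 0) (t : ℝ) : vR D F t =
    2 * ((1 + D) * F⁻¹ / 2 * (exp (2 * F * t) - 1) +
      (1 + 2 * D) / (1 - 2 * F) * (exp ((2 * F - 1) * t) - 1) -
      D / (2 - 2 * F) * (exp ((2 * F - 2) * t) - 1)) := by
  have : 1 - F ≠ 0 := fun h ↦ h2 (by linarith)
  rw [vR_eq, exp_eq_ph, exp_eq_ph, exp_eq_ph]; field_simp; ring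

theorem cc_right {f aa be ga e d ps si z q A0 B0 C0 ka iw Om N n H B g c ro X n2 bq n3 ng gg bb S z0
    G0 z1 G1 : ℝ} (hF : 0 < F) (hF' : F < 1 / 2) (hd : 0 ≤ d) (hd' : d ≤ 1 / 2) (h0 : 0 < t)
    (ea : aa = 1 - 2 * F) (hps : ps = exp (-(aa * t))) (hsi : si = exp (-((4 * F - 1) * t)))
    (hf : f = F⁻¹) (hz : z = ps * si) (hq : q = ps * z) (hA0 : A0 = (1 - d) * f / 2)
    (hB0 : B0 = (1 - 2 * d) / aa) (hC0 : C0 = d / (2 - 2 * F)) (hka : ka = -(A0 + B0 + C0))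
    (hiw : iw = ((1 - q) * (1 - d + d * q))⁻¹)
    (hOm : Om = 2 * (A0 + ka * z + B0 * q + C0 * q ^ 2))
    (hN : N = (2 * F * ka + B0 * ps + 2 * C0 * ps * q) * iw) (hn : n = z * N)
    (hH : H = f * (1 + n) * iw * (1 - 2 * d + 2 * d * q)) (hB : B = -(f * (1 + n) * iw * d))
    (hg : g = q * H) (hc : c = F * (1 - F + 2 * d) / 3) (hro : ro = (√(z + c * Om))⁻¹)
    (hX : X = 1 - z * ro ^ 2) (hn2 : n2 = si * N ^ 2) (hbq : bq = q * B) (hn3 : n3 = si * N ^ 3)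
    (hng : ng = N * H) (hgg : gg = ps * H ^ 2) (hbb : bb = ps * B) (hS : S = si * ro ^ 3)
    (hz0 : z0 = mC0 be f n g n2 H bq) (hG0 : G0 = z0 - S * (1 - be + 3 * be * X))
    (hz1 : z1 = mCU f n g n3 ng gg bb)
    (hG1 : G1 = ga * Om * (z1 - 3 * S * ro ^ 2 * (f - 1 - 5 * X))) (h : 0 < G0 - e * G1) :
    0 < ccG (-d) F be (e * ga) t := by
  have ht : t ∈ JR (-d) := by
    have := exp_pos t
    simp only [JR, om, mem_ofPred_eq]; nlinarith
  have p0 : 0 < ps := hps ▸ exp_pos _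
  have s0 : 0 < si := hsi ▸ exp_pos _
  have z0' : 0 < z := by rw [hz]; positivity
  have q0 : 0 < q := by rw [hq]; positivity
  have a0 : 0 < aa := by linarith
  have a2 : 0 < 2 - 2 * F := by linarith
  obtain ⟨y, hy⟩ : ∃ y, y = exp (F * t) := ⟨_, rfl⟩
  have y0 : 0 < y := hy ▸ exp_pos _
  have e0 : z = (y ^ 2)⁻¹ := by
    rw [hz, hps, hsi, hy, ← exp_nat_mul, ← exp_neg, ← exp_add, ea]; congr 1; push_cast; ring
  have e1 : exp t = q⁻¹ := by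
    rw [hq, hz, hps, hsi, ← exp_add, ← exp_add, ← exp_neg, ea]; congr 1; ring
  have e2 : exp (2 * F * t) = z⁻¹ := by
    rw [hz, hps, hsi, ← exp_add, ← exp_neg, ea]; congr 1; ring
  have e3 : exp ((2 * F - 1) * t) = ps := by rw [hps, ea]; congr 1; ring
  have e4 : exp ((2 * F - 2) * t) = ps * q := by
    rw [hq, hz, hps, hsi, ← exp_add, ← exp_add, ← exp_add, ea]; congr 1; ring
  have e5 : exp ((2 - 2 * F) * t) = (ps * q)⁻¹ := by rw [← e4, ← exp_neg]; congr 1; ring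
  have ev : vR (-d) F t = Om / z := by
    rw [cc_vR_exp hF.ne' (ea ▸ a0.ne') a2.ne', e2, e3, e4, hOm, hka, hA0, hB0, hC0, hf, ← ea, hq]
    field_simp; ring
  have e6 : wR (-d) t = (q ^ 2 * iw)⁻¹ := by
    rw [hiw, mul_inv, inv_inv, wR_eq, om, e1]; field_simp; ring
  have i0 : iw ≠ 0 := fun h ↦ wR_ne ht h0.ne' (by rw [e6, h]; simp)
  have e7 : 1 + n = F * Om * iw := by
    have : iw * ((1 - q) * (1 - d + d * q)) = 1 := by
      rw [hiw]; exact inv_mul_cancel₀ fun h ↦ i0 (by rw [hiw, h, inv_zero])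
    have A : 2 * F * A0 = 1 - d := by rw [hA0, hf]; field_simp
    have B : (1 - 2 * F) * B0 = 1 - 2 * d := by rw [hB0, ← ea]; field_simp
    have C : (2 - 2 * F) * C0 = d := by rw [hC0, mul_div_cancel₀ _ a2.ne']
    rw [hn, hN, hOm]
    linear_combination -this + iw * q * B + iw * q ^ 2 * C - iw * A - iw * (B0 + 2 * C0 * q) * hq
  have e8 : yR (-d) F t = Om / q ^ 2 / 2 := by rw [yR, ev, e5, hq]; field_simp
  have k := cc_closed (be := be) (la := e * ga) hF.ne' ht h0.ne' (n := n) (g := g) (b := q * bq)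
    (by rw [e6, e8, eq_sub_iff_add_eq', e7]; field_simp)
    (by rw [hg, hH, e7, e6, e8, QR, e1, hf]; field_simp; ring)
    (by rw [hbq, hB, e7, e6, e8, hf]; field_simp)
  have eR : ccR c (Om / z) = ro / y := by
    rw [ccR, hro, show 1 + c * (Om / z) = y ^ 2 * (z + c * Om) by rw [e0]; field_simp,
      sqrt_mul (sq_nonneg _), sqrt_sq y0.le, mul_inv, div_eq_inv_mul]
  have m0 := mC0_smul be f n g (q * bq) q⁻¹
  have m1 := mCU_smul f n g (q * bq) (q * z)⁻¹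
  rw [show q⁻¹ * n ^ 2 = n2 by rw [hn2, hn, hq, hz]; field_simp,
    show q⁻¹ * g = H by rw [hg]; field_simp, show q⁻¹ * (q * bq) = bq by field_simp, ← hz0] at m0
  rw [show (q * z)⁻¹ * n ^ 3 = n3 by rw [hn3, hn, hq, hz]; field_simp,
    show (q * z)⁻¹ * (n * g) = ng by rw [hng, hn, hg]; field_simp,
    show (q * z)⁻¹ * g ^ 2 = gg by rw [hgg, hg, hq]; field_simp,
    show (q * z)⁻¹ * (q * bq) = bb by rw [hbb, hbq, hq]; field_simp, ← hz1] at m1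
  have : ccG (-d) F be (e * ga) t = y * q * (G0 - e * G1) := by
    rw [ccG, k, ccS, ccPi, ev, show F * (1 - F - 2 * -d) / 3 = c by rw [hc]; ring, eR, ← hy, ← hf,
      hG0, hG1, m0, m1, hS, hX]
    have : si = z ^ 2 / q := by rw [hq, hz]; field_simp
    rw [this, e0]
    field_simp; ring
  rw [this]; positivity

theorem ccPi_nn {be f m X : ℝ} (b1 : -1 / 25 ≤ be) (b2 : be ≤ 1 / 5) (f1 : f ≤ 4) (X0 : 0 ≤ X)
    (X1 : X ≤ 1) (m0 : 0 ≤ m) (m1 : m ≤ X / 3) : 0 ≤ ccPi be f m X := by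
  have h1 : 4 / 5 ≤ 1 - be + 3 * be * X := by nlinarith
  have h2 : m * (f - 1 - 5 * X) ≤ m * (3 - 5 * X) := by gcongr; linarith
  have h3 : m * (3 - 5 * X) ≤ 1 / 4 := by
    rcases le_total 0 (3 - 5 * X) with h | h
    · nlinarith [mul_le_mul_of_nonneg_right m1 h, sq_nonneg (X - 3 / 10)]
    · nlinarith [mul_nonneg m0 (neg_nonneg.2 h)]
  rw [ccPi]; linarith

theorem cc_left {f aa be ga nu d s ph r pc ch r2 A0 B0 i2 Om W iw N0 H0 iq a g mm om b c ro X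
    S z0 G0 z1 G1 zr : ℝ} (hF : 1 / 4 ≤ F) (hF' : F < 1 / 2) (hd : 0 ≤ d) (hd' : d ≤ 1 / 2) (h0 : t < 0)
    (b1 : -1 / 25 ≤ be) (b2 : be ≤ 1 / 5) (l0 : 0 ≤ nu * ph * ga) (l1 : nu * ph * ga ≤ 1 / 48)
    (ea : aa = 1 - 2 * F) (hs : s = exp t) (hph : ph = exp (aa * t)) (r0 : 0 < r)
    (hp : d * r ^ 2 = pc * s) (hch : ch ≤ exp ((3 / 2 - 4 * F) * t)) (hf : f = F⁻¹)
    (hr2 : r2 = r ^ 2) (hA0 : A0 = (1 - d) * f / 2) (hB0 : B0 = (1 - 2 * d) / aa)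
    (hi2 : i2 = (2 - 2 * F)⁻¹)
    (hOm : Om = 2 * (r2 * (A0 * (s - ph) + B0 * (1 - ph) - d * ph * i2) + pc * i2))
    (hW : W = (1 - s) * (r2 * (1 - d) + pc)) (hiw : iw = W⁻¹) (hN0 : N0 = F * Om)
    (hH0 : H0 = Om * (r2 * (1 - 2 * d) + 2 * pc)) (hiq : iq = iw ^ 2) (ha : a = -(N0 * iw))
    (hg : g = iq * H0) (hmm : mm = iq * (2 * W * (W + N0) - H0))
    (hom : om = iq * (Om * (pc + s * r2 * (1 - d)))) (hb : b = -(iq * (Om * pc)))
    (hc : c = F * (1 - F + 2 * d) / 3) (hzr : zr = (√(r2 * ph + c * Om))⁻¹) (hro : ro = r * zr)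
    (hX : X = 1 - ph * ro ^ 2) (hS : S = ch * ro ^ 3) (hz0 : z0 = (mCR be f a g mm om b).1)
    (hG0 : G0 = z0 - S * (1 - be + 3 * be * X)) (hz1 : z1 = (mCR be f a g mm om b).2)
    (hG1 : G1 = ga * Om * (z1 - 3 * S * ph * ro ^ 2 * (f - 1 - 5 * X)))
    (h : 0 < nu * G1 - r2 * G0) : ccG (-d) F be (nu * ph * ga) t < 0 := by
  have ht : t ∈ JR (-d) := by
    have := exp_pos t
    simp only [JR, MP_d6150d_an.om, mem_ofPred_eq]; nlinarith
  have F0 : 0 < F := by linarith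
  have p0 : 0 < ph := hph ▸ exp_pos _
  have s0 : 0 < s := hs ▸ exp_pos _
  have a0 : 0 < aa := by linarith
  have a2 : 0 < 2 - 2 * F := by linarith
  obtain rfl : pc = d * r ^ 2 / s := by rw [hp]; field_simp
  obtain ⟨k, hk⟩ : ∃ k, k = exp (aa * t / 2) := ⟨_, rfl⟩
  have k0 : 0 < k := hk ▸ exp_pos _
  have e0 : ph = k ^ 2 := by rw [hph, hk, sq, ← exp_add, add_halves]
  have e2 : exp (2 * F * t) = s / ph := by rw [hs, hph, ← exp_sub, ea]; congr 1; ring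
  have e3 : exp ((2 * F - 1) * t) = ph⁻¹ := by rw [hph, ← exp_neg, ea]; congr 1; ring
  have e5 : exp ((2 - 2 * F) * t) = s * ph := by rw [hs, hph, ← exp_add, ea]; congr 1; ring
  have e4 : exp ((2 * F - 2) * t) = (s * ph)⁻¹ := by rw [← e5, ← exp_neg]; congr 1; ring
  have ev : vR (-d) F t = Om / (r ^ 2 * ph) := by
    rw [cc_vR_exp F0.ne' (ea ▸ a0.ne') a2.ne', e2, e3, e4, hOm, hA0, hB0, hi2, hf, hr2, ← ea]
    field_simp; ring
  have e6 : wR (-d) t = -(s / r ^ 2 * iw⁻¹) := by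
    rw [hiw, inv_inv, hW, wR_eq, MP_d6150d_an.om, ← hs, hr2]; field_simp; ring
  have i0 : iw ≠ 0 := fun h ↦ wR_ne ht h0.ne (by rw [e6, h]; simp)
  have e8 : yR (-d) F t = Om * s / r ^ 2 / 2 := by rw [yR, ev, e5]; field_simp
  have kk := cc_closed (be := be) (la := nu * ph * ga) F0.ne' ht h0.ne (n := a - 1) (g := g) (b := b)
    (by rw [e6, e8, ha, hN0]; field_simp)
    (by rw [hg, hiq, hH0, e6, e8, QR, ← hs, hr2]; field_simp; ring)
    (by rw [hb, hiq, e6, e8]; field_simp)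
  have W1 : W = iw⁻¹ := by rw [hiw, inv_inv]
  obtain ⟨m0, m1⟩ := mCR_eq be f a g b (m := mm) (w := om)
    (by rw [hmm, hg, ha, hiq, W1]; field_simp; ring) (by
      have h1 : iw * W = 1 := by rw [W1, mul_inv_cancel₀ i0]
      have h2 : f * F = 1 := by rw [hf, inv_mul_cancel₀ F0.ne']
      have h3 : d * r ^ 2 / s + s * r2 * (1 - d) = r2 * (1 - 2 * d) + 2 * (d * r ^ 2 / s) - W := by
        rw [hW, hr2]; field_simp; ring
      rw [hom, hg, ha, hiq, hH0, hN0, h3]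
      linear_combination -(Om * iw) * h1 + Om * iw * h2)
  rw [m0] at hz0
  rw [m1] at hz1
  have eR : ccR c (Om / (r ^ 2 * ph)) = k * ro := by
    rw [ccR, hro, hzr, show 1 + c * (Om / (r ^ 2 * ph)) = (r * k)⁻¹ ^ 2 * (r2 * ph + c * Om) by
      rw [hr2, e0]; field_simp, sqrt_mul (sq_nonneg _), sqrt_sq (by positivity), mul_inv, inv_inv]
    ring
  have c0 : 1 / 16 ≤ c := by rw [hc]; nlinarith only [hF, hF', hd]
  have v0 := cc_vR_nn (F := F) ht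
  rw [ev] at v0
  have q1 := ccR_sq (c := c) (v := Om / (r ^ 2 * ph)) (by positivity)
  rw [eR] at q1
  have eX : X = c * (Om / (r ^ 2 * ph) * (k * ro) ^ 2) := by
    rw [hX]; linear_combination -q1 - ro ^ 2 * e0
  have u0 : 0 ≤ Om / (r ^ 2 * ph) * (k * ro) ^ 2 := by positivity
  have P := ccPi_nn (f := f) (X := X) (m := nu * ph * ga * (Om / (r ^ 2 * ph)) * (k * ro) ^ 2) b1 b2
    (by rw [hf]; exact (inv_le_comm₀ F0 four_pos).2 (by linarith only [hF])) (by rw [eX]; positivity)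
    (by rw [hX]; linarith only [mul_nonneg p0.le (sq_nonneg ro)]) (by rw [mul_assoc]; positivity)
    (by rw [mul_assoc, eX]; linarith only [mul_le_mul_of_nonneg_right l1 u0,
      mul_le_mul_of_nonneg_right c0 u0])
  have ro0 : 0 ≤ ro := by rw [hro, hzr]; positivity
  have e9 : k ^ 3 = exp (F * t) * exp ((3 / 2 - 4 * F) * t) := by
    rw [hk, ← exp_nat_mul, ← exp_add, ea]; congr 1; push_cast; ring
  have w := mul_nonneg (mul_nonneg (sub_nonneg.2 hch) (pow_nonneg ro0 3)) P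
  have : ccG (-d) F be (nu * ph * ga) t = -(exp (F * t) * ((nu * G1 - r2 * G0) / r ^ 2 +
      (exp ((3 / 2 - 4 * F) * t) - ch) * ro ^ 3 *
        ccPi be f (nu * ph * ga * (Om / (r ^ 2 * ph)) * (k * ro) ^ 2) X)) := by
    rw [ccG, kk, ccS, ev, show F * (1 - F - 2 * -d) / 3 = c by rw [hc]; ring, eR, mul_pow k ro 3, e9,
      show 1 - (k * ro) ^ 2 = X by rw [hX, e0]; ring, ← hf, hG0, hG1, hz0, hz1, hS,
      hr2, ccPi, mul_pow k ro 2, ← e0]
    field_simp; ring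
  rw [this, neg_lt_zero]
  have := exp_pos (F * t)
  positivity

theorem cc_iso (be la t : ℝ) : ccG 0 (1 / 4) be la t = 0 := by
  by_cases h0 : t = 0
  · simp [h0, ccG, ccK, ccS, ccPi, ccR, vR, uR, TR_zero]
  have ht : t ∈ JR 0 := by simpa [JR, om] using exp_pos t
  obtain ⟨y, hy⟩ : ∃ y, y = exp (1 / 4 * t) := ⟨_, rfl⟩
  have y0 : 0 < y := hy ▸ exp_pos _
  have e1 : exp t = y ^ 4 := by rw [hy, ← exp_nat_mul]; congr 1; push_cast; ring
  have e2 : exp (2 * (1 / 4) * t) = y ^ 2 := by rw [hy, ← exp_nat_mul]; congr 1; push_cast; ring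
  have e3 : exp ((2 * (1 / 4) - 1) * t) = (y ^ 2)⁻¹ := by rw [← e2, ← exp_neg]; congr 1; ring
  have e5 : exp ((2 - 2 * (1 / 4)) * t) = y ^ 6 := by
    rw [hy, ← exp_nat_mul]; congr 1; push_cast; ring
  have ev : vR 0 (1 / 4) t = 4 * (y ^ 2 - 1) ^ 2 / y ^ 2 := by
    rw [cc_vR_exp (by norm_num) (by norm_num) (by norm_num), e2, e3]; field_simp; ring
  have e6 : wR 0 t = y ^ 4 * (y ^ 2 - 1) * (y ^ 2 + 1) := by rw [wR_eq, om, e1]; ring
  have y1 : y ^ 2 - 1 ≠ 0 := fun h ↦ wR_ne ht h0 (by rw [e6, h]; ring)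
  have k := cc_closed (be := be) (la := la) (F := 1 / 4) (by norm_num) ht h0
    (n := -2 / (y ^ 2 + 1)) (g := 4 / (y ^ 2 + 1) ^ 2) (b := 0)
    (by rw [yR, ev, e5, e6]; field_simp; ring) (by rw [yR, ev, e5, e6, QR, e1]; field_simp; ring)
    (by ring)
  have eR : ccR (1 / 4 * (1 - 1 / 4 - 2 * 0) / 3) (4 * (y ^ 2 - 1) ^ 2 / y ^ 2) =
      2 * y / (y ^ 2 + 1) := by
    rw [ccR, show 1 + 1 / 4 * (1 - 1 / 4 - 2 * 0) / 3 * (4 * (y ^ 2 - 1) ^ 2 / y ^ 2) =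
      ((y ^ 2 + 1) / (2 * y)) ^ 2 by field_simp; ring, sqrt_sq (by positivity), inv_div]
  rw [ccG, k, ccS, ev, eR, ← hy]
  simp only [ccPi, mC0, mCU]
  push_cast
  field_simp
  ring

theorem cc_right_iso {f aa be ga d ps si z q A0 B0 C0 ka iw Om N n H B g c ro X n2 bq n3 ng gg bb S z0
    G0 z1 G1 : ℝ} (eF : F = 1 / 4) (ea : aa = 1 / 2) (ed : d = 0) (es : si = 1) (p0 : 0 ≤ ps)
    (p1 : ps < 1) (hf : f = F⁻¹) (hz : z = ps * si) (hq : q = ps * z) (hA0 : A0 = (1 - d) * f / 2)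
    (hB0 : B0 = (1 - 2 * d) / aa) (hC0 : C0 = d / (2 - 2 * F)) (hka : ka = -(A0 + B0 + C0))
    (hiw : iw = ((1 - q) * (1 - d + d * q))⁻¹)
    (hOm : Om = 2 * (A0 + ka * z + B0 * q + C0 * q ^ 2))
    (hN : N = (2 * F * ka + B0 * ps + 2 * C0 * ps * q) * iw) (hn : n = z * N)
    (hH : H = f * (1 + n) * iw * (1 - 2 * d + 2 * d * q)) (hB : B = -(f * (1 + n) * iw * d))
    (hg : g = q * H) (hc : c = F * (1 - F + 2 * d) / 3) (hro : ro = (√(z + c * Om))⁻¹)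
    (hX : X = 1 - z * ro ^ 2) (hn2 : n2 = si * N ^ 2) (hbq : bq = q * B) (hn3 : n3 = si * N ^ 3)
    (hng : ng = N * H) (hgg : gg = ps * H ^ 2) (hbb : bb = ps * B) (hS : S = si * ro ^ 3)
    (hz0 : z0 = mC0 be f n g n2 H bq) (hG0 : G0 = z0 - S * (1 - be + 3 * be * X))
    (hz1 : z1 = mCU f n g n3 ng gg bb)
    (hG1 : G1 = ga * Om * (z1 - 3 * S * ro ^ 2 * (f - 1 - 5 * X))) : G0 = 0 ∧ G1 = 0 := by
  subst eF ea ed es hf hz hq hA0 hB0 hC0 hka
  have h1 : 1 - ps ≠ 0 := by linarith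
  have h2 : 1 + ps ≠ 0 := by linarith
  replace hiw : iw = ((1 - ps) * (1 + ps))⁻¹ := by rw [hiw]; congr 1; ring
  replace hN : N = -2 / (1 + ps) := by rw [hN, hiw]; field_simp; ring
  replace hH : H = 4 / (1 + ps) ^ 2 := by rw [hH, hn, hN, hiw]; field_simp; ring
  replace hro : ro = 2 / (1 + ps) := by
    rw [hro, show ps * 1 + c * Om = ((1 + ps) / 2) ^ 2 by rw [hc, hOm]; ring,
      sqrt_sq (by positivity), inv_div]
  subst hG1 hG0 hz0 hz1 hS hbb hgg hng hn3 hbq hn2 hX hg hB hn hro hH hN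
  simp only [mC0, mCU]
  push_cast
  constructor
  · field_simp; ring
  · refine mul_eq_zero_of_right _ ?_
    field_simp; ring

theorem cc_left_iso {f aa be ga d s ph r pc ch r2 A0 B0 i2 Om W iw N0 H0 iq a g mm om b c ro X
    S z0 G0 z1 G1 zr : ℝ} (eF : F = 1 / 4) (ea : aa = 1 / 2) (ed : d = 0) (ep : pc = 0) (er : r = 1)
    (es : s = ph ^ 2) (ec : ch = ph) (p0 : 0 ≤ ph) (p1 : ph < 1) (hf : f = F⁻¹)
    (hr2 : r2 = r ^ 2) (hA0 : A0 = (1 - d) * f / 2) (hB0 : B0 = (1 - 2 * d) / aa)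
    (hi2 : i2 = (2 - 2 * F)⁻¹)
    (hOm : Om = 2 * (r2 * (A0 * (s - ph) + B0 * (1 - ph) - d * ph * i2) + pc * i2))
    (hW : W = (1 - s) * (r2 * (1 - d) + pc)) (hiw : iw = W⁻¹) (hN0 : N0 = F * Om)
    (hH0 : H0 = Om * (r2 * (1 - 2 * d) + 2 * pc)) (hiq : iq = iw ^ 2) (ha : a = -(N0 * iw))
    (hg : g = iq * H0) (hmm : mm = iq * (2 * W * (W + N0) - H0))
    (hom : om = iq * (Om * (pc + s * r2 * (1 - d)))) (hb : b = -(iq * (Om * pc)))
    (hc : c = F * (1 - F + 2 * d) / 3) (hzr : zr = (√(r2 * ph + c * Om))⁻¹) (hro : ro = r * zr)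
    (hX : X = 1 - ph * ro ^ 2) (hS : S = ch * ro ^ 3) (hz0 : z0 = (mCR be f a g mm om b).1)
    (hG0 : G0 = z0 - S * (1 - be + 3 * be * X)) (hz1 : z1 = (mCR be f a g mm om b).2)
    (hG1 : G1 = ga * Om * (z1 - 3 * S * ph * ro ^ 2 * (f - 1 - 5 * X))) : G0 = 0 ∧ G1 = 0 := by
  subst eF ea ed ep er es hf hr2 hA0 hB0 hN0 hH0 hiq
  have h1 : 1 - ph ≠ 0 := by linarith
  have h2 : 1 + ph ≠ 0 := by linarith
  replace hW : W = (1 - ph) * (1 + ph) := by rw [hW]; ring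
  replace hOm : Om = 4 * (1 - ph) ^ 2 := by rw [hOm]; ring
  replace ha : a = -(1 - ph) / (1 + ph) := by rw [ha, hiw, hW, hOm]; field_simp
  replace hg : g = 4 / (1 + ph) ^ 2 := by rw [hg, hiw, hW, hOm]; field_simp; ring
  replace hmm : mm = 4 * ph / (1 + ph) ^ 2 := by rw [hmm, hiw, hW, hOm]; field_simp; ring
  replace hom : om = 4 * ph ^ 2 / (1 + ph) ^ 2 := by rw [hom, hiw, hW, hOm]; field_simp; ring
  replace hro : ro = 2 / (1 + ph) := by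
    rw [hro, hzr, show 1 ^ 2 * ph + c * Om = ((1 + ph) / 2) ^ 2 by rw [hc, hOm]; ring,
      sqrt_sq (by positivity), inv_div, one_mul]
  subst hG1 hG0 hz0 hz1 hS hX hb ha hro hg hmm hom
  simp only [mCR, ec]
  push_cast
  constructor
  · field_simp; ring
  · refine mul_eq_zero_of_right _ ?_
    field_simp; ring

theorem cc_aff {A B e l h : ℝ} (h1 : l ≤ e) (h2 : e ≤ h) (p1 : 0 < A - l * B) (p2 : 0 < A - h * B) :
    0 < A - e * B := by
  rcases le_total 0 B with k | k <;> nlinarith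

theorem cc_exp_hi {a : ℝ} (a0 : 0 ≤ a) (a1 : a ≤ 1) (u : ℝ) : exp (a * u) ≤ 1 - a + a * exp u := by
  simpa using convexOn_exp.2 (mem_univ 0) (mem_univ u) (sub_nonneg.2 a1) a0 (by ring)

theorem cc_exp_lo {a : ℝ} (a0 : 0 ≤ a) (a1 : a ≤ 1) (u : ℝ) :
    exp u / (exp u + a * (1 - exp u)) ≤ exp (a * u) := by
  have h := cc_exp_hi a0 a1 (-u)
  have h1 := exp_pos u
  have h2 := exp_pos (a * u)
  rw [mul_neg, exp_neg, exp_neg, inv_le_iff_one_le_mul₀ h2] at h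
  have h3 : 0 < exp u + a * (1 - exp u) := by
    rcases a1.eq_or_lt with rfl | k
    · simp
    · nlinarith [mul_pos (sub_pos.2 k) h1]
  rw [div_le_iff₀ h3]
  have := mul_le_mul_of_nonneg_left h h1.le
  field_simp at this
  linarith

end Pool.Agent.Lib.MP_d6150d_an
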