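import Pool.Agent.Lib.MP_d6150d_an.BcMac
import Pool.Agent.Lib.MP_d6150d_an.CcSt

/-! The operator of order two and the separator used near the corner `(0, 1 / 4)`, `F ≤ 1 / 4`. -/

namespace Pool.Agent.Lib.MP_d6150d_an

open Real Set Filter Topology Asymptotics

variable (D F q r al la : ℝ)

/-- the image of the time function -/
noncomputable def bcK (t : ℝ) : ℝ :=
  vR D F t * ((q + r) * (1 + F * (uR F t - TR D F 2 t)) + q * (F * (TR D F 1 t - TR D F 3 t)) -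
    la * vR D F t * (F * (TR D F 2 t - TR D F 4 t) + (F⁻¹ + 2) * (F * (TR D F 1 t - TR D F 3 t)) +
      3 * (F⁻¹ - 1) * (1 + F * (uR F t - TR D F 2 t)))) -
    16 * (F * (TR D F 3 t - 4 * TR D F 2 t + 3 * TR D F 1 t))

/-- the weight in the separator -/
noncomputable def bcPi (c k f X V : ℝ) : ℝ := mBcP q r al c k X V - 3 * la * V * (f - 1 - 5 * X)

/-- the separator -/
noncomputable def bcS (v : ℝ) : ℝ :=
  v * ccR (F * (1 - F - 2 * D) / 3) v ^ 3 * bcPi q r al la (F * (1 - F - 2 * D) / 3) (mBcK F (-D)) F⁻¹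
    (1 - ccR (F * (1 - F - 2 * D) / 3) v ^ 2) (v * ccR (F * (1 - F - 2 * D) / 3) v ^ 2)

/-- the function whose sign is studied -/
noncomputable def bcG (t : ℝ) : ℝ := bcK D F q r la t - bcS D F q r al la (vR D F t)

variable {D F q r al la} {t : ℝ}

theorem bc_noThree (hF : 0 < F) (hq : 0 < q) (hl : 0 < la)
    (hw : 4 * (F⁻¹ + 2) ^ 2 * la ≤ (q + r) * q)
    (h : ∀ t ∈ JR D, t ≠ 0 → 0 < t * bcG D F q r al la t) : NoThree D F := by
  obtain ⟨k, rfl⟩ : ∃ k, q = k * la := ⟨q / la, by field_simp⟩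
  have k0 : 0 < k := (mul_pos_iff_of_pos_right hl).1 hq
  refine CritG.noThree ⟨⟨0, 0, 0, 0, -16, 64, 0, -(k * la), -r, la, la * (F⁻¹ - 2), 0⟩, 1,
    fun h ↦ k * h⁻¹ - (F⁻¹ - 2), fun h ↦ k * -(h ^ 2)⁻¹, fun a ha b hb' a0 b0 e ↦ ?_⟩
  have v0 := vR_pos (F := F) hb' b0.ne'
  refine ⟨((hasDerivAt_inv v0.ne').const_mul k).sub_const _, ?_, ?_, ?_⟩
  · simp only [Gp.P]; positivity
  · generalize vR D F b = v at *
    have h1 : 4 * (F⁻¹ + 2) ^ 2 ≤ (k * la + r) * k := le_of_mul_le_mul_right (by linarith) hl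
    have h2 := mul_le_mul_of_nonneg_right h1 (sq_nonneg v)
    refine (le_of_mul_le_mul_left (a := k) ?_ k0).trans' (le_of_eq (show _ =
      16 * (F⁻¹ + 2) * v - 16 * k - (k * la + r) * v ^ 2 from ?_))
    · nlinarith [sq_nonneg (2 * (F⁻¹ + 2) * v - 4 * k)]
    · simp only [Gp.P, Gp.Q, Gp.S]
      generalize F⁻¹ = f
      field_simp
      ring
  · have p1 := neg_of_mul_pos_right (h a ha a0.ne) a0.le
    have p2 := (mul_pos_iff_of_pos_left b0).1 (h b hb' b0.ne')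
    have p := mul_pos v0 (by linarith : 0 < bcG D F (k * la) r al la b - bcG D F (k * la) r al la a)
    refine lt_of_mul_lt_mul_left ?_ hF.le
    simp only [bcG, bcK, Gp.K, Gp.P, Gp.C3, Gp.C2, Gp.C1, Gp.C0, e] at p ⊢
    linarith

theorem mBc0_eq (f n g n2 h b : ℝ) : (mBc0 f n g n2 h b).1 = mC0 0 f n g n2 h b ∧
    (mBc0 f n g n2 h b).2 = -mC0 1 f n g n2 h b := by
  simp only [mBc0, mC0]
  push_cast
  constructor <;> ring

theorem bc_closed (hF : F ≠ 0) (ht : t ∈ JR D) (h0 : t ≠ 0) {n g b z0 z1 : ℝ}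
    (hn : n = 2 * F * yR D F t / wR D t - 1) (hg : g = 2 * yR D F t * (QR D t - 2 * D) / wR D t ^ 2)
    (hb : b = 2 * yR D F t * D / wR D t ^ 2) (h1 : z0 = mC0 0 F⁻¹ n g (n ^ 2) g b)
    (h2 : z1 = -mC0 1 F⁻¹ n g (n ^ 2) g b) : bcK D F q r la t = exp (F * t) *
      (vR D F t * ((q + r) * z0 + q * z1 - la * vR D F t * mCU F⁻¹ n g (n ^ 3) (n * g) (g ^ 2) b) -
        16 * (4 * n + 4 * z0 - z1)) := by
  have k0 := cc_closed (be := 0) (la := 0) hF ht h0 hn hg hb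
  have k1 := cc_closed (be := 1) (la := 0) hF ht h0 hn hg hb
  have k2 := cc_closed (be := 0) (la := la) hF ht h0 hn hg hb
  have e : F * uR F t = exp (F * t) - 1 := by rw [exp_eq_ph, uR]; ring
  have e1 : F * TR D F 1 t = exp (F * t) * (1 + n) := by
    rw [TR1 ht h0, hn, U1]; ring
  rw [ccK] at k0 k1 k2
  rw [bcK, h1, h2]
  linear_combination (vR D F t * (q + r - 1) - 64) * k0 - (vR D F t * q + 16) * k1 +
    vR D F t * k2 - 64 * e1 + 64 * e

theorem Jet.bc_big5 {f : ℝ → ℝ} {a5 a6 : ℝ} (J : Jet D F f 0 0 0 0 0 a5 a6) :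
    f =O[𝓝 0] fun t ↦ t ^ 5 := by
  obtain ⟨h, ha, e⟩ := J
  have g := (gR_an (F := F) (zero_mem_JR D)).continuousAt
  have c := ha.continuousAt
  refine (cont_bigO (D := D) (F := F) (k := fun t ↦ a5 + gR D F t * (a6 + gR D F t * h t))
    (by fun_prop) 5).congr' ?_ EventuallyEq.rfl
  filter_upwards [e] with t e
  rw [e]; ring

theorem mBcK_eq : mBcK F (-D) = 192 * F * ja4 D F + 24 * (F * (1 - F - 2 * D) / 3) ^ 2 := by
  simp only [mBcK, ja4]
  push_cast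
  ring

theorem bcG_big (hc : 0 ≤ F * (1 - F - 2 * D) / 3) :
    bcG D F q r al la =O[𝓝 0] fun t ↦ t ^ 5 := by
  obtain ⟨a6, U⟩ := jet_uR (D := D) (F := F)
  unfold bcG bcS bcK bcPi
  have e2 : F * ja2 D F = F * (1 - F - 2 * D) / 3 / 2 := by rw [ja2]; ring
  have e4 := mBcK_eq (D := D) (F := F)
  generalize mBcK F (-D) = k at *
  generalize F * (1 - F - 2 * D) / 3 = c at *
  have v0 : vR D F 0 = 0 := by simp [vR]
  have an : AnalyticAt ℝ (fun t ↦ ccR c (vR D F t)) 0 := by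
    have h1 : AnalyticAt ℝ (fun t ↦ 1 + c * vR D F t) 0 :=
      analyticAt_const.add (analyticAt_const.mul (AnJ.v (F := F) 0 (zero_mem_JR D)))
    exact (ContDiffAt.analyticAt (h1.contDiffAt.sqrt (by simp [v0]))).inv (by simp [v0])
  obtain ⟨r1, r2, r3, r4, r5, r6, R⟩ := jet_ex (D := D) (F := F) an
  rw [show ccR c (vR D F 0) = 1 by simp [ccR, v0]] at R
  obtain ⟨-, s1, s2, -⟩ := ((R.mul R).mul ((Jet.const 1).lin Jet.v (-c))).uniq
    ((Jet.const 1).congr fun t ht ↦ by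
      linear_combination ccR_sq (c := c) (v := vR D F t) (by have := cc_vR_nn (F := F) ht; positivity))
  obtain rfl : r1 = 0 := by linarith
  obtain rfl : r2 = -c / 2 := by linarith
  have Z0 := (Jet.const 1).lin (U.lin U.th.th 1) (-F)
  have Z1 := U.th.lin U.th.th.th 1
  have Z2 := U.th.th.lin U.th.th.th.th 1
  obtain ⟨_, _, _, _, R2⟩ : ∃ a b c' d, Jet D F _ 1 0 (-c) a b c' d :=
    ⟨_, _, _, _, (R.mul R).cast (by ring) (by ring) (by ring) rfl rfl rfl rfl⟩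
  have X := (Jet.const 1).lin R2 1
  obtain ⟨_, _, _, _, A⟩ : ∃ a b c' d, Jet D F _ (q + r) 0
      (-(3 * (q + r) + 6 * q) * (c / 2) - 3 * la * (F⁻¹ - 1)) a b c' d :=
    ⟨_, _, _, _, ((((Jet.const (q + r)).mul Z0).lin Z1 (-(q * F))).lin
      (Jet.v.mul ((((Jet.const (F⁻¹ - 1)).mul Z0).lin Z1 (-(F⁻¹ + 2) * F / 3)).lin Z2 (-F / 3)))
      (3 * la)).cast (by ring) (by ring) (by linear_combination -(3 * (q + r) + 6 * q) * e2)
      rfl rfl rfl rfl⟩
  obtain ⟨_, _, _, _, B⟩ : ∃ a b c' d, Jet D F _ (16 * c + q + r) 0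
      (24 * c ^ 2 - (9 * q + 3 * r) * (c / 2) - k - 3 * la * (F⁻¹ - 1)) a b c' d :=
    ⟨_, _, _, _, ((R2.mul R).mul ((((Jet.const (16 * c + q + r)).lin X (3 * q - 48 * c)).lin
      (X.mul X) al).lin ((Jet.v.mul R2).mul ((Jet.const (k + 3 * la * (F⁻¹ - 1))).lin X (15 * la)))
      1)).cast (by ring) (by ring) (by ring) rfl rfl rfl rfl⟩
  refine Jet.bc_big5 (D := D) (F := F) ((((Jet.v.mul (A.lin B 1)).lin
    ((U.th.th.th.lin U.th.th 4).lin U.th (-3)) (16 * F)).congr fun t _ ↦ ?_).cast (by ring) (by ring)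
    ?_ (by ring) ?_ rfl rfl)
  · simp only [TR, mBcP]; push_cast; ring
  · linear_combination 32 * e2
  · linear_combination e4

end Pool.Agent.Lib.MP_d6150d_an
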