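import Pool.Agent.Lib.MP_d6150d_an.BcSt

/-! The three coordinate systems for the chosen coefficients. -/

namespace Pool.Agent.Lib.MP_d6150d_an

open Real Set Filter Topology Asymptotics

/-- the function with the chosen coefficients -/
noncomputable def bcH (x d e t : ℝ) : ℝ :=
  bcG (-d) (1 / 4 - x / 50) (77 / 100) (364 * d - 29 / 100 - 2 * x / 5) (7 * x / 40)
    (e * (1 / 460)) t

/-- near the center -/
noncomputable def bcC (x d t : ℝ) : ℝ × ℝ :=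
  let F := 1 / 4 - x / 50
  let f := F⁻¹
  let D := -d
  let rr := 364 * d - 29 / 100 - 2 * x / 5
  let xi := exp (-(t / 2))
  let yi := exp (-(F * t))
  let mu := muR D F t
  let iW := (ph1 (t / 2) * (1 + xi) / 2 * (1 + D - D * xi ^ 2))⁻¹
  let M := mu * yi ^ 2 * exp (t / 2) * iW
  let a := F * t * M
  let g := M * iW * xi * (1 + 2 * D - 2 * D * xi ^ 2)
  let b := M * iW * D * xi ^ 3
  let v := t ^ 2 * mu
  let c := F * (1 - F + 2 * d) / 3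
  let R := (√(1 + c * v))⁻¹
  let X := 1 - R ^ 2
  let S := yi * R ^ 3
  let Z := mBcR f a g (2 - 2 * a - g) (g + t * M) b
  (v * ((77 / 100 + rr) * Z.1 + 77 / 100 * Z.2.1 -
      S * mBcP (77 / 100) rr (7 * x / 40) c (mBcK F d) X (v * R ^ 2)) - 16 * Z.2.2.2,
    1 / 460 * v ^ 2 * (Z.2.2.1 - 3 * S * R ^ 2 * (f - 1 - 5 * X)))

/-- on the right -/
noncomputable def bcT (x d z si : ℝ) : ℝ × ℝ :=
  let F := 1 / 4 - x / 50
  let f := F⁻¹
  let rr := 364 * d - 29 / 100 - 2 * x / 5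
  let ps := z * si
  let q := z * ps
  let A0 := (1 - d) * f / 2
  let B0 := (1 - 2 * d) / (1 / 2 + x / 25)
  let C0 := d / (2 - 2 * F)
  let ka := -(A0 + B0 + C0)
  let iw := ((1 - q) * (1 - d + d * q))⁻¹
  let Om := 2 * (A0 + ka * z + B0 * q + C0 * q ^ 2)
  let N := (2 * F * ka + B0 * ps + 2 * C0 * ps * q) * iw
  let n := z * N
  let H := f * (1 + n) * iw * (1 - 2 * d + 2 * d * q)
  let B := -(f * (1 + n) * iw * d * si)
  let c := F * (1 - F + 2 * d) / 3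
  let ro := (√(z + c * Om))⁻¹
  let X := 1 - z * ro ^ 2
  let Z := mBc0 f n (q * H) (N ^ 2) (si * H) (q * B)
  (Om * ((77 / 100 + rr) * Z.1 + 77 / 100 * Z.2 -
      ro ^ 3 * mBcP (77 / 100) rr (7 * x / 40) c (mBcK F d) X (Om * ro ^ 2)) -
      16 * (4 * N + z * (4 * Z.1 - Z.2)),
    1 / 460 * Om ^ 2 * (mCU f n (q * H) (N ^ 3) (N * (si * H)) (ps * H * (si * H)) (ps * B) -
      3 * ro ^ 3 * ro ^ 2 * (f - 1 - 5 * X)))

/-- on the left -/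
noncomputable def bcL (x d s ph r pc ch : ℝ) : ℝ × ℝ :=
  let F := 1 / 4 - x / 50
  let f := F⁻¹
  let rr := 364 * d - 29 / 100 - 2 * x / 5
  let i2 := (2 - 2 * F)⁻¹
  let Om := 2 * (r ^ 2 * ((1 - d) * f / 2 * (s - ph) + (1 - 2 * d) / (1 / 2 + x / 25) * (1 - ph) -
    d * ph * i2) + pc * i2)
  let W := (1 - s) * (r ^ 2 * (1 - d) + pc)
  let H0 := Om * (r ^ 2 * (1 - 2 * d) + 2 * pc)
  let iq := W⁻¹ ^ 2
  let Z := mBcR f (-(F * Om * W⁻¹)) (iq * H0) (iq * (2 * W * (W + F * Om) - H0))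
    (iq * (Om * (pc + s * r ^ 2 * (1 - d)))) (-(iq * (Om * pc)))
  let c := F * (1 - F + 2 * d) / 3
  let zr := (√(r ^ 2 * ph + c * Om))⁻¹
  let ro := r * zr
  let X := 1 - ph * ro ^ 2
  let S := ch * ro ^ 3
  (Om * ((77 / 100 + rr) * Z.1 + 77 / 100 * Z.2.1 -
      S * mBcP (77 / 100) rr (7 * x / 40) c (mBcK F d) X (Om * zr ^ 2)) - 16 * r ^ 2 * ph * Z.2.2.2,
    1 / 460 * Om ^ 2 * (Z.2.2.1 - 3 * S * ph * ro ^ 2 * (f - 1 - 5 * X)))

variable {x d l t T : ℝ}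

theorem bcC_eq (x1 : x ≤ 1) (d0 : 0 ≤ d) (d1 : d ≤ 1 / 2) (e t : ℝ) :
    (bcC x d t).1 - e * (bcC x d t).2 = exp (-((1 / 4 - x / 50) * t)) * bcH x d e t :=
  bc_centre (by linarith : (0 : ℝ) < 1 / 4 - x / 50).ne' (bc_JR d0 d1 t) rfl rfl rfl rfl rfl rfl rfl
    rfl rfl rfl rfl rfl rfl rfl rfl rfl rfl rfl rfl rfl rfl rfl rfl rfl rfl rfl rfl rfl

theorem bcC_big (x0 : 0 ≤ x) (x1 : x ≤ 1) (d0 : 0 ≤ d) (d1 : d ≤ 1 / 2) {τ : ℝ → ℝ} (k : ℝ)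
    (h : ∀ r, τ r = k * r) (a b : ℝ) {u : ℝ → ℝ}
    (e : ∀ r, u r = a * (bcC x d (τ r)).1 + b * (bcC x d (τ r)).2) :
    u =O[𝓝[>] 0] fun r : ℝ ↦ r ^ 5 := by
  have key : ∀ e, (fun r ↦ (bcC x d (τ r)).1 - e * (bcC x d (τ r)).2) =O[𝓝 0]
      fun r : ℝ ↦ r ^ 5 := fun e ↦ by
    simp only [bcC_eq x1 d0 d1, h]
    have h1 : ContinuousAt (fun r : ℝ ↦ exp (-((1 / 4 - x / 50) * (k * r)))) 0 := by fun_prop
    have h2 : Tendsto (fun r : ℝ ↦ k * r) (𝓝 0) (𝓝 0) :=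
      (continuous_const.mul continuous_id).tendsto' 0 0 (mul_zero k)
    have h3 := (h1.isBigO_one ℝ).mul ((bcG_big (D := -d) (F := 1 / 4 - x / 50) (q := 77 / 100)
      (r := 364 * d - 29 / 100 - 2 * x / 5) (al := 7 * x / 40) (la := e * (1 / 460))
      (by nlinarith)).comp_tendsto h2)
    refine h3.trans ?_
    simp only [Function.comp, one_mul, mul_pow]
    exact isBigO_const_mul_self _ _ _
  refine (((key 0).const_mul_left (a + b)).sub ((key 1).const_mul_left b)).mono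
    nhdsWithin_le_nhds |>.congr_left fun r ↦ ?_
  rw [e]; ring

theorem bcC_iso (h : d = 0) (t : ℝ) : (bcC 0 d t).1 = 0 ∧ (bcC 0 d t).2 = 0 := by
  subst h
  have h : ∀ e, (bcC 0 0 t).1 - e * (bcC 0 0 t).2 = 0 := fun e ↦ by
    rw [bcC_eq zero_le_one le_rfl (by norm_num), bcH]
    simp only [mul_zero, neg_zero, zero_div, sub_zero, bc_iso]
  constructor
  · linear_combination h 0
  · linear_combination h 0 - h 1

theorem bcT_pos {z si e : ℝ} (x0 : 0 ≤ x) (x1 : x ≤ 1) (d0 : 0 ≤ d) (d1 : d ≤ 1 / 2) (t0 : 0 < t)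
    (ez : z = exp (-(2 * (1 / 4 - x / 50) * t))) (es : si = exp (-(2 * x / 25 * t)))
    (h : 0 < (bcT x d z si).1 - e * (bcT x d z si).2) : 0 < bcH x d e t :=
  bc_right (by linarith) (by linarith) d0 d1 t0 (by ring) ez
    (by rw [es]; congr 2; ring) rfl rfl rfl rfl rfl rfl rfl rfl rfl rfl rfl rfl rfl rfl rfl rfl rfl
    rfl rfl rfl rfl rfl rfl rfl rfl rfl rfl rfl rfl rfl rfl rfl rfl h

theorem bcT_iso {z si : ℝ} (ed : d = 0) (es : si = 1) (p0 : 0 ≤ z) (p1 : z < 1) :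
    (bcT 0 d z si).1 = 0 ∧ (bcT 0 d z si).2 = 0 :=
  bc_right_iso (by ring) (by ring) ed es (by ring) p0 p1 rfl rfl rfl rfl rfl rfl rfl rfl rfl rfl rfl
    rfl rfl rfl rfl rfl rfl rfl rfl rfl rfl rfl rfl rfl rfl rfl rfl rfl rfl rfl rfl rfl rfl

theorem bcL_neg {s ph r pc ch nu : ℝ} (x0 : 0 ≤ x) (x1 : x ≤ 1) (l0 : l ≤ 0) (T0 : 0 < T)
    (ed : d = 1 / 512 * exp l) (es : s = exp (-T)) (ep : ph = exp (-((1 / 2 + x / 25) * T)))
    (r0 : 0 < r) (hp : d * r ^ 2 = pc * s) (hc : ch ≤ exp (-((1 / 2 + x / 25 + x / 25) * T)))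
    (en : nu = exp ((1 / 2 + x / 25) * (l + T)))
    (h : 0 < nu * (bcL x d s ph r pc ch).2 - r ^ 2 * (bcL x d s ph r pc ch).1) :
    bcH x (1 / 512 * exp l) (exp ((1 / 2 + x / 25) * l)) (-T) < 0 := by
  have e : exp ((1 / 2 + x / 25) * l) = nu * ph := by rw [en, ep, ← exp_add]; congr 1; ring
  have e1 : nu * ph ≤ 1 := e ▸ exp_le_one_iff.2 (by nlinarith)
  have e0 : 0 < nu * ph := e ▸ exp_pos _
  have j1 := exp_le_one_iff.2 l0
  have j0 := exp_pos l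
  rw [← ed, bcH, e]
  exact bc_left (by linarith) (by linarith) (by linarith) (by linarith) (by linarith)
    (by norm_num) (by linarith) (by linarith) (by positivity) (by linarith) (by ring) es
    (by rw [ep]; congr 1; ring) r0 hp (hc.trans_eq (by congr 1; ring)) rfl rfl rfl rfl rfl rfl rfl
    rfl rfl rfl rfl rfl rfl rfl rfl rfl rfl rfl rfl rfl rfl rfl rfl rfl rfl rfl rfl rfl rfl rfl h

theorem bcL_iso {s ph r pc ch : ℝ} (ed : d = 0) (ep : pc = 0) (er : r = 1) (es : s = ph ^ 2)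
    (ec : ch = ph) (p0 : 0 ≤ ph) (p1 : ph < 1) :
    (bcL 0 d s ph r pc ch).1 = 0 ∧ (bcL 0 d s ph r pc ch).2 = 0 :=
  bc_left_iso (by ring) (by ring) ed ep er (by ring) es ec p0 p1 rfl rfl rfl rfl rfl rfl rfl rfl rfl
    rfl rfl rfl rfl rfl rfl rfl rfl rfl rfl rfl rfl rfl rfl rfl rfl rfl rfl rfl rfl rfl

theorem bc_frac {a b k : ℝ} (h0 : a ≤ b) (h1 : b ≤ a + k) : ∃ o, 0 ≤ o ∧ o ≤ 1 ∧ b = a + o * k := by
  rcases (show 0 ≤ k by linarith).eq_or_lt with e | e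
  · exact ⟨0, le_rfl, zero_le_one, by linarith⟩
  · exact ⟨(b - a) / k, div_nonneg (by linarith) e.le, (div_le_one e).2 (by linarith),
      by rw [div_mul_cancel₀ _ e.ne']; ring⟩

theorem bc_tail {u : ℝ} (x0 : 0 ≤ x) (h : u ≤ T) : ∃ o m w : ℝ, 0 ≤ o ∧ o ≤ 1 ∧ 0 ≤ w ∧
    w ≤ 1 ∧ m = w + 2 * x / 25 * o * (1 - w) ∧ m ^ 2 = exp (u - T) ∧
    exp (-((1 / 2 + x / 25) * u)) * w = exp (-((1 / 2 + x / 25) * T)) ∧
    exp (-((1 / 2 + x / 25 + x / 25) * u)) * (2 * w - m) ≤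
      exp (-((1 / 2 + x / 25 + x / 25) * T)) := by
  obtain ⟨y, rfl⟩ : ∃ y, T = u - 2 * y := ⟨(u - T) / 2, by ring⟩
  have u0 : y ≤ 0 := by linarith
  have k0 : 0 < 1 + 2 * x / 25 := by linarith
  have m0 := exp_pos y
  have w0 : exp ((1 + 2 * x / 25) * y) ≤ exp y := exp_le_exp.2 (by nlinarith)
  have w1 := w0.trans (exp_le_one_iff.2 u0)
  have k1 : 1 - 2 * x / 25 ≤ (1 + 2 * x / 25)⁻¹ := by
    rw [← one_div, le_div_iff₀ k0]; nlinarith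
  have w2 := cc_exp_hi (inv_pos.2 k0).le (inv_le_one_of_one_le₀ (by linarith))
    ((1 + 2 * x / 25) * y)
  rw [inv_mul_cancel_left₀ k0.ne'] at w2
  obtain ⟨o, o0, o1, e⟩ := bc_frac (k := 2 * x / 25 * (1 - exp ((1 + 2 * x / 25) * y))) w0
    (by nlinarith [mul_le_mul_of_nonneg_right k1 (sub_nonneg.2 w1)])
  refine ⟨o, exp y, _, o0, o1, (exp_pos _).le, w1, e.trans (by ring), ?_, ?_, ?_⟩
  · rw [sq, ← exp_add]; congr 1; ring
  · rw [← exp_add]; congr 1; ring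
  · have : 2 * exp ((1 + 2 * x / 25) * y) - exp y ≤ exp ((1 + 2 * x / 25) * y) ^ 2 / exp y := by
      rw [le_div_iff₀ m0]; nlinarith [sq_nonneg (exp ((1 + 2 * x / 25) * y) - exp y)]
    refine (mul_le_mul_of_nonneg_left this (exp_pos _).le).trans_eq ?_
    rw [sq, ← exp_add, ← exp_sub, ← exp_add]; congr 1; ring

end Pool.Agent.Lib.MP_d6150d_an
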