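import Pool.Agent.Lib.MP_d6150d_an.GDef

/-! A generated chart: the program. -/

namespace Pool.Agent.Lib.MP_d6150d_an.BcJ

def prog4 : List Ins := .add false 5 121 :: .mul 0 100 :: .add false 2 0 :: .smul 2 119 :: .sub
    false 114 0 :: .mul 107 0 :: .add false 165 184 :: .mul 123 127 :: .mul 1 0 :: .sub false 3 0 ::
    .add false 131 120 :: .mul 189 144 :: .sub false 1 0 :: .mul 116 0 :: .add false 4 0 :: .smul 2
    135 :: .add true 0 118 :: .mul 138 0 :: .smul 2 0 :: .add true 4 0 :: .mul 153 0 :: .add false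
    18 0 :: .smul 3 101 :: .mul 0 193 :: .mul 0 105 :: .smul 5 101 :: .sub true 32 0 :: .mul 2 0 ::
    .sub true 6 0 :: .mul 37 0 :: .mul 41 0 :: .sub false 0 49 :: .cpy 0 :: .cpy 50 :: []

def prog3 : List Ins := .mul 135 0 :: .sub true 6 0 :: .mul 137 0 :: .add true 14 0 :: .mul 21 0 ::
    .mul 38 38 :: .mul 106 0 :: .mul 2 0 :: .sub false 27 0 :: .cst 1 40 :: .smul 7 141 :: .mul 1 0
    :: .mul 38 38 :: .mul 1 0 :: .sub true 5 0 :: .mul 44 0 :: .sub true 62 0 :: .mul 117 0 :: .smul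
    16 166 :: .mul 0 139 :: .sub true 91 169 :: .sub true 92 31 :: .mul 1 0 :: .add false 106 94 ::
    .sub false 0 169 :: .mul 108 0 :: .add false 3 0 :: .sub true 0 79 :: .mul 111 0 :: .mul 9 0 ::
    .sub true 12 0 :: .mul 179 0 :: .smul (-1) 0 :: .smul 4 156 :: .exp 0 :: .sub false 184 158 ::
    .mul 159 178 :: .add true 1 0 :: .mul 3 0 :: .cst 1 460 :: .mul 140 140 :: .mul 1 0 :: .add true
    125 52 :: .sub false 171 192 :: .add true 127 0 :: .mul 0 114 :: .add true 0 95 :: .mul 4 0 ::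
    .mul 118 117 :: .add false 1 0 :: prog4

def prog2 : List Ins := .mul 33 0 :: .add false 18 0 :: .mul 51 0 :: .add false 21 0 :: .add false
    77 78 :: .mul 0 93 :: .smul (-1) 0 :: .exp 0 :: .mul 106 78 :: .cst 1 3 :: .sub true 109 89 ::
    .add false 0 78 :: .mul 91 0 :: .mul 3 0 :: .mul 0 64 :: .add false 6 0 :: .rsq 0 :: .mul 116 0
    :: .mul 0 0 :: .mul 0 1 :: .mul 12 0 :: .smul 16 7 :: .mul 92 3 :: .sub true 122 0 :: .smul 3 0
    :: .add false 124 0 :: .mul 4 0 :: .sub true 126 2 :: .mul 77 0 :: .add false 2 0 :: .add false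
    0 72 :: .cst 16 45 :: .mul 0 111 :: .smul 4 112 :: .sub true 133 0 :: .mul 0 24 :: .smul 11 115
    :: .sub true 96 0 :: .mul 2 0 :: .int 3 :: .smul 21 119 :: .sub false 1 0 :: .mul 121 121 ::
    .smul 126 0 :: .add false 2 0 :: .int 30 :: .smul 210 125 :: .add false 1 0 :: .smul 160 133 ::
    .sub false 1 0 :: prog3

def prog1 : List Ins := .cst 77 100 :: .smul 364 36 :: .cst 29 100 :: .sub false 1 0 :: .cst 1 5 ::
    .smul 2 36 :: .mul 1 0 :: .sub false 3 0 :: .add true 7 0 :: .mul 38 9 :: .sub false 59 46 ::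
    .mul 59 45 :: .add false 0 53 :: .mul 2 0 :: .inv 0 :: .mul 5 0 :: .smul (-1) 0 :: .mul 0 0 ::
    .sub false 67 0 :: .mul 4 4 :: .smul 2 6 :: .add false 7 11 :: .mul 1 0 :: .mul 71 39 :: .smul 2
    65 :: .add false 1 0 :: .mul 26 0 :: .sub true 4 0 :: .mul 8 0 :: .mul 12 0 :: .sub true 11 0 ::
    .mul 22 0 :: .mul 15 1 :: .mul 13 6 :: .mul 70 82 :: .mul 0 69 :: .add false 77 0 :: .mul 37 0
    :: .mul 18 0 :: .sub true 10 0 :: .mul 6 0 :: .smul 2 69 :: .mul 42 83 :: .mul 23 0 :: .smul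
    (-1) 0 :: .mul 28 0 :: .mul 4 0 :: .add true 6 0 :: .mul 19 19 :: .sub true 1 0 :: prog2

def prog : List Ins := .int 1 :: .mul 0 0 :: .cst 1 2 :: .cst 1 512 :: .int 4 :: .exp 0 :: .mul 2 0
    :: .var 1 :: .mul 1 0 :: .var 2 :: .smul 2 0 :: .add false 6 0 :: .smul (-1) 0 :: .exp 0 :: .mul
    5 0 :: .sub false 14 0 :: .cst 1 4 :: .cst 1 50 :: .var 0 :: .mul 1 0 :: .sub false 3 0 :: .inv
    0 :: .mul 6 0 :: .mul 20 0 :: .cst 1 25 :: .mul 0 6 :: .add false 23 0 :: .mul 0 15 :: .smul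
    (-1) 0 :: .exp 0 :: .sub true 16 0 :: .mul 7 0 :: .smul 2 17 :: .sub false 32 0 :: .inv 7 ::
    .mul 1 0 :: .sub true 35 6 :: .mul 1 0 :: .add false 6 0 :: .mul 24 9 :: .int 2 :: .smul 2 20 ::
    .sub true 1 0 :: .inv 0 :: .mul 4 0 :: .sub true 6 0 :: .mul 44 0 :: .mul 38 3 :: .add false 1 0
    :: .smul 2 0 :: prog1

def vs : List Vr := [⟨2, 0, false, true⟩, ⟨2, 0, false, true⟩, ⟨5, 0, false, false⟩]

def C : Chart := ⟨vs, prog, [], 2, 3⟩

end Pool.Agent.Lib.MP_d6150d_an.BcJ
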