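import Pool.Agent.Lib.MP_d6150d_an.GDef

/-! A generated chart: the program. -/

namespace Pool.Agent.Lib.MP_d6150d_an.BcL

def prog4 : List Ins := .cst 1 460 :: .mul 142 142 :: .mul 1 0 :: .add true 128 52 :: .sub false 173
    203 :: .add true 130 0 :: .mul 0 117 :: .add true 0 98 :: .mul 4 0 :: .mul 121 120 :: .add false
    1 0 :: .add false 5 124 :: .mul 0 103 :: .add false 2 0 :: .smul 2 122 :: .sub false 117 0 ::
    .mul 110 0 :: .add false 167 186 :: .mul 126 130 :: .mul 1 0 :: .sub false 3 0 :: .add false 134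
    123 :: .mul 191 147 :: .sub true 1 0 :: .mul 119 0 :: .add false 4 0 :: .smul 2 138 :: .add true
    0 121 :: .mul 141 0 :: .smul 2 0 :: .add true 4 0 :: .mul 156 0 :: .add false 18 0 :: .smul 3
    101 :: .mul 0 195 :: .mul 0 105 :: .smul 5 101 :: .sub true 32 0 :: .mul 2 0 :: .sub true 6 0 ::
    .mul 37 0 :: .mul 41 0 :: .sub false 0 49 :: .cpy 0 :: .cpy 50 :: []

def prog3 : List Ins := .int 3 :: .smul 21 121 :: .sub false 1 0 :: .mul 123 123 :: .smul 126 0 ::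
    .add false 2 0 :: .int 30 :: .smul 210 127 :: .add false 1 0 :: .smul 160 134 :: .sub false 1 0
    :: .mul 136 0 :: .sub true 6 0 :: .mul 138 0 :: .add false 14 0 :: .mul 21 0 :: .mul 38 38 ::
    .mul 108 0 :: .mul 2 0 :: .sub false 27 0 :: .cst 1 40 :: .smul 7 156 :: .mul 1 0 :: .mul 38 38
    :: .mul 1 0 :: .sub true 5 0 :: .mul 44 0 :: .sub true 65 0 :: .mul 119 0 :: .smul 16 177 ::
    .mul 0 141 :: .sub true 94 180 :: .sub false 95 31 :: .mul 1 0 :: .add false 109 97 :: .sub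
    false 0 180 :: .mul 111 0 :: .add false 3 0 :: .sub false 0 82 :: .mul 114 0 :: .mul 9 0 :: .sub
    true 12 0 :: .mul 190 0 :: .smul (-1) 0 :: .smul 4 159 :: .exp 0 :: .sub false 195 161 :: .mul
    162 189 :: .add true 1 0 :: .mul 3 0 :: prog4

def prog2 : List Ins := .mul 41 91 :: .mul 23 0 :: .smul (-1) 0 :: .mul 28 0 :: .mul 4 0 :: .add
    true 6 0 :: .mul 19 19 :: .sub true 1 0 :: .mul 33 0 :: .add true 18 0 :: .mul 50 0 :: .add
    false 21 0 :: .add false 77 78 :: .mul 0 103 :: .smul (-1) 0 :: .exp 0 :: .smul 2 103 :: .sub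
    true 0 95 :: .mul 2 0 :: .mul 117 80 :: .cst 1 3 :: .sub true 120 91 :: .add false 0 80 :: .mul
    93 0 :: .mul 3 0 :: .mul 0 66 :: .add false 6 0 :: .rsq 0 :: .mul 127 0 :: .mul 0 0 :: .mul 0 1
    :: .mul 12 0 :: .smul 16 7 :: .mul 94 3 :: .sub true 133 0 :: .smul 3 0 :: .add false 135 0 ::
    .mul 4 0 :: .sub true 137 2 :: .mul 79 0 :: .add false 2 0 :: .add false 0 75 :: .cst 16 45 ::
    .mul 0 113 :: .smul 4 114 :: .sub true 144 0 :: .mul 0 24 :: .smul 11 117 :: .sub true 98 0 ::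
    .mul 2 0 :: prog3

def prog1 : List Ins := .smul 2 20 :: .sub true 1 0 :: .inv 0 :: .mul 4 0 :: .sub false 6 0 :: .mul
    53 0 :: .mul 47 3 :: .add false 1 0 :: .smul 2 0 :: .cst 77 100 :: .smul 364 35 :: .cst 29 100
    :: .sub false 1 0 :: .cst 1 5 :: .mul 0 48 :: .sub false 2 0 :: .add true 6 0 :: .mul 37 8 ::
    .sub false 67 44 :: .mul 67 43 :: .add false 0 61 :: .mul 2 0 :: .inv 0 :: .mul 5 0 :: .smul
    (-1) 0 :: .mul 0 0 :: .sub false 75 0 :: .mul 4 4 :: .smul 2 6 :: .add false 7 11 :: .mul 1 0 ::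
    .mul 79 38 :: .smul 2 73 :: .add false 1 0 :: .mul 25 0 :: .sub true 4 0 :: .mul 8 0 :: .mul 12
    0 :: .sub true 11 0 :: .mul 22 0 :: .mul 15 1 :: .mul 13 6 :: .mul 68 90 :: .mul 0 67 :: .add
    false 85 0 :: .mul 36 0 :: .mul 18 0 :: .sub true 10 0 :: .mul 6 0 :: .smul 2 68 :: prog2

def prog : List Ins := .int 1 :: .mul 0 0 :: .cst 1 2 :: .cst 1 512 :: .int 4 :: .exp 0 :: .mul 2 0
    :: .var 1 :: .mul 1 0 :: .int 6 :: .smul (-1) 0 :: .exp 0 :: .var 3 :: .cst 1 25 :: .var 0 ::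
    .smul 2 0 :: .mul 2 0 :: .var 2 :: .mul 1 0 :: .sub true 18 6 :: .mul 1 0 :: .add false 8 0 ::
    .mul 0 0 :: .mul 11 0 :: .mul 15 0 :: .sub false 24 0 :: .cst 1 4 :: .cst 1 50 :: .mul 0 13 ::
    .sub false 2 0 :: .inv 0 :: .mul 5 0 :: .mul 29 0 :: .mul 19 18 :: .add false 31 0 :: .mul 0 25
    :: .smul (-1) 0 :: .exp 0 :: .mul 0 25 :: .sub true 15 0 :: .mul 7 0 :: .smul 2 16 :: .sub false
    41 0 :: .inv 8 :: .mul 1 0 :: .sub false 44 6 :: .mul 1 0 :: .add false 6 0 :: .mul 23 9 :: .int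
    2 :: prog1

def vs : List Vr := [⟨2, 0, false, true⟩, ⟨2, 0, false, true⟩, ⟨1, 0, false, false⟩, ⟨3, 0, false,
    false⟩]

def C : Chart := ⟨vs, prog, [], 2, 3⟩

end Pool.Agent.Lib.MP_d6150d_an.BcL
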