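import Pool.Agent.Lib.MP_d6150d_an.GDef

/-! A generated chart: the program. -/

namespace Pool.Agent.Lib.MP_d6150d_an.BcM

def prog4 : List Ins := .mul 107 0 :: .add false 4 0 :: .smul 2 123 :: .add true 0 109 :: .mul 126 0
    :: .smul 2 0 :: .add true 4 0 :: .mul 141 0 :: .add false 18 0 :: .smul 3 97 :: .mul 0 100 ::
    .smul 5 97 :: .sub true 31 0 :: .mul 2 0 :: .sub true 5 0 :: .mul 36 0 :: .mul 40 0 :: .sub
    false 0 48 :: .cpy 0 :: .cpy 49 :: []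

def prog3 : List Ins := .mul 1 0 :: .mul 37 37 :: .mul 1 0 :: .sub true 5 0 :: .mul 42 0 :: .sub
    true 55 0 :: .mul 123 0 :: .sub true 79 149 :: .sub true 80 28 :: .mul 1 0 :: .add false 94 82
    :: .int 4 :: .sub true 1 0 :: .mul 97 0 :: .add false 4 0 :: .sub true 0 71 :: .mul 100 0 ::
    .smul 16 0 :: .sub false 11 0 :: .smul (-1) 0 :: .cst 1 25 :: .mul 0 172 :: .add false 124 0 ::
    .sub false 165 0 :: .mul 1 157 :: .add true 1 0 :: .cst 1 460 :: .mul 144 144 :: .mul 1 0 ::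
    .add true 113 49 :: .sub false 93 172 :: .add true 115 0 :: .mul 0 102 :: .add true 0 86 :: .mul
    4 0 :: .mul 106 105 :: .add false 1 0 :: .add false 5 109 :: .mul 0 91 :: .add false 2 0 ::
    .smul 2 113 :: .sub true 106 0 :: .mul 98 0 :: .add false 171 106 :: .mul 117 115 :: .mul 1 0 ::
    .sub false 3 0 :: .add false 119 112 :: .mul 111 132 :: .sub false 1 0 :: prog4

def prog2 : List Ins := .cst 1 3 :: .sub true 93 100 :: .smul 2 84 :: .add false 1 0 :: .mul 103 0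
    :: .mul 4 0 :: .mul 0 73 :: .add false 99 0 :: .rsq 0 :: .mul 0 0 :: .mul 0 1 :: .mul 66 0 ::
    .smul 16 6 :: .sub true 105 3 :: .smul 3 0 :: .add false 107 0 :: .mul 3 0 :: .sub true 109 2 ::
    .mul 84 0 :: .add false 2 0 :: .add false 0 79 :: .cst 16 45 :: .mul 0 121 :: .smul 4 122 ::
    .sub true 116 0 :: .mul 0 23 :: .smul 11 125 :: .sub true 105 0 :: .mul 2 0 :: .int 3 :: .smul
    21 129 :: .sub false 1 0 :: .mul 131 131 :: .smul 126 0 :: .add false 2 0 :: .int 30 :: .smul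
    210 135 :: .add false 1 0 :: .smul 160 120 :: .sub false 1 0 :: .mul 122 0 :: .sub true 6 0 ::
    .mul 124 0 :: .add true 14 0 :: .mul 21 0 :: .mul 112 35 :: .mul 1 0 :: .sub false 26 0 :: .cst
    1 40 :: .smul 7 150 :: prog3

def prog1 : List Ins := .mul 0 53 :: .tri 0 :: .mul 5 2 :: .smul (-1) 4 :: .exp 0 :: .add false 47 0
    :: .mul 5 0 :: .mul 9 0 :: .add false 50 39 :: .mul 4 4 :: .mul 41 0 :: .sub false 2 0 :: .mul 4
    0 :: .inv 0 :: .mul 11 0 :: .mul 22 0 :: .mul 0 0 :: .sub false 59 0 :: .smul 2 2 :: .sub false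
    47 0 :: .mul 5 6 :: .mul 0 16 :: .smul 2 53 :: .add false 65 0 :: .mul 1 14 :: .sub false 1 0 ::
    .mul 4 0 :: .sub true 7 0 :: .mul 12 0 :: .sub true 11 0 :: .mul 38 0 :: .mul 15 1 :: .mul 87 17
    :: .add false 6 0 :: .sub true 6 0 :: .mul 8 0 :: .inv 85 :: .smul 2 0 :: .mul 17 69 :: .mul 29
    34 :: .mul 1 0 :: .mul 25 0 :: .mul 4 0 :: .add false 7 0 :: .mul 16 16 :: .sub true 1 0 :: .mul
    30 0 :: .add true 15 0 :: .mul 64 0 :: .add false 18 0 :: prog2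

def prog : List Ins := .var 2 :: .smul 4 0 :: .smul (-1) 0 :: .mul 0 0 :: .cst 1 4 :: .cst 1 50 ::
    .var 0 :: .mul 1 0 :: .sub false 3 0 :: .smul 2 0 :: .mul 0 7 :: .tri 0 :: .mul 4 0 :: .int 1 ::
    .sub true 6 0 :: .mul 0 14 :: .tri 0 :: .mul 4 0 :: .sub false 7 0 :: .cst 1 512 :: .var 1 ::
    .mul 1 0 :: .smul (-1) 0 :: .smul 2 5 :: .sub false 13 0 :: .int 2 :: .sub true 20 0 :: .mul 0
    28 :: .tri 0 :: .mul 4 0 :: .add true 7 0 :: .mul 10 0 :: .add false 15 0 :: .smul 2 0 :: .mul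
    36 0 :: .cst 77 100 :: .smul 364 16 :: .cst 29 100 :: .sub false 1 0 :: .cst 1 5 :: .smul 2 39
    :: .mul 1 0 :: .sub false 3 0 :: .add true 7 0 :: .mul 41 47 :: .smul (-1) 0 :: .exp 0 :: .mul 0
    0 :: .mul 14 0 :: .cst 1 2 :: prog1

def vs : List Vr := [⟨2, 0, false, true⟩, ⟨2, 0, false, true⟩, ⟨8, 5, false, false⟩]

def C : Chart := ⟨vs, prog, [], 2, 3⟩

end Pool.Agent.Lib.MP_d6150d_an.BcM
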