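import Pool.Agent.Lib.MP_d6150d_an.GDef

/-! A generated chart: the program. -/

namespace Pool.Agent.Lib.MP_d6150d_an.BcP

def prog4 : List Ins := .smul 2 122 :: .add true 0 108 :: .mul 125 0 :: .smul 2 0 :: .add true 4 0
    :: .mul 140 0 :: .add false 18 0 :: .smul 3 96 :: .mul 0 99 :: .smul 5 96 :: .sub true 31 0 ::
    .mul 2 0 :: .sub true 5 0 :: .mul 36 0 :: .mul 40 0 :: .sub false 47 0 :: .cpy 0 :: .cpy 49 ::
    []

def prog3 : List Ins := .mul 37 37 :: .mul 1 0 :: .sub true 5 0 :: .mul 42 0 :: .sub true 55 0 ::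
    .mul 123 0 :: .sub true 79 149 :: .sub true 80 28 :: .mul 1 0 :: .add false 94 82 :: .int 4 ::
    .sub true 1 0 :: .mul 97 0 :: .add false 4 0 :: .sub true 0 71 :: .mul 100 0 :: .smul 16 0 ::
    .sub false 11 0 :: .cst 1 25 :: .mul 0 171 :: .add false 123 0 :: .sub false 164 0 :: .mul 1 156
    :: .add true 1 0 :: .cst 1 460 :: .mul 143 143 :: .mul 1 0 :: .add false 112 48 :: .sub false 92
    171 :: .add true 114 0 :: .mul 0 101 :: .add true 0 85 :: .mul 4 0 :: .mul 105 104 :: .add false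
    1 0 :: .add false 5 108 :: .mul 0 90 :: .add false 2 0 :: .smul 2 112 :: .sub false 105 0 ::
    .mul 97 0 :: .add false 170 105 :: .mul 116 114 :: .mul 1 0 :: .sub false 3 0 :: .add false 118
    111 :: .mul 110 131 :: .sub true 1 0 :: .mul 106 0 :: .add false 4 0 :: prog4

def prog2 : List Ins := .sub true 93 100 :: .smul 2 84 :: .add false 1 0 :: .mul 103 0 :: .mul 4 0
    :: .mul 0 73 :: .add false 99 0 :: .rsq 0 :: .mul 0 0 :: .mul 0 1 :: .mul 66 0 :: .smul 16 6 ::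
    .sub true 105 3 :: .smul 3 0 :: .add false 107 0 :: .mul 3 0 :: .sub true 109 2 :: .mul 84 0 ::
    .add false 2 0 :: .add false 0 79 :: .cst 16 45 :: .mul 0 121 :: .smul 4 122 :: .sub true 116 0
    :: .mul 0 23 :: .smul 11 125 :: .sub true 105 0 :: .mul 2 0 :: .int 3 :: .smul 21 129 :: .sub
    false 1 0 :: .mul 131 131 :: .smul 126 0 :: .add false 2 0 :: .int 30 :: .smul 210 135 :: .add
    false 1 0 :: .smul 160 120 :: .sub false 1 0 :: .mul 122 0 :: .sub true 6 0 :: .mul 124 0 ::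
    .add true 14 0 :: .mul 21 0 :: .mul 112 35 :: .mul 1 0 :: .sub false 26 0 :: .cst 1 40 :: .smul
    7 150 :: .mul 1 0 :: prog3

def prog1 : List Ins := .tri 0 :: .mul 5 2 :: .smul (-1) 4 :: .exp 0 :: .add false 47 0 :: .mul 5 0
    :: .mul 9 0 :: .add false 50 39 :: .mul 4 4 :: .mul 41 0 :: .sub false 2 0 :: .mul 4 0 :: .inv 0
    :: .mul 11 0 :: .mul 22 0 :: .mul 0 0 :: .sub false 59 0 :: .smul 2 2 :: .sub false 47 0 :: .mul
    5 6 :: .mul 0 16 :: .smul 2 53 :: .add false 65 0 :: .mul 1 14 :: .sub false 1 0 :: .mul 4 0 ::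
    .sub true 7 0 :: .mul 12 0 :: .sub true 11 0 :: .mul 38 0 :: .mul 15 1 :: .mul 87 17 :: .add
    false 6 0 :: .sub true 6 0 :: .mul 8 0 :: .inv 85 :: .smul 2 0 :: .mul 17 69 :: .mul 29 34 ::
    .mul 1 0 :: .mul 25 0 :: .mul 4 0 :: .add false 7 0 :: .mul 16 16 :: .sub false 1 0 :: .mul 30 0
    :: .add true 15 0 :: .mul 64 0 :: .add false 18 0 :: .cst 1 3 :: prog2

def prog : List Ins := .var 2 :: .smul 4 0 :: .mul 0 0 :: .cst 1 4 :: .cst 1 50 :: .var 0 :: .mul 1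
    0 :: .sub false 3 0 :: .smul 2 0 :: .mul 0 7 :: .tri 0 :: .mul 4 0 :: .int 1 :: .sub true 6 0 ::
    .mul 0 14 :: .tri 0 :: .mul 4 0 :: .sub false 7 0 :: .cst 1 512 :: .var 1 :: .mul 1 0 :: .smul
    (-1) 0 :: .smul 2 5 :: .sub false 13 0 :: .int 2 :: .sub true 20 0 :: .mul 0 28 :: .tri 0 ::
    .mul 4 0 :: .add true 7 0 :: .mul 10 0 :: .add false 15 0 :: .smul 2 0 :: .mul 36 0 :: .cst 77
    100 :: .smul 364 16 :: .cst 29 100 :: .sub false 1 0 :: .cst 1 5 :: .smul 2 39 :: .mul 1 0 ::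
    .sub false 3 0 :: .add true 7 0 :: .mul 41 47 :: .smul (-1) 0 :: .exp 0 :: .mul 0 0 :: .mul 14 0
    :: .cst 1 2 :: .mul 0 53 :: prog1

def vs : List Vr := [⟨2, 0, false, true⟩, ⟨2, 0, false, true⟩, ⟨8, 5, false, false⟩]

def C : Chart := ⟨vs, prog, [], 2, 3⟩

end Pool.Agent.Lib.MP_d6150d_an.BcP
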