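import Pool.Agent.Lib.MP_d6150d_an.GDef

/-! A generated chart: the program. -/

namespace Pool.Agent.Lib.MP_d6150d_an.BcR

def prog4 : List Ins := .mul 150 113 :: .mul 0 113 :: .int 35 :: .add false 0 11 :: .mul 0 123 ::
    .smul 7 193 :: .int 7 :: .sub false 1 0 :: .add false 3 0 :: .smul 15 112 :: .add true 1 0 ::
    .mul 9 0 :: .add false 12 0 :: .mul 163 106 :: .mul 131 0 :: .int 8 :: .smul 4 204 :: .sub false
    1 0 :: .int 20 :: .smul 6 207 :: .add false 1 0 :: .mul 0 140 :: .sub false 4 0 :: .smul 20 126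
    :: .sub true 1 0 :: .mul 10 0 :: .add true 13 0 :: .mul 145 0 :: .add false 39 0 :: .smul 3 106
    :: .mul 0 108 :: .sub false 219 229 :: .smul 5 106 :: .sub true 1 0 :: .mul 3 0 :: .sub true 6 0
    :: .mul 54 0 :: .mul 58 0 :: .sub false 62 0 :: .cpy 0 :: .cpy 64 :: []

def prog3 : List Ins := .smul 160 145 :: .sub false 1 0 :: .mul 147 0 :: .sub true 6 0 :: .mul 149 0
    :: .add true 14 0 :: .mul 21 0 :: .mul 100 35 :: .mul 1 0 :: .sub false 26 0 :: .cst 1 40 ::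
    .smul 7 152 :: .mul 1 0 :: .mul 37 37 :: .mul 1 0 :: .sub true 5 0 :: .mul 43 0 :: .sub true 54
    0 :: .mul 111 0 :: .smul 4 90 :: .smul 4 80 :: .sub false 0 60 :: .mul 138 0 :: .add false 3 0
    :: .smul 16 0 :: .sub false 6 0 :: .sub false 174 157 :: .mul 158 173 :: .add true 1 0 :: .cst 1
    460 :: .mul 123 123 :: .mul 1 0 :: .mul 102 103 :: .int 18 :: .smul 3 172 :: .sub false 1 0 ::
    .smul 15 105 :: .add true 1 0 :: .mul 5 0 :: .mul 110 101 :: .int 34 :: .smul 10 179 :: .add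
    false 1 0 :: .mul 181 181 :: .add false 1 0 :: .mul 0 114 :: .add false 2 184 :: .sub false 0
    174 :: .add true 2 0 :: .mul 9 0 :: prog4

def prog2 : List Ins := .smul 3 20 :: .sub false 1 0 :: .smul 2 90 :: .mul 0 21 :: .mul 20 99 ::
    .mul 0 56 :: .smul (-1) 0 :: .mul 56 0 :: .mul 4 0 :: .add false 7 0 :: .mul 28 0 :: .mul 53 0
    :: .add false 21 0 :: .cst 1 3 :: .sub true 112 103 :: .add false 0 100 :: .mul 105 0 :: .mul 3
    0 :: .mul 0 61 :: .add false 85 0 :: .rsq 0 :: .mul 0 0 :: .mul 0 1 :: .smul 16 5 :: .mul 90 2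
    :: .sub true 123 0 :: .smul 3 0 :: .add false 125 0 :: .mul 4 0 :: .sub true 127 2 :: .mul 72 0
    :: .add false 2 0 :: .add false 0 67 :: .cst 16 45 :: .mul 0 123 :: .smul 4 124 :: .sub true 134
    0 :: .mul 0 22 :: .smul 11 127 :: .sub true 116 0 :: .mul 2 0 :: .int 3 :: .smul 21 131 :: .sub
    false 1 0 :: .mul 133 133 :: .smul 126 0 :: .add false 2 0 :: .int 30 :: .smul 210 137 :: .add
    false 1 0 :: prog3

def prog1 : List Ins := .mul 16 0 :: .mul 30 0 :: .add false 16 0 :: .mul 2 2 :: .mul 27 0 :: .add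
    true 2 0 :: .smul 2 0 :: .cst 77 100 :: .smul 364 53 :: .cst 29 100 :: .sub false 1 0 :: .cst 1
    5 :: .smul 2 53 :: .mul 1 0 :: .sub false 3 0 :: .add true 7 0 :: .mul 42 37 :: .mul 46 17 ::
    .add false 1 0 :: .smul 2 42 :: .mul 0 20 :: .mul 0 20 :: .add false 3 0 :: .sub false 71 22 ::
    .mul 69 23 :: .add false 69 0 :: .mul 2 0 :: .inv 0 :: .mul 5 0 :: .mul 0 0 :: .mul 46 1 :: .add
    true 79 0 :: .mul 70 0 :: .mul 0 5 :: .mul 69 33 :: .add false 69 0 :: .mul 2 0 :: .mul 38 0 ::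
    .mul 6 0 :: .add false 9 0 :: .mul 24 0 :: .sub false 89 79 :: .int 5 :: .add false 0 81 :: .mul
    0 13 :: .sub false 3 0 :: .mul 45 9 :: .smul 3 0 :: .sub true 2 0 :: .mul 11 0 :: prog2

def prog : List Ins := .cst 1 2 :: .int 1 :: .cst 1 512 :: .var 1 :: .mul 1 0 :: .sub false 3 0 ::
    .cst 1 4 :: .cst 1 50 :: .var 0 :: .mul 1 0 :: .sub false 3 0 :: .inv 0 :: .mul 6 0 :: .mul 12 0
    :: .smul 2 9 :: .sub false 13 0 :: .cst 1 25 :: .mul 0 8 :: .add false 17 0 :: .inv 0 :: .mul 4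
    0 :: .add false 7 0 :: .int 2 :: .smul 2 12 :: .sub true 1 0 :: .inv 0 :: .mul 21 0 :: .add
    false 5 0 :: .smul (-1) 0 :: .smul 8 18 :: .smul (-1) 0 :: .exp 0 :: .var 3 :: .mul 1 0 :: .mul
    5 0 :: .add false 21 0 :: .smul 8 27 :: .mul 20 0 :: .smul (-1) 0 :: .exp 0 :: .smul 4 31 ::
    .mul 24 0 :: .sub true 40 9 :: .mul 1 0 :: .sub false 42 0 :: .mul 5 0 :: .var 2 :: .sub true 45
    0 :: .mul 2 0 :: .mul 15 0 :: prog1

def vs : List Vr := [⟨2, 0, false, true⟩, ⟨1, 0, false, true⟩, ⟨1, 0, false, true⟩, ⟨3, 0, true,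
    false⟩]

def C : Chart := ⟨vs, prog, [], 2, 3⟩

end Pool.Agent.Lib.MP_d6150d_an.BcR
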