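import Pool.Agent.Lib.MP_d6150d_an.BcCore

/-! The function `bcG` in three coordinate systems. -/

namespace Pool.Agent.Lib.MP_d6150d_an

open Real Set

variable {D F t : ℝ}

theorem bc_JR {d : ℝ} (hd : 0 ≤ d) (hd' : d ≤ 1 / 2) (t : ℝ) : t ∈ JR (-d) := by
  have := exp_pos t
  simp only [JR, om, mem_ofPred_eq]; nlinarith

theorem mBcR_eq (f a g b : ℝ) {m w : ℝ} (hm : m = 2 - 2 * a - g) (hw : w = g + f * a) :
    (mBcR f a g m w b).1 = mC0 0 f (a - 1) g ((a - 1) ^ 2) g b ∧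
    (mBcR f a g m w b).2.1 = -mC0 1 f (a - 1) g ((a - 1) ^ 2) g b ∧
    (mBcR f a g m w b).2.2.1 = mCU f (a - 1) g ((a - 1) ^ 3) ((a - 1) * g) (g ^ 2) b ∧
    (mBcR f a g m w b).2.2.2 = 4 * (a - 1) + 4 * (mBcR f a g m w b).1 - (mBcR f a g m w b).2.1 := by
  subst hm hw
  simp only [mBcR, mC0, mCU]
  push_cast
  refine ⟨?_, ?_, ?_, ?_⟩ <;> ring

theorem bc_centre {f qq rr al ga e d E xi yi mu z iW M a g b mm om v c R X S V k z0 z1 p h G0 u G1 : ℝ}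
    (hF : F ≠ 0) (ht : t ∈ JR D) (hf : f = F⁻¹) (hD : D = -d) (hE : E = exp (t / 2))
    (hxi : xi = exp (-(t / 2))) (hyi : yi = exp (-(F * t))) (hmu : mu = muR D F t)
    (hz : z = ph1 (t / 2)) (hiW : iW = (z * (1 + xi) / 2 * (1 + D - D * xi ^ 2))⁻¹)
    (hM : M = mu * yi ^ 2 * E * iW) (ha : a = F * t * M)
    (hg : g = M * iW * xi * (1 + 2 * D - 2 * D * xi ^ 2)) (hb : b = M * iW * D * xi ^ 3)
    (hmm : mm = 2 - 2 * a - g) (hom : om = g + t * M)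
    (hv : v = t ^ 2 * mu) (hc : c = F * (1 - F + 2 * d) / 3) (hR : R = (√(1 + c * v))⁻¹)
    (hX : X = 1 - R ^ 2) (hS : S = yi * R ^ 3) (hV : V = v * R ^ 2) (hk : k = mBcK F d)
    (hz0 : z0 = (mBcR f a g mm om b).1) (hz1 : z1 = (mBcR f a g mm om b).2.1)
    (hp : p = mBcP qq rr al c k X V) (hh : h = (mBcR f a g mm om b).2.2.2)
    (hG0 : G0 = v * ((qq + rr) * z0 + qq * z1 - S * p) - 16 * h)
    (hu : u = (mBcR f a g mm om b).2.2.1)
    (hG1 : G1 = ga * v ^ 2 * (u - 3 * S * R ^ 2 * (f - 1 - 5 * X))) :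
    G0 - e * G1 = exp (-(F * t)) * bcG D F qq rr al (e * ga) t := by
  obtain ⟨m0, m1, m2, m3⟩ := mBcR_eq f a g b hmm (hom.trans (by rw [hf, ha]; field_simp))
  rw [m3, ← hz0, ← hz1] at hh
  rw [m0] at hz0
  rw [m1] at hz1
  rw [m2] at hu
  by_cases h0 : t = 0
  · subst h0 hG1 hG0 hh hz0 hz1 hv hg hb ha hM hiW hz hmu hyi hxi hE
    simp [bcG, bcK, bcS, vR, TR_zero, muR_zero, ph1_zero, mC0]
  have E0 : E ≠ 0 := hE ▸ (exp_pos _).ne'
  have e1 : exp t = E ^ 2 := by rw [hE, sq, ← exp_add, add_halves]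
  have e2 : xi = E⁻¹ := by rw [hxi, hE, exp_neg]
  have e3 : exp ((2 - 2 * F) * t) = yi ^ 2 * E ^ 4 := by
    rw [hyi, hE, ← exp_nat_mul, ← exp_nat_mul, ← exp_add]; congr 1; push_cast; ring
  have e4 : t * z = 2 * (E - 1) := by rw [hz, hE, exp_eq_ph]; ring
  have e5 : wR D t = t * E ^ 3 * iW⁻¹ := by
    rw [hiW, inv_inv, wR_eq, MP_d6150d_an.om, e1, e2]
    have : t * E ^ 3 * (z * (1 + E⁻¹) / 2 * (1 + D - D * E⁻¹ ^ 2)) =
      t * z * (E ^ 3 * (1 + E⁻¹) / 2 * (1 + D - D * E⁻¹ ^ 2)) := by ring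
    rw [this, e4]; field_simp; ring
  have i0 : iW ≠ 0 := fun h ↦ wR_ne ht h0 (by rw [e5, h]; simp)
  have e6 : yR D F t = t ^ 2 * mu * (yi ^ 2 * E ^ 4) / 2 := by rw [yR, vR, e3, hmu]
  have e7 : exp (-(F * t)) * exp (F * t) = 1 := by rw [← exp_add]; simp
  rw [hf] at hz0 hz1
  have kk := bc_closed (q := qq) (r := rr) (la := e * ga) hF ht h0 (n := a - 1) (g := g) (b := b)
    (by rw [ha, hM, e5, e6]; field_simp)
    (by rw [hg, hM, e5, e6, QR, e1, e2]; field_simp)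
    (by rw [hb, hM, e5, e6, e2]; field_simp) hz0 hz1
  have ev : vR D F t = v := by rw [hv, hmu, vR]
  rw [bcG, kk, bcS, bcPi, ev, show F * (1 - F - 2 * D) / 3 = c by rw [hc, hD]; ring, ccR, ← hR, ← hX,
    ← hV, show -D = d by rw [hD, neg_neg], ← hk, ← hp, ← hf, ← hu, hG0, hG1, hh, hS, hV, ← hyi]
  rw [← hyi] at e7
  linear_combination -(v * ((qq + rr) * z0 + qq * z1 - e * ga * v * u) -
    16 * (4 * (a - 1) + 4 * z0 - z1)) * e7

theorem bc_right {f aa qq rr al ga e d ps si z q A0 B0 C0 ka iw Om N n H B g sH c ro X V k n2 bq n3 ng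
    gg bb S z0 z1 p G0 u G1 : ℝ} (hF : 0 < F) (hF' : F < 1 / 2) (hd : 0 ≤ d) (hd' : d ≤ 1 / 2)
    (h0 : 0 < t) (ea : aa = 1 - 2 * F) (hz : z = exp (-(2 * F * t)))
    (hsi : si = exp (-((1 - 4 * F) * t))) (hf : f = F⁻¹) (hps : ps = z * si) (hq : q = z * ps)
    (hA0 : A0 = (1 - d) * f / 2)
    (hB0 : B0 = (1 - 2 * d) / aa) (hC0 : C0 = d / (2 - 2 * F)) (hka : ka = -(A0 + B0 + C0))
    (hiw : iw = ((1 - q) * (1 - d + d * q))⁻¹)
    (hOm : Om = 2 * (A0 + ka * z + B0 * q + C0 * q ^ 2))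
    (hN : N = (2 * F * ka + B0 * ps + 2 * C0 * ps * q) * iw) (hn : n = z * N)
    (hH : H = f * (1 + n) * iw * (1 - 2 * d + 2 * d * q)) (hB : B = -(f * (1 + n) * iw * d * si))
    (hg : g = q * H) (hsH : sH = si * H) (hc : c = F * (1 - F + 2 * d) / 3)
    (hro : ro = (√(z + c * Om))⁻¹) (hX : X = 1 - z * ro ^ 2) (hV : V = Om * ro ^ 2)
    (hk : k = mBcK F d) (hn2 : n2 = N ^ 2) (hbq : bq = q * B) (hn3 : n3 = N ^ 3)
    (hng : ng = N * sH) (hgg : gg = ps * H * sH) (hbb : bb = ps * B) (hS : S = ro ^ 3)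
    (hz0 : z0 = (mBc0 f n g n2 sH bq).1) (hz1 : z1 = (mBc0 f n g n2 sH bq).2)
    (hp : p = mBcP qq rr al c k X V)
    (hG0 : G0 = Om * ((qq + rr) * z0 + qq * z1 - S * p) - 16 * (4 * N + z * (4 * z0 - z1)))
    (hu : u = mCU f n g n3 ng gg bb)
    (hG1 : G1 = ga * Om ^ 2 * (u - 3 * S * ro ^ 2 * (f - 1 - 5 * X))) (h : 0 < G0 - e * G1) :
    0 < bcG (-d) F qq rr al (e * ga) t := by
  have ht := bc_JR hd hd' t
  have s0 : 0 < si := hsi ▸ exp_pos _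
  have z0' : 0 < z := hz ▸ exp_pos _
  have p0 : 0 < ps := by rw [hps]; positivity
  have q0 : 0 < q := by rw [hq]; positivity
  have a0 : 0 < aa := by linarith
  have a2 : 0 < 2 - 2 * F := by linarith
  obtain ⟨y, hy⟩ : ∃ y, y = exp (F * t) := ⟨_, rfl⟩
  have y0 : 0 < y := hy ▸ exp_pos _
  have e0 : z = (y ^ 2)⁻¹ := by
    rw [hz, hy, ← exp_nat_mul, ← exp_neg]; congr 1; push_cast; ring
  have e1 : exp t = q⁻¹ := by
    rw [hq, hps, hz, hsi, ← exp_add, ← exp_add, ← exp_neg]; congr 1; ring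
  have e2 : exp (2 * F * t) = z⁻¹ := by rw [hz, exp_neg, inv_inv]
  have e3 : exp ((2 * F - 1) * t) = ps := by rw [hps, hz, hsi, ← exp_add]; congr 1; ring
  have e4 : exp ((2 * F - 2) * t) = ps * q := by
    rw [hq, hps, hz, hsi, ← exp_add, ← exp_add, ← exp_add]; congr 1; ring
  have e5 : exp ((2 - 2 * F) * t) = (ps * q)⁻¹ := by rw [← e4, ← exp_neg]; congr 1; ring
  have ev : vR (-d) F t = Om / z := by
    rw [cc_vR_exp hF.ne' (ea ▸ a0.ne') a2.ne', e2, e3, e4, hOm, hka, hA0, hB0, hC0, hf, ← ea, hq]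
    field_simp; ring
  have e6 : wR (-d) t = (q ^ 2 * iw)⁻¹ := by
    rw [hiw, mul_inv, inv_inv, wR_eq, om, e1]; field_simp; ring
  have i0 : iw ≠ 0 := fun h ↦ wR_ne ht h0.ne' (by rw [e6, h]; simp)
  have e7 : 1 + n = F * Om * iw := by
    have : iw * ((1 - q) * (1 - d + d * q)) = 1 := by
      rw [hiw]; exact inv_mul_cancel₀ fun h ↦ i0 (by rw [hiw, h, inv_zero])
    have A : 2 * F * A0 = 1 - d := by rw [hA0, hf]; field_simp
    have B : (1 - 2 * F) * B0 = 1 - 2 * d := by rw [hB0, ← ea, mul_div_cancel₀ _ a0.ne']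
    have C : (2 - 2 * F) * C0 = d := by rw [hC0, mul_div_cancel₀ _ a2.ne']
    rw [hn, hN, hOm]
    linear_combination -this + iw * q * B + iw * q ^ 2 * C - iw * A - iw * (B0 + 2 * C0 * q) * hq
  have e8 : yR (-d) F t = Om / q ^ 2 / 2 := by rw [yR, ev, e5, hq]; field_simp
  have m0 := fun be ↦ mC0_smul be f n g (z ^ 2 * bq) (z ^ 2)⁻¹
  have m1 := mCU_smul f n g (z ^ 2 * bq) (z ^ 3)⁻¹
  rw [show (z ^ 2)⁻¹ * n ^ 2 = n2 by rw [hn2, hn]; field_simp,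
    show (z ^ 2)⁻¹ * g = sH by rw [hg, hsH, hq, hps]; field_simp,
    show (z ^ 2)⁻¹ * (z ^ 2 * bq) = bq by field_simp] at m0
  rw [show (z ^ 3)⁻¹ * n ^ 3 = n3 by rw [hn3, hn]; field_simp,
    show (z ^ 3)⁻¹ * (n * g) = ng by rw [hng, hn, hg, hsH, hq, hps]; field_simp,
    show (z ^ 3)⁻¹ * g ^ 2 = gg by rw [hgg, hg, hsH, hq, hps]; field_simp,
    show (z ^ 3)⁻¹ * (z ^ 2 * bq) = bb by rw [hbb, hbq, hq]; field_simp, ← hu, hf] at m1
  rw [(mBc0_eq ..).1, m0, hf] at hz0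
  rw [(mBc0_eq ..).2, m0, hf] at hz1
  have kk := bc_closed (q := qq) (r := rr) (la := e * ga) hF.ne' ht h0.ne' (n := n) (g := g)
    (b := z ^ 2 * bq) (z0 := z ^ 2 * z0) (z1 := z ^ 2 * z1)
    (by rw [e6, e8, eq_sub_iff_add_eq', e7]; field_simp)
    (by rw [hg, hH, e7, e6, e8, QR, e1, hf]; field_simp; ring)
    (by rw [hbq, hB, e7, e6, e8, hf, hq, hps]; field_simp)
    (by rw [hz0]; field_simp) (by rw [hz1]; field_simp)
  have eR : ccR c (Om / z) = ro / y := by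
    rw [ccR, hro, show 1 + c * (Om / z) = y ^ 2 * (z + c * Om) by rw [e0]; field_simp,
      sqrt_mul (sq_nonneg _), sqrt_sq y0.le, mul_inv, div_eq_inv_mul]
  have eU : mCU F⁻¹ n g (n ^ 3) (n * g) (g ^ 2) (z ^ 2 * bq) = z ^ 3 * u := by rw [m1]; field_simp
  have : bcG (-d) F qq rr al (e * ga) t = y * z * (G0 - e * G1) := by
    rw [bcG, kk, bcS, bcPi, ev, show F * (1 - F - 2 * -d) / 3 = c by rw [hc]; ring, eR, ← hy, eU,
      show 1 - (ro / y) ^ 2 = X by rw [hX, e0]; field_simp,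
      show Om / z * (ro / y) ^ 2 = V by rw [hV, e0]; field_simp, neg_neg, ← hk, ← hp, ← hf,
      hG0, hG1, hS, hV, hn, e0]
    field_simp; ring
  rw [this]; positivity

theorem bcPi_nn {F d q r al la c X V : ℝ} (hF : 23 / 100 ≤ F) (hF' : F ≤ 1 / 4) (hd : 0 ≤ d)
    (hd' : d ≤ 1 / 64) (q1 : q ≤ 4 / 5) (r0 : 0 ≤ q + r) (a1 : al ≤ 1 / 4)
    (l0 : 0 ≤ la) (l1 : la ≤ 1 / 400) (hc : c = F * (1 - F + 2 * d) / 3) (X1 : X ≤ 1) (V0 : 0 ≤ V)
    (hX : X = c * V) : 0 ≤ bcPi q r al la c (mBcK F d) F⁻¹ X V := by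
  have c0 : 1 / 18 ≤ c := by rw [hc]; nlinarith
  have X0 : 0 ≤ X := by rw [hX]; positivity
  have V1 : V ≤ 18 := by nlinarith
  have f1 : F⁻¹ ≤ 5 := (inv_le_comm₀ (by linarith) (by norm_num)).2 (by linarith)
  have k1 : mBcK F d ≤ 1 / 60 := by
    have h1 : (1 - 4 * F) * (1 - F) * (2 - 11 * F) ≤ 0 :=
      mul_nonpos_of_nonneg_of_nonpos (mul_nonneg (by linarith) (by linarith)) (by linarith)
    have h2 : d * (3 - 21 * F + 126 * (F * F) - d * (30 + 210 * F - 160 * d)) ≤ 1 / 64 * 11 := by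
      refine (mul_le_mul_of_nonneg_left (?_ : _ ≤ (11 : ℝ)) hd).trans (by linarith)
      nlinarith [mul_nonneg hd (by linarith : 0 ≤ 30 + 210 * F - 160 * d)]
    simp only [mBcK]
    push_cast
    nlinarith
  have h1 : mBcK F d * V ≤ 1 / 60 * 18 := (mul_le_mul_of_nonneg_right k1 V0).trans (by linarith)
  have h2 : la * V * (F⁻¹ - 1 - 5 * X) ≤ 1 / 400 * 18 * 4 :=
    (mul_le_mul_of_nonneg_left (c := 4) (by linarith) (mul_nonneg l0 V0)).trans (by gcongr)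
  have h3 : al * (X * X) ≤ 1 / 4 * (1 * X) := by gcongr
  have h4 : q * X ≤ 4 / 5 * X := by gcongr
  have h5 : 1 / 18 * X ≤ c * X := by gcongr
  simp only [bcPi, mBcP]
  push_cast
  linarith

theorem bc_left {f aa qq rr al ga nu d s ph r pc ch r2 A0 B0 i2 Om W iw N0 H0 iq a g mm om b c ro X
    S V k z0 z1 p h G0 u G1 zr : ℝ} (hF : 23 / 100 ≤ F) (hF' : F ≤ 1 / 4) (hd : 0 ≤ d)
    (hd' : d ≤ 1 / 64) (h0 : t < 0) (q1 : qq ≤ 4 / 5) (q2 : 0 ≤ qq + rr)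
    (al1 : al ≤ 1 / 4) (l0 : 0 ≤ nu * ph * ga) (l1 : nu * ph * ga ≤ 1 / 400)
    (ea : aa = 1 - 2 * F) (hs : s = exp t) (hph : ph = exp (aa * t)) (r0 : 0 < r)
    (hpc : d * r ^ 2 = pc * s) (hch : ch ≤ exp ((3 / 2 - 4 * F) * t)) (hf : f = F⁻¹)
    (hr2 : r2 = r ^ 2) (hA0 : A0 = (1 - d) * f / 2) (hB0 : B0 = (1 - 2 * d) / aa)
    (hi2 : i2 = (2 - 2 * F)⁻¹)
    (hOm : Om = 2 * (r2 * (A0 * (s - ph) + B0 * (1 - ph) - d * ph * i2) + pc * i2))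
    (hW : W = (1 - s) * (r2 * (1 - d) + pc)) (hiw : iw = W⁻¹) (hN0 : N0 = F * Om)
    (hH0 : H0 = Om * (r2 * (1 - 2 * d) + 2 * pc)) (hiq : iq = iw ^ 2) (ha : a = -(N0 * iw))
    (hg : g = iq * H0) (hmm : mm = iq * (2 * W * (W + N0) - H0))
    (hom : om = iq * (Om * (pc + s * r2 * (1 - d)))) (hb : b = -(iq * (Om * pc)))
    (hc : c = F * (1 - F + 2 * d) / 3) (hzr : zr = (√(r2 * ph + c * Om))⁻¹) (hro : ro = r * zr)
    (hX : X = 1 - ph * ro ^ 2) (hS : S = ch * ro ^ 3) (hV : V = Om * zr ^ 2) (hk : k = mBcK F d)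
    (hz0 : z0 = (mBcR f a g mm om b).1) (hz1 : z1 = (mBcR f a g mm om b).2.1)
    (hp : p = mBcP qq rr al c k X V) (hh : h = (mBcR f a g mm om b).2.2.2)
    (hG0 : G0 = Om * ((qq + rr) * z0 + qq * z1 - S * p) - 16 * r2 * ph * h)
    (hu : u = (mBcR f a g mm om b).2.2.1)
    (hG1 : G1 = ga * Om ^ 2 * (u - 3 * S * ph * ro ^ 2 * (f - 1 - 5 * X)))
    (hy : 0 < nu * G1 - r2 * G0) : bcG (-d) F qq rr al (nu * ph * ga) t < 0 := by
  have ht := bc_JR hd (hd'.trans (by norm_num)) t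
  have F0 : 0 < F := by linarith
  have p0 : 0 < ph := hph ▸ exp_pos _
  have s0 : 0 < s := hs ▸ exp_pos _
  have a0 : 0 < aa := by linarith
  have a2 : 0 < 2 - 2 * F := by linarith
  obtain rfl : pc = d * r ^ 2 / s := by rw [hpc]; field_simp
  obtain ⟨y, hy'⟩ : ∃ y, y = exp (aa * t / 2) := ⟨_, rfl⟩
  have y0 : 0 < y := hy' ▸ exp_pos _
  have e0 : ph = y ^ 2 := by rw [hph, hy', sq, ← exp_add, add_halves]
  have e2 : exp (2 * F * t) = s / ph := by rw [hs, hph, ← exp_sub, ea]; congr 1; ring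
  have e3 : exp ((2 * F - 1) * t) = ph⁻¹ := by rw [hph, ← exp_neg, ea]; congr 1; ring
  have e5 : exp ((2 - 2 * F) * t) = s * ph := by rw [hs, hph, ← exp_add, ea]; congr 1; ring
  have e4 : exp ((2 * F - 2) * t) = (s * ph)⁻¹ := by rw [← e5, ← exp_neg]; congr 1; ring
  have ev : vR (-d) F t = Om / (r ^ 2 * ph) := by
    rw [cc_vR_exp F0.ne' (ea ▸ a0.ne') a2.ne', e2, e3, e4, hOm, hA0, hB0, hi2, hf, hr2, ← ea]
    field_simp; ring
  have e6 : wR (-d) t = -(s / r ^ 2 * iw⁻¹) := by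
    rw [hiw, inv_inv, hW, wR_eq, MP_d6150d_an.om, ← hs, hr2]; field_simp; ring
  have i0 : iw ≠ 0 := fun h ↦ wR_ne ht h0.ne (by rw [e6, h]; simp)
  have e8 : yR (-d) F t = Om * s / r ^ 2 / 2 := by rw [yR, ev, e5]; field_simp
  have W1 : W = iw⁻¹ := by rw [hiw, inv_inv]
  obtain ⟨m0, m1, m2, m3⟩ := mBcR_eq f a g b (m := mm) (w := om)
    (by rw [hmm, hg, ha, hiq, W1]; field_simp; ring) (by
      have h1 : iw * W = 1 := by rw [W1, mul_inv_cancel₀ i0]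
      have h2 : f * F = 1 := by rw [hf, inv_mul_cancel₀ F0.ne']
      have h3 : d * r ^ 2 / s + s * r2 * (1 - d) = r2 * (1 - 2 * d) + 2 * (d * r ^ 2 / s) - W := by
        rw [hW, hr2]; field_simp; ring
      rw [hom, hg, ha, hiq, hH0, hN0, h3]
      linear_combination -(Om * iw) * h1 + Om * iw * h2)
  rw [m3, ← hz0, ← hz1] at hh
  rw [m0, hf] at hz0
  rw [m1, hf] at hz1
  rw [m2] at hu
  have kk := bc_closed (q := qq) (r := rr) (la := nu * ph * ga) F0.ne' ht h0.ne (n := a - 1)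
    (g := g) (b := b) (by rw [e6, e8, ha, hN0]; field_simp)
    (by rw [hg, hiq, hH0, e6, e8, QR, ← hs, hr2]; field_simp; ring)
    (by rw [hb, hiq, e6, e8]; field_simp) hz0 hz1
  have eR : ccR c (Om / (r ^ 2 * ph)) = y * ro := by
    rw [ccR, hro, hzr, show 1 + c * (Om / (r ^ 2 * ph)) = (r * y)⁻¹ ^ 2 * (r2 * ph + c * Om) by
      rw [hr2, e0]; field_simp, sqrt_mul (sq_nonneg _), sqrt_sq (by positivity), mul_inv, inv_inv]
    ring
  have c0 : 0 ≤ c := by rw [hc]; nlinarith only [hF, hF', hd]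
  have v0 := cc_vR_nn (F := F) ht
  rw [ev] at v0
  have q3 := ccR_sq (c := c) (v := Om / (r ^ 2 * ph)) (by positivity)
  rw [eR] at q3
  have eV : Om / (r ^ 2 * ph) * (y * ro) ^ 2 = V := by rw [hV, hro, e0]; field_simp
  have P := bcPi_nn (X := X) (V := V) hF hF' hd hd' q1 q2 al1 l0 l1 hc
    (by rw [hX]; linarith only [mul_nonneg p0.le (sq_nonneg ro)]) (by rw [← eV]; positivity)
    (by rw [hX, ← eV]; linear_combination -q3 - ro ^ 2 * e0)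
  have ro0 : 0 ≤ ro := by rw [hro, hzr]; positivity
  have e9 : y ^ 3 = exp (F * t) * exp ((3 / 2 - 4 * F) * t) := by
    rw [hy', ← exp_nat_mul, ← exp_add, ea]; congr 1; push_cast; ring
  have w := mul_nonneg (mul_nonneg v0 (mul_nonneg (sub_nonneg.2 hch) (pow_nonneg ro0 3))) P
  have : bcG (-d) F qq rr al (nu * ph * ga) t = -(exp (F * t) * ((nu * G1 - r2 * G0) / (r ^ 4 * ph) +
      Om / (r ^ 2 * ph) * ((exp ((3 / 2 - 4 * F) * t) - ch) * ro ^ 3) *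
        bcPi qq rr al (nu * ph * ga) c (mBcK F d) F⁻¹ X V)) := by
    rw [bcG, kk, bcS, ev, show F * (1 - F - 2 * -d) / 3 = c by rw [hc]; ring, eR, eV,
      mul_pow y ro 3, e9, show 1 - (y * ro) ^ 2 = X by rw [hX, e0]; ring, neg_neg, bcPi, ← hk, ← hp,
      ← hf, ← hu, hG0, hG1, hh, hS, hr2, hV, hro]
    field_simp; ring
  rw [this, neg_lt_zero]
  have := exp_pos (F * t)
  positivity

theorem bc_iso (q r la t : ℝ) : bcG 0 (1 / 4) q r 0 la t = 0 := by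
  by_cases h0 : t = 0
  · simp [h0, bcG, bcK, bcS, vR, TR_zero]
  have ht : t ∈ JR 0 := by simpa [JR, om] using exp_pos t
  obtain ⟨y, hy⟩ : ∃ y, y = exp (1 / 4 * t) := ⟨_, rfl⟩
  have y0 : 0 < y := hy ▸ exp_pos _
  have e1 : exp t = y ^ 4 := by rw [hy, ← exp_nat_mul]; congr 1; push_cast; ring
  have e2 : exp (2 * (1 / 4) * t) = y ^ 2 := by rw [hy, ← exp_nat_mul]; congr 1; push_cast; ring
  have e3 : exp ((2 * (1 / 4) - 1) * t) = (y ^ 2)⁻¹ := by rw [← e2, ← exp_neg]; congr 1; ring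
  have e5 : exp ((2 - 2 * (1 / 4)) * t) = y ^ 6 := by
    rw [hy, ← exp_nat_mul]; congr 1; push_cast; ring
  have ev : vR 0 (1 / 4) t = 4 * (y ^ 2 - 1) ^ 2 / y ^ 2 := by
    rw [cc_vR_exp (by norm_num) (by norm_num) (by norm_num), e2, e3]; field_simp; ring
  have e6 : wR 0 t = y ^ 4 * (y ^ 2 - 1) * (y ^ 2 + 1) := by rw [wR_eq, om, e1]; ring
  have y1 : y ^ 2 - 1 ≠ 0 := fun h ↦ wR_ne ht h0 (by rw [e6, h]; ring)
  have k := bc_closed (q := q) (r := r) (la := la) (F := 1 / 4) (by norm_num) ht h0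
    (n := -2 / (y ^ 2 + 1)) (g := 4 / (y ^ 2 + 1) ^ 2) (b := 0)
    (by rw [yR, ev, e5, e6]; field_simp; ring) (by rw [yR, ev, e5, e6, QR, e1]; field_simp; ring)
    (by ring) rfl rfl
  have eR : ccR (1 / 4 * (1 - 1 / 4 - 2 * 0) / 3) (4 * (y ^ 2 - 1) ^ 2 / y ^ 2) =
      2 * y / (y ^ 2 + 1) := by
    rw [ccR, show 1 + 1 / 4 * (1 - 1 / 4 - 2 * 0) / 3 * (4 * (y ^ 2 - 1) ^ 2 / y ^ 2) =
      ((y ^ 2 + 1) / (2 * y)) ^ 2 by field_simp; ring, sqrt_sq (by positivity), inv_div]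
  rw [bcG, k, bcS, ev, eR, ← hy]
  simp only [bcPi, mBcP, mBcK, mC0, mCU]
  push_cast
  field_simp
  ring

theorem bc_right_iso {f aa qq rr al ga d ps si z q A0 B0 C0 ka iw Om N n H B g sH c ro X V k n2 bq n3
    ng gg bb S z0 z1 p G0 u G1 : ℝ} (eF : F = 1 / 4) (ea : aa = 1 / 2) (ed : d = 0) (es : si = 1)
    (el : al = 0) (p0 : 0 ≤ z) (p1 : z < 1) (hf : f = F⁻¹) (hps : ps = z * si) (hq : q = z * ps)
    (hA0 : A0 = (1 - d) * f / 2)
    (hB0 : B0 = (1 - 2 * d) / aa) (hC0 : C0 = d / (2 - 2 * F)) (hka : ka = -(A0 + B0 + C0))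
    (hiw : iw = ((1 - q) * (1 - d + d * q))⁻¹)
    (hOm : Om = 2 * (A0 + ka * z + B0 * q + C0 * q ^ 2))
    (hN : N = (2 * F * ka + B0 * ps + 2 * C0 * ps * q) * iw) (hn : n = z * N)
    (hH : H = f * (1 + n) * iw * (1 - 2 * d + 2 * d * q)) (hB : B = -(f * (1 + n) * iw * d * si))
    (hg : g = q * H) (hsH : sH = si * H) (hc : c = F * (1 - F + 2 * d) / 3)
    (hro : ro = (√(z + c * Om))⁻¹) (hX : X = 1 - z * ro ^ 2) (hV : V = Om * ro ^ 2)
    (hk : k = mBcK F d) (hn2 : n2 = N ^ 2) (hbq : bq = q * B) (hn3 : n3 = N ^ 3)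
    (hng : ng = N * sH) (hgg : gg = ps * H * sH) (hbb : bb = ps * B) (hS : S = ro ^ 3)
    (hz0 : z0 = (mBc0 f n g n2 sH bq).1) (hz1 : z1 = (mBc0 f n g n2 sH bq).2)
    (hp : p = mBcP qq rr al c k X V)
    (hG0 : G0 = Om * ((qq + rr) * z0 + qq * z1 - S * p) - 16 * (4 * N + z * (4 * z0 - z1)))
    (hu : u = mCU f n g n3 ng gg bb)
    (hG1 : G1 = ga * Om ^ 2 * (u - 3 * S * ro ^ 2 * (f - 1 - 5 * X))) : G0 = 0 ∧ G1 = 0 := by
  subst eF ea ed es el hf hps hq hA0 hB0 hC0 hka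
  have h1 : 1 - z ≠ 0 := by linarith
  have h2 : 1 + z ≠ 0 := by linarith
  replace hiw : iw = ((1 - z) * (1 + z))⁻¹ := by rw [hiw]; congr 1; ring
  replace hN : N = -2 / (1 + z) := by rw [hN, hiw]; field_simp; ring
  replace hH : H = 4 / (1 + z) ^ 2 := by rw [hH, hn, hN, hiw]; field_simp; ring
  replace hOm : Om = 4 * (1 - z) ^ 2 := by rw [hOm]; ring
  replace hro : ro = 2 / (1 + z) := by
    rw [hro, show z + c * Om = ((1 + z) / 2) ^ 2 by rw [hc, hOm]; ring,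
      sqrt_sq (by positivity), inv_div]
  subst hG1 hG0 hz0 hz1 hu hp hS hbb hgg hng hn3 hbq hn2 hk hV hX hc hsH hg hB hn hro hH hN hOm
  simp only [mBc0, mCU, mBcP, mBcK]
  push_cast
  constructor
  · field_simp; ring
  · refine mul_eq_zero_of_right _ ?_
    field_simp; ring

theorem bc_left_iso {f aa qq rr al ga d s ph r pc ch r2 A0 B0 i2 Om W iw N0 H0 iq a g mm om b c ro X
    S V k z0 z1 p h G0 u G1 zr : ℝ} (eF : F = 1 / 4) (ea : aa = 1 / 2) (ed : d = 0) (ep : pc = 0)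
    (er : r = 1) (el : al = 0) (es : s = ph ^ 2) (ec : ch = ph) (p0 : 0 ≤ ph) (p1 : ph < 1)
    (hf : f = F⁻¹) (hr2 : r2 = r ^ 2) (hA0 : A0 = (1 - d) * f / 2) (hB0 : B0 = (1 - 2 * d) / aa)
    (hi2 : i2 = (2 - 2 * F)⁻¹)
    (hOm : Om = 2 * (r2 * (A0 * (s - ph) + B0 * (1 - ph) - d * ph * i2) + pc * i2))
    (hW : W = (1 - s) * (r2 * (1 - d) + pc)) (hiw : iw = W⁻¹) (hN0 : N0 = F * Om)
    (hH0 : H0 = Om * (r2 * (1 - 2 * d) + 2 * pc)) (hiq : iq = iw ^ 2) (ha : a = -(N0 * iw))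
    (hg : g = iq * H0) (hmm : mm = iq * (2 * W * (W + N0) - H0))
    (hom : om = iq * (Om * (pc + s * r2 * (1 - d)))) (hb : b = -(iq * (Om * pc)))
    (hc : c = F * (1 - F + 2 * d) / 3) (hzr : zr = (√(r2 * ph + c * Om))⁻¹) (hro : ro = r * zr)
    (hX : X = 1 - ph * ro ^ 2) (hS : S = ch * ro ^ 3) (hV : V = Om * zr ^ 2) (hk : k = mBcK F d)
    (hz0 : z0 = (mBcR f a g mm om b).1) (hz1 : z1 = (mBcR f a g mm om b).2.1)
    (hp : p = mBcP qq rr al c k X V) (hh : h = (mBcR f a g mm om b).2.2.2)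
    (hG0 : G0 = Om * ((qq + rr) * z0 + qq * z1 - S * p) - 16 * r2 * ph * h)
    (hu : u = (mBcR f a g mm om b).2.2.1)
    (hG1 : G1 = ga * Om ^ 2 * (u - 3 * S * ph * ro ^ 2 * (f - 1 - 5 * X))) : G0 = 0 ∧ G1 = 0 := by
  subst eF ea ed ep er el es hf hr2 hA0 hB0 hN0 hH0 hiq
  have h1 : 1 - ph ≠ 0 := by linarith
  have h2 : 1 + ph ≠ 0 := by linarith
  replace hW : W = (1 - ph) * (1 + ph) := by rw [hW]; ring
  replace hOm : Om = 4 * (1 - ph) ^ 2 := by rw [hOm]; ring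
  replace ha : a = -(1 - ph) / (1 + ph) := by rw [ha, hiw, hW, hOm]; field_simp
  replace hg : g = 4 / (1 + ph) ^ 2 := by rw [hg, hiw, hW, hOm]; field_simp; ring
  replace hmm : mm = 4 * ph / (1 + ph) ^ 2 := by rw [hmm, hiw, hW, hOm]; field_simp; ring
  replace hom : om = 4 * ph ^ 2 / (1 + ph) ^ 2 := by rw [hom, hiw, hW, hOm]; field_simp; ring
  replace hzr : zr = 2 / (1 + ph) := by
    rw [hzr, show 1 ^ 2 * ph + c * Om = ((1 + ph) / 2) ^ 2 by rw [hc, hOm]; ring,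
      sqrt_sq (by positivity), inv_div]
  subst hG1 hG0 hz0 hz1 hu hh hp hS hk hV hX hc hb ha hro hzr hg hmm hom hOm
  simp only [mBcR, mBcP, mBcK, ec]
  push_cast
  constructor
  · field_simp; ring
  · refine mul_eq_zero_of_right _ ?_
    field_simp; ring

end Pool.Agent.Lib.MP_d6150d_an
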