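import Pool.Agent.Lib.MP_d6150d_an.SchMain

/-! The four isochronous centers. -/

namespace Pool.Agent.Lib.MP_d6150d_an

open Real Set Filter Topology intervalIntegral

variable {D F : ℝ}

variable (D F) in
/-- the derivative of `uR` is one plus an odd function of `gR` -/
def IsoC : Prop := ∀ a ∈ JR D, ∀ b ∈ JR D, gR D F a = -gR D F b →
  Dg D F (uR F) a + Dg D F (uR F) b = 2

theorem IsoC.av (C : IsoC D F) {R r : ℝ} (H : Rng D F R) (hr : |r| < R) :
    Av D F (Dg D F (uR F)) r = 2 * π := by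
  have hf : AnJ D (Dg D F (uR F)) := AnJ.u.dg
  have hr' : |-r| < R := by rwa [abs_neg]
  have c1 := H.icont hf hr
  have c2 := H.icont hf hr'
  have e2 := integral_comp_add_right (a := 0) (b := π)
    (fun θ ↦ Dg D F (uR F) (XR D F (r * cos θ))) π
  rw [zero_add, ← two_mul] at e2
  rw [Av, ← integral_add_adjacent_intervals (b := π) (c1.intervalIntegrable _ _)
    (c1.intervalIntegrable _ _), ← e2]
  simp only [cos_add_pi, mul_neg, ← neg_mul]
  rw [← integral_add (c1.intervalIntegrable _ _) (c2.intervalIntegrable _ _),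
    integral_congr (g := fun _ ↦ 2) fun θ _ ↦ C _ (H.mem (abs_mul_cos hr θ)) _
      (H.mem (abs_mul_cos hr' θ)) (by
        rw [H.eq (abs_mul_cos hr θ), H.eq (abs_mul_cos hr' θ)]; ring)]
  simp [mul_comm]

theorem IsoC.const (C : IsoC D F) (Per : ℝ → ℝ → Prop)
    (hPer : ∀ u τ : ℝ, Per u τ ↔ (0 < τ ∧ ∃ γ : ℝ → ℝ × ℝ,
        (∀ t : ℝ, HasDerivAt γ (-(γ t).2 + (γ t).1 * (γ t).2,
            (γ t).1 + D * (γ t).1 ^ 2 + F * (γ t).2 ^ 2) t) ∧
        γ 0 = (u, 0) ∧ γ τ = (u, 0) ∧ ∀ t ∈ Set.Ioo (0:ℝ) τ, γ t ≠ (u, 0)))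
    (Ann : Set ℝ) (hAnn : ∀ s : ℝ, s ∈ Ann ↔ (0 < s ∧ ∀ u ∈ Set.Ioc (0:ℝ) s, ∃ τ : ℝ, Per u τ))
    (T : ℝ → ℝ) (hT : ∀ s ∈ Ann, Per s (T s)) : ∃ c : ℝ, ∀ s ∈ Ann, T s = c := by
  have per : ∀ u τ, Per u τ → PerR D F u τ := fun u τ h ↦ by
    obtain ⟨h0, γ, h1, h2, h3, h4⟩ := (hPer _ _).1 h
    exact ⟨h0, fun t ↦ (γ t).1, fun t ↦ (γ t).2,
      ⟨fun t ↦ (ContinuousLinearMap.fst ℝ ℝ ℝ).hasFDerivAt.comp_hasDerivAt t (h1 t),
        fun t ↦ (ContinuousLinearMap.snd ℝ ℝ ℝ).hasFDerivAt.comp_hasDerivAt t (h1 t)⟩,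
      by simp [h2], by simp [h2], by simp [h3], by simp [h3],
      fun t ht e1 e2 ↦ h4 t ht (Prod.ext e1 e2)⟩
  refine ⟨2 * π, fun s hs ↦ ?_⟩
  obtain ⟨s0, h⟩ := (hAnn s).1 hs
  have s1 : s < 1 := by
    by_contra h'
    obtain ⟨τ, hτ⟩ := h 1 ⟨one_pos, not_lt.1 h'⟩
    exact not_per_one (per _ _ hτ)
  have hJ : 0 < 1 + D * s := by
    by_contra h'
    have hD : D < 0 := by by_contra h''; nlinarith
    have h1 : -1 / D ≤ s := by rw [div_le_iff_of_neg hD]; linarith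
    obtain ⟨τ, hτ⟩ := h (-1 / D) ⟨div_pos_of_neg_of_neg (by norm_num) hD, h1⟩
    refine not_per_equil ?_ (per _ _ hτ)
    have := hD.ne
    field_simp; ring
  have P := per _ _ (hT s hs)
  obtain ⟨m, d, d1, d2, d3⟩ := P.pair s0 s1 hJ
  have b0 : 0 < -log (1 - s) := neg_pos.2 (log_neg (by linarith) (by linarith))
  obtain ⟨R, hR, H⟩ := rng_of_pair d1 m d2 b0 d3
  rw [P.eq s0 s1 hJ H hR]
  exact C.av H (by rwa [abs_of_pos (gR_pos m b0)])

theorem gR_of {G G' : ℝ → ℝ} (hG : ∀ t, HasDerivAt G (G' t) t) (h0 : G 0 = 0)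
    (hp : ∀ t, 0 < G' t) (hW : ∀ t, WR D F t = 2 * G t * G' t) {t : ℝ} (ht : t ∈ JR D) :
    gR D F t = G t ∧ Dg D F (uR F) t = exp (F * t) / G' t := by
  have h1 : ∀ t, HasDerivAt (fun t ↦ vR D F t - G t ^ 2) 0 t := fun t ↦
    ((hasDerivAt_vR D F t).sub ((hG t).pow 2)).congr_deriv (by rw [hW]; simp)
  have h2 := is_const_of_deriv_eq_zero (fun t ↦ (h1 t).differentiableAt) (fun t ↦ (h1 t).deriv)
  have hm := strictMono_of_deriv_pos (f := G) fun t ↦ by rw [(hG t).deriv]; exact hp t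
  have key : ∀ s ∈ JR D, gR D F s = G s := fun s hs ↦ by
    have h3 := h2 s 0
    simp only [h0, vR, ne_eq, OfNat.ofNat_ne_zero, not_false_eq_true, zero_pow, zero_mul,
      sub_zero] at h3
    have h4 : gR D F s ^ 2 = G s ^ 2 := by rw [gR_sq hs, vR]; linarith
    rcases lt_trichotomy s 0 with h | rfl | h
    · have := gR_neg (F := F) hs h
      have : G s < 0 := h0 ▸ hm h
      nlinarith
    · simp [gR, h0]
    · exact (sq_eq_sq₀ (gR_pos hs h).le (h0 ▸ hm h : 0 < G s).le).1 h4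
  refine ⟨key t ht, ?_⟩
  have := (hG t).congr_of_eventuallyEq (f₁ := gR D F)
    (by filter_upwards [(JR_open D).mem_nhds ht] with s hs using key s hs)
  rw [Dg, (hasDerivAt_uR t).deriv, this.deriv]

theorem isoC_lin (hF : F ≠ 0) (h : ∀ t, F * sφ D F t = exp (F * t) - 1) : IsoC D F := by
  have key : ∀ t ∈ JR D, Dg D F (uR F) t = 1 := fun t ht ↦ by
    rw [(gR_of (G := uR F) hasDerivAt_uR (by simp [uR]) (fun _ ↦ exp_pos _) (fun t ↦ ?_) ht).2,
      div_self (exp_pos _).ne']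
    have : sφ D F t = uR F t := mul_left_cancel₀ hF (by rw [h, uR, exp_eq_ph (F * t)]; ring)
    rw [WR_eq, this]; ring
  intro a ha b hb _
  rw [key a ha, key b hb]; norm_num

theorem isoC_sym (hF : 0 < F) (h : ∀ t, 4 * F * sφ D F t = exp (F * t) - (exp (F * t))⁻¹ ^ 3) :
    IsoC D F := by
  have hG : ∀ t, HasDerivAt (fun t ↦ (exp (F * t) - (exp (F * t))⁻¹) / (2 * F))
      ((exp (F * t) + (exp (F * t))⁻¹) / 2) t := fun t ↦
    (((dey t).sub ((dey t).inv (exp_pos _).ne')).div_const _).congr_deriv (by field_simp; ring)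
  have key := fun t (ht : t ∈ JR D) ↦ gR_of (F := F) hG (by simp) (fun _ ↦ by positivity)
    (fun t ↦ by
      have := (exp_pos (F * t)).ne'
      rw [WR_eq, eq_div_of_mul_eq (by positivity) ((mul_comm _ _).trans (h t))]
      field_simp; ring) ht
  intro a ha b hb e
  rw [(key a ha).1, (key b hb).1] at e
  rw [(key a ha).2, (key b hb).2]
  have pa := exp_pos (F * a)
  have pb := exp_pos (F * b)
  generalize exp (F * a) = x at *
  generalize exp (F * b) = y at *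
  have h1 : (x * y - 1) * (x + y) = 0 := by field_simp at e; linarith
  have h2 : y = x⁻¹ :=
    eq_inv_of_mul_eq_one_right (by linarith [(mul_eq_zero.1 h1).resolve_right (by positivity)])
  subst h2
  field_simp; ring

theorem isoC_of (h : (D = 0 ∧ F = 1) ∨ (D = -1 / 2 ∧ F = 2) ∨ (D = 0 ∧ F = 1 / 4) ∨
    (D = -1 / 2 ∧ F = 1 / 2)) : IsoC D F := by
  rcases h with ⟨rfl, rfl⟩ | ⟨rfl, rfl⟩ | ⟨rfl, rfl⟩ | ⟨rfl, rfl⟩
  · refine isoC_lin one_ne_zero fun t ↦ ?_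
    simp only [sφ, sv1, one_mul, exp_neg]
    field_simp; ring
  · refine isoC_lin two_ne_zero fun t ↦ ?_
    simp only [sφ, sv1, exp_neg, two_mul t, exp_add]
    field_simp; ring
  · refine isoC_sym (by norm_num) fun t ↦ ?_
    have : exp (-t) = (exp (1 / 4 * t))⁻¹ ^ 4 := by
      rw [← exp_neg, ← exp_nat_mul]; congr 1; ring
    simp only [sφ, sv1, this]
    field_simp; ring
  · refine isoC_sym (by norm_num) fun t ↦ ?_
    have : exp (-t) = (exp (1 / 2 * t))⁻¹ ^ 2 := by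
      rw [← exp_neg, ← exp_nat_mul]; congr 1; ring
    simp only [sφ, sv1, this]
    field_simp; ring

end Pool.Agent.Lib.MP_d6150d_an
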