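import Pool.Agent.Lib.MP_d6150d_an.Blue

/-! The strips from the pieces, with the four exceptional points named. -/

namespace Pool.Agent.Lib.MP_d6150d_an

variable {D F : ℝ}

theorem strip_pts (Zp : St_Zp) (Zm : St_Zm) (S7 : St_S7) (S10 : St_S10) (S1 : St_S1) (S2 : St_S2)
    (P : St_P) (W : St_W) (BC : St_BC) (U : St_U) (X : St_X) (Z2 : St_Z2) (Z3 : St_Z3)
    (S6 : St_S6) (S8 : St_S8) (h : StripA D F) : NoThree D F ∨
    (D = 0 ∧ F = 1) ∨ (D = -1 / 2 ∧ F = 2) ∨ (D = 0 ∧ F = 1 / 4) ∨ (D = -1 / 2 ∧ F = 1 / 2) := by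
  by_cases i : (D = 0 ∧ F = 1) ∨ (D = -1 / 2 ∧ F = 2) ∨ (D = 0 ∧ F = 1 / 4) ∨
    (D = -1 / 2 ∧ F = 1 / 2)
  · exact Or.inr i
  left
  by_cases hS : SchReg D F
  · exact hS.noThree
  by_cases hT : SchReg2 D F
  · exact hT.noThree
  simp only [not_or] at i
  obtain ⟨i1, i2, i3, i4⟩ := i
  simp only [SchReg, not_or] at hS
  simp only [SchReg2, not_or] at hT
  obtain ⟨s1, s2, s3, s4, s5, -⟩ := hS
  obtain ⟨t1, -, -, t4, -⟩ := hT
  have F0 : 0 < F := not_le.1 s1
  -- negative `D`, small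
  have a1 : -3 / 32 ≤ D → D < 0 → F ≤ 2 → NoThree D F := fun a b c ↦ by
    rcases le_total F (23 / 100) with k | k
    · exact Zp D F F0 (Or.inr ⟨a, b.le, k⟩)
    rcases le_total F (7 / 16) with k1 | k1
    · exact BC D F a b k k1
    rcases le_total F (1 / 2) with k2 | k2
    · exact U D F k1 k2 (by linarith) b i4
    rcases le_total F (17 / 16) with k3 | k3
    · rcases le_total F (1 - D) with k4 | k4
      exacts [Zm D F (by linarith) b.le k2 k3 k4 i4 i1, S1 D F a b c (Or.inl k4)]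
    · exact S1 D F a b c (Or.inr k3)
  -- nonnegative `D`
  have a2 : 0 ≤ D → D ≤ 3 / 32 → NoThree D F := fun a b ↦ by
    rcases le_total F (1 / 16) with k | k
    · exact Zp D F F0 (Or.inl ⟨k, by linarith, b⟩)
    rcases le_total F (15 / 16) with k1 | k1
    · exact P D F a b k k1 i3
    have k2 : F < 1 := by
      by_contra k2
      push Not at k2
      refine s4 ⟨a, k2, ?_⟩
      rcases a.eq_or_lt with e | e
      · exact Or.inr (k2.lt_of_ne fun e' ↦ i1 ⟨e.symm, e'.symm⟩)
      · exact Or.inl e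
    rcases a.eq_or_lt with e | e
    · exact Zm D F (by linarith) e.ge (by linarith) (by linarith) (by linarith) i4 i1
    rcases le_total D (1 - F) with k3 | k3
    · exact W D F e k3 k1
    · exact (t4 ⟨by linarith, k2.le, e, k3⟩).elim
  have a3 : |D| ≤ 3 / 32 → F ≤ 2 → NoThree D F := fun a b ↦ by
    rw [abs_le] at a
    rcases lt_or_ge D 0 with k | k
    exacts [a1 (by linarith) k b, a2 k a.2]
  have a4 : -1 ≤ D → D ≤ -15 / 16 → F ≤ 17 / 16 → NoThree D F := fun a b c ↦ by
    rcases le_total F (15 / 16) with k | k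
    · exact S2 D F (a.lt_of_ne fun e ↦ s2 ⟨e.ge, by linarith⟩) b F0 k
    · exact S7 D F k (by linarith) (by linarith) (Or.inl a)
  have a5 : -9 / 16 ≤ D → D ≤ -3 / 32 → 1 / 2 ≤ F → F ≤ 17 / 16 → NoThree D F := fun a b c d ↦ by
    rcases le_total (-1 / 2) D with k | k
    · exact Zm D F k (by linarith) c d (by linarith) i4 i1
    rcases le_total F (15 / 16) with k1 | k1
    · rcases le_total 0 (D + F) with k2 | k2
      exacts [X D F a k k2 k1 i4, Z3 D F (by linarith) (by linarith) (by linarith) k2 (Or.inl c) i4]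
    · exact S7 D F k1 (by linarith) k (Or.inl (by linarith))
  rcases h with h | h | h | h | h | h | h | h | h | h | h
  · exact a3 h.1 (by linarith [h.2.2])
  · exact a3 (abs_le.2 ⟨by linarith [h.1], by linarith [h.2.1]⟩) h.2.2.2
  · exact a4 h.1 h.2.1 (by linarith [h.2.2.2])
  · obtain ⟨a, b, h⟩ := h
    have hF : F ≤ 17 / 16 := by
      rcases h with h | h | h
      exacts [by linarith [h.2], by linarith [(abs_le.1 h).2], by linarith [(abs_le.1 h).2]]
    rcases le_total D (-15 / 16) with k | k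
    · exact a4 a k hF
    rcases le_total (-3 / 32) D with k1 | k1
    · exact a3 (abs_le.2 ⟨by linarith, by linarith⟩) (by linarith)
    rcases h with h | h | h
    · exact Zp D F F0 (Or.inl ⟨h.2, k, by linarith⟩)
    · rw [abs_le] at h
      rcases le_total F (1 / 2) with k2 | k2 <;> rcases le_total 0 (D + F) with k3 | k3
      · exact U D F (by linarith) k2 k3 (by linarith) i4
      · rcases le_total D (-1 / 2) with k4 | k4
        exacts [Z2 D F (by linarith) k2 k k4 i4,
          Z3 D F (by linarith) (by linarith) k k3 (Or.inr k4) i4]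
      · exact a5 (by linarith) k1 k2 hF
      · exact Z3 D F (by linarith) (by linarith) k k3 (Or.inl k2) i4
    · rw [abs_le] at h
      rcases le_total D (-1 / 2) with k2 | k2
      · exact S7 D F (by linarith) (by linarith) k2 (Or.inl a)
      · exact a5 (by linarith) k1 (by linarith) hF
  · obtain ⟨a, b, c⟩ := h
    rw [abs_le] at a
    exact a5 (by linarith) (by linarith) b (by linarith)
  · exact S6 D F (Or.inl h)
  · obtain ⟨a, b, c, d⟩ := h
    have k : D < -1 / 2 := b.lt_of_ne fun e ↦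
      s5 ⟨e.ge, c, Or.inr (c.lt_of_ne fun e' ↦ i2 ⟨e, e'.symm⟩)⟩
    exact S6 D F (Or.inr (Or.inl ⟨a, k, c.lt_of_ne fun e ↦
      t1 ⟨a, b, by linarith, e.ge, Or.inl k⟩, d⟩))
  · obtain ⟨a, b, c, d⟩ := h
    rcases le_total (-3 / 32) D with k1 | k1
    · exact a3 (abs_le.2 ⟨by linarith, by linarith⟩) d
    have k : F < 2 := d.lt_of_ne fun e ↦
      s5 ⟨a, e.ge, Or.inl (a.lt_of_ne fun e' ↦ i2 ⟨e'.symm, e⟩)⟩
    exact S6 D F (Or.inr (Or.inr ⟨a.lt_of_ne fun e ↦
      t1 ⟨by linarith, e.ge, by linarith, d, Or.inr k⟩, k1, c, k⟩))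
  · exact S8 D F h.1 h.2.1 h.2.2
  · obtain ⟨a, b, c, d⟩ := h
    have k : -1 - (F - 1) ^ 2 / 2 < D := by
      by_contra k
      exact s3 ⟨c, by linarith, not_lt.1 k⟩
    exact S7 D F (by linarith) (by nlinarith) (by linarith) (Or.inr ⟨c, k.le⟩)
  · obtain ⟨a, h⟩ := h
    have a' := abs_le.1 a
    rcases h with ⟨b, c⟩ | ⟨b, c⟩
    · rcases le_total (-3 / 32) D with k1 | k1
      · exact a3 (abs_le.2 ⟨by linarith, by linarith⟩) (by linarith)
      · exact S10 D F a (Or.inl ⟨b, k1⟩)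
    rcases le_total (D + F) (-1 / 16) with k | k
    · exact S10 D F a (Or.inr (Or.inr ⟨b, k⟩))
    rcases le_total (D + F) (1 / 16) with k1 | k1
    · exact S8 D F (abs_le.2 ⟨by linarith, k1⟩) (by linarith) (by linarith)
    refine S10 D F a (Or.inr (Or.inl ⟨c, k1, ?_⟩))
    by_contra k2
    push Not at k2
    exact t1 ⟨k2.1.le, by linarith, k2.2.le, by linarith, Or.inl (by linarith)⟩

end Pool.Agent.Lib.MP_d6150d_an
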