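import Pool.Agent.Lib.MP_d6150d_an.CcAD

/-! A generated chart: the computations. -/

namespace Pool.Agent.Lib.MP_d6150d_an.CcA

theorem k0 : chk C 0x88820888303888308883031 [(0, 35184372088832), (140737488355328,
    246290604621824), (0, 140737488355328), (0, 140737488355328)] = true := by
  decide +kernel

theorem k1 : chk C 0x882883088288301 [(35184372088832, 70368744177664), (140737488355328,
    246290604621824), (0, 140737488355328), (0, 140737488355328)] = true := by
  decide +kernel

theorem k2 : chk C 0x880880388088031 [(0, 35184372088832), (246290604621824, 351843720888320), (0,
    140737488355328), (0, 140737488355328)] = true := by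
  decide +kernel

theorem k3 : chk C 0x883883088288301 [(35184372088832, 70368744177664), (246290604621824,
    351843720888320), (0, 140737488355328), (0, 140737488355328)] = true := by
  decide +kernel

end Pool.Agent.Lib.MP_d6150d_an.CcA
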