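import Pool.Agent.Lib.MP_d6150d_an.CcAD

/-! A generated chart: the computations. -/

namespace Pool.Agent.Lib.MP_d6150d_an.CcA

theorem k4 : chk C 0x8883288208883288301 [(70368744177664, 105553116266496), (140737488355328,
    246290604621824), (0, 140737488355328), (0, 140737488355328)] = true := by
  decide +kernel

theorem k5 : chk C 0x888328883208883288201 [(70368744177664, 105553116266496), (246290604621824,
    351843720888320), (0, 140737488355328), (0, 140737488355328)] = true := by
  decide +kernel

theorem k6 : chk C 0x88288288023882882880231 [(105553116266496, 123145302310912), (140737488355328,
    246290604621824), (0, 140737488355328), (0, 140737488355328)] = true := by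
  decide +kernel

theorem k7 : chk C 0x888328830880882882032 [(123145302310912, 140737488355328), (140737488355328,
    193514046488576), (0, 140737488355328), (0, 140737488355328)] = true := by
  decide +kernel

end Pool.Agent.Lib.MP_d6150d_an.CcA
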