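import Pool.Agent.Lib.MP_d6150d_an.CcAD

/-! A generated chart: the computations. -/

namespace Pool.Agent.Lib.MP_d6150d_an.CcA

theorem k11 : chk C 0x8808828820388088832882032 [(123145302310912, 140737488355328),
    (299067162755072, 351843720888320), (0, 140737488355328), (0, 140737488355328)] = true := by
  decide +kernel

theorem k12 : chk C 0x883880388088031 [(0, 35184372088832), (351843720888320, 457396837154816), (0,
    140737488355328), (0, 140737488355328)] = true := by
  decide +kernel

theorem k13 : chk C 0x88388308838830288388301 [(35184372088832, 70368744177664), (351843720888320,
    457396837154816), (0, 140737488355328), (0, 140737488355328)] = true := by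
  decide +kernel

theorem k14 : chk C 0x88831888213 [(0, 35184372088832), (457396837154816, 562949953421312), (0,
    140737488355328), (0, 140737488355328)] = true := by
  decide +kernel

end Pool.Agent.Lib.MP_d6150d_an.CcA
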