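import Pool.Agent.Lib.MP_d6150d_an.CcAD

/-! A generated chart: the computations. -/

namespace Pool.Agent.Lib.MP_d6150d_an.CcA

theorem k15 : chk C 0x8808828038838830880880321 [(35184372088832, 70368744177664), (457396837154816,
    562949953421312), (0, 140737488355328), (0, 140737488355328)] = true := by
  decide +kernel

theorem k16 : chk C 0x888822388832088882238883201 [(70368744177664, 105553116266496),
    (351843720888320, 457396837154816), (0, 140737488355328), (0, 140737488355328)] = true := by
  decide +kernel

theorem k17 : chk C 0x888822388882231 [(70368744177664, 87960930222080), (457396837154816,
    562949953421312), (0, 140737488355328), (0, 140737488355328)] = true := by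
  decide +kernel

theorem k18 : chk C 0x88888022388881231 [(87960930222080, 105553116266496), (457396837154816,
    562949953421312), (0, 140737488355328), (0, 140737488355328)] = true := by
  decide +kernel

end Pool.Agent.Lib.MP_d6150d_an.CcA
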