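import Pool.Agent.Lib.MP_d6150d_an.CcAD

/-! A generated chart: the computations. -/

namespace Pool.Agent.Lib.MP_d6150d_an.CcA

theorem k19 : chk C 0x880888288023288288288280231 [(105553116266496, 123145302310912),
    (351843720888320, 457396837154816), (0, 140737488355328), (0, 140737488355328)] = true := by
  decide +kernel

theorem k20 : chk C 0x8808828820388088812882032 [(123145302310912, 140737488355328),
    (351843720888320, 404620279021568), (0, 140737488355328), (0, 140737488355328)] = true := by
  decide +kernel

theorem k21 : chk C 0x8828828038808808818830232 [(123145302310912, 140737488355328),
    (404620279021568, 457396837154816), (0, 140737488355328), (0, 140737488355328)] = true := by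
  decide +kernel

end Pool.Agent.Lib.MP_d6150d_an.CcA
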