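import Pool.Agent.Lib.MP_d6150d_an.CcAD

/-! A generated chart: the computations. -/

namespace Pool.Agent.Lib.MP_d6150d_an.CcA

theorem k22 : chk C 0x880888288023288088808802321 [(105553116266496, 123145302310912),
    (457396837154816, 562949953421312), (0, 140737488355328), (0, 140737488355328)] = true := by
  decide +kernel

theorem k23 : chk C 0x88288308808808818820232 [(123145302310912, 140737488355328), (457396837154816,
    510173395288064), (0, 140737488355328), (0, 140737488355328)] = true := by
  decide +kernel

theorem k24 : chk C 0x88828038808808828830232 [(123145302310912, 140737488355328), (510173395288064,
    562949953421312), (0, 140737488355328), (0, 140737488355328)] = true := by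
  decide +kernel

end Pool.Agent.Lib.MP_d6150d_an.CcA
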