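import Pool.Agent.Lib.MP_d6150d_an.GMac

/-! Program forms of the recurrent expressions. -/

namespace Pool.Agent.Lib.MP_d6150d_an

noncomputable def mC0 (be f n h n2 h1 b1 : ℝ) : ℝ :=
  let z0 := ((Int.cast (1) : ℝ) + n)
  ((((Int.cast (1) : ℝ) - be) * (n2 + (z0 * h1))) - (be * (z0 * (((h1 * ((((Int.cast (1) : ℝ) - f) -
    (((Int.cast (5) : ℝ) + f) * n)) - ((Int.cast (3) : ℝ) * h))) - ((Int.cast (3) : ℝ) * n2)) +
    ((((Int.cast (2) : ℝ) * f) * z0) * b1)))))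

theorem mC0_0 (be f n h n2 h1 b1 : ℝ) : mC0 be f n h n2 h1 b1 = (mC0 be f n h n2 h1 b1) := by
  rfl

noncomputable def mCU (f n h n3 nh hh bb : ℝ) : ℝ :=
  let z0 := ((Int.cast (1) : ℝ) + n)
  let z1 := (f * f)
  ((n3 * (((Int.cast (18) : ℝ) - ((Int.cast (3) : ℝ) * f)) + ((Int.cast (15) : ℝ) * n))) + (z0 *
    (((nh * (((((Int.cast (34) : ℝ) + ((Int.cast (10) : ℝ) * f)) + z1) * n) + ((z1 + f) - (Int.cast
    (2) : ℝ)))) + (hh * (((((Int.cast (35) : ℝ) + ((Int.cast (10) : ℝ) * f)) * n) + (((Int.cast (7)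
    : ℝ) * f) - (Int.cast (7) : ℝ))) + ((Int.cast (15) : ℝ) * h)))) + (((f * z0) * bb) *
    ((((Int.cast (8) : ℝ) - ((Int.cast (4) : ℝ) * f)) - (((Int.cast (20) : ℝ) + ((Int.cast (6) : ℝ)
    * f)) * n)) - ((Int.cast (20) : ℝ) * h))))))

theorem mCU_0 (f n h n3 nh hh bb : ℝ) : mCU f n h n3 nh hh bb = (mCU f n h n3 nh hh bb) := by
  rfl

noncomputable def mCR (be f a h m w b : ℝ) : ℝ × ℝ :=
  let z0 := (a * m)
  let z1 := (((Int.cast (1) : ℝ) - (a * a)) - z0)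
  let z2 := (m - w)
  let z3 := (((Int.cast (2) : ℝ) * f) * (a * b))
  let z4 := ((h * z2) + z3)
  let z5 := (a * (z4 - (m * m)))
  let z6 := (a + (f - (Int.cast (1) : ℝ)))
  ((z1 - (be * ((((Int.cast (1) : ℝ) + a) * z1) + z5))), (((((a + (Int.cast (3) : ℝ)) * ((z6 * z1) +
    z5)) + (z0 * z1)) + ((z6 + m) * z5)) + (a * ((((z4 * (z2 - ((Int.cast (2) : ℝ) * h))) -
    (((Int.cast (2) : ℝ) + f) * (h * z0))) + (z3 * ((m + z2) - (f * a)))) + ((Int.cast (2) : ℝ) * (m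
    * (((Int.cast (2) : ℝ) * z0) + z4)))))))

theorem mCR_0 (be f a h m w b : ℝ) : (mCR be f a h m w b).1 = (mCR be f a h m w b).1 := by
  rfl

theorem mCR_1 (be f a h m w b : ℝ) : (mCR be f a h m w b).2 = (mCR be f a h m w b).2 := by
  rfl

end Pool.Agent.Lib.MP_d6150d_an
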