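import Pool.Agent.Lib.MP_d6150d_an.GEq
import Pool.Agent.Lib.MP_d6150d_an.CcMac
import Pool.Agent.Lib.MP_d6150d_an.CcAK0
import Pool.Agent.Lib.MP_d6150d_an.CcAK1
import Pool.Agent.Lib.MP_d6150d_an.CcAK2
import Pool.Agent.Lib.MP_d6150d_an.CcAK3
import Pool.Agent.Lib.MP_d6150d_an.CcAK4
import Pool.Agent.Lib.MP_d6150d_an.CcAK5
import Pool.Agent.Lib.MP_d6150d_an.CcAK6

/-! A generated chart: the inequality. -/

namespace Pool.Agent.Lib.MP_d6150d_an.CcA

set_option linter.unnecessarySeqFocus false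
set_option linter.unusedTactic false
set_option linter.unusedVariables false

theorem gd : Gd C [(0, 140737488355328), (140737488355328, 562949953421312), (0, 140737488355328),
    (0, 140737488355328)] := .split 1 (.split 0 (.split 1 (.split 0 (chk_sound k0) (chk_sound k1))
    (.split 0 (chk_sound k2) (chk_sound k3))) (.split 0 (.split 1 (chk_sound k4) (chk_sound k5))
    (.split 1 (.split 0 (chk_sound k6) (.split 1 (chk_sound k7) (chk_sound k8))) (.split 0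
    (chk_sound k9) (.split 1 (chk_sound k10) (chk_sound k11)))))) (.split 0 (.split 1 (.split 0
    (chk_sound k12) (chk_sound k13)) (.split 0 (chk_sound k14) (chk_sound k15))) (.split 0 (.split 1
    (chk_sound k16) (.split 0 (chk_sound k17) (chk_sound k18))) (.split 1 (.split 0 (chk_sound k19)
    (.split 1 (chk_sound k20) (chk_sound k21))) (.split 0 (chk_sound k22) (.split 1 (chk_sound k23)
    (chk_sound k24))))))

set_option maxRecDepth 100000 in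
theorem eq {x u o m F f aa be ga T y1 y2 y5 w ph s ch z14 d r kk z18 pc r2 A0 B0 i2 Om W iw N0 H0 iq
    a g mm om b c z36 ro X S z40 G0 z42 G1 : ℝ} (hF : F = 1 / 4 + 3 * x / 16) (hf : f = F⁻¹) (haa :
    aa = 1 / 2 - 3 * x / 8) (hbe : be = 29 * x / 125 - 1 / 25) (hga : ga = (7 / 250 + 23 * x / 500)
    * aa ^ 2) (hT : T = 4 + 4 * x) (hy1 : y1 = Real.exp (-(aa * T))) (hy2 : y2 = Real.exp (-T)) (hy5
    : y5 = Real.exp (-((aa - 3 * x / 8) * T))) (hw : w = m + 3 * x / 4 * o * (1 - m)) (hph : ph = y1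
    * w) (hs : s = y2 * m ^ 2) (hch : ch = y5 * (2 * w - m)) (hz14 : z14 = Real.exp u) (hd : d = 3 /
    32 * z14 * s) (hr : r = Real.exp (1 - u / 2)) (hkk : kk = Real.exp (-(aa * u))) (hz18 : z18 =
    Real.exp 2) (hpc : pc = 3 / 32 * z18) (hr2 : r2 = r ^ 2) (hA0 : A0 = (1 - d) * f / 2) (hB0 : B0
    = (1 - 2 * d) / aa) (hi2 : i2 = (2 - 2 * F)⁻¹) (hOm : Om = 2 * (r2 * (A0 * (s - ph) + B0 * (1 -
    ph) - d * ph * i2) + pc * i2)) (hW : W = (1 - s) * (r2 * (1 - d) + pc)) (hiw : iw = W⁻¹) (hN0 :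
    N0 = F * Om) (hH0 : H0 = Om * (r2 * (1 - 2 * d) + 2 * pc)) (hiq : iq = iw ^ 2) (ha : a = -(N0 *
    iw)) (hg : g = iq * H0) (hmm : mm = iq * (2 * W * (W + N0) - H0)) (hom : om = iq * (Om * (pc + s
    * r2 * (1 - d)))) (hb : b = -(iq * (Om * pc))) (hc : c = F * (1 - F + 2 * d) / 3) (hz36 : z36 =
    (√(r2 * ph + c * Om))⁻¹) (hro : ro = r * z36) (hX : X = 1 - ph * ro ^ 2) (hS : S = ch * ro ^ 3)
    (hz40 : z40 = (mCR be f a g mm om b).1) (hG0 : G0 = z40 - S * (1 - be + 3 * be * X)) (hz42 : z42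
    = (mCR be f a g mm om b).2) (hG1 : G1 = ga * Om * (z42 - 3 * S * ph * ro ^ 2 * (f - 1 - 5 * X)))
    : outR prog 0 [x, u, o, m] = G1 - kk * (r2 * G0) := by
  replace hF : F = (((Int.cast (1) : ℝ) / (Nat.cast 4 : ℝ)) + (((Int.cast (1) : ℝ) / (Nat.cast 16 :
    ℝ)) * ((Int.cast (3) : ℝ) * x))) := hF.trans (by push_cast <;> ring)
  replace hf : f = F⁻¹ := hf.trans (by push_cast <;> ring)
  replace haa : aa = (((Int.cast (1) : ℝ) / (Nat.cast 2 : ℝ)) - (((Int.cast (1) : ℝ) / (Nat.cast 8 :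
    ℝ)) * ((Int.cast (3) : ℝ) * x))) := haa.trans (by push_cast <;> ring)
  replace hbe : be = ((((Int.cast (1) : ℝ) / (Nat.cast 125 : ℝ)) * ((Int.cast (29) : ℝ) * x)) -
    ((Int.cast (1) : ℝ) / (Nat.cast 25 : ℝ))) := hbe.trans (by push_cast <;> ring)
  replace hga : ga = ((((Int.cast (7) : ℝ) / (Nat.cast 250 : ℝ)) + (((Int.cast (1) : ℝ) / (Nat.cast
    500 : ℝ)) * ((Int.cast (23) : ℝ) * x))) * (aa * aa)) := hga.trans (by push_cast <;> ring)
  replace hT : T = ((Int.cast (4) : ℝ) + ((Int.cast (4) : ℝ) * x)) := hT.trans (by push_cast <;>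
    ring)
  replace hy1 : y1 = (Real.exp ((Int.cast (-1) : ℝ) * (aa * T))) := hy1.trans (congrArg Real.exp (by
    push_cast <;> ring))
  replace hy2 : y2 = (Real.exp ((Int.cast (-1) : ℝ) * T)) := hy2.trans (congrArg Real.exp (by
    push_cast <;> ring))
  replace hy5 : y5 = (Real.exp ((Int.cast (-1) : ℝ) * ((aa - (((Int.cast (1) : ℝ) / (Nat.cast 8 :
    ℝ)) * ((Int.cast (3) : ℝ) * x))) * T))) := hy5.trans (congrArg Real.exp (by push_cast <;> ring))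
  replace hw : w = (m + (((((Int.cast (1) : ℝ) / (Nat.cast 4 : ℝ)) * ((Int.cast (3) : ℝ) * x)) * o)
    * ((Int.cast (1) : ℝ) - m))) := hw.trans (by push_cast <;> ring)
  replace hph : ph = (y1 * w) := hph.trans (by push_cast <;> ring)
  replace hs : s = (y2 * (m * m)) := hs.trans (by push_cast <;> ring)
  replace hch : ch = (y5 * (((Int.cast (2) : ℝ) * w) - m)) := hch.trans (by push_cast <;> ring)
  replace hd : d = ((((Int.cast (3) : ℝ) / (Nat.cast 32 : ℝ)) * z14) * s) := hd.trans (by push_cast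
    <;> ring)
  replace hr : r = (Real.exp ((Int.cast (1) : ℝ) - (((Int.cast (1) : ℝ) / (Nat.cast 2 : ℝ)) * u)))
    := hr.trans (congrArg Real.exp (by push_cast <;> ring))
  replace hkk : kk = (Real.exp ((Int.cast (-1) : ℝ) * (aa * u))) := hkk.trans (congrArg Real.exp (by
    push_cast <;> ring))
  replace hz18 : z18 = (Real.exp (Int.cast (2) : ℝ)) := hz18.trans (congrArg Real.exp (by push_cast
    <;> ring))
  replace hpc : pc = (((Int.cast (3) : ℝ) / (Nat.cast 32 : ℝ)) * z18) := hpc.trans (by push_cast <;>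
    ring)
  replace hr2 : r2 = (r * r) := hr2.trans (by push_cast <;> ring)
  replace hA0 : A0 = (((Int.cast (1) : ℝ) / (Nat.cast 2 : ℝ)) * (((Int.cast (1) : ℝ) - d) * f)) :=
    hA0.trans (by push_cast <;> ring)
  replace hB0 : B0 = (((Int.cast (1) : ℝ) - ((Int.cast (2) : ℝ) * d)) * aa⁻¹) := hB0.trans (by
    push_cast <;> ring)
  replace hi2 : i2 = ((Int.cast (2) : ℝ) - ((Int.cast (2) : ℝ) * F))⁻¹ := hi2.trans (by push_cast
    <;> ring)
  replace hOm : Om = ((Int.cast (2) : ℝ) * ((r2 * (((A0 * (s - ph)) + (B0 * ((Int.cast (1) : ℝ) -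
    ph))) - ((d * ph) * i2))) + (pc * i2))) := hOm.trans (by push_cast <;> ring)
  replace hW : W = (((Int.cast (1) : ℝ) - s) * ((r2 * ((Int.cast (1) : ℝ) - d)) + pc)) := hW.trans
    (by push_cast <;> ring)
  replace hiw : iw = W⁻¹ := hiw.trans (by push_cast <;> ring)
  replace hN0 : N0 = (F * Om) := hN0.trans (by push_cast <;> ring)
  replace hH0 : H0 = (Om * ((r2 * ((Int.cast (1) : ℝ) - ((Int.cast (2) : ℝ) * d))) + ((Int.cast (2)
    : ℝ) * pc))) := hH0.trans (by push_cast <;> ring)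
  replace hiq : iq = (iw * iw) := hiq.trans (by push_cast <;> ring)
  replace ha : a = ((Int.cast (-1) : ℝ) * (N0 * iw)) := ha.trans (by push_cast <;> ring)
  replace hg : g = (iq * H0) := hg.trans (by push_cast <;> ring)
  replace hmm : mm = (iq * ((((Int.cast (2) : ℝ) * W) * (W + N0)) - H0)) := hmm.trans (by push_cast
    <;> ring)
  replace hom : om = (iq * (Om * (pc + ((s * r2) * ((Int.cast (1) : ℝ) - d))))) := hom.trans (by
    push_cast <;> ring)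
  replace hb : b = ((Int.cast (-1) : ℝ) * (iq * (Om * pc))) := hb.trans (by push_cast <;> ring)
  replace hc : c = (((Int.cast (1) : ℝ) / (Nat.cast 3 : ℝ)) * (F * (((Int.cast (1) : ℝ) - F) +
    ((Int.cast (2) : ℝ) * d)))) := hc.trans (by push_cast <;> ring)
  replace hz36 : z36 = (√((r2 * ph) + (c * Om)))⁻¹ := hz36.trans (congrArg (fun x : ℝ ↦ (√x)⁻¹) (by
    push_cast <;> ring))
  replace hro : ro = (r * z36) := hro.trans (by push_cast <;> ring)
  replace hX : X = ((Int.cast (1) : ℝ) - (ph * (ro * ro))) := hX.trans (by push_cast <;> ring)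
  replace hS : S = (ch * ((ro * ro) * ro)) := hS.trans (by push_cast <;> ring)
  replace hz40 : z40 = (mCR be f a g mm om b).1 := hz40.trans (mCR_0 ..)
  replace hG0 : G0 = (z40 - (S * (((Int.cast (1) : ℝ) - be) + (((Int.cast (3) : ℝ) * be) * X)))) :=
    hG0.trans (by push_cast <;> ring)
  replace hz42 : z42 = (mCR be f a g mm om b).2 := hz42.trans (mCR_1 ..)
  replace hG1 : G1 = ((ga * Om) * (z42 - (((((Int.cast (3) : ℝ) * S) * ph) * (ro * ro)) * ((f -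
    (Int.cast (1) : ℝ)) - ((Int.cast (5) : ℝ) * X))))) := hG1.trans (by push_cast <;> ring)
  have e0 : (G1 - (kk * (r2 * G0))) = G1 - kk * (r2 * G0) := by push_cast <;> ring
  subst hF hf haa hbe hga hT hy1 hy2 hy5 hw hph hs hch hz14 hd hr hkk hz18 hpc hr2 hA0 hB0 hi2 hOm
    hW hiw hN0 hH0 hiq ha hg hmm hom hb hc hz36 hro hX hS hz40 hG0 hz42 hG1
  refine Eq.trans ?_ e0 <;>
    simp only [outR, prog, prog1, prog2, prog3, runR, stepR, gtR, mCR]

theorem l0 : ((0 : ℤ) : ℝ) / 2 ^ 47 = 0 := by norm_num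
theorem u0 : (1 : ℝ) = ((140737488355328 : ℤ) : ℝ) / 2 ^ 47 := by norm_num
theorem l1 : ((140737488355328 : ℤ) : ℝ) / 2 ^ 47 = 1 := by norm_num
theorem u1 : (4 : ℝ) = ((562949953421312 : ℤ) : ℝ) / 2 ^ 47 := by norm_num
theorem l2 : ((0 : ℤ) : ℝ) / 2 ^ 47 = 0 := by norm_num
theorem u2 : (1 : ℝ) = ((140737488355328 : ℤ) : ℝ) / 2 ^ 47 := by norm_num
theorem l3 : ((0 : ℤ) : ℝ) / 2 ^ 47 = 0 := by norm_num
theorem u3 : (1 : ℝ) = ((140737488355328 : ℤ) : ℝ) / 2 ^ 47 := by norm_num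

theorem out0 {x u o m : ℝ} (a0 : 0 ≤ x) (b0 : x ≤ 1) (a1 : 1 ≤ u) (b1 : u ≤ 4) (a2 : 0 ≤ o) (b2 : o
    ≤ 1) (a3 : 0 ≤ m) (b3 : m ≤ 1) : 0 < outR prog 0 [x, u, o, m] :=
  gd 0 (by decide) [x, u, o, m] (.cons ⟨l0.le.trans a0, b0.trans u0.le⟩ (.cons ⟨l1.le.trans a1,
    b1.trans u1.le⟩ (.cons ⟨l2.le.trans a2, b2.trans u2.le⟩ (.cons ⟨l3.le.trans a3, b3.trans u3.le⟩
    (.nil))))) ⟨nofun, nofun, nofun, nofun, trivial⟩ (List.forall_mem_nil _) (Van.of0 rfl) (nofun)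

theorem pos0 {x u o m F f aa be ga T y1 y2 y5 w ph s ch z14 d r kk z18 pc r2 A0 B0 i2 Om W iw N0 H0
    iq a g mm om b c z36 ro X S z40 G0 z42 G1 : ℝ} (hF : F = 1 / 4 + 3 * x / 16) (hf : f = F⁻¹) (haa
    : aa = 1 / 2 - 3 * x / 8) (hbe : be = 29 * x / 125 - 1 / 25) (hga : ga = (7 / 250 + 23 * x /
    500) * aa ^ 2) (hT : T = 4 + 4 * x) (hy1 : y1 = Real.exp (-(aa * T))) (hy2 : y2 = Real.exp (-T))
    (hy5 : y5 = Real.exp (-((aa - 3 * x / 8) * T))) (hw : w = m + 3 * x / 4 * o * (1 - m)) (hph : ph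
    = y1 * w) (hs : s = y2 * m ^ 2) (hch : ch = y5 * (2 * w - m)) (hz14 : z14 = Real.exp u) (hd : d
    = 3 / 32 * z14 * s) (hr : r = Real.exp (1 - u / 2)) (hkk : kk = Real.exp (-(aa * u))) (hz18 :
    z18 = Real.exp 2) (hpc : pc = 3 / 32 * z18) (hr2 : r2 = r ^ 2) (hA0 : A0 = (1 - d) * f / 2) (hB0
    : B0 = (1 - 2 * d) / aa) (hi2 : i2 = (2 - 2 * F)⁻¹) (hOm : Om = 2 * (r2 * (A0 * (s - ph) + B0 *
    (1 - ph) - d * ph * i2) + pc * i2)) (hW : W = (1 - s) * (r2 * (1 - d) + pc)) (hiw : iw = W⁻¹)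
    (hN0 : N0 = F * Om) (hH0 : H0 = Om * (r2 * (1 - 2 * d) + 2 * pc)) (hiq : iq = iw ^ 2) (ha : a =
    -(N0 * iw)) (hg : g = iq * H0) (hmm : mm = iq * (2 * W * (W + N0) - H0)) (hom : om = iq * (Om *
    (pc + s * r2 * (1 - d)))) (hb : b = -(iq * (Om * pc))) (hc : c = F * (1 - F + 2 * d) / 3) (hz36
    : z36 = (√(r2 * ph + c * Om))⁻¹) (hro : ro = r * z36) (hX : X = 1 - ph * ro ^ 2) (hS : S = ch *
    ro ^ 3) (hz40 : z40 = (mCR be f a g mm om b).1) (hG0 : G0 = z40 - S * (1 - be + 3 * be * X))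
    (hz42 : z42 = (mCR be f a g mm om b).2) (hG1 : G1 = ga * Om * (z42 - 3 * S * ph * ro ^ 2 * (f -
    1 - 5 * X))) (a0 : 0 ≤ x) (b0 : x ≤ 1) (a1 : 1 ≤ u) (b1 : u ≤ 4) (a2 : 0 ≤ o) (b2 : o ≤ 1) (a3 :
    0 ≤ m) (b3 : m ≤ 1) : 0 < G1 - kk * (r2 * G0) :=
  have e := eq hF hf haa hbe hga hT hy1 hy2 hy5 hw hph hs hch hz14 hd hr hkk hz18 hpc hr2 hA0 hB0
    hi2 hOm hW hiw hN0 hH0 hiq ha hg hmm hom hb hc hz36 hro hX hS hz40 hG0 hz42 hG1
  (out0 a0 b0 a1 b1 a2 b2 a3 b3).trans_eq e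

end Pool.Agent.Lib.MP_d6150d_an.CcA
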