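import Pool.Agent.Lib.MP_d6150d_an.GDef

/-! A generated chart: the program. -/

namespace Pool.Agent.Lib.MP_d6150d_an.CcA

def prog3 : List Ins := .mul 131 101 :: .cst 1 3 :: .sub false 138 116 :: .add true 0 101 :: .mul
    118 0 :: .mul 3 0 :: .mul 0 85 :: .add false 6 0 :: .rsq 0 :: .mul 141 0 :: .mul 0 0 :: .mul 0 1
    :: .mul 12 0 :: .smul 3 0 :: .mul 0 115 :: .mul 0 4 :: .mul 117 5 :: .sub true 153 0 :: .smul 5
    0 :: .sub true 86 0 :: .mul 4 0 :: .sub true 28 0 :: .mul 100 0 :: .mul 162 158 :: .smul (-1) 0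
    :: .exp 0 :: .cst 1 125 :: .smul 29 174 :: .mul 1 0 :: .cst 1 25 :: .sub true 1 0 :: .add true
    167 101 :: .mul 0 84 :: .add false 0 66 :: .mul 3 0 :: .sub false 87 0 :: .sub false 172 5 ::
    .smul 3 6 :: .mul 0 20 :: .add true 2 0 :: .mul 27 0 :: .sub false 5 0 :: .mul 173 0 :: .mul 17
    0 :: .sub false 21 0 :: .cpy 0 :: []

def prog2 : List Ins := .mul 70 81 :: .mul 0 69 :: .add false 34 0 :: .mul 32 0 :: .mul 17 0 :: .sub
    false 9 0 :: .mul 6 0 :: .smul 2 70 :: .mul 37 40 :: .mul 22 0 :: .smul (-1) 0 :: .mul 31 0 ::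
    .mul 4 0 :: .add true 6 0 :: .mul 18 18 :: .sub false 1 0 :: .mul 36 0 :: .add true 18 0 :: .mul
    36 0 :: .mul 22 21 :: .add false 1 0 :: .add true 37 25 :: .mul 0 5 :: .add false 2 0 :: .smul 2
    24 :: .sub false 19 0 :: .mul 12 0 :: .add false 67 90 :: .mul 28 31 :: .mul 1 0 :: .sub false 3
    0 :: .add false 35 25 :: .mul 95 52 :: .sub true 1 0 :: .mul 21 0 :: .add false 4 0 :: .smul 2
    39 :: .add true 0 23 :: .mul 42 0 :: .smul 2 0 :: .add true 4 0 :: .mul 61 0 :: .add false 18 0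
    :: .sub true 132 133 :: .mul 0 119 :: .smul (-1) 0 :: .exp 0 :: .smul 2 99 :: .sub true 0 120 ::
    .mul 2 0 :: prog3

def prog1 : List Ins := .mul 11 0 :: .smul 2 20 :: .sub false 38 0 :: .inv 42 :: .mul 1 0 :: .sub
    true 41 6 :: .mul 1 0 :: .add false 6 0 :: .mul 27 9 :: .int 2 :: .smul 2 24 :: .sub true 1 0 ::
    .inv 0 :: .mul 4 0 :: .sub false 6 0 :: .mul 46 0 :: .exp 6 :: .mul 47 0 :: .mul 0 5 :: .add
    false 3 0 :: .smul 2 0 :: .mul 58 0 :: .mul 36 1 :: .sub false 59 43 :: .mul 55 42 :: .add false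
    0 7 :: .mul 2 0 :: .inv 0 :: .mul 5 0 :: .smul (-1) 0 :: .int 3 :: .add true 1 0 :: .sub false
    45 68 :: .add true 3 0 :: .mul 4 4 :: .sub false 71 0 :: .mul 8 8 :: .smul 2 10 :: .add false 11
    15 :: .mul 1 0 :: .mul 71 37 :: .smul 2 23 :: .add false 1 0 :: .mul 22 0 :: .sub true 4 0 ::
    .mul 8 0 :: .mul 16 0 :: .sub true 11 0 :: .mul 14 0 :: .mul 12 5 :: prog2

def prog : List Ins := .cst 7 250 :: .cst 1 500 :: .var 0 :: .smul 23 0 :: .mul 2 0 :: .add false 4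
    0 :: .cst 1 2 :: .cst 1 8 :: .smul 3 5 :: .mul 1 0 :: .sub true 3 0 :: .mul 0 0 :: .mul 6 0 ::
    .int 1 :: .var 1 :: .mul 8 0 :: .sub true 2 0 :: .exp 0 :: .mul 0 0 :: .cst 3 32 :: .exp 5 ::
    .mul 1 0 :: .int 4 :: .smul 4 20 :: .add false 1 0 :: .smul (-1) 0 :: .exp 0 :: .var 3 :: .mul 0
    0 :: .mul 2 0 :: .mul 8 0 :: .sub false 17 0 :: .cst 1 4 :: .cst 1 16 :: .mul 0 25 :: .add false
    2 0 :: .inv 0 :: .mul 5 0 :: .mul 31 0 :: .mul 28 14 :: .smul (-1) 0 :: .exp 0 :: .mul 9 33 ::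
    .var 2 :: .mul 1 0 :: .sub true 31 17 :: .mul 1 0 :: .add false 19 0 :: .mul 6 0 :: .sub false
    19 0 :: prog1

def vs : List Vr := [⟨3, 0, false, false⟩, ⟨3, 0, false, false⟩, ⟨1, 0, false, false⟩, ⟨2, 0, false,
    false⟩]

def C : Chart := ⟨vs, prog, [], 1, 3⟩

end Pool.Agent.Lib.MP_d6150d_an.CcA
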