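import Pool.Agent.Lib.MP_d6150d_an.CcBD

/-! A generated chart: the computations. -/

namespace Pool.Agent.Lib.MP_d6150d_an.CcB

theorem k0 : chk C 0x8808388208833880830 [(0, 70368744177664), (0, 140737488355328), (0,
    140737488355328), (0, 140737488355328)] = true := by
  decide +kernel

theorem k1 : chk C 0x880838820 [(70368744177664, 105553116266496), (0, 140737488355328), (0,
    140737488355328), (0, 70368744177664)] = true := by
  decide +kernel

theorem k2 : chk C 0x8838810881803 [(70368744177664, 87960930222080), (0, 140737488355328), (0,
    140737488355328), (70368744177664, 140737488355328)] = true := by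
  decide +kernel

theorem k3 : chk C 0x88832888120883882088283883013 [(87960930222080, 105553116266496), (0,
    140737488355328), (0, 140737488355328), (70368744177664, 140737488355328)] = true := by
  decide +kernel

end Pool.Agent.Lib.MP_d6150d_an.CcB
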