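import Pool.Agent.Lib.MP_d6150d_an.CcBD

/-! A generated chart: the computations. -/

namespace Pool.Agent.Lib.MP_d6150d_an.CcB

theorem k4 : chk C 0x8818088238828308833 [(105553116266496, 123145302310912), (0, 140737488355328),
    (0, 140737488355328), (0, 70368744177664)] = true := by
  decide +kernel

theorem k5 : chk C 0x883808388280831838830 [(123145302310912, 140737488355328), (0,
    140737488355328), (0, 140737488355328), (0, 35184372088832)] = true := by
  decide +kernel

theorem k6 : chk C 0x88188108838838028828013 [(123145302310912, 131941395333120), (0,
    140737488355328), (0, 140737488355328), (35184372088832, 70368744177664)] = true := by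
  decide +kernel

theorem k7 : chk C 0x88088388302880883882021 [(131941395333120, 140737488355328), (0,
    140737488355328), (0, 140737488355328), (35184372088832, 52776558133248)] = true := by
  decide +kernel

end Pool.Agent.Lib.MP_d6150d_an.CcB
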