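import Pool.Agent.Lib.MP_d6150d_an.CcBD

/-! A generated chart: the computations. -/

namespace Pool.Agent.Lib.MP_d6150d_an.CcB

theorem k8 : chk C 0x8828820 [(131941395333120, 140737488355328), (0, 140737488355328), (0,
    140737488355328), (52776558133248, 70368744177664)] = true := by
  decide +kernel

theorem k9 : chk C 0x88802888320880881803880880303 [(105553116266496, 123145302310912), (0,
    140737488355328), (0, 140737488355328), (70368744177664, 140737488355328)] = true := by
  decide +kernel

theorem k10 : chk C 0x88188028828803880880313 [(123145302310912, 131941395333120), (0,
    140737488355328), (0, 140737488355328), (70368744177664, 140737488355328)] = true := by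
  decide +kernel

theorem k11 : chk C 0x88388028838802883880213 [(131941395333120, 140737488355328), (0,
    140737488355328), (0, 140737488355328), (70368744177664, 140737488355328)] = true := by
  decide +kernel

end Pool.Agent.Lib.MP_d6150d_an.CcB
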