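import Pool.Agent.Lib.MP_d6150d_an.GEq
import Pool.Agent.Lib.MP_d6150d_an.CcMac
import Pool.Agent.Lib.MP_d6150d_an.CcBK0
import Pool.Agent.Lib.MP_d6150d_an.CcBK1
import Pool.Agent.Lib.MP_d6150d_an.CcBK2

/-! A generated chart: the inequality. -/

namespace Pool.Agent.Lib.MP_d6150d_an.CcB

set_option linter.unnecessarySeqFocus false
set_option linter.unusedTactic false
set_option linter.unusedVariables false

theorem gd : Gd C [(0, 140737488355328), (0, 140737488355328), (0, 140737488355328), (0,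
    140737488355328)] := .split 0 (chk_sound k0) (.split 0 (.split 3 (chk_sound k1) (.split 0
    (chk_sound k2) (chk_sound k3))) (.split 3 (.split 0 (chk_sound k4) (.split 3 (chk_sound k5)
    (.split 0 (chk_sound k6) (.split 3 (chk_sound k7) (chk_sound k8))))) (.split 0 (chk_sound k9)
    (.split 0 (chk_sound k10) (chk_sound k11)))))

set_option maxRecDepth 100000 in
theorem eq {x j w r F f aa be ga T y1 y2 z9 pc y4 y5 ph s d ch r2 A0 B0 i2 Om W iw N0 H0 iq a g mm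
    om b c z33 ro X S z37 G0 z39 G1 ab : ℝ} (hF : F = 1 / 4 + 3 * x / 16) (hf : f = F⁻¹) (haa : aa =
    1 / 2 - 3 * x / 8) (hbe : be = 29 * x / 125 - 1 / 25) (hga : ga = (7 / 250 + 23 * x / 500) * aa
    ^ 2) (hT : T = 4 + 4 * x) (hy1 : y1 = Real.exp (-(aa * T))) (hy2 : y2 = Real.exp (-4)) (hz9 : z9
    = Real.exp 4) (hpc : pc = 3 / 32 * z9) (hy4 : y4 = Real.exp (aa * 4)) (hy5 : y5 = Real.exp (3 *
    x / 8 * T)) (hph : ph = y1 * w) (hs : s = j * r ^ 2 * y2) (hd : d = 3 / 32 * j) (hch : ch = ph *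
    y5) (hr2 : r2 = r ^ 2) (hA0 : A0 = (1 - d) * f / 2) (hB0 : B0 = (1 - 2 * d) / aa) (hi2 : i2 = (2
    - 2 * F)⁻¹) (hOm : Om = 2 * (r2 * (A0 * (s - ph) + B0 * (1 - ph) - d * ph * i2) + pc * i2)) (hW
    : W = (1 - s) * (r2 * (1 - d) + pc)) (hiw : iw = W⁻¹) (hN0 : N0 = F * Om) (hH0 : H0 = Om * (r2 *
    (1 - 2 * d) + 2 * pc)) (hiq : iq = iw ^ 2) (ha : a = -(N0 * iw)) (hg : g = iq * H0) (hmm : mm =
    iq * (2 * W * (W + N0) - H0)) (hom : om = iq * (Om * (pc + s * r2 * (1 - d)))) (hb : b = -(iq *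
    (Om * pc))) (hc : c = F * (1 - F + 2 * d) / 3) (hz33 : z33 = (√(r2 * ph + c * Om))⁻¹) (hro : ro
    = r * z33) (hX : X = 1 - ph * ro ^ 2) (hS : S = ch * ro ^ 3) (hz37 : z37 = (mCR be f a g mm om
    b).1) (hG0 : G0 = z37 - S * (1 - be + 3 * be * X)) (hz39 : z39 = (mCR be f a g mm om b).2) (hG1
    : G1 = ga * Om * (z39 - 3 * S * ph * ro ^ 2 * (f - 1 - 5 * X))) (hab : ab = 2 * aa) : outR prog
    0 [x, j, w, r] = y4 * G1 - (1 - ab + ab * r) * (r2 * G0) ∧ outR prog 1 [x, j, w, r] = (r + ab *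
    (1 - r)) * (y4 * G1) - r * (r2 * G0) := by
  replace hF : F = (((Int.cast (1) : ℝ) / (Nat.cast 4 : ℝ)) + (((Int.cast (1) : ℝ) / (Nat.cast 16 :
    ℝ)) * ((Int.cast (3) : ℝ) * x))) := hF.trans (by push_cast <;> ring)
  replace hf : f = F⁻¹ := hf.trans (by push_cast <;> ring)
  replace haa : aa = (((Int.cast (1) : ℝ) / (Nat.cast 2 : ℝ)) - (((Int.cast (1) : ℝ) / (Nat.cast 8 :
    ℝ)) * ((Int.cast (3) : ℝ) * x))) := haa.trans (by push_cast <;> ring)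
  replace hbe : be = ((((Int.cast (1) : ℝ) / (Nat.cast 125 : ℝ)) * ((Int.cast (29) : ℝ) * x)) -
    ((Int.cast (1) : ℝ) / (Nat.cast 25 : ℝ))) := hbe.trans (by push_cast <;> ring)
  replace hga : ga = ((((Int.cast (7) : ℝ) / (Nat.cast 250 : ℝ)) + (((Int.cast (1) : ℝ) / (Nat.cast
    500 : ℝ)) * ((Int.cast (23) : ℝ) * x))) * (aa * aa)) := hga.trans (by push_cast <;> ring)
  replace hT : T = ((Int.cast (4) : ℝ) + ((Int.cast (4) : ℝ) * x)) := hT.trans (by push_cast <;>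
    ring)
  replace hy1 : y1 = (Real.exp ((Int.cast (-1) : ℝ) * (aa * T))) := hy1.trans (congrArg Real.exp (by
    push_cast <;> ring))
  replace hy2 : y2 = (Real.exp (Int.cast (-4) : ℝ)) := hy2.trans (congrArg Real.exp (by push_cast
    <;> ring))
  replace hz9 : z9 = (Real.exp (Int.cast (4) : ℝ)) := hz9.trans (congrArg Real.exp (by push_cast <;>
    ring))
  replace hpc : pc = (((Int.cast (3) : ℝ) / (Nat.cast 32 : ℝ)) * z9) := hpc.trans (by push_cast <;>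
    ring)
  replace hy4 : y4 = (Real.exp ((Int.cast (4) : ℝ) * aa)) := hy4.trans (congrArg Real.exp (by
    push_cast <;> ring))
  replace hy5 : y5 = (Real.exp ((((Int.cast (1) : ℝ) / (Nat.cast 8 : ℝ)) * ((Int.cast (3) : ℝ) * x))
    * T)) := hy5.trans (congrArg Real.exp (by push_cast <;> ring))
  replace hph : ph = (y1 * w) := hph.trans (by push_cast <;> ring)
  replace hs : s = ((j * (r * r)) * y2) := hs.trans (by push_cast <;> ring)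
  replace hd : d = (((Int.cast (3) : ℝ) / (Nat.cast 32 : ℝ)) * j) := hd.trans (by push_cast <;>
    ring)
  replace hch : ch = (ph * y5) := hch.trans (by push_cast <;> ring)
  replace hr2 : r2 = (r * r) := hr2.trans (by push_cast <;> ring)
  replace hA0 : A0 = (((Int.cast (1) : ℝ) / (Nat.cast 2 : ℝ)) * (((Int.cast (1) : ℝ) - d) * f)) :=
    hA0.trans (by push_cast <;> ring)
  replace hB0 : B0 = (((Int.cast (1) : ℝ) - ((Int.cast (2) : ℝ) * d)) * aa⁻¹) := hB0.trans (by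
    push_cast <;> ring)
  replace hi2 : i2 = ((Int.cast (2) : ℝ) - ((Int.cast (2) : ℝ) * F))⁻¹ := hi2.trans (by push_cast
    <;> ring)
  replace hOm : Om = ((Int.cast (2) : ℝ) * ((r2 * (((A0 * (s - ph)) + (B0 * ((Int.cast (1) : ℝ) -
    ph))) - ((d * ph) * i2))) + (pc * i2))) := hOm.trans (by push_cast <;> ring)
  replace hW : W = (((Int.cast (1) : ℝ) - s) * ((r2 * ((Int.cast (1) : ℝ) - d)) + pc)) := hW.trans
    (by push_cast <;> ring)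
  replace hiw : iw = W⁻¹ := hiw.trans (by push_cast <;> ring)
  replace hN0 : N0 = (F * Om) := hN0.trans (by push_cast <;> ring)
  replace hH0 : H0 = (Om * ((r2 * ((Int.cast (1) : ℝ) - ((Int.cast (2) : ℝ) * d))) + ((Int.cast (2)
    : ℝ) * pc))) := hH0.trans (by push_cast <;> ring)
  replace hiq : iq = (iw * iw) := hiq.trans (by push_cast <;> ring)
  replace ha : a = ((Int.cast (-1) : ℝ) * (N0 * iw)) := ha.trans (by push_cast <;> ring)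
  replace hg : g = (iq * H0) := hg.trans (by push_cast <;> ring)
  replace hmm : mm = (iq * ((((Int.cast (2) : ℝ) * W) * (W + N0)) - H0)) := hmm.trans (by push_cast
    <;> ring)
  replace hom : om = (iq * (Om * (pc + ((s * r2) * ((Int.cast (1) : ℝ) - d))))) := hom.trans (by
    push_cast <;> ring)
  replace hb : b = ((Int.cast (-1) : ℝ) * (iq * (Om * pc))) := hb.trans (by push_cast <;> ring)
  replace hc : c = (((Int.cast (1) : ℝ) / (Nat.cast 3 : ℝ)) * (F * (((Int.cast (1) : ℝ) - F) +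
    ((Int.cast (2) : ℝ) * d)))) := hc.trans (by push_cast <;> ring)
  replace hz33 : z33 = (√((r2 * ph) + (c * Om)))⁻¹ := hz33.trans (congrArg (fun x : ℝ ↦ (√x)⁻¹) (by
    push_cast <;> ring))
  replace hro : ro = (r * z33) := hro.trans (by push_cast <;> ring)
  replace hX : X = ((Int.cast (1) : ℝ) - (ph * (ro * ro))) := hX.trans (by push_cast <;> ring)
  replace hS : S = (ch * ((ro * ro) * ro)) := hS.trans (by push_cast <;> ring)
  replace hz37 : z37 = (mCR be f a g mm om b).1 := hz37.trans (mCR_0 ..)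
  replace hG0 : G0 = (z37 - (S * (((Int.cast (1) : ℝ) - be) + (((Int.cast (3) : ℝ) * be) * X)))) :=
    hG0.trans (by push_cast <;> ring)
  replace hz39 : z39 = (mCR be f a g mm om b).2 := hz39.trans (mCR_1 ..)
  replace hG1 : G1 = ((ga * Om) * (z39 - (((((Int.cast (3) : ℝ) * S) * ph) * (ro * ro)) * ((f -
    (Int.cast (1) : ℝ)) - ((Int.cast (5) : ℝ) * X))))) := hG1.trans (by push_cast <;> ring)
  replace hab : ab = ((Int.cast (2) : ℝ) * aa) := hab.trans (by push_cast <;> ring)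
  have e0 : ((y4 * G1) - ((((Int.cast (1) : ℝ) - ab) + (ab * r)) * (r2 * G0))) = y4 * G1 - (1 - ab +
    ab * r) * (r2 * G0) := by push_cast <;> ring
  have e1 : (((r + (ab * ((Int.cast (1) : ℝ) - r))) * (y4 * G1)) - (r * (r2 * G0))) = (r + ab * (1 -
    r)) * (y4 * G1) - r * (r2 * G0) := by push_cast <;> ring
  subst hF hf haa hbe hga hT hy1 hy2 hz9 hpc hy4 hy5 hph hs hd hch hr2 hA0 hB0 hi2 hOm hW hiw hN0
    hH0 hiq ha hg hmm hom hb hc hz33 hro hX hS hz37 hG0 hz39 hG1 hab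
  refine ⟨Eq.trans ?_ e0, Eq.trans ?_ e1⟩ <;>
    simp only [outR, prog, prog1, prog2, prog3, runR, stepR, gtR, mCR]

theorem l0 : ((0 : ℤ) : ℝ) / 2 ^ 47 = 0 := by norm_num
theorem u0 : (1 : ℝ) = ((140737488355328 : ℤ) : ℝ) / 2 ^ 47 := by norm_num
theorem l1 : ((0 : ℤ) : ℝ) / 2 ^ 47 = 0 := by norm_num
theorem u1 : (1 : ℝ) = ((140737488355328 : ℤ) : ℝ) / 2 ^ 47 := by norm_num
theorem l2 : ((0 : ℤ) : ℝ) / 2 ^ 47 = 0 := by norm_num
theorem u2 : (1 : ℝ) = ((140737488355328 : ℤ) : ℝ) / 2 ^ 47 := by norm_num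
theorem l3 : ((0 : ℤ) : ℝ) / 2 ^ 47 = 0 := by norm_num
theorem u3 : (1 : ℝ) = ((140737488355328 : ℤ) : ℝ) / 2 ^ 47 := by norm_num

theorem out0 {x j w r : ℝ} (a0 : 0 ≤ x) (b0 : x ≤ 1) (a1 : 0 ≤ j) (b1 : j ≤ 1) (a2 : 0 ≤ w) (b2 : w
    ≤ 1) (a3 : 0 ≤ r) (b3 : r ≤ 1) : 0 < outR prog 0 [x, j, w, r] :=
  gd 0 (by decide) [x, j, w, r] (.cons ⟨l0.le.trans a0, b0.trans u0.le⟩ (.cons ⟨l1.le.trans a1,
    b1.trans u1.le⟩ (.cons ⟨l2.le.trans a2, b2.trans u2.le⟩ (.cons ⟨l3.le.trans a3, b3.trans u3.le⟩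
    (.nil))))) ⟨nofun, nofun, nofun, nofun, trivial⟩ (List.forall_mem_nil _) (Van.of0 rfl) (nofun)

theorem pos0 {x j w r F f aa be ga T y1 y2 z9 pc y4 y5 ph s d ch r2 A0 B0 i2 Om W iw N0 H0 iq a g mm
    om b c z33 ro X S z37 G0 z39 G1 ab : ℝ} (hF : F = 1 / 4 + 3 * x / 16) (hf : f = F⁻¹) (haa : aa =
    1 / 2 - 3 * x / 8) (hbe : be = 29 * x / 125 - 1 / 25) (hga : ga = (7 / 250 + 23 * x / 500) * aa
    ^ 2) (hT : T = 4 + 4 * x) (hy1 : y1 = Real.exp (-(aa * T))) (hy2 : y2 = Real.exp (-4)) (hz9 : z9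
    = Real.exp 4) (hpc : pc = 3 / 32 * z9) (hy4 : y4 = Real.exp (aa * 4)) (hy5 : y5 = Real.exp (3 *
    x / 8 * T)) (hph : ph = y1 * w) (hs : s = j * r ^ 2 * y2) (hd : d = 3 / 32 * j) (hch : ch = ph *
    y5) (hr2 : r2 = r ^ 2) (hA0 : A0 = (1 - d) * f / 2) (hB0 : B0 = (1 - 2 * d) / aa) (hi2 : i2 = (2
    - 2 * F)⁻¹) (hOm : Om = 2 * (r2 * (A0 * (s - ph) + B0 * (1 - ph) - d * ph * i2) + pc * i2)) (hW
    : W = (1 - s) * (r2 * (1 - d) + pc)) (hiw : iw = W⁻¹) (hN0 : N0 = F * Om) (hH0 : H0 = Om * (r2 *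
    (1 - 2 * d) + 2 * pc)) (hiq : iq = iw ^ 2) (ha : a = -(N0 * iw)) (hg : g = iq * H0) (hmm : mm =
    iq * (2 * W * (W + N0) - H0)) (hom : om = iq * (Om * (pc + s * r2 * (1 - d)))) (hb : b = -(iq *
    (Om * pc))) (hc : c = F * (1 - F + 2 * d) / 3) (hz33 : z33 = (√(r2 * ph + c * Om))⁻¹) (hro : ro
    = r * z33) (hX : X = 1 - ph * ro ^ 2) (hS : S = ch * ro ^ 3) (hz37 : z37 = (mCR be f a g mm om
    b).1) (hG0 : G0 = z37 - S * (1 - be + 3 * be * X)) (hz39 : z39 = (mCR be f a g mm om b).2) (hG1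
    : G1 = ga * Om * (z39 - 3 * S * ph * ro ^ 2 * (f - 1 - 5 * X))) (hab : ab = 2 * aa) (a0 : 0 ≤ x)
    (b0 : x ≤ 1) (a1 : 0 ≤ j) (b1 : j ≤ 1) (a2 : 0 ≤ w) (b2 : w ≤ 1) (a3 : 0 ≤ r) (b3 : r ≤ 1) : 0 <
    y4 * G1 - (1 - ab + ab * r) * (r2 * G0) :=
  have e := eq hF hf haa hbe hga hT hy1 hy2 hz9 hpc hy4 hy5 hph hs hd hch hr2 hA0 hB0 hi2 hOm hW hiw
    hN0 hH0 hiq ha hg hmm hom hb hc hz33 hro hX hS hz37 hG0 hz39 hG1 hab
  (out0 a0 b0 a1 b1 a2 b2 a3 b3).trans_eq e.1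

theorem out1 {x j w r : ℝ} (a0 : 0 ≤ x) (b0 : x ≤ 1) (a1 : 0 ≤ j) (b1 : j ≤ 1) (a2 : 0 ≤ w) (b2 : w
    ≤ 1) (a3 : 0 ≤ r) (b3 : r ≤ 1) : 0 < outR prog 1 [x, j, w, r] :=
  gd 1 (by decide) [x, j, w, r] (.cons ⟨l0.le.trans a0, b0.trans u0.le⟩ (.cons ⟨l1.le.trans a1,
    b1.trans u1.le⟩ (.cons ⟨l2.le.trans a2, b2.trans u2.le⟩ (.cons ⟨l3.le.trans a3, b3.trans u3.le⟩
    (.nil))))) ⟨nofun, nofun, nofun, nofun, trivial⟩ (List.forall_mem_nil _) (Van.of0 rfl) (nofun)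

theorem pos1 {x j w r F f aa be ga T y1 y2 z9 pc y4 y5 ph s d ch r2 A0 B0 i2 Om W iw N0 H0 iq a g mm
    om b c z33 ro X S z37 G0 z39 G1 ab : ℝ} (hF : F = 1 / 4 + 3 * x / 16) (hf : f = F⁻¹) (haa : aa =
    1 / 2 - 3 * x / 8) (hbe : be = 29 * x / 125 - 1 / 25) (hga : ga = (7 / 250 + 23 * x / 500) * aa
    ^ 2) (hT : T = 4 + 4 * x) (hy1 : y1 = Real.exp (-(aa * T))) (hy2 : y2 = Real.exp (-4)) (hz9 : z9
    = Real.exp 4) (hpc : pc = 3 / 32 * z9) (hy4 : y4 = Real.exp (aa * 4)) (hy5 : y5 = Real.exp (3 *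
    x / 8 * T)) (hph : ph = y1 * w) (hs : s = j * r ^ 2 * y2) (hd : d = 3 / 32 * j) (hch : ch = ph *
    y5) (hr2 : r2 = r ^ 2) (hA0 : A0 = (1 - d) * f / 2) (hB0 : B0 = (1 - 2 * d) / aa) (hi2 : i2 = (2
    - 2 * F)⁻¹) (hOm : Om = 2 * (r2 * (A0 * (s - ph) + B0 * (1 - ph) - d * ph * i2) + pc * i2)) (hW
    : W = (1 - s) * (r2 * (1 - d) + pc)) (hiw : iw = W⁻¹) (hN0 : N0 = F * Om) (hH0 : H0 = Om * (r2 *
    (1 - 2 * d) + 2 * pc)) (hiq : iq = iw ^ 2) (ha : a = -(N0 * iw)) (hg : g = iq * H0) (hmm : mm =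
    iq * (2 * W * (W + N0) - H0)) (hom : om = iq * (Om * (pc + s * r2 * (1 - d)))) (hb : b = -(iq *
    (Om * pc))) (hc : c = F * (1 - F + 2 * d) / 3) (hz33 : z33 = (√(r2 * ph + c * Om))⁻¹) (hro : ro
    = r * z33) (hX : X = 1 - ph * ro ^ 2) (hS : S = ch * ro ^ 3) (hz37 : z37 = (mCR be f a g mm om
    b).1) (hG0 : G0 = z37 - S * (1 - be + 3 * be * X)) (hz39 : z39 = (mCR be f a g mm om b).2) (hG1
    : G1 = ga * Om * (z39 - 3 * S * ph * ro ^ 2 * (f - 1 - 5 * X))) (hab : ab = 2 * aa) (a0 : 0 ≤ x)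
    (b0 : x ≤ 1) (a1 : 0 ≤ j) (b1 : j ≤ 1) (a2 : 0 ≤ w) (b2 : w ≤ 1) (a3 : 0 ≤ r) (b3 : r ≤ 1) : 0 <
    (r + ab * (1 - r)) * (y4 * G1) - r * (r2 * G0) :=
  have e := eq hF hf haa hbe hga hT hy1 hy2 hz9 hpc hy4 hy5 hph hs hd hch hr2 hA0 hB0 hi2 hOm hW hiw
    hN0 hH0 hiq ha hg hmm hom hb hc hz33 hro hX hS hz37 hG0 hz39 hG1 hab
  (out1 a0 b0 a1 b1 a2 b2 a3 b3).trans_eq e.2

end Pool.Agent.Lib.MP_d6150d_an.CcB
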