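import Pool.Agent.Lib.MP_d6150d_an.GDef

/-! A generated chart: the program. -/

namespace Pool.Agent.Lib.MP_d6150d_an.CcB

def prog3 : List Ins := .mul 12 0 :: .smul 3 0 :: .mul 0 111 :: .mul 0 4 :: .mul 113 5 :: .sub true
    137 0 :: .smul 5 0 :: .sub true 82 0 :: .mul 4 0 :: .sub true 24 0 :: .mul 96 0 :: .mul 153 0 ::
    .smul 2 156 :: .sub false 145 0 :: .mul 1 148 :: .add true 1 0 :: .cst 1 125 :: .smul 29 164 ::
    .mul 1 0 :: .cst 1 25 :: .sub true 1 0 :: .add true 153 99 :: .mul 0 82 :: .add false 0 64 ::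
    .mul 3 0 :: .sub false 85 0 :: .sub false 158 5 :: .smul 3 6 :: .mul 0 22 :: .add true 2 0 ::
    .mul 29 0 :: .sub true 5 0 :: .mul 165 0 :: .mul 17 0 :: .sub false 22 0 :: .sub true 167 169 ::
    .mul 23 0 :: .add false 171 0 :: .mul 0 26 :: .mul 173 6 :: .sub false 1 0 :: .cpy 0 :: .cpy 7
    :: []

def prog2 : List Ins := .mul 37 40 :: .mul 22 0 :: .smul (-1) 0 :: .mul 31 0 :: .mul 4 0 :: .add
    true 6 0 :: .mul 18 18 :: .sub false 1 0 :: .mul 36 0 :: .add true 18 0 :: .mul 36 0 :: .mul 22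
    21 :: .add false 1 0 :: .add true 37 25 :: .mul 0 5 :: .add false 2 0 :: .smul 2 24 :: .sub
    false 19 0 :: .mul 12 0 :: .add false 67 92 :: .mul 28 31 :: .mul 1 0 :: .sub false 3 0 :: .add
    false 35 25 :: .mul 97 52 :: .sub true 1 0 :: .mul 21 0 :: .add false 4 0 :: .smul 2 39 :: .add
    true 0 23 :: .mul 42 0 :: .smul 2 0 :: .add true 4 0 :: .mul 61 0 :: .add false 18 0 :: .mul 130
    99 :: .exp 0 :: .mul 96 0 :: .mul 121 97 :: .cst 1 3 :: .sub false 122 114 :: .add true 0 97 ::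
    .mul 116 0 :: .mul 3 0 :: .mul 0 81 :: .add false 6 0 :: .rsq 0 :: .mul 131 0 :: .mul 0 0 ::
    .mul 0 1 :: prog3

def prog1 : List Ins := .mul 29 9 :: .int 2 :: .smul 2 26 :: .sub true 1 0 :: .inv 0 :: .mul 4 0 ::
    .sub false 6 0 :: .mul 40 0 :: .exp 24 :: .mul 40 0 :: .mul 0 5 :: .add false 3 0 :: .smul 2 0
    :: .mul 48 0 :: .mul 38 1 :: .sub false 47 32 :: .mul 49 44 :: .add false 0 7 :: .mul 2 0 ::
    .inv 0 :: .mul 5 0 :: .smul (-1) 0 :: .int 3 :: .add true 1 0 :: .sub false 47 56 :: .add true 3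
    0 :: .mul 4 4 :: .sub false 59 0 :: .mul 8 8 :: .smul 2 10 :: .add false 11 15 :: .mul 1 0 ::
    .mul 65 37 :: .smul 2 23 :: .add false 1 0 :: .mul 22 0 :: .sub true 4 0 :: .mul 8 0 :: .mul 16
    0 :: .sub true 11 0 :: .mul 14 0 :: .mul 12 5 :: .mul 59 75 :: .mul 0 71 :: .add false 34 0 ::
    .mul 32 0 :: .mul 17 0 :: .sub false 9 0 :: .mul 6 0 :: .smul 2 72 :: prog2

def prog : List Ins := .cst 1 2 :: .cst 1 8 :: .var 0 :: .smul 3 0 :: .mul 2 0 :: .sub true 4 0 ::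
    .smul 4 0 :: .exp 0 :: .cst 7 250 :: .cst 1 500 :: .smul 23 7 :: .mul 1 0 :: .add false 3 0 ::
    .mul 7 7 :: .mul 1 0 :: .var 3 :: .mul 0 0 :: .int 1 :: .cst 3 32 :: .var 1 :: .mul 1 0 :: .sub
    false 3 0 :: .cst 1 4 :: .cst 1 16 :: .mul 0 20 :: .add false 2 0 :: .inv 0 :: .mul 5 0 :: .mul
    27 0 :: .mul 9 12 :: .int (-4) :: .exp 0 :: .mul 2 0 :: .int 4 :: .smul 4 31 :: .add false 1 0
    :: .mul 30 0 :: .smul (-1) 0 :: .exp 0 :: .var 2 :: .mul 1 0 :: .sub true 8 0 :: .mul 13 0 ::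
    .smul 2 22 :: .sub true 26 0 :: .inv 39 :: .mul 1 0 :: .sub true 29 6 :: .mul 1 0 :: .add false
    6 0 :: prog1

def vs : List Vr := [⟨2, 0, false, false⟩, ⟨2, 0, false, false⟩, ⟨2, 0, false, false⟩, ⟨4, 0, false,
    false⟩]

def C : Chart := ⟨vs, prog, [], 2, 3⟩

end Pool.Agent.Lib.MP_d6150d_an.CcB
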