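import Pool.Agent.Lib.MP_d6150d_an.CcMac
import Pool.Agent.Lib.MP_d6150d_an.KNJ

/-! The operator of order two and the separator used for `F` between `1 / 4` and `7 / 16`. -/

namespace Pool.Agent.Lib.MP_d6150d_an

open Real Set Filter Topology Asymptotics

/-- the weight in the separator -/
noncomputable def ccPi (be f m X : ℝ) : ℝ := 1 - be + 3 * be * X - 3 * m * (f - 1 - 5 * X)

/-- the inverse square root -/
noncomputable def ccR (c v : ℝ) : ℝ := (√(1 + c * v))⁻¹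

variable (D F be la : ℝ)

/-- the image of the time function -/
noncomputable def ccK (t : ℝ) : ℝ :=
  (1 - be) * (1 + F * (uR F t - TR D F 2 t)) - be * (F * (TR D F 1 t - TR D F 3 t)) -
    la * vR D F t * (F * (TR D F 2 t - TR D F 4 t) + (F⁻¹ + 2) * (F * (TR D F 1 t - TR D F 3 t)) +
      3 * (F⁻¹ - 1) * (1 + F * (uR F t - TR D F 2 t)))

/-- the separator -/
noncomputable def ccS (v : ℝ) : ℝ :=
  ccR (F * (1 - F - 2 * D) / 3) v ^ 3 * ccPi be F⁻¹ (la * v * ccR (F * (1 - F - 2 * D) / 3) v ^ 2)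
    (1 - ccR (F * (1 - F - 2 * D) / 3) v ^ 2)

/-- the function whose sign is studied -/
noncomputable def ccG (t : ℝ) : ℝ := ccK D F be la t - ccS D F be la (vR D F t)

variable {D F be la} {t : ℝ}

theorem cc_noThree (hF : 0 < F) (hb : -1 ≤ be) (hl : 0 < la)
    (h : ∀ t ∈ JR D, t ≠ 0 → 0 < t * ccG D F be la t) : NoThree D F := by
  refine CritG.noThree ⟨⟨0, 0, 0, 0, 0, 0, 0, be, -1, la, la * (F⁻¹ - 2), 0⟩, 1, fun _ ↦ -1,
    fun _ ↦ 0, fun a ha b hb' a0 b0 e ↦ ⟨hasDerivAt_const _ _, ?_, ?_, ?_⟩⟩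
  · have := vR_pos (F := F) hb' b0.ne'
    simp only [Gp.P]; positivity
  · simp only [Gp.P, Gp.Q, Gp.S]
    nlinarith [mul_nonneg (sq_nonneg (vR D F b)) (by linarith : 0 ≤ be + 1)]
  · have p1 := neg_of_mul_pos_right (h a ha a0.ne) a0.le
    have p2 := (mul_pos_iff_of_pos_left b0).1 (h b hb' b0.ne')
    have p := mul_pos (pow_pos (vR_pos (F := F) hb' b0.ne') 2) (by linarith :
      0 < ccG D F be la b - ccG D F be la a)
    refine lt_of_mul_lt_mul_left ?_ hF.le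
    simp only [ccG, ccK, Gp.K, Gp.P, Gp.C3, Gp.C2, Gp.C1, Gp.C0, e] at p ⊢
    linarith

theorem cc_closed (hF : F ≠ 0) (ht : t ∈ JR D) (h0 : t ≠ 0) {n g b : ℝ}
    (hn : n = 2 * F * yR D F t / wR D t - 1) (hg : g = 2 * yR D F t * (QR D t - 2 * D) / wR D t ^ 2)
    (hb : b = 2 * yR D F t * D / wR D t ^ 2) : ccK D F be la t = exp (F * t) *
      (mC0 be F⁻¹ n g (n ^ 2) g b - la * vR D F t * mCU F⁻¹ n g (n ^ 3) (n * g) (g ^ 2) b) := by
  have hw := wR_ne ht h0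
  have e : F * uR F t = exp (F * t) - 1 := by rw [exp_eq_ph, uR]; ring
  have eP : PR D t = wR D t + QR D t - D := by rw [wR]; ring
  subst hn hg hb
  simp only [ccK, mul_sub F (uR F t), e, TR1 ht h0, TR2 ht h0, TR3 ht h0, TR4 ht h0, U1, U2, U3, U4,
    pjR, mC0, mCU, eP]
  generalize wR D t = w at *
  push_cast
  field_simp
  ring

theorem Jet.cc_big3 {f : ℝ → ℝ} {a3 a4 a5 a6 : ℝ} (J : Jet D F f 0 0 0 a3 a4 a5 a6) :
    f =O[𝓝 0] fun t ↦ t ^ 3 := by
  obtain ⟨h, ha, e⟩ := J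
  have g := (gR_an (F := F) (zero_mem_JR D)).continuousAt
  have c := ha.continuousAt
  refine (cont_bigO (D := D) (F := F) (k := fun t ↦ a3 + gR D F t * (a4 + gR D F t * (a5 +
    gR D F t * (a6 + gR D F t * h t)))) (by fun_prop) 3).congr' ?_ EventuallyEq.rfl
  filter_upwards [e] with t e
  rw [e]; ring

theorem ccR_sq {c v : ℝ} (h : 0 < 1 + c * v) : ccR c v ^ 2 * (1 + c * v) = 1 := by
  rw [ccR, inv_pow, sq_sqrt h.le, inv_mul_cancel₀ h.ne']

theorem cc_vR_nn (ht : t ∈ JR D) : 0 ≤ vR D F t := by rw [← gR_sq ht]; positivity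

theorem ccG_big (hc : 0 ≤ F * (1 - F - 2 * D) / 3) : ccG D F be la =O[𝓝 0] fun t ↦ t ^ 3 := by
  obtain ⟨a6, U⟩ := jet_uR (D := D) (F := F)
  unfold ccG ccS ccK ccPi
  have e2 : F * ja2 D F = F * (1 - F - 2 * D) / 3 / 2 := by rw [ja2]; ring
  generalize F * (1 - F - 2 * D) / 3 = c at *
  have v0 : vR D F 0 = 0 := by simp [vR]
  have an : AnalyticAt ℝ (fun t ↦ ccR c (vR D F t)) 0 := by
    have h1 : AnalyticAt ℝ (fun t ↦ 1 + c * vR D F t) 0 :=
      analyticAt_const.add (analyticAt_const.mul (AnJ.v (F := F) 0 (zero_mem_JR D)))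
    exact (ContDiffAt.analyticAt (h1.contDiffAt.sqrt (by simp [v0]))).inv (by simp [v0])
  obtain ⟨r1, r2, r3, r4, r5, r6, R⟩ := jet_ex (D := D) (F := F) an
  rw [show ccR c (vR D F 0) = 1 by simp [ccR, v0]] at R
  obtain ⟨-, s1, s2, -⟩ := ((R.mul R).mul ((Jet.const 1).lin Jet.v (-c))).uniq
    ((Jet.const 1).congr fun t ht ↦ by
      linear_combination ccR_sq (c := c) (v := vR D F t) (by have := cc_vR_nn (F := F) ht; positivity))
  obtain rfl : r1 = 0 := by linarith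
  obtain rfl : r2 = -c / 2 := by linarith
  have Z0 := (Jet.const 1).lin (U.lin U.th.th 1) (-F)
  have Z1 := U.th.lin U.th.th.th 1
  have Z2 := U.th.th.lin U.th.th.th.th 1
  obtain ⟨_, _, _, _, R2⟩ : ∃ a b c' d, Jet D F _ 1 0 (-c) a b c' d :=
    ⟨_, _, _, _, (R.mul R).cast (by ring) (by ring) (by ring) rfl rfl rfl rfl⟩
  have X := (Jet.const 1).lin R2 1
  have A := ((((Jet.const (1 - be)).mul Z0).lin Z1 (be * F)).lin
    (Jet.v.mul ((((Jet.const (F⁻¹ - 1)).mul Z0).lin Z1 (-(F⁻¹ + 2) * F / 3)).lin Z2 (-F / 3)))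
    (3 * la))
  have B := (R2.mul R).mul (((Jet.const (1 - be)).lin X (-(3 * be))).lin
    ((Jet.v.mul R2).mul ((Jet.const (F⁻¹ - 1)).lin X 5)) (3 * la))
  refine Jet.cc_big3 (D := D) (F := F) (((A.lin B 1).congr fun t _ ↦ ?_).cast (by ring) (by ring) ?_
    rfl rfl rfl rfl)
  · simp only [TR]; ring
  · linear_combination (9 * be - 3) * e2

end Pool.Agent.Lib.MP_d6150d_an
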