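import Pool.Agent.Lib.MP_d6150d_an.CcJD

/-! A generated chart: the computations. -/

namespace Pool.Agent.Lib.MP_d6150d_an.CcJ

theorem k0 : chk C 0x88820890188882008819012 [(0, 17592186044416), (0, 35184372088832), (0,
    35184372088832)] = true := by
  decide +kernel

theorem k1 : chk C 0x88188288020 [(0, 17592186044416), (35184372088832, 70368744177664), (0,
    35184372088832)] = true := by
  decide +kernel

theorem k2 : chk C 0x8888120888820089011 [(0, 17592186044416), (0, 70368744177664), (35184372088832,
    70368744177664)] = true := by
  decide +kernel

theorem k3 : chk C 0x88822881882882121 [(17592186044416, 35184372088832), (0, 70368744177664), (0,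
    70368744177664)] = true := by
  decide +kernel

end Pool.Agent.Lib.MP_d6150d_an.CcJ
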