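import Pool.Agent.Lib.MP_d6150d_an.CcJD

/-! A generated chart: the computations. -/

namespace Pool.Agent.Lib.MP_d6150d_an.CcJ

theorem k4 : chk C 0x88822888810088288188828102020 [(0, 35184372088832), (70368744177664,
    140737488355328), (0, 70368744177664)] = true := by
  decide +kernel

theorem k5 : chk C 0x88811888820088188291880912010 [(0, 35184372088832), (0, 70368744177664),
    (70368744177664, 140737488355328)] = true := by
  decide +kernel

theorem k6 : chk C 0x8818818881188810200 [(0, 35184372088832), (70368744177664, 140737488355328),
    (70368744177664, 140737488355328)] = true := by
  decide +kernel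

end Pool.Agent.Lib.MP_d6150d_an.CcJ
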