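import Pool.Agent.Lib.MP_d6150d_an.CcJD

/-! A generated chart: the computations. -/

namespace Pool.Agent.Lib.MP_d6150d_an.CcJ

theorem k7 : chk C 0x8808801880880880212 [(35184372088832, 70368744177664), (0, 35184372088832), (0,
    70368744177664)] = true := by
  decide +kernel

theorem k8 : chk C 0x88088188102 [(35184372088832, 70368744177664), (35184372088832,
    70368744177664), (0, 70368744177664)] = true := by
  decide +kernel

theorem k9 : chk C 0x88288288011 [(35184372088832, 70368744177664), (0, 70368744177664),
    (70368744177664, 140737488355328)] = true := by
  decide +kernel

theorem k10 : chk C 0x881881088180880880222 [(35184372088832, 70368744177664), (70368744177664,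
    140737488355328), (0, 140737488355328)] = true := by
  decide +kernel

theorem k11 : chk C 0x88088018828820882882012 [(70368744177664, 105553116266496), (0,
    35184372088832), (0, 70368744177664)] = true := by
  decide +kernel

end Pool.Agent.Lib.MP_d6150d_an.CcJ
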