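import Pool.Agent.Lib.MP_d6150d_an.CcJD

/-! A generated chart: the computations. -/

namespace Pool.Agent.Lib.MP_d6150d_an.CcJ

theorem k12 : chk C 0x88088288202 [(70368744177664, 105553116266496), (35184372088832,
    70368744177664), (0, 70368744177664)] = true := by
  decide +kernel

theorem k13 : chk C 0x88188088122 [(105553116266496, 123145302310912), (0, 17592186044416), (0,
    70368744177664)] = true := by
  decide +kernel

theorem k14 : chk C 0x8882188801881881022 [(123145302310912, 140737488355328), (0, 17592186044416),
    (0, 70368744177664)] = true := by
  decide +kernel

theorem k15 : chk C 0x882808880288202 [(105553116266496, 140737488355328), (17592186044416,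
    35184372088832), (0, 70368744177664)] = true := by
  decide +kernel

theorem k16 : chk C 0x88180881880288202 [(105553116266496, 140737488355328), (35184372088832,
    70368744177664), (0, 70368744177664)] = true := by
  decide +kernel

end Pool.Agent.Lib.MP_d6150d_an.CcJ
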