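import Pool.Agent.Lib.MP_d6150d_an.CcJD

/-! A generated chart: the computations. -/

namespace Pool.Agent.Lib.MP_d6150d_an.CcJ

theorem k17 : chk C 0x88188108881288202 [(70368744177664, 105553116266496), (70368744177664,
    140737488355328), (0, 70368744177664)] = true := by
  decide +kernel

theorem k18 : chk C 0x88811881088812888021881881202 [(105553116266496, 140737488355328),
    (70368744177664, 140737488355328), (0, 70368744177664)] = true := by
  decide +kernel

theorem k19 : chk C 0x8828088821881018808828010 [(70368744177664, 140737488355328), (0,
    35184372088832), (70368744177664, 140737488355328)] = true := by
  decide +kernel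

theorem k20 : chk C 0x88288208800 [(70368744177664, 140737488355328), (35184372088832,
    70368744177664), (70368744177664, 140737488355328)] = true := by
  decide +kernel

end Pool.Agent.Lib.MP_d6150d_an.CcJ
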