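import Pool.Agent.Lib.MP_d6150d_an.GEq
import Pool.Agent.Lib.MP_d6150d_an.CcMac
import Pool.Agent.Lib.MP_d6150d_an.PpChk
import Pool.Agent.Lib.MP_d6150d_an.CcJK0
import Pool.Agent.Lib.MP_d6150d_an.CcJK1
import Pool.Agent.Lib.MP_d6150d_an.CcJK2
import Pool.Agent.Lib.MP_d6150d_an.CcJK3
import Pool.Agent.Lib.MP_d6150d_an.CcJK4
import Pool.Agent.Lib.MP_d6150d_an.CcJK5

/-! A generated chart: the inequality. -/

namespace Pool.Agent.Lib.MP_d6150d_an.CcJ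

set_option linter.unnecessarySeqFocus false
set_option linter.unusedTactic false
set_option linter.unusedVariables false

theorem gd : Gd2 C [(0, 140737488355328), (0, 140737488355328), (0, 140737488355328)] := .split 0
    (.split 0 (.split 2 (.split 1 (.split 0 (.split 2 (.split 1 (chk_sound2 k0) (chk_sound2 k1))
    (chk_sound2 k2)) (chk_sound2 k3)) (chk_sound2 k4)) (.split 1 (chk_sound2 k5) (chk_sound2 k6)))
    (.split 1 (.split 2 (.split 1 (chk_sound2 k7) (chk_sound2 k8)) (chk_sound2 k9)) (chk_sound2 k10)))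
    (.split 2 (.split 1 (.split 0 (.split 1 (chk_sound2 k11) (chk_sound2 k12)) (.split 1 (.split 1
    (.split 0 (chk_sound2 k13) (chk_sound2 k14)) (chk_sound2 k15)) (chk_sound2 k16))) (.split 0
    (chk_sound2 k17) (chk_sound2 k18))) (.split 1 (.split 1 (chk_sound2 k19) (chk_sound2 k20))
    (chk_sound2 k21)))

set_option maxRecDepth 100000 in
theorem eq {x j ta F f aa be ga t1 T y3 y4 s ph ch pc d r r2 A0 B0 i2 Om W iw N0 H0 iq a g mm om b c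
    z32 ro X S z36 G0 z38 G1 : ℝ} (hF : F = 1 / 4 + 3 * x / 16) (hf : f = F⁻¹) (haa : aa = 1 / 2 - 3
    * x / 8) (hbe : be = 29 * x / 125 - 1 / 25) (hga : ga = (7 / 250 + 23 * x / 500) * aa ^ 2) (ht1
    : t1 = 1 + 3 * x / 4) (hT : T = t1 + ta * (3 + 13 * x / 4)) (hy3 : y3 = Real.exp t1) (hy4 : y4 =
    Real.exp (aa * t1)) (hs : s = Real.exp (-T)) (hph : ph = Real.exp (-(aa * T))) (hch : ch =
    Real.exp (-((aa - 3 * x / 8) * T))) (hpc : pc = 3 / 32 * y3 * j) (hd : d = pc * s) (hr : r = 1)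
    (hr2 : r2 = r ^ 2) (hA0 : A0 = (1 - d) * f / 2) (hB0 : B0 = (1 - 2 * d) / aa) (hi2 : i2 = (2 - 2
    * F)⁻¹) (hOm : Om = 2 * (r2 * (A0 * (s - ph) + B0 * (1 - ph) - d * ph * i2) + pc * i2)) (hW : W
    = (1 - s) * (r2 * (1 - d) + pc)) (hiw : iw = W⁻¹) (hN0 : N0 = F * Om) (hH0 : H0 = Om * (r2 * (1
    - 2 * d) + 2 * pc)) (hiq : iq = iw ^ 2) (ha : a = -(N0 * iw)) (hg : g = iq * H0) (hmm : mm = iq
    * (2 * W * (W + N0) - H0)) (hom : om = iq * (Om * (pc + s * r2 * (1 - d)))) (hb : b = -(iq * (Om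
    * pc))) (hc : c = F * (1 - F + 2 * d) / 3) (hz32 : z32 = (√(r2 * ph + c * Om))⁻¹) (hro : ro = r
    * z32) (hX : X = 1 - ph * ro ^ 2) (hS : S = ch * ro ^ 3) (hz36 : z36 = (mCR be f a g mm om b).1)
    (hG0 : G0 = z36 - S * (1 - be + 3 * be * X)) (hz38 : z38 = (mCR be f a g mm om b).2) (hG1 : G1 =
    ga * Om * (z38 - 3 * S * ph * ro ^ 2 * (f - 1 - 5 * X))) : outR prog 0 [x, j, ta] = y4 * j * G1
    - (j + aa * (1 - j)) * (r2 * G0) ∧ outR prog 1 [x, j, ta] = y4 * (1 - aa + aa * j) * G1 - r2 *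
    G0 := by
  replace hF : F = (((Int.cast (1) : ℝ) / (Nat.cast 4 : ℝ)) + (((Int.cast (1) : ℝ) / (Nat.cast 16 :
    ℝ)) * ((Int.cast (3) : ℝ) * x))) := hF.trans (by push_cast <;> ring)
  replace hf : f = F⁻¹ := hf.trans (by push_cast <;> ring)
  replace haa : aa = (((Int.cast (1) : ℝ) / (Nat.cast 2 : ℝ)) - (((Int.cast (1) : ℝ) / (Nat.cast 8 :
    ℝ)) * ((Int.cast (3) : ℝ) * x))) := haa.trans (by push_cast <;> ring)
  replace hbe : be = ((((Int.cast (1) : ℝ) / (Nat.cast 125 : ℝ)) * ((Int.cast (29) : ℝ) * x)) -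
    ((Int.cast (1) : ℝ) / (Nat.cast 25 : ℝ))) := hbe.trans (by push_cast <;> ring)
  replace hga : ga = ((((Int.cast (7) : ℝ) / (Nat.cast 250 : ℝ)) + (((Int.cast (1) : ℝ) / (Nat.cast
    500 : ℝ)) * ((Int.cast (23) : ℝ) * x))) * (aa * aa)) := hga.trans (by push_cast <;> ring)
  replace ht1 : t1 = ((Int.cast (1) : ℝ) + (((Int.cast (1) : ℝ) / (Nat.cast 4 : ℝ)) * ((Int.cast (3)
    : ℝ) * x))) := ht1.trans (by push_cast <;> ring)
  replace hT : T = (t1 + (ta * ((Int.cast (3) : ℝ) + (((Int.cast (1) : ℝ) / (Nat.cast 4 : ℝ)) *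
    ((Int.cast (13) : ℝ) * x))))) := hT.trans (by push_cast <;> ring)
  replace hy4 : y4 = (Real.exp (aa * t1)) := hy4.trans (congrArg Real.exp (by push_cast <;> ring))
  replace hs : s = (Real.exp ((Int.cast (-1) : ℝ) * T)) := hs.trans (congrArg Real.exp (by push_cast
    <;> ring))
  replace hph : ph = (Real.exp ((Int.cast (-1) : ℝ) * (aa * T))) := hph.trans (congrArg Real.exp (by
    push_cast <;> ring))
  replace hch : ch = (Real.exp ((Int.cast (-1) : ℝ) * ((aa - (((Int.cast (1) : ℝ) / (Nat.cast 8 :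
    ℝ)) * ((Int.cast (3) : ℝ) * x))) * T))) := hch.trans (congrArg Real.exp (by push_cast <;> ring))
  replace hpc : pc = ((((Int.cast (3) : ℝ) / (Nat.cast 32 : ℝ)) * y3) * j) := hpc.trans (by
    push_cast <;> ring)
  replace hd : d = (pc * s) := hd.trans (by push_cast <;> ring)
  replace hr : r = (Int.cast (1) : ℝ) := hr.trans (by push_cast <;> ring)
  replace hr2 : r2 = (r * r) := hr2.trans (by push_cast <;> ring)
  replace hA0 : A0 = (((Int.cast (1) : ℝ) / (Nat.cast 2 : ℝ)) * (((Int.cast (1) : ℝ) - d) * f)) :=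
    hA0.trans (by push_cast <;> ring)
  replace hB0 : B0 = (((Int.cast (1) : ℝ) - ((Int.cast (2) : ℝ) * d)) * aa⁻¹) := hB0.trans (by
    push_cast <;> ring)
  replace hi2 : i2 = ((Int.cast (2) : ℝ) - ((Int.cast (2) : ℝ) * F))⁻¹ := hi2.trans (by push_cast
    <;> ring)
  replace hOm : Om = ((Int.cast (2) : ℝ) * ((r2 * (((A0 * (s - ph)) + (B0 * ((Int.cast (1) : ℝ) -
    ph))) - ((d * ph) * i2))) + (pc * i2))) := hOm.trans (by push_cast <;> ring)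
  replace hW : W = (((Int.cast (1) : ℝ) - s) * ((r2 * ((Int.cast (1) : ℝ) - d)) + pc)) := hW.trans
    (by push_cast <;> ring)
  replace hiw : iw = W⁻¹ := hiw.trans (by push_cast <;> ring)
  replace hN0 : N0 = (F * Om) := hN0.trans (by push_cast <;> ring)
  replace hH0 : H0 = (Om * ((r2 * ((Int.cast (1) : ℝ) - ((Int.cast (2) : ℝ) * d))) + ((Int.cast (2)
    : ℝ) * pc))) := hH0.trans (by push_cast <;> ring)
  replace hiq : iq = (iw * iw) := hiq.trans (by push_cast <;> ring)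
  replace ha : a = ((Int.cast (-1) : ℝ) * (N0 * iw)) := ha.trans (by push_cast <;> ring)
  replace hg : g = (iq * H0) := hg.trans (by push_cast <;> ring)
  replace hmm : mm = (iq * ((((Int.cast (2) : ℝ) * W) * (W + N0)) - H0)) := hmm.trans (by push_cast
    <;> ring)
  replace hom : om = (iq * (Om * (pc + ((s * r2) * ((Int.cast (1) : ℝ) - d))))) := hom.trans (by
    push_cast <;> ring)
  replace hb : b = ((Int.cast (-1) : ℝ) * (iq * (Om * pc))) := hb.trans (by push_cast <;> ring)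
  replace hc : c = (((Int.cast (1) : ℝ) / (Nat.cast 3 : ℝ)) * (F * (((Int.cast (1) : ℝ) - F) +
    ((Int.cast (2) : ℝ) * d)))) := hc.trans (by push_cast <;> ring)
  replace hz32 : z32 = (√((r2 * ph) + (c * Om)))⁻¹ := hz32.trans (congrArg (fun x : ℝ ↦ (√x)⁻¹) (by
    push_cast <;> ring))
  replace hro : ro = (r * z32) := hro.trans (by push_cast <;> ring)
  replace hX : X = ((Int.cast (1) : ℝ) - (ph * (ro * ro))) := hX.trans (by push_cast <;> ring)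
  replace hS : S = (ch * ((ro * ro) * ro)) := hS.trans (by push_cast <;> ring)
  replace hz36 : z36 = (mCR be f a g mm om b).1 := hz36.trans (mCR_0 ..)
  replace hG0 : G0 = (z36 - (S * (((Int.cast (1) : ℝ) - be) + (((Int.cast (3) : ℝ) * be) * X)))) :=
    hG0.trans (by push_cast <;> ring)
  replace hz38 : z38 = (mCR be f a g mm om b).2 := hz38.trans (mCR_1 ..)
  replace hG1 : G1 = ((ga * Om) * (z38 - (((((Int.cast (3) : ℝ) * S) * ph) * (ro * ro)) * ((f -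
    (Int.cast (1) : ℝ)) - ((Int.cast (5) : ℝ) * X))))) := hG1.trans (by push_cast <;> ring)
  have e0 : (((y4 * j) * G1) - ((j + (aa * ((Int.cast (1) : ℝ) - j))) * (r2 * G0))) = y4 * j * G1 -
    (j + aa * (1 - j)) * (r2 * G0) := by push_cast <;> ring
  have e1 : (((y4 * (((Int.cast (1) : ℝ) - aa) + (aa * j))) * G1) - (r2 * G0)) = y4 * (1 - aa + aa *
    j) * G1 - r2 * G0 := by push_cast <;> ring
  subst hF hf haa hbe hga ht1 hT hy3 hy4 hs hph hch hpc hd hr hr2 hA0 hB0 hi2 hOm hW hiw hN0 hH0 hiq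
    ha hg hmm hom hb hc hz32 hro hX hS hz36 hG0 hz38 hG1
  refine ⟨Eq.trans ?_ e0, Eq.trans ?_ e1⟩ <;>
    simp only [outR, prog, prog1, prog2, prog3, runR, stepR, gtR, mCR]

theorem l0 : ((0 : ℤ) : ℝ) / 2 ^ 47 = 0 := by norm_num
theorem u0 : (1 : ℝ) = ((140737488355328 : ℤ) : ℝ) / 2 ^ 47 := by norm_num
theorem l1 : ((0 : ℤ) : ℝ) / 2 ^ 47 = 0 := by norm_num
theorem u1 : (1 : ℝ) = ((140737488355328 : ℤ) : ℝ) / 2 ^ 47 := by norm_num
theorem l2 : ((0 : ℤ) : ℝ) / 2 ^ 47 = 0 := by norm_num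
theorem u2 : (1 : ℝ) = ((140737488355328 : ℤ) : ℝ) / 2 ^ 47 := by norm_num

theorem out0 (N : ∀ ta : ℝ, 0 ≤ ta → ta ≤ 1 → 0 ≤ outR prog 0 [0, 0, ta]) {x j ta : ℝ} (a0 : 0 ≤ x)
    (b0 : x ≤ 1) (a1 : 0 ≤ j) (b1 : j ≤ 1) (a2 : 0 ≤ ta) (b2 : ta ≤ 1)  (p1 : 0 < j) : 0
    < outR prog 0 [x, j, ta] :=
  gd 0 (by decide) [x, j, ta] (.cons ⟨l0.le.trans a0, b0.trans u0.le⟩ (.cons ⟨l1.le.trans a1,
    b1.trans u1.le⟩ (.cons ⟨l2.le.trans a2, b2.trans u2.le⟩ (.nil)))) ⟨nofun, nofun, nofun, trivial⟩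
    (fun _ ↦ .inr (.inl ⟨rfl, p1⟩)) (List.forall_mem_nil _) (Van.of0 rfl) (fun _ _ _ _ _ _ _ y2 a2 b2 ↦ N y2
    (l2.ge.trans a2) (b2.trans u2.ge))

theorem out1 (N : ∀ ta : ℝ, 0 ≤ ta → ta ≤ 1 → 0 ≤ outR prog 1 [0, 0, ta]) {x j ta : ℝ} (a0 : 0 ≤ x)
    (b0 : x ≤ 1) (a1 : 0 ≤ j) (b1 : j ≤ 1) (a2 : 0 ≤ ta) (b2 : ta ≤ 1)  (p1 : 0 < j) : 0
    < outR prog 1 [x, j, ta] :=
  gd 1 (by decide) [x, j, ta] (.cons ⟨l0.le.trans a0, b0.trans u0.le⟩ (.cons ⟨l1.le.trans a1,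
    b1.trans u1.le⟩ (.cons ⟨l2.le.trans a2, b2.trans u2.le⟩ (.nil)))) ⟨nofun, nofun, nofun, trivial⟩
    (fun _ ↦ .inr (.inl ⟨rfl, p1⟩)) (List.forall_mem_nil _) (Van.of0 rfl) (fun _ _ _ _ _ _ _ y2 a2 b2 ↦ N y2
    (l2.ge.trans a2) (b2.trans u2.ge))

end Pool.Agent.Lib.MP_d6150d_an.CcJ
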