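import Pool.Agent.Lib.MP_d6150d_an.CcKD

/-! A generated chart: the computations. -/

namespace Pool.Agent.Lib.MP_d6150d_an.CcK

theorem k8 : chk C 0x880880188188101880880188022 [(105553116266496, 140737488355328),
    (70368744177664, 140737488355328), (0, 70368744177664)] = true := by
  decide +kernel

theorem k9 : chk C 0x88801880880108808801880880101 [(0, 70368744177664), (0, 70368744177664),
    (70368744177664, 105553116266496)] = true := by
  decide +kernel

theorem k10 : chk C 0x8818801880880108808188101 [(0, 70368744177664), (0, 70368744177664),
    (105553116266496, 140737488355328)] = true := by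
  decide +kernel

end Pool.Agent.Lib.MP_d6150d_an.CcK
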