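import Pool.Agent.Lib.MP_d6150d_an.CcKD

/-! A generated chart: the computations. -/

namespace Pool.Agent.Lib.MP_d6150d_an.CcK

theorem k11 : chk C 0x880880288280188280880880212 [(70368744177664, 105553116266496), (0,
    35184372088832), (70368744177664, 140737488355328)] = true := by
  decide +kernel

theorem k12 : chk C 0x882882088801881088021 [(105553116266496, 140737488355328), (0,
    35184372088832), (70368744177664, 105553116266496)] = true := by
  decide +kernel

theorem k13 : chk C 0x880818808828012888120 [(105553116266496, 140737488355328), (0,
    17592186044416), (105553116266496, 140737488355328)] = true := by
  decide +kernel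

theorem k14 : chk C 0x88801881288188020 [(105553116266496, 140737488355328), (17592186044416,
    35184372088832), (105553116266496, 140737488355328)] = true := by
  decide +kernel

end Pool.Agent.Lib.MP_d6150d_an.CcK
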