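import Pool.Agent.Lib.MP_d6150d_an.CcKD

/-! A generated chart: the computations. -/

namespace Pool.Agent.Lib.MP_d6150d_an.CcK

theorem k15 : chk C 0x888018818802188088012 [(70368744177664, 105553116266496), (35184372088832,
    70368744177664), (70368744177664, 140737488355328)] = true := by
  decide +kernel

theorem k16 : chk C 0x8818810881881018808828012 [(105553116266496, 140737488355328),
    (35184372088832, 70368744177664), (70368744177664, 140737488355328)] = true := by
  decide +kernel

theorem k17 : chk C 0x880828808218808802880880210 [(0, 70368744177664), (70368744177664,
    105553116266496), (70368744177664, 140737488355328)] = true := by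
  decide +kernel

end Pool.Agent.Lib.MP_d6150d_an.CcK
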