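import Pool.Agent.Lib.MP_d6150d_an.CcKD

/-! A generated chart: the computations. -/

namespace Pool.Agent.Lib.MP_d6150d_an.CcK

theorem k18 : chk C 0x8818818802088821880880201 [(0, 70368744177664), (105553116266496,
    140737488355328), (70368744177664, 140737488355328)] = true := by
  decide +kernel

theorem k19 : chk C 0x881880288188021 [(70368744177664, 105553116266496), (70368744177664,
    105553116266496), (70368744177664, 140737488355328)] = true := by
  decide +kernel

theorem k20 : chk C 0x88821888210881881088021 [(105553116266496, 140737488355328), (70368744177664,
    105553116266496), (70368744177664, 140737488355328)] = true := by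
  decide +kernel

theorem k21 : chk C 0x882882188288211 [(70368744177664, 105553116266496), (105553116266496,
    140737488355328), (70368744177664, 140737488355328)] = true := by
  decide +kernel

end Pool.Agent.Lib.MP_d6150d_an.CcK
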