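import Pool.Agent.Lib.MP_d6150d_an.GEq
import Pool.Agent.Lib.MP_d6150d_an.CcMac
import Pool.Agent.Lib.MP_d6150d_an.CcKK0
import Pool.Agent.Lib.MP_d6150d_an.CcKK1
import Pool.Agent.Lib.MP_d6150d_an.CcKK2
import Pool.Agent.Lib.MP_d6150d_an.CcKK3
import Pool.Agent.Lib.MP_d6150d_an.CcKK4
import Pool.Agent.Lib.MP_d6150d_an.CcKK5
import Pool.Agent.Lib.MP_d6150d_an.CcKK6

/-! A generated chart: the inequality. -/

namespace Pool.Agent.Lib.MP_d6150d_an.CcK

set_option linter.unnecessarySeqFocus false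
set_option linter.unusedTactic false
set_option linter.unusedVariables false

theorem gd : Gd C [(0, 140737488355328), (0, 140737488355328), (0, 140737488355328)] := .split 2
    (.split 1 (.split 0 (.split 2 (chk_sound k0) (chk_sound k1)) (.split 2 (chk_sound k2) (.split 0
    (chk_sound k3) (chk_sound k4)))) (.split 0 (.split 2 (chk_sound k5) (chk_sound k6)) (.split 0
    (chk_sound k7) (chk_sound k8)))) (.split 1 (.split 0 (.split 2 (chk_sound k9) (chk_sound k10))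
    (.split 1 (.split 0 (chk_sound k11) (.split 2 (chk_sound k12) (.split 1 (chk_sound k13)
    (chk_sound k14)))) (.split 0 (chk_sound k15) (chk_sound k16)))) (.split 0 (.split 1 (chk_sound
    k17) (chk_sound k18)) (.split 1 (.split 0 (chk_sound k19) (chk_sound k20)) (.split 0 (chk_sound
    k21) (chk_sound k22)))))

set_option maxRecDepth 100000 in
theorem eq {x et ta F f aa be ga L T u s ph ch r kk z14 d z16 pc r2 A0 B0 i2 Om W iw N0 H0 iq a g mm
    om b c z34 ro X S z38 G0 z40 G1 : ℝ} (hF : F = 1 / 4 + 3 * x / 16) (hf : f = F⁻¹) (haa : aa = 1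
    / 2 - 3 * x / 8) (hbe : be = 29 * x / 125 - 1 / 25) (hga : ga = (7 / 250 + 23 * x / 500) * aa ^
    2) (hL : L = ta * (3 + 13 * x / 4)) (hT : T = 1 + 3 * x / 4 + L) (hu : u = T - L * et) (hs : s =
    Real.exp (-T)) (hph : ph = Real.exp (-(aa * T))) (hch : ch = Real.exp (-((aa - 3 * x / 8) * T)))
    (hr : r = Real.exp (1 - u / 2)) (hkk : kk = Real.exp (-(aa * u))) (hz14 : z14 = Real.exp (-(L *
    et))) (hd : d = 3 / 32 * z14) (hz16 : z16 = Real.exp 2) (hpc : pc = 3 / 32 * z16) (hr2 : r2 = r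
    ^ 2) (hA0 : A0 = (1 - d) * f / 2) (hB0 : B0 = (1 - 2 * d) / aa) (hi2 : i2 = (2 - 2 * F)⁻¹) (hOm
    : Om = 2 * (r2 * (A0 * (s - ph) + B0 * (1 - ph) - d * ph * i2) + pc * i2)) (hW : W = (1 - s) *
    (r2 * (1 - d) + pc)) (hiw : iw = W⁻¹) (hN0 : N0 = F * Om) (hH0 : H0 = Om * (r2 * (1 - 2 * d) + 2
    * pc)) (hiq : iq = iw ^ 2) (ha : a = -(N0 * iw)) (hg : g = iq * H0) (hmm : mm = iq * (2 * W * (W
    + N0) - H0)) (hom : om = iq * (Om * (pc + s * r2 * (1 - d)))) (hb : b = -(iq * (Om * pc))) (hc :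
    c = F * (1 - F + 2 * d) / 3) (hz34 : z34 = (√(r2 * ph + c * Om))⁻¹) (hro : ro = r * z34) (hX : X
    = 1 - ph * ro ^ 2) (hS : S = ch * ro ^ 3) (hz38 : z38 = (mCR be f a g mm om b).1) (hG0 : G0 =
    z38 - S * (1 - be + 3 * be * X)) (hz40 : z40 = (mCR be f a g mm om b).2) (hG1 : G1 = ga * Om *
    (z40 - 3 * S * ph * ro ^ 2 * (f - 1 - 5 * X))) : outR prog 0 [x, et, ta] = G1 - kk * (r2 * G0)
    := by
  replace hF : F = (((Int.cast (1) : ℝ) / (Nat.cast 4 : ℝ)) + (((Int.cast (1) : ℝ) / (Nat.cast 16 :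
    ℝ)) * ((Int.cast (3) : ℝ) * x))) := hF.trans (by push_cast <;> ring)
  replace hf : f = F⁻¹ := hf.trans (by push_cast <;> ring)
  replace haa : aa = (((Int.cast (1) : ℝ) / (Nat.cast 2 : ℝ)) - (((Int.cast (1) : ℝ) / (Nat.cast 8 :
    ℝ)) * ((Int.cast (3) : ℝ) * x))) := haa.trans (by push_cast <;> ring)
  replace hbe : be = ((((Int.cast (1) : ℝ) / (Nat.cast 125 : ℝ)) * ((Int.cast (29) : ℝ) * x)) -
    ((Int.cast (1) : ℝ) / (Nat.cast 25 : ℝ))) := hbe.trans (by push_cast <;> ring)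
  replace hga : ga = ((((Int.cast (7) : ℝ) / (Nat.cast 250 : ℝ)) + (((Int.cast (1) : ℝ) / (Nat.cast
    500 : ℝ)) * ((Int.cast (23) : ℝ) * x))) * (aa * aa)) := hga.trans (by push_cast <;> ring)
  replace hL : L = (ta * ((Int.cast (3) : ℝ) + (((Int.cast (1) : ℝ) / (Nat.cast 4 : ℝ)) * ((Int.cast
    (13) : ℝ) * x)))) := hL.trans (by push_cast <;> ring)
  replace hT : T = (((Int.cast (1) : ℝ) + (((Int.cast (1) : ℝ) / (Nat.cast 4 : ℝ)) * ((Int.cast (3)
    : ℝ) * x))) + L) := hT.trans (by push_cast <;> ring)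
  replace hu : u = (T - (L * et)) := hu.trans (by push_cast <;> ring)
  replace hs : s = (Real.exp ((Int.cast (-1) : ℝ) * T)) := hs.trans (congrArg Real.exp (by push_cast
    <;> ring))
  replace hph : ph = (Real.exp ((Int.cast (-1) : ℝ) * (aa * T))) := hph.trans (congrArg Real.exp (by
    push_cast <;> ring))
  replace hch : ch = (Real.exp ((Int.cast (-1) : ℝ) * ((aa - (((Int.cast (1) : ℝ) / (Nat.cast 8 :
    ℝ)) * ((Int.cast (3) : ℝ) * x))) * T))) := hch.trans (congrArg Real.exp (by push_cast <;> ring))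
  replace hr : r = (Real.exp ((Int.cast (1) : ℝ) - (((Int.cast (1) : ℝ) / (Nat.cast 2 : ℝ)) * u)))
    := hr.trans (congrArg Real.exp (by push_cast <;> ring))
  replace hkk : kk = (Real.exp ((Int.cast (-1) : ℝ) * (aa * u))) := hkk.trans (congrArg Real.exp (by
    push_cast <;> ring))
  replace hz14 : z14 = (Real.exp ((Int.cast (-1) : ℝ) * (L * et))) := hz14.trans (congrArg Real.exp
    (by push_cast <;> ring))
  replace hd : d = (((Int.cast (3) : ℝ) / (Nat.cast 32 : ℝ)) * z14) := hd.trans (by push_cast <;>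
    ring)
  replace hz16 : z16 = (Real.exp (Int.cast (2) : ℝ)) := hz16.trans (congrArg Real.exp (by push_cast
    <;> ring))
  replace hpc : pc = (((Int.cast (3) : ℝ) / (Nat.cast 32 : ℝ)) * z16) := hpc.trans (by push_cast <;>
    ring)
  replace hr2 : r2 = (r * r) := hr2.trans (by push_cast <;> ring)
  replace hA0 : A0 = (((Int.cast (1) : ℝ) / (Nat.cast 2 : ℝ)) * (((Int.cast (1) : ℝ) - d) * f)) :=
    hA0.trans (by push_cast <;> ring)
  replace hB0 : B0 = (((Int.cast (1) : ℝ) - ((Int.cast (2) : ℝ) * d)) * aa⁻¹) := hB0.trans (by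
    push_cast <;> ring)
  replace hi2 : i2 = ((Int.cast (2) : ℝ) - ((Int.cast (2) : ℝ) * F))⁻¹ := hi2.trans (by push_cast
    <;> ring)
  replace hOm : Om = ((Int.cast (2) : ℝ) * ((r2 * (((A0 * (s - ph)) + (B0 * ((Int.cast (1) : ℝ) -
    ph))) - ((d * ph) * i2))) + (pc * i2))) := hOm.trans (by push_cast <;> ring)
  replace hW : W = (((Int.cast (1) : ℝ) - s) * ((r2 * ((Int.cast (1) : ℝ) - d)) + pc)) := hW.trans
    (by push_cast <;> ring)
  replace hiw : iw = W⁻¹ := hiw.trans (by push_cast <;> ring)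
  replace hN0 : N0 = (F * Om) := hN0.trans (by push_cast <;> ring)
  replace hH0 : H0 = (Om * ((r2 * ((Int.cast (1) : ℝ) - ((Int.cast (2) : ℝ) * d))) + ((Int.cast (2)
    : ℝ) * pc))) := hH0.trans (by push_cast <;> ring)
  replace hiq : iq = (iw * iw) := hiq.trans (by push_cast <;> ring)
  replace ha : a = ((Int.cast (-1) : ℝ) * (N0 * iw)) := ha.trans (by push_cast <;> ring)
  replace hg : g = (iq * H0) := hg.trans (by push_cast <;> ring)
  replace hmm : mm = (iq * ((((Int.cast (2) : ℝ) * W) * (W + N0)) - H0)) := hmm.trans (by push_cast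
    <;> ring)
  replace hom : om = (iq * (Om * (pc + ((s * r2) * ((Int.cast (1) : ℝ) - d))))) := hom.trans (by
    push_cast <;> ring)
  replace hb : b = ((Int.cast (-1) : ℝ) * (iq * (Om * pc))) := hb.trans (by push_cast <;> ring)
  replace hc : c = (((Int.cast (1) : ℝ) / (Nat.cast 3 : ℝ)) * (F * (((Int.cast (1) : ℝ) - F) +
    ((Int.cast (2) : ℝ) * d)))) := hc.trans (by push_cast <;> ring)
  replace hz34 : z34 = (√((r2 * ph) + (c * Om)))⁻¹ := hz34.trans (congrArg (fun x : ℝ ↦ (√x)⁻¹) (by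
    push_cast <;> ring))
  replace hro : ro = (r * z34) := hro.trans (by push_cast <;> ring)
  replace hX : X = ((Int.cast (1) : ℝ) - (ph * (ro * ro))) := hX.trans (by push_cast <;> ring)
  replace hS : S = (ch * ((ro * ro) * ro)) := hS.trans (by push_cast <;> ring)
  replace hz38 : z38 = (mCR be f a g mm om b).1 := hz38.trans (mCR_0 ..)
  replace hG0 : G0 = (z38 - (S * (((Int.cast (1) : ℝ) - be) + (((Int.cast (3) : ℝ) * be) * X)))) :=
    hG0.trans (by push_cast <;> ring)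
  replace hz40 : z40 = (mCR be f a g mm om b).2 := hz40.trans (mCR_1 ..)
  replace hG1 : G1 = ((ga * Om) * (z40 - (((((Int.cast (3) : ℝ) * S) * ph) * (ro * ro)) * ((f -
    (Int.cast (1) : ℝ)) - ((Int.cast (5) : ℝ) * X))))) := hG1.trans (by push_cast <;> ring)
  have e0 : (G1 - (kk * (r2 * G0))) = G1 - kk * (r2 * G0) := by push_cast <;> ring
  subst hF hf haa hbe hga hL hT hu hs hph hch hr hkk hz14 hd hz16 hpc hr2 hA0 hB0 hi2 hOm hW hiw hN0
    hH0 hiq ha hg hmm hom hb hc hz34 hro hX hS hz38 hG0 hz40 hG1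
  refine Eq.trans ?_ e0 <;>
    simp only [outR, prog, prog1, prog2, prog3, runR, stepR, gtR, mCR]

theorem l0 : ((0 : ℤ) : ℝ) / 2 ^ 47 = 0 := by norm_num
theorem u0 : (1 : ℝ) = ((140737488355328 : ℤ) : ℝ) / 2 ^ 47 := by norm_num
theorem l1 : ((0 : ℤ) : ℝ) / 2 ^ 47 = 0 := by norm_num
theorem u1 : (1 : ℝ) = ((140737488355328 : ℤ) : ℝ) / 2 ^ 47 := by norm_num
theorem l2 : ((0 : ℤ) : ℝ) / 2 ^ 47 = 0 := by norm_num
theorem u2 : (1 : ℝ) = ((140737488355328 : ℤ) : ℝ) / 2 ^ 47 := by norm_num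

theorem out0 {x et ta : ℝ} (a0 : 0 ≤ x) (b0 : x ≤ 1) (a1 : 0 ≤ et) (b1 : et ≤ 1) (a2 : 0 ≤ ta) (b2 :
    ta ≤ 1) : 0 < outR prog 0 [x, et, ta] :=
  gd 0 (by decide) [x, et, ta] (.cons ⟨l0.le.trans a0, b0.trans u0.le⟩ (.cons ⟨l1.le.trans a1,
    b1.trans u1.le⟩ (.cons ⟨l2.le.trans a2, b2.trans u2.le⟩ (.nil)))) ⟨nofun, nofun, nofun, trivial⟩
    (List.forall_mem_nil _) (Van.of0 rfl) (nofun)

theorem pos0 {x et ta F f aa be ga L T u s ph ch r kk z14 d z16 pc r2 A0 B0 i2 Om W iw N0 H0 iq a g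
    mm om b c z34 ro X S z38 G0 z40 G1 : ℝ} (hF : F = 1 / 4 + 3 * x / 16) (hf : f = F⁻¹) (haa : aa =
    1 / 2 - 3 * x / 8) (hbe : be = 29 * x / 125 - 1 / 25) (hga : ga = (7 / 250 + 23 * x / 500) * aa
    ^ 2) (hL : L = ta * (3 + 13 * x / 4)) (hT : T = 1 + 3 * x / 4 + L) (hu : u = T - L * et) (hs : s
    = Real.exp (-T)) (hph : ph = Real.exp (-(aa * T))) (hch : ch = Real.exp (-((aa - 3 * x / 8) *
    T))) (hr : r = Real.exp (1 - u / 2)) (hkk : kk = Real.exp (-(aa * u))) (hz14 : z14 = Real.exp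
    (-(L * et))) (hd : d = 3 / 32 * z14) (hz16 : z16 = Real.exp 2) (hpc : pc = 3 / 32 * z16) (hr2 :
    r2 = r ^ 2) (hA0 : A0 = (1 - d) * f / 2) (hB0 : B0 = (1 - 2 * d) / aa) (hi2 : i2 = (2 - 2 *
    F)⁻¹) (hOm : Om = 2 * (r2 * (A0 * (s - ph) + B0 * (1 - ph) - d * ph * i2) + pc * i2)) (hW : W =
    (1 - s) * (r2 * (1 - d) + pc)) (hiw : iw = W⁻¹) (hN0 : N0 = F * Om) (hH0 : H0 = Om * (r2 * (1 -
    2 * d) + 2 * pc)) (hiq : iq = iw ^ 2) (ha : a = -(N0 * iw)) (hg : g = iq * H0) (hmm : mm = iq *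
    (2 * W * (W + N0) - H0)) (hom : om = iq * (Om * (pc + s * r2 * (1 - d)))) (hb : b = -(iq * (Om *
    pc))) (hc : c = F * (1 - F + 2 * d) / 3) (hz34 : z34 = (√(r2 * ph + c * Om))⁻¹) (hro : ro = r *
    z34) (hX : X = 1 - ph * ro ^ 2) (hS : S = ch * ro ^ 3) (hz38 : z38 = (mCR be f a g mm om b).1)
    (hG0 : G0 = z38 - S * (1 - be + 3 * be * X)) (hz40 : z40 = (mCR be f a g mm om b).2) (hG1 : G1 =
    ga * Om * (z40 - 3 * S * ph * ro ^ 2 * (f - 1 - 5 * X))) (a0 : 0 ≤ x) (b0 : x ≤ 1) (a1 : 0 ≤ et)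
    (b1 : et ≤ 1) (a2 : 0 ≤ ta) (b2 : ta ≤ 1) : 0 < G1 - kk * (r2 * G0) :=
  have e := eq hF hf haa hbe hga hL hT hu hs hph hch hr hkk hz14 hd hz16 hpc hr2 hA0 hB0 hi2 hOm hW
    hiw hN0 hH0 hiq ha hg hmm hom hb hc hz34 hro hX hS hz38 hG0 hz40 hG1
  (out0 a0 b0 a1 b1 a2 b2).trans_eq e

end Pool.Agent.Lib.MP_d6150d_an.CcK
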