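import Pool.Agent.Lib.MP_d6150d_an.CcLD

/-! A generated chart: the computations. -/

namespace Pool.Agent.Lib.MP_d6150d_an.CcL

theorem k0 : chk C 0x88883009938903993890321 [(0, 8796093022208), (0, 35184372088832), (0,
    140737488355328), (0, 70368744177664)] = true := by
  decide +kernel

theorem k1 : chk C 0x888309931 [(0, 8796093022208), (0, 35184372088832), (0, 140737488355328),
    (70368744177664, 140737488355328)] = true := by
  decide +kernel

theorem k2 : chk C 0x881 [(8796093022208, 17592186044416), (0, 35184372088832), (0,
    140737488355328), (0, 140737488355328)] = true := by
  decide +kernel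

theorem k3 : chk C 0x88888833000 [(0, 17592186044416), (35184372088832, 70368744177664), (0,
    140737488355328), (0, 140737488355328)] = true := by
  decide +kernel

theorem k4 : chk C 0x88811 [(17592186044416, 35184372088832), (0, 70368744177664), (0,
    140737488355328), (0, 140737488355328)] = true := by
  decide +kernel

theorem k5 : chk C 0x881883888108888310300 [(0, 35184372088832), (70368744177664, 140737488355328),
    (0, 140737488355328), (0, 140737488355328)] = true := by
  decide +kernel

end Pool.Agent.Lib.MP_d6150d_an.CcL
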