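import Pool.Agent.Lib.MP_d6150d_an.CcLD

/-! A generated chart: the computations. -/

namespace Pool.Agent.Lib.MP_d6150d_an.CcL

theorem k6 : chk C 0x8818810880883880111 [(35184372088832, 70368744177664), (0, 140737488355328),
    (0, 140737488355328), (0, 140737488355328)] = true := by
  decide +kernel

theorem k7 : chk C 0x8828088280881882011 [(70368744177664, 105553116266496), (0, 70368744177664),
    (0, 140737488355328), (0, 140737488355328)] = true := by
  decide +kernel

theorem k8 : chk C 0x88188128810 [(70368744177664, 105553116266496), (70368744177664,
    140737488355328), (0, 140737488355328), (0, 140737488355328)] = true := by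
  decide +kernel

theorem k9 : chk C 0x88188288213 [(105553116266496, 123145302310912), (0, 17592186044416), (0,
    140737488355328), (0, 140737488355328)] = true := by
  decide +kernel

theorem k10 : chk C 0x8808838028828088088280321 [(123145302310912, 140737488355328), (0,
    17592186044416), (0, 140737488355328), (0, 140737488355328)] = true := by
  decide +kernel

end Pool.Agent.Lib.MP_d6150d_an.CcL
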