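import Pool.Agent.Lib.MP_d6150d_an.CcLD

/-! A generated chart: the computations. -/

namespace Pool.Agent.Lib.MP_d6150d_an.CcL

theorem k11 : chk C 0x883808828828032888320 [(105553116266496, 140737488355328), (17592186044416,
    35184372088832), (0, 140737488355328), (0, 140737488355328)] = true := by
  decide +kernel

theorem k12 : chk C 0x88288288123 [(105553116266496, 123145302310912), (35184372088832,
    70368744177664), (0, 140737488355328), (0, 140737488355328)] = true := by
  decide +kernel

theorem k13 : chk C 0x88188280388088832882032 [(123145302310912, 140737488355328), (35184372088832,
    70368744177664), (0, 140737488355328), (0, 140737488355328)] = true := by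
  decide +kernel

theorem k14 : chk C 0x881881882882123 [(105553116266496, 123145302310912), (70368744177664,
    140737488355328), (0, 140737488355328), (0, 140737488355328)] = true := by
  decide +kernel

end Pool.Agent.Lib.MP_d6150d_an.CcL
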