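import Pool.Agent.Lib.MP_d6150d_an.CcLD

/-! A generated chart: the computations. -/

namespace Pool.Agent.Lib.MP_d6150d_an.CcL

theorem k15 : chk C 0x880880188280882882013 [(123145302310912, 140737488355328), (70368744177664,
    140737488355328), (0, 70368744177664), (0, 140737488355328)] = true := by
  decide +kernel

theorem k16 : chk C 0x88821888128828013 [(123145302310912, 140737488355328), (70368744177664,
    140737488355328), (70368744177664, 140737488355328), (0, 140737488355328)] = true := by
  decide +kernel

end Pool.Agent.Lib.MP_d6150d_an.CcL
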