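import Pool.Agent.Lib.MP_d6150d_an.GEq
import Pool.Agent.Lib.MP_d6150d_an.CcMac
import Pool.Agent.Lib.MP_d6150d_an.PpChk
import Pool.Agent.Lib.MP_d6150d_an.CcLK0
import Pool.Agent.Lib.MP_d6150d_an.CcLK1
import Pool.Agent.Lib.MP_d6150d_an.CcLK2
import Pool.Agent.Lib.MP_d6150d_an.CcLK3

/-! A generated chart: the inequality. -/

namespace Pool.Agent.Lib.MP_d6150d_an.CcL

set_option linter.unnecessarySeqFocus false
set_option linter.unusedTactic false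
set_option linter.unusedVariables false

theorem gd : Gd2 C [(0, 140737488355328), (0, 140737488355328), (0, 140737488355328), (0,
    140737488355328)] := .split 0 (.split 0 (.split 1 (.split 0 (.split 1 (.split 0 (.split 3
    (chk_sound2 k0) (chk_sound2 k1)) (chk_sound2 k2)) (chk_sound2 k3)) (chk_sound2 k4)) (chk_sound2 k5))
    (chk_sound2 k6)) (.split 0 (.split 1 (chk_sound2 k7) (chk_sound2 k8)) (.split 1 (.split 1 (.split 1
    (.split 0 (chk_sound2 k9) (chk_sound2 k10)) (chk_sound2 k11)) (.split 0 (chk_sound2 k12) (chk_sound2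
    k13))) (.split 0 (chk_sound2 k14) (.split 2 (chk_sound2 k15) (chk_sound2 k16)))))

set_option maxRecDepth 100000 in
theorem eq {x j o m F f aa be ga t1 y3 y4 T y1 y2 y5 w ph s ch pc d r r2 A0 B0 i2 Om W iw N0 H0 iq a
    g mm om b c z36 ro X S z40 G0 z42 G1 : ℝ} (hF : F = 1 / 4 + 3 * x / 16) (hf : f = F⁻¹) (haa : aa
    = 1 / 2 - 3 * x / 8) (hbe : be = 29 * x / 125 - 1 / 25) (hga : ga = (7 / 250 + 23 * x / 500) *
    aa ^ 2) (ht1 : t1 = 1 + 3 * x / 4) (hy3 : y3 = Real.exp t1) (hy4 : y4 = Real.exp (aa * t1)) (hT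
    : T = 4 + 4 * x) (hy1 : y1 = Real.exp (-(aa * T))) (hy2 : y2 = Real.exp (-T)) (hy5 : y5 =
    Real.exp (-((aa - 3 * x / 8) * T))) (hw : w = m + 3 * x / 4 * o * (1 - m)) (hph : ph = y1 * w)
    (hs : s = y2 * m ^ 2) (hch : ch = y5 * (2 * w - m)) (hpc : pc = 3 / 32 * y3 * j) (hd : d = pc *
    s) (hr : r = 1) (hr2 : r2 = r ^ 2) (hA0 : A0 = (1 - d) * f / 2) (hB0 : B0 = (1 - 2 * d) / aa)
    (hi2 : i2 = (2 - 2 * F)⁻¹) (hOm : Om = 2 * (r2 * (A0 * (s - ph) + B0 * (1 - ph) - d * ph * i2) +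
    pc * i2)) (hW : W = (1 - s) * (r2 * (1 - d) + pc)) (hiw : iw = W⁻¹) (hN0 : N0 = F * Om) (hH0 :
    H0 = Om * (r2 * (1 - 2 * d) + 2 * pc)) (hiq : iq = iw ^ 2) (ha : a = -(N0 * iw)) (hg : g = iq *
    H0) (hmm : mm = iq * (2 * W * (W + N0) - H0)) (hom : om = iq * (Om * (pc + s * r2 * (1 - d))))
    (hb : b = -(iq * (Om * pc))) (hc : c = F * (1 - F + 2 * d) / 3) (hz36 : z36 = (√(r2 * ph + c *
    Om))⁻¹) (hro : ro = r * z36) (hX : X = 1 - ph * ro ^ 2) (hS : S = ch * ro ^ 3) (hz40 : z40 =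
    (mCR be f a g mm om b).1) (hG0 : G0 = z40 - S * (1 - be + 3 * be * X)) (hz42 : z42 = (mCR be f a
    g mm om b).2) (hG1 : G1 = ga * Om * (z42 - 3 * S * ph * ro ^ 2 * (f - 1 - 5 * X))) : outR prog 0
    [x, j, o, m] = y4 * j * G1 - (j + aa * (1 - j)) * (r2 * G0) ∧ outR prog 1 [x, j, o, m] = y4 * (1
    - aa + aa * j) * G1 - r2 * G0 := by
  replace hF : F = (((Int.cast (1) : ℝ) / (Nat.cast 4 : ℝ)) + (((Int.cast (1) : ℝ) / (Nat.cast 16 :
    ℝ)) * ((Int.cast (3) : ℝ) * x))) := hF.trans (by push_cast <;> ring)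
  replace hf : f = F⁻¹ := hf.trans (by push_cast <;> ring)
  replace haa : aa = (((Int.cast (1) : ℝ) / (Nat.cast 2 : ℝ)) - (((Int.cast (1) : ℝ) / (Nat.cast 8 :
    ℝ)) * ((Int.cast (3) : ℝ) * x))) := haa.trans (by push_cast <;> ring)
  replace hbe : be = ((((Int.cast (1) : ℝ) / (Nat.cast 125 : ℝ)) * ((Int.cast (29) : ℝ) * x)) -
    ((Int.cast (1) : ℝ) / (Nat.cast 25 : ℝ))) := hbe.trans (by push_cast <;> ring)
  replace hga : ga = ((((Int.cast (7) : ℝ) / (Nat.cast 250 : ℝ)) + (((Int.cast (1) : ℝ) / (Nat.cast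
    500 : ℝ)) * ((Int.cast (23) : ℝ) * x))) * (aa * aa)) := hga.trans (by push_cast <;> ring)
  replace ht1 : t1 = ((Int.cast (1) : ℝ) + (((Int.cast (1) : ℝ) / (Nat.cast 4 : ℝ)) * ((Int.cast (3)
    : ℝ) * x))) := ht1.trans (by push_cast <;> ring)
  replace hy4 : y4 = (Real.exp (aa * t1)) := hy4.trans (congrArg Real.exp (by push_cast <;> ring))
  replace hT : T = ((Int.cast (4) : ℝ) + ((Int.cast (4) : ℝ) * x)) := hT.trans (by push_cast <;>
    ring)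
  replace hy1 : y1 = (Real.exp ((Int.cast (-1) : ℝ) * (aa * T))) := hy1.trans (congrArg Real.exp (by
    push_cast <;> ring))
  replace hy2 : y2 = (Real.exp ((Int.cast (-1) : ℝ) * T)) := hy2.trans (congrArg Real.exp (by
    push_cast <;> ring))
  replace hy5 : y5 = (Real.exp ((Int.cast (-1) : ℝ) * ((aa - (((Int.cast (1) : ℝ) / (Nat.cast 8 :
    ℝ)) * ((Int.cast (3) : ℝ) * x))) * T))) := hy5.trans (congrArg Real.exp (by push_cast <;> ring))
  replace hw : w = (m + (((((Int.cast (1) : ℝ) / (Nat.cast 4 : ℝ)) * ((Int.cast (3) : ℝ) * x)) * o)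
    * ((Int.cast (1) : ℝ) - m))) := hw.trans (by push_cast <;> ring)
  replace hph : ph = (y1 * w) := hph.trans (by push_cast <;> ring)
  replace hs : s = (y2 * (m * m)) := hs.trans (by push_cast <;> ring)
  replace hch : ch = (y5 * (((Int.cast (2) : ℝ) * w) - m)) := hch.trans (by push_cast <;> ring)
  replace hpc : pc = ((((Int.cast (3) : ℝ) / (Nat.cast 32 : ℝ)) * y3) * j) := hpc.trans (by
    push_cast <;> ring)
  replace hd : d = (pc * s) := hd.trans (by push_cast <;> ring)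
  replace hr : r = (Int.cast (1) : ℝ) := hr.trans (by push_cast <;> ring)
  replace hr2 : r2 = (r * r) := hr2.trans (by push_cast <;> ring)
  replace hA0 : A0 = (((Int.cast (1) : ℝ) / (Nat.cast 2 : ℝ)) * (((Int.cast (1) : ℝ) - d) * f)) :=
    hA0.trans (by push_cast <;> ring)
  replace hB0 : B0 = (((Int.cast (1) : ℝ) - ((Int.cast (2) : ℝ) * d)) * aa⁻¹) := hB0.trans (by
    push_cast <;> ring)
  replace hi2 : i2 = ((Int.cast (2) : ℝ) - ((Int.cast (2) : ℝ) * F))⁻¹ := hi2.trans (by push_cast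
    <;> ring)
  replace hOm : Om = ((Int.cast (2) : ℝ) * ((r2 * (((A0 * (s - ph)) + (B0 * ((Int.cast (1) : ℝ) -
    ph))) - ((d * ph) * i2))) + (pc * i2))) := hOm.trans (by push_cast <;> ring)
  replace hW : W = (((Int.cast (1) : ℝ) - s) * ((r2 * ((Int.cast (1) : ℝ) - d)) + pc)) := hW.trans
    (by push_cast <;> ring)
  replace hiw : iw = W⁻¹ := hiw.trans (by push_cast <;> ring)
  replace hN0 : N0 = (F * Om) := hN0.trans (by push_cast <;> ring)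
  replace hH0 : H0 = (Om * ((r2 * ((Int.cast (1) : ℝ) - ((Int.cast (2) : ℝ) * d))) + ((Int.cast (2)
    : ℝ) * pc))) := hH0.trans (by push_cast <;> ring)
  replace hiq : iq = (iw * iw) := hiq.trans (by push_cast <;> ring)
  replace ha : a = ((Int.cast (-1) : ℝ) * (N0 * iw)) := ha.trans (by push_cast <;> ring)
  replace hg : g = (iq * H0) := hg.trans (by push_cast <;> ring)
  replace hmm : mm = (iq * ((((Int.cast (2) : ℝ) * W) * (W + N0)) - H0)) := hmm.trans (by push_cast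
    <;> ring)
  replace hom : om = (iq * (Om * (pc + ((s * r2) * ((Int.cast (1) : ℝ) - d))))) := hom.trans (by
    push_cast <;> ring)
  replace hb : b = ((Int.cast (-1) : ℝ) * (iq * (Om * pc))) := hb.trans (by push_cast <;> ring)
  replace hc : c = (((Int.cast (1) : ℝ) / (Nat.cast 3 : ℝ)) * (F * (((Int.cast (1) : ℝ) - F) +
    ((Int.cast (2) : ℝ) * d)))) := hc.trans (by push_cast <;> ring)
  replace hz36 : z36 = (√((r2 * ph) + (c * Om)))⁻¹ := hz36.trans (congrArg (fun x : ℝ ↦ (√x)⁻¹) (by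
    push_cast <;> ring))
  replace hro : ro = (r * z36) := hro.trans (by push_cast <;> ring)
  replace hX : X = ((Int.cast (1) : ℝ) - (ph * (ro * ro))) := hX.trans (by push_cast <;> ring)
  replace hS : S = (ch * ((ro * ro) * ro)) := hS.trans (by push_cast <;> ring)
  replace hz40 : z40 = (mCR be f a g mm om b).1 := hz40.trans (mCR_0 ..)
  replace hG0 : G0 = (z40 - (S * (((Int.cast (1) : ℝ) - be) + (((Int.cast (3) : ℝ) * be) * X)))) :=
    hG0.trans (by push_cast <;> ring)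
  replace hz42 : z42 = (mCR be f a g mm om b).2 := hz42.trans (mCR_1 ..)
  replace hG1 : G1 = ((ga * Om) * (z42 - (((((Int.cast (3) : ℝ) * S) * ph) * (ro * ro)) * ((f -
    (Int.cast (1) : ℝ)) - ((Int.cast (5) : ℝ) * X))))) := hG1.trans (by push_cast <;> ring)
  have e0 : (((y4 * j) * G1) - ((j + (aa * ((Int.cast (1) : ℝ) - j))) * (r2 * G0))) = y4 * j * G1 -
    (j + aa * (1 - j)) * (r2 * G0) := by push_cast <;> ring
  have e1 : (((y4 * (((Int.cast (1) : ℝ) - aa) + (aa * j))) * G1) - (r2 * G0)) = y4 * (1 - aa + aa *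
    j) * G1 - r2 * G0 := by push_cast <;> ring
  subst hF hf haa hbe hga ht1 hy3 hy4 hT hy1 hy2 hy5 hw hph hs hch hpc hd hr hr2 hA0 hB0 hi2 hOm hW
    hiw hN0 hH0 hiq ha hg hmm hom hb hc hz36 hro hX hS hz40 hG0 hz42 hG1
  refine ⟨Eq.trans ?_ e0, Eq.trans ?_ e1⟩ <;>
    simp only [outR, prog, prog1, prog2, prog3, prog4, runR, stepR, gtR, mCR]

theorem l0 : ((0 : ℤ) : ℝ) / 2 ^ 47 = 0 := by norm_num
theorem u0 : (1 : ℝ) = ((140737488355328 : ℤ) : ℝ) / 2 ^ 47 := by norm_num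
theorem l1 : ((0 : ℤ) : ℝ) / 2 ^ 47 = 0 := by norm_num
theorem u1 : (1 : ℝ) = ((140737488355328 : ℤ) : ℝ) / 2 ^ 47 := by norm_num
theorem l2 : ((0 : ℤ) : ℝ) / 2 ^ 47 = 0 := by norm_num
theorem u2 : (1 : ℝ) = ((140737488355328 : ℤ) : ℝ) / 2 ^ 47 := by norm_num
theorem l3 : ((0 : ℤ) : ℝ) / 2 ^ 47 = 0 := by norm_num
theorem u3 : (1 : ℝ) = ((140737488355328 : ℤ) : ℝ) / 2 ^ 47 := by norm_num

theorem out0 (N : ∀ o m : ℝ, 0 ≤ o → o ≤ 1 → 0 ≤ m → m ≤ 1 → 0 ≤ outR prog 0 [0, 0, o, m]) {x j o m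
    : ℝ} (a0 : 0 ≤ x) (b0 : x ≤ 1) (a1 : 0 ≤ j) (b1 : j ≤ 1) (a2 : 0 ≤ o) (b2 : o ≤ 1) (a3 : 0 ≤ m)
    (b3 : m ≤ 1)  (p1 : 0 < j) : 0 < outR prog 0 [x, j, o, m] :=
  gd 0 (by decide) [x, j, o, m] (.cons ⟨l0.le.trans a0, b0.trans u0.le⟩ (.cons ⟨l1.le.trans a1,
    b1.trans u1.le⟩ (.cons ⟨l2.le.trans a2, b2.trans u2.le⟩ (.cons ⟨l3.le.trans a3, b3.trans u3.le⟩
    (.nil))))) ⟨nofun, nofun, nofun, nofun, trivial⟩
    (fun _ ↦ .inr (.inl ⟨rfl, p1⟩)) (List.forall_mem_nil _) (Van.of0 rfl)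
    (fun _ _ _ _ _ _ _ y2 a2 b2 y3 a3 b3 ↦ N y2 y3 (l2.ge.trans a2) (b2.trans u2.ge) (l3.ge.trans
    a3) (b3.trans u3.ge))

theorem out1 (N : ∀ o m : ℝ, 0 ≤ o → o ≤ 1 → 0 ≤ m → m ≤ 1 → 0 ≤ outR prog 1 [0, 0, o, m]) {x j o m
    : ℝ} (a0 : 0 ≤ x) (b0 : x ≤ 1) (a1 : 0 ≤ j) (b1 : j ≤ 1) (a2 : 0 ≤ o) (b2 : o ≤ 1) (a3 : 0 ≤ m)
    (b3 : m ≤ 1)  (p1 : 0 < j) : 0 < outR prog 1 [x, j, o, m] :=
  gd 1 (by decide) [x, j, o, m] (.cons ⟨l0.le.trans a0, b0.trans u0.le⟩ (.cons ⟨l1.le.trans a1,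
    b1.trans u1.le⟩ (.cons ⟨l2.le.trans a2, b2.trans u2.le⟩ (.cons ⟨l3.le.trans a3, b3.trans u3.le⟩
    (.nil))))) ⟨nofun, nofun, nofun, nofun, trivial⟩
    (fun _ ↦ .inr (.inl ⟨rfl, p1⟩)) (List.forall_mem_nil _) (Van.of0 rfl)
    (fun _ _ _ _ _ _ _ y2 a2 b2 y3 a3 b3 ↦ N y2 y3 (l2.ge.trans a2) (b2.trans u2.ge) (l3.ge.trans
    a3) (b3.trans u3.ge))

end Pool.Agent.Lib.MP_d6150d_an.CcL
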