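import Pool.Agent.Lib.MP_d6150d_an.CcMD

/-! A generated chart: the computations. -/

namespace Pool.Agent.Lib.MP_d6150d_an.CcM

theorem k0 : chk C 0x88288820820880919299229922921 [(0, 17592186044416), (0, 70368744177664), (0,
    140737488355328)] = true := by
  decide +kernel

theorem k1 : chk C 0x882888011 [(17592186044416, 35184372088832), (0, 70368744177664), (0,
    140737488355328)] = true := by
  decide +kernel

theorem k2 : chk C 0x88182881888181088810208881020 [(0, 35184372088832), (70368744177664,
    140737488355328), (0, 140737488355328)] = true := by
  decide +kernel

end Pool.Agent.Lib.MP_d6150d_an.CcM
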