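import Pool.Agent.Lib.MP_d6150d_an.CcMD

/-! A generated chart: the computations. -/

namespace Pool.Agent.Lib.MP_d6150d_an.CcM

theorem k3 : chk C 0x88821828828288821880211 [(35184372088832, 70368744177664), (0,
    140737488355328), (0, 140737488355328)] = true := by
  decide +kernel

theorem k4 : chk C 0x888018800 [(70368744177664, 140737488355328), (0, 35184372088832), (0,
    70368744177664)] = true := by
  decide +kernel

theorem k5 : chk C 0x882808880188128808201 [(70368744177664, 140737488355328), (0, 35184372088832),
    (70368744177664, 140737488355328)] = true := by
  decide +kernel

theorem k6 : chk C 0x8808288208802 [(70368744177664, 140737488355328), (35184372088832,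
    70368744177664), (0, 140737488355328)] = true := by
  decide +kernel

theorem k7 : chk C 0x8818812881820881802 [(70368744177664, 140737488355328), (70368744177664,
    140737488355328), (0, 140737488355328)] = true := by
  decide +kernel

end Pool.Agent.Lib.MP_d6150d_an.CcM
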