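import Pool.Agent.Lib.MP_d6150d_an.GEq
import Pool.Agent.Lib.MP_d6150d_an.CcMac
import Pool.Agent.Lib.MP_d6150d_an.PpChk
import Pool.Agent.Lib.MP_d6150d_an.CcMK0
import Pool.Agent.Lib.MP_d6150d_an.CcMK1

/-! A generated chart: the inequality. -/

namespace Pool.Agent.Lib.MP_d6150d_an.CcM

set_option linter.unnecessarySeqFocus false
set_option linter.unusedTactic false
set_option linter.unusedVariables false

theorem gd : Gd2 C [(0, 140737488355328), (0, 140737488355328), (0, 140737488355328)] := .split 0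
    (.split 0 (.split 1 (.split 0 (chk_sound2 k0) (chk_sound2 k1)) (chk_sound2 k2)) (chk_sound2 k3))
    (.split 1 (.split 1 (.split 2 (chk_sound2 k4) (chk_sound2 k5)) (chk_sound2 k6)) (chk_sound2 k7))

set_option maxRecDepth 100000 in
theorem eq {x j r F f aa be ga D t E xi yi mu z12 iW M a g b mm om v c R X S z25 G0 z27 G1 : ℝ} (hF
    : F = 1 / 4 + 3 * x / 16) (hf : f = F⁻¹) (haa : aa = 1 / 2 - 3 * x / 8) (hbe : be = 29 * x / 125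
    - 1 / 25) (hga : ga = (7 / 250 + 23 * x / 500) * aa ^ 2) (hD : D = -(3 / 32 * j)) (ht : t = -((1
    + 3 * x / 4) * r)) (hE : E = Real.exp (t / 2)) (hxi : xi = Real.exp (-(t / 2))) (hyi : yi =
    Real.exp (-(F * t))) (hmu : mu = muR D F t) (hz12 : z12 = ph1 (t / 2)) (hiW : iW = (z12 * (1 +
    xi) / 2 * (1 + D - D * xi ^ 2))⁻¹) (hM : M = mu * yi ^ 2 * E * iW) (ha : a = F * t * M) (hg : g
    = M * iW * xi * (1 + 2 * D - 2 * D * xi ^ 2)) (hb : b = M * iW * D * xi ^ 3) (hmm : mm = 2 - 2 *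
    a - g) (hom : om = g + t * M) (hv : v = t ^ 2 * mu) (hc : c = F * (1 - F - 2 * D) / 3) (hR : R =
    (√(1 + c * v))⁻¹) (hX : X = 1 - R ^ 2) (hS : S = yi * R ^ 3) (hz25 : z25 = (mCR be f a g mm om
    b).1) (hG0 : G0 = z25 - S * (1 - be + 3 * be * X)) (hz27 : z27 = (mCR be f a g mm om b).2) (hG1
    : G1 = ga * v * (z27 - 3 * S * R ^ 2 * (f - 1 - 5 * X))) : outR prog 0 [x, j, r] = j * G1 - (j +
    aa * (1 - j)) * G0 ∧ outR prog 1 [x, j, r] = (1 - aa + aa * j) * G1 - G0 := by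
  replace hF : F = (((Int.cast (1) : ℝ) / (Nat.cast 4 : ℝ)) + (((Int.cast (1) : ℝ) / (Nat.cast 16 :
    ℝ)) * ((Int.cast (3) : ℝ) * x))) := hF.trans (by push_cast <;> ring)
  replace hf : f = F⁻¹ := hf.trans (by push_cast <;> ring)
  replace haa : aa = (((Int.cast (1) : ℝ) / (Nat.cast 2 : ℝ)) - (((Int.cast (1) : ℝ) / (Nat.cast 8 :
    ℝ)) * ((Int.cast (3) : ℝ) * x))) := haa.trans (by push_cast <;> ring)
  replace hbe : be = ((((Int.cast (1) : ℝ) / (Nat.cast 125 : ℝ)) * ((Int.cast (29) : ℝ) * x)) -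
    ((Int.cast (1) : ℝ) / (Nat.cast 25 : ℝ))) := hbe.trans (by push_cast <;> ring)
  replace hga : ga = ((((Int.cast (7) : ℝ) / (Nat.cast 250 : ℝ)) + (((Int.cast (1) : ℝ) / (Nat.cast
    500 : ℝ)) * ((Int.cast (23) : ℝ) * x))) * (aa * aa)) := hga.trans (by push_cast <;> ring)
  replace hD : D = ((Int.cast (-1) : ℝ) * (((Int.cast (3) : ℝ) / (Nat.cast 32 : ℝ)) * j)) :=
    hD.trans (by push_cast <;> ring)
  replace ht : t = ((Int.cast (-1) : ℝ) * (((Int.cast (1) : ℝ) + (((Int.cast (1) : ℝ) / (Nat.cast 4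
    : ℝ)) * ((Int.cast (3) : ℝ) * x))) * r)) := ht.trans (by push_cast <;> ring)
  replace hE : E = (Real.exp (((Int.cast (1) : ℝ) / (Nat.cast 2 : ℝ)) * t)) := hE.trans (congrArg
    Real.exp (by push_cast <;> ring))
  replace hxi : xi = (Real.exp ((Int.cast (-1) : ℝ) * (((Int.cast (1) : ℝ) / (Nat.cast 2 : ℝ)) *
    t))) := hxi.trans (congrArg Real.exp (by push_cast <;> ring))
  replace hyi : yi = (Real.exp ((Int.cast (-1) : ℝ) * (F * t))) := hyi.trans (congrArg Real.exp (by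
    push_cast <;> ring))
  replace hmu : mu = (mMu D F t) := hmu.trans (mMu_0 ..)
  replace hz12 : z12 = (ph1 (((Int.cast (1) : ℝ) / (Nat.cast 2 : ℝ)) * t)) := hz12.trans (congrArg
    ph1 (by push_cast <;> ring))
  replace hiW : iW = ((((Int.cast (1) : ℝ) / (Nat.cast 2 : ℝ)) * (z12 * ((Int.cast (1) : ℝ) + xi)))
    * (((Int.cast (1) : ℝ) + D) - (D * (xi * xi))))⁻¹ := hiW.trans (by push_cast <;> ring)
  replace hM : M = (((mu * (yi * yi)) * E) * iW) := hM.trans (by push_cast <;> ring)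
  replace ha : a = ((F * t) * M) := ha.trans (by push_cast <;> ring)
  replace hg : g = (((M * iW) * xi) * (((Int.cast (1) : ℝ) + ((Int.cast (2) : ℝ) * D)) - (((Int.cast
    (2) : ℝ) * D) * (xi * xi)))) := hg.trans (by push_cast <;> ring)
  replace hb : b = (((M * iW) * D) * ((xi * xi) * xi)) := hb.trans (by push_cast <;> ring)
  replace hmm : mm = (((Int.cast (2) : ℝ) - ((Int.cast (2) : ℝ) * a)) - g) := hmm.trans (by
    push_cast <;> ring)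
  replace hom : om = (g + (t * M)) := hom.trans (by push_cast <;> ring)
  replace hv : v = ((t * t) * mu) := hv.trans (by push_cast <;> ring)
  replace hc : c = (((Int.cast (1) : ℝ) / (Nat.cast 3 : ℝ)) * (F * (((Int.cast (1) : ℝ) - F) -
    ((Int.cast (2) : ℝ) * D)))) := hc.trans (by push_cast <;> ring)
  replace hR : R = (√((Int.cast (1) : ℝ) + (c * v)))⁻¹ := hR.trans (congrArg (fun x : ℝ ↦ (√x)⁻¹)
    (by push_cast <;> ring))
  replace hX : X = ((Int.cast (1) : ℝ) - (R * R)) := hX.trans (by push_cast <;> ring)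
  replace hS : S = (yi * ((R * R) * R)) := hS.trans (by push_cast <;> ring)
  replace hz25 : z25 = (mCR be f a g mm om b).1 := hz25.trans (mCR_0 ..)
  replace hG0 : G0 = (z25 - (S * (((Int.cast (1) : ℝ) - be) + (((Int.cast (3) : ℝ) * be) * X)))) :=
    hG0.trans (by push_cast <;> ring)
  replace hz27 : z27 = (mCR be f a g mm om b).2 := hz27.trans (mCR_1 ..)
  replace hG1 : G1 = ((ga * v) * (z27 - ((((Int.cast (3) : ℝ) * S) * (R * R)) * ((f - (Int.cast (1)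
    : ℝ)) - ((Int.cast (5) : ℝ) * X))))) := hG1.trans (by push_cast <;> ring)
  have e0 : ((j * G1) - ((j + (aa * ((Int.cast (1) : ℝ) - j))) * G0)) = j * G1 - (j + aa * (1 - j))
    * G0 := by push_cast <;> ring
  have e1 : (((((Int.cast (1) : ℝ) - aa) + (aa * j)) * G1) - G0) = (1 - aa + aa * j) * G1 - G0 := by
    push_cast <;> ring
  subst hF hf haa hbe hga hD ht hE hxi hyi hmu hz12 hiW hM ha hg hb hmm hom hv hc hR hX hS hz25 hG0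
    hz27 hG1
  refine ⟨Eq.trans ?_ e0, Eq.trans ?_ e1⟩ <;>
    simp only [outR, prog, prog1, prog2, prog3, runR, stepR, gtR, mMu, mCR]

theorem l0 : ((0 : ℤ) : ℝ) / 2 ^ 47 = 0 := by norm_num
theorem u0 : (1 : ℝ) = ((140737488355328 : ℤ) : ℝ) / 2 ^ 47 := by norm_num
theorem l1 : ((0 : ℤ) : ℝ) / 2 ^ 47 = 0 := by norm_num
theorem u1 : (1 : ℝ) = ((140737488355328 : ℤ) : ℝ) / 2 ^ 47 := by norm_num
theorem l2 : ((0 : ℤ) : ℝ) / 2 ^ 47 = 0 := by norm_num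
theorem u2 : (1 : ℝ) = ((140737488355328 : ℤ) : ℝ) / 2 ^ 47 := by norm_num

theorem out0 (V2 : ∀ x j : ℝ, 0 ≤ x → x ≤ 1 → 0 ≤ j → j ≤ 1 → (fun r ↦ outR prog 0 [x, j, r])
    =O[nhdsWithin 0 (Set.Ioi 0)] fun r : ℝ ↦ r ^ 3) (N : ∀ r : ℝ, 0 ≤ r → r ≤ 1 → 0 ≤ outR prog 0
    [0, 0, r]) {x j r : ℝ} (a0 : 0 ≤ x) (b0 : x ≤ 1) (a1 : 0 ≤ j) (b1 : j ≤ 1) (a2 : 0 ≤ r) (b2 : r
    ≤ 1)  (p1 : 0 < j) (p2 : 0 < r) : 0 < outR prog 0 [x, j, r] :=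
  gd 0 (by decide) [x, j, r] (.cons ⟨l0.le.trans a0, b0.trans u0.le⟩ (.cons ⟨l1.le.trans a1,
    b1.trans u1.le⟩ (.cons ⟨l2.le.trans a2, b2.trans u2.le⟩ (.nil)))) ⟨nofun, nofun, fun _ ↦ p2, trivial⟩
    (fun _ ↦ .inr (.inl ⟨rfl, p1⟩)) (List.forall_mem_nil _) (⟨fun _ ↦ allB_iff.2 fun _ _ ↦ trivial, fun y0 a0 b0 ↦
    ⟨fun _ ↦ allB_iff.2 fun _ _ ↦ trivial, fun y1 a1 b1 ↦ ⟨fun _ ↦ V2 y0 y1 (l0.ge.trans a0)
    (b0.trans u0.ge) (l1.ge.trans a1) (b1.trans u1.ge), fun _ _ _ ↦ trivial⟩⟩⟩) (fun _ _ _ _ _ _ _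
    y2 a2 b2 ↦ N y2 (l2.ge.trans a2) (b2.trans u2.ge))

theorem out1 (V2 : ∀ x j : ℝ, 0 ≤ x → x ≤ 1 → 0 ≤ j → j ≤ 1 → (fun r ↦ outR prog 1 [x, j, r])
    =O[nhdsWithin 0 (Set.Ioi 0)] fun r : ℝ ↦ r ^ 3) (N : ∀ r : ℝ, 0 ≤ r → r ≤ 1 → 0 ≤ outR prog 1
    [0, 0, r]) {x j r : ℝ} (a0 : 0 ≤ x) (b0 : x ≤ 1) (a1 : 0 ≤ j) (b1 : j ≤ 1) (a2 : 0 ≤ r) (b2 : r
    ≤ 1)  (p1 : 0 < j) (p2 : 0 < r) : 0 < outR prog 1 [x, j, r] :=
  gd 1 (by decide) [x, j, r] (.cons ⟨l0.le.trans a0, b0.trans u0.le⟩ (.cons ⟨l1.le.trans a1,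
    b1.trans u1.le⟩ (.cons ⟨l2.le.trans a2, b2.trans u2.le⟩ (.nil)))) ⟨nofun, nofun, fun _ ↦ p2, trivial⟩
    (fun _ ↦ .inr (.inl ⟨rfl, p1⟩)) (List.forall_mem_nil _) (⟨fun _ ↦ allB_iff.2 fun _ _ ↦ trivial, fun y0 a0 b0 ↦
    ⟨fun _ ↦ allB_iff.2 fun _ _ ↦ trivial, fun y1 a1 b1 ↦ ⟨fun _ ↦ V2 y0 y1 (l0.ge.trans a0)
    (b0.trans u0.ge) (l1.ge.trans a1) (b1.trans u1.ge), fun _ _ _ ↦ trivial⟩⟩⟩) (fun _ _ _ _ _ _ _
    y2 a2 b2 ↦ N y2 (l2.ge.trans a2) (b2.trans u2.ge))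

end Pool.Agent.Lib.MP_d6150d_an.CcM
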