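import Pool.Agent.Lib.MP_d6150d_an.CcPD

/-! A generated chart: the computations. -/

namespace Pool.Agent.Lib.MP_d6150d_an.CcP

theorem k0 : chk C 0x88880008819992201888008819012 [(0, 35184372088832), (0, 140737488355328), (0,
    35184372088832)] = true := by
  decide +kernel

theorem k1 : chk C 0x8888011 [(35184372088832, 70368744177664), (0, 140737488355328), (0,
    35184372088832)] = true := by
  decide +kernel

theorem k2 : chk C 0x880881801888012 [(70368744177664, 140737488355328), (0, 140737488355328), (0,
    35184372088832)] = true := by
  decide +kernel

theorem k3 : chk C 0x8881188800888800088190110 [(0, 35184372088832), (0, 140737488355328),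
    (35184372088832, 70368744177664)] = true := by
  decide +kernel

theorem k4 : chk C 0x881888121 [(35184372088832, 70368744177664), (0, 140737488355328),
    (35184372088832, 70368744177664)] = true := by
  decide +kernel

end Pool.Agent.Lib.MP_d6150d_an.CcP
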