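import Pool.Agent.Lib.MP_d6150d_an.CcPD

/-! A generated chart: the computations. -/

namespace Pool.Agent.Lib.MP_d6150d_an.CcP

theorem k5 : chk C 0x88811888110 [(70368744177664, 140737488355328), (0, 140737488355328),
    (35184372088832, 70368744177664)] = true := by
  decide +kernel

theorem k6 : chk C 0x88800881880890101 [(0, 17592186044416), (0, 140737488355328), (70368744177664,
    105553116266496)] = true := by
  decide +kernel

theorem k7 : chk C 0x88881008818881089920101 [(0, 17592186044416), (0, 140737488355328),
    (105553116266496, 140737488355328)] = true := by
  decide +kernel

theorem k8 : chk C 0x880828881088121 [(17592186044416, 35184372088832), (0, 140737488355328),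
    (70368744177664, 140737488355328)] = true := by
  decide +kernel

end Pool.Agent.Lib.MP_d6150d_an.CcP
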