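import Pool.Agent.Lib.MP_d6150d_an.GEq
import Pool.Agent.Lib.MP_d6150d_an.CcMac
import Pool.Agent.Lib.MP_d6150d_an.PpChk
import Pool.Agent.Lib.MP_d6150d_an.CcPK0
import Pool.Agent.Lib.MP_d6150d_an.CcPK1
import Pool.Agent.Lib.MP_d6150d_an.CcPK2

/-! A generated chart: the inequality. -/

namespace Pool.Agent.Lib.MP_d6150d_an.CcP

set_option linter.unnecessarySeqFocus false
set_option linter.unusedTactic false
set_option linter.unusedVariables false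

theorem gd : Gd2 C [(0, 140737488355328), (0, 140737488355328), (0, 140737488355328)] := .split 2
    (.split 2 (.split 0 (.split 0 (chk_sound2 k0) (chk_sound2 k1)) (chk_sound2 k2)) (.split 0 (.split 0
    (chk_sound2 k3) (chk_sound2 k4)) (chk_sound2 k5))) (.split 0 (.split 0 (.split 0 (.split 2
    (chk_sound2 k6) (chk_sound2 k7)) (chk_sound2 k8)) (chk_sound2 k9)) (.split 2 (chk_sound2 k10)
    (chk_sound2 k11)))

set_option maxRecDepth 100000 in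
theorem eq {x j r F f aa be ga D t E xi yi mu z12 iW M a g b mm om v c R X S z25 G0 z27 G1 : ℝ} (hF
    : F = 1 / 4 + 3 * x / 16) (hf : f = F⁻¹) (haa : aa = 1 / 2 - 3 * x / 8) (hbe : be = 29 * x / 125
    - 1 / 25) (hga : ga = (7 / 250 + 23 * x / 500) * aa ^ 2) (hD : D = -(3 / 32 * j)) (ht : t = 4 *
    r) (hE : E = Real.exp (t / 2)) (hxi : xi = Real.exp (-(t / 2))) (hyi : yi = Real.exp (-(F * t)))
    (hmu : mu = muR D F t) (hz12 : z12 = ph1 (t / 2)) (hiW : iW = (z12 * (1 + xi) / 2 * (1 + D - D *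
    xi ^ 2))⁻¹) (hM : M = mu * yi ^ 2 * E * iW) (ha : a = F * t * M) (hg : g = M * iW * xi * (1 + 2
    * D - 2 * D * xi ^ 2)) (hb : b = M * iW * D * xi ^ 3) (hmm : mm = 2 - 2 * a - g) (hom : om = g +
    t * M) (hv : v = t ^ 2 * mu) (hc : c = F * (1 - F - 2 * D) / 3) (hR : R = (√(1 + c * v))⁻¹) (hX
    : X = 1 - R ^ 2) (hS : S = yi * R ^ 3) (hz25 : z25 = (mCR be f a g mm om b).1) (hG0 : G0 = z25 -
    S * (1 - be + 3 * be * X)) (hz27 : z27 = (mCR be f a g mm om b).2) (hG1 : G1 = ga * v * (z27 - 3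
    * S * R ^ 2 * (f - 1 - 5 * X))) : outR prog 0 [x, j, r] = G0 ∧ outR prog 1 [x, j, r] = G0 - (1 -
    aa + aa * j) * G1 := by
  replace hF : F = (((Int.cast (1) : ℝ) / (Nat.cast 4 : ℝ)) + (((Int.cast (1) : ℝ) / (Nat.cast 16 :
    ℝ)) * ((Int.cast (3) : ℝ) * x))) := hF.trans (by push_cast <;> ring)
  replace hf : f = F⁻¹ := hf.trans (by push_cast <;> ring)
  replace haa : aa = (((Int.cast (1) : ℝ) / (Nat.cast 2 : ℝ)) - (((Int.cast (1) : ℝ) / (Nat.cast 8 :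
    ℝ)) * ((Int.cast (3) : ℝ) * x))) := haa.trans (by push_cast <;> ring)
  replace hbe : be = ((((Int.cast (1) : ℝ) / (Nat.cast 125 : ℝ)) * ((Int.cast (29) : ℝ) * x)) -
    ((Int.cast (1) : ℝ) / (Nat.cast 25 : ℝ))) := hbe.trans (by push_cast <;> ring)
  replace hga : ga = ((((Int.cast (7) : ℝ) / (Nat.cast 250 : ℝ)) + (((Int.cast (1) : ℝ) / (Nat.cast
    500 : ℝ)) * ((Int.cast (23) : ℝ) * x))) * (aa * aa)) := hga.trans (by push_cast <;> ring)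
  replace hD : D = ((Int.cast (-1) : ℝ) * (((Int.cast (3) : ℝ) / (Nat.cast 32 : ℝ)) * j)) :=
    hD.trans (by push_cast <;> ring)
  replace ht : t = ((Int.cast (4) : ℝ) * r) := ht.trans (by push_cast <;> ring)
  replace hE : E = (Real.exp (((Int.cast (1) : ℝ) / (Nat.cast 2 : ℝ)) * t)) := hE.trans (congrArg
    Real.exp (by push_cast <;> ring))
  replace hxi : xi = (Real.exp ((Int.cast (-1) : ℝ) * (((Int.cast (1) : ℝ) / (Nat.cast 2 : ℝ)) *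
    t))) := hxi.trans (congrArg Real.exp (by push_cast <;> ring))
  replace hyi : yi = (Real.exp ((Int.cast (-1) : ℝ) * (F * t))) := hyi.trans (congrArg Real.exp (by
    push_cast <;> ring))
  replace hmu : mu = (mMu D F t) := hmu.trans (mMu_0 ..)
  replace hz12 : z12 = (ph1 (((Int.cast (1) : ℝ) / (Nat.cast 2 : ℝ)) * t)) := hz12.trans (congrArg
    ph1 (by push_cast <;> ring))
  replace hiW : iW = ((((Int.cast (1) : ℝ) / (Nat.cast 2 : ℝ)) * (z12 * ((Int.cast (1) : ℝ) + xi)))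
    * (((Int.cast (1) : ℝ) + D) - (D * (xi * xi))))⁻¹ := hiW.trans (by push_cast <;> ring)
  replace hM : M = (((mu * (yi * yi)) * E) * iW) := hM.trans (by push_cast <;> ring)
  replace ha : a = ((F * t) * M) := ha.trans (by push_cast <;> ring)
  replace hg : g = (((M * iW) * xi) * (((Int.cast (1) : ℝ) + ((Int.cast (2) : ℝ) * D)) - (((Int.cast
    (2) : ℝ) * D) * (xi * xi)))) := hg.trans (by push_cast <;> ring)
  replace hb : b = (((M * iW) * D) * ((xi * xi) * xi)) := hb.trans (by push_cast <;> ring)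
  replace hmm : mm = (((Int.cast (2) : ℝ) - ((Int.cast (2) : ℝ) * a)) - g) := hmm.trans (by
    push_cast <;> ring)
  replace hom : om = (g + (t * M)) := hom.trans (by push_cast <;> ring)
  replace hv : v = ((t * t) * mu) := hv.trans (by push_cast <;> ring)
  replace hc : c = (((Int.cast (1) : ℝ) / (Nat.cast 3 : ℝ)) * (F * (((Int.cast (1) : ℝ) - F) -
    ((Int.cast (2) : ℝ) * D)))) := hc.trans (by push_cast <;> ring)
  replace hR : R = (√((Int.cast (1) : ℝ) + (c * v)))⁻¹ := hR.trans (congrArg (fun x : ℝ ↦ (√x)⁻¹)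
    (by push_cast <;> ring))
  replace hX : X = ((Int.cast (1) : ℝ) - (R * R)) := hX.trans (by push_cast <;> ring)
  replace hS : S = (yi * ((R * R) * R)) := hS.trans (by push_cast <;> ring)
  replace hz25 : z25 = (mCR be f a g mm om b).1 := hz25.trans (mCR_0 ..)
  replace hG0 : G0 = (z25 - (S * (((Int.cast (1) : ℝ) - be) + (((Int.cast (3) : ℝ) * be) * X)))) :=
    hG0.trans (by push_cast <;> ring)
  replace hz27 : z27 = (mCR be f a g mm om b).2 := hz27.trans (mCR_1 ..)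
  replace hG1 : G1 = ((ga * v) * (z27 - ((((Int.cast (3) : ℝ) * S) * (R * R)) * ((f - (Int.cast (1)
    : ℝ)) - ((Int.cast (5) : ℝ) * X))))) := hG1.trans (by push_cast <;> ring)
  have e1 : (G0 - ((((Int.cast (1) : ℝ) - aa) + (aa * j)) * G1)) = G0 - (1 - aa + aa * j) * G1 := by
    push_cast <;> ring
  subst hF hf haa hbe hga hD ht hE hxi hyi hmu hz12 hiW hM ha hg hb hmm hom hv hc hR hX hS hz25 hG0
    hz27 hG1
  refine ⟨?_, Eq.trans ?_ e1⟩ <;>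
    simp only [outR, prog, prog1, prog2, prog3, runR, stepR, gtR, mMu, mCR]

theorem l0 : ((0 : ℤ) : ℝ) / 2 ^ 47 = 0 := by norm_num
theorem u0 : (1 : ℝ) = ((140737488355328 : ℤ) : ℝ) / 2 ^ 47 := by norm_num
theorem l1 : ((0 : ℤ) : ℝ) / 2 ^ 47 = 0 := by norm_num
theorem u1 : (1 : ℝ) = ((140737488355328 : ℤ) : ℝ) / 2 ^ 47 := by norm_num
theorem l2 : ((0 : ℤ) : ℝ) / 2 ^ 47 = 0 := by norm_num
theorem u2 : (1 : ℝ) = ((140737488355328 : ℤ) : ℝ) / 2 ^ 47 := by norm_num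

theorem out0 (V2 : ∀ x j : ℝ, 0 ≤ x → x ≤ 1 → 0 ≤ j → j ≤ 1 → (fun r ↦ outR prog 0 [x, j, r])
    =O[nhdsWithin 0 (Set.Ioi 0)] fun r : ℝ ↦ r ^ 3) (N : ∀ r : ℝ, 0 ≤ r → r ≤ 1 → 0 ≤ outR prog 0
    [0, 0, r]) {x j r : ℝ} (a0 : 0 ≤ x) (b0 : x ≤ 1) (a1 : 0 ≤ j) (b1 : j ≤ 1) (a2 : 0 ≤ r) (b2 : r
    ≤ 1)  (p1 : 0 < j) (p2 : 0 < r) : 0 < outR prog 0 [x, j, r] :=
  gd 0 (by decide) [x, j, r] (.cons ⟨l0.le.trans a0, b0.trans u0.le⟩ (.cons ⟨l1.le.trans a1,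
    b1.trans u1.le⟩ (.cons ⟨l2.le.trans a2, b2.trans u2.le⟩ (.nil)))) ⟨nofun, nofun, fun _ ↦ p2, trivial⟩
    (fun _ ↦ .inr (.inl ⟨rfl, p1⟩)) (List.forall_mem_nil _) (⟨fun _ ↦ allB_iff.2 fun _ _ ↦ trivial, fun y0 a0 b0 ↦
    ⟨fun _ ↦ allB_iff.2 fun _ _ ↦ trivial, fun y1 a1 b1 ↦ ⟨fun _ ↦ V2 y0 y1 (l0.ge.trans a0)
    (b0.trans u0.ge) (l1.ge.trans a1) (b1.trans u1.ge), fun _ _ _ ↦ trivial⟩⟩⟩) (fun _ _ _ _ _ _ _
    y2 a2 b2 ↦ N y2 (l2.ge.trans a2) (b2.trans u2.ge))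

theorem out1 (V2 : ∀ x j : ℝ, 0 ≤ x → x ≤ 1 → 0 ≤ j → j ≤ 1 → (fun r ↦ outR prog 1 [x, j, r])
    =O[nhdsWithin 0 (Set.Ioi 0)] fun r : ℝ ↦ r ^ 3) (N : ∀ r : ℝ, 0 ≤ r → r ≤ 1 → 0 ≤ outR prog 1
    [0, 0, r]) {x j r : ℝ} (a0 : 0 ≤ x) (b0 : x ≤ 1) (a1 : 0 ≤ j) (b1 : j ≤ 1) (a2 : 0 ≤ r) (b2 : r
    ≤ 1)  (p1 : 0 < j) (p2 : 0 < r) : 0 < outR prog 1 [x, j, r] :=
  gd 1 (by decide) [x, j, r] (.cons ⟨l0.le.trans a0, b0.trans u0.le⟩ (.cons ⟨l1.le.trans a1,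
    b1.trans u1.le⟩ (.cons ⟨l2.le.trans a2, b2.trans u2.le⟩ (.nil)))) ⟨nofun, nofun, fun _ ↦ p2, trivial⟩
    (fun _ ↦ .inr (.inl ⟨rfl, p1⟩)) (List.forall_mem_nil _) (⟨fun _ ↦ allB_iff.2 fun _ _ ↦ trivial, fun y0 a0 b0 ↦
    ⟨fun _ ↦ allB_iff.2 fun _ _ ↦ trivial, fun y1 a1 b1 ↦ ⟨fun _ ↦ V2 y0 y1 (l0.ge.trans a0)
    (b0.trans u0.ge) (l1.ge.trans a1) (b1.trans u1.ge), fun _ _ _ ↦ trivial⟩⟩⟩) (fun _ _ _ _ _ _ _
    y2 a2 b2 ↦ N y2 (l2.ge.trans a2) (b2.trans u2.ge))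

end Pool.Agent.Lib.MP_d6150d_an.CcP
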