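import Pool.Agent.Lib.MP_d6150d_an.CcRD

/-! A generated chart: the computations. -/

namespace Pool.Agent.Lib.MP_d6150d_an.CcR

theorem k0 : chk C 0x881888883302892993312 [(0, 8796093022208), (0, 70368744177664), (0,
    70368744177664), (0, 35184372088832)] = true := by
  decide +kernel

theorem k1 : chk C 0x88828883312 [(8796093022208, 17592186044416), (0, 70368744177664), (0,
    70368744177664), (0, 35184372088832)] = true := by
  decide +kernel

theorem k2 : chk C 0x8838888833220 [(0, 17592186044416), (70368744177664, 140737488355328), (0,
    70368744177664), (0, 35184372088832)] = true := by
  decide +kernel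

theorem k3 : chk C 0x88882118882088883208881290110 [(0, 17592186044416), (0, 140737488355328), (0,
    35184372088832), (35184372088832, 70368744177664)] = true := by
  decide +kernel

theorem k4 : chk C 0x880888101 [(0, 17592186044416), (0, 140737488355328), (35184372088832,
    70368744177664), (35184372088832, 70368744177664)] = true := by
  decide +kernel

end Pool.Agent.Lib.MP_d6150d_an.CcR
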