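import Pool.Agent.Lib.MP_d6150d_an.CcRD

/-! A generated chart: the computations. -/

namespace Pool.Agent.Lib.MP_d6150d_an.CcR

theorem k5 : chk C 0x8838801 [(0, 17592186044416), (0, 140737488355328), (70368744177664,
    140737488355328), (0, 70368744177664)] = true := by
  decide +kernel

theorem k6 : chk C 0x883888818322088883228839201 [(0, 8796093022208), (0, 70368744177664), (0,
    35184372088832), (70368744177664, 140737488355328)] = true := by
  decide +kernel

theorem k7 : chk C 0x883888320 [(0, 8796093022208), (70368744177664, 140737488355328), (0,
    35184372088832), (70368744177664, 140737488355328)] = true := by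
  decide +kernel

theorem k8 : chk C 0x88388883121 [(8796093022208, 17592186044416), (0, 140737488355328), (0,
    35184372088832), (70368744177664, 140737488355328)] = true := by
  decide +kernel

theorem k9 : chk C 0x88188883110 [(0, 17592186044416), (0, 140737488355328), (35184372088832,
    70368744177664), (70368744177664, 140737488355328)] = true := by
  decide +kernel

theorem k10 : chk C 0x8808801 [(0, 17592186044416), (0, 140737488355328), (70368744177664,
    140737488355328), (70368744177664, 140737488355328)] = true := by
  decide +kernel

end Pool.Agent.Lib.MP_d6150d_an.CcR
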