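import Pool.Agent.Lib.MP_d6150d_an.CcRD

/-! A generated chart: the computations. -/

namespace Pool.Agent.Lib.MP_d6150d_an.CcR

theorem k11 : chk C 0x8888322888881128888312321 [(17592186044416, 35184372088832), (0,
    140737488355328), (0, 140737488355328), (0, 70368744177664)] = true := by
  decide +kernel

theorem k12 : chk C 0x8818880288888102212 [(17592186044416, 35184372088832), (0, 140737488355328),
    (0, 140737488355328), (70368744177664, 140737488355328)] = true := by
  decide +kernel

theorem k13 : chk C 0x88820888108883031 [(35184372088832, 70368744177664), (0, 140737488355328), (0,
    70368744177664), (0, 70368744177664)] = true := by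
  decide +kernel

theorem k14 : chk C 0x888118828881210 [(35184372088832, 70368744177664), (0, 140737488355328), (0,
    70368744177664), (70368744177664, 140737488355328)] = true := by
  decide +kernel

theorem k15 : chk C 0x8838831 [(35184372088832, 70368744177664), (0, 140737488355328),
    (70368744177664, 140737488355328), (0, 140737488355328)] = true := by
  decide +kernel

end Pool.Agent.Lib.MP_d6150d_an.CcR
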