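import Pool.Agent.Lib.MP_d6150d_an.CcRD

/-! A generated chart: the computations. -/

namespace Pool.Agent.Lib.MP_d6150d_an.CcR

theorem k16 : chk C 0x88188138808881018838818810132 [(70368744177664, 105553116266496), (0,
    140737488355328), (0, 140737488355328), (0, 140737488355328)] = true := by
  decide +kernel

theorem k17 : chk C 0x88821888210881808881388811023 [(105553116266496, 140737488355328), (0,
    140737488355328), (0, 140737488355328), (0, 140737488355328)] = true := by
  decide +kernel

end Pool.Agent.Lib.MP_d6150d_an.CcR
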