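import Pool.Agent.Lib.MP_d6150d_an.GEq
import Pool.Agent.Lib.MP_d6150d_an.CcMac
import Pool.Agent.Lib.MP_d6150d_an.PpChk
import Pool.Agent.Lib.MP_d6150d_an.CcRK0
import Pool.Agent.Lib.MP_d6150d_an.CcRK1
import Pool.Agent.Lib.MP_d6150d_an.CcRK2
import Pool.Agent.Lib.MP_d6150d_an.CcRK3

/-! A generated chart: the inequality. -/

namespace Pool.Agent.Lib.MP_d6150d_an.CcR

set_option linter.unnecessarySeqFocus false
set_option linter.unusedTactic false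
set_option linter.unusedVariables false

theorem gd : Gd2 C [(0, 140737488355328), (0, 140737488355328), (0, 140737488355328), (0,
    140737488355328)] := .split 0 (.split 0 (.split 0 (.split 3 (.split 2 (.split 3 (.split 1
    (.split 0 (chk_sound2 k0) (chk_sound2 k1)) (chk_sound2 k2)) (.split 2 (chk_sound2 k3) (chk_sound2
    k4))) (chk_sound2 k5)) (.split 2 (.split 2 (.split 0 (.split 1 (chk_sound2 k6) (chk_sound2 k7))
    (chk_sound2 k8)) (chk_sound2 k9)) (chk_sound2 k10))) (.split 3 (chk_sound2 k11) (chk_sound2 k12)))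
    (.split 2 (.split 3 (chk_sound2 k13) (chk_sound2 k14)) (chk_sound2 k15))) (.split 0 (chk_sound2 k16)
    (chk_sound2 k17))

set_option maxRecDepth 100000 in
theorem eq {x j o w F f aa be ga d z7 ps z9 si z q A0 B0 C0 ka iw Om N n H B g c ro X n2 bq n3 ng gg
    bb S z34 G0 z36 G1 : ℝ} (hF : F = 1 / 4 + 3 * x / 16) (hf : f = F⁻¹) (haa : aa = 1 / 2 - 3 * x /
    8) (hbe : be = 29 * x / 125 - 1 / 25) (hga : ga = (7 / 250 + 23 * x / 500) * aa ^ 2) (hd : d = 3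
    / 32 * j) (hz7 : z7 = Real.exp (-(4 * aa))) (hps : ps = z7 * w) (hz9 : z9 = Real.exp (-(12 * x /
    4))) (hsi : si = z9 * (1 - o)) (hz : z = ps * si) (hq : q = ps * z) (hA0 : A0 = (1 - d) * f / 2)
    (hB0 : B0 = (1 - 2 * d) / aa) (hC0 : C0 = d / (2 - 2 * F)) (hka : ka = -(A0 + B0 + C0)) (hiw :
    iw = ((1 - q) * (1 - d + d * q))⁻¹) (hOm : Om = 2 * (A0 + ka * z + B0 * q + C0 * q ^ 2)) (hN : N
    = (2 * F * ka + B0 * ps + 2 * C0 * ps * q) * iw) (hn : n = z * N) (hH : H = f * (1 + n) * iw *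
    (1 - 2 * d + 2 * d * q)) (hB : B = -(f * (1 + n) * iw * d)) (hg : g = q * H) (hc : c = F * (1 -
    F + 2 * d) / 3) (hro : ro = (√(z + c * Om))⁻¹) (hX : X = 1 - z * ro ^ 2) (hn2 : n2 = si * N ^ 2)
    (hbq : bq = q * B) (hn3 : n3 = si * N ^ 3) (hng : ng = N * H) (hgg : gg = ps * H ^ 2) (hbb : bb
    = ps * B) (hS : S = si * ro ^ 3) (hz34 : z34 = mC0 be f n g n2 H bq) (hG0 : G0 = z34 - S * (1 -
    be + 3 * be * X)) (hz36 : z36 = mCU f n g n3 ng gg bb) (hG1 : G1 = ga * Om * (z36 - 3 * S * ro ^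
    2 * (f - 1 - 5 * X))) : outR prog 0 [x, j, o, w] = G0 ∧ outR prog 1 [x, j, o, w] = G0 - (1 - aa
    + aa * j) * G1 := by
  replace hF : F = (((Int.cast (1) : ℝ) / (Nat.cast 4 : ℝ)) + (((Int.cast (1) : ℝ) / (Nat.cast 16 :
    ℝ)) * ((Int.cast (3) : ℝ) * x))) := hF.trans (by push_cast <;> ring)
  replace hf : f = F⁻¹ := hf.trans (by push_cast <;> ring)
  replace haa : aa = (((Int.cast (1) : ℝ) / (Nat.cast 2 : ℝ)) - (((Int.cast (1) : ℝ) / (Nat.cast 8 :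
    ℝ)) * ((Int.cast (3) : ℝ) * x))) := haa.trans (by push_cast <;> ring)
  replace hbe : be = ((((Int.cast (1) : ℝ) / (Nat.cast 125 : ℝ)) * ((Int.cast (29) : ℝ) * x)) -
    ((Int.cast (1) : ℝ) / (Nat.cast 25 : ℝ))) := hbe.trans (by push_cast <;> ring)
  replace hga : ga = ((((Int.cast (7) : ℝ) / (Nat.cast 250 : ℝ)) + (((Int.cast (1) : ℝ) / (Nat.cast
    500 : ℝ)) * ((Int.cast (23) : ℝ) * x))) * (aa * aa)) := hga.trans (by push_cast <;> ring)
  replace hd : d = (((Int.cast (3) : ℝ) / (Nat.cast 32 : ℝ)) * j) := hd.trans (by push_cast <;>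
    ring)
  replace hz7 : z7 = (Real.exp ((Int.cast (-1) : ℝ) * ((Int.cast (4) : ℝ) * aa))) := hz7.trans
    (congrArg Real.exp (by push_cast <;> ring))
  replace hps : ps = (z7 * w) := hps.trans (by push_cast <;> ring)
  replace hz9 : z9 = (Real.exp ((Int.cast (-1) : ℝ) * (((Int.cast (1) : ℝ) / (Nat.cast 4 : ℝ)) *
    ((Int.cast (12) : ℝ) * x)))) := hz9.trans (congrArg Real.exp (by push_cast <;> ring))
  replace hsi : si = (z9 * ((Int.cast (1) : ℝ) - o)) := hsi.trans (by push_cast <;> ring)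
  replace hz : z = (ps * si) := hz.trans (by push_cast <;> ring)
  replace hq : q = (ps * z) := hq.trans (by push_cast <;> ring)
  replace hA0 : A0 = (((Int.cast (1) : ℝ) / (Nat.cast 2 : ℝ)) * (((Int.cast (1) : ℝ) - d) * f)) :=
    hA0.trans (by push_cast <;> ring)
  replace hB0 : B0 = (((Int.cast (1) : ℝ) - ((Int.cast (2) : ℝ) * d)) * aa⁻¹) := hB0.trans (by
    push_cast <;> ring)
  replace hC0 : C0 = (d * ((Int.cast (2) : ℝ) - ((Int.cast (2) : ℝ) * F))⁻¹) := hC0.trans (by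
    push_cast <;> ring)
  replace hka : ka = ((Int.cast (-1) : ℝ) * ((A0 + B0) + C0)) := hka.trans (by push_cast <;> ring)
  replace hiw : iw = (((Int.cast (1) : ℝ) - q) * (((Int.cast (1) : ℝ) - d) + (d * q)))⁻¹ :=
    hiw.trans (by push_cast <;> ring)
  replace hOm : Om = ((Int.cast (2) : ℝ) * (((A0 + (ka * z)) + (B0 * q)) + (C0 * (q * q)))) :=
    hOm.trans (by push_cast <;> ring)
  replace hN : N = ((((((Int.cast (2) : ℝ) * F) * ka) + (B0 * ps)) + ((((Int.cast (2) : ℝ) * C0) *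
    ps) * q)) * iw) := hN.trans (by push_cast <;> ring)
  replace hn : n = (z * N) := hn.trans (by push_cast <;> ring)
  replace hH : H = (((f * ((Int.cast (1) : ℝ) + n)) * iw) * (((Int.cast (1) : ℝ) - ((Int.cast (2) :
    ℝ) * d)) + (((Int.cast (2) : ℝ) * d) * q))) := hH.trans (by push_cast <;> ring)
  replace hB : B = ((Int.cast (-1) : ℝ) * (((f * ((Int.cast (1) : ℝ) + n)) * iw) * d)) := hB.trans
    (by push_cast <;> ring)
  replace hg : g = (q * H) := hg.trans (by push_cast <;> ring)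
  replace hc : c = (((Int.cast (1) : ℝ) / (Nat.cast 3 : ℝ)) * (F * (((Int.cast (1) : ℝ) - F) +
    ((Int.cast (2) : ℝ) * d)))) := hc.trans (by push_cast <;> ring)
  replace hro : ro = (√(z + (c * Om)))⁻¹ := hro.trans (congrArg (fun x : ℝ ↦ (√x)⁻¹) (by push_cast
    <;> ring))
  replace hX : X = ((Int.cast (1) : ℝ) - (z * (ro * ro))) := hX.trans (by push_cast <;> ring)
  replace hn2 : n2 = (si * (N * N)) := hn2.trans (by push_cast <;> ring)
  replace hbq : bq = (q * B) := hbq.trans (by push_cast <;> ring)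
  replace hn3 : n3 = (si * ((N * N) * N)) := hn3.trans (by push_cast <;> ring)
  replace hng : ng = (N * H) := hng.trans (by push_cast <;> ring)
  replace hgg : gg = (ps * (H * H)) := hgg.trans (by push_cast <;> ring)
  replace hbb : bb = (ps * B) := hbb.trans (by push_cast <;> ring)
  replace hS : S = (si * ((ro * ro) * ro)) := hS.trans (by push_cast <;> ring)
  replace hz34 : z34 = (mC0 be f n g n2 H bq) := hz34.trans (mC0_0 ..)
  replace hG0 : G0 = (z34 - (S * (((Int.cast (1) : ℝ) - be) + (((Int.cast (3) : ℝ) * be) * X)))) :=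
    hG0.trans (by push_cast <;> ring)
  replace hz36 : z36 = (mCU f n g n3 ng gg bb) := hz36.trans (mCU_0 ..)
  replace hG1 : G1 = ((ga * Om) * (z36 - ((((Int.cast (3) : ℝ) * S) * (ro * ro)) * ((f - (Int.cast
    (1) : ℝ)) - ((Int.cast (5) : ℝ) * X))))) := hG1.trans (by push_cast <;> ring)
  have e1 : (G0 - ((((Int.cast (1) : ℝ) - aa) + (aa * j)) * G1)) = G0 - (1 - aa + aa * j) * G1 := by
    push_cast <;> ring
  subst hF hf haa hbe hga hd hz7 hps hz9 hsi hz hq hA0 hB0 hC0 hka hiw hOm hN hn hH hB hg hc hro hX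
    hn2 hbq hn3 hng hgg hbb hS hz34 hG0 hz36 hG1
  refine ⟨?_, Eq.trans ?_ e1⟩ <;>
    simp only [outR, prog, prog1, prog2, prog3, runR, stepR, gtR, mC0, mCU]

theorem l0 : ((0 : ℤ) : ℝ) / 2 ^ 47 = 0 := by norm_num
theorem u0 : (1 : ℝ) = ((140737488355328 : ℤ) : ℝ) / 2 ^ 47 := by norm_num
theorem l1 : ((0 : ℤ) : ℝ) / 2 ^ 47 = 0 := by norm_num
theorem u1 : (1 : ℝ) = ((140737488355328 : ℤ) : ℝ) / 2 ^ 47 := by norm_num
theorem l2 : ((0 : ℤ) : ℝ) / 2 ^ 47 = 0 := by norm_num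
theorem u2 : (1 : ℝ) = ((140737488355328 : ℤ) : ℝ) / 2 ^ 47 := by norm_num
theorem l3 : ((0 : ℤ) : ℝ) / 2 ^ 47 = 0 := by norm_num
theorem u3 : (1 : ℝ) = ((140737488355328 : ℤ) : ℝ) / 2 ^ 47 := by norm_num

theorem out0 (N : ∀ w : ℝ, 0 ≤ w → w ≤ 1 → 0 ≤ outR prog 0 [0, 0, 0, w]) {x j o w : ℝ} (a0 : 0 ≤ x)
    (b0 : x ≤ 1) (a1 : 0 ≤ j) (b1 : j ≤ 1) (a2 : 0 ≤ o) (b2 : o ≤ 1) (a3 : 0 ≤ w) (b3 : w ≤ 1)  (p1 : 0 < j)  : 0 < outR prog 0 [x, j, o, w] :=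
  gd 0 (by decide) [x, j, o, w] (.cons ⟨l0.le.trans a0, b0.trans u0.le⟩ (.cons ⟨l1.le.trans a1,
    b1.trans u1.le⟩ (.cons ⟨l2.le.trans a2, b2.trans u2.le⟩ (.cons ⟨l3.le.trans a3, b3.trans u3.le⟩
    (.nil))))) ⟨nofun, nofun, nofun, nofun, trivial⟩
    (fun _ ↦ .inr (.inl ⟨rfl, p1⟩)) (List.forall_mem_nil _) (Van.of0
    rfl) (fun _ _ _ _ _ _ _ _ _ _ y3 a3 b3 ↦ N y3 (l3.ge.trans a3) (b3.trans u3.ge))

theorem out1 (N : ∀ w : ℝ, 0 ≤ w → w ≤ 1 → 0 ≤ outR prog 1 [0, 0, 0, w]) {x j o w : ℝ} (a0 : 0 ≤ x)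
    (b0 : x ≤ 1) (a1 : 0 ≤ j) (b1 : j ≤ 1) (a2 : 0 ≤ o) (b2 : o ≤ 1) (a3 : 0 ≤ w) (b3 : w ≤ 1)  (p1 : 0 < j)  : 0 < outR prog 1 [x, j, o, w] :=
  gd 1 (by decide) [x, j, o, w] (.cons ⟨l0.le.trans a0, b0.trans u0.le⟩ (.cons ⟨l1.le.trans a1,
    b1.trans u1.le⟩ (.cons ⟨l2.le.trans a2, b2.trans u2.le⟩ (.cons ⟨l3.le.trans a3, b3.trans u3.le⟩
    (.nil))))) ⟨nofun, nofun, nofun, nofun, trivial⟩
    (fun _ ↦ .inr (.inl ⟨rfl, p1⟩)) (List.forall_mem_nil _) (Van.of0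
    rfl) (fun _ _ _ _ _ _ _ _ _ _ y3 a3 b3 ↦ N y3 (l3.ge.trans a3) (b3.trans u3.ge))

end Pool.Agent.Lib.MP_d6150d_an.CcR
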