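import Pool.Agent.Lib.MP_d6150d_an.CcGl
import Pool.Agent.Lib.MP_d6150d_an.CcP
import Pool.Agent.Lib.MP_d6150d_an.CcM
import Pool.Agent.Lib.MP_d6150d_an.CcR
import Pool.Agent.Lib.MP_d6150d_an.CcJ
import Pool.Agent.Lib.MP_d6150d_an.CcL
import Pool.Agent.Lib.MP_d6150d_an.CcK
import Pool.Agent.Lib.MP_d6150d_an.CcA
import Pool.Agent.Lib.MP_d6150d_an.CcB

/-! The region `-3 / 32 ≤ D < 0`, `1 / 4 ≤ F ≤ 7 / 16`. -/

namespace Pool.Agent.Lib.MP_d6150d_an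

open Real Set

variable {x l t T : ℝ}

theorem ccP_e (x j r : ℝ) : outR CcP.prog 0 [x, j, r] = (ccC x j (4 * r)).1 ∧
    outR CcP.prog 1 [x, j, r] = (ccC x j (4 * r)).1 -
      (1 - (1 / 2 - 3 * x / 8) + (1 / 2 - 3 * x / 8) * j) * (ccC x j (4 * r)).2 :=
  CcP.eq
      rfl rfl rfl rfl rfl rfl rfl rfl rfl rfl rfl rfl rfl rfl rfl rfl rfl rfl rfl rfl
      rfl rfl rfl rfl rfl rfl rfl rfl

theorem ccP (x0 : 0 ≤ x) (x1 : x ≤ 1) (l0 : l ≤ 0) (t0 : 0 < t) (t1 : t ≤ 4) :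
    0 < ccH x (exp l) (exp ((1 / 2 - 3 * x / 8) * l)) t := by
  obtain ⟨r, rfl⟩ : ∃ r, t = 4 * r := ⟨t / 4, by ring⟩
  have j0 := exp_pos l
  have j1 := exp_le_one_iff.2 l0
  have p0 := CcP.out0 (fun x j a b c d ↦ ccC_big a b c d 4 (fun _ ↦ rfl) 1 0 fun r ↦
    (ccP_e x j r).1.trans (by ring)) (fun r _ _ ↦ by rw [(ccP_e 0 0 r).1, (ccC_iso _).1])
    x0 x1 j0.le j1 (by linarith : 0 ≤ r) (by linarith) j0 (by linarith)
  have p1 := CcP.out1 (fun x j a b c d ↦ ccC_big a b c d 4 (fun _ ↦ rfl) 1 _ fun r ↦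
    (ccP_e x j r).2.trans (by rw [one_mul, sub_eq_add_neg, ← neg_mul]))
    (fun r _ _ ↦ by rw [(ccP_e 0 0 r).2, (ccC_iso _).1, (ccC_iso _).2]; simp)
    x0 x1 j0.le j1 (by linarith : 0 ≤ r) (by linarith) j0 (by linarith)
  rw [(ccP_e _ _ _).1] at p0
  rw [(ccP_e _ _ _).2] at p1
  have := cc_aff (exp_pos _).le (cc_exp_hi (a := 1 / 2 - 3 * x / 8) (by linarith) (by linarith) l)
    (by rwa [zero_mul, sub_zero]) p1
  rw [ccC_eq x0 j0.le j1] at this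
  exact (mul_pos_iff_of_pos_left (exp_pos _)).1 this

theorem ccM_e (x j r : ℝ) : outR CcM.prog 0 [x, j, r] = j * (ccC x j (-((1 + 3 * x / 4) * r))).2 -
    (j + (1 / 2 - 3 * x / 8) * (1 - j)) * (ccC x j (-((1 + 3 * x / 4) * r))).1 ∧
    outR CcM.prog 1 [x, j, r] = (1 - (1 / 2 - 3 * x / 8) + (1 / 2 - 3 * x / 8) * j) *
      (ccC x j (-((1 + 3 * x / 4) * r))).2 - (ccC x j (-((1 + 3 * x / 4) * r))).1 :=
  CcM.eq
      rfl rfl rfl rfl rfl rfl rfl rfl rfl rfl rfl rfl rfl rfl rfl rfl rfl rfl rfl rfl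
      rfl rfl rfl rfl rfl rfl rfl rfl

theorem ccM (x0 : 0 ≤ x) (x1 : x ≤ 1) (l0 : l ≤ 0) (T0 : 0 < T) (T1 : T ≤ 1 + 3 * x / 4) :
    ccH x (exp l) (exp ((1 / 2 - 3 * x / 8) * l)) (-T) < 0 := by
  have k : 0 < 1 + 3 * x / 4 := by linarith
  obtain ⟨r, rfl⟩ : ∃ r, T = (1 + 3 * x / 4) * r := ⟨T / (1 + 3 * x / 4), by field_simp⟩
  have r0 : 0 < r := (mul_pos_iff_of_pos_left k).1 T0
  have r1 : r ≤ 1 := (mul_le_iff_le_one_right k).1 T1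
  have j0 := exp_pos l
  have j1 := exp_le_one_iff.2 l0
  have p0 := CcM.out0 (fun x j a b c d ↦ ccC_big a b c d _ (fun _ ↦ (neg_mul _ _).symm) _ _ fun r ↦
    (ccM_e x j r).1.trans (by rw [sub_eq_neg_add, ← neg_mul]))
    (fun r _ _ ↦ by rw [(ccM_e 0 0 r).1, (ccC_iso _).1, (ccC_iso _).2]; simp)
    x0 x1 j0.le j1 r0.le r1 j0 r0
  have p1 := CcM.out1 (fun x j a b c d ↦ ccC_big a b c d _ (fun _ ↦ (neg_mul _ _).symm) (-1) _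
    fun r ↦ (ccM_e x j r).2.trans (by rw [sub_eq_neg_add, neg_one_mul]))
    (fun r _ _ ↦ by rw [(ccM_e 0 0 r).2, (ccC_iso _).1, (ccC_iso _).2]; simp)
    x0 x1 j0.le j1 r0.le r1 j0 r0
  rw [(ccM_e _ _ _).1] at p0
  rw [(ccM_e _ _ _).2] at p1
  have := cc_two (a := 1 / 2 - 3 * x / 8) (c := 1) (by linarith) (by linarith) l
    (by rwa [one_mul]) (by rwa [one_mul])
  rw [one_mul, ← neg_sub, ccC_eq x0 j0.le j1, neg_pos] at this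
  exact neg_of_mul_neg_right this (exp_pos _).le

theorem ccR_e (x j o w : ℝ) : outR CcR.prog 0 [x, j, o, w] = (ccT x (3 / 32 * j)
    (exp (-(4 * (1 / 2 - 3 * x / 8))) * w) (exp (-(12 * x / 4)) * (1 - o))).1 ∧
    outR CcR.prog 1 [x, j, o, w] = (ccT x (3 / 32 * j)
      (exp (-(4 * (1 / 2 - 3 * x / 8))) * w) (exp (-(12 * x / 4)) * (1 - o))).1 -
      (1 - (1 / 2 - 3 * x / 8) + (1 / 2 - 3 * x / 8) * j) * (ccT x (3 / 32 * j)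
        (exp (-(4 * (1 / 2 - 3 * x / 8))) * w) (exp (-(12 * x / 4)) * (1 - o))).2 :=
  CcR.eq
      rfl rfl rfl rfl rfl rfl rfl rfl rfl rfl rfl rfl rfl rfl rfl rfl rfl rfl rfl rfl
      rfl rfl rfl rfl rfl rfl rfl rfl rfl rfl rfl rfl rfl rfl rfl rfl rfl

theorem cc_lt {a w : ℝ} (a0 : 0 < a) (w0 : 0 ≤ w) (w1 : w ≤ 1) :
    0 ≤ exp (-a) * w ∧ exp (-a) * w < 1 :=
  ⟨by positivity, (mul_le_of_le_one_right (exp_pos _).le w1).trans_lt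
    (exp_lt_one_iff.2 (by linarith))⟩

theorem ccRt (x0 : 0 ≤ x) (x1 : x ≤ 1) (l0 : l ≤ 0) (t0 : 4 < t) :
    0 < ccH x (exp l) (exp ((1 / 2 - 3 * x / 8) * l)) t := by
  have j0 := exp_pos l
  have j1 := exp_le_one_iff.2 l0
  have I := fun w (w0 : 0 ≤ w) (w1 : w ≤ 1) ↦ ccT_iso (d := 3 / 32 * 0)
    (ps := exp (-(4 * (1 / 2 - 3 * 0 / 8))) * w) (si := exp (-(12 * 0 / 4)) * (1 - 0)) (by simp)
    (by simp) (cc_lt (by norm_num) w0 w1).1 (cc_lt (by norm_num) w0 w1).2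
  have o0 : 0 ≤ 1 - exp (-(3 * x / 4 * (t - 4))) :=
    sub_nonneg.2 (exp_le_one_iff.2 (by nlinarith))
  have o1 : 1 - exp (-(3 * x / 4 * (t - 4))) ≤ 1 := sub_le_self _ (exp_pos _).le
  have w1 : exp (-((1 / 2 - 3 * x / 8) * (t - 4))) ≤ 1 := exp_le_one_iff.2 (by nlinarith)
  have p0 := CcR.out0 (fun w a b ↦ by rw [(ccR_e 0 0 0 w).1, (I w a b).1])
    x0 x1 j0.le j1 o0 o1 (exp_pos _).le w1 j0
  have p1 := CcR.out1 (fun w a b ↦ by rw [(ccR_e 0 0 0 w).2, (I w a b).1, (I w a b).2]; simp)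
    x0 x1 j0.le j1 o0 o1 (exp_pos _).le w1 j0
  rw [(ccR_e _ _ _ _).1] at p0
  rw [(ccR_e _ _ _ _).2] at p1
  exact ccT_pos x0 x1 j0.le j1 (by linarith) rfl (by rw [← exp_add]; congr 1; ring)
    (by rw [sub_sub_cancel, ← exp_add]; congr 1; ring)
    (cc_aff (exp_pos _).le (cc_exp_hi (a := 1 / 2 - 3 * x / 8) (by linarith) (by linarith) l)
      (by rwa [zero_mul, sub_zero]) p1)

/-- the two outputs of the charts with small `p` -/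
noncomputable def ccO (x j s ph ch : ℝ) : ℝ × ℝ :=
  let G := ccL x (3 / 32 * exp (1 + 3 * x / 4) * j * s) s ph 1 (3 / 32 * exp (1 + 3 * x / 4) * j) ch
  (exp ((1 / 2 - 3 * x / 8) * (1 + 3 * x / 4)) * j * G.2 -
    (j + (1 / 2 - 3 * x / 8) * (1 - j)) * (1 ^ 2 * G.1),
    exp ((1 / 2 - 3 * x / 8) * (1 + 3 * x / 4)) *
      (1 - (1 / 2 - 3 * x / 8) + (1 / 2 - 3 * x / 8) * j) * G.2 - 1 ^ 2 * G.1)

theorem ccO_iso {s ph ch : ℝ} (es : s = ph ^ 2) (ec : ch = ph) (p : 0 ≤ ph ∧ ph < 1) :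
    0 ≤ (ccO 0 0 s ph ch).1 ∧ 0 ≤ (ccO 0 0 s ph ch).2 := by
  have I := ccL_iso (d := 3 / 32 * exp (1 + 3 * 0 / 4) * 0 * s)
    (pc := 3 / 32 * exp (1 + 3 * 0 / 4) * 0) (by simp) (by simp) rfl es ec p.1 p.2
  simp only [ccO, I.1, I.2]
  simp

theorem ccO_neg {s ph ch : ℝ} (x0 : 0 ≤ x) (x1 : x ≤ 1) (l0 : l ≤ 0) (T0 : 0 < T)
    (es : s = exp (-T)) (ep : ph = exp (-((1 / 2 - 3 * x / 8) * T)))
    (hc : ch ≤ exp (-((1 / 2 - 3 * x / 8 - 3 * x / 8) * T)))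
    (p0 : 0 < (ccO x (exp (l + T - (1 + 3 * x / 4))) s ph ch).1)
    (p1 : 0 < (ccO x (exp (l + T - (1 + 3 * x / 4))) s ph ch).2) :
    ccH x (exp l) (exp ((1 / 2 - 3 * x / 8) * l)) (-T) < 0 :=
  ccL_neg x0 x1 l0 T0
    (by rw [es, mul_assoc, mul_assoc, ← exp_add, ← exp_add]; congr 2; ring) es ep one_pos
    (by ring) hc (by rw [← exp_add]; congr 1; ring)
    (cc_two (a := 1 / 2 - 3 * x / 8) (by linarith) (by linarith) _ p0 p1)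

theorem ccJ_e {x ta T : ℝ} (j : ℝ) (h : T = 1 + 3 * x / 4 + ta * (3 + 13 * x / 4)) :
    outR CcJ.prog 0 [x, j, ta] = (ccO x j (exp (-T)) (exp (-((1 / 2 - 3 * x / 8) * T)))
      (exp (-((1 / 2 - 3 * x / 8 - 3 * x / 8) * T)))).1 ∧
    outR CcJ.prog 1 [x, j, ta] = (ccO x j (exp (-T)) (exp (-((1 / 2 - 3 * x / 8) * T)))
      (exp (-((1 / 2 - 3 * x / 8 - 3 * x / 8) * T)))).2 :=
  CcJ.eq rfl rfl rfl rfl rfl rfl h
      rfl rfl rfl rfl rfl rfl rfl rfl rfl rfl rfl rfl rfl rfl rfl rfl rfl rfl rfl rfl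
      rfl rfl rfl rfl rfl rfl rfl rfl rfl rfl rfl rfl

theorem ccJ (x0 : 0 ≤ x) (x1 : x ≤ 1) (l0 : l ≤ 0) (T0 : 1 + 3 * x / 4 ≤ T) (T1 : T ≤ 4 + 4 * x)
    (h : l + T ≤ 1 + 3 * x / 4) : ccH x (exp l) (exp ((1 / 2 - 3 * x / 8) * l)) (-T) < 0 := by
  have k : 0 < 3 + 13 * x / 4 := by linarith
  have e : T = 1 + 3 * x / 4 + (T - (1 + 3 * x / 4)) / (3 + 13 * x / 4) * (3 + 13 * x / 4) := by
    rw [div_mul_cancel₀ _ k.ne']; ring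
  have I := fun ta (a : 0 ≤ ta) ↦ ccO_iso
    (s := exp (-(1 + 3 * 0 / 4 + ta * (3 + 13 * 0 / 4))))
    (ph := exp (-((1 / 2 - 3 * 0 / 8) * (1 + 3 * 0 / 4 + ta * (3 + 13 * 0 / 4)))))
    (ch := exp (-((1 / 2 - 3 * 0 / 8 - 3 * 0 / 8) * (1 + 3 * 0 / 4 + ta * (3 + 13 * 0 / 4)))))
    (by rw [sq, ← exp_add]; congr 1; ring) (by congr 1; ring)
    ⟨(exp_pos _).le, exp_lt_one_iff.2 (by linarith)⟩
  have j0 := exp_pos (l + T - (1 + 3 * x / 4))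
  have j1 : exp (l + T - (1 + 3 * x / 4)) ≤ 1 := exp_le_one_iff.2 (by linarith)
  have a0 := div_nonneg (sub_nonneg.2 T0) k.le
  have a1 : (T - (1 + 3 * x / 4)) / (3 + 13 * x / 4) ≤ 1 := (div_le_one k).2 (by linarith)
  exact ccO_neg x0 x1 l0 (by linarith) rfl rfl le_rfl
    ((CcJ.out0 (fun ta a _ ↦ (I ta a).1.trans_eq (ccJ_e 0 rfl).1.symm) x0 x1 j0.le j1 a0 a1
      j0).trans_eq (ccJ_e _ e).1)
    ((CcJ.out1 (fun ta a _ ↦ (I ta a).2.trans_eq (ccJ_e 0 rfl).2.symm) x0 x1 j0.le j1 a0 a1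
      j0).trans_eq (ccJ_e _ e).2)

theorem ccL_e {x o m w : ℝ} (j : ℝ) (h : w = m + 3 * x / 4 * o * (1 - m)) :
    outR CcL.prog 0 [x, j, o, m] = (ccO x j (exp (-(4 + 4 * x)) * m ^ 2)
      (exp (-((1 / 2 - 3 * x / 8) * (4 + 4 * x))) * w)
      (exp (-((1 / 2 - 3 * x / 8 - 3 * x / 8) * (4 + 4 * x))) * (2 * w - m))).1 ∧
    outR CcL.prog 1 [x, j, o, m] = (ccO x j (exp (-(4 + 4 * x)) * m ^ 2)
      (exp (-((1 / 2 - 3 * x / 8) * (4 + 4 * x))) * w)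
      (exp (-((1 / 2 - 3 * x / 8 - 3 * x / 8) * (4 + 4 * x))) * (2 * w - m))).2 :=
  CcL.eq
      rfl rfl rfl rfl rfl rfl rfl rfl rfl rfl rfl rfl
      h
      rfl rfl rfl rfl rfl rfl rfl rfl rfl rfl rfl rfl rfl rfl rfl rfl rfl rfl rfl rfl
      rfl rfl rfl rfl rfl rfl rfl rfl rfl rfl

theorem ccLt (x0 : 0 ≤ x) (x1 : x ≤ 1) (l0 : l ≤ 0) (T0 : 4 + 4 * x ≤ T)
    (h : l + T ≤ 1 + 3 * x / 4) : ccH x (exp l) (exp ((1 / 2 - 3 * x / 8) * l)) (-T) < 0 := by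
  obtain ⟨o, m, w, o0, o1, m0, m1, e, es, ep, ec⟩ := cc_tail x0 x1 T0
  have I := fun m (a : 0 ≤ m) (b : m ≤ 1) ↦ ccO_iso (s := exp (-(4 + 4 * 0)) * m ^ 2)
    (ph := exp (-((1 / 2 - 3 * 0 / 8) * (4 + 4 * 0))) * m)
    (ch := exp (-((1 / 2 - 3 * 0 / 8 - 3 * 0 / 8) * (4 + 4 * 0))) * (2 * m - m))
    (by rw [mul_pow, sq (exp _), ← exp_add]; congr 2; ring) (by congr 1 <;> ring_nf)
    (cc_lt (by norm_num) a b)
  have j0 := exp_pos (l + T - (1 + 3 * x / 4))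
  have j1 : exp (l + T - (1 + 3 * x / 4)) ≤ 1 := exp_le_one_iff.2 (by linarith)
  exact ccO_neg x0 x1 l0 (by linarith) es ep ec
    ((CcL.out0 (fun o m _ _ a b ↦ (I m a b).1.trans_eq (ccL_e 0 (by ring)).1.symm) x0 x1 j0.le j1
      o0 o1 m0 m1 j0).trans_eq (ccL_e _ e).1)
    ((CcL.out1 (fun o m _ _ a b ↦ (I m a b).2.trans_eq (ccL_e 0 (by ring)).2.symm) x0 x1 j0.le j1
      o0 o1 m0 m1 j0).trans_eq (ccL_e _ e).2)

theorem cc_one {d s ph ch : ℝ} (x0 : 0 ≤ x) (x1 : x ≤ 1) (l0 : l ≤ 0) (T0 : 0 < T)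
    (ed : d = 3 / 32 * exp l) (es : s = exp (-T)) (ep : ph = exp (-((1 / 2 - 3 * x / 8) * T)))
    (hc : ch ≤ exp (-((1 / 2 - 3 * x / 8 - 3 * x / 8) * T)))
    (p : 0 < (ccL x d s ph (exp (1 - (l + T) / 2)) (3 / 32 * exp 2) ch).2 -
      exp (-((1 / 2 - 3 * x / 8) * (l + T))) * (exp (1 - (l + T) / 2) ^ 2 *
        (ccL x d s ph (exp (1 - (l + T) / 2)) (3 / 32 * exp 2) ch).1)) :
    ccH x (exp l) (exp ((1 / 2 - 3 * x / 8) * l)) (-T) < 0 := by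
  refine ccL_neg (pc := 3 / 32 * exp 2) x0 x1 l0 T0 ed es ep (exp_pos (1 - (l + T) / 2)) ?_ hc rfl
    ((mul_pos (exp_pos ((1 / 2 - 3 * x / 8) * (l + T))) p).trans_eq ?_)
  · rw [ed, es, sq, mul_assoc, mul_assoc, ← exp_add, ← exp_add, ← exp_add]; congr 2; ring
  · rw [mul_sub, ← mul_assoc, ← exp_add, add_neg_cancel, exp_zero, one_mul]

theorem ccKm (x0 : 0 ≤ x) (x1 : x ≤ 1) (l0 : l ≤ 0) (T1 : T ≤ 4 + 4 * x)
    (h : 1 + 3 * x / 4 < l + T) : ccH x (exp l) (exp ((1 / 2 - 3 * x / 8) * l)) (-T) < 0 := by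
  have k : 0 < 3 + 13 * x / 4 := by linarith
  obtain ⟨L, hL⟩ : ∃ L, T = 1 + 3 * x / 4 + L := ⟨T - (1 + 3 * x / 4), by ring⟩
  have L0 : 0 < L := by linarith
  have e : L * (-l / L) = -l := mul_div_cancel₀ _ L0.ne'
  exact cc_one x0 x1 l0 (by linarith) (d := 3 / 32 * exp (-(L * (-l / L)))) (by rw [e, neg_neg]) rfl
    rfl le_rfl (CcK.pos0 (et := -l / L) (ta := L / (3 + 13 * x / 4)) rfl rfl rfl rfl rfl
      (div_mul_cancel₀ _ k.ne').symm hL (by rw [e]; ring)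
      rfl rfl rfl rfl rfl rfl rfl rfl rfl rfl rfl rfl rfl rfl rfl rfl rfl rfl rfl rfl
      rfl rfl rfl rfl rfl rfl rfl rfl rfl rfl rfl rfl rfl
      x0 x1
      (div_nonneg (by linarith) L0.le) ((div_le_one L0).2 (by linarith)) (div_nonneg L0.le k.le)
      ((div_le_one k).2 (by linarith)))

theorem ccA (x0 : 0 ≤ x) (x1 : x ≤ 1) (l0 : l ≤ 0) (T0 : 4 + 4 * x ≤ T)
    (h : 1 + 3 * x / 4 < l + T) (h' : l + T ≤ 4) :
    ccH x (exp l) (exp ((1 / 2 - 3 * x / 8) * l)) (-T) < 0 := by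
  obtain ⟨o, m, w, o0, o1, m0, m1, e, es, ep, ec⟩ := cc_tail x0 x1 T0
  exact cc_one x0 x1 l0 (by linarith) (d := 3 / 32 * exp (l + T) * (exp (-(4 + 4 * x)) * m ^ 2))
    (by rw [es, mul_assoc, ← exp_add]; congr 2; ring) es ep ec
    (CcA.pos0
      rfl rfl rfl rfl rfl rfl rfl rfl rfl
      e
      rfl rfl rfl rfl rfl rfl rfl rfl rfl rfl rfl rfl rfl rfl rfl rfl rfl rfl rfl rfl
      rfl rfl rfl rfl rfl rfl rfl rfl rfl rfl rfl rfl rfl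
      x0 x1 (by linarith) h' o0 o1 m0 m1)

theorem ccB_e {x j w r : ℝ} {G : ℝ × ℝ} (h : G = ccL x (3 / 32 * j) (j * r ^ 2 * exp (-4))
    (exp (-((1 / 2 - 3 * x / 8) * (4 + 4 * x))) * w) r (3 / 32 * exp 4)
    (exp (-((1 / 2 - 3 * x / 8) * (4 + 4 * x))) * w * exp (3 * x / 8 * (4 + 4 * x)))) :
    outR CcB.prog 0 [x, j, w, r] = exp ((1 / 2 - 3 * x / 8) * 4) * G.2 -
      (1 - 2 * (1 / 2 - 3 * x / 8) + 2 * (1 / 2 - 3 * x / 8) * r) * (r ^ 2 * G.1) ∧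
    outR CcB.prog 1 [x, j, w, r] = (r + 2 * (1 / 2 - 3 * x / 8) * (1 - r)) *
      (exp ((1 / 2 - 3 * x / 8) * 4) * G.2) - r * (r ^ 2 * G.1) :=
  h ▸ CcB.eq
      rfl rfl rfl rfl rfl rfl rfl rfl rfl rfl rfl rfl rfl rfl rfl rfl rfl rfl rfl rfl
      rfl rfl rfl rfl rfl rfl rfl rfl rfl rfl rfl rfl rfl rfl rfl rfl rfl rfl rfl rfl rfl

theorem ccB (x0 : 0 ≤ x) (x1 : x ≤ 1) (l0 : l ≤ 0) (T0 : 4 + 4 * x ≤ T) (h : 4 ≤ l + T) :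
    ccH x (exp l) (exp ((1 / 2 - 3 * x / 8) * l)) (-T) < 0 := by
  have j0 := exp_pos l
  have j1 := exp_le_one_iff.2 l0
  have w0 := exp_pos (-((1 / 2 - 3 * x / 8) * (T - (4 + 4 * x))))
  have w1 : exp (-((1 / 2 - 3 * x / 8) * (T - (4 + 4 * x)))) ≤ 1 := exp_le_one_iff.2 (by nlinarith)
  have r0 := exp_pos (2 - (l + T) / 2)
  have r1 : exp (2 - (l + T) / 2) ≤ 1 := exp_le_one_iff.2 (by linarith)
  have p := cc_two' (a := 2 * (1 / 2 - 3 * x / 8)) (by linarith) (by linarith) _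
    ((CcB.out0 x0 x1 j0.le j1 w0.le w1 r0.le r1).trans_eq (ccB_e rfl).1)
    ((CcB.out1 x0 x1 j0.le j1 w0.le w1 r0.le r1).trans_eq (ccB_e rfl).2)
  refine ccL_neg (pc := 3 / 32 * exp 4) (s := exp l * exp (2 - (l + T) / 2) ^ 2 * exp (-4))
    (ph := exp (-((1 / 2 - 3 * x / 8) * (4 + 4 * x))) *
      exp (-((1 / 2 - 3 * x / 8) * (T - (4 + 4 * x)))))
    (ch := exp (-((1 / 2 - 3 * x / 8) * (4 + 4 * x))) *
      exp (-((1 / 2 - 3 * x / 8) * (T - (4 + 4 * x)))) * exp (3 * x / 8 * (4 + 4 * x)))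
    x0 x1 l0 (by linarith) rfl ?_ ?_ r0 ?_ ?_ rfl
    ((mul_pos (exp_pos (-(2 * (1 / 2 - 3 * x / 8) * (2 - (l + T) / 2)))) p).trans_eq ?_)
  · rw [sq, ← exp_add, ← exp_add, ← exp_add]; congr 1; ring
  · rw [← exp_add]; congr 1; ring
  · have : exp 4 * exp (-4) = 1 := by rw [← exp_add]; simp
    linear_combination -(3 / 32 * exp l * exp (2 - (l + T) / 2) ^ 2) * this
  · rw [← exp_add, ← exp_add]; exact exp_le_exp.2 (by nlinarith)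
  · generalize ccL _ _ _ _ _ _ _ = G
    rw [mul_sub, ← mul_assoc, ← mul_assoc, ← exp_add, ← exp_add, neg_add_cancel, exp_zero, one_mul]
    congr 3; ring

theorem C_holds' (D F : ℝ) (h1 : -3 / 32 ≤ D) (h2 : D < 0) (h3 : 1 / 4 ≤ F) (h4 : F ≤ 7 / 16) :
    NoThree D F := by
  obtain ⟨x, rfl⟩ : ∃ x, F = 1 / 4 + 3 * x / 16 := ⟨(F - 1 / 4) * 16 / 3, by ring⟩
  obtain ⟨l, rfl⟩ : ∃ l, D = -(3 / 32 * exp l) :=
    ⟨log (-D * 32 / 3), by rw [exp_log (by linarith)]; ring⟩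
  have x0 : 0 ≤ x := by linarith
  have x1 : x ≤ 1 := by linarith
  have l0 : l ≤ 0 := exp_le_one_iff.1 (by linarith)
  have a0 : 0 < 1 / 2 - 3 * x / 8 := by linarith
  refine cc_noThree (be := 29 * x / 125 - 1 / 25) (la := exp ((1 / 2 - 3 * x / 8) * l) *
    ((7 / 250 + 23 * x / 500) * (1 / 2 - 3 * x / 8) ^ 2)) (by linarith) (by linarith)
    (by positivity) fun t _ t0 ↦ ?_
  rcases t0.lt_or_gt with t0 | t0
  · obtain ⟨T, rfl⟩ : ∃ T, t = -T := ⟨-t, by ring⟩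
    refine mul_pos_of_neg_of_neg t0 ?_
    rcases le_total T (1 + 3 * x / 4) with k1 | k1
    · exact ccM x0 x1 l0 (by linarith) k1
    rcases le_total T (4 + 4 * x) with k2 | k2 <;> rcases le_or_gt (l + T) (1 + 3 * x / 4) with k | k
    · exact ccJ x0 x1 l0 k1 k2 k
    · exact ccKm x0 x1 l0 k2 k
    · exact ccLt x0 x1 l0 k2 k
    · exact (le_total (l + T) 4).elim (ccA x0 x1 l0 k2 k) (ccB x0 x1 l0 k2)
  · exact mul_pos t0 ((le_or_gt t 4).elim (ccP x0 x1 l0 t0) (ccRt x0 x1 l0))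

theorem C_holds (D F : ℝ) (h1 : -3 / 32 ≤ D) (h2 : D < 0) (h3 : 1 / 4 < F) (h4 : F ≤ 7 / 16) :
    NoThree D F :=
  C_holds' D F h1 h2 h3.le h4

end Pool.Agent.Lib.MP_d6150d_an
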