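import Pool.Agent.Lib.MP_d6150d_an.CcSt

/-! The three coordinate systems for the chosen coefficients. -/

namespace Pool.Agent.Lib.MP_d6150d_an

open Real Set Filter Topology Asymptotics

/-- the function with the chosen coefficients -/
noncomputable def ccH (x j e t : ℝ) : ℝ :=
  ccG (-(3 / 32 * j)) (1 / 4 + 3 * x / 16) (29 * x / 125 - 1 / 25)
    (e * ((7 / 250 + 23 * x / 500) * (1 / 2 - 3 * x / 8) ^ 2)) t

/-- near the center -/
noncomputable def ccC (x j t : ℝ) : ℝ × ℝ :=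
  let F := 1 / 4 + 3 * x / 16
  let f := F⁻¹
  let be := 29 * x / 125 - 1 / 25
  let D := -(3 / 32 * j)
  let xi := exp (-(t / 2))
  let yi := exp (-(F * t))
  let mu := muR D F t
  let iW := (ph1 (t / 2) * (1 + xi) / 2 * (1 + D - D * xi ^ 2))⁻¹
  let M := mu * yi ^ 2 * exp (t / 2) * iW
  let a := F * t * M
  let g := M * iW * xi * (1 + 2 * D - 2 * D * xi ^ 2)
  let b := M * iW * D * xi ^ 3
  let v := t ^ 2 * mu
  let R := (√(1 + F * (1 - F - 2 * D) / 3 * v))⁻¹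
  let X := 1 - R ^ 2
  let S := yi * R ^ 3
  let Z := mCR be f a g (2 - 2 * a - g) (g + t * M) b
  (Z.1 - S * (1 - be + 3 * be * X), (7 / 250 + 23 * x / 500) * (1 / 2 - 3 * x / 8) ^ 2 * v *
    (Z.2 - 3 * S * R ^ 2 * (f - 1 - 5 * X)))

/-- on the right -/
noncomputable def ccT (x d ps si : ℝ) : ℝ × ℝ :=
  let F := 1 / 4 + 3 * x / 16
  let f := F⁻¹
  let aa := 1 / 2 - 3 * x / 8
  let be := 29 * x / 125 - 1 / 25
  let z := ps * si
  let q := ps * z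
  let A0 := (1 - d) * f / 2
  let B0 := (1 - 2 * d) / aa
  let C0 := d / (2 - 2 * F)
  let ka := -(A0 + B0 + C0)
  let iw := ((1 - q) * (1 - d + d * q))⁻¹
  let Om := 2 * (A0 + ka * z + B0 * q + C0 * q ^ 2)
  let N := (2 * F * ka + B0 * ps + 2 * C0 * ps * q) * iw
  let n := z * N
  let H := f * (1 + n) * iw * (1 - 2 * d + 2 * d * q)
  let B := -(f * (1 + n) * iw * d)
  let ro := (√(z + F * (1 - F + 2 * d) / 3 * Om))⁻¹
  let X := 1 - z * ro ^ 2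
  let S := si * ro ^ 3
  (mC0 be f n (q * H) (si * N ^ 2) H (q * B) - S * (1 - be + 3 * be * X),
    (7 / 250 + 23 * x / 500) * aa ^ 2 * Om *
      (mCU f n (q * H) (si * N ^ 3) (N * H) (ps * H ^ 2) (ps * B) -
        3 * S * ro ^ 2 * (f - 1 - 5 * X)))

/-- on the left -/
noncomputable def ccL (x d s ph r pc ch : ℝ) : ℝ × ℝ :=
  let F := 1 / 4 + 3 * x / 16
  let f := F⁻¹
  let aa := 1 / 2 - 3 * x / 8
  let be := 29 * x / 125 - 1 / 25
  let i2 := (2 - 2 * F)⁻¹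
  let Om := 2 * (r ^ 2 * ((1 - d) * f / 2 * (s - ph) + (1 - 2 * d) / aa * (1 - ph) - d * ph * i2) +
    pc * i2)
  let W := (1 - s) * (r ^ 2 * (1 - d) + pc)
  let H0 := Om * (r ^ 2 * (1 - 2 * d) + 2 * pc)
  let iq := W⁻¹ ^ 2
  let Z := mCR be f (-(F * Om * W⁻¹)) (iq * H0) (iq * (2 * W * (W + F * Om) - H0))
    (iq * (Om * (pc + s * r ^ 2 * (1 - d)))) (-(iq * (Om * pc)))
  let ro := r * (√(r ^ 2 * ph + F * (1 - F + 2 * d) / 3 * Om))⁻¹
  let X := 1 - ph * ro ^ 2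
  let S := ch * ro ^ 3
  (Z.1 - S * (1 - be + 3 * be * X), (7 / 250 + 23 * x / 500) * aa ^ 2 * Om *
    (Z.2 - 3 * S * ph * ro ^ 2 * (f - 1 - 5 * X)))

variable {x j l t T : ℝ}

theorem ccC_eq (x0 : 0 ≤ x) (j0 : 0 ≤ j) (j1 : j ≤ 1) (e t : ℝ) :
    (ccC x j t).1 - e * (ccC x j t).2 = exp (-((1 / 4 + 3 * x / 16) * t)) * ccH x j e t :=
  cc_centre (by positivity) (by
    have := exp_pos t
    simp only [JR, om, mem_ofPred_eq]; nlinarith) rfl rfl rfl rfl rfl rfl rfl rfl rfl rfl rfl rfl rfl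
    rfl rfl rfl rfl rfl rfl rfl rfl rfl

theorem ccC_big (x0 : 0 ≤ x) (x1 : x ≤ 1) (j0 : 0 ≤ j) (j1 : j ≤ 1) {τ : ℝ → ℝ} (k : ℝ)
    (h : ∀ r, τ r = k * r) (a b : ℝ) {u : ℝ → ℝ}
    (e : ∀ r, u r = a * (ccC x j (τ r)).1 + b * (ccC x j (τ r)).2) :
    u =O[𝓝[>] 0] fun r : ℝ ↦ r ^ 3 := by
  have key : ∀ e, (fun r ↦ (ccC x j (τ r)).1 - e * (ccC x j (τ r)).2) =O[𝓝 0]
      fun r : ℝ ↦ r ^ 3 := fun e ↦ by
    simp only [ccC_eq x0 j0 j1, h]
    have h1 : ContinuousAt (fun r : ℝ ↦ exp (-((1 / 4 + 3 * x / 16) * (k * r)))) 0 := by fun_prop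
    have h2 : Tendsto (fun r : ℝ ↦ k * r) (𝓝 0) (𝓝 0) :=
      (continuous_const.mul continuous_id).tendsto' 0 0 (mul_zero k)
    have h3 := (h1.isBigO_one ℝ).mul ((ccG_big (D := -(3 / 32 * j)) (F := 1 / 4 + 3 * x / 16)
      (be := 29 * x / 125 - 1 / 25) (la := e * ((7 / 250 + 23 * x / 500) * (1 / 2 - 3 * x / 8) ^ 2))
      (by nlinarith)).comp_tendsto h2)
    refine h3.trans ?_
    simp only [Function.comp, one_mul, mul_pow]
    exact isBigO_const_mul_self _ _ _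
  refine (((key 0).const_mul_left (a + b)).sub ((key 1).const_mul_left b)).mono
    nhdsWithin_le_nhds |>.congr_left fun r ↦ ?_
  rw [e]; ring

theorem ccC_iso (t : ℝ) : (ccC 0 0 t).1 = 0 ∧ (ccC 0 0 t).2 = 0 := by
  have h : ∀ e, (ccC 0 0 t).1 - e * (ccC 0 0 t).2 = 0 := fun e ↦ by
    rw [ccC_eq le_rfl le_rfl zero_le_one, ccH]
    simp only [mul_zero, neg_zero, zero_div, add_zero, cc_iso]
  constructor
  · linear_combination h 0
  · linear_combination h 0 - h 1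

theorem ccT_pos {d ps si e : ℝ} (x0 : 0 ≤ x) (x1 : x ≤ 1) (j0 : 0 ≤ j) (j1 : j ≤ 1) (t0 : 0 < t)
    (ed : d = 3 / 32 * j) (ep : ps = exp (-((1 / 2 - 3 * x / 8) * t)))
    (es : si = exp (-(3 * x / 4 * t))) (h : 0 < (ccT x d ps si).1 - e * (ccT x d ps si).2) :
    0 < ccH x j e t := by
  subst ed
  exact cc_right (by positivity) (by linarith) (by positivity) (by linarith) t0 (by ring) ep
    (by rw [es]; congr 2; ring) rfl rfl rfl rfl rfl rfl rfl rfl rfl rfl rfl rfl rfl rfl rfl rfl rfl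
    rfl rfl rfl rfl rfl rfl rfl rfl rfl rfl rfl h

theorem ccT_iso {d ps si : ℝ} (ed : d = 0) (es : si = 1) (p0 : 0 ≤ ps) (p1 : ps < 1) :
    (ccT 0 d ps si).1 = 0 ∧ (ccT 0 d ps si).2 = 0 :=
  cc_right_iso (by ring) (by ring) ed es p0 p1 rfl rfl rfl rfl rfl rfl rfl rfl rfl rfl rfl rfl rfl
    rfl rfl rfl rfl rfl rfl rfl rfl rfl rfl rfl rfl rfl rfl rfl

theorem ccL_neg {d s ph r pc ch nu : ℝ} (x0 : 0 ≤ x) (x1 : x ≤ 1) (l0 : l ≤ 0) (T0 : 0 < T)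
    (ed : d = 3 / 32 * exp l) (es : s = exp (-T)) (ep : ph = exp (-((1 / 2 - 3 * x / 8) * T)))
    (r0 : 0 < r) (hp : d * r ^ 2 = pc * s) (hc : ch ≤ exp (-((1 / 2 - 3 * x / 8 - 3 * x / 8) * T)))
    (en : nu = exp ((1 / 2 - 3 * x / 8) * (l + T)))
    (h : 0 < nu * (ccL x d s ph r pc ch).2 - r ^ 2 * (ccL x d s ph r pc ch).1) :
    ccH x (exp l) (exp ((1 / 2 - 3 * x / 8) * l)) (-T) < 0 := by
  have e : exp ((1 / 2 - 3 * x / 8) * l) = nu * ph := by rw [en, ep, ← exp_add]; congr 1; ring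
  have e1 : nu * ph ≤ 1 := e ▸ exp_le_one_iff.2 (by nlinarith)
  have e0 : 0 < nu * ph := e ▸ exp_pos _
  have j1 := exp_le_one_iff.2 l0
  have j0 := exp_pos l
  have g1 : (7 / 250 + 23 * x / 500) * (1 / 2 - 3 * x / 8) ^ 2 ≤ 1 / 12 * (1 / 2) ^ 2 := by
    gcongr <;> linarith
  rw [ccH, e, ← ed]
  exact cc_left (by linarith) (by linarith) (by rw [ed]; positivity) (by linarith) (by linarith)
    (by linarith) (by linarith) (by positivity)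
    ((mul_le_of_le_one_left (by positivity) e1).trans (by linarith)) (by ring) es
    (by rw [ep]; congr 1; ring) r0 hp (hc.trans_eq (by congr 1; ring)) rfl rfl rfl rfl rfl rfl rfl
    rfl rfl rfl rfl rfl rfl rfl rfl rfl rfl rfl rfl rfl rfl rfl rfl rfl rfl h

theorem ccL_iso {d s ph r pc ch : ℝ} (ed : d = 0) (ep : pc = 0) (er : r = 1) (es : s = ph ^ 2)
    (ec : ch = ph) (p0 : 0 ≤ ph) (p1 : ph < 1) :
    (ccL 0 d s ph r pc ch).1 = 0 ∧ (ccL 0 d s ph r pc ch).2 = 0 :=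
  cc_left_iso (by ring) (by ring) ed ep er es ec p0 p1 rfl rfl rfl rfl rfl rfl rfl rfl rfl rfl rfl
    rfl rfl rfl rfl rfl rfl rfl rfl rfl rfl rfl rfl rfl rfl

theorem cc_den {a : ℝ} (a0 : 0 ≤ a) (a1 : a ≤ 1) (u : ℝ) : 0 < exp u + a * (1 - exp u) := by
  rcases a1.eq_or_lt with rfl | k
  · simp
  · nlinarith [mul_pos (sub_pos.2 k) (exp_pos u)]

theorem cc_two {a c A B : ℝ} (a0 : 0 ≤ a) (a1 : a ≤ 1) (u : ℝ)
    (p1 : 0 < c * exp u * B - (exp u + a * (1 - exp u)) * A)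
    (p2 : 0 < c * (1 - a + a * exp u) * B - A) : 0 < c * exp (a * u) * B - A := by
  have k := cc_den a0 a1 u
  have := cc_aff (A := -A) (B := -(c * B)) (cc_exp_lo a0 a1 u) (cc_exp_hi a0 a1 u)
    ((div_pos p1 k).trans_eq (by field_simp; ring)) (by linarith)
  linarith

theorem cc_two' {a A B : ℝ} (a0 : 0 ≤ a) (a1 : a ≤ 1) (u : ℝ)
    (p1 : 0 < B - (1 - a + a * exp u) * A) (p2 : 0 < (exp u + a * (1 - exp u)) * B - exp u * A) :
    0 < B - exp (a * u) * A :=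
  have k := cc_den a0 a1 u
  cc_aff (cc_exp_lo a0 a1 u) (cc_exp_hi a0 a1 u) ((div_pos p2 k).trans_eq (by field_simp)) p1

theorem cc_tail (x0 : 0 ≤ x) (x1 : x ≤ 1) (h : 4 + 4 * x ≤ T) : ∃ o m w : ℝ, 0 ≤ o ∧ o ≤ 1 ∧ 0 ≤ m ∧
    m ≤ 1 ∧ w = m + 3 * x / 4 * o * (1 - m) ∧ exp (-(4 + 4 * x)) * m ^ 2 = exp (-T) ∧
    exp (-((1 / 2 - 3 * x / 8) * (4 + 4 * x))) * w = exp (-((1 / 2 - 3 * x / 8) * T)) ∧
    exp (-((1 / 2 - 3 * x / 8 - 3 * x / 8) * (4 + 4 * x))) * (2 * w - m) ≤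
      exp (-((1 / 2 - 3 * x / 8 - 3 * x / 8) * T)) := by
  obtain ⟨u, rfl⟩ : ∃ u, T = 4 + 4 * x - 2 * u := ⟨(4 + 4 * x - T) / 2, by ring⟩
  have u0 : u ≤ 0 := by linarith
  have m0 := exp_pos u
  have m1 := exp_le_one_iff.2 u0
  have w0 : exp u ≤ exp ((1 - 3 * x / 4) * u) := exp_le_exp.2 (by nlinarith)
  have w1 := cc_exp_hi (a := 1 - 3 * x / 4) (by linarith) (by linarith) u
  obtain ⟨o, o0, o1, e⟩ : ∃ o, 0 ≤ o ∧ o ≤ 1 ∧
      exp ((1 - 3 * x / 4) * u) = exp u + 3 * x / 4 * o * (1 - exp u) := by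
    rcases (mul_nonneg (by positivity : 0 ≤ 3 * x / 4) (sub_nonneg.2 m1)).eq_or_lt with k | k
    · exact ⟨0, le_rfl, zero_le_one, by linarith⟩
    · refine ⟨(exp ((1 - 3 * x / 4) * u) - exp u) / (3 * x / 4 * (1 - exp u)),
        div_nonneg (by linarith) k.le, (div_le_one k).2 (by linarith), ?_⟩
      rw [mul_right_comm, mul_div_cancel₀ _ k.ne']; ring
  refine ⟨o, exp u, _, o0, o1, m0.le, m1, e, ?_, ?_, ?_⟩
  · rw [sq, ← exp_add, ← exp_add]; congr 1; ring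
  · rw [← exp_add]; congr 1; ring
  · have : 2 * exp ((1 - 3 * x / 4) * u) - exp u ≤ exp ((1 - 3 * x / 4) * u) ^ 2 / exp u := by
      rw [le_div_iff₀ m0]; nlinarith [sq_nonneg (exp ((1 - 3 * x / 4) * u) - exp u)]
    refine (mul_le_mul_of_nonneg_left this (exp_pos _).le).trans_eq ?_
    rw [sq, ← exp_add, ← exp_sub, ← exp_add]; congr 1; ring

end Pool.Agent.Lib.MP_d6150d_an
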