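import Pool.Agent.Lib.MP_d6150d_an.GDef

/-! A generated chart: the program. -/

namespace Pool.Agent.Lib.MP_d6150d_an.CcJ

def prog3 : List Ins := .mul 143 0 :: .mul 0 0 :: .mul 0 1 :: .mul 12 0 :: .smul 3 0 :: .mul 0 109
    :: .mul 0 4 :: .mul 111 5 :: .sub true 151 0 :: .smul 5 0 :: .sub true 83 0 :: .mul 4 0 :: .sub
    true 25 0 :: .mul 96 0 :: .mul 150 0 :: .sub true 158 152 :: .mul 160 0 :: .add false 154 0 ::
    .cst 1 125 :: .smul 29 166 :: .mul 1 0 :: .cst 1 25 :: .sub true 1 0 :: .add true 166 98 :: .mul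
    0 82 :: .add true 0 64 :: .mul 3 0 :: .sub false 85 0 :: .sub false 171 5 :: .smul 3 6 :: .mul 0
    21 :: .add true 2 0 :: .mul 28 0 :: .sub true 5 0 :: .mul 162 0 :: .mul 17 0 :: .sub false 21 0
    :: .sub false 180 181 :: .mul 182 175 :: .add true 1 0 :: .mul 178 0 :: .mul 0 27 :: .sub false
    0 7 :: .cpy 0 :: .cpy 7 :: []

def prog2 : List Ins := .mul 6 0 :: .smul 2 60 :: .mul 36 76 :: .mul 22 0 :: .smul (-1) 0 :: .mul 30
    0 :: .mul 4 0 :: .add true 6 0 :: .mul 18 18 :: .sub true 1 0 :: .mul 35 0 :: .add true 18 0 ::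
    .mul 36 0 :: .mul 22 21 :: .add false 1 0 :: .add true 37 25 :: .mul 0 5 :: .add false 2 0 ::
    .smul 2 24 :: .sub true 19 0 :: .mul 12 0 :: .add false 64 80 :: .mul 28 31 :: .mul 1 0 :: .sub
    false 3 0 :: .add false 35 25 :: .mul 85 51 :: .sub true 1 0 :: .mul 21 0 :: .add false 4 0 ::
    .smul 2 39 :: .add true 0 23 :: .mul 42 0 :: .smul 2 0 :: .add true 4 0 :: .mul 60 0 :: .add
    false 18 0 :: .sub true 131 132 :: .mul 0 105 :: .smul (-1) 0 :: .exp 0 :: .mul 119 95 :: .cst 1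
    3 :: .sub false 136 103 :: .add true 0 95 :: .mul 105 0 :: .mul 3 0 :: .mul 0 81 :: .add false 6
    0 :: .rsq 0 :: prog3

def prog1 : List Ins := .inv 44 :: .mul 1 0 :: .sub true 45 6 :: .mul 1 0 :: .add false 6 0 :: .mul
    19 9 :: .int 2 :: .smul 2 17 :: .sub true 1 0 :: .inv 0 :: .mul 4 0 :: .sub true 6 0 :: .mul 40
    0 :: .mul 37 3 :: .add false 1 0 :: .smul 2 0 :: .mul 45 0 :: .mul 27 1 :: .sub true 61 33 ::
    .mul 47 32 :: .add false 0 44 :: .mul 2 0 :: .inv 0 :: .mul 5 0 :: .smul (-1) 0 :: .add true 0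
    47 :: .sub false 35 69 :: .add true 2 0 :: .mul 3 3 :: .sub false 72 0 :: .mul 7 7 :: .smul 2 9
    :: .add false 10 14 :: .mul 1 0 :: .mul 62 34 :: .smul 2 59 :: .add false 1 0 :: .mul 21 0 ::
    .sub true 4 0 :: .mul 8 0 :: .mul 15 0 :: .sub true 11 0 :: .mul 14 0 :: .mul 12 5 :: .mul 59 72
    :: .mul 0 58 :: .add false 70 0 :: .mul 31 0 :: .mul 17 0 :: .sub true 9 0 :: prog2

def prog : List Ins := .cst 1 2 :: .cst 1 8 :: .var 0 :: .smul 3 0 :: .mul 2 0 :: .sub true 4 0 ::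
    .int 1 :: .cst 1 4 :: .mul 0 4 :: .add false 2 0 :: .mul 4 0 :: .exp 0 :: .var 1 :: .mul 1 0 ::
    .cst 7 250 :: .cst 1 500 :: .smul 23 13 :: .mul 1 0 :: .add false 3 0 :: .mul 13 13 :: .mul 1 0
    :: .mul 14 14 :: .cst 3 32 :: .exp 13 :: .mul 1 0 :: .mul 0 12 :: .var 2 :: .int 3 :: .smul 13
    25 :: .mul 21 0 :: .add false 2 0 :: .mul 4 0 :: .add false 22 0 :: .smul (-1) 0 :: .exp 0 ::
    .mul 9 0 :: .sub false 29 0 :: .cst 1 16 :: .mul 0 34 :: .add false 31 0 :: .inv 0 :: .mul 4 0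
    :: .mul 41 0 :: .mul 37 10 :: .smul (-1) 0 :: .exp 0 :: .sub true 11 0 :: .mul 4 0 :: .smul 2 12
    :: .sub true 42 0 :: prog1

def vs : List Vr := [⟨3, 0, false, true⟩, ⟨2, 0, false, true⟩, ⟨5, 0, false, false⟩]

def C : Chart := ⟨vs, prog, [], 2, 3⟩

end Pool.Agent.Lib.MP_d6150d_an.CcJ
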