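import Pool.Agent.Lib.MP_d6150d_an.GDef

/-! A generated chart: the program. -/

namespace Pool.Agent.Lib.MP_d6150d_an.CcK

def prog3 : List Ins := .mul 0 81 :: .add false 6 0 :: .rsq 0 :: .mul 123 0 :: .mul 0 0 :: .mul 0 1
    :: .mul 12 0 :: .smul 3 0 :: .mul 0 111 :: .mul 0 4 :: .mul 113 5 :: .sub true 147 0 :: .smul 5
    0 :: .sub true 83 0 :: .mul 4 0 :: .sub true 25 0 :: .mul 96 0 :: .mul 156 140 :: .smul (-1) 0
    :: .exp 0 :: .cst 1 125 :: .smul 29 168 :: .mul 1 0 :: .cst 1 25 :: .sub true 1 0 :: .add true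
    161 97 :: .mul 0 81 :: .add true 0 63 :: .mul 3 0 :: .sub false 84 0 :: .sub false 166 5 ::
    .smul 3 6 :: .mul 0 20 :: .add true 2 0 :: .mul 27 0 :: .sub true 5 0 :: .mul 155 0 :: .mul 17 0
    :: .sub false 21 0 :: .cpy 0 :: []

def prog2 : List Ins := .mul 31 0 :: .mul 17 0 :: .sub true 9 0 :: .mul 6 0 :: .smul 2 64 :: .mul 36
    39 :: .mul 22 0 :: .smul (-1) 0 :: .mul 30 0 :: .mul 4 0 :: .add true 6 0 :: .mul 18 18 :: .sub
    true 1 0 :: .mul 35 0 :: .add true 18 0 :: .mul 36 0 :: .mul 22 21 :: .add false 1 0 :: .add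
    true 37 25 :: .mul 0 5 :: .add false 2 0 :: .smul 2 24 :: .sub false 19 0 :: .mul 12 0 :: .add
    false 66 84 :: .mul 28 31 :: .mul 1 0 :: .sub false 3 0 :: .add false 35 25 :: .mul 89 51 ::
    .sub true 1 0 :: .mul 21 0 :: .add false 4 0 :: .smul 2 39 :: .add true 0 23 :: .mul 42 0 ::
    .smul 2 0 :: .add true 4 0 :: .mul 60 0 :: .add false 18 0 :: .sub true 129 130 :: .mul 0 117 ::
    .smul (-1) 0 :: .exp 0 :: .mul 113 97 :: .cst 1 3 :: .sub false 132 107 :: .add true 0 97 ::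
    .mul 109 0 :: .mul 3 0 :: prog3

def prog1 : List Ins := .sub true 36 0 :: .inv 40 :: .mul 1 0 :: .sub true 39 6 :: .mul 1 0 :: .add
    false 6 0 :: .mul 21 9 :: .int 2 :: .smul 2 19 :: .sub true 1 0 :: .inv 0 :: .mul 4 0 :: .sub
    true 6 0 :: .mul 32 0 :: .exp 6 :: .mul 33 0 :: .mul 0 5 :: .add false 3 0 :: .smul 2 0 :: .mul
    56 0 :: .mul 31 1 :: .sub true 57 27 :: .mul 41 36 :: .add false 0 7 :: .mul 2 0 :: .inv 0 ::
    .mul 5 0 :: .smul (-1) 0 :: .add true 0 59 :: .sub false 39 65 :: .add true 2 0 :: .mul 3 3 ::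
    .sub false 68 0 :: .mul 7 7 :: .smul 2 9 :: .add false 10 14 :: .mul 1 0 :: .mul 56 36 :: .smul
    2 22 :: .add false 1 0 :: .mul 21 0 :: .sub true 4 0 :: .mul 8 0 :: .mul 15 0 :: .sub true 11 0
    :: .mul 14 0 :: .mul 12 5 :: .mul 53 66 :: .mul 0 62 :: .add false 33 0 :: prog2

def prog : List Ins := .cst 7 250 :: .cst 1 500 :: .var 0 :: .smul 23 0 :: .mul 2 0 :: .add false 4
    0 :: .cst 1 2 :: .cst 1 8 :: .smul 3 5 :: .mul 1 0 :: .sub true 3 0 :: .mul 0 0 :: .mul 6 0 ::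
    .int 1 :: .cst 1 4 :: .mul 0 6 :: .add false 2 0 :: .var 2 :: .int 3 :: .smul 13 16 :: .mul 5 0
    :: .add false 2 0 :: .mul 4 0 :: .add false 6 0 :: .var 1 :: .mul 2 0 :: .sub true 2 0 :: .mul
    20 0 :: .sub true 14 0 :: .exp 0 :: .mul 0 0 :: .cst 3 32 :: .smul (-1) 6 :: .exp 0 :: .mul 2 0
    :: .sub false 21 0 :: .cst 1 16 :: .mul 0 28 :: .add false 23 0 :: .inv 0 :: .mul 4 0 :: .mul 34
    0 :: .smul (-1) 18 :: .exp 0 :: .mul 33 20 :: .smul (-1) 0 :: .exp 0 :: .sub true 3 0 :: .mul 6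
    0 :: .smul 2 14 :: prog1

def vs : List Vr := [⟨4, 0, false, false⟩, ⟨3, 0, false, false⟩, ⟨5, 0, false, false⟩]

def C : Chart := ⟨vs, prog, [], 1, 3⟩

end Pool.Agent.Lib.MP_d6150d_an.CcK
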