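import Pool.Agent.Lib.MP_d6150d_an.GDef

/-! A generated chart: the program. -/

namespace Pool.Agent.Lib.MP_d6150d_an.CcL

def prog4 : List Ins := .mul 0 27 :: .sub false 0 7 :: .cpy 0 :: .cpy 7 :: []

def prog3 : List Ins := .mul 128 99 :: .cst 1 3 :: .sub false 145 113 :: .add true 0 99 :: .mul 115
    0 :: .mul 3 0 :: .mul 0 85 :: .add false 6 0 :: .rsq 0 :: .mul 152 0 :: .mul 0 0 :: .mul 0 1 ::
    .mul 12 0 :: .smul 3 0 :: .mul 0 113 :: .mul 0 4 :: .mul 115 5 :: .sub true 160 0 :: .smul 5 0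
    :: .sub true 86 0 :: .mul 4 0 :: .sub true 28 0 :: .mul 100 0 :: .mul 159 0 :: .sub true 167 161
    :: .mul 169 0 :: .add false 163 0 :: .cst 1 125 :: .smul 29 175 :: .mul 1 0 :: .cst 1 25 :: .sub
    true 1 0 :: .add true 175 102 :: .mul 0 85 :: .add true 0 67 :: .mul 3 0 :: .sub false 88 0 ::
    .sub false 180 5 :: .smul 3 6 :: .mul 0 21 :: .add true 2 0 :: .mul 28 0 :: .sub true 5 0 ::
    .mul 171 0 :: .mul 17 0 :: .sub false 21 0 :: .sub false 189 190 :: .mul 191 184 :: .add true 1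
    0 :: .mul 187 0 :: prog4

def prog2 : List Ins := .mul 66 78 :: .mul 0 65 :: .add false 76 0 :: .mul 32 0 :: .mul 17 0 :: .sub
    true 9 0 :: .mul 6 0 :: .smul 2 67 :: .mul 37 82 :: .mul 22 0 :: .smul (-1) 0 :: .mul 31 0 ::
    .mul 4 0 :: .add true 6 0 :: .mul 18 18 :: .sub true 1 0 :: .mul 36 0 :: .add true 18 0 :: .mul
    36 0 :: .mul 22 21 :: .add false 1 0 :: .add true 37 25 :: .mul 0 5 :: .add false 2 0 :: .smul 2
    24 :: .sub false 19 0 :: .mul 12 0 :: .add false 65 87 :: .mul 28 31 :: .mul 1 0 :: .sub false 3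
    0 :: .add false 35 25 :: .mul 92 52 :: .sub true 1 0 :: .mul 21 0 :: .add false 4 0 :: .smul 2
    39 :: .add true 0 23 :: .mul 42 0 :: .smul 2 0 :: .add true 4 0 :: .mul 61 0 :: .add false 18 0
    :: .sub true 137 138 :: .mul 0 115 :: .smul (-1) 0 :: .exp 0 :: .smul 2 97 :: .sub true 0 116 ::
    .mul 2 0 :: prog3

def prog1 : List Ins := .mul 5 0 :: .sub false 17 0 :: .mul 10 0 :: .smul 2 18 :: .sub false 47 0 ::
    .inv 49 :: .mul 1 0 :: .sub true 50 6 :: .mul 1 0 :: .add false 6 0 :: .mul 25 9 :: .int 2 ::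
    .smul 2 23 :: .sub true 1 0 :: .inv 0 :: .mul 4 0 :: .sub false 6 0 :: .mul 45 0 :: .mul 42 3 ::
    .add false 1 0 :: .smul 2 0 :: .mul 50 0 :: .mul 33 1 :: .sub false 66 39 :: .mul 52 38 :: .add
    false 0 49 :: .mul 2 0 :: .inv 0 :: .mul 5 0 :: .smul (-1) 0 :: .int 3 :: .add true 1 0 :: .sub
    false 42 75 :: .add true 3 0 :: .mul 4 4 :: .sub false 78 0 :: .mul 8 8 :: .smul 2 10 :: .add
    false 11 15 :: .mul 1 0 :: .mul 68 35 :: .smul 2 65 :: .add false 1 0 :: .mul 22 0 :: .sub true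
    4 0 :: .mul 8 0 :: .mul 16 0 :: .sub true 11 0 :: .mul 14 0 :: .mul 12 5 :: prog2

def prog : List Ins := .cst 1 2 :: .cst 1 8 :: .var 0 :: .smul 3 0 :: .mul 2 0 :: .sub true 4 0 ::
    .int 1 :: .cst 1 4 :: .mul 0 4 :: .add false 2 0 :: .mul 4 0 :: .exp 0 :: .var 1 :: .mul 1 0 ::
    .cst 7 250 :: .cst 1 500 :: .smul 23 13 :: .mul 1 0 :: .add false 3 0 :: .mul 13 13 :: .mul 1 0
    :: .mul 14 14 :: .cst 3 32 :: .exp 13 :: .mul 1 0 :: .mul 0 12 :: .int 4 :: .smul 4 24 :: .add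
    false 1 0 :: .smul (-1) 0 :: .exp 0 :: .var 3 :: .mul 0 0 :: .mul 2 0 :: .mul 8 0 :: .sub false
    28 0 :: .cst 1 16 :: .mul 0 33 :: .add false 30 0 :: .inv 0 :: .mul 4 0 :: .mul 40 0 :: .mul 36
    13 :: .smul (-1) 0 :: .exp 0 :: .var 2 :: .mul 37 0 :: .sub true 40 15 :: .mul 1 0 :: .add false
    17 0 :: prog1

def vs : List Vr := [⟨3, 0, false, true⟩, ⟨2, 0, false, true⟩, ⟨1, 0, false, false⟩, ⟨3, 0, false,
    false⟩]

def C : Chart := ⟨vs, prog, [], 2, 3⟩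

end Pool.Agent.Lib.MP_d6150d_an.CcL
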