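import Pool.Agent.Lib.MP_d6150d_an.GDef

/-! A generated chart: the program. -/

namespace Pool.Agent.Lib.MP_d6150d_an.CcM

def prog3 : List Ins := .mul 157 0 :: .sub true 144 158 :: .mul 148 0 :: .add false 160 0 :: .cst 1
    125 :: .smul 29 159 :: .mul 1 0 :: .cst 1 25 :: .sub true 1 0 :: .add true 152 88 :: .mul 0 70
    :: .add true 0 56 :: .mul 3 0 :: .sub false 73 0 :: .sub false 157 5 :: .smul 3 6 :: .mul 0 21
    :: .add true 2 0 :: .mul 26 0 :: .sub true 5 0 :: .mul 16 0 :: .sub false 20 0 :: .sub false 165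
    168 :: .mul 169 180 :: .add true 1 0 :: .mul 0 25 :: .sub false 0 6 :: .cpy 0 :: .cpy 6 :: []

def prog2 : List Ins := .mul 4 0 :: .add false 6 0 :: .mul 14 14 :: .sub true 1 0 :: .mul 33 0 ::
    .add true 14 0 :: .mul 33 0 :: .mul 18 17 :: .add false 1 0 :: .add false 33 21 :: .mul 0 5 ::
    .add false 2 0 :: .smul 2 25 :: .sub true 19 0 :: .mul 12 0 :: .add false 79 41 :: .mul 29 27 ::
    .mul 1 0 :: .sub false 3 0 :: .add false 31 25 :: .mul 46 49 :: .sub false 1 0 :: .mul 21 0 ::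
    .add false 4 0 :: .smul 2 35 :: .add true 0 23 :: .mul 38 0 :: .smul 2 0 :: .add true 4 0 ::
    .mul 58 0 :: .add false 18 0 :: .cst 1 3 :: .sub false 125 115 :: .sub true 0 50 :: .mul 117 0
    :: .mul 3 0 :: .mul 0 89 :: .add false 130 0 :: .rsq 0 :: .mul 0 0 :: .mul 0 1 :: .mul 90 0 ::
    .smul 3 0 :: .mul 0 3 :: .sub true 137 4 :: .smul 5 0 :: .sub true 71 0 :: .mul 3 0 :: .sub true
    17 0 :: .mul 101 0 :: prog3

def prog1 : List Ins := .mul 31 35 :: .smul (-1) 0 :: .exp 0 :: .mul 0 0 :: .mul 6 0 :: .mul 53 40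
    :: .tri 0 :: .mul 4 2 :: .smul (-1) 4 :: .exp 0 :: .add false 53 0 :: .mul 5 0 :: .mul 62 0 ::
    .add false 56 30 :: .mul 4 4 :: .mul 32 0 :: .sub false 2 0 :: .mul 4 0 :: .inv 0 :: .mul 11 0
    :: .mul 21 0 :: .int 3 :: .add true 1 0 :: .inv 56 :: .sub false 0 67 :: .add true 4 0 :: .mul 5
    5 :: .sub false 70 0 :: .smul 2 7 :: .sub false 43 0 :: .mul 10 11 :: .mul 0 21 :: .smul 2 49 ::
    .add false 76 0 :: .mul 1 19 :: .sub true 1 0 :: .mul 4 0 :: .sub true 7 0 :: .mul 17 0 :: .sub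
    true 11 0 :: .mul 14 0 :: .mul 78 21 :: .add false 5 0 :: .sub true 5 0 :: .mul 7 0 :: .smul 2
    21 :: .mul 15 63 :: .mul 32 37 :: .mul 1 0 :: .mul 28 0 :: prog2

def prog : List Ins := .var 1 :: .cst 7 250 :: .cst 1 500 :: .var 0 :: .smul 23 0 :: .mul 2 0 ::
    .add false 4 0 :: .cst 1 2 :: .cst 1 8 :: .smul 3 5 :: .mul 1 0 :: .sub true 3 0 :: .mul 0 0 ::
    .mul 6 0 :: .int 1 :: .cst 1 4 :: .mul 0 6 :: .add false 2 0 :: .var 2 :: .mul 1 0 :: .smul (-1)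
    0 :: .mul 0 0 :: .cst 1 16 :: .mul 0 13 :: .add false 8 0 :: .smul 2 0 :: .mul 0 5 :: .tri 0 ::
    .mul 4 0 :: .sub true 5 16 :: .mul 0 11 :: .tri 0 :: .mul 4 0 :: .sub false 6 0 :: .cst 3 32 ::
    .mul 0 38 :: .smul (-1) 0 :: .smul 2 4 :: .sub false 11 0 :: .int 2 :: .sub true 18 0 :: .mul 0
    24 :: .tri 0 :: .mul 4 0 :: .add true 7 0 :: .mul 10 0 :: .add false 14 0 :: .smul 2 0 :: .mul
    32 0 :: .mul 41 0 :: prog1

def vs : List Vr := [⟨3, 0, false, true⟩, ⟨2, 0, false, true⟩, ⟨7, 3, false, false⟩]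

def C : Chart := ⟨vs, prog, [], 2, 3⟩

end Pool.Agent.Lib.MP_d6150d_an.CcM
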