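import Pool.Agent.Lib.MP_d6150d_an.GDef

/-! A generated chart: the program. -/

namespace Pool.Agent.Lib.MP_d6150d_an.CcP

def prog3 : List Ins := .mul 63 0 :: .add false 4 0 :: .smul 2 84 :: .add true 0 65 :: .mul 87 0 ::
    .smul 2 0 :: .add true 4 0 :: .mul 102 0 :: .add false 18 0 :: .smul 3 52 :: .mul 0 55 :: .smul
    5 51 :: .sub true 31 0 :: .mul 2 0 :: .sub true 5 0 :: .mul 37 0 :: .mul 46 0 :: .sub false 53 0
    :: .cpy 0 :: .cpy 55 :: []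

def prog2 : List Ins := .mul 0 68 :: .mul 2 0 :: .add false 109 0 :: .rsq 0 :: .mul 0 0 :: .mul 0 1
    :: .mul 72 0 :: .sub false 114 33 :: .smul 3 34 :: .sub true 116 4 :: .mul 1 0 :: .add true 3 0
    :: .mul 5 0 :: .sub false 19 0 :: .cst 1 8 :: .mul 0 118 :: .sub true 79 0 :: .sub false 124 0
    :: .mul 1 101 :: .add true 1 0 :: .cst 7 250 :: .cst 1 500 :: .smul 23 126 :: .mul 1 0 :: .add
    false 3 0 :: .mul 8 8 :: .mul 1 0 :: .mul 0 26 :: .int 3 :: .add false 74 0 :: .sub false 49 137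
    :: .add true 76 0 :: .mul 0 63 :: .add true 0 42 :: .mul 4 0 :: .mul 67 66 :: .add false 1 0 ::
    .add false 5 70 :: .mul 0 47 :: .add false 2 0 :: .smul 2 74 :: .sub false 62 0 :: .mul 54 0 ::
    .add false 121 62 :: .mul 78 76 :: .mul 1 0 :: .sub false 3 0 :: .add false 80 68 :: .mul 67 93
    :: .sub true 1 0 :: prog3

def prog1 : List Ins := .sub false 2 0 :: .mul 4 0 :: .inv 0 :: .mul 11 0 :: .mul 52 0 :: .mul 0 0
    :: .sub false 63 0 :: .smul 2 2 :: .sub false 36 0 :: .mul 5 6 :: .mul 0 16 :: .smul 2 42 ::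
    .add false 69 0 :: .mul 1 14 :: .sub true 1 0 :: .mul 4 0 :: .sub true 7 0 :: .mul 12 0 :: .sub
    true 11 0 :: .cst 1 125 :: .smul 29 74 :: .mul 1 0 :: .cst 1 25 :: .sub true 1 0 :: .add false
    81 19 :: .mul 0 6 :: .mul 75 22 :: .add false 11 0 :: .sub true 11 0 :: .mul 13 0 :: .inv 81 ::
    .smul 2 0 :: .mul 22 63 :: .mul 34 39 :: .mul 1 0 :: .mul 30 0 :: .mul 4 0 :: .add false 7 0 ::
    .mul 21 21 :: .sub false 1 0 :: .mul 35 0 :: .add true 15 0 :: .mul 18 0 :: .sub false 24 0 ::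
    .cst 1 3 :: .sub false 102 96 :: .sub true 0 34 :: .mul 98 0 :: .mul 3 0 :: .mul 98 98 :: prog2

def prog : List Ins := .int 1 :: .cst 1 4 :: .cst 1 16 :: .var 0 :: .smul 3 0 :: .mul 2 0 :: .add
    false 4 0 :: .var 2 :: .smul 4 0 :: .mul 2 0 :: .smul 2 3 :: .mul 0 2 :: .tri 0 :: .mul 4 0 ::
    .sub true 5 15 :: .mul 0 8 :: .tri 0 :: .mul 4 0 :: .sub false 6 0 :: .cst 3 32 :: .var 1 ::
    .mul 1 0 :: .smul (-1) 0 :: .smul 2 5 :: .sub false 12 0 :: .int 2 :: .sub true 19 0 :: .mul 0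
    22 :: .tri 0 :: .mul 4 0 :: .add true 7 0 :: .mul 10 0 :: .add false 15 0 :: .smul 2 0 :: .smul
    (-1) 30 :: .exp 0 :: .mul 0 0 :: .mul 3 0 :: .cst 1 2 :: .mul 0 36 :: .tri 0 :: .mul 5 2 ::
    .smul (-1) 4 :: .exp 0 :: .add false 51 0 :: .mul 5 0 :: .mul 9 0 :: .add false 54 28 :: .mul 4
    4 :: .mul 30 0 :: prog1

def vs : List Vr := [⟨2, 0, false, true⟩, ⟨2, 0, false, true⟩, ⟨8, 3, false, false⟩]

def C : Chart := ⟨vs, prog, [], 2, 3⟩

end Pool.Agent.Lib.MP_d6150d_an.CcP
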