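import Pool.Agent.Lib.MP_d6150d_an.GDef

/-! A generated chart: the program. -/

namespace Pool.Agent.Lib.MP_d6150d_an.CcR

def prog3 : List Ins := .add true 2 0 :: .mul 9 0 :: .mul 80 80 :: .mul 104 0 :: .int 35 :: .add
    false 0 11 :: .mul 0 90 :: .smul 7 130 :: .int 7 :: .sub false 1 0 :: .add false 3 0 :: .smul 15
    80 :: .add true 1 0 :: .mul 9 0 :: .add false 12 0 :: .mul 116 75 :: .mul 98 0 :: .int 8 ::
    .smul 4 141 :: .sub false 1 0 :: .int 20 :: .smul 6 144 :: .add false 1 0 :: .mul 0 107 :: .sub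
    false 4 0 :: .smul 20 94 :: .sub true 1 0 :: .mul 10 0 :: .add true 13 0 :: .mul 112 0 :: .add
    false 39 0 :: .smul 3 66 :: .mul 0 69 :: .sub false 156 182 :: .smul 5 66 :: .sub true 1 0 ::
    .mul 3 0 :: .sub true 6 0 :: .mul 55 0 :: .mul 64 0 :: .sub false 68 0 :: .cpy 0 :: .cpy 70 ::
    []

def prog2 : List Ins := .mul 3 0 :: .mul 58 47 :: .add false 73 0 :: .mul 67 48 :: .add false 1 0 ::
    .mul 50 50 :: .mul 65 0 :: .add true 2 0 :: .smul 2 0 :: .mul 8 0 :: .add false 56 0 :: .rsq 0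
    :: .mul 0 0 :: .mul 0 1 :: .mul 98 0 :: .smul 3 108 :: .mul 62 3 :: .sub true 116 0 :: .mul 2 0
    :: .add true 111 0 :: .mul 5 0 :: .sub false 25 0 :: .sub false 121 88 :: .mul 89 99 :: .add
    true 1 0 :: .cst 7 250 :: .cst 1 500 :: .smul 23 124 :: .mul 1 0 :: .add false 3 0 :: .mul 96 96
    :: .mul 1 0 :: .mul 0 23 :: .mul 69 70 :: .mul 118 0 :: .int 18 :: .smul 3 109 :: .sub false 1 0
    :: .smul 15 72 :: .add true 1 0 :: .mul 5 0 :: .mul 78 69 :: .int 34 :: .smul 10 116 :: .add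
    false 1 0 :: .mul 118 118 :: .add false 1 0 :: .mul 0 81 :: .add false 2 121 :: .sub false 0 111
    :: prog3

def prog1 : List Ins := .add false 6 0 :: .smul 2 10 :: .mul 0 3 :: .mul 4 37 :: .mul 5 0 :: .mul 2
    0 :: .add true 5 0 :: .sub false 56 2 :: .mul 33 3 :: .add false 33 0 :: .mul 2 0 :: .inv 0 ::
    .mul 5 0 :: .mul 0 0 :: .mul 48 0 :: .mul 11 2 :: .add true 65 0 :: .mul 40 0 :: .mul 0 6 ::
    .mul 39 14 :: .add false 39 0 :: .mul 2 0 :: .mul 5 0 :: .add false 8 0 :: .mul 66 0 :: .sub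
    false 74 48 :: .int 5 :: .add false 0 50 :: .mul 0 12 :: .sub false 3 0 :: .mul 25 8 :: .smul 3
    0 :: .sub true 2 0 :: .mul 11 0 :: .smul 3 19 :: .sub false 1 0 :: .smul 2 59 :: .mul 0 20 ::
    .mul 19 63 :: .smul (-1) 0 :: .mul 35 0 :: .mul 3 0 :: .add false 6 0 :: .mul 26 0 :: .mul 87 0
    :: .sub false 20 0 :: .cst 1 3 :: .sub false 96 77 :: .add true 0 68 :: .mul 79 0 :: prog2

def prog : List Ins := .int 1 :: .cst 1 125 :: .var 0 :: .smul 29 0 :: .mul 2 0 :: .cst 1 25 :: .sub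
    true 1 0 :: .sub true 6 0 :: .cst 1 4 :: .smul 12 6 :: .mul 1 0 :: .smul (-1) 0 :: .exp 0 ::
    .var 2 :: .sub true 13 0 :: .mul 2 0 :: .cst 1 16 :: .smul 3 14 :: .mul 1 0 :: .add false 10 0
    :: .smul 2 0 :: .cst 1 2 :: .cst 3 32 :: .var 1 :: .mul 1 0 :: .sub false 24 0 :: .inv 6 :: .mul
    1 0 :: .mul 6 0 :: .smul 2 4 :: .sub true 29 0 :: .cst 1 8 :: .mul 0 14 :: .sub true 11 0 ::
    .inv 0 :: .mul 4 0 :: .add false 7 0 :: .int 2 :: .sub true 0 17 :: .inv 0 :: .mul 15 0 :: .add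
    false 4 0 :: .smul (-1) 0 :: .mul 22 0 :: .smul 4 10 :: .smul (-1) 0 :: .exp 0 :: .var 3 :: .mul
    1 0 :: .mul 13 0 :: prog1

def vs : List Vr := [⟨2, 0, false, true⟩, ⟨2, 0, false, true⟩, ⟨2, 0, false, true⟩, ⟨3, 0, true,
    false⟩]

def C : Chart := ⟨vs, prog, [], 2, 3⟩

end Pool.Agent.Lib.MP_d6150d_an.CcR
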