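import Pool.Agent.Lib.MP_d6150d_an.ChkDefs

/-! Coverings of rectangles of parameters; the unit is `2^(-16)`. -/

namespace Pool.Agent.Lib.MP_d6150d_an

def cX : Cx := mkCx 7 5 4 0 false
def cY : Cx := mkCx 3 5 3 4 true
def cZ : Cx := mkCx 11 4 4 0 false

/-- a list of delayed checks -/
abbrev Tk := List (Unit → Bool)

def allT : Tk → Bool
  | [] => true
  | f :: l => f () && allT l

def chainT (f : Int → Bx → Bool) : Int → List Bx → Tk
  | _, [] => []
  | a, x :: l => (fun _ ↦ f a x) :: chainT f x.b l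

def lastT (X : Cx) (e : Env) (T : Tx) (sg : Int) (en : Nat) (p : Piece) : Tk :=
  chainT (chkBox X e p.E sg (-1) (if en = 1 ∨ en = 2 then some (par X p.lam) else none)) p.l0 p.lb ++
    (chainT (chkBox X e p.E sg 1 (if en = 0 then some (par X p.lam) else none)) p.r0 p.rb ++
    ((if en = 0 then [fun _ ↦ vGe X e p.l0 p.k (par X p.lam)]
      else if en = 1 then [fun _ ↦ outside X e p.l0 p.k]
      else if en = 3 then (fun _ ↦ link X (slope X e (-1)) (-p.l0) p.lu0) ::
        (chainT (ubox X e p.E sg (-1)) p.lu0 p.lu ++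
          [fun _ ↦ tail2 T.Y T.e p.E sg (lastB p.lu0 p.lu) p.k])
      else (fun _ ↦ link X (slope1 X e) (-p.l0) p.lu0) ::
        (chainT (ubox1 X e T.k1 T.k2 p.E sg (if en = 2 then some p.lam else none)) p.lu0 p.lu ++
          [fun _ ↦ tail1 T.Y T.e T.k1 T.k2 p.E sg (if en = 2 then some p.lam else none)
            (lastB p.lu0 p.lu) p.k])) ++
    (if en = 1 ∨ en = 2 then [fun _ ↦ vGe X e (lastB p.r0 p.rb) p.k (par X p.lam)]
      else if en = 3 then (fun _ ↦ link X e.F (lastB p.r0 p.rb) p.ru0) ::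
        (chainT (ubox X e p.E sg 1) p.ru0 p.ru ++
          [fun _ ↦ tail3 T.Y T.e p.E sg (lastB p.ru0 p.ru) p.k])
      else [fun _ ↦ outside X e (lastB p.r0 p.rb) p.k])))

def piecesT (X : Cx) (e : Env) (T : Tx) (sg : Int) (en : Nat) : TM → List Piece → Tk
  | _, [] => [fun _ ↦ false]
  | L, [p] => (fun _ ↦ chkLow X e L p) :: lastT X e T sg en p
  | L, p :: q :: l => (fun _ ↦ chkLow X e L p) ::
      (chainT (chkBox X e p.E sg (-1) none) p.l0 p.lb ++
      (chainT (chkBox X e p.E sg 1 none) p.r0 p.rb ++ ((fun _ ↦ vGe X e p.l0 p.k (par X p.lam) &&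
      vGe X e (lastB p.r0 p.rb) p.k (par X p.lam)) :: piecesT X e T sg en (par X p.lam) (q :: l))))

def cellT (C : Cell) : Tk :=
  let e := mkEnv cX C.D0 C.hD C.F0 C.hF C.o1 C.o2 C.ka
  (fun _ ↦ chkJ C && decide (0 < C.a0) && chkCen cZ (mkTx cZ C).e C.E0 C.sg C.j C.a0 C.k0 C.κ0) ::
    (fun _ ↦ vGe cX e C.a0 C.k0 (par cX C.lam0) && vGe cX e (-C.a0) C.k0 (par cX C.lam0)) ::
    piecesT cX e (mkTx cY C) C.sg C.en (par cX C.lam0) C.ps

/-- the checks from `i` on -/
def fr (C : Cell) (i : Nat) : Prop := allT ((cellT C).drop i) = true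

/-- the checks from `i` to `k` -/
def sl (C : Cell) (i k : Nat) : Prop := allT (((cellT C).drop i).take (k - i)) = true

instance (C : Cell) (i : Nat) : Decidable (fr C i) := instDecidableEqBool _ _

instance (C : Cell) (i k : Nat) : Decidable (sl C i k) := instDecidableEqBool _ _

theorem allT_app : ∀ l m : Tk, allT (l ++ m) = (allT l && allT m)
  | [], _ => rfl
  | f :: l, m => by simp only [List.cons_append, allT, allT_app l m, Bool.and_assoc]

theorem allT_drop : ∀ (l : Tk) (i : Nat), allT l = true → allT (l.drop i) = true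
  | _, 0, h => h
  | [], _ + 1, _ => rfl
  | _ :: l, i + 1, h => allT_drop l i (Bool.and_eq_true_iff.1 h).2

theorem sl.fr {C : Cell} {i k : Nat} (h1 : sl C i k) (h2 : fr C k) : fr C i := by
  unfold MP_d6150d_an.fr at *
  unfold sl at h1
  by_cases h : i ≤ k
  · rw [← List.take_append_drop (k - i) ((cellT C).drop i), allT_app, h1, List.drop_drop,
      Nat.add_sub_cancel' h, h2]; rfl
  · have := allT_drop _ (i - k) h2
    rwa [List.drop_drop, Nat.add_sub_cancel' (Nat.le_of_not_le h)] at this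

/-- the rectangle `[a, b] × [c, d]` lies in the cell -/
def inC (a b c d : Int) (C : Cell) : Prop :=
  0 < C.hD ∧ 0 < C.hF ∧ C.D0 - C.hD ≤ a * 4294967296 ∧ b * 4294967296 ≤ C.D0 + C.hD ∧
    C.F0 - C.hF ≤ c * 4294967296 ∧ d * 4294967296 ≤ C.F0 + C.hF

instance (a b c d : Int) (C : Cell) : Decidable (inC a b c d C) := by unfold inC; infer_instance

/-- covered rectangles; `X` describes the rectangles left out -/
inductive Cov (X : Int → Int → Int → Int → Prop) : Int → Int → Int → Int → Prop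
  | cell {a b c d : Int} (C : Cell) (h : inC a b c d C) (k : fr C 0) : Cov X a b c d
  | exc {a b c d : Int} (h : X a b c d) : Cov X a b c d
  | sD {a b c d : Int} (m : Int) (h1 : Cov X a m c d) (h2 : Cov X m b c d) : Cov X a b c d
  | sF {a b c d : Int} (m : Int) (h1 : Cov X a b c m) (h2 : Cov X a b m d) : Cov X a b c d

end Pool.Agent.Lib.MP_d6150d_an
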