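import Pool.Agent.Lib.MP_d6150d_an.TMDefs

/-! The executable checks. -/

namespace Pool.Agent.Lib.MP_d6150d_an

open TM

/-- the two contexts -/
structure Cx where
  s : Ctx
  b : Ctx
  iF : Nat
  iD : Nat
  i4 : Nat
  col : Nat
  lin : Nat

/-- `o` tells that the first and the last variable are nonnegative -/
def mkCx (n1 n2 n3 n4 : Nat) (o : Bool) : Cx :=
  let iF := 2 * n1 + 1
  let iD := iF * (2 * n2 + 1)
  let i4 := iD * (2 * n3 + 1)
  let ns := iF * (n2 + 1)
  let nb := if n4 = 0 then iD * (n3 + 1) else i4 * (n4 + 1)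
  let e1 := if o then geo 1 (n1 + 1) else geo 2 (n1 / 2 + 1)
  let e2 := geo (2 * iF) (n2 / 2 + 1)
  let e4 := if o then geo i4 (n4 + 1) else geo (2 * i4) (n4 / 2 + 1)
  let col := geo iF (n2 + 1) * geo iD (n3 + 1) * geo i4 (n4 + 1)
  ⟨mkCtx ns (geo 1 (2 * ns)) (geo 1 (n1 + 1) * geo iF (n2 + 1)) (e1 * e2),
    mkCtx nb (geo 1 (2 * nb)) (geo 1 (n1 + 1) * col) (e1 * e2 * geo (2 * iD) (n3 / 2 + 1) * e4),
    iF, iD, i4, col,
    2 ^ 224 + 2 ^ (224 * iF) + 2 ^ (224 * iD) + (if n4 = 0 then 0 else 2 ^ (224 * i4))⟩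

def posX (X : Cx) (a : TM) : Bool := posN X.b X.lin a

/-- an operator: kind, `2 β / α`, `c` -/
structure Op where
  kind : Nat
  b : Int
  c : Int

/-- parameters of a cell as Taylor models -/
structure Env where
  D : TM
  F : TM
  a1 : TM
  b1 : TM
  c1 : TM
  a2 : TM
  b2 : TM
  c2 : TM
  ka : TM
  z1 : Bool
  z2 : Bool

def opA (X : Cx) (D F : TM) (o : Op) : TM := if o.kind = 0 then int 1 else tight X.b (sub (sub F (int 1)) D)

def opC (X : Cx) (F : TM) (o : Op) : TM :=
  if o.kind = 0 then mon 0 o.c else 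
    mul X.s F (mul X.s (tight X.s (sub (smul 2 F) (int 1))) (tight X.s (sub F (int 1))))

def mkEnv (X : Cx) (D0 hD F0 hF : Int) (o1 o2 : Op) (ka : Int) : Env :=
  let D := add (mon 0 D0) (mon X.iD hD)
  let F := add (mon 0 F0) (mon X.iF hF)
  ⟨D, F, opA X D F o1, mul X.b (mon 0 o1.b) (opA X D F o1), opC X F o1,
    opA X D F o2, mul X.b (mon 0 o2.b) (opA X D F o2), opC X F o2,
    mul X.b (mon 0 ka) (mul X.b (opA X D F o1) (opA X D F o2)),
    decide (o1.kind = 0) && decide (o1.c = 0), decide (o2.kind = 0) && decide (o2.c = 0)⟩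

def zok (z : TM) (k : Nat) : Bool := decide (z.norm + 4096 ≤ 2 ^ (64 + k - 1))

/-- the quotient `v / t^2`, as a pair -/
def mu (X : Cx) (F t : TM) (k : Nat) : TM × TM :=
  let c := X.s
  let fa := smul 2 F
  let fb := tight c (sub fa (int 1))
  let fc := tight c (sub fa (int 2))
  let A := mul c fa (tri c k (mul c fa t)).p2
  let B := mul c fb (tri c k (mul c fb t)).p2
  let C := mul c fc (tri c k (mul c fc t)).p2
  (smul 2 (sub A B), smul 2 (add (sub A (smul 2 B)) C))

def muok (X : Cx) (F t : TM) (k : Nat) : Bool :=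
  let c := X.s
  zok (mul c (smul 2 F) t) k && zok (mul c (tight c (sub (smul 2 F) (int 1))) t) k &&
    zok (mul c (tight c (sub (smul 2 F) (int 2))) t) k

def lin (X : Cx) (D a b : TM) : TM := tight X.b (add a (mul X.b D b))

/-- results on a box -/
structure Res where
  ok : Bool
  n0 : TM
  bb : TM
  v : TM
  m : TM
  A1 : TM
  A2 : TM

/-- the polynomials `p2`, `p3`, `p4` -/
def pj (c : Ctx) (F P Q R : TM) : TM × TM × TM :=
  let w0 := tight c (add (sub P Q) R)
  let w1 := tight c (sub (smul 2 P) Q)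
  let w2 := tight c (sub (smul 4 P) Q)
  let w3 := sub (smul 8 P) Q
  let a := tight c (sub (int 2) F)
  let p2 := tight c (sub (mul c a w0) w1)
  let p2' := tight c (sub (mul c a w1) w2)
  let p2'' := tight c (sub (mul c a w2) w3)
  let b := tight c (sub (int 4) (smul 3 F))
  let g := tight c (add (mul c b p2) p2')
  let g' := tight c (add (mul c b p2') p2'')
  let p3 := tight c (sub (mul c w0 g) (smul 3 (mul c w1 p2)))
  let p3' := sub (add (mul c w1 (tight c (sub g (smul 3 p2')))) (mul c w0 g')) (smul 3 (mul c w2 p2))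
  (p2, p3, tight c (sub (mul c w0 (tight c (add (mul c (tight c (sub (int 6) (smul 5 F))) p3) p3')))
    (smul 5 (mul c w1 p3))))

/-- coefficients of the composed operator -/
structure Co where
  a2 : TM
  a1 : TM
  a0 : TM
  A1 : TM
  A2 : TM

def acoef (c : Ctx) (e : Env) (va vb : TM) : Co :=
  let cv1 := mul c e.c1 va
  let cv2 := mul c e.c2 vb
  let A1 := tight c (sub e.a1 cv1)
  let A2 := tight c (sub e.a2 cv2)
  let B1 := tight c (sub e.b1 (smul 3 cv1))
  ⟨smul 4 (mul c A1 A2),
    smul 2 (add (mul c A1 (tight c (sub e.b2 (smul 5 cv2)))) (mul c B1 A2)),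
    tight c (sub (sub (mul c B1 (tight c (sub e.b2 (smul 3 cv2)))) (smul 6 (mul c cv2 A1))) e.ka),
    A1, A2⟩

/-- the four terms and the seventh power -/
structure Tj where
  t1 : TM
  t2 : TM
  t3 : TM
  t4 : TM
  w7 : TM

def tj (c : Ctx) (F P Q R y w ww : TM) : Tj :=
  let p := pj c F P Q R
  let ww2 := mul c ww ww
  let ww3 := mul c ww2 ww
  let yy := mul c y y
  let y3 := mul c yy y
  ⟨mul c y ww3, mul c (mul c yy p.1) ww2, mul c (mul c y3 p.2.1) ww, mul c (mul c y3 y) p.2.2,
    mul c ww3 w⟩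

def sumX (c : Ctx) (T : Tj) (a : Co) (u : TM) : TM :=
  tight c (add (add
    (mul c a.a2 (tight c (add (add (smul 4 T.t4) (smul 24 T.t3)) (add (smul 27 T.t2) (smul 3 T.t1)))))
    (mul c a.a1 (tight c (add (smul 4 T.t3) (add (smul 12 T.t2) (smul 3 T.t1))))))
    (mul c a.a0 (tight c (sub (smul 4 (add T.t2 T.t1)) (mul c T.w7 u)))))

def envN (X : Cx) (e : Env) (z1 z2 : Bool) (w : TM) : Env :=
  ⟨e.D, e.F, if z1 then e.a1 else mul X.b e.a1 w, if z1 then e.b1 else mul X.b e.b1 w, e.c1,
    if z2 then e.a2 else mul X.b e.a2 w, if z2 then e.b2 else mul X.b e.b2 w, e.c2,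
    mul X.b e.ka (mul X.b (if z1 then int 1 else w) (if z2 then int 1 else w)), e.z1, e.z2⟩

/-- exponentials on a box -/
structure Ex where
  ok : Bool
  p1 : TM
  lam : TM
  x1 : TM
  x2 : TM
  eg : TM
  fe : TM
  f1 : TM

def mkEx (X : Cx) (e : Env) (t : TM) (k : Nat) (κ : Int × Int) : Ex :=
  let c := X.s
  let T := tri c k t
  let zl := mul c (add (mon 0 κ.1) (mon X.iF κ.2)) t
  let lam := (tri c k zl).e
  let zg := tight c (add (mul c (tight c (sub (int 2) (smul 2 e.F))) t) zl)
  let zf := mul c (smul (-1) e.F) t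
  let TF := tri c k zf
  let x1 := mul c T.e lam
  ⟨zok t k && zok zl k && zok zg k && zok zf k && muok X e.F t k, T.p1, lam, x1, mul c T.e x1,
    (tri c k zg).e, TF.e, TF.p1⟩

/-- evaluation near the center -/
def core (X : Cx) (e : Env) (t : TM) (k : Nat) (κ : Int × Int) : Res :=
  let c := X.s
  let E := mkEx X e t k κ
  let m := mu X e.F t k
  let tt := mul c t t
  let h := mul c E.eg (inv 2)
  let y := lin X e.D (mul c h m.1) (mul c h m.2)
  let v := lin X e.D (mul c tt m.1) (mul c tt m.2)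
  let w := lin X e.D (mul c E.p1 E.x1) (mul c E.p1 (tight c (sub E.x1 E.lam)))
  let a := acoef X.b e v v
  let T := tj X.b e.F (lin X e.D E.x2 E.x2) (lin X e.D E.x1 (smul 2 E.x1)) (mul X.b e.D E.lam) y w
    (mul X.b w w)
  ⟨E.ok, sumX X.b T a E.f1, mul X.b T.w7 E.fe, v, lin X e.D m.1 m.2, a.A1, a.A2⟩

def gterm (c : Ctx) (b : Bool) (z eg x : TM) (k : Nat) : TM × TM :=
  let V := (tri c k z).p1
  (V, if b then mul c x (tri c k (smul (-1) z)).p1 else mul c eg V)

def lin3 (X : Cx) (D t a b d : TM) : TM :=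
  lin X D (mul X.s t (tight X.s (sub a b))) (mul X.s t (tight X.s (add (sub a (smul 2 b)) d)))

/-- evaluation away from the center -/
def far (X : Cx) (e : Env) (fl : Bool) (t : TM) (k : Nat) (κ : Int × Int) (md : Nat) : Res :=
  let c := X.s
  let E := mkEx X e t k κ
  let fa := smul 2 e.F
  let g1 := gterm c (decide (md % 2 = 1)) (mul c fa t) E.eg E.x2 k
  let g2 := gterm c (decide (md / 2 % 2 = 1)) (mul c (tight c (sub fa (int 1))) t) E.eg E.x1 k
  let g3 := gterm c (decide (md / 4 % 2 = 1)) (mul c (tight c (sub fa (int 2))) t) E.eg E.lam k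
  let y := lin3 X e.D t g1.2 g2.2 g3.2
  let v := smul 2 (lin3 X e.D t g1.1 g2.1 g3.1)
  let a := acoef X.b e v v
  let w := lin X e.D (tight c (sub E.x2 E.x1)) (tight c (add (sub E.x2 (smul 2 E.x1)) E.lam))
  let T := tj X.b e.F (lin X e.D E.x2 E.x2) (lin X e.D E.x1 (smul 2 E.x1)) (mul X.b e.D E.lam) y w
    (mul X.b w w)
  ⟨E.ok && (!fl || (rcp c e.F).1), sumX X.b T a (if fl then (rcp c e.F).2 else mul c t E.f1),
    mul X.b T.w7 E.fe, v, v, a.A1, a.A2⟩

/-- the coefficients of the exponentials in `v` -/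
structure Tl where
  ok : Bool
  iF : TM
  A : TM
  B1 : TM
  B2 : TM
  B3 : TM

def mkTl (X : Cx) (e : Env) : Tl :=
  let i1 := rcp X.s e.F
  let i2 := rcp X.s (tight X.s (sub (smul 2 e.F) (int 1)))
  let i3 := rcp X.s (tight X.s (sub e.F (int 1)))
  let B1 := mul X.b (tight X.b (add (int 1) e.D)) i1.2
  let B2 := mul X.b (tight X.b (smul (-2) (add (int 1) (smul 2 e.D)))) i2.2
  let B3 := mul X.b e.D i3.2
  ⟨i1.1 && i2.1 && i3.1, i1.2, tight X.b (smul (-1) (add (add B1 B2) B3)), B1, B2, B3⟩

/-- scaled evaluation for large levels -/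
structure Dp where
  ok : Bool
  n : TM
  w7 : TM
  v1 : TM
  vt : TM
  gw : TM
  A1 : TM
  A2 : TM

def dpL (X : Cx) (e : Env) (s w : TM) : Dp :=
  let c := X.b
  let T := mkTl X e
  let g := tight X.s (sub (int 1) e.F)
  let v0 := tight c (add (mul c T.A w) (mul c s (tight c (add T.B2 (mul c s T.B1)))))
  let la := rcp c (smul (-1) e.D)
  let lg := mul c la.2 g
  let v1 := tight c (add (int 1) (mul c lg v0))
  let P := mul c (tight c (sub la.2 (int 1))) (mul c s s)
  let Q := mul c (tight c (sub la.2 (int 2))) s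
  let gw := mul c lg w
  let q := acoef c (envN X e e.z1 e.z2 gw) v1 v1
  let o := tight c (add (sub P Q) (int (-1)))
  let r := tj c e.F P Q (int (-1)) (mul c v1 (inv 2)) o (mul c g (mul c o o))
  ⟨T.ok && posX X g && la.1 && posX X (smul (-1) e.D), sumX c r q (mul X.s g T.iF), mul c r.w7 g, v1,
    tight c (add v0 T.B3), gw, q.A1, q.A2⟩

def dpR (X : Cx) (e : Env) (s w : TM) : Dp :=
  let c := X.b
  let T := mkTl X e
  let la := rcp c (tight c (add (int 1) e.D))
  let lg := mul c la.2 e.F
  let v0 := tight c (add (mul c T.A w) (mul c s (tight c (add T.B2 (mul c s T.B3)))))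
  let v1 := tight c (add (int 1) (mul c lg v0))
  let Q := mul c (tight c (sub (int 2) la.2)) s
  let R := mul c (tight c (sub (int 1) la.2)) (mul c s s)
  let gw := mul c lg w
  let q := acoef c (envN X e e.z1 e.z2 gw) v1 v1
  let o := tight c (add (sub (int 1) Q) R)
  let r := tj c e.F (int 1) Q R (mul c v1 (inv 2)) o (mul c e.F (mul c o o))
  ⟨T.ok && posX X e.F && la.1 && posX X (add (int 1) e.D), sumX c r q (int 1), mul c r.w7 e.F, v1,
    tight c (add v0 T.B1), gw, q.A1, q.A2⟩

/-- a polynomial in the two parameters -/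
def par (X : Cx) : List Int → TM
  | [a, b, c, d, e, f] => sparse [(0, a), (X.iD, b), (X.iF, c), (2 * X.iD, d), (X.iD + X.iF, e),
      (2 * X.iF, f)]
  | [a, b, c] => sparse [(0, a), (X.iD, b), (X.iF, c)]
  | [a] => mon 0 a
  | _ => ⟨0, 0, 0⟩

/-- a separator -/
structure Sep where
  kd : Nat
  vc : Int
  sc : Int
  co : List (List Int)

def sepE (X : Cx) (E : Sep) (v : TM) : TM :=
  tight X.b (horner X.b (mul X.b (mon 0 E.sc) (tight X.b (sub v (mon 0 E.vc)))) (E.co.map (par X)))

def boxT (a b : Int) : TM := add (mon 0 ((a + b) * 2147483648)) (mon 1 ((b - a) * 2147483648))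

def vpow (X : Cx) (e : Env) (v : TM) : TM :=
  mul X.b (if e.z1 then int 1 else v) (if e.z2 then int 1 else v)

/-- the separator term for large levels, `a` is the square root of the scaling -/
def sepY (X : Cx) (e : Env) (E : Sep) (d : Dp) (a : TM) : Bool × TM :=
  let g := rsq X.b X.lin d.vt
  (g.1, mul X.b (mul X.b (mul X.b d.w7 g.2) (vpow X e d.v1)) (sepE X E (mul X.b a g.2)))

/-- `A + exp z * B`, or the same divided by `exp z` -/
def nrm (X : Cx) (b : Bool) (z A B : TM) (k : Nat) : TM :=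
  if b then tight X.b (add (mul X.b (tri X.s k (smul (-1) z)).e A) B)
  else tight X.b (add A (mul X.b (tri X.s k z).e B))

/-- `zs` is `-|t|`, `za` is the logarithm of the scaling -/
def deep (X : Cx) (e : Env) (E : Sep) (sg sd : Int) (zs za : TM) (k : Nat) (b : Bool) : Bool :=
  let s := (tri X.s k zs).e
  let a := (tri X.s k za).e
  let w := mul X.s a a
  if sd = 1 then
    let d := dpR X e s w
    let y := sepY X e E d a
    decide (E.kd = 2) && zok zs k && zok za k && d.ok && y.1 &&
      posX X (smul sg (tight X.b (sub d.n (mul X.b w y.2))))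
  else
    let d := dpL X e s w
    let y := sepY X e E d a
    let zf := tight X.s (sub za (mul X.s e.F zs))
    decide (E.kd = 2) && zok zs k && zok za k && zok zf k && d.ok && y.1 &&
      posX X d.A1 && posX X d.A2 && posX X (nrm X b zf (smul sg d.n) (smul (-sg) y.2) k)

/-- next breakpoint with the evaluation data -/
structure Bx where
  b : Int
  k : Nat
  κ : Int × Int
  md : Nat

/-- `sd` is the sign of `t` -/
def boxN (X : Cx) (e : Env) (E : Sep) (sg sd : Int) (a : Int) (x : Bx) : Res × Bool × TM :=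
  let t := boxT a x.b
  if x.md = 32 then
    let r := core X e t x.k x.κ
    (r, decide (E.kd = 0),
      smul (sg * sd) (tight X.b (sub (mul X.b t r.n0) (mul X.b r.bb (sepE X E r.v)))))
  else
    let r := far X e (decide (E.kd ≠ 0)) t x.k x.κ x.md
    let g := rsq X.b X.lin r.v
    (r, decide (E.kd ≠ 2) || g.1, smul sg (tight X.b (sub r.n0 (mul X.b r.bb (if E.kd = 2 then
      mul X.b (mul X.b g.2 (vpow X e r.v)) (sepE X E g.2) else sepE X E r.v)))))

def slope (X : Cx) (e : Env) (sd : Int) : TM :=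
  if sd = 1 then e.F else tight X.s (sub (int 1) e.F)

/-- the check on a box: on the left the leading coefficients are positive; `cap` bounds `v` -/
def chkBox (X : Cx) (e : Env) (E : Sep) (sg sd : Int) (cap : Option TM) (a : Int) (x : Bx) : Bool :=
  if 33 ≤ x.md then
    let zs := smul (-sd) (boxT a x.b)
    cap.isNone && deep X e E sg sd zs (mul X.s (slope X e sd) zs) x.k (decide (x.md = 34))
  else
    let r := boxN X e E sg sd a x
    r.1.ok && r.2.1 && posX X r.2.2 && (decide (sd = 1) || (posX X r.1.A1 && posX X r.1.A2)) &&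
      (match cap with | none => true | some L => posX X (sub L r.1.v))

def taup (i : Nat) : TM := mon i 281474976710656

def lowMask (X : Cx) (m : Nat) : Nat := X.col * geo 1 m

def sliceMask (X : Cx) (m : Nat) : Nat := X.col * 2 ^ (224 * m)

def cstep (X : Cx) (A H : TM) (i : Nat) : TM :=
  tight X.b (sub A (mul X.b (part X.b (sliceMask X i) i A) (mul X.b (taup i) H)))

def powT (c : Ctx) (a : TM) : Nat → TM
  | 0 => int 1
  | n + 1 => mul c a (powT c a n)

def csteps (X : Cx) (bb m : TM) (A : TM) : Nat → TM × TM × Nat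
  | 0 => (A, bb, 1)
  | j + 1 =>
    let r := csteps X bb m A j
    let H := mul X.b r.2.1 m
    (cstep X r.1 H (2 * j + 1), H, r.2.2 * (H.norm / 2 ^ 64 + 2))

def cenN (X : Cx) (e : Env) (E : Sep) (sg : Int) (j : Nat) (a : Int) (k : Nat) (κ : Int × Int) :
    Res × TM :=
  let t := mon 1 (a * 4294967296)
  let r := core X e t k κ
  let A := tight X.b (sub r.n0 (mul X.b (mul X.b r.bb (sepE X E r.v))
    (mul X.b (mul X.b t r.m) (powT X.b r.v j))))
  let s := csteps X r.bb r.m A j
  let lm := lowMask X (2 * j)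
  (r, smul sg (widen (tight X.b (part X.b (X.b.kp - lm) (2 * j) s.1))
    (((tight X.b (part X.b lm 0 s.1)).l + s.1.r) * s.2.2)))

def chkCen (X : Cx) (e : Env) (E : Sep) (sg : Int) (j : Nat) (a : Int) (k : Nat) (κ : Int × Int) :
    Bool :=
  let r := cenN X e E sg j a k κ
  r.1.ok && posX X r.2 && posX X r.1.A1 && posX X r.1.A2

/-- the value of `v` at a point -/
def vAt (X : Cx) (e : Env) (a : Int) (k : Nat) : TM :=
  let t := boxT a a
  let m := mu X e.F t k
  let tt := mul X.s t t
  lin X e.D (mul X.s tt m.1) (mul X.s tt m.2)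

def vok (X : Cx) (e : Env) (a : Int) (k : Nat) : Bool := muok X e.F (boxT a a) k && zok (boxT a a) k

def omAt (X : Cx) (e : Env) (a : Int) (k : Nat) : TM :=
  let s := (tri X.s k (boxT a a)).e
  lin X e.D s (sub s (int 1))

/-- `L ≤ v a` -/
def vGe (X : Cx) (e : Env) (a : Int) (k : Nat) (L : TM) : Bool :=
  vok X e a k && posX X (sub (vAt X e a k) L)

/-- `v a ≤ L` and `a` lies in the domain -/
def vLe (X : Cx) (e : Env) (a : Int) (k : Nat) (L : TM) : Bool :=
  vok X e a k && posX X (sub L (vAt X e a k)) && posX X (omAt X e a k)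

def outside (X : Cx) (e : Env) (a : Int) (k : Nat) : Bool :=
  vok X e a k && posX X (smul (-1) (omAt X e a k))

def chkRange (X : Cx) (e : Env) (E : Sep) (sg sd : Int) (cap : Option TM) :
    Int → List Bx → Bool
  | _, [] => true
  | a, x :: l => chkBox X e E sg sd cap a x && chkRange X e E sg sd cap x.b l

def lastB : Int → List Bx → Int
  | a, [] => a
  | _, x :: l => lastB x.b l

/-- a range of levels -/
structure Piece where
  lam : List Int
  E : Sep
  l0 : Int
  lb : List Bx
  r0 : Int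
  rb : List Bx
  k : Nat
  lu0 : Int
  lu : List Bx
  ru0 : Int
  ru : List Bx

def chkLow (X : Cx) (e : Env) (L : TM) (p : Piece) : Bool :=
  decide (p.l0 < 0) && decide (0 < lastB p.r0 p.rb) && decide (lastB p.l0 p.lb < 0) &&
    decide (0 < p.r0) &&
    vLe X e (lastB p.l0 p.lb) p.k L && vLe X e p.r0 p.k L

def rays (X : Cx) (ex zf A B : TM) (k : Nat) : Bool :=
  if posX X ex then posX X A && (posX X (nrm X false zf A B k) || posX X B)
  else if posX X (smul (-1) ex) then posX X B && (posX X (nrm X true zf A B k) || posX X A)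
  else posX X A && posX X B

/-- the first variable, scaled by a bound for `exp z` -/
def svar (X : Cx) (z : TM) (k : Nat) : TM := mul X.b (cst ((tri X.s k z).e.norm + 1)) (taup 1)

def quad (c : Ctx) (s a b d : TM) : TM := tight c (add a (mul c s (tight c (add b (mul c s d)))))

/-- scaled evaluation near a finite level at infinity -/
def dp1 (X : Cx) (e : Env) (k1 k2 : Nat) (E : Sep) (cap : Option (List Int)) (s z : TM) :
    Bool × TM × TM :=
  let c := X.b
  let T := mkTl X e
  let g := tight X.s (sub e.F (int 1))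
  let v := tight c (add T.A (mul c z (quad c s T.B3 T.B2 T.B1)))
  let G1 := mul c g T.B1
  let G2 := mul c g T.B2
  let v0 := quad c s e.D G2 G1
  let v1 := tight c (sub (mul c z v0) (add (add G1 G2) e.D))
  let la := rcp c (smul (-1) e.D)
  let P := mul c (tight c (sub la.2 (int 1))) (mul c s s)
  let Q := mul c (tight c (sub la.2 (int 2))) s
  let n1 := if k1 = 0 then z else int 1
  let n2 := if k2 = 0 then z else int 1
  let en := envN X e false false g
  let a := acoef c en v1 v1
  let A1 := if k1 = 0 then a.A1 else smul (-1) (mul c e.c1 v0)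
  let A2 := if k2 = 0 then a.A2 else smul (-1) (mul c e.c2 v0)
  let h2 := smul 4 (mul c A1 A2)
  let h1 := smul 2 (add (mul c (mul c A1 n2) (tight c (sub en.b2 (smul 5 (mul c e.c2 v1)))))
    (mul c (mul c A2 n1) (tight c (sub en.b1 (smul 3 (mul c e.c1 v1))))))
  let h0 := mul c a.a0 (mul c n1 n2)
  let w := tight c (add (sub P Q) (int (-1)))
  let r := tj c e.F P Q (int (-1)) (mul c v1 (mul c la.2 (inv 2))) w (mul c g (mul c w w))
  let w7 := mul c r.w7 g
  let u1 := mul c z r.t1
  let x2 := add (smul 4 r.t4) (mul c z (tight c (add (smul 24 r.t3)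
    (mul c z (tight c (add (smul 27 r.t2) (smul 3 u1)))))))
  let x1 := add (smul 4 r.t3) (mul c z (tight c (add (smul 12 r.t2) (smul 3 u1))))
  let x0 := sub (smul 4 (add r.t2 u1)) (mul c (mul c z z) (mul c w7 T.iF))
  (decide (E.kd = 1) && T.ok && posX X g && la.1 && posX X (smul (-1) e.D) && posX X A1 && posX X A2 &&
    (match cap with | none => true | some L => posX X (sub (par X L) v)),
    tight c (add (add (mul c h2 (tight c x2)) (mul c h1 (tight c x1))) (mul c h0 (tight c x0))),
    mul c (mul c w7 (mul c g g)) (sepE X E v))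

def slope1 (X : Cx) (e : Env) : TM := tight X.s (sub (smul 2 e.F) (int 2))

def expo1 (X : Cx) (e : Env) (k1 k2 : Nat) : TM :=
  tight X.s (sub (smul (2 + (if k1 = 0 then 1 else 0) + (if k2 = 0 then 1 else 0)) (slope1 X e)) e.F)

/-- a box in the variable `(2 F - 2) |t|` -/
def ubox1 (X : Cx) (e : Env) (k1 k2 : Nat) (E : Sep) (sg : Int) (cap : Option (List Int)) (a : Int)
    (x : Bx) : Bool :=
  let za := smul (-1) (boxT a x.b)
  let ig := rcp X.s (slope1 X e)
  let zs := mul X.s za ig.2
  let zf := mul X.s (expo1 X e k1 k2) zs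
  let d := dp1 X e k1 k2 E cap (tri X.s x.k zs).e (tri X.s x.k za).e
  ig.1 && zok za x.k && zok zs x.k && zok zf x.k && d.1 &&
    posX X (nrm X (decide (x.md = 34)) zf (smul sg d.2.1) (smul (-sg) d.2.2) x.k)

/-- the left tail with a finite level -/
def tail1 (X : Cx) (e : Env) (k1 k2 : Nat) (E : Sep) (sg : Int) (cap : Option (List Int)) (u : Int)
    (k : Nat) : Bool :=
  let za := smul (-1) (boxT u u)
  let ig := rcp X.s (slope1 X e)
  let zs := mul X.s za ig.2
  let ex := expo1 X e k1 k2
  let zf := mul X.s ex zs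
  let d := dp1 X e k1 k2 E cap (svar X zs k)
    (mul X.b (tri X.s k za).e (taup X.i4))
  let A := smul sg d.2.1
  let B := smul (-sg) d.2.2
  ig.1 && zok za k && zok zs k && zok zf k && d.1 && rays X ex zf A B k

/-- a box in the variable `slope * |t|` -/
def ubox (X : Cx) (e : Env) (E : Sep) (sg sd : Int) (a : Int) (x : Bx) : Bool :=
  let za := smul (-1) (boxT a x.b)
  let ig := rcp X.s (slope X e sd)
  ig.1 && deep X e E sg sd (mul X.s za ig.2) za x.k (decide (x.md = 34))

/-- the left tail with an infinite level -/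
def tail2 (X : Cx) (e : Env) (E : Sep) (sg : Int) (u : Int) (k : Nat) : Bool :=
  let c := X.b
  let za := smul (-1) (boxT u u)
  let ig := rcp X.s (slope X e (-1))
  let zs := mul X.s za ig.2
  let ex := tight X.s (sub (int 1) (smul 2 e.F))
  let zf := mul X.s ex zs
  let a := mul c (tri X.s k za).e (taup X.i4)
  let d := dpL X e (svar X zs k) (mul c a a)
  let y := sepY X e E d a
  let A := smul sg d.n
  let B := smul (-sg) y.2
  ig.1 && zok za k && zok zs k && zok zf k && decide (E.kd = 2) && d.ok && y.1 &&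
    posX X d.A1 && posX X d.A2 && rays X ex zf A B k

/-- the right tail with an infinite level -/
def tail3 (X : Cx) (e : Env) (E : Sep) (sg : Int) (u : Int) (k : Nat) : Bool :=
  let c := X.b
  let za := smul (-1) (boxT u u)
  let ig := rcp X.s e.F
  let zs := mul X.s za ig.2
  let a := mul c (tri X.s k za).e (taup X.i4)
  let w := mul c a a
  let d := dpR X e (svar X zs k) w
  let lA := mul c (mul c (rcp c (tight c (add (int 1) e.D))).2 e.F) (mkTl X e).A
  let v0 := tight c (add (int 1) (mul c lA w))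
  let q0 := acoef c (envN X e e.z1 e.z2 d.gw) v0 v0
  let B0 := mul c (mul c (mul c lA lA) (mul c e.F (mul c e.F e.F)))
    (tight c (sub (mul c v0 (tight c (sub (smul 6 q0.a1)
      (smul 3 (mul c q0.a2 (sub (smul 5 v0) (int 2))))))) (smul 4 q0.a0)))
  let y := sepY X e E d a
  let A := smul (4 * sg) (widen (tight c (part c (c.kp - lowMask X 1) 1 d.n)) d.n.r)
  let B := smul sg (mul c (cst ((tri X.s k zs).e.norm + 1))
    (tight c (sub (mul c w B0) (smul 4 y.2))))
  let ex := tight X.s (sub (smul 2 e.F) (int 1))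
  let zf := mul X.s ex zs
  ig.1 && zok za k && zok zs k && zok zf k && decide (E.kd = 2) && d.ok && y.1 &&
    decide (d.n.l < 2 ^ 223) && rays X ex zf A B k

def chain (f : Int → Bx → Bool) : Int → List Bx → Bool
  | _, [] => true
  | a, x :: l => f a x && chain f x.b l

/-- `u ≤ g |t|` -/
def link (X : Cx) (g : TM) (t u : Int) : Bool := posX X (sub (mul X.s g (boxT t t)) (boxT u u))

/-- the data for the tails -/
structure Tx where
  Y : Cx
  e : Env
  k1 : Nat
  k2 : Nat

def chkLast (X : Cx) (e : Env) (T : Tx) (sg : Int) (en : Nat) (p : Piece) : Bool :=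
  chkRange X e p.E sg (-1) (if en = 1 ∨ en = 2 then some (par X p.lam) else none) p.l0 p.lb &&
    chkRange X e p.E sg 1 (if en = 0 then some (par X p.lam) else none) p.r0 p.rb &&
    (if en = 0 then vGe X e p.l0 p.k (par X p.lam)
      else if en = 1 then outside X e p.l0 p.k
      else if en = 3 then link X (slope X e (-1)) (-p.l0) p.lu0 &&
        chain (ubox X e p.E sg (-1)) p.lu0 p.lu && tail2 T.Y T.e p.E sg (lastB p.lu0 p.lu) p.k
      else link X (slope1 X e) (-p.l0) p.lu0 &&
        chain (ubox1 X e T.k1 T.k2 p.E sg (if en = 2 then some p.lam else none)) p.lu0 p.lu &&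
        tail1 T.Y T.e T.k1 T.k2 p.E sg (if en = 2 then some p.lam else none) (lastB p.lu0 p.lu) p.k) &&
    (if en = 1 ∨ en = 2 then vGe X e (lastB p.r0 p.rb) p.k (par X p.lam)
      else if en = 3 then link X e.F (lastB p.r0 p.rb) p.ru0 &&
        chain (ubox X e p.E sg 1) p.ru0 p.ru && tail3 T.Y T.e p.E sg (lastB p.ru0 p.ru) p.k
      else outside X e (lastB p.r0 p.rb) p.k)

def chkPieces (X : Cx) (e : Env) (T : Tx) (sg : Int) (en : Nat) : TM → List Piece → Bool
  | _, [] => false
  | L, [p] => chkLow X e L p && chkLast X e T sg en p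
  | L, p :: q :: l => chkLow X e L p && chkRange X e p.E sg (-1) none p.l0 p.lb &&
      chkRange X e p.E sg 1 none p.r0 p.rb && vGe X e p.l0 p.k (par X p.lam) &&
      vGe X e (lastB p.r0 p.rb) p.k (par X p.lam) && chkPieces X e T sg en (par X p.lam) (q :: l)

/-- a certificate for a rectangle of parameters -/
structure Cell where
  D0 : Int
  hD : Int
  F0 : Int
  hF : Int
  o1 : Op
  o2 : Op
  ka : Int
  sg : Int
  j : Nat
  a0 : Int
  k0 : Nat
  κ0 : Int × Int
  E0 : Sep
  lam0 : List Int
  en : Nat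
  ps : List Piece

def mkTx (Y : Cx) (C : Cell) : Tx :=
  ⟨Y, mkEnv Y C.D0 C.hD C.F0 C.hF C.o1 C.o2 C.ka, C.o1.kind, C.o2.kind⟩

def chkJ (C : Cell) : Bool :=
  decide (0 ≤ C.ka) && (decide (C.j = 1) ||
    (decide (C.j = 2) && decide (C.ka * 281474976710656 =
      (844424930131968 + C.o1.b) * (844424930131968 + C.o2.b))) ||
    (decide (C.j = 3) && decide (C.ka = 0) && decide (C.o2.b = -844424930131968) &&
      decide (C.o1.b = -1407374883553280)))

def chkCell (X Y Z : Cx) (C : Cell) : Bool :=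
  let e := mkEnv X C.D0 C.hD C.F0 C.hF C.o1 C.o2 C.ka
  chkJ C && decide (0 < C.a0) && chkCen Z (mkTx Z C).e C.E0 C.sg C.j C.a0 C.k0 C.κ0 &&
    vGe X e C.a0 C.k0 (par X C.lam0) && vGe X e (-C.a0) C.k0 (par X C.lam0) &&
    chkPieces X e (mkTx Y C) C.sg C.en (par X C.lam0) C.ps

/-- the digits of an index -/
def digs : List Nat → Nat → List Nat
  | [], _ => []
  | S :: Ss, k => k % S :: digs Ss (k / S)

def idx (Ss : List Nat) (n k : Nat) (d : List Nat) : Bool :=
  decide (k < n) && keep Ss k && decide (digs Ss k = d)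

def okLow (X : Cx) (Ss : List Nat) (S m : Nat) : Bool :=
  decide (lowMask X m = msk (fun k ↦ keep Ss k && decide (k % S < m)) X.b.n) &&
    decide (X.b.kp - lowMask X m = msk (fun k ↦ keep Ss k && decide (m ≤ k % S)) X.b.n)

def okSlice (X : Cx) (Ss : List Nat) (S i : Nat) : Bool :=
  decide (sliceMask X i = msk (fun k ↦ keep Ss k && decide (k % S = i)) X.b.n) &&
    idx Ss X.b.n i [i, 0, 0, 0]

end Pool.Agent.Lib.MP_d6150d_an
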