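import Pool.Agent.Lib.MP_d6150d_an.Cells

/-! The rectangles which are left out in the first covering. -/

namespace Pool.Agent.Lib.MP_d6150d_an

/-- the rectangle `[a, b] × [c, d]` lies in one of the strips, or in a region of monotonicity -/
def exA (a b c d : Int) : Prop :=
  (-6144 ≤ a ∧ b ≤ 6144) ∨ (-69632 ≤ a ∧ b ≤ -61440 ∧ d ≤ 69632) ∨
    (-69632 ≤ a ∧ b ≤ 4096 ∧ ((-4096 ≤ c ∧ d ≤ 4096) ∨ (28672 ≤ c ∧ d ≤ 36864) ∨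
      (61440 ≤ c ∧ d ≤ 69632))) ∨ (-135168 ≤ a ∧ b ≤ 4096 ∧ 126976 ≤ c ∧ d ≤ 135168) ∨
    (-36864 ≤ a ∧ b ≤ -28672 ∧ 28672 ≤ c ∧ d ≤ 69632) ∨
    (-4096 ≤ a + c ∧ b + d ≤ 4096 ∧ 61440 ≤ c ∧ d ≤ 135168) ∨
    (85334 ≤ c ∧ d ≤ 89429 ∧ ((-12288 ≤ a ∧ b ≤ 4096) ∨ (-94208 ≤ a ∧ b ≤ -57344))) ∨
    (65536 ≤ c ∧ d ≤ 81920 ∧ 2 * b + d ≤ -65536) ∨
    (-65536 ≤ a ∧ b ≤ -32768 ∧ 87382 ≤ c ∧ d ≤ 131072)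

instance (a b c d : Int) : Decidable (exA a b c d) := by unfold exA; infer_instance

end Pool.Agent.Lib.MP_d6150d_an
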