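import Pool.Agent.Lib.MP_d6150d_an.Ode

/-! Explicit formulas for the composed operator, and its expansion at the center. -/

namespace Pool.Agent.Lib.MP_d6150d_an

open Real Set Filter Topology

/-- the polynomials `p2`, `p3`, `p4` -/
def pjR (F P Q R : ℝ) : ℝ × ℝ × ℝ :=
  let w0 := P - Q + R
  let w1 := 2 * P - Q
  let w2 := 4 * P - Q
  let w3 := 8 * P - Q
  let p2 := (2 - F) * w0 - w1
  let p2' := (2 - F) * w1 - w2
  let p2'' := (2 - F) * w2 - w3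
  let g := (4 - 3 * F) * p2 + p2'
  let g' := (4 - 3 * F) * p2' + p2''
  let p3 := w0 * g - 3 * (w1 * p2)
  let p3' := w1 * (g - 3 * p2') + w0 * g' - 3 * (w2 * p2)
  (p2, p3, w0 * ((6 - 5 * F) * p3 + p3') - 5 * (w1 * p3))

/-- the parameters -/
structure Par where
  D : ℝ
  F : ℝ
  a1 : ℝ
  b1 : ℝ
  c1 : ℝ
  a2 : ℝ
  b2 : ℝ
  c2 : ℝ
  ka : ℝ

namespace Par

variable (p : Par)

def A1 (v : ℝ) : ℝ := p.a1 - p.c1 * v
def A2 (v : ℝ) : ℝ := p.a2 - p.c2 * v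
def q2 (v : ℝ) : ℝ := 4 * (p.A1 v * p.A2 v)
def q1 (v : ℝ) : ℝ := 2 * (p.A1 v * (p.b2 - 5 * (p.c2 * v)) + (p.b1 - 3 * (p.c1 * v)) * p.A2 v)
def q0 (v : ℝ) : ℝ :=
  (p.b1 - 3 * (p.c1 * v)) * (p.b2 - 3 * (p.c2 * v)) - 6 * (p.c2 * v * p.A1 v) - p.ka

/-- the function whose sign is studied -/
noncomputable def N (t : ℝ) : ℝ := NR p.D p.F p.a1 p.b1 p.c1 p.a2 p.b2 p.c2 p.ka t

end Par

/-- the sum of the terms -/
def sumR (q2 q1 q0 t1 t2 t3 t4 w7 u : ℝ) : ℝ :=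
  q2 * (4 * t4 + 24 * t3 + (27 * t2 + 3 * t1)) + q1 * (4 * t3 + (12 * t2 + 3 * t1)) +
    q0 * (4 * (t2 + t1) - w7 * u)

/-- the whole expression -/
def totR (F P Q R y w ww q2 q1 q0 u : ℝ) : ℝ :=
  sumR q2 q1 q0 (y * (ww * ww * ww)) (y * y * (pjR F P Q R).1 * (ww * ww))
    (y * y * y * (pjR F P Q R).2.1 * ww) (y * y * y * y * (pjR F P Q R).2.2) (ww * ww * ww * w) u

theorem pjR_smul (F P Q R l : ℝ) : pjR F (l * P) (l * Q) (l * R) =
    (l * (pjR F P Q R).1, l ^ 2 * (pjR F P Q R).2.1, l ^ 3 * (pjR F P Q R).2.2) := by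
  simp only [pjR, Prod.mk.injEq]
  refine ⟨by ring, by ring, by ring⟩

variable (D F : ℝ)

noncomputable def PR (t : ℝ) : ℝ := (1 + D) * exp t ^ 2
noncomputable def QR (t : ℝ) : ℝ := (1 + 2 * D) * exp t
noncomputable def wR (t : ℝ) : ℝ := PR D t - QR D t + D
noncomputable def yR (t : ℝ) : ℝ := vR D F t * exp ((2 - 2 * F) * t) / 2

theorem wR_eq (t : ℝ) : wR D t = (exp t - 1) * om D t := by
  simp only [wR, PR, QR, om]; ring

/-- the scaled expression -/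
noncomputable def Par.tot (p : Par) (t u : ℝ) : ℝ :=
  totR p.F (PR p.D t) (QR p.D t) p.D (yR p.D p.F t) (wR p.D t) (wR p.D t * wR p.D t)
    (p.q2 (vR p.D p.F t)) (p.q1 (vR p.D p.F t)) (p.q0 (vR p.D p.F t)) u

theorem tot_scale (p : Par) (t u : ℝ) {l β m P Q R y w ww q2 q1 q0 u' : ℝ}
    (hP : P = l * PR p.D t) (hQ : Q = l * QR p.D t) (hR : R = l * p.D)
    (hy : y = β * l * yR p.D p.F t) (hww : ww = β * (l * wR p.D t) ^ 2)
    (hw : w * u' = β * l * wR p.D t * u) (h2 : q2 = m * p.q2 (vR p.D p.F t))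
    (h1 : q1 = m * p.q1 (vR p.D p.F t)) (h0 : q0 = m * p.q0 (vR p.D p.F t)) :
    totR p.F P Q R y w ww q2 q1 q0 u' = β ^ 4 * l ^ 7 * m * p.tot t u := by
  subst hP hQ hR hy hww h2 h1 h0
  simp only [Par.tot, totR, pjR_smul, sumR]
  generalize pjR p.F _ _ _ = J
  linear_combination (-m * p.q0 (vR p.D p.F t) * (β * (l * wR p.D t) ^ 2) ^ 3) * hw

noncomputable def U1 (t : ℝ) : ℝ := exp (F * t) * yR D F t / wR D t
noncomputable def U2 (t : ℝ) : ℝ :=
  exp (F * t) * yR D F t ^ 2 * (pjR F (PR D t) (QR D t) D).1 / wR D t ^ 3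
noncomputable def U3 (t : ℝ) : ℝ :=
  exp (F * t) * yR D F t ^ 3 * (pjR F (PR D t) (QR D t) D).2.1 / wR D t ^ 5
noncomputable def U4 (t : ℝ) : ℝ :=
  exp (F * t) * yR D F t ^ 4 * (pjR F (PR D t) (QR D t) D).2.2 / wR D t ^ 7

variable {D F} {t : ℝ}

theorem dP (t : ℝ) : HasDerivAt (PR D) (2 * PR D t) t :=
  (((hasDerivAt_exp t).pow 2).const_mul (1 + D)).congr_deriv (by simp only [PR]; push_cast; ring)

theorem dQ (t : ℝ) : HasDerivAt (QR D) (QR D t) t := (hasDerivAt_exp t).const_mul _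

theorem dw (t : ℝ) : HasDerivAt (wR D) (2 * PR D t - QR D t) t := ((dP t).sub (dQ t)).add_const _

theorem exp_y (t : ℝ) : exp ((2 * F - 2) * t) * exp ((2 - 2 * F) * t) = 1 := by
  rw [← exp_add]; ring_nf; simp

theorem dy (t : ℝ) : HasDerivAt (yR D F) (wR D t + (2 - 2 * F) * yR D F t) t :=
  (((hasDerivAt_vR D F t).mul ((hasDerivAt_id t).const_mul (2 - 2 * F)).exp).div_const
    2).congr_deriv (by
      simp only [WR, wR_eq, yR, id]
      linear_combination ((exp t - 1) * om D t) * exp_y (F := F) t)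

theorem de (t : ℝ) : HasDerivAt (fun t ↦ exp (F * t)) (F * exp (F * t)) t :=
  ((hasDerivAt_id t).const_mul F).exp.congr_deriv (by simp only [id]; ring)

theorem wR_ne (ht : t ∈ JR D) (h0 : t ≠ 0) : wR D t ≠ 0 := by
  rw [wR_eq]
  exact mul_ne_zero (sub_ne_zero.2 (by simpa using h0)) (ne_of_gt ht)

theorem yR_pos (ht : t ∈ JR D) (h0 : t ≠ 0) : 0 < yR D F t :=
  div_pos (mul_pos (vR_pos ht h0) (exp_pos _)) two_pos

section deriv

variable (ht : t ∈ JR D) (h0 : t ≠ 0)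
include ht h0

theorem dv' : HasDerivAt (vR D F) (wR D t / yR D F t * vR D F t) t := by
  refine (hasDerivAt_vR D F t).congr_deriv ?_
  have := (vR_pos (F := F) ht h0).ne'
  have h1 := exp_y (F := F) t
  have h2 := (exp_pos ((2 - 2 * F) * t)).ne'
  rw [yR, WR, wR_eq]
  generalize exp ((2 - 2 * F) * t) = A at *
  generalize exp ((2 * F - 2) * t) = B at *
  field_simp
  linear_combination ((exp t - 1) * om D t) * h1

theorem th_eq {f : ℝ → ℝ} {c : ℝ} (h : HasDerivAt f (wR D t / yR D F t * c) t) :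
    th D F f t = 2 * c := by
  have h1 := gR_deriv (F := F) ht
  rw [← (hasDerivAt_vR D F t).deriv, (dv' ht h0).deriv, ← gR_sq ht] at h1
  have h2 := (gR_deriv_pos (F := F) ht).ne'
  have h3 : gR D F t ≠ 0 := fun h ↦ (vR_pos (F := F) ht h0).ne' (by rw [← gR_sq ht, h]; simp)
  rw [th, Dg, h.deriv]
  generalize wR D t / yR D F t = k at *
  field_simp
  apply mul_left_cancel₀ h3
  linear_combination -c * h1

theorem du' : HasDerivAt (uR F) (wR D t / yR D F t * U1 D F t) t := by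
  refine (hasDerivAt_uR t).congr_deriv ?_
  have := wR_ne ht h0
  have := (yR_pos (F := F) ht h0).ne'
  rw [U1]; field_simp

theorem dU1 : HasDerivAt (U1 D F) (wR D t / yR D F t * (U2 D F t + U1 D F t)) t := by
  have hw := wR_ne ht h0
  have := (yR_pos (F := F) ht h0).ne'
  refine (((de t).mul (dy t)).div (dw t) hw).congr_deriv ?_
  simp only [U1, U2, pjR, Pi.mul_apply]
  rw [show PR D t - QR D t + D = wR D t from rfl]
  field_simp; ring

theorem dU2 : HasDerivAt (U2 D F) (wR D t / yR D F t * (U3 D F t + 2 * U2 D F t)) t := by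
  have hw := wR_ne ht h0
  have := (yR_pos (F := F) ht h0).ne'
  have h1 := ((dP (D := D) t).const_mul 2).sub (dQ (D := D) t)
  refine ((((de t).mul ((dy t).pow 2)).mul (((dw t).const_mul (2 - F)).sub h1)).div
    ((dw t).pow 3) (pow_ne_zero 3 hw)).congr_deriv ?_
  simp only [U3, U2, pjR, Pi.mul_apply, Pi.pow_apply, Pi.sub_apply]
  rw [show PR D t - QR D t + D = wR D t from rfl]
  field_simp; push_cast; ring

theorem dU3 : HasDerivAt (U3 D F) (wR D t / yR D F t * (U4 D F t + 3 * U3 D F t)) t := by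
  have hw := wR_ne ht h0
  have := (yR_pos (F := F) ht h0).ne'
  have h1 := ((dP (D := D) t).const_mul 2).sub (dQ (D := D) t)
  have h2 := ((dP (D := D) t).const_mul 4).sub (dQ (D := D) t)
  have h3 := ((dw (D := D) t).const_mul (2 - F)).sub h1
  have h4 := (h1.const_mul (2 - F)).sub h2
  refine ((((de t).mul ((dy t).pow 3)).mul (((dw t).mul ((h3.const_mul (4 - 3 * F)).add h4)).sub
    ((h1.mul h3).const_mul 3))).div ((dw t).pow 5) (pow_ne_zero 5 hw)).congr_deriv ?_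
  simp only [U3, U4, pjR, Pi.mul_apply, Pi.pow_apply, Pi.sub_apply, Pi.add_apply]
  rw [show PR D t - QR D t + D = wR D t from rfl]
  field_simp; push_cast; ring

theorem ev_mem : ∀ᶠ s in 𝓝 t, s ∈ JR D ∧ s ≠ 0 :=
  ((JR_open D).eventually_mem ht).and (isOpen_ne.eventually_mem h0)

theorem phi4_eq : phi4 D F t = 4 * (U2 D F t + U1 D F t) - uR F t := by
  rw [phi4, th_eq ht h0 (c := 2 * (U2 D F t + U1 D F t))]
  · ring
  · refine (((dU1 ht h0).const_mul 2).congr_of_eventuallyEq ?_).congr_deriv (by ring)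
    filter_upwards [ev_mem ht h0] with s hs using th_eq hs.1 hs.2 (du' hs.1 hs.2)

theorem dphi4 : HasDerivAt (phi4 D F)
    (wR D t / yR D F t * (4 * U3 D F t + 12 * U2 D F t + 3 * U1 D F t)) t := by
  refine (((((dU2 ht h0).add (dU1 ht h0)).const_mul 4).sub (du' ht h0)).congr_of_eventuallyEq
    ?_).congr_deriv (by ring)
  filter_upwards [ev_mem ht h0] with s hs using phi4_eq hs.1 hs.2

theorem NR_eq (p : Par) (hD : p.D = D) (hF : p.F = F) : p.N t =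
    p.q2 (vR D F t) * (4 * U4 D F t + 24 * U3 D F t + 27 * U2 D F t + 3 * U1 D F t) +
      p.q1 (vR D F t) * (4 * U3 D F t + 12 * U2 D F t + 3 * U1 D F t) +
      p.q0 (vR D F t) * (4 * (U2 D F t + U1 D F t) - uR F t) := by
  have e : ∀ s ∈ JR D, s ≠ 0 → Lop D F p.a2 p.b2 p.c2 (phi4 D F) s =
      (p.a2 - p.c2 * vR D F s) * (2 * (4 * U3 D F s + 12 * U2 D F s + 3 * U1 D F s)) +
        (p.b2 - 3 * p.c2 * vR D F s) * phi4 D F s := fun s hs h ↦ by
    rw [Lop, th_eq hs h (dphi4 hs h)]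
  have h1 := ((((dv' (F := F) ht h0).const_mul p.c2).const_sub p.a2).mul
    ((((((dU3 (F := F) ht h0).const_mul 4).add ((dU2 (F := F) ht h0).const_mul 12)).add
      ((dU1 (F := F) ht h0).const_mul 3))).const_mul 2)).add
    ((((dv' (F := F) ht h0).const_mul (3 * p.c2)).const_sub p.b2).mul (dphi4 (F := F) ht h0))
  have h2 := th_eq ht h0 (f := Lop D F p.a2 p.b2 p.c2 (phi4 D F))
    (c := (p.a2 - p.c2 * vR D F t) *
      (2 * (4 * U4 D F t + 24 * U3 D F t + 27 * U2 D F t + 3 * U1 D F t)) +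
      (p.b2 - 5 * p.c2 * vR D F t) * (4 * U3 D F t + 12 * U2 D F t + 3 * U1 D F t) -
      3 * p.c2 * vR D F t * phi4 D F t) ((h1.congr_of_eventuallyEq (by
      filter_upwards [ev_mem ht h0] with s hs using e s hs.1 hs.2)).congr_deriv (by
        simp only [Pi.add_apply]; ring))
  rw [Par.N, hD, hF, NR, Lop, h2, e t ht h0, phi4_eq ht h0]
  simp only [Par.q2, Par.q1, Par.q0, Par.A1, Par.A2]; ring

end deriv

theorem Par.N_eq (p : Par) (ht : t ∈ JR p.D) (h0 : t ≠ 0) :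
    p.tot t (t * ph1 (-p.F * t)) = wR p.D t ^ 7 * exp (-p.F * t) * p.N t := by
  have hw := wR_ne ht h0
  have h1 : exp (-p.F * t) * exp (p.F * t) = 1 := by rw [← exp_add]; simp
  have h2 : uR p.F t = exp (p.F * t) * (t * ph1 (-p.F * t)) := by
    rw [uR, ph1_neg, neg_mul]; ring
  rw [NR_eq ht h0 p rfl rfl, h2]
  simp only [Par.tot, totR, sumR, U1, U2, U3, U4]
  rw [show exp (-p.F * t) = (exp (p.F * t))⁻¹ by rw [← exp_neg, neg_mul]]
  field_simp; ring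

theorem Par.N_eq' (p : Par) (ht : t ∈ JR p.D) (h0 : t ≠ 0) (hF : p.F ≠ 0) :
    p.tot t (1 / p.F) =
      wR p.D t ^ 7 * exp (-p.F * t) * (p.N t - p.q0 (vR p.D p.F t) / p.F) := by
  have h1 := p.N_eq ht h0
  have h2 := exp_eq_ph (-p.F * t)
  have h3 : t * ph1 (-p.F * t) = 1 / p.F - exp (-p.F * t) / p.F := by
    rw [h2]; field_simp; ring
  rw [h3] at h1
  simp only [Par.tot, totR, sumR] at h1 ⊢
  linear_combination h1

/-- the expansion at the center -/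
def Jet (D F : ℝ) (f : ℝ → ℝ) (a0 a1 a2 a3 a4 a5 a6 : ℝ) : Prop :=
  ∃ h, AnalyticAt ℝ h 0 ∧ ∀ᶠ t in 𝓝 0, f t = a0 + a1 * gR D F t + a2 * gR D F t ^ 2 +
    a3 * gR D F t ^ 3 + a4 * gR D F t ^ 4 + a5 * gR D F t ^ 5 + a6 * gR D F t ^ 6 +
    gR D F t ^ 7 * h t

theorem div_g {f : ℝ → ℝ} (hf : AnalyticAt ℝ f 0) :
    ∃ h, AnalyticAt ℝ h 0 ∧ ∀ᶠ t in 𝓝 0, f t = f 0 + gR D F t * h t := by
  obtain ⟨p, hp⟩ := hf
  have h1 : AnalyticAt ℝ (dslope f 0) 0 := ⟨_, hp.has_fpower_series_dslope_fslope⟩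
  refine ⟨fun t ↦ dslope f 0 t / √(muR D F t), h1.div (sqrt_mu_an (zero_mem_JR D))
    (sqrt_pos.2 (muR_pos (zero_mem_JR D))).ne', ?_⟩
  filter_upwards [(JR_open D).eventually_mem (zero_mem_JR D)] with t ht
  have h2 := (sqrt_pos.2 (muR_pos (F := F) ht)).ne'
  have h3 := sub_smul_dslope f 0 t
  rw [sub_zero, smul_eq_mul] at h3
  rw [gR]; field_simp; linarith

theorem jet_u : ∃ a1 a2 a3 a4 a5 a6, Jet D F (uR F) 0 a1 a2 a3 a4 a5 a6 := by
  obtain ⟨h1, a1, e1⟩ := div_g (D := D) (F := F) (uR_an F 0)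
  obtain ⟨h2, a2, e2⟩ := div_g (D := D) (F := F) a1
  obtain ⟨h3, a3, e3⟩ := div_g (D := D) (F := F) a2
  obtain ⟨h4, a4, e4⟩ := div_g (D := D) (F := F) a3
  obtain ⟨h5, a5, e5⟩ := div_g (D := D) (F := F) a4
  obtain ⟨h6, a6, e6⟩ := div_g (D := D) (F := F) a5
  obtain ⟨h7, a7, e7⟩ := div_g (D := D) (F := F) a6
  refine ⟨h1 0, h2 0, h3 0, h4 0, h5 0, h6 0, h7, a7, ?_⟩
  filter_upwards [e1, e2, e3, e4, e5, e6, e7] with t e1 e2 e3 e4 e5 e6 e7
  rw [e1, e2, e3, e4, e5, e6, e7]; simp only [uR]; ring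

variable {f k : ℝ → ℝ} {a0 a1 a2 a3 a4 a5 a6 b0 b1 b2 b3 b4 b5 b6 : ℝ}

theorem Jet.th (J : Jet D F f a0 a1 a2 a3 a4 a5 a6) :
    Jet D F (th D F f) 0 a1 (2 * a2) (3 * a3) (4 * a4) (5 * a5) (6 * a6) := by
  obtain ⟨h, ha, e⟩ := J
  have z := zero_mem_JR D
  refine ⟨fun t ↦ 7 * h t + MP_d6150d_an.th D F h t, (analyticAt_const.mul ha).add
    ((gR_an z).mul (ha.deriv.div (gR_an z).deriv (gR_deriv_pos z).ne')), ?_⟩
  filter_upwards [EventuallyEq.deriv e, (JR_open D).eventually_mem z, ha.eventually_analyticAt]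
    with t e ht ha
  have g := (gR_an (F := F) ht).differentiableAt.hasDerivAt
  have h1 := (((((((g.const_mul a1).const_add a0).add ((g.pow 2).const_mul a2)).add
    ((g.pow 3).const_mul a3)).add ((g.pow 4).const_mul a4)).add ((g.pow 5).const_mul a5)).add
    ((g.pow 6).const_mul a6)).add ((g.pow 7).mul ha.differentiableAt.hasDerivAt)
  have h2 := (gR_deriv_pos (F := F) ht).ne'
  simp only [MP_d6150d_an.th, Dg]
  rw [e.trans h1.deriv]
  simp only [Pi.pow_apply]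
  field_simp; push_cast; ring

theorem Jet.lin (J : Jet D F f a0 a1 a2 a3 a4 a5 a6) (K : Jet D F k b0 b1 b2 b3 b4 b5 b6)
    (c : ℝ) : Jet D F (fun t ↦ f t - c * k t) (a0 - c * b0) (a1 - c * b1) (a2 - c * b2)
      (a3 - c * b3) (a4 - c * b4) (a5 - c * b5) (a6 - c * b6) := by
  obtain ⟨h, ha, e⟩ := J
  obtain ⟨h', ha', e'⟩ := K
  refine ⟨fun t ↦ h t - c * h' t, ha.sub (analyticAt_const.mul ha'), ?_⟩
  filter_upwards [e, e'] with t e e'
  rw [e, e']; ring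

theorem Jet.lop (J : Jet D F f a0 a1 a2 a3 a4 a5 a6) (α b c : ℝ) :
    Jet D F (Lop D F α b c f) (b * a0) ((α + b) * a1) ((2 * α + b) * a2 - 3 * c * a0)
      ((3 * α + b) * a3 - 4 * c * a1) ((4 * α + b) * a4 - 5 * c * a2)
      ((5 * α + b) * a5 - 6 * c * a3) ((6 * α + b) * a6 - 7 * c * a4) := by
  obtain ⟨h', ha', e'⟩ := J.th
  obtain ⟨h, ha, e⟩ := J
  have g := gR_an (F := F) (zero_mem_JR D)
  refine ⟨fun t ↦ α * h' t + b * h t - c * (8 * a5 + 9 * a6 * gR D F t +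
    gR D F t ^ 2 * (h' t + 3 * h t)), by fun_prop, ?_⟩
  filter_upwards [e, e', (JR_open D).eventually_mem (zero_mem_JR D)] with t e e' ht
  rw [Lop, e', e, ← gR_sq ht]; ring

theorem jet_phi4 : ∃ a2 a3 a4 a5 a6, Jet D F (phi4 D F) 0 0 a2 a3 a4 a5 a6 := by
  obtain ⟨a1, a2, a3, a4, a5, a6, J⟩ := jet_u (D := D) (F := F)
  have := J.th.th.lin J 1
  simp only [one_mul, sub_self] at this
  exact ⟨_, _, _, _, _, this⟩

/-- the admissible orders of vanishing -/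
def Par.Ord (p : Par) (j : ℕ) : Prop :=
  j = 1 ∨ (j = 2 ∧ p.ka = (3 * p.a1 + p.b1) * (3 * p.a2 + p.b2)) ∨
    (j = 3 ∧ p.ka = 0 ∧ 3 * p.a2 + p.b2 = 0 ∧ 5 * p.a1 + p.b1 = 0)

theorem Par.Ord.jet {p : Par} {j : ℕ} (h : p.Ord j) : ∃ e : ℕ → ℝ, ∃ k, ContinuousAt k 0 ∧
    ∀ᶠ t in 𝓝 0, p.N t = ∑ i ∈ Finset.range j, e i * vR p.D p.F t ^ (i + 1) +
      gR p.D p.F t ^ (2 * j + 1) * k t := by
  obtain ⟨a2, a3, a4, a5, a6, J⟩ := jet_phi4 (D := p.D) (F := p.F)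
  obtain ⟨k, ha, e⟩ := ((J.lop p.a2 p.b2 p.c2).lop p.a1 p.b1 p.c1).lin J p.ka
  have g := (gR_an (F := p.F) (zero_mem_JR p.D)).continuousAt
  have hk := ha.continuousAt
  have z := (JR_open p.D).eventually_mem (zero_mem_JR p.D)
  generalize (2 * p.a1 + p.b1) * _ - _ - _ = c2 at e
  generalize (4 * p.a1 + p.b1) * _ - _ - _ = c4 at e
  generalize (6 * p.a1 + p.b1) * _ - _ - _ = c6 at e
  generalize h3 : (3 * p.a1 + p.b1) * _ - _ - _ = c3 at e
  generalize h5 : (5 * p.a1 + p.b1) * _ - _ - _ = c5 at e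
  rcases h with rfl | ⟨rfl, h⟩ | ⟨rfl, h1, h2, h⟩
  · refine ⟨fun _ ↦ c2, fun t ↦ c3 + c4 * gR p.D p.F t + c5 * gR p.D p.F t ^ 2 +
      c6 * gR p.D p.F t ^ 3 + gR p.D p.F t ^ 4 * k t, by fun_prop, ?_⟩
    filter_upwards [e, z] with t e ht
    rw [Par.N, NR, e, ← gR_sq ht]; simp; ring
  · refine ⟨fun i ↦ if i = 0 then c2 else c4, fun t ↦ c5 + c6 * gR p.D p.F t +
      gR p.D p.F t ^ 2 * k t, by fun_prop, ?_⟩
    filter_upwards [e, z] with t e ht
    rw [Par.N, NR, e, ← gR_sq ht, show c3 = 0 by rw [← h3, h]; ring]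
    simp [Finset.sum_range_succ]; ring
  · refine ⟨fun i ↦ if i = 0 then c2 else if i = 1 then c4 else c6, k, hk, ?_⟩
    filter_upwards [e, z] with t e ht
    rw [Par.N, NR, e, ← gR_sq ht, show c3 = 0 by rw [← h3, h1, h2]; ring,
      show c5 = 0 by rw [← h5, h1, h2, h]; ring]
    simp [Finset.sum_range_succ]; ring

end Pool.Agent.Lib.MP_d6150d_an
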