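import Pool.Agent.Lib.MP_d6150d_an.Data.A000
import Pool.Agent.Lib.MP_d6150d_an.Data.A001
import Pool.Agent.Lib.MP_d6150d_an.Data.A002
import Pool.Agent.Lib.MP_d6150d_an.Data.A003
import Pool.Agent.Lib.MP_d6150d_an.Data.A004
import Pool.Agent.Lib.MP_d6150d_an.Data.A005
import Pool.Agent.Lib.MP_d6150d_an.Data.A006
import Pool.Agent.Lib.MP_d6150d_an.Data.A007
import Pool.Agent.Lib.MP_d6150d_an.Data.A008
import Pool.Agent.Lib.MP_d6150d_an.Data.A009
import Pool.Agent.Lib.MP_d6150d_an.Data.A010
import Pool.Agent.Lib.MP_d6150d_an.Data.A011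
import Pool.Agent.Lib.MP_d6150d_an.Data.A012
import Pool.Agent.Lib.MP_d6150d_an.Data.A013
import Pool.Agent.Lib.MP_d6150d_an.Data.A014
import Pool.Agent.Lib.MP_d6150d_an.Data.A015
import Pool.Agent.Lib.MP_d6150d_an.Data.A016
import Pool.Agent.Lib.MP_d6150d_an.Data.A017
import Pool.Agent.Lib.MP_d6150d_an.Data.A018
import Pool.Agent.Lib.MP_d6150d_an.Data.A019
import Pool.Agent.Lib.MP_d6150d_an.Data.A020
import Pool.Agent.Lib.MP_d6150d_an.Data.A021
import Pool.Agent.Lib.MP_d6150d_an.Data.A022
import Pool.Agent.Lib.MP_d6150d_an.Data.A023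
import Pool.Agent.Lib.MP_d6150d_an.Data.A024
import Pool.Agent.Lib.MP_d6150d_an.Data.A025
import Pool.Agent.Lib.MP_d6150d_an.Data.A026
import Pool.Agent.Lib.MP_d6150d_an.Data.A027
import Pool.Agent.Lib.MP_d6150d_an.Data.A028
import Pool.Agent.Lib.MP_d6150d_an.Data.A029
import Pool.Agent.Lib.MP_d6150d_an.Data.A030
import Pool.Agent.Lib.MP_d6150d_an.Data.A031
import Pool.Agent.Lib.MP_d6150d_an.Data.A032
import Pool.Agent.Lib.MP_d6150d_an.Data.A033
import Pool.Agent.Lib.MP_d6150d_an.Data.A034
import Pool.Agent.Lib.MP_d6150d_an.Data.A035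
import Pool.Agent.Lib.MP_d6150d_an.Data.A036
import Pool.Agent.Lib.MP_d6150d_an.Data.A037
import Pool.Agent.Lib.MP_d6150d_an.Data.A038
import Pool.Agent.Lib.MP_d6150d_an.Data.A039
import Pool.Agent.Lib.MP_d6150d_an.Data.A040
import Pool.Agent.Lib.MP_d6150d_an.Data.A041
import Pool.Agent.Lib.MP_d6150d_an.Data.A042
import Pool.Agent.Lib.MP_d6150d_an.Data.A043
import Pool.Agent.Lib.MP_d6150d_an.Data.A044
import Pool.Agent.Lib.MP_d6150d_an.Data.A045
import Pool.Agent.Lib.MP_d6150d_an.Data.A046
import Pool.Agent.Lib.MP_d6150d_an.Data.A047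
import Pool.Agent.Lib.MP_d6150d_an.Data.A048
import Pool.Agent.Lib.MP_d6150d_an.ExA

set_option maxRecDepth 100000

namespace Pool.Agent.Lib.MP_d6150d_an

theorem TreeA_m163840_m131072_131072_196608 : Cov exA (-163840) (-131072) 131072 196608 :=
  (.sF 163840 (.sD (-147456) (.sF 147456 (.sF 139264 (.sF 135168 (.cell d_m163840_m147456_131072_135168 (by decide +kernel) f_m163840_m147456_131072_135168)
  (.cell d_m163840_m147456_135168_139264 (by decide +kernel) f_m163840_m147456_135168_139264))
  (.cell d_m163840_m147456_139264_147456 (by decide +kernel) f_m163840_m147456_139264_147456))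
  (.cell d_m163840_m147456_147456_163840 (by decide +kernel) f_m163840_m147456_147456_163840))
  (.sF 147456 (.sD (-139264) (.sF 139264 (.sF 135168 (.sF 133120 (.cell d_m147456_m139264_131072_133120 (by decide +kernel) f_m147456_m139264_131072_133120)
  (.cell d_m147456_m139264_133120_135168 (by decide +kernel) f_m147456_m139264_133120_135168))
  (.cell d_m147456_m139264_135168_139264 (by decide +kernel) f_m147456_m139264_135168_139264))
  (.cell d_m147456_m139264_139264_147456 (by decide +kernel) f_m147456_m139264_139264_147456))
  (.sF 139264 (.sF 135168 (.sD (-135168) (.sF 133120 (.sF 132096 (.cell d_m139264_m135168_131072_132096 (by decide +kernel) f_m139264_m135168_131072_132096)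
  (.cell d_m139264_m135168_132096_133120 (by decide +kernel) f_m139264_m135168_132096_133120))
  (.sF 134144 (.sF 133632 (.cell d_m139264_m135168_133120_133632 (by decide +kernel) f_m139264_m135168_133120_133632)
  (.sD (-137216) (.cell d_m139264_m137216_133632_134144 (by decide +kernel) f_m139264_m137216_133632_134144)
  (.exc (by decide))))
  (.cell d_m139264_m135168_134144_135168 (by decide +kernel) f_m139264_m135168_134144_135168)))
  (.exc (by decide)))
  (.cell d_m139264_m131072_135168_139264 (by decide +kernel) f_m139264_m131072_135168_139264))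
  (.cell d_m139264_m131072_139264_147456 (by decide +kernel) f_m139264_m131072_139264_147456)))
  (.sD (-139264) (.cell d_m147456_m139264_147456_163840 (by decide +kernel) f_m147456_m139264_147456_163840)
  (.sF 155648 (.cell d_m139264_m131072_147456_155648 (by decide +kernel) f_m139264_m131072_147456_155648)
  (.sD (-135168) (.cell d_m139264_m135168_155648_163840 (by decide +kernel) f_m139264_m135168_155648_163840)
  (.cell d_m135168_m131072_155648_163840 (by decide +kernel) f_m135168_m131072_155648_163840))))))
  (.sD (-147456) (.sF 180224 (.cell d_m163840_m147456_163840_180224 (by decide +kernel) f_m163840_m147456_163840_180224)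
  (.sD (-155648) (.sF 188416 (.cell d_m163840_m155648_180224_188416 (by decide +kernel) f_m163840_m155648_180224_188416)
  (.cell d_m163840_m155648_188416_196608 (by decide +kernel) f_m163840_m155648_188416_196608))
  (.sD (-151552) (.cell d_m155648_m151552_180224_196608 (by decide +kernel) f_m155648_m151552_180224_196608)
  (.cell d_m151552_m147456_180224_196608 (by decide +kernel) f_m151552_m147456_180224_196608))))
  (.sF 180224 (.sF 172032 (.sD (-139264) (.cell d_m147456_m139264_163840_172032 (by decide +kernel) f_m147456_m139264_163840_172032)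
  (.cell d_m139264_m131072_163840_172032 (by decide +kernel) f_m139264_m131072_163840_172032))
  (.cell d_m147456_m131072_172032_180224 (by decide +kernel) f_m147456_m131072_172032_180224))
  (.sD (-139264) (.cell d_m147456_m139264_180224_196608 (by decide +kernel) f_m147456_m139264_180224_196608)
  (.cell d_m139264_m131072_180224_196608 (by decide +kernel) f_m139264_m131072_180224_196608)))))

theorem TreeA_m196608_m131072_131072_196608 : Cov exA (-196608) (-131072) 131072 196608 :=
  (.sD (-163840) (.sF 163840 (.sD (-180224) (.sF 147456 (.sF 139264 (.cell d_m196608_m180224_131072_139264 (by decide +kernel) f_m196608_m180224_131072_139264)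
  (.cell d_m196608_m180224_139264_147456 (by decide +kernel) f_m196608_m180224_139264_147456))
  (.cell d_m196608_m180224_147456_163840 (by decide +kernel) f_m196608_m180224_147456_163840))
  (.sF 147456 (.sF 139264 (.cell d_m180224_m163840_131072_139264 (by decide +kernel) f_m180224_m163840_131072_139264)
  (.cell d_m180224_m163840_139264_147456 (by decide +kernel) f_m180224_m163840_139264_147456))
  (.cell d_m180224_m163840_147456_163840 (by decide +kernel) f_m180224_m163840_147456_163840)))
  (.sD (-180224) (.sF 180224 (.cell d_m196608_m180224_163840_180224 (by decide +kernel) f_m196608_m180224_163840_180224)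
  (.cell d_m196608_m180224_180224_196608 (by decide +kernel) f_m196608_m180224_180224_196608))
  (.sF 180224 (.cell d_m180224_m163840_163840_180224 (by decide +kernel) f_m180224_m163840_163840_180224)
  (.sD (-172032) (.cell d_m180224_m172032_180224_196608 (by decide +kernel) f_m180224_m172032_180224_196608)
  (.sF 188416 (.cell d_m172032_m163840_180224_188416 (by decide +kernel) f_m172032_m163840_180224_188416)
  (.cell d_m172032_m163840_188416_196608 (by decide +kernel) f_m172032_m163840_188416_196608))))))
  TreeA_m163840_m131072_131072_196608)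

theorem TreeA_m196608_m131072_65536_196608 : Cov exA (-196608) (-131072) 65536 196608 :=
  (.sF 131072 (.sD (-163840) (.sF 98304 (.sD (-180224) (.cell d_m196608_m180224_65536_98304 (by decide +kernel) f_m196608_m180224_65536_98304)
  (.cell d_m180224_m163840_65536_98304 (by decide +kernel) f_m180224_m163840_65536_98304))
  (.sD (-180224) (.cell d_m196608_m180224_98304_131072 (by decide +kernel) f_m196608_m180224_98304_131072)
  (.cell d_m180224_m163840_98304_131072 (by decide +kernel) f_m180224_m163840_98304_131072)))
  (.sF 98304 (.sD (-147456) (.cell d_m163840_m147456_65536_98304 (by decide +kernel) f_m163840_m147456_65536_98304)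
  (.sD (-139264) (.cell d_m147456_m139264_65536_98304 (by decide +kernel) f_m147456_m139264_65536_98304)
  (.cell d_m139264_m131072_65536_98304 (by decide +kernel) f_m139264_m131072_65536_98304)))
  (.sD (-147456) (.sF 114688 (.cell d_m163840_m147456_98304_114688 (by decide +kernel) f_m163840_m147456_98304_114688)
  (.cell d_m163840_m147456_114688_131072 (by decide +kernel) f_m163840_m147456_114688_131072))
  (.sF 114688 (.cell d_m147456_m131072_98304_114688 (by decide +kernel) f_m147456_m131072_98304_114688)
  (.sD (-139264) (.sF 122880 (.cell d_m147456_m139264_114688_122880 (by decide +kernel) f_m147456_m139264_114688_122880)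
  (.cell d_m147456_m139264_122880_131072 (by decide +kernel) f_m147456_m139264_122880_131072))
  (.sF 122880 (.cell d_m139264_m131072_114688_122880 (by decide +kernel) f_m139264_m131072_114688_122880)
  (.sD (-135168) (.sF 126976 (.cell d_m139264_m135168_122880_126976 (by decide +kernel) f_m139264_m135168_122880_126976)
  (.cell d_m139264_m135168_126976_131072 (by decide +kernel) f_m139264_m135168_126976_131072))
  (.sF 126976 (.cell d_m135168_m131072_122880_126976 (by decide +kernel) f_m135168_m131072_122880_126976)
  (.exc (by decide))))))))))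
  TreeA_m196608_m131072_131072_196608)

theorem TreeA_m262144_m131072_65536_196608 : Cov exA (-262144) (-131072) 65536 196608 :=
  (.sD (-196608) (.sF 131072 (.sD (-229376) (.sF 98304 (.cell d_m262144_m229376_65536_98304 (by decide +kernel) f_m262144_m229376_65536_98304)
  (.cell d_m262144_m229376_98304_131072 (by decide +kernel) f_m262144_m229376_98304_131072))
  (.sF 98304 (.cell d_m229376_m196608_65536_98304 (by decide +kernel) f_m229376_m196608_65536_98304)
  (.cell d_m229376_m196608_98304_131072 (by decide +kernel) f_m229376_m196608_98304_131072)))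
  (.sD (-229376) (.sF 163840 (.cell d_m262144_m229376_131072_163840 (by decide +kernel) f_m262144_m229376_131072_163840)
  (.cell d_m262144_m229376_163840_196608 (by decide +kernel) f_m262144_m229376_163840_196608))
  (.sF 163840 (.cell d_m229376_m196608_131072_163840 (by decide +kernel) f_m229376_m196608_131072_163840)
  (.sD (-212992) (.cell d_m229376_m212992_163840_196608 (by decide +kernel) f_m229376_m212992_163840_196608)
  (.cell d_m212992_m196608_163840_196608 (by decide +kernel) f_m212992_m196608_163840_196608)))))
  TreeA_m196608_m131072_65536_196608)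

theorem TreeA_m131072_m114688_114688_131072 : Cov exA (-131072) (-114688) 114688 131072 :=
  (.sD (-122880) (.sF 122880 (.sD (-126976) (.sF 118784 (.cell d_m131072_m126976_114688_118784 (by decide +kernel) f_m131072_m126976_114688_118784)
  (.cell d_m131072_m126976_118784_122880 (by decide +kernel) f_m131072_m126976_118784_122880))
  (.sF 118784 (.cell d_m126976_m122880_114688_118784 (by decide +kernel) f_m126976_m122880_114688_118784)
  (.sD (-124928) (.cell d_m126976_m124928_118784_122880 (by decide +kernel) f_m126976_m124928_118784_122880)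
  (.sF 120832 (.cell d_m124928_m122880_118784_120832 (by decide +kernel) f_m124928_m122880_118784_120832)
  (.exc (by decide))))))
  (.sD (-126976) (.sF 126976 (.sD (-129024) (.cell d_m131072_m129024_122880_126976 (by decide +kernel) f_m131072_m129024_122880_126976)
  (.sF 124928 (.cell d_m129024_m126976_122880_124928 (by decide +kernel) f_m129024_m126976_122880_124928)
  (.exc (by decide))))
  (.exc (by decide)))
  (.sF 126976 (.exc (by decide))
  (.exc (by decide)))))
  (.sF 122880 (.sD (-118784) (.sF 118784 (.sD (-120832) (.sF 116736 (.cell d_m122880_m120832_114688_116736 (by decide +kernel) f_m122880_m120832_114688_116736)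
  (.cell d_m122880_m120832_116736_118784 (by decide +kernel) f_m122880_m120832_116736_118784))
  (.sF 116736 (.cell d_m120832_m118784_114688_116736 (by decide +kernel) f_m120832_m118784_114688_116736)
  (.exc (by decide))))
  (.exc (by decide)))
  (.sF 118784 (.exc (by decide))
  (.sD (-116736) (.sF 120832 (.exc (by decide))
  (.cell d_m118784_m116736_120832_122880 (by decide +kernel) f_m118784_m116736_120832_122880))
  (.cell d_m116736_m114688_118784_122880 (by decide +kernel) f_m116736_m114688_118784_122880))))
  (.sD (-118784) (.sF 126976 (.sD (-120832) (.sF 124928 (.exc (by decide))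
  (.cell d_m122880_m120832_124928_126976 (by decide +kernel) f_m122880_m120832_124928_126976))
  (.cell d_m120832_m118784_122880_126976 (by decide +kernel) f_m120832_m118784_122880_126976))
  (.exc (by decide)))
  (.sF 126976 (.cell d_m118784_m114688_122880_126976 (by decide +kernel) f_m118784_m114688_122880_126976)
  (.exc (by decide))))))

theorem TreeA_m131072_m114688_98304_131072 : Cov exA (-131072) (-114688) 98304 131072 :=
  (.sF 114688 (.sD (-122880) (.sF 106496 (.cell d_m131072_m122880_98304_106496 (by decide +kernel) f_m131072_m122880_98304_106496)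
  (.cell d_m131072_m122880_106496_114688 (by decide +kernel) f_m131072_m122880_106496_114688))
  (.sF 106496 (.cell d_m122880_m114688_98304_106496 (by decide +kernel) f_m122880_m114688_98304_106496)
  (.sD (-118784) (.sF 110592 (.cell d_m122880_m118784_106496_110592 (by decide +kernel) f_m122880_m118784_106496_110592)
  (.cell d_m122880_m118784_110592_114688 (by decide +kernel) f_m122880_m118784_110592_114688))
  (.sF 110592 (.cell d_m118784_m114688_106496_110592 (by decide +kernel) f_m118784_m114688_106496_110592)
  (.sD (-116736) (.sF 112640 (.cell d_m118784_m116736_110592_112640 (by decide +kernel) f_m118784_m116736_110592_112640)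
  (.cell d_m118784_m116736_112640_114688 (by decide +kernel) f_m118784_m116736_112640_114688))
  (.sF 112640 (.cell d_m116736_m114688_110592_112640 (by decide +kernel) f_m116736_m114688_110592_112640)
  (.exc (by decide))))))))
  TreeA_m131072_m114688_114688_131072)

theorem TreeA_m114688_m98304_98304_114688 : Cov exA (-114688) (-98304) 98304 114688 :=
  (.sD (-106496) (.sF 106496 (.sD (-110592) (.sF 102400 (.cell d_m114688_m110592_98304_102400 (by decide +kernel) f_m114688_m110592_98304_102400)
  (.cell d_m114688_m110592_102400_106496 (by decide +kernel) f_m114688_m110592_102400_106496))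
  (.sF 102400 (.cell d_m110592_m106496_98304_102400 (by decide +kernel) f_m110592_m106496_98304_102400)
  (.sD (-108544) (.cell d_m110592_m108544_102400_106496 (by decide +kernel) f_m110592_m108544_102400_106496)
  (.sF 104448 (.cell d_m108544_m106496_102400_104448 (by decide +kernel) f_m108544_m106496_102400_104448)
  (.exc (by decide))))))
  (.sD (-110592) (.sF 110592 (.sD (-112640) (.sF 108544 (.cell d_m114688_m112640_106496_108544 (by decide +kernel) f_m114688_m112640_106496_108544)
  (.cell d_m114688_m112640_108544_110592 (by decide +kernel) f_m114688_m112640_108544_110592))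
  (.sF 108544 (.cell d_m112640_m110592_106496_108544 (by decide +kernel) f_m112640_m110592_106496_108544)
  (.exc (by decide))))
  (.exc (by decide)))
  (.sF 110592 (.exc (by decide))
  (.sD (-108544) (.sF 112640 (.exc (by decide))
  (.cell d_m110592_m108544_112640_114688 (by decide +kernel) f_m110592_m108544_112640_114688))
  (.cell d_m108544_m106496_110592_114688 (by decide +kernel) f_m108544_m106496_110592_114688)))))
  (.sF 106496 (.sD (-102400) (.sF 102400 (.sD (-104448) (.cell d_m106496_m104448_98304_102400 (by decide +kernel) f_m106496_m104448_98304_102400)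
  (.sF 100352 (.cell d_m104448_m102400_98304_100352 (by decide +kernel) f_m104448_m102400_98304_100352)
  (.exc (by decide))))
  (.exc (by decide)))
  (.sF 102400 (.exc (by decide))
  (.sD (-100352) (.sF 104448 (.exc (by decide))
  (.cell d_m102400_m100352_104448_106496 (by decide +kernel) f_m102400_m100352_104448_106496))
  (.cell d_m100352_m98304_102400_106496 (by decide +kernel) f_m100352_m98304_102400_106496))))
  (.sD (-102400) (.sF 110592 (.sD (-104448) (.sF 108544 (.exc (by decide))
  (.cell d_m106496_m104448_108544_110592 (by decide +kernel) f_m106496_m104448_108544_110592))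
  (.cell d_m104448_m102400_106496_110592 (by decide +kernel) f_m104448_m102400_106496_110592))
  (.sD (-104448) (.cell d_m106496_m104448_110592_114688 (by decide +kernel) f_m106496_m104448_110592_114688)
  (.cell d_m104448_m102400_110592_114688 (by decide +kernel) f_m104448_m102400_110592_114688)))
  (.sF 110592 (.sD (-100352) (.cell d_m102400_m100352_106496_110592 (by decide +kernel) f_m102400_m100352_106496_110592)
  (.cell d_m100352_m98304_106496_110592 (by decide +kernel) f_m100352_m98304_106496_110592))
  (.cell d_m102400_m98304_110592_114688 (by decide +kernel) f_m102400_m98304_110592_114688)))))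

theorem TreeA_m114688_m98304_98304_131072 : Cov exA (-114688) (-98304) 98304 131072 :=
  (.sF 114688 TreeA_m114688_m98304_98304_114688
  (.sD (-106496) (.sF 122880 (.sD (-110592) (.sF 118784 (.sD (-112640) (.sF 116736 (.exc (by decide))
  (.cell d_m114688_m112640_116736_118784 (by decide +kernel) f_m114688_m112640_116736_118784))
  (.cell d_m112640_m110592_114688_118784 (by decide +kernel) f_m112640_m110592_114688_118784))
  (.cell d_m114688_m110592_118784_122880 (by decide +kernel) f_m114688_m110592_118784_122880))
  (.sF 118784 (.cell d_m110592_m106496_114688_118784 (by decide +kernel) f_m110592_m106496_114688_118784)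
  (.cell d_m110592_m106496_118784_122880 (by decide +kernel) f_m110592_m106496_118784_122880)))
  (.sD (-110592) (.sF 126976 (.cell d_m114688_m110592_122880_126976 (by decide +kernel) f_m114688_m110592_122880_126976)
  (.exc (by decide)))
  (.sF 126976 (.cell d_m110592_m106496_122880_126976 (by decide +kernel) f_m110592_m106496_122880_126976)
  (.exc (by decide)))))
  (.sF 122880 (.sD (-102400) (.cell d_m106496_m102400_114688_122880 (by decide +kernel) f_m106496_m102400_114688_122880)
  (.cell d_m102400_m98304_114688_122880 (by decide +kernel) f_m102400_m98304_114688_122880))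
  (.sF 126976 (.cell d_m106496_m98304_122880_126976 (by decide +kernel) f_m106496_m98304_122880_126976)
  (.exc (by decide))))))

theorem TreeA_m131072_m98304_98304_131072 : Cov exA (-131072) (-98304) 98304 131072 :=
  (.sD (-114688) TreeA_m131072_m114688_98304_131072
  TreeA_m114688_m98304_98304_131072)

theorem TreeA_m131072_m98304_65536_131072 : Cov exA (-131072) (-98304) 65536 131072 :=
  (.sF 98304 (.sD (-114688) (.sF 81920 (.exc (by decide))
  (.sD (-122880) (.cell d_m131072_m122880_81920_98304 (by decide +kernel) f_m131072_m122880_81920_98304)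
  (.cell d_m122880_m114688_81920_98304 (by decide +kernel) f_m122880_m114688_81920_98304)))
  (.sF 81920 (.exc (by decide))
  (.sD (-106496) (.sF 90112 (.cell d_m114688_m106496_81920_90112 (by decide +kernel) f_m114688_m106496_81920_90112)
  (.cell d_m114688_m106496_90112_98304 (by decide +kernel) f_m114688_m106496_90112_98304))
  (.sF 90112 (.cell d_m106496_m98304_81920_90112 (by decide +kernel) f_m106496_m98304_81920_90112)
  (.sD (-102400) (.cell d_m106496_m102400_90112_98304 (by decide +kernel) f_m106496_m102400_90112_98304)
  (.sF 94208 (.cell d_m102400_m98304_90112_94208 (by decide +kernel) f_m102400_m98304_90112_94208)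
  (.sD (-100352) (.cell d_m102400_m100352_94208_98304 (by decide +kernel) f_m102400_m100352_94208_98304)
  (.sF 96256 (.cell d_m100352_m98304_94208_96256 (by decide +kernel) f_m100352_m98304_94208_96256)
  (.exc (by decide))))))))))
  TreeA_m131072_m98304_98304_131072)

theorem TreeA_m98304_m81920_81920_98304 : Cov exA (-98304) (-81920) 81920 98304 :=
  (.sD (-90112) (.sF 90112 (.sF 86016 (.cell d_m98304_m90112_81920_86016 (by decide +kernel) f_m98304_m90112_81920_86016)
  (.sD (-94208) (.sF 88064 (.cell d_m98304_m94208_86016_88064 (by decide +kernel) f_m98304_m94208_86016_88064)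
  (.cell d_m98304_m94208_88064_90112 (by decide +kernel) f_m98304_m94208_88064_90112))
  (.sD (-92160) (.sF 88064 (.exc (by decide))
  (.cell d_m94208_m92160_88064_90112 (by decide +kernel) f_m94208_m92160_88064_90112))
  (.sF 88064 (.exc (by decide))
  (.exc (by decide))))))
  (.sD (-94208) (.sF 94208 (.sD (-96256) (.cell d_m98304_m96256_90112_94208 (by decide +kernel) f_m98304_m96256_90112_94208)
  (.sF 92160 (.cell d_m96256_m94208_90112_92160 (by decide +kernel) f_m96256_m94208_90112_92160)
  (.exc (by decide))))
  (.exc (by decide)))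
  (.sF 94208 (.exc (by decide))
  (.sD (-92160) (.sF 96256 (.exc (by decide))
  (.cell d_m94208_m92160_96256_98304 (by decide +kernel) f_m94208_m92160_96256_98304))
  (.sD (-91136) (.cell d_m92160_m91136_94208_98304 (by decide +kernel) f_m92160_m91136_94208_98304)
  (.cell d_m91136_m90112_94208_98304 (by decide +kernel) f_m91136_m90112_94208_98304))))))
  (.sF 90112 (.sD (-86016) (.sF 86016 (.cell d_m90112_m86016_81920_86016 (by decide +kernel) f_m90112_m86016_81920_86016)
  (.exc (by decide)))
  (.sF 86016 (.exc (by decide))
  (.sF 88064 (.exc (by decide))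
  (.cell d_m86016_m81920_88064_90112 (by decide +kernel) f_m86016_m81920_88064_90112))))
  (.sD (-86016) (.sF 94208 (.sD (-88064) (.sF 92160 (.exc (by decide))
  (.cell d_m90112_m88064_92160_94208 (by decide +kernel) f_m90112_m88064_92160_94208))
  (.cell d_m88064_m86016_90112_94208 (by decide +kernel) f_m88064_m86016_90112_94208))
  (.sD (-88064) (.cell d_m90112_m88064_94208_98304 (by decide +kernel) f_m90112_m88064_94208_98304)
  (.cell d_m88064_m86016_94208_98304 (by decide +kernel) f_m88064_m86016_94208_98304)))
  (.sF 94208 (.sD (-83968) (.cell d_m86016_m83968_90112_94208 (by decide +kernel) f_m86016_m83968_90112_94208)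
  (.cell d_m83968_m81920_90112_94208 (by decide +kernel) f_m83968_m81920_90112_94208))
  (.cell d_m86016_m81920_94208_98304 (by decide +kernel) f_m86016_m81920_94208_98304)))))

theorem TreeA_m98304_m81920_65536_98304 : Cov exA (-98304) (-81920) 65536 98304 :=
  (.sF 81920 (.exc (by decide))
  TreeA_m98304_m81920_81920_98304)

theorem TreeA_m73728_m65536_65536_81920 : Cov exA (-73728) (-65536) 65536 81920 :=
  (.sF 73728 (.sD (-69632) (.exc (by decide))
  (.sF 69632 (.exc (by decide))
  (.sD (-67584) (.sF 71680 (.exc (by decide))
  (.sF 72704 (.cell d_m69632_m67584_71680_72704 (by decide +kernel) f_m69632_m67584_71680_72704)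
  (.cell d_m69632_m67584_72704_73728 (by decide +kernel) f_m69632_m67584_72704_73728)))
  (.sF 71680 (.sF 70656 (.cell d_m67584_m65536_69632_70656 (by decide +kernel) f_m67584_m65536_69632_70656)
  (.cell d_m67584_m65536_70656_71680 (by decide +kernel) f_m67584_m65536_70656_71680))
  (.sF 72704 (.cell d_m67584_m65536_71680_72704 (by decide +kernel) f_m67584_m65536_71680_72704)
  (.cell d_m67584_m65536_72704_73728 (by decide +kernel) f_m67584_m65536_72704_73728))))))
  (.sD (-69632) (.sF 77824 (.sD (-71680) (.exc (by decide))
  (.sF 75776 (.sD (-70656) (.exc (by decide))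
  (.cell d_m70656_m69632_73728_75776 (by decide +kernel) f_m70656_m69632_73728_75776))
  (.sD (-70656) (.sF 76800 (.cell d_m71680_m70656_75776_76800 (by decide +kernel) f_m71680_m70656_75776_76800)
  (.cell d_m71680_m70656_76800_77824 (by decide +kernel) f_m71680_m70656_76800_77824))
  (.sF 76800 (.cell d_m70656_m69632_75776_76800 (by decide +kernel) f_m70656_m69632_75776_76800)
  (.cell d_m70656_m69632_76800_77824 (by decide +kernel) f_m70656_m69632_76800_77824)))))
  (.sF 79872 (.sF 78848 (.sD (-71680) (.cell d_m73728_m71680_77824_78848 (by decide +kernel) f_m73728_m71680_77824_78848)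
  (.cell d_m71680_m69632_77824_78848 (by decide +kernel) f_m71680_m69632_77824_78848))
  (.cell d_m73728_m69632_78848_79872 (by decide +kernel) f_m73728_m69632_78848_79872))
  (.sD (-71680) (.cell d_m73728_m71680_79872_81920 (by decide +kernel) f_m73728_m71680_79872_81920)
  (.cell d_m71680_m69632_79872_81920 (by decide +kernel) f_m71680_m69632_79872_81920))))
  (.sF 77824 (.sF 75776 (.sD (-67584) (.sD (-68608) (.sF 74752 (.cell d_m69632_m68608_73728_74752 (by decide +kernel) f_m69632_m68608_73728_74752)
  (.cell d_m69632_m68608_74752_75776 (by decide +kernel) f_m69632_m68608_74752_75776))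
  (.sF 74752 (.cell d_m68608_m67584_73728_74752 (by decide +kernel) f_m68608_m67584_73728_74752)
  (.cell d_m68608_m67584_74752_75776 (by decide +kernel) f_m68608_m67584_74752_75776)))
  (.cell d_m67584_m65536_73728_75776 (by decide +kernel) f_m67584_m65536_73728_75776))
  (.sF 76800 (.cell d_m69632_m65536_75776_76800 (by decide +kernel) f_m69632_m65536_75776_76800)
  (.cell d_m69632_m65536_76800_77824 (by decide +kernel) f_m69632_m65536_76800_77824)))
  (.sD (-67584) (.sF 79872 (.cell d_m69632_m67584_77824_79872 (by decide +kernel) f_m69632_m67584_77824_79872)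
  (.cell d_m69632_m67584_79872_81920 (by decide +kernel) f_m69632_m67584_79872_81920))
  (.sF 79872 (.cell d_m67584_m65536_77824_79872 (by decide +kernel) f_m67584_m65536_77824_79872)
  (.cell d_m67584_m65536_79872_81920 (by decide +kernel) f_m67584_m65536_79872_81920))))))

theorem TreeA_m81920_m65536_65536_81920 : Cov exA (-81920) (-65536) 65536 81920 :=
  (.sD (-73728) (.exc (by decide))
  TreeA_m73728_m65536_65536_81920)

theorem TreeA_m81920_m65536_81920_98304 : Cov exA (-81920) (-65536) 81920 98304 :=
  (.sD (-73728) (.sF 90112 (.sD (-77824) (.sF 86016 (.sF 83968 (.cell d_m81920_m77824_81920_83968 (by decide +kernel) f_m81920_m77824_81920_83968)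
  (.sD (-79872) (.cell d_m81920_m79872_83968_86016 (by decide +kernel) f_m81920_m79872_83968_86016)
  (.cell d_m79872_m77824_83968_86016 (by decide +kernel) f_m79872_m77824_83968_86016)))
  (.sF 88064 (.exc (by decide))
  (.sF 89088 (.exc (by decide))
  (.cell d_m81920_m77824_89088_90112 (by decide +kernel) f_m81920_m77824_89088_90112))))
  (.sF 86016 (.sF 83968 (.cell d_m77824_m73728_81920_83968 (by decide +kernel) f_m77824_m73728_81920_83968)
  (.cell d_m77824_m73728_83968_86016 (by decide +kernel) f_m77824_m73728_83968_86016))
  (.sF 88064 (.exc (by decide))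
  (.sF 89088 (.exc (by decide))
  (.cell d_m77824_m73728_89088_90112 (by decide +kernel) f_m77824_m73728_89088_90112)))))
  (.sF 94208 (.sF 92160 (.sD (-77824) (.cell d_m81920_m77824_90112_92160 (by decide +kernel) f_m81920_m77824_90112_92160)
  (.cell d_m77824_m73728_90112_92160 (by decide +kernel) f_m77824_m73728_90112_92160))
  (.cell d_m81920_m73728_92160_94208 (by decide +kernel) f_m81920_m73728_92160_94208))
  (.sF 96256 (.cell d_m81920_m73728_94208_96256 (by decide +kernel) f_m81920_m73728_94208_96256)
  (.cell d_m81920_m73728_96256_98304 (by decide +kernel) f_m81920_m73728_96256_98304))))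
  (.sF 90112 (.sF 86016 (.sD (-69632) (.sD (-71680) (.sF 83968 (.cell d_m73728_m71680_81920_83968 (by decide +kernel) f_m73728_m71680_81920_83968)
  (.sF 84992 (.cell d_m73728_m71680_83968_84992 (by decide +kernel) f_m73728_m71680_83968_84992)
  (.cell d_m73728_m71680_84992_86016 (by decide +kernel) f_m73728_m71680_84992_86016)))
  (.sF 83968 (.sD (-70656) (.cell d_m71680_m70656_81920_83968 (by decide +kernel) f_m71680_m70656_81920_83968)
  (.sF 82944 (.cell d_m70656_m69632_81920_82944 (by decide +kernel) f_m70656_m69632_81920_82944)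
  (.cell d_m70656_m69632_82944_83968 (by decide +kernel) f_m70656_m69632_82944_83968)))
  (.sF 84992 (.cell d_m71680_m69632_83968_84992 (by decide +kernel) f_m71680_m69632_83968_84992)
  (.cell d_m71680_m69632_84992_86016 (by decide +kernel) f_m71680_m69632_84992_86016))))
  (.sF 83968 (.sD (-67584) (.sF 82944 (.cell d_m69632_m67584_81920_82944 (by decide +kernel) f_m69632_m67584_81920_82944)
  (.cell d_m69632_m67584_82944_83968 (by decide +kernel) f_m69632_m67584_82944_83968))
  (.cell d_m67584_m65536_81920_83968 (by decide +kernel) f_m67584_m65536_81920_83968))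
  (.cell d_m69632_m65536_83968_86016 (by decide +kernel) f_m69632_m65536_83968_86016)))
  (.sF 88064 (.exc (by decide))
  (.cell d_m73728_m65536_88064_90112 (by decide +kernel) f_m73728_m65536_88064_90112)))
  (.sD (-69632) (.sF 94208 (.sD (-71680) (.cell d_m73728_m71680_90112_94208 (by decide +kernel) f_m73728_m71680_90112_94208)
  (.cell d_m71680_m69632_90112_94208 (by decide +kernel) f_m71680_m69632_90112_94208))
  (.cell d_m73728_m69632_94208_98304 (by decide +kernel) f_m73728_m69632_94208_98304))
  (.cell d_m69632_m65536_90112_98304 (by decide +kernel) f_m69632_m65536_90112_98304))))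

theorem TreeA_m81920_m65536_65536_98304 : Cov exA (-81920) (-65536) 65536 98304 :=
  (.sF 81920 TreeA_m81920_m65536_65536_81920
  TreeA_m81920_m65536_81920_98304)

theorem TreeA_m98304_m65536_65536_98304 : Cov exA (-98304) (-65536) 65536 98304 :=
  (.sD (-81920) TreeA_m98304_m81920_65536_98304
  TreeA_m81920_m65536_65536_98304)

theorem TreeA_m98304_m81920_98304_131072 : Cov exA (-98304) (-81920) 98304 131072 :=
  (.sF 114688 (.sD (-90112) (.sF 106496 (.sD (-94208) (.sF 102400 (.sD (-96256) (.sF 100352 (.exc (by decide))
  (.cell d_m98304_m96256_100352_102400 (by decide +kernel) f_m98304_m96256_100352_102400))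
  (.cell d_m96256_m94208_98304_102400 (by decide +kernel) f_m96256_m94208_98304_102400))
  (.sD (-96256) (.cell d_m98304_m96256_102400_106496 (by decide +kernel) f_m98304_m96256_102400_106496)
  (.cell d_m96256_m94208_102400_106496 (by decide +kernel) f_m96256_m94208_102400_106496)))
  (.sF 102400 (.sD (-92160) (.cell d_m94208_m92160_98304_102400 (by decide +kernel) f_m94208_m92160_98304_102400)
  (.cell d_m92160_m90112_98304_102400 (by decide +kernel) f_m92160_m90112_98304_102400))
  (.cell d_m94208_m90112_102400_106496 (by decide +kernel) f_m94208_m90112_102400_106496)))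
  (.sF 110592 (.cell d_m98304_m90112_106496_110592 (by decide +kernel) f_m98304_m90112_106496_110592)
  (.cell d_m98304_m90112_110592_114688 (by decide +kernel) f_m98304_m90112_110592_114688)))
  (.sF 106496 (.sD (-86016) (.sF 102400 (.cell d_m90112_m86016_98304_102400 (by decide +kernel) f_m90112_m86016_98304_102400)
  (.sF 104448 (.cell d_m90112_m86016_102400_104448 (by decide +kernel) f_m90112_m86016_102400_104448)
  (.cell d_m90112_m86016_104448_106496 (by decide +kernel) f_m90112_m86016_104448_106496)))
  (.sF 102400 (.cell d_m86016_m81920_98304_102400 (by decide +kernel) f_m86016_m81920_98304_102400)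
  (.sF 104448 (.sF 103424 (.cell d_m86016_m81920_102400_103424 (by decide +kernel) f_m86016_m81920_102400_103424)
  (.cell d_m86016_m81920_103424_104448 (by decide +kernel) f_m86016_m81920_103424_104448))
  (.cell d_m86016_m81920_104448_106496 (by decide +kernel) f_m86016_m81920_104448_106496))))
  (.sF 110592 (.cell d_m90112_m81920_106496_110592 (by decide +kernel) f_m90112_m81920_106496_110592)
  (.cell d_m90112_m81920_110592_114688 (by decide +kernel) f_m90112_m81920_110592_114688))))
  (.sF 122880 (.sD (-90112) (.sF 118784 (.cell d_m98304_m90112_114688_118784 (by decide +kernel) f_m98304_m90112_114688_118784)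
  (.sD (-94208) (.sF 120832 (.cell d_m98304_m94208_118784_120832 (by decide +kernel) f_m98304_m94208_118784_120832)
  (.cell d_m98304_m94208_120832_122880 (by decide +kernel) f_m98304_m94208_120832_122880))
  (.sF 120832 (.cell d_m94208_m90112_118784_120832 (by decide +kernel) f_m94208_m90112_118784_120832)
  (.sD (-92160) (.cell d_m94208_m92160_120832_122880 (by decide +kernel) f_m94208_m92160_120832_122880)
  (.cell d_m92160_m90112_120832_122880 (by decide +kernel) f_m92160_m90112_120832_122880)))))
  (.cell d_m90112_m81920_114688_122880 (by decide +kernel) f_m90112_m81920_114688_122880))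
  (.sF 126976 (.cell d_m98304_m81920_122880_126976 (by decide +kernel) f_m98304_m81920_122880_126976)
  (.exc (by decide)))))

theorem TreeA_m98304_m65536_98304_131072 : Cov exA (-98304) (-65536) 98304 131072 :=
  (.sD (-81920) TreeA_m98304_m81920_98304_131072
  (.sF 114688 (.sD (-73728) (.sF 106496 (.sF 102400 (.cell d_m81920_m73728_98304_102400 (by decide +kernel) f_m81920_m73728_98304_102400)
  (.cell d_m81920_m73728_102400_106496 (by decide +kernel) f_m81920_m73728_102400_106496))
  (.sD (-77824) (.cell d_m81920_m77824_106496_114688 (by decide +kernel) f_m81920_m77824_106496_114688)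
  (.cell d_m77824_m73728_106496_114688 (by decide +kernel) f_m77824_m73728_106496_114688)))
  (.sF 106496 (.cell d_m73728_m65536_98304_106496 (by decide +kernel) f_m73728_m65536_98304_106496)
  (.cell d_m73728_m65536_106496_114688 (by decide +kernel) f_m73728_m65536_106496_114688)))
  (.sF 122880 (.cell d_m81920_m65536_114688_122880 (by decide +kernel) f_m81920_m65536_114688_122880)
  (.sF 126976 (.cell d_m81920_m65536_122880_126976 (by decide +kernel) f_m81920_m65536_122880_126976)
  (.exc (by decide))))))

theorem TreeA_m98304_m65536_65536_131072 : Cov exA (-98304) (-65536) 65536 131072 :=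
  (.sF 98304 TreeA_m98304_m65536_65536_98304
  TreeA_m98304_m65536_98304_131072)

theorem TreeA_m131072_m65536_65536_131072 : Cov exA (-131072) (-65536) 65536 131072 :=
  (.sD (-98304) TreeA_m131072_m98304_65536_131072
  TreeA_m98304_m65536_65536_131072)

theorem TreeA_m196608_m131072_131072_262144 : Cov exA (-196608) (-131072) 131072 262144 :=
  (.sF 196608 TreeA_m196608_m131072_131072_196608
  (.sD (-163840) (.sF 229376 (.sD (-180224) (.sF 212992 (.cell d_m196608_m180224_196608_212992 (by decide +kernel) f_m196608_m180224_196608_212992)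
  (.cell d_m196608_m180224_212992_229376 (by decide +kernel) f_m196608_m180224_212992_229376))
  (.sF 212992 (.sD (-172032) (.cell d_m180224_m172032_196608_212992 (by decide +kernel) f_m180224_m172032_196608_212992)
  (.cell d_m172032_m163840_196608_212992 (by decide +kernel) f_m172032_m163840_196608_212992))
  (.cell d_m180224_m163840_212992_229376 (by decide +kernel) f_m180224_m163840_212992_229376)))
  (.sD (-180224) (.sF 245760 (.cell d_m196608_m180224_229376_245760 (by decide +kernel) f_m196608_m180224_229376_245760)
  (.cell d_m196608_m180224_245760_262144 (by decide +kernel) f_m196608_m180224_245760_262144))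
  (.sF 245760 (.cell d_m180224_m163840_229376_245760 (by decide +kernel) f_m180224_m163840_229376_245760)
  (.cell d_m180224_m163840_245760_262144 (by decide +kernel) f_m180224_m163840_245760_262144))))
  (.sF 229376 (.sD (-147456) (.sF 212992 (.sD (-155648) (.cell d_m163840_m155648_196608_212992 (by decide +kernel) f_m163840_m155648_196608_212992)
  (.cell d_m155648_m147456_196608_212992 (by decide +kernel) f_m155648_m147456_196608_212992))
  (.cell d_m163840_m147456_212992_229376 (by decide +kernel) f_m163840_m147456_212992_229376))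
  (.sF 212992 (.cell d_m147456_m131072_196608_212992 (by decide +kernel) f_m147456_m131072_196608_212992)
  (.cell d_m147456_m131072_212992_229376 (by decide +kernel) f_m147456_m131072_212992_229376)))
  (.sF 245760 (.sD (-147456) (.cell d_m163840_m147456_229376_245760 (by decide +kernel) f_m163840_m147456_229376_245760)
  (.cell d_m147456_m131072_229376_245760 (by decide +kernel) f_m147456_m131072_229376_245760))
  (.cell d_m163840_m131072_245760_262144 (by decide +kernel) f_m163840_m131072_245760_262144)))))

theorem TreeA_m106496_m98304_131072_147456 : Cov exA (-106496) (-98304) 131072 147456 :=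
  (.sF 139264 (.sF 135168 (.exc (by decide))
  (.sF 137216 (.cell d_m106496_m98304_135168_137216 (by decide +kernel) f_m106496_m98304_135168_137216)
  (.sD (-102400) (.sD (-104448) (.cell d_m106496_m104448_137216_139264 (by decide +kernel) f_m106496_m104448_137216_139264)
  (.cell d_m104448_m102400_137216_139264 (by decide +kernel) f_m104448_m102400_137216_139264))
  (.cell d_m102400_m98304_137216_139264 (by decide +kernel) f_m102400_m98304_137216_139264))))
  (.sD (-102400) (.sF 143360 (.sF 141312 (.sF 140288 (.cell d_m106496_m102400_139264_140288 (by decide +kernel) f_m106496_m102400_139264_140288)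
  (.cell d_m106496_m102400_140288_141312 (by decide +kernel) f_m106496_m102400_140288_141312))
  (.sF 142336 (.cell d_m106496_m102400_141312_142336 (by decide +kernel) f_m106496_m102400_141312_142336)
  (.cell d_m106496_m102400_142336_143360 (by decide +kernel) f_m106496_m102400_142336_143360)))
  (.sF 145408 (.sF 144384 (.cell d_m106496_m102400_143360_144384 (by decide +kernel) f_m106496_m102400_143360_144384)
  (.cell d_m106496_m102400_144384_145408 (by decide +kernel) f_m106496_m102400_144384_145408))
  (.sF 146432 (.cell d_m106496_m102400_145408_146432 (by decide +kernel) f_m106496_m102400_145408_146432)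
  (.cell d_m106496_m102400_146432_147456 (by decide +kernel) f_m106496_m102400_146432_147456))))
  (.sF 143360 (.sF 141312 (.sF 140288 (.cell d_m102400_m98304_139264_140288 (by decide +kernel) f_m102400_m98304_139264_140288)
  (.sD (-100352) (.cell d_m102400_m100352_140288_141312 (by decide +kernel) f_m102400_m100352_140288_141312)
  (.cell d_m100352_m98304_140288_141312 (by decide +kernel) f_m100352_m98304_140288_141312)))
  (.sF 142336 (.cell d_m102400_m98304_141312_142336 (by decide +kernel) f_m102400_m98304_141312_142336)
  (.sD (-100352) (.cell d_m102400_m100352_142336_143360 (by decide +kernel) f_m102400_m100352_142336_143360)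
  (.cell d_m100352_m98304_142336_143360 (by decide +kernel) f_m100352_m98304_142336_143360))))
  (.sF 145408 (.sD (-100352) (.sF 144384 (.cell d_m102400_m100352_143360_144384 (by decide +kernel) f_m102400_m100352_143360_144384)
  (.cell d_m102400_m100352_144384_145408 (by decide +kernel) f_m102400_m100352_144384_145408))
  (.sF 144384 (.cell d_m100352_m98304_143360_144384 (by decide +kernel) f_m100352_m98304_143360_144384)
  (.cell d_m100352_m98304_144384_145408 (by decide +kernel) f_m100352_m98304_144384_145408)))
  (.sF 146432 (.cell d_m102400_m98304_145408_146432 (by decide +kernel) f_m102400_m98304_145408_146432)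
  (.sD (-100352) (.cell d_m102400_m100352_146432_147456 (by decide +kernel) f_m102400_m100352_146432_147456)
  (.cell d_m100352_m98304_146432_147456 (by decide +kernel) f_m100352_m98304_146432_147456)))))))

theorem TreeA_m114688_m98304_131072_147456 : Cov exA (-114688) (-98304) 131072 147456 :=
  (.sD (-106496) (.sF 139264 (.sD (-110592) (.sF 135168 (.exc (by decide))
  (.sF 137216 (.sD (-112640) (.cell d_m114688_m112640_135168_137216 (by decide +kernel) f_m114688_m112640_135168_137216)
  (.cell d_m112640_m110592_135168_137216 (by decide +kernel) f_m112640_m110592_135168_137216))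
  (.cell d_m114688_m110592_137216_139264 (by decide +kernel) f_m114688_m110592_137216_139264)))
  (.sF 135168 (.exc (by decide))
  (.sF 137216 (.cell d_m110592_m106496_135168_137216 (by decide +kernel) f_m110592_m106496_135168_137216)
  (.sD (-108544) (.cell d_m110592_m108544_137216_139264 (by decide +kernel) f_m110592_m108544_137216_139264)
  (.cell d_m108544_m106496_137216_139264 (by decide +kernel) f_m108544_m106496_137216_139264)))))
  (.sF 143360 (.sD (-110592) (.sF 141312 (.sF 140288 (.cell d_m114688_m110592_139264_140288 (by decide +kernel) f_m114688_m110592_139264_140288)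
  (.cell d_m114688_m110592_140288_141312 (by decide +kernel) f_m114688_m110592_140288_141312))
  (.cell d_m114688_m110592_141312_143360 (by decide +kernel) f_m114688_m110592_141312_143360))
  (.sF 141312 (.sF 140288 (.cell d_m110592_m106496_139264_140288 (by decide +kernel) f_m110592_m106496_139264_140288)
  (.cell d_m110592_m106496_140288_141312 (by decide +kernel) f_m110592_m106496_140288_141312))
  (.cell d_m110592_m106496_141312_143360 (by decide +kernel) f_m110592_m106496_141312_143360)))
  (.sF 145408 (.cell d_m114688_m106496_143360_145408 (by decide +kernel) f_m114688_m106496_143360_145408)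
  (.cell d_m114688_m106496_145408_147456 (by decide +kernel) f_m114688_m106496_145408_147456))))
  TreeA_m106496_m98304_131072_147456)

theorem TreeA_m114688_m98304_131072_163840 : Cov exA (-114688) (-98304) 131072 163840 :=
  (.sF 147456 TreeA_m114688_m98304_131072_147456
  (.sD (-106496) (.sF 155648 (.sF 151552 (.cell d_m114688_m106496_147456_151552 (by decide +kernel) f_m114688_m106496_147456_151552)
  (.cell d_m114688_m106496_151552_155648 (by decide +kernel) f_m114688_m106496_151552_155648))
  (.cell d_m114688_m106496_155648_163840 (by decide +kernel) f_m114688_m106496_155648_163840))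
  (.sF 155648 (.sD (-102400) (.sF 151552 (.sF 149504 (.cell d_m106496_m102400_147456_149504 (by decide +kernel) f_m106496_m102400_147456_149504)
  (.cell d_m106496_m102400_149504_151552 (by decide +kernel) f_m106496_m102400_149504_151552))
  (.cell d_m106496_m102400_151552_155648 (by decide +kernel) f_m106496_m102400_151552_155648))
  (.sF 151552 (.sF 149504 (.sD (-100352) (.sF 148480 (.cell d_m102400_m100352_147456_148480 (by decide +kernel) f_m102400_m100352_147456_148480)
  (.cell d_m102400_m100352_148480_149504 (by decide +kernel) f_m102400_m100352_148480_149504))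
  (.sF 148480 (.cell d_m100352_m98304_147456_148480 (by decide +kernel) f_m100352_m98304_147456_148480)
  (.cell d_m100352_m98304_148480_149504 (by decide +kernel) f_m100352_m98304_148480_149504)))
  (.sF 150528 (.sD (-100352) (.cell d_m102400_m100352_149504_150528 (by decide +kernel) f_m102400_m100352_149504_150528)
  (.cell d_m100352_m98304_149504_150528 (by decide +kernel) f_m100352_m98304_149504_150528))
  (.cell d_m102400_m98304_150528_151552 (by decide +kernel) f_m102400_m98304_150528_151552)))
  (.sF 153600 (.sD (-100352) (.cell d_m102400_m100352_151552_153600 (by decide +kernel) f_m102400_m100352_151552_153600)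
  (.cell d_m100352_m98304_151552_153600 (by decide +kernel) f_m100352_m98304_151552_153600))
  (.sF 154624 (.cell d_m102400_m98304_153600_154624 (by decide +kernel) f_m102400_m98304_153600_154624)
  (.cell d_m102400_m98304_154624_155648 (by decide +kernel) f_m102400_m98304_154624_155648)))))
  (.sD (-102400) (.cell d_m106496_m102400_155648_163840 (by decide +kernel) f_m106496_m102400_155648_163840)
  (.sF 159744 (.sF 157696 (.cell d_m102400_m98304_155648_157696 (by decide +kernel) f_m102400_m98304_155648_157696)
  (.cell d_m102400_m98304_157696_159744 (by decide +kernel) f_m102400_m98304_157696_159744))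
  (.sF 161792 (.sD (-100352) (.cell d_m102400_m100352_159744_161792 (by decide +kernel) f_m102400_m100352_159744_161792)
  (.cell d_m100352_m98304_159744_161792 (by decide +kernel) f_m100352_m98304_159744_161792))
  (.cell d_m102400_m98304_161792_163840 (by decide +kernel) f_m102400_m98304_161792_163840)))))))

theorem TreeA_m131072_m98304_131072_163840 : Cov exA (-131072) (-98304) 131072 163840 :=
  (.sD (-114688) (.sF 147456 (.sF 139264 (.sD (-122880) (.sD (-126976) (.sF 135168 (.exc (by decide))
  (.cell d_m131072_m126976_135168_139264 (by decide +kernel) f_m131072_m126976_135168_139264))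
  (.sF 135168 (.exc (by decide))
  (.cell d_m126976_m122880_135168_139264 (by decide +kernel) f_m126976_m122880_135168_139264)))
  (.sD (-118784) (.sF 135168 (.exc (by decide))
  (.sD (-120832) (.cell d_m122880_m120832_135168_139264 (by decide +kernel) f_m122880_m120832_135168_139264)
  (.sF 137216 (.cell d_m120832_m118784_135168_137216 (by decide +kernel) f_m120832_m118784_135168_137216)
  (.cell d_m120832_m118784_137216_139264 (by decide +kernel) f_m120832_m118784_137216_139264))))
  (.sF 135168 (.exc (by decide))
  (.sD (-116736) (.sD (-117760) (.cell d_m118784_m117760_135168_139264 (by decide +kernel) f_m118784_m117760_135168_139264)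
  (.cell d_m117760_m116736_135168_139264 (by decide +kernel) f_m117760_m116736_135168_139264))
  (.cell d_m116736_m114688_135168_139264 (by decide +kernel) f_m116736_m114688_135168_139264)))))
  (.sF 143360 (.cell d_m131072_m114688_139264_143360 (by decide +kernel) f_m131072_m114688_139264_143360)
  (.cell d_m131072_m114688_143360_147456 (by decide +kernel) f_m131072_m114688_143360_147456)))
  (.sF 155648 (.sD (-122880) (.sD (-126976) (.cell d_m131072_m126976_147456_155648 (by decide +kernel) f_m131072_m126976_147456_155648)
  (.cell d_m126976_m122880_147456_155648 (by decide +kernel) f_m126976_m122880_147456_155648))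
  (.cell d_m122880_m114688_147456_155648 (by decide +kernel) f_m122880_m114688_147456_155648))
  (.cell d_m131072_m114688_155648_163840 (by decide +kernel) f_m131072_m114688_155648_163840)))
  TreeA_m114688_m98304_131072_163840)

theorem TreeA_m131072_m98304_131072_196608 : Cov exA (-131072) (-98304) 131072 196608 :=
  (.sF 163840 TreeA_m131072_m98304_131072_163840
  (.sD (-114688) (.sF 180224 (.cell d_m131072_m114688_163840_180224 (by decide +kernel) f_m131072_m114688_163840_180224)
  (.cell d_m131072_m114688_180224_196608 (by decide +kernel) f_m131072_m114688_180224_196608))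
  (.sF 180224 (.sD (-106496) (.sF 172032 (.cell d_m114688_m106496_163840_172032 (by decide +kernel) f_m114688_m106496_163840_172032)
  (.cell d_m114688_m106496_172032_180224 (by decide +kernel) f_m114688_m106496_172032_180224))
  (.sD (-102400) (.cell d_m106496_m102400_163840_180224 (by decide +kernel) f_m106496_m102400_163840_180224)
  (.sF 172032 (.sD (-100352) (.cell d_m102400_m100352_163840_172032 (by decide +kernel) f_m102400_m100352_163840_172032)
  (.sD (-99328) (.cell d_m100352_m99328_163840_172032 (by decide +kernel) f_m100352_m99328_163840_172032)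
  (.sF 167936 (.sD (-98816) (.cell d_m99328_m98816_163840_167936 (by decide +kernel) f_m99328_m98816_163840_167936)
  (.sF 165888 (.cell d_m98816_m98304_163840_165888 (by decide +kernel) f_m98816_m98304_163840_165888)
  (.cell d_m98816_m98304_165888_167936 (by decide +kernel) f_m98816_m98304_165888_167936)))
  (.cell d_m99328_m98304_167936_172032 (by decide +kernel) f_m99328_m98304_167936_172032))))
  (.cell d_m102400_m98304_172032_180224 (by decide +kernel) f_m102400_m98304_172032_180224))))
  (.sD (-106496) (.cell d_m114688_m106496_180224_196608 (by decide +kernel) f_m114688_m106496_180224_196608)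
  (.cell d_m106496_m98304_180224_196608 (by decide +kernel) f_m106496_m98304_180224_196608)))))

theorem TreeA_m98304_m81920_131072_147456 : Cov exA (-98304) (-81920) 131072 147456 :=
  (.sF 139264 (.sF 135168 (.exc (by decide))
  (.sF 137216 (.cell d_m98304_m81920_135168_137216 (by decide +kernel) f_m98304_m81920_135168_137216)
  (.sD (-90112) (.sD (-94208) (.sF 138240 (.cell d_m98304_m94208_137216_138240 (by decide +kernel) f_m98304_m94208_137216_138240)
  (.cell d_m98304_m94208_138240_139264 (by decide +kernel) f_m98304_m94208_138240_139264))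
  (.cell d_m94208_m90112_137216_139264 (by decide +kernel) f_m94208_m90112_137216_139264))
  (.cell d_m90112_m81920_137216_139264 (by decide +kernel) f_m90112_m81920_137216_139264))))
  (.sD (-90112) (.sD (-94208) (.sF 143360 (.sF 141312 (.sF 140288 (.cell d_m98304_m94208_139264_140288 (by decide +kernel) f_m98304_m94208_139264_140288)
  (.cell d_m98304_m94208_140288_141312 (by decide +kernel) f_m98304_m94208_140288_141312))
  (.sF 142336 (.cell d_m98304_m94208_141312_142336 (by decide +kernel) f_m98304_m94208_141312_142336)
  (.cell d_m98304_m94208_142336_143360 (by decide +kernel) f_m98304_m94208_142336_143360)))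
  (.sF 145408 (.sF 144384 (.cell d_m98304_m94208_143360_144384 (by decide +kernel) f_m98304_m94208_143360_144384)
  (.sD (-96256) (.cell d_m98304_m96256_144384_145408 (by decide +kernel) f_m98304_m96256_144384_145408)
  (.cell d_m96256_m94208_144384_145408 (by decide +kernel) f_m96256_m94208_144384_145408)))
  (.sD (-96256) (.sF 146432 (.cell d_m98304_m96256_145408_146432 (by decide +kernel) f_m98304_m96256_145408_146432)
  (.cell d_m98304_m96256_146432_147456 (by decide +kernel) f_m98304_m96256_146432_147456))
  (.sF 146432 (.cell d_m96256_m94208_145408_146432 (by decide +kernel) f_m96256_m94208_145408_146432)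
  (.cell d_m96256_m94208_146432_147456 (by decide +kernel) f_m96256_m94208_146432_147456)))))
  (.sF 143360 (.sF 141312 (.cell d_m94208_m90112_139264_141312 (by decide +kernel) f_m94208_m90112_139264_141312)
  (.cell d_m94208_m90112_141312_143360 (by decide +kernel) f_m94208_m90112_141312_143360))
  (.sF 145408 (.cell d_m94208_m90112_143360_145408 (by decide +kernel) f_m94208_m90112_143360_145408)
  (.cell d_m94208_m90112_145408_147456 (by decide +kernel) f_m94208_m90112_145408_147456))))
  (.sF 143360 (.sF 141312 (.cell d_m90112_m81920_139264_141312 (by decide +kernel) f_m90112_m81920_139264_141312)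
  (.cell d_m90112_m81920_141312_143360 (by decide +kernel) f_m90112_m81920_141312_143360))
  (.sF 145408 (.cell d_m90112_m81920_143360_145408 (by decide +kernel) f_m90112_m81920_143360_145408)
  (.cell d_m90112_m81920_145408_147456 (by decide +kernel) f_m90112_m81920_145408_147456)))))

theorem TreeA_m98304_m81920_131072_163840 : Cov exA (-98304) (-81920) 131072 163840 :=
  (.sF 147456 TreeA_m98304_m81920_131072_147456
  (.sD (-90112) (.sF 155648 (.sF 151552 (.sD (-94208) (.sF 149504 (.sD (-96256) (.sF 148480 (.cell d_m98304_m96256_147456_148480 (by decide +kernel) f_m98304_m96256_147456_148480)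
  (.cell d_m98304_m96256_148480_149504 (by decide +kernel) f_m98304_m96256_148480_149504))
  (.sF 148480 (.cell d_m96256_m94208_147456_148480 (by decide +kernel) f_m96256_m94208_147456_148480)
  (.cell d_m96256_m94208_148480_149504 (by decide +kernel) f_m96256_m94208_148480_149504)))
  (.sF 150528 (.cell d_m98304_m94208_149504_150528 (by decide +kernel) f_m98304_m94208_149504_150528)
  (.cell d_m98304_m94208_150528_151552 (by decide +kernel) f_m98304_m94208_150528_151552)))
  (.sF 149504 (.cell d_m94208_m90112_147456_149504 (by decide +kernel) f_m94208_m90112_147456_149504)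
  (.cell d_m94208_m90112_149504_151552 (by decide +kernel) f_m94208_m90112_149504_151552)))
  (.sF 153600 (.cell d_m98304_m90112_151552_153600 (by decide +kernel) f_m98304_m90112_151552_153600)
  (.cell d_m98304_m90112_153600_155648 (by decide +kernel) f_m98304_m90112_153600_155648)))
  (.sD (-94208) (.sF 159744 (.cell d_m98304_m94208_155648_159744 (by decide +kernel) f_m98304_m94208_155648_159744)
  (.sF 161792 (.cell d_m98304_m94208_159744_161792 (by decide +kernel) f_m98304_m94208_159744_161792)
  (.sF 162816 (.cell d_m98304_m94208_161792_162816 (by decide +kernel) f_m98304_m94208_161792_162816)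
  (.cell d_m98304_m94208_162816_163840 (by decide +kernel) f_m98304_m94208_162816_163840))))
  (.cell d_m94208_m90112_155648_163840 (by decide +kernel) f_m94208_m90112_155648_163840)))
  (.sF 155648 (.cell d_m90112_m81920_147456_155648 (by decide +kernel) f_m90112_m81920_147456_155648)
  (.sF 159744 (.cell d_m90112_m81920_155648_159744 (by decide +kernel) f_m90112_m81920_155648_159744)
  (.cell d_m90112_m81920_159744_163840 (by decide +kernel) f_m90112_m81920_159744_163840)))))

theorem TreeA_m98304_m65536_131072_163840 : Cov exA (-98304) (-65536) 131072 163840 :=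
  (.sD (-81920) TreeA_m98304_m81920_131072_163840
  (.sF 147456 (.sF 139264 (.sF 135168 (.exc (by decide))
  (.cell d_m81920_m65536_135168_139264 (by decide +kernel) f_m81920_m65536_135168_139264))
  (.sF 143360 (.cell d_m81920_m65536_139264_143360 (by decide +kernel) f_m81920_m65536_139264_143360)
  (.sD (-73728) (.sF 145408 (.cell d_m81920_m73728_143360_145408 (by decide +kernel) f_m81920_m73728_143360_145408)
  (.sD (-77824) (.cell d_m81920_m77824_145408_147456 (by decide +kernel) f_m81920_m77824_145408_147456)
  (.cell d_m77824_m73728_145408_147456 (by decide +kernel) f_m77824_m73728_145408_147456)))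
  (.cell d_m73728_m65536_143360_147456 (by decide +kernel) f_m73728_m65536_143360_147456))))
  (.sD (-73728) (.sF 155648 (.cell d_m81920_m73728_147456_155648 (by decide +kernel) f_m81920_m73728_147456_155648)
  (.sF 159744 (.cell d_m81920_m73728_155648_159744 (by decide +kernel) f_m81920_m73728_155648_159744)
  (.cell d_m81920_m73728_159744_163840 (by decide +kernel) f_m81920_m73728_159744_163840)))
  (.sF 155648 (.cell d_m73728_m65536_147456_155648 (by decide +kernel) f_m73728_m65536_147456_155648)
  (.sF 159744 (.cell d_m73728_m65536_155648_159744 (by decide +kernel) f_m73728_m65536_155648_159744)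
  (.sD (-69632) (.cell d_m73728_m69632_159744_163840 (by decide +kernel) f_m73728_m69632_159744_163840)
  (.cell d_m69632_m65536_159744_163840 (by decide +kernel) f_m69632_m65536_159744_163840)))))))

theorem TreeA_m98304_m65536_163840_196608 : Cov exA (-98304) (-65536) 163840 196608 :=
  (.sD (-81920) (.sF 180224 (.sD (-90112) (.sF 172032 (.sF 167936 (.sF 165888 (.sD (-94208) (.sF 164864 (.cell d_m98304_m94208_163840_164864 (by decide +kernel) f_m98304_m94208_163840_164864)
  (.cell d_m98304_m94208_164864_165888 (by decide +kernel) f_m98304_m94208_164864_165888))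
  (.sF 164864 (.cell d_m94208_m90112_163840_164864 (by decide +kernel) f_m94208_m90112_163840_164864)
  (.cell d_m94208_m90112_164864_165888 (by decide +kernel) f_m94208_m90112_164864_165888)))
  (.cell d_m98304_m90112_165888_167936 (by decide +kernel) f_m98304_m90112_165888_167936))
  (.cell d_m98304_m90112_167936_172032 (by decide +kernel) f_m98304_m90112_167936_172032))
  (.cell d_m98304_m90112_172032_180224 (by decide +kernel) f_m98304_m90112_172032_180224))
  (.sF 172032 (.sF 167936 (.cell d_m90112_m81920_163840_167936 (by decide +kernel) f_m90112_m81920_163840_167936)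
  (.cell d_m90112_m81920_167936_172032 (by decide +kernel) f_m90112_m81920_167936_172032))
  (.sD (-86016) (.sF 176128 (.sF 174080 (.sF 173056 (.cell d_m90112_m86016_172032_173056 (by decide +kernel) f_m90112_m86016_172032_173056)
  (.cell d_m90112_m86016_173056_174080 (by decide +kernel) f_m90112_m86016_173056_174080))
  (.cell d_m90112_m86016_174080_176128 (by decide +kernel) f_m90112_m86016_174080_176128))
  (.sF 178176 (.cell d_m90112_m86016_176128_178176 (by decide +kernel) f_m90112_m86016_176128_178176)
  (.cell d_m90112_m86016_178176_180224 (by decide +kernel) f_m90112_m86016_178176_180224)))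
  (.sF 176128 (.sF 174080 (.cell d_m86016_m81920_172032_174080 (by decide +kernel) f_m86016_m81920_172032_174080)
  (.cell d_m86016_m81920_174080_176128 (by decide +kernel) f_m86016_m81920_174080_176128))
  (.sF 178176 (.cell d_m86016_m81920_176128_178176 (by decide +kernel) f_m86016_m81920_176128_178176)
  (.cell d_m86016_m81920_178176_180224 (by decide +kernel) f_m86016_m81920_178176_180224))))))
  (.sD (-90112) (.sF 188416 (.cell d_m98304_m90112_180224_188416 (by decide +kernel) f_m98304_m90112_180224_188416)
  (.cell d_m98304_m90112_188416_196608 (by decide +kernel) f_m98304_m90112_188416_196608))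
  (.sF 188416 (.cell d_m90112_m81920_180224_188416 (by decide +kernel) f_m90112_m81920_180224_188416)
  (.cell d_m90112_m81920_188416_196608 (by decide +kernel) f_m90112_m81920_188416_196608))))
  (.sF 180224 (.sD (-73728) (.sF 172032 (.sF 167936 (.cell d_m81920_m73728_163840_167936 (by decide +kernel) f_m81920_m73728_163840_167936)
  (.cell d_m81920_m73728_167936_172032 (by decide +kernel) f_m81920_m73728_167936_172032))
  (.sD (-77824) (.sF 176128 (.sF 174080 (.cell d_m81920_m77824_172032_174080 (by decide +kernel) f_m81920_m77824_172032_174080)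
  (.cell d_m81920_m77824_174080_176128 (by decide +kernel) f_m81920_m77824_174080_176128))
  (.cell d_m81920_m77824_176128_180224 (by decide +kernel) f_m81920_m77824_176128_180224))
  (.sF 176128 (.sF 174080 (.cell d_m77824_m73728_172032_174080 (by decide +kernel) f_m77824_m73728_172032_174080)
  (.cell d_m77824_m73728_174080_176128 (by decide +kernel) f_m77824_m73728_174080_176128))
  (.cell d_m77824_m73728_176128_180224 (by decide +kernel) f_m77824_m73728_176128_180224))))
  (.sF 172032 (.sD (-69632) (.sF 167936 (.cell d_m73728_m69632_163840_167936 (by decide +kernel) f_m73728_m69632_163840_167936)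
  (.sF 169984 (.cell d_m73728_m69632_167936_169984 (by decide +kernel) f_m73728_m69632_167936_169984)
  (.cell d_m73728_m69632_169984_172032 (by decide +kernel) f_m73728_m69632_169984_172032)))
  (.sF 167936 (.sF 165888 (.cell d_m69632_m65536_163840_165888 (by decide +kernel) f_m69632_m65536_163840_165888)
  (.cell d_m69632_m65536_165888_167936 (by decide +kernel) f_m69632_m65536_165888_167936))
  (.sF 169984 (.cell d_m69632_m65536_167936_169984 (by decide +kernel) f_m69632_m65536_167936_169984)
  (.cell d_m69632_m65536_169984_172032 (by decide +kernel) f_m69632_m65536_169984_172032))))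
  (.sF 176128 (.sD (-69632) (.cell d_m73728_m69632_172032_176128 (by decide +kernel) f_m73728_m69632_172032_176128)
  (.cell d_m69632_m65536_172032_176128 (by decide +kernel) f_m69632_m65536_172032_176128))
  (.cell d_m73728_m65536_176128_180224 (by decide +kernel) f_m73728_m65536_176128_180224))))
  (.sD (-73728) (.cell d_m81920_m73728_180224_196608 (by decide +kernel) f_m81920_m73728_180224_196608)
  (.cell d_m73728_m65536_180224_196608 (by decide +kernel) f_m73728_m65536_180224_196608))))

theorem TreeA_m98304_m65536_131072_196608 : Cov exA (-98304) (-65536) 131072 196608 :=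
  (.sF 163840 TreeA_m98304_m65536_131072_163840
  TreeA_m98304_m65536_163840_196608)

theorem TreeA_m131072_m65536_131072_196608 : Cov exA (-131072) (-65536) 131072 196608 :=
  (.sD (-98304) TreeA_m131072_m98304_131072_196608
  TreeA_m98304_m65536_131072_196608)

theorem TreeA_m131072_m65536_131072_262144 : Cov exA (-131072) (-65536) 131072 262144 :=
  (.sF 196608 TreeA_m131072_m65536_131072_196608
  (.sD (-98304) (.sF 229376 (.sD (-114688) (.sF 212992 (.cell d_m131072_m114688_196608_212992 (by decide +kernel) f_m131072_m114688_196608_212992)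
  (.cell d_m131072_m114688_212992_229376 (by decide +kernel) f_m131072_m114688_212992_229376))
  (.sF 212992 (.cell d_m114688_m98304_196608_212992 (by decide +kernel) f_m114688_m98304_196608_212992)
  (.cell d_m114688_m98304_212992_229376 (by decide +kernel) f_m114688_m98304_212992_229376)))
  (.sD (-114688) (.sF 245760 (.cell d_m131072_m114688_229376_245760 (by decide +kernel) f_m131072_m114688_229376_245760)
  (.cell d_m131072_m114688_245760_262144 (by decide +kernel) f_m131072_m114688_245760_262144))
  (.sF 245760 (.cell d_m114688_m98304_229376_245760 (by decide +kernel) f_m114688_m98304_229376_245760)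
  (.cell d_m114688_m98304_245760_262144 (by decide +kernel) f_m114688_m98304_245760_262144))))
  (.sF 229376 (.sD (-81920) (.sF 212992 (.sD (-90112) (.cell d_m98304_m90112_196608_212992 (by decide +kernel) f_m98304_m90112_196608_212992)
  (.cell d_m90112_m81920_196608_212992 (by decide +kernel) f_m90112_m81920_196608_212992))
  (.cell d_m98304_m81920_212992_229376 (by decide +kernel) f_m98304_m81920_212992_229376))
  (.sF 212992 (.cell d_m81920_m65536_196608_212992 (by decide +kernel) f_m81920_m65536_196608_212992)
  (.cell d_m81920_m65536_212992_229376 (by decide +kernel) f_m81920_m65536_212992_229376)))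
  (.cell d_m98304_m65536_229376_262144 (by decide +kernel) f_m98304_m65536_229376_262144))))

theorem TreeA_m196608_m65536_131072_262144 : Cov exA (-196608) (-65536) 131072 262144 :=
  (.sD (-131072) TreeA_m196608_m131072_131072_262144
  TreeA_m131072_m65536_131072_262144)

theorem TreeA_m65536_m49152_147456_163840 : Cov exA (-65536) (-49152) 147456 163840 :=
  (.sD (-57344) (.sF 155648 (.sF 151552 (.cell d_m65536_m57344_147456_151552 (by decide +kernel) f_m65536_m57344_147456_151552)
  (.sF 153600 (.cell d_m65536_m57344_151552_153600 (by decide +kernel) f_m65536_m57344_151552_153600)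
  (.sD (-61440) (.cell d_m65536_m61440_153600_155648 (by decide +kernel) f_m65536_m61440_153600_155648)
  (.cell d_m61440_m57344_153600_155648 (by decide +kernel) f_m61440_m57344_153600_155648))))
  (.sD (-61440) (.sF 159744 (.sF 157696 (.cell d_m65536_m61440_155648_157696 (by decide +kernel) f_m65536_m61440_155648_157696)
  (.cell d_m65536_m61440_157696_159744 (by decide +kernel) f_m65536_m61440_157696_159744))
  (.sF 161792 (.cell d_m65536_m61440_159744_161792 (by decide +kernel) f_m65536_m61440_159744_161792)
  (.cell d_m65536_m61440_161792_163840 (by decide +kernel) f_m65536_m61440_161792_163840)))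
  (.sF 159744 (.sF 157696 (.cell d_m61440_m57344_155648_157696 (by decide +kernel) f_m61440_m57344_155648_157696)
  (.cell d_m61440_m57344_157696_159744 (by decide +kernel) f_m61440_m57344_157696_159744))
  (.sF 161792 (.cell d_m61440_m57344_159744_161792 (by decide +kernel) f_m61440_m57344_159744_161792)
  (.cell d_m61440_m57344_161792_163840 (by decide +kernel) f_m61440_m57344_161792_163840)))))
  (.sF 155648 (.sD (-53248) (.sF 151552 (.sF 149504 (.cell d_m57344_m53248_147456_149504 (by decide +kernel) f_m57344_m53248_147456_149504)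
  (.cell d_m57344_m53248_149504_151552 (by decide +kernel) f_m57344_m53248_149504_151552))
  (.sF 153600 (.cell d_m57344_m53248_151552_153600 (by decide +kernel) f_m57344_m53248_151552_153600)
  (.cell d_m57344_m53248_153600_155648 (by decide +kernel) f_m57344_m53248_153600_155648)))
  (.sF 151552 (.sF 149504 (.cell d_m53248_m49152_147456_149504 (by decide +kernel) f_m53248_m49152_147456_149504)
  (.cell d_m53248_m49152_149504_151552 (by decide +kernel) f_m53248_m49152_149504_151552))
  (.sF 153600 (.cell d_m53248_m49152_151552_153600 (by decide +kernel) f_m53248_m49152_151552_153600)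
  (.cell d_m53248_m49152_153600_155648 (by decide +kernel) f_m53248_m49152_153600_155648))))
  (.sF 159744 (.sD (-53248) (.sF 157696 (.cell d_m57344_m53248_155648_157696 (by decide +kernel) f_m57344_m53248_155648_157696)
  (.cell d_m57344_m53248_157696_159744 (by decide +kernel) f_m57344_m53248_157696_159744))
  (.sF 157696 (.cell d_m53248_m49152_155648_157696 (by decide +kernel) f_m53248_m49152_155648_157696)
  (.cell d_m53248_m49152_157696_159744 (by decide +kernel) f_m53248_m49152_157696_159744)))
  (.sF 161792 (.sD (-53248) (.cell d_m57344_m53248_159744_161792 (by decide +kernel) f_m57344_m53248_159744_161792)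
  (.cell d_m53248_m49152_159744_161792 (by decide +kernel) f_m53248_m49152_159744_161792))
  (.cell d_m57344_m49152_161792_163840 (by decide +kernel) f_m57344_m49152_161792_163840)))))

theorem TreeA_m65536_m49152_131072_163840 : Cov exA (-65536) (-49152) 131072 163840 :=
  (.sF 147456 (.sF 139264 (.sF 135168 (.exc (by decide))
  (.cell d_m65536_m49152_135168_139264 (by decide +kernel) f_m65536_m49152_135168_139264))
  (.sF 143360 (.cell d_m65536_m49152_139264_143360 (by decide +kernel) f_m65536_m49152_139264_143360)
  (.cell d_m65536_m49152_143360_147456 (by decide +kernel) f_m65536_m49152_143360_147456)))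
  TreeA_m65536_m49152_147456_163840)

theorem TreeA_m49152_m32768_131072_147456 : Cov exA (-49152) (-32768) 131072 147456 :=
  (.sD (-40960) (.sF 139264 (.sD (-45056) (.sF 135168 (.exc (by decide))
  (.cell d_m49152_m45056_135168_139264 (by decide +kernel) f_m49152_m45056_135168_139264))
  (.sF 135168 (.exc (by decide))
  (.sF 137216 (.cell d_m45056_m40960_135168_137216 (by decide +kernel) f_m45056_m40960_135168_137216)
  (.cell d_m45056_m40960_137216_139264 (by decide +kernel) f_m45056_m40960_137216_139264))))
  (.sD (-45056) (.sF 143360 (.cell d_m49152_m45056_139264_143360 (by decide +kernel) f_m49152_m45056_139264_143360)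
  (.sF 145408 (.cell d_m49152_m45056_143360_145408 (by decide +kernel) f_m49152_m45056_143360_145408)
  (.cell d_m49152_m45056_145408_147456 (by decide +kernel) f_m49152_m45056_145408_147456)))
  (.sF 143360 (.sF 141312 (.cell d_m45056_m40960_139264_141312 (by decide +kernel) f_m45056_m40960_139264_141312)
  (.cell d_m45056_m40960_141312_143360 (by decide +kernel) f_m45056_m40960_141312_143360))
  (.sF 145408 (.cell d_m45056_m40960_143360_145408 (by decide +kernel) f_m45056_m40960_143360_145408)
  (.cell d_m45056_m40960_145408_147456 (by decide +kernel) f_m45056_m40960_145408_147456)))))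
  (.sF 139264 (.sD (-36864) (.sF 135168 (.exc (by decide))
  (.sF 137216 (.sF 136192 (.cell d_m40960_m36864_135168_136192 (by decide +kernel) f_m40960_m36864_135168_136192)
  (.cell d_m40960_m36864_136192_137216 (by decide +kernel) f_m40960_m36864_136192_137216))
  (.cell d_m40960_m36864_137216_139264 (by decide +kernel) f_m40960_m36864_137216_139264)))
  (.sF 135168 (.exc (by decide))
  (.sF 137216 (.sD (-34816) (.cell d_m36864_m34816_135168_137216 (by decide +kernel) f_m36864_m34816_135168_137216)
  (.cell d_m34816_m32768_135168_137216 (by decide +kernel) f_m34816_m32768_135168_137216))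
  (.cell d_m36864_m32768_137216_139264 (by decide +kernel) f_m36864_m32768_137216_139264))))
  (.sF 143360 (.sD (-36864) (.sF 141312 (.cell d_m40960_m36864_139264_141312 (by decide +kernel) f_m40960_m36864_139264_141312)
  (.cell d_m40960_m36864_141312_143360 (by decide +kernel) f_m40960_m36864_141312_143360))
  (.sF 141312 (.cell d_m36864_m32768_139264_141312 (by decide +kernel) f_m36864_m32768_139264_141312)
  (.cell d_m36864_m32768_141312_143360 (by decide +kernel) f_m36864_m32768_141312_143360)))
  (.cell d_m40960_m32768_143360_147456 (by decide +kernel) f_m40960_m32768_143360_147456))))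

theorem TreeA_m49152_m32768_131072_163840 : Cov exA (-49152) (-32768) 131072 163840 :=
  (.sF 147456 TreeA_m49152_m32768_131072_147456
  (.sF 155648 (.sD (-40960) (.sD (-45056) (.sF 151552 (.sF 149504 (.cell d_m49152_m45056_147456_149504 (by decide +kernel) f_m49152_m45056_147456_149504)
  (.cell d_m49152_m45056_149504_151552 (by decide +kernel) f_m49152_m45056_149504_151552))
  (.sF 153600 (.cell d_m49152_m45056_151552_153600 (by decide +kernel) f_m49152_m45056_151552_153600)
  (.cell d_m49152_m45056_153600_155648 (by decide +kernel) f_m49152_m45056_153600_155648)))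
  (.sF 151552 (.sF 149504 (.cell d_m45056_m40960_147456_149504 (by decide +kernel) f_m45056_m40960_147456_149504)
  (.cell d_m45056_m40960_149504_151552 (by decide +kernel) f_m45056_m40960_149504_151552))
  (.cell d_m45056_m40960_151552_155648 (by decide +kernel) f_m45056_m40960_151552_155648)))
  (.cell d_m40960_m32768_147456_155648 (by decide +kernel) f_m40960_m32768_147456_155648))
  (.cell d_m49152_m32768_155648_163840 (by decide +kernel) f_m49152_m32768_155648_163840)))

theorem TreeA_m65536_m32768_131072_163840 : Cov exA (-65536) (-32768) 131072 163840 :=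
  (.sD (-49152) TreeA_m65536_m49152_131072_163840
  TreeA_m49152_m32768_131072_163840)

theorem TreeA_m65536_m32768_131072_196608 : Cov exA (-65536) (-32768) 131072 196608 :=
  (.sF 163840 TreeA_m65536_m32768_131072_163840
  (.sD (-49152) (.sF 180224 (.sD (-57344) (.sF 172032 (.sF 167936 (.sD (-61440) (.sF 165888 (.cell d_m65536_m61440_163840_165888 (by decide +kernel) f_m65536_m61440_163840_165888)
  (.cell d_m65536_m61440_165888_167936 (by decide +kernel) f_m65536_m61440_165888_167936))
  (.sF 165888 (.cell d_m61440_m57344_163840_165888 (by decide +kernel) f_m61440_m57344_163840_165888)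
  (.cell d_m61440_m57344_165888_167936 (by decide +kernel) f_m61440_m57344_165888_167936)))
  (.sF 169984 (.sD (-61440) (.cell d_m65536_m61440_167936_169984 (by decide +kernel) f_m65536_m61440_167936_169984)
  (.cell d_m61440_m57344_167936_169984 (by decide +kernel) f_m61440_m57344_167936_169984))
  (.cell d_m65536_m57344_169984_172032 (by decide +kernel) f_m65536_m57344_169984_172032)))
  (.cell d_m65536_m57344_172032_180224 (by decide +kernel) f_m65536_m57344_172032_180224))
  (.cell d_m57344_m49152_163840_180224 (by decide +kernel) f_m57344_m49152_163840_180224))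
  (.cell d_m65536_m49152_180224_196608 (by decide +kernel) f_m65536_m49152_180224_196608))
  (.sF 180224 (.cell d_m49152_m32768_163840_180224 (by decide +kernel) f_m49152_m32768_163840_180224)
  (.cell d_m49152_m32768_180224_196608 (by decide +kernel) f_m49152_m32768_180224_196608))))

theorem TreeA_m65536_m32768_131072_262144 : Cov exA (-65536) (-32768) 131072 262144 :=
  (.sF 196608 TreeA_m65536_m32768_131072_196608
  (.sF 229376 (.sD (-49152) (.cell d_m65536_m49152_196608_229376 (by decide +kernel) f_m65536_m49152_196608_229376)
  (.cell d_m49152_m32768_196608_229376 (by decide +kernel) f_m49152_m32768_196608_229376))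
  (.sD (-49152) (.cell d_m65536_m49152_229376_262144 (by decide +kernel) f_m65536_m49152_229376_262144)
  (.cell d_m49152_m32768_229376_262144 (by decide +kernel) f_m49152_m32768_229376_262144))))

theorem TreeA_m65536_m57344_65536_73728 : Cov exA (-65536) (-57344) 65536 73728 :=
  (.sD (-61440) (.sF 69632 (.exc (by decide))
  (.sF 71680 (.sF 70656 (.sF 70144 (.cell d_m65536_m61440_69632_70144 (by decide +kernel) f_m65536_m61440_69632_70144)
  (.cell d_m65536_m61440_70144_70656 (by decide +kernel) f_m65536_m61440_70144_70656))
  (.sD (-63488) (.cell d_m65536_m63488_70656_71680 (by decide +kernel) f_m65536_m63488_70656_71680)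
  (.sF 71168 (.sF 70912 (.cell d_m63488_m61440_70656_70912 (by decide +kernel) f_m63488_m61440_70656_70912)
  (.cell d_m63488_m61440_70912_71168 (by decide +kernel) f_m63488_m61440_70912_71168))
  (.sD (-62464) (.cell d_m63488_m62464_71168_71680 (by decide +kernel) f_m63488_m62464_71168_71680)
  (.cell d_m62464_m61440_71168_71680 (by decide +kernel) f_m62464_m61440_71168_71680)))))
  (.sF 72704 (.sD (-63488) (.cell d_m65536_m63488_71680_72704 (by decide +kernel) f_m65536_m63488_71680_72704)
  (.sD (-62464) (.sF 72192 (.sF 71936 (.cell d_m63488_m62464_71680_71936 (by decide +kernel) f_m63488_m62464_71680_71936)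
  (.cell d_m63488_m62464_71936_72192 (by decide +kernel) f_m63488_m62464_71936_72192))
  (.cell d_m63488_m62464_72192_72704 (by decide +kernel) f_m63488_m62464_72192_72704))
  (.sF 72192 (.cell d_m62464_m61440_71680_72192 (by decide +kernel) f_m62464_m61440_71680_72192)
  (.cell d_m62464_m61440_72192_72704 (by decide +kernel) f_m62464_m61440_72192_72704))))
  (.cell d_m65536_m61440_72704_73728 (by decide +kernel) f_m65536_m61440_72704_73728))))
  (.sF 69632 (.exc (by decide))
  (.sD (-59392) (.sF 71680 (.sF 70656 (.cell d_m61440_m59392_69632_70656 (by decide +kernel) f_m61440_m59392_69632_70656)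
  (.cell d_m61440_m59392_70656_71680 (by decide +kernel) f_m61440_m59392_70656_71680))
  (.sF 72704 (.cell d_m61440_m59392_71680_72704 (by decide +kernel) f_m61440_m59392_71680_72704)
  (.sF 73216 (.cell d_m61440_m59392_72704_73216 (by decide +kernel) f_m61440_m59392_72704_73216)
  (.cell d_m61440_m59392_73216_73728 (by decide +kernel) f_m61440_m59392_73216_73728))))
  (.sF 71680 (.sF 70656 (.cell d_m59392_m57344_69632_70656 (by decide +kernel) f_m59392_m57344_69632_70656)
  (.sF 71168 (.cell d_m59392_m57344_70656_71168 (by decide +kernel) f_m59392_m57344_70656_71168)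
  (.cell d_m59392_m57344_71168_71680 (by decide +kernel) f_m59392_m57344_71168_71680)))
  (.sF 72704 (.cell d_m59392_m57344_71680_72704 (by decide +kernel) f_m59392_m57344_71680_72704)
  (.cell d_m59392_m57344_72704_73728 (by decide +kernel) f_m59392_m57344_72704_73728))))))

theorem TreeA_m65536_m57344_65536_81920 : Cov exA (-65536) (-57344) 65536 81920 :=
  (.sF 73728 TreeA_m65536_m57344_65536_73728
  (.sF 77824 (.sD (-61440) (.sD (-63488) (.sF 75776 (.cell d_m65536_m63488_73728_75776 (by decide +kernel) f_m65536_m63488_73728_75776)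
  (.sF 76800 (.sD (-64512) (.cell d_m65536_m64512_75776_76800 (by decide +kernel) f_m65536_m64512_75776_76800)
  (.cell d_m64512_m63488_75776_76800 (by decide +kernel) f_m64512_m63488_75776_76800))
  (.cell d_m65536_m63488_76800_77824 (by decide +kernel) f_m65536_m63488_76800_77824)))
  (.sF 75776 (.sF 74752 (.cell d_m63488_m61440_73728_74752 (by decide +kernel) f_m63488_m61440_73728_74752)
  (.cell d_m63488_m61440_74752_75776 (by decide +kernel) f_m63488_m61440_74752_75776))
  (.cell d_m63488_m61440_75776_77824 (by decide +kernel) f_m63488_m61440_75776_77824)))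
  (.sF 75776 (.sF 74752 (.cell d_m61440_m57344_73728_74752 (by decide +kernel) f_m61440_m57344_73728_74752)
  (.cell d_m61440_m57344_74752_75776 (by decide +kernel) f_m61440_m57344_74752_75776))
  (.sD (-59392) (.cell d_m61440_m59392_75776_77824 (by decide +kernel) f_m61440_m59392_75776_77824)
  (.cell d_m59392_m57344_75776_77824 (by decide +kernel) f_m59392_m57344_75776_77824))))
  (.sF 79872 (.sD (-61440) (.sD (-63488) (.cell d_m65536_m63488_77824_79872 (by decide +kernel) f_m65536_m63488_77824_79872)
  (.cell d_m63488_m61440_77824_79872 (by decide +kernel) f_m63488_m61440_77824_79872))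
  (.cell d_m61440_m57344_77824_79872 (by decide +kernel) f_m61440_m57344_77824_79872))
  (.cell d_m65536_m57344_79872_81920 (by decide +kernel) f_m65536_m57344_79872_81920))))

theorem TreeA_m65536_m49152_65536_81920 : Cov exA (-65536) (-49152) 65536 81920 :=
  (.sD (-57344) TreeA_m65536_m57344_65536_81920
  (.sF 73728 (.sD (-53248) (.sF 69632 (.exc (by decide))
  (.sF 71680 (.sD (-55296) (.sF 70656 (.sF 70144 (.cell d_m57344_m55296_69632_70144 (by decide +kernel) f_m57344_m55296_69632_70144)
  (.cell d_m57344_m55296_70144_70656 (by decide +kernel) f_m57344_m55296_70144_70656))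
  (.sF 71168 (.cell d_m57344_m55296_70656_71168 (by decide +kernel) f_m57344_m55296_70656_71168)
  (.cell d_m57344_m55296_71168_71680 (by decide +kernel) f_m57344_m55296_71168_71680)))
  (.sF 70656 (.cell d_m55296_m53248_69632_70656 (by decide +kernel) f_m55296_m53248_69632_70656)
  (.sF 71168 (.cell d_m55296_m53248_70656_71168 (by decide +kernel) f_m55296_m53248_70656_71168)
  (.cell d_m55296_m53248_71168_71680 (by decide +kernel) f_m55296_m53248_71168_71680))))
  (.sF 72704 (.cell d_m57344_m53248_71680_72704 (by decide +kernel) f_m57344_m53248_71680_72704)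
  (.cell d_m57344_m53248_72704_73728 (by decide +kernel) f_m57344_m53248_72704_73728))))
  (.sF 69632 (.exc (by decide))
  (.sF 71680 (.sF 70656 (.cell d_m53248_m49152_69632_70656 (by decide +kernel) f_m53248_m49152_69632_70656)
  (.cell d_m53248_m49152_70656_71680 (by decide +kernel) f_m53248_m49152_70656_71680))
  (.sF 72704 (.cell d_m53248_m49152_71680_72704 (by decide +kernel) f_m53248_m49152_71680_72704)
  (.cell d_m53248_m49152_72704_73728 (by decide +kernel) f_m53248_m49152_72704_73728)))))
  (.sF 77824 (.sF 75776 (.sD (-53248) (.sF 74752 (.cell d_m57344_m53248_73728_74752 (by decide +kernel) f_m57344_m53248_73728_74752)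
  (.cell d_m57344_m53248_74752_75776 (by decide +kernel) f_m57344_m53248_74752_75776))
  (.cell d_m53248_m49152_73728_75776 (by decide +kernel) f_m53248_m49152_73728_75776))
  (.sF 76800 (.cell d_m57344_m49152_75776_76800 (by decide +kernel) f_m57344_m49152_75776_76800)
  (.cell d_m57344_m49152_76800_77824 (by decide +kernel) f_m57344_m49152_76800_77824)))
  (.sD (-53248) (.sF 79872 (.cell d_m57344_m53248_77824_79872 (by decide +kernel) f_m57344_m53248_77824_79872)
  (.cell d_m57344_m53248_79872_81920 (by decide +kernel) f_m57344_m53248_79872_81920))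
  (.sF 79872 (.cell d_m53248_m49152_77824_79872 (by decide +kernel) f_m53248_m49152_77824_79872)
  (.cell d_m53248_m49152_79872_81920 (by decide +kernel) f_m53248_m49152_79872_81920))))))

theorem TreeA_m65536_m49152_65536_98304 : Cov exA (-65536) (-49152) 65536 98304 :=
  (.sF 81920 TreeA_m65536_m49152_65536_81920
  (.sF 90112 (.sD (-57344) (.sF 86016 (.cell d_m65536_m57344_81920_86016 (by decide +kernel) f_m65536_m57344_81920_86016)
  (.sF 88064 (.exc (by decide))
  (.exc (by decide))))
  (.sF 86016 (.cell d_m57344_m49152_81920_86016 (by decide +kernel) f_m57344_m49152_81920_86016)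
  (.sF 88064 (.sD (-53248) (.sF 87040 (.cell d_m57344_m53248_86016_87040 (by decide +kernel) f_m57344_m53248_86016_87040)
  (.sD (-55296) (.sD (-56320) (.sF 87552 (.cell d_m57344_m56320_87040_87552 (by decide +kernel) f_m57344_m56320_87040_87552)
  (.exc (by decide)))
  (.sF 87552 (.cell d_m56320_m55296_87040_87552 (by decide +kernel) f_m56320_m55296_87040_87552)
  (.exc (by decide))))
  (.cell d_m55296_m53248_87040_88064 (by decide +kernel) f_m55296_m53248_87040_88064)))
  (.sF 87040 (.cell d_m53248_m49152_86016_87040 (by decide +kernel) f_m53248_m49152_86016_87040)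
  (.cell d_m53248_m49152_87040_88064 (by decide +kernel) f_m53248_m49152_87040_88064)))
  (.exc (by decide)))))
  (.exc (by decide))))

theorem TreeA_m49152_m32768_65536_98304 : Cov exA (-49152) (-32768) 65536 98304 :=
  (.sF 81920 (.sD (-40960) (.sF 73728 (.sF 69632 (.exc (by decide))
  (.sF 71680 (.sF 70656 (.cell d_m49152_m40960_69632_70656 (by decide +kernel) f_m49152_m40960_69632_70656)
  (.cell d_m49152_m40960_70656_71680 (by decide +kernel) f_m49152_m40960_70656_71680))
  (.sD (-45056) (.cell d_m49152_m45056_71680_73728 (by decide +kernel) f_m49152_m45056_71680_73728)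
  (.cell d_m45056_m40960_71680_73728 (by decide +kernel) f_m45056_m40960_71680_73728))))
  (.sF 77824 (.sF 75776 (.cell d_m49152_m40960_73728_75776 (by decide +kernel) f_m49152_m40960_73728_75776)
  (.sF 76800 (.cell d_m49152_m40960_75776_76800 (by decide +kernel) f_m49152_m40960_75776_76800)
  (.cell d_m49152_m40960_76800_77824 (by decide +kernel) f_m49152_m40960_76800_77824)))
  (.sF 79872 (.sF 78848 (.cell d_m49152_m40960_77824_78848 (by decide +kernel) f_m49152_m40960_77824_78848)
  (.cell d_m49152_m40960_78848_79872 (by decide +kernel) f_m49152_m40960_78848_79872))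
  (.cell d_m49152_m40960_79872_81920 (by decide +kernel) f_m49152_m40960_79872_81920))))
  (.sF 73728 (.sF 69632 (.exc (by decide))
  (.sF 71680 (.sF 70656 (.cell d_m40960_m32768_69632_70656 (by decide +kernel) f_m40960_m32768_69632_70656)
  (.cell d_m40960_m32768_70656_71680 (by decide +kernel) f_m40960_m32768_70656_71680))
  (.sD (-36864) (.cell d_m40960_m36864_71680_73728 (by decide +kernel) f_m40960_m36864_71680_73728)
  (.cell d_m36864_m32768_71680_73728 (by decide +kernel) f_m36864_m32768_71680_73728))))
  (.sF 77824 (.sF 75776 (.sF 74752 (.cell d_m40960_m32768_73728_74752 (by decide +kernel) f_m40960_m32768_73728_74752)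
  (.cell d_m40960_m32768_74752_75776 (by decide +kernel) f_m40960_m32768_74752_75776))
  (.cell d_m40960_m32768_75776_77824 (by decide +kernel) f_m40960_m32768_75776_77824))
  (.sF 79872 (.sF 78848 (.cell d_m40960_m32768_77824_78848 (by decide +kernel) f_m40960_m32768_77824_78848)
  (.cell d_m40960_m32768_78848_79872 (by decide +kernel) f_m40960_m32768_78848_79872))
  (.cell d_m40960_m32768_79872_81920 (by decide +kernel) f_m40960_m32768_79872_81920)))))
  (.sF 90112 (.sF 86016 (.sD (-40960) (.cell d_m49152_m40960_81920_86016 (by decide +kernel) f_m49152_m40960_81920_86016)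
  (.cell d_m40960_m32768_81920_86016 (by decide +kernel) f_m40960_m32768_81920_86016))
  (.sF 88064 (.sD (-40960) (.cell d_m49152_m40960_86016_88064 (by decide +kernel) f_m49152_m40960_86016_88064)
  (.cell d_m40960_m32768_86016_88064 (by decide +kernel) f_m40960_m32768_86016_88064))
  (.exc (by decide))))
  (.exc (by decide))))

theorem TreeA_m65536_m32768_65536_98304 : Cov exA (-65536) (-32768) 65536 98304 :=
  (.sD (-49152) TreeA_m65536_m49152_65536_98304
  TreeA_m49152_m32768_65536_98304)

theorem TreeA_m65536_m32768_65536_131072 : Cov exA (-65536) (-32768) 65536 131072 :=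
  (.sF 98304 TreeA_m65536_m32768_65536_98304
  (.exc (by decide)))

theorem TreeA_m32768_m16384_65536_81920 : Cov exA (-32768) (-16384) 65536 81920 :=
  (.sD (-24576) (.sF 73728 (.sF 69632 (.exc (by decide))
  (.sF 71680 (.sF 70656 (.cell d_m32768_m24576_69632_70656 (by decide +kernel) f_m32768_m24576_69632_70656)
  (.cell d_m32768_m24576_70656_71680 (by decide +kernel) f_m32768_m24576_70656_71680))
  (.cell d_m32768_m24576_71680_73728 (by decide +kernel) f_m32768_m24576_71680_73728)))
  (.sF 77824 (.sF 75776 (.sF 74752 (.cell d_m32768_m24576_73728_74752 (by decide +kernel) f_m32768_m24576_73728_74752)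
  (.cell d_m32768_m24576_74752_75776 (by decide +kernel) f_m32768_m24576_74752_75776))
  (.cell d_m32768_m24576_75776_77824 (by decide +kernel) f_m32768_m24576_75776_77824))
  (.sF 79872 (.sF 78848 (.cell d_m32768_m24576_77824_78848 (by decide +kernel) f_m32768_m24576_77824_78848)
  (.cell d_m32768_m24576_78848_79872 (by decide +kernel) f_m32768_m24576_78848_79872))
  (.cell d_m32768_m24576_79872_81920 (by decide +kernel) f_m32768_m24576_79872_81920))))
  (.sF 73728 (.sD (-20480) (.sF 69632 (.exc (by decide))
  (.sF 71680 (.sF 70656 (.cell d_m24576_m20480_69632_70656 (by decide +kernel) f_m24576_m20480_69632_70656)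
  (.cell d_m24576_m20480_70656_71680 (by decide +kernel) f_m24576_m20480_70656_71680))
  (.sF 72704 (.cell d_m24576_m20480_71680_72704 (by decide +kernel) f_m24576_m20480_71680_72704)
  (.cell d_m24576_m20480_72704_73728 (by decide +kernel) f_m24576_m20480_72704_73728))))
  (.sF 69632 (.exc (by decide))
  (.sF 71680 (.sF 70656 (.cell d_m20480_m16384_69632_70656 (by decide +kernel) f_m20480_m16384_69632_70656)
  (.sF 71168 (.cell d_m20480_m16384_70656_71168 (by decide +kernel) f_m20480_m16384_70656_71168)
  (.cell d_m20480_m16384_71168_71680 (by decide +kernel) f_m20480_m16384_71168_71680)))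
  (.sF 72704 (.cell d_m20480_m16384_71680_72704 (by decide +kernel) f_m20480_m16384_71680_72704)
  (.cell d_m20480_m16384_72704_73728 (by decide +kernel) f_m20480_m16384_72704_73728)))))
  (.sF 77824 (.sF 75776 (.cell d_m24576_m16384_73728_75776 (by decide +kernel) f_m24576_m16384_73728_75776)
  (.cell d_m24576_m16384_75776_77824 (by decide +kernel) f_m24576_m16384_75776_77824))
  (.sF 79872 (.cell d_m24576_m16384_77824_79872 (by decide +kernel) f_m24576_m16384_77824_79872)
  (.cell d_m24576_m16384_79872_81920 (by decide +kernel) f_m24576_m16384_79872_81920)))))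

theorem TreeA_m32768_m16384_65536_98304 : Cov exA (-32768) (-16384) 65536 98304 :=
  (.sF 81920 TreeA_m32768_m16384_65536_81920
  (.sD (-24576) (.sF 90112 (.sF 86016 (.cell d_m32768_m24576_81920_86016 (by decide +kernel) f_m32768_m24576_81920_86016)
  (.cell d_m32768_m24576_86016_90112 (by decide +kernel) f_m32768_m24576_86016_90112))
  (.cell d_m32768_m24576_90112_98304 (by decide +kernel) f_m32768_m24576_90112_98304))
  (.sF 90112 (.sF 86016 (.sF 83968 (.cell d_m24576_m16384_81920_83968 (by decide +kernel) f_m24576_m16384_81920_83968)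
  (.cell d_m24576_m16384_83968_86016 (by decide +kernel) f_m24576_m16384_83968_86016))
  (.cell d_m24576_m16384_86016_90112 (by decide +kernel) f_m24576_m16384_86016_90112))
  (.sD (-20480) (.cell d_m24576_m20480_90112_98304 (by decide +kernel) f_m24576_m20480_90112_98304)
  (.cell d_m20480_m16384_90112_98304 (by decide +kernel) f_m20480_m16384_90112_98304)))))

theorem TreeA_m16384_m8192_65536_81920 : Cov exA (-16384) (-8192) 65536 81920 :=
  (.sF 73728 (.sD (-12288) (.sF 69632 (.exc (by decide))
  (.sF 71680 (.sF 70656 (.cell d_m16384_m12288_69632_70656 (by decide +kernel) f_m16384_m12288_69632_70656)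
  (.cell d_m16384_m12288_70656_71680 (by decide +kernel) f_m16384_m12288_70656_71680))
  (.sF 72704 (.cell d_m16384_m12288_71680_72704 (by decide +kernel) f_m16384_m12288_71680_72704)
  (.cell d_m16384_m12288_72704_73728 (by decide +kernel) f_m16384_m12288_72704_73728))))
  (.sF 69632 (.exc (by decide))
  (.sF 71680 (.sF 70656 (.cell d_m12288_m8192_69632_70656 (by decide +kernel) f_m12288_m8192_69632_70656)
  (.cell d_m12288_m8192_70656_71680 (by decide +kernel) f_m12288_m8192_70656_71680))
  (.sF 72704 (.cell d_m12288_m8192_71680_72704 (by decide +kernel) f_m12288_m8192_71680_72704)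
  (.cell d_m12288_m8192_72704_73728 (by decide +kernel) f_m12288_m8192_72704_73728)))))
  (.sD (-12288) (.sF 77824 (.sF 75776 (.sF 74752 (.cell d_m16384_m12288_73728_74752 (by decide +kernel) f_m16384_m12288_73728_74752)
  (.cell d_m16384_m12288_74752_75776 (by decide +kernel) f_m16384_m12288_74752_75776))
  (.sF 76800 (.cell d_m16384_m12288_75776_76800 (by decide +kernel) f_m16384_m12288_75776_76800)
  (.cell d_m16384_m12288_76800_77824 (by decide +kernel) f_m16384_m12288_76800_77824)))
  (.sF 79872 (.sF 78848 (.cell d_m16384_m12288_77824_78848 (by decide +kernel) f_m16384_m12288_77824_78848)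
  (.sD (-14336) (.cell d_m16384_m14336_78848_79872 (by decide +kernel) f_m16384_m14336_78848_79872)
  (.cell d_m14336_m12288_78848_79872 (by decide +kernel) f_m14336_m12288_78848_79872)))
  (.cell d_m16384_m12288_79872_81920 (by decide +kernel) f_m16384_m12288_79872_81920)))
  (.sF 77824 (.sF 75776 (.sF 74752 (.cell d_m12288_m8192_73728_74752 (by decide +kernel) f_m12288_m8192_73728_74752)
  (.cell d_m12288_m8192_74752_75776 (by decide +kernel) f_m12288_m8192_74752_75776))
  (.sF 76800 (.cell d_m12288_m8192_75776_76800 (by decide +kernel) f_m12288_m8192_75776_76800)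
  (.cell d_m12288_m8192_76800_77824 (by decide +kernel) f_m12288_m8192_76800_77824)))
  (.sF 79872 (.sF 78848 (.cell d_m12288_m8192_77824_78848 (by decide +kernel) f_m12288_m8192_77824_78848)
  (.sD (-10240) (.cell d_m12288_m10240_78848_79872 (by decide +kernel) f_m12288_m10240_78848_79872)
  (.cell d_m10240_m8192_78848_79872 (by decide +kernel) f_m10240_m8192_78848_79872)))
  (.cell d_m12288_m8192_79872_81920 (by decide +kernel) f_m12288_m8192_79872_81920)))))

theorem TreeA_m16384_0_65536_81920 : Cov exA (-16384) 0 65536 81920 :=
  (.sD (-8192) TreeA_m16384_m8192_65536_81920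
  (.sF 73728 (.sD (-4096) (.sF 69632 (.exc (by decide))
  (.sD (-6144) (.sF 71680 (.sF 70656 (.cell d_m8192_m6144_69632_70656 (by decide +kernel) f_m8192_m6144_69632_70656)
  (.cell d_m8192_m6144_70656_71680 (by decide +kernel) f_m8192_m6144_70656_71680))
  (.cell d_m8192_m6144_71680_73728 (by decide +kernel) f_m8192_m6144_71680_73728))
  (.exc (by decide))))
  (.exc (by decide)))
  (.sD (-4096) (.sF 77824 (.sD (-6144) (.sF 75776 (.cell d_m8192_m6144_73728_75776 (by decide +kernel) f_m8192_m6144_73728_75776)
  (.cell d_m8192_m6144_75776_77824 (by decide +kernel) f_m8192_m6144_75776_77824))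
  (.exc (by decide)))
  (.sD (-6144) (.sF 79872 (.cell d_m8192_m6144_77824_79872 (by decide +kernel) f_m8192_m6144_77824_79872)
  (.cell d_m8192_m6144_79872_81920 (by decide +kernel) f_m8192_m6144_79872_81920))
  (.exc (by decide))))
  (.exc (by decide)))))

theorem TreeA_m16384_0_81920_98304 : Cov exA (-16384) 0 81920 98304 :=
  (.sD (-8192) (.sF 90112 (.sD (-12288) (.sF 86016 (.sF 83968 (.cell d_m16384_m12288_81920_83968 (by decide +kernel) f_m16384_m12288_81920_83968)
  (.cell d_m16384_m12288_83968_86016 (by decide +kernel) f_m16384_m12288_83968_86016))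
  (.sF 88064 (.cell d_m16384_m12288_86016_88064 (by decide +kernel) f_m16384_m12288_86016_88064)
  (.cell d_m16384_m12288_88064_90112 (by decide +kernel) f_m16384_m12288_88064_90112)))
  (.sF 86016 (.sD (-10240) (.cell d_m12288_m10240_81920_86016 (by decide +kernel) f_m12288_m10240_81920_86016)
  (.cell d_m10240_m8192_81920_86016 (by decide +kernel) f_m10240_m8192_81920_86016))
  (.sD (-10240) (.sF 88064 (.exc (by decide))
  (.sF 89088 (.exc (by decide))
  (.cell d_m12288_m10240_89088_90112 (by decide +kernel) f_m12288_m10240_89088_90112)))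
  (.sF 88064 (.exc (by decide))
  (.cell d_m10240_m8192_88064_90112 (by decide +kernel) f_m10240_m8192_88064_90112)))))
  (.sD (-12288) (.cell d_m16384_m12288_90112_98304 (by decide +kernel) f_m16384_m12288_90112_98304)
  (.sF 94208 (.sD (-10240) (.cell d_m12288_m10240_90112_94208 (by decide +kernel) f_m12288_m10240_90112_94208)
  (.sF 92160 (.cell d_m10240_m8192_90112_92160 (by decide +kernel) f_m10240_m8192_90112_92160)
  (.cell d_m10240_m8192_92160_94208 (by decide +kernel) f_m10240_m8192_92160_94208)))
  (.sD (-10240) (.sF 96256 (.cell d_m12288_m10240_94208_96256 (by decide +kernel) f_m12288_m10240_94208_96256)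
  (.cell d_m12288_m10240_96256_98304 (by decide +kernel) f_m12288_m10240_96256_98304))
  (.cell d_m10240_m8192_94208_98304 (by decide +kernel) f_m10240_m8192_94208_98304)))))
  (.sF 90112 (.sD (-4096) (.sF 86016 (.sD (-6144) (.sF 83968 (.cell d_m8192_m6144_81920_83968 (by decide +kernel) f_m8192_m6144_81920_83968)
  (.cell d_m8192_m6144_83968_86016 (by decide +kernel) f_m8192_m6144_83968_86016))
  (.exc (by decide)))
  (.sD (-6144) (.sF 88064 (.exc (by decide))
  (.cell d_m8192_m6144_88064_90112 (by decide +kernel) f_m8192_m6144_88064_90112))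
  (.exc (by decide))))
  (.exc (by decide)))
  (.sD (-4096) (.sF 94208 (.sD (-6144) (.cell d_m8192_m6144_90112_94208 (by decide +kernel) f_m8192_m6144_90112_94208)
  (.exc (by decide)))
  (.sD (-6144) (.cell d_m8192_m6144_94208_98304 (by decide +kernel) f_m8192_m6144_94208_98304)
  (.exc (by decide))))
  (.exc (by decide)))))

theorem TreeA_m16384_0_65536_98304 : Cov exA (-16384) 0 65536 98304 :=
  (.sF 81920 TreeA_m16384_0_65536_81920
  TreeA_m16384_0_81920_98304)

theorem TreeA_m32768_0_65536_98304 : Cov exA (-32768) 0 65536 98304 :=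
  (.sD (-16384) TreeA_m32768_m16384_65536_98304
  TreeA_m16384_0_65536_98304)

theorem TreeA_m16384_0_98304_131072 : Cov exA (-16384) 0 98304 131072 :=
  (.sF 114688 (.sD (-8192) (.sF 106496 (.sD (-12288) (.sF 102400 (.cell d_m16384_m12288_98304_102400 (by decide +kernel) f_m16384_m12288_98304_102400)
  (.sF 104448 (.cell d_m16384_m12288_102400_104448 (by decide +kernel) f_m16384_m12288_102400_104448)
  (.cell d_m16384_m12288_104448_106496 (by decide +kernel) f_m16384_m12288_104448_106496)))
  (.sF 102400 (.sF 100352 (.cell d_m12288_m8192_98304_100352 (by decide +kernel) f_m12288_m8192_98304_100352)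
  (.cell d_m12288_m8192_100352_102400 (by decide +kernel) f_m12288_m8192_100352_102400))
  (.cell d_m12288_m8192_102400_106496 (by decide +kernel) f_m12288_m8192_102400_106496)))
  (.sD (-12288) (.sF 110592 (.cell d_m16384_m12288_106496_110592 (by decide +kernel) f_m16384_m12288_106496_110592)
  (.cell d_m16384_m12288_110592_114688 (by decide +kernel) f_m16384_m12288_110592_114688))
  (.sF 110592 (.cell d_m12288_m8192_106496_110592 (by decide +kernel) f_m12288_m8192_106496_110592)
  (.cell d_m12288_m8192_110592_114688 (by decide +kernel) f_m12288_m8192_110592_114688))))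
  (.sF 106496 (.sD (-4096) (.sF 102400 (.sD (-6144) (.cell d_m8192_m6144_98304_102400 (by decide +kernel) f_m8192_m6144_98304_102400)
  (.exc (by decide)))
  (.sD (-6144) (.cell d_m8192_m6144_102400_106496 (by decide +kernel) f_m8192_m6144_102400_106496)
  (.exc (by decide))))
  (.exc (by decide)))
  (.sD (-4096) (.sD (-6144) (.cell d_m8192_m6144_106496_114688 (by decide +kernel) f_m8192_m6144_106496_114688)
  (.exc (by decide)))
  (.exc (by decide)))))
  (.sD (-8192) (.sF 122880 (.sD (-12288) (.cell d_m16384_m12288_114688_122880 (by decide +kernel) f_m16384_m12288_114688_122880)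
  (.sD (-10240) (.cell d_m12288_m10240_114688_122880 (by decide +kernel) f_m12288_m10240_114688_122880)
  (.cell d_m10240_m8192_114688_122880 (by decide +kernel) f_m10240_m8192_114688_122880)))
  (.sD (-12288) (.sF 126976 (.cell d_m16384_m12288_122880_126976 (by decide +kernel) f_m16384_m12288_122880_126976)
  (.exc (by decide)))
  (.sF 126976 (.sD (-10240) (.cell d_m12288_m10240_122880_126976 (by decide +kernel) f_m12288_m10240_122880_126976)
  (.cell d_m10240_m8192_122880_126976 (by decide +kernel) f_m10240_m8192_122880_126976))
  (.exc (by decide)))))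
  (.sF 122880 (.sD (-4096) (.sD (-6144) (.cell d_m8192_m6144_114688_122880 (by decide +kernel) f_m8192_m6144_114688_122880)
  (.exc (by decide)))
  (.exc (by decide)))
  (.sD (-4096) (.sF 126976 (.sD (-6144) (.cell d_m8192_m6144_122880_126976 (by decide +kernel) f_m8192_m6144_122880_126976)
  (.exc (by decide)))
  (.exc (by decide)))
  (.exc (by decide))))))

theorem TreeA_m32768_0_98304_131072 : Cov exA (-32768) 0 98304 131072 :=
  (.sD (-16384) (.sF 114688 (.sD (-24576) (.cell d_m32768_m24576_98304_114688 (by decide +kernel) f_m32768_m24576_98304_114688)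
  (.sF 106496 (.cell d_m24576_m16384_98304_106496 (by decide +kernel) f_m24576_m16384_98304_106496)
  (.sD (-20480) (.sF 110592 (.cell d_m24576_m20480_106496_110592 (by decide +kernel) f_m24576_m20480_106496_110592)
  (.cell d_m24576_m20480_110592_114688 (by decide +kernel) f_m24576_m20480_110592_114688))
  (.sF 110592 (.sF 108544 (.cell d_m20480_m16384_106496_108544 (by decide +kernel) f_m20480_m16384_106496_108544)
  (.cell d_m20480_m16384_108544_110592 (by decide +kernel) f_m20480_m16384_108544_110592))
  (.cell d_m20480_m16384_110592_114688 (by decide +kernel) f_m20480_m16384_110592_114688)))))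
  (.sD (-24576) (.sF 122880 (.sD (-28672) (.cell d_m32768_m28672_114688_122880 (by decide +kernel) f_m32768_m28672_114688_122880)
  (.sF 118784 (.cell d_m28672_m24576_114688_118784 (by decide +kernel) f_m28672_m24576_114688_118784)
  (.cell d_m28672_m24576_118784_122880 (by decide +kernel) f_m28672_m24576_118784_122880)))
  (.sD (-28672) (.sF 126976 (.cell d_m32768_m28672_122880_126976 (by decide +kernel) f_m32768_m28672_122880_126976)
  (.exc (by decide)))
  (.sF 126976 (.cell d_m28672_m24576_122880_126976 (by decide +kernel) f_m28672_m24576_122880_126976)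
  (.exc (by decide)))))
  (.sF 122880 (.sD (-20480) (.cell d_m24576_m20480_114688_122880 (by decide +kernel) f_m24576_m20480_114688_122880)
  (.sF 118784 (.cell d_m20480_m16384_114688_118784 (by decide +kernel) f_m20480_m16384_114688_118784)
  (.sD (-18432) (.cell d_m20480_m18432_118784_122880 (by decide +kernel) f_m20480_m18432_118784_122880)
  (.cell d_m18432_m16384_118784_122880 (by decide +kernel) f_m18432_m16384_118784_122880))))
  (.sD (-20480) (.sF 126976 (.sF 124928 (.cell d_m24576_m20480_122880_124928 (by decide +kernel) f_m24576_m20480_122880_124928)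
  (.cell d_m24576_m20480_124928_126976 (by decide +kernel) f_m24576_m20480_124928_126976))
  (.exc (by decide)))
  (.sF 126976 (.cell d_m20480_m16384_122880_126976 (by decide +kernel) f_m20480_m16384_122880_126976)
  (.exc (by decide)))))))
  TreeA_m16384_0_98304_131072)

theorem TreeA_m32768_0_65536_131072 : Cov exA (-32768) 0 65536 131072 :=
  (.sF 98304 TreeA_m32768_0_65536_98304
  TreeA_m32768_0_98304_131072)

theorem TreeA_m65536_0_65536_131072 : Cov exA (-65536) 0 65536 131072 :=
  (.sD (-32768) TreeA_m65536_m32768_65536_131072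
  TreeA_m32768_0_65536_131072)

theorem TreeA_m65536_m57344_0_16384 : Cov exA (-65536) (-57344) 0 16384 :=
  (.sF 8192 (.sD (-61440) (.exc (by decide))
  (.sF 4096 (.exc (by decide))
  (.sD (-59392) (.sF 6144 (.sD (-60416) (.sF 5120 (.sF 4608 (.sD (-60928) (.cell d_m61440_m60928_4096_4608 (by decide +kernel) f_m61440_m60928_4096_4608)
  (.cell d_m60928_m60416_4096_4608 (by decide +kernel) f_m60928_m60416_4096_4608))
  (.cell d_m61440_m60416_4608_5120 (by decide +kernel) f_m61440_m60416_4608_5120))
  (.cell d_m61440_m60416_5120_6144 (by decide +kernel) f_m61440_m60416_5120_6144))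
  (.sF 5120 (.cell d_m60416_m59392_4096_5120 (by decide +kernel) f_m60416_m59392_4096_5120)
  (.cell d_m60416_m59392_5120_6144 (by decide +kernel) f_m60416_m59392_5120_6144)))
  (.sD (-60416) (.sF 7168 (.cell d_m61440_m60416_6144_7168 (by decide +kernel) f_m61440_m60416_6144_7168)
  (.cell d_m61440_m60416_7168_8192 (by decide +kernel) f_m61440_m60416_7168_8192))
  (.sF 7168 (.cell d_m60416_m59392_6144_7168 (by decide +kernel) f_m60416_m59392_6144_7168)
  (.cell d_m60416_m59392_7168_8192 (by decide +kernel) f_m60416_m59392_7168_8192))))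
  (.sF 6144 (.sF 5120 (.sF 4608 (.cell d_m59392_m57344_4096_4608 (by decide +kernel) f_m59392_m57344_4096_4608)
  (.cell d_m59392_m57344_4608_5120 (by decide +kernel) f_m59392_m57344_4608_5120))
  (.cell d_m59392_m57344_5120_6144 (by decide +kernel) f_m59392_m57344_5120_6144))
  (.sF 7168 (.cell d_m59392_m57344_6144_7168 (by decide +kernel) f_m59392_m57344_6144_7168)
  (.cell d_m59392_m57344_7168_8192 (by decide +kernel) f_m59392_m57344_7168_8192))))))
  (.sD (-61440) (.exc (by decide))
  (.sF 12288 (.sD (-59392) (.sF 10240 (.sD (-60416) (.cell d_m61440_m60416_8192_10240 (by decide +kernel) f_m61440_m60416_8192_10240)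
  (.cell d_m60416_m59392_8192_10240 (by decide +kernel) f_m60416_m59392_8192_10240))
  (.sD (-60416) (.cell d_m61440_m60416_10240_12288 (by decide +kernel) f_m61440_m60416_10240_12288)
  (.cell d_m60416_m59392_10240_12288 (by decide +kernel) f_m60416_m59392_10240_12288)))
  (.sF 10240 (.sF 9216 (.cell d_m59392_m57344_8192_9216 (by decide +kernel) f_m59392_m57344_8192_9216)
  (.cell d_m59392_m57344_9216_10240 (by decide +kernel) f_m59392_m57344_9216_10240))
  (.cell d_m59392_m57344_10240_12288 (by decide +kernel) f_m59392_m57344_10240_12288)))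
  (.sD (-59392) (.sF 14336 (.sD (-60416) (.cell d_m61440_m60416_12288_14336 (by decide +kernel) f_m61440_m60416_12288_14336)
  (.cell d_m60416_m59392_12288_14336 (by decide +kernel) f_m60416_m59392_12288_14336))
  (.sD (-60416) (.cell d_m61440_m60416_14336_16384 (by decide +kernel) f_m61440_m60416_14336_16384)
  (.cell d_m60416_m59392_14336_16384 (by decide +kernel) f_m60416_m59392_14336_16384)))
  (.sF 14336 (.cell d_m59392_m57344_12288_14336 (by decide +kernel) f_m59392_m57344_12288_14336)
  (.cell d_m59392_m57344_14336_16384 (by decide +kernel) f_m59392_m57344_14336_16384))))))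

theorem TreeA_m57344_m49152_0_16384 : Cov exA (-57344) (-49152) 0 16384 :=
  (.sF 8192 (.sD (-53248) (.sF 4096 (.exc (by decide))
  (.sD (-55296) (.sF 6144 (.sF 5120 (.cell d_m57344_m55296_4096_5120 (by decide +kernel) f_m57344_m55296_4096_5120)
  (.cell d_m57344_m55296_5120_6144 (by decide +kernel) f_m57344_m55296_5120_6144))
  (.sF 7168 (.cell d_m57344_m55296_6144_7168 (by decide +kernel) f_m57344_m55296_6144_7168)
  (.cell d_m57344_m55296_7168_8192 (by decide +kernel) f_m57344_m55296_7168_8192)))
  (.sF 6144 (.sF 5120 (.cell d_m55296_m53248_4096_5120 (by decide +kernel) f_m55296_m53248_4096_5120)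
  (.cell d_m55296_m53248_5120_6144 (by decide +kernel) f_m55296_m53248_5120_6144))
  (.sF 7168 (.cell d_m55296_m53248_6144_7168 (by decide +kernel) f_m55296_m53248_6144_7168)
  (.cell d_m55296_m53248_7168_8192 (by decide +kernel) f_m55296_m53248_7168_8192)))))
  (.sF 4096 (.exc (by decide))
  (.sF 6144 (.sF 5120 (.sD (-51200) (.cell d_m53248_m51200_4096_5120 (by decide +kernel) f_m53248_m51200_4096_5120)
  (.cell d_m51200_m49152_4096_5120 (by decide +kernel) f_m51200_m49152_4096_5120))
  (.cell d_m53248_m49152_5120_6144 (by decide +kernel) f_m53248_m49152_5120_6144))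
  (.sF 7168 (.cell d_m53248_m49152_6144_7168 (by decide +kernel) f_m53248_m49152_6144_7168)
  (.cell d_m53248_m49152_7168_8192 (by decide +kernel) f_m53248_m49152_7168_8192)))))
  (.sD (-53248) (.sF 12288 (.sD (-55296) (.sF 10240 (.cell d_m57344_m55296_8192_10240 (by decide +kernel) f_m57344_m55296_8192_10240)
  (.cell d_m57344_m55296_10240_12288 (by decide +kernel) f_m57344_m55296_10240_12288))
  (.sF 10240 (.cell d_m55296_m53248_8192_10240 (by decide +kernel) f_m55296_m53248_8192_10240)
  (.cell d_m55296_m53248_10240_12288 (by decide +kernel) f_m55296_m53248_10240_12288)))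
  (.sD (-55296) (.sF 14336 (.cell d_m57344_m55296_12288_14336 (by decide +kernel) f_m57344_m55296_12288_14336)
  (.sF 15360 (.cell d_m57344_m55296_14336_15360 (by decide +kernel) f_m57344_m55296_14336_15360)
  (.cell d_m57344_m55296_15360_16384 (by decide +kernel) f_m57344_m55296_15360_16384)))
  (.sF 14336 (.cell d_m55296_m53248_12288_14336 (by decide +kernel) f_m55296_m53248_12288_14336)
  (.sF 15360 (.cell d_m55296_m53248_14336_15360 (by decide +kernel) f_m55296_m53248_14336_15360)
  (.cell d_m55296_m53248_15360_16384 (by decide +kernel) f_m55296_m53248_15360_16384)))))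
  (.sF 12288 (.sF 10240 (.cell d_m53248_m49152_8192_10240 (by decide +kernel) f_m53248_m49152_8192_10240)
  (.cell d_m53248_m49152_10240_12288 (by decide +kernel) f_m53248_m49152_10240_12288))
  (.sF 14336 (.cell d_m53248_m49152_12288_14336 (by decide +kernel) f_m53248_m49152_12288_14336)
  (.sF 15360 (.cell d_m53248_m49152_14336_15360 (by decide +kernel) f_m53248_m49152_14336_15360)
  (.cell d_m53248_m49152_15360_16384 (by decide +kernel) f_m53248_m49152_15360_16384))))))

theorem TreeA_m65536_m49152_0_16384 : Cov exA (-65536) (-49152) 0 16384 :=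
  (.sD (-57344) TreeA_m65536_m57344_0_16384
  TreeA_m57344_m49152_0_16384)

theorem TreeA_m65536_m57344_16384_32768 : Cov exA (-65536) (-57344) 16384 32768 :=
  (.sF 24576 (.sD (-61440) (.exc (by decide))
  (.sF 20480 (.sD (-59392) (.sF 18432 (.sF 17408 (.sF 16896 (.cell d_m61440_m59392_16384_16896 (by decide +kernel) f_m61440_m59392_16384_16896)
  (.sD (-60416) (.cell d_m61440_m60416_16896_17408 (by decide +kernel) f_m61440_m60416_16896_17408)
  (.cell d_m60416_m59392_16896_17408 (by decide +kernel) f_m60416_m59392_16896_17408)))
  (.sD (-60416) (.cell d_m61440_m60416_17408_18432 (by decide +kernel) f_m61440_m60416_17408_18432)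
  (.cell d_m60416_m59392_17408_18432 (by decide +kernel) f_m60416_m59392_17408_18432)))
  (.sD (-60416) (.cell d_m61440_m60416_18432_20480 (by decide +kernel) f_m61440_m60416_18432_20480)
  (.cell d_m60416_m59392_18432_20480 (by decide +kernel) f_m60416_m59392_18432_20480)))
  (.sF 18432 (.sF 17408 (.sF 16896 (.cell d_m59392_m57344_16384_16896 (by decide +kernel) f_m59392_m57344_16384_16896)
  (.cell d_m59392_m57344_16896_17408 (by decide +kernel) f_m59392_m57344_16896_17408))
  (.cell d_m59392_m57344_17408_18432 (by decide +kernel) f_m59392_m57344_17408_18432))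
  (.cell d_m59392_m57344_18432_20480 (by decide +kernel) f_m59392_m57344_18432_20480)))
  (.sD (-59392) (.sF 22528 (.sD (-60416) (.cell d_m61440_m60416_20480_22528 (by decide +kernel) f_m61440_m60416_20480_22528)
  (.cell d_m60416_m59392_20480_22528 (by decide +kernel) f_m60416_m59392_20480_22528))
  (.sD (-60416) (.cell d_m61440_m60416_22528_24576 (by decide +kernel) f_m61440_m60416_22528_24576)
  (.cell d_m60416_m59392_22528_24576 (by decide +kernel) f_m60416_m59392_22528_24576)))
  (.cell d_m59392_m57344_20480_24576 (by decide +kernel) f_m59392_m57344_20480_24576))))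
  (.sD (-61440) (.exc (by decide))
  (.sF 28672 (.sD (-59392) (.sF 26624 (.sD (-60416) (.cell d_m61440_m60416_24576_26624 (by decide +kernel) f_m61440_m60416_24576_26624)
  (.cell d_m60416_m59392_24576_26624 (by decide +kernel) f_m60416_m59392_24576_26624))
  (.sD (-60416) (.sF 27648 (.cell d_m61440_m60416_26624_27648 (by decide +kernel) f_m61440_m60416_26624_27648)
  (.cell d_m61440_m60416_27648_28672 (by decide +kernel) f_m61440_m60416_27648_28672))
  (.sF 27648 (.cell d_m60416_m59392_26624_27648 (by decide +kernel) f_m60416_m59392_26624_27648)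
  (.cell d_m60416_m59392_27648_28672 (by decide +kernel) f_m60416_m59392_27648_28672))))
  (.sF 26624 (.cell d_m59392_m57344_24576_26624 (by decide +kernel) f_m59392_m57344_24576_26624)
  (.sF 27648 (.cell d_m59392_m57344_26624_27648 (by decide +kernel) f_m59392_m57344_26624_27648)
  (.cell d_m59392_m57344_27648_28672 (by decide +kernel) f_m59392_m57344_27648_28672))))
  (.exc (by decide)))))

theorem TreeA_m65536_m49152_16384_32768 : Cov exA (-65536) (-49152) 16384 32768 :=
  (.sD (-57344) TreeA_m65536_m57344_16384_32768
  (.sF 24576 (.sD (-53248) (.sF 20480 (.sD (-55296) (.cell d_m57344_m55296_16384_20480 (by decide +kernel) f_m57344_m55296_16384_20480)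
  (.cell d_m55296_m53248_16384_20480 (by decide +kernel) f_m55296_m53248_16384_20480))
  (.sD (-55296) (.cell d_m57344_m55296_20480_24576 (by decide +kernel) f_m57344_m55296_20480_24576)
  (.cell d_m55296_m53248_20480_24576 (by decide +kernel) f_m55296_m53248_20480_24576)))
  (.sF 20480 (.cell d_m53248_m49152_16384_20480 (by decide +kernel) f_m53248_m49152_16384_20480)
  (.cell d_m53248_m49152_20480_24576 (by decide +kernel) f_m53248_m49152_20480_24576)))
  (.sD (-53248) (.sF 28672 (.sF 26624 (.cell d_m57344_m53248_24576_26624 (by decide +kernel) f_m57344_m53248_24576_26624)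
  (.sD (-55296) (.sF 27648 (.cell d_m57344_m55296_26624_27648 (by decide +kernel) f_m57344_m55296_26624_27648)
  (.cell d_m57344_m55296_27648_28672 (by decide +kernel) f_m57344_m55296_27648_28672))
  (.sF 27648 (.cell d_m55296_m53248_26624_27648 (by decide +kernel) f_m55296_m53248_26624_27648)
  (.cell d_m55296_m53248_27648_28672 (by decide +kernel) f_m55296_m53248_27648_28672))))
  (.exc (by decide)))
  (.sF 28672 (.sF 26624 (.cell d_m53248_m49152_24576_26624 (by decide +kernel) f_m53248_m49152_24576_26624)
  (.cell d_m53248_m49152_26624_28672 (by decide +kernel) f_m53248_m49152_26624_28672))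
  (.exc (by decide))))))

theorem TreeA_m65536_m49152_0_32768 : Cov exA (-65536) (-49152) 0 32768 :=
  (.sF 16384 TreeA_m65536_m49152_0_16384
  TreeA_m65536_m49152_16384_32768)

theorem TreeA_m49152_m32768_0_16384 : Cov exA (-49152) (-32768) 0 16384 :=
  (.sD (-40960) (.sF 8192 (.sD (-45056) (.sF 4096 (.exc (by decide))
  (.sF 6144 (.sD (-47104) (.sF 5120 (.cell d_m49152_m47104_4096_5120 (by decide +kernel) f_m49152_m47104_4096_5120)
  (.cell d_m49152_m47104_5120_6144 (by decide +kernel) f_m49152_m47104_5120_6144))
  (.sF 5120 (.cell d_m47104_m45056_4096_5120 (by decide +kernel) f_m47104_m45056_4096_5120)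
  (.cell d_m47104_m45056_5120_6144 (by decide +kernel) f_m47104_m45056_5120_6144)))
  (.cell d_m49152_m45056_6144_8192 (by decide +kernel) f_m49152_m45056_6144_8192)))
  (.sF 4096 (.exc (by decide))
  (.sF 6144 (.sD (-43008) (.sF 5120 (.cell d_m45056_m43008_4096_5120 (by decide +kernel) f_m45056_m43008_4096_5120)
  (.cell d_m45056_m43008_5120_6144 (by decide +kernel) f_m45056_m43008_5120_6144))
  (.sF 5120 (.cell d_m43008_m40960_4096_5120 (by decide +kernel) f_m43008_m40960_4096_5120)
  (.cell d_m43008_m40960_5120_6144 (by decide +kernel) f_m43008_m40960_5120_6144)))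
  (.cell d_m45056_m40960_6144_8192 (by decide +kernel) f_m45056_m40960_6144_8192))))
  (.sD (-45056) (.sF 12288 (.sF 10240 (.cell d_m49152_m45056_8192_10240 (by decide +kernel) f_m49152_m45056_8192_10240)
  (.cell d_m49152_m45056_10240_12288 (by decide +kernel) f_m49152_m45056_10240_12288))
  (.sF 14336 (.cell d_m49152_m45056_12288_14336 (by decide +kernel) f_m49152_m45056_12288_14336)
  (.cell d_m49152_m45056_14336_16384 (by decide +kernel) f_m49152_m45056_14336_16384)))
  (.sF 12288 (.sF 10240 (.cell d_m45056_m40960_8192_10240 (by decide +kernel) f_m45056_m40960_8192_10240)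
  (.cell d_m45056_m40960_10240_12288 (by decide +kernel) f_m45056_m40960_10240_12288))
  (.sF 14336 (.cell d_m45056_m40960_12288_14336 (by decide +kernel) f_m45056_m40960_12288_14336)
  (.cell d_m45056_m40960_14336_16384 (by decide +kernel) f_m45056_m40960_14336_16384)))))
  (.sF 8192 (.sD (-36864) (.sF 4096 (.exc (by decide))
  (.sF 6144 (.sD (-38912) (.sF 5120 (.cell d_m40960_m38912_4096_5120 (by decide +kernel) f_m40960_m38912_4096_5120)
  (.cell d_m40960_m38912_5120_6144 (by decide +kernel) f_m40960_m38912_5120_6144))
  (.sF 5120 (.cell d_m38912_m36864_4096_5120 (by decide +kernel) f_m38912_m36864_4096_5120)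
  (.cell d_m38912_m36864_5120_6144 (by decide +kernel) f_m38912_m36864_5120_6144)))
  (.cell d_m40960_m36864_6144_8192 (by decide +kernel) f_m40960_m36864_6144_8192)))
  (.sF 4096 (.exc (by decide))
  (.sF 6144 (.sD (-34816) (.sF 5120 (.cell d_m36864_m34816_4096_5120 (by decide +kernel) f_m36864_m34816_4096_5120)
  (.cell d_m36864_m34816_5120_6144 (by decide +kernel) f_m36864_m34816_5120_6144))
  (.sF 5120 (.cell d_m34816_m32768_4096_5120 (by decide +kernel) f_m34816_m32768_4096_5120)
  (.cell d_m34816_m32768_5120_6144 (by decide +kernel) f_m34816_m32768_5120_6144)))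
  (.cell d_m36864_m32768_6144_8192 (by decide +kernel) f_m36864_m32768_6144_8192))))
  (.sD (-36864) (.sF 12288 (.sF 10240 (.cell d_m40960_m36864_8192_10240 (by decide +kernel) f_m40960_m36864_8192_10240)
  (.cell d_m40960_m36864_10240_12288 (by decide +kernel) f_m40960_m36864_10240_12288))
  (.sF 14336 (.cell d_m40960_m36864_12288_14336 (by decide +kernel) f_m40960_m36864_12288_14336)
  (.cell d_m40960_m36864_14336_16384 (by decide +kernel) f_m40960_m36864_14336_16384)))
  (.sF 12288 (.sD (-34816) (.sF 10240 (.cell d_m36864_m34816_8192_10240 (by decide +kernel) f_m36864_m34816_8192_10240)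
  (.cell d_m36864_m34816_10240_12288 (by decide +kernel) f_m36864_m34816_10240_12288))
  (.cell d_m34816_m32768_8192_12288 (by decide +kernel) f_m34816_m32768_8192_12288))
  (.sF 14336 (.cell d_m36864_m32768_12288_14336 (by decide +kernel) f_m36864_m32768_12288_14336)
  (.cell d_m36864_m32768_14336_16384 (by decide +kernel) f_m36864_m32768_14336_16384))))))

theorem TreeA_m49152_m32768_16384_32768 : Cov exA (-49152) (-32768) 16384 32768 :=
  (.sD (-40960) (.sF 24576 (.sD (-45056) (.sF 20480 (.sF 18432 (.cell d_m49152_m45056_16384_18432 (by decide +kernel) f_m49152_m45056_16384_18432)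
  (.cell d_m49152_m45056_18432_20480 (by decide +kernel) f_m49152_m45056_18432_20480))
  (.sF 22528 (.cell d_m49152_m45056_20480_22528 (by decide +kernel) f_m49152_m45056_20480_22528)
  (.cell d_m49152_m45056_22528_24576 (by decide +kernel) f_m49152_m45056_22528_24576)))
  (.sF 20480 (.sF 18432 (.cell d_m45056_m40960_16384_18432 (by decide +kernel) f_m45056_m40960_16384_18432)
  (.cell d_m45056_m40960_18432_20480 (by decide +kernel) f_m45056_m40960_18432_20480))
  (.sF 22528 (.cell d_m45056_m40960_20480_22528 (by decide +kernel) f_m45056_m40960_20480_22528)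
  (.cell d_m45056_m40960_22528_24576 (by decide +kernel) f_m45056_m40960_22528_24576))))
  (.sD (-45056) (.sF 28672 (.sF 26624 (.cell d_m49152_m45056_24576_26624 (by decide +kernel) f_m49152_m45056_24576_26624)
  (.cell d_m49152_m45056_26624_28672 (by decide +kernel) f_m49152_m45056_26624_28672))
  (.exc (by decide)))
  (.sF 28672 (.sD (-43008) (.sF 26624 (.cell d_m45056_m43008_24576_26624 (by decide +kernel) f_m45056_m43008_24576_26624)
  (.cell d_m45056_m43008_26624_28672 (by decide +kernel) f_m45056_m43008_26624_28672))
  (.sF 26624 (.cell d_m43008_m40960_24576_26624 (by decide +kernel) f_m43008_m40960_24576_26624)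
  (.cell d_m43008_m40960_26624_28672 (by decide +kernel) f_m43008_m40960_26624_28672)))
  (.exc (by decide)))))
  (.sF 24576 (.sD (-36864) (.sF 20480 (.sF 18432 (.cell d_m40960_m36864_16384_18432 (by decide +kernel) f_m40960_m36864_16384_18432)
  (.cell d_m40960_m36864_18432_20480 (by decide +kernel) f_m40960_m36864_18432_20480))
  (.sF 22528 (.cell d_m40960_m36864_20480_22528 (by decide +kernel) f_m40960_m36864_20480_22528)
  (.cell d_m40960_m36864_22528_24576 (by decide +kernel) f_m40960_m36864_22528_24576)))
  (.sF 20480 (.sF 18432 (.cell d_m36864_m32768_16384_18432 (by decide +kernel) f_m36864_m32768_16384_18432)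
  (.cell d_m36864_m32768_18432_20480 (by decide +kernel) f_m36864_m32768_18432_20480))
  (.sF 22528 (.cell d_m36864_m32768_20480_22528 (by decide +kernel) f_m36864_m32768_20480_22528)
  (.cell d_m36864_m32768_22528_24576 (by decide +kernel) f_m36864_m32768_22528_24576))))
  (.sD (-36864) (.sF 28672 (.sF 26624 (.cell d_m40960_m36864_24576_26624 (by decide +kernel) f_m40960_m36864_24576_26624)
  (.cell d_m40960_m36864_26624_28672 (by decide +kernel) f_m40960_m36864_26624_28672))
  (.exc (by decide)))
  (.sF 28672 (.sF 26624 (.cell d_m36864_m32768_24576_26624 (by decide +kernel) f_m36864_m32768_24576_26624)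
  (.cell d_m36864_m32768_26624_28672 (by decide +kernel) f_m36864_m32768_26624_28672))
  (.exc (by decide))))))

theorem TreeA_m49152_m32768_0_32768 : Cov exA (-49152) (-32768) 0 32768 :=
  (.sF 16384 TreeA_m49152_m32768_0_16384
  TreeA_m49152_m32768_16384_32768)

theorem TreeA_m65536_m32768_0_32768 : Cov exA (-65536) (-32768) 0 32768 :=
  (.sD (-49152) TreeA_m65536_m49152_0_32768
  TreeA_m49152_m32768_0_32768)

theorem TreeA_m65536_m49152_32768_49152 : Cov exA (-65536) (-49152) 32768 49152 :=
  (.sD (-57344) (.sF 40960 (.sD (-61440) (.exc (by decide))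
  (.sF 36864 (.exc (by decide))
  (.sD (-59392) (.sF 38912 (.sD (-60416) (.cell d_m61440_m60416_36864_38912 (by decide +kernel) f_m61440_m60416_36864_38912)
  (.cell d_m60416_m59392_36864_38912 (by decide +kernel) f_m60416_m59392_36864_38912))
  (.sD (-60416) (.sF 39936 (.cell d_m61440_m60416_38912_39936 (by decide +kernel) f_m61440_m60416_38912_39936)
  (.cell d_m61440_m60416_39936_40960 (by decide +kernel) f_m61440_m60416_39936_40960))
  (.cell d_m60416_m59392_38912_40960 (by decide +kernel) f_m60416_m59392_38912_40960)))
  (.sF 38912 (.sD (-58368) (.cell d_m59392_m58368_36864_38912 (by decide +kernel) f_m59392_m58368_36864_38912)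
  (.cell d_m58368_m57344_36864_38912 (by decide +kernel) f_m58368_m57344_36864_38912))
  (.sD (-58368) (.cell d_m59392_m58368_38912_40960 (by decide +kernel) f_m59392_m58368_38912_40960)
  (.cell d_m58368_m57344_38912_40960 (by decide +kernel) f_m58368_m57344_38912_40960))))))
  (.sD (-61440) (.exc (by decide))
  (.sF 45056 (.sD (-59392) (.sD (-60416) (.cell d_m61440_m60416_40960_45056 (by decide +kernel) f_m61440_m60416_40960_45056)
  (.cell d_m60416_m59392_40960_45056 (by decide +kernel) f_m60416_m59392_40960_45056))
  (.sD (-58368) (.cell d_m59392_m58368_40960_45056 (by decide +kernel) f_m59392_m58368_40960_45056)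
  (.cell d_m58368_m57344_40960_45056 (by decide +kernel) f_m58368_m57344_40960_45056)))
  (.sD (-59392) (.sD (-60416) (.cell d_m61440_m60416_45056_49152 (by decide +kernel) f_m61440_m60416_45056_49152)
  (.cell d_m60416_m59392_45056_49152 (by decide +kernel) f_m60416_m59392_45056_49152))
  (.sD (-58368) (.cell d_m59392_m58368_45056_49152 (by decide +kernel) f_m59392_m58368_45056_49152)
  (.cell d_m58368_m57344_45056_49152 (by decide +kernel) f_m58368_m57344_45056_49152))))))
  (.sF 40960 (.sD (-53248) (.sF 36864 (.exc (by decide))
  (.sD (-55296) (.sF 38912 (.cell d_m57344_m55296_36864_38912 (by decide +kernel) f_m57344_m55296_36864_38912)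
  (.cell d_m57344_m55296_38912_40960 (by decide +kernel) f_m57344_m55296_38912_40960))
  (.sF 38912 (.cell d_m55296_m53248_36864_38912 (by decide +kernel) f_m55296_m53248_36864_38912)
  (.cell d_m55296_m53248_38912_40960 (by decide +kernel) f_m55296_m53248_38912_40960))))
  (.sF 36864 (.exc (by decide))
  (.sD (-51200) (.sF 38912 (.cell d_m53248_m51200_36864_38912 (by decide +kernel) f_m53248_m51200_36864_38912)
  (.cell d_m53248_m51200_38912_40960 (by decide +kernel) f_m53248_m51200_38912_40960))
  (.sF 38912 (.cell d_m51200_m49152_36864_38912 (by decide +kernel) f_m51200_m49152_36864_38912)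
  (.cell d_m51200_m49152_38912_40960 (by decide +kernel) f_m51200_m49152_38912_40960)))))
  (.sD (-53248) (.sF 45056 (.sD (-55296) (.cell d_m57344_m55296_40960_45056 (by decide +kernel) f_m57344_m55296_40960_45056)
  (.cell d_m55296_m53248_40960_45056 (by decide +kernel) f_m55296_m53248_40960_45056))
  (.sD (-55296) (.cell d_m57344_m55296_45056_49152 (by decide +kernel) f_m57344_m55296_45056_49152)
  (.cell d_m55296_m53248_45056_49152 (by decide +kernel) f_m55296_m53248_45056_49152)))
  (.sF 45056 (.sD (-51200) (.cell d_m53248_m51200_40960_45056 (by decide +kernel) f_m53248_m51200_40960_45056)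
  (.cell d_m51200_m49152_40960_45056 (by decide +kernel) f_m51200_m49152_40960_45056))
  (.sD (-51200) (.cell d_m53248_m51200_45056_49152 (by decide +kernel) f_m53248_m51200_45056_49152)
  (.cell d_m51200_m49152_45056_49152 (by decide +kernel) f_m51200_m49152_45056_49152))))))

theorem TreeA_m57344_m49152_49152_65536 : Cov exA (-57344) (-49152) 49152 65536 :=
  (.sF 57344 (.sD (-53248) (.sF 53248 (.sD (-55296) (.cell d_m57344_m55296_49152_53248 (by decide +kernel) f_m57344_m55296_49152_53248)
  (.cell d_m55296_m53248_49152_53248 (by decide +kernel) f_m55296_m53248_49152_53248))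
  (.sD (-55296) (.sF 55296 (.cell d_m57344_m55296_53248_55296 (by decide +kernel) f_m57344_m55296_53248_55296)
  (.cell d_m57344_m55296_55296_57344 (by decide +kernel) f_m57344_m55296_55296_57344))
  (.sF 55296 (.sD (-54272) (.cell d_m55296_m54272_53248_55296 (by decide +kernel) f_m55296_m54272_53248_55296)
  (.cell d_m54272_m53248_53248_55296 (by decide +kernel) f_m54272_m53248_53248_55296))
  (.sD (-54272) (.cell d_m55296_m54272_55296_57344 (by decide +kernel) f_m55296_m54272_55296_57344)
  (.cell d_m54272_m53248_55296_57344 (by decide +kernel) f_m54272_m53248_55296_57344)))))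
  (.sF 53248 (.sD (-51200) (.cell d_m53248_m51200_49152_53248 (by decide +kernel) f_m53248_m51200_49152_53248)
  (.cell d_m51200_m49152_49152_53248 (by decide +kernel) f_m51200_m49152_49152_53248))
  (.sD (-51200) (.sF 55296 (.cell d_m53248_m51200_53248_55296 (by decide +kernel) f_m53248_m51200_53248_55296)
  (.cell d_m53248_m51200_55296_57344 (by decide +kernel) f_m53248_m51200_55296_57344))
  (.sF 55296 (.cell d_m51200_m49152_53248_55296 (by decide +kernel) f_m51200_m49152_53248_55296)
  (.cell d_m51200_m49152_55296_57344 (by decide +kernel) f_m51200_m49152_55296_57344)))))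
  (.sD (-53248) (.sF 61440 (.sD (-55296) (.sF 59392 (.cell d_m57344_m55296_57344_59392 (by decide +kernel) f_m57344_m55296_57344_59392)
  (.sD (-56320) (.sF 60416 (.cell d_m57344_m56320_59392_60416 (by decide +kernel) f_m57344_m56320_59392_60416)
  (.cell d_m57344_m56320_60416_61440 (by decide +kernel) f_m57344_m56320_60416_61440))
  (.sF 60416 (.cell d_m56320_m55296_59392_60416 (by decide +kernel) f_m56320_m55296_59392_60416)
  (.cell d_m56320_m55296_60416_61440 (by decide +kernel) f_m56320_m55296_60416_61440))))
  (.sF 59392 (.sF 58368 (.cell d_m55296_m53248_57344_58368 (by decide +kernel) f_m55296_m53248_57344_58368)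
  (.cell d_m55296_m53248_58368_59392 (by decide +kernel) f_m55296_m53248_58368_59392))
  (.sF 60416 (.sD (-54272) (.sD (-54784) (.sF 59904 (.cell d_m55296_m54784_59392_59904 (by decide +kernel) f_m55296_m54784_59392_59904)
  (.cell d_m55296_m54784_59904_60416 (by decide +kernel) f_m55296_m54784_59904_60416))
  (.sF 59904 (.cell d_m54784_m54272_59392_59904 (by decide +kernel) f_m54784_m54272_59392_59904)
  (.cell d_m54784_m54272_59904_60416 (by decide +kernel) f_m54784_m54272_59904_60416)))
  (.sF 59904 (.cell d_m54272_m53248_59392_59904 (by decide +kernel) f_m54272_m53248_59392_59904)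
  (.cell d_m54272_m53248_59904_60416 (by decide +kernel) f_m54272_m53248_59904_60416)))
  (.cell d_m55296_m53248_60416_61440 (by decide +kernel) f_m55296_m53248_60416_61440))))
  (.exc (by decide)))
  (.sF 61440 (.sD (-51200) (.sF 59392 (.sF 58368 (.cell d_m53248_m51200_57344_58368 (by decide +kernel) f_m53248_m51200_57344_58368)
  (.cell d_m53248_m51200_58368_59392 (by decide +kernel) f_m53248_m51200_58368_59392))
  (.sF 60416 (.cell d_m53248_m51200_59392_60416 (by decide +kernel) f_m53248_m51200_59392_60416)
  (.cell d_m53248_m51200_60416_61440 (by decide +kernel) f_m53248_m51200_60416_61440)))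
  (.sF 59392 (.cell d_m51200_m49152_57344_59392 (by decide +kernel) f_m51200_m49152_57344_59392)
  (.sF 60416 (.cell d_m51200_m49152_59392_60416 (by decide +kernel) f_m51200_m49152_59392_60416)
  (.cell d_m51200_m49152_60416_61440 (by decide +kernel) f_m51200_m49152_60416_61440))))
  (.exc (by decide)))))

theorem TreeA_m65536_m49152_49152_65536 : Cov exA (-65536) (-49152) 49152 65536 :=
  (.sD (-57344) (.sF 57344 (.sD (-61440) (.exc (by decide))
  (.sF 53248 (.sD (-59392) (.sD (-60416) (.cell d_m61440_m60416_49152_53248 (by decide +kernel) f_m61440_m60416_49152_53248)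
  (.cell d_m60416_m59392_49152_53248 (by decide +kernel) f_m60416_m59392_49152_53248))
  (.cell d_m59392_m57344_49152_53248 (by decide +kernel) f_m59392_m57344_49152_53248))
  (.sD (-59392) (.sD (-60416) (.cell d_m61440_m60416_53248_57344 (by decide +kernel) f_m61440_m60416_53248_57344)
  (.cell d_m60416_m59392_53248_57344 (by decide +kernel) f_m60416_m59392_53248_57344))
  (.sF 55296 (.cell d_m59392_m57344_53248_55296 (by decide +kernel) f_m59392_m57344_53248_55296)
  (.cell d_m59392_m57344_55296_57344 (by decide +kernel) f_m59392_m57344_55296_57344)))))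
  (.sD (-61440) (.exc (by decide))
  (.sF 61440 (.sD (-59392) (.sF 59392 (.sD (-60416) (.cell d_m61440_m60416_57344_59392 (by decide +kernel) f_m61440_m60416_57344_59392)
  (.cell d_m60416_m59392_57344_59392 (by decide +kernel) f_m60416_m59392_57344_59392))
  (.sD (-60416) (.sF 60416 (.cell d_m61440_m60416_59392_60416 (by decide +kernel) f_m61440_m60416_59392_60416)
  (.cell d_m61440_m60416_60416_61440 (by decide +kernel) f_m61440_m60416_60416_61440))
  (.sF 60416 (.cell d_m60416_m59392_59392_60416 (by decide +kernel) f_m60416_m59392_59392_60416)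
  (.sD (-59904) (.cell d_m60416_m59904_60416_61440 (by decide +kernel) f_m60416_m59904_60416_61440)
  (.cell d_m59904_m59392_60416_61440 (by decide +kernel) f_m59904_m59392_60416_61440)))))
  (.sF 59392 (.cell d_m59392_m57344_57344_59392 (by decide +kernel) f_m59392_m57344_57344_59392)
  (.sF 60416 (.cell d_m59392_m57344_59392_60416 (by decide +kernel) f_m59392_m57344_59392_60416)
  (.cell d_m59392_m57344_60416_61440 (by decide +kernel) f_m59392_m57344_60416_61440))))
  (.exc (by decide)))))
  TreeA_m57344_m49152_49152_65536)

theorem TreeA_m65536_m49152_32768_65536 : Cov exA (-65536) (-49152) 32768 65536 :=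
  (.sF 49152 TreeA_m65536_m49152_32768_49152
  TreeA_m65536_m49152_49152_65536)

theorem TreeA_m49152_m32768_32768_49152 : Cov exA (-49152) (-32768) 32768 49152 :=
  (.sD (-40960) (.sF 40960 (.sD (-45056) (.sF 36864 (.exc (by decide))
  (.sD (-47104) (.sF 38912 (.cell d_m49152_m47104_36864_38912 (by decide +kernel) f_m49152_m47104_36864_38912)
  (.cell d_m49152_m47104_38912_40960 (by decide +kernel) f_m49152_m47104_38912_40960))
  (.sF 38912 (.cell d_m47104_m45056_36864_38912 (by decide +kernel) f_m47104_m45056_36864_38912)
  (.cell d_m47104_m45056_38912_40960 (by decide +kernel) f_m47104_m45056_38912_40960))))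
  (.sF 36864 (.exc (by decide))
  (.sD (-43008) (.sF 38912 (.sD (-44032) (.cell d_m45056_m44032_36864_38912 (by decide +kernel) f_m45056_m44032_36864_38912)
  (.cell d_m44032_m43008_36864_38912 (by decide +kernel) f_m44032_m43008_36864_38912))
  (.sD (-44032) (.cell d_m45056_m44032_38912_40960 (by decide +kernel) f_m45056_m44032_38912_40960)
  (.cell d_m44032_m43008_38912_40960 (by decide +kernel) f_m44032_m43008_38912_40960)))
  (.sF 38912 (.cell d_m43008_m40960_36864_38912 (by decide +kernel) f_m43008_m40960_36864_38912)
  (.cell d_m43008_m40960_38912_40960 (by decide +kernel) f_m43008_m40960_38912_40960)))))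
  (.sD (-45056) (.sF 45056 (.cell d_m49152_m45056_40960_45056 (by decide +kernel) f_m49152_m45056_40960_45056)
  (.cell d_m49152_m45056_45056_49152 (by decide +kernel) f_m49152_m45056_45056_49152))
  (.sF 45056 (.cell d_m45056_m40960_40960_45056 (by decide +kernel) f_m45056_m40960_40960_45056)
  (.cell d_m45056_m40960_45056_49152 (by decide +kernel) f_m45056_m40960_45056_49152))))
  (.sF 40960 (.sD (-36864) (.sF 36864 (.exc (by decide))
  (.sD (-38912) (.sF 38912 (.cell d_m40960_m38912_36864_38912 (by decide +kernel) f_m40960_m38912_36864_38912)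
  (.cell d_m40960_m38912_38912_40960 (by decide +kernel) f_m40960_m38912_38912_40960))
  (.sF 38912 (.cell d_m38912_m36864_36864_38912 (by decide +kernel) f_m38912_m36864_36864_38912)
  (.cell d_m38912_m36864_38912_40960 (by decide +kernel) f_m38912_m36864_38912_40960))))
  (.exc (by decide)))
  (.sD (-36864) (.sF 45056 (.sD (-38912) (.sF 43008 (.cell d_m40960_m38912_40960_43008 (by decide +kernel) f_m40960_m38912_40960_43008)
  (.cell d_m40960_m38912_43008_45056 (by decide +kernel) f_m40960_m38912_43008_45056))
  (.cell d_m38912_m36864_40960_45056 (by decide +kernel) f_m38912_m36864_40960_45056))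
  (.cell d_m40960_m36864_45056_49152 (by decide +kernel) f_m40960_m36864_45056_49152))
  (.exc (by decide)))))

theorem TreeA_m49152_m32768_49152_65536 : Cov exA (-49152) (-32768) 49152 65536 :=
  (.sD (-40960) (.sF 57344 (.sD (-45056) (.sF 53248 (.sF 51200 (.sD (-47104) (.cell d_m49152_m47104_49152_53248 (by decide +kernel) f_m49152_m47104_49152_53248)
  (.cell d_m47104_m45056_49152_51200 (by decide +kernel) f_m47104_m45056_49152_51200))
  (.sD (-47104) (.cell d_m49152_m47104_51200_53248 (by decide +kernel) f_m49152_m47104_51200_53248)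
  (.cell d_m47104_m45056_51200_53248 (by decide +kernel) f_m47104_m45056_51200_53248)))
  (.sF 55296 (.cell d_m49152_m45056_53248_55296 (by decide +kernel) f_m49152_m45056_53248_55296)
  (.cell d_m49152_m45056_55296_57344 (by decide +kernel) f_m49152_m45056_55296_57344)))
  (.sF 53248 (.cell d_m45056_m40960_49152_53248 (by decide +kernel) f_m45056_m40960_49152_53248)
  (.sD (-43008) (.sF 55296 (.cell d_m45056_m43008_53248_55296 (by decide +kernel) f_m45056_m43008_53248_55296)
  (.cell d_m45056_m43008_55296_57344 (by decide +kernel) f_m45056_m43008_55296_57344))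
  (.sF 55296 (.cell d_m43008_m40960_53248_55296 (by decide +kernel) f_m43008_m40960_53248_55296)
  (.cell d_m43008_m40960_55296_57344 (by decide +kernel) f_m43008_m40960_55296_57344)))))
  (.sD (-45056) (.sF 61440 (.sF 59392 (.cell d_m49152_m45056_57344_59392 (by decide +kernel) f_m49152_m45056_57344_59392)
  (.sF 60416 (.cell d_m49152_m45056_59392_60416 (by decide +kernel) f_m49152_m45056_59392_60416)
  (.cell d_m49152_m45056_60416_61440 (by decide +kernel) f_m49152_m45056_60416_61440)))
  (.exc (by decide)))
  (.sF 61440 (.sF 59392 (.cell d_m45056_m40960_57344_59392 (by decide +kernel) f_m45056_m40960_57344_59392)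
  (.sF 60416 (.cell d_m45056_m40960_59392_60416 (by decide +kernel) f_m45056_m40960_59392_60416)
  (.cell d_m45056_m40960_60416_61440 (by decide +kernel) f_m45056_m40960_60416_61440)))
  (.exc (by decide)))))
  (.sF 57344 (.sD (-36864) (.sF 53248 (.cell d_m40960_m36864_49152_53248 (by decide +kernel) f_m40960_m36864_49152_53248)
  (.sF 55296 (.cell d_m40960_m36864_53248_55296 (by decide +kernel) f_m40960_m36864_53248_55296)
  (.cell d_m40960_m36864_55296_57344 (by decide +kernel) f_m40960_m36864_55296_57344)))
  (.exc (by decide)))
  (.sD (-36864) (.sF 61440 (.sF 59392 (.cell d_m40960_m36864_57344_59392 (by decide +kernel) f_m40960_m36864_57344_59392)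
  (.sF 60416 (.cell d_m40960_m36864_59392_60416 (by decide +kernel) f_m40960_m36864_59392_60416)
  (.cell d_m40960_m36864_60416_61440 (by decide +kernel) f_m40960_m36864_60416_61440)))
  (.exc (by decide)))
  (.exc (by decide)))))

theorem TreeA_m49152_m32768_32768_65536 : Cov exA (-49152) (-32768) 32768 65536 :=
  (.sF 49152 TreeA_m49152_m32768_32768_49152
  TreeA_m49152_m32768_49152_65536)

theorem TreeA_m65536_m32768_32768_65536 : Cov exA (-65536) (-32768) 32768 65536 :=
  (.sD (-49152) TreeA_m65536_m49152_32768_65536
  TreeA_m49152_m32768_32768_65536)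

theorem TreeA_m65536_m32768_0_65536 : Cov exA (-65536) (-32768) 0 65536 :=
  (.sF 32768 TreeA_m65536_m32768_0_32768
  TreeA_m65536_m32768_32768_65536)

theorem TreeA_m32768_m24576_24576_32768 : Cov exA (-32768) (-24576) 24576 32768 :=
  (.sD (-28672) (.sF 28672 (.sD (-30720) (.sD (-31744) (.cell d_m32768_m31744_24576_28672 (by decide +kernel) f_m32768_m31744_24576_28672)
  (.sF 26624 (.cell d_m31744_m30720_24576_26624 (by decide +kernel) f_m31744_m30720_24576_26624)
  (.cell d_m31744_m30720_26624_28672 (by decide +kernel) f_m31744_m30720_26624_28672)))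
  (.sF 26624 (.cell d_m30720_m28672_24576_26624 (by decide +kernel) f_m30720_m28672_24576_26624)
  (.cell d_m30720_m28672_26624_28672 (by decide +kernel) f_m30720_m28672_26624_28672)))
  (.exc (by decide)))
  (.sF 28672 (.sF 26624 (.sF 25600 (.cell d_m28672_m24576_24576_25600 (by decide +kernel) f_m28672_m24576_24576_25600)
  (.sD (-26624) (.cell d_m28672_m26624_25600_26624 (by decide +kernel) f_m28672_m26624_25600_26624)
  (.cell d_m26624_m24576_25600_26624 (by decide +kernel) f_m26624_m24576_25600_26624)))
  (.sD (-26624) (.sF 27648 (.sD (-27648) (.cell d_m28672_m27648_26624_27648 (by decide +kernel) f_m28672_m27648_26624_27648)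
  (.cell d_m27648_m26624_26624_27648 (by decide +kernel) f_m27648_m26624_26624_27648))
  (.sD (-27648) (.sF 28160 (.sF 27904 (.cell d_m28672_m27648_27648_27904 (by decide +kernel) f_m28672_m27648_27648_27904)
  (.sD (-28160) (.cell d_m28672_m28160_27648_28160 (by decide +kernel) f_m28672_m28160_27648_28160)
  (.sF 28032 (.cell d_m28672_m27648_27904_28032 (by decide +kernel) f_m28672_m27648_27904_28032)
  (.sD (-27904) (.cell d_m28160_m27904_28032_28160 (by decide +kernel) f_m28160_m27904_28032_28160)
  (.sD (-27776) (.cell d_m27904_m27776_28032_28160 (by decide +kernel) f_m27904_m27776_28032_28160)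
  (.cell d_m27776_m27648_28032_28160 (by decide +kernel) f_m27776_m27648_28032_28160))))))
  (.cell d_m28672_m27648_28160_28672 (by decide +kernel) f_m28672_m27648_28160_28672))
  (.sD (-27136) (.sF 28160 (.sD (-27392) (.sF 27904 (.sD (-27520) (.sF 27776 (.cell d_m27648_m27520_27648_27776 (by decide +kernel) f_m27648_m27520_27648_27776)
  (.cell d_m27648_m27520_27776_27904 (by decide +kernel) f_m27648_m27520_27776_27904))
  (.cell d_m27520_m27392_27648_27904 (by decide +kernel) f_m27520_m27392_27648_27904))
  (.sD (-27520) (.cell d_m27648_m27520_27904_28160 (by decide +kernel) f_m27648_m27520_27904_28160)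
  (.cell d_m27520_m27392_27904_28160 (by decide +kernel) f_m27520_m27392_27904_28160)))
  (.cell d_m27392_m27136_27648_28160 (by decide +kernel) f_m27392_m27136_27648_28160))
  (.cell d_m27648_m27136_28160_28672 (by decide +kernel) f_m27648_m27136_28160_28672))
  (.cell d_m27136_m26624_27648_28672 (by decide +kernel) f_m27136_m26624_27648_28672))))
  (.sD (-25600) (.cell d_m26624_m25600_26624_28672 (by decide +kernel) f_m26624_m25600_26624_28672)
  (.sF 27648 (.cell d_m25600_m24576_26624_27648 (by decide +kernel) f_m25600_m24576_26624_27648)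
  (.cell d_m25600_m24576_27648_28672 (by decide +kernel) f_m25600_m24576_27648_28672)))))
  (.exc (by decide))))

theorem TreeA_m32768_m24576_16384_32768 : Cov exA (-32768) (-24576) 16384 32768 :=
  (.sF 24576 (.sD (-28672) (.sF 20480 (.cell d_m32768_m28672_16384_20480 (by decide +kernel) f_m32768_m28672_16384_20480)
  (.cell d_m32768_m28672_20480_24576 (by decide +kernel) f_m32768_m28672_20480_24576))
  (.sF 20480 (.cell d_m28672_m24576_16384_20480 (by decide +kernel) f_m28672_m24576_16384_20480)
  (.cell d_m28672_m24576_20480_24576 (by decide +kernel) f_m28672_m24576_20480_24576)))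
  TreeA_m32768_m24576_24576_32768)

theorem TreeA_m32768_m16384_16384_32768 : Cov exA (-32768) (-16384) 16384 32768 :=
  (.sD (-24576) TreeA_m32768_m24576_16384_32768
  (.sF 24576 (.sD (-20480) (.sF 20480 (.cell d_m24576_m20480_16384_20480 (by decide +kernel) f_m24576_m20480_16384_20480)
  (.sD (-22528) (.sF 22528 (.cell d_m24576_m22528_20480_22528 (by decide +kernel) f_m24576_m22528_20480_22528)
  (.cell d_m24576_m22528_22528_24576 (by decide +kernel) f_m24576_m22528_22528_24576))
  (.sF 22528 (.cell d_m22528_m20480_20480_22528 (by decide +kernel) f_m22528_m20480_20480_22528)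
  (.cell d_m22528_m20480_22528_24576 (by decide +kernel) f_m22528_m20480_22528_24576))))
  (.sF 20480 (.sF 18432 (.cell d_m20480_m16384_16384_18432 (by decide +kernel) f_m20480_m16384_16384_18432)
  (.cell d_m20480_m16384_18432_20480 (by decide +kernel) f_m20480_m16384_18432_20480))
  (.sF 22528 (.cell d_m20480_m16384_20480_22528 (by decide +kernel) f_m20480_m16384_20480_22528)
  (.cell d_m20480_m16384_22528_24576 (by decide +kernel) f_m20480_m16384_22528_24576))))
  (.sD (-20480) (.sF 28672 (.sF 26624 (.sD (-22528) (.cell d_m24576_m22528_24576_26624 (by decide +kernel) f_m24576_m22528_24576_26624)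
  (.cell d_m22528_m20480_24576_26624 (by decide +kernel) f_m22528_m20480_24576_26624))
  (.sF 27648 (.cell d_m24576_m20480_26624_27648 (by decide +kernel) f_m24576_m20480_26624_27648)
  (.cell d_m24576_m20480_27648_28672 (by decide +kernel) f_m24576_m20480_27648_28672)))
  (.exc (by decide)))
  (.sF 28672 (.sF 26624 (.cell d_m20480_m16384_24576_26624 (by decide +kernel) f_m20480_m16384_24576_26624)
  (.sF 27648 (.cell d_m20480_m16384_26624_27648 (by decide +kernel) f_m20480_m16384_26624_27648)
  (.cell d_m20480_m16384_27648_28672 (by decide +kernel) f_m20480_m16384_27648_28672)))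
  (.exc (by decide))))))

theorem TreeA_m32768_m16384_0_32768 : Cov exA (-32768) (-16384) 0 32768 :=
  (.sF 16384 (.sD (-24576) (.sF 8192 (.sD (-28672) (.sF 4096 (.exc (by decide))
  (.sF 6144 (.sF 5120 (.cell d_m32768_m28672_4096_5120 (by decide +kernel) f_m32768_m28672_4096_5120)
  (.cell d_m32768_m28672_5120_6144 (by decide +kernel) f_m32768_m28672_5120_6144))
  (.cell d_m32768_m28672_6144_8192 (by decide +kernel) f_m32768_m28672_6144_8192)))
  (.sF 4096 (.exc (by decide))
  (.sF 6144 (.sF 5120 (.cell d_m28672_m24576_4096_5120 (by decide +kernel) f_m28672_m24576_4096_5120)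
  (.cell d_m28672_m24576_5120_6144 (by decide +kernel) f_m28672_m24576_5120_6144))
  (.cell d_m28672_m24576_6144_8192 (by decide +kernel) f_m28672_m24576_6144_8192))))
  (.sF 12288 (.sF 10240 (.cell d_m32768_m24576_8192_10240 (by decide +kernel) f_m32768_m24576_8192_10240)
  (.cell d_m32768_m24576_10240_12288 (by decide +kernel) f_m32768_m24576_10240_12288))
  (.sF 14336 (.cell d_m32768_m24576_12288_14336 (by decide +kernel) f_m32768_m24576_12288_14336)
  (.cell d_m32768_m24576_14336_16384 (by decide +kernel) f_m32768_m24576_14336_16384))))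
  (.sF 8192 (.sF 4096 (.exc (by decide))
  (.sF 6144 (.sF 5120 (.cell d_m24576_m16384_4096_5120 (by decide +kernel) f_m24576_m16384_4096_5120)
  (.cell d_m24576_m16384_5120_6144 (by decide +kernel) f_m24576_m16384_5120_6144))
  (.cell d_m24576_m16384_6144_8192 (by decide +kernel) f_m24576_m16384_6144_8192)))
  (.sF 12288 (.sF 10240 (.cell d_m24576_m16384_8192_10240 (by decide +kernel) f_m24576_m16384_8192_10240)
  (.cell d_m24576_m16384_10240_12288 (by decide +kernel) f_m24576_m16384_10240_12288))
  (.sF 14336 (.cell d_m24576_m16384_12288_14336 (by decide +kernel) f_m24576_m16384_12288_14336)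
  (.cell d_m24576_m16384_14336_16384 (by decide +kernel) f_m24576_m16384_14336_16384)))))
  TreeA_m32768_m16384_16384_32768)

theorem TreeA_m16384_m8192_0_16384 : Cov exA (-16384) (-8192) 0 16384 :=
  (.sF 8192 (.sD (-12288) (.sF 4096 (.exc (by decide))
  (.sF 6144 (.sF 5120 (.cell d_m16384_m12288_4096_5120 (by decide +kernel) f_m16384_m12288_4096_5120)
  (.cell d_m16384_m12288_5120_6144 (by decide +kernel) f_m16384_m12288_5120_6144))
  (.cell d_m16384_m12288_6144_8192 (by decide +kernel) f_m16384_m12288_6144_8192)))
  (.sF 4096 (.exc (by decide))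
  (.sF 6144 (.sF 5120 (.cell d_m12288_m8192_4096_5120 (by decide +kernel) f_m12288_m8192_4096_5120)
  (.cell d_m12288_m8192_5120_6144 (by decide +kernel) f_m12288_m8192_5120_6144))
  (.cell d_m12288_m8192_6144_8192 (by decide +kernel) f_m12288_m8192_6144_8192))))
  (.sD (-12288) (.sF 12288 (.sF 10240 (.cell d_m16384_m12288_8192_10240 (by decide +kernel) f_m16384_m12288_8192_10240)
  (.cell d_m16384_m12288_10240_12288 (by decide +kernel) f_m16384_m12288_10240_12288))
  (.sF 14336 (.cell d_m16384_m12288_12288_14336 (by decide +kernel) f_m16384_m12288_12288_14336)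
  (.sD (-14336) (.cell d_m16384_m14336_14336_16384 (by decide +kernel) f_m16384_m14336_14336_16384)
  (.cell d_m14336_m12288_14336_16384 (by decide +kernel) f_m14336_m12288_14336_16384))))
  (.sF 12288 (.sF 10240 (.cell d_m12288_m8192_8192_10240 (by decide +kernel) f_m12288_m8192_8192_10240)
  (.sD (-10240) (.cell d_m12288_m10240_10240_12288 (by decide +kernel) f_m12288_m10240_10240_12288)
  (.cell d_m10240_m8192_10240_12288 (by decide +kernel) f_m10240_m8192_10240_12288)))
  (.sD (-10240) (.sF 14336 (.cell d_m12288_m10240_12288_14336 (by decide +kernel) f_m12288_m10240_12288_14336)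
  (.sF 15360 (.cell d_m12288_m10240_14336_15360 (by decide +kernel) f_m12288_m10240_14336_15360)
  (.sF 15872 (.cell d_m12288_m10240_15360_15872 (by decide +kernel) f_m12288_m10240_15360_15872)
  (.cell d_m12288_m10240_15872_16384 (by decide +kernel) f_m12288_m10240_15872_16384))))
  (.sF 14336 (.cell d_m10240_m8192_12288_14336 (by decide +kernel) f_m10240_m8192_12288_14336)
  (.sF 15360 (.cell d_m10240_m8192_14336_15360 (by decide +kernel) f_m10240_m8192_14336_15360)
  (.sF 15872 (.cell d_m10240_m8192_15360_15872 (by decide +kernel) f_m10240_m8192_15360_15872)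
  (.sD (-9216) (.cell d_m10240_m9216_15872_16384 (by decide +kernel) f_m10240_m9216_15872_16384)
  (.cell d_m9216_m8192_15872_16384 (by decide +kernel) f_m9216_m8192_15872_16384)))))))))

theorem TreeA_m16384_0_0_16384 : Cov exA (-16384) 0 0 16384 :=
  (.sD (-8192) TreeA_m16384_m8192_0_16384
  (.sF 8192 (.sD (-4096) (.sF 4096 (.exc (by decide))
  (.sD (-6144) (.sF 6144 (.sF 5120 (.cell d_m8192_m6144_4096_5120 (by decide +kernel) f_m8192_m6144_4096_5120)
  (.cell d_m8192_m6144_5120_6144 (by decide +kernel) f_m8192_m6144_5120_6144))
  (.cell d_m8192_m6144_6144_8192 (by decide +kernel) f_m8192_m6144_6144_8192))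
  (.exc (by decide))))
  (.exc (by decide)))
  (.sD (-4096) (.sF 12288 (.sD (-6144) (.sF 10240 (.cell d_m8192_m6144_8192_10240 (by decide +kernel) f_m8192_m6144_8192_10240)
  (.cell d_m8192_m6144_10240_12288 (by decide +kernel) f_m8192_m6144_10240_12288))
  (.exc (by decide)))
  (.sD (-6144) (.sF 14336 (.cell d_m8192_m6144_12288_14336 (by decide +kernel) f_m8192_m6144_12288_14336)
  (.sF 15360 (.cell d_m8192_m6144_14336_15360 (by decide +kernel) f_m8192_m6144_14336_15360)
  (.sD (-7168) (.sF 15872 (.cell d_m8192_m7168_15360_15872 (by decide +kernel) f_m8192_m7168_15360_15872)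
  (.cell d_m8192_m7168_15872_16384 (by decide +kernel) f_m8192_m7168_15872_16384))
  (.sF 15872 (.cell d_m7168_m6144_15360_15872 (by decide +kernel) f_m7168_m6144_15360_15872)
  (.cell d_m7168_m6144_15872_16384 (by decide +kernel) f_m7168_m6144_15872_16384)))))
  (.exc (by decide))))
  (.exc (by decide)))))

theorem TreeA_m16384_m8192_16384_24576 : Cov exA (-16384) (-8192) 16384 24576 :=
  (.sD (-12288) (.sF 20480 (.sF 18432 (.sF 17408 (.cell d_m16384_m12288_16384_17408 (by decide +kernel) f_m16384_m12288_16384_17408)
  (.sD (-14336) (.sF 17920 (.cell d_m16384_m14336_17408_17920 (by decide +kernel) f_m16384_m14336_17408_17920)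
  (.cell d_m16384_m14336_17920_18432 (by decide +kernel) f_m16384_m14336_17920_18432))
  (.sF 17920 (.cell d_m14336_m12288_17408_17920 (by decide +kernel) f_m14336_m12288_17408_17920)
  (.cell d_m14336_m12288_17920_18432 (by decide +kernel) f_m14336_m12288_17920_18432))))
  (.sF 19456 (.sD (-14336) (.sF 18944 (.cell d_m16384_m14336_18432_18944 (by decide +kernel) f_m16384_m14336_18432_18944)
  (.cell d_m16384_m14336_18944_19456 (by decide +kernel) f_m16384_m14336_18944_19456))
  (.sF 18944 (.cell d_m14336_m12288_18432_18944 (by decide +kernel) f_m14336_m12288_18432_18944)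
  (.cell d_m14336_m12288_18944_19456 (by decide +kernel) f_m14336_m12288_18944_19456)))
  (.sF 19968 (.sD (-14336) (.cell d_m16384_m14336_19456_19968 (by decide +kernel) f_m16384_m14336_19456_19968)
  (.cell d_m14336_m12288_19456_19968 (by decide +kernel) f_m14336_m12288_19456_19968))
  (.cell d_m16384_m12288_19968_20480 (by decide +kernel) f_m16384_m12288_19968_20480))))
  (.sF 22528 (.sF 21504 (.cell d_m16384_m12288_20480_21504 (by decide +kernel) f_m16384_m12288_20480_21504)
  (.cell d_m16384_m12288_21504_22528 (by decide +kernel) f_m16384_m12288_21504_22528))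
  (.sF 23552 (.cell d_m16384_m12288_22528_23552 (by decide +kernel) f_m16384_m12288_22528_23552)
  (.sD (-14336) (.cell d_m16384_m14336_23552_24576 (by decide +kernel) f_m16384_m14336_23552_24576)
  (.cell d_m14336_m12288_23552_24576 (by decide +kernel) f_m14336_m12288_23552_24576)))))
  (.sF 20480 (.sD (-10240) (.sF 18432 (.sF 17408 (.sD (-11264) (.cell d_m12288_m11264_16384_17408 (by decide +kernel) f_m12288_m11264_16384_17408)
  (.cell d_m11264_m10240_16384_17408 (by decide +kernel) f_m11264_m10240_16384_17408))
  (.cell d_m12288_m10240_17408_18432 (by decide +kernel) f_m12288_m10240_17408_18432))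
  (.cell d_m12288_m10240_18432_20480 (by decide +kernel) f_m12288_m10240_18432_20480))
  (.sF 18432 (.sF 17408 (.sF 16896 (.sD (-9216) (.cell d_m10240_m9216_16384_16896 (by decide +kernel) f_m10240_m9216_16384_16896)
  (.cell d_m9216_m8192_16384_16896 (by decide +kernel) f_m9216_m8192_16384_16896))
  (.cell d_m10240_m8192_16896_17408 (by decide +kernel) f_m10240_m8192_16896_17408))
  (.cell d_m10240_m8192_17408_18432 (by decide +kernel) f_m10240_m8192_17408_18432))
  (.cell d_m10240_m8192_18432_20480 (by decide +kernel) f_m10240_m8192_18432_20480)))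
  (.sD (-10240) (.sF 22528 (.sF 21504 (.cell d_m12288_m10240_20480_21504 (by decide +kernel) f_m12288_m10240_20480_21504)
  (.cell d_m12288_m10240_21504_22528 (by decide +kernel) f_m12288_m10240_21504_22528))
  (.sF 23552 (.cell d_m12288_m10240_22528_23552 (by decide +kernel) f_m12288_m10240_22528_23552)
  (.cell d_m12288_m10240_23552_24576 (by decide +kernel) f_m12288_m10240_23552_24576)))
  (.sF 22528 (.sF 21504 (.cell d_m10240_m8192_20480_21504 (by decide +kernel) f_m10240_m8192_20480_21504)
  (.cell d_m10240_m8192_21504_22528 (by decide +kernel) f_m10240_m8192_21504_22528))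
  (.sF 23552 (.cell d_m10240_m8192_22528_23552 (by decide +kernel) f_m10240_m8192_22528_23552)
  (.cell d_m10240_m8192_23552_24576 (by decide +kernel) f_m10240_m8192_23552_24576))))))

theorem TreeA_m16384_m8192_16384_32768 : Cov exA (-16384) (-8192) 16384 32768 :=
  (.sF 24576 TreeA_m16384_m8192_16384_24576
  (.sD (-12288) (.sF 28672 (.sD (-14336) (.sF 26624 (.sF 25600 (.cell d_m16384_m14336_24576_25600 (by decide +kernel) f_m16384_m14336_24576_25600)
  (.cell d_m16384_m14336_25600_26624 (by decide +kernel) f_m16384_m14336_25600_26624))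
  (.sF 27648 (.cell d_m16384_m14336_26624_27648 (by decide +kernel) f_m16384_m14336_26624_27648)
  (.cell d_m16384_m14336_27648_28672 (by decide +kernel) f_m16384_m14336_27648_28672)))
  (.sF 26624 (.sF 25600 (.cell d_m14336_m12288_24576_25600 (by decide +kernel) f_m14336_m12288_24576_25600)
  (.cell d_m14336_m12288_25600_26624 (by decide +kernel) f_m14336_m12288_25600_26624))
  (.sF 27648 (.cell d_m14336_m12288_26624_27648 (by decide +kernel) f_m14336_m12288_26624_27648)
  (.cell d_m14336_m12288_27648_28672 (by decide +kernel) f_m14336_m12288_27648_28672))))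
  (.exc (by decide)))
  (.sF 28672 (.sD (-10240) (.sF 26624 (.sF 25600 (.cell d_m12288_m10240_24576_25600 (by decide +kernel) f_m12288_m10240_24576_25600)
  (.cell d_m12288_m10240_25600_26624 (by decide +kernel) f_m12288_m10240_25600_26624))
  (.sF 27648 (.cell d_m12288_m10240_26624_27648 (by decide +kernel) f_m12288_m10240_26624_27648)
  (.sF 28160 (.cell d_m12288_m10240_27648_28160 (by decide +kernel) f_m12288_m10240_27648_28160)
  (.cell d_m12288_m10240_28160_28672 (by decide +kernel) f_m12288_m10240_28160_28672))))
  (.sF 26624 (.sF 25600 (.cell d_m10240_m8192_24576_25600 (by decide +kernel) f_m10240_m8192_24576_25600)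
  (.cell d_m10240_m8192_25600_26624 (by decide +kernel) f_m10240_m8192_25600_26624))
  (.sF 27648 (.sD (-9216) (.cell d_m10240_m9216_26624_27648 (by decide +kernel) f_m10240_m9216_26624_27648)
  (.cell d_m9216_m8192_26624_27648 (by decide +kernel) f_m9216_m8192_26624_27648))
  (.sF 28160 (.cell d_m10240_m8192_27648_28160 (by decide +kernel) f_m10240_m8192_27648_28160)
  (.sD (-9216) (.cell d_m10240_m9216_28160_28672 (by decide +kernel) f_m10240_m9216_28160_28672)
  (.cell d_m9216_m8192_28160_28672 (by decide +kernel) f_m9216_m8192_28160_28672))))))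
  (.exc (by decide)))))

theorem TreeA_m8192_0_16384_32768 : Cov exA (-8192) 0 16384 32768 :=
  (.sF 24576 (.sD (-4096) (.sF 20480 (.sD (-6144) (.sF 18432 (.cell d_m8192_m6144_16384_18432 (by decide +kernel) f_m8192_m6144_16384_18432)
  (.sF 19456 (.cell d_m8192_m6144_18432_19456 (by decide +kernel) f_m8192_m6144_18432_19456)
  (.cell d_m8192_m6144_19456_20480 (by decide +kernel) f_m8192_m6144_19456_20480)))
  (.exc (by decide)))
  (.sD (-6144) (.sF 22528 (.sF 21504 (.sF 20992 (.cell d_m8192_m6144_20480_20992 (by decide +kernel) f_m8192_m6144_20480_20992)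
  (.cell d_m8192_m6144_20992_21504 (by decide +kernel) f_m8192_m6144_20992_21504))
  (.cell d_m8192_m6144_21504_22528 (by decide +kernel) f_m8192_m6144_21504_22528))
  (.sD (-7168) (.sF 23552 (.cell d_m8192_m7168_22528_23552 (by decide +kernel) f_m8192_m7168_22528_23552)
  (.cell d_m8192_m7168_23552_24576 (by decide +kernel) f_m8192_m7168_23552_24576))
  (.sF 23552 (.cell d_m7168_m6144_22528_23552 (by decide +kernel) f_m7168_m6144_22528_23552)
  (.cell d_m7168_m6144_23552_24576 (by decide +kernel) f_m7168_m6144_23552_24576))))
  (.exc (by decide))))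
  (.exc (by decide)))
  (.sD (-4096) (.sF 28672 (.sD (-6144) (.sF 26624 (.sD (-7168) (.sF 25600 (.cell d_m8192_m7168_24576_25600 (by decide +kernel) f_m8192_m7168_24576_25600)
  (.cell d_m8192_m7168_25600_26624 (by decide +kernel) f_m8192_m7168_25600_26624))
  (.sF 25600 (.cell d_m7168_m6144_24576_25600 (by decide +kernel) f_m7168_m6144_24576_25600)
  (.cell d_m7168_m6144_25600_26624 (by decide +kernel) f_m7168_m6144_25600_26624)))
  (.sD (-7168) (.sF 27648 (.sF 27136 (.cell d_m8192_m7168_26624_27136 (by decide +kernel) f_m8192_m7168_26624_27136)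
  (.cell d_m8192_m7168_27136_27648 (by decide +kernel) f_m8192_m7168_27136_27648))
  (.sF 28160 (.cell d_m8192_m7168_27648_28160 (by decide +kernel) f_m8192_m7168_27648_28160)
  (.cell d_m8192_m7168_28160_28672 (by decide +kernel) f_m8192_m7168_28160_28672)))
  (.sF 27648 (.sF 27136 (.cell d_m7168_m6144_26624_27136 (by decide +kernel) f_m7168_m6144_26624_27136)
  (.cell d_m7168_m6144_27136_27648 (by decide +kernel) f_m7168_m6144_27136_27648))
  (.sF 28160 (.cell d_m7168_m6144_27648_28160 (by decide +kernel) f_m7168_m6144_27648_28160)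
  (.cell d_m7168_m6144_28160_28672 (by decide +kernel) f_m7168_m6144_28160_28672)))))
  (.exc (by decide)))
  (.exc (by decide)))
  (.exc (by decide))))

theorem TreeA_m16384_0_16384_32768 : Cov exA (-16384) 0 16384 32768 :=
  (.sD (-8192) TreeA_m16384_m8192_16384_32768
  TreeA_m8192_0_16384_32768)

theorem TreeA_m16384_0_0_32768 : Cov exA (-16384) 0 0 32768 :=
  (.sF 16384 TreeA_m16384_0_0_16384
  TreeA_m16384_0_16384_32768)

theorem TreeA_m32768_0_0_32768 : Cov exA (-32768) 0 0 32768 :=
  (.sD (-16384) TreeA_m32768_m16384_0_32768
  TreeA_m16384_0_0_32768)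

theorem TreeA_m32768_m16384_32768_65536 : Cov exA (-32768) (-16384) 32768 65536 :=
  (.sF 49152 (.sD (-24576) (.sF 40960 (.sD (-28672) (.exc (by decide))
  (.sF 36864 (.exc (by decide))
  (.sD (-26624) (.sF 38912 (.cell d_m28672_m26624_36864_38912 (by decide +kernel) f_m28672_m26624_36864_38912)
  (.cell d_m28672_m26624_38912_40960 (by decide +kernel) f_m28672_m26624_38912_40960))
  (.sF 38912 (.cell d_m26624_m24576_36864_38912 (by decide +kernel) f_m26624_m24576_36864_38912)
  (.cell d_m26624_m24576_38912_40960 (by decide +kernel) f_m26624_m24576_38912_40960)))))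
  (.sD (-28672) (.exc (by decide))
  (.sF 45056 (.cell d_m28672_m24576_40960_45056 (by decide +kernel) f_m28672_m24576_40960_45056)
  (.cell d_m28672_m24576_45056_49152 (by decide +kernel) f_m28672_m24576_45056_49152))))
  (.sF 40960 (.sD (-20480) (.sF 36864 (.exc (by decide))
  (.sF 38912 (.cell d_m24576_m20480_36864_38912 (by decide +kernel) f_m24576_m20480_36864_38912)
  (.cell d_m24576_m20480_38912_40960 (by decide +kernel) f_m24576_m20480_38912_40960)))
  (.sF 36864 (.exc (by decide))
  (.sF 38912 (.cell d_m20480_m16384_36864_38912 (by decide +kernel) f_m20480_m16384_36864_38912)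
  (.cell d_m20480_m16384_38912_40960 (by decide +kernel) f_m20480_m16384_38912_40960))))
  (.sD (-20480) (.sF 45056 (.cell d_m24576_m20480_40960_45056 (by decide +kernel) f_m24576_m20480_40960_45056)
  (.cell d_m24576_m20480_45056_49152 (by decide +kernel) f_m24576_m20480_45056_49152))
  (.sF 45056 (.cell d_m20480_m16384_40960_45056 (by decide +kernel) f_m20480_m16384_40960_45056)
  (.cell d_m20480_m16384_45056_49152 (by decide +kernel) f_m20480_m16384_45056_49152)))))
  (.sD (-24576) (.sF 57344 (.sD (-28672) (.exc (by decide))
  (.sF 53248 (.cell d_m28672_m24576_49152_53248 (by decide +kernel) f_m28672_m24576_49152_53248)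
  (.sF 55296 (.cell d_m28672_m24576_53248_55296 (by decide +kernel) f_m28672_m24576_53248_55296)
  (.cell d_m28672_m24576_55296_57344 (by decide +kernel) f_m28672_m24576_55296_57344))))
  (.sD (-28672) (.exc (by decide))
  (.sF 61440 (.sF 59392 (.cell d_m28672_m24576_57344_59392 (by decide +kernel) f_m28672_m24576_57344_59392)
  (.sF 60416 (.cell d_m28672_m24576_59392_60416 (by decide +kernel) f_m28672_m24576_59392_60416)
  (.cell d_m28672_m24576_60416_61440 (by decide +kernel) f_m28672_m24576_60416_61440)))
  (.exc (by decide)))))
  (.sF 57344 (.sD (-20480) (.sF 53248 (.cell d_m24576_m20480_49152_53248 (by decide +kernel) f_m24576_m20480_49152_53248)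
  (.sF 55296 (.cell d_m24576_m20480_53248_55296 (by decide +kernel) f_m24576_m20480_53248_55296)
  (.cell d_m24576_m20480_55296_57344 (by decide +kernel) f_m24576_m20480_55296_57344)))
  (.sF 53248 (.cell d_m20480_m16384_49152_53248 (by decide +kernel) f_m20480_m16384_49152_53248)
  (.sF 55296 (.cell d_m20480_m16384_53248_55296 (by decide +kernel) f_m20480_m16384_53248_55296)
  (.cell d_m20480_m16384_55296_57344 (by decide +kernel) f_m20480_m16384_55296_57344))))
  (.sD (-20480) (.sF 61440 (.sF 59392 (.cell d_m24576_m20480_57344_59392 (by decide +kernel) f_m24576_m20480_57344_59392)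
  (.sF 60416 (.cell d_m24576_m20480_59392_60416 (by decide +kernel) f_m24576_m20480_59392_60416)
  (.cell d_m24576_m20480_60416_61440 (by decide +kernel) f_m24576_m20480_60416_61440)))
  (.exc (by decide)))
  (.sF 61440 (.sF 59392 (.cell d_m20480_m16384_57344_59392 (by decide +kernel) f_m20480_m16384_57344_59392)
  (.cell d_m20480_m16384_59392_61440 (by decide +kernel) f_m20480_m16384_59392_61440))
  (.exc (by decide)))))))

theorem TreeA_m16384_0_49152_65536 : Cov exA (-16384) 0 49152 65536 :=
  (.sD (-8192) (.sF 57344 (.sD (-12288) (.sF 53248 (.cell d_m16384_m12288_49152_53248 (by decide +kernel) f_m16384_m12288_49152_53248)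
  (.sF 55296 (.cell d_m16384_m12288_53248_55296 (by decide +kernel) f_m16384_m12288_53248_55296)
  (.cell d_m16384_m12288_55296_57344 (by decide +kernel) f_m16384_m12288_55296_57344)))
  (.sF 53248 (.sF 51200 (.cell d_m12288_m8192_49152_51200 (by decide +kernel) f_m12288_m8192_49152_51200)
  (.cell d_m12288_m8192_51200_53248 (by decide +kernel) f_m12288_m8192_51200_53248))
  (.sF 55296 (.cell d_m12288_m8192_53248_55296 (by decide +kernel) f_m12288_m8192_53248_55296)
  (.cell d_m12288_m8192_55296_57344 (by decide +kernel) f_m12288_m8192_55296_57344))))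
  (.sD (-12288) (.sF 61440 (.sF 59392 (.cell d_m16384_m12288_57344_59392 (by decide +kernel) f_m16384_m12288_57344_59392)
  (.sF 60416 (.cell d_m16384_m12288_59392_60416 (by decide +kernel) f_m16384_m12288_59392_60416)
  (.cell d_m16384_m12288_60416_61440 (by decide +kernel) f_m16384_m12288_60416_61440)))
  (.exc (by decide)))
  (.sF 61440 (.sF 59392 (.cell d_m12288_m8192_57344_59392 (by decide +kernel) f_m12288_m8192_57344_59392)
  (.sF 60416 (.cell d_m12288_m8192_59392_60416 (by decide +kernel) f_m12288_m8192_59392_60416)
  (.cell d_m12288_m8192_60416_61440 (by decide +kernel) f_m12288_m8192_60416_61440)))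
  (.exc (by decide)))))
  (.sF 57344 (.sD (-4096) (.sF 53248 (.sD (-6144) (.cell d_m8192_m6144_49152_53248 (by decide +kernel) f_m8192_m6144_49152_53248)
  (.exc (by decide)))
  (.sD (-6144) (.sF 55296 (.cell d_m8192_m6144_53248_55296 (by decide +kernel) f_m8192_m6144_53248_55296)
  (.cell d_m8192_m6144_55296_57344 (by decide +kernel) f_m8192_m6144_55296_57344))
  (.exc (by decide))))
  (.exc (by decide)))
  (.sD (-4096) (.sF 61440 (.sD (-6144) (.sF 59392 (.cell d_m8192_m6144_57344_59392 (by decide +kernel) f_m8192_m6144_57344_59392)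
  (.sF 60416 (.cell d_m8192_m6144_59392_60416 (by decide +kernel) f_m8192_m6144_59392_60416)
  (.cell d_m8192_m6144_60416_61440 (by decide +kernel) f_m8192_m6144_60416_61440)))
  (.exc (by decide)))
  (.exc (by decide)))
  (.exc (by decide)))))

theorem TreeA_m16384_0_32768_65536 : Cov exA (-16384) 0 32768 65536 :=
  (.sF 49152 (.sD (-8192) (.sF 40960 (.sD (-12288) (.sF 36864 (.exc (by decide))
  (.sF 38912 (.cell d_m16384_m12288_36864_38912 (by decide +kernel) f_m16384_m12288_36864_38912)
  (.cell d_m16384_m12288_38912_40960 (by decide +kernel) f_m16384_m12288_38912_40960)))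
  (.sF 36864 (.exc (by decide))
  (.sD (-10240) (.sF 38912 (.cell d_m12288_m10240_36864_38912 (by decide +kernel) f_m12288_m10240_36864_38912)
  (.cell d_m12288_m10240_38912_40960 (by decide +kernel) f_m12288_m10240_38912_40960))
  (.sF 38912 (.cell d_m10240_m8192_36864_38912 (by decide +kernel) f_m10240_m8192_36864_38912)
  (.cell d_m10240_m8192_38912_40960 (by decide +kernel) f_m10240_m8192_38912_40960)))))
  (.sD (-12288) (.sF 45056 (.cell d_m16384_m12288_40960_45056 (by decide +kernel) f_m16384_m12288_40960_45056)
  (.cell d_m16384_m12288_45056_49152 (by decide +kernel) f_m16384_m12288_45056_49152))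
  (.sF 45056 (.sF 43008 (.cell d_m12288_m8192_40960_43008 (by decide +kernel) f_m12288_m8192_40960_43008)
  (.cell d_m12288_m8192_43008_45056 (by decide +kernel) f_m12288_m8192_43008_45056))
  (.sF 47104 (.cell d_m12288_m8192_45056_47104 (by decide +kernel) f_m12288_m8192_45056_47104)
  (.cell d_m12288_m8192_47104_49152 (by decide +kernel) f_m12288_m8192_47104_49152)))))
  (.sF 40960 (.sD (-4096) (.sF 36864 (.exc (by decide))
  (.sD (-6144) (.sF 38912 (.cell d_m8192_m6144_36864_38912 (by decide +kernel) f_m8192_m6144_36864_38912)
  (.cell d_m8192_m6144_38912_40960 (by decide +kernel) f_m8192_m6144_38912_40960))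
  (.exc (by decide))))
  (.exc (by decide)))
  (.sD (-4096) (.sF 45056 (.sD (-6144) (.cell d_m8192_m6144_40960_45056 (by decide +kernel) f_m8192_m6144_40960_45056)
  (.exc (by decide)))
  (.sD (-6144) (.cell d_m8192_m6144_45056_49152 (by decide +kernel) f_m8192_m6144_45056_49152)
  (.exc (by decide))))
  (.exc (by decide)))))
  TreeA_m16384_0_49152_65536)

theorem TreeA_m32768_0_32768_65536 : Cov exA (-32768) 0 32768 65536 :=
  (.sD (-16384) TreeA_m32768_m16384_32768_65536
  TreeA_m16384_0_32768_65536)

theorem TreeA_m32768_0_0_65536 : Cov exA (-32768) 0 0 65536 :=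
  (.sF 32768 TreeA_m32768_0_0_32768
  TreeA_m32768_0_32768_65536)

theorem TreeA_m65536_0_0_65536 : Cov exA (-65536) 0 0 65536 :=
  (.sD (-32768) TreeA_m65536_m32768_0_65536
  TreeA_m32768_0_0_65536)

theorem TreeA_0_16384_0_32768 : Cov exA 0 16384 0 32768 :=
  (.sF 16384 (.sD 8192 (.sF 8192 (.sD 4096 (.exc (by decide))
  (.sF 4096 (.sD 6144 (.exc (by decide))
  (.cell d_6144_8192_0_4096 (by decide +kernel) f_6144_8192_0_4096))
  (.sD 6144 (.exc (by decide))
  (.cell d_6144_8192_4096_8192 (by decide +kernel) f_6144_8192_4096_8192))))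
  (.sD 4096 (.exc (by decide))
  (.sD 6144 (.exc (by decide))
  (.sF 12288 (.cell d_6144_8192_8192_12288 (by decide +kernel) f_6144_8192_8192_12288)
  (.cell d_6144_8192_12288_16384 (by decide +kernel) f_6144_8192_12288_16384)))))
  (.sF 8192 (.sD 12288 (.sD 10240 (.sF 4096 (.sF 2048 (.cell d_8192_10240_0_2048 (by decide +kernel) f_8192_10240_0_2048)
  (.cell d_8192_10240_2048_4096 (by decide +kernel) f_8192_10240_2048_4096))
  (.cell d_8192_10240_4096_8192 (by decide +kernel) f_8192_10240_4096_8192))
  (.cell d_10240_12288_0_8192 (by decide +kernel) f_10240_12288_0_8192))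
  (.cell d_12288_16384_0_8192 (by decide +kernel) f_12288_16384_0_8192))
  (.sD 12288 (.cell d_8192_12288_8192_16384 (by decide +kernel) f_8192_12288_8192_16384)
  (.sF 12288 (.cell d_12288_16384_8192_12288 (by decide +kernel) f_12288_16384_8192_12288)
  (.cell d_12288_16384_12288_16384 (by decide +kernel) f_12288_16384_12288_16384)))))
  (.sD 8192 (.sF 24576 (.sD 4096 (.exc (by decide))
  (.sD 6144 (.exc (by decide))
  (.cell d_6144_8192_16384_24576 (by decide +kernel) f_6144_8192_16384_24576)))
  (.sD 4096 (.exc (by decide))
  (.sD 6144 (.exc (by decide))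
  (.cell d_6144_8192_24576_32768 (by decide +kernel) f_6144_8192_24576_32768))))
  (.sD 12288 (.sF 24576 (.cell d_8192_12288_16384_24576 (by decide +kernel) f_8192_12288_16384_24576)
  (.cell d_8192_12288_24576_32768 (by decide +kernel) f_8192_12288_24576_32768))
  (.cell d_12288_16384_16384_32768 (by decide +kernel) f_12288_16384_16384_32768))))

theorem TreeA_0_32768_0_32768 : Cov exA 0 32768 0 32768 :=
  (.sD 16384 TreeA_0_16384_0_32768
  (.sF 16384 (.sD 24576 (.sD 20480 (.cell d_16384_20480_0_16384 (by decide +kernel) f_16384_20480_0_16384)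
  (.cell d_20480_24576_0_16384 (by decide +kernel) f_20480_24576_0_16384))
  (.cell d_24576_32768_0_16384 (by decide +kernel) f_24576_32768_0_16384))
  (.sD 24576 (.sD 20480 (.cell d_16384_20480_16384_32768 (by decide +kernel) f_16384_20480_16384_32768)
  (.cell d_20480_24576_16384_32768 (by decide +kernel) f_20480_24576_16384_32768))
  (.cell d_24576_32768_16384_32768 (by decide +kernel) f_24576_32768_16384_32768))))

theorem TreeA_0_32768_0_65536 : Cov exA 0 32768 0 65536 :=
  (.sF 32768 TreeA_0_32768_0_32768
  (.sD 16384 (.sF 49152 (.sD 8192 (.sF 40960 (.sD 4096 (.exc (by decide))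
  (.sD 6144 (.exc (by decide))
  (.sD 7168 (.cell d_6144_7168_32768_40960 (by decide +kernel) f_6144_7168_32768_40960)
  (.cell d_7168_8192_32768_40960 (by decide +kernel) f_7168_8192_32768_40960))))
  (.sD 4096 (.exc (by decide))
  (.sD 6144 (.exc (by decide))
  (.cell d_6144_8192_40960_49152 (by decide +kernel) f_6144_8192_40960_49152))))
  (.sD 12288 (.cell d_8192_12288_32768_49152 (by decide +kernel) f_8192_12288_32768_49152)
  (.cell d_12288_16384_32768_49152 (by decide +kernel) f_12288_16384_32768_49152)))
  (.sD 8192 (.sF 57344 (.sD 4096 (.exc (by decide))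
  (.sD 6144 (.exc (by decide))
  (.cell d_6144_8192_49152_57344 (by decide +kernel) f_6144_8192_49152_57344)))
  (.sD 4096 (.exc (by decide))
  (.cell d_4096_8192_57344_65536 (by decide +kernel) f_4096_8192_57344_65536)))
  (.cell d_8192_16384_49152_65536 (by decide +kernel) f_8192_16384_49152_65536)))
  (.sF 49152 (.sD 24576 (.cell d_16384_24576_32768_49152 (by decide +kernel) f_16384_24576_32768_49152)
  (.cell d_24576_32768_32768_49152 (by decide +kernel) f_24576_32768_32768_49152))
  (.sD 24576 (.cell d_16384_24576_49152_65536 (by decide +kernel) f_16384_24576_49152_65536)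
  (.cell d_24576_32768_49152_65536 (by decide +kernel) f_24576_32768_49152_65536)))))

theorem TreeA_0_65536_0_65536 : Cov exA 0 65536 0 65536 :=
  (.sD 32768 TreeA_0_32768_0_65536
  (.sF 32768 (.sD 49152 (.sD 40960 (.sF 16384 (.cell d_32768_40960_0_16384 (by decide +kernel) f_32768_40960_0_16384)
  (.cell d_32768_40960_16384_32768 (by decide +kernel) f_32768_40960_16384_32768))
  (.cell d_40960_49152_0_32768 (by decide +kernel) f_40960_49152_0_32768))
  (.cell d_49152_65536_0_32768 (by decide +kernel) f_49152_65536_0_32768))
  (.sD 49152 (.cell d_32768_49152_32768_65536 (by decide +kernel) f_32768_49152_32768_65536)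
  (.cell d_49152_65536_32768_65536 (by decide +kernel) f_49152_65536_32768_65536))))

end Pool.Agent.Lib.MP_d6150d_an
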