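import Pool.Agent.Lib.MP_d6150d_an.Blue2
import Pool.Agent.Lib.MP_d6150d_an.TreeA

/-! From the pieces to the whole plane. -/

namespace Pool.Agent.Lib.MP_d6150d_an

theorem plane_of (Zp : St_Zp) (Zm : St_Zm) (S7 : St_S7) (S10 : St_S10) (S1 : St_S1) (S2 : St_S2)
    (P : St_P) (W : St_W) (BC : St_BC) (U : St_U) (X : St_X) (Z2 : St_Z2) (Z3 : St_Z3)
    (S6 : St_S6) (S8 : St_S8) (D F : ℝ) : NoThree D F ∨
    (D = 0 ∧ F = 1) ∨ (D = -1 / 2 ∧ F = 2) ∨ (D = 0 ∧ F = 1 / 4) ∨ (D = -1 / 2 ∧ F = 1 / 2) := by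
  by_cases h : StripA D F
  · exact strip_pts Zp Zm S7 S10 S1 S2 P W BC U X Z2 Z3 S6 S8 h
  · exact Or.inl (regA_of TreeA_m262144_m131072_65536_196608 TreeA_m131072_m65536_65536_131072
      TreeA_m196608_m65536_131072_262144 TreeA_m65536_m32768_131072_262144
      TreeA_m65536_0_65536_131072 TreeA_m65536_0_0_65536 TreeA_0_65536_0_65536 h)

end Pool.Agent.Lib.MP_d6150d_an
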