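import Pool.Agent.Lib.MP_d6150d_an.UXJ

/-! The first order expansion of a normal form. -/

namespace Pool.Agent.Lib.MP_d6150d_an.UX

variable {D F q p c : ℝ → ℝ} {D1 F1 q0 q1 c0 c1 : ℝ}

set_option linter.unusedTactic false
set_option linter.unreachableTactic false
set_option linter.unnecessarySeqFocus false

theorem fL_J (hD : J D (-1 / 2) D1) (hF : J F (1 / 2) F1) (hq : J q q0 q1) (hc : J c c0 c1)
    (hp : J p 1 (2 * F1 * c0)) (h0 : 0 ≤ q0) (h1 : q0 < 1) :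
    J (fun x ↦ fL (D x) (F x) (q x) (p x) (c x)) 0 ((D1 + F1) * Ph q0 c0) := by
  have h2 : 0 < 1 + q0 := by linarith
  have h3 : 0 < 1 - q0 := by linarith
  have h4 := h2.ne'
  have h5 := h3.ne'
  rw [Ph]
  have W0 : J _ ((1 / 2) * (1 + q0) * (1 - q0)) (-D1 - q0 * q1 + 2 * q0 * D1 - q0 ^ 2 * D1) :=
    ((hD.neg.add (((J.cst 1).add ((J.cst 2).mul hD)).mul hq)).sub (((J.cst 1).add hD).mul (hq.pw
    1))).cast
    (by first | (field_simp; ring1) | field_simp | (push_cast; ring1))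
    (by first | (field_simp; ring1) | field_simp | (push_cast; ring1))
  have W : J _ ((2) / ((1 + q0) * (1 - q0))) ((4 * D1 + 4 * q0 * q1 - 8 * q0 * D1 + 4 * q0 ^ 2 * D1)
    / ((1 + q0) ^ 2 * (1 - q0) ^ 2)) := (W0.inv (by positivity)).cast
    (by first | (field_simp; ring1) | field_simp | (push_cast; ring1))
    (by first | (field_simp; ring1) | field_simp | (push_cast; ring1))
  have i0 : J _ (1 / 2) (F1) := hF.cast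
    (by first | (field_simp; ring1) | field_simp | (push_cast; ring1))
    (by first | (field_simp; ring1) | field_simp | (push_cast; ring1))
  have e : J _ ((2 * q0) / (1 + q0)) ((2 * q1 - 2 * q0 * q1 - 4 * q0 * F1 + 4 * q0 * F1 * c0 + 8 *
    q0 * D1 - 4 * q0 * D1 * c0 + 4 * q0 ^ 2 * F1 * c0 - 8 * q0 ^ 2 * D1 - 4 * q0 ^ 2 * D1 * c0 + 4 *
    q0 ^ 3 * F1) / ((1 + q0) ^ 2 * (1 - q0))) := ((hq.mul (((((J.cst 1).add hD).mul (i0.inv (by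
    positivity))).mul (hp.sub hq)).sub (((J.cst 1).add ((J.cst 2).mul hD)).mul hc))).mul W).cast
    (by first | (field_simp; ring1) | field_simp | (push_cast; ring1))
    (by first | (field_simp; ring1) | field_simp | (push_cast; ring1))
  have j0 : J _ (1 / 2) (-F1) := ((J.cst 1).sub hF).cast
    (by first | (field_simp; ring1) | field_simp | (push_cast; ring1))
    (by first | (field_simp; ring1) | field_simp | (push_cast; ring1))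
  have u : J _ ((2) * (1 - q0) / (1 + q0)) ((-4 * q1 + 4 * F1 + 4 * q0 * q1 + 4 * q0 * F1 - 8 * q0 *
    F1 * c0 - 16 * q0 * D1 + 8 * q0 * D1 * c0 - 4 * q0 ^ 2 * F1 - 8 * q0 ^ 2 * F1 * c0 + 16 * q0 ^ 2
    * D1 + 8 * q0 ^ 2 * D1 * c0 - 4 * q0 ^ 3 * F1) / ((1 + q0) ^ 2 * (1 - q0))) := (((J.cst 1).sub
    e).mul (j0.inv (by positivity))).cast
    (by first | (field_simp; ring1) | field_simp | (push_cast; ring1))
    (by first | (field_simp; ring1) | field_simp | (push_cast; ring1))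
  have m : J _ ((-1) * (1 - q0) / (1 + q0)) ((2 * q1 - 4 * F1 - 2 * q0 * q1 + 4 * q0 * F1 * c0 + 8 *
    q0 * D1 - 4 * q0 * D1 * c0 + 4 * q0 ^ 2 * F1 + 4 * q0 ^ 2 * F1 * c0 - 8 * q0 ^ 2 * D1 - 4 * q0 ^
    2 * D1 * c0) / ((1 + q0) ^ 2 * (1 - q0))) := (hF.mul u).neg.cast
    (by first | (field_simp; ring1) | field_simp | (push_cast; ring1))
    (by first | (field_simp; ring1) | field_simp | (push_cast; ring1))
  have u0 : J _ ((2) * (1 - q0) / (1 + q0)) ((-4 * q1 + 4 * F1 + 4 * q0 * q1 + 4 * q0 * F1 - 8 * q0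
    * F1 * c0 - 16 * q0 * D1 + 8 * q0 * D1 * c0 - 4 * q0 ^ 2 * F1 - 8 * q0 ^ 2 * F1 * c0 + 16 * q0 ^
    2 * D1 + 8 * q0 ^ 2 * D1 * c0 - 4 * q0 ^ 3 * F1) / ((1 + q0) ^ 2 * (1 - q0))) := u.cast
    (by first | (field_simp; ring1) | field_simp | (push_cast; ring1))
    (by first | (field_simp; ring1) | field_simp | (push_cast; ring1))
  have N : J _ (1 / (1 - q0) ^ 2) ((2 * q1 - 2 * F1 + 2 * D1 - 2 * q0 * q1 + 4 * q0 * F1 * c0 - 4 *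
    q0 * D1 * c0 + 2 * q0 ^ 2 * F1 - 2 * q0 ^ 2 * D1) / (1 - q0) ^ 4) := ((u0.inv (by
    positivity)).mul W).cast
    (by first | (field_simp; ring1) | field_simp | (push_cast; ring1))
    (by first | (field_simp; ring1) | field_simp | (push_cast; ring1))
  have n : J _ ((q0) / (1 - q0) ^ 2) ((q1 - 2 * q0 * F1 + 2 * q0 * F1 * c0 + 2 * q0 * D1 - q0 ^ 2 *
    q1 - 4 * q0 ^ 2 * D1 * c0 + 2 * q0 ^ 3 * F1 + 2 * q0 ^ 3 * F1 * c0 - 2 * q0 ^ 3 * D1) / (1 - q0)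
    ^ 4) := ((hq.mul hp).mul N).cast
    (by first | (field_simp; ring1) | field_simp | (push_cast; ring1))
    (by first | (field_simp; ring1) | field_simp | (push_cast; ring1))
  have r0 : J _ (((1 + q0) / (1 - q0)) ^ 2) ((4 * q1 - 8 * q0 * F1 + 8 * q0 * F1 * c0 + 8 * q0 * D1
    - 4 * q0 ^ 2 * q1 - 16 * q0 ^ 2 * D1 * c0 + 8 * q0 ^ 3 * F1 + 8 * q0 ^ 3 * F1 * c0 - 8 * q0 ^ 3
    * D1) / (1 - q0) ^ 4) := ((J.cst 1).add ((J.cst 4).mul n)).cast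
    (by first | (field_simp; ring1) | field_simp | (push_cast; ring1))
    (by first | (field_simp; ring1) | field_simp | (push_cast; ring1))
  have r : J _ ((1 - q0) / (1 + q0)) ((-2 * q1 + 4 * q0 * F1 - 4 * q0 * F1 * c0 - 4 * q0 * D1 + 2 *
    q0 ^ 2 * q1 + 8 * q0 ^ 2 * D1 * c0 - 4 * q0 ^ 3 * F1 - 4 * q0 ^ 3 * F1 * c0 + 4 * q0 ^ 3 * D1) /
    ((1 + q0) ^ 3 * (1 - q0))) := (r0.rsq (by positivity)).cast
    (by first | (field_simp; ring1) | field_simp | (push_cast; ring1))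
    (by first | (field_simp; ring1) | field_simp | (push_cast; ring1))
  have g0 : J _ ((1 / (1 - q0)) ^ 2) ((2 * q1 - 2 * F1 + 2 * D1 - 2 * q0 * q1 + 4 * q0 * F1 * c0 - 4
    * q0 * D1 * c0 + 2 * q0 ^ 2 * F1 - 2 * q0 ^ 2 * D1) / (1 - q0) ^ 4) := N.cast
    (by first | (field_simp; ring1) | field_simp | (push_cast; ring1))
    (by first | (field_simp; ring1) | field_simp | (push_cast; ring1))
  have g : J _ ((1 - q0)) ((-q1 + F1 - D1 + q0 * q1 - 2 * q0 * F1 * c0 + 2 * q0 * D1 * c0 - q0 ^ 2 *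
    F1 + q0 ^ 2 * D1) / (1 - q0)) := (g0.rsq (by positivity)).cast
    (by first | (field_simp; ring1) | field_simp | (push_cast; ring1))
    (by first | (field_simp; ring1) | field_simp | (push_cast; ring1))
  have a : J _ (0) (0) := ((hF.mul (((J.cst 640).mul (((((((((((J.cst 4).sub ((J.cst 57).mul
    hF)).sub ((J.cst 6).mul hD)).add ((J.cst 156).mul (hF.pw 1))).add (((J.cst 102).mul hD).mul
    hF)).sub ((J.cst 60).mul (hD.pw 1))).sub ((J.cst 103).mul (hF.pw 2))).sub (((J.cst 312).mul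
    hD).mul (hF.pw 1))).sub (((J.cst 480).mul (hD.pw 1)).mul hF)).sub ((J.cst 320).mul (hD.pw
    2))).dvc 1080)).add ((J.cst 48).mul ((((J.cst 1).sub hF).sub ((J.cst 2).mul hD)).dvc 6)))).sub
    (J.cst 1)).cast
    (by first | (field_simp; ring1) | field_simp | (push_cast; ring1))
    (by first | (field_simp; ring1) | field_simp | (push_cast; ring1))
  have l : J _ ((2 * q0) / (1 + q0)) ((2 * q1 - 4 * F1 - 2 * q0 * q1 + 4 * q0 * F1 * c0 + 8 * q0 *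
    D1 - 4 * q0 * D1 * c0 + 4 * q0 ^ 2 * F1 + 4 * q0 ^ 2 * F1 * c0 - 8 * q0 ^ 2 * D1 - 4 * q0 ^ 2 *
    D1 * c0) / ((1 + q0) ^ 2 * (1 - q0))) := ((J.cst 1).add m).cast
    (by first | (field_simp; ring1) | field_simp | (push_cast; ring1))
    (by first | (field_simp; ring1) | field_simp | (push_cast; ring1))
  have A : J _ (0) ((-8 * q0 * D1) / (1 + q0) ^ 2) := ((hq.mul ((J.cst 1).add ((J.cst 2).mul
    hD))).mul (u.mul W)).neg.cast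
    (by first | (field_simp; ring1) | field_simp | (push_cast; ring1))
    (by first | (field_simp; ring1) | field_simp | (push_cast; ring1))
  have B : J _ ((-2 * q0 ^ 2) / (1 + q0) ^ 2) ((-4 * q0 * q1 + 8 * q0 ^ 2 * q1 - 4 * q0 ^ 2 * F1 - 8
    * q0 ^ 2 * D1 - 4 * q0 ^ 3 * q1 - 4 * q0 ^ 3 * F1 + 8 * q0 ^ 3 * F1 * c0 + 32 * q0 ^ 3 * D1 - 8
    * q0 ^ 3 * D1 * c0 + 4 * q0 ^ 4 * F1 + 8 * q0 ^ 4 * F1 * c0 - 24 * q0 ^ 4 * D1 - 8 * q0 ^ 4 * D1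
    * c0 + 4 * q0 ^ 5 * F1) / ((1 + q0) ^ 3 * (1 - q0) ^ 2)) := (((hq.mul hq).mul ((J.cst 1).add
    hD)).mul (u.mul W)).neg.cast
    (by first | (field_simp; ring1) | field_simp | (push_cast; ring1))
    (by first | (field_simp; ring1) | field_simp | (push_cast; ring1))
  have o : J _ ((32 * q0 ^ 2) / (1 - q0) ^ 5) ((64 * q0 * q1 + 32 * q0 ^ 2 * q1 - 96 * q0 ^ 2 * F1 +
    192 * q0 ^ 2 * F1 * c0 + 160 * q0 ^ 2 * D1 - 96 * q0 ^ 3 * q1 - 128 * q0 ^ 3 * F1 - 64 * q0 ^ 3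
    * F1 * c0 - 320 * q0 ^ 3 * D1 * c0 + 224 * q0 ^ 4 * F1 + 192 * q0 ^ 4 * F1 * c0 - 160 * q0 ^ 4 *
    D1) / (1 - q0) ^ 7) := (((((n.mul n).mul hp).mul N).mul g).mul (((J.cst 64).mul hF).sub
    ((((J.cst 32).mul a).mul n).mul (r.pw 4)))).cast
    (by first | (field_simp; ring1) | field_simp | (push_cast; ring1))
    (by first | (field_simp; ring1) | field_simp | (push_cast; ring1))
  have zL : J _ ((4 * q0 ^ 2) / (1 + q0) ^ 2) ((8 * q0 * q1 - 8 * q0 * D1 - 16 * q0 ^ 2 * q1 + 8 *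
    q0 ^ 2 * F1 + 24 * q0 ^ 2 * D1 + 8 * q0 ^ 3 * q1 + 8 * q0 ^ 3 * F1 - 16 * q0 ^ 3 * F1 * c0 - 56
    * q0 ^ 3 * D1 + 16 * q0 ^ 3 * D1 * c0 - 8 * q0 ^ 4 * F1 - 16 * q0 ^ 4 * F1 * c0 + 40 * q0 ^ 4 *
    D1 + 16 * q0 ^ 4 * D1 * c0 - 8 * q0 ^ 5 * F1) / ((1 + q0) ^ 3 * (1 - q0) ^ 2)) := (A.sub ((J.cst
    2).mul B)).cast
    (by first | (field_simp; ring1) | field_simp | (push_cast; ring1))
    (by first | (field_simp; ring1) | field_simp | (push_cast; ring1))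
  have zl : J _ ((4 * q0) / (1 + q0) ^ 2) ((4 * q1 - 12 * q0 * q1 - 8 * q0 * F1 + 8 * q0 * F1 * c0 +
    24 * q0 * D1 - 8 * q0 * D1 * c0 + 12 * q0 ^ 2 * q1 - 8 * q0 ^ 2 * F1 + 8 * q0 ^ 2 * F1 * c0 - 40
    * q0 ^ 2 * D1 - 8 * q0 ^ 2 * D1 * c0 - 4 * q0 ^ 3 * q1 + 8 * q0 ^ 3 * F1 + 8 * q0 ^ 3 * F1 * c0
    + 40 * q0 ^ 3 * D1 - 8 * q0 ^ 3 * D1 * c0 + 8 * q0 ^ 4 * F1 + 8 * q0 ^ 4 * F1 * c0 - 24 * q0 ^ 4
    * D1 - 8 * q0 ^ 4 * D1 * c0) / ((1 + q0) ^ 3 * (1 - q0) ^ 2)) := (((J.cst 2).mul e).sub ((J.cst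
    1).mul zL)).cast
    (by first | (field_simp; ring1) | field_simp | (push_cast; ring1))
    (by first | (field_simp; ring1) | field_simp | (push_cast; ring1))
  have za : J _ ((-2) * (1 - q0) ^ 2 / (1 + q0) ^ 2) ((8 * q1 - 4 * F1 - 24 * q0 * q1 - 12 * q0 * F1
    + 16 * q0 * F1 * c0 + 48 * q0 * D1 - 16 * q0 * D1 * c0 + 24 * q0 ^ 2 * q1 - 8 * q0 ^ 2 * F1 + 16
    * q0 ^ 2 * F1 * c0 - 80 * q0 ^ 2 * D1 - 16 * q0 ^ 2 * D1 * c0 - 8 * q0 ^ 3 * q1 + 8 * q0 ^ 3 *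
    F1 + 16 * q0 ^ 3 * F1 * c0 + 80 * q0 ^ 3 * D1 - 16 * q0 ^ 3 * D1 * c0 + 12 * q0 ^ 4 * F1 + 16 *
    q0 ^ 4 * F1 * c0 - 48 * q0 ^ 4 * D1 - 16 * q0 ^ 4 * D1 * c0 + 4 * q0 ^ 5 * F1) / ((1 + q0) ^ 3 *
    (1 - q0) ^ 2)) := ((((J.cst 1).mul zl).sub u).sub (((J.cst 1).mul (J.cst 1)).mul zL)).cast
    (by first | (field_simp; ring1) | field_simp | (push_cast; ring1))
    (by first | (field_simp; ring1) | field_simp | (push_cast; ring1))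
  have zb : J _ ((-4) * (1 - q0) / (1 + q0) ^ 2) ((12 * q1 - 8 * F1 - 28 * q0 * q1 - 16 * q0 * F1 +
    24 * q0 * F1 * c0 + 64 * q0 * D1 - 24 * q0 * D1 * c0 + 20 * q0 ^ 2 * q1 + 24 * q0 ^ 2 * F1 * c0
    - 96 * q0 ^ 2 * D1 - 24 * q0 ^ 2 * D1 * c0 - 4 * q0 ^ 3 * q1 + 16 * q0 ^ 3 * F1 + 8 * q0 ^ 3 *
    F1 * c0 + 64 * q0 ^ 3 * D1 - 8 * q0 ^ 3 * D1 * c0 + 8 * q0 ^ 4 * F1 + 8 * q0 ^ 4 * F1 * c0 - 32
    * q0 ^ 4 * D1 - 8 * q0 ^ 4 * D1 * c0) / ((1 + q0) ^ 3 * (1 - q0) ^ 2)) := (za.sub u).cast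
    (by first | (field_simp; ring1) | field_simp | (push_cast; ring1))
    (by first | (field_simp; ring1) | field_simp | (push_cast; ring1))
  have zr : J _ ((16 * q0 ^ 2) * (1 - q0) / (1 + q0) ^ 4) ((32 * q0 * q1 - 16 * q0 * D1 - 144 * q0 ^
    2 * q1 + 64 * q0 ^ 2 * F1 + 112 * q0 ^ 2 * D1 + 208 * q0 ^ 3 * q1 + 64 * q0 ^ 3 * F1 - 160 * q0
    ^ 3 * F1 * c0 - 608 * q0 ^ 3 * D1 + 160 * q0 ^ 3 * D1 * c0 - 112 * q0 ^ 4 * q1 - 64 * q0 ^ 4 *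
    F1 - 96 * q0 ^ 4 * F1 * c0 + 800 * q0 ^ 4 * D1 + 96 * q0 ^ 4 * D1 * c0 + 16 * q0 ^ 5 * q1 - 64 *
    q0 ^ 5 * F1 + 32 * q0 ^ 5 * F1 * c0 - 400 * q0 ^ 5 * D1 - 32 * q0 ^ 5 * D1 * c0 - 32 * q0 ^ 6 *
    F1 * c0 + 112 * q0 ^ 6 * D1 + 32 * q0 ^ 6 * D1 * c0) / ((1 + q0) ^ 5 * (1 - q0) ^ 2)) :=
    ((((J.cst 2).mul B).mul zb).sub (A.mul za)).cast
    (by first | (field_simp; ring1) | field_simp | (push_cast; ring1))
    (by first | (field_simp; ring1) | field_simp | (push_cast; ring1))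
  have zg : J _ ((-8 * q0) * (1 - q0) ^ 2 / (1 + q0) ^ 4) ((-8 * q1 + 72 * q0 * q1 + 16 * q0 * F1 -
    16 * q0 * F1 * c0 - 64 * q0 * D1 + 16 * q0 * D1 * c0 - 176 * q0 ^ 2 * q1 + 48 * q0 ^ 2 * F1 + 16
    * q0 ^ 2 * F1 * c0 + 256 * q0 ^ 2 * D1 - 16 * q0 ^ 2 * D1 * c0 + 176 * q0 ^ 3 * q1 + 32 * q0 ^ 3
    * F1 - 128 * q0 ^ 3 * F1 * c0 - 704 * q0 ^ 3 * D1 + 128 * q0 ^ 3 * D1 * c0 - 72 * q0 ^ 4 * q1 -
    32 * q0 ^ 4 * F1 - 128 * q0 ^ 4 * F1 * c0 + 704 * q0 ^ 4 * D1 + 128 * q0 ^ 4 * D1 * c0 + 8 * q0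
    ^ 5 * q1 - 48 * q0 ^ 5 * F1 + 16 * q0 ^ 5 * F1 * c0 - 256 * q0 ^ 5 * D1 - 16 * q0 ^ 5 * D1 * c0
    - 16 * q0 ^ 6 * F1 - 16 * q0 ^ 6 * F1 * c0 + 64 * q0 ^ 6 * D1 + 16 * q0 ^ 6 * D1 * c0) / ((1 +
    q0) ^ 5 * (1 - q0) ^ 2)) := (((J.cst 1).mul zr).sub (((J.cst 2).mul ((J.cst 1).sub ((J.cst
    1).mul e))).mul zl)).cast
    (by first | (field_simp; ring1) | field_simp | (push_cast; ring1))
    (by first | (field_simp; ring1) | field_simp | (push_cast; ring1))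
  have zd : J _ ((-16 * q0) * (1 - q0) ^ 2 / (1 + q0) ^ 4) ((-16 * q1 + 144 * q0 * q1 + 16 * q0 * F1
    - 32 * q0 * F1 * c0 - 128 * q0 * D1 + 32 * q0 * D1 * c0 - 352 * q0 ^ 2 * q1 + 112 * q0 ^ 2 * F1
    + 32 * q0 ^ 2 * F1 * c0 + 512 * q0 ^ 2 * D1 - 32 * q0 ^ 2 * D1 * c0 + 352 * q0 ^ 3 * q1 + 96 *
    q0 ^ 3 * F1 - 256 * q0 ^ 3 * F1 * c0 - 1408 * q0 ^ 3 * D1 + 256 * q0 ^ 3 * D1 * c0 - 144 * q0 ^
    4 * q1 - 96 * q0 ^ 4 * F1 - 256 * q0 ^ 4 * F1 * c0 + 1408 * q0 ^ 4 * D1 + 256 * q0 ^ 4 * D1 * c0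
    + 16 * q0 ^ 5 * q1 - 112 * q0 ^ 5 * F1 + 32 * q0 ^ 5 * F1 * c0 - 512 * q0 ^ 5 * D1 - 32 * q0 ^ 5
    * D1 * c0 - 16 * q0 ^ 6 * F1 - 32 * q0 ^ 6 * F1 * c0 + 128 * q0 ^ 6 * D1 + 32 * q0 ^ 6 * D1 *
    c0) / ((1 + q0) ^ 5 * (1 - q0) ^ 2)) := ((((J.cst 1).mul zg).sub (u.mul ((J.cst 1).mul zl))).add
    (((J.cst 1).mul (J.cst 1)).mul zr)).cast
    (by first | (field_simp; ring1) | field_simp | (push_cast; ring1))
    (by first | (field_simp; ring1) | field_simp | (push_cast; ring1))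
  have zs : J _ ((-64 * q0 ^ 2 + 160 * q0 ^ 3 - 32 * q0 ^ 4) * (1 - q0) / (1 + q0) ^ 6) ((-128 * q0
    * q1 + 32 * q0 * D1 + 1184 * q0 ^ 2 * q1 - 384 * q0 ^ 2 * F1 - 544 * q0 ^ 2 * D1 - 3424 * q0 ^ 3
    * q1 + 1216 * q0 ^ 3 * F1 * c0 + 5344 * q0 ^ 3 * D1 - 1216 * q0 ^ 3 * D1 * c0 + 4352 * q0 ^ 4 *
    q1 + 256 * q0 ^ 4 * F1 - 832 * q0 ^ 4 * F1 * c0 - 13280 * q0 ^ 4 * D1 + 832 * q0 ^ 4 * D1 * c0 -
    2560 * q0 ^ 5 * q1 - 512 * q0 ^ 5 * F1 + 256 * q0 ^ 5 * F1 * c0 + 16608 * q0 ^ 5 * D1 - 256 * q0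
    ^ 5 * D1 * c0 + 608 * q0 ^ 6 * q1 + 128 * q0 ^ 6 * F1 + 1792 * q0 ^ 6 * F1 * c0 - 10464 * q0 ^ 6
    * D1 - 1792 * q0 ^ 6 * D1 * c0 - 32 * q0 ^ 7 * q1 + 512 * q0 ^ 7 * F1 - 448 * q0 ^ 7 * F1 * c0 +
    2592 * q0 ^ 7 * D1 + 448 * q0 ^ 7 * D1 * c0 + 64 * q0 ^ 8 * F1 * c0 - 288 * q0 ^ 8 * D1 - 64 *
    q0 ^ 8 * D1 * c0) / ((1 + q0) ^ 7 * (1 - q0) ^ 2)) := ((((J.cst 2).mul B).mul (((zb.mul zb).add
    zd).sub (u.mul ((J.cst 1).mul zl)))).sub (A.mul ((za.mul za).add zd))).cast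
    (by first | (field_simp; ring1) | field_simp | (push_cast; ring1))
    (by first | (field_simp; ring1) | field_simp | (push_cast; ring1))
  have zZ0 : J _ ((8 * q0) / (1 + q0) ^ 3) ((8 * q1 - 8 * F1 - 16 * q0 * q1 + 16 * q0 * F1 * c0 + 40
    * q0 * D1 - 16 * q0 * D1 * c0 + 8 * q0 ^ 2 * F1 + 16 * q0 ^ 2 * F1 * c0 - 48 * q0 ^ 2 * D1 - 16
    * q0 ^ 2 * D1 * c0 + 8 * q0 ^ 3 * D1) / (1 + q0) ^ 4) := ((((J.cst 1).sub m).mul l).sub (m.mul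
    zl)).cast
    (by first | (field_simp; ring1) | field_simp | (push_cast; ring1))
    (by first | (field_simp; ring1) | field_simp | (push_cast; ring1))
  have zZ1 : J _ ((-24 * q0) * (1 - q0) ^ 2 / (1 + q0) ^ 5) ((-24 * q1 + 8 * F1 + 192 * q0 * q1 - 96
    * q0 * F1 - 48 * q0 * F1 * c0 - 152 * q0 * D1 + 48 * q0 * D1 * c0 - 216 * q0 ^ 2 * q1 - 16 * q0
    ^ 2 * F1 + 144 * q0 ^ 2 * F1 * c0 + 720 * q0 ^ 2 * D1 - 144 * q0 ^ 2 * D1 * c0 + 48 * q0 ^ 3 *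
    q1 + 96 * q0 ^ 3 * F1 + 144 * q0 ^ 3 * F1 * c0 - 800 * q0 ^ 3 * D1 - 144 * q0 ^ 3 * D1 * c0 + 8
    * q0 ^ 4 * F1 - 48 * q0 ^ 4 * F1 * c0 + 240 * q0 ^ 4 * D1 + 48 * q0 ^ 4 * D1 * c0 - 8 * q0 ^ 5 *
    D1) / (1 + q0) ^ 6) := (m.mul ((zZ0.add ((((J.cst 2).mul u).sub ((J.cst 1).mul zl)).mul zl)).sub
    ((J.cst 1).mul zr))).cast
    (by first | (field_simp; ring1) | field_simp | (push_cast; ring1))
    (by first | (field_simp; ring1) | field_simp | (push_cast; ring1))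
  have zZ2 : J _ ((72 * q0 - 336 * q0 ^ 2 + 72 * q0 ^ 3) * (1 - q0) ^ 2 / (1 + q0) ^ 7) ((72 * q1 -
    8 * F1 - 1392 * q0 * q1 + 480 * q0 * F1 + 144 * q0 * F1 * c0 + 552 * q0 * D1 - 144 * q0 * D1 *
    c0 + 4848 * q0 ^ 2 * q1 - 1448 * q0 ^ 2 * F1 - 1584 * q0 ^ 2 * F1 * c0 - 6288 * q0 ^ 2 * D1 +
    1584 * q0 ^ 2 * D1 * c0 - 5184 * q0 ^ 3 * q1 - 384 * q0 ^ 3 * F1 + 2208 * q0 ^ 3 * F1 * c0 +
    18488 * q0 ^ 3 * D1 - 2208 * q0 ^ 3 * D1 * c0 + 1800 * q0 ^ 4 * q1 + 1576 * q0 ^ 4 * F1 + 2208 *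
    q0 ^ 4 * F1 * c0 - 19680 * q0 ^ 4 * D1 - 2208 * q0 ^ 4 * D1 * c0 - 144 * q0 ^ 5 * q1 - 96 * q0 ^
    5 * F1 - 1584 * q0 ^ 5 * F1 * c0 + 7832 * q0 ^ 5 * D1 + 1584 * q0 ^ 5 * D1 * c0 - 120 * q0 ^ 6 *
    F1 + 144 * q0 ^ 6 * F1 * c0 - 912 * q0 ^ 6 * D1 - 144 * q0 ^ 6 * D1 * c0 + 8 * q0 ^ 7 * D1) / (1
    + q0) ^ 8) := (((((J.cst 2).mul m).add ((J.cst 1).mul zl)).mul zZ1).sub (m.mul ((((m.mul
    zZ0).sub (((J.cst 2).mul (u.mul ((J.cst 1).mul zl))).mul zl)).sub (((J.cst 2).mul (u.sub ((J.cst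
    1).mul zl))).mul zg)).add ((J.cst 1).mul zs)))).cast
    (by first | (field_simp; ring1) | field_simp | (push_cast; ring1))
    (by first | (field_simp; ring1) | field_simp | (push_cast; ring1))
  exact (((((zZ2.add ((J.cst 4).mul zZ1)).add ((J.cst 3).mul zZ0)).dvc 4).add (n.mul (((((J.cst
    3).mul zZ2).add ((J.cst 4).mul zZ1)).add zZ0).add (n.mul ((((J.cst 12).mul zZ2).sub ((J.cst
    16).mul zZ1)).add (n.mul (((((J.cst 16).mul zZ2).sub ((J.cst 64).mul zZ1)).add ((J.cst 32).mul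
    zZ0)).sub ((J.cst 32).mul l)))))))).sub o).cast
    (by first | (field_simp; ring1) | field_simp | (push_cast; ring1))
    (by first | (field_simp; ring1) | field_simp | (push_cast; ring1))

end Pool.Agent.Lib.MP_d6150d_an.UX
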