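import Pool.Agent.Lib.MP_d6150d_an.UXJ

/-! The first order expansion of a normal form. -/

namespace Pool.Agent.Lib.MP_d6150d_an.UX

variable {D F q p c : ℝ → ℝ} {D1 F1 q0 q1 c0 c1 : ℝ}

set_option linter.unusedTactic false
set_option linter.unreachableTactic false
set_option linter.unnecessarySeqFocus false

theorem fR_J (hD : J D (-1 / 2) D1) (hF : J F (1 / 2) F1) (hq : J q q0 q1) (hc : J c c0 c1)
    (hp : J p 1 (-2 * F1 * c0)) (h0 : 0 ≤ q0) (h1 : q0 < 1) :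
    J (fun x ↦ fR (D x) (F x) (q x) (p x) (c x)) 0 ((D1 + F1) * Ph q0 c0) := by
  have h2 : 0 < 1 + q0 := by linarith
  have h3 : 0 < 1 - q0 := by linarith
  have h4 := h2.ne'
  have h5 := h3.ne'
  rw [Ph]
  have W0 : J _ ((1 / 2) * (1 + q0) * (1 - q0)) (D1 - q0 * q1 - 2 * q0 * D1 + q0 ^ 2 * D1) :=
    ((((J.cst 1).add hD).sub (((J.cst 1).add ((J.cst 2).mul hD)).mul hq)).add (hD.mul (hq.pw
    1))).cast
    (by first | (field_simp; ring1) | field_simp | (push_cast; ring1))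
    (by first | (field_simp; ring1) | field_simp | (push_cast; ring1))
  have W : J _ ((2) / ((1 + q0) * (1 - q0))) ((-4 * D1 + 4 * q0 * q1 + 8 * q0 * D1 - 4 * q0 ^ 2 *
    D1) / ((1 + q0) ^ 2 * (1 - q0) ^ 2)) := (W0.inv (by positivity)).cast
    (by first | (field_simp; ring1) | field_simp | (push_cast; ring1))
    (by first | (field_simp; ring1) | field_simp | (push_cast; ring1))
  have j0 : J _ (1 / 2) (-F1) := ((J.cst 1).sub hF).cast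
    (by first | (field_simp; ring1) | field_simp | (push_cast; ring1))
    (by first | (field_simp; ring1) | field_simp | (push_cast; ring1))
  have e : J _ ((2) / (1 + q0)) ((-2 * q1 + 4 * F1 - 4 * F1 * c0 - 8 * D1 + 4 * D1 * c0 + 2 * q0 *
    q1 - 4 * q0 * F1 * c0 + 8 * q0 * D1 + 4 * q0 * D1 * c0 - 4 * q0 ^ 2 * F1) / ((1 + q0) ^ 2 * (1 -
    q0))) := (((((J.cst 1).add ((J.cst 2).mul hD)).mul hc).sub ((hD.mul (j0.inv (by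
    positivity))).mul (hp.sub hq))).mul W).cast
    (by first | (field_simp; ring1) | field_simp | (push_cast; ring1))
    (by first | (field_simp; ring1) | field_simp | (push_cast; ring1))
  have m : J _ ((1 - q0) / (1 + q0)) ((-2 * q1 + 2 * q0 * q1 - 4 * q0 * F1 + 4 * q0 * F1 * c0 + 8 *
    q0 * D1 - 4 * q0 * D1 * c0 + 4 * q0 ^ 2 * F1 * c0 - 8 * q0 ^ 2 * D1 - 4 * q0 ^ 2 * D1 * c0 + 4 *
    q0 ^ 3 * F1) / ((1 + q0) ^ 2 * (1 - q0))) := ((J.cst 1).sub (hq.mul e)).cast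
    (by first | (field_simp; ring1) | field_simp | (push_cast; ring1))
    (by first | (field_simp; ring1) | field_simp | (push_cast; ring1))
  have i0 : J _ (1 / 2) (F1) := hF.cast
    (by first | (field_simp; ring1) | field_simp | (push_cast; ring1))
    (by first | (field_simp; ring1) | field_simp | (push_cast; ring1))
  have u : J _ ((2) * (1 - q0) / (1 + q0)) ((-4 * q1 - 4 * F1 + 4 * q0 * q1 - 4 * q0 * F1 + 8 * q0 *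
    F1 * c0 + 16 * q0 * D1 - 8 * q0 * D1 * c0 + 4 * q0 ^ 2 * F1 + 8 * q0 ^ 2 * F1 * c0 - 16 * q0 ^ 2
    * D1 - 8 * q0 ^ 2 * D1 * c0 + 4 * q0 ^ 3 * F1) / ((1 + q0) ^ 2 * (1 - q0))) := (m.mul (i0.inv
    (by positivity))).cast
    (by first | (field_simp; ring1) | field_simp | (push_cast; ring1))
    (by first | (field_simp; ring1) | field_simp | (push_cast; ring1))
  have u0 : J _ ((2) * (1 - q0) / (1 + q0)) ((-4 * q1 - 4 * F1 + 4 * q0 * q1 - 4 * q0 * F1 + 8 * q0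
    * F1 * c0 + 16 * q0 * D1 - 8 * q0 * D1 * c0 + 4 * q0 ^ 2 * F1 + 8 * q0 ^ 2 * F1 * c0 - 16 * q0 ^
    2 * D1 - 8 * q0 ^ 2 * D1 * c0 + 4 * q0 ^ 3 * F1) / ((1 + q0) ^ 2 * (1 - q0))) := u.cast
    (by first | (field_simp; ring1) | field_simp | (push_cast; ring1))
    (by first | (field_simp; ring1) | field_simp | (push_cast; ring1))
  have N : J _ (1 / (1 - q0) ^ 2) ((2 * q1 + 2 * F1 - 2 * D1 - 2 * q0 * q1 - 4 * q0 * F1 * c0 + 4 *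
    q0 * D1 * c0 - 2 * q0 ^ 2 * F1 + 2 * q0 ^ 2 * D1) / (1 - q0) ^ 4) := ((u0.inv (by
    positivity)).mul W).cast
    (by first | (field_simp; ring1) | field_simp | (push_cast; ring1))
    (by first | (field_simp; ring1) | field_simp | (push_cast; ring1))
  have n : J _ ((q0) / (1 - q0) ^ 2) ((q1 + 2 * q0 * F1 - 2 * q0 * F1 * c0 - 2 * q0 * D1 - q0 ^ 2 *
    q1 + 4 * q0 ^ 2 * D1 * c0 - 2 * q0 ^ 3 * F1 - 2 * q0 ^ 3 * F1 * c0 + 2 * q0 ^ 3 * D1) / (1 - q0)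
    ^ 4) := ((hq.mul hp).mul N).cast
    (by first | (field_simp; ring1) | field_simp | (push_cast; ring1))
    (by first | (field_simp; ring1) | field_simp | (push_cast; ring1))
  have r0 : J _ (((1 + q0) / (1 - q0)) ^ 2) ((4 * q1 + 8 * q0 * F1 - 8 * q0 * F1 * c0 - 8 * q0 * D1
    - 4 * q0 ^ 2 * q1 + 16 * q0 ^ 2 * D1 * c0 - 8 * q0 ^ 3 * F1 - 8 * q0 ^ 3 * F1 * c0 + 8 * q0 ^ 3
    * D1) / (1 - q0) ^ 4) := ((J.cst 1).add ((J.cst 4).mul n)).cast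
    (by first | (field_simp; ring1) | field_simp | (push_cast; ring1))
    (by first | (field_simp; ring1) | field_simp | (push_cast; ring1))
  have r : J _ ((1 - q0) / (1 + q0)) ((-2 * q1 - 4 * q0 * F1 + 4 * q0 * F1 * c0 + 4 * q0 * D1 + 2 *
    q0 ^ 2 * q1 - 8 * q0 ^ 2 * D1 * c0 + 4 * q0 ^ 3 * F1 + 4 * q0 ^ 3 * F1 * c0 - 4 * q0 ^ 3 * D1) /
    ((1 + q0) ^ 3 * (1 - q0))) := (r0.rsq (by positivity)).cast
    (by first | (field_simp; ring1) | field_simp | (push_cast; ring1))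
    (by first | (field_simp; ring1) | field_simp | (push_cast; ring1))
  have g0 : J _ ((1 / (1 - q0)) ^ 2) ((2 * q1 + 2 * F1 - 2 * D1 - 2 * q0 * q1 - 4 * q0 * F1 * c0 + 4
    * q0 * D1 * c0 - 2 * q0 ^ 2 * F1 + 2 * q0 ^ 2 * D1) / (1 - q0) ^ 4) := N.cast
    (by first | (field_simp; ring1) | field_simp | (push_cast; ring1))
    (by first | (field_simp; ring1) | field_simp | (push_cast; ring1))
  have g : J _ ((1 - q0)) ((-q1 - F1 + D1 + q0 * q1 + 2 * q0 * F1 * c0 - 2 * q0 * D1 * c0 + q0 ^ 2 *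
    F1 - q0 ^ 2 * D1) / (1 - q0)) := (g0.rsq (by positivity)).cast
    (by first | (field_simp; ring1) | field_simp | (push_cast; ring1))
    (by first | (field_simp; ring1) | field_simp | (push_cast; ring1))
  have a : J _ (0) (0) := ((hF.mul (((J.cst 640).mul (((((((((((J.cst 4).sub ((J.cst 57).mul
    hF)).sub ((J.cst 6).mul hD)).add ((J.cst 156).mul (hF.pw 1))).add (((J.cst 102).mul hD).mul
    hF)).sub ((J.cst 60).mul (hD.pw 1))).sub ((J.cst 103).mul (hF.pw 2))).sub (((J.cst 312).mul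
    hD).mul (hF.pw 1))).sub (((J.cst 480).mul (hD.pw 1)).mul hF)).sub ((J.cst 320).mul (hD.pw
    2))).dvc 1080)).add ((J.cst 48).mul ((((J.cst 1).sub hF).sub ((J.cst 2).mul hD)).dvc 6)))).sub
    (J.cst 1)).cast
    (by first | (field_simp; ring1) | field_simp | (push_cast; ring1))
    (by first | (field_simp; ring1) | field_simp | (push_cast; ring1))
  have A : J _ (0) ((8 * D1) / (1 + q0) ^ 2) := (((J.cst 1).add ((J.cst 2).mul hD)).mul (u.mul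
    W)).cast
    (by first | (field_simp; ring1) | field_simp | (push_cast; ring1))
    (by first | (field_simp; ring1) | field_simp | (push_cast; ring1))
  have B : J _ ((-2 * q0) / (1 + q0) ^ 2) ((-2 * q1 + 6 * q0 * q1 + 4 * q0 * F1 + 8 * q0 * D1 - 6 *
    q0 ^ 2 * q1 + 4 * q0 ^ 2 * F1 - 8 * q0 ^ 2 * F1 * c0 - 32 * q0 ^ 2 * D1 + 8 * q0 ^ 2 * D1 * c0 +
    2 * q0 ^ 3 * q1 - 4 * q0 ^ 3 * F1 - 8 * q0 ^ 3 * F1 * c0 + 24 * q0 ^ 3 * D1 + 8 * q0 ^ 3 * D1 *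
    c0 - 4 * q0 ^ 4 * F1) / ((1 + q0) ^ 3 * (1 - q0) ^ 2)) := ((hq.mul hD).mul (u.mul W)).cast
    (by first | (field_simp; ring1) | field_simp | (push_cast; ring1))
    (by first | (field_simp; ring1) | field_simp | (push_cast; ring1))
  have κ : J _ ((q0 ^ 2) / (1 - q0) ^ 6) ((2 * q0 * q1 + 2 * q0 ^ 2 * q1 + 6 * q0 ^ 2 * F1 - 6 * q0
    ^ 2 * F1 * c0 - 6 * q0 ^ 2 * D1 - 4 * q0 ^ 3 * q1 + 12 * q0 ^ 3 * D1 * c0 - 6 * q0 ^ 4 * F1 - 6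
    * q0 ^ 4 * F1 * c0 + 6 * q0 ^ 4 * D1) / (1 - q0) ^ 8) := (((((hq.mul hp).mul n).mul hp).mul
    N).mul N).cast
    (by first | (field_simp; ring1) | field_simp | (push_cast; ring1))
    (by first | (field_simp; ring1) | field_simp | (push_cast; ring1))
  have o : J _ ((32) * (1 - q0)) ((-32 * q1 + 32 * F1 + 32 * D1 + 32 * q0 * q1 - 128 * q0 * F1 + 64
    * q0 * F1 * c0 - 64 * q0 * D1 * c0 + 96 * q0 ^ 2 * F1 - 32 * q0 ^ 2 * D1) / (1 - q0)) := (g.mul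
    (((J.cst 64).mul hF).add ((((J.cst 32).mul a).mul n).mul (r.pw 4)))).cast
    (by first | (field_simp; ring1) | field_simp | (push_cast; ring1))
    (by first | (field_simp; ring1) | field_simp | (push_cast; ring1))
  have zy : J _ (q0) (q1) := (((J.cst 1).mul hq).mul (J.cst 1)).cast
    (by first | (field_simp; ring1) | field_simp | (push_cast; ring1))
    (by first | (field_simp; ring1) | field_simp | (push_cast; ring1))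
  have zk : J _ (1) (0) := ((J.cst 1).mul (J.cst 1)).cast
    (by first | (field_simp; ring1) | field_simp | (push_cast; ring1))
    (by first | (field_simp; ring1) | field_simp | (push_cast; ring1))
  have zL : J _ ((4 * q0) / (1 + q0) ^ 2) ((4 * q1 + 8 * D1 - 12 * q0 * q1 - 8 * q0 * F1 - 24 * q0 *
    D1 + 12 * q0 ^ 2 * q1 - 8 * q0 ^ 2 * F1 + 16 * q0 ^ 2 * F1 * c0 + 56 * q0 ^ 2 * D1 - 16 * q0 ^ 2
    * D1 * c0 - 4 * q0 ^ 3 * q1 + 8 * q0 ^ 3 * F1 + 16 * q0 ^ 3 * F1 * c0 - 40 * q0 ^ 3 * D1 - 16 *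
    q0 ^ 3 * D1 * c0 + 8 * q0 ^ 4 * F1) / ((1 + q0) ^ 3 * (1 - q0) ^ 2)) := (A.sub ((J.cst 2).mul
    B)).cast
    (by first | (field_simp; ring1) | field_simp | (push_cast; ring1))
    (by first | (field_simp; ring1) | field_simp | (push_cast; ring1))
  have zl : J _ ((4) / (1 + q0) ^ 2) ((-8 * q1 + 8 * F1 - 8 * F1 * c0 - 24 * D1 + 8 * D1 * c0 + 16 *
    q0 * q1 + 8 * q0 * F1 - 8 * q0 * F1 * c0 + 40 * q0 * D1 + 8 * q0 * D1 * c0 - 8 * q0 ^ 2 * q1 - 8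
    * q0 ^ 2 * F1 - 8 * q0 ^ 2 * F1 * c0 - 40 * q0 ^ 2 * D1 + 8 * q0 ^ 2 * D1 * c0 - 8 * q0 ^ 3 * F1
    - 8 * q0 ^ 3 * F1 * c0 + 24 * q0 ^ 3 * D1 + 8 * q0 ^ 3 * D1 * c0) / ((1 + q0) ^ 3 * (1 - q0) ^
    2)) := (((J.cst 2).mul e).sub (zk.mul zL)).cast
    (by first | (field_simp; ring1) | field_simp | (push_cast; ring1))
    (by first | (field_simp; ring1) | field_simp | (push_cast; ring1))
  have za : J _ ((-2) * (1 - q0) ^ 2 / (1 + q0) ^ 2) ((8 * q1 + 4 * F1 - 24 * q0 * q1 + 12 * q0 * F1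
    - 16 * q0 * F1 * c0 - 48 * q0 * D1 + 16 * q0 * D1 * c0 + 24 * q0 ^ 2 * q1 + 8 * q0 ^ 2 * F1 - 16
    * q0 ^ 2 * F1 * c0 + 80 * q0 ^ 2 * D1 + 16 * q0 ^ 2 * D1 * c0 - 8 * q0 ^ 3 * q1 - 8 * q0 ^ 3 *
    F1 - 16 * q0 ^ 3 * F1 * c0 - 80 * q0 ^ 3 * D1 + 16 * q0 ^ 3 * D1 * c0 - 12 * q0 ^ 4 * F1 - 16 *
    q0 ^ 4 * F1 * c0 + 48 * q0 ^ 4 * D1 + 16 * q0 ^ 4 * D1 * c0 - 4 * q0 ^ 5 * F1) / ((1 + q0) ^ 3 *
    (1 - q0) ^ 2)) := (((zy.mul zl).sub u).sub ((zy.mul zk).mul zL)).cast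
    (by first | (field_simp; ring1) | field_simp | (push_cast; ring1))
    (by first | (field_simp; ring1) | field_simp | (push_cast; ring1))
  have zb : J _ ((-4) * (1 - q0) / (1 + q0) ^ 2) ((12 * q1 + 8 * F1 - 28 * q0 * q1 + 16 * q0 * F1 -
    24 * q0 * F1 * c0 - 64 * q0 * D1 + 24 * q0 * D1 * c0 + 20 * q0 ^ 2 * q1 - 24 * q0 ^ 2 * F1 * c0
    + 96 * q0 ^ 2 * D1 + 24 * q0 ^ 2 * D1 * c0 - 4 * q0 ^ 3 * q1 - 16 * q0 ^ 3 * F1 - 8 * q0 ^ 3 *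
    F1 * c0 - 64 * q0 ^ 3 * D1 + 8 * q0 ^ 3 * D1 * c0 - 8 * q0 ^ 4 * F1 - 8 * q0 ^ 4 * F1 * c0 + 32
    * q0 ^ 4 * D1 + 8 * q0 ^ 4 * D1 * c0) / ((1 + q0) ^ 3 * (1 - q0) ^ 2)) := (za.sub u).cast
    (by first | (field_simp; ring1) | field_simp | (push_cast; ring1))
    (by first | (field_simp; ring1) | field_simp | (push_cast; ring1))
  have zr : J _ ((16 * q0) * (1 - q0) / (1 + q0) ^ 4) ((16 * q1 + 16 * D1 - 112 * q0 * q1 - 64 * q0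
    * F1 - 112 * q0 * D1 + 208 * q0 ^ 2 * q1 - 64 * q0 ^ 2 * F1 + 160 * q0 ^ 2 * F1 * c0 + 608 * q0
    ^ 2 * D1 - 160 * q0 ^ 2 * D1 * c0 - 144 * q0 ^ 3 * q1 + 64 * q0 ^ 3 * F1 + 96 * q0 ^ 3 * F1 * c0
    - 800 * q0 ^ 3 * D1 - 96 * q0 ^ 3 * D1 * c0 + 32 * q0 ^ 4 * q1 + 64 * q0 ^ 4 * F1 - 32 * q0 ^ 4
    * F1 * c0 + 400 * q0 ^ 4 * D1 + 32 * q0 ^ 4 * D1 * c0 + 32 * q0 ^ 5 * F1 * c0 - 112 * q0 ^ 5 *
    D1 - 32 * q0 ^ 5 * D1 * c0) / ((1 + q0) ^ 5 * (1 - q0) ^ 2)) := ((((J.cst 2).mul B).mul zb).sub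
    (A.mul za)).cast
    (by first | (field_simp; ring1) | field_simp | (push_cast; ring1))
    (by first | (field_simp; ring1) | field_simp | (push_cast; ring1))
  have zg : J _ ((-8) * (1 - q0) ^ 2 / (1 + q0) ^ 4) ((48 * q1 - 16 * F1 + 16 * F1 * c0 + 64 * D1 -
    16 * D1 * c0 - 160 * q0 * q1 - 48 * q0 * F1 - 16 * q0 * F1 * c0 - 256 * q0 * D1 + 16 * q0 * D1 *
    c0 + 192 * q0 ^ 2 * q1 - 32 * q0 ^ 2 * F1 + 128 * q0 ^ 2 * F1 * c0 + 704 * q0 ^ 2 * D1 - 128 *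
    q0 ^ 2 * D1 * c0 - 96 * q0 ^ 3 * q1 + 32 * q0 ^ 3 * F1 + 128 * q0 ^ 3 * F1 * c0 - 704 * q0 ^ 3 *
    D1 - 128 * q0 ^ 3 * D1 * c0 + 16 * q0 ^ 4 * q1 + 48 * q0 ^ 4 * F1 - 16 * q0 ^ 4 * F1 * c0 + 256
    * q0 ^ 4 * D1 + 16 * q0 ^ 4 * D1 * c0 + 16 * q0 ^ 5 * F1 + 16 * q0 ^ 5 * F1 * c0 - 64 * q0 ^ 5 *
    D1 - 16 * q0 ^ 5 * D1 * c0) / ((1 + q0) ^ 5 * (1 - q0) ^ 2)) := ((zk.mul zr).sub (((J.cst 2).mul
    m).mul zl)).cast
    (by first | (field_simp; ring1) | field_simp | (push_cast; ring1))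
    (by first | (field_simp; ring1) | field_simp | (push_cast; ring1))
  have zd : J _ ((-16 * q0) * (1 - q0) ^ 2 / (1 + q0) ^ 4) ((-16 * q1 + 144 * q0 * q1 - 16 * q0 * F1
    + 32 * q0 * F1 * c0 + 128 * q0 * D1 - 32 * q0 * D1 * c0 - 352 * q0 ^ 2 * q1 - 112 * q0 ^ 2 * F1
    - 32 * q0 ^ 2 * F1 * c0 - 512 * q0 ^ 2 * D1 + 32 * q0 ^ 2 * D1 * c0 + 352 * q0 ^ 3 * q1 - 96 *
    q0 ^ 3 * F1 + 256 * q0 ^ 3 * F1 * c0 + 1408 * q0 ^ 3 * D1 - 256 * q0 ^ 3 * D1 * c0 - 144 * q0 ^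
    4 * q1 + 96 * q0 ^ 4 * F1 + 256 * q0 ^ 4 * F1 * c0 - 1408 * q0 ^ 4 * D1 - 256 * q0 ^ 4 * D1 * c0
    + 16 * q0 ^ 5 * q1 + 112 * q0 ^ 5 * F1 - 32 * q0 ^ 5 * F1 * c0 + 512 * q0 ^ 5 * D1 + 32 * q0 ^ 5
    * D1 * c0 + 16 * q0 ^ 6 * F1 + 32 * q0 ^ 6 * F1 * c0 - 128 * q0 ^ 6 * D1 - 32 * q0 ^ 6 * D1 *
    c0) / ((1 + q0) ^ 5 * (1 - q0) ^ 2)) := (((zy.mul zg).sub (u.mul (zy.mul zl))).add ((zy.mul
    zk).mul zr)).cast
    (by first | (field_simp; ring1) | field_simp | (push_cast; ring1))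
    (by first | (field_simp; ring1) | field_simp | (push_cast; ring1))
  have zs : J _ ((-64 * q0 + 160 * q0 ^ 2 - 32 * q0 ^ 3) * (1 - q0) / (1 + q0) ^ 6) ((-64 * q1 - 32
    * D1 + 896 * q0 * q1 + 384 * q0 * F1 + 544 * q0 * D1 - 3072 * q0 ^ 2 * q1 - 1216 * q0 ^ 2 * F1 *
    c0 - 5344 * q0 ^ 2 * D1 + 1216 * q0 ^ 2 * D1 * c0 + 4416 * q0 ^ 3 * q1 - 256 * q0 ^ 3 * F1 + 832
    * q0 ^ 3 * F1 * c0 + 13280 * q0 ^ 3 * D1 - 832 * q0 ^ 3 * D1 * c0 - 2944 * q0 ^ 4 * q1 + 512 *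
    q0 ^ 4 * F1 - 256 * q0 ^ 4 * F1 * c0 - 16608 * q0 ^ 4 * D1 + 256 * q0 ^ 4 * D1 * c0 + 832 * q0 ^
    5 * q1 - 128 * q0 ^ 5 * F1 - 1792 * q0 ^ 5 * F1 * c0 + 10464 * q0 ^ 5 * D1 + 1792 * q0 ^ 5 * D1
    * c0 - 64 * q0 ^ 6 * q1 - 512 * q0 ^ 6 * F1 + 448 * q0 ^ 6 * F1 * c0 - 2592 * q0 ^ 6 * D1 - 448
    * q0 ^ 6 * D1 * c0 - 64 * q0 ^ 7 * F1 * c0 + 288 * q0 ^ 7 * D1 + 64 * q0 ^ 7 * D1 * c0) / ((1 +
    q0) ^ 7 * (1 - q0) ^ 2)) := ((((J.cst 2).mul B).mul (((zb.mul zb).add zd).sub (u.mul (zy.mul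
    zl)))).sub (A.mul ((za.mul za).add zd))).cast
    (by first | (field_simp; ring1) | field_simp | (push_cast; ring1))
    (by first | (field_simp; ring1) | field_simp | (push_cast; ring1))
  have zZ0 : J _ ((8 * q0) / (1 + q0) ^ 3) ((8 * q1 + 8 * D1 - 16 * q0 * q1 + 8 * q0 * F1 - 16 * q0
    * F1 * c0 - 48 * q0 * D1 + 16 * q0 * D1 * c0 - 16 * q0 ^ 2 * F1 * c0 + 40 * q0 ^ 2 * D1 + 16 *
    q0 ^ 2 * D1 * c0 - 8 * q0 ^ 3 * F1) / (1 + q0) ^ 4) := ((hq.mul (e.mul e)).add (m.mul zL)).cast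
    (by first | (field_simp; ring1) | field_simp | (push_cast; ring1))
    (by first | (field_simp; ring1) | field_simp | (push_cast; ring1))
  have zZ1 : J _ ((-24 * q0) * (1 - q0) ^ 2 / (1 + q0) ^ 5) ((-24 * q1 - 8 * D1 + 192 * q0 * q1 + 8
    * q0 * F1 + 48 * q0 * F1 * c0 + 240 * q0 * D1 - 48 * q0 * D1 * c0 - 216 * q0 ^ 2 * q1 + 96 * q0
    ^ 2 * F1 - 144 * q0 ^ 2 * F1 * c0 - 800 * q0 ^ 2 * D1 + 144 * q0 ^ 2 * D1 * c0 + 48 * q0 ^ 3 *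
    q1 - 16 * q0 ^ 3 * F1 - 144 * q0 ^ 3 * F1 * c0 + 720 * q0 ^ 3 * D1 + 144 * q0 ^ 3 * D1 * c0 - 96
    * q0 ^ 4 * F1 + 48 * q0 ^ 4 * F1 * c0 - 152 * q0 ^ 4 * D1 - 48 * q0 ^ 4 * D1 * c0 + 8 * q0 ^ 5 *
    F1) / (1 + q0) ^ 6) := (m.mul ((zZ0.sub ((hq.mul zl).mul zl)).sub zr)).cast
    (by first | (field_simp; ring1) | field_simp | (push_cast; ring1))
    (by first | (field_simp; ring1) | field_simp | (push_cast; ring1))
  have zZ2 : J _ ((72 * q0 - 336 * q0 ^ 2 + 72 * q0 ^ 3) * (1 - q0) ^ 2 / (1 + q0) ^ 7) ((72 * q1 +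
    8 * D1 - 1392 * q0 * q1 - 120 * q0 * F1 - 144 * q0 * F1 * c0 - 912 * q0 * D1 + 144 * q0 * D1 *
    c0 + 4848 * q0 ^ 2 * q1 - 96 * q0 ^ 2 * F1 + 1584 * q0 ^ 2 * F1 * c0 + 7832 * q0 ^ 2 * D1 - 1584
    * q0 ^ 2 * D1 * c0 - 5184 * q0 ^ 3 * q1 + 1576 * q0 ^ 3 * F1 - 2208 * q0 ^ 3 * F1 * c0 - 19680 *
    q0 ^ 3 * D1 + 2208 * q0 ^ 3 * D1 * c0 + 1800 * q0 ^ 4 * q1 - 384 * q0 ^ 4 * F1 - 2208 * q0 ^ 4 *
    F1 * c0 + 18488 * q0 ^ 4 * D1 + 2208 * q0 ^ 4 * D1 * c0 - 144 * q0 ^ 5 * q1 - 1448 * q0 ^ 5 * F1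
    + 1584 * q0 ^ 5 * F1 * c0 - 6288 * q0 ^ 5 * D1 - 1584 * q0 ^ 5 * D1 * c0 + 480 * q0 ^ 6 * F1 -
    144 * q0 ^ 6 * F1 * c0 + 552 * q0 ^ 6 * D1 + 144 * q0 ^ 6 * D1 * c0 - 8 * q0 ^ 7 * F1) / (1 +
    q0) ^ 8) := (((((J.cst 2).mul m).add (zy.mul zl)).mul zZ1).sub (m.mul (((m.mul zZ0).add (((J.cst
    2).mul (hq.mul zl)).mul zg)).add zs))).cast
    (by first | (field_simp; ring1) | field_simp | (push_cast; ring1))
    (by first | (field_simp; ring1) | field_simp | (push_cast; ring1))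
  exact (((κ.mul ((((J.cst 32).mul ((J.cst 1).add m)).sub ((zy.mul zk).mul ((((J.cst 16).mul
    zZ2).sub ((J.cst 64).mul zZ1)).add ((J.cst 32).mul zZ0)))).sub o)).sub (((zZ2.add ((J.cst 4).mul
    zZ1)).add ((J.cst 3).mul zZ0)).dvc 4)).sub (n.mul (((((J.cst 3).mul zZ2).add ((J.cst 4).mul
    zZ1)).add zZ0).add (n.mul (((J.cst 12).mul zZ2).sub ((J.cst 16).mul zZ1)))))).cast
    (by first | (field_simp; ring1) | field_simp | (push_cast; ring1))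
    (by first | (field_simp; ring1) | field_simp | (push_cast; ring1))

end Pool.Agent.Lib.MP_d6150d_an.UX
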