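import Pool.Agent.Lib.MP_d6150d_an.GDef

/-! The generic checker with decision trees: the executable part. -/

namespace Pool.Agent.Lib.MP_d6150d_an

open TM

/-- a strategy: positive model, sign known, unused, next variable, division by a power,
division by a power followed by a cut -/
inductive Dt
  | pos
  | nn
  | no
  | nx (t : Dt)
  | dv (m : Nat) (t : Dt)
  | ct (m : Nat) (l r e : Dt)

def Vr.o (v : Vr) : Nat := cond v.c 1 0 + v.m

def finT (c : Ctx) (Ss : List Nat) :
    Dt → List Vr → List (Int × Int) → List (Nat → Bool) → Nat → TM → Bool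
  | .pos, _, _, _, _, a => posG c a
  | .nn, _, _, _, _, _ => true
  | .nx t, v :: vs, _ :: bs, ps, s, a =>
    finT c Ss t vs bs ((fun _ ↦ true) :: ps) (s * (2 * v.d + 1)) a
  | .dv m t, v :: vs, b :: bs, ps, s, a =>
    cond (v.os b)
      (decide (0 < b.2) && Nat.blt 0 m && Nat.ble m v.o &&
        frN (pm Ss (ps ++ [Nat.ble 1]) 1) fun M ↦ dvs c M s m a fun x ↦
          finT c Ss t vs bs ((fun _ ↦ true) :: ps) (s * (2 * v.d + 1)) x)
      (decide (0 < b.1) && finT c Ss t vs bs ((fun _ ↦ true) :: ps) (s * (2 * v.d + 1)) a)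
  | .ct m l r e, v :: vs, b :: bs, ps, s, a =>
    cond (v.os b)
      (decide (0 < b.2) && Nat.ble (m + 1) v.o &&
        frN (pm Ss (ps ++ [Nat.ble 1]) 1) fun M ↦ dvs c M s m a fun x ↦ decide (x.l < 2 ^ 223) &&
          (frT (prt c M s x) fun y ↦
            finT c Ss r vs bs ((fun _ ↦ true) :: ps) (s * (2 * v.d + 1)) y) &&
          frT (prt c (pm Ss (ps ++ [Nat.beq 0]) 1) 0 x) fun y ↦
            finT c Ss l vs bs ((fun _ ↦ true) :: ps) (s * (2 * v.d + 1)) y)
      (decide (0 < b.1) && finT c Ss e vs bs ((fun _ ↦ true) :: ps) (s * (2 * v.d + 1)) a)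
  | _, _, _, _, _, _ => false

/-- the check on a leaf: kind `j < 3` excluded by a constraint, `j + 3` with a strategy -/
def leafT (C : Chart) (ts : List Dt) (c0 : Ctx) (k : Nat) (B : List (Int × Int)) : Bool :=
  frC (setF c0 (pm (strides C.vs) (evP (flags C.vs B)) 1)) fun c ↦ frL (varT C.vs B 1) fun vs ↦
    cond (Nat.ble 3 k)
      (Nat.blt (k - 3) ts.length && run c C.nk vs C.prog [] fun s ↦
        finT c (strides C.vs) (ts.getD (k - 3) .no) C.vs B [] 1 (gt s 0))
      (Nat.blt k C.cons.length &&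
        run c C.nk vs (C.prog.take (C.cons.getD k 0)) [] fun s ↦ posG c (smul (-1) (gt s 0)))

def chkT (C : Chart) (ts : List Dt) (x : Nat) (B : List (Int × Int)) : Bool :=
  Nat.ble (2 * nn (strides C.vs)) 16384 && Nat.beq C.vs.length B.length && Nat.blt 0 B.length &&
    frC (mkC (strides C.vs) []) fun c ↦ Nat.blt 0 (go (leafT C ts c) 200 x B)

end Pool.Agent.Lib.MP_d6150d_an
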