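import Pool.Agent.Lib.MP_d6150d_an.GChk
import Pool.Agent.Lib.MP_d6150d_an.GTree

/-! Soundness of the checker with decision trees. -/

namespace Pool.Agent.Lib.MP_d6150d_an

open Set Filter Topology Asymptotics

/-- the hypotheses attached to a strategy -/
def Hy : Dt → List (ℤ × ℤ) → (List ℝ → ℝ) → Prop
  | .nn, B, f => AllB B fun x ↦ 0 ≤ f x
  | .nx t, b :: B, f => ∀ y : ℝ, b.1 / 2 ^ 47 ≤ y → y ≤ b.2 / 2 ^ 47 → Hy t B fun x ↦ f (y :: x)
  | .dv m t, b :: B, f => (AllB B fun x ↦ Ord m fun y ↦ f (y :: x)) ∧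
      ∀ y : ℝ, 0 < y → y ≤ b.2 / 2 ^ 47 → Hy t B fun x ↦ f (y :: x)
  | .ct m l r e, b :: B, f => (∃ c : List ℝ → ℝ,
      (AllB B fun x ↦ Ord (m + 1) fun y ↦ f (y :: x) - y ^ m * c x) ∧ Hy l B c ∧
        ∀ y : ℝ, 0 < y → y ≤ b.2 / 2 ^ 47 → Hy r B fun x ↦ f (y :: x) - y ^ m * c x) ∧
      ∀ y : ℝ, 0 < y → y ≤ b.2 / 2 ^ 47 → Hy e B fun x ↦ f (y :: x)
  | _, _, _ => True

/-- the points where the inequality is strict -/
def Str : Dt → List ℝ → Prop
  | .nn, _ => False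
  | .nx t, _ :: Y => Str t Y
  | .dv _ t, y :: Y => 0 < y ∧ Str t Y
  | .ct m l r e, y :: Y => ((m = 0 ∨ 0 < y) ∧ Str l Y ∨ 0 < y ∧ Str r Y) ∧ (0 < y → Str e Y)
  | _, _ => True

theorem AllB.mono {A B P} (s : SubB A B) (h : AllB B P) : AllB A P :=
  allB_iff.2 fun x hx ↦ allB_iff.1 h x (hx.mono s)

theorem Hy.mono : ∀ {t A B f}, SubB A B → Hy t B f → Hy t A f
  | .pos, _, _, _, _, _ => trivial
  | .no, _, _, _, _, _ => trivial
  | .nn, _, _, _, s, h => AllB.mono s h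
  | .nx _, _, _, _, .nil, _ => trivial
  | .dv _ _, _, _, _, .nil, _ => trivial
  | .ct _ _ _ _, _, _, _, .nil, _ => trivial
  | .nx _, _, _, _, .cons s t, h =>
    fun y h1 h2 ↦ (h y ((div47 s.1).trans h1) (h2.trans (div47 s.2))).mono t
  | .dv _ _, _, _, _, .cons s t, h =>
    ⟨h.1.mono t, fun y h1 h2 ↦ (h.2 y h1 (h2.trans (div47 s.2))).mono t⟩
  | .ct _ _ _ _, _, _, _, .cons s t, ⟨⟨c, a, b, d⟩, e⟩ =>
    ⟨⟨c, a.mono t, b.mono t, fun y h1 h2 ↦ (d y h1 (h2.trans (div47 s.2))).mono t⟩,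
      fun y h1 h2 ↦ (e y h1 (h2.trans (div47 s.2))).mono t⟩

theorem OrdT.smul {m : ℕ} {φ : ℝ → ℝ} (κ : ℝ) (h : OrdT m φ) : OrdT m fun τ ↦ κ * φ τ := by
  rcases h with h | h | h
  exacts [.inl h, .inr (.inl ⟨h.1, by simp [h.2]⟩), .inr (.inr (h.const_mul_left κ))]

theorem OrdT.of_succ {m : ℕ} {φ : ℝ → ℝ} {a : ℝ} (h : OrdT (m + 1) fun τ ↦ φ τ - τ ^ m * a) :
    OrdT m φ := by
  rcases h with h | h | h
  · omega
  · exact .inl (by omega)
  refine .inr (.inr ?_)
  have h1 : (fun τ : ℝ ↦ τ ^ (m + 1)) =O[𝓝[>] 0] fun τ ↦ τ ^ m :=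
    .of_bound 1 (by
      filter_upwards [Ioc_mem_nhdsGT one_pos] with τ hτ
      rw [pow_succ, norm_mul, one_mul, Real.norm_of_nonneg hτ.1.le]
      exact mul_le_of_le_one_right (norm_nonneg _) hτ.2)
  have h2 := (h.trans h1).add ((isBigO_refl (fun τ : ℝ ↦ τ ^ m) _).const_mul_left a)
  exact h2.congr_left fun τ ↦ by ring

theorem ordT_pow {χ : ℝ → ℝ} {B : ℝ} (hB : ∀ τ ∈ Icc (0 : ℝ) 1, |χ τ| ≤ B) :
    ∀ {m : ℕ} {φ : ℝ → ℝ}, (∀ τ ∈ Icc (0 : ℝ) 1, φ τ = τ ^ m * χ τ) → OrdT (m + 1) φ → χ 0 = 0 ∨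
      χ =O[𝓝[>] 0] fun τ ↦ τ ^ 1
  | 0, φ, e, h => by
    rcases h with h | h | h
    · omega
    · exact .inl (by simpa [h.2] using (e 0 (by simp)).symm)
    · refine .inr (h.congr' ?_ EventuallyEq.rfl)
      filter_upwards [Ioc_mem_nhdsGT one_pos] with τ hτ
      simpa using e τ (Ioc_subset_Icc_self hτ)
  | m + 1, φ, e, h => ordT_pow hB (fun _ _ ↦ rfl) (ordT_step (a := 0) (B := B)
      (ψ := fun τ ↦ τ ^ m * χ τ) (fun τ hτ ↦ by rw [e τ hτ]; ring) (fun τ hτ ↦ by
        rw [abs_mul, abs_pow, abs_of_nonneg hτ.1]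
        exact (mul_le_of_le_one_left (abs_nonneg _) (pow_le_one₀ hτ.1 hτ.2)).trans (hB τ hτ)) h).2

variable {P : St} {c : Ctx}

theorem finT_sound (G : c.Good P) (hn : c.n = nn P.Ss) : ∀ (t : Dt) (vs : List Vr)
    (bs : List (ℤ × ℤ)) (Y pre : List ℝ) (a : TM) (f : List ℝ → ℝ) (κ : ℝ)
    (h : Adm P (alg vs bs) pre), 0 < κ → vs.length = bs.length →
    P.Ss.drop pre.length = strides vs → InB bs Y → VG h.sx c.n a (fun x ↦ κ * f (aff vs bs x)) →
    Hy t bs f → finT c P.Ss t vs bs (triv pre) (P.Ss.take pre.length).prod a = true →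
    0 ≤ f Y ∧ (Str t Y → 0 < f Y) := by
  intro t vs
  induction vs generalizing t with
  | nil =>
    rintro (_ | _) Y pre a f κ h k0 hl hS hY va hH e
    · cases hY
      cases t
      case pos =>
        have := (mul_pos_iff_of_pos_left k0).1 (va.posG G e (τ := []) rfl)
        exact ⟨this.le, fun _ ↦ this⟩
      case nn => exact ⟨hH, nofun⟩
      all_goals exact absurd e (by simp [finT])
    · simp at hl
  | cons v vs IH0 =>
    rintro (_ | ⟨b, bs⟩) Y pre a f κ h k0 hl hS hY0 va hH e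
    · simp at hl
    obtain _ | ⟨hy, hY⟩ := id hY0
    rename_i y Y
    have hl' := Nat.succ.inj hl
    have hp : pre.length < P.Ss.length := by
      by_contra hp
      rw [List.drop_of_length_le (not_lt.1 hp)] at hS
      simp [strides] at hS
    rw [List.drop_eq_getElem_cons hp] at hS
    obtain ⟨s1, s2⟩ := List.cons.inj hS
    have IH := fun t (τ : ℝ) a f κ (h : Adm P (alg vs bs) (pre ++ [τ])) k ↦
      IH0 t bs Y (pre ++ [τ]) a f κ h k hl' (by rw [List.length_append]; exact s2) hY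
    have s3 : ∀ τ : ℝ, (P.Ss.take (pre ++ [τ]).length).prod =
        (P.Ss.take pre.length).prod * (2 * v.d + 1) := fun τ ↦ by
      rw [List.length_append, List.length_singleton, List.prod_take_succ _ _ hp, s1]
    simp only [s3, ← triv_snoc] at IH
    have y0 : 0 < b.1 → 0 < y := fun k ↦
      (div_pos (Int.cast_pos.2 k) (by positivity)).trans_le hy.1
    obtain ⟨τ, hτ, rfl⟩ := aff1_surj v hy
    cases t
    case pos =>
      obtain ⟨x, hx, e'⟩ := aff_surj hl hY0
      have := (mul_pos_iff_of_pos_left k0).1 (va.posG G e hx)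
      rw [e'] at this
      exact ⟨this.le, fun _ ↦ this⟩
    case nn => exact ⟨allB_iff.1 hH _ hY0, nofun⟩
    case no => exact absurd e (by simp [finT])
    case nx t => exact IH t τ a _ κ (h.next hτ) k0 (va.inst hτ) (hH _ hy.1 hy.2) e
    case dv m t =>
      rw [finT] at e
      cases ho : v.os b <;> rw [ho] at e <;>
        simp only [cond_true, cond_false, Bool.and_eq_true, decide_eq_true_eq, Nat.blt_eq,
          Nat.ble_eq, frN_eq] at e
      · have := IH t τ a _ κ (h.next hτ) k0 (va.inst hτ) (hH.2 _ (y0 e.1) hy.2) e.2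
        exact ⟨this.1, fun s ↦ this.2 s.2⟩
      obtain ⟨⟨⟨b0, m0⟩, m1⟩, e⟩ := e
      have b0 : (0 : ℝ) < b.2 / 2 ^ 47 := div_pos (Int.cast_pos.2 b0) (by positivity)
      obtain ⟨j, hj⟩ := Nat.exists_eq_add_of_le' m1
      rw [Vr.o] at hj
      simp only [alg, ho, cond_true, hj] at h va hτ
      obtain ⟨a', g, v2, e2, e3⟩ := dvs_sound G hn hp (j := j) h va e fun x hx ↦ by
        simpa only [aff, aff1_os ho] using
          ((allB_iff.1 hH.1 _ (aff_mem hl' hY hx)).ordT b0).smul κ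
      rcases hτ.1.eq_or_lt with t0 | t0
      · obtain ⟨x, hx, rfl⟩ := aff_surj hl' hY
        have := e3 τ hτ x hx
        have t1 : τ = 0 := t0.symm
        simp only [aff] at this
        rw [t1, zero_pow m0.ne', zero_mul, mul_eq_zero_iff_left k0.ne'] at this
        rw [t1]
        exact ⟨this.ge, fun s ↦ absurd s.1 (by simp [aff1_os ho])⟩
      have t0 : 0 < τ := t0
      have tm := pow_pos t0 m
      have := IH t τ a' (fun x ↦ f (aff1 v b τ :: x)) (κ / τ ^ m) (h.next hτ) (div_pos k0 tm)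
        ((VG.inst (m := j) (h := h) v2 hτ).congr fun x hx ↦ by
          have := e3 τ hτ x hx
          simp only [aff] at this
          rw [div_mul_eq_mul_div, this]; field_simp)
        (hH.2 _ (by rw [aff1_os ho]; exact mul_pos b0 t0) hy.2) e2
      exact ⟨this.1, fun s ↦ this.2 s.2⟩
    case ct m l r t =>
      rw [finT] at e
      cases ho : v.os b <;> rw [ho] at e <;>
        simp only [cond_true, cond_false, Bool.and_eq_true, decide_eq_true_eq,
          Nat.ble_eq, frN_eq] at e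
      · have := IH t τ a _ κ (h.next hτ) k0 (va.inst hτ) (hH.2 _ (y0 e.1) hy.2) e.2
        exact ⟨this.1, fun s ↦ this.2 (s.2 (y0 e.1))⟩
      obtain ⟨⟨b0, m1⟩, e⟩ := e
      have b0 : (0 : ℝ) < b.2 / 2 ^ 47 := div_pos (Int.cast_pos.2 b0) (by positivity)
      obtain ⟨j, hj⟩ := Nat.exists_eq_add_of_le' m1
      rw [Vr.o, add_comm m 1, ← add_assoc] at hj
      simp only [alg, ho, cond_true, hj] at h va hτ
      obtain ⟨⟨q, q1, q2, q3⟩, -⟩ := hH
      generalize hβ : (b.2 : ℝ) / 2 ^ 47 = β at *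
      have o1 : ∀ x ∈ (Alg.of (alg vs bs)).D, OrdT (m + 1) fun τ ↦ κ * f (β * τ :: aff vs bs x) -
          τ ^ m * (κ * β ^ m * q (aff vs bs x)) := fun x hx ↦ by
        have := ((allB_iff.1 q1 _ (aff_mem hl' hY hx)).ordT b0).smul κ
        simpa only [mul_sub, mul_pow, mul_assoc, mul_left_comm] using this
      obtain ⟨a', g, v2, e2, e3⟩ := dvs_sound G hn hp (j := j + 1) h va e fun x hx ↦ by
        simpa only [aff, aff1_os ho, hβ] using (o1 x hx).of_succ
      simp only [Bool.and_eq_true, decide_eq_true_eq, frT_eq] at e2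
      obtain ⟨g0, g1, e4, v0, v1⟩ := v2.split G hn hp e2.1.1
      simp only [aff, aff1_os ho, hβ] at e3 ⊢
      have e5 : ∀ x ∈ (Alg.of (alg vs bs)).D, κ * β ^ m * q (aff vs bs x) = g0 x := fun x hx ↦ by
        have b1 := fun τ (hτ : τ ∈ Icc (0 : ℝ) 1) ↦ v1.bound (τ := τ :: x) ⟨τ, hτ, x, hx, rfl⟩
        have b2 := fun τ (hτ : τ ∈ Icc (0 : ℝ) 1) ↦ v2.bound (τ := τ :: x) ⟨τ, hτ, x, hx, rfl⟩
        have o2 := ordT_pow (χ := fun τ ↦ g (τ :: x) - κ * β ^ m * q (aff vs bs x))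
          (fun τ hτ ↦ (abs_sub _ _).trans (add_le_add (b2 τ hτ) le_rfl))
          (fun τ hτ ↦ by rw [e3 τ hτ x hx]; ring) (o1 x hx)
        have := (ordT_step (m := 0) (a := g0 x - κ * β ^ m * q (aff vs bs x))
          (φ := fun τ ↦ g (τ :: x) - κ * β ^ m * q (aff vs bs x))
          (fun τ hτ ↦ by rw [e4 τ hτ x hx]; ring) b1
          (.inr (o2.imp_left fun k ↦ ⟨rfl, k⟩))).1
        linarith
      have bm := pow_pos b0 m
      have i0 := IH l 0 _ q (κ * β ^ m) (h.next (Alg.I_zero _)) (mul_pos k0 bm) (v0.congr e5) q2 e2.2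
      rcases hτ.1.eq_or_lt with t0 | t0
      · obtain ⟨x, hx, rfl⟩ := aff_surj hl' hY
        have t1 : τ = 0 := t0.symm
        have := e3 τ hτ x hx
        rw [e4 τ hτ x hx, ← e5 x hx, t1, zero_mul, add_zero] at this
        have e6 : f (β * 0 :: aff vs bs x) = 0 ^ m * β ^ m * q (aff vs bs x) :=
          mul_left_cancel₀ k0.ne' (by linear_combination this)
        rw [t1, e6]
        refine ⟨by have := i0.1; positivity, fun s ↦ ?_⟩
        simp only [Str, mul_zero, lt_irrefl, or_false, false_and] at s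
        rw [s.1.1]
        simpa using i0.2 s.1.2
      have t0 : 0 < τ := t0
      have tm := pow_pos t0 (m + 1)
      have y1 := mul_pos b0 t0
      have i1 := IH r τ _ (fun x ↦ f (β * τ :: x) - (β * τ) ^ m * q x) (κ / τ ^ (m + 1))
        (h.next hτ) (div_pos k0 tm) ((VG.inst (m := j) (h := h) v1 hτ).congr fun x hx ↦ by
          have := e3 τ hτ x hx
          rw [e4 τ hτ x hx, ← e5 x hx] at this
          rw [div_mul_eq_mul_div, div_eq_iff tm.ne']
          linear_combination this)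
        (q3 _ y1 (by simpa only [aff1_os ho, hβ] using hy.2)) e2.1.2
      have ym := pow_pos y1 m
      have p0 := mul_nonneg ym.le i0.1
      refine ⟨by linarith [i1.1], fun s ↦ s.1.elim (fun s ↦ ?_) fun s ↦ by linarith [i1.2 s.2]⟩
      linarith [i1.1, mul_pos ym (i0.2 s.2)]

/-- the chart is valid on the box -/
def GdT (C : Chart) (ts : List Dt) (B : List (ℤ × ℤ)) : Prop := ∀ Y, InB B Y →
  (∀ n ∈ C.cons, 0 ≤ outR (C.prog.take n) 0 Y) → (∀ t ∈ ts, Hy t B (outR C.prog 0)) →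
  0 ≤ outR C.prog 0 Y ∧ ((∀ t ∈ ts, Str t Y) → 0 < outR C.prog 0 Y)

variable {C : Chart} {ts : List Dt} {B : List (ℤ × ℤ)}

theorem GdT.split (i : ℕ) (l : GdT C ts (splL B i)) (r : GdT C ts (splR B i)) : GdT C ts B :=
  fun Y hY hc hH ↦
    let ⟨a, b, c⟩ := spl_mem i hY
    c.elim (fun k ↦ l Y k hc fun t ht ↦ (hH t ht).mono a)
      fun k ↦ r Y k hc fun t ht ↦ (hH t ht).mono b

theorem leafT_sound (h2 : 2 * nn (strides C.vs) ≤ 16384) (hl : C.vs.length = B.length)
    (h0 : 0 < B.length) {k : ℕ} (e : leafT C ts (mkC (strides C.vs) []) k B = true) :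
    GdT C ts B := by
  obtain ⟨P, p1, p2⟩ : ∃ P : St, P.Ss = strides C.vs ∧ P.fl = flags C.vs B := by
    obtain _ | ⟨b, B⟩ := B
    · simp at h0
    generalize C.vs = vs at hl
    obtain _ | ⟨v, vs⟩ := vs
    · simp at hl
    exact ⟨⟨strides (v :: vs), flags (v :: vs) (b :: B), (flags vs B).map fun _ ↦ 0, {0}, 0,
      by simp [strides], by simp, rfl, by simp,
      fun τ h ↦ by rw [show τ = 0 from h]; exact flag_zero (flags (v :: vs) (b :: B))⟩, rfl, rfl⟩
  have G := mkC_good h2 P p1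
  have h : Adm P (alg C.vs B) [] := ⟨by simp, fun x hx ↦ by
    rw [p2, ← alg_fl]; exact (Alg.of_mem hx).2⟩
  rw [leafT, frC_eq, frL_eq, ← p2] at e
  have hn : (setF (mkC (strides C.vs) []) (pm (strides C.vs) (evP P.fl) 1)).n = nn P.Ss := by
    rw [p1]; rfl
  generalize setF _ _ = c at G hn e
  have hv := varT_IV (S := h.sx) G C.vs B 1 id (fun i z hi ↦ by
      rw [← p1] at hi ⊢
      obtain ⟨a1, a2, a3⟩ := mo_str i P.Ss G.k0 hi
      have a4 : _ < c.n := hn ▸ keep_lt a1 a2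
      have a5 : i < C.vs.length := by
        by_contra hh
        rw [p1, List.getD_eq_default _ _ (by simpa [strides] using hh)] at hi
        omega
      rw [one_mul]
      exact (VG.mon (S := h.sx) a4 (by have := G.n2; omega) a1 z).congr fun x hx ↦ by
        rw [Sx.mo, id, ← a3 x (by rwa [alg_len hl hx])]; rfl)
    (fun i ↦ (Alg.var_N _ i).congr fun x _ ↦ gtR_eq x i) fun x hx ↦ alg_len hl hx
  intro Y hY hc hH
  cases h3 : Nat.ble 3 k <;> rw [h3] at e <;>
    simp only [cond_true, cond_false, Bool.and_eq_true, Nat.blt_eq] at e <;>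
    obtain ⟨s, hs, e2⟩ := run_sound G hv _ (IV.nil G) e.2
  · obtain ⟨x, hx, rfl⟩ := aff_surj hl hY
    have h5 := hc (C.cons.getD k 0) (by
      rw [List.getD_eq_getElem _ _ e.1]; exact List.getElem_mem _)
    have h4 := ((hs 0).smul (-1)).posG G e2 hx
    simp only [outR, id, Int.reduceNeg, Int.cast_neg, Int.cast_one] at h4 h5
    linarith
  · have m : ts.getD (k - 3) .no ∈ ts := by
      rw [List.getD_eq_getElem _ _ e.1]; exact List.getElem_mem _
    rw [← p1] at e2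
    have := finT_sound G hn _ C.vs B Y [] _ (outR C.prog 0) 1 h one_pos hl p1 hY
      ((hs 0).congr fun _ _ ↦ one_mul _) (hH _ m) e2
    exact ⟨this.1, fun s ↦ this.2 (s _ m)⟩

theorem goT_sound {F : ℕ → List (ℤ × ℤ) → Bool} {n : ℕ}
    (hF : ∀ k B, B.length = n → F k B = true → GdT C ts B) :
    ∀ f x B, B.length = n → go F f x B ≠ 0 → GdT C ts B
  | 0, _, _, _, h => absurd rfl h
  | f + 1, x, B, hB, h => by
    rw [go, spl_eq] at h
    cases h1 : Nat.ble 8 (Nat.mod x 16) <;> rw [h1] at h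
    · cases h2 : go F f (Nat.div x 16) (splL B (Nat.mod x 16)) with
      | zero => rw [h2] at h; exact absurd rfl h
      | succ y =>
        rw [h2] at h
        exact GdT.split _ (goT_sound hF f _ _ ((spl_len B _).1.trans hB) (by rw [h2]; omega))
          (goT_sound hF f y _ ((spl_len B _).2.trans hB) h)
    · cases h2 : F (Nat.sub (Nat.mod x 16) 8) B
      · rw [h2] at h; exact absurd rfl h
      · exact hF _ B hB h2

theorem chkT_sound {x : ℕ} (h : chkT C ts x B = true) : GdT C ts B := by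
  rw [chkT, frC_eq, Bool.and_eq_true, Bool.and_eq_true, Bool.and_eq_true, Nat.ble_eq, Nat.beq_eq,
    Nat.blt_eq, Nat.blt_eq] at h
  exact goT_sound (fun k B' hB e ↦ leafT_sound h.1.1.1 (h.1.1.2.trans hB.symm) (hB ▸ h.1.2) e)
    _ x B rfl h.2.ne'

end Pool.Agent.Lib.MP_d6150d_an
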