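import Pool.Agent.Lib.MP_d6150d_an.GMac
import Pool.Agent.Lib.MP_d6150d_an.KNJ

/-! The side `0 ≤ D + F` of the isochronous center `(-1 / 2, 1 / 2)`: polynomial forms. -/

namespace Pool.Agent.Lib.MP_d6150d_an

namespace UX

/-- the kernel divided by `y` -/
noncomputable def kC (m u A B v : ℝ) : ℝ :=
  let L := A - 2 * B
  let l := 2 * (1 - m) - L
  let a := l - u - L
  let b := a - u
  let r := 2 * B * b - A * a
  let g := r - 2 * m * l
  let c := g - u * l + r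
  let s := 2 * B * (b * b + c - u * l) - A * (a * a + c)
  let Z0 := (1 - m) * (1 - m) + m * L
  let Z1 := m * (Z0 - l * l - r)
  let Z2 := (2 * m + l) * Z1 - m * (m * Z0 + 2 * l * g + s)
  32 * (1 + m) - (16 * Z2 - 64 * Z1 + 32 * Z0) -
    v * (12 * Z2 - 16 * Z1 + v * (3 * Z2 + 4 * Z1 + Z0 + v * ((Z2 + 4 * Z1 + 3 * Z0) / 4)))

/-- the scaled form for `0 < t` -/
noncomputable def gR (K x ρ m u e A B ν c o : ℝ) : ℝ :=
  let y := K * x * ρ
  let k := K * ρ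
  let L := A - 2 * B
  let l := 2 * e - k * L
  let a := y * l - u - y * k * L
  let b := a - u
  let r := 2 * B * b - A * a
  let g := k * r - 2 * m * l
  let d := y * g - u * (y * l) + y * k * r
  let s := 2 * B * (b * b + d - u * (y * l)) - A * (a * a + d)
  let Z0 := x * (e * e) + m * L
  let Z1 := m * (Z0 - x * l * l - r)
  let Z2 := (2 * m + y * l) * Z1 - m * (m * Z0 + 2 * (x * l) * g + s)
  c * (32 * (1 + m) - y * k * (16 * Z2 - 64 * Z1 + 32 * Z0) - o) - (Z2 + 4 * Z1 + 3 * Z0) / 4 -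
    ν * (3 * Z2 + 4 * Z1 + Z0 + ν * (12 * Z2 - 16 * Z1))

/-- the scaled form for `t < 0` -/
noncomputable def gL (k m u n e A B ν o : ℝ) : ℝ :=
  let L := A - 2 * B
  let l := 2 * e - k * L
  let a := k * l - u - k * k * L
  let b := a - u
  let r := 2 * B * b - A * a
  let g := k * r - 2 * (1 - k * e) * l
  let d := k * g - u * (k * l) + k * k * r
  let s := 2 * B * (b * b + d - u * (k * l)) - A * (a * a + d)
  let Z0 := (1 - m) * n - m * l
  let Z1 := m * (Z0 + (2 * u - k * l) * l - k * r)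
  let Z2 := (2 * m + k * l) * Z1 - m * (m * Z0 - 2 * (u * (k * l)) * l - 2 * (u - k * l) * g + k * s)
  (Z2 + 4 * Z1 + 3 * Z0) / 4 + ν * (3 * Z2 + 4 * Z1 + Z0 +
    ν * (12 * Z2 - 16 * Z1 + ν * (16 * Z2 - 64 * Z1 + 32 * Z0 - 32 * n))) - o

/-- the coefficient of the separator -/
noncomputable def a4 (D F : ℝ) : ℝ := F * (640 * ja4 D F + 48 * ja2 D F) - 1

end UX

noncomputable def mKC (m u A B v : ℝ) : ℝ :=
  let z0 := ((Int.cast (1) : ℝ) - m)
  let z1 := (A - ((Int.cast (2) : ℝ) * B))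
  let z2 := (((Int.cast (2) : ℝ) * z0) - z1)
  let z3 := ((z0 * z0) + (m * z1))
  let z4 := ((z2 - u) - z1)
  let z5 := (z4 - u)
  let z6 := ((((Int.cast (2) : ℝ) * B) * z5) - (A * z4))
  let z7 := (m * ((z3 - (z2 * z2)) - z6))
  let z8 := (z6 - (((Int.cast (2) : ℝ) * m) * z2))
  let z9 := (u * z2)
  let z10 := ((z8 - z9) + z6)
  let z11 := (((((Int.cast (2) : ℝ) * m) + z2) * z7) - (m * (((m * z3) + (((Int.cast (2) : ℝ) * z2)
    * z8)) + ((((Int.cast (2) : ℝ) * B) * (((z5 * z5) + z10) - z9)) - (A * ((z4 * z4) + z10))))))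
  ((((Int.cast (32) : ℝ) * ((Int.cast (1) : ℝ) + m)) - ((((Int.cast (16) : ℝ) * z11) - ((Int.cast
    (64) : ℝ) * z7)) + ((Int.cast (32) : ℝ) * z3))) - (v * ((((Int.cast (12) : ℝ) * z11) -
    ((Int.cast (16) : ℝ) * z7)) + (v * (((((Int.cast (3) : ℝ) * z11) + ((Int.cast (4) : ℝ) * z7)) +
    z3) + (v * (((Int.cast (1) : ℝ) / (Nat.cast 4 : ℝ)) * ((z11 + ((Int.cast (4) : ℝ) * z7)) +
    ((Int.cast (3) : ℝ) * z3)))))))))

theorem mKC_0 (m u A B v : ℝ) : UX.kC m u A B v = (mKC m u A B v) := by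
  simp only [mKC, UX.kC]; push_cast; ring

noncomputable def mGR (K x ρ m u e A B ν c o : ℝ) : ℝ :=
  let z0 := ((K * x) * ρ)
  let z1 := (K * ρ)
  let z2 := (z0 * z1)
  let z3 := (A - ((Int.cast (2) : ℝ) * B))
  let z4 := (((Int.cast (2) : ℝ) * e) - (z1 * z3))
  let z5 := (z0 * z4)
  let z6 := ((x * (e * e)) + (m * z3))
  let z7 := (x * z4)
  let z8 := ((z5 - u) - (z2 * z3))
  let z9 := (z8 - u)
  let z10 := ((((Int.cast (2) : ℝ) * B) * z9) - (A * z8))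
  let z11 := (m * ((z6 - (z7 * z4)) - z10))
  let z12 := ((z1 * z10) - (((Int.cast (2) : ℝ) * m) * z4))
  let z13 := (u * z5)
  let z14 := (((z0 * z12) - z13) + (z2 * z10))
  let z15 := (((((Int.cast (2) : ℝ) * m) + z5) * z11) - (m * (((m * z6) + (((Int.cast (2) : ℝ) * z7)
    * z12)) + ((((Int.cast (2) : ℝ) * B) * (((z9 * z9) + z14) - z13)) - (A * ((z8 * z8) + z14))))))
  (((c * ((((Int.cast (32) : ℝ) * ((Int.cast (1) : ℝ) + m)) - (z2 * ((((Int.cast (16) : ℝ) * z15) -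
    ((Int.cast (64) : ℝ) * z11)) + ((Int.cast (32) : ℝ) * z6)))) - o)) - (((Int.cast (1) : ℝ) /
    (Nat.cast 4 : ℝ)) * ((z15 + ((Int.cast (4) : ℝ) * z11)) + ((Int.cast (3) : ℝ) * z6)))) - (ν *
    (((((Int.cast (3) : ℝ) * z15) + ((Int.cast (4) : ℝ) * z11)) + z6) + (ν * (((Int.cast (12) : ℝ) *
    z15) - ((Int.cast (16) : ℝ) * z11))))))

theorem mGR_0 (K x ρ m u e A B ν c o : ℝ) : UX.gR K x ρ m u e A B ν c o = (mGR K x ρ m u e A B ν c
    o) := by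
  simp only [mGR, UX.gR]; push_cast; ring

noncomputable def mGL (k m u n e A B ν o : ℝ) : ℝ :=
  let z0 := (A - ((Int.cast (2) : ℝ) * B))
  let z1 := (((Int.cast (2) : ℝ) * e) - (k * z0))
  let z2 := (k * z1)
  let z3 := ((((Int.cast (1) : ℝ) - m) * n) - (m * z1))
  let z4 := (k * k)
  let z5 := ((z2 - u) - (z4 * z0))
  let z6 := (z5 - u)
  let z7 := ((((Int.cast (2) : ℝ) * B) * z6) - (A * z5))
  let z8 := (m * ((z3 + ((((Int.cast (2) : ℝ) * u) - z2) * z1)) - (k * z7)))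
  let z9 := (u * z2)
  let z10 := ((k * z7) - (((Int.cast (2) : ℝ) * ((Int.cast (1) : ℝ) - (k * e))) * z1))
  let z11 := (((k * z10) - z9) + (z4 * z7))
  let z12 := (((((Int.cast (2) : ℝ) * m) + z2) * z8) - (m * ((((m * z3) - (((Int.cast (2) : ℝ) * z9)
    * z1)) - (((Int.cast (2) : ℝ) * (u - z2)) * z10)) + (k * ((((Int.cast (2) : ℝ) * B) * (((z6 *
    z6) + z11) - z9)) - (A * ((z5 * z5) + z11)))))))
  (((((Int.cast (1) : ℝ) / (Nat.cast 4 : ℝ)) * ((z12 + ((Int.cast (4) : ℝ) * z8)) + ((Int.cast (3) :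
    ℝ) * z3))) + (ν * (((((Int.cast (3) : ℝ) * z12) + ((Int.cast (4) : ℝ) * z8)) + z3) + (ν *
    ((((Int.cast (12) : ℝ) * z12) - ((Int.cast (16) : ℝ) * z8)) + (ν * (((((Int.cast (16) : ℝ) *
    z12) - ((Int.cast (64) : ℝ) * z8)) + ((Int.cast (32) : ℝ) * z3)) - ((Int.cast (32) : ℝ) *
    n)))))))) - o)

theorem mGL_0 (k m u n e A B ν o : ℝ) : UX.gL k m u n e A B ν o = (mGL k m u n e A B ν o) := by
  simp only [mGL, UX.gL]; push_cast; ring

noncomputable def mA4 (D F : ℝ) : ℝ :=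
  ((F * (((Int.cast (640) : ℝ) * (((Int.cast (1) : ℝ) / (Nat.cast 1080 : ℝ)) * ((((((((((Int.cast
    (4) : ℝ) - ((Int.cast (57) : ℝ) * F)) - ((Int.cast (6) : ℝ) * D)) + ((Int.cast (156) : ℝ) * (F *
    F))) + (((Int.cast (102) : ℝ) * D) * F)) - ((Int.cast (60) : ℝ) * (D * D))) - ((Int.cast (103) :
    ℝ) * ((F * F) * F))) - (((Int.cast (312) : ℝ) * D) * (F * F))) - (((Int.cast (480) : ℝ) * (D *
    D)) * F)) - ((Int.cast (320) : ℝ) * ((D * D) * D))))) + ((Int.cast (48) : ℝ) * (((Int.cast (1) :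
    ℝ) / (Nat.cast 6 : ℝ)) * (((Int.cast (1) : ℝ) - F) - ((Int.cast (2) : ℝ) * D)))))) - (Int.cast
    (1) : ℝ))

theorem mA4_0 (D F : ℝ) : UX.a4 D F = (mA4 D F) := by
  simp only [mA4, UX.a4, ja2, ja4]; push_cast; ring

end Pool.Agent.Lib.MP_d6150d_an
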