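import Pool.Agent.Lib.MP_d6150d_an.UXtULD

/-! A generated chart: the computations. -/

namespace Pool.Agent.Lib.MP_d6150d_an.UXtUL

theorem k0 : chkT C ts 0xbbb30cc1bb0bb0131 [(0, 15393162788864), (0, 14293651161088), (0,
    3298534883328), (0, 17592186044416)] = true := by
  decide +kernel

theorem k1 : chkT C ts 0xbc0cc01 [(0, 15393162788864), (0, 14293651161088), (0, 3298534883328),
    (17592186044416, 35184372088832)] = true := by
  decide +kernel

theorem k2 : chkT C ts 0xccc10 [(0, 15393162788864), (0, 14293651161088), (0, 3298534883328),
    (35184372088832, 70368744177664)] = true := by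
  decide +kernel

theorem k3 : chkT C ts 0xccc1bb0cbb13133 [(15393162788864, 30786325577728), (0, 14293651161088), (0,
    3298534883328), (0, 70368744177664)] = true := by
  decide +kernel

end Pool.Agent.Lib.MP_d6150d_an.UXtUL
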