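import Pool.Agent.Lib.MP_d6150d_an.GEq
import Pool.Agent.Lib.MP_d6150d_an.UXM
import Pool.Agent.Lib.MP_d6150d_an.GTreeS
import Pool.Agent.Lib.MP_d6150d_an.UXtULK0

/-! A generated chart: the inequality. -/

namespace Pool.Agent.Lib.MP_d6150d_an.UXtUL

set_option linter.unnecessarySeqFocus false
set_option linter.unusedTactic false
set_option linter.unusedVariables false
set_option linter.unusedSimpArgs false

def box : List (ℤ × ℤ) := [(0, 30786325577728), (0, 14293651161088), (0, 3298534883328), (0,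
    70368744177664)]

theorem gd : GdT C ts box := .split 0 (.split 3 (.split 3 (chkT_sound k0) (chkT_sound k1))
    (chkT_sound k2)) (chkT_sound k3)

set_option maxRecDepth 100000 in
theorem eq {k a x e b F D p j i y s h z W E u m N n r g l A B z22 o z24 : ℝ} (hb : b = k * e) (hF :
    F = 1 / 2 - b) (hD : D = a - F) (hp : p = 1 - 2 * e) (hj : j = (1 - F)⁻¹) (hi : i = F⁻¹) (hy : y
    = k * x) (hs : s = k * y) (hh : h = -(2 * (a + b))) (hz : z = y * (k * p)) (hW : W = (-D + (1 +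
    2 * D) * s - (1 + D) * s ^ 2)⁻¹) (hE : E = x * ((h + k * (1 + D) * i * (p - s)) * W)) (hu : u =
    (1 - k * E) * j) (hm : m = -(F * u)) (hN : N = u⁻¹ * W) (hn : n = z * N) (hr : r = (√(1 + 4 *
    n))⁻¹) (hg : g = (√N)⁻¹) (hl : l = F * j * E - (-(2 * e * j))) (hA : A = x * h * (u * W)) (hB :
    B = -(y * y * (1 + D) * (u * W))) (hz22 : z22 = UX.a4 D F) (ho : o = y * x * (k ^ 2 * p ^ 3) * N
    ^ 3 * g * (64 * F - 32 * z22 * n * r ^ 5)) (hz24 : z24 = UX.gL k m u l E A B n o) : outR prog 0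
    [k, a, x, e] = z24 := by
  replace hb : b = (k * e) := hb.trans (by push_cast <;> ring)
  replace hF : F = (((Int.cast (1) : ℝ) / (Nat.cast 2 : ℝ)) - b) := hF.trans (by push_cast <;> ring)
  replace hD : D = (a - F) := hD.trans (by push_cast <;> ring)
  replace hp : p = ((Int.cast (1) : ℝ) - ((Int.cast (2) : ℝ) * e)) := hp.trans (by push_cast <;>
    ring)
  replace hj : j = ((Int.cast (1) : ℝ) - F)⁻¹ := hj.trans (by push_cast <;> ring)
  replace hi : i = F⁻¹ := hi.trans (by push_cast <;> ring)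
  replace hy : y = (k * x) := hy.trans (by push_cast <;> ring)
  replace hs : s = (k * y) := hs.trans (by push_cast <;> ring)
  replace hh : h = ((Int.cast (-1) : ℝ) * ((Int.cast (2) : ℝ) * (a + b))) := hh.trans (by push_cast
    <;> ring)
  replace hz : z = (y * (k * p)) := hz.trans (by push_cast <;> ring)
  replace hW : W = ((((Int.cast (-1) : ℝ) * D) + (((Int.cast (1) : ℝ) + ((Int.cast (2) : ℝ) * D)) *
    s)) - (((Int.cast (1) : ℝ) + D) * (s * s)))⁻¹ := hW.trans (by push_cast <;> ring)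
  replace hE : E = (x * ((h + (((k * ((Int.cast (1) : ℝ) + D)) * i) * (p - s))) * W)) := hE.trans
    (by push_cast <;> ring)
  replace hu : u = (((Int.cast (1) : ℝ) - (k * E)) * j) := hu.trans (by push_cast <;> ring)
  replace hm : m = ((Int.cast (-1) : ℝ) * (F * u)) := hm.trans (by push_cast <;> ring)
  replace hN : N = (u⁻¹ * W) := hN.trans (by push_cast <;> ring)
  replace hn : n = (z * N) := hn.trans (by push_cast <;> ring)
  replace hr : r = (√((Int.cast (1) : ℝ) + ((Int.cast (4) : ℝ) * n)))⁻¹ := hr.trans (congrArg (fun x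
    : ℝ ↦ (√x)⁻¹) (by push_cast <;> ring))
  replace hl : l = (((F * j) * E) - ((Int.cast (-1) : ℝ) * (((Int.cast (2) : ℝ) * e) * j))) :=
    hl.trans (by push_cast <;> ring)
  replace hA : A = ((x * h) * (u * W)) := hA.trans (by push_cast <;> ring)
  replace hB : B = ((Int.cast (-1) : ℝ) * (((y * y) * ((Int.cast (1) : ℝ) + D)) * (u * W))) :=
    hB.trans (by push_cast <;> ring)
  replace hz22 : z22 = (mA4 D F) := hz22.trans (mA4_0 ..)
  replace ho : o = (((((y * x) * ((k * k) * ((p * p) * p))) * ((N * N) * N)) * g) * (((Int.cast (64)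
    : ℝ) * F) - ((((Int.cast (32) : ℝ) * z22) * n) * (((r * r) * (r * r)) * r)))) := ho.trans (by
    push_cast <;> ring)
  replace hz24 : z24 = (mGL k m u l E A B n o) := hz24.trans (mGL_0 ..)
  subst hb hF hD hp hj hi hy hs hh hz hW hE hu hm hN hn hr hg hl hA hB hz22 ho hz24
  simp only [outR, prog, prog1, prog2, prog3, runR, stepR, gtR, mGR, mGL, mKC, mA4, mMu]

theorem l0 : ((0 : ℤ) : ℝ) / 2 ^ 47 = 0 := by norm_num
theorem u0 : (7 / 32 : ℝ) = ((30786325577728 : ℤ) : ℝ) / 2 ^ 47 := by norm_num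
theorem l1 : ((0 : ℤ) : ℝ) / 2 ^ 47 = 0 := by norm_num
theorem u1 : (13 / 128 : ℝ) = ((14293651161088 : ℤ) : ℝ) / 2 ^ 47 := by norm_num
theorem l2 : ((0 : ℤ) : ℝ) / 2 ^ 47 = 0 := by norm_num
theorem u2 : (3 / 128 : ℝ) = ((3298534883328 : ℤ) : ℝ) / 2 ^ 47 := by norm_num
theorem l3 : ((0 : ℤ) : ℝ) / 2 ^ 47 = 0 := by norm_num
theorem u3 : (1 / 2 : ℝ) = ((70368744177664 : ℤ) : ℝ) / 2 ^ 47 := by norm_num

theorem out (H : ∀ t ∈ ts, Hy t box (outR prog 0)) {k a x e : ℝ} (a0 : 0 ≤ k) (b0 : k ≤ 7 / 32) (a1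
    : 0 ≤ a) (b1 : a ≤ 13 / 128) (a2 : 0 ≤ x) (b2 : x ≤ 3 / 128) (a3 : 0 ≤ e) (b3 : e ≤ 1 / 2) : 0 ≤
    outR prog 0 [k, a, x, e] ∧ ((∀ t ∈ ts, Str t [k, a, x, e]) → 0 < outR prog 0 [k, a, x, e]) :=
  gd [k, a, x, e] (.cons ⟨l0.le.trans a0, b0.trans u0.le⟩ (.cons ⟨l1.le.trans a1, b1.trans u1.le⟩
    (.cons ⟨l2.le.trans a2, b2.trans u2.le⟩ (.cons ⟨l3.le.trans a3, b3.trans u3.le⟩ (.nil)))))
    (List.forall_mem_nil _) H

end Pool.Agent.Lib.MP_d6150d_an.UXtUL
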