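import Pool.Agent.Lib.MP_d6150d_an.UXtURD

/-! A generated chart: the computations. -/

namespace Pool.Agent.Lib.MP_d6150d_an.UXtUR

theorem k0 : chkT C ts 0xbb2bb03bb31b0 [(0, 2199023255552), (0, 70368744177664), (0,
    35184372088832), (0, 9895604649984)] = true := by
  decide +kernel

theorem k1 : chkT C ts 0xbb2bb03bb2bb231 [(2199023255552, 4398046511104), (0, 70368744177664), (0,
    35184372088832), (0, 9895604649984)] = true := by
  decide +kernel

theorem k2 : chkT C ts 0xbbb02bbb023 [(4398046511104, 8796093022208), (0, 35184372088832), (0,
    35184372088832), (0, 9895604649984)] = true := by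
  decide +kernel

theorem k3 : chkT C ts 0xbbb12bb03 [(4398046511104, 8796093022208), (35184372088832,
    70368744177664), (0, 35184372088832), (0, 9895604649984)] = true := by
  decide +kernel

theorem k4 : chkT C ts 0xbb3bb31bb1b00 [(8796093022208, 17592186044416), (0, 35184372088832), (0,
    17592186044416), (0, 4947802324992)] = true := by
  decide +kernel

theorem k5 : chkT C ts 0xbb0bb31 [(8796093022208, 17592186044416), (0, 35184372088832), (0,
    17592186044416), (4947802324992, 9895604649984)] = true := by
  decide +kernel

theorem k6 : chkT C ts 0xbb1bb13 [(8796093022208, 17592186044416), (0, 35184372088832),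
    (17592186044416, 35184372088832), (0, 9895604649984)] = true := by
  decide +kernel

theorem k7 : chkT C ts 0xbbb13bb0bb032 [(8796093022208, 17592186044416), (35184372088832,
    70368744177664), (0, 35184372088832), (0, 9895604649984)] = true := by
  decide +kernel

theorem k8 : chkT C ts 0xbb3bb31bb1bb1bb1000 [(0, 17592186044416), (0, 70368744177664),
    (35184372088832, 70368744177664), (0, 9895604649984)] = true := by
  decide +kernel

theorem k9 : chkT C ts 0xbb3bbb031 [(17592186044416, 26388279066624), (0, 35184372088832), (0,
    17592186044416), (0, 4947802324992)] = true := by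
  decide +kernel

end Pool.Agent.Lib.MP_d6150d_an.UXtUR
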