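import Pool.Agent.Lib.MP_d6150d_an.UXtURD

/-! A generated chart: the computations. -/

namespace Pool.Agent.Lib.MP_d6150d_an.UXtUR

theorem k10 : chkT C ts 0xbbb03bb0bbb1b0231 [(26388279066624, 35184372088832), (0, 35184372088832),
    (0, 17592186044416), (0, 4947802324992)] = true := by
  decide +kernel

theorem k11 : chkT C ts 0xbbb30bb3bb301 [(17592186044416, 35184372088832), (0, 35184372088832), (0,
    17592186044416), (4947802324992, 9895604649984)] = true := by
  decide +kernel

theorem k12 : chkT C ts 0xbb3bb0bb031 [(17592186044416, 35184372088832), (0, 35184372088832),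
    (17592186044416, 35184372088832), (0, 9895604649984)] = true := by
  decide +kernel

theorem k13 : chkT C ts 0xbb1bb10bb3bb1b303 [(17592186044416, 35184372088832), (35184372088832,
    70368744177664), (0, 17592186044416), (0, 9895604649984)] = true := by
  decide +kernel

theorem k14 : chkT C ts 0xbbb30 [(17592186044416, 35184372088832), (35184372088832, 70368744177664),
    (17592186044416, 35184372088832), (0, 9895604649984)] = true := by
  decide +kernel

theorem k15 : chkT C ts 0xbb0bb3b01 [(17592186044416, 35184372088832), (0, 70368744177664),
    (35184372088832, 70368744177664), (0, 9895604649984)] = true := by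
  decide +kernel

end Pool.Agent.Lib.MP_d6150d_an.UXtUR
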