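import Pool.Agent.Lib.MP_d6150d_an.GEq
import Pool.Agent.Lib.MP_d6150d_an.UXM
import Pool.Agent.Lib.MP_d6150d_an.GTreeS
import Pool.Agent.Lib.MP_d6150d_an.UXtURK0
import Pool.Agent.Lib.MP_d6150d_an.UXtURK1

/-! A generated chart: the inequality. -/

namespace Pool.Agent.Lib.MP_d6150d_an.UXtUR

set_option linter.unnecessarySeqFocus false
set_option linter.unusedTactic false
set_option linter.unusedVariables false
set_option linter.unusedSimpArgs false

def box : List (ℤ × ℤ) := [(0, 35184372088832), (0, 70368744177664), (0, 70368744177664), (0,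
    9895604649984)]

theorem gd : GdT C ts box := .split 0 (.split 2 (.split 0 (.split 0 (.split 0 (chkT_sound k0)
    (chkT_sound k1)) (.split 1 (chkT_sound k2) (chkT_sound k3))) (.split 1 (.split 2 (.split 3
    (chkT_sound k4) (chkT_sound k5)) (chkT_sound k6)) (chkT_sound k7))) (chkT_sound k8)) (.split 2
    (.split 1 (.split 2 (.split 3 (.split 0 (chkT_sound k9) (chkT_sound k10)) (chkT_sound k11))
    (chkT_sound k12)) (.split 2 (chkT_sound k13) (chkT_sound k14))) (chkT_sound k15))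

set_option maxRecDepth 100000 in
theorem eq {k a e x b F D p j i h y X q z W E m u N n r g A B κ z23 o z25 : ℝ} (hb : b = k * e) (hF
    : F = 1 / 2 - b) (hD : D = k * a - F) (hp : p = 1 - 2 * e) (hj : j = (1 - F)⁻¹) (hi : i = F⁻¹)
    (hh : h = 2 * (a + e)) (hy : y = k * x) (hX : X = x * p ^ 2) (hq : q = k * X) (hz : z = y * p)
    (hW : W = (1 + D - (1 + 2 * D) * q + D * q ^ 2)⁻¹) (hE : E = (h - D * j * (1 - q * p)) * W) (hm
    : m = 1 - y * p * E) (hu : u = m * i) (hN : N = u⁻¹ * W) (hn : n = z * N) (hr : r = (√(1 + 4 *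
    n))⁻¹) (hg : g = (√N)⁻¹) (hA : A = h * (u * W)) (hB : B = X * D * (u * W)) (hκ : κ = y * x * p *
    N ^ 3) (hz23 : z23 = UX.a4 D F) (ho : o = g * (64 * F + 32 * z23 * n * r ^ 5)) (hz25 : z25 =
    UX.gR k x p m u E A B n κ o) : outR prog 0 [k, a, e, x] = z25 := by
  replace hb : b = (k * e) := hb.trans (by push_cast <;> ring)
  replace hF : F = (((Int.cast (1) : ℝ) / (Nat.cast 2 : ℝ)) - b) := hF.trans (by push_cast <;> ring)
  replace hD : D = ((k * a) - F) := hD.trans (by push_cast <;> ring)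
  replace hp : p = ((Int.cast (1) : ℝ) - ((Int.cast (2) : ℝ) * e)) := hp.trans (by push_cast <;>
    ring)
  replace hj : j = ((Int.cast (1) : ℝ) - F)⁻¹ := hj.trans (by push_cast <;> ring)
  replace hi : i = F⁻¹ := hi.trans (by push_cast <;> ring)
  replace hh : h = ((Int.cast (2) : ℝ) * (a + e)) := hh.trans (by push_cast <;> ring)
  replace hy : y = (k * x) := hy.trans (by push_cast <;> ring)
  replace hX : X = (x * (p * p)) := hX.trans (by push_cast <;> ring)
  replace hq : q = (k * X) := hq.trans (by push_cast <;> ring)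
  replace hz : z = (y * p) := hz.trans (by push_cast <;> ring)
  replace hW : W = ((((Int.cast (1) : ℝ) + D) - (((Int.cast (1) : ℝ) + ((Int.cast (2) : ℝ) * D)) *
    q)) + (D * (q * q)))⁻¹ := hW.trans (by push_cast <;> ring)
  replace hE : E = ((h - ((D * j) * ((Int.cast (1) : ℝ) - (q * p)))) * W) := hE.trans (by push_cast
    <;> ring)
  replace hm : m = ((Int.cast (1) : ℝ) - ((y * p) * E)) := hm.trans (by push_cast <;> ring)
  replace hu : u = (m * i) := hu.trans (by push_cast <;> ring)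
  replace hN : N = (u⁻¹ * W) := hN.trans (by push_cast <;> ring)
  replace hn : n = (z * N) := hn.trans (by push_cast <;> ring)
  replace hr : r = (√((Int.cast (1) : ℝ) + ((Int.cast (4) : ℝ) * n)))⁻¹ := hr.trans (congrArg (fun x
    : ℝ ↦ (√x)⁻¹) (by push_cast <;> ring))
  replace hA : A = (h * (u * W)) := hA.trans (by push_cast <;> ring)
  replace hB : B = ((X * D) * (u * W)) := hB.trans (by push_cast <;> ring)
  replace hκ : κ = (((y * x) * p) * ((N * N) * N)) := hκ.trans (by push_cast <;> ring)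
  replace hz23 : z23 = (mA4 D F) := hz23.trans (mA4_0 ..)
  replace ho : o = (g * (((Int.cast (64) : ℝ) * F) + ((((Int.cast (32) : ℝ) * z23) * n) * (((r * r)
    * (r * r)) * r)))) := ho.trans (by push_cast <;> ring)
  replace hz25 : z25 = (mGR k x p m u E A B n κ o) := hz25.trans (mGR_0 ..)
  subst hb hF hD hp hj hi hh hy hX hq hz hW hE hm hu hN hn hr hg hA hB hκ hz23 ho hz25
  simp only [outR, prog, prog1, prog2, prog3, runR, stepR, gtR, mGR, mGL, mKC, mA4, mMu]

theorem l0 : ((0 : ℤ) : ℝ) / 2 ^ 47 = 0 := by norm_num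
theorem u0 : (1 / 4 : ℝ) = ((35184372088832 : ℤ) : ℝ) / 2 ^ 47 := by norm_num
theorem l1 : ((0 : ℤ) : ℝ) / 2 ^ 47 = 0 := by norm_num
theorem u1 : (1 / 2 : ℝ) = ((70368744177664 : ℤ) : ℝ) / 2 ^ 47 := by norm_num
theorem l2 : ((0 : ℤ) : ℝ) / 2 ^ 47 = 0 := by norm_num
theorem u2 : (1 / 2 : ℝ) = ((70368744177664 : ℤ) : ℝ) / 2 ^ 47 := by norm_num
theorem l3 : ((0 : ℤ) : ℝ) / 2 ^ 47 = 0 := by norm_num
theorem u3 : (9 / 128 : ℝ) = ((9895604649984 : ℤ) : ℝ) / 2 ^ 47 := by norm_num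

theorem out (H : ∀ t ∈ ts, Hy t box (outR prog 0)) {k a e x : ℝ} (a0 : 0 ≤ k) (b0 : k ≤ 1 / 4) (a1 :
    0 ≤ a) (b1 : a ≤ 1 / 2) (a2 : 0 ≤ e) (b2 : e ≤ 1 / 2) (a3 : 0 ≤ x) (b3 : x ≤ 9 / 128) : 0 ≤ outR
    prog 0 [k, a, e, x] ∧ ((∀ t ∈ ts, Str t [k, a, e, x]) → 0 < outR prog 0 [k, a, e, x]) :=
  gd [k, a, e, x] (.cons ⟨l0.le.trans a0, b0.trans u0.le⟩ (.cons ⟨l1.le.trans a1, b1.trans u1.le⟩
    (.cons ⟨l2.le.trans a2, b2.trans u2.le⟩ (.cons ⟨l3.le.trans a3, b3.trans u3.le⟩ (.nil)))))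
    (List.forall_mem_nil _) H

end Pool.Agent.Lib.MP_d6150d_an.UXtUR
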