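import Pool.Agent.Lib.MP_d6150d_an.UXtVRD

/-! A generated chart: the computations. -/

namespace Pool.Agent.Lib.MP_d6150d_an.UXtVR

theorem k0 : chkT C ts 0xbb3bb00bb2bb201 [(0, 3573412790272), (0, 140737488355328), (0,
    35184372088832), (0, 6597069766656)] = true := by
  decide +kernel

theorem k1 : chkT C ts 0xbb0b1bb01 [(3573412790272, 7146825580544), (0, 140737488355328), (0,
    35184372088832), (0, 6597069766656)] = true := by
  decide +kernel

theorem k2 : chkT C ts 0xbb2b3bb10 [(0, 1786706395136), (140737488355328, 211106232532992), (0,
    35184372088832), (0, 6597069766656)] = true := by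
  decide +kernel

theorem k3 : chkT C ts 0xbb2bb23bb2b30 [(0, 1786706395136), (211106232532992, 281474976710656), (0,
    35184372088832), (0, 6597069766656)] = true := by
  decide +kernel

theorem k4 : chkT C ts 0xbbb12bb2bb113 [(1786706395136, 3573412790272), (140737488355328,
    281474976710656), (0, 35184372088832), (0, 6597069766656)] = true := by
  decide +kernel

theorem k5 : chkT C ts 0xbbbb133bb0bb3b132 [(3573412790272, 7146825580544), (140737488355328,
    281474976710656), (0, 35184372088832), (0, 6597069766656)] = true := by
  decide +kernel

theorem k6 : chkT C ts 0xbb1bbb320 [(0, 3573412790272), (0, 140737488355328), (35184372088832,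
    70368744177664), (0, 6597069766656)] = true := by
  decide +kernel

theorem k7 : chkT C ts 0xbb1bb0bb010 [(0, 3573412790272), (140737488355328, 281474976710656),
    (35184372088832, 70368744177664), (0, 6597069766656)] = true := by
  decide +kernel

theorem k8 : chkT C ts 0xbbb30bb3b11 [(3573412790272, 7146825580544), (0, 281474976710656),
    (35184372088832, 70368744177664), (0, 6597069766656)] = true := by
  decide +kernel

theorem k9 : chkT C ts 0xbb3b2bb3b10bb2bb201 [(7146825580544, 14293651161088), (0, 140737488355328),
    (0, 35184372088832), (0, 6597069766656)] = true := by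
  decide +kernel

end Pool.Agent.Lib.MP_d6150d_an.UXtVR
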