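import Pool.Agent.Lib.MP_d6150d_an.UXtVRD

/-! A generated chart: the computations. -/

namespace Pool.Agent.Lib.MP_d6150d_an.UXtVR

theorem k10 : chkT C ts 0xbb1bb10bb3b1bb3b103 [(7146825580544, 14293651161088), (140737488355328,
    281474976710656), (0, 17592186044416), (0, 6597069766656)] = true := by
  decide +kernel

theorem k11 : chkT C ts 0xbb0bbb103 [(7146825580544, 14293651161088), (140737488355328,
    281474976710656), (17592186044416, 35184372088832), (0, 6597069766656)] = true := by
  decide +kernel

theorem k12 : chkT C ts 0xbb3bb30bb0bb311 [(7146825580544, 14293651161088), (0, 281474976710656),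
    (35184372088832, 70368744177664), (0, 6597069766656)] = true := by
  decide +kernel

end Pool.Agent.Lib.MP_d6150d_an.UXtVR
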