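import Pool.Agent.Lib.MP_d6150d_an.GEq
import Pool.Agent.Lib.MP_d6150d_an.UXM
import Pool.Agent.Lib.MP_d6150d_an.GTreeS
import Pool.Agent.Lib.MP_d6150d_an.UXtVRK0
import Pool.Agent.Lib.MP_d6150d_an.UXtVRK1

/-! A generated chart: the inequality. -/

namespace Pool.Agent.Lib.MP_d6150d_an.UXtVR

set_option linter.unnecessarySeqFocus false
set_option linter.unusedTactic false
set_option linter.unusedVariables false
set_option linter.unusedSimpArgs false

def box : List (ℤ × ℤ) := [(0, 14293651161088), (0, 281474976710656), (0, 70368744177664), (0,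
    6597069766656)]

theorem gd : GdT C ts box := .split 0 (.split 2 (.split 1 (.split 0 (chkT_sound k0) (chkT_sound k1))
    (.split 0 (.split 0 (.split 1 (chkT_sound k2) (chkT_sound k3)) (chkT_sound k4)) (chkT_sound
    k5))) (.split 0 (.split 1 (chkT_sound k6) (chkT_sound k7)) (chkT_sound k8))) (.split 2 (.split 1
    (chkT_sound k9) (.split 2 (chkT_sound k10) (chkT_sound k11))) (chkT_sound k12))

set_option maxRecDepth 100000 in
theorem eq {a c e x k b F D p j i ρ h y X q z W E m u N n r g A B κ z25 o z27 : ℝ} (hk : k = a * c)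
    (hb : b = k * e) (hF : F = 1 / 2 - b) (hD : D = a - F) (hp : p = 1 - 2 * e) (hj : j = (1 - F)⁻¹)
    (hi : i = F⁻¹) (hρ : ρ = c * p) (hh : h = 2 * (1 + c * e)) (hy : y = a * x) (hX : X = x * ρ ^ 2)
    (hq : q = a * X) (hz : z = y * (c * ρ)) (hW : W = (1 + D - (1 + 2 * D) * q + D * q ^ 2)⁻¹) (hE :
    E = (h - c * D * j * (1 - q * p)) * W) (hm : m = 1 - y * ρ * E) (hu : u = m * i) (hN : N = u⁻¹ *
    W) (hn : n = z * N) (hr : r = (√(1 + 4 * n))⁻¹) (hg : g = (√N)⁻¹) (hA : A = h * (u * W)) (hB : B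
    = X * D * (u * W)) (hκ : κ = y * x * (c ^ 4 * p) * N ^ 3) (hz25 : z25 = UX.a4 D F) (ho : o = g *
    (64 * F + 32 * z25 * n * r ^ 5)) (hz27 : z27 = UX.gR a x ρ m u E A B n κ o) : outR prog 0 [a, c,
    e, x] = z27 := by
  replace hk : k = (a * c) := hk.trans (by push_cast <;> ring)
  replace hb : b = (k * e) := hb.trans (by push_cast <;> ring)
  replace hF : F = (((Int.cast (1) : ℝ) / (Nat.cast 2 : ℝ)) - b) := hF.trans (by push_cast <;> ring)
  replace hD : D = (a - F) := hD.trans (by push_cast <;> ring)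
  replace hp : p = ((Int.cast (1) : ℝ) - ((Int.cast (2) : ℝ) * e)) := hp.trans (by push_cast <;>
    ring)
  replace hj : j = ((Int.cast (1) : ℝ) - F)⁻¹ := hj.trans (by push_cast <;> ring)
  replace hi : i = F⁻¹ := hi.trans (by push_cast <;> ring)
  replace hρ : ρ = (c * p) := hρ.trans (by push_cast <;> ring)
  replace hh : h = ((Int.cast (2) : ℝ) * ((Int.cast (1) : ℝ) + (c * e))) := hh.trans (by push_cast
    <;> ring)
  replace hy : y = (a * x) := hy.trans (by push_cast <;> ring)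
  replace hX : X = (x * (ρ * ρ)) := hX.trans (by push_cast <;> ring)
  replace hq : q = (a * X) := hq.trans (by push_cast <;> ring)
  replace hz : z = (y * (c * ρ)) := hz.trans (by push_cast <;> ring)
  replace hW : W = ((((Int.cast (1) : ℝ) + D) - (((Int.cast (1) : ℝ) + ((Int.cast (2) : ℝ) * D)) *
    q)) + (D * (q * q)))⁻¹ := hW.trans (by push_cast <;> ring)
  replace hE : E = ((h - (((c * D) * j) * ((Int.cast (1) : ℝ) - (q * p)))) * W) := hE.trans (by
    push_cast <;> ring)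
  replace hm : m = ((Int.cast (1) : ℝ) - ((y * ρ) * E)) := hm.trans (by push_cast <;> ring)
  replace hu : u = (m * i) := hu.trans (by push_cast <;> ring)
  replace hN : N = (u⁻¹ * W) := hN.trans (by push_cast <;> ring)
  replace hn : n = (z * N) := hn.trans (by push_cast <;> ring)
  replace hr : r = (√((Int.cast (1) : ℝ) + ((Int.cast (4) : ℝ) * n)))⁻¹ := hr.trans (congrArg (fun x
    : ℝ ↦ (√x)⁻¹) (by push_cast <;> ring))
  replace hA : A = (h * (u * W)) := hA.trans (by push_cast <;> ring)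
  replace hB : B = ((X * D) * (u * W)) := hB.trans (by push_cast <;> ring)
  replace hκ : κ = (((y * x) * (((c * c) * (c * c)) * p)) * ((N * N) * N)) := hκ.trans (by push_cast
    <;> ring)
  replace hz25 : z25 = (mA4 D F) := hz25.trans (mA4_0 ..)
  replace ho : o = (g * (((Int.cast (64) : ℝ) * F) + ((((Int.cast (32) : ℝ) * z25) * n) * (((r * r)
    * (r * r)) * r)))) := ho.trans (by push_cast <;> ring)
  replace hz27 : z27 = (mGR a x ρ m u E A B n κ o) := hz27.trans (mGR_0 ..)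
  subst hk hb hF hD hp hj hi hρ hh hy hX hq hz hW hE hm hu hN hn hr hg hA hB hκ hz25 ho hz27
  simp only [outR, prog, prog1, prog2, prog3, runR, stepR, gtR, mGR, mGL, mKC, mA4, mMu]

theorem l0 : ((0 : ℤ) : ℝ) / 2 ^ 47 = 0 := by norm_num
theorem u0 : (13 / 128 : ℝ) = ((14293651161088 : ℤ) : ℝ) / 2 ^ 47 := by norm_num
theorem l1 : ((0 : ℤ) : ℝ) / 2 ^ 47 = 0 := by norm_num
theorem u1 : (2 : ℝ) = ((281474976710656 : ℤ) : ℝ) / 2 ^ 47 := by norm_num
theorem l2 : ((0 : ℤ) : ℝ) / 2 ^ 47 = 0 := by norm_num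
theorem u2 : (1 / 2 : ℝ) = ((70368744177664 : ℤ) : ℝ) / 2 ^ 47 := by norm_num
theorem l3 : ((0 : ℤ) : ℝ) / 2 ^ 47 = 0 := by norm_num
theorem u3 : (3 / 64 : ℝ) = ((6597069766656 : ℤ) : ℝ) / 2 ^ 47 := by norm_num

theorem out (H : ∀ t ∈ ts, Hy t box (outR prog 0)) {a c e x : ℝ} (a0 : 0 ≤ a) (b0 : a ≤ 13 / 128)
    (a1 : 0 ≤ c) (b1 : c ≤ 2) (a2 : 0 ≤ e) (b2 : e ≤ 1 / 2) (a3 : 0 ≤ x) (b3 : x ≤ 3 / 64) : 0 ≤
    outR prog 0 [a, c, e, x] ∧ ((∀ t ∈ ts, Str t [a, c, e, x]) → 0 < outR prog 0 [a, c, e, x]) :=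
  gd [a, c, e, x] (.cons ⟨l0.le.trans a0, b0.trans u0.le⟩ (.cons ⟨l1.le.trans a1, b1.trans u1.le⟩
    (.cons ⟨l2.le.trans a2, b2.trans u2.le⟩ (.cons ⟨l3.le.trans a3, b3.trans u3.le⟩ (.nil)))))
    (List.forall_mem_nil _) H

end Pool.Agent.Lib.MP_d6150d_an.UXtVR
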