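import Pool.Agent.Lib.MP_d6150d_an.UXtXLD

/-! A generated chart: the computations. -/

namespace Pool.Agent.Lib.MP_d6150d_an.UXtXL

theorem k0 : chkT C ts 0xbb2bb20cc1bb232 [(0, 9895604649984), (0, 140737488355328), (0,
    10995116277760), (0, 17592186044416)] = true := by
  decide +kernel

theorem k1 : chkT C ts 0xbb1b3bb1b3cbb0322 [(9895604649984, 19791209299968), (0, 140737488355328),
    (0, 10995116277760), (0, 17592186044416)] = true := by
  decide +kernel

theorem k2 : chkT C ts 0xbc1c2bc1cc120 [(0, 19791209299968), (0, 140737488355328), (0,
    10995116277760), (17592186044416, 35184372088832)] = true := by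
  decide +kernel

theorem k3 : chkT C ts 0xbc1bb03cbb232 [(19791209299968, 39582418599936), (0, 140737488355328), (0,
    5497558138880), (0, 17592186044416)] = true := by
  decide +kernel

theorem k4 : chkT C ts 0xbbb01bb03 [(19791209299968, 39582418599936), (0, 140737488355328),
    (5497558138880, 10995116277760), (0, 17592186044416)] = true := by
  decide +kernel

theorem k5 : chkT C ts 0xbcc01cc1c02 [(19791209299968, 39582418599936), (0, 140737488355328), (0,
    10995116277760), (17592186044416, 35184372088832)] = true := by
  decide +kernel

theorem k6 : chkT C ts 0xccc21cc1cc100 [(0, 19791209299968), (0, 140737488355328), (0,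
    10995116277760), (35184372088832, 70368744177664)] = true := by
  decide +kernel

theorem k7 : chkT C ts 0xcc0bc2cc213 [(19791209299968, 39582418599936), (0, 140737488355328), (0,
    10995116277760), (35184372088832, 70368744177664)] = true := by
  decide +kernel

end Pool.Agent.Lib.MP_d6150d_an.UXtXL
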