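import Pool.Agent.Lib.MP_d6150d_an.GEq
import Pool.Agent.Lib.MP_d6150d_an.UXM
import Pool.Agent.Lib.MP_d6150d_an.GTreeS
import Pool.Agent.Lib.MP_d6150d_an.UXtXLK0

/-! A generated chart: the inequality. -/

namespace Pool.Agent.Lib.MP_d6150d_an.UXtXL

set_option linter.unnecessarySeqFocus false
set_option linter.unusedTactic false
set_option linter.unusedVariables false
set_option linter.unusedSimpArgs false

def box : List (ℤ × ℤ) := [(0, 39582418599936), (0, 140737488355328), (0, 10995116277760), (0,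
    70368744177664)]

theorem gd : GdT C ts box := .split 3 (.split 0 (.split 3 (.split 0 (chkT_sound k0) (chkT_sound k1))
    (chkT_sound k2)) (.split 3 (.split 2 (chkT_sound k3) (chkT_sound k4)) (chkT_sound k5))) (.split
    0 (chkT_sound k6) (chkT_sound k7))

set_option maxRecDepth 100000 in
theorem eq {k a x e b F D p j i y s X h z W E u m N n r g l A B z23 o z25 : ℝ} (hb : b = k * e) (hF
    : F = 1 / 2 + b) (hD : D = a * b - F) (hp : p = 1 - 2 * e) (hj : j = (1 - F)⁻¹) (hi : i = F⁻¹)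
    (hy : y = k * x) (hs : s = y * p ^ 2) (hX : X = x * p ^ 2) (hh : h = 2 * e * (1 - a)) (hz : z =
    y * p) (hW : W = (-D + (1 + 2 * D) * s - (1 + D) * s ^ 2)⁻¹) (hE : E = x * p * ((h + (1 + D) * i
    * (1 - s * p)) * W)) (hu : u = (1 - k * E) * j) (hm : m = -(F * u)) (hN : N = u⁻¹ * W) (hn : n =
    z * N) (hr : r = (√(1 + 4 * n))⁻¹) (hg : g = (√N)⁻¹) (hl : l = F * j * E - 2 * e * j) (hA : A =
    X * h * (u * W)) (hB : B = -(X * X * (1 + D) * (u * W))) (hz23 : z23 = UX.a4 D F) (ho : o = y *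
    x * p * N ^ 3 * g * (64 * F - 32 * z23 * n * r ^ 5)) (hz25 : z25 = UX.gL k m u l E A B n o) :
    outR prog 0 [k, a, x, e] = z25 := by
  replace hb : b = (k * e) := hb.trans (by push_cast <;> ring)
  replace hF : F = (((Int.cast (1) : ℝ) / (Nat.cast 2 : ℝ)) + b) := hF.trans (by push_cast <;> ring)
  replace hD : D = ((a * b) - F) := hD.trans (by push_cast <;> ring)
  replace hp : p = ((Int.cast (1) : ℝ) - ((Int.cast (2) : ℝ) * e)) := hp.trans (by push_cast <;>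
    ring)
  replace hj : j = ((Int.cast (1) : ℝ) - F)⁻¹ := hj.trans (by push_cast <;> ring)
  replace hi : i = F⁻¹ := hi.trans (by push_cast <;> ring)
  replace hy : y = (k * x) := hy.trans (by push_cast <;> ring)
  replace hs : s = (y * (p * p)) := hs.trans (by push_cast <;> ring)
  replace hX : X = (x * (p * p)) := hX.trans (by push_cast <;> ring)
  replace hh : h = (((Int.cast (2) : ℝ) * e) * ((Int.cast (1) : ℝ) - a)) := hh.trans (by push_cast
    <;> ring)
  replace hz : z = (y * p) := hz.trans (by push_cast <;> ring)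
  replace hW : W = ((((Int.cast (-1) : ℝ) * D) + (((Int.cast (1) : ℝ) + ((Int.cast (2) : ℝ) * D)) *
    s)) - (((Int.cast (1) : ℝ) + D) * (s * s)))⁻¹ := hW.trans (by push_cast <;> ring)
  replace hE : E = ((x * p) * ((h + ((((Int.cast (1) : ℝ) + D) * i) * ((Int.cast (1) : ℝ) - (s *
    p)))) * W)) := hE.trans (by push_cast <;> ring)
  replace hu : u = (((Int.cast (1) : ℝ) - (k * E)) * j) := hu.trans (by push_cast <;> ring)
  replace hm : m = ((Int.cast (-1) : ℝ) * (F * u)) := hm.trans (by push_cast <;> ring)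
  replace hN : N = (u⁻¹ * W) := hN.trans (by push_cast <;> ring)
  replace hn : n = (z * N) := hn.trans (by push_cast <;> ring)
  replace hr : r = (√((Int.cast (1) : ℝ) + ((Int.cast (4) : ℝ) * n)))⁻¹ := hr.trans (congrArg (fun x
    : ℝ ↦ (√x)⁻¹) (by push_cast <;> ring))
  replace hl : l = (((F * j) * E) - (((Int.cast (2) : ℝ) * e) * j)) := hl.trans (by push_cast <;>
    ring)
  replace hA : A = ((X * h) * (u * W)) := hA.trans (by push_cast <;> ring)
  replace hB : B = ((Int.cast (-1) : ℝ) * (((X * X) * ((Int.cast (1) : ℝ) + D)) * (u * W))) :=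
    hB.trans (by push_cast <;> ring)
  replace hz23 : z23 = (mA4 D F) := hz23.trans (mA4_0 ..)
  replace ho : o = (((((y * x) * p) * ((N * N) * N)) * g) * (((Int.cast (64) : ℝ) * F) -
    ((((Int.cast (32) : ℝ) * z23) * n) * (((r * r) * (r * r)) * r)))) := ho.trans (by push_cast <;>
    ring)
  replace hz25 : z25 = (mGL k m u l E A B n o) := hz25.trans (mGL_0 ..)
  subst hb hF hD hp hj hi hy hs hX hh hz hW hE hu hm hN hn hr hg hl hA hB hz23 ho hz25
  simp only [outR, prog, prog1, prog2, prog3, runR, stepR, gtR, mGR, mGL, mKC, mA4, mMu]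

theorem l0 : ((0 : ℤ) : ℝ) / 2 ^ 47 = 0 := by norm_num
theorem u0 : (9 / 32 : ℝ) = ((39582418599936 : ℤ) : ℝ) / 2 ^ 47 := by norm_num
theorem l1 : ((0 : ℤ) : ℝ) / 2 ^ 47 = 0 := by norm_num
theorem u1 : (1 : ℝ) = ((140737488355328 : ℤ) : ℝ) / 2 ^ 47 := by norm_num
theorem l2 : ((0 : ℤ) : ℝ) / 2 ^ 47 = 0 := by norm_num
theorem u2 : (5 / 64 : ℝ) = ((10995116277760 : ℤ) : ℝ) / 2 ^ 47 := by norm_num
theorem l3 : ((0 : ℤ) : ℝ) / 2 ^ 47 = 0 := by norm_num
theorem u3 : (1 / 2 : ℝ) = ((70368744177664 : ℤ) : ℝ) / 2 ^ 47 := by norm_num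

theorem out (H : ∀ t ∈ ts, Hy t box (outR prog 0)) {k a x e : ℝ} (a0 : 0 ≤ k) (b0 : k ≤ 9 / 32) (a1
    : 0 ≤ a) (b1 : a ≤ 1) (a2 : 0 ≤ x) (b2 : x ≤ 5 / 64) (a3 : 0 ≤ e) (b3 : e ≤ 1 / 2) : 0 ≤ outR
    prog 0 [k, a, x, e] ∧ ((∀ t ∈ ts, Str t [k, a, x, e]) → 0 < outR prog 0 [k, a, x, e]) :=
  gd [k, a, x, e] (.cons ⟨l0.le.trans a0, b0.trans u0.le⟩ (.cons ⟨l1.le.trans a1, b1.trans u1.le⟩
    (.cons ⟨l2.le.trans a2, b2.trans u2.le⟩ (.cons ⟨l3.le.trans a3, b3.trans u3.le⟩ (.nil)))))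
    (List.forall_mem_nil _) H

end Pool.Agent.Lib.MP_d6150d_an.UXtXL
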