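import Pool.Agent.Lib.MP_d6150d_an.UXtXRD

/-! A generated chart: the computations. -/

namespace Pool.Agent.Lib.MP_d6150d_an.UXtXR

theorem k0 : chkT C ts 0xbb2bbb213bb0bb100 [(0, 21990232555520), (0, 17592186044416), (0,
    2199023255552), (0, 70368744177664)] = true := by
  decide +kernel

theorem k1 : chkT C ts 0xbb0bb2b03 [(0, 21990232555520), (17592186044416, 35184372088832), (0,
    2199023255552), (0, 70368744177664)] = true := by
  decide +kernel

theorem k2 : chkT C ts 0xbbb13bb1bb2b130 [(0, 21990232555520), (35184372088832, 70368744177664), (0,
    2199023255552), (0, 70368744177664)] = true := by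
  decide +kernel

theorem k3 : chkT C ts 0xbb3bb32bb2b00 [(21990232555520, 43980465111040), (0, 8796093022208), (0,
    2199023255552), (0, 70368744177664)] = true := by
  decide +kernel

theorem k4 : chkT C ts 0xbb2bb23 [(21990232555520, 43980465111040), (8796093022208, 17592186044416),
    (0, 2199023255552), (0, 70368744177664)] = true := by
  decide +kernel

theorem k5 : chkT C ts 0xbb2bb03 [(21990232555520, 43980465111040), (17592186044416,
    35184372088832), (0, 2199023255552), (0, 70368744177664)] = true := by
  decide +kernel

theorem k6 : chkT C ts 0xbb0bbb033 [(21990232555520, 43980465111040), (35184372088832,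
    70368744177664), (0, 2199023255552), (0, 70368744177664)] = true := by
  decide +kernel

theorem k7 : chkT C ts 0xcc1cb13cc0cb310 [(0, 21990232555520), (0, 35184372088832), (0,
    2199023255552), (70368744177664, 140737488355328)] = true := by
  decide +kernel

theorem k8 : chkT C ts 0xcbb13cc0b3cc0b310 [(0, 21990232555520), (35184372088832, 70368744177664),
    (0, 2199023255552), (70368744177664, 140737488355328)] = true := by
  decide +kernel

theorem k9 : chkT C ts 0xcbc03cc0bb031 [(21990232555520, 43980465111040), (0, 35184372088832), (0,
    2199023255552), (70368744177664, 140737488355328)] = true := by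
  decide +kernel

end Pool.Agent.Lib.MP_d6150d_an.UXtXR
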