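import Pool.Agent.Lib.MP_d6150d_an.UXtXRD

/-! A generated chart: the computations. -/

namespace Pool.Agent.Lib.MP_d6150d_an.UXtXR

theorem k10 : chkT C ts 0xcc1c0bb03 [(21990232555520, 43980465111040), (35184372088832,
    70368744177664), (0, 2199023255552), (70368744177664, 140737488355328)] = true := by
  decide +kernel

end Pool.Agent.Lib.MP_d6150d_an.UXtXR
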