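import Pool.Agent.Lib.MP_d6150d_an.UXa
import Pool.Agent.Lib.MP_d6150d_an.UXJR
import Pool.Agent.Lib.MP_d6150d_an.UXJL
import Pool.Agent.Lib.MP_d6150d_an.UXtXR
import Pool.Agent.Lib.MP_d6150d_an.UXtXL
import Pool.Agent.Lib.MP_d6150d_an.UXtUR
import Pool.Agent.Lib.MP_d6150d_an.UXtUL
import Pool.Agent.Lib.MP_d6150d_an.UXtVR

/-! The tails: orders of vanishing. -/

namespace Pool.Agent.Lib.MP_d6150d_an.UX

open Real Set Filter Topology Asymptotics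

set_option linter.unusedVariables false

theorem fR_ex (D F q p c : ℝ) : ∃ W e m u N, W = (1 + D - (1 + 2 * D) * q + D * q ^ 2)⁻¹ ∧
    e = ((1 + 2 * D) * c - D * (1 - F)⁻¹ * (p - q)) * W ∧ m = 1 - q * e ∧ u = m * F⁻¹ ∧
    N = u⁻¹ * W ∧ ∀ K x ρ A B κ, q = K * (x * ρ ^ 2) → (1 + 2 * D) * (u * W) = K * A →
      q * D * (u * W) = K * B → q * p * (q * p * N) * p * N * N = K * κ →
      K * gR K x ρ m u (ρ * e) A B (q * p * N) κ ((√N)⁻¹ * (64 * F + 32 * a4 D F * (q * p * N) *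
        (√(1 + 4 * (q * p * N)))⁻¹ ^ 5)) = fR D F q p c :=
  ⟨_, _, _, _, _, rfl, rfl, rfl, rfl, rfl, fun K x ρ A B κ h1 h2 h3 h4 ↦ by
    rw [gR_hom, ← h1, ← h2, ← h3, ← h4]; rfl⟩

theorem fL_ex (D F q p c : ℝ) : ∃ W e u m N, W = (-D + (1 + 2 * D) * q - (1 + D) * q ^ 2)⁻¹ ∧
    e = q * ((1 + D) * F⁻¹ * (p - q) - (1 + 2 * D) * c) * W ∧ u = (1 - e) * (1 - F)⁻¹ ∧
    m = -(F * u) ∧ N = u⁻¹ * W ∧ ∀ k n E A B o, 1 + m = k * n → e = k * E →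
      -(q * (1 + 2 * D) * (u * W)) = k * k * A → -(q * q * (1 + D) * (u * W)) = k * k * B →
      q * p * N * (q * p * N) * p * N * (√N)⁻¹ * (64 * F - 32 * a4 D F * (q * p * N) *
        (√(1 + 4 * (q * p * N)))⁻¹ ^ 5) = k * o →
      k * gL k m u n E A B (q * p * N) o = fL D F q p c :=
  ⟨_, _, _, _, _, rfl, rfl, rfl, rfl, rfl, fun k n E A B o h1 h2 h3 h4 h5 ↦ by
    rw [gL_hom, ← h1, ← h2, ← h3, ← h4, ← h5]; rfl⟩

variable {a c k e x D F q p : ℝ}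

theorem eXR (hF : F = 1 / 2 + k * e) (hD : D = a * (k * e) - F) (k0 : k ≠ 0) (hp : p = 1 - 2 * e)
    (hq : q = k * x) : k * outR UXtXR.prog 0 [k, e, x, a] = fR D F q p k⁻¹ := by
  obtain ⟨W, E, m, u, N, hW, hE, hm, hu, hN, H⟩ := fR_ex D F q p k⁻¹
  have h : 1 + 2 * D = k * -(2 * e * (1 - a)) := by rw [hD, hF]; ring
  rw [UXtXR.eq rfl hF hD hp rfl rfl rfl hq rfl hW (E := 1 * E) (by rw [hE, h]; field_simp)
    (hm.trans (by ring)) hu hN rfl rfl rfl rfl rfl rfl rfl rfl rfl rfl]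
  exact H _ _ _ _ _ _ (by rw [hq]; ring) (by rw [h]; ring) (by rw [hq]; ring) (by rw [hq]; ring)

theorem eUR (hF : F = 1 / 2 - k * e) (hD : D = k * a - F) (k0 : k ≠ 0) (hp : p = 1 - 2 * e)
    (p0 : p ≠ 0) (hq : q = k * (x * p ^ 2)) :
    k * outR UXtUR.prog 0 [k, a, e, x] = fR D F q p⁻¹ (k⁻¹ * p⁻¹) := by
  obtain ⟨W, E, m, u, N, hW, hE, hm, hu, hN, H⟩ := fR_ex D F q p⁻¹ (k⁻¹ * p⁻¹)
  have h : 1 + 2 * D = k * (2 * (a + e)) := by rw [hD, hF]; ring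
  rw [UXtUR.eq rfl hF hD hp rfl rfl rfl rfl rfl hq (z := q * p⁻¹) (by rw [hq]; field_simp) hW
    (E := p * E) (by rw [hE, h]; field_simp) (hm.trans (by rw [hq]; ring)) hu hN rfl rfl rfl rfl rfl
    rfl rfl rfl rfl]
  exact H _ _ _ _ _ _ hq (by rw [h]; ring) (by rw [hq]; ring) (by rw [hq]; field_simp)

theorem eVR (hk : k = a * c) (hF : F = 1 / 2 - k * e) (hD : D = a - F) (a0 : a ≠ 0) (c0 : c ≠ 0)
    (hp : p = 1 - 2 * e) (p0 : p ≠ 0) (hq : q = a * (x * (c * p) ^ 2)) :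
    a * outR UXtVR.prog 0 [a, c, e, x] = fR D F q p⁻¹ (k⁻¹ * p⁻¹) := by
  obtain ⟨W, E, m, u, N, hW, hE, hm, hu, hN, H⟩ := fR_ex D F q p⁻¹ (k⁻¹ * p⁻¹)
  have h : 1 + 2 * D = a * (2 * (1 + c * e)) := by rw [hD, hF, hk]; ring
  rw [UXtVR.eq hk rfl hF hD hp rfl rfl rfl rfl rfl rfl hq (z := q * p⁻¹) (by rw [hq]; field_simp) hW
    (E := c * p * E) (by rw [hE, h, hk]; field_simp) (hm.trans (by rw [hq]; ring)) hu hN rfl rfl rfl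
    rfl rfl rfl rfl rfl rfl]
  exact H _ _ _ _ _ _ hq (by rw [h]; ring) (by rw [hq]; ring) (by rw [hq]; field_simp)

theorem eXL (hF : F = 1 / 2 + k * e) (hD : D = a * (k * e) - F) (k0 : k ≠ 0) (hp : p = 1 - 2 * e)
    (p0 : p ≠ 0) (G : 1 - F ≠ 0) (hq : q = k * x * p ^ 2) :
    k * outR UXtXL.prog 0 [k, a, x, e] = fL D F q p⁻¹ (k⁻¹ * p⁻¹) := by
  obtain ⟨W, E, u, m, N, hW, hE, hu, hm, hN, H⟩ := fL_ex D F q p⁻¹ (k⁻¹ * p⁻¹)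
  have h : 1 + 2 * D = -k * (2 * e * (1 - a)) := by rw [hD, hF]; ring
  rw [UXtXL.eq rfl hF hD hp rfl rfl rfl hq rfl rfl (z := q * p⁻¹) (by rw [hq]; field_simp) hW
    (E := k⁻¹ * E) (by rw [hE, h, hq]; field_simp; ring) (hu.trans (by rw [mul_inv_cancel_left₀ k0]))
    hm hN rfl rfl rfl rfl rfl rfl rfl rfl rfl]
  refine H _ _ _ _ _ _ (by rw [hm, hu]; field_simp; linear_combination -2 * hF) (by field_simp)
    (by rw [h, hq]; ring) (by rw [hq]; ring) ?_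
  generalize 64 * F - _ = z
  rw [hq]; field_simp

theorem eUL (hF : F = 1 / 2 - k * e) (hD : D = a - F) (k0 : k ≠ 0) (hp : p = 1 - 2 * e)
    (G : 1 - F ≠ 0) (hq : q = k * (k * x)) :
    k * outR UXtUL.prog 0 [k, a, x, e] = fL D F q p k⁻¹ := by
  obtain ⟨W, E, u, m, N, hW, hE, hu, hm, hN, H⟩ := fL_ex D F q p k⁻¹
  have h : 1 + 2 * D = 2 * (a + k * e) := by rw [hD, hF]; ring
  rw [UXtUL.eq rfl hF hD hp rfl rfl rfl hq rfl (z := q * p) (by rw [hq]; ring) hW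
    (E := k⁻¹ * E) (by rw [hE, h, hq]; field_simp; ring) (hu.trans (by rw [mul_inv_cancel_left₀ k0]))
    hm hN rfl rfl rfl rfl rfl rfl rfl rfl rfl]
  refine H _ _ _ _ _ _ (by rw [hm, hu]; field_simp; linear_combination -2 * hF) (by field_simp)
    (by rw [h, hq]; ring) (by rw [hq]; ring) ?_
  generalize 64 * F - _ = z
  rw [hq]; ring

theorem J.sc {f g : ℝ → ℝ} {d : ℝ} (h : J f 0 d) (k0 : 0 < k) (k1 : k ≤ 1)
    (e : ∀ e, 1 - 2 * e ≠ 0 → 1 - (1 / 2 + k * e) ≠ 0 → 1 - (1 / 2 - k * e) ≠ 0 → k * g e = f e) :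
    J g 0 (k⁻¹ * d) := by
  have a := ((J.cst k⁻¹).mul h).cast (mul_zero _) (by rw [zero_mul, zero_add])
  have b : ∀ᶠ x in 𝓝 (0 : ℝ), g x = k⁻¹ * f x := by
    filter_upwards [Ioo_mem_nhds (by norm_num : (-1 / 4 : ℝ) < 0) (by norm_num : (0 : ℝ) < 1 / 4)]
      with x hx
    rw [← e x (by linarith [hx.2]) (ne_of_gt (by nlinarith [hx.1, hx.2]))
      (ne_of_gt (by nlinarith [hx.1, hx.2])), inv_mul_cancel_left₀ k0.ne']
  exact ⟨a.1.congr (b.mono fun _ h ↦ h.symm), b.self_of_nhds.trans a.2.1,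
    a.2.2.congr_of_eventuallyEq b⟩

theorem jm (k : ℝ) : J (fun e ↦ k * e) 0 k := (J.lin 0 k).congr fun _ ↦ (zero_add _).symm

theorem jp : J (fun e ↦ 1 - 2 * e) 1 (-2) := ((J.cst 1).sub (jm 2)).cast (by ring) (by ring)

theorem ji : J (fun e ↦ (1 - 2 * e)⁻¹) 1 2 := (jp.inv one_ne_zero).cast (by ring) (by ring)

theorem jF (k : ℝ) : J (fun e ↦ 1 / 2 - k * e) (1 / 2) (-k) :=
  ((J.cst _).sub (jm k)).cast (by ring) (by ring)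

theorem jX (a k : ℝ) : J (fun e ↦ a * (k * e) - (1 / 2 + k * e)) (-1 / 2) (a * k - k) :=
  (((J.cst a).mul (jm k)).sub (J.lin _ k)).cast (by ring) (by ring)

section

variable (k0 : 0 < k) (k1 : k ≤ 1 / 2) (x0 : 0 ≤ x) (x1 : x ≤ 1)
include k0 k1 x0 x1

theorem jXR (a : ℝ) : J (fun e ↦ outR UXtXR.prog 0 [k, e, x, a]) 0 (a * Ph (k * x) k⁻¹) :=
  ((fR_J (jX a k) (J.lin _ k) (J.cst (k * x)) (J.cst k⁻¹) (jp.cast rfl (by field_simp))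
    (by positivity) (by nlinarith)).sc k0 (by linarith) fun e _ _ _ ↦
      eXR rfl rfl k0.ne' rfl rfl).cast rfl (by field_simp; ring)

theorem jUR : J (fun e ↦ outR UXtUR.prog 0 [k, 0, e, x]) 0 0 :=
  ((fR_J (((J.cst (k * 0)).sub (jF k)).cast (by ring) rfl) (jF k)
    (((J.cst k).mul ((J.cst x).mul (jp.pw 1))).cast (c' := k * x) (by ring) rfl)
    (((J.cst k⁻¹).mul ji).cast (mul_one _) rfl) (ji.cast rfl (by field_simp))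
    (by positivity) (by nlinarith)).sc k0 (by linarith) fun e h _ _ ↦
      eUR rfl rfl k0.ne' rfl h rfl).cast rfl (by ring)

theorem jXL (a : ℝ) : J (fun e ↦ outR UXtXL.prog 0 [k, a, x, e]) 0 (a * Ph (k * x) k⁻¹) :=
  ((fL_J (jX a k) (J.lin _ k) (((J.cst (k * x)).mul (jp.pw 1)).cast (c' := k * x) (by ring) rfl)
    (((J.cst k⁻¹).mul ji).cast (mul_one _) rfl) (ji.cast rfl (by field_simp))
    (by positivity) (by nlinarith)).sc k0 (by linarith) fun e h g _ ↦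
      eXL rfl rfl k0.ne' rfl h g rfl).cast rfl (by field_simp; ring)

theorem jUL : J (fun e ↦ outR UXtUL.prog 0 [k, 0, x, e]) 0 0 :=
  ((fL_J (((J.cst 0).sub (jF k)).cast (by ring) rfl) (jF k) (J.cst (k * (k * x))) (J.cst k⁻¹)
    (jp.cast rfl (by field_simp)) (by positivity) (by nlinarith [mul_nonneg k0.le x0])).sc k0
      (by linarith) fun e _ _ g ↦ eUL rfl rfl k0.ne' rfl g rfl).cast rfl (by ring)

end

theorem HXR : ∀ t ∈ UXtXR.ts, Hy t UXtXR.box (outR UXtXR.prog 0) := by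
  have E := fun k e x a ↦ UXtXR.eq (k := k) (e := e) (x := x) (a := a) rfl rfl rfl rfl rfl rfl rfl
    rfl rfl rfl rfl rfl rfl rfl rfl rfl rfl rfl rfl rfl rfl rfl rfl rfl
  have h1 : ∀ e x a, outR UXtXR.prog 0 [0, e, x, a] = 0 := fun e x a ↦ by
    rw [E]; norm_num [gR_k]
  have j := fun k (a : 0 < k) b x c d ↦ jXR (k := k) (x := x) a ((UXtXR.u0.ge.trans' b).trans
    (by norm_num)) (UXtXR.l2.ge.trans c) ((UXtXR.u2.ge.trans' d).trans (by norm_num))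
  simp only [UXtXR.ts, List.mem_cons, List.not_mem_nil, or_false, forall_eq_or_imp, forall_eq]
  refine ⟨⟨fun e _ _ x _ _ a _ _ ↦ h1 e x a, fun k k0 k1 ↦ ⟨⟨fun l ↦ l.getD 1 0 *
    Ph (k * l.getD 0 0) k⁻¹, fun x c d a _ _ ↦ (j k k0 k1 x c d a).O, ⟨fun a _ _ ↦ by
      simp [AllB, Ord, Ph], fun x _ _ ↦ ⟨by simp [AllB, Ord], fun _ _ _ ↦ trivial⟩⟩,
      fun _ _ _ ↦ trivial⟩, fun _ _ _ ↦ trivial⟩⟩, fun e _ _ x _ _ a _ _ ↦ h1 e x a,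
    fun k k0 k1 ↦ ⟨fun x c d a _ _ ↦ (j k k0 k1 x c d a).2.1, fun e e0 e1 ↦
      ⟨⟨fun l ↦ outR UXtXR.prog 0 (k :: e :: 0 :: l), fun _ _ _ ↦ by simp [AllB, Ord],
        fun a a0 a1 ↦ ?_, fun _ _ _ ↦ trivial⟩, fun _ _ _ ↦ trivial⟩⟩⟩
  replace k1 := UXtXR.u0.ge.trans' k1
  replace e1 := UXtXR.u1.ge.trans' e1
  replace a0 := UXtXR.l3.ge.trans a0
  replace a1 := sub_nonneg.2 (UXtXR.u3.ge.trans' a1)
  have b0 := mul_pos k0 e0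
  have b1 : 0 < 1 + (a * (k * e) - (1 / 2 + k * e)) := by nlinarith [mul_nonneg a0 b0.le]
  have b2 : (1 / 2 + k * e)⁻¹ ≤ 2 := inv_le_of_inv_le₀ two_pos (by linarith)
  change 0 ≤ outR UXtXR.prog 0 [k, e, 0, a]
  rw [E]
  simp only [mul_zero, zero_mul, sub_zero, one_mul, gR_x, ne_eq, OfNat.ofNat_ne_zero,
    not_false_eq_true, zero_pow, add_zero, neg_mul, neg_neg]
  have b3 := sub_nonneg.2 b2
  have b4 := sub_nonneg.2 (b2.trans (by norm_num : (2 : ℝ) ≤ 4))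
  positivity

theorem HUR : ∀ t ∈ UXtUR.ts, Hy t UXtUR.box (outR UXtUR.prog 0) := by
  have E := fun k a e x ↦ UXtUR.eq (k := k) (e := e) (x := x) (a := a) rfl rfl rfl rfl rfl rfl rfl
    rfl rfl rfl rfl rfl rfl rfl rfl rfl rfl rfl rfl rfl rfl rfl rfl rfl rfl
  have h1 : ∀ a e x, outR UXtUR.prog 0 [0, a, e, x] = 0 := fun a e x ↦ by
    rw [E]; norm_num [gR_k]
  have h2 : ∀ k a, outR UXtUR.prog 0 [k, a, 0, 0] = 0 := fun k a ↦ by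
    rw [E]; norm_num [gR_x]
  simp only [UXtUR.ts, List.mem_singleton, forall_eq]
  exact ⟨fun a _ _ e _ _ x _ _ ↦ h1 a e x, fun k k0 k1 ↦
    ⟨⟨fun l ↦ outR UXtUR.prog 0 (k :: 0 :: l), fun _ _ _ _ _ _ ↦ by simp [AllB, Ord],
      ⟨fun x c d ↦ (jUR k0 ((UXtUR.u0.ge.trans' k1).trans (by norm_num)) (UXtUR.l3.ge.trans c)
        ((UXtUR.u3.ge.trans' d).trans (by norm_num))).O2, fun _ _ _ ↦ trivial⟩, fun a _ _ ↦
      ⟨⟨fun l ↦ outR UXtUR.prog 0 (k :: a :: 0 :: l) - a ^ 0 * outR UXtUR.prog 0 (k :: 0 :: 0 :: l),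
        fun _ _ _ ↦ by simp [AllB, Ord], ⟨by simp [AllB, Ord, h2], fun _ _ _ ↦ trivial⟩,
        fun _ _ _ ↦ trivial⟩, fun _ _ _ ↦ trivial⟩⟩, fun a _ _ ↦
      ⟨⟨fun l ↦ outR UXtUR.prog 0 (k :: a :: 0 :: l), fun _ _ _ ↦ by simp [AllB, Ord],
        ⟨h2 k a, fun _ _ _ ↦ trivial⟩, fun _ _ _ ↦ trivial⟩, fun _ _ _ ↦ trivial⟩⟩⟩

theorem HVR : ∀ t ∈ UXtVR.ts, Hy t UXtVR.box (outR UXtVR.prog 0) := by
  have E := fun a c e x ↦ UXtVR.eq (c := c) (e := e) (x := x) (a := a) rfl rfl rfl rfl rfl rfl rfl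
    rfl rfl rfl rfl rfl rfl rfl rfl rfl rfl rfl rfl rfl rfl rfl rfl rfl rfl rfl rfl
  have h1 : ∀ c e x, outR UXtVR.prog 0 [0, c, e, x] = 0 := fun c e x ↦ by
    rw [E]; norm_num [gR_k]
  have h2 : ∀ a e x, outR UXtVR.prog 0 [a, 0, e, x] = 0 := fun a e x ↦ by
    rw [E]; norm_num [gR_k]
  have h3 : ∀ a c, outR UXtVR.prog 0 [a, c, 0, 0] = 0 := fun a c ↦ by
    rw [E]; norm_num [gR_x]
  simp only [UXtVR.ts, List.mem_singleton, forall_eq]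
  exact ⟨fun c _ _ e _ _ x _ _ ↦ h1 c e x, fun a _ _ ↦ ⟨fun e _ _ x _ _ ↦ h2 a e x, fun c _ _ ↦
    ⟨⟨fun l ↦ outR UXtVR.prog 0 (a :: c :: 0 :: l), fun _ _ _ ↦ by simp [AllB, Ord],
      ⟨h3 a c, fun _ _ _ ↦ trivial⟩, fun _ _ _ ↦ trivial⟩, fun _ _ _ ↦ trivial⟩⟩⟩

theorem HXL : ∀ t ∈ UXtXL.ts, Hy t UXtXL.box (outR UXtXL.prog 0) := by
  have E := fun k a x e ↦ UXtXL.eq (k := k) (e := e) (x := x) (a := a) rfl rfl rfl rfl rfl rfl rfl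
    rfl rfl rfl rfl rfl rfl rfl rfl rfl rfl rfl rfl rfl rfl rfl rfl rfl rfl
  have h1 : ∀ a x e, outR UXtXL.prog 0 [0, a, x, e] = 0 := fun a x e ↦ by
    rw [E]; norm_num [gL_k]
  have h2 : ∀ k a e, outR UXtXL.prog 0 [k, a, 0, e] = outR UXtXL.prog 0 [k, 0, 0, e] :=
    fun k a e ↦ by rw [E, E]; simp
  have j := fun k (a : 0 < k) b x c d ↦ jXL (k := k) (x := x) a ((UXtXL.u0.ge.trans' b).trans
    (by norm_num)) c ((UXtXL.u2.ge.trans' d).trans (by norm_num))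
  simp only [UXtXL.ts, List.mem_cons, List.not_mem_nil, or_false, forall_eq_or_imp, forall_eq]
  exact ⟨⟨fun a _ _ x _ _ e _ _ ↦ h1 a x e, fun k k0 k1 ↦
    ⟨⟨fun l ↦ outR UXtXL.prog 0 (k :: 0 :: l), fun _ _ _ _ _ _ ↦ by simp [AllB, Ord],
      fun x c d ↦ ⟨((j k k0 k1 x (UXtXL.l2.ge.trans c) d 0).cast rfl (zero_mul _)).O2,
        fun _ _ _ ↦ trivial⟩, fun a _ _ ↦ ⟨fun e _ _ ↦ by simp [AllB, Ord, h2 k a], fun x c d ↦
          ⟨by simp [AllB, Ord, fun a ↦ (j k k0 k1 x c.le d a).2.1], fun _ _ _ ↦ trivial⟩⟩⟩,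
      fun a _ _ ↦ ⟨⟨fun l ↦ outR UXtXL.prog 0 (k :: a :: 0 :: l), fun _ _ _ ↦ by simp [AllB, Ord],
        ⟨((j k k0 k1 0 le_rfl (by norm_num) 0).cast rfl (zero_mul _)).O2.congr_left
          fun e ↦ (h2 k a e).symm, fun _ _ _ ↦ trivial⟩, fun x c d ↦ ⟨by
            simp [AllB, Ord, (j k k0 k1 x c.le d a).2.1, (j k k0 k1 0 le_rfl (by norm_num) a).2.1],
          fun _ _ _ ↦ trivial⟩⟩, fun x c d ↦ ⟨(j k k0 k1 x c.le d a).2.1, fun _ _ _ ↦ trivial⟩⟩⟩⟩,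
    fun a _ _ x _ _ e _ _ ↦ h1 a x e, fun _ _ _ ↦ trivial⟩

theorem HUL : ∀ t ∈ UXtUL.ts, Hy t UXtUL.box (outR UXtUL.prog 0) := by
  have E := fun k a x e ↦ UXtUL.eq (k := k) (e := e) (x := x) (a := a) rfl rfl rfl rfl rfl rfl rfl
    rfl rfl rfl rfl rfl rfl rfl rfl rfl rfl rfl rfl rfl rfl rfl rfl rfl
  have h1 : ∀ a x e, outR UXtUL.prog 0 [0, a, x, e] = 0 := fun a x e ↦ by
    rw [E]; norm_num [gL_k]
  have h2 : ∀ k a e, outR UXtUL.prog 0 [k, a, 0, e] = outR UXtUL.prog 0 [k, 0, 0, e] :=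
    fun k a e ↦ by rw [E, E]; simp
  have j := fun k (a : 0 < k) b x c d ↦ (jUL (k := k) (x := x) a ((UXtUL.u0.ge.trans' b).trans
    (by norm_num)) c ((UXtUL.u2.ge.trans' d).trans (by norm_num))).O2
  simp only [UXtUL.ts, List.mem_cons, List.not_mem_nil, or_false, forall_eq_or_imp, forall_eq]
  exact ⟨⟨fun a _ _ x _ _ e _ _ ↦ h1 a x e, fun k k0 k1 ↦
    ⟨⟨fun l ↦ outR UXtUL.prog 0 (k :: 0 :: l), fun _ _ _ _ _ _ ↦ by simp [AllB, Ord],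
      fun x c d ↦ ⟨j k k0 k1 x (UXtUL.l2.ge.trans c) d, fun _ _ _ ↦ trivial⟩, fun a _ _ ↦
        ⟨fun e _ _ ↦ by simp [AllB, Ord, h2 k a], fun _ _ _ ↦ trivial⟩⟩,
      fun a _ _ ↦ ⟨⟨fun l ↦ outR UXtUL.prog 0 (k :: a :: 0 :: l), fun _ _ _ ↦ by simp [AllB, Ord],
        ⟨(j k k0 k1 0 le_rfl (by norm_num)).congr_left fun e ↦ (h2 k a e).symm,
          fun _ _ _ ↦ trivial⟩, fun _ _ _ ↦ trivial⟩, fun _ _ _ ↦ trivial⟩⟩⟩,
    fun a _ _ x _ _ e _ _ ↦ h1 a x e, fun _ _ _ ↦ trivial⟩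

end Pool.Agent.Lib.MP_d6150d_an.UX
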