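import Pool.Agent.Lib.MP_d6150d_an.UXb
import Pool.Agent.Lib.MP_d6150d_an.UXd

/-! At most two critical periods on the side `0 ≤ D + F` of the center `(-1 / 2, 1 / 2)`. -/

namespace Pool.Agent.Lib.MP_d6150d_an

namespace UX

open Real Set

variable {a b D F s : ℝ}

theorem tail (h0 : 0 ≤ b) (h : 0 < s) : ∃ χ p q : ℝ, χ = s * ph1 (-(2 * b * s)) ∧
    p = exp (-(2 * b * s)) ∧ q = exp (-s) ∧ 0 < χ ∧ 0 < p ∧ 0 < q ∧ χ ≤ s ∧ p = 1 - 2 * (b * χ) ∧
      b * χ ≤ 1 / 2 ∧ (∀ T k : ℝ, 0 < T → T ≤ s → 1 ≤ (k - 2 * b) * (T * (1 + b * T)) → χ⁻¹ ≤ k) ∧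
      (∀ (T M β : ℝ) (n : ℕ), 0 < T → T ≤ s → (1 - β) * T = n / 4 → 8 ≤ n →
        T ^ 2 ≤ M * 1.2838 ^ n → s ^ 2 * (q * exp (β * s)) ≤ M) ∧
      p⁻¹ ^ 2 = exp (4 * b * s) := by
  have e1 := exp_eq_ph (-(2 * b * s))
  have p := ph1_pos (-(2 * b * s))
  have z0 : 0 ≤ 2 * b * s := by positivity
  have k : 1 + b * s ≤ (1 + 2 * b * s * (1 + b * s)) * ph1 (-(2 * b * s)) ∧
      ph1 (-(2 * b * s)) ≤ 1 := by
    rw [show b * s = 2 * b * s / 2 by ring]
    generalize 2 * b * s = z at *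
    rcases z0.eq_or_lt with rfl | z0
    · simp [ph1_zero]
    have a1 := add_one_le_exp (-z)
    have a2 := mul_le_mul_of_nonneg_right (quadratic_le_exp_of_nonneg z0.le) (exp_pos (-z)).le
    rw [← exp_add, add_neg_cancel, exp_zero] at a2
    exact ⟨le_of_mul_le_mul_left (by nlinarith) z0, le_of_mul_le_mul_left (by nlinarith) z0⟩
  have c0 : 0 < s * ph1 (-(2 * b * s)) := by positivity
  refine ⟨_, _, _, rfl, rfl, rfl, c0, exp_pos _, exp_pos _, by nlinarith [k.2], by linarith,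
    by linarith [exp_pos (-(2 * b * s))], fun T k' T0 T1 h1 ↦ ?_, fun T M β n T0 T1 h1 h2 h3 ↦ ?_,
    by rw [← exp_neg, sq, ← exp_add]; ring_nf⟩
  · have h2 : 0 < k' - 2 * b := pos_of_mul_pos_of_nonneg_right (one_pos.trans_le h1) (by positivity)
    have h3 : 1 ≤ (k' - 2 * b) * (s * (1 + b * s)) := h1.trans (by gcongr)
    rw [inv_le_iff_one_le_mul₀ c0]
    refine le_of_mul_le_mul_left ?_ (by positivity : 0 < 1 + b * s)
    nlinarith [k.1, mul_le_mul_of_nonneg_right h3 p.le]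
  · have x1 : (1.2838 : ℝ) ≤ exp (1 / 4) := by
      refine le_of_pow_le_pow_left₀ (n := 4) (by norm_num) (exp_pos _).le ?_
      rw [← exp_nat_mul]
      norm_num
      linarith [exp_one_gt_d9]
    have x2 : (1.2838 : ℝ) ^ n ≤ exp ((1 - β) * T) := by
      rw [h1, div_eq_mul_one_div, exp_nat_mul]; gcongr
    have x3 : (8 : ℝ) ≤ n := by exact_mod_cast h2
    have x4 : s / T ≤ exp ((1 - β) * (s - T) / 2) := by
      refine le_trans ?_ (add_one_le_exp _)
      rw [div_le_iff₀ T0]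
      nlinarith [mul_nonneg (sub_nonneg.2 T1) (by linarith : 0 ≤ (1 - β) * T - 2)]
    have x5 := pow_le_pow_left₀ (by positivity) x4 2
    have M0 : 0 < M := pos_of_mul_pos_of_nonneg_right ((pow_pos T0 2).trans_le h3) (by positivity)
    rw [div_pow, div_le_iff₀ (by positivity), sq (exp _), ← exp_add] at x5
    calc _ ≤ exp ((1 - β) * (s - T) / 2 + (1 - β) * (s - T) / 2) * (M * exp ((1 - β) * T)) *
          (exp (-s) * exp (β * s)) := by
          gcongr; exact x5.trans (by gcongr; exact h3.trans (by gcongr))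
      _ = M := by
          rw [mul_left_comm _ M, mul_assoc M, ← exp_add, ← exp_add, ← exp_add]; ring_nf; simp
where
  pos_of_mul_pos_of_nonneg_right {x y : ℝ} (h : 0 < x * y) (k : 0 ≤ y) : 0 < x :=
    (pos_iff_pos_of_mul_pos h).2 (k.lt_of_ne (by rintro rfl; simp at h))

theorem tX (hF : F = 1 / 2 + b) (hD : D = a * b - F) (a0 : 0 ≤ a) (a1 : a ≤ 1) (b0 : 0 < b)
    (b1 : b ≤ 13 / 128) (s0 : 0 < s) : (6 ≤ s → 0 < mR D F s) ∧ (8 ≤ s → 0 < mL D F s) := by
  obtain ⟨χ, p, q, e0, e1, e2, c0, p0, q0, c1, c2, c3, c4, c5, c6⟩ := tail b0.le s0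
  have ci := inv_pos.2 c0
  have h' := mul_pos b0 c0
  have e3 : χ⁻¹ * (b * χ) = b := by field_simp
  refine ⟨fun s1 ↦ ?_, fun s1 ↦ ?_⟩
  · have x0 := mul_pos q0 c0
    have x1 := c5 6 (3 / 32) 0 24 (by norm_num) s1 (by norm_num) (by norm_num) (by norm_num)
    rw [zero_mul, exp_zero, mul_one] at x1
    rw [mR, show (1 - 2 * F) * s = -(2 * b * s) by rw [hF]; ring, ← e0, ← e1, ← e2, ← inv_inv χ,
      ← eXR (e := b * χ) (a := a) (x := q * χ) (by rw [e3, hF]) (by rw [e3, hD]) ci.ne' c2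
        (by field_simp)]
    exact mul_pos ci ((UXtXR.out HXR ci.le (c4 6 _ (by norm_num) s1 (by nlinarith)) h'.le c3 x0.le
      (by nlinarith [mul_le_mul_of_nonneg_left c1 q0.le, mul_pos q0 s0]) a0 a1).2
      (by simp [UXtXR.ts, Str, c0, h', x0]))
  · have x0 : 0 < q * p⁻¹ ^ 2 := by positivity
    have x1 := c5 8 (5 / 8) (13 / 32) 19 (by norm_num) s1 (by norm_num) (by norm_num) (by norm_num)
    have x2 : q * p⁻¹ ^ 2 ≤ q * exp (13 / 32 * s) := by rw [c6]; gcongr; linarith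
    rw [mL, show (2 * F - 1) * s = 2 * b * s by rw [hF]; ring, ph1_neg, mul_left_comm, ← e0,
      ← inv_inv (exp (2 * b * s)), ← exp_neg, ← e1, ← e2, mul_comm, ← inv_inv χ,
      ← eXL (e := b * χ) (a := a) (x := q * p⁻¹ ^ 2 * χ) (by rw [e3, hF]) (by rw [e3, hD]) ci.ne' c2
        p0.ne' (by linarith) (by field_simp)]
    exact mul_pos ci ((UXtXL.out HXL ci.le (c4 8 _ (by norm_num) s1 (by nlinarith)) a0 a1
      (by positivity)
      (by nlinarith [mul_le_mul x2 c1 c0.le (x0.le.trans x2), mul_pos (x0.trans_le x2) s0])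
      h'.le c3).2 (by simp [UXtXL.ts, Str, c0, h']))

theorem tU (hF : F = 1 / 2 - b) (hD : D = a - F) (a0 : 0 ≤ a) (a1 : a ≤ 13 / 128) (b0 : 0 ≤ b)
    (b1 : b ≤ 1 / 16) (k : 0 < b ∨ 0 < a) (s0 : 0 < s) :
    (6 ≤ s → 0 < mR D F s) ∧ (8 ≤ s → 0 < mL D F s) := by
  obtain ⟨χ, p, q, e0, e1, e2, c0, p0, q0, c1, c2, c3, c4, c5, c6⟩ := tail b0 s0
  have ci := inv_pos.2 c0
  have h' := mul_nonneg b0 c0.le
  have e3 : χ⁻¹ * (b * χ) = b := by field_simp
  refine ⟨fun s1 ↦ ?_, fun s1 ↦ ?_⟩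
  · have x0 : 0 < q * p⁻¹ ^ 2 := by positivity
    have x1 := c5 6 (27 / 64) (1 / 4) 18 (by norm_num) s1 (by norm_num) (by norm_num) (by norm_num)
    have x2 : q * p⁻¹ ^ 2 ≤ q * exp (1 / 4 * s) := by rw [c6]; gcongr; linarith
    have x3 := x0.trans_le x2
    rw [mR, show (1 - 2 * F) * s = 2 * b * s by rw [hF]; ring, ph1_neg, mul_left_comm, ← e0,
      ← inv_inv (exp (2 * b * s)), ← exp_neg, ← e1, ← e2, mul_comm, ← inv_inv χ]
    rcases le_total (a * χ) (1 / 2) with l | l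
    · rw [← eUR (e := b * χ) (a := a * χ) (x := q * p⁻¹ ^ 2 * χ) (by rw [e3, hF])
        (by rw [hD]; field_simp) ci.ne' c2 p0.ne' (by field_simp)]
      exact mul_pos ci ((UXtUR.out HUR ci.le (c4 6 _ (by norm_num) s1 (by nlinarith))
        (by positivity) l h' c3 (by positivity)
        (by nlinarith [mul_le_mul x2 c1 c0.le x3.le, mul_pos x3 s0])).2
        (by simp [UXtUR.ts, Str, c0, q0, p0, k]))
    · have a2 : 0 < a := by
        by_contra h
        nlinarith [mul_nonneg (neg_nonneg.2 (not_lt.1 h)) c0.le]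
      have a3 := mul_pos a2 c0
      rw [← eVR (e := b * χ) (a := a) (c := (a * χ)⁻¹) (x := q * p⁻¹ ^ 2 * χ ^ 2 * a)
        (by field_simp) (by rw [e3, hF]) hD a2.ne' (by positivity) c2 p0.ne' (by field_simp)]
      exact mul_pos a2 ((UXtVR.out HVR a0 a1 (by positivity)
        (inv_le_of_inv_le₀ two_pos (by linarith)) h' c3 (by positivity)
        ((mul_le_mul ((mul_le_mul x2 (pow_le_pow_left₀ c0.le c1 2) (by positivity) x3.le).trans
          ((mul_comm _ _).trans_le x1)) a1 a0 (by norm_num)).trans (by norm_num))).2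
        (by simp [UXtVR.ts, Str, c0, q0, p0, a2]))
  · have x0 : 0 < q * χ ^ 2 := by positivity
    have x1 := c5 8 (3 / 128) 0 32 (by norm_num) s1 (by norm_num) (by norm_num) (by norm_num)
    rw [zero_mul, exp_zero, mul_one] at x1
    rw [mL, show (2 * F - 1) * s = -(2 * b * s) by rw [hF]; ring, ← e0, ← e1, ← e2, ← inv_inv χ,
      ← eUL (e := b * χ) (a := a) (x := q * χ ^ 2) (by rw [e3, hF]) hD ci.ne' c2 (by linarith)
        (by field_simp)]
    exact mul_pos ci ((UXtUL.out HUL ci.le (c4 8 _ (by norm_num) s1 (by nlinarith)) a0 a1 x0.le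
      (by nlinarith [mul_le_mul_of_nonneg_left (pow_le_pow_left₀ c0.le c1 2) q0.le]) h' c3).2
      (by simp [UXtUL.ts, Str, c0, x0, k]))

end UX

open UX in
theorem X1_holds (D F : ℝ) (h1 : D ≤ -1 / 2) (h2 : 0 ≤ D + F) (h3 : F ≤ 3 / 5)
    (i : ¬(D = -1 / 2 ∧ F = 1 / 2)) : NoThree D F := by
  have g : 0 < F - 1 / 2 := by
    by_contra g
    exact i ⟨by linarith, by linarith⟩
  have a0 := div_nonneg h2 g.le
  have a1 : (D + F) / (F - 1 / 2) ≤ 1 := (div_le_one g).2 (by linarith)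
  have e : D = (D + F) / (F - 1 / 2) * (F - 1 / 2) - F := by rw [div_mul_cancel₀ _ g.ne']; ring
  have m := fun s ↦ mX (s := s) (by ring) e a0 a1 g (by linarith)
  have t := fun s ↦ tX (s := s) (by ring) e a0 a1 g (by linarith)
  exact glue (by linarith) (by linarith) (by linarith) (by linarith)
    (fun _ ↦ cX (by ring) e a0 a1 g (by linarith))
    (fun s h ↦ (le_total s 6).elim (m s h).1 (t s (by linarith)).1)
    fun s h ↦ (le_total s 8).elim (m s h).2 (t s (by linarith)).2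

open UX in
/-- valid for `D + F ≤ 13 / 128` -/
theorem U1_holds' (D F : ℝ) (h1 : 7 / 16 ≤ F) (h2 : F ≤ 1 / 2) (h3 : 0 ≤ D + F)
    (h4 : D + F ≤ 13 / 128) (i : ¬(D = -1 / 2 ∧ F = 1 / 2)) : NoThree D F := by
  have k : 0 < 1 / 2 - F ∨ 0 < D + F := by
    by_contra k
    push Not at k
    exact i ⟨by linarith [k.1, k.2], by linarith [k.1]⟩
  have m := fun s ↦ mU (D := D) (F := F) (s := s) (by ring) (by ring) h3 h4 (by linarith)
    (by linarith) k
  have t := fun s ↦ tU (D := D) (F := F) (s := s) (by ring) (by ring) h3 h4 (by linarith)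
    (by linarith) k
  exact glue (by linarith) (by linarith) (by linarith) (by linarith)
    (fun _ ↦ cU (by ring) (by ring) h3 h4 (by linarith) (by linarith) k)
    (fun s h ↦ (le_total s 6).elim (m s h).1 (t s (by linarith)).1)
    fun s h ↦ (le_total s 8).elim (m s h).2 (t s (by linarith)).2

theorem U1_holds (D F : ℝ) (h1 : 7 / 16 ≤ F) (h2 : F ≤ 1 / 2) (h3 : 0 ≤ D + F) (h4 : D ≤ -2 / 5)
    (i : ¬(D = -1 / 2 ∧ F = 1 / 2)) : NoThree D F := U1_holds' D F h1 h2 h3 (by linarith) i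

end Pool.Agent.Lib.MP_d6150d_an
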