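import Pool.Agent.Lib.MP_d6150d_an.X2AD

/-! A generated chart: the computations. -/

namespace Pool.Agent.Lib.MP_d6150d_an.X2A

theorem k0 : chk C 0x88288088122 [(0, 11728124029611), (-79164837199872, -70368744177664),
    (84112639524864, 105553116266496), (0, 140737488355328)] = true := by
  decide +kernel

end Pool.Agent.Lib.MP_d6150d_an.X2A
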