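import Pool.Agent.Lib.MP_d6150d_an.X2M
import Pool.Agent.Lib.MP_d6150d_an.X2AK0

/-! A generated chart: the inequality. -/

namespace Pool.Agent.Lib.MP_d6150d_an.X2A

set_option linter.unnecessarySeqFocus false
set_option linter.unusedTactic false
set_option linter.unusedVariables false

theorem gd : Gd C [(0, 11728124029611), (-79164837199872, -70368744177664), (84112639524864,
    105553116266496), (0, 140737488355328)] := chk_sound k0

set_option maxRecDepth 100000 in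
theorem eq {a D F o e b x p V iV i1 i2 n B A L den k k2 xi z17 z18 : ℝ} (he : e = Real.exp ((4 * F -
    3) * (5 / 2))) (hb : b = o * e) (hx : x = a * a) (hp : p = a * b) (hV : V = (1 - x) * ((1 + D) *
    x - D)) (hiV : iV = V⁻¹) (hi1 : i1 = (2 * F - 1)⁻¹) (hi2 : i2 = (2 - 2 * F)⁻¹) (hn : n = (2 * D
    * (1 - p) * i2 + (1 + 2 * D) * (x - p) * i1) * iV) (hB : B = -(D * iV)) (hA : A = -((1 + 2 * D)
    * x * iV) - 2 * B) (hL : L = -(p * iV)) (hden : den = p - (n + 1) * V / 3) (hk : k = (√den)⁻¹)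
    (hk2 : k2 = k * k) (hxi : xi = 1 - p * k2) (hz17 : z17 = x2sep D F xi) (hz18 : z18 = x2phi F n A
    B L) : outR prog 0 [a, D, F, o] = b * b * (k2 * k) * z17 - z18 := by
  replace he : e = (Real.exp (((Int.cast (5) : ℝ) / (Nat.cast 2 : ℝ)) * (((Int.cast (4) : ℝ) * F) -
    (Int.cast (3) : ℝ)))) := he.trans (congrArg Real.exp (by push_cast <;> ring))
  replace hb : b = (o * e) := hb.trans (by push_cast <;> ring)
  replace hx : x = (a * a) := hx.trans (by push_cast <;> ring)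
  replace hp : p = (a * b) := hp.trans (by push_cast <;> ring)
  replace hV : V = (((Int.cast (1) : ℝ) - x) * ((((Int.cast (1) : ℝ) + D) * x) - D)) := hV.trans (by
    push_cast <;> ring)
  replace hiV : iV = V⁻¹ := hiV.trans (by push_cast <;> ring)
  replace hi1 : i1 = (((Int.cast (2) : ℝ) * F) - (Int.cast (1) : ℝ))⁻¹ := hi1.trans (by push_cast
    <;> ring)
  replace hi2 : i2 = ((Int.cast (2) : ℝ) - ((Int.cast (2) : ℝ) * F))⁻¹ := hi2.trans (by push_cast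
    <;> ring)
  replace hn : n = ((((((Int.cast (2) : ℝ) * D) * ((Int.cast (1) : ℝ) - p)) * i2) + ((((Int.cast (1)
    : ℝ) + ((Int.cast (2) : ℝ) * D)) * (x - p)) * i1)) * iV) := hn.trans (by push_cast <;> ring)
  replace hB : B = ((Int.cast (-1) : ℝ) * (D * iV)) := hB.trans (by push_cast <;> ring)
  replace hA : A = (((Int.cast (-1) : ℝ) * ((((Int.cast (1) : ℝ) + ((Int.cast (2) : ℝ) * D)) * x) *
    iV)) - ((Int.cast (2) : ℝ) * B)) := hA.trans (by push_cast <;> ring)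
  replace hL : L = ((Int.cast (-1) : ℝ) * (p * iV)) := hL.trans (by push_cast <;> ring)
  replace hden : den = (p - (((Int.cast (1) : ℝ) / (Nat.cast 3 : ℝ)) * ((n + (Int.cast (1) : ℝ)) *
    V))) := hden.trans (by push_cast <;> ring)
  replace hk2 : k2 = (k * k) := hk2.trans (by push_cast <;> ring)
  replace hxi : xi = ((Int.cast (1) : ℝ) - (p * k2)) := hxi.trans (by push_cast <;> ring)
  replace hz17 : z17 = (mX2Sep D F xi) := hz17.trans (mX2Sep_0 ..)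
  replace hz18 : z18 = (mX2Phi F n A B L) := hz18.trans (mX2Phi_0 ..)
  have e0 : ((((b * b) * (k2 * k)) * z17) - z18) = b * b * (k2 * k) * z17 - z18 := by push_cast <;>
    ring
  subst he hb hx hp hV hiV hi1 hi2 hn hB hA hL hden hk hk2 hxi hz17 hz18
  exact Eq.trans rfl e0

theorem l0 : ((0 : ℤ) : ℝ) / 2 ^ 47 = 0 := by norm_num
theorem u0 : (1 / 12 : ℝ) ≤ ((11728124029611 : ℤ) : ℝ) / 2 ^ 47 := by norm_num
theorem l1 : ((-79164837199872 : ℤ) : ℝ) / 2 ^ 47 = -9 / 16 := by norm_num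
theorem u1 : (-1 / 2 : ℝ) = ((-70368744177664 : ℤ) : ℝ) / 2 ^ 47 := by norm_num
theorem l2 : ((84112639524864 : ℤ) : ℝ) / 2 ^ 47 = 153 / 256 := by norm_num
theorem u2 : (3 / 4 : ℝ) = ((105553116266496 : ℤ) : ℝ) / 2 ^ 47 := by norm_num
theorem l3 : ((0 : ℤ) : ℝ) / 2 ^ 47 = 0 := by norm_num
theorem u3 : (1 : ℝ) = ((140737488355328 : ℤ) : ℝ) / 2 ^ 47 := by norm_num

theorem out0 {a D F o : ℝ} (a0 : 0 ≤ a) (b0 : a ≤ 1 / 12) (a1 : -9 / 16 ≤ D) (b1 : D ≤ -1 / 2) (a2 :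
    153 / 256 ≤ F) (b2 : F ≤ 3 / 4) (a3 : 0 ≤ o) (b3 : o ≤ 1) : 0 < outR prog 0 [a, D, F, o] :=
  gd 0 (by decide) [a, D, F, o] (.cons ⟨l0.le.trans a0, b0.trans u0⟩ (.cons ⟨l1.le.trans a1,
    b1.trans u1.le⟩ (.cons ⟨l2.le.trans a2, b2.trans u2.le⟩ (.cons ⟨l3.le.trans a3, b3.trans u3.le⟩
    (.nil))))) ⟨nofun, nofun, nofun, nofun, trivial⟩ (List.forall_mem_nil _) (Van.of0 rfl) (nofun)

theorem pos0 {a D F o e b x p V iV i1 i2 n B A L den k k2 xi z17 z18 : ℝ} (he : e = Real.exp ((4 * F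
    - 3) * (5 / 2))) (hb : b = o * e) (hx : x = a * a) (hp : p = a * b) (hV : V = (1 - x) * ((1 + D)
    * x - D)) (hiV : iV = V⁻¹) (hi1 : i1 = (2 * F - 1)⁻¹) (hi2 : i2 = (2 - 2 * F)⁻¹) (hn : n = (2 *
    D * (1 - p) * i2 + (1 + 2 * D) * (x - p) * i1) * iV) (hB : B = -(D * iV)) (hA : A = -((1 + 2 *
    D) * x * iV) - 2 * B) (hL : L = -(p * iV)) (hden : den = p - (n + 1) * V / 3) (hk : k =
    (√den)⁻¹) (hk2 : k2 = k * k) (hxi : xi = 1 - p * k2) (hz17 : z17 = x2sep D F xi) (hz18 : z18 =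
    x2phi F n A B L) (a0 : 0 ≤ a) (b0 : a ≤ 1 / 12) (a1 : -9 / 16 ≤ D) (b1 : D ≤ -1 / 2) (a2 : 153 /
    256 ≤ F) (b2 : F ≤ 3 / 4) (a3 : 0 ≤ o) (b3 : o ≤ 1) : 0 < b * b * (k2 * k) * z17 - z18 :=
  have e := eq he hb hx hp hV hiV hi1 hi2 hn hB hA hL hden hk hk2 hxi hz17 hz18
  (out0 a0 b0 a1 b1 a2 b2 a3 b3).trans_eq e

end Pool.Agent.Lib.MP_d6150d_an.X2A
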