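import Pool.Agent.Lib.MP_d6150d_an.X2BD

/-! A generated chart: the computations. -/

namespace Pool.Agent.Lib.MP_d6150d_an.X2B

theorem k0 : chk C 0x8818812 [(0, 977343669135), (-79164837199872, -70368744177664),
    (105553116266496, 118747255799808), (0, 140737488355328)] = true := by
  decide +kernel

theorem k1 : chk C 0x882881388328822 [(0, 977343669135), (-79164837199872, -70368744177664),
    (118747255799808, 131941395333120), (0, 140737488355328)] = true := by
  decide +kernel

end Pool.Agent.Lib.MP_d6150d_an.X2B
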