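import Pool.Agent.Lib.MP_d6150d_an.X2M
import Pool.Agent.Lib.MP_d6150d_an.X2BK0

/-! A generated chart: the inequality. -/

namespace Pool.Agent.Lib.MP_d6150d_an.X2B

set_option linter.unnecessarySeqFocus false
set_option linter.unusedTactic false
set_option linter.unusedVariables false

theorem gd : Gd C [(0, 977343669135), (-79164837199872, -70368744177664), (105553116266496,
    131941395333120), (0, 140737488355328)] := .split 2 (chk_sound k0) (chk_sound k1)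

set_option maxRecDepth 100000 in
theorem eq {x D F o e p V iV i1 i2 n B A L den xi z13 z14 : ℝ} (he : e = Real.exp ((2 * F - 2) * 5))
    (hp : p = o * e) (hV : V = (1 - x) * ((1 + D) * x - D)) (hiV : iV = V⁻¹) (hi1 : i1 = (2 * F -
    1)⁻¹) (hi2 : i2 = (2 - 2 * F)⁻¹) (hn : n = (2 * D * (1 - p) * i2 + (1 + 2 * D) * (x - p) * i1) *
    iV) (hB : B = -(D * iV)) (hA : A = -((1 + 2 * D) * x * iV) - 2 * B) (hL : L = -(p * iV)) (hden :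
    den = p - (n + 1) * V / 3) (hxi : xi = 1 - p * den⁻¹) (hz13 : z13 = x2phi F n A B L) (hz14 : z14
    = x2sep D F xi) : outR prog 0 [x, D, F, o] = -z13 ∧ outR prog 1 [x, D, F, o] = z14 := by
  replace he : e = (Real.exp ((Int.cast (5) : ℝ) * (((Int.cast (2) : ℝ) * F) - (Int.cast (2) : ℝ))))
    := he.trans (congrArg Real.exp (by push_cast <;> ring))
  replace hp : p = (o * e) := hp.trans (by push_cast <;> ring)
  replace hV : V = (((Int.cast (1) : ℝ) - x) * ((((Int.cast (1) : ℝ) + D) * x) - D)) := hV.trans (by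
    push_cast <;> ring)
  replace hiV : iV = V⁻¹ := hiV.trans (by push_cast <;> ring)
  replace hi1 : i1 = (((Int.cast (2) : ℝ) * F) - (Int.cast (1) : ℝ))⁻¹ := hi1.trans (by push_cast
    <;> ring)
  replace hi2 : i2 = ((Int.cast (2) : ℝ) - ((Int.cast (2) : ℝ) * F))⁻¹ := hi2.trans (by push_cast
    <;> ring)
  replace hn : n = ((((((Int.cast (2) : ℝ) * D) * ((Int.cast (1) : ℝ) - p)) * i2) + ((((Int.cast (1)
    : ℝ) + ((Int.cast (2) : ℝ) * D)) * (x - p)) * i1)) * iV) := hn.trans (by push_cast <;> ring)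
  replace hB : B = ((Int.cast (-1) : ℝ) * (D * iV)) := hB.trans (by push_cast <;> ring)
  replace hA : A = (((Int.cast (-1) : ℝ) * ((((Int.cast (1) : ℝ) + ((Int.cast (2) : ℝ) * D)) * x) *
    iV)) - ((Int.cast (2) : ℝ) * B)) := hA.trans (by push_cast <;> ring)
  replace hL : L = ((Int.cast (-1) : ℝ) * (p * iV)) := hL.trans (by push_cast <;> ring)
  replace hden : den = (p - (((Int.cast (1) : ℝ) / (Nat.cast 3 : ℝ)) * ((n + (Int.cast (1) : ℝ)) *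
    V))) := hden.trans (by push_cast <;> ring)
  replace hxi : xi = ((Int.cast (1) : ℝ) - (p * den⁻¹)) := hxi.trans (by push_cast <;> ring)
  replace hz13 : z13 = (mX2Phi F n A B L) := hz13.trans (mX2Phi_0 ..)
  replace hz14 : z14 = (mX2Sep D F xi) := hz14.trans (mX2Sep_0 ..)
  have e0 : ((Int.cast (-1) : ℝ) * z13) = -z13 := by push_cast <;> ring
  subst he hp hV hiV hi1 hi2 hn hB hA hL hden hxi hz13 hz14
  exact ⟨Eq.trans rfl e0, rfl⟩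

theorem l0 : ((0 : ℤ) : ℝ) / 2 ^ 47 = 0 := by norm_num
theorem u0 : (1 / 144 : ℝ) ≤ ((977343669135 : ℤ) : ℝ) / 2 ^ 47 := by norm_num
theorem l1 : ((-79164837199872 : ℤ) : ℝ) / 2 ^ 47 = -9 / 16 := by norm_num
theorem u1 : (-1 / 2 : ℝ) = ((-70368744177664 : ℤ) : ℝ) / 2 ^ 47 := by norm_num
theorem l2 : ((105553116266496 : ℤ) : ℝ) / 2 ^ 47 = 3 / 4 := by norm_num
theorem u2 : (15 / 16 : ℝ) = ((131941395333120 : ℤ) : ℝ) / 2 ^ 47 := by norm_num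
theorem l3 : ((0 : ℤ) : ℝ) / 2 ^ 47 = 0 := by norm_num
theorem u3 : (1 : ℝ) = ((140737488355328 : ℤ) : ℝ) / 2 ^ 47 := by norm_num

theorem out0 {x D F o : ℝ} (a0 : 0 ≤ x) (b0 : x ≤ 1 / 144) (a1 : -9 / 16 ≤ D) (b1 : D ≤ -1 / 2) (a2
    : 3 / 4 ≤ F) (b2 : F ≤ 15 / 16) (a3 : 0 ≤ o) (b3 : o ≤ 1) : 0 < outR prog 0 [x, D, F, o] :=
  gd 0 (by decide) [x, D, F, o] (.cons ⟨l0.le.trans a0, b0.trans u0⟩ (.cons ⟨l1.le.trans a1,
    b1.trans u1.le⟩ (.cons ⟨l2.le.trans a2, b2.trans u2.le⟩ (.cons ⟨l3.le.trans a3, b3.trans u3.le⟩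
    (.nil))))) ⟨nofun, nofun, nofun, nofun, trivial⟩ (List.forall_mem_nil _) (Van.of0 rfl) (nofun)

theorem pos0 {x D F o e p V iV i1 i2 n B A L den xi z13 z14 : ℝ} (he : e = Real.exp ((2 * F - 2) *
    5)) (hp : p = o * e) (hV : V = (1 - x) * ((1 + D) * x - D)) (hiV : iV = V⁻¹) (hi1 : i1 = (2 * F
    - 1)⁻¹) (hi2 : i2 = (2 - 2 * F)⁻¹) (hn : n = (2 * D * (1 - p) * i2 + (1 + 2 * D) * (x - p) * i1)
    * iV) (hB : B = -(D * iV)) (hA : A = -((1 + 2 * D) * x * iV) - 2 * B) (hL : L = -(p * iV)) (hden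
    : den = p - (n + 1) * V / 3) (hxi : xi = 1 - p * den⁻¹) (hz13 : z13 = x2phi F n A B L) (hz14 :
    z14 = x2sep D F xi) (a0 : 0 ≤ x) (b0 : x ≤ 1 / 144) (a1 : -9 / 16 ≤ D) (b1 : D ≤ -1 / 2) (a2 : 3
    / 4 ≤ F) (b2 : F ≤ 15 / 16) (a3 : 0 ≤ o) (b3 : o ≤ 1) : 0 < -z13 :=
  have e := eq he hp hV hiV hi1 hi2 hn hB hA hL hden hxi hz13 hz14
  (out0 a0 b0 a1 b1 a2 b2 a3 b3).trans_eq e.1

theorem out1 {x D F o : ℝ} (a0 : 0 ≤ x) (b0 : x ≤ 1 / 144) (a1 : -9 / 16 ≤ D) (b1 : D ≤ -1 / 2) (a2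
    : 3 / 4 ≤ F) (b2 : F ≤ 15 / 16) (a3 : 0 ≤ o) (b3 : o ≤ 1) : 0 < outR prog 1 [x, D, F, o] :=
  gd 1 (by decide) [x, D, F, o] (.cons ⟨l0.le.trans a0, b0.trans u0⟩ (.cons ⟨l1.le.trans a1,
    b1.trans u1.le⟩ (.cons ⟨l2.le.trans a2, b2.trans u2.le⟩ (.cons ⟨l3.le.trans a3, b3.trans u3.le⟩
    (.nil))))) ⟨nofun, nofun, nofun, nofun, trivial⟩ (List.forall_mem_nil _) (Van.of0 rfl) (nofun)

theorem pos1 {x D F o e p V iV i1 i2 n B A L den xi z13 z14 : ℝ} (he : e = Real.exp ((2 * F - 2) *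
    5)) (hp : p = o * e) (hV : V = (1 - x) * ((1 + D) * x - D)) (hiV : iV = V⁻¹) (hi1 : i1 = (2 * F
    - 1)⁻¹) (hi2 : i2 = (2 - 2 * F)⁻¹) (hn : n = (2 * D * (1 - p) * i2 + (1 + 2 * D) * (x - p) * i1)
    * iV) (hB : B = -(D * iV)) (hA : A = -((1 + 2 * D) * x * iV) - 2 * B) (hL : L = -(p * iV)) (hden
    : den = p - (n + 1) * V / 3) (hxi : xi = 1 - p * den⁻¹) (hz13 : z13 = x2phi F n A B L) (hz14 :
    z14 = x2sep D F xi) (a0 : 0 ≤ x) (b0 : x ≤ 1 / 144) (a1 : -9 / 16 ≤ D) (b1 : D ≤ -1 / 2) (a2 : 3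
    / 4 ≤ F) (b2 : F ≤ 15 / 16) (a3 : 0 ≤ o) (b3 : o ≤ 1) : 0 < z14 :=
  have e := eq he hp hV hiV hi1 hi2 hn hB hA hL hden hxi hz13 hz14
  (out1 a0 b0 a1 b1 a2 b2 a3 b3).trans_eq e.2

end Pool.Agent.Lib.MP_d6150d_an.X2B
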