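import Pool.Agent.Lib.MP_d6150d_an.X2ND

/-! A generated chart: the computations. -/

namespace Pool.Agent.Lib.MP_d6150d_an.X2N

theorem k0 : chk C 0x88880118828818212 [(-79164837199872, -70368744177664), (84112639524864,
    131941395333120), (0, 175921860444160)] = true := by
  decide +kernel

theorem k1 : chk C 0x8808810 [(-79164837199872, -70368744177664), (84112639524864, 96069828476928),
    (175921860444160, 263882790666240)] = true := by
  decide +kernel

theorem k2 : chk C 0x8880188088210 [(-79164837199872, -70368744177664), (84112639524864,
    96069828476928), (263882790666240, 351843720888320)] = true := by
  decide +kernel

theorem k3 : chk C 0x88188108802 [(-79164837199872, -70368744177664), (96069828476928,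
    108027017428992), (175921860444160, 351843720888320)] = true := by
  decide +kernel

theorem k4 : chk C 0x881881082 [(-79164837199872, -70368744177664), (108027017428992,
    119984206381056), (175921860444160, 351843720888320)] = true := by
  decide +kernel

theorem k5 : chk C 0x88188108802 [(-79164837199872, -70368744177664), (119984206381056,
    131941395333120), (175921860444160, 351843720888320)] = true := by
  decide +kernel

theorem k6 : chk C 0x880880288088020 [(-79164837199872, -70368744177664), (84112639524864,
    90091234000896), (351843720888320, 527765581332480)] = true := by
  decide +kernel

theorem k7 : chk C 0x8828820 [(-79164837199872, -70368744177664), (90091234000896, 96069828476928),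
    (351843720888320, 527765581332480)] = true := by
  decide +kernel

theorem k8 : chk C 0x880882188088210 [(-79164837199872, -70368744177664), (96069828476928,
    108027017428992), (351843720888320, 527765581332480)] = true := by
  decide +kernel

end Pool.Agent.Lib.MP_d6150d_an.X2N
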