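import Pool.Agent.Lib.MP_d6150d_an.X2ND

/-! A generated chart: the computations. -/

namespace Pool.Agent.Lib.MP_d6150d_an.X2N

theorem k9 : chk C 0x88088008880188201 [(-79164837199872, -70368744177664), (84112639524864,
    96069828476928), (527765581332480, 703687441776640)] = true := by
  decide +kernel

theorem k10 : chk C 0x8808801 [(-79164837199872, -70368744177664), (96069828476928,
    108027017428992), (527765581332480, 703687441776640)] = true := by
  decide +kernel

theorem k11 : chk C 0x88088018818880102 [(-79164837199872, -70368744177664), (108027017428992,
    119984206381056), (351843720888320, 703687441776640)] = true := by
  decide +kernel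

theorem k12 : chk C 0x8808188088010 [(-79164837199872, -70368744177664), (119984206381056,
    131941395333120), (351843720888320, 527765581332480)] = true := by
  decide +kernel

theorem k13 : chk C 0x8808801 [(-79164837199872, -70368744177664), (119984206381056,
    131941395333120), (527765581332480, 703687441776640)] = true := by
  decide +kernel

end Pool.Agent.Lib.MP_d6150d_an.X2N
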