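import Pool.Agent.Lib.MP_d6150d_an.X2PD

/-! A generated chart: the computations. -/

namespace Pool.Agent.Lib.MP_d6150d_an.X2P

theorem k0 : chk C 0x8881188188122 [(-79164837199872, -70368744177664), (84112639524864,
    131941395333120), (0, 175921860444160)] = true := by
  decide +kernel

theorem k1 : chk C 0x881828888008211 [(-79164837199872, -70368744177664), (84112639524864,
    131941395333120), (175921860444160, 263882790666240)] = true := by
  decide +kernel

theorem k2 : chk C 0x88188118818880111 [(-79164837199872, -70368744177664), (84112639524864,
    131941395333120), (263882790666240, 351843720888320)] = true := by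
  decide +kernel

end Pool.Agent.Lib.MP_d6150d_an.X2P
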