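import Pool.Agent.Lib.MP_d6150d_an.X2M
import Pool.Agent.Lib.MP_d6150d_an.X2PK0

/-! A generated chart: the inequality. -/

namespace Pool.Agent.Lib.MP_d6150d_an.X2P

set_option linter.unnecessarySeqFocus false
set_option linter.unusedTactic false
set_option linter.unusedVariables false

theorem gd : Gd C [(-79164837199872, -70368744177664), (84112639524864, 131941395333120), (0,
    351843720888320)] := .split 2 (chk_sound k0) (.split 2 (chk_sound k1) (chk_sound k2))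

set_option maxRecDepth 100000 in
theorem eq {D F t nt q p1 yi mu z iW L M B A r r2 xi z15 z16 : ℝ} (hnt : nt = -t) (hq : q = Real.exp
    nt) (hp1 : p1 = ph1 nt) (hyi : yi = Real.exp (F * nt)) (hmu : mu = muR D F t) (hz : z = yi * yi)
    (hiW : iW = (p1 * (1 + D - D * q))⁻¹) (hL : L = z * iW) (hM : M = F * mu * L) (hB : B = D * (q *
    q) * iW) (hA : A = (1 + 2 * D) * q * iW - 2 * B) (hr : r = (√(1 + F * (t * t * mu) / 3))⁻¹) (hr2
    : r2 = r * r) (hxi : xi = 1 - r2) (hz15 : z15 = x2cen F t M A B L) (hz16 : z16 = x2sep D F xi) :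
    outR prog 0 [D, F, t] = z15 - t * yi * (r2 * r) * z16 := by
  replace hnt : nt = ((Int.cast (-1) : ℝ) * t) := hnt.trans (by push_cast <;> ring)
  replace hyi : yi = (Real.exp (F * nt)) := hyi.trans (congrArg Real.exp (by push_cast <;> ring))
  replace hmu : mu = (mMu D F t) := hmu.trans (mMu_0 ..)
  replace hz : z = (yi * yi) := hz.trans (by push_cast <;> ring)
  replace hiW : iW = (p1 * (((Int.cast (1) : ℝ) + D) - (D * q)))⁻¹ := hiW.trans (by push_cast <;>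
    ring)
  replace hL : L = (z * iW) := hL.trans (by push_cast <;> ring)
  replace hM : M = ((F * mu) * L) := hM.trans (by push_cast <;> ring)
  replace hB : B = ((D * (q * q)) * iW) := hB.trans (by push_cast <;> ring)
  replace hA : A = (((((Int.cast (1) : ℝ) + ((Int.cast (2) : ℝ) * D)) * q) * iW) - ((Int.cast (2) :
    ℝ) * B)) := hA.trans (by push_cast <;> ring)
  replace hr : r = (√((Int.cast (1) : ℝ) + (((Int.cast (1) : ℝ) / (Nat.cast 3 : ℝ)) * (F * ((t * t)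
    * mu)))))⁻¹ := hr.trans (congrArg (fun x : ℝ ↦ (√x)⁻¹) (by push_cast <;> ring))
  replace hr2 : r2 = (r * r) := hr2.trans (by push_cast <;> ring)
  replace hxi : xi = ((Int.cast (1) : ℝ) - r2) := hxi.trans (by push_cast <;> ring)
  replace hz15 : z15 = (mX2Cen F t M A B L) := hz15.trans (mX2Cen_0 ..)
  replace hz16 : z16 = (mX2Sep D F xi) := hz16.trans (mX2Sep_0 ..)
  have e0 : (z15 - (((t * yi) * (r2 * r)) * z16)) = z15 - t * yi * (r2 * r) * z16 := by push_cast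
    <;> ring
  subst hnt hq hp1 hyi hmu hz hiW hL hM hB hA hr hr2 hxi hz15 hz16
  exact Eq.trans rfl e0

theorem l0 : ((-79164837199872 : ℤ) : ℝ) / 2 ^ 47 = -9 / 16 := by norm_num
theorem u0 : (-1 / 2 : ℝ) = ((-70368744177664 : ℤ) : ℝ) / 2 ^ 47 := by norm_num
theorem l1 : ((84112639524864 : ℤ) : ℝ) / 2 ^ 47 = 153 / 256 := by norm_num
theorem u1 : (15 / 16 : ℝ) = ((131941395333120 : ℤ) : ℝ) / 2 ^ 47 := by norm_num
theorem l2 : ((0 : ℤ) : ℝ) / 2 ^ 47 = 0 := by norm_num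
theorem u2 : (5 / 2 : ℝ) = ((351843720888320 : ℤ) : ℝ) / 2 ^ 47 := by norm_num

theorem out0 (V2 : ∀ D F : ℝ, -9 / 16 ≤ D → D ≤ -1 / 2 → 153 / 256 ≤ F → F ≤ 15 / 16 → (fun t ↦ outR
    prog 0 [D, F, t]) =O[nhdsWithin 0 (Set.Ioi 0)] fun t : ℝ ↦ t ^ 2) {D F t : ℝ} (a0 : -9 / 16 ≤ D)
    (b0 : D ≤ -1 / 2) (a1 : 153 / 256 ≤ F) (b1 : F ≤ 15 / 16) (a2 : 0 ≤ t) (b2 : t ≤ 5 / 2) (p2 : 0
    < t) : 0 < outR prog 0 [D, F, t] :=
  gd 0 (by decide) [D, F, t] (.cons ⟨l0.le.trans a0, b0.trans u0.le⟩ (.cons ⟨l1.le.trans a1,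
    b1.trans u1.le⟩ (.cons ⟨l2.le.trans a2, b2.trans u2.le⟩ (.nil)))) ⟨nofun, nofun, fun _ ↦ p2,
    trivial⟩ (List.forall_mem_nil _) (⟨fun _ ↦ allB_iff.2 fun _ _ ↦ trivial, fun y0 a0 b0 ↦ ⟨fun _ ↦
    allB_iff.2 fun _ _ ↦ trivial, fun y1 a1 b1 ↦ ⟨fun _ ↦ V2 y0 y1 (l0.ge.trans a0) (b0.trans u0.ge)
    (l1.ge.trans a1) (b1.trans u1.ge), fun _ _ _ ↦ trivial⟩⟩⟩) (nofun)

end Pool.Agent.Lib.MP_d6150d_an.X2P
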