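import Pool.Agent.Lib.MP_d6150d_an.X2RD

/-! A generated chart: the computations. -/

namespace Pool.Agent.Lib.MP_d6150d_an.X2R

theorem k0 : chk C 0x8 [(0, 11728124029611), (-79164837199872, -70368744177664), (84112639524864,
    96069828476928), (0, 70368744177664)] = true := by
  decide +kernel

theorem k1 : chk C 0x8881288288802831830 [(0, 11728124029611), (-79164837199872, -70368744177664),
    (84112639524864, 96069828476928), (70368744177664, 140737488355328)] = true := by
  decide +kernel

theorem k2 : chk C 0x888812083 [(0, 11728124029611), (-79164837199872, -70368744177664),
    (96069828476928, 108027017428992), (0, 140737488355328)] = true := by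
  decide +kernel

theorem k3 : chk C 0x88810 [(0, 11728124029611), (-79164837199872, -70368744177664),
    (108027017428992, 119984206381056), (0, 140737488355328)] = true := by
  decide +kernel

theorem k4 : chk C 0x88082888103 [(0, 5864062014805), (-79164837199872, -70368744177664),
    (119984206381056, 131941395333120), (0, 140737488355328)] = true := by
  decide +kernel

theorem k5 : chk C 0x88082881823 [(5864062014805, 11728124029611), (-79164837199872,
    -70368744177664), (119984206381056, 131941395333120), (0, 140737488355328)] = true := by
  decide +kernel

end Pool.Agent.Lib.MP_d6150d_an.X2R
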