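import Pool.Agent.Lib.MP_d6150d_an.X2M
import Pool.Agent.Lib.MP_d6150d_an.X2RK0

/-! A generated chart: the inequality. -/

namespace Pool.Agent.Lib.MP_d6150d_an.X2R

set_option linter.unnecessarySeqFocus false
set_option linter.unusedTactic false
set_option linter.unusedVariables false

theorem gd : Gd C [(0, 11728124029611), (-79164837199872, -70368744177664), (84112639524864,
    131941395333120), (0, 140737488355328)] := .split 2 (.split 2 (.split 3 (chk_sound k0)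
    (chk_sound k1)) (chk_sound k2)) (.split 2 (chk_sound k3) (.split 0 (chk_sound k4) (chk_sound
    k5)))

set_option maxRecDepth 100000 in
theorem eq {q D F o e w W iW i1 i2 n B A L z k k2 xi z15 z16 : ℝ} (he : e = Real.exp ((1 - 2 * F) *
    (5 / 2))) (hw : w = o * e) (hW : W = (1 - q) * (1 + D - D * q)) (hiW : iW = W⁻¹) (hi1 : i1 = (2
    * F - 1)⁻¹) (hi2 : i2 = (2 - 2 * F)⁻¹) (hn : n = (2 * D * (w - q) * i2 - (1 + 2 * D) * (1 - w) *
    i1) * iW) (hB : B = D * iW) (hA : A = (1 + 2 * D - 2 * (D * q)) * iW) (hL : L = w * iW) (hz : z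
    = q * w) (hk : k = (√(z + (q * n + 1) * W / 3))⁻¹) (hk2 : k2 = k * k) (hxi : xi = 1 - z * k2)
    (hz15 : z15 = x2tl F q n A B L) (hz16 : z16 = x2sep D F xi) : outR prog 0 [q, D, F, o] = z15 - w
    * w * (k2 * k) * z16 := by
  replace he : e = (Real.exp (((Int.cast (5) : ℝ) / (Nat.cast 2 : ℝ)) * ((Int.cast (1) : ℝ) -
    ((Int.cast (2) : ℝ) * F)))) := he.trans (congrArg Real.exp (by push_cast <;> ring))
  replace hw : w = (o * e) := hw.trans (by push_cast <;> ring)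
  replace hW : W = (((Int.cast (1) : ℝ) - q) * (((Int.cast (1) : ℝ) + D) - (D * q))) := hW.trans (by
    push_cast <;> ring)
  replace hiW : iW = W⁻¹ := hiW.trans (by push_cast <;> ring)
  replace hi1 : i1 = (((Int.cast (2) : ℝ) * F) - (Int.cast (1) : ℝ))⁻¹ := hi1.trans (by push_cast
    <;> ring)
  replace hi2 : i2 = ((Int.cast (2) : ℝ) - ((Int.cast (2) : ℝ) * F))⁻¹ := hi2.trans (by push_cast
    <;> ring)
  replace hn : n = ((((((Int.cast (2) : ℝ) * D) * (w - q)) * i2) - ((((Int.cast (1) : ℝ) +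
    ((Int.cast (2) : ℝ) * D)) * ((Int.cast (1) : ℝ) - w)) * i1)) * iW) := hn.trans (by push_cast <;>
    ring)
  replace hB : B = (D * iW) := hB.trans (by push_cast <;> ring)
  replace hA : A = ((((Int.cast (1) : ℝ) + ((Int.cast (2) : ℝ) * D)) - ((Int.cast (2) : ℝ) * (D *
    q))) * iW) := hA.trans (by push_cast <;> ring)
  replace hL : L = (w * iW) := hL.trans (by push_cast <;> ring)
  replace hz : z = (q * w) := hz.trans (by push_cast <;> ring)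
  replace hk : k = (√(z + (((Int.cast (1) : ℝ) / (Nat.cast 3 : ℝ)) * (((q * n) + (Int.cast (1) : ℝ))
    * W))))⁻¹ := hk.trans (congrArg (fun x : ℝ ↦ (√x)⁻¹) (by push_cast <;> ring))
  replace hk2 : k2 = (k * k) := hk2.trans (by push_cast <;> ring)
  replace hxi : xi = ((Int.cast (1) : ℝ) - (z * k2)) := hxi.trans (by push_cast <;> ring)
  replace hz15 : z15 = (mX2Tl F q n A B L) := hz15.trans (mX2Tl_0 ..)
  replace hz16 : z16 = (mX2Sep D F xi) := hz16.trans (mX2Sep_0 ..)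
  have e0 : (z15 - (((w * w) * (k2 * k)) * z16)) = z15 - w * w * (k2 * k) * z16 := by push_cast <;>
    ring
  subst he hw hW hiW hi1 hi2 hn hB hA hL hz hk hk2 hxi hz15 hz16
  exact Eq.trans rfl e0

theorem l0 : ((0 : ℤ) : ℝ) / 2 ^ 47 = 0 := by norm_num
theorem u0 : (1 / 12 : ℝ) ≤ ((11728124029611 : ℤ) : ℝ) / 2 ^ 47 := by norm_num
theorem l1 : ((-79164837199872 : ℤ) : ℝ) / 2 ^ 47 = -9 / 16 := by norm_num
theorem u1 : (-1 / 2 : ℝ) = ((-70368744177664 : ℤ) : ℝ) / 2 ^ 47 := by norm_num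
theorem l2 : ((84112639524864 : ℤ) : ℝ) / 2 ^ 47 = 153 / 256 := by norm_num
theorem u2 : (15 / 16 : ℝ) = ((131941395333120 : ℤ) : ℝ) / 2 ^ 47 := by norm_num
theorem l3 : ((0 : ℤ) : ℝ) / 2 ^ 47 = 0 := by norm_num
theorem u3 : (1 : ℝ) = ((140737488355328 : ℤ) : ℝ) / 2 ^ 47 := by norm_num

theorem out0 {q D F o : ℝ} (a0 : 0 ≤ q) (b0 : q ≤ 1 / 12) (a1 : -9 / 16 ≤ D) (b1 : D ≤ -1 / 2) (a2 :
    153 / 256 ≤ F) (b2 : F ≤ 15 / 16) (a3 : 0 ≤ o) (b3 : o ≤ 1) : 0 < outR prog 0 [q, D, F, o] :=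
  gd 0 (by decide) [q, D, F, o] (.cons ⟨l0.le.trans a0, b0.trans u0⟩ (.cons ⟨l1.le.trans a1,
    b1.trans u1.le⟩ (.cons ⟨l2.le.trans a2, b2.trans u2.le⟩ (.cons ⟨l3.le.trans a3, b3.trans u3.le⟩
    (.nil))))) ⟨nofun, nofun, nofun, nofun, trivial⟩ (List.forall_mem_nil _) (Van.of0 rfl) (nofun)

theorem pos0 {q D F o e w W iW i1 i2 n B A L z k k2 xi z15 z16 : ℝ} (he : e = Real.exp ((1 - 2 * F)
    * (5 / 2))) (hw : w = o * e) (hW : W = (1 - q) * (1 + D - D * q)) (hiW : iW = W⁻¹) (hi1 : i1 =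
    (2 * F - 1)⁻¹) (hi2 : i2 = (2 - 2 * F)⁻¹) (hn : n = (2 * D * (w - q) * i2 - (1 + 2 * D) * (1 -
    w) * i1) * iW) (hB : B = D * iW) (hA : A = (1 + 2 * D - 2 * (D * q)) * iW) (hL : L = w * iW) (hz
    : z = q * w) (hk : k = (√(z + (q * n + 1) * W / 3))⁻¹) (hk2 : k2 = k * k) (hxi : xi = 1 - z *
    k2) (hz15 : z15 = x2tl F q n A B L) (hz16 : z16 = x2sep D F xi) (a0 : 0 ≤ q) (b0 : q ≤ 1 / 12)
    (a1 : -9 / 16 ≤ D) (b1 : D ≤ -1 / 2) (a2 : 153 / 256 ≤ F) (b2 : F ≤ 15 / 16) (a3 : 0 ≤ o) (b3 :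
    o ≤ 1) : 0 < z15 - w * w * (k2 * k) * z16 :=
  have e := eq he hw hW hiW hi1 hi2 hn hB hA hL hz hk hk2 hxi hz15 hz16
  (out0 a0 b0 a1 b1 a2 b2 a3 b3).trans_eq e

end Pool.Agent.Lib.MP_d6150d_an.X2R
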