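import Pool.Agent.Lib.MP_d6150d_an.X2G
import Pool.Agent.Lib.MP_d6150d_an.X2P
import Pool.Agent.Lib.MP_d6150d_an.X2N
import Pool.Agent.Lib.MP_d6150d_an.X2R
import Pool.Agent.Lib.MP_d6150d_an.X2A
import Pool.Agent.Lib.MP_d6150d_an.X2B

/-! The strip `X2`: `-9 / 16 ≤ D ≤ -1 / 2`, `3 / 5 ≤ F ≤ 15 / 16`. -/

namespace Pool.Agent.Lib.MP_d6150d_an

open Real Set Filter Topology Asymptotics

variable {D F t : ℝ}

theorem x2_vmu (t : ℝ) : t * t * muR D F t = vR D F t := by rw [vR]; ring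

theorem x2_eqP (h0 : t ≠ 0) : outR X2P.prog 0 [D, F, t] = x2G D F t := by
  have hx := (exp_pos t).ne'
  have e1 : exp ((2 - 2 * F) * t) = exp (F * -t) * exp (F * -t) * exp t ^ 2 := by
    rw [sq, ← exp_add, ← exp_add, ← exp_add]; ring_nf
  have e2 : wR D t = t * (ph1 (-t) * (1 + D - D * exp (-t))) * exp t ^ 2 := by
    rw [x2_wph, ph1_neg t, exp_neg]; field_simp
  rw [X2P.eq rfl rfl rfl rfl rfl rfl rfl rfl rfl rfl rfl rfl rfl rfl rfl rfl, x2cen_eq h0, x2G, x2Z,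
    x2E, x2r, x2_vmu, mul_sub t, yR, QR, e1, e2, vR]
  generalize ph1 (-t) * (1 + D - D * exp (-t)) = W
  rw [exp_neg t]
  congr 1
  · congr 2 <;> simp only [div_eq_mul_inv, mul_inv] <;> generalize W⁻¹ = j <;> field_simp
  · rw [mul_neg]; ring

theorem x2_eqN (h0 : t ≠ 0) : outR X2N.prog 0 [D, F, -t] = x2G D F t := by
  have e1 : exp ((2 - 2 * F) * t) = exp t * exp (F * -t) * (exp t * exp (F * -t)) := by
    rw [← exp_add, ← exp_add]; ring_nf
  rw [X2N.eq (neg_neg t).symm rfl rfl rfl rfl rfl rfl rfl rfl rfl rfl rfl rfl rfl rfl rfl,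
    x2cen_eq h0, x2G, x2Z, x2E, x2r, x2_vmu, mul_sub t, yR, QR, e1, x2_wph, vR]
  generalize ph1 t * ((1 + D) * exp t - D) = W
  congr 1
  · congr 2 <;> simp only [div_eq_mul_inv, mul_inv] <;> generalize W⁻¹ = j <;> field_simp
  · rw [mul_neg]; ring

section

variable (a1 : -9 / 16 ≤ D) (b1 : D ≤ -1 / 2) (a2 : 153 / 256 ≤ F) (b2 : F ≤ 15 / 16)
include a1 b1 a2 b2

theorem x2_P (h0 : 0 < t) (h1 : t ≤ 5 / 2) : 0 < x2G D F t := by
  rw [← x2_eqP h0.ne']
  refine X2P.out0 (fun D F _ _ a _ ↦ ?_) a1 b1 a2 b2 h0.le h1 h0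
  refine ((x2_center (D := D) (F := F) (by linarith)).mono
    (nhdsWithin_mono _ fun t (ht : 0 < t) ↦ ht.ne')).congr' ?_ EventuallyEq.rfl
  filter_upwards [self_mem_nhdsWithin] with t (ht : 0 < t) using (x2_eqP ht.ne').symm

theorem x2_N (h0 : t < 0) (h1 : -5 ≤ t) : 0 < x2G D F t := by
  rw [← x2_eqN h0.ne]
  refine X2N.out0 (fun D F _ _ a _ ↦ ?_) a1 b1 a2 b2 (by linarith) (by linarith) (by linarith)
  have h : Tendsto (fun s : ℝ ↦ -s) (𝓝[>] 0) (𝓝[≠] 0) := by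
    refine tendsto_nhdsWithin_iff.2 ⟨(continuous_neg.tendsto' 0 0 neg_zero).mono_left
      nhdsWithin_le_nhds, ?_⟩
    filter_upwards [self_mem_nhdsWithin] with s (hs : 0 < s) using neg_ne_zero.2 hs.ne'
  refine ((x2_center (D := D) (F := F) (by linarith)).comp_tendsto h).congr' ?_
    (Eventually.of_forall fun s ↦ by simp)
  filter_upwards [self_mem_nhdsWithin] with s (hs : 0 < s)
  simpa using (x2_eqN (D := D) (F := F) (neg_ne_zero.2 hs.ne')).symm

theorem x2_R (ht : t ∈ JR D) (h1 : 5 / 2 ≤ t) : 0 < x2G D F t := by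
  have h0 : 0 < t := by linarith
  have hw := wR_ne ht h0.ne'
  have hx := (exp_pos t).ne'
  have h := X2R.pos0 (q := exp (-t)) (o := exp ((1 - 2 * F) * (t - 5 / 2)))
    (w := exp ((1 - 2 * F) * t)) rfl (by rw [← exp_add]; ring_nf) rfl rfl rfl rfl rfl rfl rfl rfl
    rfl rfl rfl rfl rfl rfl (exp_pos _).le ((exp_le_exp.2 (by linarith)).trans x2_ebd) a1 b1 a2 b2
    (exp_pos _).le (exp_le_one_iff.2 (by nlinarith))
  have e1 : exp ((2 - 2 * F) * t) = exp ((1 - 2 * F) * t) * exp t := by rw [← exp_add]; ring_nf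
  have e2 : (1 - exp (-t)) * (1 + D - D * exp (-t)) = wR D t * exp (-t) ^ 2 := by
    rw [wR_eq, om, exp_neg]; field_simp
  have e3 : exp (-t) * exp ((1 - 2 * F) * t) = exp (-(F * t)) * exp (-(F * t)) := by
    rw [← exp_add, ← exp_add]; ring_nf
  have e4 := x2_n (D := D) (F := F) (by linarith) (by linarith) t
  have e5 : 2 * F * yR D F t / wR D t - 1 = exp (-t) * ((2 * D * (exp ((1 - 2 * F) * t) - exp (-t)) *
      (2 - 2 * F)⁻¹ - (1 + 2 * D) * (1 - exp ((1 - 2 * F) * t)) * (2 * F - 1)⁻¹) *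
      (wR D t * exp (-t) ^ 2)⁻¹) := by
    rw [e4, e1, exp_neg]
    generalize (2 - 2 * F)⁻¹ = i2
    generalize (2 * F - 1)⁻¹ = i1
    field_simp
    ring
  rw [e2, ← e5] at h
  have e6 : exp (-t) * exp ((1 - 2 * F) * t) + (2 * F * yR D F t / wR D t - 1 + 1) *
      (wR D t * exp (-t) ^ 2) / 3 = exp (-(F * t)) * exp (-(F * t)) * (1 + F * vR D F t / 3) := by
    rw [← e3, yR, e1, exp_neg]; field_simp; ring
  have e7 := x2r_scale (u := 1 + F * vR D F t / 3) (exp_pos (-(F * t)))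
  rw [e6] at h
  have e8 := mul_pos (mul_pos (exp_pos (-t)) (exp_pos (-t))) h
  rw [mul_sub, ← x2tl_eq, ← e5] at e8
  refine mul_pos h0 (e8.trans_eq ?_)
  rw [x2Z, x2E, x2r, ← e7]
  generalize (√(exp (-(F * t)) * exp (-(F * t)) * (1 + F * vR D F t / 3)))⁻¹ = k
  congr 1
  · rw [QR, e1, exp_neg]
    congr 1 <;> field_simp
  · rw [e3, show 1 - exp (-(F * t)) * k * (exp (-(F * t)) * k) =
      1 - exp (-(F * t)) * exp (-(F * t)) * (k * k) by ring]
    linear_combination (k ^ 3 * x2sep D F (1 - exp (-(F * t)) * exp (-(F * t)) * (k * k)) *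
      (exp (-t) * exp ((1 - 2 * F) * t) + exp (-(F * t)) * exp (-(F * t)))) * e3

theorem x2_L (ht : t ∈ JR D) (h1 : t ≤ -5) : 0 < x2G D F t := by
  have h0 : t < 0 := by linarith
  have hw := wR_ne ht h0.ne
  have hv := vR_pos (F := F) ht h0.ne
  have e2 : (1 - exp t) * ((1 + D) * exp t - D) = -wR D t := by rw [wR_eq, om]; ring
  have e4 := x2_n (D := D) (F := F) (by linarith) (by linarith) t
  have e5 : (2 * D * (1 - exp ((2 - 2 * F) * t)) * (2 - 2 * F)⁻¹ + (1 + 2 * D) *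
      (exp t - exp ((2 - 2 * F) * t)) * (2 * F - 1)⁻¹) * (-wR D t)⁻¹ =
      2 * F * yR D F t / wR D t - 1 := by
    rw [e4]
    generalize (2 - 2 * F)⁻¹ = i2
    generalize (2 * F - 1)⁻¹ = i1
    field_simp
    ring
  have e3 : exp ((2 - 2 * F) * t) = exp ((1 - F) * t) * exp ((1 - F) * t) := by
    rw [← exp_add]; ring_nf
  have e6 : exp ((2 - 2 * F) * t) - (2 * F * yR D F t / wR D t - 1 + 1) * -wR D t / 3 =
      exp ((1 - F) * t) * exp ((1 - F) * t) * (1 + F * vR D F t / 3) := by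
    rw [← e3, yR]; field_simp; ring
  have e7 := x2r_scale (u := 1 + F * vR D F t / 3) (exp_pos ((1 - F) * t))
  have eZ : x2phi F (2 * F * yR D F t / wR D t - 1)
      (-((1 + 2 * D) * exp t * (-wR D t)⁻¹) - 2 * -(D * (-wR D t)⁻¹)) (-(D * (-wR D t)⁻¹))
      (-(exp ((2 - 2 * F) * t) * (-wR D t)⁻¹)) = x2Z D F t := by
    rw [x2Z, QR]
    congr 1 <;> field_simp
  have ha : exp (t / 2) ≤ 1 / 12 := (exp_le_exp.2 (by linarith)).trans x2_ebd
  have hx : exp t = exp (t / 2) * exp (t / 2) := by rw [← exp_add]; ring_nf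
  refine mul_pos_of_neg_of_neg h0 (sub_neg.2 ?_)
  rcases le_total F (3 / 4) with c | c
  · have h := X2A.pos0 (a := exp (t / 2)) (o := exp ((3 - 4 * F) * (t + 5) / 2))
      (b := exp ((3 - 4 * F) * t / 2)) (p := exp ((2 - 2 * F) * t)) rfl
      (by rw [← exp_add]; ring_nf) hx (by rw [← exp_add]; ring_nf) e2.symm rfl rfl rfl e5.symm rfl
      rfl rfl e6.symm rfl rfl rfl rfl eZ.symm (exp_pos _).le ha a1 b1 a2 c (exp_pos _).le
      (exp_le_one_iff.2 (by nlinarith))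
    have e8 : exp ((3 - 4 * F) * t / 2) * exp ((3 - 4 * F) * t / 2) = exp (-(F * t)) *
        (exp ((1 - F) * t) * exp ((1 - F) * t) * exp ((1 - F) * t)) := by
      simp only [← exp_add]; ring_nf
    rw [e3, e8] at h
    rw [x2E, x2r, ← e7]
    generalize (√(exp ((1 - F) * t) * exp ((1 - F) * t) * (1 + F * vR D F t / 3)))⁻¹ = k at *
    rw [show 1 - exp ((1 - F) * t) * k * (exp ((1 - F) * t) * k) =
      1 - exp ((1 - F) * t) * exp ((1 - F) * t) * (k * k) by ring]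
    linarith
  · have hu : 0 < 1 + F * vR D F t / 3 := by
      have := mul_pos (by linarith : 0 < F) hv
      linarith
    have e9 : 1 - x2r F (vR D F t) * x2r F (vR D F t) = 1 - exp ((2 - 2 * F) * t) *
        (exp ((1 - F) * t) * exp ((1 - F) * t) * (1 + F * vR D F t / 3))⁻¹ := by
      rw [x2r, ← mul_inv, mul_self_sqrt hu.le, e3]
      have := (exp_pos ((1 - F) * t)).ne'
      field_simp
    have hb : exp t ≤ 1 / 144 := by nlinarith [exp_pos (t / 2)]
    have ho : exp ((2 - 2 * F) * (t + 5)) ≤ 1 := exp_le_one_iff.2 (by nlinarith)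
    have hp : exp ((2 - 2 * F) * t) = exp ((2 - 2 * F) * (t + 5)) * exp ((2 * F - 2) * 5) := by
      rw [← exp_add]; ring_nf
    have p1 := X2B.pos0 rfl hp e2.symm rfl rfl rfl e5.symm rfl rfl rfl e6.symm e9 eZ.symm rfl
      (exp_pos _).le hb a1 b1 c b2 (exp_pos _).le ho
    have p2 := X2B.pos1 rfl hp e2.symm rfl rfl rfl e5.symm rfl rfl rfl e6.symm e9 eZ.symm rfl
      (exp_pos _).le hb a1 b1 c b2 (exp_pos _).le ho
    have hr : 0 < x2r F (vR D F t) := inv_pos.2 (sqrt_pos.2 hu)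
    have := mul_pos (exp_pos (-(F * t))) (mul_pos (mul_pos (mul_pos hr hr) hr) p2)
    rw [x2E]
    linarith

end

theorem X2_holds (D F : ℝ) (h1 : -9 / 16 ≤ D) (h2 : D ≤ -1 / 2) (h3 : 3 / 5 ≤ F)
    (h4 : F ≤ 15 / 16) : NoThree D F := by
  have h5 : 153 / 256 ≤ F := by linarith
  refine x2_red (by linarith) fun t ht h0 ↦ ?_
  rcases h0.lt_or_gt with h | h
  · rcases le_total t (-5) with k | k
    exacts [x2_L h1 h2 h5 h4 ht k, x2_N h1 h2 h5 h4 h k]
  · rcases le_total t (5 / 2) with k | k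
    exacts [x2_P h1 h2 h5 h4 h k, x2_R h1 h2 h5 h4 ht k]

end Pool.Agent.Lib.MP_d6150d_an
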