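import Pool.Agent.Lib.MP_d6150d_an.Blue
import Pool.Agent.Lib.MP_d6150d_an.B2
import Pool.Agent.Lib.MP_d6150d_an.CcFin
import Pool.Agent.Lib.MP_d6150d_an.UX
import Pool.Agent.Lib.MP_d6150d_an.X2

/-! Gluing of the sub-pieces. -/

namespace Pool.Agent.Lib.MP_d6150d_an.Fin1

theorem BC_of (B : ∀ D F : ℝ, -1 / 64 ≤ D → D < 0 → 23 / 100 ≤ F → F < 1 / 4 → NoThree D F) :
    St_BC := fun D F h1 h2 h3 h4 ↦ by
  rcases le_or_gt (1 / 4) F with k | k
  · exact C_holds' D F h1 h2 k h4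
  rcases le_total D (-1 / 64) with l | l
  exacts [B12_holds D F h1 l h3 k.le, B D F l h2 h3 k]

theorem U_of (U : ∀ D F : ℝ, 7 / 16 ≤ F → F ≤ 1 / 2 → -2 / 5 ≤ D → D < 0 → NoThree D F) :
    St_U := fun D F h1 h2 h3 h4 i ↦ by
  rcases le_total D (-2 / 5) with l | l
  exacts [U1_holds D F h1 h2 h3 l i, U D F h1 h2 l h4]

theorem X_all : St_X := fun D F h1 h2 h3 h4 i ↦ by
  rcases le_total F (3 / 5) with l | l
  exacts [X1_holds D F h2 h3 l i, X2_holds D F h1 h2 l h4]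

end Pool.Agent.Lib.MP_d6150d_an.Fin1
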