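import Pool.Agent.Lib.MP_d6150d_an.PpG1
import Pool.Agent.Lib.MP_d6150d_an.Blue

/-! The piece with small nonnegative `D`. -/

namespace Pool.Agent.Lib.MP_d6150d_an

theorem P_holds : St_P := fun D F a0 b0 F0 F1 h ↦ by
  have k : 0 < D ∨ F ≠ 1 / 4 := by
    rcases a0.eq_or_lt with e | e
    exacts [Or.inr fun e' ↦ h ⟨e.symm, e'⟩, Or.inl e]
  rcases le_total F (1 / 4) with l | l
  exacts [PZ a0 b0 F0 l (k.imp_right l.lt_of_ne), PO a0 b0 l F1 (k.imp_right l.lt_of_ne')]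

end Pool.Agent.Lib.MP_d6150d_an
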