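import Pool.Agent.Lib.MP_d6150d_an.S1HLD

/-! A generated chart: the computations. -/

namespace Pool.Agent.Lib.MP_d6150d_an.S1HL

theorem k0 : chk C 0x88182882800 [(0, 35184372088832), (0, 52776558133248), (0, 52776558133248)] =
    true := by
  decide +kernel

theorem k1 : chk C 0x8882188188100 [(0, 35184372088832), (0, 52776558133248), (52776558133248,
    105553116266496)] = true := by
  decide +kernel

theorem k2 : chk C 0x88288288200 [(0, 35184372088832), (52776558133248, 105553116266496), (0,
    52776558133248)] = true := by
  decide +kernel

theorem k3 : chk C 0x882888200 [(0, 35184372088832), (52776558133248, 105553116266496),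
    (52776558133248, 105553116266496)] = true := by
  decide +kernel

theorem k4 : chk C 0xd828828828000 [(0, 35184372088832), (105553116266496, 158329674399744), (0,
    52776558133248)] = true := by
  decide +kernel

theorem k5 : chk C 0xd888000 [(0, 35184372088832), (105553116266496, 158329674399744),
    (52776558133248, 105553116266496)] = true := by
  decide +kernel

end Pool.Agent.Lib.MP_d6150d_an.S1HL
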