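import Pool.Agent.Lib.MP_d6150d_an.S1HLD

/-! A generated chart: the computations. -/

namespace Pool.Agent.Lib.MP_d6150d_an.S1HL

theorem k6 : chk C 0xa8880088288082020 [(0, 35184372088832), (158329674399744, 211106232532992), (0,
    105553116266496)] = true := by
  decide +kernel

theorem k7 : chk C 0x8828882118880188122 [(35184372088832, 70368744177664), (0, 52776558133248), (0,
    105553116266496)] = true := by
  decide +kernel

theorem k8 : chk C 0xadd20a88202 [(35184372088832, 70368744177664), (52776558133248,
    105553116266496), (0, 105553116266496)] = true := by
  decide +kernel

theorem k9 : chk C 0xa [(35184372088832, 70368744177664), (105553116266496, 211106232532992), (0,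
    105553116266496)] = true := by
  decide +kernel

theorem k10 : chk C 0x88821888012 [(70368744177664, 105553116266496), (0, 52776558133248), (0,
    52776558133248)] = true := by
  decide +kernel

theorem k11 : chk C 0x8828828882111 [(70368744177664, 105553116266496), (0, 52776558133248),
    (52776558133248, 105553116266496)] = true := by
  decide +kernel

theorem k12 : chk C 0xa [(70368744177664, 105553116266496), (52776558133248, 105553116266496), (0,
    105553116266496)] = true := by
  decide +kernel

end Pool.Agent.Lib.MP_d6150d_an.S1HL
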