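import Pool.Agent.Lib.MP_d6150d_an.S1HLD

/-! A generated chart: the computations. -/

namespace Pool.Agent.Lib.MP_d6150d_an.S1HL

theorem k13 : chk C 0xa [(70368744177664, 105553116266496), (105553116266496, 211106232532992), (0,
    105553116266496)] = true := by
  decide +kernel

theorem k14 : chk C 0xa8811a812 [(105553116266496, 140737488355328), (0, 52776558133248), (0,
    52776558133248)] = true := by
  decide +kernel

theorem k15 : chk C 0xa8828882111 [(105553116266496, 140737488355328), (0, 52776558133248),
    (52776558133248, 105553116266496)] = true := by
  decide +kernel

theorem k16 : chk C 0xa [(105553116266496, 140737488355328), (52776558133248, 105553116266496), (0,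
    105553116266496)] = true := by
  decide +kernel

theorem k17 : chk C 0xa [(105553116266496, 140737488355328), (105553116266496, 211106232532992), (0,
    105553116266496)] = true := by
  decide +kernel

end Pool.Agent.Lib.MP_d6150d_an.S1HL
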