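import Pool.Agent.Lib.MP_d6150d_an.GMac
import Pool.Agent.Lib.MP_d6150d_an.S1HLK0
import Pool.Agent.Lib.MP_d6150d_an.S1HLK1
import Pool.Agent.Lib.MP_d6150d_an.S1HLK2

/-! A generated chart: the inequality. -/

namespace Pool.Agent.Lib.MP_d6150d_an.S1HL

set_option linter.unnecessarySeqFocus false
set_option linter.unusedTactic false
set_option linter.unusedVariables false

theorem gd : Gd C [(0, 140737488355328), (0, 211106232532992), (0, 105553116266496)] := .split 0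
    (.split 0 (.split 1 (.split 1 (.split 2 (chk_sound k0) (chk_sound k1)) (.split 2 (chk_sound k2)
    (chk_sound k3))) (.split 1 (.split 2 (chk_sound k4) (chk_sound k5)) (chk_sound k6))) (.split 1
    (.split 1 (chk_sound k7) (chk_sound k8)) (chk_sound k9))) (.split 0 (.split 1 (.split 1 (.split
    2 (chk_sound k10) (chk_sound k11)) (chk_sound k12)) (chk_sound k13)) (.split 1 (.split 1 (.split
    2 (chk_sound k14) (chk_sound k15)) (chk_sound k16)) (chk_sound k17)))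

set_option maxRecDepth 100000 in
theorem eq {b c x d t s a1 b1 q pq p1 n i D F M ze zi y m mu la P Q w1 P2 P3 ni mi N R0 R1 x1 : ℝ}
    (hd : d = b * c) (ht : t = -x) (hs : s = Real.exp t) (ha1 : a1 = (1 - d) / (2 * b + 2)) (hb1 :
    b1 = (1 - 2 * d) / (2 * b + 1)) (hq : q = 2 * s * (b1 - a1 * s)) (hpq : pq = d + b * q) (hp1 :
    p1 = ph1 t) (hn : n = (1 - d) * s + d) (hi : i = (p1 * n)⁻¹) (hD : D = -d) (hF : F = 1 + b) (hM
    : M = muR D F t) (hze : ze = Real.exp (b * t)) (hzi : zi = Real.exp (-(2 * b * t))) (hy : y = s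
    * ze) (hm : m = M * zi * i / 2) (hmu : mu = 3 / 2 + 7 / 4 * (1 - b) ^ 4) (hla : la = 3 / 4 + 3 *
    b ^ 3) (hP : P = (1 - d) * s ^ 2) (hQ : Q = (1 - 2 * d) * s) (hw1 : w1 = 2 * P - Q) (hP2 : P2 =
    b * Q - (1 + b) * P - (1 - b) * d) (hP3 : P3 = t * p1 * n * ((1 - 3 * b) * P2 + b * Q - 2 * (1 +
    b) * P) - 3 * w1 * P2) (hni : ni = p1 * i) (hmi : mi = m * i) (hN : N = mu * (s * ni) ^ 2 * t *
    m) (hR0 : R0 = y * (pq * i * (1 / 4 - mi * (P2 + mi * P3)) + t ^ 2 * m * ((3 * b - 1) * mi * P2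
    - (1 - b)) + N * b * t ^ 2 * m / 2) + t * ((y - 1) / 4 - (d + 2 * b * (b1 - a1)) * (2 * d - b) /
    12)) (hR1 : R1 = t * (mu - t ^ 2 * M) / 2 - y * N * zi * i * (2 + t * m * (1 - 3 * b + 2 * d *
    ni) - 2 * w1 * mi)) (hx1 : x1 = Real.exp (4 * b * (d - la * s) / (d + la * s))) : outR prog 0
    [b, c, x] = R0 + R1 * (ze ^ 2 * (pq / 2)) ∧ outR prog 1 [b, c, x] = R0 + R1 * (ze ^ 2 * (pq / 2
    - x1 * d * (1 / 2 + b / ((2 * b + 1) * la)))) ∧ outR (prog.take 6) 0 [b, c, x] = 3 / 32 - d :=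
    by
  replace hd : d = (b * c) := hd.trans (by push_cast <;> ring)
  replace ht : t = ((Int.cast (-1) : ℝ) * x) := ht.trans (by push_cast <;> ring)
  replace ha1 : a1 = (((Int.cast (1) : ℝ) - d) * (((Int.cast (2) : ℝ) * b) + (Int.cast (2) : ℝ))⁻¹)
    := ha1.trans (by push_cast <;> ring)
  replace hb1 : b1 = (((Int.cast (1) : ℝ) - ((Int.cast (2) : ℝ) * d)) * (((Int.cast (2) : ℝ) * b) +
    (Int.cast (1) : ℝ))⁻¹) := hb1.trans (by push_cast <;> ring)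
  replace hq : q = (((Int.cast (2) : ℝ) * s) * (b1 - (a1 * s))) := hq.trans (by push_cast <;> ring)
  replace hpq : pq = (d + (b * q)) := hpq.trans (by push_cast <;> ring)
  replace hn : n = ((((Int.cast (1) : ℝ) - d) * s) + d) := hn.trans (by push_cast <;> ring)
  replace hi : i = (p1 * n)⁻¹ := hi.trans (by push_cast <;> ring)
  replace hD : D = ((Int.cast (-1) : ℝ) * d) := hD.trans (by push_cast <;> ring)
  replace hF : F = ((Int.cast (1) : ℝ) + b) := hF.trans (by push_cast <;> ring)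
  replace hM : M = (mMu D F t) := hM.trans (mMu_0 ..)
  replace hze : ze = (Real.exp (b * t)) := hze.trans (congrArg Real.exp (by push_cast <;> ring))
  replace hzi : zi = (Real.exp ((Int.cast (-1) : ℝ) * (((Int.cast (2) : ℝ) * b) * t))) := hzi.trans
    (congrArg Real.exp (by push_cast <;> ring))
  replace hy : y = (s * ze) := hy.trans (by push_cast <;> ring)
  replace hm : m = (((Int.cast (1) : ℝ) / (Nat.cast 2 : ℝ)) * ((M * zi) * i)) := hm.trans (by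
    push_cast <;> ring)
  replace hmu : mu = (((Int.cast (3) : ℝ) / (Nat.cast 2 : ℝ)) + (((Int.cast (7) : ℝ) / (Nat.cast 4 :
    ℝ)) * ((((Int.cast (1) : ℝ) - b) * ((Int.cast (1) : ℝ) - b)) * (((Int.cast (1) : ℝ) - b) *
    ((Int.cast (1) : ℝ) - b))))) := hmu.trans (by push_cast <;> ring)
  replace hla : la = (((Int.cast (3) : ℝ) / (Nat.cast 4 : ℝ)) + ((Int.cast (3) : ℝ) * ((b * b) *
    b))) := hla.trans (by push_cast <;> ring)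
  replace hP : P = (((Int.cast (1) : ℝ) - d) * (s * s)) := hP.trans (by push_cast <;> ring)
  replace hQ : Q = (((Int.cast (1) : ℝ) - ((Int.cast (2) : ℝ) * d)) * s) := hQ.trans (by push_cast
    <;> ring)
  replace hw1 : w1 = (((Int.cast (2) : ℝ) * P) - Q) := hw1.trans (by push_cast <;> ring)
  replace hP2 : P2 = (((b * Q) - (((Int.cast (1) : ℝ) + b) * P)) - (((Int.cast (1) : ℝ) - b) * d))
    := hP2.trans (by push_cast <;> ring)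
  replace hP3 : P3 = ((((t * p1) * n) * (((((Int.cast (1) : ℝ) - ((Int.cast (3) : ℝ) * b)) * P2) +
    (b * Q)) - (((Int.cast (2) : ℝ) * ((Int.cast (1) : ℝ) + b)) * P))) - (((Int.cast (3) : ℝ) * w1)
    * P2)) := hP3.trans (by push_cast <;> ring)
  replace hni : ni = (p1 * i) := hni.trans (by push_cast <;> ring)
  replace hmi : mi = (m * i) := hmi.trans (by push_cast <;> ring)
  replace hN : N = (((mu * ((s * ni) * (s * ni))) * t) * m) := hN.trans (by push_cast <;> ring)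
  replace hR0 : R0 = ((y * ((((pq * i) * (((Int.cast (1) : ℝ) / (Nat.cast 4 : ℝ)) - (mi * (P2 + (mi
    * P3))))) + (((t * t) * m) * ((((((Int.cast (3) : ℝ) * b) - (Int.cast (1) : ℝ)) * mi) * P2) -
    ((Int.cast (1) : ℝ) - b)))) + (((Int.cast (1) : ℝ) / (Nat.cast 2 : ℝ)) * (((N * b) * (t * t)) *
    m)))) + (t * ((((Int.cast (1) : ℝ) / (Nat.cast 4 : ℝ)) * (y - (Int.cast (1) : ℝ))) - (((Int.cast
    (1) : ℝ) / (Nat.cast 12 : ℝ)) * ((d + (((Int.cast (2) : ℝ) * b) * (b1 - a1))) * (((Int.cast (2)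
    : ℝ) * d) - b)))))) := hR0.trans (by push_cast <;> ring)
  replace hR1 : R1 = ((((Int.cast (1) : ℝ) / (Nat.cast 2 : ℝ)) * (t * (mu - ((t * t) * M)))) - ((((y
    * N) * zi) * i) * (((Int.cast (2) : ℝ) + ((t * m) * (((Int.cast (1) : ℝ) - ((Int.cast (3) : ℝ) *
    b)) + (((Int.cast (2) : ℝ) * d) * ni)))) - (((Int.cast (2) : ℝ) * w1) * mi)))) := hR1.trans (by
    push_cast <;> ring)
  replace hx1 : x1 = (Real.exp ((((Int.cast (4) : ℝ) * b) * (d - (la * s))) * (d + (la * s))⁻¹)) :=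
    hx1.trans (congrArg Real.exp (by push_cast <;> ring))
  have e0 : (R0 + (R1 * ((ze * ze) * (((Int.cast (1) : ℝ) / (Nat.cast 2 : ℝ)) * pq)))) = R0 + R1 *
    (ze ^ 2 * (pq / 2)) := by push_cast <;> ring
  have e1 : (R0 + (R1 * ((ze * ze) * ((((Int.cast (1) : ℝ) / (Nat.cast 2 : ℝ)) * pq) - ((x1 * d) *
    (((Int.cast (1) : ℝ) / (Nat.cast 2 : ℝ)) + (b * ((((Int.cast (2) : ℝ) * b) + (Int.cast (1) : ℝ))
    * la)⁻¹))))))) = R0 + R1 * (ze ^ 2 * (pq / 2 - x1 * d * (1 / 2 + b / ((2 * b + 1) * la)))) := by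
    push_cast <;> ring
  have e2 : (((Int.cast (3) : ℝ) / (Nat.cast 32 : ℝ)) - d) = 3 / 32 - d := by push_cast <;> ring
  subst hd ht hs ha1 hb1 hq hpq hp1 hn hi hD hF hM hze hzi hy hm hmu hla hP hQ hw1 hP2 hP3 hni hmi
    hN hR0 hR1 hx1
  exact ⟨Eq.trans rfl e0, Eq.trans rfl e1, Eq.trans rfl e2⟩

theorem l0 : ((0 : ℤ) : ℝ) / 2 ^ 47 = 0 := by norm_num
theorem u0 : (1 : ℝ) = ((140737488355328 : ℤ) : ℝ) / 2 ^ 47 := by norm_num
theorem l1 : ((0 : ℤ) : ℝ) / 2 ^ 47 = 0 := by norm_num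
theorem u1 : (3 / 2 : ℝ) = ((211106232532992 : ℤ) : ℝ) / 2 ^ 47 := by norm_num
theorem l2 : ((0 : ℤ) : ℝ) / 2 ^ 47 = 0 := by norm_num
theorem u2 : (3 / 4 : ℝ) = ((105553116266496 : ℤ) : ℝ) / 2 ^ 47 := by norm_num

theorem out0 (V0 : ∀ c x : ℝ, 0 ≤ c → c ≤ 3 / 2 → 0 ≤ x → x ≤ 3 / 4 → outR prog 0 [0, c, x] = 0) (V2
    : ∀ b c : ℝ, 0 ≤ b → b ≤ 1 → 0 ≤ c → c ≤ 3 / 2 → (fun x ↦ outR prog 0 [b, c, x]) =O[nhdsWithin 0
    (Set.Ioi 0)] fun x : ℝ ↦ x ^ 2) {b c x : ℝ} (a0 : 0 ≤ b) (b0 : b ≤ 1) (a1 : 0 ≤ c) (b1 : c ≤ 3 /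
    2) (a2 : 0 ≤ x) (b2 : x ≤ 3 / 4) (p0 : 0 < b) (p2 : 0 < x) (c0 : 0 ≤ outR (prog.take 6) 0 [b, c,
    x]) : 0 < outR prog 0 [b, c, x] :=
  gd 0 (by decide) [b, c, x] (.cons ⟨l0.le.trans a0, b0.trans u0.le⟩ (.cons ⟨l1.le.trans a1,
    b1.trans u1.le⟩ (.cons ⟨l2.le.trans a2, b2.trans u2.le⟩ (.nil)))) ⟨fun _ ↦ p0, nofun, fun _ ↦
    p2, trivial⟩ (List.forall_mem_cons.2 ⟨c0, List.forall_mem_nil _⟩) (⟨fun _ y1 a1 b1 y2 a2 b2 ↦ V0
    y1 y2 (l1.ge.trans a1) (b1.trans u1.ge) (l2.ge.trans a2) (b2.trans u2.ge), fun y0 a0 b0 ↦ ⟨fun _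
    ↦ allB_iff.2 fun _ _ ↦ trivial, fun y1 a1 b1 ↦ ⟨fun _ ↦ V2 y0 y1 (l0.ge.trans a0) (b0.trans
    u0.ge) (l1.ge.trans a1) (b1.trans u1.ge), fun _ _ _ ↦ trivial⟩⟩⟩) (nofun)

theorem out1 (V0 : ∀ c x : ℝ, 0 ≤ c → c ≤ 3 / 2 → 0 ≤ x → x ≤ 3 / 4 → outR prog 1 [0, c, x] = 0) (V2
    : ∀ b c : ℝ, 0 ≤ b → b ≤ 1 → 0 ≤ c → c ≤ 3 / 2 → (fun x ↦ outR prog 1 [b, c, x]) =O[nhdsWithin 0
    (Set.Ioi 0)] fun x : ℝ ↦ x ^ 2) {b c x : ℝ} (a0 : 0 ≤ b) (b0 : b ≤ 1) (a1 : 0 ≤ c) (b1 : c ≤ 3 /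
    2) (a2 : 0 ≤ x) (b2 : x ≤ 3 / 4) (p0 : 0 < b) (p2 : 0 < x) (c0 : 0 ≤ outR (prog.take 6) 0 [b, c,
    x]) : 0 < outR prog 1 [b, c, x] :=
  gd 1 (by decide) [b, c, x] (.cons ⟨l0.le.trans a0, b0.trans u0.le⟩ (.cons ⟨l1.le.trans a1,
    b1.trans u1.le⟩ (.cons ⟨l2.le.trans a2, b2.trans u2.le⟩ (.nil)))) ⟨fun _ ↦ p0, nofun, fun _ ↦
    p2, trivial⟩ (List.forall_mem_cons.2 ⟨c0, List.forall_mem_nil _⟩) (⟨fun _ y1 a1 b1 y2 a2 b2 ↦ V0
    y1 y2 (l1.ge.trans a1) (b1.trans u1.ge) (l2.ge.trans a2) (b2.trans u2.ge), fun y0 a0 b0 ↦ ⟨fun _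
    ↦ allB_iff.2 fun _ _ ↦ trivial, fun y1 a1 b1 ↦ ⟨fun _ ↦ V2 y0 y1 (l0.ge.trans a0) (b0.trans
    u0.ge) (l1.ge.trans a1) (b1.trans u1.ge), fun _ _ _ ↦ trivial⟩⟩⟩) (nofun)

end Pool.Agent.Lib.MP_d6150d_an.S1HL
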