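import Pool.Agent.Lib.MP_d6150d_an.S1HMD

/-! A generated chart: the computations. -/

namespace Pool.Agent.Lib.MP_d6150d_an.S1HM

theorem k0 : chk C 0x888821188820881881210 [(0, 17592186044416), (0, 52776558133248),
    (105553116266496, 202310139510784)] = true := by
  decide +kernel

theorem k1 : chk C 0x88288288211 [(17592186044416, 35184372088832), (0, 52776558133248),
    (105553116266496, 202310139510784)] = true := by
  decide +kernel

theorem k2 : chk C 0x882888211888118808828801100 [(0, 35184372088832), (0, 26388279066624),
    (202310139510784, 299067162755072)] = true := by
  decide +kernel

theorem k3 : chk C 0x881880288882000 [(0, 35184372088832), (26388279066624, 52776558133248),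
    (202310139510784, 299067162755072)] = true := by
  decide +kernel

theorem k4 : chk C 0x88288b000b88b118b0b1021 [(0, 17592186044416), (0, 52776558133248),
    (299067162755072, 395824185999360)] = true := by
  decide +kernel

end Pool.Agent.Lib.MP_d6150d_an.S1HM
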