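import Pool.Agent.Lib.MP_d6150d_an.S1HMD

/-! A generated chart: the computations. -/

namespace Pool.Agent.Lib.MP_d6150d_an.S1HM

theorem k5 : chk C 0x88288218b18812b828b1111 [(17592186044416, 35184372088832), (0, 52776558133248),
    (299067162755072, 395824185999360)] = true := by
  decide +kernel

theorem k6 : chk C 0x880b821b1b0 [(0, 35184372088832), (0, 52776558133248), (395824185999360,
    492581209243648)] = true := by
  decide +kernel

theorem k7 : chk C 0x881888000882881882002 [(0, 17592186044416), (52776558133248, 105553116266496),
    (105553116266496, 299067162755072)] = true := by
  decide +kernel

theorem k8 : chk C 0x882882188188122 [(17592186044416, 35184372088832), (52776558133248,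
    105553116266496), (105553116266496, 299067162755072)] = true := by
  decide +kernel

theorem k9 : chk C 0x882b8218812b8812b8b88120200 [(0, 17592186044416), (52776558133248,
    105553116266496), (299067162755072, 492581209243648)] = true := by
  decide +kernel

theorem k10 : chk C 0xa80880188288012 [(17592186044416, 35184372088832), (52776558133248,
    105553116266496), (299067162755072, 492581209243648)] = true := by
  decide +kernel

end Pool.Agent.Lib.MP_d6150d_an.S1HM
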