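import Pool.Agent.Lib.MP_d6150d_an.S1HMD

/-! A generated chart: the computations. -/

namespace Pool.Agent.Lib.MP_d6150d_an.S1HM

theorem k11 : chk C 0x8818822888128880088082200 [(0, 17592186044416), (105553116266496,
    158329674399744), (105553116266496, 299067162755072)] = true := by
  decide +kernel

theorem k12 : chk C 0xa8828d221 [(17592186044416, 35184372088832), (105553116266496,
    158329674399744), (105553116266496, 299067162755072)] = true := by
  decide +kernel

theorem k13 : chk C 0x88088128b182b82b8b8202000 [(0, 17592186044416), (105553116266496,
    158329674399744), (299067162755072, 492581209243648)] = true := by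
  decide +kernel

theorem k14 : chk C 0xadd2d21 [(17592186044416, 35184372088832), (105553116266496, 158329674399744),
    (299067162755072, 492581209243648)] = true := by
  decide +kernel

theorem k15 : chk C 0xad8822888800088288288200200 [(0, 35184372088832), (158329674399744,
    211106232532992), (105553116266496, 299067162755072)] = true := by
  decide +kernel

end Pool.Agent.Lib.MP_d6150d_an.S1HM
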