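import Pool.Agent.Lib.MP_d6150d_an.S1HMD

/-! A generated chart: the computations. -/

namespace Pool.Agent.Lib.MP_d6150d_an.S1HM

theorem k16 : chk C 0xa8818812882b82b8b82020000 [(0, 35184372088832), (158329674399744,
    211106232532992), (299067162755072, 492581209243648)] = true := by
  decide +kernel

theorem k17 : chk C 0x88288208808808211 [(35184372088832, 70368744177664), (0, 26388279066624),
    (105553116266496, 202310139510784)] = true := by
  decide +kernel

theorem k18 : chk C 0x882882188281088280880880111 [(35184372088832, 70368744177664), (0,
    26388279066624), (202310139510784, 299067162755072)] = true := by
  decide +kernel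

theorem k19 : chk C 0xa8182d80820 [(35184372088832, 70368744177664), (26388279066624,
    52776558133248), (105553116266496, 202310139510784)] = true := by
  decide +kernel

theorem k20 : chk C 0xa8820881d8028808201 [(35184372088832, 70368744177664), (26388279066624,
    52776558133248), (202310139510784, 299067162755072)] = true := by
  decide +kernel

end Pool.Agent.Lib.MP_d6150d_an.S1HM
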