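import Pool.Agent.Lib.MP_d6150d_an.S1HMD

/-! A generated chart: the computations. -/

namespace Pool.Agent.Lib.MP_d6150d_an.S1HM

theorem k21 : chk C 0xb8b1b0881880022be80b8b12121 [(35184372088832, 70368744177664), (0,
    13194139533312), (299067162755072, 492581209243648)] = true := by
  decide +kernel

theorem k22 : chk C 0x882882088188128b08201 [(35184372088832, 70368744177664), (13194139533312,
    26388279066624), (299067162755072, 395824185999360)] = true := by
  decide +kernel

theorem k23 : chk C 0x880b8b02b01 [(35184372088832, 70368744177664), (13194139533312,
    26388279066624), (395824185999360, 492581209243648)] = true := by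
  decide +kernel

theorem k24 : chk C 0xa8088188201a80881882012 [(35184372088832, 70368744177664), (26388279066624,
    52776558133248), (299067162755072, 492581209243648)] = true := by
  decide +kernel

theorem k25 : chk C 0xaaa882101aaad1d822102 [(35184372088832, 70368744177664), (52776558133248,
    105553116266496), (105553116266496, 492581209243648)] = true := by
  decide +kernel

theorem k26 : chk C 0xa [(35184372088832, 70368744177664), (105553116266496, 211106232532992),
    (105553116266496, 492581209243648)] = true := by
  decide +kernel

end Pool.Agent.Lib.MP_d6150d_an.S1HM
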