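import Pool.Agent.Lib.MP_d6150d_an.S1HMD

/-! A generated chart: the computations. -/

namespace Pool.Agent.Lib.MP_d6150d_an.S1HM

theorem k27 : chk C 0x8808188028881118808818212 [(70368744177664, 105553116266496), (0,
    13194139533312), (105553116266496, 299067162755072)] = true := by
  decide +kernel

theorem k28 : chk C 0xd88008802881880088021880822 [(70368744177664, 105553116266496),
    (13194139533312, 26388279066624), (105553116266496, 299067162755072)] = true := by
  decide +kernel

theorem k29 : chk C 0xaaaa81882200a882021 [(70368744177664, 105553116266496), (26388279066624,
    52776558133248), (105553116266496, 299067162755072)] = true := by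
  decide +kernel

theorem k30 : chk C 0xbb88022b8b8802121 [(70368744177664, 105553116266496), (0, 6597069766656),
    (299067162755072, 492581209243648)] = true := by
  decide +kernel

theorem k31 : chk C 0x882880820880b088021 [(70368744177664, 105553116266496), (6597069766656,
    13194139533312), (299067162755072, 395824185999360)] = true := by
  decide +kernel

end Pool.Agent.Lib.MP_d6150d_an.S1HM
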