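import Pool.Agent.Lib.MP_d6150d_an.S1HMD

/-! A generated chart: the computations. -/

namespace Pool.Agent.Lib.MP_d6150d_an.S1HM

theorem k32 : chk C 0xbb8b1b02b02 [(70368744177664, 105553116266496), (6597069766656,
    13194139533312), (395824185999360, 492581209243648)] = true := by
  decide +kernel

theorem k33 : chk C 0xa8188108828821882882101 [(70368744177664, 105553116266496), (13194139533312,
    26388279066624), (299067162755072, 395824185999360)] = true := by
  decide +kernel

theorem k34 : chk C 0x88088188101 [(70368744177664, 105553116266496), (13194139533312,
    26388279066624), (395824185999360, 492581209243648)] = true := by
  decide +kernel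

theorem k35 : chk C 0xaaa8828822001 [(70368744177664, 105553116266496), (26388279066624,
    52776558133248), (299067162755072, 492581209243648)] = true := by
  decide +kernel

theorem k36 : chk C 0xa [(70368744177664, 105553116266496), (52776558133248, 105553116266496),
    (105553116266496, 492581209243648)] = true := by
  decide +kernel

theorem k37 : chk C 0xa [(70368744177664, 105553116266496), (105553116266496, 211106232532992),
    (105553116266496, 492581209243648)] = true := by
  decide +kernel

theorem k38 : chk C 0x880818881118828818212 [(105553116266496, 140737488355328), (0,
    13194139533312), (105553116266496, 299067162755072)] = true := by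
  decide +kernel

theorem k39 : chk C 0xa881d21dd0822 [(105553116266496, 140737488355328), (13194139533312,
    26388279066624), (105553116266496, 299067162755072)] = true := by
  decide +kernel

theorem k40 : chk C 0xa [(105553116266496, 140737488355328), (26388279066624, 52776558133248),
    (105553116266496, 299067162755072)] = true := by
  decide +kernel

theorem k41 : chk C 0xb8812b8bb822121 [(105553116266496, 140737488355328), (0, 6597069766656),
    (299067162755072, 492581209243648)] = true := by
  decide +kernel

end Pool.Agent.Lib.MP_d6150d_an.S1HM
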