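import Pool.Agent.Lib.MP_d6150d_an.S1HMD

/-! A generated chart: the computations. -/

namespace Pool.Agent.Lib.MP_d6150d_an.S1HM

theorem k42 : chk C 0x8808288188021 [(105553116266496, 140737488355328), (6597069766656,
    13194139533312), (299067162755072, 395824185999360)] = true := by
  decide +kernel

theorem k43 : chk C 0x8b08802bb8b02b021 [(105553116266496, 140737488355328), (6597069766656,
    13194139533312), (395824185999360, 492581209243648)] = true := by
  decide +kernel

theorem k44 : chk C 0xaa80880188288082121 [(105553116266496, 140737488355328), (13194139533312,
    26388279066624), (299067162755072, 492581209243648)] = true := by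
  decide +kernel

theorem k45 : chk C 0xa [(105553116266496, 140737488355328), (26388279066624, 52776558133248),
    (299067162755072, 492581209243648)] = true := by
  decide +kernel

theorem k46 : chk C 0xa [(105553116266496, 140737488355328), (52776558133248, 105553116266496),
    (105553116266496, 492581209243648)] = true := by
  decide +kernel

theorem k47 : chk C 0xa [(105553116266496, 140737488355328), (105553116266496, 211106232532992),
    (105553116266496, 492581209243648)] = true := by
  decide +kernel

end Pool.Agent.Lib.MP_d6150d_an.S1HM
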