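import Pool.Agent.Lib.MP_d6150d_an.GMac
import Pool.Agent.Lib.MP_d6150d_an.S1HMK0
import Pool.Agent.Lib.MP_d6150d_an.S1HMK1
import Pool.Agent.Lib.MP_d6150d_an.S1HMK2
import Pool.Agent.Lib.MP_d6150d_an.S1HMK3
import Pool.Agent.Lib.MP_d6150d_an.S1HMK4
import Pool.Agent.Lib.MP_d6150d_an.S1HMK5
import Pool.Agent.Lib.MP_d6150d_an.S1HMK6
import Pool.Agent.Lib.MP_d6150d_an.S1HMK7

/-! A generated chart: the inequality. -/

namespace Pool.Agent.Lib.MP_d6150d_an.S1HM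

set_option linter.unnecessarySeqFocus false
set_option linter.unusedTactic false
set_option linter.unusedVariables false

theorem gd : Gd C [(0, 140737488355328), (0, 211106232532992), (105553116266496, 492581209243648)]
    := .split 0 (.split 0 (.split 1 (.split 1 (.split 2 (.split 2 (.split 0 (chk_sound k0)
    (chk_sound k1)) (.split 1 (chk_sound k2) (chk_sound k3))) (.split 2 (.split 0 (chk_sound k4)
    (chk_sound k5)) (chk_sound k6))) (.split 2 (.split 0 (chk_sound k7) (chk_sound k8)) (.split 0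
    (chk_sound k9) (chk_sound k10)))) (.split 1 (.split 2 (.split 0 (chk_sound k11) (chk_sound k12))
    (.split 0 (chk_sound k13) (chk_sound k14))) (.split 2 (chk_sound k15) (chk_sound k16)))) (.split
    1 (.split 1 (.split 2 (.split 1 (.split 2 (chk_sound k17) (chk_sound k18)) (.split 2 (chk_sound
    k19) (chk_sound k20))) (.split 1 (.split 1 (chk_sound k21) (.split 2 (chk_sound k22) (chk_sound
    k23))) (chk_sound k24))) (chk_sound k25)) (chk_sound k26))) (.split 0 (.split 1 (.split 1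
    (.split 2 (.split 1 (.split 1 (chk_sound k27) (chk_sound k28)) (chk_sound k29)) (.split 1
    (.split 1 (.split 1 (chk_sound k30) (.split 2 (chk_sound k31) (chk_sound k32))) (.split 2
    (chk_sound k33) (chk_sound k34))) (chk_sound k35))) (chk_sound k36)) (chk_sound k37)) (.split 1
    (.split 1 (.split 2 (.split 1 (.split 1 (chk_sound k38) (chk_sound k39)) (chk_sound k40))
    (.split 1 (.split 1 (.split 1 (chk_sound k41) (.split 2 (chk_sound k42) (chk_sound k43)))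
    (chk_sound k44)) (chk_sound k45))) (chk_sound k46)) (chk_sound k47)))

set_option maxRecDepth 100000 in
theorem eq {b c x d s n ni e sg r a1 b1 mu la pq b2 u Pi La P2 Lr A1 A0 B0 e0 x1 X1 bt ze p1 z v nz
    T H R0 R1 : ℝ} (hd : d = b * c) (hs : s = Real.exp (-x)) (hn : n = (1 - d) * s + d) (hni : ni =
    n⁻¹) (he : e = d * ni) (hsg : sg = s * ni) (hr : r = 1 - s) (ha1 : a1 = (1 - d) / (2 * b + 2))
    (hb1 : b1 = (1 - 2 * d) / (2 * b + 1)) (hmu : mu = 3 / 2 + 7 / 4 * (1 - b) ^ 4) (hla : la = 3 /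
    4 + 3 * b ^ 3) (hpq : pq = e + 2 * b * sg * (b1 - a1 * s)) (hb2 : b2 = b1 - 2 * a1 * s) (hu : u
    = (1 + b) * (1 - d) * s) (hPi : Pi = b * (1 - 2 * d) - u) (hLa : La = 1 - 2 * d - 2 * (1 - d) *
    s) (hP2 : P2 = sg * Pi - (1 - b) * e) (hLr : Lr = (1 - 3 * b + 2 * e) * r - 2 * sg * La) (hA1 :
    A1 = mu * sg * r) (hA0 : A0 = pq * ((Pi - u) * r - 3 * La * P2) - (1 - 3 * b) * P2 * b2 * r - A1
    * b * r ^ 2 / 2) (hB0 : B0 = b2 * P2 - (Pi + (1 - b) * (1 - d - n)) * r) (he0 : e0 = (d + 2 * b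
    * (b1 - a1)) * (2 * d - b) / 12) (hx1 : x1 = Real.exp (4 * b * (e - la * sg) / (e + la * sg)))
    (hX1 : X1 = pq / 2 - x1 * e * (1 / 2 + b / ((2 * b + 1) * la))) (hbt : bt = -(b * x)) (hze : ze
    = Real.exp bt) (hp1 : p1 = ph1 bt) (hz : z = ze ^ 2) (hv : v = a1 * (s ^ 2 * z - 1) - b1 * (s *
    z - 1) + d * x * p1 * (1 + ze) / 2) (hnz : nz = n * z) (hT : T = nz * r ^ 2) (hH : H = T * ze *
    r ^ 3) (hR0 : R0 = sg ^ 2 * (v * (v * A0 + T * B0) - T ^ 2 * b2 / 4) + H * (1 / 4 + e0)) (hR1 :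
    R1 = sg ^ 2 * A1 * v * (2 * T - v * Lr) - H * nz * (mu / 2 - v)) : outR prog 0 [b, c, x] = 64 *
    (R0 + R1 * (pq / 2)) ∧ outR prog 1 [b, c, x] = 64 * (R0 + R1 * X1) ∧ outR (prog.take 6) 0 [b, c,
    x] = 3 / 32 - d ∧ outR (prog.take 16) 0 [b, c, x] = n - 1 / 8 := by
  replace hd : d = (b * c) := hd.trans (by push_cast <;> ring)
  replace hs : s = (Real.exp ((Int.cast (-1) : ℝ) * x)) := hs.trans (congrArg Real.exp (by push_cast
    <;> ring))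
  replace hn : n = ((((Int.cast (1) : ℝ) - d) * s) + d) := hn.trans (by push_cast <;> ring)
  replace hni : ni = n⁻¹ := hni.trans (by push_cast <;> ring)
  replace he : e = (d * ni) := he.trans (by push_cast <;> ring)
  replace hsg : sg = (s * ni) := hsg.trans (by push_cast <;> ring)
  replace hr : r = ((Int.cast (1) : ℝ) - s) := hr.trans (by push_cast <;> ring)
  replace ha1 : a1 = (((Int.cast (1) : ℝ) - d) * (((Int.cast (2) : ℝ) * b) + (Int.cast (2) : ℝ))⁻¹)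
    := ha1.trans (by push_cast <;> ring)
  replace hb1 : b1 = (((Int.cast (1) : ℝ) - ((Int.cast (2) : ℝ) * d)) * (((Int.cast (2) : ℝ) * b) +
    (Int.cast (1) : ℝ))⁻¹) := hb1.trans (by push_cast <;> ring)
  replace hmu : mu = (((Int.cast (3) : ℝ) / (Nat.cast 2 : ℝ)) + (((Int.cast (7) : ℝ) / (Nat.cast 4 :
    ℝ)) * ((((Int.cast (1) : ℝ) - b) * ((Int.cast (1) : ℝ) - b)) * (((Int.cast (1) : ℝ) - b) *
    ((Int.cast (1) : ℝ) - b))))) := hmu.trans (by push_cast <;> ring)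
  replace hla : la = (((Int.cast (3) : ℝ) / (Nat.cast 4 : ℝ)) + ((Int.cast (3) : ℝ) * ((b * b) *
    b))) := hla.trans (by push_cast <;> ring)
  replace hpq : pq = (e + ((((Int.cast (2) : ℝ) * b) * sg) * (b1 - (a1 * s)))) := hpq.trans (by
    push_cast <;> ring)
  replace hb2 : b2 = (b1 - (((Int.cast (2) : ℝ) * a1) * s)) := hb2.trans (by push_cast <;> ring)
  replace hu : u = ((((Int.cast (1) : ℝ) + b) * ((Int.cast (1) : ℝ) - d)) * s) := hu.trans (by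
    push_cast <;> ring)
  replace hPi : Pi = ((b * ((Int.cast (1) : ℝ) - ((Int.cast (2) : ℝ) * d))) - u) := hPi.trans (by
    push_cast <;> ring)
  replace hLa : La = (((Int.cast (1) : ℝ) - ((Int.cast (2) : ℝ) * d)) - (((Int.cast (2) : ℝ) *
    ((Int.cast (1) : ℝ) - d)) * s)) := hLa.trans (by push_cast <;> ring)
  replace hP2 : P2 = ((sg * Pi) - (((Int.cast (1) : ℝ) - b) * e)) := hP2.trans (by push_cast <;>
    ring)
  replace hLr : Lr = (((((Int.cast (1) : ℝ) - ((Int.cast (3) : ℝ) * b)) + ((Int.cast (2) : ℝ) * e))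
    * r) - (((Int.cast (2) : ℝ) * sg) * La)) := hLr.trans (by push_cast <;> ring)
  replace hA1 : A1 = ((mu * sg) * r) := hA1.trans (by push_cast <;> ring)
  replace hA0 : A0 = (((pq * (((Pi - u) * r) - (((Int.cast (3) : ℝ) * La) * P2))) - (((((Int.cast
    (1) : ℝ) - ((Int.cast (3) : ℝ) * b)) * P2) * b2) * r)) - (((Int.cast (1) : ℝ) / (Nat.cast 2 :
    ℝ)) * ((A1 * b) * (r * r)))) := hA0.trans (by push_cast <;> ring)
  replace hB0 : B0 = ((b2 * P2) - ((Pi + (((Int.cast (1) : ℝ) - b) * (((Int.cast (1) : ℝ) - d) -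
    n))) * r)) := hB0.trans (by push_cast <;> ring)
  replace he0 : e0 = (((Int.cast (1) : ℝ) / (Nat.cast 12 : ℝ)) * ((d + (((Int.cast (2) : ℝ) * b) *
    (b1 - a1))) * (((Int.cast (2) : ℝ) * d) - b))) := he0.trans (by push_cast <;> ring)
  replace hx1 : x1 = (Real.exp ((((Int.cast (4) : ℝ) * b) * (e - (la * sg))) * (e + (la * sg))⁻¹))
    := hx1.trans (congrArg Real.exp (by push_cast <;> ring))
  replace hX1 : X1 = ((((Int.cast (1) : ℝ) / (Nat.cast 2 : ℝ)) * pq) - ((x1 * e) * (((Int.cast (1) :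
    ℝ) / (Nat.cast 2 : ℝ)) + (b * ((((Int.cast (2) : ℝ) * b) + (Int.cast (1) : ℝ)) * la)⁻¹)))) :=
    hX1.trans (by push_cast <;> ring)
  replace hbt : bt = ((Int.cast (-1) : ℝ) * (b * x)) := hbt.trans (by push_cast <;> ring)
  replace hz : z = (ze * ze) := hz.trans (by push_cast <;> ring)
  replace hv : v = (((a1 * (((s * s) * z) - (Int.cast (1) : ℝ))) - (b1 * ((s * z) - (Int.cast (1) :
    ℝ)))) + (((Int.cast (1) : ℝ) / (Nat.cast 2 : ℝ)) * (((d * x) * p1) * ((Int.cast (1) : ℝ) +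
    ze)))) := hv.trans (by push_cast <;> ring)
  replace hnz : nz = (n * z) := hnz.trans (by push_cast <;> ring)
  replace hT : T = (nz * (r * r)) := hT.trans (by push_cast <;> ring)
  replace hH : H = ((T * ze) * ((r * r) * r)) := hH.trans (by push_cast <;> ring)
  replace hR0 : R0 = (((sg * sg) * ((v * ((v * A0) + (T * B0))) - (((Int.cast (1) : ℝ) / (Nat.cast 4
    : ℝ)) * ((T * T) * b2)))) + (H * (((Int.cast (1) : ℝ) / (Nat.cast 4 : ℝ)) + e0))) := hR0.trans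
    (by push_cast <;> ring)
  replace hR1 : R1 = (((((sg * sg) * A1) * v) * (((Int.cast (2) : ℝ) * T) - (v * Lr))) - ((H * nz) *
    ((((Int.cast (1) : ℝ) / (Nat.cast 2 : ℝ)) * mu) - v))) := hR1.trans (by push_cast <;> ring)
  have e0 : ((Int.cast (64) : ℝ) * (R0 + (R1 * (((Int.cast (1) : ℝ) / (Nat.cast 2 : ℝ)) * pq)))) =
    64 * (R0 + R1 * (pq / 2)) := by push_cast <;> ring
  have e1 : ((Int.cast (64) : ℝ) * (R0 + (R1 * X1))) = 64 * (R0 + R1 * X1) := by push_cast <;> ring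
  have e2 : (((Int.cast (3) : ℝ) / (Nat.cast 32 : ℝ)) - d) = 3 / 32 - d := by push_cast <;> ring
  have e3 : (n - ((Int.cast (1) : ℝ) / (Nat.cast 8 : ℝ))) = n - 1 / 8 := by push_cast <;> ring
  subst hd hs hn hni he hsg hr ha1 hb1 hmu hla hpq hb2 hu hPi hLa hP2 hLr hA1 hA0 hB0 he0 hx1 hX1
    hbt hze hp1 hz hv hnz hT hH hR0 hR1
  exact ⟨Eq.trans rfl e0, Eq.trans rfl e1, Eq.trans rfl e2, Eq.trans rfl e3⟩

theorem l0 : ((0 : ℤ) : ℝ) / 2 ^ 47 = 0 := by norm_num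
theorem u0 : (1 : ℝ) = ((140737488355328 : ℤ) : ℝ) / 2 ^ 47 := by norm_num
theorem l1 : ((0 : ℤ) : ℝ) / 2 ^ 47 = 0 := by norm_num
theorem u1 : (3 / 2 : ℝ) = ((211106232532992 : ℤ) : ℝ) / 2 ^ 47 := by norm_num
theorem l2 : ((105553116266496 : ℤ) : ℝ) / 2 ^ 47 = 3 / 4 := by norm_num
theorem u2 : (7 / 2 : ℝ) = ((492581209243648 : ℤ) : ℝ) / 2 ^ 47 := by norm_num

theorem out0 (V0 : ∀ c x : ℝ, 0 ≤ c → c ≤ 3 / 2 → 3 / 4 ≤ x → x ≤ 7 / 2 → outR prog 0 [0, c, x] = 0)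
    {b c x : ℝ} (a0 : 0 ≤ b) (b0 : b ≤ 1) (a1 : 0 ≤ c) (b1 : c ≤ 3 / 2) (a2 : 3 / 4 ≤ x) (b2 : x ≤ 7
    / 2) (p0 : 0 < b) (c0 : 0 ≤ outR (prog.take 6) 0 [b, c, x]) (c1 : 0 ≤ outR (prog.take 16) 0 [b,
    c, x]) : 0 < outR prog 0 [b, c, x] :=
  gd 0 (by decide) [b, c, x] (.cons ⟨l0.le.trans a0, b0.trans u0.le⟩ (.cons ⟨l1.le.trans a1,
    b1.trans u1.le⟩ (.cons ⟨l2.le.trans a2, b2.trans u2.le⟩ (.nil)))) ⟨fun _ ↦ p0, nofun, nofun,
    trivial⟩ (List.forall_mem_cons.2 ⟨c0, List.forall_mem_cons.2 ⟨c1, List.forall_mem_nil _⟩⟩) (⟨fun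
    _ y1 a1 b1 y2 a2 b2 ↦ V0 y1 y2 (l1.ge.trans a1) (b1.trans u1.ge) (l2.ge.trans a2) (b2.trans
    u2.ge), fun _ _ _ ↦ Van.of0 rfl⟩) (nofun)

theorem out1 (V0 : ∀ c x : ℝ, 0 ≤ c → c ≤ 3 / 2 → 3 / 4 ≤ x → x ≤ 7 / 2 → outR prog 1 [0, c, x] = 0)
    {b c x : ℝ} (a0 : 0 ≤ b) (b0 : b ≤ 1) (a1 : 0 ≤ c) (b1 : c ≤ 3 / 2) (a2 : 3 / 4 ≤ x) (b2 : x ≤ 7
    / 2) (p0 : 0 < b) (c0 : 0 ≤ outR (prog.take 6) 0 [b, c, x]) (c1 : 0 ≤ outR (prog.take 16) 0 [b,
    c, x]) : 0 < outR prog 1 [b, c, x] :=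
  gd 1 (by decide) [b, c, x] (.cons ⟨l0.le.trans a0, b0.trans u0.le⟩ (.cons ⟨l1.le.trans a1,
    b1.trans u1.le⟩ (.cons ⟨l2.le.trans a2, b2.trans u2.le⟩ (.nil)))) ⟨fun _ ↦ p0, nofun, nofun,
    trivial⟩ (List.forall_mem_cons.2 ⟨c0, List.forall_mem_cons.2 ⟨c1, List.forall_mem_nil _⟩⟩) (⟨fun
    _ y1 a1 b1 y2 a2 b2 ↦ V0 y1 y2 (l1.ge.trans a1) (b1.trans u1.ge) (l2.ge.trans a2) (b2.trans
    u2.ge), fun _ _ _ ↦ Van.of0 rfl⟩) (nofun)

end Pool.Agent.Lib.MP_d6150d_an.S1HM
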