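import Pool.Agent.Lib.MP_d6150d_an.S1HRD

/-! A generated chart: the computations. -/

namespace Pool.Agent.Lib.MP_d6150d_an.S1HR

theorem k5 : chk C 0x888802088288002 [(0, 17592186044416), (105553116266496, 158329674399744),
    (70368744177664, 140737488355328)] = true := by
  decide +kernel

theorem k6 : chk C 0x8a88212 [(17592186044416, 35184372088832), (105553116266496, 158329674399744),
    (70368744177664, 140737488355328)] = true := by
  decide +kernel

theorem k7 : chk C 0xa888208880020 [(0, 35184372088832), (158329674399744, 211106232532992), (0,
    70368744177664)] = true := by
  decide +kernel

theorem k8 : chk C 0xa882888200882880020 [(0, 35184372088832), (158329674399744, 211106232532992),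
    (70368744177664, 140737488355328)] = true := by
  decide +kernel

theorem k9 : chk C 0xbb8b180228818880122 [(35184372088832, 70368744177664), (0, 52776558133248), (0,
    140737488355328)] = true := by
  decide +kernel

end Pool.Agent.Lib.MP_d6150d_an.S1HR
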