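import Pool.Agent.Lib.MP_d6150d_an.S1HRD

/-! A generated chart: the computations. -/

namespace Pool.Agent.Lib.MP_d6150d_an.S1HR

theorem k10 : chk C 0xbaba80212a80a8022 [(35184372088832, 70368744177664), (52776558133248,
    105553116266496), (0, 140737488355328)] = true := by
  decide +kernel

theorem k11 : chk C 0xa [(35184372088832, 70368744177664), (105553116266496, 211106232532992), (0,
    140737488355328)] = true := by
  decide +kernel

theorem k12 : chk C 0xba80e80821a80880122 [(70368744177664, 105553116266496), (0, 52776558133248),
    (0, 140737488355328)] = true := by
  decide +kernel

theorem k13 : chk C 0xa [(70368744177664, 105553116266496), (52776558133248, 105553116266496), (0,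
    140737488355328)] = true := by
  decide +kernel

theorem k14 : chk C 0xa [(70368744177664, 105553116266496), (105553116266496, 211106232532992), (0,
    140737488355328)] = true := by
  decide +kernel

theorem k15 : chk C 0xaababe21a88212211 [(105553116266496, 140737488355328), (0, 211106232532992),
    (0, 140737488355328)] = true := by
  decide +kernel

end Pool.Agent.Lib.MP_d6150d_an.S1HR
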