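import Pool.Agent.Lib.MP_d6150d_an.S1HTD

/-! A generated chart: the computations. -/

namespace Pool.Agent.Lib.MP_d6150d_an.S1HT

theorem k0 : chk C 0x8880918829189921221 [(0, 8796093022208), (0, 17592186044416), (0,
    8796093022208)] = true := by
  decide +kernel

theorem k1 : chk C 0x88088190188819012 [(0, 8796093022208), (0, 17592186044416), (8796093022208,
    17592186044416)] = true := by
  decide +kernel

theorem k2 : chk C 0x8888211 [(8796093022208, 17592186044416), (0, 17592186044416), (0,
    17592186044416)] = true := by
  decide +kernel

theorem k3 : chk C 0x880 [(0, 17592186044416), (17592186044416, 35184372088832), (0,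
    17592186044416)] = true := by
  decide +kernel

theorem k4 : chk C 0x880 [(0, 17592186044416), (35184372088832, 70368744177664), (0,
    17592186044416)] = true := by
  decide +kernel

theorem k5 : chk C 0x888882111 [(17592186044416, 35184372088832), (0, 70368744177664), (0,
    17592186044416)] = true := by
  decide +kernel

theorem k6 : chk C 0x8818810 [(0, 35184372088832), (70368744177664, 140737488355328), (0,
    17592186044416)] = true := by
  decide +kernel

end Pool.Agent.Lib.MP_d6150d_an.S1HT
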