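import Pool.Agent.Lib.MP_d6150d_an.S1HTD

/-! A generated chart: the computations. -/

namespace Pool.Agent.Lib.MP_d6150d_an.S1HT

theorem k7 : chk C 0x888208801 [(35184372088832, 70368744177664), (0, 35184372088832), (0,
    17592186044416)] = true := by
  decide +kernel

theorem k8 : chk C 0x88801 [(35184372088832, 70368744177664), (35184372088832, 70368744177664), (0,
    8796093022208)] = true := by
  decide +kernel

theorem k9 : chk C 0x8808818018808828012 [(35184372088832, 70368744177664), (35184372088832,
    70368744177664), (8796093022208, 17592186044416)] = true := by
  decide +kernel

theorem k10 : chk C 0x88801 [(35184372088832, 70368744177664), (70368744177664, 140737488355328),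
    (0, 17592186044416)] = true := by
  decide +kernel

theorem k11 : chk C 0x88281 [(70368744177664, 105553116266496), (0, 35184372088832), (0,
    17592186044416)] = true := by
  decide +kernel

theorem k12 : chk C 0x881881088188102 [(70368744177664, 105553116266496), (35184372088832,
    70368744177664), (0, 8796093022208)] = true := by
  decide +kernel

end Pool.Agent.Lib.MP_d6150d_an.S1HT
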