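import Pool.Agent.Lib.MP_d6150d_an.GMac
import Pool.Agent.Lib.MP_d6150d_an.S1HTK0
import Pool.Agent.Lib.MP_d6150d_an.S1HTK1
import Pool.Agent.Lib.MP_d6150d_an.S1HTK2

/-! A generated chart: the inequality. -/

namespace Pool.Agent.Lib.MP_d6150d_an.S1HT

set_option linter.unnecessarySeqFocus false
set_option linter.unusedTactic false
set_option linter.unusedVariables false

theorem gd : Gd C [(0, 140737488355328), (0, 140737488355328), (0, 17592186044416)] := .split 0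
    (.split 0 (.split 1 (.split 0 (.split 1 (.split 1 (.split 0 (.split 2 (chk_sound k0) (chk_sound
    k1)) (chk_sound k2)) (chk_sound k3)) (chk_sound k4)) (chk_sound k5)) (chk_sound k6)) (.split 1
    (.split 1 (chk_sound k7) (.split 2 (chk_sound k8) (chk_sound k9))) (chk_sound k10))) (.split 1
    (.split 0 (.split 1 (chk_sound k11) (.split 2 (chk_sound k12) (chk_sound k13))) (chk_sound k14))
    (.split 1 (chk_sound k15) (chk_sound k16)))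

set_option maxRecDepth 100000 in
theorem eq {b e n d sg s r a1 b1 mu la pq b2 u Pi La P2 Lr A1 A0 B0 e0 x1 X1 E1 N C1 : ℝ} (hd : d =
    e * n) (hsg : sg = (1 - e) / (1 - d)) (hs : s = sg * n) (hr : r = 1 - s) (ha1 : a1 = (1 - d) /
    (2 * b + 2)) (hb1 : b1 = (1 - 2 * d) / (2 * b + 1)) (hmu : mu = 3 / 2 + 7 / 4 * (1 - b) ^ 4)
    (hla : la = 3 / 4 + 3 * b ^ 3) (hpq : pq = e + 2 * b * sg * (b1 - a1 * s)) (hb2 : b2 = b1 - 2 *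
    a1 * s) (hu : u = (1 + b) * (1 - d) * s) (hPi : Pi = b * (1 - 2 * d) - u) (hLa : La = 1 - 2 * d
    - 2 * (1 - d) * s) (hP2 : P2 = sg * Pi - (1 - b) * e) (hLr : Lr = (1 - 3 * b + 2 * e) * r - 2 *
    sg * La) (hA1 : A1 = mu * sg * r) (hA0 : A0 = pq * ((Pi - u) * r - 3 * La * P2) - (1 - 3 * b) *
    P2 * b2 * r - A1 * b * r ^ 2 / 2) (hB0 : B0 = b2 * P2 - (Pi + (1 - b) * (1 - d - n)) * r) (he0 :
    e0 = (d + 2 * b * (b1 - a1)) * (2 * d - b) / 12) (hx1 : x1 = Real.exp (4 * b * (e - la * sg) /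
    (e + la * sg))) (hX1 : X1 = pq / 2 - x1 * e * (1 / 2 + b / ((2 * b + 1) * la))) (hE1 : E1 = 1 +
    4 * e0 - mu * n * pq) (hN : N = n * sg ^ 2) (hC1 : C1 = r * E1 * (1 + 2 * b + 2 * b ^ 2) - N *
    b2) : outR prog 0 [b, e, n] = (A0 - A1 * Lr * (pq / 2)) * C1 - N * (B0 + 2 * A1 * (pq / 2)) ^ 2
    ∧ outR prog 1 [b, e, n] = (A0 - A1 * Lr * X1) * C1 - N * (B0 + 2 * A1 * X1) ^ 2 ∧ outR prog 2
    [b, e, n] = (b + e) * C1 ∧ outR prog 3 [b, e, n] = (b + e) * E1 := by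
  replace hd : d = (e * n) := hd.trans (by push_cast <;> ring)
  replace hsg : sg = (((Int.cast (1) : ℝ) - e) * ((Int.cast (1) : ℝ) - d)⁻¹) := hsg.trans (by
    push_cast <;> ring)
  replace hs : s = (sg * n) := hs.trans (by push_cast <;> ring)
  replace hr : r = ((Int.cast (1) : ℝ) - s) := hr.trans (by push_cast <;> ring)
  replace ha1 : a1 = (((Int.cast (1) : ℝ) - d) * (((Int.cast (2) : ℝ) * b) + (Int.cast (2) : ℝ))⁻¹)
    := ha1.trans (by push_cast <;> ring)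
  replace hb1 : b1 = (((Int.cast (1) : ℝ) - ((Int.cast (2) : ℝ) * d)) * (((Int.cast (2) : ℝ) * b) +
    (Int.cast (1) : ℝ))⁻¹) := hb1.trans (by push_cast <;> ring)
  replace hmu : mu = (((Int.cast (3) : ℝ) / (Nat.cast 2 : ℝ)) + (((Int.cast (7) : ℝ) / (Nat.cast 4 :
    ℝ)) * ((((Int.cast (1) : ℝ) - b) * ((Int.cast (1) : ℝ) - b)) * (((Int.cast (1) : ℝ) - b) *
    ((Int.cast (1) : ℝ) - b))))) := hmu.trans (by push_cast <;> ring)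
  replace hla : la = (((Int.cast (3) : ℝ) / (Nat.cast 4 : ℝ)) + ((Int.cast (3) : ℝ) * ((b * b) *
    b))) := hla.trans (by push_cast <;> ring)
  replace hpq : pq = (e + ((((Int.cast (2) : ℝ) * b) * sg) * (b1 - (a1 * s)))) := hpq.trans (by
    push_cast <;> ring)
  replace hb2 : b2 = (b1 - (((Int.cast (2) : ℝ) * a1) * s)) := hb2.trans (by push_cast <;> ring)
  replace hu : u = ((((Int.cast (1) : ℝ) + b) * ((Int.cast (1) : ℝ) - d)) * s) := hu.trans (by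
    push_cast <;> ring)
  replace hPi : Pi = ((b * ((Int.cast (1) : ℝ) - ((Int.cast (2) : ℝ) * d))) - u) := hPi.trans (by
    push_cast <;> ring)
  replace hLa : La = (((Int.cast (1) : ℝ) - ((Int.cast (2) : ℝ) * d)) - (((Int.cast (2) : ℝ) *
    ((Int.cast (1) : ℝ) - d)) * s)) := hLa.trans (by push_cast <;> ring)
  replace hP2 : P2 = ((sg * Pi) - (((Int.cast (1) : ℝ) - b) * e)) := hP2.trans (by push_cast <;>
    ring)
  replace hLr : Lr = (((((Int.cast (1) : ℝ) - ((Int.cast (3) : ℝ) * b)) + ((Int.cast (2) : ℝ) * e))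
    * r) - (((Int.cast (2) : ℝ) * sg) * La)) := hLr.trans (by push_cast <;> ring)
  replace hA1 : A1 = ((mu * sg) * r) := hA1.trans (by push_cast <;> ring)
  replace hA0 : A0 = (((pq * (((Pi - u) * r) - (((Int.cast (3) : ℝ) * La) * P2))) - (((((Int.cast
    (1) : ℝ) - ((Int.cast (3) : ℝ) * b)) * P2) * b2) * r)) - (((Int.cast (1) : ℝ) / (Nat.cast 2 :
    ℝ)) * ((A1 * b) * (r * r)))) := hA0.trans (by push_cast <;> ring)
  replace hB0 : B0 = ((b2 * P2) - ((Pi + (((Int.cast (1) : ℝ) - b) * (((Int.cast (1) : ℝ) - d) -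
    n))) * r)) := hB0.trans (by push_cast <;> ring)
  replace he0 : e0 = (((Int.cast (1) : ℝ) / (Nat.cast 12 : ℝ)) * ((d + (((Int.cast (2) : ℝ) * b) *
    (b1 - a1))) * (((Int.cast (2) : ℝ) * d) - b))) := he0.trans (by push_cast <;> ring)
  replace hx1 : x1 = (Real.exp ((((Int.cast (4) : ℝ) * b) * (e - (la * sg))) * (e + (la * sg))⁻¹))
    := hx1.trans (congrArg Real.exp (by push_cast <;> ring))
  replace hX1 : X1 = ((((Int.cast (1) : ℝ) / (Nat.cast 2 : ℝ)) * pq) - ((x1 * e) * (((Int.cast (1) :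
    ℝ) / (Nat.cast 2 : ℝ)) + (b * ((((Int.cast (2) : ℝ) * b) + (Int.cast (1) : ℝ)) * la)⁻¹)))) :=
    hX1.trans (by push_cast <;> ring)
  replace hE1 : E1 = (((Int.cast (1) : ℝ) + ((Int.cast (4) : ℝ) * e0)) - ((mu * n) * pq)) :=
    hE1.trans (by push_cast <;> ring)
  replace hN : N = (n * (sg * sg)) := hN.trans (by push_cast <;> ring)
  replace hC1 : C1 = (((r * E1) * (((Int.cast (1) : ℝ) + ((Int.cast (2) : ℝ) * b)) + ((Int.cast (2)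
    : ℝ) * (b * b)))) - (N * b2)) := hC1.trans (by push_cast <;> ring)
  have e0 : (((A0 - ((A1 * Lr) * (((Int.cast (1) : ℝ) / (Nat.cast 2 : ℝ)) * pq))) * C1) - (N * ((B0
    + (((Int.cast (2) : ℝ) * A1) * (((Int.cast (1) : ℝ) / (Nat.cast 2 : ℝ)) * pq))) * (B0 +
    (((Int.cast (2) : ℝ) * A1) * (((Int.cast (1) : ℝ) / (Nat.cast 2 : ℝ)) * pq)))))) = (A0 - A1 * Lr
    * (pq / 2)) * C1 - N * (B0 + 2 * A1 * (pq / 2)) ^ 2 := by push_cast <;> ring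
  have e1 : (((A0 - ((A1 * Lr) * X1)) * C1) - (N * ((B0 + (((Int.cast (2) : ℝ) * A1) * X1)) * (B0 +
    (((Int.cast (2) : ℝ) * A1) * X1))))) = (A0 - A1 * Lr * X1) * C1 - N * (B0 + 2 * A1 * X1) ^ 2 :=
    by push_cast <;> ring
  have e2 : ((b + e) * C1) = (b + e) * C1 := by push_cast <;> ring
  have e3 : ((b + e) * E1) = (b + e) * E1 := by push_cast <;> ring
  subst hd hsg hs hr ha1 hb1 hmu hla hpq hb2 hu hPi hLa hP2 hLr hA1 hA0 hB0 he0 hx1 hX1 hE1 hN hC1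
  exact ⟨Eq.trans rfl e0, Eq.trans rfl e1, Eq.trans rfl e2, Eq.trans rfl e3⟩

theorem l0 : ((0 : ℤ) : ℝ) / 2 ^ 47 = 0 := by norm_num
theorem u0 : (1 : ℝ) = ((140737488355328 : ℤ) : ℝ) / 2 ^ 47 := by norm_num
theorem l1 : ((0 : ℤ) : ℝ) / 2 ^ 47 = 0 := by norm_num
theorem u1 : (1 : ℝ) = ((140737488355328 : ℤ) : ℝ) / 2 ^ 47 := by norm_num
theorem l2 : ((0 : ℤ) : ℝ) / 2 ^ 47 = 0 := by norm_num
theorem u2 : (1 / 8 : ℝ) = ((17592186044416 : ℤ) : ℝ) / 2 ^ 47 := by norm_num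

theorem out0 (N : ∀ n : ℝ, 0 ≤ n → n ≤ 1 / 8 → 0 ≤ outR prog 0 [0, 0, n]) {b e n : ℝ} (a0 : 0 ≤ b)
    (b0 : b ≤ 1) (a1 : 0 ≤ e) (b1 : e ≤ 1) (a2 : 0 ≤ n) (b2 : n ≤ 1 / 8) (p0 : 0 < b) (p1 : 0 < e) :
    0 < outR prog 0 [b, e, n] :=
  gd 0 (by decide) [b, e, n] (.cons ⟨l0.le.trans a0, b0.trans u0.le⟩ (.cons ⟨l1.le.trans a1,
    b1.trans u1.le⟩ (.cons ⟨l2.le.trans a2, b2.trans u2.le⟩ (.nil)))) ⟨fun _ ↦ p0, fun _ ↦ p1,
    nofun, trivial⟩ (List.forall_mem_nil _) (Van.of0 rfl) (fun _ _ _ _ _ _ _ y2 a2 b2 ↦ N y2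
    (l2.ge.trans a2) (b2.trans u2.ge))

theorem out1 (N : ∀ n : ℝ, 0 ≤ n → n ≤ 1 / 8 → 0 ≤ outR prog 1 [0, 0, n]) {b e n : ℝ} (a0 : 0 ≤ b)
    (b0 : b ≤ 1) (a1 : 0 ≤ e) (b1 : e ≤ 1) (a2 : 0 ≤ n) (b2 : n ≤ 1 / 8) (p0 : 0 < b) (p1 : 0 < e) :
    0 < outR prog 1 [b, e, n] :=
  gd 1 (by decide) [b, e, n] (.cons ⟨l0.le.trans a0, b0.trans u0.le⟩ (.cons ⟨l1.le.trans a1,
    b1.trans u1.le⟩ (.cons ⟨l2.le.trans a2, b2.trans u2.le⟩ (.nil)))) ⟨fun _ ↦ p0, fun _ ↦ p1,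
    nofun, trivial⟩ (List.forall_mem_nil _) (Van.of0 rfl) (fun _ _ _ _ _ _ _ y2 a2 b2 ↦ N y2
    (l2.ge.trans a2) (b2.trans u2.ge))

theorem out2 (N : ∀ n : ℝ, 0 ≤ n → n ≤ 1 / 8 → 0 ≤ outR prog 2 [0, 0, n]) {b e n : ℝ} (a0 : 0 ≤ b)
    (b0 : b ≤ 1) (a1 : 0 ≤ e) (b1 : e ≤ 1) (a2 : 0 ≤ n) (b2 : n ≤ 1 / 8) (p0 : 0 < b) (p1 : 0 < e) :
    0 < outR prog 2 [b, e, n] :=
  gd 2 (by decide) [b, e, n] (.cons ⟨l0.le.trans a0, b0.trans u0.le⟩ (.cons ⟨l1.le.trans a1,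
    b1.trans u1.le⟩ (.cons ⟨l2.le.trans a2, b2.trans u2.le⟩ (.nil)))) ⟨fun _ ↦ p0, fun _ ↦ p1,
    nofun, trivial⟩ (List.forall_mem_nil _) (Van.of0 rfl) (fun _ _ _ _ _ _ _ y2 a2 b2 ↦ N y2
    (l2.ge.trans a2) (b2.trans u2.ge))

theorem out3 (N : ∀ n : ℝ, 0 ≤ n → n ≤ 1 / 8 → 0 ≤ outR prog 3 [0, 0, n]) {b e n : ℝ} (a0 : 0 ≤ b)
    (b0 : b ≤ 1) (a1 : 0 ≤ e) (b1 : e ≤ 1) (a2 : 0 ≤ n) (b2 : n ≤ 1 / 8) (p0 : 0 < b) (p1 : 0 < e) :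
    0 < outR prog 3 [b, e, n] :=
  gd 3 (by decide) [b, e, n] (.cons ⟨l0.le.trans a0, b0.trans u0.le⟩ (.cons ⟨l1.le.trans a1,
    b1.trans u1.le⟩ (.cons ⟨l2.le.trans a2, b2.trans u2.le⟩ (.nil)))) ⟨fun _ ↦ p0, fun _ ↦ p1,
    nofun, trivial⟩ (List.forall_mem_nil _) (Van.of0 rfl) (fun _ _ _ _ _ _ _ y2 a2 b2 ↦ N y2
    (l2.ge.trans a2) (b2.trans u2.ge))

end Pool.Agent.Lib.MP_d6150d_an.S1HT
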