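import Pool.Agent.Lib.MP_d6150d_an.S1Hb
import Pool.Agent.Lib.MP_d6150d_an.S1HT
import Pool.Agent.Lib.MP_d6150d_an.S1HM
import Pool.Agent.Lib.MP_d6150d_an.S1HL
import Pool.Agent.Lib.MP_d6150d_an.S1HR

/-! The strip `S1`, high levels: at most one critical level. -/

namespace Pool.Agent.Lib.MP_d6150d_an

open Real Set Filter Topology Asymptotics

namespace S1H

variable {b c d t x : ℝ}

theorem eR (b c : ℝ) (ht : x ∈ JR (-(b * c))) (h0 : x ≠ 0) :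
    outR S1HR.prog 0 [b, c, x] = x * G0 b (b * c) x + x * G1 b (b * c) x * X2 b (b * c) x ∧
    outR S1HR.prog 1 [b, c, x] = x * G0 b (b * c) x + x * G1 b (b * c) x * X1 b (b * c) x := by
  have e := S1HR.eq (b := b) (c := c) (x := x) rfl rfl rfl rfl rfl rfl rfl rfl rfl rfl rfl rfl rfl
    rfl rfl rfl rfl rfl rfl rfl rfl rfl rfl rfl rfl rfl rfl rfl rfl
  have i := idC (b := b) (d := b * c) (t := x) rfl rfl rfl rfl rfl rfl rfl rfl rfl rfl rfl rfl rfl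
    rfl rfl rfl rfl rfl rfl rfl rfl ht h0
  exact ⟨e.1.trans (congrArg₂ (· + ·) i.1 (congrArg₂ (· * ·) i.2 rfl)),
    e.2.1.trans (congrArg₂ (· + ·) i.1 (congrArg₂ (· * ·) i.2 rfl))⟩

theorem eL (b c : ℝ) (ht : -x ∈ JR (-(b * c))) (h0 : -x ≠ 0) :
    outR S1HL.prog 0 [b, c, x] =
      -x * G0 b (b * c) (-x) + -x * G1 b (b * c) (-x) * X2 b (b * c) (-x) ∧
    outR S1HL.prog 1 [b, c, x] =
      -x * G0 b (b * c) (-x) + -x * G1 b (b * c) (-x) * X1 b (b * c) (-x) := by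
  have e := S1HL.eq (b := b) (c := c) (x := x) rfl rfl rfl rfl rfl rfl rfl rfl rfl rfl rfl rfl rfl
    rfl rfl rfl rfl rfl rfl rfl rfl rfl rfl rfl rfl rfl rfl rfl rfl rfl
  have i := idC (b := b) (d := b * c) (t := -x) rfl rfl rfl rfl rfl rfl rfl rfl rfl rfl rfl rfl rfl
    rfl rfl rfl rfl rfl rfl rfl rfl ht h0
  exact ⟨e.1.trans (congrArg₂ (· + ·) i.1 (congrArg₂ (· * ·) i.2 rfl)),
    e.2.1.trans (congrArg₂ (· + ·) i.1 (congrArg₂ (· * ·) i.2 rfl))⟩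

theorem j0 (c t : ℝ) : t ∈ JR (-(0 * c)) := by simp [JR, om, exp_pos]

theorem zR (c x : ℝ) : outR S1HR.prog 0 [0, c, x] = 0 ∧ outR S1HR.prog 1 [0, c, x] = 0 := by
  by_cases h : x = 0
  · have e := S1HR.eq (b := 0) (c := c) (x := x) rfl rfl rfl rfl rfl rfl rfl rfl rfl rfl rfl rfl rfl
      rfl rfl rfl rfl rfl rfl rfl rfl rfl rfl rfl rfl rfl rfl rfl rfl
    rw [e.1, e.2.1, h]; simp
  · have e := eR 0 c (j0 c x) h
    rw [e.1, e.2]; simp [G0_zero h, X1, X2, pqH]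

theorem zL (c x : ℝ) : outR S1HL.prog 0 [0, c, x] = 0 ∧ outR S1HL.prog 1 [0, c, x] = 0 := by
  by_cases h : x = 0
  · have e := S1HL.eq (b := 0) (c := c) (x := x) rfl rfl rfl rfl rfl rfl rfl rfl rfl rfl rfl rfl rfl
      rfl rfl rfl rfl rfl rfl rfl rfl rfl rfl rfl rfl rfl rfl rfl rfl rfl
    rw [e.1, e.2.1, h]; simp
  · have e := eL 0 c (j0 c (-x)) (neg_ne_zero.2 h)
    rw [e.1, e.2]; simp [G0_zero (neg_ne_zero.2 h), X1, X2, pqH]

theorem ev (d : ℝ) : ∀ᶠ t in 𝓝[≠] (0 : ℝ), t ∈ JR d ∧ t ≠ 0 :=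
  Eventually.and (nhdsWithin_le_nhds ((JR_open d).mem_nhds (zero_mem_JR d))) self_mem_nhdsWithin

theorem tn : Tendsto (fun x : ℝ ↦ -x) (𝓝[>] 0) (𝓝[≠] 0) :=
  tendsto_neg_nhdsGT.mono_right (by simpa using nhdsLT_le_nhdsNE (0 : ℝ))

theorem bR {f X : ℝ → ℝ} (hb : 0 ≤ b) (hX : ContinuousAt X 0)
    (e : ∀ x ∈ JR (-d), x ≠ 0 → f x = x * G0 b d x + x * G1 b d x * X x) :
    f =O[𝓝[>] 0] fun x ↦ x ^ 2 :=
  ((bigX hb hX).congr' ((ev (-d)).mono fun x hx ↦ (e x hx.1 hx.2).symm) .rfl).mono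
    (nhdsGT_le_nhdsNE 0)

theorem bL {f X : ℝ → ℝ} (hb : 0 ≤ b) (hX : ContinuousAt X 0)
    (e : ∀ x, -x ∈ JR (-d) → -x ≠ 0 → f x = -x * G0 b d (-x) + -x * G1 b d (-x) * X (-x)) :
    f =O[𝓝[>] 0] fun x ↦ x ^ 2 :=
  ((bigX hb hX).comp_tendsto tn).congr' ((tn.eventually (ev (-d))).mono fun x hx ↦
    (e x hx.1 hx.2).symm) (.of_forall fun x ↦ neg_sq x)

theorem zM (c x : ℝ) : outR S1HM.prog 0 [0, c, x] = 0 ∧ outR S1HM.prog 1 [0, c, x] = 0 := by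
  obtain ⟨s, hs⟩ : ∃ s, s = exp (-x) := ⟨_, rfl⟩
  have s0 : s ≠ 0 := hs ▸ (exp_pos _).ne'
  have e := S1HM.eq (b := 0) (c := c) (x := x) (d := 0) (n := s) (e := 0) (sg := 1) (a1 := 1 / 2)
    (b1 := 1) (pq := 0) (X1 := 0) (ze := 1) (by ring) hs (by ring) rfl (by ring) (by field_simp)
    rfl (by ring) (by ring) rfl rfl (by ring) rfl rfl rfl rfl rfl rfl rfl rfl rfl rfl rfl (by ring)
    rfl (by simp) rfl rfl rfl rfl rfl rfl rfl rfl
  rw [e.1, e.2.1]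
  constructor <;> ring

theorem zT (n : ℝ) : outR S1HT.prog 0 [0, 0, n] = 0 ∧ outR S1HT.prog 1 [0, 0, n] = 0 ∧
    outR S1HT.prog 2 [0, 0, n] = 0 ∧ outR S1HT.prog 3 [0, 0, n] = 0 := by
  have e := S1HT.eq (b := 0) (e := 0) (n := n) (d := 0) (sg := 1) (s := n) (a1 := 1 / 2) (b1 := 1)
    (pq := 0) (X1 := 0) (by ring) (by ring) (by ring) rfl (by ring) (by ring) rfl rfl (by ring)
    rfl rfl rfl rfl rfl rfl rfl rfl rfl rfl rfl (by ring) rfl rfl rfl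
  rw [e.1, e.2.1, e.2.2.1, e.2.2.2]
  refine ⟨?_, ?_, ?_, ?_⟩ <;> ring

theorem x_hat {n s e sg pq : ℝ} (hs : s = exp t) (n0 : n ≠ 0) (he : e * n = d) (hsg : sg * n = s)
    (h : pqH b d s = n * pq) : X2 b d t = n * exp (b * t) ^ 2 * (pq / 2) ∧
      X1 b d t = n * exp (b * t) ^ 2 * (pq / 2 - exp (4 * b * (e - laH b * sg) / (e + laH b * sg)) *
        e * (1 / 2 + b / ((2 * b + 1) * laH b))) := by
  rw [X1, X2, ← hs, h, ← mul_div_mul_right (4 * b * (e - laH b * sg)) _ n0, ← he, ← hsg]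
  constructor <;> ring_nf

variable (b0 : 0 < b) (b1 : b ≤ 1) (c0 : 0 < c) (c1 : c ≤ 3 / 2) (d1 : b * c ≤ 3 / 32)
include b0 b1 c0 c1 d1

set_option linter.unusedSectionVars false

theorem jr (t : ℝ) : t ∈ JR (-(b * c)) := by
  have := mul_pos b0 c0
  have := mul_pos (show 0 < 1 - b * c by linarith) (exp_pos t)
  simp only [JR, om, mem_ofPred_eq]; linarith

theorem right {X : ℝ} (t0 : 0 < t) (x0 : 0 < X) (x1 : X1 b (b * c) t ≤ X)
    (x2 : X ≤ X2 b (b * c) t) : 0 < t * G0 b (b * c) t + t * G1 b (b * c) t * X := by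
  have q : 0 ≤ c + 2 * exp t * (bH b (b * c) - aH b (b * c) * exp t) := by
    have := (mul_pos_iff_of_pos_left (pow_pos (exp_pos (b * t)) 2)).1 (x0.trans_le x2)
    rw [pqH] at this
    exact le_of_mul_le_mul_left (by linarith) b0
  have t1 := t_le b0 b1 (mul_pos b0 c0) d1 rfl c1 q
  have e := S1HR.eq (b := b) (c := c) (x := t) rfl rfl rfl rfl rfl rfl rfl rfl rfl rfl rfl rfl rfl
    rfl rfl rfl rfl rfl rfl rfl rfl rfl rfl rfl rfl rfl rfl rfl rfl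
  have k := eR b c (jr b0 b1 c0 c1 d1 t) t0.ne'
  have k0 := (sub_nonneg.2 d1).trans_eq e.2.2.1.symm
  have k1 := q.trans_eq e.2.2.2.symm
  exact aff x1 x2
    ((S1HR.out1 (fun c x _ _ _ _ ↦ (zR c x).2) (fun b c h _ h' _ ↦ bR h (S1H.c1 h (mul_nonneg h h'))
      fun x p q ↦ (eR b c p q).2) b0.le b1 c0.le c1 t0.le t1 b0 t0 k0 k1).trans_eq k.2)
    ((S1HR.out0 (fun c x _ _ _ _ ↦ (zR c x).1) (fun b c h _ _ _ ↦ bR h c2
      fun x p q ↦ (eR b c p q).1) b0.le b1 c0.le c1 t0.le t1 b0 t0 k0 k1).trans_eq k.1)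

theorem left {X : ℝ} (t0 : 0 < x) (t1 : x ≤ 3 / 4) (x1 : X1 b (b * c) (-x) ≤ X)
    (x2 : X ≤ X2 b (b * c) (-x)) : 0 < -x * G0 b (b * c) (-x) + -x * G1 b (b * c) (-x) * X := by
  have e := S1HL.eq (b := b) (c := c) (x := x) rfl rfl rfl rfl rfl rfl rfl rfl rfl rfl rfl rfl rfl
    rfl rfl rfl rfl rfl rfl rfl rfl rfl rfl rfl rfl rfl rfl rfl rfl rfl
  have k := eL b c (jr b0 b1 c0 c1 d1 (-x)) (neg_ne_zero.2 t0.ne')
  have k0 := (sub_nonneg.2 d1).trans_eq e.2.2.symm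
  exact aff x1 x2
    ((S1HL.out1 (fun c x _ _ _ _ ↦ (zL c x).2) (fun b c h _ h' _ ↦ bL h (S1H.c1 h (mul_nonneg h h'))
      fun x p q ↦ (eL b c p q).2) b0.le b1 c0.le c1 t0.le t1 b0 t0 k0).trans_eq k.2)
    ((S1HL.out0 (fun c x _ _ _ _ ↦ (zL c x).1) (fun b c h _ _ _ ↦ bL h c2
      fun x p q ↦ (eL b c p q).1) b0.le b1 c0.le c1 t0.le t1 b0 t0 k0).trans_eq k.1)

theorem mid {X : ℝ} (t0 : 3 / 4 ≤ x) (n1 : 1 / 8 ≤ (1 - b * c) * exp (-x) + b * c)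
    (x1 : X1 b (b * c) (-x) ≤ X) (x2 : X ≤ X2 b (b * c) (-x)) :
    0 < -G0 b (b * c) (-x) + -G1 b (b * c) (-x) * X := by
  have d0 := mul_pos b0 c0
  have t1 : x ≤ 7 / 2 := by
    by_contra k
    have h1 : exp (-x) * exp (7 / 2) ≤ 1 := by
      rw [← exp_add, exp_le_one_iff]; linarith
    have h2 : exp (7 / 2) = exp 1 ^ 3 * exp (1 / 2) := by
      rw [← exp_nat_mul, ← exp_add]; norm_num
    have h3 := quadratic_le_exp_of_nonneg (x := 1 / 2) (by norm_num)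
    have h4 := pow_le_pow_left₀ (by norm_num) exp_one_gt_d9.le 3
    have h5 : 32 < exp (7 / 2) := by rw [h2]; nlinarith
    have := exp_pos (-x)
    nlinarith
  obtain ⟨s, hs⟩ : ∃ s, s = exp (-x) := ⟨_, rfl⟩
  obtain ⟨ze, hz⟩ : ∃ z, z = exp (b * -x) := ⟨_, rfl⟩
  rw [← hs] at n1
  obtain ⟨n, hn⟩ : ∃ n, n = (1 - b * c) * s + b * c := ⟨_, rfl⟩
  have n0 : 0 < n := by linarith
  have r0 : 0 < 1 - s := by rw [hs]; exact sub_pos.2 (exp_lt_one_iff.2 (by linarith))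
  have z0 : 0 < ze := hz ▸ exp_pos _
  have hv : vR (-(b * c)) (1 + b) (-x) / 2 = aH b (b * c) * (s ^ 2 * ze ^ 2 - 1) -
      bH b (b * c) * (s * ze ^ 2 - 1) + b * c * x * ph1 (b * -x) * (1 + ze) / 2 := by
    have h1 := v_eq b0.le (b * c) (-x)
    have h2 := exp_eq_ph (b * -x)
    rw [← hz] at h2
    rw [← hz, ← hs, kH, pqH] at h1
    apply mul_left_cancel₀ b0.ne'
    linear_combination h1 / 2 - b * c * (1 + ze) / 2 * h2
  have he := inv_mul_cancel_right₀ n0.ne' (b * c)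
  have hsg := inv_mul_cancel_right₀ n0.ne' s
  have x0 : -x ≠ 0 := by linarith
  have H0 : 0 < n * ze ^ 2 * (1 - s) ^ 2 * ze * (1 - s) ^ 3 := by positivity
  have k : ∀ A B Y : ℝ, 0 < 64 * (-(A + n * ze ^ 2 * Y * B) *
      (n * ze ^ 2 * (1 - s) ^ 2 * ze * (1 - s) ^ 3)) → 0 < -A + -B * (n * ze ^ 2 * Y) :=
    fun A B Y p ↦ by
      linarith [(mul_pos_iff_of_pos_right H0).1 ((mul_pos_iff_of_pos_left (by norm_num)).1 p)]
  have e := S1HM.eq (b := b) (c := c) (x := x) (bt := b * -x) rfl hs hn rfl rfl rfl rfl rfl rfl rfl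
    rfl rfl rfl rfl rfl rfl rfl rfl rfl rfl rfl rfl rfl rfl (by ring) hz rfl rfl hv
    rfl rfl rfl rfl rfl
  have i := idT b0.le hs hn he hsg rfl rfl rfl rfl rfl rfl rfl rfl rfl rfl rfl rfl rfl hz rfl
    (mul_div_cancel₀ _ two_ne_zero) rfl rfl rfl rfl rfl
    (jr b0 b1 c0 c1 d1 (-x)) x0
  have h := x_hat hs n0.ne' he hsg i.1
  have k0 := (sub_nonneg.2 d1).trans_eq e.2.2.1.symm
  have k1 := (sub_nonneg.2 (n1.trans_eq hn.symm)).trans_eq e.2.2.2.symm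
  have p0 := (S1HM.out0 (fun c x _ _ _ _ ↦ (zM c x).1) b0.le b1 c0.le c1 t0 t1 b0 k0 k1).trans_eq
    (e.1.trans (congrArg (64 * ·) (i.2 _)))
  have p1 := (S1HM.out1 (fun c x _ _ _ _ ↦ (zM c x).2) b0.le b1 c0.le c1 t0 t1 b0 k0 k1).trans_eq
    (e.2.1.trans (congrArg (64 * ·) (i.2 _)))
  rw [← hz] at h
  exact aff x1 x2 ((k _ _ _ p1).trans_eq (by rw [h.2]; rfl)) ((k _ _ _ p0).trans_eq (by rw [h.1]; rfl))

theorem tail {X : ℝ} (n1 : (1 - b * c) * exp t + b * c ≤ 1 / 8) (x0 : 0 < X)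
    (x1 : X1 b (b * c) t ≤ X) (x2 : X ≤ X2 b (b * c) t) :
    0 < -(G0 b (b * c) t + X * G1 b (b * c) t) := by
  have d0 := mul_pos b0 c0
  have J := jr b0 b1 c0 c1 d1 t
  generalize b * c = d at *
  obtain ⟨s, hs⟩ : ∃ s, s = exp t := ⟨_, rfl⟩
  obtain ⟨ze, hz⟩ : ∃ z, z = exp (b * t) := ⟨_, rfl⟩
  rw [← hs] at n1
  obtain ⟨n, hn⟩ : ∃ n, n = (1 - d) * s + d := ⟨_, rfl⟩
  have s0 : 0 < s := hs ▸ exp_pos _
  have s1 : s ≤ 1 / 8 := by nlinarith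
  have n2 : d < n := by nlinarith
  have n0 : 0 < n := d0.trans n2
  have t1 : t ≤ -2 := by
    by_contra k
    have h1 : 1 ≤ s * exp 1 ^ 2 := by
      rw [hs, ← exp_nat_mul, ← exp_add]; exact one_le_exp (by push_cast; linarith)
    have h2 := pow_le_pow_left₀ (exp_pos 1).le exp_one_lt_d9.le 2
    nlinarith
  have z0 : 0 < ze := hz ▸ exp_pos _
  have z1 : ze * (1 + 2 * b + 2 * b ^ 2) ≤ 1 := by
    have h1 := quadratic_le_exp_of_nonneg (x := 2 * b) (by linarith)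
    have h2 : ze * exp (2 * b) ≤ 1 := by rw [hz, ← exp_add, exp_le_one_iff]; nlinarith
    nlinarith
  have he := div_mul_cancel₀ d n0.ne'
  have hsg := div_mul_cancel₀ s n0.ne'
  have e0 := div_pos d0 n0
  have e1 := (div_le_one n0).2 n2.le
  have r0 : 0 < 1 - s := by linarith
  have t0 : t ≠ 0 := by linarith
  have z2 : ze ≤ 1 := by nlinarith
  have n3 := hn.trans_le n1
  have nz : 0 < n * ze ^ 2 := by positivity
  have H0 : 0 < n * ze ^ 2 * (1 - s) ^ 2 * ze * (1 - s) ^ 3 := by positivity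
  have m0 : 0 < 3 / 2 + 7 / 4 * (1 - b) ^ 4 := by positivity
  have be := add_pos b0 e0
  have e := S1HT.eq (b := b) (e := d / n) (n := n) (sg := s / n) he.symm (by
    have : 1 - d ≠ 0 := by linarith
    field_simp; linarith) hsg.symm rfl rfl rfl rfl rfl rfl rfl rfl rfl rfl rfl rfl rfl rfl rfl rfl
    rfl rfl rfl rfl rfl
  have i := idT b0.le hs hn he hsg rfl rfl rfl rfl rfl rfl rfl rfl rfl rfl rfl rfl rfl hz rfl
    (mul_div_cancel₀ _ two_ne_zero) rfl rfl rfl rfl rfl J t0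
  have h := x_hat hs n0.ne' he hsg i.1
  rw [← hz] at h
  have := (disc (X := X / (n * ze ^ 2)) ((le_div_iff₀' nz).2 (h.2.ge.trans x1))
    ((div_le_iff₀' nz).2 (x2.trans h.1.le)) (div_pos x0 nz)
    ((S1HT.out0 (fun n _ _ ↦ (zT n).1.ge) b0.le b1 e0.le e1 n0.le n3 b0 e0).trans_eq e.1)
    ((S1HT.out1 (fun n _ _ ↦ (zT n).2.1.ge) b0.le b1 e0.le e1 n0.le n3 b0 e0).trans_eq e.2.1)
    ((mul_pos_iff_of_pos_left be).1
      ((S1HT.out2 (fun n _ _ ↦ (zT n).2.2.1.ge) b0.le b1 e0.le e1 n0.le n3 b0 e0).trans_eq e.2.2.1))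
    ((mul_pos_iff_of_pos_left be).1
      ((S1HT.out3 (fun n _ _ ↦ (zT n).2.2.2.ge) b0.le b1 e0.le e1 n0.le n3 b0 e0).trans_eq e.2.2.2))
    rfl rfl rfl z1 z0 z2 (half_pos (vR_pos J t0)) n0 (div_pos s0 n0) r0 m0).trans_eq (i.2 _)
  rw [mul_div_cancel₀ _ nz.ne'] at this
  exact (mul_pos_iff_of_pos_right H0).1 this

theorem core {X : ℝ} (t0 : t ≠ 0) (x0 : 0 < X) (x1 : X1 b (b * c) t ≤ X)
    (x2 : X ≤ X2 b (b * c) t) : 0 < t * (G0 b (b * c) t + X * G1 b (b * c) t) := by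
  rcases t0.lt_or_gt with h | h
  · obtain ⟨x, rfl⟩ : ∃ x, t = -x := ⟨-t, by ring⟩
    have h' : 0 < x := by linarith
    rcases le_total x (3 / 4) with k | k
    · linarith [left b0 b1 c0 c1 d1 h' k x1 x2]
    rcases le_total (1 / 8) ((1 - b * c) * exp (-x) + b * c) with k' | k'
    · linarith [mul_pos h' (mid b0 b1 c0 c1 d1 k k' x1 x2)]
    · linarith [mul_pos h' (tail b0 b1 c0 c1 d1 k' x0 x1 x2)]
  · linarith [right b0 b1 c0 c1 d1 h x0 x1 x2]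

end S1H

open S1H in
/-- At most one critical level above the splitting level. -/
theorem S1_high {D F : ℝ} (hD0 : -3 / 32 ≤ D) (hD1 : D < 0) (hF0 : 1 < F) (hF1 : F ≤ 2)
    (h : -D ≤ 3 / 2 * (F - 1)) :
    Cnt D F (Ici (vR D F (log (-D / (3 / 4 + 3 * (F - 1) ^ 3))))) 1 := by
  obtain ⟨b, rfl⟩ : ∃ b, F = 1 + b := ⟨F - 1, by ring⟩
  have b0 : 0 < b := by linarith
  have b1 : b ≤ 1 := by linarith
  obtain ⟨c, rfl⟩ : ∃ c, D = -(b * c) := ⟨-D / b, by field_simp⟩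
  have d0 : 0 < b * c := by linarith
  have c0 : 0 < c := (mul_pos_iff_of_pos_left b0).1 d0
  have c1 : c ≤ 3 / 2 := le_of_mul_le_mul_left (by linarith) b0
  have d1 : b * c ≤ 3 / 32 := by linarith
  rw [neg_neg, add_sub_cancel_left]
  refine (oH b (b * c)).cnt1 (-1) ordConnected_Ici fun x hx ⟨a, ha, _, _, a0, _, va, _⟩ ↦ ?_
  have x0 : 0 < x := va ▸ vR_pos ha a0.ne
  have x1 : b * x < kH b (b * c) := by
    have := mul_pos (pow_pos (exp_pos (b * a)) 2)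
      (pq_pos b0 b1 d0 d1 (exp_pos a) (exp_le_one_iff.2 a0.le))
    rw [← va, v_eq b0.le]; linarith
  refine ⟨by simp [oH, Gp.P], ?_, sg_of b0.le fun t _ t0 l ↦ core b0 b1 c0 c1 d1 t0
    (half_pos (mul_pos b0 (sub_pos.2 l))) (x_low b0 b1 d0 d1 hx l) ?_⟩
  · simp only [oH, Gp.Q]; nlinarith [mul_pos x0 (sub_pos.2 x1)]
  · have := v_eq b0.le (b * c) t
    rw [X2]; linarith

end Pool.Agent.Lib.MP_d6150d_an
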