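import Pool.Agent.Lib.MP_d6150d_an.S1L
import Pool.Agent.Lib.MP_d6150d_an.S1Hc
import Pool.Agent.Lib.MP_d6150d_an.Blue

/-! The strip `S1`. -/

namespace Pool.Agent.Lib.MP_d6150d_an

theorem S1_holds : St_S1 := fun D F h0 h1 h2 h3 ↦ by
  have a : 1 < F := by rcases h3 with h | h <;> linarith
  have b : -D ≤ 3 / 2 * (F - 1) := by rcases h3 with h | h <;> linarith
  exact ((S1_low h0 h1 a h2 b).union (S1_high h0 h1 a h2 b)).noThree
    (fun x _ ↦ le_total x _) le_rfl

end Pool.Agent.Lib.MP_d6150d_an
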