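import Pool.Agent.Lib.MP_d6150d_an.S6BaD

/-! A generated chart: the computations. -/

namespace Pool.Agent.Lib.MP_d6150d_an.S6Ba

theorem k0 : chk C 0x888209921 [(0, 2199023255552), (0, 7146825580544), (0, 13194139533312)] = true
    := by
  decide +kernel

theorem k1 : chk C 0x888882101 [(2199023255552, 4398046511104), (0, 7146825580544), (0,
    13194139533312)] = true := by
  decide +kernel

theorem k2 : chk C 0x881 [(4398046511104, 8796093022208), (0, 7146825580544), (0, 13194139533312)] =
    true := by
  decide +kernel

theorem k3 : chk C 0x88800 [(0, 8796093022208), (7146825580544, 14293651161088), (0,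
    13194139533312)] = true := by
  decide +kernel

theorem k4 : chk C 0x888118809992210 [(0, 8796093022208), (0, 14293651161088), (13194139533312,
    26388279066624)] = true := by
  decide +kernel

theorem k5 : chk C 0x888028802 [(0, 8796093022208), (14293651161088, 28587302322176), (0,
    26388279066624)] = true := by
  decide +kernel

theorem k6 : chk C 0x881880910 [(0, 8796093022208), (0, 14293651161088), (26388279066624,
    39582418599936)] = true := by
  decide +kernel

theorem k7 : chk C 0x8881188800910 [(0, 8796093022208), (0, 14293651161088), (39582418599936,
    52776558133248)] = true := by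
  decide +kernel

theorem k8 : chk C 0x888208802 [(0, 8796093022208), (14293651161088, 28587302322176),
    (26388279066624, 52776558133248)] = true := by
  decide +kernel

end Pool.Agent.Lib.MP_d6150d_an.S6Ba
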