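import Pool.Agent.Lib.MP_d6150d_an.S6BaD

/-! A generated chart: the computations. -/

namespace Pool.Agent.Lib.MP_d6150d_an.S6Ba

theorem k9 : chk C 0x88182880821 [(0, 8796093022208), (28587302322176, 57174604644352), (0,
    26388279066624)] = true := by
  decide +kernel

theorem k10 : chk C 0xa81880812880812 [(0, 8796093022208), (28587302322176, 57174604644352),
    (26388279066624, 52776558133248)] = true := by
  decide +kernel

end Pool.Agent.Lib.MP_d6150d_an.S6Ba
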