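import Pool.Agent.Lib.MP_d6150d_an.GMac
import Pool.Agent.Lib.MP_d6150d_an.KNJ
import Pool.Agent.Lib.MP_d6150d_an.S6BaK0
import Pool.Agent.Lib.MP_d6150d_an.S6BaK1

/-! A generated chart: the inequality. -/

namespace Pool.Agent.Lib.MP_d6150d_an.S6Ba

set_option linter.unnecessarySeqFocus false
set_option linter.unusedTactic false
set_option linter.unusedVariables false

theorem gd : Gd C [(0, 8796093022208), (0, 57174604644352), (0, 52776558133248)] := .split 1 (.split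
    2 (.split 1 (.split 2 (.split 1 (.split 0 (.split 0 (chk_sound k0) (chk_sound k1)) (chk_sound
    k2)) (chk_sound k3)) (chk_sound k4)) (chk_sound k5)) (.split 1 (.split 2 (chk_sound k6)
    (chk_sound k7)) (chk_sound k8))) (.split 2 (chk_sound k9) (chk_sound k10))

set_option maxRecDepth 100000 in
theorem eq {al et r t d be D F d0 y1 y2 e0 e1 e2 j2 j4 ik mu zt z X dl c0 Q0 Q1 R1 x xi yi P Q R z30
    W Y p2 p3 z35 sm W2 W5 g5 z40 u0 u1 u2 u3 E : ℝ} (ht : t = r) (hd : d = 1 / 2 - et) (hbe : be =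
    1 - al) (hD : D = -d) (hF : F = 2 - al) (hd0 : d0 = 7 - 23 / 2 * et) (hy1 : y1 = 129 / 200 - 3 /
    5 * et) (hy2 : y2 = 11 / 80 * et) (he0 : e0 = et * (53 / 2000 + et * (199 / 625 * et - 1537 /
    10000)) + al * (99 / 2000 - 987 / 10000 * et)) (he1 : e1 = et * (et * (4039 / 5000 - 443 / 400 *
    et) - 827 / 5000) - al * (21 / 2000 + 101 / 10000 * et)) (he2 : e2 = et * (1509 / 10000 - et *
    (749 / 2500 + 2167 / 10000 * et)) + al * (709 / 10000 - 133 / 2500 * et)) (hj2 : j2 = ja2 D F)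
    (hj4 : j4 = ja4 D F) (hik : ik = be * (2 * be + 1) * F / (d * (2 * be + 1) * F + be * (4 * et *
    F - (1 - d) * (2 * be + 1)))) (hmu : mu = muR D F t) (hzt : zt = ik * mu) (hz : z = t ^ 2 * zt)
    (hX : X = 1 - z) (hdl : dl = d0 * d ^ 3) (hc0 : c0 = be * dl) (hQ0 : Q0 = c0 + y1 + y2) (hQ1 :
    Q1 = -(c0 + 2 * y1 + 3 * y2)) (hR1 : R1 = 2 * c0 + dl + 4 * y1 + 5 * y2 + 1) (hx : x = Real.exp
    (t / 2)) (hxi : xi = Real.exp (-(t / 2))) (hyi : yi = Real.exp (-(F * t))) (hP : P = (1 + D) *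
    x) (hQ : Q = (1 + 2 * D) * xi) (hR : R = D * xi ^ 3) (hz30 : z30 = ph1 (t / 2)) (hW : W = z30 *
    (1 + xi) / 2 * (1 + D - D * xi ^ 2)) (hY : Y = mu * yi * yi * x / 2) (hp2 : p2 = (pjR F P Q
    R).1) (hp3 : p3 = (pjR F P Q R).2.1) (hz35 : z35 = (√mu)⁻¹) (hsm : sm = mu * z35) (hW2 : W2 = W
    ^ 2) (hW5 : W5 = W2 ^ 2 * W * yi) (hg5 : g5 = W5 * sm) (hz40 : z40 = ph1 (F * t)) (hu0 : u0 = W5
    * z40) (hu1 : u1 = 2 * (Y * W2 ^ 2)) (hu2 : u2 = 4 * (Y ^ 2 * p2 * W2)) (hu3 : u3 = 8 * (Y ^ 3 *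
    p3)) (hE : E = t ^ 3 * (mu * (8 * Q0 * j4 * mu + 2 * (3 * Q1 + R1) * j2 * zt) + t ^ 2 * zt ^ 3 *
    (e0 + X * (e1 + e2 * X)))) : outR prog 0 [al, et, r] = W5 * E - (Q0 * (u3 + u2 - 2 * g5) + z *
    (Q1 * (u3 + 6 * u2 + 3 * u1) + R1 * (u2 + u1) + z * ((y1 + 3 * y2) * (u3 + 7 * u2 + 5 * u1 - u0)
    - (u2 + 2 * u1 - u0) - z * y2 * (u3 + 9 * u2 + 9 * u1 - 3 * u0)))) ∧ outR (prog.take 49) 0 [al,
    et, r] = X := by
  replace hd : d = (((Int.cast (1) : ℝ) / (Nat.cast 2 : ℝ)) - et) := hd.trans (by push_cast <;>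
    ring)
  replace hbe : be = ((Int.cast (1) : ℝ) - al) := hbe.trans (by push_cast <;> ring)
  replace hD : D = ((Int.cast (-1) : ℝ) * d) := hD.trans (by push_cast <;> ring)
  replace hF : F = ((Int.cast (2) : ℝ) - al) := hF.trans (by push_cast <;> ring)
  replace hd0 : d0 = ((Int.cast (7) : ℝ) - (((Int.cast (23) : ℝ) / (Nat.cast 2 : ℝ)) * et)) :=
    hd0.trans (by push_cast <;> ring)
  replace hy1 : y1 = (((Int.cast (129) : ℝ) / (Nat.cast 200 : ℝ)) - (((Int.cast (3) : ℝ) / (Nat.cast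
    5 : ℝ)) * et)) := hy1.trans (by push_cast <;> ring)
  replace hy2 : y2 = (((Int.cast (11) : ℝ) / (Nat.cast 80 : ℝ)) * et) := hy2.trans (by push_cast <;>
    ring)
  replace he0 : e0 = ((et * (((Int.cast (53) : ℝ) / (Nat.cast 2000 : ℝ)) + (et * ((((Int.cast (199)
    : ℝ) / (Nat.cast 625 : ℝ)) * et) - ((Int.cast (1537) : ℝ) / (Nat.cast 10000 : ℝ)))))) + (al *
    (((Int.cast (99) : ℝ) / (Nat.cast 2000 : ℝ)) - (((Int.cast (987) : ℝ) / (Nat.cast 10000 : ℝ)) *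
    et)))) := he0.trans (by push_cast <;> ring)
  replace he1 : e1 = ((et * ((et * (((Int.cast (4039) : ℝ) / (Nat.cast 5000 : ℝ)) - (((Int.cast
    (443) : ℝ) / (Nat.cast 400 : ℝ)) * et))) - ((Int.cast (827) : ℝ) / (Nat.cast 5000 : ℝ)))) - (al
    * (((Int.cast (21) : ℝ) / (Nat.cast 2000 : ℝ)) + (((Int.cast (101) : ℝ) / (Nat.cast 10000 : ℝ))
    * et)))) := he1.trans (by push_cast <;> ring)
  replace he2 : e2 = ((et * (((Int.cast (1509) : ℝ) / (Nat.cast 10000 : ℝ)) - (et * (((Int.cast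
    (749) : ℝ) / (Nat.cast 2500 : ℝ)) + (((Int.cast (2167) : ℝ) / (Nat.cast 10000 : ℝ)) * et))))) +
    (al * (((Int.cast (709) : ℝ) / (Nat.cast 10000 : ℝ)) - (((Int.cast (133) : ℝ) / (Nat.cast 2500 :
    ℝ)) * et)))) := he2.trans (by push_cast <;> ring)
  replace hj2 : j2 = (((Int.cast (1) : ℝ) / (Nat.cast 6 : ℝ)) * (((Int.cast (1) : ℝ) - F) -
    ((Int.cast (2) : ℝ) * D))) := hj2.trans (by simp only [ja2]; push_cast; ring)
  replace hj4 : j4 = (((Int.cast (1) : ℝ) / (Nat.cast 1080 : ℝ)) * (((((Int.cast (4) : ℝ) -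
    ((Int.cast (57) : ℝ) * F)) - ((Int.cast (6) : ℝ) * D)) + (F * ((((Int.cast (156) : ℝ) * F) +
    ((Int.cast (102) : ℝ) * D)) - (F * (((Int.cast (103) : ℝ) * F) + ((Int.cast (312) : ℝ) * D))))))
    - ((D * D) * (((Int.cast (60) : ℝ) + ((Int.cast (480) : ℝ) * F)) + ((Int.cast (320) : ℝ) *
    D))))) := hj4.trans (by simp only [ja4]; push_cast; ring)
  replace hik : ik = (((be * (((Int.cast (2) : ℝ) * be) + (Int.cast (1) : ℝ))) * F) * (((d *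
    (((Int.cast (2) : ℝ) * be) + (Int.cast (1) : ℝ))) * F) + (be * ((((Int.cast (4) : ℝ) * et) * F)
    - (((Int.cast (1) : ℝ) - d) * (((Int.cast (2) : ℝ) * be) + (Int.cast (1) : ℝ))))))⁻¹) :=
    hik.trans (by push_cast <;> ring)
  replace hmu : mu = (mMu D F t) := hmu.trans (mMu_0 ..)
  replace hzt : zt = (ik * mu) := hzt.trans (by push_cast <;> ring)
  replace hz : z = ((t * t) * zt) := hz.trans (by push_cast <;> ring)
  replace hX : X = ((Int.cast (1) : ℝ) - z) := hX.trans (by push_cast <;> ring)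
  replace hdl : dl = (d0 * ((d * d) * d)) := hdl.trans (by push_cast <;> ring)
  replace hc0 : c0 = (be * dl) := hc0.trans (by push_cast <;> ring)
  replace hQ0 : Q0 = ((c0 + y1) + y2) := hQ0.trans (by push_cast <;> ring)
  replace hQ1 : Q1 = ((Int.cast (-1) : ℝ) * ((c0 + ((Int.cast (2) : ℝ) * y1)) + ((Int.cast (3) : ℝ)
    * y2))) := hQ1.trans (by push_cast <;> ring)
  replace hR1 : R1 = ((((((Int.cast (2) : ℝ) * c0) + dl) + ((Int.cast (4) : ℝ) * y1)) + ((Int.cast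
    (5) : ℝ) * y2)) + (Int.cast (1) : ℝ)) := hR1.trans (by push_cast <;> ring)
  replace hx : x = (Real.exp (((Int.cast (1) : ℝ) / (Nat.cast 2 : ℝ)) * t)) := hx.trans (congrArg
    Real.exp (by push_cast <;> ring))
  replace hxi : xi = (Real.exp ((Int.cast (-1) : ℝ) * (((Int.cast (1) : ℝ) / (Nat.cast 2 : ℝ)) *
    t))) := hxi.trans (congrArg Real.exp (by push_cast <;> ring))
  replace hyi : yi = (Real.exp ((Int.cast (-1) : ℝ) * (F * t))) := hyi.trans (congrArg Real.exp (by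
    push_cast <;> ring))
  replace hP : P = (((Int.cast (1) : ℝ) + D) * x) := hP.trans (by push_cast <;> ring)
  replace hQ : Q = (((Int.cast (1) : ℝ) + ((Int.cast (2) : ℝ) * D)) * xi) := hQ.trans (by push_cast
    <;> ring)
  replace hR : R = (D * ((xi * xi) * xi)) := hR.trans (by push_cast <;> ring)
  replace hz30 : z30 = (ph1 (((Int.cast (1) : ℝ) / (Nat.cast 2 : ℝ)) * t)) := hz30.trans (congrArg
    ph1 (by push_cast <;> ring))
  replace hW : W = ((((Int.cast (1) : ℝ) / (Nat.cast 2 : ℝ)) * (z30 * ((Int.cast (1) : ℝ) + xi))) *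
    (((Int.cast (1) : ℝ) + D) - (D * (xi * xi)))) := hW.trans (by push_cast <;> ring)
  replace hY : Y = (((Int.cast (1) : ℝ) / (Nat.cast 2 : ℝ)) * (((mu * yi) * yi) * x)) := hY.trans
    (by push_cast <;> ring)
  replace hp2 : p2 = (mPj F P Q R).1 := hp2.trans (mPj_0 ..)
  replace hp3 : p3 = (mPj F P Q R).2.1 := hp3.trans (mPj_1 ..)
  replace hsm : sm = (mu * z35) := hsm.trans (by push_cast <;> ring)
  replace hW2 : W2 = (W * W) := hW2.trans (by push_cast <;> ring)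
  replace hW5 : W5 = (((W2 * W2) * W) * yi) := hW5.trans (by push_cast <;> ring)
  replace hg5 : g5 = (W5 * sm) := hg5.trans (by push_cast <;> ring)
  replace hz40 : z40 = (ph1 (F * t)) := hz40.trans (congrArg ph1 (by push_cast <;> ring))
  replace hu0 : u0 = (W5 * z40) := hu0.trans (by push_cast <;> ring)
  replace hu1 : u1 = ((Int.cast (2) : ℝ) * (Y * (W2 * W2))) := hu1.trans (by push_cast <;> ring)
  replace hu2 : u2 = ((Int.cast (4) : ℝ) * (((Y * Y) * p2) * W2)) := hu2.trans (by push_cast <;>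
    ring)
  replace hu3 : u3 = ((Int.cast (8) : ℝ) * (((Y * Y) * Y) * p3)) := hu3.trans (by push_cast <;>
    ring)
  replace hE : E = (((t * t) * t) * ((mu * (((((Int.cast (8) : ℝ) * Q0) * j4) * mu) + ((((Int.cast
    (2) : ℝ) * (((Int.cast (3) : ℝ) * Q1) + R1)) * j2) * zt))) + (((t * t) * ((zt * zt) * zt)) * (e0
    + (X * (e1 + (e2 * X))))))) := hE.trans (by push_cast <;> ring)
  have e0 : ((W5 * E) - ((Q0 * ((u3 + u2) - ((Int.cast (2) : ℝ) * g5))) + (z * (((Q1 * ((u3 +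
    ((Int.cast (6) : ℝ) * u2)) + ((Int.cast (3) : ℝ) * u1))) + (R1 * (u2 + u1))) + (z * ((((y1 +
    ((Int.cast (3) : ℝ) * y2)) * (((u3 + ((Int.cast (7) : ℝ) * u2)) + ((Int.cast (5) : ℝ) * u1)) -
    u0)) - ((u2 + ((Int.cast (2) : ℝ) * u1)) - u0)) - ((z * y2) * (((u3 + ((Int.cast (9) : ℝ) * u2))
    + ((Int.cast (9) : ℝ) * u1)) - ((Int.cast (3) : ℝ) * u0))))))))) = W5 * E - (Q0 * (u3 + u2 - 2 *
    g5) + z * (Q1 * (u3 + 6 * u2 + 3 * u1) + R1 * (u2 + u1) + z * ((y1 + 3 * y2) * (u3 + 7 * u2 + 5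
    * u1 - u0) - (u2 + 2 * u1 - u0) - z * y2 * (u3 + 9 * u2 + 9 * u1 - 3 * u0)))) := by push_cast
    <;> ring
  subst ht hd hbe hD hF hd0 hy1 hy2 he0 he1 he2 hj2 hj4 hik hmu hzt hz hX hdl hc0 hQ0 hQ1 hR1 hx hxi
    hyi hP hQ hR hz30 hW hY hp2 hp3 hz35 hsm hW2 hW5 hg5 hz40 hu0 hu1 hu2 hu3 hE
  exact ⟨Eq.trans rfl e0, rfl⟩

theorem l0 : ((0 : ℤ) : ℝ) / 2 ^ 47 = 0 := by norm_num
theorem u0 : (1 / 16 : ℝ) = ((8796093022208 : ℤ) : ℝ) / 2 ^ 47 := by norm_num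
theorem l1 : ((0 : ℤ) : ℝ) / 2 ^ 47 = 0 := by norm_num
theorem u1 : (13 / 32 : ℝ) = ((57174604644352 : ℤ) : ℝ) / 2 ^ 47 := by norm_num
theorem l2 : ((0 : ℤ) : ℝ) / 2 ^ 47 = 0 := by norm_num
theorem u2 : (3 / 8 : ℝ) = ((52776558133248 : ℤ) : ℝ) / 2 ^ 47 := by norm_num

theorem out0 (V2 : ∀ al et : ℝ, 0 ≤ al → al ≤ 1 / 16 → 0 ≤ et → et ≤ 13 / 32 → (fun r ↦ outR prog 0
    [al, et, r]) =O[nhdsWithin 0 (Set.Ioi 0)] fun r : ℝ ↦ r ^ 4) (N : ∀ r : ℝ, 0 ≤ r → r ≤ 3 / 8 → 0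
    ≤ outR prog 0 [0, 0, r]) {al et r : ℝ} (a0 : 0 ≤ al) (b0 : al ≤ 1 / 16) (a1 : 0 ≤ et) (b1 : et ≤
    13 / 32) (a2 : 0 ≤ r) (b2 : r ≤ 3 / 8) (p0 : 0 < al) (p1 : 0 < et) (p2 : 0 < r) (c0 : 0 ≤ outR
    (prog.take 49) 0 [al, et, r]) : 0 < outR prog 0 [al, et, r] :=
  gd 0 (by decide) [al, et, r] (.cons ⟨l0.le.trans a0, b0.trans u0.le⟩ (.cons ⟨l1.le.trans a1,
    b1.trans u1.le⟩ (.cons ⟨l2.le.trans a2, b2.trans u2.le⟩ (.nil)))) ⟨fun _ ↦ p0, fun _ ↦ p1, fun _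
    ↦ p2, trivial⟩ (List.forall_mem_cons.2 ⟨c0, List.forall_mem_nil _⟩) (⟨fun _ ↦ allB_iff.2 fun _ _
    ↦ trivial, fun y0 a0 b0 ↦ ⟨fun _ ↦ allB_iff.2 fun _ _ ↦ trivial, fun y1 a1 b1 ↦ ⟨fun _ ↦ V2 y0
    y1 (l0.ge.trans a0) (b0.trans u0.ge) (l1.ge.trans a1) (b1.trans u1.ge), fun _ _ _ ↦ trivial⟩⟩⟩)
    (fun _ _ _ _ _ _ _ y2 a2 b2 ↦ N y2 (l2.ge.trans a2) (b2.trans u2.ge))

end Pool.Agent.Lib.MP_d6150d_an.S6Ba
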