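import Pool.Agent.Lib.MP_d6150d_an.S6BbD

/-! A generated chart: the computations. -/

namespace Pool.Agent.Lib.MP_d6150d_an.S6Bb

theorem k0 : chk C 0x88082992921 [(0, 2199023255552), (0, 7146825580544), (0, 17592186044416)] =
    true := by
  decide +kernel

theorem k1 : chk C 0x882881821 [(2199023255552, 4398046511104), (0, 7146825580544), (0,
    17592186044416)] = true := by
  decide +kernel

theorem k2 : chk C 0x8828821 [(4398046511104, 6597069766656), (0, 7146825580544), (0,
    17592186044416)] = true := by
  decide +kernel

theorem k3 : chk C 0x882882188288210 [(6597069766656, 8796093022208), (0, 7146825580544), (0,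
    17592186044416)] = true := by
  decide +kernel

theorem k4 : chk C 0x882880820 [(0, 8796093022208), (7146825580544, 14293651161088), (0,
    17592186044416)] = true := by
  decide +kernel

theorem k5 : chk C 0x8881188099210 [(0, 4398046511104), (0, 7146825580544), (17592186044416,
    35184372088832)] = true := by
  decide +kernel

theorem k6 : chk C 0x881 [(4398046511104, 8796093022208), (0, 7146825580544), (17592186044416,
    35184372088832)] = true := by
  decide +kernel

theorem k7 : chk C 0x88800 [(0, 8796093022208), (7146825580544, 14293651161088), (17592186044416,
    35184372088832)] = true := by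
  decide +kernel

theorem k8 : chk C 0x8880188880012 [(0, 8796093022208), (14293651161088, 28587302322176), (0,
    35184372088832)] = true := by
  decide +kernel

end Pool.Agent.Lib.MP_d6150d_an.S6Bb
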