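import Pool.Agent.Lib.MP_d6150d_an.S6BbD

/-! A generated chart: the computations. -/

namespace Pool.Agent.Lib.MP_d6150d_an.S6Bb

theorem k9 : chk C 0x881881188188012 [(0, 8796093022208), (28587302322176, 57174604644352), (0,
    35184372088832)] = true := by
  decide +kernel

theorem k10 : chk C 0x8818818809100 [(0, 8796093022208), (0, 7146825580544), (35184372088832,
    52776558133248)] = true := by
  decide +kernel

theorem k11 : chk C 0x881881888009100 [(0, 8796093022208), (0, 7146825580544), (52776558133248,
    70368744177664)] = true := by
  decide +kernel

theorem k12 : chk C 0x8828880088020 [(0, 8796093022208), (7146825580544, 14293651161088),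
    (35184372088832, 70368744177664)] = true := by
  decide +kernel

theorem k13 : chk C 0x88801888012 [(0, 8796093022208), (14293651161088, 28587302322176),
    (35184372088832, 70368744177664)] = true := by
  decide +kernel

theorem k14 : chk C 0x881880288088021 [(0, 8796093022208), (28587302322176, 57174604644352),
    (35184372088832, 70368744177664)] = true := by
  decide +kernel

end Pool.Agent.Lib.MP_d6150d_an.S6Bb
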