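import Pool.Agent.Lib.MP_d6150d_an.S6BbD

/-! A generated chart: the computations. -/

namespace Pool.Agent.Lib.MP_d6150d_an.S6Bb

theorem k15 : chk C 0x88188800910 [(0, 4398046511104), (0, 7146825580544), (70368744177664,
    87960930222080)] = true := by
  decide +kernel

theorem k16 : chk C 0x88188800910 [(0, 4398046511104), (0, 7146825580544), (87960930222080,
    105553116266496)] = true := by
  decide +kernel

theorem k17 : chk C 0x88801 [(4398046511104, 8796093022208), (0, 7146825580544), (70368744177664,
    105553116266496)] = true := by
  decide +kernel

theorem k18 : chk C 0x88888082000 [(0, 8796093022208), (7146825580544, 14293651161088),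
    (70368744177664, 105553116266496)] = true := by
  decide +kernel

theorem k19 : chk C 0x888820099299221 [(0, 2199023255552), (0, 7146825580544), (105553116266496,
    140737488355328)] = true := by
  decide +kernel

theorem k20 : chk C 0x88821 [(2199023255552, 4398046511104), (0, 7146825580544), (105553116266496,
    140737488355328)] = true := by
  decide +kernel

theorem k21 : chk C 0x881 [(4398046511104, 8796093022208), (0, 7146825580544), (105553116266496,
    140737488355328)] = true := by
  decide +kernel

theorem k22 : chk C 0x880888008880020 [(0, 4398046511104), (7146825580544, 14293651161088),
    (105553116266496, 140737488355328)] = true := by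
  decide +kernel

theorem k23 : chk C 0x8 [(4398046511104, 8796093022208), (7146825580544, 14293651161088),
    (105553116266496, 140737488355328)] = true := by
  decide +kernel

end Pool.Agent.Lib.MP_d6150d_an.S6Bb
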