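import Pool.Agent.Lib.MP_d6150d_an.S6BbD

/-! A generated chart: the computations. -/

namespace Pool.Agent.Lib.MP_d6150d_an.S6Bb

theorem k24 : chk C 0x8818808880010 [(0, 8796093022208), (14293651161088, 28587302322176),
    (70368744177664, 105553116266496)] = true := by
  decide +kernel

theorem k25 : chk C 0x888208880880201 [(0, 4398046511104), (14293651161088, 28587302322176),
    (105553116266496, 140737488355328)] = true := by
  decide +kernel

theorem k26 : chk C 0x881 [(4398046511104, 8796093022208), (14293651161088, 28587302322176),
    (105553116266496, 140737488355328)] = true := by
  decide +kernel

theorem k27 : chk C 0x8818810 [(0, 8796093022208), (28587302322176, 42880953483264),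
    (70368744177664, 105553116266496)] = true := by
  decide +kernel

theorem k28 : chk C 0x881882810 [(0, 8796093022208), (42880953483264, 57174604644352),
    (70368744177664, 105553116266496)] = true := by
  decide +kernel

theorem k29 : chk C 0x88188088010 [(0, 8796093022208), (28587302322176, 42880953483264),
    (105553116266496, 140737488355328)] = true := by
  decide +kernel

theorem k30 : chk C 0x882818808288010 [(0, 8796093022208), (42880953483264, 57174604644352),
    (105553116266496, 140737488355328)] = true := by
  decide +kernel

end Pool.Agent.Lib.MP_d6150d_an.S6Bb
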