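import Pool.Agent.Lib.MP_d6150d_an.S6BcD

/-! A generated chart: the computations. -/

namespace Pool.Agent.Lib.MP_d6150d_an.S6Bc

theorem k0 : chk C 0x888219988091220 [(0, 4398046511104), (0, 7146825580544), (140737488355328,
    228698418577408)] = true := by
  decide +kernel

theorem k1 : chk C 0x8888020 [(0, 4398046511104), (7146825580544, 14293651161088), (140737488355328,
    228698418577408)] = true := by
  decide +kernel

theorem k2 : chk C 0x8888011 [(4398046511104, 8796093022208), (0, 14293651161088), (140737488355328,
    228698418577408)] = true := by
  decide +kernel

theorem k3 : chk C 0x88800881901 [(0, 8796093022208), (0, 14293651161088), (228698418577408,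
    316659348799488)] = true := by
  decide +kernel

theorem k4 : chk C 0x880888218992101 [(0, 8796093022208), (0, 14293651161088), (316659348799488,
    492581209243648)] = true := by
  decide +kernel

theorem k5 : chk C 0x88188088012 [(0, 2199023255552), (14293651161088, 28587302322176),
    (140737488355328, 228698418577408)] = true := by
  decide +kernel

theorem k6 : chk C 0x88281 [(2199023255552, 4398046511104), (14293651161088, 28587302322176),
    (140737488355328, 228698418577408)] = true := by
  decide +kernel

theorem k7 : chk C 0x88081 [(4398046511104, 8796093022208), (14293651161088, 28587302322176),
    (140737488355328, 228698418577408)] = true := by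
  decide +kernel

theorem k8 : chk C 0x880 [(0, 8796093022208), (14293651161088, 28587302322176), (228698418577408,
    316659348799488)] = true := by
  decide +kernel

theorem k9 : chk C 0x880 [(0, 8796093022208), (14293651161088, 28587302322176), (316659348799488,
    492581209243648)] = true := by
  decide +kernel

end Pool.Agent.Lib.MP_d6150d_an.S6Bc
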