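import Pool.Agent.Lib.MP_d6150d_an.S6BcD

/-! A generated chart: the computations. -/

namespace Pool.Agent.Lib.MP_d6150d_an.S6Bc

theorem k10 : chk C 0x8808801 [(0, 4398046511104), (28587302322176, 42880953483264),
    (140737488355328, 184717953466368)] = true := by
  decide +kernel

theorem k11 : chk C 0x88800888001 [(0, 4398046511104), (28587302322176, 42880953483264),
    (184717953466368, 228698418577408)] = true := by
  decide +kernel

theorem k12 : chk C 0x8828821 [(4398046511104, 8796093022208), (28587302322176, 42880953483264),
    (140737488355328, 228698418577408)] = true := by
  decide +kernel

theorem k13 : chk C 0x8818888002810 [(0, 8796093022208), (28587302322176, 42880953483264),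
    (228698418577408, 316659348799488)] = true := by
  decide +kernel

theorem k14 : chk C 0x888018808808210 [(0, 8796093022208), (42880953483264, 57174604644352),
    (140737488355328, 228698418577408)] = true := by
  decide +kernel

theorem k15 : chk C 0x8818818818200 [(0, 4398046511104), (42880953483264, 50027779063808),
    (228698418577408, 272678883688448)] = true := by
  decide +kernel

theorem k16 : chk C 0x88188802810 [(0, 4398046511104), (42880953483264, 50027779063808),
    (272678883688448, 316659348799488)] = true := by
  decide +kernel

theorem k17 : chk C 0x88802 [(4398046511104, 8796093022208), (42880953483264, 50027779063808),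
    (228698418577408, 316659348799488)] = true := by
  decide +kernel

theorem k18 : chk C 0x881 [(0, 1099511627776), (50027779063808, 57174604644352), (228698418577408,
    272678883688448)] = true := by
  decide +kernel

end Pool.Agent.Lib.MP_d6150d_an.S6Bc
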