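import Pool.Agent.Lib.MP_d6150d_an.S6BcD

/-! A generated chart: the computations. -/

namespace Pool.Agent.Lib.MP_d6150d_an.S6Bc

theorem k19 : chk C 0x888018288188121 [(0, 1099511627776), (50027779063808, 57174604644352),
    (272678883688448, 316659348799488)] = true := by
  decide +kernel

theorem k20 : chk C 0x8882182 [(1099511627776, 2199023255552), (50027779063808, 57174604644352),
    (228698418577408, 316659348799488)] = true := by
  decide +kernel

theorem k21 : chk C 0x8882182 [(2199023255552, 4398046511104), (50027779063808, 57174604644352),
    (228698418577408, 316659348799488)] = true := by
  decide +kernel

theorem k22 : chk C 0x88821 [(4398046511104, 8796093022208), (50027779063808, 57174604644352),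
    (228698418577408, 316659348799488)] = true := by
  decide +kernel

theorem k23 : chk C 0x88800 [(0, 8796093022208), (28587302322176, 42880953483264), (316659348799488,
    492581209243648)] = true := by
  decide +kernel

theorem k24 : chk C 0x880888020 [(0, 8796093022208), (42880953483264, 50027779063808),
    (316659348799488, 492581209243648)] = true := by
  decide +kernel

theorem k25 : chk C 0x88820 [(0, 1099511627776), (50027779063808, 53601191854080), (316659348799488,
    360639813910528)] = true := by
  decide +kernel

theorem k26 : chk C 0x88188288210 [(0, 1099511627776), (53601191854080, 57174604644352),
    (316659348799488, 338649581355008)] = true := by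
  decide +kernel

theorem k27 : chk C 0x8828808812081 [(0, 1099511627776), (53601191854080, 57174604644352),
    (338649581355008, 360639813910528)] = true := by
  decide +kernel

theorem k28 : chk C 0x881881281 [(1099511627776, 2199023255552), (50027779063808, 57174604644352),
    (316659348799488, 360639813910528)] = true := by
  decide +kernel

end Pool.Agent.Lib.MP_d6150d_an.S6Bc
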