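import Pool.Agent.Lib.MP_d6150d_an.S6BcD

/-! A generated chart: the computations. -/

namespace Pool.Agent.Lib.MP_d6150d_an.S6Bc

theorem k29 : chk C 0x8880081 [(0, 2199023255552), (50027779063808, 57174604644352),
    (360639813910528, 404620279021568)] = true := by
  decide +kernel

theorem k30 : chk C 0x88188182812 [(2199023255552, 3298534883328), (50027779063808, 57174604644352),
    (316659348799488, 404620279021568)] = true := by
  decide +kernel

theorem k31 : chk C 0x8882281 [(3298534883328, 4398046511104), (50027779063808, 57174604644352),
    (316659348799488, 404620279021568)] = true := by
  decide +kernel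

theorem k32 : chk C 0x881 [(0, 4398046511104), (50027779063808, 57174604644352), (404620279021568,
    492581209243648)] = true := by
  decide +kernel

theorem k33 : chk C 0x8808882288012 [(4398046511104, 8796093022208), (50027779063808,
    57174604644352), (316659348799488, 492581209243648)] = true := by
  decide +kernel

end Pool.Agent.Lib.MP_d6150d_an.S6Bc
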