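import Pool.Agent.Lib.MP_d6150d_an.GMac
import Pool.Agent.Lib.MP_d6150d_an.KNJ
import Pool.Agent.Lib.MP_d6150d_an.S6BcK0
import Pool.Agent.Lib.MP_d6150d_an.S6BcK1
import Pool.Agent.Lib.MP_d6150d_an.S6BcK2
import Pool.Agent.Lib.MP_d6150d_an.S6BcK3

/-! A generated chart: the inequality. -/

namespace Pool.Agent.Lib.MP_d6150d_an.S6Bc

set_option linter.unnecessarySeqFocus false
set_option linter.unusedTactic false
set_option linter.unusedVariables false

theorem gd : Gd C [(0, 8796093022208), (0, 57174604644352), (140737488355328, 492581209243648)] :=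
    .split 1 (.split 1 (.split 2 (.split 2 (.split 0 (.split 1 (chk_sound k0) (chk_sound k1))
    (chk_sound k2)) (chk_sound k3)) (chk_sound k4)) (.split 2 (.split 2 (.split 0 (.split 0
    (chk_sound k5) (chk_sound k6)) (chk_sound k7)) (chk_sound k8)) (chk_sound k9))) (.split 2
    (.split 1 (.split 2 (.split 0 (.split 2 (chk_sound k10) (chk_sound k11)) (chk_sound k12))
    (chk_sound k13)) (.split 2 (chk_sound k14) (.split 1 (.split 0 (.split 2 (chk_sound k15)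
    (chk_sound k16)) (chk_sound k17)) (.split 0 (.split 0 (.split 0 (.split 2 (chk_sound k18)
    (chk_sound k19)) (chk_sound k20)) (chk_sound k21)) (chk_sound k22))))) (.split 1 (chk_sound k23)
    (.split 1 (chk_sound k24) (.split 0 (.split 2 (.split 0 (.split 2 (.split 0 (.split 1 (chk_sound
    k25) (.split 2 (chk_sound k26) (chk_sound k27))) (chk_sound k28)) (chk_sound k29)) (.split 0
    (chk_sound k30) (chk_sound k31))) (chk_sound k32)) (chk_sound k33)))))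

set_option maxRecDepth 100000 in
theorem eq {al et r d be D F d0 y1 y2 e0 e1 e2 j2 j4 s n Z y f e i1 i2 ib kap ik es fs qq X iw dh eh
    fh qh dl c0 z Q0 Qt C21 C3 C2 C1 c00 a42 v p2 p3 La Lb A1 T2 z51 B g : ℝ} (hd : d = 1 / 2 - et)
    (hbe : be = 1 - al) (hD : D = -d) (hF : F = 2 - al) (hd0 : d0 = 7 - 23 / 2 * et) (hy1 : y1 = 129
    / 200 - 3 / 5 * et) (hy2 : y2 = 11 / 80 * et) (he0 : e0 = et * (53 / 2000 + et * (199 / 625 * et
    - 1537 / 10000)) + al * (99 / 2000 - 987 / 10000 * et)) (he1 : e1 = et * (et * (4039 / 5000 -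
    443 / 400 * et) - 827 / 5000) - al * (21 / 2000 + 101 / 10000 * et)) (he2 : e2 = et * (1509 /
    10000 - et * (749 / 2500 + 2167 / 10000 * et)) + al * (709 / 10000 - 133 / 2500 * et)) (hj2 : j2
    = ja2 D F) (hj4 : j4 = ja4 D F) (hs : s = Real.exp (-r)) (hn : n = Real.exp (-(al * r))) (hZ : Z
    = Real.exp (-(2 * be * r))) (hy : y = n * Z) (hf : f = 1 - d) (he : e = 2 * et) (hi1 : i1 = 1 /
    (2 * be + 1)) (hi2 : i2 = 1 / F) (hib : ib = 1 / be) (hkap : kap = d * ib + 2 * e * i1 - f * i2)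
    (hik : ik = 1 / kap) (hes : es = e * s) (hfs : fs = f * s ^ 2) (hqq : qq = d * ib + 2 * es * i1
    - fs * i2) (hX : X = Z * qq * ik) (hiw : iw = 1 / (d + es - fs)) (hdh : dh = d * iw) (heh : eh =
    es * iw) (hfh : fh = fs * iw) (hqh : qh = qq * iw) (hdl : dl = d0 * d ^ 3) (hc0 : c0 = be * dl)
    (hz : z = 1 - X) (hQ0 : Q0 = c0 + y1 + y2) (hQt : Qt = c0 + X * (y1 + y2 * X)) (hC21 : C21 = 1 -
    2 * c0 - dl - 6 * y1 - 2 * y2 + X * (y1 - 6 * y2 - 1 + 3 * y2 * X)) (hC3 : C3 = X * Qt) (hC2 :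
    C2 = dl - 3 * c0 + X * C21) (hC1 : C1 = 6 * Q0 - z * (c0 + dl + 2 * y1 + 2 * y2 + 1 + z * (y1 +
    3 * y2 - y2 * z))) (hc00 : c00 = 1 - y1 - 3 * y2 + 3 * y2 * z) (ha42 : a42 = 2 * (dl - c0 - 2 *
    y1 - 4 * y2 + 1)) (hv : v = kap * z) (hp2 : p2 = be * eh - al * dh - F * fh) (hp3 : p3 = (3 * be
    - 1) * p2 - be * eh + 2 * F * fh - 3 * (2 * fh - eh) * p2) (hLa : La = (3 * be - 1) * p2 * i1 +
    be * qh * (be - 3 * p2)) (hLb : Lb = f * (2 * be * qh * (3 * p2 - F) - (3 * be - 1) * p2 * i2))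
    (hA1 : A1 = y1 - c0 + X * (y2 - y1 - y2 * X)) (hT2 : T2 = v * (v * ik * qh * (A1 * qh * p3 + (6
    * Qt + C21) * p2) + (4 * C3 + 2 * C2 + C1))) (hz51 : z51 = (√v)⁻¹) (hB : B = z ^ 2 * (c00 * (y -
    1) * i2 - z * (e0 + X * (e1 + e2 * X))) + v * (2 * Q0 * z51 - 8 * Q0 * j4 * v - a42 * j2 * z))
    (hg : g = d0 * dh ^ 3 * v ^ 2) : outR prog 0 [al, et, r] = g * n ^ 3 * (e * La + s * Lb) + s *
    (B - n * iw * T2) := by
  replace hd : d = (((Int.cast (1) : ℝ) / (Nat.cast 2 : ℝ)) - et) := hd.trans (by push_cast <;>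
    ring)
  replace hbe : be = ((Int.cast (1) : ℝ) - al) := hbe.trans (by push_cast <;> ring)
  replace hD : D = ((Int.cast (-1) : ℝ) * d) := hD.trans (by push_cast <;> ring)
  replace hF : F = ((Int.cast (2) : ℝ) - al) := hF.trans (by push_cast <;> ring)
  replace hd0 : d0 = ((Int.cast (7) : ℝ) - (((Int.cast (23) : ℝ) / (Nat.cast 2 : ℝ)) * et)) :=
    hd0.trans (by push_cast <;> ring)
  replace hy1 : y1 = (((Int.cast (129) : ℝ) / (Nat.cast 200 : ℝ)) - (((Int.cast (3) : ℝ) / (Nat.cast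
    5 : ℝ)) * et)) := hy1.trans (by push_cast <;> ring)
  replace hy2 : y2 = (((Int.cast (11) : ℝ) / (Nat.cast 80 : ℝ)) * et) := hy2.trans (by push_cast <;>
    ring)
  replace he0 : e0 = ((et * (((Int.cast (53) : ℝ) / (Nat.cast 2000 : ℝ)) + (et * ((((Int.cast (199)
    : ℝ) / (Nat.cast 625 : ℝ)) * et) - ((Int.cast (1537) : ℝ) / (Nat.cast 10000 : ℝ)))))) + (al *
    (((Int.cast (99) : ℝ) / (Nat.cast 2000 : ℝ)) - (((Int.cast (987) : ℝ) / (Nat.cast 10000 : ℝ)) *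
    et)))) := he0.trans (by push_cast <;> ring)
  replace he1 : e1 = ((et * ((et * (((Int.cast (4039) : ℝ) / (Nat.cast 5000 : ℝ)) - (((Int.cast
    (443) : ℝ) / (Nat.cast 400 : ℝ)) * et))) - ((Int.cast (827) : ℝ) / (Nat.cast 5000 : ℝ)))) - (al
    * (((Int.cast (21) : ℝ) / (Nat.cast 2000 : ℝ)) + (((Int.cast (101) : ℝ) / (Nat.cast 10000 : ℝ))
    * et)))) := he1.trans (by push_cast <;> ring)
  replace he2 : e2 = ((et * (((Int.cast (1509) : ℝ) / (Nat.cast 10000 : ℝ)) - (et * (((Int.cast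
    (749) : ℝ) / (Nat.cast 2500 : ℝ)) + (((Int.cast (2167) : ℝ) / (Nat.cast 10000 : ℝ)) * et))))) +
    (al * (((Int.cast (709) : ℝ) / (Nat.cast 10000 : ℝ)) - (((Int.cast (133) : ℝ) / (Nat.cast 2500 :
    ℝ)) * et)))) := he2.trans (by push_cast <;> ring)
  replace hj2 : j2 = (((Int.cast (1) : ℝ) / (Nat.cast 6 : ℝ)) * (((Int.cast (1) : ℝ) - F) -
    ((Int.cast (2) : ℝ) * D))) := hj2.trans (by simp only [ja2]; push_cast; ring)
  replace hj4 : j4 = (((Int.cast (1) : ℝ) / (Nat.cast 1080 : ℝ)) * (((((Int.cast (4) : ℝ) -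
    ((Int.cast (57) : ℝ) * F)) - ((Int.cast (6) : ℝ) * D)) + (F * ((((Int.cast (156) : ℝ) * F) +
    ((Int.cast (102) : ℝ) * D)) - (F * (((Int.cast (103) : ℝ) * F) + ((Int.cast (312) : ℝ) * D))))))
    - ((D * D) * (((Int.cast (60) : ℝ) + ((Int.cast (480) : ℝ) * F)) + ((Int.cast (320) : ℝ) *
    D))))) := hj4.trans (by simp only [ja4]; push_cast; ring)
  replace hs : s = (Real.exp ((Int.cast (-1) : ℝ) * r)) := hs.trans (congrArg Real.exp (by push_cast
    <;> ring))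
  replace hn : n = (Real.exp ((Int.cast (-1) : ℝ) * (al * r))) := hn.trans (congrArg Real.exp (by
    push_cast <;> ring))
  replace hZ : Z = (Real.exp ((Int.cast (-1) : ℝ) * (((Int.cast (2) : ℝ) * be) * r))) := hZ.trans
    (congrArg Real.exp (by push_cast <;> ring))
  replace hy : y = (n * Z) := hy.trans (by push_cast <;> ring)
  replace hf : f = ((Int.cast (1) : ℝ) - d) := hf.trans (by push_cast <;> ring)
  replace he : e = ((Int.cast (2) : ℝ) * et) := he.trans (by push_cast <;> ring)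
  replace hi1 : i1 = (((Int.cast (2) : ℝ) * be) + (Int.cast (1) : ℝ))⁻¹ := hi1.trans (by push_cast
    <;> ring)
  replace hi2 : i2 = F⁻¹ := hi2.trans (by push_cast <;> ring)
  replace hib : ib = be⁻¹ := hib.trans (by push_cast <;> ring)
  replace hkap : kap = (((d * ib) + (((Int.cast (2) : ℝ) * e) * i1)) - (f * i2)) := hkap.trans (by
    push_cast <;> ring)
  replace hik : ik = kap⁻¹ := hik.trans (by push_cast <;> ring)
  replace hes : es = (e * s) := hes.trans (by push_cast <;> ring)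
  replace hfs : fs = (f * (s * s)) := hfs.trans (by push_cast <;> ring)
  replace hqq : qq = (((d * ib) + (((Int.cast (2) : ℝ) * es) * i1)) - (fs * i2)) := hqq.trans (by
    push_cast <;> ring)
  replace hX : X = ((Z * qq) * ik) := hX.trans (by push_cast <;> ring)
  replace hiw : iw = ((d + es) - fs)⁻¹ := hiw.trans (by push_cast <;> ring)
  replace hdh : dh = (d * iw) := hdh.trans (by push_cast <;> ring)
  replace heh : eh = (es * iw) := heh.trans (by push_cast <;> ring)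
  replace hfh : fh = (fs * iw) := hfh.trans (by push_cast <;> ring)
  replace hqh : qh = (qq * iw) := hqh.trans (by push_cast <;> ring)
  replace hdl : dl = (d0 * ((d * d) * d)) := hdl.trans (by push_cast <;> ring)
  replace hc0 : c0 = (be * dl) := hc0.trans (by push_cast <;> ring)
  replace hz : z = ((Int.cast (1) : ℝ) - X) := hz.trans (by push_cast <;> ring)
  replace hQ0 : Q0 = ((c0 + y1) + y2) := hQ0.trans (by push_cast <;> ring)
  replace hQt : Qt = (c0 + (X * (y1 + (y2 * X)))) := hQt.trans (by push_cast <;> ring)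
  replace hC21 : C21 = ((((((Int.cast (1) : ℝ) - ((Int.cast (2) : ℝ) * c0)) - dl) - ((Int.cast (6) :
    ℝ) * y1)) - ((Int.cast (2) : ℝ) * y2)) + (X * (((y1 - ((Int.cast (6) : ℝ) * y2)) - (Int.cast (1)
    : ℝ)) + (((Int.cast (3) : ℝ) * y2) * X)))) := hC21.trans (by push_cast <;> ring)
  replace hC3 : C3 = (X * Qt) := hC3.trans (by push_cast <;> ring)
  replace hC2 : C2 = ((dl - ((Int.cast (3) : ℝ) * c0)) + (X * C21)) := hC2.trans (by push_cast <;>
    ring)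
  replace hC1 : C1 = (((Int.cast (6) : ℝ) * Q0) - (z * (((((c0 + dl) + ((Int.cast (2) : ℝ) * y1)) +
    ((Int.cast (2) : ℝ) * y2)) + (Int.cast (1) : ℝ)) + (z * ((y1 + ((Int.cast (3) : ℝ) * y2)) - (y2
    * z)))))) := hC1.trans (by push_cast <;> ring)
  replace hc00 : c00 = ((((Int.cast (1) : ℝ) - y1) - ((Int.cast (3) : ℝ) * y2)) + (((Int.cast (3) :
    ℝ) * y2) * z)) := hc00.trans (by push_cast <;> ring)
  replace ha42 : a42 = ((Int.cast (2) : ℝ) * ((((dl - c0) - ((Int.cast (2) : ℝ) * y1)) - ((Int.cast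
    (4) : ℝ) * y2)) + (Int.cast (1) : ℝ))) := ha42.trans (by push_cast <;> ring)
  replace hv : v = (kap * z) := hv.trans (by push_cast <;> ring)
  replace hp2 : p2 = (((be * eh) - (al * dh)) - (F * fh)) := hp2.trans (by push_cast <;> ring)
  replace hp3 : p3 = (((((((Int.cast (3) : ℝ) * be) - (Int.cast (1) : ℝ)) * p2) - (be * eh)) +
    (((Int.cast (2) : ℝ) * F) * fh)) - (((Int.cast (3) : ℝ) * (((Int.cast (2) : ℝ) * fh) - eh)) *
    p2)) := hp3.trans (by push_cast <;> ring)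
  replace hLa : La = ((((((Int.cast (3) : ℝ) * be) - (Int.cast (1) : ℝ)) * p2) * i1) + ((be * qh) *
    (be - ((Int.cast (3) : ℝ) * p2)))) := hLa.trans (by push_cast <;> ring)
  replace hLb : Lb = (f * (((((Int.cast (2) : ℝ) * be) * qh) * (((Int.cast (3) : ℝ) * p2) - F)) -
    (((((Int.cast (3) : ℝ) * be) - (Int.cast (1) : ℝ)) * p2) * i2))) := hLb.trans (by push_cast <;>
    ring)
  replace hA1 : A1 = ((y1 - c0) + (X * ((y2 - y1) - (y2 * X)))) := hA1.trans (by push_cast <;> ring)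
  replace hT2 : T2 = (v * ((((v * ik) * qh) * (((A1 * qh) * p3) + ((((Int.cast (6) : ℝ) * Qt) + C21)
    * p2))) + ((((Int.cast (4) : ℝ) * C3) + ((Int.cast (2) : ℝ) * C2)) + C1))) := hT2.trans (by
    push_cast <;> ring)
  replace hB : B = (((z * z) * (((c00 * (y - (Int.cast (1) : ℝ))) * i2) - (z * (e0 + (X * (e1 + (e2
    * X))))))) + (v * (((((Int.cast (2) : ℝ) * Q0) * z51) - ((((Int.cast (8) : ℝ) * Q0) * j4) * v))
    - ((a42 * j2) * z)))) := hB.trans (by push_cast <;> ring)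
  replace hg : g = ((d0 * ((dh * dh) * dh)) * (v * v)) := hg.trans (by push_cast <;> ring)
  have e0 : (((g * ((n * n) * n)) * ((e * La) + (s * Lb))) + (s * (B - ((n * iw) * T2)))) = g * n ^
    3 * (e * La + s * Lb) + s * (B - n * iw * T2) := by push_cast <;> ring
  subst hd hbe hD hF hd0 hy1 hy2 he0 he1 he2 hj2 hj4 hs hn hZ hy hf he hi1 hi2 hib hkap hik hes hfs
    hqq hX hiw hdh heh hfh hqh hdl hc0 hz hQ0 hQt hC21 hC3 hC2 hC1 hc00 ha42 hv hp2 hp3 hLa hLb hA1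
    hT2 hz51 hB hg
  exact Eq.trans rfl e0

theorem l0 : ((0 : ℤ) : ℝ) / 2 ^ 47 = 0 := by norm_num
theorem u0 : (1 / 16 : ℝ) = ((8796093022208 : ℤ) : ℝ) / 2 ^ 47 := by norm_num
theorem l1 : ((0 : ℤ) : ℝ) / 2 ^ 47 = 0 := by norm_num
theorem u1 : (13 / 32 : ℝ) = ((57174604644352 : ℤ) : ℝ) / 2 ^ 47 := by norm_num
theorem l2 : ((140737488355328 : ℤ) : ℝ) / 2 ^ 47 = 1 := by norm_num
theorem u2 : (7 / 2 : ℝ) = ((492581209243648 : ℤ) : ℝ) / 2 ^ 47 := by norm_num

theorem out0 (N : ∀ r : ℝ, 1 ≤ r → r ≤ 7 / 2 → 0 ≤ outR prog 0 [0, 0, r]) {al et r : ℝ} (a0 : 0 ≤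
    al) (b0 : al ≤ 1 / 16) (a1 : 0 ≤ et) (b1 : et ≤ 13 / 32) (a2 : 1 ≤ r) (b2 : r ≤ 7 / 2) (p0 : 0 <
    al) (p1 : 0 < et) : 0 < outR prog 0 [al, et, r] :=
  gd 0 (by decide) [al, et, r] (.cons ⟨l0.le.trans a0, b0.trans u0.le⟩ (.cons ⟨l1.le.trans a1,
    b1.trans u1.le⟩ (.cons ⟨l2.le.trans a2, b2.trans u2.le⟩ (.nil)))) ⟨fun _ ↦ p0, fun _ ↦ p1,
    nofun, trivial⟩ (List.forall_mem_nil _) (Van.of0 rfl) (fun _ _ _ _ _ _ _ y2 a2 b2 ↦ N y2
    (l2.ge.trans a2) (b2.trans u2.ge))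

end Pool.Agent.Lib.MP_d6150d_an.S6Bc
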