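import Pool.Agent.Lib.MP_d6150d_an.S6BdD

/-! A generated chart: the computations. -/

namespace Pool.Agent.Lib.MP_d6150d_an.S6Bd

theorem k0 : chk C 0x888832188809120 [(0, 8796093022208), (0, 7146825580544), (0, 35184372088832),
    (0, 5497558138880)] = true := by
  decide +kernel

theorem k1 : chk C 0x88820 [(0, 8796093022208), (7146825580544, 14293651161088), (0,
    35184372088832), (0, 5497558138880)] = true := by
  decide +kernel

theorem k2 : chk C 0x881 [(0, 8796093022208), (0, 14293651161088), (35184372088832, 70368744177664),
    (0, 5497558138880)] = true := by
  decide +kernel

theorem k3 : chk C 0x881 [(0, 8796093022208), (0, 14293651161088), (70368744177664,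
    140737488355328), (0, 5497558138880)] = true := by
  decide +kernel

theorem k4 : chk C 0x88888832022 [(0, 8796093022208), (14293651161088, 28587302322176), (0,
    140737488355328), (0, 5497558138880)] = true := by
  decide +kernel

theorem k5 : chk C 0x88081880813 [(0, 4398046511104), (28587302322176, 42880953483264), (0,
    35184372088832), (0, 5497558138880)] = true := by
  decide +kernel

theorem k6 : chk C 0x88381 [(4398046511104, 8796093022208), (28587302322176, 42880953483264), (0,
    35184372088832), (0, 5497558138880)] = true := by
  decide +kernel

theorem k7 : chk C 0x881 [(0, 8796093022208), (28587302322176, 42880953483264), (35184372088832,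
    70368744177664), (0, 5497558138880)] = true := by
  decide +kernel

theorem k8 : chk C 0x883888320 [(0, 8796093022208), (42880953483264, 50027779063808), (0,
    35184372088832), (0, 2748779069440)] = true := by
  decide +kernel

theorem k9 : chk C 0x883818838838120 [(0, 4398046511104), (50027779063808, 57174604644352), (0,
    35184372088832), (0, 1374389534720)] = true := by
  decide +kernel

end Pool.Agent.Lib.MP_d6150d_an.S6Bd
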