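import Pool.Agent.Lib.MP_d6150d_an.S6BdD

/-! A generated chart: the computations. -/

namespace Pool.Agent.Lib.MP_d6150d_an.S6Bd

theorem k10 : chk C 0x8818880832812 [(0, 2199023255552), (50027779063808, 57174604644352), (0,
    35184372088832), (1374389534720, 2748779069440)] = true := by
  decide +kernel

theorem k11 : chk C 0x8828381 [(2199023255552, 4398046511104), (50027779063808, 57174604644352), (0,
    35184372088832), (1374389534720, 2748779069440)] = true := by
  decide +kernel

theorem k12 : chk C 0x88381882813 [(4398046511104, 8796093022208), (50027779063808, 57174604644352),
    (0, 35184372088832), (0, 2748779069440)] = true := by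
  decide +kernel

theorem k13 : chk C 0x88388838120 [(0, 8796093022208), (42880953483264, 50027779063808), (0,
    35184372088832), (2748779069440, 5497558138880)] = true := by
  decide +kernel

theorem k14 : chk C 0x880 [(0, 4398046511104), (50027779063808, 53601191854080), (0,
    17592186044416), (2748779069440, 4123168604160)] = true := by
  decide +kernel

theorem k15 : chk C 0x8838808188130 [(0, 4398046511104), (53601191854080, 57174604644352), (0,
    17592186044416), (2748779069440, 4123168604160)] = true := by
  decide +kernel

theorem k16 : chk C 0x883 [(0, 4398046511104), (50027779063808, 53601191854080), (0,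
    17592186044416), (4123168604160, 5497558138880)] = true := by
  decide +kernel

theorem k17 : chk C 0x8808381882813 [(0, 2199023255552), (53601191854080, 57174604644352), (0,
    17592186044416), (4123168604160, 5497558138880)] = true := by
  decide +kernel

theorem k18 : chk C 0x88832 [(2199023255552, 4398046511104), (53601191854080, 57174604644352), (0,
    17592186044416), (4123168604160, 5497558138880)] = true := by
  decide +kernel

end Pool.Agent.Lib.MP_d6150d_an.S6Bd
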