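import Pool.Agent.Lib.MP_d6150d_an.S6BdD

/-! A generated chart: the computations. -/

namespace Pool.Agent.Lib.MP_d6150d_an.S6Bd

theorem k19 : chk C 0x88381883810 [(0, 4398046511104), (50027779063808, 57174604644352),
    (17592186044416, 35184372088832), (2748779069440, 5497558138880)] = true := by
  decide +kernel

theorem k20 : chk C 0x888228188083813 [(4398046511104, 8796093022208), (50027779063808,
    57174604644352), (0, 35184372088832), (2748779069440, 5497558138880)] = true := by
  decide +kernel

theorem k21 : chk C 0x883 [(0, 8796093022208), (42880953483264, 50027779063808), (35184372088832,
    70368744177664), (0, 5497558138880)] = true := by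
  decide +kernel

theorem k22 : chk C 0x883883810883813 [(0, 8796093022208), (50027779063808, 57174604644352),
    (35184372088832, 70368744177664), (0, 5497558138880)] = true := by
  decide +kernel

theorem k23 : chk C 0x8881288138181 [(0, 8796093022208), (28587302322176, 57174604644352),
    (70368744177664, 140737488355328), (0, 5497558138880)] = true := by
  decide +kernel

end Pool.Agent.Lib.MP_d6150d_an.S6Bd
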