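import Pool.Agent.Lib.MP_d6150d_an.S6BeD

/-! A generated chart: the computations. -/

namespace Pool.Agent.Lib.MP_d6150d_an.S6Be

theorem k0 : chk C 0x88181 [(0, 8796093022208), (0, 57174604644352), (0, 5629499534214)] = true :=
    by
  decide +kernel

end Pool.Agent.Lib.MP_d6150d_an.S6Be
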