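import Pool.Agent.Lib.MP_d6150d_an.GMac
import Pool.Agent.Lib.MP_d6150d_an.S6BeK0

/-! A generated chart: the inequality. -/

namespace Pool.Agent.Lib.MP_d6150d_an.S6Be

set_option linter.unnecessarySeqFocus false
set_option linter.unusedTactic false
set_option linter.unusedVariables false

theorem gd : Gd C [(0, 8796093022208), (0, 57174604644352), (0, 5629499534214)] := chk_sound k0

set_option maxRecDepth 100000 in
theorem eq {al et s d be F f e i1 i2 ib es fs qq iw dh eh fh qh p2 La : ℝ} (hd : d = 1 / 2 - et)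
    (hbe : be = 1 - al) (hF : F = 2 - al) (hf : f = 1 - d) (he : e = 2 * et) (hi1 : i1 = 1 / (2 * be
    + 1)) (hi2 : i2 = 1 / F) (hib : ib = 1 / be) (hes : es = e * s) (hfs : fs = f * s ^ 2) (hqq : qq
    = d * ib + 2 * es * i1 - fs * i2) (hiw : iw = 1 / (d + es - fs)) (hdh : dh = d * iw) (heh : eh =
    es * iw) (hfh : fh = fs * iw) (hqh : qh = qq * iw) (hp2 : p2 = be * eh - al * dh - F * fh) (hLa
    : La = (3 * be - 1) * p2 * i1 + be * qh * (be - 3 * p2)) : outR prog 0 [al, et, s] = La := by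
  replace hd : d = (((Int.cast (1) : ℝ) / (Nat.cast 2 : ℝ)) - et) := hd.trans (by push_cast <;>
    ring)
  replace hbe : be = ((Int.cast (1) : ℝ) - al) := hbe.trans (by push_cast <;> ring)
  replace hF : F = ((Int.cast (2) : ℝ) - al) := hF.trans (by push_cast <;> ring)
  replace hf : f = ((Int.cast (1) : ℝ) - d) := hf.trans (by push_cast <;> ring)
  replace he : e = ((Int.cast (2) : ℝ) * et) := he.trans (by push_cast <;> ring)
  replace hi1 : i1 = (((Int.cast (2) : ℝ) * be) + (Int.cast (1) : ℝ))⁻¹ := hi1.trans (by push_cast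
    <;> ring)
  replace hi2 : i2 = F⁻¹ := hi2.trans (by push_cast <;> ring)
  replace hib : ib = be⁻¹ := hib.trans (by push_cast <;> ring)
  replace hes : es = (e * s) := hes.trans (by push_cast <;> ring)
  replace hfs : fs = (f * (s * s)) := hfs.trans (by push_cast <;> ring)
  replace hqq : qq = (((d * ib) + (((Int.cast (2) : ℝ) * es) * i1)) - (fs * i2)) := hqq.trans (by
    push_cast <;> ring)
  replace hiw : iw = ((d + es) - fs)⁻¹ := hiw.trans (by push_cast <;> ring)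
  replace hdh : dh = (d * iw) := hdh.trans (by push_cast <;> ring)
  replace heh : eh = (es * iw) := heh.trans (by push_cast <;> ring)
  replace hfh : fh = (fs * iw) := hfh.trans (by push_cast <;> ring)
  replace hqh : qh = (qq * iw) := hqh.trans (by push_cast <;> ring)
  replace hp2 : p2 = (((be * eh) - (al * dh)) - (F * fh)) := hp2.trans (by push_cast <;> ring)
  replace hLa : La = ((((((Int.cast (3) : ℝ) * be) - (Int.cast (1) : ℝ)) * p2) * i1) + ((be * qh) *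
    (be - ((Int.cast (3) : ℝ) * p2)))) := hLa.trans (by push_cast <;> ring)
  subst hd hbe hF hf he hi1 hi2 hib hes hfs hqq hiw hdh heh hfh hqh hp2 hLa
  exact rfl

theorem l0 : ((0 : ℤ) : ℝ) / 2 ^ 47 = 0 := by norm_num
theorem u0 : (1 / 16 : ℝ) = ((8796093022208 : ℤ) : ℝ) / 2 ^ 47 := by norm_num
theorem l1 : ((0 : ℤ) : ℝ) / 2 ^ 47 = 0 := by norm_num
theorem u1 : (13 / 32 : ℝ) = ((57174604644352 : ℤ) : ℝ) / 2 ^ 47 := by norm_num
theorem l2 : ((0 : ℤ) : ℝ) / 2 ^ 47 = 0 := by norm_num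
theorem u2 : (1 / 25 : ℝ) ≤ ((5629499534214 : ℤ) : ℝ) / 2 ^ 47 := by norm_num

theorem out0 {al et s : ℝ} (a0 : 0 ≤ al) (b0 : al ≤ 1 / 16) (a1 : 0 ≤ et) (b1 : et ≤ 13 / 32) (a2 :
    0 ≤ s) (b2 : s ≤ 1 / 25) : 0 < outR prog 0 [al, et, s] :=
  gd 0 (by decide) [al, et, s] (.cons ⟨l0.le.trans a0, b0.trans u0.le⟩ (.cons ⟨l1.le.trans a1,
    b1.trans u1.le⟩ (.cons ⟨l2.le.trans a2, b2.trans u2⟩ (.nil)))) ⟨nofun, nofun, nofun, trivial⟩
    (List.forall_mem_nil _) (Van.of0 rfl) (nofun)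

theorem pos0 {al et s d be F f e i1 i2 ib es fs qq iw dh eh fh qh p2 La : ℝ} (hd : d = 1 / 2 - et)
    (hbe : be = 1 - al) (hF : F = 2 - al) (hf : f = 1 - d) (he : e = 2 * et) (hi1 : i1 = 1 / (2 * be
    + 1)) (hi2 : i2 = 1 / F) (hib : ib = 1 / be) (hes : es = e * s) (hfs : fs = f * s ^ 2) (hqq : qq
    = d * ib + 2 * es * i1 - fs * i2) (hiw : iw = 1 / (d + es - fs)) (hdh : dh = d * iw) (heh : eh =
    es * iw) (hfh : fh = fs * iw) (hqh : qh = qq * iw) (hp2 : p2 = be * eh - al * dh - F * fh) (hLa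
    : La = (3 * be - 1) * p2 * i1 + be * qh * (be - 3 * p2)) (a0 : 0 ≤ al) (b0 : al ≤ 1 / 16) (a1 :
    0 ≤ et) (b1 : et ≤ 13 / 32) (a2 : 0 ≤ s) (b2 : s ≤ 1 / 25) : 0 < La :=
  have e := eq hd hbe hF hf he hi1 hi2 hib hes hfs hqq hiw hdh heh hfh hqh hp2 hLa
  (out0 a0 b0 a1 b1 a2 b2).trans_eq e

end Pool.Agent.Lib.MP_d6150d_an.S6Be
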