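import Pool.Agent.Lib.MP_d6150d_an.S6BOut
import Pool.Agent.Lib.MP_d6150d_an.S6Ba
import Pool.Agent.Lib.MP_d6150d_an.S6Bb
import Pool.Agent.Lib.MP_d6150d_an.S6Bc
import Pool.Agent.Lib.MP_d6150d_an.S6Bd
import Pool.Agent.Lib.MP_d6150d_an.S6Be

/-! The strip `F` just below `2`, `-1 / 2 < D ≤ -3 / 32`. -/

namespace Pool.Agent.Lib.MP_d6150d_an.S6B

open Real Set Filter Topology Asymptotics

noncomputable def ikC (al et : ℝ) : ℝ := (1 - al) * (2 * (1 - al) + 1) * (2 - al) /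
  ((1 / 2 - et) * (2 * (1 - al) + 1) * (2 - al) +
    (1 - al) * (4 * et * (2 - al) - (1 - (1 / 2 - et)) * (2 * (1 - al) + 1)))

theorem eqa (al et r : ℝ) : outR S6Ba.prog 0 [al, et, r] =
    (co al et (ikC al et)).gC (-(1 / 2 - et)) (2 - al) r ∧ outR (S6Ba.prog.take 49) 0 [al, et, r] =
      1 - r ^ 2 * (ikC al et * muR (-(1 / 2 - et)) (2 - al) r) :=
  S6Ba.eq rfl rfl rfl rfl rfl rfl rfl rfl rfl rfl rfl rfl rfl rfl rfl rfl rfl rfl rfl rfl rfl rfl
    rfl rfl rfl rfl rfl rfl rfl rfl rfl rfl rfl rfl rfl rfl rfl rfl rfl rfl rfl rfl rfl rfl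
    rfl

theorem eqb (al et r : ℝ) : outR S6Bb.prog 0 [al, et, r] =
    (co al et (ikC al et)).gC (-(1 / 2 - et)) (2 - al) (-r) :=
  S6Bb.eq rfl rfl rfl rfl rfl rfl rfl rfl rfl rfl rfl rfl rfl rfl rfl rfl rfl rfl rfl rfl rfl rfl
    rfl rfl rfl rfl rfl rfl rfl rfl rfl rfl rfl rfl rfl rfl rfl rfl rfl rfl rfl rfl rfl rfl
    rfl

theorem eqc {al et r s n Z : ℝ} (hs : s = exp (-r)) (hn : n = exp (-(al * r)))
    (hZ : Z = exp (-(2 * (1 - al) * r))) : outR S6Bc.prog 0 [al, et, r] =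
    gg al et s Z * n ^ 3 * (2 * et * La al et s + s * Lb al et s) +
      s * (BB al et s n Z - n * iw et s * T2 al et s Z) :=
  S6Bc.eq rfl rfl rfl rfl rfl rfl rfl rfl rfl rfl rfl rfl hs hn hZ
    rfl rfl rfl rfl rfl rfl rfl rfl rfl rfl rfl rfl rfl rfl rfl rfl rfl rfl rfl rfl rfl rfl
    rfl rfl rfl rfl rfl rfl rfl rfl rfl rfl rfl rfl rfl rfl rfl rfl

theorem eqd {al et nu ze s n Z : ℝ} (hn : n = (1 - nu) * exp (-(7 / 2 * al))) (hs : s = n * ze)
    (hZ : Z = ze ^ 2) : outR S6Bd.prog 0 [al, et, nu, ze] =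
    gg al et s Z * (16 * (2 * et) * La al et s + n ^ 3 * Lb al et s) - n * iw et s * T2 al et s Z +
      BB al et s n Z :=
  S6Bd.eq rfl rfl rfl rfl rfl rfl rfl rfl rfl rfl rfl rfl rfl hn hs hZ
    rfl rfl rfl rfl rfl rfl rfl rfl rfl rfl rfl rfl rfl rfl rfl rfl rfl rfl rfl rfl rfl rfl
    rfl rfl rfl rfl rfl rfl rfl rfl rfl rfl rfl rfl rfl rfl rfl rfl

theorem iso {ik t : ℝ} : (co 0 0 ik).gC (-(1 / 2 - 0)) (2 - 0) t = 0 :=
  gC_iso (by ring) (by ring) (by simp [co]) (by simp [co]) (by simp [co])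

variable {al et t : ℝ} (a0 : 0 < al) (a1 : al ≤ 1 / 16) (e0 : 0 < et) (e1 : et ≤ 13 / 32)
include a0 a1 e0 e1

omit a0 e0 e1 in
theorem ikC_eq : ikC al et = 1 / kap al et := by
  have h1 : 1 - al ≠ 0 := by linarith
  have h2 : 2 * (1 - al) + 1 ≠ 0 := by linarith
  have h3 : 2 - al ≠ 0 := by linarith
  rw [ikC, ← one_div_div, kap]
  congr 1
  field_simp
  ring

theorem bounds : 0 < kap al et ∧ (∀ s, 0 < s → s < 1 → 0 < qq al et s) ∧
    ∀ s, 31 / 15 < s ^ 2 → qq al et s < 0 := by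
  have r1 : 1 / (1 - al) * (1 - al) = 1 := one_div_mul_cancel (by linarith)
  have r2 : 1 / (2 * (1 - al) + 1) * (2 * (1 - al) + 1) = 1 := one_div_mul_cancel (by linarith)
  have r3 : 1 / (2 - al) * (2 - al) = 1 := one_div_mul_cancel (by linarith)
  simp only [kap, qq]
  generalize 1 / (1 - al) = ib, 1 / (2 * (1 - al) + 1) = i1, 1 / (2 - al) = i2 at *
  have b0 : 1 ≤ ib := by nlinarith
  have b1 : ib ≤ 16 / 15 := by nlinarith
  have c0 : 1 / 3 ≤ i1 := by nlinarith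
  have c1 : i1 ≤ 8 / 23 := by nlinarith
  have d0 : 1 / 2 ≤ i2 := by nlinarith
  have d1 : i2 ≤ 16 / 31 := by nlinarith
  have k : 0 < (1 / 2 - et) * ib + 2 * (2 * et) * i1 - (1 - (1 / 2 - et)) * i2 := by
    nlinarith [mul_le_mul_of_nonneg_left b0 (show 0 ≤ 1 / 2 - et by linarith),
      mul_le_mul_of_nonneg_left c0 e0.le,
      mul_le_mul_of_nonneg_left d1 (show 0 ≤ 1 / 2 + et by linarith)]
  refine ⟨k, fun s s0 s1 ↦ ?_, fun s hs ↦ ?_⟩
  · have h1 : 0 ≤ (1 / 2 - et) * ib * (1 - s ^ 2) :=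
      mul_nonneg (mul_nonneg (by linarith) (by linarith)) (by nlinarith)
    have h2 : 0 ≤ et * i1 * (s * (1 - s)) := by have := sub_pos.2 s1; positivity
    linarith [mul_pos (pow_pos s0 2) k]
  · have h1 : ib = i2 * (ib + 1) := by linear_combination i2 * r1 - ib * r3
    have h2 : i2 * (ib + 1) < i2 * s ^ 2 := mul_lt_mul_of_pos_left (by linarith) (by linarith)
    have h3 : 4 * i1 * s ≤ ib + i2 * s ^ 2 := by
      nlinarith [sq_nonneg (s - 4 * i1), mul_le_mul_of_nonneg_right d0 (sq_nonneg s)]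
    linarith [mul_le_mul_of_nonneg_left h3 e0.le]

variable (ht : t ∈ JR (-(1 / 2 - et)))
include ht

theorem right (t0 : 0 < t) (hv : vR (-(1 / 2 - et)) (2 - al) t ≤ kap al et) :
    (co al et (1 / kap al et)).dB (-(1 / 2 - et)) (2 - al) t < 0 := by
  obtain ⟨k0, -, k2⟩ := bounds a0 a1 e0 e1
  have t1 : t ≤ 3 / 8 := by
    by_contra! k
    have h1 := (quadratic_le_exp_of_nonneg (by norm_num)).trans (exp_le_exp.2 k.le)
    have h2 := mul_neg_of_pos_of_neg (exp_pos (2 * (1 - al) * t)) (k2 (exp t) (by nlinarith))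
    rw [vB (by linarith)] at hv; linarith
  rw [← ikC_eq a1]
  refine neg_of_mul_neg_right (dB_sign ht t0.ne' ((S6Ba.out0 (fun al et _ _ _ _ ↦
    gC_right.congr_left fun r ↦ (eqa al et r).1.symm) (fun r _ _ ↦ ((eqa 0 0 r).1.trans iso).ge)
      a0.le a1 e0.le e1 t0.le t1 a0 e0 t0 ?_).trans_eq (eqa al et t).1)) t0.le
  rw [(eqa al et t).2, ikC_eq a1, mul_left_comm, ← vR, one_div, ← div_eq_inv_mul, sub_nonneg]
  exact (div_le_one k0).2 hv

theorem left (t0 : t < 0) : 0 < (co al et (1 / kap al et)).dB (-(1 / 2 - et)) (2 - al) t := by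
  have k0 := (bounds a0 a1 e0 e1).1
  obtain ⟨r, rfl⟩ : ∃ r, t = -r := ⟨-t, (neg_neg t).symm⟩
  have r0 : 0 < r := by linarith
  rcases le_total r 1 with k | k
  · rw [← ikC_eq a1]
    exact pos_of_mul_neg_right (dB_sign ht t0.ne ((S6Bb.out0 (fun al et _ _ _ _ ↦
      gC_left.congr_left fun r ↦ (eqb al et r).symm) (fun r _ _ ↦ ((eqb 0 0 r).trans iso).ge)
        a0.le a1 e0.le e1 r0.le k a0 e0 r0).trans_eq (eqb al et r))) t0.le
  obtain ⟨s, hs⟩ : ∃ s, s = exp (-r) := ⟨_, rfl⟩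
  obtain ⟨n, hn⟩ : ∃ n, n = exp (-(al * r)) := ⟨_, rfl⟩
  obtain ⟨Z, hZ⟩ : ∃ Z, Z = exp (-(2 * (1 - al) * r)) := ⟨_, rfl⟩
  have K := key (by linarith) k0.ne' ht t0 hs (hn.trans (by rw [mul_neg])) (hZ.trans (by rw [mul_neg]))
  have s0 : 0 < s := hs ▸ exp_pos _
  refine (mul_pos_iff_of_pos_left s0).1 (K ▸ ?_)
  rcases le_or_gt r (7 / 2) with k1 | k1
  · refine (S6Bc.out0 (fun r r1 _ ↦ ?_) a0.le a1 e0.le e1 k k1 a0 e0).trans_eq (eqc hs hn hZ)
    have h := out_iso (n := exp (-(0 * r))) (Z := exp (-(2 * (1 - 0) * r))) (exp_pos (-r)).le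
      (exp_lt_one_iff.2 (by linarith)) (by simp) (by rw [sq, ← exp_add]; congr 1; ring)
    rw [eqc rfl rfl rfl]
    simp only [zero_mul, neg_zero, exp_zero] at h ⊢
    exact le_of_eq (by linear_combination -exp (-r) * h)
  obtain ⟨ze, hz⟩ : ∃ ze, ze = exp (-((1 - al) * r)) := ⟨_, rfl⟩
  have x3 : 20 ≤ exp 3 := by
    have h := pow_le_pow_left₀ (by norm_num) exp_one_gt_d9.le 3
    rw [← exp_nat_mul] at h
    norm_num at h ⊢; linarith
  have z1 : ze ≤ 5 / 128 := by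
    have h1 := mul_le_mul x3 (add_one_le_exp (9 / 32)) (by norm_num) (exp_pos _).le
    rw [← exp_add] at h1
    rw [hz, exp_neg, inv_le_comm₀ (exp_pos _) (by norm_num)]
    exact le_trans (by linarith) (exp_le_exp.2 (show 3 + 9 / 32 ≤ _ by nlinarith))
  have n1 : n = (1 - (1 - exp (-(al * (r - 7 / 2))))) * exp (-(7 / 2 * al)) := by
    rw [sub_sub_cancel, ← exp_add, hn]; congr 1; ring
  have s1 : s = n * ze := by rw [hs, hn, hz, ← exp_add]; congr 1; ring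
  have z0 : 0 < ze := hz ▸ exp_pos _
  have s2 : 16 * s ≤ n ^ 3 := by
    have h1 := mul_le_mul x3 (add_one_le_exp (-(5 / 32))) (by norm_num) (exp_pos _).le
    rw [← exp_add] at h1
    have h2 : exp (3 + -(5 / 32)) ≤ exp ((1 - 3 * al) * r) := exp_le_exp.2 (by nlinarith)
    have h3 : n ^ 3 = exp ((1 - 3 * al) * r) * s := by
      rw [hn, hs, ← exp_nat_mul, ← exp_add]; congr 1; push_cast; ring
    rw [h3]; exact mul_le_mul_of_nonneg_right (by linarith) s0.le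
  have s3 : s ≤ 1 / 25 := by
    have : n ≤ 1 := hn ▸ exp_le_one_iff.2 (neg_nonpos.2 (by positivity))
    nlinarith
  have p1 : 0 < La al et s := S6Be.pos0 rfl rfl rfl rfl rfl rfl rfl rfl rfl rfl rfl rfl rfl rfl rfl
    rfl rfl rfl a0.le a1 e0.le e1 s0.le s3
  have w0 : 0 < iw et s := one_div_pos.2 (by nlinarith [mul_pos e0 s0])
  have p2 : 0 ≤ gg al et s Z :=
    mul_nonneg (mul_nonneg (by linarith) (pow_nonneg (mul_nonneg (by linarith) w0.le) 3)) (sq_nonneg _)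
  have u0 := exp_lt_one_iff.2 (neg_neg_of_pos (mul_pos a0 (sub_pos.2 k1)))
  have p3 := (S6Bd.out0 (fun ze h0 h1 ↦ ?_) a0.le a1 e0.le e1 (sub_pos.2 u0).le
    (sub_le_self _ (exp_pos _).le) z0.le z1 a0 e0 (sub_pos.2 u0)).trans_eq
      (eqd n1 s1 (Z := Z) (by rw [hZ, hz, sq, ← exp_add]; congr 1; ring))
  · linarith [mul_pos s0 p3, mul_le_mul_of_nonneg_left s2
      (mul_nonneg p2 (mul_pos (mul_pos two_pos e0) p1).le)]
  have h := out_iso (n := 1) h0 (by linarith) rfl rfl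
  rw [eqd (n := 1) (s := ze) (by simp) (one_mul _).symm rfl]
  exact le_of_eq (by linear_combination -h)

omit ht in
theorem crit : Crit1 (-(1 / 2 - et)) (2 - al) := by
  obtain ⟨k0, k1, -⟩ := bounds a0 a1 e0 e1
  refine ⟨(co al et (1 / kap al et)).op, -1, fun h ↦ by simp [Gp.P, Co.op],
    fun x hx y hy x0 y0 hv ↦ ?_⟩
  have l : vR (-(1 / 2 - et)) (2 - al) y ≤ kap al et := by
    rw [← hv, vB (by linarith)]
    linarith [mul_pos (exp_pos (2 * (1 - al) * x)) (k1 _ (exp_pos x) (exp_lt_one_iff.2 x0))]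
  have p1 := left a0 a1 e0 e1 hx x0
  have p2 := right a0 a1 e0 e1 hy y0 l
  simp only [Co.dB, hv] at p1 p2
  refine ⟨?_, by linarith⟩
  have h1 : 0 ≤ 1 - 1 / kap al et * vR (-(1 / 2 - et)) (2 - al) y := by
    rw [one_div, ← div_eq_inv_mul, sub_nonneg]; exact (div_le_one k0).2 l
  have h2 : (co al et (1 / kap al et)).op.Q (vR (-(1 / 2 - et)) (2 - al) y) =
      (1 - 1 / kap al et * vR (-(1 / 2 - et)) (2 - al) y) * (co al et (1 / kap al et)).Qt
        (1 - 1 / kap al et * vR (-(1 / 2 - et)) (2 - al) y) := by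
    simp only [Gp.Q, Co.op, Co.Qt, Co.Q0, Co.Q1, co]; ring
  rw [h2, Co.Qt]
  have b1 : 0 ≤ 1 - al := by linarith
  have b2 : 0 ≤ 7 - 23 / 2 * et := by linarith
  have b3 : 0 ≤ 1 / 2 - et := by linarith
  have b4 : 0 ≤ 129 / 200 - 3 / 5 * et := by linarith
  simp only [co]
  positivity

end Pool.Agent.Lib.MP_d6150d_an.S6B

namespace Pool.Agent.Lib.MP_d6150d_an

theorem S6B_holds (D F : ℝ) (h1 : -1 / 2 < D) (h2 : D ≤ -3 / 32) (h3 : 31 / 16 ≤ F) (h4 : F < 2) :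
    NoThree D F := by
  have := S6B.crit (al := 2 - F) (et := D + 1 / 2) (by linarith) (by linarith) (by linarith)
    (by linarith)
  rw [show -(1 / 2 - (D + 1 / 2)) = D by ring, sub_sub_cancel] at this
  exact this.noThree

end Pool.Agent.Lib.MP_d6150d_an
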