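import Pool.Agent.Lib.MP_d6150d_an.S6CaD

/-! A generated chart: the computations. -/

namespace Pool.Agent.Lib.MP_d6150d_an.S6Ca

theorem k0 : chk C 0x8818812 [(0, 4398046511104), (0, 211106232532992), (0, 35184372088832)] = true
    := by
  decide +kernel

theorem k1 : chk C 0x881881288188021 [(4398046511104, 8796093022208), (0, 211106232532992), (0,
    35184372088832)] = true := by
  decide +kernel

theorem k2 : chk C 0x8881802880812 [(0, 4398046511104), (211106232532992, 422212465065984), (0,
    35184372088832)] = true := by
  decide +kernel

theorem k3 : chk C 0x881881288188112 [(4398046511104, 8796093022208), (211106232532992,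
    422212465065984), (0, 35184372088832)] = true := by
  decide +kernel

theorem k4 : chk C 0xaa08818810880881112 [(0, 8796093022208), (0, 422212465065984), (35184372088832,
    70368744177664)] = true := by
  decide +kernel

end Pool.Agent.Lib.MP_d6150d_an.S6Ca
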