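import Pool.Agent.Lib.MP_d6150d_an.S6CbD

/-! A generated chart: the computations. -/

namespace Pool.Agent.Lib.MP_d6150d_an.S6Cb

theorem k0 : chk C 0x8818810880811 [(0, 8796093022208), (0, 211106232532992), (0, 21990232555520)] =
    true := by
  decide +kernel

theorem k1 : chk C 0x881808811 [(0, 8796093022208), (0, 211106232532992), (21990232555520,
    43980465111040)] = true := by
  decide +kernel

theorem k2 : chk C 0x888208820 [(0, 4398046511104), (211106232532992, 316659348799488), (0,
    21990232555520)] = true := by
  decide +kernel

theorem k3 : chk C 0x88082880820 [(0, 4398046511104), (316659348799488, 422212465065984), (0,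
    21990232555520)] = true := by
  decide +kernel

theorem k4 : chk C 0x8808801880811 [(4398046511104, 8796093022208), (211106232532992,
    422212465065984), (0, 21990232555520)] = true := by
  decide +kernel

theorem k5 : chk C 0x8818811881800 [(0, 8796093022208), (211106232532992, 422212465065984),
    (21990232555520, 43980465111040)] = true := by
  decide +kernel

theorem k6 : chk C 0x88180888011 [(0, 8796093022208), (0, 211106232532992), (43980465111040,
    87960930222080)] = true := by
  decide +kernel

theorem k7 : chk C 0x8808801881800 [(0, 8796093022208), (211106232532992, 422212465065984),
    (43980465111040, 87960930222080)] = true := by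
  decide +kernel

theorem k8 : chk C 0x8880188801088188102 [(0, 8796093022208), (0, 105553116266496), (87960930222080,
    175921860444160)] = true := by
  decide +kernel

end Pool.Agent.Lib.MP_d6150d_an.S6Cb
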