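import Pool.Agent.Lib.MP_d6150d_an.S6CbD

/-! A generated chart: the computations. -/

namespace Pool.Agent.Lib.MP_d6150d_an.S6Cb

theorem k9 : chk C 0x888018820 [(0, 8796093022208), (105553116266496, 211106232532992),
    (87960930222080, 175921860444160)] = true := by
  decide +kernel

theorem k10 : chk C 0x8808811881808818020 [(0, 8796093022208), (211106232532992, 422212465065984),
    (87960930222080, 175921860444160)] = true := by
  decide +kernel

theorem k11 : chk C 0x88188108808882111 [(0, 4398046511104), (0, 422212465065984), (175921860444160,
    263882790666240)] = true := by
  decide +kernel

theorem k12 : chk C 0x8818808108808880111 [(0, 4398046511104), (0, 422212465065984),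
    (263882790666240, 351843720888320)] = true := by
  decide +kernel

theorem k13 : chk C 0x8818812888018882121 [(4398046511104, 8796093022208), (0, 211106232532992),
    (175921860444160, 351843720888320)] = true := by
  decide +kernel

theorem k14 : chk C 0x881880288188021 [(4398046511104, 8796093022208), (211106232532992,
    422212465065984), (175921860444160, 351843720888320)] = true := by
  decide +kernel

end Pool.Agent.Lib.MP_d6150d_an.S6Cb
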