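import Pool.Agent.Lib.MP_d6150d_an.S6CcD

/-! A generated chart: the computations. -/

namespace Pool.Agent.Lib.MP_d6150d_an.S6Cc

theorem k0 : chk C 0x88288088120 [(8796093022208, 60473139527680), (0, 4398046511104), (0,
    35184372088832)] = true := by
  decide +kernel

theorem k1 : chk C 0x88288088120 [(8796093022208, 60473139527680), (4398046511104, 8796093022208),
    (0, 35184372088832)] = true := by
  decide +kernel

theorem k2 : chk C 0x8880282888028218820 [(60473139527680, 112150186033152), (0, 4398046511104), (0,
    35184372088832)] = true := by
  decide +kernel

theorem k3 : chk C 0x880828808218820 [(60473139527680, 112150186033152), (4398046511104,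
    8796093022208), (0, 35184372088832)] = true := by
  decide +kernel

theorem k4 : chk C 0x881808088881100 [(8796093022208, 112150186033152), (0, 8796093022208),
    (35184372088832, 52776558133248)] = true := by
  decide +kernel

theorem k5 : chk C 0xadd1ada0102 [(8796093022208, 60473139527680), (0, 8796093022208),
    (52776558133248, 70368744177664)] = true := by
  decide +kernel

theorem k6 : chk C 0xa8a0a018d8102 [(60473139527680, 112150186033152), (0, 8796093022208),
    (52776558133248, 70368744177664)] = true := by
  decide +kernel

end Pool.Agent.Lib.MP_d6150d_an.S6Cc
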