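import Pool.Agent.Lib.MP_d6150d_an.S6CM
import Pool.Agent.Lib.MP_d6150d_an.S6CcK0

/-! A generated chart: the inequality. -/

namespace Pool.Agent.Lib.MP_d6150d_an.S6Cc

set_option linter.unnecessarySeqFocus false
set_option linter.unusedTactic false
set_option linter.unusedVariables false

theorem gd : Gd C [(8796093022208, 112150186033152), (0, 8796093022208), (0, 70368744177664)] :=
    .split 2 (.split 0 (.split 1 (chk_sound k0) (chk_sound k1)) (.split 1 (chk_sound k2) (chk_sound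
    k3))) (.split 2 (chk_sound k4) (.split 0 (chk_sound k5) (chk_sound k6)))

set_option maxRecDepth 100000 in
theorem eq {e d r D F k c s a4 a6 a8 x0 x1 x2 t x xi p1 mu z y iW M B A v E z25 : ℝ} (hD : D = -1 /
    2 - e) (hF : F = 2 + d) (hk : k = sC6k D F) (hc : c = sC6c D) (hs : s = sC6s D) (ha4 : a4 = sC6a4 D
    F) (ha6 : a6 = sC6a6 D F) (ha8 : a8 = sC6a8 D F) (hx0 : x0 = sC6x0 D F) (hx1 : x1 = sC6x1 D F) (hx2
    : x2 = sC6x2 D F) (ht : t = r) (hx : x = Real.exp t) (hxi : xi = x0 + x * (x1 - x2 * x)) (hp1 :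
    p1 = ph1 t) (hmu : mu = muR D F t) (hz : z = Real.exp ((2 * F - 2) * t)) (hy : y = Real.exp ((3
    * F - 4) * t)) (hiW : iW = (p1 * ((1 + D) * x - D))⁻¹) (hM : M = F * mu * iW) (hB : B = D * iW)
    (hA : A = (1 + 2 * D) * x * iW - 2 * B) (hv : v = t * t * mu) (hE : E = a4 + v * (a6 + v * a8))
    (hz25 : z25 = sC6cen F k c s xi t mu M z y A B E) : outR prog 0 [e, d, r] = z25 ∧ outR (prog.take
    34) 0 [e, d, r] = xi := by
  replace hD : D = (((Int.cast (-1) : ℝ) / (Nat.cast 2 : ℝ)) - e) := hD.trans (by push_cast <;>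
    ring)
  replace hF : F = ((Int.cast (2) : ℝ) + d) := hF.trans (by push_cast <;> ring)
  replace hk : k = (mC6Par D F).1 := hk.trans (mC6Par_0 ..)
  replace hc : c = (mC6Par D F).2.1 := hc.trans (mC6Par_1 ..)
  replace hs : s = (mC6Par D F).2.2.1 := hs.trans (mC6Par_2 ..)
  replace ha4 : a4 = (mC6Par D F).2.2.2.1 := ha4.trans (mC6Par_3 ..)
  replace ha6 : a6 = (mC6Par D F).2.2.2.2.1 := ha6.trans (mC6Par_4 ..)
  replace ha8 : a8 = (mC6Par D F).2.2.2.2.2.1 := ha8.trans (mC6Par_5 ..)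
  replace hx0 : x0 = (mC6Par D F).2.2.2.2.2.2.1 := hx0.trans (mC6Par_6 ..)
  replace hx1 : x1 = (mC6Par D F).2.2.2.2.2.2.2.1 := hx1.trans (mC6Par_7 ..)
  replace hx2 : x2 = (mC6Par D F).2.2.2.2.2.2.2.2 := hx2.trans (mC6Par_8 ..)
  replace hxi : xi = (x0 + (x * (x1 - (x2 * x)))) := hxi.trans (by push_cast <;> ring)
  replace hmu : mu = (mMu D F t) := hmu.trans (mMu_0 ..)
  replace hz : z = (Real.exp ((((Int.cast (2) : ℝ) * F) - (Int.cast (2) : ℝ)) * t)) := hz.trans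
    (congrArg Real.exp (by push_cast <;> ring))
  replace hy : y = (Real.exp ((((Int.cast (3) : ℝ) * F) - (Int.cast (4) : ℝ)) * t)) := hy.trans
    (congrArg Real.exp (by push_cast <;> ring))
  replace hiW : iW = (p1 * ((((Int.cast (1) : ℝ) + D) * x) - D))⁻¹ := hiW.trans (by push_cast <;>
    ring)
  replace hM : M = ((F * mu) * iW) := hM.trans (by push_cast <;> ring)
  replace hB : B = (D * iW) := hB.trans (by push_cast <;> ring)
  replace hA : A = (((((Int.cast (1) : ℝ) + ((Int.cast (2) : ℝ) * D)) * x) * iW) - ((Int.cast (2) :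
    ℝ) * B)) := hA.trans (by push_cast <;> ring)
  replace hv : v = ((t * t) * mu) := hv.trans (by push_cast <;> ring)
  replace hE : E = (a4 + (v * (a6 + (v * a8)))) := hE.trans (by push_cast <;> ring)
  replace hz25 : z25 = (mC6Cen F k c s xi t mu M z y A B E) := hz25.trans (mC6Cen_0 ..)
  subst hD hF hk hc hs ha4 ha6 ha8 hx0 hx1 hx2 ht hx hxi hp1 hmu hz hy hiW hM hB hA hv hE hz25
  exact ⟨rfl, rfl⟩

theorem l0 : ((8796093022208 : ℤ) : ℝ) / 2 ^ 47 = 1 / 16 := by norm_num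
theorem u0 : (51 / 64 : ℝ) = ((112150186033152 : ℤ) : ℝ) / 2 ^ 47 := by norm_num
theorem l1 : ((0 : ℤ) : ℝ) / 2 ^ 47 = 0 := by norm_num
theorem u1 : (1 / 16 : ℝ) = ((8796093022208 : ℤ) : ℝ) / 2 ^ 47 := by norm_num
theorem l2 : ((0 : ℤ) : ℝ) / 2 ^ 47 = 0 := by norm_num
theorem u2 : (1 / 2 : ℝ) = ((70368744177664 : ℤ) : ℝ) / 2 ^ 47 := by norm_num

theorem out0 (V2 : ∀ e d : ℝ, 1 / 16 ≤ e → e ≤ 51 / 64 → 0 ≤ d → d ≤ 1 / 16 → (fun r ↦ outR prog 0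
    [e, d, r]) =O[nhdsWithin 0 (Set.Ioi 0)] fun r : ℝ ↦ r ^ 4) {e d r : ℝ} (a0 : 1 / 16 ≤ e) (b0 : e
    ≤ 51 / 64) (a1 : 0 ≤ d) (b1 : d ≤ 1 / 16) (a2 : 0 ≤ r) (b2 : r ≤ 1 / 2) (p2 : 0 < r) (c0 : 0 ≤
    outR (prog.take 34) 0 [e, d, r]) : 0 < outR prog 0 [e, d, r] :=
  gd 0 (by decide) [e, d, r] (.cons ⟨l0.le.trans a0, b0.trans u0.le⟩ (.cons ⟨l1.le.trans a1,
    b1.trans u1.le⟩ (.cons ⟨l2.le.trans a2, b2.trans u2.le⟩ (.nil)))) ⟨nofun, nofun, fun _ ↦ p2,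
    trivial⟩ (List.forall_mem_cons.2 ⟨c0, List.forall_mem_nil _⟩) (⟨fun _ ↦ allB_iff.2 fun _ _ ↦
    trivial, fun y0 a0 b0 ↦ ⟨fun _ ↦ allB_iff.2 fun _ _ ↦ trivial, fun y1 a1 b1 ↦ ⟨fun _ ↦ V2 y0 y1
    (l0.ge.trans a0) (b0.trans u0.ge) (l1.ge.trans a1) (b1.trans u1.ge), fun _ _ _ ↦ trivial⟩⟩⟩)
    (nofun)

end Pool.Agent.Lib.MP_d6150d_an.S6Cc
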