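import Pool.Agent.Lib.MP_d6150d_an.S6CdD

/-! A generated chart: the computations. -/

namespace Pool.Agent.Lib.MP_d6150d_an.S6Cd

theorem k0 : chk C 0x88800888001 [(8796093022208, 60473139527680), (0, 8796093022208), (0,
    21990232555520)] = true := by
  decide +kernel

theorem k1 : chk C 0x88800888001 [(8796093022208, 60473139527680), (0, 8796093022208),
    (21990232555520, 43980465111040)] = true := by
  decide +kernel

theorem k2 : chk C 0x888018088180801 [(60473139527680, 112150186033152), (0, 8796093022208), (0,
    21990232555520)] = true := by
  decide +kernel

theorem k3 : chk C 0x8808801 [(60473139527680, 112150186033152), (0, 8796093022208),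
    (21990232555520, 43980465111040)] = true := by
  decide +kernel

theorem k4 : chk C 0x88180881880880100 [(8796093022208, 112150186033152), (0, 8796093022208),
    (43980465111040, 87960930222080)] = true := by
  decide +kernel

theorem k5 : chk C 0x88088810188088012 [(8796093022208, 34634616274944), (0, 8796093022208),
    (87960930222080, 175921860444160)] = true := by
  decide +kernel

theorem k6 : chk C 0x8808801 [(34634616274944, 60473139527680), (0, 8796093022208), (87960930222080,
    175921860444160)] = true := by
  decide +kernel

theorem k7 : chk C 0x88811888110 [(60473139527680, 112150186033152), (0, 8796093022208),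
    (87960930222080, 175921860444160)] = true := by
  decide +kernel

theorem k8 : chk C 0x8808818882101 [(8796093022208, 34634616274944), (0, 8796093022208),
    (175921860444160, 263882790666240)] = true := by
  decide +kernel

end Pool.Agent.Lib.MP_d6150d_an.S6Cd
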