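import Pool.Agent.Lib.MP_d6150d_an.S6CdD

/-! A generated chart: the computations. -/

namespace Pool.Agent.Lib.MP_d6150d_an.S6Cd

theorem k9 : chk C 0x888108818882101 [(8796093022208, 34634616274944), (0, 8796093022208),
    (263882790666240, 351843720888320)] = true := by
  decide +kernel

theorem k10 : chk C 0x880880188088012 [(34634616274944, 60473139527680), (0, 8796093022208),
    (175921860444160, 351843720888320)] = true := by
  decide +kernel

theorem k11 : chk C 0x881880188188012 [(60473139527680, 86311662780416), (0, 8796093022208),
    (175921860444160, 351843720888320)] = true := by
  decide +kernel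

theorem k12 : chk C 0x888118818880112 [(86311662780416, 112150186033152), (0, 8796093022208),
    (175921860444160, 351843720888320)] = true := by
  decide +kernel

end Pool.Agent.Lib.MP_d6150d_an.S6Cd
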