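import Pool.Agent.Lib.MP_d6150d_an.S6CeD

/-! A generated chart: the computations. -/

namespace Pool.Agent.Lib.MP_d6150d_an.S6Ce

theorem k0 : chk C 0x882881921 [(0, 2199023255552), (0, 6597069766656), (0, 105553116266496), (0,
    70368744177664), (0, 140737488355328)] = true := by
  decide +kernel

theorem k1 : chk C 0x8880288199021 [(2199023255552, 4398046511104), (0, 6597069766656), (0,
    105553116266496), (0, 70368744177664), (0, 140737488355328)] = true := by
  decide +kernel

theorem k2 : chk C 0x882881921 [(0, 2199023255552), (0, 6597069766656), (0, 105553116266496),
    (70368744177664, 140737488355328), (0, 140737488355328)] = true := by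
  decide +kernel

theorem k3 : chk C 0x8882288199021 [(2199023255552, 4398046511104), (0, 6597069766656), (0,
    105553116266496), (70368744177664, 140737488355328), (0, 140737488355328)] = true := by
  decide +kernel

theorem k4 : chk C 0x88811888310 [(0, 4398046511104), (0, 6597069766656), (105553116266496,
    211106232532992), (0, 140737488355328), (0, 140737488355328)] = true := by
  decide +kernel

theorem k5 : chk C 0x88088880222 [(0, 4398046511104), (6597069766656, 13194139533312), (0,
    211106232532992), (0, 140737488355328), (0, 140737488355328)] = true := by
  decide +kernel

theorem k6 : chk C 0x8828809218828819210 [(4398046511104, 8796093022208), (0, 6597069766656), (0,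
    52776558133248), (0, 70368744177664), (0, 140737488355328)] = true := by
  decide +kernel

theorem k7 : chk C 0x8828809218828819210 [(4398046511104, 8796093022208), (0, 6597069766656), (0,
    52776558133248), (70368744177664, 140737488355328), (0, 140737488355328)] = true := by
  decide +kernel

theorem k8 : chk C 0x8888011 [(4398046511104, 8796093022208), (0, 6597069766656), (52776558133248,
    105553116266496), (0, 140737488355328), (0, 140737488355328)] = true := by
  decide +kernel

end Pool.Agent.Lib.MP_d6150d_an.S6Ce
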