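import Pool.Agent.Lib.MP_d6150d_an.S6CeD

/-! A generated chart: the computations. -/

namespace Pool.Agent.Lib.MP_d6150d_an.S6Ce

theorem k9 : chk C 0x88822 [(4398046511104, 8796093022208), (6597069766656, 13194139533312), (0,
    105553116266496), (0, 140737488355328), (0, 140737488355328)] = true := by
  decide +kernel

theorem k10 : chk C 0x88812888010 [(4398046511104, 8796093022208), (0, 6597069766656),
    (105553116266496, 211106232532992), (0, 70368744177664), (0, 140737488355328)] = true := by
  decide +kernel

theorem k11 : chk C 0x88812888010 [(4398046511104, 8796093022208), (0, 6597069766656),
    (105553116266496, 211106232532992), (70368744177664, 140737488355328), (0, 140737488355328)] =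
    true := by
  decide +kernel

theorem k12 : chk C 0x88382 [(4398046511104, 8796093022208), (6597069766656, 13194139533312),
    (105553116266496, 211106232532992), (0, 140737488355328), (0, 140737488355328)] = true := by
  decide +kernel

theorem k13 : chk C 0x8828828018828828013 [(0, 2199023255552), (0, 6597069766656), (211106232532992,
    422212465065984), (0, 140737488355328), (0, 140737488355328)] = true := by
  decide +kernel

theorem k14 : chk C 0x88082 [(0, 2199023255552), (6597069766656, 13194139533312), (211106232532992,
    422212465065984), (0, 140737488355328), (0, 140737488355328)] = true := by
  decide +kernel

theorem k15 : chk C 0x881881288188123 [(2199023255552, 4398046511104), (0, 6597069766656),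
    (211106232532992, 422212465065984), (0, 140737488355328), (0, 140737488355328)] = true := by
  decide +kernel

theorem k16 : chk C 0x8828823 [(2199023255552, 4398046511104), (6597069766656, 13194139533312),
    (211106232532992, 422212465065984), (0, 140737488355328), (0, 140737488355328)] = true := by
  decide +kernel

theorem k17 : chk C 0x8818810888013 [(4398046511104, 8796093022208), (0, 6597069766656),
    (211106232532992, 316659348799488), (0, 140737488355328), (0, 140737488355328)] = true := by
  decide +kernel

theorem k18 : chk C 0x8808803 [(4398046511104, 8796093022208), (0, 6597069766656), (316659348799488,
    422212465065984), (0, 140737488355328), (0, 140737488355328)] = true := by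
  decide +kernel

end Pool.Agent.Lib.MP_d6150d_an.S6Ce
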