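import Pool.Agent.Lib.MP_d6150d_an.S6CeD

/-! A generated chart: the computations. -/

namespace Pool.Agent.Lib.MP_d6150d_an.S6Ce

theorem k19 : chk C 0x880880388088032 [(4398046511104, 8796093022208), (6597069766656,
    13194139533312), (211106232532992, 422212465065984), (0, 140737488355328), (0, 140737488355328)]
    = true := by
  decide +kernel

end Pool.Agent.Lib.MP_d6150d_an.S6Ce
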