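import Pool.Agent.Lib.MP_d6150d_an.S6CfD

/-! A generated chart: the computations. -/

namespace Pool.Agent.Lib.MP_d6150d_an.S6Cf

theorem k0 : chk C 0x8818810999002 [(8796093022208, 21715354648576), (0, 3298534883328), (0,
    4398046511104), (0, 70368744177664), (0, 140737488355328)] = true := by
  decide +kernel

theorem k1 : chk C 0x8888302 [(8796093022208, 21715354648576), (3298534883328, 6597069766656), (0,
    4398046511104), (0, 70368744177664), (0, 140737488355328)] = true := by
  decide +kernel

theorem k2 : chk C 0x8818810999002 [(8796093022208, 21715354648576), (0, 3298534883328), (0,
    4398046511104), (70368744177664, 140737488355328), (0, 140737488355328)] = true := by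
  decide +kernel

theorem k3 : chk C 0x8888102 [(8796093022208, 21715354648576), (3298534883328, 6597069766656), (0,
    4398046511104), (70368744177664, 140737488355328), (0, 140737488355328)] = true := by
  decide +kernel

theorem k4 : chk C 0x8888011899012 [(21715354648576, 34634616274944), (0, 6597069766656), (0,
    4398046511104), (0, 70368744177664), (0, 140737488355328)] = true := by
  decide +kernel

theorem k5 : chk C 0x8888011899012 [(21715354648576, 34634616274944), (0, 6597069766656), (0,
    4398046511104), (70368744177664, 140737488355328), (0, 140737488355328)] = true := by
  decide +kernel

theorem k6 : chk C 0x888018880880310 [(8796093022208, 34634616274944), (0, 6597069766656),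
    (4398046511104, 8796093022208), (0, 140737488355328), (0, 140737488355328)] = true := by
  decide +kernel

theorem k7 : chk C 0x88830882888802202 [(8796093022208, 34634616274944), (6597069766656,
    13194139533312), (0, 8796093022208), (0, 140737488355328), (0, 140737488355328)] = true := by
  decide +kernel

theorem k8 : chk C 0x8888211899012 [(34634616274944, 47553877901312), (0, 6597069766656), (0,
    4398046511104), (0, 70368744177664), (0, 140737488355328)] = true := by
  decide +kernel

end Pool.Agent.Lib.MP_d6150d_an.S6Cf
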