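import Pool.Agent.Lib.MP_d6150d_an.S6CfD

/-! A generated chart: the computations. -/

namespace Pool.Agent.Lib.MP_d6150d_an.S6Cf

theorem k9 : chk C 0x8888311899012 [(34634616274944, 47553877901312), (0, 6597069766656), (0,
    4398046511104), (70368744177664, 140737488355328), (0, 140737488355328)] = true := by
  decide +kernel

theorem k10 : chk C 0x88288199021 [(47553877901312, 60473139527680), (0, 6597069766656), (0,
    4398046511104), (0, 70368744177664), (0, 140737488355328)] = true := by
  decide +kernel

theorem k11 : chk C 0x88811899012 [(47553877901312, 60473139527680), (0, 6597069766656), (0,
    4398046511104), (70368744177664, 140737488355328), (0, 140737488355328)] = true := by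
  decide +kernel

theorem k12 : chk C 0x8808802 [(34634616274944, 60473139527680), (6597069766656, 13194139533312),
    (0, 4398046511104), (0, 140737488355328), (0, 140737488355328)] = true := by
  decide +kernel

theorem k13 : chk C 0x880888218882101 [(34634616274944, 60473139527680), (0, 13194139533312),
    (4398046511104, 8796093022208), (0, 140737488355328), (0, 140737488355328)] = true := by
  decide +kernel

theorem k14 : chk C 0x881881099099002 [(60473139527680, 86311662780416), (0, 3298534883328), (0,
    4398046511104), (0, 70368744177664), (0, 140737488355328)] = true := by
  decide +kernel

theorem k15 : chk C 0x88802 [(60473139527680, 86311662780416), (3298534883328, 6597069766656), (0,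
    4398046511104), (0, 70368744177664), (0, 140737488355328)] = true := by
  decide +kernel

theorem k16 : chk C 0x881881099099002 [(60473139527680, 86311662780416), (0, 3298534883328), (0,
    4398046511104), (70368744177664, 140737488355328), (0, 140737488355328)] = true := by
  decide +kernel

theorem k17 : chk C 0x88802 [(60473139527680, 86311662780416), (3298534883328, 6597069766656), (0,
    4398046511104), (70368744177664, 140737488355328), (0, 140737488355328)] = true := by
  decide +kernel

theorem k18 : chk C 0x8838883188101 [(60473139527680, 86311662780416), (0, 6597069766656),
    (4398046511104, 8796093022208), (0, 140737488355328), (0, 140737488355328)] = true := by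
  decide +kernel

end Pool.Agent.Lib.MP_d6150d_an.S6Cf
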