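import Pool.Agent.Lib.MP_d6150d_an.S6CfD

/-! A generated chart: the computations. -/

namespace Pool.Agent.Lib.MP_d6150d_an.S6Cf

theorem k19 : chk C 0x8888092118881929010 [(86311662780416, 112150186033152), (0, 3298534883328),
    (0, 2199023255552), (0, 70368744177664), (0, 140737488355328)] = true := by
  decide +kernel

theorem k20 : chk C 0x888188201 [(86311662780416, 112150186033152), (0, 3298534883328),
    (2199023255552, 4398046511104), (0, 70368744177664), (0, 140737488355328)] = true := by
  decide +kernel

theorem k21 : chk C 0x882 [(86311662780416, 112150186033152), (3298534883328, 6597069766656), (0,
    4398046511104), (0, 70368744177664), (0, 140737488355328)] = true := by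
  decide +kernel

theorem k22 : chk C 0x8888019218881929010 [(86311662780416, 112150186033152), (0, 3298534883328),
    (0, 2199023255552), (70368744177664, 140737488355328), (0, 140737488355328)] = true := by
  decide +kernel

theorem k23 : chk C 0x888188201 [(86311662780416, 112150186033152), (0, 3298534883328),
    (2199023255552, 4398046511104), (70368744177664, 140737488355328), (0, 140737488355328)] = true
    := by
  decide +kernel

theorem k24 : chk C 0x882 [(86311662780416, 112150186033152), (3298534883328, 6597069766656), (0,
    4398046511104), (70368744177664, 140737488355328), (0, 140737488355328)] = true := by
  decide +kernel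

theorem k25 : chk C 0x8888088028808802311 [(86311662780416, 112150186033152), (0, 6597069766656),
    (4398046511104, 8796093022208), (0, 140737488355328), (0, 140737488355328)] = true := by
  decide +kernel

theorem k26 : chk C 0x88388308828881202 [(60473139527680, 112150186033152), (6597069766656,
    13194139533312), (0, 8796093022208), (0, 140737488355328), (0, 140737488355328)] = true := by
  decide +kernel

end Pool.Agent.Lib.MP_d6150d_an.S6Cf
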