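import Pool.Agent.Lib.MP_d6150d_an.S6CM
import Pool.Agent.Lib.MP_d6150d_an.S6CfK0
import Pool.Agent.Lib.MP_d6150d_an.S6CfK1
import Pool.Agent.Lib.MP_d6150d_an.S6CfK2

/-! A generated chart: the inequality. -/

namespace Pool.Agent.Lib.MP_d6150d_an.S6Cf

set_option linter.unnecessarySeqFocus false
set_option linter.unusedTactic false
set_option linter.unusedVariables false

theorem gd : Gd C [(8796093022208, 112150186033152), (0, 13194139533312), (0, 8796093022208), (0,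
    140737488355328), (0, 140737488355328)] := .split 0 (.split 0 (.split 1 (.split 2 (.split 0
    (.split 3 (.split 1 (chk_sound k0) (chk_sound k1)) (.split 1 (chk_sound k2) (chk_sound k3)))
    (.split 3 (chk_sound k4) (chk_sound k5))) (chk_sound k6)) (chk_sound k7)) (.split 2 (.split 1
    (.split 0 (.split 3 (chk_sound k8) (chk_sound k9)) (.split 3 (chk_sound k10) (chk_sound k11)))
    (chk_sound k12)) (chk_sound k13))) (.split 1 (.split 0 (.split 2 (.split 3 (.split 1 (chk_sound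
    k14) (chk_sound k15)) (.split 1 (chk_sound k16) (chk_sound k17))) (chk_sound k18)) (.split 2
    (.split 3 (.split 1 (.split 2 (chk_sound k19) (chk_sound k20)) (chk_sound k21)) (.split 1
    (.split 2 (chk_sound k22) (chk_sound k23)) (chk_sound k24))) (chk_sound k25))) (chk_sound k26))

set_option maxRecDepth 100000 in
theorem eq {e x d g r D F k c s a4 a6 a8 x0 x1 x2 l h z y xi v iV M B A E z23 : ℝ} (hD : D = -1 / 2
    - e) (hF : F = 2 + d) (hk : k = sC6k D F) (hc : c = sC6c D) (hs : s = sC6s D) (ha4 : a4 = sC6a4 D F)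
    (ha6 : a6 = sC6a6 D F) (ha8 : a8 = sC6a8 D F) (hx0 : x0 = sC6x0 D F) (hx1 : x1 = sC6x1 D F) (hx2 :
    x2 = sC6x2 D F) (hl : l = d * (5 / 3 * x + g * (1 / 32 + 5 / 6 * x))) (hh : h = x - l) (hz : z =
    h * h) (hy : y = z - l * (h - l * r)) (hxi : xi = x0 + x * (x1 - x2 * x)) (hv : v = k - z * xi)
    (hiV : iV = ((1 - x) * ((1 + D) * x - D))⁻¹) (hM : M = -(F * v * iV)) (hB : B = -(D * iV)) (hA :
    A = -((1 + 2 * D) * x * iV) - 2 * B) (hE : E = a4 + v * (a6 + v * a8)) (hz23 : z23 = sC6psi F k c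
    s xi v M z y A B E) : outR prog 0 [e, x, d, g, r] = -z23 := by
  replace hD : D = (((Int.cast (-1) : ℝ) / (Nat.cast 2 : ℝ)) - e) := hD.trans (by push_cast <;>
    ring)
  replace hF : F = ((Int.cast (2) : ℝ) + d) := hF.trans (by push_cast <;> ring)
  replace hk : k = (mC6Par D F).1 := hk.trans (mC6Par_0 ..)
  replace hc : c = (mC6Par D F).2.1 := hc.trans (mC6Par_1 ..)
  replace hs : s = (mC6Par D F).2.2.1 := hs.trans (mC6Par_2 ..)
  replace ha4 : a4 = (mC6Par D F).2.2.2.1 := ha4.trans (mC6Par_3 ..)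
  replace ha6 : a6 = (mC6Par D F).2.2.2.2.1 := ha6.trans (mC6Par_4 ..)
  replace ha8 : a8 = (mC6Par D F).2.2.2.2.2.1 := ha8.trans (mC6Par_5 ..)
  replace hx0 : x0 = (mC6Par D F).2.2.2.2.2.2.1 := hx0.trans (mC6Par_6 ..)
  replace hx1 : x1 = (mC6Par D F).2.2.2.2.2.2.2.1 := hx1.trans (mC6Par_7 ..)
  replace hx2 : x2 = (mC6Par D F).2.2.2.2.2.2.2.2 := hx2.trans (mC6Par_8 ..)
  replace hl : l = (d * ((((Int.cast (5) : ℝ) / (Nat.cast 3 : ℝ)) * x) + (g * (((Int.cast (1) : ℝ) /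
    (Nat.cast 32 : ℝ)) + (((Int.cast (5) : ℝ) / (Nat.cast 6 : ℝ)) * x))))) := hl.trans (by push_cast
    <;> ring)
  replace hh : h = (x - l) := hh.trans (by push_cast <;> ring)
  replace hz : z = (h * h) := hz.trans (by push_cast <;> ring)
  replace hy : y = (z - (l * (h - (l * r)))) := hy.trans (by push_cast <;> ring)
  replace hxi : xi = (x0 + (x * (x1 - (x2 * x)))) := hxi.trans (by push_cast <;> ring)
  replace hv : v = (k - (z * xi)) := hv.trans (by push_cast <;> ring)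
  replace hiV : iV = (((Int.cast (1) : ℝ) - x) * ((((Int.cast (1) : ℝ) + D) * x) - D))⁻¹ :=
    hiV.trans (by push_cast <;> ring)
  replace hM : M = ((Int.cast (-1) : ℝ) * ((F * v) * iV)) := hM.trans (by push_cast <;> ring)
  replace hB : B = ((Int.cast (-1) : ℝ) * (D * iV)) := hB.trans (by push_cast <;> ring)
  replace hA : A = (((Int.cast (-1) : ℝ) * ((((Int.cast (1) : ℝ) + ((Int.cast (2) : ℝ) * D)) * x) *
    iV)) - ((Int.cast (2) : ℝ) * B)) := hA.trans (by push_cast <;> ring)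
  replace hE : E = (a4 + (v * (a6 + (v * a8)))) := hE.trans (by push_cast <;> ring)
  replace hz23 : z23 = (mC6Psi F k c s xi v M z y A B E) := hz23.trans (mC6Psi_0 ..)
  have e0 : ((Int.cast (-1) : ℝ) * z23) = -z23 := by push_cast <;> ring
  subst hD hF hk hc hs ha4 ha6 ha8 hx0 hx1 hx2 hl hh hz hy hxi hv hiV hM hB hA hE hz23
  exact Eq.trans rfl e0

theorem l0 : ((8796093022208 : ℤ) : ℝ) / 2 ^ 47 = 1 / 16 := by norm_num
theorem u0 : (51 / 64 : ℝ) = ((112150186033152 : ℤ) : ℝ) / 2 ^ 47 := by norm_num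
theorem l1 : ((0 : ℤ) : ℝ) / 2 ^ 47 = 0 := by norm_num
theorem u1 : (3 / 32 : ℝ) = ((13194139533312 : ℤ) : ℝ) / 2 ^ 47 := by norm_num
theorem l2 : ((0 : ℤ) : ℝ) / 2 ^ 47 = 0 := by norm_num
theorem u2 : (1 / 16 : ℝ) = ((8796093022208 : ℤ) : ℝ) / 2 ^ 47 := by norm_num
theorem l3 : ((0 : ℤ) : ℝ) / 2 ^ 47 = 0 := by norm_num
theorem u3 : (1 : ℝ) = ((140737488355328 : ℤ) : ℝ) / 2 ^ 47 := by norm_num
theorem l4 : ((0 : ℤ) : ℝ) / 2 ^ 47 = 0 := by norm_num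
theorem u4 : (1 : ℝ) = ((140737488355328 : ℤ) : ℝ) / 2 ^ 47 := by norm_num

theorem out0 (N : ∀ e g r : ℝ, 1 / 16 ≤ e → e ≤ 51 / 64 → 0 ≤ g → g ≤ 1 → 0 ≤ r → r ≤ 1 → 0 ≤ outR
    prog 0 [e, 0, 0, g, r]) {e x d g r : ℝ} (a0 : 1 / 16 ≤ e) (b0 : e ≤ 51 / 64) (a1 : 0 ≤ x) (b1 :
    x ≤ 3 / 32) (a2 : 0 ≤ d) (b2 : d ≤ 1 / 16) (a3 : 0 ≤ g) (b3 : g ≤ 1) (a4 : 0 ≤ r) (b4 : r ≤ 1)
    (p1 : 0 < x) (p2 : 0 < d) : 0 < outR prog 0 [e, x, d, g, r] :=
  gd 0 (by decide) [e, x, d, g, r] (.cons ⟨l0.le.trans a0, b0.trans u0.le⟩ (.cons ⟨l1.le.trans a1,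
    b1.trans u1.le⟩ (.cons ⟨l2.le.trans a2, b2.trans u2.le⟩ (.cons ⟨l3.le.trans a3, b3.trans u3.le⟩
    (.cons ⟨l4.le.trans a4, b4.trans u4.le⟩ (.nil)))))) ⟨nofun, fun _ ↦ p1, fun _ ↦ p2, nofun,
    nofun, trivial⟩ (List.forall_mem_nil _) (Van.of0 rfl) (fun _ y0 a0 b0 _ _ _ _ _ _ y3 a3 b3 y4 a4
    b4 ↦ N y0 y3 y4 (l0.ge.trans a0) (b0.trans u0.ge) (l3.ge.trans a3) (b3.trans u3.ge) (l4.ge.trans
    a4) (b4.trans u4.ge))

end Pool.Agent.Lib.MP_d6150d_an.S6Cf
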