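import Pool.Agent.Lib.MP_d6150d_an.SchReg

/-! The decreasing version of the criterion of Schaaf, and more regions. -/

namespace Pool.Agent.Lib.MP_d6150d_an

open Real Set Filter Topology

variable {D F r : ℝ}

theorem psi_side' {σ b : ℝ} (hσ : σ = 1 ∨ σ = -1) (hb : 0 < b) (hJ : σ * b ∈ JR D)
    (h : ∀ t ∈ Ioc 0 b, svS D F (exp (-(σ * t))) < 0) :
    σ * Dg D F (Dg D F (uR F)) (σ * b) < σ * Dg D F (Dg D F (uR F)) 0 := by
  have s2 : σ * σ = 1 := by rcases hσ with rfl | rfl <;> norm_num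
  have s0 : σ ≠ 0 := by rintro rfl; simp at s2
  have mem : ∀ t ∈ Icc 0 b, σ * t ∈ JR D := fun t ht ↦ by
    rcases hσ with rfl | rfl
    · exact JR_conn (zero_mem_JR D) hJ (by linarith [ht.1]) (by linarith [ht.2])
    · exact JR_conn hJ (zero_mem_JR D) (by linarith [ht.2]) (by linarith [ht.1])
  have p1 : ∀ t ∈ Ioc 0 b, 0 < σ * sv1 D (exp (-(σ * t))) := fun t ht ↦ by
    have : 0 < om D (σ * t) := mem t (Ioc_subset_Icc_self ht)
    have : 0 < σ * (exp (σ * t) - 1) := by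
      rcases hσ with rfl | rfl
      · have := one_lt_exp_iff.2 (show 0 < 1 * t by linarith [ht.1]); linarith
      · have := exp_lt_one_iff.2 (show -1 * t < 0 by linarith [ht.1]); linarith
    rw [sv1_eq, mul_left_comm, ← mul_assoc σ]; positivity
  have dl : ∀ t, HasDerivAt (fun t ↦ σ * t) σ t := fun t ↦ by
    simpa using (hasDerivAt_id t).const_mul σ
  have pf : ∀ t ∈ Ioc 0 b, 0 < sv2 D F (exp (-(σ * t))) := fun t ht ↦ by
    by_contra h'
    have c : Continuous fun t ↦ sv2 D F (exp (-(σ * t))) := by unfold sv2; fun_prop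
    have f0 : sv2 D F (exp (-(σ * 0))) = 1 := by simp only [mul_zero, neg_zero, exp_zero, sv2]; ring
    obtain ⟨s, hs, e⟩ := intermediate_value_Icc' ht.1.le c.continuousOn
      (show (0 : ℝ) ∈ Icc _ _ from ⟨not_lt.1 h', by rw [f0]; norm_num⟩)
    have s0 : 0 < s := hs.1.lt_of_ne (by rintro rfl; simp only [f0] at e; norm_num at e)
    have := h s ⟨s0, hs.2.trans ht.2⟩
    beta_reduce at e
    rw [svS, e] at this
    have : 0 ≤ 5 * exp (-(σ * s)) * svW D F (exp (-(σ * s))) ^ 2 := by positivity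
    linarith
  choose M' hM e using dsM (D := D) (F := F)
  have key := first_zero (b := b) (fun t ↦ ((hM (σ * t)).comp t (dl t)).neg)
    (fun t ↦ (dsA (D := D) (F := F) (σ * t)).comp t (dl t))
    (by simp only [Function.comp, Pi.neg_apply, mul_zero, neg_zero, exp_zero, sM, vR, sφ, sv1]; ring)
    (by simp only [Function.comp, mul_zero, neg_zero, exp_zero, svA, sv1, sv2]; nlinarith)
    (fun t ht ↦ ?_) fun t ht hz ↦ ?_
  · refine strictAntiOn_of_deriv_neg (convex_Icc 0 b)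
      (f := fun t ↦ σ * Dg D F (Dg D F (uR F)) (σ * t))
      (fun t ht ↦ (((AnJ.u.dg.dg _ (mem t ht)).continuousAt.comp (f := fun t ↦ σ * t)
        (dl t).continuousAt).const_mul σ).continuousWithinAt) (fun t ht ↦ ?_)
      ⟨le_rfl, hb.le⟩ ⟨hb.le, le_rfl⟩ hb |>.trans_eq (by simp)
    rw [interior_Icc] at ht
    have m := mem t (Ioo_subset_Icc_self ht)
    have n : σ * t ≠ 0 := mul_ne_zero s0 ht.1.ne'
    have n1 := sφ_ne (F := F) m n
    have k := key t ht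
    simp only [Function.comp, Pi.neg_apply] at k
    have d : HasDerivAt (fun t ↦ σ * Dg D F (Dg D F (uR F)) (σ * t)) _ t :=
      ((psi_deriv (F := F) m n).comp t (dl t)).const_mul σ
    rw [d.deriv]
    have : 0 < exp (F * (σ * t)) / (2 * sφ D F (σ * t) ^ 4) * -sM D F (σ * t) := by positivity
    linarith [show σ * (exp (F * (σ * t)) / (2 * sφ D F (σ * t) ^ 4) * sM D F (σ * t) * σ) =
      -(exp (F * (σ * t)) / (2 * sφ D F (σ * t) ^ 4) * -sM D F (σ * t)) by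
        linear_combination (exp (F * (σ * t)) / (2 * sφ D F (σ * t) ^ 4) * sM D F (σ * t)) * s2]
  · have h1 := neg_pos.2 (h t (Ioo_subset_Ioc_self ht))
    have h2 := p1 t (Ioo_subset_Ioc_self ht)
    have : 0 < 4 * exp (F * (σ * t)) ^ 2 * (σ * sv1 D (exp (-(σ * t)))) ^ 3 * exp (-(σ * t)) *
      -svS D F (exp (-(σ * t))) := by positivity
    simp only [Function.comp, Pi.neg_apply]
    refine this.trans_eq ?_
    linear_combination σ * e (σ * t) - (σ * 4 * exp (F * (σ * t)) ^ 2 *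
      sv1 D (exp (-(σ * t))) ^ 3 * exp (-(σ * t)) * svS D F (exp (-(σ * t)))) * s2
  · have m := mem t (Ioo_subset_Icc_self ht)
    have n : σ * t ≠ 0 := mul_ne_zero s0 ht.1.ne'
    have n1 := sφ_ne (F := F) m n
    have h1 := pf t (Ioo_subset_Ioc_self ht)
    simp only [Function.comp, Pi.neg_apply, sM] at hz ⊢
    refine (mul_pos_iff_of_pos_left (vR_pos (F := F) m n)).1 ?_
    have : 0 < 6 * sφ D F (σ * t) ^ 2 * sv2 D F (exp (-(σ * t))) := by positivity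
    linarith

variable (D F) in
/-- the expression of Schaaf is negative between conjugate points -/
def SchDec : Prop := ∀ a ∈ JR D, ∀ b ∈ JR D, a < 0 → 0 < b → vR D F a = vR D F b →
  ∀ t ∈ Icc a b, t ≠ 0 → svS D F (exp (-t)) < 0

theorem SchDec.neg (h : SchDec D F) {R r : ℝ} (H : Rng D F R) (hr : |r| < R) (h0 : 0 < r) :
    Jf D F (phi4 D F) r < 0 := by
  have e := (H.t_deriv hr h0.ne').unique (H.av_deriv AnJ.u.dg hr h0.ne')
  have p := H.j_pos ((AnJ.const (-1)).mul (AnJ.u (F := F)).dg.dg) hr h0 fun a ha b hb a0 b0 hv ↦ by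
    have h1 := psi_side' (F := F) (σ := 1) (Or.inl rfl) b0 (by rwa [one_mul]) fun t ht ↦
      h a ha b hb a0 b0 hv _ ⟨by linarith [ht.1], by linarith [ht.2]⟩ (by linarith [ht.1])
    have h2 := psi_side' (F := F) (σ := -1) (b := -a) (Or.inr rfl) (by linarith)
      (by simpa using ha) fun t ht ↦
      h a ha b hb a0 b0 hv _ ⟨by linarith [ht.2], by linarith [ht.1]⟩ (by linarith [ht.1])
    simp only [one_mul, neg_mul, neg_neg] at h1 h2 ⊢
    linarith
  rw [div_eq_iff (by positivity)] at e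
  rw [e]
  refine mul_neg_of_neg_of_pos (div_neg_of_neg_of_pos ?_ h0) (by positivity)
  have a := ((AnJ.u (D := D) (F := F)).dg (F := F)).th (F := F)
  have l := H.lin hr a a (-1) 0
  rw [Jf, H.congr hr (h := _) fun t _ ↦ ?_, l] at p
  · linarith
  · simp only [th]; ring

theorem SchDec.noThree (h : SchDec D F) : NoThree D F :=
  fun _ _ _ _ _ _ _ _ hR H a _ h0 hab hb za _ _ ↦
    (h.neg H (by rw [abs_of_pos h0]; linarith) h0).ne za

theorem svS_cubic : svS D F r = 3 * (F + 1) * ((F - 1) * (1 + 2 * D)) * (F * (1 + D)) +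
    ((2 - 3 * F) * ((F - 1) * (1 + 2 * D)) ^ 2 + 6 * (F + 2) * (D * (2 - F)) * (F * (1 + D))) * r +
    (5 - 9 * F) * ((F - 1) * (1 + 2 * D)) * (D * (2 - F)) * r ^ 2 +
    (8 - 6 * F) * (D * (2 - F)) ^ 2 * r ^ 3 := by
  simp only [svS, svW, sv2]; ring

/-- region `-1 ≤ D ≤ -1/2`, `4/3 ≤ F ≤ 2` -/
theorem dec_a (hD : -1 ≤ D) (hD' : D ≤ -1 / 2) (hF : 4 / 3 ≤ F) (hF' : F ≤ 2)
    (h : D < -1 / 2 ∨ F < 2) : SchDec D F := fun _ _ _ _ _ _ _ t _ _ ↦ by
  have hr := exp_pos (-t)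
  generalize exp (-t) = r at *
  have hα : 0 ≤ -((F - 1) * (1 + 2 * D)) := by nlinarith
  have hβ : 0 ≤ -(D * (2 - F)) := by nlinarith
  have hγ : 0 ≤ F * (1 + D) := mul_nonneg (by linarith) (by linarith)
  have hh : 0 < -((F - 1) * (1 + 2 * D)) ∨ 0 < -(D * (2 - F)) ∧ 0 < F * (1 + D) := by
    rcases hD'.eq_or_lt with h1 | h1
    · refine Or.inr ⟨?_, mul_pos (by linarith) (by linarith)⟩
      have : F < 2 := h.resolve_left (by linarith)
      nlinarith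
    · exact Or.inl (by nlinarith)
  rw [svS_cubic, ← neg_pos]
  have e : ∀ α β γ : ℝ, -(3 * (F + 1) * α * γ + ((2 - 3 * F) * α ^ 2 + 6 * (F + 2) * β * γ) * r +
      (5 - 9 * F) * α * β * r ^ 2 + (8 - 6 * F) * β ^ 2 * r ^ 3) =
      3 * (F + 1) * -α * γ + ((3 * F - 2) * (-α) ^ 2 + 6 * (F + 2) * -β * γ) * r +
      (9 * F - 5) * -α * -β * r ^ 2 + (6 * F - 8) * (-β) ^ 2 * r ^ 3 := fun _ _ _ ↦ by ring
  rw [e]
  generalize -((F - 1) * (1 + 2 * D)) = A at *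
  generalize -(D * (2 - F)) = B at *
  generalize F * (1 + D) = G at *
  have : 0 < F + 1 := by linarith
  have : 0 < F + 2 := by linarith
  have : 0 < 3 * F - 2 := by linarith
  have : 0 < 9 * F - 5 := by linarith
  have : 0 ≤ 6 * F - 8 := by linarith
  rcases hh with h1 | ⟨h1, h2⟩ <;> positivity

theorem range_pos {a b t : ℝ} (hD : D ≤ 0) (hF : 1 < F) (ha : a ∈ JR D) (hb : b ∈ JR D)
    (a0 : a < 0) (hv : vR D F a = vR D F b) (ht : t ∈ Icc a b) : sΩ D F (exp (-t)) < 0 := by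
  have neg : ∀ r, 1 ≤ r → sΩ D F r < 0 := fun r hr ↦ by
    have e : sΩ D F r = -(2 * (F - 1 - D) + 4 * F * (F - 1 - D) * (r - 1) +
      -D * (2 * F * (2 * F - 1)) * (r - 1) ^ 2) := by rw [sΩ]; ring
    have : 0 < F - 1 - D := by linarith
    have : 0 ≤ r - 1 := by linarith
    have : 0 ≤ -D := by linarith
    have : 0 < 2 * F - 1 := by linarith
    have : 0 < F := by linarith
    rw [e, neg_lt_zero]; positivity
  rcases le_or_gt t 0 with h | h
  · exact neg _ (one_le_exp (by linarith))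
  have h3 : vR D F t ≤ vR D F a := by
    rcases ht.2.eq_or_lt with rfl | h1
    · exact hv.ge
    · exact hv ▸ (vR_mono hb h.le h1).le
  have c : 0 < 2 * F * (2 * F - 1) * (2 * F - 2) :=
    mul_pos (mul_pos (by linarith) (by linarith)) (by linarith)
  have h4 := mul_le_mul_of_nonneg_left h3 c.le
  rw [vR_closed, vR_closed] at h4
  have h5 := mul_neg_of_pos_of_neg (exp_pos (2 * F * a)) (neg _ (one_le_exp (neg_nonneg.2 a0.le)))
  exact neg_of_mul_neg_left (by linarith) (exp_pos (2 * F * t)).le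

/-- a sector below the isochronous point `(-1/2, 2)` -/
theorem dec_b (hF : 15 / 8 ≤ F) (hF' : F < 2) (hD : -1 / 2 ≤ D) (hD' : D ≤ -1 / 2 + (2 - F) / 3) :
    SchDec D F := fun a ha b hb a0 _ hv t ht _ ↦ by
  have hΩ := range_pos (by linarith) (by linarith) ha hb a0 hv ht
  have hr := exp_pos (-t)
  generalize exp (-t) = r at *
  obtain ⟨x, rfl⟩ : ∃ x, D = x - 1 / 2 := ⟨D + 1 / 2, by ring⟩
  obtain ⟨y, rfl⟩ : ∃ y, F = 2 - y := ⟨2 - F, by ring⟩
  have x0 : 0 ≤ x := by linarith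
  have x1 : 3 * x ≤ y := by linarith
  have y0 : 0 < y := by linarith
  have y1 : y ≤ 1 / 8 := by linarith
  have r1 : 3 / 5 < r := by
    by_contra h
    have h := not_lt.1 h
    have h2 : r ^ 2 ≤ 9 / 25 := by nlinarith
    have e : sΩ (x - 1 / 2) (2 - y) r = (1 / 2 + x) * ((3 - 2 * y) * (2 - 2 * y)) -
      2 * x * ((4 - 2 * y) * (2 - 2 * y)) * r - (1 / 2 - x) * ((4 - 2 * y) * (3 - 2 * y)) * r ^ 2 := by
      rw [sΩ]; ring
    have a1 : 3 - 5 * y ≤ (1 / 2 + x) * ((3 - 2 * y) * (2 - 2 * y)) := by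
      nlinarith [mul_nonneg x0 (by nlinarith : 0 ≤ (3 - 2 * y) * (2 - 2 * y))]
    have a2 : 2 * x * ((4 - 2 * y) * (2 - 2 * y)) * r ≤ 2 * y / 3 * 8 * (3 / 5) :=
      mul_le_mul (mul_le_mul (by linarith) (by nlinarith) (by nlinarith) (by linarith)) h hr.le
        (by linarith)
    have a3 : (1 / 2 - x) * ((4 - 2 * y) * (3 - 2 * y)) * r ^ 2 ≤
        1 / 2 * ((4 - 2 * y) * (3 - 2 * y)) * (9 / 25) :=
      mul_le_mul (mul_le_mul_of_nonneg_right (by linarith) (by nlinarith)) h2 (by positivity)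
        (by nlinarith)
    nlinarith
  have e : svS (x - 1 / 2) (2 - y) r = -(3 * ((2 - y) * (1 / 2 + x)) *
      (2 * (4 - y) * (y * ((1 / 2 - x) * r)) - (3 - y) * (2 * x * (1 - y))) +
      r * ((4 - 3 * y) * (2 * x * (1 - y)) ^ 2 - (13 - 9 * y) * (2 * x * (1 - y)) *
        (y * ((1 / 2 - x) * r)) + (4 - 6 * y) * (y * ((1 / 2 - x) * r)) ^ 2)) := by
    rw [svS_cubic]; ring
  have g : 15 / 16 ≤ (2 - y) * (1 / 2 + x) := by nlinarith
  have w1 : 11 / 24 * r ≤ (1 / 2 - x) * r := mul_le_mul_of_nonneg_right (by linarith) hr.le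
  have α0 : 0 ≤ 2 * x * (1 - y) := mul_nonneg (by linarith) (by linarith)
  have α1 : 2 * x * (1 - y) ≤ 2 / 3 * y := by nlinarith
  rw [e, neg_lt_zero]
  generalize (2 - y) * (1 / 2 + x) = γ at *
  generalize (1 / 2 - x) * r = ω at *
  generalize 2 * x * (1 - y) = α at *
  have ω0 : 11 / 40 < ω := by linarith
  have yω : 0 < y * ω := mul_pos y0 (by linarith)
  have b1 : y * (31 / 4 * ω - 2) ≤ 2 * (4 - y) * (y * ω) - (3 - y) * α := by
    nlinarith [mul_nonneg y0.le α0]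
  have b2 : y * (31 / 4 * ω - 2) * (45 / 16) ≤ 3 * γ * (2 * (4 - y) * (y * ω) - (3 - y) * α) := by
    have : 0 ≤ y * (31 / 4 * ω - 2) := mul_nonneg y0.le (by linarith)
    nlinarith
  have b3 : y * (y * ω * (13 / 4 * ω - 26 / 3)) ≤
      (4 - 3 * y) * α ^ 2 - (13 - 9 * y) * α * (y * ω) + (4 - 6 * y) * (y * ω) ^ 2 := by
    have c1 : 0 ≤ (4 - 3 * y) * α ^ 2 := mul_nonneg (by linarith) (sq_nonneg _)
    have c2 : (13 - 9 * y) * α ≤ 26 / 3 * y := by nlinarith [mul_nonneg y0.le α0]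
    nlinarith [mul_le_mul_of_nonneg_right c2 yω.le,
      mul_nonneg (by linarith : 0 ≤ 1 / 8 - y) (sq_nonneg (y * ω))]
  have b4 : 0 < (31 / 4 * ω - 2) * (45 / 16) + r * (y * ω * (13 / 4 * ω - 26 / 3)) := by
    rcases le_total 0 (13 / 4 * ω - 26 / 3) with h | h
    · have : 0 ≤ r * (y * ω * (13 / 4 * ω - 26 / 3)) := by positivity
      linarith
    · have c1 : r * y ≤ 24 / 11 * ω * (1 / 8) := mul_le_mul (by linarith) y1 y0.le (by linarith)
      have c2 : 0 ≤ ω * (26 / 3 - 13 / 4 * ω) := mul_nonneg (by linarith) (by linarith)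
      nlinarith [mul_le_mul_of_nonneg_right c1 c2, mul_nonneg (by linarith : 0 ≤ ω - 11 / 40)
        (by linarith : 0 ≤ 8 / 3 - ω), pow_pos (by linarith : 0 < ω) 3]
  nlinarith [mul_pos y0 b4, mul_le_mul_of_nonneg_left b3 hr.le]

/-- a sector above the isochronous point `(-1/2, 2)` -/
theorem sch_f (hF : 2 < F) (hF' : F ≤ 17 / 8) (hD : D ≤ -1 / 2) (hD' : -1 / 2 - (F - 2) / 3 ≤ D) :
    SchOK2 D F := fun a ha b hb a0 _ hv t ht _ ↦ by
  have hΩ := range_pos (by linarith) (by linarith) ha hb a0 hv ht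
  have hr := exp_pos (-t)
  refine ⟨schS_of_pos hr fun _ ↦ ?_,
    svA_pos (by right; right; right; exact hF.le) hr (memJ_iff.1 (JR_conn ha hb ht.1 ht.2))⟩
  generalize exp (-t) = r at *
  obtain ⟨x, rfl⟩ : ∃ x, D = -1 / 2 - x := ⟨-1 / 2 - D, by ring⟩
  obtain ⟨y, rfl⟩ : ∃ y, F = 2 + y := ⟨F - 2, by ring⟩
  have x0 : 0 ≤ x := by linarith
  have x1 : 3 * x ≤ y := by linarith
  have y0 : 0 < y := by linarith
  have y1 : y ≤ 1 / 8 := by linarith
  have r1 : 3 / 5 < r := by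
    by_contra h
    have h := not_lt.1 h
    have h2 : r ^ 2 ≤ 9 / 25 := by nlinarith
    have e : sΩ (-1 / 2 - x) (2 + y) r = (1 / 2 - x) * ((3 + 2 * y) * (2 + 2 * y)) +
      2 * x * ((4 + 2 * y) * (2 + 2 * y)) * r - (1 / 2 + x) * ((4 + 2 * y) * (3 + 2 * y)) * r ^ 2 := by
      rw [sΩ]; ring
    have a1 : 11 / 24 * 6 ≤ (1 / 2 - x) * ((3 + 2 * y) * (2 + 2 * y)) :=
      mul_le_mul (by linarith) (by nlinarith) (by norm_num) (by linarith)
    have a2 : 0 ≤ 2 * x * ((4 + 2 * y) * (2 + 2 * y)) * r := by positivity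
    have a3 : (1 / 2 + x) * ((4 + 2 * y) * (3 + 2 * y)) * r ^ 2 ≤ 13 / 24 * 14 * (9 / 25) :=
      mul_le_mul (mul_le_mul (by linarith) (by nlinarith) (by positivity) (by norm_num)) h2
        (by positivity) (by norm_num)
    linarith
  have a1 : 2 * x * ((3 + y) * (1 + y)) ≤ 2 * y / 3 * (225 / 64) :=
    mul_le_mul (by linarith) (by nlinarith) (by positivity) (by positivity)
  have a2 : y * 4 * (3 / 5) < y * ((4 + y) * (1 + 2 * x)) * r :=
    mul_lt_mul' (mul_le_mul_of_nonneg_left (by nlinarith) y0.le) r1 (by norm_num) (by positivity)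
  nlinarith

/-- a sector to the right of the isochronous point `(0, 1)` -/
theorem sch_g (hF : 7 / 8 ≤ F) (hF' : F ≤ 1) (hD : 0 < D) (hD' : 1 - F ≤ D) : SchOK2 D F :=
  fun a ha b hb a0 b0 hv t ht _ ↦ by
  have hr := exp_pos (-t)
  have m := JR_conn ha hb ht.1 ht.2
  have r1 : 3 / 7 < exp (-t) := by
    rcases le_or_gt t 0 with h | h
    · linarith [one_le_exp (neg_nonneg.2 h)]
    have h3 : vR D F t ≤ vR D F a := by
      rcases ht.2.eq_or_lt with h1 | h1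
      · rw [h1, hv]
      · exact hv ▸ (vR_mono hb h.le h1).le
    have hd : ∀ s, HasDerivAt (fun s ↦ 2 * F * (2 * F - 1) * vR D F s -
        2 * exp (2 * F * s) * (2 * F - 1 - 2 * F * exp (-s)))
        (2 * F * (2 * F - 1) * D * (2 * exp (2 * F * s) * (1 - exp (-s)) ^ 2)) s := fun s ↦
      (((hasDerivAt_vR D F s).const_mul _).sub (((dey (F := 2 * F) s).const_mul 2).mul
        (((dq s).const_mul (2 * F)).const_sub _))).congr_deriv (by
          have : exp (2 * F * s) = exp (F * s) * exp (F * s) := by rw [← exp_add]; ring_nf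
          rw [WR_eq, sφ, sv1, this]; ring)
    have c : 0 < 2 * F * (2 * F - 1) := mul_pos (by linarith) (by linarith)
    have hm := monotone_of_deriv_nonneg (fun s ↦ (hd s).differentiableAt)
      (fun s ↦ by rw [(hd s).deriv]; positivity) (a0.trans h).le
    have h4 := mul_le_mul_of_nonneg_left h3 c.le
    have h5 : exp (2 * F * a) * (2 * F - 1 - 2 * F * exp (-a)) < 0 :=
      mul_neg_of_pos_of_neg (exp_pos _) (by nlinarith [one_le_exp (neg_nonneg.2 a0.le)])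
    have h6 : 2 * F - 1 - 2 * F * exp (-t) < 0 :=
      neg_of_mul_neg_left (by linarith) (exp_pos (2 * F * t)).le
    nlinarith
  refine ⟨schS_of_pos hr fun _ ↦ ?_, svA_pos (Or.inr (Or.inl hD.le)) hr (memJ_iff.1 m)⟩
  generalize exp (-t) = r at *
  have a1 : (1 - F ^ 2) * (1 + 2 * D) ≤ 2 * D + 1 / 4 * (2 * D) * (4 / 7) +
      (1 - F ^ 2) * (2 * D * r) := by
    have h1 : 0 ≤ 1 - F ^ 2 := by nlinarith
    have h2 : 1 - F ^ 2 ≤ 1 / 4 := by nlinarith
    have h3 : 1 - F ^ 2 ≤ 2 * D := by nlinarith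
    nlinarith [mul_nonneg (mul_nonneg h1 hD.le) (by linarith : 0 ≤ r - 3 / 7),
      mul_nonneg hD.le (sub_nonneg.2 h2)]
  nlinarith [mul_pos hD (sub_pos.2 r1)]

/-- region `1 ≤ F ≤ 5/4` to the left of a line -/
theorem sch_h (hF : 1 ≤ F) (hF' : F ≤ 5 / 4) (hD : D ≤ -1 - (F - 1) / 2) : SchOK2 D F := by
  refine noThree_of_full (Or.inl (by linarith)) fun r hr _ _ ↦ ?_
  obtain ⟨η, rfl⟩ : ∃ η, F = 1 + η := ⟨F - 1, by ring⟩
  obtain ⟨δ, rfl⟩ : ∃ δ, D = -1 - δ := ⟨-1 - D, by ring⟩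
  have h0 : 0 ≤ η := by linarith
  have h1 : η ≤ 1 / 4 := by linarith
  have h2 : η / 2 ≤ δ := by linarith
  have h3 : 0 ≤ δ := by linarith
  have hB : 0 < (1 + δ) * (1 - η) := mul_pos (by linarith) (by linarith)
  have hA : 0 ≤ η * (1 + 2 * δ) := by positivity
  have hG : 0 ≤ 3 * ((1 + η) * δ * ((1 + δ) * (1 - η))) - 4 * (η * (1 + 2 * δ)) ^ 2 := by
    have h5 : η ^ 2 ≤ 1 / 16 := by nlinarith
    have e : 3 * ((1 + η) * δ * ((1 + δ) * (1 - η))) - 4 * (η * (1 + 2 * δ)) ^ 2 =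
      (3 - 19 * η ^ 2) * (δ + δ ^ 2) - 4 * η ^ 2 := by ring
    have h6 : η / 2 + η ^ 2 / 4 ≤ δ + δ ^ 2 := by nlinarith
    rw [e]
    nlinarith [mul_le_mul (by linarith : 29 / 16 ≤ 3 - 19 * η ^ 2) h6 (by positivity) (by linarith),
      mul_nonneg h0 (sub_nonneg.2 h1)]
  refine (mul_pos_iff_of_pos_left hB).1 ?_
  have e : (1 + δ) * (1 - η) * svS (-1 - δ) (1 + η) r =
      4 * (2 + η) * (η * (1 + 2 * δ)) ^ 3 +
      (23 + 5 * η) * (η * (1 + 2 * δ)) ^ 2 * ((1 + δ) * (1 - η) * r) -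
      (4 + 9 * η) * (η * (1 + 2 * δ)) * ((1 + δ) * (1 - η) * r) ^ 2 +
      (2 - 6 * η) * ((1 + δ) * (1 - η) * r) ^ 3 +
      (3 * ((1 + η) * δ * ((1 + δ) * (1 - η))) - 4 * (η * (1 + 2 * δ)) ^ 2) *
        ((2 + η) * (η * (1 + 2 * δ)) + 2 * (3 + η) * ((1 + δ) * (1 - η) * r)) := by
    simp only [svS, svW, sv2]; ring
  have hw := mul_pos hB hr
  rw [e]
  generalize (1 + δ) * (1 - η) * r = w at *
  generalize 3 * ((1 + η) * δ * ((1 + δ) * (1 - η))) - 4 * (η * (1 + 2 * δ)) ^ 2 = G at *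
  generalize η * (1 + 2 * δ) = A at *
  have h5 : 0 ≤ G * ((2 + η) * A + 2 * (3 + η) * w) := by positivity
  have h6 : 0 < 23 * A ^ 2 * w - 25 / 4 * A * w ^ 2 + 1 / 2 * w ^ 3 := by
    nlinarith [mul_nonneg hw.le (sq_nonneg (w - 20 / 3 * A)), pow_pos hw 3,
      mul_nonneg hw.le (sq_nonneg A)]
  have h7 : 0 ≤ (1 / 4 - η) * (9 * A * w ^ 2 + 6 * w ^ 3) := mul_nonneg (by linarith) (by positivity)
  have h8 : 0 ≤ 4 * (2 + η) * A ^ 3 + 5 * η * A ^ 2 * w := by positivity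
  linarith

variable (D F) in
/-- the union of the regions of this file -/
def SchReg2 : Prop := (-1 ≤ D ∧ D ≤ -1 / 2 ∧ 4 / 3 ≤ F ∧ F ≤ 2 ∧ (D < -1 / 2 ∨ F < 2)) ∨
  (15 / 8 ≤ F ∧ F < 2 ∧ -1 / 2 ≤ D ∧ D ≤ -1 / 2 + (2 - F) / 3) ∨
  (2 < F ∧ F ≤ 17 / 8 ∧ D ≤ -1 / 2 ∧ -1 / 2 - (F - 2) / 3 ≤ D) ∨
  (7 / 8 ≤ F ∧ F ≤ 1 ∧ 0 < D ∧ 1 - F ≤ D) ∨ (1 ≤ F ∧ F ≤ 5 / 4 ∧ D ≤ -1 - (F - 1) / 2)

theorem SchReg2.noThree (h : SchReg2 D F) : NoThree D F := by
  rcases h with ⟨a, b, c, d, e⟩ | ⟨a, b, c, d⟩ | ⟨a, b, c, d⟩ | ⟨a, b, c, d⟩ | ⟨a, b, c⟩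
  exacts [(dec_a a b c d e).noThree, (dec_b a b c d).noThree, (sch_f a b c d).noThree,
    (sch_g a b c d).noThree, (sch_h a b c).noThree]

end Pool.Agent.Lib.MP_d6150d_an
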