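import Pool.Agent.Lib.MP_d6150d_an.S6CG
import Pool.Agent.Lib.MP_d6150d_an.SchDec
import Pool.Agent.Lib.MP_d6150d_an.S6Ca
import Pool.Agent.Lib.MP_d6150d_an.S6Cb
import Pool.Agent.Lib.MP_d6150d_an.S6Cc
import Pool.Agent.Lib.MP_d6150d_an.S6Cd
import Pool.Agent.Lib.MP_d6150d_an.S6Ce
import Pool.Agent.Lib.MP_d6150d_an.S6Cf

/-! The strip `S6`, second part: `-83 / 64 ≤ D < -1 / 2`, `2 < F ≤ 33 / 16`. -/

namespace Pool.Agent.Lib.MP_d6150d_an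

open Real Set Filter Topology Asymptotics

/-- the algebraic form in the tail -/
noncomputable def sC6L (D d x g r : ℝ) : ℝ :=
  let l := d * (5 / 3 * x + g * (1 / 32 + 5 / 6 * x))
  sC6T D (2 + d) x ((x - l) * (x - l)) ((x - l) * (x - l) - l * (x - l - l * r))

theorem sC6_eqa (e m r : ℝ) : outR S6Ca.prog 0 [e, m, r] = sC6H (-1 / 2 - e) (2 + e * m) r ∧
    outR (S6Ca.prog.take 35) 0 [e, m, r] = sC6xi (-1 / 2 - e) (2 + e * m) (exp r) :=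
  S6Ca.eq rfl rfl rfl rfl rfl rfl rfl rfl rfl rfl rfl rfl rfl rfl rfl rfl rfl rfl rfl rfl
    rfl rfl rfl rfl rfl rfl

theorem sC6_eqb (e m r : ℝ) : outR S6Cb.prog 0 [e, m, r] = sC6H (-1 / 2 - e) (2 + e * m) (-r) :=
  S6Cb.eq rfl rfl rfl rfl rfl rfl rfl rfl rfl rfl rfl rfl rfl rfl rfl rfl rfl rfl rfl rfl
    rfl rfl rfl rfl rfl rfl

theorem sC6_eqc (e d r : ℝ) : outR S6Cc.prog 0 [e, d, r] = sC6H (-1 / 2 - e) (2 + d) r ∧
    outR (S6Cc.prog.take 34) 0 [e, d, r] = sC6xi (-1 / 2 - e) (2 + d) (exp r) :=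
  S6Cc.eq rfl rfl rfl rfl rfl rfl rfl rfl rfl rfl rfl rfl rfl rfl rfl rfl rfl rfl rfl rfl
    rfl rfl rfl rfl rfl

theorem sC6_eqd (e d r : ℝ) : outR S6Cd.prog 0 [e, d, r] = sC6H (-1 / 2 - e) (2 + d) (-r) :=
  S6Cd.eq rfl rfl rfl rfl rfl rfl rfl rfl rfl rfl rfl rfl rfl rfl rfl rfl rfl rfl rfl rfl
    rfl rfl rfl rfl rfl

theorem sC6_eqe (e x m g r : ℝ) :
    outR S6Ce.prog 0 [e, x, m, g, r] = -sC6L (-1 / 2 - e) (e * m) x g r :=
  S6Ce.eq rfl rfl rfl rfl rfl rfl rfl rfl rfl rfl rfl rfl rfl rfl rfl rfl rfl rfl rfl rfl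
    rfl rfl rfl rfl

theorem sC6_eqf (e x d g r : ℝ) : outR S6Cf.prog 0 [e, x, d, g, r] = -sC6L (-1 / 2 - e) d x g r :=
  S6Cf.eq rfl rfl rfl rfl rfl rfl rfl rfl rfl rfl rfl rfl rfl rfl rfl rfl rfl rfl rfl rfl
    rfl rfl rfl

variable {e d m t : ℝ}

theorem sC6_two (h1 : 0 ≤ e) (h2 : 0 ≤ m) : 2 ≤ 2 + e * m := le_add_of_nonneg_right (mul_nonneg h1 h2)

theorem sC6_N (d0 : 0 < d) (d1 : d ≤ 1 / 16)
    (A : ∀ r, 0 < r → r ≤ 5 / 2 → 0 < sC6H (-1 / 2 - e) (2 + d) (-r))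
    (B : ∀ x g r, 0 < x → x ≤ 3 / 32 → 0 ≤ g → g ≤ 1 → 0 ≤ r → r ≤ 1 →
      0 < -sC6L (-1 / 2 - e) d x g r) (h : t < 0) : sC6Z (-1 / 2 - e) (2 + d) t < 0 := by
  rcases le_total t (-(5 / 2)) with k | k
  · obtain ⟨g, g0, g1, hg⟩ := sC6_tail d0 d1 k
    have p := B (exp t) g (exp (d * t)) (exp_pos _) ((exp_le_exp.2 k).trans (x2_ebd.trans
      (by norm_num))) g0 g1 (exp_pos _).le (exp_le_one_iff.2 (by nlinarith))
    have e1 : exp ((2 * (2 + d) - 2) * t) = exp t * exp (d * t) * (exp t * exp (d * t)) := by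
      simp only [← exp_add]; ring_nf
    have e2 : exp ((3 * (2 + d) - 4) * t) =
        exp t * exp (d * t) * (exp t * exp (d * t)) * exp (d * t) := by
      simp only [← exp_add]; ring_nf
    rw [sC6L, ← hg] at p
    rw [sC6Z, e1, e2]
    convert neg_pos.1 p using 2 <;> ring
  · rw [← sC6_H (by linarith) h.ne]
    simpa using mul_neg_of_neg_of_pos h (A (-t) (by linarith) (by linarith))

theorem sC6_polar (e0 : 0 < e) (e1 : e ≤ 1 / 16) (m0 : 0 < m) (m1 : m ≤ 3) (d1 : e * m ≤ 1 / 16) :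
    NoThree (-1 / 2 - e) (2 + e * m) := by
  refine sC6_red (by linarith) (by linarith) (sC6_two e0.le m0.le)
    (fun t t0 t1 c ↦ ?_) fun t ↦ sC6_N (mul_pos e0 m0) d1 (fun r r0 r1 ↦ ?_)
      fun x g r x0 x1 g0 g1 r0 r1 ↦ ?_
  · exact (S6Ca.out0 (fun m r _ _ _ _ ↦ (sC6_eqa 0 m r).1.trans (sC6H_iso (by ring) (by ring) _))
      (fun e m a _ b _ ↦ (sC6_right (sC6_two a b)).congr_left fun r ↦ (sC6_eqa e m r).1.symm)
      e0.le e1 m0.le m1 t0.le t1 e0 t0 (c.trans_eq (sC6_eqa e m t).2.symm)).trans_eq (sC6_eqa e m t).1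
  · exact (S6Cb.out0 (fun m r _ _ _ _ ↦ (sC6_eqb 0 m r).trans (sC6H_iso (by ring) (by ring) _))
      (fun e m a _ b _ ↦ (sC6_left (sC6_two a b)).congr_left fun r ↦ (sC6_eqb e m r).symm)
      e0.le e1 m0.le m1 r0.le r1 e0 r0).trans_eq (sC6_eqb e m r)
  · exact (S6Ce.out0 (fun x m g r a b _ _ _ _ _ _ ↦ (sC6_eqe 0 x m g r).trans (neg_eq_zero.2
      (sC6T_iso (by ring) (by ring) a (by linarith : x < 1).ne (by ring) (by ring))))
      (fun e g r a _ _ _ _ _ ↦ ((sC6_eqe e 0 0 g r).trans (neg_eq_zero.2 (sC6T_zero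
        (by linarith : -1 / 2 - e < 0).ne (by ring) rfl (by ring) (by ring)))).ge)
      e0.le e1 x0.le x1 m0.le m1 g0 g1 r0 r1 e0 x0 m0).trans_eq (sC6_eqe e x m g r)

theorem sC6_rect (e0 : 1 / 16 ≤ e) (e1 : e ≤ 51 / 64) (d0 : 0 < d) (d1 : d ≤ 1 / 16) :
    NoThree (-1 / 2 - e) (2 + d) := by
  refine sC6_red (by linarith) (by linarith) (by linarith)
    (fun t t0 t1 c ↦ ?_) fun t ↦ sC6_N d0 d1 (fun r r0 r1 ↦ ?_) fun x g r x0 x1 g0 g1 r0 r1 ↦ ?_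
  · exact (S6Cc.out0 (fun e d _ _ b _ ↦ (sC6_right (le_add_of_nonneg_right b)).congr_left
      fun r ↦ (sC6_eqc e d r).1.symm) e0 e1 d0.le d1 t0.le t1 t0
      (c.trans_eq (sC6_eqc e d t).2.symm)).trans_eq (sC6_eqc e d t).1
  · exact (S6Cd.out0 (fun e d _ _ b _ ↦ (sC6_left (le_add_of_nonneg_right b)).congr_left
      fun r ↦ (sC6_eqd e d r).symm) e0 e1 d0.le d1 r0.le r1 r0).trans_eq (sC6_eqd e d r)
  · exact (S6Cf.out0 (fun e g r a _ _ _ _ _ ↦ ((sC6_eqf e 0 0 g r).trans (neg_eq_zero.2 (sC6T_zero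
        (by linarith : -1 / 2 - e < 0).ne (by ring) rfl (by ring) (by ring)))).ge)
      e0 e1 x0.le x1 d0.le d1 g0 g1 r0 r1 x0 d0).trans_eq (sC6_eqf e x d g r)

theorem S6C_holds (D F : ℝ) (h1 : -83 / 64 ≤ D) (h2 : D < -1 / 2) (h3 : 2 < F)
    (h4 : F ≤ 33 / 16) : NoThree D F := by
  rcases le_total (-1 / 2 - (F - 2) / 3) D with k | k
  · exact SchReg2.noThree (Or.inr (Or.inr (Or.inl ⟨h3, by linarith, h2.le, k⟩)))
  obtain ⟨e, rfl⟩ : ∃ e, D = -1 / 2 - e := ⟨-1 / 2 - D, by ring⟩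
  obtain ⟨d, rfl⟩ : ∃ d, F = 2 + d := ⟨F - 2, by ring⟩
  rcases le_total e (1 / 16) with c | c
  · have e0 : 0 < e := by linarith
    obtain ⟨m, rfl⟩ : ∃ m, d = e * m := ⟨d / e, by field_simp⟩
    exact sC6_polar e0 c ((mul_pos_iff_of_pos_left e0).1 (by linarith))
      (le_of_mul_le_mul_left (by linarith) e0) (by linarith)
  · exact sC6_rect c (by linarith) (by linarith) (by linarith)

end Pool.Agent.Lib.MP_d6150d_an
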