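import Pool.Agent.Lib.MP_d6150d_an.S6ELD

/-! A generated chart: the computations. -/

namespace Pool.Agent.Lib.MP_d6150d_an.S6EL

theorem k0 : chk C 0x8828282 [(-290271069732864, -272678883688448), (272678883688448,
    290271069732864), (-422212465065984, -46912496118442)] = true := by
  decide +kernel

end Pool.Agent.Lib.MP_d6150d_an.S6EL
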