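import Pool.Agent.Lib.MP_d6150d_an.GMac
import Pool.Agent.Lib.MP_d6150d_an.S6ERK0

/-! A generated chart: the inequality. -/

namespace Pool.Agent.Lib.MP_d6150d_an.S6ER

set_option linter.unnecessarySeqFocus false
set_option linter.unusedTactic false
set_option linter.unusedVariables false

theorem gd : Gd C [(-290271069732864, -272678883688448), (272678883688448, 290271069732864),
    (30786325577728, 112589990684263)] := chk_sound k0

set_option maxRecDepth 100000 in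
theorem eq {D F t a b c s h n k o f V X : ℝ} (ha : a = (1 + D) / F) (hb : b = (-2) * (1 + 2 * D) /
    (1 - 2 * F)) (hc : c = (-D) / (1 - F)) (hs : s = Real.exp t) (hh : h = Real.exp ((F - 2) * t))
    (hn : n = b * s - a * s ^ 2 - c) (hk : k = b - a - c) (ho : o = (1 + D) * s - D) (hf : f = (1 +
    D) * F * s ^ 2 - (1 + 2 * D) * (F - 1) * s + D * (F - 2)) (hV : V = k - (h * s) ^ 2 * n) (hX : X
    = (h * s) ^ 2 * ((s - 1) * o) ^ 2 - V * f) : outR prog 0 [D, F, t] = X + F * (1 + D) * k * h *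
    (s - 1) ^ 3 * o := by
  replace ha : a = (((Int.cast (1) : ℝ) + D) * F⁻¹) := ha.trans (by push_cast <;> ring)
  replace hb : b = (((Int.cast (-2) : ℝ) * ((Int.cast (1) : ℝ) + ((Int.cast (2) : ℝ) * D))) *
    ((Int.cast (1) : ℝ) - ((Int.cast (2) : ℝ) * F))⁻¹) := hb.trans (by push_cast <;> ring)
  replace hc : c = (((Int.cast (-1) : ℝ) * D) * ((Int.cast (1) : ℝ) - F)⁻¹) := hc.trans (by
    push_cast <;> ring)
  replace hh : h = (Real.exp ((F - (Int.cast (2) : ℝ)) * t)) := hh.trans (congrArg Real.exp (by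
    push_cast <;> ring))
  replace hn : n = (((b * s) - (a * (s * s))) - c) := hn.trans (by push_cast <;> ring)
  replace hk : k = ((b - a) - c) := hk.trans (by push_cast <;> ring)
  replace ho : o = ((((Int.cast (1) : ℝ) + D) * s) - D) := ho.trans (by push_cast <;> ring)
  replace hf : f = ((((((Int.cast (1) : ℝ) + D) * F) * (s * s)) - ((((Int.cast (1) : ℝ) + ((Int.cast
    (2) : ℝ) * D)) * (F - (Int.cast (1) : ℝ))) * s)) + (D * (F - (Int.cast (2) : ℝ)))) := hf.trans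
    (by push_cast <;> ring)
  replace hV : V = (k - (((h * s) * (h * s)) * n)) := hV.trans (by push_cast <;> ring)
  replace hX : X = ((((h * s) * (h * s)) * (((s - (Int.cast (1) : ℝ)) * o) * ((s - (Int.cast (1) :
    ℝ)) * o))) - (V * f)) := hX.trans (by push_cast <;> ring)
  have e0 : (X + (((((F * ((Int.cast (1) : ℝ) + D)) * k) * h) * (((s - (Int.cast (1) : ℝ)) * (s -
    (Int.cast (1) : ℝ))) * (s - (Int.cast (1) : ℝ)))) * o)) = X + F * (1 + D) * k * h * (s - 1) ^ 3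
    * o := by push_cast <;> ring
  subst ha hb hc hs hh hn hk ho hf hV hX
  exact Eq.trans rfl e0

theorem l0 : ((-290271069732864 : ℤ) : ℝ) / 2 ^ 47 = -33 / 16 := by norm_num
theorem u0 : (-31 / 16 : ℝ) = ((-272678883688448 : ℤ) : ℝ) / 2 ^ 47 := by norm_num
theorem l1 : ((272678883688448 : ℤ) : ℝ) / 2 ^ 47 = 31 / 16 := by norm_num
theorem u1 : (33 / 16 : ℝ) = ((290271069732864 : ℤ) : ℝ) / 2 ^ 47 := by norm_num
theorem l2 : ((30786325577728 : ℤ) : ℝ) / 2 ^ 47 = 7 / 32 := by norm_num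
theorem u2 : (4 / 5 : ℝ) ≤ ((112589990684263 : ℤ) : ℝ) / 2 ^ 47 := by norm_num

theorem out0 {D F t : ℝ} (a0 : -33 / 16 ≤ D) (b0 : D ≤ -31 / 16) (a1 : 31 / 16 ≤ F) (b1 : F ≤ 33 /
    16) (a2 : 7 / 32 ≤ t) (b2 : t ≤ 4 / 5) : 0 < outR prog 0 [D, F, t] :=
  gd 0 (by decide) [D, F, t] (.cons ⟨l0.le.trans a0, b0.trans u0.le⟩ (.cons ⟨l1.le.trans a1,
    b1.trans u1.le⟩ (.cons ⟨l2.le.trans a2, b2.trans u2⟩ (.nil)))) ⟨nofun, nofun, nofun, trivial⟩
    (List.forall_mem_nil _) (Van.of0 rfl) (nofun)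

theorem pos0 {D F t a b c s h n k o f V X : ℝ} (ha : a = (1 + D) / F) (hb : b = (-2) * (1 + 2 * D) /
    (1 - 2 * F)) (hc : c = (-D) / (1 - F)) (hs : s = Real.exp t) (hh : h = Real.exp ((F - 2) * t))
    (hn : n = b * s - a * s ^ 2 - c) (hk : k = b - a - c) (ho : o = (1 + D) * s - D) (hf : f = (1 +
    D) * F * s ^ 2 - (1 + 2 * D) * (F - 1) * s + D * (F - 2)) (hV : V = k - (h * s) ^ 2 * n) (hX : X
    = (h * s) ^ 2 * ((s - 1) * o) ^ 2 - V * f) (a0 : -33 / 16 ≤ D) (b0 : D ≤ -31 / 16) (a1 : 31 / 16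
    ≤ F) (b1 : F ≤ 33 / 16) (a2 : 7 / 32 ≤ t) (b2 : t ≤ 4 / 5) : 0 < X + F * (1 + D) * k * h * (s -
    1) ^ 3 * o :=
  have e := eq ha hb hc hs hh hn hk ho hf hV hX
  (out0 a0 b0 a1 b1 a2 b2).trans_eq e

end Pool.Agent.Lib.MP_d6150d_an.S6ER
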