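import Pool.Agent.Lib.MP_d6150d_an.S6ESD

/-! A generated chart: the computations. -/

namespace Pool.Agent.Lib.MP_d6150d_an.S6ES

theorem k0 : chk C 0x8 [(-290271069732864, -272678883688448), (272678883688448, 290271069732864),
    (-46912496118443, 112589990684263)] = true := by
  decide +kernel

end Pool.Agent.Lib.MP_d6150d_an.S6ES
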