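import Pool.Agent.Lib.MP_d6150d_an.GMac
import Pool.Agent.Lib.MP_d6150d_an.S6ESK0

/-! A generated chart: the inequality. -/

namespace Pool.Agent.Lib.MP_d6150d_an.S6ES

set_option linter.unnecessarySeqFocus false
set_option linter.unusedTactic false
set_option linter.unusedVariables false

theorem gd : Gd C [(-290271069732864, -272678883688448), (272678883688448, 290271069732864),
    (-46912496118443, 112589990684263)] := chk_sound k0

set_option maxRecDepth 100000 in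
theorem eq {D F t r W f : ℝ} (hr : r = Real.exp (-t)) (hW : W = (1 + 2 * D) * (F - 1) - 2 * D * (F -
    2) * r) (hf : f = (1 + D) * F - (1 + 2 * D) * (F - 1) * r + D * (F - 2) * r ^ 2) : outR prog 0
    [D, F, t] = 5 * r * W ^ 2 + 3 * f * ((1 + 2 * D) * (F ^ 2 - 1) - 2 * (F ^ 2 - 4) * D * r) := by
  replace hr : r = (Real.exp ((Int.cast (-1) : ℝ) * t)) := hr.trans (congrArg Real.exp (by push_cast
    <;> ring))
  replace hW : W = ((((Int.cast (1) : ℝ) + ((Int.cast (2) : ℝ) * D)) * (F - (Int.cast (1) : ℝ))) -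
    ((((Int.cast (2) : ℝ) * D) * (F - (Int.cast (2) : ℝ))) * r)) := hW.trans (by push_cast <;> ring)
  replace hf : f = (((((Int.cast (1) : ℝ) + D) * F) - ((((Int.cast (1) : ℝ) + ((Int.cast (2) : ℝ) *
    D)) * (F - (Int.cast (1) : ℝ))) * r)) + ((D * (F - (Int.cast (2) : ℝ))) * (r * r))) := hf.trans
    (by push_cast <;> ring)
  have e0 : ((((Int.cast (5) : ℝ) * r) * (W * W)) + (((Int.cast (3) : ℝ) * f) * ((((Int.cast (1) :
    ℝ) + ((Int.cast (2) : ℝ) * D)) * ((F * F) - (Int.cast (1) : ℝ))) - ((((Int.cast (2) : ℝ) * ((F *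
    F) - (Int.cast (4) : ℝ))) * D) * r)))) = 5 * r * W ^ 2 + 3 * f * ((1 + 2 * D) * (F ^ 2 - 1) - 2
    * (F ^ 2 - 4) * D * r) := by push_cast <;> ring
  subst hr hW hf
  exact Eq.trans rfl e0

theorem l0 : ((-290271069732864 : ℤ) : ℝ) / 2 ^ 47 = -33 / 16 := by norm_num
theorem u0 : (-31 / 16 : ℝ) = ((-272678883688448 : ℤ) : ℝ) / 2 ^ 47 := by norm_num
theorem l1 : ((272678883688448 : ℤ) : ℝ) / 2 ^ 47 = 31 / 16 := by norm_num
theorem u1 : (33 / 16 : ℝ) = ((290271069732864 : ℤ) : ℝ) / 2 ^ 47 := by norm_num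
theorem l2 : ((-46912496118443 : ℤ) : ℝ) / 2 ^ 47 ≤ -1 / 3 := by norm_num
theorem u2 : (4 / 5 : ℝ) ≤ ((112589990684263 : ℤ) : ℝ) / 2 ^ 47 := by norm_num

theorem out0 {D F t : ℝ} (a0 : -33 / 16 ≤ D) (b0 : D ≤ -31 / 16) (a1 : 31 / 16 ≤ F) (b1 : F ≤ 33 /
    16) (a2 : -1 / 3 ≤ t) (b2 : t ≤ 4 / 5) : 0 < outR prog 0 [D, F, t] :=
  gd 0 (by decide) [D, F, t] (.cons ⟨l0.le.trans a0, b0.trans u0.le⟩ (.cons ⟨l1.le.trans a1,
    b1.trans u1.le⟩ (.cons ⟨l2.trans a2, b2.trans u2⟩ (.nil)))) ⟨nofun, nofun, nofun, trivial⟩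
    (List.forall_mem_nil _) (Van.of0 rfl) (nofun)

theorem pos0 {D F t r W f : ℝ} (hr : r = Real.exp (-t)) (hW : W = (1 + 2 * D) * (F - 1) - 2 * D * (F
    - 2) * r) (hf : f = (1 + D) * F - (1 + 2 * D) * (F - 1) * r + D * (F - 2) * r ^ 2) (a0 : -33 /
    16 ≤ D) (b0 : D ≤ -31 / 16) (a1 : 31 / 16 ≤ F) (b1 : F ≤ 33 / 16) (a2 : -1 / 3 ≤ t) (b2 : t ≤ 4
    / 5) : 0 < 5 * r * W ^ 2 + 3 * f * ((1 + 2 * D) * (F ^ 2 - 1) - 2 * (F ^ 2 - 4) * D * r) :=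
  have e := eq hr hW hf
  (out0 a0 b0 a1 b1 a2 b2).trans_eq e

end Pool.Agent.Lib.MP_d6150d_an.S6ES
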