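import Pool.Agent.Lib.MP_d6150d_an.GMac
import Pool.Agent.Lib.MP_d6150d_an.S6ETK0

/-! A generated chart: the inequality. -/

namespace Pool.Agent.Lib.MP_d6150d_an.S6ET

set_option linter.unnecessarySeqFocus false
set_option linter.unusedTactic false
set_option linter.unusedVariables false

theorem gd : Gd C [(-290271069732864, -272678883688448), (272678883688448, 290271069732864), (0,
    7036874417767)] := chk_sound k0

set_option maxRecDepth 100000 in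
theorem eq {D F s a b c n p q mp mq : ℝ} (ha : a = (1 + D) / F) (hb : b = (-2) * (1 + 2 * D) / (1 -
    2 * F)) (hc : c = (-D) / (1 - F)) (hn : n = b * s - a * s ^ 2 - c) (hp : p = -1 / 3) (hq : q = 7
    / 32) (hmp : mp = muR D F p) (hmq : mq = muR D F q) : outR prog 0 [D, F, s] = ((1 - s) * ((1 +
    D) * s - D)) ^ 3 + n * ((1 + 2 * D) * (F - 1)) ∧ outR prog 1 [D, F, s] = p ^ 2 * mp - q ^ 2 * mq
    := by
  replace ha : a = (((Int.cast (1) : ℝ) + D) * F⁻¹) := ha.trans (by push_cast <;> ring)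
  replace hb : b = (((Int.cast (-2) : ℝ) * ((Int.cast (1) : ℝ) + ((Int.cast (2) : ℝ) * D))) *
    ((Int.cast (1) : ℝ) - ((Int.cast (2) : ℝ) * F))⁻¹) := hb.trans (by push_cast <;> ring)
  replace hc : c = (((Int.cast (-1) : ℝ) * D) * ((Int.cast (1) : ℝ) - F)⁻¹) := hc.trans (by
    push_cast <;> ring)
  replace hn : n = (((b * s) - (a * (s * s))) - c) := hn.trans (by push_cast <;> ring)
  replace hp : p = ((Int.cast (-1) : ℝ) / (Nat.cast 3 : ℝ)) := hp.trans (by push_cast <;> ring)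
  replace hq : q = ((Int.cast (7) : ℝ) / (Nat.cast 32 : ℝ)) := hq.trans (by push_cast <;> ring)
  replace hmp : mp = (mMu D F p) := hmp.trans (mMu_0 ..)
  replace hmq : mq = (mMu D F q) := hmq.trans (mMu_0 ..)
  have e0 : ((((((Int.cast (1) : ℝ) - s) * ((((Int.cast (1) : ℝ) + D) * s) - D)) * (((Int.cast (1) :
    ℝ) - s) * ((((Int.cast (1) : ℝ) + D) * s) - D))) * (((Int.cast (1) : ℝ) - s) * ((((Int.cast (1)
    : ℝ) + D) * s) - D))) + (n * (((Int.cast (1) : ℝ) + ((Int.cast (2) : ℝ) * D)) * (F - (Int.cast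
    (1) : ℝ))))) = ((1 - s) * ((1 + D) * s - D)) ^ 3 + n * ((1 + 2 * D) * (F - 1)) := by push_cast
    <;> ring
  have e1 : (((p * p) * mp) - ((q * q) * mq)) = p ^ 2 * mp - q ^ 2 * mq := by push_cast <;> ring
  subst ha hb hc hn hp hq hmp hmq
  exact ⟨Eq.trans rfl e0, Eq.trans rfl e1⟩

theorem l0 : ((-290271069732864 : ℤ) : ℝ) / 2 ^ 47 = -33 / 16 := by norm_num
theorem u0 : (-31 / 16 : ℝ) = ((-272678883688448 : ℤ) : ℝ) / 2 ^ 47 := by norm_num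
theorem l1 : ((272678883688448 : ℤ) : ℝ) / 2 ^ 47 = 31 / 16 := by norm_num
theorem u1 : (33 / 16 : ℝ) = ((290271069732864 : ℤ) : ℝ) / 2 ^ 47 := by norm_num
theorem l2 : ((0 : ℤ) : ℝ) / 2 ^ 47 = 0 := by norm_num
theorem u2 : (1 / 20 : ℝ) ≤ ((7036874417767 : ℤ) : ℝ) / 2 ^ 47 := by norm_num

theorem out0 {D F s : ℝ} (a0 : -33 / 16 ≤ D) (b0 : D ≤ -31 / 16) (a1 : 31 / 16 ≤ F) (b1 : F ≤ 33 /
    16) (a2 : 0 ≤ s) (b2 : s ≤ 1 / 20) : 0 < outR prog 0 [D, F, s] :=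
  gd 0 (by decide) [D, F, s] (.cons ⟨l0.le.trans a0, b0.trans u0.le⟩ (.cons ⟨l1.le.trans a1,
    b1.trans u1.le⟩ (.cons ⟨l2.le.trans a2, b2.trans u2⟩ (.nil)))) ⟨nofun, nofun, nofun, trivial⟩
    (List.forall_mem_nil _) (Van.of0 rfl) (nofun)

theorem pos0 {D F s a b c n p q mp mq : ℝ} (ha : a = (1 + D) / F) (hb : b = (-2) * (1 + 2 * D) / (1
    - 2 * F)) (hc : c = (-D) / (1 - F)) (hn : n = b * s - a * s ^ 2 - c) (hp : p = -1 / 3) (hq : q =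
    7 / 32) (hmp : mp = muR D F p) (hmq : mq = muR D F q) (a0 : -33 / 16 ≤ D) (b0 : D ≤ -31 / 16)
    (a1 : 31 / 16 ≤ F) (b1 : F ≤ 33 / 16) (a2 : 0 ≤ s) (b2 : s ≤ 1 / 20) : 0 < ((1 - s) * ((1 + D) *
    s - D)) ^ 3 + n * ((1 + 2 * D) * (F - 1)) :=
  have e := eq ha hb hc hn hp hq hmp hmq
  (out0 a0 b0 a1 b1 a2 b2).trans_eq e.1

theorem out1 {D F s : ℝ} (a0 : -33 / 16 ≤ D) (b0 : D ≤ -31 / 16) (a1 : 31 / 16 ≤ F) (b1 : F ≤ 33 /
    16) (a2 : 0 ≤ s) (b2 : s ≤ 1 / 20) : 0 < outR prog 1 [D, F, s] :=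
  gd 1 (by decide) [D, F, s] (.cons ⟨l0.le.trans a0, b0.trans u0.le⟩ (.cons ⟨l1.le.trans a1,
    b1.trans u1.le⟩ (.cons ⟨l2.le.trans a2, b2.trans u2⟩ (.nil)))) ⟨nofun, nofun, nofun, trivial⟩
    (List.forall_mem_nil _) (Van.of0 rfl) (nofun)

theorem pos1 {D F s a b c n p q mp mq : ℝ} (ha : a = (1 + D) / F) (hb : b = (-2) * (1 + 2 * D) / (1
    - 2 * F)) (hc : c = (-D) / (1 - F)) (hn : n = b * s - a * s ^ 2 - c) (hp : p = -1 / 3) (hq : q =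
    7 / 32) (hmp : mp = muR D F p) (hmq : mq = muR D F q) (a0 : -33 / 16 ≤ D) (b0 : D ≤ -31 / 16)
    (a1 : 31 / 16 ≤ F) (b1 : F ≤ 33 / 16) (a2 : 0 ≤ s) (b2 : s ≤ 1 / 20) : 0 < p ^ 2 * mp - q ^ 2 *
    mq :=
  have e := eq ha hb hc hn hp hq hmp hmq
  (out1 a0 b0 a1 b1 a2 b2).trans_eq e.2

end Pool.Agent.Lib.MP_d6150d_an.S6ET
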