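import Pool.Agent.Lib.MP_d6150d_an.SchMain

/-! Parameter regions where the test of Schaaf holds. -/

namespace Pool.Agent.Lib.MP_d6150d_an

open Real Set

variable {D F r : ℝ}

theorem memJ_iff {t : ℝ} : t ∈ JR D ↔ 0 < 1 + D - D * exp (-t) := by
  have h : exp (-t) * exp t = 1 := by rw [← exp_add]; simp
  have e : 1 + D - D * exp (-t) = exp (-t) * om D t := by
    rw [om]; linear_combination (-(1 + D)) * h
  rw [e, mul_pos_iff_of_pos_left (exp_pos _)]; rfl

/-- Off the open rectangle the second condition always holds. -/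
theorem svA_pos (h : D ≤ -1 ∨ 0 ≤ D ∨ F ≤ 0 ∨ 2 ≤ F) (hr : 0 < r) (ha : 0 < 1 + D - D * r)
    (hf : sv2 D F r = 0) : 0 < svA D F r := by
  have key : (1 - r) * svW D F r < 0 := by
    have i1 : (1 - r) * svW D F r = -1 - D * (2 - F) * (1 - r) ^ 2 := by
      simp only [sv2, svW] at hf ⊢; linear_combination hf
    have i2 : svW D F r * (1 + D - D * r) = 1 + D - (2 - F) * (1 + D - D * r) ^ 2 := by
      simp only [sv2, svW] at hf ⊢; linear_combination D * hf
    have i0 : r * svW D F r = F * (1 + D) + D * (2 - F) * r ^ 2 := by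
      simp only [sv2, svW] at hf ⊢; linear_combination -hf
    have i3 : 1 + (F + 2 * D - 1) * (1 - r) + D * (F - 2) * (1 - r) ^ 2 = 0 := by
      simp only [sv2] at hf; linear_combination hf
    have i4 : F * ((1 - r) * (1 + D - D * r)) + r * (1 + 2 * D * (1 - r)) = 0 := by
      simp only [sv2] at hf; linear_combination hf
    rcases le_or_gt 0 (D * (2 - F)) with hb | hb
    · have := mul_nonneg hb (sq_nonneg (1 - r)); linarith
    have neg : D < 0 → F + 2 * D - 1 < 0 → svW D F r < 0 → (1 - r) * svW D F r < 0 :=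
      fun _ h2 h3 ↦ mul_neg_of_pos_of_neg (by
        by_contra h'
        nlinarith [mul_nonneg_of_nonpos_of_nonpos h2.le (not_lt.1 h'),
          mul_nonneg (neg_pos.2 hb).le (sq_nonneg (1 - r))]) h3
    rcases lt_trichotomy D 0 with hD | hD | hD
    · have hF : F < 2 := by by_contra h'; nlinarith
      rcases le_or_gt D (-1) with h1 | h1
      · refine neg hD (by linarith) (neg_of_mul_neg_right ?_ ha.le)
        have : 0 < (2 - F) * (1 + D - D * r) ^ 2 := mul_pos (by linarith) (by positivity)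
        linarith
      · have hF0 : F ≤ 0 := by rcases h with h | h | h | h <;> linarith
        refine neg hD (by linarith) (neg_of_mul_neg_left ?_ hr.le)
        nlinarith [mul_pos (neg_pos.2 hb) (pow_pos hr 2)]
    · simp [hD] at hb
    · have hF : 2 < F := by by_contra h'; nlinarith
      have p : 0 < svW D F r := by
        refine (mul_pos_iff_of_pos_right ha).1 ?_
        have : 0 < (F - 2) * (1 + D - D * r) ^ 2 := mul_pos (by linarith) (by positivity)
        linarith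
      refine mul_neg_of_neg_of_pos ?_ p
      by_contra h'
      have h1 : 0 ≤ 1 - r := not_lt.1 h'
      have : 0 ≤ F * ((1 - r) * (1 + D - D * r)) := by
        have : 0 < F := by linarith
        positivity
      have : 0 < r * (1 + 2 * D * (1 - r)) := by positivity
      linarith
  have e : svA D F r = 2 * ((1 + D - D * r) * r) * -((1 - r) * svW D F r) := by
    rw [svA, hf, sv1]; ring
  rw [e]
  exact mul_pos (by positivity) (by linarith)

variable (D F) in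
/-- the first condition -/
def SchS (r : ℝ) : Prop := 0 < sv2 D F r → 0 < svS D F r

theorem noThree_of_full (h : D ≤ -1 ∨ 0 ≤ D ∨ F ≤ 0 ∨ 2 ≤ F)
    (hS : ∀ r, 0 < r → 0 < 1 + D - D * r → SchS D F r) : SchOK2 D F :=
  fun _ ha _ hb _ _ _ _ ht _ ↦
    have m := memJ_iff.1 (JR_conn ha hb ht.1 ht.2)
    ⟨hS _ (exp_pos _) m, svA_pos h (exp_pos _) m⟩

theorem sv2_eq : sv2 D F r = F * ((1 - r) * (1 + D - D * r)) + r * (1 + 2 * D * (1 - r)) := by
  rw [sv2]; ring

theorem svS_eq : svS D F r = 5 * r * ((F - 1) * (1 + 2 * D * (1 - r)) + 2 * (D * r)) ^ 2 +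
    3 * sv2 D F r * ((F ^ 2 - 1) * (1 + 2 * D * (1 - r)) + 6 * (D * r)) := by
  rw [svS, svW]; ring

theorem schS_of_pos (hr : 0 < r) (h : 0 < sv2 D F r →
    0 < (F ^ 2 - 1) * (1 + 2 * D * (1 - r)) + 6 * (D * r)) : SchS D F r := fun hf ↦ by
  have := h hf
  rw [svS_eq]; positivity

/-- region `0 ≤ D`, `1 ≤ F` -/
theorem sch_c (hD : 0 ≤ D) (hF : 1 ≤ F) (h : 0 < D ∨ 1 < F) : SchOK2 D F :=
  noThree_of_full (by tauto) fun r hr ha ↦ schS_of_pos hr fun hf ↦ by
    have he : 0 < 1 + 2 * D * (1 - r) := by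
      rcases le_or_gt 0 (1 - r) with h1 | h1
      · positivity
      · rw [sv2_eq] at hf
        have : F * ((1 - r) * (1 + D - D * r)) < 0 :=
          mul_neg_of_pos_of_neg (by linarith) (mul_neg_of_neg_of_pos h1 ha)
        exact (mul_pos_iff_of_pos_left hr).1 (by linarith)
    rcases h with h | h
    · have : 0 ≤ F ^ 2 - 1 := by nlinarith
      positivity
    · have : 0 < F ^ 2 - 1 := by nlinarith
      positivity

/-- region `-1/2 ≤ D ≤ 0`, `2 ≤ F` -/
theorem sch_d (hD : -1 / 2 ≤ D) (hD' : D ≤ 0) (hF : 2 ≤ F) (h : -1 / 2 < D ∨ 2 < F) :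
    SchOK2 D F :=
  noThree_of_full (by tauto) fun r hr _ ↦ schS_of_pos hr fun _ ↦ by
    have e : (F ^ 2 - 1) * (1 + 2 * D * (1 - r)) + 6 * (D * r) =
      (F ^ 2 - 1) * (1 + 2 * D) + 2 * (F ^ 2 - 4) * (-D) * r := by ring
    have h1 : 0 < F ^ 2 - 1 := by nlinarith
    have h2 : 0 ≤ F ^ 2 - 4 := by nlinarith
    have h3 : 0 ≤ -D := by linarith
    have h4 : 0 ≤ 1 + 2 * D := by linarith
    rw [e]
    rcases h4.eq_or_lt with h5 | h5
    · have : 0 < F ^ 2 - 4 := by rcases h with h | h <;> nlinarith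
      have : 0 < -D := by linarith
      positivity
    · positivity

theorem schS_neg (hr : 0 < r) (hγ : F * (1 + D) ≤ 0) (hD : D ≤ 0) (hF : F ≤ 1)
    (h : D ≤ -1 / 2 ∨ F ≤ 0) : SchS D F r := fun hf ↦ by
  have hw : 0 ≤ -D * (2 - F) * r := mul_nonneg (mul_nonneg (by linarith) (by linarith)) hr.le
  have e1 : sv2 D F r = F * (1 + D) + r * (-D * (2 - F) * r - (F - 1) * (1 + 2 * D)) := by
    rw [sv2]; ring
  have e2 : svS D F r = 5 * r * ((F - 1) * (1 + 2 * D) - 2 * (-D * (2 - F) * r)) ^ 2 +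
      3 * sv2 D F r * ((F + 1) * ((F - 1) * (1 + 2 * D)) - 2 * (F + 2) * (-D * (2 - F) * r)) := by
    rw [svS, svW]; ring
  have hα : 0 ≤ (F - 1) * (1 + 2 * D) ∨ F ≤ 0 :=
    h.imp_left fun h ↦ mul_nonneg_of_nonpos_of_nonpos (by linarith) (by linarith)
  rw [e2]
  generalize sv2 D F r = f at *
  generalize -D * (2 - F) * r = w at *
  generalize (F - 1) * (1 + 2 * D) = α at *
  have h1 : α < w := by by_contra h'; nlinarith
  have h2 : 0 < 5 * r * (α - 2 * w) ^ 2 := by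
    have : α - 2 * w ≠ 0 := by intro h; linarith
    positivity
  rcases le_or_gt 0 ((F + 1) * α - 2 * (F + 2) * w) with hn | hn
  · have := mul_nonneg hf.le hn; linarith
  have h3 : 0 < 5 * (α - 2 * w) ^ 2 + 3 * (w - α) * ((F + 1) * α - 2 * (F + 2) * w) := by
    rcases le_or_gt 0 α with h4 | h4
    · have := mul_nonneg (sub_nonneg.2 hF) (mul_nonneg (sub_nonneg.2 h1.le)
        (by linarith : 0 ≤ 2 * w - α))
      nlinarith [mul_nonneg h4 hw]
    · have h5 : F ≤ 0 := hα.resolve_left h4.not_ge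
      nlinarith [mul_nonneg (neg_nonneg.2 h5) (sq_nonneg α), mul_nonneg (neg_nonneg.2 h5) (sq_nonneg w),
        mul_nonneg (neg_nonneg.2 h4.le) hw, mul_nonneg (neg_nonneg.2 h5)
          (mul_nonneg (neg_nonneg.2 h4.le) hw), mul_pos_of_neg_of_neg h4 h4]
  nlinarith [mul_pos hr h3, mul_nonneg_of_nonpos_of_nonpos hγ hn.le]

/-- region `D ≤ -1`, `0 ≤ F ≤ 1` -/
theorem sch_b (hD : D ≤ -1) (hF : 0 ≤ F) (hF' : F ≤ 1) : SchOK2 D F :=
  noThree_of_full (by tauto) fun _ hr _ ↦ schS_neg hr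
    (mul_nonpos_of_nonneg_of_nonpos hF (by linarith)) (by linarith) hF' (Or.inl (by linarith))

/-- region `1 ≤ F ≤ 9/8` to the left of a parabola -/
theorem sch_b' (hF : 1 ≤ F) (hF' : F ≤ 9 / 8) (hD : D ≤ -1 - (F - 1) ^ 2 / 2) : SchOK2 D F := by
  have hD1 : D ≤ -1 := by nlinarith
  refine noThree_of_full (by tauto) fun r hr _ _ ↦ ?_
  obtain ⟨η, rfl⟩ : ∃ η, F = 1 + η := ⟨F - 1, by ring⟩
  obtain ⟨δ, rfl⟩ : ∃ δ, D = -1 - δ := ⟨-1 - D, by ring⟩
  have h0 : 0 ≤ η := by linarith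
  have h1 : η ≤ 1 / 8 := by linarith
  have h2 : η ^ 2 / 2 ≤ δ := by nlinarith
  have h3 : 0 ≤ δ := by linarith
  have hB : 0 < (1 + δ) * (1 - η) := mul_pos (by linarith) (by linarith)
  have hA : 0 ≤ η * (1 + 2 * δ) := by positivity
  have hG : 0 ≤ 3 * ((1 + η) * δ * ((1 + δ) * (1 - η))) - (η * (1 + 2 * δ)) ^ 2 := by
    have : η ^ 2 ≤ 1 / 64 := by nlinarith
    have h4 : 0 ≤ η ^ 2 := by positivity
    have e : 3 * ((1 + η) * δ * ((1 + δ) * (1 - η))) - (η * (1 + 2 * δ)) ^ 2 =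
      (3 - 7 * η ^ 2) * (δ + δ ^ 2) - η ^ 2 := by ring
    rw [e]; nlinarith [sq_nonneg δ]
  refine (mul_pos_iff_of_pos_left hB).1 ?_
  have e : (1 + δ) * (1 - η) * svS (-1 - δ) (1 + η) r =
      (2 + η) * (η * (1 + 2 * δ)) ^ 3 + (5 - η) * (η * (1 + 2 * δ)) ^ 2 * ((1 + δ) * (1 - η) * r) -
      (4 + 9 * η) * (η * (1 + 2 * δ)) * ((1 + δ) * (1 - η) * r) ^ 2 +
      (2 - 6 * η) * ((1 + δ) * (1 - η) * r) ^ 3 +
      (3 * ((1 + η) * δ * ((1 + δ) * (1 - η))) - (η * (1 + 2 * δ)) ^ 2) *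
        ((2 + η) * (η * (1 + 2 * δ)) + 2 * (3 + η) * ((1 + δ) * (1 - η) * r)) := by
    simp only [svS, svW, sv2]; ring
  have hw := mul_pos hB hr
  rw [e]
  generalize (1 + δ) * (1 - η) * r = w at *
  generalize 3 * ((1 + η) * δ * ((1 + δ) * (1 - η))) - (η * (1 + 2 * δ)) ^ 2 = G at *
  generalize η * (1 + 2 * δ) = A at *
  have h5 : 0 ≤ G * ((2 + η) * A + 2 * (3 + η) * w) := by positivity
  have h6 : 0 < 2 * A ^ 3 + 39 / 8 * A ^ 2 * w - 41 / 8 * A * w ^ 2 + 5 / 4 * w ^ 3 := by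
    nlinarith [mul_nonneg hA (sq_nonneg (w - 2 * A)), mul_nonneg hw.le (sq_nonneg (w - 2 * A)),
      mul_nonneg hA (sq_nonneg A), pow_pos hw 3, mul_nonneg hw.le (sq_nonneg (w - 9 / 4 * A))]
  have h7 : 0 ≤ (1 / 8 - η) * (A ^ 2 * w + 9 * A * w ^ 2 + 6 * w ^ 3) :=
    mul_nonneg (by linarith) (by positivity)
  have h8 : 0 ≤ η * A ^ 3 := by positivity
  linarith

theorem schS_a1 (hr : 0 < r) (ha : 0 < 1 + D - D * r) (hD : D ≤ -1) (hF : F ≤ 0) :
    SchS D F r := fun hf ↦ by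
  have e1 := sv2_eq (D := D) (F := F) (r := r)
  have hs : 0 < -(D * r) := by nlinarith
  have h : 0 < 1 + 2 * D * (1 - r) ∧ sv2 D F r ≤ r * ((1 - F) * (1 + 2 * D * (1 - r))) := by
    rcases le_or_gt 0 (1 - r) with h1 | h1
    · have h2 : F * ((1 - r) * (1 + D - D * r)) ≤ 0 :=
        mul_nonpos_of_nonpos_of_nonneg hF (by positivity)
      have h3 : 0 < r * (1 + 2 * D * (1 - r)) := by linarith
      exact ⟨(mul_pos_iff_of_pos_left hr).1 h3, by nlinarith⟩
    · refine ⟨by nlinarith, ?_⟩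
      have h2 : 0 ≤ (1 - r) * (1 + D - D * r) + r * (1 + 2 * D * (1 - r)) := by
        have : 1 ≤ r ^ 2 := by nlinarith
        nlinarith
      nlinarith
  rw [svS_eq]
  generalize sv2 D F r = f at *
  generalize 1 + 2 * D * (1 - r) = e at *
  generalize D * r = z at *
  have hε : 0 < (1 - F) * e := mul_pos (by linarith) h.1
  have h1 : -((1 - F) * e) + 6 * z ≤ (F ^ 2 - 1) * e + 6 * z := by nlinarith
  have h2 := mul_le_mul_of_nonneg_left h1 hf.le
  have h3 := mul_le_mul_of_nonpos_right h.2 (by linarith : -((1 - F) * e) + 6 * z ≤ 0)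
  have h4 : 0 < 5 * ((F - 1) * e + 2 * z) ^ 2 + 3 * ((1 - F) * e) * (-((1 - F) * e) + 6 * z) := by
    nlinarith [mul_pos hε hs, mul_pos hε hε, mul_pos hs hs]
  nlinarith [mul_pos hr h4]

theorem schS_a2 (hr : 0 < r) (hD : 0 ≤ D) (hF : F ≤ 0) (hF' : -1 ≤ F) : SchS D F r := fun hf ↦ by
  have hv : 0 ≤ D * (2 - F) * r := mul_nonneg (mul_nonneg hD (by linarith)) hr.le
  have e1 : sv2 D F r = F * (1 + D) + r * (D * (2 - F) * r - svW D F r) := by
    rw [sv2, svW]; ring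
  have e2 : svS D F r = 5 * r * svW D F r ^ 2 +
      3 * sv2 D F r * ((F + 1) * svW D F r + 2 * (D * (2 - F) * r)) := by rw [svS, svW]; ring
  have h0 : svW D F r < 2 * (D * (2 - F) * r) := by rw [svW]; nlinarith
  have hγ : F * (1 + D) ≤ 0 := mul_nonpos_of_nonpos_of_nonneg hF (by linarith)
  rw [e2]
  generalize sv2 D F r = f at *
  generalize D * (2 - F) * r = v at *
  generalize svW D F r = m at *
  rcases le_or_gt 0 m with hm | hm
  · have : 0 < v := by linarith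
    have : 0 ≤ F + 1 := by linarith
    positivity
  have h2 : 0 < 5 * r * m ^ 2 := by have := hm.ne; positivity
  have h3 : m + 2 * v ≤ (F + 1) * m + 2 * v := by nlinarith
  have h4 := mul_le_mul_of_nonneg_left h3 hf.le
  rcases le_or_gt 0 (m + 2 * v) with hn | hn
  · have := mul_nonneg hf.le hn; linarith
  have h5 := mul_le_mul_of_nonpos_right (by linarith : f ≤ r * (v - m)) hn.le
  have h6 : 0 < 5 * m ^ 2 + 3 * (v - m) * (m + 2 * v) := by
    nlinarith [mul_nonneg hv (neg_pos.2 hm).le, mul_pos_of_neg_of_neg hm hm]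
  nlinarith [mul_pos hr h6]

theorem schS_a3 (hr : 0 < r) (ha : 0 < 1 + D - D * r) (hD : 0 ≤ D) (hF : F ≤ -1)
    (hY : F < -2 → F * (1 - r) ≤ 1) : SchS D F r := fun hf ↦ by
  have hF2 : 0 ≤ F ^ 2 - 1 := by nlinarith
  rcases le_or_gt 0 (1 + 2 * D * (1 - r)) with he | he
  · rcases hD.eq_or_lt with rfl | h
    · have : F - 1 ≠ 0 := by intro h; linarith
      rw [svS_eq]
      simp only [mul_zero, zero_mul, add_zero, mul_one]
      positivity
    · exact schS_of_pos hr (fun _ ↦ by positivity) hf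
  have hx : 1 - r < 0 := by by_contra h'; nlinarith
  have hD0 : 0 < D := by by_contra h'; nlinarith
  rcases le_or_gt (-2) F with h2 | h2
  · refine schS_of_pos hr (fun _ ↦ ?_) hf
    have e : (F ^ 2 - 1) * (1 + 2 * D * (1 - r)) + 6 * (D * r) =
      (F ^ 2 - 1) * (1 + 2 * D) + 2 * (4 - F ^ 2) * D * r := by ring
    have h3 : 0 ≤ 4 - F ^ 2 := by nlinarith
    rw [e]
    rcases h3.eq_or_lt with h4 | h4
    · have : 0 < F ^ 2 - 1 := by linarith
      positivity
    · positivity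
  have hY := hY h2
  have e1 := sv2_eq (D := D) (F := F) (r := r)
  have h3 : -F ≤ 2 * D := by nlinarith
  have h4 : -F ≤ 2 * (D * r) := by nlinarith
  have h5 : F * ((1 - r) * (1 + D - D * r)) ≤ 1 / 2 := by nlinarith
  rw [svS_eq]
  generalize sv2 D F r = f at *
  generalize 1 + 2 * D * (1 - r) = e at *
  generalize D * r = z at *
  have h6 : f * -e ≤ 1 / 16 := by
    have : f + -e ≤ 1 / 2 := by nlinarith [mul_pos_of_neg_of_neg hx he]
    nlinarith [sq_nonneg (f + e)]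
  have h7 : F ^ 2 ≤ ((F - 1) * e + 2 * z) ^ 2 := by
    have : 0 ≤ (F - 1) * e := mul_nonneg_of_nonpos_of_nonpos (by linarith) he.le
    nlinarith
  have h8 : 0 ≤ f * z := mul_nonneg hf.le (by linarith)
  have h9 := mul_le_mul_of_nonneg_left h6 hF2
  nlinarith [mul_nonneg (by linarith : 0 ≤ r - 1) (sq_nonneg ((F - 1) * e + 2 * z))]

theorem cexp (c t : ℝ) : c * (t * ph1 (c * t)) = exp (c * t) - 1 := by
  rw [exp_eq_ph (c * t)]; ring

variable (D F) in
/-- the polynomial in the closed form of the potential -/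
def sΩ (r : ℝ) : ℝ := (1 + D) * ((2 * F - 1) * (2 * F - 2)) - (1 + 2 * D) * (2 * F * (2 * F - 2)) * r +
  D * (2 * F * (2 * F - 1)) * r ^ 2

theorem vR_closed (t : ℝ) : 2 * F * (2 * F - 1) * (2 * F - 2) * vR D F t =
    2 * (exp (2 * F * t) * sΩ D F (exp (-t)) - sΩ D F 1) := by
  have h1 : exp ((2 * F - 1) * t) = exp (2 * F * t) * exp (-t) := by rw [← exp_add]; ring_nf
  have h2 : exp ((2 * F - 2) * t) = exp (2 * F * t) * exp (-t) ^ 2 := by
    rw [sq, ← exp_add, ← exp_add]; ring_nf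
  have a0 := cexp (2 * F) t
  have a1 := cexp (2 * F - 1) t
  have a2 := cexp (2 * F - 2) t
  rw [h1] at a1
  rw [h2] at a2
  rw [vR_eq, sΩ, sΩ]
  linear_combination 2 * (1 + D) * ((2 * F - 1) * (2 * F - 2)) * a0 -
    2 * (1 + 2 * D) * (2 * F * (2 * F - 2)) * a1 + 2 * D * (2 * F * (2 * F - 1)) * a2

theorem range_neg {a b t : ℝ} (hD : 0 ≤ D) (hF : F < 0) (ha : a ∈ JR D) (hb : 0 < b)
    (hv : vR D F a = vR D F b) (h1 : a ≤ t) (h2 : t < 0) : F * (1 - exp (-t)) ≤ 1 := by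
  have ht := JR_conn ha (zero_mem_JR D) h1 h2.le
  have h3 : vR D F t ≤ vR D F b := by
    rcases h1.eq_or_lt with rfl | h
    · exact hv.le
    · exact hv ▸ (vR_anti ha h2.le h).le
  have c : 2 * F * (2 * F - 1) * (2 * F - 2) < 0 :=
    mul_neg_of_pos_of_neg (mul_pos_of_neg_of_neg (by linarith) (by linarith)) (by linarith)
  have h4 := mul_le_mul_of_nonpos_left h3 c.le
  rw [vR_closed, vR_closed] at h4
  have e : ∀ r, sΩ D F r = (2 - 2 * F) * (1 + 2 * F * r - 2 * F) +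
      D * (2 * r ^ 2 + 2 * (2 - 2 * F) * r * (1 - r) + (2 * F - 1) * (2 * F - 2) * (1 - r) ^ 2) :=
    fun r ↦ by rw [sΩ]; ring
  have h5 : 0 < sΩ D F (exp (-b)) := by
    have p1 := exp_pos (-b)
    have p2 : 0 < 1 - exp (-b) := by have := exp_lt_one_iff.2 (neg_lt_zero.2 hb); linarith
    have p3 : 0 < 2 - 2 * F := by linarith
    have p4 : 0 < 1 + 2 * F * exp (-b) - 2 * F := by nlinarith
    have p5 : 0 < (2 * F - 1) * (2 * F - 2) := mul_pos_of_neg_of_neg (by linarith) (by linarith)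
    rw [e]; positivity
  have h6 : 0 < sΩ D F (exp (-t)) := (mul_pos_iff_of_pos_left (exp_pos (2 * F * t))).1 (by
    linarith [mul_pos (exp_pos (2 * F * b)) h5])
  have m := memJ_iff.1 ht
  have p1 : 1 < exp (-t) := one_lt_exp_iff.2 (by linarith)
  generalize exp (-t) = r at *
  have p2 : 0 < 2 * r ^ 2 + 2 * (2 - 2 * F) * r * (1 - r) +
      (2 * F - 1) * (2 * F - 2) * (1 - r) ^ 2 := by
    nlinarith [sq_nonneg (1 - F * (1 - r)), mul_nonneg (neg_pos.2 hF).le (sq_nonneg (1 - r)),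
      sq_nonneg (F * (1 - r))]
  have e2 : (r - 1) * sΩ D F r = 2 * r * (1 - F * (1 - r)) - (1 + D - D * r) *
      (2 * r ^ 2 + 2 * (2 - 2 * F) * r * (1 - r) + (2 * F - 1) * (2 * F - 2) * (1 - r) ^ 2) := by
    rw [sΩ]; ring
  have p3 : 0 < 2 * r * (1 - F * (1 - r)) := by
    linarith [mul_pos (sub_pos.2 p1) h6, mul_pos m p2]
  linarith [(mul_pos_iff_of_pos_left (by linarith : 0 < 2 * r)).1 p3]

/-- region `F ≤ 0` -/
theorem sch_a (hF : F ≤ 0) : SchOK2 D F := by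
  rcases le_total D (-1) with h | h
  · exact noThree_of_full (by tauto) fun r hr ha ↦ schS_a1 hr ha h hF
  rcases le_total D 0 with h' | h'
  · exact noThree_of_full (by tauto) fun r hr _ ↦ schS_neg hr
      (mul_nonpos_of_nonpos_of_nonneg hF (by linarith)) h' (by linarith) (Or.inr hF)
  rcases le_total (-1) F with h1 | h1
  · exact noThree_of_full (by tauto) fun r hr _ ↦ schS_a2 hr h' hF h1
  intro a ha b hb a0 b0 hv t ht t0
  have m := memJ_iff.1 (JR_conn ha hb ht.1 ht.2)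
  refine ⟨schS_a3 (exp_pos _) m h' h1 fun h2 ↦ ?_, svA_pos (by tauto) (exp_pos _) m⟩
  rcases t0.lt_or_gt with h3 | h3
  · exact range_neg h' (by linarith) ha b0 hv ht.1 h3
  · have := exp_lt_one_iff.2 (neg_lt_zero.2 h3)
    nlinarith

/-- region to the left of a wedge -/
theorem sch_e (hD : D ≤ -1 - F / 4) (h : 4 ≤ F ∨ 5 / 2 ≤ F ∧ D ≤ -3) : SchOK2 D F := by
  have hF : 5 / 2 ≤ F := by rcases h with h | h; exacts [by linarith, h.1]
  have hD2 : D ≤ -2 := by rcases h with h | h; exacts [by linarith, by linarith [h.2]]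
  refine noThree_of_full (Or.inl (by linarith)) fun r hr ha hf ↦ ?_
  have e1 : -2 * (D * r) * sv2 D F r = r * (-2 * (D * r) * (1 + 2 * D * (1 - r))) +
      r * F * (1 - (1 + 2 * D * (1 - r)) ^ 2) / 2 := by rw [sv2]; ring
  have e2 : -2 * (D * r) = 2 * (-1 - D) + 1 + (1 + 2 * D * (1 - r)) := by ring
  have he : -1 < 1 + 2 * D * (1 - r) := by linarith
  rw [svS_eq, show 2 * (D * r) = -(-2 * (D * r)) by ring,
    show 6 * (D * r) = -3 * (-2 * (D * r)) by ring]
  obtain ⟨f, hf'⟩ : ∃ f, sv2 D F r = r * f := ⟨sv2 D F r / r, by field_simp⟩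
  rw [hf'] at hf e1 ⊢
  have hf := (mul_pos_iff_of_pos_left hr).1 hf
  generalize 1 + 2 * D * (1 - r) = e at *
  generalize -2 * (D * r) = s at *
  have e3 : s * f = s * e + F * (1 - e ^ 2) / 2 := mul_left_cancel₀ hr.ne' (by linarith)
  have hs : 0 < s := by linarith
  suffices 0 < 5 * ((F - 1) * e + -s) ^ 2 + 3 * f * ((F ^ 2 - 1) * e + -3 * s) by
    nlinarith [mul_pos hr this]
  have b1 : e ≤ 1 → f ≤ e + (1 - e ^ 2) := fun h1 ↦ by
    refine le_of_mul_le_mul_left ?_ hs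
    have : 0 ≤ 1 - e ^ 2 := by nlinarith
    nlinarith [mul_nonneg this (by linarith : 0 ≤ s - F / 2)]
  rcases le_or_gt e 0 with h0 | h0
  · have h1 : f ≤ 1 := by nlinarith [b1 (by linarith)]
    have h2 : 0 ≤ (F - 1) * -e := mul_nonneg (by linarith) (by linarith)
    have h3 : 0 ≤ 10 * s - 3 * (F + 1) * f := by nlinarith
    have h4 : 0 < 5 * s - 9 * f := by linarith
    nlinarith [mul_nonneg h2 h3, mul_pos hs h4, sq_nonneg ((F - 1) * e)]
  have hε : 0 < (F - 1) * e := mul_pos (by linarith) h0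
  have fin : ∀ k c : ℝ, k ≤ F + 1 → f ≤ c * s → 3 < k →
      (∀ x : ℝ, 3 * c * s * (3 * s - k * x) ≤ 49 / 10 * (x - s) ^ 2) →
      0 < 5 * ((F - 1) * e + -s) ^ 2 + 3 * f * ((F ^ 2 - 1) * e + -3 * s) := fun k c h1 h2 h3 h4 ↦ by
    have h5 := h4 ((F - 1) * e)
    have e4 : (F ^ 2 - 1) * e = (F + 1) * ((F - 1) * e) := by ring
    rw [e4]
    generalize (F - 1) * e = x at *
    have h6 := mul_le_mul_of_nonneg_left (mul_le_mul_of_nonneg_right h1 hε.le) hf.le
    rcases lt_or_ge (3 * s - k * x) 0 with h7 | h7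
    · nlinarith [mul_pos hf (neg_pos.2 h7), sq_nonneg (x - s)]
    · have h8 := mul_le_mul_of_nonneg_right h2 h7
      have : x - s ≠ 0 := fun h9 ↦ by nlinarith
      have := sq_pos_of_ne_zero this
      nlinarith
  rcases h with h | h
  · refine fin 5 (1 / 2) (by linarith) ?_ (by norm_num) fun x ↦ by
      nlinarith [sq_nonneg (s - 5 * x), sq_nonneg (x - s)]
    rcases le_total e 1 with h1 | h1
    · nlinarith [b1 h1, sq_nonneg (e - 1 / 2)]
    · refine le_of_mul_le_mul_left ?_ hs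
      nlinarith [mul_nonneg (by linarith : 0 ≤ F - 4) (by nlinarith : 0 ≤ e ^ 2 - 1)]
  · refine fin (7 / 2) (1 / 4) (by linarith) ?_ (by norm_num) fun x ↦ by
      nlinarith [sq_nonneg (5 * s - 7 * x), sq_nonneg (x - s)]
    rcases le_total e 1 with h1 | h1
    · nlinarith [b1 h1, sq_nonneg (e - 1 / 2), h.2]
    · refine le_of_mul_le_mul_left ?_ hs
      nlinarith [mul_nonneg (by linarith : 0 ≤ F - 5 / 2) (by nlinarith : 0 ≤ e ^ 2 - 1),
        sq_nonneg (s - 5 * e / 2), h.2]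

variable (D F) in
/-- the union of the regions of this file -/
def SchReg : Prop := F ≤ 0 ∨ (D ≤ -1 ∧ F ≤ 1) ∨ (1 ≤ F ∧ F ≤ 9 / 8 ∧ D ≤ -1 - (F - 1) ^ 2 / 2) ∨
  (0 ≤ D ∧ 1 ≤ F ∧ (0 < D ∨ 1 < F)) ∨ (-1 / 2 ≤ D ∧ 2 ≤ F ∧ (-1 / 2 < D ∨ 2 < F)) ∨
  (D ≤ -1 - F / 4 ∧ (4 ≤ F ∨ 5 / 2 ≤ F ∧ D ≤ -3))

theorem SchReg.ok (h : SchReg D F) : SchOK2 D F := by
  rcases h with h | h | h | h | h | h
  · exact sch_a h
  · rcases le_total F 0 with h1 | h1
    exacts [sch_a h1, sch_b h.1 h1 h.2]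
  · exact sch_b' h.1 h.2.1 h.2.2
  · exact sch_c h.1 h.2.1 h.2.2
  · rcases le_total D 0 with h1 | h1
    exacts [sch_d h.1 h1 h.2.1 h.2.2, sch_c h1 (by linarith [h.2.1]) (Or.inr (by linarith [h.2.1]))]
  · exact sch_e h.1 h.2

theorem SchReg.noThree (h : SchReg D F) : NoThree D F := h.ok.noThree

end Pool.Agent.Lib.MP_d6150d_an
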