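import Pool.Agent.Lib.MP_d6150d_an.S2b
import Pool.Agent.Lib.MP_d6150d_an.SchReg
import Pool.Agent.Lib.MP_d6150d_an.S6EL
import Pool.Agent.Lib.MP_d6150d_an.S6ER
import Pool.Agent.Lib.MP_d6150d_an.S6ES
import Pool.Agent.Lib.MP_d6150d_an.S6ET

/-! The triangle `D + F ≤ 0` near `(-2, 2)`: the period is increasing. -/

namespace Pool.Agent.Lib.MP_d6150d_an

namespace S6E

open Real Set

variable {D F t : ℝ}

theorem lt_top (d0 : -33 / 16 ≤ D) (d1 : D ≤ -31 / 16) (ht : t ∈ JR D) : t ≤ 4 / 5 := by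
  by_contra h
  have h1 : 0 < (1 + D) * exp t - D := ht
  have h2 := (quadratic_le_exp_of_nonneg (show (0 : ℝ) ≤ 4 / 5 by norm_num)).trans
    (exp_le_exp.2 (not_le.1 h).le)
  nlinarith

theorem f_le (d0 : -33 / 16 ≤ D) (d1 : D ≤ -31 / 16) (f0 : 31 / 16 ≤ F) (f1 : F ≤ 33 / 16)
    (t0 : t ≤ 0) (s2 : exp t ≤ 1 / 20) : 0 ≤ -((1 + 2 * D) * (F - 1)) ∧
      (1 + D) * F * exp t ^ 2 - (1 + 2 * D) * (F - 1) * exp t + D * (F - 2) ≤
        -((1 + 2 * D) * (F - 1)) * exp ((F - 2) * t) := by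
  have B0 : 5 / 2 ≤ -((1 + 2 * D) * (F - 1)) := by nlinarith
  have B1 : 0 ≤ -((1 + 2 * D) * (F - 1)) := by linarith
  have a1 := mul_nonneg (show 0 ≤ -((1 + D) * F) by nlinarith) (sq_nonneg (exp t))
  refine ⟨B1, ?_⟩
  rcases le_total 2 F with m | m
  · have a3 := mul_le_mul_of_nonneg_left (exp_le_exp.2 (show t ≤ (F - 2) * t by nlinarith)) B1
    nlinarith
  · have a3 := mul_le_mul_of_nonneg_left (one_le_exp (show 0 ≤ (F - 2) * t by nlinarith)) B1
    have a4 := mul_le_mul_of_nonneg_left s2 B1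
    nlinarith

/-- the separator `k / (k - v)` -/
theorem sep (d0 : -33 / 16 ≤ D) (d1 : D + F ≤ 0) (f0 : 31 / 16 ≤ F) (f1 : F ≤ 33 / 16) :
    ∃ k, ∀ t ∈ JR D, vR D F t < k ∧
      (t ≤ -1 / 3 → Dg D F (Dg D F (uR F)) t * (k - vR D F t) < k) ∧
      (7 / 32 ≤ t → k < Dg D F (Dg D F (uR F)) t * (k - vR D F t)) := by
  obtain ⟨a, ha⟩ : ∃ a, a = (1 + D) / F := ⟨_, rfl⟩
  obtain ⟨b, hb⟩ : ∃ b, b = -2 * (1 + 2 * D) / (1 - 2 * F) := ⟨_, rfl⟩
  obtain ⟨c, hc⟩ : ∃ c, c = -D / (1 - F) := ⟨_, rfl⟩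
  have ea : F * a = 1 + D := by rw [ha]; exact mul_div_cancel₀ _ (by linarith)
  have eb : (1 - 2 * F) * b = -2 * (1 + 2 * D) := by rw [hb]; exact mul_div_cancel₀ _ (by linarith)
  have ec : (1 - F) * c = -D := by rw [hc]; exact mul_div_cancel₀ _ (by linarith)
  have d2 : D ≤ -31 / 16 := by linarith
  refine ⟨b - a - c, fun t ht ↦ ?_⟩
  have o0 : 0 < (1 + D) * exp t - D := ht
  have s0 := exp_pos t
  have h0 := exp_pos ((F - 2) * t)
  obtain ⟨n, hn⟩ : ∃ n, n = b * exp t - a * exp t ^ 2 - c := ⟨_, rfl⟩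
  have eV : vR D F t = b - a - c - (exp ((F - 2) * t) * exp t) ^ 2 * n := by
    have : exp ((2 * F - 2) * t) = (exp ((F - 2) * t) * exp t) ^ 2 := by
      rw [← exp_add, sq, ← exp_add]; ring_nf
    rw [vR_expl ea eb ec, this, hn]; ring
  have n1 : ((1 + D) * exp t - D) ^ 2 ≤ -(F * (1 + D)) * n := by
    have p := mul_nonneg (neg_nonneg.2 d1)
      (show 0 ≤ 2 * (F - 1) * ((1 + D) * exp t - D) - D by nlinarith)
    refine le_of_mul_le_mul_left ?_ (show 0 < (2 * F - 1) * (F - 1) by nlinarith)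
    rw [hn]
    linear_combination p - (2 * F - 1) * (F - 1) * (1 + D) * exp t ^ 2 * ea -
      F * (F - 1) * (1 + D) * exp t * eb + F * (2 * F - 1) * (1 + D) * ec
  have p1 : 0 < -(F * (1 + D)) := by nlinarith
  have n0 : 0 < n := pos_of_mul_pos_right ((pow_pos o0 2).trans_le n1) p1.le
  have K0 := mul_pos (pow_pos (mul_pos h0 s0) 2) n0
  obtain ⟨f, hf⟩ : ∃ f, f = (1 + D) * F * exp t ^ 2 - (1 + 2 * D) * (F - 1) * exp t + D * (F - 2) :=
    ⟨_, rfl⟩
  obtain ⟨X, hX⟩ : ∃ X, X = (exp ((F - 2) * t) * exp t) ^ 2 * ((exp t - 1) *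
    ((1 + D) * exp t - D)) ^ 2 - vR D F t * f := ⟨_, rfl⟩
  have key : t ≠ 0 → Dg D F (Dg D F (uR F)) t * (b - a - c - vR D F t) *
      (exp ((F - 2) * t) * ((exp t - 1) * ((1 + D) * exp t - D)) ^ 3) = n * X := fun t0 ↦ by
    have e1 : exp (F * t) = exp ((F - 2) * t) * exp t ^ 2 := by
      rw [sq, ← exp_add, ← exp_add]; ring_nf
    have e2 : sv2 D F (exp (-t)) = (exp t)⁻¹ ^ 2 * f := by rw [sv2, exp_neg, hf]; field_simp
    have e3 : b - a - c - vR D F t = (exp ((F - 2) * t) * exp t) ^ 2 * n := by rw [eV]; ring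
    have e4 : exp t - 1 ≠ 0 := sub_ne_zero.2 (by simpa using t0)
    rw [psi_eq ht t0, sφ, sv1_eq, e1, e2, e3, hX, om, exp_neg]
    generalize (1 + D) * exp t - D = o at o0
    field_simp
  refine ⟨by linarith, fun t1 ↦ ?_, fun t1 ↦ ?_⟩
  · have s1 : 0 < 1 - exp t := sub_pos.2 (exp_lt_one_iff.2 (by linarith))
    have q3 := mul_pos h0 (pow_pos (mul_pos s1 o0) 3)
    have v0 := vR_pos (F := F) ht (by linarith)
    refine lt_of_mul_lt_mul_right ?_ q3.le
    suffices h : 0 < n * X - (b - a - c) * exp ((F - 2) * t) *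
      ((exp t - 1) * ((1 + D) * exp t - D)) ^ 3 by linear_combination h - key (by linarith)
    rcases le_total (-3) t with l | l
    · exact S6EL.pos0 ha hb hc rfl rfl hn rfl rfl hf eV hX d0 d2 f0 f1 l t1
    have s2 : exp t ≤ 1 / 20 := by
      have h1 : (20 : ℝ) ≤ exp 1 ^ 3 :=
        le_trans (by norm_num) (pow_le_pow_left₀ (by norm_num) exp_one_gt_d9.le 3)
      rw [← exp_nat_mul] at h1
      rw [← neg_neg t, exp_neg, one_div]
      exact inv_anti₀ (by norm_num) (h1.trans (exp_le_exp.2 (by push_cast; linarith)))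
    have c0 := S6ET.pos0 ha hb hc hn rfl rfl rfl rfl d0 d2 f0 f1 s0.le s2
    obtain ⟨B0, f2⟩ := f_le d0 d2 f0 f1 (by linarith) s2
    rw [← hf] at f2
    have a1 : vR D F t * f ≤ (b - a - c) * (-((1 + 2 * D) * (F - 1)) * exp ((F - 2) * t)) :=
      (mul_le_mul_of_nonneg_left f2 v0.le).trans
        (mul_le_mul_of_nonneg_right (by linarith only [eV, K0]) (mul_nonneg B0 h0.le))
    have a2 := mul_le_mul_of_nonneg_left a1 n0.le
    have a3 := mul_pos (mul_pos (show 0 < b - a - c by linarith only [eV, K0, v0]) h0) c0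
    have a4 := mul_nonneg K0.le (sq_nonneg ((exp t - 1) * ((1 + D) * exp t - D)))
    rw [hX]
    linear_combination a2 + a3 + a4
  · have s1 : 0 < exp t - 1 := sub_pos.2 (one_lt_exp_iff.2 (by linarith))
    have v0 := vR_pos (F := F) ht (by linarith)
    have c0 := S6ER.pos0 ha hb hc rfl rfl hn rfl rfl hf eV hX d0 d2 f0 f1 t1 (lt_top d0 d2 ht)
    have a0 := mul_pos (mul_pos (mul_pos (mul_pos p1
      (show 0 < b - a - c by linarith only [eV, K0, v0])) h0)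
      (pow_pos s1 3)) o0
    have a1 := mul_le_mul_of_nonneg_right n1 (show 0 ≤ X by linarith)
    have a2 := mul_pos (pow_pos o0 2) c0
    refine lt_of_mul_lt_mul_right ?_ (mul_pos p1 (mul_pos h0 (pow_pos (mul_pos s1 o0) 3))).le
    linear_combination a1 + a2 + F * (1 + D) * key (by linarith)

end S6E

open Real Set in
/-- the part of the strip along `F = 2` where `D + F ≤ 0` -/
theorem S6E_holds (D F : ℝ) (d0 : -33 / 16 ≤ D) (d1 : D + F ≤ 0) (f0 : 31 / 16 ≤ F)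
    (f1 : F ≤ 33 / 16) : NoThree D F := noThree_of_pos fun _ H r hr ↦ by
  have d2 : D ≤ -31 / 16 := by linarith
  obtain ⟨k, hk⟩ := S6E.sep d0 d1 f0 f1
  have sch : ∀ t ∈ JR D, -1 / 3 ≤ t → SchAt2 D F (exp (-t)) := fun t ht h ↦
    ⟨fun _ ↦ S6ES.pos0 rfl rfl rfl d0 d2 f0 f1 h (S6E.lt_top d0 d2 ht),
      svA_pos (Or.inl (by linarith)) (exp_pos _) (memJ_iff.1 ht)⟩
  refine pair_pos H hr fun a ha b hb a0 b0 e _ ↦ ?_
  rcases le_total (-1 / 3) a with l | l
  · have h1 := psi_side (F := F) (σ := 1) (Or.inl rfl) b0 (by rwa [one_mul]) fun t ht ↦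
      sch _ (JR_conn ha hb (by linarith [ht.1]) (by linarith [ht.2])) (by linarith [ht.1])
    have h2 := psi_side (F := F) (σ := -1) (b := -a) (Or.inr rfl) (by linarith)
      (by simpa using ha) fun t ht ↦
      sch _ (JR_conn ha hb (by linarith [ht.2]) (by linarith [ht.1])) (by linarith [ht.2])
    simp only [one_mul, neg_mul, neg_neg] at h1 h2
    linarith
  have c := S6ET.pos1 (s := 0) rfl rfl rfl rfl rfl rfl rfl rfl d0 d2 f0 f1 le_rfl (by norm_num)
  rw [← vR, ← vR] at c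
  have b1 : 7 / 32 ≤ b := by
    by_contra n
    have m : (7 / 32 : ℝ) ∈ JR D := by
      have := exp_bound_div_one_sub_of_interval (x := 7 / 32) (by norm_num) (by norm_num)
      show 0 < (1 + D) * exp (7 / 32) - D
      nlinarith
    have n1 := vR_mono (F := F) m b0.le (not_le.1 n)
    rcases l.eq_or_lt with l | l
    · rw [l] at e; linarith
    · linarith [vR_anti (F := F) ha (by norm_num) l]
  have h1 := (hk a ha).2.1 l
  rw [e] at h1
  exact lt_of_mul_lt_mul_right (h1.trans ((hk b hb).2.2 b1)) (by linarith [(hk b hb).1])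

end Pool.Agent.Lib.MP_d6150d_an
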