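import Pool.Agent.Lib.MP_d6150d_an.S6dCD

/-! A generated chart: the computations. -/

namespace Pool.Agent.Lib.MP_d6150d_an.S6dC

theorem k0 : chk C 0x88888888128080280802222 [(0, 8796093022208), (0, 962072674304), (0,
    107752139522048), (0, 962072674304)] = true := by
  decide +kernel

end Pool.Agent.Lib.MP_d6150d_an.S6dC
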