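import Pool.Agent.Lib.MP_d6150d_an.S6M
import Pool.Agent.Lib.MP_d6150d_an.S6dCK0

/-! A generated chart: the inequality. -/

namespace Pool.Agent.Lib.MP_d6150d_an.S6dC

set_option linter.unnecessarySeqFocus false
set_option linter.unusedTactic false
set_option linter.unusedVariables false

theorem gd : Gd C [(0, 8796093022208), (0, 962072674304), (0, 107752139522048), (0, 962072674304)]
    := chk_sound k0

set_option maxRecDepth 100000 in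
theorem eq {d s m o F D k c R n x z v rq g o0 o1 o2 o3 o4 : ℝ} (hF : F = 2 + d) (hD : D = m - F) (hk
    : k = (sKap D F)) (hc : c = (sCap D F)) (hR : R = 2 * c * s * o) (hn : n = (sNh D F s)) (hx : x
    = R * n) (hz : z = 1 - x) (hv : v = k * z) (hrq : rq = (√v)⁻¹) (hg : g = -(v * rq)) (ho0 : o0 =
    (sOD D F m k c s R z g).1) (ho1 : o1 = (sOD D F m k c s R z g).2.1) (ho2 : o2 = (sOD D F m k c s
    R z g).2.2.1) (ho3 : o3 = (sOD D F m k c s R z g).2.2.2.1) (ho4 : o4 = (sOD D F m k c s R z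
    g).2.2.2.2) : outR prog 0 [d, s, m, o] = o4 ∧ outR prog 1 [d, s, m, o] = 1 - 3968 * x := by
  replace hF : F = ((Int.cast (2) : ℝ) + d) := hF.trans (by push_cast <;> ring)
  replace hD : D = (m - F) := hD.trans (by push_cast <;> ring)
  replace hk : k = (sKap D F) := hk.trans (sKap_0 ..)
  replace hc : c = (sCap D F) := hc.trans (sCap_0 ..)
  replace hR : R = ((((Int.cast (2) : ℝ) * c) * s) * o) := hR.trans (by push_cast <;> ring)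
  replace hn : n = (sNh D F s) := hn.trans (sNh_0 ..)
  replace hx : x = (R * n) := hx.trans (by push_cast <;> ring)
  replace hz : z = ((Int.cast (1) : ℝ) - x) := hz.trans (by push_cast <;> ring)
  replace hv : v = (k * z) := hv.trans (by push_cast <;> ring)
  replace hg : g = ((Int.cast (-1) : ℝ) * (v * rq)) := hg.trans (by push_cast <;> ring)
  replace ho0 : o0 = (sOD D F m k c s R z g).1 := ho0.trans (sOD_0 ..)
  replace ho1 : o1 = (sOD D F m k c s R z g).2.1 := ho1.trans (sOD_1 ..)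
  replace ho2 : o2 = (sOD D F m k c s R z g).2.2.1 := ho2.trans (sOD_2 ..)
  replace ho3 : o3 = (sOD D F m k c s R z g).2.2.2.1 := ho3.trans (sOD_3 ..)
  replace ho4 : o4 = (sOD D F m k c s R z g).2.2.2.2 := ho4.trans (sOD_4 ..)
  have e1 : ((Int.cast (1) : ℝ) - ((Int.cast (3968) : ℝ) * x)) = 1 - 3968 * x := by push_cast <;>
    ring
  subst hF hD hk hc hR hn hx hz hv hrq hg ho0 ho1 ho2 ho3 ho4
  dsimp only [outR, prog, prog1, prog2, prog3, runR, stepR, gtR, List.take, sOD, sOC, sO2, sO1, sPd,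
    sPc, sE0, mPj, sKap, sCap, sNh, sCenC, sCenD, sCen3, sCen4, mK3, mK4, mMu] at e1 ⊢
  exact ⟨rfl, e1⟩

theorem l0 : ((0 : ℤ) : ℝ) / 2 ^ 47 = 0 := by norm_num
theorem u0 : (1 / 16 : ℝ) = ((8796093022208 : ℤ) : ℝ) / 2 ^ 47 := by norm_num
theorem l1 : ((0 : ℤ) : ℝ) / 2 ^ 47 = 0 := by norm_num
theorem u1 : (7 / 1024 : ℝ) = ((962072674304 : ℤ) : ℝ) / 2 ^ 47 := by norm_num
theorem l2 : ((0 : ℤ) : ℝ) / 2 ^ 47 = 0 := by norm_num
theorem u2 : (49 / 64 : ℝ) = ((107752139522048 : ℤ) : ℝ) / 2 ^ 47 := by norm_num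
theorem l3 : ((0 : ℤ) : ℝ) / 2 ^ 47 = 0 := by norm_num
theorem u3 : (7 / 1024 : ℝ) = ((962072674304 : ℤ) : ℝ) / 2 ^ 47 := by norm_num

theorem out0 {d s m o : ℝ} (a0 : 0 ≤ d) (b0 : d ≤ 1 / 16) (a1 : 0 ≤ s) (b1 : s ≤ 7 / 1024) (a2 : 0 ≤
    m) (b2 : m ≤ 49 / 64) (a3 : 0 ≤ o) (b3 : o ≤ 7 / 1024) : 0 < outR prog 0 [d, s, m, o] :=
  gd 0 (by decide) [d, s, m, o] (.cons ⟨l0.le.trans a0, b0.trans u0.le⟩ (.cons ⟨l1.le.trans a1,
    b1.trans u1.le⟩ (.cons ⟨l2.le.trans a2, b2.trans u2.le⟩ (.cons ⟨l3.le.trans a3, b3.trans u3.le⟩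
    (.nil))))) ⟨nofun, nofun, nofun, nofun, trivial⟩ (List.forall_mem_nil _) (Van.of0 rfl) (nofun)

theorem pos0 {d s m o F D k c R n x z v rq g o0 o1 o2 o3 o4 : ℝ} (hF : F = 2 + d) (hD : D = m - F)
    (hk : k = (sKap D F)) (hc : c = (sCap D F)) (hR : R = 2 * c * s * o) (hn : n = (sNh D F s)) (hx
    : x = R * n) (hz : z = 1 - x) (hv : v = k * z) (hrq : rq = (√v)⁻¹) (hg : g = -(v * rq)) (ho0 :
    o0 = (sOD D F m k c s R z g).1) (ho1 : o1 = (sOD D F m k c s R z g).2.1) (ho2 : o2 = (sOD D F m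
    k c s R z g).2.2.1) (ho3 : o3 = (sOD D F m k c s R z g).2.2.2.1) (ho4 : o4 = (sOD D F m k c s R
    z g).2.2.2.2) (a0 : 0 ≤ d) (b0 : d ≤ 1 / 16) (a1 : 0 ≤ s) (b1 : s ≤ 7 / 1024) (a2 : 0 ≤ m) (b2 :
    m ≤ 49 / 64) (a3 : 0 ≤ o) (b3 : o ≤ 7 / 1024) : 0 < o4 :=
  have e := eq hF hD hk hc hR hn hx hz hv hrq hg ho0 ho1 ho2 ho3 ho4
  (out0 a0 b0 a1 b1 a2 b2 a3 b3).trans_eq e.1

theorem out1 {d s m o : ℝ} (a0 : 0 ≤ d) (b0 : d ≤ 1 / 16) (a1 : 0 ≤ s) (b1 : s ≤ 7 / 1024) (a2 : 0 ≤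
    m) (b2 : m ≤ 49 / 64) (a3 : 0 ≤ o) (b3 : o ≤ 7 / 1024) : 0 < outR prog 1 [d, s, m, o] :=
  gd 1 (by decide) [d, s, m, o] (.cons ⟨l0.le.trans a0, b0.trans u0.le⟩ (.cons ⟨l1.le.trans a1,
    b1.trans u1.le⟩ (.cons ⟨l2.le.trans a2, b2.trans u2.le⟩ (.cons ⟨l3.le.trans a3, b3.trans u3.le⟩
    (.nil))))) ⟨nofun, nofun, nofun, nofun, trivial⟩ (List.forall_mem_nil _) (Van.of0 rfl) (nofun)

theorem pos1 {d s m o F D k c R n x z v rq g o0 o1 o2 o3 o4 : ℝ} (hF : F = 2 + d) (hD : D = m - F)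
    (hk : k = (sKap D F)) (hc : c = (sCap D F)) (hR : R = 2 * c * s * o) (hn : n = (sNh D F s)) (hx
    : x = R * n) (hz : z = 1 - x) (hv : v = k * z) (hrq : rq = (√v)⁻¹) (hg : g = -(v * rq)) (ho0 :
    o0 = (sOD D F m k c s R z g).1) (ho1 : o1 = (sOD D F m k c s R z g).2.1) (ho2 : o2 = (sOD D F m
    k c s R z g).2.2.1) (ho3 : o3 = (sOD D F m k c s R z g).2.2.2.1) (ho4 : o4 = (sOD D F m k c s R
    z g).2.2.2.2) (a0 : 0 ≤ d) (b0 : d ≤ 1 / 16) (a1 : 0 ≤ s) (b1 : s ≤ 7 / 1024) (a2 : 0 ≤ m) (b2 :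
    m ≤ 49 / 64) (a3 : 0 ≤ o) (b3 : o ≤ 7 / 1024) : 0 < 1 - 3968 * x :=
  have e := eq hF hD hk hc hR hn hx hz hv hrq hg ho0 ho1 ho2 ho3 ho4
  (out1 a0 b0 a1 b1 a2 b2 a3 b3).trans_eq e.2

end Pool.Agent.Lib.MP_d6150d_an.S6dC
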