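import Pool.Agent.Lib.MP_d6150d_an.S6dLD

/-! A generated chart: the computations. -/

namespace Pool.Agent.Lib.MP_d6150d_an.S6dL

theorem k0 : chk C 0x881881188188128818812188812880112 [(281474976710656, 290271069732864), (0,
    53876069761024), (0, 35184372088832)] = true := by
  decide +kernel

theorem k1 : chk C 0x88188118881288812188188128818812112 [(281474976710656, 290271069732864),
    (53876069761024, 107752139522048), (0, 35184372088832)] = true := by
  decide +kernel

end Pool.Agent.Lib.MP_d6150d_an.S6dL
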