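import Pool.Agent.Lib.MP_d6150d_an.S6dLD

/-! A generated chart: the computations. -/

namespace Pool.Agent.Lib.MP_d6150d_an.S6dL

theorem k2 : chk C 0x882882188288011 [(281474976710656, 290271069732864), (0, 107752139522048),
    (35184372088832, 70368744177664)] = true := by
  decide +kernel

end Pool.Agent.Lib.MP_d6150d_an.S6dL
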