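import Pool.Agent.Lib.MP_d6150d_an.S6dMD

/-! A generated chart: the computations. -/

namespace Pool.Agent.Lib.MP_d6150d_an.S6dM

theorem k0 : chk C 0x88801 [(281474976710656, 285873023221760), (0, 420906795008),
    (-703687441776640, -624522604576768)] = true := by
  decide +kernel

theorem k1 : chk C 0x88888280801801808888881180180180121 [(285873023221760, 290271069732864), (0,
    420906795008), (-703687441776640, -624522604576768)] = true := by
  decide +kernel

theorem k2 : chk C 0x880 [(281474976710656, 290271069732864), (420906795008, 841813590016),
    (-703687441776640, -624522604576768)] = true := by
  decide +kernel

theorem k3 : chk C 0x880 [(281474976710656, 290271069732864), (841813590016, 1683627180032),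
    (-703687441776640, -624522604576768)] = true := by
  decide +kernel

theorem k4 : chk C 0x88888118080188888180180801121888110 [(281474976710656, 290271069732864), (0,
    1683627180032), (-624522604576768, -545357767376896)] = true := by
  decide +kernel

theorem k5 : chk C 0x88820 [(281474976710656, 290271069732864), (1683627180032, 3367254360064),
    (-703687441776640, -545357767376896)] = true := by
  decide +kernel

theorem k6 : chk C 0x880 [(281474976710656, 290271069732864), (3367254360064, 6734508720128),
    (-703687441776640, -545357767376896)] = true := by
  decide +kernel

end Pool.Agent.Lib.MP_d6150d_an.S6dM
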