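import Pool.Agent.Lib.MP_d6150d_an.S6dMD

/-! A generated chart: the computations. -/

namespace Pool.Agent.Lib.MP_d6150d_an.S6dM

theorem k7 : chk C 0x8808888118080188008888811808011881021 [(281474976710656, 290271069732864), (0,
    6734508720128), (-545357767376896, -466192930177024)] = true := by
  decide +kernel

theorem k8 : chk C 0x88880180188088880118012 [(281474976710656, 290271069732864), (0,
    6734508720128), (-466192930177024, -387028092977152)] = true := by
  decide +kernel

theorem k9 : chk C 0x8808088028802 [(281474976710656, 290271069732864), (6734508720128,
    13469017440256), (-703687441776640, -387028092977152)] = true := by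
  decide +kernel

theorem k10 : chk C 0x88288208802 [(281474976710656, 290271069732864), (13469017440256,
    26938034880512), (-703687441776640, -387028092977152)] = true := by
  decide +kernel

theorem k11 : chk C 0x8808802 [(281474976710656, 290271069732864), (26938034880512, 53876069761024),
    (-703687441776640, -387028092977152)] = true := by
  decide +kernel

end Pool.Agent.Lib.MP_d6150d_an.S6dM
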