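import Pool.Agent.Lib.MP_d6150d_an.S6dMD

/-! A generated chart: the computations. -/

namespace Pool.Agent.Lib.MP_d6150d_an.S6dM

theorem k12 : chk C 0x88088088002 [(281474976710656, 290271069732864), (53876069761024,
    107752139522048), (-703687441776640, -387028092977152)] = true := by
  decide +kernel

theorem k13 : chk C 0x88088288002888018808881801121 [(281474976710656, 290271069732864), (0,
    26938034880512), (-387028092977152, -228698418577408)] = true := by
  decide +kernel

theorem k14 : chk C 0x880808818028808808012 [(281474976710656, 290271069732864), (26938034880512,
    53876069761024), (-387028092977152, -228698418577408)] = true := by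
  decide +kernel

theorem k15 : chk C 0x8818082880088288118082882018802 [(281474976710656, 290271069732864),
    (53876069761024, 107752139522048), (-387028092977152, -228698418577408)] = true := by
  decide +kernel

end Pool.Agent.Lib.MP_d6150d_an.S6dM
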