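import Pool.Agent.Lib.MP_d6150d_an.S6dMD

/-! A generated chart: the computations. -/

namespace Pool.Agent.Lib.MP_d6150d_an.S6dM

theorem k16 : chk C 0x880828288088018812188088112 [(281474976710656, 290271069732864), (0,
    53876069761024), (-228698418577408, -70368744177664)] = true := by
  decide +kernel

theorem k17 : chk C 0x88088812808028880812801 [(281474976710656, 290271069732864), (53876069761024,
    107752139522048), (-228698418577408, -149533581377536)] = true := by
  decide +kernel

theorem k18 : chk C 0x8828820882882018812 [(281474976710656, 290271069732864), (53876069761024,
    107752139522048), (-149533581377536, -70368744177664)] = true := by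
  decide +kernel

end Pool.Agent.Lib.MP_d6150d_an.S6dM
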