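import Pool.Agent.Lib.MP_d6150d_an.S6dRD

/-! A generated chart: the computations. -/

namespace Pool.Agent.Lib.MP_d6150d_an.S6dR

theorem k2 : chk C 0x881881188188111 [(281474976710656, 290271069732864), (53876069761024,
    107752139522048), (15393162788864, 30786325577728)] = true := by
  decide +kernel

theorem k3 : chk C 0x888128818812188181288281828288211 [(281474976710656, 290271069732864), (0,
    53876069761024), (30786325577728, 61572651155456)] = true := by
  decide +kernel

end Pool.Agent.Lib.MP_d6150d_an.S6dR
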