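import Pool.Agent.Lib.MP_d6150d_an.S6dRD

/-! A generated chart: the computations. -/

namespace Pool.Agent.Lib.MP_d6150d_an.S6dR

theorem k4 : chk C 0x8828821882882128828821882881121 [(281474976710656, 290271069732864),
    (53876069761024, 107752139522048), (30786325577728, 61572651155456)] = true := by
  decide +kernel

end Pool.Agent.Lib.MP_d6150d_an.S6dR
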