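import Pool.Agent.Lib.MP_d6150d_an.S6M
import Pool.Agent.Lib.MP_d6150d_an.S6dRK0
import Pool.Agent.Lib.MP_d6150d_an.S6dRK1
import Pool.Agent.Lib.MP_d6150d_an.S6dRK2

/-! A generated chart: the inequality. -/

namespace Pool.Agent.Lib.MP_d6150d_an.S6dR

set_option linter.unnecessarySeqFocus false
set_option linter.unusedTactic false
set_option linter.unusedVariables false

theorem gd : Gd C [(281474976710656, 290271069732864), (0, 107752139522048), (0, 61572651155456)] :=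
    .split 2 (.split 1 (chk_sound k0) (.split 2 (chk_sound k1) (chk_sound k2))) (.split 1 (chk_sound
    k3) (chk_sound k4))

set_option maxRecDepth 100000 in
theorem eq {F m u D k c z4 : ℝ} (hD : D = m - F) (hk : k = (sKap D F)) (hc : c = (sCap D F)) (hz4 :
    z4 = (sCenD D F m k c u)) : outR prog 0 [F, m, u] = z4 := by
  replace hD : D = (m - F) := hD.trans (by push_cast <;> ring)
  replace hk : k = (sKap D F) := hk.trans (sKap_0 ..)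
  replace hc : c = (sCap D F) := hc.trans (sCap_0 ..)
  replace hz4 : z4 = (sCenD D F m k c u) := hz4.trans (sCenD_0 ..)
  subst hD hk hc hz4
  dsimp only [outR, prog, prog1, prog2, prog3, prog4, prog5, prog6, runR, stepR, gtR, List.take,
    sOD, sOC, sO2, sO1, sPd, sPc, sE0, mPj, sKap, sCap, sNh, sCenC, sCenD, sCen3, sCen4, mK3, mK4,
    mMu]

theorem l0 : ((281474976710656 : ℤ) : ℝ) / 2 ^ 47 = 2 := by norm_num
theorem u0 : (33 / 16 : ℝ) = ((290271069732864 : ℤ) : ℝ) / 2 ^ 47 := by norm_num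
theorem l1 : ((0 : ℤ) : ℝ) / 2 ^ 47 = 0 := by norm_num
theorem u1 : (49 / 64 : ℝ) = ((107752139522048 : ℤ) : ℝ) / 2 ^ 47 := by norm_num
theorem l2 : ((0 : ℤ) : ℝ) / 2 ^ 47 = 0 := by norm_num
theorem u2 : (7 / 16 : ℝ) = ((61572651155456 : ℤ) : ℝ) / 2 ^ 47 := by norm_num

theorem out0 (V2 : ∀ F m : ℝ, 2 ≤ F → F ≤ 33 / 16 → 0 ≤ m → m ≤ 49 / 64 → (fun u ↦ outR prog 0 [F,
    m, u]) =O[nhdsWithin 0 (Set.Ioi 0)] fun u : ℝ ↦ u ^ 4) {F m u : ℝ} (a0 : 2 ≤ F) (b0 : F ≤ 33 /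
    16) (a1 : 0 ≤ m) (b1 : m ≤ 49 / 64) (a2 : 0 ≤ u) (b2 : u ≤ 7 / 16) (p2 : 0 < u) : 0 < outR prog
    0 [F, m, u] :=
  gd 0 (by decide) [F, m, u] (.cons ⟨l0.le.trans a0, b0.trans u0.le⟩ (.cons ⟨l1.le.trans a1,
    b1.trans u1.le⟩ (.cons ⟨l2.le.trans a2, b2.trans u2.le⟩ (.nil)))) ⟨nofun, nofun, fun _ ↦ p2,
    trivial⟩ (List.forall_mem_nil _) (⟨fun _ ↦ allB_iff.2 fun _ _ ↦ trivial, fun y0 a0 b0 ↦ ⟨fun _ ↦
    allB_iff.2 fun _ _ ↦ trivial, fun y1 a1 b1 ↦ ⟨fun _ ↦ V2 y0 y1 (l0.ge.trans a0) (b0.trans u0.ge)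
    (l1.ge.trans a1) (b1.trans u1.ge), fun _ _ _ ↦ trivial⟩⟩⟩) (nofun)

end Pool.Agent.Lib.MP_d6150d_an.S6dR
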