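import Pool.Agent.Lib.MP_d6150d_an.S6dSD

/-! A generated chart: the computations. -/

namespace Pool.Agent.Lib.MP_d6150d_an.S6dS

theorem k0 : chk C 0x88081880810880188088018828801088010 [(281474976710656, 290271069732864), (0,
    35184372088832), (61572651155456, 72567767433216)] = true := by
  decide +kernel

theorem k1 : chk C 0x888208801888008808810288010 [(281474976710656, 290271069732864), (0,
    35184372088832), (72567767433216, 83562883710976)] = true := by
  decide +kernel

theorem k2 : chk C 0x88088088201880882881010 [(281474976710656, 290271069732864), (35184372088832,
    70368744177664), (61572651155456, 72567767433216)] = true := by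
  decide +kernel

end Pool.Agent.Lib.MP_d6150d_an.S6dS
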