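import Pool.Agent.Lib.MP_d6150d_an.S6dSD

/-! A generated chart: the computations. -/

namespace Pool.Agent.Lib.MP_d6150d_an.S6dS

theorem k3 : chk C 0x880888001880882882010 [(281474976710656, 290271069732864), (35184372088832,
    70368744177664), (72567767433216, 83562883710976)] = true := by
  decide +kernel

theorem k4 : chk C 0x88088088001881888120888018808801012 [(281474976710656, 290271069732864),
    (70368744177664, 140737488355328), (61572651155456, 83562883710976)] = true := by
  decide +kernel

theorem k5 : chk C 0x880880888012188088800880880812110 [(281474976710656, 290271069732864), (0,
    140737488355328), (83562883710976, 94557999988736)] = true := by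
  decide +kernel

end Pool.Agent.Lib.MP_d6150d_an.S6dS
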