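import Pool.Agent.Lib.MP_d6150d_an.S6dSD

/-! A generated chart: the computations. -/

namespace Pool.Agent.Lib.MP_d6150d_an.S6dS

theorem k6 : chk C 0xa8a8018881002 [(281474976710656, 290271069732864), (0, 140737488355328),
    (94557999988736, 105553116266496)] = true := by
  decide +kernel

end Pool.Agent.Lib.MP_d6150d_an.S6dS
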