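import Pool.Agent.Lib.MP_d6150d_an.S6M
import Pool.Agent.Lib.MP_d6150d_an.S6dSK0
import Pool.Agent.Lib.MP_d6150d_an.S6dSK1
import Pool.Agent.Lib.MP_d6150d_an.S6dSK2

/-! A generated chart: the inequality. -/

namespace Pool.Agent.Lib.MP_d6150d_an.S6dS

set_option linter.unnecessarySeqFocus false
set_option linter.unusedTactic false
set_option linter.unusedVariables false

theorem gd : Gd C [(281474976710656, 290271069732864), (0, 140737488355328), (61572651155456,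
    105553116266496)] := .split 2 (.split 1 (.split 1 (.split 2 (chk_sound k0) (chk_sound k1))
    (.split 2 (chk_sound k2) (chk_sound k3))) (chk_sound k4)) (.split 2 (chk_sound k5) (chk_sound
    k6))

set_option maxRecDepth 100000 in
theorem eq {F p t s sg a N mm m D k c th R n x z v rq g l H M o0 o1 o2 o3 o4 : ℝ} (hs : s = Real.exp
    t) (hsg : sg = F * (F - 1)⁻¹ - s) (ha : a = (F - 1) * F⁻¹) (hN : N = (F - 1)⁻¹ - 4 * s * (2 * F
    - 1)⁻¹ + s * s * F⁻¹) (hmm : mm = p * a * N⁻¹) (hm : m = sg * sg * mm) (hD : D = m - F) (hk : k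
    = (sKap D F)) (hc : c = (sCap D F)) (hth : th = Real.exp ((F - 2) * t)) (hR : R = 2 * c * (s *
    th) ^ 2) (hn : n = a * (1 - p) / 2) (hx : x = R * n) (hz : z = 1 - sg * sg * x) (hv : v = k * z)
    (hrq : rq = (√v)⁻¹) (hg : g = v * rq) (hl : l = 2 * mm + x) (hH : H = ((s - 1) * (F - 1 + sg *
    mm * (s - 1))) ^ 2) (hM : M = R * H) (ho0 : o0 = (sOD D F m k c s R z g).1) (ho1 : o1 = (sOD D F
    m k c s R z g).2.1) (ho2 : o2 = (sOD D F m k c s R z g).2.2.1) (ho3 : o3 = (sOD D F m k c s R z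
    g).2.2.2.1) (ho4 : o4 = (sOD D F m k c s R z g).2.2.2.2) : outR prog 0 [F, p, t] = l * (l * (n *
    o0 + H * o1) + M * (n * o2 + H * o3)) + M * M * H * th * o4 ∧ outR (prog.take 9) 0 [F, p, t] =
    sg := by
  replace hsg : sg = ((F * (F - (Int.cast (1) : ℝ))⁻¹) - s) := hsg.trans (by push_cast <;> ring)
  replace ha : a = ((F - (Int.cast (1) : ℝ)) * F⁻¹) := ha.trans (by push_cast <;> ring)
  replace hN : N = (((F - (Int.cast (1) : ℝ))⁻¹ - (((Int.cast (4) : ℝ) * s) * (((Int.cast (2) : ℝ) *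
    F) - (Int.cast (1) : ℝ))⁻¹)) + ((s * s) * F⁻¹)) := hN.trans (by push_cast <;> ring)
  replace hmm : mm = ((p * a) * N⁻¹) := hmm.trans (by push_cast <;> ring)
  replace hm : m = ((sg * sg) * mm) := hm.trans (by push_cast <;> ring)
  replace hD : D = (m - F) := hD.trans (by push_cast <;> ring)
  replace hk : k = (sKap D F) := hk.trans (sKap_0 ..)
  replace hc : c = (sCap D F) := hc.trans (sCap_0 ..)
  replace hth : th = (Real.exp ((F - (Int.cast (2) : ℝ)) * t)) := hth.trans (congrArg Real.exp (by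
    push_cast <;> ring))
  replace hR : R = (((Int.cast (2) : ℝ) * c) * ((s * th) * (s * th))) := hR.trans (by push_cast <;>
    ring)
  replace hn : n = (((Int.cast (1) : ℝ) / (Nat.cast 2 : ℝ)) * (a * ((Int.cast (1) : ℝ) - p))) :=
    hn.trans (by push_cast <;> ring)
  replace hx : x = (R * n) := hx.trans (by push_cast <;> ring)
  replace hz : z = ((Int.cast (1) : ℝ) - ((sg * sg) * x)) := hz.trans (by push_cast <;> ring)
  replace hv : v = (k * z) := hv.trans (by push_cast <;> ring)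
  replace hg : g = (v * rq) := hg.trans (by push_cast <;> ring)
  replace hl : l = (((Int.cast (2) : ℝ) * mm) + x) := hl.trans (by push_cast <;> ring)
  replace hH : H = (((s - (Int.cast (1) : ℝ)) * ((F - (Int.cast (1) : ℝ)) + ((sg * mm) * (s -
    (Int.cast (1) : ℝ))))) * ((s - (Int.cast (1) : ℝ)) * ((F - (Int.cast (1) : ℝ)) + ((sg * mm) * (s
    - (Int.cast (1) : ℝ)))))) := hH.trans (by push_cast <;> ring)
  replace hM : M = (R * H) := hM.trans (by push_cast <;> ring)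
  replace ho0 : o0 = (sOD D F m k c s R z g).1 := ho0.trans (sOD_0 ..)
  replace ho1 : o1 = (sOD D F m k c s R z g).2.1 := ho1.trans (sOD_1 ..)
  replace ho2 : o2 = (sOD D F m k c s R z g).2.2.1 := ho2.trans (sOD_2 ..)
  replace ho3 : o3 = (sOD D F m k c s R z g).2.2.2.1 := ho3.trans (sOD_3 ..)
  replace ho4 : o4 = (sOD D F m k c s R z g).2.2.2.2 := ho4.trans (sOD_4 ..)
  have e0 : ((l * ((l * ((n * o0) + (H * o1))) + (M * ((n * o2) + (H * o3))))) + ((((M * M) * H) *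
    th) * o4)) = l * (l * (n * o0 + H * o1) + M * (n * o2 + H * o3)) + M * M * H * th * o4 := by
    push_cast <;> ring
  subst hs hsg ha hN hmm hm hD hk hc hth hR hn hx hz hv hrq hg hl hH hM ho0 ho1 ho2 ho3 ho4
  dsimp only [outR, prog, prog1, prog2, prog3, prog4, prog5, prog6, runR, stepR, gtR, List.take,
    sOD, sOC, sO2, sO1, sPd, sPc, sE0, mPj, sKap, sCap, sNh, sCenC, sCenD, sCen3, sCen4, mK3, mK4,
    mMu] at e0 ⊢
  exact ⟨e0, rfl⟩

theorem l0 : ((281474976710656 : ℤ) : ℝ) / 2 ^ 47 = 2 := by norm_num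
theorem u0 : (33 / 16 : ℝ) = ((290271069732864 : ℤ) : ℝ) / 2 ^ 47 := by norm_num
theorem l1 : ((0 : ℤ) : ℝ) / 2 ^ 47 = 0 := by norm_num
theorem u1 : (1 : ℝ) = ((140737488355328 : ℤ) : ℝ) / 2 ^ 47 := by norm_num
theorem l2 : ((61572651155456 : ℤ) : ℝ) / 2 ^ 47 = 7 / 16 := by norm_num
theorem u2 : (3 / 4 : ℝ) = ((105553116266496 : ℤ) : ℝ) / 2 ^ 47 := by norm_num

theorem out0 {F p t : ℝ} (a0 : 2 ≤ F) (b0 : F ≤ 33 / 16) (a1 : 0 ≤ p) (b1 : p ≤ 1) (a2 : 7 / 16 ≤ t)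
    (b2 : t ≤ 3 / 4) (c0 : 0 ≤ outR (prog.take 9) 0 [F, p, t]) : 0 < outR prog 0 [F, p, t] :=
  gd 0 (by decide) [F, p, t] (.cons ⟨l0.le.trans a0, b0.trans u0.le⟩ (.cons ⟨l1.le.trans a1,
    b1.trans u1.le⟩ (.cons ⟨l2.le.trans a2, b2.trans u2.le⟩ (.nil)))) ⟨nofun, nofun, nofun, trivial⟩
    (List.forall_mem_cons.2 ⟨c0, List.forall_mem_nil _⟩) (Van.of0 rfl) (nofun)

theorem pos0 {F p t s sg a N mm m D k c th R n x z v rq g l H M o0 o1 o2 o3 o4 : ℝ} (hs : s =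
    Real.exp t) (hsg : sg = F * (F - 1)⁻¹ - s) (ha : a = (F - 1) * F⁻¹) (hN : N = (F - 1)⁻¹ - 4 * s
    * (2 * F - 1)⁻¹ + s * s * F⁻¹) (hmm : mm = p * a * N⁻¹) (hm : m = sg * sg * mm) (hD : D = m - F)
    (hk : k = (sKap D F)) (hc : c = (sCap D F)) (hth : th = Real.exp ((F - 2) * t)) (hR : R = 2 * c
    * (s * th) ^ 2) (hn : n = a * (1 - p) / 2) (hx : x = R * n) (hz : z = 1 - sg * sg * x) (hv : v =
    k * z) (hrq : rq = (√v)⁻¹) (hg : g = v * rq) (hl : l = 2 * mm + x) (hH : H = ((s - 1) * (F - 1 +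
    sg * mm * (s - 1))) ^ 2) (hM : M = R * H) (ho0 : o0 = (sOD D F m k c s R z g).1) (ho1 : o1 =
    (sOD D F m k c s R z g).2.1) (ho2 : o2 = (sOD D F m k c s R z g).2.2.1) (ho3 : o3 = (sOD D F m k
    c s R z g).2.2.2.1) (ho4 : o4 = (sOD D F m k c s R z g).2.2.2.2) (a0 : 2 ≤ F) (b0 : F ≤ 33 / 16)
    (a1 : 0 ≤ p) (b1 : p ≤ 1) (a2 : 7 / 16 ≤ t) (b2 : t ≤ 3 / 4) (c0 : 0 ≤ sg) : 0 < l * (l * (n *
    o0 + H * o1) + M * (n * o2 + H * o3)) + M * M * H * th * o4 :=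
  have e := eq hs hsg ha hN hmm hm hD hk hc hth hR hn hx hz hv hrq hg hl hH hM ho0 ho1 ho2 ho3 ho4
  (out0 a0 b0 a1 b1 a2 b2 (c0.trans_eq e.2.symm)).trans_eq e.1

end Pool.Agent.Lib.MP_d6150d_an.S6dS
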