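import Pool.Agent.Lib.MP_d6150d_an.S6dTD

/-! A generated chart: the computations. -/

namespace Pool.Agent.Lib.MP_d6150d_an.S6dT

theorem k0 : chk C 0xaaa884d8819193094940222a9288830992144 [(0, 2199023255552), (0, 240518168576),
    (0, 3367254360064), (0, 962072674304), (0, 4398046511104)] = true := by
  decide +kernel

theorem k1 : chk C 0xdd388088088840144 [(2199023255552, 4398046511104), (0, 240518168576), (0,
    3367254360064), (0, 962072674304), (0, 4398046511104)] = true := by
  decide +kernel

theorem k2 : chk C 0x88844888448a8a8883184202088184400 [(0, 4398046511104), (240518168576,
    481036337152), (0, 3367254360064), (0, 962072674304), (0, 4398046511104)] = true := by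
  decide +kernel

theorem k3 : chk C 0xaaa880a880891041444 [(0, 4398046511104), (0, 481036337152), (3367254360064,
    6734508720128), (0, 962072674304), (0, 4398046511104)] = true := by
  decide +kernel

theorem k4 : chk C 0xadd34d888183848402888881830840088384412 [(0, 2199023255552), (481036337152,
    962072674304), (0, 6734508720128), (0, 962072674304), (0, 4398046511104)] = true := by
  decide +kernel

theorem k5 : chk C 0xd888442 [(2199023255552, 4398046511104), (481036337152, 962072674304), (0,
    6734508720128), (0, 962072674304), (0, 4398046511104)] = true := by
  decide +kernel

theorem k6 : chk C 0x8d388880424d8d018a821888028808880021441 [(4398046511104, 8796093022208), (0,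
    962072674304), (0, 6734508720128), (0, 962072674304), (0, 4398046511104)] = true := by
  decide +kernel

end Pool.Agent.Lib.MP_d6150d_an.S6dT
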