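import Pool.Agent.Lib.MP_d6150d_an.S6dTD

/-! A generated chart: the computations. -/

namespace Pool.Agent.Lib.MP_d6150d_an.S6dT

theorem k7 : chk C 0xaaa8888011880a880a881891041410444 [(0, 8796093022208), (0, 962072674304),
    (6734508720128, 13469017440256), (0, 962072674304), (0, 4398046511104)] = true := by
  decide +kernel

theorem k8 : chk C 0xaaa8888011880a880a888018809921041410444 [(0, 8796093022208), (0, 962072674304),
    (13469017440256, 26938034880512), (0, 962072674304), (0, 2199023255552)] = true := by
  decide +kernel

theorem k9 : chk C 0xa [(0, 8796093022208), (0, 962072674304), (13469017440256, 26938034880512), (0,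
    962072674304), (2199023255552, 4398046511104)] = true := by
  decide +kernel

theorem k10 : chk C 0x88d30a88800a88088028890188901204141 [(0, 4398046511104), (0, 962072674304),
    (26938034880512, 53876069761024), (0, 962072674304), (0, 137438953472)] = true := by
  decide +kernel

theorem k11 : chk C 0x880a881881241 [(4398046511104, 8796093022208), (0, 962072674304),
    (26938034880512, 53876069761024), (0, 962072674304), (0, 137438953472)] = true := by
  decide +kernel

theorem k12 : chk C 0xa [(0, 8796093022208), (0, 962072674304), (26938034880512, 53876069761024),
    (0, 962072674304), (137438953472, 274877906944)] = true := by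
  decide +kernel

theorem k13 : chk C 0xa [(0, 8796093022208), (0, 962072674304), (26938034880512, 53876069761024),
    (0, 962072674304), (274877906944, 549755813888)] = true := by
  decide +kernel

theorem k14 : chk C 0xa [(0, 8796093022208), (0, 962072674304), (26938034880512, 53876069761024),
    (0, 962072674304), (549755813888, 1099511627776)] = true := by
  decide +kernel

theorem k15 : chk C 0xa [(0, 8796093022208), (0, 962072674304), (26938034880512, 53876069761024),
    (0, 962072674304), (1099511627776, 2199023255552)] = true := by
  decide +kernel

theorem k16 : chk C 0xa [(0, 8796093022208), (0, 962072674304), (26938034880512, 53876069761024),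
    (0, 962072674304), (2199023255552, 4398046511104)] = true := by
  decide +kernel

theorem k17 : chk C 0x88800a8808802a88089014a883890142041 [(0, 4398046511104), (0, 481036337152),
    (53876069761024, 80814104641536), (0, 962072674304), (0, 34359738368)] = true := by
  decide +kernel

end Pool.Agent.Lib.MP_d6150d_an.S6dT
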