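import Pool.Agent.Lib.MP_d6150d_an.S6dTD

/-! A generated chart: the computations. -/

namespace Pool.Agent.Lib.MP_d6150d_an.S6dT

theorem k18 : chk C 0xa8a880880241880a880880901880992124104 [(0, 4398046511104), (0, 481036337152),
    (80814104641536, 107752139522048), (0, 962072674304), (0, 34359738368)] = true := by
  decide +kernel

theorem k19 : chk C 0xa [(0, 4398046511104), (0, 481036337152), (53876069761024, 107752139522048),
    (0, 962072674304), (34359738368, 68719476736)] = true := by
  decide +kernel

theorem k20 : chk C 0x88800888102 [(0, 4398046511104), (481036337152, 962072674304),
    (53876069761024, 107752139522048), (0, 962072674304), (0, 68719476736)] = true := by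
  decide +kernel

theorem k21 : chk C 0xa880a880a880880241414883a880a880d241412 [(4398046511104, 8796093022208), (0,
    962072674304), (53876069761024, 107752139522048), (0, 962072674304), (0, 68719476736)] = true :=
    by
  decide +kernel

theorem k22 : chk C 0xa [(0, 8796093022208), (0, 962072674304), (53876069761024, 107752139522048),
    (0, 962072674304), (68719476736, 137438953472)] = true := by
  decide +kernel

theorem k23 : chk C 0xa [(0, 8796093022208), (0, 962072674304), (53876069761024, 107752139522048),
    (0, 962072674304), (137438953472, 274877906944)] = true := by
  decide +kernel

theorem k24 : chk C 0xa [(0, 8796093022208), (0, 962072674304), (53876069761024, 107752139522048),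
    (0, 962072674304), (274877906944, 549755813888)] = true := by
  decide +kernel

theorem k25 : chk C 0xa [(0, 8796093022208), (0, 962072674304), (53876069761024, 107752139522048),
    (0, 962072674304), (549755813888, 1099511627776)] = true := by
  decide +kernel

theorem k26 : chk C 0xa [(0, 8796093022208), (0, 962072674304), (53876069761024, 107752139522048),
    (0, 962072674304), (1099511627776, 2199023255552)] = true := by
  decide +kernel

theorem k27 : chk C 0xa [(0, 8796093022208), (0, 962072674304), (53876069761024, 107752139522048),
    (0, 962072674304), (2199023255552, 4398046511104)] = true := by
  decide +kernel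

end Pool.Agent.Lib.MP_d6150d_an.S6dT
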