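import Pool.Agent.Lib.MP_d6150d_an.S6M
import Pool.Agent.Lib.MP_d6150d_an.S6dTK0
import Pool.Agent.Lib.MP_d6150d_an.S6dTK1
import Pool.Agent.Lib.MP_d6150d_an.S6dTK2

/-! A generated chart: the inequality. -/

namespace Pool.Agent.Lib.MP_d6150d_an.S6dT

set_option linter.unnecessarySeqFocus false
set_option linter.unusedTactic false
set_option linter.unusedVariables false

theorem gd : Gd C [(0, 8796093022208), (0, 962072674304), (0, 107752139522048), (0, 962072674304),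
    (0, 4398046511104)] := .split 2 (.split 2 (.split 2 (.split 2 (.split 0 (.split 1 (.split 2
    (.split 1 (.split 0 (chk_sound k0) (chk_sound k1)) (chk_sound k2)) (chk_sound k3)) (.split 0
    (chk_sound k4) (chk_sound k5))) (chk_sound k6)) (chk_sound k7)) (.split 4 (chk_sound k8)
    (chk_sound k9))) (.split 4 (.split 4 (.split 4 (.split 4 (.split 4 (.split 0 (chk_sound k10)
    (chk_sound k11)) (chk_sound k12)) (chk_sound k13)) (chk_sound k14)) (chk_sound k15)) (chk_sound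
    k16))) (.split 4 (.split 4 (.split 4 (.split 4 (.split 4 (.split 4 (.split 0 (.split 1 (.split 4
    (.split 2 (chk_sound k17) (chk_sound k18)) (chk_sound k19)) (chk_sound k20)) (chk_sound k21))
    (chk_sound k22)) (chk_sound k23)) (chk_sound k24)) (chk_sound k25)) (chk_sound k26)) (chk_sound
    k27))

set_option maxRecDepth 100000 in
theorem eq {d s m o la F D k c R n x z v rq g o0 o1 o2 o3 o4 H M : ℝ} (hF : F = 2 + d) (hD : D = m -
    F) (hk : k = (sKap D F)) (hc : c = (sCap D F)) (hR : R = 2 * c * s * o) (hn : n = (sNh D F s))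
    (hx : x = R * n) (hz : z = 1 - x) (hv : v = k * z) (hrq : rq = (√v)⁻¹) (hg : g = -(v * rq)) (ho0
    : o0 = (sOD D F m k c s R z g).1) (ho1 : o1 = (sOD D F m k c s R z g).2.1) (ho2 : o2 = (sOD D F
    m k c s R z g).2.2.1) (ho3 : o3 = (sOD D F m k c s R z g).2.2.2.1) (ho4 : o4 = (sOD D F m k c s
    R z g).2.2.2.2) (hH : H = ((s - 1) * ((1 + D) * s - D)) ^ 2) (hM : M = la * H) : outR prog 0 [d,
    s, m, o, la] = n * (n * o0 + H * o1) + M * (n * o2 + H * o3) ∧ outR (prog.take 43) 0 [d, s, m,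
    o, la] = x - la * (1 + 2 * m - z) := by
  replace hF : F = ((Int.cast (2) : ℝ) + d) := hF.trans (by push_cast <;> ring)
  replace hD : D = (m - F) := hD.trans (by push_cast <;> ring)
  replace hk : k = (sKap D F) := hk.trans (sKap_0 ..)
  replace hc : c = (sCap D F) := hc.trans (sCap_0 ..)
  replace hR : R = ((((Int.cast (2) : ℝ) * c) * s) * o) := hR.trans (by push_cast <;> ring)
  replace hn : n = (sNh D F s) := hn.trans (sNh_0 ..)
  replace hx : x = (R * n) := hx.trans (by push_cast <;> ring)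
  replace hz : z = ((Int.cast (1) : ℝ) - x) := hz.trans (by push_cast <;> ring)
  replace hv : v = (k * z) := hv.trans (by push_cast <;> ring)
  replace hg : g = ((Int.cast (-1) : ℝ) * (v * rq)) := hg.trans (by push_cast <;> ring)
  replace ho0 : o0 = (sOD D F m k c s R z g).1 := ho0.trans (sOD_0 ..)
  replace ho1 : o1 = (sOD D F m k c s R z g).2.1 := ho1.trans (sOD_1 ..)
  replace ho2 : o2 = (sOD D F m k c s R z g).2.2.1 := ho2.trans (sOD_2 ..)
  replace ho3 : o3 = (sOD D F m k c s R z g).2.2.2.1 := ho3.trans (sOD_3 ..)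
  replace ho4 : o4 = (sOD D F m k c s R z g).2.2.2.2 := ho4.trans (sOD_4 ..)
  replace hH : H = (((s - (Int.cast (1) : ℝ)) * ((((Int.cast (1) : ℝ) + D) * s) - D)) * ((s -
    (Int.cast (1) : ℝ)) * ((((Int.cast (1) : ℝ) + D) * s) - D))) := hH.trans (by push_cast <;> ring)
  replace hM : M = (la * H) := hM.trans (by push_cast <;> ring)
  have e0 : ((n * ((n * o0) + (H * o1))) + (M * ((n * o2) + (H * o3)))) = n * (n * o0 + H * o1) + M
    * (n * o2 + H * o3) := by push_cast <;> ring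
  have e1 : (x - (la * (((Int.cast (1) : ℝ) + ((Int.cast (2) : ℝ) * m)) - z))) = x - la * (1 + 2 * m
    - z) := by push_cast <;> ring
  subst hF hD hk hc hR hn hx hz hv hrq hg ho0 ho1 ho2 ho3 ho4 hH hM
  dsimp only [outR, prog, prog1, prog2, prog3, prog4, runR, stepR, gtR, List.take, sOD, sOC, sO2,
    sO1, sPd, sPc, sE0, mPj, sKap, sCap, sNh, sCenC, sCenD, sCen3, sCen4, mK3, mK4, mMu] at e0 e1 ⊢
  exact ⟨e0, e1⟩

theorem l0 : ((0 : ℤ) : ℝ) / 2 ^ 47 = 0 := by norm_num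
theorem u0 : (1 / 16 : ℝ) = ((8796093022208 : ℤ) : ℝ) / 2 ^ 47 := by norm_num
theorem l1 : ((0 : ℤ) : ℝ) / 2 ^ 47 = 0 := by norm_num
theorem u1 : (7 / 1024 : ℝ) = ((962072674304 : ℤ) : ℝ) / 2 ^ 47 := by norm_num
theorem l2 : ((0 : ℤ) : ℝ) / 2 ^ 47 = 0 := by norm_num
theorem u2 : (49 / 64 : ℝ) = ((107752139522048 : ℤ) : ℝ) / 2 ^ 47 := by norm_num
theorem l3 : ((0 : ℤ) : ℝ) / 2 ^ 47 = 0 := by norm_num
theorem u3 : (7 / 1024 : ℝ) = ((962072674304 : ℤ) : ℝ) / 2 ^ 47 := by norm_num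
theorem l4 : ((0 : ℤ) : ℝ) / 2 ^ 47 = 0 := by norm_num
theorem u4 : (1 / 32 : ℝ) = ((4398046511104 : ℤ) : ℝ) / 2 ^ 47 := by norm_num

theorem out0 (N : ∀ m o la : ℝ, 0 ≤ m → m ≤ 49 / 64 → 0 ≤ o → o ≤ 7 / 1024 → 0 ≤ la → la ≤ 1 / 32 →
    0 ≤ outR prog 0 [0, 0, m, o, la]) {d s m o la : ℝ} (a0 : 0 ≤ d) (b0 : d ≤ 1 / 16) (a1 : 0 ≤ s)
    (b1 : s ≤ 7 / 1024) (a2 : 0 ≤ m) (b2 : m ≤ 49 / 64) (a3 : 0 ≤ o) (b3 : o ≤ 7 / 1024) (a4 : 0 ≤
    la) (b4 : la ≤ 1 / 32) (p0 : 0 < d) (p1 : 0 < s) (c0 : 0 ≤ outR (prog.take 43) 0 [d, s, m, o,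
    la]) : 0 < outR prog 0 [d, s, m, o, la] :=
  gd 0 (by decide) [d, s, m, o, la] (.cons ⟨l0.le.trans a0, b0.trans u0.le⟩ (.cons ⟨l1.le.trans a1,
    b1.trans u1.le⟩ (.cons ⟨l2.le.trans a2, b2.trans u2.le⟩ (.cons ⟨l3.le.trans a3, b3.trans u3.le⟩
    (.cons ⟨l4.le.trans a4, b4.trans u4.le⟩ (.nil)))))) ⟨fun _ ↦ p0, fun _ ↦ p1, nofun, nofun,
    nofun, trivial⟩ (List.forall_mem_cons.2 ⟨c0, List.forall_mem_nil _⟩) (Van.of0 rfl) (fun _ _ _ _
    _ _ _ y2 a2 b2 y3 a3 b3 y4 a4 b4 ↦ N y2 y3 y4 (l2.ge.trans a2) (b2.trans u2.ge) (l3.ge.trans a3)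
    (b3.trans u3.ge) (l4.ge.trans a4) (b4.trans u4.ge))

end Pool.Agent.Lib.MP_d6150d_an.S6dT
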