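import Pool.Agent.Lib.MP_d6150d_an.S6dUD

/-! A generated chart: the computations. -/

namespace Pool.Agent.Lib.MP_d6150d_an.S6dU

theorem k0 : chk C 0x888118882148809199881904440 [(0, 8796093022208), (0, 17592186044416), (0,
    1374389534720), (0, 549755813888), (4398046511104, 38482906972160)] = true := by
  decide +kernel

theorem k1 : chk C 0x8883088811883919401 [(0, 8796093022208), (0, 17592186044416), (0,
    1374389534720), (0, 549755813888), (38482906972160, 72567767433216)] = true := by
  decide +kernel

end Pool.Agent.Lib.MP_d6150d_an.S6dU
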