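import Pool.Agent.Lib.MP_d6150d_an.S6dUD

/-! A generated chart: the computations. -/

namespace Pool.Agent.Lib.MP_d6150d_an.S6dU

theorem k4 : chk C 0x8888084338830 [(0, 8796093022208), (17592186044416, 35184372088832), (0,
    1374389534720), (0, 549755813888), (72567767433216, 140737488355328)] = true := by
  decide +kernel

theorem k5 : chk C 0x8828828883288808882024044 [(0, 4398046511104), (35184372088832,
    70368744177664), (0, 1374389534720), (0, 549755813888), (4398046511104, 38482906972160)] = true
    := by
  decide +kernel

theorem k6 : chk C 0x888823388388244 [(4398046511104, 8796093022208), (35184372088832,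
    70368744177664), (0, 1374389534720), (0, 549755813888), (4398046511104, 38482906972160)] = true
    := by
  decide +kernel

end Pool.Agent.Lib.MP_d6150d_an.S6dU
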