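import Pool.Agent.Lib.MP_d6150d_an.S6dUD

/-! A generated chart: the computations. -/

namespace Pool.Agent.Lib.MP_d6150d_an.S6dU

theorem k7 : chk C 0x8888380338820 [(0, 8796093022208), (35184372088832, 70368744177664), (0,
    1374389534720), (0, 549755813888), (38482906972160, 72567767433216)] = true := by
  decide +kernel

theorem k8 : chk C 0x88888480338038830 [(0, 8796093022208), (35184372088832, 70368744177664), (0,
    1374389534720), (0, 549755813888), (72567767433216, 140737488355328)] = true := by
  decide +kernel

theorem k9 : chk C 0x8883288804883883888320424 [(0, 4398046511104), (70368744177664,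
    140737488355328), (0, 1374389534720), (0, 549755813888), (4398046511104, 21440476741632)] = true
    := by
  decide +kernel

end Pool.Agent.Lib.MP_d6150d_an.S6dU
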