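import Pool.Agent.Lib.MP_d6150d_an.S6dUD

/-! A generated chart: the computations. -/

namespace Pool.Agent.Lib.MP_d6150d_an.S6dU

theorem k10 : chk C 0x88288803888032388803882884324 [(4398046511104, 8796093022208),
    (70368744177664, 140737488355328), (0, 1374389534720), (0, 549755813888), (4398046511104,
    21440476741632)] = true := by
  decide +kernel

theorem k11 : chk C 0x8828888133888823328820388388320 [(0, 8796093022208), (70368744177664,
    140737488355328), (0, 1374389534720), (0, 549755813888), (21440476741632, 38482906972160)] =
    true := by
  decide +kernel

end Pool.Agent.Lib.MP_d6150d_an.S6dU
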