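import Pool.Agent.Lib.MP_d6150d_an.S6dUD

/-! A generated chart: the computations. -/

namespace Pool.Agent.Lib.MP_d6150d_an.S6dU

theorem k12 : chk C 0x882882888481803888823380238820388388320 [(0, 8796093022208), (70368744177664,
    140737488355328), (0, 1374389534720), (0, 549755813888), (38482906972160, 72567767433216)] =
    true := by
  decide +kernel

theorem k13 : chk C 0x88823 [(0, 4398046511104), (70368744177664, 140737488355328), (0,
    1374389534720), (0, 549755813888), (72567767433216, 140737488355328)] = true := by
  decide +kernel

theorem k14 : chk C 0x882 [(4398046511104, 6597069766656), (70368744177664, 140737488355328), (0,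
    1374389534720), (0, 274877906944), (72567767433216, 140737488355328)] = true := by
  decide +kernel

end Pool.Agent.Lib.MP_d6150d_an.S6dU
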