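import Pool.Agent.Lib.MP_d6150d_an.S6dUD

/-! A generated chart: the computations. -/

namespace Pool.Agent.Lib.MP_d6150d_an.S6dU

theorem k15 : chk C 0x888813388882332882088882813388882380324 [(6597069766656, 8796093022208),
    (70368744177664, 140737488355328), (0, 1374389534720), (0, 137438953472), (72567767433216,
    140737488355328)] = true := by
  decide +kernel

theorem k16 : chk C 0x88812 [(6597069766656, 8796093022208), (70368744177664, 140737488355328), (0,
    1374389534720), (137438953472, 274877906944), (72567767433216, 140737488355328)] = true := by
  decide +kernel

theorem k17 : chk C 0x88280 [(4398046511104, 8796093022208), (70368744177664, 140737488355328), (0,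
    1374389534720), (274877906944, 549755813888), (72567767433216, 140737488355328)] = true := by
  decide +kernel

end Pool.Agent.Lib.MP_d6150d_an.S6dU
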