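import Pool.Agent.Lib.MP_d6150d_an.S6M
import Pool.Agent.Lib.MP_d6150d_an.S6dUK0
import Pool.Agent.Lib.MP_d6150d_an.S6dUK1
import Pool.Agent.Lib.MP_d6150d_an.S6dUK2
import Pool.Agent.Lib.MP_d6150d_an.S6dUK3
import Pool.Agent.Lib.MP_d6150d_an.S6dUK4
import Pool.Agent.Lib.MP_d6150d_an.S6dUK5
import Pool.Agent.Lib.MP_d6150d_an.S6dUK6

/-! A generated chart: the inequality. -/

namespace Pool.Agent.Lib.MP_d6150d_an.S6dU

set_option linter.unnecessarySeqFocus false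
set_option linter.unusedTactic false
set_option linter.unusedVariables false

theorem gd : Gd C [(0, 8796093022208), (0, 140737488355328), (0, 1374389534720), (0, 549755813888),
    (4398046511104, 140737488355328)] := .split 1 (.split 1 (.split 1 (.split 4 (.split 4 (chk_sound
    k0) (chk_sound k1)) (chk_sound k2)) (.split 4 (chk_sound k3) (chk_sound k4))) (.split 4 (.split
    4 (.split 0 (chk_sound k5) (chk_sound k6)) (chk_sound k7)) (chk_sound k8))) (.split 4 (.split 4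
    (.split 4 (.split 0 (chk_sound k9) (chk_sound k10)) (chk_sound k11)) (chk_sound k12)) (.split 0
    (chk_sound k13) (.split 3 (.split 0 (chk_sound k14) (.split 3 (chk_sound k15) (chk_sound k16)))
    (chk_sound k17))))

set_option maxRecDepth 100000 in
theorem eq {d th o m la F D k c s R n x z v rq g H M o0 o1 o2 o3 o4 : ℝ} (hF : F = 2 + d) (hD : D =
    m - F) (hk : k = (sKap D F)) (hc : c = (sCap D F)) (hs : s = th * o) (hR : R = 2 * c * (s * th)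
    ^ 2) (hn : n = (sNh D F s)) (hx : x = R * n) (hz : z = 1 - x) (hv : v = k * z) (hrq : rq =
    (√v)⁻¹) (hg : g = -(v * rq)) (hH : H = ((s - 1) * ((1 + D) * s - D)) ^ 2) (hM : M = la * H) (ho0
    : o0 = (sOD D F m k c s R z g).1) (ho1 : o1 = (sOD D F m k c s R z g).2.1) (ho2 : o2 = (sOD D F
    m k c s R z g).2.2.1) (ho3 : o3 = (sOD D F m k c s R z g).2.2.2.1) (ho4 : o4 = (sOD D F m k c s
    R z g).2.2.2.2) : outR prog 0 [d, th, o, m, la] = n * (n * (n * o0 + H * o1) + M * (n * o2 + H *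
    o3)) + M * M * H * th * o4 := by
  replace hF : F = ((Int.cast (2) : ℝ) + d) := hF.trans (by push_cast <;> ring)
  replace hD : D = (m - F) := hD.trans (by push_cast <;> ring)
  replace hk : k = (sKap D F) := hk.trans (sKap_0 ..)
  replace hc : c = (sCap D F) := hc.trans (sCap_0 ..)
  replace hs : s = (th * o) := hs.trans (by push_cast <;> ring)
  replace hR : R = (((Int.cast (2) : ℝ) * c) * ((s * th) * (s * th))) := hR.trans (by push_cast <;>
    ring)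
  replace hn : n = (sNh D F s) := hn.trans (sNh_0 ..)
  replace hx : x = (R * n) := hx.trans (by push_cast <;> ring)
  replace hz : z = ((Int.cast (1) : ℝ) - x) := hz.trans (by push_cast <;> ring)
  replace hv : v = (k * z) := hv.trans (by push_cast <;> ring)
  replace hg : g = ((Int.cast (-1) : ℝ) * (v * rq)) := hg.trans (by push_cast <;> ring)
  replace hH : H = (((s - (Int.cast (1) : ℝ)) * ((((Int.cast (1) : ℝ) + D) * s) - D)) * ((s -
    (Int.cast (1) : ℝ)) * ((((Int.cast (1) : ℝ) + D) * s) - D))) := hH.trans (by push_cast <;> ring)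
  replace hM : M = (la * H) := hM.trans (by push_cast <;> ring)
  replace ho0 : o0 = (sOD D F m k c s R z g).1 := ho0.trans (sOD_0 ..)
  replace ho1 : o1 = (sOD D F m k c s R z g).2.1 := ho1.trans (sOD_1 ..)
  replace ho2 : o2 = (sOD D F m k c s R z g).2.2.1 := ho2.trans (sOD_2 ..)
  replace ho3 : o3 = (sOD D F m k c s R z g).2.2.2.1 := ho3.trans (sOD_3 ..)
  replace ho4 : o4 = (sOD D F m k c s R z g).2.2.2.2 := ho4.trans (sOD_4 ..)
  have e0 : ((n * ((n * ((n * o0) + (H * o1))) + (M * ((n * o2) + (H * o3))))) + ((((M * M) * H) *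
    th) * o4)) = n * (n * (n * o0 + H * o1) + M * (n * o2 + H * o3)) + M * M * H * th * o4 := by
    push_cast <;> ring
  subst hF hD hk hc hs hR hn hx hz hv hrq hg hH hM ho0 ho1 ho2 ho3 ho4
  refine Eq.trans ?_ e0
  dsimp only [outR, prog, prog1, prog2, prog3, prog4, prog5, prog6, runR, stepR, gtR, List.take,
    sOD, sOC, sO2, sO1, sPd, sPc, sE0, mPj, sKap, sCap, sNh, sCenC, sCenD, sCen3, sCen4, mK3, mK4,
    mMu]

theorem l0 : ((0 : ℤ) : ℝ) / 2 ^ 47 = 0 := by norm_num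
theorem u0 : (1 / 16 : ℝ) = ((8796093022208 : ℤ) : ℝ) / 2 ^ 47 := by norm_num
theorem l1 : ((0 : ℤ) : ℝ) / 2 ^ 47 = 0 := by norm_num
theorem u1 : (1 : ℝ) = ((140737488355328 : ℤ) : ℝ) / 2 ^ 47 := by norm_num
theorem l2 : ((0 : ℤ) : ℝ) / 2 ^ 47 = 0 := by norm_num
theorem u2 : (5 / 512 : ℝ) = ((1374389534720 : ℤ) : ℝ) / 2 ^ 47 := by norm_num
theorem l3 : ((0 : ℤ) : ℝ) / 2 ^ 47 = 0 := by norm_num
theorem u3 : (1 / 256 : ℝ) = ((549755813888 : ℤ) : ℝ) / 2 ^ 47 := by norm_num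
theorem l4 : ((4398046511104 : ℤ) : ℝ) / 2 ^ 47 = 1 / 32 := by norm_num
theorem u4 : (1 : ℝ) = ((140737488355328 : ℤ) : ℝ) / 2 ^ 47 := by norm_num

theorem out0 (N : ∀ o m la : ℝ, 0 ≤ o → o ≤ 5 / 512 → 0 ≤ m → m ≤ 1 / 256 → 1 / 32 ≤ la → la ≤ 1 → 0
    ≤ outR prog 0 [0, 0, o, m, la]) {d th o m la : ℝ} (a0 : 0 ≤ d) (b0 : d ≤ 1 / 16) (a1 : 0 ≤ th)
    (b1 : th ≤ 1) (a2 : 0 ≤ o) (b2 : o ≤ 5 / 512) (a3 : 0 ≤ m) (b3 : m ≤ 1 / 256) (a4 : 1 / 32 ≤ la)
    (b4 : la ≤ 1) (p0 : 0 < d) (p1 : 0 < th) : 0 < outR prog 0 [d, th, o, m, la] :=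
  gd 0 (by decide) [d, th, o, m, la] (.cons ⟨l0.le.trans a0, b0.trans u0.le⟩ (.cons ⟨l1.le.trans a1,
    b1.trans u1.le⟩ (.cons ⟨l2.le.trans a2, b2.trans u2.le⟩ (.cons ⟨l3.le.trans a3, b3.trans u3.le⟩
    (.cons ⟨l4.le.trans a4, b4.trans u4.le⟩ (.nil)))))) ⟨fun _ ↦ p0, fun _ ↦ p1, nofun, nofun,
    nofun, trivial⟩ (List.forall_mem_nil _) (Van.of0 rfl) (fun _ _ _ _ _ _ _ y2 a2 b2 y3 a3 b3 y4 a4
    b4 ↦ N y2 y3 y4 (l2.ge.trans a2) (b2.trans u2.ge) (l3.ge.trans a3) (b3.trans u3.ge) (l4.ge.trans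
    a4) (b4.trans u4.ge))

end Pool.Agent.Lib.MP_d6150d_an.S6dU
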