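import Pool.Agent.Lib.MP_d6150d_an.S6dWD

/-! A generated chart: the computations. -/

namespace Pool.Agent.Lib.MP_d6150d_an.S6dW

theorem k0 : chk C 0x88881008888011888801188088188101001 [(0, 35184372088832), (0, 184717953466368)]
    = true := by
  decide +kernel

theorem k1 : chk C 0xe88b81001 [(0, 35184372088832), (184717953466368, 369435906932736)] = true :=
    by
  decide +kernel

theorem k2 : chk C 0x888881111 [(35184372088832, 70368744177664), (0, 369435906932736)] = true := by
  decide +kernel

theorem k3 : chk C 0xad1808888181808080111 [(70368744177664, 140737488355328), (0, 369435906932736)]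
    = true := by
  decide +kernel

end Pool.Agent.Lib.MP_d6150d_an.S6dW
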