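import Pool.Agent.Lib.MP_d6150d_an.S6M
import Pool.Agent.Lib.MP_d6150d_an.S6dWK0

/-! A generated chart: the inequality. -/

namespace Pool.Agent.Lib.MP_d6150d_an.S6dW

set_option linter.unnecessarySeqFocus false
set_option linter.unusedTactic false
set_option linter.unusedVariables false

theorem gd : Gd C [(0, 140737488355328), (0, 369435906932736)] := .split 0 (.split 0 (.split 1
    (chk_sound k0) (chk_sound k1)) (chk_sound k2)) (chk_sound k3)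

set_option maxRecDepth 100000 in
theorem eq {la l y m z p0 p1 ql h0 h1 h2 r1 r2 b : ℝ} (hy : y = la * l) (hm : m = (l - y) / 2) (hz :
    z = 1 - y) (hp0 : p0 = (sPd m).1) (hp1 : p1 = (sPd m).2.1) (hql : ql = (sPd m).2.2.1) (hh0 : h0
    = (sPd m).2.2.2.1) (hh1 : h1 = (sPd m).2.2.2.2.1) (hh2 : h2 = (sPd m).2.2.2.2.2.1) (hr1 : r1 =
    (sPd m).2.2.2.2.2.2.1) (hr2 : r2 = (sPd m).2.2.2.2.2.2.2.1) (hb : b = z * (1 / 20 + 3 * la) + 2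
    * y) : outR prog 0 [la, l] = -((p0 + p1 * z) * (b * b + z * z * (1 / 20 + 3 * la * la) - 2 * y *
    y) + (ql - la * (h0 + z * (h1 + z * h2))) * b + z * (r1 + z * (r2 + z * (5 / 2 * h2 - 35 / 4 *
    p1))) * la) ∧ outR (prog.take 6) 0 [la, l] = z ∧ outR (prog.take 12) 0 [la, l] = 49 / 64 - m :=
    by
  replace hy : y = (la * l) := hy.trans (by push_cast <;> ring)
  replace hm : m = (((Int.cast (1) : ℝ) / (Nat.cast 2 : ℝ)) * (l - y)) := hm.trans (by push_cast <;>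
    ring)
  replace hz : z = ((Int.cast (1) : ℝ) - y) := hz.trans (by push_cast <;> ring)
  replace hp0 : p0 = (sPd m).1 := hp0.trans (sPd_0 ..)
  replace hp1 : p1 = (sPd m).2.1 := hp1.trans (sPd_1 ..)
  replace hql : ql = (sPd m).2.2.1 := hql.trans (sPd_2 ..)
  replace hh0 : h0 = (sPd m).2.2.2.1 := hh0.trans (sPd_3 ..)
  replace hh1 : h1 = (sPd m).2.2.2.2.1 := hh1.trans (sPd_4 ..)
  replace hh2 : h2 = (sPd m).2.2.2.2.2.1 := hh2.trans (sPd_5 ..)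
  replace hr1 : r1 = (sPd m).2.2.2.2.2.2.1 := hr1.trans (sPd_6 ..)
  replace hr2 : r2 = (sPd m).2.2.2.2.2.2.2.1 := hr2.trans (sPd_7 ..)
  replace hb : b = ((z * (((Int.cast (1) : ℝ) / (Nat.cast 20 : ℝ)) + ((Int.cast (3) : ℝ) * la))) +
    ((Int.cast (2) : ℝ) * y)) := hb.trans (by push_cast <;> ring)
  have e0 : ((Int.cast (-1) : ℝ) * ((((p0 + (p1 * z)) * (((b * b) + ((z * z) * (((Int.cast (1) : ℝ)
    / (Nat.cast 20 : ℝ)) + (((Int.cast (3) : ℝ) * la) * la)))) - (((Int.cast (2) : ℝ) * y) * y))) +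
    ((ql - (la * (h0 + (z * (h1 + (z * h2)))))) * b)) + ((z * (r1 + (z * (r2 + (z * ((((Int.cast (5)
    : ℝ) / (Nat.cast 2 : ℝ)) * h2) - (((Int.cast (35) : ℝ) / (Nat.cast 4 : ℝ)) * p1))))))) * la))) =
    -((p0 + p1 * z) * (b * b + z * z * (1 / 20 + 3 * la * la) - 2 * y * y) + (ql - la * (h0 + z *
    (h1 + z * h2))) * b + z * (r1 + z * (r2 + z * (5 / 2 * h2 - 35 / 4 * p1))) * la) := by push_cast
    <;> ring
  have e2 : (((Int.cast (49) : ℝ) / (Nat.cast 64 : ℝ)) - m) = 49 / 64 - m := by push_cast <;> ring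
  subst hy hm hz hp0 hp1 hql hh0 hh1 hh2 hr1 hr2 hb
  dsimp only [outR, prog, prog1, runR, stepR, gtR, List.take, sOD, sOC, sO2, sO1, sPd, sPc, sE0,
    mPj, sKap, sCap, sNh, sCenC, sCenD, sCen3, sCen4, mK3, mK4, mMu] at e0 e2 ⊢
  exact ⟨e0, rfl, e2⟩

theorem l0 : ((0 : ℤ) : ℝ) / 2 ^ 47 = 0 := by norm_num
theorem u0 : (1 : ℝ) = ((140737488355328 : ℤ) : ℝ) / 2 ^ 47 := by norm_num
theorem l1 : ((0 : ℤ) : ℝ) / 2 ^ 47 = 0 := by norm_num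
theorem u1 : (21 / 8 : ℝ) = ((369435906932736 : ℤ) : ℝ) / 2 ^ 47 := by norm_num

theorem out0 {la l : ℝ} (a0 : 0 ≤ la) (b0 : la ≤ 1) (a1 : 0 ≤ l) (b1 : l ≤ 21 / 8) (c0 : 0 ≤ outR
    (prog.take 6) 0 [la, l]) (c1 : 0 ≤ outR (prog.take 12) 0 [la, l]) : 0 < outR prog 0 [la, l] :=
  gd 0 (by decide) [la, l] (.cons ⟨l0.le.trans a0, b0.trans u0.le⟩ (.cons ⟨l1.le.trans a1, b1.trans
    u1.le⟩ (.nil))) ⟨nofun, nofun, trivial⟩ (List.forall_mem_cons.2 ⟨c0, List.forall_mem_cons.2 ⟨c1,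
    List.forall_mem_nil _⟩⟩) (Van.of0 rfl) (nofun)

theorem pos0 {la l y m z p0 p1 ql h0 h1 h2 r1 r2 b : ℝ} (hy : y = la * l) (hm : m = (l - y) / 2) (hz
    : z = 1 - y) (hp0 : p0 = (sPd m).1) (hp1 : p1 = (sPd m).2.1) (hql : ql = (sPd m).2.2.1) (hh0 :
    h0 = (sPd m).2.2.2.1) (hh1 : h1 = (sPd m).2.2.2.2.1) (hh2 : h2 = (sPd m).2.2.2.2.2.1) (hr1 : r1
    = (sPd m).2.2.2.2.2.2.1) (hr2 : r2 = (sPd m).2.2.2.2.2.2.2.1) (hb : b = z * (1 / 20 + 3 * la) +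
    2 * y) (a0 : 0 ≤ la) (b0 : la ≤ 1) (a1 : 0 ≤ l) (b1 : l ≤ 21 / 8) (c0 : 0 ≤ z) (c1 : 0 ≤ 49 / 64
    - m) : 0 < -((p0 + p1 * z) * (b * b + z * z * (1 / 20 + 3 * la * la) - 2 * y * y) + (ql - la *
    (h0 + z * (h1 + z * h2))) * b + z * (r1 + z * (r2 + z * (5 / 2 * h2 - 35 / 4 * p1))) * la) :=
  have e := eq hy hm hz hp0 hp1 hql hh0 hh1 hh2 hr1 hr2 hb
  (out0 a0 b0 a1 b1 (c0.trans_eq e.2.1.symm) (c1.trans_eq e.2.2.symm)).trans_eq e.1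

end Pool.Agent.Lib.MP_d6150d_an.S6dW
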