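import Pool.Agent.Lib.MP_d6150d_an.S6F
import Pool.Agent.Lib.MP_d6150d_an.S6dL
import Pool.Agent.Lib.MP_d6150d_an.S6dR
import Pool.Agent.Lib.MP_d6150d_an.S6dM
import Pool.Agent.Lib.MP_d6150d_an.S6dS
import Pool.Agent.Lib.MP_d6150d_an.S6dC
import Pool.Agent.Lib.MP_d6150d_an.S6dT
import Pool.Agent.Lib.MP_d6150d_an.S6dU
import Pool.Agent.Lib.MP_d6150d_an.S6dW

/-! The region `2 < F ≤ 33 / 16`, `0 ≤ D + F ≤ 49 / 64`. -/

namespace Pool.Agent.Lib.MP_d6150d_an.S6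

open Real Set Filter Topology Asymptotics

variable {D F t m k c s θ R n z v g G l : ℝ}

/-- the operator -/
noncomputable def oD (m c : ℝ) : Gp := o2 c (lz m) (sPd m).1 (sPd m).2.1 (sPd m).2.2.1 (sPd m).2.2.2.1
  (sPd m).2.2.2.2.1 (sPd m).2.2.2.2.2.1 (sPd m).2.2.2.2.2.2.1 (sPd m).2.2.2.2.2.2.2.1

/-- the function whose sign is studied -/
noncomputable def XD (D F m k c : ℝ) : ℝ → ℝ :=
  X D F c (lz m) (lz m * sE0 D F k
    ((Int.cast 4 : ℝ) * ((sPd m).2.2.1 * lz m - (sPd m).2.2.2.1) - (Int.cast 2 : ℝ) * (lz m * (sPd m).1))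
    ((Int.cast 1 : ℝ) / (Nat.cast 2 : ℝ) * ((Int.cast 3 : ℝ) * (lz m * (sPd m).2.1 -
      (lz m + (Int.cast 1 : ℝ)) * (sPd m).1)) - ((sPd m).2.2.2.1 - (sPd m).2.2.2.2.1 - (sPd m).2.2.1) +
      (Int.cast 2 : ℝ) * (sPd m).2.2.2.2.2.2.1)) (sPd m).2.2.2.2.2.2.2.2.1
    (sPd m).2.2.2.2.2.2.2.2.2.1 (sPd m).2.2.2.2.2.2.2.2.2.2 (oD m c)

theorem cenD (ht : t ∈ JR D) (t0 : t ≠ 0) :
    t * sCenD D F m k c t = 4 * (ph1 t * om D t) ^ 7 * XD D F m k c t := cen2 ht t0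

theorem bigD (h1 : 2 ≤ F) (h2 : m ≤ 49 / 64) (hD : D = m - F) :
    (sCenD D F m (sKap D F) (sCap D F) =O[𝓝[>] 0] fun u ↦ u ^ 4) ∧
      (fun u ↦ sCenD D F m (sKap D F) (sCap D F) (-u)) =O[𝓝[>] 0] fun u ↦ u ^ 4 :=
  cen_bigO (X_bigO (kap_cap (by linarith) (by linarith)) (by push_cast; ring)
    (by push_cast; ring)) fun _ ↦ cenD

theorem sgD (ht : t ∈ JR D) (t0 : t ≠ 0) (h : 0 < sCenD D F m k c t) : 0 < t * XD D F m k c t :=
  sg_cen ht t0 four_pos h (cenD ht t0)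

theorem zeroD {o : ℝ × ℝ × ℝ × ℝ × ℝ} (ho : o = sOD D 2 m k c 0 0 z g) :
    o.1 = 0 ∧ o.2.1 = 0 ∧ o.2.2.1 = 0 ∧ o.2.2.2.1 = 0 := by
  simp [ho, sOD, sO2, pj_zero]

theorem Pt.tailD (P : Pt D F m t k c s θ R n z v g G l) (h1 : 2 < F) (h2 : F ≤ 33 / 16)
    (m1 : m ≤ 49 / 64) (h : t ≤ -5) : 0 < t * XD D F m k c t := by
  have tn : t < 0 := by linarith
  have hF : F = 2 + (F - 2) := by ring
  have hR : R = 2 * c * s * (s * θ ^ 2) := by rw [P.hR]; ring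
  have s1 : s ≤ 7 / 1024 := P.hs ▸ exp_le_of 12 h (by norm_num)
    (by norm_num [Finset.sum_range_succ, Nat.factorial]) (by norm_num)
  have θ1 : θ ≤ 1 := P.hθ ▸ exp_le_one_iff.2 (by nlinarith)
  have s0 := P.s0
  have θ0 := P.θ0
  have o0 : 0 ≤ s * θ ^ 2 := by positivity
  have o1 : s * θ ^ 2 ≤ 7 / 1024 :=
    (mul_le_of_le_one_right s0.le (pow_le_one₀ θ0.le θ1)).trans s1
  have l0 := P.l0
  have n0 := P.n0
  have x0 := mul_pos P.R0 P.n0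
  refine P.sg2 lz_eq (o := sOD D F m k c s R z g) rfl (x := l / n) (l' := n) (n' := n) (H := G ^ 2)
    (M := R * n / l * G ^ 2) (by positivity) one_pos (by field_simp) (by field_simp)
    (one_mul _).symm (one_mul _).symm ?_
  rcases le_total (R * n / l) (1 / 32) with a1 | a1
  · have q := S6dC.pos0 hF P.hD P.hk P.hc hR P.hn rfl P.hz P.hv rfl (P.gn tn) rfl rfl rfl rfl rfl
      (by linarith) (by linarith) s0.le s1 P.m0 m1 o0 o1
    have c0 : 0 ≤ R * n - R * n / l * (1 + 2 * m - z) := by rw [← P.hl]; field_simp; simp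
    have E := S6dT.eq hF P.hD P.hk P.hc hR P.hn rfl P.hz P.hv rfl (P.gn tn) rfl rfl rfl rfl rfl
      (congrArg (· ^ 2) P.hG) (la := R * n / l) rfl
    refine add_pos_of_pos_of_nonneg (mul_pos n0 ((S6dT.out0 (fun m o la _ _ _ _ _ _ ↦ ?_)
      (by linarith) (by linarith) s0.le s1 P.m0 m1 o0 o1 (by positivity) a1 (by linarith) s0
      (c0.trans_eq E.2.symm)).trans_eq E.1)) (by positivity)
    rw [(S6dT.eq (F := 2) (R := 0) (by norm_num) rfl rfl rfl (by ring) rfl rfl rfl rfl rfl rfl rfl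
      rfl rfl rfl rfl rfl rfl).1]
    simp only [zeroD rfl, mul_zero, add_zero, le_refl]
  · have q := S6dC.pos1 hF P.hD P.hk P.hc hR P.hn rfl P.hz P.hv rfl (P.gn tn) rfl rfl rfl rfl rfl
      (by linarith) (by linarith) s0.le s1 P.m0 m1 o0 o1
    have m2 : m ≤ 1 / 256 := by
      rw [le_div_iff₀ l0, P.hl, P.hz] at a1
      linarith
    have o2 : s / θ ≤ 5 / 512 := by
      rw [P.hs, P.hθ, ← exp_sub]
      exact exp_le_of (x := 75 / 16) 10 (by nlinarith) (by norm_num)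
        (by norm_num [Finset.sum_range_succ, Nat.factorial]) (by norm_num)
    refine (S6dU.out0 (fun o m la _ _ _ _ _ _ ↦ ?_) (by linarith) (by linarith) θ0.le θ1
      (by positivity) o2 P.m0 m2 a1 ((div_le_one l0).2 P.x_le) (by linarith) θ0).trans_eq
      (S6dU.eq hF P.hD P.hk P.hc (by field_simp) P.hR P.hn rfl P.hz P.hv rfl (P.gn tn)
        (congrArg (· ^ 2) P.hG) rfl rfl rfl rfl rfl rfl)
    rw [S6dU.eq (F := 2) (s := 0) (R := 0) (by norm_num) rfl rfl rfl (by ring) (by ring) rfl rfl rfl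
      rfl rfl rfl rfl rfl rfl rfl rfl rfl rfl]
    simp only [zeroD rfl, mul_zero, zero_mul, add_zero, le_refl]

theorem signD (h1 : 2 < F) (h2 : F ≤ 33 / 16) (m0 : 0 ≤ m) (m1 : m ≤ 49 / 64) (hD : D = m - F)
    (ht : t ∈ JR D) (t0 : t ≠ 0) (z1 : sCap D F * vR D F t < 1) :
    0 < t * XD D F m (sKap D F) (sCap D F) t := by
  obtain ⟨s, θ, R, n, z, v, g, G, l, P⟩ :=
    exists_pt ht t0 (by linarith) (by linarith) m0 hD z1
  rcases t0.lt_or_gt with tn | tp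
  · rcases le_total t (-5) with h | h
    · exact P.tailD h1 h2 m1 h
    rcases le_total t (-1 / 2) with h' | h'
    · exact P.sg2 lz_eq rfl one_pos one_pos (one_mul _).symm (one_mul _).symm (one_mul _).symm
        (one_mul _).symm (S6dM.pos0 hD rfl rfl P.hs P.hθ P.hR P.hn P.hz P.hv rfl (P.gn tn) P.hl
          (congrArg (· ^ 2) P.hG) rfl rfl rfl rfl rfl rfl h1.le h2 m0 m1 h h')
    · refine sgD ht t0 ((S6dL.out0 (fun F m a b c d ↦ ?_) h1.le h2 m0 m1 (by linarith) (by linarith)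
        (neg_pos.2 tn)).trans_eq (S6dL.eq hD rfl rfl (neg_neg t).symm rfl))
      exact (bigD a d rfl).2.congr_left fun u ↦ (S6dL.eq rfl rfl rfl rfl rfl).symm
  · rcases le_total t (7 / 16) with h | h
    · refine sgD ht t0 ((S6dR.out0 (fun F m a b c d ↦ ?_) h1.le h2 m0 m1 tp.le h tp).trans_eq
        (S6dR.eq hD rfl rfl rfl))
      exact (bigD a d rfl).1.congr_left fun u ↦ (S6dR.eq rfl rfl rfl rfl).symm
    · obtain ⟨sg, a, N, p, mm, e1, e2, e3, e4, e5, g0, p0, p1, t1, e6, e7⟩ :=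
        P.sad tp (by linarith)
      exact P.sg2 lz_eq rfl (pow_pos g0 2) (pow_pos g0 2) (by rw [P.hl, P.hz, e6, e5]; ring)
        (by rw [e7]; ring) e6 e7
        (S6dS.pos0 P.hs e1 e2 e3 e4 e5 hD rfl rfl P.hθ P.hR rfl rfl (by rw [P.hz, e6]; ring) P.hv
          rfl (P.gp tp) rfl rfl rfl rfl rfl rfl rfl rfl h1.le h2 p0 p1 h t1 g0.le)

theorem maxD {x : ℝ} (m0 : 0 ≤ m) (m1 : m ≤ 49 / 64) (z0 : 0 < c * x) (z1 : c * x < 1) :
    HasDerivAt (fun x ↦ 8 + 2 * (c * x * (1 / 20 * (1 - c * x)⁻¹ + 3 * (1 + 2 * m - c * x)⁻¹)))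
      (2 * c * (1 / 20 * (1 - c * x)⁻¹ ^ 2 + 3 * (1 + 2 * m) * (1 + 2 * m - c * x)⁻¹ ^ 2)) x ∧
    0 < (oD m c).P x ∧ (oD m c).P x *
      ((8 + 2 * (c * x * (1 / 20 * (1 - c * x)⁻¹ + 3 * (1 + 2 * m - c * x)⁻¹))) ^ 2 + 2 * x *
        (2 * c * (1 / 20 * (1 - c * x)⁻¹ ^ 2 + 3 * (1 + 2 * m) * (1 + 2 * m - c * x)⁻¹ ^ 2))) +
      (oD m c).Q x * (8 + 2 * (c * x * (1 / 20 * (1 - c * x)⁻¹ + 3 * (1 + 2 * m - c * x)⁻¹))) +
      (oD m c).S x ≤ 0 := by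
  have y0 : 0 < 1 - c * x := by linarith
  have l0 : 0 < 1 + 2 * m - c * x := by linarith
  have d := (hasDerivAt_id' x).const_mul c
  refine ⟨(((d.mul ((((d.const_sub 1).inv y0.ne').const_mul (1 / 20)).add
    (((d.const_sub (1 + 2 * m)).inv l0.ne').const_mul 3))).const_mul 2).const_add 8).congr_deriv ?_,
    ?_, ?_⟩
  · simp only [Pi.add_apply, Pi.inv_apply]
    field_simp; ring
  · have p0 : 0 < (sPd m).1 := by simp only [sPd]; push_cast; positivity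
    have p1 : 0 < (sPd m).2.1 := by simp only [sPd]; push_cast; positivity
    have := mul_pos (mul_pos y0 l0) (add_pos p0 (mul_pos p1 z0))
    simp only [oD, o2, zo, Gp.P, lz_eq]
    linarith
  · have q := S6dW.pos0 (la := (1 - c * x) / (1 + 2 * m - c * x)) (l := 1 + 2 * m - c * x)
      (y := 1 - c * x) (m := m) (z := c * x) (by field_simp) (by ring) (by ring) rfl rfl rfl rfl rfl
      rfl rfl rfl rfl (by positivity) ((div_le_one l0).2 (by linarith)) l0.le (by linarith) z0.le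
      (by linarith)
    refine le_of_eq_of_le ?_ (neg_nonpos.2 (mul_pos (div_pos l0 y0) q).le)
    simp only [oD, o2, zo, Gp.P, Gp.Q, Gp.S, lz_eq]
    field_simp; ring

theorem famD (h1 : 2 < F) (h2 : F ≤ 33 / 16) (h3 : 0 ≤ D + F) (h4 : D + F ≤ 49 / 64) :
    NoThree D F := by
  refine CritG.noThree ⟨oD (D + F) (sCap D F), 1, fun x ↦ 8 + 2 * (sCap D F * x *
    (1 / 20 * (1 - sCap D F * x)⁻¹ + 3 * (1 + 2 * (D + F) - sCap D F * x)⁻¹)),
    fun x ↦ 2 * sCap D F * (1 / 20 * (1 - sCap D F * x)⁻¹ ^ 2 +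
      3 * (1 + 2 * (D + F)) * (1 + 2 * (D + F) - sCap D F * x)⁻¹ ^ 2), fun a ha b hb a0 b0 e ↦ ?_⟩
  obtain ⟨z0, z1, q⟩ := sep (σ := 1) (by linarith) (by linarith) lz_eq h3 (fun t ht t0 z1 ↦ by
    rw [one_mul]; exact signD h1 h2 h3 h4 (by ring) ht t0 z1) ha hb a0 b0 e
  obtain ⟨k1, k2, k3⟩ := maxD h3 h4 z0 z1
  exact ⟨k1, k2, k3, q⟩

end Pool.Agent.Lib.MP_d6150d_an.S6
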