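import Pool.Agent.Lib.MP_d6150d_an.Blue
import Pool.Agent.Lib.MP_d6150d_an.S6B
import Pool.Agent.Lib.MP_d6150d_an.S6C
import Pool.Agent.Lib.MP_d6150d_an.S6E
import Pool.Agent.Lib.MP_d6150d_an.S6G

/-! The strip around `F = 2`. -/

namespace Pool.Agent.Lib.MP_d6150d_an

theorem S6_holds : St_S6 := by
  rintro D F (⟨a, b, c⟩ | ⟨a, b, c, d⟩ | ⟨a, b, c, d⟩)
  · rw [abs_le] at c
    rcases le_total (D + F) 0 with k | k
    · exact S6E_holds D F a k (by linarith) (by linarith)
    rcases le_or_gt F 2 with k1 | k1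
    · exact S6.famC (by linarith) k1 k b
    rcases le_total (D + F) (49 / 64) with k2 | k2
    · exact S6.famD k1 (by linarith) k k2
    · exact S6C_holds D F (by linarith) (by linarith) k1 (by linarith)
  · exact S6C_holds D F (by linarith) b c d
  · exact S6B_holds D F a b c d

end Pool.Agent.Lib.MP_d6150d_an
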