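import Pool.Agent.Lib.MP_d6150d_an.S7A

/-! The strip `F` near `1`, `D ≤ -1 / 2`: the two tails. -/

namespace Pool.Agent.Lib.MP_d6150d_an.S7

open Real Set

variable {D F t : ℝ}

theorem exp_neg_le {x c : ℝ} (m : ℕ) (hx : (m : ℝ) / 16 ≤ x) (hc : (512 / 545 : ℝ) ^ m ≤ c) :
    exp (-x) ≤ c := by
  have h1 : (545 / 512 : ℝ) ≤ exp (1 / 16) :=
    le_trans (by norm_num) (quadratic_le_exp_of_nonneg (by norm_num))
  have h2 : exp (-(1 / 16)) ≤ 512 / 545 := by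
    rw [exp_neg, inv_le_comm₀ (exp_pos _) (by norm_num)]; exact le_trans (by norm_num) h1
  calc exp (-x) ≤ exp (m * -(1 / 16)) := exp_le_exp.2 (by linarith)
    _ = exp (-(1 / 16)) ^ m := exp_nat_mul _ _
    _ ≤ (512 / 545) ^ m := pow_le_pow_left₀ (exp_pos _).le h2 _
    _ ≤ c := hc

theorem ph1_le_one {x : ℝ} (hx : x ≤ 0) : ph1 x ≤ 1 := by
  rcases hx.eq_or_lt with rfl | hx
  · exact ph1_zero.le
  · have := exp_eq_ph x
    have := add_one_le_exp x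
    nlinarith

theorem ph1_le {x y : ℝ} (h : x ≤ y) (hy : 0 ≤ y) : ph1 x ≤ exp y := by
  rcases le_total x 0 with hx | hx
  · exact (ph1_le_one hx).trans (one_le_exp hy)
  · rw [ph1_neg]
    exact (mul_le_of_le_one_right (exp_pos _).le (ph1_le_one (by linarith))).trans (exp_le_exp.2 h)

theorem g_le (hF : 15 / 16 ≤ F) (h3 : 3 ≤ t) : exp (-t) * (t * ph1 ((2 - 2 * F) * t)) ≤ 7 / 32 := by
  have h1 := ph1_le (x := (2 - 2 * F) * t) (y := t / 8) (by nlinarith) (by linarith)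
  have h2 : exp (-(21 / 8)) ≤ 7 / 96 := exp_neg_le 42 (by norm_num) (by norm_num)
  have h4 := add_one_le_exp (7 / 8 * (t - 3))
  have h5 : exp (-t) * exp (t / 8) * exp (7 / 8 * (t - 3)) = exp (-(21 / 8)) := by
    rw [← exp_add, ← exp_add]; ring_nf
  have h6 : 0 < exp (-t) * exp (t / 8) := by positivity
  calc _ ≤ exp (-t) * (t * exp (t / 8)) := by gcongr
    _ = exp (-t) * exp (t / 8) * t := by ring
    _ ≤ exp (-t) * exp (t / 8) * (3 * exp (7 / 8 * (t - 3))) := by gcongr; linarith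
    _ ≤ _ := by linarith

theorem vE (hF : 1 / 2 < F) (t : ℝ) : vR D F t * exp ((2 - 2 * F) * t) =
    (1 + D) * (exp t ^ 2 - exp ((2 - 2 * F) * t)) * F⁻¹ -
      2 * (1 + 2 * D) * (exp t - exp ((2 - 2 * F) * t)) * (2 * F - 1)⁻¹ +
      2 * D * (t * ph1 ((2 - 2 * F) * t)) := by
  have h1 : exp (2 * F * t) * exp ((2 - 2 * F) * t) = exp t ^ 2 := by
    rw [sq, ← exp_add, ← exp_add]; ring_nf
  have h2 : exp ((2 * F - 1) * t) * exp ((2 - 2 * F) * t) = exp t := by rw [← exp_add]; ring_nf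
  have h3 {c : ℝ} (hc : 0 < c) : t * ph1 (c * t) = (exp (c * t) - 1) / c := by
    rw [exp_eq_ph]; field_simp; ring
  rw [vR_eq, h3 (c := 2 * F) (by linarith), h3 (c := 2 * F - 1) (by linarith),
    ph1_neg ((2 - 2 * F) * t), show -((2 - 2 * F) * t) = (2 * F - 2) * t by ring]
  linear_combination (1 + D) * F⁻¹ * h1 - 2 * (1 + 2 * D) * (2 * F - 1)⁻¹ * h2

theorem vT (hF : 1 / 2 < F) {r g z : ℝ} (hr : r = exp (-t))
    (hg : g = r * (t * ph1 ((2 - 2 * F) * t))) (hz : z = r - (2 * F - 2) * g) :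
    z = r * exp ((2 - 2 * F) * t) ∧ vR D F t * (r * z) = (1 + D) * (1 - r * z) * F⁻¹ -
      2 * (1 + 2 * D) * (r - r * z) * (2 * F - 1)⁻¹ + 2 * D * (r * g) := by
  have h1 : r * exp t = 1 := by rw [hr, ← exp_add]; simp
  have h2 : z = r * exp ((2 - 2 * F) * t) := by rw [hz, hg, exp_eq_ph]; ring
  refine ⟨h2, ?_⟩
  rw [h2, hg]
  linear_combination r ^ 2 * vE (D := D) hF t + ((1 + D) * (1 + r * exp t) * F⁻¹ -
    2 * (1 + 2 * D) * r * (2 * F - 1)⁻¹) * h1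

theorem lev (hF1 : 1 ≤ F) (hF2 : F ≤ 107 / 100) (hD1 : D < -1) (hD2 : -1 - (F - 1) ^ 2 / 2 ≤ D)
    {a : ℝ} (ha : a < 0) (ht : t ∈ JR D) (h3 : 3 ≤ t) (e : vR D F a = vR D F t) :
    19 * -(1 + D) ≤ 3 * exp (-t) := by
  have hd : -(1 + D) ≤ 7 / 200 * (F - 1) := by nlinarith
  have hv : (F - 1) * vR D F a ≤ 101 / 100 := by
    have n (c : ℝ) : a * ph1 (c * a) ≤ 0 := (mul_neg_of_neg_of_pos ha (ph1_pos _)).le
    have m (c : ℝ) : -1 ≤ c * (a * ph1 (c * a)) := by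
      have := exp_eq_ph (c * a)
      have := exp_pos (c * a)
      linarith
    have h1 : -1 ≤ 2 * (a * ph1 (2 * F * a)) := by nlinarith [n (2 * F), m (2 * F)]
    have h2 := mul_nonneg (sub_nonneg.2 hF1) (mul_nonneg_of_nonpos_of_nonpos
      (show 1 + 2 * D ≤ 0 by linarith) (n (2 * F - 1)))
    have h4 := mul_le_mul_of_nonneg_left (m (2 * F - 2)) (show 0 ≤ -D by linarith)
    have h5 := mul_le_mul_of_nonneg_left h1
      (mul_nonneg (sub_nonneg.2 hF1) (show 0 ≤ -(1 + D) by linarith))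
    have h6 : (F - 1) * -(1 + D) ≤ 7 / 100 * (1 / 100) := by
      gcongr <;> linarith
    rw [vR_eq]
    linarith
  by_contra! hc
  obtain ⟨r, hr⟩ : ∃ r, r = exp (-t) := ⟨_, rfl⟩
  obtain ⟨g, hg⟩ : ∃ g, g = r * (t * ph1 ((2 - 2 * F) * t)) := ⟨_, rfl⟩
  obtain ⟨z, hz⟩ : ∃ z, z = r - (2 * F - 2) * g := ⟨_, rfl⟩
  obtain ⟨h1, h2⟩ := vT (D := D) (by linarith) hr hg hz
  have r0 : 0 < r := hr ▸ exp_pos _
  have g0 : 0 ≤ g := by have := ph1_pos ((2 - 2 * F) * t); rw [hg]; positivity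
  have g1 : g ≤ 7 / 32 := by rw [hg, hr]; exact g_le (by linarith) h3
  have z0 : 0 < z := by rw [h1]; positivity
  have z1 : z ≤ r := by nlinarith
  have hJ := memJ_iff.1 ht
  rw [← hr] at hJ hc
  have r1 : r ≤ (F - 1) / 4 := by linarith
  have v0 := (vR_pos (F := F) ht (by linarith)).le
  have i1 : F⁻¹ ≤ 1 := inv_le_one_of_one_le₀ hF1
  have i0 : 0 ≤ F⁻¹ := by positivity
  have j1 : 7 / 8 ≤ (2 * F - 1)⁻¹ := by
    rw [le_inv_comm₀ (by norm_num) (by linarith)]; linarith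
  have rz : r * z ≤ 1 * 1 := by gcongr <;> linarith
  have t1 : -(1 + D) * (1 - r * z) * F⁻¹ ≤ -(1 + D) * 1 * 1 := by
    gcongr <;> nlinarith
  have t2 : 1 * (r * (49 / 50)) * (7 / 8) ≤ -(1 + 2 * D) * (r * (1 - z)) * (2 * F - 1)⁻¹ := by
    gcongr <;> nlinarith
  have t3 : -D * (r * g) ≤ 101 / 100 * (r * (7 / 32)) := by gcongr; linarith
  have t4 : -D * r ≤ 101 / 100 * r := by gcongr; linarith
  have t5 : vR D F t * (r * z) ≤ vR D F t * (r * ((F - 1) / 4)) := by gcongr; linarith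
  have t6 := mul_le_mul_of_nonneg_left hv r0.le
  rw [e] at t6
  linarith

namespace Co

variable {k : Co}

theorem X_eq {a v : ℝ} (ha : a ≠ 0) (h : 1 + k.c * v ≠ 0) :
    (a + k.c * (v * a)) ^ 3 * k.X v = a * k.N a (v * a) := by
  rw [X, N]; field_simp

theorem coreM (hF : 1 / 2 < F) (hb : F * k.b = k.q2 + k.r2) (hc : 0 ≤ k.c) (ht : t ∈ JR D)
    (h8 : t ≤ -8) (H : ∀ x g i a W Y : ℝ, 0 ≤ x → x ≤ 1 / 2048 → 0 ≤ g → g ≤ 1 →
      i = g * (8 * ph1 ((2 * F - 2) * 8))⁻¹ → a = i + (2 * F - 2) → 0 ≤ a →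
      W = (x - 1) * ((1 + D) * x - D) →
      Y = (1 + D) * (i * x ^ 2 - a) * F⁻¹ / 2 - (1 + 2 * D) * (i * x - a) * (2 * F - 1)⁻¹ - D →
      0 < k.B F ((1 + D) * x ^ 2) ((1 + 2 * D) * x) D Y W a (2 * Y) i -
        i ^ 3 * W ^ 5 * (2 * Y) * k.b ∧ 0 < k.N a (2 * Y)) : k.De D F t < 0 := by
  have h0 : t < 0 := by linarith
  have p0 := ph1_pos ((2 * F - 2) * 8)
  obtain ⟨ζ, hζ⟩ : ∃ ζ, ζ = -(t * ph1 ((2 - 2 * F) * t)) := ⟨_, rfl⟩
  have m1 := monotone_of_hasDerivAt_nonneg (hasDerivAt_ph1 (2 - 2 * F))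
    (fun _ ↦ (exp_pos _).le) h8
  simp only [show (2 - 2 * F) * -8 = (2 * F - 2) * 8 by ring] at m1
  have z1 : 8 * ph1 ((2 * F - 2) * 8) ≤ ζ := by linarith
  have z0 : 0 < ζ := by linarith
  have he : ζ⁻¹ + (2 * F - 2) = ζ⁻¹ * exp ((2 - 2 * F) * t) := by
    rw [exp_eq_ph]; field_simp; rw [hζ]; ring_nf
  have a0 : 0 < ζ⁻¹ * exp ((2 - 2 * F) * t) := by positivity
  have hW : exp t - 1 < 0 := sub_neg.2 (exp_lt_one_iff.2 h0)
  have w0 : wR D t ^ 5 < 0 :=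
    Odd.pow_neg (by decide) (wR_eq D t ▸ mul_neg_of_neg_of_pos hW ht)
  obtain ⟨H0, H1⟩ := H (exp t) (8 * ph1 ((2 * F - 2) * 8) / ζ) ζ⁻¹ _ (wR D t) (ζ⁻¹ * yR D F t)
    (exp_pos _).le (by simpa using exp_neg_le (x := -t) 128 (by push_cast; linarith) (by norm_num))
    (by positivity) ((div_le_one z0).2 z1)
    (by rw [div_mul_eq_mul_div, mul_inv_cancel₀ (by positivity), one_div]) he.symm a0.le (wR_eq D t) (by
      have : ζ⁻¹ * ζ = 1 := inv_mul_cancel₀ z0.ne'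
      rw [yR]
      linear_combination ζ⁻¹ / 2 * vE (D := D) hF t + D * ζ⁻¹ * hζ - D * this)
  have hM : 2 * (ζ⁻¹ * yR D F t) = vR D F t * (ζ⁻¹ * exp ((2 - 2 * F) * t)) := by rw [yR]; ring
  rw [hM] at H0 H1
  generalize ζ⁻¹ * exp ((2 - 2 * F) * t) = a at H0 H1 a0
  have v0 := vR_pos (F := F) ht h0.ne
  have x0 : 0 < k.X (vR D F t) := by
    refine (mul_pos_iff_of_pos_left (a := (a + k.c * (vR D F t * a)) ^ 3) (by positivity)).1 ?_
    rw [X_eq a0.ne' (den hc ht).ne']; positivity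
  have b0 : 0 < k.B F (PR D t) (QR D t) D (yR D F t) (wR D t) 1 (vR D F t) 1 -
      wR D t ^ 5 * vR D F t * k.b := by
    refine (mul_pos_iff_of_pos_left (a := ζ⁻¹ ^ 3 * a) (by positivity)).1 (H0.trans_eq ?_)
    simp only [B, PR, QR]; ring
  refine neg_of_mul_pos_right ?_ w0.le
  rw [hom (by linarith) hb ht h0.ne (l := 1) one_ne_zero (one_mul _).symm (one_mul _).symm
    (one_mul _).symm (Y := yR D F t) (by ring) (W := wR D t) rfl]
  have := mul_pos (mul_pos (neg_pos.2 w0) v0) (mul_pos (exp_pos (-(F * t))) x0)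
  exact mul_pos (by positivity) (by linarith)

theorem idT (hF : F ≠ 0) (hb : F * k.b = k.q2 + k.r2) {s ρ a W G N Z A B T U V : ℝ}
    (hZ : Z = W + s * N) (hA : A = Z * (Z * G)) (hB : B = F * W * N) (hT : T = A - Z * B)
    (hU : U = (T - Z * B) * (2 * Z * (s * G) - F * W * (s * N + Z)) +
      Z ^ 3 * (G * (s * G - W) - 2 * ρ * W) + F * W * Z * T)
    (hV : V = 3 * A * (Z * G) - (5 * F + 1) * A * (N * W) +
      (3 * F * Z - (1 - F) * W) * (B * (N * W))) :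
    F ^ 3 * (k.B F (W + s * (ρ - G)) (s * (2 * ρ - G)) (s * ρ) (Z * F⁻¹ / 2) W a (Z * F⁻¹) 1 -
      W ^ 5 * (Z * F⁻¹) * k.b) = s * (Z * F⁻¹ * (k.q2 * (s * V - 2 * Z ^ 3 * ρ * W) +
        (F * (2 * k.q2 + k.r2) - k.q2) * W ^ 2 * (A - s * N * B)) +
          a * (k.q1 * U + (k.q1 + k.r1) * F * W ^ 2 * T)) := by
  have h2 : k.r2 = F * k.b - k.q2 := by linarith
  simp only [Co.B, pjR, h2]
  subst hV hU hT hA hB hZ
  field_simp
  ring

theorem coreT (hF : 15 / 16 ≤ F) (hb : F * k.b = k.q2 + k.r2) (hc : 0 ≤ k.c) (ht : t ∈ JR D)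
    (h3 : 3 ≤ t) {r n s P : ℝ} (hr : r = exp (-t)) (hn : 0 < n) (hs : r = n * s)
    (hP : n * P = 1 + D) (H : ∀ g z a W G N Z M A B T U V : ℝ, 0 ≤ g → g ≤ 7 / 32 →
      z = r - (2 * F - 2) * g → z = r * exp ((2 - 2 * F) * t) → a = s * z →
      W = (1 - r) * (P - D * s) → G = 2 * D * r - (1 + 2 * D) →
      N = 2 * F * D * g - D * r - (1 + 2 * D) * (1 - 2 * F * z) * (2 * F - 1)⁻¹ - P * n * z →
      Z = W + s * N → M = Z * F⁻¹ → A = Z * (Z * G) → B = F * W * N → T = A - Z * B →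
      U = (T - Z * B) * (2 * Z * (s * G) - F * W * (s * N + Z)) +
        Z ^ 3 * (G * (s * G - W) - 2 * D * r * W) + F * W * Z * T →
      V = 3 * A * (Z * G) - (5 * F + 1) * A * (N * W) + (3 * F * Z - (1 - F) * W) * (B * (N * W)) →
      ∃ w η h u L : ℝ, 0 < w ∧ M * (k.q2 * (s * V - 2 * Z ^ 3 * (D * r) * W) +
        (F * (2 * k.q2 + k.r2) - k.q2) * W ^ 2 * (A - s * N * B)) +
          a * (k.q1 * U + (k.q1 + k.r1) * F * W ^ 2 * T) = w * L ∧
        exp (-(F * t)) * z = w * (η * u) ∧ 0 ≤ η ∧ η ≤ h ∧ 0 < L ∧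
        0 < (a + k.c * M) ^ 3 * L - F ^ 3 * W ^ 5 * M * (h * u) * k.N a M) : 0 < k.De D F t := by
  have h0 : 0 < t := by linarith
  have F0 : 0 < F := by linarith
  have r0 : 0 < r := hr ▸ exp_pos _
  have s0 : 0 < s := (mul_pos_iff_of_pos_left hn).1 (hs ▸ r0)
  have h1 : r * exp t = 1 := by rw [hr, ← exp_add]; simp
  obtain ⟨g, hg⟩ : ∃ g, g = r * (t * ph1 ((2 - 2 * F) * t)) := ⟨_, rfl⟩
  obtain ⟨z, hz⟩ : ∃ z, z = r - (2 * F - 2) * g := ⟨_, rfl⟩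
  obtain ⟨z1, z2⟩ := vT (D := D) (by linarith) hr hg hz
  have z0 : 0 < z := by rw [z1]; positivity
  have v0 := vR_pos (F := F) ht h0.ne'
  obtain ⟨W, hW⟩ : ∃ W, W = (1 - r) * (P - D * s) := ⟨_, rfl⟩
  obtain ⟨N, hN⟩ : ∃ N, N = 2 * F * D * g - D * r -
    (1 + 2 * D) * (1 - 2 * F * z) * (2 * F - 1)⁻¹ - P * n * z := ⟨_, rfl⟩
  have W0 : 0 < W := by
    have hJ := memJ_iff.1 ht
    have : r < 1 := hr ▸ exp_lt_one_iff.2 (by linarith)
    rw [hW]
    refine mul_pos (by linarith) ((mul_pos_iff_of_pos_left hn).1 ?_)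
    rw [← hr] at hJ
    linear_combination hJ - hP - D * hs
  have hM : (W + s * N) * F⁻¹ = vR D F t * (s * z) := by
    have j1 : 2 * F - 1 ≠ 0 := by linarith
    apply mul_left_cancel₀ hn.ne'
    rw [show n * (vR D F t * (s * z)) = vR D F t * (r * z) by rw [hs]; ring, z2, hW, hN, hs,
      show D = n * P - 1 by linarith]
    field_simp
    ring
  obtain ⟨w, η, h, u, L, w0, e1, e2, η0, η1, L0, L1⟩ := H g z _ W _ N _ _ _ _ _ _ _
    (by have := ph1_pos ((2 - 2 * F) * t); rw [hg]; positivity)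
    (by rw [hg, hr]; exact g_le hF h3) hz z1 rfl hW rfl hN rfl rfl rfl rfl rfl rfl rfl
  have e3 := idT F0.ne' hb (s := s) (ρ := D * r) (a := s * z) (W := W)
    (G := 2 * D * r - (1 + 2 * D)) (N := N) rfl rfl rfl rfl rfl rfl
  rw [show 2 * (D * r) * W = 2 * D * r * W by ring, e1] at e3
  rw [hM] at e3 L1
  have hA : r * P = s * (1 + D) := by linear_combination P * hs + s * hP
  refine (mul_pos_iff_of_pos_left (pow_pos W0 5)).1 ?_
  rw [hom F0.ne' hb ht h0.ne' (l := r * s) one_ne_zero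
    (P := W + s * (D * r - (2 * D * r - (1 + 2 * D))))
    (Q := s * (2 * (D * r) - (2 * D * r - (1 + 2 * D)))) (R := s * (D * r))
    (Y := vR D F t * (s * z) / 2)
    (by rw [PR]; linear_combination hW + (r * exp t ^ 2 - 1) * hA - P * (1 + r * exp t) * h1)
    (by rw [QR]; linear_combination -s * (1 + 2 * D) * h1) (by ring)
    (by rw [yR]; linear_combination vR D F t * s / 2 * z1) (by
      rw [wR_eq, om]
      linear_combination hW - (P - D * s + (r * exp t - r) * P) * h1 +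
        r * (exp t - 1) * exp t * hA)]
  have a0 : 0 < s * z := by positivity
  have e4 := X_eq a0.ne' (den (F := F) hc ht).ne'
  have c0 : 0 < (s * z + k.c * (vR D F t * (s * z))) ^ 3 := by positivity
  have L2 : 0 < (s * z + k.c * (vR D F t * (s * z))) ^ 3 * L -
      η * (F ^ 3 * W ^ 5 * (vR D F t * (s * z)) * u * k.N (s * z) (vR D F t * (s * z))) := by
    have := mul_pos c0 L0
    rcases le_total (F ^ 3 * W ^ 5 * (vR D F t * (s * z)) * u *
      k.N (s * z) (vR D F t * (s * z))) 0 with h | h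
    · linarith [mul_nonpos_of_nonneg_of_nonpos η0 h]
    · linarith [mul_le_mul_of_nonneg_right η1 h]
  refine mul_pos (by positivity) ((mul_pos_iff_of_pos_left
    (mul_pos c0 (mul_pos (pow_pos F0 3) a0))).1 ((mul_pos (mul_pos s0 w0) L2).trans_eq ?_))
  simp only [B] at e3 ⊢
  generalize pjR _ _ _ _ = q at e3 ⊢
  linear_combination -(s * z + k.c * (vR D F t * (s * z))) ^ 3 * e3 +
    F ^ 3 * W ^ 5 * (vR D F t * (s * z)) * (exp (-(F * t)) * e4 +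
      s * k.N (s * z) (vR D F t * (s * z)) * e2)

end Co

end Pool.Agent.Lib.MP_d6150d_an.S7
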