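import Pool.Agent.Lib.MP_d6150d_an.S7bLD

/-! A generated chart: the computations. -/

namespace Pool.Agent.Lib.MP_d6150d_an.S7bL

theorem k0 : chk C 0x88880108888010888888801001022 [(-118747255799808, -70368744177664),
    (131941395333120, 150633093005312), (0, 70368744177664)] = true := by
  decide +kernel

theorem k1 : chk C 0x8818288881010 [(-118747255799808, -70368744177664), (131941395333120,
    150633093005312), (70368744177664, 140737488355328)] = true := by
  decide +kernel

theorem k2 : chk C 0x881808828028808802188802880880210 [(-118747255799808, -70368744177664),
    (131941395333120, 150633093005312), (140737488355328, 281474976710656)] = true := by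
  decide +kernel

end Pool.Agent.Lib.MP_d6150d_an.S7bL
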