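import Pool.Agent.Lib.MP_d6150d_an.S7bLD

/-! A generated chart: the computations. -/

namespace Pool.Agent.Lib.MP_d6150d_an.S7bL

theorem k3 : chk C 0x88802882088088028880201 [(-118747255799808, -70368744177664), (131941395333120,
    150633093005312), (281474976710656, 562949953421312)] = true := by
  decide +kernel

theorem k4 : chk C 0x880880188088010880880188102 [(-118747255799808, -70368744177664),
    (131941395333120, 141287244169216), (562949953421312, 1125899906842624)] = true := by
  decide +kernel

theorem k5 : chk C 0x88801881088188102 [(-118747255799808, -70368744177664), (141287244169216,
    150633093005312), (562949953421312, 1125899906842624)] = true := by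
  decide +kernel

end Pool.Agent.Lib.MP_d6150d_an.S7bL
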