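import Pool.Agent.Lib.MP_d6150d_an.GMac
import Pool.Agent.Lib.MP_d6150d_an.S7bLK0
import Pool.Agent.Lib.MP_d6150d_an.S7bLK1

/-! A generated chart: the inequality. -/

namespace Pool.Agent.Lib.MP_d6150d_an.S7bL

set_option linter.unnecessarySeqFocus false
set_option linter.unusedTactic false
set_option linter.unusedVariables false

theorem gd : Gd C [(-118747255799808, -70368744177664), (131941395333120, 150633093005312), (0,
    1125899906842624)] := .split 2 (.split 2 (.split 2 (.split 2 (chk_sound k0) (chk_sound k1))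
    (chk_sound k2)) (chk_sound k3)) (.split 1 (chk_sound k4) (chk_sound k5))

set_option maxRecDepth 100000 in
theorem eq {D F s iF r1 r2 b n0 n1 n2 t x mu v y P Q p W e Y k3 k2 k1 B X : ℝ} (hiF : iF = F⁻¹) (hr1
    : r1 = -4027 / 500 + 9 / 5 * D) (hr2 : r2 = iF - 2) (hb : b = (1 + r2) * iF) (hn0 : n0 = (927 /
    200 + r1) * (1 - F - 2 * D) / 3 - b) (hn1 : n1 = -4443 / 10000 - 2973 / 10000 * D + 366 / 625 *
    F) (hn2 : n2 = -67 / 5000 - 677 / 5000 * D - 531 / 10000 * F) (ht : t = -s) (hx : x = Real.exp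
    t) (hmu : mu = muR D F t) (hv : v = t ^ 2 * mu) (hy : y = Real.exp (-(F * t))) (hP : P = (1 + D)
    * x ^ 2) (hQ : Q = (1 + 2 * D) * x) (hp : p = ph1 t) (hW : W = p * ((1 + D) * x - D)) (he : e =
    Real.exp ((2 - 2 * F) * t)) (hY : Y = mu * e / 2) (hk3 : k3 = 309 / 25 + 8 * v) (hk2 : k2 = 927
    / 25 + 4 * r1 + (28 + 4 * r2) * v) (hk1 : k1 = 927 / 100 + 2 * r1 + (10 + 4 * r2) * v) (hB : B =
    k3 * (Y ^ 3 * (pjR F P Q D).2.1) + k2 * (Y ^ 2 * (pjR F P Q D).1 * W ^ 2) + k1 * (Y * W ^ 4))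
    (hX : X = (n0 + n1 * v + n2 * v ^ 2) * (1 + 1 / 5 * v)⁻¹ ^ 3) : outR prog 0 [D, F, s] = B - W ^
    5 * (t * mu) * (b + y * X) := by
  replace hiF : iF = F⁻¹ := hiF.trans (by push_cast <;> ring)
  replace hr1 : r1 = (((Int.cast (-4027) : ℝ) / (Nat.cast 500 : ℝ)) + (((Int.cast (9) : ℝ) /
    (Nat.cast 5 : ℝ)) * D)) := hr1.trans (by push_cast <;> ring)
  replace hr2 : r2 = (iF - (Int.cast (2) : ℝ)) := hr2.trans (by push_cast <;> ring)
  replace hb : b = (((Int.cast (1) : ℝ) + r2) * iF) := hb.trans (by push_cast <;> ring)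
  replace hn0 : n0 = ((((Int.cast (1) : ℝ) / (Nat.cast 3 : ℝ)) * ((((Int.cast (927) : ℝ) / (Nat.cast
    200 : ℝ)) + r1) * (((Int.cast (1) : ℝ) - F) - ((Int.cast (2) : ℝ) * D)))) - b) := hn0.trans (by
    push_cast <;> ring)
  replace hn1 : n1 = ((((Int.cast (-4443) : ℝ) / (Nat.cast 10000 : ℝ)) - (((Int.cast (2973) : ℝ) /
    (Nat.cast 10000 : ℝ)) * D)) + (((Int.cast (366) : ℝ) / (Nat.cast 625 : ℝ)) * F)) := hn1.trans
    (by push_cast <;> ring)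
  replace hn2 : n2 = ((((Int.cast (-67) : ℝ) / (Nat.cast 5000 : ℝ)) - (((Int.cast (677) : ℝ) /
    (Nat.cast 5000 : ℝ)) * D)) - (((Int.cast (531) : ℝ) / (Nat.cast 10000 : ℝ)) * F)) := hn2.trans
    (by push_cast <;> ring)
  replace ht : t = ((Int.cast (-1) : ℝ) * s) := ht.trans (by push_cast <;> ring)
  replace hmu : mu = (mMu D F t) := hmu.trans (mMu_0 ..)
  replace hv : v = ((t * t) * mu) := hv.trans (by push_cast <;> ring)
  replace hy : y = (Real.exp ((Int.cast (-1) : ℝ) * (F * t))) := hy.trans (congrArg Real.exp (by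
    push_cast <;> ring))
  replace hP : P = (((Int.cast (1) : ℝ) + D) * (x * x)) := hP.trans (by push_cast <;> ring)
  replace hQ : Q = (((Int.cast (1) : ℝ) + ((Int.cast (2) : ℝ) * D)) * x) := hQ.trans (by push_cast
    <;> ring)
  replace hW : W = (p * ((((Int.cast (1) : ℝ) + D) * x) - D)) := hW.trans (by push_cast <;> ring)
  replace he : e = (Real.exp (((Int.cast (2) : ℝ) - ((Int.cast (2) : ℝ) * F)) * t)) := he.trans
    (congrArg Real.exp (by push_cast <;> ring))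
  replace hY : Y = (((Int.cast (1) : ℝ) / (Nat.cast 2 : ℝ)) * (mu * e)) := hY.trans (by push_cast
    <;> ring)
  replace hk3 : k3 = (((Int.cast (309) : ℝ) / (Nat.cast 25 : ℝ)) + ((Int.cast (8) : ℝ) * v)) :=
    hk3.trans (by push_cast <;> ring)
  replace hk2 : k2 = ((((Int.cast (927) : ℝ) / (Nat.cast 25 : ℝ)) + ((Int.cast (4) : ℝ) * r1)) +
    (((Int.cast (28) : ℝ) + ((Int.cast (4) : ℝ) * r2)) * v)) := hk2.trans (by push_cast <;> ring)
  replace hk1 : k1 = ((((Int.cast (927) : ℝ) / (Nat.cast 100 : ℝ)) + ((Int.cast (2) : ℝ) * r1)) +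
    (((Int.cast (10) : ℝ) + ((Int.cast (4) : ℝ) * r2)) * v)) := hk1.trans (by push_cast <;> ring)
  replace hB : B = (mK3 F P Q D Y W k3 k2 k1) := hB.trans (mK3_0 ..)
  replace hX : X = (((n0 + (n1 * v)) + (n2 * (v * v))) * ((((Int.cast (1) : ℝ) + (((Int.cast (1) :
    ℝ) / (Nat.cast 5 : ℝ)) * v))⁻¹ * ((Int.cast (1) : ℝ) + (((Int.cast (1) : ℝ) / (Nat.cast 5 : ℝ))
    * v))⁻¹) * ((Int.cast (1) : ℝ) + (((Int.cast (1) : ℝ) / (Nat.cast 5 : ℝ)) * v))⁻¹)) := hX.trans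
    (by push_cast <;> ring)
  have e0 : (B - (((((W * W) * (W * W)) * W) * (t * mu)) * (b + (y * X)))) = B - W ^ 5 * (t * mu) *
    (b + y * X) := by push_cast <;> ring
  subst hiF hr1 hr2 hb hn0 hn1 hn2 ht hx hmu hv hy hP hQ hp hW he hY hk3 hk2 hk1 hB hX
  exact Eq.trans rfl e0

theorem l0 : ((-118747255799808 : ℤ) : ℝ) / 2 ^ 47 = -27 / 32 := by norm_num
theorem u0 : (-1 / 2 : ℝ) = ((-70368744177664 : ℤ) : ℝ) / 2 ^ 47 := by norm_num
theorem l1 : ((131941395333120 : ℤ) : ℝ) / 2 ^ 47 = 15 / 16 := by norm_num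
theorem u1 : (137 / 128 : ℝ) = ((150633093005312 : ℤ) : ℝ) / 2 ^ 47 := by norm_num
theorem l2 : ((0 : ℤ) : ℝ) / 2 ^ 47 = 0 := by norm_num
theorem u2 : (8 : ℝ) = ((1125899906842624 : ℤ) : ℝ) / 2 ^ 47 := by norm_num

theorem out0 (V2 : ∀ D F : ℝ, -27 / 32 ≤ D → D ≤ -1 / 2 → 15 / 16 ≤ F → F ≤ 137 / 128 → (fun s ↦
    outR prog 0 [D, F, s]) =O[nhdsWithin 0 (Set.Ioi 0)] fun s : ℝ ↦ s ^ 2) {D F s : ℝ} (a0 : -27 /
    32 ≤ D) (b0 : D ≤ -1 / 2) (a1 : 15 / 16 ≤ F) (b1 : F ≤ 137 / 128) (a2 : 0 ≤ s) (b2 : s ≤ 8) (p2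
    : 0 < s) : 0 < outR prog 0 [D, F, s] :=
  gd 0 (by decide) [D, F, s] (.cons ⟨l0.le.trans a0, b0.trans u0.le⟩ (.cons ⟨l1.le.trans a1,
    b1.trans u1.le⟩ (.cons ⟨l2.le.trans a2, b2.trans u2.le⟩ (.nil)))) ⟨nofun, nofun, fun _ ↦ p2,
    trivial⟩ (List.forall_mem_nil _) (⟨fun _ ↦ allB_iff.2 fun _ _ ↦ trivial, fun y0 a0 b0 ↦ ⟨fun _ ↦
    allB_iff.2 fun _ _ ↦ trivial, fun y1 a1 b1 ↦ ⟨fun _ ↦ V2 y0 y1 (l0.ge.trans a0) (b0.trans u0.ge)
    (l1.ge.trans a1) (b1.trans u1.ge), fun _ _ _ ↦ trivial⟩⟩⟩) (nofun)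

end Pool.Agent.Lib.MP_d6150d_an.S7bL
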