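import Pool.Agent.Lib.MP_d6150d_an.S7bMD

/-! A generated chart: the computations. -/

namespace Pool.Agent.Lib.MP_d6150d_an.S7bM

theorem k0 : chk C 0x88d32 [(0, 68719476736), (-118747255799808, -94557999988736), (131941395333120,
    150633093005312), (0, 140737488355328)] = true := by
  decide +kernel

theorem k1 : chk C 0x88288d81328d2dd3d2d13d1d1da2a3d1232 [(0, 68719476736), (-94557999988736,
    -70368744177664), (131941395333120, 150633093005312), (0, 140737488355328)] = true := by
  decide +kernel

end Pool.Agent.Lib.MP_d6150d_an.S7bM
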