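import Pool.Agent.Lib.MP_d6150d_an.GMac
import Pool.Agent.Lib.MP_d6150d_an.S7bMK0

/-! A generated chart: the inequality. -/

namespace Pool.Agent.Lib.MP_d6150d_an.S7bM

set_option linter.unnecessarySeqFocus false
set_option linter.unusedTactic false
set_option linter.unusedVariables false

theorem gd : Gd C [(0, 68719476736), (-118747255799808, -70368744177664), (131941395333120,
    150633093005312), (0, 140737488355328)] := .split 1 (chk_sound k0) (chk_sound k1)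

set_option maxRecDepth 100000 in
theorem eq {x D F g p i a iF r1 r2 b n0 n1 n2 jF P Q W Y M k3 k2 k1 B : ℝ} (hp : p = ph1 ((2 * F -
    2) * 8)) (hi : i = g * (8 * p)⁻¹) (ha : a = i + (2 * F - 2)) (hiF : iF = F⁻¹) (hr1 : r1 = -4027
    / 500 + 9 / 5 * D) (hr2 : r2 = iF - 2) (hb : b = (1 + r2) * iF) (hn0 : n0 = (927 / 200 + r1) *
    (1 - F - 2 * D) / 3 - b) (hn1 : n1 = -4443 / 10000 - 2973 / 10000 * D + 366 / 625 * F) (hn2 : n2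
    = -67 / 5000 - 677 / 5000 * D - 531 / 10000 * F) (hjF : jF = (2 * F - 1)⁻¹) (hP : P = (1 + D) *
    x ^ 2) (hQ : Q = (1 + 2 * D) * x) (hW : W = (x - 1) * ((1 + D) * x - D)) (hY : Y = (1 + D) * (i
    * x ^ 2 - a) * iF / 2 - (1 + 2 * D) * (i * x - a) * jF - D) (hM : M = 2 * Y) (hk3 : k3 = 309 /
    25 * a + 8 * M) (hk2 : k2 = i * ((927 / 25 + 4 * r1) * a + (28 + 4 * r2) * M)) (hk1 : k1 = i * i
    * ((927 / 100 + 2 * r1) * a + (10 + 4 * r2) * M)) (hB : B = k3 * (Y ^ 3 * (pjR F P Q D).2.1) +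
    k2 * (Y ^ 2 * (pjR F P Q D).1 * W ^ 2) + k1 * (Y * W ^ 4)) : outR prog 0 [x, D, F, g] = B - i ^
    3 * W ^ 5 * M * b ∧ outR prog 1 [x, D, F, g] = n0 * a ^ 2 + n1 * a * M + n2 * M ^ 2 ∧ outR
    (prog.take 12) 0 [x, D, F, g] = a := by
  replace hp : p = (ph1 ((Int.cast (8) : ℝ) * (((Int.cast (2) : ℝ) * F) - (Int.cast (2) : ℝ)))) :=
    hp.trans (congrArg ph1 (by push_cast <;> ring))
  replace hi : i = (g * ((Int.cast (8) : ℝ) * p)⁻¹) := hi.trans (by push_cast <;> ring)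
  replace ha : a = (i + (((Int.cast (2) : ℝ) * F) - (Int.cast (2) : ℝ))) := ha.trans (by push_cast
    <;> ring)
  replace hiF : iF = F⁻¹ := hiF.trans (by push_cast <;> ring)
  replace hr1 : r1 = (((Int.cast (-4027) : ℝ) / (Nat.cast 500 : ℝ)) + (((Int.cast (9) : ℝ) /
    (Nat.cast 5 : ℝ)) * D)) := hr1.trans (by push_cast <;> ring)
  replace hr2 : r2 = (iF - (Int.cast (2) : ℝ)) := hr2.trans (by push_cast <;> ring)
  replace hb : b = (((Int.cast (1) : ℝ) + r2) * iF) := hb.trans (by push_cast <;> ring)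
  replace hn0 : n0 = ((((Int.cast (1) : ℝ) / (Nat.cast 3 : ℝ)) * ((((Int.cast (927) : ℝ) / (Nat.cast
    200 : ℝ)) + r1) * (((Int.cast (1) : ℝ) - F) - ((Int.cast (2) : ℝ) * D)))) - b) := hn0.trans (by
    push_cast <;> ring)
  replace hn1 : n1 = ((((Int.cast (-4443) : ℝ) / (Nat.cast 10000 : ℝ)) - (((Int.cast (2973) : ℝ) /
    (Nat.cast 10000 : ℝ)) * D)) + (((Int.cast (366) : ℝ) / (Nat.cast 625 : ℝ)) * F)) := hn1.trans
    (by push_cast <;> ring)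
  replace hn2 : n2 = ((((Int.cast (-67) : ℝ) / (Nat.cast 5000 : ℝ)) - (((Int.cast (677) : ℝ) /
    (Nat.cast 5000 : ℝ)) * D)) - (((Int.cast (531) : ℝ) / (Nat.cast 10000 : ℝ)) * F)) := hn2.trans
    (by push_cast <;> ring)
  replace hjF : jF = (((Int.cast (2) : ℝ) * F) - (Int.cast (1) : ℝ))⁻¹ := hjF.trans (by push_cast
    <;> ring)
  replace hP : P = (((Int.cast (1) : ℝ) + D) * (x * x)) := hP.trans (by push_cast <;> ring)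
  replace hQ : Q = (((Int.cast (1) : ℝ) + ((Int.cast (2) : ℝ) * D)) * x) := hQ.trans (by push_cast
    <;> ring)
  replace hW : W = ((x - (Int.cast (1) : ℝ)) * ((((Int.cast (1) : ℝ) + D) * x) - D)) := hW.trans (by
    push_cast <;> ring)
  replace hY : Y = (((((Int.cast (1) : ℝ) / (Nat.cast 2 : ℝ)) * ((((Int.cast (1) : ℝ) + D) * ((i *
    (x * x)) - a)) * iF)) - ((((Int.cast (1) : ℝ) + ((Int.cast (2) : ℝ) * D)) * ((i * x) - a)) *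
    jF)) - D) := hY.trans (by push_cast <;> ring)
  replace hM : M = ((Int.cast (2) : ℝ) * Y) := hM.trans (by push_cast <;> ring)
  replace hk3 : k3 = ((((Int.cast (309) : ℝ) / (Nat.cast 25 : ℝ)) * a) + ((Int.cast (8) : ℝ) * M))
    := hk3.trans (by push_cast <;> ring)
  replace hk2 : k2 = (i * (((((Int.cast (927) : ℝ) / (Nat.cast 25 : ℝ)) + ((Int.cast (4) : ℝ) * r1))
    * a) + (((Int.cast (28) : ℝ) + ((Int.cast (4) : ℝ) * r2)) * M))) := hk2.trans (by push_cast <;>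
    ring)
  replace hk1 : k1 = ((i * i) * (((((Int.cast (927) : ℝ) / (Nat.cast 100 : ℝ)) + ((Int.cast (2) : ℝ)
    * r1)) * a) + (((Int.cast (10) : ℝ) + ((Int.cast (4) : ℝ) * r2)) * M))) := hk1.trans (by
    push_cast <;> ring)
  replace hB : B = (mK3 F P Q D Y W k3 k2 k1) := hB.trans (mK3_0 ..)
  have e0 : (B - (((((i * i) * i) * (((W * W) * (W * W)) * W)) * M) * b)) = B - i ^ 3 * W ^ 5 * M *
    b := by push_cast <;> ring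
  have e1 : (((n0 * (a * a)) + ((n1 * a) * M)) + (n2 * (M * M))) = n0 * a ^ 2 + n1 * a * M + n2 * M
    ^ 2 := by push_cast <;> ring
  subst hp hi ha hiF hr1 hr2 hb hn0 hn1 hn2 hjF hP hQ hW hY hM hk3 hk2 hk1 hB
  exact ⟨Eq.trans rfl e0, Eq.trans rfl e1, rfl⟩

theorem l0 : ((0 : ℤ) : ℝ) / 2 ^ 47 = 0 := by norm_num
theorem u0 : (1 / 2048 : ℝ) = ((68719476736 : ℤ) : ℝ) / 2 ^ 47 := by norm_num
theorem l1 : ((-118747255799808 : ℤ) : ℝ) / 2 ^ 47 = -27 / 32 := by norm_num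
theorem u1 : (-1 / 2 : ℝ) = ((-70368744177664 : ℤ) : ℝ) / 2 ^ 47 := by norm_num
theorem l2 : ((131941395333120 : ℤ) : ℝ) / 2 ^ 47 = 15 / 16 := by norm_num
theorem u2 : (137 / 128 : ℝ) = ((150633093005312 : ℤ) : ℝ) / 2 ^ 47 := by norm_num
theorem l3 : ((0 : ℤ) : ℝ) / 2 ^ 47 = 0 := by norm_num
theorem u3 : (1 : ℝ) = ((140737488355328 : ℤ) : ℝ) / 2 ^ 47 := by norm_num

theorem out0 {x D F g : ℝ} (a0 : 0 ≤ x) (b0 : x ≤ 1 / 2048) (a1 : -27 / 32 ≤ D) (b1 : D ≤ -1 / 2)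
    (a2 : 15 / 16 ≤ F) (b2 : F ≤ 137 / 128) (a3 : 0 ≤ g) (b3 : g ≤ 1) (c0 : 0 ≤ outR (prog.take 12)
    0 [x, D, F, g]) : 0 < outR prog 0 [x, D, F, g] :=
  gd 0 (by decide) [x, D, F, g] (.cons ⟨l0.le.trans a0, b0.trans u0.le⟩ (.cons ⟨l1.le.trans a1,
    b1.trans u1.le⟩ (.cons ⟨l2.le.trans a2, b2.trans u2.le⟩ (.cons ⟨l3.le.trans a3, b3.trans u3.le⟩
    (.nil))))) ⟨nofun, nofun, nofun, nofun, trivial⟩ (List.forall_mem_cons.2 ⟨c0,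
    List.forall_mem_nil _⟩) (Van.of0 rfl) (nofun)

theorem pos0 {x D F g p i a iF r1 r2 b n0 n1 n2 jF P Q W Y M k3 k2 k1 B : ℝ} (hp : p = ph1 ((2 * F -
    2) * 8)) (hi : i = g * (8 * p)⁻¹) (ha : a = i + (2 * F - 2)) (hiF : iF = F⁻¹) (hr1 : r1 = -4027
    / 500 + 9 / 5 * D) (hr2 : r2 = iF - 2) (hb : b = (1 + r2) * iF) (hn0 : n0 = (927 / 200 + r1) *
    (1 - F - 2 * D) / 3 - b) (hn1 : n1 = -4443 / 10000 - 2973 / 10000 * D + 366 / 625 * F) (hn2 : n2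
    = -67 / 5000 - 677 / 5000 * D - 531 / 10000 * F) (hjF : jF = (2 * F - 1)⁻¹) (hP : P = (1 + D) *
    x ^ 2) (hQ : Q = (1 + 2 * D) * x) (hW : W = (x - 1) * ((1 + D) * x - D)) (hY : Y = (1 + D) * (i
    * x ^ 2 - a) * iF / 2 - (1 + 2 * D) * (i * x - a) * jF - D) (hM : M = 2 * Y) (hk3 : k3 = 309 /
    25 * a + 8 * M) (hk2 : k2 = i * ((927 / 25 + 4 * r1) * a + (28 + 4 * r2) * M)) (hk1 : k1 = i * i
    * ((927 / 100 + 2 * r1) * a + (10 + 4 * r2) * M)) (hB : B = k3 * (Y ^ 3 * (pjR F P Q D).2.1) +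
    k2 * (Y ^ 2 * (pjR F P Q D).1 * W ^ 2) + k1 * (Y * W ^ 4)) (a0 : 0 ≤ x) (b0 : x ≤ 1 / 2048) (a1
    : -27 / 32 ≤ D) (b1 : D ≤ -1 / 2) (a2 : 15 / 16 ≤ F) (b2 : F ≤ 137 / 128) (a3 : 0 ≤ g) (b3 : g ≤
    1) (c0 : 0 ≤ a) : 0 < B - i ^ 3 * W ^ 5 * M * b :=
  have e := eq hp hi ha hiF hr1 hr2 hb hn0 hn1 hn2 hjF hP hQ hW hY hM hk3 hk2 hk1 hB
  (out0 a0 b0 a1 b1 a2 b2 a3 b3 (c0.trans_eq e.2.2.symm)).trans_eq e.1

theorem out1 {x D F g : ℝ} (a0 : 0 ≤ x) (b0 : x ≤ 1 / 2048) (a1 : -27 / 32 ≤ D) (b1 : D ≤ -1 / 2)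
    (a2 : 15 / 16 ≤ F) (b2 : F ≤ 137 / 128) (a3 : 0 ≤ g) (b3 : g ≤ 1) (c0 : 0 ≤ outR (prog.take 12)
    0 [x, D, F, g]) : 0 < outR prog 1 [x, D, F, g] :=
  gd 1 (by decide) [x, D, F, g] (.cons ⟨l0.le.trans a0, b0.trans u0.le⟩ (.cons ⟨l1.le.trans a1,
    b1.trans u1.le⟩ (.cons ⟨l2.le.trans a2, b2.trans u2.le⟩ (.cons ⟨l3.le.trans a3, b3.trans u3.le⟩
    (.nil))))) ⟨nofun, nofun, nofun, nofun, trivial⟩ (List.forall_mem_cons.2 ⟨c0,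
    List.forall_mem_nil _⟩) (Van.of0 rfl) (nofun)

theorem pos1 {x D F g p i a iF r1 r2 b n0 n1 n2 jF P Q W Y M k3 k2 k1 B : ℝ} (hp : p = ph1 ((2 * F -
    2) * 8)) (hi : i = g * (8 * p)⁻¹) (ha : a = i + (2 * F - 2)) (hiF : iF = F⁻¹) (hr1 : r1 = -4027
    / 500 + 9 / 5 * D) (hr2 : r2 = iF - 2) (hb : b = (1 + r2) * iF) (hn0 : n0 = (927 / 200 + r1) *
    (1 - F - 2 * D) / 3 - b) (hn1 : n1 = -4443 / 10000 - 2973 / 10000 * D + 366 / 625 * F) (hn2 : n2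
    = -67 / 5000 - 677 / 5000 * D - 531 / 10000 * F) (hjF : jF = (2 * F - 1)⁻¹) (hP : P = (1 + D) *
    x ^ 2) (hQ : Q = (1 + 2 * D) * x) (hW : W = (x - 1) * ((1 + D) * x - D)) (hY : Y = (1 + D) * (i
    * x ^ 2 - a) * iF / 2 - (1 + 2 * D) * (i * x - a) * jF - D) (hM : M = 2 * Y) (hk3 : k3 = 309 /
    25 * a + 8 * M) (hk2 : k2 = i * ((927 / 25 + 4 * r1) * a + (28 + 4 * r2) * M)) (hk1 : k1 = i * i
    * ((927 / 100 + 2 * r1) * a + (10 + 4 * r2) * M)) (hB : B = k3 * (Y ^ 3 * (pjR F P Q D).2.1) +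
    k2 * (Y ^ 2 * (pjR F P Q D).1 * W ^ 2) + k1 * (Y * W ^ 4)) (a0 : 0 ≤ x) (b0 : x ≤ 1 / 2048) (a1
    : -27 / 32 ≤ D) (b1 : D ≤ -1 / 2) (a2 : 15 / 16 ≤ F) (b2 : F ≤ 137 / 128) (a3 : 0 ≤ g) (b3 : g ≤
    1) (c0 : 0 ≤ a) : 0 < n0 * a ^ 2 + n1 * a * M + n2 * M ^ 2 :=
  have e := eq hp hi ha hiF hr1 hr2 hb hn0 hn1 hn2 hjF hP hQ hW hY hM hk3 hk2 hk1 hB
  (out1 a0 b0 a1 b1 a2 b2 a3 b3 (c0.trans_eq e.2.2.symm)).trans_eq e.2.1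

end Pool.Agent.Lib.MP_d6150d_an.S7bM
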