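import Pool.Agent.Lib.MP_d6150d_an.S7bRD

/-! A generated chart: the computations. -/

namespace Pool.Agent.Lib.MP_d6150d_an.S7bR

theorem k0 : chk C 0x88818812088088088082222 [(-118747255799808, -70368744177664), (131941395333120,
    150633093005312), (0, 105553116266496)] = true := by
  decide +kernel

theorem k1 : chk C 0x88288208808802188288010881828818202 [(-118747255799808, -70368744177664),
    (131941395333120, 150633093005312), (105553116266496, 211106232532992)] = true := by
  decide +kernel

end Pool.Agent.Lib.MP_d6150d_an.S7bR
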