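import Pool.Agent.Lib.MP_d6150d_an.S7bRD

/-! A generated chart: the computations. -/

namespace Pool.Agent.Lib.MP_d6150d_an.S7bR

theorem k4 : chk C 0x88188108802 [(-118747255799808, -94557999988736), (141287244169216,
    150633093005312), (211106232532992, 316659348799488)] = true := by
  decide +kernel

theorem k5 : chk C 0x88088018818810088182881881002 [(-118747255799808, -94557999988736),
    (141287244169216, 150633093005312), (316659348799488, 422212465065984)] = true := by
  decide +kernel

theorem k6 : chk C 0x88088018808801088188102881881088022 [(-94557999988736, -70368744177664),
    (141287244169216, 150633093005312), (211106232532992, 422212465065984)] = true := by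
  decide +kernel

end Pool.Agent.Lib.MP_d6150d_an.S7bR
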