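import Pool.Agent.Lib.MP_d6150d_an.GMac
import Pool.Agent.Lib.MP_d6150d_an.S7bRK0
import Pool.Agent.Lib.MP_d6150d_an.S7bRK1
import Pool.Agent.Lib.MP_d6150d_an.S7bRK2

/-! A generated chart: the inequality. -/

namespace Pool.Agent.Lib.MP_d6150d_an.S7bR

set_option linter.unnecessarySeqFocus false
set_option linter.unusedTactic false
set_option linter.unusedVariables false

theorem gd : Gd C [(-118747255799808, -70368744177664), (131941395333120, 150633093005312), (0,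
    422212465065984)] := .split 2 (.split 2 (chk_sound k0) (chk_sound k1)) (.split 1 (.split 0
    (chk_sound k2) (chk_sound k3)) (.split 0 (.split 2 (chk_sound k4) (chk_sound k5)) (chk_sound
    k6)))

set_option maxRecDepth 100000 in
theorem eq {D F t iF r1 r2 b n0 n1 n2 mu v y r P Q R p W Y k3 k2 k1 B X : ℝ} (hiF : iF = F⁻¹) (hr1 :
    r1 = -4027 / 500 + 9 / 5 * D) (hr2 : r2 = iF - 2) (hb : b = (1 + r2) * iF) (hn0 : n0 = (927 /
    200 + r1) * (1 - F - 2 * D) / 3 - b) (hn1 : n1 = -4443 / 10000 - 2973 / 10000 * D + 366 / 625 *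
    F) (hn2 : n2 = -67 / 5000 - 677 / 5000 * D - 531 / 10000 * F) (hmu : mu = muR D F t) (hv : v = t
    ^ 2 * mu) (hy : y = Real.exp (-(F * t))) (hr : r = Real.exp (-t)) (hP : P = 1 + D) (hQ : Q = (1
    + 2 * D) * r) (hR : R = D * r ^ 2) (hp : p = ph1 (-t)) (hW : W = p * (1 + D - D * r)) (hY : Y =
    mu * y ^ 2 / 2) (hk3 : k3 = 309 / 25 + 8 * v) (hk2 : k2 = 927 / 25 + 4 * r1 + (28 + 4 * r2) * v)
    (hk1 : k1 = 927 / 100 + 2 * r1 + (10 + 4 * r2) * v) (hB : B = k3 * (Y ^ 3 * (pjR F P Q R).2.1) +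
    k2 * (Y ^ 2 * (pjR F P Q R).1 * W ^ 2) + k1 * (Y * W ^ 4)) (hX : X = (n0 + n1 * v + n2 * v ^ 2)
    * (1 + 1 / 5 * v)⁻¹ ^ 3) : outR prog 0 [D, F, t] = B - W ^ 5 * (t * mu) * (b + y * X) := by
  replace hiF : iF = F⁻¹ := hiF.trans (by push_cast <;> ring)
  replace hr1 : r1 = (((Int.cast (-4027) : ℝ) / (Nat.cast 500 : ℝ)) + (((Int.cast (9) : ℝ) /
    (Nat.cast 5 : ℝ)) * D)) := hr1.trans (by push_cast <;> ring)
  replace hr2 : r2 = (iF - (Int.cast (2) : ℝ)) := hr2.trans (by push_cast <;> ring)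
  replace hb : b = (((Int.cast (1) : ℝ) + r2) * iF) := hb.trans (by push_cast <;> ring)
  replace hn0 : n0 = ((((Int.cast (1) : ℝ) / (Nat.cast 3 : ℝ)) * ((((Int.cast (927) : ℝ) / (Nat.cast
    200 : ℝ)) + r1) * (((Int.cast (1) : ℝ) - F) - ((Int.cast (2) : ℝ) * D)))) - b) := hn0.trans (by
    push_cast <;> ring)
  replace hn1 : n1 = ((((Int.cast (-4443) : ℝ) / (Nat.cast 10000 : ℝ)) - (((Int.cast (2973) : ℝ) /
    (Nat.cast 10000 : ℝ)) * D)) + (((Int.cast (366) : ℝ) / (Nat.cast 625 : ℝ)) * F)) := hn1.trans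
    (by push_cast <;> ring)
  replace hn2 : n2 = ((((Int.cast (-67) : ℝ) / (Nat.cast 5000 : ℝ)) - (((Int.cast (677) : ℝ) /
    (Nat.cast 5000 : ℝ)) * D)) - (((Int.cast (531) : ℝ) / (Nat.cast 10000 : ℝ)) * F)) := hn2.trans
    (by push_cast <;> ring)
  replace hmu : mu = (mMu D F t) := hmu.trans (mMu_0 ..)
  replace hv : v = ((t * t) * mu) := hv.trans (by push_cast <;> ring)
  replace hy : y = (Real.exp ((Int.cast (-1) : ℝ) * (F * t))) := hy.trans (congrArg Real.exp (by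
    push_cast <;> ring))
  replace hr : r = (Real.exp ((Int.cast (-1) : ℝ) * t)) := hr.trans (congrArg Real.exp (by push_cast
    <;> ring))
  replace hP : P = ((Int.cast (1) : ℝ) + D) := hP.trans (by push_cast <;> ring)
  replace hQ : Q = (((Int.cast (1) : ℝ) + ((Int.cast (2) : ℝ) * D)) * r) := hQ.trans (by push_cast
    <;> ring)
  replace hR : R = (D * (r * r)) := hR.trans (by push_cast <;> ring)
  replace hp : p = (ph1 ((Int.cast (-1) : ℝ) * t)) := hp.trans (congrArg ph1 (by push_cast <;>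
    ring))
  replace hW : W = (p * (((Int.cast (1) : ℝ) + D) - (D * r))) := hW.trans (by push_cast <;> ring)
  replace hY : Y = (((Int.cast (1) : ℝ) / (Nat.cast 2 : ℝ)) * (mu * (y * y))) := hY.trans (by
    push_cast <;> ring)
  replace hk3 : k3 = (((Int.cast (309) : ℝ) / (Nat.cast 25 : ℝ)) + ((Int.cast (8) : ℝ) * v)) :=
    hk3.trans (by push_cast <;> ring)
  replace hk2 : k2 = ((((Int.cast (927) : ℝ) / (Nat.cast 25 : ℝ)) + ((Int.cast (4) : ℝ) * r1)) +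
    (((Int.cast (28) : ℝ) + ((Int.cast (4) : ℝ) * r2)) * v)) := hk2.trans (by push_cast <;> ring)
  replace hk1 : k1 = ((((Int.cast (927) : ℝ) / (Nat.cast 100 : ℝ)) + ((Int.cast (2) : ℝ) * r1)) +
    (((Int.cast (10) : ℝ) + ((Int.cast (4) : ℝ) * r2)) * v)) := hk1.trans (by push_cast <;> ring)
  replace hB : B = (mK3 F P Q R Y W k3 k2 k1) := hB.trans (mK3_0 ..)
  replace hX : X = (((n0 + (n1 * v)) + (n2 * (v * v))) * ((((Int.cast (1) : ℝ) + (((Int.cast (1) :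
    ℝ) / (Nat.cast 5 : ℝ)) * v))⁻¹ * ((Int.cast (1) : ℝ) + (((Int.cast (1) : ℝ) / (Nat.cast 5 : ℝ))
    * v))⁻¹) * ((Int.cast (1) : ℝ) + (((Int.cast (1) : ℝ) / (Nat.cast 5 : ℝ)) * v))⁻¹)) := hX.trans
    (by push_cast <;> ring)
  have e0 : (B - (((((W * W) * (W * W)) * W) * (t * mu)) * (b + (y * X)))) = B - W ^ 5 * (t * mu) *
    (b + y * X) := by push_cast <;> ring
  subst hiF hr1 hr2 hb hn0 hn1 hn2 hmu hv hy hr hP hQ hR hp hW hY hk3 hk2 hk1 hB hX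
  exact Eq.trans rfl e0

theorem l0 : ((-118747255799808 : ℤ) : ℝ) / 2 ^ 47 = -27 / 32 := by norm_num
theorem u0 : (-1 / 2 : ℝ) = ((-70368744177664 : ℤ) : ℝ) / 2 ^ 47 := by norm_num
theorem l1 : ((131941395333120 : ℤ) : ℝ) / 2 ^ 47 = 15 / 16 := by norm_num
theorem u1 : (137 / 128 : ℝ) = ((150633093005312 : ℤ) : ℝ) / 2 ^ 47 := by norm_num
theorem l2 : ((0 : ℤ) : ℝ) / 2 ^ 47 = 0 := by norm_num
theorem u2 : (3 : ℝ) = ((422212465065984 : ℤ) : ℝ) / 2 ^ 47 := by norm_num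

theorem out0 (V2 : ∀ D F : ℝ, -27 / 32 ≤ D → D ≤ -1 / 2 → 15 / 16 ≤ F → F ≤ 137 / 128 → (fun t ↦
    outR prog 0 [D, F, t]) =O[nhdsWithin 0 (Set.Ioi 0)] fun t : ℝ ↦ t ^ 2) {D F t : ℝ} (a0 : -27 /
    32 ≤ D) (b0 : D ≤ -1 / 2) (a1 : 15 / 16 ≤ F) (b1 : F ≤ 137 / 128) (a2 : 0 ≤ t) (b2 : t ≤ 3) (p2
    : 0 < t) : 0 < outR prog 0 [D, F, t] :=
  gd 0 (by decide) [D, F, t] (.cons ⟨l0.le.trans a0, b0.trans u0.le⟩ (.cons ⟨l1.le.trans a1,
    b1.trans u1.le⟩ (.cons ⟨l2.le.trans a2, b2.trans u2.le⟩ (.nil)))) ⟨nofun, nofun, fun _ ↦ p2,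
    trivial⟩ (List.forall_mem_nil _) (⟨fun _ ↦ allB_iff.2 fun _ _ ↦ trivial, fun y0 a0 b0 ↦ ⟨fun _ ↦
    allB_iff.2 fun _ _ ↦ trivial, fun y1 a1 b1 ↦ ⟨fun _ ↦ V2 y0 y1 (l0.ge.trans a0) (b0.trans u0.ge)
    (l1.ge.trans a1) (b1.trans u1.ge), fun _ _ _ ↦ trivial⟩⟩⟩) (nofun)

end Pool.Agent.Lib.MP_d6150d_an.S7bR
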