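import Pool.Agent.Lib.MP_d6150d_an.S7bTD

/-! A generated chart: the computations. -/

namespace Pool.Agent.Lib.MP_d6150d_an.S7bT

theorem k0 : chk C 0x888318808880113888318838808831132 [(0, 15393162788864), (-118747255799808,
    -106652627894272), (131941395333120, 150633093005312), (0, 7146825580544)] = true := by
  decide +kernel

theorem k1 : chk C 0x883888131888018881132 [(15393162788864, 30786325577728), (-118747255799808,
    -106652627894272), (131941395333120, 150633093005312), (0, 7146825580544)] = true := by
  decide +kernel

theorem k2 : chk C 0x88821882882882310 [(0, 30786325577728), (-106652627894272, -94557999988736),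
    (131941395333120, 150633093005312), (0, 7146825580544)] = true := by
  decide +kernel

theorem k3 : chk C 0x881888011 [(0, 30786325577728), (-94557999988736, -70368744177664),
    (131941395333120, 150633093005312), (0, 7146825580544)] = true := by
  decide +kernel

end Pool.Agent.Lib.MP_d6150d_an.S7bT
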