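import Pool.Agent.Lib.MP_d6150d_an.GMac
import Pool.Agent.Lib.MP_d6150d_an.S7bTK0

/-! A generated chart: the inequality. -/

namespace Pool.Agent.Lib.MP_d6150d_an.S7bT

set_option linter.unnecessarySeqFocus false
set_option linter.unusedTactic false
set_option linter.unusedVariables false

theorem gd : Gd C [(0, 30786325577728), (-118747255799808, -70368744177664), (131941395333120,
    150633093005312), (0, 7146825580544)] := .split 1 (.split 1 (.split 0 (chk_sound k0) (chk_sound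
    k1)) (chk_sound k2)) (chk_sound k3)

set_option maxRecDepth 100000 in
theorem eq {g D F r P iF r1 r2 b n0 n1 n2 jF z a W G N Z M A B T U V H L : ℝ} (hP : P = 1 + D) (hiF
    : iF = F⁻¹) (hr1 : r1 = -4027 / 500 + 9 / 5 * D) (hr2 : r2 = iF - 2) (hb : b = (1 + r2) * iF)
    (hn0 : n0 = (927 / 200 + r1) * (1 - F - 2 * D) / 3 - b) (hn1 : n1 = -4443 / 10000 - 2973 / 10000
    * D + 366 / 625 * F) (hn2 : n2 = -67 / 5000 - 677 / 5000 * D - 531 / 10000 * F) (hjF : jF = (2 *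
    F - 1)⁻¹) (hz : z = r - (2 * F - 2) * g) (ha : a = r * z) (hW : W = (1 - r) * (P - D * r)) (hG :
    G = 2 * D * r - (1 + 2 * D)) (hN : N = 2 * F * D * g - D * r - (1 + 2 * D) * (1 - 2 * F * z) *
    jF - P * z) (hZ : Z = W + r * N) (hM : M = Z * iF) (hA : A = Z * (Z * G)) (hB : B = F * W * N)
    (hT : T = A - Z * B) (hU : U = (T - Z * B) * (2 * Z * (r * G) - F * W * (r * N + Z)) + Z ^ 3 *
    (G * (r * G - W) - 2 * D * r * W) + F * W * Z * T) (hV : V = 3 * A * (Z * G) - (5 * F + 1) * A *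
    (N * W) + (3 * F * Z - (1 - F) * W) * (B * (N * W))) (hH : H = 309 / 200 * U + (309 / 200 + r1)
    * F * W ^ 2 * T) (hL : L = M * (V - 2 * Z ^ 3 * D * W) + z * H) : outR prog 0 [g, D, F, r] = L ∧
    outR prog 1 [g, D, F, r] = (a + 1 / 5 * M) ^ 3 * L - F ^ 3 * W ^ 5 * M * (3 / 32) * (n0 * a ^ 2
    + n1 * a * M + n2 * M ^ 2) := by
  replace hP : P = ((Int.cast (1) : ℝ) + D) := hP.trans (by push_cast <;> ring)
  replace hiF : iF = F⁻¹ := hiF.trans (by push_cast <;> ring)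
  replace hr1 : r1 = (((Int.cast (-4027) : ℝ) / (Nat.cast 500 : ℝ)) + (((Int.cast (9) : ℝ) /
    (Nat.cast 5 : ℝ)) * D)) := hr1.trans (by push_cast <;> ring)
  replace hr2 : r2 = (iF - (Int.cast (2) : ℝ)) := hr2.trans (by push_cast <;> ring)
  replace hb : b = (((Int.cast (1) : ℝ) + r2) * iF) := hb.trans (by push_cast <;> ring)
  replace hn0 : n0 = ((((Int.cast (1) : ℝ) / (Nat.cast 3 : ℝ)) * ((((Int.cast (927) : ℝ) / (Nat.cast
    200 : ℝ)) + r1) * (((Int.cast (1) : ℝ) - F) - ((Int.cast (2) : ℝ) * D)))) - b) := hn0.trans (by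
    push_cast <;> ring)
  replace hn1 : n1 = ((((Int.cast (-4443) : ℝ) / (Nat.cast 10000 : ℝ)) - (((Int.cast (2973) : ℝ) /
    (Nat.cast 10000 : ℝ)) * D)) + (((Int.cast (366) : ℝ) / (Nat.cast 625 : ℝ)) * F)) := hn1.trans
    (by push_cast <;> ring)
  replace hn2 : n2 = ((((Int.cast (-67) : ℝ) / (Nat.cast 5000 : ℝ)) - (((Int.cast (677) : ℝ) /
    (Nat.cast 5000 : ℝ)) * D)) - (((Int.cast (531) : ℝ) / (Nat.cast 10000 : ℝ)) * F)) := hn2.trans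
    (by push_cast <;> ring)
  replace hjF : jF = (((Int.cast (2) : ℝ) * F) - (Int.cast (1) : ℝ))⁻¹ := hjF.trans (by push_cast
    <;> ring)
  replace hz : z = (r - ((((Int.cast (2) : ℝ) * F) - (Int.cast (2) : ℝ)) * g)) := hz.trans (by
    push_cast <;> ring)
  replace ha : a = (r * z) := ha.trans (by push_cast <;> ring)
  replace hW : W = (((Int.cast (1) : ℝ) - r) * (P - (D * r))) := hW.trans (by push_cast <;> ring)
  replace hG : G = ((((Int.cast (2) : ℝ) * D) * r) - ((Int.cast (1) : ℝ) + ((Int.cast (2) : ℝ) *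
    D))) := hG.trans (by push_cast <;> ring)
  replace hN : N = (((((((Int.cast (2) : ℝ) * F) * D) * g) - (D * r)) - ((((Int.cast (1) : ℝ) +
    ((Int.cast (2) : ℝ) * D)) * ((Int.cast (1) : ℝ) - (((Int.cast (2) : ℝ) * F) * z))) * jF)) - (P *
    z)) := hN.trans (by push_cast <;> ring)
  replace hZ : Z = (W + (r * N)) := hZ.trans (by push_cast <;> ring)
  replace hM : M = (Z * iF) := hM.trans (by push_cast <;> ring)
  replace hA : A = (Z * (Z * G)) := hA.trans (by push_cast <;> ring)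
  replace hB : B = ((F * W) * N) := hB.trans (by push_cast <;> ring)
  replace hT : T = (A - (Z * B)) := hT.trans (by push_cast <;> ring)
  replace hU : U = ((((T - (Z * B)) * ((((Int.cast (2) : ℝ) * Z) * (r * G)) - ((F * W) * ((r * N) +
    Z)))) + (((Z * Z) * Z) * ((G * ((r * G) - W)) - ((((Int.cast (2) : ℝ) * D) * r) * W)))) + (((F *
    W) * Z) * T)) := hU.trans (by push_cast <;> ring)
  replace hV : V = (((((Int.cast (3) : ℝ) * A) * (Z * G)) - (((((Int.cast (5) : ℝ) * F) + (Int.cast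
    (1) : ℝ)) * A) * (N * W))) + (((((Int.cast (3) : ℝ) * F) * Z) - (((Int.cast (1) : ℝ) - F) * W))
    * (B * (N * W)))) := hV.trans (by push_cast <;> ring)
  replace hH : H = ((((Int.cast (309) : ℝ) / (Nat.cast 200 : ℝ)) * U) + ((((((Int.cast (309) : ℝ) /
    (Nat.cast 200 : ℝ)) + r1) * F) * (W * W)) * T)) := hH.trans (by push_cast <;> ring)
  replace hL : L = ((M * (V - ((((Int.cast (2) : ℝ) * ((Z * Z) * Z)) * D) * W))) + (z * H)) :=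
    hL.trans (by push_cast <;> ring)
  have e1 : (((((a + (((Int.cast (1) : ℝ) / (Nat.cast 5 : ℝ)) * M)) * (a + (((Int.cast (1) : ℝ) /
    (Nat.cast 5 : ℝ)) * M))) * (a + (((Int.cast (1) : ℝ) / (Nat.cast 5 : ℝ)) * M))) * L) -
    ((((Int.cast (3) : ℝ) / (Nat.cast 32 : ℝ)) * ((((F * F) * F) * (((W * W) * (W * W)) * W)) * M))
    * (((n0 * (a * a)) + ((n1 * a) * M)) + (n2 * (M * M))))) = (a + 1 / 5 * M) ^ 3 * L - F ^ 3 * W ^
    5 * M * (3 / 32) * (n0 * a ^ 2 + n1 * a * M + n2 * M ^ 2) := by push_cast <;> ring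
  subst hP hiF hr1 hr2 hb hn0 hn1 hn2 hjF hz ha hW hG hN hZ hM hA hB hT hU hV hH hL
  exact ⟨rfl, Eq.trans rfl e1⟩

theorem l0 : ((0 : ℤ) : ℝ) / 2 ^ 47 = 0 := by norm_num
theorem u0 : (7 / 32 : ℝ) = ((30786325577728 : ℤ) : ℝ) / 2 ^ 47 := by norm_num
theorem l1 : ((-118747255799808 : ℤ) : ℝ) / 2 ^ 47 = -27 / 32 := by norm_num
theorem u1 : (-1 / 2 : ℝ) = ((-70368744177664 : ℤ) : ℝ) / 2 ^ 47 := by norm_num
theorem l2 : ((131941395333120 : ℤ) : ℝ) / 2 ^ 47 = 15 / 16 := by norm_num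
theorem u2 : (137 / 128 : ℝ) = ((150633093005312 : ℤ) : ℝ) / 2 ^ 47 := by norm_num
theorem l3 : ((0 : ℤ) : ℝ) / 2 ^ 47 = 0 := by norm_num
theorem u3 : (13 / 256 : ℝ) = ((7146825580544 : ℤ) : ℝ) / 2 ^ 47 := by norm_num

theorem out0 {g D F r : ℝ} (a0 : 0 ≤ g) (b0 : g ≤ 7 / 32) (a1 : -27 / 32 ≤ D) (b1 : D ≤ -1 / 2) (a2
    : 15 / 16 ≤ F) (b2 : F ≤ 137 / 128) (a3 : 0 ≤ r) (b3 : r ≤ 13 / 256) : 0 < outR prog 0 [g, D, F,
    r] :=
  gd 0 (by decide) [g, D, F, r] (.cons ⟨l0.le.trans a0, b0.trans u0.le⟩ (.cons ⟨l1.le.trans a1,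
    b1.trans u1.le⟩ (.cons ⟨l2.le.trans a2, b2.trans u2.le⟩ (.cons ⟨l3.le.trans a3, b3.trans u3.le⟩
    (.nil))))) ⟨nofun, nofun, nofun, nofun, trivial⟩ (List.forall_mem_nil _) (Van.of0 rfl) (nofun)

theorem pos0 {g D F r P iF r1 r2 b n0 n1 n2 jF z a W G N Z M A B T U V H L : ℝ} (hP : P = 1 + D)
    (hiF : iF = F⁻¹) (hr1 : r1 = -4027 / 500 + 9 / 5 * D) (hr2 : r2 = iF - 2) (hb : b = (1 + r2) *
    iF) (hn0 : n0 = (927 / 200 + r1) * (1 - F - 2 * D) / 3 - b) (hn1 : n1 = -4443 / 10000 - 2973 /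
    10000 * D + 366 / 625 * F) (hn2 : n2 = -67 / 5000 - 677 / 5000 * D - 531 / 10000 * F) (hjF : jF
    = (2 * F - 1)⁻¹) (hz : z = r - (2 * F - 2) * g) (ha : a = r * z) (hW : W = (1 - r) * (P - D *
    r)) (hG : G = 2 * D * r - (1 + 2 * D)) (hN : N = 2 * F * D * g - D * r - (1 + 2 * D) * (1 - 2 *
    F * z) * jF - P * z) (hZ : Z = W + r * N) (hM : M = Z * iF) (hA : A = Z * (Z * G)) (hB : B = F *
    W * N) (hT : T = A - Z * B) (hU : U = (T - Z * B) * (2 * Z * (r * G) - F * W * (r * N + Z)) + Z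
    ^ 3 * (G * (r * G - W) - 2 * D * r * W) + F * W * Z * T) (hV : V = 3 * A * (Z * G) - (5 * F + 1)
    * A * (N * W) + (3 * F * Z - (1 - F) * W) * (B * (N * W))) (hH : H = 309 / 200 * U + (309 / 200
    + r1) * F * W ^ 2 * T) (hL : L = M * (V - 2 * Z ^ 3 * D * W) + z * H) (a0 : 0 ≤ g) (b0 : g ≤ 7 /
    32) (a1 : -27 / 32 ≤ D) (b1 : D ≤ -1 / 2) (a2 : 15 / 16 ≤ F) (b2 : F ≤ 137 / 128) (a3 : 0 ≤ r)
    (b3 : r ≤ 13 / 256) : 0 < L :=
  have e := eq hP hiF hr1 hr2 hb hn0 hn1 hn2 hjF hz ha hW hG hN hZ hM hA hB hT hU hV hH hL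
  (out0 a0 b0 a1 b1 a2 b2 a3 b3).trans_eq e.1

theorem out1 {g D F r : ℝ} (a0 : 0 ≤ g) (b0 : g ≤ 7 / 32) (a1 : -27 / 32 ≤ D) (b1 : D ≤ -1 / 2) (a2
    : 15 / 16 ≤ F) (b2 : F ≤ 137 / 128) (a3 : 0 ≤ r) (b3 : r ≤ 13 / 256) : 0 < outR prog 1 [g, D, F,
    r] :=
  gd 1 (by decide) [g, D, F, r] (.cons ⟨l0.le.trans a0, b0.trans u0.le⟩ (.cons ⟨l1.le.trans a1,
    b1.trans u1.le⟩ (.cons ⟨l2.le.trans a2, b2.trans u2.le⟩ (.cons ⟨l3.le.trans a3, b3.trans u3.le⟩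
    (.nil))))) ⟨nofun, nofun, nofun, nofun, trivial⟩ (List.forall_mem_nil _) (Van.of0 rfl) (nofun)

theorem pos1 {g D F r P iF r1 r2 b n0 n1 n2 jF z a W G N Z M A B T U V H L : ℝ} (hP : P = 1 + D)
    (hiF : iF = F⁻¹) (hr1 : r1 = -4027 / 500 + 9 / 5 * D) (hr2 : r2 = iF - 2) (hb : b = (1 + r2) *
    iF) (hn0 : n0 = (927 / 200 + r1) * (1 - F - 2 * D) / 3 - b) (hn1 : n1 = -4443 / 10000 - 2973 /
    10000 * D + 366 / 625 * F) (hn2 : n2 = -67 / 5000 - 677 / 5000 * D - 531 / 10000 * F) (hjF : jF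
    = (2 * F - 1)⁻¹) (hz : z = r - (2 * F - 2) * g) (ha : a = r * z) (hW : W = (1 - r) * (P - D *
    r)) (hG : G = 2 * D * r - (1 + 2 * D)) (hN : N = 2 * F * D * g - D * r - (1 + 2 * D) * (1 - 2 *
    F * z) * jF - P * z) (hZ : Z = W + r * N) (hM : M = Z * iF) (hA : A = Z * (Z * G)) (hB : B = F *
    W * N) (hT : T = A - Z * B) (hU : U = (T - Z * B) * (2 * Z * (r * G) - F * W * (r * N + Z)) + Z
    ^ 3 * (G * (r * G - W) - 2 * D * r * W) + F * W * Z * T) (hV : V = 3 * A * (Z * G) - (5 * F + 1)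
    * A * (N * W) + (3 * F * Z - (1 - F) * W) * (B * (N * W))) (hH : H = 309 / 200 * U + (309 / 200
    + r1) * F * W ^ 2 * T) (hL : L = M * (V - 2 * Z ^ 3 * D * W) + z * H) (a0 : 0 ≤ g) (b0 : g ≤ 7 /
    32) (a1 : -27 / 32 ≤ D) (b1 : D ≤ -1 / 2) (a2 : 15 / 16 ≤ F) (b2 : F ≤ 137 / 128) (a3 : 0 ≤ r)
    (b3 : r ≤ 13 / 256) : 0 < (a + 1 / 5 * M) ^ 3 * L - F ^ 3 * W ^ 5 * M * (3 / 32) * (n0 * a ^ 2 +
    n1 * a * M + n2 * M ^ 2) :=
  have e := eq hP hiF hr1 hr2 hb hn0 hn1 hn2 hjF hz ha hW hG hN hZ hM hA hB hT hU hV hH hL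
  (out1 a0 b0 a1 b1 a2 b2 a3 b3).trans_eq e.2

end Pool.Agent.Lib.MP_d6150d_an.S7bT
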