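import Pool.Agent.Lib.MP_d6150d_an.S7cLD

/-! A generated chart: the computations. -/

namespace Pool.Agent.Lib.MP_d6150d_an.S7cL

theorem k0 : chk C 0x88802828882282888228201 [(-141287244169216, -130017249984512),
    (131941395333120, 150633093005312), (0, 35184372088832)] = true := by
  decide +kernel

theorem k1 : chk C 0x88812828882288021 [(-130017249984512, -118747255799808), (131941395333120,
    150633093005312), (0, 35184372088832)] = true := by
  decide +kernel

end Pool.Agent.Lib.MP_d6150d_an.S7cL
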