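import Pool.Agent.Lib.MP_d6150d_an.S7cLD

/-! A generated chart: the computations. -/

namespace Pool.Agent.Lib.MP_d6150d_an.S7cL

theorem k2 : chk C 0x888228880288088802210 [(-141287244169216, -118747255799808), (131941395333120,
    150633093005312), (35184372088832, 70368744177664)] = true := by
  decide +kernel

theorem k3 : chk C 0x882888020 [(-141287244169216, -118747255799808), (131941395333120,
    150633093005312), (70368744177664, 140737488355328)] = true := by
  decide +kernel

theorem k4 : chk C 0x88801 [(-141287244169216, -118747255799808), (131941395333120,
    150633093005312), (140737488355328, 281474976710656)] = true := by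
  decide +kernel

theorem k5 : chk C 0x88088288101 [(-141287244169216, -118747255799808), (131941395333120,
    150633093005312), (281474976710656, 562949953421312)] = true := by
  decide +kernel

end Pool.Agent.Lib.MP_d6150d_an.S7cL
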