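import Pool.Agent.Lib.MP_d6150d_an.S7cLD

/-! A generated chart: the computations. -/

namespace Pool.Agent.Lib.MP_d6150d_an.S7cL

theorem k6 : chk C 0x881880288088080188088080121 [(-141287244169216, -118747255799808),
    (131941395333120, 150633093005312), (562949953421312, 1125899906842624)] = true := by
  decide +kernel

end Pool.Agent.Lib.MP_d6150d_an.S7cL
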