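import Pool.Agent.Lib.MP_d6150d_an.GMac
import Pool.Agent.Lib.MP_d6150d_an.S7cLK0
import Pool.Agent.Lib.MP_d6150d_an.S7cLK1
import Pool.Agent.Lib.MP_d6150d_an.S7cLK2

/-! A generated chart: the inequality. -/

namespace Pool.Agent.Lib.MP_d6150d_an.S7cL

set_option linter.unnecessarySeqFocus false
set_option linter.unusedTactic false
set_option linter.unusedVariables false

theorem gd : Gd C [(-141287244169216, -118747255799808), (131941395333120, 150633093005312), (0,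
    1125899906842624)] := .split 2 (.split 2 (.split 2 (.split 2 (.split 2 (.split 0 (chk_sound k0)
    (chk_sound k1)) (chk_sound k2)) (chk_sound k3)) (chk_sound k4)) (chk_sound k5)) (chk_sound k6)

set_option maxRecDepth 100000 in
theorem eq {D F s iF r2 b n0 j4 n1 n2 t x mu v y P Q p W e Y k3 k2 k1 B X : ℝ} (hiF : iF = F⁻¹) (hr2
    : r2 = 207 / 100 * F - 3591 / 2000) (hb : b = (1 / 80 + r2) * iF) (hn0 : n0 = (-(1 - F - 2 * D))
    / 3 - b) (hj4 : j4 = (4 - 57 * F - 6 * D + 156 * F ^ 2 + 102 * D * F - 60 * D ^ 2 - 103 * F ^ 3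
    - 312 * D * F ^ 2 - 480 * D ^ 2 * F - 320 * D ^ 3) / 90) (hn1 : n1 = j4 + (3 / 80 + r2) * (1 - F
    - 2 * D) / 2 + 3 / 10 * n0) (hn2 : n2 = -2 / 125 + 233 / 10000 * D + 137 / 2500 * F) (ht : t =
    -s) (hx : x = Real.exp t) (hmu : mu = muR D F t) (hv : v = t ^ 2 * mu) (hy : y = Real.exp (-(F *
    t))) (hP : P = (1 + D) * x ^ 2) (hQ : Q = (1 + 2 * D) * x) (hp : p = ph1 t) (hW : W = p * ((1 +
    D) * x - D)) (he : e = Real.exp ((2 - 2 * F) * t)) (hY : Y = mu * e / 2) (hk3 : k3 = 8 + 1 / 10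
    * v) (hk2 : k2 = 8 + (7 / 20 + 4 * r2) * v) (hk1 : k1 = -2 + (1 / 8 + 4 * r2) * v) (hB : B = k3
    * (Y ^ 3 * (pjR F P Q D).2.1) + k2 * (Y ^ 2 * (pjR F P Q D).1 * W ^ 2) + k1 * (Y * W ^ 4)) (hX :
    X = (n0 + n1 * v + n2 * v ^ 2) * (1 + 1 / 10 * v)⁻¹ ^ 3) : outR prog 0 [D, F, s] = B - W ^ 5 *
    (t * mu) * (b + y * X) := by
  replace hiF : iF = F⁻¹ := hiF.trans (by push_cast <;> ring)
  replace hr2 : r2 = ((((Int.cast (207) : ℝ) / (Nat.cast 100 : ℝ)) * F) - ((Int.cast (3591) : ℝ) /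
    (Nat.cast 2000 : ℝ))) := hr2.trans (by push_cast <;> ring)
  replace hb : b = ((((Int.cast (1) : ℝ) / (Nat.cast 80 : ℝ)) + r2) * iF) := hb.trans (by push_cast
    <;> ring)
  replace hn0 : n0 = ((((Int.cast (1) : ℝ) / (Nat.cast 3 : ℝ)) * ((Int.cast (-1) : ℝ) * (((Int.cast
    (1) : ℝ) - F) - ((Int.cast (2) : ℝ) * D)))) - b) := hn0.trans (by push_cast <;> ring)
  replace hj4 : j4 = (((Int.cast (1) : ℝ) / (Nat.cast 90 : ℝ)) * ((((((((((Int.cast (4) : ℝ) -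
    ((Int.cast (57) : ℝ) * F)) - ((Int.cast (6) : ℝ) * D)) + ((Int.cast (156) : ℝ) * (F * F))) +
    (((Int.cast (102) : ℝ) * D) * F)) - ((Int.cast (60) : ℝ) * (D * D))) - ((Int.cast (103) : ℝ) *
    ((F * F) * F))) - (((Int.cast (312) : ℝ) * D) * (F * F))) - (((Int.cast (480) : ℝ) * (D * D)) *
    F)) - ((Int.cast (320) : ℝ) * ((D * D) * D)))) := hj4.trans (by push_cast <;> ring)
  replace hn1 : n1 = ((j4 + (((Int.cast (1) : ℝ) / (Nat.cast 2 : ℝ)) * ((((Int.cast (3) : ℝ) /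
    (Nat.cast 80 : ℝ)) + r2) * (((Int.cast (1) : ℝ) - F) - ((Int.cast (2) : ℝ) * D))))) +
    (((Int.cast (3) : ℝ) / (Nat.cast 10 : ℝ)) * n0)) := hn1.trans (by push_cast <;> ring)
  replace hn2 : n2 = ((((Int.cast (-2) : ℝ) / (Nat.cast 125 : ℝ)) + (((Int.cast (233) : ℝ) /
    (Nat.cast 10000 : ℝ)) * D)) + (((Int.cast (137) : ℝ) / (Nat.cast 2500 : ℝ)) * F)) := hn2.trans
    (by push_cast <;> ring)
  replace ht : t = ((Int.cast (-1) : ℝ) * s) := ht.trans (by push_cast <;> ring)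
  replace hmu : mu = (mMu D F t) := hmu.trans (mMu_0 ..)
  replace hv : v = ((t * t) * mu) := hv.trans (by push_cast <;> ring)
  replace hy : y = (Real.exp ((Int.cast (-1) : ℝ) * (F * t))) := hy.trans (congrArg Real.exp (by
    push_cast <;> ring))
  replace hP : P = (((Int.cast (1) : ℝ) + D) * (x * x)) := hP.trans (by push_cast <;> ring)
  replace hQ : Q = (((Int.cast (1) : ℝ) + ((Int.cast (2) : ℝ) * D)) * x) := hQ.trans (by push_cast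
    <;> ring)
  replace hW : W = (p * ((((Int.cast (1) : ℝ) + D) * x) - D)) := hW.trans (by push_cast <;> ring)
  replace he : e = (Real.exp (((Int.cast (2) : ℝ) - ((Int.cast (2) : ℝ) * F)) * t)) := he.trans
    (congrArg Real.exp (by push_cast <;> ring))
  replace hY : Y = (((Int.cast (1) : ℝ) / (Nat.cast 2 : ℝ)) * (mu * e)) := hY.trans (by push_cast
    <;> ring)
  replace hk3 : k3 = ((Int.cast (8) : ℝ) + (((Int.cast (1) : ℝ) / (Nat.cast 10 : ℝ)) * v)) :=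
    hk3.trans (by push_cast <;> ring)
  replace hk2 : k2 = ((Int.cast (8) : ℝ) + ((((Int.cast (7) : ℝ) / (Nat.cast 20 : ℝ)) + ((Int.cast
    (4) : ℝ) * r2)) * v)) := hk2.trans (by push_cast <;> ring)
  replace hk1 : k1 = ((Int.cast (-2) : ℝ) + ((((Int.cast (1) : ℝ) / (Nat.cast 8 : ℝ)) + ((Int.cast
    (4) : ℝ) * r2)) * v)) := hk1.trans (by push_cast <;> ring)
  replace hB : B = (mK3 F P Q D Y W k3 k2 k1) := hB.trans (mK3_0 ..)
  replace hX : X = (((n0 + (n1 * v)) + (n2 * (v * v))) * ((((Int.cast (1) : ℝ) + (((Int.cast (1) :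
    ℝ) / (Nat.cast 10 : ℝ)) * v))⁻¹ * ((Int.cast (1) : ℝ) + (((Int.cast (1) : ℝ) / (Nat.cast 10 :
    ℝ)) * v))⁻¹) * ((Int.cast (1) : ℝ) + (((Int.cast (1) : ℝ) / (Nat.cast 10 : ℝ)) * v))⁻¹)) :=
    hX.trans (by push_cast <;> ring)
  have e0 : (B - (((((W * W) * (W * W)) * W) * (t * mu)) * (b + (y * X)))) = B - W ^ 5 * (t * mu) *
    (b + y * X) := by push_cast <;> ring
  subst hiF hr2 hb hn0 hj4 hn1 hn2 ht hx hmu hv hy hP hQ hp hW he hY hk3 hk2 hk1 hB hX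
  exact Eq.trans rfl e0

theorem l0 : ((-141287244169216 : ℤ) : ℝ) / 2 ^ 47 = -257 / 256 := by norm_num
theorem u0 : (-27 / 32 : ℝ) = ((-118747255799808 : ℤ) : ℝ) / 2 ^ 47 := by norm_num
theorem l1 : ((131941395333120 : ℤ) : ℝ) / 2 ^ 47 = 15 / 16 := by norm_num
theorem u1 : (137 / 128 : ℝ) = ((150633093005312 : ℤ) : ℝ) / 2 ^ 47 := by norm_num
theorem l2 : ((0 : ℤ) : ℝ) / 2 ^ 47 = 0 := by norm_num
theorem u2 : (8 : ℝ) = ((1125899906842624 : ℤ) : ℝ) / 2 ^ 47 := by norm_num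

theorem out0 (V2 : ∀ D F : ℝ, -257 / 256 ≤ D → D ≤ -27 / 32 → 15 / 16 ≤ F → F ≤ 137 / 128 → (fun s ↦
    outR prog 0 [D, F, s]) =O[nhdsWithin 0 (Set.Ioi 0)] fun s : ℝ ↦ s ^ 4) {D F s : ℝ} (a0 : -257 /
    256 ≤ D) (b0 : D ≤ -27 / 32) (a1 : 15 / 16 ≤ F) (b1 : F ≤ 137 / 128) (a2 : 0 ≤ s) (b2 : s ≤ 8)
    (p2 : 0 < s) : 0 < outR prog 0 [D, F, s] :=
  gd 0 (by decide) [D, F, s] (.cons ⟨l0.le.trans a0, b0.trans u0.le⟩ (.cons ⟨l1.le.trans a1,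
    b1.trans u1.le⟩ (.cons ⟨l2.le.trans a2, b2.trans u2.le⟩ (.nil)))) ⟨nofun, nofun, fun _ ↦ p2,
    trivial⟩ (List.forall_mem_nil _) (⟨fun _ ↦ allB_iff.2 fun _ _ ↦ trivial, fun y0 a0 b0 ↦ ⟨fun _ ↦
    allB_iff.2 fun _ _ ↦ trivial, fun y1 a1 b1 ↦ ⟨fun _ ↦ V2 y0 y1 (l0.ge.trans a0) (b0.trans u0.ge)
    (l1.ge.trans a1) (b1.trans u1.ge), fun _ _ _ ↦ trivial⟩⟩⟩) (nofun)

end Pool.Agent.Lib.MP_d6150d_an.S7cL
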