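import Pool.Agent.Lib.MP_d6150d_an.S7cMD

/-! A generated chart: the computations. -/

namespace Pool.Agent.Lib.MP_d6150d_an.S7cM

theorem k0 : chk C 0xddd1dd132ddd321dd1dd11dd1d13a3a22 [(0, 68719476736), (-141287244169216,
    -118747255799808), (131941395333120, 141287244169216), (0, 70368744177664)] = true := by
  decide +kernel

theorem k1 : chk C 0x8888ddd12dd313288dd3dd2132132 [(0, 68719476736), (-141287244169216,
    -118747255799808), (131941395333120, 141287244169216), (70368744177664, 140737488355328)] = true
    := by
  decide +kernel

theorem k2 : chk C 0x881 [(0, 68719476736), (-141287244169216, -118747255799808), (141287244169216,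
    150633093005312), (0, 140737488355328)] = true := by
  decide +kernel

end Pool.Agent.Lib.MP_d6150d_an.S7cM
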