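import Pool.Agent.Lib.MP_d6150d_an.S7cRD

/-! A generated chart: the computations. -/

namespace Pool.Agent.Lib.MP_d6150d_an.S7cR

theorem k0 : chk C 0x8828821882888021882882100 [(-141287244169216, -118747255799808),
    (131941395333120, 141287244169216), (0, 13194139533312)] = true := by
  decide +kernel

theorem k1 : chk C 0x88288218828821882882100 [(-141287244169216, -118747255799808),
    (141287244169216, 150633093005312), (0, 13194139533312)] = true := by
  decide +kernel

end Pool.Agent.Lib.MP_d6150d_an.S7cR
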