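import Pool.Agent.Lib.MP_d6150d_an.S7cRD

/-! A generated chart: the computations. -/

namespace Pool.Agent.Lib.MP_d6150d_an.S7cR

theorem k2 : chk C 0x8808818880101 [(-141287244169216, -118747255799808), (131941395333120,
    150633093005312), (13194139533312, 26388279066624)] = true := by
  decide +kernel

theorem k3 : chk C 0x881888010 [(-141287244169216, -118747255799808), (131941395333120,
    150633093005312), (26388279066624, 52776558133248)] = true := by
  decide +kernel

theorem k4 : chk C 0x882882188828010 [(-141287244169216, -118747255799808), (131941395333120,
    150633093005312), (52776558133248, 105553116266496)] = true := by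
  decide +kernel

end Pool.Agent.Lib.MP_d6150d_an.S7cR
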