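import Pool.Agent.Lib.MP_d6150d_an.S7cRD

/-! A generated chart: the computations. -/

namespace Pool.Agent.Lib.MP_d6150d_an.S7cR

theorem k5 : chk C 0x8880188801088088018880102 [(-141287244169216, -118747255799808),
    (131941395333120, 150633093005312), (105553116266496, 211106232532992)] = true := by
  decide +kernel

theorem k6 : chk C 0x880880188088010888018880102 [(-141287244169216, -118747255799808),
    (131941395333120, 150633093005312), (211106232532992, 316659348799488)] = true := by
  decide +kernel

end Pool.Agent.Lib.MP_d6150d_an.S7cR
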