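import Pool.Agent.Lib.MP_d6150d_an.S7cRD

/-! A generated chart: the computations. -/

namespace Pool.Agent.Lib.MP_d6150d_an.S7cR

theorem k7 : chk C 0x88088018808881010 [(-141287244169216, -118747255799808), (131941395333120,
    150633093005312), (316659348799488, 369435906932736)] = true := by
  decide +kernel

theorem k8 : chk C 0x8808801881881881100 [(-141287244169216, -118747255799808), (131941395333120,
    150633093005312), (369435906932736, 395824185999360)] = true := by
  decide +kernel

theorem k9 : chk C 0x880880188811880880100 [(-141287244169216, -118747255799808), (131941395333120,
    150633093005312), (395824185999360, 422212465065984)] = true := by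
  decide +kernel

end Pool.Agent.Lib.MP_d6150d_an.S7cR
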