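import Pool.Agent.Lib.MP_d6150d_an.S7cTD

/-! A generated chart: the computations. -/

namespace Pool.Agent.Lib.MP_d6150d_an.S7cT

theorem k0 : chk C 0x883880821880882128880188123 [(0, 30786325577728), (131941395333120,
    150633093005312), (0, 29686813949952), (0, 83562883710976)] = true := by
  decide +kernel

end Pool.Agent.Lib.MP_d6150d_an.S7cT
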