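import Pool.Agent.Lib.MP_d6150d_an.S7cTD

/-! A generated chart: the computations. -/

namespace Pool.Agent.Lib.MP_d6150d_an.S7cT

theorem k3 : chk C 0x88388028828823188083881882310 [(0, 30786325577728), (131941395333120,
    150633093005312), (14843406974976, 29686813949952), (125344325566464, 167125767421952)] = true
    := by
  decide +kernel

end Pool.Agent.Lib.MP_d6150d_an.S7cT
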