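import Pool.Agent.Lib.MP_d6150d_an.GMac
import Pool.Agent.Lib.MP_d6150d_an.S7cTK0
import Pool.Agent.Lib.MP_d6150d_an.S7cTK1
import Pool.Agent.Lib.MP_d6150d_an.S7cTK2

/-! A generated chart: the inequality. -/

namespace Pool.Agent.Lib.MP_d6150d_an.S7cT

set_option linter.unnecessarySeqFocus false
set_option linter.unusedTactic false
set_option linter.unusedVariables false

theorem gd : Gd C [(0, 30786325577728), (131941395333120, 150633093005312), (0, 29686813949952), (0,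
    167125767421952)] := .split 3 (chk_sound k0) (.split 3 (chk_sound k1) (.split 2 (chk_sound k2)
    (chk_sound k3)))

set_option maxRecDepth 100000 in
theorem eq {g F n s D r P iF r2 b n0 j4 n1 n2 jF z a W G N Z M A B T U V H L : ℝ} (hD : D = n * (1 -
    s) - 1) (hr : r = n * s) (hP : P = 1 - s) (hiF : iF = F⁻¹) (hr2 : r2 = 207 / 100 * F - 3591 /
    2000) (hb : b = (1 / 80 + r2) * iF) (hn0 : n0 = (-(1 - F - 2 * D)) / 3 - b) (hj4 : j4 = (4 - 57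
    * F - 6 * D + 156 * F ^ 2 + 102 * D * F - 60 * D ^ 2 - 103 * F ^ 3 - 312 * D * F ^ 2 - 480 * D ^
    2 * F - 320 * D ^ 3) / 90) (hn1 : n1 = j4 + (3 / 80 + r2) * (1 - F - 2 * D) / 2 + 3 / 10 * n0)
    (hn2 : n2 = -2 / 125 + 233 / 10000 * D + 137 / 2500 * F) (hjF : jF = (2 * F - 1)⁻¹) (hz : z = r
    - (2 * F - 2) * g) (ha : a = s * z) (hW : W = (1 - r) * (P - D * s)) (hG : G = 2 * D * r - (1 +
    2 * D)) (hN : N = 2 * F * D * g - D * r - (1 + 2 * D) * (1 - 2 * F * z) * jF - P * n * z) (hZ :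
    Z = W + s * N) (hM : M = Z * iF) (hA : A = Z * (Z * G)) (hB : B = F * W * N) (hT : T = A - Z *
    B) (hU : U = (T - Z * B) * (2 * Z * (s * G) - F * W * (s * N + Z)) + Z ^ 3 * (G * (s * G - W) -
    2 * D * r * W) + F * W * Z * T) (hV : V = 3 * A * (Z * G) - (5 * F + 1) * A * (N * W) + (3 * F *
    Z - (1 - F) * W) * (B * (N * W))) (hH : H = U + (-3) * F * W ^ 2 * T) (hL : L = M * (1 / 80 * (s
    * V - 2 * Z ^ 3 * (D * r) * W) + (F * (1 / 40 + r2) - 1 / 80) * W ^ 2 * (A - s * N * B)) + a *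
    H) : outR prog 0 [g, F, n, s] = L ∧ outR prog 1 [g, F, n, s] = (a + 1 / 10 * M) ^ 3 * L - F ^ 3
    * W ^ 5 * M * (1 / 16 * z) * (n0 * a ^ 2 + n1 * a * M + n2 * M ^ 2) := by
  replace hD : D = ((n * ((Int.cast (1) : ℝ) - s)) - (Int.cast (1) : ℝ)) := hD.trans (by push_cast
    <;> ring)
  replace hr : r = (n * s) := hr.trans (by push_cast <;> ring)
  replace hP : P = ((Int.cast (1) : ℝ) - s) := hP.trans (by push_cast <;> ring)
  replace hiF : iF = F⁻¹ := hiF.trans (by push_cast <;> ring)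
  replace hr2 : r2 = ((((Int.cast (207) : ℝ) / (Nat.cast 100 : ℝ)) * F) - ((Int.cast (3591) : ℝ) /
    (Nat.cast 2000 : ℝ))) := hr2.trans (by push_cast <;> ring)
  replace hb : b = ((((Int.cast (1) : ℝ) / (Nat.cast 80 : ℝ)) + r2) * iF) := hb.trans (by push_cast
    <;> ring)
  replace hn0 : n0 = ((((Int.cast (1) : ℝ) / (Nat.cast 3 : ℝ)) * ((Int.cast (-1) : ℝ) * (((Int.cast
    (1) : ℝ) - F) - ((Int.cast (2) : ℝ) * D)))) - b) := hn0.trans (by push_cast <;> ring)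
  replace hj4 : j4 = (((Int.cast (1) : ℝ) / (Nat.cast 90 : ℝ)) * ((((((((((Int.cast (4) : ℝ) -
    ((Int.cast (57) : ℝ) * F)) - ((Int.cast (6) : ℝ) * D)) + ((Int.cast (156) : ℝ) * (F * F))) +
    (((Int.cast (102) : ℝ) * D) * F)) - ((Int.cast (60) : ℝ) * (D * D))) - ((Int.cast (103) : ℝ) *
    ((F * F) * F))) - (((Int.cast (312) : ℝ) * D) * (F * F))) - (((Int.cast (480) : ℝ) * (D * D)) *
    F)) - ((Int.cast (320) : ℝ) * ((D * D) * D)))) := hj4.trans (by push_cast <;> ring)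
  replace hn1 : n1 = ((j4 + (((Int.cast (1) : ℝ) / (Nat.cast 2 : ℝ)) * ((((Int.cast (3) : ℝ) /
    (Nat.cast 80 : ℝ)) + r2) * (((Int.cast (1) : ℝ) - F) - ((Int.cast (2) : ℝ) * D))))) +
    (((Int.cast (3) : ℝ) / (Nat.cast 10 : ℝ)) * n0)) := hn1.trans (by push_cast <;> ring)
  replace hn2 : n2 = ((((Int.cast (-2) : ℝ) / (Nat.cast 125 : ℝ)) + (((Int.cast (233) : ℝ) /
    (Nat.cast 10000 : ℝ)) * D)) + (((Int.cast (137) : ℝ) / (Nat.cast 2500 : ℝ)) * F)) := hn2.trans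
    (by push_cast <;> ring)
  replace hjF : jF = (((Int.cast (2) : ℝ) * F) - (Int.cast (1) : ℝ))⁻¹ := hjF.trans (by push_cast
    <;> ring)
  replace hz : z = (r - ((((Int.cast (2) : ℝ) * F) - (Int.cast (2) : ℝ)) * g)) := hz.trans (by
    push_cast <;> ring)
  replace ha : a = (s * z) := ha.trans (by push_cast <;> ring)
  replace hW : W = (((Int.cast (1) : ℝ) - r) * (P - (D * s))) := hW.trans (by push_cast <;> ring)
  replace hG : G = ((((Int.cast (2) : ℝ) * D) * r) - ((Int.cast (1) : ℝ) + ((Int.cast (2) : ℝ) *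
    D))) := hG.trans (by push_cast <;> ring)
  replace hN : N = (((((((Int.cast (2) : ℝ) * F) * D) * g) - (D * r)) - ((((Int.cast (1) : ℝ) +
    ((Int.cast (2) : ℝ) * D)) * ((Int.cast (1) : ℝ) - (((Int.cast (2) : ℝ) * F) * z))) * jF)) - ((P
    * n) * z)) := hN.trans (by push_cast <;> ring)
  replace hZ : Z = (W + (s * N)) := hZ.trans (by push_cast <;> ring)
  replace hM : M = (Z * iF) := hM.trans (by push_cast <;> ring)
  replace hA : A = (Z * (Z * G)) := hA.trans (by push_cast <;> ring)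
  replace hB : B = ((F * W) * N) := hB.trans (by push_cast <;> ring)
  replace hT : T = (A - (Z * B)) := hT.trans (by push_cast <;> ring)
  replace hU : U = ((((T - (Z * B)) * ((((Int.cast (2) : ℝ) * Z) * (s * G)) - ((F * W) * ((s * N) +
    Z)))) + (((Z * Z) * Z) * ((G * ((s * G) - W)) - ((((Int.cast (2) : ℝ) * D) * r) * W)))) + (((F *
    W) * Z) * T)) := hU.trans (by push_cast <;> ring)
  replace hV : V = (((((Int.cast (3) : ℝ) * A) * (Z * G)) - (((((Int.cast (5) : ℝ) * F) + (Int.cast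
    (1) : ℝ)) * A) * (N * W))) + (((((Int.cast (3) : ℝ) * F) * Z) - (((Int.cast (1) : ℝ) - F) * W))
    * (B * (N * W)))) := hV.trans (by push_cast <;> ring)
  replace hH : H = (U + ((((Int.cast (-3) : ℝ) * F) * (W * W)) * T)) := hH.trans (by push_cast <;>
    ring)
  replace hL : L = ((M * ((((Int.cast (1) : ℝ) / (Nat.cast 80 : ℝ)) * ((s * V) - ((((Int.cast (2) :
    ℝ) * ((Z * Z) * Z)) * (D * r)) * W))) + ((((F * (((Int.cast (1) : ℝ) / (Nat.cast 40 : ℝ)) + r2))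
    - ((Int.cast (1) : ℝ) / (Nat.cast 80 : ℝ))) * (W * W)) * (A - ((s * N) * B))))) + (a * H)) :=
    hL.trans (by push_cast <;> ring)
  have e1 : (((((a + (((Int.cast (1) : ℝ) / (Nat.cast 10 : ℝ)) * M)) * (a + (((Int.cast (1) : ℝ) /
    (Nat.cast 10 : ℝ)) * M))) * (a + (((Int.cast (1) : ℝ) / (Nat.cast 10 : ℝ)) * M))) * L) - ((((((F
    * F) * F) * (((W * W) * (W * W)) * W)) * M) * (((Int.cast (1) : ℝ) / (Nat.cast 16 : ℝ)) * z)) *
    (((n0 * (a * a)) + ((n1 * a) * M)) + (n2 * (M * M))))) = (a + 1 / 10 * M) ^ 3 * L - F ^ 3 * W ^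
    5 * M * (1 / 16 * z) * (n0 * a ^ 2 + n1 * a * M + n2 * M ^ 2) := by push_cast <;> ring
  subst hD hr hP hiF hr2 hb hn0 hj4 hn1 hn2 hjF hz ha hW hG hN hZ hM hA hB hT hU hV hH hL
  exact ⟨rfl, Eq.trans rfl e1⟩

theorem l0 : ((0 : ℤ) : ℝ) / 2 ^ 47 = 0 := by norm_num
theorem u0 : (7 / 32 : ℝ) = ((30786325577728 : ℤ) : ℝ) / 2 ^ 47 := by norm_num
theorem l1 : ((131941395333120 : ℤ) : ℝ) / 2 ^ 47 = 15 / 16 := by norm_num
theorem u1 : (137 / 128 : ℝ) = ((150633093005312 : ℤ) : ℝ) / 2 ^ 47 := by norm_num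
theorem l2 : ((0 : ℤ) : ℝ) / 2 ^ 47 = 0 := by norm_num
theorem u2 : (27 / 128 : ℝ) = ((29686813949952 : ℤ) : ℝ) / 2 ^ 47 := by norm_num
theorem l3 : ((0 : ℤ) : ℝ) / 2 ^ 47 = 0 := by norm_num
theorem u3 : (19 / 16 : ℝ) = ((167125767421952 : ℤ) : ℝ) / 2 ^ 47 := by norm_num

theorem out0 {g F n s : ℝ} (a0 : 0 ≤ g) (b0 : g ≤ 7 / 32) (a1 : 15 / 16 ≤ F) (b1 : F ≤ 137 / 128)
    (a2 : 0 ≤ n) (b2 : n ≤ 27 / 128) (a3 : 0 ≤ s) (b3 : s ≤ 19 / 16) : 0 < outR prog 0 [g, F, n, s]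
    :=
  gd 0 (by decide) [g, F, n, s] (.cons ⟨l0.le.trans a0, b0.trans u0.le⟩ (.cons ⟨l1.le.trans a1,
    b1.trans u1.le⟩ (.cons ⟨l2.le.trans a2, b2.trans u2.le⟩ (.cons ⟨l3.le.trans a3, b3.trans u3.le⟩
    (.nil))))) ⟨nofun, nofun, nofun, nofun, trivial⟩ (List.forall_mem_nil _) (Van.of0 rfl) (nofun)

theorem pos0 {g F n s D r P iF r2 b n0 j4 n1 n2 jF z a W G N Z M A B T U V H L : ℝ} (hD : D = n * (1
    - s) - 1) (hr : r = n * s) (hP : P = 1 - s) (hiF : iF = F⁻¹) (hr2 : r2 = 207 / 100 * F - 3591 /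
    2000) (hb : b = (1 / 80 + r2) * iF) (hn0 : n0 = (-(1 - F - 2 * D)) / 3 - b) (hj4 : j4 = (4 - 57
    * F - 6 * D + 156 * F ^ 2 + 102 * D * F - 60 * D ^ 2 - 103 * F ^ 3 - 312 * D * F ^ 2 - 480 * D ^
    2 * F - 320 * D ^ 3) / 90) (hn1 : n1 = j4 + (3 / 80 + r2) * (1 - F - 2 * D) / 2 + 3 / 10 * n0)
    (hn2 : n2 = -2 / 125 + 233 / 10000 * D + 137 / 2500 * F) (hjF : jF = (2 * F - 1)⁻¹) (hz : z = r
    - (2 * F - 2) * g) (ha : a = s * z) (hW : W = (1 - r) * (P - D * s)) (hG : G = 2 * D * r - (1 +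
    2 * D)) (hN : N = 2 * F * D * g - D * r - (1 + 2 * D) * (1 - 2 * F * z) * jF - P * n * z) (hZ :
    Z = W + s * N) (hM : M = Z * iF) (hA : A = Z * (Z * G)) (hB : B = F * W * N) (hT : T = A - Z *
    B) (hU : U = (T - Z * B) * (2 * Z * (s * G) - F * W * (s * N + Z)) + Z ^ 3 * (G * (s * G - W) -
    2 * D * r * W) + F * W * Z * T) (hV : V = 3 * A * (Z * G) - (5 * F + 1) * A * (N * W) + (3 * F *
    Z - (1 - F) * W) * (B * (N * W))) (hH : H = U + (-3) * F * W ^ 2 * T) (hL : L = M * (1 / 80 * (s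
    * V - 2 * Z ^ 3 * (D * r) * W) + (F * (1 / 40 + r2) - 1 / 80) * W ^ 2 * (A - s * N * B)) + a *
    H) (a0 : 0 ≤ g) (b0 : g ≤ 7 / 32) (a1 : 15 / 16 ≤ F) (b1 : F ≤ 137 / 128) (a2 : 0 ≤ n) (b2 : n ≤
    27 / 128) (a3 : 0 ≤ s) (b3 : s ≤ 19 / 16) : 0 < L :=
  have e := eq hD hr hP hiF hr2 hb hn0 hj4 hn1 hn2 hjF hz ha hW hG hN hZ hM hA hB hT hU hV hH hL
  (out0 a0 b0 a1 b1 a2 b2 a3 b3).trans_eq e.1

theorem out1 {g F n s : ℝ} (a0 : 0 ≤ g) (b0 : g ≤ 7 / 32) (a1 : 15 / 16 ≤ F) (b1 : F ≤ 137 / 128)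
    (a2 : 0 ≤ n) (b2 : n ≤ 27 / 128) (a3 : 0 ≤ s) (b3 : s ≤ 19 / 16) : 0 < outR prog 1 [g, F, n, s]
    :=
  gd 1 (by decide) [g, F, n, s] (.cons ⟨l0.le.trans a0, b0.trans u0.le⟩ (.cons ⟨l1.le.trans a1,
    b1.trans u1.le⟩ (.cons ⟨l2.le.trans a2, b2.trans u2.le⟩ (.cons ⟨l3.le.trans a3, b3.trans u3.le⟩
    (.nil))))) ⟨nofun, nofun, nofun, nofun, trivial⟩ (List.forall_mem_nil _) (Van.of0 rfl) (nofun)

theorem pos1 {g F n s D r P iF r2 b n0 j4 n1 n2 jF z a W G N Z M A B T U V H L : ℝ} (hD : D = n * (1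
    - s) - 1) (hr : r = n * s) (hP : P = 1 - s) (hiF : iF = F⁻¹) (hr2 : r2 = 207 / 100 * F - 3591 /
    2000) (hb : b = (1 / 80 + r2) * iF) (hn0 : n0 = (-(1 - F - 2 * D)) / 3 - b) (hj4 : j4 = (4 - 57
    * F - 6 * D + 156 * F ^ 2 + 102 * D * F - 60 * D ^ 2 - 103 * F ^ 3 - 312 * D * F ^ 2 - 480 * D ^
    2 * F - 320 * D ^ 3) / 90) (hn1 : n1 = j4 + (3 / 80 + r2) * (1 - F - 2 * D) / 2 + 3 / 10 * n0)
    (hn2 : n2 = -2 / 125 + 233 / 10000 * D + 137 / 2500 * F) (hjF : jF = (2 * F - 1)⁻¹) (hz : z = r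
    - (2 * F - 2) * g) (ha : a = s * z) (hW : W = (1 - r) * (P - D * s)) (hG : G = 2 * D * r - (1 +
    2 * D)) (hN : N = 2 * F * D * g - D * r - (1 + 2 * D) * (1 - 2 * F * z) * jF - P * n * z) (hZ :
    Z = W + s * N) (hM : M = Z * iF) (hA : A = Z * (Z * G)) (hB : B = F * W * N) (hT : T = A - Z *
    B) (hU : U = (T - Z * B) * (2 * Z * (s * G) - F * W * (s * N + Z)) + Z ^ 3 * (G * (s * G - W) -
    2 * D * r * W) + F * W * Z * T) (hV : V = 3 * A * (Z * G) - (5 * F + 1) * A * (N * W) + (3 * F *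
    Z - (1 - F) * W) * (B * (N * W))) (hH : H = U + (-3) * F * W ^ 2 * T) (hL : L = M * (1 / 80 * (s
    * V - 2 * Z ^ 3 * (D * r) * W) + (F * (1 / 40 + r2) - 1 / 80) * W ^ 2 * (A - s * N * B)) + a *
    H) (a0 : 0 ≤ g) (b0 : g ≤ 7 / 32) (a1 : 15 / 16 ≤ F) (b1 : F ≤ 137 / 128) (a2 : 0 ≤ n) (b2 : n ≤
    27 / 128) (a3 : 0 ≤ s) (b3 : s ≤ 19 / 16) : 0 < (a + 1 / 10 * M) ^ 3 * L - F ^ 3 * W ^ 5 * M *
    (1 / 16 * z) * (n0 * a ^ 2 + n1 * a * M + n2 * M ^ 2) :=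
  have e := eq hD hr hP hiF hr2 hb hn0 hj4 hn1 hn2 hjF hz ha hW hG hN hZ hM hA hB hT hU hV hH hL
  (out1 a0 b0 a1 b1 a2 b2 a3 b3).trans_eq e.2

end Pool.Agent.Lib.MP_d6150d_an.S7cT
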