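import Pool.Agent.Lib.MP_d6150d_an.Blue
import Pool.Agent.Lib.MP_d6150d_an.S7B
import Pool.Agent.Lib.MP_d6150d_an.S7bR
import Pool.Agent.Lib.MP_d6150d_an.S7bL
import Pool.Agent.Lib.MP_d6150d_an.S7bM
import Pool.Agent.Lib.MP_d6150d_an.S7bT
import Pool.Agent.Lib.MP_d6150d_an.S7cR
import Pool.Agent.Lib.MP_d6150d_an.S7cL
import Pool.Agent.Lib.MP_d6150d_an.S7cM
import Pool.Agent.Lib.MP_d6150d_an.S7cT

/-! The strip `F` near `1`, `D ≤ -1 / 2`. -/

namespace Pool.Agent.Lib.MP_d6150d_an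

open Real Set

namespace S7

variable {D F t : ℝ}

/-- the coefficients for the larger values of `D` -/
noncomputable def kb (D F : ℝ) : Co where
  q1 := 309 / 200
  r1 := -4027 / 500 + 9 / 5 * D
  q2 := 1
  r2 := F⁻¹ - 2
  b := (1 + (F⁻¹ - 2)) * F⁻¹
  c := 1 / 5
  n0 := (927 / 200 + (-4027 / 500 + 9 / 5 * D)) * (1 - F - 2 * D) / 3 - (1 + (F⁻¹ - 2)) * F⁻¹
  n1 := -4443 / 10000 - 2973 / 10000 * D + 366 / 625 * F
  n2 := -67 / 5000 - 677 / 5000 * D - 531 / 10000 * F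

/-- the coefficients for `D` near `-1` -/
noncomputable def kc (D F : ℝ) : Co where
  q1 := 1
  r1 := -4
  q2 := 1 / 80
  r2 := 207 / 100 * F - 3591 / 2000
  b := (1 / 80 + (207 / 100 * F - 3591 / 2000)) * F⁻¹
  c := 1 / 10
  n0 := (-(1 - F - 2 * D)) / 3 - (1 / 80 + (207 / 100 * F - 3591 / 2000)) * F⁻¹
  n1 := (4 - 57 * F - 6 * D + 156 * F ^ 2 + 102 * D * F - 60 * D ^ 2 - 103 * F ^ 3 -
    312 * D * F ^ 2 - 480 * D ^ 2 * F - 320 * D ^ 3) / 90 +
      (3 / 80 + (207 / 100 * F - 3591 / 2000)) * (1 - F - 2 * D) / 2 +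
      3 / 10 * ((-(1 - F - 2 * D)) / 3 - (1 / 80 + (207 / 100 * F - 3591 / 2000)) * F⁻¹)
  n2 := -2 / 125 + 233 / 10000 * D + 137 / 2500 * F

theorem hb_b (hF : F ≠ 0) : F * (kb D F).b = (kb D F).q2 + (kb D F).r2 := by
  simp only [kb]; field_simp

theorem hb_c (hF : F ≠ 0) : F * (kc D F).b = (kc D F).q2 + (kc D F).r2 := by
  simp only [kc]; field_simp

theorem hc_b : 0 ≤ (kb D F).c := by simp only [kb]; norm_num

theorem hc_c : 0 ≤ (kc D F).c := by simp only [kc]; norm_num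

theorem Ob : (kb D F).De D F =O[nhds 0] fun t ↦ t ^ (2 + 3) :=
  Co.O5 hc_b (by simp only [kb, ja2]; ring)

theorem Oc : (kc D F).De D F =O[nhds 0] fun t ↦ t ^ (4 + 3) :=
  Co.O7 hc_c (by simp only [kc, ja2]; ring) (by simp only [kc]; ring)
    (by simp only [kc, ja2, ja4]; ring)

theorem bR (D F t : ℝ) : outR S7bR.prog 0 [D, F, t] = (kb D F).GR D F t :=
  S7bR.eq rfl rfl rfl rfl rfl rfl rfl rfl rfl rfl rfl rfl rfl rfl rfl rfl rfl rfl rfl rfl
    (by simp only [Co.B, kb]; ring) rfl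

theorem bL (D F s : ℝ) : outR S7bL.prog 0 [D, F, s] = (kb D F).GM D F (-s) :=
  S7bL.eq rfl rfl rfl rfl rfl rfl rfl rfl rfl rfl rfl rfl rfl rfl rfl rfl rfl rfl rfl rfl rfl
    (by simp only [Co.B, kb]; ring) rfl

theorem cR (D F t : ℝ) : outR S7cR.prog 0 [D, F, t] = (kc D F).GR D F t :=
  S7cR.eq rfl rfl rfl rfl rfl rfl rfl rfl rfl rfl rfl rfl rfl rfl rfl rfl rfl rfl rfl rfl
    (by simp only [Co.B, kc]; ring) rfl

theorem cL (D F s : ℝ) : outR S7cL.prog 0 [D, F, s] = (kc D F).GM D F (-s) :=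
  S7cL.eq rfl rfl rfl rfl rfl rfl rfl rfl rfl rfl rfl rfl rfl rfl rfl rfl rfl rfl rfl rfl rfl
    (by simp only [Co.B, kc]; ring) rfl

theorem cellb (a0 : -27 / 32 ≤ D) (b0 : D ≤ -1 / 2) (a1 : 15 / 16 ≤ F) (b1 : F ≤ 137 / 128) :
    NoThree D F := by
  have F0 : F ≠ 0 := by linarith
  refine (kb D F).noThree (by simp only [kb]; norm_num) (by simp only [kb]; norm_num)
    (fun t ht h0 ↦ ?_) fun _ _ t ht _ h0 _ ↦ ?_
  · rcases le_total t (-8) with h8 | h8
    · exact Co.coreM (by linarith) (hb_b F0) hc_b ht h8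
        fun x g i a W Y x0 x1 g0 g1 hi ha p0 hW hY ↦ ⟨S7bM.pos0 rfl hi ha rfl rfl rfl rfl rfl rfl
          rfl rfl rfl rfl hW hY rfl rfl rfl rfl (by simp only [Co.B, kb]; ring) x0 x1 a0 b0 a1 b1
          g0 g1 p0, S7bM.pos1 rfl hi ha rfl rfl rfl rfl rfl rfl rfl rfl rfl rfl hW hY rfl rfl rfl
          rfl rfl x0 x1 a0 b0 a1 b1 g0 g1 p0⟩
    · refine Co.negL F0 (hb_b F0) ht h0 ?_
      have := S7bL.out0 (fun D F _ _ h _ ↦ by
        have F0 : F ≠ 0 := by linarith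
        simpa only [bL] using Co.OL even_two F0 (hb_b F0) Ob) (s := -t) a0 b0 a1 b1
        (by linarith) (by linarith) (by linarith)
      rwa [bL, neg_neg] at this
  · rcases le_total t 3 with h3 | h3
    · refine Co.posR F0 (hb_b F0) ht h0 ?_
      rw [← bR]
      exact S7bR.out0 (fun D F _ _ h _ ↦ by
        have F0 : F ≠ 0 := by linarith
        simpa only [bR] using Co.OR F0 (hb_b F0) Ob) a0 b0 a1 b1 h0.le h3 h0
    · have r0 := exp_pos (-t)
      have r1 : exp (-t) ≤ 13 / 256 := exp_neg_le 48 (by push_cast; linarith) (by norm_num)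
      refine Co.coreT a1 (hb_b F0) hc_b ht h3 rfl one_pos (one_mul _).symm (one_mul _)
        fun g z a W G N Z M A B T U V g0 g1 hz hz' ha hW hG hN hZ hM hA hB hT hU hV ↦ ?_
      rw [mul_one] at hN
      refine ⟨_, exp (-((3 * F - 2) * t)), 3 / 32, 1, _, r0, ?_, ?_, (exp_pos _).le,
        exp_neg_le 39 (by push_cast; nlinarith) (by norm_num),
        S7bT.pos0 rfl rfl rfl rfl rfl rfl rfl rfl rfl hz ha hW hG hN hZ hM hA hB hT hU hV rfl rfl
          g0 g1 a0 b0 a1 b1 r0.le r1, ?_⟩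
      · simp only [kb]
        linear_combination M * W ^ 2 * (A - exp (-t) * N * B) * mul_inv_cancel₀ F0 +
          (309 / 200 * U + (309 / 200 + (-4027 / 500 + 9 / 5 * D)) * F * W ^ 2 * T) * ha
      · rw [hz', mul_one, mul_left_comm, ← exp_add]; ring_nf
      · rw [mul_one]
        exact S7bT.pos1 rfl rfl rfl rfl rfl rfl rfl rfl rfl hz ha hW hG hN hZ hM hA hB hT hU hV
          rfl rfl g0 g1 a0 b0 a1 b1 r0.le r1

theorem cellc (b0 : D ≤ -27 / 32) (a1 : 15 / 16 ≤ F) (hF : F ≤ 107 / 100)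
    (hD : -1 ≤ D ∨ (1 ≤ F ∧ -1 - (F - 1) ^ 2 / 2 ≤ D)) : NoThree D F := by
  have F0 : F ≠ 0 := by linarith
  have b1 : F ≤ 137 / 128 := by linarith
  have a0 : -257 / 256 ≤ D := by
    rcases hD with h | h
    · linarith
    · nlinarith [h.1, h.2]
  refine (kc D F).noThree (by simp only [kc]; norm_num) (by simp only [kc]; norm_num)
    (fun t ht h0 ↦ ?_) fun a' _ t ht ha' h0 e ↦ ?_
  · rcases le_total t (-8) with h8 | h8
    · exact Co.coreM (by linarith) (hb_c F0) hc_c ht h8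
        fun x g i a W Y x0 x1 g0 g1 hi ha p0 hW hY ↦ ⟨S7cM.pos0 rfl hi ha rfl rfl rfl rfl rfl rfl
          rfl rfl rfl rfl hW hY rfl rfl rfl rfl (by simp only [Co.B, kc]; ring) x0 x1 a0 b0 a1 b1
          g0 g1 p0, S7cM.pos1 rfl hi ha rfl rfl rfl rfl rfl rfl rfl rfl rfl rfl hW hY rfl rfl rfl
          rfl rfl x0 x1 a0 b0 a1 b1 g0 g1 p0⟩
    · refine Co.negL F0 (hb_c F0) ht h0 ?_
      have := S7cL.out0 (fun D F _ _ h _ ↦ by
        have F0 : F ≠ 0 := by linarith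
        simpa only [cL] using Co.OL (by decide) F0 (hb_c F0) Oc) (s := -t) a0 b0 a1 b1
        (by linarith) (by linarith) (by linarith)
      rwa [cL, neg_neg] at this
  · rcases le_total t 3 with h3 | h3
    · refine Co.posR F0 (hb_c F0) ht h0 ?_
      rw [← cR]
      exact S7cR.out0 (fun D F _ _ h _ ↦ by
        have F0 : F ≠ 0 := by linarith
        simpa only [cR] using Co.OR F0 (hb_c F0) Oc) a0 b0 a1 b1 h0.le h3 h0
    · have r0 := exp_pos (-t)
      have r1 : exp (-t) ≤ 13 / 256 := exp_neg_le 48 (by push_cast; linarith) (by norm_num)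
      have r2 : 19 * -(1 + D) ≤ 3 * exp (-t) := by
        by_cases h : -1 ≤ D
        · linarith
        · exact lev (hD.resolve_left h).1 hF (not_le.1 h) (hD.resolve_left h).2 ha' ht h3 e
      have n0 : 0 < exp (-t) + (1 + D) := by linarith
      have hs : exp (-t) = (exp (-t) + (1 + D)) * (exp (-t) / (exp (-t) + (1 + D))) := by
        field_simp
      have s0 := (div_pos r0 n0).le
      have s1 : exp (-t) / (exp (-t) + (1 + D)) ≤ 19 / 16 := (div_le_iff₀ n0).2 (by linarith)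
      generalize exp (-t) / (exp (-t) + (1 + D)) = s at hs s0 s1
      have hP : (exp (-t) + (1 + D)) * (1 - s) = 1 + D := by linarith
      refine Co.coreT a1 (hb_c F0) hc_c ht h3 rfl n0 hs hP
        fun g z a W G N Z M A B T U V g0 g1 hz _ ha hW hG hN hZ hM hA hB hT hU hV ↦
          ⟨1, exp (-(F * t)), 1 / 16, z, _, one_pos, ?_, (one_mul _).symm, (exp_pos _).le,
            exp_neg_le 45 (by push_cast; nlinarith) (by norm_num),
            S7cT.pos0 (by linarith) hs rfl rfl rfl rfl rfl rfl rfl rfl rfl hz ha hW hG hN hZ hM hA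
              hB hT hU hV rfl rfl g0 g1 a1 b1 n0.le (by linarith) s0 s1,
            S7cT.pos1 (by linarith) hs rfl rfl rfl rfl rfl rfl rfl rfl rfl hz ha hW hG hN hZ hM hA
              hB hT hU hV rfl rfl g0 g1 a1 b1 n0.le (by linarith) s0 s1⟩
      simp only [kc]; ring

end S7

theorem S7_holds : St_S7 := fun D _ a1 b1 b0 h ↦ (le_total (-27 / 32) D).elim
  (fun a0 ↦ S7.cellb a0 b0 a1 (by linarith)) fun a0 ↦ S7.cellc a0 a1 b1 h

end Pool.Agent.Lib.MP_d6150d_an
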