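import Pool.Agent.Lib.MP_d6150d_an.S8C
import Pool.Agent.Lib.MP_d6150d_an.Blue

/-! The strip `S8` follows from the strip `S6`. -/

namespace Pool.Agent.Lib.MP_d6150d_an

open Real Set

namespace S8

variable {D : ℝ}

theorem exp_T (h : D < -1) : exp (log (D / (1 + D))) = D / (1 + D) :=
  exp_log (div_pos_of_neg_of_neg (by linarith) (by linarith))

theorem D_eq (h : D < -1) : D = -(1 - exp (-log (D / (1 + D))))⁻¹ := by
  have h1 : D ≠ 0 := by linarith
  have h2 : 1 + D ≠ 0 := by linarith
  rw [exp_neg, exp_T h]; field_simp; ring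

theorem le_T {c x : ℝ} (h : D < -1) (c0 : 0 ≤ c) (c1 : c ≤ 1)
    (k : 1 + c + c ^ 2 / 2 + c ^ 3 / 6 + c ^ 4 / 24 + c ^ 5 / 100 ≤ x) (l : D ≤ x * (1 + D)) :
    c ≤ log (D / (1 + D)) := by
  have := exp_bound' c0 c1 (n := 5) (by norm_num)
  norm_num [Finset.sum_range_succ, Nat.factorial] at this
  rw [← exp_le_exp, exp_T h, le_div_iff_of_neg (by linarith)]
  exact l.trans (mul_le_mul_of_nonpos_right (by linarith) (by linarith))

theorem T_le (h : D ≤ -21 / 16) : log (D / (1 + D)) ≤ 23 / 16 := by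
  have := sum_le_exp_of_nonneg (x := 23 / 16) (by norm_num) 7
  norm_num [Finset.sum_range_succ, Nat.factorial] at this
  rw [← exp_le_exp, exp_T (by linarith), div_le_iff_of_neg (by linarith)]
  nlinarith

end S8

open S8

theorem S8_of (S6 : St_S6) : St_S8 := fun D F h f0 f1 ↦ by
  obtain ⟨m0, m1⟩ := abs_le.1 h
  rcases le_total F (11 / 8) with k | k
  · exact N_holds (m := D + F) (by ring) f0 k (by linarith) m1
  have d0 : D < -1 := by linarith
  have C := C_holds (m := D + F) (F := F) (D_eq d0) (by ring)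
    (le_T (x := 17 / 9) d0 (by norm_num) (by norm_num) (by norm_num) (by linarith))
    (T_le (by linarith)) (by linarith) m1 k
  rcases le_total F (31 / 16) with k1 | k1
  · exact C (by linarith) (Or.inl ⟨le_T (x := 2) d0 (by norm_num) (by norm_num) (by norm_num)
      (by linarith), k1⟩)
  rcases le_total (-33 / 16) D with k2 | k2
  · exact S6 D F (Or.inl ⟨k2, d0.le, abs_le.2 ⟨by linarith, by linarith⟩⟩)
  · exact C (by linarith) (Or.inr ⟨by linarith, f1, k2⟩)

end Pool.Agent.Lib.MP_d6150d_an
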