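import Pool.Agent.Lib.MP_d6150d_an.U23xD

/-! A generated chart: the computations. -/

namespace Pool.Agent.Lib.MP_d6150d_an.U23x

theorem k0 : chk C 0x88888011188088818801110 [(0, 8796093022208), (1125899906842624,
    5910974510923776)] = true := by
  decide +kernel

theorem k1 : chk C 0x88800 [(0, 8796093022208), (5910974510923776, 10696049115004928)] = true := by
  decide +kernel

theorem k2 : chk C 0x8888000 [(0, 8796093022208), (10696049115004928, 20266198323167232)] = true :=
    by
  decide +kernel

end Pool.Agent.Lib.MP_d6150d_an.U23x
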