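import Pool.Agent.Lib.MP_d6150d_an.GEq
import Pool.Agent.Lib.MP_d6150d_an.GMac
import Pool.Agent.Lib.MP_d6150d_an.U23xK0

/-! A generated chart: the inequality. -/

namespace Pool.Agent.Lib.MP_d6150d_an.U23x

set_option linter.unnecessarySeqFocus false
set_option linter.unusedTactic false
set_option linter.unusedVariables false

theorem gd : Gd C [(0, 8796093022208), (1125899906842624, 20266198323167232)] := .split 1 (.split 1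
    (chk_sound k0) (chk_sound k1)) (chk_sound k2)

set_option maxRecDepth 100000 in
theorem eq {b t z1 cc z3 q u s : ℝ} (hz1 : z1 = ph1 (-(2 * b * t))) (hcc : cc = t * z1) (hz3 : z3 =
    Real.exp (-((1 / 2 - 5 * b) * t / 6))) (hq : q = cc * z3) (hu : u = Real.exp (-((1 / 2 - 5 * b)
    * t))) (hs : s = Real.exp (-t)) : outR prog 0 [b, t] = 65 / 512 * cc + b * cc ^ 2 / 4 - 1 ∧ outR
    prog 1 [b, t] = 3 / 128 - s * cc ^ 2 ∧ outR prog 2 [b, t] = 6 / 5 + 75 * b - u * cc ^ 2 ∧ outR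
    prog 3 [b, t] = ((1500 * cc + 80000) * (1 - b * cc) - q ^ 6 * cc) / 10000 := by
  replace hz1 : z1 = (ph1 ((Int.cast (-1) : ℝ) * (((Int.cast (2) : ℝ) * b) * t))) := hz1.trans
    (congrArg ph1 (by push_cast <;> ring))
  replace hcc : cc = (t * z1) := hcc.trans (by push_cast <;> ring)
  replace hz3 : z3 = (Real.exp ((Int.cast (-1) : ℝ) * (((Int.cast (1) : ℝ) / (Nat.cast 6 : ℝ)) *
    ((((Int.cast (1) : ℝ) / (Nat.cast 2 : ℝ)) - ((Int.cast (5) : ℝ) * b)) * t)))) := hz3.trans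
    (congrArg Real.exp (by push_cast <;> ring))
  replace hq : q = (cc * z3) := hq.trans (by push_cast <;> ring)
  replace hu : u = (Real.exp ((Int.cast (-1) : ℝ) * ((((Int.cast (1) : ℝ) / (Nat.cast 2 : ℝ)) -
    ((Int.cast (5) : ℝ) * b)) * t))) := hu.trans (congrArg Real.exp (by push_cast <;> ring))
  replace hs : s = (Real.exp ((Int.cast (-1) : ℝ) * t)) := hs.trans (congrArg Real.exp (by push_cast
    <;> ring))
  have e0 : (((((Int.cast (65) : ℝ) / (Nat.cast 512 : ℝ)) * cc) + (((Int.cast (1) : ℝ) / (Nat.cast 4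
    : ℝ)) * (b * (cc * cc)))) - (Int.cast (1) : ℝ)) = 65 / 512 * cc + b * cc ^ 2 / 4 - 1 := by
    push_cast <;> ring
  have e1 : (((Int.cast (3) : ℝ) / (Nat.cast 128 : ℝ)) - (s * (cc * cc))) = 3 / 128 - s * cc ^ 2 :=
    by push_cast <;> ring
  have e2 : ((((Int.cast (6) : ℝ) / (Nat.cast 5 : ℝ)) + ((Int.cast (75) : ℝ) * b)) - (u * (cc *
    cc))) = 6 / 5 + 75 * b - u * cc ^ 2 := by push_cast <;> ring
  have e3 : (((Int.cast (1) : ℝ) / (Nat.cast 10000 : ℝ)) * (((((Int.cast (1500) : ℝ) * cc) +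
    (Int.cast (80000) : ℝ)) * ((Int.cast (1) : ℝ) - (b * cc))) - ((((q * q) * q) * ((q * q) * q)) *
    cc))) = ((1500 * cc + 80000) * (1 - b * cc) - q ^ 6 * cc) / 10000 := by push_cast <;> ring
  subst hz1 hcc hz3 hq hu hs
  refine ⟨Eq.trans ?_ e0, Eq.trans ?_ e1, Eq.trans ?_ e2, Eq.trans ?_ e3⟩ <;>
    simp only [outR, prog, prog1, runR, stepR, gtR]

theorem l0 : ((0 : ℤ) : ℝ) / 2 ^ 47 = 0 := by norm_num
theorem u0 : (1 / 16 : ℝ) = ((8796093022208 : ℤ) : ℝ) / 2 ^ 47 := by norm_num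
theorem l1 : ((1125899906842624 : ℤ) : ℝ) / 2 ^ 47 = 8 := by norm_num
theorem u1 : (144 : ℝ) = ((20266198323167232 : ℤ) : ℝ) / 2 ^ 47 := by norm_num

theorem out0 {b t : ℝ} (a0 : 0 ≤ b) (b0 : b ≤ 1 / 16) (a1 : 8 ≤ t) (b1 : t ≤ 144) : 0 < outR prog 0
    [b, t] :=
  gd 0 (by decide) [b, t] (.cons ⟨l0.le.trans a0, b0.trans u0.le⟩ (.cons ⟨l1.le.trans a1, b1.trans
    u1.le⟩ (.nil))) ⟨nofun, nofun, trivial⟩ (List.forall_mem_nil _) (Van.of0 rfl) (nofun)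

theorem pos0 {b t z1 cc z3 q u s : ℝ} (hz1 : z1 = ph1 (-(2 * b * t))) (hcc : cc = t * z1) (hz3 : z3
    = Real.exp (-((1 / 2 - 5 * b) * t / 6))) (hq : q = cc * z3) (hu : u = Real.exp (-((1 / 2 - 5 *
    b) * t))) (hs : s = Real.exp (-t)) (a0 : 0 ≤ b) (b0 : b ≤ 1 / 16) (a1 : 8 ≤ t) (b1 : t ≤ 144) :
    0 < 65 / 512 * cc + b * cc ^ 2 / 4 - 1 :=
  have e := eq hz1 hcc hz3 hq hu hs
  (out0 a0 b0 a1 b1).trans_eq e.1

theorem out1 {b t : ℝ} (a0 : 0 ≤ b) (b0 : b ≤ 1 / 16) (a1 : 8 ≤ t) (b1 : t ≤ 144) : 0 < outR prog 1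
    [b, t] :=
  gd 1 (by decide) [b, t] (.cons ⟨l0.le.trans a0, b0.trans u0.le⟩ (.cons ⟨l1.le.trans a1, b1.trans
    u1.le⟩ (.nil))) ⟨nofun, nofun, trivial⟩ (List.forall_mem_nil _) (Van.of0 rfl) (nofun)

theorem pos1 {b t z1 cc z3 q u s : ℝ} (hz1 : z1 = ph1 (-(2 * b * t))) (hcc : cc = t * z1) (hz3 : z3
    = Real.exp (-((1 / 2 - 5 * b) * t / 6))) (hq : q = cc * z3) (hu : u = Real.exp (-((1 / 2 - 5 *
    b) * t))) (hs : s = Real.exp (-t)) (a0 : 0 ≤ b) (b0 : b ≤ 1 / 16) (a1 : 8 ≤ t) (b1 : t ≤ 144) :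
    0 < 3 / 128 - s * cc ^ 2 :=
  have e := eq hz1 hcc hz3 hq hu hs
  (out1 a0 b0 a1 b1).trans_eq e.2.1

theorem out2 {b t : ℝ} (a0 : 0 ≤ b) (b0 : b ≤ 1 / 16) (a1 : 8 ≤ t) (b1 : t ≤ 144) : 0 < outR prog 2
    [b, t] :=
  gd 2 (by decide) [b, t] (.cons ⟨l0.le.trans a0, b0.trans u0.le⟩ (.cons ⟨l1.le.trans a1, b1.trans
    u1.le⟩ (.nil))) ⟨nofun, nofun, trivial⟩ (List.forall_mem_nil _) (Van.of0 rfl) (nofun)

theorem pos2 {b t z1 cc z3 q u s : ℝ} (hz1 : z1 = ph1 (-(2 * b * t))) (hcc : cc = t * z1) (hz3 : z3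
    = Real.exp (-((1 / 2 - 5 * b) * t / 6))) (hq : q = cc * z3) (hu : u = Real.exp (-((1 / 2 - 5 *
    b) * t))) (hs : s = Real.exp (-t)) (a0 : 0 ≤ b) (b0 : b ≤ 1 / 16) (a1 : 8 ≤ t) (b1 : t ≤ 144) :
    0 < 6 / 5 + 75 * b - u * cc ^ 2 :=
  have e := eq hz1 hcc hz3 hq hu hs
  (out2 a0 b0 a1 b1).trans_eq e.2.2.1

theorem out3 {b t : ℝ} (a0 : 0 ≤ b) (b0 : b ≤ 1 / 16) (a1 : 8 ≤ t) (b1 : t ≤ 144) : 0 < outR prog 3
    [b, t] :=
  gd 3 (by decide) [b, t] (.cons ⟨l0.le.trans a0, b0.trans u0.le⟩ (.cons ⟨l1.le.trans a1, b1.trans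
    u1.le⟩ (.nil))) ⟨nofun, nofun, trivial⟩ (List.forall_mem_nil _) (Van.of0 rfl) (nofun)

theorem pos3 {b t z1 cc z3 q u s : ℝ} (hz1 : z1 = ph1 (-(2 * b * t))) (hcc : cc = t * z1) (hz3 : z3
    = Real.exp (-((1 / 2 - 5 * b) * t / 6))) (hq : q = cc * z3) (hu : u = Real.exp (-((1 / 2 - 5 *
    b) * t))) (hs : s = Real.exp (-t)) (a0 : 0 ≤ b) (b0 : b ≤ 1 / 16) (a1 : 8 ≤ t) (b1 : t ≤ 144) :
    0 < ((1500 * cc + 80000) * (1 - b * cc) - q ^ 6 * cc) / 10000 :=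
  have e := eq hz1 hcc hz3 hq hu hs
  (out3 a0 b0 a1 b1).trans_eq e.2.2.2

end Pool.Agent.Lib.MP_d6150d_an.U23x
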