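import Pool.Agent.Lib.MP_d6150d_an.U23yD

/-! A generated chart: the computations. -/

namespace Pool.Agent.Lib.MP_d6150d_an.U23y

theorem k0 : chk C 0x8880088088088801111 [(0, 8796093022208), (703687441776640, 10484942882471936)]
    = true := by
  decide +kernel

theorem k1 : chk C 0x8888000 [(0, 8796093022208), (10484942882471936, 20266198323167232)] = true :=
    by
  decide +kernel

end Pool.Agent.Lib.MP_d6150d_an.U23y
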