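import Pool.Agent.Lib.MP_d6150d_an.GEq
import Pool.Agent.Lib.MP_d6150d_an.GMac
import Pool.Agent.Lib.MP_d6150d_an.U23yK0

/-! A generated chart: the inequality. -/

namespace Pool.Agent.Lib.MP_d6150d_an.U23y

set_option linter.unnecessarySeqFocus false
set_option linter.unusedTactic false
set_option linter.unusedVariables false

theorem gd : Gd C [(0, 8796093022208), (703687441776640, 20266198323167232)] := .split 1 (chk_sound
    k0) (chk_sound k1)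

set_option maxRecDepth 100000 in
theorem eq {b t z1 cc u : ℝ} (hz1 : z1 = ph1 (-(2 * b * t))) (hcc : cc = t * z1) (hu : u = Real.exp
    ((4 * b - 1) * t)) : outR prog 0 [b, t] = 13 / 64 * cc + b * cc ^ 2 / 3 - 1 ∧ outR prog 1 [b, t]
    = 11 / 32 - u * cc ^ 2 := by
  replace hz1 : z1 = (ph1 ((Int.cast (-1) : ℝ) * (((Int.cast (2) : ℝ) * b) * t))) := hz1.trans
    (congrArg ph1 (by push_cast <;> ring))
  replace hcc : cc = (t * z1) := hcc.trans (by push_cast <;> ring)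
  replace hu : u = (Real.exp ((((Int.cast (4) : ℝ) * b) - (Int.cast (1) : ℝ)) * t)) := hu.trans
    (congrArg Real.exp (by push_cast <;> ring))
  have e0 : (((((Int.cast (13) : ℝ) / (Nat.cast 64 : ℝ)) * cc) + (((Int.cast (1) : ℝ) / (Nat.cast 3
    : ℝ)) * (b * (cc * cc)))) - (Int.cast (1) : ℝ)) = 13 / 64 * cc + b * cc ^ 2 / 3 - 1 := by
    push_cast <;> ring
  have e1 : (((Int.cast (11) : ℝ) / (Nat.cast 32 : ℝ)) - (u * (cc * cc))) = 11 / 32 - u * cc ^ 2 :=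
    by push_cast <;> ring
  subst hz1 hcc hu
  refine ⟨Eq.trans ?_ e0, Eq.trans ?_ e1⟩ <;>
    simp only [outR, prog, runR, stepR, gtR]

theorem l0 : ((0 : ℤ) : ℝ) / 2 ^ 47 = 0 := by norm_num
theorem u0 : (1 / 16 : ℝ) = ((8796093022208 : ℤ) : ℝ) / 2 ^ 47 := by norm_num
theorem l1 : ((703687441776640 : ℤ) : ℝ) / 2 ^ 47 = 5 := by norm_num
theorem u1 : (144 : ℝ) = ((20266198323167232 : ℤ) : ℝ) / 2 ^ 47 := by norm_num

theorem out0 {b t : ℝ} (a0 : 0 ≤ b) (b0 : b ≤ 1 / 16) (a1 : 5 ≤ t) (b1 : t ≤ 144) : 0 < outR prog 0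
    [b, t] :=
  gd 0 (by decide) [b, t] (.cons ⟨l0.le.trans a0, b0.trans u0.le⟩ (.cons ⟨l1.le.trans a1, b1.trans
    u1.le⟩ (.nil))) ⟨nofun, nofun, trivial⟩ (List.forall_mem_nil _) (Van.of0 rfl) (nofun)

theorem pos0 {b t z1 cc u : ℝ} (hz1 : z1 = ph1 (-(2 * b * t))) (hcc : cc = t * z1) (hu : u =
    Real.exp ((4 * b - 1) * t)) (a0 : 0 ≤ b) (b0 : b ≤ 1 / 16) (a1 : 5 ≤ t) (b1 : t ≤ 144) : 0 < 13
    / 64 * cc + b * cc ^ 2 / 3 - 1 :=
  have e := eq hz1 hcc hu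
  (out0 a0 b0 a1 b1).trans_eq e.1

theorem out1 {b t : ℝ} (a0 : 0 ≤ b) (b0 : b ≤ 1 / 16) (a1 : 5 ≤ t) (b1 : t ≤ 144) : 0 < outR prog 1
    [b, t] :=
  gd 1 (by decide) [b, t] (.cons ⟨l0.le.trans a0, b0.trans u0.le⟩ (.cons ⟨l1.le.trans a1, b1.trans
    u1.le⟩ (.nil))) ⟨nofun, nofun, trivial⟩ (List.forall_mem_nil _) (Van.of0 rfl) (nofun)

theorem pos1 {b t z1 cc u : ℝ} (hz1 : z1 = ph1 (-(2 * b * t))) (hcc : cc = t * z1) (hu : u =
    Real.exp ((4 * b - 1) * t)) (a0 : 0 ≤ b) (b0 : b ≤ 1 / 16) (a1 : 5 ≤ t) (b1 : t ≤ 144) : 0 < 11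
    / 32 - u * cc ^ 2 :=
  have e := eq hz1 hcc hu
  (out1 a0 b0 a1 b1).trans_eq e.2

end Pool.Agent.Lib.MP_d6150d_an.U23y
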