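import Pool.Agent.Lib.MP_d6150d_an.U23G2
import Pool.Agent.Lib.MP_d6150d_an.U23x
import Pool.Agent.Lib.MP_d6150d_an.U23y

/-! The cell `7 / 16 ≤ F ≤ 1 / 2`, `-2 / 5 ≤ D < 0`: elementary bounds for the tails. -/

namespace Pool.Agent.Lib.MP_d6150d_an.U23

open Real Set

variable {b c s t : ℝ}

theorem comb {A Q η G B : ℝ} (A0 : 0 < A) (Q0 : 0 < Q) (h : A ≤ η * Q) (B0 : 0 ≤ B)
    (H : 0 < η * G + B) : 0 < A * G + Q * B := by
  rcases le_or_gt G 0 with g | g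
  · linarith [mul_pos Q0 H, mul_le_mul_of_nonpos_right h g]
  · positivity

theorem cmono (h : s ≤ t) : s * ph1 (-(2 * b * s)) ≤ t * ph1 (-(2 * b * t)) := by
  simpa only [neg_mul] using monotone_of_hasDerivAt_nonneg (hasDerivAt_ph1 (-(2 * b)))
    (fun _ ↦ (exp_pos _).le) h

theorem cexp' (hc : c = t * ph1 (-(2 * b * t))) : exp (-(2 * b * t)) = 1 - 2 * (b * c) := by
  rw [hc, exp_eq_ph]; ring

theorem big (b0 : 0 ≤ b) (b1 : b ≤ 1 / 16) (ht : 144 ≤ t) (hc : c = t * ph1 (-(2 * b * t))) :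
    exp (-((1 / 2 - 5 * b) * t)) * c ^ 6 ≤ 750 ∧ exp (-((1 / 2 - 5 * b) * t)) * c ^ 2 ≤ 3 / 128 := by
  have t0 : 0 < t := by linarith
  have c0 : 0 ≤ c := hc ▸ (mul_pos t0 (ph1_pos _)).le
  have c1 : c ≤ t := hc ▸ mul_le_of_le_one_right t0.le
    (S7.ph1_le_one (neg_nonpos.2 (by positivity)))
  have h1 := pow_div_factorial_le_exp (3 / 16 * t) (by positivity) 27
  have h2 : (144 : ℝ) ^ 21 ≤ t ^ 21 := by gcongr
  have h3 : exp (3 / 16 * t) ≤ exp ((1 / 2 - 5 * b) * t) := by gcongr; linarith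
  have h4 : exp (-((1 / 2 - 5 * b) * t)) * t ^ 6 ≤ 750 := by
    rw [exp_neg, inv_mul_le_iff₀ (exp_pos _)]
    calc t ^ 6 ≤ (3 / 16) ^ 27 / (Nat.factorial 27 : ℝ) * 750 * t ^ 21 * t ^ 6 :=
          le_mul_of_one_le_left (by positivity) (le_trans (by norm_num [Nat.factorial])
            (mul_le_mul_of_nonneg_left h2 (by positivity)))
      _ = (3 / 16 * t) ^ 27 / (Nat.factorial 27 : ℝ) * 750 := by ring
      _ ≤ _ := by gcongr; exact h1.trans h3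
  have h5 : (144 : ℝ) ^ 4 * c ^ 2 ≤ t ^ 4 * t ^ 2 := by gcongr
  have h6 := mul_le_mul_of_nonneg_left h5 (exp_pos (-((1 / 2 - 5 * b) * t))).le
  exact ⟨le_trans (by gcongr) h4, by linarith⟩

theorem facts5 (b0 : 0 ≤ b) (b1 : b ≤ 1 / 16) (ht : 5 ≤ t) (hc : c = t * ph1 (-(2 * b * t))) :
    1 ≤ 13 / 64 * c + b * c ^ 2 / 3 ∧ exp ((4 * b - 1) * t) * c ^ 2 ≤ 11 / 32 := by
  constructor
  · have h1 := U23y.pos0 (b := b) (t := 5) rfl rfl rfl b0 b1 le_rfl (by norm_num)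
    have h2 := hc ▸ cmono (b := b) ht
    have h3 := ph1_pos (-(2 * b * 5))
    have h4 : b * (5 * ph1 (-(2 * b * 5))) ^ 2 ≤ b * c ^ 2 := by gcongr
    linarith
  · rcases le_total t 144 with h | h
    · linarith [U23y.pos1 rfl hc rfl b0 b1 ht h]
    · refine le_trans ?_ ((big b0 b1 h hc).2.trans (by norm_num))
      gcongr; nlinarith

theorem facts8 (b0 : 0 ≤ b) (b1 : b ≤ 1 / 16) (ht : 8 ≤ t) (hc : c = t * ph1 (-(2 * b * t))) :
    1 ≤ 65 / 512 * c + b * c ^ 2 / 4 ∧ exp (-t) * c ^ 2 ≤ 3 / 128 ∧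
      exp (-((1 / 2 - 5 * b) * t)) * c ^ 2 ≤ 6 / 5 + 75 * b ∧
      exp (-((1 / 2 - 5 * b) * t)) * c ^ 6 * c ≤ (1500 * c + 80000) * (1 - b * c) := by
  constructor
  · have h1 := U23x.pos0 (b := b) (t := 8) rfl rfl rfl rfl rfl rfl b0 b1 le_rfl (by norm_num)
    have h2 := hc ▸ cmono (b := b) ht
    have h3 := ph1_pos (-(2 * b * 8))
    have h4 : b * (8 * ph1 (-(2 * b * 8))) ^ 2 ≤ b * c ^ 2 := by gcongr
    linarith
  · rcases le_total t 144 with h | h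
    · have h1 := U23x.pos3 rfl hc rfl rfl rfl rfl b0 b1 ht h
      rw [mul_pow, ← exp_nat_mul, show ((6 : ℕ) : ℝ) * -((1 / 2 - 5 * b) * t / 6) =
        -((1 / 2 - 5 * b) * t) by push_cast; ring] at h1
      exact ⟨by linarith [U23x.pos1 rfl hc rfl rfl rfl rfl b0 b1 ht h],
        by linarith [U23x.pos2 rfl hc rfl rfl rfl rfl b0 b1 ht h], by linarith⟩
    · obtain ⟨h1, h2⟩ := big b0 b1 h hc
      have c0 : 0 ≤ c := hc ▸ (mul_pos (by linarith) (ph1_pos _)).le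
      have h3 := cexp' hc ▸ exp_pos (-(2 * b * t))
      refine ⟨le_trans ?_ h2, by linarith, ?_⟩
      · gcongr; nlinarith
      · calc _ ≤ 750 * c := by gcongr
          _ ≤ (1500 * c + 80000) * (1 / 2) := by linarith
          _ ≤ _ := by gcongr; linarith

theorem le_exp35 : (27 / 50 : ℝ) ≤ exp (-(3 / 5)) :=
  calc (27 / 50 : ℝ) ≤ (77 / 80) ^ 16 := by norm_num
    _ ≤ exp (-(3 / 80)) ^ 16 := by gcongr; linarith [add_one_le_exp (-(3 / 80))]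
    _ = _ := by rw [← exp_nat_mul]; norm_num

end Pool.Agent.Lib.MP_d6150d_an.U23
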