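import Pool.Agent.Lib.MP_d6150d_an.U23aD

/-! A generated chart: the computations. -/

namespace Pool.Agent.Lib.MP_d6150d_an.U23a

theorem k0 : chk C 0x988309998999209120002 [(0, 70368744177664), (0, 70368744177664), (0,
    35184372088832), (0, 70368744177664)] = true := by
  decide +kernel

theorem k1 : chk C 0x888802088880023 [(0, 35184372088832), (0, 35184372088832), (0, 17592186044416),
    (70368744177664, 140737488355328)] = true := by
  decide +kernel

theorem k2 : chk C 0x8888020880888832023 [(0, 35184372088832), (35184372088832, 70368744177664), (0,
    17592186044416), (70368744177664, 140737488355328)] = true := by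
  decide +kernel

theorem k3 : chk C 0x881 [(35184372088832, 70368744177664), (0, 70368744177664), (0,
    17592186044416), (70368744177664, 140737488355328)] = true := by
  decide +kernel

theorem k4 : chk C 0x880 [(0, 70368744177664), (0, 70368744177664), (17592186044416,
    35184372088832), (70368744177664, 140737488355328)] = true := by
  decide +kernel

theorem k5 : chk C 0x888108803 [(0, 70368744177664), (0, 70368744177664), (35184372088832,
    70368744177664), (0, 140737488355328)] = true := by
  decide +kernel

theorem k6 : chk C 0x88088880202880998920023 [(0, 35184372088832), (70368744177664,
    105553116266496), (0, 17592186044416), (0, 70368744177664)] = true := by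
  decide +kernel

theorem k7 : chk C 0x9899020 [(0, 17592186044416), (105553116266496, 123145302310912), (0,
    8796093022208), (0, 35184372088832)] = true := by
  decide +kernel

theorem k8 : chk C 0x888802289988392910023 [(0, 17592186044416), (123145302310912, 140737488355328),
    (0, 8796093022208), (0, 35184372088832)] = true := by
  decide +kernel

theorem k9 : chk C 0x8888302 [(0, 17592186044416), (105553116266496, 140737488355328), (0,
    8796093022208), (35184372088832, 70368744177664)] = true := by
  decide +kernel

theorem k10 : chk C 0x9 [(17592186044416, 35184372088832), (105553116266496, 140737488355328), (0,
    8796093022208), (0, 70368744177664)] = true := by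
  decide +kernel

end Pool.Agent.Lib.MP_d6150d_an.U23a
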