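import Pool.Agent.Lib.MP_d6150d_an.U23aD

/-! A generated chart: the computations. -/

namespace Pool.Agent.Lib.MP_d6150d_an.U23a

theorem k11 : chk C 0x880 [(0, 35184372088832), (105553116266496, 140737488355328), (8796093022208,
    17592186044416), (0, 70368744177664)] = true := by
  decide +kernel

theorem k12 : chk C 0x990 [(35184372088832, 70368744177664), (70368744177664, 140737488355328), (0,
    17592186044416), (0, 70368744177664)] = true := by
  decide +kernel

theorem k13 : chk C 0x8888220880888802023 [(0, 35184372088832), (70368744177664, 105553116266496),
    (0, 17592186044416), (70368744177664, 140737488355328)] = true := by
  decide +kernel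

theorem k14 : chk C 0x88088882002880888802023 [(0, 35184372088832), (105553116266496,
    140737488355328), (0, 17592186044416), (70368744177664, 140737488355328)] = true := by
  decide +kernel

theorem k15 : chk C 0x882 [(35184372088832, 70368744177664), (70368744177664, 140737488355328), (0,
    17592186044416), (70368744177664, 140737488355328)] = true := by
  decide +kernel

theorem k16 : chk C 0x8880088388103 [(0, 70368744177664), (70368744177664, 140737488355328),
    (17592186044416, 35184372088832), (0, 140737488355328)] = true := by
  decide +kernel

theorem k17 : chk C 0x88820888103 [(0, 70368744177664), (70368744177664, 140737488355328),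
    (35184372088832, 70368744177664), (0, 140737488355328)] = true := by
  decide +kernel

theorem k18 : chk C 0x990 [(70368744177664, 140737488355328), (0, 70368744177664), (0,
    35184372088832), (0, 140737488355328)] = true := by
  decide +kernel

theorem k19 : chk C 0x88089923928880309901392 [(70368744177664, 140737488355328), (70368744177664,
    140737488355328), (0, 35184372088832), (0, 140737488355328)] = true := by
  decide +kernel

theorem k20 : chk C 0x88088088828038039809213 [(70368744177664, 140737488355328), (0,
    140737488355328), (35184372088832, 70368744177664), (0, 140737488355328)] = true := by
  decide +kernel

end Pool.Agent.Lib.MP_d6150d_an.U23a
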