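import Pool.Agent.Lib.MP_d6150d_an.GEq
import Pool.Agent.Lib.MP_d6150d_an.GMac
import Pool.Agent.Lib.MP_d6150d_an.U23aK0
import Pool.Agent.Lib.MP_d6150d_an.U23aK1

/-! A generated chart: the inequality. -/

namespace Pool.Agent.Lib.MP_d6150d_an.U23a

set_option linter.unnecessarySeqFocus false
set_option linter.unusedTactic false
set_option linter.unusedVariables false

theorem gd : Gd C [(0, 140737488355328), (0, 140737488355328), (0, 70368744177664), (0,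
    140737488355328)] := .split 0 (.split 1 (.split 2 (.split 3 (chk_sound k0) (.split 2 (.split 0
    (.split 1 (chk_sound k1) (chk_sound k2)) (chk_sound k3)) (chk_sound k4))) (chk_sound k5))
    (.split 2 (.split 2 (.split 3 (.split 0 (.split 1 (chk_sound k6) (.split 2 (.split 0 (.split 3
    (.split 1 (chk_sound k7) (chk_sound k8)) (chk_sound k9)) (chk_sound k10)) (chk_sound k11)))
    (chk_sound k12)) (.split 0 (.split 1 (chk_sound k13) (chk_sound k14)) (chk_sound k15)))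
    (chk_sound k16)) (chk_sound k17))) (.split 2 (.split 1 (chk_sound k18) (chk_sound k19))
    (chk_sound k20))

set_option maxRecDepth 100000 in
theorem eq {aa y e z k b ze sg D n s p F Gc j i W al be V u I gh xh ah ch w oh p1 q1 r1 p2 q2 r2 p3
    n0 n1 n2 g x ee a c o f h Z2 Z1 Z0 G N E : ℝ} (hk : k = y * (65 / 512 + e / 4)) (hb : b = k * e)
    (hze : ze = z * (1 / 128 + aa * (1 / 8))) (hsg : sg = k ^ 2 * ze) (hD : D = -(2 * aa / 5)) (hn :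
    n = -(D * (1 - sg)⁻¹)) (hs : s = n * sg) (hp : p = 1 - 2 * e) (hF : F = 1 / 2 - b) (hGc : Gc = 1
    - F) (hj : j = Gc⁻¹) (hi : i = F⁻¹) (hW : W = (1 - s) * (1 + D * sg)) (hal : al = 2 * Gc * (1 +
    2 * D)) (hbe : be = n * (1 - p * (1 - sg)) - 1 - D + s * D - (1 + D) * (p - s) * Gc * i) (hV : V
    = W⁻¹) (hu : u = ze * (al + k * be)) (hI : I = (W + k * u)⁻¹) (hgh : gh = 2 * e * j) (hxh : xh =
    u * I) (hah : ah = j * ze * (1 + 2 * D - 2 * (1 + D) * s) * V) (hch : ch = -(j * (1 + D) * s *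
    ze * V)) (hw : w = Gc * ze * I) (hoh : oh = w * p) (hp1 : p1 = 31 / 200 + 193 / 500 * D) (hq1 :
    q1 = -89 / 125 - 41 / 20 * D) (hr1 : r1 = -233 / 500 + 91 / 50 * D) (hp2 : p2 = -9 / 1000 - 511
    / 10000 * D) (hq2 : q2 = 1117 / 10000 + 39 / 100 * D) (hr2 : r2 = -317 / 2000 - 73 / 250 * D)
    (hp3 : p3 = 81 / 500000 - 7 / 1000 * D) (hn0 : n0 = F * (9 * p1 + 3 * q1 + r1) * (1 - F - 2 * D)
    / 3 - (p2 + q2 + r2)) (hn1 : n1 = (131 / 2500 + 139 / 1000 * D) / 16) (hn2 : n2 = (497 / 2000 +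
    61 / 100 * D) / 256) (hg : g = k * gh) (hx : x = k * xh) (hee : ee = k ^ 2) (ha : a = ee * ah)
    (hc : c = ee * ch) (ho : o = ee * oh) (hf : f = 1 - g) (hh : h = 1 - x) (hZ2 : Z2 = xh * (xh *
    (x * (3 * x - 36) - 72) + gh * (8 + x * (144 + 24 * x))) + gh ^ 2 * (4 - x * (36 + 54 * x) + g *
    (16 * x - g)) + f * (ah * (8 - g * (22 - 11 * g) + x * (100 - 64 * g + 54 * x) + a * (25 * g -
    37 - 48 * x + 15 * a)) + (2 - g) * ch * (16 - 14 * g + 32 * x - 20 * a))) (hZ1 : Z1 = x * (8 + x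
    * (8 - x) - g * (18 + 5 * x)) + g ^ 2 * (2 + 7 * x - g) + f * (a * (3 * a - 6 + 4 * g - 7 * x) -
    2 * c * (2 - g))) (hZ0 : Z0 = g * (2 + 2 * x - g) - x * (4 - x) + a * f) (hG : G = (p3 + o * (p2
    + o * p1)) * Z2 + oh * h * ((q2 - 2 * p2 + (q1 - 3 * p1) * o) * Z1 + h * ((r2 + (r1 - q1) * o) *
    Z0 - r1 * o * h * (f + h)))) (hN : N = n2 + o * (n1 + o * n0)) (hE : E = N * (o + 1 / 16)⁻¹ ^ 3)
    : outR prog 0 [aa, y, e, z] = 1024 * G ∧ outR prog 1 [aa, y, e, z] = (z + e) * N * 1024 ∧ outR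
    (prog.take 11) 0 [aa, y, e, z] = 1 / 16 - b := by
  replace hk : k = (y * (((Int.cast (65) : ℝ) / (Nat.cast 512 : ℝ)) + (((Int.cast (1) : ℝ) /
    (Nat.cast 4 : ℝ)) * e))) := hk.trans (by push_cast <;> ring)
  replace hb : b = (k * e) := hb.trans (by push_cast <;> ring)
  replace hze : ze = (z * (((Int.cast (1) : ℝ) / (Nat.cast 128 : ℝ)) + (((Int.cast (1) : ℝ) /
    (Nat.cast 8 : ℝ)) * aa))) := hze.trans (by push_cast <;> ring)
  replace hsg : sg = ((k * k) * ze) := hsg.trans (by push_cast <;> ring)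
  replace hD : D = ((Int.cast (-1) : ℝ) * (((Int.cast (1) : ℝ) / (Nat.cast 5 : ℝ)) * ((Int.cast (2)
    : ℝ) * aa))) := hD.trans (by push_cast <;> ring)
  replace hn : n = ((Int.cast (-1) : ℝ) * (D * ((Int.cast (1) : ℝ) - sg)⁻¹)) := hn.trans (by
    push_cast <;> ring)
  replace hs : s = (n * sg) := hs.trans (by push_cast <;> ring)
  replace hp : p = ((Int.cast (1) : ℝ) - ((Int.cast (2) : ℝ) * e)) := hp.trans (by push_cast <;>
    ring)
  replace hF : F = (((Int.cast (1) : ℝ) / (Nat.cast 2 : ℝ)) - b) := hF.trans (by push_cast <;> ring)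
  replace hGc : Gc = ((Int.cast (1) : ℝ) - F) := hGc.trans (by push_cast <;> ring)
  replace hj : j = Gc⁻¹ := hj.trans (by push_cast <;> ring)
  replace hi : i = F⁻¹ := hi.trans (by push_cast <;> ring)
  replace hW : W = (((Int.cast (1) : ℝ) - s) * ((Int.cast (1) : ℝ) + (D * sg))) := hW.trans (by
    push_cast <;> ring)
  replace hal : al = (((Int.cast (2) : ℝ) * Gc) * ((Int.cast (1) : ℝ) + ((Int.cast (2) : ℝ) * D)))
    := hal.trans (by push_cast <;> ring)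
  replace hbe : be = (((((n * ((Int.cast (1) : ℝ) - (p * ((Int.cast (1) : ℝ) - sg)))) - (Int.cast
    (1) : ℝ)) - D) + (s * D)) - (((((Int.cast (1) : ℝ) + D) * (p - s)) * Gc) * i)) := hbe.trans (by
    push_cast <;> ring)
  replace hV : V = W⁻¹ := hV.trans (by push_cast <;> ring)
  replace hu : u = (ze * (al + (k * be))) := hu.trans (by push_cast <;> ring)
  replace hI : I = (W + (k * u))⁻¹ := hI.trans (by push_cast <;> ring)
  replace hgh : gh = (((Int.cast (2) : ℝ) * e) * j) := hgh.trans (by push_cast <;> ring)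
  replace hxh : xh = (u * I) := hxh.trans (by push_cast <;> ring)
  replace hah : ah = (((j * ze) * (((Int.cast (1) : ℝ) + ((Int.cast (2) : ℝ) * D)) - (((Int.cast (2)
    : ℝ) * ((Int.cast (1) : ℝ) + D)) * s))) * V) := hah.trans (by push_cast <;> ring)
  replace hch : ch = ((Int.cast (-1) : ℝ) * ((((j * ((Int.cast (1) : ℝ) + D)) * s) * ze) * V)) :=
    hch.trans (by push_cast <;> ring)
  replace hw : w = ((Gc * ze) * I) := hw.trans (by push_cast <;> ring)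
  replace hoh : oh = (w * p) := hoh.trans (by push_cast <;> ring)
  replace hp1 : p1 = (((Int.cast (31) : ℝ) / (Nat.cast 200 : ℝ)) + (((Int.cast (193) : ℝ) /
    (Nat.cast 500 : ℝ)) * D)) := hp1.trans (by push_cast <;> ring)
  replace hq1 : q1 = (((Int.cast (-89) : ℝ) / (Nat.cast 125 : ℝ)) - (((Int.cast (41) : ℝ) /
    (Nat.cast 20 : ℝ)) * D)) := hq1.trans (by push_cast <;> ring)
  replace hr1 : r1 = (((Int.cast (-233) : ℝ) / (Nat.cast 500 : ℝ)) + (((Int.cast (91) : ℝ) /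
    (Nat.cast 50 : ℝ)) * D)) := hr1.trans (by push_cast <;> ring)
  replace hp2 : p2 = (((Int.cast (-9) : ℝ) / (Nat.cast 1000 : ℝ)) - (((Int.cast (511) : ℝ) /
    (Nat.cast 10000 : ℝ)) * D)) := hp2.trans (by push_cast <;> ring)
  replace hq2 : q2 = (((Int.cast (1117) : ℝ) / (Nat.cast 10000 : ℝ)) + (((Int.cast (39) : ℝ) /
    (Nat.cast 100 : ℝ)) * D)) := hq2.trans (by push_cast <;> ring)
  replace hr2 : r2 = (((Int.cast (-317) : ℝ) / (Nat.cast 2000 : ℝ)) - (((Int.cast (73) : ℝ) /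
    (Nat.cast 250 : ℝ)) * D)) := hr2.trans (by push_cast <;> ring)
  replace hp3 : p3 = (((Int.cast (81) : ℝ) / (Nat.cast 500000 : ℝ)) - (((Int.cast (7) : ℝ) /
    (Nat.cast 1000 : ℝ)) * D)) := hp3.trans (by push_cast <;> ring)
  replace hn0 : n0 = ((((Int.cast (1) : ℝ) / (Nat.cast 3 : ℝ)) * ((F * ((((Int.cast (9) : ℝ) * p1) +
    ((Int.cast (3) : ℝ) * q1)) + r1)) * (((Int.cast (1) : ℝ) - F) - ((Int.cast (2) : ℝ) * D)))) -
    ((p2 + q2) + r2)) := hn0.trans (by push_cast <;> ring)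
  replace hn1 : n1 = (((Int.cast (1) : ℝ) / (Nat.cast 16 : ℝ)) * (((Int.cast (131) : ℝ) / (Nat.cast
    2500 : ℝ)) + (((Int.cast (139) : ℝ) / (Nat.cast 1000 : ℝ)) * D))) := hn1.trans (by push_cast <;>
    ring)
  replace hn2 : n2 = (((Int.cast (1) : ℝ) / (Nat.cast 256 : ℝ)) * (((Int.cast (497) : ℝ) / (Nat.cast
    2000 : ℝ)) + (((Int.cast (61) : ℝ) / (Nat.cast 100 : ℝ)) * D))) := hn2.trans (by push_cast <;>
    ring)
  replace hg : g = (k * gh) := hg.trans (by push_cast <;> ring)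
  replace hx : x = (k * xh) := hx.trans (by push_cast <;> ring)
  replace hee : ee = (k * k) := hee.trans (by push_cast <;> ring)
  replace ha : a = (ee * ah) := ha.trans (by push_cast <;> ring)
  replace hc : c = (ee * ch) := hc.trans (by push_cast <;> ring)
  replace ho : o = (ee * oh) := ho.trans (by push_cast <;> ring)
  replace hf : f = ((Int.cast (1) : ℝ) - g) := hf.trans (by push_cast <;> ring)
  replace hh : h = ((Int.cast (1) : ℝ) - x) := hh.trans (by push_cast <;> ring)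
  replace hZ2 : Z2 = (((xh * ((xh * ((x * (((Int.cast (3) : ℝ) * x) - (Int.cast (36) : ℝ))) -
    (Int.cast (72) : ℝ))) + (gh * ((Int.cast (8) : ℝ) + (x * ((Int.cast (144) : ℝ) + ((Int.cast (24)
    : ℝ) * x))))))) + ((gh * gh) * (((Int.cast (4) : ℝ) - (x * ((Int.cast (36) : ℝ) + ((Int.cast
    (54) : ℝ) * x)))) + (g * (((Int.cast (16) : ℝ) * x) - g))))) + (f * ((ah * ((((Int.cast (8) : ℝ)
    - (g * ((Int.cast (22) : ℝ) - ((Int.cast (11) : ℝ) * g)))) + (x * (((Int.cast (100) : ℝ) -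
    ((Int.cast (64) : ℝ) * g)) + ((Int.cast (54) : ℝ) * x)))) + (a * (((((Int.cast (25) : ℝ) * g) -
    (Int.cast (37) : ℝ)) - ((Int.cast (48) : ℝ) * x)) + ((Int.cast (15) : ℝ) * a))))) + ((((Int.cast
    (2) : ℝ) - g) * ch) * ((((Int.cast (16) : ℝ) - ((Int.cast (14) : ℝ) * g)) + ((Int.cast (32) : ℝ)
    * x)) - ((Int.cast (20) : ℝ) * a)))))) := hZ2.trans (by push_cast <;> ring)
  replace hZ1 : Z1 = (((x * (((Int.cast (8) : ℝ) + (x * ((Int.cast (8) : ℝ) - x))) - (g * ((Int.cast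
    (18) : ℝ) + ((Int.cast (5) : ℝ) * x))))) + ((g * g) * (((Int.cast (2) : ℝ) + ((Int.cast (7) : ℝ)
    * x)) - g))) + (f * ((a * (((((Int.cast (3) : ℝ) * a) - (Int.cast (6) : ℝ)) + ((Int.cast (4) :
    ℝ) * g)) - ((Int.cast (7) : ℝ) * x))) - (((Int.cast (2) : ℝ) * c) * ((Int.cast (2) : ℝ) - g)))))
    := hZ1.trans (by push_cast <;> ring)
  replace hZ0 : Z0 = (((g * (((Int.cast (2) : ℝ) + ((Int.cast (2) : ℝ) * x)) - g)) - (x * ((Int.cast
    (4) : ℝ) - x))) + (a * f)) := hZ0.trans (by push_cast <;> ring)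
  replace hG : G = (((p3 + (o * (p2 + (o * p1)))) * Z2) + ((oh * h) * ((((q2 - ((Int.cast (2) : ℝ) *
    p2)) + ((q1 - ((Int.cast (3) : ℝ) * p1)) * o)) * Z1) + (h * (((r2 + ((r1 - q1) * o)) * Z0) -
    (((r1 * o) * h) * (f + h))))))) := hG.trans (by push_cast <;> ring)
  replace hN : N = (n2 + (o * (n1 + (o * n0)))) := hN.trans (by push_cast <;> ring)
  replace hE : E = (N * (((o + ((Int.cast (1) : ℝ) / (Nat.cast 16 : ℝ)))⁻¹ * (o + ((Int.cast (1) :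
    ℝ) / (Nat.cast 16 : ℝ)))⁻¹) * (o + ((Int.cast (1) : ℝ) / (Nat.cast 16 : ℝ)))⁻¹)) := hE.trans (by
    push_cast <;> ring)
  have e0 : ((Int.cast (1024) : ℝ) * G) = 1024 * G := by push_cast <;> ring
  have e1 : ((Int.cast (1024) : ℝ) * ((z + e) * N)) = (z + e) * N * 1024 := by push_cast <;> ring
  have e2 : (((Int.cast (1) : ℝ) / (Nat.cast 16 : ℝ)) - b) = 1 / 16 - b := by push_cast <;> ring
  subst hk hb hze hsg hD hn hs hp hF hGc hj hi hW hal hbe hV hu hI hgh hxh hah hch hw hoh hp1 hq1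
    hr1 hp2 hq2 hr2 hp3 hn0 hn1 hn2 hg hx hee ha hc ho hf hh hZ2 hZ1 hZ0 hG hN hE
  refine ⟨Eq.trans ?_ e0, Eq.trans ?_ e1, Eq.trans rfl e2⟩ <;>
    simp only [outR, prog, prog1, prog2, prog3, prog4, prog5, runR, stepR, gtR]

theorem l0 : ((0 : ℤ) : ℝ) / 2 ^ 47 = 0 := by norm_num
theorem u0 : (1 : ℝ) = ((140737488355328 : ℤ) : ℝ) / 2 ^ 47 := by norm_num
theorem l1 : ((0 : ℤ) : ℝ) / 2 ^ 47 = 0 := by norm_num
theorem u1 : (1 : ℝ) = ((140737488355328 : ℤ) : ℝ) / 2 ^ 47 := by norm_num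
theorem l2 : ((0 : ℤ) : ℝ) / 2 ^ 47 = 0 := by norm_num
theorem u2 : (1 / 2 : ℝ) = ((70368744177664 : ℤ) : ℝ) / 2 ^ 47 := by norm_num
theorem l3 : ((0 : ℤ) : ℝ) / 2 ^ 47 = 0 := by norm_num
theorem u3 : (1 : ℝ) = ((140737488355328 : ℤ) : ℝ) / 2 ^ 47 := by norm_num

theorem out0 (N : ∀ aa y e : ℝ, 0 ≤ aa → aa ≤ 1 → 0 ≤ y → y ≤ 1 → 0 ≤ e → e ≤ 1 / 2 → 0 ≤ outR prog
    0 [aa, y, e, 0]) {aa y e z : ℝ} (a0 : 0 ≤ aa) (b0 : aa ≤ 1) (a1 : 0 ≤ y) (b1 : y ≤ 1) (a2 : 0 ≤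
    e) (b2 : e ≤ 1 / 2) (a3 : 0 ≤ z) (b3 : z ≤ 1) (p3 : 0 < z) (c0 : 0 ≤ outR (prog.take 11) 0 [aa,
    y, e, z]) : 0 < outR prog 0 [aa, y, e, z] :=
  gd 0 (by decide) [aa, y, e, z] (.cons ⟨l0.le.trans a0, b0.trans u0.le⟩ (.cons ⟨l1.le.trans a1,
    b1.trans u1.le⟩ (.cons ⟨l2.le.trans a2, b2.trans u2.le⟩ (.cons ⟨l3.le.trans a3, b3.trans u3.le⟩
    (.nil))))) ⟨nofun, nofun, nofun, fun _ ↦ p3, trivial⟩ (List.forall_mem_cons.2 ⟨c0,
    List.forall_mem_nil _⟩) (Van.of0 rfl) (fun _ y0 a0 b0 y1 a1 b1 y2 a2 b2 _ _ _ ↦ N y0 y1 y2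
    (l0.ge.trans a0) (b0.trans u0.ge) (l1.ge.trans a1) (b1.trans u1.ge) (l2.ge.trans a2) (b2.trans
    u2.ge))

theorem out1 (N : ∀ aa y e : ℝ, 0 ≤ aa → aa ≤ 1 → 0 ≤ y → y ≤ 1 → 0 ≤ e → e ≤ 1 / 2 → 0 ≤ outR prog
    1 [aa, y, e, 0]) {aa y e z : ℝ} (a0 : 0 ≤ aa) (b0 : aa ≤ 1) (a1 : 0 ≤ y) (b1 : y ≤ 1) (a2 : 0 ≤
    e) (b2 : e ≤ 1 / 2) (a3 : 0 ≤ z) (b3 : z ≤ 1) (p3 : 0 < z) (c0 : 0 ≤ outR (prog.take 11) 0 [aa,
    y, e, z]) : 0 < outR prog 1 [aa, y, e, z] :=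
  gd 1 (by decide) [aa, y, e, z] (.cons ⟨l0.le.trans a0, b0.trans u0.le⟩ (.cons ⟨l1.le.trans a1,
    b1.trans u1.le⟩ (.cons ⟨l2.le.trans a2, b2.trans u2.le⟩ (.cons ⟨l3.le.trans a3, b3.trans u3.le⟩
    (.nil))))) ⟨nofun, nofun, nofun, fun _ ↦ p3, trivial⟩ (List.forall_mem_cons.2 ⟨c0,
    List.forall_mem_nil _⟩) (Van.of0 rfl) (fun _ y0 a0 b0 y1 a1 b1 y2 a2 b2 _ _ _ ↦ N y0 y1 y2
    (l0.ge.trans a0) (b0.trans u0.ge) (l1.ge.trans a1) (b1.trans u1.ge) (l2.ge.trans a2) (b2.trans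
    u2.ge))

end Pool.Agent.Lib.MP_d6150d_an.U23a
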