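import Pool.Agent.Lib.MP_d6150d_an.U23eD

/-! A generated chart: the computations. -/

namespace Pool.Agent.Lib.MP_d6150d_an.U23e

theorem k0 : chk C 0x8882388823088808231 [(0, 70368744177664), (0, 140737488355328), (0,
    8796093022208), (-686095255732224, -461794883665920)] = true := by
  decide +kernel

theorem k1 : chk C 0x88832888120 [(70368744177664, 140737488355328), (0, 70368744177664), (0,
    8796093022208), (-686095255732224, -461794883665920)] = true := by
  decide +kernel

theorem k2 : chk C 0x8818832888020 [(70368744177664, 140737488355328), (70368744177664,
    140737488355328), (0, 8796093022208), (-686095255732224, -461794883665920)] = true := by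
  decide +kernel

theorem k3 : chk C 0x881881388800888820030 [(0, 140737488355328), (0, 140737488355328),
    (8796093022208, 17592186044416), (-686095255732224, -461794883665920)] = true := by
  decide +kernel

theorem k4 : chk C 0x881881820881881880203 [(0, 70368744177664), (0, 70368744177664),
    (17592186044416, 35184372088832), (-686095255732224, -461794883665920)] = true := by
  decide +kernel

theorem k5 : chk C 0x888830088883002 [(0, 70368744177664), (70368744177664, 140737488355328),
    (17592186044416, 35184372088832), (-686095255732224, -461794883665920)] = true := by
  decide +kernel

theorem k6 : chk C 0x8838832 [(70368744177664, 140737488355328), (0, 140737488355328),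
    (17592186044416, 35184372088832), (-686095255732224, -461794883665920)] = true := by
  decide +kernel

theorem k7 : chk C 0x881888108881030 [(0, 70368744177664), (0, 70368744177664), (35184372088832,
    52776558133248), (-686095255732224, -461794883665920)] = true := by
  decide +kernel

end Pool.Agent.Lib.MP_d6150d_an.U23e
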