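import Pool.Agent.Lib.MP_d6150d_an.U23eD

/-! A generated chart: the computations. -/

namespace Pool.Agent.Lib.MP_d6150d_an.U23e

theorem k8 : chk C 0x881888108883010 [(0, 70368744177664), (0, 70368744177664), (52776558133248,
    70368744177664), (-686095255732224, -461794883665920)] = true := by
  decide +kernel

theorem k9 : chk C 0x8888200881888183002 [(0, 70368744177664), (70368744177664, 140737488355328),
    (35184372088832, 70368744177664), (-686095255732224, -461794883665920)] = true := by
  decide +kernel

theorem k10 : chk C 0x88802888018880121 [(70368744177664, 140737488355328), (0, 140737488355328),
    (35184372088832, 70368744177664), (-686095255732224, -461794883665920)] = true := by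
  decide +kernel

theorem k11 : chk C 0x881808828818203 [(0, 140737488355328), (0, 140737488355328), (0,
    17592186044416), (-461794883665920, -237494511599616)] = true := by
  decide +kernel

theorem k12 : chk C 0x88182888208881010 [(0, 140737488355328), (0, 140737488355328),
    (17592186044416, 35184372088832), (-461794883665920, -349644697632768)] = true := by
  decide +kernel

theorem k13 : chk C 0x8818800 [(0, 140737488355328), (0, 140737488355328), (17592186044416,
    35184372088832), (-349644697632768, -237494511599616)] = true := by
  decide +kernel

theorem k14 : chk C 0x88288238828808231 [(0, 35184372088832), (0, 70368744177664), (35184372088832,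
    70368744177664), (-461794883665920, -237494511599616)] = true := by
  decide +kernel

theorem k15 : chk C 0x882881823 [(35184372088832, 70368744177664), (0, 70368744177664),
    (35184372088832, 70368744177664), (-461794883665920, -237494511599616)] = true := by
  decide +kernel

end Pool.Agent.Lib.MP_d6150d_an.U23e
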