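import Pool.Agent.Lib.MP_d6150d_an.U23eD

/-! A generated chart: the computations. -/

namespace Pool.Agent.Lib.MP_d6150d_an.U23e

theorem k16 : chk C 0x8838880328828880231 [(0, 35184372088832), (70368744177664, 140737488355328),
    (35184372088832, 70368744177664), (-461794883665920, -237494511599616)] = true := by
  decide +kernel

theorem k17 : chk C 0x8828823 [(35184372088832, 70368744177664), (70368744177664, 140737488355328),
    (35184372088832, 70368744177664), (-461794883665920, -237494511599616)] = true := by
  decide +kernel

theorem k18 : chk C 0x88288238808802880880231 [(70368744177664, 140737488355328), (0,
    140737488355328), (35184372088832, 70368744177664), (-461794883665920, -237494511599616)] = true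
    := by
  decide +kernel

theorem k19 : chk C 0x881828810 [(0, 140737488355328), (0, 140737488355328), (0, 35184372088832),
    (-237494511599616, -125344325566464)] = true := by
  decide +kernel

theorem k20 : chk C 0x882881188288010 [(0, 140737488355328), (0, 140737488355328), (35184372088832,
    70368744177664), (-237494511599616, -125344325566464)] = true := by
  decide +kernel

theorem k21 : chk C 0x8828801880812 [(0, 140737488355328), (0, 140737488355328), (0,
    70368744177664), (-125344325566464, -13194139533312)] = true := by
  decide +kernel

theorem k22 : chk C 0x8828821881388188131 [(0, 140737488355328), (0, 140737488355328), (0,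
    35184372088832), (-13194139533312, 211106232532992)] = true := by
  decide +kernel

theorem k23 : chk C 0x88288118813 [(0, 140737488355328), (0, 70368744177664), (35184372088832,
    70368744177664), (-13194139533312, 211106232532992)] = true := by
  decide +kernel

end Pool.Agent.Lib.MP_d6150d_an.U23e
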