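import Pool.Agent.Lib.MP_d6150d_an.U23eD

/-! A generated chart: the computations. -/

namespace Pool.Agent.Lib.MP_d6150d_an.U23e

theorem k24 : chk C 0xad1881188081288188023 [(0, 140737488355328), (70368744177664,
    140737488355328), (35184372088832, 70368744177664), (-13194139533312, 211106232532992)] = true
    := by
  decide +kernel

end Pool.Agent.Lib.MP_d6150d_an.U23e
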