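import Pool.Agent.Lib.MP_d6150d_an.U23lD

/-! A generated chart: the computations. -/

namespace Pool.Agent.Lib.MP_d6150d_an.U23l

theorem k0 : chk C 0x880888100880828808202 [(0, 140737488355328), (61572651155456, 70368744177664),
    (0, 140737488355328)] = true := by
  decide +kernel

theorem k1 : chk C 0x880828818881000 [(0, 70368744177664), (61572651155456, 70368744177664),
    (140737488355328, 281474976710656)] = true := by
  decide +kernel

theorem k2 : chk C 0x8881180 [(70368744177664, 140737488355328), (61572651155456, 70368744177664),
    (140737488355328, 211106232532992)] = true := by
  decide +kernel

theorem k3 : chk C 0x880880188801288188100 [(70368744177664, 140737488355328), (61572651155456,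
    70368744177664), (211106232532992, 281474976710656)] = true := by
  decide +kernel

end Pool.Agent.Lib.MP_d6150d_an.U23l
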