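import Pool.Agent.Lib.MP_d6150d_an.GEq
import Pool.Agent.Lib.MP_d6150d_an.GMac
import Pool.Agent.Lib.MP_d6150d_an.U23lK0

/-! A generated chart: the inequality. -/

namespace Pool.Agent.Lib.MP_d6150d_an.U23l

set_option linter.unnecessarySeqFocus false
set_option linter.unusedTactic false
set_option linter.unusedVariables false

theorem gd : Gd C [(0, 140737488355328), (61572651155456, 70368744177664), (0, 281474976710656)] :=
    .split 2 (chk_sound k0) (.split 0 (chk_sound k1) (.split 2 (chk_sound k2) (chk_sound k3)))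

set_option maxRecDepth 100000 in
theorem eq {a F s D t mu y x r P Q R p W e Y p1 q1 r1 p2 q2 r2 p3 n0 n1 n2 v k4 k3 k2 k1 B X : ℝ}
    (hD : D = -(2 * a / 5)) (ht : t = -s) (hmu : mu = muR D F t) (hy : y = Real.exp (-(F * t))) (hx
    : x = Real.exp t) (hr : r = Real.exp s) (hP : P = (1 + D) * x) (hQ : Q = 1 + 2 * D) (hR : R = D
    * r) (hp : p = ph1 t) (hW : W = p * (1 + D - R)) (he : e = Real.exp ((1 - 2 * F) * t)) (hY : Y =
    mu * e / 2) (hp1 : p1 = 31 / 200 + 193 / 500 * D) (hq1 : q1 = -89 / 125 - 41 / 20 * D) (hr1 : r1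
    = -233 / 500 + 91 / 50 * D) (hp2 : p2 = -9 / 1000 - 511 / 10000 * D) (hq2 : q2 = 1117 / 10000 +
    39 / 100 * D) (hr2 : r2 = -317 / 2000 - 73 / 250 * D) (hp3 : p3 = 81 / 500000 - 7 / 1000 * D)
    (hn0 : n0 = F * (9 * p1 + 3 * q1 + r1) * (1 - F - 2 * D) / 3 - (p2 + q2 + r2)) (hn1 : n1 = (131
    / 2500 + 139 / 1000 * D) / 16) (hn2 : n2 = (497 / 2000 + 61 / 100 * D) / 256) (hv : v = t ^ 2 *
    mu) (hk4 : k4 = 16 * (p1 + v * (p2 + v * p3))) (hk3 : k3 = 104 * p1 + 8 * q1 + v * (112 * p2 + 8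
    * q2 + v * (128 * p3))) (hk2 : k2 = 132 * p1 + 24 * q1 + 4 * r1 + v * (160 * p2 + 28 * q2 + 4 *
    r2 + v * (216 * p3))) (hk1 : k1 = 18 * p1 + 6 * q1 + 2 * r1 + v * (28 * p2 + 10 * q2 + 4 * r2 +
    v * (48 * p3))) (hB : B = k4 * (Y ^ 4 * (pjR F P Q R).2.2) + k3 * (Y ^ 3 * (pjR F P Q R).2.1 * W
    ^ 2) + k2 * (Y ^ 2 * (pjR F P Q R).1 * W ^ 4) + k1 * (Y * W ^ 6)) (hX : X = (n0 + n1 * v + n2 *
    v ^ 2) * (1 + v / 16)⁻¹ ^ 3) : outR prog 0 [a, F, s] = F * B - W ^ 7 * (t * mu) * (p2 + q2 + r2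
    + 3 * p3 * v + y * X) := by
  replace hD : D = ((Int.cast (-1) : ℝ) * (((Int.cast (1) : ℝ) / (Nat.cast 5 : ℝ)) * ((Int.cast (2)
    : ℝ) * a))) := hD.trans (by push_cast <;> ring)
  replace ht : t = ((Int.cast (-1) : ℝ) * s) := ht.trans (by push_cast <;> ring)
  replace hmu : mu = (mMu D F t) := hmu.trans (mMu_0 ..)
  replace hy : y = (Real.exp ((Int.cast (-1) : ℝ) * (F * t))) := hy.trans (congrArg Real.exp (by
    push_cast <;> ring))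
  replace hP : P = (((Int.cast (1) : ℝ) + D) * x) := hP.trans (by push_cast <;> ring)
  replace hQ : Q = ((Int.cast (1) : ℝ) + ((Int.cast (2) : ℝ) * D)) := hQ.trans (by push_cast <;>
    ring)
  replace hR : R = (D * r) := hR.trans (by push_cast <;> ring)
  replace hW : W = (p * (((Int.cast (1) : ℝ) + D) - R)) := hW.trans (by push_cast <;> ring)
  replace he : e = (Real.exp (((Int.cast (1) : ℝ) - ((Int.cast (2) : ℝ) * F)) * t)) := he.trans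
    (congrArg Real.exp (by push_cast <;> ring))
  replace hY : Y = (((Int.cast (1) : ℝ) / (Nat.cast 2 : ℝ)) * (mu * e)) := hY.trans (by push_cast
    <;> ring)
  replace hp1 : p1 = (((Int.cast (31) : ℝ) / (Nat.cast 200 : ℝ)) + (((Int.cast (193) : ℝ) /
    (Nat.cast 500 : ℝ)) * D)) := hp1.trans (by push_cast <;> ring)
  replace hq1 : q1 = (((Int.cast (-89) : ℝ) / (Nat.cast 125 : ℝ)) - (((Int.cast (41) : ℝ) /
    (Nat.cast 20 : ℝ)) * D)) := hq1.trans (by push_cast <;> ring)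
  replace hr1 : r1 = (((Int.cast (-233) : ℝ) / (Nat.cast 500 : ℝ)) + (((Int.cast (91) : ℝ) /
    (Nat.cast 50 : ℝ)) * D)) := hr1.trans (by push_cast <;> ring)
  replace hp2 : p2 = (((Int.cast (-9) : ℝ) / (Nat.cast 1000 : ℝ)) - (((Int.cast (511) : ℝ) /
    (Nat.cast 10000 : ℝ)) * D)) := hp2.trans (by push_cast <;> ring)
  replace hq2 : q2 = (((Int.cast (1117) : ℝ) / (Nat.cast 10000 : ℝ)) + (((Int.cast (39) : ℝ) /
    (Nat.cast 100 : ℝ)) * D)) := hq2.trans (by push_cast <;> ring)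
  replace hr2 : r2 = (((Int.cast (-317) : ℝ) / (Nat.cast 2000 : ℝ)) - (((Int.cast (73) : ℝ) /
    (Nat.cast 250 : ℝ)) * D)) := hr2.trans (by push_cast <;> ring)
  replace hp3 : p3 = (((Int.cast (81) : ℝ) / (Nat.cast 500000 : ℝ)) - (((Int.cast (7) : ℝ) /
    (Nat.cast 1000 : ℝ)) * D)) := hp3.trans (by push_cast <;> ring)
  replace hn0 : n0 = ((((Int.cast (1) : ℝ) / (Nat.cast 3 : ℝ)) * ((F * ((((Int.cast (9) : ℝ) * p1) +
    ((Int.cast (3) : ℝ) * q1)) + r1)) * (((Int.cast (1) : ℝ) - F) - ((Int.cast (2) : ℝ) * D)))) -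
    ((p2 + q2) + r2)) := hn0.trans (by push_cast <;> ring)
  replace hn1 : n1 = (((Int.cast (1) : ℝ) / (Nat.cast 16 : ℝ)) * (((Int.cast (131) : ℝ) / (Nat.cast
    2500 : ℝ)) + (((Int.cast (139) : ℝ) / (Nat.cast 1000 : ℝ)) * D))) := hn1.trans (by push_cast <;>
    ring)
  replace hn2 : n2 = (((Int.cast (1) : ℝ) / (Nat.cast 256 : ℝ)) * (((Int.cast (497) : ℝ) / (Nat.cast
    2000 : ℝ)) + (((Int.cast (61) : ℝ) / (Nat.cast 100 : ℝ)) * D))) := hn2.trans (by push_cast <;>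
    ring)
  replace hv : v = ((t * t) * mu) := hv.trans (by push_cast <;> ring)
  replace hk4 : k4 = ((Int.cast (16) : ℝ) * (p1 + (v * (p2 + (v * p3))))) := hk4.trans (by push_cast
    <;> ring)
  replace hk3 : k3 = ((((Int.cast (104) : ℝ) * p1) + ((Int.cast (8) : ℝ) * q1)) + (v * ((((Int.cast
    (112) : ℝ) * p2) + ((Int.cast (8) : ℝ) * q2)) + (v * ((Int.cast (128) : ℝ) * p3))))) :=
    hk3.trans (by push_cast <;> ring)
  replace hk2 : k2 = (((((Int.cast (132) : ℝ) * p1) + ((Int.cast (24) : ℝ) * q1)) + ((Int.cast (4) :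
    ℝ) * r1)) + (v * (((((Int.cast (160) : ℝ) * p2) + ((Int.cast (28) : ℝ) * q2)) + ((Int.cast (4) :
    ℝ) * r2)) + (v * ((Int.cast (216) : ℝ) * p3))))) := hk2.trans (by push_cast <;> ring)
  replace hk1 : k1 = (((((Int.cast (18) : ℝ) * p1) + ((Int.cast (6) : ℝ) * q1)) + ((Int.cast (2) :
    ℝ) * r1)) + (v * (((((Int.cast (28) : ℝ) * p2) + ((Int.cast (10) : ℝ) * q2)) + ((Int.cast (4) :
    ℝ) * r2)) + (v * ((Int.cast (48) : ℝ) * p3))))) := hk1.trans (by push_cast <;> ring)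
  replace hB : B = (mK4 F P Q R Y W k4 k3 k2 k1) := hB.trans (mK4_0 ..)
  replace hX : X = (((n0 + (n1 * v)) + (n2 * (v * v))) * ((((Int.cast (1) : ℝ) + (((Int.cast (1) :
    ℝ) / (Nat.cast 16 : ℝ)) * v))⁻¹ * ((Int.cast (1) : ℝ) + (((Int.cast (1) : ℝ) / (Nat.cast 16 :
    ℝ)) * v))⁻¹) * ((Int.cast (1) : ℝ) + (((Int.cast (1) : ℝ) / (Nat.cast 16 : ℝ)) * v))⁻¹)) :=
    hX.trans (by push_cast <;> ring)
  have e0 : ((F * B) - ((((((W * W) * W) * ((W * W) * W)) * W) * (t * mu)) * ((((p2 + q2) + r2) +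
    (((Int.cast (3) : ℝ) * p3) * v)) + (y * X)))) = F * B - W ^ 7 * (t * mu) * (p2 + q2 + r2 + 3 *
    p3 * v + y * X) := by push_cast <;> ring
  subst hD ht hmu hy hx hr hP hQ hR hp hW he hY hp1 hq1 hr1 hp2 hq2 hr2 hp3 hn0 hn1 hn2 hv hk4 hk3
    hk2 hk1 hB hX
  refine Eq.trans ?_ e0 <;>
    simp only [outR, prog, prog1, prog2, prog3, prog4, runR, stepR, gtR, mK4, mMu]

theorem l0 : ((0 : ℤ) : ℝ) / 2 ^ 47 = 0 := by norm_num
theorem u0 : (1 : ℝ) = ((140737488355328 : ℤ) : ℝ) / 2 ^ 47 := by norm_num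
theorem l1 : ((61572651155456 : ℤ) : ℝ) / 2 ^ 47 = 7 / 16 := by norm_num
theorem u1 : (1 / 2 : ℝ) = ((70368744177664 : ℤ) : ℝ) / 2 ^ 47 := by norm_num
theorem l2 : ((0 : ℤ) : ℝ) / 2 ^ 47 = 0 := by norm_num
theorem u2 : (2 : ℝ) = ((281474976710656 : ℤ) : ℝ) / 2 ^ 47 := by norm_num

theorem out0 (V2 : ∀ a F : ℝ, 0 ≤ a → a ≤ 1 → 7 / 16 ≤ F → F ≤ 1 / 2 → (fun s ↦ outR prog 0 [a, F,
    s]) =O[nhdsWithin 0 (Set.Ioi 0)] fun s : ℝ ↦ s ^ 2) {a F s : ℝ} (a0 : 0 ≤ a) (b0 : a ≤ 1) (a1 :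
    7 / 16 ≤ F) (b1 : F ≤ 1 / 2) (a2 : 0 ≤ s) (b2 : s ≤ 2) (p2 : 0 < s) : 0 < outR prog 0 [a, F, s]
    :=
  gd 0 (by decide) [a, F, s] (.cons ⟨l0.le.trans a0, b0.trans u0.le⟩ (.cons ⟨l1.le.trans a1,
    b1.trans u1.le⟩ (.cons ⟨l2.le.trans a2, b2.trans u2.le⟩ (.nil)))) ⟨nofun, nofun, fun _ ↦ p2,
    trivial⟩ (List.forall_mem_nil _) (⟨fun _ ↦ allB_iff.2 fun _ _ ↦ trivial, fun y0 a0 b0 ↦ ⟨fun _ ↦
    allB_iff.2 fun _ _ ↦ trivial, fun y1 a1 b1 ↦ ⟨fun _ ↦ V2 y0 y1 (l0.ge.trans a0) (b0.trans u0.ge)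
    (l1.ge.trans a1) (b1.trans u1.ge), fun _ _ _ ↦ trivial⟩⟩⟩) (nofun)

end Pool.Agent.Lib.MP_d6150d_an.U23l
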