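import Pool.Agent.Lib.MP_d6150d_an.U23mD

/-! A generated chart: the computations. -/

namespace Pool.Agent.Lib.MP_d6150d_an.U23m

theorem k0 : chk C 0x880880188801088188002 [(0, 140737488355328), (0, 4398046511104),
    (281474976710656, 492581209243648)] = true := by
  decide +kernel

theorem k1 : chk C 0x880880188108818088002 [(0, 140737488355328), (4398046511104, 8796093022208),
    (281474976710656, 492581209243648)] = true := by
  decide +kernel

theorem k2 : chk C 0x880882801888010 [(0, 140737488355328), (0, 4398046511104), (492581209243648,
    703687441776640)] = true := by
  decide +kernel

theorem k3 : chk C 0x88088018810 [(0, 140737488355328), (4398046511104, 8796093022208),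
    (492581209243648, 703687441776640)] = true := by
  decide +kernel

end Pool.Agent.Lib.MP_d6150d_an.U23m
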