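import Pool.Agent.Lib.MP_d6150d_an.GEq
import Pool.Agent.Lib.MP_d6150d_an.GMac
import Pool.Agent.Lib.MP_d6150d_an.U23mK0

/-! A generated chart: the inequality. -/

namespace Pool.Agent.Lib.MP_d6150d_an.U23m

set_option linter.unnecessarySeqFocus false
set_option linter.unusedTactic false
set_option linter.unusedVariables false

theorem gd : Gd C [(0, 140737488355328), (0, 8796093022208), (281474976710656, 703687441776640)] :=
    .split 2 (.split 1 (chk_sound k0) (chk_sound k1)) (.split 1 (chk_sound k2) (chk_sound k3))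

set_option maxRecDepth 100000 in
theorem eq {a b t D F p z4 c k z7 x p1 q1 r1 p2 q2 r2 p3 n0 n1 n2 i j dl w z r h W M m n N A B Z2 Z1
    Z0 L G E U u z41 l : ℝ} (hD : D = -(2 * a / 5)) (hF : F = 1 / 2 - b) (hp : p = Real.exp (-(2 * b
    * t))) (hz4 : z4 = ph1 (-(2 * b * t))) (hc : c = t * z4) (hk : k = c⁻¹) (hz7 : z7 = Real.exp ((4
    * b - 1) * t)) (hx : x = z7 * c ^ 2) (hp1 : p1 = 31 / 200 + 193 / 500 * D) (hq1 : q1 = -89 / 125
    - 41 / 20 * D) (hr1 : r1 = -233 / 500 + 91 / 50 * D) (hp2 : p2 = -9 / 1000 - 511 / 10000 * D)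
    (hq2 : q2 = 1117 / 10000 + 39 / 100 * D) (hr2 : r2 = -317 / 2000 - 73 / 250 * D) (hp3 : p3 = 81
    / 500000 - 7 / 1000 * D) (hn0 : n0 = F * (9 * p1 + 3 * q1 + r1) * (1 - F - 2 * D) / 3 - (p2 + q2
    + r2)) (hn1 : n1 = (131 / 2500 + 139 / 1000 * D) / 16) (hn2 : n2 = (497 / 2000 + 61 / 100 * D) /
    256) (hi : i = F⁻¹) (hj : j = (1 - F)⁻¹) (hdl : dl = 2 * b * i) (hw : w = p * k * x) (hz : z = k
    * w) (hr : r = z * p) (hh : h = 1 + 2 * D) (hW : W = (1 + D - h * r + D * r ^ 2)⁻¹) (hM : M = (1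
    + D) * (1 - z) * i - 2 * h * w + D * j * (z - r ^ 2)) (hm : m = (k * (D * j * (F - r * p) - (1 +
    D) + h * p) - 2 * F * h) * W) (hn : n = w * m) (hN : N = 1 + n) (hA : A = i * (h - 2 * D * r) *
    W) (hB : B = D * i ^ 2 * W) (hZ2 : Z2 = N ^ 2 * (N * (k * p * (N * (r * A * (15 * A ^ 2 - 20 *
    B) + dl * (10 * A ^ 2 - 6 * B)) + A ^ 2 * (7 + 55 * n) - 32 * n * B) + 14 * dl * A * m) + A * m
    * (4 + 58 * n)) + x * m ^ 3 * (12 + 15 * n)) (hZ1 : Z1 = N ^ 2 * (N * (r * (2 * B - 3 * A ^ 2) -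
    dl * A) - 7 * n * A) - x * m ^ 2 * (2 + 3 * n)) (hZ0 : Z0 = N ^ 2 * A + x * m ^ 2) (hL : L = A *
    N ^ 3 * (2 - dl * N)) (hG : G = k * ((p2 * M + p1 * z) * dl * L - ((q2 - 2 * p2) * M + (q1 - 3 *
    p1) * z) * Z1 - (r2 * M + (r1 - q1) * z) * Z0 - r1 * m * k * x) - (p3 * M ^ 2 + z * (p2 * M + p1
    * z)) * Z2) (hE : E = k * M * (n0 * z ^ 2 + n1 * z * M + n2 * M ^ 2) * (z + M / 16)⁻¹ ^ 3) (hU :
    U = p3 * M ^ 2 * L) (hu : u = Real.exp ((3 * b - 1 / 2) * t)) (hz41 : z41 = Real.exp (2 * F *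
    t)) (hl : l = dl * z41) : outR prog 0 [a, b, t] = l * (k * U) + G - E * u := by
  replace hD : D = ((Int.cast (-1) : ℝ) * (((Int.cast (1) : ℝ) / (Nat.cast 5 : ℝ)) * ((Int.cast (2)
    : ℝ) * a))) := hD.trans (by push_cast <;> ring)
  replace hF : F = (((Int.cast (1) : ℝ) / (Nat.cast 2 : ℝ)) - b) := hF.trans (by push_cast <;> ring)
  replace hp : p = (Real.exp ((Int.cast (-1) : ℝ) * (((Int.cast (2) : ℝ) * b) * t))) := hp.trans
    (congrArg Real.exp (by push_cast <;> ring))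
  replace hz4 : z4 = (ph1 ((Int.cast (-1) : ℝ) * (((Int.cast (2) : ℝ) * b) * t))) := hz4.trans
    (congrArg ph1 (by push_cast <;> ring))
  replace hc : c = (t * z4) := hc.trans (by push_cast <;> ring)
  replace hk : k = c⁻¹ := hk.trans (by push_cast <;> ring)
  replace hz7 : z7 = (Real.exp ((((Int.cast (4) : ℝ) * b) - (Int.cast (1) : ℝ)) * t)) := hz7.trans
    (congrArg Real.exp (by push_cast <;> ring))
  replace hx : x = (z7 * (c * c)) := hx.trans (by push_cast <;> ring)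
  replace hp1 : p1 = (((Int.cast (31) : ℝ) / (Nat.cast 200 : ℝ)) + (((Int.cast (193) : ℝ) /
    (Nat.cast 500 : ℝ)) * D)) := hp1.trans (by push_cast <;> ring)
  replace hq1 : q1 = (((Int.cast (-89) : ℝ) / (Nat.cast 125 : ℝ)) - (((Int.cast (41) : ℝ) /
    (Nat.cast 20 : ℝ)) * D)) := hq1.trans (by push_cast <;> ring)
  replace hr1 : r1 = (((Int.cast (-233) : ℝ) / (Nat.cast 500 : ℝ)) + (((Int.cast (91) : ℝ) /
    (Nat.cast 50 : ℝ)) * D)) := hr1.trans (by push_cast <;> ring)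
  replace hp2 : p2 = (((Int.cast (-9) : ℝ) / (Nat.cast 1000 : ℝ)) - (((Int.cast (511) : ℝ) /
    (Nat.cast 10000 : ℝ)) * D)) := hp2.trans (by push_cast <;> ring)
  replace hq2 : q2 = (((Int.cast (1117) : ℝ) / (Nat.cast 10000 : ℝ)) + (((Int.cast (39) : ℝ) /
    (Nat.cast 100 : ℝ)) * D)) := hq2.trans (by push_cast <;> ring)
  replace hr2 : r2 = (((Int.cast (-317) : ℝ) / (Nat.cast 2000 : ℝ)) - (((Int.cast (73) : ℝ) /
    (Nat.cast 250 : ℝ)) * D)) := hr2.trans (by push_cast <;> ring)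
  replace hp3 : p3 = (((Int.cast (81) : ℝ) / (Nat.cast 500000 : ℝ)) - (((Int.cast (7) : ℝ) /
    (Nat.cast 1000 : ℝ)) * D)) := hp3.trans (by push_cast <;> ring)
  replace hn0 : n0 = ((((Int.cast (1) : ℝ) / (Nat.cast 3 : ℝ)) * ((F * ((((Int.cast (9) : ℝ) * p1) +
    ((Int.cast (3) : ℝ) * q1)) + r1)) * (((Int.cast (1) : ℝ) - F) - ((Int.cast (2) : ℝ) * D)))) -
    ((p2 + q2) + r2)) := hn0.trans (by push_cast <;> ring)
  replace hn1 : n1 = (((Int.cast (1) : ℝ) / (Nat.cast 16 : ℝ)) * (((Int.cast (131) : ℝ) / (Nat.cast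
    2500 : ℝ)) + (((Int.cast (139) : ℝ) / (Nat.cast 1000 : ℝ)) * D))) := hn1.trans (by push_cast <;>
    ring)
  replace hn2 : n2 = (((Int.cast (1) : ℝ) / (Nat.cast 256 : ℝ)) * (((Int.cast (497) : ℝ) / (Nat.cast
    2000 : ℝ)) + (((Int.cast (61) : ℝ) / (Nat.cast 100 : ℝ)) * D))) := hn2.trans (by push_cast <;>
    ring)
  replace hi : i = F⁻¹ := hi.trans (by push_cast <;> ring)
  replace hj : j = ((Int.cast (1) : ℝ) - F)⁻¹ := hj.trans (by push_cast <;> ring)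
  replace hdl : dl = (((Int.cast (2) : ℝ) * b) * i) := hdl.trans (by push_cast <;> ring)
  replace hw : w = ((p * k) * x) := hw.trans (by push_cast <;> ring)
  replace hz : z = (k * w) := hz.trans (by push_cast <;> ring)
  replace hr : r = (z * p) := hr.trans (by push_cast <;> ring)
  replace hh : h = ((Int.cast (1) : ℝ) + ((Int.cast (2) : ℝ) * D)) := hh.trans (by push_cast <;>
    ring)
  replace hW : W = ((((Int.cast (1) : ℝ) + D) - (h * r)) + (D * (r * r)))⁻¹ := hW.trans (by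
    push_cast <;> ring)
  replace hM : M = ((((((Int.cast (1) : ℝ) + D) * ((Int.cast (1) : ℝ) - z)) * i) - (((Int.cast (2) :
    ℝ) * h) * w)) + ((D * j) * (z - (r * r)))) := hM.trans (by push_cast <;> ring)
  replace hm : m = (((k * ((((D * j) * (F - (r * p))) - ((Int.cast (1) : ℝ) + D)) + (h * p))) -
    (((Int.cast (2) : ℝ) * F) * h)) * W) := hm.trans (by push_cast <;> ring)
  replace hn : n = (w * m) := hn.trans (by push_cast <;> ring)
  replace hN : N = ((Int.cast (1) : ℝ) + n) := hN.trans (by push_cast <;> ring)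
  replace hA : A = ((i * (h - (((Int.cast (2) : ℝ) * D) * r))) * W) := hA.trans (by push_cast <;>
    ring)
  replace hB : B = ((D * (i * i)) * W) := hB.trans (by push_cast <;> ring)
  replace hZ2 : Z2 = (((N * N) * ((N * (((k * p) * (((N * (((r * A) * (((Int.cast (15) : ℝ) * (A *
    A)) - ((Int.cast (20) : ℝ) * B))) + (dl * (((Int.cast (10) : ℝ) * (A * A)) - ((Int.cast (6) : ℝ)
    * B))))) + ((A * A) * ((Int.cast (7) : ℝ) + ((Int.cast (55) : ℝ) * n)))) - (((Int.cast (32) : ℝ)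
    * n) * B))) + ((((Int.cast (14) : ℝ) * dl) * A) * m))) + ((A * m) * ((Int.cast (4) : ℝ) +
    ((Int.cast (58) : ℝ) * n))))) + ((x * ((m * m) * m)) * ((Int.cast (12) : ℝ) + ((Int.cast (15) :
    ℝ) * n)))) := hZ2.trans (by push_cast <;> ring)
  replace hZ1 : Z1 = (((N * N) * ((N * ((r * (((Int.cast (2) : ℝ) * B) - ((Int.cast (3) : ℝ) * (A *
    A)))) - (dl * A))) - (((Int.cast (7) : ℝ) * n) * A))) - ((x * (m * m)) * ((Int.cast (2) : ℝ) +
    ((Int.cast (3) : ℝ) * n)))) := hZ1.trans (by push_cast <;> ring)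
  replace hZ0 : Z0 = (((N * N) * A) + (x * (m * m))) := hZ0.trans (by push_cast <;> ring)
  replace hL : L = ((A * ((N * N) * N)) * ((Int.cast (2) : ℝ) - (dl * N))) := hL.trans (by push_cast
    <;> ring)
  replace hG : G = ((k * (((((((p2 * M) + (p1 * z)) * dl) * L) - ((((q2 - ((Int.cast (2) : ℝ) * p2))
    * M) + ((q1 - ((Int.cast (3) : ℝ) * p1)) * z)) * Z1)) - (((r2 * M) + ((r1 - q1) * z)) * Z0)) -
    (((r1 * m) * k) * x))) - (((p3 * (M * M)) + (z * ((p2 * M) + (p1 * z)))) * Z2)) := hG.trans (by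
    push_cast <;> ring)
  replace hE : E = (((k * M) * (((n0 * (z * z)) + ((n1 * z) * M)) + (n2 * (M * M)))) * (((z +
    (((Int.cast (1) : ℝ) / (Nat.cast 16 : ℝ)) * M))⁻¹ * (z + (((Int.cast (1) : ℝ) / (Nat.cast 16 :
    ℝ)) * M))⁻¹) * (z + (((Int.cast (1) : ℝ) / (Nat.cast 16 : ℝ)) * M))⁻¹)) := hE.trans (by
    push_cast <;> ring)
  replace hU : U = ((p3 * (M * M)) * L) := hU.trans (by push_cast <;> ring)
  replace hu : u = (Real.exp ((((Int.cast (3) : ℝ) * b) - ((Int.cast (1) : ℝ) / (Nat.cast 2 : ℝ))) *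
    t)) := hu.trans (congrArg Real.exp (by push_cast <;> ring))
  replace hz41 : z41 = (Real.exp (((Int.cast (2) : ℝ) * F) * t)) := hz41.trans (congrArg Real.exp
    (by push_cast <;> ring))
  replace hl : l = (dl * z41) := hl.trans (by push_cast <;> ring)
  have e0 : (((l * (k * U)) + G) - (E * u)) = l * (k * U) + G - E * u := by push_cast <;> ring
  subst hD hF hp hz4 hc hk hz7 hx hp1 hq1 hr1 hp2 hq2 hr2 hp3 hn0 hn1 hn2 hi hj hdl hw hz hr hh hW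
    hM hm hn hN hA hB hZ2 hZ1 hZ0 hL hG hE hU hu hz41 hl
  refine Eq.trans ?_ e0 <;>
    simp only [outR, prog, prog1, prog2, prog3, prog4, runR, stepR, gtR]

theorem l0 : ((0 : ℤ) : ℝ) / 2 ^ 47 = 0 := by norm_num
theorem u0 : (1 : ℝ) = ((140737488355328 : ℤ) : ℝ) / 2 ^ 47 := by norm_num
theorem l1 : ((0 : ℤ) : ℝ) / 2 ^ 47 = 0 := by norm_num
theorem u1 : (1 / 16 : ℝ) = ((8796093022208 : ℤ) : ℝ) / 2 ^ 47 := by norm_num
theorem l2 : ((281474976710656 : ℤ) : ℝ) / 2 ^ 47 = 2 := by norm_num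
theorem u2 : (5 : ℝ) = ((703687441776640 : ℤ) : ℝ) / 2 ^ 47 := by norm_num

theorem out0 {a b t : ℝ} (a0 : 0 ≤ a) (b0 : a ≤ 1) (a1 : 0 ≤ b) (b1 : b ≤ 1 / 16) (a2 : 2 ≤ t) (b2 :
    t ≤ 5) : 0 < outR prog 0 [a, b, t] :=
  gd 0 (by decide) [a, b, t] (.cons ⟨l0.le.trans a0, b0.trans u0.le⟩ (.cons ⟨l1.le.trans a1,
    b1.trans u1.le⟩ (.cons ⟨l2.le.trans a2, b2.trans u2.le⟩ (.nil)))) ⟨nofun, nofun, nofun, trivial⟩
    (List.forall_mem_nil _) (Van.of0 rfl) (nofun)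

theorem pos0 {a b t D F p z4 c k z7 x p1 q1 r1 p2 q2 r2 p3 n0 n1 n2 i j dl w z r h W M m n N A B Z2
    Z1 Z0 L G E U u z41 l : ℝ} (hD : D = -(2 * a / 5)) (hF : F = 1 / 2 - b) (hp : p = Real.exp (-(2
    * b * t))) (hz4 : z4 = ph1 (-(2 * b * t))) (hc : c = t * z4) (hk : k = c⁻¹) (hz7 : z7 = Real.exp
    ((4 * b - 1) * t)) (hx : x = z7 * c ^ 2) (hp1 : p1 = 31 / 200 + 193 / 500 * D) (hq1 : q1 = -89 /
    125 - 41 / 20 * D) (hr1 : r1 = -233 / 500 + 91 / 50 * D) (hp2 : p2 = -9 / 1000 - 511 / 10000 *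
    D) (hq2 : q2 = 1117 / 10000 + 39 / 100 * D) (hr2 : r2 = -317 / 2000 - 73 / 250 * D) (hp3 : p3 =
    81 / 500000 - 7 / 1000 * D) (hn0 : n0 = F * (9 * p1 + 3 * q1 + r1) * (1 - F - 2 * D) / 3 - (p2 +
    q2 + r2)) (hn1 : n1 = (131 / 2500 + 139 / 1000 * D) / 16) (hn2 : n2 = (497 / 2000 + 61 / 100 *
    D) / 256) (hi : i = F⁻¹) (hj : j = (1 - F)⁻¹) (hdl : dl = 2 * b * i) (hw : w = p * k * x) (hz :
    z = k * w) (hr : r = z * p) (hh : h = 1 + 2 * D) (hW : W = (1 + D - h * r + D * r ^ 2)⁻¹) (hM :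
    M = (1 + D) * (1 - z) * i - 2 * h * w + D * j * (z - r ^ 2)) (hm : m = (k * (D * j * (F - r * p)
    - (1 + D) + h * p) - 2 * F * h) * W) (hn : n = w * m) (hN : N = 1 + n) (hA : A = i * (h - 2 * D
    * r) * W) (hB : B = D * i ^ 2 * W) (hZ2 : Z2 = N ^ 2 * (N * (k * p * (N * (r * A * (15 * A ^ 2 -
    20 * B) + dl * (10 * A ^ 2 - 6 * B)) + A ^ 2 * (7 + 55 * n) - 32 * n * B) + 14 * dl * A * m) + A
    * m * (4 + 58 * n)) + x * m ^ 3 * (12 + 15 * n)) (hZ1 : Z1 = N ^ 2 * (N * (r * (2 * B - 3 * A ^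
    2) - dl * A) - 7 * n * A) - x * m ^ 2 * (2 + 3 * n)) (hZ0 : Z0 = N ^ 2 * A + x * m ^ 2) (hL : L
    = A * N ^ 3 * (2 - dl * N)) (hG : G = k * ((p2 * M + p1 * z) * dl * L - ((q2 - 2 * p2) * M + (q1
    - 3 * p1) * z) * Z1 - (r2 * M + (r1 - q1) * z) * Z0 - r1 * m * k * x) - (p3 * M ^ 2 + z * (p2 *
    M + p1 * z)) * Z2) (hE : E = k * M * (n0 * z ^ 2 + n1 * z * M + n2 * M ^ 2) * (z + M / 16)⁻¹ ^
    3) (hU : U = p3 * M ^ 2 * L) (hu : u = Real.exp ((3 * b - 1 / 2) * t)) (hz41 : z41 = Real.exp (2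
    * F * t)) (hl : l = dl * z41) (a0 : 0 ≤ a) (b0 : a ≤ 1) (a1 : 0 ≤ b) (b1 : b ≤ 1 / 16) (a2 : 2 ≤
    t) (b2 : t ≤ 5) : 0 < l * (k * U) + G - E * u :=
  have e := eq hD hF hp hz4 hc hk hz7 hx hp1 hq1 hr1 hp2 hq2 hr2 hp3 hn0 hn1 hn2 hi hj hdl hw hz hr
    hh hW hM hm hn hN hA hB hZ2 hZ1 hZ0 hL hG hE hU hu hz41 hl
  (out0 a0 b0 a1 b1 a2 b2).trans_eq e

end Pool.Agent.Lib.MP_d6150d_an.U23m
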