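import Pool.Agent.Lib.MP_d6150d_an.U23oD

/-! A generated chart: the computations. -/

namespace Pool.Agent.Lib.MP_d6150d_an.U23o

theorem k0 : chk C 0x88888122288188802882121 [(0, 4398046511104), (281474976710656,
    492581209243648), (0, 70368744177664)] = true := by
  decide +kernel

theorem k1 : chk C 0x8818888022888812212 [(0, 4398046511104), (492581209243648, 703687441776640),
    (0, 70368744177664)] = true := by
  decide +kernel

theorem k2 : chk C 0xdd18288288211 [(0, 4398046511104), (281474976710656, 492581209243648),
    (70368744177664, 140737488355328)] = true := by
  decide +kernel

theorem k3 : chk C 0xa8282dd08218812 [(0, 4398046511104), (492581209243648, 703687441776640),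
    (70368744177664, 140737488355328)] = true := by
  decide +kernel

theorem k4 : chk C 0x888880222888818810221 [(0, 4398046511104), (703687441776640, 1125899906842624),
    (0, 35184372088832)] = true := by
  decide +kernel

theorem k5 : chk C 0x8828821 [(0, 4398046511104), (703687441776640, 1125899906842624),
    (35184372088832, 70368744177664)] = true := by
  decide +kernel

theorem k6 : chk C 0x8828811 [(0, 4398046511104), (703687441776640, 1125899906842624),
    (70368744177664, 105553116266496)] = true := by
  decide +kernel

theorem k7 : chk C 0xdd082dd082082dd0d082821 [(0, 4398046511104), (703687441776640,
    914793674309632), (105553116266496, 140737488355328)] = true := by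
  decide +kernel

theorem k8 : chk C 0x88d01addd10288120880812 [(0, 4398046511104), (914793674309632,
    1125899906842624), (105553116266496, 140737488355328)] = true := by
  decide +kernel

end Pool.Agent.Lib.MP_d6150d_an.U23o
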