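import Pool.Agent.Lib.MP_d6150d_an.U23oD

/-! A generated chart: the computations. -/

namespace Pool.Agent.Lib.MP_d6150d_an.U23o

theorem k9 : chk C 0x888881222881882882121 [(4398046511104, 8796093022208), (281474976710656,
    492581209243648), (0, 70368744177664)] = true := by
  decide +kernel

theorem k10 : chk C 0x8818888022888812212 [(4398046511104, 8796093022208), (492581209243648,
    703687441776640), (0, 70368744177664)] = true := by
  decide +kernel

theorem k11 : chk C 0xdd18282d828808211 [(4398046511104, 8796093022208), (281474976710656,
    492581209243648), (70368744177664, 140737488355328)] = true := by
  decide +kernel

theorem k12 : chk C 0xa8282dd08218812 [(4398046511104, 8796093022208), (492581209243648,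
    703687441776640), (70368744177664, 140737488355328)] = true := by
  decide +kernel

theorem k13 : chk C 0x888880022888808801221 [(4398046511104, 8796093022208), (703687441776640,
    1125899906842624), (0, 35184372088832)] = true := by
  decide +kernel

theorem k14 : chk C 0x8828821 [(4398046511104, 8796093022208), (703687441776640, 1125899906842624),
    (35184372088832, 70368744177664)] = true := by
  decide +kernel

theorem k15 : chk C 0x880828811 [(4398046511104, 8796093022208), (703687441776640,
    1125899906842624), (70368744177664, 105553116266496)] = true := by
  decide +kernel

theorem k16 : chk C 0x881881288a182188121 [(4398046511104, 8796093022208), (703687441776640,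
    1125899906842624), (105553116266496, 140737488355328)] = true := by
  decide +kernel

end Pool.Agent.Lib.MP_d6150d_an.U23o
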