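import Pool.Agent.Lib.MP_d6150d_an.GEq
import Pool.Agent.Lib.MP_d6150d_an.GMac
import Pool.Agent.Lib.MP_d6150d_an.U23oK0
import Pool.Agent.Lib.MP_d6150d_an.U23oK1

/-! A generated chart: the inequality. -/

namespace Pool.Agent.Lib.MP_d6150d_an.U23o

set_option linter.unnecessarySeqFocus false
set_option linter.unusedTactic false
set_option linter.unusedVariables false

theorem gd : Gd C [(0, 8796093022208), (281474976710656, 1125899906842624), (0, 140737488355328)] :=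
    .split 0 (.split 1 (.split 2 (.split 1 (chk_sound k0) (chk_sound k1)) (.split 1 (chk_sound k2)
    (chk_sound k3))) (.split 2 (.split 2 (chk_sound k4) (chk_sound k5)) (.split 2 (chk_sound k6)
    (.split 1 (chk_sound k7) (chk_sound k8))))) (.split 1 (.split 2 (.split 1 (chk_sound k9)
    (chk_sound k10)) (.split 1 (chk_sound k11) (chk_sound k12))) (.split 2 (.split 2 (chk_sound k13)
    (chk_sound k14)) (.split 2 (chk_sound k15) (chk_sound k16))))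

set_option maxRecDepth 100000 in
theorem eq {b t y nu sg n s D p z7 cc F Gc j i W al be V u I gh xh ah ch oh p1 q1 r1 p2 q2 r2 p3 n0
    n1 n2 g x ee a c o f h Z2 Z1 Z0 G N E z48 z49 : ℝ} (hnu : nu = y * (t - 3 / 5)) (hsg : sg =
    Real.exp (-nu)) (hn : n = Real.exp (nu - t)) (hs : s = Real.exp (-t)) (hD : D = s - n) (hp : p =
    Real.exp (-(2 * b * t))) (hz7 : z7 = ph1 (-(2 * b * t))) (hcc : cc = t * z7) (hF : F = 1 / 2 -
    b) (hGc : Gc = 1 - F) (hj : j = Gc⁻¹) (hi : i = F⁻¹) (hW : W = (1 - s) * (1 + D * sg)) (hal : al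
    = 2 * Gc * (1 + 2 * D)) (hbe : be = n * (1 - p * (1 - sg)) - 1 - D + s * D - (1 + D) * (p - s) *
    Gc * i) (hV : V = W⁻¹) (hu : u = sg * (al * cc + be)) (hI : I = (W + u)⁻¹) (hgh : gh = 2 * b *
    j) (hxh : xh = u * I) (hah : ah = j * sg * (1 + 2 * D - 2 * (1 + D) * s) * V) (hch : ch = -(j *
    (1 + D) * s * sg * V)) (hoh : oh = Gc * sg * I * p) (hp1 : p1 = 31 / 200 + 193 / 500 * D) (hq1 :
    q1 = -89 / 125 - 41 / 20 * D) (hr1 : r1 = -233 / 500 + 91 / 50 * D) (hp2 : p2 = -9 / 1000 - 511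
    / 10000 * D) (hq2 : q2 = 1117 / 10000 + 39 / 100 * D) (hr2 : r2 = -317 / 2000 - 73 / 250 * D)
    (hp3 : p3 = 81 / 500000 - 7 / 1000 * D) (hn0 : n0 = F * (9 * p1 + 3 * q1 + r1) * (1 - F - 2 * D)
    / 3 - (p2 + q2 + r2)) (hn1 : n1 = (131 / 2500 + 139 / 1000 * D) / 16) (hn2 : n2 = (497 / 2000 +
    61 / 100 * D) / 256) (hg : g = gh) (hx : x = xh) (hee : ee = 1) (ha : a = ee * ah) (hc : c = ee
    * ch) (ho : o = ee * oh) (hf : f = 1 - g) (hh : h = 1 - x) (hZ2 : Z2 = xh * (xh * (x * (3 * x -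
    36) - 72) + gh * (8 + x * (144 + 24 * x))) + gh ^ 2 * (4 - x * (36 + 54 * x) + g * (16 * x - g))
    + f * (ah * (8 - g * (22 - 11 * g) + x * (100 - 64 * g + 54 * x) + a * (25 * g - 37 - 48 * x +
    15 * a)) + (2 - g) * ch * (16 - 14 * g + 32 * x - 20 * a))) (hZ1 : Z1 = x * (8 + x * (8 - x) - g
    * (18 + 5 * x)) + g ^ 2 * (2 + 7 * x - g) + f * (a * (3 * a - 6 + 4 * g - 7 * x) - 2 * c * (2 -
    g))) (hZ0 : Z0 = g * (2 + 2 * x - g) - x * (4 - x) + a * f) (hG : G = (p3 + o * (p2 + o * p1)) *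
    Z2 + oh * h * ((q2 - 2 * p2 + (q1 - 3 * p1) * o) * Z1 + h * ((r2 + (r1 - q1) * o) * Z0 - r1 * o
    * h * (f + h)))) (hN : N = n2 + o * (n1 + o * n0)) (hE : E = N * (o + 1 / 16)⁻¹ ^ 3) (hz48 : z48
    = Real.exp nu) (hz49 : z49 = Real.exp (F * t)) : outR prog 0 [b, t, y] = z48 * (G + E * (oh * h
    ^ 2) ^ 2 * z49) ∧ outR (prog.take 13) 0 [b, t, y] = 2 / 5 + D := by
  replace hnu : nu = (y * (t - ((Int.cast (3) : ℝ) / (Nat.cast 5 : ℝ)))) := hnu.trans (by push_cast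
    <;> ring)
  replace hsg : sg = (Real.exp ((Int.cast (-1) : ℝ) * nu)) := hsg.trans (congrArg Real.exp (by
    push_cast <;> ring))
  replace hn : n = (Real.exp (nu - t)) := hn.trans (congrArg Real.exp (by push_cast <;> ring))
  replace hs : s = (Real.exp ((Int.cast (-1) : ℝ) * t)) := hs.trans (congrArg Real.exp (by push_cast
    <;> ring))
  replace hD : D = (s - n) := hD.trans (by push_cast <;> ring)
  replace hp : p = (Real.exp ((Int.cast (-1) : ℝ) * (((Int.cast (2) : ℝ) * b) * t))) := hp.trans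
    (congrArg Real.exp (by push_cast <;> ring))
  replace hz7 : z7 = (ph1 ((Int.cast (-1) : ℝ) * (((Int.cast (2) : ℝ) * b) * t))) := hz7.trans
    (congrArg ph1 (by push_cast <;> ring))
  replace hcc : cc = (t * z7) := hcc.trans (by push_cast <;> ring)
  replace hF : F = (((Int.cast (1) : ℝ) / (Nat.cast 2 : ℝ)) - b) := hF.trans (by push_cast <;> ring)
  replace hGc : Gc = ((Int.cast (1) : ℝ) - F) := hGc.trans (by push_cast <;> ring)
  replace hj : j = Gc⁻¹ := hj.trans (by push_cast <;> ring)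
  replace hi : i = F⁻¹ := hi.trans (by push_cast <;> ring)
  replace hW : W = (((Int.cast (1) : ℝ) - s) * ((Int.cast (1) : ℝ) + (D * sg))) := hW.trans (by
    push_cast <;> ring)
  replace hal : al = (((Int.cast (2) : ℝ) * Gc) * ((Int.cast (1) : ℝ) + ((Int.cast (2) : ℝ) * D)))
    := hal.trans (by push_cast <;> ring)
  replace hbe : be = (((((n * ((Int.cast (1) : ℝ) - (p * ((Int.cast (1) : ℝ) - sg)))) - (Int.cast
    (1) : ℝ)) - D) + (s * D)) - (((((Int.cast (1) : ℝ) + D) * (p - s)) * Gc) * i)) := hbe.trans (by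
    push_cast <;> ring)
  replace hV : V = W⁻¹ := hV.trans (by push_cast <;> ring)
  replace hu : u = (sg * ((al * cc) + be)) := hu.trans (by push_cast <;> ring)
  replace hI : I = (W + u)⁻¹ := hI.trans (by push_cast <;> ring)
  replace hgh : gh = (((Int.cast (2) : ℝ) * b) * j) := hgh.trans (by push_cast <;> ring)
  replace hxh : xh = (u * I) := hxh.trans (by push_cast <;> ring)
  replace hah : ah = (((j * sg) * (((Int.cast (1) : ℝ) + ((Int.cast (2) : ℝ) * D)) - (((Int.cast (2)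
    : ℝ) * ((Int.cast (1) : ℝ) + D)) * s))) * V) := hah.trans (by push_cast <;> ring)
  replace hch : ch = ((Int.cast (-1) : ℝ) * ((((j * ((Int.cast (1) : ℝ) + D)) * s) * sg) * V)) :=
    hch.trans (by push_cast <;> ring)
  replace hoh : oh = (((Gc * sg) * I) * p) := hoh.trans (by push_cast <;> ring)
  replace hp1 : p1 = (((Int.cast (31) : ℝ) / (Nat.cast 200 : ℝ)) + (((Int.cast (193) : ℝ) /
    (Nat.cast 500 : ℝ)) * D)) := hp1.trans (by push_cast <;> ring)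
  replace hq1 : q1 = (((Int.cast (-89) : ℝ) / (Nat.cast 125 : ℝ)) - (((Int.cast (41) : ℝ) /
    (Nat.cast 20 : ℝ)) * D)) := hq1.trans (by push_cast <;> ring)
  replace hr1 : r1 = (((Int.cast (-233) : ℝ) / (Nat.cast 500 : ℝ)) + (((Int.cast (91) : ℝ) /
    (Nat.cast 50 : ℝ)) * D)) := hr1.trans (by push_cast <;> ring)
  replace hp2 : p2 = (((Int.cast (-9) : ℝ) / (Nat.cast 1000 : ℝ)) - (((Int.cast (511) : ℝ) /
    (Nat.cast 10000 : ℝ)) * D)) := hp2.trans (by push_cast <;> ring)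
  replace hq2 : q2 = (((Int.cast (1117) : ℝ) / (Nat.cast 10000 : ℝ)) + (((Int.cast (39) : ℝ) /
    (Nat.cast 100 : ℝ)) * D)) := hq2.trans (by push_cast <;> ring)
  replace hr2 : r2 = (((Int.cast (-317) : ℝ) / (Nat.cast 2000 : ℝ)) - (((Int.cast (73) : ℝ) /
    (Nat.cast 250 : ℝ)) * D)) := hr2.trans (by push_cast <;> ring)
  replace hp3 : p3 = (((Int.cast (81) : ℝ) / (Nat.cast 500000 : ℝ)) - (((Int.cast (7) : ℝ) /
    (Nat.cast 1000 : ℝ)) * D)) := hp3.trans (by push_cast <;> ring)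
  replace hn0 : n0 = ((((Int.cast (1) : ℝ) / (Nat.cast 3 : ℝ)) * ((F * ((((Int.cast (9) : ℝ) * p1) +
    ((Int.cast (3) : ℝ) * q1)) + r1)) * (((Int.cast (1) : ℝ) - F) - ((Int.cast (2) : ℝ) * D)))) -
    ((p2 + q2) + r2)) := hn0.trans (by push_cast <;> ring)
  replace hn1 : n1 = (((Int.cast (1) : ℝ) / (Nat.cast 16 : ℝ)) * (((Int.cast (131) : ℝ) / (Nat.cast
    2500 : ℝ)) + (((Int.cast (139) : ℝ) / (Nat.cast 1000 : ℝ)) * D))) := hn1.trans (by push_cast <;>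
    ring)
  replace hn2 : n2 = (((Int.cast (1) : ℝ) / (Nat.cast 256 : ℝ)) * (((Int.cast (497) : ℝ) / (Nat.cast
    2000 : ℝ)) + (((Int.cast (61) : ℝ) / (Nat.cast 100 : ℝ)) * D))) := hn2.trans (by push_cast <;>
    ring)
  replace hee : ee = (Int.cast (1) : ℝ) := hee.trans (by push_cast <;> ring)
  replace ha : a = (ee * ah) := ha.trans (by push_cast <;> ring)
  replace hc : c = (ee * ch) := hc.trans (by push_cast <;> ring)
  replace ho : o = (ee * oh) := ho.trans (by push_cast <;> ring)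
  replace hf : f = ((Int.cast (1) : ℝ) - g) := hf.trans (by push_cast <;> ring)
  replace hh : h = ((Int.cast (1) : ℝ) - x) := hh.trans (by push_cast <;> ring)
  replace hZ2 : Z2 = (((xh * ((xh * ((x * (((Int.cast (3) : ℝ) * x) - (Int.cast (36) : ℝ))) -
    (Int.cast (72) : ℝ))) + (gh * ((Int.cast (8) : ℝ) + (x * ((Int.cast (144) : ℝ) + ((Int.cast (24)
    : ℝ) * x))))))) + ((gh * gh) * (((Int.cast (4) : ℝ) - (x * ((Int.cast (36) : ℝ) + ((Int.cast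
    (54) : ℝ) * x)))) + (g * (((Int.cast (16) : ℝ) * x) - g))))) + (f * ((ah * ((((Int.cast (8) : ℝ)
    - (g * ((Int.cast (22) : ℝ) - ((Int.cast (11) : ℝ) * g)))) + (x * (((Int.cast (100) : ℝ) -
    ((Int.cast (64) : ℝ) * g)) + ((Int.cast (54) : ℝ) * x)))) + (a * (((((Int.cast (25) : ℝ) * g) -
    (Int.cast (37) : ℝ)) - ((Int.cast (48) : ℝ) * x)) + ((Int.cast (15) : ℝ) * a))))) + ((((Int.cast
    (2) : ℝ) - g) * ch) * ((((Int.cast (16) : ℝ) - ((Int.cast (14) : ℝ) * g)) + ((Int.cast (32) : ℝ)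
    * x)) - ((Int.cast (20) : ℝ) * a)))))) := hZ2.trans (by push_cast <;> ring)
  replace hZ1 : Z1 = (((x * (((Int.cast (8) : ℝ) + (x * ((Int.cast (8) : ℝ) - x))) - (g * ((Int.cast
    (18) : ℝ) + ((Int.cast (5) : ℝ) * x))))) + ((g * g) * (((Int.cast (2) : ℝ) + ((Int.cast (7) : ℝ)
    * x)) - g))) + (f * ((a * (((((Int.cast (3) : ℝ) * a) - (Int.cast (6) : ℝ)) + ((Int.cast (4) :
    ℝ) * g)) - ((Int.cast (7) : ℝ) * x))) - (((Int.cast (2) : ℝ) * c) * ((Int.cast (2) : ℝ) - g)))))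
    := hZ1.trans (by push_cast <;> ring)
  replace hZ0 : Z0 = (((g * (((Int.cast (2) : ℝ) + ((Int.cast (2) : ℝ) * x)) - g)) - (x * ((Int.cast
    (4) : ℝ) - x))) + (a * f)) := hZ0.trans (by push_cast <;> ring)
  replace hG : G = (((p3 + (o * (p2 + (o * p1)))) * Z2) + ((oh * h) * ((((q2 - ((Int.cast (2) : ℝ) *
    p2)) + ((q1 - ((Int.cast (3) : ℝ) * p1)) * o)) * Z1) + (h * (((r2 + ((r1 - q1) * o)) * Z0) -
    (((r1 * o) * h) * (f + h))))))) := hG.trans (by push_cast <;> ring)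
  replace hN : N = (n2 + (o * (n1 + (o * n0)))) := hN.trans (by push_cast <;> ring)
  replace hE : E = (N * (((o + ((Int.cast (1) : ℝ) / (Nat.cast 16 : ℝ)))⁻¹ * (o + ((Int.cast (1) :
    ℝ) / (Nat.cast 16 : ℝ)))⁻¹) * (o + ((Int.cast (1) : ℝ) / (Nat.cast 16 : ℝ)))⁻¹)) := hE.trans (by
    push_cast <;> ring)
  replace hz49 : z49 = (Real.exp (F * t)) := hz49.trans (congrArg Real.exp (by push_cast <;> ring))
  have e0 : (z48 * (G + ((E * ((oh * (h * h)) * (oh * (h * h)))) * z49))) = z48 * (G + E * (oh * h ^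
    2) ^ 2 * z49) := by push_cast <;> ring
  have e1 : (((Int.cast (2) : ℝ) / (Nat.cast 5 : ℝ)) + D) = 2 / 5 + D := by push_cast <;> ring
  subst hnu hsg hn hs hD hp hz7 hcc hF hGc hj hi hW hal hbe hV hu hI hgh hxh hah hch hoh hp1 hq1 hr1
    hp2 hq2 hr2 hp3 hn0 hn1 hn2 hg hx hee ha hc ho hf hh hZ2 hZ1 hZ0 hG hN hE hz48 hz49
  refine ⟨Eq.trans ?_ e0, Eq.trans rfl e1⟩ <;>
    simp only [outR, prog, prog1, prog2, prog3, prog4, prog5, runR, stepR, gtR]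

theorem l0 : ((0 : ℤ) : ℝ) / 2 ^ 47 = 0 := by norm_num
theorem u0 : (1 / 16 : ℝ) = ((8796093022208 : ℤ) : ℝ) / 2 ^ 47 := by norm_num
theorem l1 : ((281474976710656 : ℤ) : ℝ) / 2 ^ 47 = 2 := by norm_num
theorem u1 : (8 : ℝ) = ((1125899906842624 : ℤ) : ℝ) / 2 ^ 47 := by norm_num
theorem l2 : ((0 : ℤ) : ℝ) / 2 ^ 47 = 0 := by norm_num
theorem u2 : (1 : ℝ) = ((140737488355328 : ℤ) : ℝ) / 2 ^ 47 := by norm_num

theorem out0 {b t y : ℝ} (a0 : 0 ≤ b) (b0 : b ≤ 1 / 16) (a1 : 2 ≤ t) (b1 : t ≤ 8) (a2 : 0 ≤ y) (b2 :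
    y ≤ 1) (c0 : 0 ≤ outR (prog.take 13) 0 [b, t, y]) : 0 < outR prog 0 [b, t, y] :=
  gd 0 (by decide) [b, t, y] (.cons ⟨l0.le.trans a0, b0.trans u0.le⟩ (.cons ⟨l1.le.trans a1,
    b1.trans u1.le⟩ (.cons ⟨l2.le.trans a2, b2.trans u2.le⟩ (.nil)))) ⟨nofun, nofun, nofun, trivial⟩
    (List.forall_mem_cons.2 ⟨c0, List.forall_mem_nil _⟩) (Van.of0 rfl) (nofun)

theorem pos0 {b t y nu sg n s D p z7 cc F Gc j i W al be V u I gh xh ah ch oh p1 q1 r1 p2 q2 r2 p3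
    n0 n1 n2 g x ee a c o f h Z2 Z1 Z0 G N E z48 z49 : ℝ} (hnu : nu = y * (t - 3 / 5)) (hsg : sg =
    Real.exp (-nu)) (hn : n = Real.exp (nu - t)) (hs : s = Real.exp (-t)) (hD : D = s - n) (hp : p =
    Real.exp (-(2 * b * t))) (hz7 : z7 = ph1 (-(2 * b * t))) (hcc : cc = t * z7) (hF : F = 1 / 2 -
    b) (hGc : Gc = 1 - F) (hj : j = Gc⁻¹) (hi : i = F⁻¹) (hW : W = (1 - s) * (1 + D * sg)) (hal : al
    = 2 * Gc * (1 + 2 * D)) (hbe : be = n * (1 - p * (1 - sg)) - 1 - D + s * D - (1 + D) * (p - s) *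
    Gc * i) (hV : V = W⁻¹) (hu : u = sg * (al * cc + be)) (hI : I = (W + u)⁻¹) (hgh : gh = 2 * b *
    j) (hxh : xh = u * I) (hah : ah = j * sg * (1 + 2 * D - 2 * (1 + D) * s) * V) (hch : ch = -(j *
    (1 + D) * s * sg * V)) (hoh : oh = Gc * sg * I * p) (hp1 : p1 = 31 / 200 + 193 / 500 * D) (hq1 :
    q1 = -89 / 125 - 41 / 20 * D) (hr1 : r1 = -233 / 500 + 91 / 50 * D) (hp2 : p2 = -9 / 1000 - 511
    / 10000 * D) (hq2 : q2 = 1117 / 10000 + 39 / 100 * D) (hr2 : r2 = -317 / 2000 - 73 / 250 * D)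
    (hp3 : p3 = 81 / 500000 - 7 / 1000 * D) (hn0 : n0 = F * (9 * p1 + 3 * q1 + r1) * (1 - F - 2 * D)
    / 3 - (p2 + q2 + r2)) (hn1 : n1 = (131 / 2500 + 139 / 1000 * D) / 16) (hn2 : n2 = (497 / 2000 +
    61 / 100 * D) / 256) (hg : g = gh) (hx : x = xh) (hee : ee = 1) (ha : a = ee * ah) (hc : c = ee
    * ch) (ho : o = ee * oh) (hf : f = 1 - g) (hh : h = 1 - x) (hZ2 : Z2 = xh * (xh * (x * (3 * x -
    36) - 72) + gh * (8 + x * (144 + 24 * x))) + gh ^ 2 * (4 - x * (36 + 54 * x) + g * (16 * x - g))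
    + f * (ah * (8 - g * (22 - 11 * g) + x * (100 - 64 * g + 54 * x) + a * (25 * g - 37 - 48 * x +
    15 * a)) + (2 - g) * ch * (16 - 14 * g + 32 * x - 20 * a))) (hZ1 : Z1 = x * (8 + x * (8 - x) - g
    * (18 + 5 * x)) + g ^ 2 * (2 + 7 * x - g) + f * (a * (3 * a - 6 + 4 * g - 7 * x) - 2 * c * (2 -
    g))) (hZ0 : Z0 = g * (2 + 2 * x - g) - x * (4 - x) + a * f) (hG : G = (p3 + o * (p2 + o * p1)) *
    Z2 + oh * h * ((q2 - 2 * p2 + (q1 - 3 * p1) * o) * Z1 + h * ((r2 + (r1 - q1) * o) * Z0 - r1 * o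
    * h * (f + h)))) (hN : N = n2 + o * (n1 + o * n0)) (hE : E = N * (o + 1 / 16)⁻¹ ^ 3) (hz48 : z48
    = Real.exp nu) (hz49 : z49 = Real.exp (F * t)) (a0 : 0 ≤ b) (b0 : b ≤ 1 / 16) (a1 : 2 ≤ t) (b1 :
    t ≤ 8) (a2 : 0 ≤ y) (b2 : y ≤ 1) (c0 : 0 ≤ 2 / 5 + D) : 0 < z48 * (G + E * (oh * h ^ 2) ^ 2 *
    z49) :=
  have e := eq hnu hsg hn hs hD hp hz7 hcc hF hGc hj hi hW hal hbe hV hu hI hgh hxh hah hch hoh hp1
    hq1 hr1 hp2 hq2 hr2 hp3 hn0 hn1 hn2 hg hx hee ha hc ho hf hh hZ2 hZ1 hZ0 hG hN hE hz48 hz49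
  (out0 a0 b0 a1 b1 a2 b2 (c0.trans_eq e.2.symm)).trans_eq e.1

end Pool.Agent.Lib.MP_d6150d_an.U23o
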