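import Pool.Agent.Lib.MP_d6150d_an.U23pD

/-! A generated chart: the computations. -/

namespace Pool.Agent.Lib.MP_d6150d_an.U23p

theorem k0 : chk C 0x881882182888213 [(0, 824633720832), (0, 70368744177664), (0, 35184372088832),
    (0, 70368744177664)] = true := by
  decide +kernel

theorem k1 : chk C 0x88182882833 [(0, 824633720832), (0, 35184372088832), (35184372088832,
    70368744177664), (0, 35184372088832)] = true := by
  decide +kernel

theorem k2 : chk C 0x88188183188188112 [(0, 824633720832), (0, 35184372088832), (35184372088832,
    70368744177664), (35184372088832, 70368744177664)] = true := by
  decide +kernel

theorem k3 : chk C 0x881828813 [(0, 824633720832), (35184372088832, 70368744177664),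
    (35184372088832, 70368744177664), (0, 35184372088832)] = true := by
  decide +kernel

theorem k4 : chk C 0x8818812 [(0, 412316860416), (35184372088832, 52776558133248), (35184372088832,
    70368744177664), (35184372088832, 70368744177664)] = true := by
  decide +kernel

theorem k5 : chk C 0x8838188128838188120 [(0, 412316860416), (52776558133248, 70368744177664),
    (35184372088832, 70368744177664), (35184372088832, 70368744177664)] = true := by
  decide +kernel

theorem k6 : chk C 0x881881288188120 [(412316860416, 824633720832), (35184372088832,
    52776558133248), (35184372088832, 70368744177664), (35184372088832, 70368744177664)] = true :=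
    by
  decide +kernel

theorem k7 : chk C 0x88381883812 [(412316860416, 824633720832), (52776558133248, 70368744177664),
    (35184372088832, 70368744177664), (35184372088832, 70368744177664)] = true := by
  decide +kernel

theorem k8 : chk C 0x8881182 [(0, 824633720832), (0, 70368744177664), (0, 17592186044416),
    (70368744177664, 140737488355328)] = true := by
  decide +kernel

theorem k9 : chk C 0x8818832 [(0, 824633720832), (0, 35184372088832), (17592186044416,
    35184372088832), (70368744177664, 140737488355328)] = true := by
  decide +kernel

end Pool.Agent.Lib.MP_d6150d_an.U23p
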