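import Pool.Agent.Lib.MP_d6150d_an.U23pD

/-! A generated chart: the computations. -/

namespace Pool.Agent.Lib.MP_d6150d_an.U23p

theorem k10 : chk C 0xe8382888321 [(0, 412316860416), (35184372088832, 70368744177664),
    (17592186044416, 35184372088832), (70368744177664, 140737488355328)] = true := by
  decide +kernel

theorem k11 : chk C 0xe838288288238883201 [(412316860416, 824633720832), (35184372088832,
    70368744177664), (17592186044416, 35184372088832), (70368744177664, 140737488355328)] = true :=
    by
  decide +kernel

theorem k12 : chk C 0xa8a13a1a82a1881882132 [(0, 824633720832), (0, 35184372088832),
    (35184372088832, 70368744177664), (70368744177664, 140737488355328)] = true := by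
  decide +kernel

theorem k13 : chk C 0xba88131bee23a838212 [(0, 824633720832), (35184372088832, 70368744177664),
    (35184372088832, 70368744177664), (70368744177664, 140737488355328)] = true := by
  decide +kernel

theorem k14 : chk C 0x88288182188188133 [(0, 824633720832), (0, 35184372088832), (70368744177664,
    105553116266496), (0, 35184372088832)] = true := by
  decide +kernel

theorem k15 : chk C 0x888218833 [(0, 824633720832), (0, 35184372088832), (105553116266496,
    140737488355328), (0, 17592186044416)] = true := by
  decide +kernel

theorem k16 : chk C 0x88801838812a88128818231 [(0, 824633720832), (0, 35184372088832),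
    (105553116266496, 140737488355328), (17592186044416, 35184372088832)] = true := by
  decide +kernel

end Pool.Agent.Lib.MP_d6150d_an.U23p
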