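import Pool.Agent.Lib.MP_d6150d_an.U23pD

/-! A generated chart: the computations. -/

namespace Pool.Agent.Lib.MP_d6150d_an.U23p

theorem k17 : chk C 0x88183 [(0, 824633720832), (35184372088832, 70368744177664), (70368744177664,
    105553116266496), (0, 17592186044416)] = true := by
  decide +kernel

theorem k18 : chk C 0x881881288118828188110 [(0, 824633720832), (35184372088832, 70368744177664),
    (70368744177664, 105553116266496), (17592186044416, 35184372088832)] = true := by
  decide +kernel

theorem k19 : chk C 0x881818813 [(0, 824633720832), (35184372088832, 70368744177664),
    (105553116266496, 140737488355328), (0, 17592186044416)] = true := by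
  decide +kernel

theorem k20 : chk C 0x881828801881821 [(0, 824633720832), (35184372088832, 70368744177664),
    (105553116266496, 140737488355328), (17592186044416, 35184372088832)] = true := by
  decide +kernel

theorem k21 : chk C 0xa8a12881823a8a1881231 [(0, 824633720832), (0, 35184372088832),
    (70368744177664, 105553116266496), (35184372088832, 70368744177664)] = true := by
  decide +kernel

theorem k22 : chk C 0xaa8a13a1a12 [(0, 824633720832), (0, 35184372088832), (105553116266496,
    140737488355328), (35184372088832, 70368744177664)] = true := by
  decide +kernel

theorem k23 : chk C 0xaba1eee1123a881388122 [(0, 824633720832), (35184372088832, 52776558133248),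
    (70368744177664, 140737488355328), (35184372088832, 70368744177664)] = true := by
  decide +kernel

theorem k24 : chk C 0xbbb828132 [(0, 824633720832), (52776558133248, 70368744177664),
    (70368744177664, 140737488355328), (35184372088832, 70368744177664)] = true := by
  decide +kernel

theorem k25 : chk C 0xba1a1 [(0, 824633720832), (0, 70368744177664), (70368744177664,
    140737488355328), (70368744177664, 140737488355328)] = true := by
  decide +kernel

end Pool.Agent.Lib.MP_d6150d_an.U23p
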