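import Pool.Agent.Lib.MP_d6150d_an.GEq
import Pool.Agent.Lib.MP_d6150d_an.GMac
import Pool.Agent.Lib.MP_d6150d_an.U23pK0
import Pool.Agent.Lib.MP_d6150d_an.U23pK1
import Pool.Agent.Lib.MP_d6150d_an.U23pK2

/-! A generated chart: the inequality. -/

namespace Pool.Agent.Lib.MP_d6150d_an.U23p

set_option linter.unnecessarySeqFocus false
set_option linter.unusedTactic false
set_option linter.unusedVariables false

theorem gd : Gd C [(0, 824633720832), (0, 70368744177664), (0, 140737488355328), (0,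
    140737488355328)] := .split 2 (.split 3 (.split 2 (chk_sound k0) (.split 1 (.split 3 (chk_sound
    k1) (chk_sound k2)) (.split 3 (chk_sound k3) (.split 0 (.split 1 (chk_sound k4) (chk_sound k5))
    (.split 1 (chk_sound k6) (chk_sound k7)))))) (.split 2 (.split 2 (chk_sound k8) (.split 1
    (chk_sound k9) (.split 0 (chk_sound k10) (chk_sound k11)))) (.split 1 (chk_sound k12) (chk_sound
    k13)))) (.split 3 (.split 3 (.split 1 (.split 2 (chk_sound k14) (.split 3 (chk_sound k15)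
    (chk_sound k16))) (.split 2 (.split 3 (chk_sound k17) (chk_sound k18)) (.split 3 (chk_sound k19)
    (chk_sound k20)))) (.split 1 (.split 2 (chk_sound k21) (chk_sound k22)) (.split 1 (chk_sound
    k23) (chk_sound k24)))) (chk_sound k25))

set_option maxRecDepth 100000 in
theorem eq {n e sg y k b s D p F Gc j i W al be V I WI gh xh ah ch w oh p1 q1 r1 p2 q2 r2 p3 n0 n1
    n2 g x ee a c o f h Z2 Z1 Z0 G N E : ℝ} (hk : k = sg * y) (hb : b = k * e) (hs : s = n * sg) (hD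
    : D = s - n) (hp : p = 1 - 2 * e) (hF : F = 1 / 2 - b) (hGc : Gc = 1 - F) (hj : j = Gc⁻¹) (hi :
    i = F⁻¹) (hW : W = (1 - s) * (1 + D * sg)) (hal : al = 2 * Gc * (1 + 2 * D)) (hbe : be = n * (1
    - p * (1 - sg)) - 1 - D + s * D - (1 + D) * (p - s) * Gc * i) (hV : V = W⁻¹) (hI : I = (y * W +
    al + k * be)⁻¹) (hWI : WI = W * I) (hgh : gh = 2 * b * j) (hxh : xh = 1 - y * WI) (hah : ah = j
    * sg * (1 + 2 * D - 2 * (1 + D) * s) * V) (hch : ch = -(j * (1 + D) * s * sg * V)) (hw : w = Gc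
    * I) (hoh : oh = w * p * k) (hp1 : p1 = 31 / 200 + 193 / 500 * D) (hq1 : q1 = -89 / 125 - 41 /
    20 * D) (hr1 : r1 = -233 / 500 + 91 / 50 * D) (hp2 : p2 = -9 / 1000 - 511 / 10000 * D) (hq2 : q2
    = 1117 / 10000 + 39 / 100 * D) (hr2 : r2 = -317 / 2000 - 73 / 250 * D) (hp3 : p3 = 81 / 500000 -
    7 / 1000 * D) (hn0 : n0 = F * (9 * p1 + 3 * q1 + r1) * (1 - F - 2 * D) / 3 - (p2 + q2 + r2))
    (hn1 : n1 = (131 / 2500 + 139 / 1000 * D) / 16) (hn2 : n2 = (497 / 2000 + 61 / 100 * D) / 256)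
    (hg : g = gh) (hx : x = xh) (hee : ee = 1) (ha : a = ee * ah) (hc : c = ee * ch) (ho : o = ee *
    oh) (hf : f = 1 - g) (hh : h = 1 - x) (hZ2 : Z2 = xh * (xh * (x * (3 * x - 36) - 72) + gh * (8 +
    x * (144 + 24 * x))) + gh ^ 2 * (4 - x * (36 + 54 * x) + g * (16 * x - g)) + f * (ah * (8 - g *
    (22 - 11 * g) + x * (100 - 64 * g + 54 * x) + a * (25 * g - 37 - 48 * x + 15 * a)) + (2 - g) *
    ch * (16 - 14 * g + 32 * x - 20 * a))) (hZ1 : Z1 = x * (8 + x * (8 - x) - g * (18 + 5 * x)) + g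
    ^ 2 * (2 + 7 * x - g) + f * (a * (3 * a - 6 + 4 * g - 7 * x) - 2 * c * (2 - g))) (hZ0 : Z0 = g *
    (2 + 2 * x - g) - x * (4 - x) + a * f) (hG : G = (p3 + o * (p2 + o * p1)) * Z2 + oh * h * ((q2 -
    2 * p2 + (q1 - 3 * p1) * o) * Z1 + h * ((r2 + (r1 - q1) * o) * Z0 - r1 * o * h * (f + h)))) (hN
    : N = n2 + o * (n1 + o * n0)) (hE : E = N * (o + 1 / 16)⁻¹ ^ 3) : outR prog 0 [n, e, sg, y] = sg
    ^ 4 * ((1500 + 80000 * k) * (1 - e)) * G + E * (w * WI ^ 2) ^ 2 ∧ outR prog 1 [n, e, sg, y] =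
    256 * N ∧ outR (prog.take 10) 0 [n, e, sg, y] = 65 / 512 + e / 4 - k ∧ outR (prog.take 14) 0 [n,
    e, sg, y] = 1 / 16 - b := by
  replace hk : k = (sg * y) := hk.trans (by push_cast <;> ring)
  replace hb : b = (k * e) := hb.trans (by push_cast <;> ring)
  replace hs : s = (n * sg) := hs.trans (by push_cast <;> ring)
  replace hD : D = (s - n) := hD.trans (by push_cast <;> ring)
  replace hp : p = ((Int.cast (1) : ℝ) - ((Int.cast (2) : ℝ) * e)) := hp.trans (by push_cast <;>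
    ring)
  replace hF : F = (((Int.cast (1) : ℝ) / (Nat.cast 2 : ℝ)) - b) := hF.trans (by push_cast <;> ring)
  replace hGc : Gc = ((Int.cast (1) : ℝ) - F) := hGc.trans (by push_cast <;> ring)
  replace hj : j = Gc⁻¹ := hj.trans (by push_cast <;> ring)
  replace hi : i = F⁻¹ := hi.trans (by push_cast <;> ring)
  replace hW : W = (((Int.cast (1) : ℝ) - s) * ((Int.cast (1) : ℝ) + (D * sg))) := hW.trans (by
    push_cast <;> ring)
  replace hal : al = (((Int.cast (2) : ℝ) * Gc) * ((Int.cast (1) : ℝ) + ((Int.cast (2) : ℝ) * D)))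
    := hal.trans (by push_cast <;> ring)
  replace hbe : be = (((((n * ((Int.cast (1) : ℝ) - (p * ((Int.cast (1) : ℝ) - sg)))) - (Int.cast
    (1) : ℝ)) - D) + (s * D)) - (((((Int.cast (1) : ℝ) + D) * (p - s)) * Gc) * i)) := hbe.trans (by
    push_cast <;> ring)
  replace hV : V = W⁻¹ := hV.trans (by push_cast <;> ring)
  replace hI : I = (((y * W) + al) + (k * be))⁻¹ := hI.trans (by push_cast <;> ring)
  replace hWI : WI = (W * I) := hWI.trans (by push_cast <;> ring)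
  replace hgh : gh = (((Int.cast (2) : ℝ) * b) * j) := hgh.trans (by push_cast <;> ring)
  replace hxh : xh = ((Int.cast (1) : ℝ) - (y * WI)) := hxh.trans (by push_cast <;> ring)
  replace hah : ah = (((j * sg) * (((Int.cast (1) : ℝ) + ((Int.cast (2) : ℝ) * D)) - (((Int.cast (2)
    : ℝ) * ((Int.cast (1) : ℝ) + D)) * s))) * V) := hah.trans (by push_cast <;> ring)
  replace hch : ch = ((Int.cast (-1) : ℝ) * ((((j * ((Int.cast (1) : ℝ) + D)) * s) * sg) * V)) :=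
    hch.trans (by push_cast <;> ring)
  replace hw : w = (Gc * I) := hw.trans (by push_cast <;> ring)
  replace hoh : oh = ((w * p) * k) := hoh.trans (by push_cast <;> ring)
  replace hp1 : p1 = (((Int.cast (31) : ℝ) / (Nat.cast 200 : ℝ)) + (((Int.cast (193) : ℝ) /
    (Nat.cast 500 : ℝ)) * D)) := hp1.trans (by push_cast <;> ring)
  replace hq1 : q1 = (((Int.cast (-89) : ℝ) / (Nat.cast 125 : ℝ)) - (((Int.cast (41) : ℝ) /
    (Nat.cast 20 : ℝ)) * D)) := hq1.trans (by push_cast <;> ring)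
  replace hr1 : r1 = (((Int.cast (-233) : ℝ) / (Nat.cast 500 : ℝ)) + (((Int.cast (91) : ℝ) /
    (Nat.cast 50 : ℝ)) * D)) := hr1.trans (by push_cast <;> ring)
  replace hp2 : p2 = (((Int.cast (-9) : ℝ) / (Nat.cast 1000 : ℝ)) - (((Int.cast (511) : ℝ) /
    (Nat.cast 10000 : ℝ)) * D)) := hp2.trans (by push_cast <;> ring)
  replace hq2 : q2 = (((Int.cast (1117) : ℝ) / (Nat.cast 10000 : ℝ)) + (((Int.cast (39) : ℝ) /
    (Nat.cast 100 : ℝ)) * D)) := hq2.trans (by push_cast <;> ring)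
  replace hr2 : r2 = (((Int.cast (-317) : ℝ) / (Nat.cast 2000 : ℝ)) - (((Int.cast (73) : ℝ) /
    (Nat.cast 250 : ℝ)) * D)) := hr2.trans (by push_cast <;> ring)
  replace hp3 : p3 = (((Int.cast (81) : ℝ) / (Nat.cast 500000 : ℝ)) - (((Int.cast (7) : ℝ) /
    (Nat.cast 1000 : ℝ)) * D)) := hp3.trans (by push_cast <;> ring)
  replace hn0 : n0 = ((((Int.cast (1) : ℝ) / (Nat.cast 3 : ℝ)) * ((F * ((((Int.cast (9) : ℝ) * p1) +
    ((Int.cast (3) : ℝ) * q1)) + r1)) * (((Int.cast (1) : ℝ) - F) - ((Int.cast (2) : ℝ) * D)))) -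
    ((p2 + q2) + r2)) := hn0.trans (by push_cast <;> ring)
  replace hn1 : n1 = (((Int.cast (1) : ℝ) / (Nat.cast 16 : ℝ)) * (((Int.cast (131) : ℝ) / (Nat.cast
    2500 : ℝ)) + (((Int.cast (139) : ℝ) / (Nat.cast 1000 : ℝ)) * D))) := hn1.trans (by push_cast <;>
    ring)
  replace hn2 : n2 = (((Int.cast (1) : ℝ) / (Nat.cast 256 : ℝ)) * (((Int.cast (497) : ℝ) / (Nat.cast
    2000 : ℝ)) + (((Int.cast (61) : ℝ) / (Nat.cast 100 : ℝ)) * D))) := hn2.trans (by push_cast <;>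
    ring)
  replace hee : ee = (Int.cast (1) : ℝ) := hee.trans (by push_cast <;> ring)
  replace ha : a = (ee * ah) := ha.trans (by push_cast <;> ring)
  replace hc : c = (ee * ch) := hc.trans (by push_cast <;> ring)
  replace ho : o = (ee * oh) := ho.trans (by push_cast <;> ring)
  replace hf : f = ((Int.cast (1) : ℝ) - g) := hf.trans (by push_cast <;> ring)
  replace hh : h = ((Int.cast (1) : ℝ) - x) := hh.trans (by push_cast <;> ring)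
  replace hZ2 : Z2 = (((xh * ((xh * ((x * (((Int.cast (3) : ℝ) * x) - (Int.cast (36) : ℝ))) -
    (Int.cast (72) : ℝ))) + (gh * ((Int.cast (8) : ℝ) + (x * ((Int.cast (144) : ℝ) + ((Int.cast (24)
    : ℝ) * x))))))) + ((gh * gh) * (((Int.cast (4) : ℝ) - (x * ((Int.cast (36) : ℝ) + ((Int.cast
    (54) : ℝ) * x)))) + (g * (((Int.cast (16) : ℝ) * x) - g))))) + (f * ((ah * ((((Int.cast (8) : ℝ)
    - (g * ((Int.cast (22) : ℝ) - ((Int.cast (11) : ℝ) * g)))) + (x * (((Int.cast (100) : ℝ) -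
    ((Int.cast (64) : ℝ) * g)) + ((Int.cast (54) : ℝ) * x)))) + (a * (((((Int.cast (25) : ℝ) * g) -
    (Int.cast (37) : ℝ)) - ((Int.cast (48) : ℝ) * x)) + ((Int.cast (15) : ℝ) * a))))) + ((((Int.cast
    (2) : ℝ) - g) * ch) * ((((Int.cast (16) : ℝ) - ((Int.cast (14) : ℝ) * g)) + ((Int.cast (32) : ℝ)
    * x)) - ((Int.cast (20) : ℝ) * a)))))) := hZ2.trans (by push_cast <;> ring)
  replace hZ1 : Z1 = (((x * (((Int.cast (8) : ℝ) + (x * ((Int.cast (8) : ℝ) - x))) - (g * ((Int.cast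
    (18) : ℝ) + ((Int.cast (5) : ℝ) * x))))) + ((g * g) * (((Int.cast (2) : ℝ) + ((Int.cast (7) : ℝ)
    * x)) - g))) + (f * ((a * (((((Int.cast (3) : ℝ) * a) - (Int.cast (6) : ℝ)) + ((Int.cast (4) :
    ℝ) * g)) - ((Int.cast (7) : ℝ) * x))) - (((Int.cast (2) : ℝ) * c) * ((Int.cast (2) : ℝ) - g)))))
    := hZ1.trans (by push_cast <;> ring)
  replace hZ0 : Z0 = (((g * (((Int.cast (2) : ℝ) + ((Int.cast (2) : ℝ) * x)) - g)) - (x * ((Int.cast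
    (4) : ℝ) - x))) + (a * f)) := hZ0.trans (by push_cast <;> ring)
  replace hG : G = (((p3 + (o * (p2 + (o * p1)))) * Z2) + ((oh * h) * ((((q2 - ((Int.cast (2) : ℝ) *
    p2)) + ((q1 - ((Int.cast (3) : ℝ) * p1)) * o)) * Z1) + (h * (((r2 + ((r1 - q1) * o)) * Z0) -
    (((r1 * o) * h) * (f + h))))))) := hG.trans (by push_cast <;> ring)
  replace hN : N = (n2 + (o * (n1 + (o * n0)))) := hN.trans (by push_cast <;> ring)
  replace hE : E = (N * (((o + ((Int.cast (1) : ℝ) / (Nat.cast 16 : ℝ)))⁻¹ * (o + ((Int.cast (1) :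
    ℝ) / (Nat.cast 16 : ℝ)))⁻¹) * (o + ((Int.cast (1) : ℝ) / (Nat.cast 16 : ℝ)))⁻¹)) := hE.trans (by
    push_cast <;> ring)
  have e0 : (((((sg * sg) * (sg * sg)) * (((Int.cast (1500) : ℝ) + ((Int.cast (80000) : ℝ) * k)) *
    ((Int.cast (1) : ℝ) - e))) * G) + (E * ((w * (WI * WI)) * (w * (WI * WI))))) = sg ^ 4 * ((1500 +
    80000 * k) * (1 - e)) * G + E * (w * WI ^ 2) ^ 2 := by push_cast <;> ring
  have e1 : ((Int.cast (256) : ℝ) * N) = 256 * N := by push_cast <;> ring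
  have e2 : ((((Int.cast (65) : ℝ) / (Nat.cast 512 : ℝ)) + (((Int.cast (1) : ℝ) / (Nat.cast 4 : ℝ))
    * e)) - k) = 65 / 512 + e / 4 - k := by push_cast <;> ring
  have e3 : (((Int.cast (1) : ℝ) / (Nat.cast 16 : ℝ)) - b) = 1 / 16 - b := by push_cast <;> ring
  subst hk hb hs hD hp hF hGc hj hi hW hal hbe hV hI hWI hgh hxh hah hch hw hoh hp1 hq1 hr1 hp2 hq2
    hr2 hp3 hn0 hn1 hn2 hg hx hee ha hc ho hf hh hZ2 hZ1 hZ0 hG hN hE
  refine ⟨Eq.trans ?_ e0, Eq.trans ?_ e1, Eq.trans rfl e2, Eq.trans rfl e3⟩ <;>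
    simp only [outR, prog, prog1, prog2, prog3, prog4, prog5, runR, stepR, gtR]

theorem l0 : ((0 : ℤ) : ℝ) / 2 ^ 47 = 0 := by norm_num
theorem u0 : (3 / 512 : ℝ) = ((824633720832 : ℤ) : ℝ) / 2 ^ 47 := by norm_num
theorem l1 : ((0 : ℤ) : ℝ) / 2 ^ 47 = 0 := by norm_num
theorem u1 : (1 / 2 : ℝ) = ((70368744177664 : ℤ) : ℝ) / 2 ^ 47 := by norm_num
theorem l2 : ((0 : ℤ) : ℝ) / 2 ^ 47 = 0 := by norm_num
theorem u2 : (1 : ℝ) = ((140737488355328 : ℤ) : ℝ) / 2 ^ 47 := by norm_num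
theorem l3 : ((0 : ℤ) : ℝ) / 2 ^ 47 = 0 := by norm_num
theorem u3 : (1 : ℝ) = ((140737488355328 : ℤ) : ℝ) / 2 ^ 47 := by norm_num

theorem out0 {n e sg y : ℝ} (a0 : 0 ≤ n) (b0 : n ≤ 3 / 512) (a1 : 0 ≤ e) (b1 : e ≤ 1 / 2) (a2 : 0 ≤
    sg) (b2 : sg ≤ 1) (a3 : 0 ≤ y) (b3 : y ≤ 1) (c0 : 0 ≤ outR (prog.take 10) 0 [n, e, sg, y]) (c1 :
    0 ≤ outR (prog.take 14) 0 [n, e, sg, y]) : 0 < outR prog 0 [n, e, sg, y] :=
  gd 0 (by decide) [n, e, sg, y] (.cons ⟨l0.le.trans a0, b0.trans u0.le⟩ (.cons ⟨l1.le.trans a1,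
    b1.trans u1.le⟩ (.cons ⟨l2.le.trans a2, b2.trans u2.le⟩ (.cons ⟨l3.le.trans a3, b3.trans u3.le⟩
    (.nil))))) ⟨nofun, nofun, nofun, nofun, trivial⟩ (List.forall_mem_cons.2 ⟨c0,
    List.forall_mem_cons.2 ⟨c1, List.forall_mem_nil _⟩⟩) (Van.of0 rfl) (nofun)

theorem pos0 {n e sg y k b s D p F Gc j i W al be V I WI gh xh ah ch w oh p1 q1 r1 p2 q2 r2 p3 n0 n1
    n2 g x ee a c o f h Z2 Z1 Z0 G N E : ℝ} (hk : k = sg * y) (hb : b = k * e) (hs : s = n * sg) (hD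
    : D = s - n) (hp : p = 1 - 2 * e) (hF : F = 1 / 2 - b) (hGc : Gc = 1 - F) (hj : j = Gc⁻¹) (hi :
    i = F⁻¹) (hW : W = (1 - s) * (1 + D * sg)) (hal : al = 2 * Gc * (1 + 2 * D)) (hbe : be = n * (1
    - p * (1 - sg)) - 1 - D + s * D - (1 + D) * (p - s) * Gc * i) (hV : V = W⁻¹) (hI : I = (y * W +
    al + k * be)⁻¹) (hWI : WI = W * I) (hgh : gh = 2 * b * j) (hxh : xh = 1 - y * WI) (hah : ah = j
    * sg * (1 + 2 * D - 2 * (1 + D) * s) * V) (hch : ch = -(j * (1 + D) * s * sg * V)) (hw : w = Gc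
    * I) (hoh : oh = w * p * k) (hp1 : p1 = 31 / 200 + 193 / 500 * D) (hq1 : q1 = -89 / 125 - 41 /
    20 * D) (hr1 : r1 = -233 / 500 + 91 / 50 * D) (hp2 : p2 = -9 / 1000 - 511 / 10000 * D) (hq2 : q2
    = 1117 / 10000 + 39 / 100 * D) (hr2 : r2 = -317 / 2000 - 73 / 250 * D) (hp3 : p3 = 81 / 500000 -
    7 / 1000 * D) (hn0 : n0 = F * (9 * p1 + 3 * q1 + r1) * (1 - F - 2 * D) / 3 - (p2 + q2 + r2))
    (hn1 : n1 = (131 / 2500 + 139 / 1000 * D) / 16) (hn2 : n2 = (497 / 2000 + 61 / 100 * D) / 256)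
    (hg : g = gh) (hx : x = xh) (hee : ee = 1) (ha : a = ee * ah) (hc : c = ee * ch) (ho : o = ee *
    oh) (hf : f = 1 - g) (hh : h = 1 - x) (hZ2 : Z2 = xh * (xh * (x * (3 * x - 36) - 72) + gh * (8 +
    x * (144 + 24 * x))) + gh ^ 2 * (4 - x * (36 + 54 * x) + g * (16 * x - g)) + f * (ah * (8 - g *
    (22 - 11 * g) + x * (100 - 64 * g + 54 * x) + a * (25 * g - 37 - 48 * x + 15 * a)) + (2 - g) *
    ch * (16 - 14 * g + 32 * x - 20 * a))) (hZ1 : Z1 = x * (8 + x * (8 - x) - g * (18 + 5 * x)) + g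
    ^ 2 * (2 + 7 * x - g) + f * (a * (3 * a - 6 + 4 * g - 7 * x) - 2 * c * (2 - g))) (hZ0 : Z0 = g *
    (2 + 2 * x - g) - x * (4 - x) + a * f) (hG : G = (p3 + o * (p2 + o * p1)) * Z2 + oh * h * ((q2 -
    2 * p2 + (q1 - 3 * p1) * o) * Z1 + h * ((r2 + (r1 - q1) * o) * Z0 - r1 * o * h * (f + h)))) (hN
    : N = n2 + o * (n1 + o * n0)) (hE : E = N * (o + 1 / 16)⁻¹ ^ 3) (a0 : 0 ≤ n) (b0 : n ≤ 3 / 512)
    (a1 : 0 ≤ e) (b1 : e ≤ 1 / 2) (a2 : 0 ≤ sg) (b2 : sg ≤ 1) (a3 : 0 ≤ y) (b3 : y ≤ 1) (c0 : 0 ≤ 65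
    / 512 + e / 4 - k) (c1 : 0 ≤ 1 / 16 - b) : 0 < sg ^ 4 * ((1500 + 80000 * k) * (1 - e)) * G + E *
    (w * WI ^ 2) ^ 2 :=
  have e := eq hk hb hs hD hp hF hGc hj hi hW hal hbe hV hI hWI hgh hxh hah hch hw hoh hp1 hq1 hr1
    hp2 hq2 hr2 hp3 hn0 hn1 hn2 hg hx hee ha hc ho hf hh hZ2 hZ1 hZ0 hG hN hE
  (out0 a0 b0 a1 b1 a2 b2 a3 b3 (c0.trans_eq e.2.2.1.symm) (c1.trans_eq e.2.2.2.symm)).trans_eq e.1

theorem out1 {n e sg y : ℝ} (a0 : 0 ≤ n) (b0 : n ≤ 3 / 512) (a1 : 0 ≤ e) (b1 : e ≤ 1 / 2) (a2 : 0 ≤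
    sg) (b2 : sg ≤ 1) (a3 : 0 ≤ y) (b3 : y ≤ 1) (c0 : 0 ≤ outR (prog.take 10) 0 [n, e, sg, y]) (c1 :
    0 ≤ outR (prog.take 14) 0 [n, e, sg, y]) : 0 < outR prog 1 [n, e, sg, y] :=
  gd 1 (by decide) [n, e, sg, y] (.cons ⟨l0.le.trans a0, b0.trans u0.le⟩ (.cons ⟨l1.le.trans a1,
    b1.trans u1.le⟩ (.cons ⟨l2.le.trans a2, b2.trans u2.le⟩ (.cons ⟨l3.le.trans a3, b3.trans u3.le⟩
    (.nil))))) ⟨nofun, nofun, nofun, nofun, trivial⟩ (List.forall_mem_cons.2 ⟨c0,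
    List.forall_mem_cons.2 ⟨c1, List.forall_mem_nil _⟩⟩) (Van.of0 rfl) (nofun)

theorem pos1 {n e sg y k b s D p F Gc j i W al be V I WI gh xh ah ch w oh p1 q1 r1 p2 q2 r2 p3 n0 n1
    n2 g x ee a c o f h Z2 Z1 Z0 G N E : ℝ} (hk : k = sg * y) (hb : b = k * e) (hs : s = n * sg) (hD
    : D = s - n) (hp : p = 1 - 2 * e) (hF : F = 1 / 2 - b) (hGc : Gc = 1 - F) (hj : j = Gc⁻¹) (hi :
    i = F⁻¹) (hW : W = (1 - s) * (1 + D * sg)) (hal : al = 2 * Gc * (1 + 2 * D)) (hbe : be = n * (1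
    - p * (1 - sg)) - 1 - D + s * D - (1 + D) * (p - s) * Gc * i) (hV : V = W⁻¹) (hI : I = (y * W +
    al + k * be)⁻¹) (hWI : WI = W * I) (hgh : gh = 2 * b * j) (hxh : xh = 1 - y * WI) (hah : ah = j
    * sg * (1 + 2 * D - 2 * (1 + D) * s) * V) (hch : ch = -(j * (1 + D) * s * sg * V)) (hw : w = Gc
    * I) (hoh : oh = w * p * k) (hp1 : p1 = 31 / 200 + 193 / 500 * D) (hq1 : q1 = -89 / 125 - 41 /
    20 * D) (hr1 : r1 = -233 / 500 + 91 / 50 * D) (hp2 : p2 = -9 / 1000 - 511 / 10000 * D) (hq2 : q2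
    = 1117 / 10000 + 39 / 100 * D) (hr2 : r2 = -317 / 2000 - 73 / 250 * D) (hp3 : p3 = 81 / 500000 -
    7 / 1000 * D) (hn0 : n0 = F * (9 * p1 + 3 * q1 + r1) * (1 - F - 2 * D) / 3 - (p2 + q2 + r2))
    (hn1 : n1 = (131 / 2500 + 139 / 1000 * D) / 16) (hn2 : n2 = (497 / 2000 + 61 / 100 * D) / 256)
    (hg : g = gh) (hx : x = xh) (hee : ee = 1) (ha : a = ee * ah) (hc : c = ee * ch) (ho : o = ee *
    oh) (hf : f = 1 - g) (hh : h = 1 - x) (hZ2 : Z2 = xh * (xh * (x * (3 * x - 36) - 72) + gh * (8 +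
    x * (144 + 24 * x))) + gh ^ 2 * (4 - x * (36 + 54 * x) + g * (16 * x - g)) + f * (ah * (8 - g *
    (22 - 11 * g) + x * (100 - 64 * g + 54 * x) + a * (25 * g - 37 - 48 * x + 15 * a)) + (2 - g) *
    ch * (16 - 14 * g + 32 * x - 20 * a))) (hZ1 : Z1 = x * (8 + x * (8 - x) - g * (18 + 5 * x)) + g
    ^ 2 * (2 + 7 * x - g) + f * (a * (3 * a - 6 + 4 * g - 7 * x) - 2 * c * (2 - g))) (hZ0 : Z0 = g *
    (2 + 2 * x - g) - x * (4 - x) + a * f) (hG : G = (p3 + o * (p2 + o * p1)) * Z2 + oh * h * ((q2 -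
    2 * p2 + (q1 - 3 * p1) * o) * Z1 + h * ((r2 + (r1 - q1) * o) * Z0 - r1 * o * h * (f + h)))) (hN
    : N = n2 + o * (n1 + o * n0)) (hE : E = N * (o + 1 / 16)⁻¹ ^ 3) (a0 : 0 ≤ n) (b0 : n ≤ 3 / 512)
    (a1 : 0 ≤ e) (b1 : e ≤ 1 / 2) (a2 : 0 ≤ sg) (b2 : sg ≤ 1) (a3 : 0 ≤ y) (b3 : y ≤ 1) (c0 : 0 ≤ 65
    / 512 + e / 4 - k) (c1 : 0 ≤ 1 / 16 - b) : 0 < 256 * N :=
  have e := eq hk hb hs hD hp hF hGc hj hi hW hal hbe hV hI hWI hgh hxh hah hch hw hoh hp1 hq1 hr1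
    hp2 hq2 hr2 hp3 hn0 hn1 hn2 hg hx hee ha hc ho hf hh hZ2 hZ1 hZ0 hG hN hE
  (out1 a0 b0 a1 b1 a2 b2 a3 b3 (c0.trans_eq e.2.2.1.symm) (c1.trans_eq e.2.2.2.symm)).trans_eq
    e.2.1

end Pool.Agent.Lib.MP_d6150d_an.U23p
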