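import Pool.Agent.Lib.MP_d6150d_an.U23qD

/-! A generated chart: the computations. -/

namespace Pool.Agent.Lib.MP_d6150d_an.U23q

theorem k0 : chk C 0x88183 [(0, 824633720832), (0, 70368744177664), (0, 35184372088832), (0,
    70368744177664)] = true := by
  decide +kernel

theorem k1 : chk C 0x882838828318818288130 [(0, 824633720832), (0, 70368744177664), (0,
    17592186044416), (70368744177664, 140737488355328)] = true := by
  decide +kernel

theorem k2 : chk C 0x881838d1831 [(0, 824633720832), (0, 70368744177664), (17592186044416,
    35184372088832), (70368744177664, 140737488355328)] = true := by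
  decide +kernel

end Pool.Agent.Lib.MP_d6150d_an.U23q
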