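import Pool.Agent.Lib.MP_d6150d_an.U23tD

/-! A generated chart: the computations. -/

namespace Pool.Agent.Lib.MP_d6150d_an.U23t

theorem k0 : chk C 0x88188038808188030888212 [(0, 48378511622144), (0, 70368744177664), (0,
    140737488355328), (0, 35184372088832)] = true := by
  decide +kernel

theorem k1 : chk C 0x88281 [(0, 48378511622144), (70368744177664, 140737488355328), (0,
    70368744177664), (0, 35184372088832)] = true := by
  decide +kernel

theorem k2 : chk C 0x8818283 [(0, 48378511622144), (70368744177664, 105553116266496),
    (70368744177664, 140737488355328), (0, 35184372088832)] = true := by
  decide +kernel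

theorem k3 : chk C 0x88281880388801830 [(0, 48378511622144), (105553116266496, 140737488355328),
    (70368744177664, 140737488355328), (0, 35184372088832)] = true := by
  decide +kernel

theorem k4 : chk C 0x881888022881838881220 [(0, 48378511622144), (0, 70368744177664), (0,
    70368744177664), (35184372088832, 70368744177664)] = true := by
  decide +kernel

theorem k5 : chk C 0x88188028821883880288210 [(0, 48378511622144), (70368744177664,
    140737488355328), (0, 70368744177664), (35184372088832, 70368744177664)] = true := by
  decide +kernel

theorem k6 : chk C 0xa8d0d138812 [(0, 48378511622144), (0, 70368744177664), (70368744177664,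
    140737488355328), (35184372088832, 52776558133248)] = true := by
  decide +kernel

theorem k7 : chk C 0xaa881238812aa823821 [(0, 48378511622144), (70368744177664, 140737488355328),
    (70368744177664, 140737488355328), (35184372088832, 52776558133248)] = true := by
  decide +kernel

theorem k8 : chk C 0xaa881d1da821123 [(0, 48378511622144), (0, 140737488355328), (70368744177664,
    140737488355328), (52776558133248, 70368744177664)] = true := by
  decide +kernel

end Pool.Agent.Lib.MP_d6150d_an.U23t
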