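import Pool.Agent.Lib.MP_d6150d_an.Z3a
import Pool.Agent.Lib.MP_d6150d_an.U23G3
import Pool.Agent.Lib.MP_d6150d_an.U23c
import Pool.Agent.Lib.MP_d6150d_an.U23m
import Pool.Agent.Lib.MP_d6150d_an.U23t
import Pool.Agent.Lib.MP_d6150d_an.U23l
import Pool.Agent.Lib.MP_d6150d_an.U23o
import Pool.Agent.Lib.MP_d6150d_an.U23a
import Pool.Agent.Lib.MP_d6150d_an.U23e
import Pool.Agent.Lib.MP_d6150d_an.U23q
import Pool.Agent.Lib.MP_d6150d_an.U23p

/-! The cell `7 / 16 ≤ F ≤ 1 / 2`, `-2 / 5 ≤ D < 0`. -/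

namespace Pool.Agent.Lib.MP_d6150d_an

open Real Set

namespace U23

variable {D F t b : ℝ}

/-- the coefficients -/
noncomputable def kk (D F : ℝ) : Co where
  p1 := 31 / 200 + 193 / 500 * D
  q1 := -89 / 125 - 41 / 20 * D
  r1 := -233 / 500 + 91 / 50 * D
  p2 := -9 / 1000 - 511 / 10000 * D
  q2 := 1117 / 10000 + 39 / 100 * D
  r2 := -317 / 2000 - 73 / 250 * D
  p3 := 81 / 500000 - 7 / 1000 * D
  n0 := F * (9 * (31 / 200 + 193 / 500 * D) + 3 * (-89 / 125 - 41 / 20 * D) +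
    (-233 / 500 + 91 / 50 * D)) * (1 - F - 2 * D) / 3 - (-9 / 1000 - 511 / 10000 * D +
    (1117 / 10000 + 39 / 100 * D) + (-317 / 2000 - 73 / 250 * D))
  n1 := (131 / 2500 + 139 / 1000 * D) / 16
  n2 := (497 / 2000 + 61 / 100 * D) / 256

theorem cR (a F t : ℝ) :
    outR U23c.prog 0 [a, F, t] = (kk (-(2 * a / 5)) F).GR (-(2 * a / 5)) F t :=
  U23c.eq rfl rfl rfl rfl rfl rfl rfl rfl rfl rfl rfl rfl rfl rfl rfl rfl rfl rfl rfl rfl rfl rfl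
    rfl rfl rfl rfl rfl

theorem cL (a F s : ℝ) :
    outR U23l.prog 0 [a, F, s] = (kk (-(2 * a / 5)) F).GM (-(2 * a / 5)) F (-s) :=
  U23l.eq rfl rfl rfl rfl rfl (congrArg exp (neg_neg s)) rfl rfl rfl rfl rfl rfl rfl rfl rfl rfl rfl
    rfl rfl rfl rfl rfl rfl rfl rfl rfl rfl rfl rfl rfl

theorem cellR (hb : F = 1 / 2 - b) (b0 : 0 ≤ b) (b1 : b ≤ 1 / 16) (d0 : -2 / 5 ≤ D) (d1 : D < 0)
    (h0 : 0 < t) : 0 < (kk D F).De D F t := by
  have ht := Z3.mem (by linarith) d1 t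
  have F0 : 0 < F := by linarith
  obtain ⟨a, hD⟩ : ∃ a, D = -(2 * a / 5) := ⟨-(5 * D / 2), by ring⟩
  have a0 : 0 ≤ a := by linarith
  have a1 : a ≤ 1 := by linarith
  rcases le_total t 2 with h2 | h2
  · refine Co.posR F0.ne' ht h0 ?_
    rw [hD, ← cR]
    exact U23c.out0 (fun a F _ _ h _ ↦ by
      have F0 : F ≠ 0 := by linarith
      simpa only [cR] using Co.OR F0 (Co.O5 rfl)) a0 a1 (by linarith) (by linarith) h0.le h2 h0
  obtain ⟨c, hc⟩ : ∃ c, c = t * ph1 (-(2 * b * t)) := ⟨_, rfl⟩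
  obtain ⟨p, hp⟩ : ∃ p, p = exp (-(2 * b * t)) := ⟨_, rfl⟩
  obtain ⟨x, hx⟩ : ∃ x, x = exp ((4 * b - 1) * t) * c ^ 2 := ⟨_, rfl⟩
  refine Co.coreR hb F0 (by linarith) ht h0 hp hc rfl hx
    fun i j dl w z r h W M m A B hi hj hdl hw hz hr hh hW hM hm hA hB w0 z1 ↦ ?_
  rcases le_total t 5 with h5 | h5
  · have H : 0 < dl * exp (2 * F * t) * (c⁻¹ * (kk D F).RU dl w M m A) +
        (kk D F).RG p c⁻¹ x dl w z r M m A B - (kk D F).RE c⁻¹ z M * exp ((3 * b - 1 / 2) * t) :=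
      U23m.pos0 hD hb hp rfl hc rfl rfl hx rfl rfl rfl rfl rfl rfl rfl rfl rfl rfl hi hj hdl hw hz
      hr hh hW hM hm rfl rfl hA hB rfl rfl rfl rfl rfl rfl rfl rfl rfl rfl
        a0 a1 b0 b1 h2 h5
    refine (mul_pos w0 H).trans_eq ?_
    linear_combination dl * (kk D F).RU dl w M m A * (z1 - exp (2 * F * t) * hz)
  · obtain ⟨f1, f2⟩ := facts5 b0 b1 h5 hc
    have c0 : 0 < c := hc ▸ mul_pos h0 (ph1_pos _)
    have c1 := mul_inv_cancel₀ c0.ne'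
    have e0 : 0 ≤ b * c := by positivity
    have hp' := hp.trans (cexp' hc)
    have e1 : b * c ≤ 1 / 2 := by linarith [hp ▸ exp_pos _]
    have k0 : 0 < 13 / 64 + b * c / 3 := by positivity
    have hk : c⁻¹ = c⁻¹ / (13 / 64 + b * c / 3) * (13 / 64 + b * c / 3) :=
      (div_mul_cancel₀ _ k0.ne').symm
    have g0 : 0 ≤ c⁻¹ / (13 / 64 + b * c / 3) := by positivity
    have g1 : c⁻¹ / (13 / 64 + b * c / 3) ≤ 1 := (div_le_one k0).2 (by
      rw [inv_le_iff_one_le_mul₀ c0]; linarith)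
    have hb' : b = c⁻¹ * (b * c) := by linear_combination -b * c1
    have x0 : 0 ≤ x := by rw [hx]; positivity
    have H0 : 0 < (kk D F).RG p c⁻¹ x dl w z r M m A B -
        (kk D F).RE c⁻¹ z M * exp (15 * b - 5 / 2) :=
      U23t.pos0 hk hb' hD hb hp' rfl rfl rfl rfl rfl rfl rfl rfl rfl rfl hi hj hdl hw hz hr hh hW hM
      hm rfl rfl hA hB rfl rfl rfl rfl rfl rfl rfl rfl
        x0 (hx ▸ f2) a0 a1 g0 g1 e0 e1 (sub_nonneg.2 b1)
    have H1 : 0 < (kk D F).RG p c⁻¹ x dl w z r M m A B :=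
      U23t.pos1 hk hb' hD hb hp' rfl rfl rfl rfl rfl rfl rfl rfl rfl rfl hi hj hdl hw hz hr hh hW hM
      hm rfl rfl hA hB rfl rfl rfl rfl rfl rfl rfl rfl
        x0 (hx ▸ f2) a0 a1 g0 g1 e0 e1 (sub_nonneg.2 b1)
    have H2 : 0 < (kk D F).RU dl w M m A :=
      U23t.pos2 hk hb' hD hb hp' rfl rfl rfl rfl rfl rfl rfl rfl rfl rfl hi hj hdl hw hz hr hh hW hM
      hm rfl rfl hA hB rfl rfl rfl rfl rfl rfl rfl rfl
        x0 (hx ▸ f2) a0 a1 g0 g1 e0 e1 (sub_nonneg.2 b1)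
    have l0 : 0 ≤ dl := by rw [hdl, hi]; positivity
    have u1 : exp ((3 * b - 1 / 2) * t) ≤ exp (15 * b - 5 / 2) := exp_le_exp.2 (by nlinarith)
    refine add_pos_of_nonneg_of_pos (by positivity) (mul_pos w0 ?_)
    rcases le_total ((kk D F).RE c⁻¹ z M) 0 with h | h
    · linarith [mul_nonpos_of_nonpos_of_nonneg h (exp_pos ((3 * b - 1 / 2) * t)).le]
    · linarith [mul_le_mul_of_nonneg_left u1 h]

theorem cut (a y e : ℝ) (a0 : 0 ≤ a) (a1 : a ≤ 1) (y0 : 0 ≤ y) (e0 : 0 ≤ e) :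
    0 ≤ outR U23a.prog 0 [a, y, e, 0] ∧ 0 ≤ outR U23a.prog 1 [a, y, e, 0] := by
  obtain ⟨κ, hκ⟩ : ∃ κ, κ = y * (65 / 512 + e / 4) := ⟨_, rfl⟩
  obtain ⟨D, hD⟩ : ∃ D, D = -(2 * a / 5) := ⟨_, rfl⟩
  obtain ⟨F, hF⟩ : ∃ F, F = 1 / 2 - κ * e := ⟨_, rfl⟩
  have E : outR U23a.prog 0 [a, y, e, 0] = 1024 * (kk D F).LG (κ * (2 * e * (1 - F)⁻¹)) 0 (κ ^ 2)
      (2 * e * (1 - F)⁻¹) 0 0 0 0 ∧ outR U23a.prog 1 [a, y, e, 0] =
      (0 + e) * (kk D F).LN (κ ^ 2 * 0) * 1024 ∧ _ :=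
    U23a.eq (ze := 0) (u := 0) (w := 0) hκ rfl (zero_mul _).symm rfl hD rfl rfl rfl hF rfl rfl rfl
    rfl rfl rfl rfl
      (zero_mul _).symm rfl rfl (zero_mul _).symm (by ring) (by ring) (by ring) (zero_mul _).symm
      rfl rfl rfl rfl rfl rfl rfl rfl rfl rfl rfl (mul_zero _).symm rfl rfl rfl rfl rfl rfl rfl rfl
      rfl rfl rfl rfl
  have b0 : 0 ≤ κ * e := by rw [hκ]; positivity
  have j0 : 0 < 1 - F := by linarith
  have j1 := mul_inv_cancel₀ j0.ne'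
  have g0 : 0 ≤ κ * e * (1 - F)⁻¹ := by positivity
  have g1 : κ * e * (1 - F)⁻¹ ≤ 1 := by rw [mul_inv_le_iff₀ j0]; linarith
  have p0 : 0 ≤ 81 / 500000 - 7 / 1000 * D := by linarith
  have n0 : 0 ≤ 497 / 2000 + 61 / 100 * D := by linarith
  have g2 : 0 ≤ 1 - (κ * e * (1 - F)⁻¹) ^ 2 := sub_nonneg.2 (pow_le_one₀ g0 g1)
  rw [E.1, E.2.1]
  refine ⟨(mul_nonneg (mul_nonneg p0 (sq_nonneg (128 * e * (1 - F)⁻¹))) g2).trans_eq ?_,
    (mul_nonneg e0 (mul_nonneg n0 (by norm_num : (0 : ℝ) ≤ 4))).trans_eq ?_⟩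
  · simp only [Co.LG, kk]; ring
  · simp only [Co.LN, kk]; ring

theorem LE0 {k : Co} {o : ℝ} (o0 : 0 < o) (h : 0 < k.LN o) : 0 ≤ k.LE o := by
  rw [Co.LE]; positivity

theorem cellL (hb : F = 1 / 2 - b) (b0 : 0 ≤ b) (b1 : b ≤ 1 / 16) (d0 : -2 / 5 ≤ D) (d1 : D < 0)
    (h0 : 0 < t) : (kk D F).De D F (-t) < 0 := by
  have ht := Z3.mem (by linarith) d1 (-t)
  have F0 : 0 < F := by linarith
  obtain ⟨a, hD⟩ : ∃ a, D = -(2 * a / 5) := ⟨-(5 * D / 2), by ring⟩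
  have a0 : 0 ≤ a := by linarith
  have a1 : a ≤ 1 := by linarith
  rcases le_total t 2 with h2 | h2
  · refine Co.negL F0.ne' ht (by linarith) ?_
    rw [hD, ← cL]
    exact U23l.out0 (fun a F _ _ h _ ↦ by
      have F0 : F ≠ 0 := by linarith
      simpa only [cL] using Co.OL F0 (Co.O5 rfl)) a0 a1 (by linarith) (by linarith) h0.le h2 h0
  obtain ⟨c, hc⟩ : ∃ c, c = t * ph1 (-(2 * b * t)) := ⟨_, rfl⟩
  obtain ⟨p, hp⟩ : ∃ p, p = exp (-(2 * b * t)) := ⟨_, rfl⟩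
  obtain ⟨s, hs⟩ : ∃ s, s = exp (-t) := ⟨_, rfl⟩
  obtain ⟨n, hn⟩ : ∃ n, D = s - n := ⟨s - D, by ring⟩
  have s0 : 0 < s := hs ▸ exp_pos _
  have n0 : 0 < n := by linarith
  obtain ⟨σ, hσ⟩ : ∃ σ, s = n * σ := ⟨s / n, by field_simp⟩
  have σ0 : 0 < σ := (mul_pos_iff_of_pos_left n0).1 (hσ ▸ s0)
  have σ1 : σ < 1 := lt_of_mul_lt_mul_left (by linarith) n0.le
  have y0 := exp_pos (-(F * t))
  refine Co.coreL hb F0 (by linarith) ht h0 hs hn hσ n0 hp hc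
    fun G j i W al be V u I hG hj hi hW hal hbe hV hu hI I1 I0 ↦ ?_
  rcases le_total t 8 with h8 | h8
  · refine ⟨1, _, _, 1, _, _, _, _, _, (one_mul _).symm, (one_mul _).symm, (one_pow 2).symm, rfl,
      rfl, one_mul _, one_mul _, one_mul _, fun _ ↦ ?_⟩
    have t0 : 0 < t - 3 / 5 := by linarith
    have s1 : s ≤ 7 / 50 := hs ▸ S7.exp_neg_le 32 (by push_cast; linarith) (by norm_num)
    have l0 : -t ≤ log n := (le_log_iff_exp_le n0).2 (by linarith)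
    have l1 : log n ≤ -(3 / 5) := (log_le_iff_le_exp n0).2 (by linarith [le_exp35])
    have H := U23o.pos0 (nu := log n + t) (div_mul_cancel₀ _ t0.ne').symm (sg := σ) (by
        rw [neg_add, exp_add, exp_neg, exp_log n0, ← hs, hσ]; field_simp)
      (by rw [add_sub_cancel_right, exp_log n0]) hs hn hp rfl hc hb hG hj hi hW hal hbe hV hu hI
      rfl rfl rfl rfl rfl rfl rfl rfl rfl rfl rfl rfl rfl
      rfl rfl rfl rfl rfl rfl rfl rfl rfl rfl rfl rfl rfl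
      (G := (kk D F).LG (2 * b * j) (u * I) 1 (2 * b * j) (u * I) _ _ _) rfl rfl
      (E := (kk D F).LE _) rfl rfl rfl b0 b1 h2 h8 (div_nonneg (by linarith) t0.le)
      ((div_le_one t0).2 (by linarith)) (by linarith)
    have h1 : exp (-(F * t)) * exp (F * t) = 1 := by rw [← exp_add]; simp
    refine (mul_pos y0 ((mul_pos_iff_of_pos_left (exp_pos _)).1 H)).trans_eq ?_
    linear_combination (G * σ * I * p * (1 - u * I) ^ 2) ^ 2 * (kk D F).LE (1 * (G * σ * I * p)) * h1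
  obtain ⟨f1, f2, f3, f4⟩ := facts8 b0 b1 h8 hc
  have c0 : 0 < c := hc ▸ mul_pos h0 (ph1_pos _)
  obtain ⟨κ, hκ⟩ : ∃ κ, κ = c⁻¹ := ⟨_, rfl⟩
  have c1 : κ * c = 1 := hκ ▸ inv_mul_cancel₀ c0.ne'
  have κ0 : 0 < κ := hκ ▸ inv_pos.2 c0
  obtain ⟨e, he⟩ : ∃ e, e = b * c := ⟨_, rfl⟩
  have e0 : 0 ≤ e := by rw [he]; positivity
  have p0 : 0 < p := hp ▸ exp_pos _
  have hp' : p = 1 - 2 * e := he ▸ hp.trans (cexp' hc)
  have e1 : e ≤ 1 / 2 := by linarith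
  have hb' : b = κ * e := by rw [he]; linear_combination -b * c1
  have k1 : κ ≤ 65 / 512 + e / 4 := by
    rw [hκ, inv_le_iff_one_le_mul₀ c0, he]; linarith
  have hy : exp (-(F * t)) = exp (-((1 / 2 - 5 * b) * t)) * p ^ 2 := by
    rw [hp, sq, ← exp_add, ← exp_add, hb]; ring_nf
  have y2 : exp (-(F * t)) ≤ (6 / 5 + 75 * b) * (κ * p) ^ 2 := by
    refine Eq.trans_le ?_ (mul_le_mul_of_nonneg_right f3 (sq_nonneg (κ * p)))
    rw [hy]; linear_combination -exp (-((1 / 2 - 5 * b) * t)) * p ^ 2 * (κ * c + 1) * c1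
  obtain ⟨ζ, hζ⟩ : ∃ ζ, ζ = σ * c ^ 2 := ⟨_, rfl⟩
  have ζ0 : 0 < ζ := by rw [hζ]; positivity
  have hσ' : σ = κ ^ 2 * ζ := by rw [hζ]; linear_combination -σ * (κ * c + 1) * c1
  have nζ : n * ζ ≤ 3 / 128 := by rw [hζ, ← mul_assoc, ← hσ, hs]; exact f2
  rcases le_total ζ 4 with h4 | h4
  · have k0 : 0 < 65 / 512 + e / 4 := by positivity
    have hk : κ = κ / (65 / 512 + e / 4) * (65 / 512 + e / 4) := (div_mul_cancel₀ _ k0.ne').symm
    have g0 := (div_pos κ0 k0).le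
    have g1 := (div_le_one k0).2 k1
    have hu' : u = κ * (ζ * (al + κ * be)) := by
      rw [hu, hσ']; linear_combination κ * ζ * al * c1
    have hI' : I = (W + κ * (ζ * (al + κ * be)))⁻¹ := hu' ▸ hI
    refine ⟨κ, _, _, _, 2 * e * j, ζ * (al + κ * be) * I,
      j * ζ * (1 + 2 * D - 2 * (1 + D) * s) * V, -(j * (1 + D) * s * ζ * V), G * ζ * I * p, rfl,
      rfl, rfl, by rw [hb']; ring, by rw [hu']; ring, by rw [hσ']; ring, by rw [hσ']; ring,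
      by rw [hσ']; ring, fun o0 ↦ ?_⟩
    rcases le_total ζ (1 / 128 + a * (1 / 8)) with h7 | h7
    · have z0 : 0 < 1 / 128 + a * (1 / 8) := by positivity
      have E : _ = 1024 * (kk D F).LG _ _ _ _ _ _ _ _ ∧ _ = _ * (kk D F).LN _ * 1024 ∧ _ :=
        U23a.eq hk hb' (div_mul_cancel₀ ζ z0.ne').symm hσ' hD (n := n) (by
          rw [← neg_mul, eq_mul_inv_iff_mul_eq₀ (sub_pos.2 σ1).ne']; linarith) hσ hp' hb hG hj hi
          hW hal hbe hV rfl hI' rfl rfl rfl rfl rfl rfl rfl rfl rfl rfl rfl rfl rfl rfl rfl rfl rfl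
          rfl rfl rfl rfl rfl rfl rfl rfl rfl rfl rfl rfl rfl
      have z1 := div_pos ζ0 z0
      have z2 := (div_le_one z0).2 h7
      have H0 := (U23a.out0 (fun a y e a0 a1 y0 _ e0 _ ↦ (cut a y e a0 a1 y0 e0).1) a0 a1 g0 g1 e0
        e1 z1.le z2 z1 ((sub_nonneg.2 b1).trans_eq E.2.2.symm)).trans_eq E.1
      have H1 := (U23a.out1 (fun a y e a0 a1 y0 _ e0 _ ↦ (cut a y e a0 a1 y0 e0).2) a0 a1 g0 g1 e0
        e1 z1.le z2 z1 ((sub_nonneg.2 b1).trans_eq E.2.2.symm)).trans_eq E.2.1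
      exact add_pos_of_pos_of_nonneg (mul_pos y0 (mul_pos (pow_pos κ0 2)
        (pos_of_mul_pos_right H0 (by norm_num)))) (mul_nonneg (sq_nonneg _) (LE0 o0
          (pos_of_mul_pos_right (pos_of_mul_pos_left H1 (by norm_num)) (by positivity))))
    · have z0 : 0 < 1 + 4 * ζ := by positivity
      have s1 : s ≤ 1 / 2048 := hs ▸ S7.exp_neg_le 128 (by push_cast; linarith) (by norm_num)
      have n1 : n ≤ 9 / 32 := by nlinarith
      have l2 : exp (-(39 / 8)) ≤ 1 / 128 := S7.exp_neg_le 78 (by norm_num) (by norm_num)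
      have l0 : -39 / 8 ≤ log ζ := (le_log_iff_exp_le ζ0).2 (by rw [neg_div]; linarith)
      have l1 : log ζ ≤ 3 / 2 := (log_le_iff_le_exp ζ0).2 (h4.trans (le_trans (by
        norm_num [Finset.sum_range_succ, Nat.factorial]) (sum_le_exp_of_nonneg (by norm_num) 4)))
      have hn' : n = n * (1 + 4 * ζ) * (8 / 3) * (3 / 8) * (1 + 4 * ζ)⁻¹ := by field_simp
      have H0 := U23e.pos0 hk hb' (exp_log ζ0).symm hσ' hn' hσ hn hp' hb hG hj hi hW hal hbe hV rfl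
        hI' rfl rfl rfl rfl rfl rfl rfl rfl rfl rfl rfl rfl rfl rfl rfl rfl rfl rfl rfl rfl rfl rfl
        rfl rfl rfl rfl rfl (G := (kk D F).LG _ _ _ _ _ _ _ _) rfl rfl (E := (kk D F).LE _) rfl rfl
        (by positivity) (by linarith) g0 g1 e0 e1 l0 l1 (sub_nonneg.2 b1)
      have H1 := U23e.pos1 hk hb' (exp_log ζ0).symm hσ' hn' hσ hn hp' hb hG hj hi hW hal hbe hV rfl
        hI' rfl rfl rfl rfl rfl rfl rfl rfl rfl rfl rfl rfl rfl rfl rfl rfl rfl rfl rfl rfl rfl rfl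
        rfl rfl rfl rfl rfl rfl (N := (kk D F).LN _) rfl rfl rfl
        (by positivity) (by linarith) g0 g1 e0 e1 l0 l1 (sub_nonneg.2 b1)
      refine (comb (mul_pos y0 (pow_pos κ0 2)) (Q := (κ * p) ^ 2 * κ ^ 2) (by positivity)
        ((mul_le_mul_of_nonneg_right y2 (sq_nonneg κ)).trans_eq (mul_assoc ..)) (mul_nonneg
        (LE0 o0 (pos_of_mul_pos_left H1 (by norm_num))) (sq_nonneg _))
        (pos_of_mul_pos_left H0 (exp_pos _).le)).trans_eq ?_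
      ring
  have n1 : n ≤ 3 / 512 := by nlinarith
  have k2 := sub_nonneg.2 k1
  rcases le_total (σ * c) 1 with h1 | h1
  · have ξ0 : 0 < σ * c := by positivity
    have ζ1 := mul_inv_cancel₀ ζ0.ne'
    have hk : κ = ζ⁻¹ * (σ * c) := by
      linear_combination -κ * ζ1 + κ * ζ⁻¹ * hζ + ζ⁻¹ * σ * c * c1
    have hσ2 : σ = κ * (σ * c) := by linear_combination -σ * c1
    have θ0 := (inv_pos.2 ζ0).le
    have θ1 : ζ⁻¹ ≤ 1 / 4 := by rw [inv_le_comm₀ ζ0 (by norm_num)]; linarith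
    generalize ζ⁻¹ = θ at hk θ0 θ1
    have hu' : u = σ * c * (al + κ * be) := by rw [hu]; linear_combination -σ * be * c1
    generalize σ * c = ξ at ξ0 hk hσ2 hu' h1
    have hI' : I = (W + ξ * (al + κ * be))⁻¹ := hu' ▸ hI
    refine ⟨ξ, _, _, _, 2 * e * θ * j, (al + κ * be) * I,
      j * θ * (1 + 2 * D - 2 * (1 + D) * s) * V, -(j * (1 + D) * s * θ * V), G * I * p * θ, rfl,
      rfl, rfl, by rw [hb', hk]; ring, by rw [hu']; ring, by rw [hσ2, hk]; ring,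
      by rw [hσ2, hk]; ring, by rw [hσ2, hk]; ring, fun o0 ↦ ?_⟩
    have H0 := U23q.pos0 hk hb' hσ2 hσ hn hp' hb hG hj hi hW hal hbe hV rfl
      hI' rfl rfl rfl rfl rfl rfl rfl rfl rfl rfl rfl rfl rfl rfl rfl rfl rfl rfl rfl rfl rfl rfl
      rfl rfl rfl rfl rfl (G := (kk D F).LG _ _ _ _ _ _ _ _) rfl rfl (E := (kk D F).LE _) rfl
      n0.le n1 e0 e1 θ0 θ1 ξ0.le h1 k2 (sub_nonneg.2 b1)
    have H1 := U23q.pos1 hk hb' hσ2 hσ hn hp' hb hG hj hi hW hal hbe hV rfl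
      hI' rfl rfl rfl rfl rfl rfl rfl rfl rfl rfl rfl rfl rfl rfl rfl rfl rfl rfl rfl rfl rfl rfl
      rfl rfl rfl rfl rfl rfl (N := (kk D F).LN _) rfl rfl
      n0.le n1 e0 e1 θ0 θ1 ξ0.le h1 k2 (sub_nonneg.2 b1)
    refine (comb (mul_pos y0 (pow_pos ξ0 2)) (Q := (κ * p) ^ 2 * ξ ^ 2) (by positivity)
      ((mul_le_mul_of_nonneg_right y2 (sq_nonneg ξ)).trans_eq (mul_assoc ..)) (mul_nonneg
      (LE0 o0 (pos_of_mul_pos_right H1 (by norm_num))) (sq_nonneg _)) H0).trans_eq ?_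
    generalize (kk D F).LE _ = E
    generalize (kk D F).LG _ _ _ _ _ _ _ _ = E'
    rw [hk]; ring
  · obtain ⟨ρ, hk⟩ : ∃ ρ, κ = σ * ρ := ⟨κ / σ, by field_simp⟩
    have ρ0 : 0 < ρ := (mul_pos_iff_of_pos_left σ0).1 (hk ▸ κ0)
    have ρ2 : ρ * (σ * c) = 1 := by linear_combination c1 - c * hk
    have ρ1 : ρ ≤ 1 := (le_mul_of_one_le_right ρ0.le h1).trans_eq ρ2
    obtain ⟨J, hJ⟩ : ∃ J, J = (ρ * W + al + κ * be)⁻¹ := ⟨_, rfl⟩
    have hJ' : ρ * J = I := by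
      rw [hJ, hI, show ρ * W + al + κ * be = ρ * (W + u) by
        rw [hu]; linear_combination -al * ρ2 + be * hk, mul_inv, mul_inv_cancel_left₀ ρ0.ne']
    refine ⟨1, _, _, 1, 2 * b * j, 1 - ρ * (W * J), _, _, G * J * p * κ, (one_mul _).symm,
      (one_mul _).symm, (one_pow 2).symm, rfl, by linear_combination -I1 - W * hJ', one_mul _,
      one_mul _, by rw [hk, ← hJ']; ring, fun o0 ↦ ?_⟩
    have H0 := U23p.pos0 hk hb' hσ hn hp' hb hG hj hi hW hal hbe hV hJ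
      rfl rfl rfl rfl rfl rfl rfl rfl rfl rfl rfl rfl rfl rfl rfl rfl rfl rfl rfl rfl rfl rfl rfl
      rfl rfl rfl rfl rfl (G := (kk D F).LG _ _ _ _ _ _ _ _) rfl rfl (E := (kk D F).LE _) rfl
      n0.le n1 e0 e1 σ0.le σ1.le ρ0.le ρ1 k2 (sub_nonneg.2 b1)
    have H1 := U23p.pos1 hk hb' hσ hn hp' hb hG hj hi hW hal hbe hV hJ
      rfl rfl rfl rfl rfl rfl rfl rfl rfl rfl rfl rfl rfl rfl rfl rfl rfl rfl rfl rfl rfl rfl rfl
      rfl rfl rfl rfl rfl rfl (N := (kk D F).LN _) rfl rfl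
      n0.le n1 e0 e1 σ0.le σ1.le ρ0.le ρ1 k2 (sub_nonneg.2 b1)
    have y6 : exp (-(F * t)) ≤ σ ^ 4 * ((1500 + 80000 * κ) * (1 - e)) * (p * κ * ρ ^ 2) ^ 2 := by
      have h3 := mul_le_mul_of_nonneg_right f4 (by positivity : 0 ≤ κ ^ 7 * p ^ 2)
      have h7 : (κ * c) ^ 7 = 1 := by rw [c1, one_pow]
      have h9 : (σ * ρ) ^ 4 = κ ^ 4 := by rw [hk]
      rw [← he] at h3
      refine Eq.trans_le ?_ (h3.trans_eq ?_)
      · rw [hy]; linear_combination -exp (-((1 / 2 - 5 * b) * t)) * p ^ 2 * h7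
      · linear_combination (1 - e) * p ^ 2 * κ ^ 2 * (1500 * κ ^ 4 * c1 - (1500 + 80000 * κ) * h9)
    refine (comb y0 (by positivity) y6 (mul_nonneg
      (LE0 o0 (pos_of_mul_pos_right H1 (by norm_num))) (sq_nonneg _)) H0).trans_eq ?_
    ring

end U23

theorem U23_holds (D F : ℝ) (f0 : 7 / 16 ≤ F) (f1 : F ≤ 1 / 2) (d0 : -2 / 5 ≤ D) (d1 : D < 0) :
    NoThree D F := by
  have hb : F = 1 / 2 - (1 / 2 - F) := by ring
  refine (U23.kk D F).noThree (by linarith) (fun v v0 ↦ ?_) (by simp only [U23.kk]; linarith)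
    (by simp only [U23.kk]; linarith)
    (fun a _ a0 ↦ neg_neg a ▸ U23.cellL hb (by linarith) (by linarith) d0 d1 (neg_pos.2 a0))
    fun a _ a0 ↦ U23.cellR hb (by linarith) (by linarith) d0 d1 a0
  have h1 : 0 < 31 / 200 + v * (-9 / 1000 + v * (81 / 500000)) := by
    nlinarith [sq_nonneg (v - 28)]
  have h2 : 0 < 3 / 5000 + v * (143 / 12500 + v * (1481 / 500000)) := by positivity
  simp only [U23.kk]
  nlinarith [mul_nonneg (show 0 ≤ 1 + 5 / 2 * D by linarith) h1.le,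
    mul_pos (show 0 < -(5 / 2 * D) by linarith) h2]

end Pool.Agent.Lib.MP_d6150d_an
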