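import Pool.Agent.Lib.MP_d6150d_an.WLD

/-! A generated chart: the computations. -/

namespace Pool.Agent.Lib.MP_d6150d_an.WL

theorem k0 : chk C 0x8882282882820888028288101 [(0, 4398046511104), (0, 17592186044416), (0,
    35184372088832)] = true := by
  decide +kernel

theorem k1 : chk C 0x88802828810888028288101 [(0, 4398046511104), (17592186044416, 26388279066624),
    (0, 35184372088832)] = true := by
  decide +kernel

theorem k2 : chk C 0x88802828810888228288101 [(0, 4398046511104), (26388279066624, 35184372088832),
    (0, 35184372088832)] = true := by
  decide +kernel

theorem k3 : chk C 0x88802828810888028288101 [(0, 4398046511104), (35184372088832, 43980465111040),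
    (0, 35184372088832)] = true := by
  decide +kernel

theorem k4 : chk C 0x88802828810888028288101 [(0, 4398046511104), (43980465111040, 52776558133248),
    (0, 35184372088832)] = true := by
  decide +kernel

theorem k5 : chk C 0x88802828810888028288101 [(0, 4398046511104), (52776558133248, 61572651155456),
    (0, 35184372088832)] = true := by
  decide +kernel

theorem k6 : chk C 0x88802828810888028288101 [(0, 4398046511104), (61572651155456, 70368744177664),
    (0, 35184372088832)] = true := by
  decide +kernel

theorem k7 : chk C 0x888228288088228208882282888228201 [(4398046511104, 8796093022208), (0,
    35184372088832), (0, 35184372088832)] = true := by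
  decide +kernel

theorem k8 : chk C 0x8882282888228208882282888228201 [(4398046511104, 8796093022208),
    (35184372088832, 70368744177664), (0, 35184372088832)] = true := by
  decide +kernel

end Pool.Agent.Lib.MP_d6150d_an.WL
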