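import Pool.Agent.Lib.MP_d6150d_an.WLD

/-! A generated chart: the computations. -/

namespace Pool.Agent.Lib.MP_d6150d_an.WL

theorem k9 : chk C 0x880888022888120880882288201 [(0, 8796093022208), (0, 35184372088832),
    (35184372088832, 70368744177664)] = true := by
  decide +kernel

theorem k10 : chk C 0x8882288812088088228881201 [(0, 8796093022208), (35184372088832,
    70368744177664), (35184372088832, 70368744177664)] = true := by
  decide +kernel

theorem k11 : chk C 0x888228882218888022880881211 [(0, 8796093022208), (0, 70368744177664),
    (70368744177664, 140737488355328)] = true := by
  decide +kernel

theorem k12 : chk C 0x888028881218818812882880111 [(0, 8796093022208), (0, 70368744177664),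
    (140737488355328, 281474976710656)] = true := by
  decide +kernel

theorem k13 : chk C 0x880880288182088801881288188128828811111 [(0, 8796093022208), (0,
    70368744177664), (281474976710656, 422212465065984)] = true := by
  decide +kernel

theorem k14 : chk C 0x8808288082188188128818288288288111111 [(0, 4398046511104), (0,
    70368744177664), (422212465065984, 562949953421312)] = true := by
  decide +kernel

theorem k15 : chk C 0x882880288088028808802880828811111 [(4398046511104, 8796093022208), (0,
    35184372088832), (422212465065984, 562949953421312)] = true := by
  decide +kernel

theorem k16 : chk C 0x882880821 [(4398046511104, 8796093022208), (35184372088832, 70368744177664),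
    (422212465065984, 562949953421312)] = true := by
  decide +kernel

end Pool.Agent.Lib.MP_d6150d_an.WL
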