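import Pool.Agent.Lib.MP_d6150d_an.GChk

/-! Program forms of the expressions used in the wedge at the point `(0, 1)`. -/

namespace Pool.Agent.Lib.MP_d6150d_an

noncomputable def mWa (l h th ts s M Z : ℝ) : ℝ × ℝ × ℝ :=
  let z0 := (l * h)
  let z1 := (l * ts)
  let z2 := ((Int.cast (1) : ℝ) + ((Int.cast (2) : ℝ) * z1))
  let z3 := (((th * ((Int.cast (1) : ℝ) + z0)) - (ts * s)) + (h * ((s * ((Int.cast (1) : ℝ) + z1)) -
    z2)))
  let z4 := ((l * z3) - s)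
  let z5 := (((Int.cast (2) : ℝ) * h) * M)
  let z6 := ((z3 + (h * ((((Int.cast (3) : ℝ) * z4) + ((Int.cast (2) : ℝ) * s)) - z2))) -
    (((Int.cast (2) : ℝ) * ((Int.cast (1) : ℝ) - z0)) * (ts * s)))
  (z4, (z3 + z5), (((((Int.cast (1) : ℝ) - s) * (((((Int.cast (6) : ℝ) * ts) * z4) - ((ts - th) *
    ((l * z6) - ((Int.cast (3) : ℝ) * s)))) - z6)) + (((Int.cast (3) : ℝ) * ((Int.cast (1) : ℝ) -
    ((Int.cast (2) : ℝ) * s))) * z3)) - (((Int.cast (3) : ℝ) * z5) * (Z + s))))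

theorem mWa_0 (l h th ts s M Z : ℝ) : (mWa l h th ts s M Z).1 = (mWa l h th ts s M Z).1 := by
  rfl

theorem mWa_1 (l h th ts s M Z : ℝ) : (mWa l h th ts s M Z).2.1 = (mWa l h th ts s M Z).2.1 := by
  rfl

theorem mWa_2 (l h th ts s M Z : ℝ) : (mWa l h th ts s M Z).2.2 = (mWa l h th ts s M Z).2.2 := by
  rfl

noncomputable def mWb (l h ts a b v : ℝ) : ℝ :=
  let z0 := (((Int.cast (1) : ℝ) / (Nat.cast 6 : ℝ)) * (h - ((Int.cast (2) : ℝ) * ts)))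
  let z1 := (l * h)
  let z2 := ((Int.cast (1) : ℝ) - z1)
  let z3 := (l * ts)
  (((ts + (((Int.cast (2) : ℝ) * h) * (b - a))) * ((((Int.cast (1) : ℝ) / (Nat.cast 2 : ℝ)) * z0) -
    ((((Int.cast (1) : ℝ) / (Nat.cast 180 : ℝ)) * ((h * ((Int.cast (54) : ℝ) - (z1 * ((Int.cast
    (153) : ℝ) - ((Int.cast (103) : ℝ) * z1))))) + (ts * (((z2 * ((Int.cast (102) : ℝ) - ((Int.cast
    (312) : ℝ) * z2))) - (Int.cast (6) : ℝ)) - (z3 * (((Int.cast (60) : ℝ) + ((Int.cast (480) : ℝ) *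
    z2)) + ((Int.cast (320) : ℝ) * z3))))))) * v))) + ((((Int.cast (3) : ℝ) * h) * z0) * v))

theorem mWb_0 (l h ts a b v : ℝ) : mWb l h ts a b v = (mWb l h ts a b v) := by
  rfl

noncomputable def mWc (h Z Y t o m dm p2 dp dP q ee : ℝ) : ℝ :=
  let z0 := (o * o)
  (((q * ((m * ((m * dP) + ((Z * z0) * dp))) + (((Z * Z) * dm) * (((Int.cast (3) : ℝ) * m) +
    (((Int.cast (1) : ℝ) / (Nat.cast 2 : ℝ)) * z0))))) - ((((Int.cast (2) : ℝ) * h) * (t * t)) * ((m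
    * z0) * ((z0 * dp) + (((Int.cast (2) : ℝ) * dm) * p2))))) + (((ee * Y) * t) * (o * (z0 * z0))))

theorem mWc_0 (h Z Y t o m dm p2 dp dP q ee : ℝ) : mWc h Z Y t o m dm p2 dp dP q ee = (mWc h Z Y t o
    m dm p2 dp dP q ee) := by
  rfl

end Pool.Agent.Lib.MP_d6150d_an
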