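import Pool.Agent.Lib.MP_d6150d_an.GMac
import Pool.Agent.Lib.MP_d6150d_an.WMac
import Pool.Agent.Lib.MP_d6150d_an.WLK0
import Pool.Agent.Lib.MP_d6150d_an.WLK1

/-! A generated chart: the inequality. -/

namespace Pool.Agent.Lib.MP_d6150d_an.WL

set_option linter.unnecessarySeqFocus false
set_option linter.unusedTactic false
set_option linter.unusedVariables false

theorem gd : Gd C [(0, 8796093022208), (0, 70368744177664), (0, 562949953421312)] := .split 2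
    (.split 2 (.split 2 (.split 2 (.split 0 (.split 1 (.split 1 (chk_sound k0) (.split 1 (chk_sound
    k1) (chk_sound k2))) (.split 1 (.split 1 (chk_sound k3) (chk_sound k4)) (.split 1 (chk_sound k5)
    (chk_sound k6)))) (.split 1 (chk_sound k7) (chk_sound k8))) (.split 1 (chk_sound k9) (chk_sound
    k10))) (chk_sound k11)) (chk_sound k12)) (.split 2 (chk_sound k13) (.split 0 (chk_sound k14)
    (.split 1 (chk_sound k15) (chk_sound k16))))

set_option maxRecDepth 100000 in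
theorem eq {e c u t s B A y ps fi h ts z10 th a b M Z Y nu o dm m p2 dp dP q v ee H : ℝ} (ht : t =
    -u) (hs : s = Real.exp t) (hB : B = ph1 t) (hA : A = ph2 t) (hy : y = (-2) * e * t) (hps : ps =
    ph1 y) (hfi : fi = ph2 y) (hh : h = 1) (hts : ts = 2 * c) (hz10 : z10 = Real.exp (-t)) (hth : th
    = ts * z10) (ha : a = (1 + e * ts) / (2 - 2 * e)) (hb : b = (1 + 2 * (e * ts)) / (1 - 2 * e))
    (hM : M = -(t * s * ps)) (hZ : Z = s + 2 * e * M) (hY : Y = Real.exp ((1 - 3 * e) * t)) (hnu :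
    nu = 1 + e * (ts - th)) (ho : o = B * nu) (hdm : dm = B ^ 2 * (c + a * (1 - 2 * t * ps) - (ts -
    th) * (nu + 1) / 2) - 2 * (c + b - a) * (A - 2 * e * (B * ps - fi))) (hm : m = o ^ 2 / 2 + e *
    dm) (hp2 : p2 = (mWa e h th ts s M Z).1) (hdp : dp = (mWa e h th ts s M Z).2.1) (hdP : dP = (mWa
    e h th ts s M Z).2.2) (hq : q = th + 2 * h * (b - a * s)) (hv : v = t ^ 2 * m) (hee : ee = mWb e
    h ts a b v) (hH : H = mWc h Z Y t o m dm p2 dp dP q ee) : outR prog 0 [e, c, u] = e * H := by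
  replace ht : t = ((Int.cast (-1) : ℝ) * u) := ht.trans (by push_cast <;> ring)
  replace hy : y = (((Int.cast (-2) : ℝ) * e) * t) := hy.trans (by push_cast <;> ring)
  replace hh : h = (Int.cast (1) : ℝ) := hh.trans (by push_cast <;> ring)
  replace hts : ts = ((Int.cast (2) : ℝ) * c) := hts.trans (by push_cast <;> ring)
  replace hz10 : z10 = (Real.exp ((Int.cast (-1) : ℝ) * t)) := hz10.trans (congrArg Real.exp (by
    push_cast <;> ring))
  replace hth : th = (ts * z10) := hth.trans (by push_cast <;> ring)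
  replace ha : a = (((Int.cast (1) : ℝ) + (e * ts)) * ((Int.cast (2) : ℝ) - ((Int.cast (2) : ℝ) *
    e))⁻¹) := ha.trans (by push_cast <;> ring)
  replace hb : b = (((Int.cast (1) : ℝ) + ((Int.cast (2) : ℝ) * (e * ts))) * ((Int.cast (1) : ℝ) -
    ((Int.cast (2) : ℝ) * e))⁻¹) := hb.trans (by push_cast <;> ring)
  replace hM : M = ((Int.cast (-1) : ℝ) * ((t * s) * ps)) := hM.trans (by push_cast <;> ring)
  replace hZ : Z = (s + (((Int.cast (2) : ℝ) * e) * M)) := hZ.trans (by push_cast <;> ring)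
  replace hY : Y = (Real.exp (((Int.cast (1) : ℝ) - ((Int.cast (3) : ℝ) * e)) * t)) := hY.trans
    (congrArg Real.exp (by push_cast <;> ring))
  replace hnu : nu = ((Int.cast (1) : ℝ) + (e * (ts - th))) := hnu.trans (by push_cast <;> ring)
  replace ho : o = (B * nu) := ho.trans (by push_cast <;> ring)
  replace hdm : dm = (((B * B) * ((c + (a * ((Int.cast (1) : ℝ) - (((Int.cast (2) : ℝ) * t) * ps))))
    - (((Int.cast (1) : ℝ) / (Nat.cast 2 : ℝ)) * ((ts - th) * (nu + (Int.cast (1) : ℝ)))))) -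
    (((Int.cast (2) : ℝ) * ((c + b) - a)) * (A - (((Int.cast (2) : ℝ) * e) * ((B * ps) - fi))))) :=
    hdm.trans (by push_cast <;> ring)
  replace hm : m = ((((Int.cast (1) : ℝ) / (Nat.cast 2 : ℝ)) * (o * o)) + (e * dm)) := hm.trans (by
    push_cast <;> ring)
  replace hp2 : p2 = (mWa e h th ts s M Z).1 := hp2.trans (mWa_0 ..)
  replace hdp : dp = (mWa e h th ts s M Z).2.1 := hdp.trans (mWa_1 ..)
  replace hdP : dP = (mWa e h th ts s M Z).2.2 := hdP.trans (mWa_2 ..)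
  replace hq : q = (th + (((Int.cast (2) : ℝ) * h) * (b - (a * s)))) := hq.trans (by push_cast <;>
    ring)
  replace hv : v = ((t * t) * m) := hv.trans (by push_cast <;> ring)
  replace hee : ee = (mWb e h ts a b v) := hee.trans (mWb_0 ..)
  replace hH : H = (mWc h Z Y t o m dm p2 dp dP q ee) := hH.trans (mWc_0 ..)
  have e0 : (e * H) = e * H := by push_cast <;> ring
  subst ht hs hB hA hy hps hfi hh hts hz10 hth ha hb hM hZ hY hnu ho hdm hm hp2 hdp hdP hq hv hee hH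
  exact Eq.trans rfl e0

theorem l0 : ((0 : ℤ) : ℝ) / 2 ^ 47 = 0 := by norm_num
theorem u0 : (1 / 16 : ℝ) = ((8796093022208 : ℤ) : ℝ) / 2 ^ 47 := by norm_num
theorem l1 : ((0 : ℤ) : ℝ) / 2 ^ 47 = 0 := by norm_num
theorem u1 : (1 / 2 : ℝ) = ((70368744177664 : ℤ) : ℝ) / 2 ^ 47 := by norm_num
theorem l2 : ((0 : ℤ) : ℝ) / 2 ^ 47 = 0 := by norm_num
theorem u2 : (4 : ℝ) = ((562949953421312 : ℤ) : ℝ) / 2 ^ 47 := by norm_num

theorem out0 (V0 : ∀ c u : ℝ, 0 ≤ c → c ≤ 1 / 2 → 0 ≤ u → u ≤ 4 → outR prog 0 [0, c, u] = 0) (V2 : ∀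
    e c : ℝ, 0 ≤ e → e ≤ 1 / 16 → 0 ≤ c → c ≤ 1 / 2 → (fun u ↦ outR prog 0 [e, c, u]) =O[nhdsWithin
    0 (Set.Ioi 0)] fun u : ℝ ↦ u ^ 4) {e c u : ℝ} (a0 : 0 ≤ e) (b0 : e ≤ 1 / 16) (a1 : 0 ≤ c) (b1 :
    c ≤ 1 / 2) (a2 : 0 ≤ u) (b2 : u ≤ 4) (p0 : 0 < e) (p2 : 0 < u) : 0 < outR prog 0 [e, c, u] :=
  gd 0 (by decide) [e, c, u] (.cons ⟨l0.le.trans a0, b0.trans u0.le⟩ (.cons ⟨l1.le.trans a1,
    b1.trans u1.le⟩ (.cons ⟨l2.le.trans a2, b2.trans u2.le⟩ (.nil)))) ⟨fun _ ↦ p0, nofun, fun _ ↦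
    p2, trivial⟩ (List.forall_mem_nil _) (⟨fun _ y1 a1 b1 y2 a2 b2 ↦ V0 y1 y2 (l1.ge.trans a1)
    (b1.trans u1.ge) (l2.ge.trans a2) (b2.trans u2.ge), fun y0 a0 b0 ↦ ⟨fun _ ↦ allB_iff.2 fun _ _ ↦
    trivial, fun y1 a1 b1 ↦ ⟨fun _ ↦ V2 y0 y1 (l0.ge.trans a0) (b0.trans u0.ge) (l1.ge.trans a1)
    (b1.trans u1.ge), fun _ _ _ ↦ trivial⟩⟩⟩) (nofun)

end Pool.Agent.Lib.MP_d6150d_an.WL
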