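import Pool.Agent.Lib.MP_d6150d_an.WRD

/-! A generated chart: the computations. -/

namespace Pool.Agent.Lib.MP_d6150d_an.WR

theorem k0 : chk C 0x8881188188111 [(0, 4398046511104), (0, 70368744177664), (0, 35184372088832)] =
    true := by
  decide +kernel

theorem k1 : chk C 0x888018808801088088001 [(4398046511104, 8796093022208), (0, 35184372088832), (0,
    35184372088832)] = true := by
  decide +kernel

theorem k2 : chk C 0x8808810881880880101 [(4398046511104, 8796093022208), (35184372088832,
    70368744177664), (0, 35184372088832)] = true := by
  decide +kernel

theorem k3 : chk C 0x88812888021882882288208808822882012 [(0, 8796093022208), (0, 35184372088832),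
    (35184372088832, 70368744177664)] = true := by
  decide +kernel

theorem k4 : chk C 0x888128881218880288802188802881022 [(0, 8796093022208), (35184372088832,
    70368744177664), (35184372088832, 70368744177664)] = true := by
  decide +kernel

theorem k5 : chk C 0x882882288188121882888122881818818812212 [(0, 8796093022208), (0,
    70368744177664), (70368744177664, 140737488355328)] = true := by
  decide +kernel

end Pool.Agent.Lib.MP_d6150d_an.WR
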