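import Pool.Agent.Lib.MP_d6150d_an.WTAD

/-! A generated chart: the computations. -/

namespace Pool.Agent.Lib.MP_d6150d_an.WTA

theorem k0 : chk C 0x8838888814444 [(0, 8796093022208), (0, 4398046511104), (0, 17592186044416), (0,
    8796093022208), (0, 2251799813685248)] = true := by
  decide +kernel

end Pool.Agent.Lib.MP_d6150d_an.WTA
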