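import Pool.Agent.Lib.MP_d6150d_an.GMac
import Pool.Agent.Lib.MP_d6150d_an.WMac
import Pool.Agent.Lib.MP_d6150d_an.WTAK0

/-! A generated chart: the inequality. -/

namespace Pool.Agent.Lib.MP_d6150d_an.WTA

set_option linter.unnecessarySeqFocus false
set_option linter.unusedTactic false
set_option linter.unusedVariables false

theorem gd : Gd C [(0, 8796093022208), (0, 4398046511104), (0, 17592186044416), (0, 8796093022208),
    (0, 2251799813685248)] := chk_sound k0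

set_option maxRecDepth 100000 in
theorem eq {Y s M l th h e ts a b Z nu o dm m p2 dp dP q ee t H : ℝ} (hh : h = 1) (he : e = l * h)
    (hts : ts = th * s) (ha : a = (1 + l * ts) / (2 - 2 * e)) (hb : b = (1 + 2 * (l * ts)) / (1 - 2
    * e)) (hZ : Z = s + 2 * e * M) (hnu : nu = 1 + l * (ts - th)) (ho : o = (1 - s) * nu) (hdm : dm
    = ts * (2 * (1 - Z) - (1 - s * Z) / 2) + th * ((1 - s) ^ 3 * (1 + nu) / 2 - M) + h * (2 * b * (1
    - Z) - a * (1 - s * Z) - M * (2 - s))) (hm : m = o ^ 2 / 2 + l * dm) (hp2 : p2 = (mWa l h th ts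
    s M Z).1) (hdp : dp = (mWa l h th ts s M Z).2.1) (hdP : dP = (mWa l h th ts s M Z).2.2) (hq : q
    = th + 2 * h * (b - a * s)) (hee : ee = mWb l h ts a b m) (ht : t = -1) (hH : H = mWc h Z Y t o
    m dm p2 dp dP q ee) : outR prog 0 [Y, s, M, l, th] = H := by
  replace hh : h = (Int.cast (1) : ℝ) := hh.trans (by push_cast <;> ring)
  replace he : e = (l * h) := he.trans (by push_cast <;> ring)
  replace hts : ts = (th * s) := hts.trans (by push_cast <;> ring)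
  replace ha : a = (((Int.cast (1) : ℝ) + (l * ts)) * ((Int.cast (2) : ℝ) - ((Int.cast (2) : ℝ) *
    e))⁻¹) := ha.trans (by push_cast <;> ring)
  replace hb : b = (((Int.cast (1) : ℝ) + ((Int.cast (2) : ℝ) * (l * ts))) * ((Int.cast (1) : ℝ) -
    ((Int.cast (2) : ℝ) * e))⁻¹) := hb.trans (by push_cast <;> ring)
  replace hZ : Z = (s + (((Int.cast (2) : ℝ) * e) * M)) := hZ.trans (by push_cast <;> ring)
  replace hnu : nu = ((Int.cast (1) : ℝ) + (l * (ts - th))) := hnu.trans (by push_cast <;> ring)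
  replace ho : o = (((Int.cast (1) : ℝ) - s) * nu) := ho.trans (by push_cast <;> ring)
  replace hdm : dm = (((ts * (((Int.cast (2) : ℝ) * ((Int.cast (1) : ℝ) - Z)) - (((Int.cast (1) : ℝ)
    / (Nat.cast 2 : ℝ)) * ((Int.cast (1) : ℝ) - (s * Z))))) + (th * ((((Int.cast (1) : ℝ) /
    (Nat.cast 2 : ℝ)) * (((((Int.cast (1) : ℝ) - s) * ((Int.cast (1) : ℝ) - s)) * ((Int.cast (1) :
    ℝ) - s)) * ((Int.cast (1) : ℝ) + nu))) - M))) + (h * (((((Int.cast (2) : ℝ) * b) * ((Int.cast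
    (1) : ℝ) - Z)) - (a * ((Int.cast (1) : ℝ) - (s * Z)))) - (M * ((Int.cast (2) : ℝ) - s))))) :=
    hdm.trans (by push_cast <;> ring)
  replace hm : m = ((((Int.cast (1) : ℝ) / (Nat.cast 2 : ℝ)) * (o * o)) + (l * dm)) := hm.trans (by
    push_cast <;> ring)
  replace hp2 : p2 = (mWa l h th ts s M Z).1 := hp2.trans (mWa_0 ..)
  replace hdp : dp = (mWa l h th ts s M Z).2.1 := hdp.trans (mWa_1 ..)
  replace hdP : dP = (mWa l h th ts s M Z).2.2 := hdP.trans (mWa_2 ..)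
  replace hq : q = (th + (((Int.cast (2) : ℝ) * h) * (b - (a * s)))) := hq.trans (by push_cast <;>
    ring)
  replace hee : ee = (mWb l h ts a b m) := hee.trans (mWb_0 ..)
  replace ht : t = (Int.cast (-1) : ℝ) := ht.trans (by push_cast <;> ring)
  replace hH : H = (mWc h Z Y t o m dm p2 dp dP q ee) := hH.trans (mWc_0 ..)
  subst hh he hts ha hb hZ hnu ho hdm hm hp2 hdp hdP hq hee ht hH
  exact rfl

theorem l0 : ((0 : ℤ) : ℝ) / 2 ^ 47 = 0 := by norm_num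
theorem u0 : (1 / 16 : ℝ) = ((8796093022208 : ℤ) : ℝ) / 2 ^ 47 := by norm_num
theorem l1 : ((0 : ℤ) : ℝ) / 2 ^ 47 = 0 := by norm_num
theorem u1 : (1 / 32 : ℝ) = ((4398046511104 : ℤ) : ℝ) / 2 ^ 47 := by norm_num
theorem l2 : ((0 : ℤ) : ℝ) / 2 ^ 47 = 0 := by norm_num
theorem u2 : (1 / 8 : ℝ) = ((17592186044416 : ℤ) : ℝ) / 2 ^ 47 := by norm_num
theorem l3 : ((0 : ℤ) : ℝ) / 2 ^ 47 = 0 := by norm_num
theorem u3 : (1 / 16 : ℝ) = ((8796093022208 : ℤ) : ℝ) / 2 ^ 47 := by norm_num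
theorem l4 : ((0 : ℤ) : ℝ) / 2 ^ 47 = 0 := by norm_num
theorem u4 : (16 : ℝ) = ((2251799813685248 : ℤ) : ℝ) / 2 ^ 47 := by norm_num

theorem out0 {Y s M l th : ℝ} (a0 : 0 ≤ Y) (b0 : Y ≤ 1 / 16) (a1 : 0 ≤ s) (b1 : s ≤ 1 / 32) (a2 : 0
    ≤ M) (b2 : M ≤ 1 / 8) (a3 : 0 ≤ l) (b3 : l ≤ 1 / 16) (a4 : 0 ≤ th) (b4 : th ≤ 16) : 0 < outR
    prog 0 [Y, s, M, l, th] :=
  gd 0 (by decide) [Y, s, M, l, th] (.cons ⟨l0.le.trans a0, b0.trans u0.le⟩ (.cons ⟨l1.le.trans a1,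
    b1.trans u1.le⟩ (.cons ⟨l2.le.trans a2, b2.trans u2.le⟩ (.cons ⟨l3.le.trans a3, b3.trans u3.le⟩
    (.cons ⟨l4.le.trans a4, b4.trans u4.le⟩ (.nil)))))) ⟨nofun, nofun, nofun, nofun, nofun, trivial⟩
    (List.forall_mem_nil _) (Van.of0 rfl) (nofun)

theorem pos0 {Y s M l th h e ts a b Z nu o dm m p2 dp dP q ee t H : ℝ} (hh : h = 1) (he : e = l * h)
    (hts : ts = th * s) (ha : a = (1 + l * ts) / (2 - 2 * e)) (hb : b = (1 + 2 * (l * ts)) / (1 - 2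
    * e)) (hZ : Z = s + 2 * e * M) (hnu : nu = 1 + l * (ts - th)) (ho : o = (1 - s) * nu) (hdm : dm
    = ts * (2 * (1 - Z) - (1 - s * Z) / 2) + th * ((1 - s) ^ 3 * (1 + nu) / 2 - M) + h * (2 * b * (1
    - Z) - a * (1 - s * Z) - M * (2 - s))) (hm : m = o ^ 2 / 2 + l * dm) (hp2 : p2 = (mWa l h th ts
    s M Z).1) (hdp : dp = (mWa l h th ts s M Z).2.1) (hdP : dP = (mWa l h th ts s M Z).2.2) (hq : q
    = th + 2 * h * (b - a * s)) (hee : ee = mWb l h ts a b m) (ht : t = -1) (hH : H = mWc h Z Y t o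
    m dm p2 dp dP q ee) (a0 : 0 ≤ Y) (b0 : Y ≤ 1 / 16) (a1 : 0 ≤ s) (b1 : s ≤ 1 / 32) (a2 : 0 ≤ M)
    (b2 : M ≤ 1 / 8) (a3 : 0 ≤ l) (b3 : l ≤ 1 / 16) (a4 : 0 ≤ th) (b4 : th ≤ 16) : 0 < H :=
  have e := eq hh he hts ha hb hZ hnu ho hdm hm hp2 hdp hdP hq hee ht hH
  (out0 a0 b0 a1 b1 a2 b2 a3 b3 a4 b4).trans_eq e

end Pool.Agent.Lib.MP_d6150d_an.WTA
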