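import Pool.Agent.Lib.MP_d6150d_an.WKey
import Pool.Agent.Lib.MP_d6150d_an.WR
import Pool.Agent.Lib.MP_d6150d_an.WL
import Pool.Agent.Lib.MP_d6150d_an.WTA
import Pool.Agent.Lib.MP_d6150d_an.WTB
import Pool.Agent.Lib.MP_d6150d_an.Blue

/-! The wedge at the point `(0, 1)` with `D > 0`. -/

namespace Pool.Agent.Lib.MP_d6150d_an

open Real Set Filter Topology Asymptotics

variable {e c t : ℝ}

/-- the positive factor -/
noncomputable def kkW (e c t : ℝ) : ℝ := (exp t * exp (-2 * e * t)) ^ 2 *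
  (ph1 t * (om (2 * e * c) t * exp (-t))) ^ 5 /
    (4 * muR (2 * e * c) (1 - e) t ^ 2 * exp ((1 - e) * t))

theorem kkW_pos (ht : t ∈ JR (2 * e * c)) : 0 < kkW e c t := by
  have h1 : 0 < om (2 * e * c) t := ht
  have h2 := muR_pos (F := 1 - e) ht
  have h3 := ph1_pos t
  unfold kkW; positivity

theorem kkW_cont : ContinuousAt (kkW e c) 0 := by
  have h1 := (ph1_an 0).continuousAt
  have h2 := (muR_an (2 * e * c) (1 - e) 0).continuousAt
  unfold kkW om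
  exact ContinuousAt.div (by fun_prop) (by fun_prop) (by simp [muR_zero])

/-- the description of the programs used near the center -/
structure CenW (e c t f : ℝ) : Prop where
  out : ∀ {s B A y ps fi h ts z th a b M Z Y nu o dm m p2 dp dP q v ee H : ℝ}, s = exp t → B = ph1 t → A = ph2 t → y = (-2) * e * t → ps = ph1 y → fi = ph2 y → h = 1 →
  ts = 2 * c → z = exp (-t) → th = ts * z → a = (1 + e * ts) / (2 - 2 * e) →
  b = (1 + 2 * (e * ts)) / (1 - 2 * e) → M = -(t * s * ps) → Z = s + 2 * e * M →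
  Y = exp ((1 - 3 * e) * t) → nu = 1 + e * (ts - th) → o = B * nu →
  dm = B ^ 2 * (c + a * (1 - 2 * t * ps) - (ts - th) * (nu + 1) / 2) -
    2 * (c + b - a) * (A - 2 * e * (B * ps - fi)) → m = o ^ 2 / 2 + e * dm →
  p2 = (mWa e h th ts s M Z).1 → dp = (mWa e h th ts s M Z).2.1 → dP = (mWa e h th ts s M Z).2.2 →
  q = th + 2 * h * (b - a * s) → v = t ^ 2 * m → ee = mWb e h ts a b v →
  H = mWc h Z Y t o m dm p2 dp dP q ee → f = e * H

theorem CenW.zero {f : ℝ} (hf : CenW 0 c t f) : f = 0 :=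
  (hf.out rfl rfl rfl rfl rfl rfl rfl rfl rfl rfl rfl rfl rfl rfl rfl rfl rfl rfl rfl rfl rfl rfl rfl
    rfl rfl rfl).trans (zero_mul _)

theorem CenW.eq {f : ℝ} (hf : CenW e c t f) (e0 : 0 < e) (he : e < 1 / 2)
    (ht : t ∈ JR (2 * e * c)) (h0 : t ≠ 0) : f * t ^ 3 = dW e c t * kkW e c t := by
  obtain ⟨s, hs⟩ : ∃ s, s = exp t := ⟨_, rfl⟩
  obtain ⟨B, hB⟩ : ∃ B, B = ph1 t := ⟨_, rfl⟩
  obtain ⟨A, hA⟩ : ∃ A, A = ph2 t := ⟨_, rfl⟩
  obtain ⟨ps, hps⟩ : ∃ ps, ps = ph1 (-2 * e * t) := ⟨_, rfl⟩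
  obtain ⟨fi, hfi⟩ : ∃ fi, fi = ph2 (-2 * e * t) := ⟨_, rfl⟩
  obtain ⟨z, hz⟩ : ∃ z, z = exp (-t) := ⟨_, rfl⟩
  obtain ⟨th, hth⟩ : ∃ th, th = 2 * c * z := ⟨_, rfl⟩
  obtain ⟨M, hM⟩ : ∃ M, M = -(t * s * ps) := ⟨_, rfl⟩
  obtain ⟨Z, hZ⟩ : ∃ Z, Z = s + 2 * e * M := ⟨_, rfl⟩
  obtain ⟨nu, hnu⟩ : ∃ nu, nu = 1 + e * (2 * c - th) := ⟨_, rfl⟩
  obtain ⟨o, ho⟩ : ∃ o, o = B * nu := ⟨_, rfl⟩
  obtain ⟨dm, hdm⟩ : ∃ dm, dm = B ^ 2 * (c + aW e c * (1 - 2 * t * ps) - (2 * c - th) * (nu + 1) / 2) -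
    2 * (c + bW e c - aW e c) * (A - 2 * e * (B * ps - fi)) := ⟨_, rfl⟩
  obtain ⟨m, hm⟩ : ∃ m, m = o ^ 2 / 2 + e * dm := ⟨_, rfl⟩
  have r1 : s = 1 + t * B := by rw [hs, hB]; exact exp_eq_ph t
  have r2 : B = 1 + t * A := by rw [hB, hA]; rfl
  have r3 : exp (-2 * e * t) = 1 + -2 * e * t * ps := by rw [hps]; exact exp_eq_ph _
  have r4 : ps = 1 + -2 * e * t * fi := by rw [hps, hfi]; rfl
  have r5 : z * s = 1 := by rw [hz, hs, ← exp_add]; simp
  have ra := aW_eq (c := c) he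
  have rb := bW_eq (c := c) he
  have hZ' : Z = s * exp (-2 * e * t) := by rw [hZ, hM, r3]; ring
  have hv : vR (2 * e * c) (1 - e) t = 2 * (t ^ 2 * m) := by
    rw [vW he, kW, ← hs, r3, hm, hdm, ho, hnu]
    generalize aW e c = a, bW e c = b at *
    rw [r1]
    linear_combination (t ^ 2 * B ^ 2 + 2 * t * B * (1 + -2 * e * t * ps)) * ra -
      2 * t * B * (1 + -2 * e * t * ps) * rb + 4 * e * t * (c + b - a) * (r4 - r2)
  have hn : om (2 * e * c) t = s * nu := by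
    rw [om, ← hs, hnu, hth]; linear_combination 2 * e * c * r5
  have hw : wR (2 * e * c) t = s * t * o := by rw [wR_eq, hn, ← hs, ho]; linear_combination s * nu * r1
  have key := keyW (l := e) (h := 1) (th := th) (ts := 2 * c) (dm := dm) he ht h0 (by ring) (by ring)
    (by rw [hth]; linear_combination -2 * c * r5) hs hZ hZ' rfl hv hw hm
  rw [hf.out (a := aW e c) (b := bW e c) hs hB hA rfl hps hfi rfl rfl hz hth rfl rfl hM hZ rfl hnu ho
    hdm hm rfl rfl rfl rfl rfl rfl rfl]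
  have hmu : muR (2 * e * c) (1 - e) t = 2 * m := by
    apply mul_left_cancel₀ (pow_ne_zero 2 h0); rw [← vR, hv]; ring
  have m0 := muR_pos (F := 1 - e) ht
  have ho' : ph1 t * (om (2 * e * c) t * exp (-t)) = o := by
    rw [hn, ← hB, ← hz, ho]; linear_combination B * nu * r5
  rw [kkW, ← hs, ← hZ', ho', ← mul_div_assoc, eq_div_iff (by positivity), hmu]
  apply mul_left_cancel₀ (mul_ne_zero e0.ne' (pow_ne_zero 5 h0))
  linear_combination -1 / 2 * key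

theorem cen_bigO {f : ℝ → ℝ} (hf : ∀ t, CenW e c t (f t)) (e0 : 0 ≤ e) (he : e < 1 / 2) :
    f =O[𝓝[≠] 0] fun t ↦ t ^ 4 := by
  rcases e0.eq_or_lt with rfl | e0
  · exact (isBigO_zero _ _).congr_left fun t ↦ (hf t).zero.symm
  refine ((((dW_center (e := e) (c := c)).mul ((kkW_cont (e := e) (c := c)).isBigO_one ℝ)).mono
    nhdsWithin_le_nhds).mul (isBigO_refl (fun t : ℝ ↦ (t ^ 3)⁻¹) _)).congr' ?_ ?_
  · filter_upwards [self_mem_nhdsWithin,
      nhdsWithin_le_nhds ((JR_open _).mem_nhds (zero_mem_JR (2 * e * c)))] with t h0 ht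
    have h0 : t ≠ 0 := h0
    rw [← (hf t).eq e0 he ht h0]; field_simp
  · filter_upwards [self_mem_nhdsWithin] with t h0
    have h0 : t ≠ 0 := h0
    field_simp

variable (e0 : 0 < e) (he : e ≤ 1 / 16) (c0 : 0 ≤ c) (hc : c ≤ 1 / 2) (ht : t ∈ JR (2 * e * c))
include e0 he c0 hc ht

theorem dW_right (t0 : 0 < t) (t1 : t ≤ 1) : 0 < dW e c t := by
  have C : ∀ e c t, CenW e c t (outR WR.prog 0 [e, c, t]) := fun _ _ _ ↦ ⟨WR.eq rfl⟩
  have h := WR.out0 (fun c u _ _ _ _ ↦ (C 0 c u).zero) (fun e c a b _ _ ↦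
    (cen_bigO (C e c) a (by linarith)).mono (nhdsWithin_mono _ fun _ h ↦ ne_of_gt h))
    e0.le he c0 hc t0.le t1 e0 t0
  have := mul_pos h (pow_pos t0 3)
  rw [(C e c t).eq e0 (by linarith) ht t0.ne'] at this
  exact (mul_pos_iff_of_pos_right (kkW_pos ht)).1 this

theorem dW_left (t0 : t < 0) (t1 : -4 ≤ t) : dW e c t < 0 := by
  have C : ∀ e c u, CenW e c (-u) (outR WL.prog 0 [e, c, u]) := fun _ _ _ ↦ ⟨WL.eq rfl⟩
  have T : Tendsto (fun u : ℝ ↦ -u) (𝓝[>] 0) (𝓝[≠] 0) := by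
    simpa using (tendsto_neg_nhdsGT (a := (0 : ℝ))).mono_right (nhdsLT_le_nhdsNE _)
  have h := WL.out0 (fun c u _ _ _ _ ↦ (C 0 c u).zero) (fun e c a b _ _ ↦
    ((cen_bigO (f := fun t ↦ outR WL.prog 0 [e, c, -t]) (fun t ↦ by simpa using C e c (-t)) a
      (by linarith)).comp_tendsto T).congr (fun u ↦ by simp) fun u ↦ by simp only [Function.comp]; ring)
    e0.le he c0 hc (neg_pos.2 t0).le (by linarith) e0 (neg_pos.2 t0)
  have := mul_neg_of_pos_of_neg h (Odd.pow_neg (by decide : Odd 3) t0)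
  have C' := C e c (-t)
  rw [neg_neg] at C'
  rw [C'.eq e0 (by linarith) ht t0.ne] at this
  exact neg_of_mul_neg_left this (kkW_pos ht).le

omit c0 hc in
theorem tailW {l h th : ℝ} (l0 : 0 < l) (hl : e = l * h) (hth : 2 * e * c = l * (th * exp t))
    (t1 : t ≤ -4) (P : ∀ {Y s M e ts a b Z nu o dm m p2 dp dP q ee τ H : ℝ}, e = l * h →
      ts = th * s → a = (1 + l * ts) / (2 - 2 * e) → b = (1 + 2 * (l * ts)) / (1 - 2 * e) →
      Z = s + 2 * e * M → nu = 1 + l * (ts - th) → o = (1 - s) * nu →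
      dm = ts * (2 * (1 - Z) - (1 - s * Z) / 2) + th * ((1 - s) ^ 3 * (1 + nu) / 2 - M) +
        h * (2 * b * (1 - Z) - a * (1 - s * Z) - M * (2 - s)) → m = o ^ 2 / 2 + l * dm →
      p2 = (mWa l h th ts s M Z).1 → dp = (mWa l h th ts s M Z).2.1 →
      dP = (mWa l h th ts s M Z).2.2 → q = th + 2 * h * (b - a * s) → ee = mWb l h ts a b m →
      τ = -1 → H = mWc h Z Y τ o m dm p2 dp dP q ee → 0 ≤ Y → Y ≤ 1 / 16 → 0 ≤ s → s ≤ 1 / 32 →
      0 ≤ M → M ≤ 1 / 8 → 0 < H) : dW e c t < 0 := by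
  have t0 : t < 0 := by linarith
  obtain ⟨s, hs⟩ : ∃ s, s = exp t := ⟨_, rfl⟩
  obtain ⟨ps, hps⟩ : ∃ ps, ps = ph1 (-2 * e * t) := ⟨_, rfl⟩
  obtain ⟨ts, hts⟩ : ∃ ts, ts = th * s := ⟨_, rfl⟩
  obtain ⟨M, hM⟩ : ∃ M, M = -(t * s * ps) := ⟨_, rfl⟩
  obtain ⟨Z, hZ⟩ : ∃ Z, Z = s + 2 * e * M := ⟨_, rfl⟩
  obtain ⟨nu, hnu⟩ : ∃ nu, nu = 1 + l * (ts - th) := ⟨_, rfl⟩
  obtain ⟨o, ho⟩ : ∃ o, o = (1 - s) * nu := ⟨_, rfl⟩
  obtain ⟨dm, hdm⟩ : ∃ dm, dm = ts * (2 * (1 - Z) - (1 - s * Z) / 2) +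
    th * ((1 - s) ^ 3 * (1 + nu) / 2 - M) + h * (2 * bW e c * (1 - Z) - aW e c * (1 - s * Z) -
      M * (2 - s)) := ⟨_, rfl⟩
  obtain ⟨m, hm⟩ : ∃ m, m = o ^ 2 / 2 + l * dm := ⟨_, rfl⟩
  rw [← hs, ← hts] at hth
  have r3 : exp (-2 * e * t) = 1 + -2 * e * t * ps := by rw [hps]; exact exp_eq_ph _
  have ra := aW_eq (e := e) (c := c) (by linarith)
  have rb := bW_eq (e := e) (c := c) (by linarith)
  have hZ' : Z = s * exp (-2 * e * t) := by rw [hZ, hM, r3]; ring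
  have s0 : 0 < s := hs ▸ exp_pos t
  have x1 : 32 ≤ exp (7 / 2) := by
    have h1 := quadratic_le_exp_of_nonneg (x := 1 / 2) (by norm_num)
    have h2 := pow_le_pow_left₀ (by norm_num) exp_one_gt_d9.le 3
    rw [show (7 / 2 : ℝ) = (3 : ℕ) * 1 + 1 / 2 by norm_num, exp_add, exp_nat_mul]
    nlinarith
  have x2 : ∀ x, x ≤ -(7 / 2) → exp x ≤ 1 / 32 := fun x hx ↦ (exp_le_exp.2 hx).trans (by
    rw [exp_neg, one_div]; exact inv_anti₀ (by norm_num) x1)
  have s1 : s ≤ 1 / 32 := hs ▸ x2 t (by linarith)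
  have p0 : 0 < ps := hps ▸ ph1_pos _
  have M0 : 0 ≤ M := by rw [hM, ← neg_mul, ← neg_mul]; exact (mul_pos (mul_pos (by linarith) s0) p0).le
  have M1 : M ≤ 1 / 8 := by
    have y0 : 0 < -2 * e * t := by nlinarith
    have h1 : ps ≤ exp (-2 * e * t) := by
      have h2 := add_one_le_exp (-(-2 * e * t))
      have h3 : exp (-2 * e * t) * exp (-(-2 * e * t)) = 1 := by rw [← exp_add]; simp
      have h4 := exp_pos (-2 * e * t)
      refine le_of_mul_le_mul_left ?_ y0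
      nlinarith
    have h2 : s * exp (-2 * e * t) ≤ 1 / 32 * exp (7 / 8 * (t + 4)) := by
      rw [hs, ← exp_add, show t + -2 * e * t = (t + -2 * e * t - 7 / 8 * (t + 4)) + 7 / 8 * (t + 4) by
        ring, exp_add]
      exact mul_le_mul_of_nonneg_right (x2 _ (by nlinarith)) (exp_pos _).le
    have h3 := add_one_le_exp (-(7 / 8 * (t + 4)))
    have h4 : exp (7 / 8 * (t + 4)) * exp (-(7 / 8 * (t + 4))) = 1 := by rw [← exp_add]; simp
    have h5 := exp_pos (7 / 8 * (t + 4))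
    have h6 : -t * (s * ps) ≤ -t * (1 / 32 * exp (7 / 8 * (t + 4))) :=
      mul_le_mul_of_nonneg_left ((mul_le_mul_of_nonneg_left h1 s0.le).trans h2) (by linarith)
    nlinarith
  have Y1 : exp ((1 - 3 * e) * t) ≤ 1 / 16 := by
    have h1 := x2 (-(7 / 2)) le_rfl
    have h2 := add_one_le_exp (-(1 / 4))
    have h3 : exp (-(7 / 2)) = exp (-(13 / 4)) * exp (-(1 / 4)) := by rw [← exp_add]; norm_num
    have h4 : exp ((1 - 3 * e) * t) ≤ exp (-(13 / 4)) := exp_le_exp.2 (by nlinarith)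
    nlinarith [exp_pos (-(13 / 4))]
  have hv : vR (2 * e * c) (1 - e) t = 2 * ((-1) ^ 2 * m) := by
    rw [vW (by linarith), kW, ← hs, r3, hm, hdm, ho, hnu]
    generalize aW e c = a, bW e c = b at *
    subst hl hts hM
    rw [hZ]
    linear_combination 2 * (1 - Z) * rb - (1 - s * Z) * ra +
      (4 * (1 - Z) - (1 - s * Z) + 2 * t * ps) * hth +
      (2 * (b * (1 - 2 * (l * h)) - 1 - 2 * l * th * s) -
        s * (a * (2 - 2 * (l * h)) - 1 - l * th * s)) * hZ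
  have hn : om (2 * e * c) t = s * nu := by
    rw [om, ← hs, hnu, hth]; linear_combination -l * hts
  have hw : wR (2 * e * c) t = s * (-1) * o := by rw [wR_eq, hn, ← hs, ho]; ring
  have key := keyW (dm := dm) (by linarith) ht t0.ne hl hth hts hs hZ hZ' rfl hv hw hm
  have hH := P (a := aW e c) (b := bW e c) hl hts (by rw [aW, ← hth]; ring) (by rw [bW, ← hth]; ring)
    hZ hnu ho hdm hm rfl rfl rfl rfl rfl rfl rfl (exp_pos _).le Y1 s0.le s1 M0 M1
  have m0 : 0 < m := by have := vR_pos (F := 1 - e) ht t0.ne; linarith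
  have o0 : 0 < o := by
    have h1 : 0 < om (2 * e * c) t := ht
    rw [hn] at h1
    rw [ho]; exact mul_pos (by linarith) ((mul_pos_iff_of_pos_left s0).1 h1)
  have Z0 : 0 < Z := by rw [hZ']; positivity
  rw [show (-1 : ℝ) ^ 2 * m = m by ring] at key
  have h1 := mul_pos (by positivity : 0 < 32 * m ^ 2 * exp ((1 - e) * t) * l ^ 2 * (-1) ^ 4) hH
  rw [← key] at h1
  exact neg_of_mul_pos_right (a := -(2 * e * o ^ 5 * Z ^ 2)) (by linarith)
    (neg_nonpos.2 (by positivity))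

theorem dW_neg (t0 : t < 0) : dW e c t < 0 := by
  rcases le_total (-4) t with t1 | t1
  · exact dW_left e0 he c0 hc ht t0 t1
  have x : exp (-t) * exp t = 1 := by rw [← exp_add]; simp
  have p := exp_pos (-t)
  rcases le_total (2 * c * exp (-t)) 16 with k | k
  · exact tailW e0 he ht (h := 1) (th := 2 * c * exp (-t)) e0 (by ring)
      (by linear_combination -2 * e * c * x) t1
      fun h1 h2 h3 h4 h5 h6 h7 h8 h9 h10 h11 h12 h13 h14 h15 h16 a0 b0 a1 b1 a2 b2 ↦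
        WTA.pos0 rfl h1 h2 h3 h4 h5 h6 h7 h8 h9 h10 h11 h12 h13 h14 h15 h16 a0 b0 a1 b1 a2 b2 e0.le he
          (by positivity) k
  have k0 : 0 < 2 * c * exp (-t) := by linarith
  have h1 : 0 < ((1 + 2 * e * c) * exp t - 2 * e * c) * exp (-t) := mul_pos ht p
  exact tailW e0 he ht (l := e * (2 * c * exp (-t))) (h := 1 / (2 * c * exp (-t))) (th := 1)
    (mul_pos e0 k0) (by rw [mul_assoc, mul_one_div_cancel k0.ne', mul_one])
    (by linear_combination -2 * e * c * x) t1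
    fun h1 h2 h3 h4 h5 h6 h7 h8 h9 h10 h11 h12 h13 h14 h15 h16 a0 b0 a1 b1 a2 b2 ↦
      WTB.pos0 rfl h1 h2 h3 h4 h5 h6 h7 h8 h9 h10 h11 h12 h13 h14 h15 h16 a0 b0 a1 b1 a2 b2
        (by positivity) (one_div_le_one_div_of_le (by norm_num) k) (by positivity) (by nlinarith)

omit ht in
theorem critW : Crit1 (2 * e * c) (1 - e) := by
  refine ⟨oW (kW e c), 1, fun h ↦ by simp [Gp.P, oW], fun x hx y hy x0 y0 hv ↦ ?_⟩
  have ra := aW_eq (e := e) (c := c) (by linarith)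
  have rb := bW_eq (e := e) (c := c) (by linarith)
  have d0 := mul_nonneg e0.le c0
  have d1 : e * c ≤ 1 / 32 := by nlinarith
  have a0 : 1 / 2 ≤ aW e c := by nlinarith
  have a1 : aW e c ≤ 1 := by nlinarith
  have b0 : 1 ≤ bW e c := by nlinarith
  have b1 : bW e c ≤ 9 / 7 := by nlinarith
  have v1 := vW (e := e) (c := c) (by linarith) x
  have v2 := vW (e := e) (c := c) (by linarith) y
  have s1 := exp_lt_one_iff.2 x0
  have s2 := exp_pos x
  have z1 : 1 ≤ exp (-2 * e * x) := one_le_exp (by nlinarith)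
  have z2 : exp (-2 * e * y) ≤ 1 := exp_le_one_iff.2 (by nlinarith)
  have z3 := exp_pos (-2 * e * y)
  have q1 : 0 < exp x * (bW e c - aW e c * exp x) := mul_pos s2 (by nlinarith)
  have lev : vR (2 * e * c) (1 - e) y < kW e c - 2 * c := by rw [← hv, v1]; nlinarith
  have y1 : y ≤ 1 := by
    by_contra k
    have h1 := exp_one_gt_d9.trans (exp_lt_exp.2 (not_le.1 k))
    have h2 : 0 < exp y * (aW e c * exp y - bW e c) := mul_pos (exp_pos y) (by nlinarith)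
    nlinarith
  have p1 := dW_neg e0 he c0 hc hx x0
  have p2 := dW_right e0 he c0 hc hy y0 y1
  have v0 := vR_pos (F := 1 - e) hy y0.ne'
  simp only [dW, hv] at p1 p2
  refine ⟨?_, by linarith⟩
  simp only [Gp.Q, oW]
  nlinarith

end Pool.Agent.Lib.MP_d6150d_an

namespace Pool.Agent.Lib.MP_d6150d_an

theorem W_holds : St_W := fun D F h1 h2 h3 ↦ by
  have e0 : 0 < 1 - F := by linarith
  have := critW (e := 1 - F) (c := D / (2 * (1 - F))) e0 (by linarith) (by positivity)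
    (by rw [div_le_iff₀ (by positivity)]; linarith)
  rw [show 2 * (1 - F) * (D / (2 * (1 - F))) = D by field_simp, sub_sub_cancel] at this
  exact this.noThree

end Pool.Agent.Lib.MP_d6150d_an
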