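import Pool.Agent.Lib.MP_d6150d_an.GMac
import Pool.Agent.Lib.MP_d6150d_an.PpChk
import Pool.Agent.Lib.MP_d6150d_an.Z2AK0

/-! A generated chart: the inequality. -/

namespace Pool.Agent.Lib.MP_d6150d_an.Z2A

set_option linter.unnecessarySeqFocus false
set_option linter.unusedTactic false
set_option linter.unusedVariables false

theorem gd : Gd2 C [(0, 52776558133248), (0, 17592186044416), (0, 8796093022208), (0,
    61572651155456)] := chk_sound2 k0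

set_option maxRecDepth 100000 in
theorem eq {k x b a s F d z w n r : ℝ} (hs : s = k * x) (hF : F = 1 / 2 - b) (hd : d = 1 / 2 + a)
    (hz : z = s - 2 * b * x) (hw : w = d - 2 * a * s - (1 / 2 - a) * s ^ 2) (hn : n = d * (1 - z) /
    (1 + 2 * b) - (1 / 2 - a) * (z - s ^ 2) / (1 - 2 * b) - 2 * a * x) (hr : r = (√(z + 2 * F * (3 /
    2 + 2 * a + b) / 3 * n))⁻¹) : outR prog 0 [k, x, b, a] = w * (w + 2 * F * n) ^ 2 - 8 * F * n ^ 2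
    * (d - a * s) - z * r ^ 3 * w ^ 3 := by
  replace hs : s = (k * x) := hs.trans (by push_cast <;> ring)
  replace hF : F = (((Int.cast (1) : ℝ) / (Nat.cast 2 : ℝ)) - b) := hF.trans (by push_cast <;> ring)
  replace hd : d = (((Int.cast (1) : ℝ) / (Nat.cast 2 : ℝ)) + a) := hd.trans (by push_cast <;> ring)
  replace hz : z = (s - (((Int.cast (2) : ℝ) * b) * x)) := hz.trans (by push_cast <;> ring)
  replace hw : w = ((d - (((Int.cast (2) : ℝ) * a) * s)) - ((((Int.cast (1) : ℝ) / (Nat.cast 2 : ℝ))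
    - a) * (s * s))) := hw.trans (by push_cast <;> ring)
  replace hn : n = ((((d * ((Int.cast (1) : ℝ) - z)) * ((Int.cast (1) : ℝ) + ((Int.cast (2) : ℝ) *
    b))⁻¹) - (((((Int.cast (1) : ℝ) / (Nat.cast 2 : ℝ)) - a) * (z - (s * s))) * ((Int.cast (1) : ℝ)
    - ((Int.cast (2) : ℝ) * b))⁻¹)) - (((Int.cast (2) : ℝ) * a) * x)) := hn.trans (by push_cast <;>
    ring)
  replace hr : r = (√(z + ((((Int.cast (1) : ℝ) / (Nat.cast 3 : ℝ)) * (((Int.cast (2) : ℝ) * F) *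
    ((((Int.cast (3) : ℝ) / (Nat.cast 2 : ℝ)) + ((Int.cast (2) : ℝ) * a)) + b))) * n)))⁻¹ :=
    hr.trans (congrArg (fun x : ℝ ↦ (√x)⁻¹) (by push_cast <;> ring))
  have e0 : (((w * ((w + (((Int.cast (2) : ℝ) * F) * n)) * (w + (((Int.cast (2) : ℝ) * F) * n)))) -
    ((((Int.cast (8) : ℝ) * F) * (n * n)) * (d - (a * s)))) - ((z * ((r * r) * r)) * ((w * w) * w)))
    = w * (w + 2 * F * n) ^ 2 - 8 * F * n ^ 2 * (d - a * s) - z * r ^ 3 * w ^ 3 := by push_cast <;>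
    ring
  subst hs hF hd hz hw hn hr
  exact Eq.trans rfl e0

theorem l0 : ((0 : ℤ) : ℝ) / 2 ^ 47 = 0 := by norm_num
theorem u0 : (3 / 8 : ℝ) = ((52776558133248 : ℤ) : ℝ) / 2 ^ 47 := by norm_num
theorem l1 : ((0 : ℤ) : ℝ) / 2 ^ 47 = 0 := by norm_num
theorem u1 : (1 / 8 : ℝ) = ((17592186044416 : ℤ) : ℝ) / 2 ^ 47 := by norm_num
theorem l2 : ((0 : ℤ) : ℝ) / 2 ^ 47 = 0 := by norm_num
theorem u2 : (1 / 16 : ℝ) = ((8796093022208 : ℤ) : ℝ) / 2 ^ 47 := by norm_num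
theorem l3 : ((0 : ℤ) : ℝ) / 2 ^ 47 = 0 := by norm_num
theorem u3 : (7 / 16 : ℝ) = ((61572651155456 : ℤ) : ℝ) / 2 ^ 47 := by norm_num

theorem out0 (N : ∀ k x a : ℝ, 0 ≤ k → k ≤ 3 / 8 → 0 ≤ x → x ≤ 1 / 8 → 0 ≤ a → a ≤ 7 / 16 → 0 ≤ outR
    prog 0 [k, x, 0, a]) {k x b a : ℝ} (a0 : 0 ≤ k) (b0 : k ≤ 3 / 8) (a1 : 0 ≤ x) (b1 : x ≤ 1 / 8)
    (a2 : 0 ≤ b) (b2 : b ≤ 1 / 16) (a3 : 0 ≤ a) (b3 : a ≤ 7 / 16) (pc : 0 < b) : 0 < outR prog 0 [k,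
    x, b, a] :=
  gd 0 (by decide) [k, x, b, a] (.cons ⟨l0.le.trans a0, b0.trans u0.le⟩ (.cons ⟨l1.le.trans a1,
    b1.trans u1.le⟩ (.cons ⟨l2.le.trans a2, b2.trans u2.le⟩ (.cons ⟨l3.le.trans a3, b3.trans u3.le⟩
    (.nil))))) ⟨nofun, nofun, nofun, nofun, trivial⟩ (fun _ ↦ .inr (.inr (.inl ⟨rfl, pc⟩)))
    (List.forall_mem_nil _) (Van.of0 rfl) (fun _ y0 a0 b0 y1 a1 b1 _ _ _ y3 a3 b3 ↦ N y0 y1 y3
    (l0.ge.trans a0) (b0.trans u0.ge) (l1.ge.trans a1) (b1.trans u1.ge) (l3.ge.trans a3) (b3.trans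
    u3.ge))

end Pool.Agent.Lib.MP_d6150d_an.Z2A
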