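import Pool.Agent.Lib.MP_d6150d_an.Z2BD

/-! A generated chart: the computations. -/

namespace Pool.Agent.Lib.MP_d6150d_an.Z2B

theorem k0 : chk C 0x8888122 [(0, 52776558133248), (0, 17592186044416), (0, 61572651155456)] = true
    := by
  decide +kernel

end Pool.Agent.Lib.MP_d6150d_an.Z2B
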