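import Pool.Agent.Lib.MP_d6150d_an.GMac
import Pool.Agent.Lib.MP_d6150d_an.PpChk
import Pool.Agent.Lib.MP_d6150d_an.Z2BK0

/-! A generated chart: the inequality. -/

namespace Pool.Agent.Lib.MP_d6150d_an.Z2B

set_option linter.unnecessarySeqFocus false
set_option linter.unusedTactic false
set_option linter.unusedVariables false

theorem gd : Gd2 C [(0, 52776558133248), (0, 17592186044416), (0, 61572651155456)] := chk_sound2 k0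

set_option maxRecDepth 100000 in
theorem eq {k x a s b F d z w n r : ℝ} (hs : s = k * x) (hb : b = 0) (hF : F = 1 / 2 - b) (hd : d =
    1 / 2 + a) (hz : z = s - 2 * b * x) (hw : w = d - 2 * a * s - (1 / 2 - a) * s ^ 2) (hn : n = d *
    (1 - z) / (1 + 2 * b) - (1 / 2 - a) * (z - s ^ 2) / (1 - 2 * b) - 2 * a * x) (hr : r = (√(z + 2
    * F * (3 / 2 + 2 * a + b) / 3 * n))⁻¹) : outR prog 0 [k, x, a] = w * (w + 2 * F * n) ^ 2 - 8 * F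
    * n ^ 2 * (d - a * s) - z * r ^ 3 * w ^ 3 := by
  replace hs : s = (k * x) := hs.trans (by push_cast <;> ring)
  replace hb : b = (Int.cast (0) : ℝ) := hb.trans (by push_cast <;> ring)
  replace hF : F = (((Int.cast (1) : ℝ) / (Nat.cast 2 : ℝ)) - b) := hF.trans (by push_cast <;> ring)
  replace hd : d = (((Int.cast (1) : ℝ) / (Nat.cast 2 : ℝ)) + a) := hd.trans (by push_cast <;> ring)
  replace hz : z = (s - (((Int.cast (2) : ℝ) * b) * x)) := hz.trans (by push_cast <;> ring)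
  replace hw : w = ((d - (((Int.cast (2) : ℝ) * a) * s)) - ((((Int.cast (1) : ℝ) / (Nat.cast 2 : ℝ))
    - a) * (s * s))) := hw.trans (by push_cast <;> ring)
  replace hn : n = ((((d * ((Int.cast (1) : ℝ) - z)) * ((Int.cast (1) : ℝ) + ((Int.cast (2) : ℝ) *
    b))⁻¹) - (((((Int.cast (1) : ℝ) / (Nat.cast 2 : ℝ)) - a) * (z - (s * s))) * ((Int.cast (1) : ℝ)
    - ((Int.cast (2) : ℝ) * b))⁻¹)) - (((Int.cast (2) : ℝ) * a) * x)) := hn.trans (by push_cast <;>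
    ring)
  replace hr : r = (√(z + ((((Int.cast (1) : ℝ) / (Nat.cast 3 : ℝ)) * (((Int.cast (2) : ℝ) * F) *
    ((((Int.cast (3) : ℝ) / (Nat.cast 2 : ℝ)) + ((Int.cast (2) : ℝ) * a)) + b))) * n)))⁻¹ :=
    hr.trans (congrArg (fun x : ℝ ↦ (√x)⁻¹) (by push_cast <;> ring))
  have e0 : (((w * ((w + (((Int.cast (2) : ℝ) * F) * n)) * (w + (((Int.cast (2) : ℝ) * F) * n)))) -
    ((((Int.cast (8) : ℝ) * F) * (n * n)) * (d - (a * s)))) - ((z * ((r * r) * r)) * ((w * w) * w)))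
    = w * (w + 2 * F * n) ^ 2 - 8 * F * n ^ 2 * (d - a * s) - z * r ^ 3 * w ^ 3 := by push_cast <;>
    ring
  subst hs hb hF hd hz hw hn hr
  exact Eq.trans rfl e0

theorem l0 : ((0 : ℤ) : ℝ) / 2 ^ 47 = 0 := by norm_num
theorem u0 : (3 / 8 : ℝ) = ((52776558133248 : ℤ) : ℝ) / 2 ^ 47 := by norm_num
theorem l1 : ((0 : ℤ) : ℝ) / 2 ^ 47 = 0 := by norm_num
theorem u1 : (1 / 8 : ℝ) = ((17592186044416 : ℤ) : ℝ) / 2 ^ 47 := by norm_num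
theorem l2 : ((0 : ℤ) : ℝ) / 2 ^ 47 = 0 := by norm_num
theorem u2 : (7 / 16 : ℝ) = ((61572651155456 : ℤ) : ℝ) / 2 ^ 47 := by norm_num

theorem out0 (V1 : ∀ k a : ℝ, 0 ≤ k → k ≤ 3 / 8 → 0 ≤ a → a ≤ 7 / 16 → outR prog 0 [k, 0, a] = 0)
    (V2 : ∀ k x : ℝ, 0 ≤ k → k ≤ 3 / 8 → 0 ≤ x → x ≤ 1 / 8 → outR prog 0 [k, x, 0] = 0) {k x a : ℝ}
    (a0 : 0 ≤ k) (b0 : k ≤ 3 / 8) (a1 : 0 ≤ x) (b1 : x ≤ 1 / 8) (a2 : 0 ≤ a) (b2 : a ≤ 7 / 16) (p1 :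
    0 < x) (p2 : 0 < a) : 0 < outR prog 0 [k, x, a] :=
  gd 0 (by decide) [k, x, a] (.cons ⟨l0.le.trans a0, b0.trans u0.le⟩ (.cons ⟨l1.le.trans a1,
    b1.trans u1.le⟩ (.cons ⟨l2.le.trans a2, b2.trans u2.le⟩ (.nil)))) ⟨nofun, fun _ ↦ p1, fun _ ↦
    p2, trivial⟩ (nofun) (List.forall_mem_nil _) (⟨fun _ ↦ allB_iff.2 fun _ _ ↦ trivial, fun y0 a0
    b0 ↦ ⟨fun _ y2 a2 b2 ↦ V1 y0 y2 (l0.ge.trans a0) (b0.trans u0.ge) (l2.ge.trans a2) (b2.trans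
    u2.ge), fun y1 a1 b1 ↦ ⟨fun _ ↦ V2 y0 y1 (l0.ge.trans a0) (b0.trans u0.ge) (l1.ge.trans a1)
    (b1.trans u1.ge), fun _ _ _ ↦ trivial⟩⟩⟩) (nofun)

end Pool.Agent.Lib.MP_d6150d_an.Z2B
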