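import Pool.Agent.Lib.MP_d6150d_an.Z2LD

/-! A generated chart: the computations. -/

namespace Pool.Agent.Lib.MP_d6150d_an.Z2L

theorem k0 : chk C 0x8819929208902 [(0, 61572651155456), (0, 8796093022208), (0, 140737488355328)] =
    true := by
  decide +kernel

theorem k1 : chk C 0x881881288800890188881008901299292992220 [(0, 61572651155456), (0,
    8796093022208), (140737488355328, 281474976710656)] = true := by
  decide +kernel

theorem k2 : chk C 0x881992088199202 [(0, 30786325577728), (0, 4398046511104), (281474976710656,
    422212465065984)] = true := by
  decide +kernel

theorem k3 : chk C 0x888118809921088801992992202 [(0, 30786325577728), (0, 4398046511104),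
    (422212465065984, 562949953421312)] = true := by
  decide +kernel

theorem k4 : chk C 0x88800888002888008880022 [(0, 30786325577728), (4398046511104, 8796093022208),
    (281474976710656, 562949953421312)] = true := by
  decide +kernel

theorem k5 : chk C 0x882882288188128808221 [(30786325577728, 61572651155456), (0, 8796093022208),
    (281474976710656, 562949953421312)] = true := by
  decide +kernel

end Pool.Agent.Lib.MP_d6150d_an.Z2L
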