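import Pool.Agent.Lib.MP_d6150d_an.Z2MD

/-! A generated chart: the computations. -/

namespace Pool.Agent.Lib.MP_d6150d_an.Z2M

theorem k0 : chk C 0x8818808802812989121 [(0, 8796093022208), (0, 61572651155456), (562949953421312,
    1407374883553280)] = true := by
  decide +kernel

end Pool.Agent.Lib.MP_d6150d_an.Z2M
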