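import Pool.Agent.Lib.MP_d6150d_an.GMac
import Pool.Agent.Lib.MP_d6150d_an.PpChk
import Pool.Agent.Lib.MP_d6150d_an.Z2MK0

/-! A generated chart: the inequality. -/

namespace Pool.Agent.Lib.MP_d6150d_an.Z2M

set_option linter.unnecessarySeqFocus false
set_option linter.unusedTactic false
set_option linter.unusedVariables false

theorem gd : Gd2 C [(0, 8796093022208), (0, 61572651155456), (562949953421312, 1407374883553280)] :=
    chk_sound2 k0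

set_option maxRecDepth 100000 in
theorem eq {b a t y p s z4 x F d z q w n m r : ℝ} (hy : y = (-2) * b * t) (hp : p = Real.exp y) (hs
    : s = Real.exp ((2 * b - 1 / 2) * t)) (hz4 : z4 = ph1 y) (hx : x = s * t * z4) (hF : F = 1 / 2 -
    b) (hd : d = 1 / 2 + a) (hz : z = p * s ^ 2) (hq : q = p * z) (hw : w = 1 / 2 - a + 2 * a * q -
    d * q ^ 2) (hn : n = s * (d * (1 - q * p) / (1 / 2 + b)) - 2 * a * x) (hm : m = w - p * s * n)
    (hr : r = (√(z + (3 / 2 + 2 * a + b) / 3 * m))⁻¹) : outR prog 0 [b, a, t] = F * w * (s ^ 2 * r ^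
    3 * w ^ 2 - n ^ 2) - 2 * m ^ 2 * (d * q - a) := by
  replace hy : y = (((Int.cast (-2) : ℝ) * b) * t) := hy.trans (by push_cast <;> ring)
  replace hs : s = (Real.exp ((((Int.cast (2) : ℝ) * b) - ((Int.cast (1) : ℝ) / (Nat.cast 2 : ℝ))) *
    t)) := hs.trans (congrArg Real.exp (by push_cast <;> ring))
  replace hx : x = ((s * t) * z4) := hx.trans (by push_cast <;> ring)
  replace hF : F = (((Int.cast (1) : ℝ) / (Nat.cast 2 : ℝ)) - b) := hF.trans (by push_cast <;> ring)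
  replace hd : d = (((Int.cast (1) : ℝ) / (Nat.cast 2 : ℝ)) + a) := hd.trans (by push_cast <;> ring)
  replace hz : z = (p * (s * s)) := hz.trans (by push_cast <;> ring)
  replace hq : q = (p * z) := hq.trans (by push_cast <;> ring)
  replace hw : w = (((((Int.cast (1) : ℝ) / (Nat.cast 2 : ℝ)) - a) + (((Int.cast (2) : ℝ) * a) * q))
    - (d * (q * q))) := hw.trans (by push_cast <;> ring)
  replace hn : n = ((s * ((d * ((Int.cast (1) : ℝ) - (q * p))) * (((Int.cast (1) : ℝ) / (Nat.cast 2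
    : ℝ)) + b)⁻¹)) - (((Int.cast (2) : ℝ) * a) * x)) := hn.trans (by push_cast <;> ring)
  replace hm : m = (w - ((p * s) * n)) := hm.trans (by push_cast <;> ring)
  replace hr : r = (√(z + ((((Int.cast (1) : ℝ) / (Nat.cast 3 : ℝ)) * ((((Int.cast (3) : ℝ) /
    (Nat.cast 2 : ℝ)) + ((Int.cast (2) : ℝ) * a)) + b)) * m)))⁻¹ := hr.trans (congrArg (fun x : ℝ ↦
    (√x)⁻¹) (by push_cast <;> ring))
  have e0 : (((F * w) * ((((s * s) * ((r * r) * r)) * (w * w)) - (n * n))) - (((Int.cast (2) : ℝ) *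
    (m * m)) * ((d * q) - a))) = F * w * (s ^ 2 * r ^ 3 * w ^ 2 - n ^ 2) - 2 * m ^ 2 * (d * q - a)
    := by push_cast <;> ring
  subst hy hp hs hz4 hx hF hd hz hq hw hn hm hr
  exact Eq.trans rfl e0

theorem l0 : ((0 : ℤ) : ℝ) / 2 ^ 47 = 0 := by norm_num
theorem u0 : (1 / 16 : ℝ) = ((8796093022208 : ℤ) : ℝ) / 2 ^ 47 := by norm_num
theorem l1 : ((0 : ℤ) : ℝ) / 2 ^ 47 = 0 := by norm_num
theorem u1 : (7 / 16 : ℝ) = ((61572651155456 : ℤ) : ℝ) / 2 ^ 47 := by norm_num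
theorem l2 : ((562949953421312 : ℤ) : ℝ) / 2 ^ 47 = 4 := by norm_num
theorem u2 : (10 : ℝ) = ((1407374883553280 : ℤ) : ℝ) / 2 ^ 47 := by norm_num

theorem out0 (N : ∀ b t : ℝ, 0 ≤ b → b ≤ 1 / 16 → 4 ≤ t → t ≤ 10 → 0 ≤ outR prog 0 [b, 0, t]) {b a t
    : ℝ} (a0 : 0 ≤ b) (b0 : b ≤ 1 / 16) (a1 : 0 ≤ a) (b1 : a ≤ 7 / 16) (a2 : 4 ≤ t) (b2 : t ≤ 10)
    (pc : 0 < a) : 0 < outR prog 0 [b, a, t] :=
  gd 0 (by decide) [b, a, t] (.cons ⟨l0.le.trans a0, b0.trans u0.le⟩ (.cons ⟨l1.le.trans a1,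
    b1.trans u1.le⟩ (.cons ⟨l2.le.trans a2, b2.trans u2.le⟩ (.nil)))) ⟨nofun, nofun, nofun, trivial⟩
    (fun _ ↦ .inr (.inl ⟨rfl, pc⟩)) (List.forall_mem_nil _) (Van.of0 rfl) (fun _ y0 a0 b0 _ _ _ y2
    a2 b2 ↦ N y0 y2 (l0.ge.trans a0) (b0.trans u0.ge) (l2.ge.trans a2) (b2.trans u2.ge))

end Pool.Agent.Lib.MP_d6150d_an.Z2M
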