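import Pool.Agent.Lib.MP_d6150d_an.Z2RD

/-! A generated chart: the computations. -/

namespace Pool.Agent.Lib.MP_d6150d_an.Z2R

theorem k0 : chk C 0x8888880000890108902 [(0, 61572651155456), (0, 8796093022208), (0,
    140737488355328)] = true := by
  decide +kernel

theorem k1 : chk C 0x88188188882009921888800091200 [(0, 61572651155456), (0, 8796093022208),
    (140737488355328, 281474976710656)] = true := by
  decide +kernel

theorem k2 : chk C 0x880881881888820088900921088888200910200 [(0, 61572651155456), (0,
    4398046511104), (281474976710656, 422212465065984)] = true := by
  decide +kernel

theorem k3 : chk C 0x8888818200910 [(0, 7696581394432), (0, 2199023255552), (422212465065984,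
    492581209243648)] = true := by
  decide +kernel

theorem k4 : chk C 0x881888882000888888200910010 [(0, 7696581394432), (0, 2199023255552),
    (492581209243648, 562949953421312)] = true := by
  decide +kernel

theorem k5 : chk C 0x881 [(7696581394432, 15393162788864), (0, 2199023255552), (422212465065984,
    562949953421312)] = true := by
  decide +kernel

theorem k6 : chk C 0x8888888210888202000 [(0, 15393162788864), (2199023255552, 4398046511104),
    (422212465065984, 562949953421312)] = true := by
  decide +kernel

theorem k7 : chk C 0x881 [(15393162788864, 30786325577728), (0, 4398046511104), (422212465065984,
    562949953421312)] = true := by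
  decide +kernel

theorem k8 : chk C 0x888018802 [(30786325577728, 61572651155456), (0, 4398046511104),
    (422212465065984, 562949953421312)] = true := by
  decide +kernel

theorem k9 : chk C 0x888888881000000 [(0, 61572651155456), (4398046511104, 8796093022208),
    (281474976710656, 422212465065984)] = true := by
  decide +kernel

theorem k10 : chk C 0x8808881881888182088881820010000 [(0, 61572651155456), (4398046511104,
    8796093022208), (422212465065984, 562949953421312)] = true := by
  decide +kernel

end Pool.Agent.Lib.MP_d6150d_an.Z2R
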