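import Pool.Agent.Lib.MP_d6150d_an.GMac
import Pool.Agent.Lib.MP_d6150d_an.PpChk
import Pool.Agent.Lib.MP_d6150d_an.Z2SK0

/-! A generated chart: the inequality. -/

namespace Pool.Agent.Lib.MP_d6150d_an.Z2S

set_option linter.unnecessarySeqFocus false
set_option linter.unusedTactic false
set_option linter.unusedVariables false

theorem gd : Gd2 C [(0, 8796093022208), (0, 140737488355328), (0, 8796093022208)] := chk_sound2 k0

set_option maxRecDepth 100000 in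
theorem eq {b g k z1 p F z q w n m r : ℝ} (hz1 : z1 = Real.exp ((-8) * b)) (hp : p = z1 * (1 - g))
    (hF : F = 1 / 2 - b) (hz : z = p * k) (hq : q = p * z) (hw : w = 1 / 2 - 1 / 2 * q ^ 2) (hn : n
    = 1 / 2 * (1 - q * p) / (1 / 2 + b)) (hm : m = w - z * n) (hr : r = (√(z + (3 / 2 + b) / 3 *
    m))⁻¹) : outR prog 0 [b, g, k] = F * w * (r ^ 3 * w ^ 2 - n ^ 2) - m ^ 2 * p ^ 2 := by
  replace hz1 : z1 = (Real.exp ((Int.cast (-8) : ℝ) * b)) := hz1.trans (congrArg Real.exp (by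
    push_cast <;> ring))
  replace hp : p = (z1 * ((Int.cast (1) : ℝ) - g)) := hp.trans (by push_cast <;> ring)
  replace hF : F = (((Int.cast (1) : ℝ) / (Nat.cast 2 : ℝ)) - b) := hF.trans (by push_cast <;> ring)
  replace hz : z = (p * k) := hz.trans (by push_cast <;> ring)
  replace hq : q = (p * z) := hq.trans (by push_cast <;> ring)
  replace hw : w = (((Int.cast (1) : ℝ) / (Nat.cast 2 : ℝ)) - (((Int.cast (1) : ℝ) / (Nat.cast 2 :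
    ℝ)) * (q * q))) := hw.trans (by push_cast <;> ring)
  replace hn : n = ((((Int.cast (1) : ℝ) / (Nat.cast 2 : ℝ)) * ((Int.cast (1) : ℝ) - (q * p))) *
    (((Int.cast (1) : ℝ) / (Nat.cast 2 : ℝ)) + b)⁻¹) := hn.trans (by push_cast <;> ring)
  replace hm : m = (w - (z * n)) := hm.trans (by push_cast <;> ring)
  replace hr : r = (√(z + ((((Int.cast (1) : ℝ) / (Nat.cast 3 : ℝ)) * (((Int.cast (3) : ℝ) /
    (Nat.cast 2 : ℝ)) + b)) * m)))⁻¹ := hr.trans (congrArg (fun x : ℝ ↦ (√x)⁻¹) (by push_cast <;>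
    ring))
  have e0 : (((F * w) * ((((r * r) * r) * (w * w)) - (n * n))) - ((m * m) * (p * p))) = F * w * (r ^
    3 * w ^ 2 - n ^ 2) - m ^ 2 * p ^ 2 := by push_cast <;> ring
  subst hz1 hp hF hz hq hw hn hm hr
  exact Eq.trans rfl e0

theorem l0 : ((0 : ℤ) : ℝ) / 2 ^ 47 = 0 := by norm_num
theorem u0 : (1 / 16 : ℝ) = ((8796093022208 : ℤ) : ℝ) / 2 ^ 47 := by norm_num
theorem l1 : ((0 : ℤ) : ℝ) / 2 ^ 47 = 0 := by norm_num
theorem u1 : (1 : ℝ) = ((140737488355328 : ℤ) : ℝ) / 2 ^ 47 := by norm_num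
theorem l2 : ((0 : ℤ) : ℝ) / 2 ^ 47 = 0 := by norm_num
theorem u2 : (1 / 16 : ℝ) = ((8796093022208 : ℤ) : ℝ) / 2 ^ 47 := by norm_num

theorem out0 (N : ∀ k : ℝ, 0 ≤ k → k ≤ 1 / 16 → 0 ≤ outR prog 0 [0, 0, k]) {b g k : ℝ} (a0 : 0 ≤ b)
    (b0 : b ≤ 1 / 16) (a1 : 0 ≤ g) (b1 : g ≤ 1) (a2 : 0 ≤ k) (b2 : k ≤ 1 / 16) (pc : 0 < b ∨ 0 < g)
    : 0 < outR prog 0 [b, g, k] :=
  gd 0 (by decide) [b, g, k] (.cons ⟨l0.le.trans a0, b0.trans u0.le⟩ (.cons ⟨l1.le.trans a1,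
    b1.trans u1.le⟩ (.cons ⟨l2.le.trans a2, b2.trans u2.le⟩ (.nil)))) ⟨nofun, nofun, nofun, trivial⟩
    (fun _ ↦ pc.elim (fun h ↦ .inl ⟨rfl, h⟩) (fun h ↦ .inr (.inl ⟨rfl, h⟩))) (List.forall_mem_nil _)
    (Van.of0 rfl) (fun _ _ _ _ _ _ _ y2 a2 b2 ↦ N y2 (l2.ge.trans a2) (b2.trans u2.ge))

end Pool.Agent.Lib.MP_d6150d_an.Z2S
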