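import Pool.Agent.Lib.MP_d6150d_an.Z2Key
import Pool.Agent.Lib.MP_d6150d_an.Z2R
import Pool.Agent.Lib.MP_d6150d_an.Z2L
import Pool.Agent.Lib.MP_d6150d_an.Z2M
import Pool.Agent.Lib.MP_d6150d_an.Z2T
import Pool.Agent.Lib.MP_d6150d_an.Z2S
import Pool.Agent.Lib.MP_d6150d_an.Z2A
import Pool.Agent.Lib.MP_d6150d_an.Z2B
import Pool.Agent.Lib.MP_d6150d_an.Blue

/-! The quadrant `D ≤ -1 / 2`, `F ≤ 1 / 2` of the double isochronous point. -/

namespace Pool.Agent.Lib.MP_d6150d_an.Z2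

open Real Set Filter Topology Asymptotics

theorem eqR (a b u : ℝ) : outR Z2R.prog 0 [a, b, u] = fC a b u :=
  Z2R.eq rfl rfl rfl rfl rfl rfl rfl rfl rfl rfl rfl rfl rfl rfl rfl

theorem eqL (a b u : ℝ) : outR Z2L.prog 0 [a, b, u] = -fC a b (-u) :=
  Z2L.eq rfl rfl rfl rfl rfl rfl rfl rfl rfl rfl rfl rfl rfl rfl rfl

theorem eqM (a b t : ℝ) : outR Z2M.prog 0 [b, a, t] = fR a b (exp (-2 * b * t))
    (exp ((2 * b - 1 / 2) * t)) (exp ((2 * b - 1 / 2) * t) * t * ph1 (-2 * b * t)) :=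
  Z2M.eq rfl rfl rfl rfl rfl rfl rfl rfl rfl rfl rfl rfl rfl

theorem eqT (s x b g a : ℝ) : outR Z2T.prog 0 [s, x, b, g, a] =
    fR a b (exp (-8 * b) * (1 - g)) s x := Z2T.eq rfl rfl rfl rfl rfl rfl rfl rfl rfl rfl

theorem eqS (b g k : ℝ) : outR Z2S.prog 0 [b, g, k] = fS b (exp (-8 * b) * (1 - g)) k :=
  Z2S.eq rfl rfl rfl rfl rfl rfl rfl rfl rfl

theorem eqA (k x b a : ℝ) : outR Z2A.prog 0 [k, x, b, a] = fL a b (k * x) x :=
  Z2A.eq rfl rfl rfl rfl rfl rfl rfl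

theorem eqB (k x a : ℝ) : outR Z2B.prog 0 [k, x, a] = fL a 0 (k * x) x :=
  Z2B.eq rfl rfl rfl rfl rfl rfl rfl rfl

variable {a b t g k s x : ℝ}

theorem fS_pos (b0 : 0 ≤ b) (b1 : b ≤ 1 / 16) (g0 : 0 ≤ g) (g1 : g ≤ 1) (k0 : 0 ≤ k)
    (k1 : k ≤ 1 / 16) (h : 0 < b ∨ 0 < g) : 0 < fS b (exp (-8 * b) * (1 - g)) k :=
  eqS b g k ▸ Z2S.out0 (fun k k0 _ ↦ by rw [eqS]; simp [fS_iso k0]) b0 b1 g0 g1 k0 k1 h

theorem fS_nonneg (b0 : 0 ≤ b) (b1 : b ≤ 1 / 16) (g0 : 0 ≤ g) (g1 : g ≤ 1) (k0 : 0 ≤ k)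
    (k1 : k ≤ 1 / 16) : 0 ≤ fS b (exp (-8 * b) * (1 - g)) k := by
  rcases b0.eq_or_lt with rfl | h
  · rcases g0.eq_or_lt with rfl | h
    · simp [fS_iso k0]
    · exact (fS_pos b0 b1 g0 g1 k0 k1 (.inr h)).le
  · exact (fS_pos b0 b1 g0 g1 k0 k1 (.inl h)).le

theorem exp3 : 20 ≤ exp 3 := by
  have h2 := pow_le_pow_left₀ (by norm_num) exp_one_gt_d9.le 3
  rw [show (3 : ℝ) = (3 : ℕ) * 1 by norm_num, exp_nat_mul]
  linarith

theorem exp_le_inv {x y c : ℝ} (c0 : 0 < c) (h : c ≤ exp y) (hx : x ≤ -y) : exp x ≤ 1 / c :=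
  (exp_le_exp.2 hx).trans (by rw [exp_neg, one_div]; exact inv_anti₀ c0 h)

theorem p_eq (b0 : 0 ≤ b) (t4 : 4 ≤ t) :
    ∃ g, 0 ≤ g ∧ g ≤ 1 ∧ exp (-2 * b * t) = exp (-8 * b) * (1 - g) :=
  ⟨1 - exp (-2 * b * (t - 4)), sub_nonneg.2 (exp_le_one_iff.2 (by nlinarith)),
    by linarith [exp_pos (-2 * b * (t - 4))], by rw [sub_sub_cancel, ← exp_add]; ring_nf⟩

theorem s_sq (b1 : b ≤ 1 / 16) (t4 : 4 ≤ t) : exp ((2 * b - 1 / 2) * t) ^ 2 ≤ 1 / 16 := by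
  rw [sq, ← exp_add]
  exact exp_le_inv (by norm_num) (le_trans (by norm_num) exp3) (by nlinarith)

theorem ph1_le_one (h : x ≤ 0) : ph1 x ≤ 1 := by
  rcases h.eq_or_lt with rfl | h
  · exact ph1_zero.le
  · have := add_one_le_exp x
    rw [exp_eq_ph] at this
    nlinarith

theorem ph1_ge (h : x ≤ 0) : 1 ≤ (1 - x) * ph1 x := by
  rcases h.eq_or_lt with rfl | h
  · simp [ph1_zero]
  · have h1 := add_one_le_exp (-x)
    have h2 : exp x * exp (-x) = 1 := by rw [← exp_add]; simp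
    have h3 := mul_le_mul_of_nonneg_left h1 (exp_pos x).le
    rw [h2, exp_eq_ph] at h3
    nlinarith

theorem iso (h0 : t ≠ 0) : dZ (-1 / 2 - 0) (1 / 2 - 0) t = 0 := by
  have ht := mem_JR (a := 0) le_rfl (by norm_num) t
  have := keyR (b := 0) le_rfl ht h0
  rw [fR_face, show -2 * 0 * t = 0 by ring, exp_zero, fS_iso (sq_nonneg _), mul_zero, mul_zero] at this
  exact (mul_eq_zero.1 this.symm).resolve_left (mul_ne_zero (mul_ne_zero (by norm_num)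
    (pow_ne_zero _ (mul_ne_zero (by positivity) (wR_ne ht h0)))) (exp_pos _).ne')

theorem fC_iso (t : ℝ) : fC 0 0 t = 0 := by
  by_cases h0 : t = 0
  · simp [fC, h0]
  · rw [keyC (mem_JR le_rfl (by norm_num) t) h0, iso h0, mul_zero]

theorem fC_bigO (a0 : 0 ≤ a) (a1 : a ≤ 7 / 16) : fC a b =O[𝓝[≠] 0] fun t ↦ t ^ 3 := by
  have h1 := (ph1_an 0).continuousAt
  have c : ContinuousAt (fun t ↦ (ph1 t * (om (-1 / 2 - a) t * exp (-t))) ^ 3 *
      exp (-((1 / 2 - b) * t))) 0 := by unfold om; fun_prop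
  refine (((c.isBigO_one ℝ).mono nhdsWithin_le_nhds).mul
    (dZ_center (D := -1 / 2 - a) (F := 1 / 2 - b))).congr' ?_ (Eventually.of_forall fun t ↦ one_mul _)
  filter_upwards [self_mem_nhdsWithin] with t h0
  exact (keyC (mem_JR a0 (by linarith) t) h0).symm

variable (a0 : 0 ≤ a) (a1 : a ≤ 7 / 16) (b0 : 0 ≤ b) (b1 : b ≤ 1 / 16) (h : 0 < a ∨ 0 < b)
include a0 a1 b0 b1 h

theorem right_far (t4 : 4 ≤ t) : 0 < fR a b (exp (-2 * b * t)) (exp ((2 * b - 1 / 2) * t))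
    (exp ((2 * b - 1 / 2) * t) * t * ph1 (-2 * b * t)) := by
  obtain ⟨g, g0, g1, hg⟩ := p_eq b0 t4
  rcases a0.eq_or_lt with rfl | a2
  · rw [fR_face, hg]
    exact mul_pos (by positivity) (fS_pos b0 b1 g0 g1 (sq_nonneg _) (s_sq b1 t4)
      (.inl (h.resolve_left (lt_irrefl _))))
  rcases le_total t 10 with t1 | t1
  · refine eqM a b t ▸ Z2M.out0 (fun b t b0 b1 t4 _ ↦ ?_) b0 b1 a0 a1 t4 t1 a2
    obtain ⟨g, g0, g1, hg⟩ := p_eq b0 t4
    rw [eqM, fR_face, hg]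
    exact mul_nonneg (sq_nonneg _) (fS_nonneg b0 b1 g0 g1 (sq_nonneg _) (s_sq b1 t4))
  have x1 : 40 ≤ exp (15 / 4) := by
    have h1 := quadratic_le_exp_of_nonneg (x := 3 / 4) (by norm_num)
    rw [show (15 / 4 : ℝ) = 3 + 3 / 4 by norm_num, exp_add]
    nlinarith [exp3]
  have x2 : exp ((2 * b - 1 / 2) * t) * t ≤ 1 / 4 := by
    have h1 := add_one_le_exp (3 / 8 * (t - 10))
    have h2 : 4 * t ≤ exp (15 / 4 + 3 / 8 * (t - 10)) := by rw [exp_add]; nlinarith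
    have h3 := exp_le_inv (x := (2 * b - 1 / 2) * t) (by linarith) h2 (by nlinarith)
    rw [le_div_iff₀ (by linarith)] at h3
    linarith
  have x3 := ph1_le_one (x := -2 * b * t) (by nlinarith)
  have x4 := ph1_pos (-2 * b * t)
  have x5 : 0 ≤ exp ((2 * b - 1 / 2) * t) * t := by positivity
  rw [hg, ← eqT]
  refine Z2T.out0 (fun s x b g s0 s1 _ _ b0 b1 g0 g1 ↦ ?_) (exp_pos _).le
    (exp_le_inv (by norm_num) (le_trans (by norm_num) x1) (by nlinarith)) (by positivity)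
    (by nlinarith) b0 b1 g0 g1 a0 a1 a2
  rw [eqT, fR_face]
  exact mul_nonneg (sq_nonneg _) (fS_nonneg b0 b1 g0 g1 (sq_nonneg _) (by nlinarith))

theorem left_far (t4 : t ≤ -4) : 0 < fL a b (exp t) (-t * exp t * ph1 (2 * b * t)) := by
  have B : ∀ {k x a : ℝ}, 0 ≤ k → k ≤ 3 / 8 → 0 < x → x ≤ 1 / 8 → 0 < a → a ≤ 7 / 16 →
      0 < fL a 0 (k * x) x := fun {k x a} k0 k1 x0 x1 a0 a1 ↦ eqB k x a ▸ Z2B.out0
    (fun k a _ _ _ _ ↦ by rw [eqB, mul_zero, fL_end])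
    (fun k x k0 _ x0 _ ↦ by rw [eqB, fL_iso (mul_nonneg k0 x0)]) k0 k1 x0.le x1 a0.le a1 x0 a0
  have y0 : 2 * b * t ≤ 0 := by nlinarith
  have x3 := ph1_le_one y0
  have x4 := ph1_pos (2 * b * t)
  have x5 := ph1_ge y0
  have c0 : 8 / 3 ≤ -t * ph1 (2 * b * t) := by
    nlinarith [mul_nonneg x4.le (by nlinarith : 0 ≤ -t - 8 / 3 * (1 - 2 * b * t))]
  have x2 : -t * exp t ≤ 1 / 8 := by
    have h0 := add_one_le_exp 1
    have h1 := add_one_le_exp (-t - 4)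
    have h2 : 8 * -t ≤ exp (3 + 1 + (-t - 4)) := by
      rw [exp_add, exp_add]; nlinarith [exp3, mul_le_mul exp3 h0 (by norm_num) (exp_pos 3).le]
    have h3 := exp_le_inv (x := t) (by linarith) h2 (by linarith)
    rw [le_div_iff₀ (by linarith)] at h3
    linarith
  have p0 := exp_pos t
  have x0 : 0 < -t * exp t * ph1 (2 * b * t) := mul_pos (mul_pos (by linarith) p0) x4
  have x1 : -t * exp t * ph1 (2 * b * t) ≤ 1 / 8 := by nlinarith
  have k1 : 1 / (-t * ph1 (2 * b * t)) ≤ 3 / 8 := by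
    rw [div_le_iff₀ (by linarith)]; linarith
  have k0 : 0 ≤ 1 / (-t * ph1 (2 * b * t)) := one_div_nonneg.2 (by linarith)
  have e : exp t = 1 / (-t * ph1 (2 * b * t)) * (-t * exp t * ph1 (2 * b * t)) := by
    rw [mul_right_comm (-t), ← mul_assoc, one_div_mul_cancel (by linarith), one_mul]
  generalize -t * exp t * ph1 (2 * b * t) = x, 1 / (-t * ph1 (2 * b * t)) = k at *
  rw [e]
  rcases b0.eq_or_lt with rfl | b2
  · exact B k0 k1 x0 x1 (h.resolve_right (lt_irrefl _)) a1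
  refine eqA k x b a ▸ Z2A.out0 (fun k x a k0 k1 x0 x1 a0 a1 ↦ ?_) k0 k1 x0.le x1 b0 b1 a0 a1 b2
  rw [eqA]
  rcases x0.eq_or_lt with rfl | x0
  · rw [mul_zero, fL_end]
  rcases a0.eq_or_lt with rfl | a0
  · rw [fL_iso (mul_nonneg k0 x0.le)]
  · exact (B k0 k1 x0 x1 a0 a1).le

theorem main (h0 : t ≠ 0) : 0 < t * dZ (-1 / 2 - a) (1 / 2 - b) t := by
  have ht := mem_JR a0 (by linarith) t
  have o0 : 0 < om (-1 / 2 - a) t := ht
  have p0 := ph1_pos t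
  have f0 : 0 < (ph1 t * (om (-1 / 2 - a) t * exp (-t))) ^ 3 * exp (-((1 / 2 - b) * t)) := by
    positivity
  rcases h0.lt_or_gt with t0 | t0
  · refine mul_pos_of_neg_of_neg t0 ?_
    rcases le_total t (-4) with t4 | t4
    · obtain ⟨k, k0, e⟩ := keyL b0 (by linarith) ht t0
      have h1 := mul_pos (exp_pos ((1 / 2 - b) * t)) (add_pos_of_pos_of_nonneg
        (left_far a0 a1 b0 b1 h t4) (mul_nonneg k0 (sub_nonneg.2 (exp_le_one_iff.2
          (by nlinarith : 2 * b * t ≤ 0)))))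
      rw [e] at h1
      refine neg_of_mul_pos_right h1 (Odd.pow_nonpos (by decide) ?_)
      rw [wR_eq]; nlinarith [exp_lt_one_iff.2 t0]
    · have T : Tendsto (fun u : ℝ ↦ -u) (𝓝[>] 0) (𝓝[≠] 0) := by
        simpa using (tendsto_neg_nhdsGT (a := (0 : ℝ))).mono_right (nhdsLT_le_nhdsNE _)
      have h1 := Z2L.out0 (fun a b a0 a1 _ _ ↦
        ((fC_bigO (b := b) a0 a1).comp_tendsto T).neg_left.neg_right.congr
          (fun u ↦ (eqL a b u).symm) fun u ↦ by simp only [Function.comp]; ring)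
        (fun u _ _ ↦ by rw [eqL, fC_iso, neg_zero]) a0 a1 b0 b1 (neg_pos.2 t0).le (by linarith)
        (neg_pos.2 t0) h
      rw [eqL, neg_neg, keyC ht h0] at h1
      exact neg_of_mul_neg_right (by linarith) f0.le
  · refine mul_pos t0 ?_
    rcases le_total 4 t with t4 | t4
    · have h1 := mul_pos (exp_pos (-2 * b * t)) (right_far a0 a1 b0 b1 h t4)
      rw [keyR b0 ht h0] at h1
      have w0 : 0 < wR (-1 / 2 - a) t := by
        rw [wR_eq]; exact mul_pos (sub_pos.2 (one_lt_exp_iff.2 t0)) o0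
      have F0 : 0 < 1 / 2 - b := by linarith
      exact (mul_pos_iff_of_pos_left (by positivity)).1 h1
    · have h1 := Z2R.out0 (fun a b a0 a1 _ _ ↦ ((fC_bigO (b := b) a0 a1).mono
        (nhdsWithin_mono _ fun _ h ↦ ne_of_gt h)).congr_left fun u ↦ (eqR a b u).symm)
        (fun u _ _ ↦ by rw [eqR, fC_iso]) a0 a1 b0 b1 t0.le t4 t0 h
      rw [eqR, keyC ht h0] at h1
      exact (mul_pos_iff_of_pos_left f0).1 h1

end Pool.Agent.Lib.MP_d6150d_an.Z2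

namespace Pool.Agent.Lib.MP_d6150d_an

theorem Z2_holds : St_Z2 := fun D F h1 h2 h3 h4 h5 ↦ by
  refine noThree_sep (by linarith) 1 (Z2.sep D F) fun t _ h0 ↦ ?_
  have := Z2.main (a := -1 / 2 - D) (b := 1 / 2 - F) (by linarith) (by linarith) (by linarith)
    (by linarith) (by
      by_contra k
      rw [not_or, not_lt, not_lt] at k
      exact h5 ⟨by linarith [k.1], by linarith [k.2]⟩) h0
  rwa [sub_sub_cancel, sub_sub_cancel, Z2.dZ, ← one_mul (_ - _)] at this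

end Pool.Agent.Lib.MP_d6150d_an
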