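import Pool.Agent.Lib.MP_d6150d_an.Z3tMLD

/-! A generated chart: the computations. -/

namespace Pool.Agent.Lib.MP_d6150d_an.Z3tML

theorem k0 : chkT C ts 0xbb2cbc010bb3b12 [(0, 140737488355328), (0, 10995116277760), (0,
    70368744177664), (0, 8796093022208)] = true := by
  decide +kernel

theorem k1 : chkT C ts 0xbbb20b1bb0b23 [(0, 140737488355328), (10995116277760, 21990232555520), (0,
    35184372088832), (0, 8796093022208)] = true := by
  decide +kernel

theorem k2 : chkT C ts 0xbbcc300 [(0, 140737488355328), (10995116277760, 21990232555520),
    (35184372088832, 70368744177664), (0, 8796093022208)] = true := by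
  decide +kernel

theorem k3 : chkT C ts 0xbbb03bb1bb230b1 [(0, 70368744177664), (21990232555520, 43980465111040), (0,
    17592186044416), (0, 4398046511104)] = true := by
  decide +kernel

theorem k4 : chkT C ts 0xbb2b1 [(0, 70368744177664), (21990232555520, 43980465111040), (0,
    17592186044416), (4398046511104, 8796093022208)] = true := by
  decide +kernel

theorem k5 : chkT C ts 0xbb3bb1bb3b130 [(0, 70368744177664), (21990232555520, 43980465111040),
    (17592186044416, 35184372088832), (0, 8796093022208)] = true := by
  decide +kernel

theorem k6 : chkT C ts 0xbb3bbb132 [(70368744177664, 140737488355328), (21990232555520,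
    43980465111040), (0, 35184372088832), (0, 8796093022208)] = true := by
  decide +kernel

theorem k7 : chkT C ts 0xbb1bb1bcc20cc2100 [(0, 140737488355328), (21990232555520, 43980465111040),
    (35184372088832, 70368744177664), (0, 8796093022208)] = true := by
  decide +kernel

end Pool.Agent.Lib.MP_d6150d_an.Z3tML
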