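import Pool.Agent.Lib.MP_d6150d_an.GMac
import Pool.Agent.Lib.MP_d6150d_an.GTreeS
import Pool.Agent.Lib.MP_d6150d_an.Z3tMLK0

/-! A generated chart: the inequality. -/

namespace Pool.Agent.Lib.MP_d6150d_an.Z3tML

set_option linter.unnecessarySeqFocus false
set_option linter.unusedTactic false
set_option linter.unusedVariables false

def box : List (ℤ × ℤ) := [(0, 140737488355328), (0, 43980465111040), (0, 70368744177664), (0,
    8796093022208)]

theorem gd : GdT C ts box := .split 1 (.split 1 (chkT_sound k0) (.split 2 (chkT_sound k1)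
    (chkT_sound k2))) (.split 2 (.split 0 (.split 2 (.split 3 (chkT_sound k3) (chkT_sound k4))
    (chkT_sound k5)) (chkT_sound k6)) (chkT_sound k7))

set_option maxRecDepth 100000 in
theorem eq {a k e x b F D p h j s z W n o i r : ℝ} (hb : b = k * e) (hF : F = 1 / 2 - b) (hD : D =
    -(a * b) - F) (hp : p = 1 - 2 * e) (hh : h = 1 + 2 * D) (hj : j = (1 - F)⁻¹) (hs : s = k * x)
    (hz : z = s * p) (hW : W = -D + h * s - (1 + D) * s ^ 2) (hn : n = h * x - D * (1 - z) * j) (ho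
    : o = n - W) (hi : i = W⁻¹) (hr : r = (√(z + (1 - F) * o))⁻¹) : outR prog 0 [a, k, e, x] = (n *
    i) ^ 2 - (o * i) ^ 2 * (h * s - 2 * D) * i / F - p * ((z + (1 + D - F) * o) * r ^ 3) := by
  replace hb : b = (k * e) := hb.trans (by push_cast <;> ring)
  replace hF : F = (((Int.cast (1) : ℝ) / (Nat.cast 2 : ℝ)) - b) := hF.trans (by push_cast <;> ring)
  replace hD : D = (((Int.cast (-1) : ℝ) * (a * b)) - F) := hD.trans (by push_cast <;> ring)
  replace hp : p = ((Int.cast (1) : ℝ) - ((Int.cast (2) : ℝ) * e)) := hp.trans (by push_cast <;>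
    ring)
  replace hh : h = ((Int.cast (1) : ℝ) + ((Int.cast (2) : ℝ) * D)) := hh.trans (by push_cast <;>
    ring)
  replace hj : j = ((Int.cast (1) : ℝ) - F)⁻¹ := hj.trans (by push_cast <;> ring)
  replace hs : s = (k * x) := hs.trans (by push_cast <;> ring)
  replace hz : z = (s * p) := hz.trans (by push_cast <;> ring)
  replace hW : W = ((((Int.cast (-1) : ℝ) * D) + (h * s)) - (((Int.cast (1) : ℝ) + D) * (s * s))) :=
    hW.trans (by push_cast <;> ring)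
  replace hn : n = ((h * x) - ((D * ((Int.cast (1) : ℝ) - z)) * j)) := hn.trans (by push_cast <;>
    ring)
  replace ho : o = (n - W) := ho.trans (by push_cast <;> ring)
  replace hi : i = W⁻¹ := hi.trans (by push_cast <;> ring)
  replace hr : r = (√(z + (((Int.cast (1) : ℝ) - F) * o)))⁻¹ := hr.trans (congrArg (fun x : ℝ ↦
    (√x)⁻¹) (by push_cast <;> ring))
  have e0 : ((((n * i) * (n * i)) - (((((o * i) * (o * i)) * ((h * s) - ((Int.cast (2) : ℝ) * D))) *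
    i) * F⁻¹)) - (p * ((z + ((((Int.cast (1) : ℝ) + D) - F) * o)) * ((r * r) * r)))) = (n * i) ^ 2 -
    (o * i) ^ 2 * (h * s - 2 * D) * i / F - p * ((z + (1 + D - F) * o) * r ^ 3) := by push_cast <;>
    ring
  subst hb hF hD hp hh hj hs hz hW hn ho hi hr
  exact Eq.trans rfl e0

theorem l0 : ((0 : ℤ) : ℝ) / 2 ^ 47 = 0 := by norm_num
theorem u0 : (1 : ℝ) = ((140737488355328 : ℤ) : ℝ) / 2 ^ 47 := by norm_num
theorem l1 : ((0 : ℤ) : ℝ) / 2 ^ 47 = 0 := by norm_num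
theorem u1 : (5 / 16 : ℝ) = ((43980465111040 : ℤ) : ℝ) / 2 ^ 47 := by norm_num
theorem l2 : ((0 : ℤ) : ℝ) / 2 ^ 47 = 0 := by norm_num
theorem u2 : (1 / 2 : ℝ) = ((70368744177664 : ℤ) : ℝ) / 2 ^ 47 := by norm_num
theorem l3 : ((0 : ℤ) : ℝ) / 2 ^ 47 = 0 := by norm_num
theorem u3 : (1 / 16 : ℝ) = ((8796093022208 : ℤ) : ℝ) / 2 ^ 47 := by norm_num

theorem out (H : ∀ t ∈ ts, Hy t box (outR prog 0)) {a k e x : ℝ} (a0 : 0 ≤ a) (b0 : a ≤ 1) (a1 : 0 ≤
    k) (b1 : k ≤ 5 / 16) (a2 : 0 ≤ e) (b2 : e ≤ 1 / 2) (a3 : 0 ≤ x) (b3 : x ≤ 1 / 16) : 0 ≤ outR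
    prog 0 [a, k, e, x] ∧ ((∀ t ∈ ts, Str t [a, k, e, x]) → 0 < outR prog 0 [a, k, e, x]) :=
  gd [a, k, e, x] (.cons ⟨l0.le.trans a0, b0.trans u0.le⟩ (.cons ⟨l1.le.trans a1, b1.trans u1.le⟩
    (.cons ⟨l2.le.trans a2, b2.trans u2.le⟩ (.cons ⟨l3.le.trans a3, b3.trans u3.le⟩ (.nil)))))
    (List.forall_mem_nil _) H

end Pool.Agent.Lib.MP_d6150d_an.Z3tML
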