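import Pool.Agent.Lib.MP_d6150d_an.Z3tMRD

/-! A generated chart: the computations. -/

namespace Pool.Agent.Lib.MP_d6150d_an.Z3tMR

theorem k0 : chkT C ts 0xbbc30bb32bcc30b21 [(0, 70368744177664), (0, 21990232555520), (0,
    35184372088832), (0, 8796093022208)] = true := by
  decide +kernel

theorem k1 : chkT C ts 0xcbc01 [(0, 70368744177664), (0, 21990232555520), (35184372088832,
    70368744177664), (0, 8796093022208)] = true := by
  decide +kernel

theorem k2 : chkT C ts 0xbc0bcb23bbb3322 [(0, 70368744177664), (21990232555520, 43980465111040), (0,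
    70368744177664), (0, 8796093022208)] = true := by
  decide +kernel

theorem k3 : chkT C ts 0xbbbb232bb1bbb3221 [(70368744177664, 140737488355328), (0, 43980465111040),
    (0, 70368744177664), (0, 8796093022208)] = true := by
  decide +kernel

end Pool.Agent.Lib.MP_d6150d_an.Z3tMR
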