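import Pool.Agent.Lib.MP_d6150d_an.Z3tPLD

/-! A generated chart: the computations. -/

namespace Pool.Agent.Lib.MP_d6150d_an.Z3tPL

theorem k0 : chkT C ts 0xbb3bb30 [(0, 17592186044416), (0, 10995116277760), (0, 35184372088832), (0,
    8796093022208)] = true := by
  decide +kernel

theorem k1 : chkT C ts 0xbb2bb1bb3b130 [(0, 17592186044416), (10995116277760, 21990232555520), (0,
    35184372088832), (0, 8796093022208)] = true := by
  decide +kernel

theorem k2 : chkT C ts 0xbb3b1 [(17592186044416, 35184372088832), (0, 21990232555520), (0,
    35184372088832), (0, 8796093022208)] = true := by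
  decide +kernel

theorem k3 : chkT C ts 0xbb1bb1bb1bb3020 [(0, 35184372088832), (0, 10995116277760), (35184372088832,
    70368744177664), (0, 8796093022208)] = true := by
  decide +kernel

theorem k4 : chkT C ts 0xbbb00 [(0, 35184372088832), (10995116277760, 21990232555520),
    (35184372088832, 70368744177664), (0, 8796093022208)] = true := by
  decide +kernel

theorem k5 : chkT C ts 0xbb2bb2bbb1230 [(0, 8796093022208), (21990232555520, 43980465111040), (0,
    17592186044416), (0, 4398046511104)] = true := by
  decide +kernel

theorem k6 : chkT C ts 0xbbb20bb01 [(0, 8796093022208), (21990232555520, 43980465111040), (0,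
    17592186044416), (4398046511104, 8796093022208)] = true := by
  decide +kernel

theorem k7 : chkT C ts 0xbb2 [(8796093022208, 17592186044416), (21990232555520, 43980465111040), (0,
    17592186044416), (0, 8796093022208)] = true := by
  decide +kernel

theorem k8 : chkT C ts 0xbbb3bb310 [(0, 17592186044416), (21990232555520, 43980465111040),
    (17592186044416, 35184372088832), (0, 8796093022208)] = true := by
  decide +kernel

theorem k9 : chkT C ts 0xbbb32 [(17592186044416, 35184372088832), (21990232555520, 43980465111040),
    (0, 35184372088832), (0, 8796093022208)] = true := by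
  decide +kernel

theorem k10 : chkT C ts 0xbbb20bbb201 [(0, 35184372088832), (21990232555520, 43980465111040),
    (35184372088832, 70368744177664), (0, 8796093022208)] = true := by
  decide +kernel

theorem k11 : chkT C ts 0xbbb32bb3b21 [(35184372088832, 70368744177664), (0, 21990232555520), (0,
    70368744177664), (0, 8796093022208)] = true := by
  decide +kernel

theorem k12 : chkT C ts 0xbb1bbb322 [(35184372088832, 70368744177664), (21990232555520,
    43980465111040), (0, 70368744177664), (0, 8796093022208)] = true := by
  decide +kernel

theorem k13 : chkT C ts 0xbb1bbb322bb1bbb3021 [(70368744177664, 140737488355328), (0,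
    43980465111040), (0, 70368744177664), (0, 8796093022208)] = true := by
  decide +kernel

end Pool.Agent.Lib.MP_d6150d_an.Z3tPL
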