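import Pool.Agent.Lib.MP_d6150d_an.Z3tPRD

/-! A generated chart: the computations. -/

namespace Pool.Agent.Lib.MP_d6150d_an.Z3tPR

theorem k0 : chkT C ts 0xbb2bb20bb2b01 [(0, 35184372088832), (0, 21990232555520), (0,
    70368744177664), (0, 13194139533312)] = true := by
  decide +kernel

theorem k1 : chkT C ts 0xbb1bbb212 [(35184372088832, 70368744177664), (0, 21990232555520), (0,
    70368744177664), (0, 13194139533312)] = true := by
  decide +kernel

theorem k2 : chkT C ts 0xbb1bbb31bb102 [(70368744177664, 105553116266496), (0, 21990232555520), (0,
    70368744177664), (0, 13194139533312)] = true := by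
  decide +kernel

theorem k3 : chkT C ts 0xbb2bbb1b321 [(105553116266496, 123145302310912), (0, 21990232555520), (0,
    70368744177664), (0, 13194139533312)] = true := by
  decide +kernel

theorem k4 : chkT C ts 0xbb2bbb0b311bbb1b320 [(123145302310912, 140737488355328), (0,
    10995116277760), (0, 70368744177664), (0, 13194139533312)] = true := by
  decide +kernel

theorem k5 : chkT C ts 0xbb2b0 [(123145302310912, 140737488355328), (10995116277760,
    21990232555520), (0, 70368744177664), (0, 13194139533312)] = true := by
  decide +kernel

theorem k6 : chkT C ts 0xbbb10bb2bbb02b102 [(0, 35184372088832), (21990232555520, 43980465111040),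
    (0, 70368744177664), (0, 13194139533312)] = true := by
  decide +kernel

theorem k7 : chkT C ts 0xbb3bb22 [(35184372088832, 70368744177664), (21990232555520,
    43980465111040), (0, 70368744177664), (0, 13194139533312)] = true := by
  decide +kernel

theorem k8 : chkT C ts 0xbb0bb3b02 [(70368744177664, 105553116266496), (21990232555520,
    43980465111040), (0, 70368744177664), (0, 13194139533312)] = true := by
  decide +kernel

theorem k9 : chkT C ts 0xbb0bb2b02bb20 [(105553116266496, 140737488355328), (21990232555520,
    43980465111040), (0, 70368744177664), (0, 6597069766656)] = true := by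
  decide +kernel

theorem k10 : chkT C ts 0xbb0bb02bb20 [(105553116266496, 140737488355328), (21990232555520,
    43980465111040), (0, 70368744177664), (6597069766656, 13194139533312)] = true := by
  decide +kernel

end Pool.Agent.Lib.MP_d6150d_an.Z3tPR
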