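import Pool.Agent.Lib.MP_d6150d_an.GMac
import Pool.Agent.Lib.MP_d6150d_an.GTreeS
import Pool.Agent.Lib.MP_d6150d_an.Z3tPRK0

/-! A generated chart: the inequality. -/

namespace Pool.Agent.Lib.MP_d6150d_an.Z3tPR

set_option linter.unnecessarySeqFocus false
set_option linter.unusedTactic false
set_option linter.unusedVariables false

def box : List (ℤ × ℤ) := [(0, 140737488355328), (0, 43980465111040), (0, 70368744177664), (0,
    13194139533312)]

theorem gd : GdT C ts box := .split 1 (.split 0 (.split 0 (chkT_sound k0) (chkT_sound k1)) (.split 0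
    (chkT_sound k2) (.split 0 (chkT_sound k3) (.split 1 (chkT_sound k4) (chkT_sound k5))))) (.split
    0 (.split 0 (chkT_sound k6) (chkT_sound k7)) (.split 0 (chkT_sound k8) (.split 3 (chkT_sound k9)
    (chkT_sound k10))))

set_option maxRecDepth 100000 in
theorem eq {a k e x b F D p h j q z W n o i r : ℝ} (hb : b = k * e) (hF : F = 1 / 2 + b) (hD : D =
    -(a * (7 / 16 - b)) - F) (hp : p = 1 - 2 * e) (hh : h = 1 + 2 * D) (hj : j = (1 - F)⁻¹) (hq : q
    = k ^ 2 * x) (hz : z = q * p) (hW : W = 1 + D - h * q + D * q ^ 2) (hn : n = h - k * D * (p - q)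
    * j) (ho : o = W - k * x * n) (hi : i = W⁻¹) (hr : r = (√(z + (1 - F) * o))⁻¹) : outR prog 0 [a,
    k, e, x] = p * (z + (1 + D - F) * o) * r ^ 3 - (x * (n * i) ^ 2 + (o * i) ^ 2 * (h - 2 * D * q)
    * i / F) := by
  replace hb : b = (k * e) := hb.trans (by push_cast <;> ring)
  replace hF : F = (((Int.cast (1) : ℝ) / (Nat.cast 2 : ℝ)) + b) := hF.trans (by push_cast <;> ring)
  replace hD : D = (((Int.cast (-1) : ℝ) * (a * (((Int.cast (7) : ℝ) / (Nat.cast 16 : ℝ)) - b))) -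
    F) := hD.trans (by push_cast <;> ring)
  replace hp : p = ((Int.cast (1) : ℝ) - ((Int.cast (2) : ℝ) * e)) := hp.trans (by push_cast <;>
    ring)
  replace hh : h = ((Int.cast (1) : ℝ) + ((Int.cast (2) : ℝ) * D)) := hh.trans (by push_cast <;>
    ring)
  replace hj : j = ((Int.cast (1) : ℝ) - F)⁻¹ := hj.trans (by push_cast <;> ring)
  replace hq : q = ((k * k) * x) := hq.trans (by push_cast <;> ring)
  replace hz : z = (q * p) := hz.trans (by push_cast <;> ring)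
  replace hW : W = ((((Int.cast (1) : ℝ) + D) - (h * q)) + (D * (q * q))) := hW.trans (by push_cast
    <;> ring)
  replace hn : n = (h - (((k * D) * (p - q)) * j)) := hn.trans (by push_cast <;> ring)
  replace ho : o = (W - ((k * x) * n)) := ho.trans (by push_cast <;> ring)
  replace hi : i = W⁻¹ := hi.trans (by push_cast <;> ring)
  replace hr : r = (√(z + (((Int.cast (1) : ℝ) - F) * o)))⁻¹ := hr.trans (congrArg (fun x : ℝ ↦
    (√x)⁻¹) (by push_cast <;> ring))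
  have e0 : (((p * (z + ((((Int.cast (1) : ℝ) + D) - F) * o))) * ((r * r) * r)) - ((x * ((n * i) *
    (n * i))) + (((((o * i) * (o * i)) * (h - (((Int.cast (2) : ℝ) * D) * q))) * i) * F⁻¹))) = p *
    (z + (1 + D - F) * o) * r ^ 3 - (x * (n * i) ^ 2 + (o * i) ^ 2 * (h - 2 * D * q) * i / F) := by
    push_cast <;> ring
  subst hb hF hD hp hh hj hq hz hW hn ho hi hr
  exact Eq.trans rfl e0

theorem l0 : ((0 : ℤ) : ℝ) / 2 ^ 47 = 0 := by norm_num
theorem u0 : (1 : ℝ) = ((140737488355328 : ℤ) : ℝ) / 2 ^ 47 := by norm_num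
theorem l1 : ((0 : ℤ) : ℝ) / 2 ^ 47 = 0 := by norm_num
theorem u1 : (5 / 16 : ℝ) = ((43980465111040 : ℤ) : ℝ) / 2 ^ 47 := by norm_num
theorem l2 : ((0 : ℤ) : ℝ) / 2 ^ 47 = 0 := by norm_num
theorem u2 : (1 / 2 : ℝ) = ((70368744177664 : ℤ) : ℝ) / 2 ^ 47 := by norm_num
theorem l3 : ((0 : ℤ) : ℝ) / 2 ^ 47 = 0 := by norm_num
theorem u3 : (3 / 32 : ℝ) = ((13194139533312 : ℤ) : ℝ) / 2 ^ 47 := by norm_num

theorem out (H : ∀ t ∈ ts, Hy t box (outR prog 0)) {a k e x : ℝ} (a0 : 0 ≤ a) (b0 : a ≤ 1) (a1 : 0 ≤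
    k) (b1 : k ≤ 5 / 16) (a2 : 0 ≤ e) (b2 : e ≤ 1 / 2) (a3 : 0 ≤ x) (b3 : x ≤ 3 / 32) : 0 ≤ outR
    prog 0 [a, k, e, x] ∧ ((∀ t ∈ ts, Str t [a, k, e, x]) → 0 < outR prog 0 [a, k, e, x]) :=
  gd [a, k, e, x] (.cons ⟨l0.le.trans a0, b0.trans u0.le⟩ (.cons ⟨l1.le.trans a1, b1.trans u1.le⟩
    (.cons ⟨l2.le.trans a2, b2.trans u2.le⟩ (.cons ⟨l3.le.trans a3, b3.trans u3.le⟩ (.nil)))))
    (List.forall_mem_nil _) H

end Pool.Agent.Lib.MP_d6150d_an.Z3tPR
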