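import Pool.Agent.Lib.MP_d6150d_an.Z3a
import Pool.Agent.Lib.MP_d6150d_an.Z3tPR
import Pool.Agent.Lib.MP_d6150d_an.Z3tPL
import Pool.Agent.Lib.MP_d6150d_an.Z3tMR
import Pool.Agent.Lib.MP_d6150d_an.Z3tML

/-! The tails: orders of vanishing. -/

namespace Pool.Agent.Lib.MP_d6150d_an.Z3

open Real Set Filter Topology Asymptotics

variable {a k e x F q p z σ : ℝ}

theorem rt (h : 0 < σ) (G : 1 - F ≠ 0) : σ⁻¹ = (√(z + (1 - F) * ((σ ^ 2 - z) * (1 - F)⁻¹)))⁻¹ := by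
  rw [show z + (1 - F) * ((σ ^ 2 - z) * (1 - F)⁻¹) = σ ^ 2 by field_simp; ring, sqrt_sq h.le]

theorem lPR (hF : F = 1 / 2 + k * e) (hq : q = k ^ 2 * x) (hp : p = 1 - 2 * e)
    (hσ : σ = (1 - F) * 1 + F * q) (F0 : F ≠ 0) (G : 1 - F ≠ 0) (q1 : 1 - q ≠ 0) (h : 0 < σ) :
    outR Z3tPR.prog 0 [0, k, e, x] = ((1 - F) ^ 2 * F * (1 - q) ^ 3 * σ ^ 3)⁻¹ * Nz F 1 q 1 p := by
  rw [Z3tPR.eq (D := -F) (h := 1 - 2 * F) (W := (1 - q) * σ)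
    (n := k * (p - 1 + F * (p - q) * (1 - F)⁻¹)) (o := (σ ^ 2 - q * p) * (1 - F)⁻¹) rfl hF (by ring)
    hp (by ring) rfl hq rfl (by rw [hσ]; ring) (by rw [hp]; linear_combination 2 * hF) (by
      rw [mul_mul_mul_comm_of k x, ← hq, hσ]; field_simp; ring) rfl (rt h G),
    show ∀ n i : ℝ, x * (k * n * i) ^ 2 = q * (n * i) ^ 2 from fun n i ↦ by rw [hq]; ring, Nz, ← hσ]
  field_simp
  subst hσ
  ring
where
  mul_mul_mul_comm_of (k x : ℝ) {n : ℝ} : k * x * (k * n) = k ^ 2 * x * n := by ring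

theorem lMR (ha : a * e = 0) (hF : F = 1 / 2 - k * e) (hz : z = k * x) (hp : p = 1 - 2 * e)
    (hq : q = z * p) (hσ : σ = (1 - F) * 1 + F * q) (F0 : F ≠ 0) (G : 1 - F ≠ 0) (q1 : 1 - q ≠ 0)
    (h : 0 < σ) (p0 : p ≠ 0) : outR Z3tMR.prog 0 [a, k, e, x] =
      (p * (1 - F) ^ 2 * F * (1 - q) ^ 3 * σ ^ 3)⁻¹ * Nz F 1 q p 1 := by
  rw [Z3tMR.eq (D := -F) (h := 1 - 2 * F) (W := (1 - q) * σ)
    (n := 1 - p + F * (1 - p * q) * (1 - F)⁻¹) (o := (σ ^ 2 - z) * (1 - F)⁻¹) rfl hF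
    (by linear_combination k * ha) hp (by ring) rfl hz hq (by rw [hσ]; ring)
    (by linear_combination -hp + 2 * ha) (by rw [hσ, hq]; field_simp; ring) rfl (rt h G), Nz, ← hσ]
  field_simp
  subst hσ hq
  ring

theorem lPL (hF : F = 1 / 2 + k * e) (hz : z = k * x) (hp : p = 1 - 2 * e) (hq : q = z * p)
    (hσ : σ = (1 - F) * q + F * 1) (F0 : F ≠ 0) (G : 1 - F ≠ 0) (q1 : 1 - q ≠ 0) (h : 0 < σ)
    (p0 : p ≠ 0) : outR Z3tPL.prog 0 [0, k, e, x] =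
      (p * (1 - F) ^ 2 * F * (1 - q) ^ 3 * σ ^ 3)⁻¹ * Nz F q 1 p 1 := by
  have e1 : (1 - 2 * F) * x = q - z := by rw [hq, hp, hz, hF]; ring
  rw [Z3tPL.eq (D := -F) (h := 1 - 2 * F) (W := (1 - q) * σ)
    (n := q - z + F * (1 - z) * (1 - F)⁻¹) (o := (σ ^ 2 - z) * (1 - F)⁻¹) rfl hF
    (by ring) hp (by ring) rfl hz hq (by rw [hσ]; ring)
    (by rw [e1]; ring) (by rw [hσ]; field_simp; ring) rfl (rt h G), Nz, ← hσ]
  field_simp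
  subst hσ hq
  ring

theorem lML (ha : a * e = 0) (hF : F = 1 / 2 - k * e) (hq : q = k * x) (hp : p = 1 - 2 * e)
    (hz : z = q * p) (hσ : σ = (1 - F) * q + F * 1) (F0 : F ≠ 0) (G : 1 - F ≠ 0) (q1 : 1 - q ≠ 0)
    (h : 0 < σ) : outR Z3tML.prog 0 [a, k, e, x] =
      ((1 - F) ^ 2 * F * (1 - q) ^ 3 * σ ^ 3)⁻¹ * Nz F q 1 1 p := by
  have e1 : (1 - 2 * F) * x = q - z := by rw [hz, hp, hq, hF]; ring
  rw [Z3tML.eq (D := -F) (h := 1 - 2 * F) (W := (1 - q) * σ)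
    (n := q - z + F * (1 - z) * (1 - F)⁻¹) (o := (σ ^ 2 - z) * (1 - F)⁻¹) rfl hF
    (by linear_combination k * ha) hp (by ring) rfl hq hz (by rw [hσ]; ring)
    (by rw [e1]; ring) (by rw [hσ]; field_simp; ring) rfl (rt h G), Nz, ← hσ]
  field_simp
  subst hσ hz
  ring

theorem side (k0 : 0 < k) (k1 : k ≤ 5 / 16) (x0 : 0 ≤ x) (x1 : x ≤ 3 / 32) (e0 : 0 ≤ e)
    (e1 : e ≤ 1 / 16) : 0 < 1 / 2 + k * e ∧ 0 < 1 - (1 / 2 + k * e) ∧ 0 < 1 / 2 - k * e ∧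
      0 < 1 - (1 / 2 - k * e) ∧ 0 < 1 - 2 * e ∧ 0 < 1 - k * x ∧ 0 < 1 - k ^ 2 * x ∧
      0 < 1 - k * x * (1 - 2 * e) := by
  have a1 := mul_nonneg k0.le e0
  have a2 := mul_nonneg k0.le x0
  have a3 : k * x ≤ 1 / 16 := by nlinarith
  have a4 : k * e ≤ 1 / 16 := by nlinarith
  refine ⟨by linarith, by linarith, by linarith, by linarith, by linarith, by linarith,
    by nlinarith, by nlinarith⟩

theorem HPR : ∀ t ∈ Z3tPR.ts, Hy t Z3tPR.box (outR Z3tPR.prog 0) := by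
  refine hyP (fun e x ↦ (Z3tPR.eq rfl rfl rfl rfl rfl rfl rfl rfl rfl rfl rfl rfl rfl).trans
    (by norm_num)) fun k x k0 k1 x0 x1 ↦ ?_
  have H := fun e ↦ side (e := e) k0 (k1.trans Z3tPR.u1.ge) x0 (x1.trans Z3tPR.u3.ge)
  refine Nz_O (d := fun _ ↦ 2 * k) (s := fun _ ↦ 1) (r := fun _ ↦ k ^ 2 * x) (φ := fun _ ↦ 2)
    (ψ := fun e ↦ 1 - 2 * e) (u := fun e ↦ ((1 - (1 / 2 + k * e)) ^ 2 * (1 / 2 + k * e) *
      (1 - k ^ 2 * x) ^ 3 * ((1 - (1 / 2 + k * e)) * 1 + (1 / 2 + k * e) * (k ^ 2 * x)) ^ 3)⁻¹)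
    (by fun_prop) (by fun_prop) (by fun_prop) (by fun_prop) (by fun_prop)
    (.inv₀ (by fun_prop) ?_) fun e he ↦ ?_
  · obtain ⟨a, b, -, -, c, -, d, -⟩ := H 0 le_rfl (by norm_num)
    positivity
  obtain ⟨a, b, -, -, c, -, d, -⟩ := H e he.1.le he.2.le
  rw [lPR rfl rfl rfl rfl a.ne' b.ne' d.ne' (by positivity)]
  congr 2 <;> ring

theorem HPL : ∀ t ∈ Z3tPL.ts, Hy t Z3tPL.box (outR Z3tPL.prog 0) := by
  refine hyP (fun e x ↦ (Z3tPL.eq rfl rfl rfl rfl rfl rfl rfl rfl rfl rfl rfl rfl rfl).trans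
    (by norm_num)) fun k x k0 k1 x0 x1 ↦ ?_
  have H := fun e ↦ side (e := e) k0 (k1.trans Z3tPL.u1.ge) x0
    ((x1.trans Z3tPL.u3.ge).trans (by norm_num))
  refine Nz_O (d := fun _ ↦ 2 * k) (s := fun e ↦ k * x * (1 - 2 * e)) (r := fun _ ↦ 1)
    (φ := fun _ ↦ -2) (ψ := fun _ ↦ 1) (u := fun e ↦ ((1 - 2 * e) * (1 - (1 / 2 + k * e)) ^ 2 *
      (1 / 2 + k * e) * (1 - k * x * (1 - 2 * e)) ^ 3 *
      ((1 - (1 / 2 + k * e)) * (k * x * (1 - 2 * e)) + (1 / 2 + k * e) * 1) ^ 3)⁻¹)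
    (by fun_prop) (by fun_prop) (by fun_prop) (by fun_prop) (by fun_prop)
    (.inv₀ (by fun_prop) ?_) fun e he ↦ ?_
  · obtain ⟨a, b, -, -, c, -, -, d⟩ := H 0 le_rfl (by norm_num)
    positivity
  obtain ⟨a, b, -, -, c, -, -, d⟩ := H e he.1.le he.2.le
  rw [lPL rfl rfl rfl rfl rfl a.ne' b.ne' d.ne' (by positivity) c.ne']
  congr 2 <;> ring

theorem HMR : ∀ t ∈ Z3tMR.ts, Hy t Z3tMR.box (outR Z3tMR.prog 0) := by
  refine hyM (fun a e x ↦ (Z3tMR.eq rfl rfl rfl rfl rfl rfl rfl rfl rfl rfl rfl rfl rfl).trans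
    (by norm_num)) fun k x k0 k1 x0 x1 ↦ ?_
  have H := fun e ↦ side (e := e) k0 (k1.trans Z3tMR.u1.ge) x0
    ((x1.trans Z3tMR.u3.ge).trans (by norm_num))
  obtain ⟨-, -, a, b, c, -, -, d⟩ := H 0 le_rfl (by norm_num)
  refine ⟨fun _ ↦ ?_, Nz_O (d := fun _ ↦ -2 * k) (s := fun _ ↦ 1)
    (r := fun e ↦ k * x * (1 - 2 * e)) (φ := fun _ ↦ -2) (ψ := fun _ ↦ 1)
    (u := fun e ↦ ((1 - 2 * e) * (1 - (1 / 2 - k * e)) ^ 2 *
      (1 / 2 - k * e) * (1 - k * x * (1 - 2 * e)) ^ 3 *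
      ((1 - (1 / 2 - k * e)) * 1 + (1 / 2 - k * e) * (k * x * (1 - 2 * e))) ^ 3)⁻¹)
    (by fun_prop) (by fun_prop) (by fun_prop) (by fun_prop) (by fun_prop)
    (.inv₀ (by fun_prop) (by positivity)) fun e he ↦ ?_⟩
  · rw [lMR (mul_zero _) rfl rfl rfl rfl rfl a.ne' b.ne' d.ne' (by positivity) c.ne']
    simp only [mul_zero, sub_zero, Nz_zero]
  obtain ⟨-, -, a, b, c, -, -, d⟩ := H e he.1.le he.2.le
  rw [lMR (zero_mul _) rfl rfl rfl rfl rfl a.ne' b.ne' d.ne' (by positivity) c.ne']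
  congr 2 <;> ring

theorem HML : ∀ t ∈ Z3tML.ts, Hy t Z3tML.box (outR Z3tML.prog 0) := by
  refine hyM (fun a e x ↦ (Z3tML.eq rfl rfl rfl rfl rfl rfl rfl rfl rfl rfl rfl rfl rfl).trans
    (by norm_num)) fun k x k0 k1 x0 x1 ↦ ?_
  have H := fun e ↦ side (e := e) k0 (k1.trans Z3tML.u1.ge) x0
    ((x1.trans Z3tML.u3.ge).trans (by norm_num))
  obtain ⟨-, -, a, b, -, d, -⟩ := H 0 le_rfl (by norm_num)
  refine ⟨fun _ ↦ ?_, Nz_O (d := fun _ ↦ -2 * k) (s := fun _ ↦ k * x)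
    (r := fun _ ↦ 1) (φ := fun _ ↦ 2) (ψ := fun e ↦ 1 - 2 * e)
    (u := fun e ↦ ((1 - (1 / 2 - k * e)) ^ 2 * (1 / 2 - k * e) * (1 - k * x) ^ 3 *
      ((1 - (1 / 2 - k * e)) * (k * x) + (1 / 2 - k * e) * 1) ^ 3)⁻¹)
    (by fun_prop) (by fun_prop) (by fun_prop) (by fun_prop) (by fun_prop)
    (.inv₀ (by fun_prop) (by positivity)) fun e he ↦ ?_⟩
  · rw [lML (mul_zero _) rfl rfl rfl rfl rfl a.ne' b.ne' d.ne' (by positivity)]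
    simp only [mul_zero, sub_zero, Nz_zero]
  obtain ⟨-, -, a, b, -, d, -⟩ := H e he.1.le he.2.le
  rw [lML (zero_mul _) rfl rfl rfl rfl rfl a.ne' b.ne' d.ne' (by positivity)]
  congr 2 <;> ring

end Pool.Agent.Lib.MP_d6150d_an.Z3
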