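import Pool.Agent.Lib.MP_d6150d_an.Z3b
import Pool.Agent.Lib.MP_d6150d_an.Z3d
import Pool.Agent.Lib.MP_d6150d_an.Blue

/-! The period increases on the side `D + F ≤ 0` of the isochronous center `(-1 / 2, 1 / 2)`. -/

namespace Pool.Agent.Lib.MP_d6150d_an.Z3

open Real Set

variable {a b F D t k e x : ℝ}

theorem strP (k0 : 0 < k) (h : 0 < a ∨ 0 < e) :
    ∀ t ∈ [Dt.ct 0 (.dv 1 (.dv 2 .pos)) .pos .pos], Str t [a, k, e, x] := by
  simp only [List.mem_singleton, forall_eq, Str, k0]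
  tauto

theorem strM (k0 : 0 < k) (h : 0 < e) : ∀ t ∈ [Dt.ct 0 (.dv 1 (.dv 2 .pos)) (.dv 1 (.dv 1 .pos))
    (.dv 1 (.dv 1 .pos)), .nx (.dv 1 (.dv 1 .pos))], Str t [a, k, e, x] := by
  simp [Str, k0, h]

theorem tP (hF : F = 1 / 2 + b) (hD : D = -(a * (7 / 16 - b)) - F) (a0 : 0 ≤ a) (a1 : a ≤ 1)
    (b0 : 0 ≤ b) (b1 : b ≤ 1 / 16) (h : 0 < a ∨ 0 < b) (t6 : 6 ≤ t) :
    0 < E3 D F (vR D F t) - ZR D F t ∧ 0 < ZR D F (-t) - E3 D F (vR D F (-t)) := by
  obtain ⟨χ, e0, c0, c1, c2, c3, c4, c5⟩ := tail b0 b1 t6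
  have m := mem (D := D) (by nlinarith) (by nlinarith)
  have F0 : F ≠ 0 := by linarith
  have G0 : 1 - F ≠ 0 := by linarith
  have t0 : 0 < t := by linarith
  have h' := h.imp_right fun h ↦ mul_pos h c0
  have ci := inv_pos.2 c0
  have s0 := exp_pos t
  have p0 := exp_pos (-(2 * b * t))
  constructor
  · have e1 : (2 * F - 1) * t = 2 * b * t := by rw [hF]; ring
    obtain ⟨W0, R⟩ := right (m t) t0.ne' F0 G0 rfl rfl rfl rfl
    rw [e1, ph1_neg (2 * b * t), mul_left_comm t, ← e0, ← exp_neg (2 * b * t),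
      show exp (2 * b * t) = (exp (-(2 * b * t)))⁻¹ by rw [exp_neg, inv_inv]] at R
    rw [exp_neg] at c4
    generalize exp (-(2 * b * t)) = p at *
    have q0 := inv_pos.2 s0
    generalize (exp t)⁻¹ = q at *
    have := ((Z3tPR.out HPR a0 a1 ci.le c1 (by positivity) c2 (by positivity) c4).2
      (strP ci h')).trans_eq (Z3tPR.eq (b := b) (q := q) (by field_simp) hF hD c3 rfl rfl
        (by field_simp) rfl rfl rfl (o := 1 + D - (1 + 2 * D) * q + D * q ^ 2 - ((1 + 2 * D) *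
          (p⁻¹ * χ * (q * p)) - D * (q * p - q ^ 2) * (1 - F)⁻¹)) (by field_simp) rfl rfl)
    refine (mul_pos_iff_of_pos_left (mul_pos (mul_pos q0 p0) (exp_pos (F * t)))).1
      ((mul_pos q0 this).trans_eq (Eq.trans ?_ R.symm))
    generalize (√_)⁻¹ = r
    generalize 1 + D - (1 + 2 * D) * q + D * q ^ 2 = W at *
    field_simp; ring
  · have e1 : (2 * F - 1) * -t = -(2 * b * t) := by rw [hF]; ring
    have L := left (m (-t)) (neg_neg_iff_pos.2 t0).ne F0 G0 rfl rfl rfl rfl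
    rw [e1, neg_mul t, ← e0] at L
    generalize exp (-(2 * b * t)) = p at *
    have q0 := exp_pos (-t)
    generalize exp (-t) = q at *
    have := ((Z3tPL.out HPL a0 a1 ci.le c1 (by positivity) c2 (x := q * p⁻¹ * χ) (by positivity)
      (by rw [mul_right_comm, mul_inv_le_iff₀ p0]; exact c5)).2
      (strP ci h')).trans_eq (Z3tPL.eq (b := b) (z := q * p⁻¹) (s := q) (by field_simp) hF hD c3 rfl
        rfl (by field_simp) (by field_simp) rfl (n := (1 + 2 * D) * -(-χ * (q * p⁻¹)) -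
          D * (1 - q * p⁻¹) * (1 - F)⁻¹) (by ring) rfl rfl rfl)
    exact (mul_pos_iff_of_pos_left p0).1 ((mul_pos (exp_pos _) this).trans_eq L.symm)

theorem tM (hF : F = 1 / 2 - b) (hD : D = -(a * b) - F) (a0 : 0 ≤ a) (a1 : a ≤ 1)
    (b0 : 0 < b) (b1 : b ≤ 1 / 16) (t6 : 6 ≤ t) :
    0 < E3 D F (vR D F t) - ZR D F t ∧ 0 < ZR D F (-t) - E3 D F (vR D F (-t)) := by
  obtain ⟨χ, e0, c0, c1, c2, c3, -, c5⟩ := tail b0.le b1 t6
  have m := mem (D := D) (by nlinarith) (by nlinarith)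
  have F0 : F ≠ 0 := by linarith
  have G0 : 1 - F ≠ 0 := by linarith
  have t0 : 0 < t := by linarith
  have h' := mul_pos b0 c0
  have ci := inv_pos.2 c0
  have s0 := exp_pos t
  have p0 := exp_pos (-(2 * b * t))
  constructor
  · have e1 : (2 * F - 1) * t = -(2 * b * t) := by rw [hF]; ring
    obtain ⟨W0, R⟩ := right (m t) t0.ne' F0 G0 rfl rfl rfl rfl
    rw [e1, ← e0] at R
    rw [exp_neg t] at c5
    generalize exp (-(2 * b * t)) = p at *
    have q0 := inv_pos.2 s0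
    generalize (exp t)⁻¹ = q at *
    have e2 : 2 * (b * χ) * (1 - a) = (1 + 2 * D) * χ := by rw [hD, hF]; ring
    have := ((Z3tMR.out HMR a0 a1 ci.le c1 h'.le c2 (x := q * p⁻¹ * χ) (by positivity)
      (by rw [mul_right_comm, mul_inv_le_iff₀ p0]; exact c5)).2
      (strM ci h')).trans_eq (Z3tMR.eq (b := b) (q := q) (z := q * p⁻¹) (by field_simp) hF hD c3 rfl
        rfl (by field_simp) (by field_simp) rfl rfl (o := 1 + D - (1 + 2 * D) * q + D * q ^ 2 -
          ((1 + 2 * D) * (χ * (q * p⁻¹)) - D * (q * p⁻¹ - q ^ 2) * (1 - F)⁻¹))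
        (by rw [e2]; field_simp) rfl rfl)
    rw [e2] at this
    have z0 := mul_pos q0 (inv_pos.2 p0)
    refine (mul_pos_iff_of_pos_left (mul_pos z0 (exp_pos (F * t)))).1
      ((mul_pos z0 this).trans_eq (Eq.trans ?_ R.symm))
    generalize (√_)⁻¹ = r
    generalize 1 + D - (1 + 2 * D) * q + D * q ^ 2 = W at *
    field_simp; ring
  · have e1 : (2 * F - 1) * -t = 2 * b * t := by rw [hF]; ring
    have L := left (m (-t)) (neg_neg_iff_pos.2 t0).ne F0 G0 rfl rfl rfl rfl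
    rw [e1, ph1_neg (2 * b * t), mul_left_comm (-t), neg_mul t, ← e0, ← exp_neg (2 * b * t),
      show exp (2 * b * t) = (exp (-(2 * b * t)))⁻¹ by rw [exp_neg, inv_inv]] at L
    generalize exp (-(2 * b * t)) = p at *
    have q0 := exp_pos (-t)
    generalize exp (-t) = q at *
    have := ((Z3tML.out HML a0 a1 ci.le c1 h'.le c2 (x := q * χ) (by positivity)
      (by nlinarith)).2
      (strM ci h')).trans_eq (Z3tML.eq (b := b) (z := q * p) (s := q) (by field_simp) hF hD c3 rfl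
        rfl (by field_simp) rfl rfl (n := (1 + 2 * D) * -(p⁻¹ * -χ * (q * p)) -
          D * (1 - q * p) * (1 - F)⁻¹) (by field_simp) rfl rfl rfl)
    refine (mul_pos_iff_of_pos_left (inv_pos.2 p0)).1
      ((mul_pos (exp_pos (F * -t)) (mul_pos (inv_pos.2 p0) this)).trans_eq (Eq.trans ?_ L.symm))
    generalize (√_)⁻¹ = r
    field_simp

theorem glue (h1 : -1 ≤ D) (h2 : D < 0) (hF : 0 < F)
    (c : ∀ s, 0 < s → s ≤ 6 →
      0 < E3 D F (vR D F s) - Zc D F s ∧ 0 < Zc D F (-s) - E3 D F (vR D F (-s)))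
    (d : ∀ s, 6 ≤ s →
      0 < E3 D F (vR D F s) - ZR D F s ∧ 0 < ZR D F (-s) - E3 D F (vR D F (-s))) :
    NoThree D F := by
  have k : ∀ s, 0 < s →
      0 < E3 D F (vR D F s) - ZR D F s ∧ 0 < ZR D F (-s) - E3 D F (vR D F (-s)) := fun s h ↦
    (le_total s 6).elim (fun l ↦ by
      rw [← Zc_eq (mem h1 h2 _) h.ne', ← Zc_eq (mem h1 h2 _) (neg_neg_iff_pos.2 h).ne]
      exact c s h l) (d s)
  refine noThree_sep hF 1 (E3 D F) fun t _ h0 ↦ ?_
  rcases h0.lt_or_gt with h | h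
  · have := (k (-t) (neg_pos.2 h)).2
    rw [neg_neg] at this
    exact mul_pos_of_neg_of_neg h (by linarith)
  · exact mul_pos h (by linarith [(k t h).1])

end Z3

open Z3 in
theorem Z3_holds : St_Z3 := fun D F f1 f2 d1 d2 h i ↦ by
  rcases le_or_gt (1 / 2) F with k | k
  · have g : 0 < 7 / 16 - (F - 1 / 2) := by linarith
    have a0 : 0 ≤ -(D + F) / (7 / 16 - (F - 1 / 2)) := div_nonneg (by linarith) g.le
    have a1 : -(D + F) / (7 / 16 - (F - 1 / 2)) ≤ 1 := (div_le_one g).2 (by linarith)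
    have e : D = -(-(D + F) / (7 / 16 - (F - 1 / 2)) * (7 / 16 - (F - 1 / 2))) - F := by
      rw [div_mul_cancel₀ _ g.ne']; ring
    have s : 0 < -(D + F) / (7 / 16 - (F - 1 / 2)) ∨ 0 < F - 1 / 2 := by
      by_contra s
      push Not at s
      have := (div_nonpos_iff.1 s.1).resolve_left fun h ↦ h.2.not_gt g
      exact i ⟨by linarith [s.2, this.1], by linarith [s.2]⟩
    exact glue (by linarith) (by linarith) (by linarith)
      (fun _ ↦ cP (by ring) e a0 a1 (by linarith) (by linarith) s)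
      fun _ ↦ tP (by ring) e a0 a1 (by linarith) (by linarith) s
  · have g : 0 < 1 / 2 - F := by linarith
    have d3 := h.resolve_left k.not_ge
    exact glue (by linarith) (by linarith) (by linarith)
      (fun _ ↦ cM (a := -(D + F)) (by ring) (by ring) (by linarith) (by linarith) g (by linarith))
      fun _ ↦ tM (a := -(D + F) / (1 / 2 - F)) (by ring) (by rw [div_mul_cancel₀ _ g.ne']; ring)
        (div_nonneg (by linarith) g.le) ((div_le_one g).2 (by linarith)) g (by linarith)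

end Pool.Agent.Lib.MP_d6150d_an
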