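import Pool.Agent.Lib.MP_d6150d_an.GMac
import Pool.Agent.Lib.MP_d6150d_an.PpChk
import Pool.Agent.Lib.MP_d6150d_an.ZmLaK0

/-! A generated chart: the inequality. -/

namespace Pool.Agent.Lib.MP_d6150d_an.ZmLa

set_option linter.unnecessarySeqFocus false
set_option linter.unusedTactic false
set_option linter.unusedVariables false

theorem gd : Gd2 C [(0, 52776558133248), (0, 140737488355328)] := chk_sound2 k0

set_option maxRecDepth 100000 in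
theorem eq {b u z e a : ℝ} (hz : z = 8 * b) (he : e = ph1 z) (ha : a = 1 - u + 4 * e * u * (1 / 2 -
    b - (1 - u) / 8 - 19 / 1024)) : outR prog 0 [b, u] = (a - (1 / 2 - b)) ^ 2 * (2 - u) - (1 / 2 +
    b) * a ^ 2 ∧ outR prog 1 [b, u] = (b + u) * (a - (1 / 2 - b)) := by
  replace hz : z = ((Int.cast (8) : ℝ) * b) := hz.trans (by push_cast <;> ring)
  replace ha : a = (((Int.cast (1) : ℝ) - u) + ((((Int.cast (4) : ℝ) * e) * u) * (((((Int.cast (1) :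
    ℝ) / (Nat.cast 2 : ℝ)) - b) - (((Int.cast (1) : ℝ) / (Nat.cast 8 : ℝ)) * ((Int.cast (1) : ℝ) -
    u))) - ((Int.cast (19) : ℝ) / (Nat.cast 1024 : ℝ))))) := ha.trans (by push_cast <;> ring)
  have e0 : ((((a - (((Int.cast (1) : ℝ) / (Nat.cast 2 : ℝ)) - b)) * (a - (((Int.cast (1) : ℝ) /
    (Nat.cast 2 : ℝ)) - b))) * ((Int.cast (2) : ℝ) - u)) - ((((Int.cast (1) : ℝ) / (Nat.cast 2 : ℝ))
    + b) * (a * a))) = (a - (1 / 2 - b)) ^ 2 * (2 - u) - (1 / 2 + b) * a ^ 2 := by push_cast <;>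
    ring
  have e1 : ((b + u) * (a - (((Int.cast (1) : ℝ) / (Nat.cast 2 : ℝ)) - b))) = (b + u) * (a - (1 / 2
    - b)) := by push_cast <;> ring
  subst hz he ha
  exact ⟨Eq.trans rfl e0, Eq.trans rfl e1⟩

theorem l0 : ((0 : ℤ) : ℝ) / 2 ^ 47 = 0 := by norm_num
theorem u0 : (3 / 8 : ℝ) = ((52776558133248 : ℤ) : ℝ) / 2 ^ 47 := by norm_num
theorem l1 : ((0 : ℤ) : ℝ) / 2 ^ 47 = 0 := by norm_num
theorem u1 : (1 : ℝ) = ((140737488355328 : ℤ) : ℝ) / 2 ^ 47 := by norm_num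

theorem out0 (N : 0 ≤ outR prog 0 [0, 0]) {b u : ℝ} (a0 : 0 ≤ b) (b0 : b ≤ 3 / 8) (a1 : 0 ≤ u) (b1 :
    u ≤ 1) (pc : 0 < b ∨ 0 < u) : 0 < outR prog 0 [b, u] :=
  gd 0 (by decide) [b, u] (.cons ⟨l0.le.trans a0, b0.trans u0.le⟩ (.cons ⟨l1.le.trans a1, b1.trans
    u1.le⟩ (.nil))) ⟨nofun, nofun, trivial⟩ (fun _ ↦ pc.elim (fun h ↦ .inl ⟨rfl, h⟩) (fun h ↦ .inr
    (.inl ⟨rfl, h⟩))) (List.forall_mem_nil _) (Van.of0 rfl) (fun _ _ _ _ _ _ _ ↦ N)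

theorem out1 (N : 0 ≤ outR prog 1 [0, 0]) {b u : ℝ} (a0 : 0 ≤ b) (b0 : b ≤ 3 / 8) (a1 : 0 ≤ u) (b1 :
    u ≤ 1) (pc : 0 < b ∨ 0 < u) : 0 < outR prog 1 [b, u] :=
  gd 1 (by decide) [b, u] (.cons ⟨l0.le.trans a0, b0.trans u0.le⟩ (.cons ⟨l1.le.trans a1, b1.trans
    u1.le⟩ (.nil))) ⟨nofun, nofun, trivial⟩ (fun _ ↦ pc.elim (fun h ↦ .inl ⟨rfl, h⟩) (fun h ↦ .inr
    (.inl ⟨rfl, h⟩))) (List.forall_mem_nil _) (Van.of0 rfl) (fun _ _ _ _ _ _ _ ↦ N)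

end Pool.Agent.Lib.MP_d6150d_an.ZmLa
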