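import Pool.Agent.Lib.MP_d6150d_an.ZmLbD

/-! A generated chart: the computations. -/

namespace Pool.Agent.Lib.MP_d6150d_an.ZmLb

theorem k0 : chk C 0x8828880088800208880288088800288800888002102 [(17592186044416, 70368744177664),
    (0, 2611340115968), (79164837199872, 149533581377536)] = true := by
  decide +kernel

end Pool.Agent.Lib.MP_d6150d_an.ZmLb
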