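import Pool.Agent.Lib.MP_d6150d_an.GMac
import Pool.Agent.Lib.MP_d6150d_an.PpChk
import Pool.Agent.Lib.MP_d6150d_an.ZmLbK0

/-! A generated chart: the inequality. -/

namespace Pool.Agent.Lib.MP_d6150d_an.ZmLb

set_option linter.unnecessarySeqFocus false
set_option linter.unusedTactic false
set_option linter.unusedVariables false

theorem gd : Gd2 C [(17592186044416, 70368744177664), (0, 2611340115968), (79164837199872,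
    149533581377536)] := chk_sound2 k0

set_option maxRecDepth 100000 in
theorem eq {d q F z3 z4 e3 e4 W A : ℝ} (hz3 : z3 = (2 * F - 1) * 4) (hz4 : z4 = -((2 - 2 * F) * 4))
    (he3 : e3 = ph1 z3) (he4 : e4 = ph1 z4) (hW : W = (1 - q) * ((1 - d) * q + d)) (hA : A = 2 * d *
    (4 * e4) + (1 - 2 * d) * (q * (4 * e3))) : outR prog 0 [d, q, F] = (A - W) ^ 2 * ((1 - 2 * d) *
    q + 2 * d) - F * W * A ^ 2 ∧ outR prog 1 [d, q, F] = A - W := by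
  replace hz3 : z3 = ((Int.cast (4) : ℝ) * (((Int.cast (2) : ℝ) * F) - (Int.cast (1) : ℝ))) :=
    hz3.trans (by push_cast <;> ring)
  replace hz4 : z4 = ((Int.cast (-1) : ℝ) * ((Int.cast (4) : ℝ) * ((Int.cast (2) : ℝ) - ((Int.cast
    (2) : ℝ) * F)))) := hz4.trans (by push_cast <;> ring)
  replace hW : W = (((Int.cast (1) : ℝ) - q) * ((((Int.cast (1) : ℝ) - d) * q) + d)) := hW.trans (by
    push_cast <;> ring)
  replace hA : A = ((((Int.cast (2) : ℝ) * d) * ((Int.cast (4) : ℝ) * e4)) + (((Int.cast (1) : ℝ) -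
    ((Int.cast (2) : ℝ) * d)) * (q * ((Int.cast (4) : ℝ) * e3)))) := hA.trans (by push_cast <;>
    ring)
  have e0 : ((((A - W) * (A - W)) * ((((Int.cast (1) : ℝ) - ((Int.cast (2) : ℝ) * d)) * q) +
    ((Int.cast (2) : ℝ) * d))) - ((F * W) * (A * A))) = (A - W) ^ 2 * ((1 - 2 * d) * q + 2 * d) - F
    * W * A ^ 2 := by push_cast <;> ring
  have e1 : (A - W) = A - W := by push_cast <;> ring
  subst hz3 hz4 he3 he4 hW hA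
  exact ⟨Eq.trans rfl e0, Eq.trans rfl e1⟩

theorem l0 : ((17592186044416 : ℤ) : ℝ) / 2 ^ 47 = 1 / 8 := by norm_num
theorem u0 : (1 / 2 : ℝ) = ((70368744177664 : ℤ) : ℝ) / 2 ^ 47 := by norm_num
theorem l1 : ((0 : ℤ) : ℝ) / 2 ^ 47 = 0 := by norm_num
theorem u1 : (19 / 1024 : ℝ) = ((2611340115968 : ℤ) : ℝ) / 2 ^ 47 := by norm_num
theorem l2 : ((79164837199872 : ℤ) : ℝ) / 2 ^ 47 = 9 / 16 := by norm_num
theorem u2 : (17 / 16 : ℝ) = ((149533581377536 : ℤ) : ℝ) / 2 ^ 47 := by norm_num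

theorem out0 {d q F : ℝ} (a0 : 1 / 8 ≤ d) (b0 : d ≤ 1 / 2) (a1 : 0 ≤ q) (b1 : q ≤ 19 / 1024) (a2 : 9
    / 16 ≤ F) (b2 : F ≤ 17 / 16) : 0 < outR prog 0 [d, q, F] :=
  gd 0 (by decide) [d, q, F] (.cons ⟨l0.le.trans a0, b0.trans u0.le⟩ (.cons ⟨l1.le.trans a1,
    b1.trans u1.le⟩ (.cons ⟨l2.le.trans a2, b2.trans u2.le⟩ (.nil)))) ⟨nofun, nofun, nofun, trivial⟩
    (nofun) (List.forall_mem_nil _) (Van.of0 rfl) (nofun)

theorem pos0 {d q F z3 z4 e3 e4 W A : ℝ} (hz3 : z3 = (2 * F - 1) * 4) (hz4 : z4 = -((2 - 2 * F) *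
    4)) (he3 : e3 = ph1 z3) (he4 : e4 = ph1 z4) (hW : W = (1 - q) * ((1 - d) * q + d)) (hA : A = 2 *
    d * (4 * e4) + (1 - 2 * d) * (q * (4 * e3))) (a0 : 1 / 8 ≤ d) (b0 : d ≤ 1 / 2) (a1 : 0 ≤ q) (b1
    : q ≤ 19 / 1024) (a2 : 9 / 16 ≤ F) (b2 : F ≤ 17 / 16) : 0 < (A - W) ^ 2 * ((1 - 2 * d) * q + 2 *
    d) - F * W * A ^ 2 :=
  have e := eq hz3 hz4 he3 he4 hW hA
  (out0 a0 b0 a1 b1 a2 b2).trans_eq e.1

theorem out1 {d q F : ℝ} (a0 : 1 / 8 ≤ d) (b0 : d ≤ 1 / 2) (a1 : 0 ≤ q) (b1 : q ≤ 19 / 1024) (a2 : 9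
    / 16 ≤ F) (b2 : F ≤ 17 / 16) : 0 < outR prog 1 [d, q, F] :=
  gd 1 (by decide) [d, q, F] (.cons ⟨l0.le.trans a0, b0.trans u0.le⟩ (.cons ⟨l1.le.trans a1,
    b1.trans u1.le⟩ (.cons ⟨l2.le.trans a2, b2.trans u2.le⟩ (.nil)))) ⟨nofun, nofun, nofun, trivial⟩
    (nofun) (List.forall_mem_nil _) (Van.of0 rfl) (nofun)

theorem pos1 {d q F z3 z4 e3 e4 W A : ℝ} (hz3 : z3 = (2 * F - 1) * 4) (hz4 : z4 = -((2 - 2 * F) *
    4)) (he3 : e3 = ph1 z3) (he4 : e4 = ph1 z4) (hW : W = (1 - q) * ((1 - d) * q + d)) (hA : A = 2 *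
    d * (4 * e4) + (1 - 2 * d) * (q * (4 * e3))) (a0 : 1 / 8 ≤ d) (b0 : d ≤ 1 / 2) (a1 : 0 ≤ q) (b1
    : q ≤ 19 / 1024) (a2 : 9 / 16 ≤ F) (b2 : F ≤ 17 / 16) : 0 < A - W :=
  have e := eq hz3 hz4 he3 he4 hW hA
  (out1 a0 b0 a1 b1 a2 b2).trans_eq e.2

end Pool.Agent.Lib.MP_d6150d_an.ZmLb
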