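import Pool.Agent.Lib.MP_d6150d_an.ZmLdD

/-! A generated chart: the computations. -/

namespace Pool.Agent.Lib.MP_d6150d_an.ZmLd

theorem k0 : chk C 0x88288108801 [(0, 8796093022208), (0, 26388279066624), (0, 35184372088832), (0,
    17592186044416)] = true := by
  decide +kernel

theorem k1 : chk C 0x8818828108818828103 [(0, 8796093022208), (26388279066624, 39582418599936), (0,
    35184372088832), (0, 17592186044416)] = true := by
  decide +kernel

theorem k2 : chk C 0x883882288081881388281208828838201881882810881883810388388823013 [(0,
    8796093022208), (39582418599936, 52776558133248), (0, 35184372088832), (0, 17592186044416)] =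
    true := by
  decide +kernel

end Pool.Agent.Lib.MP_d6150d_an.ZmLd
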