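import Pool.Agent.Lib.MP_d6150d_an.GMac
import Pool.Agent.Lib.MP_d6150d_an.PpChk
import Pool.Agent.Lib.MP_d6150d_an.ZmLdK0

/-! A generated chart: the inequality. -/

namespace Pool.Agent.Lib.MP_d6150d_an.ZmLd

set_option linter.unnecessarySeqFocus false
set_option linter.unusedTactic false
set_option linter.unusedVariables false

theorem gd : Gd2 C [(0, 8796093022208), (0, 52776558133248), (0, 35184372088832), (0,
    17592186044416)] := .split 1 (chk_sound2 k0) (.split 1 (chk_sound2 k1) (chk_sound2 k2))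

set_option maxRecDepth 100000 in
theorem eq {b x h w d q W n F p A i B j : ℝ} (hd : d = 1 / 2 - x) (hq : q = h * w) (hW : W = (1 - q)
    * ((1 - d) * q + d)) (hn : n = (1 - 2 * d) * q + 2 * d) (hF : F = 1 / 2 + b) (hp : p = q + 2 * b
    * w) (hA : A = 2 * d * ((1 - p) / (1 - 2 * b)) + (1 - 2 * d) * w) (hi : i = (√(p + (1 + 2 * d -
    F) / 3 * (A - W)))⁻¹) (hB : B = 2 * d * (1 - q) + (1 - 2 * d) * w) (hj : j = (√(q + (1 / 2 + 2 *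
    d) / 3 * (B - W)))⁻¹) : outR prog 0 [b, x, h, w] = p * (W * i) ^ 3 - (W * A ^ 2 - (A - W) ^ 2 *
    n / F) - (q * (W * j) ^ 3 - (W * B ^ 2 - 2 * (B - W) ^ 2 * n)) := by
  replace hd : d = (((Int.cast (1) : ℝ) / (Nat.cast 2 : ℝ)) - x) := hd.trans (by push_cast <;> ring)
  replace hq : q = (h * w) := hq.trans (by push_cast <;> ring)
  replace hW : W = (((Int.cast (1) : ℝ) - q) * ((((Int.cast (1) : ℝ) - d) * q) + d)) := hW.trans (by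
    push_cast <;> ring)
  replace hn : n = ((((Int.cast (1) : ℝ) - ((Int.cast (2) : ℝ) * d)) * q) + ((Int.cast (2) : ℝ) *
    d)) := hn.trans (by push_cast <;> ring)
  replace hF : F = (((Int.cast (1) : ℝ) / (Nat.cast 2 : ℝ)) + b) := hF.trans (by push_cast <;> ring)
  replace hp : p = (q + (((Int.cast (2) : ℝ) * b) * w)) := hp.trans (by push_cast <;> ring)
  replace hA : A = ((((Int.cast (2) : ℝ) * d) * (((Int.cast (1) : ℝ) - p) * ((Int.cast (1) : ℝ) -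
    ((Int.cast (2) : ℝ) * b))⁻¹)) + (((Int.cast (1) : ℝ) - ((Int.cast (2) : ℝ) * d)) * w)) :=
    hA.trans (by push_cast <;> ring)
  replace hi : i = (√(p + ((((Int.cast (1) : ℝ) / (Nat.cast 3 : ℝ)) * (((Int.cast (1) : ℝ) +
    ((Int.cast (2) : ℝ) * d)) - F)) * (A - W))))⁻¹ := hi.trans (congrArg (fun x : ℝ ↦ (√x)⁻¹) (by
    push_cast <;> ring))
  replace hB : B = ((((Int.cast (2) : ℝ) * d) * ((Int.cast (1) : ℝ) - q)) + (((Int.cast (1) : ℝ) -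
    ((Int.cast (2) : ℝ) * d)) * w)) := hB.trans (by push_cast <;> ring)
  replace hj : j = (√(q + ((((Int.cast (1) : ℝ) / (Nat.cast 3 : ℝ)) * (((Int.cast (1) : ℝ) /
    (Nat.cast 2 : ℝ)) + ((Int.cast (2) : ℝ) * d))) * (B - W))))⁻¹ := hj.trans (congrArg (fun x : ℝ ↦
    (√x)⁻¹) (by push_cast <;> ring))
  have e0 : (((p * (((W * i) * (W * i)) * (W * i))) - ((W * (A * A)) - ((((A - W) * (A - W)) * n) *
    F⁻¹))) - ((q * (((W * j) * (W * j)) * (W * j))) - ((W * (B * B)) - (((Int.cast (2) : ℝ) * ((B -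
    W) * (B - W))) * n)))) = p * (W * i) ^ 3 - (W * A ^ 2 - (A - W) ^ 2 * n / F) - (q * (W * j) ^ 3
    - (W * B ^ 2 - 2 * (B - W) ^ 2 * n)) := by push_cast <;> ring
  subst hd hq hW hn hF hp hA hi hB hj
  exact Eq.trans rfl e0

theorem l0 : ((0 : ℤ) : ℝ) / 2 ^ 47 = 0 := by norm_num
theorem u0 : (1 / 16 : ℝ) = ((8796093022208 : ℤ) : ℝ) / 2 ^ 47 := by norm_num
theorem l1 : ((0 : ℤ) : ℝ) / 2 ^ 47 = 0 := by norm_num
theorem u1 : (3 / 8 : ℝ) = ((52776558133248 : ℤ) : ℝ) / 2 ^ 47 := by norm_num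
theorem l2 : ((0 : ℤ) : ℝ) / 2 ^ 47 = 0 := by norm_num
theorem u2 : (1 / 4 : ℝ) = ((35184372088832 : ℤ) : ℝ) / 2 ^ 47 := by norm_num
theorem l3 : ((0 : ℤ) : ℝ) / 2 ^ 47 = 0 := by norm_num
theorem u3 : (1 / 8 : ℝ) = ((17592186044416 : ℤ) : ℝ) / 2 ^ 47 := by norm_num

theorem out0 (V0 : ∀ x h w : ℝ, 0 ≤ x → x ≤ 3 / 8 → 0 ≤ h → h ≤ 1 / 4 → 0 ≤ w → w ≤ 1 / 8 → outR
    prog 0 [0, x, h, w] = 0) {b x h w : ℝ} (a0 : 0 ≤ b) (b0 : b ≤ 1 / 16) (a1 : 0 ≤ x) (b1 : x ≤ 3 /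
    8) (a2 : 0 ≤ h) (b2 : h ≤ 1 / 4) (a3 : 0 ≤ w) (b3 : w ≤ 1 / 8) (p0 : 0 < b) : 0 < outR prog 0
    [b, x, h, w] :=
  gd 0 (by decide) [b, x, h, w] (.cons ⟨l0.le.trans a0, b0.trans u0.le⟩ (.cons ⟨l1.le.trans a1,
    b1.trans u1.le⟩ (.cons ⟨l2.le.trans a2, b2.trans u2.le⟩ (.cons ⟨l3.le.trans a3, b3.trans u3.le⟩
    (.nil))))) ⟨fun _ ↦ p0, nofun, nofun, nofun, trivial⟩ (nofun) (List.forall_mem_nil _) (⟨fun _ y1
    a1 b1 y2 a2 b2 y3 a3 b3 ↦ V0 y1 y2 y3 (l1.ge.trans a1) (b1.trans u1.ge) (l2.ge.trans a2)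
    (b2.trans u2.ge) (l3.ge.trans a3) (b3.trans u3.ge), fun _ _ _ ↦ Van.of0 rfl⟩) (nofun)

end Pool.Agent.Lib.MP_d6150d_an.ZmLd
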