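import Pool.Agent.Lib.MP_d6150d_an.ZmLeD

/-! A generated chart: the computations. -/

namespace Pool.Agent.Lib.MP_d6150d_an.ZmLe

theorem k0 : chk C 0x88188088280228800 [(0, 52776558133248), (0, 35184372088832), (0,
    17592186044416)] = true := by
  decide +kernel

end Pool.Agent.Lib.MP_d6150d_an.ZmLe
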