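import Pool.Agent.Lib.MP_d6150d_an.GMac
import Pool.Agent.Lib.MP_d6150d_an.PpChk
import Pool.Agent.Lib.MP_d6150d_an.ZmLeK0

/-! A generated chart: the inequality. -/

namespace Pool.Agent.Lib.MP_d6150d_an.ZmLe

set_option linter.unnecessarySeqFocus false
set_option linter.unusedTactic false
set_option linter.unusedVariables false

theorem gd : Gd2 C [(0, 52776558133248), (0, 35184372088832), (0, 17592186044416)] := chk_sound2 k0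

set_option maxRecDepth 100000 in
theorem eq {x h w d q W n B j : ℝ} (hd : d = 1 / 2 - x) (hq : q = h * w) (hW : W = (1 - q) * ((1 -
    d) * q + d)) (hn : n = (1 - 2 * d) * q + 2 * d) (hB : B = 2 * d * (1 - q) + (1 - 2 * d) * w) (hj
    : j = (√(q + (1 / 2 + 2 * d) / 3 * (B - W)))⁻¹) : outR prog 0 [x, h, w] = q * (W * j) ^ 3 - (W *
    B ^ 2 - 2 * (B - W) ^ 2 * n) := by
  replace hd : d = (((Int.cast (1) : ℝ) / (Nat.cast 2 : ℝ)) - x) := hd.trans (by push_cast <;> ring)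
  replace hq : q = (h * w) := hq.trans (by push_cast <;> ring)
  replace hW : W = (((Int.cast (1) : ℝ) - q) * ((((Int.cast (1) : ℝ) - d) * q) + d)) := hW.trans (by
    push_cast <;> ring)
  replace hn : n = ((((Int.cast (1) : ℝ) - ((Int.cast (2) : ℝ) * d)) * q) + ((Int.cast (2) : ℝ) *
    d)) := hn.trans (by push_cast <;> ring)
  replace hB : B = ((((Int.cast (2) : ℝ) * d) * ((Int.cast (1) : ℝ) - q)) + (((Int.cast (1) : ℝ) -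
    ((Int.cast (2) : ℝ) * d)) * w)) := hB.trans (by push_cast <;> ring)
  replace hj : j = (√(q + ((((Int.cast (1) : ℝ) / (Nat.cast 3 : ℝ)) * (((Int.cast (1) : ℝ) /
    (Nat.cast 2 : ℝ)) + ((Int.cast (2) : ℝ) * d))) * (B - W))))⁻¹ := hj.trans (congrArg (fun x : ℝ ↦
    (√x)⁻¹) (by push_cast <;> ring))
  have e0 : ((q * (((W * j) * (W * j)) * (W * j))) - ((W * (B * B)) - (((Int.cast (2) : ℝ) * ((B -
    W) * (B - W))) * n))) = q * (W * j) ^ 3 - (W * B ^ 2 - 2 * (B - W) ^ 2 * n) := by push_cast <;>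
    ring
  subst hd hq hW hn hB hj
  exact Eq.trans rfl e0

theorem l0 : ((0 : ℤ) : ℝ) / 2 ^ 47 = 0 := by norm_num
theorem u0 : (3 / 8 : ℝ) = ((52776558133248 : ℤ) : ℝ) / 2 ^ 47 := by norm_num
theorem l1 : ((0 : ℤ) : ℝ) / 2 ^ 47 = 0 := by norm_num
theorem u1 : (1 / 4 : ℝ) = ((35184372088832 : ℤ) : ℝ) / 2 ^ 47 := by norm_num
theorem l2 : ((0 : ℤ) : ℝ) / 2 ^ 47 = 0 := by norm_num
theorem u2 : (1 / 8 : ℝ) = ((17592186044416 : ℤ) : ℝ) / 2 ^ 47 := by norm_num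

theorem out0 (V0 : ∀ h w : ℝ, 0 ≤ h → h ≤ 1 / 4 → 0 ≤ w → w ≤ 1 / 8 → outR prog 0 [0, h, w] = 0) (V2
    : ∀ x h : ℝ, 0 ≤ x → x ≤ 3 / 8 → 0 ≤ h → h ≤ 1 / 4 → outR prog 0 [x, h, 0] = 0) {x h w : ℝ} (a0
    : 0 ≤ x) (b0 : x ≤ 3 / 8) (a1 : 0 ≤ h) (b1 : h ≤ 1 / 4) (a2 : 0 ≤ w) (b2 : w ≤ 1 / 8) (p0 : 0 <
    x) (p2 : 0 < w) : 0 < outR prog 0 [x, h, w] :=
  gd 0 (by decide) [x, h, w] (.cons ⟨l0.le.trans a0, b0.trans u0.le⟩ (.cons ⟨l1.le.trans a1,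
    b1.trans u1.le⟩ (.cons ⟨l2.le.trans a2, b2.trans u2.le⟩ (.nil)))) ⟨fun _ ↦ p0, nofun, fun _ ↦
    p2, trivial⟩ (nofun) (List.forall_mem_nil _) (⟨fun _ y1 a1 b1 y2 a2 b2 ↦ V0 y1 y2 (l1.ge.trans
    a1) (b1.trans u1.ge) (l2.ge.trans a2) (b2.trans u2.ge), fun y0 a0 b0 ↦ ⟨fun _ ↦ allB_iff.2 fun _
    _ ↦ trivial, fun y1 a1 b1 ↦ ⟨fun _ ↦ V2 y0 y1 (l0.ge.trans a0) (b0.trans u0.ge) (l1.ge.trans a1)
    (b1.trans u1.ge), fun _ _ _ ↦ trivial⟩⟩⟩) (nofun)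

end Pool.Agent.Lib.MP_d6150d_an.ZmLe
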