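import Pool.Agent.Lib.MP_d6150d_an.Zm0
import Pool.Agent.Lib.MP_d6150d_an.ZmLa
import Pool.Agent.Lib.MP_d6150d_an.ZmLb
import Pool.Agent.Lib.MP_d6150d_an.ZmLd
import Pool.Agent.Lib.MP_d6150d_an.ZmLe

/-! The square where the period decreases: the left tail. -/

namespace Pool.Agent.Lib.MP_d6150d_an.Zm

open Real Set

variable {d F t q p l e W A n : ℝ}

/-- the quantities on the left branch -/
structure LF (d F t q p l e W A n : ℝ) : Prop where
  hq : q = exp (-t)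
  hp : p = exp (-((2 - 2 * F) * t))
  hl : l = t * ph1 (-((2 - 2 * F) * t))
  he : e = t * ph1 ((2 * F - 1) * t)
  hW : W = (1 - q) * ((1 - d) * q + d)
  hA : A = 2 * d * l + (1 - 2 * d) * (q * e)
  hn : n = (1 - 2 * d) * q + 2 * d

namespace LF

variable (L : LF d F t q p l e W A n)
include L

theorem w_eq : wR (-d) (-t) = -W := by rw [wR_eq, om, L.hW, L.hq]; ring

theorem a_eq : aZ d F (-t) = -A := by
  rw [aZ, mul_neg (2 * F - 1), neg_neg, mul_neg (2 - 2 * F), L.hA, L.hl, L.he, L.hq]; ring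

theorem y_eq : 2 * F * yR (-d) F (-t) = A - W := by
  linear_combination L.w_eq - L.a_eq - Zm.a_eq (d := d) (F := F) (-t)

theorem v_eq : F * vR (-d) F (-t) * p = A - W := by
  rw [← L.y_eq, yR, L.hp, mul_neg]; ring

theorem p_eq : p = q + (2 * F - 1) * (q * e) := by
  have h : p = q * exp ((2 * F - 1) * t) := by rw [L.hp, L.hq, ← exp_add]; ring_nf
  rw [h, exp_eq_ph, L.he]; ring

theorem l_eq : (2 - 2 * F) * l = 1 - p := by rw [L.hp, exp_eq_ph, L.hl]; ring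

theorem q0 : 0 < q := L.hq ▸ exp_pos _

theorem Z_eq (H : Adm d F) (t0 : 0 < t) :
    F * W ^ 3 * ZR (-d) F (-t) = exp (F * -t) * (F * W * A ^ 2 - (A - W) ^ 2 * n) := by
  have h := Z_id (F := F) (H.mem (-t)) (by linarith)
  rw [L.w_eq, L.a_eq, ← L.hq, ← L.hn] at h
  linear_combination -F * h - exp (F * -t) * n * (2 * F * yR (-d) F (-t) + (A - W)) * L.y_eq

variable (H : Adm d F) (t4 : 4 ≤ t)
include t4

theorem q1 : q ≤ 19 / 1024 := by
  have h : exp 4 = exp 2 * exp 2 := by rw [← exp_add]; norm_num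
  rw [L.hq, exp_neg, inv_le_comm₀ (exp_pos _) (by norm_num)]
  exact le_trans (by nlinarith [exp_two]) (exp_le_exp.2 t4)

theorem e4 : 4 * ph1 ((2 * F - 1) * 4) ≤ e := L.he ▸ ph1_mono _ t4

include H

omit t4 in
theorem la0 : 0 < (1 - d) * q + d := by nlinarith [L.q0, H.d0, H.d1]

theorem W0 : 0 < W := L.hW ▸ mul_pos (by linarith [L.q1 t4]) (L.la0 H)

theorem n0 : 0 < n := by rw [L.hn]; nlinarith [L.q0, L.q1 t4, H.d0, H.d1]

omit L t4 in
theorem S0 : 1 ≤ sS d F (vR (-d) F (-t)) := one_le_sS H.c0 (v_nonneg (H.mem _))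

theorem of_nonpos (h : F * W * A ^ 2 ≤ (A - W) ^ 2 * n) : dl d F (-t) < 0 := by
  have h1 := L.Z_eq H (by linarith)
  have h2 := mul_nonpos_of_nonneg_of_nonpos (exp_pos (F * -t)).le (sub_nonpos.2 h)
  have h3 : 0 < F * W ^ 3 := mul_pos (by linarith [H.F0]) (pow_pos (L.W0 H t4) 3)
  have h4 := nonpos_of_mul_nonpos_right (h1 ▸ h2) h3
  have h5 := LF.S0 (t := t) H
  exact sub_neg.2 (h4.trans_lt (by positivity))

end LF

theorem sq_mono {a0 a w m c : ℝ} (hw : 0 < w) (h1 : w ≤ a0) (h2 : a0 ≤ a) (hm : 0 ≤ m)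
    (h : c * a0 ^ 2 ≤ (a0 - w) ^ 2 * m) : c * a ^ 2 ≤ (a - w) ^ 2 * m := by
  have h3 : ((a0 - w) * a) ^ 2 ≤ ((a - w) * a0) ^ 2 :=
    pow_le_pow_left₀ (mul_nonneg (by linarith) (by linarith)) (by nlinarith) 2
  refine le_of_mul_le_mul_right ?_ (pow_pos (hw.trans_le h1) 2)
  nlinarith [mul_le_mul_of_nonneg_right h3 hm, mul_le_mul_of_nonneg_right h (sq_nonneg a)]

variable (L : LF d F t q p l e W A n) (H : Adm d F) (t4 : 4 ≤ t)
include L H t4

theorem left_a (d2 : d ≤ 1 / 8) (F2 : F ≤ 7 / 8) : dl d F (-t) < 0 := by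
  obtain ⟨d0, d1, F0, F1⟩ := id H
  have q0 := L.q0
  have q1 := L.q1 t4
  have la := L.la0 H
  obtain ⟨u, hu⟩ : ∃ u, u * ((1 - d) * q + d) = q := ⟨_, div_mul_cancel₀ _ la.ne'⟩
  have u0 : 0 < u := pos_of_mul_pos_left (q0.trans_eq hu.symm) la.le
  have u1 : u ≤ 1 := le_of_mul_le_mul_right (by nlinarith) la
  have E := ZmLa.eq (b := F - 1 / 2) (u := u) rfl rfl rfl
  have E0 := ZmLa.eq (b := 0) (u := 0) rfl rfl rfl
  have c0 := (ZmLa.out0 (E0.1.ge.trans' (by norm_num)) (by linarith) (by linarith) u0.le u1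
    (Or.inr u0)).trans_eq E.1
  have c1 := (ZmLa.out1 (E0.2.ge.trans' (by norm_num)) (by linarith) (by linarith) u0.le u1
    (Or.inr u0)).trans_eq E.2
  have e4 := L.e4 t4
  have e0 := ph1_pos ((2 * F - 1) * 4)
  rw [show 8 * (F - 1 / 2) = (2 * F - 1) * 4 by ring, show 1 / 2 - (F - 1 / 2) = 1 - F by ring]
    at c0 c1
  generalize ph1 ((2 * F - 1) * 4) = x at *
  have c2 := pos_of_mul_pos_right c1 (by linarith)
  have k1 : u * d ≤ q := by
    linarith [mul_nonneg (mul_pos u0 q0).le (show 0 ≤ 1 - d by linarith)]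
  have k2 : u * d ≤ u * ((1 - u) / 8 + 19 / 1024) := by
    linarith [mul_le_mul_of_nonneg_left (k1.trans q1) u0.le,
      mul_le_mul_of_nonneg_left d2 (mul_nonneg u0.le (sub_nonneg.2 u1))]
  have k0 : 1 - u + 4 * x * u * (1 - F - (1 - u) / 8 - 19 / 1024) ≤ 1 - u + u * e * (1 - F - d) := by
    linarith [mul_le_mul_of_nonneg_left k2 e0.le, mul_le_mul_of_nonneg_left e4
      (mul_nonneg u0.le (show 0 ≤ 1 - F - d by linarith))]
  have k3 := sq_mono (m := 2 - u) (c := F) (sub_pos.2 (by linarith))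
    (sub_pos.1 c2).le k0 (by linarith) (by linarith)
  have k4 := (sub_pos.1 c2).le.trans k0
  clear c0 c1 c2 k0 E E0
  have hA : (1 - F) * A = (1 - u + u * e * (1 - F - d)) * ((1 - d) * q + d) := by
    rw [L.hA]
    linear_combination d * L.l_eq - d * L.p_eq + (1 - e * (1 - F - d)) * hu
  have hn : n = (2 - u) * ((1 - d) * q + d) := by rw [L.hn]; linear_combination hu
  generalize 1 - u + u * e * (1 - F - d) = a at *
  refine L.of_nonpos H t4 (le_of_mul_le_mul_left ?_ (pow_pos (show 0 < 1 - F by linarith) 2))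
  have k5 : (a - (1 - F)) ^ 2 ≤ (a - (1 - F) * (1 - q)) ^ 2 :=
    pow_le_pow_left₀ (by linarith) (by linarith [mul_pos q0 (show 0 < 1 - F by linarith)]) 2
  have k6 : F * (1 - q) * a ^ 2 ≤ (a - (1 - F) * (1 - q)) ^ 2 * (2 - u) := by
    linarith [mul_le_mul_of_nonneg_right k5 (show 0 ≤ 2 - u by linarith),
      mul_nonneg (mul_nonneg (show 0 ≤ F by linarith) q0.le) (sq_nonneg a)]
  have k7 := mul_le_mul_of_nonneg_right k6 (pow_pos la 3).le
  rw [show (1 - F) ^ 2 * (F * W * A ^ 2) = F * W * ((1 - F) * A) ^ 2 by ring,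
    show (1 - F) ^ 2 * ((A - W) ^ 2 * n) = ((1 - F) * A - (1 - F) * W) ^ 2 * n by ring, hA, hn, L.hW]
  linarith

theorem left_b (d2 : 1 / 8 ≤ d) (F2 : 9 / 16 ≤ F) (F3 : F ≤ 17 / 16) : dl d F (-t) < 0 := by
  have q0 := L.q0
  have c0 := ZmLb.pos0 rfl rfl rfl rfl L.hW rfl d2 H.d1 q0.le (L.q1 t4) F2 F3
  have c1 := ZmLb.pos1 rfl rfl rfl rfl L.hW rfl d2 H.d1 q0.le (L.q1 t4) F2 F3
  have l4 : 4 * ph1 (-((2 - 2 * F) * 4)) ≤ l := by
    have := ph1_mono (-(2 - 2 * F)) t4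
    rwa [neg_mul, neg_mul, ← L.hl] at this
  refine L.of_nonpos H t4 (sq_mono (L.W0 H t4) (sub_pos.1 c1).le ?_ (L.n0 H t4).le
    (by rw [L.hn]; linarith))
  rw [L.hA]
  exact add_le_add (mul_le_mul_of_nonneg_left l4 (by linarith))
    (mul_le_mul_of_nonneg_left (mul_le_mul_of_nonneg_left (L.e4 t4) q0.le) (by linarith [H.d1]))

theorem left_c (d2 : d ≤ 1 / 8) (F2 : 7 / 8 ≤ F) (F3 : F ≤ 17 / 16) (i2 : 0 < d ∨ F < 1) :
    dl d F (-t) < 0 := by
  obtain ⟨d0, d1, F0, F1⟩ := id H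
  have q0 := L.q0
  have q1 := L.q1 t4
  have la := L.la0 H
  have n0 := L.n0 H t4
  have W0 := L.W0 H t4
  have S1 := LF.S0 (t := t) H
  have v0 := v_nonneg (F := F) (H.mem (-t))
  have S2 := sS_sq H.c0 v0
  obtain ⟨g, hg⟩ : ∃ g, g = exp (-(t / 8)) := ⟨_, rfl⟩
  obtain ⟨x, hx⟩ : ∃ x, x = exp ((1 - F) * t) := ⟨_, rfl⟩
  have g0 : 0 < g := hg ▸ exp_pos _
  have x0 : 0 < x := hx ▸ exp_pos _
  have g1 : g * exp (t / 8) = 1 := by rw [hg, ← exp_add]; simp
  have g2 := quadratic_le_exp_of_nonneg (x := t / 8) (by linarith)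
  have g3 : g ≤ 8 / 13 := by nlinarith
  have g4 : t * g ≤ 4 := by nlinarith [sq_nonneg (t / 8 - 1)]
  have g5 : q = g ^ 8 := by rw [L.hq, hg, ← exp_nat_mul]; push_cast; ring_nf
  have g6 : x * g ≤ 1 := by rw [hx, hg, ← exp_add]; exact exp_le_one_iff.2 (by nlinarith)
  have g7 : exp (F * -t) = q * x := by rw [hx, L.hq, ← exp_add]; ring_nf
  have x1 : x - 1 ≤ (1 + d - F) * t * x := by
    have h1 := add_one_le_exp (-((1 - F) * t))
    have h2 : x * exp (-((1 - F) * t)) = 1 := by rw [hx, ← exp_add]; simp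
    linarith [mul_nonneg (mul_nonneg d0 x0.le) (show 0 ≤ t by linarith),
      mul_le_mul_of_nonneg_left h1 x0.le]
  have v1 : g ^ 2 * vR (-d) F (-t) * g ≤ 8 / 3 * g ^ 3 + 1 := by
    have h1 := ph1_pos (2 * F * -t)
    have h2 := exp_eq_ph ((2 * F - 1) * -t)
    have h3 := exp_pos ((2 * F - 1) * -t)
    have h4 := ph1_pos ((2 * F - 1) * -t)
    have h5 := ph1_le (z := (2 * F - 2) * -t) (w := t / 8 + t / 8) (by nlinarith) (by linarith)
    have h6 := ph1_pos ((2 * F - 2) * -t)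
    rw [exp_add] at h5
    rw [vR_eq]
    generalize ph1 (2 * F * -t) = a, ph1 ((2 * F - 1) * -t) = b, ph1 ((2 * F - 2) * -t) = c at *
    have t0 : 0 < t := by linarith
    have h7 : t * b ≤ 4 / 3 := by linarith [mul_le_mul_of_nonneg_right F2 (mul_pos t0 h4).le]
    have h8 : g ^ 2 * c ≤ 1 := (mul_le_mul_of_nonneg_left h5 (sq_nonneg g)).trans_eq (by
      linear_combination (g * exp (t / 8) + 1) * g1)
    have h9 : d * (t * g) * (g ^ 2 * c) ≤ 1 / 8 * 4 * 1 :=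
      mul_le_mul (mul_le_mul d2 g4 (by positivity) (by norm_num)) h8 (by positivity) (by norm_num)
    have h10 : (1 - 2 * d) * (t * b) ≤ 4 / 3 := by
      linarith [mul_nonneg d0 (mul_pos t0 h4).le]
    have h11 : 0 ≤ (1 - d) * (t * a) := mul_nonneg (by linarith) (mul_nonneg (by linarith) h1.le)
    linarith [mul_le_mul_of_nonneg_left h10 (pow_pos g0 3).le, mul_nonneg (pow_pos g0 3).le h11]
  obtain ⟨c, hc⟩ : ∃ c, c = F * (1 + 2 * d - F) / 3 := ⟨_, rfl⟩
  have c0 : 0 ≤ c := by rw [hc]; linarith [H.c0]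
  have c1 : c ≤ 17 / 48 * (1 + 2 * d - F) := by
    linarith [mul_le_mul_of_nonneg_right F3 (show 0 ≤ 1 + 2 * d - F by linarith)]
  rw [← hc] at S2
  have G3 : g ^ 3 ≤ (8 / 13) ^ 3 := pow_le_pow_left₀ g0.le g3 3
  have G6 : g ^ 6 ≤ (8 / 13) ^ 6 := pow_le_pow_left₀ g0.le g3 6
  obtain ⟨z, hz⟩ : ∃ z, z = c * vR (-d) F (-t) := ⟨_, rfl⟩
  have z0 : 0 ≤ z := hz ▸ mul_nonneg c0 v0
  have z1 : g ^ 3 * z ≤ 13 / 8 * c := by
    rw [hz]; linarith [mul_le_mul_of_nonneg_left v1 c0, mul_le_mul_of_nonneg_left G3 c0]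
  have T1 : q * (x - 1) ≤ 9 / 40 * (1 + d - F) := by
    have h1 : (x * g) * (t * g) * g ^ 6 ≤ 1 * 4 * (8 / 13) ^ 6 :=
      mul_le_mul (mul_le_mul g6 g4 (by positivity) one_pos.le) G6 (by positivity) (by norm_num)
    have h2 := mul_le_mul_of_nonneg_left h1 (show 0 ≤ 1 + d - F by linarith)
    have h3 := mul_le_mul_of_nonneg_left x1 q0.le
    rw [g5] at h3 ⊢
    linarith
  have T2 : q * x * (z * (2 + z)) ≤ 1 / 4 * (1 + 2 * d - F) := by
    have h1 : (x * g) * g * ((g ^ 3 * z) * (2 * g ^ 3 + g ^ 3 * z)) ≤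
        1 * (8 / 13) * ((13 / 8 * c) * (7 / 10)) :=
      mul_le_mul (mul_le_mul g6 g3 g0.le one_pos.le)
        (mul_le_mul z1 (by linarith) (by positivity) (by positivity)) (by positivity) (by norm_num)
    rw [g5]; linarith
  have T3 : q * x * (1 + z) ^ 2 * n < n - F * W := by
    have h1 : (q * x * (1 + z) ^ 2 - q) * n ≤ (19 / 40 * (1 + d - F) + d / 4) * n :=
      mul_le_mul_of_nonneg_right (by linarith) n0.le
    have h2 : n ≤ 2 * ((1 - d) * q + d) := by rw [L.hn]; linarith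
    have h3 : n ≤ 3 / 10 := by rw [L.hn]; linarith [mul_nonneg d0 q0.le]
    have h4 : n - F * W = q * n + (1 - q) * ((1 + d - F) * ((1 - d) * q + d) +
        d * (1 - q - ((1 - d) * q + d))) := by rw [L.hn, L.hW]; ring
    have h5 : (1 - d) * q + d ≤ 1 / 6 := by linarith [mul_nonneg d0 q0.le]
    generalize (1 - d) * q + d = la' at *
    have h6 := mul_le_mul_of_nonneg_left h2 (show 0 ≤ 1 + d - F by linarith)
    have h7 := mul_le_mul_of_nonneg_left h3 d0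
    have h8 := mul_nonneg (show 0 ≤ 1 + d - F by linarith) la.le
    have h9 : d * (4 / 5) ≤ d * (1 - q - la') := mul_le_mul_of_nonneg_left (by linarith) d0
    have h10 : 0 < (1 + d - F) * la' + d := by
      rcases i2 with i | i
      · linarith
      · linarith [mul_pos (show 0 < 1 + d - F by linarith) la]
    have h11 := mul_le_mul_of_nonneg_right (show 1005 / 1024 ≤ 1 - q by linarith)
      (show 0 ≤ (1 + d - F) * la' + d * (1 - q - la') by linarith)
    linarith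
  have m0 : 0 < n - F * W := lt_of_le_of_lt (by positivity) T3
  have Z1 : ZR (-d) F (-t) * (n - F * W) ≤ q * x * n := by
    refine le_of_mul_le_mul_left ?_ (mul_pos (show 0 < F by linarith) (pow_pos W0 3))
    have h := L.Z_eq H (by linarith)
    rw [g7] at h
    rw [← mul_assoc, h]
    linarith [mul_nonneg (mul_pos q0 x0).le (sq_nonneg ((n - F * W) * A - W * n))]
  rw [← hz] at S2
  rw [dl, sub_neg, inv_pow, ← one_div, lt_div_iff₀ (by positivity)]
  generalize sS d F (vR (-d) F (-t)) = S at *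
  refine lt_of_mul_lt_mul_right ?_ m0.le
  have S3 : S ^ 3 ≤ (1 + z) ^ 2 := by
    rw [← S2, ← pow_mul]; exact pow_le_pow_right₀ S1 (by norm_num)
  have h1 := mul_le_mul_of_nonneg_left Z1 (show 0 ≤ S ^ 3 by positivity)
  have h2 := mul_le_mul_of_nonneg_left S3 (mul_pos (mul_pos q0 x0) n0).le
  linarith

theorem left_d (d2 : 1 / 8 ≤ d) (F2 : F ≤ 9 / 16) (i1 : d < 1 / 2 ∨ 1 / 2 < F) :
    dl d F (-t) < 0 := by
  obtain ⟨d0, d1, F0, F1⟩ := id H
  have q0 := L.q0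
  have W0 := L.W0 H t4
  have e4 : 4 ≤ e := by
    refine le_trans ?_ (L.e4 t4)
    have h1 := exp_eq_ph ((2 * F - 1) * 4)
    have h2 := add_one_le_exp ((2 * F - 1) * 4)
    rcases F0.eq_or_lt with h | h
    · rw [← h]; simp [ph1_zero]
    · nlinarith
  have w0 : 0 < q * e := mul_pos q0 (by linarith)
  have w1 : q * e ≤ 1 / 8 := by
    have h1 := ph1_le (z := (2 * F - 1) * t) (w := t / 8) (by nlinarith) (by linarith)
    have h2 : q * exp (t / 8) * (exp 3 * exp (1 / 2) * exp (7 / 8 * (t - 4))) = 1 := by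
      rw [L.hq, ← exp_add, ← exp_add, ← exp_add, ← exp_add]; ring_nf; simp
    have h3 := quadratic_le_exp_of_nonneg (x := 1 / 2) (by norm_num)
    have h4 : 32 * (7 / 8 * (t - 4) + 1) ≤ exp 3 * exp (1 / 2) * exp (7 / 8 * (t - 4)) :=
      mul_le_mul (by nlinarith [exp_three]) (add_one_le_exp _) (by linarith) (by positivity)
    have h5 := mul_le_mul_of_nonneg_left h4 (mul_pos q0 (exp_pos (t / 8))).le
    have h6 := mul_le_mul_of_nonneg_left h1 (mul_pos q0 (show 0 < t by linarith)).le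
    have h7 := mul_nonneg (mul_pos q0 (exp_pos (t / 8))).le (sub_nonneg.2 t4)
    rw [L.he]; linarith
  have h0 : 0 ≤ 1 / e := by positivity
  have h1 : 1 / e ≤ 1 / 4 := one_div_le_one_div_of_le (by norm_num) e4
  have hq : q = 1 / e * (q * e) := by field_simp
  have V1 : ∀ x h w : ℝ, outR ZmLd.prog 0 [0, x, h, w] = 0 := fun x h w ↦ by
    rw [ZmLd.eq (F := 1 / 2) (p := h * w) rfl rfl rfl rfl (by ring) (by ring) rfl rfl rfl rfl]
    simp only [mul_zero, sub_zero, div_one, show ∀ y : ℝ, 1 + y - 1 / 2 = 1 / 2 + y from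
      fun y ↦ by ring]
    ring
  have V2 : ∀ h w : ℝ, 0 ≤ h → 0 ≤ w → outR ZmLe.prog 0 [0, h, w] = 0 := fun h w a b ↦ by
    have := mul_nonneg a b
    rw [ZmLe.eq (d := 1 / 2) (j := 2 / (1 + h * w)) (by ring) rfl rfl rfl rfl ?_]
    · field_simp; ring
    · rw [← inv_div, inv_inj, eq_comm, sqrt_eq_iff_mul_self_eq (by nlinarith) (by positivity)]; ring
  have V3 : ∀ x h : ℝ, outR ZmLe.prog 0 [x, h, 0] = 0 := fun x h ↦ by
    rw [ZmLe.eq (q := 0) rfl (by ring) rfl rfl rfl rfl]; ring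
  have P1 := ZmLd.out0 (fun x h w _ _ _ _ _ _ ↦ V1 x h w) (b := F - 1 / 2) (x := 1 / 2 - d)
    (by linarith) (by linarith) (by linarith) (by linarith) h0 h1 w0.le w1
  have P2 := fun a ↦ ZmLe.out0 (fun h w a _ b _ ↦ V2 h w a b) (fun x h _ _ _ _ ↦ V3 x h)
    (x := 1 / 2 - d) (by linarith) (by linarith) h0 h1 w0.le w1 a w0
  have Q1 : 0 ≤ outR ZmLd.prog 0 [F - 1 / 2, 1 / 2 - d, 1 / e, q * e] := by
    rcases F0.eq_or_lt with h | h
    exacts [by rw [← h, sub_self, V1], (P1 (sub_pos.2 h)).le]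
  have Q2 : 0 ≤ outR ZmLe.prog 0 [1 / 2 - d, 1 / e, q * e] := by
    rcases d1.eq_or_lt with h | h
    exacts [by rw [h, sub_self, V2 _ _ h0 w0.le], (P2 (sub_pos.2 h)).le]
  have G : 0 < outR ZmLd.prog 0 [F - 1 / 2, 1 / 2 - d, 1 / e, q * e] +
      outR ZmLe.prog 0 [1 / 2 - d, 1 / e, q * e] := by
    rcases i1 with h | h
    exacts [add_pos_of_nonneg_of_pos Q1 (P2 (sub_pos.2 h)),
      add_pos_of_pos_of_nonneg (P1 (sub_pos.2 h)) Q2]
  have hs := sqrt_eq d F (-t) (-((1 - F) * t)) (x := p + (1 + 2 * d - F) / 3 * (A - W)) (by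
    rw [show 2 * -((1 - F) * t) = -((2 - 2 * F) * t) by ring, ← L.hp, ← L.v_eq]; ring)
  rw [ZmLd.eq (d := d) (F := F) (p := p) (A := A) (by ring) hq L.hW L.hn (by ring)
    (by rw [L.p_eq]; ring) (by
      rw [L.hA, ← L.l_eq, show 1 - 2 * (F - 1 / 2) = 2 - 2 * F by ring,
        mul_div_cancel_left₀ _ (by linarith)]) hs.symm rfl rfl,
    ZmLe.eq (d := d) (by ring) hq L.hW L.hn rfl rfl, sub_add_cancel, neg_neg] at G
  have S1 := LF.S0 (t := t) H
  have k : exp (F * -t) * (p * exp ((1 - F) * t) ^ 3) ≤ 1 := by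
    rw [L.hp, ← exp_nat_mul, ← exp_add, ← exp_add]
    exact exp_le_one_iff.2 (by push_cast; nlinarith)
  have h := L.Z_eq H (by linarith)
  rw [dl, sub_neg]
  have S0 : 0 < (sS d F (vR (-d) F (-t)))⁻¹ := by positivity
  generalize (sS d F (vR (-d) F (-t)))⁻¹ = S at *
  have Fp : 0 < F := by linarith
  refine lt_of_mul_lt_mul_left ?_ (mul_pos Fp (pow_pos W0 3)).le
  have G1 := mul_pos (mul_pos Fp (exp_pos (F * -t))) G
  have G2 : F * ((A - W) ^ 2 * n / F) = (A - W) ^ 2 * n := by field_simp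
  have G3 := mul_le_mul_of_nonneg_left k (show 0 ≤ F * W ^ 3 * S ^ 3 by positivity)
  rw [h]
  linear_combination G1 + G3 + exp (F * -t) * G2

omit L in
theorem tail_left (F2 : F ≤ 17 / 16) (i1 : d < 1 / 2 ∨ 1 / 2 < F) (i2 : 0 < d ∨ F < 1) :
    dl d F (-t) < 0 := by
  have L : LF d F t _ _ _ _ _ _ _ := ⟨rfl, rfl, rfl, rfl, rfl, rfl, rfl⟩
  rcases le_total d (1 / 8) with k | k
  · rcases le_total F (7 / 8) with l | l
    exacts [left_a L H t4 k l, left_c L H t4 k l F2 i2]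
  · rcases le_total F (9 / 16) with l | l
    exacts [left_d L H t4 k l i1, left_b L H t4 k l F2]

end Pool.Agent.Lib.MP_d6150d_an.Zm
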