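import Pool.Agent.Lib.MP_d6150d_an.ZmRbD

/-! A generated chart: the computations. -/

namespace Pool.Agent.Lib.MP_d6150d_an.ZmRb

theorem k0 : chk C 0x881 [(0, 17592186044416), (0, 70368744177664), (0, 109951162777600), (0,
    549755813888), (0, 2199023255552)] = true := by
  decide +kernel

end Pool.Agent.Lib.MP_d6150d_an.ZmRb
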