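import Pool.Agent.Lib.MP_d6150d_an.GMac
import Pool.Agent.Lib.MP_d6150d_an.PpChk
import Pool.Agent.Lib.MP_d6150d_an.ZmRbK0

/-! A generated chart: the inequality. -/

namespace Pool.Agent.Lib.MP_d6150d_an.ZmRb

set_option linter.unnecessarySeqFocus false
set_option linter.unusedTactic false
set_option linter.unusedVariables false

theorem gd : Gd2 C [(0, 17592186044416), (0, 70368744177664), (0, 109951162777600), (0,
    549755813888), (0, 2199023255552)] := chk_sound2 k0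

set_option maxRecDepth 100000 in
theorem eq {x k h r w d b F g l W V i U X j : ℝ} (hd : d = 1 / 2 - x) (hb : b = k * h) (hF : F = 1 /
    2 + b) (hg : g = 1 - 2 * k) (hl : l = (g - r) / (1 - 2 * b)) (hW : W = (1 - r) * (1 - d + d *
    r)) (hV : V = W - (1 - 2 * d) * w - 2 * d * (r * l)) (hi : i = (√(r * g + (1 + 2 * d - F) / 3 *
    V))⁻¹) (hU : U = (1 - r) * (1 + r) / 2) (hX : X = U - r * l) (hj : j = (√(r * g + (2 - F) / 3 *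
    X))⁻¹) : outR prog 0 [x, k, h, r, w] = r * (W * ((2 * d * l) ^ 2 - (g * W * i) ^ 2 * i)) + V ^ 2
    * (1 - 2 * d + 2 * d * r) / F - r * (U * (l ^ 2 - (g * U * j) ^ 2 * j) + X ^ 2 / F) := by
  replace hd : d = (((Int.cast (1) : ℝ) / (Nat.cast 2 : ℝ)) - x) := hd.trans (by push_cast <;> ring)
  replace hb : b = (k * h) := hb.trans (by push_cast <;> ring)
  replace hF : F = (((Int.cast (1) : ℝ) / (Nat.cast 2 : ℝ)) + b) := hF.trans (by push_cast <;> ring)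
  replace hg : g = ((Int.cast (1) : ℝ) - ((Int.cast (2) : ℝ) * k)) := hg.trans (by push_cast <;>
    ring)
  replace hl : l = ((g - r) * ((Int.cast (1) : ℝ) - ((Int.cast (2) : ℝ) * b))⁻¹) := hl.trans (by
    push_cast <;> ring)
  replace hW : W = (((Int.cast (1) : ℝ) - r) * (((Int.cast (1) : ℝ) - d) + (d * r))) := hW.trans (by
    push_cast <;> ring)
  replace hV : V = ((W - (((Int.cast (1) : ℝ) - ((Int.cast (2) : ℝ) * d)) * w)) - (((Int.cast (2) :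
    ℝ) * d) * (r * l))) := hV.trans (by push_cast <;> ring)
  replace hi : i = (√((r * g) + ((((Int.cast (1) : ℝ) / (Nat.cast 3 : ℝ)) * (((Int.cast (1) : ℝ) +
    ((Int.cast (2) : ℝ) * d)) - F)) * V)))⁻¹ := hi.trans (congrArg (fun x : ℝ ↦ (√x)⁻¹) (by
    push_cast <;> ring))
  replace hU : U = (((Int.cast (1) : ℝ) / (Nat.cast 2 : ℝ)) * (((Int.cast (1) : ℝ) - r) * ((Int.cast
    (1) : ℝ) + r))) := hU.trans (by push_cast <;> ring)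
  replace hX : X = (U - (r * l)) := hX.trans (by push_cast <;> ring)
  replace hj : j = (√((r * g) + ((((Int.cast (1) : ℝ) / (Nat.cast 3 : ℝ)) * ((Int.cast (2) : ℝ) -
    F)) * X)))⁻¹ := hj.trans (congrArg (fun x : ℝ ↦ (√x)⁻¹) (by push_cast <;> ring))
  have e0 : (((r * (W * (((((Int.cast (2) : ℝ) * d) * l) * (((Int.cast (2) : ℝ) * d) * l)) - ((((g *
    W) * i) * ((g * W) * i)) * i)))) + (((V * V) * (((Int.cast (1) : ℝ) - ((Int.cast (2) : ℝ) * d))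
    + (((Int.cast (2) : ℝ) * d) * r))) * F⁻¹)) - (r * ((U * ((l * l) - ((((g * U) * j) * ((g * U) *
    j)) * j))) + ((X * X) * F⁻¹)))) = r * (W * ((2 * d * l) ^ 2 - (g * W * i) ^ 2 * i)) + V ^ 2 * (1
    - 2 * d + 2 * d * r) / F - r * (U * (l ^ 2 - (g * U * j) ^ 2 * j) + X ^ 2 / F) := by push_cast
    <;> ring
  subst hd hb hF hg hl hW hV hi hU hX hj
  exact Eq.trans rfl e0

theorem l0 : ((0 : ℤ) : ℝ) / 2 ^ 47 = 0 := by norm_num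
theorem u0 : (1 / 8 : ℝ) = ((17592186044416 : ℤ) : ℝ) / 2 ^ 47 := by norm_num
theorem l1 : ((0 : ℤ) : ℝ) / 2 ^ 47 = 0 := by norm_num
theorem u1 : (1 / 2 : ℝ) = ((70368744177664 : ℤ) : ℝ) / 2 ^ 47 := by norm_num
theorem l2 : ((0 : ℤ) : ℝ) / 2 ^ 47 = 0 := by norm_num
theorem u2 : (25 / 32 : ℝ) = ((109951162777600 : ℤ) : ℝ) / 2 ^ 47 := by norm_num
theorem l3 : ((0 : ℤ) : ℝ) / 2 ^ 47 = 0 := by norm_num
theorem u3 : (1 / 256 : ℝ) = ((549755813888 : ℤ) : ℝ) / 2 ^ 47 := by norm_num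
theorem l4 : ((0 : ℤ) : ℝ) / 2 ^ 47 = 0 := by norm_num
theorem u4 : (1 / 64 : ℝ) = ((2199023255552 : ℤ) : ℝ) / 2 ^ 47 := by norm_num

theorem out0 (V0 : ∀ k h r w : ℝ, 0 ≤ k → k ≤ 1 / 2 → 0 ≤ h → h ≤ 25 / 32 → 0 ≤ r → r ≤ 1 / 256 → 0
    ≤ w → w ≤ 1 / 64 → outR prog 0 [0, k, h, r, w] = 0) {x k h r w : ℝ} (a0 : 0 ≤ x) (b0 : x ≤ 1 /
    8) (a1 : 0 ≤ k) (b1 : k ≤ 1 / 2) (a2 : 0 ≤ h) (b2 : h ≤ 25 / 32) (a3 : 0 ≤ r) (b3 : r ≤ 1 / 256)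
    (a4 : 0 ≤ w) (b4 : w ≤ 1 / 64) (p0 : 0 < x) : 0 < outR prog 0 [x, k, h, r, w] :=
  gd 0 (by decide) [x, k, h, r, w] (.cons ⟨l0.le.trans a0, b0.trans u0.le⟩ (.cons ⟨l1.le.trans a1,
    b1.trans u1.le⟩ (.cons ⟨l2.le.trans a2, b2.trans u2.le⟩ (.cons ⟨l3.le.trans a3, b3.trans u3.le⟩
    (.cons ⟨l4.le.trans a4, b4.trans u4.le⟩ (.nil)))))) ⟨fun _ ↦ p0, nofun, nofun, nofun, nofun,
    trivial⟩ (nofun) (List.forall_mem_nil _) (⟨fun _ y1 a1 b1 y2 a2 b2 y3 a3 b3 y4 a4 b4 ↦ V0 y1 y2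
    y3 y4 (l1.ge.trans a1) (b1.trans u1.ge) (l2.ge.trans a2) (b2.trans u2.ge) (l3.ge.trans a3)
    (b3.trans u3.ge) (l4.ge.trans a4) (b4.trans u4.ge), fun _ _ _ ↦ Van.of0 rfl⟩) (nofun)

end Pool.Agent.Lib.MP_d6150d_an.ZmRb
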