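import Pool.Agent.Lib.MP_d6150d_an.GMac
import Pool.Agent.Lib.MP_d6150d_an.PpChk
import Pool.Agent.Lib.MP_d6150d_an.ZmRcK0

/-! A generated chart: the inequality. -/

namespace Pool.Agent.Lib.MP_d6150d_an.ZmRc

set_option linter.unnecessarySeqFocus false
set_option linter.unusedTactic false
set_option linter.unusedVariables false

theorem gd : Gd2 C [(0, 70368744177664), (0, 109951162777600), (0, 549755813888)] := chk_sound2 k0

set_option maxRecDepth 100000 in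
theorem eq {k h r b F g l U X j : ℝ} (hb : b = k * h) (hF : F = 1 / 2 + b) (hg : g = 1 - 2 * k) (hl
    : l = (g - r) / (1 - 2 * b)) (hU : U = (1 - r) * (1 + r) / 2) (hX : X = U - r * l) (hj : j =
    (√(r * g + (2 - F) / 3 * X))⁻¹) : outR prog 0 [k, h, r] = U * (l ^ 2 - (g * U * j) ^ 2 * j) + X
    ^ 2 / F := by
  replace hb : b = (k * h) := hb.trans (by push_cast <;> ring)
  replace hF : F = (((Int.cast (1) : ℝ) / (Nat.cast 2 : ℝ)) + b) := hF.trans (by push_cast <;> ring)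
  replace hg : g = ((Int.cast (1) : ℝ) - ((Int.cast (2) : ℝ) * k)) := hg.trans (by push_cast <;>
    ring)
  replace hl : l = ((g - r) * ((Int.cast (1) : ℝ) - ((Int.cast (2) : ℝ) * b))⁻¹) := hl.trans (by
    push_cast <;> ring)
  replace hU : U = (((Int.cast (1) : ℝ) / (Nat.cast 2 : ℝ)) * (((Int.cast (1) : ℝ) - r) * ((Int.cast
    (1) : ℝ) + r))) := hU.trans (by push_cast <;> ring)
  replace hX : X = (U - (r * l)) := hX.trans (by push_cast <;> ring)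
  replace hj : j = (√((r * g) + ((((Int.cast (1) : ℝ) / (Nat.cast 3 : ℝ)) * ((Int.cast (2) : ℝ) -
    F)) * X)))⁻¹ := hj.trans (congrArg (fun x : ℝ ↦ (√x)⁻¹) (by push_cast <;> ring))
  have e0 : ((U * ((l * l) - ((((g * U) * j) * ((g * U) * j)) * j))) + ((X * X) * F⁻¹)) = U * (l ^ 2
    - (g * U * j) ^ 2 * j) + X ^ 2 / F := by push_cast <;> ring
  subst hb hF hg hl hU hX hj
  exact Eq.trans rfl e0

theorem l0 : ((0 : ℤ) : ℝ) / 2 ^ 47 = 0 := by norm_num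
theorem u0 : (1 / 2 : ℝ) = ((70368744177664 : ℤ) : ℝ) / 2 ^ 47 := by norm_num
theorem l1 : ((0 : ℤ) : ℝ) / 2 ^ 47 = 0 := by norm_num
theorem u1 : (25 / 32 : ℝ) = ((109951162777600 : ℤ) : ℝ) / 2 ^ 47 := by norm_num
theorem l2 : ((0 : ℤ) : ℝ) / 2 ^ 47 = 0 := by norm_num
theorem u2 : (1 / 256 : ℝ) = ((549755813888 : ℤ) : ℝ) / 2 ^ 47 := by norm_num

theorem out0 (V0 : ∀ h r : ℝ, 0 ≤ h → h ≤ 25 / 32 → 0 ≤ r → r ≤ 1 / 256 → outR prog 0 [0, h, r] = 0)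
    {k h r : ℝ} (a0 : 0 ≤ k) (b0 : k ≤ 1 / 2) (a1 : 0 ≤ h) (b1 : h ≤ 25 / 32) (a2 : 0 ≤ r) (b2 : r ≤
    1 / 256) (p0 : 0 < k) : 0 < outR prog 0 [k, h, r] :=
  gd 0 (by decide) [k, h, r] (.cons ⟨l0.le.trans a0, b0.trans u0.le⟩ (.cons ⟨l1.le.trans a1,
    b1.trans u1.le⟩ (.cons ⟨l2.le.trans a2, b2.trans u2.le⟩ (.nil)))) ⟨fun _ ↦ p0, nofun, nofun,
    trivial⟩ (nofun) (List.forall_mem_nil _) (⟨fun _ y1 a1 b1 y2 a2 b2 ↦ V0 y1 y2 (l1.ge.trans a1)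
    (b1.trans u1.ge) (l2.ge.trans a2) (b2.trans u2.ge), fun _ _ _ ↦ Van.of0 rfl⟩) (nofun)

end Pool.Agent.Lib.MP_d6150d_an.ZmRc
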