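import Pool.Agent.Lib.MP_d6150d_an.Zm0
import Pool.Agent.Lib.MP_d6150d_an.ZmRb
import Pool.Agent.Lib.MP_d6150d_an.ZmRc

/-! The square where the period decreases: the right tail. -/

namespace Pool.Agent.Lib.MP_d6150d_an.Zm

open Real Set

variable {d F t : ℝ}

theorem v_low (H : Adm d F) (t0 : 0 ≤ t) : 2 * (1 - d) * (exp t - 1 - t) ≤ vR (-d) F t := by
  obtain ⟨d0, d1, F0, F1⟩ := H
  have D : ∀ s, HasDerivAt (fun s ↦ vR (-d) F s - 2 * (1 - d) * (exp s - 1 - s))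
      (WR (-d) F s - 2 * (1 - d) * (exp s - 1)) s := fun s ↦
    (hasDerivAt_vR _ F s).sub ((((hasDerivAt_exp s).sub_const 1).sub (hasDerivAt_id s)).const_mul _)
  have := monotoneOn_of_deriv_nonneg (convex_Ici 0)
    (fun s _ ↦ (D s).continuousAt.continuousWithinAt)
    (fun s _ ↦ (D s).differentiableAt.differentiableWithinAt) (fun s hs ↦ by
      have s0 : 0 ≤ s := interior_subset hs
      have h1 := sub_nonneg.2 (one_le_exp s0)
      have h2 : 1 ≤ exp ((2 * F - 2) * s) * exp s := by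
        rw [← exp_a2]; exact one_le_exp (mul_nonneg (by linarith) s0)
      rw [(D s).deriv, WR, om]
      linarith [mul_le_mul_of_nonneg_left h2 (mul_nonneg h1 (show 0 ≤ 1 - d by linarith)),
        mul_nonneg (mul_nonneg h1 d0) (exp_pos ((2 * F - 2) * s)).le]) self_mem_Ici t0 t0
  simp only [vR] at this ⊢
  simp at this
  linarith

theorem w_pos (H : Adm d F) (t0 : 0 < t) : 0 < wR (-d) t := by
  rw [wR_eq]; exact mul_pos (sub_pos.2 (one_lt_exp_iff.2 t0)) (H.mem t)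

/-- the criterion obtained by minimizing the quadratic form -/
theorem of_min (H : Adm d F) (t0 : 0 < t)
    (h : F * wR (-d) t + ((1 - 2 * d) * exp t + 2 * d) <
      sS d F (vR (-d) F t) ^ 3 * exp (F * t) * ((1 - 2 * d) * exp t + 2 * d)) : 0 < dl d F t := by
  have hz := Z_id (F := F) (H.mem t) t0.ne'
  have w0 := w_pos H t0
  have S1 := one_le_sS H.c0 (v_nonneg (F := F) (H.mem t))
  have F0 : 0 < F := by linarith [H.F0]
  have N0 : 0 ≤ (1 - 2 * d) * exp t + 2 * d :=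
    add_nonneg (mul_nonneg (by linarith [H.d1]) (exp_pos t).le) (by linarith [H.d0])
  rw [← a_eq] at hz
  rw [dl, sub_pos, inv_pow, ← one_div, div_lt_iff₀ (by positivity)]
  generalize (1 - 2 * d) * exp t + 2 * d = N, sS d F (vR (-d) F t) = S, wR (-d) t = w,
    yR (-d) F t = y, ZR (-d) F t = Z at *
  have h1 : exp (F * t) * N ≤ Z * (F * w + N) := by
    refine le_of_mul_le_mul_left ?_ (mul_pos F0 (pow_pos w0 3))
    linear_combination -F * (F * w + N) * hz + mul_nonneg (exp_pos (F * t)).le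
      (sq_nonneg (F * w * (w - 2 * F * y) - N * (2 * F * y)))
  refine lt_of_mul_lt_mul_right ?_ (show 0 ≤ F * w + N by positivity)
  linarith [mul_le_mul_of_nonneg_left h1 (show 0 ≤ S ^ 3 by positivity)]

theorem half_bounds (t4 : 4 ≤ t) : 7.38 ≤ exp (t / 2) ∧ t ≤ 0.55 * exp (t / 2) ∧
    (6 ≤ t → 20 ≤ exp (t / 2)) ∧ exp t = exp (t / 2) ^ 2 := by
  have h1 : exp (t / 2) = exp 2 * exp (t / 2 - 2) := by rw [← exp_add]; ring_nf
  have h2 : 7.38 * (t / 2 - 2 + 1) ≤ exp (t / 2) :=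
    h1 ▸ mul_le_mul exp_two (add_one_le_exp _) (by linarith) (exp_pos _).le
  exact ⟨by linarith, by linarith, fun h ↦ exp_three.trans (exp_le_exp.2 (by linarith)),
    by rw [sq, ← exp_add]; ring_nf⟩

theorem right_a (H : Adm d F) (i2 : 0 < d ∨ F < 1)
    (h : (4 ≤ t ∧ d ≤ 1 / 16) ∨ (6 ≤ t ∧ d ≤ 3 / 8)) : 0 < dl d F t := by
  obtain ⟨d0, d1, F0, F1⟩ := id H
  have t4 : 4 ≤ t := h.elim And.left fun h ↦ by linarith [h.1]
  have d2 : d ≤ 3 / 8 := h.elim (fun h ↦ by linarith [h.2]) And.right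
  obtain ⟨s1, s2, s3, s4⟩ := half_bounds t4
  refine of_min H (by linarith) ?_
  have v1 := v_low H (show 0 ≤ t by linarith)
  have v0 := v_nonneg (F := F) (H.mem t)
  have S1 := one_le_sS H.c0 v0
  have S2 := sS_sq H.c0 v0
  have x1 : exp (F * t) * exp ((1 - F) * t) = exp t := by rw [← exp_add]; ring_nf
  have x0 := exp_pos ((1 - F) * t)
  have x2 : 0 ≤ 1 - F → exp ((1 - F) * t) ≤ 1 + 2 * (1 - F) * (exp (t / 2) - 1) := fun k ↦ by
    have := cvx (θ := 2 * (1 - F)) (by linarith) (by linarith) (t / 2)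
    rw [show 2 * (1 - F) * (t / 2) = (1 - F) * t by ring] at this
    linarith
  have x3 : 1 - F ≤ 0 → exp ((1 - F) * t) ≤ 1 := fun k ↦
    exp_le_one_iff.2 (mul_nonpos_of_nonpos_of_nonneg k (by linarith))
  rw [wR_eq, om]
  generalize sS d F (vR (-d) F t) = S at *
  generalize vR (-d) F t = v, exp (t / 2) = s, exp ((1 - F) * t) = x, exp (F * t) = y,
    exp t = u at *
  obtain ⟨M, hM⟩ : ∃ M, M = s ^ 2 - 1 - 0.55 * s := ⟨_, rfl⟩
  have M1 : 6.94 * (s - 1) ≤ M := by nlinarith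
  have K1 : 1 + F * (1 - d) * ((1 + 2 * d - F) * M) ≤ S ^ 3 := by
    have a1 : 2 * (1 - d) * M ≤ v :=
      le_trans (mul_le_mul_of_nonneg_left (by linarith) (by linarith)) v1
    linarith [mul_le_mul_of_nonneg_left a1 H.c0,
      mul_nonneg (sq_nonneg (S - 1)) (show 0 ≤ 2 * S + 1 by linarith)]
  have M0 : 0 ≤ (1 + 2 * d - F) * M := mul_nonneg (by linarith) (by linarith)
  have K2 : x * (1 + 10 * d) < S ^ 3 := by
    refine lt_of_lt_of_le ?_ K1
    rcases le_total (1 - F) 0 with k | k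
    · have a1 : 5 / 8 ≤ F * (1 - d) := by nlinarith
      have a2 : d * 44 ≤ (1 + 2 * d - F) * M :=
        mul_le_mul (by linarith) (by linarith) (by norm_num) (by linarith)
      have a3 : 0 < d := i2.resolve_right (by linarith)
      linarith [mul_le_mul_of_nonneg_right a1 M0,
        mul_le_mul_of_nonneg_right (x3 k) (show 0 ≤ 1 + 10 * d by linarith)]
    have a0 := mul_le_mul_of_nonneg_right (x2 k) (show 0 ≤ 1 + 10 * d by linarith)
    have a4 : 0 < (1 - F) * (s - 1) + d := by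
      rcases i2 with i | i
      · linarith [mul_nonneg k (show 0 ≤ s - 1 by linarith)]
      · linarith [mul_pos (sub_pos.2 i) (show 0 < s - 1 by linarith)]
    have a5 := mul_nonneg k (show 0 ≤ s - 1 by linarith)
    rcases h with h | h
    · have a1 : 15 / 32 ≤ F * (1 - d) := by nlinarith [h.2]
      linarith [mul_le_mul_of_nonneg_right a1 M0, mul_le_mul_of_nonneg_left M1 k,
        mul_le_mul_of_nonneg_left (show 44 ≤ M by linarith) d0, mul_le_mul_of_nonneg_left h.2 a5]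
    · have a1 : 5 / 16 ≤ F * (1 - d) := by nlinarith [h.2]
      have M2 : 17 * s ≤ M := by nlinarith [s3 h.1]
      linarith [mul_le_mul_of_nonneg_right a1 M0, mul_le_mul_of_nonneg_left M1 k,
        mul_le_mul_of_nonneg_left M2 d0, mul_le_mul_of_nonneg_left (show 1 - F ≤ 1 / 2 by linarith)
        (mul_nonneg d0 (show 0 ≤ s - 1 by linarith)), mul_le_mul_of_nonneg_left s1 d0]
  have u1 : 1 ≤ u := by nlinarith
  have N1 : u / 4 ≤ (1 - 2 * d) * u + 2 * d := by nlinarith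
  have B : F * ((u - 1) * ((1 + -d) * u - -d)) + ((1 - 2 * d) * u + 2 * d) ≤
      (1 + 10 * d) * (u * ((1 - 2 * d) * u + 2 * d)) := by
    have b1 := mul_le_mul_of_nonneg_left N1 (mul_nonneg d0 (show 0 ≤ u by linarith))
    have b2 := mul_le_mul_of_nonneg_left F1 (mul_nonneg (sub_nonneg.2 u1) (show 0 ≤ u by linarith))
    have b3 := mul_le_mul_of_nonneg_left F0 (mul_nonneg d0 (sq_nonneg (u - 1)))
    have b4 := mul_le_mul_of_nonneg_left u1 d0
    linarith
  generalize (1 - 2 * d) * u + 2 * d = N at *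
  refine lt_of_le_of_lt B (lt_of_mul_lt_mul_left ?_ x0.le)
  have := mul_lt_mul_of_pos_right K2 (show 0 < u * N by nlinarith)
  linear_combination this - S ^ 3 * N * x1

theorem right_c (H : Adm d F) (d2 : 3 / 8 ≤ d) (F2 : 7 / 8 ≤ F) (F3 : F ≤ 17 / 16) (t6 : 6 ≤ t) :
    0 < dl d F t := by
  obtain ⟨d0, d1, F0, F1⟩ := id H
  obtain ⟨-, s2, s3, s4⟩ := half_bounds (show 4 ≤ t by linarith)
  replace s3 := s3 t6
  refine of_min H (by linarith) ?_
  have v1 := v_low H (show 0 ≤ t by linarith)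
  have v0 := v_nonneg (F := F) (H.mem t)
  have S1 := one_le_sS H.c0 v0
  have S2 := sS_sq H.c0 v0
  have y1 : exp (t / 2) * 7.38 ≤ exp (F * t) :=
    (mul_le_mul_of_nonneg_left exp_two (exp_pos _).le).trans (by
      rw [← exp_add]; exact exp_le_exp.2 (by nlinarith))
  rw [wR_eq, om]
  have y0 := exp_pos (F * t)
  generalize sS d F (vR (-d) F t) = S at *
  generalize vR (-d) F t = v, exp (t / 2) = s, exp (F * t) = y, exp t = u at *
  have a1 : 0.97 * u ≤ u - 1 - t := by nlinarith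
  have a2 : 0.97 * u ≤ v := by nlinarith
  have a3 : 0.24 ≤ F * (1 + 2 * d - F) / 3 := by nlinarith
  have a4 : 0.48 * s ≤ S := by
    refine le_of_sq_le_sq ?_ (by linarith)
    nlinarith [mul_le_mul_of_nonneg_right a3 v0]
  have a5 : (0.48 * s) ^ 3 * (s * 7.38) ≤ S ^ 3 * y :=
    mul_le_mul (pow_le_pow_left₀ (by linarith) a4 3) y1 (by linarith) (by positivity)
  have u1 : 400 ≤ u := by nlinarith
  have a6 : (u - 1) * ((1 + -d) * u - -d) ≤ 5 / 8 * u ^ 2 := by nlinarith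
  have a7 : 0 ≤ (u - 1) * ((1 + -d) * u - -d) := mul_nonneg (by linarith) (by nlinarith)
  have a8 := mul_le_mul_of_nonneg_right F3 a7
  have a9 : 0.8 * u ^ 2 ≤ S ^ 3 * y := by rw [s4]; nlinarith [pow_pos (show 0 < s by linarith) 4]
  have N1 : 1 ≤ (1 - 2 * d) * u + 2 * d := by nlinarith
  have a10 : 160000 ≤ u ^ 2 := by nlinarith
  linarith [mul_le_mul_of_nonneg_left N1 (show 0 ≤ S ^ 3 * y - 1 by linarith)]

theorem right_b (H : Adm d F) (d2 : 3 / 8 ≤ d) (F2 : F ≤ 7 / 8) (t6 : 6 ≤ t)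
    (i1 : d < 1 / 2 ∨ 1 / 2 < F) : 0 < dl d F t := by
  obtain ⟨d0, d1, F0, F1⟩ := id H
  have t0 : 0 < t := by linarith
  have Fp : 0 < F := by linarith
  obtain ⟨r, hr⟩ : ∃ r, r = exp (-t) := ⟨_, rfl⟩
  obtain ⟨g, hg⟩ : ∃ g, g = exp (-((2 * F - 1) * t)) := ⟨_, rfl⟩
  obtain ⟨w, hw⟩ : ∃ w, w = r * (t * ph1 (-((2 * F - 1) * t))) := ⟨_, rfl⟩
  obtain ⟨l, hl⟩ : ∃ l, l = r * (t * ph1 ((2 - 2 * F) * t)) := ⟨_, rfl⟩
  obtain ⟨W, hW⟩ : ∃ W, W = (1 - r) * (1 - d + d * r) := ⟨_, rfl⟩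
  obtain ⟨V, hV⟩ : ∃ V, V = W - (1 - 2 * d) * w - 2 * d * (r * l) := ⟨_, rfl⟩
  have r0 : 0 < r := hr ▸ exp_pos _
  have g0 : 0 < g := hg ▸ exp_pos _
  have e1 : r * exp t = 1 := by rw [hr, ← exp_add]; simp
  have e3 : r * exp ((2 - 2 * F) * t) = g := by rw [hr, hg, ← exp_add]; ring_nf
  have e4 : exp (F * t) ^ 4 * (r * g) ^ 2 = 1 := by
    rw [hr, hg, ← exp_add, ← exp_nat_mul, ← exp_nat_mul, ← exp_add]; push_cast; ring_nf; simp
  have u1 : 400 * (t - 6 + 1) ≤ exp t := by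
    rw [show exp t = exp 3 * exp 3 * exp (t - 6) by rw [← exp_add, ← exp_add]; ring_nf]
    exact mul_le_mul (by nlinarith [exp_three]) (add_one_le_exp _) (by linarith) (by positivity)
  have r2 := mul_le_mul_of_nonneg_left u1 r0.le
  have r3 := mul_le_mul_of_nonneg_left t6 r0.le
  have r1 : r ≤ 1 / 256 := by linarith
  have p3 := ph1_pos (-((2 * F - 1) * t))
  have p4 := ph1_pos ((2 - 2 * F) * t)
  have w0 : 0 ≤ w := by rw [hw]; positivity
  have l0 : 0 ≤ l := by rw [hl]; positivity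
  have w1 : w ≤ 1 / 64 := by
    have := ph1_le (z := -((2 * F - 1) * t)) (w := 0) (by nlinarith) le_rfl
    rw [exp_zero] at this
    linarith [mul_le_mul_of_nonneg_left this (mul_pos r0 t0).le]
  have g1 : 64 / 25 * (F - 1 / 2) ≤ 1 - g := by
    have a1 := cvx (θ := 8 / 3 * (F - 1 / 2)) (by linarith) (by linarith) (-(9 / 2))
    have a2 : g ≤ exp (8 / 3 * (F - 1 / 2) * -(9 / 2)) := hg ▸ exp_le_exp.2 (by nlinarith)
    have a3 : exp (-(9 / 2)) * (exp 3 * exp (3 / 2)) = 1 := by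
      rw [← exp_add, ← exp_add]; norm_num
    have a4 : 20 * (3 / 2 + 1) ≤ exp 3 * exp (3 / 2) :=
      mul_le_mul exp_three (add_one_le_exp _) (by norm_num) (exp_pos _).le
    have a5 : exp (-(9 / 2)) ≤ 1 / 25 := by nlinarith [exp_pos (-(9 / 2))]
    linarith [mul_le_mul_of_nonneg_left a5 (show 0 ≤ F - 1 / 2 by linarith)]
  obtain ⟨h, h0, h1, hh⟩ : ∃ h, 0 ≤ h ∧ h ≤ 25 / 32 ∧ F - 1 / 2 = (1 - g) / 2 * h := by
    rcases F0.eq_or_lt with k | k
    · exact ⟨0, le_rfl, by norm_num, by rw [← k]; ring⟩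
    · have : 0 < (1 - g) / 2 := by linarith
      exact ⟨(F - 1 / 2) / ((1 - g) / 2), div_nonneg (by linarith) this.le,
        by rw [div_le_iff₀ this]; linarith, (mul_div_cancel₀ _ this.ne').symm⟩
  have hl' : l = (g - r) / (1 - 2 * (F - 1 / 2)) := by
    rw [eq_div_iff (by linarith), hl]
    linear_combination e3 - r * exp_eq_ph ((2 - 2 * F) * t)
  have V1 : ∀ k h r w : ℝ, outR ZmRb.prog 0 [0, k, h, r, w] = 0 := fun k h r w ↦ by
    rw [ZmRb.eq (d := 1 / 2) (W := (1 - r) * (1 + r) / 2)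
      (V := (1 - r) * (1 + r) / 2 - r * ((1 - 2 * k - r) / (1 - 2 * (k * h)))) (by ring) rfl rfl rfl
      rfl (by ring) (by ring) rfl rfl rfl rfl, show (1 : ℝ) + 2 * (1 / 2) = 2 by ring]
    ring
  have V2 : ∀ h r : ℝ, 0 ≤ r → outR ZmRc.prog 0 [0, h, r] = 0 := fun h r a ↦ by
    rw [ZmRc.eq (b := 0) (F := 1 / 2) (g := 1) (l := 1 - r) (j := 2 / (1 + r)) (by ring) (by ring)
      (by ring) (by ring) rfl rfl ?_]
    · field_simp; ring
    · rw [← inv_div, inv_inj, eq_comm, sqrt_eq_iff_mul_self_eq (by nlinarith) (by positivity)]; ring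
  have k0 : 0 ≤ (1 - g) / 2 := by linarith
  have k1 : (1 - g) / 2 ≤ 1 / 2 := by linarith
  have P1 := ZmRb.out0 (fun k h r w _ _ _ _ _ _ _ _ ↦ V1 k h r w) (x := 1 / 2 - d)
    (by linarith) (by linarith) k0 k1 h0 h1 r0.le r1 w0 w1
  have P2 := ZmRc.out0 (fun h r _ _ a _ ↦ V2 h r a) k0 k1 h0 h1 r0.le r1
  have Q1 : 0 ≤ outR ZmRb.prog 0 [1 / 2 - d, (1 - g) / 2, h, r, w] := by
    rcases d1.eq_or_lt with k | k
    exacts [by rw [k, sub_self, V1], (P1 (sub_pos.2 k)).le]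
  have Q2 : 0 ≤ outR ZmRc.prog 0 [(1 - g) / 2, h, r] := by
    rcases k0.eq_or_lt with k | k
    exacts [by rw [← k, V2 _ _ r0.le], (P2 k).le]
  have G : 0 < outR ZmRb.prog 0 [1 / 2 - d, (1 - g) / 2, h, r, w] +
      r * outR ZmRc.prog 0 [(1 - g) / 2, h, r] := by
    rcases i1 with k | k
    exacts [add_pos_of_pos_of_nonneg (P1 (sub_pos.2 k)) (mul_nonneg r0.le Q2),
      add_pos_of_nonneg_of_pos Q1 (mul_pos r0 (P2 (by linarith)))]
  have w2 : W = r ^ 2 * wR (-d) t := by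
    rw [wR_eq, om, hW]; linear_combination -((1 - d) * (r * exp t + 1) - (1 - 2 * d) * r) * e1
  have a2 : (1 - 2 * d) * w + 2 * d * (r * l) = r ^ 2 * aZ d F t := by
    rw [aZ, hw, hl]; linear_combination -r * (1 - 2 * d) * t * ph1 (-((2 * F - 1) * t)) * e1
  have y2 : V = r ^ 2 * (2 * F * yR (-d) F t) := by
    linear_combination hV + w2 - a2 + r ^ 2 * a_eq (d := d) (F := F) t
  have hs := sqrt_eq d F t (-(F * t)) (x := r * g + (1 + 2 * d - F) / 3 * V) (by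
    rw [y2, yR, show exp (2 * -(F * t)) = r * g by rw [hr, hg, ← exp_add]; ring_nf]
    linear_combination (1 + 2 * d - F) / 3 * F * vR (-d) F t * r * e3)
  rw [ZmRb.eq (d := d) (F := F) (g := g) (by ring) hh (by ring) (by ring) hl' hW hV hs.symm rfl
    rfl rfl, ZmRc.eq (F := F) (g := g) hh (by ring) (by ring) hl' rfl rfl rfl, sub_add_cancel,
    neg_neg] at G
  have hz := Z_id (F := F) (H.mem t) t0.ne'
  have W0 : 0 < W := w2 ▸ mul_pos (pow_pos r0 2) (w_pos H t0)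
  have z1 : F * W ^ 3 * ZR (-d) F t = exp (F * t) * (F * W * ((1 - 2 * d) * w + 2 * d * (r * l)) ^ 2 +
      V ^ 2 * (r * (1 - 2 * d + 2 * d * r))) := by
    rw [a2, y2, w2]
    linear_combination F * r ^ 6 * hz +
      exp (F * t) * 4 * F ^ 2 * yR (-d) F t ^ 2 * r ^ 5 * (1 - 2 * d) * e1
  have z2 : (2 * d * (r * l)) ^ 2 ≤ ((1 - 2 * d) * w + 2 * d * (r * l)) ^ 2 :=
    pow_le_pow_left₀ (by positivity) (le_add_of_nonneg_left (mul_nonneg (by linarith) w0)) 2
  rw [dl, sub_pos]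
  generalize (sS d F (vR (-d) F t))⁻¹ = S at *
  have y0 := exp_pos (F * t)
  refine lt_of_mul_lt_mul_left ?_ (mul_pos Fp (pow_pos W0 3)).le
  have G1 := mul_pos (mul_pos (mul_pos Fp y0) r0) G
  have G2 : F * (V ^ 2 * (1 - 2 * d + 2 * d * r) / F) = V ^ 2 * (1 - 2 * d + 2 * d * r) := by
    field_simp
  have G3 := mul_le_mul_of_nonneg_left z2 (mul_pos (mul_pos y0 Fp) W0).le
  rw [z1]
  linear_combination G1 + G3 + exp (F * t) * r * G2 - F * W ^ 3 * S ^ 3 * e4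

end Pool.Agent.Lib.MP_d6150d_an.Zm
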