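import Pool.Agent.Lib.MP_d6150d_an.Zm1
import Pool.Agent.Lib.MP_d6150d_an.Zm2
import Pool.Agent.Lib.MP_d6150d_an.Zm3
import Pool.Agent.Lib.MP_d6150d_an.Blue

/-! The square where the period decreases. -/

namespace Pool.Agent.Lib.MP_d6150d_an

namespace Zm

variable {d F t : ℝ} (H : Adm d F) (F2 : F ≤ 17 / 16) (i1 : d < 1 / 2 ∨ 1 / 2 < F)
  (i2 : 0 < d ∨ F < 1)
include H F2 i1 i2

theorem right (t0 : 0 < t) : 0 < dl d F t := by
  rcases le_total t 4 with k | k
  · exact core_right H F2 i1 i2 t0 (Or.inl k)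
  rcases le_total d (1 / 16) with l | l
  · exact right_a H i2 (Or.inl ⟨k, l⟩)
  rcases le_total t 6 with k | k
  · exact core_right H F2 i1 i2 t0 (Or.inr ⟨k, l⟩)
  rcases le_total d (3 / 8) with l | l
  · exact right_a H i2 (Or.inr ⟨k, l⟩)
  rcases le_total F (7 / 8) with m | m
  exacts [right_b H l m k i1, right_c H l m F2 k]

theorem left (t0 : t < 0) : dl d F t < 0 := by
  rw [← neg_neg t]
  rcases le_total (-t) 4 with k | k
  exacts [core_left H F2 i1 i2 (neg_pos.2 t0) k, tail_left H k F2 i1 i2]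

theorem noThree : NoThree (-d) F :=
  noThree_sep (by linarith [H.F0]) (-1) (fun v ↦ (sS d F v)⁻¹ ^ 3) fun t _ h0 ↦ by
    rcases lt_or_gt_of_ne h0 with k | k
    · have := mul_pos_of_neg_of_neg k (left H F2 i1 i2 k)
      rw [dl] at this; linarith
    · have := mul_pos k (right H F2 i1 i2 k)
      rw [dl] at this; linarith

end Zm

theorem Zm_holds : St_Zm := fun D F d0 d1 F0 F1 F2 i1 i2 ↦ by
  have := Zm.noThree (d := -D) (F := F) ⟨by linarith, by linarith, F0, by linarith⟩ F1
    (by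
      by_contra h
      push Not at h
      exact i1 ⟨by linarith [h.1], by linarith [h.2]⟩)
    (by
      by_contra h
      push Not at h
      exact i2 ⟨by linarith [h.1], by linarith [h.1, h.2]⟩)
  rwa [neg_neg] at this

end Pool.Agent.Lib.MP_d6150d_an
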