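import Pool.Agent.Lib.MP_d6150d_an.ZpLD

/-! A generated chart: the computations. -/

namespace Pool.Agent.Lib.MP_d6150d_an.ZpL

theorem k0 : chk C 0xa8818208188080880808128821088018801aa088110a88010 [(-131941395333120,
    13194139533312), (0, 32435593019392), (0, 70368744177664)] = true := by
  decide +kernel

theorem k1 : chk C 0xa88081088018808081880808128821088288101aa088010a8808210 [(-131941395333120,
    13194139533312), (0, 32435593019392), (70368744177664, 140737488355328)] = true := by
  decide +kernel

theorem k2 : chk C 0xaa811888281081088088011881808088180802882188110aa0880880110a880881110
    [(-131941395333120, 13194139533312), (0, 32435593019392), (140737488355328, 211106232532992)] =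
    true := by
  decide +kernel

theorem k3 : chk C 0xaa880188088801111 [(-131941395333120, -59373627899904), (0, 32435593019392),
    (211106232532992, 281474976710656)] = true := by
  decide +kernel

theorem k4 : chk C 0xaa810882880088018801088280882801881018818080881808028801881881110aa0880881110
    [(-59373627899904, 13194139533312), (0, 32435593019392), (211106232532992, 281474976710656)] =
    true := by
  decide +kernel

end Pool.Agent.Lib.MP_d6150d_an.ZpL
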