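import Pool.Agent.Lib.MP_d6150d_an.GMac
import Pool.Agent.Lib.MP_d6150d_an.ZpLK0

/-! A generated chart: the inequality. -/

namespace Pool.Agent.Lib.MP_d6150d_an.ZpL

set_option linter.unnecessarySeqFocus false
set_option linter.unusedTactic false
set_option linter.unusedVariables false

theorem gd : Gd C [(-131941395333120, 13194139533312), (0, 32435593019392), (0, 281474976710656)] :=
    .split 2 (.split 2 (chk_sound k0) (chk_sound k1)) (.split 2 (chk_sound k2) (.split 0 (chk_sound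
    k3) (chk_sound k4)))

set_option maxRecDepth 100000 in
theorem eq {D F s t r z a u mu M i f c x p j : ℝ} (ht : t = -s) (hr : r = Real.exp (-t)) (hz : z =
    Real.exp (-(F * t))) (ha : a = ph1 (-t)) (hu : u = ph1 (-(F * t))) (hmu : mu = muR D F t) (hM :
    M = mu * z ^ 2) (hi : i = (a * (1 + D - D * r))⁻¹) (hf : f = (1 + D) * F - (1 + 2 * D) * (F - 1)
    * r + D * (F - 2) * r ^ 2) (hc : c = 7 / 24 * (1 - F - 2 * D)) (hx : x = c * F * t ^ 2 * M) (hp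
    : p = M * i) (hj : j = (z ^ 2 + x)⁻¹) : outR prog 0 [D, F, s] = p * (2 - p * (f * i)) - u - t *
    M * z * c * (12 / 7 * z ^ 2 + x) * j ^ 2 ∧ outR (prog.take 11) 0 [D, F, s] = 1 / 4096 - (F - 1 /
    16) * (D * (D + 3 / 32)) := by
  replace ht : t = ((Int.cast (-1) : ℝ) * s) := ht.trans (by push_cast <;> ring)
  replace hr : r = (Real.exp ((Int.cast (-1) : ℝ) * t)) := hr.trans (congrArg Real.exp (by push_cast
    <;> ring))
  replace hz : z = (Real.exp ((Int.cast (-1) : ℝ) * (F * t))) := hz.trans (congrArg Real.exp (by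
    push_cast <;> ring))
  replace ha : a = (ph1 ((Int.cast (-1) : ℝ) * t)) := ha.trans (congrArg ph1 (by push_cast <;>
    ring))
  replace hu : u = (ph1 ((Int.cast (-1) : ℝ) * (F * t))) := hu.trans (congrArg ph1 (by push_cast <;>
    ring))
  replace hmu : mu = (mMu D F t) := hmu.trans (mMu_0 ..)
  replace hM : M = (mu * (z * z)) := hM.trans (by push_cast <;> ring)
  replace hi : i = (a * (((Int.cast (1) : ℝ) + D) - (D * r)))⁻¹ := hi.trans (by push_cast <;> ring)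
  replace hf : f = (((((Int.cast (1) : ℝ) + D) * F) - ((((Int.cast (1) : ℝ) + ((Int.cast (2) : ℝ) *
    D)) * (F - (Int.cast (1) : ℝ))) * r)) + ((D * (F - (Int.cast (2) : ℝ))) * (r * r))) := hf.trans
    (by push_cast <;> ring)
  replace hc : c = (((Int.cast (7) : ℝ) / (Nat.cast 24 : ℝ)) * (((Int.cast (1) : ℝ) - F) -
    ((Int.cast (2) : ℝ) * D))) := hc.trans (by push_cast <;> ring)
  replace hx : x = (((c * F) * (t * t)) * M) := hx.trans (by push_cast <;> ring)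
  replace hp : p = (M * i) := hp.trans (by push_cast <;> ring)
  replace hj : j = ((z * z) + x)⁻¹ := hj.trans (by push_cast <;> ring)
  have e0 : (((p * ((Int.cast (2) : ℝ) - (p * (f * i)))) - u) - (((((t * M) * z) * c) * ((((Int.cast
    (12) : ℝ) / (Nat.cast 7 : ℝ)) * (z * z)) + x)) * (j * j))) = p * (2 - p * (f * i)) - u - t * M *
    z * c * (12 / 7 * z ^ 2 + x) * j ^ 2 := by push_cast <;> ring
  have e1 : (((Int.cast (1) : ℝ) / (Nat.cast 4096 : ℝ)) - ((F - ((Int.cast (1) : ℝ) / (Nat.cast 16 :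
    ℝ))) * (D * (D + ((Int.cast (3) : ℝ) / (Nat.cast 32 : ℝ)))))) = 1 / 4096 - (F - 1 / 16) * (D *
    (D + 3 / 32)) := by push_cast <;> ring
  subst ht hr hz ha hu hmu hM hi hf hc hx hp hj
  exact ⟨Eq.trans rfl e0, Eq.trans rfl e1⟩

theorem l0 : ((-131941395333120 : ℤ) : ℝ) / 2 ^ 47 = -15 / 16 := by norm_num
theorem u0 : (3 / 32 : ℝ) = ((13194139533312 : ℤ) : ℝ) / 2 ^ 47 := by norm_num
theorem l1 : ((0 : ℤ) : ℝ) / 2 ^ 47 = 0 := by norm_num
theorem u1 : (59 / 256 : ℝ) = ((32435593019392 : ℤ) : ℝ) / 2 ^ 47 := by norm_num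
theorem l2 : ((0 : ℤ) : ℝ) / 2 ^ 47 = 0 := by norm_num
theorem u2 : (2 : ℝ) = ((281474976710656 : ℤ) : ℝ) / 2 ^ 47 := by norm_num

theorem out0 (V2 : ∀ D F : ℝ, -15 / 16 ≤ D → D ≤ 3 / 32 → 0 ≤ F → F ≤ 59 / 256 → (fun s ↦ outR prog
    0 [D, F, s]) =O[nhdsWithin 0 (Set.Ioi 0)] fun s : ℝ ↦ s ^ 2) {D F s : ℝ} (a0 : -15 / 16 ≤ D) (b0
    : D ≤ 3 / 32) (a1 : 0 ≤ F) (b1 : F ≤ 59 / 256) (a2 : 0 ≤ s) (b2 : s ≤ 2) (p2 : 0 < s) (c0 : 0 ≤
    outR (prog.take 11) 0 [D, F, s]) : 0 < outR prog 0 [D, F, s] :=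
  gd 0 (by decide) [D, F, s] (.cons ⟨l0.le.trans a0, b0.trans u0.le⟩ (.cons ⟨l1.le.trans a1,
    b1.trans u1.le⟩ (.cons ⟨l2.le.trans a2, b2.trans u2.le⟩ (.nil)))) ⟨nofun, nofun, fun _ ↦ p2,
    trivial⟩ (List.forall_mem_cons.2 ⟨c0, List.forall_mem_nil _⟩) (⟨fun _ ↦ allB_iff.2 fun _ _ ↦
    trivial, fun y0 a0 b0 ↦ ⟨fun _ ↦ allB_iff.2 fun _ _ ↦ trivial, fun y1 a1 b1 ↦ ⟨fun _ ↦ V2 y0 y1
    (l0.ge.trans a0) (b0.trans u0.ge) (l1.ge.trans a1) (b1.trans u1.ge), fun _ _ _ ↦ trivial⟩⟩⟩)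
    (nofun)

end Pool.Agent.Lib.MP_d6150d_an.ZpL
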