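import Pool.Agent.Lib.MP_d6150d_an.ZpRD

/-! A generated chart: the computations. -/

namespace Pool.Agent.Lib.MP_d6150d_an.ZpR

theorem k0 : chk C 0x8d08801882882188182d8288018812000880888000880880222 [(-131941395333120,
    -59373627899904), (0, 16217796509696), (0, 562949953421312)] = true := by
  decide +kernel

theorem k1 : chk C 0xa882d82018882088211add2d21ad821a8d01a8d0120088281881288188088010881881881002010
    [(-131941395333120, -59373627899904), (0, 16217796509696), (562949953421312, 1125899906842624)]
    = true := by
  decide +kernel

theorem k2 : chk C 0xa [(-131941395333120, -59373627899904), (16217796509696, 32435593019392), (0,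
    1125899906842624)] = true := by
  decide +kernel

theorem k3 : chk C 0x88088008880018818810881808808810222 [(-59373627899904, 13194139533312), (0,
    16217796509696), (0, 562949953421312)] = true := by
  decide +kernel

theorem k4 : chk C 0xa808188080818108801aa00a882081880880288218820880108801aa002 [(-59373627899904,
    13194139533312), (16217796509696, 32435593019392), (0, 140737488355328)] = true := by
  decide +kernel

theorem k5 : chk C 0xa8081880818108801aa00 [(-59373627899904, 13194139533312), (16217796509696,
    32435593019392), (140737488355328, 281474976710656)] = true := by
  decide +kernel

theorem k6 : chk C 0xa80828188081880288210a088081aa001 [(-59373627899904, 13194139533312),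
    (16217796509696, 32435593019392), (281474976710656, 562949953421312)] = true := by
  decide +kernel

theorem k7 : chk C 0x8808182aa0a0088188082018882088011 [(-59373627899904, 13194139533312), (0,
    16217796509696), (562949953421312, 1125899906842624)] = true := by
  decide +kernel

theorem k8 : chk C 0x8828188281088288202a088188108802aa001 [(-59373627899904, 13194139533312),
    (16217796509696, 24326694764544), (562949953421312, 1125899906842624)] = true := by
  decide +kernel

theorem k9 : chk C 0xa [(-59373627899904, -23089744183296), (24326694764544, 32435593019392),
    (562949953421312, 1125899906842624)] = true := by
  decide +kernel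

theorem k10 : chk C 0xa8820a8018808802880108828188102 [(-23089744183296, 13194139533312),
    (24326694764544, 28381143891968), (562949953421312, 1125899906842624)] = true := by
  decide +kernel

theorem k11 : chk C 0xa8810a88101881881088028828820880210a88108808802882102 [(-23089744183296,
    13194139533312), (28381143891968, 32435593019392), (562949953421312, 1125899906842624)] = true
    := by
  decide +kernel

end Pool.Agent.Lib.MP_d6150d_an.ZpR
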