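import Pool.Agent.Lib.MP_d6150d_an.ZpSD

/-! A generated chart: the computations. -/

namespace Pool.Agent.Lib.MP_d6150d_an.ZpS

theorem k0 : chk C 0x880880882888008880020008808808808888300888810020003 [(-131941395333120,
    13194139533312), (0, 140737488355328), (0, 13194139533312), (0, 35184372088832)] = true := by
  decide +kernel

theorem k1 : chk C 0x880888888200000880880882888008880020003 [(-131941395333120, 13194139533312),
    (0, 140737488355328), (0, 13194139533312), (35184372088832, 70368744177664)] = true := by
  decide +kernel

theorem k2 : chk C 0x880888c88020000880c888888100002038818810cc00880f810c033 [(-131941395333120,
    13194139533312), (0, 140737488355328), (13194139533312, 26388279066624), (0, 70368744177664)] =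
    true := by
  decide +kernel

theorem k3 : chk C 0x880888888020000880888888200000388088888820000088088888820000033
    [(-131941395333120, 13194139533312), (0, 140737488355328), (0, 13194139533312), (70368744177664,
    140737488355328)] = true := by
  decide +kernel

theorem k4 : chk C 0x888880000880888881000038808888881000008808888881820000033 [(-131941395333120,
    13194139533312), (0, 140737488355328), (13194139533312, 26388279066624), (70368744177664,
    140737488355328)] = true := by
  decide +kernel

theorem k5 : chk C 0xc88181082881818811820cc00c0cdd182d81108812d81a38812f8182188120cc00c03
    [(-131941395333120, 13194139533312), (0, 140737488355328), (26388279066624, 39582418599936), (0,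
    35184372088832)] = true := by
  decide +kernel

theorem k6 : chk C 0x881f0c0b8802c03 [(-131941395333120, 13194139533312), (0, 140737488355328),
    (26388279066624, 39582418599936), (35184372088832, 70368744177664)] = true := by
  decide +kernel

theorem k7 : chk C 0xbbaaaba3222c03c0a33 [(-131941395333120, 13194139533312), (0, 140737488355328),
    (39582418599936, 52776558133248), (0, 70368744177664)] = true := by
  decide +kernel

theorem k8 : chk C 0xbb2 [(-131941395333120, 13194139533312), (0, 140737488355328), (26388279066624,
    52776558133248), (70368744177664, 140737488355328)] = true := by
  decide +kernel

end Pool.Agent.Lib.MP_d6150d_an.ZpS
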