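import Pool.Agent.Lib.MP_d6150d_an.GMac
import Pool.Agent.Lib.MP_d6150d_an.ZpSK0

/-! A generated chart: the inequality. -/

namespace Pool.Agent.Lib.MP_d6150d_an.ZpS

set_option linter.unnecessarySeqFocus false
set_option linter.unusedTactic false
set_option linter.unusedVariables false

theorem gd : Gd C [(-131941395333120, 13194139533312), (0, 140737488355328), (0, 52776558133248),
    (0, 140737488355328)] := .split 2 (.split 3 (.split 2 (.split 3 (chk_sound k0) (chk_sound k1))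
    (chk_sound k2)) (.split 2 (chk_sound k3) (chk_sound k4))) (.split 3 (.split 2 (.split 3
    (chk_sound k5) (chk_sound k6)) (chk_sound k7)) (chk_sound k8))

set_option maxRecDepth 100000 in
theorem eq {D h l z F E P n p r b c m A o q B k N : ℝ} (hF : F = l * (1 - z)) (hE : E = Real.exp (8
    * (3 * F - 1))) (hP : P = ph1 (-(8 * F))) (hn : n = h * (5 / 4 * E) / (l + 1 / 32)) (hp : p = n
    * l * z) (hr : r = p * z ^ 2) (hb : b = (-2) * (1 + 2 * D) / (1 - 2 * F)) (hc : c = (-D) / (1 -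
    F)) (hm : m = b * (1 - p) - c * (1 - p * r)) (hA : A = (1 + D) * (1 + z) + m * l * z ^ 2) (ho :
    o = 1 + 2 * D - D * r) (hq : q = 1 + D - r * o) (hB : B = 1 + D - m * F - p * o) (hk : k = 7 /
    24 * (1 - F - 2 * D) * A) (hN : N = z ^ 2 + (1 - z) * k) : outR prog 0 [D, h, l, z] = (z ^ 2 *
    (1 + z) + (2 / 7 - 2 * z ^ 2) * k - (1 - z) * k ^ 2) * q ^ 3 + N ^ 2 * ((B ^ 2 + l * (m + n * z
    * (1 + z) * o) * (B + q)) * q - n * A ^ 2 * (o - D * r)) ∧ outR (prog.take 8) 0 [D, h, l, z] =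
    23 / 100 - F ∧ outR (prog.take 15) 0 [D, h, l, z] = 1 - 8 * l * P ∧ outR (prog.take 25) 0 [D, h,
    l, z] = 1 / 4096 - (F - 1 / 16) * (D * (D + 3 / 32)) := by
  replace hF : F = (l * ((Int.cast (1) : ℝ) - z)) := hF.trans (by push_cast <;> ring)
  replace hE : E = (Real.exp ((Int.cast (8) : ℝ) * (((Int.cast (3) : ℝ) * F) - (Int.cast (1) : ℝ))))
    := hE.trans (congrArg Real.exp (by push_cast <;> ring))
  replace hP : P = (ph1 ((Int.cast (-1) : ℝ) * ((Int.cast (8) : ℝ) * F))) := hP.trans (congrArg ph1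
    (by push_cast <;> ring))
  replace hn : n = ((h * (((Int.cast (5) : ℝ) / (Nat.cast 4 : ℝ)) * E)) * (l + ((Int.cast (1) : ℝ) /
    (Nat.cast 32 : ℝ)))⁻¹) := hn.trans (by push_cast <;> ring)
  replace hp : p = ((n * l) * z) := hp.trans (by push_cast <;> ring)
  replace hr : r = (p * (z * z)) := hr.trans (by push_cast <;> ring)
  replace hb : b = (((Int.cast (-2) : ℝ) * ((Int.cast (1) : ℝ) + ((Int.cast (2) : ℝ) * D))) *
    ((Int.cast (1) : ℝ) - ((Int.cast (2) : ℝ) * F))⁻¹) := hb.trans (by push_cast <;> ring)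
  replace hc : c = (((Int.cast (-1) : ℝ) * D) * ((Int.cast (1) : ℝ) - F)⁻¹) := hc.trans (by
    push_cast <;> ring)
  replace hm : m = ((b * ((Int.cast (1) : ℝ) - p)) - (c * ((Int.cast (1) : ℝ) - (p * r)))) :=
    hm.trans (by push_cast <;> ring)
  replace hA : A = ((((Int.cast (1) : ℝ) + D) * ((Int.cast (1) : ℝ) + z)) + ((m * l) * (z * z))) :=
    hA.trans (by push_cast <;> ring)
  replace ho : o = (((Int.cast (1) : ℝ) + ((Int.cast (2) : ℝ) * D)) - (D * r)) := ho.trans (by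
    push_cast <;> ring)
  replace hq : q = (((Int.cast (1) : ℝ) + D) - (r * o)) := hq.trans (by push_cast <;> ring)
  replace hB : B = ((((Int.cast (1) : ℝ) + D) - (m * F)) - (p * o)) := hB.trans (by push_cast <;>
    ring)
  replace hk : k = ((((Int.cast (7) : ℝ) / (Nat.cast 24 : ℝ)) * (((Int.cast (1) : ℝ) - F) -
    ((Int.cast (2) : ℝ) * D))) * A) := hk.trans (by push_cast <;> ring)
  replace hN : N = ((z * z) + (((Int.cast (1) : ℝ) - z) * k)) := hN.trans (by push_cast <;> ring)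
  have e0 : ((((((z * z) * ((Int.cast (1) : ℝ) + z)) + ((((Int.cast (2) : ℝ) / (Nat.cast 7 : ℝ)) -
    ((Int.cast (2) : ℝ) * (z * z))) * k)) - (((Int.cast (1) : ℝ) - z) * (k * k))) * ((q * q) * q)) +
    ((N * N) * ((((B * B) + ((l * (m + (((n * z) * ((Int.cast (1) : ℝ) + z)) * o))) * (B + q))) * q)
    - ((n * (A * A)) * (o - (D * r)))))) = (z ^ 2 * (1 + z) + (2 / 7 - 2 * z ^ 2) * k - (1 - z) * k
    ^ 2) * q ^ 3 + N ^ 2 * ((B ^ 2 + l * (m + n * z * (1 + z) * o) * (B + q)) * q - n * A ^ 2 * (o -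
    D * r)) := by push_cast <;> ring
  have e1 : (((Int.cast (23) : ℝ) / (Nat.cast 100 : ℝ)) - F) = 23 / 100 - F := by push_cast <;> ring
  have e2 : ((Int.cast (1) : ℝ) - (((Int.cast (8) : ℝ) * l) * P)) = 1 - 8 * l * P := by push_cast
    <;> ring
  have e3 : (((Int.cast (1) : ℝ) / (Nat.cast 4096 : ℝ)) - ((F - ((Int.cast (1) : ℝ) / (Nat.cast 16 :
    ℝ))) * (D * (D + ((Int.cast (3) : ℝ) / (Nat.cast 32 : ℝ)))))) = 1 / 4096 - (F - 1 / 16) * (D *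
    (D + 3 / 32)) := by push_cast <;> ring
  subst hF hE hP hn hp hr hb hc hm hA ho hq hB hk hN
  exact ⟨Eq.trans rfl e0, Eq.trans rfl e1, Eq.trans rfl e2, Eq.trans rfl e3⟩

theorem l0 : ((-131941395333120 : ℤ) : ℝ) / 2 ^ 47 = -15 / 16 := by norm_num
theorem u0 : (3 / 32 : ℝ) = ((13194139533312 : ℤ) : ℝ) / 2 ^ 47 := by norm_num
theorem l1 : ((0 : ℤ) : ℝ) / 2 ^ 47 = 0 := by norm_num
theorem u1 : (1 : ℝ) = ((140737488355328 : ℤ) : ℝ) / 2 ^ 47 := by norm_num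
theorem l2 : ((0 : ℤ) : ℝ) / 2 ^ 47 = 0 := by norm_num
theorem u2 : (3 / 8 : ℝ) = ((52776558133248 : ℤ) : ℝ) / 2 ^ 47 := by norm_num
theorem l3 : ((0 : ℤ) : ℝ) / 2 ^ 47 = 0 := by norm_num
theorem u3 : (1 : ℝ) = ((140737488355328 : ℤ) : ℝ) / 2 ^ 47 := by norm_num

theorem out0 {D h l z : ℝ} (a0 : -15 / 16 ≤ D) (b0 : D ≤ 3 / 32) (a1 : 0 ≤ h) (b1 : h ≤ 1) (a2 : 0 ≤
    l) (b2 : l ≤ 3 / 8) (a3 : 0 ≤ z) (b3 : z ≤ 1) (c0 : 0 ≤ outR (prog.take 8) 0 [D, h, l, z]) (c1 :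
    0 ≤ outR (prog.take 15) 0 [D, h, l, z]) (c2 : 0 ≤ outR (prog.take 25) 0 [D, h, l, z]) : 0 < outR
    prog 0 [D, h, l, z] :=
  gd 0 (by decide) [D, h, l, z] (.cons ⟨l0.le.trans a0, b0.trans u0.le⟩ (.cons ⟨l1.le.trans a1,
    b1.trans u1.le⟩ (.cons ⟨l2.le.trans a2, b2.trans u2.le⟩ (.cons ⟨l3.le.trans a3, b3.trans u3.le⟩
    (.nil))))) ⟨nofun, nofun, nofun, nofun, trivial⟩ (List.forall_mem_cons.2 ⟨c0,
    List.forall_mem_cons.2 ⟨c1, List.forall_mem_cons.2 ⟨c2, List.forall_mem_nil _⟩⟩⟩) (Van.of0 rfl)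
    (nofun)

theorem pos0 {D h l z F E P n p r b c m A o q B k N : ℝ} (hF : F = l * (1 - z)) (hE : E = Real.exp
    (8 * (3 * F - 1))) (hP : P = ph1 (-(8 * F))) (hn : n = h * (5 / 4 * E) / (l + 1 / 32)) (hp : p =
    n * l * z) (hr : r = p * z ^ 2) (hb : b = (-2) * (1 + 2 * D) / (1 - 2 * F)) (hc : c = (-D) / (1
    - F)) (hm : m = b * (1 - p) - c * (1 - p * r)) (hA : A = (1 + D) * (1 + z) + m * l * z ^ 2) (ho
    : o = 1 + 2 * D - D * r) (hq : q = 1 + D - r * o) (hB : B = 1 + D - m * F - p * o) (hk : k = 7 /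
    24 * (1 - F - 2 * D) * A) (hN : N = z ^ 2 + (1 - z) * k) (a0 : -15 / 16 ≤ D) (b0 : D ≤ 3 / 32)
    (a1 : 0 ≤ h) (b1 : h ≤ 1) (a2 : 0 ≤ l) (b2 : l ≤ 3 / 8) (a3 : 0 ≤ z) (b3 : z ≤ 1) (c0 : 0 ≤ 23 /
    100 - F) (c1 : 0 ≤ 1 - 8 * l * P) (c2 : 0 ≤ 1 / 4096 - (F - 1 / 16) * (D * (D + 3 / 32))) : 0 <
    (z ^ 2 * (1 + z) + (2 / 7 - 2 * z ^ 2) * k - (1 - z) * k ^ 2) * q ^ 3 + N ^ 2 * ((B ^ 2 + l * (m
    + n * z * (1 + z) * o) * (B + q)) * q - n * A ^ 2 * (o - D * r)) :=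
  have e := eq hF hE hP hn hp hr hb hc hm hA ho hq hB hk hN
  (out0 a0 b0 a1 b1 a2 b2 a3 b3 (c0.trans_eq e.2.1.symm) (c1.trans_eq e.2.2.1.symm) (c2.trans_eq
    e.2.2.2.symm)).trans_eq e.1

end Pool.Agent.Lib.MP_d6150d_an.ZpS
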