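import Pool.Agent.Lib.MP_d6150d_an.S2b
import Pool.Agent.Lib.MP_d6150d_an.KNJ
import Pool.Agent.Lib.MP_d6150d_an.ZpL
import Pool.Agent.Lib.MP_d6150d_an.ZpR
import Pool.Agent.Lib.MP_d6150d_an.ZpS

/-! Small `F`: the separator, the center and the right branch. -/

namespace Pool.Agent.Lib.MP_d6150d_an.Zp

open Real Set Filter Topology Asymptotics

variable {D F t : ℝ}

/-- the slope of the separator -/
noncomputable def cc (D F : ℝ) : ℝ := 7 / 24 * (1 - F - 2 * D)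

/-- the separator -/
noncomputable def ee (F x : ℝ) : ℝ := x * (12 / 7 + F * x) / (1 + F * x) ^ 2

/-- the region -/
structure Rg (D F : ℝ) : Prop where
  d0 : -15 / 16 ≤ D
  d1 : D ≤ 3 / 32
  f0 : 0 < F
  f1 : F ≤ 23 / 100
  c : 0 ≤ 1 / 4096 - (F - 1 / 16) * (D * (D + 3 / 32))
  p : D ≤ 0 ∨ F ≤ 1 / 16

theorem ee_mono {x x' : ℝ} (hF : 0 ≤ F) (h0 : 0 ≤ x) (h : x ≤ x') : ee F x ≤ ee F x' := by
  have h1 : 0 ≤ x' := h0.trans h
  rw [ee, ee, div_le_div_iff₀ (by positivity) (by positivity)]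
  have : 0 ≤ (x' - x) * (12 / 7 + F * x + F * x' + 2 / 7 * (F * x * (F * x'))) :=
    mul_nonneg (by linarith) (by positivity)
  linarith

/-- the quotient studied near the center -/
noncomputable def Gc (D F t : ℝ) : ℝ :=
  let r := exp (-t)
  let z := exp (-(F * t))
  let M := muR D F t * z ^ 2
  let i := (ph1 (-t) * (1 + D - D * r))⁻¹
  let x := cc D F * F * t ^ 2 * M
  M * i * (2 - M * i * (sv2 D F r * i)) - ph1 (-(F * t)) -
    t * M * z * cc D F * (12 / 7 * z ^ 2 + x) * (z ^ 2 + x)⁻¹ ^ 2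

theorem Gc_eq (hc : 0 ≤ cc D F * F) (ht : t ∈ JR D) (h0 : t ≠ 0) :
    t * exp (F * t) * Gc D F t = phi4 D F t - ee F (cc D F * vR D F t) := by
  have h1 : 1 + D - D * exp (-t) ≠ 0 := by
    have := mul_pos (exp_pos (-t)) (show 0 < (1 + D) * exp t - D from ht)
    have e : exp (-t) * exp t = 1 := by rw [← exp_add]; simp
    exact (this.trans_eq (by linear_combination (1 + D) * e)).ne'
  have h2 : sv1 D (exp (-t)) = t * ph1 (-t) * (1 + D - D * exp (-t)) := by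
    have := exp_eq_ph (-t)
    rw [sv1]; linear_combination -(1 + D - D * exp (-t)) * this
  have h3 := (ph1_pos (-t)).ne'
  have h4 : 1 + F * (cc D F * (t ^ 2 * muR D F t)) ≠ 0 := by
    have := mul_nonneg hc (vR_pos (F := F) ht h0).le
    rw [vR] at this; linarith
  have h5 := (exp_pos (F * t)).ne'
  have h6 : (exp (F * t))⁻¹ ^ 2 + cc D F * F * t ^ 2 * (muR D F t * (exp (F * t))⁻¹ ^ 2) =
    (exp (F * t))⁻¹ ^ 2 * (1 + F * (cc D F * (t ^ 2 * muR D F t))) := by ring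
  rw [phi4_form ht h0, sφ, h2, uR, ph1_neg (F * t), ee, vR]
  simp only [Gc]
  rw [exp_neg (F * t), h6]
  generalize 1 + D - D * exp (-t) = w at *
  generalize 1 + F * (cc D F * (t ^ 2 * muR D F t)) = N at *
  field_simp

theorem Gc_van (hc : 0 ≤ cc D F * F) {σ : ℝ → ℝ} (h : Tendsto σ (𝓝[>] 0) (𝓝[≠] 0))
    (e : ∀ s, σ s ^ 2 = s ^ 2) : (fun s ↦ Gc D F (σ s)) =O[𝓝[>] 0] fun s ↦ s ^ 2 := by
  suffices H : ∃ K : ℝ → ℝ, ContinuousAt K 0 ∧ ∀ᶠ t in 𝓝[≠] 0, t ^ 2 * K t = Gc D F t by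
    obtain ⟨K, cK, eK⟩ := H
    exact ((((isBigO_refl (fun t : ℝ ↦ t ^ 2) _).mul (cK.isBigO_one ℝ)).mono
      (nhdsWithin_le_nhds (s := {0}ᶜ))).comp_tendsto h).congr' (h.eventually eK)
      (Eventually.of_forall fun s ↦ by simp [e])
  obtain ⟨a6, U⟩ := jet_uR (D := D) (F := F)
  obtain ⟨k, ak, ek⟩ := U.th.th.lin U 1
  have z := zero_mem_JR D
  have g := (gR_an (F := F) z).continuousAt
  have m := (sqrt_mu_an (F := F) z).continuousAt
  have ck := ak.continuousAt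
  have cK : ContinuousAt (fun t ↦ √(muR D F t) ^ 3 * exp (-(F * t)) * (8 * ja3 D F +
      gR D F t * (15 * ja4 D F + 24 * ja5 D F * gR D F t + 35 * a6 * gR D F t ^ 2 +
        gR D F t ^ 3 * k t + cc D F ^ 2 * F * (17 / 7 + 12 / 7 * (F * (cc D F * gR D F t ^ 2))) /
          (1 + F * (cc D F * gR D F t ^ 2)) ^ 2))) 0 := by
    refine ((m.pow 3).mul (by fun_prop)).mul (continuousAt_const.add (g.mul
      (ContinuousAt.add (by fun_prop) (ContinuousAt.div (by fun_prop) (by fun_prop) ?_))))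
    simp [gR]
  refine ⟨_, cK, ?_⟩
  filter_upwards [nhdsWithin_le_nhds ek, nhdsWithin_le_nhds ((JR_open D).mem_nhds z),
    self_mem_nhdsWithin] with t ek ht h0
  have h1 := Gc_eq hc ht h0
  have h2 : 1 + F * (cc D F * gR D F t ^ 2) ≠ 0 := by
    have := mul_nonneg hc (sq_nonneg (gR D F t)); linarith
  have h5 := (exp_pos (F * t)).ne'
  have h6 : ja2 D F = 4 / 7 * cc D F := by rw [ja2, cc]; ring
  have h7 : gR D F t = t * √(muR D F t) := rfl
  rw [phi4, ← one_mul (uR F t), ek, ee, ← gR_sq ht, h6] at h1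
  refine mul_left_cancel₀ (mul_ne_zero h0 h5) (Eq.trans ?_ h1.symm)
  rw [exp_neg]
  generalize hN : 1 + F * (cc D F * gR D F t ^ 2) = N at h2
  field_simp
  rw [← hN, h7]
  ring

theorem cc_pos (d1 : D ≤ 3 / 32) (f1 : F ≤ 59 / 256) : 0 < cc D F := by rw [cc]; linarith

theorem Rg.cF (H : Rg D F) : 0 ≤ cc D F * F :=
  mul_nonneg (cc_pos H.d1 (by linarith [H.f1])).le H.f0.le

theorem right0 (H : Rg D F) (ht : t ∈ JR D) (t0 : 0 < t) (t1 : t ≤ 8) :
    ee F (cc D F * vR D F t) < phi4 D F t := by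
  have e := fun D F s ↦ ZpR.eq (D := D) (F := F) (s := s) rfl rfl rfl rfl rfl rfl rfl rfl rfl rfl rfl rfl rfl
  have := (ZpR.out0 (fun D F _ d1 f0 f1 ↦ (Gc_van (mul_nonneg (cc_pos d1 f1).le f0) (σ := id)
    (tendsto_nhdsWithin_mono_right (fun _ h ↦ ne_of_gt h) tendsto_id) fun _ ↦ rfl).congr_left
      fun s ↦ (e D F s).1.symm) H.d0 H.d1 H.f0.le (by linarith [H.f1]) t0.le t1 t0
    (H.c.trans_eq (e D F t).2.symm)).trans_eq (e D F t).1
  rw [← sub_pos, ← Gc_eq H.cF ht t0.ne']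
  exact mul_pos (mul_pos t0 (exp_pos _)) this

theorem left0 (H : Rg D F) (ht : t ∈ JR D) (t0 : t < 0) (t1 : -2 ≤ t) :
    phi4 D F t < ee F (cc D F * vR D F t) := by
  have e := fun D F s ↦ ZpL.eq (D := D) (F := F) (s := s) rfl rfl rfl rfl rfl rfl rfl rfl rfl rfl rfl rfl rfl
  have n : Tendsto (fun s : ℝ ↦ -s) (𝓝[>] 0) (𝓝[≠] 0) := by
    refine tendsto_nhdsWithin_iff.2 ⟨?_, eventually_mem_nhdsWithin.mono fun _ h ↦
      neg_ne_zero.2 (ne_of_gt h)⟩
    simpa using (continuous_neg.tendsto (0 : ℝ)).mono_left nhdsWithin_le_nhds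
  obtain ⟨s, rfl⟩ : ∃ s, t = -s := ⟨-t, by ring⟩
  have := (ZpL.out0 (fun D F _ d1 f0 f1 ↦ (Gc_van (mul_nonneg (cc_pos d1 f1).le f0) n
    fun _ ↦ neg_sq _).congr_left fun s ↦ (e D F s).1.symm) (s := s) H.d0 H.d1 H.f0.le
    (by linarith [H.f1]) (by linarith) (by linarith) (by linarith)
    (H.c.trans_eq (e D F s).2.symm)).trans_eq (e D F s).1
  rw [← sub_neg, ← Gc_eq H.cF ht t0.ne]
  exact mul_neg_of_neg_of_pos (mul_neg_of_neg_of_pos t0 (exp_pos _)) this

theorem alg {z l B W k n ω u y q A N V c f : ℝ} (hy : y * z = 1) (hu : u * l * z = 1) (u0 : 0 < u)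
    (z0 : 0 < z) (q0 : 0 < q) (N0 : 0 < N) (hF : F = l * (1 - z)) (hq : q = B + (1 - z) * W)
    (hA : A = W + (1 + z) * B) (hk : k = c * A) (hN : N = z ^ 2 + (1 - z) * k) (hV : V = u * y * A)
    (hf : f = F * q + n * l * z * z ^ 2 * ω)
    (h : 0 < (z ^ 2 * (1 + z) + (2 / 7 - 2 * z ^ 2) * k - (1 - z) * k ^ 2) * q ^ 3 +
      N ^ 2 * ((B ^ 2 + W * (B + q)) * q - n * A ^ 2 * ω)) :
    ee F (c * V) < 2 * V / (y * q) - V ^ 2 * f / (y * q) ^ 3 - u := by
  obtain rfl : y = z⁻¹ := eq_inv_of_mul_eq_one_left hy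
  obtain rfl : l = (u * z)⁻¹ := eq_inv_of_mul_eq_one_right (by linarith)
  have e1 : F * (c * V) = (1 - z) * k / z ^ 2 := by rw [hF, hV, hk]; field_simp
  have e2 : 1 + (1 - z) * k / z ^ 2 = N / z ^ 2 := by rw [hN]; field_simp
  have e3 : ee F (c * V) = u * (z * k * (12 / 7 * z ^ 2 + (1 - z) * k)) / N ^ 2 := by
    rw [ee, e1, e2, hV, hk]; field_simp
  have e4 : 2 * V / (z⁻¹ * q) - V ^ 2 * f / (z⁻¹ * q) ^ 3 - u =
      u * (2 * A * q ^ 2 - A ^ 2 * ((1 - z) * q + n * z ^ 3 * ω) - q ^ 3) / q ^ 3 := by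
    rw [hV, hf, hF]; field_simp
  rw [e3, e4, div_lt_div_iff₀ (by positivity) (by positivity), ← sub_pos]
  refine (mul_pos (mul_pos u0 (pow_pos z0 3)) h).trans_eq ?_
  rw [hN, hA, hq]; ring

theorem right1 (H : Rg D F) (ht : t ∈ JR D) (t1 : 8 ≤ t) : ee F (cc D F * vR D F t) < phi4 D F t := by
  obtain ⟨d0, d1, f0, f1, hc, -⟩ := H
  have t0 : 0 < t := by linarith
  have eu := F_uR (F := F) t
  have u8 : t ≤ uR F t := le_of_mul_le_mul_left (by linarith [add_one_le_exp (F * t)]) f0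
  have y0 := exp_pos (F * t)
  have z0 := exp_pos (-(F * t))
  have yz : exp (F * t) * exp (-(F * t)) = 1 := by rw [← exp_add]; simp
  have z1 : exp (-(F * t)) ≤ exp (-(8 * F)) := exp_le_exp.2 (by nlinarith)
  have z2 : exp (-(8 * F)) < 1 := exp_lt_one_iff.2 (by linarith)
  have z3 := add_one_le_exp (-(F * t))
  have eP := exp_eq_ph (-(8 * F))
  have q0 : 0 < sv1 D (exp (-t)) := pos_of_mul_pos_right (sφ_pos (F := F) ht t0) y0.le
  have v0 := vR_pos (F := F) ht t0.ne'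
  have hV := vR_expl (D := D) (F := F) (a := (1 + D) / F) (β := -2 * (1 + 2 * D) / (1 - 2 * F))
    (c := -D / (1 - F)) (mul_div_cancel₀ _ f0.ne') (mul_div_cancel₀ _ (by linarith))
    (mul_div_cancel₀ _ (by linarith)) t
  have x1 : exp ((2 * F - 2) * t) = exp (F * t) ^ 2 * exp (-t) ^ 2 := by
    rw [sq, sq, ← exp_add, ← exp_add, ← exp_add]; ring_nf
  have x2 : exp (-t) * exp t = 1 := by rw [← exp_add]; simp
  have x3 : exp (-t) * exp (F * t) ^ 3 = exp (8 * (3 * F - 1)) * exp (-((1 - 3 * F) * (t - 8))) := by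
    rw [← exp_nat_mul, ← exp_add, ← exp_add]; push_cast; ring_nf
  have x4 : t * exp (-((1 - 3 * F) * (t - 8))) ≤ 8 := by
    rw [exp_neg, ← div_eq_mul_inv, div_le_iff₀ (exp_pos _)]
    nlinarith [add_one_le_exp ((1 - 3 * F) * (t - 8))]
  have x5 : exp (-((1 - 3 * F) * (t - 8))) ≤ 1 := exp_le_one_iff.2 (by nlinarith)
  have x6 := exp_pos (-((1 - 3 * F) * (t - 8)))
  have E0 := exp_pos (8 * (3 * F - 1))
  have r0 := exp_pos (-t)
  rw [phi4_form ht t0.ne', sφ]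
  generalize exp (-((1 - 3 * F) * (t - 8))) = w at *
  generalize hE : exp (8 * (3 * F - 1)) = E at *
  generalize exp (F * t) = y at *
  generalize exp (-(F * t)) = z at *
  generalize exp (-t) = r at *
  generalize uR F t = u at *
  generalize vR D F t = V at *
  have u0 : 0 < u := by linarith
  obtain ⟨l, hl⟩ : ∃ l, u * l = y := ⟨y / u, by field_simp⟩
  have l0 : 0 < l := pos_of_mul_pos_right (hl ▸ y0) u0.le
  have ul : u * l * z = 1 := by rw [hl, yz]
  have hF : F = l * (1 - z) := mul_left_cancel₀ u0.ne' (by linear_combination eu - hl + ul)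
  obtain ⟨n, hn⟩ : ∃ n, n = u * r * y ^ 2 := ⟨_, rfl⟩
  have n0 : 0 < n := by rw [hn]; positivity
  have n1 : n * l = E * w := by rw [← x3, hn, ← hl]; ring
  have n2 : 1 ≤ l * t := le_of_mul_le_mul_left (by nlinarith) f0
  have n3 : n * (l + 1 / 32) ≤ 5 / 4 * E := by
    have a := mul_le_mul_of_nonneg_left n2 n0.le
    have b := mul_le_mul_of_nonneg_left x4 E0.le
    have c := mul_le_mul_of_nonneg_left x5 E0.le
    have d : n * (l * t) = E * (t * w) := by rw [← mul_assoc, n1]; ring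
    linarith
  have hp : r * y ^ 2 = n * l * z := by rw [hn]; linear_combination -r * y ^ 2 * ul
  have hr : r = r * y ^ 2 * z ^ 2 := by linear_combination -r * (y * z + 1) * yz
  have := ZpS.pos0 (D := D) (h := n * (l + 1 / 32) / (5 / 4 * E)) (n := n) (q := sv1 D r) hF hE.symm rfl
    (by field_simp) hp hr rfl rfl rfl rfl rfl (by rw [sv1]; ring) rfl rfl rfl d0 d1
    (by positivity) ((div_le_one (by positivity)).2 n3) l0.le
    (le_of_mul_le_mul_left (by nlinarith) u0) z0.le (by linarith) (by linarith)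
    (nonneg_of_mul_nonneg_right (a := F) (by nlinarith) f0) hc
  generalize -2 * (1 + 2 * D) / (1 - 2 * F) = b at *
  generalize -D / (1 - F) = c at *
  obtain ⟨m, hm⟩ : ∃ m, m = b * (1 - r * y ^ 2) - c * (1 - r * y ^ 2 * r) := ⟨_, rfl⟩
  rw [← hm] at this
  have eV : V = u * y * ((1 + D) * (1 + z) + m * l * z ^ 2) := by
    have a : (1 + D) / F * (y ^ 2 - 1) = (1 + D) * u * (y + 1) := by
      rw [div_mul_eq_mul_div, div_eq_iff f0.ne']; linear_combination -(1 + D) * (y + 1) * eu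
    rw [hV, x1, hm]
    linear_combination a + y ^ 2 * ((1 + D) / F * (r * exp t + 1) - b * r) * x2 -
      (1 + D) * u * yz - (b * (1 - r * y ^ 2) - c * (1 - r * y ^ 2 * r)) * (y * z * ul + yz)
  have A0 : 0 < (1 + D) * (1 + z) + m * l * z ^ 2 := pos_of_mul_pos_right (eV ▸ v0) (by positivity)
  refine alg yz ul u0 z0 q0 ?_ hF ?_ ?_ rfl rfl eV ?_ this
  · have := mul_nonneg (show 0 ≤ 1 - z by linarith) (mul_pos (cc_pos d1 (F := F) (by linarith)) A0).le
    rw [cc] at this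
    positivity
  · rw [sv1]
    linear_combination m * hF - (1 + 2 * D - D * r) * (hr - (1 - z ^ 2) * hp)
  · linear_combination (1 + z) * m * hF + (1 + z) * (1 + 2 * D - D * r) * hp
  · rw [← hp, ← hr, sv1, sv2]; ring

end Pool.Agent.Lib.MP_d6150d_an.Zp
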