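import Pool.Agent.Lib.MP_d6150d_an.ZpMD

/-! A generated chart: the computations. -/

namespace Pool.Agent.Lib.MP_d6150d_an.ZpM

theorem k0 : chk C 0x8818812888810088818800810288802108818800188280880188108808010 [(0,
    140737488355328), (0, 32435593019392), (0, 35184372088832)] = true := by
  decide +kernel

theorem k1 : chk C 0x882818828808802810880108828088018810088188108818810881001 [(0,
    140737488355328), (0, 32435593019392), (35184372088832, 70368744177664)] = true := by
  decide +kernel

theorem k2 : chk C 0x88800880288288082018808802882882018808288280100 [(0, 140737488355328), (0,
    16217796509696), (70368744177664, 140737488355328)] = true := by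
  decide +kernel

theorem k3 : chk C 0x88281808880008808880001881808800880880012 [(0, 70368744177664),
    (16217796509696, 32435593019392), (70368744177664, 140737488355328)] = true := by
  decide +kernel

theorem k4 : chk C 0x88082882880880208801088800188288288088028181008880012 [(70368744177664,
    140737488355328), (16217796509696, 32435593019392), (70368744177664, 140737488355328)] = true :=
    by
  decide +kernel

end Pool.Agent.Lib.MP_d6150d_an.ZpM
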