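import Pool.Agent.Lib.MP_d6150d_an.GMac
import Pool.Agent.Lib.MP_d6150d_an.ZpMK0

/-! A generated chart: the inequality. -/

namespace Pool.Agent.Lib.MP_d6150d_an.ZpM

set_option linter.unnecessarySeqFocus false
set_option linter.unusedTactic false
set_option linter.unusedVariables false

theorem gd : Gd C [(0, 140737488355328), (0, 32435593019392), (0, 140737488355328)] := .split 2
    (.split 2 (chk_sound k0) (chk_sound k1)) (.split 1 (chk_sound k2) (.split 0 (chk_sound k3)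
    (chk_sound k4)))

set_option maxRecDepth 100000 in
theorem eq {k F h t s y a b c u i x B e X : ℝ} (ht : t = -(2 + h * (2 + 18 * F))) (hs : s = Real.exp
    t) (hy : y = Real.exp (F * t)) (ha : a = ph1 (-(2 * F * t))) (hb : b = ph1 (-((2 * F - 1) * t)))
    (hc : c = ph1 (-((2 * F - 2) * t))) (hu : u = ph1 (F * t)) (hi : i = (1 - s)⁻¹) (hx : x = 2 * t
    * i * ((1 - k) * (a * s - b) - (2 * k - 1) * i * (a * s ^ 2 - 2 * b * s + c))) (hB : B = t * u *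
    k ^ 3 + y * x * (2 * k ^ 2 + x * (F * k - i * (3 * k - 1)))) (he : e = Real.exp ((2 * F - 1) *
    t)) (hX : X = 7 / 6 * k * e * (1 - s) * x * (1 - F + 4 * s * i * (2 * k - 1))) : outR prog 0 [k,
    F, h] = k ^ 3 * X * (12 / 7 + F * X) + B * (1 + F * X) ^ 2 := by
  replace ht : t = ((Int.cast (-1) : ℝ) * ((Int.cast (2) : ℝ) + (h * ((Int.cast (2) : ℝ) +
    ((Int.cast (18) : ℝ) * F))))) := ht.trans (by push_cast <;> ring)
  replace hy : y = (Real.exp (F * t)) := hy.trans (congrArg Real.exp (by push_cast <;> ring))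
  replace ha : a = (ph1 ((Int.cast (-1) : ℝ) * (((Int.cast (2) : ℝ) * F) * t))) := ha.trans
    (congrArg ph1 (by push_cast <;> ring))
  replace hb : b = (ph1 ((Int.cast (-1) : ℝ) * ((((Int.cast (2) : ℝ) * F) - (Int.cast (1) : ℝ)) *
    t))) := hb.trans (congrArg ph1 (by push_cast <;> ring))
  replace hc : c = (ph1 ((Int.cast (-1) : ℝ) * ((((Int.cast (2) : ℝ) * F) - (Int.cast (2) : ℝ)) *
    t))) := hc.trans (congrArg ph1 (by push_cast <;> ring))
  replace hu : u = (ph1 (F * t)) := hu.trans (congrArg ph1 (by push_cast <;> ring))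
  replace hi : i = ((Int.cast (1) : ℝ) - s)⁻¹ := hi.trans (by push_cast <;> ring)
  replace hx : x = ((((Int.cast (2) : ℝ) * t) * i) * ((((Int.cast (1) : ℝ) - k) * ((a * s) - b)) -
    (((((Int.cast (2) : ℝ) * k) - (Int.cast (1) : ℝ)) * i) * (((a * (s * s)) - (((Int.cast (2) : ℝ)
    * b) * s)) + c)))) := hx.trans (by push_cast <;> ring)
  replace hB : B = (((t * u) * ((k * k) * k)) + ((y * x) * (((Int.cast (2) : ℝ) * (k * k)) + (x *
    ((F * k) - (i * (((Int.cast (3) : ℝ) * k) - (Int.cast (1) : ℝ)))))))) := hB.trans (by push_cast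
    <;> ring)
  replace he : e = (Real.exp ((((Int.cast (2) : ℝ) * F) - (Int.cast (1) : ℝ)) * t)) := he.trans
    (congrArg Real.exp (by push_cast <;> ring))
  replace hX : X = (((((((Int.cast (7) : ℝ) / (Nat.cast 6 : ℝ)) * k) * e) * ((Int.cast (1) : ℝ) -
    s)) * x) * (((Int.cast (1) : ℝ) - F) + ((((Int.cast (4) : ℝ) * s) * i) * (((Int.cast (2) : ℝ) *
    k) - (Int.cast (1) : ℝ))))) := hX.trans (by push_cast <;> ring)
  have e0 : (((((k * k) * k) * X) * (((Int.cast (12) : ℝ) / (Nat.cast 7 : ℝ)) + (F * X))) + (B *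
    (((Int.cast (1) : ℝ) + (F * X)) * ((Int.cast (1) : ℝ) + (F * X))))) = k ^ 3 * X * (12 / 7 + F *
    X) + B * (1 + F * X) ^ 2 := by push_cast <;> ring
  subst ht hs hy ha hb hc hu hi hx hB he hX
  exact Eq.trans rfl e0

theorem l0 : ((0 : ℤ) : ℝ) / 2 ^ 47 = 0 := by norm_num
theorem u0 : (1 : ℝ) = ((140737488355328 : ℤ) : ℝ) / 2 ^ 47 := by norm_num
theorem l1 : ((0 : ℤ) : ℝ) / 2 ^ 47 = 0 := by norm_num
theorem u1 : (59 / 256 : ℝ) = ((32435593019392 : ℤ) : ℝ) / 2 ^ 47 := by norm_num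
theorem l2 : ((0 : ℤ) : ℝ) / 2 ^ 47 = 0 := by norm_num
theorem u2 : (1 : ℝ) = ((140737488355328 : ℤ) : ℝ) / 2 ^ 47 := by norm_num

theorem out0 {k F h : ℝ} (a0 : 0 ≤ k) (b0 : k ≤ 1) (a1 : 0 ≤ F) (b1 : F ≤ 59 / 256) (a2 : 0 ≤ h) (b2
    : h ≤ 1) : 0 < outR prog 0 [k, F, h] :=
  gd 0 (by decide) [k, F, h] (.cons ⟨l0.le.trans a0, b0.trans u0.le⟩ (.cons ⟨l1.le.trans a1,
    b1.trans u1.le⟩ (.cons ⟨l2.le.trans a2, b2.trans u2.le⟩ (.nil)))) ⟨nofun, nofun, nofun, trivial⟩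
    (List.forall_mem_nil _) (Van.of0 rfl) (nofun)

theorem pos0 {k F h t s y a b c u i x B e X : ℝ} (ht : t = -(2 + h * (2 + 18 * F))) (hs : s =
    Real.exp t) (hy : y = Real.exp (F * t)) (ha : a = ph1 (-(2 * F * t))) (hb : b = ph1 (-((2 * F -
    1) * t))) (hc : c = ph1 (-((2 * F - 2) * t))) (hu : u = ph1 (F * t)) (hi : i = (1 - s)⁻¹) (hx :
    x = 2 * t * i * ((1 - k) * (a * s - b) - (2 * k - 1) * i * (a * s ^ 2 - 2 * b * s + c))) (hB : B
    = t * u * k ^ 3 + y * x * (2 * k ^ 2 + x * (F * k - i * (3 * k - 1)))) (he : e = Real.exp ((2 *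
    F - 1) * t)) (hX : X = 7 / 6 * k * e * (1 - s) * x * (1 - F + 4 * s * i * (2 * k - 1))) (a0 : 0
    ≤ k) (b0 : k ≤ 1) (a1 : 0 ≤ F) (b1 : F ≤ 59 / 256) (a2 : 0 ≤ h) (b2 : h ≤ 1) : 0 < k ^ 3 * X *
    (12 / 7 + F * X) + B * (1 + F * X) ^ 2 :=
  have e := eq ht hs hy ha hb hc hu hi hx hB he hX
  (out0 a0 b0 a1 b1 a2 b2).trans_eq e

end Pool.Agent.Lib.MP_d6150d_an.ZpM
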