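import Pool.Agent.Lib.MP_d6150d_an.ZpTD

/-! A generated chart: the computations. -/

namespace Pool.Agent.Lib.MP_d6150d_an.ZpT

theorem k0 : chk C 0x888088118808081008800 [(-140737488355328, 140737488355328), (0,
    32435593019392)] = true := by
  decide +kernel

end Pool.Agent.Lib.MP_d6150d_an.ZpT
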