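import Pool.Agent.Lib.MP_d6150d_an.GMac
import Pool.Agent.Lib.MP_d6150d_an.ZpTK0

/-! A generated chart: the inequality. -/

namespace Pool.Agent.Lib.MP_d6150d_an.ZpT

set_option linter.unnecessarySeqFocus false
set_option linter.unusedTactic false
set_option linter.unusedVariables false

theorem gd : Gd C [(-140737488355328, 140737488355328), (0, 32435593019392)] := chk_sound k0

set_option maxRecDepth 100000 in
theorem eq {g F s i x : ℝ} (hs : s = Real.exp (-(4 + 18 * F))) (hi : i = (1 - s)⁻¹) (hx : x = 2 * (1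
    - g) * (1 - F) + g * (1 - 2 * F)) : outR prog 0 [g, F] = (47 / 100 + 13 / 5 * F) * (1 - F) ^ 2 -
    x * (x * (i * (1 + g) - F) - 2 * (1 - F) * (1 - 2 * F)) := by
  replace hs : s = (Real.exp ((Int.cast (-1) : ℝ) * ((Int.cast (4) : ℝ) + ((Int.cast (18) : ℝ) *
    F)))) := hs.trans (congrArg Real.exp (by push_cast <;> ring))
  replace hi : i = ((Int.cast (1) : ℝ) - s)⁻¹ := hi.trans (by push_cast <;> ring)
  replace hx : x = ((((Int.cast (2) : ℝ) * ((Int.cast (1) : ℝ) - g)) * ((Int.cast (1) : ℝ) - F)) +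
    (g * ((Int.cast (1) : ℝ) - ((Int.cast (2) : ℝ) * F)))) := hx.trans (by push_cast <;> ring)
  have e0 : (((((Int.cast (47) : ℝ) / (Nat.cast 100 : ℝ)) + (((Int.cast (13) : ℝ) / (Nat.cast 5 :
    ℝ)) * F)) * (((Int.cast (1) : ℝ) - F) * ((Int.cast (1) : ℝ) - F))) - (x * ((x * ((i * ((Int.cast
    (1) : ℝ) + g)) - F)) - (((Int.cast (2) : ℝ) * ((Int.cast (1) : ℝ) - F)) * ((Int.cast (1) : ℝ) -
    ((Int.cast (2) : ℝ) * F)))))) = (47 / 100 + 13 / 5 * F) * (1 - F) ^ 2 - x * (x * (i * (1 + g) -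
    F) - 2 * (1 - F) * (1 - 2 * F)) := by push_cast <;> ring
  subst hs hi hx
  exact Eq.trans rfl e0

theorem l0 : ((-140737488355328 : ℤ) : ℝ) / 2 ^ 47 = -1 := by norm_num
theorem u0 : (1 : ℝ) = ((140737488355328 : ℤ) : ℝ) / 2 ^ 47 := by norm_num
theorem l1 : ((0 : ℤ) : ℝ) / 2 ^ 47 = 0 := by norm_num
theorem u1 : (59 / 256 : ℝ) = ((32435593019392 : ℤ) : ℝ) / 2 ^ 47 := by norm_num

theorem out0 {g F : ℝ} (a0 : -1 ≤ g) (b0 : g ≤ 1) (a1 : 0 ≤ F) (b1 : F ≤ 59 / 256) : 0 < outR prog 0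
    [g, F] :=
  gd 0 (by decide) [g, F] (.cons ⟨l0.le.trans a0, b0.trans u0.le⟩ (.cons ⟨l1.le.trans a1, b1.trans
    u1.le⟩ (.nil))) ⟨nofun, nofun, trivial⟩ (List.forall_mem_nil _) (Van.of0 rfl) (nofun)

theorem pos0 {g F s i x : ℝ} (hs : s = Real.exp (-(4 + 18 * F))) (hi : i = (1 - s)⁻¹) (hx : x = 2 *
    (1 - g) * (1 - F) + g * (1 - 2 * F)) (a0 : -1 ≤ g) (b0 : g ≤ 1) (a1 : 0 ≤ F) (b1 : F ≤ 59 / 256)
    : 0 < (47 / 100 + 13 / 5 * F) * (1 - F) ^ 2 - x * (x * (i * (1 + g) - F) - 2 * (1 - F) * (1 - 2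
    * F)) :=
  have e := eq hs hi hx
  (out0 a0 b0 a1 b1).trans_eq e

end Pool.Agent.Lib.MP_d6150d_an.ZpT
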