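import Pool.Agent.Lib.MP_d6150d_an.ZpUD

/-! A generated chart: the computations. -/

namespace Pool.Agent.Lib.MP_d6150d_an.ZpU

theorem k0 : chk C 0xad0818801 [(0, 140737488355328), (0, 32435593019392)] = true := by
  decide +kernel

end Pool.Agent.Lib.MP_d6150d_an.ZpU
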