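import Pool.Agent.Lib.MP_d6150d_an.GMac
import Pool.Agent.Lib.MP_d6150d_an.ZpUK0

/-! A generated chart: the inequality. -/

namespace Pool.Agent.Lib.MP_d6150d_an.ZpU

set_option linter.unnecessarySeqFocus false
set_option linter.unusedTactic false
set_option linter.unusedVariables false

theorem gd : Gd C [(0, 140737488355328), (0, 32435593019392)] := chk_sound k0

set_option maxRecDepth 100000 in
theorem eq {g F t o mu e y u p q M m X : ℝ} (ht : t = -(4 + 18 * F)) (ho : o = 0) (hmu : mu = muR o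
    F t) (he : e = Real.exp ((2 * F - 1) * t)) (hy : y = Real.exp (-(F * t))) (hu : u = ph1 (-(F *
    t))) (hp : p = (1 - 2 * F)⁻¹) (hq : q = (1 - F)⁻¹) (hM : M = (47 / 100 + 13 / 5 * F) * p ^ 2)
    (hm : m = 1 - F * M) (hX : X = 7 / 24 * (1 - F - 3 / 16 * g) * (t ^ 2 * mu - 35 / 32 * g * e *
    q)) : outR prog 0 [g, F] = m * X * (2 + F * X) - M + t * u * (1 + 2 / 7 * (F * X)) - 2 / 7 * X ∧
    outR prog 1 [g, F] = 2 * m * X * (1 + F * X) - y * (p * (1 + 2 / 7 * (F * X)) + 2 / 7 * X) ∧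
    outR prog 2 [g, F] = m * X - 2 / 7 * y * p ∧ outR prog 3 [g, F] = X ∧ outR prog 4 [g, F] = m ∧
    outR (prog.take 6) 0 [g, F] = g * (1 / 16 - F) ∧ outR (prog.take 9) 0 [g, F] = 23 / 100 - F :=
    by
  replace ht : t = ((Int.cast (-1) : ℝ) * ((Int.cast (4) : ℝ) + ((Int.cast (18) : ℝ) * F))) :=
    ht.trans (by push_cast <;> ring)
  replace ho : o = (Int.cast (0) : ℝ) := ho.trans (by push_cast <;> ring)
  replace hmu : mu = (mMu o F t) := hmu.trans (mMu_0 ..)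
  replace he : e = (Real.exp ((((Int.cast (2) : ℝ) * F) - (Int.cast (1) : ℝ)) * t)) := he.trans
    (congrArg Real.exp (by push_cast <;> ring))
  replace hy : y = (Real.exp ((Int.cast (-1) : ℝ) * (F * t))) := hy.trans (congrArg Real.exp (by
    push_cast <;> ring))
  replace hu : u = (ph1 ((Int.cast (-1) : ℝ) * (F * t))) := hu.trans (congrArg ph1 (by push_cast <;>
    ring))
  replace hp : p = ((Int.cast (1) : ℝ) - ((Int.cast (2) : ℝ) * F))⁻¹ := hp.trans (by push_cast <;>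
    ring)
  replace hq : q = ((Int.cast (1) : ℝ) - F)⁻¹ := hq.trans (by push_cast <;> ring)
  replace hM : M = ((((Int.cast (47) : ℝ) / (Nat.cast 100 : ℝ)) + (((Int.cast (13) : ℝ) / (Nat.cast
    5 : ℝ)) * F)) * (p * p)) := hM.trans (by push_cast <;> ring)
  replace hm : m = ((Int.cast (1) : ℝ) - (F * M)) := hm.trans (by push_cast <;> ring)
  replace hX : X = ((((Int.cast (7) : ℝ) / (Nat.cast 24 : ℝ)) * (((Int.cast (1) : ℝ) - F) -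
    (((Int.cast (3) : ℝ) / (Nat.cast 16 : ℝ)) * g))) * (((t * t) * mu) - (((((Int.cast (35) : ℝ) /
    (Nat.cast 32 : ℝ)) * g) * e) * q))) := hX.trans (by push_cast <;> ring)
  have e0 : (((((m * X) * ((Int.cast (2) : ℝ) + (F * X))) - M) + ((t * u) * ((Int.cast (1) : ℝ) +
    (((Int.cast (2) : ℝ) / (Nat.cast 7 : ℝ)) * (F * X))))) - (((Int.cast (2) : ℝ) / (Nat.cast 7 :
    ℝ)) * X)) = m * X * (2 + F * X) - M + t * u * (1 + 2 / 7 * (F * X)) - 2 / 7 * X := by push_cast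
    <;> ring
  have e1 : (((((Int.cast (2) : ℝ) * m) * X) * ((Int.cast (1) : ℝ) + (F * X))) - (y * ((p *
    ((Int.cast (1) : ℝ) + (((Int.cast (2) : ℝ) / (Nat.cast 7 : ℝ)) * (F * X)))) + (((Int.cast (2) :
    ℝ) / (Nat.cast 7 : ℝ)) * X)))) = 2 * m * X * (1 + F * X) - y * (p * (1 + 2 / 7 * (F * X)) + 2 /
    7 * X) := by push_cast <;> ring
  have e2 : ((m * X) - ((((Int.cast (2) : ℝ) / (Nat.cast 7 : ℝ)) * y) * p)) = m * X - 2 / 7 * y * p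
    := by push_cast <;> ring
  have e5 : (g * (((Int.cast (1) : ℝ) / (Nat.cast 16 : ℝ)) - F)) = g * (1 / 16 - F) := by push_cast
    <;> ring
  have e6 : (((Int.cast (23) : ℝ) / (Nat.cast 100 : ℝ)) - F) = 23 / 100 - F := by push_cast <;> ring
  subst ht ho hmu he hy hu hp hq hM hm hX
  exact ⟨Eq.trans rfl e0, Eq.trans rfl e1, Eq.trans rfl e2, rfl, rfl, Eq.trans rfl e5, Eq.trans rfl
    e6⟩

theorem l0 : ((0 : ℤ) : ℝ) / 2 ^ 47 = 0 := by norm_num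
theorem u0 : (1 : ℝ) = ((140737488355328 : ℤ) : ℝ) / 2 ^ 47 := by norm_num
theorem l1 : ((0 : ℤ) : ℝ) / 2 ^ 47 = 0 := by norm_num
theorem u1 : (59 / 256 : ℝ) = ((32435593019392 : ℤ) : ℝ) / 2 ^ 47 := by norm_num

theorem out0 {g F : ℝ} (a0 : 0 ≤ g) (b0 : g ≤ 1) (a1 : 0 ≤ F) (b1 : F ≤ 59 / 256) (c0 : 0 ≤ outR
    (prog.take 6) 0 [g, F]) (c1 : 0 ≤ outR (prog.take 9) 0 [g, F]) : 0 < outR prog 0 [g, F] :=
  gd 0 (by decide) [g, F] (.cons ⟨l0.le.trans a0, b0.trans u0.le⟩ (.cons ⟨l1.le.trans a1, b1.trans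
    u1.le⟩ (.nil))) ⟨nofun, nofun, trivial⟩ (List.forall_mem_cons.2 ⟨c0, List.forall_mem_cons.2 ⟨c1,
    List.forall_mem_nil _⟩⟩) (Van.of0 rfl) (nofun)

theorem pos0 {g F t o mu e y u p q M m X : ℝ} (ht : t = -(4 + 18 * F)) (ho : o = 0) (hmu : mu = muR
    o F t) (he : e = Real.exp ((2 * F - 1) * t)) (hy : y = Real.exp (-(F * t))) (hu : u = ph1 (-(F *
    t))) (hp : p = (1 - 2 * F)⁻¹) (hq : q = (1 - F)⁻¹) (hM : M = (47 / 100 + 13 / 5 * F) * p ^ 2)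
    (hm : m = 1 - F * M) (hX : X = 7 / 24 * (1 - F - 3 / 16 * g) * (t ^ 2 * mu - 35 / 32 * g * e *
    q)) (a0 : 0 ≤ g) (b0 : g ≤ 1) (a1 : 0 ≤ F) (b1 : F ≤ 59 / 256) (c0 : 0 ≤ g * (1 / 16 - F)) (c1 :
    0 ≤ 23 / 100 - F) : 0 < m * X * (2 + F * X) - M + t * u * (1 + 2 / 7 * (F * X)) - 2 / 7 * X :=
  have e := eq ht ho hmu he hy hu hp hq hM hm hX
  (out0 a0 b0 a1 b1 (c0.trans_eq e.2.2.2.2.2.1.symm) (c1.trans_eq e.2.2.2.2.2.2.symm)).trans_eq e.1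

theorem out1 {g F : ℝ} (a0 : 0 ≤ g) (b0 : g ≤ 1) (a1 : 0 ≤ F) (b1 : F ≤ 59 / 256) (c0 : 0 ≤ outR
    (prog.take 6) 0 [g, F]) (c1 : 0 ≤ outR (prog.take 9) 0 [g, F]) : 0 < outR prog 1 [g, F] :=
  gd 1 (by decide) [g, F] (.cons ⟨l0.le.trans a0, b0.trans u0.le⟩ (.cons ⟨l1.le.trans a1, b1.trans
    u1.le⟩ (.nil))) ⟨nofun, nofun, trivial⟩ (List.forall_mem_cons.2 ⟨c0, List.forall_mem_cons.2 ⟨c1,
    List.forall_mem_nil _⟩⟩) (Van.of0 rfl) (nofun)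

theorem pos1 {g F t o mu e y u p q M m X : ℝ} (ht : t = -(4 + 18 * F)) (ho : o = 0) (hmu : mu = muR
    o F t) (he : e = Real.exp ((2 * F - 1) * t)) (hy : y = Real.exp (-(F * t))) (hu : u = ph1 (-(F *
    t))) (hp : p = (1 - 2 * F)⁻¹) (hq : q = (1 - F)⁻¹) (hM : M = (47 / 100 + 13 / 5 * F) * p ^ 2)
    (hm : m = 1 - F * M) (hX : X = 7 / 24 * (1 - F - 3 / 16 * g) * (t ^ 2 * mu - 35 / 32 * g * e *
    q)) (a0 : 0 ≤ g) (b0 : g ≤ 1) (a1 : 0 ≤ F) (b1 : F ≤ 59 / 256) (c0 : 0 ≤ g * (1 / 16 - F)) (c1 :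
    0 ≤ 23 / 100 - F) : 0 < 2 * m * X * (1 + F * X) - y * (p * (1 + 2 / 7 * (F * X)) + 2 / 7 * X) :=
  have e := eq ht ho hmu he hy hu hp hq hM hm hX
  (out1 a0 b0 a1 b1 (c0.trans_eq e.2.2.2.2.2.1.symm) (c1.trans_eq e.2.2.2.2.2.2.symm)).trans_eq
    e.2.1

theorem out2 {g F : ℝ} (a0 : 0 ≤ g) (b0 : g ≤ 1) (a1 : 0 ≤ F) (b1 : F ≤ 59 / 256) (c0 : 0 ≤ outR
    (prog.take 6) 0 [g, F]) (c1 : 0 ≤ outR (prog.take 9) 0 [g, F]) : 0 < outR prog 2 [g, F] :=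
  gd 2 (by decide) [g, F] (.cons ⟨l0.le.trans a0, b0.trans u0.le⟩ (.cons ⟨l1.le.trans a1, b1.trans
    u1.le⟩ (.nil))) ⟨nofun, nofun, trivial⟩ (List.forall_mem_cons.2 ⟨c0, List.forall_mem_cons.2 ⟨c1,
    List.forall_mem_nil _⟩⟩) (Van.of0 rfl) (nofun)

theorem pos2 {g F t o mu e y u p q M m X : ℝ} (ht : t = -(4 + 18 * F)) (ho : o = 0) (hmu : mu = muR
    o F t) (he : e = Real.exp ((2 * F - 1) * t)) (hy : y = Real.exp (-(F * t))) (hu : u = ph1 (-(F *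
    t))) (hp : p = (1 - 2 * F)⁻¹) (hq : q = (1 - F)⁻¹) (hM : M = (47 / 100 + 13 / 5 * F) * p ^ 2)
    (hm : m = 1 - F * M) (hX : X = 7 / 24 * (1 - F - 3 / 16 * g) * (t ^ 2 * mu - 35 / 32 * g * e *
    q)) (a0 : 0 ≤ g) (b0 : g ≤ 1) (a1 : 0 ≤ F) (b1 : F ≤ 59 / 256) (c0 : 0 ≤ g * (1 / 16 - F)) (c1 :
    0 ≤ 23 / 100 - F) : 0 < m * X - 2 / 7 * y * p :=
  have e := eq ht ho hmu he hy hu hp hq hM hm hX
  (out2 a0 b0 a1 b1 (c0.trans_eq e.2.2.2.2.2.1.symm) (c1.trans_eq e.2.2.2.2.2.2.symm)).trans_eq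
    e.2.2.1

theorem out3 {g F : ℝ} (a0 : 0 ≤ g) (b0 : g ≤ 1) (a1 : 0 ≤ F) (b1 : F ≤ 59 / 256) (c0 : 0 ≤ outR
    (prog.take 6) 0 [g, F]) (c1 : 0 ≤ outR (prog.take 9) 0 [g, F]) : 0 < outR prog 3 [g, F] :=
  gd 3 (by decide) [g, F] (.cons ⟨l0.le.trans a0, b0.trans u0.le⟩ (.cons ⟨l1.le.trans a1, b1.trans
    u1.le⟩ (.nil))) ⟨nofun, nofun, trivial⟩ (List.forall_mem_cons.2 ⟨c0, List.forall_mem_cons.2 ⟨c1,
    List.forall_mem_nil _⟩⟩) (Van.of0 rfl) (nofun)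

theorem pos3 {g F t o mu e y u p q M m X : ℝ} (ht : t = -(4 + 18 * F)) (ho : o = 0) (hmu : mu = muR
    o F t) (he : e = Real.exp ((2 * F - 1) * t)) (hy : y = Real.exp (-(F * t))) (hu : u = ph1 (-(F *
    t))) (hp : p = (1 - 2 * F)⁻¹) (hq : q = (1 - F)⁻¹) (hM : M = (47 / 100 + 13 / 5 * F) * p ^ 2)
    (hm : m = 1 - F * M) (hX : X = 7 / 24 * (1 - F - 3 / 16 * g) * (t ^ 2 * mu - 35 / 32 * g * e *
    q)) (a0 : 0 ≤ g) (b0 : g ≤ 1) (a1 : 0 ≤ F) (b1 : F ≤ 59 / 256) (c0 : 0 ≤ g * (1 / 16 - F)) (c1 :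
    0 ≤ 23 / 100 - F) : 0 < X :=
  have e := eq ht ho hmu he hy hu hp hq hM hm hX
  (out3 a0 b0 a1 b1 (c0.trans_eq e.2.2.2.2.2.1.symm) (c1.trans_eq e.2.2.2.2.2.2.symm)).trans_eq
    e.2.2.2.1

theorem out4 {g F : ℝ} (a0 : 0 ≤ g) (b0 : g ≤ 1) (a1 : 0 ≤ F) (b1 : F ≤ 59 / 256) (c0 : 0 ≤ outR
    (prog.take 6) 0 [g, F]) (c1 : 0 ≤ outR (prog.take 9) 0 [g, F]) : 0 < outR prog 4 [g, F] :=
  gd 4 (by decide) [g, F] (.cons ⟨l0.le.trans a0, b0.trans u0.le⟩ (.cons ⟨l1.le.trans a1, b1.trans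
    u1.le⟩ (.nil))) ⟨nofun, nofun, trivial⟩ (List.forall_mem_cons.2 ⟨c0, List.forall_mem_cons.2 ⟨c1,
    List.forall_mem_nil _⟩⟩) (Van.of0 rfl) (nofun)

theorem pos4 {g F t o mu e y u p q M m X : ℝ} (ht : t = -(4 + 18 * F)) (ho : o = 0) (hmu : mu = muR
    o F t) (he : e = Real.exp ((2 * F - 1) * t)) (hy : y = Real.exp (-(F * t))) (hu : u = ph1 (-(F *
    t))) (hp : p = (1 - 2 * F)⁻¹) (hq : q = (1 - F)⁻¹) (hM : M = (47 / 100 + 13 / 5 * F) * p ^ 2)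
    (hm : m = 1 - F * M) (hX : X = 7 / 24 * (1 - F - 3 / 16 * g) * (t ^ 2 * mu - 35 / 32 * g * e *
    q)) (a0 : 0 ≤ g) (b0 : g ≤ 1) (a1 : 0 ≤ F) (b1 : F ≤ 59 / 256) (c0 : 0 ≤ g * (1 / 16 - F)) (c1 :
    0 ≤ 23 / 100 - F) : 0 < m :=
  have e := eq ht ho hmu he hy hu hp hq hM hm hX
  (out4 a0 b0 a1 b1 (c0.trans_eq e.2.2.2.2.2.1.symm) (c1.trans_eq e.2.2.2.2.2.2.symm)).trans_eq
    e.2.2.2.2.1

end Pool.Agent.Lib.MP_d6150d_an.ZpU
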