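import Pool.Agent.Lib.MP_d6150d_an.Blue
import Pool.Agent.Lib.MP_d6150d_an.ZpA
import Pool.Agent.Lib.MP_d6150d_an.ZpM
import Pool.Agent.Lib.MP_d6150d_an.ZpT
import Pool.Agent.Lib.MP_d6150d_an.ZpU

/-! Small `F`: the left branch and the conclusion. -/

namespace Pool.Agent.Lib.MP_d6150d_an

namespace Zp

open Real Set

variable {D F t : ℝ}

theorem anti {K K' : ℝ → ℝ} {a b : ℝ} (hab : a ≤ b) (d : ∀ s, HasDerivAt K (K' s) s)
    (h : ∀ s ∈ Icc a b, K' s ≤ 0) : K b ≤ K a :=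
  antitoneOn_of_deriv_nonpos (convex_Icc a b) (fun s _ ↦ (d s).continuousAt.continuousWithinAt)
    (fun s _ ↦ (d s).differentiableAt.differentiableWithinAt)
    (fun s hs ↦ (d s).deriv ▸ h s (interior_subset hs)) (left_mem_Icc.2 hab) (right_mem_Icc.2 hab) hab

theorem ey (F t : ℝ) : exp ((2 * F - 1) * t) * exp t = exp (F * t) ^ 2 := by
  rw [sq, ← exp_add, ← exp_add]; ring_nf

/-- the normal form on the left branch -/
theorem form (ht : t ∈ JR D) (t0 : t < 0) : ∃ x σ : ℝ, 0 < x ∧ σ < 1 ∧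
    D * (1 - exp t) * (1 - σ) = -σ * exp t ∧
    vR D F t * (1 - σ) = exp ((2 * F - 1) * t) * (1 - exp t) * x ∧
    phi4 D F t = exp (F * t) * (x * (x * ((1 - exp t)⁻¹ * (1 + σ) - F) - 2)) - uR F t := by
  have o0 : 0 < om D t := ht
  have s0 := exp_pos t
  have s1 : 0 < 1 - exp t := sub_pos.2 (exp_lt_one_iff.2 t0)
  have v0 := vR_pos (F := F) ht t0.ne
  have y0 := exp_pos (F * t)
  have eo : om D t = exp t - D * (1 - exp t) := by rw [om]; ring
  have eE : exp ((2 * F - 1) * t) = exp (F * t) ^ 2 / exp t := eq_div_of_mul_eq s0.ne' (ey F t)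
  refine ⟨vR D F t * exp t ^ 2 / (exp (F * t) ^ 2 * (1 - exp t) * om D t), 1 - exp t / om D t,
    by positivity, by have := div_pos s0 o0; linarith, ?_, ?_, ?_⟩
  · field_simp; rw [eo]; ring
  · rw [eE]; field_simp; ring
  · have h : exp t - 1 = -(1 - exp t) := by ring
    have e2 : sv2 D F (exp (-t)) = (exp t)⁻¹ ^ 2 * (2 * om D t - exp t - F * (1 - exp t) * om D t) := by
      rw [sv2, exp_neg, eo]; field_simp; ring
    rw [phi4_form ht t0.ne, sφ, sv1_eq, e2, exp_neg, h]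
    generalize 1 - exp t = b at *
    field_simp
    ring

theorem left1 (H : Rg D F) (ht : t ∈ JR D) (t1 : t ≤ -2) (t2 : -(4 + 18 * F) ≤ t) :
    phi4 D F t < ee F (cc D F * vR D F t) := by
  obtain ⟨x, σ, x0, σ1, eD, eV, e4⟩ := form (F := F) ht (by linarith)
  have f0 := H.f0
  have f1 := H.f1
  have s0 := exp_pos t
  have s1 : exp t ≤ 1 / 7 := by
    have := exp_le_exp.2 t1
    have h2 : (7 : ℝ) ≤ exp 1 ^ 2 := le_trans (by norm_num) (pow_le_pow_left₀ (by norm_num) exp_one_gt_d9.le 2)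
    rw [← exp_nat_mul] at h2
    rw [exp_neg, ← one_div] at this
    exact this.trans (one_div_le_one_div_of_le (by norm_num) (by simpa using h2))
  obtain ⟨k, hk⟩ : ∃ k, k * (2 - σ) = 1 := ⟨(2 - σ)⁻¹, inv_mul_cancel₀ (by linarith)⟩
  have k0 : 0 < k := pos_of_mul_pos_left (a := k) (b := 2 - σ) (by linarith) (by linarith)
  have k1 : k ≤ 1 := by nlinarith
  have e1 := exp_a1 (F := F) t
  have e2 := exp_a2 (F := F) t
  have eW := vR_eq D F t
  rw [ph1_neg (2 * F * t), ph1_neg ((2 * F - 1) * t), ph1_neg ((2 * F - 2) * t), e1, e2] at eW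
  have E2 := exp_pos ((2 * F - 2) * t)
  have E1 := exp_pos ((2 * F - 1) * t)
  obtain ⟨i, hi⟩ : ∃ i, i = (1 - exp t)⁻¹ := ⟨_, rfl⟩
  have ei : i * (1 - exp t) = 1 := by rw [hi]; exact inv_mul_cancel₀ (by linarith)
  have i0 : 0 < i := by rw [hi]; exact inv_pos.2 (by linarith)
  have := ZpM.pos0 (k := k) (F := F) (h := (-t - 2) / (2 + 18 * F)) (t := t) (x := k * x)
    (B := -(k ^ 3 * phi4 D F t)) (by field_simp; ring) rfl rfl rfl rfl rfl rfl hi ?_ ?_ rfl rfl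
    k0.le k1 f0.le (by linarith) (div_nonneg (by linarith) (by linarith))
    ((div_le_one (by linarith)).2 (by linarith))
  · have c0 : 0 ≤ 1 - F + 4 * exp t * i * (2 * k - 1) := by
      have a : exp t * i ≤ 1 / 6 := by nlinarith
      nlinarith [mul_pos (mul_pos s0 i0) k0]
    have c1 : 1 - F + 4 * exp t * i * (2 * k - 1) ≤ 1 - F - 2 * D := by
      refine le_of_mul_le_mul_right ?_ (mul_pos (sub_pos.2 σ1) (show 0 < 2 - σ by linarith))
      have a := mul_nonneg (mul_pos s0 i0).le (sq_nonneg σ)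
      have b : D * (1 - σ) = -σ * exp t * i := by linear_combination i * eD - D * (1 - σ) * ei
      linear_combination 2 * a + 8 * exp t * i * (1 - σ) * hk + 2 * (2 - σ) * b
    have v1 : 4 * k * (exp ((2 * F - 1) * t) * (1 - exp t) * (k * x)) ≤ vR D F t := by
      have a := mul_nonneg (mul_nonneg (vR_pos (F := F) ht (by linarith)).le (sq_nonneg k)) (sq_nonneg σ)
      linear_combination a - 4 * k ^ 2 * eV + vR D F t * (k * (2 - σ) + 1) * hk
    have v0 : 0 ≤ 4 * k * (exp ((2 * F - 1) * t) * (1 - exp t) * (k * x)) :=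
      mul_nonneg (by linarith) (mul_nonneg (mul_nonneg E1.le (by linarith)) (by positivity))
    have X0 := mul_nonneg c0 v0
    have X1 := mul_le_mul c1 v1 v0 (c0.trans c1)
    generalize hX : 7 / 6 * k * exp ((2 * F - 1) * t) * (1 - exp t) * (k * x) *
      (1 - F + 4 * exp t * i * (2 * k - 1)) = X at this
    have X2 : 0 ≤ X := by linarith
    refine lt_of_lt_of_le ?_ (ee_mono f0.le X2 (by rw [cc]; linarith))
    rw [ee, lt_div_iff₀ (by positivity)]
    exact lt_of_mul_lt_mul_left (a := k ^ 3) (by linarith) (by positivity)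
  · refine mul_left_cancel₀ (mul_pos E2 s0).ne' ?_
    rw [eW, e2] at eV
    generalize exp ((2 * F - 2) * t) = E at *
    generalize ph1 (-(2 * F * t)) = a at *
    generalize ph1 (-((2 * F - 1) * t)) = b at *
    generalize ph1 (-((2 * F - 2) * t)) = c at *
    generalize exp t = s at *
    linear_combination -k * i * eV - E * s * k * x * ei +
      2 * t * E * i ^ 2 * k * (a * s ^ 2 - 2 * b * s + c) * eD -
      2 * t * E * i * k * D * (1 - σ) * (a * s ^ 2 - 2 * b * s + c) * ei +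
      2 * t * E * s * i * ((a * s - b) + i * (a * s ^ 2 - 2 * b * s + c)) * hk
  · rw [e4, ← hi, uR]
    linear_combination exp (F * t) * k ^ 2 * x ^ 2 * i * hk

theorem V_le (f0 : 0 ≤ F) (f1 : F ≤ 1 / 2) (ht : t ∈ JR D) (t0 : t ≤ 0) :
    (1 - 2 * F) * (1 - F) * vR D F t ≤ exp ((2 * F - 2) * t) * (1 - exp t) *
      (2 * (1 - F) * exp t - D * (1 - 2 * F) * (1 - exp t)) := by
  have := anti (K := fun t ↦ exp ((2 * F - 2) * t) * (1 - exp t) *
      (2 * (1 - F) * exp t - D * (1 - 2 * F) * (1 - exp t)) - (1 - 2 * F) * (1 - F) * vR D F t)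
    (K' := fun t ↦ -(2 * (exp ((2 * F - 2) * t) * exp t) *
      (F * exp t + (1 - 2 * F) * om D t))) t0
    (fun s ↦ ((((dey s).mul ((hasDerivAt_exp s).const_sub 1)).mul
      (((hasDerivAt_exp s).const_mul _).sub (((hasDerivAt_exp s).const_sub 1).const_mul _))).sub
      ((hasDerivAt_vR D F s).const_mul _)).congr_deriv (by simp only [WR, om, Pi.mul_apply, Pi.sub_apply]; ring))
    (fun s hs ↦ neg_nonpos.2 (mul_nonneg (by positivity)
      (add_nonneg (by positivity) (mul_nonneg (by linarith)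
        (le_of_lt (JR_conn ht (zero_mem_JR D) hs.1 hs.2))))))
  simp only [vR, exp_zero] at this ⊢
  linarith

theorem V_ge {P : ℝ} (f1 : F ≤ 1) (P0 : 0 ≤ P) (P1 : D ≤ P) (t0 : t ≤ 0) :
    (1 - F) * vR 0 F t - P * exp ((2 * F - 2) * t) ≤ (1 - F) * vR D F t := by
  have := anti (K := fun t ↦ (1 - F) * vR D F t - (1 - F) * vR 0 F t + P * exp ((2 * F - 2) * t))
    (K' := fun t ↦ 2 * (1 - F) * exp ((2 * F - 2) * t) * (D * (1 - exp t) ^ 2 - P)) t0
    (fun s ↦ ((((hasDerivAt_vR D F s).const_mul _).sub ((hasDerivAt_vR 0 F s).const_mul _)).add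
      ((dey s).const_mul _)).congr_deriv (by simp only [WR, om]; ring))
    (fun s hs ↦ mul_nonpos_of_nonneg_of_nonpos (mul_nonneg (by linarith) (exp_pos _).le) (by
      have a := exp_pos s
      have b := exp_le_one_iff.2 hs.2
      have c := mul_le_mul_of_nonneg_right P1 (sq_nonneg (1 - exp s))
      have d := mul_le_mul_of_nonneg_left (show (1 - exp s) ^ 2 ≤ 1 by nlinarith) P0
      linarith))
  simp only [vR] at this ⊢
  linarith [mul_nonneg P0 (exp_pos ((2 * F - 2) * 0)).le]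

theorem V_mono {T : ℝ} (f0 : 0 ≤ F) (f1 : F ≤ 1 / 2) (h : t ≤ T) (T0 : T ≤ 0) :
    vR 0 F T * exp ((1 - 2 * F) * T) ≤ vR 0 F t * exp ((1 - 2 * F) * t) :=
  anti (K := fun t ↦ vR 0 F t * exp ((1 - 2 * F) * t))
    (K' := fun t ↦ (WR 0 F t + (1 - 2 * F) * vR 0 F t) * exp ((1 - 2 * F) * t)) h
    (fun s ↦ ((hasDerivAt_vR 0 F s).mul (dey s)).congr_deriv (by ring))
    fun s hs ↦ mul_nonpos_of_nonpos_of_nonneg (by
      have := V_le (D := 0) f0 f1 (show 0 < om 0 s by simpa [om] using exp_pos s) (hs.2.trans T0)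
      refine nonpos_of_mul_nonpos_right (a := 1 - F) ?_ (by linarith)
      simp only [WR, om]; linarith) (exp_pos _).le

theorem core {M m X Y μ w u p y : ℝ} (f0 : 0 < F) (hm : m = 1 - F * M) (m0 : 0 < m) (X0 : 0 < X)
    (hY : Y = 1 + F * u) (μ1 : 1 ≤ μ) (y0 : 0 < y) (hy : 1 ≤ y * (Y * (1 + F * p * (μ - 1))))
    (c0 : 0 < m * X * (2 + F * X) - M - u * (1 + 2 / 7 * (F * X)) - 2 / 7 * X)
    (c1 : 0 < 2 * m * X * (1 + F * X) - Y * (p * (1 + 2 / 7 * (F * X)) + 2 / 7 * X))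
    (c2 : 0 < m * X - 2 / 7 * Y * p) (hw : F * w ≤ 1 - y * m) : w < ee F (X * μ) := by
  have μ0 : 0 < μ := by linarith
  have h1 : 0 < m * (1 + F * (X * μ)) ^ 2 -
      Y * (1 + F * p * (μ - 1)) * (1 + 2 / 7 * (F * (X * μ))) := by
    have a := mul_pos f0 c0
    have b := mul_nonneg (mul_pos f0 c1).le (sub_nonneg.2 μ1)
    have c := mul_nonneg (mul_pos (mul_pos (pow_pos f0 2) X0) c2).le (sq_nonneg (μ - 1))
    linear_combination a + b + c - hm + (1 + 2 / 7 * (F * X)) * hY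
  have h2 := mul_le_mul_of_nonneg_right hy (show 0 ≤ 1 + 2 / 7 * (F * (X * μ)) by positivity)
  have h3 := mul_pos y0 h1
  have h4 := mul_le_mul_of_nonneg_right hw (sq_nonneg (1 + F * (X * μ)))
  rw [ee, lt_div_iff₀ (by positivity)]
  exact lt_of_mul_lt_mul_left (a := F) (by linarith) f0.le

theorem rho_le {x σ : ℝ} (f0 : 0 ≤ F) (f1 : F ≤ 23 / 100) (t1 : t ≤ -(4 + 18 * F)) (x0 : 0 < x)
    (σ1 : σ < 1) (hx : (1 - 2 * F) * (1 - F) * x ≤ 2 * (1 - σ) * (1 - F) + σ * (1 - 2 * F)) :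
    x * (x * ((1 - exp t)⁻¹ * (1 + σ) - F) - 2) ≤ (47 / 100 + 13 / 5 * F) * (1 - 2 * F)⁻¹ ^ 2 := by
  rcases le_total (x * ((1 - exp t)⁻¹ * (1 + σ) - F)) 2 with l | l
  · exact (mul_nonpos_of_nonneg_of_nonpos x0.le (by linarith)).trans (by positivity)
  have s1 : exp (-(4 + 18 * F)) < 1 := exp_lt_one_iff.2 (by linarith)
  have s2 := exp_le_exp.2 t1
  have i0 : 0 < (1 - exp t)⁻¹ := inv_pos.2 (by linarith)
  have i1 : (1 - exp t)⁻¹ ≤ (1 - exp (-(4 + 18 * F)))⁻¹ := inv_anti₀ (by linarith) (by linarith)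
  have k0 : 0 < (1 - exp t)⁻¹ * (1 + σ) - F := pos_of_mul_pos_right (by linarith) x0.le
  have σ0 : 0 < 1 + σ := pos_of_mul_pos_right (a := (1 - exp t)⁻¹) (by linarith) i0.le
  have c := ZpT.pos0 (g := σ) (F := F) rfl rfl rfl (by linarith) σ1.le f0 (by linarith)
  have k1 := mul_le_mul_of_nonneg_right i1 σ0.le
  generalize (1 - exp (-(4 + 18 * F)))⁻¹ * (1 + σ) = k' at *
  generalize (1 - exp t)⁻¹ * (1 + σ) = k at *
  generalize 2 * (1 - σ) * (1 - F) + σ * (1 - 2 * F) = x' at *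
  have p0 : 0 < (1 - 2 * F) * (1 - F) := mul_pos (by linarith) (by linarith)
  have a1 := mul_le_mul hx (sub_le_sub_right k1 F) k0.le ((mul_pos p0 x0).le.trans hx)
  have a2 := mul_le_mul hx (show (1 - 2 * F) * (1 - F) * (x * (k - F) - 2) ≤
    x' * (k' - F) - 2 * (1 - F) * (1 - 2 * F) by linarith) (mul_nonneg p0.le (by linarith))
    ((mul_pos p0 x0).le.trans hx)
  rw [inv_pow, ← div_eq_mul_inv, le_div_iff₀ (pow_pos (by linarith) 2)]
  exact le_of_mul_le_mul_right (a := (1 - F) ^ 2) (by linarith) (pow_pos (by linarith) 2)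

theorem left2 (H : Rg D F) (ht : t ∈ JR D) (t1 : t ≤ -(4 + 18 * F)) :
    phi4 D F t < ee F (cc D F * vR D F t) := by
  have f0 := H.f0
  have f1 := H.f1
  have t0 : t < 0 := by linarith
  obtain ⟨x, σ, x0, σ1, eD, eV, e4⟩ := form (F := F) ht t0
  have s0 := exp_pos t
  have s1 : 0 < 1 - exp t := sub_pos.2 (exp_lt_one_iff.2 t0)
  have e2 := exp_a2 (F := F) t
  have E2 := exp_pos ((2 * F - 2) * t)
  have hx : (1 - 2 * F) * (1 - F) * x ≤ 2 * (1 - σ) * (1 - F) + σ * (1 - 2 * F) := by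
    have a := mul_le_mul_of_nonneg_right (V_le f0.le (by linarith) ht t0.le) (sub_pos.2 σ1).le
    refine le_of_mul_le_mul_left ?_ (mul_pos (mul_pos E2 s0) s1)
    rw [e2] at eV
    linear_combination a - (1 - 2 * F) * (1 - F) * eV -
      exp ((2 * F - 2) * t) * (1 - exp t) * (1 - 2 * F) * eD
  have hρ := mul_le_mul_of_nonneg_left (rho_le f0.le f1 t1 x0 σ1 hx) (mul_pos f0 (exp_pos (F * t))).le
  obtain ⟨g, P, g0, g1, g2, g3, P0, P1, P2⟩ : ∃ g P : ℝ, 0 ≤ g ∧ g ≤ 1 ∧ 0 ≤ g * (1 / 16 - F) ∧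
      2 * D ≤ 3 / 16 * g ∧ 0 ≤ P ∧ D ≤ P ∧ P ≤ 35 / 32 * g * exp t := by
    rcases le_total D 0 with l | l
    · exact ⟨0, 0, le_rfl, zero_le_one, by simp, by linarith, le_rfl, l, by simp⟩
    rcases H.p with k | k
    · exact ⟨0, 0, le_rfl, zero_le_one, by simp, by linarith, le_rfl, k, by simp⟩
    · have : 0 < (1 + D) * exp t - D := ht
      exact ⟨1, D, zero_le_one, le_rfl, by linarith, by linarith [H.d1], l, le_rfl,
        by nlinarith [H.d1]⟩
  obtain ⟨T, hT⟩ : ∃ T, T = -(4 + 18 * F) := ⟨_, rfl⟩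
  obtain ⟨p, hp⟩ : ∃ p, p = (1 - 2 * F)⁻¹ := ⟨_, rfl⟩
  obtain ⟨q, hq⟩ : ∃ q, q = (1 - F)⁻¹ := ⟨_, rfl⟩
  obtain ⟨M, hM⟩ : ∃ M, M = (47 / 100 + 13 / 5 * F) * p ^ 2 := ⟨_, rfl⟩
  obtain ⟨m, hm⟩ : ∃ m, m = 1 - F * M := ⟨_, rfl⟩
  obtain ⟨X, hX⟩ : ∃ X, X = 7 / 24 * (1 - F - 3 / 16 * g) *
    (T ^ 2 * muR 0 F T - 35 / 32 * g * exp ((2 * F - 1) * T) * q) := ⟨_, rfl⟩
  have f2 : F ≤ 59 / 256 := by linarith
  have f3 := sub_nonneg.2 f1
  have c0 := ZpU.pos0 hT rfl rfl rfl rfl rfl hp hq hM hm hX g0 g1 f0.le f2 g2 f3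
  have c1 := ZpU.pos1 hT rfl rfl rfl rfl rfl hp hq hM hm hX g0 g1 f0.le f2 g2 f3
  have c2 := ZpU.pos2 hT rfl rfl rfl rfl rfl hp hq hM hm hX g0 g1 f0.le f2 g2 f3
  have c3 := ZpU.pos3 hT rfl rfl rfl rfl rfl hp hq hM hm hX g0 g1 f0.le f2 g2 f3
  have c4 := ZpU.pos4 hT rfl rfl rfl rfl rfl hp hq hM hm hX g0 g1 f0.le f2 g2 f3
  rw [← hp, ← hM] at hρ
  rw [← hT] at t1
  have ep : (1 - 2 * F) * p = 1 := by rw [hp]; exact mul_inv_cancel₀ (by linarith)
  have eq : (1 - F) * q = 1 := by rw [hq]; exact mul_inv_cancel₀ (by linarith)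
  have p0 : 0 < p := by rw [hp]; exact inv_pos.2 (by linarith)
  have q0 : 0 < q := by rw [hq]; exact inv_pos.2 (by linarith)
  have μ1 : 1 ≤ exp ((1 - 2 * F) * (T - t)) := one_le_exp (mul_nonneg (by linarith) (by linarith))
  have cv := convexOn_exp.2 (mem_univ ((1 - 2 * F) * (T - t))) (mem_univ 0) (mul_pos f0 p0).le
    (show 0 ≤ 1 - F * p by nlinarith) (by ring)
  simp only [smul_eq_mul, mul_zero, add_zero, exp_zero, mul_one] at cv
  have y1 : exp (F * t) * (exp (-(F * T)) * exp (F * p * ((1 - 2 * F) * (T - t)))) = 1 := by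
    rw [← exp_add, ← exp_add, exp_eq_one_iff]; linear_combination F * (T - t) * ep
  have hw := core (w := phi4 D F t) (u := -(T * ph1 (-(F * T)))) (y := exp (F * t)) f0 hm c4 c3
    (by rw [exp_eq_ph]; ring) μ1 (exp_pos _) (y1.ge.trans (mul_le_mul_of_nonneg_left
      (mul_le_mul_of_nonneg_left (cv.trans_eq (by ring)) (exp_pos _).le) (exp_pos _).le))
    (c0.trans_eq (by ring)) c1 c2 (by rw [e4, hm]; linear_combination hρ - F_uR (F := F) t)
  refine hw.trans_le (ee_mono f0.le (by positivity) ?_)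
  have a1 := V_mono f0.le (by linarith) t1 (by linarith)
  have a2 := mul_le_mul_of_nonneg_left (V_ge (by linarith : F ≤ 1) P0 P1 t0.le) q0.le
  have a3 := mul_le_mul_of_nonneg_left P2 (mul_pos q0 E2).le
  have b1 : exp ((1 - 2 * F) * T) = exp ((1 - 2 * F) * (T - t)) * exp ((1 - 2 * F) * t) := by
    rw [← exp_add]; ring_nf
  have b2 : exp ((2 * F - 1) * T) * exp ((1 - 2 * F) * (T - t)) = exp ((2 * F - 2) * t) * exp t := by
    rw [← exp_add, ← exp_add]; ring_nf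
  rw [b1, ← mul_assoc] at a1
  have a4 := le_of_mul_le_mul_right a1 (exp_pos _)
  have a5 : (vR 0 F T - 35 / 32 * g * exp ((2 * F - 1) * T) * q) * exp ((1 - 2 * F) * (T - t)) ≤
      vR D F t := by
    linear_combination a4 + a2 + a3 - 35 / 32 * g * q * b2 + (vR D F t - vR 0 F t) * eq
  have a6 := mul_le_mul_of_nonneg_left a5 (show 0 ≤ 1 - F - 3 / 16 * g by linarith)
  have a7 := mul_le_mul_of_nonneg_right (show 1 - F - 3 / 16 * g ≤ 1 - F - 2 * D by linarith)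
    (vR_pos (F := F) ht t0.ne).le
  rw [cc, hX, ← vR]
  linear_combination 7 / 24 * a6 + 7 / 24 * a7

end Zp

/-- the strips with small `F` -/
theorem Zp_holds : St_Zp := fun D F F0 h ↦ noThree_of_pos fun _ H r hr ↦ by
  have R : Zp.Rg D F := by
    rcases h with ⟨h1, h2, h3⟩ | ⟨h1, h2, h3⟩
    · exact ⟨h2, h3, F0, by linarith,
        by linarith [mul_nonneg (sub_nonneg.2 h1) (sq_nonneg (D + 3 / 64))], Or.inr h1⟩
    · exact ⟨by linarith, by linarith, F0, h3, by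
        linarith [sq_nonneg (D + 3 / 64), mul_nonneg F0.le (mul_nonneg (neg_nonneg.2 h2)
          (show 0 ≤ D + 3 / 32 by linarith))], Or.inl h2⟩
  refine H.j_pos AnJ.phi4 (by rw [abs_of_pos hr.1]; exact hr.2) hr.1 fun a ha b hb a0 b0 e ↦
    lt_trans (b := Zp.ee F (Zp.cc D F * vR D F a)) ?_ ?_
  · rcases le_total (-2) a with k | k
    · exact Zp.left0 R ha a0 k
    rcases le_total (-(4 + 18 * F)) a with l | l
    exacts [Zp.left1 R ha k l, Zp.left2 R ha l]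
  · rw [e]
    rcases le_total b 8 with k | k
    exacts [Zp.right0 R hb b0 k, Zp.right1 R hb k]

end Pool.Agent.Lib.MP_d6150d_an
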