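import Pool.Agent.Lib.MP_d6150d_an.Fin0
import Pool.Agent.Lib.MP_d6150d_an.Fin1
import Pool.Agent.Lib.MP_d6150d_an.BcFin
import Pool.Agent.Lib.MP_d6150d_an.B3b
import Pool.Agent.Lib.MP_d6150d_an.U23
import Pool.Agent.Lib.MP_d6150d_an.S6
import Pool.Agent.Lib.MP_d6150d_an.S8
import Pool.Agent.Lib.MP_d6150d_an.Zp
import Pool.Agent.Lib.MP_d6150d_an.Zm
import Pool.Agent.Lib.MP_d6150d_an.S7
import Pool.Agent.Lib.MP_d6150d_an.S1
import Pool.Agent.Lib.MP_d6150d_an.S2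
import Pool.Agent.Lib.MP_d6150d_an.PpMain
import Pool.Agent.Lib.MP_d6150d_an.WMain
import Pool.Agent.Lib.MP_d6150d_an.Z2Main
import Pool.Agent.Lib.MP_d6150d_an.Z3

/-! The whole plane from the last piece. -/

namespace Pool.Agent.Lib.MP_d6150d_an

theorem plane_one (S10 : St_S10) (D F : ℝ) : NoThree D F ∨
    (D = 0 ∧ F = 1) ∨ (D = -1 / 2 ∧ F = 2) ∨ (D = 0 ∧ F = 1 / 4) ∨ (D = -1 / 2 ∧ F = 1 / 2) :=
  plane_of Zp_holds Zm_holds S7_holds S10 S1_holds S2_holds P_holds W_holds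
    (Fin1.BC_of fun D F h1 h2 h3 h4 ↦ (le_total D (-1 / 512)).elim
      (fun k ↦ B3b_holds D F h1 k h3 h4.le) (fun k ↦ Bc_holds D F k h2 h3 h4.le))
    (Fin1.U_of U23_holds) Fin1.X_all Z2_holds Z3_holds S6_holds (S8_of S6_holds) D F

end Pool.Agent.Lib.MP_d6150d_an
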