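import Pool.Agent.Lib.MP_d6150d_an.S10BeD

/-! A generated chart: the computations. -/

namespace Pool.Agent.Lib.MP_d6150d_an.S10Be

theorem q0 :
    chk C 0x8 [(-140737488355328, -70368744177664), (-140737488355328, 0), (0, 140737488355328), (0,
    70368744177664)] = true ∧
    chk C 0x8 [(-140737488355328, -70368744177664), (-140737488355328, 0), (0, 140737488355328),
    (70368744177664, 105553116266496)] = true ∧
    chk C 0x880 [(-140737488355328, -70368744177664), (-140737488355328, -70368744177664), (0,
    140737488355328), (105553116266496, 140737488355328)] = true ∧
    chk C 0x8 [(-140737488355328, -70368744177664), (-70368744177664, 0), (0, 140737488355328),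
    (105553116266496, 140737488355328)] = true ∧
    chk C 0x8 [(-70368744177664, 0), (-140737488355328, 0), (0, 140737488355328), (0,
    140737488355328)] = true ∧
    chk C 0x881 [(-140737488355328, -105553116266496), (0, 140737488355328), (0, 70368744177664),
    (0, 70368744177664)] = true ∧
    chk C 0x8 [(-105553116266496, -70368744177664), (0, 140737488355328), (0, 70368744177664), (0,
    70368744177664)] = true ∧
    chk C 0x881 [(-70368744177664, -35184372088832), (0, 140737488355328), (0, 70368744177664), (0,
    70368744177664)] = true ∧
    chk C 0x8 [(-35184372088832, 0), (0, 140737488355328), (0, 70368744177664), (0, 70368744177664)]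
    = true ∧
    chk C 0x881 [(-140737488355328, -105553116266496), (0, 140737488355328), (0, 70368744177664),
    (70368744177664, 140737488355328)] = true ∧
    chk C 0x8 [(-105553116266496, -70368744177664), (0, 140737488355328), (0, 70368744177664),
    (70368744177664, 140737488355328)] = true ∧
    chk C 0x880 [(-70368744177664, 0), (0, 140737488355328), (0, 70368744177664), (70368744177664,
    140737488355328)] = true ∧
    chk C 0x881 [(-140737488355328, -105553116266496), (0, 140737488355328), (70368744177664,
    140737488355328), (0, 70368744177664)] = true ∧
    chk C 0x8 [(-105553116266496, -70368744177664), (0, 140737488355328), (70368744177664,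
    140737488355328), (0, 70368744177664)] = true ∧
    chk C 0x881 [(-70368744177664, -35184372088832), (0, 140737488355328), (70368744177664,
    140737488355328), (0, 70368744177664)] = true ∧
    chk C 0x8 [(-35184372088832, 0), (0, 140737488355328), (70368744177664, 140737488355328), (0,
    70368744177664)] = true ∧
    chk C 0x881 [(-140737488355328, -105553116266496), (0, 140737488355328), (70368744177664,
    140737488355328), (70368744177664, 140737488355328)] = true ∧
    chk C 0x8 [(-105553116266496, -70368744177664), (0, 140737488355328), (70368744177664,
    140737488355328), (70368744177664, 140737488355328)] = true ∧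
    chk C 0x880 [(-70368744177664, 0), (0, 140737488355328), (70368744177664, 140737488355328),
    (70368744177664, 140737488355328)] = true ∧
    chk C 0x881 [(0, 70368744177664), (-140737488355328, 140737488355328), (0, 140737488355328), (0,
    140737488355328)] = true := by
  refine ⟨?_, ?_, ?_, ?_, ?_, ?_, ?_, ?_, ?_, ?_, ?_, ?_, ?_, ?_, ?_, ?_, ?_, ?_, ?_, ?_⟩ <;> decide
    +kernel

end Pool.Agent.Lib.MP_d6150d_an.S10Be
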