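import Pool.Agent.Lib.MP_d6150d_an.GMac
import Pool.Agent.Lib.MP_d6150d_an.S10BeK0
import Pool.Agent.Lib.MP_d6150d_an.S10BeK1

/-! A generated chart: the inequality. -/

namespace Pool.Agent.Lib.MP_d6150d_an.S10Be

set_option linter.unnecessarySeqFocus false
set_option linter.unusedTactic false
set_option linter.unusedVariables false

theorem gd : Gd C [(-140737488355328, 140737488355328), (-140737488355328, 140737488355328), (0,
    140737488355328), (0, 140737488355328)] := .split 0 (.split 1 (.split 0 (.split 3 (chk_sound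
    q0.1) (.split 3 (chk_sound q0.2.1) (.split 1 (chk_sound q0.2.2.1) (chk_sound q0.2.2.2.1))))
    (chk_sound q0.2.2.2.2.1)) (.split 2 (.split 3 (.split 0 (.split 0 (chk_sound q0.2.2.2.2.2.1)
    (chk_sound q0.2.2.2.2.2.2.1)) (.split 0 (chk_sound q0.2.2.2.2.2.2.2.1) (chk_sound
    q0.2.2.2.2.2.2.2.2.1))) (.split 0 (.split 0 (chk_sound q0.2.2.2.2.2.2.2.2.2.1) (chk_sound
    q0.2.2.2.2.2.2.2.2.2.2.1)) (chk_sound q0.2.2.2.2.2.2.2.2.2.2.2.1))) (.split 3 (.split 0 (.split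
    0 (chk_sound q0.2.2.2.2.2.2.2.2.2.2.2.2.1) (chk_sound q0.2.2.2.2.2.2.2.2.2.2.2.2.2.1)) (.split 0
    (chk_sound q0.2.2.2.2.2.2.2.2.2.2.2.2.2.2.1) (chk_sound q0.2.2.2.2.2.2.2.2.2.2.2.2.2.2.2.1)))
    (.split 0 (.split 0 (chk_sound q0.2.2.2.2.2.2.2.2.2.2.2.2.2.2.2.2.1) (chk_sound
    q0.2.2.2.2.2.2.2.2.2.2.2.2.2.2.2.2.2.1)) (chk_sound
    q0.2.2.2.2.2.2.2.2.2.2.2.2.2.2.2.2.2.2.1))))) (.split 0 (chk_sound
    q0.2.2.2.2.2.2.2.2.2.2.2.2.2.2.2.2.2.2.2) (chk_sound q1))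

set_option maxRecDepth 100000 in
theorem eq {a b r s F D aa ab bb j1 j2 j3 q1 q2 r2 k n10 n11 n12 n20 n21 n22 n02 n03 n30 n31 e4 e5
    e6 e7 g4 g5 g6 g7 T N M iN iM H iH iF l2 q3 A2 A3 c0 c1 A4 Ja La Jb Lb z0 r0 z x P Q W O X e Y
    k0a k0b ua ub k4a k4b k3a k3b k2a k2b k1a k1b Sa Sb zz W7 x4a x2a x1a za x4b x2b x1b zb : ℝ} (hF
    : F = 4 / 3 + b / 32) (hD : D = -103 / 96 + (-1 / 64) * b + a * (19 / 96 + 1 / 64 * b)) (haa :
    aa = a * a) (hab : ab = a * b) (hbb : bb = b * b) (hj1 : j1 = 1644 - 531 * a - 1077 * b) (hj2 :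
    j2 = 1439 + 2344 * a - 103 * b) (hj3 : j3 = -441 - 469 * a - 83 * b) (hq1 : q1 = -32908 + 2430 *
    a + 16727 * b) (hq2 : q2 = 25916 - 15809 * a - 16805 * b) (hr2 : r2 = -99999 - 17074 * a + 52258
    * b) (hk : k = 1090 + 20 * a + 528 * b) (hn10 : n10 = -80605 + 99981 * a + 99997 * b) (hn11 :
    n11 = 36391 + 47592 * a + 99994 * b) (hn12 : n12 = -76479 + 94591 * a - 99994 * b) (hn20 : n20 =
    57722 - 38975 * a - 57675 * b) (hn21 : n21 = 99861 + 70414 * a - 76554 * b) (hn22 : n22 = -83396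
    - 70528 * a + 99995 * b) (hn02 : n02 = 21359 - 54107 * a + 89159 * b) (hn03 : n03 = -1244 -
    15357 * a - 1371 * b) (hn30 : n30 = -87027 - 99988 * a + 1937 * b) (hn31 : n31 = 8332 + 12407 *
    a + 37731 * b) (he4 : e4 = -15438 + 18791 * a - 19269 * b + 5913 * aa - 4114 * ab + 4251 * bb)
    (he5 : e5 = 63917 + 70900 * a - 1407 * b + 52262 * aa + 24884 * ab - 16968 * bb) (he6 : e6 =
    -4687 - 140023 * a + 13356 * b - 191365 * aa - 27603 * ab + 25866 * bb) (he7 : e7 = 634 + 52899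
    * a - 6675 * b + 113524 * aa - 231 * ab - 14783 * bb) (hg4 : g4 = -199949 + 199877 * a - 81303 *
    b - 25892 * aa + 20552 * ab + 4508 * bb) (hg5 : g5 = 164258 - 198610 * a + 63118 * b - 116938 *
    aa - 63392 * ab + 1676 * bb) (hg6 : g6 = 88324 + 75305 * a - 81141 * b + 199363 * aa + 62194 *
    ab - 4457 * bb) (hg7 : g7 = -28705 - 77499 * a + 43055 * b - 91826 * aa - 22014 * ab + 1475 *
    bb) (hT : T = 8) (hN : N = F * (2 * F - 1) * (F - 1)) (hM : M = F - D - 1) (hiN : iN = N⁻¹) (hiM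
    : iM = M⁻¹) (hH : H = M * iN) (hiH : iH = N * iM) (hiF : iF = (2 * F - 1) * (F - 1) * iN) (hl2 :
    l2 = (4 - 3 * F) * (F * (2 * F - 1)) * iN) (hq3 : q3 = l2 * (j1 + j2 + j3 + 4 * k) + (-j1 + 2 *
    j3 - q1 - q2)) (hA2 : A2 = (1 - F - 2 * D) / 6 * H) (hA3 : A3 = (1 - D + 10 * D ^ 2 + F * (4 * F
    + 10 * D - 5)) / 36 * H) (hc0 : c0 = ((-4) * n10 + 2 * n20 - 3 * n30) / 8) (hc1 : c1 = ((-4) *
    n11 + 2 * n21 - 3 * n31 + 3 * n30) / 8 - A3 * (8 * n10 + 8 * n20 - 6 * n30) / 8) (hA4 : A4 = (4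
    - 57 * F - 6 * D + F * (156 * F + 102 * D - F * (103 * F + 312 * D)) - D ^ 2 * (60 + 480 * F +
    320 * D)) / 1080 * H ^ 2) (hJa : Ja = A2 * ((-14) * j1 - 2 * q1)) (hLa : La = A4 * (108 * j1 +
    12 * q1) + A2 * (27 * j2 - 27 * j1 + 9 * q2 + 3 * r2 - c0 - n10)) (hJb : Jb = A2 * ((-14) * j1 -
    2 * q1 + 2 * c0 + 2 * n10)) (hLb : Lb = A4 * (108 * j1 + 12 * q1 + 4 * c0 + 8 * n10 + 8 * n20) +
    A2 * (27 * j2 - 27 * j1 + 9 * q2 + 3 * r2 - 3 * c0 - 3 * n10 + 4 * c1 + 4 * n11)) (hz0 : z0 =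
    Real.exp (-(T * (2 * F - 2)))) (hr0 : r0 = Real.exp (-(T * (3 - 2 * F)))) (hz : z = z0 * s) (hx
    : x = r0 * r * z) (hP : P = (1 + D) * x ^ 2) (hQ : Q = (1 + 2 * D) * x) (hW : W = Q - P - D) (hO
    : O = (2 * (F * (F - 1)) * Q - F * (2 * F - 1) * D - (2 * F - 1) * (F - 1) * P) * iM) (hX : X =
    z * O) (he : e = 1 - X) (hY : Y = H * e / 2) (hk0a : k0a = -j2 + j1 - q2 - r2 - c0 + e * ((-3) *
    j3 + 3 * j2 - 3 * q3 - c1 + e * (15 * j3 - n02 + e * (-n03)))) (hk0b : k0b = k0a + X * (2 * c1 +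
    e * (4 * n02 + e * (6 * n03)))) (hua : ua = iF * k0a) (hub : ub = iF * k0b) (hk4a : k4a = 16 *
    j1 + e * (16 * j2 + e * (16 * j3))) (hk4b : k4b = k4a + X * (2 * n30 + e * (2 * n31))) (hk3a :
    k3a = 104 * j1 + 8 * q1 + e * (112 * j2 - 112 * j1 + 8 * q2 - n30 + e * (128 * j3 - 128 * j2 + 8
    * q3 - n31 + n30 + e * ((-160) * j3 + n31)))) (hk3b : k3b = k3a + X * (6 * n30 + 2 * n20 + e *
    (8 * n31 - 8 * n30 + 2 * n21 + e * ((-10) * n31 + 2 * n22)))) (hk2a : k2a = 68 * j1 + 8 * q1 + e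
    * (160 * j2 - 160 * j1 + 28 * q2 + 4 * r2 - n20 + e * (216 * j3 - 216 * j2 + 36 * q3 - n21 + e *
    ((-360) * j3 - n22)))) (hk2b : k2b = k2a + X * (4 * n20 + 2 * n10 + e * (6 * n21 + 2 * n11 + e *
    (8 * n22 + 2 * n12)))) (hk1a : k1a = (-14) * j1 - 2 * q1 + e * (28 * j2 - 28 * j1 + 10 * q2 + 4
    * r2 - n10 + e * (48 * j3 - 48 * j2 + 18 * q3 - n11 + e * ((-120) * j3 - n12)))) (hk1b : k1b =
    k1a + X * (2 * n10 + 2 * c0 + e * (4 * n11 + 2 * c1 + e * (6 * n12 + 2 * n02 + e * (2 * n03)))))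
    (hSa : Sa = Ja + e * (La + e * (e4 + e * (e5 + e * (e6 + e * e7)))) + ua) (hSb : Sb = Jb + e *
    (Lb + e * (g4 + e * (g5 + e * (g6 + e * g7)))) + ub) (hzz : zz = z ^ 2) (hW7 : W7 = W ^ 7 * (e *
    z)) (hx4a : x4a = O * k4a) (hx2a : x2a = z * k2a) (hx1a : x1a = zz * k1a) (hza : za = x4a * (Y ^
    4 * (pjR F P Q D).2.2) + k3a * (Y ^ 3 * (pjR F P Q D).2.1 * W ^ 2) + x2a * (Y ^ 2 * (pjR F P Q
    D).1 * W ^ 4) + x1a * (Y * W ^ 6)) (hx4b : x4b = O * k4b) (hx2b : x2b = z * k2b) (hx1b : x1b =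
    zz * k1b) (hzb : zb = x4b * (Y ^ 4 * (pjR F P Q D).2.2) + k3b * (Y ^ 3 * (pjR F P Q D).2.1 * W ^
    2) + x2b * (Y ^ 2 * (pjR F P Q D).1 * W ^ 4) + x1b * (Y * W ^ 6)) : outR prog 0 [a, b, r, s] =
    Sa ∧ outR prog 1 [a, b, r, s] = Sb := by
  replace hF : F = (((Int.cast (4) : ℝ) / (Nat.cast 3 : ℝ)) + (((Int.cast (1) : ℝ) / (Nat.cast 32 :
    ℝ)) * b)) := hF.trans (by push_cast <;> ring)
  replace hD : D = ((((Int.cast (-103) : ℝ) / (Nat.cast 96 : ℝ)) + (((Int.cast (-1) : ℝ) / (Nat.cast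
    64 : ℝ)) * b)) + (a * (((Int.cast (19) : ℝ) / (Nat.cast 96 : ℝ)) + (((Int.cast (1) : ℝ) /
    (Nat.cast 64 : ℝ)) * b)))) := hD.trans (by push_cast <;> ring)
  replace haa : aa = (a * a) := haa.trans (by push_cast <;> ring)
  replace hab : ab = (a * b) := hab.trans (by push_cast <;> ring)
  replace hbb : bb = (b * b) := hbb.trans (by push_cast <;> ring)
  replace hj1 : j1 = (((Int.cast (1644) : ℝ) - ((Int.cast (531) : ℝ) * a)) - ((Int.cast (1077) : ℝ)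
    * b)) := hj1.trans (by push_cast <;> ring)
  replace hj2 : j2 = (((Int.cast (1439) : ℝ) + ((Int.cast (2344) : ℝ) * a)) - ((Int.cast (103) : ℝ)
    * b)) := hj2.trans (by push_cast <;> ring)
  replace hj3 : j3 = (((Int.cast (-441) : ℝ) - ((Int.cast (469) : ℝ) * a)) - ((Int.cast (83) : ℝ) *
    b)) := hj3.trans (by push_cast <;> ring)
  replace hq1 : q1 = (((Int.cast (-32908) : ℝ) + ((Int.cast (2430) : ℝ) * a)) + ((Int.cast (16727) :
    ℝ) * b)) := hq1.trans (by push_cast <;> ring)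
  replace hq2 : q2 = (((Int.cast (25916) : ℝ) - ((Int.cast (15809) : ℝ) * a)) - ((Int.cast (16805) :
    ℝ) * b)) := hq2.trans (by push_cast <;> ring)
  replace hr2 : r2 = (((Int.cast (-99999) : ℝ) - ((Int.cast (17074) : ℝ) * a)) + ((Int.cast (52258)
    : ℝ) * b)) := hr2.trans (by push_cast <;> ring)
  replace hk : k = (((Int.cast (1090) : ℝ) + ((Int.cast (20) : ℝ) * a)) + ((Int.cast (528) : ℝ) *
    b)) := hk.trans (by push_cast <;> ring)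
  replace hn10 : n10 = (((Int.cast (-80605) : ℝ) + ((Int.cast (99981) : ℝ) * a)) + ((Int.cast
    (99997) : ℝ) * b)) := hn10.trans (by push_cast <;> ring)
  replace hn11 : n11 = (((Int.cast (36391) : ℝ) + ((Int.cast (47592) : ℝ) * a)) + ((Int.cast (99994)
    : ℝ) * b)) := hn11.trans (by push_cast <;> ring)
  replace hn12 : n12 = (((Int.cast (-76479) : ℝ) + ((Int.cast (94591) : ℝ) * a)) - ((Int.cast
    (99994) : ℝ) * b)) := hn12.trans (by push_cast <;> ring)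
  replace hn20 : n20 = (((Int.cast (57722) : ℝ) - ((Int.cast (38975) : ℝ) * a)) - ((Int.cast (57675)
    : ℝ) * b)) := hn20.trans (by push_cast <;> ring)
  replace hn21 : n21 = (((Int.cast (99861) : ℝ) + ((Int.cast (70414) : ℝ) * a)) - ((Int.cast (76554)
    : ℝ) * b)) := hn21.trans (by push_cast <;> ring)
  replace hn22 : n22 = (((Int.cast (-83396) : ℝ) - ((Int.cast (70528) : ℝ) * a)) + ((Int.cast
    (99995) : ℝ) * b)) := hn22.trans (by push_cast <;> ring)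
  replace hn02 : n02 = (((Int.cast (21359) : ℝ) - ((Int.cast (54107) : ℝ) * a)) + ((Int.cast (89159)
    : ℝ) * b)) := hn02.trans (by push_cast <;> ring)
  replace hn03 : n03 = (((Int.cast (-1244) : ℝ) - ((Int.cast (15357) : ℝ) * a)) - ((Int.cast (1371)
    : ℝ) * b)) := hn03.trans (by push_cast <;> ring)
  replace hn30 : n30 = (((Int.cast (-87027) : ℝ) - ((Int.cast (99988) : ℝ) * a)) + ((Int.cast (1937)
    : ℝ) * b)) := hn30.trans (by push_cast <;> ring)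
  replace hn31 : n31 = (((Int.cast (8332) : ℝ) + ((Int.cast (12407) : ℝ) * a)) + ((Int.cast (37731)
    : ℝ) * b)) := hn31.trans (by push_cast <;> ring)
  replace he4 : e4 = ((((((Int.cast (-15438) : ℝ) + ((Int.cast (18791) : ℝ) * a)) - ((Int.cast
    (19269) : ℝ) * b)) + ((Int.cast (5913) : ℝ) * aa)) - ((Int.cast (4114) : ℝ) * ab)) + ((Int.cast
    (4251) : ℝ) * bb)) := he4.trans (by push_cast <;> ring)
  replace he5 : e5 = ((((((Int.cast (63917) : ℝ) + ((Int.cast (70900) : ℝ) * a)) - ((Int.cast (1407)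
    : ℝ) * b)) + ((Int.cast (52262) : ℝ) * aa)) + ((Int.cast (24884) : ℝ) * ab)) - ((Int.cast
    (16968) : ℝ) * bb)) := he5.trans (by push_cast <;> ring)
  replace he6 : e6 = ((((((Int.cast (-4687) : ℝ) - ((Int.cast (140023) : ℝ) * a)) + ((Int.cast
    (13356) : ℝ) * b)) - ((Int.cast (191365) : ℝ) * aa)) - ((Int.cast (27603) : ℝ) * ab)) +
    ((Int.cast (25866) : ℝ) * bb)) := he6.trans (by push_cast <;> ring)
  replace he7 : e7 = ((((((Int.cast (634) : ℝ) + ((Int.cast (52899) : ℝ) * a)) - ((Int.cast (6675) :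
    ℝ) * b)) + ((Int.cast (113524) : ℝ) * aa)) - ((Int.cast (231) : ℝ) * ab)) - ((Int.cast (14783) :
    ℝ) * bb)) := he7.trans (by push_cast <;> ring)
  replace hg4 : g4 = ((((((Int.cast (-199949) : ℝ) + ((Int.cast (199877) : ℝ) * a)) - ((Int.cast
    (81303) : ℝ) * b)) - ((Int.cast (25892) : ℝ) * aa)) + ((Int.cast (20552) : ℝ) * ab)) +
    ((Int.cast (4508) : ℝ) * bb)) := hg4.trans (by push_cast <;> ring)
  replace hg5 : g5 = ((((((Int.cast (164258) : ℝ) - ((Int.cast (198610) : ℝ) * a)) + ((Int.cast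
    (63118) : ℝ) * b)) - ((Int.cast (116938) : ℝ) * aa)) - ((Int.cast (63392) : ℝ) * ab)) +
    ((Int.cast (1676) : ℝ) * bb)) := hg5.trans (by push_cast <;> ring)
  replace hg6 : g6 = ((((((Int.cast (88324) : ℝ) + ((Int.cast (75305) : ℝ) * a)) - ((Int.cast
    (81141) : ℝ) * b)) + ((Int.cast (199363) : ℝ) * aa)) + ((Int.cast (62194) : ℝ) * ab)) -
    ((Int.cast (4457) : ℝ) * bb)) := hg6.trans (by push_cast <;> ring)
  replace hg7 : g7 = ((((((Int.cast (-28705) : ℝ) - ((Int.cast (77499) : ℝ) * a)) + ((Int.cast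
    (43055) : ℝ) * b)) - ((Int.cast (91826) : ℝ) * aa)) - ((Int.cast (22014) : ℝ) * ab)) +
    ((Int.cast (1475) : ℝ) * bb)) := hg7.trans (by push_cast <;> ring)
  replace hT : T = (Int.cast (8) : ℝ) := hT.trans (by push_cast <;> ring)
  replace hN : N = ((F * (((Int.cast (2) : ℝ) * F) - (Int.cast (1) : ℝ))) * (F - (Int.cast (1) :
    ℝ))) := hN.trans (by push_cast <;> ring)
  replace hM : M = ((F - D) - (Int.cast (1) : ℝ)) := hM.trans (by push_cast <;> ring)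
  replace hiN : iN = N⁻¹ := hiN.trans (by push_cast <;> ring)
  replace hiM : iM = M⁻¹ := hiM.trans (by push_cast <;> ring)
  replace hH : H = (M * iN) := hH.trans (by push_cast <;> ring)
  replace hiH : iH = (N * iM) := hiH.trans (by push_cast <;> ring)
  replace hiF : iF = (((((Int.cast (2) : ℝ) * F) - (Int.cast (1) : ℝ)) * (F - (Int.cast (1) : ℝ))) *
    iN) := hiF.trans (by push_cast <;> ring)
  replace hl2 : l2 = ((((Int.cast (4) : ℝ) - ((Int.cast (3) : ℝ) * F)) * (F * (((Int.cast (2) : ℝ) *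
    F) - (Int.cast (1) : ℝ)))) * iN) := hl2.trans (by push_cast <;> ring)
  replace hq3 : q3 = ((l2 * (((j1 + j2) + j3) + ((Int.cast (4) : ℝ) * k))) + (((((Int.cast (-1) : ℝ)
    * j1) + ((Int.cast (2) : ℝ) * j3)) - q1) - q2)) := hq3.trans (by push_cast <;> ring)
  replace hA2 : A2 = ((((Int.cast (1) : ℝ) / (Nat.cast 6 : ℝ)) * (((Int.cast (1) : ℝ) - F) -
    ((Int.cast (2) : ℝ) * D))) * H) := hA2.trans (by push_cast <;> ring)
  replace hA3 : A3 = ((((Int.cast (1) : ℝ) / (Nat.cast 36 : ℝ)) * ((((Int.cast (1) : ℝ) - D) +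
    ((Int.cast (10) : ℝ) * (D * D))) + (F * ((((Int.cast (4) : ℝ) * F) + ((Int.cast (10) : ℝ) * D))
    - (Int.cast (5) : ℝ))))) * H) := hA3.trans (by push_cast <;> ring)
  replace hc0 : c0 = (((Int.cast (1) : ℝ) / (Nat.cast 8 : ℝ)) * ((((Int.cast (-4) : ℝ) * n10) +
    ((Int.cast (2) : ℝ) * n20)) - ((Int.cast (3) : ℝ) * n30))) := hc0.trans (by push_cast <;> ring)
  replace hc1 : c1 = ((((Int.cast (1) : ℝ) / (Nat.cast 8 : ℝ)) * (((((Int.cast (-4) : ℝ) * n11) +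
    ((Int.cast (2) : ℝ) * n21)) - ((Int.cast (3) : ℝ) * n31)) + ((Int.cast (3) : ℝ) * n30))) -
    (((Int.cast (1) : ℝ) / (Nat.cast 8 : ℝ)) * (A3 * ((((Int.cast (8) : ℝ) * n10) + ((Int.cast (8) :
    ℝ) * n20)) - ((Int.cast (6) : ℝ) * n30))))) := hc1.trans (by push_cast <;> ring)
  replace hA4 : A4 = ((((Int.cast (1) : ℝ) / (Nat.cast 1080 : ℝ)) * (((((Int.cast (4) : ℝ) -
    ((Int.cast (57) : ℝ) * F)) - ((Int.cast (6) : ℝ) * D)) + (F * ((((Int.cast (156) : ℝ) * F) +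
    ((Int.cast (102) : ℝ) * D)) - (F * (((Int.cast (103) : ℝ) * F) + ((Int.cast (312) : ℝ) * D))))))
    - ((D * D) * (((Int.cast (60) : ℝ) + ((Int.cast (480) : ℝ) * F)) + ((Int.cast (320) : ℝ) *
    D))))) * (H * H)) := hA4.trans (by push_cast <;> ring)
  replace hJa : Ja = (A2 * (((Int.cast (-14) : ℝ) * j1) - ((Int.cast (2) : ℝ) * q1))) := hJa.trans
    (by push_cast <;> ring)
  replace hLa : La = ((A4 * (((Int.cast (108) : ℝ) * j1) + ((Int.cast (12) : ℝ) * q1))) + (A2 *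
    (((((((Int.cast (27) : ℝ) * j2) - ((Int.cast (27) : ℝ) * j1)) + ((Int.cast (9) : ℝ) * q2)) +
    ((Int.cast (3) : ℝ) * r2)) - c0) - n10))) := hLa.trans (by push_cast <;> ring)
  replace hJb : Jb = (A2 * (((((Int.cast (-14) : ℝ) * j1) - ((Int.cast (2) : ℝ) * q1)) + ((Int.cast
    (2) : ℝ) * c0)) + ((Int.cast (2) : ℝ) * n10))) := hJb.trans (by push_cast <;> ring)
  replace hLb : Lb = ((A4 * ((((((Int.cast (108) : ℝ) * j1) + ((Int.cast (12) : ℝ) * q1)) +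
    ((Int.cast (4) : ℝ) * c0)) + ((Int.cast (8) : ℝ) * n10)) + ((Int.cast (8) : ℝ) * n20))) + (A2 *
    (((((((((Int.cast (27) : ℝ) * j2) - ((Int.cast (27) : ℝ) * j1)) + ((Int.cast (9) : ℝ) * q2)) +
    ((Int.cast (3) : ℝ) * r2)) - ((Int.cast (3) : ℝ) * c0)) - ((Int.cast (3) : ℝ) * n10)) +
    ((Int.cast (4) : ℝ) * c1)) + ((Int.cast (4) : ℝ) * n11)))) := hLb.trans (by push_cast <;> ring)
  replace hz0 : z0 = (Real.exp ((Int.cast (-1) : ℝ) * (T * (((Int.cast (2) : ℝ) * F) - (Int.cast (2)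
    : ℝ))))) := hz0.trans (congrArg Real.exp (by push_cast <;> ring))
  replace hr0 : r0 = (Real.exp ((Int.cast (-1) : ℝ) * (T * ((Int.cast (3) : ℝ) - ((Int.cast (2) : ℝ)
    * F))))) := hr0.trans (congrArg Real.exp (by push_cast <;> ring))
  replace hz : z = (z0 * s) := hz.trans (by push_cast <;> ring)
  replace hx : x = ((r0 * r) * z) := hx.trans (by push_cast <;> ring)
  replace hP : P = (((Int.cast (1) : ℝ) + D) * (x * x)) := hP.trans (by push_cast <;> ring)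
  replace hQ : Q = (((Int.cast (1) : ℝ) + ((Int.cast (2) : ℝ) * D)) * x) := hQ.trans (by push_cast
    <;> ring)
  replace hW : W = ((Q - P) - D) := hW.trans (by push_cast <;> ring)
  replace hO : O = ((((((Int.cast (2) : ℝ) * (F * (F - (Int.cast (1) : ℝ)))) * Q) - ((F *
    (((Int.cast (2) : ℝ) * F) - (Int.cast (1) : ℝ))) * D)) - (((((Int.cast (2) : ℝ) * F) - (Int.cast
    (1) : ℝ)) * (F - (Int.cast (1) : ℝ))) * P)) * iM) := hO.trans (by push_cast <;> ring)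
  replace hX : X = (z * O) := hX.trans (by push_cast <;> ring)
  replace he : e = ((Int.cast (1) : ℝ) - X) := he.trans (by push_cast <;> ring)
  replace hY : Y = (((Int.cast (1) : ℝ) / (Nat.cast 2 : ℝ)) * (H * e)) := hY.trans (by push_cast <;>
    ring)
  replace hk0a : k0a = (((((((Int.cast (-1) : ℝ) * j2) + j1) - q2) - r2) - c0) + (e * ((((((Int.cast
    (-3) : ℝ) * j3) + ((Int.cast (3) : ℝ) * j2)) - ((Int.cast (3) : ℝ) * q3)) - c1) + (e *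
    ((((Int.cast (15) : ℝ) * j3) - n02) + (e * ((Int.cast (-1) : ℝ) * n03))))))) := hk0a.trans (by
    push_cast <;> ring)
  replace hk0b : k0b = (k0a + (X * (((Int.cast (2) : ℝ) * c1) + (e * (((Int.cast (4) : ℝ) * n02) +
    (e * ((Int.cast (6) : ℝ) * n03))))))) := hk0b.trans (by push_cast <;> ring)
  replace hua : ua = (iF * k0a) := hua.trans (by push_cast <;> ring)
  replace hub : ub = (iF * k0b) := hub.trans (by push_cast <;> ring)
  replace hk4a : k4a = (((Int.cast (16) : ℝ) * j1) + (e * (((Int.cast (16) : ℝ) * j2) + (e *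
    ((Int.cast (16) : ℝ) * j3))))) := hk4a.trans (by push_cast <;> ring)
  replace hk4b : k4b = (k4a + (X * (((Int.cast (2) : ℝ) * n30) + (e * ((Int.cast (2) : ℝ) * n31)))))
    := hk4b.trans (by push_cast <;> ring)
  replace hk3a : k3a = ((((Int.cast (104) : ℝ) * j1) + ((Int.cast (8) : ℝ) * q1)) + (e *
    ((((((Int.cast (112) : ℝ) * j2) - ((Int.cast (112) : ℝ) * j1)) + ((Int.cast (8) : ℝ) * q2)) -
    n30) + (e * (((((((Int.cast (128) : ℝ) * j3) - ((Int.cast (128) : ℝ) * j2)) + ((Int.cast (8) :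
    ℝ) * q3)) - n31) + n30) + (e * (((Int.cast (-160) : ℝ) * j3) + n31))))))) := hk3a.trans (by
    push_cast <;> ring)
  replace hk3b : k3b = (k3a + (X * ((((Int.cast (6) : ℝ) * n30) + ((Int.cast (2) : ℝ) * n20)) + (e *
    (((((Int.cast (8) : ℝ) * n31) - ((Int.cast (8) : ℝ) * n30)) + ((Int.cast (2) : ℝ) * n21)) + (e *
    (((Int.cast (-10) : ℝ) * n31) + ((Int.cast (2) : ℝ) * n22)))))))) := hk3b.trans (by push_cast
    <;> ring)
  replace hk2a : k2a = ((((Int.cast (68) : ℝ) * j1) + ((Int.cast (8) : ℝ) * q1)) + (e *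
    (((((((Int.cast (160) : ℝ) * j2) - ((Int.cast (160) : ℝ) * j1)) + ((Int.cast (28) : ℝ) * q2)) +
    ((Int.cast (4) : ℝ) * r2)) - n20) + (e * ((((((Int.cast (216) : ℝ) * j3) - ((Int.cast (216) : ℝ)
    * j2)) + ((Int.cast (36) : ℝ) * q3)) - n21) + (e * (((Int.cast (-360) : ℝ) * j3) - n22))))))) :=
    hk2a.trans (by push_cast <;> ring)
  replace hk2b : k2b = (k2a + (X * ((((Int.cast (4) : ℝ) * n20) + ((Int.cast (2) : ℝ) * n10)) + (e *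
    ((((Int.cast (6) : ℝ) * n21) + ((Int.cast (2) : ℝ) * n11)) + (e * (((Int.cast (8) : ℝ) * n22) +
    ((Int.cast (2) : ℝ) * n12)))))))) := hk2b.trans (by push_cast <;> ring)
  replace hk1a : k1a = ((((Int.cast (-14) : ℝ) * j1) - ((Int.cast (2) : ℝ) * q1)) + (e *
    (((((((Int.cast (28) : ℝ) * j2) - ((Int.cast (28) : ℝ) * j1)) + ((Int.cast (10) : ℝ) * q2)) +
    ((Int.cast (4) : ℝ) * r2)) - n10) + (e * ((((((Int.cast (48) : ℝ) * j3) - ((Int.cast (48) : ℝ) *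
    j2)) + ((Int.cast (18) : ℝ) * q3)) - n11) + (e * (((Int.cast (-120) : ℝ) * j3) - n12))))))) :=
    hk1a.trans (by push_cast <;> ring)
  replace hk1b : k1b = (k1a + (X * ((((Int.cast (2) : ℝ) * n10) + ((Int.cast (2) : ℝ) * c0)) + (e *
    ((((Int.cast (4) : ℝ) * n11) + ((Int.cast (2) : ℝ) * c1)) + (e * ((((Int.cast (6) : ℝ) * n12) +
    ((Int.cast (2) : ℝ) * n02)) + (e * ((Int.cast (2) : ℝ) * n03))))))))) := hk1b.trans (by
    push_cast <;> ring)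
  replace hSa : Sa = ((Ja + (e * (La + (e * (e4 + (e * (e5 + (e * (e6 + (e * e7)))))))))) + ua) :=
    hSa.trans (by push_cast <;> ring)
  replace hSb : Sb = ((Jb + (e * (Lb + (e * (g4 + (e * (g5 + (e * (g6 + (e * g7)))))))))) + ub) :=
    hSb.trans (by push_cast <;> ring)
  replace hzz : zz = (z * z) := hzz.trans (by push_cast <;> ring)
  replace hW7 : W7 = (((((W * W) * W) * ((W * W) * W)) * W) * (e * z)) := hW7.trans (by push_cast
    <;> ring)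
  replace hx4a : x4a = (O * k4a) := hx4a.trans (by push_cast <;> ring)
  replace hx2a : x2a = (z * k2a) := hx2a.trans (by push_cast <;> ring)
  replace hx1a : x1a = (zz * k1a) := hx1a.trans (by push_cast <;> ring)
  replace hza : za = (mK4 F P Q D Y W x4a k3a x2a x1a) := hza.trans (mK4_0 ..)
  replace hx4b : x4b = (O * k4b) := hx4b.trans (by push_cast <;> ring)
  replace hx2b : x2b = (z * k2b) := hx2b.trans (by push_cast <;> ring)
  replace hx1b : x1b = (zz * k1b) := hx1b.trans (by push_cast <;> ring)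
  replace hzb : zb = (mK4 F P Q D Y W x4b k3b x2b x1b) := hzb.trans (mK4_0 ..)
  subst hF hD haa hab hbb hj1 hj2 hj3 hq1 hq2 hr2 hk hn10 hn11 hn12 hn20 hn21 hn22 hn02 hn03 hn30
    hn31 he4 he5 he6 he7 hg4 hg5 hg6 hg7 hT hN hM hiN hiM hH hiH hiF hl2 hq3 hA2 hA3 hc0 hc1 hA4 hJa
    hLa hJb hLb hz0 hr0 hz hx hP hQ hW hO hX he hY hk0a hk0b hua hub hk4a hk4b hk3a hk3b hk2a hk2b
    hk1a hk1b hSa hSb hzz hW7 hx4a hx2a hx1a hza hx4b hx2b hx1b hzb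
  dsimp only [outR, prog, prog1, prog2, prog3, prog4, prog5, prog6, prog7, prog8, runR, stepR, gtR]
  exact ⟨rfl, rfl⟩

theorem l0 : ((-140737488355328 : ℤ) : ℝ) / 2 ^ 47 = -1 := by norm_num
theorem u0 : (1 : ℝ) = ((140737488355328 : ℤ) : ℝ) / 2 ^ 47 := by norm_num
theorem l1 : ((-140737488355328 : ℤ) : ℝ) / 2 ^ 47 = -1 := by norm_num
theorem u1 : (1 : ℝ) = ((140737488355328 : ℤ) : ℝ) / 2 ^ 47 := by norm_num
theorem l2 : ((0 : ℤ) : ℝ) / 2 ^ 47 = 0 := by norm_num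
theorem u2 : (1 : ℝ) = ((140737488355328 : ℤ) : ℝ) / 2 ^ 47 := by norm_num
theorem l3 : ((0 : ℤ) : ℝ) / 2 ^ 47 = 0 := by norm_num
theorem u3 : (1 : ℝ) = ((140737488355328 : ℤ) : ℝ) / 2 ^ 47 := by norm_num

theorem out0 {a b r s : ℝ} (a0 : -1 ≤ a) (b0 : a ≤ 1) (a1 : -1 ≤ b) (b1 : b ≤ 1) (a2 : 0 ≤ r) (b2 :
    r ≤ 1) (a3 : 0 ≤ s) (b3 : s ≤ 1) : 0 < outR prog 0 [a, b, r, s] :=
  gd 0 (by decide) [a, b, r, s] (.cons ⟨l0.le.trans a0, b0.trans u0.le⟩ (.cons ⟨l1.le.trans a1,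
    b1.trans u1.le⟩ (.cons ⟨l2.le.trans a2, b2.trans u2.le⟩ (.cons ⟨l3.le.trans a3, b3.trans u3.le⟩
    (.nil))))) ⟨nofun, nofun, nofun, nofun, trivial⟩ (List.forall_mem_nil _) (Van.of0 rfl) (nofun)

theorem pos0 {a b r s F D aa ab bb j1 j2 j3 q1 q2 r2 k n10 n11 n12 n20 n21 n22 n02 n03 n30 n31 e4 e5
    e6 e7 g4 g5 g6 g7 T N M iN iM H iH iF l2 q3 A2 A3 c0 c1 A4 Ja La Jb Lb z0 r0 z x P Q W O X e Y
    k0a k0b ua ub k4a k4b k3a k3b k2a k2b k1a k1b Sa Sb zz W7 x4a x2a x1a za x4b x2b x1b zb : ℝ} (hF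
    : F = 4 / 3 + b / 32) (hD : D = -103 / 96 + (-1 / 64) * b + a * (19 / 96 + 1 / 64 * b)) (haa :
    aa = a * a) (hab : ab = a * b) (hbb : bb = b * b) (hj1 : j1 = 1644 - 531 * a - 1077 * b) (hj2 :
    j2 = 1439 + 2344 * a - 103 * b) (hj3 : j3 = -441 - 469 * a - 83 * b) (hq1 : q1 = -32908 + 2430 *
    a + 16727 * b) (hq2 : q2 = 25916 - 15809 * a - 16805 * b) (hr2 : r2 = -99999 - 17074 * a + 52258
    * b) (hk : k = 1090 + 20 * a + 528 * b) (hn10 : n10 = -80605 + 99981 * a + 99997 * b) (hn11 :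
    n11 = 36391 + 47592 * a + 99994 * b) (hn12 : n12 = -76479 + 94591 * a - 99994 * b) (hn20 : n20 =
    57722 - 38975 * a - 57675 * b) (hn21 : n21 = 99861 + 70414 * a - 76554 * b) (hn22 : n22 = -83396
    - 70528 * a + 99995 * b) (hn02 : n02 = 21359 - 54107 * a + 89159 * b) (hn03 : n03 = -1244 -
    15357 * a - 1371 * b) (hn30 : n30 = -87027 - 99988 * a + 1937 * b) (hn31 : n31 = 8332 + 12407 *
    a + 37731 * b) (he4 : e4 = -15438 + 18791 * a - 19269 * b + 5913 * aa - 4114 * ab + 4251 * bb)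
    (he5 : e5 = 63917 + 70900 * a - 1407 * b + 52262 * aa + 24884 * ab - 16968 * bb) (he6 : e6 =
    -4687 - 140023 * a + 13356 * b - 191365 * aa - 27603 * ab + 25866 * bb) (he7 : e7 = 634 + 52899
    * a - 6675 * b + 113524 * aa - 231 * ab - 14783 * bb) (hg4 : g4 = -199949 + 199877 * a - 81303 *
    b - 25892 * aa + 20552 * ab + 4508 * bb) (hg5 : g5 = 164258 - 198610 * a + 63118 * b - 116938 *
    aa - 63392 * ab + 1676 * bb) (hg6 : g6 = 88324 + 75305 * a - 81141 * b + 199363 * aa + 62194 *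
    ab - 4457 * bb) (hg7 : g7 = -28705 - 77499 * a + 43055 * b - 91826 * aa - 22014 * ab + 1475 *
    bb) (hT : T = 8) (hN : N = F * (2 * F - 1) * (F - 1)) (hM : M = F - D - 1) (hiN : iN = N⁻¹) (hiM
    : iM = M⁻¹) (hH : H = M * iN) (hiH : iH = N * iM) (hiF : iF = (2 * F - 1) * (F - 1) * iN) (hl2 :
    l2 = (4 - 3 * F) * (F * (2 * F - 1)) * iN) (hq3 : q3 = l2 * (j1 + j2 + j3 + 4 * k) + (-j1 + 2 *
    j3 - q1 - q2)) (hA2 : A2 = (1 - F - 2 * D) / 6 * H) (hA3 : A3 = (1 - D + 10 * D ^ 2 + F * (4 * F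
    + 10 * D - 5)) / 36 * H) (hc0 : c0 = ((-4) * n10 + 2 * n20 - 3 * n30) / 8) (hc1 : c1 = ((-4) *
    n11 + 2 * n21 - 3 * n31 + 3 * n30) / 8 - A3 * (8 * n10 + 8 * n20 - 6 * n30) / 8) (hA4 : A4 = (4
    - 57 * F - 6 * D + F * (156 * F + 102 * D - F * (103 * F + 312 * D)) - D ^ 2 * (60 + 480 * F +
    320 * D)) / 1080 * H ^ 2) (hJa : Ja = A2 * ((-14) * j1 - 2 * q1)) (hLa : La = A4 * (108 * j1 +
    12 * q1) + A2 * (27 * j2 - 27 * j1 + 9 * q2 + 3 * r2 - c0 - n10)) (hJb : Jb = A2 * ((-14) * j1 -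
    2 * q1 + 2 * c0 + 2 * n10)) (hLb : Lb = A4 * (108 * j1 + 12 * q1 + 4 * c0 + 8 * n10 + 8 * n20) +
    A2 * (27 * j2 - 27 * j1 + 9 * q2 + 3 * r2 - 3 * c0 - 3 * n10 + 4 * c1 + 4 * n11)) (hz0 : z0 =
    Real.exp (-(T * (2 * F - 2)))) (hr0 : r0 = Real.exp (-(T * (3 - 2 * F)))) (hz : z = z0 * s) (hx
    : x = r0 * r * z) (hP : P = (1 + D) * x ^ 2) (hQ : Q = (1 + 2 * D) * x) (hW : W = Q - P - D) (hO
    : O = (2 * (F * (F - 1)) * Q - F * (2 * F - 1) * D - (2 * F - 1) * (F - 1) * P) * iM) (hX : X =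
    z * O) (he : e = 1 - X) (hY : Y = H * e / 2) (hk0a : k0a = -j2 + j1 - q2 - r2 - c0 + e * ((-3) *
    j3 + 3 * j2 - 3 * q3 - c1 + e * (15 * j3 - n02 + e * (-n03)))) (hk0b : k0b = k0a + X * (2 * c1 +
    e * (4 * n02 + e * (6 * n03)))) (hua : ua = iF * k0a) (hub : ub = iF * k0b) (hk4a : k4a = 16 *
    j1 + e * (16 * j2 + e * (16 * j3))) (hk4b : k4b = k4a + X * (2 * n30 + e * (2 * n31))) (hk3a :
    k3a = 104 * j1 + 8 * q1 + e * (112 * j2 - 112 * j1 + 8 * q2 - n30 + e * (128 * j3 - 128 * j2 + 8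
    * q3 - n31 + n30 + e * ((-160) * j3 + n31)))) (hk3b : k3b = k3a + X * (6 * n30 + 2 * n20 + e *
    (8 * n31 - 8 * n30 + 2 * n21 + e * ((-10) * n31 + 2 * n22)))) (hk2a : k2a = 68 * j1 + 8 * q1 + e
    * (160 * j2 - 160 * j1 + 28 * q2 + 4 * r2 - n20 + e * (216 * j3 - 216 * j2 + 36 * q3 - n21 + e *
    ((-360) * j3 - n22)))) (hk2b : k2b = k2a + X * (4 * n20 + 2 * n10 + e * (6 * n21 + 2 * n11 + e *
    (8 * n22 + 2 * n12)))) (hk1a : k1a = (-14) * j1 - 2 * q1 + e * (28 * j2 - 28 * j1 + 10 * q2 + 4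
    * r2 - n10 + e * (48 * j3 - 48 * j2 + 18 * q3 - n11 + e * ((-120) * j3 - n12)))) (hk1b : k1b =
    k1a + X * (2 * n10 + 2 * c0 + e * (4 * n11 + 2 * c1 + e * (6 * n12 + 2 * n02 + e * (2 * n03)))))
    (hSa : Sa = Ja + e * (La + e * (e4 + e * (e5 + e * (e6 + e * e7)))) + ua) (hSb : Sb = Jb + e *
    (Lb + e * (g4 + e * (g5 + e * (g6 + e * g7)))) + ub) (hzz : zz = z ^ 2) (hW7 : W7 = W ^ 7 * (e *
    z)) (hx4a : x4a = O * k4a) (hx2a : x2a = z * k2a) (hx1a : x1a = zz * k1a) (hza : za = x4a * (Y ^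
    4 * (pjR F P Q D).2.2) + k3a * (Y ^ 3 * (pjR F P Q D).2.1 * W ^ 2) + x2a * (Y ^ 2 * (pjR F P Q
    D).1 * W ^ 4) + x1a * (Y * W ^ 6)) (hx4b : x4b = O * k4b) (hx2b : x2b = z * k2b) (hx1b : x1b =
    zz * k1b) (hzb : zb = x4b * (Y ^ 4 * (pjR F P Q D).2.2) + k3b * (Y ^ 3 * (pjR F P Q D).2.1 * W ^
    2) + x2b * (Y ^ 2 * (pjR F P Q D).1 * W ^ 4) + x1b * (Y * W ^ 6)) (a0 : -1 ≤ a) (b0 : a ≤ 1) (a1
    : -1 ≤ b) (b1 : b ≤ 1) (a2 : 0 ≤ r) (b2 : r ≤ 1) (a3 : 0 ≤ s) (b3 : s ≤ 1) : 0 < Sa :=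
  have e := eq hF hD haa hab hbb hj1 hj2 hj3 hq1 hq2 hr2 hk hn10 hn11 hn12 hn20 hn21 hn22 hn02 hn03
    hn30 hn31 he4 he5 he6 he7 hg4 hg5 hg6 hg7 hT hN hM hiN hiM hH hiH hiF hl2 hq3 hA2 hA3 hc0 hc1
    hA4 hJa hLa hJb hLb hz0 hr0 hz hx hP hQ hW hO hX he hY hk0a hk0b hua hub hk4a hk4b hk3a hk3b
    hk2a hk2b hk1a hk1b hSa hSb hzz hW7 hx4a hx2a hx1a hza hx4b hx2b hx1b hzb
  (out0 a0 b0 a1 b1 a2 b2 a3 b3).trans_eq e.1

theorem out1 {a b r s : ℝ} (a0 : -1 ≤ a) (b0 : a ≤ 1) (a1 : -1 ≤ b) (b1 : b ≤ 1) (a2 : 0 ≤ r) (b2 :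
    r ≤ 1) (a3 : 0 ≤ s) (b3 : s ≤ 1) : 0 < outR prog 1 [a, b, r, s] :=
  gd 1 (by decide) [a, b, r, s] (.cons ⟨l0.le.trans a0, b0.trans u0.le⟩ (.cons ⟨l1.le.trans a1,
    b1.trans u1.le⟩ (.cons ⟨l2.le.trans a2, b2.trans u2.le⟩ (.cons ⟨l3.le.trans a3, b3.trans u3.le⟩
    (.nil))))) ⟨nofun, nofun, nofun, nofun, trivial⟩ (List.forall_mem_nil _) (Van.of0 rfl) (nofun)

theorem pos1 {a b r s F D aa ab bb j1 j2 j3 q1 q2 r2 k n10 n11 n12 n20 n21 n22 n02 n03 n30 n31 e4 e5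
    e6 e7 g4 g5 g6 g7 T N M iN iM H iH iF l2 q3 A2 A3 c0 c1 A4 Ja La Jb Lb z0 r0 z x P Q W O X e Y
    k0a k0b ua ub k4a k4b k3a k3b k2a k2b k1a k1b Sa Sb zz W7 x4a x2a x1a za x4b x2b x1b zb : ℝ} (hF
    : F = 4 / 3 + b / 32) (hD : D = -103 / 96 + (-1 / 64) * b + a * (19 / 96 + 1 / 64 * b)) (haa :
    aa = a * a) (hab : ab = a * b) (hbb : bb = b * b) (hj1 : j1 = 1644 - 531 * a - 1077 * b) (hj2 :
    j2 = 1439 + 2344 * a - 103 * b) (hj3 : j3 = -441 - 469 * a - 83 * b) (hq1 : q1 = -32908 + 2430 *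
    a + 16727 * b) (hq2 : q2 = 25916 - 15809 * a - 16805 * b) (hr2 : r2 = -99999 - 17074 * a + 52258
    * b) (hk : k = 1090 + 20 * a + 528 * b) (hn10 : n10 = -80605 + 99981 * a + 99997 * b) (hn11 :
    n11 = 36391 + 47592 * a + 99994 * b) (hn12 : n12 = -76479 + 94591 * a - 99994 * b) (hn20 : n20 =
    57722 - 38975 * a - 57675 * b) (hn21 : n21 = 99861 + 70414 * a - 76554 * b) (hn22 : n22 = -83396
    - 70528 * a + 99995 * b) (hn02 : n02 = 21359 - 54107 * a + 89159 * b) (hn03 : n03 = -1244 -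
    15357 * a - 1371 * b) (hn30 : n30 = -87027 - 99988 * a + 1937 * b) (hn31 : n31 = 8332 + 12407 *
    a + 37731 * b) (he4 : e4 = -15438 + 18791 * a - 19269 * b + 5913 * aa - 4114 * ab + 4251 * bb)
    (he5 : e5 = 63917 + 70900 * a - 1407 * b + 52262 * aa + 24884 * ab - 16968 * bb) (he6 : e6 =
    -4687 - 140023 * a + 13356 * b - 191365 * aa - 27603 * ab + 25866 * bb) (he7 : e7 = 634 + 52899
    * a - 6675 * b + 113524 * aa - 231 * ab - 14783 * bb) (hg4 : g4 = -199949 + 199877 * a - 81303 *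
    b - 25892 * aa + 20552 * ab + 4508 * bb) (hg5 : g5 = 164258 - 198610 * a + 63118 * b - 116938 *
    aa - 63392 * ab + 1676 * bb) (hg6 : g6 = 88324 + 75305 * a - 81141 * b + 199363 * aa + 62194 *
    ab - 4457 * bb) (hg7 : g7 = -28705 - 77499 * a + 43055 * b - 91826 * aa - 22014 * ab + 1475 *
    bb) (hT : T = 8) (hN : N = F * (2 * F - 1) * (F - 1)) (hM : M = F - D - 1) (hiN : iN = N⁻¹) (hiM
    : iM = M⁻¹) (hH : H = M * iN) (hiH : iH = N * iM) (hiF : iF = (2 * F - 1) * (F - 1) * iN) (hl2 :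
    l2 = (4 - 3 * F) * (F * (2 * F - 1)) * iN) (hq3 : q3 = l2 * (j1 + j2 + j3 + 4 * k) + (-j1 + 2 *
    j3 - q1 - q2)) (hA2 : A2 = (1 - F - 2 * D) / 6 * H) (hA3 : A3 = (1 - D + 10 * D ^ 2 + F * (4 * F
    + 10 * D - 5)) / 36 * H) (hc0 : c0 = ((-4) * n10 + 2 * n20 - 3 * n30) / 8) (hc1 : c1 = ((-4) *
    n11 + 2 * n21 - 3 * n31 + 3 * n30) / 8 - A3 * (8 * n10 + 8 * n20 - 6 * n30) / 8) (hA4 : A4 = (4
    - 57 * F - 6 * D + F * (156 * F + 102 * D - F * (103 * F + 312 * D)) - D ^ 2 * (60 + 480 * F +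
    320 * D)) / 1080 * H ^ 2) (hJa : Ja = A2 * ((-14) * j1 - 2 * q1)) (hLa : La = A4 * (108 * j1 +
    12 * q1) + A2 * (27 * j2 - 27 * j1 + 9 * q2 + 3 * r2 - c0 - n10)) (hJb : Jb = A2 * ((-14) * j1 -
    2 * q1 + 2 * c0 + 2 * n10)) (hLb : Lb = A4 * (108 * j1 + 12 * q1 + 4 * c0 + 8 * n10 + 8 * n20) +
    A2 * (27 * j2 - 27 * j1 + 9 * q2 + 3 * r2 - 3 * c0 - 3 * n10 + 4 * c1 + 4 * n11)) (hz0 : z0 =
    Real.exp (-(T * (2 * F - 2)))) (hr0 : r0 = Real.exp (-(T * (3 - 2 * F)))) (hz : z = z0 * s) (hx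
    : x = r0 * r * z) (hP : P = (1 + D) * x ^ 2) (hQ : Q = (1 + 2 * D) * x) (hW : W = Q - P - D) (hO
    : O = (2 * (F * (F - 1)) * Q - F * (2 * F - 1) * D - (2 * F - 1) * (F - 1) * P) * iM) (hX : X =
    z * O) (he : e = 1 - X) (hY : Y = H * e / 2) (hk0a : k0a = -j2 + j1 - q2 - r2 - c0 + e * ((-3) *
    j3 + 3 * j2 - 3 * q3 - c1 + e * (15 * j3 - n02 + e * (-n03)))) (hk0b : k0b = k0a + X * (2 * c1 +
    e * (4 * n02 + e * (6 * n03)))) (hua : ua = iF * k0a) (hub : ub = iF * k0b) (hk4a : k4a = 16 *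
    j1 + e * (16 * j2 + e * (16 * j3))) (hk4b : k4b = k4a + X * (2 * n30 + e * (2 * n31))) (hk3a :
    k3a = 104 * j1 + 8 * q1 + e * (112 * j2 - 112 * j1 + 8 * q2 - n30 + e * (128 * j3 - 128 * j2 + 8
    * q3 - n31 + n30 + e * ((-160) * j3 + n31)))) (hk3b : k3b = k3a + X * (6 * n30 + 2 * n20 + e *
    (8 * n31 - 8 * n30 + 2 * n21 + e * ((-10) * n31 + 2 * n22)))) (hk2a : k2a = 68 * j1 + 8 * q1 + e
    * (160 * j2 - 160 * j1 + 28 * q2 + 4 * r2 - n20 + e * (216 * j3 - 216 * j2 + 36 * q3 - n21 + e *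
    ((-360) * j3 - n22)))) (hk2b : k2b = k2a + X * (4 * n20 + 2 * n10 + e * (6 * n21 + 2 * n11 + e *
    (8 * n22 + 2 * n12)))) (hk1a : k1a = (-14) * j1 - 2 * q1 + e * (28 * j2 - 28 * j1 + 10 * q2 + 4
    * r2 - n10 + e * (48 * j3 - 48 * j2 + 18 * q3 - n11 + e * ((-120) * j3 - n12)))) (hk1b : k1b =
    k1a + X * (2 * n10 + 2 * c0 + e * (4 * n11 + 2 * c1 + e * (6 * n12 + 2 * n02 + e * (2 * n03)))))
    (hSa : Sa = Ja + e * (La + e * (e4 + e * (e5 + e * (e6 + e * e7)))) + ua) (hSb : Sb = Jb + e *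
    (Lb + e * (g4 + e * (g5 + e * (g6 + e * g7)))) + ub) (hzz : zz = z ^ 2) (hW7 : W7 = W ^ 7 * (e *
    z)) (hx4a : x4a = O * k4a) (hx2a : x2a = z * k2a) (hx1a : x1a = zz * k1a) (hza : za = x4a * (Y ^
    4 * (pjR F P Q D).2.2) + k3a * (Y ^ 3 * (pjR F P Q D).2.1 * W ^ 2) + x2a * (Y ^ 2 * (pjR F P Q
    D).1 * W ^ 4) + x1a * (Y * W ^ 6)) (hx4b : x4b = O * k4b) (hx2b : x2b = z * k2b) (hx1b : x1b =
    zz * k1b) (hzb : zb = x4b * (Y ^ 4 * (pjR F P Q D).2.2) + k3b * (Y ^ 3 * (pjR F P Q D).2.1 * W ^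
    2) + x2b * (Y ^ 2 * (pjR F P Q D).1 * W ^ 4) + x1b * (Y * W ^ 6)) (a0 : -1 ≤ a) (b0 : a ≤ 1) (a1
    : -1 ≤ b) (b1 : b ≤ 1) (a2 : 0 ≤ r) (b2 : r ≤ 1) (a3 : 0 ≤ s) (b3 : s ≤ 1) : 0 < Sb :=
  have e := eq hF hD haa hab hbb hj1 hj2 hj3 hq1 hq2 hr2 hk hn10 hn11 hn12 hn20 hn21 hn22 hn02 hn03
    hn30 hn31 he4 he5 he6 he7 hg4 hg5 hg6 hg7 hT hN hM hiN hiM hH hiH hiF hl2 hq3 hA2 hA3 hc0 hc1
    hA4 hJa hLa hJb hLb hz0 hr0 hz hx hP hQ hW hO hX he hY hk0a hk0b hua hub hk4a hk4b hk3a hk3b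
    hk2a hk2b hk1a hk1b hSa hSb hzz hW7 hx4a hx2a hx1a hza hx4b hx2b hx1b hzb
  (out1 a0 b0 a1 b1 a2 b2 a3 b3).trans_eq e.2

end Pool.Agent.Lib.MP_d6150d_an.S10Be
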