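import Pool.Agent.Lib.MP_d6150d_an.S10BgD

/-! A generated chart: the computations. -/

namespace Pool.Agent.Lib.MP_d6150d_an.S10Bg

theorem q0 :
    chk C 0x881 [(-140737488355328, -105553116266496), (-140737488355328, 0), (0, 35184372088832)] =
    true ∧
    chk C 0x8 [(-105553116266496, -70368744177664), (-140737488355328, 0), (0, 35184372088832)] =
    true ∧
    chk C 0x8 [(-70368744177664, 0), (-140737488355328, 0), (0, 35184372088832)] = true ∧
    chk C 0x880 [(-140737488355328, 0), (-140737488355328, 0), (35184372088832, 70368744177664)] =
    true ∧
    chk C 0x880 [(-140737488355328, 0), (0, 140737488355328), (0, 70368744177664)] = true ∧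
    chk C 0x882 [(-140737488355328, -70368744177664), (-140737488355328, -70368744177664),
    (70368744177664, 105553116266496)] = true ∧
    chk C 0x882 [(-70368744177664, 0), (-140737488355328, -70368744177664), (70368744177664,
    105553116266496)] = true ∧
    chk C 0x880 [(-140737488355328, 0), (-70368744177664, 0), (70368744177664, 105553116266496)] =
    true ∧
    chk C 0x882 [(-140737488355328, -123145302310912), (-140737488355328, -70368744177664),
    (105553116266496, 123145302310912)] = true ∧
    chk C 0x882 [(-140737488355328, -136339441844224), (-140737488355328, -105553116266496),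
    (123145302310912, 140737488355328)] = true ∧
    chk C 0x8 [(-140737488355328, -136339441844224), (-105553116266496, -70368744177664),
    (123145302310912, 140737488355328)] = true ∧
    chk C 0x8 [(-136339441844224, -131941395333120), (-140737488355328, -70368744177664),
    (123145302310912, 140737488355328)] = true ∧
    chk C 0x8 [(-131941395333120, -123145302310912), (-140737488355328, -70368744177664),
    (123145302310912, 140737488355328)] = true ∧
    chk C 0x8 [(-123145302310912, -105553116266496), (-140737488355328, -70368744177664),
    (105553116266496, 140737488355328)] = true ∧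
    chk C 0x882 [(-140737488355328, -105553116266496), (-70368744177664, -35184372088832),
    (105553116266496, 140737488355328)] = true ∧
    chk C 0x8 [(-140737488355328, -105553116266496), (-35184372088832, 0), (105553116266496,
    140737488355328)] = true ∧
    chk C 0x8 [(-105553116266496, -70368744177664), (-140737488355328, 0), (105553116266496,
    140737488355328)] = true ∧
    chk C 0x8 [(-70368744177664, 0), (-140737488355328, 0), (105553116266496, 140737488355328)] =
    true ∧
    chk C 0x881 [(-140737488355328, -70368744177664), (0, 140737488355328), (70368744177664,
    140737488355328)] = true ∧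
    chk C 0x8 [(-70368744177664, 0), (0, 140737488355328), (70368744177664, 140737488355328)] = true := by
  refine ⟨?_, ?_, ?_, ?_, ?_, ?_, ?_, ?_, ?_, ?_, ?_, ?_, ?_, ?_, ?_, ?_, ?_, ?_, ?_, ?_⟩ <;> decide
    +kernel

end Pool.Agent.Lib.MP_d6150d_an.S10Bg
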