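import Pool.Agent.Lib.MP_d6150d_an.S10BgD

/-! A generated chart: the computations. -/

namespace Pool.Agent.Lib.MP_d6150d_an.S10Bg

theorem q1 :
    chk C 0x880 [(0, 70368744177664), (-140737488355328, -70368744177664), (0, 35184372088832)] =
    true ∧
    chk C 0x880 [(0, 70368744177664), (-140737488355328, -70368744177664), (35184372088832,
    70368744177664)] = true ∧
    chk C 0x8 [(70368744177664, 140737488355328), (-140737488355328, -70368744177664), (0,
    35184372088832)] = true ∧
    chk C 0x882 [(70368744177664, 140737488355328), (-140737488355328, -70368744177664),
    (35184372088832, 70368744177664)] = true ∧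
    chk C 0x880 [(0, 140737488355328), (-70368744177664, 0), (0, 70368744177664)] = true ∧
    chk C 0x880 [(0, 70368744177664), (0, 140737488355328), (0, 70368744177664)] = true ∧
    chk C 0x8 [(70368744177664, 140737488355328), (0, 140737488355328), (0, 70368744177664)] = true ∧
    chk C 0x880 [(0, 70368744177664), (-140737488355328, -105553116266496), (70368744177664,
    87960930222080)] = true ∧
    chk C 0x880 [(0, 70368744177664), (-140737488355328, -105553116266496), (87960930222080,
    105553116266496)] = true ∧
    chk C 0x8 [(0, 70368744177664), (-105553116266496, -70368744177664), (70368744177664,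
    105553116266496)] = true ∧
    chk C 0x8 [(0, 70368744177664), (-70368744177664, 0), (70368744177664, 105553116266496)] = true ∧
    chk C 0x8 [(70368744177664, 105553116266496), (-140737488355328, -105553116266496),
    (70368744177664, 87960930222080)] = true ∧
    chk C 0x8 [(105553116266496, 123145302310912), (-140737488355328, -123145302310912),
    (70368744177664, 87960930222080)] = true ∧
    chk C 0x882 [(123145302310912, 140737488355328), (-140737488355328, -131941395333120),
    (70368744177664, 79164837199872)] = true ∧
    chk C 0x8 [(123145302310912, 140737488355328), (-140737488355328, -131941395333120),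
    (79164837199872, 87960930222080)] = true ∧
    chk C 0x8 [(123145302310912, 140737488355328), (-131941395333120, -123145302310912),
    (70368744177664, 87960930222080)] = true ∧
    chk C 0x8 [(105553116266496, 140737488355328), (-123145302310912, -105553116266496),
    (70368744177664, 87960930222080)] = true ∧
    chk C 0x8 [(70368744177664, 140737488355328), (-105553116266496, -70368744177664),
    (70368744177664, 87960930222080)] = true ∧
    chk C 0x8 [(70368744177664, 140737488355328), (-70368744177664, 0), (70368744177664,
    87960930222080)] = true ∧
    chk C 0x8 [(70368744177664, 140737488355328), (-140737488355328, 0), (87960930222080,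
    105553116266496)] = true ∧
    chk C 0x880 [(0, 70368744177664), (-140737488355328, 0), (105553116266496, 140737488355328)] =
    true := by
  refine ⟨?_, ?_, ?_, ?_, ?_, ?_, ?_, ?_, ?_, ?_, ?_, ?_, ?_, ?_, ?_, ?_, ?_, ?_, ?_, ?_, ?_⟩ <;>
    decide +kernel

end Pool.Agent.Lib.MP_d6150d_an.S10Bg
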