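import Pool.Agent.Lib.MP_d6150d_an.S10BgD

/-! A generated chart: the computations. -/

namespace Pool.Agent.Lib.MP_d6150d_an.S10Bg

theorem q2 :
    chk C 0x8 [(70368744177664, 140737488355328), (-140737488355328, 0), (105553116266496,
    140737488355328)] = true ∧
    chk C 0x880 [(0, 70368744177664), (0, 140737488355328), (70368744177664, 140737488355328)] =
    true ∧
    chk C 0x8 [(70368744177664, 140737488355328), (0, 140737488355328), (70368744177664,
    140737488355328)] = true := by
  refine ⟨?_, ?_, ?_⟩ <;> decide +kernel

end Pool.Agent.Lib.MP_d6150d_an.S10Bg
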