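import Pool.Agent.Lib.MP_d6150d_an.GMac
import Pool.Agent.Lib.MP_d6150d_an.S10BgK0
import Pool.Agent.Lib.MP_d6150d_an.S10BgK1
import Pool.Agent.Lib.MP_d6150d_an.S10BgK2

/-! A generated chart: the inequality. -/

namespace Pool.Agent.Lib.MP_d6150d_an.S10Bg

set_option linter.unnecessarySeqFocus false
set_option linter.unusedTactic false
set_option linter.unusedVariables false

theorem gd : Gd C [(-140737488355328, 140737488355328), (-140737488355328, 140737488355328), (0,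
    140737488355328)] := .split 0 (.split 2 (.split 1 (.split 2 (.split 0 (.split 0 (chk_sound q0.1)
    (chk_sound q0.2.1)) (chk_sound q0.2.2.1)) (chk_sound q0.2.2.2.1)) (chk_sound q0.2.2.2.2.1))
    (.split 1 (.split 2 (.split 1 (.split 0 (chk_sound q0.2.2.2.2.2.1) (chk_sound q0.2.2.2.2.2.2.1))
    (chk_sound q0.2.2.2.2.2.2.2.1)) (.split 0 (.split 0 (.split 1 (.split 0 (.split 2 (chk_sound
    q0.2.2.2.2.2.2.2.2.1) (.split 0 (.split 0 (.split 1 (chk_sound q0.2.2.2.2.2.2.2.2.2.1)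
    (chk_sound q0.2.2.2.2.2.2.2.2.2.2.1)) (chk_sound q0.2.2.2.2.2.2.2.2.2.2.2.1)) (chk_sound
    q0.2.2.2.2.2.2.2.2.2.2.2.2.1))) (chk_sound q0.2.2.2.2.2.2.2.2.2.2.2.2.2.1)) (.split 1 (chk_sound
    q0.2.2.2.2.2.2.2.2.2.2.2.2.2.2.1) (chk_sound q0.2.2.2.2.2.2.2.2.2.2.2.2.2.2.2.1))) (chk_sound
    q0.2.2.2.2.2.2.2.2.2.2.2.2.2.2.2.2.1)) (chk_sound q0.2.2.2.2.2.2.2.2.2.2.2.2.2.2.2.2.2.1)))
    (.split 0 (chk_sound q0.2.2.2.2.2.2.2.2.2.2.2.2.2.2.2.2.2.2.1) (chk_sound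
    q0.2.2.2.2.2.2.2.2.2.2.2.2.2.2.2.2.2.2.2)))) (.split 2 (.split 1 (.split 1 (.split 0 (.split 2
    (chk_sound q1.1) (chk_sound q1.2.1)) (.split 2 (chk_sound q1.2.2.1) (chk_sound q1.2.2.2.1)))
    (chk_sound q1.2.2.2.2.1)) (.split 0 (chk_sound q1.2.2.2.2.2.1) (chk_sound q1.2.2.2.2.2.2.1)))
    (.split 1 (.split 2 (.split 0 (.split 1 (.split 1 (.split 2 (chk_sound q1.2.2.2.2.2.2.2.1)
    (chk_sound q1.2.2.2.2.2.2.2.2.1)) (chk_sound q1.2.2.2.2.2.2.2.2.2.1)) (chk_sound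
    q1.2.2.2.2.2.2.2.2.2.2.1)) (.split 2 (.split 1 (.split 1 (.split 0 (chk_sound
    q1.2.2.2.2.2.2.2.2.2.2.2.1) (.split 1 (.split 0 (chk_sound q1.2.2.2.2.2.2.2.2.2.2.2.2.1) (.split
    1 (.split 2 (chk_sound q1.2.2.2.2.2.2.2.2.2.2.2.2.2.1) (chk_sound
    q1.2.2.2.2.2.2.2.2.2.2.2.2.2.2.1)) (chk_sound q1.2.2.2.2.2.2.2.2.2.2.2.2.2.2.2.1))) (chk_sound
    q1.2.2.2.2.2.2.2.2.2.2.2.2.2.2.2.2.1))) (chk_sound q1.2.2.2.2.2.2.2.2.2.2.2.2.2.2.2.2.2.1))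
    (chk_sound q1.2.2.2.2.2.2.2.2.2.2.2.2.2.2.2.2.2.2.1)) (chk_sound
    q1.2.2.2.2.2.2.2.2.2.2.2.2.2.2.2.2.2.2.2.1))) (.split 0 (chk_sound
    q1.2.2.2.2.2.2.2.2.2.2.2.2.2.2.2.2.2.2.2.2) (chk_sound q2.1))) (.split 0 (chk_sound q2.2.1)
    (chk_sound q2.2.2))))

set_option maxRecDepth 100000 in
theorem eq {a b e F D aa ab bb j1 j2 j3 q1 q2 r2 k n10 n11 n12 n20 n21 n22 n02 n03 n30 n31 e4 e5 e6
    e7 g4 g5 g6 g7 T B N M iN iM H iH iF l2 q3 A2 A3 c0 c1 A4 Ja La Jb Lb x : ℝ} (hF : F = 4 / 3 + b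
    / 32) (hD : D = -103 / 96 + (-1 / 64) * b + a * (19 / 96 + 1 / 64 * b)) (haa : aa = a * a) (hab
    : ab = a * b) (hbb : bb = b * b) (hj1 : j1 = 1644 - 531 * a - 1077 * b) (hj2 : j2 = 1439 + 2344
    * a - 103 * b) (hj3 : j3 = -441 - 469 * a - 83 * b) (hq1 : q1 = -32908 + 2430 * a + 16727 * b)
    (hq2 : q2 = 25916 - 15809 * a - 16805 * b) (hr2 : r2 = -99999 - 17074 * a + 52258 * b) (hk : k =
    1090 + 20 * a + 528 * b) (hn10 : n10 = -80605 + 99981 * a + 99997 * b) (hn11 : n11 = 36391 +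
    47592 * a + 99994 * b) (hn12 : n12 = -76479 + 94591 * a - 99994 * b) (hn20 : n20 = 57722 - 38975
    * a - 57675 * b) (hn21 : n21 = 99861 + 70414 * a - 76554 * b) (hn22 : n22 = -83396 - 70528 * a +
    99995 * b) (hn02 : n02 = 21359 - 54107 * a + 89159 * b) (hn03 : n03 = -1244 - 15357 * a - 1371 *
    b) (hn30 : n30 = -87027 - 99988 * a + 1937 * b) (hn31 : n31 = 8332 + 12407 * a + 37731 * b) (he4
    : e4 = -15438 + 18791 * a - 19269 * b + 5913 * aa - 4114 * ab + 4251 * bb) (he5 : e5 = 63917 +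
    70900 * a - 1407 * b + 52262 * aa + 24884 * ab - 16968 * bb) (he6 : e6 = -4687 - 140023 * a +
    13356 * b - 191365 * aa - 27603 * ab + 25866 * bb) (he7 : e7 = 634 + 52899 * a - 6675 * b +
    113524 * aa - 231 * ab - 14783 * bb) (hg4 : g4 = -199949 + 199877 * a - 81303 * b - 25892 * aa +
    20552 * ab + 4508 * bb) (hg5 : g5 = 164258 - 198610 * a + 63118 * b - 116938 * aa - 63392 * ab +
    1676 * bb) (hg6 : g6 = 88324 + 75305 * a - 81141 * b + 199363 * aa + 62194 * ab - 4457 * bb)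
    (hg7 : g7 = -28705 - 77499 * a + 43055 * b - 91826 * aa - 22014 * ab + 1475 * bb) (hT : T = 967
    / 1000 + (-129 / 2500) * b + a * (-711 / 5000 + 213 / 5000 * a + 1 / 500 * b)) (hB : B = 12) (hN
    : N = F * (2 * F - 1) * (F - 1)) (hM : M = F - D - 1) (hiN : iN = N⁻¹) (hiM : iM = M⁻¹) (hH : H
    = M * iN) (hiH : iH = N * iM) (hiF : iF = (2 * F - 1) * (F - 1) * iN) (hl2 : l2 = (4 - 3 * F) *
    (F * (2 * F - 1)) * iN) (hq3 : q3 = l2 * (j1 + j2 + j3 + 4 * k) + (-j1 + 2 * j3 - q1 - q2)) (hA2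
    : A2 = (1 - F - 2 * D) / 6 * H) (hA3 : A3 = (1 - D + 10 * D ^ 2 + F * (4 * F + 10 * D - 5)) / 36
    * H) (hc0 : c0 = ((-4) * n10 + 2 * n20 - 3 * n30) / 8) (hc1 : c1 = ((-4) * n11 + 2 * n21 - 3 *
    n31 + 3 * n30) / 8 - A3 * (8 * n10 + 8 * n20 - 6 * n30) / 8) (hA4 : A4 = (4 - 57 * F - 6 * D + F
    * (156 * F + 102 * D - F * (103 * F + 312 * D)) - D ^ 2 * (60 + 480 * F + 320 * D)) / 1080 * H ^
    2) (hJa : Ja = A2 * ((-14) * j1 - 2 * q1)) (hLa : La = A4 * (108 * j1 + 12 * q1) + A2 * (27 * j2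
    - 27 * j1 + 9 * q2 + 3 * r2 - c0 - n10)) (hJb : Jb = A2 * ((-14) * j1 - 2 * q1 + 2 * c0 + 2 *
    n10)) (hLb : Lb = A4 * (108 * j1 + 12 * q1 + 4 * c0 + 8 * n10 + 8 * n20) + A2 * (27 * j2 - 27 *
    j1 + 9 * q2 + 3 * r2 - 3 * c0 - 3 * n10 + 4 * c1 + 4 * n11)) (hx : x = Real.exp T) : outR prog 0
    [a, b, e] = j1 + e * (j2 + e * j3) ∧ outR prog 1 [a, b, e] = -(B * (B * (j1 + e * (j2 - j1 + e *
    (j3 - j2 + e * (-j3)))) + (q1 + e * (q2 + e * (j3 - j2 + q3 + e * ((-4) * j3))))) + ((-16) * j1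
    - 4 * q1 + e * (r2 + e * (q3 + e * ((-3) * j3))))) ∧ outR prog 2 [a, b, e] = k ∧ outR prog 3 [a,
    b, e] = F * (2 * F - 1) * D + (2 * F - 1) * (F - 1) * ((1 + D) * x ^ 2) - 2 * (F * (F - 1)) *
    ((1 + 2 * D) * x) := by
  replace hF : F = (((Int.cast (4) : ℝ) / (Nat.cast 3 : ℝ)) + (((Int.cast (1) : ℝ) / (Nat.cast 32 :
    ℝ)) * b)) := hF.trans (by push_cast <;> ring)
  replace hD : D = ((((Int.cast (-103) : ℝ) / (Nat.cast 96 : ℝ)) + (((Int.cast (-1) : ℝ) / (Nat.cast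
    64 : ℝ)) * b)) + (a * (((Int.cast (19) : ℝ) / (Nat.cast 96 : ℝ)) + (((Int.cast (1) : ℝ) /
    (Nat.cast 64 : ℝ)) * b)))) := hD.trans (by push_cast <;> ring)
  replace haa : aa = (a * a) := haa.trans (by push_cast <;> ring)
  replace hab : ab = (a * b) := hab.trans (by push_cast <;> ring)
  replace hbb : bb = (b * b) := hbb.trans (by push_cast <;> ring)
  replace hj1 : j1 = (((Int.cast (1644) : ℝ) - ((Int.cast (531) : ℝ) * a)) - ((Int.cast (1077) : ℝ)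
    * b)) := hj1.trans (by push_cast <;> ring)
  replace hj2 : j2 = (((Int.cast (1439) : ℝ) + ((Int.cast (2344) : ℝ) * a)) - ((Int.cast (103) : ℝ)
    * b)) := hj2.trans (by push_cast <;> ring)
  replace hj3 : j3 = (((Int.cast (-441) : ℝ) - ((Int.cast (469) : ℝ) * a)) - ((Int.cast (83) : ℝ) *
    b)) := hj3.trans (by push_cast <;> ring)
  replace hq1 : q1 = (((Int.cast (-32908) : ℝ) + ((Int.cast (2430) : ℝ) * a)) + ((Int.cast (16727) :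
    ℝ) * b)) := hq1.trans (by push_cast <;> ring)
  replace hq2 : q2 = (((Int.cast (25916) : ℝ) - ((Int.cast (15809) : ℝ) * a)) - ((Int.cast (16805) :
    ℝ) * b)) := hq2.trans (by push_cast <;> ring)
  replace hr2 : r2 = (((Int.cast (-99999) : ℝ) - ((Int.cast (17074) : ℝ) * a)) + ((Int.cast (52258)
    : ℝ) * b)) := hr2.trans (by push_cast <;> ring)
  replace hk : k = (((Int.cast (1090) : ℝ) + ((Int.cast (20) : ℝ) * a)) + ((Int.cast (528) : ℝ) *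
    b)) := hk.trans (by push_cast <;> ring)
  replace hn10 : n10 = (((Int.cast (-80605) : ℝ) + ((Int.cast (99981) : ℝ) * a)) + ((Int.cast
    (99997) : ℝ) * b)) := hn10.trans (by push_cast <;> ring)
  replace hn11 : n11 = (((Int.cast (36391) : ℝ) + ((Int.cast (47592) : ℝ) * a)) + ((Int.cast (99994)
    : ℝ) * b)) := hn11.trans (by push_cast <;> ring)
  replace hn12 : n12 = (((Int.cast (-76479) : ℝ) + ((Int.cast (94591) : ℝ) * a)) - ((Int.cast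
    (99994) : ℝ) * b)) := hn12.trans (by push_cast <;> ring)
  replace hn20 : n20 = (((Int.cast (57722) : ℝ) - ((Int.cast (38975) : ℝ) * a)) - ((Int.cast (57675)
    : ℝ) * b)) := hn20.trans (by push_cast <;> ring)
  replace hn21 : n21 = (((Int.cast (99861) : ℝ) + ((Int.cast (70414) : ℝ) * a)) - ((Int.cast (76554)
    : ℝ) * b)) := hn21.trans (by push_cast <;> ring)
  replace hn22 : n22 = (((Int.cast (-83396) : ℝ) - ((Int.cast (70528) : ℝ) * a)) + ((Int.cast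
    (99995) : ℝ) * b)) := hn22.trans (by push_cast <;> ring)
  replace hn02 : n02 = (((Int.cast (21359) : ℝ) - ((Int.cast (54107) : ℝ) * a)) + ((Int.cast (89159)
    : ℝ) * b)) := hn02.trans (by push_cast <;> ring)
  replace hn03 : n03 = (((Int.cast (-1244) : ℝ) - ((Int.cast (15357) : ℝ) * a)) - ((Int.cast (1371)
    : ℝ) * b)) := hn03.trans (by push_cast <;> ring)
  replace hn30 : n30 = (((Int.cast (-87027) : ℝ) - ((Int.cast (99988) : ℝ) * a)) + ((Int.cast (1937)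
    : ℝ) * b)) := hn30.trans (by push_cast <;> ring)
  replace hn31 : n31 = (((Int.cast (8332) : ℝ) + ((Int.cast (12407) : ℝ) * a)) + ((Int.cast (37731)
    : ℝ) * b)) := hn31.trans (by push_cast <;> ring)
  replace he4 : e4 = ((((((Int.cast (-15438) : ℝ) + ((Int.cast (18791) : ℝ) * a)) - ((Int.cast
    (19269) : ℝ) * b)) + ((Int.cast (5913) : ℝ) * aa)) - ((Int.cast (4114) : ℝ) * ab)) + ((Int.cast
    (4251) : ℝ) * bb)) := he4.trans (by push_cast <;> ring)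
  replace he5 : e5 = ((((((Int.cast (63917) : ℝ) + ((Int.cast (70900) : ℝ) * a)) - ((Int.cast (1407)
    : ℝ) * b)) + ((Int.cast (52262) : ℝ) * aa)) + ((Int.cast (24884) : ℝ) * ab)) - ((Int.cast
    (16968) : ℝ) * bb)) := he5.trans (by push_cast <;> ring)
  replace he6 : e6 = ((((((Int.cast (-4687) : ℝ) - ((Int.cast (140023) : ℝ) * a)) + ((Int.cast
    (13356) : ℝ) * b)) - ((Int.cast (191365) : ℝ) * aa)) - ((Int.cast (27603) : ℝ) * ab)) +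
    ((Int.cast (25866) : ℝ) * bb)) := he6.trans (by push_cast <;> ring)
  replace he7 : e7 = ((((((Int.cast (634) : ℝ) + ((Int.cast (52899) : ℝ) * a)) - ((Int.cast (6675) :
    ℝ) * b)) + ((Int.cast (113524) : ℝ) * aa)) - ((Int.cast (231) : ℝ) * ab)) - ((Int.cast (14783) :
    ℝ) * bb)) := he7.trans (by push_cast <;> ring)
  replace hg4 : g4 = ((((((Int.cast (-199949) : ℝ) + ((Int.cast (199877) : ℝ) * a)) - ((Int.cast
    (81303) : ℝ) * b)) - ((Int.cast (25892) : ℝ) * aa)) + ((Int.cast (20552) : ℝ) * ab)) +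
    ((Int.cast (4508) : ℝ) * bb)) := hg4.trans (by push_cast <;> ring)
  replace hg5 : g5 = ((((((Int.cast (164258) : ℝ) - ((Int.cast (198610) : ℝ) * a)) + ((Int.cast
    (63118) : ℝ) * b)) - ((Int.cast (116938) : ℝ) * aa)) - ((Int.cast (63392) : ℝ) * ab)) +
    ((Int.cast (1676) : ℝ) * bb)) := hg5.trans (by push_cast <;> ring)
  replace hg6 : g6 = ((((((Int.cast (88324) : ℝ) + ((Int.cast (75305) : ℝ) * a)) - ((Int.cast
    (81141) : ℝ) * b)) + ((Int.cast (199363) : ℝ) * aa)) + ((Int.cast (62194) : ℝ) * ab)) -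
    ((Int.cast (4457) : ℝ) * bb)) := hg6.trans (by push_cast <;> ring)
  replace hg7 : g7 = ((((((Int.cast (-28705) : ℝ) - ((Int.cast (77499) : ℝ) * a)) + ((Int.cast
    (43055) : ℝ) * b)) - ((Int.cast (91826) : ℝ) * aa)) - ((Int.cast (22014) : ℝ) * ab)) +
    ((Int.cast (1475) : ℝ) * bb)) := hg7.trans (by push_cast <;> ring)
  replace hT : T = ((((Int.cast (967) : ℝ) / (Nat.cast 1000 : ℝ)) + (((Int.cast (-129) : ℝ) /
    (Nat.cast 2500 : ℝ)) * b)) + (a * ((((Int.cast (-711) : ℝ) / (Nat.cast 5000 : ℝ)) + (((Int.cast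
    (213) : ℝ) / (Nat.cast 5000 : ℝ)) * a)) + (((Int.cast (1) : ℝ) / (Nat.cast 500 : ℝ)) * b)))) :=
    hT.trans (by push_cast <;> ring)
  replace hB : B = (Int.cast (12) : ℝ) := hB.trans (by push_cast <;> ring)
  replace hN : N = ((F * (((Int.cast (2) : ℝ) * F) - (Int.cast (1) : ℝ))) * (F - (Int.cast (1) :
    ℝ))) := hN.trans (by push_cast <;> ring)
  replace hM : M = ((F - D) - (Int.cast (1) : ℝ)) := hM.trans (by push_cast <;> ring)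
  replace hiN : iN = N⁻¹ := hiN.trans (by push_cast <;> ring)
  replace hiM : iM = M⁻¹ := hiM.trans (by push_cast <;> ring)
  replace hH : H = (M * iN) := hH.trans (by push_cast <;> ring)
  replace hiH : iH = (N * iM) := hiH.trans (by push_cast <;> ring)
  replace hiF : iF = (((((Int.cast (2) : ℝ) * F) - (Int.cast (1) : ℝ)) * (F - (Int.cast (1) : ℝ))) *
    iN) := hiF.trans (by push_cast <;> ring)
  replace hl2 : l2 = ((((Int.cast (4) : ℝ) - ((Int.cast (3) : ℝ) * F)) * (F * (((Int.cast (2) : ℝ) *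
    F) - (Int.cast (1) : ℝ)))) * iN) := hl2.trans (by push_cast <;> ring)
  replace hq3 : q3 = ((l2 * (((j1 + j2) + j3) + ((Int.cast (4) : ℝ) * k))) + (((((Int.cast (-1) : ℝ)
    * j1) + ((Int.cast (2) : ℝ) * j3)) - q1) - q2)) := hq3.trans (by push_cast <;> ring)
  replace hA2 : A2 = ((((Int.cast (1) : ℝ) / (Nat.cast 6 : ℝ)) * (((Int.cast (1) : ℝ) - F) -
    ((Int.cast (2) : ℝ) * D))) * H) := hA2.trans (by push_cast <;> ring)
  replace hA3 : A3 = ((((Int.cast (1) : ℝ) / (Nat.cast 36 : ℝ)) * ((((Int.cast (1) : ℝ) - D) +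
    ((Int.cast (10) : ℝ) * (D * D))) + (F * ((((Int.cast (4) : ℝ) * F) + ((Int.cast (10) : ℝ) * D))
    - (Int.cast (5) : ℝ))))) * H) := hA3.trans (by push_cast <;> ring)
  replace hc0 : c0 = (((Int.cast (1) : ℝ) / (Nat.cast 8 : ℝ)) * ((((Int.cast (-4) : ℝ) * n10) +
    ((Int.cast (2) : ℝ) * n20)) - ((Int.cast (3) : ℝ) * n30))) := hc0.trans (by push_cast <;> ring)
  replace hc1 : c1 = ((((Int.cast (1) : ℝ) / (Nat.cast 8 : ℝ)) * (((((Int.cast (-4) : ℝ) * n11) +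
    ((Int.cast (2) : ℝ) * n21)) - ((Int.cast (3) : ℝ) * n31)) + ((Int.cast (3) : ℝ) * n30))) -
    (((Int.cast (1) : ℝ) / (Nat.cast 8 : ℝ)) * (A3 * ((((Int.cast (8) : ℝ) * n10) + ((Int.cast (8) :
    ℝ) * n20)) - ((Int.cast (6) : ℝ) * n30))))) := hc1.trans (by push_cast <;> ring)
  replace hA4 : A4 = ((((Int.cast (1) : ℝ) / (Nat.cast 1080 : ℝ)) * (((((Int.cast (4) : ℝ) -
    ((Int.cast (57) : ℝ) * F)) - ((Int.cast (6) : ℝ) * D)) + (F * ((((Int.cast (156) : ℝ) * F) +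
    ((Int.cast (102) : ℝ) * D)) - (F * (((Int.cast (103) : ℝ) * F) + ((Int.cast (312) : ℝ) * D))))))
    - ((D * D) * (((Int.cast (60) : ℝ) + ((Int.cast (480) : ℝ) * F)) + ((Int.cast (320) : ℝ) *
    D))))) * (H * H)) := hA4.trans (by push_cast <;> ring)
  replace hJa : Ja = (A2 * (((Int.cast (-14) : ℝ) * j1) - ((Int.cast (2) : ℝ) * q1))) := hJa.trans
    (by push_cast <;> ring)
  replace hLa : La = ((A4 * (((Int.cast (108) : ℝ) * j1) + ((Int.cast (12) : ℝ) * q1))) + (A2 *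
    (((((((Int.cast (27) : ℝ) * j2) - ((Int.cast (27) : ℝ) * j1)) + ((Int.cast (9) : ℝ) * q2)) +
    ((Int.cast (3) : ℝ) * r2)) - c0) - n10))) := hLa.trans (by push_cast <;> ring)
  replace hJb : Jb = (A2 * (((((Int.cast (-14) : ℝ) * j1) - ((Int.cast (2) : ℝ) * q1)) + ((Int.cast
    (2) : ℝ) * c0)) + ((Int.cast (2) : ℝ) * n10))) := hJb.trans (by push_cast <;> ring)
  replace hLb : Lb = ((A4 * ((((((Int.cast (108) : ℝ) * j1) + ((Int.cast (12) : ℝ) * q1)) +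
    ((Int.cast (4) : ℝ) * c0)) + ((Int.cast (8) : ℝ) * n10)) + ((Int.cast (8) : ℝ) * n20))) + (A2 *
    (((((((((Int.cast (27) : ℝ) * j2) - ((Int.cast (27) : ℝ) * j1)) + ((Int.cast (9) : ℝ) * q2)) +
    ((Int.cast (3) : ℝ) * r2)) - ((Int.cast (3) : ℝ) * c0)) - ((Int.cast (3) : ℝ) * n10)) +
    ((Int.cast (4) : ℝ) * c1)) + ((Int.cast (4) : ℝ) * n11)))) := hLb.trans (by push_cast <;> ring)
  have e0 : (j1 + (e * (j2 + (e * j3)))) = j1 + e * (j2 + e * j3) := by push_cast <;> ring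
  have e1 : ((Int.cast (-1) : ℝ) * ((B * ((B * (j1 + (e * ((j2 - j1) + (e * ((j3 - j2) + (e *
    ((Int.cast (-1) : ℝ) * j3)))))))) + (q1 + (e * (q2 + (e * (((j3 - j2) + q3) + (e * ((Int.cast
    (-4) : ℝ) * j3))))))))) + ((((Int.cast (-16) : ℝ) * j1) - ((Int.cast (4) : ℝ) * q1)) + (e * (r2
    + (e * (q3 + (e * ((Int.cast (-3) : ℝ) * j3))))))))) = -(B * (B * (j1 + e * (j2 - j1 + e * (j3 -
    j2 + e * (-j3)))) + (q1 + e * (q2 + e * (j3 - j2 + q3 + e * ((-4) * j3))))) + ((-16) * j1 - 4 *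
    q1 + e * (r2 + e * (q3 + e * ((-3) * j3))))) := by push_cast <;> ring
  have e3 : ((((F * (((Int.cast (2) : ℝ) * F) - (Int.cast (1) : ℝ))) * D) + (((((Int.cast (2) : ℝ) *
    F) - (Int.cast (1) : ℝ)) * (F - (Int.cast (1) : ℝ))) * (((Int.cast (1) : ℝ) + D) * (x * x)))) -
    (((Int.cast (2) : ℝ) * (F * (F - (Int.cast (1) : ℝ)))) * (((Int.cast (1) : ℝ) + ((Int.cast (2) :
    ℝ) * D)) * x))) = F * (2 * F - 1) * D + (2 * F - 1) * (F - 1) * ((1 + D) * x ^ 2) - 2 * (F * (F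
    - 1)) * ((1 + 2 * D) * x) := by push_cast <;> ring
  subst hF hD haa hab hbb hj1 hj2 hj3 hq1 hq2 hr2 hk hn10 hn11 hn12 hn20 hn21 hn22 hn02 hn03 hn30
    hn31 he4 he5 he6 he7 hg4 hg5 hg6 hg7 hT hB hN hM hiN hiM hH hiH hiF hl2 hq3 hA2 hA3 hc0 hc1 hA4
    hJa hLa hJb hLb hx
  dsimp only [outR, prog, prog1, prog2, runR, stepR, gtR]
  exact ⟨e0, e1, rfl, e3⟩

theorem l0 : ((-140737488355328 : ℤ) : ℝ) / 2 ^ 47 = -1 := by norm_num
theorem u0 : (1 : ℝ) = ((140737488355328 : ℤ) : ℝ) / 2 ^ 47 := by norm_num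
theorem l1 : ((-140737488355328 : ℤ) : ℝ) / 2 ^ 47 = -1 := by norm_num
theorem u1 : (1 : ℝ) = ((140737488355328 : ℤ) : ℝ) / 2 ^ 47 := by norm_num
theorem l2 : ((0 : ℤ) : ℝ) / 2 ^ 47 = 0 := by norm_num
theorem u2 : (1 : ℝ) = ((140737488355328 : ℤ) : ℝ) / 2 ^ 47 := by norm_num

theorem out0 {a b e : ℝ} (a0 : -1 ≤ a) (b0 : a ≤ 1) (a1 : -1 ≤ b) (b1 : b ≤ 1) (a2 : 0 ≤ e) (b2 : e
    ≤ 1) : 0 < outR prog 0 [a, b, e] :=
  gd 0 (by decide) [a, b, e] (.cons ⟨l0.le.trans a0, b0.trans u0.le⟩ (.cons ⟨l1.le.trans a1,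
    b1.trans u1.le⟩ (.cons ⟨l2.le.trans a2, b2.trans u2.le⟩ (.nil)))) ⟨nofun, nofun, nofun, trivial⟩
    (List.forall_mem_nil _) (Van.of0 rfl) (nofun)

theorem pos0 {a b e F D aa ab bb j1 j2 j3 q1 q2 r2 k n10 n11 n12 n20 n21 n22 n02 n03 n30 n31 e4 e5
    e6 e7 g4 g5 g6 g7 T B N M iN iM H iH iF l2 q3 A2 A3 c0 c1 A4 Ja La Jb Lb x : ℝ} (hF : F = 4 / 3
    + b / 32) (hD : D = -103 / 96 + (-1 / 64) * b + a * (19 / 96 + 1 / 64 * b)) (haa : aa = a * a)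
    (hab : ab = a * b) (hbb : bb = b * b) (hj1 : j1 = 1644 - 531 * a - 1077 * b) (hj2 : j2 = 1439 +
    2344 * a - 103 * b) (hj3 : j3 = -441 - 469 * a - 83 * b) (hq1 : q1 = -32908 + 2430 * a + 16727 *
    b) (hq2 : q2 = 25916 - 15809 * a - 16805 * b) (hr2 : r2 = -99999 - 17074 * a + 52258 * b) (hk :
    k = 1090 + 20 * a + 528 * b) (hn10 : n10 = -80605 + 99981 * a + 99997 * b) (hn11 : n11 = 36391 +
    47592 * a + 99994 * b) (hn12 : n12 = -76479 + 94591 * a - 99994 * b) (hn20 : n20 = 57722 - 38975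
    * a - 57675 * b) (hn21 : n21 = 99861 + 70414 * a - 76554 * b) (hn22 : n22 = -83396 - 70528 * a +
    99995 * b) (hn02 : n02 = 21359 - 54107 * a + 89159 * b) (hn03 : n03 = -1244 - 15357 * a - 1371 *
    b) (hn30 : n30 = -87027 - 99988 * a + 1937 * b) (hn31 : n31 = 8332 + 12407 * a + 37731 * b) (he4
    : e4 = -15438 + 18791 * a - 19269 * b + 5913 * aa - 4114 * ab + 4251 * bb) (he5 : e5 = 63917 +
    70900 * a - 1407 * b + 52262 * aa + 24884 * ab - 16968 * bb) (he6 : e6 = -4687 - 140023 * a +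
    13356 * b - 191365 * aa - 27603 * ab + 25866 * bb) (he7 : e7 = 634 + 52899 * a - 6675 * b +
    113524 * aa - 231 * ab - 14783 * bb) (hg4 : g4 = -199949 + 199877 * a - 81303 * b - 25892 * aa +
    20552 * ab + 4508 * bb) (hg5 : g5 = 164258 - 198610 * a + 63118 * b - 116938 * aa - 63392 * ab +
    1676 * bb) (hg6 : g6 = 88324 + 75305 * a - 81141 * b + 199363 * aa + 62194 * ab - 4457 * bb)
    (hg7 : g7 = -28705 - 77499 * a + 43055 * b - 91826 * aa - 22014 * ab + 1475 * bb) (hT : T = 967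
    / 1000 + (-129 / 2500) * b + a * (-711 / 5000 + 213 / 5000 * a + 1 / 500 * b)) (hB : B = 12) (hN
    : N = F * (2 * F - 1) * (F - 1)) (hM : M = F - D - 1) (hiN : iN = N⁻¹) (hiM : iM = M⁻¹) (hH : H
    = M * iN) (hiH : iH = N * iM) (hiF : iF = (2 * F - 1) * (F - 1) * iN) (hl2 : l2 = (4 - 3 * F) *
    (F * (2 * F - 1)) * iN) (hq3 : q3 = l2 * (j1 + j2 + j3 + 4 * k) + (-j1 + 2 * j3 - q1 - q2)) (hA2
    : A2 = (1 - F - 2 * D) / 6 * H) (hA3 : A3 = (1 - D + 10 * D ^ 2 + F * (4 * F + 10 * D - 5)) / 36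
    * H) (hc0 : c0 = ((-4) * n10 + 2 * n20 - 3 * n30) / 8) (hc1 : c1 = ((-4) * n11 + 2 * n21 - 3 *
    n31 + 3 * n30) / 8 - A3 * (8 * n10 + 8 * n20 - 6 * n30) / 8) (hA4 : A4 = (4 - 57 * F - 6 * D + F
    * (156 * F + 102 * D - F * (103 * F + 312 * D)) - D ^ 2 * (60 + 480 * F + 320 * D)) / 1080 * H ^
    2) (hJa : Ja = A2 * ((-14) * j1 - 2 * q1)) (hLa : La = A4 * (108 * j1 + 12 * q1) + A2 * (27 * j2
    - 27 * j1 + 9 * q2 + 3 * r2 - c0 - n10)) (hJb : Jb = A2 * ((-14) * j1 - 2 * q1 + 2 * c0 + 2 *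
    n10)) (hLb : Lb = A4 * (108 * j1 + 12 * q1 + 4 * c0 + 8 * n10 + 8 * n20) + A2 * (27 * j2 - 27 *
    j1 + 9 * q2 + 3 * r2 - 3 * c0 - 3 * n10 + 4 * c1 + 4 * n11)) (hx : x = Real.exp T) (a0 : -1 ≤ a)
    (b0 : a ≤ 1) (a1 : -1 ≤ b) (b1 : b ≤ 1) (a2 : 0 ≤ e) (b2 : e ≤ 1) : 0 < j1 + e * (j2 + e * j3)
    :=
  have e := eq hF hD haa hab hbb hj1 hj2 hj3 hq1 hq2 hr2 hk hn10 hn11 hn12 hn20 hn21 hn22 hn02 hn03
    hn30 hn31 he4 he5 he6 he7 hg4 hg5 hg6 hg7 hT hB hN hM hiN hiM hH hiH hiF hl2 hq3 hA2 hA3 hc0 hc1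
    hA4 hJa hLa hJb hLb hx
  (out0 a0 b0 a1 b1 a2 b2).trans_eq e.1

theorem out1 {a b e : ℝ} (a0 : -1 ≤ a) (b0 : a ≤ 1) (a1 : -1 ≤ b) (b1 : b ≤ 1) (a2 : 0 ≤ e) (b2 : e
    ≤ 1) : 0 < outR prog 1 [a, b, e] :=
  gd 1 (by decide) [a, b, e] (.cons ⟨l0.le.trans a0, b0.trans u0.le⟩ (.cons ⟨l1.le.trans a1,
    b1.trans u1.le⟩ (.cons ⟨l2.le.trans a2, b2.trans u2.le⟩ (.nil)))) ⟨nofun, nofun, nofun, trivial⟩
    (List.forall_mem_nil _) (Van.of0 rfl) (nofun)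

theorem pos1 {a b e F D aa ab bb j1 j2 j3 q1 q2 r2 k n10 n11 n12 n20 n21 n22 n02 n03 n30 n31 e4 e5
    e6 e7 g4 g5 g6 g7 T B N M iN iM H iH iF l2 q3 A2 A3 c0 c1 A4 Ja La Jb Lb x : ℝ} (hF : F = 4 / 3
    + b / 32) (hD : D = -103 / 96 + (-1 / 64) * b + a * (19 / 96 + 1 / 64 * b)) (haa : aa = a * a)
    (hab : ab = a * b) (hbb : bb = b * b) (hj1 : j1 = 1644 - 531 * a - 1077 * b) (hj2 : j2 = 1439 +
    2344 * a - 103 * b) (hj3 : j3 = -441 - 469 * a - 83 * b) (hq1 : q1 = -32908 + 2430 * a + 16727 *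
    b) (hq2 : q2 = 25916 - 15809 * a - 16805 * b) (hr2 : r2 = -99999 - 17074 * a + 52258 * b) (hk :
    k = 1090 + 20 * a + 528 * b) (hn10 : n10 = -80605 + 99981 * a + 99997 * b) (hn11 : n11 = 36391 +
    47592 * a + 99994 * b) (hn12 : n12 = -76479 + 94591 * a - 99994 * b) (hn20 : n20 = 57722 - 38975
    * a - 57675 * b) (hn21 : n21 = 99861 + 70414 * a - 76554 * b) (hn22 : n22 = -83396 - 70528 * a +
    99995 * b) (hn02 : n02 = 21359 - 54107 * a + 89159 * b) (hn03 : n03 = -1244 - 15357 * a - 1371 *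
    b) (hn30 : n30 = -87027 - 99988 * a + 1937 * b) (hn31 : n31 = 8332 + 12407 * a + 37731 * b) (he4
    : e4 = -15438 + 18791 * a - 19269 * b + 5913 * aa - 4114 * ab + 4251 * bb) (he5 : e5 = 63917 +
    70900 * a - 1407 * b + 52262 * aa + 24884 * ab - 16968 * bb) (he6 : e6 = -4687 - 140023 * a +
    13356 * b - 191365 * aa - 27603 * ab + 25866 * bb) (he7 : e7 = 634 + 52899 * a - 6675 * b +
    113524 * aa - 231 * ab - 14783 * bb) (hg4 : g4 = -199949 + 199877 * a - 81303 * b - 25892 * aa +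
    20552 * ab + 4508 * bb) (hg5 : g5 = 164258 - 198610 * a + 63118 * b - 116938 * aa - 63392 * ab +
    1676 * bb) (hg6 : g6 = 88324 + 75305 * a - 81141 * b + 199363 * aa + 62194 * ab - 4457 * bb)
    (hg7 : g7 = -28705 - 77499 * a + 43055 * b - 91826 * aa - 22014 * ab + 1475 * bb) (hT : T = 967
    / 1000 + (-129 / 2500) * b + a * (-711 / 5000 + 213 / 5000 * a + 1 / 500 * b)) (hB : B = 12) (hN
    : N = F * (2 * F - 1) * (F - 1)) (hM : M = F - D - 1) (hiN : iN = N⁻¹) (hiM : iM = M⁻¹) (hH : H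
    = M * iN) (hiH : iH = N * iM) (hiF : iF = (2 * F - 1) * (F - 1) * iN) (hl2 : l2 = (4 - 3 * F) *
    (F * (2 * F - 1)) * iN) (hq3 : q3 = l2 * (j1 + j2 + j3 + 4 * k) + (-j1 + 2 * j3 - q1 - q2)) (hA2
    : A2 = (1 - F - 2 * D) / 6 * H) (hA3 : A3 = (1 - D + 10 * D ^ 2 + F * (4 * F + 10 * D - 5)) / 36
    * H) (hc0 : c0 = ((-4) * n10 + 2 * n20 - 3 * n30) / 8) (hc1 : c1 = ((-4) * n11 + 2 * n21 - 3 *
    n31 + 3 * n30) / 8 - A3 * (8 * n10 + 8 * n20 - 6 * n30) / 8) (hA4 : A4 = (4 - 57 * F - 6 * D + F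
    * (156 * F + 102 * D - F * (103 * F + 312 * D)) - D ^ 2 * (60 + 480 * F + 320 * D)) / 1080 * H ^
    2) (hJa : Ja = A2 * ((-14) * j1 - 2 * q1)) (hLa : La = A4 * (108 * j1 + 12 * q1) + A2 * (27 * j2
    - 27 * j1 + 9 * q2 + 3 * r2 - c0 - n10)) (hJb : Jb = A2 * ((-14) * j1 - 2 * q1 + 2 * c0 + 2 *
    n10)) (hLb : Lb = A4 * (108 * j1 + 12 * q1 + 4 * c0 + 8 * n10 + 8 * n20) + A2 * (27 * j2 - 27 *
    j1 + 9 * q2 + 3 * r2 - 3 * c0 - 3 * n10 + 4 * c1 + 4 * n11)) (hx : x = Real.exp T) (a0 : -1 ≤ a)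
    (b0 : a ≤ 1) (a1 : -1 ≤ b) (b1 : b ≤ 1) (a2 : 0 ≤ e) (b2 : e ≤ 1) : 0 < -(B * (B * (j1 + e * (j2
    - j1 + e * (j3 - j2 + e * (-j3)))) + (q1 + e * (q2 + e * (j3 - j2 + q3 + e * ((-4) * j3))))) +
    ((-16) * j1 - 4 * q1 + e * (r2 + e * (q3 + e * ((-3) * j3))))) :=
  have e := eq hF hD haa hab hbb hj1 hj2 hj3 hq1 hq2 hr2 hk hn10 hn11 hn12 hn20 hn21 hn22 hn02 hn03
    hn30 hn31 he4 he5 he6 he7 hg4 hg5 hg6 hg7 hT hB hN hM hiN hiM hH hiH hiF hl2 hq3 hA2 hA3 hc0 hc1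
    hA4 hJa hLa hJb hLb hx
  (out1 a0 b0 a1 b1 a2 b2).trans_eq e.2.1

theorem out2 {a b e : ℝ} (a0 : -1 ≤ a) (b0 : a ≤ 1) (a1 : -1 ≤ b) (b1 : b ≤ 1) (a2 : 0 ≤ e) (b2 : e
    ≤ 1) : 0 < outR prog 2 [a, b, e] :=
  gd 2 (by decide) [a, b, e] (.cons ⟨l0.le.trans a0, b0.trans u0.le⟩ (.cons ⟨l1.le.trans a1,
    b1.trans u1.le⟩ (.cons ⟨l2.le.trans a2, b2.trans u2.le⟩ (.nil)))) ⟨nofun, nofun, nofun, trivial⟩
    (List.forall_mem_nil _) (Van.of0 rfl) (nofun)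

theorem pos2 {a b e F D aa ab bb j1 j2 j3 q1 q2 r2 k n10 n11 n12 n20 n21 n22 n02 n03 n30 n31 e4 e5
    e6 e7 g4 g5 g6 g7 T B N M iN iM H iH iF l2 q3 A2 A3 c0 c1 A4 Ja La Jb Lb x : ℝ} (hF : F = 4 / 3
    + b / 32) (hD : D = -103 / 96 + (-1 / 64) * b + a * (19 / 96 + 1 / 64 * b)) (haa : aa = a * a)
    (hab : ab = a * b) (hbb : bb = b * b) (hj1 : j1 = 1644 - 531 * a - 1077 * b) (hj2 : j2 = 1439 +
    2344 * a - 103 * b) (hj3 : j3 = -441 - 469 * a - 83 * b) (hq1 : q1 = -32908 + 2430 * a + 16727 *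
    b) (hq2 : q2 = 25916 - 15809 * a - 16805 * b) (hr2 : r2 = -99999 - 17074 * a + 52258 * b) (hk :
    k = 1090 + 20 * a + 528 * b) (hn10 : n10 = -80605 + 99981 * a + 99997 * b) (hn11 : n11 = 36391 +
    47592 * a + 99994 * b) (hn12 : n12 = -76479 + 94591 * a - 99994 * b) (hn20 : n20 = 57722 - 38975
    * a - 57675 * b) (hn21 : n21 = 99861 + 70414 * a - 76554 * b) (hn22 : n22 = -83396 - 70528 * a +
    99995 * b) (hn02 : n02 = 21359 - 54107 * a + 89159 * b) (hn03 : n03 = -1244 - 15357 * a - 1371 *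
    b) (hn30 : n30 = -87027 - 99988 * a + 1937 * b) (hn31 : n31 = 8332 + 12407 * a + 37731 * b) (he4
    : e4 = -15438 + 18791 * a - 19269 * b + 5913 * aa - 4114 * ab + 4251 * bb) (he5 : e5 = 63917 +
    70900 * a - 1407 * b + 52262 * aa + 24884 * ab - 16968 * bb) (he6 : e6 = -4687 - 140023 * a +
    13356 * b - 191365 * aa - 27603 * ab + 25866 * bb) (he7 : e7 = 634 + 52899 * a - 6675 * b +
    113524 * aa - 231 * ab - 14783 * bb) (hg4 : g4 = -199949 + 199877 * a - 81303 * b - 25892 * aa +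
    20552 * ab + 4508 * bb) (hg5 : g5 = 164258 - 198610 * a + 63118 * b - 116938 * aa - 63392 * ab +
    1676 * bb) (hg6 : g6 = 88324 + 75305 * a - 81141 * b + 199363 * aa + 62194 * ab - 4457 * bb)
    (hg7 : g7 = -28705 - 77499 * a + 43055 * b - 91826 * aa - 22014 * ab + 1475 * bb) (hT : T = 967
    / 1000 + (-129 / 2500) * b + a * (-711 / 5000 + 213 / 5000 * a + 1 / 500 * b)) (hB : B = 12) (hN
    : N = F * (2 * F - 1) * (F - 1)) (hM : M = F - D - 1) (hiN : iN = N⁻¹) (hiM : iM = M⁻¹) (hH : H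
    = M * iN) (hiH : iH = N * iM) (hiF : iF = (2 * F - 1) * (F - 1) * iN) (hl2 : l2 = (4 - 3 * F) *
    (F * (2 * F - 1)) * iN) (hq3 : q3 = l2 * (j1 + j2 + j3 + 4 * k) + (-j1 + 2 * j3 - q1 - q2)) (hA2
    : A2 = (1 - F - 2 * D) / 6 * H) (hA3 : A3 = (1 - D + 10 * D ^ 2 + F * (4 * F + 10 * D - 5)) / 36
    * H) (hc0 : c0 = ((-4) * n10 + 2 * n20 - 3 * n30) / 8) (hc1 : c1 = ((-4) * n11 + 2 * n21 - 3 *
    n31 + 3 * n30) / 8 - A3 * (8 * n10 + 8 * n20 - 6 * n30) / 8) (hA4 : A4 = (4 - 57 * F - 6 * D + F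
    * (156 * F + 102 * D - F * (103 * F + 312 * D)) - D ^ 2 * (60 + 480 * F + 320 * D)) / 1080 * H ^
    2) (hJa : Ja = A2 * ((-14) * j1 - 2 * q1)) (hLa : La = A4 * (108 * j1 + 12 * q1) + A2 * (27 * j2
    - 27 * j1 + 9 * q2 + 3 * r2 - c0 - n10)) (hJb : Jb = A2 * ((-14) * j1 - 2 * q1 + 2 * c0 + 2 *
    n10)) (hLb : Lb = A4 * (108 * j1 + 12 * q1 + 4 * c0 + 8 * n10 + 8 * n20) + A2 * (27 * j2 - 27 *
    j1 + 9 * q2 + 3 * r2 - 3 * c0 - 3 * n10 + 4 * c1 + 4 * n11)) (hx : x = Real.exp T) (a0 : -1 ≤ a)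
    (b0 : a ≤ 1) (a1 : -1 ≤ b) (b1 : b ≤ 1) (a2 : 0 ≤ e) (b2 : e ≤ 1) : 0 < k :=
  have e := eq hF hD haa hab hbb hj1 hj2 hj3 hq1 hq2 hr2 hk hn10 hn11 hn12 hn20 hn21 hn22 hn02 hn03
    hn30 hn31 he4 he5 he6 he7 hg4 hg5 hg6 hg7 hT hB hN hM hiN hiM hH hiH hiF hl2 hq3 hA2 hA3 hc0 hc1
    hA4 hJa hLa hJb hLb hx
  (out2 a0 b0 a1 b1 a2 b2).trans_eq e.2.2.1

theorem out3 {a b e : ℝ} (a0 : -1 ≤ a) (b0 : a ≤ 1) (a1 : -1 ≤ b) (b1 : b ≤ 1) (a2 : 0 ≤ e) (b2 : e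
    ≤ 1) : 0 < outR prog 3 [a, b, e] :=
  gd 3 (by decide) [a, b, e] (.cons ⟨l0.le.trans a0, b0.trans u0.le⟩ (.cons ⟨l1.le.trans a1,
    b1.trans u1.le⟩ (.cons ⟨l2.le.trans a2, b2.trans u2.le⟩ (.nil)))) ⟨nofun, nofun, nofun, trivial⟩
    (List.forall_mem_nil _) (Van.of0 rfl) (nofun)

theorem pos3 {a b e F D aa ab bb j1 j2 j3 q1 q2 r2 k n10 n11 n12 n20 n21 n22 n02 n03 n30 n31 e4 e5
    e6 e7 g4 g5 g6 g7 T B N M iN iM H iH iF l2 q3 A2 A3 c0 c1 A4 Ja La Jb Lb x : ℝ} (hF : F = 4 / 3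
    + b / 32) (hD : D = -103 / 96 + (-1 / 64) * b + a * (19 / 96 + 1 / 64 * b)) (haa : aa = a * a)
    (hab : ab = a * b) (hbb : bb = b * b) (hj1 : j1 = 1644 - 531 * a - 1077 * b) (hj2 : j2 = 1439 +
    2344 * a - 103 * b) (hj3 : j3 = -441 - 469 * a - 83 * b) (hq1 : q1 = -32908 + 2430 * a + 16727 *
    b) (hq2 : q2 = 25916 - 15809 * a - 16805 * b) (hr2 : r2 = -99999 - 17074 * a + 52258 * b) (hk :
    k = 1090 + 20 * a + 528 * b) (hn10 : n10 = -80605 + 99981 * a + 99997 * b) (hn11 : n11 = 36391 +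
    47592 * a + 99994 * b) (hn12 : n12 = -76479 + 94591 * a - 99994 * b) (hn20 : n20 = 57722 - 38975
    * a - 57675 * b) (hn21 : n21 = 99861 + 70414 * a - 76554 * b) (hn22 : n22 = -83396 - 70528 * a +
    99995 * b) (hn02 : n02 = 21359 - 54107 * a + 89159 * b) (hn03 : n03 = -1244 - 15357 * a - 1371 *
    b) (hn30 : n30 = -87027 - 99988 * a + 1937 * b) (hn31 : n31 = 8332 + 12407 * a + 37731 * b) (he4
    : e4 = -15438 + 18791 * a - 19269 * b + 5913 * aa - 4114 * ab + 4251 * bb) (he5 : e5 = 63917 +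
    70900 * a - 1407 * b + 52262 * aa + 24884 * ab - 16968 * bb) (he6 : e6 = -4687 - 140023 * a +
    13356 * b - 191365 * aa - 27603 * ab + 25866 * bb) (he7 : e7 = 634 + 52899 * a - 6675 * b +
    113524 * aa - 231 * ab - 14783 * bb) (hg4 : g4 = -199949 + 199877 * a - 81303 * b - 25892 * aa +
    20552 * ab + 4508 * bb) (hg5 : g5 = 164258 - 198610 * a + 63118 * b - 116938 * aa - 63392 * ab +
    1676 * bb) (hg6 : g6 = 88324 + 75305 * a - 81141 * b + 199363 * aa + 62194 * ab - 4457 * bb)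
    (hg7 : g7 = -28705 - 77499 * a + 43055 * b - 91826 * aa - 22014 * ab + 1475 * bb) (hT : T = 967
    / 1000 + (-129 / 2500) * b + a * (-711 / 5000 + 213 / 5000 * a + 1 / 500 * b)) (hB : B = 12) (hN
    : N = F * (2 * F - 1) * (F - 1)) (hM : M = F - D - 1) (hiN : iN = N⁻¹) (hiM : iM = M⁻¹) (hH : H
    = M * iN) (hiH : iH = N * iM) (hiF : iF = (2 * F - 1) * (F - 1) * iN) (hl2 : l2 = (4 - 3 * F) *
    (F * (2 * F - 1)) * iN) (hq3 : q3 = l2 * (j1 + j2 + j3 + 4 * k) + (-j1 + 2 * j3 - q1 - q2)) (hA2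
    : A2 = (1 - F - 2 * D) / 6 * H) (hA3 : A3 = (1 - D + 10 * D ^ 2 + F * (4 * F + 10 * D - 5)) / 36
    * H) (hc0 : c0 = ((-4) * n10 + 2 * n20 - 3 * n30) / 8) (hc1 : c1 = ((-4) * n11 + 2 * n21 - 3 *
    n31 + 3 * n30) / 8 - A3 * (8 * n10 + 8 * n20 - 6 * n30) / 8) (hA4 : A4 = (4 - 57 * F - 6 * D + F
    * (156 * F + 102 * D - F * (103 * F + 312 * D)) - D ^ 2 * (60 + 480 * F + 320 * D)) / 1080 * H ^
    2) (hJa : Ja = A2 * ((-14) * j1 - 2 * q1)) (hLa : La = A4 * (108 * j1 + 12 * q1) + A2 * (27 * j2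
    - 27 * j1 + 9 * q2 + 3 * r2 - c0 - n10)) (hJb : Jb = A2 * ((-14) * j1 - 2 * q1 + 2 * c0 + 2 *
    n10)) (hLb : Lb = A4 * (108 * j1 + 12 * q1 + 4 * c0 + 8 * n10 + 8 * n20) + A2 * (27 * j2 - 27 *
    j1 + 9 * q2 + 3 * r2 - 3 * c0 - 3 * n10 + 4 * c1 + 4 * n11)) (hx : x = Real.exp T) (a0 : -1 ≤ a)
    (b0 : a ≤ 1) (a1 : -1 ≤ b) (b1 : b ≤ 1) (a2 : 0 ≤ e) (b2 : e ≤ 1) : 0 < F * (2 * F - 1) * D + (2
    * F - 1) * (F - 1) * ((1 + D) * x ^ 2) - 2 * (F * (F - 1)) * ((1 + 2 * D) * x) :=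
  have e := eq hF hD haa hab hbb hj1 hj2 hj3 hq1 hq2 hr2 hk hn10 hn11 hn12 hn20 hn21 hn22 hn02 hn03
    hn30 hn31 he4 he5 he6 he7 hg4 hg5 hg6 hg7 hT hB hN hM hiN hiM hH hiH hiF hl2 hq3 hA2 hA3 hc0 hc1
    hA4 hJa hLa hJb hLb hx
  (out3 a0 b0 a1 b1 a2 b2).trans_eq e.2.2.2

end Pool.Agent.Lib.MP_d6150d_an.S10Bg
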