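import Pool.Agent.Lib.MP_d6150d_an.S10BlD

/-! A generated chart: the computations. -/

namespace Pool.Agent.Lib.MP_d6150d_an.S10Bl

theorem q1 :
    chk C 0x880 [(-140737488355328, -70368744177664), (70368744177664, 140737488355328),
    (17592186044416, 35184372088832)] = true ∧
    chk C 0x881 [(-70368744177664, -35184372088832), (0, 70368744177664), (0, 17592186044416)] =
    true ∧
    chk C 0x881 [(-35184372088832, 0), (0, 70368744177664), (0, 17592186044416)] = true ∧
    chk C 0x881 [(-70368744177664, -35184372088832), (70368744177664, 140737488355328), (0,
    17592186044416)] = true ∧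
    chk C 0x881 [(-35184372088832, 0), (70368744177664, 140737488355328), (0, 17592186044416)] =
    true ∧
    chk C 0x880 [(-70368744177664, 0), (0, 70368744177664), (17592186044416, 35184372088832)] = true ∧
    chk C 0x881 [(-70368744177664, -35184372088832), (70368744177664, 140737488355328),
    (17592186044416, 35184372088832)] = true ∧
    chk C 0x8 [(-35184372088832, 0), (70368744177664, 140737488355328), (17592186044416,
    35184372088832)] = true ∧
    chk C 0x880 [(0, 70368744177664), (-140737488355328, -105553116266496), (0, 17592186044416)] =
    true ∧
    chk C 0x8 [(0, 70368744177664), (-105553116266496, -70368744177664), (0, 17592186044416)] = true ∧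
    chk C 0x880 [(0, 70368744177664), (-70368744177664, 0), (0, 17592186044416)] = true ∧
    chk C 0x880 [(70368744177664, 140737488355328), (-140737488355328, -70368744177664), (0,
    17592186044416)] = true ∧
    chk C 0x880 [(70368744177664, 140737488355328), (-70368744177664, 0), (0, 17592186044416)] =
    true ∧
    chk C 0x880 [(0, 70368744177664), (-140737488355328, -70368744177664), (17592186044416,
    35184372088832)] = true ∧
    chk C 0x8 [(0, 70368744177664), (-70368744177664, 0), (17592186044416, 35184372088832)] = true ∧
    chk C 0x881 [(70368744177664, 140737488355328), (-140737488355328, 0), (17592186044416,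
    35184372088832)] = true := by
  refine ⟨?_, ?_, ?_, ?_, ?_, ?_, ?_, ?_, ?_, ?_, ?_, ?_, ?_, ?_, ?_, ?_⟩ <;> decide +kernel

end Pool.Agent.Lib.MP_d6150d_an.S10Bl
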