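import Pool.Agent.Lib.MP_d6150d_an.S10BmD

/-! A generated chart: the computations. -/

namespace Pool.Agent.Lib.MP_d6150d_an.S10Bm

theorem q0 :
    chk C 0x881 [(-140737488355328, -70368744177664), (-140737488355328, 0), (-1125899906842624,
    -879609302220800)] = true ∧
    chk C 0x881 [(-70368744177664, 0), (-140737488355328, 0), (-1125899906842624, -879609302220800)]
    = true ∧
    chk C 0x881 [(-140737488355328, -70368744177664), (-140737488355328, 0), (-879609302220800,
    -633318697598976)] = true ∧
    chk C 0x881 [(-70368744177664, 0), (-140737488355328, 0), (-879609302220800, -633318697598976)]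
    = true ∧
    chk C 0x880 [(-140737488355328, -70368744177664), (0, 70368744177664), (-1125899906842624,
    -879609302220800)] = true ∧
    chk C 0x8 [(-140737488355328, -70368744177664), (70368744177664, 140737488355328),
    (-1125899906842624, -879609302220800)] = true ∧
    chk C 0x880 [(-140737488355328, -70368744177664), (0, 70368744177664), (-879609302220800,
    -633318697598976)] = true ∧
    chk C 0x8 [(-140737488355328, -70368744177664), (70368744177664, 140737488355328),
    (-879609302220800, -633318697598976)] = true ∧
    chk C 0x880 [(-70368744177664, 0), (0, 70368744177664), (-1125899906842624, -879609302220800)] =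
    true ∧
    chk C 0x881 [(-70368744177664, -35184372088832), (0, 70368744177664), (-879609302220800,
    -633318697598976)] = true ∧
    chk C 0x881 [(-35184372088832, 0), (0, 70368744177664), (-879609302220800, -633318697598976)] =
    true ∧
    chk C 0x882 [(-70368744177664, 0), (70368744177664, 140737488355328), (-1125899906842624,
    -633318697598976)] = true ∧
    chk C 0x8 [(0, 140737488355328), (-140737488355328, -70368744177664), (-1125899906842624,
    -879609302220800)] = true ∧
    chk C 0x880 [(0, 140737488355328), (-70368744177664, 0), (-1125899906842624, -879609302220800)]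
    = true ∧
    chk C 0x8 [(0, 70368744177664), (-140737488355328, -70368744177664), (-879609302220800,
    -633318697598976)] = true ∧
    chk C 0x8 [(0, 70368744177664), (-70368744177664, -35184372088832), (-879609302220800,
    -633318697598976)] = true ∧
    chk C 0x880 [(0, 70368744177664), (-35184372088832, 0), (-879609302220800, -633318697598976)] =
    true ∧
    chk C 0x8 [(70368744177664, 140737488355328), (-140737488355328, -70368744177664),
    (-879609302220800, -633318697598976)] = true := by
  refine ⟨?_, ?_, ?_, ?_, ?_, ?_, ?_, ?_, ?_, ?_, ?_, ?_, ?_, ?_, ?_, ?_, ?_, ?_⟩ <;> decide +kernel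

end Pool.Agent.Lib.MP_d6150d_an.S10Bm
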