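import Pool.Agent.Lib.MP_d6150d_an.S10BmD

/-! A generated chart: the computations. -/

namespace Pool.Agent.Lib.MP_d6150d_an.S10Bm

theorem q2 :
    chk C 0x881 [(-35184372088832, 0), (-70368744177664, 0), (-510173395288064, -387028092977152)] =
    true ∧
    chk C 0x8 [(-140737488355328, -105553116266496), (0, 70368744177664), (-633318697598976,
    -510173395288064)] = true ∧
    chk C 0x881 [(-105553116266496, -70368744177664), (0, 70368744177664), (-633318697598976,
    -510173395288064)] = true ∧
    chk C 0x881 [(-140737488355328, -105553116266496), (0, 70368744177664), (-510173395288064,
    -387028092977152)] = true ∧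
    chk C 0x8 [(-105553116266496, -70368744177664), (0, 35184372088832), (-510173395288064,
    -387028092977152)] = true ∧
    chk C 0x880 [(-105553116266496, -70368744177664), (35184372088832, 70368744177664),
    (-510173395288064, -387028092977152)] = true ∧
    chk C 0x8 [(-140737488355328, -70368744177664), (70368744177664, 140737488355328),
    (-633318697598976, -510173395288064)] = true ∧
    chk C 0x8 [(-140737488355328, -105553116266496), (70368744177664, 140737488355328),
    (-510173395288064, -387028092977152)] = true ∧
    chk C 0x881 [(-105553116266496, -70368744177664), (70368744177664, 140737488355328),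
    (-510173395288064, -387028092977152)] = true ∧
    chk C 0x880 [(-70368744177664, -35184372088832), (0, 35184372088832), (-633318697598976,
    -510173395288064)] = true ∧
    chk C 0x881 [(-70368744177664, -35184372088832), (35184372088832, 70368744177664),
    (-633318697598976, -510173395288064)] = true ∧
    chk C 0x882 [(-35184372088832, 0), (0, 35184372088832), (-633318697598976, -510173395288064)] =
    true ∧
    chk C 0x8 [(-35184372088832, 0), (35184372088832, 70368744177664), (-633318697598976,
    -571746046443520)] = true ∧
    chk C 0x880 [(-35184372088832, 0), (35184372088832, 70368744177664), (-571746046443520,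
    -510173395288064)] = true ∧
    chk C 0x880 [(-70368744177664, 0), (70368744177664, 140737488355328), (-633318697598976,
    -510173395288064)] = true ∧
    chk C 0x8 [(-70368744177664, -35184372088832), (0, 35184372088832), (-510173395288064,
    -387028092977152)] = true ∧
    chk C 0x882 [(-70368744177664, -35184372088832), (35184372088832, 70368744177664),
    (-510173395288064, -387028092977152)] = true ∧
    chk C 0x8 [(-35184372088832, 0), (0, 35184372088832), (-510173395288064, -387028092977152)] =
    true := by
  refine ⟨?_, ?_, ?_, ?_, ?_, ?_, ?_, ?_, ?_, ?_, ?_, ?_, ?_, ?_, ?_, ?_, ?_, ?_⟩ <;> decide +kernel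

end Pool.Agent.Lib.MP_d6150d_an.S10Bm
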