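import Pool.Agent.Lib.MP_d6150d_an.S10BmD

/-! A generated chart: the computations. -/

namespace Pool.Agent.Lib.MP_d6150d_an.S10Bm

theorem q3 :
    chk C 0x880 [(-35184372088832, 0), (35184372088832, 70368744177664), (-510173395288064,
    -387028092977152)] = true ∧
    chk C 0x882 [(-70368744177664, -35184372088832), (70368744177664, 105553116266496),
    (-510173395288064, -387028092977152)] = true ∧
    chk C 0x881 [(-35184372088832, 0), (70368744177664, 105553116266496), (-510173395288064,
    -387028092977152)] = true ∧
    chk C 0x880 [(-70368744177664, 0), (105553116266496, 140737488355328), (-510173395288064,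
    -387028092977152)] = true ∧
    chk C 0x8 [(0, 35184372088832), (-140737488355328, -70368744177664), (-633318697598976,
    -510173395288064)] = true ∧
    chk C 0x881 [(35184372088832, 70368744177664), (-140737488355328, -70368744177664),
    (-633318697598976, -510173395288064)] = true ∧
    chk C 0x881 [(0, 35184372088832), (-70368744177664, 0), (-633318697598976, -510173395288064)] =
    true ∧
    chk C 0x881 [(35184372088832, 70368744177664), (-70368744177664, 0), (-633318697598976,
    -510173395288064)] = true ∧
    chk C 0x882 [(0, 35184372088832), (-140737488355328, -70368744177664), (-510173395288064,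
    -387028092977152)] = true ∧
    chk C 0x8 [(35184372088832, 70368744177664), (-140737488355328, -70368744177664),
    (-510173395288064, -387028092977152)] = true ∧
    chk C 0x8 [(0, 70368744177664), (-70368744177664, 0), (-510173395288064, -387028092977152)] =
    true ∧
    chk C 0x881 [(70368744177664, 140737488355328), (-140737488355328, 0), (-633318697598976,
    -510173395288064)] = true ∧
    chk C 0x8 [(70368744177664, 140737488355328), (-140737488355328, 0), (-510173395288064,
    -387028092977152)] = true ∧
    chk C 0x8 [(0, 70368744177664), (0, 35184372088832), (-633318697598976, -510173395288064)] =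
    true ∧
    chk C 0x880 [(0, 70368744177664), (35184372088832, 70368744177664), (-633318697598976,
    -510173395288064)] = true ∧
    chk C 0x880 [(0, 70368744177664), (70368744177664, 140737488355328), (-633318697598976,
    -510173395288064)] = true ∧
    chk C 0x8 [(0, 70368744177664), (0, 70368744177664), (-510173395288064, -387028092977152)] =
    true ∧
    chk C 0x880 [(0, 70368744177664), (70368744177664, 140737488355328), (-510173395288064,
    -387028092977152)] = true := by
  refine ⟨?_, ?_, ?_, ?_, ?_, ?_, ?_, ?_, ?_, ?_, ?_, ?_, ?_, ?_, ?_, ?_, ?_, ?_⟩ <;> decide +kernel

end Pool.Agent.Lib.MP_d6150d_an.S10Bm
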