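import Pool.Agent.Lib.MP_d6150d_an.S10BmD

/-! A generated chart: the computations. -/

namespace Pool.Agent.Lib.MP_d6150d_an.S10Bm

theorem q5 :
    chk C 0x881 [(-70368744177664, -35184372088832), (0, 70368744177664), (-387028092977152,
    -263882790666240)] = true ∧
    chk C 0x8 [(-35184372088832, 0), (0, 70368744177664), (-387028092977152, -263882790666240)] =
    true ∧
    chk C 0x881 [(-70368744177664, -35184372088832), (70368744177664, 140737488355328),
    (-387028092977152, -325455441821696)] = true ∧
    chk C 0x881 [(-70368744177664, -35184372088832), (70368744177664, 140737488355328),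
    (-325455441821696, -263882790666240)] = true ∧
    chk C 0x882 [(-35184372088832, 0), (70368744177664, 140737488355328), (-387028092977152,
    -263882790666240)] = true ∧
    chk C 0x881 [(0, 70368744177664), (-140737488355328, 0), (-387028092977152, -263882790666240)] =
    true ∧
    chk C 0x8 [(70368744177664, 140737488355328), (-140737488355328, 0), (-387028092977152,
    -263882790666240)] = true ∧
    chk C 0x882 [(0, 70368744177664), (0, 140737488355328), (-387028092977152, -263882790666240)] =
    true ∧
    chk C 0x882 [(70368744177664, 140737488355328), (0, 140737488355328), (-387028092977152,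
    -263882790666240)] = true ∧
    chk C 0x8 [(-140737488355328, -105553116266496), (-140737488355328, 0), (-263882790666240,
    -202310139510784)] = true ∧
    chk C 0x880 [(-105553116266496, -70368744177664), (-140737488355328, -70368744177664),
    (-263882790666240, -202310139510784)] = true ∧
    chk C 0x8 [(-105553116266496, -70368744177664), (-70368744177664, 0), (-263882790666240,
    -202310139510784)] = true ∧
    chk C 0x880 [(-140737488355328, -70368744177664), (0, 140737488355328), (-263882790666240,
    -202310139510784)] = true ∧
    chk C 0x8 [(-140737488355328, -105553116266496), (-140737488355328, 0), (-202310139510784,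
    -140737488355328)] = true ∧
    chk C 0x881 [(-105553116266496, -70368744177664), (-140737488355328, 0), (-202310139510784,
    -140737488355328)] = true ∧
    chk C 0x8 [(-140737488355328, -105553116266496), (0, 140737488355328), (-202310139510784,
    -140737488355328)] = true ∧
    chk C 0x881 [(-105553116266496, -70368744177664), (0, 140737488355328), (-202310139510784,
    -140737488355328)] = true ∧
    chk C 0x880 [(-70368744177664, -52776558133248), (-140737488355328, -70368744177664),
    (-263882790666240, -202310139510784)] = true := by
  refine ⟨?_, ?_, ?_, ?_, ?_, ?_, ?_, ?_, ?_, ?_, ?_, ?_, ?_, ?_, ?_, ?_, ?_, ?_⟩ <;> decide +kernel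

end Pool.Agent.Lib.MP_d6150d_an.S10Bm
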