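import Pool.Agent.Lib.MP_d6150d_an.S10BmD

/-! A generated chart: the computations. -/

namespace Pool.Agent.Lib.MP_d6150d_an.S10Bm

theorem q7 :
    chk C 0x8 [(70368744177664, 105553116266496), (70368744177664, 140737488355328),
    (-263882790666240, -202310139510784)] = true ∧
    chk C 0x882 [(105553116266496, 140737488355328), (70368744177664, 140737488355328),
    (-263882790666240, -202310139510784)] = true ∧
    chk C 0x880 [(0, 70368744177664), (-140737488355328, -70368744177664), (-202310139510784,
    -140737488355328)] = true ∧
    chk C 0x880 [(0, 70368744177664), (-70368744177664, 0), (-202310139510784, -140737488355328)] =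
    true ∧
    chk C 0x881 [(0, 35184372088832), (0, 140737488355328), (-202310139510784, -140737488355328)] =
    true ∧
    chk C 0x8 [(35184372088832, 70368744177664), (0, 140737488355328), (-202310139510784,
    -140737488355328)] = true ∧
    chk C 0x8 [(70368744177664, 105553116266496), (-140737488355328, -70368744177664),
    (-202310139510784, -140737488355328)] = true ∧
    chk C 0x8 [(105553116266496, 140737488355328), (-140737488355328, -70368744177664),
    (-202310139510784, -171523813933056)] = true ∧
    chk C 0x8 [(105553116266496, 140737488355328), (-140737488355328, -70368744177664),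
    (-171523813933056, -156130651144192)] = true ∧
    chk C 0x881 [(105553116266496, 140737488355328), (-140737488355328, -70368744177664),
    (-156130651144192, -140737488355328)] = true ∧
    chk C 0x880 [(70368744177664, 140737488355328), (-70368744177664, 0), (-202310139510784,
    -140737488355328)] = true ∧
    chk C 0x8 [(70368744177664, 105553116266496), (0, 140737488355328), (-202310139510784,
    -140737488355328)] = true ∧
    chk C 0x881 [(105553116266496, 140737488355328), (0, 140737488355328), (-202310139510784,
    -171523813933056)] = true ∧
    chk C 0x8 [(105553116266496, 140737488355328), (0, 140737488355328), (-171523813933056,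
    -140737488355328)] = true := by
  refine ⟨?_, ?_, ?_, ?_, ?_, ?_, ?_, ?_, ?_, ?_, ?_, ?_, ?_, ?_⟩ <;> decide +kernel

end Pool.Agent.Lib.MP_d6150d_an.S10Bm
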