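import Pool.Agent.Lib.MP_d6150d_an.GMac
import Pool.Agent.Lib.MP_d6150d_an.S10BmK0
import Pool.Agent.Lib.MP_d6150d_an.S10BmK1
import Pool.Agent.Lib.MP_d6150d_an.S10BmK2
import Pool.Agent.Lib.MP_d6150d_an.S10BmK3
import Pool.Agent.Lib.MP_d6150d_an.S10BmK4
import Pool.Agent.Lib.MP_d6150d_an.S10BmK5
import Pool.Agent.Lib.MP_d6150d_an.S10BmK6
import Pool.Agent.Lib.MP_d6150d_an.S10BmK7

/-! A generated chart: the inequality. -/

namespace Pool.Agent.Lib.MP_d6150d_an.S10Bm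

set_option linter.unnecessarySeqFocus false
set_option linter.unusedTactic false
set_option linter.unusedVariables false

theorem gd : Gd C [(-140737488355328, 140737488355328), (-140737488355328, 140737488355328),
    (-1125899906842624, -140737488355328)] := .split 2 (.split 0 (.split 1 (.split 2 (.split 0
    (chk_sound q0.1) (chk_sound q0.2.1)) (.split 0 (chk_sound q0.2.2.1) (chk_sound q0.2.2.2.1)))
    (.split 0 (.split 2 (.split 1 (chk_sound q0.2.2.2.2.1) (chk_sound q0.2.2.2.2.2.1)) (.split 1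
    (chk_sound q0.2.2.2.2.2.2.1) (chk_sound q0.2.2.2.2.2.2.2.1))) (.split 1 (.split 2 (chk_sound
    q0.2.2.2.2.2.2.2.2.1) (.split 0 (chk_sound q0.2.2.2.2.2.2.2.2.2.1) (chk_sound
    q0.2.2.2.2.2.2.2.2.2.2.1))) (chk_sound q0.2.2.2.2.2.2.2.2.2.2.2.1)))) (.split 1 (.split 2
    (.split 1 (chk_sound q0.2.2.2.2.2.2.2.2.2.2.2.2.1) (chk_sound q0.2.2.2.2.2.2.2.2.2.2.2.2.2.1))
    (.split 0 (.split 1 (chk_sound q0.2.2.2.2.2.2.2.2.2.2.2.2.2.2.1) (.split 1 (chk_sound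
    q0.2.2.2.2.2.2.2.2.2.2.2.2.2.2.2.1) (chk_sound q0.2.2.2.2.2.2.2.2.2.2.2.2.2.2.2.2.1))) (.split 1
    (chk_sound q0.2.2.2.2.2.2.2.2.2.2.2.2.2.2.2.2.2) (.split 2 (chk_sound q1.1) (chk_sound
    q1.2.1))))) (.split 2 (.split 1 (.split 0 (chk_sound q1.2.2.1) (chk_sound q1.2.2.2.1))
    (chk_sound q1.2.2.2.2.1)) (.split 1 (.split 0 (.split 0 (chk_sound q1.2.2.2.2.2.1) (chk_sound
    q1.2.2.2.2.2.2.1)) (chk_sound q1.2.2.2.2.2.2.2.1)) (chk_sound q1.2.2.2.2.2.2.2.2.1))))) (.split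
    2 (.split 0 (.split 1 (.split 0 (.split 2 (chk_sound q1.2.2.2.2.2.2.2.2.2.1) (.split 1 (.split 2
    (chk_sound q1.2.2.2.2.2.2.2.2.2.2.1) (chk_sound q1.2.2.2.2.2.2.2.2.2.2.2.1)) (chk_sound
    q1.2.2.2.2.2.2.2.2.2.2.2.2.1))) (.split 2 (.split 1 (chk_sound q1.2.2.2.2.2.2.2.2.2.2.2.2.2.1)
    (chk_sound q1.2.2.2.2.2.2.2.2.2.2.2.2.2.2.1)) (.split 1 (.split 0 (chk_sound
    q1.2.2.2.2.2.2.2.2.2.2.2.2.2.2.2.1) (.split 2 (chk_sound q1.2.2.2.2.2.2.2.2.2.2.2.2.2.2.2.2.1)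
    (chk_sound q1.2.2.2.2.2.2.2.2.2.2.2.2.2.2.2.2.2.1))) (.split 0 (chk_sound
    q1.2.2.2.2.2.2.2.2.2.2.2.2.2.2.2.2.2.2) (chk_sound q2.1))))) (.split 0 (.split 1 (.split 2
    (.split 0 (chk_sound q2.2.1) (chk_sound q2.2.2.1)) (.split 0 (chk_sound q2.2.2.2.1) (.split 1
    (chk_sound q2.2.2.2.2.1) (chk_sound q2.2.2.2.2.2.1)))) (.split 2 (chk_sound q2.2.2.2.2.2.2.1)
    (.split 0 (chk_sound q2.2.2.2.2.2.2.2.1) (chk_sound q2.2.2.2.2.2.2.2.2.1)))) (.split 2 (.split 1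
    (.split 0 (.split 1 (chk_sound q2.2.2.2.2.2.2.2.2.2.1) (chk_sound q2.2.2.2.2.2.2.2.2.2.2.1))
    (.split 1 (chk_sound q2.2.2.2.2.2.2.2.2.2.2.2.1) (.split 2 (chk_sound
    q2.2.2.2.2.2.2.2.2.2.2.2.2.1) (chk_sound q2.2.2.2.2.2.2.2.2.2.2.2.2.2.1)))) (chk_sound
    q2.2.2.2.2.2.2.2.2.2.2.2.2.2.2.1)) (.split 1 (.split 0 (.split 1 (chk_sound
    q2.2.2.2.2.2.2.2.2.2.2.2.2.2.2.2.1) (chk_sound q2.2.2.2.2.2.2.2.2.2.2.2.2.2.2.2.2.1)) (.split 1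
    (chk_sound q2.2.2.2.2.2.2.2.2.2.2.2.2.2.2.2.2.2) (chk_sound q3.1))) (.split 1 (.split 0
    (chk_sound q3.2.1) (chk_sound q3.2.2.1)) (chk_sound q3.2.2.2.1)))))) (.split 1 (.split 0 (.split
    2 (.split 1 (.split 0 (chk_sound q3.2.2.2.2.1) (chk_sound q3.2.2.2.2.2.1)) (.split 0 (chk_sound
    q3.2.2.2.2.2.2.1) (chk_sound q3.2.2.2.2.2.2.2.1))) (.split 1 (.split 0 (chk_sound
    q3.2.2.2.2.2.2.2.2.1) (chk_sound q3.2.2.2.2.2.2.2.2.2.1)) (chk_sound q3.2.2.2.2.2.2.2.2.2.2.1)))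
    (.split 2 (chk_sound q3.2.2.2.2.2.2.2.2.2.2.2.1) (chk_sound q3.2.2.2.2.2.2.2.2.2.2.2.2.1)))
    (.split 0 (.split 2 (.split 1 (.split 1 (chk_sound q3.2.2.2.2.2.2.2.2.2.2.2.2.2.1) (chk_sound
    q3.2.2.2.2.2.2.2.2.2.2.2.2.2.2.1)) (chk_sound q3.2.2.2.2.2.2.2.2.2.2.2.2.2.2.2.1)) (.split 1
    (chk_sound q3.2.2.2.2.2.2.2.2.2.2.2.2.2.2.2.2.1) (chk_sound
    q3.2.2.2.2.2.2.2.2.2.2.2.2.2.2.2.2.2))) (.split 2 (chk_sound q4.1) (chk_sound q4.2.1)))))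
    (.split 2 (.split 0 (.split 0 (.split 1 (.split 1 (.split 2 (chk_sound q4.2.2.1) (.split 0
    (chk_sound q4.2.2.2.1) (chk_sound q4.2.2.2.2.1))) (.split 0 (.split 2 (chk_sound q4.2.2.2.2.2.1)
    (chk_sound q4.2.2.2.2.2.2.1)) (chk_sound q4.2.2.2.2.2.2.2.1))) (.split 1 (.split 0 (chk_sound
    q4.2.2.2.2.2.2.2.2.1) (chk_sound q4.2.2.2.2.2.2.2.2.2.1)) (.split 0 (chk_sound
    q4.2.2.2.2.2.2.2.2.2.2.1) (.split 2 (chk_sound q4.2.2.2.2.2.2.2.2.2.2.2.1) (chk_sound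
    q4.2.2.2.2.2.2.2.2.2.2.2.2.1))))) (.split 1 (.split 1 (.split 0 (chk_sound
    q4.2.2.2.2.2.2.2.2.2.2.2.2.2.1) (.split 2 (chk_sound q4.2.2.2.2.2.2.2.2.2.2.2.2.2.2.1)
    (chk_sound q4.2.2.2.2.2.2.2.2.2.2.2.2.2.2.2.1))) (chk_sound q4.2.2.2.2.2.2.2.2.2.2.2.2.2.2.2.2))
    (.split 1 (.split 0 (chk_sound q5.1) (chk_sound q5.2.1)) (.split 0 (.split 2 (chk_sound
    q5.2.2.1) (chk_sound q5.2.2.2.1)) (chk_sound q5.2.2.2.2.1))))) (.split 1 (.split 0 (chk_sound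
    q5.2.2.2.2.2.1) (chk_sound q5.2.2.2.2.2.2.1)) (.split 0 (chk_sound q5.2.2.2.2.2.2.2.1)
    (chk_sound q5.2.2.2.2.2.2.2.2.1)))) (.split 0 (.split 0 (.split 2 (.split 1 (.split 0 (chk_sound
    q5.2.2.2.2.2.2.2.2.2.1) (.split 1 (chk_sound q5.2.2.2.2.2.2.2.2.2.2.1) (chk_sound
    q5.2.2.2.2.2.2.2.2.2.2.2.1))) (chk_sound q5.2.2.2.2.2.2.2.2.2.2.2.2.1)) (.split 1 (.split 0
    (chk_sound q5.2.2.2.2.2.2.2.2.2.2.2.2.2.1) (chk_sound q5.2.2.2.2.2.2.2.2.2.2.2.2.2.2.1)) (.split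
    0 (chk_sound q5.2.2.2.2.2.2.2.2.2.2.2.2.2.2.2.1) (chk_sound
    q5.2.2.2.2.2.2.2.2.2.2.2.2.2.2.2.2.1)))) (.split 2 (.split 1 (.split 1 (.split 0 (.split 0
    (chk_sound q5.2.2.2.2.2.2.2.2.2.2.2.2.2.2.2.2.2) (chk_sound q6.1)) (chk_sound q6.2.1))
    (chk_sound q6.2.2.1)) (.split 0 (chk_sound q6.2.2.2.1) (chk_sound q6.2.2.2.2.1))) (.split 1
    (.split 1 (.split 0 (.split 2 (chk_sound q6.2.2.2.2.2.1) (chk_sound q6.2.2.2.2.2.2.1))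
    (chk_sound q6.2.2.2.2.2.2.2.1)) (chk_sound q6.2.2.2.2.2.2.2.2.1)) (.split 0 (.split 1 (chk_sound
    q6.2.2.2.2.2.2.2.2.2.1) (.split 0 (chk_sound q6.2.2.2.2.2.2.2.2.2.2.1) (chk_sound
    q6.2.2.2.2.2.2.2.2.2.2.2.1))) (.split 1 (chk_sound q6.2.2.2.2.2.2.2.2.2.2.2.2.1) (chk_sound
    q6.2.2.2.2.2.2.2.2.2.2.2.2.2.1)))))) (.split 2 (.split 1 (.split 0 (chk_sound
    q6.2.2.2.2.2.2.2.2.2.2.2.2.2.2.1) (chk_sound q6.2.2.2.2.2.2.2.2.2.2.2.2.2.2.2.1)) (.split 0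
    (chk_sound q6.2.2.2.2.2.2.2.2.2.2.2.2.2.2.2.2.1) (.split 1 (chk_sound
    q6.2.2.2.2.2.2.2.2.2.2.2.2.2.2.2.2.2) (.split 0 (chk_sound q7.1) (chk_sound q7.2.1))))) (.split
    0 (.split 1 (.split 1 (chk_sound q7.2.2.1) (chk_sound q7.2.2.2.1)) (.split 0 (chk_sound
    q7.2.2.2.2.1) (chk_sound q7.2.2.2.2.2.1))) (.split 1 (.split 1 (.split 0 (chk_sound
    q7.2.2.2.2.2.2.1) (.split 2 (chk_sound q7.2.2.2.2.2.2.2.1) (.split 2 (chk_sound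
    q7.2.2.2.2.2.2.2.2.1) (chk_sound q7.2.2.2.2.2.2.2.2.2.1)))) (chk_sound
    q7.2.2.2.2.2.2.2.2.2.2.1)) (.split 0 (chk_sound q7.2.2.2.2.2.2.2.2.2.2.2.1) (.split 2 (chk_sound
    q7.2.2.2.2.2.2.2.2.2.2.2.2.1) (chk_sound q7.2.2.2.2.2.2.2.2.2.2.2.2.2)))))))))

set_option maxRecDepth 100000 in
theorem eq {a b t F D aa ab bb j1 j2 j3 q1 q2 r2 k n10 n11 n12 n20 n21 n22 n02 n03 n30 n31 e4 e5 e6
    e7 g4 g5 g6 g7 N M iN iM H iH iF l2 q3 A2 A3 c0 c1 A4 Ja La Jb Lb u m z x n P Q W O X e Y k0a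
    k0b ua ub k4a k4b k3a k3b k2a k2b k1a k1b Sa Sb zz W7 x4a x2a x1a za x4b x2b x1b zb : ℝ} (hF : F
    = 4 / 3 + b / 32) (hD : D = -103 / 96 + (-1 / 64) * b + a * (19 / 96 + 1 / 64 * b)) (haa : aa =
    a * a) (hab : ab = a * b) (hbb : bb = b * b) (hj1 : j1 = 1644 - 531 * a - 1077 * b) (hj2 : j2 =
    1439 + 2344 * a - 103 * b) (hj3 : j3 = -441 - 469 * a - 83 * b) (hq1 : q1 = -32908 + 2430 * a +
    16727 * b) (hq2 : q2 = 25916 - 15809 * a - 16805 * b) (hr2 : r2 = -99999 - 17074 * a + 52258 *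
    b) (hk : k = 1090 + 20 * a + 528 * b) (hn10 : n10 = -80605 + 99981 * a + 99997 * b) (hn11 : n11
    = 36391 + 47592 * a + 99994 * b) (hn12 : n12 = -76479 + 94591 * a - 99994 * b) (hn20 : n20 =
    57722 - 38975 * a - 57675 * b) (hn21 : n21 = 99861 + 70414 * a - 76554 * b) (hn22 : n22 = -83396
    - 70528 * a + 99995 * b) (hn02 : n02 = 21359 - 54107 * a + 89159 * b) (hn03 : n03 = -1244 -
    15357 * a - 1371 * b) (hn30 : n30 = -87027 - 99988 * a + 1937 * b) (hn31 : n31 = 8332 + 12407 *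
    a + 37731 * b) (he4 : e4 = -15438 + 18791 * a - 19269 * b + 5913 * aa - 4114 * ab + 4251 * bb)
    (he5 : e5 = 63917 + 70900 * a - 1407 * b + 52262 * aa + 24884 * ab - 16968 * bb) (he6 : e6 =
    -4687 - 140023 * a + 13356 * b - 191365 * aa - 27603 * ab + 25866 * bb) (he7 : e7 = 634 + 52899
    * a - 6675 * b + 113524 * aa - 231 * ab - 14783 * bb) (hg4 : g4 = -199949 + 199877 * a - 81303 *
    b - 25892 * aa + 20552 * ab + 4508 * bb) (hg5 : g5 = 164258 - 198610 * a + 63118 * b - 116938 *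
    aa - 63392 * ab + 1676 * bb) (hg6 : g6 = 88324 + 75305 * a - 81141 * b + 199363 * aa + 62194 *
    ab - 4457 * bb) (hg7 : g7 = -28705 - 77499 * a + 43055 * b - 91826 * aa - 22014 * ab + 1475 *
    bb) (hN : N = F * (2 * F - 1) * (F - 1)) (hM : M = F - D - 1) (hiN : iN = N⁻¹) (hiM : iM = M⁻¹)
    (hH : H = M * iN) (hiH : iH = N * iM) (hiF : iF = (2 * F - 1) * (F - 1) * iN) (hl2 : l2 = (4 - 3
    * F) * (F * (2 * F - 1)) * iN) (hq3 : q3 = l2 * (j1 + j2 + j3 + 4 * k) + (-j1 + 2 * j3 - q1 -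
    q2)) (hA2 : A2 = (1 - F - 2 * D) / 6 * H) (hA3 : A3 = (1 - D + 10 * D ^ 2 + F * (4 * F + 10 * D
    - 5)) / 36 * H) (hc0 : c0 = ((-4) * n10 + 2 * n20 - 3 * n30) / 8) (hc1 : c1 = ((-4) * n11 + 2 *
    n21 - 3 * n31 + 3 * n30) / 8 - A3 * (8 * n10 + 8 * n20 - 6 * n30) / 8) (hA4 : A4 = (4 - 57 * F -
    6 * D + F * (156 * F + 102 * D - F * (103 * F + 312 * D)) - D ^ 2 * (60 + 480 * F + 320 * D)) /
    1080 * H ^ 2) (hJa : Ja = A2 * ((-14) * j1 - 2 * q1)) (hLa : La = A4 * (108 * j1 + 12 * q1) + A2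
    * (27 * j2 - 27 * j1 + 9 * q2 + 3 * r2 - c0 - n10)) (hJb : Jb = A2 * ((-14) * j1 - 2 * q1 + 2 *
    c0 + 2 * n10)) (hLb : Lb = A4 * (108 * j1 + 12 * q1 + 4 * c0 + 8 * n10 + 8 * n20) + A2 * (27 *
    j2 - 27 * j1 + 9 * q2 + 3 * r2 - 3 * c0 - 3 * n10 + 4 * c1 + 4 * n11)) (hu : u = Real.exp (t /
    3)) (hm : m = Real.exp ((F - 4 / 3) * t)) (hz : z = (u * m) ^ 2) (hx : x = u ^ 3) (hn : n = m ^
    3) (hP : P = (1 + D) * x ^ 2) (hQ : Q = (1 + 2 * D) * x) (hW : W = Q - P - D) (hO : O = (2 * (F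
    * (F - 1)) * Q - F * (2 * F - 1) * D - (2 * F - 1) * (F - 1) * P) * iM) (hX : X = z * O) (he : e
    = 1 - X) (hY : Y = H * e / 2) (hk0a : k0a = -j2 + j1 - q2 - r2 - c0 + e * ((-3) * j3 + 3 * j2 -
    3 * q3 - c1 + e * (15 * j3 - n02 + e * (-n03)))) (hk0b : k0b = k0a + X * (2 * c1 + e * (4 * n02
    + e * (6 * n03)))) (hua : ua = iF * k0a) (hub : ub = iF * k0b) (hk4a : k4a = 16 * j1 + e * (16 *
    j2 + e * (16 * j3))) (hk4b : k4b = k4a + X * (2 * n30 + e * (2 * n31))) (hk3a : k3a = 104 * j1 +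
    8 * q1 + e * (112 * j2 - 112 * j1 + 8 * q2 - n30 + e * (128 * j3 - 128 * j2 + 8 * q3 - n31 + n30
    + e * ((-160) * j3 + n31)))) (hk3b : k3b = k3a + X * (6 * n30 + 2 * n20 + e * (8 * n31 - 8 * n30
    + 2 * n21 + e * ((-10) * n31 + 2 * n22)))) (hk2a : k2a = 68 * j1 + 8 * q1 + e * (160 * j2 - 160
    * j1 + 28 * q2 + 4 * r2 - n20 + e * (216 * j3 - 216 * j2 + 36 * q3 - n21 + e * ((-360) * j3 -
    n22)))) (hk2b : k2b = k2a + X * (4 * n20 + 2 * n10 + e * (6 * n21 + 2 * n11 + e * (8 * n22 + 2 *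
    n12)))) (hk1a : k1a = (-14) * j1 - 2 * q1 + e * (28 * j2 - 28 * j1 + 10 * q2 + 4 * r2 - n10 + e
    * (48 * j3 - 48 * j2 + 18 * q3 - n11 + e * ((-120) * j3 - n12)))) (hk1b : k1b = k1a + X * (2 *
    n10 + 2 * c0 + e * (4 * n11 + 2 * c1 + e * (6 * n12 + 2 * n02 + e * (2 * n03))))) (hSa : Sa = Ja
    + e * (La + e * (e4 + e * (e5 + e * (e6 + e * e7)))) + ua) (hSb : Sb = Jb + e * (Lb + e * (g4 +
    e * (g5 + e * (g6 + e * g7)))) + ub) (hzz : zz = z ^ 2) (hW7 : W7 = W ^ 7 * (e * z)) (hx4a : x4a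
    = O * k4a) (hx2a : x2a = z * k2a) (hx1a : x1a = zz * k1a) (hza : za = x4a * (Y ^ 4 * (pjR F P Q
    D).2.2) + k3a * (Y ^ 3 * (pjR F P Q D).2.1 * W ^ 2) + x2a * (Y ^ 2 * (pjR F P Q D).1 * W ^ 4) +
    x1a * (Y * W ^ 6)) (hx4b : x4b = O * k4b) (hx2b : x2b = z * k2b) (hx1b : x1b = zz * k1b) (hzb :
    zb = x4b * (Y ^ 4 * (pjR F P Q D).2.2) + k3b * (Y ^ 3 * (pjR F P Q D).2.1 * W ^ 2) + x2b * (Y ^
    2 * (pjR F P Q D).1 * W ^ 4) + x1b * (Y * W ^ 6)) : outR prog 0 [a, b, t] = za + W7 * (n * Sa -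
    zz * ua) ∧ outR prog 1 [a, b, t] = zb + W7 * (n * Sb - zz * ub) := by
  replace hF : F = (((Int.cast (4) : ℝ) / (Nat.cast 3 : ℝ)) + (((Int.cast (1) : ℝ) / (Nat.cast 32 :
    ℝ)) * b)) := hF.trans (by push_cast <;> ring)
  replace hD : D = ((((Int.cast (-103) : ℝ) / (Nat.cast 96 : ℝ)) + (((Int.cast (-1) : ℝ) / (Nat.cast
    64 : ℝ)) * b)) + (a * (((Int.cast (19) : ℝ) / (Nat.cast 96 : ℝ)) + (((Int.cast (1) : ℝ) /
    (Nat.cast 64 : ℝ)) * b)))) := hD.trans (by push_cast <;> ring)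
  replace haa : aa = (a * a) := haa.trans (by push_cast <;> ring)
  replace hab : ab = (a * b) := hab.trans (by push_cast <;> ring)
  replace hbb : bb = (b * b) := hbb.trans (by push_cast <;> ring)
  replace hj1 : j1 = (((Int.cast (1644) : ℝ) - ((Int.cast (531) : ℝ) * a)) - ((Int.cast (1077) : ℝ)
    * b)) := hj1.trans (by push_cast <;> ring)
  replace hj2 : j2 = (((Int.cast (1439) : ℝ) + ((Int.cast (2344) : ℝ) * a)) - ((Int.cast (103) : ℝ)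
    * b)) := hj2.trans (by push_cast <;> ring)
  replace hj3 : j3 = (((Int.cast (-441) : ℝ) - ((Int.cast (469) : ℝ) * a)) - ((Int.cast (83) : ℝ) *
    b)) := hj3.trans (by push_cast <;> ring)
  replace hq1 : q1 = (((Int.cast (-32908) : ℝ) + ((Int.cast (2430) : ℝ) * a)) + ((Int.cast (16727) :
    ℝ) * b)) := hq1.trans (by push_cast <;> ring)
  replace hq2 : q2 = (((Int.cast (25916) : ℝ) - ((Int.cast (15809) : ℝ) * a)) - ((Int.cast (16805) :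
    ℝ) * b)) := hq2.trans (by push_cast <;> ring)
  replace hr2 : r2 = (((Int.cast (-99999) : ℝ) - ((Int.cast (17074) : ℝ) * a)) + ((Int.cast (52258)
    : ℝ) * b)) := hr2.trans (by push_cast <;> ring)
  replace hk : k = (((Int.cast (1090) : ℝ) + ((Int.cast (20) : ℝ) * a)) + ((Int.cast (528) : ℝ) *
    b)) := hk.trans (by push_cast <;> ring)
  replace hn10 : n10 = (((Int.cast (-80605) : ℝ) + ((Int.cast (99981) : ℝ) * a)) + ((Int.cast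
    (99997) : ℝ) * b)) := hn10.trans (by push_cast <;> ring)
  replace hn11 : n11 = (((Int.cast (36391) : ℝ) + ((Int.cast (47592) : ℝ) * a)) + ((Int.cast (99994)
    : ℝ) * b)) := hn11.trans (by push_cast <;> ring)
  replace hn12 : n12 = (((Int.cast (-76479) : ℝ) + ((Int.cast (94591) : ℝ) * a)) - ((Int.cast
    (99994) : ℝ) * b)) := hn12.trans (by push_cast <;> ring)
  replace hn20 : n20 = (((Int.cast (57722) : ℝ) - ((Int.cast (38975) : ℝ) * a)) - ((Int.cast (57675)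
    : ℝ) * b)) := hn20.trans (by push_cast <;> ring)
  replace hn21 : n21 = (((Int.cast (99861) : ℝ) + ((Int.cast (70414) : ℝ) * a)) - ((Int.cast (76554)
    : ℝ) * b)) := hn21.trans (by push_cast <;> ring)
  replace hn22 : n22 = (((Int.cast (-83396) : ℝ) - ((Int.cast (70528) : ℝ) * a)) + ((Int.cast
    (99995) : ℝ) * b)) := hn22.trans (by push_cast <;> ring)
  replace hn02 : n02 = (((Int.cast (21359) : ℝ) - ((Int.cast (54107) : ℝ) * a)) + ((Int.cast (89159)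
    : ℝ) * b)) := hn02.trans (by push_cast <;> ring)
  replace hn03 : n03 = (((Int.cast (-1244) : ℝ) - ((Int.cast (15357) : ℝ) * a)) - ((Int.cast (1371)
    : ℝ) * b)) := hn03.trans (by push_cast <;> ring)
  replace hn30 : n30 = (((Int.cast (-87027) : ℝ) - ((Int.cast (99988) : ℝ) * a)) + ((Int.cast (1937)
    : ℝ) * b)) := hn30.trans (by push_cast <;> ring)
  replace hn31 : n31 = (((Int.cast (8332) : ℝ) + ((Int.cast (12407) : ℝ) * a)) + ((Int.cast (37731)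
    : ℝ) * b)) := hn31.trans (by push_cast <;> ring)
  replace he4 : e4 = ((((((Int.cast (-15438) : ℝ) + ((Int.cast (18791) : ℝ) * a)) - ((Int.cast
    (19269) : ℝ) * b)) + ((Int.cast (5913) : ℝ) * aa)) - ((Int.cast (4114) : ℝ) * ab)) + ((Int.cast
    (4251) : ℝ) * bb)) := he4.trans (by push_cast <;> ring)
  replace he5 : e5 = ((((((Int.cast (63917) : ℝ) + ((Int.cast (70900) : ℝ) * a)) - ((Int.cast (1407)
    : ℝ) * b)) + ((Int.cast (52262) : ℝ) * aa)) + ((Int.cast (24884) : ℝ) * ab)) - ((Int.cast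
    (16968) : ℝ) * bb)) := he5.trans (by push_cast <;> ring)
  replace he6 : e6 = ((((((Int.cast (-4687) : ℝ) - ((Int.cast (140023) : ℝ) * a)) + ((Int.cast
    (13356) : ℝ) * b)) - ((Int.cast (191365) : ℝ) * aa)) - ((Int.cast (27603) : ℝ) * ab)) +
    ((Int.cast (25866) : ℝ) * bb)) := he6.trans (by push_cast <;> ring)
  replace he7 : e7 = ((((((Int.cast (634) : ℝ) + ((Int.cast (52899) : ℝ) * a)) - ((Int.cast (6675) :
    ℝ) * b)) + ((Int.cast (113524) : ℝ) * aa)) - ((Int.cast (231) : ℝ) * ab)) - ((Int.cast (14783) :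
    ℝ) * bb)) := he7.trans (by push_cast <;> ring)
  replace hg4 : g4 = ((((((Int.cast (-199949) : ℝ) + ((Int.cast (199877) : ℝ) * a)) - ((Int.cast
    (81303) : ℝ) * b)) - ((Int.cast (25892) : ℝ) * aa)) + ((Int.cast (20552) : ℝ) * ab)) +
    ((Int.cast (4508) : ℝ) * bb)) := hg4.trans (by push_cast <;> ring)
  replace hg5 : g5 = ((((((Int.cast (164258) : ℝ) - ((Int.cast (198610) : ℝ) * a)) + ((Int.cast
    (63118) : ℝ) * b)) - ((Int.cast (116938) : ℝ) * aa)) - ((Int.cast (63392) : ℝ) * ab)) +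
    ((Int.cast (1676) : ℝ) * bb)) := hg5.trans (by push_cast <;> ring)
  replace hg6 : g6 = ((((((Int.cast (88324) : ℝ) + ((Int.cast (75305) : ℝ) * a)) - ((Int.cast
    (81141) : ℝ) * b)) + ((Int.cast (199363) : ℝ) * aa)) + ((Int.cast (62194) : ℝ) * ab)) -
    ((Int.cast (4457) : ℝ) * bb)) := hg6.trans (by push_cast <;> ring)
  replace hg7 : g7 = ((((((Int.cast (-28705) : ℝ) - ((Int.cast (77499) : ℝ) * a)) + ((Int.cast
    (43055) : ℝ) * b)) - ((Int.cast (91826) : ℝ) * aa)) - ((Int.cast (22014) : ℝ) * ab)) +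
    ((Int.cast (1475) : ℝ) * bb)) := hg7.trans (by push_cast <;> ring)
  replace hN : N = ((F * (((Int.cast (2) : ℝ) * F) - (Int.cast (1) : ℝ))) * (F - (Int.cast (1) :
    ℝ))) := hN.trans (by push_cast <;> ring)
  replace hM : M = ((F - D) - (Int.cast (1) : ℝ)) := hM.trans (by push_cast <;> ring)
  replace hiN : iN = N⁻¹ := hiN.trans (by push_cast <;> ring)
  replace hiM : iM = M⁻¹ := hiM.trans (by push_cast <;> ring)
  replace hH : H = (M * iN) := hH.trans (by push_cast <;> ring)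
  replace hiH : iH = (N * iM) := hiH.trans (by push_cast <;> ring)
  replace hiF : iF = (((((Int.cast (2) : ℝ) * F) - (Int.cast (1) : ℝ)) * (F - (Int.cast (1) : ℝ))) *
    iN) := hiF.trans (by push_cast <;> ring)
  replace hl2 : l2 = ((((Int.cast (4) : ℝ) - ((Int.cast (3) : ℝ) * F)) * (F * (((Int.cast (2) : ℝ) *
    F) - (Int.cast (1) : ℝ)))) * iN) := hl2.trans (by push_cast <;> ring)
  replace hq3 : q3 = ((l2 * (((j1 + j2) + j3) + ((Int.cast (4) : ℝ) * k))) + (((((Int.cast (-1) : ℝ)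
    * j1) + ((Int.cast (2) : ℝ) * j3)) - q1) - q2)) := hq3.trans (by push_cast <;> ring)
  replace hA2 : A2 = ((((Int.cast (1) : ℝ) / (Nat.cast 6 : ℝ)) * (((Int.cast (1) : ℝ) - F) -
    ((Int.cast (2) : ℝ) * D))) * H) := hA2.trans (by push_cast <;> ring)
  replace hA3 : A3 = ((((Int.cast (1) : ℝ) / (Nat.cast 36 : ℝ)) * ((((Int.cast (1) : ℝ) - D) +
    ((Int.cast (10) : ℝ) * (D * D))) + (F * ((((Int.cast (4) : ℝ) * F) + ((Int.cast (10) : ℝ) * D))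
    - (Int.cast (5) : ℝ))))) * H) := hA3.trans (by push_cast <;> ring)
  replace hc0 : c0 = (((Int.cast (1) : ℝ) / (Nat.cast 8 : ℝ)) * ((((Int.cast (-4) : ℝ) * n10) +
    ((Int.cast (2) : ℝ) * n20)) - ((Int.cast (3) : ℝ) * n30))) := hc0.trans (by push_cast <;> ring)
  replace hc1 : c1 = ((((Int.cast (1) : ℝ) / (Nat.cast 8 : ℝ)) * (((((Int.cast (-4) : ℝ) * n11) +
    ((Int.cast (2) : ℝ) * n21)) - ((Int.cast (3) : ℝ) * n31)) + ((Int.cast (3) : ℝ) * n30))) -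
    (((Int.cast (1) : ℝ) / (Nat.cast 8 : ℝ)) * (A3 * ((((Int.cast (8) : ℝ) * n10) + ((Int.cast (8) :
    ℝ) * n20)) - ((Int.cast (6) : ℝ) * n30))))) := hc1.trans (by push_cast <;> ring)
  replace hA4 : A4 = ((((Int.cast (1) : ℝ) / (Nat.cast 1080 : ℝ)) * (((((Int.cast (4) : ℝ) -
    ((Int.cast (57) : ℝ) * F)) - ((Int.cast (6) : ℝ) * D)) + (F * ((((Int.cast (156) : ℝ) * F) +
    ((Int.cast (102) : ℝ) * D)) - (F * (((Int.cast (103) : ℝ) * F) + ((Int.cast (312) : ℝ) * D))))))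
    - ((D * D) * (((Int.cast (60) : ℝ) + ((Int.cast (480) : ℝ) * F)) + ((Int.cast (320) : ℝ) *
    D))))) * (H * H)) := hA4.trans (by push_cast <;> ring)
  replace hJa : Ja = (A2 * (((Int.cast (-14) : ℝ) * j1) - ((Int.cast (2) : ℝ) * q1))) := hJa.trans
    (by push_cast <;> ring)
  replace hLa : La = ((A4 * (((Int.cast (108) : ℝ) * j1) + ((Int.cast (12) : ℝ) * q1))) + (A2 *
    (((((((Int.cast (27) : ℝ) * j2) - ((Int.cast (27) : ℝ) * j1)) + ((Int.cast (9) : ℝ) * q2)) +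
    ((Int.cast (3) : ℝ) * r2)) - c0) - n10))) := hLa.trans (by push_cast <;> ring)
  replace hJb : Jb = (A2 * (((((Int.cast (-14) : ℝ) * j1) - ((Int.cast (2) : ℝ) * q1)) + ((Int.cast
    (2) : ℝ) * c0)) + ((Int.cast (2) : ℝ) * n10))) := hJb.trans (by push_cast <;> ring)
  replace hLb : Lb = ((A4 * ((((((Int.cast (108) : ℝ) * j1) + ((Int.cast (12) : ℝ) * q1)) +
    ((Int.cast (4) : ℝ) * c0)) + ((Int.cast (8) : ℝ) * n10)) + ((Int.cast (8) : ℝ) * n20))) + (A2 *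
    (((((((((Int.cast (27) : ℝ) * j2) - ((Int.cast (27) : ℝ) * j1)) + ((Int.cast (9) : ℝ) * q2)) +
    ((Int.cast (3) : ℝ) * r2)) - ((Int.cast (3) : ℝ) * c0)) - ((Int.cast (3) : ℝ) * n10)) +
    ((Int.cast (4) : ℝ) * c1)) + ((Int.cast (4) : ℝ) * n11)))) := hLb.trans (by push_cast <;> ring)
  replace hu : u = (Real.exp (((Int.cast (1) : ℝ) / (Nat.cast 3 : ℝ)) * t)) := hu.trans (congrArg
    Real.exp (by push_cast <;> ring))
  replace hm : m = (Real.exp ((F - ((Int.cast (4) : ℝ) / (Nat.cast 3 : ℝ))) * t)) := hm.trans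
    (congrArg Real.exp (by push_cast <;> ring))
  replace hz : z = ((u * m) * (u * m)) := hz.trans (by push_cast <;> ring)
  replace hx : x = ((u * u) * u) := hx.trans (by push_cast <;> ring)
  replace hn : n = ((m * m) * m) := hn.trans (by push_cast <;> ring)
  replace hP : P = (((Int.cast (1) : ℝ) + D) * (x * x)) := hP.trans (by push_cast <;> ring)
  replace hQ : Q = (((Int.cast (1) : ℝ) + ((Int.cast (2) : ℝ) * D)) * x) := hQ.trans (by push_cast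
    <;> ring)
  replace hW : W = ((Q - P) - D) := hW.trans (by push_cast <;> ring)
  replace hO : O = ((((((Int.cast (2) : ℝ) * (F * (F - (Int.cast (1) : ℝ)))) * Q) - ((F *
    (((Int.cast (2) : ℝ) * F) - (Int.cast (1) : ℝ))) * D)) - (((((Int.cast (2) : ℝ) * F) - (Int.cast
    (1) : ℝ)) * (F - (Int.cast (1) : ℝ))) * P)) * iM) := hO.trans (by push_cast <;> ring)
  replace hX : X = (z * O) := hX.trans (by push_cast <;> ring)
  replace he : e = ((Int.cast (1) : ℝ) - X) := he.trans (by push_cast <;> ring)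
  replace hY : Y = (((Int.cast (1) : ℝ) / (Nat.cast 2 : ℝ)) * (H * e)) := hY.trans (by push_cast <;>
    ring)
  replace hk0a : k0a = (((((((Int.cast (-1) : ℝ) * j2) + j1) - q2) - r2) - c0) + (e * ((((((Int.cast
    (-3) : ℝ) * j3) + ((Int.cast (3) : ℝ) * j2)) - ((Int.cast (3) : ℝ) * q3)) - c1) + (e *
    ((((Int.cast (15) : ℝ) * j3) - n02) + (e * ((Int.cast (-1) : ℝ) * n03))))))) := hk0a.trans (by
    push_cast <;> ring)
  replace hk0b : k0b = (k0a + (X * (((Int.cast (2) : ℝ) * c1) + (e * (((Int.cast (4) : ℝ) * n02) +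
    (e * ((Int.cast (6) : ℝ) * n03))))))) := hk0b.trans (by push_cast <;> ring)
  replace hua : ua = (iF * k0a) := hua.trans (by push_cast <;> ring)
  replace hub : ub = (iF * k0b) := hub.trans (by push_cast <;> ring)
  replace hk4a : k4a = (((Int.cast (16) : ℝ) * j1) + (e * (((Int.cast (16) : ℝ) * j2) + (e *
    ((Int.cast (16) : ℝ) * j3))))) := hk4a.trans (by push_cast <;> ring)
  replace hk4b : k4b = (k4a + (X * (((Int.cast (2) : ℝ) * n30) + (e * ((Int.cast (2) : ℝ) * n31)))))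
    := hk4b.trans (by push_cast <;> ring)
  replace hk3a : k3a = ((((Int.cast (104) : ℝ) * j1) + ((Int.cast (8) : ℝ) * q1)) + (e *
    ((((((Int.cast (112) : ℝ) * j2) - ((Int.cast (112) : ℝ) * j1)) + ((Int.cast (8) : ℝ) * q2)) -
    n30) + (e * (((((((Int.cast (128) : ℝ) * j3) - ((Int.cast (128) : ℝ) * j2)) + ((Int.cast (8) :
    ℝ) * q3)) - n31) + n30) + (e * (((Int.cast (-160) : ℝ) * j3) + n31))))))) := hk3a.trans (by
    push_cast <;> ring)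
  replace hk3b : k3b = (k3a + (X * ((((Int.cast (6) : ℝ) * n30) + ((Int.cast (2) : ℝ) * n20)) + (e *
    (((((Int.cast (8) : ℝ) * n31) - ((Int.cast (8) : ℝ) * n30)) + ((Int.cast (2) : ℝ) * n21)) + (e *
    (((Int.cast (-10) : ℝ) * n31) + ((Int.cast (2) : ℝ) * n22)))))))) := hk3b.trans (by push_cast
    <;> ring)
  replace hk2a : k2a = ((((Int.cast (68) : ℝ) * j1) + ((Int.cast (8) : ℝ) * q1)) + (e *
    (((((((Int.cast (160) : ℝ) * j2) - ((Int.cast (160) : ℝ) * j1)) + ((Int.cast (28) : ℝ) * q2)) +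
    ((Int.cast (4) : ℝ) * r2)) - n20) + (e * ((((((Int.cast (216) : ℝ) * j3) - ((Int.cast (216) : ℝ)
    * j2)) + ((Int.cast (36) : ℝ) * q3)) - n21) + (e * (((Int.cast (-360) : ℝ) * j3) - n22))))))) :=
    hk2a.trans (by push_cast <;> ring)
  replace hk2b : k2b = (k2a + (X * ((((Int.cast (4) : ℝ) * n20) + ((Int.cast (2) : ℝ) * n10)) + (e *
    ((((Int.cast (6) : ℝ) * n21) + ((Int.cast (2) : ℝ) * n11)) + (e * (((Int.cast (8) : ℝ) * n22) +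
    ((Int.cast (2) : ℝ) * n12)))))))) := hk2b.trans (by push_cast <;> ring)
  replace hk1a : k1a = ((((Int.cast (-14) : ℝ) * j1) - ((Int.cast (2) : ℝ) * q1)) + (e *
    (((((((Int.cast (28) : ℝ) * j2) - ((Int.cast (28) : ℝ) * j1)) + ((Int.cast (10) : ℝ) * q2)) +
    ((Int.cast (4) : ℝ) * r2)) - n10) + (e * ((((((Int.cast (48) : ℝ) * j3) - ((Int.cast (48) : ℝ) *
    j2)) + ((Int.cast (18) : ℝ) * q3)) - n11) + (e * (((Int.cast (-120) : ℝ) * j3) - n12))))))) :=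
    hk1a.trans (by push_cast <;> ring)
  replace hk1b : k1b = (k1a + (X * ((((Int.cast (2) : ℝ) * n10) + ((Int.cast (2) : ℝ) * c0)) + (e *
    ((((Int.cast (4) : ℝ) * n11) + ((Int.cast (2) : ℝ) * c1)) + (e * ((((Int.cast (6) : ℝ) * n12) +
    ((Int.cast (2) : ℝ) * n02)) + (e * ((Int.cast (2) : ℝ) * n03))))))))) := hk1b.trans (by
    push_cast <;> ring)
  replace hSa : Sa = ((Ja + (e * (La + (e * (e4 + (e * (e5 + (e * (e6 + (e * e7)))))))))) + ua) :=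
    hSa.trans (by push_cast <;> ring)
  replace hSb : Sb = ((Jb + (e * (Lb + (e * (g4 + (e * (g5 + (e * (g6 + (e * g7)))))))))) + ub) :=
    hSb.trans (by push_cast <;> ring)
  replace hzz : zz = (z * z) := hzz.trans (by push_cast <;> ring)
  replace hW7 : W7 = (((((W * W) * W) * ((W * W) * W)) * W) * (e * z)) := hW7.trans (by push_cast
    <;> ring)
  replace hx4a : x4a = (O * k4a) := hx4a.trans (by push_cast <;> ring)
  replace hx2a : x2a = (z * k2a) := hx2a.trans (by push_cast <;> ring)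
  replace hx1a : x1a = (zz * k1a) := hx1a.trans (by push_cast <;> ring)
  replace hza : za = (mK4 F P Q D Y W x4a k3a x2a x1a) := hza.trans (mK4_0 ..)
  replace hx4b : x4b = (O * k4b) := hx4b.trans (by push_cast <;> ring)
  replace hx2b : x2b = (z * k2b) := hx2b.trans (by push_cast <;> ring)
  replace hx1b : x1b = (zz * k1b) := hx1b.trans (by push_cast <;> ring)
  replace hzb : zb = (mK4 F P Q D Y W x4b k3b x2b x1b) := hzb.trans (mK4_0 ..)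
  have e0 : (za + (W7 * ((n * Sa) - (zz * ua)))) = za + W7 * (n * Sa - zz * ua) := by push_cast <;>
    ring
  have e1 : (zb + (W7 * ((n * Sb) - (zz * ub)))) = zb + W7 * (n * Sb - zz * ub) := by push_cast <;>
    ring
  subst hF hD haa hab hbb hj1 hj2 hj3 hq1 hq2 hr2 hk hn10 hn11 hn12 hn20 hn21 hn22 hn02 hn03 hn30
    hn31 he4 he5 he6 he7 hg4 hg5 hg6 hg7 hN hM hiN hiM hH hiH hiF hl2 hq3 hA2 hA3 hc0 hc1 hA4 hJa
    hLa hJb hLb hu hm hz hx hn hP hQ hW hO hX he hY hk0a hk0b hua hub hk4a hk4b hk3a hk3b hk2a hk2b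
    hk1a hk1b hSa hSb hzz hW7 hx4a hx2a hx1a hza hx4b hx2b hx1b hzb
  dsimp only [outR, prog, prog1, prog2, prog3, prog4, prog5, prog6, prog7, prog8, prog9, prog10,
    prog11, prog12, runR, stepR, gtR]
  exact ⟨e0, e1⟩

theorem l0 : ((-140737488355328 : ℤ) : ℝ) / 2 ^ 47 = -1 := by norm_num
theorem u0 : (1 : ℝ) = ((140737488355328 : ℤ) : ℝ) / 2 ^ 47 := by norm_num
theorem l1 : ((-140737488355328 : ℤ) : ℝ) / 2 ^ 47 = -1 := by norm_num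
theorem u1 : (1 : ℝ) = ((140737488355328 : ℤ) : ℝ) / 2 ^ 47 := by norm_num
theorem l2 : ((-1125899906842624 : ℤ) : ℝ) / 2 ^ 47 = -8 := by norm_num
theorem u2 : (-1 : ℝ) = ((-140737488355328 : ℤ) : ℝ) / 2 ^ 47 := by norm_num

theorem out0 {a b t : ℝ} (a0 : -1 ≤ a) (b0 : a ≤ 1) (a1 : -1 ≤ b) (b1 : b ≤ 1) (a2 : -8 ≤ t) (b2 : t
    ≤ -1) : 0 < outR prog 0 [a, b, t] :=
  gd 0 (by decide) [a, b, t] (.cons ⟨l0.le.trans a0, b0.trans u0.le⟩ (.cons ⟨l1.le.trans a1,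
    b1.trans u1.le⟩ (.cons ⟨l2.le.trans a2, b2.trans u2.le⟩ (.nil)))) ⟨nofun, nofun, nofun, trivial⟩
    (List.forall_mem_nil _) (Van.of0 rfl) (nofun)

theorem pos0 {a b t F D aa ab bb j1 j2 j3 q1 q2 r2 k n10 n11 n12 n20 n21 n22 n02 n03 n30 n31 e4 e5
    e6 e7 g4 g5 g6 g7 N M iN iM H iH iF l2 q3 A2 A3 c0 c1 A4 Ja La Jb Lb u m z x n P Q W O X e Y k0a
    k0b ua ub k4a k4b k3a k3b k2a k2b k1a k1b Sa Sb zz W7 x4a x2a x1a za x4b x2b x1b zb : ℝ} (hF : F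
    = 4 / 3 + b / 32) (hD : D = -103 / 96 + (-1 / 64) * b + a * (19 / 96 + 1 / 64 * b)) (haa : aa =
    a * a) (hab : ab = a * b) (hbb : bb = b * b) (hj1 : j1 = 1644 - 531 * a - 1077 * b) (hj2 : j2 =
    1439 + 2344 * a - 103 * b) (hj3 : j3 = -441 - 469 * a - 83 * b) (hq1 : q1 = -32908 + 2430 * a +
    16727 * b) (hq2 : q2 = 25916 - 15809 * a - 16805 * b) (hr2 : r2 = -99999 - 17074 * a + 52258 *
    b) (hk : k = 1090 + 20 * a + 528 * b) (hn10 : n10 = -80605 + 99981 * a + 99997 * b) (hn11 : n11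
    = 36391 + 47592 * a + 99994 * b) (hn12 : n12 = -76479 + 94591 * a - 99994 * b) (hn20 : n20 =
    57722 - 38975 * a - 57675 * b) (hn21 : n21 = 99861 + 70414 * a - 76554 * b) (hn22 : n22 = -83396
    - 70528 * a + 99995 * b) (hn02 : n02 = 21359 - 54107 * a + 89159 * b) (hn03 : n03 = -1244 -
    15357 * a - 1371 * b) (hn30 : n30 = -87027 - 99988 * a + 1937 * b) (hn31 : n31 = 8332 + 12407 *
    a + 37731 * b) (he4 : e4 = -15438 + 18791 * a - 19269 * b + 5913 * aa - 4114 * ab + 4251 * bb)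
    (he5 : e5 = 63917 + 70900 * a - 1407 * b + 52262 * aa + 24884 * ab - 16968 * bb) (he6 : e6 =
    -4687 - 140023 * a + 13356 * b - 191365 * aa - 27603 * ab + 25866 * bb) (he7 : e7 = 634 + 52899
    * a - 6675 * b + 113524 * aa - 231 * ab - 14783 * bb) (hg4 : g4 = -199949 + 199877 * a - 81303 *
    b - 25892 * aa + 20552 * ab + 4508 * bb) (hg5 : g5 = 164258 - 198610 * a + 63118 * b - 116938 *
    aa - 63392 * ab + 1676 * bb) (hg6 : g6 = 88324 + 75305 * a - 81141 * b + 199363 * aa + 62194 *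
    ab - 4457 * bb) (hg7 : g7 = -28705 - 77499 * a + 43055 * b - 91826 * aa - 22014 * ab + 1475 *
    bb) (hN : N = F * (2 * F - 1) * (F - 1)) (hM : M = F - D - 1) (hiN : iN = N⁻¹) (hiM : iM = M⁻¹)
    (hH : H = M * iN) (hiH : iH = N * iM) (hiF : iF = (2 * F - 1) * (F - 1) * iN) (hl2 : l2 = (4 - 3
    * F) * (F * (2 * F - 1)) * iN) (hq3 : q3 = l2 * (j1 + j2 + j3 + 4 * k) + (-j1 + 2 * j3 - q1 -
    q2)) (hA2 : A2 = (1 - F - 2 * D) / 6 * H) (hA3 : A3 = (1 - D + 10 * D ^ 2 + F * (4 * F + 10 * D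
    - 5)) / 36 * H) (hc0 : c0 = ((-4) * n10 + 2 * n20 - 3 * n30) / 8) (hc1 : c1 = ((-4) * n11 + 2 *
    n21 - 3 * n31 + 3 * n30) / 8 - A3 * (8 * n10 + 8 * n20 - 6 * n30) / 8) (hA4 : A4 = (4 - 57 * F -
    6 * D + F * (156 * F + 102 * D - F * (103 * F + 312 * D)) - D ^ 2 * (60 + 480 * F + 320 * D)) /
    1080 * H ^ 2) (hJa : Ja = A2 * ((-14) * j1 - 2 * q1)) (hLa : La = A4 * (108 * j1 + 12 * q1) + A2
    * (27 * j2 - 27 * j1 + 9 * q2 + 3 * r2 - c0 - n10)) (hJb : Jb = A2 * ((-14) * j1 - 2 * q1 + 2 *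
    c0 + 2 * n10)) (hLb : Lb = A4 * (108 * j1 + 12 * q1 + 4 * c0 + 8 * n10 + 8 * n20) + A2 * (27 *
    j2 - 27 * j1 + 9 * q2 + 3 * r2 - 3 * c0 - 3 * n10 + 4 * c1 + 4 * n11)) (hu : u = Real.exp (t /
    3)) (hm : m = Real.exp ((F - 4 / 3) * t)) (hz : z = (u * m) ^ 2) (hx : x = u ^ 3) (hn : n = m ^
    3) (hP : P = (1 + D) * x ^ 2) (hQ : Q = (1 + 2 * D) * x) (hW : W = Q - P - D) (hO : O = (2 * (F
    * (F - 1)) * Q - F * (2 * F - 1) * D - (2 * F - 1) * (F - 1) * P) * iM) (hX : X = z * O) (he : e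
    = 1 - X) (hY : Y = H * e / 2) (hk0a : k0a = -j2 + j1 - q2 - r2 - c0 + e * ((-3) * j3 + 3 * j2 -
    3 * q3 - c1 + e * (15 * j3 - n02 + e * (-n03)))) (hk0b : k0b = k0a + X * (2 * c1 + e * (4 * n02
    + e * (6 * n03)))) (hua : ua = iF * k0a) (hub : ub = iF * k0b) (hk4a : k4a = 16 * j1 + e * (16 *
    j2 + e * (16 * j3))) (hk4b : k4b = k4a + X * (2 * n30 + e * (2 * n31))) (hk3a : k3a = 104 * j1 +
    8 * q1 + e * (112 * j2 - 112 * j1 + 8 * q2 - n30 + e * (128 * j3 - 128 * j2 + 8 * q3 - n31 + n30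
    + e * ((-160) * j3 + n31)))) (hk3b : k3b = k3a + X * (6 * n30 + 2 * n20 + e * (8 * n31 - 8 * n30
    + 2 * n21 + e * ((-10) * n31 + 2 * n22)))) (hk2a : k2a = 68 * j1 + 8 * q1 + e * (160 * j2 - 160
    * j1 + 28 * q2 + 4 * r2 - n20 + e * (216 * j3 - 216 * j2 + 36 * q3 - n21 + e * ((-360) * j3 -
    n22)))) (hk2b : k2b = k2a + X * (4 * n20 + 2 * n10 + e * (6 * n21 + 2 * n11 + e * (8 * n22 + 2 *
    n12)))) (hk1a : k1a = (-14) * j1 - 2 * q1 + e * (28 * j2 - 28 * j1 + 10 * q2 + 4 * r2 - n10 + e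
    * (48 * j3 - 48 * j2 + 18 * q3 - n11 + e * ((-120) * j3 - n12)))) (hk1b : k1b = k1a + X * (2 *
    n10 + 2 * c0 + e * (4 * n11 + 2 * c1 + e * (6 * n12 + 2 * n02 + e * (2 * n03))))) (hSa : Sa = Ja
    + e * (La + e * (e4 + e * (e5 + e * (e6 + e * e7)))) + ua) (hSb : Sb = Jb + e * (Lb + e * (g4 +
    e * (g5 + e * (g6 + e * g7)))) + ub) (hzz : zz = z ^ 2) (hW7 : W7 = W ^ 7 * (e * z)) (hx4a : x4a
    = O * k4a) (hx2a : x2a = z * k2a) (hx1a : x1a = zz * k1a) (hza : za = x4a * (Y ^ 4 * (pjR F P Q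
    D).2.2) + k3a * (Y ^ 3 * (pjR F P Q D).2.1 * W ^ 2) + x2a * (Y ^ 2 * (pjR F P Q D).1 * W ^ 4) +
    x1a * (Y * W ^ 6)) (hx4b : x4b = O * k4b) (hx2b : x2b = z * k2b) (hx1b : x1b = zz * k1b) (hzb :
    zb = x4b * (Y ^ 4 * (pjR F P Q D).2.2) + k3b * (Y ^ 3 * (pjR F P Q D).2.1 * W ^ 2) + x2b * (Y ^
    2 * (pjR F P Q D).1 * W ^ 4) + x1b * (Y * W ^ 6)) (a0 : -1 ≤ a) (b0 : a ≤ 1) (a1 : -1 ≤ b) (b1 :
    b ≤ 1) (a2 : -8 ≤ t) (b2 : t ≤ -1) : 0 < za + W7 * (n * Sa - zz * ua) :=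
  have e := eq hF hD haa hab hbb hj1 hj2 hj3 hq1 hq2 hr2 hk hn10 hn11 hn12 hn20 hn21 hn22 hn02 hn03
    hn30 hn31 he4 he5 he6 he7 hg4 hg5 hg6 hg7 hN hM hiN hiM hH hiH hiF hl2 hq3 hA2 hA3 hc0 hc1 hA4
    hJa hLa hJb hLb hu hm hz hx hn hP hQ hW hO hX he hY hk0a hk0b hua hub hk4a hk4b hk3a hk3b hk2a
    hk2b hk1a hk1b hSa hSb hzz hW7 hx4a hx2a hx1a hza hx4b hx2b hx1b hzb
  (out0 a0 b0 a1 b1 a2 b2).trans_eq e.1

theorem out1 {a b t : ℝ} (a0 : -1 ≤ a) (b0 : a ≤ 1) (a1 : -1 ≤ b) (b1 : b ≤ 1) (a2 : -8 ≤ t) (b2 : t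
    ≤ -1) : 0 < outR prog 1 [a, b, t] :=
  gd 1 (by decide) [a, b, t] (.cons ⟨l0.le.trans a0, b0.trans u0.le⟩ (.cons ⟨l1.le.trans a1,
    b1.trans u1.le⟩ (.cons ⟨l2.le.trans a2, b2.trans u2.le⟩ (.nil)))) ⟨nofun, nofun, nofun, trivial⟩
    (List.forall_mem_nil _) (Van.of0 rfl) (nofun)

theorem pos1 {a b t F D aa ab bb j1 j2 j3 q1 q2 r2 k n10 n11 n12 n20 n21 n22 n02 n03 n30 n31 e4 e5
    e6 e7 g4 g5 g6 g7 N M iN iM H iH iF l2 q3 A2 A3 c0 c1 A4 Ja La Jb Lb u m z x n P Q W O X e Y k0a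
    k0b ua ub k4a k4b k3a k3b k2a k2b k1a k1b Sa Sb zz W7 x4a x2a x1a za x4b x2b x1b zb : ℝ} (hF : F
    = 4 / 3 + b / 32) (hD : D = -103 / 96 + (-1 / 64) * b + a * (19 / 96 + 1 / 64 * b)) (haa : aa =
    a * a) (hab : ab = a * b) (hbb : bb = b * b) (hj1 : j1 = 1644 - 531 * a - 1077 * b) (hj2 : j2 =
    1439 + 2344 * a - 103 * b) (hj3 : j3 = -441 - 469 * a - 83 * b) (hq1 : q1 = -32908 + 2430 * a +
    16727 * b) (hq2 : q2 = 25916 - 15809 * a - 16805 * b) (hr2 : r2 = -99999 - 17074 * a + 52258 *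
    b) (hk : k = 1090 + 20 * a + 528 * b) (hn10 : n10 = -80605 + 99981 * a + 99997 * b) (hn11 : n11
    = 36391 + 47592 * a + 99994 * b) (hn12 : n12 = -76479 + 94591 * a - 99994 * b) (hn20 : n20 =
    57722 - 38975 * a - 57675 * b) (hn21 : n21 = 99861 + 70414 * a - 76554 * b) (hn22 : n22 = -83396
    - 70528 * a + 99995 * b) (hn02 : n02 = 21359 - 54107 * a + 89159 * b) (hn03 : n03 = -1244 -
    15357 * a - 1371 * b) (hn30 : n30 = -87027 - 99988 * a + 1937 * b) (hn31 : n31 = 8332 + 12407 *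
    a + 37731 * b) (he4 : e4 = -15438 + 18791 * a - 19269 * b + 5913 * aa - 4114 * ab + 4251 * bb)
    (he5 : e5 = 63917 + 70900 * a - 1407 * b + 52262 * aa + 24884 * ab - 16968 * bb) (he6 : e6 =
    -4687 - 140023 * a + 13356 * b - 191365 * aa - 27603 * ab + 25866 * bb) (he7 : e7 = 634 + 52899
    * a - 6675 * b + 113524 * aa - 231 * ab - 14783 * bb) (hg4 : g4 = -199949 + 199877 * a - 81303 *
    b - 25892 * aa + 20552 * ab + 4508 * bb) (hg5 : g5 = 164258 - 198610 * a + 63118 * b - 116938 *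
    aa - 63392 * ab + 1676 * bb) (hg6 : g6 = 88324 + 75305 * a - 81141 * b + 199363 * aa + 62194 *
    ab - 4457 * bb) (hg7 : g7 = -28705 - 77499 * a + 43055 * b - 91826 * aa - 22014 * ab + 1475 *
    bb) (hN : N = F * (2 * F - 1) * (F - 1)) (hM : M = F - D - 1) (hiN : iN = N⁻¹) (hiM : iM = M⁻¹)
    (hH : H = M * iN) (hiH : iH = N * iM) (hiF : iF = (2 * F - 1) * (F - 1) * iN) (hl2 : l2 = (4 - 3
    * F) * (F * (2 * F - 1)) * iN) (hq3 : q3 = l2 * (j1 + j2 + j3 + 4 * k) + (-j1 + 2 * j3 - q1 -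
    q2)) (hA2 : A2 = (1 - F - 2 * D) / 6 * H) (hA3 : A3 = (1 - D + 10 * D ^ 2 + F * (4 * F + 10 * D
    - 5)) / 36 * H) (hc0 : c0 = ((-4) * n10 + 2 * n20 - 3 * n30) / 8) (hc1 : c1 = ((-4) * n11 + 2 *
    n21 - 3 * n31 + 3 * n30) / 8 - A3 * (8 * n10 + 8 * n20 - 6 * n30) / 8) (hA4 : A4 = (4 - 57 * F -
    6 * D + F * (156 * F + 102 * D - F * (103 * F + 312 * D)) - D ^ 2 * (60 + 480 * F + 320 * D)) /
    1080 * H ^ 2) (hJa : Ja = A2 * ((-14) * j1 - 2 * q1)) (hLa : La = A4 * (108 * j1 + 12 * q1) + A2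
    * (27 * j2 - 27 * j1 + 9 * q2 + 3 * r2 - c0 - n10)) (hJb : Jb = A2 * ((-14) * j1 - 2 * q1 + 2 *
    c0 + 2 * n10)) (hLb : Lb = A4 * (108 * j1 + 12 * q1 + 4 * c0 + 8 * n10 + 8 * n20) + A2 * (27 *
    j2 - 27 * j1 + 9 * q2 + 3 * r2 - 3 * c0 - 3 * n10 + 4 * c1 + 4 * n11)) (hu : u = Real.exp (t /
    3)) (hm : m = Real.exp ((F - 4 / 3) * t)) (hz : z = (u * m) ^ 2) (hx : x = u ^ 3) (hn : n = m ^
    3) (hP : P = (1 + D) * x ^ 2) (hQ : Q = (1 + 2 * D) * x) (hW : W = Q - P - D) (hO : O = (2 * (F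
    * (F - 1)) * Q - F * (2 * F - 1) * D - (2 * F - 1) * (F - 1) * P) * iM) (hX : X = z * O) (he : e
    = 1 - X) (hY : Y = H * e / 2) (hk0a : k0a = -j2 + j1 - q2 - r2 - c0 + e * ((-3) * j3 + 3 * j2 -
    3 * q3 - c1 + e * (15 * j3 - n02 + e * (-n03)))) (hk0b : k0b = k0a + X * (2 * c1 + e * (4 * n02
    + e * (6 * n03)))) (hua : ua = iF * k0a) (hub : ub = iF * k0b) (hk4a : k4a = 16 * j1 + e * (16 *
    j2 + e * (16 * j3))) (hk4b : k4b = k4a + X * (2 * n30 + e * (2 * n31))) (hk3a : k3a = 104 * j1 +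
    8 * q1 + e * (112 * j2 - 112 * j1 + 8 * q2 - n30 + e * (128 * j3 - 128 * j2 + 8 * q3 - n31 + n30
    + e * ((-160) * j3 + n31)))) (hk3b : k3b = k3a + X * (6 * n30 + 2 * n20 + e * (8 * n31 - 8 * n30
    + 2 * n21 + e * ((-10) * n31 + 2 * n22)))) (hk2a : k2a = 68 * j1 + 8 * q1 + e * (160 * j2 - 160
    * j1 + 28 * q2 + 4 * r2 - n20 + e * (216 * j3 - 216 * j2 + 36 * q3 - n21 + e * ((-360) * j3 -
    n22)))) (hk2b : k2b = k2a + X * (4 * n20 + 2 * n10 + e * (6 * n21 + 2 * n11 + e * (8 * n22 + 2 *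
    n12)))) (hk1a : k1a = (-14) * j1 - 2 * q1 + e * (28 * j2 - 28 * j1 + 10 * q2 + 4 * r2 - n10 + e
    * (48 * j3 - 48 * j2 + 18 * q3 - n11 + e * ((-120) * j3 - n12)))) (hk1b : k1b = k1a + X * (2 *
    n10 + 2 * c0 + e * (4 * n11 + 2 * c1 + e * (6 * n12 + 2 * n02 + e * (2 * n03))))) (hSa : Sa = Ja
    + e * (La + e * (e4 + e * (e5 + e * (e6 + e * e7)))) + ua) (hSb : Sb = Jb + e * (Lb + e * (g4 +
    e * (g5 + e * (g6 + e * g7)))) + ub) (hzz : zz = z ^ 2) (hW7 : W7 = W ^ 7 * (e * z)) (hx4a : x4a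
    = O * k4a) (hx2a : x2a = z * k2a) (hx1a : x1a = zz * k1a) (hza : za = x4a * (Y ^ 4 * (pjR F P Q
    D).2.2) + k3a * (Y ^ 3 * (pjR F P Q D).2.1 * W ^ 2) + x2a * (Y ^ 2 * (pjR F P Q D).1 * W ^ 4) +
    x1a * (Y * W ^ 6)) (hx4b : x4b = O * k4b) (hx2b : x2b = z * k2b) (hx1b : x1b = zz * k1b) (hzb :
    zb = x4b * (Y ^ 4 * (pjR F P Q D).2.2) + k3b * (Y ^ 3 * (pjR F P Q D).2.1 * W ^ 2) + x2b * (Y ^
    2 * (pjR F P Q D).1 * W ^ 4) + x1b * (Y * W ^ 6)) (a0 : -1 ≤ a) (b0 : a ≤ 1) (a1 : -1 ≤ b) (b1 :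
    b ≤ 1) (a2 : -8 ≤ t) (b2 : t ≤ -1) : 0 < zb + W7 * (n * Sb - zz * ub) :=
  have e := eq hF hD haa hab hbb hj1 hj2 hj3 hq1 hq2 hr2 hk hn10 hn11 hn12 hn20 hn21 hn22 hn02 hn03
    hn30 hn31 he4 he5 he6 he7 hg4 hg5 hg6 hg7 hN hM hiN hiM hH hiH hiF hl2 hq3 hA2 hA3 hc0 hc1 hA4
    hJa hLa hJb hLb hu hm hz hx hn hP hQ hW hO hX he hY hk0a hk0b hua hub hk4a hk4b hk3a hk3b hk2a
    hk2b hk1a hk1b hSa hSb hzz hW7 hx4a hx2a hx1a hza hx4b hx2b hx1b hzb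
  (out1 a0 b0 a1 b1 a2 b2).trans_eq e.2

end Pool.Agent.Lib.MP_d6150d_an.S10Bm
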