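import Pool.Agent.Lib.MP_d6150d_an.S10BrD

/-! A generated chart: the computations. -/

namespace Pool.Agent.Lib.MP_d6150d_an.S10Br

theorem q0 :
    chk C 0x8 [(-140737488355328, -105553116266496), (-140737488355328, -70368744177664), (0,
    17592186044416)] = true ∧
    chk C 0x881 [(-140737488355328, -105553116266496), (-140737488355328, -70368744177664),
    (17592186044416, 35184372088832)] = true ∧
    chk C 0x881 [(-105553116266496, -70368744177664), (-140737488355328, -70368744177664), (0,
    17592186044416)] = true ∧
    chk C 0x881 [(-105553116266496, -70368744177664), (-140737488355328, -70368744177664),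
    (17592186044416, 26388279066624)] = true ∧
    chk C 0x8 [(-105553116266496, -70368744177664), (-140737488355328, -70368744177664),
    (26388279066624, 35184372088832)] = true ∧
    chk C 0x8 [(-140737488355328, -105553116266496), (-70368744177664, 0), (0, 17592186044416)] =
    true ∧
    chk C 0x881 [(-140737488355328, -105553116266496), (-70368744177664, 0), (17592186044416,
    35184372088832)] = true ∧
    chk C 0x881 [(-105553116266496, -70368744177664), (-70368744177664, 0), (0, 17592186044416)] =
    true ∧
    chk C 0x881 [(-105553116266496, -70368744177664), (-70368744177664, 0), (17592186044416,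
    26388279066624)] = true ∧
    chk C 0x8 [(-105553116266496, -70368744177664), (-70368744177664, 0), (26388279066624,
    35184372088832)] = true ∧
    chk C 0x8 [(-140737488355328, -105553116266496), (0, 70368744177664), (0, 17592186044416)] =
    true ∧
    chk C 0x881 [(-140737488355328, -105553116266496), (0, 70368744177664), (17592186044416,
    35184372088832)] = true ∧
    chk C 0x881 [(-105553116266496, -70368744177664), (0, 70368744177664), (0, 17592186044416)] =
    true ∧
    chk C 0x881 [(-105553116266496, -70368744177664), (0, 70368744177664), (17592186044416,
    26388279066624)] = true ∧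
    chk C 0x8 [(-105553116266496, -70368744177664), (0, 70368744177664), (26388279066624,
    35184372088832)] = true ∧
    chk C 0x8 [(-140737488355328, -105553116266496), (70368744177664, 140737488355328), (0,
    17592186044416)] = true ∧
    chk C 0x881 [(-140737488355328, -105553116266496), (70368744177664, 140737488355328),
    (17592186044416, 35184372088832)] = true ∧
    chk C 0x881 [(-105553116266496, -70368744177664), (70368744177664, 140737488355328), (0,
    17592186044416)] = true := by
  refine ⟨?_, ?_, ?_, ?_, ?_, ?_, ?_, ?_, ?_, ?_, ?_, ?_, ?_, ?_, ?_, ?_, ?_, ?_⟩ <;> decide +kernel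

end Pool.Agent.Lib.MP_d6150d_an.S10Br
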