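import Pool.Agent.Lib.MP_d6150d_an.S10BrD

/-! A generated chart: the computations. -/

namespace Pool.Agent.Lib.MP_d6150d_an.S10Br

theorem q11 :
    chk C 0x880 [(0, 70368744177664), (70368744177664, 140737488355328), (87960930222080,
    105553116266496)] = true ∧
    chk C 0x882 [(70368744177664, 140737488355328), (-140737488355328, 0), (70368744177664,
    105553116266496)] = true ∧
    chk C 0x8 [(70368744177664, 140737488355328), (0, 140737488355328), (70368744177664,
    87960930222080)] = true ∧
    chk C 0x881 [(70368744177664, 105553116266496), (0, 140737488355328), (87960930222080,
    105553116266496)] = true ∧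
    chk C 0x8 [(105553116266496, 140737488355328), (0, 140737488355328), (87960930222080,
    105553116266496)] = true ∧
    chk C 0x8 [(0, 70368744177664), (-140737488355328, -70368744177664), (105553116266496,
    123145302310912)] = true ∧
    chk C 0x880 [(0, 70368744177664), (-70368744177664, 0), (105553116266496, 123145302310912)] =
    true ∧
    chk C 0x8 [(0, 70368744177664), (0, 70368744177664), (105553116266496, 114349209288704)] = true ∧
    chk C 0x880 [(0, 70368744177664), (70368744177664, 140737488355328), (105553116266496,
    114349209288704)] = true ∧
    chk C 0x880 [(0, 70368744177664), (0, 70368744177664), (114349209288704, 123145302310912)] =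
    true ∧
    chk C 0x880 [(0, 70368744177664), (70368744177664, 140737488355328), (114349209288704,
    123145302310912)] = true ∧
    chk C 0x8 [(70368744177664, 105553116266496), (-140737488355328, -70368744177664),
    (105553116266496, 123145302310912)] = true ∧
    chk C 0x8 [(105553116266496, 140737488355328), (-140737488355328, -70368744177664),
    (105553116266496, 114349209288704)] = true ∧
    chk C 0x8 [(105553116266496, 140737488355328), (-140737488355328, -105553116266496),
    (114349209288704, 123145302310912)] = true ∧
    chk C 0x8 [(105553116266496, 140737488355328), (-105553116266496, -70368744177664),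
    (114349209288704, 118747255799808)] = true ∧
    chk C 0x8 [(105553116266496, 140737488355328), (-105553116266496, -87960930222080),
    (118747255799808, 123145302310912)] = true ∧
    chk C 0x880 [(105553116266496, 140737488355328), (-87960930222080, -70368744177664),
    (118747255799808, 123145302310912)] = true ∧
    chk C 0x880 [(70368744177664, 140737488355328), (-70368744177664, 0), (105553116266496,
    114349209288704)] = true ∧
    chk C 0x8 [(70368744177664, 105553116266496), (-70368744177664, -35184372088832),
    (114349209288704, 123145302310912)] = true ∧
    chk C 0x880 [(70368744177664, 105553116266496), (-35184372088832, 0), (114349209288704,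
    123145302310912)] = true := by
  refine ⟨?_, ?_, ?_, ?_, ?_, ?_, ?_, ?_, ?_, ?_, ?_, ?_, ?_, ?_, ?_, ?_, ?_, ?_, ?_, ?_⟩ <;> decide
    +kernel

end Pool.Agent.Lib.MP_d6150d_an.S10Br
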