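import Pool.Agent.Lib.MP_d6150d_an.S10BrD

/-! A generated chart: the computations. -/

namespace Pool.Agent.Lib.MP_d6150d_an.S10Br

theorem q13 :
    chk C 0x880 [(0, 70368744177664), (0, 140737488355328), (131941395333120, 140737488355328)] =
    true ∧
    chk C 0x882 [(70368744177664, 105553116266496), (-140737488355328, -70368744177664),
    (123145302310912, 131941395333120)] = true ∧
    chk C 0x882 [(105553116266496, 140737488355328), (-140737488355328, -105553116266496),
    (123145302310912, 127543348822016)] = true ∧
    chk C 0x880 [(105553116266496, 140737488355328), (-105553116266496, -70368744177664),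
    (123145302310912, 127543348822016)] = true ∧
    chk C 0x881 [(105553116266496, 140737488355328), (-140737488355328, -70368744177664),
    (127543348822016, 131941395333120)] = true ∧
    chk C 0x881 [(70368744177664, 105553116266496), (-70368744177664, 0), (123145302310912,
    127543348822016)] = true ∧
    chk C 0x8 [(70368744177664, 105553116266496), (-70368744177664, 0), (127543348822016,
    131941395333120)] = true ∧
    chk C 0x880 [(105553116266496, 140737488355328), (-70368744177664, 0), (123145302310912,
    131941395333120)] = true ∧
    chk C 0x881 [(70368744177664, 105553116266496), (-140737488355328, 0), (131941395333120,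
    140737488355328)] = true ∧
    chk C 0x8 [(105553116266496, 140737488355328), (-140737488355328, 0), (131941395333120,
    140737488355328)] = true ∧
    chk C 0x880 [(70368744177664, 140737488355328), (0, 140737488355328), (123145302310912,
    131941395333120)] = true ∧
    chk C 0x881 [(70368744177664, 140737488355328), (0, 140737488355328), (131941395333120,
    140737488355328)] = true := by
  refine ⟨?_, ?_, ?_, ?_, ?_, ?_, ?_, ?_, ?_, ?_, ?_, ?_⟩ <;> decide +kernel

end Pool.Agent.Lib.MP_d6150d_an.S10Br
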