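import Pool.Agent.Lib.MP_d6150d_an.S10BrD

/-! A generated chart: the computations. -/

namespace Pool.Agent.Lib.MP_d6150d_an.S10Br

theorem q4 :
    chk C 0x882 [(35184372088832, 70368744177664), (0, 70368744177664), (0, 35184372088832)] = true ∧
    chk C 0x8 [(0, 35184372088832), (70368744177664, 140737488355328), (0, 17592186044416)] = true ∧
    chk C 0x881 [(0, 35184372088832), (70368744177664, 140737488355328), (17592186044416,
    35184372088832)] = true ∧
    chk C 0x882 [(35184372088832, 70368744177664), (70368744177664, 140737488355328), (0,
    35184372088832)] = true ∧
    chk C 0x880 [(70368744177664, 140737488355328), (-140737488355328, -70368744177664), (0,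
    17592186044416)] = true ∧
    chk C 0x880 [(70368744177664, 140737488355328), (-140737488355328, -70368744177664),
    (17592186044416, 35184372088832)] = true ∧
    chk C 0x880 [(70368744177664, 140737488355328), (-70368744177664, 0), (0, 17592186044416)] =
    true ∧
    chk C 0x880 [(70368744177664, 140737488355328), (-70368744177664, 0), (17592186044416,
    35184372088832)] = true ∧
    chk C 0x880 [(70368744177664, 140737488355328), (0, 70368744177664), (0, 17592186044416)] = true ∧
    chk C 0x880 [(70368744177664, 140737488355328), (0, 70368744177664), (17592186044416,
    35184372088832)] = true ∧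
    chk C 0x880 [(70368744177664, 140737488355328), (70368744177664, 140737488355328), (0,
    17592186044416)] = true ∧
    chk C 0x880 [(70368744177664, 140737488355328), (70368744177664, 140737488355328),
    (17592186044416, 35184372088832)] = true ∧
    chk C 0x880 [(0, 70368744177664), (-140737488355328, -70368744177664), (35184372088832,
    52776558133248)] = true ∧
    chk C 0x880 [(0, 70368744177664), (-70368744177664, 0), (35184372088832, 52776558133248)] = true ∧
    chk C 0x881 [(0, 70368744177664), (-140737488355328, 0), (52776558133248, 70368744177664)] =
    true := by
  refine ⟨?_, ?_, ?_, ?_, ?_, ?_, ?_, ?_, ?_, ?_, ?_, ?_, ?_, ?_, ?_⟩ <;> decide +kernel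

end Pool.Agent.Lib.MP_d6150d_an.S10Br
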