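import Pool.Agent.Lib.MP_d6150d_an.S10BrD

/-! A generated chart: the computations. -/

namespace Pool.Agent.Lib.MP_d6150d_an.S10Br

theorem q5 :
    chk C 0x880 [(0, 70368744177664), (0, 70368744177664), (35184372088832, 52776558133248)] = true ∧
    chk C 0x880 [(0, 70368744177664), (70368744177664, 140737488355328), (35184372088832,
    52776558133248)] = true ∧
    chk C 0x880 [(0, 70368744177664), (0, 140737488355328), (52776558133248, 70368744177664)] = true ∧
    chk C 0x881 [(70368744177664, 140737488355328), (-140737488355328, 0), (35184372088832,
    52776558133248)] = true ∧
    chk C 0x8 [(70368744177664, 140737488355328), (-140737488355328, 0), (52776558133248,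
    70368744177664)] = true ∧
    chk C 0x881 [(70368744177664, 140737488355328), (0, 140737488355328), (35184372088832,
    52776558133248)] = true ∧
    chk C 0x8 [(70368744177664, 140737488355328), (0, 140737488355328), (52776558133248,
    70368744177664)] = true ∧
    chk C 0x881 [(-140737488355328, -105553116266496), (-140737488355328, 0), (70368744177664,
    105553116266496)] = true ∧
    chk C 0x881 [(-105553116266496, -70368744177664), (-140737488355328, 0), (70368744177664,
    105553116266496)] = true ∧
    chk C 0x881 [(-140737488355328, -105553116266496), (0, 140737488355328), (70368744177664,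
    105553116266496)] = true ∧
    chk C 0x881 [(-105553116266496, -70368744177664), (0, 70368744177664), (70368744177664,
    105553116266496)] = true ∧
    chk C 0x880 [(-105553116266496, -70368744177664), (70368744177664, 140737488355328),
    (70368744177664, 105553116266496)] = true ∧
    chk C 0x8 [(-140737488355328, -123145302310912), (-140737488355328, 0), (105553116266496,
    123145302310912)] = true ∧
    chk C 0x8 [(-123145302310912, -105553116266496), (-140737488355328, 0), (105553116266496,
    114349209288704)] = true ∧
    chk C 0x880 [(-123145302310912, -105553116266496), (-140737488355328, -70368744177664),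
    (114349209288704, 123145302310912)] = true ∧
    chk C 0x8 [(-123145302310912, -105553116266496), (-70368744177664, 0), (114349209288704,
    123145302310912)] = true ∧
    chk C 0x880 [(-105553116266496, -70368744177664), (-140737488355328, -105553116266496),
    (105553116266496, 114349209288704)] = true := by
  refine ⟨?_, ?_, ?_, ?_, ?_, ?_, ?_, ?_, ?_, ?_, ?_, ?_, ?_, ?_, ?_, ?_, ?_⟩ <;> decide +kernel

end Pool.Agent.Lib.MP_d6150d_an.S10Br
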