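import Pool.Agent.Lib.MP_d6150d_an.S10BrD

/-! A generated chart: the computations. -/

namespace Pool.Agent.Lib.MP_d6150d_an.S10Br

theorem q6 :
    chk C 0x880 [(-105553116266496, -87960930222080), (-140737488355328, -123145302310912),
    (114349209288704, 118747255799808)] = true ∧
    chk C 0x880 [(-105553116266496, -87960930222080), (-140737488355328, -123145302310912),
    (118747255799808, 123145302310912)] = true ∧
    chk C 0x882 [(-105553116266496, -87960930222080), (-123145302310912, -105553116266496),
    (114349209288704, 123145302310912)] = true ∧
    chk C 0x8 [(-87960930222080, -70368744177664), (-140737488355328, -105553116266496),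
    (114349209288704, 123145302310912)] = true ∧
    chk C 0x880 [(-105553116266496, -70368744177664), (-105553116266496, -70368744177664),
    (105553116266496, 114349209288704)] = true ∧
    chk C 0x880 [(-105553116266496, -87960930222080), (-105553116266496, -70368744177664),
    (114349209288704, 123145302310912)] = true ∧
    chk C 0x8 [(-87960930222080, -70368744177664), (-105553116266496, -70368744177664),
    (114349209288704, 123145302310912)] = true ∧
    chk C 0x880 [(-105553116266496, -70368744177664), (-70368744177664, 0), (105553116266496,
    114349209288704)] = true ∧
    chk C 0x880 [(-105553116266496, -70368744177664), (-70368744177664, -35184372088832),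
    (114349209288704, 123145302310912)] = true ∧
    chk C 0x880 [(-105553116266496, -70368744177664), (-35184372088832, 0), (114349209288704,
    123145302310912)] = true ∧
    chk C 0x881 [(-140737488355328, -105553116266496), (0, 140737488355328), (105553116266496,
    123145302310912)] = true ∧
    chk C 0x8 [(-105553116266496, -70368744177664), (0, 35184372088832), (105553116266496,
    114349209288704)] = true ∧
    chk C 0x880 [(-105553116266496, -70368744177664), (0, 35184372088832), (114349209288704,
    123145302310912)] = true ∧
    chk C 0x8 [(-105553116266496, -87960930222080), (35184372088832, 70368744177664),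
    (105553116266496, 123145302310912)] = true ∧
    chk C 0x882 [(-87960930222080, -70368744177664), (35184372088832, 70368744177664),
    (105553116266496, 123145302310912)] = true ∧
    chk C 0x8 [(-105553116266496, -87960930222080), (70368744177664, 140737488355328),
    (105553116266496, 123145302310912)] = true ∧
    chk C 0x881 [(-87960930222080, -70368744177664), (70368744177664, 140737488355328),
    (105553116266496, 123145302310912)] = true := by
  refine ⟨?_, ?_, ?_, ?_, ?_, ?_, ?_, ?_, ?_, ?_, ?_, ?_, ?_, ?_, ?_, ?_, ?_⟩ <;> decide +kernel

end Pool.Agent.Lib.MP_d6150d_an.S10Br
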