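import Pool.Agent.Lib.MP_d6150d_an.S10BrD

/-! A generated chart: the computations. -/

namespace Pool.Agent.Lib.MP_d6150d_an.S10Br

theorem q7 :
    chk C 0x881 [(-140737488355328, -105553116266496), (-140737488355328, 0), (123145302310912,
    131941395333120)] = true ∧
    chk C 0x881 [(-140737488355328, -131941395333120), (-140737488355328, -105553116266496),
    (131941395333120, 140737488355328)] = true ∧
    chk C 0x8 [(-140737488355328, -131941395333120), (-105553116266496, -70368744177664),
    (131941395333120, 140737488355328)] = true ∧
    chk C 0x8 [(-140737488355328, -131941395333120), (-70368744177664, 0), (131941395333120,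
    140737488355328)] = true ∧
    chk C 0x8 [(-131941395333120, -123145302310912), (-140737488355328, 0), (131941395333120,
    140737488355328)] = true ∧
    chk C 0x8 [(-123145302310912, -105553116266496), (-140737488355328, 0), (131941395333120,
    140737488355328)] = true ∧
    chk C 0x8 [(-140737488355328, -123145302310912), (0, 70368744177664), (123145302310912,
    131941395333120)] = true ∧
    chk C 0x881 [(-140737488355328, -123145302310912), (0, 70368744177664), (131941395333120,
    140737488355328)] = true ∧
    chk C 0x8 [(-123145302310912, -105553116266496), (0, 70368744177664), (123145302310912,
    140737488355328)] = true ∧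
    chk C 0x8 [(-140737488355328, -105553116266496), (70368744177664, 140737488355328),
    (123145302310912, 131941395333120)] = true ∧
    chk C 0x882 [(-140737488355328, -131941395333120), (70368744177664, 105553116266496),
    (131941395333120, 140737488355328)] = true ∧
    chk C 0x882 [(-140737488355328, -131941395333120), (105553116266496, 123145302310912),
    (131941395333120, 140737488355328)] = true ∧
    chk C 0x8 [(-140737488355328, -131941395333120), (123145302310912, 131941395333120),
    (131941395333120, 136339441844224)] = true ∧
    chk C 0x8 [(-140737488355328, -131941395333120), (131941395333120, 140737488355328),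
    (131941395333120, 134140418588672)] = true ∧
    chk C 0x882 [(-140737488355328, -131941395333120), (131941395333120, 140737488355328),
    (134140418588672, 136339441844224)] = true ∧
    chk C 0x8 [(-140737488355328, -131941395333120), (123145302310912, 131941395333120),
    (136339441844224, 138538465099776)] = true ∧
    chk C 0x8 [(-140737488355328, -136339441844224), (131941395333120, 136339441844224),
    (136339441844224, 138538465099776)] = true ∧
    chk C 0x881 [(-140737488355328, -138538465099776), (136339441844224, 140737488355328),
    (136339441844224, 137438953472000)] = true ∧
    chk C 0x8 [(-140737488355328, -138538465099776), (136339441844224, 140737488355328),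
    (137438953472000, 138538465099776)] = true ∧
    chk C 0x8 [(-138538465099776, -136339441844224), (136339441844224, 140737488355328),
    (136339441844224, 138538465099776)] = true ∧
    chk C 0x8 [(-136339441844224, -131941395333120), (131941395333120, 140737488355328),
    (136339441844224, 138538465099776)] = true ∧
    chk C 0x8 [(-140737488355328, -131941395333120), (123145302310912, 140737488355328),
    (138538465099776, 140737488355328)] = true ∧
    chk C 0x8 [(-131941395333120, -123145302310912), (70368744177664, 140737488355328),
    (131941395333120, 140737488355328)] = true := by
  refine ⟨?_, ?_, ?_, ?_, ?_, ?_, ?_, ?_, ?_, ?_, ?_, ?_, ?_, ?_, ?_, ?_, ?_, ?_, ?_, ?_, ?_, ?_,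
    ?_⟩ <;> decide +kernel

end Pool.Agent.Lib.MP_d6150d_an.S10Br
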