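import Pool.Agent.Lib.MP_d6150d_an.S10BrD

/-! A generated chart: the computations. -/

namespace Pool.Agent.Lib.MP_d6150d_an.S10Br

theorem q8 :
    chk C 0x8 [(-123145302310912, -105553116266496), (70368744177664, 140737488355328),
    (131941395333120, 140737488355328)] = true ∧
    chk C 0x880 [(-105553116266496, -70368744177664), (-140737488355328, -70368744177664),
    (123145302310912, 131941395333120)] = true ∧
    chk C 0x881 [(-105553116266496, -70368744177664), (-70368744177664, 0), (123145302310912,
    131941395333120)] = true ∧
    chk C 0x8 [(-105553116266496, -70368744177664), (-140737488355328, 0), (131941395333120,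
    140737488355328)] = true ∧
    chk C 0x8 [(-105553116266496, -70368744177664), (0, 70368744177664), (123145302310912,
    131941395333120)] = true ∧
    chk C 0x881 [(-105553116266496, -70368744177664), (70368744177664, 140737488355328),
    (123145302310912, 131941395333120)] = true ∧
    chk C 0x881 [(-105553116266496, -70368744177664), (0, 140737488355328), (131941395333120,
    140737488355328)] = true ∧
    chk C 0x882 [(-70368744177664, -35184372088832), (-140737488355328, -70368744177664),
    (70368744177664, 105553116266496)] = true ∧
    chk C 0x8 [(-70368744177664, -35184372088832), (-70368744177664, 0), (70368744177664,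
    105553116266496)] = true ∧
    chk C 0x881 [(-35184372088832, 0), (-140737488355328, 0), (70368744177664, 105553116266496)] =
    true ∧
    chk C 0x880 [(-70368744177664, 0), (0, 70368744177664), (70368744177664, 105553116266496)] =
    true ∧
    chk C 0x882 [(-70368744177664, -35184372088832), (70368744177664, 140737488355328),
    (70368744177664, 105553116266496)] = true ∧
    chk C 0x881 [(-35184372088832, 0), (70368744177664, 140737488355328), (70368744177664,
    105553116266496)] = true ∧
    chk C 0x880 [(-70368744177664, -35184372088832), (-140737488355328, -70368744177664),
    (105553116266496, 123145302310912)] = true ∧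
    chk C 0x8 [(-70368744177664, -35184372088832), (-70368744177664, 0), (105553116266496,
    123145302310912)] = true ∧
    chk C 0x882 [(-35184372088832, -17592186044416), (-140737488355328, -70368744177664),
    (105553116266496, 123145302310912)] = true ∧
    chk C 0x8 [(-35184372088832, -17592186044416), (-70368744177664, 0), (105553116266496,
    123145302310912)] = true ∧
    chk C 0x881 [(-17592186044416, 0), (-140737488355328, 0), (105553116266496, 123145302310912)] =
    true := by
  refine ⟨?_, ?_, ?_, ?_, ?_, ?_, ?_, ?_, ?_, ?_, ?_, ?_, ?_, ?_, ?_, ?_, ?_, ?_⟩ <;> decide +kernel

end Pool.Agent.Lib.MP_d6150d_an.S10Br
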