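import Pool.Agent.Lib.MP_d6150d_an.GMac
import Pool.Agent.Lib.MP_d6150d_an.S10BrK0
import Pool.Agent.Lib.MP_d6150d_an.S10BrK1
import Pool.Agent.Lib.MP_d6150d_an.S10BrK2
import Pool.Agent.Lib.MP_d6150d_an.S10BrK3
import Pool.Agent.Lib.MP_d6150d_an.S10BrK4
import Pool.Agent.Lib.MP_d6150d_an.S10BrK5
import Pool.Agent.Lib.MP_d6150d_an.S10BrK6
import Pool.Agent.Lib.MP_d6150d_an.S10BrK7
import Pool.Agent.Lib.MP_d6150d_an.S10BrK8
import Pool.Agent.Lib.MP_d6150d_an.S10BrK9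
import Pool.Agent.Lib.MP_d6150d_an.S10BrK10
import Pool.Agent.Lib.MP_d6150d_an.S10BrK11
import Pool.Agent.Lib.MP_d6150d_an.S10BrK12
import Pool.Agent.Lib.MP_d6150d_an.S10BrK13

/-! A generated chart: the inequality. -/

namespace Pool.Agent.Lib.MP_d6150d_an.S10Br

set_option linter.unnecessarySeqFocus false
set_option linter.unusedTactic false
set_option linter.unusedVariables false

theorem gd : Gd C [(-140737488355328, 140737488355328), (-140737488355328, 140737488355328), (0,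
    140737488355328)] := .split 2 (.split 0 (.split 2 (.split 0 (.split 1 (.split 1 (.split 0
    (.split 2 (chk_sound q0.1) (chk_sound q0.2.1)) (.split 2 (chk_sound q0.2.2.1) (.split 2
    (chk_sound q0.2.2.2.1) (chk_sound q0.2.2.2.2.1)))) (.split 0 (.split 2 (chk_sound
    q0.2.2.2.2.2.1) (chk_sound q0.2.2.2.2.2.2.1)) (.split 2 (chk_sound q0.2.2.2.2.2.2.2.1) (.split 2
    (chk_sound q0.2.2.2.2.2.2.2.2.1) (chk_sound q0.2.2.2.2.2.2.2.2.2.1))))) (.split 1 (.split 0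
    (.split 2 (chk_sound q0.2.2.2.2.2.2.2.2.2.2.1) (chk_sound q0.2.2.2.2.2.2.2.2.2.2.2.1)) (.split 2
    (chk_sound q0.2.2.2.2.2.2.2.2.2.2.2.2.1) (.split 2 (chk_sound q0.2.2.2.2.2.2.2.2.2.2.2.2.2.1)
    (chk_sound q0.2.2.2.2.2.2.2.2.2.2.2.2.2.2.1)))) (.split 0 (.split 2 (chk_sound
    q0.2.2.2.2.2.2.2.2.2.2.2.2.2.2.2.1) (chk_sound q0.2.2.2.2.2.2.2.2.2.2.2.2.2.2.2.2.1)) (.split 2
    (chk_sound q0.2.2.2.2.2.2.2.2.2.2.2.2.2.2.2.2.2) (.split 2 (chk_sound q1.1) (chk_sound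
    q1.2.1)))))) (.split 1 (.split 1 (.split 0 (.split 2 (chk_sound q1.2.2.1) (.split 2 (chk_sound
    q1.2.2.2.1) (chk_sound q1.2.2.2.2.1))) (.split 2 (chk_sound q1.2.2.2.2.2.1) (.split 2 (chk_sound
    q1.2.2.2.2.2.2.1) (chk_sound q1.2.2.2.2.2.2.2.1)))) (.split 0 (.split 2 (chk_sound
    q1.2.2.2.2.2.2.2.2.1) (.split 2 (chk_sound q1.2.2.2.2.2.2.2.2.2.1) (chk_sound
    q1.2.2.2.2.2.2.2.2.2.2.1))) (.split 2 (chk_sound q1.2.2.2.2.2.2.2.2.2.2.2.1) (.split 1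
    (chk_sound q1.2.2.2.2.2.2.2.2.2.2.2.2.1) (chk_sound q1.2.2.2.2.2.2.2.2.2.2.2.2.2.1))))) (.split
    1 (.split 0 (.split 2 (chk_sound q1.2.2.2.2.2.2.2.2.2.2.2.2.2.2.1) (.split 2 (chk_sound
    q1.2.2.2.2.2.2.2.2.2.2.2.2.2.2.2.1) (chk_sound q1.2.2.2.2.2.2.2.2.2.2.2.2.2.2.2.2.1))) (.split 2
    (chk_sound q1.2.2.2.2.2.2.2.2.2.2.2.2.2.2.2.2.2) (chk_sound q2.1))) (.split 0 (.split 2
    (chk_sound q2.2.1) (.split 2 (chk_sound q2.2.2.1) (chk_sound q2.2.2.2.1))) (.split 2 (chk_sound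
    q2.2.2.2.2.1) (chk_sound q2.2.2.2.2.2.1)))))) (.split 0 (.split 1 (.split 1 (.split 0 (chk_sound
    q2.2.2.2.2.2.2.1) (chk_sound q2.2.2.2.2.2.2.2.1)) (.split 0 (chk_sound q2.2.2.2.2.2.2.2.2.1)
    (chk_sound q2.2.2.2.2.2.2.2.2.2.1))) (.split 0 (.split 2 (chk_sound q2.2.2.2.2.2.2.2.2.2.2.1)
    (chk_sound q2.2.2.2.2.2.2.2.2.2.2.2.1)) (.split 1 (chk_sound q2.2.2.2.2.2.2.2.2.2.2.2.2.1)
    (chk_sound q2.2.2.2.2.2.2.2.2.2.2.2.2.2.1)))) (.split 1 (.split 2 (.split 1 (chk_sound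
    q2.2.2.2.2.2.2.2.2.2.2.2.2.2.2.1) (chk_sound q2.2.2.2.2.2.2.2.2.2.2.2.2.2.2.2)) (.split 0
    (chk_sound q3.1) (chk_sound q3.2.1))) (.split 1 (.split 0 (chk_sound q3.2.2.1) (chk_sound
    q3.2.2.2.1)) (.split 0 (chk_sound q3.2.2.2.2.1) (chk_sound q3.2.2.2.2.2.1)))))) (.split 2
    (.split 0 (.split 1 (.split 1 (.split 2 (.split 0 (chk_sound q3.2.2.2.2.2.2.1) (chk_sound
    q3.2.2.2.2.2.2.2.1)) (.split 0 (chk_sound q3.2.2.2.2.2.2.2.2.1) (chk_sound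
    q3.2.2.2.2.2.2.2.2.2.1))) (.split 0 (.split 2 (chk_sound q3.2.2.2.2.2.2.2.2.2.2.1) (chk_sound
    q3.2.2.2.2.2.2.2.2.2.2.2.1)) (chk_sound q3.2.2.2.2.2.2.2.2.2.2.2.2.1))) (.split 1 (.split 0
    (.split 2 (chk_sound q3.2.2.2.2.2.2.2.2.2.2.2.2.2.1) (chk_sound q3.2.2.2.2.2.2.2.2.2.2.2.2.2.2))
    (chk_sound q4.1)) (.split 0 (.split 2 (chk_sound q4.2.1) (chk_sound q4.2.2.1)) (chk_sound
    q4.2.2.2.1)))) (.split 1 (.split 1 (.split 2 (chk_sound q4.2.2.2.2.1) (chk_sound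
    q4.2.2.2.2.2.1)) (.split 2 (chk_sound q4.2.2.2.2.2.2.1) (chk_sound q4.2.2.2.2.2.2.2.1))) (.split
    1 (.split 2 (chk_sound q4.2.2.2.2.2.2.2.2.1) (chk_sound q4.2.2.2.2.2.2.2.2.2.1)) (.split 2
    (chk_sound q4.2.2.2.2.2.2.2.2.2.2.1) (chk_sound q4.2.2.2.2.2.2.2.2.2.2.2.1))))) (.split 0
    (.split 1 (.split 2 (.split 1 (chk_sound q4.2.2.2.2.2.2.2.2.2.2.2.2.1) (chk_sound
    q4.2.2.2.2.2.2.2.2.2.2.2.2.2.1)) (chk_sound q4.2.2.2.2.2.2.2.2.2.2.2.2.2.2)) (.split 2 (.split 1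
    (chk_sound q5.1) (chk_sound q5.2.1)) (chk_sound q5.2.2.1))) (.split 1 (.split 2 (chk_sound
    q5.2.2.2.1) (chk_sound q5.2.2.2.2.1)) (.split 2 (chk_sound q5.2.2.2.2.2.1) (chk_sound
    q5.2.2.2.2.2.2.1)))))) (.split 0 (.split 0 (.split 2 (.split 1 (.split 0 (chk_sound
    q5.2.2.2.2.2.2.2.1) (chk_sound q5.2.2.2.2.2.2.2.2.1)) (.split 0 (chk_sound
    q5.2.2.2.2.2.2.2.2.2.1) (.split 1 (chk_sound q5.2.2.2.2.2.2.2.2.2.2.1) (chk_sound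
    q5.2.2.2.2.2.2.2.2.2.2.2.1)))) (.split 2 (.split 1 (.split 0 (.split 0 (chk_sound
    q5.2.2.2.2.2.2.2.2.2.2.2.2.1) (.split 2 (chk_sound q5.2.2.2.2.2.2.2.2.2.2.2.2.2.1) (.split 1
    (chk_sound q5.2.2.2.2.2.2.2.2.2.2.2.2.2.2.1) (chk_sound q5.2.2.2.2.2.2.2.2.2.2.2.2.2.2.2.1))))
    (.split 1 (.split 1 (.split 2 (chk_sound q5.2.2.2.2.2.2.2.2.2.2.2.2.2.2.2.2) (.split 0 (.split 1
    (.split 2 (chk_sound q6.1) (chk_sound q6.2.1)) (chk_sound q6.2.2.1)) (chk_sound q6.2.2.2.1)))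
    (.split 2 (chk_sound q6.2.2.2.2.1) (.split 0 (chk_sound q6.2.2.2.2.2.1) (chk_sound
    q6.2.2.2.2.2.2.1)))) (.split 2 (chk_sound q6.2.2.2.2.2.2.2.1) (.split 1 (chk_sound
    q6.2.2.2.2.2.2.2.2.1) (chk_sound q6.2.2.2.2.2.2.2.2.2.1))))) (.split 0 (chk_sound
    q6.2.2.2.2.2.2.2.2.2.2.1) (.split 1 (.split 1 (.split 2 (chk_sound q6.2.2.2.2.2.2.2.2.2.2.2.1)
    (chk_sound q6.2.2.2.2.2.2.2.2.2.2.2.2.1)) (.split 0 (chk_sound q6.2.2.2.2.2.2.2.2.2.2.2.2.2.1)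
    (chk_sound q6.2.2.2.2.2.2.2.2.2.2.2.2.2.2.1))) (.split 0 (chk_sound
    q6.2.2.2.2.2.2.2.2.2.2.2.2.2.2.2.1) (chk_sound q6.2.2.2.2.2.2.2.2.2.2.2.2.2.2.2.2))))) (.split 0
    (.split 1 (.split 2 (chk_sound q7.1) (.split 0 (.split 0 (.split 1 (.split 1 (chk_sound q7.2.1)
    (chk_sound q7.2.2.1)) (chk_sound q7.2.2.2.1)) (chk_sound q7.2.2.2.2.1)) (chk_sound
    q7.2.2.2.2.2.1))) (.split 1 (.split 0 (.split 2 (chk_sound q7.2.2.2.2.2.2.1) (chk_sound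
    q7.2.2.2.2.2.2.2.1)) (chk_sound q7.2.2.2.2.2.2.2.2.1)) (.split 2 (chk_sound
    q7.2.2.2.2.2.2.2.2.2.1) (.split 0 (.split 0 (.split 1 (chk_sound q7.2.2.2.2.2.2.2.2.2.2.1)
    (.split 1 (chk_sound q7.2.2.2.2.2.2.2.2.2.2.2.1) (.split 2 (.split 1 (chk_sound
    q7.2.2.2.2.2.2.2.2.2.2.2.2.1) (.split 2 (chk_sound q7.2.2.2.2.2.2.2.2.2.2.2.2.2.1) (chk_sound
    q7.2.2.2.2.2.2.2.2.2.2.2.2.2.2.1))) (.split 2 (.split 1 (chk_sound
    q7.2.2.2.2.2.2.2.2.2.2.2.2.2.2.2.1) (.split 0 (.split 1 (chk_sound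
    q7.2.2.2.2.2.2.2.2.2.2.2.2.2.2.2.2.1) (.split 0 (.split 2 (chk_sound
    q7.2.2.2.2.2.2.2.2.2.2.2.2.2.2.2.2.2.1) (chk_sound q7.2.2.2.2.2.2.2.2.2.2.2.2.2.2.2.2.2.2.1))
    (chk_sound q7.2.2.2.2.2.2.2.2.2.2.2.2.2.2.2.2.2.2.2.1))) (chk_sound
    q7.2.2.2.2.2.2.2.2.2.2.2.2.2.2.2.2.2.2.2.2.1))) (chk_sound
    q7.2.2.2.2.2.2.2.2.2.2.2.2.2.2.2.2.2.2.2.2.2.1))))) (chk_sound
    q7.2.2.2.2.2.2.2.2.2.2.2.2.2.2.2.2.2.2.2.2.2.2)) (chk_sound q8.1))))) (.split 1 (.split 2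
    (.split 1 (chk_sound q8.2.1) (chk_sound q8.2.2.1)) (chk_sound q8.2.2.2.1)) (.split 2 (.split 1
    (chk_sound q8.2.2.2.2.1) (chk_sound q8.2.2.2.2.2.1)) (chk_sound q8.2.2.2.2.2.2.1)))))) (.split 2
    (.split 1 (.split 0 (.split 1 (chk_sound q8.2.2.2.2.2.2.2.1) (chk_sound q8.2.2.2.2.2.2.2.2.1))
    (chk_sound q8.2.2.2.2.2.2.2.2.2.1)) (.split 1 (chk_sound q8.2.2.2.2.2.2.2.2.2.2.1) (.split 0
    (chk_sound q8.2.2.2.2.2.2.2.2.2.2.2.1) (chk_sound q8.2.2.2.2.2.2.2.2.2.2.2.2.1)))) (.split 1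
    (.split 2 (.split 0 (.split 1 (chk_sound q8.2.2.2.2.2.2.2.2.2.2.2.2.2.1) (chk_sound
    q8.2.2.2.2.2.2.2.2.2.2.2.2.2.2.1)) (.split 0 (.split 1 (chk_sound
    q8.2.2.2.2.2.2.2.2.2.2.2.2.2.2.2.1) (chk_sound q8.2.2.2.2.2.2.2.2.2.2.2.2.2.2.2.2.1)) (chk_sound
    q8.2.2.2.2.2.2.2.2.2.2.2.2.2.2.2.2.2))) (.split 0 (.split 2 (.split 1 (chk_sound q9.1)
    (chk_sound q9.2.1)) (.split 1 (chk_sound q9.2.2.1) (chk_sound q9.2.2.2.1))) (.split 1 (.split 1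
    (.split 0 (chk_sound q9.2.2.2.2.1) (chk_sound q9.2.2.2.2.2.1)) (.split 0 (chk_sound
    q9.2.2.2.2.2.2.1) (chk_sound q9.2.2.2.2.2.2.2.1))) (.split 1 (.split 0 (chk_sound
    q9.2.2.2.2.2.2.2.2.1) (chk_sound q9.2.2.2.2.2.2.2.2.2.1)) (.split 0 (.split 2 (chk_sound
    q9.2.2.2.2.2.2.2.2.2.2.1) (chk_sound q9.2.2.2.2.2.2.2.2.2.2.2.1)) (chk_sound
    q9.2.2.2.2.2.2.2.2.2.2.2.2.1)))))) (.split 2 (.split 1 (.split 0 (chk_sound
    q9.2.2.2.2.2.2.2.2.2.2.2.2.2.1) (chk_sound q9.2.2.2.2.2.2.2.2.2.2.2.2.2.2.1)) (.split 0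
    (chk_sound q9.2.2.2.2.2.2.2.2.2.2.2.2.2.2.2.1) (chk_sound q9.2.2.2.2.2.2.2.2.2.2.2.2.2.2.2.2)))
    (.split 0 (.split 2 (.split 1 (chk_sound q10.1) (.split 0 (chk_sound q10.2.1) (chk_sound
    q10.2.2.1))) (.split 1 (.split 0 (chk_sound q10.2.2.2.1) (chk_sound q10.2.2.2.2.1)) (.split 1
    (.split 0 (chk_sound q10.2.2.2.2.2.1) (chk_sound q10.2.2.2.2.2.2.1)) (.split 0 (chk_sound
    q10.2.2.2.2.2.2.2.1) (chk_sound q10.2.2.2.2.2.2.2.2.1))))) (.split 1 (.split 2 (chk_sound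
    q10.2.2.2.2.2.2.2.2.2.1) (.split 0 (chk_sound q10.2.2.2.2.2.2.2.2.2.2.1) (chk_sound
    q10.2.2.2.2.2.2.2.2.2.2.2.1))) (chk_sound q10.2.2.2.2.2.2.2.2.2.2.2.2.1))))))) (.split 2 (.split
    0 (.split 1 (.split 2 (chk_sound q10.2.2.2.2.2.2.2.2.2.2.2.2.2.1) (chk_sound
    q10.2.2.2.2.2.2.2.2.2.2.2.2.2.2.1)) (.split 2 (chk_sound q10.2.2.2.2.2.2.2.2.2.2.2.2.2.2.2.1)
    (.split 1 (chk_sound q10.2.2.2.2.2.2.2.2.2.2.2.2.2.2.2.2) (chk_sound q11.1)))) (.split 1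
    (chk_sound q11.2.1) (.split 2 (chk_sound q11.2.2.1) (.split 0 (chk_sound q11.2.2.2.1) (chk_sound
    q11.2.2.2.2.1))))) (.split 2 (.split 0 (.split 1 (.split 1 (chk_sound q11.2.2.2.2.2.1)
    (chk_sound q11.2.2.2.2.2.2.1)) (.split 2 (.split 1 (chk_sound q11.2.2.2.2.2.2.2.1) (chk_sound
    q11.2.2.2.2.2.2.2.2.1)) (.split 1 (chk_sound q11.2.2.2.2.2.2.2.2.2.1) (chk_sound
    q11.2.2.2.2.2.2.2.2.2.2.1)))) (.split 1 (.split 1 (.split 0 (chk_sound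
    q11.2.2.2.2.2.2.2.2.2.2.2.1) (.split 2 (chk_sound q11.2.2.2.2.2.2.2.2.2.2.2.2.1) (.split 1
    (chk_sound q11.2.2.2.2.2.2.2.2.2.2.2.2.2.1) (.split 2 (chk_sound
    q11.2.2.2.2.2.2.2.2.2.2.2.2.2.2.1) (.split 1 (chk_sound q11.2.2.2.2.2.2.2.2.2.2.2.2.2.2.2.1)
    (chk_sound q11.2.2.2.2.2.2.2.2.2.2.2.2.2.2.2.2.1)))))) (.split 2 (chk_sound
    q11.2.2.2.2.2.2.2.2.2.2.2.2.2.2.2.2.2.1) (.split 0 (.split 1 (chk_sound
    q11.2.2.2.2.2.2.2.2.2.2.2.2.2.2.2.2.2.2.1) (chk_sound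
    q11.2.2.2.2.2.2.2.2.2.2.2.2.2.2.2.2.2.2.2)) (.split 1 (.split 2 (chk_sound q12.1) (chk_sound
    q12.2.1)) (chk_sound q12.2.2.1))))) (.split 2 (.split 1 (chk_sound q12.2.2.2.1) (chk_sound
    q12.2.2.2.2.1)) (.split 1 (.split 0 (chk_sound q12.2.2.2.2.2.1) (chk_sound q12.2.2.2.2.2.2.1))
    (chk_sound q12.2.2.2.2.2.2.2.1))))) (.split 0 (.split 1 (.split 2 (.split 1 (chk_sound
    q12.2.2.2.2.2.2.2.2.1) (.split 0 (chk_sound q12.2.2.2.2.2.2.2.2.2.1) (chk_sound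
    q12.2.2.2.2.2.2.2.2.2.2.1))) (.split 1 (.split 0 (chk_sound q12.2.2.2.2.2.2.2.2.2.2.2.1)
    (chk_sound q12.2.2.2.2.2.2.2.2.2.2.2.2.1)) (.split 0 (chk_sound q12.2.2.2.2.2.2.2.2.2.2.2.2.2.1)
    (chk_sound q12.2.2.2.2.2.2.2.2.2.2.2.2.2.2.1)))) (.split 2 (.split 0 (chk_sound
    q12.2.2.2.2.2.2.2.2.2.2.2.2.2.2.2.1) (chk_sound q12.2.2.2.2.2.2.2.2.2.2.2.2.2.2.2.2)) (chk_sound
    q13.1))) (.split 1 (.split 2 (.split 1 (.split 0 (chk_sound q13.2.1) (.split 2 (.split 1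
    (chk_sound q13.2.2.1) (chk_sound q13.2.2.2.1)) (chk_sound q13.2.2.2.2.1))) (.split 0 (.split 2
    (chk_sound q13.2.2.2.2.2.1) (chk_sound q13.2.2.2.2.2.2.1)) (chk_sound q13.2.2.2.2.2.2.2.1)))
    (.split 0 (chk_sound q13.2.2.2.2.2.2.2.2.1) (chk_sound q13.2.2.2.2.2.2.2.2.2.1))) (.split 2
    (chk_sound q13.2.2.2.2.2.2.2.2.2.2.1) (chk_sound q13.2.2.2.2.2.2.2.2.2.2.2)))))))

set_option maxRecDepth 100000 in
theorem eq {a b r F D aa ab bb j1 j2 j3 q1 q2 r2 k n10 n11 n12 n20 n21 n22 n02 n03 n30 n31 e4 e5 e6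
    e7 g4 g5 g6 g7 T t N M iN iM H iH iF l2 q3 A2 A3 c0 c1 A4 Ja La Jb Lb x w P Q R f1 yi W mu m e X
    Y k0a k0b ua ub k4a k4b k3a k3b k2a k2b k1a k1b Sa Sb W7 x4a za x4b zb : ℝ} (hF : F = 4 / 3 + b
    / 32) (hD : D = -103 / 96 + (-1 / 64) * b + a * (19 / 96 + 1 / 64 * b)) (haa : aa = a * a) (hab
    : ab = a * b) (hbb : bb = b * b) (hj1 : j1 = 1644 - 531 * a - 1077 * b) (hj2 : j2 = 1439 + 2344
    * a - 103 * b) (hj3 : j3 = -441 - 469 * a - 83 * b) (hq1 : q1 = -32908 + 2430 * a + 16727 * b)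
    (hq2 : q2 = 25916 - 15809 * a - 16805 * b) (hr2 : r2 = -99999 - 17074 * a + 52258 * b) (hk : k =
    1090 + 20 * a + 528 * b) (hn10 : n10 = -80605 + 99981 * a + 99997 * b) (hn11 : n11 = 36391 +
    47592 * a + 99994 * b) (hn12 : n12 = -76479 + 94591 * a - 99994 * b) (hn20 : n20 = 57722 - 38975
    * a - 57675 * b) (hn21 : n21 = 99861 + 70414 * a - 76554 * b) (hn22 : n22 = -83396 - 70528 * a +
    99995 * b) (hn02 : n02 = 21359 - 54107 * a + 89159 * b) (hn03 : n03 = -1244 - 15357 * a - 1371 *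
    b) (hn30 : n30 = -87027 - 99988 * a + 1937 * b) (hn31 : n31 = 8332 + 12407 * a + 37731 * b) (he4
    : e4 = -15438 + 18791 * a - 19269 * b + 5913 * aa - 4114 * ab + 4251 * bb) (he5 : e5 = 63917 +
    70900 * a - 1407 * b + 52262 * aa + 24884 * ab - 16968 * bb) (he6 : e6 = -4687 - 140023 * a +
    13356 * b - 191365 * aa - 27603 * ab + 25866 * bb) (he7 : e7 = 634 + 52899 * a - 6675 * b +
    113524 * aa - 231 * ab - 14783 * bb) (hg4 : g4 = -199949 + 199877 * a - 81303 * b - 25892 * aa +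
    20552 * ab + 4508 * bb) (hg5 : g5 = 164258 - 198610 * a + 63118 * b - 116938 * aa - 63392 * ab +
    1676 * bb) (hg6 : g6 = 88324 + 75305 * a - 81141 * b + 199363 * aa + 62194 * ab - 4457 * bb)
    (hg7 : g7 = -28705 - 77499 * a + 43055 * b - 91826 * aa - 22014 * ab + 1475 * bb) (hT : T = 967
    / 1000 + (-129 / 2500) * b + a * (-711 / 5000 + 213 / 5000 * a + 1 / 500 * b)) (ht : t = T * r)
    (hN : N = F * (2 * F - 1) * (F - 1)) (hM : M = F - D - 1) (hiN : iN = N⁻¹) (hiM : iM = M⁻¹) (hH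
    : H = M * iN) (hiH : iH = N * iM) (hiF : iF = (2 * F - 1) * (F - 1) * iN) (hl2 : l2 = (4 - 3 *
    F) * (F * (2 * F - 1)) * iN) (hq3 : q3 = l2 * (j1 + j2 + j3 + 4 * k) + (-j1 + 2 * j3 - q1 - q2))
    (hA2 : A2 = (1 - F - 2 * D) / 6 * H) (hA3 : A3 = (1 - D + 10 * D ^ 2 + F * (4 * F + 10 * D - 5))
    / 36 * H) (hc0 : c0 = ((-4) * n10 + 2 * n20 - 3 * n30) / 8) (hc1 : c1 = ((-4) * n11 + 2 * n21 -
    3 * n31 + 3 * n30) / 8 - A3 * (8 * n10 + 8 * n20 - 6 * n30) / 8) (hA4 : A4 = (4 - 57 * F - 6 * D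
    + F * (156 * F + 102 * D - F * (103 * F + 312 * D)) - D ^ 2 * (60 + 480 * F + 320 * D)) / 1080 *
    H ^ 2) (hJa : Ja = A2 * ((-14) * j1 - 2 * q1)) (hLa : La = A4 * (108 * j1 + 12 * q1) + A2 * (27
    * j2 - 27 * j1 + 9 * q2 + 3 * r2 - c0 - n10)) (hJb : Jb = A2 * ((-14) * j1 - 2 * q1 + 2 * c0 + 2
    * n10)) (hLb : Lb = A4 * (108 * j1 + 12 * q1 + 4 * c0 + 8 * n10 + 8 * n20) + A2 * (27 * j2 - 27
    * j1 + 9 * q2 + 3 * r2 - 3 * c0 - 3 * n10 + 4 * c1 + 4 * n11)) (hx : x = Real.exp t) (hw : w =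
    (1 + D) * x - D) (hP : P = (1 + D) * x ^ 2) (hQ : Q = (1 + 2 * D) * x) (hR : R = D) (hf1 : f1 =
    ph1 t) (hyi : yi = Real.exp (-(F * t))) (hW : W = f1 * w) (hmu : mu = muR D F t) (hm : m = t *
    mu * iH) (he : e = t * m) (hX : X = 1 - e) (hY : Y = mu * (x * yi) ^ 2 / 2) (hk0a : k0a = -j2 +
    j1 - q2 - r2 - c0 + e * ((-3) * j3 + 3 * j2 - 3 * q3 - c1 + e * (15 * j3 - n02 + e * (-n03))))
    (hk0b : k0b = k0a + X * (2 * c1 + e * (4 * n02 + e * (6 * n03)))) (hua : ua = iF * k0a) (hub :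
    ub = iF * k0b) (hk4a : k4a = 16 * j1 + e * (16 * j2 + e * (16 * j3))) (hk4b : k4b = k4a + X * (2
    * n30 + e * (2 * n31))) (hk3a : k3a = 104 * j1 + 8 * q1 + e * (112 * j2 - 112 * j1 + 8 * q2 -
    n30 + e * (128 * j3 - 128 * j2 + 8 * q3 - n31 + n30 + e * ((-160) * j3 + n31)))) (hk3b : k3b =
    k3a + X * (6 * n30 + 2 * n20 + e * (8 * n31 - 8 * n30 + 2 * n21 + e * ((-10) * n31 + 2 * n22))))
    (hk2a : k2a = 68 * j1 + 8 * q1 + e * (160 * j2 - 160 * j1 + 28 * q2 + 4 * r2 - n20 + e * (216 *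
    j3 - 216 * j2 + 36 * q3 - n21 + e * ((-360) * j3 - n22)))) (hk2b : k2b = k2a + X * (4 * n20 + 2
    * n10 + e * (6 * n21 + 2 * n11 + e * (8 * n22 + 2 * n12)))) (hk1a : k1a = (-14) * j1 - 2 * q1 +
    e * (28 * j2 - 28 * j1 + 10 * q2 + 4 * r2 - n10 + e * (48 * j3 - 48 * j2 + 18 * q3 - n11 + e *
    ((-120) * j3 - n12)))) (hk1b : k1b = k1a + X * (2 * n10 + 2 * c0 + e * (4 * n11 + 2 * c1 + e *
    (6 * n12 + 2 * n02 + e * (2 * n03))))) (hSa : Sa = Ja + e * (La + e * (e4 + e * (e5 + e * (e6 +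
    e * e7)))) + ua) (hSb : Sb = Jb + e * (Lb + e * (g4 + e * (g5 + e * (g6 + e * g7)))) + ub) (hW7
    : W7 = W ^ 7 * m) (hx4a : x4a = X * k4a) (hza : za = x4a * (Y ^ 4 * (pjR F P Q R).2.2) + k3a *
    (Y ^ 3 * (pjR F P Q R).2.1 * W ^ 2) + k2a * (Y ^ 2 * (pjR F P Q R).1 * W ^ 4) + k1a * (Y * W ^
    6)) (hx4b : x4b = X * k4b) (hzb : zb = x4b * (Y ^ 4 * (pjR F P Q R).2.2) + k3b * (Y ^ 3 * (pjR F
    P Q R).2.1 * W ^ 2) + k2b * (Y ^ 2 * (pjR F P Q R).1 * W ^ 4) + k1b * (Y * W ^ 6)) : outR prog 0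
    [a, b, r] = za + W7 * (ua - yi * Sa) ∧ outR prog 1 [a, b, r] = zb + W7 * (ub - yi * Sb) := by
  replace hF : F = (((Int.cast (4) : ℝ) / (Nat.cast 3 : ℝ)) + (((Int.cast (1) : ℝ) / (Nat.cast 32 :
    ℝ)) * b)) := hF.trans (by push_cast <;> ring)
  replace hD : D = ((((Int.cast (-103) : ℝ) / (Nat.cast 96 : ℝ)) + (((Int.cast (-1) : ℝ) / (Nat.cast
    64 : ℝ)) * b)) + (a * (((Int.cast (19) : ℝ) / (Nat.cast 96 : ℝ)) + (((Int.cast (1) : ℝ) /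
    (Nat.cast 64 : ℝ)) * b)))) := hD.trans (by push_cast <;> ring)
  replace haa : aa = (a * a) := haa.trans (by push_cast <;> ring)
  replace hab : ab = (a * b) := hab.trans (by push_cast <;> ring)
  replace hbb : bb = (b * b) := hbb.trans (by push_cast <;> ring)
  replace hj1 : j1 = (((Int.cast (1644) : ℝ) - ((Int.cast (531) : ℝ) * a)) - ((Int.cast (1077) : ℝ)
    * b)) := hj1.trans (by push_cast <;> ring)
  replace hj2 : j2 = (((Int.cast (1439) : ℝ) + ((Int.cast (2344) : ℝ) * a)) - ((Int.cast (103) : ℝ)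
    * b)) := hj2.trans (by push_cast <;> ring)
  replace hj3 : j3 = (((Int.cast (-441) : ℝ) - ((Int.cast (469) : ℝ) * a)) - ((Int.cast (83) : ℝ) *
    b)) := hj3.trans (by push_cast <;> ring)
  replace hq1 : q1 = (((Int.cast (-32908) : ℝ) + ((Int.cast (2430) : ℝ) * a)) + ((Int.cast (16727) :
    ℝ) * b)) := hq1.trans (by push_cast <;> ring)
  replace hq2 : q2 = (((Int.cast (25916) : ℝ) - ((Int.cast (15809) : ℝ) * a)) - ((Int.cast (16805) :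
    ℝ) * b)) := hq2.trans (by push_cast <;> ring)
  replace hr2 : r2 = (((Int.cast (-99999) : ℝ) - ((Int.cast (17074) : ℝ) * a)) + ((Int.cast (52258)
    : ℝ) * b)) := hr2.trans (by push_cast <;> ring)
  replace hk : k = (((Int.cast (1090) : ℝ) + ((Int.cast (20) : ℝ) * a)) + ((Int.cast (528) : ℝ) *
    b)) := hk.trans (by push_cast <;> ring)
  replace hn10 : n10 = (((Int.cast (-80605) : ℝ) + ((Int.cast (99981) : ℝ) * a)) + ((Int.cast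
    (99997) : ℝ) * b)) := hn10.trans (by push_cast <;> ring)
  replace hn11 : n11 = (((Int.cast (36391) : ℝ) + ((Int.cast (47592) : ℝ) * a)) + ((Int.cast (99994)
    : ℝ) * b)) := hn11.trans (by push_cast <;> ring)
  replace hn12 : n12 = (((Int.cast (-76479) : ℝ) + ((Int.cast (94591) : ℝ) * a)) - ((Int.cast
    (99994) : ℝ) * b)) := hn12.trans (by push_cast <;> ring)
  replace hn20 : n20 = (((Int.cast (57722) : ℝ) - ((Int.cast (38975) : ℝ) * a)) - ((Int.cast (57675)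
    : ℝ) * b)) := hn20.trans (by push_cast <;> ring)
  replace hn21 : n21 = (((Int.cast (99861) : ℝ) + ((Int.cast (70414) : ℝ) * a)) - ((Int.cast (76554)
    : ℝ) * b)) := hn21.trans (by push_cast <;> ring)
  replace hn22 : n22 = (((Int.cast (-83396) : ℝ) - ((Int.cast (70528) : ℝ) * a)) + ((Int.cast
    (99995) : ℝ) * b)) := hn22.trans (by push_cast <;> ring)
  replace hn02 : n02 = (((Int.cast (21359) : ℝ) - ((Int.cast (54107) : ℝ) * a)) + ((Int.cast (89159)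
    : ℝ) * b)) := hn02.trans (by push_cast <;> ring)
  replace hn03 : n03 = (((Int.cast (-1244) : ℝ) - ((Int.cast (15357) : ℝ) * a)) - ((Int.cast (1371)
    : ℝ) * b)) := hn03.trans (by push_cast <;> ring)
  replace hn30 : n30 = (((Int.cast (-87027) : ℝ) - ((Int.cast (99988) : ℝ) * a)) + ((Int.cast (1937)
    : ℝ) * b)) := hn30.trans (by push_cast <;> ring)
  replace hn31 : n31 = (((Int.cast (8332) : ℝ) + ((Int.cast (12407) : ℝ) * a)) + ((Int.cast (37731)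
    : ℝ) * b)) := hn31.trans (by push_cast <;> ring)
  replace he4 : e4 = ((((((Int.cast (-15438) : ℝ) + ((Int.cast (18791) : ℝ) * a)) - ((Int.cast
    (19269) : ℝ) * b)) + ((Int.cast (5913) : ℝ) * aa)) - ((Int.cast (4114) : ℝ) * ab)) + ((Int.cast
    (4251) : ℝ) * bb)) := he4.trans (by push_cast <;> ring)
  replace he5 : e5 = ((((((Int.cast (63917) : ℝ) + ((Int.cast (70900) : ℝ) * a)) - ((Int.cast (1407)
    : ℝ) * b)) + ((Int.cast (52262) : ℝ) * aa)) + ((Int.cast (24884) : ℝ) * ab)) - ((Int.cast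
    (16968) : ℝ) * bb)) := he5.trans (by push_cast <;> ring)
  replace he6 : e6 = ((((((Int.cast (-4687) : ℝ) - ((Int.cast (140023) : ℝ) * a)) + ((Int.cast
    (13356) : ℝ) * b)) - ((Int.cast (191365) : ℝ) * aa)) - ((Int.cast (27603) : ℝ) * ab)) +
    ((Int.cast (25866) : ℝ) * bb)) := he6.trans (by push_cast <;> ring)
  replace he7 : e7 = ((((((Int.cast (634) : ℝ) + ((Int.cast (52899) : ℝ) * a)) - ((Int.cast (6675) :
    ℝ) * b)) + ((Int.cast (113524) : ℝ) * aa)) - ((Int.cast (231) : ℝ) * ab)) - ((Int.cast (14783) :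
    ℝ) * bb)) := he7.trans (by push_cast <;> ring)
  replace hg4 : g4 = ((((((Int.cast (-199949) : ℝ) + ((Int.cast (199877) : ℝ) * a)) - ((Int.cast
    (81303) : ℝ) * b)) - ((Int.cast (25892) : ℝ) * aa)) + ((Int.cast (20552) : ℝ) * ab)) +
    ((Int.cast (4508) : ℝ) * bb)) := hg4.trans (by push_cast <;> ring)
  replace hg5 : g5 = ((((((Int.cast (164258) : ℝ) - ((Int.cast (198610) : ℝ) * a)) + ((Int.cast
    (63118) : ℝ) * b)) - ((Int.cast (116938) : ℝ) * aa)) - ((Int.cast (63392) : ℝ) * ab)) +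
    ((Int.cast (1676) : ℝ) * bb)) := hg5.trans (by push_cast <;> ring)
  replace hg6 : g6 = ((((((Int.cast (88324) : ℝ) + ((Int.cast (75305) : ℝ) * a)) - ((Int.cast
    (81141) : ℝ) * b)) + ((Int.cast (199363) : ℝ) * aa)) + ((Int.cast (62194) : ℝ) * ab)) -
    ((Int.cast (4457) : ℝ) * bb)) := hg6.trans (by push_cast <;> ring)
  replace hg7 : g7 = ((((((Int.cast (-28705) : ℝ) - ((Int.cast (77499) : ℝ) * a)) + ((Int.cast
    (43055) : ℝ) * b)) - ((Int.cast (91826) : ℝ) * aa)) - ((Int.cast (22014) : ℝ) * ab)) +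
    ((Int.cast (1475) : ℝ) * bb)) := hg7.trans (by push_cast <;> ring)
  replace hT : T = ((((Int.cast (967) : ℝ) / (Nat.cast 1000 : ℝ)) + (((Int.cast (-129) : ℝ) /
    (Nat.cast 2500 : ℝ)) * b)) + (a * ((((Int.cast (-711) : ℝ) / (Nat.cast 5000 : ℝ)) + (((Int.cast
    (213) : ℝ) / (Nat.cast 5000 : ℝ)) * a)) + (((Int.cast (1) : ℝ) / (Nat.cast 500 : ℝ)) * b)))) :=
    hT.trans (by push_cast <;> ring)
  replace ht : t = (T * r) := ht.trans (by push_cast <;> ring)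
  replace hN : N = ((F * (((Int.cast (2) : ℝ) * F) - (Int.cast (1) : ℝ))) * (F - (Int.cast (1) :
    ℝ))) := hN.trans (by push_cast <;> ring)
  replace hM : M = ((F - D) - (Int.cast (1) : ℝ)) := hM.trans (by push_cast <;> ring)
  replace hiN : iN = N⁻¹ := hiN.trans (by push_cast <;> ring)
  replace hiM : iM = M⁻¹ := hiM.trans (by push_cast <;> ring)
  replace hH : H = (M * iN) := hH.trans (by push_cast <;> ring)
  replace hiH : iH = (N * iM) := hiH.trans (by push_cast <;> ring)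
  replace hiF : iF = (((((Int.cast (2) : ℝ) * F) - (Int.cast (1) : ℝ)) * (F - (Int.cast (1) : ℝ))) *
    iN) := hiF.trans (by push_cast <;> ring)
  replace hl2 : l2 = ((((Int.cast (4) : ℝ) - ((Int.cast (3) : ℝ) * F)) * (F * (((Int.cast (2) : ℝ) *
    F) - (Int.cast (1) : ℝ)))) * iN) := hl2.trans (by push_cast <;> ring)
  replace hq3 : q3 = ((l2 * (((j1 + j2) + j3) + ((Int.cast (4) : ℝ) * k))) + (((((Int.cast (-1) : ℝ)
    * j1) + ((Int.cast (2) : ℝ) * j3)) - q1) - q2)) := hq3.trans (by push_cast <;> ring)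
  replace hA2 : A2 = ((((Int.cast (1) : ℝ) / (Nat.cast 6 : ℝ)) * (((Int.cast (1) : ℝ) - F) -
    ((Int.cast (2) : ℝ) * D))) * H) := hA2.trans (by push_cast <;> ring)
  replace hA3 : A3 = ((((Int.cast (1) : ℝ) / (Nat.cast 36 : ℝ)) * ((((Int.cast (1) : ℝ) - D) +
    ((Int.cast (10) : ℝ) * (D * D))) + (F * ((((Int.cast (4) : ℝ) * F) + ((Int.cast (10) : ℝ) * D))
    - (Int.cast (5) : ℝ))))) * H) := hA3.trans (by push_cast <;> ring)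
  replace hc0 : c0 = (((Int.cast (1) : ℝ) / (Nat.cast 8 : ℝ)) * ((((Int.cast (-4) : ℝ) * n10) +
    ((Int.cast (2) : ℝ) * n20)) - ((Int.cast (3) : ℝ) * n30))) := hc0.trans (by push_cast <;> ring)
  replace hc1 : c1 = ((((Int.cast (1) : ℝ) / (Nat.cast 8 : ℝ)) * (((((Int.cast (-4) : ℝ) * n11) +
    ((Int.cast (2) : ℝ) * n21)) - ((Int.cast (3) : ℝ) * n31)) + ((Int.cast (3) : ℝ) * n30))) -
    (((Int.cast (1) : ℝ) / (Nat.cast 8 : ℝ)) * (A3 * ((((Int.cast (8) : ℝ) * n10) + ((Int.cast (8) :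
    ℝ) * n20)) - ((Int.cast (6) : ℝ) * n30))))) := hc1.trans (by push_cast <;> ring)
  replace hA4 : A4 = ((((Int.cast (1) : ℝ) / (Nat.cast 1080 : ℝ)) * (((((Int.cast (4) : ℝ) -
    ((Int.cast (57) : ℝ) * F)) - ((Int.cast (6) : ℝ) * D)) + (F * ((((Int.cast (156) : ℝ) * F) +
    ((Int.cast (102) : ℝ) * D)) - (F * (((Int.cast (103) : ℝ) * F) + ((Int.cast (312) : ℝ) * D))))))
    - ((D * D) * (((Int.cast (60) : ℝ) + ((Int.cast (480) : ℝ) * F)) + ((Int.cast (320) : ℝ) *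
    D))))) * (H * H)) := hA4.trans (by push_cast <;> ring)
  replace hJa : Ja = (A2 * (((Int.cast (-14) : ℝ) * j1) - ((Int.cast (2) : ℝ) * q1))) := hJa.trans
    (by push_cast <;> ring)
  replace hLa : La = ((A4 * (((Int.cast (108) : ℝ) * j1) + ((Int.cast (12) : ℝ) * q1))) + (A2 *
    (((((((Int.cast (27) : ℝ) * j2) - ((Int.cast (27) : ℝ) * j1)) + ((Int.cast (9) : ℝ) * q2)) +
    ((Int.cast (3) : ℝ) * r2)) - c0) - n10))) := hLa.trans (by push_cast <;> ring)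
  replace hJb : Jb = (A2 * (((((Int.cast (-14) : ℝ) * j1) - ((Int.cast (2) : ℝ) * q1)) + ((Int.cast
    (2) : ℝ) * c0)) + ((Int.cast (2) : ℝ) * n10))) := hJb.trans (by push_cast <;> ring)
  replace hLb : Lb = ((A4 * ((((((Int.cast (108) : ℝ) * j1) + ((Int.cast (12) : ℝ) * q1)) +
    ((Int.cast (4) : ℝ) * c0)) + ((Int.cast (8) : ℝ) * n10)) + ((Int.cast (8) : ℝ) * n20))) + (A2 *
    (((((((((Int.cast (27) : ℝ) * j2) - ((Int.cast (27) : ℝ) * j1)) + ((Int.cast (9) : ℝ) * q2)) +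
    ((Int.cast (3) : ℝ) * r2)) - ((Int.cast (3) : ℝ) * c0)) - ((Int.cast (3) : ℝ) * n10)) +
    ((Int.cast (4) : ℝ) * c1)) + ((Int.cast (4) : ℝ) * n11)))) := hLb.trans (by push_cast <;> ring)
  replace hw : w = ((((Int.cast (1) : ℝ) + D) * x) - D) := hw.trans (by push_cast <;> ring)
  replace hP : P = (((Int.cast (1) : ℝ) + D) * (x * x)) := hP.trans (by push_cast <;> ring)
  replace hQ : Q = (((Int.cast (1) : ℝ) + ((Int.cast (2) : ℝ) * D)) * x) := hQ.trans (by push_cast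
    <;> ring)
  replace hyi : yi = (Real.exp ((Int.cast (-1) : ℝ) * (F * t))) := hyi.trans (congrArg Real.exp (by
    push_cast <;> ring))
  replace hW : W = (f1 * w) := hW.trans (by push_cast <;> ring)
  replace hmu : mu = (mMu D F t) := hmu.trans (mMu_0 ..)
  replace hm : m = ((t * mu) * iH) := hm.trans (by push_cast <;> ring)
  replace he : e = (t * m) := he.trans (by push_cast <;> ring)
  replace hX : X = ((Int.cast (1) : ℝ) - e) := hX.trans (by push_cast <;> ring)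
  replace hY : Y = (((Int.cast (1) : ℝ) / (Nat.cast 2 : ℝ)) * (mu * ((x * yi) * (x * yi)))) :=
    hY.trans (by push_cast <;> ring)
  replace hk0a : k0a = (((((((Int.cast (-1) : ℝ) * j2) + j1) - q2) - r2) - c0) + (e * ((((((Int.cast
    (-3) : ℝ) * j3) + ((Int.cast (3) : ℝ) * j2)) - ((Int.cast (3) : ℝ) * q3)) - c1) + (e *
    ((((Int.cast (15) : ℝ) * j3) - n02) + (e * ((Int.cast (-1) : ℝ) * n03))))))) := hk0a.trans (by
    push_cast <;> ring)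
  replace hk0b : k0b = (k0a + (X * (((Int.cast (2) : ℝ) * c1) + (e * (((Int.cast (4) : ℝ) * n02) +
    (e * ((Int.cast (6) : ℝ) * n03))))))) := hk0b.trans (by push_cast <;> ring)
  replace hua : ua = (iF * k0a) := hua.trans (by push_cast <;> ring)
  replace hub : ub = (iF * k0b) := hub.trans (by push_cast <;> ring)
  replace hk4a : k4a = (((Int.cast (16) : ℝ) * j1) + (e * (((Int.cast (16) : ℝ) * j2) + (e *
    ((Int.cast (16) : ℝ) * j3))))) := hk4a.trans (by push_cast <;> ring)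
  replace hk4b : k4b = (k4a + (X * (((Int.cast (2) : ℝ) * n30) + (e * ((Int.cast (2) : ℝ) * n31)))))
    := hk4b.trans (by push_cast <;> ring)
  replace hk3a : k3a = ((((Int.cast (104) : ℝ) * j1) + ((Int.cast (8) : ℝ) * q1)) + (e *
    ((((((Int.cast (112) : ℝ) * j2) - ((Int.cast (112) : ℝ) * j1)) + ((Int.cast (8) : ℝ) * q2)) -
    n30) + (e * (((((((Int.cast (128) : ℝ) * j3) - ((Int.cast (128) : ℝ) * j2)) + ((Int.cast (8) :
    ℝ) * q3)) - n31) + n30) + (e * (((Int.cast (-160) : ℝ) * j3) + n31))))))) := hk3a.trans (by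
    push_cast <;> ring)
  replace hk3b : k3b = (k3a + (X * ((((Int.cast (6) : ℝ) * n30) + ((Int.cast (2) : ℝ) * n20)) + (e *
    (((((Int.cast (8) : ℝ) * n31) - ((Int.cast (8) : ℝ) * n30)) + ((Int.cast (2) : ℝ) * n21)) + (e *
    (((Int.cast (-10) : ℝ) * n31) + ((Int.cast (2) : ℝ) * n22)))))))) := hk3b.trans (by push_cast
    <;> ring)
  replace hk2a : k2a = ((((Int.cast (68) : ℝ) * j1) + ((Int.cast (8) : ℝ) * q1)) + (e *
    (((((((Int.cast (160) : ℝ) * j2) - ((Int.cast (160) : ℝ) * j1)) + ((Int.cast (28) : ℝ) * q2)) +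
    ((Int.cast (4) : ℝ) * r2)) - n20) + (e * ((((((Int.cast (216) : ℝ) * j3) - ((Int.cast (216) : ℝ)
    * j2)) + ((Int.cast (36) : ℝ) * q3)) - n21) + (e * (((Int.cast (-360) : ℝ) * j3) - n22))))))) :=
    hk2a.trans (by push_cast <;> ring)
  replace hk2b : k2b = (k2a + (X * ((((Int.cast (4) : ℝ) * n20) + ((Int.cast (2) : ℝ) * n10)) + (e *
    ((((Int.cast (6) : ℝ) * n21) + ((Int.cast (2) : ℝ) * n11)) + (e * (((Int.cast (8) : ℝ) * n22) +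
    ((Int.cast (2) : ℝ) * n12)))))))) := hk2b.trans (by push_cast <;> ring)
  replace hk1a : k1a = ((((Int.cast (-14) : ℝ) * j1) - ((Int.cast (2) : ℝ) * q1)) + (e *
    (((((((Int.cast (28) : ℝ) * j2) - ((Int.cast (28) : ℝ) * j1)) + ((Int.cast (10) : ℝ) * q2)) +
    ((Int.cast (4) : ℝ) * r2)) - n10) + (e * ((((((Int.cast (48) : ℝ) * j3) - ((Int.cast (48) : ℝ) *
    j2)) + ((Int.cast (18) : ℝ) * q3)) - n11) + (e * (((Int.cast (-120) : ℝ) * j3) - n12))))))) :=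
    hk1a.trans (by push_cast <;> ring)
  replace hk1b : k1b = (k1a + (X * ((((Int.cast (2) : ℝ) * n10) + ((Int.cast (2) : ℝ) * c0)) + (e *
    ((((Int.cast (4) : ℝ) * n11) + ((Int.cast (2) : ℝ) * c1)) + (e * ((((Int.cast (6) : ℝ) * n12) +
    ((Int.cast (2) : ℝ) * n02)) + (e * ((Int.cast (2) : ℝ) * n03))))))))) := hk1b.trans (by
    push_cast <;> ring)
  replace hSa : Sa = ((Ja + (e * (La + (e * (e4 + (e * (e5 + (e * (e6 + (e * e7)))))))))) + ua) :=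
    hSa.trans (by push_cast <;> ring)
  replace hSb : Sb = ((Jb + (e * (Lb + (e * (g4 + (e * (g5 + (e * (g6 + (e * g7)))))))))) + ub) :=
    hSb.trans (by push_cast <;> ring)
  replace hW7 : W7 = (((((W * W) * W) * ((W * W) * W)) * W) * m) := hW7.trans (by push_cast <;>
    ring)
  replace hx4a : x4a = (X * k4a) := hx4a.trans (by push_cast <;> ring)
  replace hza : za = (mK4 F P Q R Y W x4a k3a k2a k1a) := hza.trans (mK4_0 ..)
  replace hx4b : x4b = (X * k4b) := hx4b.trans (by push_cast <;> ring)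
  replace hzb : zb = (mK4 F P Q R Y W x4b k3b k2b k1b) := hzb.trans (mK4_0 ..)
  have e0 : (za + (W7 * (ua - (yi * Sa)))) = za + W7 * (ua - yi * Sa) := by push_cast <;> ring
  have e1 : (zb + (W7 * (ub - (yi * Sb)))) = zb + W7 * (ub - yi * Sb) := by push_cast <;> ring
  subst hF hD haa hab hbb hj1 hj2 hj3 hq1 hq2 hr2 hk hn10 hn11 hn12 hn20 hn21 hn22 hn02 hn03 hn30
    hn31 he4 he5 he6 he7 hg4 hg5 hg6 hg7 hT ht hN hM hiN hiM hH hiH hiF hl2 hq3 hA2 hA3 hc0 hc1 hA4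
    hJa hLa hJb hLb hx hw hP hQ hR hf1 hyi hW hmu hm he hX hY hk0a hk0b hua hub hk4a hk4b hk3a hk3b
    hk2a hk2b hk1a hk1b hSa hSb hW7 hx4a hza hx4b hzb
  dsimp only [outR, prog, prog1, prog2, prog3, prog4, prog5, prog6, prog7, prog8, prog9, prog10,
    prog11, prog12, runR, stepR, gtR]
  exact ⟨e0, e1⟩

theorem l0 : ((-140737488355328 : ℤ) : ℝ) / 2 ^ 47 = -1 := by norm_num
theorem u0 : (1 : ℝ) = ((140737488355328 : ℤ) : ℝ) / 2 ^ 47 := by norm_num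
theorem l1 : ((-140737488355328 : ℤ) : ℝ) / 2 ^ 47 = -1 := by norm_num
theorem u1 : (1 : ℝ) = ((140737488355328 : ℤ) : ℝ) / 2 ^ 47 := by norm_num
theorem l2 : ((0 : ℤ) : ℝ) / 2 ^ 47 = 0 := by norm_num
theorem u2 : (1 : ℝ) = ((140737488355328 : ℤ) : ℝ) / 2 ^ 47 := by norm_num

theorem out0 (V2 : ∀ a b : ℝ, -1 ≤ a → a ≤ 1 → -1 ≤ b → b ≤ 1 → (fun r ↦ outR prog 0 [a, b, r])
    =O[nhdsWithin 0 (Set.Ioi 0)] fun r : ℝ ↦ r ^ 4) {a b r : ℝ} (a0 : -1 ≤ a) (b0 : a ≤ 1) (a1 : -1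
    ≤ b) (b1 : b ≤ 1) (a2 : 0 ≤ r) (b2 : r ≤ 1) (p2 : 0 < r) : 0 < outR prog 0 [a, b, r] :=
  gd 0 (by decide) [a, b, r] (.cons ⟨l0.le.trans a0, b0.trans u0.le⟩ (.cons ⟨l1.le.trans a1,
    b1.trans u1.le⟩ (.cons ⟨l2.le.trans a2, b2.trans u2.le⟩ (.nil)))) ⟨nofun, nofun, fun _ ↦ p2,
    trivial⟩ (List.forall_mem_nil _) (⟨fun _ ↦ allB_iff.2 fun _ _ ↦ trivial, fun y0 a0 b0 ↦ ⟨fun _ ↦
    allB_iff.2 fun _ _ ↦ trivial, fun y1 a1 b1 ↦ ⟨fun _ ↦ V2 y0 y1 (l0.ge.trans a0) (b0.trans u0.ge)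
    (l1.ge.trans a1) (b1.trans u1.ge), fun _ _ _ ↦ trivial⟩⟩⟩) (nofun)

theorem out1 (V2 : ∀ a b : ℝ, -1 ≤ a → a ≤ 1 → -1 ≤ b → b ≤ 1 → (fun r ↦ outR prog 1 [a, b, r])
    =O[nhdsWithin 0 (Set.Ioi 0)] fun r : ℝ ↦ r ^ 4) {a b r : ℝ} (a0 : -1 ≤ a) (b0 : a ≤ 1) (a1 : -1
    ≤ b) (b1 : b ≤ 1) (a2 : 0 ≤ r) (b2 : r ≤ 1) (p2 : 0 < r) : 0 < outR prog 1 [a, b, r] :=
  gd 1 (by decide) [a, b, r] (.cons ⟨l0.le.trans a0, b0.trans u0.le⟩ (.cons ⟨l1.le.trans a1,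
    b1.trans u1.le⟩ (.cons ⟨l2.le.trans a2, b2.trans u2.le⟩ (.nil)))) ⟨nofun, nofun, fun _ ↦ p2,
    trivial⟩ (List.forall_mem_nil _) (⟨fun _ ↦ allB_iff.2 fun _ _ ↦ trivial, fun y0 a0 b0 ↦ ⟨fun _ ↦
    allB_iff.2 fun _ _ ↦ trivial, fun y1 a1 b1 ↦ ⟨fun _ ↦ V2 y0 y1 (l0.ge.trans a0) (b0.trans u0.ge)
    (l1.ge.trans a1) (b1.trans u1.ge), fun _ _ _ ↦ trivial⟩⟩⟩) (nofun)

end Pool.Agent.Lib.MP_d6150d_an.S10Br
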