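import Pool.Agent.Lib.MP_d6150d_an.S10BtD

/-! A generated chart: the computations. -/

namespace Pool.Agent.Lib.MP_d6150d_an.S10Bt

theorem q2 :
    chk C 0x990 [(0, 140737488355328), (35184372088832, 70368744177664), (0, 70368744177664), (0,
    140737488355328)] = true ∧
    chk C 0x9 [(0, 70368744177664), (0, 35184372088832), (70368744177664, 105553116266496), (0,
    70368744177664)] = true ∧
    chk C 0x891 [(0, 70368744177664), (0, 35184372088832), (105553116266496, 140737488355328), (0,
    35184372088832)] = true ∧
    chk C 0x880 [(0, 70368744177664), (0, 17592186044416), (105553116266496, 140737488355328),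
    (35184372088832, 70368744177664)] = true ∧
    chk C 0x8 [(0, 70368744177664), (17592186044416, 35184372088832), (105553116266496,
    140737488355328), (35184372088832, 70368744177664)] = true ∧
    chk C 0x9 [(70368744177664, 140737488355328), (0, 35184372088832), (70368744177664,
    105553116266496), (0, 70368744177664)] = true ∧
    chk C 0x9 [(70368744177664, 140737488355328), (0, 17592186044416), (105553116266496,
    123145302310912), (0, 35184372088832)] = true ∧
    chk C 0x9 [(70368744177664, 140737488355328), (0, 17592186044416), (123145302310912,
    131941395333120), (0, 35184372088832)] = true ∧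
    chk C 0x9 [(70368744177664, 87960930222080), (0, 17592186044416), (131941395333120,
    140737488355328), (0, 35184372088832)] = true ∧
    chk C 0x990 [(87960930222080, 105553116266496), (0, 17592186044416), (131941395333120,
    140737488355328), (0, 35184372088832)] = true ∧
    chk C 0x891 [(105553116266496, 140737488355328), (0, 17592186044416), (131941395333120,
    140737488355328), (0, 17592186044416)] = true ∧
    chk C 0x881 [(105553116266496, 140737488355328), (0, 17592186044416), (131941395333120,
    140737488355328), (17592186044416, 35184372088832)] = true ∧
    chk C 0x8 [(70368744177664, 140737488355328), (17592186044416, 35184372088832),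
    (105553116266496, 140737488355328), (0, 35184372088832)] = true ∧
    chk C 0x881 [(70368744177664, 140737488355328), (0, 17592186044416), (105553116266496,
    140737488355328), (35184372088832, 70368744177664)] = true ∧
    chk C 0x8 [(70368744177664, 140737488355328), (17592186044416, 35184372088832),
    (105553116266496, 140737488355328), (35184372088832, 70368744177664)] = true ∧
    chk C 0x881 [(0, 140737488355328), (0, 17592186044416), (70368744177664, 140737488355328),
    (70368744177664, 140737488355328)] = true ∧
    chk C 0x8 [(0, 140737488355328), (17592186044416, 35184372088832), (70368744177664,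
    140737488355328), (70368744177664, 140737488355328)] = true ∧
    chk C 0x880 [(0, 140737488355328), (35184372088832, 70368744177664), (70368744177664,
    140737488355328), (0, 70368744177664)] = true ∧
    chk C 0x8 [(0, 140737488355328), (35184372088832, 70368744177664), (70368744177664,
    140737488355328), (70368744177664, 140737488355328)] = true ∧
    chk C 0x8 [(0, 140737488355328), (70368744177664, 140737488355328), (0, 140737488355328), (0,
    140737488355328)] = true := by
  refine ⟨?_, ?_, ?_, ?_, ?_, ?_, ?_, ?_, ?_, ?_, ?_, ?_, ?_, ?_, ?_, ?_, ?_, ?_, ?_, ?_⟩ <;> decide
    +kernel

end Pool.Agent.Lib.MP_d6150d_an.S10Bt
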