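import Pool.Agent.Lib.MP_d6150d_an.S10y
import Pool.Agent.Lib.MP_d6150d_an.S10Br
import Pool.Agent.Lib.MP_d6150d_an.S10Bl
import Pool.Agent.Lib.MP_d6150d_an.S10Bm
import Pool.Agent.Lib.MP_d6150d_an.S10Bt
import Pool.Agent.Lib.MP_d6150d_an.S10Be
import Pool.Agent.Lib.MP_d6150d_an.S10Bg

/-! The strip near `F = 4 / 3`: one cell. -/

namespace Pool.Agent.Lib.MP_d6150d_an.S10B

open Real Set S10

set_option linter.unusedVariables false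

noncomputable def FF (b : ℝ) : ℝ := 4 / 3 + b / 32

noncomputable def DD (a b : ℝ) : ℝ := -103 / 96 + (-1 / 64) * b + a * (19 / 96 + 1 / 64 * b)

noncomputable def TT (a b : ℝ) : ℝ := 967 / 1000 + (-129 / 2500) * b + a * (-711 / 5000 + 213 / 5000
    * a + 1 / 500 * b)

noncomputable def cf (a b : ℝ) : Cf := ⟨1644 - 531 * a - 1077 * b, 1439 + 2344 * a - 103 * b, -441 -
    469 * a - 83 * b, -32908 + 2430 * a + 16727 * b, 25916 - 15809 * a - 16805 * b, -99999 - 17074 *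
    a + 52258 * b, 1090 + 20 * a + 528 * b, -80605 + 99981 * a + 99997 * b, 36391 + 47592 * a +
    99994 * b, -76479 + 94591 * a - 99994 * b, 57722 - 38975 * a - 57675 * b, 99861 + 70414 * a -
    76554 * b, -83396 - 70528 * a + 99995 * b, 21359 - 54107 * a + 89159 * b, -1244 - 15357 * a -
    1371 * b, -87027 - 99988 * a + 1937 * b, 8332 + 12407 * a + 37731 * b, -15438 + 18791 * a -
    19269 * b + 5913 * (a * a) - 4114 * (a * b) + 4251 * (b * b), 63917 + 70900 * a - 1407 * b +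
    52262 * (a * a) + 24884 * (a * b) - 16968 * (b * b), -4687 - 140023 * a + 13356 * b - 191365 *
    (a * a) - 27603 * (a * b) + 25866 * (b * b), 634 + 52899 * a - 6675 * b + 113524 * (a * a) - 231
    * (a * b) - 14783 * (b * b), -199949 + 199877 * a - 81303 * b - 25892 * (a * a) + 20552 * (a *
    b) + 4508 * (b * b), 164258 - 198610 * a + 63118 * b - 116938 * (a * a) - 63392 * (a * b) + 1676
    * (b * b), 88324 + 75305 * a - 81141 * b + 199363 * (a * a) + 62194 * (a * b) - 4457 * (b * b),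
    -28705 - 77499 * a + 43055 * b - 91826 * (a * a) - 22014 * (a * b) + 1475 * (b * b)⟩

theorem keyr {a b r F D aa ab bb j1 j2 j3 q1 q2 r2 k n10 n11 n12 n20 n21 n22 n02 n03 n30 n31 e4 e5
    e6 e7 g4 g5 g6 g7 T t N M iN iM H iH iF l2 q3 A2 A3 c0 c1 A4 Ja La Jb Lb x w P Q R f1 yi W mu m
    e X Y k0a k0b ua ub k4a k4b k3a k3b k2a k2b k1a k1b Sa Sb W7 x4a za x4b zb : ℝ} (hF : F = 4 / 3
    + b / 32) (hD : D = -103 / 96 + (-1 / 64) * b + a * (19 / 96 + 1 / 64 * b)) (haa : aa = a * a)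
    (hab : ab = a * b) (hbb : bb = b * b) (hj1 : j1 = 1644 - 531 * a - 1077 * b) (hj2 : j2 = 1439 +
    2344 * a - 103 * b) (hj3 : j3 = -441 - 469 * a - 83 * b) (hq1 : q1 = -32908 + 2430 * a + 16727 *
    b) (hq2 : q2 = 25916 - 15809 * a - 16805 * b) (hr2 : r2 = -99999 - 17074 * a + 52258 * b) (hk :
    k = 1090 + 20 * a + 528 * b) (hn10 : n10 = -80605 + 99981 * a + 99997 * b) (hn11 : n11 = 36391 +
    47592 * a + 99994 * b) (hn12 : n12 = -76479 + 94591 * a - 99994 * b) (hn20 : n20 = 57722 - 38975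
    * a - 57675 * b) (hn21 : n21 = 99861 + 70414 * a - 76554 * b) (hn22 : n22 = -83396 - 70528 * a +
    99995 * b) (hn02 : n02 = 21359 - 54107 * a + 89159 * b) (hn03 : n03 = -1244 - 15357 * a - 1371 *
    b) (hn30 : n30 = -87027 - 99988 * a + 1937 * b) (hn31 : n31 = 8332 + 12407 * a + 37731 * b) (he4
    : e4 = -15438 + 18791 * a - 19269 * b + 5913 * aa - 4114 * ab + 4251 * bb) (he5 : e5 = 63917 +
    70900 * a - 1407 * b + 52262 * aa + 24884 * ab - 16968 * bb) (he6 : e6 = -4687 - 140023 * a +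
    13356 * b - 191365 * aa - 27603 * ab + 25866 * bb) (he7 : e7 = 634 + 52899 * a - 6675 * b +
    113524 * aa - 231 * ab - 14783 * bb) (hg4 : g4 = -199949 + 199877 * a - 81303 * b - 25892 * aa +
    20552 * ab + 4508 * bb) (hg5 : g5 = 164258 - 198610 * a + 63118 * b - 116938 * aa - 63392 * ab +
    1676 * bb) (hg6 : g6 = 88324 + 75305 * a - 81141 * b + 199363 * aa + 62194 * ab - 4457 * bb)
    (hg7 : g7 = -28705 - 77499 * a + 43055 * b - 91826 * aa - 22014 * ab + 1475 * bb) (hT : T = 967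
    / 1000 + (-129 / 2500) * b + a * (-711 / 5000 + 213 / 5000 * a + 1 / 500 * b)) (ht : t = T * r)
    (hN : N = F * (2 * F - 1) * (F - 1)) (hM : M = F - D - 1) (hiN : iN = N⁻¹) (hiM : iM = M⁻¹) (hH
    : H = M * iN) (hiH : iH = N * iM) (hiF : iF = (2 * F - 1) * (F - 1) * iN) (hl2 : l2 = (4 - 3 *
    F) * (F * (2 * F - 1)) * iN) (hq3 : q3 = l2 * (j1 + j2 + j3 + 4 * k) + (-j1 + 2 * j3 - q1 - q2))
    (hA2 : A2 = (1 - F - 2 * D) / 6 * H) (hA3 : A3 = (1 - D + 10 * D ^ 2 + F * (4 * F + 10 * D - 5))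
    / 36 * H) (hc0 : c0 = ((-4) * n10 + 2 * n20 - 3 * n30) / 8) (hc1 : c1 = ((-4) * n11 + 2 * n21 -
    3 * n31 + 3 * n30) / 8 - A3 * (8 * n10 + 8 * n20 - 6 * n30) / 8) (hA4 : A4 = (4 - 57 * F - 6 * D
    + F * (156 * F + 102 * D - F * (103 * F + 312 * D)) - D ^ 2 * (60 + 480 * F + 320 * D)) / 1080 *
    H ^ 2) (hJa : Ja = A2 * ((-14) * j1 - 2 * q1)) (hLa : La = A4 * (108 * j1 + 12 * q1) + A2 * (27
    * j2 - 27 * j1 + 9 * q2 + 3 * r2 - c0 - n10)) (hJb : Jb = A2 * ((-14) * j1 - 2 * q1 + 2 * c0 + 2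
    * n10)) (hLb : Lb = A4 * (108 * j1 + 12 * q1 + 4 * c0 + 8 * n10 + 8 * n20) + A2 * (27 * j2 - 27
    * j1 + 9 * q2 + 3 * r2 - 3 * c0 - 3 * n10 + 4 * c1 + 4 * n11)) (hx : x = Real.exp t) (hw : w =
    (1 + D) * x - D) (hP : P = (1 + D) * x ^ 2) (hQ : Q = (1 + 2 * D) * x) (hR : R = D) (hf1 : f1 =
    ph1 t) (hyi : yi = Real.exp (-(F * t))) (hW : W = f1 * w) (hmu : mu = muR D F t) (hm : m = t *
    mu * iH) (he : e = t * m) (hX : X = 1 - e) (hY : Y = mu * (x * yi) ^ 2 / 2) (hk0a : k0a = -j2 +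
    j1 - q2 - r2 - c0 + e * ((-3) * j3 + 3 * j2 - 3 * q3 - c1 + e * (15 * j3 - n02 + e * (-n03))))
    (hk0b : k0b = k0a + X * (2 * c1 + e * (4 * n02 + e * (6 * n03)))) (hua : ua = iF * k0a) (hub :
    ub = iF * k0b) (hk4a : k4a = 16 * j1 + e * (16 * j2 + e * (16 * j3))) (hk4b : k4b = k4a + X * (2
    * n30 + e * (2 * n31))) (hk3a : k3a = 104 * j1 + 8 * q1 + e * (112 * j2 - 112 * j1 + 8 * q2 -
    n30 + e * (128 * j3 - 128 * j2 + 8 * q3 - n31 + n30 + e * ((-160) * j3 + n31)))) (hk3b : k3b =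
    k3a + X * (6 * n30 + 2 * n20 + e * (8 * n31 - 8 * n30 + 2 * n21 + e * ((-10) * n31 + 2 * n22))))
    (hk2a : k2a = 68 * j1 + 8 * q1 + e * (160 * j2 - 160 * j1 + 28 * q2 + 4 * r2 - n20 + e * (216 *
    j3 - 216 * j2 + 36 * q3 - n21 + e * ((-360) * j3 - n22)))) (hk2b : k2b = k2a + X * (4 * n20 + 2
    * n10 + e * (6 * n21 + 2 * n11 + e * (8 * n22 + 2 * n12)))) (hk1a : k1a = (-14) * j1 - 2 * q1 +
    e * (28 * j2 - 28 * j1 + 10 * q2 + 4 * r2 - n10 + e * (48 * j3 - 48 * j2 + 18 * q3 - n11 + e *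
    ((-120) * j3 - n12)))) (hk1b : k1b = k1a + X * (2 * n10 + 2 * c0 + e * (4 * n11 + 2 * c1 + e *
    (6 * n12 + 2 * n02 + e * (2 * n03))))) (hSa : Sa = Ja + e * (La + e * (e4 + e * (e5 + e * (e6 +
    e * e7)))) + ua) (hSb : Sb = Jb + e * (Lb + e * (g4 + e * (g5 + e * (g6 + e * g7)))) + ub) (hW7
    : W7 = W ^ 7 * m) (hx4a : x4a = X * k4a) (hza : za = x4a * (Y ^ 4 * (pjR F P Q R).2.2) + k3a *
    (Y ^ 3 * (pjR F P Q R).2.1 * W ^ 2) + k2a * (Y ^ 2 * (pjR F P Q R).1 * W ^ 4) + k1a * (Y * W ^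
    6)) (hx4b : x4b = X * k4b) (hzb : zb = x4b * (Y ^ 4 * (pjR F P Q R).2.2) + k3b * (Y ^ 3 * (pjR F
    P Q R).2.1 * W ^ 2) + k2b * (Y ^ 2 * (pjR F P Q R).1 * W ^ 4) + k1b * (Y * W ^ 6)) (F1 : 1 < F)
    (D0 : D < 0) (tm : t ∈ JR D) (t0 : t ≠ 0) : Rel D F (outR S10Br.prog 0 [a, b, r]) ((Cf.mk j1 j2
    j3 q1 q2 r2 k n10 n11 n12 n20 n21 n22 n02 n03 n30 n31 e4 e5 e6 e7 g4 g5 g6 g7).da D F t) t ∧ Rel
    D F (outR S10Br.prog 1 [a, b, r]) ((Cf.mk j1 j2 j3 q1 q2 r2 k n10 n11 n12 n20 n21 n22 n02 n03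
    n30 n31 e4 e5 e6 e7 g4 g5 g6 g7).db D F t) t := by
  have E := S10Br.eq hF hD haa hab hbb hj1 hj2 hj3 hq1 hq2 hr2 hk hn10 hn11 hn12 hn20 hn21 hn22 hn02
    hn03 hn30 hn31 he4 he5 he6 he7 hg4 hg5 hg6 hg7 hT ht hN hM hiN hiM hH hiH hiF hl2 hq3 hA2 hA3
    hc0 hc1 hA4 hJa hLa hJb hLb hx hw hP hQ hR hf1 hyi hW hmu hm he hX hY hk0a hk0b hua hub hk4a
    hk4b hk3a hk3b hk2a hk2b hk1a hk1b hSa hSb hW7 hx4a hza hx4b hzb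
  rw [E.1, E.2]
  exact cen F1 D0 ⟨hN, hM, hiN, hiM, hH, hiH, hiF, hl2, hq3, hA2, hA3, hc0, hc1, hA4, hJa, hLa, hJb,
    hLb⟩ ⟨hk0a, hk0b, hua, hub, hk4a, hk4b, hk3a, hk3b, hk2a, hk2b, hk1a, hk1b, hSa, hSb⟩ ⟨hx, hw,
    hP, hQ, hR, hf1, hyi, hW, hmu, hm, he, hX, hY, hW7, hx4a, hza, hx4b, hzb⟩ tm t0

theorem keyl {a b r F D aa ab bb j1 j2 j3 q1 q2 r2 k n10 n11 n12 n20 n21 n22 n02 n03 n30 n31 e4 e5
    e6 e7 g4 g5 g6 g7 T t N M iN iM H iH iF l2 q3 A2 A3 c0 c1 A4 Ja La Jb Lb x w P Q R f1 yi W mu m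
    e X Y k0a k0b ua ub k4a k4b k3a k3b k2a k2b k1a k1b Sa Sb W7 x4a za x4b zb : ℝ} (hF : F = 4 / 3
    + b / 32) (hD : D = -103 / 96 + (-1 / 64) * b + a * (19 / 96 + 1 / 64 * b)) (haa : aa = a * a)
    (hab : ab = a * b) (hbb : bb = b * b) (hj1 : j1 = 1644 - 531 * a - 1077 * b) (hj2 : j2 = 1439 +
    2344 * a - 103 * b) (hj3 : j3 = -441 - 469 * a - 83 * b) (hq1 : q1 = -32908 + 2430 * a + 16727 *
    b) (hq2 : q2 = 25916 - 15809 * a - 16805 * b) (hr2 : r2 = -99999 - 17074 * a + 52258 * b) (hk :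
    k = 1090 + 20 * a + 528 * b) (hn10 : n10 = -80605 + 99981 * a + 99997 * b) (hn11 : n11 = 36391 +
    47592 * a + 99994 * b) (hn12 : n12 = -76479 + 94591 * a - 99994 * b) (hn20 : n20 = 57722 - 38975
    * a - 57675 * b) (hn21 : n21 = 99861 + 70414 * a - 76554 * b) (hn22 : n22 = -83396 - 70528 * a +
    99995 * b) (hn02 : n02 = 21359 - 54107 * a + 89159 * b) (hn03 : n03 = -1244 - 15357 * a - 1371 *
    b) (hn30 : n30 = -87027 - 99988 * a + 1937 * b) (hn31 : n31 = 8332 + 12407 * a + 37731 * b) (he4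
    : e4 = -15438 + 18791 * a - 19269 * b + 5913 * aa - 4114 * ab + 4251 * bb) (he5 : e5 = 63917 +
    70900 * a - 1407 * b + 52262 * aa + 24884 * ab - 16968 * bb) (he6 : e6 = -4687 - 140023 * a +
    13356 * b - 191365 * aa - 27603 * ab + 25866 * bb) (he7 : e7 = 634 + 52899 * a - 6675 * b +
    113524 * aa - 231 * ab - 14783 * bb) (hg4 : g4 = -199949 + 199877 * a - 81303 * b - 25892 * aa +
    20552 * ab + 4508 * bb) (hg5 : g5 = 164258 - 198610 * a + 63118 * b - 116938 * aa - 63392 * ab +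
    1676 * bb) (hg6 : g6 = 88324 + 75305 * a - 81141 * b + 199363 * aa + 62194 * ab - 4457 * bb)
    (hg7 : g7 = -28705 - 77499 * a + 43055 * b - 91826 * aa - 22014 * ab + 1475 * bb) (hT : T = -1)
    (ht : t = T * r) (hN : N = F * (2 * F - 1) * (F - 1)) (hM : M = F - D - 1) (hiN : iN = N⁻¹) (hiM
    : iM = M⁻¹) (hH : H = M * iN) (hiH : iH = N * iM) (hiF : iF = (2 * F - 1) * (F - 1) * iN) (hl2 :
    l2 = (4 - 3 * F) * (F * (2 * F - 1)) * iN) (hq3 : q3 = l2 * (j1 + j2 + j3 + 4 * k) + (-j1 + 2 *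
    j3 - q1 - q2)) (hA2 : A2 = (1 - F - 2 * D) / 6 * H) (hA3 : A3 = (1 - D + 10 * D ^ 2 + F * (4 * F
    + 10 * D - 5)) / 36 * H) (hc0 : c0 = ((-4) * n10 + 2 * n20 - 3 * n30) / 8) (hc1 : c1 = ((-4) *
    n11 + 2 * n21 - 3 * n31 + 3 * n30) / 8 - A3 * (8 * n10 + 8 * n20 - 6 * n30) / 8) (hA4 : A4 = (4
    - 57 * F - 6 * D + F * (156 * F + 102 * D - F * (103 * F + 312 * D)) - D ^ 2 * (60 + 480 * F +
    320 * D)) / 1080 * H ^ 2) (hJa : Ja = A2 * ((-14) * j1 - 2 * q1)) (hLa : La = A4 * (108 * j1 +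
    12 * q1) + A2 * (27 * j2 - 27 * j1 + 9 * q2 + 3 * r2 - c0 - n10)) (hJb : Jb = A2 * ((-14) * j1 -
    2 * q1 + 2 * c0 + 2 * n10)) (hLb : Lb = A4 * (108 * j1 + 12 * q1 + 4 * c0 + 8 * n10 + 8 * n20) +
    A2 * (27 * j2 - 27 * j1 + 9 * q2 + 3 * r2 - 3 * c0 - 3 * n10 + 4 * c1 + 4 * n11)) (hx : x =
    Real.exp t) (hw : w = (1 + D) * x - D) (hP : P = (1 + D) * x ^ 2) (hQ : Q = (1 + 2 * D) * x) (hR
    : R = D) (hf1 : f1 = ph1 t) (hyi : yi = Real.exp (-(F * t))) (hW : W = f1 * w) (hmu : mu = muR D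
    F t) (hm : m = t * mu * iH) (he : e = t * m) (hX : X = 1 - e) (hY : Y = mu * (x * yi) ^ 2 / 2)
    (hk0a : k0a = -j2 + j1 - q2 - r2 - c0 + e * ((-3) * j3 + 3 * j2 - 3 * q3 - c1 + e * (15 * j3 -
    n02 + e * (-n03)))) (hk0b : k0b = k0a + X * (2 * c1 + e * (4 * n02 + e * (6 * n03)))) (hua : ua
    = iF * k0a) (hub : ub = iF * k0b) (hk4a : k4a = 16 * j1 + e * (16 * j2 + e * (16 * j3))) (hk4b :
    k4b = k4a + X * (2 * n30 + e * (2 * n31))) (hk3a : k3a = 104 * j1 + 8 * q1 + e * (112 * j2 - 112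
    * j1 + 8 * q2 - n30 + e * (128 * j3 - 128 * j2 + 8 * q3 - n31 + n30 + e * ((-160) * j3 + n31))))
    (hk3b : k3b = k3a + X * (6 * n30 + 2 * n20 + e * (8 * n31 - 8 * n30 + 2 * n21 + e * ((-10) * n31
    + 2 * n22)))) (hk2a : k2a = 68 * j1 + 8 * q1 + e * (160 * j2 - 160 * j1 + 28 * q2 + 4 * r2 - n20
    + e * (216 * j3 - 216 * j2 + 36 * q3 - n21 + e * ((-360) * j3 - n22)))) (hk2b : k2b = k2a + X *
    (4 * n20 + 2 * n10 + e * (6 * n21 + 2 * n11 + e * (8 * n22 + 2 * n12)))) (hk1a : k1a = (-14) *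
    j1 - 2 * q1 + e * (28 * j2 - 28 * j1 + 10 * q2 + 4 * r2 - n10 + e * (48 * j3 - 48 * j2 + 18 * q3
    - n11 + e * ((-120) * j3 - n12)))) (hk1b : k1b = k1a + X * (2 * n10 + 2 * c0 + e * (4 * n11 + 2
    * c1 + e * (6 * n12 + 2 * n02 + e * (2 * n03))))) (hSa : Sa = Ja + e * (La + e * (e4 + e * (e5 +
    e * (e6 + e * e7)))) + ua) (hSb : Sb = Jb + e * (Lb + e * (g4 + e * (g5 + e * (g6 + e * g7)))) +
    ub) (hW7 : W7 = W ^ 7 * m) (hx4a : x4a = X * k4a) (hza : za = x4a * (Y ^ 4 * (pjR F P Q R).2.2)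
    + k3a * (Y ^ 3 * (pjR F P Q R).2.1 * W ^ 2) + k2a * (Y ^ 2 * (pjR F P Q R).1 * W ^ 4) + k1a * (Y
    * W ^ 6)) (hx4b : x4b = X * k4b) (hzb : zb = x4b * (Y ^ 4 * (pjR F P Q R).2.2) + k3b * (Y ^ 3 *
    (pjR F P Q R).2.1 * W ^ 2) + k2b * (Y ^ 2 * (pjR F P Q R).1 * W ^ 4) + k1b * (Y * W ^ 6)) (F1 :
    1 < F) (D0 : D < 0) (tm : t ∈ JR D) (t0 : t ≠ 0) : Rel D F (outR S10Bl.prog 0 [a, b, r]) ((Cf.mk
    j1 j2 j3 q1 q2 r2 k n10 n11 n12 n20 n21 n22 n02 n03 n30 n31 e4 e5 e6 e7 g4 g5 g6 g7).da D F t) t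
    ∧ Rel D F (outR S10Bl.prog 1 [a, b, r]) ((Cf.mk j1 j2 j3 q1 q2 r2 k n10 n11 n12 n20 n21 n22 n02
    n03 n30 n31 e4 e5 e6 e7 g4 g5 g6 g7).db D F t) t := by
  have E := S10Bl.eq hF hD haa hab hbb hj1 hj2 hj3 hq1 hq2 hr2 hk hn10 hn11 hn12 hn20 hn21 hn22 hn02
    hn03 hn30 hn31 he4 he5 he6 he7 hg4 hg5 hg6 hg7 hT ht hN hM hiN hiM hH hiH hiF hl2 hq3 hA2 hA3
    hc0 hc1 hA4 hJa hLa hJb hLb hx hw hP hQ hR hf1 hyi hW hmu hm he hX hY hk0a hk0b hua hub hk4a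
    hk4b hk3a hk3b hk2a hk2b hk1a hk1b hSa hSb hW7 hx4a hza hx4b hzb
  rw [E.1, E.2]
  exact cen F1 D0 ⟨hN, hM, hiN, hiM, hH, hiH, hiF, hl2, hq3, hA2, hA3, hc0, hc1, hA4, hJa, hLa, hJb,
    hLb⟩ ⟨hk0a, hk0b, hua, hub, hk4a, hk4b, hk3a, hk3b, hk2a, hk2b, hk1a, hk1b, hSa, hSb⟩ ⟨hx, hw,
    hP, hQ, hR, hf1, hyi, hW, hmu, hm, he, hX, hY, hW7, hx4a, hza, hx4b, hzb⟩ tm t0

theorem keym {a b t F D aa ab bb j1 j2 j3 q1 q2 r2 k n10 n11 n12 n20 n21 n22 n02 n03 n30 n31 e4 e5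
    e6 e7 g4 g5 g6 g7 N M iN iM H iH iF l2 q3 A2 A3 c0 c1 A4 Ja La Jb Lb u m z x n P Q W O X e Y k0a
    k0b ua ub k4a k4b k3a k3b k2a k2b k1a k1b Sa Sb zz W7 x4a x2a x1a za x4b x2b x1b zb : ℝ} (hF : F
    = 4 / 3 + b / 32) (hD : D = -103 / 96 + (-1 / 64) * b + a * (19 / 96 + 1 / 64 * b)) (haa : aa =
    a * a) (hab : ab = a * b) (hbb : bb = b * b) (hj1 : j1 = 1644 - 531 * a - 1077 * b) (hj2 : j2 =
    1439 + 2344 * a - 103 * b) (hj3 : j3 = -441 - 469 * a - 83 * b) (hq1 : q1 = -32908 + 2430 * a +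
    16727 * b) (hq2 : q2 = 25916 - 15809 * a - 16805 * b) (hr2 : r2 = -99999 - 17074 * a + 52258 *
    b) (hk : k = 1090 + 20 * a + 528 * b) (hn10 : n10 = -80605 + 99981 * a + 99997 * b) (hn11 : n11
    = 36391 + 47592 * a + 99994 * b) (hn12 : n12 = -76479 + 94591 * a - 99994 * b) (hn20 : n20 =
    57722 - 38975 * a - 57675 * b) (hn21 : n21 = 99861 + 70414 * a - 76554 * b) (hn22 : n22 = -83396
    - 70528 * a + 99995 * b) (hn02 : n02 = 21359 - 54107 * a + 89159 * b) (hn03 : n03 = -1244 -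
    15357 * a - 1371 * b) (hn30 : n30 = -87027 - 99988 * a + 1937 * b) (hn31 : n31 = 8332 + 12407 *
    a + 37731 * b) (he4 : e4 = -15438 + 18791 * a - 19269 * b + 5913 * aa - 4114 * ab + 4251 * bb)
    (he5 : e5 = 63917 + 70900 * a - 1407 * b + 52262 * aa + 24884 * ab - 16968 * bb) (he6 : e6 =
    -4687 - 140023 * a + 13356 * b - 191365 * aa - 27603 * ab + 25866 * bb) (he7 : e7 = 634 + 52899
    * a - 6675 * b + 113524 * aa - 231 * ab - 14783 * bb) (hg4 : g4 = -199949 + 199877 * a - 81303 *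
    b - 25892 * aa + 20552 * ab + 4508 * bb) (hg5 : g5 = 164258 - 198610 * a + 63118 * b - 116938 *
    aa - 63392 * ab + 1676 * bb) (hg6 : g6 = 88324 + 75305 * a - 81141 * b + 199363 * aa + 62194 *
    ab - 4457 * bb) (hg7 : g7 = -28705 - 77499 * a + 43055 * b - 91826 * aa - 22014 * ab + 1475 *
    bb) (hN : N = F * (2 * F - 1) * (F - 1)) (hM : M = F - D - 1) (hiN : iN = N⁻¹) (hiM : iM = M⁻¹)
    (hH : H = M * iN) (hiH : iH = N * iM) (hiF : iF = (2 * F - 1) * (F - 1) * iN) (hl2 : l2 = (4 - 3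
    * F) * (F * (2 * F - 1)) * iN) (hq3 : q3 = l2 * (j1 + j2 + j3 + 4 * k) + (-j1 + 2 * j3 - q1 -
    q2)) (hA2 : A2 = (1 - F - 2 * D) / 6 * H) (hA3 : A3 = (1 - D + 10 * D ^ 2 + F * (4 * F + 10 * D
    - 5)) / 36 * H) (hc0 : c0 = ((-4) * n10 + 2 * n20 - 3 * n30) / 8) (hc1 : c1 = ((-4) * n11 + 2 *
    n21 - 3 * n31 + 3 * n30) / 8 - A3 * (8 * n10 + 8 * n20 - 6 * n30) / 8) (hA4 : A4 = (4 - 57 * F -
    6 * D + F * (156 * F + 102 * D - F * (103 * F + 312 * D)) - D ^ 2 * (60 + 480 * F + 320 * D)) /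
    1080 * H ^ 2) (hJa : Ja = A2 * ((-14) * j1 - 2 * q1)) (hLa : La = A4 * (108 * j1 + 12 * q1) + A2
    * (27 * j2 - 27 * j1 + 9 * q2 + 3 * r2 - c0 - n10)) (hJb : Jb = A2 * ((-14) * j1 - 2 * q1 + 2 *
    c0 + 2 * n10)) (hLb : Lb = A4 * (108 * j1 + 12 * q1 + 4 * c0 + 8 * n10 + 8 * n20) + A2 * (27 *
    j2 - 27 * j1 + 9 * q2 + 3 * r2 - 3 * c0 - 3 * n10 + 4 * c1 + 4 * n11)) (hu : u = Real.exp (t /
    3)) (hm : m = Real.exp ((F - 4 / 3) * t)) (hz : z = (u * m) ^ 2) (hx : x = u ^ 3) (hn : n = m ^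
    3) (hP : P = (1 + D) * x ^ 2) (hQ : Q = (1 + 2 * D) * x) (hW : W = Q - P - D) (hO : O = (2 * (F
    * (F - 1)) * Q - F * (2 * F - 1) * D - (2 * F - 1) * (F - 1) * P) * iM) (hX : X = z * O) (he : e
    = 1 - X) (hY : Y = H * e / 2) (hk0a : k0a = -j2 + j1 - q2 - r2 - c0 + e * ((-3) * j3 + 3 * j2 -
    3 * q3 - c1 + e * (15 * j3 - n02 + e * (-n03)))) (hk0b : k0b = k0a + X * (2 * c1 + e * (4 * n02
    + e * (6 * n03)))) (hua : ua = iF * k0a) (hub : ub = iF * k0b) (hk4a : k4a = 16 * j1 + e * (16 *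
    j2 + e * (16 * j3))) (hk4b : k4b = k4a + X * (2 * n30 + e * (2 * n31))) (hk3a : k3a = 104 * j1 +
    8 * q1 + e * (112 * j2 - 112 * j1 + 8 * q2 - n30 + e * (128 * j3 - 128 * j2 + 8 * q3 - n31 + n30
    + e * ((-160) * j3 + n31)))) (hk3b : k3b = k3a + X * (6 * n30 + 2 * n20 + e * (8 * n31 - 8 * n30
    + 2 * n21 + e * ((-10) * n31 + 2 * n22)))) (hk2a : k2a = 68 * j1 + 8 * q1 + e * (160 * j2 - 160
    * j1 + 28 * q2 + 4 * r2 - n20 + e * (216 * j3 - 216 * j2 + 36 * q3 - n21 + e * ((-360) * j3 -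
    n22)))) (hk2b : k2b = k2a + X * (4 * n20 + 2 * n10 + e * (6 * n21 + 2 * n11 + e * (8 * n22 + 2 *
    n12)))) (hk1a : k1a = (-14) * j1 - 2 * q1 + e * (28 * j2 - 28 * j1 + 10 * q2 + 4 * r2 - n10 + e
    * (48 * j3 - 48 * j2 + 18 * q3 - n11 + e * ((-120) * j3 - n12)))) (hk1b : k1b = k1a + X * (2 *
    n10 + 2 * c0 + e * (4 * n11 + 2 * c1 + e * (6 * n12 + 2 * n02 + e * (2 * n03))))) (hSa : Sa = Ja
    + e * (La + e * (e4 + e * (e5 + e * (e6 + e * e7)))) + ua) (hSb : Sb = Jb + e * (Lb + e * (g4 +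
    e * (g5 + e * (g6 + e * g7)))) + ub) (hzz : zz = z ^ 2) (hW7 : W7 = W ^ 7 * (e * z)) (hx4a : x4a
    = O * k4a) (hx2a : x2a = z * k2a) (hx1a : x1a = zz * k1a) (hza : za = x4a * (Y ^ 4 * (pjR F P Q
    D).2.2) + k3a * (Y ^ 3 * (pjR F P Q D).2.1 * W ^ 2) + x2a * (Y ^ 2 * (pjR F P Q D).1 * W ^ 4) +
    x1a * (Y * W ^ 6)) (hx4b : x4b = O * k4b) (hx2b : x2b = z * k2b) (hx1b : x1b = zz * k1b) (hzb :
    zb = x4b * (Y ^ 4 * (pjR F P Q D).2.2) + k3b * (Y ^ 3 * (pjR F P Q D).2.1 * W ^ 2) + x2b * (Y ^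
    2 * (pjR F P Q D).1 * W ^ 4) + x1b * (Y * W ^ 6)) (F1 : 1 < F) (D0 : D < 0) (a0 : -1 ≤ a) (b0 :
    a ≤ 1) (a1' : -1 ≤ b) (b1 : b ≤ 1) (a2' : -8 ≤ t) (b2 : t ≤ -1) : (Cf.mk j1 j2 j3 q1 q2 r2 k n10
    n11 n12 n20 n21 n22 n02 n03 n30 n31 e4 e5 e6 e7 g4 g5 g6 g7).Pos D F t :=
  mid F1 D0 ⟨hN, hM, hiN, hiM, hH, hiH, hiF, hl2, hq3, hA2, hA3, hc0, hc1, hA4, hJa, hLa, hJb, hLb⟩
    ⟨hk0a, hk0b, hua, hub, hk4a, hk4b, hk3a, hk3b, hk2a, hk2b, hk1a, hk1b, hSa, hSb⟩ ⟨hP, hQ, hW,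
    hO, hX, he, hY, hzz, hW7, hx4a, hx2a, hx1a, hza, hx4b, hx2b, hx1b, hzb⟩ (by linarith) hu hm hz
    hx hn (S10Bm.pos0 hF hD haa hab hbb hj1 hj2 hj3 hq1 hq2 hr2 hk hn10 hn11 hn12 hn20 hn21 hn22
    hn02 hn03 hn30 hn31 he4 he5 he6 he7 hg4 hg5 hg6 hg7 hN hM hiN hiM hH hiH hiF hl2 hq3 hA2 hA3 hc0
    hc1 hA4 hJa hLa hJb hLb hu hm hz hx hn hP hQ hW hO hX he hY hk0a hk0b hua hub hk4a hk4b hk3a
    hk3b hk2a hk2b hk1a hk1b hSa hSb hzz hW7 hx4a hx2a hx1a hza hx4b hx2b hx1b hzb a0 b0 a1' b1 a2'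
    b2) (S10Bm.pos1 hF hD haa hab hbb hj1 hj2 hj3 hq1 hq2 hr2 hk hn10 hn11 hn12 hn20 hn21 hn22 hn02
    hn03 hn30 hn31 he4 he5 he6 he7 hg4 hg5 hg6 hg7 hN hM hiN hiM hH hiH hiF hl2 hq3 hA2 hA3 hc0 hc1
    hA4 hJa hLa hJb hLb hu hm hz hx hn hP hQ hW hO hX he hY hk0a hk0b hua hub hk4a hk4b hk3a hk3b
    hk2a hk2b hk1a hk1b hSa hSb hzz hW7 hx4a hx2a hx1a hza hx4b hx2b hx1b hzb a0 b0 a1' b1 a2' b2)

theorem key0 {a b r s F D aa ab bb j1 j2 j3 q1 q2 r2 k n10 n11 n12 n20 n21 n22 n02 n03 n30 n31 e4 e5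
    e6 e7 g4 g5 g6 g7 T N M iN iM H iH iF l2 q3 A2 A3 c0 c1 A4 Ja La Jb Lb z0 r0 z x P Q W O X e Y
    k0a k0b ua ub k4a k4b k3a k3b k2a k2b k1a k1b Sa Sb zz W7 x4a x2a x1a za x4b x2b x1b zb : ℝ} (hF
    : F = 4 / 3 + b / 32) (hD : D = -103 / 96 + (-1 / 64) * b + a * (19 / 96 + 1 / 64 * b)) (haa :
    aa = a * a) (hab : ab = a * b) (hbb : bb = b * b) (hj1 : j1 = 1644 - 531 * a - 1077 * b) (hj2 :
    j2 = 1439 + 2344 * a - 103 * b) (hj3 : j3 = -441 - 469 * a - 83 * b) (hq1 : q1 = -32908 + 2430 *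
    a + 16727 * b) (hq2 : q2 = 25916 - 15809 * a - 16805 * b) (hr2 : r2 = -99999 - 17074 * a + 52258
    * b) (hk : k = 1090 + 20 * a + 528 * b) (hn10 : n10 = -80605 + 99981 * a + 99997 * b) (hn11 :
    n11 = 36391 + 47592 * a + 99994 * b) (hn12 : n12 = -76479 + 94591 * a - 99994 * b) (hn20 : n20 =
    57722 - 38975 * a - 57675 * b) (hn21 : n21 = 99861 + 70414 * a - 76554 * b) (hn22 : n22 = -83396
    - 70528 * a + 99995 * b) (hn02 : n02 = 21359 - 54107 * a + 89159 * b) (hn03 : n03 = -1244 -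
    15357 * a - 1371 * b) (hn30 : n30 = -87027 - 99988 * a + 1937 * b) (hn31 : n31 = 8332 + 12407 *
    a + 37731 * b) (he4 : e4 = -15438 + 18791 * a - 19269 * b + 5913 * aa - 4114 * ab + 4251 * bb)
    (he5 : e5 = 63917 + 70900 * a - 1407 * b + 52262 * aa + 24884 * ab - 16968 * bb) (he6 : e6 =
    -4687 - 140023 * a + 13356 * b - 191365 * aa - 27603 * ab + 25866 * bb) (he7 : e7 = 634 + 52899
    * a - 6675 * b + 113524 * aa - 231 * ab - 14783 * bb) (hg4 : g4 = -199949 + 199877 * a - 81303 *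
    b - 25892 * aa + 20552 * ab + 4508 * bb) (hg5 : g5 = 164258 - 198610 * a + 63118 * b - 116938 *
    aa - 63392 * ab + 1676 * bb) (hg6 : g6 = 88324 + 75305 * a - 81141 * b + 199363 * aa + 62194 *
    ab - 4457 * bb) (hg7 : g7 = -28705 - 77499 * a + 43055 * b - 91826 * aa - 22014 * ab + 1475 *
    bb) (hT : T = 8) (hN : N = F * (2 * F - 1) * (F - 1)) (hM : M = F - D - 1) (hiN : iN = N⁻¹) (hiM
    : iM = M⁻¹) (hH : H = M * iN) (hiH : iH = N * iM) (hiF : iF = (2 * F - 1) * (F - 1) * iN) (hl2 :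
    l2 = (4 - 3 * F) * (F * (2 * F - 1)) * iN) (hq3 : q3 = l2 * (j1 + j2 + j3 + 4 * k) + (-j1 + 2 *
    j3 - q1 - q2)) (hA2 : A2 = (1 - F - 2 * D) / 6 * H) (hA3 : A3 = (1 - D + 10 * D ^ 2 + F * (4 * F
    + 10 * D - 5)) / 36 * H) (hc0 : c0 = ((-4) * n10 + 2 * n20 - 3 * n30) / 8) (hc1 : c1 = ((-4) *
    n11 + 2 * n21 - 3 * n31 + 3 * n30) / 8 - A3 * (8 * n10 + 8 * n20 - 6 * n30) / 8) (hA4 : A4 = (4
    - 57 * F - 6 * D + F * (156 * F + 102 * D - F * (103 * F + 312 * D)) - D ^ 2 * (60 + 480 * F +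
    320 * D)) / 1080 * H ^ 2) (hJa : Ja = A2 * ((-14) * j1 - 2 * q1)) (hLa : La = A4 * (108 * j1 +
    12 * q1) + A2 * (27 * j2 - 27 * j1 + 9 * q2 + 3 * r2 - c0 - n10)) (hJb : Jb = A2 * ((-14) * j1 -
    2 * q1 + 2 * c0 + 2 * n10)) (hLb : Lb = A4 * (108 * j1 + 12 * q1 + 4 * c0 + 8 * n10 + 8 * n20) +
    A2 * (27 * j2 - 27 * j1 + 9 * q2 + 3 * r2 - 3 * c0 - 3 * n10 + 4 * c1 + 4 * n11)) (hz0 : z0 =
    Real.exp (-(T * (2 * F - 2)))) (hr0 : r0 = Real.exp (-(T * (3 - 2 * F)))) (hz : z = z0 * s) (hx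
    : x = r0 * r * z) (hP : P = (1 + D) * x ^ 2) (hQ : Q = (1 + 2 * D) * x) (hW : W = Q - P - D) (hO
    : O = (2 * (F * (F - 1)) * Q - F * (2 * F - 1) * D - (2 * F - 1) * (F - 1) * P) * iM) (hX : X =
    z * O) (he : e = 1 - X) (hY : Y = H * e / 2) (hk0a : k0a = -j2 + j1 - q2 - r2 - c0 + e * ((-3) *
    j3 + 3 * j2 - 3 * q3 - c1 + e * (15 * j3 - n02 + e * (-n03)))) (hk0b : k0b = k0a + X * (2 * c1 +
    e * (4 * n02 + e * (6 * n03)))) (hua : ua = iF * k0a) (hub : ub = iF * k0b) (hk4a : k4a = 16 *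
    j1 + e * (16 * j2 + e * (16 * j3))) (hk4b : k4b = k4a + X * (2 * n30 + e * (2 * n31))) (hk3a :
    k3a = 104 * j1 + 8 * q1 + e * (112 * j2 - 112 * j1 + 8 * q2 - n30 + e * (128 * j3 - 128 * j2 + 8
    * q3 - n31 + n30 + e * ((-160) * j3 + n31)))) (hk3b : k3b = k3a + X * (6 * n30 + 2 * n20 + e *
    (8 * n31 - 8 * n30 + 2 * n21 + e * ((-10) * n31 + 2 * n22)))) (hk2a : k2a = 68 * j1 + 8 * q1 + e
    * (160 * j2 - 160 * j1 + 28 * q2 + 4 * r2 - n20 + e * (216 * j3 - 216 * j2 + 36 * q3 - n21 + e *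
    ((-360) * j3 - n22)))) (hk2b : k2b = k2a + X * (4 * n20 + 2 * n10 + e * (6 * n21 + 2 * n11 + e *
    (8 * n22 + 2 * n12)))) (hk1a : k1a = (-14) * j1 - 2 * q1 + e * (28 * j2 - 28 * j1 + 10 * q2 + 4
    * r2 - n10 + e * (48 * j3 - 48 * j2 + 18 * q3 - n11 + e * ((-120) * j3 - n12)))) (hk1b : k1b =
    k1a + X * (2 * n10 + 2 * c0 + e * (4 * n11 + 2 * c1 + e * (6 * n12 + 2 * n02 + e * (2 * n03)))))
    (hSa : Sa = Ja + e * (La + e * (e4 + e * (e5 + e * (e6 + e * e7)))) + ua) (hSb : Sb = Jb + e *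
    (Lb + e * (g4 + e * (g5 + e * (g6 + e * g7)))) + ub) (hzz : zz = z ^ 2) (hW7 : W7 = W ^ 7 * (e *
    z)) (hx4a : x4a = O * k4a) (hx2a : x2a = z * k2a) (hx1a : x1a = zz * k1a) (hza : za = x4a * (Y ^
    4 * (pjR F P Q D).2.2) + k3a * (Y ^ 3 * (pjR F P Q D).2.1 * W ^ 2) + x2a * (Y ^ 2 * (pjR F P Q
    D).1 * W ^ 4) + x1a * (Y * W ^ 6)) (hx4b : x4b = O * k4b) (hx2b : x2b = z * k2b) (hx1b : x1b =
    zz * k1b) (hzb : zb = x4b * (Y ^ 4 * (pjR F P Q D).2.2) + k3b * (Y ^ 3 * (pjR F P Q D).2.1 * W ^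
    2) + x2b * (Y ^ 2 * (pjR F P Q D).1 * W ^ 4) + x1b * (Y * W ^ 6)) (F1 : 1 < F) (D0 : D < 0) (F2
    : F ≤ 2) (k0 : 0 < k) (s0 : s = 0) : 0 ≤ outR S10Bt.prog 0 [a, b, r, s] ∧ 0 ≤ outR S10Bt.prog 1
    [a, b, r, s] := by
  have E := S10Bt.eq hF hD haa hab hbb hj1 hj2 hj3 hq1 hq2 hr2 hk hn10 hn11 hn12 hn20 hn21 hn22 hn02
    hn03 hn30 hn31 he4 he5 he6 he7 hg4 hg5 hg6 hg7 hT hN hM hiN hiM hH hiH hiF hl2 hq3 hA2 hA3 hc0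
    hc1 hA4 hJa hLa hJb hLb hz0 hr0 hz hx hP hQ hW hO hX he hY hk0a hk0b hua hub hk4a hk4b hk3a hk3b
    hk2a hk2b hk1a hk1b hSa hSb hzz hW7 hx4a hx2a hx1a hza hx4b hx2b hx1b hzb
  rw [E.1, E.2]
  exact tail0 (c := (Cf.mk j1 j2 j3 q1 q2 r2 k n10 n11 n12 n20 n21 n22 n02 n03 n30 n31 e4 e5 e6 e7
    g4 g5 g6 g7)) F1 D0 ⟨hN, hM, hiN, hiM, hH, hiH, hiF, hl2, hq3, hA2, hA3, hc0, hc1, hA4, hJa,
    hLa, hJb, hLb⟩ ⟨hk0a, hk0b, hua, hub, hk4a, hk4b, hk3a, hk3b, hk2a, hk2b, hk1a, hk1b, hSa, hSb⟩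
    ⟨hP, hQ, hW, hO, hX, he, hY, hzz, hW7, hx4a, hx2a, hx1a, hza, hx4b, hx2b, hx1b, hzb⟩ (s0 ▸ hz)
    hx F2 k0

theorem keyt {t : ℝ} {a b r s F D aa ab bb j1 j2 j3 q1 q2 r2 k n10 n11 n12 n20 n21 n22 n02 n03 n30
    n31 e4 e5 e6 e7 g4 g5 g6 g7 T N M iN iM H iH iF l2 q3 A2 A3 c0 c1 A4 Ja La Jb Lb z0 r0 z x P Q W
    O X e Y k0a k0b ua ub k4a k4b k3a k3b k2a k2b k1a k1b Sa Sb zz W7 x4a x2a x1a za x4b x2b x1b zb
    : ℝ} (hF : F = 4 / 3 + b / 32) (hD : D = -103 / 96 + (-1 / 64) * b + a * (19 / 96 + 1 / 64 * b))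
    (haa : aa = a * a) (hab : ab = a * b) (hbb : bb = b * b) (hj1 : j1 = 1644 - 531 * a - 1077 * b)
    (hj2 : j2 = 1439 + 2344 * a - 103 * b) (hj3 : j3 = -441 - 469 * a - 83 * b) (hq1 : q1 = -32908 +
    2430 * a + 16727 * b) (hq2 : q2 = 25916 - 15809 * a - 16805 * b) (hr2 : r2 = -99999 - 17074 * a
    + 52258 * b) (hk : k = 1090 + 20 * a + 528 * b) (hn10 : n10 = -80605 + 99981 * a + 99997 * b)
    (hn11 : n11 = 36391 + 47592 * a + 99994 * b) (hn12 : n12 = -76479 + 94591 * a - 99994 * b) (hn20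
    : n20 = 57722 - 38975 * a - 57675 * b) (hn21 : n21 = 99861 + 70414 * a - 76554 * b) (hn22 : n22
    = -83396 - 70528 * a + 99995 * b) (hn02 : n02 = 21359 - 54107 * a + 89159 * b) (hn03 : n03 =
    -1244 - 15357 * a - 1371 * b) (hn30 : n30 = -87027 - 99988 * a + 1937 * b) (hn31 : n31 = 8332 +
    12407 * a + 37731 * b) (he4 : e4 = -15438 + 18791 * a - 19269 * b + 5913 * aa - 4114 * ab + 4251
    * bb) (he5 : e5 = 63917 + 70900 * a - 1407 * b + 52262 * aa + 24884 * ab - 16968 * bb) (he6 : e6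
    = -4687 - 140023 * a + 13356 * b - 191365 * aa - 27603 * ab + 25866 * bb) (he7 : e7 = 634 +
    52899 * a - 6675 * b + 113524 * aa - 231 * ab - 14783 * bb) (hg4 : g4 = -199949 + 199877 * a -
    81303 * b - 25892 * aa + 20552 * ab + 4508 * bb) (hg5 : g5 = 164258 - 198610 * a + 63118 * b -
    116938 * aa - 63392 * ab + 1676 * bb) (hg6 : g6 = 88324 + 75305 * a - 81141 * b + 199363 * aa +
    62194 * ab - 4457 * bb) (hg7 : g7 = -28705 - 77499 * a + 43055 * b - 91826 * aa - 22014 * ab +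
    1475 * bb) (hT : T = 8) (hN : N = F * (2 * F - 1) * (F - 1)) (hM : M = F - D - 1) (hiN : iN =
    N⁻¹) (hiM : iM = M⁻¹) (hH : H = M * iN) (hiH : iH = N * iM) (hiF : iF = (2 * F - 1) * (F - 1) *
    iN) (hl2 : l2 = (4 - 3 * F) * (F * (2 * F - 1)) * iN) (hq3 : q3 = l2 * (j1 + j2 + j3 + 4 * k) +
    (-j1 + 2 * j3 - q1 - q2)) (hA2 : A2 = (1 - F - 2 * D) / 6 * H) (hA3 : A3 = (1 - D + 10 * D ^ 2 +
    F * (4 * F + 10 * D - 5)) / 36 * H) (hc0 : c0 = ((-4) * n10 + 2 * n20 - 3 * n30) / 8) (hc1 : c1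
    = ((-4) * n11 + 2 * n21 - 3 * n31 + 3 * n30) / 8 - A3 * (8 * n10 + 8 * n20 - 6 * n30) / 8) (hA4
    : A4 = (4 - 57 * F - 6 * D + F * (156 * F + 102 * D - F * (103 * F + 312 * D)) - D ^ 2 * (60 +
    480 * F + 320 * D)) / 1080 * H ^ 2) (hJa : Ja = A2 * ((-14) * j1 - 2 * q1)) (hLa : La = A4 *
    (108 * j1 + 12 * q1) + A2 * (27 * j2 - 27 * j1 + 9 * q2 + 3 * r2 - c0 - n10)) (hJb : Jb = A2 *
    ((-14) * j1 - 2 * q1 + 2 * c0 + 2 * n10)) (hLb : Lb = A4 * (108 * j1 + 12 * q1 + 4 * c0 + 8 *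
    n10 + 8 * n20) + A2 * (27 * j2 - 27 * j1 + 9 * q2 + 3 * r2 - 3 * c0 - 3 * n10 + 4 * c1 + 4 *
    n11)) (hz0 : z0 = Real.exp (-(T * (2 * F - 2)))) (hr0 : r0 = Real.exp (-(T * (3 - 2 * F)))) (hz
    : z = z0 * s) (hx : x = r0 * r * z) (hP : P = (1 + D) * x ^ 2) (hQ : Q = (1 + 2 * D) * x) (hW :
    W = Q - P - D) (hO : O = (2 * (F * (F - 1)) * Q - F * (2 * F - 1) * D - (2 * F - 1) * (F - 1) *
    P) * iM) (hX : X = z * O) (he : e = 1 - X) (hY : Y = H * e / 2) (hk0a : k0a = -j2 + j1 - q2 - r2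
    - c0 + e * ((-3) * j3 + 3 * j2 - 3 * q3 - c1 + e * (15 * j3 - n02 + e * (-n03)))) (hk0b : k0b =
    k0a + X * (2 * c1 + e * (4 * n02 + e * (6 * n03)))) (hua : ua = iF * k0a) (hub : ub = iF * k0b)
    (hk4a : k4a = 16 * j1 + e * (16 * j2 + e * (16 * j3))) (hk4b : k4b = k4a + X * (2 * n30 + e * (2
    * n31))) (hk3a : k3a = 104 * j1 + 8 * q1 + e * (112 * j2 - 112 * j1 + 8 * q2 - n30 + e * (128 *
    j3 - 128 * j2 + 8 * q3 - n31 + n30 + e * ((-160) * j3 + n31)))) (hk3b : k3b = k3a + X * (6 * n30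
    + 2 * n20 + e * (8 * n31 - 8 * n30 + 2 * n21 + e * ((-10) * n31 + 2 * n22)))) (hk2a : k2a = 68 *
    j1 + 8 * q1 + e * (160 * j2 - 160 * j1 + 28 * q2 + 4 * r2 - n20 + e * (216 * j3 - 216 * j2 + 36
    * q3 - n21 + e * ((-360) * j3 - n22)))) (hk2b : k2b = k2a + X * (4 * n20 + 2 * n10 + e * (6 *
    n21 + 2 * n11 + e * (8 * n22 + 2 * n12)))) (hk1a : k1a = (-14) * j1 - 2 * q1 + e * (28 * j2 - 28
    * j1 + 10 * q2 + 4 * r2 - n10 + e * (48 * j3 - 48 * j2 + 18 * q3 - n11 + e * ((-120) * j3 -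
    n12)))) (hk1b : k1b = k1a + X * (2 * n10 + 2 * c0 + e * (4 * n11 + 2 * c1 + e * (6 * n12 + 2 *
    n02 + e * (2 * n03))))) (hSa : Sa = Ja + e * (La + e * (e4 + e * (e5 + e * (e6 + e * e7)))) +
    ua) (hSb : Sb = Jb + e * (Lb + e * (g4 + e * (g5 + e * (g6 + e * g7)))) + ub) (hzz : zz = z ^ 2)
    (hW7 : W7 = W ^ 7 * (e * z)) (hx4a : x4a = O * k4a) (hx2a : x2a = z * k2a) (hx1a : x1a = zz *
    k1a) (hza : za = x4a * (Y ^ 4 * (pjR F P Q D).2.2) + k3a * (Y ^ 3 * (pjR F P Q D).2.1 * W ^ 2) +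
    x2a * (Y ^ 2 * (pjR F P Q D).1 * W ^ 4) + x1a * (Y * W ^ 6)) (hx4b : x4b = O * k4b) (hx2b : x2b
    = z * k2b) (hx1b : x1b = zz * k1b) (hzb : zb = x4b * (Y ^ 4 * (pjR F P Q D).2.2) + k3b * (Y ^ 3
    * (pjR F P Q D).2.1 * W ^ 2) + x2b * (Y ^ 2 * (pjR F P Q D).1 * W ^ 4) + x1b * (Y * W ^ 6)) (F1
    : 1 < F) (D0 : D < 0) (a0 : -1 ≤ a) (b0 : a ≤ 1) (a1' : -1 ≤ b) (b1 : b ≤ 1) (t0 : t < 0) (er :
    r = exp ((3 - 2 * F) * (t + T))) (es : s = exp ((2 * F - 2) * (t + T))) (r1 : r ≤ 1) (s1 : s ≤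
    1) (g0 : 0 < outR S10Bt.prog 0 [a, b, r, s]) (g1 : 0 < outR S10Bt.prog 1 [a, b, r, s]) : (Cf.mk
    j1 j2 j3 q1 q2 r2 k n10 n11 n12 n20 n21 n22 n02 n03 n30 n31 e4 e5 e6 e7 g4 g5 g6 g7).Pos D F t
    := by
  have E := S10Bt.eq hF hD haa hab hbb hj1 hj2 hj3 hq1 hq2 hr2 hk hn10 hn11 hn12 hn20 hn21 hn22 hn02
    hn03 hn30 hn31 he4 he5 he6 he7 hg4 hg5 hg6 hg7 hT hN hM hiN hiM hH hiH hiF hl2 hq3 hA2 hA3 hc0
    hc1 hA4 hJa hLa hJb hLb hz0 hr0 hz hx hP hQ hW hO hX he hY hk0a hk0b hua hub hk4a hk4b hk3a hk3b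
    hk2a hk2b hk1a hk1b hSa hSb hzz hW7 hx4a hx2a hx1a hza hx4b hx2b hx1b hzb
  have r2 : 0 ≤ r := er ▸ (exp_pos _).le
  have s2 : 0 ≤ s := es ▸ (exp_pos _).le
  exact tail F1 D0 ⟨hN, hM, hiN, hiM, hH, hiH, hiF, hl2, hq3, hA2, hA3, hc0, hc1, hA4, hJa, hLa,
    hJb, hLb⟩ ⟨hk0a, hk0b, hua, hub, hk4a, hk4b, hk3a, hk3b, hk2a, hk2b, hk1a, hk1b, hSa, hSb⟩ ⟨hP,
    hQ, hW, hO, hX, he, hY, hzz, hW7, hx4a, hx2a, hx1a, hza, hx4b, hx2b, hx1b, hzb⟩ t0 hz0 hr0 (es ▸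
    hz) (er ▸ hx) (g0.trans_eq E.1) (g1.trans_eq E.2) (S10Be.pos0 hF hD haa hab hbb hj1 hj2 hj3 hq1
    hq2 hr2 hk hn10 hn11 hn12 hn20 hn21 hn22 hn02 hn03 hn30 hn31 he4 he5 he6 he7 hg4 hg5 hg6 hg7 hT
    hN hM hiN hiM hH hiH hiF hl2 hq3 hA2 hA3 hc0 hc1 hA4 hJa hLa hJb hLb hz0 hr0 hz hx hP hQ hW hO
    hX he hY hk0a hk0b hua hub hk4a hk4b hk3a hk3b hk2a hk2b hk1a hk1b hSa hSb hzz hW7 hx4a hx2a
    hx1a hza hx4b hx2b hx1b hzb a0 b0 a1' b1 r2 r1 s2 s1) (S10Be.pos1 hF hD haa hab hbb hj1 hj2 hj3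
    hq1 hq2 hr2 hk hn10 hn11 hn12 hn20 hn21 hn22 hn02 hn03 hn30 hn31 he4 he5 he6 he7 hg4 hg5 hg6 hg7
    hT hN hM hiN hiM hH hiH hiF hl2 hq3 hA2 hA3 hc0 hc1 hA4 hJa hLa hJb hLb hz0 hr0 hz hx hP hQ hW
    hO hX he hY hk0a hk0b hua hub hk4a hk4b hk3a hk3b hk2a hk2b hk1a hk1b hSa hSb hzz hW7 hx4a hx2a
    hx1a hza hx4b hx2b hx1b hzb a0 b0 a1' b1 r2 r1 s2 s1)

theorem keyg {a b e F D aa ab bb j1 j2 j3 q1 q2 r2 k n10 n11 n12 n20 n21 n22 n02 n03 n30 n31 e4 e5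
    e6 e7 g4 g5 g6 g7 T B N M iN iM H iH iF l2 q3 A2 A3 c0 c1 A4 Ja La Jb Lb x : ℝ} (hF : F = 4 / 3
    + b / 32) (hD : D = -103 / 96 + (-1 / 64) * b + a * (19 / 96 + 1 / 64 * b)) (haa : aa = a * a)
    (hab : ab = a * b) (hbb : bb = b * b) (hj1 : j1 = 1644 - 531 * a - 1077 * b) (hj2 : j2 = 1439 +
    2344 * a - 103 * b) (hj3 : j3 = -441 - 469 * a - 83 * b) (hq1 : q1 = -32908 + 2430 * a + 16727 *
    b) (hq2 : q2 = 25916 - 15809 * a - 16805 * b) (hr2 : r2 = -99999 - 17074 * a + 52258 * b) (hk :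
    k = 1090 + 20 * a + 528 * b) (hn10 : n10 = -80605 + 99981 * a + 99997 * b) (hn11 : n11 = 36391 +
    47592 * a + 99994 * b) (hn12 : n12 = -76479 + 94591 * a - 99994 * b) (hn20 : n20 = 57722 - 38975
    * a - 57675 * b) (hn21 : n21 = 99861 + 70414 * a - 76554 * b) (hn22 : n22 = -83396 - 70528 * a +
    99995 * b) (hn02 : n02 = 21359 - 54107 * a + 89159 * b) (hn03 : n03 = -1244 - 15357 * a - 1371 *
    b) (hn30 : n30 = -87027 - 99988 * a + 1937 * b) (hn31 : n31 = 8332 + 12407 * a + 37731 * b) (he4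
    : e4 = -15438 + 18791 * a - 19269 * b + 5913 * aa - 4114 * ab + 4251 * bb) (he5 : e5 = 63917 +
    70900 * a - 1407 * b + 52262 * aa + 24884 * ab - 16968 * bb) (he6 : e6 = -4687 - 140023 * a +
    13356 * b - 191365 * aa - 27603 * ab + 25866 * bb) (he7 : e7 = 634 + 52899 * a - 6675 * b +
    113524 * aa - 231 * ab - 14783 * bb) (hg4 : g4 = -199949 + 199877 * a - 81303 * b - 25892 * aa +
    20552 * ab + 4508 * bb) (hg5 : g5 = 164258 - 198610 * a + 63118 * b - 116938 * aa - 63392 * ab +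
    1676 * bb) (hg6 : g6 = 88324 + 75305 * a - 81141 * b + 199363 * aa + 62194 * ab - 4457 * bb)
    (hg7 : g7 = -28705 - 77499 * a + 43055 * b - 91826 * aa - 22014 * ab + 1475 * bb) (hT : T = 967
    / 1000 + (-129 / 2500) * b + a * (-711 / 5000 + 213 / 5000 * a + 1 / 500 * b)) (hB : B = 12) (hN
    : N = F * (2 * F - 1) * (F - 1)) (hM : M = F - D - 1) (hiN : iN = N⁻¹) (hiM : iM = M⁻¹) (hH : H
    = M * iN) (hiH : iH = N * iM) (hiF : iF = (2 * F - 1) * (F - 1) * iN) (hl2 : l2 = (4 - 3 * F) *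
    (F * (2 * F - 1)) * iN) (hq3 : q3 = l2 * (j1 + j2 + j3 + 4 * k) + (-j1 + 2 * j3 - q1 - q2)) (hA2
    : A2 = (1 - F - 2 * D) / 6 * H) (hA3 : A3 = (1 - D + 10 * D ^ 2 + F * (4 * F + 10 * D - 5)) / 36
    * H) (hc0 : c0 = ((-4) * n10 + 2 * n20 - 3 * n30) / 8) (hc1 : c1 = ((-4) * n11 + 2 * n21 - 3 *
    n31 + 3 * n30) / 8 - A3 * (8 * n10 + 8 * n20 - 6 * n30) / 8) (hA4 : A4 = (4 - 57 * F - 6 * D + F
    * (156 * F + 102 * D - F * (103 * F + 312 * D)) - D ^ 2 * (60 + 480 * F + 320 * D)) / 1080 * H ^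
    2) (hJa : Ja = A2 * ((-14) * j1 - 2 * q1)) (hLa : La = A4 * (108 * j1 + 12 * q1) + A2 * (27 * j2
    - 27 * j1 + 9 * q2 + 3 * r2 - c0 - n10)) (hJb : Jb = A2 * ((-14) * j1 - 2 * q1 + 2 * c0 + 2 *
    n10)) (hLb : Lb = A4 * (108 * j1 + 12 * q1 + 4 * c0 + 8 * n10 + 8 * n20) + A2 * (27 * j2 - 27 *
    j1 + 9 * q2 + 3 * r2 - 3 * c0 - 3 * n10 + 4 * c1 + 4 * n11)) (hx : x = Real.exp T) {c : Cf} (hc
    : c = (Cf.mk j1 j2 j3 q1 q2 r2 k n10 n11 n12 n20 n21 n22 n02 n03 n30 n31 e4 e5 e6 e7 g4 g5 g6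
    g7)) (F1 : 1 < F) (D0 : D < 0) (a0 : -1 ≤ a) (b0 : a ≤ 1) (a1' : -1 ≤ b) (b1 : b ≤ 1) (e0 : 0 ≤
    e) (e1 : e ≤ 1) : (0 < c.a1 + e * (c.a2 + e * c.a3) ∧ 0 < -(B * (B * ((1 - e) * (c.a1 + e *
    (c.a2 + e * c.a3))) + (c.q1 + e * (c.q2 + e * (c.a3 - c.a2 + c.q3 F - e * (4 * c.a3))))) + (-16
    * c.a1 - 4 * c.q1 + e * (c.r2 + e * (c.q3 F - e * (3 * c.a3)))))) ∧ 0 < c.k ∧ Om D F (exp T) < 0
    := by
  subst hc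
  exact ⟨rng F1 D0 ⟨hN, hM, hiN, hiM, hH, hiH, hiF, hl2, hq3, hA2, hA3, hc0, hc1, hA4, hJa, hLa,
    hJb, hLb⟩ (S10Bg.pos0 hF hD haa hab hbb hj1 hj2 hj3 hq1 hq2 hr2 hk hn10 hn11 hn12 hn20 hn21 hn22
    hn02 hn03 hn30 hn31 he4 he5 he6 he7 hg4 hg5 hg6 hg7 hT hB hN hM hiN hiM hH hiH hiF hl2 hq3 hA2
    hA3 hc0 hc1 hA4 hJa hLa hJb hLb hx a0 b0 a1' b1 e0 e1) (S10Bg.pos1 hF hD haa hab hbb hj1 hj2 hj3
    hq1 hq2 hr2 hk hn10 hn11 hn12 hn20 hn21 hn22 hn02 hn03 hn30 hn31 he4 he5 he6 he7 hg4 hg5 hg6 hg7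
    hT hB hN hM hiN hiM hH hiH hiF hl2 hq3 hA2 hA3 hc0 hc1 hA4 hJa hLa hJb hLb hx a0 b0 a1' b1 e0
    e1), (S10Bg.pos2 hF hD haa hab hbb hj1 hj2 hj3 hq1 hq2 hr2 hk hn10 hn11 hn12 hn20 hn21 hn22 hn02
    hn03 hn30 hn31 he4 he5 he6 he7 hg4 hg5 hg6 hg7 hT hB hN hM hiN hiM hH hiH hiF hl2 hq3 hA2 hA3
    hc0 hc1 hA4 hJa hLa hJb hLb hx a0 b0 a1' b1 e0 e1), rngT F1 hx (S10Bg.pos3 hF hD haa hab hbb hj1
    hj2 hj3 hq1 hq2 hr2 hk hn10 hn11 hn12 hn20 hn21 hn22 hn02 hn03 hn30 hn31 he4 he5 he6 he7 hg4 hg5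
    hg6 hg7 hT hB hN hM hiN hiM hH hiH hiF hl2 hq3 hA2 hA3 hc0 hc1 hA4 hJa hLa hJb hLb hx a0 b0 a1'
    b1 e0 e1)⟩

variable {a b : ℝ}

theorem F1 (h : -1 ≤ b) : 1 < FF b := by rw [FF]; linarith

theorem F2 (h : b ≤ 1) : FF b ≤ 3 / 2 := by rw [FF]; linarith

theorem D0 (a0 : -1 ≤ a) (b0 : a ≤ 1) (a1' : -1 ≤ b) (b1 : b ≤ 1) : DD a b < 0 := by
  rw [DD]; nlinarith [mul_nonneg (sub_nonneg.2 b0) (sub_nonneg.2 a1')]

theorem hg {e : ℝ} (a0 : -1 ≤ a) (b0 : a ≤ 1) (a1' : -1 ≤ b) (b1 : b ≤ 1) (e0 : 0 ≤ e) (e1 : e ≤ 1)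
    : (0 < (cf a b).a1 + e * ((cf a b).a2 + e * (cf a b).a3) ∧ 0 < -(12 * (12 * ((1 - e) * ((cf a
    b).a1 + e * ((cf a b).a2 + e * (cf a b).a3))) + ((cf a b).q1 + e * ((cf a b).q2 + e * ((cf a
    b).a3 - (cf a b).a2 + (cf a b).q3 (FF b) - e * (4 * (cf a b).a3))))) + (-16 * (cf a b).a1 - 4 *
    (cf a b).q1 + e * ((cf a b).r2 + e * ((cf a b).q3 (FF b) - e * (3 * (cf a b).a3)))))) ∧ 0 < (cf
    a b).k ∧ Om (DD a b) (FF b) (exp (TT a b)) < 0 :=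
  keyg (D := DD a b) (F := FF b) (T := TT a b) rfl rfl rfl rfl rfl rfl rfl rfl rfl rfl rfl rfl rfl
    rfl rfl rfl rfl rfl rfl rfl rfl rfl rfl rfl rfl rfl rfl rfl rfl rfl rfl rfl rfl rfl rfl rfl rfl
    rfl rfl rfl rfl rfl rfl rfl rfl rfl rfl rfl rfl rfl rfl rfl (F1 a1') (D0 a0 b0 a1' b1) a0 b0 a1'
    b1 e0 e1

theorem hr {r : ℝ} (a0 : -1 ≤ a) (b0 : a ≤ 1) (a1' : -1 ≤ b) (b1 : b ≤ 1) (tm : TT a b * r ∈ JR (DD
    a b)) (t0 : TT a b * r ≠ 0) : Rel (DD a b) (FF b) (outR S10Br.prog 0 [a, b, r]) ((cf a b).da (DD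
    a b) (FF b) (TT a b * r)) (TT a b * r) ∧ Rel (DD a b) (FF b) (outR S10Br.prog 1 [a, b, r]) ((cf
    a b).db (DD a b) (FF b) (TT a b * r)) (TT a b * r) :=
  keyr (D := DD a b) (F := FF b) (T := TT a b) rfl rfl rfl rfl rfl rfl rfl rfl rfl rfl rfl rfl rfl
    rfl rfl rfl rfl rfl rfl rfl rfl rfl rfl rfl rfl rfl rfl rfl rfl rfl rfl rfl rfl rfl rfl rfl rfl
    rfl rfl rfl rfl rfl rfl rfl rfl rfl rfl rfl rfl rfl rfl rfl rfl rfl rfl rfl rfl rfl rfl rfl rfl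
    rfl rfl rfl rfl rfl rfl rfl rfl rfl rfl rfl rfl rfl rfl rfl rfl rfl rfl rfl rfl rfl (F1 a1') (D0
    a0 b0 a1' b1) tm t0

theorem pr {r : ℝ} (a0 : -1 ≤ a) (b0 : a ≤ 1) (a1' : -1 ≤ b) (b1 : b ≤ 1) (r0 : 0 < r) (r1 : r ≤ 1)
    (tm : TT a b * r ∈ JR (DD a b)) (t0 : TT a b * r ≠ 0) : (cf a b).Pos (DD a b) (FF b) (TT a b *
    r) :=
  ⟨(hr a0 b0 a1' b1 tm t0).1.pos (F1 a1') (D0 a0 b0 a1' b1) tm t0 (S10Br.out0 (fun a b a0 b0 a1' b1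
    ↦ Rel.big (F1 a1') (D0 a0 b0 a1' b1) (T_pos (F1 a1') (D0 a0 b0 a1' b1) (hg a0 b0 a1' b1 le_rfl
    zero_le_one).2.2).ne' (big_a (H0_pos (F1 a1') (D0 a0 b0 a1' b1)).ne') fun _ tm t0 ↦ (hr a0 b0
    a1' b1 tm t0).1) a0 b0 a1' b1 r0.le r1 r0), (hr a0 b0 a1' b1 tm t0).2.pos (F1 a1') (D0 a0 b0 a1'
    b1) tm t0 (S10Br.out1 (fun a b a0 b0 a1' b1 ↦ Rel.big (F1 a1') (D0 a0 b0 a1' b1) (T_pos (F1 a1')
    (D0 a0 b0 a1' b1) (hg a0 b0 a1' b1 le_rfl zero_le_one).2.2).ne' (big_b (H0_pos (F1 a1') (D0 a0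
    b0 a1' b1)).ne') fun _ tm t0 ↦ (hr a0 b0 a1' b1 tm t0).2) a0 b0 a1' b1 r0.le r1 r0)⟩

theorem hl {r : ℝ} (a0 : -1 ≤ a) (b0 : a ≤ 1) (a1' : -1 ≤ b) (b1 : b ≤ 1) (tm : -1 * r ∈ JR (DD a
    b)) (t0 : -1 * r ≠ 0) : Rel (DD a b) (FF b) (outR S10Bl.prog 0 [a, b, r]) ((cf a b).da (DD a b)
    (FF b) (-1 * r)) (-1 * r) ∧ Rel (DD a b) (FF b) (outR S10Bl.prog 1 [a, b, r]) ((cf a b).db (DD a
    b) (FF b) (-1 * r)) (-1 * r) :=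
  keyl (D := DD a b) (F := FF b) (T := -1) rfl rfl rfl rfl rfl rfl rfl rfl rfl rfl rfl rfl rfl rfl
    rfl rfl rfl rfl rfl rfl rfl rfl rfl rfl rfl rfl rfl rfl rfl rfl rfl rfl rfl rfl rfl rfl rfl rfl
    rfl rfl rfl rfl rfl rfl rfl rfl rfl rfl rfl rfl rfl rfl rfl rfl rfl rfl rfl rfl rfl rfl rfl rfl
    rfl rfl rfl rfl rfl rfl rfl rfl rfl rfl rfl rfl rfl rfl rfl rfl rfl rfl rfl rfl (F1 a1') (D0 a0
    b0 a1' b1) tm t0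

theorem pl {r : ℝ} (a0 : -1 ≤ a) (b0 : a ≤ 1) (a1' : -1 ≤ b) (b1 : b ≤ 1) (r0 : 0 < r) (r1 : r ≤ 1)
    (tm : -1 * r ∈ JR (DD a b)) (t0 : -1 * r ≠ 0) : (cf a b).Pos (DD a b) (FF b) (-1 * r) :=
  ⟨(hl a0 b0 a1' b1 tm t0).1.pos (F1 a1') (D0 a0 b0 a1' b1) tm t0 (S10Bl.out0 (fun a b a0 b0 a1' b1
    ↦ Rel.big (F1 a1') (D0 a0 b0 a1' b1) (by norm_num) (big_a (H0_pos (F1 a1') (D0 a0 b0 a1'
    b1)).ne') fun _ tm t0 ↦ (hl a0 b0 a1' b1 tm t0).1) a0 b0 a1' b1 r0.le r1 r0), (hl a0 b0 a1' b1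
    tm t0).2.pos (F1 a1') (D0 a0 b0 a1' b1) tm t0 (S10Bl.out1 (fun a b a0 b0 a1' b1 ↦ Rel.big (F1
    a1') (D0 a0 b0 a1' b1) (by norm_num) (big_b (H0_pos (F1 a1') (D0 a0 b0 a1' b1)).ne') fun _ tm t0
    ↦ (hl a0 b0 a1' b1 tm t0).2) a0 b0 a1' b1 r0.le r1 r0)⟩

theorem h0 {r : ℝ} (a0 : -1 ≤ a) (b0 : a ≤ 1) (a1' : -1 ≤ b) (b1 : b ≤ 1) : 0 ≤ outR S10Bt.prog 0
    [a, b, r, 0] ∧ 0 ≤ outR S10Bt.prog 1 [a, b, r, 0] :=
  key0 (D := DD a b) (F := FF b) rfl rfl rfl rfl rfl rfl rfl rfl rfl rfl rfl rfl rfl rfl rfl rfl rfl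
    rfl rfl rfl rfl rfl rfl rfl rfl rfl rfl rfl rfl rfl rfl rfl rfl rfl rfl rfl rfl rfl rfl rfl rfl
    rfl rfl rfl rfl rfl rfl rfl rfl rfl rfl rfl rfl rfl rfl rfl rfl rfl rfl rfl rfl rfl rfl rfl rfl
    rfl rfl rfl rfl rfl rfl rfl rfl rfl rfl rfl rfl rfl rfl rfl rfl rfl rfl rfl (F1 a1') (D0 a0 b0
    a1' b1) ((F2 b1).trans (by norm_num)) (hg a0 b0 a1' b1 le_rfl zero_le_one).2.1 rfl

theorem holds (a0 : -1 ≤ a) (b0 : a ≤ 1) (a1' : -1 ≤ b) (b1 : b ≤ 1) : NoThree (DD a b) (FF b) :=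
  main (c := cf a b) (F1 a1') (D0 a0 b0 a1' b1) (cover (S := 8) (F1 a1') (D0 a0 b0 a1' b1) (F2 b1)
    (hg a0 b0 a1' b1 le_rfl zero_le_one).2.2 (fun _ ↦ pr a0 b0 a1' b1) (fun _ ↦ pl a0 b0 a1' b1)
    (fun t t1 t2 ↦ keym (D := DD a b) (F := FF b) rfl rfl rfl rfl rfl rfl rfl rfl rfl rfl rfl rfl
    rfl rfl rfl rfl rfl rfl rfl rfl rfl rfl rfl rfl rfl rfl rfl rfl rfl rfl rfl rfl rfl rfl rfl rfl
    rfl rfl rfl rfl rfl rfl rfl rfl rfl rfl rfl rfl rfl rfl rfl rfl rfl rfl rfl rfl rfl rfl rfl rfl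
    rfl rfl rfl rfl rfl rfl rfl rfl rfl rfl rfl rfl rfl rfl rfl rfl rfl rfl rfl rfl rfl rfl rfl rfl
    (F1 a1') (D0 a0 b0 a1' b1) a0 b0 a1' b1 t1 t2) fun t t0 r1 s1 ↦ keyt (D := DD a b) (F := FF b)
    (T := 8) rfl rfl rfl rfl rfl rfl rfl rfl rfl rfl rfl rfl rfl rfl rfl rfl rfl rfl rfl rfl rfl rfl
    rfl rfl rfl rfl rfl rfl rfl rfl rfl rfl rfl rfl rfl rfl rfl rfl rfl rfl rfl rfl rfl rfl rfl rfl
    rfl rfl rfl rfl rfl rfl rfl rfl rfl rfl rfl rfl rfl rfl rfl rfl rfl rfl rfl rfl rfl rfl rfl rfl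
    rfl rfl rfl rfl rfl rfl rfl rfl rfl rfl rfl rfl rfl rfl (F1 a1') (D0 a0 b0 a1' b1) a0 b0 a1' b1
    t0 rfl rfl r1 s1 (S10Bt.out0 (fun a b r a0 b0 a1' b1 _ _ ↦ (h0 a0 b0 a1' b1).1) a0 b0 a1' b1
    (exp_pos _).le r1 (exp_pos _).le s1 (exp_pos _)) (S10Bt.out1 (fun a b r a0 b0 a1' b1 _ _ ↦ (h0
    a0 b0 a1' b1).2) a0 b0 a1' b1 (exp_pos _).le r1 (exp_pos _).le s1 (exp_pos _))) fun _ e0 e1 ↦
    (hg a0 b0 a1' b1 e0 e1).1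

end Pool.Agent.Lib.MP_d6150d_an.S10B
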