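import Pool.Agent.Lib.MP_d6150d_an.GMac
import Pool.Agent.Lib.MP_d6150d_an.S10CaK0

/-! A generated chart: the inequality. -/

namespace Pool.Agent.Lib.MP_d6150d_an.S10Ca

set_option linter.unnecessarySeqFocus false
set_option linter.unusedTactic false
set_option linter.unusedVariables false

theorem gd : Gd C [(182518930210816, 192414534860800), (-19791209299968, -8796093022208), (0,
    263882790666240)] := chk_sound k0

set_option maxRecDepth 100000 in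
theorem eq {F m r D iG N ik t x xi o yi mu z P Q R z15 W Y p2 z19 A E : ℝ} (hD : D = m - F) (hiG :
    iG = (F - 1 - D)⁻¹) (hN : N = F * (2 * F - 1) * (F - 1)) (hik : ik = N * iG) (ht : t = r) (hx :
    x = Real.exp (t / 2)) (hxi : xi = Real.exp (-(t / 2))) (ho : o = 1 + D - D * xi ^ 2) (hyi : yi =
    Real.exp (-(F * t))) (hmu : mu = muR D F t) (hz : z = ik * (t ^ 2 * mu)) (hP : P = (1 + D) * x)
    (hQ : Q = (1 + 2 * D) * xi) (hR : R = D * xi ^ 3) (hz15 : z15 = ph1 (t / 2)) (hW : W = z15 * (1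
    + xi) / 2 * o) (hY : Y = mu * yi * yi * x / 2) (hp2 : p2 = (pjR F P Q R).1) (hz19 : z19 =
    (√mu)⁻¹) (hA : A = 4 * Y ^ 2 * p2 + yi * W ^ 3 * mu * z19) (hE : E = yi * W ^ 3 * mu * (15 / 8 *
    (t * z * ik))) : outR prog 0 [F, m, r] = A - E ∧ outR (prog.take 14) 0 [F, m, r] = o := by
  replace hD : D = (m - F) := hD.trans (by push_cast <;> ring)
  replace hiG : iG = ((F - (Int.cast (1) : ℝ)) - D)⁻¹ := hiG.trans (by push_cast <;> ring)
  replace hN : N = ((F * (((Int.cast (2) : ℝ) * F) - (Int.cast (1) : ℝ))) * (F - (Int.cast (1) :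
    ℝ))) := hN.trans (by push_cast <;> ring)
  replace hik : ik = (N * iG) := hik.trans (by push_cast <;> ring)
  replace hx : x = (Real.exp (((Int.cast (1) : ℝ) / (Nat.cast 2 : ℝ)) * t)) := hx.trans (congrArg
    Real.exp (by push_cast <;> ring))
  replace hxi : xi = (Real.exp ((Int.cast (-1) : ℝ) * (((Int.cast (1) : ℝ) / (Nat.cast 2 : ℝ)) *
    t))) := hxi.trans (congrArg Real.exp (by push_cast <;> ring))
  replace ho : o = (((Int.cast (1) : ℝ) + D) - (D * (xi * xi))) := ho.trans (by push_cast <;> ring)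
  replace hyi : yi = (Real.exp ((Int.cast (-1) : ℝ) * (F * t))) := hyi.trans (congrArg Real.exp (by
    push_cast <;> ring))
  replace hmu : mu = (mMu D F t) := hmu.trans (mMu_0 ..)
  replace hz : z = (ik * ((t * t) * mu)) := hz.trans (by push_cast <;> ring)
  replace hP : P = (((Int.cast (1) : ℝ) + D) * x) := hP.trans (by push_cast <;> ring)
  replace hQ : Q = (((Int.cast (1) : ℝ) + ((Int.cast (2) : ℝ) * D)) * xi) := hQ.trans (by push_cast
    <;> ring)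
  replace hR : R = (D * ((xi * xi) * xi)) := hR.trans (by push_cast <;> ring)
  replace hz15 : z15 = (ph1 (((Int.cast (1) : ℝ) / (Nat.cast 2 : ℝ)) * t)) := hz15.trans (congrArg
    ph1 (by push_cast <;> ring))
  replace hW : W = ((((Int.cast (1) : ℝ) / (Nat.cast 2 : ℝ)) * (z15 * ((Int.cast (1) : ℝ) + xi))) *
    o) := hW.trans (by push_cast <;> ring)
  replace hY : Y = (((Int.cast (1) : ℝ) / (Nat.cast 2 : ℝ)) * (((mu * yi) * yi) * x)) := hY.trans
    (by push_cast <;> ring)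
  replace hp2 : p2 = (mPj F P Q R).1 := hp2.trans (mPj_0 ..)
  replace hA : A = ((((Int.cast (4) : ℝ) * (Y * Y)) * p2) + (((yi * ((W * W) * W)) * mu) * z19)) :=
    hA.trans (by push_cast <;> ring)
  replace hE : E = (((yi * ((W * W) * W)) * mu) * (((Int.cast (15) : ℝ) / (Nat.cast 8 : ℝ)) * ((t *
    z) * ik))) := hE.trans (by push_cast <;> ring)
  have e0 : (A - E) = A - E := by push_cast <;> ring
  subst hD hiG hN hik ht hx hxi ho hyi hmu hz hP hQ hR hz15 hW hY hp2 hz19 hA hE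
  exact ⟨Eq.trans rfl e0, rfl⟩

theorem l0 : ((182518930210816 : ℤ) : ℝ) / 2 ^ 47 = 83 / 64 := by norm_num
theorem u0 : (175 / 128 : ℝ) = ((192414534860800 : ℤ) : ℝ) / 2 ^ 47 := by norm_num
theorem l1 : ((-19791209299968 : ℤ) : ℝ) / 2 ^ 47 = -9 / 64 := by norm_num
theorem u1 : (-1 / 16 : ℝ) = ((-8796093022208 : ℤ) : ℝ) / 2 ^ 47 := by norm_num
theorem l2 : ((0 : ℤ) : ℝ) / 2 ^ 47 = 0 := by norm_num
theorem u2 : (15 / 8 : ℝ) = ((263882790666240 : ℤ) : ℝ) / 2 ^ 47 := by norm_num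

theorem out0 (V2 : ∀ F m : ℝ, 83 / 64 ≤ F → F ≤ 175 / 128 → -9 / 64 ≤ m → m ≤ -1 / 16 → (fun r ↦
    outR prog 0 [F, m, r]) =O[nhdsWithin 0 (Set.Ioi 0)] fun r : ℝ ↦ r ^ 2) {F m r : ℝ} (a0 : 83 / 64
    ≤ F) (b0 : F ≤ 175 / 128) (a1 : -9 / 64 ≤ m) (b1 : m ≤ -1 / 16) (a2 : 0 ≤ r) (b2 : r ≤ 15 / 8)
    (p2 : 0 < r) (c0 : 0 ≤ outR (prog.take 14) 0 [F, m, r]) : 0 < outR prog 0 [F, m, r] :=
  gd 0 (by decide) [F, m, r] (.cons ⟨l0.le.trans a0, b0.trans u0.le⟩ (.cons ⟨l1.le.trans a1,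
    b1.trans u1.le⟩ (.cons ⟨l2.le.trans a2, b2.trans u2.le⟩ (.nil)))) ⟨nofun, nofun, fun _ ↦ p2,
    trivial⟩ (List.forall_mem_cons.2 ⟨c0, List.forall_mem_nil _⟩) (⟨fun _ ↦ allB_iff.2 fun _ _ ↦
    trivial, fun y0 a0 b0 ↦ ⟨fun _ ↦ allB_iff.2 fun _ _ ↦ trivial, fun y1 a1 b1 ↦ ⟨fun _ ↦ V2 y0 y1
    (l0.ge.trans a0) (b0.trans u0.ge) (l1.ge.trans a1) (b1.trans u1.ge), fun _ _ _ ↦ trivial⟩⟩⟩)
    (nofun)

end Pool.Agent.Lib.MP_d6150d_an.S10Ca
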