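import Pool.Agent.Lib.MP_d6150d_an.GMac
import Pool.Agent.Lib.MP_d6150d_an.S10CbK0

/-! A generated chart: the inequality. -/

namespace Pool.Agent.Lib.MP_d6150d_an.S10Cb

set_option linter.unnecessarySeqFocus false
set_option linter.unusedTactic false
set_option linter.unusedVariables false

theorem gd : Gd C [(182518930210816, 192414534860800), (-19791209299968, -8796093022208), (0,
    140737488355328)] := chk_sound k0

set_option maxRecDepth 100000 in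
theorem eq {F m r D iG N ik t x xi o yi mu z P Q R z15 W Y p2 z19 A E p3 G : ℝ} (hD : D = m - F)
    (hiG : iG = (F - 1 - D)⁻¹) (hN : N = F * (2 * F - 1) * (F - 1)) (hik : ik = N * iG) (ht : t =
    -r) (hx : x = Real.exp (t / 2)) (hxi : xi = Real.exp (-(t / 2))) (ho : o = 1 + D - D * xi ^ 2)
    (hyi : yi = Real.exp (-(F * t))) (hmu : mu = muR D F t) (hz : z = ik * (t ^ 2 * mu)) (hP : P =
    (1 + D) * x) (hQ : Q = (1 + 2 * D) * xi) (hR : R = D * xi ^ 3) (hz15 : z15 = ph1 (t / 2)) (hW :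
    W = z15 * (1 + xi) / 2 * o) (hY : Y = mu * yi * yi * x / 2) (hp2 : p2 = (pjR F P Q R).1) (hz19 :
    z19 = (√mu)⁻¹) (hA : A = 4 * Y ^ 2 * p2 + yi * W ^ 3 * mu * z19) (hE : E = yi * W ^ 3 * mu * (15
    / 8 * (t * z * ik))) (hp3 : p3 = (pjR F P Q R).2.1) (hG : G = (1 - 15 / 8 * z ^ 2) * A - E) :
    outR prog 0 [F, m, r] = G ∧ outR prog 1 [F, m, r] = W ^ 2 * G + 15 / 8 * z * (1 - z) * (8 * Y ^
    3 * p3 + W ^ 2 * (A + 12 * Y ^ 2 * p2)) := by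
  replace hD : D = (m - F) := hD.trans (by push_cast <;> ring)
  replace hiG : iG = ((F - (Int.cast (1) : ℝ)) - D)⁻¹ := hiG.trans (by push_cast <;> ring)
  replace hN : N = ((F * (((Int.cast (2) : ℝ) * F) - (Int.cast (1) : ℝ))) * (F - (Int.cast (1) :
    ℝ))) := hN.trans (by push_cast <;> ring)
  replace hik : ik = (N * iG) := hik.trans (by push_cast <;> ring)
  replace ht : t = ((Int.cast (-1) : ℝ) * r) := ht.trans (by push_cast <;> ring)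
  replace hx : x = (Real.exp (((Int.cast (1) : ℝ) / (Nat.cast 2 : ℝ)) * t)) := hx.trans (congrArg
    Real.exp (by push_cast <;> ring))
  replace hxi : xi = (Real.exp ((Int.cast (-1) : ℝ) * (((Int.cast (1) : ℝ) / (Nat.cast 2 : ℝ)) *
    t))) := hxi.trans (congrArg Real.exp (by push_cast <;> ring))
  replace ho : o = (((Int.cast (1) : ℝ) + D) - (D * (xi * xi))) := ho.trans (by push_cast <;> ring)
  replace hyi : yi = (Real.exp ((Int.cast (-1) : ℝ) * (F * t))) := hyi.trans (congrArg Real.exp (by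
    push_cast <;> ring))
  replace hmu : mu = (mMu D F t) := hmu.trans (mMu_0 ..)
  replace hz : z = (ik * ((t * t) * mu)) := hz.trans (by push_cast <;> ring)
  replace hP : P = (((Int.cast (1) : ℝ) + D) * x) := hP.trans (by push_cast <;> ring)
  replace hQ : Q = (((Int.cast (1) : ℝ) + ((Int.cast (2) : ℝ) * D)) * xi) := hQ.trans (by push_cast
    <;> ring)
  replace hR : R = (D * ((xi * xi) * xi)) := hR.trans (by push_cast <;> ring)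
  replace hz15 : z15 = (ph1 (((Int.cast (1) : ℝ) / (Nat.cast 2 : ℝ)) * t)) := hz15.trans (congrArg
    ph1 (by push_cast <;> ring))
  replace hW : W = ((((Int.cast (1) : ℝ) / (Nat.cast 2 : ℝ)) * (z15 * ((Int.cast (1) : ℝ) + xi))) *
    o) := hW.trans (by push_cast <;> ring)
  replace hY : Y = (((Int.cast (1) : ℝ) / (Nat.cast 2 : ℝ)) * (((mu * yi) * yi) * x)) := hY.trans
    (by push_cast <;> ring)
  replace hp2 : p2 = (mPj F P Q R).1 := hp2.trans (mPj_0 ..)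
  replace hA : A = ((((Int.cast (4) : ℝ) * (Y * Y)) * p2) + (((yi * ((W * W) * W)) * mu) * z19)) :=
    hA.trans (by push_cast <;> ring)
  replace hE : E = (((yi * ((W * W) * W)) * mu) * (((Int.cast (15) : ℝ) / (Nat.cast 8 : ℝ)) * ((t *
    z) * ik))) := hE.trans (by push_cast <;> ring)
  replace hp3 : p3 = (mPj F P Q R).2.1 := hp3.trans (mPj_1 ..)
  replace hG : G = ((((Int.cast (1) : ℝ) - (((Int.cast (15) : ℝ) / (Nat.cast 8 : ℝ)) * (z * z))) *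
    A) - E) := hG.trans (by push_cast <;> ring)
  have e1 : (((W * W) * G) + (((((Int.cast (15) : ℝ) / (Nat.cast 8 : ℝ)) * z) * ((Int.cast (1) : ℝ)
    - z)) * ((((Int.cast (8) : ℝ) * ((Y * Y) * Y)) * p3) + ((W * W) * (A + (((Int.cast (12) : ℝ) *
    (Y * Y)) * p2)))))) = W ^ 2 * G + 15 / 8 * z * (1 - z) * (8 * Y ^ 3 * p3 + W ^ 2 * (A + 12 * Y ^
    2 * p2)) := by push_cast <;> ring
  subst hD hiG hN hik ht hx hxi ho hyi hmu hz hP hQ hR hz15 hW hY hp2 hz19 hA hE hp3 hG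
  exact ⟨rfl, Eq.trans rfl e1⟩

theorem l0 : ((182518930210816 : ℤ) : ℝ) / 2 ^ 47 = 83 / 64 := by norm_num
theorem u0 : (175 / 128 : ℝ) = ((192414534860800 : ℤ) : ℝ) / 2 ^ 47 := by norm_num
theorem l1 : ((-19791209299968 : ℤ) : ℝ) / 2 ^ 47 = -9 / 64 := by norm_num
theorem u1 : (-1 / 16 : ℝ) = ((-8796093022208 : ℤ) : ℝ) / 2 ^ 47 := by norm_num
theorem l2 : ((0 : ℤ) : ℝ) / 2 ^ 47 = 0 := by norm_num
theorem u2 : (1 : ℝ) = ((140737488355328 : ℤ) : ℝ) / 2 ^ 47 := by norm_num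

theorem out0 (V2 : ∀ F m : ℝ, 83 / 64 ≤ F → F ≤ 175 / 128 → -9 / 64 ≤ m → m ≤ -1 / 16 → (fun r ↦
    outR prog 0 [F, m, r]) =O[nhdsWithin 0 (Set.Ioi 0)] fun r : ℝ ↦ r ^ 2) {F m r : ℝ} (a0 : 83 / 64
    ≤ F) (b0 : F ≤ 175 / 128) (a1 : -9 / 64 ≤ m) (b1 : m ≤ -1 / 16) (a2 : 0 ≤ r) (b2 : r ≤ 1) (p2 :
    0 < r) : 0 < outR prog 0 [F, m, r] :=
  gd 0 (by decide) [F, m, r] (.cons ⟨l0.le.trans a0, b0.trans u0.le⟩ (.cons ⟨l1.le.trans a1,
    b1.trans u1.le⟩ (.cons ⟨l2.le.trans a2, b2.trans u2.le⟩ (.nil)))) ⟨nofun, nofun, fun _ ↦ p2,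
    trivial⟩ (List.forall_mem_nil _) (⟨fun _ ↦ allB_iff.2 fun _ _ ↦ trivial, fun y0 a0 b0 ↦ ⟨fun _ ↦
    allB_iff.2 fun _ _ ↦ trivial, fun y1 a1 b1 ↦ ⟨fun _ ↦ V2 y0 y1 (l0.ge.trans a0) (b0.trans u0.ge)
    (l1.ge.trans a1) (b1.trans u1.ge), fun _ _ _ ↦ trivial⟩⟩⟩) (nofun)

theorem out1 (V2 : ∀ F m : ℝ, 83 / 64 ≤ F → F ≤ 175 / 128 → -9 / 64 ≤ m → m ≤ -1 / 16 → (fun r ↦
    outR prog 1 [F, m, r]) =O[nhdsWithin 0 (Set.Ioi 0)] fun r : ℝ ↦ r ^ 2) {F m r : ℝ} (a0 : 83 / 64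
    ≤ F) (b0 : F ≤ 175 / 128) (a1 : -9 / 64 ≤ m) (b1 : m ≤ -1 / 16) (a2 : 0 ≤ r) (b2 : r ≤ 1) (p2 :
    0 < r) : 0 < outR prog 1 [F, m, r] :=
  gd 1 (by decide) [F, m, r] (.cons ⟨l0.le.trans a0, b0.trans u0.le⟩ (.cons ⟨l1.le.trans a1,
    b1.trans u1.le⟩ (.cons ⟨l2.le.trans a2, b2.trans u2.le⟩ (.nil)))) ⟨nofun, nofun, fun _ ↦ p2,
    trivial⟩ (List.forall_mem_nil _) (⟨fun _ ↦ allB_iff.2 fun _ _ ↦ trivial, fun y0 a0 b0 ↦ ⟨fun _ ↦
    allB_iff.2 fun _ _ ↦ trivial, fun y1 a1 b1 ↦ ⟨fun _ ↦ V2 y0 y1 (l0.ge.trans a0) (b0.trans u0.ge)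
    (l1.ge.trans a1) (b1.trans u1.ge), fun _ _ _ ↦ trivial⟩⟩⟩) (nofun)

end Pool.Agent.Lib.MP_d6150d_an.S10Cb
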