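import Pool.Agent.Lib.MP_d6150d_an.S10CcD

/-! A generated chart: the computations. -/

namespace Pool.Agent.Lib.MP_d6150d_an.S10Cc

theorem k0 : chk C 0x88888802222 [(182518930210816, 192414534860800), (-19791209299968,
    -8796093022208), (70368744177664, 633318697598976)] = true := by
  decide +kernel

end Pool.Agent.Lib.MP_d6150d_an.S10Cc
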