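import Pool.Agent.Lib.MP_d6150d_an.GMac
import Pool.Agent.Lib.MP_d6150d_an.S10CcK0

/-! A generated chart: the inequality. -/

namespace Pool.Agent.Lib.MP_d6150d_an.S10Cc

set_option linter.unnecessarySeqFocus false
set_option linter.unusedTactic false
set_option linter.unusedVariables false

theorem gd : Gd C [(182518930210816, 192414534860800), (-19791209299968, -8796093022208),
    (70368744177664, 633318697598976)] := chk_sound k0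

set_option maxRecDepth 100000 in
theorem eq {F m L D iG N ik t x z7 n z9 p P Q W c p2 p3 z z18 g a b : ℝ} (hD : D = m - F) (hiG : iG
    = (F - 1 - D)⁻¹) (hN : N = F * (2 * F - 1) * (F - 1)) (hik : ik = N * iG) (ht : t = -(L * (2 * F
    - 2)⁻¹)) (hx : x = Real.exp t) (hz7 : z7 = Real.exp ((3 * F - 4) * t)) (hn : n = N * ik ^ 2 *
    z7) (hz9 : z9 = Real.exp (-L)) (hp : p = iG * z9) (hP : P = (1 + D) * x ^ 2) (hQ : Q = (1 + 2 *
    D) * x) (hW : W = Q - P - D) (hc : c = 2 * F * (F - 1) * Q - (2 * F - 1) * ((F - 1) * P + F *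
    D)) (hp2 : p2 = (pjR F P Q D).1) (hp3 : p3 = (pjR F P Q D).2.1) (hz : z = 1 - p * c) (hz18 : z18
    = (√(ik * z))⁻¹) (hg : g = z * z18) (ha : a = 1 - 15 / 8 * z ^ 2) (hb : b = 15 / 8 * z * (1 -
    z)) : outR prog 0 [F, m, L] = z ^ 2 * (N * a * p2) + n * W ^ 3 * (15 / 8 * z ^ 2 + a * g) ∧ outR
    prog 1 [F, m, L] = z ^ 2 * (N * (a + 4 * b) * p2 * W ^ 2 + 15 / 8 * z ^ 2 * c * p3) + n * W ^ 5
    * (15 / 8 * z ^ 2 + (a + b) * g) := by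
  replace hD : D = (m - F) := hD.trans (by push_cast <;> ring)
  replace hiG : iG = ((F - (Int.cast (1) : ℝ)) - D)⁻¹ := hiG.trans (by push_cast <;> ring)
  replace hN : N = ((F * (((Int.cast (2) : ℝ) * F) - (Int.cast (1) : ℝ))) * (F - (Int.cast (1) :
    ℝ))) := hN.trans (by push_cast <;> ring)
  replace hik : ik = (N * iG) := hik.trans (by push_cast <;> ring)
  replace ht : t = ((Int.cast (-1) : ℝ) * (L * (((Int.cast (2) : ℝ) * F) - (Int.cast (2) : ℝ))⁻¹))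
    := ht.trans (by push_cast <;> ring)
  replace hz7 : z7 = (Real.exp ((((Int.cast (3) : ℝ) * F) - (Int.cast (4) : ℝ)) * t)) := hz7.trans
    (congrArg Real.exp (by push_cast <;> ring))
  replace hn : n = ((N * (ik * ik)) * z7) := hn.trans (by push_cast <;> ring)
  replace hz9 : z9 = (Real.exp ((Int.cast (-1) : ℝ) * L)) := hz9.trans (congrArg Real.exp (by
    push_cast <;> ring))
  replace hp : p = (iG * z9) := hp.trans (by push_cast <;> ring)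
  replace hP : P = (((Int.cast (1) : ℝ) + D) * (x * x)) := hP.trans (by push_cast <;> ring)
  replace hQ : Q = (((Int.cast (1) : ℝ) + ((Int.cast (2) : ℝ) * D)) * x) := hQ.trans (by push_cast
    <;> ring)
  replace hW : W = ((Q - P) - D) := hW.trans (by push_cast <;> ring)
  replace hc : c = (((((Int.cast (2) : ℝ) * F) * (F - (Int.cast (1) : ℝ))) * Q) - ((((Int.cast (2) :
    ℝ) * F) - (Int.cast (1) : ℝ)) * (((F - (Int.cast (1) : ℝ)) * P) + (F * D)))) := hc.trans (by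
    push_cast <;> ring)
  replace hp2 : p2 = (mPj F P Q D).1 := hp2.trans (mPj_0 ..)
  replace hp3 : p3 = (mPj F P Q D).2.1 := hp3.trans (mPj_1 ..)
  replace hz : z = ((Int.cast (1) : ℝ) - (p * c)) := hz.trans (by push_cast <;> ring)
  replace hz18 : z18 = (√(ik * z))⁻¹ := hz18.trans (congrArg (fun x : ℝ ↦ (√x)⁻¹) (by push_cast <;>
    ring))
  replace hg : g = (z * z18) := hg.trans (by push_cast <;> ring)
  replace ha : a = ((Int.cast (1) : ℝ) - (((Int.cast (15) : ℝ) / (Nat.cast 8 : ℝ)) * (z * z))) :=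
    ha.trans (by push_cast <;> ring)
  replace hb : b = ((((Int.cast (15) : ℝ) / (Nat.cast 8 : ℝ)) * z) * ((Int.cast (1) : ℝ) - z)) :=
    hb.trans (by push_cast <;> ring)
  have e0 : (((z * z) * ((N * a) * p2)) + ((n * ((W * W) * W)) * ((((Int.cast (15) : ℝ) / (Nat.cast
    8 : ℝ)) * (z * z)) + (a * g)))) = z ^ 2 * (N * a * p2) + n * W ^ 3 * (15 / 8 * z ^ 2 + a * g) :=
    by push_cast <;> ring
  have e1 : (((z * z) * ((((N * (a + ((Int.cast (4) : ℝ) * b))) * p2) * (W * W)) + (((((Int.cast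
    (15) : ℝ) / (Nat.cast 8 : ℝ)) * (z * z)) * c) * p3))) + ((n * (((W * W) * (W * W)) * W)) *
    ((((Int.cast (15) : ℝ) / (Nat.cast 8 : ℝ)) * (z * z)) + ((a + b) * g)))) = z ^ 2 * (N * (a + 4 *
    b) * p2 * W ^ 2 + 15 / 8 * z ^ 2 * c * p3) + n * W ^ 5 * (15 / 8 * z ^ 2 + (a + b) * g) := by
    push_cast <;> ring
  subst hD hiG hN hik ht hx hz7 hn hz9 hp hP hQ hW hc hp2 hp3 hz hz18 hg ha hb
  exact ⟨Eq.trans rfl e0, Eq.trans rfl e1⟩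

theorem l0 : ((182518930210816 : ℤ) : ℝ) / 2 ^ 47 = 83 / 64 := by norm_num
theorem u0 : (175 / 128 : ℝ) = ((192414534860800 : ℤ) : ℝ) / 2 ^ 47 := by norm_num
theorem l1 : ((-19791209299968 : ℤ) : ℝ) / 2 ^ 47 = -9 / 64 := by norm_num
theorem u1 : (-1 / 16 : ℝ) = ((-8796093022208 : ℤ) : ℝ) / 2 ^ 47 := by norm_num
theorem l2 : ((70368744177664 : ℤ) : ℝ) / 2 ^ 47 = 1 / 2 := by norm_num
theorem u2 : (9 / 2 : ℝ) = ((633318697598976 : ℤ) : ℝ) / 2 ^ 47 := by norm_num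

theorem out0 {F m L : ℝ} (a0 : 83 / 64 ≤ F) (b0 : F ≤ 175 / 128) (a1 : -9 / 64 ≤ m) (b1 : m ≤ -1 /
    16) (a2 : 1 / 2 ≤ L) (b2 : L ≤ 9 / 2) : 0 < outR prog 0 [F, m, L] :=
  gd 0 (by decide) [F, m, L] (.cons ⟨l0.le.trans a0, b0.trans u0.le⟩ (.cons ⟨l1.le.trans a1,
    b1.trans u1.le⟩ (.cons ⟨l2.le.trans a2, b2.trans u2.le⟩ (.nil)))) ⟨nofun, nofun, nofun, trivial⟩
    (List.forall_mem_nil _) (Van.of0 rfl) (nofun)

theorem pos0 {F m L D iG N ik t x z7 n z9 p P Q W c p2 p3 z z18 g a b : ℝ} (hD : D = m - F) (hiG :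
    iG = (F - 1 - D)⁻¹) (hN : N = F * (2 * F - 1) * (F - 1)) (hik : ik = N * iG) (ht : t = -(L * (2
    * F - 2)⁻¹)) (hx : x = Real.exp t) (hz7 : z7 = Real.exp ((3 * F - 4) * t)) (hn : n = N * ik ^ 2
    * z7) (hz9 : z9 = Real.exp (-L)) (hp : p = iG * z9) (hP : P = (1 + D) * x ^ 2) (hQ : Q = (1 + 2
    * D) * x) (hW : W = Q - P - D) (hc : c = 2 * F * (F - 1) * Q - (2 * F - 1) * ((F - 1) * P + F *
    D)) (hp2 : p2 = (pjR F P Q D).1) (hp3 : p3 = (pjR F P Q D).2.1) (hz : z = 1 - p * c) (hz18 : z18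
    = (√(ik * z))⁻¹) (hg : g = z * z18) (ha : a = 1 - 15 / 8 * z ^ 2) (hb : b = 15 / 8 * z * (1 -
    z)) (a0 : 83 / 64 ≤ F) (b0 : F ≤ 175 / 128) (a1 : -9 / 64 ≤ m) (b1 : m ≤ -1 / 16) (a2 : 1 / 2 ≤
    L) (b2 : L ≤ 9 / 2) : 0 < z ^ 2 * (N * a * p2) + n * W ^ 3 * (15 / 8 * z ^ 2 + a * g) :=
  have e := eq hD hiG hN hik ht hx hz7 hn hz9 hp hP hQ hW hc hp2 hp3 hz hz18 hg ha hb
  (out0 a0 b0 a1 b1 a2 b2).trans_eq e.1

theorem out1 {F m L : ℝ} (a0 : 83 / 64 ≤ F) (b0 : F ≤ 175 / 128) (a1 : -9 / 64 ≤ m) (b1 : m ≤ -1 /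
    16) (a2 : 1 / 2 ≤ L) (b2 : L ≤ 9 / 2) : 0 < outR prog 1 [F, m, L] :=
  gd 1 (by decide) [F, m, L] (.cons ⟨l0.le.trans a0, b0.trans u0.le⟩ (.cons ⟨l1.le.trans a1,
    b1.trans u1.le⟩ (.cons ⟨l2.le.trans a2, b2.trans u2.le⟩ (.nil)))) ⟨nofun, nofun, nofun, trivial⟩
    (List.forall_mem_nil _) (Van.of0 rfl) (nofun)

theorem pos1 {F m L D iG N ik t x z7 n z9 p P Q W c p2 p3 z z18 g a b : ℝ} (hD : D = m - F) (hiG :
    iG = (F - 1 - D)⁻¹) (hN : N = F * (2 * F - 1) * (F - 1)) (hik : ik = N * iG) (ht : t = -(L * (2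
    * F - 2)⁻¹)) (hx : x = Real.exp t) (hz7 : z7 = Real.exp ((3 * F - 4) * t)) (hn : n = N * ik ^ 2
    * z7) (hz9 : z9 = Real.exp (-L)) (hp : p = iG * z9) (hP : P = (1 + D) * x ^ 2) (hQ : Q = (1 + 2
    * D) * x) (hW : W = Q - P - D) (hc : c = 2 * F * (F - 1) * Q - (2 * F - 1) * ((F - 1) * P + F *
    D)) (hp2 : p2 = (pjR F P Q D).1) (hp3 : p3 = (pjR F P Q D).2.1) (hz : z = 1 - p * c) (hz18 : z18
    = (√(ik * z))⁻¹) (hg : g = z * z18) (ha : a = 1 - 15 / 8 * z ^ 2) (hb : b = 15 / 8 * z * (1 -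
    z)) (a0 : 83 / 64 ≤ F) (b0 : F ≤ 175 / 128) (a1 : -9 / 64 ≤ m) (b1 : m ≤ -1 / 16) (a2 : 1 / 2 ≤
    L) (b2 : L ≤ 9 / 2) : 0 < z ^ 2 * (N * (a + 4 * b) * p2 * W ^ 2 + 15 / 8 * z ^ 2 * c * p3) + n *
    W ^ 5 * (15 / 8 * z ^ 2 + (a + b) * g) :=
  have e := eq hD hiG hN hik ht hx hz7 hn hz9 hp hP hQ hW hc hp2 hp3 hz hz18 hg ha hb
  (out1 a0 b0 a1 b1 a2 b2).trans_eq e.2

end Pool.Agent.Lib.MP_d6150d_an.S10Cc
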