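import Pool.Agent.Lib.MP_d6150d_an.S10CdD

/-! A generated chart: the computations. -/

namespace Pool.Agent.Lib.MP_d6150d_an.S10Cd

theorem k0 : chk C 0x8 [(182518930210816, 192414534860800), (-19791209299968, -8796093022208), (0,
    1563749870615), (0, 1563749870615)] = true := by
  decide +kernel

end Pool.Agent.Lib.MP_d6150d_an.S10Cd
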