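import Pool.Agent.Lib.MP_d6150d_an.S8N
import Pool.Agent.Lib.MP_d6150d_an.S10Ca
import Pool.Agent.Lib.MP_d6150d_an.S10Cb
import Pool.Agent.Lib.MP_d6150d_an.S10Cc
import Pool.Agent.Lib.MP_d6150d_an.S10Cd

/-! The piece `D + F ≤ -1 / 16` of the strip `S10`: the period is monotone. -/

namespace Pool.Agent.Lib.MP_d6150d_an.S10C

open Real Set Filter Topology Asymptotics S8

variable {D F m t : ℝ}

theorem eqa (hD : D = m - F) (r : ℝ) : wS D r ^ 2 * outR S10Ca.prog 0 [F, m, r] =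
    gA D F r 1 0 0 0 (-(15 / 8 * ik D F ^ 2)) ∧
    outR (S10Ca.prog.take 14) 0 [F, m, r] = 1 + D - D * exp (-(r / 2)) ^ 2 := by
  have := S10Ca.eq (r := r) (ik := ik D F) (W := wS D r) (Y := yS D F r) hD rfl rfl rfl rfl rfl rfl
    rfl rfl rfl rfl rfl rfl rfl rfl rfl rfl rfl rfl rfl rfl
  refine ⟨?_, this.2⟩
  rw [this.1]; simp only [gA]; ring

theorem eqb (hD : D = m - F) (r : ℝ) : wS D (-r) ^ 2 * outR S10Cb.prog 0 [F, m, r] =
    gA D F (-r) (1 - 15 / 8 * zz D F (-r) ^ 2) 0 0 0 (-(15 / 8 * ik D F ^ 2)) ∧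
    1 * outR S10Cb.prog 1 [F, m, r] = gA D F (-r)
      (1 - 15 / 8 * zz D F (-r) ^ 2 + 15 / 8 * zz D F (-r) * (1 - zz D F (-r)))
      (15 * ik D F * (1 - zz D F (-r))) (45 / 2 * ik D F * (1 - zz D F (-r))) 0
      (-(15 / 8 * ik D F ^ 2)) := by
  have := S10Cb.eq (r := r) (ik := ik D F) (W := wS D (-r)) (Y := yS D F (-r)) hD rfl rfl rfl rfl rfl
    rfl rfl rfl rfl rfl rfl rfl rfl rfl rfl rfl rfl rfl rfl rfl rfl rfl
  rw [this.1, this.2]; simp only [gA, zz]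
  generalize -r = t
  constructor <;> ring

variable (hD : D = m - F) (f0 : 83 / 64 ≤ F) (f1 : F ≤ 175 / 128) (m0 : -9 / 64 ≤ m)
  (m1 : m ≤ -1 / 16) (ht : t ∈ JR D)
include hD f0 f1 m0 m1 ht

theorem N_right (h0 : 0 < t) : 15 / 8 * ik D F ^ 2 * vR D F t ^ 2 < psi D F t := by
  have h1 : 0 < (1 + D) * exp t - D := ht
  have h2 : t ≤ 15 / 8 := by
    by_contra k
    have k1 := (sum_le_exp_of_nonneg (x := 15 / 8) (by norm_num) 6).trans
      (exp_le_exp.2 (not_le.1 k).le)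
    norm_num [Finset.sum_range_succ, Nat.factorial] at k1
    nlinarith
  have h3 : 0 ≤ 1 + D - D * exp (-(t / 2)) ^ 2 := by
    rw [show exp (-(t / 2)) ^ 2 = exp (-t) by rw [half_sq (-t), neg_div]]
    exact (jr_r ht).le
  have h4 := S10Ca.out0 (fun F m _ _ _ _ ↦ cen_bigO (D := m - F) (F := F) (s := 1)
    (k := fun t ↦ wS (m - F) t ^ 2) one_ne_zero wS_cont wS_zero continuousAt_const
    continuousAt_const continuousAt_const continuousAt_const continuousAt_const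
    fun u ↦ by rw [one_mul]; exact (eqa rfl u).1) f0 f1 m0 m1 h0.le h2 h0
    (h3.trans_eq (eqa hD t).2.symm)
  have h5 := (mul_pos_iff_of_pos_left h0).1 (gA_sign ht h0.ne'
    ((mul_pos (pow_pos (wS_pos ht) 2) h4).trans_eq (eqa hD t).1))
  simp only [HH] at h5
  linarith

theorem N_left (h0 : t < 0) :
    0 < t * HH D F t (1 - 15 / 8 * zz D F t ^ 2) 0 0 0 (-(15 / 8 * ik D F ^ 2)) ∧
    0 < t * HH D F t (1 - 15 / 8 * zz D F t ^ 2 + 15 / 8 * zz D F t * (1 - zz D F t))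
      (15 * ik D F * (1 - zz D F t)) (45 / 2 * ik D F * (1 - zz D F t)) 0
      (-(15 / 8 * ik D F ^ 2)) := by
  rcases le_total (-1) t with k | k
  · obtain ⟨r, rfl⟩ : ∃ r, t = -r := ⟨-t, (neg_neg t).symm⟩
    have r0 : 0 < r := by linarith
    refine ⟨gA_sign ht h0.ne ((mul_pos (pow_pos (wS_pos ht) 2) (S10Cb.out0 (fun F m _ _ _ _ ↦
      cen_bigO (D := m - F) (F := F) (s := -1) (k := fun t ↦ wS (m - F) t ^ 2)
        (b0 := fun t ↦ 1 - 15 / 8 * zz (m - F) F t ^ 2) (by norm_num) wS_cont wS_zero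
        (by have := zz_cont (D := m - F) (F := F); fun_prop) continuousAt_const continuousAt_const
        continuousAt_const continuousAt_const fun u ↦ by rw [neg_one_mul]; exact (eqb rfl u).1)
        f0 f1 m0 m1 r0.le (by linarith) r0)).trans_eq (eqb hD r).1),
      gA_sign ht h0.ne ((mul_pos one_pos (S10Cb.out1 (fun F m _ _ _ _ ↦ ?_)
        f0 f1 m0 m1 r0.le (by linarith) r0)).trans_eq (eqb hD r).2)⟩
    have := zz_cont (D := m - F) (F := F)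
    exact cen_bigO (D := m - F) (F := F) (s := -1) (k := fun _ ↦ 1)
      (b0 := fun t ↦ 1 - 15 / 8 * zz (m - F) F t ^ 2 + 15 / 8 * zz (m - F) F t * (1 - zz (m - F) F t))
      (b3 := fun t ↦ 15 * ik (m - F) F * (1 - zz (m - F) F t))
      (b2 := fun t ↦ 45 / 2 * ik (m - F) F * (1 - zz (m - F) F t)) (by norm_num) continuousAt_const
      one_ne_zero (by fun_prop) (by fun_prop) (by fun_prop) continuousAt_const continuousAt_const
      fun u ↦ by rw [neg_one_mul]; exact (eqb rfl u).2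
  have F1 : 1 < F := by linarith
  have D0 : D < 0 := by linarith
  have i0 := ik_pos F1 D0
  have v0 := vR_pos (F := F) ht h0.ne
  have w0 := W_pos ht h0
  have hz := (z_eq F1 D0 t).symm
  have hg := (sqrt_v i0 v0).symm
  have n0 : 0 < F * (2 * F - 1) * (F - 1) := mul_pos (mul_pos (by linarith) (by linarith))
    (by linarith)
  obtain ⟨W, hW⟩ : ∃ W, W = (1 + 2 * D) * exp t - (1 + D) * exp t ^ 2 - D := ⟨_, rfl⟩
  obtain ⟨p2, hp2⟩ : ∃ p, p = (pjR F ((1 + D) * exp t ^ 2) ((1 + 2 * D) * exp t) D).1 := ⟨_, rfl⟩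
  obtain ⟨p3, hp3⟩ : ∃ p, p = (pjR F ((1 + D) * exp t ^ 2) ((1 + 2 * D) * exp t) D).2.1 := ⟨_, rfl⟩
  obtain ⟨z, hz'⟩ : ∃ z, z = ik D F * vR D F t := ⟨_, rfl⟩
  obtain ⟨n, hn⟩ : ∃ n, n = F * (2 * F - 1) * (F - 1) * ik D F ^ 2 * exp ((3 * F - 4) * t) := ⟨_, rfl⟩
  rw [← hW] at w0
  rw [← hz'] at hz hg
  have key : 0 < z ^ 2 * (F * (2 * F - 1) * (F - 1) * (1 - 15 / 8 * z ^ 2) * p2) +
      n * W ^ 3 * (15 / 8 * z ^ 2 + (1 - 15 / 8 * z ^ 2) * √(vR D F t)) ∧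
      0 < z ^ 2 * (F * (2 * F - 1) * (F - 1) * (1 - 15 / 8 * z ^ 2 + 4 * (15 / 8 * z * (1 - z))) *
        p2 * W ^ 2 + 15 / 8 * z ^ 2 * cc D F t * p3) + n * W ^ 5 *
        (15 / 8 * z ^ 2 + (1 - 15 / 8 * z ^ 2 + 15 / 8 * z * (1 - z)) * √(vR D F t)) := by
    rcases le_total (-((2 * F - 2) * t)) (9 / 2) with l | l
    · have e1 := t_eq F1 t
      have e2 := congrArg exp (neg_neg ((2 * F - 2) * t)).symm
      have l0 : 1 / 2 ≤ -((2 * F - 2) * t) := by nlinarith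
      exact ⟨S10Cc.pos0 (ik := ik D F) (c := cc D F t) hD rfl rfl rfl e1 rfl rfl hn e2 rfl rfl rfl hW
        rfl hp2 hp3 hz rfl hg rfl rfl f0 f1 m0 m1 l0 l, S10Cc.pos1 (ik := ik D F) (c := cc D F t) hD
        rfl rfl rfl e1 rfl rfl hn e2 rfl rfl rfl hW rfl hp2 hp3 hz rfl hg rfl rfl f0 f1 m0 m1 l0 l⟩
    have q1 := exp_tail l
    rw [neg_neg] at q1
    have x1 : exp t ≤ 1 / 90 := (exp_le_exp.2 (by nlinarith)).trans q1
    have x0 := (exp_pos t).le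
    have q0 := (exp_pos ((2 * F - 2) * t)).le
    have g0 := S10Cd.pos0 (ik := ik D F) (c := cc D F t) hD rfl rfl rfl rfl rfl rfl hW rfl hp2 hp3 hz
      rfl hg rfl rfl f0 f1 m0 m1 x0 x1 q0 q1
    have g1 := S10Cd.pos1 (ik := ik D F) (c := cc D F t) hD rfl rfl rfl rfl rfl rfl hW rfl hp2 hp3 hz
      rfl hg rfl rfl f0 f1 m0 m1 x0 x1 q0 q1
    have g2 := S10Cd.pos2 (ik := ik D F) (c := cc D F t) hD rfl rfl rfl rfl rfl rfl hW rfl hp2 hp3 hz
      rfl hg rfl rfl f0 f1 m0 m1 x0 x1 q0 q1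
    have g3 := S10Cd.pos3 (ik := ik D F) (c := cc D F t) hD rfl rfl rfl rfl rfl rfl hW rfl hp2 hp3 hz
      rfl hg rfl rfl f0 f1 m0 m1 x0 x1 q0 q1
    have n1 : 0 < n := by rw [hn]; positivity
    exact ⟨add_pos_of_nonneg_of_pos (mul_nonneg (sq_nonneg z)
      ((mul_pos n0 g0).le.trans_eq (mul_assoc ..).symm)) (by positivity),
      add_pos_of_nonneg_of_pos (mul_nonneg (sq_nonneg z) g1.le) (by positivity)⟩
  have e3 : exp ((3 * F - 4) * t) = exp ((2 * F - 2) * t) * exp ((F - 2) * t) := by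
    rw [← exp_add]; ring_nf
  have q0 := exp_pos ((2 * F - 2) * t)
  have c0 := mul_pos n0 (pow_pos i0 2)
  have e4 : 1 - z = (F - 1 - D)⁻¹ * exp ((2 * F - 2) * t) * cc D F t := by linarith
  have e5 : zz D F t = z := hz'.symm
  rw [e5]
  refine ⟨gL_sign ht h0 ((mul_pos_iff_of_pos_left c0).1 ((mul_pos (mul_pos q0 (pow_pos w0 2))
    key.1).trans_eq ?_)), gL_sign ht h0 ((mul_pos_iff_of_pos_left c0).1
      ((mul_pos q0 key.2).trans_eq ?_))⟩
  · simp only [gL]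
    rw [← hW, ← hp2, hn, e3, hz']; ring
  · simp only [gL]
    rw [← hW, ← hp2, ← hp3, hn, e3, e4, hz']
    generalize cc D F t = c, vR D F t = v
    rw [ik]; ring

omit ht in
theorem N_holds : NoThree D F := by
  have F1 : 1 < F := by linarith
  have D0 : D < 0 := by linarith
  have i0 := ik_pos F1 D0
  have P := (psi_ht (D := D) (F := F)).smul (15 / 8 * ik D F ^ 2)
  refine (Gp.cnt0' (I := univ) fun h _ ⟨c, _, _, _, c0, _, hc, _⟩ ↦ ⟨oN, 1, by simp [oN, Gp.P],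
    by simp [oN, Gp.Q], Gp.Sg2.ps ⟨fun t ↦ 15 / 8 * ik D F ^ 2 * psi D F t, fun _ ↦ 0,
      by simp [psi, U2, gR, yR, vR], fun t ht _ _ ↦ P.an t ht, fun _ _ _ _ ↦ analyticAt_const,
      fun a ha b hb a0 b0 e l ↦ ?_⟩⟩).noThree (fun _ _ ↦ trivial) (by norm_num)
  have h1 := N_right hD f0 f1 m0 m1 hb b0
  obtain ⟨h2, h3⟩ := N_left hD f0 f1 m0 m1 ha a0
  have h4 := z_lt F1 D0 c0
  rw [hc] at h4
  rw [← e] at l h1
  have h5 := mul_pos i0 (sub_pos.2 l)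
  have h6 := add_neg_of_nonpos_of_neg (mul_nonpos_of_nonneg_of_nonpos (sub_pos.2 h4).le
    (neg_of_mul_pos_right h2 a0.le).le) (mul_neg_of_pos_of_neg h5 (neg_of_mul_pos_right h3 a0.le))
  simp only [Gp.KN, P.eq a ha, (HT.const 0).eq b hb, oN_K ha, oN_K hb]
  simp only [HH, show zz D F a = ik D F * vR D F a from rfl] at h6
  refine lt_of_lt_of_le (b := 15 / 8 * ik D F ^ 2 * vR D F a ^ 2) ?_ (by linarith)
  refine lt_of_mul_lt_mul_left (a := 1 - ik D F * vR D F a) ?_ (by linarith)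
  linear_combination h6

end Pool.Agent.Lib.MP_d6150d_an.S10C

namespace Pool.Agent.Lib.MP_d6150d_an

theorem S10C_holds (D F : ℝ) (h1 : |F - 4 / 3| ≤ 1 / 32) (h2 : -23 / 16 ≤ D)
    (h3 : D + F ≤ -1 / 16) : NoThree D F := by
  obtain ⟨f0, f1⟩ := abs_le.1 h1
  exact S10C.N_holds (m := D + F) (by ring) (by linarith) (by linarith) (by linarith) h3

end Pool.Agent.Lib.MP_d6150d_an
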