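import Pool.Agent.Lib.MP_d6150d_an.T10aLD

/-! A generated chart: the computations. -/

namespace Pool.Agent.Lib.MP_d6150d_an.T10aL

theorem k0 : chk C 0x8818088288218818202 [(-26388279066624, -13194139533312), (183068686024704,
    192414534860800), (0, 70368744177664)] = true := by
  decide +kernel

theorem k1 : chk C 0x88180 [(-26388279066624, -13194139533312), (183068686024704, 192414534860800),
    (70368744177664, 140737488355328)] = true := by
  decide +kernel

end Pool.Agent.Lib.MP_d6150d_an.T10aL
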