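import Pool.Agent.Lib.MP_d6150d_an.T10aA
import Pool.Agent.Lib.MP_d6150d_an.T10aLK0

/-! A generated chart: the inequality. -/

namespace Pool.Agent.Lib.MP_d6150d_an.T10aL

set_option linter.unnecessarySeqFocus false
set_option linter.unusedTactic false
set_option linter.unusedVariables false

theorem gd : Gd C [(-26388279066624, -13194139533312), (183068686024704, 192414534860800), (0,
    140737488355328)] := .split 2 (chk_sound k0) (chk_sound k1)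

set_option maxRecDepth 100000 in
theorem eq {D F s t a k x r y p mu i z q P Q R Y k3 k2 k1 o K : ℝ} (ht : t = -s) (ha : a = 8 * ja4 D
    F) (hk : k = F * (2 * F - 1) * (F - 1) * (F - 1 - D)⁻¹) (hx : x = Real.exp (t / 2)) (hr : r =
    Real.exp (-(t / 2))) (hy : y = Real.exp (-(F * t))) (hp : p = ph1 (t / 2)) (hmu : mu = muR D F
    t) (hi : i = (p * (1 + r) / 2 * (1 + D - D * r ^ 2))⁻¹) (hz : z = k * (t ^ 2 * mu)) (hq : q =
    (√mu)⁻¹) (hP : P = (1 + D) * x * i) (hQ : Q = (1 + 2 * D) * r * i) (hR : R = D * r ^ 3 * i) (hY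
    : Y = mu * y * y * x / 2 * i) (hk3 : k3 = 8 * (1 - z) ^ 2) (hk2 : k2 = 4 - 24 * z * (1 - z))
    (hk1 : k1 = 6 * z ^ 2) (ho : o = 1) (hK : K = k3 * (Y ^ 3 * (pjR F P Q R).2.1) + k2 * (Y ^ 2 *
    (pjR F P Q R).1 * o ^ 2) + k1 * (Y * o ^ 4)) : outR prog 0 [D, F, s] = y * (mu * (a * t ^ 3 * mu
    + 2 * q)) - K := by
  replace ht : t = ((Int.cast (-1) : ℝ) * s) := ht.trans (by push_cast <;> ring)
  replace ha : a = (mTA D F) := ha.trans (mTA_0 ..)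
  replace hk : k = (((F * (((Int.cast (2) : ℝ) * F) - (Int.cast (1) : ℝ))) * (F - (Int.cast (1) :
    ℝ))) * ((F - (Int.cast (1) : ℝ)) - D)⁻¹) := hk.trans (by push_cast <;> ring)
  replace hx : x = (Real.exp (((Int.cast (1) : ℝ) / (Nat.cast 2 : ℝ)) * t)) := hx.trans (congrArg
    Real.exp (by push_cast <;> ring))
  replace hr : r = (Real.exp ((Int.cast (-1) : ℝ) * (((Int.cast (1) : ℝ) / (Nat.cast 2 : ℝ)) * t)))
    := hr.trans (congrArg Real.exp (by push_cast <;> ring))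
  replace hy : y = (Real.exp ((Int.cast (-1) : ℝ) * (F * t))) := hy.trans (congrArg Real.exp (by
    push_cast <;> ring))
  replace hp : p = (ph1 (((Int.cast (1) : ℝ) / (Nat.cast 2 : ℝ)) * t)) := hp.trans (congrArg ph1 (by
    push_cast <;> ring))
  replace hmu : mu = (mMu D F t) := hmu.trans (mMu_0 ..)
  replace hi : i = ((((Int.cast (1) : ℝ) / (Nat.cast 2 : ℝ)) * (p * ((Int.cast (1) : ℝ) + r))) *
    (((Int.cast (1) : ℝ) + D) - (D * (r * r))))⁻¹ := hi.trans (by push_cast <;> ring)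
  replace hz : z = (k * ((t * t) * mu)) := hz.trans (by push_cast <;> ring)
  replace hP : P = ((((Int.cast (1) : ℝ) + D) * x) * i) := hP.trans (by push_cast <;> ring)
  replace hQ : Q = ((((Int.cast (1) : ℝ) + ((Int.cast (2) : ℝ) * D)) * r) * i) := hQ.trans (by
    push_cast <;> ring)
  replace hR : R = ((D * ((r * r) * r)) * i) := hR.trans (by push_cast <;> ring)
  replace hY : Y = ((((Int.cast (1) : ℝ) / (Nat.cast 2 : ℝ)) * (((mu * y) * y) * x)) * i) :=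
    hY.trans (by push_cast <;> ring)
  replace hk3 : k3 = ((Int.cast (8) : ℝ) * (((Int.cast (1) : ℝ) - z) * ((Int.cast (1) : ℝ) - z))) :=
    hk3.trans (by push_cast <;> ring)
  replace hk2 : k2 = ((Int.cast (4) : ℝ) - (((Int.cast (24) : ℝ) * z) * ((Int.cast (1) : ℝ) - z)))
    := hk2.trans (by push_cast <;> ring)
  replace hk1 : k1 = ((Int.cast (6) : ℝ) * (z * z)) := hk1.trans (by push_cast <;> ring)
  replace ho : o = (Int.cast (1) : ℝ) := ho.trans (by push_cast <;> ring)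
  replace hK : K = (mK3 F P Q R Y o k3 k2 k1) := hK.trans (mK3_0 ..)
  have e0 : ((y * (mu * (((a * ((t * t) * t)) * mu) + ((Int.cast (2) : ℝ) * q)))) - K) = y * (mu *
    (a * t ^ 3 * mu + 2 * q)) - K := by push_cast <;> ring
  subst ht ha hk hx hr hy hp hmu hi hz hq hP hQ hR hY hk3 hk2 hk1 ho hK
  exact Eq.trans rfl e0

theorem l0 : ((-26388279066624 : ℤ) : ℝ) / 2 ^ 47 = -3 / 16 := by norm_num
theorem u0 : (-3 / 32 : ℝ) = ((-13194139533312 : ℤ) : ℝ) / 2 ^ 47 := by norm_num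
theorem l1 : ((183068686024704 : ℤ) : ℝ) / 2 ^ 47 = 333 / 256 := by norm_num
theorem u1 : (175 / 128 : ℝ) = ((192414534860800 : ℤ) : ℝ) / 2 ^ 47 := by norm_num
theorem l2 : ((0 : ℤ) : ℝ) / 2 ^ 47 = 0 := by norm_num
theorem u2 : (1 : ℝ) = ((140737488355328 : ℤ) : ℝ) / 2 ^ 47 := by norm_num

theorem out0 (V2 : ∀ D F : ℝ, -3 / 16 ≤ D → D ≤ -3 / 32 → 333 / 256 ≤ F → F ≤ 175 / 128 → (fun s ↦
    outR prog 0 [D, F, s]) =O[nhdsWithin 0 (Set.Ioi 0)] fun s : ℝ ↦ s ^ 4) {D F s : ℝ} (a0 : -3 / 16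
    ≤ D) (b0 : D ≤ -3 / 32) (a1 : 333 / 256 ≤ F) (b1 : F ≤ 175 / 128) (a2 : 0 ≤ s) (b2 : s ≤ 1) (p2
    : 0 < s) : 0 < outR prog 0 [D, F, s] :=
  gd 0 (by decide) [D, F, s] (.cons ⟨l0.le.trans a0, b0.trans u0.le⟩ (.cons ⟨l1.le.trans a1,
    b1.trans u1.le⟩ (.cons ⟨l2.le.trans a2, b2.trans u2.le⟩ (.nil)))) ⟨nofun, nofun, fun _ ↦ p2,
    trivial⟩ (List.forall_mem_nil _) (⟨fun _ ↦ allB_iff.2 fun _ _ ↦ trivial, fun y0 a0 b0 ↦ ⟨fun _ ↦
    allB_iff.2 fun _ _ ↦ trivial, fun y1 a1 b1 ↦ ⟨fun _ ↦ V2 y0 y1 (l0.ge.trans a0) (b0.trans u0.ge)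
    (l1.ge.trans a1) (b1.trans u1.ge), fun _ _ _ ↦ trivial⟩⟩⟩) (nofun)

end Pool.Agent.Lib.MP_d6150d_an.T10aL
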