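import Pool.Agent.Lib.MP_d6150d_an.T10aMD

/-! A generated chart: the computations. -/

namespace Pool.Agent.Lib.MP_d6150d_an.T10aM

theorem k0 : chk C 0x8808288028802 [(-26388279066624, -13194139533312), (183068686024704,
    192414534860800), (-562949953421312, -140737488355328)] = true := by
  decide +kernel

end Pool.Agent.Lib.MP_d6150d_an.T10aM
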