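import Pool.Agent.Lib.MP_d6150d_an.T10aA
import Pool.Agent.Lib.MP_d6150d_an.T10aMK0

/-! A generated chart: the inequality. -/

namespace Pool.Agent.Lib.MP_d6150d_an.T10aM

set_option linter.unnecessarySeqFocus false
set_option linter.unusedTactic false
set_option linter.unusedVariables false

theorem gd : Gd C [(-26388279066624, -13194139533312), (183068686024704, 192414534860800),
    (-562949953421312, -140737488355328)] := chk_sound k0

set_option maxRecDepth 100000 in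
theorem eq {D F t s q n a j k c z v i P Q R Y p2 p3 A u B : ℝ} (hs : s = Real.exp t) (hq : q =
    Real.exp ((2 * F - 2) * t)) (hn : n = Real.exp ((4 - 3 * F) * t)) (ha : a = 8 * ja4 D F) (hj : j
    = (F - 1 - D)⁻¹) (hk : k = (F * (2 * F - 1) * (F - 1) * j)⁻¹) (hc : c = j * (2 * F * (F - 1) *
    ((1 + 2 * D) * s) - (2 * F - 1) * ((F - 1) * ((1 + D) * s ^ 2) + F * D))) (hz : z = 1 - q * c)
    (hv : v = z * k) (hi : i = ((1 + 2 * D) * s - (1 + D) * s ^ 2 - D)⁻¹) (hP : P = (1 + D) * s ^ 2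
    * i) (hQ : Q = (1 + 2 * D) * s * i) (hR : R = D * i) (hY : Y = v * i) (hp2 : p2 = (pjR F P Q
    R).1) (hp3 : p3 = (pjR F P Q R).2.1) (hA : A = -(q * ((c * Y) ^ 2 * p3 + 3 * z ^ 2) + (1 - 6 * z
    * (1 - z)) * Y * p2)) (hu : u = (√v)⁻¹) (hB : B = v * (2 * u - a * v)) : outR prog 0 [D, F, t] =
    n * Y * A + B := by
  replace hq : q = (Real.exp ((((Int.cast (2) : ℝ) * F) - (Int.cast (2) : ℝ)) * t)) := hq.trans
    (congrArg Real.exp (by push_cast <;> ring))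
  replace hn : n = (Real.exp (((Int.cast (4) : ℝ) - ((Int.cast (3) : ℝ) * F)) * t)) := hn.trans
    (congrArg Real.exp (by push_cast <;> ring))
  replace ha : a = (mTA D F) := ha.trans (mTA_0 ..)
  replace hj : j = ((F - (Int.cast (1) : ℝ)) - D)⁻¹ := hj.trans (by push_cast <;> ring)
  replace hk : k = (((F * (((Int.cast (2) : ℝ) * F) - (Int.cast (1) : ℝ))) * (F - (Int.cast (1) :
    ℝ))) * j)⁻¹ := hk.trans (by push_cast <;> ring)
  replace hc : c = (j * (((((Int.cast (2) : ℝ) * F) * (F - (Int.cast (1) : ℝ))) * (((Int.cast (1) :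
    ℝ) + ((Int.cast (2) : ℝ) * D)) * s)) - ((((Int.cast (2) : ℝ) * F) - (Int.cast (1) : ℝ)) * (((F -
    (Int.cast (1) : ℝ)) * (((Int.cast (1) : ℝ) + D) * (s * s))) + (F * D))))) := hc.trans (by
    push_cast <;> ring)
  replace hz : z = ((Int.cast (1) : ℝ) - (q * c)) := hz.trans (by push_cast <;> ring)
  replace hv : v = (z * k) := hv.trans (by push_cast <;> ring)
  replace hi : i = (((((Int.cast (1) : ℝ) + ((Int.cast (2) : ℝ) * D)) * s) - (((Int.cast (1) : ℝ) +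
    D) * (s * s))) - D)⁻¹ := hi.trans (by push_cast <;> ring)
  replace hP : P = ((((Int.cast (1) : ℝ) + D) * (s * s)) * i) := hP.trans (by push_cast <;> ring)
  replace hQ : Q = ((((Int.cast (1) : ℝ) + ((Int.cast (2) : ℝ) * D)) * s) * i) := hQ.trans (by
    push_cast <;> ring)
  replace hR : R = (D * i) := hR.trans (by push_cast <;> ring)
  replace hY : Y = (v * i) := hY.trans (by push_cast <;> ring)
  replace hp2 : p2 = (mPj F P Q R).1 := hp2.trans (mPj_0 ..)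
  replace hp3 : p3 = (mPj F P Q R).2.1 := hp3.trans (mPj_1 ..)
  replace hA : A = ((Int.cast (-1) : ℝ) * ((q * ((((c * Y) * (c * Y)) * p3) + ((Int.cast (3) : ℝ) *
    (z * z)))) + ((((Int.cast (1) : ℝ) - (((Int.cast (6) : ℝ) * z) * ((Int.cast (1) : ℝ) - z))) * Y)
    * p2))) := hA.trans (by push_cast <;> ring)
  replace hB : B = (v * (((Int.cast (2) : ℝ) * u) - (a * v))) := hB.trans (by push_cast <;> ring)
  have e0 : (((n * Y) * A) + B) = n * Y * A + B := by push_cast <;> ring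
  subst hs hq hn ha hj hk hc hz hv hi hP hQ hR hY hp2 hp3 hA hu hB
  exact Eq.trans rfl e0

theorem l0 : ((-26388279066624 : ℤ) : ℝ) / 2 ^ 47 = -3 / 16 := by norm_num
theorem u0 : (-3 / 32 : ℝ) = ((-13194139533312 : ℤ) : ℝ) / 2 ^ 47 := by norm_num
theorem l1 : ((183068686024704 : ℤ) : ℝ) / 2 ^ 47 = 333 / 256 := by norm_num
theorem u1 : (175 / 128 : ℝ) = ((192414534860800 : ℤ) : ℝ) / 2 ^ 47 := by norm_num
theorem l2 : ((-562949953421312 : ℤ) : ℝ) / 2 ^ 47 = -4 := by norm_num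
theorem u2 : (-1 : ℝ) = ((-140737488355328 : ℤ) : ℝ) / 2 ^ 47 := by norm_num

theorem out0 {D F t : ℝ} (a0 : -3 / 16 ≤ D) (b0 : D ≤ -3 / 32) (a1 : 333 / 256 ≤ F) (b1 : F ≤ 175 /
    128) (a2 : -4 ≤ t) (b2 : t ≤ -1) : 0 < outR prog 0 [D, F, t] :=
  gd 0 (by decide) [D, F, t] (.cons ⟨l0.le.trans a0, b0.trans u0.le⟩ (.cons ⟨l1.le.trans a1,
    b1.trans u1.le⟩ (.cons ⟨l2.le.trans a2, b2.trans u2.le⟩ (.nil)))) ⟨nofun, nofun, nofun, trivial⟩
    (List.forall_mem_nil _) (Van.of0 rfl) (nofun)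

theorem pos0 {D F t s q n a j k c z v i P Q R Y p2 p3 A u B : ℝ} (hs : s = Real.exp t) (hq : q =
    Real.exp ((2 * F - 2) * t)) (hn : n = Real.exp ((4 - 3 * F) * t)) (ha : a = 8 * ja4 D F) (hj : j
    = (F - 1 - D)⁻¹) (hk : k = (F * (2 * F - 1) * (F - 1) * j)⁻¹) (hc : c = j * (2 * F * (F - 1) *
    ((1 + 2 * D) * s) - (2 * F - 1) * ((F - 1) * ((1 + D) * s ^ 2) + F * D))) (hz : z = 1 - q * c)
    (hv : v = z * k) (hi : i = ((1 + 2 * D) * s - (1 + D) * s ^ 2 - D)⁻¹) (hP : P = (1 + D) * s ^ 2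
    * i) (hQ : Q = (1 + 2 * D) * s * i) (hR : R = D * i) (hY : Y = v * i) (hp2 : p2 = (pjR F P Q
    R).1) (hp3 : p3 = (pjR F P Q R).2.1) (hA : A = -(q * ((c * Y) ^ 2 * p3 + 3 * z ^ 2) + (1 - 6 * z
    * (1 - z)) * Y * p2)) (hu : u = (√v)⁻¹) (hB : B = v * (2 * u - a * v)) (a0 : -3 / 16 ≤ D) (b0 :
    D ≤ -3 / 32) (a1 : 333 / 256 ≤ F) (b1 : F ≤ 175 / 128) (a2 : -4 ≤ t) (b2 : t ≤ -1) : 0 < n * Y *
    A + B :=
  have e := eq hs hq hn ha hj hk hc hz hv hi hP hQ hR hY hp2 hp3 hA hu hB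
  (out0 a0 b0 a1 b1 a2 b2).trans_eq e

end Pool.Agent.Lib.MP_d6150d_an.T10aM
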