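import Pool.Agent.Lib.MP_d6150d_an.T10aRD

/-! A generated chart: the computations. -/

namespace Pool.Agent.Lib.MP_d6150d_an.T10aR

theorem k0 : chk C 0x8818810881802 [(-26388279066624, -13194139533312), (183068686024704,
    192414534860800), (0, 43980465111040)] = true := by
  decide +kernel

theorem k1 : chk C 0x8808802 [(-26388279066624, -13194139533312), (183068686024704,
    192414534860800), (43980465111040, 87960930222080)] = true := by
  decide +kernel

end Pool.Agent.Lib.MP_d6150d_an.T10aR
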