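import Pool.Agent.Lib.MP_d6150d_an.T10aTD

/-! A generated chart: the computations. -/

namespace Pool.Agent.Lib.MP_d6150d_an.T10aT

theorem k0 : chk C 0x880 [(-26388279066624, -13194139533312), (183068686024704, 192414534860800),
    (0, 2814749767107), (0, 13194139533312)] = true := by
  decide +kernel

end Pool.Agent.Lib.MP_d6150d_an.T10aT
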