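import Pool.Agent.Lib.MP_d6150d_an.T10aA
import Pool.Agent.Lib.MP_d6150d_an.T10aTK0

/-! A generated chart: the inequality. -/

namespace Pool.Agent.Lib.MP_d6150d_an.T10aT

set_option linter.unnecessarySeqFocus false
set_option linter.unusedTactic false
set_option linter.unusedVariables false

theorem gd : Gd C [(-26388279066624, -13194139533312), (183068686024704, 192414534860800), (0,
    2814749767107), (0, 13194139533312)] := chk_sound k0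

set_option maxRecDepth 100000 in
theorem eq {D F s q a j k c z v i P Q R Y p2 p3 A u B : ℝ} (ha : a = 8 * ja4 D F) (hj : j = (F - 1 -
    D)⁻¹) (hk : k = (F * (2 * F - 1) * (F - 1) * j)⁻¹) (hc : c = j * (2 * F * (F - 1) * ((1 + 2 * D)
    * s) - (2 * F - 1) * ((F - 1) * ((1 + D) * s ^ 2) + F * D))) (hz : z = 1 - q * c) (hv : v = z *
    k) (hi : i = ((1 + 2 * D) * s - (1 + D) * s ^ 2 - D)⁻¹) (hP : P = (1 + D) * s ^ 2 * i) (hQ : Q =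
    (1 + 2 * D) * s * i) (hR : R = D * i) (hY : Y = v * i) (hp2 : p2 = (pjR F P Q R).1) (hp3 : p3 =
    (pjR F P Q R).2.1) (hA : A = -(q * ((c * Y) ^ 2 * p3 + 3 * z ^ 2) + (1 - 6 * z * (1 - z)) * Y *
    p2)) (hu : u = (√v)⁻¹) (hB : B = v * (2 * u - a * v)) : outR prog 0 [D, F, s, q] = A ∧ outR prog
    1 [D, F, s, q] = B := by
  replace ha : a = (mTA D F) := ha.trans (mTA_0 ..)
  replace hj : j = ((F - (Int.cast (1) : ℝ)) - D)⁻¹ := hj.trans (by push_cast <;> ring)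
  replace hk : k = (((F * (((Int.cast (2) : ℝ) * F) - (Int.cast (1) : ℝ))) * (F - (Int.cast (1) :
    ℝ))) * j)⁻¹ := hk.trans (by push_cast <;> ring)
  replace hc : c = (j * (((((Int.cast (2) : ℝ) * F) * (F - (Int.cast (1) : ℝ))) * (((Int.cast (1) :
    ℝ) + ((Int.cast (2) : ℝ) * D)) * s)) - ((((Int.cast (2) : ℝ) * F) - (Int.cast (1) : ℝ)) * (((F -
    (Int.cast (1) : ℝ)) * (((Int.cast (1) : ℝ) + D) * (s * s))) + (F * D))))) := hc.trans (by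
    push_cast <;> ring)
  replace hz : z = ((Int.cast (1) : ℝ) - (q * c)) := hz.trans (by push_cast <;> ring)
  replace hv : v = (z * k) := hv.trans (by push_cast <;> ring)
  replace hi : i = (((((Int.cast (1) : ℝ) + ((Int.cast (2) : ℝ) * D)) * s) - (((Int.cast (1) : ℝ) +
    D) * (s * s))) - D)⁻¹ := hi.trans (by push_cast <;> ring)
  replace hP : P = ((((Int.cast (1) : ℝ) + D) * (s * s)) * i) := hP.trans (by push_cast <;> ring)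
  replace hQ : Q = ((((Int.cast (1) : ℝ) + ((Int.cast (2) : ℝ) * D)) * s) * i) := hQ.trans (by
    push_cast <;> ring)
  replace hR : R = (D * i) := hR.trans (by push_cast <;> ring)
  replace hY : Y = (v * i) := hY.trans (by push_cast <;> ring)
  replace hp2 : p2 = (mPj F P Q R).1 := hp2.trans (mPj_0 ..)
  replace hp3 : p3 = (mPj F P Q R).2.1 := hp3.trans (mPj_1 ..)
  replace hA : A = ((Int.cast (-1) : ℝ) * ((q * ((((c * Y) * (c * Y)) * p3) + ((Int.cast (3) : ℝ) *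
    (z * z)))) + ((((Int.cast (1) : ℝ) - (((Int.cast (6) : ℝ) * z) * ((Int.cast (1) : ℝ) - z))) * Y)
    * p2))) := hA.trans (by push_cast <;> ring)
  replace hB : B = (v * (((Int.cast (2) : ℝ) * u) - (a * v))) := hB.trans (by push_cast <;> ring)
  subst ha hj hk hc hz hv hi hP hQ hR hY hp2 hp3 hA hu hB
  exact ⟨rfl, rfl⟩

theorem l0 : ((-26388279066624 : ℤ) : ℝ) / 2 ^ 47 = -3 / 16 := by norm_num
theorem u0 : (-3 / 32 : ℝ) = ((-13194139533312 : ℤ) : ℝ) / 2 ^ 47 := by norm_num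
theorem l1 : ((183068686024704 : ℤ) : ℝ) / 2 ^ 47 = 333 / 256 := by norm_num
theorem u1 : (175 / 128 : ℝ) = ((192414534860800 : ℤ) : ℝ) / 2 ^ 47 := by norm_num
theorem l2 : ((0 : ℤ) : ℝ) / 2 ^ 47 = 0 := by norm_num
theorem u2 : (1 / 50 : ℝ) ≤ ((2814749767107 : ℤ) : ℝ) / 2 ^ 47 := by norm_num
theorem l3 : ((0 : ℤ) : ℝ) / 2 ^ 47 = 0 := by norm_num
theorem u3 : (3 / 32 : ℝ) = ((13194139533312 : ℤ) : ℝ) / 2 ^ 47 := by norm_num

theorem out0 {D F s q : ℝ} (a0 : -3 / 16 ≤ D) (b0 : D ≤ -3 / 32) (a1 : 333 / 256 ≤ F) (b1 : F ≤ 175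
    / 128) (a2 : 0 ≤ s) (b2 : s ≤ 1 / 50) (a3 : 0 ≤ q) (b3 : q ≤ 3 / 32) : 0 < outR prog 0 [D, F, s,
    q] :=
  gd 0 (by decide) [D, F, s, q] (.cons ⟨l0.le.trans a0, b0.trans u0.le⟩ (.cons ⟨l1.le.trans a1,
    b1.trans u1.le⟩ (.cons ⟨l2.le.trans a2, b2.trans u2⟩ (.cons ⟨l3.le.trans a3, b3.trans u3.le⟩
    (.nil))))) ⟨nofun, nofun, nofun, nofun, trivial⟩ (List.forall_mem_nil _) (Van.of0 rfl) (nofun)

theorem pos0 {D F s q a j k c z v i P Q R Y p2 p3 A u B : ℝ} (ha : a = 8 * ja4 D F) (hj : j = (F - 1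
    - D)⁻¹) (hk : k = (F * (2 * F - 1) * (F - 1) * j)⁻¹) (hc : c = j * (2 * F * (F - 1) * ((1 + 2 *
    D) * s) - (2 * F - 1) * ((F - 1) * ((1 + D) * s ^ 2) + F * D))) (hz : z = 1 - q * c) (hv : v = z
    * k) (hi : i = ((1 + 2 * D) * s - (1 + D) * s ^ 2 - D)⁻¹) (hP : P = (1 + D) * s ^ 2 * i) (hQ : Q
    = (1 + 2 * D) * s * i) (hR : R = D * i) (hY : Y = v * i) (hp2 : p2 = (pjR F P Q R).1) (hp3 : p3
    = (pjR F P Q R).2.1) (hA : A = -(q * ((c * Y) ^ 2 * p3 + 3 * z ^ 2) + (1 - 6 * z * (1 - z)) * Y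
    * p2)) (hu : u = (√v)⁻¹) (hB : B = v * (2 * u - a * v)) (a0 : -3 / 16 ≤ D) (b0 : D ≤ -3 / 32)
    (a1 : 333 / 256 ≤ F) (b1 : F ≤ 175 / 128) (a2 : 0 ≤ s) (b2 : s ≤ 1 / 50) (a3 : 0 ≤ q) (b3 : q ≤
    3 / 32) : 0 < A :=
  have e := eq ha hj hk hc hz hv hi hP hQ hR hY hp2 hp3 hA hu hB
  (out0 a0 b0 a1 b1 a2 b2 a3 b3).trans_eq e.1

theorem out1 {D F s q : ℝ} (a0 : -3 / 16 ≤ D) (b0 : D ≤ -3 / 32) (a1 : 333 / 256 ≤ F) (b1 : F ≤ 175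
    / 128) (a2 : 0 ≤ s) (b2 : s ≤ 1 / 50) (a3 : 0 ≤ q) (b3 : q ≤ 3 / 32) : 0 < outR prog 1 [D, F, s,
    q] :=
  gd 1 (by decide) [D, F, s, q] (.cons ⟨l0.le.trans a0, b0.trans u0.le⟩ (.cons ⟨l1.le.trans a1,
    b1.trans u1.le⟩ (.cons ⟨l2.le.trans a2, b2.trans u2⟩ (.cons ⟨l3.le.trans a3, b3.trans u3.le⟩
    (.nil))))) ⟨nofun, nofun, nofun, nofun, trivial⟩ (List.forall_mem_nil _) (Van.of0 rfl) (nofun)

theorem pos1 {D F s q a j k c z v i P Q R Y p2 p3 A u B : ℝ} (ha : a = 8 * ja4 D F) (hj : j = (F - 1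
    - D)⁻¹) (hk : k = (F * (2 * F - 1) * (F - 1) * j)⁻¹) (hc : c = j * (2 * F * (F - 1) * ((1 + 2 *
    D) * s) - (2 * F - 1) * ((F - 1) * ((1 + D) * s ^ 2) + F * D))) (hz : z = 1 - q * c) (hv : v = z
    * k) (hi : i = ((1 + 2 * D) * s - (1 + D) * s ^ 2 - D)⁻¹) (hP : P = (1 + D) * s ^ 2 * i) (hQ : Q
    = (1 + 2 * D) * s * i) (hR : R = D * i) (hY : Y = v * i) (hp2 : p2 = (pjR F P Q R).1) (hp3 : p3
    = (pjR F P Q R).2.1) (hA : A = -(q * ((c * Y) ^ 2 * p3 + 3 * z ^ 2) + (1 - 6 * z * (1 - z)) * Y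
    * p2)) (hu : u = (√v)⁻¹) (hB : B = v * (2 * u - a * v)) (a0 : -3 / 16 ≤ D) (b0 : D ≤ -3 / 32)
    (a1 : 333 / 256 ≤ F) (b1 : F ≤ 175 / 128) (a2 : 0 ≤ s) (b2 : s ≤ 1 / 50) (a3 : 0 ≤ q) (b3 : q ≤
    3 / 32) : 0 < B :=
  have e := eq ha hj hk hc hz hv hi hP hQ hR hY hp2 hp3 hA hu hB
  (out1 a0 b0 a1 b1 a2 b2 a3 b3).trans_eq e.2

end Pool.Agent.Lib.MP_d6150d_an.T10aT
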