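import Pool.Agent.Lib.MP_d6150d_an.T10aWD

/-! A generated chart: the computations. -/

namespace Pool.Agent.Lib.MP_d6150d_an.T10aW

theorem k0 : chk C 0x8 [(-26388279066624, -13194139533312), (183068686024704, 192414534860800)] =
    true := by
  decide +kernel

end Pool.Agent.Lib.MP_d6150d_an.T10aW
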