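import Pool.Agent.Lib.MP_d6150d_an.T10aA
import Pool.Agent.Lib.MP_d6150d_an.T10aWK0

/-! A generated chart: the inequality. -/

namespace Pool.Agent.Lib.MP_d6150d_an.T10aW

set_option linter.unnecessarySeqFocus false
set_option linter.unusedTactic false
set_option linter.unusedVariables false

theorem gd : Gd C [(-26388279066624, -13194139533312), (183068686024704, 192414534860800)] :=
    chk_sound k0

set_option maxRecDepth 100000 in
theorem eq {D F t k mu : ℝ} (ht : t = 5 / 8) (hk : k = F * (2 * F - 1) * (F - 1) * (F - 1 - D)⁻¹)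
    (hmu : mu = muR D F t) : outR prog 0 [D, F] = k * (t ^ 2 * mu) - 1 := by
  replace ht : t = ((Int.cast (5) : ℝ) / (Nat.cast 8 : ℝ)) := ht.trans (by push_cast <;> ring)
  replace hk : k = (((F * (((Int.cast (2) : ℝ) * F) - (Int.cast (1) : ℝ))) * (F - (Int.cast (1) :
    ℝ))) * ((F - (Int.cast (1) : ℝ)) - D)⁻¹) := hk.trans (by push_cast <;> ring)
  replace hmu : mu = (mMu D F t) := hmu.trans (mMu_0 ..)
  have e0 : ((k * ((t * t) * mu)) - (Int.cast (1) : ℝ)) = k * (t ^ 2 * mu) - 1 := by push_cast <;>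
    ring
  subst ht hk hmu
  exact Eq.trans rfl e0

theorem l0 : ((-26388279066624 : ℤ) : ℝ) / 2 ^ 47 = -3 / 16 := by norm_num
theorem u0 : (-3 / 32 : ℝ) = ((-13194139533312 : ℤ) : ℝ) / 2 ^ 47 := by norm_num
theorem l1 : ((183068686024704 : ℤ) : ℝ) / 2 ^ 47 = 333 / 256 := by norm_num
theorem u1 : (175 / 128 : ℝ) = ((192414534860800 : ℤ) : ℝ) / 2 ^ 47 := by norm_num

theorem out0 {D F : ℝ} (a0 : -3 / 16 ≤ D) (b0 : D ≤ -3 / 32) (a1 : 333 / 256 ≤ F) (b1 : F ≤ 175 /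
    128) : 0 < outR prog 0 [D, F] :=
  gd 0 (by decide) [D, F] (.cons ⟨l0.le.trans a0, b0.trans u0.le⟩ (.cons ⟨l1.le.trans a1, b1.trans
    u1.le⟩ (.nil))) ⟨nofun, nofun, trivial⟩ (List.forall_mem_nil _) (Van.of0 rfl) (nofun)

theorem pos0 {D F t k mu : ℝ} (ht : t = 5 / 8) (hk : k = F * (2 * F - 1) * (F - 1) * (F - 1 - D)⁻¹)
    (hmu : mu = muR D F t) (a0 : -3 / 16 ≤ D) (b0 : D ≤ -3 / 32) (a1 : 333 / 256 ≤ F) (b1 : F ≤ 175
    / 128) : 0 < k * (t ^ 2 * mu) - 1 :=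
  have e := eq ht hk hmu
  (out0 a0 b0 a1 b1).trans_eq e

end Pool.Agent.Lib.MP_d6150d_an.T10aW
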