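import Pool.Agent.Lib.MP_d6150d_an.S8Key
import Pool.Agent.Lib.MP_d6150d_an.T10aL
import Pool.Agent.Lib.MP_d6150d_an.T10aM
import Pool.Agent.Lib.MP_d6150d_an.T10aR
import Pool.Agent.Lib.MP_d6150d_an.T10aT
import Pool.Agent.Lib.MP_d6150d_an.T10aW

/-! The strip near `F = 4 / 3`, small `D`: at most one critical period. -/

namespace Pool.Agent.Lib.MP_d6150d_an

namespace T10a

open Real Set Filter Topology Asymptotics S8

variable {D F t : ℝ}

/-- the operator -/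
noncomputable def oA (k : ℝ) : Gp := ⟨0, 1, -4, 0, -2 * k, 6 * k, 0, k ^ 2, -k ^ 2, 0, 0, 0⟩

/-- the separator minus the kernel -/
noncomputable def dA (D F t : ℝ) : ℝ := 8 * ja4 D F * vR D F t ^ 2 - (oA (ik D F)).K D F t

/-- the main part of the kernel -/
noncomputable def kA (z F P Q R Y : ℝ) : ℝ :=
  8 * (1 - z) ^ 2 * (Y ^ 3 * (pjR F P Q R).2.1) +
    (4 - 24 * z * (1 - z)) * (Y ^ 2 * (pjR F P Q R).1 * 1 ^ 2) + 6 * z ^ 2 * (Y * 1 ^ 4)

theorem hom {l s P Q R Y : ℝ} (ht : t ∈ JR D) (h0 : t ≠ 0) (hs : s ≠ 0)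
    (hP : P = l * PR D t) (hQ : Q = l * QR D t) (hR : R = l * D) (hY : s ^ 2 * Y = l * yR D F t)
    (hW : s = l * wR D t) : dA D F t = 8 * ja4 D F * vR D F t ^ 2 + 2 * gR D F t -
      s * exp (F * t) * kA (ik D F * vR D F t) F P Q R Y := by
  have hw := wR_ne ht h0
  obtain rfl : Y = l * yR D F t / s ^ 2 := by rw [← hY]; field_simp
  obtain rfl : l = s / wR D t := by rw [hW]; field_simp
  subst hP hQ hR
  rw [dA, Gp.K_eq ht h0]
  simp only [Gp.P, Gp.C3, Gp.C2, Gp.C1, Gp.C0, oA, kA, pjR_smul, U1, U2, U3, U4]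
  generalize pjR F _ _ _ = p
  field_simp
  ring

theorem center : dA D F =O[𝓝 0] fun t ↦ t ^ 5 := by
  obtain ⟨a6, J⟩ := (oA (ik D F)).K_jet (D := D) (F := F)
  refine ((J.cast (b4 := 8 * ja4 D F) rfl rfl rfl (by simp only [oA]; ring)
    (by simp only [oA]; ring) rfl rfl).center5 (E := fun _ ↦ 0)
      continuousAt_const).neg_left.congr_left fun t ↦ ?_
  simp only [dA]; ring

/-- the expression computed near the center -/
noncomputable def gC (D F t : ℝ) : ℝ :=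
  let r := exp (-(t / 2))
  let y := exp (-(F * t))
  let m := muR D F t
  let i := (ph1 (t / 2) * (1 + r) / 2 * (1 + D - D * r ^ 2))⁻¹
  y * (m * (8 * ja4 D F * t ^ 3 * m + 2 * (√m)⁻¹)) - kA (ik D F * (t ^ 2 * m)) F
    ((1 + D) * exp (t / 2) * i) ((1 + 2 * D) * r * i) (D * r ^ 3 * i)
    (m * y * y * exp (t / 2) / 2 * i)

theorem gC_eq (ht : t ∈ JR D) (h0 : t ≠ 0) : gC D F t * t = exp (-(F * t)) * dA D F t := by
  have h1 := half_mul t
  have h2 : exp (F * t) * exp (-(F * t)) = 1 := by rw [← exp_add]; simp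
  have h3 : exp ((2 - 2 * F) * t) = exp (t / 2) ^ 4 * exp (-(F * t)) ^ 2 := by
    rw [← exp_nat_mul, ← exp_nat_mul, ← exp_add]; congr 1; push_cast; ring
  have h4 := mul_inv_cancel₀ (wS_pos ht).ne'
  have h5 : muR D F t * (√(muR D F t))⁻¹ = √(muR D F t) := div_sqrt
  have key := hom (F := F) (l := exp (-(t / 2)) ^ 3 * (wS D t)⁻¹)
    (P := (1 + D) * exp (t / 2) * (wS D t)⁻¹) (Q := (1 + 2 * D) * exp (-(t / 2)) * (wS D t)⁻¹)
    (R := D * exp (-(t / 2)) ^ 3 * (wS D t)⁻¹)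
    (Y := muR D F t * exp (-(F * t)) * exp (-(F * t)) * exp (t / 2) / 2 * (wS D t)⁻¹) ht h0 h0
    (by rw [PR, half_sq t]
        generalize exp (t / 2) = x, exp (-(t / 2)) = z at *
        linear_combination -(1 + D) * x * ((x * z) ^ 2 + x * z + 1) * (wS D t)⁻¹ * h1)
    (by rw [QR, half_sq t]
        generalize exp (t / 2) = x, exp (-(t / 2)) = z at *
        linear_combination -(1 + 2 * D) * z * (x * z + 1) * (wS D t)⁻¹ * h1) (by ring)
    (by rw [yR, vR, h3]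
        generalize exp (t / 2) = x, exp (-(t / 2)) = z at *
        linear_combination -(t ^ 2 * muR D F t * exp (-(F * t)) ^ 2 * x / 2) *
          ((x * z) ^ 2 + x * z + 1) * (wS D t)⁻¹ * h1)
    (by linear_combination (wS D t)⁻¹ * wS_eq D t - t * h4)
  simp only [gC]
  simp only [wS, vR, gR] at key ⊢
  generalize kA _ _ _ _ _ _ = k at key ⊢
  linear_combination -exp (-(F * t)) * key + t * k * h2 + 2 * t * exp (-(F * t)) * h5

theorem gC_bigO {σ : ℝ → ℝ} (h : Tendsto σ (𝓝[>] 0) (𝓝[≠] 0))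
    (e : ∀ s, σ s ^ 4 = s ^ 4) : (fun s ↦ gC D F (σ s)) =O[𝓝[>] 0] fun s ↦ s ^ 4 := by
  have c : ContinuousAt (fun t ↦ exp (-(F * t))) 0 := by fun_prop
  obtain ⟨K, hK⟩ := ((c.isBigO_one ℝ).mul (center (D := D) (F := F))).bound
  have : gC D F =O[𝓝[≠] 0] fun t ↦ t ^ 4 := by
    refine .of_bound K ?_
    filter_upwards [nhdsWithin_le_nhds ((JR_open D).mem_nhds (zero_mem_JR D)),
      nhdsWithin_le_nhds hK, self_mem_nhdsWithin] with t ht h h0
    rw [← gC_eq ht h0, one_mul, norm_mul, pow_succ t 4, norm_mul, ← mul_assoc] at h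
    exact le_of_mul_le_mul_right h (norm_pos_iff.2 h0)
  exact (this.comp_tendsto h).congr (fun _ ↦ rfl) e

theorem gC_sign (ht : t ∈ JR D) (h0 : t ≠ 0) (h : 0 < gC D F t) : 0 < t * dA D F t := by
  refine (mul_pos_iff_of_pos_left (exp_pos (-(F * t)))).1 ?_
  linear_combination mul_pos h (pow_pos (abs_pos.2 h0) 2) + t * gC_eq (F := F) ht h0 +
    gC D F t * sq_abs t

theorem e4 : (50 : ℝ) ≤ exp 4 ∧ (32 / 3 : ℝ) ≤ exp (12 / 5) :=
  ⟨le_trans (by simp only [Finset.sum_range_succ, Nat.factorial]; norm_num)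
    (sum_le_exp_of_nonneg (by norm_num) 9),
  le_trans (by simp only [Finset.sum_range_succ, Nat.factorial]; norm_num)
    (sum_le_exp_of_nonneg (by norm_num) 8)⟩

variable (d0 : -3 / 16 ≤ D) (d1 : D ≤ -3 / 32) (f0 : 333 / 256 ≤ F) (f1 : F ≤ 175 / 128)
  (ht : t ∈ JR D)
include d0 d1 f0 f1 ht

theorem far (t1 : t ≤ -1) : dA D F t < 0 := by
  have h0 : t < 0 := by linarith
  have F1 : 1 < F := by linarith
  have D0 : D < 0 := by linarith
  have v0 := vR_pos (F := F) ht h0.ne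
  have w0 := W_pos ht h0
  have i0 := ik_pos F1 D0
  obtain ⟨s, hs⟩ : ∃ s, s = exp t := ⟨_, rfl⟩
  obtain ⟨q, hq⟩ : ∃ q, q = exp ((2 * F - 2) * t) := ⟨_, rfl⟩
  obtain ⟨n, hn⟩ : ∃ n, n = exp ((4 - 3 * F) * t) := ⟨_, rfl⟩
  obtain ⟨c, hc⟩ : ∃ c, c = (F - 1 - D)⁻¹ * (2 * F * (F - 1) * ((1 + 2 * D) * s) -
    (2 * F - 1) * ((F - 1) * ((1 + D) * s ^ 2) + F * D)) := ⟨_, rfl⟩
  obtain ⟨i, hi⟩ : ∃ i, i = ((1 + 2 * D) * s - (1 + D) * s ^ 2 - D)⁻¹ := ⟨_, rfl⟩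
  obtain ⟨Y, hY⟩ : ∃ Y, Y = vR D F t * i := ⟨_, rfl⟩
  have q0 : 0 < q := hq ▸ exp_pos _
  have n0 : 0 < n := hn ▸ exp_pos _
  rw [← hs] at w0
  have i1 : ((1 + 2 * D) * s - (1 + D) * s ^ 2 - D) * i = 1 := hi ▸ mul_inv_cancel₀ w0.ne'
  have Y0 : 0 < Y := hY ▸ mul_pos v0 (hi ▸ inv_pos.2 w0)
  have hz : ik D F * vR D F t = 1 - q * c := by
    rw [← z_eq F1 D0, cc, hq, hc, hs]; ring
  have hv : vR D F t = ik D F * vR D F t * (ik D F)⁻¹ := by field_simp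
  have e1 : q * exp ((2 - 2 * F) * t) = 1 := hq ▸ exp_y t
  have e2 : exp (F * t) = n * q ^ 2 := by
    rw [hn, hq, ← exp_nat_mul, ← exp_add]; congr 1; push_cast; ring
  have g : gR D F t = -(vR D F t * (√(vR D F t))⁻¹) := by
    rw [← div_eq_mul_inv, div_sqrt, ← gR_sq ht, sqrt_sq_eq_abs, abs_of_neg (gR_neg ht h0), neg_neg]
  have key := hom (F := F) (l := i) (s := -1) (P := (1 + D) * s ^ 2 * i) (Q := (1 + 2 * D) * s * i)
    (R := D * i) (Y := Y * exp ((2 - 2 * F) * t) / 2) ht h0.ne (by norm_num)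
    (by rw [PR, hs]; ring) (by rw [QR, hs]; ring) (mul_comm _ _) (by rw [hY, yR]; ring)
    (by rw [wR, PR, QR, ← hs]; linear_combination i1)
  obtain ⟨A, hA⟩ : ∃ A, A = -(q * ((c * Y) ^ 2 *
    (pjR F ((1 + D) * s ^ 2 * i) ((1 + 2 * D) * s * i) (D * i)).2.1 + 3 * (ik D F * vR D F t) ^ 2) +
    (1 - 6 * (ik D F * vR D F t) * (1 - ik D F * vR D F t)) * Y *
    (pjR F ((1 + D) * s ^ 2 * i) ((1 + 2 * D) * s * i) (D * i)).1) := ⟨_, rfl⟩
  have p : 0 < n * Y * A + vR D F t * (2 * (√(vR D F t))⁻¹ - 8 * ja4 D F * vR D F t) := by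
    rcases le_total (-4) t with l | l
    · exact T10aM.pos0 hs hq hn rfl rfl rfl hc hz hv hi rfl rfl rfl hY rfl rfl hA rfl rfl d0 d1 f0 f1
        l t1
    have s1 : s ≤ 1 / 50 := by
      rw [hs, ← neg_neg t, exp_neg, one_div]
      exact inv_anti₀ (by norm_num) (e4.1.trans (exp_le_exp.2 (by linarith)))
    have q1 : q ≤ 3 / 32 := by
      rw [hq, ← neg_neg ((2 * F - 2) * t), exp_neg, ← inv_div]
      exact inv_anti₀ (by norm_num) (e4.2.trans (exp_le_exp.2 (by nlinarith)))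
    have s0 : 0 ≤ s := hs ▸ (exp_pos t).le
    exact add_pos (mul_pos (mul_pos n0 Y0) (T10aT.pos0 rfl rfl rfl hc hz hv hi rfl rfl rfl hY rfl
      rfl hA rfl rfl d0 d1 f0 f1 s0 s1 q0.le q1)) (T10aT.pos1 rfl rfl rfl hc hz hv hi rfl rfl rfl
      hY rfl rfl hA rfl rfl d0 d1 f0 f1 s0 s1 q0.le q1)
  rw [key, g, e2, kA]
  rw [hA] at p
  rw [hz] at p ⊢
  generalize pjR F _ _ _ = J, exp ((2 - 2 * F) * t) = r, (√(vR D F t))⁻¹ = u at *
  linear_combination p + n * (q * c ^ 2 * Y ^ 3 * J.2.1 * ((q * r) ^ 2 + q * r + 1) +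
    (1 - 6 * (1 - q * c) * (q * c)) * Y ^ 2 * J.1 * (q * r + 1) + 3 * (1 - q * c) ^ 2 * q * Y) * e1

theorem left (h0 : t < 0) : dA D F t < 0 := by
  rcases le_total t (-1) with l | l
  · exact far d0 d1 f0 f1 ht l
  have e : ∀ D F s, outR T10aL.prog 0 [D, F, s] = gC D F (-s) := fun D F s ↦
    T10aL.eq rfl rfl rfl rfl rfl rfl rfl rfl rfl rfl rfl rfl rfl rfl rfl rfl rfl rfl rfl rfl
  have n : Tendsto (fun s : ℝ ↦ -s) (𝓝[>] 0) (𝓝[≠] 0) := by
    simpa using (tendsto_neg_nhdsGT (a := (0 : ℝ))).mono_right (nhdsLT_le_nhdsNE _)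
  have := (T10aL.out0 (fun D F _ _ _ _ ↦ (gC_bigO n fun _ ↦ by ring).congr_left
    fun s ↦ (e D F s).symm) (s := -t) d0 d1 f0 f1 (by linarith) (by linarith)
    (by linarith)).trans_eq (e D F _)
  exact neg_of_mul_pos_right (gC_sign ht h0.ne (by rwa [neg_neg] at this)) h0.le

theorem right (h0 : 0 < t) (hv : ik D F * vR D F t < 1) : 0 < dA D F t := by
  have l : t ≤ 5 / 8 := by
    by_contra l
    have h1 := T10aW.pos0 rfl rfl rfl d0 d1 f0 f1
    have h2 := mul_lt_mul_of_pos_left (vR_mono (F := F) ht (by norm_num) (not_le.1 l))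
      (ik_pos (F := F) (D := D) (by linarith) (by linarith))
    rw [← vR, ← ik] at h1
    linarith
  have e : ∀ D F s, outR T10aR.prog 0 [D, F, s] = gC D F s := fun D F s ↦
    T10aR.eq rfl rfl rfl rfl rfl rfl rfl rfl rfl rfl rfl rfl rfl rfl rfl rfl rfl rfl rfl rfl
  exact (mul_pos_iff_of_pos_left h0).1 (gC_sign ht h0.ne' ((T10aR.out0 (fun D F _ _ _ _ ↦
    (gC_bigO (σ := id) (tendsto_nhdsWithin_mono_right (fun _ h ↦ ne_of_gt h) tendsto_id)
      fun _ ↦ rfl).congr_left fun s ↦ (e D F s).symm) d0 d1 f0 f1 h0.le l h0).trans_eq (e D F t)))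

end T10a

open T10a S8 in
/-- the strip near `F = 4 / 3` for small `D` -/
theorem S10A_holds (D F : ℝ) (hF : |F - 4 / 3| ≤ 1 / 32) (d0 : -3 / 16 ≤ D) (d1 : D ≤ -3 / 32) :
    NoThree D F := by
  rw [abs_le] at hF
  have f0 : 333 / 256 ≤ F := by linarith [hF.1]
  have f1 : F ≤ 175 / 128 := by linarith [hF.2]
  refine Crit1.noThree ⟨oA (ik D F), -1, fun h ↦ by simp [Gp.P, oA], fun a ha b hb a0 b0 e ↦ ?_⟩
  have h1 := left d0 d1 f0 f1 ha a0
  have h2 := right d0 d1 f0 f1 hb b0 (e ▸ z_lt (by linarith) (by linarith) a0)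
  rw [dA] at h1 h2
  rw [e] at h1
  refine ⟨?_, by linarith⟩
  simp only [Gp.Q, oA]
  nlinarith [sq_nonneg (1 - ik D F * vR D F b)]

end Pool.Agent.Lib.MP_d6150d_an
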