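import Pool.Agent.Lib.MP_d6150d_an.Blue
import Pool.Agent.Lib.MP_d6150d_an.T10a
import Pool.Agent.Lib.MP_d6150d_an.S10B
import Pool.Agent.Lib.MP_d6150d_an.S10C

/-! The strip near `F = 4 / 3`. -/

namespace Pool.Agent.Lib.MP_d6150d_an

theorem S10_holds : St_S10 := fun D F hF h ↦ by
  obtain ⟨b, rfl⟩ : ∃ b, F = 4 / 3 + b / 32 := ⟨32 * (F - 4 / 3), by ring⟩
  have hb := abs_le.1 hF
  have b0 : -1 ≤ b := by linarith [hb.1]
  have b1 : b ≤ 1 := by linarith [hb.2]
  rcases h with h | h | h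
  · exact S10A_holds D _ hF h.1 h.2
  · have p : 0 < 19 / 96 + 1 / 64 * b := by linarith
    have := S10B.holds (a := (D + 103 / 96 + b / 64) / (19 / 96 + 1 / 64 * b))
      ((le_div_iff₀ p).2 (by linarith [h.2.1])) ((div_le_one p).2 (by linarith [h.1])) b0 b1
    rwa [show S10B.DD ((D + 103 / 96 + b / 64) / (19 / 96 + 1 / 64 * b)) b = D by
      rw [S10B.DD, div_mul_cancel₀ _ p.ne']; ring] at this
  · exact S10C_holds D _ hF h.1 h.2

end Pool.Agent.Lib.MP_d6150d_an
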