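import Pool.Agent.Lib.MP_d6150d_an.Fin2
import Pool.Agent.Lib.MP_d6150d_an.S10

/-! The whole plane. -/

namespace Pool.Agent.Lib.MP_d6150d_an

theorem plane (D F : ℝ) : NoThree D F ∨
    (D = 0 ∧ F = 1) ∨ (D = -1 / 2 ∧ F = 2) ∨ (D = 0 ∧ F = 1 / 4) ∨ (D = -1 / 2 ∧ F = 1 / 2) :=
  plane_one S10_holds D F

end Pool.Agent.Lib.MP_d6150d_an
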