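import Pool.Agent.Lib.MP_d6150d_an.TM3

/-! Algebras of functions with a norm, and iterated graded norms. -/

namespace Pool.Agent.Lib.MP_d6150d_an

open Finset Set

/-- a normed algebra of functions on a set of lists -/
structure Alg where
  D : Set (List ℝ)
  N : (List ℝ → ℝ) → ℝ → Prop
  ne : D.Nonempty
  mono : ∀ {f C C'}, N f C → C ≤ C' → N f C'
  congr : ∀ {f g C}, N f C → (∀ x ∈ D, g x = f x) → N g C
  add : ∀ {f g A B}, N f A → N g B → N (fun x ↦ f x + g x) (A + B)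
  const : ∀ c, N (fun _ ↦ c) |c|
  mul : ∀ {f g A B}, N f A → N g B → N (fun x ↦ f x * g x) (A * B)
  sup : ∀ {f C}, N f C → ∀ x ∈ D, |f x| ≤ C
  tsum : ∀ {f : ℕ → List ℝ → ℝ} {C : ℕ → ℝ}, (∀ n, N (f n) (C n)) → Summable C →
    N (fun x ↦ ∑' n, f n x) (∑' n, C n)

namespace Alg

variable {A : Alg} {f g : List ℝ → ℝ} {C : ℝ}

theorem c_le (h : A.N f C) : 0 ≤ C := let ⟨x, hx⟩ := A.ne; (abs_nonneg _).trans (A.sup h x hx)

theorem smul (a : ℝ) (h : A.N f C) : A.N (fun x ↦ a * f x) (|a| * C) := A.mul (A.const a) h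

theorem sum {ι : Type*} (s : Finset ι) {f : ι → List ℝ → ℝ} {C : ι → ℝ}
    (h : ∀ i ∈ s, A.N (f i) (C i)) : A.N (fun x ↦ ∑ i ∈ s, f i x) (∑ i ∈ s, C i) := by
  classical
  induction s using Finset.induction_on with
  | empty => simpa using A.const 0
  | insert a s ha ih =>
    simp only [Finset.sum_insert ha]
    exact A.add (h a (mem_insert_self _ _)) (ih fun i hi ↦ h i (mem_insert_of_mem hi))

theorem pow (h : A.N f C) : ∀ i : ℕ, A.N (fun x ↦ f x ^ i) (C ^ i)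
  | 0 => by simpa using A.const 1
  | i + 1 => by simpa [pow_succ] using A.mul (pow h i) h

/-- the real numbers -/
def base : Alg where
  D := {[]}
  N f C := |f []| ≤ C
  ne := ⟨_, rfl⟩
  mono := le_trans
  congr h e := by rw [e _ rfl]; exact h
  add h k := (abs_add_le _ _).trans (add_le_add h k)
  const _ := le_rfl
  mul h k := by rw [abs_mul]; exact mul_le_mul h k (abs_nonneg _) ((abs_nonneg _).trans h)
  sup h x hx := by rw [show x = [] from hx]; exact h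
  tsum {f _} h hC := tsum_of_norm_bounded (f := fun n ↦ f n []) hC.hasSum h

/-- the range of a variable -/
def I (z : Bool) : Set ℝ := Icc (cond z 0 (-1)) 1

theorem I_abs {z : Bool} {τ : ℝ} (h : τ ∈ I z) : |τ| ≤ 1 := by
  cases z
  · exact abs_le.2 h
  · exact abs_le.2 ⟨le_trans (by norm_num) h.1, h.2⟩

theorem I_zero (z : Bool) : (0 : ℝ) ∈ I z := by cases z <;> simp [I]

variable (A) in
/-- the graded norm -/
def Gr (z : Bool) : ℕ → (ℝ → List ℝ → ℝ) → ℝ → Prop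
  | 0, f, C => ∀ τ ∈ I z, A.N (f τ) C
  | m + 1, f, C => ∃ c h a, A.N c a ∧ (∀ τ ∈ I z, ∀ x ∈ A.D, f τ x = c x + τ * h τ x) ∧
      Gr z m h (C - a)

namespace Gr

variable {z : Bool}

theorem mono : ∀ {m f C C'}, A.Gr z m f C → C ≤ C' → A.Gr z m f C'
  | 0, _, _, _, h, hC => fun τ hτ ↦ A.mono (h τ hτ) hC
  | _ + 1, _, _, _, ⟨c, h, a, hc, e, hh⟩, hC => ⟨c, h, a, hc, e, mono hh (by linarith)⟩

theorem congr : ∀ {m f g C}, A.Gr z m f C → (∀ τ ∈ I z, ∀ x ∈ A.D, g τ x = f τ x) → A.Gr z m g C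
  | 0, _, _, _, h, e => fun τ hτ ↦ A.congr (h τ hτ) (e τ hτ)
  | _ + 1, _, _, _, ⟨c, h, a, hc, e, hh⟩, e' =>
    ⟨c, h, a, hc, fun τ hτ x hx ↦ by rw [e' τ hτ x hx, e τ hτ x hx], hh⟩

theorem weaken : ∀ {m f C}, A.Gr z (m + 1) f C → A.Gr z m f C
  | 0, _, C, ⟨c, h, a, hc, e, hh⟩ => fun τ hτ ↦ by
      refine A.mono (A.congr (A.add hc (smul τ (hh τ hτ))) (e τ hτ)) ?_
      have := mul_le_of_le_one_left (c_le (hh τ hτ)) (I_abs hτ)
      linarith
  | _ + 1, _, _, ⟨c, h, a, hc, e, hh⟩ => ⟨c, h, a, hc, e, weaken hh⟩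

theorem inst : ∀ {m f C}, A.Gr z m f C → ∀ τ ∈ I z, A.N (f τ) C
  | 0, _, _, h => h
  | _ + 1, _, _, h => inst (weaken h)

theorem add : ∀ {m f g B C}, A.Gr z m f B → A.Gr z m g C →
    A.Gr z m (fun τ x ↦ f τ x + g τ x) (B + C)
  | 0, _, _, _, _, hf, hg => fun τ hτ ↦ A.add (hf τ hτ) (hg τ hτ)
  | _ + 1, _, _, _, _, ⟨c, h, a, hc, e, hh⟩, ⟨d, k, b, hd, e', hk⟩ =>
    ⟨fun x ↦ c x + d x, fun τ x ↦ h τ x + k τ x, a + b, A.add hc hd,
      fun τ hτ x hx ↦ by simp only [e τ hτ x hx, e' τ hτ x hx]; ring,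
      mono (add hh hk) (by linarith)⟩

theorem cst {c : List ℝ → ℝ} : ∀ {m a}, A.N c a → A.Gr z m (fun _ ↦ c) a
  | 0, _, h => fun _ _ ↦ h
  | _ + 1, a, h => ⟨c, fun _ _ ↦ 0, a, h, fun τ _ x _ ↦ by ring,
      mono (cst (A.const 0)) (by simp)⟩

theorem cmul {c : List ℝ → ℝ} {a : ℝ} (hc : A.N c a) : ∀ {m f C}, A.Gr z m f C →
    A.Gr z m (fun τ x ↦ c x * f τ x) (a * C)
  | 0, _, _, hf => fun τ hτ ↦ A.mul hc (hf τ hτ)
  | _ + 1, _, _, ⟨d, k, b, hd, e, hk⟩ =>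
    ⟨fun x ↦ c x * d x, fun τ x ↦ c x * k τ x, a * b, A.mul hc hd,
      fun τ hτ x hx ↦ by simp only [e τ hτ x hx]; ring, mono (cmul hc hk) (by linarith)⟩

theorem tau : ∀ {m f C}, A.Gr z m f C → A.Gr z m (fun τ x ↦ τ * f τ x) C
  | 0, _, _, hf => fun τ hτ ↦ A.mono (smul τ (hf τ hτ))
      (mul_le_of_le_one_left (c_le (hf τ hτ)) (I_abs hτ))
  | _ + 1, f, _, hf => ⟨fun _ ↦ 0, f, |0|, A.const 0, fun τ _ x _ ↦ by ring,
      mono (weaken hf) (by simp)⟩

theorem mul : ∀ {m f g B C}, A.Gr z m f B → A.Gr z m g C →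
    A.Gr z m (fun τ x ↦ f τ x * g τ x) (B * C)
  | 0, _, _, _, _, hf, hg => fun τ hτ ↦ A.mul (hf τ hτ) (hg τ hτ)
  | _ + 1, _, g, _, _, ⟨c, h, a, hc, e, hh⟩, hg => by
      obtain ⟨d, k, b, hd, e', hk⟩ := id hg
      exact ⟨fun x ↦ c x * d x, fun τ x ↦ c x * k τ x + h τ x * g τ x, a * b, A.mul hc hd,
        fun τ hτ x hx ↦ by simp only [e τ hτ x hx, e' τ hτ x hx]; ring,
        mono (add (cmul hc hk) (mul hh (weaken hg))) (by linarith)⟩

theorem tsum : ∀ {m} {f : ℕ → ℝ → List ℝ → ℝ} {C : ℕ → ℝ}, (∀ n, A.Gr z m (f n) (C n)) →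
    Summable C → A.Gr z m (fun τ x ↦ ∑' n, f n τ x) (∑' n, C n)
  | 0, _, _, h, hC => fun τ hτ ↦ A.tsum (fun n ↦ h n τ hτ) hC
  | m + 1, f, C, h, hC => by
      choose c k a hc e hk using h
      have h1 : ∀ n, a n ≤ C n := fun n ↦ by
        have := c_le ((hk n).inst 0 (I_zero z)); linarith
      have sa : Summable a := .of_nonneg_of_le (fun n ↦ c_le (hc n)) h1 hC
      refine ⟨fun x ↦ ∑' n, c n x, fun τ x ↦ ∑' n, k n τ x, ∑' n, a n, A.tsum hc sa,
        fun τ hτ x hx ↦ ?_, (tsum hk (hC.sub sa)).mono (hC.tsum_sub sa).le⟩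
      have s1 : Summable fun n ↦ c n x := .of_norm_bounded sa fun n ↦ A.sup (hc n) x hx
      have s2 : Summable fun n ↦ k n τ x :=
        .of_norm_bounded (hC.sub sa) fun n ↦ A.sup ((hk n).inst τ hτ) x hx
      simp only [e _ τ hτ x hx]
      rw [s1.tsum_add (s2.mul_left τ), tsum_mul_left]

end Gr

variable (A) in
/-- one more variable -/
def gr (z : Bool) (m : ℕ) : Alg where
  D := {y | ∃ τ ∈ I z, ∃ x ∈ A.D, y = τ :: x}
  N f C := A.Gr z m (fun τ x ↦ f (τ :: x)) C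
  ne := let ⟨x, hx⟩ := A.ne; ⟨_, 0, I_zero z, x, hx, rfl⟩
  mono := Gr.mono
  congr h e := h.congr fun τ hτ x hx ↦ e _ ⟨τ, hτ, x, hx, rfl⟩
  add := Gr.add
  const c := Gr.cst (A.const c)
  mul := Gr.mul
  sup h := by rintro _ ⟨τ, hτ, x, hx, rfl⟩; exact A.sup (h.inst τ hτ) x hx
  tsum := Gr.tsum

/-- the iterated graded norm -/
def of : List (Bool × ℕ) → Alg
  | [] => base
  | p :: L => (of L).gr p.1 p.2

theorem mo_N : ∀ (L : List (Bool × ℕ)) (Ss : List ℕ) (k : ℕ), (of L).N (fun x ↦ mo Ss x k) 1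
  | L, [], k => by simpa [mo] using (of L).const 1
  | [], _ :: _, k => by simp [of, base, mo]
  | p :: L, S :: Ss, k => by
    have : ∀ i : ℕ, (of L).Gr p.1 p.2 (fun τ x ↦ τ ^ i * mo Ss x (k / S)) 1 := fun i ↦ by
      induction i with
      | zero => exact (Gr.cst (mo_N L Ss (k / S))).congr fun _ _ _ _ ↦ by simp
      | succ i ih => exact ih.tau.congr fun _ _ _ _ ↦ by ring
    exact this _

theorem var_N : ∀ (L : List (Bool × ℕ)) (i : ℕ), (of L).N (fun x ↦ x.getD i 0) 1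
  | [], i => by simp [of, base]
  | p :: L, 0 => (Gr.cst (z := p.1) (m := p.2) ((of L).mono ((of L).const 1) (by simp))).tau.congr
      fun _ _ _ _ ↦ by simp
  | p :: L, i + 1 => Gr.cst (var_N L i)

theorem of_mem : ∀ {L : List (Bool × ℕ)} {x : List ℝ}, x ∈ (of L).D →
    (∀ y ∈ x, |y| ≤ 1) ∧ Flag (L.map (·.1)) x
  | [], x, h => by rw [show x = [] from h]; simp [Flag]
  | p :: L, _, ⟨τ, hτ, x, hx, rfl⟩ => by
    refine ⟨List.forall_mem_cons.2 ⟨I_abs hτ, (of_mem hx).1⟩, fun hb ↦ ?_, (of_mem hx).2⟩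
    have hb : p.1 = true := hb
    rw [hb] at hτ
    exact hτ.1

theorem geom (h : A.N f C) (hC : C ≤ 1 / 2) :
    A.N (fun x ↦ (1 - f x)⁻¹ - 1) (C * (1 + 2 * C)) := by
  have h0 := c_le h
  have := A.tsum (f := fun n x ↦ f x * f x ^ n) (fun n ↦ A.mul h (pow h n))
    ((summable_geometric_of_lt_one h0 (by linarith)).mul_left _)
  rw [tsum_mul_left, tsum_geometric_of_lt_one h0 (by linarith)] at this
  refine A.mono (A.congr this fun x hx ↦ ?_) (mul_le_mul_of_nonneg_left ?_ h0)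
  · have h1 := A.sup h x hx
    have h2 : 1 - f x ≠ 0 := by have := (abs_le.1 h1).2; linarith
    rw [tsum_mul_left, tsum_geometric_of_abs_lt_one (by linarith)]
    field_simp; ring
  · rw [inv_le_iff_one_le_mul₀ (by linarith)]; nlinarith

/-- the iteration for the square root -/
noncomputable def sqIt (e : ℝ) : ℕ → ℝ
  | 0 => 0
  | n + 1 => (e + sqIt e n * sqIt e n) / 2

theorem sqrt_N (h : A.N f C) (hC : C ≤ 1 / 2) : A.N (fun x ↦ 1 - √(1 - f x)) C := by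
  have h0 := c_le h
  have a1 : ∀ n, A.N (fun x ↦ sqIt (f x) n) C := fun n ↦ by
    induction n with
    | zero => exact A.mono (A.const 0) (by simpa using h0)
    | succ n ih =>
      refine A.mono (A.congr (smul (1 / 2) (A.add h (A.mul ih ih))) fun x _ ↦ ?_) ?_
      · rw [sqIt]; ring
      · rw [abs_of_pos (by norm_num)]; nlinarith
  have a2 : ∀ n, A.N (fun x ↦ sqIt (f x) (n + 1) - sqIt (f x) n) (C / 2 * (1 / 2) ^ n) := fun n ↦ by
    induction n with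
    | zero =>
      refine A.mono (A.congr (smul (1 / 2) h) fun x _ ↦ by simp [sqIt]; ring) ?_
      rw [abs_of_pos (by norm_num)]; linarith
    | succ n ih =>
      refine A.mono (A.congr (smul (1 / 2) (A.mul ih (A.add (a1 (n + 1)) (a1 n)))) fun x _ ↦ ?_) ?_
      · conv_lhs => rw [sqIt.eq_2 _ (n + 1)]; arg 2; rw [sqIt.eq_2]
        ring
      · have : 0 ≤ C / 2 * (1 / 2) ^ n := by positivity
        rw [abs_of_pos (by norm_num), pow_succ]; nlinarith
  have hs : Summable fun n : ℕ ↦ C / 2 * (1 / 2) ^ n := summable_geometric_two.mul_left _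
  have := A.tsum a2 hs
  rw [tsum_mul_left, tsum_geometric_two] at this
  refine A.mono (A.congr this fun x hx ↦ ?_) (by linarith)
  have s1 : Summable fun n ↦ sqIt (f x) (n + 1) - sqIt (f x) n :=
    .of_norm_bounded hs fun n ↦ A.sup (a2 n) x hx
  have t1 := s1.hasSum.tendsto_sum_nat
  simp only [Finset.sum_range_sub, sqIt.eq_1, sub_zero] at t1
  generalize ∑' n, (sqIt (f x) (n + 1) - sqIt (f x) n) = d at t1
  have t2 := t1.comp (Filter.tendsto_add_atTop_nat 1)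
  have t3 := ((t1.mul t1).const_add (f x)).div_const 2
  have e1 : d = (f x + d * d) / 2 := tendsto_nhds_unique t2 t3
  have e2 : d ≤ C := le_of_tendsto' t1 fun n ↦ (abs_le.1 (A.sup (a1 n) x hx)).2
  rw [show 1 - f x = (1 - d) ^ 2 by linarith, Real.sqrt_sq (by linarith)]
  ring

theorem ph2_rem (h : A.N f C) (hC : C ≤ 1) :
    A.N (fun x ↦ ph2 (f x) - ∑ n ∈ range 12, f x ^ n / (n + 2).factorial)
      (2 * C ^ 12 / (14 : ℕ).factorial) := by
  have hC0 := c_le h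
  have hb : ∀ n : ℕ, |(1 / (n + 12 + 2).factorial : ℝ)| * C ^ (n + 12) ≤
      C ^ 12 / (14 : ℕ).factorial * (1 / 2) ^ n := fun n ↦ by
    have h1 : (14 : ℕ).factorial * 2 ^ n ≤ (n + 12 + 2).factorial := by
      rw [show n + 12 + 2 = 14 + n by ring]
      refine le_trans ?_ Nat.factorial_mul_pow_le_factorial
      gcongr; norm_num
    have h2 : ((14 : ℕ).factorial * 2 ^ n : ℝ) ≤ (n + 12 + 2).factorial := by exact_mod_cast h1
    have h3 : C ^ (n + 12) ≤ C ^ 12 := pow_le_pow_of_le_one hC0 hC (by omega)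
    rw [abs_of_pos (by positivity)]
    calc (1 / (n + 12 + 2).factorial : ℝ) * C ^ (n + 12)
        ≤ 1 / ((14 : ℕ).factorial * 2 ^ n) * C ^ 12 := by gcongr
      _ = _ := by rw [one_div_pow]; field_simp
  have := A.tsum (f := fun n x ↦ 1 / (n + 12 + 2).factorial * f x ^ (n + 12))
    (fun n ↦ A.mono (smul _ (pow h _)) (hb n)) (summable_geometric_two.mul_left _)
  rw [tsum_mul_left, tsum_geometric_two] at this
  refine A.mono (A.congr this fun x _ ↦ ?_) (le_of_eq (by ring))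
  rw [ph2, ← (ph2_summable _).sum_add_tsum_nat_add 12, add_sub_cancel_left]
  exact tsum_congr fun n ↦ by ring

end Alg

end Pool.Agent.Lib.MP_d6150d_an
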