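import Pool.Agent.Lib.MP_d6150d_an.GRun

/-! Soundness of the generic checker. -/

namespace Pool.Agent.Lib.MP_d6150d_an

open Set Filter Topology Asymptotics

/-- vanishing of a given order at the origin -/
def Ord : ℕ → (ℝ → ℝ) → Prop
  | 0, _ => True
  | 1, φ => φ 0 = 0
  | m + 2, φ => φ =O[𝓝[>] 0] fun y ↦ y ^ (m + 2)

/-- for all points of a box -/
def AllB : List (ℤ × ℤ) → (List ℝ → Prop) → Prop
  | [], P => P []
  | b :: B, P => ∀ y : ℝ, b.1 / 2 ^ 47 ≤ y → y ≤ b.2 / 2 ^ 47 → AllB B fun x ↦ P (y :: x)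

/-- the points of a box -/
def InB : List (ℤ × ℤ) → List ℝ → Prop :=
  List.Forall₂ fun b y ↦ (b.1 : ℝ) / 2 ^ 47 ≤ y ∧ y ≤ b.2 / 2 ^ 47

/-- the hypotheses of vanishing -/
def Van : List Vr → List (ℤ × ℤ) → (List ℝ → ℝ) → Prop
  | v :: vs, b :: bs, f =>
    (b.1 ≤ 0 → AllB bs fun x ↦ Ord v.m fun y ↦ f (y :: x)) ∧
      ∀ y : ℝ, b.1 / 2 ^ 47 ≤ y → y ≤ b.2 / 2 ^ 47 → Van vs bs fun x ↦ f (y :: x)
  | _, _, _ => True

/-- the sign on the face where the cut variables vanish -/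
def Nn : List Vr → List (ℤ × ℤ) → (List ℝ → ℝ) → Prop
  | v :: vs, b :: bs, f => ∀ y : ℝ, b.1 / 2 ^ 47 ≤ y → y ≤ b.2 / 2 ^ 47 →
      Nn vs bs fun x ↦ f (cond v.c 0 y :: x)
  | _, _, f => 0 ≤ f []

/-- the marked variables are positive -/
def PosV : List Vr → List ℝ → Prop
  | v :: vs, y :: Y => ((v.c = true ∨ 0 < v.m) → 0 < y) ∧ PosV vs Y
  | _, _ => True

theorem allB_iff : ∀ {B P}, AllB B P ↔ ∀ x, InB B x → P x
  | [], _ => ⟨fun h _ hx ↦ by cases hx; exact h, fun h ↦ h _ .nil⟩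
  | _ :: _, _ => ⟨fun h _ hx ↦ by
      cases hx with | cons h1 h2 => exact allB_iff.1 (h _ h1.1 h1.2) _ h2,
    fun h y h1 h2 ↦ allB_iff.2 fun x hx ↦ h _ (.cons ⟨h1, h2⟩ hx)⟩

theorem Ord.lin : ∀ {m φ ψ} (a : ℝ), Ord m φ → Ord m ψ → Ord m fun y ↦ a * (φ y - ψ y)
  | 0, _, _, _, _, _ => trivial
  | 1, φ, ψ, a, h, k => by
    have h : φ 0 = 0 := h
    have k : ψ 0 = 0 := k
    show a * (φ 0 - ψ 0) = 0
    rw [h, k]; ring
  | _ + 2, _, _, a, h, k => (IsBigO.sub h k).const_mul_left a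

theorem Ord.zero : ∀ m, Ord m fun _ ↦ 0
  | 0 => trivial
  | 1 => rfl
  | _ + 2 => isBigO_zero _ _

theorem Van.lin (a : ℝ) : ∀ {vs bs f g}, Van vs bs f → Van vs bs g →
    Van vs bs fun x ↦ a * (f x - g x)
  | [], _, _, _, _, _ => trivial
  | _ :: _, [], _, _, _, _ => trivial
  | _ :: _, _ :: _, _, _, h, k => ⟨fun hb ↦ allB_iff.2 fun x hx ↦
      (allB_iff.1 (h.1 hb) x hx).lin a (allB_iff.1 (k.1 hb) x hx),
      fun y h1 h2 ↦ (h.2 y h1 h2).lin a (k.2 y h1 h2)⟩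

theorem Van.zero : ∀ vs bs, Van vs bs fun _ ↦ 0
  | [], _ => trivial
  | _ :: _, [] => trivial
  | _ :: vs, _ :: bs => ⟨fun _ ↦ allB_iff.2 fun _ _ ↦ Ord.zero _, fun _ _ _ ↦ Van.zero vs bs⟩

theorem Nn.smul {a : ℝ} (ha : 0 ≤ a) : ∀ {vs bs f}, Nn vs bs f → Nn vs bs fun x ↦ a * (f x - 0)
  | [], _, _, h => mul_nonneg ha (sub_nonneg.2 h)
  | _ :: _, [], _, h => mul_nonneg ha (sub_nonneg.2 h)
  | _ :: _, _ :: _, _, h => fun y h1 h2 ↦ Nn.smul ha (h y h1 h2)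

/-- inclusion of boxes -/
def SubB : List (ℤ × ℤ) → List (ℤ × ℤ) → Prop := List.Forall₂ fun a b ↦ b.1 ≤ a.1 ∧ a.2 ≤ b.2

theorem div47 {a b : ℤ} (h : a ≤ b) : (a : ℝ) / 2 ^ 47 ≤ b / 2 ^ 47 :=
  div_le_div_of_nonneg_right (Int.cast_le.2 h) (by positivity)

theorem InB.mono : ∀ {A B x}, SubB A B → InB A x → InB B x
  | _, _, _, .nil, h => h
  | _, _, _, .cons h t, .cons h' t' =>
    .cons ⟨(div47 h.1).trans h'.1, h'.2.trans (div47 h.2)⟩ (InB.mono t t')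

theorem Van.mono : ∀ {vs A B f}, SubB A B → Van vs B f → Van vs A f
  | [], _, _, _, _, _ => trivial
  | _ :: _, _, _, _, .nil, _ => trivial
  | _ :: _, _, _, _, .cons h t, k => ⟨fun hb ↦ allB_iff.2 fun x hx ↦
      allB_iff.1 (k.1 (h.1.trans hb)) x (hx.mono t),
      fun y h1 h2 ↦ (k.2 y ((div47 h.1).trans h1) (h2.trans (div47 h.2))).mono t⟩

theorem Nn.mono : ∀ {vs A B f}, SubB A B → Nn vs B f → Nn vs A f
  | [], _, _, _, _, k => k
  | _ :: _, _, _, _, .nil, k => k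
  | _ :: _, _, _, _, .cons h t, k =>
    fun y h1 h2 ↦ (k y ((div47 h.1).trans h1) (h2.trans (div47 h.2))).mono t

/-- the orders of the graded norm -/
def alg : List Vr → List (ℤ × ℤ) → List (Bool × ℕ)
  | v :: vs, b :: bs => (v.os b, cond (v.os b) (cond v.c 1 0 + v.m) 0) :: alg vs bs
  | _, _ => []

theorem os_zero {v : Vr} {b : ℤ × ℤ} (h : v.os b = true) : b.1 = 0 := by
  rw [Vr.os, Bool.and_eq_true, decide_eq_true_eq] at h; exact h.2

theorem aff1_os {v : Vr} {b : ℤ × ℤ} (h : v.os b = true) (τ : ℝ) :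
    aff1 v b τ = b.2 / 2 ^ 47 * τ := by
  simp only [aff1, h, cond_true]; push_cast; ring

theorem aff1_mem {v : Vr} {b : ℤ × ℤ} {y τ : ℝ} (h : (b.1 : ℝ) / 2 ^ 47 ≤ y ∧ y ≤ b.2 / 2 ^ 47)
    (hτ : τ ∈ Alg.I (v.os b)) : (b.1 : ℝ) / 2 ^ 47 ≤ aff1 v b τ ∧ aff1 v b τ ≤ b.2 / 2 ^ 47 := by
  have h1 := h.1.trans h.2
  cases ho : v.os b <;> rw [ho] at hτ
  · obtain ⟨t1, t2⟩ : -1 ≤ τ ∧ τ ≤ 1 := hτ
    simp only [aff1, ho, cond_false]; push_cast
    constructor <;> nlinarith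
  · obtain ⟨t1, t2⟩ : 0 ≤ τ ∧ τ ≤ 1 := hτ
    rw [aff1_os ho]
    rw [os_zero ho] at h1 ⊢
    simp only [Int.cast_zero, zero_div] at h1 ⊢
    constructor <;> nlinarith

theorem aff1_surj (v : Vr) {b : ℤ × ℤ} {y : ℝ} (h : (b.1 : ℝ) / 2 ^ 47 ≤ y ∧ y ≤ b.2 / 2 ^ 47) :
    ∃ τ ∈ Alg.I (v.os b), aff1 v b τ = y := by
  have hc : Continuous (aff1 v b) := by unfold aff1; fun_prop
  refine intermediate_value_Icc (by cases v.os b <;> simp) hc.continuousOn ⟨?_, ?_⟩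
  · refine le_trans (le_of_eq ?_) h.1
    cases ho : v.os b
    · simp only [aff1, ho, cond_false]; push_cast; ring
    · rw [aff1_os ho, os_zero ho]; simp
  · refine h.2.trans (le_of_eq ?_)
    cases ho : v.os b
    · simp only [aff1, ho, cond_false]; push_cast; ring
    · rw [aff1_os ho]; simp

theorem aff_mem : ∀ {vs bs Y x}, vs.length = bs.length → InB bs Y → x ∈ (Alg.of (alg vs bs)).D →
    InB bs (aff vs bs x)
  | [], [], _, _, _, _, _ => .nil
  | _ :: _, _ :: _, _, _, hl, .cons h t, ⟨_, hτ, _, hx, rfl⟩ =>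
    .cons (aff1_mem h hτ) (aff_mem (Nat.succ.inj hl) t hx)

theorem aff_surj : ∀ {vs bs Y}, vs.length = bs.length → InB bs Y →
    ∃ x ∈ (Alg.of (alg vs bs)).D, aff vs bs x = Y
  | [], [], _, _, .nil => ⟨[], rfl, rfl⟩
  | v :: _, _ :: _, _, hl, .cons h t => by
    obtain ⟨τ, hτ, rfl⟩ := aff1_surj v h
    obtain ⟨x, hx, rfl⟩ := aff_surj (Nat.succ.inj hl) t
    exact ⟨τ :: x, ⟨τ, hτ, x, hx, rfl⟩, rfl⟩

theorem alg_len : ∀ {vs bs x}, vs.length = bs.length → x ∈ (Alg.of (alg vs bs)).D →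
    x.length = vs.length
  | [], [], x, _, h => by rw [show x = [] from h]; rfl
  | _ :: _, _ :: _, _, hl, ⟨_, _, _, hx, rfl⟩ => congrArg (· + 1) (alg_len (Nat.succ.inj hl) hx)

theorem alg_fl : ∀ vs bs, (alg vs bs).map (·.1) = flags vs bs
  | [], _ => rfl
  | _ :: _, [] => rfl
  | _ :: vs, _ :: bs => congrArg (_ :: ·) (alg_fl vs bs)

theorem mo_pre (L : List (Bool × ℕ)) : ∀ (pre : List ℝ) (Ss : List ℕ) (k : ℕ), (∀ y ∈ pre, |y| ≤ 1) →
    (Alg.of L).N (fun x ↦ mo Ss (pre ++ x) k) 1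
  | [], Ss, k, _ => Alg.mo_N L Ss k
  | _ :: _, [], k, _ => by simpa [mo] using (Alg.of L).const 1
  | y :: pre, S :: Ss, k, h => ((mo_pre L pre Ss (k / S) fun z hz ↦ h z (by simp [hz])).smul
      (y ^ (k % S))).mono (by
        rw [mul_one, abs_pow]; exact pow_le_one₀ (abs_nonneg _) (h y (by simp)))

/-- the values already fixed are admissible -/
def Adm (P : St) (L : List (Bool × ℕ)) (pre : List ℝ) : Prop :=
  (∀ y ∈ pre, |y| ≤ 1) ∧ ∀ x ∈ (Alg.of L).D, Flag P.fl (pre ++ x)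

/-- the setting attached to a list of orders -/
def Adm.sx {P : St} {L : List (Bool × ℕ)} {pre : List ℝ} (h : Adm P L pre) : Sx :=
  ⟨P, Alg.of L, pre, fun k ↦ mo_pre L pre _ k h.1, h.2⟩

variable {P : St} {L : List (Bool × ℕ)} {pre : List ℝ} {z : Bool} {m : ℕ} {c : Ctx} {a : TM}
  {f : List ℝ → ℝ} {τ : ℝ}

theorem Adm.next (h : Adm P ((z, m) :: L) pre) (hτ : τ ∈ Alg.I z) : Adm P L (pre ++ [τ]) :=
  ⟨fun y hy ↦ (List.mem_append.1 hy).elim (h.1 y) fun hy ↦ by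
      rw [List.mem_singleton.1 hy]; exact Alg.I_abs hτ,
    fun x hx ↦ by rw [List.append_assoc]; exact h.2 _ ⟨τ, hτ, x, hx, rfl⟩⟩

theorem VG.inst {n : ℕ} {h : Adm P ((z, m) :: L) pre} (v : VG h.sx n a f) (hτ : τ ∈ Alg.I z) :
    VG (h.next hτ).sx n a fun x ↦ f (τ :: x) := by
  obtain ⟨e, R, v⟩ := v
  exact ⟨e, R, (Alg.Gr.inst v τ hτ).congr fun x _ ↦ by simp [Sx.ev, Adm.sx]⟩

theorem prt_rep (G : c.Good P) {e : ℕ → ℤ} (R : Rep P c.n a e) (hl : a.l < 2 ^ 223)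
    (hn : c.n = nn P.Ss) (ps : List (ℕ → Bool)) {i : ℕ} (hi : i ≤ N0)
    (hk : ∀ k, qq P.Ss ps (k + i) = true → keep P.Ss k = true) :
    Rep P c.n (prt c (pm P.Ss ps 1) i a)
      (fun k ↦ if k + i < c.n ∧ qq P.Ss ps (k + i) = true then e (k + i) else 0) ∧
      (prt c (pm P.Ss ps 1) i a).r = a.r := by
  have R1 := R.part G hl (fun k ↦ k < c.n ∧ qq P.Ss ps k = true) i hi (fun k h ↦ h.1)
    fun k h ↦ hk k h.2
  rw [pm_dg (hn ▸ G.n2), ← hn, prt]
  have h0 : (TM.part c (dg (fun k ↦ ind (k < c.n ∧ qq P.Ss ps k = true)) N0) i a).r = 0 ∧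
      (TM.part c (dg (fun k ↦ ind (k < c.n ∧ qq P.Ss ps k = true)) N0) i a).l = a.l := by
    rw [TM.part, if_pos hl]; exact ⟨rfl, rfl⟩
  generalize TM.part c _ i a = b at R1 h0
  have R2 : Rep P c.n (b.widen a.r) _ := ⟨R1.supp, R1.x, R1.l⟩
  have h1 : (b.widen a.r).l < 2 ^ 223 := h0.2.trans_lt hl
  refine ⟨(R2.tight G h1).1, ?_⟩
  rw [TM.tight_eq, if_pos h1]
  show b.r + a.r = a.r
  rw [h0.1, zero_add]

theorem VG.split (G : c.Good P) (hn : c.n = nn P.Ss) (hp : pre.length < P.Ss.length)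
    {h : Adm P ((z, m + 1) :: L) pre} (v : VG h.sx c.n a f) (hl : a.l < 2 ^ 223) :
    ∃ f0 f1 : List ℝ → ℝ, (∀ τ ∈ Alg.I z, ∀ x ∈ (Alg.of L).D, f (τ :: x) = f0 x + τ * f1 (τ :: x)) ∧
      VG (h.next (Alg.I_zero z)).sx c.n (prt c (pm P.Ss (triv pre ++ [Nat.beq 0]) 1) 0 a) f0 ∧
      VG (Adm.sx (L := (z, m) :: L) h) c.n (prt c (pm P.Ss (triv pre ++ [Nat.ble 1]) 1)
        (P.Ss.take pre.length).prod a) f1 := by
  obtain ⟨e, R, c0, h1, a0, n0, e1, n1⟩ := v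
  have n2 := G.n2
  have hs : (P.Ss.take pre.length).prod ≤ N0 := by
    have h2 := (nn_le P.Ss).2
    have h3 := Nat.le_of_dvd (keep_prod G.k0) (List.take_sublist pre.length P.Ss).prod_dvd_prod
    omega
  obtain ⟨R0, r0⟩ := prt_rep G R hl hn (triv pre ++ [Nat.beq 0]) (Nat.zero_le _)
    fun k hk ↦ qq_keep hk
  obtain ⟨R1, r1⟩ := prt_rep G R hl hn (triv pre ++ [Nat.ble 1]) hs fun k hk ↦ by
    simpa using (mo_shift (τ := 0) (x := []) pre P.Ss _ hp hk).2.1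
  obtain ⟨d0, d1, R0, R1, sp⟩ : ∃ d0 d1, Rep P c.n _ d0 ∧ Rep P c.n _ d1 ∧ ∀ τ x,
      evL P.Ss e (pre ++ τ :: x) = evL P.Ss d0 (pre ++ 0 :: x) + τ * evL P.Ss d1 (pre ++ τ :: x) :=
    ⟨_, _, R0, R1, evL_split (P := P) R (by omega) pre hp⟩
  have p0 := n0.c_le
  have p1 := (n1.inst 0 (Alg.I_zero z)).c_le
  refine ⟨fun x ↦ (c0 x + evL P.Ss d0 (pre ++ 0 :: x)) / 2 ^ 64,
    fun y ↦ (h1 (y.headD 0) y.tail + evL P.Ss d1 (pre ++ y)) / 2 ^ 64, fun τ hτ x hx ↦ ?_,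
    ⟨_, R0, (n0.congr fun x _ ↦ ?_).mono (by rw [r0]; linarith)⟩,
    _, R1, (n1.congr fun τ _ x _ ↦ ?_).mono (by rw [r1]; linarith)⟩
  · have := e1 τ hτ x hx
    simp only [Sx.ev, Adm.sx] at this
    rw [sp τ x] at this
    simp only [List.headD_cons, List.tail_cons]
    linear_combination this / 2 ^ 64
  · simp only [Sx.ev, Adm.sx, List.append_assoc, List.singleton_append]; ring
  · simp only [Sx.ev, Adm.sx, List.headD_cons, List.tail_cons]; ring

/-- vanishing in the normalised variable -/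
def OrdT (m : ℕ) (φ : ℝ → ℝ) : Prop :=
  m = 0 ∨ (m = 1 ∧ φ 0 = 0) ∨ φ =O[𝓝[>] 0] fun τ ↦ τ ^ m

theorem Ord.ordT : ∀ {m} {b : ℝ} {φ}, 0 < b → Ord m φ → OrdT m fun τ ↦ φ (b * τ)
  | 0, _, _, _, _ => .inl rfl
  | 1, _, _, _, h => .inr (.inl ⟨rfl, by simpa [Ord] using h⟩)
  | m + 2, b, _, hb, h => .inr (.inr (by
      have t : Tendsto (fun τ : ℝ ↦ b * τ) (𝓝[>] 0) (𝓝[>] 0) :=
        tendsto_nhdsWithin_iff.2 ⟨((continuous_const.mul continuous_id).tendsto' 0 0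
          (by simp)).mono_left nhdsWithin_le_nhds,
          eventually_mem_nhdsWithin.mono fun τ hτ ↦ mul_pos hb hτ⟩
      refine (IsBigO.comp_tendsto h t).trans ?_
      simp only [Function.comp_def, mul_pow]
      exact isBigO_const_mul_self _ _ _))

theorem ordT_step {φ ψ : ℝ → ℝ} {a B : ℝ} (e : ∀ τ ∈ Icc (0 : ℝ) 1, φ τ = a + τ * ψ τ)
    (hB : ∀ τ ∈ Icc (0 : ℝ) 1, |ψ τ| ≤ B) (h : OrdT (m + 1) φ) : a = 0 ∧ OrdT m ψ := by
  rcases h with h | h | h
  · omega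
  · exact ⟨by simpa [h.2] using (e 0 (by simp)).symm, .inl (by omega)⟩
  have ev : ∀ᶠ τ in 𝓝[>] (0 : ℝ), τ ∈ Ioc (0 : ℝ) 1 := Ioc_mem_nhdsGT one_pos
  have t0 : Tendsto (fun τ : ℝ ↦ τ) (𝓝[>] 0) (𝓝 0) := tendsto_id.mono_left nhdsWithin_le_nhds
  have h0 : a = 0 := by
    have t1 : Tendsto φ (𝓝[>] 0) (𝓝 0) := h.trans_tendsto (by simpa using t0.pow (m + 1))
    have b1 : ψ =O[𝓝[>] 0] fun _ ↦ (1 : ℝ) :=
      .of_bound B (ev.mono fun τ hτ ↦ by simpa using hB τ (Ioc_subset_Icc_self hτ))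
    have t2 : Tendsto (fun τ ↦ τ * ψ τ) (𝓝[>] 0) (𝓝 0) :=
      ((isBigO_refl (fun τ : ℝ ↦ τ) _).mul b1).trans_tendsto (by simpa using t0)
    have t3 := (t1.sub t2).congr' (f₂ := fun _ ↦ a) (ev.mono fun τ hτ ↦ by
      simp [e τ (Ioc_subset_Icc_self hτ)])
    simpa using tendsto_nhds_unique tendsto_const_nhds t3
  obtain ⟨K, hK⟩ := h.bound
  refine ⟨h0, .inr (.inr (.of_bound K ((hK.and ev).mono fun τ ⟨h1, hτ⟩ ↦
    le_of_mul_le_mul_left ?_ hτ.1)))⟩
  rw [e τ (Ioc_subset_Icc_self hτ), h0, zero_add, norm_mul, pow_succ, norm_mul,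
    Real.norm_of_nonneg hτ.1.le] at h1
  exact h1.trans_eq (by ring)

theorem dvs_sound (G : c.Good P) (hn : c.n = nn P.Ss) (hp : pre.length < P.Ss.length) {j : ℕ}
    {k : TM → Bool} (h : Adm P ((true, j) :: L) pre) : ∀ {m a f},
    VG (Adm.sx (L := (true, j + m) :: L) h) c.n a f →
    dvs c (pm P.Ss (triv pre ++ [Nat.ble 1]) 1) (P.Ss.take pre.length).prod m a k = true →
    (∀ x ∈ (Alg.of L).D, OrdT m fun τ ↦ f (τ :: x)) → ∃ b g, VG h.sx c.n b g ∧ k b = true ∧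
      ∀ τ ∈ Alg.I true, ∀ x ∈ (Alg.of L).D, f (τ :: x) = τ ^ m * g (τ :: x)
  | 0, a, f, v, e, _ => ⟨a, f, v, e, fun _ _ _ _ ↦ by simp⟩
  | m + 1, a, f, v, e, ho => by
    rw [dvs, Bool.and_eq_true, decide_eq_true_eq, frT_eq] at e
    obtain ⟨f0, f1, e1, -, v1⟩ := VG.split (m := j + m) G hn hp v e.1
    have st := fun x hx ↦ ordT_step (fun τ hτ ↦ e1 τ hτ x hx)
      (fun τ hτ ↦ v1.bound (τ := τ :: x) ⟨τ, hτ, x, hx, rfl⟩) (ho x hx)
    obtain ⟨b, g, v2, e2, e3⟩ := dvs_sound G hn hp h v1 e.2 fun x hx ↦ (st x hx).2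
    exact ⟨b, g, v2, e2, fun τ hτ x hx ↦ by rw [e1 τ hτ x hx, (st x hx).1, e3 τ hτ x hx]; ring⟩

theorem triv_snoc (pre : List ℝ) (τ : ℝ) : (fun _ ↦ true) :: triv pre = triv (pre ++ [τ]) := by
  simp [triv, List.map_const', List.replicate_succ, ← List.replicate_succ']

theorem fin_sound (G : c.Good P) (hn : c.n = nn P.Ss) : ∀ (vs : List Vr) (bs : List (ℤ × ℤ))
    (Y pre : List ℝ) (cu : Bool) (a : TM) (f : List ℝ → ℝ) (h : Adm P (alg vs bs) pre),
    vs.length = bs.length → P.Ss.drop pre.length = strides vs → InB bs Y → PosV vs Y →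
    VG h.sx c.n a (fun x ↦ f (aff vs bs x)) → Van vs bs f → (cu = true → Nn vs bs f) →
    fin c P.Ss vs bs (triv pre) (P.Ss.take pre.length).prod cu a = true →
    0 ≤ f Y ∧ (cu = false ∨ vs.any Vr.c = true → 0 < f Y)
  | [], [], _, pre, cu, a, f, h, _, _, .nil, _, v, _, hN, e => by
    cases cu
    · have : 0 < f [] := v.posG G e (τ := []) rfl
      exact ⟨this.le, fun _ ↦ this⟩
    · exact ⟨hN rfl, by simp⟩
  | v :: vs, b :: bs, _, pre, cu, a, f, h, hl, hS, .cons (b := y) (l₂ := Y) hy hY, hP, va, hV, hN,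
      e => by
    have hl' := Nat.succ.inj hl
    have hp : pre.length < P.Ss.length := by
      by_contra hp
      rw [List.drop_of_length_le (not_lt.1 hp)] at hS
      simp [strides] at hS
    rw [List.drop_eq_getElem_cons hp] at hS
    obtain ⟨s1, s2⟩ := List.cons.inj hS
    have IH := fun (τ : ℝ) cu a f (h : Adm P (alg vs bs) (pre ++ [τ])) ↦
      fin_sound G hn vs bs Y (pre ++ [τ]) cu a f h hl' (by rw [List.length_append]; exact s2) hY hP.2
    have s3 : ∀ τ : ℝ, (P.Ss.take (pre ++ [τ]).length).prod =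
        (P.Ss.take pre.length).prod * (2 * v.d + 1) := fun τ ↦ by
      rw [List.length_append, List.length_singleton, List.prod_take_succ _ _ hp, s1]
    simp only [s3, ← triv_snoc] at IH
    obtain ⟨τ, hτ, rfl⟩ := aff1_surj v hy
    have tp : v.os b = true → (v.c = true ∨ 0 < v.m) → 0 < τ := fun ho hc ↦ by
      have h1 := hP.1 hc
      rw [ho] at hτ
      rw [aff1_os ho] at h1
      exact (lt_of_le_of_ne hτ.1 fun h ↦ by simp [← h] at h1)
    rw [fin] at e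
    cases hc : (v.c && cu) <;> rw [hc] at e
    · have hN' : cu = true → Nn vs bs fun x ↦ f (aff1 v b τ :: x) := fun h ↦ by
        have := hN h _ hy.1 hy.2
        rwa [show v.c = false by simpa [h] using hc] at this
      have hany : cu = false ∨ (v :: vs).any Vr.c = true → cu = false ∨ vs.any Vr.c = true := by
        cases cu <;> simp_all
      cases hd : (v.os b && Nat.blt 0 v.m) <;> rw [hd] at e
      · have := IH τ cu a _ (h.next hτ) (va.inst hτ) (hV.2 _ hy.1 hy.2) hN' e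
        exact ⟨this.1, fun h ↦ this.2 (hany h)⟩
      · rw [Bool.and_eq_true, Nat.blt_eq] at hd
        have t0 := tp hd.1 (.inr hd.2)
        have b0 : (0 : ℝ) < b.2 / 2 ^ 47 := by
          have := hP.1 (.inr hd.2)
          rw [aff1_os hd.1] at this
          exact (mul_pos_iff_of_pos_right t0).1 this
        have hV1 := allB_iff.1 (hV.1 (os_zero hd.1).le)
        simp only [alg, hd.1, cond_true] at h va hτ
        obtain ⟨a', g, v2, e2, e3⟩ := dvs_sound G hn hp (j := cond v.c 1 0) h va e fun x hx ↦ by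
          simpa only [aff, aff1_os hd.1] using (hV1 _ (aff_mem hl' hY hx)).ordT b0
        have tm := pow_pos t0 v.m
        have := IH τ cu a' (fun x ↦ (τ ^ v.m)⁻¹ * (f (aff1 v b τ :: x) - 0)) (h.next hτ)
          ((VG.inst (m := cond v.c 1 0) (h := h) v2 hτ).congr fun x hx ↦ by
            have := e3 τ hτ x hx
            simp only [aff] at this
            rw [this]; field_simp; ring)
          ((hV.2 _ hy.1 hy.2).lin _ (Van.zero _ _)) (fun h ↦ (hN' h).smul (inv_pos.2 tm).le) e2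
        simp only [sub_zero] at this
        exact ⟨(mul_nonneg_iff_of_pos_left (inv_pos.2 tm)).1 this.1,
          fun h ↦ (mul_pos_iff_of_pos_left (inv_pos.2 tm)).1 (this.2 (hany h))⟩
    · simp only [cond_true, Bool.and_eq_true, decide_eq_true_eq, frT_eq] at e hc
      obtain ⟨⟨⟨ho, hl2⟩, e1⟩, e0⟩ := e
      have t0 := tp ho (.inl hc.1)
      have z0 : (b.1 : ℝ) / 2 ^ 47 ≤ 0 ∧ (0 : ℝ) ≤ b.2 / 2 ^ 47 := by
        have := hy.1.trans hy.2
        rw [os_zero ho, Int.cast_zero, zero_div] at this ⊢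
        exact ⟨le_rfl, this⟩
      simp only [alg, ho, hc.1, cond_true, add_comm 1 v.m] at h va hτ
      obtain ⟨f0, f1, e3, v0, v1⟩ := va.split G hn hp hl2
      have e4 : ∀ x ∈ (Alg.of (alg vs bs)).D, f (0 :: aff vs bs x) = f0 x := fun x hx ↦ by
        simpa [aff, aff1_os ho] using e3 0 (Alg.I_zero _) x hx
      have i0 := IH 0 true _ (fun x ↦ f (0 :: x)) (h.next (Alg.I_zero _)) (v0.congr e4) (hV.2 _ z0.1 z0.2)
        (fun _ ↦ by simpa [hc.1] using hN hc.2 _ hy.1 hy.2) e0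
      have i1 := IH τ false _ (fun x ↦ τ⁻¹ * (f (aff1 v b τ :: x) - f (0 :: x))) (h.next hτ)
        ((VG.inst (m := v.m) (h := h) v1 hτ).congr fun x hx ↦ by
          have := e3 τ hτ x hx
          simp only [aff] at this
          rw [this, e4 x hx]; field_simp; ring)
        ((hV.2 _ hy.1 hy.2).lin _ (hV.2 _ z0.1 z0.2)) (by simp) e1
      have := (mul_pos_iff_of_pos_left (inv_pos.2 t0)).1 (i1.2 (.inl rfl))
      have h5 : 0 < f (aff1 v b τ :: Y) := by linarith [i0.1]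
      exact ⟨h5.le, fun _ ↦ h5⟩

/-- the left half of a box -/
def splL : List (ℤ × ℤ) → ℕ → List (ℤ × ℤ)
  | [], _ => []
  | b :: B, 0 => (b.1, (b.1 + b.2) / 2) :: B
  | b :: B, i + 1 => b :: splL B i

/-- the right half of a box -/
def splR : List (ℤ × ℤ) → ℕ → List (ℤ × ℤ)
  | [], _ => []
  | b :: B, 0 => ((b.1 + b.2) / 2, b.2) :: B
  | b :: B, i + 1 => b :: splR B i

theorem spl_eq : ∀ B i k, spl B i k = k (splL B i) (splR B i)
  | [], _, _ => rfl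
  | b :: B, 0, k => by rw [spl, splL, splR]; cases (b.1 + b.2) / 2 <;> rfl
  | b :: B, i + 1, k => by rw [spl, spl_eq B]; rfl

theorem SubB.refl : ∀ B, SubB B B
  | [] => .nil
  | _ :: B => .cons ⟨le_rfl, le_rfl⟩ (SubB.refl B)

theorem spl_mem : ∀ {B Y} (i : ℕ), InB B Y → SubB (splL B i) B ∧ SubB (splR B i) B ∧
    (InB (splL B i) Y ∨ InB (splR B i) Y)
  | _, _, _, .nil => ⟨.nil, .nil, .inl .nil⟩
  | b :: B, y :: _, 0, .cons h t => by
    have h1 : b.1 ≤ b.2 := by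
      have := (div_le_div_iff_of_pos_right (by positivity)).1 (h.1.trans h.2)
      exact_mod_cast this
    exact ⟨.cons ⟨le_rfl, by show (b.1 + b.2) / 2 ≤ b.2; omega⟩ (SubB.refl B),
      .cons ⟨by show b.1 ≤ (b.1 + b.2) / 2; omega, le_rfl⟩ (SubB.refl B),
      (le_total y _).imp (fun k ↦ .cons ⟨h.1, k⟩ t) fun k ↦ .cons ⟨k, h.2⟩ t⟩
  | _ :: _, _ :: _, i + 1, .cons h t =>
    let ⟨a, b, c⟩ := spl_mem i t
    ⟨.cons ⟨le_rfl, le_rfl⟩ a, .cons ⟨le_rfl, le_rfl⟩ b, c.imp (.cons h) (.cons h)⟩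

theorem spl_len : ∀ B i, (splL B i).length = B.length ∧ (splR B i).length = B.length
  | [], _ => ⟨rfl, rfl⟩
  | _ :: _, 0 => ⟨rfl, rfl⟩
  | _ :: B, i + 1 => ⟨congrArg (· + 1) (spl_len B i).1, congrArg (· + 1) (spl_len B i).2⟩

/-- the value of the `j`-th result of a program -/
noncomputable def outR (p : List Ins) (j : ℕ) (Y : List ℝ) : ℝ := gtR (runR Y p []) j

/-- the chart is valid on the box -/
def Gd (C : Chart) (B : List (ℤ × ℤ)) : Prop := ∀ j < C.ng, ∀ Y, InB B Y → PosV C.vs Y →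
  (∀ n ∈ C.cons, 0 ≤ outR (C.prog.take n) 0 Y) → Van C.vs B (outR C.prog j) →
  (C.vs.any Vr.c = true → Nn C.vs B (outR C.prog j)) → 0 < outR C.prog j Y

variable {C : Chart} {B : List (ℤ × ℤ)}

theorem Gd.split (i : ℕ) (l : Gd C (splL B i)) (r : Gd C (splR B i)) : Gd C B :=
  fun j hj Y hY hP hc hV hN ↦
    let ⟨a, b, c⟩ := spl_mem i hY
    c.elim (fun k ↦ l j hj Y k hP hc (hV.mono a) fun h ↦ (hN h).mono a)
      fun k ↦ r j hj Y k hP hc (hV.mono b) fun h ↦ (hN h).mono b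

theorem allG_sound {F : TM → Bool} : ∀ {n s}, allG F n s = true → ∀ j < n, F (gt s j) = true
  | n + 1, s, h, j, hj => by
    rw [allG, Bool.and_eq_true] at h
    cases j with
    | zero => exact h.1
    | succ j =>
      have := allG_sound h.2 j (by omega)
      cases s with
      | nil => exact this
      | cons a s => exact this

theorem runR_append (Y : List ℝ) : ∀ p q s, runR Y (p ++ q) s = runR Y q (runR Y p s)
  | [], _, _ => rfl
  | _ :: p, q, _ => runR_append Y p q _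

theorem flag_zero : ∀ fl : List Bool, Flag fl (fl.map fun _ ↦ 0)
  | [] => trivial
  | _ :: fl => ⟨fun _ ↦ le_rfl, flag_zero fl⟩

theorem leaf_sound (h2 : 2 * nn (strides C.vs) ≤ 16384) (hl : C.vs.length = B.length)
    (h0 : 0 < B.length) {k : ℕ} (e : leaf C (mkC (strides C.vs) []) k B = true) : Gd C B := by
  obtain ⟨P, p1, p2⟩ : ∃ P : St, P.Ss = strides C.vs ∧ P.fl = flags C.vs B := by
    obtain _ | ⟨b, B⟩ := B
    · simp at h0
    generalize C.vs = vs at hl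
    obtain _ | ⟨v, vs⟩ := vs
    · simp at hl
    exact ⟨⟨strides (v :: vs), flags (v :: vs) (b :: B), (flags vs B).map fun _ ↦ 0, {0}, 0,
      by simp [strides], by simp, rfl, by simp,
      fun τ h ↦ by rw [show τ = 0 from h]; exact flag_zero (flags (v :: vs) (b :: B))⟩, rfl, rfl⟩
  have G := mkC_good h2 P p1
  have h : Adm P (alg C.vs B) [] := ⟨by simp, fun x hx ↦ by
    rw [p2, ← alg_fl]; exact (Alg.of_mem hx).2⟩
  rw [leaf, frC_eq, frL_eq, ← p2] at e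
  have hn : (setF (mkC (strides C.vs) []) (pm (strides C.vs) (evP P.fl) 1)).n = nn P.Ss := by
    rw [p1]; rfl
  generalize setF _ _ = c at G hn e
  have hv := varT_IV (S := h.sx) G C.vs B 1 id (fun i z hi ↦ by
      rw [← p1] at hi ⊢
      obtain ⟨a1, a2, a3⟩ := mo_str i P.Ss G.k0 hi
      have a4 : _ < c.n := hn ▸ keep_lt a1 a2
      have a5 : i < C.vs.length := by
        by_contra hh
        rw [p1, List.getD_eq_default _ _ (by simpa [strides] using hh)] at hi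
        omega
      rw [one_mul]
      exact (VG.mon (S := h.sx) a4 (by have := G.n2; omega) a1 z).congr fun x hx ↦ by
        rw [Sx.mo, id, ← a3 x (by rwa [alg_len hl hx])]; rfl)
    (fun i ↦ (Alg.var_N _ i).congr fun x _ ↦ gtR_eq x i) fun x hx ↦ alg_len hl hx
  intro j hj Y hY hP hc hV hN
  cases h3 : Nat.ble 2 k <;> rw [h3] at e <;>
    simp only [cond_true, cond_false, Bool.and_eq_true, Bool.or_eq_true, Nat.blt_eq,
      Nat.beq_eq] at e
  · obtain ⟨s, hs, e2⟩ := run_sound G hv _ (IV.nil G) e.2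
    have e3 := allG_sound e2 j hj
    rw [← p1] at e3
    refine (fin_sound G hn C.vs B Y [] _ _ (outR C.prog j) h hl p1 hY hP (hs j) hV
      (fun hk ↦ hN (e.1.resolve_left ?_)) e3).2 (e.1.imp_left fun hk ↦ by rw [hk]; rfl)
    rintro rfl
    simp at hk
  · obtain ⟨s, hs, e2⟩ := run_sound G hv _ (IV.nil G) e.2
    obtain ⟨x, hx, rfl⟩ := aff_surj hl hY
    have h5 := hc (C.cons.getD ((k - 2) % 3) 0) (by
      rw [List.getD_eq_getElem _ _ e.1]; exact List.getElem_mem _)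
    generalize C.cons.getD ((k - 2) % 3) 0 = n at *
    cases h6 : Nat.ble 5 k <;> rw [h6] at e2
    · have h4 := ((hs 0).smul (-1)).posG G e2 hx
      simp only [outR, id, Int.reduceNeg, Int.cast_neg, Int.cast_one] at h4 h5
      linarith
    · obtain ⟨s', hs', e3⟩ := run_sound G hv _ hs e2
      have e4 := allG_sound e3 j hj
      rw [mlt, frN_eq, frT_eq] at e4
      have h4 := (((hs' j).sub ((VG.cst G _).mul G (hs 0))).tight G).posG G e4 hx
      simp only [← runR_append, List.take_append_drop, id] at h4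
      exact (mul_nonneg (by positivity) h5).trans_lt (sub_pos.1 h4)

theorem go_sound {F : ℕ → List (ℤ × ℤ) → Bool} {n : ℕ}
    (hF : ∀ k B, B.length = n → F k B = true → Gd C B) :
    ∀ f x B, B.length = n → go F f x B ≠ 0 → Gd C B
  | 0, _, _, _, h => absurd rfl h
  | f + 1, x, B, hB, h => by
    rw [go, spl_eq] at h
    cases h1 : Nat.ble 8 (Nat.mod x 16) <;> rw [h1] at h
    · cases h2 : go F f (Nat.div x 16) (splL B (Nat.mod x 16)) with
      | zero => rw [h2] at h; exact absurd rfl h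
      | succ y =>
        rw [h2] at h
        exact Gd.split _ (go_sound hF f _ _ ((spl_len B _).1.trans hB) (by rw [h2]; omega))
          (go_sound hF f y _ ((spl_len B _).2.trans hB) h)
    · cases h2 : F (Nat.sub (Nat.mod x 16) 8) B
      · rw [h2] at h; exact absurd rfl h
      · exact hF _ B hB h2

theorem chk_sound {x : ℕ} (h : chk C x B = true) : Gd C B := by
  rw [chk, frC_eq, Bool.and_eq_true, Bool.and_eq_true, Bool.and_eq_true, Nat.ble_eq, Nat.beq_eq,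
    Nat.blt_eq, Nat.blt_eq] at h
  exact go_sound (fun k B' hB e ↦ leaf_sound h.1.1.1 (h.1.1.2.trans hB.symm) (hB ▸ h.1.2) e)
    _ x B rfl h.2.ne'

end Pool.Agent.Lib.MP_d6150d_an
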