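import Pool.Agent.Lib.MP_d6150d_an.TMDefs

/-! A generic checker for inequalities on boxes: the executable part. -/

namespace Pool.Agent.Lib.MP_d6150d_an

open TM

/-- instructions; the arguments are positions in the stack, newest first -/
inductive Ins
  | var (i : Nat)
  | int (p : Int)
  | cst (p : Int) (q : Nat)
  | add (t : Bool) (a b : Nat)
  | sub (t : Bool) (a b : Nat)
  | mul (a b : Nat)
  | smul (z : Int) (a : Nat)
  | cpy (a : Nat)
  | exp (a : Nat)
  | tri (a : Nat)
  | inv (a : Nat)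
  | rsq (a : Nat)

/-- a variable: degree, order of vanishing, one-sided, cut -/
structure Vr where
  d : Nat
  m : Nat
  z : Bool
  c : Bool

def frN (n : Nat) (k : Nat → Bool) : Bool := Nat.casesOn (Nat.add n 1) false k

def frI (x : Int) (k : Int → Bool) : Bool :=
  Int.casesOn x (fun n ↦ frN n fun m ↦ k (Int.ofNat m)) fun n ↦ frN n fun m ↦ k (Int.negSucc m)

def frT (a : TM) (k : TM → Bool) : Bool :=
  TM.casesOn a fun x r l ↦ frI x fun x ↦ frN r fun r ↦ frN l fun l ↦ k ⟨x, r, l⟩

def frL : List TM → (List TM → Bool) → Bool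
  | [], k => k []
  | a :: l, k => frT a fun a ↦ frL l fun l ↦ k (a :: l)

def gt : List TM → Nat → TM
  | [], _ => ⟨0, 0, 0⟩
  | a :: _, 0 => a
  | _ :: l, i + 1 => gt l i

def geoP (p : Nat → Bool) (s : Nat) : Nat → Nat
  | 0 => 0
  | i + 1 => Nat.add (geoP p s i) (cond (p i) (Nat.shiftLeft 1 (Nat.mul 224 (Nat.mul s i))) 0)

/-- the mask of a product set of digits -/
def pm : List Nat → List (Nat → Bool) → Nat → Nat
  | [], _, _ => 1
  | S :: Ss, ps, s => Nat.mul (geoP (fun d ↦ Nat.blt (Nat.mul 2 d) S && ps.headD (fun _ ↦ true) d) s S)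
      (pm Ss ps.tail (Nat.mul s S))

def nn : List Nat → Nat
  | [] => 1
  | [S] => (S + 1) / 2
  | S :: Ss => S * nn Ss

def strides (vs : List Vr) : List Nat := vs.map fun v ↦ 2 * v.d + 1

def evP (fl : List Bool) : List (Nat → Bool) := fl.map fun b d ↦ b || Nat.beq (d % 2) 0

def mkC (Ss : List Nat) (fl : List Bool) : Ctx :=
  mkCtx (nn Ss) (geo 1 (2 * nn Ss)) (pm Ss [] 1) (pm Ss (evP fl) 1)

def frC (c : Ctx) (k : Ctx → Bool) : Bool :=
  Ctx.casesOn c fun n kp top topm drop hi bi ev od ↦ frN n fun n ↦ frN kp fun kp ↦ frN top fun top ↦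
    frN topm fun topm ↦ frN drop fun drop ↦ frN hi fun hi ↦ frN bi fun bi ↦ frN ev fun ev ↦
      frN od fun od ↦ k ⟨n, kp, top, topm, drop, hi, bi, ev, od⟩

def setF (c : Ctx) (ev : Nat) : Ctx :=
  ⟨c.n, c.kp, c.top, c.topm, c.drop, c.keepHi, c.biasK, ev, c.kp - ev⟩

/-- the number of halvings -/
def hv (n : Nat) : Nat → Nat
  | 0 => 0
  | f + 1 => cond (Nat.ble n 9223372036854775808) 0 (hv (n / 2) f + 1)

/-- Newton iteration for the inverse -/
def nwI (c : Ctx) (a : TM) : Nat → TM → (TM → Bool) → Bool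
  | 0, z, k => k z
  | n + 1, z, k => frT (exact (mul c z (tight c (sub (int 2) (mul c a z))))) fun z ↦ nwI c a n z k

/-- Newton iteration for the inverse square root -/
def nwS (c : Ctx) (a : TM) : Nat → TM → (TM → Bool) → Bool
  | 0, z, k => k z
  | n + 1, z, k => frT (nsq c a z) fun z ↦ nwS c a n z k

def invG (c : Ctx) (nk : Nat) (a : TM) (k : TM → Bool) : Bool :=
  frT (newt c a 0) fun z ↦ nwI c a nk z fun z ↦
    frT (tight c (sub (int 1) (mul c a z))) fun e ↦ Nat.ble e.norm 9223372036854775808 &&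
      k (widen z (z.norm * e.norm * (2 ^ 64 + 2 * e.norm) / 2 ^ 128 + 1))

def rsqG (c : Ctx) (nk : Nat) (a : TM) (k : TM → Bool) : Bool :=
  frT (cst (isq (2 ^ 192 / (coef c a 0).toNat) 50)) fun z ↦ nwS c a nk z fun z ↦
    frT (tight c (sub (int 1) (mul c (mul c a z) z))) fun e ↦
      Nat.ble e.norm 4611686018427387904 && pos c z && k (widen z (z.norm * e.norm / 2 ^ 63 + 1))

/-- positivity after multiplication by a square -/
def posS (c : Ctx) (a : TM) (z n : Nat) : Bool :=
  frT (mul c a (cst z)) fun b ↦ nwS c (exact b) n (int 1) fun y ↦ pos c (mul c (mul c b y) y)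

/-- positivity, possibly after multiplication by a square -/
def posG (c : Ctx) (a : TM) : Bool :=
  pos c a || (decide (0 < coef c a 0) &&
    (posS c a (2 ^ 129 / a.l) 6 || posS c a (2 ^ 128 / (coef c a 0).toNat) 3))

def tg (c : Ctx) (t : Bool) (a : TM) : TM := cond t (tight c a) a

def step (c : Ctx) (nk : Nat) (vs s : List TM) (i : Ins) (k : List TM → Bool) : Bool :=
  Ins.casesOn i (fun i ↦ k (gt vs i :: s)) (fun p ↦ frT (int p) fun x ↦ k (x :: s))
    (fun p q ↦ frT (smul p (inv q)) fun x ↦ k (x :: s))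
    (fun t a b ↦ frT (tg c t (add (gt s a) (gt s b))) fun x ↦ k (x :: s))
    (fun t a b ↦ frT (tg c t (sub (gt s a) (gt s b))) fun x ↦ k (x :: s))
    (fun a b ↦ frT (mul c (gt s a) (gt s b)) fun x ↦ k (x :: s))
    (fun z a ↦ frT (smul z (gt s a)) fun x ↦ k (x :: s))
    (fun a ↦ frT (tight c (gt s a)) fun x ↦ k (x :: s))
    (fun a ↦ frT (gt s a) fun z ↦ frN (hv z.norm 24) fun h ↦ Nat.ble z.norm (2 ^ (64 + h)) &&
      frT (tri c h z).e fun x ↦ k (x :: s))
    (fun a ↦ frT (gt s a) fun z ↦ frN (hv z.norm 24) fun h ↦ Nat.ble z.norm (2 ^ (64 + h)) &&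
      Tri.casesOn (tri c h z) fun x y w ↦ frT x fun x ↦ frT y fun y ↦ frT w fun w ↦
        k (w :: y :: x :: s))
    (fun a ↦ invG c nk (gt s a) fun x ↦ frT x fun x ↦ k (x :: s))
    fun a ↦ rsqG c nk (gt s a) fun x ↦ frT x fun x ↦ k (x :: s)

def run (c : Ctx) (nk : Nat) (vs : List TM) : List Ins → List TM → (List TM → Bool) → Bool
  | [], s, k => k s
  | i :: p, s, k => step c nk vs s i fun s ↦ run c nk vs p s k

/-- is the variable one-sided on the box -/
def Vr.os (v : Vr) (b : Int × Int) : Bool := (v.z || v.c || Nat.blt 0 v.m) && decide (b.1 = 0)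

def flags : List Vr → List (Int × Int) → List Bool
  | v :: vs, b :: bs => v.os b :: flags vs bs
  | _, _ => []

/-- the models of the variables -/
def varT : List Vr → List (Int × Int) → Nat → List TM
  | v :: vs, b :: bs, s =>
    add (mon 0 (cond (v.os b) 0 (b.1 + b.2)))
      (cond (Nat.beq v.d 0) ⟨0, (cond (v.os b) (2 * b.2) (b.2 - b.1)).natAbs * 2 ^ 16, 0⟩
        (mon s (cond (v.os b) (2 * b.2) (b.2 - b.1)))) :: varT vs bs (s * (2 * v.d + 1))
  | _, _, _ => []

def prt (c : Ctx) (M i : Nat) (a : TM) : TM := tight c (widen (part c M i a) a.r)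

def dvs (c : Ctx) (M i : Nat) : Nat → TM → (TM → Bool) → Bool
  | 0, a, k => k a
  | m + 1, a, k => decide (a.l < 2 ^ 223) && frT (prt c M i a) fun a ↦ dvs c M i m a k

/-- the final check; `ps` are the trivial conditions on the digits already treated -/
def fin (c : Ctx) (Ss : List Nat) :
    List Vr → List (Int × Int) → List (Nat → Bool) → Nat → Bool → TM → Bool
  | v :: vs, b :: bs, ps, s, cu, a =>
    cond (v.c && cu)
      (v.os b && decide (a.l < 2 ^ 223) &&
        (frT (prt c (pm Ss (ps ++ [Nat.ble 1]) 1) s a) fun x ↦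
          fin c Ss vs bs ((fun _ ↦ true) :: ps) (s * (2 * v.d + 1)) false x) &&
        frT (prt c (pm Ss (ps ++ [Nat.beq 0]) 1) 0 a) fun x ↦
          fin c Ss vs bs ((fun _ ↦ true) :: ps) (s * (2 * v.d + 1)) true x)
      (cond (v.os b && Nat.blt 0 v.m)
        (frN (pm Ss (ps ++ [Nat.ble 1]) 1) fun M ↦ dvs c M s v.m a fun x ↦
          fin c Ss vs bs ((fun _ ↦ true) :: ps) (s * (2 * v.d + 1)) cu x)
        (fin c Ss vs bs ((fun _ ↦ true) :: ps) (s * (2 * v.d + 1)) cu a))
  | _, _, _, _, cu, a => cu || posG c a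

/-- a chart -/
structure Chart where
  vs : List Vr
  prog : List Ins
  cons : List Nat
  ng : Nat
  nk : Nat

def allG (f : TM → Bool) : Nat → List TM → Bool
  | 0, _ => true
  | n + 1, s => f (gt s 0) && allG f n s.tail

/-- the scalar product of the linear parts -/
def dotL (c : Ctx) (a b : TM) : List Vr → Nat → Int
  | [], _ => 0
  | v :: vs, s => cond (Nat.beq v.d 0) 0 (coef c a s * coef c b s) + dotL c a b vs (s * (2 * v.d + 1))

/-- positivity after subtraction of a multiple of the constraint -/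
def mlt (c : Ctx) (vs : List Vr) (g a : TM) : Bool :=
  frN (dotL c a g vs 1 * 2 ^ 64 / dotL c g g vs 1).toNat fun l ↦
    frT (tight c (sub a (mul c (cst l) g))) (posG c)

/-- the check on a leaf: kind `0` plain, `1` with cuts, `j + 2` excluded by a constraint,
`j + 5` with a multiplier -/
def leaf (C : Chart) (c0 : Ctx) (k : Nat) (B : List (Int × Int)) : Bool :=
  frC (setF c0 (pm (strides C.vs) (evP (flags C.vs B)) 1)) fun c ↦ frL (varT C.vs B 1) fun vs ↦
    cond (Nat.ble 2 k)
      (Nat.blt ((k - 2) % 3) C.cons.length &&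
        run c C.nk vs (C.prog.take (C.cons.getD ((k - 2) % 3) 0)) [] fun s ↦
          cond (Nat.ble 5 k) (run c C.nk vs (C.prog.drop (C.cons.getD ((k - 2) % 3) 0)) s
            (allG (mlt c C.vs (gt s 0)) C.ng)) (posG c (smul (-1) (gt s 0))))
      ((Nat.beq k 0 || C.vs.any Vr.c) &&
        run c C.nk vs C.prog [] (allG (fin c (strides C.vs) C.vs B [] 1 (Nat.beq k 1)) C.ng))

def spl : List (Int × Int) → Nat → (List (Int × Int) → List (Int × Int) → Nat) → Nat
  | [], _, k => k [] []
  | b :: B, 0, k => Int.casesOn ((b.1 + b.2) / 2)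
      (fun m ↦ k ((b.1, Int.ofNat m) :: B) ((Int.ofNat m, b.2) :: B))
      fun m ↦ k ((b.1, Int.negSucc m) :: B) ((Int.negSucc m, b.2) :: B)
  | b :: B, i + 1, k => spl B i fun l r ↦ k (b :: l) (b :: r)

/-- the tree is read from the digits of `x`; the result is `0` or the successor of the rest -/
def go (f : Nat → List (Int × Int) → Bool) : Nat → Nat → List (Int × Int) → Nat
  | 0, _, _ => 0
  | n + 1, x, B => cond (Nat.ble 8 (Nat.mod x 16))
      (cond (f (Nat.sub (Nat.mod x 16) 8) B) (Nat.add (Nat.div x 16) 1) 0)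
      (spl B (Nat.mod x 16) fun l r ↦ Nat.casesOn (go f n (Nat.div x 16) l) 0 fun y ↦ go f n y r)

def chk (C : Chart) (x : Nat) (B : List (Int × Int)) : Bool :=
  Nat.ble (2 * nn (strides C.vs)) 16384 && Nat.beq C.vs.length B.length && Nat.blt 0 B.length &&
    frC (mkC (strides C.vs) []) fun c ↦ Nat.blt 0 (go (leaf C c) 200 x B)

end Pool.Agent.Lib.MP_d6150d_an
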