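import Pool.Agent.Lib.MP_d6150d_an.GRun

/-! The unfolding equations of the interpreter, produced once for all charts. -/

namespace Pool.Agent.Lib.MP_d6150d_an

theorem runR_eqs (Y s : List ℝ) (i : Ins) (p : List Ins) :
    runR Y [] s = s ∧ runR Y (i :: p) s = runR Y p (stepR Y s i) :=
  (fun _ ↦ ⟨runR.eq_1 Y s, runR.eq_2 Y s i p⟩) @runR.eq_def

end Pool.Agent.Lib.MP_d6150d_an
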