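import Pool.Agent.Lib.MP_d6150d_an.GVal

/-! Masks of product sets of digits, and the decomposition along one variable. -/

namespace Pool.Agent.Lib.MP_d6150d_an

open Finset

/-- the product set of digits -/
def qq : List ℕ → List (ℕ → Bool) → ℕ → Bool
  | [], _, _ => true
  | S :: Ss, ps, k => (Nat.blt (2 * (k % S)) S && ps.headD (fun _ ↦ true) (k % S)) &&
      qq Ss ps.tail (k / S)

theorem geoP_eq (p : ℕ → Bool) (s : ℕ) :
    ∀ n, geoP p s n = ∑ i ∈ range n, ind (p i = true) * 2 ^ (224 * (s * i))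
  | 0 => rfl
  | n + 1 => by
    rw [geoP, sum_range_succ, geoP_eq p s n]
    cases p n <;> simp [ind, Nat.shiftLeft_eq]

theorem sum_blocks (F : ℕ → ℕ) (S : ℕ) :
    ∀ M, ∑ k ∈ range (S * M), F k = ∑ j ∈ range M, ∑ i ∈ range S, F (S * j + i)
  | 0 => by simp
  | M + 1 => by rw [Nat.mul_succ, sum_range_add, sum_blocks F S M, sum_range_succ]

theorem pm_eq : ∀ (Ss : List ℕ) (ps : List (ℕ → Bool)) (s : ℕ),
    pm Ss ps s = ∑ k ∈ range Ss.prod, ind (qq Ss ps k = true) * 2 ^ (224 * (s * k))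
  | [], _, _ => by simp [pm, qq, ind]
  | S :: Ss, ps, s => by
    rw [pm, geoP_eq, pm_eq Ss, List.prod_cons, sum_blocks, Nat.mul_eq, sum_mul_sum, sum_comm]
    refine sum_congr rfl fun j _ ↦ sum_congr rfl fun i hi ↦ ?_
    have hi := mem_range.1 hi
    rw [qq, Nat.mul_add_mod, Nat.mod_eq_of_lt hi, Nat.mul_add_div (by omega), Nat.div_eq_of_lt hi,
      add_zero, show 224 * (s * (S * j + i)) = 224 * (s * i) + 224 * (s * S * j) by ring, pow_add]
    simp only [Nat.mul_eq]
    cases (Nat.blt (2 * i) S && ps.headD (fun _ ↦ true) i) <;>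
      cases qq Ss ps.tail j <;> simp [ind]

theorem qq_keep : ∀ {Ss ps k}, qq Ss ps k = true → keep Ss k = true
  | [], _, _, _ => rfl
  | S :: Ss, ps, k, h => by
    simp only [qq, keep, Bool.and_eq_true, Nat.blt_eq, decide_eq_true_eq] at h ⊢
    exact ⟨h.1.1, qq_keep h.2⟩

theorem qq_nil : ∀ Ss k, qq Ss [] k = keep Ss k
  | [], _ => rfl
  | S :: Ss, k => by
    rw [qq, keep, List.tail_nil, qq_nil Ss, Bool.eq_iff_iff]; simp

theorem qq_ev : ∀ Ss fl k, qq Ss (evP fl) k = (keep Ss k && evn Ss fl k)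
  | [], _, _ => rfl
  | S :: Ss, [], k => by rw [evP, List.map_nil, qq_nil]; simp [evn]
  | S :: Ss, b :: fl, k => by
    rw [qq, keep, evn, show (evP (b :: fl)).tail = evP fl from rfl, qq_ev Ss fl, Bool.eq_iff_iff]
    simp [evP, and_assoc, and_left_comm]

theorem nn_cons (S T : ℕ) (Ss : List ℕ) : nn (S :: T :: Ss) = S * nn (T :: Ss) := rfl

theorem keep_lt : ∀ {Ss k}, keep Ss k = true → k < Ss.prod → k < nn Ss
  | [], _, _, h => h
  | [S], k, h, h' => by
    simp only [keep, List.prod_cons, List.prod_nil, mul_one, Bool.and_true, decide_eq_true_eq]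
      at h h'
    rw [Nat.mod_eq_of_lt h'] at h
    rw [nn]; omega
  | S :: T :: Ss, k, h, h' => by
    rw [keep, Bool.and_eq_true, decide_eq_true_eq] at h
    rw [List.prod_cons] at h'
    rw [nn_cons]
    exact mul_comm S _ ▸ (Nat.div_lt_iff_lt_mul (by omega)).1
      (keep_lt h.2 (Nat.div_lt_of_lt_mul h'))

theorem nn_le : ∀ Ss : List ℕ, nn Ss ≤ Ss.prod ∧ Ss.prod ≤ 2 * nn Ss
  | [] => by simp [nn]
  | [S] => by simp only [nn, List.prod_cons, List.prod_nil]; omega
  | S :: T :: Ss => by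
    rw [nn_cons, List.prod_cons, mul_left_comm]
    exact ⟨Nat.mul_le_mul_left _ (nn_le _).1, Nat.mul_le_mul_left _ (nn_le _).2⟩

theorem pm_dg {Ss : List ℕ} (h : 2 * nn Ss ≤ N0) (ps : List (ℕ → Bool)) :
    pm Ss ps 1 = dg (fun k ↦ ind (k < nn Ss ∧ qq Ss ps k = true)) N0 := by
  rw [pm_eq, dg, sum_supp ((nn_le Ss).2.trans h) fun k hk ↦ by
    have := (nn_le Ss).1
    simp [ind, show ¬k < nn Ss by omega]]
  refine sum_congr rfl fun k hk ↦ ?_
  rw [one_mul]
  by_cases hq : qq Ss ps k = true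
  · simp [ind, hq, keep_lt (qq_keep hq) (mem_range.1 hk)]
  · simp [ind, hq]

theorem keep_odd : ∀ vs : List Vr, keep (strides vs) 0 = true ∧ 0 < (strides vs).prod
  | [] => ⟨rfl, Nat.one_pos⟩
  | v :: vs => by
    have := keep_odd vs
    simp only [strides, List.map_cons, keep, Nat.zero_mod, Nat.zero_div, List.prod_cons] at this ⊢
    exact ⟨by simp [this.1], Nat.mul_pos (by omega) this.2⟩

theorem mkC_good {vs : List Vr} (h : 2 * nn (strides vs) ≤ 16384) (P : St) (e : P.Ss = strides vs) :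
    (setF (mkC (strides vs) []) (pm (strides vs) (evP P.fl) 1)).Good P := by
  have hN : 2 * nn (strides vs) ≤ N0 := N0_eq ▸ h
  have k0 := keep_odd vs
  refine Ctx.good ?_
  rw [e]
  generalize strides vs = Ss at *
  have e1 : geo 1 (2 * nn Ss) = msk (fun _ ↦ true) (2 * nn Ss) := by
    rw [msk_eq, dg, sum_supp hN fun k hk ↦ by simp [show ¬k < 2 * nn Ss by omega], geo,
      sum_congr rfl (g := fun k ↦ (2 ^ 224) ^ k) fun k hk ↦ by
        simp only [mem_range.1 hk, and_self, if_true, one_mul, pow_mul],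
      Nat.geomSum_eq (by norm_num), ← pow_mul]
  have e2 : pm Ss [] 1 = msk (keep Ss) (nn Ss) := by
    rw [pm_dg hN, msk_eq]; exact dg_congr fun k _ ↦ by simp [ind, qq_nil]
  have e3 : pm Ss (evP P.fl) 1 = msk (fun k ↦ keep Ss k && evn Ss P.fl k) (nn Ss) := by
    rw [pm_dg hN, msk_eq]; exact dg_congr fun k _ ↦ by simp [ind, qq_ev]
  simp only [Ctx.ok, Bool.and_eq_true, decide_eq_true_eq]
  refine ⟨⟨⟨h, by have := (nn_le Ss).2; show 0 < nn Ss; omega⟩, k0.1⟩, ?_⟩
  show _ = mkCtx (nn Ss) (msk _ (2 * nn Ss)) (msk _ (nn Ss)) (msk _ (nn Ss))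
  rw [← e1, ← e2, ← e3]
  rfl

/-- trivial conditions -/
def triv (pre : List ℝ) : List (ℕ → Bool) := pre.map fun _ _ ↦ true

theorem mo_dig0 {τ : ℝ} {x : List ℝ} : ∀ (pre : List ℝ) (Ss : List ℕ) (k : ℕ),
    qq Ss (triv pre ++ [Nat.beq 0]) k = true → mo Ss (pre ++ τ :: x) k = mo Ss (pre ++ 0 :: x) k
  | [], [], _, _ => rfl
  | _ :: _, [], _, _ => rfl
  | [], S :: Ss, k, h => by
    simp only [qq, triv, List.map_nil, List.nil_append, List.headD_cons, Bool.and_eq_true,
      Nat.beq_eq] at h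
    simp only [List.nil_append, mo, ← h.1.2, pow_zero]
  | y :: pre, S :: Ss, k, h => by
    rw [qq, Bool.and_eq_true] at h
    simp only [List.cons_append, mo, mo_dig0 pre Ss _ h.2]

theorem mo_shift {τ : ℝ} {x : List ℝ} : ∀ (pre : List ℝ) (Ss : List ℕ) (k : ℕ),
    pre.length < Ss.length → qq Ss (triv pre ++ [Nat.ble 1]) k = true →
      (Ss.take pre.length).prod ≤ k ∧ keep Ss (k - (Ss.take pre.length).prod) = true ∧
        mo Ss (pre ++ τ :: x) k = τ * mo Ss (pre ++ τ :: x) (k - (Ss.take pre.length).prod)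
  | _, [], _, hl, _ => by simp at hl
  | [], S :: Ss, k, _, h => by
    simp only [qq, triv, List.map_nil, List.nil_append, List.headD_cons, Bool.and_eq_true,
      Nat.ble_eq, Nat.blt_eq, List.tail_cons, qq_nil] at h
    have hS : 0 < S := by omega
    have e0 := Nat.div_add_mod k S
    have e1 : k - 1 = S * (k / S) + (k % S - 1) := by omega
    have e2 : (k - 1) % S = k % S - 1 := by
      rw [e1, Nat.mul_add_mod, Nat.mod_eq_of_lt (by omega)]
    have e3 : (k - 1) / S = k / S := by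
      rw [e1, Nat.mul_add_div hS, Nat.div_eq_of_lt (a := k % S - 1) (by omega), add_zero]
    simp only [List.length_nil, List.take_zero, List.prod_nil, List.nil_append, keep, mo, e2, e3,
      Bool.and_eq_true, decide_eq_true_eq]
    refine ⟨by omega, ⟨by omega, h.2⟩, ?_⟩
    rw [← mul_assoc, ← pow_succ', Nat.sub_add_cancel h.1.2]
  | y :: pre, S :: Ss, k, hl, h => by
    rw [qq, Bool.and_eq_true, Bool.and_eq_true, Nat.blt_eq] at h
    obtain ⟨a1, a2, a3⟩ := mo_shift (τ := τ) (x := x) pre Ss _ (by simpa using hl) h.2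
    have hS : 0 < S := by omega
    rw [List.length_cons, List.take_succ_cons, List.prod_cons]
    generalize (Ss.take pre.length).prod = s at a1 a2 a3 ⊢
    have a4 : S * s ≤ k := (Nat.mul_le_mul_left _ a1).trans (Nat.mul_div_le _ _)
    simp only [List.cons_append, keep, mo, Nat.sub_mul_mod a4, Nat.sub_mul_div, a2, a3]
    exact ⟨a4, by simp [h.1.1], by ring⟩

theorem qq_part : ∀ (pre : List ℝ) (Ss : List ℕ) (k : ℕ), pre.length < Ss.length →
    keep Ss k = true → qq Ss (triv pre ++ [Nat.beq 0]) k = !qq Ss (triv pre ++ [Nat.ble 1]) k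
  | _, [], _, hl, _ => by simp at hl
  | [], S :: Ss, k, _, h => by
    rw [keep, Bool.and_eq_true, decide_eq_true_eq] at h
    have h1 : Nat.blt (2 * (k % S)) S = true := by simpa using h.1
    simp only [qq, triv, List.map_nil, List.nil_append, List.headD_cons, List.tail_cons, qq_nil, h1,
      h.2, Bool.true_and, Bool.and_true]
    cases k % S <;> rfl
  | y :: pre, S :: Ss, k, hl, h => by
    rw [keep, Bool.and_eq_true, decide_eq_true_eq] at h
    have := qq_part pre Ss _ (by simpa using hl) h.2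
    have h1 : Nat.blt (2 * (k % S)) S = true := by simpa using h.1
    simp only [triv] at this
    simp only [qq, triv, List.map_cons, List.cons_append, List.headD_cons, List.tail_cons, h1, this,
      Bool.true_and]

theorem evL_split {P : St} {n : ℕ} {a : TM} {e : ℕ → ℤ} (R : Rep P n a e) (hn : n ≤ N0)
    (pre : List ℝ) (hl : pre.length < P.Ss.length) (τ : ℝ) (x : List ℝ) :
    evL P.Ss e (pre ++ τ :: x) =
      evL P.Ss (fun k ↦ if k + 0 < n ∧ qq P.Ss (triv pre ++ [Nat.beq 0]) (k + 0) = true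
        then e (k + 0) else 0) (pre ++ 0 :: x) +
      τ * evL P.Ss (fun k ↦ if k + (P.Ss.take pre.length).prod < n ∧
          qq P.Ss (triv pre ++ [Nat.ble 1]) (k + (P.Ss.take pre.length).prod) = true
        then e (k + (P.Ss.take pre.length).prod) else 0) (pre ++ τ :: x) := by
  have sh := fun k ↦ mo_shift (τ := τ) (x := x) pre P.Ss k hl
  generalize (P.Ss.take pre.length).prod = s at *
  obtain ⟨F, hF⟩ : ∃ F : ℕ → ℝ, ∀ k, F k = if k < n ∧ qq P.Ss (triv pre ++ [Nat.ble 1]) k = true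
    then e k * mo P.Ss (pre ++ τ :: x) k else 0 := ⟨_, fun _ ↦ rfl⟩
  have e1 : ∑ k ∈ range (s + N0), F k = ∑ k ∈ range N0, F k :=
    (sum_subset (range_subset_range.2 (by omega)) fun k _ hk ↦ by
      rw [hF, if_neg fun h ↦ hk (mem_range.2 (by omega))]).symm
  rw [sum_range_add, sum_eq_zero fun k hk ↦ by
    rw [hF, if_neg fun h ↦ (sh k h.2).1.not_gt (mem_range.1 hk)], zero_add] at e1
  have e2 : τ * evL P.Ss (fun k ↦ if k + s < n ∧ qq P.Ss (triv pre ++ [Nat.ble 1]) (k + s) = true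
      then e (k + s) else 0) (pre ++ τ :: x) = ∑ k ∈ range N0, F (s + k) := by
    rw [evL, mul_sum]
    refine sum_congr rfl fun k _ ↦ ?_
    rw [hF, add_comm s k]
    split_ifs with h
    · rw [(sh _ h.2).2.2, Nat.add_sub_cancel]; ring
    · simp
  rw [e2, e1, evL, evL, ← sum_add_distrib]
  refine sum_congr rfl fun k _ ↦ ?_
  rw [hF, add_zero]
  by_cases hk : e k = 0
  · simp [hk]
  · obtain ⟨h1, h2⟩ := R.supp k hk
    have h3 := qq_part pre P.Ss k hl h2
    cases h4 : qq P.Ss (triv pre ++ [Nat.ble 1]) k <;> rw [h4] at h3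
    · rw [mo_dig0 pre P.Ss k h3]; simp [h1, h3]
    · simp [h1, h3]

end Pool.Agent.Lib.MP_d6150d_an
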