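import Pool.Agent.Lib.MP_d6150d_an.GMask

/-! Soundness of the evaluation of programs. -/

namespace Pool.Agent.Lib.MP_d6150d_an

/-- an entry of a list -/
noncomputable def gtR : List ℝ → ℕ → ℝ
  | [], _ => 0
  | a :: _, 0 => a
  | _ :: l, i + 1 => gtR l i

theorem gtR_eq : ∀ l i, gtR l i = l.getD i 0
  | [], _ => rfl
  | _ :: _, 0 => rfl
  | _ :: l, i + 1 => gtR_eq l i

/-- the meaning of an instruction -/
noncomputable def stepR (Y s : List ℝ) : Ins → List ℝ
  | .var i => gtR Y i :: s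
  | .int p => (p : ℝ) :: s
  | .cst p q => (p : ℝ) / (q : ℝ) :: s
  | .add _ a b => (gtR s a + gtR s b) :: s
  | .sub _ a b => (gtR s a - gtR s b) :: s
  | .mul a b => gtR s a * gtR s b :: s
  | .smul z a => (z : ℝ) * gtR s a :: s
  | .cpy a => gtR s a :: s
  | .exp a => Real.exp (gtR s a) :: s
  | .tri a => ph2 (gtR s a) :: ph1 (gtR s a) :: Real.exp (gtR s a) :: s
  | .inv a => (gtR s a)⁻¹ :: s
  | .rsq a => (√(gtR s a))⁻¹ :: s

/-- the meaning of a program -/
noncomputable def runR (Y : List ℝ) : List Ins → List ℝ → List ℝ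
  | [], s => s
  | i :: p, s => runR Y p (stepR Y s i)

/-- the models enclose the entries of the stack -/
def IV (S : Sx) (n : ℕ) (s : List TM) (φ : List ℝ → List ℝ) : Prop :=
  ∀ i, VG S n (gt s i) fun x ↦ gtR (φ x) i

variable {S : Sx} {c : Ctx} {nk : ℕ} {vs s : List TM} {Y φ : List ℝ → List ℝ} {k : List TM → Bool}

theorem IV.cons {n : ℕ} {a : TM} {f : List ℝ → ℝ} (ha : VG S n a f) (h : IV S n s φ) :
    IV S n (a :: s) fun x ↦ f x :: φ x
  | 0 => ha
  | i + 1 => h i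

theorem VG.tg (G : c.Good S.P) {a : TM} {f : List ℝ → ℝ} (h : VG S c.n a f) :
    ∀ t, VG S c.n (tg c t a) f
  | true => h.tight G
  | false => h

theorem step_sound (G : c.Good S.P) (hv : IV S c.n vs Y) (hs : IV S c.n s φ) (i : Ins)
    (e : step c nk vs s i k = true) :
    ∃ s', IV S c.n s' (fun x ↦ stepR (Y x) (φ x) i) ∧ k s' = true := by
  cases i <;> simp only [step, frT_eq, frN_eq, Bool.and_eq_true, Nat.ble_eq] at e
  case var i => exact ⟨_, .cons (hv i) hs, e⟩
  case int p => exact ⟨_, .cons (VG.int G p) hs, e⟩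
  case cst p q =>
    exact ⟨_, .cons (((VG.inv G q).smul p).congr fun _ _ ↦ div_eq_mul_one_div _ _) hs, e⟩
  case add t a b => exact ⟨_, .cons (((hs a).add (hs b)).tg G t) hs, e⟩
  case sub t a b => exact ⟨_, .cons (((hs a).sub (hs b)).tg G t) hs, e⟩
  case mul a b => exact ⟨_, .cons ((hs a).mul G (hs b)) hs, e⟩
  case smul z a => exact ⟨_, .cons ((hs a).smul z) hs, e⟩
  case cpy a => exact ⟨_, .cons ((hs a).tight G) hs, e⟩
  case exp a => exact ⟨_, .cons ((hs a).tri G e.1).1 hs, e.2⟩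
  case tri a =>
    have := (hs a).tri G e.1
    exact ⟨_, .cons this.2.2 (.cons this.2.1 (.cons this.1 hs)), e.2⟩
  case inv a =>
    obtain ⟨z, h, e⟩ := (hs a).invG G e
    exact ⟨_, .cons h hs, e⟩
  case rsq a =>
    obtain ⟨z, h, e⟩ := (hs a).rsqG G e
    exact ⟨_, .cons h hs, e⟩

theorem run_sound (G : c.Good S.P) (hv : IV S c.n vs Y) : ∀ (p : List Ins) {s φ},
    IV S c.n s φ → run c nk vs p s k = true →
      ∃ s', IV S c.n s' (fun x ↦ runR (Y x) p (φ x)) ∧ k s' = true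
  | [], _, _, hs, e => ⟨_, hs, e⟩
  | i :: p, _, _, hs, e => by
    obtain ⟨s', h, e⟩ := step_sound G hv hs i e
    exact run_sound G hv p h e

theorem IV.nil (G : c.Good S.P) : IV S c.n [] fun _ ↦ [] := fun _ ↦ VG.zero G

/-- the change of variable -/
noncomputable def aff1 (v : Vr) (b : ℤ × ℤ) (τ : ℝ) : ℝ :=
  (cond (v.os b) 0 (b.1 + b.2) : ℤ) / 2 ^ 48 + (cond (v.os b) (2 * b.2) (b.2 - b.1) : ℤ) / 2 ^ 48 * τ

/-- the change of variables -/
noncomputable def aff : List Vr → List (ℤ × ℤ) → List ℝ → List ℝ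
  | v :: vs, b :: bs, τ :: x => aff1 v b τ :: aff vs bs x
  | _, _, _ => []

theorem keep_prod : ∀ {Ss : List ℕ}, keep Ss 0 = true → 0 < Ss.prod
  | [], _ => Nat.one_pos
  | S :: Ss, h => by
    simp only [keep, Nat.zero_mod, Nat.zero_div, Bool.and_eq_true, decide_eq_true_eq] at h
    exact Nat.mul_pos (by omega) (keep_prod h.2)

theorem mo_str : ∀ (i : ℕ) (Ss : List ℕ), keep Ss 0 = true → 3 ≤ Ss.getD i 0 →
    keep Ss (Ss.take i).prod = true ∧ (Ss.take i).prod < Ss.prod ∧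
      ∀ x : List ℝ, i < x.length → mo Ss x (Ss.take i).prod = gtR x i
  | _, [], _, h => by simp at h
  | 0, S :: Ss, h0, h => by
    have h : 3 ≤ S := h
    have e1 : 1 % S = 1 := Nat.mod_eq_of_lt (by omega)
    have e2 : 1 / S = 0 := Nat.div_eq_of_lt (by omega)
    simp only [keep, Nat.zero_mod, Nat.zero_div, Bool.and_eq_true, decide_eq_true_eq] at h0
    have := Nat.mul_le_mul h (keep_prod h0.2)
    simp only [List.take_zero, List.prod_nil, keep, e1, e2, h0.2, List.prod_cons]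
    refine ⟨by simp; omega, by omega, fun x hx ↦ ?_⟩
    obtain _ | ⟨y, x⟩ := x
    · simp at hx
    · simp [mo, e1, e2, mo_zero, gtR]
  | i + 1, S :: Ss, h0, h => by
    simp only [keep, Nat.zero_mod, Nat.zero_div, Bool.and_eq_true, decide_eq_true_eq] at h0
    obtain ⟨a1, a2, a3⟩ := mo_str i Ss h0.2 h
    have hS : 0 < S := by omega
    rw [List.take_succ_cons, List.prod_cons, List.prod_cons]
    generalize (Ss.take i).prod = s at a1 a2 a3 ⊢
    refine ⟨by simp [keep, Nat.mul_div_cancel_left _ hS, a1, hS],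
      Nat.mul_lt_mul_of_pos_left a2 hS, fun x hx ↦ ?_⟩
    obtain _ | ⟨y, x⟩ := x
    · simp at hx
    · simp [mo, Nat.mul_div_cancel_left _ hS, a3 x (by simpa using hx), gtR]

theorem varT_IV (G : c.Good S.P) : ∀ (vs : List Vr) (bs : List (ℤ × ℤ)) (s : ℕ)
    (φ : List ℝ → List ℝ), (∀ i z, 3 ≤ (strides vs).getD i 0 →
      VG S c.n (TM.mon (s * ((strides vs).take i).prod) z) fun x ↦ z / 2 ^ 48 * gtR (φ x) i) →
    (∀ i, S.A.N (fun x ↦ gtR (φ x) i) 1) → (∀ x ∈ S.A.D, (φ x).length = vs.length) →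
    IV S c.n (varT vs bs s) fun x ↦ aff vs bs (φ x)
  | [], _, _, _, _, _, _ => IV.nil G
  | _ :: _, [], _, _, _, _, _ => IV.nil G
  | v :: vs, b :: bs, s, φ, h1, h2, h3 => by
    have e : ∀ x ∈ S.A.D, φ x = gtR (φ x) 0 :: (φ x).tail := fun x hx ↦ by
      have := h3 x hx
      generalize φ x = l at this
      obtain _ | ⟨y, l⟩ := l
      · simp at this
      · rfl
    have e' : ∀ i, ∀ x ∈ S.A.D, gtR (φ x).tail i = gtR (φ x) (i + 1) := fun i x hx ↦ by
      conv_rhs => rw [e x hx]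
      rfl
    have ih := varT_IV G vs bs (s * (2 * v.d + 1)) (fun x ↦ (φ x).tail)
      (fun i z hi ↦ by
        rw [mul_assoc]
        exact (h1 (i + 1) z hi).congr fun x hx ↦ by rw [e' i x hx])
      (fun i ↦ (h2 (i + 1)).congr (e' i)) fun x hx ↦ by simp [h3 x hx]
    have h0 : ∀ z : ℤ, VG S c.n (cond (Nat.beq v.d 0) ⟨0, z.natAbs * 2 ^ 16, 0⟩ (TM.mon s z))
        fun x ↦ z / 2 ^ 48 * gtR (φ x) 0 := fun z ↦ by
      cases hd : Nat.beq v.d 0
      · have : v.d ≠ 0 := Nat.ne_of_beq_eq_false hd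
        simpa using h1 0 z (by show 3 ≤ 2 * v.d + 1; omega)
      · have := (VG.zero G).widen (z.natAbs * 2 ^ 16) (((h2 0).smul (z / 2 ^ 48)).mono (by
          rw [abs_div, abs_of_pos (a := (2 : ℝ) ^ 48) (by positivity)]
          push_cast [Nat.cast_natAbs, Int.cast_abs]
          exact le_of_eq (by ring)))
        simpa [TM.widen] using this
    intro i
    refine (IV.cons ((VG.mon0 G _).add (h0 _)) ih i).congr fun x hx ↦ ?_
    beta_reduce
    conv_lhs => rw [e x hx]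
    rfl

end Pool.Agent.Lib.MP_d6150d_an
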