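import Pool.Agent.Lib.MP_d6150d_an.GAlg
import Pool.Agent.Lib.MP_d6150d_an.GDef

/-! Taylor models with remainders in a normed algebra of functions. -/

namespace Pool.Agent.Lib.MP_d6150d_an

open Finset

namespace Alg.N

variable {A : Alg} {f g : List ℝ → ℝ} {B C : ℝ}

theorem congr (h : A.N f C) (e : ∀ x ∈ A.D, g x = f x) : A.N g C := A.congr h e
theorem mono (h : A.N f C) (e : C ≤ B) : A.N f B := A.mono h e
theorem add (h : A.N f B) (k : A.N g C) : A.N (fun x ↦ f x + g x) (B + C) := A.add h k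
theorem mul (h : A.N f B) (k : A.N g C) : A.N (fun x ↦ f x * g x) (B * C) := A.mul h k
theorem smul (a : ℝ) (h : A.N f C) : A.N (fun x ↦ a * f x) (|a| * C) := Alg.smul a h
theorem sup (h : A.N f C) : ∀ x ∈ A.D, |f x| ≤ C := A.sup h
theorem c_le (h : A.N f C) : 0 ≤ C := Alg.c_le h

end Alg.N

/-- the setting: strides, algebra, and the values of the variables already fixed -/
structure Sx where
  P : St
  A : Alg
  pre : List ℝ
  hmo : ∀ k, A.N (fun x ↦ mo P.Ss (pre ++ x) k) 1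
  hf : ∀ x ∈ A.D, Flag P.fl (pre ++ x)

/-- the polynomial with given coefficients -/
noncomputable def evL (Ss : List ℕ) (c : ℕ → ℤ) (x : List ℝ) : ℝ := ∑ k ∈ range N0, c k * mo Ss x k

namespace Sx

variable (S : Sx)

def mo (k : ℕ) (x : List ℝ) : ℝ := MP_d6150d_an.mo S.P.Ss (S.pre ++ x) k

noncomputable def ev (c : ℕ → ℤ) (x : List ℝ) : ℝ := evL S.P.Ss c (S.pre ++ x)

theorem mo_zero (x : List ℝ) : S.mo 0 x = 1 := MP_d6150d_an.mo_zero _ _

theorem ev_nm (c : ℕ → ℤ) : S.A.N (S.ev c) (l1 c) := by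
  have := Alg.sum (A := S.A) (range N0) (f := fun k τ ↦ (c k : ℝ) * S.mo k τ)
    (C := fun k ↦ |(c k : ℝ)| * 1) fun k _ ↦ Alg.smul _ (S.hmo k)
  refine S.A.mono this (le_of_eq ?_)
  simp [l1]

theorem ev_add (c d : ℕ → ℤ) (τ : List ℝ) :
    S.ev (fun k ↦ c k + d k) τ = S.ev c τ + S.ev d τ := by
  simp only [ev, evL, ← sum_add_distrib]; exact sum_congr rfl fun k _ ↦ by push_cast; ring

theorem ev_smul (a : ℤ) (c : ℕ → ℤ) (τ : List ℝ) :
    S.ev (fun k ↦ a * c k) τ = a * S.ev c τ := by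
  simp only [ev, evL, mul_sum]; exact sum_congr rfl fun k _ ↦ by push_cast; ring

theorem ev_single {i : ℕ} (hi : i < N0) (a : ℤ) (τ : List ℝ) :
    S.ev (fun k ↦ if k = i then a else 0) τ = a * S.mo i τ := by
  rw [ev, evL, sum_eq_single i] <;> simp +contextual [hi, mo]

end Sx

theorem frN_eq (n : ℕ) (k : ℕ → Bool) : frN n k = k n := rfl

theorem frI_eq (x : ℤ) (k : ℤ → Bool) : frI x k = k x := by cases x <;> rfl

theorem frT_eq (a : TM) (k : TM → Bool) : frT a k = k a := by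
  cases a; exact frI_eq _ fun x ↦ k ⟨x, _, _⟩

theorem frL_eq : ∀ (l : List TM) (k : List TM → Bool), frL l k = k l
  | [], _ => rfl
  | a :: l, k => by rw [frL, frT_eq, frL_eq]

theorem frC_eq (c : Ctx) (k : Ctx → Bool) : frC c k = k c := rfl

/-- the model `a` encloses the function `f` -/
def VG (S : Sx) (n : ℕ) (a : TM) (f : List ℝ → ℝ) : Prop :=
  ∃ c, Rep S.P n a c ∧ S.A.N (fun τ ↦ 2 ^ 64 * f τ - S.ev c τ) a.r

namespace VG

variable {S : Sx} {n : ℕ} {a b z : TM} {f g : List ℝ → ℝ}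

theorem congr (h : VG S n a f) (e : ∀ τ ∈ S.A.D, g τ = f τ) : VG S n a g := by
  obtain ⟨c, R, h⟩ := h
  exact ⟨c, R, h.congr fun τ hτ ↦ by rw [e τ hτ]⟩

theorem mono {n' : ℕ} (h : VG S n a f) (hn : n ≤ n') : VG S n' a f := by
  obtain ⟨c, R, h⟩ := h
  exact ⟨c, ⟨fun k hk ↦ ⟨(R.supp k hk).1.trans_le hn, (R.supp k hk).2⟩, R.x, R.l⟩, h⟩

theorem weak {x : ℤ} {r l r' l' : ℕ} (h : VG S n ⟨x, r, l⟩ f) (hr : r ≤ r') (hl : l ≤ l') :
    VG S n ⟨x, r', l'⟩ f := by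
  obtain ⟨c, R, h⟩ := h
  exact ⟨c, ⟨R.supp, R.x, R.l.trans (Nat.cast_le.2 hl)⟩, h.mono (Nat.cast_le.2 hr)⟩

theorem norm (h : VG S n a f) : S.A.N f (a.norm / 2 ^ 64) := by
  obtain ⟨c, R, h⟩ := h
  have := (h.add (S.ev_nm c)).smul (1 / 2 ^ 64)
  refine (this.congr fun τ _ ↦ by ring).mono ?_
  have hl : (l1 c : ℝ) ≤ a.l := by exact_mod_cast R.l
  rw [TM.norm, abs_of_pos (by positivity)]; push_cast
  rw [one_div_mul_eq_div]
  exact div_le_div_of_nonneg_right (by linarith) (by positivity)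

theorem bound (h : VG S n a f) {τ : List ℝ} (hτ : τ ∈ S.A.D) : |f τ| ≤ a.norm / 2 ^ 64 :=
  h.norm.sup τ hτ

theorem add (ha : VG S n a f) (hb : VG S n b g) : VG S n (a.add b) fun τ ↦ f τ + g τ := by
  obtain ⟨c, R, h⟩ := ha
  obtain ⟨d, R', h'⟩ := hb
  refine ⟨fun k ↦ c k + d k, ⟨fun k hk ↦ ?_, by rw [TM.add_eq, R.x, R'.x, pk_add], ?_⟩, ?_⟩
  · by_cases h : c k = 0
    · exact R'.supp k (by simpa [h] using hk)
    · exact R.supp k h
  · have := l1_add c d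
    have := R.l
    have := R'.l
    simp only [TM.add_eq]; push_cast; omega
  · refine ((h.add h').congr fun τ _ ↦ ?_).mono (by simp [TM.add_eq])
    rw [S.ev_add]; ring

theorem smul (z : ℤ) (ha : VG S n a f) : VG S n (TM.smul z a) fun τ ↦ z * f τ := by
  obtain ⟨c, R, h⟩ := ha
  refine ⟨fun k ↦ z * c k, ⟨fun k hk ↦ R.supp k (right_ne_zero_of_mul hk), ?_, ?_⟩, ?_⟩
  · simp only [TM.smul_eq, R.x, pk, mul_sum, mul_assoc]
  · rw [l1_smul]; simp only [TM.smul_eq]; push_cast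
    exact mul_le_mul_of_nonneg_left R.l (abs_nonneg _)
  · refine ((h.smul z).congr fun τ _ ↦ ?_).mono (by simp [TM.smul_eq])
    rw [S.ev_smul]; ring

theorem sub (ha : VG S n a f) (hb : VG S n b g) : VG S n (a.sub b) fun τ ↦ f τ - g τ := by
  have := ha.add (hb.smul (-1))
  have e : a.add (TM.smul (-1) b) = a.sub b := by simp [TM.add_eq, TM.sub_eq, TM.smul_eq, sub_eq_add_neg]
  rw [e] at this
  exact this.congr fun τ _ ↦ by push_cast; ring

theorem single {i : ℕ} (hi : i < n) (hN : i < N0) (hk : keep S.P.Ss i = true) (z : ℤ) {l : ℕ}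
    (hl : |z| ≤ l) : VG S n ⟨z * 2 ^ (224 * i), 0, l⟩ fun τ ↦ z / 2 ^ 64 * S.mo i τ := by
  refine ⟨fun k ↦ if k = i then z else 0, ⟨fun k h ↦ ?_, ?_, ?_⟩, ?_⟩
  · obtain rfl : k = i := by by_contra h'; simp [h'] at h
    exact ⟨hi, hk⟩
  · rw [pk, sum_eq_single i] <;> simp +contextual [hN]
  · rw [l1, sum_eq_single i] <;> simp +contextual [hN, hl]
  · refine ((S.A.const 0).congr fun τ _ ↦ ?_).mono (by simp)
    rw [S.ev_single hN]; ring

theorem mon {i : ℕ} (hi : i < n) (hN : i < N0) (hk : keep S.P.Ss i = true) (z : ℤ) :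
    VG S n (TM.mon i z) fun τ ↦ z / 2 ^ 48 * S.mo i τ := by
  have := single hi hN hk (z * 2 ^ 16) (l := z.natAbs * 2 ^ 16) (by rw [abs_mul]; simp)
  have e : TM.mon i z = ⟨z * 2 ^ 16 * 2 ^ (224 * i), 0, z.natAbs * 2 ^ 16⟩ := by
    simp only [TM.mon, TM.mk.injEq, and_true]; push_cast; ring
  rw [e]
  exact this.congr fun τ _ ↦ by push_cast; ring

theorem widen (h : VG S n a f) (e : ℕ) {δ : List ℝ → ℝ} (hδ : S.A.N δ (e / 2 ^ 64)) :
    VG S n (a.widen e) fun τ ↦ f τ + δ τ := by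
  obtain ⟨c, R, h⟩ := h
  refine ⟨c, ⟨R.supp, R.x, R.l⟩, ((h.add (hδ.smul (2 ^ 64))).congr fun τ _ ↦ by ring).mono ?_⟩
  rw [abs_of_pos (by positivity), TM.widen]; push_cast; field_simp; exact le_rfl

theorem exact (h : VG S n a f) : ∃ g, VG S n a.exact g := by
  obtain ⟨c, R, -⟩ := h
  exact ⟨fun τ ↦ S.ev c τ / 2 ^ 64, c, ⟨R.supp, R.x, R.l⟩,
    ((S.A.const 0).congr fun τ _ ↦ by ring).mono (by simp [TM.exact])⟩

variable {c : Ctx} (G : c.Good S.P)
include G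

theorem const (z : ℤ) {l : ℕ} (hl : |z| ≤ l) : VG S c.n ⟨z, 0, l⟩ fun _ ↦ z / 2 ^ 64 := by
  have := single G.npos (by have := G.n2; have := G.npos; omega) G.k0 z hl
  simpa [S.mo_zero] using this

theorem int (z : ℤ) : VG S c.n (TM.int z) fun _ ↦ z := by
  have := const G (z * 2 ^ 64) (l := z.natAbs * 2 ^ 64) (by rw [abs_mul]; simp)
  have e : TM.int z = ⟨z * 2 ^ 64, 0, z.natAbs * 2 ^ 64⟩ := by simp [TM.int]
  rw [e]
  exact this.congr fun τ _ ↦ by push_cast; ring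

theorem cst (z : ℕ) : VG S c.n (TM.cst z) fun _ ↦ z / 2 ^ 64 := by
  simpa [TM.cst] using const G z (l := z) (by simp)

theorem mon0 (z : ℤ) : VG S c.n (TM.mon 0 z) fun _ ↦ z / 2 ^ 48 := by
  simpa [S.mo_zero] using mon G.npos (by have := G.n2; have := G.npos; omega) G.k0 z

theorem inv (q : ℕ) : VG S c.n (TM.inv q) fun _ ↦ 1 / q := by
  have h1 : ((2 ^ 64 / q : ℕ) : ℝ) ≤ 2 ^ 64 / q := by exact_mod_cast Nat.cast_div_le
  have h2 : (2 ^ 64 / q : ℝ) < (2 ^ 64 / q : ℕ) + 1 := by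
    have := Nat.lt_floor_add_one (((2 ^ 64 : ℕ) : ℝ) / q)
    rw [Nat.floor_div_eq_div] at this
    exact_mod_cast this
  have := (cst G (2 ^ 64 / q)).widen 1 (δ := fun _ ↦ 1 / q - (2 ^ 64 / q : ℕ) / 2 ^ 64)
    ((S.A.const _).mono ?_)
  · exact this.congr fun τ _ ↦ by ring
  · have e : (1 / q - (2 ^ 64 / q : ℕ) / 2 ^ 64 : ℝ) = (2 ^ 64 / q - (2 ^ 64 / q : ℕ)) / 2 ^ 64 := by
      ring
    rw [e, abs_div, abs_of_pos (by positivity : (0 : ℝ) < 2 ^ 64), abs_of_nonneg (by linarith)]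
    gcongr; push_cast; linarith

theorem tight (h : VG S c.n a f) : VG S c.n (TM.tight c a) f := by
  rw [TM.tight_eq]
  split_ifs with hl
  · obtain ⟨e, R, h⟩ := h
    have hs : ∀ k, e k ≠ 0 → k < 2 * c.n := fun k hk ↦ by have := (R.supp k hk).1; omega
    have hl' : l1 e < 2 ^ 223 := R.l.trans_lt (by exact_mod_cast hl)
    refine ⟨e, ⟨R.supp, R.x, ?_⟩, h⟩
    simp only
    rw [R.x, bias_eq G hs hl', absv_eq G hs hl', dg_mod (ad_sum hl')]
    exact_mod_cast l1_le_ad G hs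
  · exact h

theorem mulS (ha : VG S c.n a f) (hb : VG S c.n b g) :
    VG S c.n (mulS c a b) fun τ ↦ f τ * g τ := by
  unfold MP_d6150d_an.mulS
  split_ifs with hl
  swap
  · refine ⟨fun _ ↦ 0, ⟨by simp, by simp [pk], by simp [l1]⟩, ?_⟩
    have := ((ha.norm.mul hb.norm).smul (2 ^ 64)).congr
      (g := fun τ ↦ 2 ^ 64 * (f τ * g τ) - S.ev (fun _ ↦ 0) τ) fun τ _ ↦ by simp [Sx.ev, evL]
    refine this.mono ?_
    have h2 := nat_div_bound ((a.l + a.r) * (b.l + b.r))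
    rw [abs_of_pos (by positivity), TM.norm, TM.norm]
    simp only [Nat.cast_add, Nat.cast_mul, Nat.cast_one] at h2 ⊢
    refine le_trans (le_of_eq ?_) h2
    field_simp
  obtain ⟨ca, Ra, ha⟩ := ha
  obtain ⟨cb, Rb, hb⟩ := hb
  have sa := fun k hk ↦ (Ra.supp k hk).1
  have sb := fun k hk ↦ (Rb.supp k hk).1
  set e := conv c.n ca cb with he
  have hs : ∀ k, e k ≠ 0 → k < 2 * c.n := conv_supp
  have hl' : l1 e < 2 ^ 223 := by
    refine (conv_l1 G.n2 sa sb).trans_lt (lt_of_le_of_lt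
      (mul_le_mul Ra.l Rb.l (l1_nonneg _) (Nat.cast_nonneg _)) ?_)
    exact_mod_cast hl
  have hx : a.x * b.x = pk e := by
    rw [Ra.x, Rb.x]
    exact conv_sum (R := ℤ) G.n2 (fun k ↦ 2 ^ (224 * k)) sa sb fun i j _ _ ↦ by ring
  have hev : ∀ τ, S.ev ca τ * S.ev cb τ = S.ev e τ := fun τ ↦
    conv_sum (R := ℝ) G.n2 (fun k ↦ S.mo k τ) sa sb fun i j hi hj ↦
      mo_add _ _ _ _ (Ra.supp i hi).2 (Rb.supp j hj).2
  have had : ∀ k, ad c.n e k < 2 ^ 224 := fun k ↦ by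
    have h1 := ad_le (c := c) (e := e) k
    have h2 := e_lt G hs hl' k
    omega
  set K : ℕ → Prop := fun k ↦ k < c.n ∧ keep S.P.Ss k = true with hK
  set Dk : ℕ → ℕ := fun k ↦ ind (k < 2 * c.n ∧ ¬K k) * ad c.n e k with hD
  have hDle : ∀ k, Dk k ≤ ad c.n e k := fun k ↦ by
    simp only [hD, ind]; split_ifs <;> omega
  have hDs : ∑ k ∈ range N0, Dk k ≤ ∑ k ∈ range N0, ad c.n e k := sum_le_sum fun k _ ↦ hDle k
  have hd : (dg (ad c.n e) N0 &&& c.drop) % (2 ^ 224 - 1) = ∑ k ∈ range N0, Dk k := by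
    rw [G.drop, dg_and _ had fun k ↦ ind_mul_lt _ (by norm_num),
      dg_congr fun k _ ↦ and_ind (had k) _, dg_mod (hDs.trans_lt (ad_sum hl'))]
  set c' : ℕ → ℤ := fun k ↦ if K k then e k / 2 ^ 64 else 0 with hc'
  have hz : (((dg (bd c.n e) N0 &&& c.keepHi) >>> 64 : ℕ) : ℤ) - c.biasK = pk c' := by
    have hb := bd_lt G hs hl'
    have h1 : ∀ k, bd c.n e k &&& ind (K k) * (2 ^ 224 - 2 ^ 64) =
        ind (K k) * (bd c.n e k / 2 ^ 64) * 2 ^ 64 := fun k ↦ by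
      unfold ind; split_ifs
      · rw [one_mul, one_mul, and_hi (hb k)]
      · simp
    rw [G.keepHi, G.biasK, dg_and _ hb fun k ↦ ind_mul_lt _ (by norm_num),
      dg_congr fun k _ ↦ h1 k, dg_shift _ _ fun k ↦ Dvd.intro_left _ rfl, dg_cast, dg_cast, pk_sub]
    refine congrArg pk (funext fun k ↦ ?_)
    rw [Nat.mul_div_cancel _ (by positivity)]
    have := abs_lt.1 (e_lt G hs hl' k)
    by_cases hk : K k
    · have h2 : k < 2 * c.n := by have := hk.1; omega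
      have h3 : ind (k < c.n ∧ keep S.P.Ss k = true) = 1 := if_pos hk
      have h4 : c' k = e k / 2 ^ 64 := if_pos hk
      rw [h3, h4, one_mul, one_mul, bd, if_pos h2]
      clear * - this
      omega
    · have h3 : ind (k < c.n ∧ keep S.P.Ss k = true) = 0 := if_neg hk
      have h4 : c' k = 0 := if_neg hk
      rw [h3, h4, zero_mul, zero_mul]; rfl
  simp only [hx, bias_eq G hs hl', absv_eq G hs hl', hd, hz, dg_mod (ad_sum hl')]
  have s1 := sum_ind G (le_refl (2 * c.n))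
  have s2 := sum_ind G (show c.n ≤ 2 * c.n by omega)
  refine ⟨c', ⟨fun k hk ↦ ?_, rfl, ?_⟩, ?_⟩
  · by_contra h; exact hk (if_neg h)
  · have h1 : ∀ k, 2 ^ 64 * |c' k| ≤
        ad c.n e k - Dk k + ind (k < 2 * c.n) + 2 ^ 64 * (ind (k < c.n) : ℤ) := fun k ↦ by
      have h2 := le_ad (c := c) hs k
      have h3 := hDle k
      by_cases hk : K k
      · have h4 : Dk k = 0 := by simp [hD, ind, hk]
        have h5 : ind (k < c.n) = 1 := by simp [ind, hk.1]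
        simp only [hc', hk, if_true, h4, h5]
        rcases abs_cases (e k) with h | h <;> rcases abs_cases (e k / 2 ^ 64) with h' | h' <;> omega
      · simp only [hc', hk, if_false, abs_zero]; omega
    have h2 := sum_le_sum (s := range N0) fun k _ ↦ h1 k
    rw [← mul_sum, sum_add_distrib, sum_add_distrib, sum_sub_distrib, ← mul_sum, s1, s2,
      ← Nat.cast_sum, ← Nat.cast_sum] at h2
    have h3 := int_div_bound (S := ∑ k ∈ range N0, ad c.n e k - ∑ k ∈ range N0, Dk k + 2 * c.n)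
      (x := l1 c') (n := c.n) (by
        rw [Nat.cast_add, Nat.cast_sub hDs]; exact h2)
    simpa only [Nat.cast_add, Nat.cast_one] using h3
  · set u : ℕ → ℤ := fun k ↦ e k + -2 ^ 64 * c' k with hu
    have h1 : ∀ k, |u k| ≤ Dk k + ind (k < 2 * c.n) + 2 ^ 64 * (ind (k < c.n) : ℤ) := fun k ↦ by
      have h2 := le_ad (c := c) hs k
      by_cases hk : K k
      · have h5 : ind (k < c.n) = 1 := by simp [ind, hk.1]
        simp only [hu, hc', hk, if_true, h5]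
        rw [abs_le]; omega
      · simp only [hu, hc', hk, if_false, mul_zero, add_zero]
        by_cases h6 : k < 2 * c.n
        · have h4 : Dk k = ad c.n e k := by simp [hD, ind, hk, h6]
          omega
        · have : e k = 0 := by by_contra h; exact h6 (hs k h)
          rw [this, abs_zero]; positivity
    have h2 := sum_le_sum (s := range N0) fun k _ ↦ h1 k
    rw [sum_add_distrib, sum_add_distrib, ← mul_sum, s1, s2, ← Nat.cast_sum] at h2
    have h3 : (l1 u : ℝ) ≤ (∑ k ∈ range N0, Dk k : ℕ) + 2 * c.n + 2 ^ 64 * c.n := by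
      exact_mod_cast h2
    have la : (l1 ca : ℝ) ≤ a.l := by exact_mod_cast Ra.l
    have lb : (l1 cb : ℝ) ≤ b.l := by exact_mod_cast Rb.l
    have := (((((S.ev_nm ca).mono la).mul hb).add (((S.ev_nm cb).mono lb).mul ha)).add
      ((ha.mul hb).add ((S.ev_nm u).mono h3))).smul (1 / 2 ^ 64)
    refine (this.congr fun τ _ ↦ ?_).mono ?_
    · rw [hu, S.ev_add, S.ev_smul, ← hev]; push_cast; ring
    · have h4 := nat_div_bound (a.l * b.r + b.l * a.r + a.r * b.r + ∑ k ∈ range N0, Dk k + 2 * c.n)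
      rw [abs_of_pos (by positivity)]
      simp only [Nat.cast_add, Nat.cast_mul, Nat.cast_one, Nat.cast_ofNat] at h4 ⊢
      have : (1 / 2 ^ 64 : ℝ) * (a.l * b.r + b.l * a.r + (a.r * b.r +
        ((∑ k ∈ range N0, Dk k : ℕ) + 2 * c.n + 2 ^ 64 * c.n))) = (a.l * b.r + b.l * a.r +
          a.r * b.r + (∑ k ∈ range N0, Dk k : ℕ) + 2 * c.n) / 2 ^ 64 + c.n := by ring
      rw [this]; linarith

theorem mul (ha : VG S c.n a f) (hb : VG S c.n b g) :
    VG S c.n (TM.mul c a b) fun τ ↦ f τ * g τ := by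
  have h := mulS G ha hb
  have n2 : 2 * c.n ≤ 16384 := N0_eq ▸ G.n2
  obtain ⟨x1, r1, l1⟩ := a
  obtain ⟨x2, r2, l2⟩ := b
  unfold MP_d6150d_an.mulS at h
  unfold TM.mul
  dsimp only at h
  refine (congrArg (VG S c.n · _) (TM.ble_cases _ _ _)).mpr ?_
  dsimp only
  rw [TM.isub_eq, TM.bmul_eq]
  simp only [Nat.mul_eq, Nat.add_eq, Nat.sub_eq, Nat.shiftRight_eq, Nat.land_eq,
    show ∀ a b : ℕ, a.mod b = a % b from fun _ _ ↦ rfl,
    Nat.shiftRight_eq_div_pow] at h ⊢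
  split_ifs at h ⊢
  · refine h.weak ?_ ?_
    · rw [add_mul, show (2 ^ 224 - 1 : ℕ) =
        26959946667150639794667015087019630673637144422540572481103610249215 by norm_num]
      omega
    · rw [show (2 ^ 224 - 1 : ℕ) =
        26959946667150639794667015087019630673637144422540572481103610249215 by norm_num]
      omega
  · exact h

theorem pos (h : VG S c.n a f) (hp : TM.pos c a = true) {τ : List ℝ} (hτ : τ ∈ S.A.D) : 0 < f τ := by
  simp only [TM.pos, Bool.and_eq_true, decide_eq_true_eq] at hp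
  obtain ⟨hl, hp⟩ := hp
  have hl2 : a.l < 2 ^ 223 := hl.trans (by norm_num)
  obtain ⟨e, R, h⟩ := h
  have RE := R.part G hl2 (fun k ↦ k < c.n ∧ keep S.P.Ss k = true ∧ evn S.P.Ss S.P.fl k = true) 0
    (Nat.zero_le _) (fun k h ↦ h.1) fun k h ↦ h.2.1
  have RO := R.part G hl2 (fun k ↦ k < c.n ∧ keep S.P.Ss k = true ∧ ¬evn S.P.Ss S.P.fl k = true) 0
    (Nat.zero_le _) (fun k h ↦ h.1) fun k h ↦ h.2.1
  rw [← G.ev] at RE
  rw [← G.od] at RO
  simp only [add_zero] at RE RO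
  set eE : ℕ → ℤ := fun k ↦
    if k < c.n ∧ keep S.P.Ss k = true ∧ evn S.P.Ss S.P.fl k = true then e k else 0 with hE
  set eO : ℕ → ℤ := fun k ↦
    if k < c.n ∧ keep S.P.Ss k = true ∧ ¬evn S.P.Ss S.P.fl k = true then e k else 0 with hO
  have lE : (TM.part c c.ev 0 a).l = a.l := by rw [TM.part, if_pos hl2]
  have lO : (TM.part c c.od 0 a).l = a.l := by rw [TM.part, if_pos hl2]
  obtain ⟨TE, bE⟩ := RE.tight G (lE ▸ hl2)
  obtain ⟨TO, -⟩ := RO.tight G (lO ▸ hl2)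
  have l1E := RE.l
  rw [lE] at l1E
  have n2 : 2 * c.n ≤ 16384 := N0_eq ▸ G.n2
  have hS : |∑ k ∈ range N0, eE k| ≤ l1 eE := abs_sum_le_sum_abs _ _
  have hm : ((TM.tight c (TM.part c c.ev 0 a)).x + (TM.tight c (TM.part c c.ev 0 a)).l) %
      ((2 ^ 224 - 1 : ℕ) : ℤ) = ∑ k ∈ range N0, eE k + (TM.tight c (TM.part c c.ev 0 a)).l := by
    rw [TE.x, ((pk_modEq eE).add_right _).eq]
    have := TE.l
    have := abs_le.1 hS
    apply Int.emod_eq_of_lt <;> omega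
  simp only [TM.lower] at hp
  rw [hm, R.coef0 G hl2] at hp
  have hp' : (0 : ℝ) < 2 * e 0 + ((∑ k ∈ range N0, eE k : ℤ) +
      (TM.tight c (TM.part c c.ev 0 a)).l) - 2 * ((TM.tight c (TM.part c c.ev 0 a)).l +
      (TM.tight c (TM.part c c.od 0 a)).l + a.r) := by exact_mod_cast hp
  have h1 := (abs_le.1 (h.sup τ hτ)).1
  have h2 : S.ev e τ = S.ev eE τ + S.ev eO τ := by
    rw [← S.ev_add]
    refine congrFun (congrArg S.ev (funext fun k ↦ ?_)) τ
    by_cases hk : e k = 0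
    · simp [hE, hO, hk]
    · obtain ⟨h3, h4⟩ := R.supp k hk
      by_cases h5 : evn S.P.Ss S.P.fl k = true <;> simp [hE, hO, h3, h4, h5]
  have h3 := (abs_le.1 ((S.ev_nm eO).sup τ hτ)).1
  have h4 : (l1 eO : ℝ) ≤ (TM.tight c (TM.part c c.od 0 a)).l := by exact_mod_cast TO.l
  have h5 : (l1 eE : ℝ) ≤ (TM.tight c (TM.part c c.ev 0 a)).l := by exact_mod_cast TE.l
  have h6 : ∀ k ∈ range N0, (if k = 0 then 2 * (e 0 : ℝ) else 0) + (eE k - |(eE k : ℝ)|) ≤
      2 * (eE k * S.mo k τ) := fun k _ ↦ by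
    split_ifs with hk
    · subst hk
      have : eE 0 = e 0 := if_pos ⟨G.npos, G.k0, evn_zero _ _⟩
      rw [this, S.mo_zero]; linarith [le_abs_self (e 0 : ℝ)]
    · by_cases h7 : k < c.n ∧ keep S.P.Ss k = true ∧ evn S.P.Ss S.P.fl k = true
      · have m0 : 0 ≤ S.mo k τ := mo_nonneg _ _ _ _ (S.hf τ hτ) h7.2.2
        have m1 : S.mo k τ ≤ 1 := (abs_le.1 ((S.hmo k).sup τ hτ)).2
        rcases abs_cases (eE k : ℝ) with h8 | h8 <;> nlinarith
      · have : eE k = 0 := if_neg h7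
        simp [this]
  have h7 := sum_le_sum h6
  rw [sum_add_distrib, sum_sub_distrib, ← mul_sum, sum_ite_eq',
    if_pos (mem_range.2 (by rw [N0_eq]; norm_num))] at h7
  have h8 : (l1 eE : ℝ) = ∑ k ∈ range N0, |(eE k : ℝ)| := by simp [l1]
  have h9 : (0 : ℝ) < 2 ^ 64 * f τ := by
    have : S.ev eE τ = ∑ k ∈ range N0, eE k * S.mo k τ := rfl
    push_cast at hp'
    linarith
  exact (mul_pos_iff_of_pos_left (by positivity)).1 h9

theorem zero : VG S c.n ⟨0, 0, 0⟩ fun _ ↦ 0 := by simpa using const G 0 (l := 0) (by simp)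

theorem horner (hz : VG S c.n z f) : ∀ {as : List TM} {fs : List (List ℝ → ℝ)},
    List.Forall₂ (VG S c.n) as fs →
      VG S c.n (TM.horner c z as) fun τ ↦ hornerR (f τ) (fs.map (· τ))
  | _, _, .nil => zero G
  | _, _, .cons h t => h.add (mul G hz (horner hz t))

theorem tri0 (h : VG S c.n z f) {C : ℝ} (hC : S.A.N f C) (hC1 : C ≤ 1) :
    VG S c.n (TM.tri0 c z).e (fun τ ↦ Real.exp (f τ)) ∧
      VG S c.n (TM.tri0 c z).p1 (fun τ ↦ ph1 (f τ)) ∧
      VG S c.n (TM.tri0 c z).p2 fun τ ↦ ph2 (f τ) := by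
  have h1 : List.Forall₂ (VG S c.n) ((List.range 12).map fun n ↦ TM.inv (TM.fact (n + 2)))
      ((List.range 12).map fun n _ ↦ 1 / (TM.fact (n + 2) : ℝ)) := by
    rw [List.forall₂_map_left_iff, List.forall₂_map_right_iff, List.forall₂_same]
    exact fun n _ ↦ inv G _
  have hN : S.A.N (fun τ ↦ ph2 (f τ) - ∑ n ∈ range 12, f τ ^ n / (n + 2).factorial)
      (2 * (z.norm / 2 ^ 64) ^ 12 / (14 : ℕ).factorial) := by
    by_cases hz : (z.norm : ℝ) / 2 ^ 64 ≤ 1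
    · exact Alg.ph2_rem h.norm hz
    · refine (Alg.ph2_rem hC hC1).mono ?_
      have := hC.c_le
      gcongr; linarith
  have h2 := (horner G h h1).widen (2 * z.norm ^ 12 / 2 ^ (64 * 11) / TM.fact 14 + 1) (hN.mono (by
    have h5 := Nat.lt_floor_add_one (((2 * z.norm ^ 12 : ℕ) : ℝ) /
      ((2 ^ (64 * 11) * TM.fact 14 : ℕ) : ℝ))
    rw [Nat.floor_div_eq_div, ← Nat.div_div_eq_div_mul] at h5
    rw [le_div_iff₀ (by positivity), Nat.cast_add, Nat.cast_one]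
    refine le_trans (le_of_eq ?_) h5.le
    rw [fact_eq, Nat.cast_mul, Nat.cast_mul, Nat.cast_pow, Nat.cast_pow, div_pow, ← pow_mul,
      show 64 * 12 = 64 * 11 + 64 by norm_num, pow_add, Nat.cast_ofNat]
    generalize (2 : ℝ) ^ (64 * 11) = A
    field_simp))
  have h3 : VG S c.n (TM.tri0 c z).p2 fun τ ↦ ph2 (f τ) := h2.congr fun τ _ ↦ by
    simp only [List.range_succ, List.range_zero, List.map_cons, List.map_nil,
      List.nil_append, List.cons_append, hornerR, sum_range_succ, range_zero, sum_empty, fact_eq]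
    ring
  have h4 : VG S c.n (TM.tri0 c z).p1 fun τ ↦ ph1 (f τ) :=
    ((int G 1).add (mul G h h3)).congr fun τ _ ↦ by simp [ph1]
  exact ⟨((int G 1).add (mul G h h4)).congr fun τ _ ↦ by simp [exp_eq_ph], h4, h3⟩

theorem dbls {t : TM.Tri} (h1 : VG S c.n t.e fun τ ↦ Real.exp (f τ))
    (h2 : VG S c.n t.p1 fun τ ↦ ph1 (f τ)) (h3 : VG S c.n t.p2 fun τ ↦ ph2 (f τ)) : ∀ k,
    VG S c.n (TM.dbls c t k).e (fun τ ↦ Real.exp (2 ^ k * f τ)) ∧
      VG S c.n (TM.dbls c t k).p1 (fun τ ↦ 2 ^ k * ph1 (2 ^ k * f τ)) ∧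
      VG S c.n (TM.dbls c t k).p2 fun τ ↦ 4 ^ k * ph2 (2 ^ k * f τ)
  | 0 => by simpa [TM.dbls] using ⟨h1, h2, h3⟩
  | k + 1 => by
    obtain ⟨a, b, d⟩ := dbls h1 h2 h3 k
    have e : ∀ τ, 2 ^ (k + 1) * f τ = 2 * (2 ^ k * f τ) := fun τ ↦ by ring
    refine ⟨(mul G a a).congr fun τ _ ↦ by rw [e, two_mul, Real.exp_add],
      (mul G b (a.add (int G 1))).congr fun τ _ ↦ ?_,
      ((mul G b b).add (d.smul 2)).congr fun τ _ ↦ ?_⟩
    · rw [e]; push_cast; linear_combination 2 ^ k * ph1_dbl (2 ^ k * f τ)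
    · rw [e, show (4 : ℝ) = 2 ^ 2 by norm_num, ← pow_mul, ← pow_mul]; push_cast
      linear_combination 2 ^ (2 * k) * ph2_dbl (2 ^ k * f τ)

theorem tri (h : VG S c.n z f) {k : ℕ} (hk : z.norm ≤ 2 ^ (64 + k)) :
    VG S c.n (TM.tri c k z).e (fun τ ↦ Real.exp (f τ)) ∧
      VG S c.n (TM.tri c k z).p1 (fun τ ↦ ph1 (f τ)) ∧
      VG S c.n (TM.tri c k z).p2 fun τ ↦ ph2 (f τ) := by
  have h1 := mul G h (inv G (2 ^ k))
  obtain ⟨a, b, d⟩ := tri0 G h1 ((h.norm.smul (1 / 2 ^ k)).congr fun τ _ ↦ by push_cast; ring) (by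
    have : (z.norm : ℝ) ≤ 2 ^ 64 * 2 ^ k := by rw [← pow_add]; exact_mod_cast hk
    rw [abs_of_pos (by positivity), one_div_mul_eq_div, div_div, div_le_one (by positivity)]
    exact this)
  obtain ⟨a, b, d⟩ := dbls G a b d k
  have e : ∀ τ, 2 ^ k * (f τ * (1 / ((2 ^ k : ℕ) : ℝ))) = f τ := fun τ ↦ by push_cast; field_simp
  simp only [e] at a b d
  exact ⟨a, (mul G b (inv G (2 ^ k))).congr fun τ _ ↦ by push_cast; field_simp,
    (mul G d (inv G (4 ^ k))).congr fun τ _ ↦ by push_cast; field_simp⟩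


omit G in
theorem wnorm (hg : VG S n z g) {δ : List ℝ → ℝ} {ε : ℝ} (hδ : S.A.N δ ε) {w : ℕ}
    (hw : z.norm * ε ≤ w) : VG S n (z.widen w) fun τ ↦ g τ + g τ * δ τ :=
  hg.widen w ((hg.norm.mul hδ).mono (by
    rw [div_mul_eq_mul_div]; exact div_le_div_of_nonneg_right hw (by positivity)))

theorem nwI {k : TM → Bool} (h : VG S c.n a f) : ∀ {m z}, (∃ g, VG S c.n z g) →
    nwI c a m z k = true → ∃ z, (∃ g, VG S c.n z g) ∧ k z = true
  | 0, z, hz, e => ⟨z, hz, e⟩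
  | m + 1, z, ⟨g, hz⟩, e => by
    rw [MP_d6150d_an.nwI, frT_eq] at e
    exact nwI h (mul G hz (tight G ((int G 2).sub (mul G h hz)))).exact e

theorem nwS {k : TM → Bool} (h : VG S c.n a f) : ∀ {m z}, (∃ g, VG S c.n z g) →
    nwS c a m z k = true → ∃ z, (∃ g, VG S c.n z g) ∧ k z = true
  | 0, z, hz, e => ⟨z, hz, e⟩
  | m + 1, z, ⟨g, hz⟩, e => by
    rw [MP_d6150d_an.nwS, frT_eq] at e
    exact nwS h
      (mul G (mul G hz (inv G 2)) (tight G ((int G 3).sub (mul G (mul G h hz) hz)))).exact e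

theorem invG {k : TM → Bool} {nk : ℕ} (h : VG S c.n a f) (e : invG c nk a k = true) :
    ∃ z, VG S c.n z (fun τ ↦ (f τ)⁻¹) ∧ k z = true := by
  rw [MP_d6150d_an.invG, frT_eq] at e
  obtain ⟨z, ⟨g, hg⟩, e⟩ := nwI G h (by
    rw [TM.newt]; split_ifs
    · exact ⟨_, cst G _⟩
    · exact ⟨_, (cst G _).smul _⟩) e
  have he := tight G ((int G 1).sub (mul G h hg))
  rw [frT_eq, Bool.and_eq_true, Nat.ble_eq] at e
  generalize TM.tight c ((TM.int 1).sub (TM.mul c a z)) = E at *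
  have hε : (E.norm : ℝ) / 2 ^ 64 ≤ 1 / 2 := by
    have : (E.norm : ℝ) ≤ 9223372036854775808 := by exact_mod_cast e.1
    rw [div_le_iff₀ (by positivity)]; linarith
  refine ⟨_, (hg.wnorm (Alg.geom he.norm hε) ?_).congr fun τ hτ ↦ ?_, e.2⟩
  · have h5 := Nat.lt_floor_add_one (((z.norm * E.norm * (2 ^ 64 + 2 * E.norm) : ℕ) : ℝ) /
      ((2 ^ 128 : ℕ) : ℝ))
    rw [Nat.floor_div_eq_div] at h5
    rw [Nat.cast_add, Nat.cast_one]
    refine le_trans (le_of_eq ?_) h5.le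
    push_cast; ring
  · have h1 := (abs_le.1 (he.bound hτ)).2
    push_cast at h1 ⊢
    have h2 : f τ * g τ ≠ 0 := by intro h; rw [h] at h1; linarith
    have h3 := left_ne_zero_of_mul h2
    have h4 := right_ne_zero_of_mul h2
    rw [sub_sub_cancel]; field_simp; ring

theorem rsqG {k : TM → Bool} {nk : ℕ} (h : VG S c.n a f) (e : rsqG c nk a k = true) :
    ∃ z, VG S c.n z (fun τ ↦ (√(f τ))⁻¹) ∧ k z = true := by
  rw [MP_d6150d_an.rsqG, frT_eq] at e
  obtain ⟨z, ⟨g, hg⟩, e⟩ := nwS G h ⟨_, cst G _⟩ e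
  have he := tight G ((int G 1).sub (mul G (mul G h hg) hg))
  rw [frT_eq, Bool.and_eq_true, Bool.and_eq_true, Nat.ble_eq] at e
  generalize TM.tight c ((TM.int 1).sub (TM.mul c (TM.mul c a z) z)) = E at *
  have hε : (E.norm : ℝ) / 2 ^ 64 ≤ 1 / 4 := by
    have : (E.norm : ℝ) ≤ 4611686018427387904 := by exact_mod_cast e.1.1
    rw [div_le_iff₀ (by positivity)]; linarith
  have h0 := he.norm.c_le
  refine ⟨_, (hg.wnorm ((Alg.geom (Alg.sqrt_N he.norm (by linarith)) (by linarith)).mono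
    (B := E.norm / 2 ^ 64 * 2) (by nlinarith)) ?_).congr fun τ hτ ↦ ?_, e.2⟩
  · have h5 := Nat.lt_floor_add_one (((z.norm * E.norm : ℕ) : ℝ) / ((2 ^ 63 : ℕ) : ℝ))
    rw [Nat.floor_div_eq_div] at h5
    rw [Nat.cast_add, Nat.cast_one]
    refine le_trans (le_of_eq ?_) h5.le
    push_cast; ring
  · have h1 := (abs_le.1 (he.bound hτ)).2
    have g0 := pos G hg e.1.2 hτ
    push_cast at h1 ⊢
    have f0 : 0 < f τ := by
      by_contra hf
      nlinarith [mul_nonneg (neg_nonneg.2 (not_lt.1 hf)) (mul_self_nonneg (g τ))]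
    have s0 := (Real.sqrt_pos.2 f0).ne'
    rw [sub_sub_cancel, sub_sub_cancel, mul_assoc, Real.sqrt_mul f0.le, Real.sqrt_mul_self g0.le]
    field_simp; ring

theorem posS (h : VG S c.n a f) {w m : ℕ} (hp : posS c a w m = true) {τ : List ℝ}
    (hτ : τ ∈ S.A.D) : 0 < f τ := by
  rw [MP_d6150d_an.posS, frT_eq] at hp
  have h1 := mul G h (cst G w)
  obtain ⟨g0, h0⟩ := h1.exact
  obtain ⟨y, ⟨g, hg⟩, e⟩ := nwS G h0 ⟨_, int G 1⟩ hp
  have := pos G (mul G (mul G h1 hg) hg) e hτ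
  rw [mul_assoc, mul_assoc] at this
  exact pos_of_mul_pos_left this (mul_nonneg (by positivity) (mul_self_nonneg _))

theorem posG (h : VG S c.n a f) (hp : posG c a = true) {τ : List ℝ} (hτ : τ ∈ S.A.D) : 0 < f τ := by
  rw [MP_d6150d_an.posG, Bool.or_eq_true, Bool.and_eq_true, Bool.or_eq_true] at hp
  exact hp.elim (pos G h · hτ) fun hp ↦ hp.2.elim (posS G h · hτ) (posS G h · hτ)

end VG

end Pool.Agent.Lib.MP_d6150d_an
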