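import Pool.Agent.Lib.MP_d6150d_an.Expl

/-! The general operators of order two and the maximum principle. -/

namespace Pool.Agent.Lib.MP_d6150d_an

open Real Set Filter Topology intervalIntegral

variable {D F R : ℝ} {f f' h h' : ℝ → ℝ} {t : ℝ}

theorem AnJ.congr (hf : AnJ D f) (e : ∀ t ∈ JR D, f t = h t) : AnJ D h := fun t ht ↦
  (hf t ht).congr (by filter_upwards [(JR_open D).mem_nhds ht] with s hs using e s hs)

theorem th_congr (e : ∀ s ∈ JR D, f s = h s) (ht : t ∈ JR D) : th D F f t = th D F h t := by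
  have : f =ᶠ[𝓝 t] h := by filter_upwards [(JR_open D).mem_nhds ht] with s hs using e s hs
  simp only [th, Dg, this.deriv_eq]

variable (D F) in
/-- `f'` is the Euler derivative of the analytic function `f` -/
structure HT (f f' : ℝ → ℝ) : Prop where
  an : AnJ D f
  eq : ∀ t ∈ JR D, th D F f t = f' t

theorem AnJ.ht (hf : AnJ D f) : HT D F f (MP_d6150d_an.th D F f) := ⟨hf, fun _ _ ↦ rfl⟩

theorem HT.an' (a : HT D F f f') : AnJ D f' := (a.an.th (F := F)).congr a.eq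

theorem HT.mul (a : HT D F f f') (b : HT D F h h') :
    HT D F (fun t ↦ f t * h t) fun t ↦ f' t * h t + f t * h' t :=
  ⟨a.an.mul b.an, fun t ht ↦ by
    rw [← a.eq t ht, ← b.eq t ht]; simp only [th, Dg_mul a.an b.an ht]; ring⟩

theorem HT.const (c : ℝ) : HT D F (fun _ ↦ c) fun _ ↦ 0 :=
  ⟨AnJ.const c, fun t _ ↦ by simp [th, Dg]⟩

theorem HT.sub (a : HT D F f f') (b : HT D F h h') :
    HT D F (fun t ↦ f t - h t) fun t ↦ f' t - h' t :=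
  ⟨a.an.sub b.an, fun t ht ↦ by
    rw [← a.eq t ht, ← b.eq t ht]; simp only [th, Dg_sub a.an b.an ht]; ring⟩

theorem HT.add (a : HT D F f f') (b : HT D F h h') :
    HT D F (fun t ↦ f t + h t) fun t ↦ f' t + h' t :=
  ⟨a.an.add b.an, fun t ht ↦ by
    rw [← a.eq t ht, ← b.eq t ht]
    simp only [th, Dg]
    rw [deriv_fun_add (a.an t ht).differentiableAt (b.an t ht).differentiableAt]; ring⟩

theorem HT.g : HT D F (gR D F) (gR D F) := ⟨AnJ.g, fun t ht ↦ by simp [th, Dg_g ht]⟩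

theorem HT.uniq (a : HT D F f f') (b : HT D F h h') (e : ∀ t ∈ JR D, f t = h t) :
    ∀ t ∈ JR D, f' t = h' t := fun t ht ↦ by rw [← a.eq t ht, ← b.eq t ht, th_congr e ht]

theorem HT.congr (a : HT D F f f') (e : ∀ t ∈ JR D, f' t = h' t) : HT D F f h' :=
  ⟨a.an, fun t ht ↦ (a.eq t ht).trans (e t ht)⟩

theorem HT.smul (a : HT D F f f') (c : ℝ) : HT D F (fun t ↦ c * f t) fun t ↦ c * f' t :=
  ((HT.const c).mul a).congr fun _ _ ↦ by ring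

theorem HT.v : HT D F (vR D F) fun t ↦ 2 * vR D F t :=
  ⟨AnJ.v, fun t ht ↦ by
    rw [th_congr (fun s hs ↦ ((gR_sq hs).symm.trans (sq _))) ht, (HT.g.mul HT.g).eq t ht,
      ← gR_sq ht]; ring⟩

theorem HT.g3 : HT D F (fun t ↦ gR D F t ^ 3) fun t ↦ 3 * gR D F t ^ 3 := by
  have := (HT.g (D := D) (F := F)).mul (HT.g.mul HT.g)
  simp only [pow_three]
  exact this.congr fun _ _ ↦ by ring

/-- the rule for a quotient by the cube of `gR` -/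
theorem HT.cube (a : HT D F f f') (b : HT D F h h') (e : ∀ t ∈ JR D, gR D F t ^ 3 * f t = h t) :
    ∀ t ∈ JR D, gR D F t ^ 3 * f' t = h' t - 3 * h t := fun t ht ↦ by
  have := (HT.g3.mul a).uniq b e t ht
  linear_combination this - 3 * e t ht

theorem HT.av (a : HT D F f f') (H : Rng D F R) {r : ℝ} (hr : r ∈ Ioo 0 R) :
    HasDerivAt (Av D F f) (Av D F f' r / r) r := by
  have h1 : |r| < R := by rw [abs_of_pos hr.1]; exact hr.2
  rw [← H.congr h1 a.eq]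
  exact H.av_deriv a.an h1 hr.1.ne'

theorem shift2 {A A1 B B1 : ℝ → ℝ} (hA : ∀ r ∈ Ioo 0 R, HasDerivAt A (A1 r / r) r)
    (hB : ∀ r ∈ Ioo 0 R, HasDerivAt B (B1 r / r) r) (e : ∀ r ∈ Ioo 0 R, A r = r ^ 2 * B r) :
    ∀ r ∈ Ioo 0 R, A1 r = r ^ 2 * (B1 r + 2 * B r) := fun r hr ↦ by
  have h1 := (hA r hr).unique (((hasDerivAt_pow 2 r).mul (hB r hr)).congr_of_eventuallyEq
    (by filter_upwards [isOpen_Ioo.mem_nhds hr] with s hs using e s hs))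
  have := hr.1.ne'
  field_simp at h1
  simp only [Nat.cast_ofNat, Nat.add_one_sub_one, pow_one] at h1
  linear_combination h1

theorem dadd {A A1 B B1 : ℝ → ℝ} (c : ℝ) (hA : ∀ r ∈ Ioo 0 R, HasDerivAt A (A1 r / r) r)
    (hB : ∀ r ∈ Ioo 0 R, HasDerivAt B (B1 r / r) r) :
    ∀ r ∈ Ioo 0 R, HasDerivAt (fun r ↦ A r + c * B r) ((A1 r + c * B1 r) / r) r := fun r hr ↦
  ((hA r hr).add ((hB r hr).const_mul c)).congr_deriv (by ring)

theorem Rng.pair (H : Rng D F R) {ρ : ℝ} (h1 : 0 < ρ) (h2 : ρ < R) :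
    XR D F (-ρ) ∈ JR D ∧ XR D F ρ ∈ JR D ∧ XR D F (-ρ) < 0 ∧ 0 < XR D F ρ ∧
      vR D F (XR D F (-ρ)) = vR D F (XR D F ρ) ∧ gR D F (XR D F (-ρ)) = -ρ ∧
      gR D F (XR D F ρ) = ρ ∧ vR D F (XR D F ρ) = ρ ^ 2 := by
  have h2 : |ρ| < R := by rwa [abs_of_pos h1]
  have h3 : |-ρ| < R := by rwa [abs_neg]
  have g0 : gR D F 0 = 0 := by simp [gR]
  refine ⟨H.mem h3, H.mem h2, ?_, ?_, ?_, H.eq h3, H.eq h2, by rw [← gR_sq (H.mem h2), H.eq h2]⟩
  · rw [← gR_mono.lt_iff_lt (H.mem h3) (zero_mem_JR D), H.eq h3, g0]; linarith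
  · rw [← gR_mono.lt_iff_lt (zero_mem_JR D) (H.mem h2), H.eq h2, g0]; exact h1
  · rw [← gR_sq (H.mem h3), ← gR_sq (H.mem h2), H.eq h3, H.eq h2]; ring

theorem Rng.av_pos (H : Rng D F R) (hf : AnJ D f) {r : ℝ} (hr : r ∈ Ioo 0 R)
    (hs : ∀ ρ ∈ Ioc 0 r, 0 < f (XR D F (-ρ)) + f (XR D F ρ)) : 0 < Av D F f r := by
  have h1 : |r| < R := by rw [abs_of_pos hr.1]; exact hr.2
  have c1 := H.icont hf h1
  have c2 := H.icont hf (r := -r) (by rwa [abs_neg])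
  have e2 := integral_comp_add_right (a := 0) (b := π) (fun θ ↦ f (XR D F (r * cos θ))) π
  rw [zero_add, ← two_mul] at e2
  have c3 : Continuous fun θ ↦ f (XR D F (r * cos θ)) + f (XR D F (-r * cos θ)) := c1.add c2
  have hle : ∀ θ, r * cos θ ≤ r := fun θ ↦ mul_le_of_le_one_right hr.1.le (cos_le_one θ)
  have hge : ∀ θ, -(r * cos θ) ≤ r := fun θ ↦ by nlinarith [neg_one_le_cos θ, hr.1]
  rw [Av, ← integral_add_adjacent_intervals (b := π) (c1.intervalIntegrable _ _)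
    (c1.intervalIntegrable _ _), ← e2]
  simp only [cos_add_pi, mul_neg, ← neg_mul]
  rw [← integral_add (c1.intervalIntegrable _ _) (c2.intervalIntegrable _ _),
    ← integral_add_adjacent_intervals (b := π / 2) (c3.intervalIntegrable _ _)
    (c3.intervalIntegrable _ _)]
  refine add_pos (intervalIntegral_pos_of_pos_on (c3.intervalIntegrable _ _) (fun θ hθ ↦ ?_)
    (by positivity)) (intervalIntegral_pos_of_pos_on (c3.intervalIntegrable _ _) (fun θ hθ ↦ ?_)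
    (half_lt_self pi_pos))
  · have := hs _ ⟨mul_pos hr.1 (cos_pos_of_mem_Ioo ⟨by linarith [hθ.1, pi_pos], hθ.2⟩), hle θ⟩
    rw [neg_mul]; linarith
  · have := hs (-(r * cos θ)) ⟨neg_pos.2 (mul_neg_of_pos_of_neg hr.1
      (cos_neg_of_pi_div_two_lt_of_lt hθ.1 (by linarith [hθ.2, pi_pos]))), hge θ⟩
    rw [neg_neg] at this
    rw [neg_mul]; linarith

theorem exists_f0 : ∃ f, AnJ D f ∧ ∀ t ∈ JR D, Dg D F (uR F) t = 1 + gR D F t * f t := by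
  have a : AnJ D (Dg D F (uR F)) := AnJ.u.dg
  have z := zero_mem_JR D
  have h0 : Dg D F (uR F) 0 = 1 := by
    have := (hasDerivAt_id (0 : ℝ)).mul (sqrt_mu_an (F := F) z).differentiableAt.hasDerivAt
    have e : deriv (gR D F) 0 = _ := this.deriv
    rw [Dg, (hasDerivAt_uR 0).deriv, e]; simp [muR_zero]
  refine ⟨fun t ↦ dslope (Dg D F (uR F)) 0 t / √(muR D F t), fun t ht ↦ AnalyticAt.div ?_
    (sqrt_mu_an ht) (sqrt_pos.2 (muR_pos ht)).ne', fun t ht ↦ ?_⟩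
  · by_cases h : t = 0
    · obtain ⟨p, hp⟩ := a 0 z
      rw [h]; exact ⟨_, hp.has_fpower_series_dslope_fslope⟩
    · have : AnalyticAt ℝ (fun y ↦ (Dg D F (uR F) y - Dg D F (uR F) 0) / y) t :=
        ((a t ht).sub analyticAt_const).div analyticAt_id h
      refine this.congr ?_
      filter_upwards [isOpen_ne.mem_nhds h] with y hy
      rw [dslope_of_ne _ hy, slope_def_field, sub_zero]
  · have h2 := (sqrt_pos.2 (muR_pos (F := F) ht)).ne'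
    have h3 := sub_smul_dslope (Dg D F (uR F)) 0 t
    rw [sub_zero, smul_eq_mul, h0] at h3
    rw [gR]; field_simp; linarith

variable (D F) in
/-- the iterated Euler derivatives of `uR` -/
noncomputable def TR : ℕ → ℝ → ℝ
  | 0 => uR F
  | k + 1 => th D F (TR k)

theorem TR_ht : ∀ k, HT D F (TR D F k) (TR D F (k + 1))
  | 0 => AnJ.u.ht
  | k + 1 => (TR_ht k).an'.ht

/-- the coefficients of an operator -/
structure Gp where
  p0 : ℝ
  q0 : ℝ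
  r0 : ℝ
  p1 : ℝ
  q1 : ℝ
  r1 : ℝ
  p2 : ℝ
  q2 : ℝ
  r2 : ℝ
  p3 : ℝ
  q3 : ℝ
  p4 : ℝ

namespace Gp

variable (o : Gp)

def P (h : ℝ) : ℝ := o.p0 + o.p1 * h + o.p2 * h ^ 2 + o.p3 * h ^ 3 + o.p4 * h ^ 4
def Q (h : ℝ) : ℝ := o.q0 + o.q1 * h + o.q2 * h ^ 2 + (o.p3 + o.q3) * h ^ 3 + 4 * o.p4 * h ^ 4
def S (h : ℝ) : ℝ := o.r0 + o.r1 * h + o.r2 * h ^ 2 + o.q3 * h ^ 3 + 3 * o.p4 * h ^ 4
def C3 (v : ℝ) : ℝ := o.q0 + (o.p1 + o.q1) * v + (2 * o.p2 + o.q2) * v ^ 2 +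
  (4 * o.p3 + o.q3) * v ^ 3 + 8 * o.p4 * v ^ 4
def C2 (v : ℝ) : ℝ := -3 * o.p0 - o.q0 + o.r0 + (o.r1 - o.p1) * v + (o.q2 + o.r2) * v ^ 2 +
  (2 * o.p3 + 3 * o.q3) * v ^ 3 + 14 * o.p4 * v ^ 4
def C1 (v : ℝ) : ℝ := -2 * (o.p0 + o.q0 + o.r0) - (o.p1 + o.q1 + o.r1) * v -
  (2 * o.p2 + o.q2) * v ^ 2 - (4 * o.p3 + o.q3) * v ^ 3 - 8 * o.p4 * v ^ 4
def C0 (v : ℝ) : ℝ := -(o.p2 + o.q2 + o.r2) * v ^ 2 - 3 * (o.p3 + o.q3) * v ^ 3 - 15 * o.p4 * v ^ 4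

/-- the function whose sign is studied -/
noncomputable def K (D F t : ℝ) : ℝ :=
  o.P (vR D F t) * TR D F 4 t + o.C3 (vR D F t) * TR D F 3 t + o.C2 (vR D F t) * TR D F 2 t +
    o.C1 (vR D F t) * TR D F 1 t + o.C0 (vR D F t) * uR F t +
    (4 * o.p0 + 2 * o.q0 + o.r0) * gR D F t

end Gp

theorem av_add (H : Rng D F R) {r x y : ℝ} (hr : r ∈ Ioo 0 R) (a : AnJ D f ∧ Av D F f r = x)
    (c : ℝ) (b : AnJ D h) (e : Av D F h r = y) :
    AnJ D (fun t ↦ f t + c * h t) ∧ Av D F (fun t ↦ f t + c * h t) r = x + c * y := by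
  have h1 : |r| < R := by rw [abs_of_pos hr.1]; exact hr.2
  have := H.lin h1 a.1 b 1 c
  simp only [one_mul] at this
  exact ⟨a.1.add ((AnJ.const c).mul b), by rw [this, a.2, e]⟩

/-- the representation of the image of `Jf phi4` under the operator as an average -/
theorem Gp.repr (o : Gp) (H : Rng D F R) : ∃ J1 J2 Ψ : ℝ → ℝ, AnJ D Ψ ∧
    (∀ t ∈ JR D, gR D F t ^ 3 * Ψ t = o.K D F t) ∧ ∀ r ∈ Ioo 0 R,
      HasDerivAt (Jf D F (phi4 D F)) (J1 r / r) r ∧ HasDerivAt J1 (J2 r / r) r ∧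
      r ^ 4 * Av D F Ψ r = o.P (r ^ 2) * J2 r + o.Q (r ^ 2) * J1 r +
        o.S (r ^ 2) * Jf D F (phi4 D F) r := by
  obtain ⟨f0, a0, e0⟩ := exists_f0 (D := D) (F := F)
  have ab : ∀ r ∈ Ioo 0 R, |r| < R := fun r hr ↦ by rw [abs_of_pos hr.1]; exact hr.2
  have T0 := TR_ht (D := D) (F := F) 0
  have T1 := TR_ht (D := D) (F := F) 1
  have T2 := TR_ht (D := D) (F := F) 2
  have T3 := TR_ht (D := D) (F := F) 3
  have aU : AnJ D (Dg D F (uR F)) := AnJ.u.dg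
  have hp : HT D F (phi4 D F) fun t ↦ TR D F 3 t - TR D F 1 t := T2.sub T0
  -- the five functions
  have A0 := (a0.dg (F := F)).ht (F := F)
  have A0' := A0.an'.ht (F := F)
  have A1 := (aU.th (F := F)).ht (F := F)
  have A1' := A1.an'.ht (F := F)
  have A2 := ((AnJ.g (F := F)).mul hp.an).ht (F := F)
  have A2' := A2.an'.ht (F := F)
  have aL := hp.an.lop (F := F) 0 0 (-1)
  have A3 := ((AnJ.g (F := F)).mul aL).ht (F := F)
  have A4 := (AnJ.g (F := F)).mul (aL.lop (F := F) 0 0 (-1))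
  -- pointwise
  have u1 : ∀ t ∈ JR D, th D F (Dg D F (uR F)) t = gR D F t * f0 t + gR D F t * th D F f0 t :=
    fun t ht ↦ by
      rw [aU.ht.uniq ((HT.const 1).add (HT.g.mul a0.ht)) e0 t ht]; ring
  have u2 : ∀ t ∈ JR D, TR D F 2 t = TR D F 1 t + gR D F t * th D F (Dg D F (uR F)) t :=
    T1.uniq (HT.g.mul aU.ht) fun _ _ ↦ rfl
  have b0 : ∀ t ∈ JR D, gR D F t ^ 3 * Dg D F f0 t = TR D F 2 t - 2 * TR D F 1 t + gR D F t :=
    fun t ht ↦ by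
      have : TR D F 1 t = gR D F t * Dg D F (uR F) t := rfl
      rw [u2 t ht, u1 t ht, this, e0 t ht, th]; ring
  have k0 := (T2.sub (T1.smul 2)).add HT.g
  have b0' := A0.cube k0 b0
  have b0'' := A0'.cube (((T3.sub (T2.smul 2)).add HT.g).sub (k0.smul 3)) b0'
  have b1 : ∀ t ∈ JR D, gR D F t ^ 3 * th D F (Dg D F (uR F)) t =
      vR D F t * (TR D F 2 t - TR D F 1 t) := fun t ht ↦ by rw [u2 t ht, ← gR_sq ht]; ring
  have k1 := HT.v.mul (T2.sub T1)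
  have b1' := A1.cube k1 b1
  have b1'' := A1'.cube ((((HT.v.smul 2).mul (T2.sub T1)).add (HT.v.mul (T3.sub T2))).sub
    (k1.smul 3)) b1'
  have vv := (HT.v (D := D) (F := F)).mul HT.v
  have b2 : ∀ t ∈ JR D, gR D F t ^ 3 * (gR D F t * phi4 D F t) =
      vR D F t * vR D F t * (TR D F 2 t - TR D F 0 t) := fun t ht ↦ by
    rw [← gR_sq ht]; simp only [phi4, TR]; ring
  have k2 := vv.mul (T2.sub T0)
  have b2' := A2.cube k2 b2
  have b2'' := A2'.cube ((((((HT.v.smul 2).mul HT.v).add (HT.v.mul (HT.v.smul 2))).mul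
    (T2.sub T0)).add (vv.mul (T3.sub T1))).sub (k2.smul 3)) b2'
  have l1 : ∀ t ∈ JR D, Lop D F 0 0 (-1) (phi4 D F) t =
      vR D F t * (TR D F 3 t - TR D F 1 t + 3 * (TR D F 2 t - TR D F 0 t)) := fun t ht ↦ by
    rw [Lop, hp.eq t ht]; simp only [phi4, TR]; ring
  have k3 := HT.v.mul ((T3.sub T1).add ((T2.sub T0).smul 3))
  have b3 : ∀ t ∈ JR D, gR D F t ^ 3 * (gR D F t * Lop D F 0 0 (-1) (phi4 D F) t) =
      vR D F t * vR D F t * (vR D F t *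
        (TR D F 3 t - TR D F 1 t + 3 * (TR D F 2 t - TR D F 0 t))) := fun t ht ↦ by
    rw [l1 t ht, ← gR_sq ht]; ring
  have b3' := A3.cube (vv.mul k3) b3
  have l2 := aL.ht.uniq k3 l1
  -- averages
  have s1 : ∀ r ∈ Ioo 0 R, Av D F (th D F (Dg D F (uR F))) r = r ^ 2 * Av D F (Dg D F f0) r :=
    fun r hr ↦ by
      rw [H.parts a0 (ab r hr)]; exact H.congr (ab r hr) fun t ht ↦ by rw [u1 t ht]; ring
  have s1' := shift2 (fun r hr ↦ A1.av H hr) (fun r hr ↦ A0.av H hr) s1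
  have s1'' := shift2 (fun r hr ↦ A1'.av H hr)
    (dadd 2 (fun r hr ↦ A0'.av H hr) fun r hr ↦ A0.av H hr) s1'
  have s2 : ∀ r ∈ Ioo 0 R, Av D F (fun t ↦ gR D F t * phi4 D F t) r =
      r ^ 2 * Av D F (th D F (Dg D F (uR F))) r := fun r hr ↦ by
    have := (H.t_deriv (ab r hr) hr.1.ne').unique (aU.ht.av H hr)
    have h0 := hr.1.ne'
    rw [Jf] at this
    field_simp at this
    linear_combination this
  have s2' := shift2 (fun r hr ↦ A2.av H hr) (fun r hr ↦ A1.av H hr) s2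
  have s2'' := shift2 (fun r hr ↦ A2'.av H hr)
    (dadd 2 (fun r hr ↦ A1'.av H hr) fun r hr ↦ A1.av H hr) s2'
  have jl : ∀ {f}, AnJ D f → ∀ r ∈ Ioo 0 R, Av D F (fun t ↦ gR D F t * Lop D F 0 0 (-1) f t) r =
      r ^ 2 * (Av D F (th D F fun t ↦ gR D F t * f t) r + 1 * Av D F (fun t ↦ gR D F t * f t) r) :=
    fun {f} hf r hr ↦ by
      have := H.j_lop hf (ab r hr) 0 0 (-1)
      rw [H.congr (ab r hr) (f := th D F fun t ↦ gR D F t * f t)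
        (h := fun t ↦ gR D F t * (th D F f t + f t))
        fun t ht ↦ by rw [(HT.g.mul hf.ht).eq t ht]; ring]
      simp only [Jf] at this
      linear_combination this
  have s3 := jl hp.an
  have s3' := shift2 (fun r hr ↦ A3.av H hr)
    (dadd 1 (fun r hr ↦ A2'.av H hr) fun r hr ↦ A2.av H hr) s3
  have s4 := jl aL
  have key := fun r (hr : r ∈ Ioo 0 R) ↦
    av_add H hr (av_add H hr (av_add H hr (av_add H hr (av_add H hr (av_add H hr (av_add H hr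
      (av_add H hr (av_add H hr (av_add H hr (av_add H hr (av_add H hr
      (f := fun _ ↦ 0) (x := 0) ⟨AnJ.const 0, by simp [Av]⟩ o.p0 A0'.an' rfl) (8 * o.p0 + o.q0) A0'.an rfl)
      (16 * o.p0 + 4 * o.q0 + o.r0) A0.an rfl) o.p1 A1'.an' rfl) (4 * o.p1 + o.q1) A1'.an rfl)
      (4 * o.p1 + 2 * o.q1 + o.r1) A1.an rfl) o.p2 A2'.an' rfl) o.q2 A2'.an rfl) o.r2 A2.an rfl)
      o.p3 A3.an' rfl) (o.q3 - 2 * o.p3) A3.an rfl) o.p4 A4 rfl
  have an := (((((((((((((AnJ.const (D := D) 0).add ((AnJ.const o.p0).mul A0'.an')).add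
    ((AnJ.const (8 * o.p0 + o.q0)).mul A0'.an)).add
    ((AnJ.const (16 * o.p0 + 4 * o.q0 + o.r0)).mul A0.an)).add ((AnJ.const o.p1).mul A1'.an')).add
    ((AnJ.const (4 * o.p1 + o.q1)).mul A1'.an)).add
    ((AnJ.const (4 * o.p1 + 2 * o.q1 + o.r1)).mul A1.an)).add ((AnJ.const o.p2).mul A2'.an')).add
    ((AnJ.const o.q2).mul A2'.an)).add ((AnJ.const o.r2).mul A2.an)).add
    ((AnJ.const o.p3).mul A3.an')).add ((AnJ.const (o.q3 - 2 * o.p3)).mul A3.an)).add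
    ((AnJ.const o.p4).mul A4))
  refine ⟨_, _, _, an, fun t ht ↦ ?_, fun r hr ↦ ⟨A2.av H hr, A2'.av H hr, ?_⟩⟩
  · have h4 : gR D F t ^ 3 * gR D F t = vR D F t ^ 2 := by rw [← gR_sq ht]; ring
    have l3 : Lop D F 0 0 (-1) (Lop D F 0 0 (-1) (phi4 D F)) t = vR D F t *
        (th D F (Lop D F 0 0 (-1) (phi4 D F)) t + 3 * Lop D F 0 0 (-1) (phi4 D F) t) := by
      rw [Lop]; ring
    rw [l2 t ht, l1 t ht] at l3
    simp only [Gp.K, Gp.P, Gp.C3, Gp.C2, Gp.C1, Gp.C0]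
    have : uR F t = TR D F 0 t := rfl
    rw [this, l3]
    linear_combination o.p0 * b0'' t ht + (8 * o.p0 + o.q0) * b0' t ht +
      (16 * o.p0 + 4 * o.q0 + o.r0) * b0 t ht + o.p1 * b1'' t ht + (4 * o.p1 + o.q1) * b1' t ht +
      (4 * o.p1 + 2 * o.q1 + o.r1) * b1 t ht + o.p2 * b2'' t ht + o.q2 * b2' t ht +
      o.r2 * b2 t ht + o.p3 * b3' t ht + (o.q3 - 2 * o.p3) * b3 t ht +
      o.p4 * (vR D F t ^ 2 * (TR D F 4 t + 8 * TR D F 3 t + 14 * TR D F 2 t - 8 * TR D F 1 t -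
        15 * TR D F 0 t)) * h4
  · rw [(key r hr).2, s4 r hr, s3' r hr, s3 r hr]
    simp only [Gp.P, Gp.Q, Gp.S, Jf]
    rw [s2'' r hr, s2' r hr, s2 r hr, s1'' r hr, s1' r hr, s1 r hr]
    ring

/-- the sign of the image of `Jf phi4` -/
theorem Gp.sign (o : Gp) (H : Rng D F R) {σ c : ℝ} (hc : c < R)
    (hs : ∀ ρ ∈ Ioc 0 c, σ * o.K D F (XR D F (-ρ)) < σ * o.K D F (XR D F ρ)) :
    ∃ J1 J2 : ℝ → ℝ, ∀ r ∈ Ioc 0 c,
      HasDerivAt (Jf D F (phi4 D F)) (J1 r / r) r ∧ HasDerivAt J1 (J2 r / r) r ∧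
      0 < σ * (o.P (r ^ 2) * J2 r + o.Q (r ^ 2) * J1 r + o.S (r ^ 2) * Jf D F (phi4 D F) r) := by
  obtain ⟨J1, J2, Ψ, an, e, h⟩ := o.repr H
  refine ⟨J1, J2, fun r hr ↦ ?_⟩
  have hr' : r ∈ Ioo 0 R := ⟨hr.1, hr.2.trans_lt hc⟩
  obtain ⟨h1, h2, h3⟩ := h r hr'
  refine ⟨h1, h2, ?_⟩
  have h4 := H.av_pos ((AnJ.const σ).mul an) hr' fun ρ hρ ↦ by
    obtain ⟨m1, m2, -, -, -, e1, e2, -⟩ := H.pair hρ.1 (hρ.2.trans_lt hr'.2)
    have := hs ρ ⟨hρ.1, hρ.2.trans hr.2⟩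
    rw [← e _ m1, ← e _ m2, e1, e2] at this
    refine (mul_pos_iff_of_pos_left (pow_pos hρ.1 3)).1 ?_
    linarith
  rw [← h3, mul_left_comm]
  refine mul_pos (pow_pos hr.1 4) ?_
  rwa [Av, integral_const_mul] at h4

variable (D F) in
/-- the criterion of order two -/
def CritG : Prop := ∃ (o : Gp) (σ : ℝ) (B B' : ℝ → ℝ),
  ∀ a ∈ JR D, ∀ b ∈ JR D, a < 0 → 0 < b → vR D F a = vR D F b →
    HasDerivAt B (B' (vR D F b)) (vR D F b) ∧ 0 < o.P (vR D F b) ∧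
      o.P (vR D F b) * (B (vR D F b) ^ 2 + 2 * vR D F b * B' (vR D F b)) +
        o.Q (vR D F b) * B (vR D F b) + o.S (vR D F b) ≤ 0 ∧ σ * o.K D F a < σ * o.K D F b

theorem CritG.noThree (C : CritG D F) : NoThree D F := by
  obtain ⟨o, σ, B, B', C⟩ := C
  intro _ _ t _ _ _ _ R hc H a b h0 hab hbc za zb zc
  generalize gR D F t = c at *
  have C' : ∀ ρ ∈ Ioc 0 c, HasDerivAt B (B' (ρ ^ 2)) (ρ ^ 2) ∧
      0 < o.P (ρ ^ 2) ∧ o.P (ρ ^ 2) * (B (ρ ^ 2) ^ 2 + 2 * ρ ^ 2 * B' (ρ ^ 2)) +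
        o.Q (ρ ^ 2) * B (ρ ^ 2) + o.S (ρ ^ 2) ≤ 0 ∧
      σ * o.K D F (XR D F (-ρ)) < σ * o.K D F (XR D F ρ) := fun ρ hρ ↦ by
    obtain ⟨m1, m2, m3, m4, m5, -, -, m6⟩ := H.pair hρ.1 (hρ.2.trans_lt hc)
    exact m6 ▸ C _ m1 _ m2 m3 m4 m5
  obtain ⟨J1, J2, h⟩ := o.sign H hc fun ρ hρ ↦ (C' ρ hρ).2.2.2
  have m : ∀ r ∈ Icc a c, r ∈ Ioc 0 c := fun r hr ↦ ⟨h0.trans_le hr.1, hr.2⟩
  have dB : ∀ r ∈ Icc a c, HasDerivAt (fun r ↦ B (r ^ 2)) (B' (r ^ 2) * (2 * r)) r := fun r hr ↦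
    (HasDerivAt.comp (h₂ := B) (h := fun r ↦ r ^ 2) r (C' r (m r hr)).1
      (hasDerivAt_pow 2 r)).congr_deriv (by simp)
  refine no_three (J := fun r ↦ σ * Jf D F (phi4 D F) r)
    (K := fun r ↦ σ * (J1 r - B (r ^ 2) * Jf D F (phi4 D F) r)) (A := fun r ↦ 1 / r)
    (β := fun r ↦ -B (r ^ 2) / r) hab hbc (fun r hr ↦ (h r (m r hr)).1.const_mul σ)
    (fun r hr ↦ ((h r (m r hr)).2.1.sub ((dB r hr).mul (h r (m r hr)).1)).const_mul σ)
    (fun r hr ↦ one_div_pos.2 (m r hr).1)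
    (ContinuousOn.div (fun r hr ↦ (dB r hr).continuousAt.neg.continuousWithinAt) (by fun_prop)
      fun r hr ↦ (m r hr).1.ne') (fun r hr ↦ by ring) (fun r hr h1 h2 ↦ ?_)
    (by simp [za]) (by simp [zb]) (by simp [zc])
  obtain ⟨-, p1, p2, -⟩ := C' r (m r hr)
  have p3 := (h r (m r hr)).2.2
  have r0 := (m r hr).1
  refine (mul_pos_iff_of_pos_left (mul_pos r0 p1)).1 ?_
  have p4 := mul_nonneg h2 (neg_nonneg.2 p2)
  have : r * o.P (r ^ 2) * (σ * (J2 r / r - (B' (r ^ 2) * (2 * r) * Jf D F (phi4 D F) r +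
      B (r ^ 2) * (J1 r / r)))) = o.P (r ^ 2) * (σ * (J2 r - (B' (r ^ 2) * (2 * r ^ 2) *
      Jf D F (phi4 D F) r + B (r ^ 2) * J1 r))) := by field_simp
  rw [this]
  have h5 := congrArg ((o.Q (r ^ 2) + o.P (r ^ 2) * B (r ^ 2)) * ·) h1
  beta_reduce at h5
  linarith

variable (D F) in
/-- the criterion of order one -/
def Crit1 : Prop := ∃ (o : Gp) (σ : ℝ), (∀ h, o.P h = 0) ∧
  ∀ a ∈ JR D, ∀ b ∈ JR D, a < 0 → 0 < b → vR D F a = vR D F b →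
    0 ≤ o.Q (vR D F b) ∧ σ * o.K D F a < σ * o.K D F b

theorem up_of_deriv {J : ℝ → ℝ} {a J' : ℝ} (h : HasDerivAt J J' a) (h0 : J a = 0) (hp : 0 < J') :
    (∀ᶠ r in 𝓝[>] a, 0 < J r) ∧ ∀ᶠ r in 𝓝[<] a, J r < 0 := by
  have := (hasDerivAt_iff_tendsto_slope.1 h).eventually (lt_mem_nhds hp)
  constructor
  · filter_upwards [nhdsWithin_mono a (fun r (hr : a < r) ↦ hr.ne') this, self_mem_nhdsWithin]
      with r hr hr'
    rw [slope_def_field, h0, sub_zero] at hr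
    exact (div_pos_iff_of_pos_right (sub_pos.2 hr')).1 hr
  · filter_upwards [nhdsWithin_mono a (fun r (hr : r < a) ↦ hr.ne) this, self_mem_nhdsWithin]
      with r hr hr'
    rw [slope_def_field, h0, sub_zero] at hr
    exact (div_pos_iff.1 hr).elim (fun h ↦ (h.2.not_gt (sub_neg.2 hr')).elim) fun h ↦ h.1

/-- a function which crosses zero only upwards has at most one zero -/
theorem no_two {J J' : ℝ → ℝ} {a b : ℝ} (hab : a < b) (hJ : ∀ r ∈ Icc a b, HasDerivAt J (J' r) r)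
    (hs : ∀ r ∈ Icc a b, J r = 0 → 0 < J' r) (ha : J a = 0) (hb : J b = 0) : False := by
  have c : ContinuousOn J (Icc a b) := fun r hr ↦ (hJ r hr).continuousAt.continuousWithinAt
  have am : a ∈ Icc a b := ⟨le_rfl, hab.le⟩
  obtain ⟨e, e1, e2⟩ := (mem_nhdsGT_iff_exists_Ioo_subset).1 (up_of_deriv (hJ a am) ha (hs a am ha)).1
  have e1 : a < e := e1
  have hm : a < min e b := lt_min e1 hab
  obtain ⟨x, x1, x2⟩ := exists_between hm
  have xb : x ≤ b := x2.le.trans (min_le_right _ _)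
  have sub : Icc x b ⊆ Icc a b := Icc_subset_Icc_left x1.le
  obtain ⟨z, ⟨z1, z2⟩, z3⟩ := ((isCompact_Icc (a := x) (b := b)).of_isClosed_subset
    ((c.mono sub).preimage_isClosed_of_isClosed isClosed_Icc (isClosed_singleton (x := (0 : ℝ))))
    inter_subset_left).exists_isLeast ⟨b, ⟨xb, le_rfl⟩, hb⟩
  have px : 0 < J x := e2 ⟨x1, x2.trans_le (min_le_left _ _)⟩
  have xz : x < z := z1.1.lt_of_ne (by rintro rfl; exact px.ne' z2)
  obtain ⟨y, y1, y2⟩ := (((up_of_deriv (hJ z (sub z1)) z2 (hs z (sub z1) z2)).2).and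
    (Ioo_mem_nhdsLT xz : ∀ᶠ r in 𝓝[<] z, r ∈ Ioo x z)).exists
  have sy : Icc x y ⊆ Icc x b := Icc_subset_Icc_right (y2.2.le.trans z1.2)
  obtain ⟨w, w1, w2⟩ := intermediate_value_Icc' y2.1.le (c.mono (sy.trans sub)) ⟨y1.le, px.le⟩
  exact (z3 ⟨sy w1, w2⟩).not_gt (w1.2.trans_lt y2.2)

theorem Crit1.noThree (C : Crit1 D F) : NoThree D F := by
  obtain ⟨o, σ, hP, C⟩ := C
  intro _ _ t _ _ _ _ R hc H a b h0 hab hbc za zb _
  generalize gR D F t = c at *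
  have C' : ∀ ρ ∈ Ioc 0 c, 0 ≤ o.Q (ρ ^ 2) ∧
      σ * o.K D F (XR D F (-ρ)) < σ * o.K D F (XR D F ρ) := fun ρ hρ ↦ by
    obtain ⟨m1, m2, m3, m4, m5, -, -, m6⟩ := H.pair hρ.1 (hρ.2.trans_lt hc)
    exact m6 ▸ C _ m1 _ m2 m3 m4 m5
  obtain ⟨J1, J2, h⟩ := o.sign H hc fun ρ hρ ↦ (C' ρ hρ).2
  have m : ∀ r ∈ Icc a b, r ∈ Ioc 0 c := fun r hr ↦ ⟨h0.trans_le hr.1, hr.2.trans hbc.le⟩
  refine no_two (J := fun r ↦ σ * Jf D F (phi4 D F) r) hab
    (fun r hr ↦ (h r (m r hr)).1.const_mul σ) (fun r hr h1 ↦ ?_) (by simp [za]) (by simp [zb])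
  have p3 := (h r (m r hr)).2.2
  have p1 := (C' r (m r hr)).1
  rw [hP] at p3
  rw [← mul_div_assoc]
  refine div_pos (pos_of_mul_pos_right ?_ p1) (m r hr).1
  have h5 := congrArg (o.S (r ^ 2) * ·) h1
  beta_reduce at h5
  linarith

section explicit

variable (ht : t ∈ JR D) (h0 : t ≠ 0)
include ht h0

theorem TR1 : TR D F 1 t = 2 * U1 D F t := th_eq ht h0 (du' ht h0)

theorem TR2 : TR D F 2 t = 4 * (U2 D F t + U1 D F t) := by
  rw [TR, th_eq ht h0 (c := 2 * (U2 D F t + U1 D F t))]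
  · ring
  · refine (((dU1 ht h0).const_mul 2).congr_of_eventuallyEq ?_).congr_deriv (by ring)
    filter_upwards [ev_mem ht h0] with s hs using TR1 hs.1 hs.2

theorem TR3 : TR D F 3 t = 8 * (U3 D F t + 3 * U2 D F t + U1 D F t) := by
  rw [TR, th_eq ht h0 (c := 4 * (U3 D F t + 3 * U2 D F t + U1 D F t))]
  · ring
  · refine ((((dU2 ht h0).add (dU1 ht h0)).const_mul 4).congr_of_eventuallyEq ?_).congr_deriv
      (by ring)
    filter_upwards [ev_mem ht h0] with s hs using TR2 hs.1 hs.2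

theorem TR4 : TR D F 4 t = 16 * (U4 D F t + 6 * U3 D F t + 7 * U2 D F t + U1 D F t) := by
  rw [TR, th_eq ht h0 (c := 8 * (U4 D F t + 6 * U3 D F t + 7 * U2 D F t + U1 D F t))]
  · ring
  · refine (((((dU3 ht h0).add ((dU2 ht h0).const_mul 3)).add (dU1 ht h0)).const_mul
      8).congr_of_eventuallyEq ?_).congr_deriv (by ring)
    filter_upwards [ev_mem ht h0] with s hs using TR3 hs.1 hs.2

/-- the closed form -/
theorem Gp.K_eq (o : Gp) : o.K D F t =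
    16 * o.P (vR D F t) * U4 D F t + (96 * o.P (vR D F t) + 8 * o.C3 (vR D F t)) * U3 D F t +
      (112 * o.P (vR D F t) + 24 * o.C3 (vR D F t) + 4 * o.C2 (vR D F t)) * U2 D F t +
      (16 * o.P (vR D F t) + 8 * o.C3 (vR D F t) + 4 * o.C2 (vR D F t) + 2 * o.C1 (vR D F t)) *
        U1 D F t + o.C0 (vR D F t) * uR F t + (4 * o.p0 + 2 * o.q0 + o.r0) * gR D F t := by
  rw [Gp.K, TR1 ht h0, TR2 ht h0, TR3 ht h0, TR4 ht h0]; ring

end explicit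

end Pool.Agent.Lib.MP_d6150d_an
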