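import Pool.Agent.Lib.MP_d6150d_an.Loc

/-! The localised criteria for an abstract sign condition; null functions with two branches. -/

namespace Pool.Agent.Lib.MP_d6150d_an

open Real Set Filter Topology intervalIntegral

variable {D F R : ℝ} {I : Set ℝ}

variable (D F) in
/-- the Euler derivative of `Jf phi4` -/
noncomputable def JJ1 (r : ℝ) : ℝ := r * deriv (Jf D F (phi4 D F)) r

variable (D F) in
/-- the second Euler derivative of `Jf phi4` -/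
noncomputable def JJ2 (r : ℝ) : ℝ := r * deriv (JJ1 D F) r

variable (D F) in
/-- the image of `Jf phi4` under the operator -/
noncomputable def Gp.M (o : Gp) (r : ℝ) : ℝ :=
  o.P (r ^ 2) * JJ2 D F r + o.Q (r ^ 2) * JJ1 D F r + o.S (r ^ 2) * Jf D F (phi4 D F) r

theorem Gp.repr' (o : Gp) (H : Rng D F R) : ∃ Ψ : ℝ → ℝ, AnJ D Ψ ∧
    (∀ t ∈ JR D, gR D F t ^ 3 * Ψ t = o.K D F t) ∧ ∀ r ∈ Ioo 0 R,
      HasDerivAt (Jf D F (phi4 D F)) (JJ1 D F r / r) r ∧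
      HasDerivAt (JJ1 D F) (JJ2 D F r / r) r ∧ r ^ 4 * Av D F Ψ r = o.M D F r := by
  obtain ⟨J1, J2, Ψ, an, e, h⟩ := o.repr H
  have e1 : ∀ r ∈ Ioo 0 R, JJ1 D F r = J1 r := fun r hr ↦ by
    rw [JJ1, (h r hr).1.deriv, mul_div_cancel₀ _ hr.1.ne']
  have d1 : ∀ r ∈ Ioo 0 R, HasDerivAt (JJ1 D F) (J2 r / r) r := fun r hr ↦
    (h r hr).2.1.congr_of_eventuallyEq (by
      filter_upwards [isOpen_Ioo.mem_nhds hr] with s hs using e1 s hs)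
  have e2 : ∀ r ∈ Ioo 0 R, JJ2 D F r = J2 r := fun r hr ↦ by
    rw [JJ2, (d1 r hr).deriv, mul_div_cancel₀ _ hr.1.ne']
  refine ⟨Ψ, an, e, fun r hr ↦ ?_⟩
  rw [Gp.M, e1 r hr, e2 r hr]
  exact ⟨(h r hr).1, d1 r hr, (h r hr).2.2⟩

variable (D F) in
/-- the sign of the image at the level `h` -/
def Gp.Ps (o : Gp) (σ h : ℝ) : Prop :=
  ∀ R, Rng D F R → ∀ r ∈ Ioo 0 R, r ^ 2 = h → 0 < σ * o.M D F r

theorem circ_quarter {φ : ℝ → ℝ} {r : ℝ} (h0 : 0 ≤ r) (c : ContinuousOn φ (Icc (-r) r)) :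
    ∫ θ in (0 : ℝ)..2 * π, φ (r * cos θ) =
      2 * ∫ θ in (0 : ℝ)..π / 2, φ (-(r * cos θ)) + φ (r * cos θ) := by
  have m : ∀ θ, r * cos θ ∈ Icc (-r) r := fun θ ↦
    ⟨by nlinarith [neg_one_le_cos θ], by nlinarith [cos_le_one θ]⟩
  have c1 : Continuous fun θ ↦ φ (r * cos θ) := c.comp_continuous (by fun_prop) m
  have c2 : Continuous fun θ ↦ φ (-(r * cos θ)) := c.comp_continuous (by fun_prop) fun θ ↦
    ⟨by linarith [(m θ).2], by linarith [(m θ).1]⟩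
  have e2 := integral_comp_add_right (a := 0) (b := π) (fun θ ↦ φ (r * cos θ)) π
  rw [zero_add, ← two_mul] at e2
  have c3 : Continuous fun θ ↦ φ (r * cos θ) + φ (-(r * cos θ)) := c1.add c2
  have e3 := integral_comp_sub_left (a := 0) (b := π / 2)
    (fun θ ↦ φ (r * cos θ) + φ (-(r * cos θ))) π
  rw [sub_zero, show π - π / 2 = π / 2 by ring] at e3
  rw [← integral_add_adjacent_intervals (b := π) (c1.intervalIntegrable _ _)
    (c1.intervalIntegrable _ _), ← e2]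
  simp only [cos_add_pi, mul_neg]
  rw [← integral_add (c1.intervalIntegrable _ _) (c2.intervalIntegrable _ _),
    ← integral_add_adjacent_intervals (b := π / 2) (c3.intervalIntegrable _ _)
    (c3.intervalIntegrable _ _), ← e3]
  simp only [cos_pi_sub, mul_neg, neg_neg, add_comm (φ (r * cos _))]
  ring

theorem quarter_null {φ φ' : ℝ → ℝ} {r : ℝ} (h0 : 0 ≤ r)
    (h : ∀ ρ ∈ Icc 0 r, HasDerivAt φ (φ' ρ) ρ) (c : ContinuousOn φ' (Icc 0 r)) :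
    ∫ θ in (0 : ℝ)..π / 2, (r ^ 2 - (r * cos θ) ^ 2) * φ' (r * cos θ) -
      r * cos θ * φ (r * cos θ) = -r * φ 0 := by
  have m : ∀ θ ∈ uIcc 0 (π / 2), r * cos θ ∈ Icc 0 r := fun θ hθ ↦ by
    rw [uIcc_of_le (by positivity)] at hθ
    exact ⟨mul_nonneg h0 (cos_nonneg_of_mem_Icc ⟨by linarith [hθ.1, pi_pos], hθ.2⟩),
      by nlinarith [cos_le_one θ]⟩
  have h1 : ∀ θ ∈ uIcc 0 (π / 2), HasDerivAt (fun θ ↦ -(r * sin θ) * φ (r * cos θ))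
      ((r ^ 2 - (r * cos θ) ^ 2) * φ' (r * cos θ) - r * cos θ * φ (r * cos θ)) θ := fun θ hθ ↦
    (((hasDerivAt_sin θ).const_mul r).neg.mul
      (HasDerivAt.comp (h₂ := φ) θ (h _ (m θ hθ)) ((hasDerivAt_cos θ).const_mul r))).congr_deriv (by
        simp only [Function.comp, Pi.neg_apply]
        linear_combination r ^ 2 * φ' (r * cos θ) * sin_sq_add_cos_sq θ)
  have c1 : ContinuousOn (fun θ ↦ φ (r * cos θ)) (uIcc 0 (π / 2)) := ContinuousOn.comp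
    (fun ρ hρ ↦ (h ρ hρ).continuousAt.continuousWithinAt) (by fun_prop) m
  have c2 : ContinuousOn (fun θ ↦ φ' (r * cos θ)) (uIcc 0 (π / 2)) := c.comp (by fun_prop) m
  rw [integral_eq_sub_of_hasDerivAt h1
    (((ContinuousOn.mul (by fun_prop) c2).sub (ContinuousOn.mul (by fun_prop) c1)).intervalIntegrable)]
  simp

variable (D F) in
/-- the sign condition with a null function given on each branch -/
def Gp.Sg2 (o : Gp) (σ h : ℝ) : Prop := ∃ f1 f2 : ℝ → ℝ, f1 0 = f2 0 ∧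
  (∀ t ∈ JR D, t ≤ 0 → vR D F t ≤ h → AnalyticAt ℝ f1 t) ∧
  (∀ t ∈ JR D, 0 ≤ t → vR D F t ≤ h → AnalyticAt ℝ f2 t) ∧
  ∀ a ∈ JR D, ∀ b ∈ JR D, a < 0 → 0 < b → vR D F a = vR D F b → vR D F b < h →
    σ * o.KN D F f1 h a < σ * o.KN D F f2 h b

theorem Gp.Sg.sg2 {o : Gp} {σ h : ℝ} (s : o.Sg D F σ h) : o.Sg2 D F σ h :=
  s.elim fun f k ↦ ⟨f, f, rfl, fun t ht _ ↦ k.1 t ht, fun t ht _ ↦ k.1 t ht, k.2⟩

theorem Gp.Sg2.ps {o : Gp} {σ h : ℝ} (s : o.Sg2 D F σ h) : o.Ps D F σ h := by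
  rintro R H r hr rfl
  obtain ⟨f1, f2, f0, a1, a2, hs⟩ := s
  obtain ⟨Ψ, an, e, h⟩ := o.repr' H
  have ab : ∀ ρ ∈ Icc 0 r, |ρ| < R := fun ρ hρ ↦ by rw [abs_of_nonneg hρ.1]; exact hρ.2.trans_lt hr.2
  have ab' : ∀ ρ ∈ Icc 0 r, |-ρ| < R := fun ρ hρ ↦ by rw [abs_neg]; exact ab ρ hρ
  have g0 : gR D F 0 = 0 := by simp [gR]
  have X0 : XR D F 0 = 0 := by simpa [g0] using XR_g (F := F) (zero_mem_JR D)
  have b1 : ∀ ρ ∈ Icc 0 r, AnalyticAt ℝ f1 (XR D F (-ρ)) := fun ρ hρ ↦ a1 _ (H.mem (ab' ρ hρ))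
    (by rw [← gR_mono.le_iff_le (H.mem (ab' ρ hρ)) (zero_mem_JR D), H.eq (ab' ρ hρ), g0]
        linarith [hρ.1])
    (by rw [← gR_sq (H.mem (ab' ρ hρ)), H.eq (ab' ρ hρ), neg_sq]; exact pow_le_pow_left₀ hρ.1 hρ.2 2)
  have b2 : ∀ ρ ∈ Icc 0 r, AnalyticAt ℝ f2 (XR D F ρ) := fun ρ hρ ↦ a2 _ (H.mem (ab ρ hρ))
    (by rw [← gR_mono.le_iff_le (zero_mem_JR D) (H.mem (ab ρ hρ)), H.eq (ab ρ hρ), g0]; exact hρ.1)
    (by rw [← gR_sq (H.mem (ab ρ hρ)), H.eq (ab ρ hρ)]; exact pow_le_pow_left₀ hρ.1 hρ.2 2)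
  have dX : ∀ {k : ℝ → ℝ} {ρ : ℝ}, |ρ| < R → AnalyticAt ℝ k (XR D F ρ) →
      HasDerivAt (fun ρ ↦ k (XR D F ρ)) (Dg D F k (XR D F ρ)) ρ := fun {k ρ} hρ hk ↦
    hk.differentiableAt.hasDerivAt.comp ρ (HasDerivAt.of_local_left_inverse (H.cont hρ)
      (gR_an (F := F) (H.mem hρ)).differentiableAt.hasDerivAt (gR_deriv_pos (H.mem hρ)).ne'
      (by filter_upwards [abs_nhds hρ] with x hx using H.eq hx))
  have dg : ∀ {k : ℝ → ℝ} {ρ : ℝ}, |ρ| < R → AnalyticAt ℝ k (XR D F ρ) →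
      ContinuousAt (fun ρ ↦ Dg D F k (XR D F ρ)) ρ := fun {k ρ} hρ hk ↦
    (dX (k := Dg D F k) hρ (hk.deriv.div (gR_an (H.mem hρ)).deriv
      (gR_deriv_pos (H.mem hρ)).ne')).continuousAt
  have d1 : ∀ ρ ∈ Icc 0 r, HasDerivAt (fun ρ ↦ f1 (XR D F (-ρ)))
      (-Dg D F f1 (XR D F (-ρ))) ρ := fun ρ hρ ↦
    (HasDerivAt.comp (h₂ := fun ρ ↦ f1 (XR D F ρ)) ρ (dX (ab' ρ hρ) (b1 ρ hρ))
      (hasDerivAt_neg ρ)).congr_deriv (by ring)
  have c1 : ContinuousOn (fun ρ ↦ -Dg D F f1 (XR D F (-ρ))) (Icc 0 r) := fun ρ hρ ↦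
    (ContinuousAt.comp (g := fun ρ ↦ Dg D F f1 (XR D F ρ)) (dg (ab' ρ hρ) (b1 ρ hρ))
      continuous_neg.continuousAt).neg.continuousWithinAt
  have c2 : ContinuousOn (fun ρ ↦ Dg D F f2 (XR D F ρ)) (Icc 0 r) := fun ρ hρ ↦
    (dg (ab ρ hρ) (b2 ρ hρ)).continuousWithinAt
  have n1 := quarter_null hr.1.le d1 c1
  have n2 := quarter_null hr.1.le (fun ρ hρ ↦ dX (ab ρ hρ) (b2 ρ hρ)) c2
  have c3 : ContinuousOn (fun ρ ↦ Ψ (XR D F ρ)) (Icc (-r) r) := fun ρ hρ ↦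
    (H.deriv an ((abs_le.2 hρ).trans_lt hr.2)).continuousAt.continuousWithinAt
  have m : ∀ θ ∈ uIcc 0 (π / 2), r * cos θ ∈ Icc 0 r := fun θ hθ ↦ by
    rw [uIcc_of_le (by positivity)] at hθ
    exact ⟨mul_nonneg hr.1.le (cos_nonneg_of_mem_Icc ⟨by linarith [hθ.1, pi_pos], hθ.2⟩),
      by nlinarith [cos_le_one θ, hr.1]⟩
  have i0 : IntervalIntegrable (fun θ ↦ Ψ (XR D F (-(r * cos θ))) + Ψ (XR D F (r * cos θ)))
      MeasureTheory.volume 0 (π / 2) := by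
    refine ContinuousOn.intervalIntegrable (ContinuousOn.add ?_ ?_)
    · exact c3.comp (f := fun θ ↦ -(r * cos θ)) (by fun_prop) fun θ hθ ↦
        ⟨by linarith [(m θ hθ).2], by linarith [(m θ hθ).1, hr.1]⟩
    · exact c3.comp (f := fun θ ↦ r * cos θ) (by fun_prop) fun θ hθ ↦
        ⟨by linarith [(m θ hθ).1, hr.1], (m θ hθ).2⟩
  have ii : ∀ {φ φ' : ℝ → ℝ}, (∀ ρ ∈ Icc 0 r, HasDerivAt φ (φ' ρ) ρ) → ContinuousOn φ' (Icc 0 r) →
      IntervalIntegrable (fun θ ↦ (r ^ 2 - (r * cos θ) ^ 2) * φ' (r * cos θ) -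
        r * cos θ * φ (r * cos θ)) MeasureTheory.volume 0 (π / 2) := fun {φ φ'} k1 k2 ↦
    ((ContinuousOn.mul (by fun_prop) (k2.comp (f := fun θ ↦ r * cos θ) (by fun_prop) m)).sub
      (ContinuousOn.mul (by fun_prop) (ContinuousOn.comp (g := φ) (f := fun θ ↦ r * cos θ)
        (fun ρ hρ ↦ (k1 ρ hρ).continuousAt.continuousWithinAt) (by fun_prop) m))).intervalIntegrable
  have i1 := ii d1 c1
  have i2 := ii (fun ρ hρ ↦ dX (ab ρ hρ) (b2 ρ hρ)) c2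
  have h4 := intervalIntegral_pos_of_pos_on (((i0.add i2).sub i1).const_mul σ) (fun θ hθ ↦ by
    have h1 : cos θ < 1 := cos_zero ▸ cos_lt_cos_of_nonneg_of_le_pi le_rfl
      (by linarith [hθ.2, pi_pos]) hθ.1
    have p1 := mul_pos hr.1 (cos_pos_of_mem_Ioo ⟨by linarith [hθ.1, pi_pos], hθ.2⟩)
    have p2 := mul_lt_of_lt_one_right hr.1 h1
    generalize r * cos θ = ρ at *
    obtain ⟨m1, m2, m3, m4, m5, e1, e2, e3⟩ := H.pair p1 (p2.trans hr.2)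
    have := hs _ m1 _ m2 m3 m4 m5 (by rw [e3]; exact pow_lt_pow_left₀ p2 p1.le two_ne_zero)
    simp only [Gp.KN, th] at this
    rw [← e _ m1, ← e _ m2, m5, e1, e2, e3] at this
    refine (mul_pos_iff_of_pos_left (pow_pos p1 3)).1 ?_
    linarith) (by positivity)
  rw [integral_const_mul, integral_sub (i0.add i2) i1, integral_add i0 i2, n1, n2, neg_zero, X0,
    f0, add_sub_cancel_right] at h4
  rw [← (h r hr).2.2, Av, circ_quarter hr.1.le c3]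
  have := mul_pos (pow_pos hr.1 4) h4
  linarith

theorem Gp.Sg.ps {o : Gp} {σ h : ℝ} (s : o.Sg D F σ h) : o.Ps D F σ h := s.sg2.ps

/-- order zero -/
theorem Gp.cnt0' (h : ∀ x ∈ I, Lev D F x → ∃ (o : Gp) (σ : ℝ), o.P x = 0 ∧ o.Q x = 0 ∧
    o.Ps D F σ x) : Cnt D F I 0 := by
  intro R H S hS
  refine Nat.le_zero.2 (Finset.card_eq_zero.2 (Finset.eq_empty_of_forall_notMem fun r hr ↦ ?_))
  obtain ⟨h1, h2, h3⟩ := hS r hr
  obtain ⟨o, σ, p, q, s⟩ := h _ h2 (H.lev h1)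
  have := s R H r h1 rfl
  simp [Gp.M, p, q, h3] at this

/-- order one; the operator may depend on the level -/
theorem Gp.cnt1' (σ : ℝ) (hI : I.OrdConnected)
    (h : ∀ x ∈ I, Lev D F x → ∃ o : Gp, o.P x = 0 ∧ 0 ≤ o.Q x ∧ o.Ps D F σ x) : Cnt D F I 1 := by
  intro R H S hS
  have key : ∀ a ∈ S, ∀ b ∈ S, ¬a < b := fun a ha b hb hab ↦ by
    obtain ⟨a1, a2, za⟩ := hS a ha
    obtain ⟨b1, b2, zb⟩ := hS b hb
    have m : ∀ r ∈ Icc a b, r ∈ Ioo 0 R := fun r hr ↦ ⟨a1.1.trans_le hr.1, hr.2.trans_lt b1.2⟩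
    obtain ⟨_, -, -, k⟩ := Gp.repr' ⟨0, 0, 0, 0, 0, 0, 0, 0, 0, 0, 0, 0⟩ H
    refine no_two (J := fun r ↦ σ * Jf D F (phi4 D F) r) hab
      (fun r hr ↦ (k r (m r hr)).1.const_mul σ) (fun r hr h1 ↦ ?_) (by simp [za]) (by simp [zb])
    obtain ⟨o, p, q, s⟩ := h _ (sq_mem hI a1.1 a2 b2 hr) (H.lev (m r hr))
    have p3 := s R H r (m r hr) rfl
    rw [Gp.M, p] at p3
    rw [← mul_div_assoc]
    refine div_pos (pos_of_mul_pos_right ?_ q) (m r hr).1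
    have h5 := congrArg (o.S (r ^ 2) * ·) h1
    beta_reduce at h5
    linarith
  exact Finset.card_le_one.2 fun a ha b hb ↦
    le_antisymm (not_lt.1 (key b hb a ha)) (not_lt.1 (key a ha b hb))

/-- order two; the operator may depend on the level -/
theorem Gp.cnt2' (σ : ℝ) (B B' : ℝ → ℝ) (hI : I.OrdConnected)
    (h : ∀ x ∈ I, Lev D F x → HasDerivAt B (B' x) x ∧ ∃ o : Gp, 0 ≤ o.P x ∧
      o.P x * (B x ^ 2 + 2 * x * B' x) + o.Q x * B x + o.S x ≤ 0 ∧ o.Ps D F σ x) :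
    Cnt D F I 2 := by
  intro R H S hS
  obtain ⟨_, -, -, k⟩ := Gp.repr' ⟨0, 0, 0, 0, 0, 0, 0, 0, 0, 0, 0, 0⟩ H
  have key : ∀ a ∈ S, ∀ b ∈ S, ∀ c ∈ S, a < b → b < c → False := fun a ha b hb c hc hab hbc ↦ by
    obtain ⟨a1, a2, za⟩ := hS a ha
    obtain ⟨c1, c2, zc⟩ := hS c hc
    have m : ∀ r ∈ Icc a c, r ∈ Ioo 0 R := fun r hr ↦ ⟨a1.1.trans_le hr.1, hr.2.trans_lt c1.2⟩
    have C' := fun r hr ↦ h _ (sq_mem hI a1.1 a2 c2 hr) (H.lev (m r hr))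
    have dB : ∀ r ∈ Icc a c, HasDerivAt (fun r ↦ B (r ^ 2)) (B' (r ^ 2) * (2 * r)) r := fun r hr ↦
      (HasDerivAt.comp (h₂ := B) (h := fun r ↦ r ^ 2) r (C' r hr).1
        (hasDerivAt_pow 2 r)).congr_deriv (by simp)
    refine no_three (J := fun r ↦ σ * Jf D F (phi4 D F) r)
      (K := fun r ↦ σ * (JJ1 D F r - B (r ^ 2) * Jf D F (phi4 D F) r)) (A := fun r ↦ 1 / r)
      (β := fun r ↦ -B (r ^ 2) / r) hab hbc (fun r hr ↦ (k r (m r hr)).1.const_mul σ)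
      (fun r hr ↦ ((k r (m r hr)).2.1.sub ((dB r hr).mul (k r (m r hr)).1)).const_mul σ)
      (fun r hr ↦ one_div_pos.2 (m r hr).1)
      (ContinuousOn.div (fun r hr ↦ (dB r hr).continuousAt.neg.continuousWithinAt) (by fun_prop)
        fun r hr ↦ (m r hr).1.ne') (fun r hr ↦ by ring) (fun r hr h1 h2 ↦ ?_)
      (by simp [za]) (by simp [(hS b hb).2.2]) (by simp [zc])
    obtain ⟨-, o, p1, p2, s⟩ := C' r hr
    have p3 := s R H r (m r hr) rfl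
    have r0 := (m r hr).1
    refine pos_of_mul_pos_right ?_ (mul_nonneg r0.le p1)
    have p4 := mul_nonneg h2 (neg_nonneg.2 p2)
    have : r * o.P (r ^ 2) * (σ * (JJ2 D F r / r - (B' (r ^ 2) * (2 * r) * Jf D F (phi4 D F) r +
        B (r ^ 2) * (JJ1 D F r / r)))) = o.P (r ^ 2) * (σ * (JJ2 D F r - (B' (r ^ 2) * (2 * r ^ 2) *
        Jf D F (phi4 D F) r + B (r ^ 2) * JJ1 D F r))) := by field_simp
    rw [this]
    have h5 := congrArg ((o.Q (r ^ 2) + o.P (r ^ 2) * B (r ^ 2)) * ·) h1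
    beta_reduce at h5
    rw [Gp.M] at p3
    linarith
  by_contra h
  obtain ⟨a, b, c, ha, hb, hc, h1, h2, h3⟩ := Finset.two_lt_card_iff.1 (not_le.1 h)
  rcases h1.lt_or_gt with h1 | h1 <;> rcases h2.lt_or_gt with h2 | h2 <;>
    rcases h3.lt_or_gt with h3 | h3
  exacts [key a ha b hb c hc h1 h3, key a ha c hc b hb h2 h3, key a ha b hb c hc h1 h3,
    key c hc a ha b hb h2 h1, key b hb a ha c hc h1 h2, key b hb a ha c hc h1 h2,
    key b hb c hc a ha h3 h2, key c hc b hb a ha h3 h1]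

end Pool.Agent.Lib.MP_d6150d_an
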