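/-! Taylor models packed into big integers: the executable part. -/

namespace Pool.Agent.Lib.MP_d6150d_an

/-- `∑ k < 2^d, f (lo + k) * 2^(224 k)` -/
def pkr (f : Nat → Nat) : Nat → Nat → Nat
  | 0, lo => f lo
  | d + 1, lo => pkr f d lo + (pkr f d (lo + 2 ^ d)) <<< (224 * 2 ^ d)

/-- is the index `k` admissible for the strides -/
def keep : List Nat → Nat → Bool
  | [], _ => true
  | S :: Ss, k => decide (2 * (k % S) < S) && keep Ss (k / S)

/-- are all the digits of `k` even, except those flagged -/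
def evn : List Nat → List Bool → Nat → Bool
  | S :: Ss, b :: bs, k => (b || decide ((k % S) % 2 = 0)) && evn Ss bs (k / S)
  | _, _, _ => true

/-- masks -/
structure Ctx where
  n : Nat
  kp : Nat
  top : Nat
  topm : Nat
  drop : Nat
  keepHi : Nat
  biasK : Nat
  ev : Nat
  od : Nat
  deriving DecidableEq

def mkCtx (n ones kp ev : Nat) : Ctx :=
  ⟨n, kp, ones * 2 ^ 223, ones * (2 ^ 223 - 1), (ones - kp) * (2 ^ 224 - 1),
    kp * (2 ^ 224 - 2 ^ 64), kp * 2 ^ 159, ev, kp - ev⟩

/-- the mask of a set of indices -/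
def msk (p : Nat → Bool) (n : Nat) : Nat := pkr (fun k ↦ if k < n then (if p k then 1 else 0) else 0) 14 0

/-- `∑ j < m, 2^(224 a j)` -/
def geo (a m : Nat) : Nat := (2 ^ (224 * a * m) - 1) / (2 ^ (224 * a) - 1)

/-- a Taylor model: packed coefficients, remainder, bound for the sum of the coefficients -/
structure TM where
  x : Int
  r : Nat
  l : Nat

namespace TM

/-- the difference of two natural numbers -/
def isub (a b : Nat) : Int :=
  Nat.casesOn (Nat.sub b a) (Nat.casesOn (Nat.add (Nat.sub a b) 1) (Int.ofNat 0) Int.ofNat)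
    Int.negSucc

def iadd (x y : Int) : Int :=
  Int.casesOn x
    (fun a ↦ Int.casesOn y (fun b ↦ Int.ofNat (Nat.add a b)) fun b ↦ isub a (Nat.add b 1))
    fun a ↦ Int.casesOn y (fun b ↦ isub b (Nat.add a 1))
      fun b ↦ Int.negSucc (Nat.add (Nat.add a b) 1)

def idif (x y : Int) : Int :=
  Int.casesOn x
    (fun a ↦ Int.casesOn y (fun b ↦ isub a b) fun b ↦ Int.ofNat (Nat.add (Nat.add a b) 1))
    fun a ↦ Int.casesOn y (fun b ↦ Int.negSucc (Nat.add a b)) fun b ↦ isub b a

/-- `x * y + t` -/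
def bmul (x y : Int) (t : Nat) : Nat :=
  Int.casesOn x
    (fun a ↦ Int.casesOn y (fun b ↦ Nat.add t (Nat.mul a b))
      fun b ↦ Nat.sub t (Nat.mul a (Nat.add b 1)))
    fun a ↦ Int.casesOn y (fun b ↦ Nat.sub t (Nat.mul (Nat.add a 1) b))
      fun b ↦ Nat.add t (Nat.mul (Nat.add a 1) (Nat.add b 1))

/-- `x + t` -/
def badd (x : Int) (t : Nat) : Nat :=
  Int.casesOn x (fun a ↦ Nat.add t a) fun a ↦ Nat.sub t (Nat.add a 1)

def add (a b : TM) : TM := ⟨iadd a.x b.x, Nat.add a.r b.r, Nat.add a.l b.l⟩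
def sub (a b : TM) : TM := ⟨idif a.x b.x, Nat.add a.r b.r, Nat.add a.l b.l⟩
def smul (n : Int) (a : TM) : TM := ⟨Int.mul n a.x, Nat.mul n.natAbs a.r, Nat.mul n.natAbs a.l⟩
def mon (k : Nat) (n : Int) : TM := ⟨n * (2 ^ (224 * k + 16) : Nat), 0, n.natAbs * 2 ^ 16⟩
def int (n : Int) : TM := ⟨n * (2 ^ 64 : Nat), 0, n.natAbs * 2 ^ 64⟩
def inv (n : Nat) : TM := ⟨(2 ^ 64 / n : Nat), 1, 2 ^ 64 / n⟩
def widen (a : TM) (e : Nat) : TM := ⟨a.x, a.r + e, a.l⟩
def norm (a : TM) : Nat := a.l + a.r

def absv (c : Ctx) (z : Nat) : Nat :=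
  Nat.xor z (Nat.add c.topm (Nat.shiftRight (Nat.land z c.top) 223))

def mul (c : Ctx) (a b : TM) : TM :=
  TM.casesOn a fun x1 r1 l1 ↦ TM.casesOn b fun x2 r2 l2 ↦
    Bool.casesOn (Nat.ble (Nat.mul l1 l2)
        13479973333575319897333507543509815336818572211270286240551805124607)
      ⟨0, Nat.add (Nat.shiftRight (Nat.mul (Nat.add l1 r1) (Nat.add l2 r2)) 64) 1, 0⟩
      (let z := bmul x1 x2 c.top
      let A := absv c z
      let d := Nat.mod (Nat.land A c.drop)
        26959946667150639794667015087019630673637144422540572481103610249215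
      ⟨isub (Nat.shiftRight (Nat.land z c.keepHi) 64) c.biasK,
        Nat.add (Nat.shiftRight (Nat.add (Nat.add (Nat.mul (Nat.add l1 r1) r2) (Nat.mul l2 r1)) d) 64)
          (Nat.add c.n 2),
        Nat.add (Nat.shiftRight (Nat.sub (Nat.mod A
          26959946667150639794667015087019630673637144422540572481103610249215) d) 64)
          (Nat.add c.n 2)⟩)

def tight (c : Ctx) (a : TM) : TM :=
  Bool.casesOn (Nat.ble a.l 13479973333575319897333507543509815336818572211270286240551805124607) a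
    ⟨a.x, a.r, Nat.add (Nat.mod (absv c (badd a.x c.top))
      26959946667150639794667015087019630673637144422540572481103610249215) (Nat.mul 2 c.n)⟩

/-- the coefficient with index `k` -/
def coef (c : Ctx) (a : TM) (k : Nat) : Int :=
  (((a.x + c.top).toNat >>> (224 * k)) % 2 ^ 224 : Nat) - (2 ^ 223 : Nat)

/-- the sub-polynomial of the indices in the mask `M` (a sum of powers), shifted down by `i` -/
def part (c : Ctx) (M i : Nat) (a : TM) : TM :=
  if a.l < 2 ^ 223 then
    ⟨(((a.x + c.top).toNat &&& (M * (2 ^ 224 - 1))) >>> (224 * i) : Nat) -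
      ((M * 2 ^ 223) >>> (224 * i) : Nat), 0, a.l⟩
  else ⟨0, 0, 0⟩

/-- twice a lower bound -/
def lower (c : Ctx) (a : TM) : Int :=
  let E := tight c (part c c.ev 0 a)
  2 * coef c a 0 + (E.x + E.l) % ((2 ^ 224 - 1 : Nat) : Int) -
    (2 * (E.l + (tight c (part c c.od 0 a)).l + a.r) : Nat)

def pos (c : Ctx) (a : TM) : Bool := decide (a.l < 2 ^ 222) && decide (0 < lower c a)

/-- forget the remainder -/
def exact (a : TM) : TM := ⟨a.x, 0, a.l⟩

def sparse : List (Nat × Int) → TM
  | [] => ⟨0, 0, 0⟩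
  | p :: l => add (mon p.1 p.2) (sparse l)

def horner (c : Ctx) (z : TM) : List TM → TM
  | [] => ⟨0, 0, 0⟩
  | a :: l => add a (mul c z (horner c z l))

def cst (n : Nat) : TM := ⟨n, 0, n⟩

/-- an approximate inverse square root; `M` is the mask of the linear terms -/
def hint (c : Ctx) (M : Nat) (a : TM) : TM :=
  let an := exact (mul c a (cst (2 ^ 128 / (coef c a 0).toNat)))
  let h := exact (mul c (part c M 0 an) (inv 2))
  let y := exact (horner c h [int 1, int (-1), inv 2, smul (-1) (inv 6), inv 24])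
  exact (mul c (mul c y (inv 2)) (tight c (sub (int 3) (mul c (mul c an y) y))))

/-- positivity after multiplication by a square -/
def posN (c : Ctx) (M : Nat) (a : TM) : Bool :=
  pos c a || (let y := hint c M a; pos c (mul c (mul c a y) y))

def fact : Nat → Nat
  | 0 => 1
  | n + 1 => (n + 1) * fact n

/-- `exp`, and the two divided differences, with scaling -/
structure Tri where
  e : TM
  p1 : TM
  p2 : TM

def tri0 (c : Ctx) (z : TM) : Tri :=
  let p2 := widen (horner c z ((List.range 12).map fun n ↦ inv (fact (n + 2))))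
    (2 * z.norm ^ 12 / 2 ^ (64 * 11) / fact 14 + 1)
  let p1 := add (int 1) (mul c z p2)
  ⟨add (int 1) (mul c z p1), p1, p2⟩

def dbl (c : Ctx) (t : Tri) : Tri :=
  ⟨mul c t.e t.e, mul c t.p1 (add t.e (int 1)), add (mul c t.p1 t.p1) (smul 2 t.p2)⟩

def dbls (c : Ctx) (t : Tri) : Nat → Tri
  | 0 => t
  | k + 1 => dbl c (dbls c t k)

/-- the values at `z`, after `k` halvings -/
def tri (c : Ctx) (k : Nat) (z : TM) : Tri :=
  let t := dbls c (tri0 c (mul c z (inv (2 ^ k)))) k
  ⟨t.e, mul c t.p1 (inv (2 ^ k)), mul c t.p2 (inv (4 ^ k))⟩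

def newt (c : Ctx) (a : TM) : Nat → TM
  | 0 => if 0 < coef c a 0 then cst (2 ^ 128 / (coef c a 0).natAbs)
      else smul (-1) (cst (2 ^ 128 / (coef c a 0).natAbs))
  | k + 1 => let z := newt c a k; exact (mul c z (tight c (sub (int 2) (mul c a z))))

/-- the inverse of a quantity which does not depend on the first variable -/
def rcp (c : Ctx) (a : TM) : Bool × TM :=
  let z := newt c a 4
  let e := tight c (sub (int 1) (mul c a z))
  (decide (e.norm ≤ 2 ^ 63), widen z (z.l * e.norm * (2 ^ 64 + 2 * e.norm) / 2 ^ 128 + 1))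

def isq (N : Nat) : Nat → Nat
  | 0 => 2 ^ 90
  | k + 1 => let x := isq N k; (x + N / x) / 2

def nsq (c : Ctx) (a z : TM) : TM :=
  exact (mul c (mul c z (inv 2)) (tight c (sub (int 3) (mul c (mul c a z) z))))

/-- the inverse square root -/
def rsq (c : Ctx) (M : Nat) (a : TM) : Bool × TM :=
  let z := nsq c a (nsq c a (mul c (hint c M a) (cst (isq (2 ^ 192 / (coef c a 0).toNat) 50))))
  let e := tight c (sub (int 1) (mul c (mul c a z) z))
  (decide (e.norm ≤ 2 ^ 63) && posN c M z, widen z (z.l * e.norm / 2 ^ 64 + 1))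

end TM

end Pool.Agent.Lib.MP_d6150d_an
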