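import Mathlib
import Pool.Agent.Lib.MP_d6150d_an.TMDefs

/-! Graded bounds, monomials and packed digits. -/

namespace Pool.Agent.Lib.MP_d6150d_an

open Finset

/-- the sum of the first `m` Taylor coefficients and of the bound for the rest is at most `C` -/
def Nm (I : Set ℝ) : ℕ → (ℝ → ℝ) → ℝ → Prop
  | 0, f, C => ∀ τ ∈ I, |f τ| ≤ C
  | m + 1, f, C => ∃ (c : ℝ) (h : ℝ → ℝ), (∀ τ ∈ I, f τ = c + τ * h τ) ∧ Nm I m h (C - |c|)

namespace Nm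

variable {I : Set ℝ}

theorem mono : ∀ {m : ℕ} {f : ℝ → ℝ} {C C' : ℝ}, Nm I m f C → C ≤ C' → Nm I m f C'
  | 0, _, _, _, h, hC => fun τ hτ ↦ (h τ hτ).trans hC
  | _ + 1, _, _, _, ⟨c, h, e, hh⟩, hC => ⟨c, h, e, mono hh (by linarith)⟩

theorem congr : ∀ {m : ℕ} {f g : ℝ → ℝ} {C : ℝ}, Nm I m f C → (∀ τ ∈ I, g τ = f τ) → Nm I m g C
  | 0, _, _, _, h, e => fun τ hτ ↦ by rw [e τ hτ]; exact h τ hτ
  | _ + 1, _, _, _, ⟨c, h, e, hh⟩, e' => ⟨c, h, fun τ hτ ↦ by rw [e' τ hτ, e τ hτ], hh⟩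

theorem weaken (hI : ∀ τ ∈ I, |τ| ≤ 1) :
    ∀ {m : ℕ} {f : ℝ → ℝ} {C : ℝ}, Nm I (m + 1) f C → Nm I m f C
  | 0, _, C, ⟨c, h, e, hh⟩ => fun τ hτ ↦ by
      rw [e τ hτ]
      have h1 := hh τ hτ
      have h2 := hI τ hτ
      have h3 : |τ * h τ| ≤ |h τ| := by
        rw [abs_mul]; exact mul_le_of_le_one_left (abs_nonneg _) h2
      have := abs_add_le c (τ * h τ)
      linarith
  | _ + 1, _, _, ⟨c, h, e, hh⟩ => ⟨c, h, e, weaken hI hh⟩

theorem sup (hI : ∀ τ ∈ I, |τ| ≤ 1) :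
    ∀ {m : ℕ} {f : ℝ → ℝ} {C : ℝ}, Nm I m f C → ∀ τ ∈ I, |f τ| ≤ C
  | 0, _, _, h => h
  | _ + 1, _, _, h => sup hI (weaken hI h)

theorem weak (hI : ∀ τ ∈ I, |τ| ≤ 1) {m : ℕ} {f : ℝ → ℝ} {C : ℝ} :
    ∀ {n : ℕ}, Nm I (m + n) f C → Nm I m f C
  | 0, h => h
  | _ + 1, h => weak hI (weaken hI h)

theorem add : ∀ {m : ℕ} {f g : ℝ → ℝ} {A B : ℝ}, Nm I m f A → Nm I m g B →
    Nm I m (fun τ ↦ f τ + g τ) (A + B)
  | 0, _, _, _, _, hf, hg => fun τ hτ ↦ (abs_add_le _ _).trans (add_le_add (hf τ hτ) (hg τ hτ))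
  | _ + 1, _, _, _, _, ⟨c, h, e, hh⟩, ⟨d, k, e', hk⟩ =>
    ⟨c + d, fun τ ↦ h τ + k τ, fun τ hτ ↦ by simp only [e τ hτ, e' τ hτ]; ring,
      mono (add hh hk) (by have := abs_add_le c d; linarith)⟩

theorem smul (a : ℝ) : ∀ {m : ℕ} {f : ℝ → ℝ} {A : ℝ}, Nm I m f A →
    Nm I m (fun τ ↦ a * f τ) (|a| * A)
  | 0, _, _, hf => fun τ hτ ↦ by
      rw [abs_mul]; exact mul_le_mul_of_nonneg_left (hf τ hτ) (abs_nonneg _)
  | _ + 1, _, _, ⟨c, h, e, hh⟩ =>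
    ⟨a * c, fun τ ↦ a * h τ, fun τ hτ ↦ by simp only [e τ hτ]; ring,
      mono (smul a hh) (by rw [abs_mul]; ring_nf; exact le_rfl)⟩

theorem const (c : ℝ) : ∀ {m : ℕ}, Nm I m (fun _ ↦ c) |c|
  | 0 => fun _ _ ↦ le_rfl
  | _ + 1 => ⟨c, fun _ ↦ 0, fun τ _ ↦ by ring, mono (const 0) (by simp)⟩

theorem tau (hI : ∀ τ ∈ I, |τ| ≤ 1) : ∀ {m : ℕ} {f : ℝ → ℝ} {A : ℝ}, Nm I m f A →
    Nm I m (fun τ ↦ τ * f τ) A
  | 0, f, _, hf => fun τ hτ ↦ by
      rw [abs_mul]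
      exact (mul_le_of_le_one_left (abs_nonneg _) (hI τ hτ)).trans (hf τ hτ)
  | _ + 1, f, _, hf => ⟨0, f, fun τ _ ↦ by ring, mono (weaken hI hf) (by simp)⟩

theorem mul (hI : ∀ τ ∈ I, |τ| ≤ 1) : ∀ {m : ℕ} {f g : ℝ → ℝ} {A B : ℝ}, Nm I m f A →
    Nm I m g B → Nm I m (fun τ ↦ f τ * g τ) (A * B)
  | 0, _, _, _, _, hf, hg => fun τ hτ ↦ by
      rw [abs_mul]
      exact mul_le_mul (hf τ hτ) (hg τ hτ) (abs_nonneg _) ((abs_nonneg _).trans (hf τ hτ))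
  | _ + 1, _, g, _, _, ⟨c, h, e, hh⟩, hg => by
      obtain ⟨d, k, e', hk⟩ := id hg
      refine ⟨c * d, fun τ ↦ c * k τ + h τ * g τ, fun τ hτ ↦ by simp only [e τ hτ, e' τ hτ]; ring,
        mono (add (smul c hk) (mul hI hh (weaken hI hg))) ?_⟩
      rw [abs_mul]; ring_nf; exact le_rfl

theorem sum {ι : Type*} (s : Finset ι) {m : ℕ} {f : ι → ℝ → ℝ} {A : ι → ℝ}
    (h : ∀ i ∈ s, Nm I m (f i) (A i)) : Nm I m (fun τ ↦ ∑ i ∈ s, f i τ) (∑ i ∈ s, A i) := by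
  classical
  induction s using Finset.induction_on with
  | empty => simpa using (const (I := I) 0 (m := m))
  | insert a s ha ih =>
    simp only [Finset.sum_insert ha]
    exact add (h a (mem_insert_self _ _)) (ih fun i hi ↦ h i (mem_insert_of_mem hi))

theorem taupow (hI : ∀ τ ∈ I, |τ| ≤ 1) (c : ℝ) {m : ℕ} : ∀ i : ℕ, Nm I m (fun τ ↦ τ ^ i * c) |c|
  | 0 => congr (const c) (by simp)
  | i + 1 => congr (tau hI (taupow hI c i)) (fun τ _ ↦ by ring)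

theorem pow (hI : ∀ τ ∈ I, |τ| ≤ 1) {m : ℕ} {f : ℝ → ℝ} {A : ℝ} (h : Nm I m f A) :
    ∀ i : ℕ, Nm I m (fun τ ↦ f τ ^ i) (A ^ i)
  | 0 => by simpa using (const (I := I) 1 (m := m))
  | i + 1 => by simpa [pow_succ] using mul hI (pow hI h i) h

end Nm

/-- the monomial with a given index -/
def mo : List ℕ → List ℝ → ℕ → ℝ
  | S :: Ss, x :: xs, k => x ^ (k % S) * mo Ss xs (k / S)
  | _, _, _ => 1

theorem mo_zero : ∀ (Ss : List ℕ) (xs : List ℝ), mo Ss xs 0 = 1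
  | [], _ => rfl
  | _ :: _, [] => rfl
  | S :: Ss, x :: xs => by simp [mo, mo_zero Ss xs]

theorem mo_abs : ∀ (Ss : List ℕ) (xs : List ℝ) (k : ℕ), (∀ x ∈ xs, |x| ≤ 1) → |mo Ss xs k| ≤ 1
  | [], _, _, _ => by simp [mo]
  | _ :: _, [], _, _ => by simp [mo]
  | S :: Ss, x :: xs, k, h => by
    rw [mo, abs_mul, abs_pow]
    exact mul_le_one₀ (pow_le_one₀ (abs_nonneg _) (h x (by simp))) (abs_nonneg _)
      (mo_abs Ss xs _ fun y hy ↦ h y (by simp [hy]))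

theorem mo_add : ∀ (Ss : List ℕ) (xs : List ℝ) (j k : ℕ), keep Ss j = true → keep Ss k = true →
    mo Ss xs (j + k) = mo Ss xs j * mo Ss xs k
  | [], _, _, _, _, _ => by simp [mo]
  | _ :: _, [], _, _, _, _ => by simp [mo]
  | S :: Ss, x :: xs, j, k, hj, hk => by
    simp only [keep, Bool.and_eq_true, decide_eq_true_eq] at hj hk
    have hS : 0 < S := by omega
    have h1 : (j + k) % S = j % S + k % S := by
      rw [Nat.add_mod, Nat.mod_eq_of_lt (by omega)]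
    have h2 : (j + k) / S = j / S + k / S := by
      rw [Nat.add_div hS, if_neg (by omega)]; rfl
    simp only [mo, h1, h2, mo_add Ss xs _ _ hj.2 hk.2, pow_add]; ring

/-- flagged variables are nonnegative -/
def Flag : List Bool → List ℝ → Prop
  | b :: bs, x :: xs => (b = true → 0 ≤ x) ∧ Flag bs xs
  | [], _ :: _ => False
  | _, [] => True

theorem mo_nonneg : ∀ (Ss : List ℕ) (bs : List Bool) (xs : List ℝ) (k : ℕ), Flag bs xs →
    evn Ss bs k = true → 0 ≤ mo Ss xs k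
  | [], _, _, _, _, _ => by simp [mo]
  | _ :: _, _, [], _, _, _ => by simp [mo]
  | _ :: _, [], _ :: _, _, h, _ => h.elim
  | S :: Ss, b :: bs, x :: xs, k, h, he => by
    simp only [evn, Bool.and_eq_true, Bool.or_eq_true, decide_eq_true_eq] at he
    refine mul_nonneg ?_ (mo_nonneg Ss bs xs _ h.2 he.2)
    rcases he.1 with hb | hb
    · exact pow_nonneg (h.1 hb) _
    · exact Even.pow_nonneg (Nat.even_iff.2 hb) _

/-- packed digits -/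
def dg (d : ℕ → ℕ) (N : ℕ) : ℕ := ∑ k ∈ range N, d k * 2 ^ (224 * k)

theorem dg_succ (d : ℕ → ℕ) (N : ℕ) :
    dg d (N + 1) = 2 ^ 224 * dg (fun k ↦ d (k + 1)) N + d 0 := by
  rw [dg, dg, sum_range_succ', mul_sum, mul_zero, pow_zero, mul_one]
  refine congrArg (· + d 0) (sum_congr rfl fun k _ ↦ ?_)
  rw [mul_add, pow_add, mul_one, mul_comm (2 ^ (224 * k)), mul_left_comm]

theorem dg_congr {d e : ℕ → ℕ} {N : ℕ} (h : ∀ k < N, d k = e k) : dg d N = dg e N :=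
  sum_congr rfl fun k hk ↦ by rw [h k (mem_range.1 hk)]

theorem dg_bit (op : ℕ → ℕ → ℕ) (f : Bool → Bool → Bool) (h0 : f false false = false)
    (hop : ∀ a b i, (op a b).testBit i = f (a.testBit i) (b.testBit i)) :
    ∀ (N : ℕ) (d e : ℕ → ℕ), (∀ k, d k < 2 ^ 224) → (∀ k, e k < 2 ^ 224) →
      op (dg d N) (dg e N) = dg (fun k ↦ op (d k) (e k)) N
  | 0, _, _, _, _ => by
    apply Nat.eq_of_testBit_eq; intro i; simp [dg, hop, h0]
  | N + 1, d, e, hd, he => by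
    have hlt : op (d 0) (e 0) < 2 ^ 224 := by
      apply Nat.lt_pow_two_of_testBit
      intro i hi
      rw [hop, Nat.testBit_lt_two_pow ((hd 0).trans_le (Nat.pow_le_pow_right (by norm_num) hi)),
        Nat.testBit_lt_two_pow ((he 0).trans_le (Nat.pow_le_pow_right (by norm_num) hi)), h0]
    rw [dg_succ, dg_succ, dg_succ, ← dg_bit op f h0 hop N _ _ (fun k ↦ hd _) (fun k ↦ he _)]
    apply Nat.eq_of_testBit_eq
    intro i
    rw [hop, Nat.testBit_two_pow_mul_add _ (hd 0), Nat.testBit_two_pow_mul_add _ (he 0),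
      Nat.testBit_two_pow_mul_add _ hlt]
    split_ifs <;> rw [hop]

theorem dg_and (N : ℕ) {d e : ℕ → ℕ} (hd : ∀ k, d k < 2 ^ 224) (he : ∀ k, e k < 2 ^ 224) :
    dg d N &&& dg e N = dg (fun k ↦ d k &&& e k) N :=
  dg_bit (· &&& ·) (· && ·) rfl (fun a b i ↦ Nat.testBit_and a b i) N d e hd he

theorem dg_xor (N : ℕ) {d e : ℕ → ℕ} (hd : ∀ k, d k < 2 ^ 224) (he : ∀ k, e k < 2 ^ 224) :
    dg d N ^^^ dg e N = dg (fun k ↦ d k ^^^ e k) N :=
  dg_bit (· ^^^ ·) (· ^^ ·) rfl (fun a b i ↦ Nat.testBit_xor a b i) N d e hd he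

theorem dg_mul (d : ℕ → ℕ) (N a : ℕ) : dg d N * a = dg (fun k ↦ d k * a) N := by
  simp only [dg, sum_mul]; exact sum_congr rfl fun k _ ↦ by ring

theorem dg_add (d e : ℕ → ℕ) (N : ℕ) : dg d N + dg e N = dg (fun k ↦ d k + e k) N := by
  simp only [dg, ← sum_add_distrib]; exact sum_congr rfl fun k _ ↦ by ring

theorem dg_sub {d e : ℕ → ℕ} (N : ℕ) (h : ∀ k, e k ≤ d k) :
    dg d N - dg e N = dg (fun k ↦ d k - e k) N := by
  have : dg d N = dg (fun k ↦ d k - e k) N + dg e N := by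
    rw [dg_add]; exact dg_congr fun k _ ↦ (Nat.sub_add_cancel (h k)).symm
  omega

theorem dg_shift {d : ℕ → ℕ} (N s : ℕ) (h : ∀ k, 2 ^ s ∣ d k) :
    dg d N >>> s = dg (fun k ↦ d k / 2 ^ s) N := by
  have : dg d N = dg (fun k ↦ d k / 2 ^ s) N * 2 ^ s := by
    rw [dg_mul]; exact dg_congr fun k _ ↦ (Nat.div_mul_cancel (h k)).symm
  rw [Nat.shiftRight_eq_div_pow, this, Nat.mul_div_cancel _ (by positivity)]

theorem dg_modEq (d : ℕ → ℕ) : ∀ N, dg d N ≡ ∑ k ∈ range N, d k [MOD 2 ^ 224 - 1]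
  | 0 => by simp [dg, Nat.ModEq]
  | N + 1 => by
    rw [dg, sum_range_succ, sum_range_succ]
    refine (dg_modEq d N).add ?_
    have h1 : 2 ^ 224 ≡ 1 [MOD 2 ^ 224 - 1] :=
      ((Nat.modEq_iff_dvd' (by norm_num)).2 dvd_rfl).symm
    have h2 := (h1.pow N).mul_left (d N)
    simpa [pow_mul] using h2

theorem dg_mod {d : ℕ → ℕ} {N : ℕ} (h : ∑ k ∈ range N, d k < 2 ^ 224 - 1) :
    dg d N % (2 ^ 224 - 1) = ∑ k ∈ range N, d k := by
  rw [dg_modEq d N, Nat.mod_eq_of_lt h]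

theorem dg_drop : ∀ (i N : ℕ) (d : ℕ → ℕ), (∀ k, d k < 2 ^ 224) →
    dg d (N + i) >>> (224 * i) = dg (fun k ↦ d (k + i)) N
  | 0, _, _, _ => by simp
  | i + 1, N, d, hd => by
    rw [← add_assoc, dg_succ, show 224 * (i + 1) = 224 + 224 * i by ring, Nat.shiftRight_add,
      Nat.shiftRight_eq_div_pow _ 224, Nat.mul_add_div (by positivity), Nat.div_eq_of_lt (hd 0),
      add_zero, dg_drop i N _ fun k ↦ hd _]
    rfl

theorem pkr_eq (f : ℕ → ℕ) : ∀ d lo, pkr f d lo = dg (fun k ↦ f (lo + k)) (2 ^ d)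
  | 0, lo => by simp [pkr, dg]
  | d + 1, lo => by
    rw [pkr, pkr_eq f d, pkr_eq f d, Nat.shiftLeft_eq, pow_succ, mul_two, dg, dg, dg,
      sum_range_add, sum_mul]
    congr 1
    exact sum_congr rfl fun k _ ↦ by rw [add_assoc, mul_add, pow_add]; ring

/-- the total number of digits -/
@[irreducible] def N0 : ℕ := 2 ^ 14

theorem N0_eq : N0 = 16384 := by unfold N0; norm_num

theorem msk_eq (p : ℕ → Bool) (n : ℕ) :
    msk p n = dg (fun k ↦ if k < n ∧ p k = true then 1 else 0) N0 := by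
  rw [msk, pkr_eq, N0]
  refine dg_congr fun k _ ↦ ?_
  by_cases h : k < n <;> by_cases h' : p k = true <;> simp [h, h']

end Pool.Agent.Lib.MP_d6150d_an
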