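import Pool.Agent.Lib.MP_d6150d_an.Avg

/-! The period of an orbit as an average, and the bound for the number of critical periods. -/

namespace Pool.Agent.Lib.MP_d6150d_an

open Real Set Filter Topology intervalIntegral

/-- a solution of the system -/
structure Sol (D F : ℝ) (x y : ℝ → ℝ) : Prop where
  hx : ∀ t, HasDerivAt x (-y t + x t * y t) t
  hy : ∀ t, HasDerivAt y (x t + D * x t ^ 2 + F * y t ^ 2) t

/-- a periodic orbit with its minimal period -/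
def PerR (D F u τ : ℝ) : Prop := 0 < τ ∧ ∃ x y, Sol D F x y ∧ x 0 = u ∧ y 0 = 0 ∧ x τ = u ∧
  y τ = 0 ∧ ∀ t ∈ Ioo 0 τ, x t = u → y t ≠ 0

variable {D F : ℝ} {x y : ℝ → ℝ}

theorem Sol.cx (S : Sol D F x y) : Continuous x :=
  continuous_iff_continuousAt.2 fun t ↦ (S.hx t).continuousAt

theorem Sol.cy (S : Sol D F x y) : Continuous y :=
  continuous_iff_continuousAt.2 fun t ↦ (S.hy t).continuousAt

theorem Sol.equil (S : Sol D F x y) {a b : ℝ} (h1 : x a + D * x a ^ 2 = 0) (h2 : y a = 0)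
    (hab : a ≤ b) : x b = x a ∧ y b = 0 := by
  have cx := S.cx
  have cy := S.cy
  obtain ⟨K, hK⟩ := (isCompact_Icc (a := a) (b := b)).exists_bound_of_continuousOn
    (f := fun t ↦ |x t - 1| + |1 + D * (x t + x a)| + |F * y t|) (by fun_prop)
  have := eq_zero_of_abs_deriv_le_mul_abs_self_of_eq_zero_right (a := a) (b := b) (K := K)
    (f := fun t ↦ (x t - x a, y t))
    (f' := fun t ↦ (-y t + x t * y t, x t + D * x t ^ 2 + F * y t ^ 2)) (by fun_prop)
    (fun t _ ↦ (((S.hx t).sub_const _).prodMk (S.hy t)).hasDerivWithinAt) (by simp [h2])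
    (fun t ht ↦ ?_) b ⟨hab, le_rfl⟩
  · simpa [sub_eq_zero] using this
  · have h3 := (le_abs_self _).trans (hK t (Ico_subset_Icc_self ht))
    have n1 : |x t - x a| ≤ ‖(x t - x a, y t)‖ := norm_fst_le (x t - x a, y t)
    have n2 : |y t| ≤ ‖(x t - x a, y t)‖ := norm_snd_le (x t - x a, y t)
    have n0 := norm_nonneg (x t - x a, y t)
    generalize ‖(x t - x a, y t)‖ = n at *
    have p1 := abs_nonneg (x t - 1)
    have p2 := abs_nonneg (1 + D * (x t + x a))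
    have p3 := abs_nonneg (F * y t)
    rw [Prod.norm_def, max_le_iff]
    constructor
    · rw [Real.norm_eq_abs, show -y t + x t * y t = (x t - 1) * y t by ring, abs_mul]
      nlinarith [mul_le_mul_of_nonneg_left n2 p1]
    · rw [Real.norm_eq_abs, show x t + D * x t ^ 2 + F * y t ^ 2 =
        (1 + D * (x t + x a)) * (x t - x a) + F * y t * y t by linear_combination h1]
      refine (abs_add_le _ _).trans ?_
      rw [abs_mul, abs_mul (F * y t)]
      nlinarith [mul_le_mul_of_nonneg_left n2 p3, mul_le_mul_of_nonneg_left n1 p2]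

theorem Sol.one_sub (S : Sol D F x y) (t : ℝ) :
    1 - x t = (1 - x 0) * exp (∫ s in (0 : ℝ)..t, y s) := by
  have h : ∀ t, HasDerivAt (fun t ↦ (1 - x t) * exp (-∫ s in (0 : ℝ)..t, y s)) 0 t := fun t ↦
    (((S.hx t).const_sub 1).mul
      (S.cy.integral_hasStrictDerivAt 0 t).hasDerivAt.neg.exp).congr_deriv (by simp; ring)
  have := is_const_of_deriv_eq_zero (fun t ↦ (h t).differentiableAt) (fun t ↦ (h t).deriv) t 0
  simp only [integral_same, neg_zero, exp_zero, mul_one] at this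
  rw [← this, mul_assoc, ← exp_add]; simp

theorem not_per_equil {u τ : ℝ} (h : u + D * u ^ 2 = 0) : ¬PerR D F u τ := by
  rintro ⟨h0, x, y, S, rfl, h2, -, -, h5⟩
  have := S.equil h h2 (half_pos h0).le
  exact h5 _ ⟨half_pos h0, half_lt_self h0⟩ this.1 this.2

theorem not_per_one {τ : ℝ} : ¬PerR D F 1 τ := fun P ↦ by
  by_cases hD : 1 + D = 0
  · exact not_per_equil (by linarith) P
  obtain ⟨h0, x, y, S, h1, h2, -, h4, -⟩ := P
  have hx : ∀ t, x t = 1 := fun t ↦ by have := S.one_sub t; rw [h1] at this; linarith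
  have hw : ∀ t, HasDerivAt (fun t ↦ (1 + D) * y t + F / 3 * y t ^ 3)
      ((1 + D + F * y t ^ 2) ^ 2) t := fun t ↦
    (((S.hy t).const_mul _).add (((S.hy t).pow 3).const_mul _)).congr_deriv (by
      rw [hx]; push_cast; ring)
  have hm := monotone_of_deriv_nonneg (fun t ↦ (hw t).differentiableAt)
    fun t ↦ by rw [(hw t).deriv]; positivity
  have h6 := (hasDerivAt_iff_tendsto_slope.1 (hw 0)).eventually
    (lt_mem_nhds (show 0 < (1 + D + F * y 0 ^ 2) ^ 2 by rw [h2]; simpa using pow_pos (abs_pos.2 hD) 2))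
  obtain ⟨r, h7, h8, h9⟩ := ((h6.filter_mono (nhdsWithin_mono 0 fun r (hr : r ∈ Ioi 0) ↦
    (mem_Ioi.1 hr).ne')).and (Ioo_mem_nhdsGT h0 : ∀ᶠ r in 𝓝[>] 0, r ∈ Ioo 0 τ)).exists
  rw [slope_def_field, sub_zero, div_pos_iff_of_pos_right h8] at h7
  have := hm h9.le
  simp only [h2, h4] at this h7
  linarith

section orbit

variable (S : Sol D F x y) (h1 : x 0 < 1)
include S h1

theorem Sol.lt_one (t : ℝ) : 0 < 1 - x t := by
  rw [S.one_sub]; exact mul_pos (by linarith) (exp_pos _)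

theorem Sol.dp (t : ℝ) : HasDerivAt (fun t ↦ -log (1 - x t)) (-y t) t := by
  have := S.lt_one h1 t
  refine (((S.hx t).const_sub 1).log this.ne').neg.congr_deriv ?_
  field_simp; ring

theorem Sol.expp (t : ℝ) : exp (-log (1 - x t)) = (1 - x t)⁻¹ := by
  rw [exp_neg, exp_log (S.lt_one h1 t)]

theorem Sol.memJ {t : ℝ} : -log (1 - x t) ∈ JR D ↔ 0 < 1 + D * x t := by
  have := S.lt_one h1 t
  have e : om D (-log (1 - x t)) = (1 + D * x t) / (1 - x t) := by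
    rw [om, S.expp h1]; field_simp; ring
  rw [JR, mem_ofPred_eq, e, div_pos_iff_of_pos_right this]

theorem Sol.W (t : ℝ) : WR D F (-log (1 - x t)) =
    2 * exp (F * -log (1 - x t)) ^ 2 * (x t + D * x t ^ 2) := by
  have := (S.lt_one h1 t).ne'
  rw [sq (exp _), ← exp_add, show F * -log (1 - x t) + F * -log (1 - x t) =
    2 * F * -log (1 - x t) by ring, exp_a1, WR, om, S.expp h1]
  field_simp; ring

theorem Sol.de (t : ℝ) : HasDerivAt (fun t ↦ y t * exp (F * -log (1 - x t)))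
    ((x t + D * x t ^ 2) * exp (F * -log (1 - x t))) t :=
  ((S.hy t).mul ((S.dp h1 t).const_mul F).exp).congr_deriv (by ring)

theorem Sol.energy (h2 : y 0 = 0) (t : ℝ) : (y t * exp (F * -log (1 - x t))) ^ 2 +
    vR D F (-log (1 - x t)) = vR D F (-log (1 - x 0)) := by
  have h : ∀ t, HasDerivAt (fun t ↦ (y t * exp (F * -log (1 - x t))) ^ 2 +
      vR D F (-log (1 - x t))) 0 t := fun t ↦
    (((S.de h1 t).pow 2).add ((hasDerivAt_vR D F _).comp t (S.dp h1 t))).congr_deriv (by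
      rw [S.W h1]; push_cast; ring)
  rw [is_const_of_deriv_eq_zero (fun t ↦ (h t).differentiableAt) (fun t ↦ (h t).deriv) t 0, h2]
  simp

theorem Sol.minpt {τ : ℝ} (h0 : 0 < τ) (h2 : y 0 = 0) (h3 : x τ = x 0) (hp : 0 < x 0)
    (hJ : 0 < 1 + D * x 0) : ∃ m, (∀ t ∈ Icc 0 τ, x m ≤ x t) ∧ x m < 0 ∧ 0 < 1 + D * x m ∧
      y m = 0 := by
  obtain ⟨m, hm, h4⟩ := isCompact_Icc.exists_isMinOn (nonempty_Icc.2 h0.le) S.cx.continuousOn
  have key : ∀ a ∈ Ico 0 τ, y a = 0 → 0 < x a + D * x a ^ 2 → x m < x a := fun a ha h5 h6 ↦ by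
    obtain ⟨r, h7, h8⟩ := no_max (w := fun t ↦ -x t) (p := fun t ↦ 1 - x t) ha.2
      (fun t _ ↦ (S.hx t).neg.congr_deriv (by ring)) (fun t _ ↦ S.lt_one h1 t) h5 (S.hy a)
      (by rw [h5]; linarith)
    have : x m ≤ x r := h4 ⟨ha.1.trans h7.1.le, h7.2⟩
    linarith
  have h5 := key 0 ⟨le_rfl, h0⟩ h2 (by nlinarith)
  have hm' : m ∈ Ioo 0 τ := ⟨hm.1.lt_of_ne (by rintro rfl; simp at h5),
    hm.2.lt_of_ne (by rintro rfl; linarith)⟩
  have h6 : y m = 0 := by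
    have := (h4.isLocalMin (Icc_mem_nhds hm'.1 hm'.2)).hasDerivAt_eq_zero (S.hx m)
    have h7 := S.lt_one h1 m
    apply mul_left_cancel₀ h7.ne'
    linarith
  have h7 : x m + D * x m ^ 2 < 0 := by
    rcases lt_trichotomy (x m + D * x m ^ 2) 0 with h | h | h
    · exact h
    · have := (S.equil h h6 hm.2).1; linarith
    · exact (lt_irrefl _ (key m ⟨hm.1, hm'.2⟩ h6 h)).elim
  have h8 : x m < 0 := by
    by_contra h
    push Not at h
    have : 0 ≤ 1 + D * x m := by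
      rcases le_total 0 D with hD | hD <;> nlinarith
    nlinarith
  exact ⟨m, fun t ht ↦ h4 ht, h8, by nlinarith, h6⟩

end orbit

theorem log_mono {a b : ℝ} (hb : 0 < 1 - b) (h : a ≤ b) : -log (1 - a) ≤ -log (1 - b) :=
  neg_le_neg (log_le_log hb (by linarith))

theorem PerR.pair {s τ : ℝ} (P : PerR D F s τ) (h0 : 0 < s) (h1 : s < 1) (hJ : 0 < 1 + D * s) :
    -log (1 - s) ∈ JR D ∧ ∃ a ∈ JR D, a < 0 ∧ vR D F a = vR D F (-log (1 - s)) := by
  obtain ⟨hτ, x, y, S, rfl, h2, h3, -, -⟩ := P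
  obtain ⟨m, -, h5, h6, h7⟩ := S.minpt h1 hτ h2 h3 h0 hJ
  refine ⟨(S.memJ h1).2 hJ, _, (S.memJ h1).2 h6, neg_lt_zero.2 (log_pos (by linarith)), ?_⟩
  have := S.energy h1 h2 m
  rw [h7] at this; simpa using this

theorem hasDerivAt_uR (t : ℝ) : HasDerivAt (uR F) (exp (F * t)) t := hasDerivAt_ph1 F t

theorem PerR.eq {s τ R : ℝ} (P : PerR D F s τ) (h0 : 0 < s) (h1 : s < 1) (hJ : 0 < 1 + D * s)
    (H : Rng D F R) (hR : gR D F (-log (1 - s)) < R) :
    τ = Av D F (Dg D F (uR F)) (gR D F (-log (1 - s))) := by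
  obtain ⟨hτ, x, y, S, rfl, h2, h3, h4, h5⟩ := P
  obtain ⟨m, hm, -, h6, -⟩ := S.minpt h1 hτ h2 h3 h0 hJ
  have bJ := (S.memJ h1).2 hJ
  have b0 : 0 < -log (1 - x 0) := neg_pos.2 (log_neg (by linarith) (by linarith))
  have cp : Continuous fun t ↦ -log (1 - x t) :=
    continuous_iff_continuousAt.2 fun t ↦ (S.dp h1 t).continuousAt
  have mem : ∀ t ∈ Icc 0 τ, -log (1 - x t) ∈ JR D := fun t ht ↦ by
    refine JR_conn ((S.memJ h1).2 h6) bJ (log_mono (S.lt_one h1 t) (hm t ht)) ?_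
    by_contra h
    push Not at h
    obtain ⟨c, c1, c2, c3⟩ := ((((JR_open D).eventually_mem bJ).filter_mono
      nhdsWithin_le_nhds).and (Ioo_mem_nhdsGT h : ∀ᶠ r in 𝓝[>] _, r ∈ Ioo _ _)).exists
    obtain ⟨t', -, e⟩ := intermediate_value_Icc ht.1 cp.continuousOn ⟨c2.le, c3.le⟩
    have := S.energy h1 h2 t'
    beta_reduce at e
    rw [e] at this
    nlinarith [vR_mono (F := F) c1 b0.le c2, sq_nonneg (y t' * exp (F * c))]
  have r0 := gR_pos (F := F) bJ b0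
  generalize hr : gR D F (-log (1 - x 0)) = r at *
  have hrR : |r| < R := by rwa [abs_of_pos r0]
  have aK : AnJ D (Dg D F (uR F)) := AnJ.u.dg
  have pK : ∀ t ∈ JR D, Dg D F (uR F) t = exp (F * t) / deriv (gR D F) t := fun t _ ↦ by
    rw [Dg, (hasDerivAt_uR t).deriv]
  let Ω : ℝ → ℝ := fun t ↦ deriv (gR D F) (-log (1 - x t)) / exp (F * -log (1 - x t))
  have cΩ : Continuous fun t ↦ Ω (projIcc 0 τ hτ.le t) := by
    refine ContinuousOn.comp_continuous (g := Ω) (s := Icc 0 τ) (fun t ht ↦ ?_)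
      (continuous_subtype_val.comp continuous_projIcc) fun r ↦ Subtype.prop _
    exact ((ContinuousAt.comp (g := deriv (gR D F)) (f := fun t ↦ -log (1 - x t))
      (gR_an (mem t ht)).deriv.continuousAt cp.continuousAt).div (cp.const_mul F).rexp.continuousAt
      (exp_pos _).ne').continuousWithinAt
  let Θ : ℝ → ℝ := fun t ↦ ∫ s in (0 : ℝ)..t, Ω (projIcc 0 τ hτ.le s)
  have dΘ : ∀ t ∈ Icc 0 τ, HasDerivAt Θ (Ω t) t := fun t ht ↦ by
    have := (cΩ.integral_hasStrictDerivAt 0 t).hasDerivAt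
    rwa [projIcc_of_mem _ ht] at this
  have Θ0 : Θ 0 = 0 := integral_same
  have cst : ∀ {f : ℝ → ℝ}, (∀ t ∈ Icc 0 τ, HasDerivAt f 0 t) → ∀ t ∈ Icc 0 τ, f t = f 0 :=
    fun h ↦ constant_of_has_deriv_right_zero (fun t ht ↦ (h t ht).continuousAt.continuousWithinAt)
      fun t ht ↦ (h t (Ico_subset_Icc_self ht)).hasDerivWithinAt
  have dρ : ∀ t ∈ Icc 0 τ, HasDerivAt (fun t ↦ gR D F (-log (1 - x t)))
      (-(y t * exp (F * -log (1 - x t))) * Ω t) t := fun t ht ↦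
    (HasDerivAt.comp (h₂ := gR D F) t (gR_an (mem t ht)).differentiableAt.hasDerivAt
      (S.dp h1 t)).congr_deriv (by simp only [Ω]; field_simp)
  have dη : ∀ t ∈ Icc 0 τ, HasDerivAt (fun t ↦ y t * exp (F * -log (1 - x t)))
      (gR D F (-log (1 - x t)) * Ω t) t := fun t ht ↦ (S.de h1 t).congr_deriv (by
    have := gR_deriv (F := F) (mem t ht)
    rw [S.W h1] at this
    simp only [Ω]
    rw [← mul_div_assoc, eq_div_iff (exp_pos _).ne']; linarith)
  have e1 := cst fun t ht ↦ (((dρ t ht).mul (dΘ t ht).cos).add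
    ((dη t ht).mul (dΘ t ht).sin)).congr_deriv (by ring)
  have e2 := cst fun t ht ↦ (((dη t ht).mul (dΘ t ht).cos).sub
    ((dρ t ht).mul (dΘ t ht).sin)).congr_deriv (by ring)
  simp only [Pi.add_apply, Pi.sub_apply, Pi.mul_apply, Θ0, cos_zero, sin_zero, mul_zero, mul_one,
    add_zero, sub_zero, hr, h2, zero_mul] at e1 e2
  have eρ : ∀ t ∈ Icc 0 τ, gR D F (-log (1 - x t)) = r * cos (Θ t) := fun t ht ↦ by
    linear_combination cos (Θ t) * e1 t ht - sin (Θ t) * e2 t ht -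
      gR D F (-log (1 - x t)) * sin_sq_add_cos_sq (Θ t)
  have eη : ∀ t ∈ Icc 0 τ, y t * exp (F * -log (1 - x t)) = r * sin (Θ t) := fun t ht ↦ by
    linear_combination sin (Θ t) * e1 t ht + cos (Θ t) * e2 t ht -
      y t * exp (F * -log (1 - x t)) * sin_sq_add_cos_sq (Θ t)
  have e3 := cst (f := fun t ↦ (∫ θ in (0 : ℝ)..Θ t, Dg D F (uR F) (XR D F (r * cos θ))) - t)
    fun t ht ↦ ((((H.icont aK hrR).integral_hasStrictDerivAt 0 (Θ t)).hasDerivAt.comp t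
      (dΘ t ht)).sub (hasDerivAt_id t)).congr_deriv (by
        have := (gR_deriv_pos (F := F) (mem t ht)).ne'
        rw [← eρ t ht, XR_g (mem t ht), pK _ (mem t ht)]; simp only [Ω]; field_simp; ring)
  have τm : τ ∈ Icc 0 τ := ⟨hτ.le, le_rfl⟩
  have e4 := e3 τ τm
  rw [Θ0, integral_same, sub_zero, sub_eq_zero] at e4
  have cΘ : ContinuousOn Θ (Icc 0 τ) := fun t ht ↦ (dΘ t ht).continuousAt.continuousWithinAt
  have p1 : 0 < Θ τ := Θ0 ▸ strictMonoOn_of_deriv_pos (convex_Icc 0 τ) cΘ (fun t ht ↦ by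
    have ht := interior_subset ht
    rw [(dΘ t ht).deriv]
    exact div_pos (gR_deriv_pos (mem t ht)) (exp_pos _)) ⟨le_rfl, hτ.le⟩ τm hτ
  have p2 : Θ τ = 2 * π := by
    rcases lt_trichotomy (Θ τ) (2 * π) with h | h | h
    · have := eρ τ τm
      rw [h3, hr] at this
      have h7 : cos (Θ τ) = 1 := mul_left_cancel₀ r0.ne' (by linarith)
      exact absurd ((cos_eq_one_iff_of_lt_of_lt (by linarith [pi_pos]) h).1 h7) p1.ne'
    · exact h
    · obtain ⟨t, ht, e⟩ := intermediate_value_Ioo hτ.le cΘ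
        (show 2 * π ∈ Ioo (Θ 0) (Θ τ) from ⟨by rw [Θ0]; positivity, h⟩)
      have ht' := Ioo_subset_Icc_self ht
      have a1 := eρ t ht'
      have a2 := eη t ht'
      rw [e] at a1 a2
      rw [cos_two_pi, mul_one, ← hr] at a1
      rw [sin_two_pi, mul_zero] at a2
      have a3 := congrArg exp (gR_mono.injOn (mem t ht') bJ a1)
      rw [S.expp h1, S.expp h1, inv_inj] at a3
      exact absurd ((mul_eq_zero.1 a2).resolve_right (exp_pos _).ne') (h5 t ht (by linarith))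
  rw [← e4, p2, Av]

theorem rng_of_pair {a b : ℝ} (ha : a ∈ JR D) (hb : b ∈ JR D) (h1 : a < 0) (h2 : 0 < b)
    (e : vR D F a = vR D F b) : ∃ R, gR D F b < R ∧ Rng D F R := by
  obtain ⟨c, c1, c2⟩ := ((((JR_open D).eventually_mem hb).filter_mono
    nhdsWithin_le_nhds).and (self_mem_nhdsWithin : ∀ᶠ r in 𝓝[>] b, r ∈ Ioi b)).exists
  obtain ⟨d, d1, d2⟩ := ((((JR_open D).eventually_mem ha).filter_mono
    nhdsWithin_le_nhds).and (self_mem_nhdsWithin : ∀ᶠ r in 𝓝[<] a, r ∈ Iio a)).exists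
  have e1 : gR D F a = -gR D F b := by
    rw [← gR_sq ha, ← gR_sq hb, sq_eq_sq_iff_eq_or_eq_neg] at e
    have := gR_neg (F := F) ha h1
    have := gR_pos (F := F) hb h2
    rcases e with e | e <;> linarith
  have p1 := gR_mono (F := F) hb c1 c2
  have p2 := gR_mono (F := F) d1 ha d2
  refine ⟨min (gR D F c) (-gR D F d), lt_min p1 (by linarith), fun ρ hρ ↦ ?_⟩
  rw [lt_min_iff, abs_lt, abs_lt] at hρ
  have hdc : d ≤ c := (((d2.trans h1).trans h2).trans c2).le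
  obtain ⟨t, ht, e⟩ := intermediate_value_Icc hdc (f := gR D F)
    (fun t ht ↦ (gR_an (JR_conn d1 c1 ht.1 ht.2)).continuousAt.continuousWithinAt)
    (show ρ ∈ _ from ⟨by linarith [hρ.2.1], hρ.1.2.le⟩)
  exact ⟨t, JR_conn d1 c1 ht.1 ht.2, e⟩

variable (D F) in
/-- the averaged function has no three zeros below a level `gR D F t` that has a partner -/
def NoThree : Prop := ∀ d ∈ JR D, ∀ t ∈ JR D, d < 0 → 0 < t → vR D F d = vR D F t →
  ∀ R, gR D F t < R → Rng D F R → ∀ a b, 0 < a → a < b → b < gR D F t →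
    Jf D F (phi4 D F) a = 0 → Jf D F (phi4 D F) b = 0 → Jf D F (phi4 D F) (gR D F t) = 0 → False

theorem Crit.noThree (C : Crit D F) : NoThree D F :=
  fun _ _ _ _ _ _ _ _ hR H _ _ h0 hab hbc za zb zc ↦ C.no_three H h0 hab hbc hR za zb zc

theorem NoThree.three (C : NoThree D F) {T : ℝ → ℝ} {a b c : ℝ} (h0 : 0 < a) (hab : a < b) (hbc : b < c)
    (P : ∀ s ∈ Ioc 0 c, PerR D F s (T s)) (za : HasDerivAt T 0 a) (zb : HasDerivAt T 0 b)
    (zc : HasDerivAt T 0 c) : False := by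
  have c0 : 0 < c := by linarith
  have c1 : c < 1 := by
    by_contra h
    exact not_per_one (P 1 ⟨one_pos, not_lt.1 h⟩)
  have hJ : ∀ s ∈ Ioc 0 c, 0 < 1 + D * s := fun s hs ↦ by
    by_contra h
    have hD : D < 0 := by by_contra h'; nlinarith [hs.1]
    have h1 : -1 / D ≤ s := by rw [div_le_iff_of_neg hD]; linarith
    refine not_per_equil ?_ (P (-1 / D) ⟨div_pos_of_neg_of_neg (by norm_num) hD, h1.trans hs.2⟩)
    have := hD.ne
    field_simp; ring
  have mem : ∀ s ∈ Ioc 0 c, -log (1 - s) ∈ JR D := fun s hs ↦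
    ((P s hs).pair hs.1 (hs.2.trans_lt c1) (hJ s hs)).1
  have pos : ∀ s ∈ Ioc 0 c, 0 < -log (1 - s) := fun s hs ↦
    neg_pos.2 (log_neg (by linarith [hs.2]) (by linarith [hs.1]))
  have cm : c ∈ Ioc 0 c := ⟨c0, le_rfl⟩
  obtain ⟨-, d, d1, d2, d3⟩ := (P c cm).pair c0 c1 (hJ c cm)
  obtain ⟨R, hR, H⟩ := rng_of_pair d1 (mem c cm) d2 (pos c cm) d3
  have mono : ∀ s ∈ Ioc 0 c, ∀ s' ∈ Ioc 0 c, s < s' →
      gR D F (-log (1 - s)) < gR D F (-log (1 - s')) := fun s hs s' hs' h ↦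
    gR_mono (mem s hs) (mem s' hs') (neg_lt_neg (log_lt_log (by linarith [hs'.2]) (by linarith)))
  have lt : ∀ s ∈ Ioc 0 c, gR D F (-log (1 - s)) < R := fun s hs ↦ by
    rcases hs.2.eq_or_lt with h | h
    · rw [h]; exact hR
    · exact (mono s hs c cm h).trans hR
  have zero : ∀ s ∈ Ioc 0 c, HasDerivAt T 0 s → Jf D F (phi4 D F) (gR D F (-log (1 - s))) = 0 :=
    fun s hs z ↦ by
    have g0 := gR_pos (F := F) (mem s hs) (pos s hs)
    have s1 : 0 < 1 - s := by linarith [hs.2]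
    have d1 := ((gR_an (F := F) (mem s hs)).differentiableAt.hasDerivAt.comp s
      ((((hasDerivAt_id s).const_sub 1).log s1.ne').neg))
    have d2 := (H.t_deriv (by rw [abs_of_pos g0]; exact lt s hs) g0.ne').comp s d1
    have d3 := (d2.hasDerivWithinAt (s := Iic s)).congr_of_eventuallyEq (f₁ := T) (by
      filter_upwards [Ioc_mem_nhdsLE hs.1] with u hu
      have hu' : u ∈ Ioc 0 c := ⟨hu.1, hu.2.trans hs.2⟩
      exact (P u hu').eq hu.1 (hu'.2.trans_lt c1) (hJ u hu') H (lt u hu'))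
      ((P s hs).eq hs.1 (hs.2.trans_lt c1) (hJ s hs) H (lt s hs))
    have d4 := (uniqueDiffWithinAt_Iic s).eq_deriv _ d3 z.hasDerivWithinAt
    have := (gR_deriv_pos (F := F) (mem s hs)).ne'
    simpa [this, g0.ne', s1.ne'] using d4
  have am : a ∈ Ioc 0 c := ⟨h0, by linarith⟩
  have bm : b ∈ Ioc 0 c := ⟨by linarith, hbc.le⟩
  exact C d d1 _ (mem c cm) d2 (pos c cm) d3 R hR H _ _ (gR_pos (mem a am) (pos a am))
    (mono a am b bm hab) (mono b bm c cm hbc) (zero a am za) (zero b bm zb) (zero c cm zc)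

theorem NoThree.card_le (C : NoThree D F) (Per : ℝ → ℝ → Prop)
    (hPer : ∀ u τ : ℝ, Per u τ ↔ (0 < τ ∧ ∃ γ : ℝ → ℝ × ℝ,
        (∀ t : ℝ, HasDerivAt γ (-(γ t).2 + (γ t).1 * (γ t).2,
            (γ t).1 + D * (γ t).1 ^ 2 + F * (γ t).2 ^ 2) t) ∧
        γ 0 = (u, 0) ∧ γ τ = (u, 0) ∧ ∀ t ∈ Set.Ioo (0:ℝ) τ, γ t ≠ (u, 0)))
    (Ann : Set ℝ) (hAnn : ∀ s : ℝ, s ∈ Ann ↔ (0 < s ∧ ∀ u ∈ Set.Ioc (0:ℝ) s, ∃ τ : ℝ, Per u τ))
    (T : ℝ → ℝ) (hT : ∀ s ∈ Ann, Per s (T s)) (S : Finset ℝ)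
    (hS : ∀ s ∈ S, s ∈ Ann ∧ HasDerivAt T 0 s) : S.card ≤ 2 := by
  have key : ∀ a ∈ S, ∀ b ∈ S, ∀ c ∈ S, a < b → b < c → False := fun a ha b hb c hc hab hbc ↦ by
    refine C.three ((hAnn a).1 (hS a ha).1).1 hab hbc (fun s hs ↦ ?_) (hS a ha).2 (hS b hb).2
      (hS c hc).2
    obtain ⟨h0, γ, h1, h2, h3, h4⟩ := (hPer _ _).1 (hT s ((hAnn s).2 ⟨hs.1, fun u hu ↦
      ((hAnn c).1 (hS c hc).1).2 u ⟨hu.1, hu.2.trans hs.2⟩⟩))
    exact ⟨h0, fun t ↦ (γ t).1, fun t ↦ (γ t).2,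
      ⟨fun t ↦ (ContinuousLinearMap.fst ℝ ℝ ℝ).hasFDerivAt.comp_hasDerivAt t (h1 t),
        fun t ↦ (ContinuousLinearMap.snd ℝ ℝ ℝ).hasFDerivAt.comp_hasDerivAt t (h1 t)⟩, by simp [h2], by simp [h2],
      by simp [h3], by simp [h3], fun t ht e1 e2 ↦ h4 t ht (Prod.ext e1 e2)⟩
  by_contra h
  obtain ⟨a, b, c, ha, hb, hc, h1, h2, h3⟩ := Finset.two_lt_card_iff.1 (not_le.1 h)
  rcases h1.lt_or_gt with h1 | h1 <;> rcases h2.lt_or_gt with h2 | h2 <;>
    rcases h3.lt_or_gt with h3 | h3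
  exacts [key a ha b hb c hc h1 h3, key a ha c hc b hb h2 h3, key a ha b hb c hc h1 h3,
    key c hc a ha b hb h2 h1, key b hb a ha c hc h1 h2, key b hb a ha c hc h1 h2,
    key b hb c hc a ha h3 h2, key c hc b hb a ha h3 h1]

end Pool.Agent.Lib.MP_d6150d_an
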