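import Pool.Agent.Lib.MP_d6150d_an.PpCore

/-! Elementary bounds, levels, and the coordinates of the charts. -/

namespace Pool.Agent.Lib.MP_d6150d_an

open Real Set Filter Topology Asymptotics

variable {A B C β D F t u z : ℝ}

theorem ph1_ge (h : 0 ≤ z) : 1 ≤ ph1 z := by
  rcases h.eq_or_lt with rfl | h
  · exact ph1_zero.ge
  · have := add_one_le_exp z
    rw [exp_eq_ph] at this
    nlinarith

theorem ph1_le (h : z ≤ 0) : ph1 z ≤ 1 := by
  rcases h.eq_or_lt with rfl | h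
  · exact ph1_zero.le
  · have := add_one_le_exp z
    rw [exp_eq_ph] at this
    nlinarith

theorem ph1_lb (h : z ≤ 0) : 1 ≤ (1 - z) * ph1 z := by
  rcases h.eq_or_lt with rfl | h
  · simp [ph1_zero]
  · have h1 := add_one_le_exp (-z)
    have h2 : exp z * exp (-z) = 1 := by rw [← exp_add]; simp
    have h3 : exp z * (1 - z) ≤ 1 := by nlinarith [exp_pos z]
    rw [exp_eq_ph] at h3
    nlinarith

theorem exp_lb (n : ℕ) {x : ℝ} (h : n ≤ x) : 2.718 ^ n * (1 + (x - n)) ≤ exp x := by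
  have h1 : (2.718 : ℝ) ^ n ≤ exp n := by
    rw [← exp_one_pow]
    exact pow_le_pow_left₀ (by norm_num) (le_trans (by norm_num) exp_one_gt_d9.le) n
  have h2 := add_one_le_exp (x - n)
  rw [show exp x = exp n * exp (x - n) by rw [← exp_add]; ring_nf]
  exact mul_le_mul h1 (by linarith) (by linarith) (exp_pos _).le

theorem exp_ub (n : ℕ) {x y K c : ℝ} (h : n ≤ x) (hy : y ≤ -x) (hc : 0 ≤ c) (hK : 0 ≤ K)
    (k : c ≤ K * (2.718 ^ n * (1 + (x - n)))) : c * exp y ≤ K := by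
  have h1 := mul_le_mul_of_nonneg_left (exp_lb n h) hK
  have h2 := mul_le_mul_of_nonneg_left (exp_le_exp.2 hy) hc
  refine h2.trans ?_
  rw [exp_neg, ← div_eq_mul_inv, div_le_iff₀ (exp_pos _)]
  linarith

theorem vR_mono_D (hD : 0 ≤ D) : Monotone fun t ↦ vR D F t - vR 0 F t :=
  monotone_of_deriv_nonneg (fun t ↦ ((hasDerivAt_vR D F t).sub
    (hasDerivAt_vR 0 F t)).differentiableAt) fun t ↦ by
      rw [((hasDerivAt_vR D F t).fun_sub (hasDerivAt_vR 0 F t)).deriv,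
        show WR D F t - WR 0 F t = 2 * exp ((2 * F - 2) * t) * (D * (exp t - 1) ^ 2) by
          simp only [WR, om]; ring]
      positivity

theorem lev_zero (F t : ℝ) : 1 + 2 * F * (1 - 2 * F) * (vR 0 F t / 2) =
    exp (2 * F * t) * (2 * F * exp (-t) - 2 * F + 1) := by
  have h1 := exp_eq_ph (2 * F * t)
  have h2 := exp_eq_ph ((2 * F - 1) * t)
  have h3 : exp ((2 * F - 1) * t) = exp (2 * F * t) * exp (-t) := by rw [← exp_add]; ring_nf
  rw [vR_eq]
  linear_combination (2 * F - 1) * h1 - 2 * F * h2 + 2 * F * h3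

theorem lev_pos (hD : 0 ≤ D) (hF : 0 < F) (ht : t ∈ JR D) (h0 : t < 0) :
    0 < 1 + 2 * F * (1 - 2 * F) * (vR D F t / 2) := by
  rcases le_total F (1 / 2) with h | h
  · have := vR_pos (F := F) ht h0.ne
    have : 0 ≤ 1 - 2 * F := by linarith
    positivity
  · have h1 := vR_mono_D (F := F) hD h0.le
    simp only [vR, ne_eq, OfNat.ofNat_ne_zero, not_false_eq_true, zero_pow, zero_mul, sub_self]
      at h1
    have h2 := lev_zero F t
    have h3 := one_lt_exp_iff.2 (neg_pos.2 h0)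
    have h4 : 0 < exp (2 * F * t) * (2 * F * exp (-t) - 2 * F + 1) :=
      mul_pos (exp_pos _) (by nlinarith)
    simp only [vR] at h2 ⊢
    nlinarith [mul_nonneg (mul_nonneg hF.le (by linarith : 0 ≤ 2 * F - 1)) (neg_nonneg.2 h1)]

theorem lev_right (hD : 0 ≤ D) (hF : 1 / 2 ≤ F) {a b : ℝ} (ha : a ∈ JR D) (a0 : a < 0) (b0 : 0 < b)
    (e : vR D F a = vR D F b) : 2 * F - 1 < 2 * F * exp (-b) := by
  have h0 := lev_pos (F := F) hD (by linarith) ha a0
  have h1 := vR_mono_D (F := F) hD b0.le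
  rw [e] at h0
  simp only [vR, ne_eq, OfNat.ofNat_ne_zero, not_false_eq_true, zero_pow, zero_mul, sub_self]
    at h1
  have h2 := lev_zero F b
  simp only [vR] at h0 h2
  have h3 : 0 < exp (2 * F * b) * (2 * F * exp (-b) - 2 * F + 1) := by
    nlinarith [mul_nonneg (mul_nonneg (by linarith : 0 ≤ F) (by linarith : 0 ≤ 2 * F - 1)) h1]
  linarith [(mul_pos_iff_of_pos_left (exp_pos _)).1 h3]

theorem JR_pos (hD : 0 ≤ D) (h : 0 ≤ t) : t ∈ JR D := by
  have := one_le_exp h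
  show 0 < (1 + D) * exp t - D
  nlinarith

/-- the homogeneous form of the separator -/
noncomputable def EH (f0 f1 β a b : ℝ) : ℝ :=
  (√(a + β * b))⁻¹ ^ 3 * (f0 + (f1 + 3 / 2 * β * f0) * b * (√(a + β * b))⁻¹ ^ 2)

theorem EP_EH {f0 f1 c a b v : ℝ} (hc : 0 < c) (ha : a = c ^ 2) (hb : v * a = b) :
    EP f0 f1 β v = c ^ 3 * EH f0 f1 β a b := by
  have : √(a + β * b) = c * √(1 + β * v) := by
    rw [← hb, ha, show c ^ 2 + β * (v * c ^ 2) = c ^ 2 * (1 + β * v) by ring,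
      sqrt_mul (sq_nonneg c), sqrt_sq hc.le]
  rw [EP, EH, this, ← hb, ha, mul_inv]
  generalize (√(1 + β * v))⁻¹ = r
  field_simp

theorem EH_nonneg {f0 f1 a b : ℝ} (ha : 0 < a) (hb : 0 ≤ b) (h0 : 0 ≤ f0)
    (h1 : 0 ≤ f0 + 8 * (f1 + 3 / 2 * (1 / 8) * f0)) : 0 ≤ EH f0 f1 (1 / 8) a b := by
  have h2 : 0 < a + 1 / 8 * b := by positivity
  refine mul_nonneg (by positivity) ?_
  rw [inv_pow, sq_sqrt h2.le, ← div_eq_mul_inv, add_div' _ _ _ h2.ne']
  exact div_nonneg (by nlinarith [mul_nonneg ha.le h0, mul_nonneg hb h1]) h2.le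

theorem EP_zero (f0 f1 v : ℝ) : EP f0 f1 0 v = f0 + f1 * v := by simp [EP]

theorem EH_Z (D F a b : ℝ) : EH (f0P 0 0 1 D F) (f1P 0 0 1 D F) (2 * F * (1 - 2 * D - F) / 3) a b =
    -(√(a + 2 * F * (1 - 2 * D - F) / 3 * b))⁻¹ ^ 3 / 4 := by
  simp only [EH, f0P, f1P, ja2]; ring

variable {q x yi W Y Om : ℝ}

/-- the chart at the center, right side -/
theorem cenR (ht : t ∈ JR D) (h0 : t ≠ 0) (hq : q = exp (-t)) (hy : yi = exp (-(F * t)))
    (hz : z = yi ^ 2) (hW : W = ph1 (-t) * (1 + D - D * q)) (hY : Y = muR D F t * z / 2)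
    (hO : Om = z * (A + B * (vR D F t / 2))) :
    NN F B C Om (pjR F (1 + D) ((1 + 2 * D) * q) (D * q ^ 2)).1
      (pjR F (1 + D) ((1 + 2 * D) * q) (D * q ^ 2)).2.1 Y W t - t * W ^ 5 *
      EP (f0P A B C D F) (f1P A B C D F) β (vR D F t / 2) * yi = t * W ^ 5 * HP A B C β D F t ∧
      t * W = q ^ 2 * wR D t := by
  have h1 : q * exp t = 1 := by rw [hq, ← exp_add]; simp
  have h2 : z = q ^ 2 * exp ((2 - 2 * F) * t) := by
    rw [hz, hy, hq, ← exp_nat_mul, ← exp_nat_mul, ← exp_add]; congr 1; push_cast; ring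
  have h3 : t * W = q ^ 2 * wR D t := by
    have := exp_eq_ph (-t)
    rw [hW, wR_eq, om, ← hq] at *
    linear_combination (1 + D - D * q) * this -
      ((1 + D) * (1 + q * exp t) - (1 + 2 * D) * q) * h1
  refine ⟨hy ▸ NN_eq ht h0 h0 (l := q ^ 2) (by rw [hq]; positivity) ?_ ?_ (by ring) ?_ h3 ?_, h3⟩
  · rw [PR]; linear_combination -(1 + D) * (1 + q * exp t) * h1
  · rw [QR]; linear_combination -(1 + 2 * D) * q * h1
  · rw [hY, h2, yR, vR]; ring
  · rw [hO, h2, yR]; ring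

/-- the chart at the center, left side -/
theorem cenL (ht : t ∈ JR D) (h0 : t ≠ 0) (hq : q = exp (-t)) (hy : yi = exp (-(F * t)))
    (hx : x = exp t) (hz : z = yi ^ 2 * x) (hW : W = ph1 t * (1 + D - D * q))
    (hY : Y = muR D F t * z / 2) (hO : Om = z * (A + B * (vR D F t / 2))) :
    NN F B C Om (pjR F ((1 + D) * x) (1 + 2 * D) (D * q)).1
      (pjR F ((1 + D) * x) (1 + 2 * D) (D * q)).2.1 Y W t - t * W ^ 5 *
      EP (f0P A B C D F) (f1P A B C D F) β (vR D F t / 2) * yi = t * W ^ 5 * HP A B C β D F t ∧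
      t * W = q * wR D t := by
  have h1 : q * exp t = 1 := by rw [hq, ← exp_add]; simp
  have h2 : z = q * exp ((2 - 2 * F) * t) := by
    rw [hz, hy, hq, hx, ← exp_nat_mul, ← exp_add, ← exp_add]; congr 1; push_cast; ring
  have h3 : t * W = q * wR D t := by
    have := exp_eq_ph t
    rw [hW, wR_eq, om]
    linear_combination -(1 + D - D * q) * this - (1 + D) * (exp t - 1) * h1
  refine ⟨hy ▸ NN_eq ht h0 h0 (l := q) (by rw [hq]; positivity) ?_ ?_ (by ring) ?_ h3 ?_, h3⟩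
  · rw [PR, hx]; linear_combination -(1 + D) * exp t * h1
  · rw [QR]; linear_combination -(1 + 2 * D) * h1
  · rw [hY, h2, yR, vR]; ring
  · rw [hO, h2, yR]; ring

variable {rh d c1 la : ℝ}

/-- the coordinates on the left branch -/
theorem left_eq (hu : 0 < u) (r0 : 0 ≤ rh) (r1 : rh < 1) (hF : F ≠ 0) (hx : x = exp (-u))
    (hd : d = rh * x) (hD : D = d / (1 - d)) (hc : c1 = u * ph1 ((2 * F - 1) * u))
    (hl : la = u * ph1 (-((2 - 2 * F) * u))) (hW : W = (1 - x) * (1 - rh))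
    (hY : Y = d * c1 + (c1 - 1 + x) / (2 * F) - rh * la)
    (hO : Om = (1 - d) * A * exp ((2 * F - 1) * u) + B * Y) :
    NN F B C Om (pjR F x (1 + d) rh).1 (pjR F x (1 + d) rh).2.1 Y W (-1) + W ^ 5 *
      (EP (f0P A B C D F) (f1P A B C D F) β (vR D F (-u) / 2) * exp (F * u)) =
      -(W ^ 5 * HP A B C β D F (-u)) ∧
      vR D F (-u) / 2 * exp ((2 * F - 1) * u) = (1 + D) * Y ∧ 0 < vR D F (-u) ∧ 0 < W ∧
      (1 - d) * A * exp ((2 * F - 1) * u) + A * (2 * F * (1 - 2 * F)) * Y =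
        A * (2 * F * (1 + d) - (2 * F - 1) * x - (1 + 2 * F) * rh + 2 * rh * la) := by
  have x0 : 0 < x := hx ▸ exp_pos _
  have x1 : x < 1 := hx ▸ exp_lt_one_iff.2 (by linarith)
  have d1 : 0 < 1 - d := by rw [hd]; nlinarith
  have hD1 : (1 + D) * (1 - d) = 1 := by rw [hD]; field_simp; ring
  have ht : -u ∈ JR D := by
    show 0 < (1 + D) * exp (-u) - D
    refine (mul_pos_iff_of_pos_left d1).1 ?_
    rw [← hx, show (1 - d) * ((1 + D) * x - D) = x * (1 - rh) by
      linear_combination (x - 1) * hD1 - hd]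
    exact mul_pos x0 (by linarith)
  have h0 : -u ≠ 0 := by linarith
  have e1 := exp_eq_ph ((2 * F - 1) * u)
  have e2 := exp_eq_ph (-((2 - 2 * F) * u))
  have e3 : exp (-((2 - 2 * F) * u)) = x * exp ((2 * F - 1) * u) := by
    rw [hx, ← exp_add]; ring_nf
  have e4 := exp_eq_ph (2 * F * -u)
  have e5 : exp (2 * F * -u) * exp ((2 * F - 1) * u) = x := by rw [hx, ← exp_add]; ring_nf
  have hv : vR D F (-u) / 2 * exp ((2 * F - 1) * u) = (1 + D) * Y := by
    have f1 := ph1_neg ((2 * F - 1) * u)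
    have f2 := ph1_neg (-((2 - 2 * F) * u))
    rw [show -((2 * F - 1) * u) = (2 * F - 1) * -u by ring] at f1
    rw [show - -((2 - 2 * F) * u) = (2 * F - 2) * -u by ring, e3] at f2
    have f3 : -u * ph1 (2 * F * -u) = (exp (2 * F * -u) - 1) / (2 * F) := by
      rw [e4]; field_simp; ring
    have f4 : D * x⁻¹ = (1 + D) * rh := by
      field_simp; linear_combination hD1 + (1 + D) * hd
    have f5 : exp ((2 * F - 1) * u) * ph1 ((2 * F - 2) * -u) = x⁻¹ * ph1 (-((2 - 2 * F) * u)) := by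
      rw [f2]; field_simp
    rw [vR_eq, f3, hY, hc, hl]
    linear_combination (1 + D) / (2 * F) * e5 - (1 + D) / (2 * F) * e1 - (1 + 2 * D) * u * f1 -
      D * u * f5 - u * ph1 (-((2 - 2 * F) * u)) * f4 + u * ph1 ((2 * F - 1) * u) * hD1 -
      (1 + D) * u * ph1 ((2 * F - 1) * u) * mul_inv_cancel₀ hF
  have e6 : exp ((2 - 2 * F) * -u) = x * exp ((2 * F - 1) * u) := by rw [← e3]; ring_nf
  have hy : (-1) ^ 2 * Y = (1 - d) / x * yR D F (-u) := by
    rw [yR, e6]
    generalize exp ((2 * F - 1) * u) = ζ at hv ⊢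
    field_simp; linear_combination -2 * (1 - d) * hv - 2 * Y * hD1
  have := NN_eq (A := A) (B := B) (C := C) (β := β) ht h0 (s := -1) (l := (1 - d) / x) (by norm_num)
    (by positivity) (P := x) (Q := 1 + d) (R := rh) (W := W) (Om := Om)
    (by rw [PR, ← hx]; field_simp; linear_combination -hD1)
    (by rw [QR, ← hx]; field_simp; linear_combination -2 * hD1)
    (by field_simp; linear_combination -hD1 - hd) hy
    (by rw [wR_eq, om, ← hx, hW]; field_simp; linear_combination (1 - x) * (x - 1) * hD1 + (x - 1) * hd)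
    (by rw [hO, mul_add, mul_left_comm _ B, ← hy, e6]; field_simp)
  rw [show -(F * -u) = F * u by ring] at this
  refine ⟨by linear_combination this, hv, vR_pos ht h0, hW ▸ mul_pos (by linarith) (by linarith), ?_⟩
  have f6 : 2 * F * Y = 2 * F * (d * c1 - rh * la) + (c1 - 1 + x) := by rw [hY]; field_simp; ring
  rw [hc, hl] at *
  linear_combination A * (1 - 2 * F) * f6 + A * (1 + 2 * F * d) * e1 - A * (1 + 2 * F) * rh * e2 +
    A * (1 + 2 * F) * rh * e3 - A * (1 + 2 * F) * exp ((2 * F - 1) * u) * hd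

theorem left_par (hD : 0 ≤ D) (ht : t ∈ JR D) : ∃ rh, 0 ≤ rh ∧ rh < 1 ∧ (0 < D → 0 < rh) ∧
    D = rh * exp t / (1 - rh * exp t) := by
  have h : 0 < (1 + D) * exp t := by positivity
  refine ⟨D / ((1 + D) * exp t), by positivity, (div_lt_one h).2 (sub_pos.1 ht),
    fun _ ↦ by positivity, ?_⟩
  field_simp
  ring

theorem left_sign (hu : 0 < u) (hW : 0 < W) {h : ℝ} (k : 0 < -(W ^ 5 * h)) : 0 < -u * h := by
  have : 0 < -h := pos_of_mul_pos_right (a := W ^ 5) (by linarith) (by positivity)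
  nlinarith

end Pool.Agent.Lib.MP_d6150d_an
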