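import Pool.Agent.Lib.MP_d6150d_an.PpAux

/-! The two cells, and the forms of the kernel in the coordinates of the far charts. -/

namespace Pool.Agent.Lib.MP_d6150d_an

open Real Set Filter Topology Asymptotics

variable {A B C β D F t u : ℝ}

/-- order zero -/
noncomputable def HZ (D F : ℝ) : ℝ → ℝ := HP 0 0 1 (2 * F * (1 - 2 * D - F) / 3) D F

/-- order one -/
noncomputable def HO (D F : ℝ) : ℝ → ℝ := HP 1 (2 * F * (1 - 2 * F)) (9 / 8 - 4 * F) (1 / 8) D F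

theorem HZ_iso (hD : D = 0) (hF : F = 1 / 4) (h0 : t ≠ 0) : HZ D F t = 0 := by
  rw [hD, hF, HZ, show (2 * (1 / 4) * (1 - 2 * 0 - 1 / 4) / 3 : ℝ) = 1 / 8 by norm_num]
  exact HP_iso1 h0

theorem HO_iso (hD : D = 0) (hF : F = 1 / 4) (h0 : t ≠ 0) : HO D F t = 0 := by
  rw [hD, hF]; exact HP_iso1 h0

theorem HP_VR (hF : F ≠ 0) {c G : ℝ → ℝ} (j : ℕ) (hc : Continuous c)
    (e : ∀ u, 0 < u → u ∈ JR D → G u = c u * u ^ j * HP A B C β D F u) :
    G =O[𝓝[>] 0] fun u ↦ u ^ (j + 3) :=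
  HP_V hF one_ne_zero j hc.continuousAt fun u h k ↦ by rw [one_mul] at *; exact e u h k

theorem HP_VL (hF : F ≠ 0) {c G : ℝ → ℝ} (j : ℕ) (hc : Continuous c)
    (e : ∀ u, 0 < u → -u ∈ JR D → G u = c u * u ^ j * HP A B C β D F (-u)) :
    G =O[𝓝[>] 0] fun u ↦ u ^ (j + 3) :=
  HP_V hF (σ := -1) (by norm_num) j hc.continuousAt fun u h k ↦ by
    rw [neg_one_mul] at *; exact e u h k

theorem ph1_cont : Continuous ph1 := continuous_iff_continuousAt.2 fun z ↦ (ph1_an z).continuousAt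

theorem cW_pos (ht : t ∈ JR D) : 0 < 1 + D - D * exp (-t) := by
  have h1 : exp (-t) * exp t = 1 := by rw [← exp_add]; simp
  have h2 := mul_pos (exp_pos (-t)) (show 0 < (1 + D) * exp t - D from ht)
  have : exp (-t) * ((1 + D) * exp t - D) = 1 + D - D * exp (-t) := by
    linear_combination (1 + D) * h1
  linarith

theorem JR_zero (t : ℝ) : t ∈ JR 0 := by simpa [JR, om] using exp_pos t

theorem rsq_eq {a c : ℝ} (hc : 0 < c) (h : a = c ^ 2) : c⁻¹ = (√a)⁻¹ := by rw [h, sqrt_sq hc.le]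

theorem EH_sq {f0 f1 a b c : ℝ} (hc : 0 < c) (h : a + β * b = c ^ 2) :
    c⁻¹ ^ 3 * (f0 + (f1 + 3 / 2 * β * f0) * b * c⁻¹ ^ 2) = EH f0 f1 β a b := by
  rw [EH, ← rsq_eq hc h]

theorem EH_pos {f0 f1 a b : ℝ} (ha : 0 < a) (hb : 0 ≤ b) (h0 : 0 ≤ f0) (F0 : 0 ≤ F) (F1 : F ≤ 1)
    (h1 : 0 ≤ f0 * (5 / 16 - F * B) + f1) (h2 : 0 ≤ a + B * b) : 0 ≤ EH f0 f1 (1 / 8) a b := by
  have h3 : 0 < a + 1 / 8 * b := by positivity
  refine mul_nonneg (by positivity) ?_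
  rw [inv_pow, sq_sqrt h3.le, ← div_eq_mul_inv, add_div' _ _ _ h3.ne']
  refine div_nonneg ?_ h3.le
  have := mul_nonneg h0 (add_nonneg (mul_nonneg (sub_nonneg.2 F1) ha.le) (mul_nonneg F0 h2))
  nlinarith [mul_nonneg hb h1]

theorem ph1_div {a : ℝ} (ha : a ≠ 0) (u : ℝ) : (1 - exp (a * u)) / -a = u * ph1 (a * u) := by
  rw [exp_eq_ph]; field_simp; ring

variable {rh x d c1 la W Y ze k Om : ℝ}

theorem EP_left {f0 f1 : ℝ} (hz : ze = exp ((2 * F - 1) * u)) (hk : k = exp ((4 * F - 3 / 2) * u))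
    {v b : ℝ} (h : v * exp ((2 * F - 1) * u) = b) :
    EP f0 f1 β v * exp (F * u) = k * EH f0 f1 β ze b := by
  rw [EP_EH (c := exp ((F - 1 / 2) * u)) (a := ze) (exp_pos _)
    (by rw [hz, ← exp_nat_mul]; congr 1; push_cast; ring) (hz ▸ h), hk, mul_right_comm,
    ← exp_nat_mul, ← exp_add]
  congr 2; push_cast; ring

theorem left0 (hu : 0 < u) (r0 : 0 ≤ rh) (r1 : rh < 1) (F0 : 0 < F) (F1 : F < 1 / 2)
    (hx : x = exp (-u)) (hd : d = rh * x) (hD : D = d / (1 - d))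
    (hz : ze = exp ((2 * F - 1) * u)) (hk : k = exp ((4 * F - 3 / 2) * u))
    (hc : c1 = (1 - ze) / (1 - 2 * F)) (hl : la = (1 - x * ze) / (2 - 2 * F))
    (hW : W = (1 - x) * (1 - rh)) (hY : Y = d * c1 + (c1 - 1 + x) / (2 * F) - rh * la) :
    W ^ 3 * (1 - k * (√(ze + 2 * F * (1 - 2 * D - F) / 3 * ((1 + D) * Y)))⁻¹ ^ 3) +
      4 * F * Y * ((pjR F x (1 + d) rh).1 * Y + W ^ 2) = -(W ^ 3 * (4 * HZ D F (-u))) ∧ 0 < W := by
  obtain ⟨h1, h2, -, h3, -⟩ := left_eq (A := 0) (B := 0) (C := 1) (β := 2 * F * (1 - 2 * D - F) / 3)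
    hu r0 r1 F0.ne' hx hd hD (c1 := c1) (la := la)
    (by rw [hc, hz, ← ph1_div (by linarith), neg_sub])
    (by rw [hl, hz, hx, ← exp_add, ← neg_mul (2 - 2 * F), ← ph1_div (by linarith), neg_neg]
        congr 3; ring) hW hY rfl
  rw [EP_left hz hk h2, EH_Z, NN] at h1
  refine ⟨mul_left_cancel₀ (pow_ne_zero 2 h3.ne') ?_, h3⟩
  rw [HZ]
  linear_combination 4 * h1

theorem left1 (hu : 0 < u) (r0 : 0 ≤ rh) (r1 : rh < 1) (F0 : F ≠ 0)
    (hx : x = exp (-u)) (hd : d = rh * x) (hD : D = d / (1 - d))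
    (hz : ze = exp ((2 * F - 1) * u)) (hk : k = exp ((4 * F - 3 / 2) * u))
    (hc : c1 = u * ph1 ((2 * F - 1) * u)) (hl : la = u * ph1 (-((2 - 2 * F) * u)))
    (hW : W = (1 - x) * (1 - rh)) (hY : Y = d * c1 + (c1 - 1 + x) / (2 * F) - rh * la)
    (hO : Om = 2 * F * (1 + d) - (2 * F - 1) * x - (1 + 2 * F) * rh + 2 * rh * la)
    (hB : B = 2 * F * (1 - 2 * F)) (hC : C = 9 / 8 - 4 * F) :
    NN F B C Om (pjR F x (1 + d) rh).1 (pjR F x (1 + d) rh).2.1 Y W (-1) + W ^ 5 *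
      (k * EH (f0P 1 B C D F) (f1P 1 B C D F) (1 / 8) ze ((1 + D) * Y)) =
      -(W ^ 5 * HO D F (-u)) ∧ 0 < W ∧ vR D F (-u) / 2 * ze = (1 + D) * Y ∧
      k * EH (f0P 1 B C D F) (f1P 1 B C D F) (1 / 8) ze ((1 + D) * Y) =
        EP (f0P 1 B C D F) (f1P 1 B C D F) (1 / 8) (vR D F (-u) / 2) * exp (F * u) := by
  obtain ⟨h1, h2, -, h3, h4⟩ := left_eq (A := 1) (B := B) (C := C) (β := 1 / 8)
    hu r0 r1 F0 hx hd hD hc hl hW hY rfl
  have h5 := EP_left (f0 := f0P 1 B C D F) (f1 := f1P 1 B C D F) (β := 1 / 8) hz hk h2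
  simp only [one_mul] at h4
  rw [← hB, ← hO] at h4
  rw [h4] at h1
  exact ⟨by rw [← h5, h1, HO, ← hB, ← hC], h3, hz ▸ h2, h5.symm⟩

variable {q z g gi m g1 g2 : ℝ}

/-- the coordinates far on the right branch -/
theorem right_eq (h0 : 0 < t) (hD : 0 ≤ D) (F0 : F ≠ 0) (F1 : F ≠ 1) (hq : q = exp (-t))
    (hz : z = exp (-(F * t)) ^ 2) (hg : g = (1 - q) * (1 + D - D * q)) (hi : gi = 1 / g)
    (h1 : g1 = (1 + 2 * D - 2 * D * q) * gi) (h2 : g2 = (1 + 2 * D - 4 * D * q) * gi)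
    (hm : m = ((D * (z - q ^ 2) / (1 - F) - (1 + 2 * D) * (q * (t * ph1 ((1 - 2 * F) * t)))) *
      gi / 2 + 1 / 2) / F) :
    HP A B C β D F t = F * (A * z * gi + B * m) *
      ((3 * F ^ 2 + 5 * F * q * g1 + 3 * q ^ 2 * g1 ^ 2 + q * g2) * m ^ 2 - (F + q * g1) * m - 1 / 4) +
      (C + B / 2) * (F * m * (1 - (F + q * g1) * m) - 1 / 4) + B * (1 / 2 - F * m) -
      z ^ 2 * EH (f0P A B C D F) (f1P A B C D F) β z (g * m) := by
  have ht := JR_pos hD h0.le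
  have q1 : q < 1 := hq ▸ exp_lt_one_iff.2 (by linarith)
  have g0 : 0 < g := hg ▸ mul_pos (by linarith) (hq ▸ cW_pos ht)
  have e1 : q * exp t = 1 := by rw [hq, ← exp_add]; simp
  have e2 : z = q ^ 2 * exp ((2 - 2 * F) * t) := by
    rw [hz, hq, ← exp_nat_mul, ← exp_nat_mul, ← exp_add]; congr 1; push_cast; ring
  have F2 : 1 - F ≠ 0 := sub_ne_zero.2 F1.symm
  have hv : vR D F t / 2 * z = g * m := by
    have f1 := exp_eq_ph (2 * F * t)
    have f2 := exp_eq_ph ((2 * F - 2) * t)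
    have f3 := exp_eq_ph ((1 - 2 * F) * t)
    have f4 := ph1_neg ((1 - 2 * F) * t)
    have f5 : z * exp (2 * F * t) = 1 := by
      rw [hz, ← exp_nat_mul, ← exp_add, ← exp_zero]; congr 1; push_cast; ring
    have f6 : z * exp ((2 * F - 2) * t) = q ^ 2 := by
      rw [e2, mul_assoc, ← exp_add]; ring_nf; simp
    have f7 : q * exp ((1 - 2 * F) * t) = z := by
      rw [hz, hq, ← exp_nat_mul, ← exp_add]; congr 1; push_cast; ring
    rw [show -((1 - 2 * F) * t) = (2 * F - 1) * t by ring] at f4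
    have f8 : g * m = (D * (z - q ^ 2) / (1 - F) - (1 + 2 * D) * (q * (t * ph1 ((1 - 2 * F) * t))) +
      g) / (2 * F) := by rw [hm, hi]; field_simp
    rw [f8, vR_eq, hg]
    generalize ph1 (2 * F * t) = a1 at *
    generalize ph1 ((2 * F - 2) * t) = a2 at *
    generalize ph1 ((1 - 2 * F) * t) = a3 at *
    generalize ph1 ((2 * F - 1) * t) = a4 at *
    field_simp
    linear_combination (1 - F) * (1 + D) * (f5 - z * f1) - F * D * (f6 - z * f2) +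
      (1 - F) * (1 + 2 * D) * (f7 - q * f3 + 2 * F * t * (q * f4 + a4 * f7))
  have := NN_eq (A := A) (B := B) (C := C) (β := β) (F := F) ht h0.ne' one_ne_zero (l := q ^ 2)
    (by rw [hq]; positivity) (P := 1 + D) (Q := (1 + 2 * D) * q) (R := D * q ^ 2) (Y := g * m)
    (W := g) (Om := A * z + B * (g * m))
    (by rw [PR]; linear_combination -(1 + D) * (1 + q * exp t) * e1)
    (by rw [QR]; linear_combination -(1 + 2 * D) * q * e1) (by ring)
    (by rw [← hv, e2, yR]; ring)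
    (by rw [wR_eq, om, hg]
        linear_combination -((1 + D) * (1 + q * exp t) - (1 + 2 * D) * q) * e1)
    (by rw [← hv, e2, yR]; ring)
  rw [EP_EH (exp_pos (-(F * t))) hz hv] at this
  have p2 : (pjR F (1 + D) ((1 + 2 * D) * q) (D * q ^ 2)).1 = -(g * (F + q * g1)) := by
    rw [h1, hi]; field_simp; simp only [pjR, hg]; ring
  have p3 : (pjR F (1 + D) ((1 + 2 * D) * q) (D * q ^ 2)).2.1 =
      g ^ 2 * (3 * F ^ 2 + 5 * F * q * g1 + 3 * q ^ 2 * g1 ^ 2 + q * g2) := by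
    rw [h1, h2, hi]; field_simp; simp only [pjR, hg]; ring
  rw [p2, p3, NN] at this
  refine mul_left_cancel₀ (pow_ne_zero 5 g0.ne') ?_
  have e3 : g * gi = 1 := by rw [hi]; field_simp
  rw [show z ^ 2 = exp (-(F * t)) ^ 4 by rw [hz]; ring]
  generalize 3 * F ^ 2 + 5 * F * q * g1 + 3 * q ^ 2 * g1 ^ 2 + q * g2 = S at *
  linear_combination -this - g ^ 4 * F * A * z * (S * m ^ 2 - (F + q * g1) * m - 1 / 4) * e3

theorem ph1_ratio {c : ℝ} (hc : c ≤ 1 / 2) (ht : 3 ≤ t) :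
    t * ph1 (c * t) ≤ ph1 (c * 3) / ph1 (3 / 2) * (t * ph1 (1 / 2 * t)) := by
  generalize hp : ph1 (c * 3) / ph1 (3 / 2) = p
  have hd : ∀ t, HasDerivAt (fun t ↦ p * (t * ph1 (1 / 2 * t)) - t * ph1 (c * t))
      (p * exp (1 / 2 * t) - exp (c * t)) t := fun t ↦
    ((hasDerivAt_ph1 (1 / 2) t).const_mul p).sub (hasDerivAt_ph1 c t)
  have h3 : p * (3 * ph1 (1 / 2 * 3)) - 3 * ph1 (c * 3) = 0 := by
    have := (ph1_pos (3 / 2)).ne'
    rw [← hp, show (1 / 2 * 3 : ℝ) = 3 / 2 by norm_num]; field_simp; ring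
  obtain ⟨s, hs, e⟩ := exists_hasDerivAt_eq_zero (a := 0) (b := 3) (by norm_num)
    (fun t _ ↦ (hd t).continuousAt.continuousWithinAt) (by simpa using h3.symm) fun t _ ↦ hd t
  have := monotoneOn_of_deriv_nonneg (convex_Ici 3)
    (fun t _ ↦ (hd t).continuousAt.continuousWithinAt)
    (fun t _ ↦ (hd t).differentiableAt.differentiableWithinAt) (fun t ht ↦ by
      rw [interior_Ici] at ht
      have h1 : 3 < t := ht
      rw [(hd t).deriv, show 1 / 2 * t = 1 / 2 * s + 1 / 2 * (t - s) by ring, exp_add, ← mul_assoc,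
        sub_eq_zero.1 e, ← exp_add, sub_nonneg, exp_le_exp]
      nlinarith [hs.2]) self_mem_Ici ht ht
  simp only [h3] at this
  linarith

end Pool.Agent.Lib.MP_d6150d_an
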