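import Pool.Agent.Lib.MP_d6150d_an.KNJ
import Pool.Agent.Lib.MP_d6150d_an.GMac
import Pool.Agent.Lib.MP_d6150d_an.PpChk

/-! A three parameter family of operators of order one and its separators. -/

namespace Pool.Agent.Lib.MP_d6150d_an

open Real Set Filter Topology Asymptotics

/-- the operator -/
noncomputable def oP (A B C : ℝ) : Gp := ⟨0, 0, 0, 0, A, -4 * A, 0, B / 2, C - 2 * B, 0, 0, 0⟩

/-- the homogeneous form of the kernel -/
noncomputable def NN (F B C Om p2 p3 Y W s : ℝ) : ℝ :=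
  F * Om * (p3 * Y ^ 2 + p2 * Y * W ^ 2 - W ^ 4 / 4) +
    (C + B / 2) * s * W ^ 2 * (F * s * Y * (p2 * Y + W ^ 2) - W ^ 3 / 4) +
    B * s * W ^ 4 * (W / 2 - F * s * Y)

/-- the same on the left branch, with one more scaling -/
noncomputable def NB (F B C Om p2 p3 V b W : ℝ) : ℝ :=
  F * Om * (p3 * V ^ 2 + p2 * V * b * W ^ 2 - b ^ 2 * W ^ 4 / 4) +
    (C + B / 2) * W ^ 2 * (F * V * (p2 * V + b * W ^ 2) + b ^ 2 * W ^ 3 / 4) -
    B * b * W ^ 4 * (b * W / 2 + F * V)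

theorem NB_eq (F B C Om p2 p3 Y b W : ℝ) :
    NB F B C Om p2 p3 (b * Y) b W = b ^ 2 * NN F B C Om p2 p3 Y W (-1) := by
  simp only [NB, NN]; ring

/-- the separator -/
noncomputable def EP (f0 f1 β v : ℝ) : ℝ :=
  (√(1 + β * v))⁻¹ ^ 3 * (f0 + (f1 + 3 / 2 * β * f0) * v * (√(1 + β * v))⁻¹ ^ 2)

noncomputable def f0P (A B C D F : ℝ) : ℝ := 3 * B / 8 - C / 4 - A * F * ja2 D F / 2

noncomputable def f1P (A B C D F : ℝ) : ℝ := F * (3 / 2 * (C - B / 2) * ja2 D F + 6 * A * ja4 D F)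

/-- the function whose sign is studied -/
noncomputable def HP (A B C β D F t : ℝ) : ℝ :=
  (F * (oP A B C).K D F t / (4 * vR D F t ^ 2) + (3 * B / 8 - C / 4) -
    EP (f0P A B C D F) (f1P A B C D F) β (vR D F t / 2)) * exp (-(F * t))

variable {A B C β D F t l s P Q R Y W Om : ℝ}

theorem NN_eq (ht : t ∈ JR D) (h0 : t ≠ 0) (hs : s ≠ 0) (hl : l ≠ 0)
    (hP : P = l * PR D t) (hQ : Q = l * QR D t) (hR : R = l * D) (hY : s ^ 2 * Y = l * yR D F t)
    (hW : s * W = l * wR D t) (hO : Om = l * (A * exp ((2 - 2 * F) * t) + B * yR D F t)) :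
    NN F B C Om (pjR F P Q R).1 (pjR F P Q R).2.1 Y W s - s * W ^ 5 *
      EP (f0P A B C D F) (f1P A B C D F) β (vR D F t / 2) * exp (-(F * t)) =
      s * W ^ 5 * HP A B C β D F t := by
  have hw := wR_ne ht h0
  have hv := (vR_pos (F := F) ht h0).ne'
  have hy := (exp_pos (F * t)).ne'
  have hu : exp (F * t) = 1 + F * uR F t := by rw [uR, exp_eq_ph (F * t)]; ring
  obtain rfl : Y = l * yR D F t / s ^ 2 := by rw [← hY]; field_simp
  obtain rfl : W = l * wR D t / s := by rw [← hW]; field_simp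
  subst hP hQ hR hO
  rw [HP, Gp.K_eq ht h0, exp_neg]
  simp only [pjR_smul, U1, U2, U3, NN, oP, Gp.P, Gp.C3, Gp.C2, Gp.C1, Gp.C0, yR]
  generalize EP _ _ _ _ = E
  rw [hu] at hy ⊢
  field_simp
  ring

theorem HP_sign (ht : t ∈ JR D) (h0 : t ≠ 0) (hl : 0 < l) (hW : s * W = l * wR D t) {x : ℝ}
    (h : 0 < s * W ^ 5 * x) : 0 < t * x := by
  have h1 : 0 < t * wR D t := by
    rw [wR_eq, ← mul_assoc]
    refine mul_pos ?_ ht
    rcases h0.lt_or_gt with h | h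
    · exact mul_pos_of_neg_of_neg h (sub_neg.2 (exp_lt_one_iff.2 h))
    · exact mul_pos h (sub_pos.2 (one_lt_exp_iff.2 h))
  have h2 : 0 < (l * wR D t) * x := by
    rw [← hW]
    refine pos_of_mul_pos_right (a := W ^ 4) ?_ (by positivity)
    linarith
  have h3 : 0 < (l * wR D t ^ 2) * (t * x) := by nlinarith [mul_pos h1 h2]
  exact pos_of_mul_pos_right h3 (by positivity)

theorem HP_noThree (hF : 0 < F) (hQ : ∀ a ∈ JR D, a < 0 → 0 ≤ A + B * (vR D F a / 2))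
    (hL : ∀ a ∈ JR D, a < 0 → 0 < a * HP A B C β D F a)
    (hR : ∀ a ∈ JR D, ∀ b, a < 0 → 0 < b → vR D F a = vR D F b → 0 < b * HP A B C β D F b) :
    NoThree D F := by
  refine Crit1.noThree ⟨oP A B C, 1, fun h ↦ by simp [oP, Gp.P], fun a ha b hb a0 b0 e ↦ ⟨?_, ?_⟩⟩
  · have := mul_nonneg (vR_pos (F := F) ha a0.ne).le (hQ a ha a0)
    rw [← e]
    simp only [oP, Gp.Q]
    linarith
  · have p1 := neg_of_mul_pos_right (hL a ha a0) a0.le
    have p2 := (mul_pos_iff_of_pos_left b0).1 (hR a ha b a0 b0 e)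
    rw [HP] at p1 p2
    have p1 := neg_of_mul_neg_left p1 (exp_pos _).le
    have p2 := (mul_pos_iff_of_pos_right (exp_pos _)).1 p2
    rw [e] at p1
    have hv := vR_pos (F := F) hb b0.ne'
    have : F * (oP A B C).K D F a / (4 * vR D F b ^ 2) <
        F * (oP A B C).K D F b / (4 * vR D F b ^ 2) := by linarith
    rw [div_lt_div_iff_of_pos_right (by positivity)] at this
    simpa using (mul_lt_mul_iff_right₀ hF).1 this

theorem bigO_div {k c G : ℝ → ℝ} (hk : k =O[𝓝 0] fun t ↦ t ^ 7) (hc : ContinuousAt c 0)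
    (e : ∀ᶠ t in 𝓝[≠] 0, G t * t ^ 4 = c t * k t) : G =O[𝓝[≠] 0] fun t ↦ t ^ 3 := by
  obtain ⟨K, hK⟩ := ((hc.isBigO_one ℝ).mul hk).bound
  refine .of_bound K ?_
  filter_upwards [e, nhdsWithin_le_nhds hK, self_mem_nhdsWithin] with t e h h0
  rw [← e, one_mul, norm_mul, show t ^ 7 = t ^ 3 * t ^ 4 by ring, norm_mul, ← mul_assoc] at h
  exact le_of_mul_le_mul_right h (norm_pos_iff.2 (pow_ne_zero 4 h0))

theorem HP_bigO (hF : F ≠ 0) : HP A B C β D F =O[𝓝[≠] 0] fun t ↦ t ^ 3 := by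
  obtain ⟨a6, J⟩ := (oP A B C).K_jet (D := D) (F := F)
  have z := zero_mem_JR D
  let r : ℝ → ℝ := fun h ↦ (√(1 + β * (h / 2)))⁻¹
  have cr : ContinuousAt r 0 := ContinuousAt.inv₀ (by fun_prop) (by simp)
  have r1 : 1 + r 0 ≠ 0 := by simp [r]
  have := (J.cast (b0 := 0) (b1 := 0) (b2 := 0) (b3 := 0) (b4 := -2 * A * ja2 D F) (b5 := 0)
    (b6 := 12 * A * ja4 D F + 3 * (C - B / 2) * ja2 D F) rfl rfl rfl (by simp [oP])
    (by simp only [oP]; ring) (by simp only [oP]; ring) (by simp only [oP]; ring)).center7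
    (E := fun h ↦ (f0P A B C D F * β ^ 2 * r h ^ 2 * (r h ^ 3 + 2 * r h ^ 2 + 3 * r h + 3 / 2) /
      (1 + r h) ^ 2 - (f1P A B C D F + 3 / 2 * β * f0P A B C D F) * β * r h ^ 2 *
      (1 + r h + r h ^ 2 + r h ^ 3 + r h ^ 4) / (1 + r h)) / F)
    (by have r2 := pow_ne_zero 2 r1; fun_prop (disch := assumption))
  refine bigO_div this (c := fun t ↦ F * exp (-(F * t)) / (4 * muR D F t ^ 2))
    (ContinuousAt.div (by fun_prop) (continuousAt_const.mul ((muR_an D F 0).continuousAt.pow 2))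
      (by simp [muR_zero])) ?_
  have c2 : ContinuousAt (fun t ↦ 1 + β * (vR D F t / 2)) 0 :=
    continuousAt_const.add (continuousAt_const.mul (vR_cont.continuousAt.div_const 2))
  filter_upwards [nhdsWithin_le_nhds ((JR_open D).mem_nhds z), self_mem_nhdsWithin,
    nhdsWithin_le_nhds (c2.eventually (lt_mem_nhds (a := 0) (by simp [vR])))] with t ht h0 h1
  have h0 : t ≠ 0 := h0
  have hm := (muR_pos (F := F) ht).ne'
  have h2 : 0 < r (vR D F t) := inv_pos.2 (sqrt_pos.2 h1)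
  have h3 : r (vR D F t) ^ 2 * (1 + β * (vR D F t / 2)) = 1 := by
    simp only [r]
    rw [inv_pow, sq_sqrt h1.le, inv_mul_cancel₀ h1.ne']
  have h4 : EP (f0P A B C D F) (f1P A B C D F) β (vR D F t / 2) = r (vR D F t) ^ 3 *
    (f0P A B C D F + (f1P A B C D F + 3 / 2 * β * f0P A B C D F) * (vR D F t / 2) *
      r (vR D F t) ^ 2) := rfl
  rw [HP, h4]
  generalize r (vR D F t) = x at *
  have h5 : β * vR D F t = 2 * (1 - x ^ 2) / x ^ 2 := by field_simp; linarith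
  have h6 : x ^ 3 * (f0P A B C D F + (f1P A B C D F + 3 / 2 * β * f0P A B C D F) * (vR D F t / 2) *
      x ^ 2) = f0P A B C D F + f1P A B C D F * (vR D F t / 2) +
      (f0P A B C D F * (β * vR D F t) ^ 2 * x ^ 2 * (x ^ 3 + 2 * x ^ 2 + 3 * x + 3 / 2) /
      (1 + x) ^ 2 - (f1P A B C D F * vR D F t + 3 / 2 * (β * vR D F t) * f0P A B C D F) *
      (β * vR D F t) * x ^ 2 * (1 + x + x ^ 2 + x ^ 3 + x ^ 4) / (1 + x)) / 4 := by
    have : x ^ 3 * (f0P A B C D F + (f1P A B C D F + 3 / 2 * β * f0P A B C D F) * (vR D F t / 2) *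
      x ^ 2) = x ^ 3 * (f0P A B C D F + (f1P A B C D F * vR D F t + 3 / 2 * (β * vR D F t) *
        f0P A B C D F) / 2 * x ^ 2) := by ring
    rw [this, h5]
    field_simp
    ring
  rw [h6]
  simp only [f0P, f1P, vR]
  field_simp
  ring

theorem HP_V (hF : F ≠ 0) {σ : ℝ} (hσ : σ ≠ 0) {c G : ℝ → ℝ} (j : ℕ) (hc : ContinuousAt c 0)
    (e : ∀ u, 0 < u → σ * u ∈ JR D → G u = c u * u ^ j * HP A B C β D F (σ * u)) :
    G =O[𝓝[>] 0] fun u ↦ u ^ (j + 3) := by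
  have c1 : Tendsto (fun u : ℝ ↦ σ * u) (𝓝[>] 0) (𝓝 0) :=
    ((continuous_const.mul continuous_id).tendsto' 0 0 (by simp)).mono_left nhdsWithin_le_nhds
  have c2 : Tendsto (fun u : ℝ ↦ σ * u) (𝓝[>] 0) (𝓝[≠] 0) :=
    tendsto_nhdsWithin_iff.2 ⟨c1, eventually_mem_nhdsWithin.mono fun u hu ↦
      mul_ne_zero hσ (ne_of_gt hu)⟩
  have h1 := ((HP_bigO (A := A) (B := B) (C := C) (β := β) (D := D) hF).comp_tendsto c2).trans
    (g := _) (k := fun u ↦ u ^ 3) (by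
      simp only [Function.comp_def, mul_pow]; exact isBigO_const_mul_self _ _ _)
  refine ((((hc.isBigO_one ℝ).mono nhdsWithin_le_nhds).mul (isBigO_refl (fun u ↦ u ^ j) _)).mul
    h1).congr' ?_ (Eventually.of_forall fun u ↦ by ring)
  filter_upwards [self_mem_nhdsWithin, c1.eventually ((JR_open D).mem_nhds (zero_mem_JR D))]
    with u h1 h2 using (e u h1 h2).symm

theorem HP_iso1 (h0 : t ≠ 0) : HP A B C (1 / 8) 0 (1 / 4) t = 0 := by
  have ht : t ∈ JR 0 := by simpa [JR, om] using exp_pos t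
  have hw := wR_ne ht h0
  have := NN_eq (A := A) (B := B) (C := C) (β := 1 / 8) (F := 1 / 4) ht h0 one_ne_zero one_ne_zero
    rfl rfl rfl (Y := yR 0 (1 / 4) t) (W := wR 0 t) (by ring) rfl rfl
  refine mul_left_cancel₀ (mul_ne_zero one_ne_zero (pow_ne_zero 5 hw)) (this.symm.trans ?_)
  have ex : ∀ (n : ℕ) (x : ℝ), x = n * (t / 4) → exp x = exp (t / 4) ^ n := fun n x h ↦ by
    rw [h, exp_nat_mul]
  have ha := exp_pos (t / 4)
  have e1 := exp_eq_ph (2 * (1 / 4) * t)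
  have e2 := exp_eq_ph ((2 * (1 / 4) - 1) * t)
  rw [ex 2 _ (by push_cast; ring)] at e1
  rw [show (2 * (1 / 4) - 1) * t = -(t / 2) by ring, exp_neg, ex 2 _ (by push_cast; ring)] at e2
  have hv : vR 0 (1 / 4) t = 4 * (exp (t / 4) - (exp (t / 4))⁻¹) ^ 2 := by
    rw [vR_eq, show (2 * (1 / 4) - 1) * t = -(t / 2) by ring]
    have := mul_inv_cancel₀ ha.ne'
    rw [← inv_pow] at e2
    linear_combination -4 * e1 - 4 * e2 + 8 * this
  have hs : √(1 + 1 / 8 * (vR 0 (1 / 4) t / 2)) = (exp (t / 4) + (exp (t / 4))⁻¹) / 2 := by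
    rw [hv, ← sqrt_sq (by positivity : 0 ≤ (exp (t / 4) + (exp (t / 4))⁻¹) / 2)]
    congr 1
    field_simp
    ring
  simp only [NN, EP, hs, f0P, f1P, ja2, ja4, pjR, yR, wR, PR, QR]
  rw [hv, ex 4 t (by push_cast; ring), ex 6 ((2 - 2 * (1 / 4)) * t) (by push_cast; ring), exp_neg,
    ex 1 (1 / 4 * t) (by push_cast; ring)]
  generalize exp (t / 4) = a at *
  field_simp
  ring

theorem HP_iso2 (h0 : t ≠ 0) : HP A B C 0 0 1 t = 0 := by
  have ht : t ∈ JR 0 := by simpa [JR, om] using exp_pos t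
  have hw := wR_ne ht h0
  have := NN_eq (A := A) (B := B) (C := C) (β := 0) (F := 1) ht h0 one_ne_zero one_ne_zero
    rfl rfl rfl (Y := yR 0 1 t) (W := wR 0 t) (by ring) rfl rfl
  refine mul_left_cancel₀ (mul_ne_zero one_ne_zero (pow_ne_zero 5 hw)) (this.symm.trans ?_)
  have ha := exp_pos t
  have e1 := exp_eq_ph (2 * 1 * t)
  have e2 := exp_eq_ph ((2 * 1 - 1) * t)
  rw [show 2 * 1 * t = t + t by ring, exp_add, show t + t = 2 * 1 * t by ring] at e1
  rw [show (2 * 1 - 1) * t = t by ring] at e2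
  have hv : vR 0 1 t = (exp t - 1) ^ 2 := by
    rw [vR_eq, show (2 * 1 - 1) * t = t by ring]
    linear_combination -e1 + 2 * e2
  simp only [NN, EP, f0P, f1P, ja2, ja4, pjR, yR, wR, PR, QR, hv, exp_neg, one_mul, mul_one,
    sub_self, zero_mul, exp_zero, add_zero, sqrt_one, inv_one, one_pow]
  generalize exp t = a at *
  field_simp
  ring

end Pool.Agent.Lib.MP_d6150d_an
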