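import Pool.Agent.Lib.MP_d6150d_an.PpMac
import Pool.Agent.Lib.MP_d6150d_an.PpE1K0

/-! A generated chart: the inequality. -/

namespace Pool.Agent.Lib.MP_d6150d_an.PpE1

set_option linter.unnecessarySeqFocus false
set_option linter.unusedTactic false
set_option linter.unusedVariables false

theorem gd : Gd2 C [(0, 13194139533312), (35184372088832, 131941395333120)] := chk_sound2 k0

set_option maxRecDepth 100000 in
theorem eq {D F B C f0 f1 : ℝ} (hB : B = 2 * F * (1 - 2 * F)) (hC : C = 9 / 8 - 4 * F) (hf0 : f0 =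
    f0P 1 B C D F) (hf1 : f1 = f1P 1 B C D F) : outR prog 0 [D, F] = f0 ∧ outR prog 1 [D, F] = f0 *
    (5 / 16 - F * B) + f1 := by
  replace hB : B = (((Int.cast (2) : ℝ) * F) * ((Int.cast (1) : ℝ) - ((Int.cast (2) : ℝ) * F))) :=
    hB.trans (by push_cast <;> ring)
  replace hC : C = (((Int.cast (9) : ℝ) / (Nat.cast 8 : ℝ)) - ((Int.cast (4) : ℝ) * F)) := hC.trans
    (by push_cast <;> ring)
  replace hf0 : f0 = (mFF B C D F).1 := hf0.trans (mFF_0 ..)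
  replace hf1 : f1 = (mFF B C D F).2 := hf1.trans (mFF_1 ..)
  have e1 : ((f0 * (((Int.cast (5) : ℝ) / (Nat.cast 16 : ℝ)) - (F * B))) + f1) = f0 * (5 / 16 - F *
    B) + f1 := by push_cast <;> ring
  subst hB hC hf0 hf1
  exact ⟨rfl, Eq.trans rfl e1⟩

theorem l0 : ((0 : ℤ) : ℝ) / 2 ^ 47 = 0 := by norm_num
theorem u0 : (3 / 32 : ℝ) = ((13194139533312 : ℤ) : ℝ) / 2 ^ 47 := by norm_num
theorem l1 : ((35184372088832 : ℤ) : ℝ) / 2 ^ 47 = 1 / 4 := by norm_num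
theorem u1 : (15 / 16 : ℝ) = ((131941395333120 : ℤ) : ℝ) / 2 ^ 47 := by norm_num

theorem out0 {D F : ℝ} (a0 : 0 ≤ D) (b0 : D ≤ 3 / 32) (a1 : 1 / 4 ≤ F) (b1 : F ≤ 15 / 16) : 0 < outR
    prog 0 [D, F] :=
  gd 0 (by decide) [D, F] (.cons ⟨l0.le.trans a0, b0.trans u0.le⟩ (.cons ⟨l1.le.trans a1, b1.trans
    u1.le⟩ (.nil))) ⟨nofun, nofun, trivial⟩ (nofun) (List.forall_mem_nil _) (Van.of0 rfl) (nofun)

theorem pos0 {D F B C f0 f1 : ℝ} (hB : B = 2 * F * (1 - 2 * F)) (hC : C = 9 / 8 - 4 * F) (hf0 : f0 =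
    f0P 1 B C D F) (hf1 : f1 = f1P 1 B C D F) (a0 : 0 ≤ D) (b0 : D ≤ 3 / 32) (a1 : 1 / 4 ≤ F) (b1 :
    F ≤ 15 / 16) : 0 < f0 :=
  have e := eq hB hC hf0 hf1
  (out0 a0 b0 a1 b1).trans_eq e.1

theorem out1 {D F : ℝ} (a0 : 0 ≤ D) (b0 : D ≤ 3 / 32) (a1 : 1 / 4 ≤ F) (b1 : F ≤ 15 / 16) : 0 < outR
    prog 1 [D, F] :=
  gd 1 (by decide) [D, F] (.cons ⟨l0.le.trans a0, b0.trans u0.le⟩ (.cons ⟨l1.le.trans a1, b1.trans
    u1.le⟩ (.nil))) ⟨nofun, nofun, trivial⟩ (nofun) (List.forall_mem_nil _) (Van.of0 rfl) (nofun)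

theorem pos1 {D F B C f0 f1 : ℝ} (hB : B = 2 * F * (1 - 2 * F)) (hC : C = 9 / 8 - 4 * F) (hf0 : f0 =
    f0P 1 B C D F) (hf1 : f1 = f1P 1 B C D F) (a0 : 0 ≤ D) (b0 : D ≤ 3 / 32) (a1 : 1 / 4 ≤ F) (b1 :
    F ≤ 15 / 16) : 0 < f0 * (5 / 16 - F * B) + f1 :=
  have e := eq hB hC hf0 hf1
  (out1 a0 b0 a1 b1).trans_eq e.2

end Pool.Agent.Lib.MP_d6150d_an.PpE1
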