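import Pool.Agent.Lib.MP_d6150d_an.GDef

/-! A generated chart: the program. -/

namespace Pool.Agent.Lib.MP_d6150d_an.PpE1

def prog1 : List Ins := .smul 320 33 :: .add false 1 0 :: .mul 35 0 :: .sub false 6 0 :: .mul 37 0
    :: .add true 14 0 :: .mul 24 0 :: .add true 26 0 :: .mul 56 0 :: .add false 33 0 :: .cpy 0 ::
    .cpy 39 :: []

def prog : List Ins := .cst 1 8 :: .var 1 :: .smul 2 0 :: .int 1 :: .sub true 0 1 :: .mul 2 0 ::
    .smul 3 0 :: .mul 6 0 :: .cst 1 4 :: .cst 9 8 :: .smul 4 8 :: .sub true 1 0 :: .mul 3 0 :: .sub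
    false 5 0 :: .cst 1 12 :: .sub false 11 13 :: .var 0 :: .smul 2 0 :: .sub true 2 0 :: .mul 17 0
    :: .mul 5 0 :: .sub true 7 0 :: .cst 5 16 :: .mul 21 17 :: .sub true 1 0 :: .mul 3 0 :: .cst 1 2
    :: .mul 0 21 :: .sub true 16 0 :: .mul 0 10 :: .mul 21 0 :: .cst 1 180 :: .int 4 :: .int (-57)
    :: .int 156 :: .smul 103 33 :: .sub true 1 0 :: .mul 35 0 :: .add true 4 0 :: .mul 37 0 :: .add
    false 7 0 :: .int (-6) :: .int 102 :: .smul 312 41 :: .sub true 1 0 :: .mul 43 0 :: .add false 4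
    0 :: .int 60 :: .smul 480 46 :: .add false 1 0 :: prog1

def vs : List Vr := [⟨3, 0, false, false⟩, ⟨4, 0, false, false⟩]

def C : Chart := ⟨vs, prog, [], 2, 3⟩

end Pool.Agent.Lib.MP_d6150d_an.PpE1
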