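import Pool.Agent.Lib.MP_d6150d_an.PpL0D

/-! A generated chart: the computations. -/

namespace Pool.Agent.Lib.MP_d6150d_an.PpL0

theorem k0 : chk C 0x8880088811888009101 [(0, 13194139533312), (0, 13194139533312), (0,
    70368744177664)] = true := by
  decide +kernel

theorem k1 : chk C 0x8880088812880918809921201 [(0, 13194139533312), (0, 13194139533312),
    (70368744177664, 140737488355328)] = true := by
  decide +kernel

theorem k2 : chk C 0x888008802 [(0, 13194139533312), (13194139533312, 26388279066624), (0,
    140737488355328)] = true := by
  decide +kernel

theorem k3 : chk C 0x88881008882188088189921088189102101 [(0, 13194139533312), (0, 26388279066624),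
    (140737488355328, 281474976710656)] = true := by
  decide +kernel

end Pool.Agent.Lib.MP_d6150d_an.PpL0
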