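import Pool.Agent.Lib.MP_d6150d_an.PpMac
import Pool.Agent.Lib.MP_d6150d_an.PpL0K0

/-! A generated chart: the inequality. -/

namespace Pool.Agent.Lib.MP_d6150d_an.PpL0

set_option linter.unnecessarySeqFocus false
set_option linter.unusedTactic false
set_option linter.unusedVariables false

theorem gd : Gd2 C [(0, 13194139533312), (0, 26388279066624), (0, 281474976710656)] := .split 2
    (.split 1 (.split 2 (chk_sound2 k0) (chk_sound2 k1)) (chk_sound2 k2)) (chk_sound2 k3)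

set_option maxRecDepth 100000 in
theorem eq {D e u F t q yi mu v x P Q R z11 W z Y p2 r : ℝ} (hF : F = 1 / 4 - e) (ht : t = -u) (hq :
    q = Real.exp (-t)) (hyi : yi = Real.exp (-(F * t))) (hmu : mu = muR D F t) (hv : v = t ^ 2 * mu
    / 2) (hx : x = Real.exp t) (hP : P = (1 + D) * x) (hQ : Q = 1 + 2 * D) (hR : R = D * q) (hz11 :
    z11 = ph1 t) (hW : W = z11 * (1 + D - D * q)) (hz : z = yi ^ 2 * x) (hY : Y = mu * z / 2) (hp2 :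
    p2 = (pjR F P Q R).1) (hr : r = (√(1 + 2 * F * (1 - 2 * D - F) / 3 * v))⁻¹) : outR prog 0 [D, e,
    u] = -(W ^ 3 * (r ^ 3 * yi - 1) + 4 * F * t * Y * (p2 * Y + W ^ 2)) := by
  replace hF : F = (((Int.cast (1) : ℝ) / (Nat.cast 4 : ℝ)) - e) := hF.trans (by push_cast <;> ring)
  replace ht : t = ((Int.cast (-1) : ℝ) * u) := ht.trans (by push_cast <;> ring)
  replace hq : q = (Real.exp ((Int.cast (-1) : ℝ) * t)) := hq.trans (congrArg Real.exp (by push_cast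
    <;> ring))
  replace hyi : yi = (Real.exp ((Int.cast (-1) : ℝ) * (F * t))) := hyi.trans (congrArg Real.exp (by
    push_cast <;> ring))
  replace hmu : mu = (mMu D F t) := hmu.trans (mMu_0 ..)
  replace hv : v = (((Int.cast (1) : ℝ) / (Nat.cast 2 : ℝ)) * ((t * t) * mu)) := hv.trans (by
    push_cast <;> ring)
  replace hP : P = (((Int.cast (1) : ℝ) + D) * x) := hP.trans (by push_cast <;> ring)
  replace hQ : Q = ((Int.cast (1) : ℝ) + ((Int.cast (2) : ℝ) * D)) := hQ.trans (by push_cast <;>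
    ring)
  replace hR : R = (D * q) := hR.trans (by push_cast <;> ring)
  replace hW : W = (z11 * (((Int.cast (1) : ℝ) + D) - (D * q))) := hW.trans (by push_cast <;> ring)
  replace hz : z = ((yi * yi) * x) := hz.trans (by push_cast <;> ring)
  replace hY : Y = (((Int.cast (1) : ℝ) / (Nat.cast 2 : ℝ)) * (mu * z)) := hY.trans (by push_cast
    <;> ring)
  replace hp2 : p2 = (mPj F P Q R).1 := hp2.trans (mPj_0 ..)
  replace hr : r = (√((Int.cast (1) : ℝ) + ((((Int.cast (1) : ℝ) / (Nat.cast 3 : ℝ)) * (((Int.cast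
    (2) : ℝ) * F) * (((Int.cast (1) : ℝ) - ((Int.cast (2) : ℝ) * D)) - F))) * v)))⁻¹ := hr.trans
    (congrArg (fun x : ℝ ↦ (√x)⁻¹) (by push_cast <;> ring))
  have e0 : ((Int.cast (-1) : ℝ) * ((((W * W) * W) * ((((r * r) * r) * yi) - (Int.cast (1) : ℝ))) +
    (((((Int.cast (4) : ℝ) * F) * t) * Y) * ((p2 * Y) + (W * W))))) = -(W ^ 3 * (r ^ 3 * yi - 1) + 4
    * F * t * Y * (p2 * Y + W ^ 2)) := by push_cast <;> ring
  subst hF ht hq hyi hmu hv hx hP hQ hR hz11 hW hz hY hp2 hr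
  exact Eq.trans rfl e0

theorem l0 : ((0 : ℤ) : ℝ) / 2 ^ 47 = 0 := by norm_num
theorem u0 : (3 / 32 : ℝ) = ((13194139533312 : ℤ) : ℝ) / 2 ^ 47 := by norm_num
theorem l1 : ((0 : ℤ) : ℝ) / 2 ^ 47 = 0 := by norm_num
theorem u1 : (3 / 16 : ℝ) = ((26388279066624 : ℤ) : ℝ) / 2 ^ 47 := by norm_num
theorem l2 : ((0 : ℤ) : ℝ) / 2 ^ 47 = 0 := by norm_num
theorem u2 : (2 : ℝ) = ((281474976710656 : ℤ) : ℝ) / 2 ^ 47 := by norm_num

theorem out0 (V2 : ∀ D e : ℝ, 0 ≤ D → D ≤ 3 / 32 → 0 ≤ e → e ≤ 3 / 16 → (fun u ↦ outR prog 0 [D, e,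
    u]) =O[nhdsWithin 0 (Set.Ioi 0)] fun u : ℝ ↦ u ^ 3) (N : ∀ u : ℝ, 0 ≤ u → u ≤ 2 → 0 ≤ outR prog
    0 [0, 0, u]) {D e u : ℝ} (a0 : 0 ≤ D) (b0 : D ≤ 3 / 32) (a1 : 0 ≤ e) (b1 : e ≤ 3 / 16) (a2 : 0 ≤
    u) (b2 : u ≤ 2) (p2 : 0 < u) (pc : 0 < D ∨ 0 < e) : 0 < outR prog 0 [D, e, u] :=
  gd 0 (by decide) [D, e, u] (.cons ⟨l0.le.trans a0, b0.trans u0.le⟩ (.cons ⟨l1.le.trans a1,
    b1.trans u1.le⟩ (.cons ⟨l2.le.trans a2, b2.trans u2.le⟩ (.nil)))) ⟨nofun, nofun, fun _ ↦ p2,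
    trivial⟩ (fun _ ↦ pc.elim (fun h ↦ .inl ⟨rfl, h⟩) (fun h ↦ .inr (.inl ⟨rfl, h⟩)))
    (List.forall_mem_nil _) (⟨fun _ ↦ allB_iff.2 fun _ _ ↦ trivial, fun y0 a0 b0 ↦ ⟨fun _ ↦
    allB_iff.2 fun _ _ ↦ trivial, fun y1 a1 b1 ↦ ⟨fun _ ↦ V2 y0 y1 (l0.ge.trans a0) (b0.trans u0.ge)
    (l1.ge.trans a1) (b1.trans u1.ge), fun _ _ _ ↦ trivial⟩⟩⟩) (fun _ _ _ _ _ _ _ y2 a2 b2 ↦ N y2
    (l2.ge.trans a2) (b2.trans u2.ge))

end Pool.Agent.Lib.MP_d6150d_an.PpL0
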