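import Pool.Agent.Lib.MP_d6150d_an.PpM0D

/-! A generated chart: the computations. -/

namespace Pool.Agent.Lib.MP_d6150d_an.PpM0

theorem k0 : chk C 0x88801888802088091888091088809102210 [(0, 70368744177664), (0, 6597069766656),
    (281474976710656, 633318697598976)] = true := by
  decide +kernel

theorem k1 : chk C 0x88088809101 [(0, 70368744177664), (0, 6597069766656), (633318697598976,
    985162418487296)] = true := by
  decide +kernel

theorem k2 : chk C 0x88088288088820202 [(0, 70368744177664), (6597069766656, 13194139533312),
    (281474976710656, 985162418487296)] = true := by
  decide +kernel

theorem k3 : chk C 0x88801882880881212 [(70368744177664, 140737488355328), (0, 13194139533312),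
    (281474976710656, 985162418487296)] = true := by
  decide +kernel

theorem k4 : chk C 0x88800888088910101 [(0, 140737488355328), (0, 13194139533312), (985162418487296,
    1688849860263936)] = true := by
  decide +kernel

theorem k5 : chk C 0x881881088081888028801028880288088810201 [(0, 70368744177664), (13194139533312,
    26388279066624), (281474976710656, 633318697598976)] = true := by
  decide +kernel

theorem k6 : chk C 0x88088008801 [(0, 70368744177664), (13194139533312, 26388279066624),
    (633318697598976, 985162418487296)] = true := by
  decide +kernel

theorem k7 : chk C 0x8808181880818808128880212 [(70368744177664, 140737488355328), (13194139533312,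
    26388279066624), (281474976710656, 985162418487296)] = true := by
  decide +kernel

theorem k8 : chk C 0x8808800888001 [(0, 140737488355328), (13194139533312, 26388279066624),
    (985162418487296, 1688849860263936)] = true := by
  decide +kernel

end Pool.Agent.Lib.MP_d6150d_an.PpM0
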