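import Pool.Agent.Lib.MP_d6150d_an.PpMac
import Pool.Agent.Lib.MP_d6150d_an.PpM0K0

/-! A generated chart: the inequality. -/

namespace Pool.Agent.Lib.MP_d6150d_an.PpM0

set_option linter.unnecessarySeqFocus false
set_option linter.unusedTactic false
set_option linter.unusedVariables false

theorem gd : Gd2 C [(0, 140737488355328), (0, 26388279066624), (281474976710656, 1688849860263936)]
    := .split 1 (.split 2 (.split 0 (.split 1 (.split 2 (chk_sound2 k0) (chk_sound2 k1)) (chk_sound2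
    k2)) (chk_sound2 k3)) (chk_sound2 k4)) (.split 2 (.split 0 (.split 2 (chk_sound2 k5) (chk_sound2
    k6)) (chk_sound2 k7)) (chk_sound2 k8))

set_option maxRecDepth 100000 in
theorem eq {rh e u F x d D Q W p2 ze k c1 la Y r : ℝ} (hF : F = 1 / 4 - e) (hx : x = Real.exp (-u))
    (hd : d = rh * x) (hD : D = d / (1 - d)) (hQ : Q = 1 + d) (hW : W = (1 - x) * (1 - rh)) (hp2 :
    p2 = (pjR F x Q rh).1) (hze : ze = Real.exp ((2 * F - 1) * u)) (hk : k = Real.exp ((4 * F - 3 /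
    2) * u)) (hc1 : c1 = (1 - ze) / (1 - 2 * F)) (hla : la = (1 - x * ze) / (2 - 2 * F)) (hY : Y = d
    * c1 + (c1 - 1 + x) / (2 * F) - rh * la) (hr : r = (√(ze + 2 * F * (1 - 2 * D - F) / 3 * ((1 +
    D) * Y)))⁻¹) : outR prog 0 [rh, e, u] = W ^ 3 * (1 - k * r ^ 3) + 4 * F * Y * (p2 * Y + W ^ 2)
    := by
  replace hF : F = (((Int.cast (1) : ℝ) / (Nat.cast 4 : ℝ)) - e) := hF.trans (by push_cast <;> ring)
  replace hx : x = (Real.exp ((Int.cast (-1) : ℝ) * u)) := hx.trans (congrArg Real.exp (by push_cast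
    <;> ring))
  replace hd : d = (rh * x) := hd.trans (by push_cast <;> ring)
  replace hD : D = (d * ((Int.cast (1) : ℝ) - d)⁻¹) := hD.trans (by push_cast <;> ring)
  replace hQ : Q = ((Int.cast (1) : ℝ) + d) := hQ.trans (by push_cast <;> ring)
  replace hW : W = (((Int.cast (1) : ℝ) - x) * ((Int.cast (1) : ℝ) - rh)) := hW.trans (by push_cast
    <;> ring)
  replace hp2 : p2 = (mPj F x Q rh).1 := hp2.trans (mPj_0 ..)
  replace hze : ze = (Real.exp ((((Int.cast (2) : ℝ) * F) - (Int.cast (1) : ℝ)) * u)) := hze.trans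
    (congrArg Real.exp (by push_cast <;> ring))
  replace hk : k = (Real.exp ((((Int.cast (4) : ℝ) * F) - ((Int.cast (3) : ℝ) / (Nat.cast 2 : ℝ))) *
    u)) := hk.trans (congrArg Real.exp (by push_cast <;> ring))
  replace hc1 : c1 = (((Int.cast (1) : ℝ) - ze) * ((Int.cast (1) : ℝ) - ((Int.cast (2) : ℝ) * F))⁻¹)
    := hc1.trans (by push_cast <;> ring)
  replace hla : la = (((Int.cast (1) : ℝ) - (x * ze)) * ((Int.cast (2) : ℝ) - ((Int.cast (2) : ℝ) *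
    F))⁻¹) := hla.trans (by push_cast <;> ring)
  replace hY : Y = (((d * c1) + (((c1 - (Int.cast (1) : ℝ)) + x) * ((Int.cast (2) : ℝ) * F)⁻¹)) -
    (rh * la)) := hY.trans (by push_cast <;> ring)
  replace hr : r = (√(ze + ((((Int.cast (1) : ℝ) / (Nat.cast 3 : ℝ)) * (((Int.cast (2) : ℝ) * F) *
    (((Int.cast (1) : ℝ) - ((Int.cast (2) : ℝ) * D)) - F))) * (((Int.cast (1) : ℝ) + D) * Y))))⁻¹ :=
    hr.trans (congrArg (fun x : ℝ ↦ (√x)⁻¹) (by push_cast <;> ring))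
  have e0 : ((((W * W) * W) * ((Int.cast (1) : ℝ) - (k * ((r * r) * r)))) + ((((Int.cast (4) : ℝ) *
    F) * Y) * ((p2 * Y) + (W * W)))) = W ^ 3 * (1 - k * r ^ 3) + 4 * F * Y * (p2 * Y + W ^ 2) := by
    push_cast <;> ring
  subst hF hx hd hD hQ hW hp2 hze hk hc1 hla hY hr
  exact Eq.trans rfl e0

theorem l0 : ((0 : ℤ) : ℝ) / 2 ^ 47 = 0 := by norm_num
theorem u0 : (1 : ℝ) = ((140737488355328 : ℤ) : ℝ) / 2 ^ 47 := by norm_num
theorem l1 : ((0 : ℤ) : ℝ) / 2 ^ 47 = 0 := by norm_num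
theorem u1 : (3 / 16 : ℝ) = ((26388279066624 : ℤ) : ℝ) / 2 ^ 47 := by norm_num
theorem l2 : ((281474976710656 : ℤ) : ℝ) / 2 ^ 47 = 2 := by norm_num
theorem u2 : (12 : ℝ) = ((1688849860263936 : ℤ) : ℝ) / 2 ^ 47 := by norm_num

theorem out0 (N : ∀ u : ℝ, 2 ≤ u → u ≤ 12 → 0 ≤ outR prog 0 [0, 0, u]) {rh e u : ℝ} (a0 : 0 ≤ rh)
    (b0 : rh ≤ 1) (a1 : 0 ≤ e) (b1 : e ≤ 3 / 16) (a2 : 2 ≤ u) (b2 : u ≤ 12) (pc : 0 < rh ∨ 0 < e) :
    0 < outR prog 0 [rh, e, u] :=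
  gd 0 (by decide) [rh, e, u] (.cons ⟨l0.le.trans a0, b0.trans u0.le⟩ (.cons ⟨l1.le.trans a1,
    b1.trans u1.le⟩ (.cons ⟨l2.le.trans a2, b2.trans u2.le⟩ (.nil)))) ⟨nofun, nofun, nofun, trivial⟩
    (fun _ ↦ pc.elim (fun h ↦ .inl ⟨rfl, h⟩) (fun h ↦ .inr (.inl ⟨rfl, h⟩))) (List.forall_mem_nil _)
    (Van.of0 rfl) (fun _ _ _ _ _ _ _ y2 a2 b2 ↦ N y2 (l2.ge.trans a2) (b2.trans u2.ge))

end Pool.Agent.Lib.MP_d6150d_an.PpM0
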