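import Pool.Agent.Lib.MP_d6150d_an.PpR0D

/-! A generated chart: the computations. -/

namespace Pool.Agent.Lib.MP_d6150d_an.PpR0

theorem k0 : chk C 0x88088800992992992228818910211 [(0, 13194139533312), (0, 26388279066624), (0,
    52776558133248)] = true := by
  decide +kernel

theorem k1 : chk C 0x8808880099299922211 [(0, 13194139533312), (0, 26388279066624), (52776558133248,
    105553116266496)] = true := by
  decide +kernel

theorem k2 : chk C 0x88809992211 [(0, 13194139533312), (0, 26388279066624), (105553116266496,
    211106232532992)] = true := by
  decide +kernel

theorem k3 : chk C 0x88088088821891088190211 [(0, 13194139533312), (0, 26388279066624),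
    (211106232532992, 422212465065984)] = true := by
  decide +kernel

end Pool.Agent.Lib.MP_d6150d_an.PpR0
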