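import Pool.Agent.Lib.MP_d6150d_an.PpMac
import Pool.Agent.Lib.MP_d6150d_an.PpR0K0

/-! A generated chart: the inequality. -/

namespace Pool.Agent.Lib.MP_d6150d_an.PpR0

set_option linter.unnecessarySeqFocus false
set_option linter.unusedTactic false
set_option linter.unusedVariables false

theorem gd : Gd2 C [(0, 13194139533312), (0, 26388279066624), (0, 422212465065984)] := .split 2
    (.split 2 (.split 2 (chk_sound2 k0) (chk_sound2 k1)) (chk_sound2 k2)) (chk_sound2 k3)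

set_option maxRecDepth 100000 in
theorem eq {D e u F q yi mu v P Q R z9 W z Y p2 r : ℝ} (hF : F = 1 / 4 - e) (hq : q = Real.exp (-u))
    (hyi : yi = Real.exp (-(F * u))) (hmu : mu = muR D F u) (hv : v = u ^ 2 * mu / 2) (hP : P = 1 +
    D) (hQ : Q = (1 + 2 * D) * q) (hR : R = D * q ^ 2) (hz9 : z9 = ph1 (-u)) (hW : W = z9 * (1 + D -
    D * q)) (hz : z = yi ^ 2) (hY : Y = mu * z / 2) (hp2 : p2 = (pjR F P Q R).1) (hr : r = (√(1 + 2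
    * F * (1 - 2 * D - F) / 3 * v))⁻¹) : outR prog 0 [D, e, u] = W ^ 3 * (r ^ 3 * yi - 1) + 4 * F *
    u * Y * (p2 * Y + W ^ 2) := by
  replace hF : F = (((Int.cast (1) : ℝ) / (Nat.cast 4 : ℝ)) - e) := hF.trans (by push_cast <;> ring)
  replace hq : q = (Real.exp ((Int.cast (-1) : ℝ) * u)) := hq.trans (congrArg Real.exp (by push_cast
    <;> ring))
  replace hyi : yi = (Real.exp ((Int.cast (-1) : ℝ) * (F * u))) := hyi.trans (congrArg Real.exp (by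
    push_cast <;> ring))
  replace hmu : mu = (mMu D F u) := hmu.trans (mMu_0 ..)
  replace hv : v = (((Int.cast (1) : ℝ) / (Nat.cast 2 : ℝ)) * ((u * u) * mu)) := hv.trans (by
    push_cast <;> ring)
  replace hP : P = ((Int.cast (1) : ℝ) + D) := hP.trans (by push_cast <;> ring)
  replace hQ : Q = (((Int.cast (1) : ℝ) + ((Int.cast (2) : ℝ) * D)) * q) := hQ.trans (by push_cast
    <;> ring)
  replace hR : R = (D * (q * q)) := hR.trans (by push_cast <;> ring)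
  replace hz9 : z9 = (ph1 ((Int.cast (-1) : ℝ) * u)) := hz9.trans (congrArg ph1 (by push_cast <;>
    ring))
  replace hW : W = (z9 * (((Int.cast (1) : ℝ) + D) - (D * q))) := hW.trans (by push_cast <;> ring)
  replace hz : z = (yi * yi) := hz.trans (by push_cast <;> ring)
  replace hY : Y = (((Int.cast (1) : ℝ) / (Nat.cast 2 : ℝ)) * (mu * z)) := hY.trans (by push_cast
    <;> ring)
  replace hp2 : p2 = (mPj F P Q R).1 := hp2.trans (mPj_0 ..)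
  replace hr : r = (√((Int.cast (1) : ℝ) + ((((Int.cast (1) : ℝ) / (Nat.cast 3 : ℝ)) * (((Int.cast
    (2) : ℝ) * F) * (((Int.cast (1) : ℝ) - ((Int.cast (2) : ℝ) * D)) - F))) * v)))⁻¹ := hr.trans
    (congrArg (fun x : ℝ ↦ (√x)⁻¹) (by push_cast <;> ring))
  have e0 : ((((W * W) * W) * ((((r * r) * r) * yi) - (Int.cast (1) : ℝ))) + (((((Int.cast (4) : ℝ)
    * F) * u) * Y) * ((p2 * Y) + (W * W)))) = W ^ 3 * (r ^ 3 * yi - 1) + 4 * F * u * Y * (p2 * Y + W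
    ^ 2) := by push_cast <;> ring
  subst hF hq hyi hmu hv hP hQ hR hz9 hW hz hY hp2 hr
  exact Eq.trans rfl e0

theorem l0 : ((0 : ℤ) : ℝ) / 2 ^ 47 = 0 := by norm_num
theorem u0 : (3 / 32 : ℝ) = ((13194139533312 : ℤ) : ℝ) / 2 ^ 47 := by norm_num
theorem l1 : ((0 : ℤ) : ℝ) / 2 ^ 47 = 0 := by norm_num
theorem u1 : (3 / 16 : ℝ) = ((26388279066624 : ℤ) : ℝ) / 2 ^ 47 := by norm_num
theorem l2 : ((0 : ℤ) : ℝ) / 2 ^ 47 = 0 := by norm_num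
theorem u2 : (3 : ℝ) = ((422212465065984 : ℤ) : ℝ) / 2 ^ 47 := by norm_num

theorem out0 (V2 : ∀ D e : ℝ, 0 ≤ D → D ≤ 3 / 32 → 0 ≤ e → e ≤ 3 / 16 → (fun u ↦ outR prog 0 [D, e,
    u]) =O[nhdsWithin 0 (Set.Ioi 0)] fun u : ℝ ↦ u ^ 3) (N : ∀ u : ℝ, 0 ≤ u → u ≤ 3 → 0 ≤ outR prog
    0 [0, 0, u]) {D e u : ℝ} (a0 : 0 ≤ D) (b0 : D ≤ 3 / 32) (a1 : 0 ≤ e) (b1 : e ≤ 3 / 16) (a2 : 0 ≤
    u) (b2 : u ≤ 3) (p2 : 0 < u) (pc : 0 < D ∨ 0 < e) : 0 < outR prog 0 [D, e, u] :=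
  gd 0 (by decide) [D, e, u] (.cons ⟨l0.le.trans a0, b0.trans u0.le⟩ (.cons ⟨l1.le.trans a1,
    b1.trans u1.le⟩ (.cons ⟨l2.le.trans a2, b2.trans u2.le⟩ (.nil)))) ⟨nofun, nofun, fun _ ↦ p2,
    trivial⟩ (fun _ ↦ pc.elim (fun h ↦ .inl ⟨rfl, h⟩) (fun h ↦ .inr (.inl ⟨rfl, h⟩)))
    (List.forall_mem_nil _) (⟨fun _ ↦ allB_iff.2 fun _ _ ↦ trivial, fun y0 a0 b0 ↦ ⟨fun _ ↦
    allB_iff.2 fun _ _ ↦ trivial, fun y1 a1 b1 ↦ ⟨fun _ ↦ V2 y0 y1 (l0.ge.trans a0) (b0.trans u0.ge)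
    (l1.ge.trans a1) (b1.trans u1.ge), fun _ _ _ ↦ trivial⟩⟩⟩) (fun _ _ _ _ _ _ _ y2 a2 b2 ↦ N y2
    (l2.ge.trans a2) (b2.trans u2.ge))

end Pool.Agent.Lib.MP_d6150d_an.PpR0
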