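import Pool.Agent.Lib.MP_d6150d_an.PpS0D

/-! A generated chart: the computations. -/

namespace Pool.Agent.Lib.MP_d6150d_an.PpS0

theorem k0 : chk C 0x8883088881339018880188800888821390132 [(0, 13194139533312), (0, 6597069766656),
    (0, 35184372088832), (0, 140737488355328)] = true := by
  decide +kernel

theorem k1 : chk C 0x888830388088882139031 [(0, 13194139533312), (0, 6597069766656),
    (35184372088832, 70368744177664), (0, 140737488355328)] = true := by
  decide +kernel

theorem k2 : chk C 0x888038808880322 [(0, 13194139533312), (6597069766656, 13194139533312), (0,
    70368744177664), (0, 140737488355328)] = true := by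
  decide +kernel

theorem k3 : chk C 0x8880088820888823199203888882013992023 [(0, 13194139533312), (0, 3298534883328),
    (70368744177664, 140737488355328), (0, 140737488355328)] = true := by
  decide +kernel

theorem k4 : chk C 0x8880888082033 [(0, 13194139533312), (3298534883328, 6597069766656),
    (70368744177664, 140737488355328), (0, 140737488355328)] = true := by
  decide +kernel

theorem k5 : chk C 0x888880033 [(0, 13194139533312), (6597069766656, 13194139533312),
    (70368744177664, 140737488355328), (0, 140737488355328)] = true := by
  decide +kernel

theorem k6 : chk C 0x880818801880880880128880212 [(0, 13194139533312), (13194139533312,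
    26388279066624), (0, 70368744177664), (0, 140737488355328)] = true := by
  decide +kernel

theorem k7 : chk C 0x8818808801388882031 [(0, 13194139533312), (13194139533312, 26388279066624),
    (70368744177664, 140737488355328), (0, 140737488355328)] = true := by
  decide +kernel

end Pool.Agent.Lib.MP_d6150d_an.PpS0
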