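import Pool.Agent.Lib.MP_d6150d_an.PpMac
import Pool.Agent.Lib.MP_d6150d_an.PpS0K0

/-! A generated chart: the inequality. -/

namespace Pool.Agent.Lib.MP_d6150d_an.PpS0

set_option linter.unnecessarySeqFocus false
set_option linter.unusedTactic false
set_option linter.unusedVariables false

theorem gd : Gd2 C [(0, 13194139533312), (0, 26388279066624), (0, 140737488355328), (0,
    140737488355328)] := .split 1 (.split 2 (.split 1 (.split 2 (chk_sound2 k0) (chk_sound2 k1))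
    (chk_sound2 k2)) (.split 1 (.split 1 (chk_sound2 k3) (chk_sound2 k4)) (chk_sound2 k5))) (.split
    2 (chk_sound2 k6) (chk_sound2 k7))

set_option maxRecDepth 100000 in
theorem eq {D e a h F z2 z z4 ch q g gi g1 nu m r : ℝ} (hF : F = 1 / 4 - e) (hz2 : z2 = Real.exp
    (-(6 * F))) (hz : z = z2 * a) (hz4 : z4 = Real.exp (-(12 * e))) (hch : ch = z4 * (1 - h)) (hq :
    q = z ^ 2 * ch) (hg : g = (1 - q) * (1 + D - D * q)) (hgi : gi = 1 / g) (hg1 : g1 = (1 + 2 * D -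
    2 * D * q) * gi) (hnu : nu = (D * (1 - z * ch * q) / (1 - F) - (1 + 2 * D) * (1 - z * ch) / (1 -
    2 * F)) * gi / 2) (hm : m = (z * nu + 1 / 2) / F) (hr : r = (√(z + 2 * F * (1 - 2 * D - F) / 3 *
    (g * m)))⁻¹) : outR prog 0 [D, e, a, h] = r ^ 3 - 4 * (nu ^ 2 + F * ch * g1 * m ^ 2) := by
  replace hF : F = (((Int.cast (1) : ℝ) / (Nat.cast 4 : ℝ)) - e) := hF.trans (by push_cast <;> ring)
  replace hz2 : z2 = (Real.exp ((Int.cast (-1) : ℝ) * ((Int.cast (6) : ℝ) * F))) := hz2.trans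
    (congrArg Real.exp (by push_cast <;> ring))
  replace hz : z = (z2 * a) := hz.trans (by push_cast <;> ring)
  replace hz4 : z4 = (Real.exp ((Int.cast (-1) : ℝ) * ((Int.cast (12) : ℝ) * e))) := hz4.trans
    (congrArg Real.exp (by push_cast <;> ring))
  replace hch : ch = (z4 * ((Int.cast (1) : ℝ) - h)) := hch.trans (by push_cast <;> ring)
  replace hq : q = ((z * z) * ch) := hq.trans (by push_cast <;> ring)
  replace hg : g = (((Int.cast (1) : ℝ) - q) * (((Int.cast (1) : ℝ) + D) - (D * q))) := hg.trans (by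
    push_cast <;> ring)
  replace hgi : gi = g⁻¹ := hgi.trans (by push_cast <;> ring)
  replace hg1 : g1 = ((((Int.cast (1) : ℝ) + ((Int.cast (2) : ℝ) * D)) - (((Int.cast (2) : ℝ) * D) *
    q)) * gi) := hg1.trans (by push_cast <;> ring)
  replace hnu : nu = (((Int.cast (1) : ℝ) / (Nat.cast 2 : ℝ)) * ((((D * ((Int.cast (1) : ℝ) - ((z *
    ch) * q))) * ((Int.cast (1) : ℝ) - F)⁻¹) - ((((Int.cast (1) : ℝ) + ((Int.cast (2) : ℝ) * D)) *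
    ((Int.cast (1) : ℝ) - (z * ch))) * ((Int.cast (1) : ℝ) - ((Int.cast (2) : ℝ) * F))⁻¹)) * gi)) :=
    hnu.trans (by push_cast <;> ring)
  replace hm : m = (((z * nu) + ((Int.cast (1) : ℝ) / (Nat.cast 2 : ℝ))) * F⁻¹) := hm.trans (by
    push_cast <;> ring)
  replace hr : r = (√(z + ((((Int.cast (1) : ℝ) / (Nat.cast 3 : ℝ)) * (((Int.cast (2) : ℝ) * F) *
    (((Int.cast (1) : ℝ) - ((Int.cast (2) : ℝ) * D)) - F))) * (g * m))))⁻¹ := hr.trans (congrArg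
    (fun x : ℝ ↦ (√x)⁻¹) (by push_cast <;> ring))
  have e0 : (((r * r) * r) - ((Int.cast (4) : ℝ) * ((nu * nu) + (((F * ch) * g1) * (m * m))))) = r ^
    3 - 4 * (nu ^ 2 + F * ch * g1 * m ^ 2) := by push_cast <;> ring
  subst hF hz2 hz hz4 hch hq hg hgi hg1 hnu hm hr
  exact Eq.trans rfl e0

theorem l0 : ((0 : ℤ) : ℝ) / 2 ^ 47 = 0 := by norm_num
theorem u0 : (3 / 32 : ℝ) = ((13194139533312 : ℤ) : ℝ) / 2 ^ 47 := by norm_num
theorem l1 : ((0 : ℤ) : ℝ) / 2 ^ 47 = 0 := by norm_num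
theorem u1 : (3 / 16 : ℝ) = ((26388279066624 : ℤ) : ℝ) / 2 ^ 47 := by norm_num
theorem l2 : ((0 : ℤ) : ℝ) / 2 ^ 47 = 0 := by norm_num
theorem u2 : (1 : ℝ) = ((140737488355328 : ℤ) : ℝ) / 2 ^ 47 := by norm_num
theorem l3 : ((0 : ℤ) : ℝ) / 2 ^ 47 = 0 := by norm_num
theorem u3 : (1 : ℝ) = ((140737488355328 : ℤ) : ℝ) / 2 ^ 47 := by norm_num

theorem out0 (N : ∀ a : ℝ, 0 ≤ a → a ≤ 1 → 0 ≤ outR prog 0 [0, 0, a, 0]) {D e a h : ℝ} (a0 : 0 ≤ D)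
    (b0 : D ≤ 3 / 32) (a1 : 0 ≤ e) (b1 : e ≤ 3 / 16) (a2 : 0 ≤ a) (b2 : a ≤ 1) (a3 : 0 ≤ h) (b3 : h
    ≤ 1) (pc : 0 < D ∨ 0 < e ∨ 0 < h) : 0 < outR prog 0 [D, e, a, h] :=
  gd 0 (by decide) [D, e, a, h] (.cons ⟨l0.le.trans a0, b0.trans u0.le⟩ (.cons ⟨l1.le.trans a1,
    b1.trans u1.le⟩ (.cons ⟨l2.le.trans a2, b2.trans u2.le⟩ (.cons ⟨l3.le.trans a3, b3.trans u3.le⟩
    (.nil))))) ⟨nofun, nofun, nofun, nofun, trivial⟩ (fun _ ↦ pc.elim (fun h ↦ .inl ⟨rfl, h⟩) (fun h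
    ↦ h.elim (fun h ↦ .inr (.inl ⟨rfl, h⟩)) (fun h ↦ .inr (.inr (.inr (.inl ⟨rfl, h⟩))))))
    (List.forall_mem_nil _) (Van.of0 rfl) (fun _ _ _ _ _ _ _ y2 a2 b2 _ _ _ ↦ N y2 (l2.ge.trans a2)
    (b2.trans u2.ge))

end Pool.Agent.Lib.MP_d6150d_an.PpS0
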