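import Pool.Agent.Lib.MP_d6150d_an.PpT0D

/-! A generated chart: the computations. -/

namespace Pool.Agent.Lib.MP_d6150d_an.PpT0

theorem k0 : chk C 0x888138818813388833288833888923322 [(0, 68719476736), (0, 549755813888), (0,
    26388279066624), (0, 140737488355328)] = true := by
  decide +kernel

end Pool.Agent.Lib.MP_d6150d_an.PpT0
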