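import Pool.Agent.Lib.MP_d6150d_an.PpMac
import Pool.Agent.Lib.MP_d6150d_an.PpT0K0

/-! A generated chart: the inequality. -/

namespace Pool.Agent.Lib.MP_d6150d_an.PpT0

set_option linter.unnecessarySeqFocus false
set_option linter.unusedTactic false
set_option linter.unusedVariables false

theorem gd : Gd2 C [(0, 68719476736), (0, 549755813888), (0, 26388279066624), (0, 140737488355328)]
    := chk_sound2 k0

set_option maxRecDepth 100000 in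
theorem eq {be ze e rh F x d Q D W p2 c1 la Y r : ℝ} (hF : F = 1 / 4 - e) (hx : x = ze ^ 2 + e * be)
    (hd : d = rh * x) (hQ : Q = 1 + d) (hD : D = d / (1 - d)) (hW : W = (1 - x) * (1 - rh)) (hp2 :
    p2 = (pjR F x Q rh).1) (hc1 : c1 = (1 - ze) / (1 - 2 * F)) (hla : la = (1 - x * ze) / (2 - 2 *
    F)) (hY : Y = d * c1 + (c1 - 1 + x) / (2 * F) - rh * la) (hr : r = (√(ze + 2 * F * (1 - 2 * D -
    F) / 3 * ((1 + D) * Y)))⁻¹) : outR prog 0 [be, ze, e, rh] = W ^ 3 * (1 - ze * r ^ 3) + 4 * F * Y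
    * (p2 * Y + W ^ 2) := by
  replace hF : F = (((Int.cast (1) : ℝ) / (Nat.cast 4 : ℝ)) - e) := hF.trans (by push_cast <;> ring)
  replace hx : x = ((ze * ze) + (e * be)) := hx.trans (by push_cast <;> ring)
  replace hd : d = (rh * x) := hd.trans (by push_cast <;> ring)
  replace hQ : Q = ((Int.cast (1) : ℝ) + d) := hQ.trans (by push_cast <;> ring)
  replace hD : D = (d * ((Int.cast (1) : ℝ) - d)⁻¹) := hD.trans (by push_cast <;> ring)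
  replace hW : W = (((Int.cast (1) : ℝ) - x) * ((Int.cast (1) : ℝ) - rh)) := hW.trans (by push_cast
    <;> ring)
  replace hp2 : p2 = (mPj F x Q rh).1 := hp2.trans (mPj_0 ..)
  replace hc1 : c1 = (((Int.cast (1) : ℝ) - ze) * ((Int.cast (1) : ℝ) - ((Int.cast (2) : ℝ) * F))⁻¹)
    := hc1.trans (by push_cast <;> ring)
  replace hla : la = (((Int.cast (1) : ℝ) - (x * ze)) * ((Int.cast (2) : ℝ) - ((Int.cast (2) : ℝ) *
    F))⁻¹) := hla.trans (by push_cast <;> ring)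
  replace hY : Y = (((d * c1) + (((c1 - (Int.cast (1) : ℝ)) + x) * ((Int.cast (2) : ℝ) * F)⁻¹)) -
    (rh * la)) := hY.trans (by push_cast <;> ring)
  replace hr : r = (√(ze + ((((Int.cast (1) : ℝ) / (Nat.cast 3 : ℝ)) * (((Int.cast (2) : ℝ) * F) *
    (((Int.cast (1) : ℝ) - ((Int.cast (2) : ℝ) * D)) - F))) * (((Int.cast (1) : ℝ) + D) * Y))))⁻¹ :=
    hr.trans (congrArg (fun x : ℝ ↦ (√x)⁻¹) (by push_cast <;> ring))
  have e0 : ((((W * W) * W) * ((Int.cast (1) : ℝ) - (ze * ((r * r) * r)))) + ((((Int.cast (4) : ℝ) *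
    F) * Y) * ((p2 * Y) + (W * W)))) = W ^ 3 * (1 - ze * r ^ 3) + 4 * F * Y * (p2 * Y + W ^ 2) := by
    push_cast <;> ring
  subst hF hx hd hQ hD hW hp2 hc1 hla hY hr
  exact Eq.trans rfl e0

theorem l0 : ((0 : ℤ) : ℝ) / 2 ^ 47 = 0 := by norm_num
theorem u0 : (1 / 2048 : ℝ) = ((68719476736 : ℤ) : ℝ) / 2 ^ 47 := by norm_num
theorem l1 : ((0 : ℤ) : ℝ) / 2 ^ 47 = 0 := by norm_num
theorem u1 : (1 / 256 : ℝ) = ((549755813888 : ℤ) : ℝ) / 2 ^ 47 := by norm_num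
theorem l2 : ((0 : ℤ) : ℝ) / 2 ^ 47 = 0 := by norm_num
theorem u2 : (3 / 16 : ℝ) = ((26388279066624 : ℤ) : ℝ) / 2 ^ 47 := by norm_num
theorem l3 : ((0 : ℤ) : ℝ) / 2 ^ 47 = 0 := by norm_num
theorem u3 : (1 : ℝ) = ((140737488355328 : ℤ) : ℝ) / 2 ^ 47 := by norm_num

theorem out0 (N : ∀ be ze : ℝ, 0 ≤ be → be ≤ 1 / 2048 → 0 ≤ ze → ze ≤ 1 / 256 → 0 ≤ outR prog 0 [be,
    ze, 0, 0]) {be ze e rh : ℝ} (a0 : 0 ≤ be) (b0 : be ≤ 1 / 2048) (a1 : 0 ≤ ze) (b1 : ze ≤ 1 / 256)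
    (a2 : 0 ≤ e) (b2 : e ≤ 3 / 16) (a3 : 0 ≤ rh) (b3 : rh ≤ 1) (pc : 0 < e ∨ 0 < rh) : 0 < outR prog
    0 [be, ze, e, rh] :=
  gd 0 (by decide) [be, ze, e, rh] (.cons ⟨l0.le.trans a0, b0.trans u0.le⟩ (.cons ⟨l1.le.trans a1,
    b1.trans u1.le⟩ (.cons ⟨l2.le.trans a2, b2.trans u2.le⟩ (.cons ⟨l3.le.trans a3, b3.trans u3.le⟩
    (.nil))))) ⟨nofun, nofun, nofun, nofun, trivial⟩ (fun _ ↦ pc.elim (fun h ↦ .inr (.inr (.inl
    ⟨rfl, h⟩))) (fun h ↦ .inr (.inr (.inr (.inl ⟨rfl, h⟩))))) (List.forall_mem_nil _) (Van.of0 rfl)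
    (fun _ y0 a0 b0 y1 a1 b1 _ _ _ _ _ _ ↦ N y0 y1 (l0.ge.trans a0) (b0.trans u0.ge) (l1.ge.trans
    a1) (b1.trans u1.ge))

end Pool.Agent.Lib.MP_d6150d_an.PpT0
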