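import Pool.Agent.Lib.MP_d6150d_an.PpAx2
import Pool.Agent.Lib.MP_d6150d_an.PpR0
import Pool.Agent.Lib.MP_d6150d_an.PpL0
import Pool.Agent.Lib.MP_d6150d_an.PpM0
import Pool.Agent.Lib.MP_d6150d_an.PpT0
import Pool.Agent.Lib.MP_d6150d_an.PpS0

/-! The cell `F ≤ 1 / 4`. -/

namespace Pool.Agent.Lib.MP_d6150d_an

open Real Set Filter Topology Asymptotics

variable {D F e t u : ℝ}

/-- the weight at the center -/
noncomputable def cP (D a b : ℝ) : ℝ := ph1 a * (1 + D - D * exp b)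

theorem cP_pos (a : ℝ) (ht : t ∈ JR D) : 0 < cP D a (-t) := mul_pos (ph1_pos _) (cW_pos ht)

theorem cP_cont {f g : ℝ → ℝ} (hf : Continuous f) (hg : Continuous g) :
    Continuous fun u ↦ cP D (f u) (g u) := (ph1_cont.comp hf).mul (by fun_prop)

theorem Z_cen {Y W p2 p3 z yi v h : ℝ} (h0 : t ≠ 0) (hW : W ≠ 0)
    (H : NN F 0 1 (z * (0 + 0 * v)) p2 p3 Y W t - t * W ^ 5 * EP (f0P 0 0 1 D F) (f1P 0 0 1 D F)
      (2 * F * (1 - 2 * D - F) / 3) v * yi = t * W ^ 5 * h) :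
    W ^ 3 * ((√(1 + 2 * F * (1 - 2 * D - F) / 3 * v))⁻¹ ^ 3 * yi - 1) +
      4 * F * t * Y * (p2 * Y + W ^ 2) = 4 * W ^ 3 * h := by
  have h1 : EP _ _ _ _ = _ := EH_Z D F 1 v
  rw [h1, NN] at H
  refine mul_left_cancel₀ (mul_ne_zero h0 (pow_ne_zero 2 hW)) ?_
  linear_combination 4 * H

theorem vR_half (D F t : ℝ) : vR D F t / 2 = t ^ 2 * muR D F t / 2 := rfl

theorem R0_eq (hF : F = 1 / 4 - e) (ht : u ∈ JR D) (h0 : u ≠ 0) :
    outR PpR0.prog 0 [D, e, u] = 4 * cP D (-u) (-u) ^ 3 * HZ D F u :=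
  (PpR0.eq hF rfl rfl rfl (vR_half D F u) rfl rfl rfl rfl rfl rfl rfl rfl rfl).trans
    (Z_cen h0 (cP_pos _ ht).ne' (cenR ht h0 rfl rfl rfl rfl rfl rfl).1)

theorem L0_eq (hF : F = 1 / 4 - e) (ht : -u ∈ JR D) (h0 : -u ≠ 0) :
    outR PpL0.prog 0 [D, e, u] = -(4 * cP D (-u) (- -u) ^ 3) * HZ D F (-u) :=
  (PpL0.eq hF rfl rfl rfl rfl (vR_half D F (-u)) rfl rfl rfl rfl rfl rfl rfl rfl rfl rfl).trans
    ((congrArg Neg.neg
      (Z_cen h0 (cP_pos _ ht).ne' (cenL ht h0 rfl rfl rfl rfl rfl rfl rfl).1)).trans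
      (neg_mul _ _).symm)

theorem R0_pos (a0 : 0 ≤ D) (b0 : D ≤ 3 / 32) (hF : F = 1 / 4 - e) (a1 : 0 ≤ e) (b1 : e ≤ 3 / 16)
    (pc : 0 < D ∨ 0 < e) (a2 : 0 < u) (b2 : u ≤ 3) : 0 < HZ D F u := by
  have := PpR0.out0 (fun D e _ _ _ _ ↦ HP_VR (F := 1 / 4 - e) (by linarith) 0
    (c := fun u ↦ 4 * cP D (-u) (-u) ^ 3)
    (continuous_const.mul ((cP_cont continuous_neg continuous_neg).pow 3))
    fun u h k ↦ (R0_eq rfl k h.ne').trans (by rw [pow_zero, mul_one, HZ])) (fun u h _ ↦ by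
      rcases h.eq_or_lt with rfl | h
      · exact ((PpR0.eq rfl rfl rfl rfl rfl rfl rfl rfl rfl rfl rfl rfl rfl rfl).trans (by simp)).ge
      · rw [R0_eq rfl (JR_zero u) h.ne', HZ_iso rfl (sub_zero _) h.ne', mul_zero])
    a0 b0 a1 b1 a2.le b2 a2 pc
  rw [R0_eq hF (JR_pos a0 a2.le) a2.ne'] at this
  have h := cP_pos (-u) (JR_pos a0 a2.le)
  exact pos_of_mul_pos_right this (by positivity)

theorem L0_pos (a0 : 0 ≤ D) (b0 : D ≤ 3 / 32) (hF : F = 1 / 4 - e) (a1 : 0 ≤ e) (b1 : e ≤ 3 / 16)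
    (pc : 0 < D ∨ 0 < e) (ht : -u ∈ JR D) (a2 : 0 < u) (b2 : u ≤ 2) : HZ D F (-u) < 0 := by
  have := PpL0.out0 (fun D e _ _ _ _ ↦ HP_VL (F := 1 / 4 - e) (by linarith) 0
    (c := fun u ↦ -(4 * cP D (-u) (- -u) ^ 3))
    (continuous_const.mul ((cP_cont continuous_neg continuous_neg.neg).pow 3)).neg
    fun u h k ↦ (L0_eq rfl k (neg_ne_zero.2 h.ne')).trans (by rw [pow_zero, mul_one, HZ]))
    (fun u h _ ↦ by
      rcases h.eq_or_lt with rfl | h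
      · exact ((PpL0.eq rfl rfl rfl rfl rfl rfl rfl rfl rfl rfl rfl rfl rfl rfl rfl rfl).trans
          (by simp)).ge
      · rw [L0_eq rfl (JR_zero _) (neg_ne_zero.2 h.ne'),
          HZ_iso rfl (sub_zero _) (neg_ne_zero.2 h.ne'), mul_zero])
    a0 b0 a1 b1 a2.le b2 a2 pc
  rw [L0_eq hF ht (neg_ne_zero.2 a2.ne')] at this
  have h := cP_pos (-u) ht
  exact neg_of_mul_pos_right this (neg_nonpos.2 (by positivity))

variable {rh : ℝ}

theorem M0_eq (hF : F = 1 / 4 - e) (a1 : 0 ≤ e) (b1 : e ≤ 3 / 16) (hu : 0 < u) (r0 : 0 ≤ rh)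
    (r1 : rh < 1) (hD : D = rh * exp (-u) / (1 - rh * exp (-u))) :
    ∃ W, 0 < W ∧ outR PpM0.prog 0 [rh, e, u] = -(W ^ 3 * (4 * HZ D F (-u))) :=
  have := left0 hu r0 r1 (F := F) (by linarith) (by linarith) rfl rfl hD rfl rfl rfl rfl rfl rfl
  ⟨_, this.2, (PpM0.eq hF rfl rfl hD rfl rfl rfl rfl rfl rfl rfl rfl rfl).trans this.1⟩

theorem neg_of_cube {W h : ℝ} (hW : 0 < W) (k : 0 < -(W ^ 3 * (4 * h))) : h < 0 := by
  have := neg_of_mul_neg_right (neg_pos.1 k) (by positivity)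
  linarith

theorem M0_pos (hF : F = 1 / 4 - e) (a1 : 0 ≤ e) (b1 : e ≤ 3 / 16) (r0 : 0 ≤ rh)
    (r1 : rh < 1) (hD : D = rh * exp (-u) / (1 - rh * exp (-u))) (pc : 0 < rh ∨ 0 < e)
    (a2 : 2 ≤ u) (b2 : u ≤ 12) : HZ D F (-u) < 0 := by
  obtain ⟨W, hW, h⟩ := M0_eq hF a1 b1 (by linarith) r0 r1 hD
  refine neg_of_cube hW (h ▸ PpM0.out0 (fun u h _ ↦ ?_) r0 r1.le a1 b1 a2 b2 pc)
  obtain ⟨W, -, k⟩ := M0_eq (D := 0) (u := u) rfl le_rfl (by norm_num) (by linarith) le_rfl one_pos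
    (by simp)
  rw [k, HZ_iso rfl (sub_zero _) (by linarith), mul_zero, mul_zero, neg_zero]

theorem T0_N {be ze : ℝ} (h : 0 ≤ ze) : outR PpT0.prog 0 [be, ze, 0, 0] = 0 := by
  have h1 : 0 < (1 + ze) / 2 := by positivity
  refine (PpT0.eq (F := 1 / 4) (x := ze ^ 2) (d := 0) (Q := 1) (D := 0) (W := 1 - ze ^ 2)
    (p2 := -ze ^ 2 / 4 - 3 / 4) (c1 := 2 * (1 - ze)) (Y := 2 * (1 - ze) ^ 2) (by ring) (by ring)
    (by ring) (by ring) (by ring) (by ring) (by simp only [pjR]; ring) (by ring) rfl (by ring)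
    (rsq_eq h1 (by ring))).trans ?_
  field_simp
  ring

theorem T0_pos (hF : F = 1 / 4 - e) (a1 : 0 ≤ e) (b1 : e ≤ 3 / 16) (r0 : 0 ≤ rh)
    (r1 : rh < 1) (hD : D = rh * exp (-u) / (1 - rh * exp (-u))) (pc : 0 < rh ∨ 0 < e)
    (a2 : 12 ≤ u) : HZ D F (-u) < 0 := by
  have hu : 0 < u := by linarith
  have p1 := ph1_pos (-(4 * e * u))
  have p2 := ph1_le (z := -(4 * e * u)) (neg_nonpos.2 (by positivity))
  have hx : exp (-u) = exp ((2 * F - 1) * u) ^ 2 + e * (4 * u * ph1 (-(4 * e * u)) * exp (-u)) := by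
    rw [← exp_nat_mul, show ((2 : ℕ) : ℝ) * ((2 * F - 1) * u) = -(4 * e * u) + -u by
      rw [hF]; push_cast; ring, exp_add, exp_eq_ph (-(4 * e * u))]
    ring
  have h1 := PpT0.out0 (fun _ _ _ _ h _ ↦ (T0_N h).ge)
    (be := 4 * u * ph1 (-(4 * e * u)) * exp (-u)) (ze := exp ((2 * F - 1) * u)) (by positivity)
    (exp_ub 12 (x := u) (by simpa) le_rfl (by positivity) (by norm_num) (by push_cast; nlinarith))
    (exp_pos _).le (one_mul (exp _) ▸ exp_ub 6 (x := 6) (by simp) (by nlinarith) zero_le_one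
      (by norm_num) (by norm_num)) a1 b1 r0 r1.le pc.symm
  rw [PpT0.eq hF hx rfl rfl hD rfl rfl rfl rfl rfl rfl] at h1
  obtain ⟨h2, h3⟩ := left0 hu r0 r1 (F := F) (by linarith) (by linarith) rfl rfl hD rfl rfl rfl rfl
    rfl rfl
  refine neg_of_cube h3 (h2 ▸ h1.trans_le ?_)
  have : exp ((4 * F - 3 / 2) * u) ≤ exp ((2 * F - 1) * u) := exp_le_exp.2 (by nlinarith)
  gcongr

theorem S0_N {a : ℝ} (h : 0 ≤ a) (k : a ≤ 1) : outR PpS0.prog 0 [0, 0, a, 0] = 0 := by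
  have h0 := exp_pos (-(6 * (1 / 4)))
  have h1 : exp (-(6 * (1 / 4))) < 1 := exp_lt_one_iff.2 (by norm_num)
  obtain ⟨z, hz⟩ : ∃ z, z = exp (-(6 * (1 / 4))) * a := ⟨_, rfl⟩
  have z0 : 0 < 1 + z := by rw [hz]; positivity
  have z1 : 0 < 1 - z := by rw [hz]; nlinarith
  refine (PpS0.eq (F := 1 / 4) (z4 := 1) (ch := 1) (q := z ^ 2) (g := (1 - z) * (1 + z))
    (g1 := 1 / ((1 - z) * (1 + z))) (nu := -1 / (1 + z)) (m := 2 * (1 - z) / (1 + z))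
    (r := ((1 + z) / 2)⁻¹) (by ring) rfl hz (by simp) (by ring) (by ring) (by ring) rfl (by ring)
    (by field_simp; ring) (by field_simp; ring) (rsq_eq (by positivity) (by field_simp; ring))).trans ?_
  field_simp
  ring

theorem S0_pos (a0 : 0 ≤ D) (b0 : D ≤ 3 / 32) (hF : F = 1 / 4 - e) (a1 : 0 ≤ e) (b1 : e ≤ 3 / 16)
    (pc : 0 < D ∨ 0 < e) (a2 : 3 ≤ t) : 0 < HZ D F t := by
  have h1 := PpS0.out0 (fun _ h k ↦ (S0_N h k).ge) (a := exp (-(2 * F * (t - 3))))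
    (h := 1 - exp (-(4 * e * (t - 3)))) a0 b0 a1 b1 (exp_pos _).le
    (exp_le_one_iff.2 (by nlinarith)) (sub_nonneg.2 (exp_le_one_iff.2 (by nlinarith)))
    (by linarith [exp_pos (-(4 * e * (t - 3)))]) (pc.imp_right Or.inl)
  obtain ⟨z, hz⟩ : ∃ z, z = exp (-(F * t)) ^ 2 := ⟨_, rfl⟩
  obtain ⟨c, hc⟩ : ∃ c, c = exp (-(4 * e * t)) := ⟨_, rfl⟩
  obtain ⟨q, hq⟩ : ∃ q, q = exp (-t) := ⟨_, rfl⟩
  have e1 : q = z ^ 2 * c := by
    rw [hq, hz, hc, ← exp_nat_mul, ← exp_nat_mul, ← exp_add, hF]; congr 1; push_cast; ring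
  have e2 : q * exp ((1 - 2 * F) * t) = z := by
    rw [hq, hz, ← exp_nat_mul, ← exp_add]; congr 1; push_cast; ring
  have F0 : F ≠ 0 := by linarith
  have F1 : 1 - 2 * F ≠ 0 := by linarith
  rw [PpS0.eq hF rfl (z := z) (by rw [hz, ← exp_nat_mul, ← exp_add]; congr 1; push_cast; ring) rfl
    (ch := c) (by rw [sub_sub_cancel, hc, ← exp_add]; congr 1; ring) e1 rfl rfl rfl rfl rfl rfl] at h1
  rw [HZ, right_eq (by linarith) a0 F0 (by linarith) hq hz rfl rfl rfl rfl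
    (m := (z * ((D * (1 - z * c * q) / (1 - F) - (1 + 2 * D) * (1 - z * c) / (1 - 2 * F)) *
      (1 / ((1 - q) * (1 + D - D * q))) / 2) + 1 / 2) / F) (by
      rw [show q * (t * ph1 ((1 - 2 * F) * t)) = z * (1 - z * c) / (1 - 2 * F) by
        rw [exp_eq_ph] at e2; rw [eq_div_iff F1]; linear_combination e2 - e1,
        show z - q ^ 2 = z * (1 - z * c * q) by linear_combination -q * e1]
      ring), EH_Z]
  generalize (D * (1 - z * c * q) / (1 - F) - (1 + 2 * D) * (1 - z * c) / (1 - 2 * F)) *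
      (1 / ((1 - q) * (1 + D - D * q))) / 2 = nu at *
  generalize hm : (z * nu + 1 / 2) / F = m at *
  rw [div_eq_iff F0] at hm
  have z0 : 0 < z ^ 2 / 4 := by rw [hz]; positivity
  refine (mul_pos z0 h1).trans_eq ?_
  generalize (√_)⁻¹ = r
  generalize (1 + 2 * D - 2 * D * q) * _ = g1
  linear_combination F * g1 * m ^ 2 * e1 - (z * nu - 1 / 2 + m * F) * hm

theorem PZ (a0 : 0 ≤ D) (b0 : D ≤ 3 / 32) (F0 : 1 / 16 ≤ F) (F1 : F ≤ 1 / 4)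
    (pc : 0 < D ∨ F < 1 / 4) : NoThree D F := by
  have hF : F = 1 / 4 - (1 / 4 - F) := by ring
  have a1 := sub_nonneg.2 F1
  have b1 : 1 / 4 - F ≤ 3 / 16 := by linarith
  replace pc := pc.imp_right sub_pos.2
  refine HP_noThree (A := 0) (B := 0) (C := 1) (β := 2 * F * (1 - 2 * D - F) / 3) (by linarith)
    (fun _ _ _ ↦ by simp) (fun a ha h ↦ mul_pos_of_neg_of_neg h ?_) fun _ _ b _ h _ ↦ mul_pos h ?_
  · obtain ⟨u, rfl⟩ : ∃ u, a = -u := ⟨-a, (neg_neg a).symm⟩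
    obtain ⟨rh, r0, r1, r2, hD⟩ := left_par a0 ha
    rcases le_total u 2 with k | k
    · exact L0_pos a0 b0 hF a1 b1 pc ha (neg_neg_iff_pos.1 h) k
    rcases le_total u 12 with l | l
    exacts [M0_pos hF a1 b1 r0 r1 hD (pc.imp_left r2) k l, T0_pos hF a1 b1 r0 r1 hD (pc.imp_left r2) l]
  · rcases le_total b 3 with k | k
    exacts [R0_pos a0 b0 hF a1 b1 pc h k, S0_pos a0 b0 hF a1 b1 pc k]

end Pool.Agent.Lib.MP_d6150d_an
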