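import Pool.Agent.Lib.MP_d6150d_an.PpL1D

/-! A generated chart: the computations. -/

namespace Pool.Agent.Lib.MP_d6150d_an.PpL1

theorem k0 : chk C 0x888888282011188288088222820992999222920 [(0, 1649267441664), (0, 755914244096),
    (0, 35184372088832)] = true := by
  decide +kernel

theorem k1 : chk C 0x8818808822820 [(0, 1649267441664), (755914244096, 1511828488192), (0,
    35184372088832)] = true := by
  decide +kernel

theorem k2 : chk C 0x880888010 [(0, 1649267441664), (1511828488192, 3023656976384), (0,
    35184372088832)] = true := by
  decide +kernel

theorem k3 : chk C 0x880888888010011 [(1649267441664, 3298534883328), (0, 3023656976384), (0,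
    35184372088832)] = true := by
  decide +kernel

theorem k4 : chk C 0x8808810 [(0, 3298534883328), (3023656976384, 6047313952768), (0,
    35184372088832)] = true := by
  decide +kernel

theorem k5 : chk C 0x880880288821992088821992021 [(0, 1649267441664), (0, 3023656976384),
    (35184372088832, 52776558133248)] = true := by
  decide +kernel

theorem k6 : chk C 0x8808829920882992021 [(0, 1649267441664), (0, 3023656976384), (52776558133248,
    70368744177664)] = true := by
  decide +kernel

theorem k7 : chk C 0x88821888018882122 [(1649267441664, 3298534883328), (0, 3023656976384),
    (35184372088832, 70368744177664)] = true := by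
  decide +kernel

theorem k8 : chk C 0x8882288088220 [(0, 3298534883328), (3023656976384, 6047313952768),
    (35184372088832, 70368744177664)] = true := by
  decide +kernel

theorem k9 : chk C 0x888218880188811228808881012 [(3298534883328, 6597069766656), (0,
    6047313952768), (0, 70368744177664)] = true := by
  decide +kernel

end Pool.Agent.Lib.MP_d6150d_an.PpL1
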