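import Pool.Agent.Lib.MP_d6150d_an.PpL1D

/-! A generated chart: the computations. -/

namespace Pool.Agent.Lib.MP_d6150d_an.PpL1

theorem k10 : chk C 0x88822881288800881882028880120 [(0, 6597069766656), (6047313952768,
    12094627905536), (0, 70368744177664)] = true := by
  decide +kernel

theorem k11 : chk C 0x8808822888002888228818880220880881021 [(6597069766656, 13194139533312), (0,
    12094627905536), (0, 70368744177664)] = true := by
  decide +kernel

theorem k12 : chk C 0x880888118992101880888029920888219920212 [(0, 1649267441664), (0,
    3023656976384), (70368744177664, 140737488355328)] = true := by
  decide +kernel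

theorem k13 : chk C 0x88822 [(0, 1649267441664), (3023656976384, 6047313952768), (70368744177664,
    140737488355328)] = true := by
  decide +kernel

theorem k14 : chk C 0x88288821888822121 [(1649267441664, 3298534883328), (0, 6047313952768),
    (70368744177664, 140737488355328)] = true := by
  decide +kernel

theorem k15 : chk C 0x882888220 [(0, 3298534883328), (6047313952768, 12094627905536),
    (70368744177664, 140737488355328)] = true := by
  decide +kernel

theorem k16 : chk C 0x888028880188188801221 [(3298534883328, 6597069766656), (0, 12094627905536),
    (70368744177664, 140737488355328)] = true := by
  decide +kernel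

theorem k17 : chk C 0x8880188821880882102 [(6597069766656, 13194139533312), (0, 12094627905536),
    (70368744177664, 140737488355328)] = true := by
  decide +kernel

end Pool.Agent.Lib.MP_d6150d_an.PpL1
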