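import Pool.Agent.Lib.MP_d6150d_an.PpL1D

/-! A generated chart: the computations. -/

namespace Pool.Agent.Lib.MP_d6150d_an.PpL1

theorem k18 : chk C 0x880882288801288822881288288802288801200 [(0, 13194139533312), (12094627905536,
    24189255811072), (0, 70368744177664)] = true := by
  decide +kernel

theorem k19 : chk C 0x880882288288088802200 [(0, 13194139533312), (12094627905536, 24189255811072),
    (70368744177664, 140737488355328)] = true := by
  decide +kernel

theorem k20 : chk C 0x882828880282088282888228201 [(0, 6597069766656), (24189255811072,
    48378511622144), (0, 70368744177664)] = true := by
  decide +kernel

theorem k21 : chk C 0x8808822888012 [(6597069766656, 13194139533312), (24189255811072,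
    48378511622144), (0, 70368744177664)] = true := by
  decide +kernel

theorem k22 : chk C 0x88088228880288088802200 [(0, 13194139533312), (24189255811072,
    48378511622144), (70368744177664, 140737488355328)] = true := by
  decide +kernel

theorem k23 : chk C 0x88282880882282882821088282888028201 [(0, 6597069766656), (48378511622144,
    96757023244288), (0, 70368744177664)] = true := by
  decide +kernel

theorem k24 : chk C 0x88088228288822821 [(6597069766656, 13194139533312), (48378511622144,
    96757023244288), (0, 70368744177664)] = true := by
  decide +kernel

end Pool.Agent.Lib.MP_d6150d_an.PpL1
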