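import Pool.Agent.Lib.MP_d6150d_an.PpL1D

/-! A generated chart: the computations. -/

namespace Pool.Agent.Lib.MP_d6150d_an.PpL1

theorem k25 : chk C 0x888028828818822008828880201 [(0, 6597069766656), (48378511622144,
    96757023244288), (70368744177664, 140737488355328)] = true := by
  decide +kernel

theorem k26 : chk C 0x88288802288188221 [(6597069766656, 13194139533312), (48378511622144,
    96757023244288), (70368744177664, 140737488355328)] = true := by
  decide +kernel

theorem k27 : chk C 0x888888222118828882289921089921899212210 [(0, 1649267441664), (0,
    3023656976384), (140737488355328, 281474976710656)] = true := by
  decide +kernel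

theorem k28 : chk C 0x88820 [(0, 1649267441664), (3023656976384, 6047313952768), (140737488355328,
    281474976710656)] = true := by
  decide +kernel

theorem k29 : chk C 0x88818882121 [(1649267441664, 3298534883328), (0, 6047313952768),
    (140737488355328, 281474976710656)] = true := by
  decide +kernel

theorem k30 : chk C 0x8888200 [(0, 3298534883328), (6047313952768, 12094627905536),
    (140737488355328, 281474976710656)] = true := by
  decide +kernel

theorem k31 : chk C 0x882888208882121 [(3298534883328, 6597069766656), (0, 12094627905536),
    (140737488355328, 281474976710656)] = true := by
  decide +kernel

theorem k32 : chk C 0x88088108818880102 [(6597069766656, 13194139533312), (0, 12094627905536),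
    (140737488355328, 281474976710656)] = true := by
  decide +kernel

theorem k33 : chk C 0x8808822882888822000 [(0, 13194139533312), (12094627905536, 24189255811072),
    (140737488355328, 281474976710656)] = true := by
  decide +kernel

theorem k34 : chk C 0x882882188088022881828828818812000 [(0, 13194139533312), (24189255811072,
    48378511622144), (140737488355328, 281474976710656)] = true := by
  decide +kernel

end Pool.Agent.Lib.MP_d6150d_an.PpL1
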