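import Pool.Agent.Lib.MP_d6150d_an.PpL1D

/-! A generated chart: the computations. -/

namespace Pool.Agent.Lib.MP_d6150d_an.PpL1

theorem k35 : chk C 0x8808288128828818200 [(0, 6597069766656), (48378511622144, 72567767433216),
    (140737488355328, 281474976710656)] = true := by
  decide +kernel

theorem k36 : chk C 0x881828881008818881002 [(0, 3298534883328), (72567767433216, 96757023244288),
    (140737488355328, 281474976710656)] = true := by
  decide +kernel

theorem k37 : chk C 0x8808802882188088022 [(3298534883328, 6597069766656), (72567767433216,
    96757023244288), (140737488355328, 281474976710656)] = true := by
  decide +kernel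

theorem k38 : chk C 0x8808802880822882882228828821880880221 [(6597069766656, 13194139533312),
    (48378511622144, 96757023244288), (140737488355328, 281474976710656)] = true := by
  decide +kernel

end Pool.Agent.Lib.MP_d6150d_an.PpL1
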