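import Pool.Agent.Lib.MP_d6150d_an.PpMac
import Pool.Agent.Lib.MP_d6150d_an.PpL1K0
import Pool.Agent.Lib.MP_d6150d_an.PpL1K1
import Pool.Agent.Lib.MP_d6150d_an.PpL1K2
import Pool.Agent.Lib.MP_d6150d_an.PpL1K3
import Pool.Agent.Lib.MP_d6150d_an.PpL1K4

/-! A generated chart: the inequality. -/

namespace Pool.Agent.Lib.MP_d6150d_an.PpL1

set_option linter.unnecessarySeqFocus false
set_option linter.unusedTactic false
set_option linter.unusedVariables false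

theorem gd : Gd2 C [(0, 13194139533312), (0, 96757023244288), (0, 281474976710656)] := .split 2
    (.split 1 (.split 1 (.split 1 (.split 2 (.split 0 (.split 1 (.split 0 (.split 2 (.split 1
    (.split 0 (.split 1 (.split 1 (chk_sound2 k0) (chk_sound2 k1)) (chk_sound2 k2)) (chk_sound2 k3))
    (chk_sound2 k4)) (.split 1 (.split 0 (.split 2 (chk_sound2 k5) (chk_sound2 k6)) (chk_sound2 k7))
    (chk_sound2 k8))) (chk_sound2 k9)) (chk_sound2 k10)) (chk_sound2 k11)) (.split 0 (.split 0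
    (.split 1 (.split 0 (.split 1 (chk_sound2 k12) (chk_sound2 k13)) (chk_sound2 k14)) (chk_sound2
    k15)) (chk_sound2 k16)) (chk_sound2 k17))) (.split 2 (chk_sound2 k18) (chk_sound2 k19))) (.split
    2 (.split 0 (chk_sound2 k20) (chk_sound2 k21)) (chk_sound2 k22))) (.split 2 (.split 0
    (chk_sound2 k23) (chk_sound2 k24)) (.split 0 (chk_sound2 k25) (chk_sound2 k26)))) (.split 1
    (.split 1 (.split 1 (.split 0 (.split 0 (.split 1 (.split 0 (.split 1 (chk_sound2 k27)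
    (chk_sound2 k28)) (chk_sound2 k29)) (chk_sound2 k30)) (chk_sound2 k31)) (chk_sound2 k32))
    (chk_sound2 k33)) (chk_sound2 k34)) (.split 0 (.split 1 (chk_sound2 k35) (.split 0 (chk_sound2
    k36) (chk_sound2 k37))) (chk_sound2 k38)))

set_option maxRecDepth 100000 in
theorem eq {D e u F C B t q yi mu v x P Q R z13 W z Y p2 p3 Om f0 f1 E N : ℝ} (hF : F = e + 1 / 4)
    (hC : C = 9 / 8 - 4 * F) (hB : B = 2 * F * (1 - 2 * F)) (ht : t = -u) (hq : q = Real.exp (-t))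
    (hyi : yi = Real.exp (-(F * t))) (hmu : mu = muR D F t) (hv : v = t ^ 2 * mu / 2) (hx : x =
    Real.exp t) (hP : P = (1 + D) * x) (hQ : Q = 1 + 2 * D) (hR : R = D * q) (hz13 : z13 = ph1 t)
    (hW : W = z13 * (1 + D - D * q)) (hz : z = yi ^ 2 * x) (hY : Y = mu * z / 2) (hp2 : p2 = (pjR F
    P Q R).1) (hp3 : p3 = (pjR F P Q R).2.1) (hOm : Om = z * (1 + B * v)) (hf0 : f0 = f0P 1 B C D F)
    (hf1 : f1 = f1P 1 B C D F) (hE : E = EP f0 f1 (1 / 8) v) (hN : N = NN F B C Om p2 p3 Y W t) :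
    outR prog 0 [D, e, u] = N - t * W ^ 5 * E * yi := by
  replace hF : F = (e + ((Int.cast (1) : ℝ) / (Nat.cast 4 : ℝ))) := hF.trans (by push_cast <;> ring)
  replace hC : C = (((Int.cast (9) : ℝ) / (Nat.cast 8 : ℝ)) - ((Int.cast (4) : ℝ) * F)) := hC.trans
    (by push_cast <;> ring)
  replace hB : B = (((Int.cast (2) : ℝ) * F) * ((Int.cast (1) : ℝ) - ((Int.cast (2) : ℝ) * F))) :=
    hB.trans (by push_cast <;> ring)
  replace ht : t = ((Int.cast (-1) : ℝ) * u) := ht.trans (by push_cast <;> ring)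
  replace hq : q = (Real.exp ((Int.cast (-1) : ℝ) * t)) := hq.trans (congrArg Real.exp (by push_cast
    <;> ring))
  replace hyi : yi = (Real.exp ((Int.cast (-1) : ℝ) * (F * t))) := hyi.trans (congrArg Real.exp (by
    push_cast <;> ring))
  replace hmu : mu = (mMu D F t) := hmu.trans (mMu_0 ..)
  replace hv : v = (((Int.cast (1) : ℝ) / (Nat.cast 2 : ℝ)) * ((t * t) * mu)) := hv.trans (by
    push_cast <;> ring)
  replace hP : P = (((Int.cast (1) : ℝ) + D) * x) := hP.trans (by push_cast <;> ring)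
  replace hQ : Q = ((Int.cast (1) : ℝ) + ((Int.cast (2) : ℝ) * D)) := hQ.trans (by push_cast <;>
    ring)
  replace hR : R = (D * q) := hR.trans (by push_cast <;> ring)
  replace hW : W = (z13 * (((Int.cast (1) : ℝ) + D) - (D * q))) := hW.trans (by push_cast <;> ring)
  replace hz : z = ((yi * yi) * x) := hz.trans (by push_cast <;> ring)
  replace hY : Y = (((Int.cast (1) : ℝ) / (Nat.cast 2 : ℝ)) * (mu * z)) := hY.trans (by push_cast
    <;> ring)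
  replace hp2 : p2 = (mPj F P Q R).1 := hp2.trans (mPj_0 ..)
  replace hp3 : p3 = (mPj F P Q R).2.1 := hp3.trans (mPj_1 ..)
  replace hOm : Om = (z * ((Int.cast (1) : ℝ) + (B * v))) := hOm.trans (by push_cast <;> ring)
  replace hf0 : f0 = (mFF B C D F).1 := hf0.trans (mFF_0 ..)
  replace hf1 : f1 = (mFF B C D F).2 := hf1.trans (mFF_1 ..)
  replace hE : E = (mEP f0 f1 v) := hE.trans (mEP_0 ..)
  replace hN : N = (mNN F B C Om p2 p3 Y W t) := hN.trans (mNN_0 ..)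
  have e0 : (N - (((t * (((W * W) * (W * W)) * W)) * E) * yi)) = N - t * W ^ 5 * E * yi := by
    push_cast <;> ring
  subst hF hC hB ht hq hyi hmu hv hx hP hQ hR hz13 hW hz hY hp2 hp3 hOm hf0 hf1 hE hN
  exact Eq.trans rfl e0

theorem l0 : ((0 : ℤ) : ℝ) / 2 ^ 47 = 0 := by norm_num
theorem u0 : (3 / 32 : ℝ) = ((13194139533312 : ℤ) : ℝ) / 2 ^ 47 := by norm_num
theorem l1 : ((0 : ℤ) : ℝ) / 2 ^ 47 = 0 := by norm_num
theorem u1 : (11 / 16 : ℝ) = ((96757023244288 : ℤ) : ℝ) / 2 ^ 47 := by norm_num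
theorem l2 : ((0 : ℤ) : ℝ) / 2 ^ 47 = 0 := by norm_num
theorem u2 : (2 : ℝ) = ((281474976710656 : ℤ) : ℝ) / 2 ^ 47 := by norm_num

theorem out0 (V2 : ∀ D e : ℝ, 0 ≤ D → D ≤ 3 / 32 → 0 ≤ e → e ≤ 11 / 16 → (fun u ↦ outR prog 0 [D, e,
    u]) =O[nhdsWithin 0 (Set.Ioi 0)] fun u : ℝ ↦ u ^ 4) (N : ∀ u : ℝ, 0 ≤ u → u ≤ 2 → 0 ≤ outR prog
    0 [0, 0, u]) {D e u : ℝ} (a0 : 0 ≤ D) (b0 : D ≤ 3 / 32) (a1 : 0 ≤ e) (b1 : e ≤ 11 / 16) (a2 : 0
    ≤ u) (b2 : u ≤ 2) (p2 : 0 < u) (pc : 0 < D ∨ 0 < e) : 0 < outR prog 0 [D, e, u] :=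
  gd 0 (by decide) [D, e, u] (.cons ⟨l0.le.trans a0, b0.trans u0.le⟩ (.cons ⟨l1.le.trans a1,
    b1.trans u1.le⟩ (.cons ⟨l2.le.trans a2, b2.trans u2.le⟩ (.nil)))) ⟨nofun, nofun, fun _ ↦ p2,
    trivial⟩ (fun _ ↦ pc.elim (fun h ↦ .inl ⟨rfl, h⟩) (fun h ↦ .inr (.inl ⟨rfl, h⟩)))
    (List.forall_mem_nil _) (⟨fun _ ↦ allB_iff.2 fun _ _ ↦ trivial, fun y0 a0 b0 ↦ ⟨fun _ ↦
    allB_iff.2 fun _ _ ↦ trivial, fun y1 a1 b1 ↦ ⟨fun _ ↦ V2 y0 y1 (l0.ge.trans a0) (b0.trans u0.ge)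
    (l1.ge.trans a1) (b1.trans u1.ge), fun _ _ _ ↦ trivial⟩⟩⟩) (fun _ _ _ _ _ _ _ y2 a2 b2 ↦ N y2
    (l2.ge.trans a2) (b2.trans u2.ge))

end Pool.Agent.Lib.MP_d6150d_an.PpL1
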