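import Pool.Agent.Lib.MP_d6150d_an.PpM1D

/-! A generated chart: the computations. -/

namespace Pool.Agent.Lib.MP_d6150d_an.PpM1

theorem k0 : chk C 0x888218881128891891218808809189089022120 [(0, 8796093022208), (0,
    1374389534720), (281474976710656, 457396837154816)] = true := by
  decide +kernel

theorem k1 : chk C 0x880888228992101 [(0, 8796093022208), (0, 1374389534720), (457396837154816,
    633318697598976)] = true := by
  decide +kernel

theorem k2 : chk C 0x8828828882202 [(0, 8796093022208), (1374389534720, 2748779069440),
    (281474976710656, 633318697598976)] = true := by
  decide +kernel

theorem k3 : chk C 0x88811888018880122 [(8796093022208, 17592186044416), (0, 2748779069440),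
    (281474976710656, 633318697598976)] = true := by
  decide +kernel

theorem k4 : chk C 0x8882288288088810220 [(0, 17592186044416), (2748779069440, 5497558138880),
    (281474976710656, 633318697598976)] = true := by
  decide +kernel

theorem k5 : chk C 0x888018808880212 [(17592186044416, 35184372088832), (0, 5497558138880),
    (281474976710656, 633318697598976)] = true := by
  decide +kernel

theorem k6 : chk C 0x8882188088088822880889108828910210110 [(0, 35184372088832), (0, 5497558138880),
    (633318697598976, 985162418487296)] = true := by
  decide +kernel

theorem k7 : chk C 0x880880880880222 [(35184372088832, 70368744177664), (0, 5497558138880),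
    (281474976710656, 985162418487296)] = true := by
  decide +kernel

theorem k8 : chk C 0x880880881882022 [(70368744177664, 140737488355328), (0, 5497558138880),
    (281474976710656, 985162418487296)] = true := by
  decide +kernel

end Pool.Agent.Lib.MP_d6150d_an.PpM1
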