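import Pool.Agent.Lib.MP_d6150d_an.PpM1D

/-! A generated chart: the computations. -/

namespace Pool.Agent.Lib.MP_d6150d_an.PpM1

theorem k9 : chk C 0x8888222880888228818818881222020 [(0, 35184372088832), (5497558138880,
    10995116277760), (281474976710656, 985162418487296)] = true := by
  decide +kernel

theorem k10 : chk C 0x888880222 [(35184372088832, 70368744177664), (5497558138880, 10995116277760),
    (281474976710656, 985162418487296)] = true := by
  decide +kernel

theorem k11 : chk C 0x888880222 [(70368744177664, 140737488355328), (5497558138880, 10995116277760),
    (281474976710656, 985162418487296)] = true := by
  decide +kernel

theorem k12 : chk C 0x8818881228818881208881288188188122020 [(0, 35184372088832), (10995116277760,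
    21990232555520), (281474976710656, 633318697598976)] = true := by
  decide +kernel

theorem k13 : chk C 0x88188288210 [(0, 35184372088832), (10995116277760, 21990232555520),
    (633318697598976, 985162418487296)] = true := by
  decide +kernel

theorem k14 : chk C 0x880880880882222 [(35184372088832, 70368744177664), (10995116277760,
    21990232555520), (281474976710656, 985162418487296)] = true := by
  decide +kernel

theorem k15 : chk C 0x888028880288088802222 [(70368744177664, 140737488355328), (10995116277760,
    21990232555520), (281474976710656, 985162418487296)] = true := by
  decide +kernel

theorem k16 : chk C 0x8808808880088808828889108891021010100 [(0, 140737488355328), (0,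
    5497558138880), (985162418487296, 1688849860263936)] = true := by
  decide +kernel

theorem k17 : chk C 0x888882000 [(0, 140737488355328), (5497558138880, 10995116277760),
    (985162418487296, 1688849860263936)] = true := by
  decide +kernel

end Pool.Agent.Lib.MP_d6150d_an.PpM1
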