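import Pool.Agent.Lib.MP_d6150d_an.PpM1D

/-! A generated chart: the computations. -/

namespace Pool.Agent.Lib.MP_d6150d_an.PpM1

theorem k18 : chk C 0x88188188820880100 [(0, 140737488355328), (10995116277760, 21990232555520),
    (985162418487296, 1688849860263936)] = true := by
  decide +kernel

theorem k19 : chk C 0x8818881228818820888128818822020 [(0, 35184372088832), (21990232555520,
    32985348833280), (281474976710656, 633318697598976)] = true := by
  decide +kernel

theorem k20 : chk C 0x8818880288210 [(0, 35184372088832), (21990232555520, 32985348833280),
    (633318697598976, 985162418487296)] = true := by
  decide +kernel

theorem k21 : chk C 0x8808802882880882222 [(35184372088832, 70368744177664), (21990232555520,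
    32985348833280), (281474976710656, 985162418487296)] = true := by
  decide +kernel

theorem k22 : chk C 0x8808822880880288088802222 [(70368744177664, 140737488355328), (21990232555520,
    32985348833280), (281474976710656, 985162418487296)] = true := by
  decide +kernel

theorem k23 : chk C 0x8818881228818820888128818822020 [(0, 35184372088832), (32985348833280,
    43980465111040), (281474976710656, 633318697598976)] = true := by
  decide +kernel

theorem k24 : chk C 0x881881288088028880210 [(0, 35184372088832), (32985348833280, 43980465111040),
    (633318697598976, 985162418487296)] = true := by
  decide +kernel

theorem k25 : chk C 0x8880288218808802880882222 [(35184372088832, 70368744177664), (32985348833280,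
    43980465111040), (281474976710656, 985162418487296)] = true := by
  decide +kernel

end Pool.Agent.Lib.MP_d6150d_an.PpM1
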