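import Pool.Agent.Lib.MP_d6150d_an.PpM1D

/-! A generated chart: the computations. -/

namespace Pool.Agent.Lib.MP_d6150d_an.PpM1

theorem k26 : chk C 0x880882288088021880880288288802222 [(70368744177664, 140737488355328),
    (32985348833280, 43980465111040), (281474976710656, 985162418487296)] = true := by
  decide +kernel

theorem k27 : chk C 0x88802880188288288288220088288820010 [(0, 140737488355328), (21990232555520,
    32985348833280), (985162418487296, 1688849860263936)] = true := by
  decide +kernel

theorem k28 : chk C 0x88288228808802882880828822000 [(0, 140737488355328), (32985348833280,
    38482906972160), (985162418487296, 1688849860263936)] = true := by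
  decide +kernel

theorem k29 : chk C 0x8828822882882288088028808802200 [(0, 70368744177664), (38482906972160,
    43980465111040), (985162418487296, 1688849860263936)] = true := by
  decide +kernel

theorem k30 : chk C 0x880880288088022 [(70368744177664, 140737488355328), (38482906972160,
    43980465111040), (985162418487296, 1688849860263936)] = true := by
  decide +kernel

end Pool.Agent.Lib.MP_d6150d_an.PpM1
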