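import Pool.Agent.Lib.MP_d6150d_an.PpMac
import Pool.Agent.Lib.MP_d6150d_an.PpM1K0
import Pool.Agent.Lib.MP_d6150d_an.PpM1K1
import Pool.Agent.Lib.MP_d6150d_an.PpM1K2
import Pool.Agent.Lib.MP_d6150d_an.PpM1K3

/-! A generated chart: the inequality. -/

namespace Pool.Agent.Lib.MP_d6150d_an.PpM1

set_option linter.unnecessarySeqFocus false
set_option linter.unusedTactic false
set_option linter.unusedVariables false

theorem gd : Gd2 C [(0, 140737488355328), (0, 43980465111040), (281474976710656, 1688849860263936)]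
    := .split 1 (.split 2 (.split 1 (.split 1 (.split 0 (.split 0 (.split 2 (.split 0 (.split 1
    (.split 0 (.split 1 (.split 2 (chk_sound2 k0) (chk_sound2 k1)) (chk_sound2 k2)) (chk_sound2 k3))
    (chk_sound2 k4)) (chk_sound2 k5)) (chk_sound2 k6)) (chk_sound2 k7)) (chk_sound2 k8)) (.split 0
    (.split 0 (chk_sound2 k9) (chk_sound2 k10)) (chk_sound2 k11))) (.split 0 (.split 0 (.split 2
    (chk_sound2 k12) (chk_sound2 k13)) (chk_sound2 k14)) (chk_sound2 k15))) (.split 1 (.split 1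
    (chk_sound2 k16) (chk_sound2 k17)) (chk_sound2 k18))) (.split 2 (.split 1 (.split 0 (.split 0
    (.split 2 (chk_sound2 k19) (chk_sound2 k20)) (chk_sound2 k21)) (chk_sound2 k22)) (.split 0
    (.split 0 (.split 2 (chk_sound2 k23) (chk_sound2 k24)) (chk_sound2 k25)) (chk_sound2 k26)))
    (.split 1 (chk_sound2 k27) (.split 1 (chk_sound2 k28) (.split 0 (chk_sound2 k29) (chk_sound2
    k30)))))

set_option maxRecDepth 100000 in
theorem eq {rh e u F C B x d D Q W p2 p3 f0 f1 z13 la Om ze k z18 c1 Y V E N : ℝ} (hF : F = e + 1 /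
    4) (hC : C = 9 / 8 - 4 * F) (hB : B = 2 * F * (1 - 2 * F)) (hx : x = Real.exp (-u)) (hd : d = rh
    * x) (hD : D = d / (1 - d)) (hQ : Q = 1 + d) (hW : W = (1 - x) * (1 - rh)) (hp2 : p2 = (pjR F x
    Q rh).1) (hp3 : p3 = (pjR F x Q rh).2.1) (hf0 : f0 = f0P 1 B C D F) (hf1 : f1 = f1P 1 B C D F)
    (hz13 : z13 = ph1 (-((2 - 2 * F) * u))) (hla : la = u * z13) (hOm : Om = 2 * F * (1 + d) - (2 *
    F - 1) * x - (1 + 2 * F) * rh + 2 * rh * la) (hze : ze = Real.exp ((2 * F - 1) * u)) (hk : k =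
    Real.exp ((4 * F - 3 / 2) * u)) (hz18 : z18 = ph1 ((2 * F - 1) * u)) (hc1 : c1 = u * z18) (hY :
    Y = d * c1 + (c1 - 1 + x) / (2 * F) - rh * la) (hV : V = (1 + D) * Y) (hE : E = EH f0 f1 (1 / 8)
    ze V) (hN : N = NN F B C Om p2 p3 Y W (-1)) : outR prog 0 [rh, e, u] = N + W ^ 5 * (k * E) := by
  replace hF : F = (e + ((Int.cast (1) : ℝ) / (Nat.cast 4 : ℝ))) := hF.trans (by push_cast <;> ring)
  replace hC : C = (((Int.cast (9) : ℝ) / (Nat.cast 8 : ℝ)) - ((Int.cast (4) : ℝ) * F)) := hC.trans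
    (by push_cast <;> ring)
  replace hB : B = (((Int.cast (2) : ℝ) * F) * ((Int.cast (1) : ℝ) - ((Int.cast (2) : ℝ) * F))) :=
    hB.trans (by push_cast <;> ring)
  replace hx : x = (Real.exp ((Int.cast (-1) : ℝ) * u)) := hx.trans (congrArg Real.exp (by push_cast
    <;> ring))
  replace hd : d = (rh * x) := hd.trans (by push_cast <;> ring)
  replace hD : D = (d * ((Int.cast (1) : ℝ) - d)⁻¹) := hD.trans (by push_cast <;> ring)
  replace hQ : Q = ((Int.cast (1) : ℝ) + d) := hQ.trans (by push_cast <;> ring)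
  replace hW : W = (((Int.cast (1) : ℝ) - x) * ((Int.cast (1) : ℝ) - rh)) := hW.trans (by push_cast
    <;> ring)
  replace hp2 : p2 = (mPj F x Q rh).1 := hp2.trans (mPj_0 ..)
  replace hp3 : p3 = (mPj F x Q rh).2.1 := hp3.trans (mPj_1 ..)
  replace hf0 : f0 = (mFF B C D F).1 := hf0.trans (mFF_0 ..)
  replace hf1 : f1 = (mFF B C D F).2 := hf1.trans (mFF_1 ..)
  replace hz13 : z13 = (ph1 ((Int.cast (-1) : ℝ) * (((Int.cast (2) : ℝ) - ((Int.cast (2) : ℝ) * F))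
    * u))) := hz13.trans (congrArg ph1 (by push_cast <;> ring))
  replace hla : la = (u * z13) := hla.trans (by push_cast <;> ring)
  replace hOm : Om = ((((((Int.cast (2) : ℝ) * F) * ((Int.cast (1) : ℝ) + d)) - ((((Int.cast (2) :
    ℝ) * F) - (Int.cast (1) : ℝ)) * x)) - (((Int.cast (1) : ℝ) + ((Int.cast (2) : ℝ) * F)) * rh)) +
    (((Int.cast (2) : ℝ) * rh) * la)) := hOm.trans (by push_cast <;> ring)
  replace hze : ze = (Real.exp ((((Int.cast (2) : ℝ) * F) - (Int.cast (1) : ℝ)) * u)) := hze.trans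
    (congrArg Real.exp (by push_cast <;> ring))
  replace hk : k = (Real.exp ((((Int.cast (4) : ℝ) * F) - ((Int.cast (3) : ℝ) / (Nat.cast 2 : ℝ))) *
    u)) := hk.trans (congrArg Real.exp (by push_cast <;> ring))
  replace hz18 : z18 = (ph1 ((((Int.cast (2) : ℝ) * F) - (Int.cast (1) : ℝ)) * u)) := hz18.trans
    (congrArg ph1 (by push_cast <;> ring))
  replace hc1 : c1 = (u * z18) := hc1.trans (by push_cast <;> ring)
  replace hY : Y = (((d * c1) + (((c1 - (Int.cast (1) : ℝ)) + x) * ((Int.cast (2) : ℝ) * F)⁻¹)) -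
    (rh * la)) := hY.trans (by push_cast <;> ring)
  replace hV : V = (((Int.cast (1) : ℝ) + D) * Y) := hV.trans (by push_cast <;> ring)
  replace hE : E = (mEH f0 f1 ze V) := hE.trans (mEH_0 ..)
  replace hN : N = (mNL F B C Om p2 p3 Y W) := hN.trans (mNL_0 ..)
  have e0 : (N + ((((W * W) * (W * W)) * W) * (k * E))) = N + W ^ 5 * (k * E) := by push_cast <;>
    ring
  subst hF hC hB hx hd hD hQ hW hp2 hp3 hf0 hf1 hz13 hla hOm hze hk hz18 hc1 hY hV hE hN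
  exact Eq.trans rfl e0

theorem l0 : ((0 : ℤ) : ℝ) / 2 ^ 47 = 0 := by norm_num
theorem u0 : (1 : ℝ) = ((140737488355328 : ℤ) : ℝ) / 2 ^ 47 := by norm_num
theorem l1 : ((0 : ℤ) : ℝ) / 2 ^ 47 = 0 := by norm_num
theorem u1 : (5 / 16 : ℝ) = ((43980465111040 : ℤ) : ℝ) / 2 ^ 47 := by norm_num
theorem l2 : ((281474976710656 : ℤ) : ℝ) / 2 ^ 47 = 2 := by norm_num
theorem u2 : (12 : ℝ) = ((1688849860263936 : ℤ) : ℝ) / 2 ^ 47 := by norm_num

theorem out0 (N : ∀ u : ℝ, 2 ≤ u → u ≤ 12 → 0 ≤ outR prog 0 [0, 0, u]) {rh e u : ℝ} (a0 : 0 ≤ rh)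
    (b0 : rh ≤ 1) (a1 : 0 ≤ e) (b1 : e ≤ 5 / 16) (a2 : 2 ≤ u) (b2 : u ≤ 12) (pc : 0 < rh ∨ 0 < e) :
    0 < outR prog 0 [rh, e, u] :=
  gd 0 (by decide) [rh, e, u] (.cons ⟨l0.le.trans a0, b0.trans u0.le⟩ (.cons ⟨l1.le.trans a1,
    b1.trans u1.le⟩ (.cons ⟨l2.le.trans a2, b2.trans u2.le⟩ (.nil)))) ⟨nofun, nofun, nofun, trivial⟩
    (fun _ ↦ pc.elim (fun h ↦ .inl ⟨rfl, h⟩) (fun h ↦ .inr (.inl ⟨rfl, h⟩))) (List.forall_mem_nil _)
    (Van.of0 rfl) (fun _ _ _ _ _ _ _ y2 a2 b2 ↦ N y2 (l2.ge.trans a2) (b2.trans u2.ge))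

end Pool.Agent.Lib.MP_d6150d_an.PpM1
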