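import Pool.Agent.Lib.MP_d6150d_an.PpM2D

/-! A generated chart: the computations. -/

namespace Pool.Agent.Lib.MP_d6150d_an.PpM2

theorem k0 : chk C 0x88088008888022880881888020202 [(0, 70368744177664), (79164837199872,
    85761906966528), (281474976710656, 985162418487296)] = true := by
  decide +kernel

theorem k1 : chk C 0x880880880880222 [(70368744177664, 140737488355328), (79164837199872,
    85761906966528), (281474976710656, 985162418487296)] = true := by
  decide +kernel

theorem k2 : chk C 0x88880228880088802880888202020 [(0, 140737488355328), (85761906966528,
    92358976733184), (281474976710656, 985162418487296)] = true := by
  decide +kernel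

theorem k3 : chk C 0x8880088088288820001 [(0, 140737488355328), (79164837199872, 92358976733184),
    (985162418487296, 1688849860263936)] = true := by
  decide +kernel

theorem k4 : chk C 0x88880008888022888228808808881022002 [(0, 140737488355328), (92358976733184,
    105553116266496), (281474976710656, 985162418487296)] = true := by
  decide +kernel

theorem k5 : chk C 0x880888000 [(0, 140737488355328), (92358976733184, 105553116266496),
    (985162418487296, 1688849860263936)] = true := by
  decide +kernel

theorem k6 : chk C 0x88188801288288088081208808888120210 [(0, 70368744177664), (105553116266496,
    131941395333120), (281474976710656, 633318697598976)] = true := by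
  decide +kernel

theorem k7 : chk C 0x88188088012 [(70368744177664, 140737488355328), (105553116266496,
    131941395333120), (281474976710656, 633318697598976)] = true := by
  decide +kernel

end Pool.Agent.Lib.MP_d6150d_an.PpM2
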