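import Pool.Agent.Lib.MP_d6150d_an.PpM2D

/-! A generated chart: the computations. -/

namespace Pool.Agent.Lib.MP_d6150d_an.PpM2

theorem k8 : chk C 0x88188188800880100 [(0, 140737488355328), (105553116266496, 131941395333120),
    (633318697598976, 985162418487296)] = true := by
  decide +kernel

theorem k9 : chk C 0x88888000088880001 [(0, 140737488355328), (105553116266496, 131941395333120),
    (985162418487296, 1688849860263936)] = true := by
  decide +kernel

end Pool.Agent.Lib.MP_d6150d_an.PpM2
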