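import Pool.Agent.Lib.MP_d6150d_an.PpMac
import Pool.Agent.Lib.MP_d6150d_an.PpM2K0
import Pool.Agent.Lib.MP_d6150d_an.PpM2K1

/-! A generated chart: the inequality. -/

namespace Pool.Agent.Lib.MP_d6150d_an.PpM2

set_option linter.unnecessarySeqFocus false
set_option linter.unusedTactic false
set_option linter.unusedVariables false

theorem gd : Gd2 C [(0, 140737488355328), (79164837199872, 131941395333120), (281474976710656,
    1688849860263936)] := .split 1 (.split 1 (.split 2 (.split 1 (.split 0 (chk_sound2 k0)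
    (chk_sound2 k1)) (chk_sound2 k2)) (chk_sound2 k3)) (.split 2 (chk_sound2 k4) (chk_sound2 k5)))
    (.split 2 (.split 2 (.split 0 (chk_sound2 k6) (chk_sound2 k7)) (chk_sound2 k8)) (chk_sound2 k9))

set_option maxRecDepth 100000 in
theorem eq {rh F u B C x d D Q W p2 p3 f0 f1 z12 la Om b k cb V N v E : ℝ} (hB : B = 2 * F * (1 - 2
    * F)) (hC : C = 9 / 8 - 4 * F) (hx : x = Real.exp (-u)) (hd : d = rh * x) (hD : D = d / (1 - d))
    (hQ : Q = 1 + d) (hW : W = (1 - x) * (1 - rh)) (hp2 : p2 = (pjR F x Q rh).1) (hp3 : p3 = (pjR F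
    x Q rh).2.1) (hf0 : f0 = f0P 1 B C D F) (hf1 : f1 = f1P 1 B C D F) (hz12 : z12 = ph1 (-((2 - 2 *
    F) * u))) (hla : la = u * z12) (hOm : Om = 2 * F * (1 + d) - (2 * F - 1) * x - (1 + 2 * F) * rh
    + 2 * rh * la) (hb : b = Real.exp ((1 - 2 * F) * u)) (hk : k = Real.exp ((2 - 3 * F) * u)) (hcb
    : cb = (1 - b) / (2 * F - 1)) (hV : V = d * cb + (cb - b + x * b) / (2 * F) - rh * (b * la)) (hN
    : N = NB F B C Om p2 p3 V b W) (hv : v = (1 + D) * V) (hE : E = EP f0 f1 (1 / 8) v) : outR prog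
    0 [rh, F, u] = N + W ^ 5 * (k * E) := by
  replace hB : B = (((Int.cast (2) : ℝ) * F) * ((Int.cast (1) : ℝ) - ((Int.cast (2) : ℝ) * F))) :=
    hB.trans (by push_cast <;> ring)
  replace hC : C = (((Int.cast (9) : ℝ) / (Nat.cast 8 : ℝ)) - ((Int.cast (4) : ℝ) * F)) := hC.trans
    (by push_cast <;> ring)
  replace hx : x = (Real.exp ((Int.cast (-1) : ℝ) * u)) := hx.trans (congrArg Real.exp (by push_cast
    <;> ring))
  replace hd : d = (rh * x) := hd.trans (by push_cast <;> ring)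
  replace hD : D = (d * ((Int.cast (1) : ℝ) - d)⁻¹) := hD.trans (by push_cast <;> ring)
  replace hQ : Q = ((Int.cast (1) : ℝ) + d) := hQ.trans (by push_cast <;> ring)
  replace hW : W = (((Int.cast (1) : ℝ) - x) * ((Int.cast (1) : ℝ) - rh)) := hW.trans (by push_cast
    <;> ring)
  replace hp2 : p2 = (mPj F x Q rh).1 := hp2.trans (mPj_0 ..)
  replace hp3 : p3 = (mPj F x Q rh).2.1 := hp3.trans (mPj_1 ..)
  replace hf0 : f0 = (mFF B C D F).1 := hf0.trans (mFF_0 ..)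
  replace hf1 : f1 = (mFF B C D F).2 := hf1.trans (mFF_1 ..)
  replace hz12 : z12 = (ph1 ((Int.cast (-1) : ℝ) * (((Int.cast (2) : ℝ) - ((Int.cast (2) : ℝ) * F))
    * u))) := hz12.trans (congrArg ph1 (by push_cast <;> ring))
  replace hla : la = (u * z12) := hla.trans (by push_cast <;> ring)
  replace hOm : Om = ((((((Int.cast (2) : ℝ) * F) * ((Int.cast (1) : ℝ) + d)) - ((((Int.cast (2) :
    ℝ) * F) - (Int.cast (1) : ℝ)) * x)) - (((Int.cast (1) : ℝ) + ((Int.cast (2) : ℝ) * F)) * rh)) +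
    (((Int.cast (2) : ℝ) * rh) * la)) := hOm.trans (by push_cast <;> ring)
  replace hb : b = (Real.exp (((Int.cast (1) : ℝ) - ((Int.cast (2) : ℝ) * F)) * u)) := hb.trans
    (congrArg Real.exp (by push_cast <;> ring))
  replace hk : k = (Real.exp (((Int.cast (2) : ℝ) - ((Int.cast (3) : ℝ) * F)) * u)) := hk.trans
    (congrArg Real.exp (by push_cast <;> ring))
  replace hcb : cb = (((Int.cast (1) : ℝ) - b) * (((Int.cast (2) : ℝ) * F) - (Int.cast (1) : ℝ))⁻¹)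
    := hcb.trans (by push_cast <;> ring)
  replace hV : V = (((d * cb) + (((cb - b) + (x * b)) * ((Int.cast (2) : ℝ) * F)⁻¹)) - (rh * (b *
    la))) := hV.trans (by push_cast <;> ring)
  replace hN : N = (mNB F B C Om p2 p3 V b W) := hN.trans (mNB_0 ..)
  replace hv : v = (((Int.cast (1) : ℝ) + D) * V) := hv.trans (by push_cast <;> ring)
  replace hE : E = (mEP f0 f1 v) := hE.trans (mEP_0 ..)
  have e0 : (N + ((((W * W) * (W * W)) * W) * (k * E))) = N + W ^ 5 * (k * E) := by push_cast <;>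
    ring
  subst hB hC hx hd hD hQ hW hp2 hp3 hf0 hf1 hz12 hla hOm hb hk hcb hV hN hv hE
  exact Eq.trans rfl e0

theorem l0 : ((0 : ℤ) : ℝ) / 2 ^ 47 = 0 := by norm_num
theorem u0 : (1 : ℝ) = ((140737488355328 : ℤ) : ℝ) / 2 ^ 47 := by norm_num
theorem l1 : ((79164837199872 : ℤ) : ℝ) / 2 ^ 47 = 9 / 16 := by norm_num
theorem u1 : (15 / 16 : ℝ) = ((131941395333120 : ℤ) : ℝ) / 2 ^ 47 := by norm_num
theorem l2 : ((281474976710656 : ℤ) : ℝ) / 2 ^ 47 = 2 := by norm_num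
theorem u2 : (12 : ℝ) = ((1688849860263936 : ℤ) : ℝ) / 2 ^ 47 := by norm_num

theorem out0 {rh F u : ℝ} (a0 : 0 ≤ rh) (b0 : rh ≤ 1) (a1 : 9 / 16 ≤ F) (b1 : F ≤ 15 / 16) (a2 : 2 ≤
    u) (b2 : u ≤ 12) : 0 < outR prog 0 [rh, F, u] :=
  gd 0 (by decide) [rh, F, u] (.cons ⟨l0.le.trans a0, b0.trans u0.le⟩ (.cons ⟨l1.le.trans a1,
    b1.trans u1.le⟩ (.cons ⟨l2.le.trans a2, b2.trans u2.le⟩ (.nil)))) ⟨nofun, nofun, nofun, trivial⟩
    (nofun) (List.forall_mem_nil _) (Van.of0 rfl) (nofun)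

theorem pos0 {rh F u B C x d D Q W p2 p3 f0 f1 z12 la Om b k cb V N v E : ℝ} (hB : B = 2 * F * (1 -
    2 * F)) (hC : C = 9 / 8 - 4 * F) (hx : x = Real.exp (-u)) (hd : d = rh * x) (hD : D = d / (1 -
    d)) (hQ : Q = 1 + d) (hW : W = (1 - x) * (1 - rh)) (hp2 : p2 = (pjR F x Q rh).1) (hp3 : p3 =
    (pjR F x Q rh).2.1) (hf0 : f0 = f0P 1 B C D F) (hf1 : f1 = f1P 1 B C D F) (hz12 : z12 = ph1
    (-((2 - 2 * F) * u))) (hla : la = u * z12) (hOm : Om = 2 * F * (1 + d) - (2 * F - 1) * x - (1 +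
    2 * F) * rh + 2 * rh * la) (hb : b = Real.exp ((1 - 2 * F) * u)) (hk : k = Real.exp ((2 - 3 * F)
    * u)) (hcb : cb = (1 - b) / (2 * F - 1)) (hV : V = d * cb + (cb - b + x * b) / (2 * F) - rh * (b
    * la)) (hN : N = NB F B C Om p2 p3 V b W) (hv : v = (1 + D) * V) (hE : E = EP f0 f1 (1 / 8) v)
    (a0 : 0 ≤ rh) (b0 : rh ≤ 1) (a1 : 9 / 16 ≤ F) (b1 : F ≤ 15 / 16) (a2 : 2 ≤ u) (b2 : u ≤ 12) : 0
    < N + W ^ 5 * (k * E) :=
  have e := eq hB hC hx hd hD hQ hW hp2 hp3 hf0 hf1 hz12 hla hOm hb hk hcb hV hN hv hE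
  (out0 a0 b0 a1 b1 a2 b2).trans_eq e

end Pool.Agent.Lib.MP_d6150d_an.PpM2
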