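import Pool.Agent.Lib.MP_d6150d_an.PpR1D

/-! A generated chart: the computations. -/

namespace Pool.Agent.Lib.MP_d6150d_an.PpR1

theorem k0 : chk C 0x992891891228888119012 [(0, 824633720832), (0, 1511828488192), (0,
    26388279066624)] = true := by
  decide +kernel

theorem k1 : chk C 0x880888118888881011101 [(824633720832, 1649267441664), (0, 1511828488192), (0,
    26388279066624)] = true := by
  decide +kernel

theorem k2 : chk C 0x880888010 [(0, 1649267441664), (1511828488192, 3023656976384), (0,
    26388279066624)] = true := by
  decide +kernel

theorem k3 : chk C 0x88088801888801101 [(1649267441664, 3298534883328), (0, 3023656976384), (0,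
    26388279066624)] = true := by
  decide +kernel

theorem k4 : chk C 0x880888010 [(0, 3298534883328), (3023656976384, 6047313952768), (0,
    26388279066624)] = true := by
  decide +kernel

theorem k5 : chk C 0x880999221899218808882190122 [(0, 1649267441664), (0, 3023656976384),
    (26388279066624, 52776558133248)] = true := by
  decide +kernel

theorem k6 : chk C 0x8888201888118881122 [(1649267441664, 3298534883328), (0, 3023656976384),
    (26388279066624, 52776558133248)] = true := by
  decide +kernel

theorem k7 : chk C 0x88088188202 [(0, 3298534883328), (3023656976384, 6047313952768),
    (26388279066624, 52776558133248)] = true := by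
  decide +kernel

theorem k8 : chk C 0x8882288188188821021888008818888101012 [(3298534883328, 6597069766656), (0,
    6047313952768), (0, 52776558133248)] = true := by
  decide +kernel

end Pool.Agent.Lib.MP_d6150d_an.PpR1
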