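import Pool.Agent.Lib.MP_d6150d_an.PpR1D

/-! A generated chart: the computations. -/

namespace Pool.Agent.Lib.MP_d6150d_an.PpR1

theorem k9 : chk C 0x888228812880888022881881020 [(0, 6597069766656), (6047313952768,
    12094627905536), (0, 52776558133248)] = true := by
  decide +kernel

theorem k10 : chk C 0x888228818818812208880188188801002 [(6597069766656, 13194139533312), (0,
    6047313952768), (0, 52776558133248)] = true := by
  decide +kernel

theorem k11 : chk C 0x880882288822888220822 [(6597069766656, 13194139533312), (6047313952768,
    12094627905536), (0, 52776558133248)] = true := by
  decide +kernel

theorem k12 : chk C 0x888228812888228818880228220 [(0, 6597069766656), (12094627905536,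
    24189255811072), (0, 52776558133248)] = true := by
  decide +kernel

theorem k13 : chk C 0x8808822888012 [(6597069766656, 13194139533312), (12094627905536,
    24189255811072), (0, 52776558133248)] = true := by
  decide +kernel

theorem k14 : chk C 0x888028882189108888211891899212021 [(0, 3298534883328), (0, 6047313952768),
    (52776558133248, 105553116266496)] = true := by
  decide +kernel

theorem k15 : chk C 0x8881188880112 [(3298534883328, 6597069766656), (0, 6047313952768),
    (52776558133248, 105553116266496)] = true := by
  decide +kernel

theorem k16 : chk C 0x88802888020 [(0, 6597069766656), (6047313952768, 12094627905536),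
    (52776558133248, 105553116266496)] = true := by
  decide +kernel

end Pool.Agent.Lib.MP_d6150d_an.PpR1
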