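import Pool.Agent.Lib.MP_d6150d_an.PpR1D

/-! A generated chart: the computations. -/

namespace Pool.Agent.Lib.MP_d6150d_an.PpR1

theorem k17 : chk C 0x8880288802881881201 [(6597069766656, 13194139533312), (0, 12094627905536),
    (52776558133248, 105553116266496)] = true := by
  decide +kernel

theorem k18 : chk C 0x888128808880020 [(0, 13194139533312), (12094627905536, 24189255811072),
    (52776558133248, 105553116266496)] = true := by
  decide +kernel

theorem k19 : chk C 0x888228880128808808802288188801020 [(0, 13194139533312), (24189255811072,
    48378511622144), (0, 52776558133248)] = true := by
  decide +kernel

theorem k20 : chk C 0x88802888020 [(0, 13194139533312), (24189255811072, 48378511622144),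
    (52776558133248, 105553116266496)] = true := by
  decide +kernel

theorem k21 : chk C 0x8888011880888118809928809088290221010 [(0, 13194139533312), (0,
    12094627905536), (105553116266496, 211106232532992)] = true := by
  decide +kernel

theorem k22 : chk C 0x88800 [(0, 13194139533312), (12094627905536, 24189255811072),
    (105553116266496, 211106232532992)] = true := by
  decide +kernel

theorem k23 : chk C 0x8808800 [(0, 13194139533312), (24189255811072, 48378511622144),
    (105553116266496, 211106232532992)] = true := by
  decide +kernel

theorem k24 : chk C 0x88282888228880081208880288021 [(0, 6597069766656), (48378511622144,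
    96757023244288), (0, 52776558133248)] = true := by
  decide +kernel

theorem k25 : chk C 0x88802888228228880288021 [(6597069766656, 13194139533312), (48378511622144,
    96757023244288), (0, 52776558133248)] = true := by
  decide +kernel

end Pool.Agent.Lib.MP_d6150d_an.PpR1
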