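import Pool.Agent.Lib.MP_d6150d_an.PpR1D

/-! A generated chart: the computations. -/

namespace Pool.Agent.Lib.MP_d6150d_an.PpR1

theorem k26 : chk C 0x880881188188802088010 [(0, 13194139533312), (48378511622144, 96757023244288),
    (52776558133248, 105553116266496)] = true := by
  decide +kernel

theorem k27 : chk C 0x8818808108801 [(0, 13194139533312), (48378511622144, 96757023244288),
    (105553116266496, 211106232532992)] = true := by
  decide +kernel

theorem k28 : chk C 0x88821881288088821992018808809920120 [(0, 13194139533312), (0, 6047313952768),
    (211106232532992, 422212465065984)] = true := by
  decide +kernel

theorem k29 : chk C 0x88288088020 [(0, 13194139533312), (6047313952768, 12094627905536),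
    (211106232532992, 422212465065984)] = true := by
  decide +kernel

theorem k30 : chk C 0x882880820 [(0, 13194139533312), (12094627905536, 24189255811072),
    (211106232532992, 422212465065984)] = true := by
  decide +kernel

theorem k31 : chk C 0x880880188188102 [(0, 13194139533312), (24189255811072, 48378511622144),
    (211106232532992, 422212465065984)] = true := by
  decide +kernel

theorem k32 : chk C 0x888008801881880810288188101 [(0, 13194139533312), (48378511622144,
    96757023244288), (211106232532992, 316659348799488)] = true := by
  decide +kernel

theorem k33 : chk C 0x880880188088012 [(0, 13194139533312), (48378511622144, 72567767433216),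
    (316659348799488, 422212465065984)] = true := by
  decide +kernel

theorem k34 : chk C 0x88188081088800188188081088012 [(0, 13194139533312), (72567767433216,
    96757023244288), (316659348799488, 422212465065984)] = true := by
  decide +kernel

end Pool.Agent.Lib.MP_d6150d_an.PpR1
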