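import Pool.Agent.Lib.MP_d6150d_an.PpMac
import Pool.Agent.Lib.MP_d6150d_an.PpR1K0
import Pool.Agent.Lib.MP_d6150d_an.PpR1K1
import Pool.Agent.Lib.MP_d6150d_an.PpR1K2
import Pool.Agent.Lib.MP_d6150d_an.PpR1K3

/-! A generated chart: the inequality. -/

namespace Pool.Agent.Lib.MP_d6150d_an.PpR1

set_option linter.unnecessarySeqFocus false
set_option linter.unusedTactic false
set_option linter.unusedVariables false

theorem gd : Gd2 C [(0, 13194139533312), (0, 96757023244288), (0, 422212465065984)] := .split 2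
    (.split 1 (.split 2 (.split 1 (.split 2 (.split 1 (.split 0 (.split 1 (.split 0 (.split 2
    (.split 1 (.split 0 (.split 1 (.split 0 (chk_sound2 k0) (chk_sound2 k1)) (chk_sound2 k2))
    (chk_sound2 k3)) (chk_sound2 k4)) (.split 1 (.split 0 (chk_sound2 k5) (chk_sound2 k6))
    (chk_sound2 k7))) (chk_sound2 k8)) (chk_sound2 k9)) (.split 1 (chk_sound2 k10) (chk_sound2
    k11))) (.split 0 (chk_sound2 k12) (chk_sound2 k13))) (.split 1 (.split 0 (.split 1 (.split 0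
    (chk_sound2 k14) (chk_sound2 k15)) (chk_sound2 k16)) (chk_sound2 k17)) (chk_sound2 k18)))
    (.split 2 (chk_sound2 k19) (chk_sound2 k20))) (.split 1 (.split 1 (chk_sound2 k21) (chk_sound2
    k22)) (chk_sound2 k23))) (.split 2 (.split 2 (.split 0 (chk_sound2 k24) (chk_sound2 k25))
    (chk_sound2 k26)) (chk_sound2 k27))) (.split 1 (.split 1 (.split 1 (.split 1 (chk_sound2 k28)
    (chk_sound2 k29)) (chk_sound2 k30)) (chk_sound2 k31)) (.split 2 (chk_sound2 k32) (.split 1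
    (chk_sound2 k33) (chk_sound2 k34))))

set_option maxRecDepth 100000 in
theorem eq {D e u F C B q yi mu v P Q R z11 W z Y p2 p3 Om f0 f1 E N : ℝ} (hF : F = e + 1 / 4) (hC :
    C = 9 / 8 - 4 * F) (hB : B = 2 * F * (1 - 2 * F)) (hq : q = Real.exp (-u)) (hyi : yi = Real.exp
    (-(F * u))) (hmu : mu = muR D F u) (hv : v = u ^ 2 * mu / 2) (hP : P = 1 + D) (hQ : Q = (1 + 2 *
    D) * q) (hR : R = D * q ^ 2) (hz11 : z11 = ph1 (-u)) (hW : W = z11 * (1 + D - D * q)) (hz : z =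
    yi ^ 2) (hY : Y = mu * z / 2) (hp2 : p2 = (pjR F P Q R).1) (hp3 : p3 = (pjR F P Q R).2.1) (hOm :
    Om = z * (1 + B * v)) (hf0 : f0 = f0P 1 B C D F) (hf1 : f1 = f1P 1 B C D F) (hE : E = EP f0 f1
    (1 / 8) v) (hN : N = NN F B C Om p2 p3 Y W u) : outR prog 0 [D, e, u] = N - u * W ^ 5 * E * yi
    := by
  replace hF : F = (e + ((Int.cast (1) : ℝ) / (Nat.cast 4 : ℝ))) := hF.trans (by push_cast <;> ring)
  replace hC : C = (((Int.cast (9) : ℝ) / (Nat.cast 8 : ℝ)) - ((Int.cast (4) : ℝ) * F)) := hC.trans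
    (by push_cast <;> ring)
  replace hB : B = (((Int.cast (2) : ℝ) * F) * ((Int.cast (1) : ℝ) - ((Int.cast (2) : ℝ) * F))) :=
    hB.trans (by push_cast <;> ring)
  replace hq : q = (Real.exp ((Int.cast (-1) : ℝ) * u)) := hq.trans (congrArg Real.exp (by push_cast
    <;> ring))
  replace hyi : yi = (Real.exp ((Int.cast (-1) : ℝ) * (F * u))) := hyi.trans (congrArg Real.exp (by
    push_cast <;> ring))
  replace hmu : mu = (mMu D F u) := hmu.trans (mMu_0 ..)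
  replace hv : v = (((Int.cast (1) : ℝ) / (Nat.cast 2 : ℝ)) * ((u * u) * mu)) := hv.trans (by
    push_cast <;> ring)
  replace hP : P = ((Int.cast (1) : ℝ) + D) := hP.trans (by push_cast <;> ring)
  replace hQ : Q = (((Int.cast (1) : ℝ) + ((Int.cast (2) : ℝ) * D)) * q) := hQ.trans (by push_cast
    <;> ring)
  replace hR : R = (D * (q * q)) := hR.trans (by push_cast <;> ring)
  replace hz11 : z11 = (ph1 ((Int.cast (-1) : ℝ) * u)) := hz11.trans (congrArg ph1 (by push_cast <;>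
    ring))
  replace hW : W = (z11 * (((Int.cast (1) : ℝ) + D) - (D * q))) := hW.trans (by push_cast <;> ring)
  replace hz : z = (yi * yi) := hz.trans (by push_cast <;> ring)
  replace hY : Y = (((Int.cast (1) : ℝ) / (Nat.cast 2 : ℝ)) * (mu * z)) := hY.trans (by push_cast
    <;> ring)
  replace hp2 : p2 = (mPj F P Q R).1 := hp2.trans (mPj_0 ..)
  replace hp3 : p3 = (mPj F P Q R).2.1 := hp3.trans (mPj_1 ..)
  replace hOm : Om = (z * ((Int.cast (1) : ℝ) + (B * v))) := hOm.trans (by push_cast <;> ring)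
  replace hf0 : f0 = (mFF B C D F).1 := hf0.trans (mFF_0 ..)
  replace hf1 : f1 = (mFF B C D F).2 := hf1.trans (mFF_1 ..)
  replace hE : E = (mEP f0 f1 v) := hE.trans (mEP_0 ..)
  replace hN : N = (mNN F B C Om p2 p3 Y W u) := hN.trans (mNN_0 ..)
  have e0 : (N - (((u * (((W * W) * (W * W)) * W)) * E) * yi)) = N - u * W ^ 5 * E * yi := by
    push_cast <;> ring
  subst hF hC hB hq hyi hmu hv hP hQ hR hz11 hW hz hY hp2 hp3 hOm hf0 hf1 hE hN
  exact Eq.trans rfl e0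

theorem l0 : ((0 : ℤ) : ℝ) / 2 ^ 47 = 0 := by norm_num
theorem u0 : (3 / 32 : ℝ) = ((13194139533312 : ℤ) : ℝ) / 2 ^ 47 := by norm_num
theorem l1 : ((0 : ℤ) : ℝ) / 2 ^ 47 = 0 := by norm_num
theorem u1 : (11 / 16 : ℝ) = ((96757023244288 : ℤ) : ℝ) / 2 ^ 47 := by norm_num
theorem l2 : ((0 : ℤ) : ℝ) / 2 ^ 47 = 0 := by norm_num
theorem u2 : (3 : ℝ) = ((422212465065984 : ℤ) : ℝ) / 2 ^ 47 := by norm_num

theorem out0 (V2 : ∀ D e : ℝ, 0 ≤ D → D ≤ 3 / 32 → 0 ≤ e → e ≤ 11 / 16 → (fun u ↦ outR prog 0 [D, e,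
    u]) =O[nhdsWithin 0 (Set.Ioi 0)] fun u : ℝ ↦ u ^ 4) (N : ∀ u : ℝ, 0 ≤ u → u ≤ 3 → 0 ≤ outR prog
    0 [0, 0, u]) {D e u : ℝ} (a0 : 0 ≤ D) (b0 : D ≤ 3 / 32) (a1 : 0 ≤ e) (b1 : e ≤ 11 / 16) (a2 : 0
    ≤ u) (b2 : u ≤ 3) (p2 : 0 < u) (pc : 0 < D ∨ 0 < e) : 0 < outR prog 0 [D, e, u] :=
  gd 0 (by decide) [D, e, u] (.cons ⟨l0.le.trans a0, b0.trans u0.le⟩ (.cons ⟨l1.le.trans a1,
    b1.trans u1.le⟩ (.cons ⟨l2.le.trans a2, b2.trans u2.le⟩ (.nil)))) ⟨nofun, nofun, fun _ ↦ p2,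
    trivial⟩ (fun _ ↦ pc.elim (fun h ↦ .inl ⟨rfl, h⟩) (fun h ↦ .inr (.inl ⟨rfl, h⟩)))
    (List.forall_mem_nil _) (⟨fun _ ↦ allB_iff.2 fun _ _ ↦ trivial, fun y0 a0 b0 ↦ ⟨fun _ ↦
    allB_iff.2 fun _ _ ↦ trivial, fun y1 a1 b1 ↦ ⟨fun _ ↦ V2 y0 y1 (l0.ge.trans a0) (b0.trans u0.ge)
    (l1.ge.trans a1) (b1.trans u1.ge), fun _ _ _ ↦ trivial⟩⟩⟩) (fun _ _ _ _ _ _ _ y2 a2 b2 ↦ N y2
    (l2.ge.trans a2) (b2.trans u2.ge))

end Pool.Agent.Lib.MP_d6150d_an.PpR1
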