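import Pool.Agent.Lib.MP_d6150d_an.PpS1D

/-! A generated chart: the computations. -/

namespace Pool.Agent.Lib.MP_d6150d_an.PpS1

theorem k0 : chk C 0x8880188882038938881390213 [(0, 6597069766656), (0, 4947802324992), (0,
    4123168604160), (0, 35184372088832)] = true := by
  decide +kernel

theorem k1 : chk C 0x88088800888239013 [(0, 6597069766656), (0, 4947802324992), (4123168604160,
    8246337208320), (0, 35184372088832)] = true := by
  decide +kernel

theorem k2 : chk C 0x88288801888820123 [(6597069766656, 13194139533312), (0, 4947802324992), (0,
    8246337208320), (0, 35184372088832)] = true := by
  decide +kernel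

theorem k3 : chk C 0x88820 [(0, 13194139533312), (0, 4947802324992), (0, 8246337208320),
    (35184372088832, 70368744177664)] = true := by
  decide +kernel

theorem k4 : chk C 0x8 [(0, 13194139533312), (0, 4947802324992), (0, 8246337208320),
    (70368744177664, 140737488355328)] = true := by
  decide +kernel

theorem k5 : chk C 0x8880888038888223033 [(0, 13194139533312), (4947802324992, 9895604649984), (0,
    8246337208320), (0, 140737488355328)] = true := by
  decide +kernel

theorem k6 : chk C 0x888088820138818888203888039088803902130 [(0, 13194139533312), (0,
    4947802324992), (8246337208320, 16492674416640), (0, 35184372088832)] = true := by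
  decide +kernel

theorem k7 : chk C 0x880 [(0, 13194139533312), (0, 4947802324992), (8246337208320, 16492674416640),
    (35184372088832, 70368744177664)] = true := by
  decide +kernel

theorem k8 : chk C 0x8 [(0, 13194139533312), (0, 4947802324992), (8246337208320, 16492674416640),
    (70368744177664, 140737488355328)] = true := by
  decide +kernel

theorem k9 : chk C 0x8888288823033 [(0, 13194139533312), (4947802324992, 9895604649984),
    (8246337208320, 16492674416640), (0, 140737488355328)] = true := by
  decide +kernel

theorem k10 : chk C 0x8808888003888800323 [(0, 13194139533312), (9895604649984, 19791209299968), (0,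
    16492674416640), (0, 140737488355328)] = true := by
  decide +kernel

end Pool.Agent.Lib.MP_d6150d_an.PpS1
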