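import Pool.Agent.Lib.MP_d6150d_an.PpS1D

/-! A generated chart: the computations. -/

namespace Pool.Agent.Lib.MP_d6150d_an.PpS1

theorem k11 : chk C 0x8880888202389929922389929922321 [(0, 6597069766656), (0, 4947802324992),
    (16492674416640, 32985348833280), (0, 17592186044416)] = true := by
  decide +kernel

theorem k12 : chk C 0x888800188880132 [(6597069766656, 13194139533312), (0, 4947802324992),
    (16492674416640, 32985348833280), (0, 17592186044416)] = true := by
  decide +kernel

theorem k13 : chk C 0x88810 [(0, 13194139533312), (0, 4947802324992), (16492674416640,
    32985348833280), (17592186044416, 35184372088832)] = true := by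
  decide +kernel

theorem k14 : chk C 0x880 [(0, 13194139533312), (0, 4947802324992), (16492674416640,
    32985348833280), (35184372088832, 70368744177664)] = true := by
  decide +kernel

theorem k15 : chk C 0x88882388888023303 [(0, 13194139533312), (4947802324992, 9895604649984),
    (16492674416640, 32985348833280), (0, 70368744177664)] = true := by
  decide +kernel

theorem k16 : chk C 0x881 [(0, 13194139533312), (0, 9895604649984), (16492674416640,
    32985348833280), (70368744177664, 140737488355328)] = true := by
  decide +kernel

theorem k17 : chk C 0x8880888218880823033 [(0, 13194139533312), (9895604649984, 19791209299968),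
    (16492674416640, 32985348833280), (0, 140737488355328)] = true := by
  decide +kernel

theorem k18 : chk C 0x88088088803138888003888801322 [(0, 13194139533312), (19791209299968,
    39582418599936), (0, 32985348833280), (0, 140737488355328)] = true := by
  decide +kernel

end Pool.Agent.Lib.MP_d6150d_an.PpS1
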