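import Pool.Agent.Lib.MP_d6150d_an.PpMac
import Pool.Agent.Lib.MP_d6150d_an.PpS1K0
import Pool.Agent.Lib.MP_d6150d_an.PpS1K1

/-! A generated chart: the inequality. -/

namespace Pool.Agent.Lib.MP_d6150d_an.PpS1

set_option linter.unnecessarySeqFocus false
set_option linter.unusedTactic false
set_option linter.unusedVariables false

theorem gd : Gd2 C [(0, 13194139533312), (0, 39582418599936), (0, 32985348833280), (0,
    140737488355328)] := .split 1 (.split 2 (.split 1 (.split 2 (.split 1 (.split 3 (.split 3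
    (.split 0 (.split 2 (chk_sound2 k0) (chk_sound2 k1)) (chk_sound2 k2)) (chk_sound2 k3))
    (chk_sound2 k4)) (chk_sound2 k5)) (.split 1 (.split 3 (.split 3 (chk_sound2 k6) (chk_sound2 k7))
    (chk_sound2 k8)) (chk_sound2 k9))) (chk_sound2 k10)) (.split 1 (.split 3 (.split 1 (.split 3
    (.split 3 (.split 0 (chk_sound2 k11) (chk_sound2 k12)) (chk_sound2 k13)) (chk_sound2 k14))
    (chk_sound2 k15)) (chk_sound2 k16)) (chk_sound2 k17))) (chk_sound2 k18)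

set_option maxRecDepth 100000 in
theorem eq {D e a h F C B z4 z5 ph et ch q z g gi g1 g2 nu n m f0 f1 Y E : ℝ} (hF : F = e + 1 / 4)
    (hC : C = 9 / 8 - 4 * F) (hB : B = 2 * F * (1 - 2 * F)) (hz4 : z4 = ph1 ((1 - 2 * F) * 3)) (hz5
    : z5 = ph1 (3 / 2)) (hph : ph = z4 / z5) (het : et = 2 * (1 - a) * ph * (1 - h)) (hch : ch = a +
    (1 - 2 * F) * et) (hq : q = a ^ 2) (hz : z = a * ch) (hg : g = (1 - q) * (1 + D - D * q)) (hgi :
    gi = 1 / g) (hg1 : g1 = (1 + 2 * D - 2 * D * q) * gi) (hg2 : g2 = (1 + 2 * D - 4 * D * q) * gi)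
    (hnu : nu = (D * (ch - a * q) / (1 - F) - (1 + 2 * D) * et) * gi / 2) (hn : n = a * nu) (hm : m
    = (n + 1 / 2) / F) (hf0 : f0 = f0P 1 B C D F) (hf1 : f1 = f1P 1 B C D F) (hY : Y = g * m) (hE :
    E = EH f0 f1 (1 / 8) z Y) : outR prog 0 [D, e, a, h] = F * ch * gi * nu * (2 + 3 * n) + nu ^ 2 *
    (B * (3 + 3 * n) - C) + F * m * ((z * gi + B * m) * (g1 * (5 * n + 3 / 2) + (3 * q * g1 ^ 2 +
    g2) * m) - (C + B / 2) * g1 * m) - ch ^ 2 * E := by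
  replace hF : F = (e + ((Int.cast (1) : ℝ) / (Nat.cast 4 : ℝ))) := hF.trans (by push_cast <;> ring)
  replace hC : C = (((Int.cast (9) : ℝ) / (Nat.cast 8 : ℝ)) - ((Int.cast (4) : ℝ) * F)) := hC.trans
    (by push_cast <;> ring)
  replace hB : B = (((Int.cast (2) : ℝ) * F) * ((Int.cast (1) : ℝ) - ((Int.cast (2) : ℝ) * F))) :=
    hB.trans (by push_cast <;> ring)
  replace hz4 : z4 = (ph1 ((Int.cast (3) : ℝ) * ((Int.cast (1) : ℝ) - ((Int.cast (2) : ℝ) * F)))) :=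
    hz4.trans (congrArg ph1 (by push_cast <;> ring))
  replace hz5 : z5 = (ph1 ((Int.cast (3) : ℝ) / (Nat.cast 2 : ℝ))) := hz5.trans (congrArg ph1 (by
    push_cast <;> ring))
  replace hph : ph = (z4 * z5⁻¹) := hph.trans (by push_cast <;> ring)
  replace het : et = ((((Int.cast (2) : ℝ) * ((Int.cast (1) : ℝ) - a)) * ph) * ((Int.cast (1) : ℝ) -
    h)) := het.trans (by push_cast <;> ring)
  replace hch : ch = (a + (((Int.cast (1) : ℝ) - ((Int.cast (2) : ℝ) * F)) * et)) := hch.trans (by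
    push_cast <;> ring)
  replace hq : q = (a * a) := hq.trans (by push_cast <;> ring)
  replace hz : z = (a * ch) := hz.trans (by push_cast <;> ring)
  replace hg : g = (((Int.cast (1) : ℝ) - q) * (((Int.cast (1) : ℝ) + D) - (D * q))) := hg.trans (by
    push_cast <;> ring)
  replace hgi : gi = g⁻¹ := hgi.trans (by push_cast <;> ring)
  replace hg1 : g1 = ((((Int.cast (1) : ℝ) + ((Int.cast (2) : ℝ) * D)) - (((Int.cast (2) : ℝ) * D) *
    q)) * gi) := hg1.trans (by push_cast <;> ring)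
  replace hg2 : g2 = ((((Int.cast (1) : ℝ) + ((Int.cast (2) : ℝ) * D)) - (((Int.cast (4) : ℝ) * D) *
    q)) * gi) := hg2.trans (by push_cast <;> ring)
  replace hnu : nu = (((Int.cast (1) : ℝ) / (Nat.cast 2 : ℝ)) * ((((D * (ch - (a * q))) * ((Int.cast
    (1) : ℝ) - F)⁻¹) - (((Int.cast (1) : ℝ) + ((Int.cast (2) : ℝ) * D)) * et)) * gi)) := hnu.trans
    (by push_cast <;> ring)
  replace hn : n = (a * nu) := hn.trans (by push_cast <;> ring)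
  replace hm : m = ((n + ((Int.cast (1) : ℝ) / (Nat.cast 2 : ℝ))) * F⁻¹) := hm.trans (by push_cast
    <;> ring)
  replace hf0 : f0 = (mFF B C D F).1 := hf0.trans (mFF_0 ..)
  replace hf1 : f1 = (mFF B C D F).2 := hf1.trans (mFF_1 ..)
  replace hY : Y = (g * m) := hY.trans (by push_cast <;> ring)
  replace hE : E = (mEH f0 f1 z Y) := hE.trans (mEH_0 ..)
  have e0 : (((((((F * ch) * gi) * nu) * ((Int.cast (2) : ℝ) + ((Int.cast (3) : ℝ) * n))) + ((nu *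
    nu) * ((B * ((Int.cast (3) : ℝ) + ((Int.cast (3) : ℝ) * n))) - C))) + ((F * m) * ((((z * gi) +
    (B * m)) * ((g1 * (((Int.cast (5) : ℝ) * n) + ((Int.cast (3) : ℝ) / (Nat.cast 2 : ℝ)))) +
    (((((Int.cast (3) : ℝ) * q) * (g1 * g1)) + g2) * m))) - (((C + (((Int.cast (1) : ℝ) / (Nat.cast
    2 : ℝ)) * B)) * g1) * m)))) - ((ch * ch) * E)) = F * ch * gi * nu * (2 + 3 * n) + nu ^ 2 * (B *
    (3 + 3 * n) - C) + F * m * ((z * gi + B * m) * (g1 * (5 * n + 3 / 2) + (3 * q * g1 ^ 2 + g2) *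
    m) - (C + B / 2) * g1 * m) - ch ^ 2 * E := by push_cast <;> ring
  subst hF hC hB hz4 hz5 hph het hch hq hz hg hgi hg1 hg2 hnu hn hm hf0 hf1 hY hE
  exact Eq.trans rfl e0

theorem l0 : ((0 : ℤ) : ℝ) / 2 ^ 47 = 0 := by norm_num
theorem u0 : (3 / 32 : ℝ) = ((13194139533312 : ℤ) : ℝ) / 2 ^ 47 := by norm_num
theorem l1 : ((0 : ℤ) : ℝ) / 2 ^ 47 = 0 := by norm_num
theorem u1 : (9 / 32 : ℝ) = ((39582418599936 : ℤ) : ℝ) / 2 ^ 47 := by norm_num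
theorem l2 : ((0 : ℤ) : ℝ) / 2 ^ 47 = 0 := by norm_num
theorem u2 : (15 / 64 : ℝ) = ((32985348833280 : ℤ) : ℝ) / 2 ^ 47 := by norm_num
theorem l3 : ((0 : ℤ) : ℝ) / 2 ^ 47 = 0 := by norm_num
theorem u3 : (1 : ℝ) = ((140737488355328 : ℤ) : ℝ) / 2 ^ 47 := by norm_num

theorem out0 (N : ∀ a : ℝ, 0 ≤ a → a ≤ 15 / 64 → 0 ≤ outR prog 0 [0, 0, a, 0]) {D e a h : ℝ} (a0 : 0
    ≤ D) (b0 : D ≤ 3 / 32) (a1 : 0 ≤ e) (b1 : e ≤ 9 / 32) (a2 : 0 ≤ a) (b2 : a ≤ 15 / 64) (a3 : 0 ≤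
    h) (b3 : h ≤ 1) (pc : 0 < D ∨ 0 < e ∨ 0 < h) : 0 < outR prog 0 [D, e, a, h] :=
  gd 0 (by decide) [D, e, a, h] (.cons ⟨l0.le.trans a0, b0.trans u0.le⟩ (.cons ⟨l1.le.trans a1,
    b1.trans u1.le⟩ (.cons ⟨l2.le.trans a2, b2.trans u2.le⟩ (.cons ⟨l3.le.trans a3, b3.trans u3.le⟩
    (.nil))))) ⟨nofun, nofun, nofun, nofun, trivial⟩ (fun _ ↦ pc.elim (fun h ↦ .inl ⟨rfl, h⟩) (fun h
    ↦ h.elim (fun h ↦ .inr (.inl ⟨rfl, h⟩)) (fun h ↦ .inr (.inr (.inr (.inl ⟨rfl, h⟩))))))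
    (List.forall_mem_nil _) (Van.of0 rfl) (fun _ _ _ _ _ _ _ y2 a2 b2 _ _ _ ↦ N y2 (l2.ge.trans a2)
    (b2.trans u2.ge))

end Pool.Agent.Lib.MP_d6150d_an.PpS1
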