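import Pool.Agent.Lib.MP_d6150d_an.PpT1D

/-! A generated chart: the computations. -/

namespace Pool.Agent.Lib.MP_d6150d_an.PpT1

theorem k0 : chk C 0x9908839219908839210 [(0, 4398046511104), (0, 4398046511104), (0,
    2199023255552), (0, 17592186044416)] = true := by
  decide +kernel

theorem k1 : chk C 0x990991991019908839210 [(4398046511104, 8796093022208), (0, 4398046511104), (0,
    2199023255552), (0, 17592186044416)] = true := by
  decide +kernel

theorem k2 : chk C 0x882 [(0, 8796093022208), (0, 4398046511104), (0, 2199023255552),
    (17592186044416, 35184372088832)] = true := by
  decide +kernel

theorem k3 : chk C 0x99099009919910199190991991010 [(8796093022208, 13194139533312), (0,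
    4398046511104), (0, 2199023255552), (0, 17592186044416)] = true := by
  decide +kernel

theorem k4 : chk C 0x9909900991991019909900991991010 [(13194139533312, 17592186044416), (0,
    4398046511104), (0, 2199023255552), (0, 17592186044416)] = true := by
  decide +kernel

theorem k5 : chk C 0x882 [(8796093022208, 17592186044416), (0, 4398046511104), (0, 2199023255552),
    (17592186044416, 35184372088832)] = true := by
  decide +kernel

theorem k6 : chk C 0x990990099099000 [(0, 4398046511104), (4398046511104, 8796093022208), (0,
    2199023255552), (0, 17592186044416)] = true := by
  decide +kernel

theorem k7 : chk C 0x9909900990990018839299000 [(4398046511104, 8796093022208), (4398046511104,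
    8796093022208), (0, 2199023255552), (0, 17592186044416)] = true := by
  decide +kernel

theorem k8 : chk C 0x882 [(0, 8796093022208), (4398046511104, 8796093022208), (0, 2199023255552),
    (17592186044416, 35184372088832)] = true := by
  decide +kernel

theorem k9 : chk C 0x881892388392099099001991909900990990010 [(8796093022208, 13194139533312),
    (4398046511104, 8796093022208), (0, 2199023255552), (0, 17592186044416)] = true := by
  decide +kernel

end Pool.Agent.Lib.MP_d6150d_an.PpT1
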