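import Pool.Agent.Lib.MP_d6150d_an.PpT1D

/-! A generated chart: the computations. -/

namespace Pool.Agent.Lib.MP_d6150d_an.PpT1

theorem k10 : chk C 0x88923881892309919099001 [(13194139533312, 15393162788864), (4398046511104,
    8796093022208), (0, 2199023255552), (0, 17592186044416)] = true := by
  decide +kernel

theorem k11 : chk C 0x8892388923088189238839201 [(15393162788864, 17592186044416), (4398046511104,
    8796093022208), (0, 2199023255552), (0, 17592186044416)] = true := by
  decide +kernel

theorem k12 : chk C 0x882 [(8796093022208, 17592186044416), (4398046511104, 8796093022208), (0,
    2199023255552), (17592186044416, 35184372088832)] = true := by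
  decide +kernel

theorem k13 : chk C 0x8808808800388180880880031 [(0, 8796093022208), (0, 8796093022208),
    (2199023255552, 4398046511104), (0, 17592186044416)] = true := by
  decide +kernel

theorem k14 : chk C 0x881881088188108880203 [(8796093022208, 17592186044416), (0, 4398046511104),
    (2199023255552, 4398046511104), (0, 17592186044416)] = true := by
  decide +kernel

theorem k15 : chk C 0x880881088088108818003 [(8796093022208, 17592186044416), (4398046511104,
    8796093022208), (2199023255552, 4398046511104), (0, 17592186044416)] = true := by
  decide +kernel

theorem k16 : chk C 0x881881088188100 [(0, 17592186044416), (0, 8796093022208), (2199023255552,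
    4398046511104), (17592186044416, 35184372088832)] = true := by
  decide +kernel

theorem k17 : chk C 0x8808802 [(0, 17592186044416), (0, 8796093022208), (0, 4398046511104),
    (35184372088832, 70368744177664)] = true := by
  decide +kernel

theorem k18 : chk C 0x88088008808800188088180388088180312 [(0, 8796093022208), (0, 8796093022208),
    (4398046511104, 8796093022208), (0, 17592186044416)] = true := by
  decide +kernel

end Pool.Agent.Lib.MP_d6150d_an.PpT1
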