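import Pool.Agent.Lib.MP_d6150d_an.PpT1D

/-! A generated chart: the computations. -/

namespace Pool.Agent.Lib.MP_d6150d_an.PpT1

theorem k19 : chk C 0x883880088388001880880880038808818810312 [(8796093022208, 17592186044416), (0,
    8796093022208), (4398046511104, 8796093022208), (0, 17592186044416)] = true := by
  decide +kernel

theorem k20 : chk C 0x8808800880880018808800880880010 [(0, 17592186044416), (0, 8796093022208),
    (4398046511104, 8796093022208), (17592186044416, 35184372088832)] = true := by
  decide +kernel

theorem k21 : chk C 0x88803888030 [(0, 17592186044416), (0, 8796093022208), (4398046511104,
    8796093022208), (35184372088832, 70368744177664)] = true := by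
  decide +kernel

theorem k22 : chk C 0x8808822 [(0, 17592186044416), (0, 8796093022208), (0, 8796093022208),
    (70368744177664, 140737488355328)] = true := by
  decide +kernel

theorem k23 : chk C 0x88088008881388302 [(0, 8796093022208), (0, 8796093022208), (8796093022208,
    13194139533312), (0, 17592186044416)] = true := by
  decide +kernel

theorem k24 : chk C 0x88388008818813881881302 [(8796093022208, 17592186044416), (0, 8796093022208),
    (8796093022208, 13194139533312), (0, 17592186044416)] = true := by
  decide +kernel

theorem k25 : chk C 0x880880088088000 [(0, 17592186044416), (0, 8796093022208), (8796093022208,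
    13194139533312), (17592186044416, 35184372088832)] = true := by
  decide +kernel

theorem k26 : chk C 0x8808800880880028818810880881020 [(0, 17592186044416), (0, 8796093022208),
    (13194139533312, 17592186044416), (0, 17592186044416)] = true := by
  decide +kernel

theorem k27 : chk C 0x880880088088000 [(0, 17592186044416), (0, 8796093022208), (13194139533312,
    17592186044416), (17592186044416, 35184372088832)] = true := by
  decide +kernel

end Pool.Agent.Lib.MP_d6150d_an.PpT1
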