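import Pool.Agent.Lib.MP_d6150d_an.PpT1D

/-! A generated chart: the computations. -/

namespace Pool.Agent.Lib.MP_d6150d_an.PpT1

theorem k28 : chk C 0x8808800880880008818810881881002 [(0, 17592186044416), (0, 8796093022208),
    (8796093022208, 17592186044416), (35184372088832, 70368744177664)] = true := by
  decide +kernel

theorem k29 : chk C 0x88803888032 [(0, 17592186044416), (0, 8796093022208), (8796093022208,
    17592186044416), (70368744177664, 140737488355328)] = true := by
  decide +kernel

end Pool.Agent.Lib.MP_d6150d_an.PpT1
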