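import Pool.Agent.Lib.MP_d6150d_an.PpMac
import Pool.Agent.Lib.MP_d6150d_an.PpT1K0
import Pool.Agent.Lib.MP_d6150d_an.PpT1K1
import Pool.Agent.Lib.MP_d6150d_an.PpT1K2
import Pool.Agent.Lib.MP_d6150d_an.PpT1K3

/-! A generated chart: the inequality. -/

namespace Pool.Agent.Lib.MP_d6150d_an.PpT1

set_option linter.unnecessarySeqFocus false
set_option linter.unusedTactic false
set_option linter.unusedVariables false

theorem gd : Gd2 C [(0, 17592186044416), (0, 8796093022208), (0, 17592186044416), (0,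
    140737488355328)] := .split 2 (.split 3 (.split 2 (.split 3 (.split 2 (.split 1 (.split 0
    (.split 3 (.split 0 (chk_sound2 k0) (chk_sound2 k1)) (chk_sound2 k2)) (.split 3 (.split 0
    (chk_sound2 k3) (chk_sound2 k4)) (chk_sound2 k5))) (.split 0 (.split 3 (.split 0 (chk_sound2 k6)
    (chk_sound2 k7)) (chk_sound2 k8)) (.split 3 (.split 0 (chk_sound2 k9) (.split 0 (chk_sound2 k10)
    (chk_sound2 k11))) (chk_sound2 k12)))) (.split 3 (.split 0 (chk_sound2 k13) (.split 1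
    (chk_sound2 k14) (chk_sound2 k15))) (chk_sound2 k16))) (chk_sound2 k17)) (.split 3 (.split 3
    (.split 0 (chk_sound2 k18) (chk_sound2 k19)) (chk_sound2 k20)) (chk_sound2 k21))) (chk_sound2
    k22)) (.split 3 (.split 3 (.split 2 (.split 3 (.split 0 (chk_sound2 k23) (chk_sound2 k24))
    (chk_sound2 k25)) (.split 3 (chk_sound2 k26) (chk_sound2 k27))) (chk_sound2 k28)) (chk_sound2
    k29))

set_option maxRecDepth 100000 in
theorem eq {be ze e rh F C B x d Q D W p2 p3 f0 f1 c1 la Y Om V E N : ℝ} (hF : F = e + 1 / 4) (hC :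
    C = 9 / 8 - 4 * F) (hB : B = 2 * F * (1 - 2 * F)) (hx : x = ze ^ 2 - e * be) (hd : d = rh * x)
    (hQ : Q = 1 + d) (hD : D = d / (1 - d)) (hW : W = (1 - x) * (1 - rh)) (hp2 : p2 = (pjR F x Q
    rh).1) (hp3 : p3 = (pjR F x Q rh).2.1) (hf0 : f0 = f0P 1 B C D F) (hf1 : f1 = f1P 1 B C D F)
    (hc1 : c1 = (1 - ze) / (1 - 2 * F)) (hla : la = (1 - x * ze) / (2 - 2 * F)) (hY : Y = d * c1 +
    (c1 - 1 + x) / (2 * F) - rh * la) (hOm : Om = 2 * F * (1 + d) - (2 * F - 1) * x - (1 + 2 * F) *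
    rh + 2 * rh * la) (hV : V = (1 + D) * Y) (hE : E = EH f0 f1 (1 / 8) ze V) (hN : N = NN F B C Om
    p2 p3 Y W (-1)) : outR prog 0 [be, ze, e, rh] = N + W ^ 5 * (ze * E) := by
  replace hF : F = (e + ((Int.cast (1) : ℝ) / (Nat.cast 4 : ℝ))) := hF.trans (by push_cast <;> ring)
  replace hC : C = (((Int.cast (9) : ℝ) / (Nat.cast 8 : ℝ)) - ((Int.cast (4) : ℝ) * F)) := hC.trans
    (by push_cast <;> ring)
  replace hB : B = (((Int.cast (2) : ℝ) * F) * ((Int.cast (1) : ℝ) - ((Int.cast (2) : ℝ) * F))) :=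
    hB.trans (by push_cast <;> ring)
  replace hx : x = ((ze * ze) - (e * be)) := hx.trans (by push_cast <;> ring)
  replace hd : d = (rh * x) := hd.trans (by push_cast <;> ring)
  replace hQ : Q = ((Int.cast (1) : ℝ) + d) := hQ.trans (by push_cast <;> ring)
  replace hD : D = (d * ((Int.cast (1) : ℝ) - d)⁻¹) := hD.trans (by push_cast <;> ring)
  replace hW : W = (((Int.cast (1) : ℝ) - x) * ((Int.cast (1) : ℝ) - rh)) := hW.trans (by push_cast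
    <;> ring)
  replace hp2 : p2 = (mPj F x Q rh).1 := hp2.trans (mPj_0 ..)
  replace hp3 : p3 = (mPj F x Q rh).2.1 := hp3.trans (mPj_1 ..)
  replace hf0 : f0 = (mFF B C D F).1 := hf0.trans (mFF_0 ..)
  replace hf1 : f1 = (mFF B C D F).2 := hf1.trans (mFF_1 ..)
  replace hc1 : c1 = (((Int.cast (1) : ℝ) - ze) * ((Int.cast (1) : ℝ) - ((Int.cast (2) : ℝ) * F))⁻¹)
    := hc1.trans (by push_cast <;> ring)
  replace hla : la = (((Int.cast (1) : ℝ) - (x * ze)) * ((Int.cast (2) : ℝ) - ((Int.cast (2) : ℝ) *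
    F))⁻¹) := hla.trans (by push_cast <;> ring)
  replace hY : Y = (((d * c1) + (((c1 - (Int.cast (1) : ℝ)) + x) * ((Int.cast (2) : ℝ) * F)⁻¹)) -
    (rh * la)) := hY.trans (by push_cast <;> ring)
  replace hOm : Om = ((((((Int.cast (2) : ℝ) * F) * ((Int.cast (1) : ℝ) + d)) - ((((Int.cast (2) :
    ℝ) * F) - (Int.cast (1) : ℝ)) * x)) - (((Int.cast (1) : ℝ) + ((Int.cast (2) : ℝ) * F)) * rh)) +
    (((Int.cast (2) : ℝ) * rh) * la)) := hOm.trans (by push_cast <;> ring)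
  replace hV : V = (((Int.cast (1) : ℝ) + D) * Y) := hV.trans (by push_cast <;> ring)
  replace hE : E = (mEH f0 f1 ze V) := hE.trans (mEH_0 ..)
  replace hN : N = (mNL F B C Om p2 p3 Y W) := hN.trans (mNL_0 ..)
  have e0 : (N + ((((W * W) * (W * W)) * W) * (ze * E))) = N + W ^ 5 * (ze * E) := by push_cast <;>
    ring
  subst hF hC hB hx hd hQ hD hW hp2 hp3 hf0 hf1 hc1 hla hY hOm hV hE hN
  exact Eq.trans rfl e0

theorem l0 : ((0 : ℤ) : ℝ) / 2 ^ 47 = 0 := by norm_num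
theorem u0 : (1 / 8 : ℝ) = ((17592186044416 : ℤ) : ℝ) / 2 ^ 47 := by norm_num
theorem l1 : ((0 : ℤ) : ℝ) / 2 ^ 47 = 0 := by norm_num
theorem u1 : (1 / 16 : ℝ) = ((8796093022208 : ℤ) : ℝ) / 2 ^ 47 := by norm_num
theorem l2 : ((0 : ℤ) : ℝ) / 2 ^ 47 = 0 := by norm_num
theorem u2 : (1 / 8 : ℝ) = ((17592186044416 : ℤ) : ℝ) / 2 ^ 47 := by norm_num
theorem l3 : ((0 : ℤ) : ℝ) / 2 ^ 47 = 0 := by norm_num
theorem u3 : (1 : ℝ) = ((140737488355328 : ℤ) : ℝ) / 2 ^ 47 := by norm_num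

theorem out0 (N : ∀ be ze : ℝ, 0 ≤ be → be ≤ 1 / 8 → 0 ≤ ze → ze ≤ 1 / 16 → 0 ≤ outR prog 0 [be, ze,
    0, 0]) {be ze e rh : ℝ} (a0 : 0 ≤ be) (b0 : be ≤ 1 / 8) (a1 : 0 ≤ ze) (b1 : ze ≤ 1 / 16) (a2 : 0
    ≤ e) (b2 : e ≤ 1 / 8) (a3 : 0 ≤ rh) (b3 : rh ≤ 1) (pc : 0 < e ∨ 0 < rh) : 0 < outR prog 0 [be,
    ze, e, rh] :=
  gd 0 (by decide) [be, ze, e, rh] (.cons ⟨l0.le.trans a0, b0.trans u0.le⟩ (.cons ⟨l1.le.trans a1,
    b1.trans u1.le⟩ (.cons ⟨l2.le.trans a2, b2.trans u2.le⟩ (.cons ⟨l3.le.trans a3, b3.trans u3.le⟩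
    (.nil))))) ⟨nofun, nofun, nofun, nofun, trivial⟩ (fun _ ↦ pc.elim (fun h ↦ .inr (.inr (.inl
    ⟨rfl, h⟩))) (fun h ↦ .inr (.inr (.inr (.inl ⟨rfl, h⟩))))) (List.forall_mem_nil _) (Van.of0 rfl)
    (fun _ y0 a0 b0 y1 a1 b1 _ _ _ _ _ _ ↦ N y0 y1 (l0.ge.trans a0) (b0.trans u0.ge) (l1.ge.trans
    a1) (b1.trans u1.ge))

end Pool.Agent.Lib.MP_d6150d_an.PpT1
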