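import Pool.Agent.Lib.MP_d6150d_an.PpT3D

/-! A generated chart: the computations. -/

namespace Pool.Agent.Lib.MP_d6150d_an.PpT3

theorem k0 : chk C 0x88284888138814388288288282434 [(0, 2147483648), (0, 35184372088832), (0,
    140737488355328), (52776558133248, 72567767433216), (0, 70368744177664)] = true := by
  decide +kernel

theorem k1 : chk C 0x8848818438844 [(0, 2147483648), (0, 35184372088832), (0, 140737488355328),
    (72567767433216, 92358976733184), (0, 70368744177664)] = true := by
  decide +kernel

theorem k2 : chk C 0x88488428818813881881423 [(0, 2147483648), (0, 35184372088832), (0,
    140737488355328), (52776558133248, 72567767433216), (70368744177664, 105553116266496)] = true :=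
    by
  decide +kernel

theorem k3 : chk C 0x88188812288841881884123 [(0, 2147483648), (0, 35184372088832), (0,
    140737488355328), (52776558133248, 72567767433216), (105553116266496, 140737488355328)] = true
    := by
  decide +kernel

theorem k4 : chk C 0x882888123884881881434 [(0, 2147483648), (0, 35184372088832), (0,
    140737488355328), (72567767433216, 92358976733184), (70368744177664, 140737488355328)] = true :=
    by
  decide +kernel

theorem k5 : chk C 0x88188148818814388488438818444 [(0, 2147483648), (0, 35184372088832), (0,
    140737488355328), (92358976733184, 112150186033152), (0, 140737488355328)] = true := by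
  decide +kernel

theorem k6 : chk C 0x881884288488444 [(0, 2147483648), (0, 35184372088832), (0, 140737488355328),
    (112150186033152, 122045790683136), (0, 140737488355328)] = true := by
  decide +kernel

theorem k7 : chk C 0x88183884881328848813881838838844444 [(0, 2147483648), (0, 35184372088832), (0,
    140737488355328), (122045790683136, 131941395333120), (0, 140737488355328)] = true := by
  decide +kernel

end Pool.Agent.Lib.MP_d6150d_an.PpT3
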