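import Pool.Agent.Lib.MP_d6150d_an.PpMac
import Pool.Agent.Lib.MP_d6150d_an.PpT3K0

/-! A generated chart: the inequality. -/

namespace Pool.Agent.Lib.MP_d6150d_an.PpT3

set_option linter.unnecessarySeqFocus false
set_option linter.unusedTactic false
set_option linter.unusedVariables false

theorem gd : Gd2 C [(0, 2147483648), (0, 35184372088832), (0, 140737488355328), (52776558133248,
    131941395333120), (0, 140737488355328)] := .split 3 (.split 4 (.split 3 (chk_sound2 k0)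
    (chk_sound2 k1)) (.split 3 (.split 4 (chk_sound2 k2) (chk_sound2 k3)) (chk_sound2 k4))) (.split
    3 (chk_sound2 k5) (.split 3 (chk_sound2 k6) (chk_sound2 k7)))

set_option maxRecDepth 100000 in
theorem eq {x ch b F rh B C d Q W p2 p3 la Om cl V N : ℝ} (hB : B = 2 * F * (1 - 2 * F)) (hC : C = 9
    / 8 - 4 * F) (hd : d = rh * x) (hQ : Q = 1 + d) (hW : W = (1 - x) * (1 - rh)) (hp2 : p2 = (pjR F
    x Q rh).1) (hp3 : p3 = (pjR F x Q rh).2.1) (hla : la = (1 - ch) / (2 - 2 * F)) (hOm : Om = 2 * F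
    * (1 + d) - (2 * F - 1) * x - (1 + 2 * F) * rh + 2 * rh * la) (hcl : cl = 3 + (F - 3 / 8) * (18
    + 108 * (F - 3 / 8))) (hV : V = d * cl + (cl - b + x * b) / (2 * F) - rh * (b * la)) (hN : N =
    NB F B C Om p2 p3 V b W) : outR prog 0 [x, ch, b, F, rh] = N := by
  replace hB : B = (((Int.cast (2) : ℝ) * F) * ((Int.cast (1) : ℝ) - ((Int.cast (2) : ℝ) * F))) :=
    hB.trans (by push_cast <;> ring)
  replace hC : C = (((Int.cast (9) : ℝ) / (Nat.cast 8 : ℝ)) - ((Int.cast (4) : ℝ) * F)) := hC.trans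
    (by push_cast <;> ring)
  replace hd : d = (rh * x) := hd.trans (by push_cast <;> ring)
  replace hQ : Q = ((Int.cast (1) : ℝ) + d) := hQ.trans (by push_cast <;> ring)
  replace hW : W = (((Int.cast (1) : ℝ) - x) * ((Int.cast (1) : ℝ) - rh)) := hW.trans (by push_cast
    <;> ring)
  replace hp2 : p2 = (mPj F x Q rh).1 := hp2.trans (mPj_0 ..)
  replace hp3 : p3 = (mPj F x Q rh).2.1 := hp3.trans (mPj_1 ..)
  replace hla : la = (((Int.cast (1) : ℝ) - ch) * ((Int.cast (2) : ℝ) - ((Int.cast (2) : ℝ) * F))⁻¹)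
    := hla.trans (by push_cast <;> ring)
  replace hOm : Om = ((((((Int.cast (2) : ℝ) * F) * ((Int.cast (1) : ℝ) + d)) - ((((Int.cast (2) :
    ℝ) * F) - (Int.cast (1) : ℝ)) * x)) - (((Int.cast (1) : ℝ) + ((Int.cast (2) : ℝ) * F)) * rh)) +
    (((Int.cast (2) : ℝ) * rh) * la)) := hOm.trans (by push_cast <;> ring)
  replace hcl : cl = ((Int.cast (3) : ℝ) + ((F - ((Int.cast (3) : ℝ) / (Nat.cast 8 : ℝ))) *
    ((Int.cast (18) : ℝ) + ((Int.cast (108) : ℝ) * (F - ((Int.cast (3) : ℝ) / (Nat.cast 8 : ℝ)))))))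
    := hcl.trans (by push_cast <;> ring)
  replace hV : V = (((d * cl) + (((cl - b) + (x * b)) * ((Int.cast (2) : ℝ) * F)⁻¹)) - (rh * (b *
    la))) := hV.trans (by push_cast <;> ring)
  replace hN : N = (mNB F B C Om p2 p3 V b W) := hN.trans (mNB_0 ..)
  subst hB hC hd hQ hW hp2 hp3 hla hOm hcl hV hN
  exact rfl

theorem l0 : ((0 : ℤ) : ℝ) / 2 ^ 47 = 0 := by norm_num
theorem u0 : (1 / 65536 : ℝ) = ((2147483648 : ℤ) : ℝ) / 2 ^ 47 := by norm_num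
theorem l1 : ((0 : ℤ) : ℝ) / 2 ^ 47 = 0 := by norm_num
theorem u1 : (1 / 4 : ℝ) = ((35184372088832 : ℤ) : ℝ) / 2 ^ 47 := by norm_num
theorem l2 : ((0 : ℤ) : ℝ) / 2 ^ 47 = 0 := by norm_num
theorem u2 : (1 : ℝ) = ((140737488355328 : ℤ) : ℝ) / 2 ^ 47 := by norm_num
theorem l3 : ((52776558133248 : ℤ) : ℝ) / 2 ^ 47 = 3 / 8 := by norm_num
theorem u3 : (15 / 16 : ℝ) = ((131941395333120 : ℤ) : ℝ) / 2 ^ 47 := by norm_num
theorem l4 : ((0 : ℤ) : ℝ) / 2 ^ 47 = 0 := by norm_num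
theorem u4 : (1 : ℝ) = ((140737488355328 : ℤ) : ℝ) / 2 ^ 47 := by norm_num

theorem out0 {x ch b F rh : ℝ} (a0 : 0 ≤ x) (b0 : x ≤ 1 / 65536) (a1 : 0 ≤ ch) (b1 : ch ≤ 1 / 4) (a2
    : 0 ≤ b) (b2 : b ≤ 1) (a3 : 3 / 8 ≤ F) (b3 : F ≤ 15 / 16) (a4 : 0 ≤ rh) (b4 : rh ≤ 1) : 0 < outR
    prog 0 [x, ch, b, F, rh] :=
  gd 0 (by decide) [x, ch, b, F, rh] (.cons ⟨l0.le.trans a0, b0.trans u0.le⟩ (.cons ⟨l1.le.trans a1,
    b1.trans u1.le⟩ (.cons ⟨l2.le.trans a2, b2.trans u2.le⟩ (.cons ⟨l3.le.trans a3, b3.trans u3.le⟩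
    (.cons ⟨l4.le.trans a4, b4.trans u4.le⟩ (.nil)))))) ⟨nofun, nofun, nofun, nofun, nofun, trivial⟩
    (nofun) (List.forall_mem_nil _) (Van.of0 rfl) (nofun)

theorem pos0 {x ch b F rh B C d Q W p2 p3 la Om cl V N : ℝ} (hB : B = 2 * F * (1 - 2 * F)) (hC : C =
    9 / 8 - 4 * F) (hd : d = rh * x) (hQ : Q = 1 + d) (hW : W = (1 - x) * (1 - rh)) (hp2 : p2 = (pjR
    F x Q rh).1) (hp3 : p3 = (pjR F x Q rh).2.1) (hla : la = (1 - ch) / (2 - 2 * F)) (hOm : Om = 2 *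
    F * (1 + d) - (2 * F - 1) * x - (1 + 2 * F) * rh + 2 * rh * la) (hcl : cl = 3 + (F - 3 / 8) *
    (18 + 108 * (F - 3 / 8))) (hV : V = d * cl + (cl - b + x * b) / (2 * F) - rh * (b * la)) (hN : N
    = NB F B C Om p2 p3 V b W) (a0 : 0 ≤ x) (b0 : x ≤ 1 / 65536) (a1 : 0 ≤ ch) (b1 : ch ≤ 1 / 4) (a2
    : 0 ≤ b) (b2 : b ≤ 1) (a3 : 3 / 8 ≤ F) (b3 : F ≤ 15 / 16) (a4 : 0 ≤ rh) (b4 : rh ≤ 1) : 0 < N :=
  have e := eq hB hC hd hQ hW hp2 hp3 hla hOm hcl hV hN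
  (out0 a0 b0 a1 b1 a2 b2 a3 b3 a4 b4).trans_eq e

end Pool.Agent.Lib.MP_d6150d_an.PpT3
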