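import Pool.Agent.Lib.MP_d6150d_an.PpG0
import Pool.Agent.Lib.MP_d6150d_an.PpR1
import Pool.Agent.Lib.MP_d6150d_an.PpL1
import Pool.Agent.Lib.MP_d6150d_an.PpM1
import Pool.Agent.Lib.MP_d6150d_an.PpM2
import Pool.Agent.Lib.MP_d6150d_an.PpT1
import Pool.Agent.Lib.MP_d6150d_an.PpT3
import Pool.Agent.Lib.MP_d6150d_an.PpS1
import Pool.Agent.Lib.MP_d6150d_an.PpE1

/-! The cell `1 / 4 ≤ F`. -/

namespace Pool.Agent.Lib.MP_d6150d_an

open Real Set Filter Topology Asymptotics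

variable {D F e t u : ℝ}

theorem R1_eq (hF : F = e + 1 / 4) (ht : u ∈ JR D) (h0 : u ≠ 0) :
    outR PpR1.prog 0 [D, e, u] = u * cP D (-u) (-u) ^ 5 * HO D F u :=
  (PpR1.eq hF rfl rfl rfl rfl rfl (vR_half D F u) rfl rfl rfl rfl rfl rfl rfl rfl rfl rfl rfl rfl rfl
    rfl).trans (cenR ht h0 rfl rfl rfl rfl rfl rfl).1

theorem L1_eq (hF : F = e + 1 / 4) (ht : -u ∈ JR D) (h0 : -u ≠ 0) :
    outR PpL1.prog 0 [D, e, u] = -u * cP D (-u) (- -u) ^ 5 * HO D F (-u) :=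
  (PpL1.eq hF rfl rfl rfl rfl rfl rfl (vR_half D F (-u)) rfl rfl rfl rfl rfl rfl rfl rfl rfl rfl rfl
    rfl rfl rfl rfl).trans (cenL ht h0 rfl rfl rfl rfl rfl rfl rfl).1

theorem R1_pos (a0 : 0 ≤ D) (b0 : D ≤ 3 / 32) (hF : F = e + 1 / 4) (a1 : 0 ≤ e) (b1 : e ≤ 11 / 16)
    (pc : 0 < D ∨ 0 < e) (a2 : 0 < u) (b2 : u ≤ 3) : 0 < HO D F u := by
  have := PpR1.out0 (fun D e _ _ _ _ ↦ HP_VR (F := e + 1 / 4) (by linarith) 1
    (c := fun u ↦ cP D (-u) (-u) ^ 5) ((cP_cont continuous_neg continuous_neg).pow 5)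
    fun u h k ↦ (R1_eq rfl k h.ne').trans (by rw [pow_one, mul_comm u, HO])) (fun u h _ ↦ by
      rcases h.eq_or_lt with rfl | h
      · exact ((PpR1.eq rfl rfl rfl rfl rfl rfl rfl rfl rfl rfl rfl rfl rfl rfl rfl rfl rfl rfl rfl
          rfl rfl).trans (by simp [NN, pjR, muR_zero, ph1_zero]; norm_num)).ge
      · rw [R1_eq rfl (JR_zero u) h.ne', HO_iso rfl (zero_add _) h.ne', mul_zero])
    a0 b0 a1 b1 a2.le b2 a2 pc
  rw [R1_eq hF (JR_pos a0 a2.le) a2.ne'] at this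
  have h := cP_pos (-u) (JR_pos a0 a2.le)
  exact pos_of_mul_pos_right this (by positivity)

theorem L1_pos (a0 : 0 ≤ D) (b0 : D ≤ 3 / 32) (hF : F = e + 1 / 4) (a1 : 0 ≤ e) (b1 : e ≤ 11 / 16)
    (pc : 0 < D ∨ 0 < e) (ht : -u ∈ JR D) (a2 : 0 < u) (b2 : u ≤ 2) : HO D F (-u) < 0 := by
  have := PpL1.out0 (fun D e _ _ _ _ ↦ HP_VL (F := e + 1 / 4) (by linarith) 1
    (c := fun u ↦ -cP D (-u) (- -u) ^ 5) ((cP_cont continuous_neg continuous_neg.neg).pow 5).neg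
    fun u h k ↦ (L1_eq rfl k (neg_ne_zero.2 h.ne')).trans
      (by rw [pow_one, neg_mul u, mul_comm u, ← neg_mul, HO]))
    (fun u h _ ↦ by
      rcases h.eq_or_lt with rfl | h
      · exact ((PpL1.eq rfl rfl rfl rfl rfl rfl rfl rfl rfl rfl rfl rfl rfl rfl rfl rfl rfl rfl rfl
          rfl rfl rfl rfl).trans (by simp [NN, pjR, muR_zero, ph1_zero]; norm_num)).ge
      · rw [L1_eq rfl (JR_zero _) (neg_ne_zero.2 h.ne'),
          HO_iso rfl (zero_add _) (neg_ne_zero.2 h.ne'), mul_zero])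
    a0 b0 a1 b1 a2.le b2 a2 pc
  rw [L1_eq hF ht (neg_ne_zero.2 a2.ne'), neg_mul u] at this
  have h := cP_pos (-u) ht
  exact neg_of_mul_pos_right this (neg_nonpos.2 (by positivity))

variable {rh : ℝ}

theorem M1_eq (hF : F = e + 1 / 4) (a1 : 0 ≤ e) (hu : 0 < u) (r0 : 0 ≤ rh)
    (r1 : rh < 1) (hD : D = rh * exp (-u) / (1 - rh * exp (-u))) :
    ∃ W, 0 < W ∧ outR PpM1.prog 0 [rh, e, u] = -(W ^ 5 * HO D F (-u)) :=
  have := left1 hu r0 r1 (F := F) (by linarith) rfl rfl hD rfl rfl rfl rfl rfl rfl rfl rfl rfl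
  ⟨_, this.2.1, (PpM1.eq hF rfl rfl rfl rfl hD rfl rfl rfl rfl rfl rfl rfl rfl rfl rfl rfl rfl rfl
    rfl rfl rfl rfl).trans this.1⟩

theorem neg_of_fifth {W h : ℝ} (hW : 0 < W) (k : 0 < -(W ^ 5 * h)) : h < 0 :=
  neg_of_mul_neg_right (neg_pos.1 k) (by positivity)

theorem M1_pos (hF : F = e + 1 / 4) (a1 : 0 ≤ e) (b1 : e ≤ 5 / 16) (r0 : 0 ≤ rh)
    (r1 : rh < 1) (hD : D = rh * exp (-u) / (1 - rh * exp (-u))) (pc : 0 < rh ∨ 0 < e)
    (a2 : 2 ≤ u) (b2 : u ≤ 12) : HO D F (-u) < 0 := by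
  obtain ⟨W, hW, h⟩ := M1_eq hF a1 (by linarith) r0 r1 hD
  refine neg_of_fifth hW (h ▸ PpM1.out0 (fun u h _ ↦ ?_) r0 r1.le a1 b1 a2 b2 pc)
  obtain ⟨W, -, k⟩ := M1_eq (D := 0) (u := u) rfl le_rfl (by linarith) le_rfl one_pos (by simp)
  rw [k, HO_iso rfl (zero_add _) (by linarith), mul_zero, neg_zero]

theorem c1_eq (h : F < 1 / 2) : u * ph1 ((2 * F - 1) * u) =
    (1 - exp ((2 * F - 1) * u)) / (1 - 2 * F) := by rw [← ph1_div (by linarith), neg_sub]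

theorem la_eq (h : F < 1) : u * ph1 (-((2 - 2 * F) * u)) =
    (1 - exp (-u) * exp ((2 * F - 1) * u)) / (2 - 2 * F) := by
  rw [← exp_add, ← neg_mul (2 - 2 * F), ← ph1_div (by linarith), neg_neg]
  congr 3; ring

theorem M2_pos (a1 : 9 / 16 ≤ F) (b1 : F ≤ 15 / 16) (r0 : 0 ≤ rh) (r1 : rh < 1)
    (hD : D = rh * exp (-u) / (1 - rh * exp (-u))) (a2 : 2 ≤ u) (b2 : u ≤ 12) :
    HO D F (-u) < 0 := by
  obtain ⟨Y, hY⟩ : ∃ Y, Y = _ := ⟨_, rfl⟩
  obtain ⟨h1, h2, h3, h4⟩ := left1 (by linarith) r0 r1 (F := F) (by linarith) rfl rfl hD rfl rfl rfl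
    rfl rfl hY rfl rfl rfl
  have e1 : exp ((1 - 2 * F) * u) * exp ((2 * F - 1) * u) = 1 := by
    rw [← exp_add, ← exp_zero]; congr 1; ring
  have e2 : exp ((2 - 3 * F) * u) = exp ((1 - 2 * F) * u) ^ 2 * exp (F * u) := by
    rw [← exp_nat_mul, ← exp_add]; congr 1; push_cast; ring
  have h := PpM2.pos0 rfl rfl rfl rfl hD rfl rfl rfl rfl rfl rfl rfl rfl rfl rfl rfl
    (cb := exp ((1 - 2 * F) * u) * (u * ph1 ((2 * F - 1) * u)))
    (by rw [eq_div_iff (by linarith)]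
        linear_combination e1 - exp ((1 - 2 * F) * u) * exp_eq_ph ((2 * F - 1) * u))
    (V := exp ((1 - 2 * F) * u) * Y) (by rw [hY]; ring) rfl (v := vR D F (-u) / 2)
    (by linear_combination exp ((1 - 2 * F) * u) * h3 - vR D F (-u) / 2 * e1) rfl
    r0 r1.le a1 b1 a2 b2
  rw [NB_eq, e2] at h
  rw [h4] at h1
  refine neg_of_fifth h2 (pos_of_mul_pos_right (a := exp ((1 - 2 * F) * u) ^ 2) (h.trans_eq ?_)
    (by positivity))
  rw [← h1]; ring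

theorem EH_left (a0 : 0 ≤ D) (b0 : D ≤ 3 / 32) (a1 : 1 / 4 ≤ F) (b1 : F ≤ 15 / 16) (ht : -u ∈ JR D)
    (hu : 0 < u) {z b : ℝ} (hz : 0 < z) (h : vR D F (-u) / 2 * z = b) :
    0 ≤ EH (f0P 1 (2 * F * (1 - 2 * F)) (9 / 8 - 4 * F) D F)
      (f1P 1 (2 * F * (1 - 2 * F)) (9 / 8 - 4 * F) D F) (1 / 8) z b := by
  have h1 := vR_pos (F := F) ht (neg_ne_zero.2 hu.ne')
  have h2 := mul_pos hz (lev_pos (F := F) a0 (by linarith) ht (neg_neg_iff_pos.2 hu))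
  exact EH_pos hz (by rw [← h]; positivity) (PpE1.pos0 rfl rfl rfl rfl a0 b0 a1 b1).le
    (F := F) (by linarith) (by linarith) (PpE1.pos1 rfl rfl rfl rfl a0 b0 a1 b1).le
    (h2.le.trans_eq (by rw [← h]; ring))

theorem T1_N {be ze : ℝ} (h : 0 ≤ ze) : outR PpT1.prog 0 [be, ze, 0, 0] = 0 := by
  have h1 : 0 < (1 + ze) / 2 := by positivity
  refine (PpT1.eq (F := 1 / 4) (C := 1 / 8) (B := 1 / 4) (x := ze ^ 2) (d := 0) (Q := 1) (D := 0)
    (W := 1 - ze ^ 2) (f0 := 3 / 64) (f1 := -3 / 1024) (c1 := 2 * (1 - ze)) (Y := 2 * (1 - ze) ^ 2)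
    (V := 2 * (1 - ze) ^ 2) (by ring) (by ring) (by ring) (by ring) (by ring) (by ring) (by ring)
    (by ring) rfl rfl (by simp only [f0P, ja2]; ring) (by simp only [f1P, ja2, ja4]; ring) (by ring)
    rfl (by ring) rfl (by ring) (EH_sq h1 (by ring)) rfl).trans ?_
  simp only [NN, pjR]
  field_simp
  ring

theorem T1_pos (a0 : 0 ≤ D) (b0 : D ≤ 3 / 32) (hF : F = e + 1 / 4) (a1 : 0 ≤ e) (b1 : e ≤ 1 / 8)
    (ht : -u ∈ JR D) (r0 : 0 ≤ rh) (r1 : rh < 1) (hD : D = rh * exp (-u) / (1 - rh * exp (-u)))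
    (pc : 0 < rh ∨ 0 < e) (a2 : 12 ≤ u) : HO D F (-u) < 0 := by
  have hu : 0 < u := by linarith
  have p1 := ph1_pos (-(4 * e * u))
  have p2 := ph1_le (z := -(4 * e * u)) (neg_nonpos.2 (by positivity))
  have hx : exp (-u) = exp ((2 * F - 1) * u) ^ 2 -
      e * (4 * u * ph1 (-(4 * e * u)) * exp ((4 * F - 2) * u)) := by
    rw [← exp_nat_mul, show ((2 : ℕ) : ℝ) * ((2 * F - 1) * u) = (4 * F - 2) * u by push_cast; ring,
      show -u = -(4 * e * u) + (4 * F - 2) * u by rw [hF]; ring, exp_add, exp_eq_ph (-(4 * e * u))]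
    ring
  have h1 := PpT1.out0 (fun _ _ _ _ h _ ↦ (T1_N h).ge)
    (be := 4 * u * ph1 (-(4 * e * u)) * exp ((4 * F - 2) * u)) (ze := exp ((2 * F - 1) * u))
    (by positivity) (exp_ub 6 (x := u / 2) (by push_cast; linarith) (by nlinarith) (by positivity)
      (by norm_num) (by push_cast; nlinarith))
    (exp_pos _).le (one_mul (exp _) ▸ exp_ub 3 (x := 3) (by simp) (by nlinarith) zero_le_one
      (by norm_num) (by norm_num)) a1 b1 r0 r1.le pc.symm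
  rw [PpT1.eq hF rfl rfl hx rfl rfl hD rfl rfl rfl rfl rfl (c1_eq (by linarith))
    (la_eq (by linarith)) rfl rfl rfl rfl rfl] at h1
  obtain ⟨h2, h3, h4, -⟩ := left1 hu r0 r1 (F := F) (by linarith) rfl rfl hD rfl rfl rfl rfl rfl rfl
    rfl rfl rfl
  have h5 := EH_left a0 b0 (by linarith) (by linarith) ht hu (exp_pos _) h4
  refine neg_of_fifth h3 (h2 ▸ h1.trans_le ?_)
  have : exp ((2 * F - 1) * u) ≤ exp ((4 * F - 3 / 2) * u) := exp_le_exp.2 (by nlinarith)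
  gcongr

theorem cl_le (a1 : 3 / 8 ≤ F) (b1 : F ≤ 15 / 16) (a2 : 12 ≤ u) :
    3 + (F - 3 / 8) * (18 + 108 * (F - 3 / 8)) ≤ u * ph1 ((2 * F - 1) * u) := by
  rcases le_or_gt F (1 / 2) with h | h
  · have h1 := ph1_lb (z := (2 * F - 1) * u) (by nlinarith)
    have h2 : 0 < 1 - (2 * F - 1) * u := by nlinarith
    refine le_of_mul_le_mul_left ?_ h2
    have h3 : (3 + (F - 3 / 8) * (18 + 108 * (F - 3 / 8))) * (4 - 24 * (F - 3 / 8)) ≤ 12 := by
      nlinarith [pow_nonneg (sub_nonneg.2 a1) 3]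
    have h4 : (3 + (F - 3 / 8) * (18 + 108 * (F - 3 / 8))) * (1 - 2 * F) ≤ 1 := by
      nlinarith [sub_nonneg.2 a1]
    nlinarith [mul_nonneg (sub_nonneg.2 a2) (sub_nonneg.2 h4), mul_le_mul_of_nonneg_left h1
      (by linarith : 0 ≤ u)]
  · have h0 : 0 < (2 * F - 1) * u := by nlinarith
    have h1 := quadratic_le_exp_of_nonneg h0.le
    rw [exp_eq_ph] at h1
    have h2 : 1 + (2 * F - 1) * u / 2 ≤ ph1 ((2 * F - 1) * u) :=
      le_of_mul_le_mul_left (by linarith) h0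
    have h3 : 1 + (2 * F - 1) * 6 ≤ ph1 ((2 * F - 1) * u) := by nlinarith
    nlinarith [mul_le_mul a2 h3 (by linarith) (by linarith)]

theorem T3_pos (a0 : 0 ≤ D) (b0 : D ≤ 3 / 32) (a1 : 3 / 8 ≤ F) (b1 : F ≤ 15 / 16)
    (ht : -u ∈ JR D) (r0 : 0 ≤ rh) (r1 : rh < 1) (hD : D = rh * exp (-u) / (1 - rh * exp (-u)))
    (a2 : 12 ≤ u) : HO D F (-u) < 0 := by
  have hu : 0 < u := by linarith
  obtain ⟨Y, hY⟩ : ∃ Y, Y = _ := ⟨_, rfl⟩
  obtain ⟨h2, h3, h4, -⟩ := left1 hu r0 r1 (F := F) (by linarith) rfl rfl hD rfl rfl rfl rfl rfl hY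
    rfl rfl rfl
  have h5 := EH_left a0 b0 (by linarith) (by linarith) ht hu (exp_pos _) h4
  have c0 := mul_pos hu (ph1_pos ((2 * F - 1) * u))
  have c1 : 0 < 3 + (F - 3 / 8) * (18 + 108 * (F - 3 / 8)) := by nlinarith [sub_nonneg.2 a1]
  obtain ⟨b, hb⟩ : ∃ b, b = (3 + (F - 3 / 8) * (18 + 108 * (F - 3 / 8))) /
    (u * ph1 ((2 * F - 1) * u)) := ⟨_, rfl⟩
  have b2 : 0 < b := hb ▸ div_pos c1 c0
  have h1 := PpT3.pos0 (b := b) rfl rfl rfl rfl rfl rfl rfl (la_eq (u := u) (by linarith)) rfl rfl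
    (V := b * Y) (by rw [hY, ← (eq_div_iff c0.ne').1 hb]; ring) rfl (exp_pos _).le
    (one_mul (exp _) ▸ exp_ub 12 (x := 12) (by simp) (by linarith) zero_le_one (by norm_num)
      (by norm_num)) (by positivity)
    (by rw [← exp_add, ← one_mul (exp _)]
        exact exp_ub 1 (x := 3 / 2) (by norm_num) (by nlinarith) zero_le_one (by norm_num)
          (by norm_num)) b2.le (hb ▸ (div_le_one c0).2 (cl_le a1 b1 a2)) a1 b1 r0 r1.le
  rw [NB_eq] at h1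
  have h6 := pos_of_mul_pos_right h1 (by positivity)
  exact neg_of_fifth h3 (h2 ▸ add_pos_of_pos_of_nonneg h6 (by positivity))

theorem S1_N {a : ℝ} (h : 0 ≤ a) (k : a ≤ 15 / 64) : outR PpS1.prog 0 [0, 0, a, 0] = 0 := by
  have z0 : 0 < 1 + a := by positivity
  have z1 : 0 < 1 - a := by linarith
  have z2 := (ph1_pos (3 / 2)).ne'
  refine (PpS1.eq (F := 1 / 4) (C := 1 / 8) (B := 1 / 4) (z4 := ph1 (3 / 2)) (ph := 1)
    (et := 2 * (1 - a)) (ch := 1) (z := a) (g := (1 - a) * (1 + a)) (g1 := 1 / ((1 - a) * (1 + a)))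
    (g2 := 1 / ((1 - a) * (1 + a))) (nu := -1 / (1 + a)) (m := 2 * (1 - a) / (1 + a)) (f0 := 3 / 64)
    (f1 := -3 / 1024) (Y := 2 * (1 - a) ^ 2) (by ring) (by ring) (by ring) (by norm_num) rfl
    (div_self z2).symm (by ring) (by ring) rfl (by ring) (by ring) rfl (by ring) (by ring)
    (by field_simp; ring) rfl (by field_simp; ring) (by simp only [f0P, ja2]; ring)
    (by simp only [f1P, ja2, ja4]; ring) (by field_simp)
    (EH_sq (c := (1 + a) / 2) (by positivity) (by ring))).trans ?_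
  field_simp
  ring

theorem S1_pos (a0 : 0 ≤ D) (b0 : D ≤ 3 / 32) (hF : F = e + 1 / 4) (a1 : 0 ≤ e) (b1 : e ≤ 9 / 32)
    (pc : 0 < D ∨ 0 < e) (a2 : 3 ≤ t) : 0 < HO D F t := by
  obtain ⟨a, ha⟩ : ∃ a, a = exp (-(1 / 2 * t)) := ⟨_, rfl⟩
  have p0 : 0 < a := ha ▸ exp_pos _
  have hq : a ^ 2 = exp (-t) := by rw [ha, ← exp_nat_mul]; congr 1; push_cast; ring
  have p1 : a ≤ 15 / 64 := by
    have := exp_ub 3 (x := 3) (y := -t) (K := (15 / 64) ^ 2) (by simp) (by linarith) zero_le_one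
      (by norm_num) (by norm_num)
    exact le_of_sq_le_sq (by linarith) (by norm_num)
  have p2 : a * (t * ph1 (1 / 2 * t)) = 2 * (1 - a) := by
    have : a * exp (1 / 2 * t) = 1 := by rw [ha, ← exp_add]; simp
    linear_combination 2 * this - 2 * a * exp_eq_ph (1 / 2 * t)
  have p3 := mul_le_mul_of_nonneg_left (ph1_ratio (c := 1 - 2 * F) (by linarith) a2) p0.le
  have p4 : 0 < 2 * (1 - a) * (ph1 ((1 - 2 * F) * 3) / ph1 (3 / 2)) :=
    mul_pos (by linarith) (div_pos (ph1_pos _) (ph1_pos _))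
  rw [mul_left_comm a (_ / _), p2, mul_comm (_ / _)] at p3
  obtain ⟨et, he⟩ : ∃ et, et = a * (t * ph1 ((1 - 2 * F) * t)) := ⟨_, rfl⟩
  have p5 : 0 ≤ et := he ▸ mul_nonneg p0.le (mul_nonneg (by linarith) (ph1_pos _).le)
  have h1 := PpS1.out0 (fun _ h k ↦ (S1_N h k).ge)
    (h := 1 - et / (2 * (1 - a) * (ph1 ((1 - 2 * F) * 3) / ph1 (3 / 2)))) a0 b0 a1 b1 p0.le p1
    (sub_nonneg.2 ((div_le_one p4).2 (he ▸ p3))) (sub_le_self _ (div_nonneg p5 p4.le))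
    (pc.imp_right Or.inl)
  have F0 : F ≠ 0 := by linarith
  rw [PpS1.eq hF rfl rfl rfl rfl rfl (et := et) (by rw [sub_sub_cancel, mul_div_cancel₀ _ p4.ne'])
    rfl rfl rfl rfl rfl rfl rfl rfl rfl rfl rfl rfl rfl rfl] at h1
  rw [HO, right_eq (by linarith) a0 F0 (by linarith) hq (z := a * (a + (1 - 2 * F) * et)) (by
      have : exp (-(F * t)) ^ 2 = a ^ 2 * exp ((1 - 2 * F) * t) := by
        rw [hq, ← exp_nat_mul, ← exp_add]; congr 1; push_cast; ring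
      rw [this, he, exp_eq_ph]; ring) rfl rfl rfl rfl
    (m := (a * ((D * (a + (1 - 2 * F) * et - a * a ^ 2) / (1 - F) - (1 + 2 * D) * et) *
      (1 / ((1 - a ^ 2) * (1 + D - D * a ^ 2))) / 2) + 1 / 2) / F) (by rw [he]; ring)]
  generalize (D * (a + (1 - 2 * F) * et - a * a ^ 2) / (1 - F) - (1 + 2 * D) * et) *
      (1 / ((1 - a ^ 2) * (1 + D - D * a ^ 2))) / 2 = nu at *
  generalize hm : (a * nu + 1 / 2) / F = m at *
  rw [div_eq_iff F0] at hm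
  refine (mul_pos (pow_pos p0 2) h1).trans_eq ?_
  generalize EH _ _ _ _ _ = E
  generalize (1 + 2 * D - 2 * D * a ^ 2) * _ = g1
  generalize (1 + 2 * D - 4 * D * a ^ 2) * _ = g2
  generalize 1 / ((1 - a ^ 2) * _) = gi
  generalize a + (1 - 2 * F) * et = ch
  generalize 2 * F * (1 - 2 * F) = B
  generalize 9 / 8 - 4 * F = C
  linear_combination (F * (a * ch * gi + B * m) * (3 * (m * F + a * nu + 1 / 2) - 1 +
    5 * a ^ 2 * g1 * m) + B * (a * nu) * (3 * (a * nu) + 2) - (C + B / 2) * (m * F + a * nu - 1 / 2) -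
    B) * hm

theorem PO (a0 : 0 ≤ D) (b0 : D ≤ 3 / 32) (F0 : 1 / 4 ≤ F) (F1 : F ≤ 15 / 16)
    (pc : 0 < D ∨ 1 / 4 < F) : NoThree D F := by
  have hF : F = F - 1 / 4 + 1 / 4 := by ring
  have a1 := sub_nonneg.2 F0
  replace pc := pc.imp_right sub_pos.2
  refine HP_noThree (A := 1) (B := 2 * F * (1 - 2 * F)) (C := 9 / 8 - 4 * F) (β := 1 / 8)
    (by linarith) (fun _ ha h ↦ (lev_pos a0 (by linarith) ha h).le)
    (fun a ha h ↦ mul_pos_of_neg_of_neg h ?_) fun a ha b h0 h e ↦ mul_pos h ?_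
  · obtain ⟨u, rfl⟩ : ∃ u, a = -u := ⟨-a, (neg_neg a).symm⟩
    obtain ⟨rh, r0, r1, r2, hD⟩ := left_par a0 ha
    rcases le_total u 2 with k | k
    · exact L1_pos a0 b0 hF a1 (by linarith) pc ha (neg_neg_iff_pos.1 h) k
    rcases le_total u 12 with l | l
    · rcases le_total F (9 / 16) with m | m
      exacts [M1_pos hF a1 (by linarith) r0 r1 hD (pc.imp_left r2) k l, M2_pos m F1 r0 r1 hD k l]
    · rcases le_total F (3 / 8) with m | m
      exacts [T1_pos a0 b0 hF a1 (by linarith) ha r0 r1 hD (pc.imp_left r2) l,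
        T3_pos a0 b0 m F1 ha r0 r1 hD l]
  · rcases le_total b 3 with k | k
    · exact R1_pos a0 b0 hF a1 (by linarith) pc h k
    rcases le_total F (17 / 32) with m | m
    · exact S1_pos a0 b0 hF a1 (by linarith) pc k
    · exact absurd (lev_right a0 (by linarith) ha h0 h e) (not_lt.2 (exp_ub 3 (x := 3) (by simp)
        (by linarith) (by linarith) (by linarith) (by norm_num; linarith)))

end Pool.Agent.Lib.MP_d6150d_an
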