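import Pool.Agent.Lib.MP_d6150d_an.GDef

/-! A generated chart: the program. -/

namespace Pool.Agent.Lib.MP_d6150d_an.PpL0

def prog1 : List Ins := .mul 0 1 :: .mul 40 57 :: .smul (-1) 0 :: .exp 0 :: .mul 3 0 :: .sub true 0
    57 :: .mul 49 0 :: .smul 4 46 :: .mul 0 64 :: .mul 5 5 :: .mul 0 65 :: .mul 17 0 :: .mul 44 0 ::
    .mul 4 0 :: .sub true 30 53 :: .mul 65 70 :: .add false 68 53 :: .sub false 1 0 :: .add true 0
    65 :: .mul 4 0 :: .smul 2 4 :: .sub false 0 4 :: .sub true 2 0 :: .mul 0 10 :: .add true 0 68 ::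
    .mul 11 0 :: .add false 19 0 :: .smul (-1) 0 :: .cpy 0 :: []

def prog : List Ins := .var 2 :: .smul (-1) 0 :: .tri 0 :: .int 1 :: .var 0 :: .add false 1 0 ::
    .smul (-1) 6 :: .exp 0 :: .mul 3 0 :: .sub true 3 0 :: .mul 8 0 :: .mul 0 0 :: .mul 0 1 :: .cst
    1 3 :: .cst 1 4 :: .var 1 :: .sub true 1 0 :: .smul 2 0 :: .smul 2 13 :: .sub false 15 0 :: .sub
    true 0 3 :: .mul 3 0 :: .mul 8 0 :: .cst 1 2 :: .mul 24 24 :: .mul 7 25 :: .tri 0 :: .mul 11 0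
    :: .sub true 12 26 :: .mul 0 31 :: .tri 0 :: .mul 4 0 :: .sub false 6 0 :: .smul 2 1 :: .sub
    false 8 0 :: .int 2 :: .sub true 22 0 :: .mul 0 41 :: .tri 0 :: .mul 4 0 :: .add true 7 0 ::
    .mul 42 0 :: .add true 11 0 :: .smul 2 0 :: .mul 25 0 :: .mul 27 0 :: .mul 29 0 :: .add false 49
    0 :: .rsq 0 :: .mul 0 0 :: prog1

def vs : List Vr := [⟨2, 0, false, true⟩, ⟨3, 0, false, true⟩, ⟨7, 3, false, false⟩]

def C : Chart := ⟨vs, prog, [], 1, 3⟩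

end Pool.Agent.Lib.MP_d6150d_an.PpL0
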