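import Pool.Agent.Lib.MP_d6150d_an.GDef

/-! A generated chart: the program. -/

namespace Pool.Agent.Lib.MP_d6150d_an.PpL1

def prog3 : List Ins := .add true 25 0 :: .mul 156 0 :: .cst 3 16 :: .mul 0 31 :: .add true 2 0 ::
    .mul 0 116 :: .mul 0 45 :: .add true 35 0 :: .mul 46 0 :: .mul 53 0 :: .mul 0 160 :: .sub false
    57 0 :: .cpy 0 :: []

def prog2 : List Ins := .mul 2 0 :: .add true 4 0 :: .mul 18 0 :: .add false 20 0 :: .mul 24 29 ::
    .mul 108 0 :: .cst 1 8 :: .mul 0 68 :: .add false 102 0 :: .rsq 0 :: .mul 0 0 :: .mul 0 1 ::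
    .smul 3 103 :: .mul 6 0 :: .mul 120 27 :: .sub false 1 0 :: .cst 1 12 :: .sub false 111 122 ::
    .sub true 0 70 :: .mul 124 0 :: .mul 3 0 :: .sub true 5 0 :: .sub true 35 34 :: .mul 0 4 :: .mul
    130 0 :: .cst 1 180 :: .int (-57) :: .int 156 :: .smul 103 133 :: .sub true 1 0 :: .mul 135 0 ::
    .add true 4 0 :: .mul 137 0 :: .add false 78 0 :: .int (-6) :: .int 102 :: .smul 312 141 :: .sub
    true 1 0 :: .mul 143 0 :: .add false 4 0 :: .int 60 :: .smul 480 146 :: .add false 1 0 :: .smul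
    320 119 :: .add false 1 0 :: .mul 121 0 :: .sub true 6 0 :: .mul 123 0 :: .add true 14 0 :: .mul
    23 0 :: prog3

def prog1 : List Ins := .smul (-1) 53 :: .exp 0 :: .mul 28 0 :: .add true 3 0 :: .int 4 :: .smul 3
    60 :: .sub true 1 0 :: .sub true 30 62 :: .mul 0 4 :: .smul 2 12 :: .sub true 0 11 :: .sub true
    2 0 :: .mul 5 0 :: .mul 5 2 :: .smul 4 17 :: .sub false 0 16 :: .sub false 2 0 :: .add true 4 0
    :: .mul 14 0 :: .mul 8 7 :: .smul 3 0 :: .sub true 2 0 :: .mul 0 27 :: .sub true 27 20 :: .mul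
    71 0 :: .mul 0 0 :: .mul 14 0 :: .add true 4 0 :: .mul 33 0 :: .mul 3 3 :: .mul 86 0 :: .sub
    true 2 0 :: .mul 39 0 :: .mul 86 7 :: .cst 9 8 :: .smul 4 90 :: .sub true 1 0 :: .mul 77 78 ::
    .add true 1 0 :: .mul 91 44 :: .mul 28 45 :: .add true 0 15 :: .mul 2 0 :: .mul 17 18 :: .mul
    100 0 :: .sub false 2 0 :: .mul 7 0 :: .mul 88 21 :: .mul 88 23 :: .sub false 0 9 :: prog2

def prog : List Ins := .var 1 :: .cst 1 4 :: .add false 1 0 :: .var 2 :: .smul (-1) 0 :: .mul 2 0 ::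
    .smul (-1) 0 :: .exp 0 :: .mul 0 0 :: .tri 4 :: .mul 3 2 :: .int 1 :: .smul 2 11 :: .sub true 1
    0 :: .mul 1 0 :: .cst 1 2 :: .mul 13 13 :: .mul 4 14 :: .tri 0 :: .mul 8 0 :: .sub true 9 10 ::
    .mul 0 20 :: .tri 0 :: .mul 4 0 :: .sub false 6 0 :: .var 0 :: .smul 2 2 :: .sub false 9 0 ::
    .int 2 :: .sub true 20 0 :: .mul 0 31 :: .tri 0 :: .mul 4 0 :: .add true 7 0 :: .mul 10 0 ::
    .add true 12 0 :: .smul 2 0 :: .mul 26 0 :: .mul 28 0 :: .mul 30 0 :: .add true 34 0 :: .mul 36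
    0 :: .mul 47 0 :: .mul 6 38 :: .mul 34 0 :: .add false 39 21 :: .mul 0 44 :: .smul 2 23 :: .add
    false 42 0 :: .sub false 2 0 :: prog1

def vs : List Vr := [⟨2, 0, false, true⟩, ⟨3, 0, false, true⟩, ⟨8, 4, false, false⟩]

def C : Chart := ⟨vs, prog, [], 1, 3⟩

end Pool.Agent.Lib.MP_d6150d_an.PpL1
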