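import Pool.Agent.Lib.MP_d6150d_an.GDef

/-! A generated chart: the program. -/

namespace Pool.Agent.Lib.MP_d6150d_an.PpM0

def prog1 : List Ins := .sub true 7 0 :: .mul 18 0 :: .mul 20 0 :: .add false 31 0 :: .rsq 0 :: .mul
    0 0 :: .mul 0 1 :: .mul 39 0 :: .sub true 57 0 :: .mul 49 0 :: .mul 46 9 :: .sub true 15 48 ::
    .add false 61 38 :: .sub false 59 0 :: .add true 0 58 :: .mul 3 0 :: .smul 2 62 :: .sub false 0
    4 :: .sub true 2 0 :: .mul 0 18 :: .add true 0 61 :: .mul 10 0 :: .add false 12 0 :: .cpy 0 ::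
    []

def prog : List Ins := .int 1 :: .var 2 :: .smul (-1) 0 :: .exp 0 :: .sub false 3 0 :: .var 0 ::
    .sub true 5 0 :: .mul 2 0 :: .mul 0 0 :: .mul 0 1 :: .cst 1 4 :: .var 1 :: .sub true 1 0 ::
    .smul 4 0 :: .cst 3 2 :: .sub true 1 0 :: .mul 0 14 :: .exp 0 :: .smul 2 5 :: .sub true 0 18 ::
    .mul 0 18 :: .exp 0 :: .cst 1 3 :: .mul 17 19 :: .sub false 23 0 :: .inv 0 :: .mul 2 0 :: .smul
    2 0 :: .sub false 27 0 :: .sub true 0 16 :: .mul 11 0 :: .mul 8 0 :: .add false 31 5 :: .sub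
    true 32 11 :: .sub true 33 15 :: .inv 0 :: .mul 2 0 :: .mul 13 0 :: .sub false 1 37 :: .add true
    0 35 :: .inv 21 :: .mul 1 0 :: .add false 4 0 :: .mul 39 21 :: .sub false 43 0 :: .int 2 :: .sub
    true 0 27 :: .inv 0 :: .mul 3 0 :: .mul 43 0 :: prog1

def vs : List Vr := [⟨2, 0, false, true⟩, ⟨3, 0, false, true⟩, ⟨6, 0, false, false⟩]

def C : Chart := ⟨vs, prog, [], 1, 3⟩

end Pool.Agent.Lib.MP_d6150d_an.PpM0
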