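import Pool.Agent.Lib.MP_d6150d_an.GDef

/-! A generated chart: the program. -/

namespace Pool.Agent.Lib.MP_d6150d_an.PpM1

def prog3 : List Ins := .mul 151 0 :: .cst 3 16 :: .mul 0 31 :: .add true 2 0 :: .mul 0 49 :: .mul 0
    46 :: .add true 35 0 :: .mul 47 0 :: .mul 59 0 :: .mul 64 0 :: .add false 66 0 :: .cpy 0 :: []

def prog2 : List Ins := .sub false 99 94 :: .inv 0 :: .mul 96 0 :: .add false 102 0 :: .mul 0 65 ::
    .mul 5 0 :: .add false 78 0 :: .rsq 0 :: .mul 0 0 :: .mul 0 1 :: .smul 3 33 :: .mul 11 0 :: .mul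
    114 38 :: .sub false 1 0 :: .cst 1 12 :: .sub false 114 116 :: .smul 2 13 :: .sub true 1 0 ::
    .mul 119 0 :: .mul 4 0 :: .sub true 6 0 :: .sub true 47 43 :: .mul 0 4 :: .mul 125 0 :: .cst 1
    180 :: .int (-57) :: .int 156 :: .smul 103 128 :: .sub true 1 0 :: .mul 130 0 :: .add true 4 0
    :: .mul 132 0 :: .add false 90 0 :: .int (-6) :: .int 102 :: .smul 312 136 :: .sub true 1 0 ::
    .mul 138 0 :: .add false 4 0 :: .int 60 :: .smul 480 141 :: .add false 1 0 :: .smul 320 39 ::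
    .add false 1 0 :: .mul 41 0 :: .sub true 6 0 :: .mul 43 0 :: .add true 14 0 :: .mul 23 0 :: .add
    true 25 0 :: prog3

def prog1 : List Ins := .mul 5 2 :: .smul 4 46 :: .sub false 0 45 :: .sub false 2 0 :: .add true 4 0
    :: .mul 14 0 :: .mul 8 7 :: .smul 3 0 :: .sub true 2 0 :: .mul 0 20 :: .sub false 59 55 :: .sub
    true 60 59 :: .mul 1 0 :: .mul 0 0 :: .mul 15 0 :: .add true 5 0 :: .mul 27 0 :: .mul 3 3 ::
    .mul 70 0 :: .sub true 2 0 :: .mul 44 0 :: .cst 9 8 :: .smul 4 73 :: .sub true 1 0 :: .cst 1 2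
    :: .sub true 74 75 :: .mul 76 0 :: .mul 2 0 :: .add true 4 0 :: .mul 80 40 :: .mul 31 41 :: .add
    true 0 17 :: .mul 2 0 :: .mul 19 20 :: .mul 86 0 :: .add true 2 0 :: .mul 7 0 :: .mul 10 23 ::
    .mul 13 25 :: .add false 0 9 :: .mul 2 0 :: .sub true 4 0 :: .mul 28 0 :: .add false 22 0 ::
    .mul 26 31 :: .cst 3 2 :: .sub true 23 0 :: .mul 0 94 :: .exp 0 :: .cst 1 8 :: prog2

def prog : List Ins := .var 1 :: .cst 1 4 :: .add false 1 0 :: .smul 2 0 :: .int 1 :: .var 0 :: .var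
    2 :: .smul (-1) 0 :: .exp 0 :: .mul 3 0 :: .add false 5 0 :: .mul 7 0 :: .sub true 8 7 :: .mul 0
    4 :: .sub false 2 0 :: .add false 10 11 :: .mul 0 10 :: .sub false 2 0 :: .smul 2 12 :: .int 2
    :: .sub true 0 16 :: .mul 0 14 :: .smul (-1) 0 :: .tri 0 :: .mul 19 1 :: .mul 8 0 :: .add true
    10 0 :: .mul 26 0 :: .mul 17 23 :: .tri 0 :: .mul 27 1 :: .mul 25 0 :: .sub false 1 31 :: .add
    true 0 28 :: .inv 34 :: .mul 1 0 :: .add false 4 0 :: .mul 35 14 :: .sub true 1 0 :: .sub false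
    34 32 :: .add true 0 38 :: .int 4 :: .smul 3 43 :: .sub true 1 0 :: .sub true 28 45 :: .mul 0 4
    :: .smul 2 41 :: .sub false 0 40 :: .sub true 2 0 :: .mul 5 0 :: prog1

def vs : List Vr := [⟨2, 0, false, true⟩, ⟨3, 0, false, true⟩, ⟨6, 0, false, false⟩]

def C : Chart := ⟨vs, prog, [], 1, 3⟩

end Pool.Agent.Lib.MP_d6150d_an.PpM1
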