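import Pool.Agent.Lib.MP_d6150d_an.GDef

/-! A generated chart: the program. -/

namespace Pool.Agent.Lib.MP_d6150d_an.PpM2

def prog3 : List Ins := .sub false 6 0 :: .mul 43 0 :: .add true 14 0 :: .mul 23 0 :: .add true 25 0
    :: .mul 156 0 :: .cst 3 16 :: .mul 0 31 :: .add true 2 0 :: .mul 0 49 :: .mul 0 46 :: .add true
    35 0 :: .mul 47 0 :: .mul 59 0 :: .mul 63 0 :: .add false 66 0 :: .cpy 0 :: []

def prog2 : List Ins := .mul 0 34 :: .sub true 85 55 :: .mul 0 99 :: .exp 0 :: .cst 1 8 :: .sub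
    false 104 99 :: .inv 0 :: .mul 101 0 :: .add false 107 0 :: .mul 0 67 :: .mul 5 0 :: .add false
    110 0 :: .rsq 0 :: .mul 0 0 :: .mul 0 1 :: .smul 3 34 :: .mul 11 0 :: .mul 45 38 :: .sub false 1
    0 :: .cst 1 12 :: .sub false 119 121 :: .smul 2 13 :: .sub true 1 0 :: .mul 124 0 :: .mul 4 0 ::
    .sub true 6 0 :: .sub true 47 44 :: .mul 0 4 :: .mul 56 0 :: .cst 1 180 :: .int (-57) :: .int
    156 :: .smul 103 133 :: .sub true 1 0 :: .mul 135 0 :: .add true 4 0 :: .mul 137 0 :: .add false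
    92 0 :: .int (-6) :: .int 102 :: .smul 312 141 :: .sub true 1 0 :: .mul 143 0 :: .add false 4 0
    :: .int 60 :: .smul 480 146 :: .add false 1 0 :: .smul 320 39 :: .add false 1 0 :: .mul 41 0 ::
    prog3

def prog1 : List Ins := .sub true 0 43 :: .sub true 2 0 :: .mul 5 0 :: .mul 5 2 :: .smul 4 49 ::
    .sub false 0 48 :: .sub false 2 0 :: .add true 4 0 :: .mul 14 0 :: .mul 8 7 :: .smul 3 0 :: .sub
    true 2 0 :: .mul 0 20 :: .sub false 62 58 :: .sub true 63 62 :: .mul 1 0 :: .mul 0 0 :: .mul 38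
    0 :: .mul 16 0 :: .add true 6 0 :: .mul 28 0 :: .cst 1 4 :: .mul 4 4 :: .mul 1 0 :: .sub false 3
    0 :: .mul 49 0 :: .cst 9 8 :: .smul 4 78 :: .sub true 1 0 :: .cst 1 2 :: .mul 80 53 :: .mul 1 0
    :: .add false 3 0 :: .mul 84 41 :: .mul 32 42 :: .add true 0 17 :: .mul 2 0 :: .mul 58 21 ::
    .mul 20 0 :: .mul 17 0 :: .add false 3 0 :: .mul 8 0 :: .mul 11 24 :: .mul 13 5 :: .add false 0
    10 :: .mul 2 0 :: .sub true 4 0 :: .mul 30 0 :: .add false 22 0 :: .mul 32 32 :: prog2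

def prog : List Ins := .var 1 :: .smul 2 0 :: .int 1 :: .var 0 :: .var 2 :: .smul (-1) 0 :: .exp 0
    :: .mul 3 0 :: .add false 5 0 :: .mul 7 0 :: .sub true 8 7 :: .mul 0 4 :: .sub false 2 0 :: .add
    false 10 11 :: .mul 0 10 :: .sub false 2 0 :: .smul 2 12 :: .int 2 :: .sub true 0 16 :: .mul 0
    14 :: .smul (-1) 0 :: .tri 0 :: .mul 19 1 :: .mul 8 0 :: .add true 10 0 :: .mul 26 0 :: .sub
    true 25 26 :: .mul 0 24 :: .exp 0 :: .sub true 28 0 :: .inv 21 :: .mul 1 0 :: .mul 26 0 :: .sub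
    false 1 4 :: .mul 29 5 :: .add true 1 0 :: .inv 36 :: .mul 1 0 :: .add false 5 0 :: .mul 10 16
    :: .mul 38 0 :: .sub true 2 0 :: .sub false 37 35 :: .add true 0 41 :: .int 4 :: .smul 3 46 ::
    .sub true 1 0 :: .sub true 31 48 :: .mul 0 4 :: .smul 2 44 :: prog1

def vs : List Vr := [⟨2, 0, false, false⟩, ⟨3, 0, false, false⟩, ⟨6, 0, false, false⟩]

def C : Chart := ⟨vs, prog, [], 1, 3⟩

end Pool.Agent.Lib.MP_d6150d_an.PpM2
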