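import Pool.Agent.Lib.MP_d6150d_an.PpAux

/-! Program forms of the recurrent expressions. -/

namespace Pool.Agent.Lib.MP_d6150d_an

noncomputable def mNN (F B C Om p2 p3 Y W s : ℝ) : ℝ :=
  let z0 := (W * W)
  let z1 := ((F * s) * Y)
  (((F * Om) * ((Y * ((p3 * Y) + (p2 * z0))) - (((Int.cast (1) : ℝ) / (Nat.cast 4 : ℝ)) * (z0 *
    z0)))) + ((s * z0) * (((C + (((Int.cast (1) : ℝ) / (Nat.cast 2 : ℝ)) * B)) * ((z1 * ((p2 * Y) +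
    z0)) - (((Int.cast (1) : ℝ) / (Nat.cast 4 : ℝ)) * (z0 * W)))) + ((B * z0) * ((((Int.cast (1) :
    ℝ) / (Nat.cast 2 : ℝ)) * W) - z1)))))

theorem mNN_0 (F B C Om p2 p3 Y W s : ℝ) : NN F B C Om p2 p3 Y W s = (mNN F B C Om p2 p3 Y W s) :=
    by
  simp only [mNN, NN]; push_cast; ring

noncomputable def mNL (F B C Om p2 p3 Y W : ℝ) : ℝ :=
  let z0 := (W * W)
  let z1 := (F * Y)
  (((F * Om) * ((Y * ((p3 * Y) + (p2 * z0))) - (((Int.cast (1) : ℝ) / (Nat.cast 4 : ℝ)) * (z0 *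
    z0)))) + (z0 * (((C + (((Int.cast (1) : ℝ) / (Nat.cast 2 : ℝ)) * B)) * ((z1 * ((p2 * Y) + z0)) +
    (((Int.cast (1) : ℝ) / (Nat.cast 4 : ℝ)) * (z0 * W)))) - ((B * z0) * ((((Int.cast (1) : ℝ) /
    (Nat.cast 2 : ℝ)) * W) + z1)))))

theorem mNL_0 (F B C Om p2 p3 Y W : ℝ) : NN F B C Om p2 p3 Y W (-1) = (mNL F B C Om p2 p3 Y W) := by
  simp only [mNL, NN]; push_cast; ring

noncomputable def mNB (F B C Om p2 p3 V b W : ℝ) : ℝ :=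
  let z0 := (W * W)
  let z1 := (b * z0)
  let z2 := (F * V)
  let z3 := (b * W)
  (((F * Om) * ((V * ((p3 * V) + (p2 * z1))) - (((Int.cast (1) : ℝ) / (Nat.cast 4 : ℝ)) * (z1 *
    z1)))) + (z0 * (((C + (((Int.cast (1) : ℝ) / (Nat.cast 2 : ℝ)) * B)) * ((z2 * ((p2 * V) + z1)) +
    (((Int.cast (1) : ℝ) / (Nat.cast 4 : ℝ)) * (z1 * z3)))) - ((B * z1) * ((((Int.cast (1) : ℝ) /
    (Nat.cast 2 : ℝ)) * z3) + z2)))))

theorem mNB_0 (F B C Om p2 p3 V b W : ℝ) : NB F B C Om p2 p3 V b W = (mNB F B C Om p2 p3 V b W) :=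
    by
  simp only [mNB, NB]; push_cast; ring

noncomputable def mFF (B C D F : ℝ) : ℝ × ℝ :=
  let z0 := (((Int.cast (1) : ℝ) - F) - ((Int.cast (2) : ℝ) * D))
  ((((((Int.cast (1) : ℝ) / (Nat.cast 8 : ℝ)) * ((Int.cast (3) : ℝ) * B)) - (((Int.cast (1) : ℝ) /
    (Nat.cast 4 : ℝ)) * C)) - (((Int.cast (1) : ℝ) / (Nat.cast 12 : ℝ)) * (F * z0))), (F *
    ((((Int.cast (1) : ℝ) / (Nat.cast 4 : ℝ)) * ((C - (((Int.cast (1) : ℝ) / (Nat.cast 2 : ℝ)) * B))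
    * z0)) + (((Int.cast (1) : ℝ) / (Nat.cast 180 : ℝ)) * (((Int.cast (4) : ℝ) + (F * ((Int.cast
    (-57) : ℝ) + (F * ((Int.cast (156) : ℝ) - ((Int.cast (103) : ℝ) * F)))))) + (D * (((Int.cast
    (-6) : ℝ) + (F * ((Int.cast (102) : ℝ) - ((Int.cast (312) : ℝ) * F)))) - (D * (((Int.cast (60) :
    ℝ) + ((Int.cast (480) : ℝ) * F)) + ((Int.cast (320) : ℝ) * D))))))))))

theorem mFF_0 (B C D F : ℝ) : f0P 1 B C D F = (mFF B C D F).1 := by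
  simp only [mFF, f0P, ja2]; push_cast; ring

theorem mFF_1 (B C D F : ℝ) : f1P 1 B C D F = (mFF B C D F).2 := by
  simp only [mFF, f1P, ja2, ja4]; push_cast; ring

noncomputable def mEH (f0 f1 a b : ℝ) : ℝ :=
  let z0 := (√(a + (((Int.cast (1) : ℝ) / (Nat.cast 8 : ℝ)) * b)))⁻¹
  let z1 := (z0 * z0)
  ((z1 * z0) * (f0 + (((f1 + (((Int.cast (3) : ℝ) / (Nat.cast 16 : ℝ)) * f0)) * b) * z1)))

theorem mEH_0 (f0 f1 a b : ℝ) : EH f0 f1 (1 / 8) a b = (mEH f0 f1 a b) := by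
  simp only [mEH, EH]; push_cast; ring

noncomputable def mEP (f0 f1 v : ℝ) : ℝ :=
  let z0 := (√((Int.cast (1) : ℝ) + (((Int.cast (1) : ℝ) / (Nat.cast 8 : ℝ)) * v)))⁻¹
  let z1 := (z0 * z0)
  ((z1 * z0) * (f0 + (((f1 + (((Int.cast (3) : ℝ) / (Nat.cast 16 : ℝ)) * f0)) * v) * z1)))

theorem mEP_0 (f0 f1 v : ℝ) : EP f0 f1 (1 / 8) v = (mEP f0 f1 v) := by
  simp only [mEP, EP]; push_cast; ring

end Pool.Agent.Lib.MP_d6150d_an
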