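import Pool.Agent.Lib.MP_d6150d_an.GDef

/-! A generated chart: the program. -/

namespace Pool.Agent.Lib.MP_d6150d_an.PpR0

def prog1 : List Ins := .smul (-1) 0 :: .exp 0 :: .mul 3 0 :: .sub true 0 55 :: .mul 49 0 :: .smul 4
    46 :: .mul 0 63 :: .mul 5 5 :: .mul 16 0 :: .mul 43 0 :: .mul 3 0 :: .sub true 29 52 :: .add
    false 64 51 :: .mul 0 68 :: .sub false 64 0 :: .mul 70 70 :: .mul 67 0 :: .add true 2 0 :: .mul
    6 0 :: .smul 2 69 :: .sub false 0 6 :: .sub true 2 0 :: .mul 0 12 :: .add true 0 69 :: .mul 13 0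
    :: .add false 20 0 :: .cpy 0 :: []

def prog : List Ins := .var 2 :: .smul (-1) 0 :: .tri 0 :: .int 1 :: .var 0 :: .add false 1 0 ::
    .mul 1 5 :: .sub false 1 0 :: .mul 6 0 :: .mul 0 0 :: .mul 0 1 :: .cst 1 3 :: .cst 1 4 :: .var 1
    :: .sub true 1 0 :: .smul 2 0 :: .smul 2 11 :: .sub false 13 0 :: .sub true 0 3 :: .mul 3 0 ::
    .mul 8 0 :: .cst 1 2 :: .mul 23 23 :: .mul 7 24 :: .tri 0 :: .mul 11 0 :: .sub true 12 24 ::
    .mul 0 30 :: .tri 0 :: .mul 4 0 :: .sub false 6 0 :: .smul 2 1 :: .sub false 8 0 :: .int 2 ::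
    .sub true 22 0 :: .mul 0 40 :: .tri 0 :: .mul 4 0 :: .add true 7 0 :: .mul 40 0 :: .add false 11
    0 :: .smul 2 0 :: .mul 25 0 :: .mul 27 0 :: .mul 29 0 :: .add false 47 0 :: .rsq 0 :: .mul 0 0
    :: .mul 0 1 :: .mul 40 56 :: prog1

def vs : List Vr := [⟨2, 0, false, true⟩, ⟨3, 0, false, true⟩, ⟨7, 3, false, false⟩]

def C : Chart := ⟨vs, prog, [], 1, 3⟩

end Pool.Agent.Lib.MP_d6150d_an.PpR0
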