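import Pool.Agent.Lib.MP_d6150d_an.GDef

/-! A generated chart: the program. -/

namespace Pool.Agent.Lib.MP_d6150d_an.PpR1

def prog3 : List Ins := .mul 155 0 :: .cst 3 16 :: .mul 0 31 :: .add true 2 0 :: .mul 0 120 :: .mul
    0 45 :: .add true 35 0 :: .mul 46 0 :: .mul 53 0 :: .mul 0 160 :: .sub false 57 0 :: .cpy 0 ::
    []

def prog2 : List Ins := .add true 4 0 :: .mul 18 0 :: .add false 20 0 :: .mul 24 29 :: .mul 108 0 ::
    .cst 1 8 :: .mul 0 72 :: .add false 106 0 :: .rsq 0 :: .mul 0 0 :: .mul 0 1 :: .smul 3 107 ::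
    .mul 6 0 :: .mul 119 27 :: .sub false 1 0 :: .cst 1 12 :: .sub false 115 121 :: .sub true 0 75
    :: .mul 123 0 :: .mul 3 0 :: .sub true 5 0 :: .sub true 35 34 :: .mul 0 4 :: .mul 129 0 :: .cst
    1 180 :: .int (-57) :: .int 156 :: .smul 103 132 :: .sub true 1 0 :: .mul 134 0 :: .add true 4 0
    :: .mul 136 0 :: .add false 79 0 :: .int (-6) :: .int 102 :: .smul 312 140 :: .sub true 1 0 ::
    .mul 142 0 :: .add false 4 0 :: .int 60 :: .smul 480 145 :: .add false 1 0 :: .smul 320 123 ::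
    .add false 1 0 :: .mul 125 0 :: .sub true 6 0 :: .mul 127 0 :: .add true 14 0 :: .mul 23 0 ::
    .add true 25 0 :: prog3

def prog1 : List Ins := .mul 31 0 :: .add true 2 0 :: .int 4 :: .smul 3 58 :: .sub true 1 0 :: .sub
    true 33 60 :: .mul 0 4 :: .smul 2 16 :: .sub true 0 10 :: .sub true 2 0 :: .mul 5 0 :: .mul 5 2
    :: .smul 4 21 :: .sub false 0 15 :: .sub false 2 0 :: .add true 4 0 :: .mul 14 0 :: .mul 8 7 ::
    .smul 3 0 :: .sub true 2 0 :: .mul 0 30 :: .mul 52 26 :: .sub false 31 0 :: .mul 27 0 :: .mul 0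
    0 :: .mul 15 0 :: .add true 5 0 :: .mul 37 0 :: .mul 3 3 :: .mul 85 0 :: .sub true 2 0 :: .mul
    43 0 :: .mul 86 7 :: .cst 9 8 :: .smul 4 89 :: .sub true 1 0 :: .mul 81 82 :: .add true 1 0 ::
    .mul 91 48 :: .mul 29 49 :: .add true 0 15 :: .mul 2 0 :: .mul 17 18 :: .mul 99 0 :: .sub true 2
    0 :: .mul 7 0 :: .mul 92 21 :: .mul 92 23 :: .sub true 0 9 :: .mul 2 0 :: prog2

def prog : List Ins := .var 1 :: .cst 1 4 :: .add false 1 0 :: .var 2 :: .mul 1 0 :: .smul (-1) 0 ::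
    .exp 0 :: .mul 0 0 :: .int 1 :: .smul 2 6 :: .sub true 1 0 :: .mul 1 0 :: .cst 1 2 :: .mul 9 9
    :: .mul 4 10 :: .tri 0 :: .mul 8 0 :: .sub true 9 10 :: .mul 0 16 :: .tri 0 :: .mul 4 0 :: .sub
    false 6 0 :: .var 0 :: .smul 2 2 :: .sub false 9 0 :: .int 2 :: .sub true 20 0 :: .mul 0 27 ::
    .tri 0 :: .mul 4 0 :: .add true 7 0 :: .mul 10 0 :: .add true 12 0 :: .smul 2 0 :: .mul 26 0 ::
    .mul 28 0 :: .mul 30 0 :: .add true 34 0 :: .mul 36 0 :: .mul 42 0 :: .mul 6 38 :: .mul 34 0 ::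
    .add false 39 21 :: .smul 2 22 :: .add false 41 0 :: .smul (-1) 47 :: .tri 0 :: .mul 4 2 :: .sub
    false 7 0 :: .mul 4 4 :: prog1

def vs : List Vr := [⟨2, 0, false, true⟩, ⟨3, 0, false, true⟩, ⟨8, 4, false, false⟩]

def C : Chart := ⟨vs, prog, [], 1, 3⟩

end Pool.Agent.Lib.MP_d6150d_an.PpR1
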