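import Pool.Agent.Lib.MP_d6150d_an.GDef

/-! A generated chart: the program. -/

namespace Pool.Agent.Lib.MP_d6150d_an.PpS0

def prog1 : List Ins := .inv 47 :: .mul 1 0 :: .mul 22 0 :: .mul 36 0 :: .add false 46 0 :: .rsq 0
    :: .mul 0 0 :: .mul 0 1 :: .mul 10 10 :: .mul 56 35 :: .mul 47 35 :: .sub false 22 0 :: .mul 0
    16 :: .mul 3 0 :: .mul 12 12 :: .mul 1 0 :: .add false 7 0 :: .smul 4 0 :: .sub false 10 0 ::
    .cpy 0 :: []

def prog : List Ins := .cst 1 4 :: .var 1 :: .sub true 1 0 :: .smul 6 0 :: .smul (-1) 0 :: .exp 0 ::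
    .var 2 :: .mul 1 0 :: .cst 1 3 :: .smul 2 6 :: .int 1 :: .var 0 :: .smul 2 0 :: .sub false 2 0
    :: .sub true 0 11 :: .mul 5 0 :: .mul 7 0 :: .mul 9 9 :: .smul 12 16 :: .smul (-1) 0 :: .exp 0
    :: .var 3 :: .sub true 11 0 :: .mul 2 0 :: .mul 6 0 :: .sub false 14 0 :: .add false 15 14 ::
    .mul 15 2 :: .sub false 1 0 :: .mul 3 0 :: .cst 1 2 :: .mul 23 7 :: .mul 0 7 :: .sub false 22 0
    :: .mul 22 0 :: .sub true 24 32 :: .inv 0 :: .mul 2 0 :: .add false 27 25 :: .sub true 28 7 ::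
    .mul 1 0 :: .sub true 30 31 :: .inv 0 :: .mul 2 0 :: .sub false 6 0 :: .inv 15 :: .mul 1 0 ::
    .mul 16 0 :: .mul 40 0 :: .add true 0 18 :: prog1

def vs : List Vr := [⟨2, 0, false, true⟩, ⟨3, 0, false, true⟩, ⟨3, 0, true, false⟩, ⟨2, 0, false,
    true⟩]

def C : Chart := ⟨vs, prog, [], 1, 3⟩

end Pool.Agent.Lib.MP_d6150d_an.PpS0
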