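import Pool.Agent.Lib.MP_d6150d_an.GDef

/-! A generated chart: the program. -/

namespace Pool.Agent.Lib.MP_d6150d_an.PpS1

def prog3 : List Ins := .cpy 0 :: []

def prog2 : List Ins := .mul 0 1 :: .smul 3 49 :: .mul 7 0 :: .mul 105 45 :: .sub false 1 0 :: .cst
    1 12 :: .sub true 70 67 :: .mul 108 0 :: .mul 2 0 :: .sub true 4 0 :: .sub true 52 23 :: .mul 0
    4 :: .mul 114 0 :: .cst 1 180 :: .int 4 :: .int (-57) :: .int 156 :: .smul 103 118 :: .sub true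
    1 0 :: .mul 120 0 :: .add true 4 0 :: .mul 122 0 :: .add false 7 0 :: .int (-6) :: .int 102 ::
    .smul 312 126 :: .sub true 1 0 :: .mul 128 0 :: .add false 4 0 :: .int 60 :: .smul 480 131 ::
    .add false 1 0 :: .smul 320 107 :: .add false 1 0 :: .mul 109 0 :: .sub true 6 0 :: .mul 111 0
    :: .add true 14 0 :: .mul 24 0 :: .add false 26 0 :: .mul 141 0 :: .cst 3 16 :: .mul 0 32 ::
    .add true 2 0 :: .mul 0 48 :: .mul 0 45 :: .add true 36 0 :: .mul 46 0 :: .mul 54 0 :: .sub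
    false 56 0 :: prog3

def prog1 : List Ins := .mul 6 6 :: .mul 49 48 :: .int 3 :: .add true 0 5 :: .mul 2 0 :: .cst 9 8 ::
    .smul 4 57 :: .sub true 1 0 :: .sub true 3 0 :: .mul 8 0 :: .add false 10 0 :: .add true 14 29
    :: .inv 63 :: .mul 1 0 :: .mul 65 0 :: .mul 65 44 :: .mul 0 36 :: .mul 15 3 :: .add true 1 0 ::
    .mul 30 46 :: .sub false 30 0 :: .mul 0 41 :: .smul 5 25 :: .add true 0 63 :: .mul 2 0 :: .smul
    3 52 :: .mul 4 4 :: .mul 1 0 :: .smul 4 53 :: .mul 0 56 :: .sub false 40 0 :: .mul 0 51 :: .add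
    false 4 0 :: .mul 0 19 :: .add false 9 0 :: .mul 16 0 :: .mul 54 34 :: .add true 29 0 :: .mul 0
    16 :: .mul 0 25 :: .sub true 4 0 :: .mul 26 0 :: .add false 31 0 :: .mul 72 72 :: .cst 1 8 ::
    .mul 66 31 :: .mul 1 0 :: .add false 31 0 :: .rsq 0 :: .mul 0 0 :: prog2

def prog : List Ins := .var 1 :: .cst 1 4 :: .add false 1 0 :: .var 2 :: .int 1 :: .smul 2 2 :: .sub
    true 1 0 :: .sub true 2 3 :: .smul 2 0 :: .smul 3 2 :: .tri 0 :: .cst 3 2 :: .tri 0 :: .inv 1 ::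
    .mul 6 0 :: .mul 10 0 :: .var 3 :: .sub true 16 0 :: .mul 2 0 :: .mul 16 0 :: .add true 20 0 ::
    .mul 22 0 :: .mul 22 22 :: .sub false 22 0 :: .var 0 :: .add false 24 0 :: .mul 1 3 :: .sub
    false 1 0 :: .mul 4 0 :: .inv 0 :: .mul 8 0 :: .cst 1 2 :: .mul 32 9 :: .sub false 12 0 :: .mul
    9 0 :: .sub true 34 36 :: .inv 0 :: .mul 2 0 :: .smul 2 13 :: .add false 38 0 :: .mul 0 21 ::
    .sub true 3 0 :: .mul 0 12 :: .mul 11 0 :: .mul 13 0 :: .int 2 :: .mul 46 2 :: .smul 3 0 :: .add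
    true 2 0 :: .mul 4 0 :: prog1

def vs : List Vr := [⟨2, 0, false, true⟩, ⟨3, 0, false, true⟩, ⟨2, 0, true, false⟩, ⟨2, 0, false,
    true⟩]

def C : Chart := ⟨vs, prog, [], 1, 3⟩

end Pool.Agent.Lib.MP_d6150d_an.PpS1
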