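import Pool.Agent.Lib.MP_d6150d_an.GDef

/-! A generated chart: the program. -/

namespace Pool.Agent.Lib.MP_d6150d_an.PpT0

def prog1 : List Ins := .mul 0 1 :: .mul 49 0 :: .sub true 51 0 :: .mul 40 0 :: .smul 4 38 :: .mul 0
    10 :: .sub true 16 40 :: .add false 56 39 :: .sub false 51 0 :: .add true 0 50 :: .mul 3 0 ::
    .smul 2 54 :: .sub false 0 4 :: .sub true 2 0 :: .mul 0 19 :: .add true 0 53 :: .mul 10 0 ::
    .add false 13 0 :: .cpy 0 :: []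

def prog : List Ins := .int 1 :: .var 1 :: .mul 0 0 :: .var 2 :: .var 0 :: .mul 1 0 :: .add false 3
    0 :: .sub false 6 0 :: .var 3 :: .sub true 8 0 :: .mul 2 0 :: .mul 0 0 :: .mul 0 1 :: .cst 1 3
    :: .cst 1 4 :: .sub true 0 11 :: .smul 2 0 :: .mul 8 10 :: .sub false 17 0 :: .inv 0 :: .mul 2 0
    :: .smul 2 0 :: .sub false 21 0 :: .sub true 0 7 :: .mul 7 0 :: .mul 11 0 :: .add false 25 5 ::
    .sub false 26 25 :: .sub true 27 11 :: .inv 0 :: .mul 2 0 :: .mul 13 0 :: .sub false 1 31 ::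
    .add true 0 26 :: .inv 17 :: .mul 1 0 :: .add false 4 0 :: .mul 30 35 :: .sub false 37 0 :: .int
    2 :: .sub true 0 23 :: .inv 0 :: .mul 3 0 :: .mul 34 0 :: .sub true 7 0 :: .mul 18 0 :: .mul 20
    0 :: .add false 45 0 :: .rsq 0 :: .mul 0 0 :: prog1

def vs : List Vr := [⟨0, 0, false, false⟩, ⟨1, 0, true, false⟩, ⟨3, 0, false, true⟩, ⟨3, 0, false,
    true⟩]

def C : Chart := ⟨vs, prog, [], 1, 3⟩

end Pool.Agent.Lib.MP_d6150d_an.PpT0
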