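import Pool.Agent.Lib.MP_d6150d_an.GDef

/-! A generated chart: the program. -/

namespace Pool.Agent.Lib.MP_d6150d_an.PpT1

def prog3 : List Ins := .mul 0 31 :: .add true 2 0 :: .mul 0 49 :: .mul 0 46 :: .add false 35 0 ::
    .mul 47 0 :: .mul 149 0 :: .mul 60 0 :: .add false 62 0 :: .cpy 0 :: []

def prog2 : List Ins := .mul 88 0 :: .add false 96 0 :: .mul 0 60 :: .mul 5 0 :: .add false 97 0 ::
    .rsq 0 :: .mul 0 0 :: .mul 0 1 :: .smul 3 29 :: .mul 11 0 :: .mul 108 33 :: .sub false 1 0 ::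
    .cst 1 12 :: .sub false 108 110 :: .smul 2 13 :: .sub true 1 0 :: .mul 113 0 :: .mul 4 0 :: .sub
    true 6 0 :: .sub true 42 39 :: .mul 0 4 :: .mul 119 0 :: .cst 1 180 :: .int (-57) :: .int 156 ::
    .smul 103 122 :: .sub true 1 0 :: .mul 124 0 :: .add true 4 0 :: .mul 126 0 :: .add false 85 0
    :: .int (-6) :: .int 102 :: .smul 312 130 :: .sub true 1 0 :: .mul 132 0 :: .add false 4 0 ::
    .int 60 :: .smul 480 135 :: .add false 1 0 :: .smul 320 39 :: .add false 1 0 :: .mul 41 0 ::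
    .sub true 6 0 :: .mul 43 0 :: .add true 14 0 :: .mul 23 0 :: .add false 25 0 :: .mul 145 0 ::
    .cst 3 16 :: prog3

def prog1 : List Ins := .sub false 0 37 :: .sub true 2 0 :: .mul 5 0 :: .mul 5 2 :: .smul 4 43 ::
    .sub false 0 42 :: .sub false 2 0 :: .add true 4 0 :: .mul 14 0 :: .mul 8 7 :: .smul 3 0 :: .sub
    true 2 0 :: .mul 0 20 :: .sub false 58 52 :: .sub true 59 58 :: .mul 1 0 :: .mul 0 0 :: .mul 15
    0 :: .add true 5 0 :: .mul 27 0 :: .mul 3 3 :: .mul 69 0 :: .sub true 2 0 :: .mul 43 0 :: .cst 9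
    8 :: .smul 4 72 :: .sub true 1 0 :: .cst 1 2 :: .mul 74 46 :: .mul 1 0 :: .add true 3 0 :: .mul
    78 39 :: .mul 30 40 :: .add true 0 16 :: .mul 2 0 :: .mul 18 19 :: .mul 84 0 :: .add true 2 0 ::
    .mul 7 0 :: .mul 10 22 :: .mul 12 24 :: .add false 0 9 :: .mul 2 0 :: .sub true 4 0 :: .mul 27 0
    :: .add false 21 0 :: .mul 25 30 :: .cst 1 8 :: .sub false 93 86 :: .inv 0 :: prog2

def prog : List Ins := .var 2 :: .cst 1 4 :: .add false 1 0 :: .smul 2 0 :: .int 1 :: .var 3 :: .var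
    1 :: .mul 0 0 :: .var 0 :: .mul 8 0 :: .sub true 2 0 :: .mul 5 0 :: .add false 7 0 :: .mul 9 0
    :: .sub true 10 9 :: .mul 0 4 :: .sub false 2 0 :: .add false 12 13 :: .mul 0 12 :: .sub false 2
    0 :: .smul 2 14 :: .mul 10 14 :: .sub false 17 0 :: .int 2 :: .sub true 0 20 :: .inv 0 :: .mul 3
    0 :: .mul 6 0 :: .add true 8 0 :: .mul 26 0 :: .sub false 25 23 :: .sub true 26 27 :: .inv 0 ::
    .mul 2 0 :: .mul 22 0 :: .sub false 1 30 :: .add true 0 25 :: .inv 33 :: .mul 1 0 :: .add false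
    4 0 :: .mul 34 13 :: .sub true 1 0 :: .sub false 31 29 :: .add true 0 37 :: .int 4 :: .smul 3 42
    :: .sub true 1 0 :: .sub true 23 44 :: .mul 0 4 :: .smul 2 38 :: prog1

def vs : List Vr := [⟨0, 0, false, false⟩, ⟨2, 0, true, false⟩, ⟨3, 0, false, true⟩, ⟨3, 0, false,
    true⟩]

def C : Chart := ⟨vs, prog, [], 1, 3⟩

end Pool.Agent.Lib.MP_d6150d_an.PpT1
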