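import Pool.Agent.Lib.MP_d6150d_an.GDef

/-! A generated chart: the program. -/

namespace Pool.Agent.Lib.MP_d6150d_an.PpT3

def prog2 : List Ins := .add false 23 0 :: .cpy 0 :: []

def prog1 : List Ins := .smul 2 45 :: .sub false 0 44 :: .sub true 2 0 :: .mul 5 0 :: .mul 5 2 ::
    .smul 4 50 :: .sub false 0 49 :: .sub false 2 0 :: .add true 4 0 :: .mul 14 0 :: .mul 8 7 ::
    .smul 3 0 :: .sub true 2 0 :: .mul 0 20 :: .sub false 61 59 :: .sub true 62 61 :: .mul 1 0 ::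
    .mul 0 0 :: .mul 34 0 :: .mul 16 0 :: .add true 6 0 :: .mul 28 0 :: .cst 1 4 :: .mul 4 4 :: .mul
    1 0 :: .sub false 3 0 :: .mul 52 0 :: .cst 9 8 :: .smul 4 77 :: .sub false 1 0 :: .cst 1 2 ::
    .sub true 78 79 :: .mul 80 0 :: .mul 2 0 :: .add true 4 0 :: .mul 84 42 :: .mul 33 43 :: .add
    true 0 18 :: .mul 2 0 :: .mul 55 22 :: .mul 21 0 :: .mul 18 0 :: .add false 3 0 :: .mul 8 0 ::
    .mul 11 25 :: .mul 14 5 :: .add false 0 10 :: .mul 2 0 :: .sub false 4 0 :: .mul 31 0 :: prog2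

def prog : List Ins := .var 3 :: .smul 2 0 :: .int 1 :: .var 4 :: .var 0 :: .mul 1 0 :: .add false 3
    0 :: .mul 5 0 :: .sub true 6 5 :: .mul 0 4 :: .sub false 2 0 :: .add false 8 9 :: .mul 0 8 ::
    .sub false 2 0 :: .smul 2 10 :: .var 1 :: .sub true 13 0 :: .int 2 :: .sub true 0 16 :: .inv 0
    :: .mul 3 0 :: .mul 6 0 :: .add true 8 0 :: .mul 22 0 :: .int 3 :: .cst 3 8 :: .sub true 25 0 ::
    .int 18 :: .smul 108 1 :: .add false 1 0 :: .mul 3 0 :: .add false 6 0 :: .mul 26 0 :: .var 2 ::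
    .sub false 2 0 :: .mul 30 1 :: .add true 1 0 :: .inv 35 :: .mul 1 0 :: .add false 6 0 :: .mul 6
    19 :: .mul 37 0 :: .sub true 2 0 :: .sub false 38 36 :: .add true 0 40 :: .int 4 :: .smul 3 45
    :: .sub true 1 0 :: .sub true 30 47 :: .mul 0 4 :: prog1

def vs : List Vr := [⟨0, 0, false, false⟩, ⟨1, 0, true, false⟩, ⟨2, 0, true, false⟩, ⟨3, 0, false,
    false⟩, ⟨3, 0, false, false⟩]

def C : Chart := ⟨vs, prog, [], 1, 3⟩

end Pool.Agent.Lib.MP_d6150d_an.PpT3
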