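import Pool.Agent.Lib.MP_d6150d_an.PpAx2

/-! The normal form of the kernel of order two far on the right branch. -/

namespace Pool.Agent.Lib.MP_d6150d_an

open Real

/-- the image of `y` under `th ^ 2 - 1` -/
def nf1 (s a : ℝ) : ℝ := -(s ^ 2 + a * (1 + s) ^ 2)

/-- the image of `y` under `(th ^ 2 - 1) (th + 3)` -/
def nf2 (s a b k : ℝ) : ℝ :=
  k * a * (1 + s) ^ 3 + 3 * s ^ 3 + 9 * s * a * (1 + s) ^ 2 + (1 + s) ^ 3 * (3 * a ^ 2 - b)

/-- the regular part of the image of `y` under `(th ^ 2 - 1) (th + 3) (th + 5)` -/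
def nf4 (s a b k : ℝ) : ℝ := 15 * s ^ 4 + 90 * a * s ^ 2 * (1 + s) ^ 2 + (1 + s) ^ 3 *
  (a ^ 2 * (15 + 75 * s + 10 * k * (1 + s)) - b * (2 + 22 * s + 3 * k * (1 + s)) +
    (1 + s) * a * (15 * a ^ 2 - 10 * b))

/-- the image of `y` under `(th ^ 2 - 1) (th + 3) (th + 5)` -/
def nf3 (s a b k : ℝ) : ℝ := k * a * (1 + s) ^ 3 * (2 - k * (1 + s) - 18 * s) - nf4 s a b k

variable {D F t q z x g s a b k : ℝ}

theorem right_lev (F1 : 1 - F ≠ 0) (F2 : 1 - 2 * F ≠ 0) (hq : q = exp (-t))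
    (hz : z = exp (-(F * t)) ^ 2) (hx : q = z * x) (hg : g = (1 - q) * (1 + D - D * q))
    (hs : g * s = z * (D * (1 - x * q) / (1 - F) - (1 + 2 * D) * (1 - x) / (1 - 2 * F))) :
    F * (vR D F t * z) = g * (1 + s) := by
  have f1 := exp_eq_ph (2 * F * t)
  have f2 := exp_eq_ph ((2 * F - 2) * t)
  have f3 := exp_eq_ph ((2 * F - 1) * t)
  have f5 : z * exp (2 * F * t) = 1 := by
    rw [hz, ← exp_nat_mul, ← exp_add, ← exp_zero]; congr 1; push_cast; ring
  have f6 : exp ((2 * F - 2) * t) = exp (2 * F * t) * q ^ 2 := by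
    rw [hq, ← exp_nat_mul, ← exp_add]; congr 1; push_cast; ring
  have f7 : exp ((2 * F - 1) * t) = exp (2 * F * t) * q := by
    rw [hq, ← exp_add]; congr 1; ring
  have e1 : z * (t * ph1 ((2 * F - 2) * t)) = z * (1 - x * q) / (1 - F) / 2 := by
    generalize ph1 ((2 * F - 2) * t) = p at *
    field_simp
    linear_combination z * f2 - z * f6 - q ^ 2 * f5 - q * hx
  have e2 : z * (t * ph1 ((2 * F - 1) * t)) = z * (1 - x) / (1 - 2 * F) := by
    generalize ph1 ((2 * F - 1) * t) = p at *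
    field_simp
    linear_combination z * f3 - z * f7 - q * f5 - hx
  have e3 : (1 - F) * (z * (1 - x * q) / (1 - F)) = z * (1 - x * q) := by field_simp
  have e4 : (1 - 2 * F) * (z * (1 - x) / (1 - 2 * F)) = z * (1 - x) := by field_simp
  rw [vR_eq, mul_add g, hs, hg]
  linear_combination (1 + D) * (f5 - z * f1) + 2 * F * D * e1 - 2 * F * (1 + 2 * D) * e2 - D * e3 +
    (1 + 2 * D) * e4 + (1 + 2 * D - D * q) * hx

theorem right_K (o : Gp) (ht : t ∈ JR D) (h0 : 0 < t) (F0 : F ≠ 0) (hq : q = exp (-t))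
    (hz : z = exp (-(F * t)) ^ 2) (hg : g = (1 - q) * (1 + D - D * q))
    (hv : F * (vR D F t * z) = g * (1 + s)) (ha : F * g * a = q * (1 + 2 * D - 2 * D * q))
    (hb : F ^ 2 * g * b = 2 * D * q ^ 2) (hk : F * k = 1 - 4 * F) :
    F * o.K D F t + o.C0 (vR D F t) = exp (F * t) * (o.P (vR D F t) * nf3 s a b k +
      (o.C3 (vR D F t) - 8 * o.P (vR D F t)) * nf2 s a b k +
      (o.C2 (vR D F t) - 3 * o.C3 (vR D F t) + 10 * o.P (vR D F t)) * nf1 s a +
      (o.C1 (vR D F t) + o.C3 (vR D F t)) * s - (4 * o.p0 + 2 * o.q0 + o.r0)) +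
      F * (4 * o.p0 + 2 * o.q0 + o.r0) * gR D F t := by
  have q1 : q < 1 := hq ▸ exp_lt_one_iff.2 (by linarith)
  have g0 : g ≠ 0 := (hg ▸ mul_pos (by linarith) (hq ▸ cW_pos ht)).ne'
  have e1 : q * exp t = 1 := by rw [hq, ← exp_add]; simp
  have e2 : z = q ^ 2 * exp ((2 - 2 * F) * t) := by
    rw [hz, hq, ← exp_nat_mul, ← exp_nat_mul, ← exp_add]; congr 1; push_cast; ring
  have hu : exp (F * t) = 1 + F * uR F t := by rw [uR, exp_eq_ph (F * t)]; ring
  obtain ⟨u1, u2, u3, u4⟩ := U_hom (D := D) (F := F) (l := q ^ 2) (by rw [hq]; positivity) t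
  have hW : q ^ 2 * wR D t = g := by
    rw [wR_eq, om, hg]; linear_combination ((1 + D) * (1 + q * exp t) - (1 + 2 * D) * q) * e1
  have hY : vR D F t * (exp ((2 - 2 * F) * t) / 2) * q ^ 2 = g * ((1 + s) / (2 * F)) := by
    generalize exp ((2 - 2 * F) * t) = p at *
    field_simp; linear_combination hv - F * vR D F t * e2
  have hR : q ^ 2 * D = g * (F ^ 2 * b / 2) := by linear_combination -hb / 2
  have hQ : q ^ 2 * QR D t = g * (F * a + F ^ 2 * b) := by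
    rw [QR]; linear_combination (1 + 2 * D) * q * e1 - ha - hb
  have hP : q ^ 2 * PR D t = g * (1 + F * a + F ^ 2 * b / 2) := by
    rw [PR]; linear_combination (1 + D) * (1 + q * exp t) * e1 - hg - ha - hb / 2
  rw [hW, hY] at u1 u2 u3 u4
  rw [hP, hQ, hR, pjR_smul] at u2 u3 u4
  obtain rfl : k = (1 - 4 * F) / F := by rw [← hk]; field_simp
  have v1 : F * U1 D F t = exp (F * t) * (1 + s) / 2 := by rw [u1]; field_simp
  have v2 : F * U2 D F t = -exp (F * t) * (1 + s) ^ 2 * (1 + a) / 4 := by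
    rw [u2]; simp only [pjR]; field_simp; ring
  have v3 : F * U3 D F t = exp (F * t) * (1 + s) ^ 3 *
      (3 + 9 * a + a * ((1 - 4 * F) / F) + 3 * a ^ 2 - b) / 8 := by
    rw [u3]; simp only [pjR]; field_simp; ring
  have v4 : F * U4 D F t = exp (F * t) * (1 + s) ^ 4 * (-15 - 90 * a + 10 * a * b -
      18 * a * ((1 - 4 * F) / F) - a * ((1 - 4 * F) / F) ^ 2 - 75 * a ^ 2 -
      10 * a ^ 2 * ((1 - 4 * F) / F) - 15 * a ^ 3 + 22 * b + 3 * b * ((1 - 4 * F) / F)) / 16 := by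
    rw [u4]; simp only [pjR]; field_simp; ring
  have hc : o.P (vR D F t) + o.C3 (vR D F t) + o.C2 (vR D F t) + o.C1 (vR D F t) +
      o.C0 (vR D F t) = -(4 * o.p0 + 2 * o.q0 + o.r0) := by
    simp only [Gp.P, Gp.C3, Gp.C2, Gp.C1, Gp.C0]; ring
  rw [Gp.K_eq ht h0.ne']
  simp only [nf1, nf2, nf3, nf4]
  generalize (1 - 4 * F) / F = k at *
  generalize o.P _ = P at *
  generalize o.C3 _ = c3 at *
  generalize o.C2 _ = c2 at *
  generalize o.C1 _ = c1 at *
  generalize o.C0 _ = c0 at *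
  linear_combination 16 * P * v4 + (96 * P + 8 * c3) * v3 + (112 * P + 24 * c3 + 4 * c2) * v2 +
    (16 * P + 8 * c3 + 4 * c2 + 2 * c1) * v1 - c0 * hu + exp (F * t) * hc

end Pool.Agent.Lib.MP_d6150d_an
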