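import Pool.Agent.Lib.MP_d6150d_an.SchDef

/-! The criterion of Schaaf: the period function is increasing. -/

namespace Pool.Agent.Lib.MP_d6150d_an

open Real Set Filter Topology

theorem first_zero {M M' A A' : ℝ → ℝ} {b : ℝ} (hM : ∀ t, HasDerivAt M (M' t) t)
    (hA : ∀ t, HasDerivAt A (A' t) t) (M0 : M 0 = 0) (A0 : 0 < A 0)
    (h1 : ∀ t ∈ Ioo 0 b, 0 < M' t * A t - M t * A' t)
    (h2 : ∀ t ∈ Ioo 0 b, M t = 0 → 0 < A t) : ∀ t ∈ Ioo 0 b, 0 < M t := by
  intro t ht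
  have cA : Continuous A := continuous_iff_continuousAt.2 fun t ↦ (hA t).continuousAt
  have cM : Continuous M := continuous_iff_continuousAt.2 fun t ↦ (hM t).continuousAt
  obtain ⟨δ, hδ, hb⟩ := Metric.eventually_nhds_iff.1 (cA.continuousAt.eventually (lt_mem_nhds A0))
  have he : 0 < min (δ / 2) (t / 2) := lt_min (half_pos hδ) (half_pos ht.1)
  have he1 := min_le_left (δ / 2) (t / 2)
  have he2 := min_le_right (δ / 2) (t / 2)
  generalize min (δ / 2) (t / 2) = e at he he1 he2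
  have pA : ∀ s ∈ Icc 0 e, 0 < A s := fun s hs ↦ hb (by
    rw [Real.dist_eq, sub_zero, abs_of_nonneg hs.1]; linarith [hs.2])
  have p1 : 0 < M e := by
    have := strictMonoOn_of_deriv_pos (convex_Icc 0 e) (f := fun s ↦ M s / A s)
      (cM.continuousOn.div cA.continuousOn fun s hs ↦ (pA s hs).ne') (fun s hs ↦ by
        rw [interior_Icc] at hs
        have h := pA s (Ioo_subset_Icc_self hs)
        rw [((hM s).fun_div (hA s) h.ne').deriv]
        exact div_pos (h1 s ⟨hs.1, by linarith [hs.2, ht.1, ht.2]⟩) (by positivity))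
      ⟨le_rfl, he.le⟩ ⟨he.le, le_rfl⟩ he
    simp only [M0, zero_div] at this
    exact (div_pos_iff_of_pos_right (pA e ⟨he.le, le_rfl⟩)).1 this
  have key : ∀ s ∈ Ioo 0 b, M s = 0 → 0 < M' s := fun s hs h ↦ by
    have := h1 s hs
    rw [h, zero_mul, sub_zero] at this
    exact (mul_pos_iff_of_pos_right (h2 s hs h)).1 this
  have p2 := image_le_of_deriv_right_lt_deriv_boundary (f := fun _ ↦ 0) (f' := fun _ ↦ 0) (a := e)
    (b := b) continuousOn_const (fun x _ ↦ hasDerivWithinAt_const _ _ _) p1.le hM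
    fun x hx h ↦ key x ⟨he.trans_le hx.1, hx.2⟩ h.symm
  have ht' : e < t := by linarith [ht.1]
  rcases (p2 ⟨ht'.le, ht.2.le⟩).eq_or_lt with h | h
  · have : IsLocalMin M t := by
      filter_upwards [Icc_mem_nhds ht' ht.2] with s hs
      rw [← h]; exact p2 hs
    exact absurd (this.hasDerivAt_eq_zero (hM t)) (key t ht h.symm).ne'
  · exact h

theorem schaaf_abs {V φ y f f' M M' A A' ψ : ℝ → ℝ} {b : ℝ} (hb : 0 < b)
    (hM : ∀ t, HasDerivAt M (M' t) t) (hA : ∀ t, HasDerivAt A (A' t) t)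
    (hf : ∀ t, HasDerivAt f (f' t) t) (hφ : ∀ t, HasDerivAt φ (y t * f t) t)
    (M0 : M 0 = 0) (A0 : 0 < A 0) (f0 : 0 < f 0) (hy : ∀ t, 0 < y t)
    (hc : ContinuousOn ψ (Icc 0 b))
    (hV : ∀ t ∈ Ioc 0 b, 0 < V t ∧ 0 < φ t ∧ ψ t = 1 / φ t - V t * f t / φ t ^ 3 ∧
      M t = V t * A t - 6 * φ t ^ 2 * f t ∧ ∃ c, 0 < c ∧ HasDerivAt ψ (c * M t) t)
    (h1 : ∀ t ∈ Ioc 0 b, 0 < f t → 0 < M' t * A t - M t * A' t)
    (h2 : ∀ t ∈ Ioc 0 b, f t = 0 → f' t < 0) : ψ 0 < ψ b := by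
  have cf : Continuous f := continuous_iff_continuousAt.2 fun t ↦ (hf t).continuousAt
  have case1 : ∀ c ∈ Ioc 0 b, (∀ t ∈ Ioo 0 c, 0 < f t) → ψ 0 < ψ c := fun c hc' h ↦ by
    have sub : ∀ t ∈ Ioo 0 c, t ∈ Ioc 0 b := fun t ht ↦ ⟨ht.1, ht.2.le.trans hc'.2⟩
    have := first_zero (b := c) hM hA M0 A0 (fun t ht ↦ h1 t (sub t ht) (h t ht)) fun t ht e ↦ by
      obtain ⟨v, p, -, e2, -⟩ := hV t (sub t ht)
      have := h t ht
      refine (mul_pos_iff_of_pos_left v).1 ?_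
      have : 0 < 6 * φ t ^ 2 * f t := by positivity
      linarith
    refine strictMonoOn_of_deriv_pos (convex_Icc 0 c) (hc.mono (Icc_subset_Icc_right hc'.2))
      (fun t ht ↦ ?_) ⟨le_rfl, hc'.1.le⟩ ⟨hc'.1.le, le_rfl⟩ hc'.1
    rw [interior_Icc] at ht
    obtain ⟨-, -, -, -, k, k0, hk⟩ := hV t (sub t ht)
    rw [hk.deriv]; exact mul_pos k0 (this t ht)
  by_cases h : ∀ t ∈ Ioo 0 b, 0 < f t
  · exact case1 b ⟨hb, le_rfl⟩ h
  push Not at h
  obtain ⟨t, ht, ft⟩ := h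
  obtain ⟨c, ⟨c1, c2⟩, c3⟩ := (isCompact_Icc.inter_right (isClosed_le cf continuous_const) :
    IsCompact (Icc 0 b ∩ {t | f t ≤ 0})).exists_isLeast ⟨t, Ioo_subset_Icc_self ht, ft⟩
  have c2 : f c ≤ 0 := c2
  have c0 : 0 < c := c1.1.lt_of_ne (by rintro rfl; linarith)
  have pos : ∀ s ∈ Ioo 0 c, 0 < f s := fun s hs ↦ by
    by_contra h'
    exact (c3 ⟨⟨hs.1.le, hs.2.le.trans c1.2⟩, not_lt.1 h'⟩).not_gt hs.2
  have fc : f c = 0 := by
    refine le_antisymm c2 (ge_of_tendsto (f := f) (x := 𝓝[<] c)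
      (cf.continuousAt.tendsto.mono_left nhdsWithin_le_nhds) ?_)
    filter_upwards [Ioo_mem_nhdsLT c0] with s hs using (pos s hs).le
  have neg := image_le_of_deriv_right_lt_deriv_boundary (f := f) (f' := f') (a := c) (b := b)
    cf.continuousOn (fun x _ ↦ (hf x).hasDerivWithinAt) (B := fun _ ↦ 0) (B' := fun _ ↦ 0) c2
    (fun x ↦ hasDerivAt_const _ _) fun x hx h ↦ h2 x ⟨c0.trans_le hx.1, hx.2.le⟩ h
  have anti := antitoneOn_of_deriv_nonpos (convex_Icc c b) (f := φ)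
    (fun t _ ↦ (hφ t).continuousAt.continuousWithinAt)
    (fun t _ ↦ (hφ t).differentiableAt.differentiableWithinAt) (fun t ht ↦ by
      rw [(hφ t).deriv]
      exact mul_nonpos_of_nonneg_of_nonpos (hy t).le (neg (interior_subset ht)))
    ⟨le_rfl, c1.2⟩ ⟨c1.2, le_rfl⟩ c1.2
  obtain ⟨-, p1, e1, -⟩ := hV c ⟨c0, c1.2⟩
  obtain ⟨v2, p2, e2, -⟩ := hV b ⟨hb, le_rfl⟩
  refine (case1 c ⟨c0, c1.2⟩ pos).trans_le ?_
  rw [e1, e2, fc]
  have a1 := one_div_le_one_div_of_le p2 anti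
  have a2 : V b * f b / φ b ^ 3 ≤ 0 :=
    div_nonpos_of_nonpos_of_nonneg (mul_nonpos_of_nonneg_of_nonpos v2.le (neg ⟨c1.2, le_rfl⟩))
      (by positivity)
  simp only [mul_zero, zero_div]
  linarith

variable {D F : ℝ}

theorem dq (t : ℝ) : HasDerivAt (fun t ↦ exp (-t)) (-exp (-t)) t := by
  simpa using (hasDerivAt_neg t).exp

theorem ds1 (t : ℝ) : HasDerivAt (fun t ↦ sv1 D (exp (-t)))
    (sv2 D F (exp (-t)) - F * sv1 D (exp (-t))) t :=
  ((((dq t).const_mul (1 + 2 * D)).const_sub (1 + D)).add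
    (((dq t).pow 2).const_mul D)).congr_deriv (by simp only [sv1, sv2]; push_cast; ring)

theorem ds2 (t : ℝ) : HasDerivAt (fun t ↦ sv2 D F (exp (-t)))
    (exp (-t) * svW D F (exp (-t))) t :=
  ((((dq t).const_mul ((1 + 2 * D) * (F - 1))).const_sub ((1 + D) * F)).add
    (((dq t).pow 2).const_mul (D * (F - 2)))).congr_deriv (by simp only [svW]; push_cast; ring)

theorem dsW (t : ℝ) : HasDerivAt (fun t ↦ svW D F (exp (-t))) (2 * D * (F - 2) * exp (-t)) t :=
  (((dq t).const_mul (2 * D * (F - 2))).const_sub ((1 + 2 * D) * (F - 1))).congr_deriv (by ring)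

theorem dey (t : ℝ) : HasDerivAt (fun t ↦ exp (F * t)) (F * exp (F * t)) t :=
  ((hasDerivAt_id t).const_mul F).exp.congr_deriv (by simp only [id]; ring)

variable (D F) in
/-- the derivative of the potential with respect to `uR` -/
noncomputable def sφ (t : ℝ) : ℝ := exp (F * t) * sv1 D (exp (-t))

variable (D F) in
/-- the numerator of the third derivative -/
noncomputable def sM (t : ℝ) : ℝ :=
  vR D F t * svA D F (exp (-t)) - 6 * sφ D F t ^ 2 * sv2 D F (exp (-t))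

variable (D F) in
/-- the derivative of the leading coefficient -/
def sA' (r : ℝ) : ℝ := 12 * sv2 D F r * (r * svW D F r) - 2 * ((sv2 D F r - F * sv1 D r) * r *
  svW D F r - sv1 D r * r * svW D F r + sv1 D r * r * (2 * D * (F - 2) * r))

theorem dφ (t : ℝ) : HasDerivAt (sφ D F) (exp (F * t) * sv2 D F (exp (-t))) t :=
  ((dey t).mul (ds1 (F := F) t)).congr_deriv (by ring)

theorem dsA (t : ℝ) : HasDerivAt (fun t ↦ svA D F (exp (-t))) (sA' D F (exp (-t))) t :=
  ((((ds2 t).pow 2).const_mul 6).sub (((((ds1 (F := F) t).const_mul 2).mul (dq t)).mul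
    (dsW t)))).congr_deriv (by simp only [sA', Pi.mul_apply]; push_cast; ring)

theorem sv1_eq (t : ℝ) : sv1 D (exp (-t)) = exp (-t) ^ 2 * ((exp t - 1) * om D t) := by
  have h : exp (-t) * exp t = 1 := by rw [← exp_add]; simp
  simp only [sv1, om]
  linear_combination (-(1 + D) * (1 + exp (-t) * exp t) + (1 + 2 * D) * exp (-t)) * h

theorem WR_eq (t : ℝ) : WR D F t = 2 * exp (F * t) * sφ D F t := by
  have h : exp ((2 * F - 2) * t) = exp (F * t) * exp (F * t) * exp (-t) ^ 2 := by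
    rw [sq, ← exp_add, ← exp_add, ← exp_add]; ring_nf
  rw [WR, sφ, sv1_eq, h]; ring

theorem dsM (t : ℝ) : ∃ M', HasDerivAt (sM D F) M' t ∧
    M' * svA D F (exp (-t)) - sM D F t * sA' D F (exp (-t)) =
      4 * exp (F * t) ^ 2 * sv1 D (exp (-t)) ^ 3 * exp (-t) * svS D F (exp (-t)) := by
  refine ⟨_, ((hasDerivAt_vR D F t).mul (dsA t)).sub
    ((((dφ t).pow 2).const_mul 6).mul (ds2 t)), ?_⟩
  simp only [WR_eq, sM, sφ, Pi.pow_apply]
  generalize exp (F * t) = y
  generalize exp (-t) = r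
  generalize vR D F t = v
  have e : svS D F r = 5 * r * svW D F r ^ 2 +
      3 * sv2 D F r * ((F + 1) * svW D F r - 2 * D * (F - 2) * r) := by
    simp only [svS, svW]; ring
  rw [e]
  simp only [svA, sA']
  push_cast
  ring

theorem sφ_ne {t : ℝ} (ht : t ∈ JR D) (h0 : t ≠ 0) : sφ D F t ≠ 0 := by
  have : 0 < om D t := ht
  have : exp t - 1 ≠ 0 := sub_ne_zero.2 (by simpa using h0)
  rw [sφ, sv1_eq]; positivity

theorem g_ne {t : ℝ} (ht : t ∈ JR D) (h0 : t ≠ 0) : gR D F t ≠ 0 := by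
  rcases h0.lt_or_gt with h | h
  exacts [(gR_neg ht h).ne, (gR_pos ht h).ne']

theorem deriv_g {t : ℝ} (ht : t ∈ JR D) (h0 : t ≠ 0) :
    deriv (gR D F) t = exp (F * t) * sφ D F t / gR D F t := by
  have := gR_deriv (F := F) ht
  rw [WR_eq] at this
  rw [eq_div_iff (g_ne ht h0)]; linarith

theorem nh {t : ℝ} (ht : t ∈ JR D) (h0 : t ≠ 0) : ∀ᶠ s in 𝓝 t, s ∈ JR D ∧ s ≠ 0 :=
  ((JR_open D).eventually_mem ht).and (isOpen_ne.mem_nhds h0)

theorem psi_eq {t : ℝ} (ht : t ∈ JR D) (h0 : t ≠ 0) : Dg D F (Dg D F (uR F)) t =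
    1 / sφ D F t - vR D F t * sv2 D F (exp (-t)) / sφ D F t ^ 3 := by
  have h1 := sφ_ne (F := F) ht h0
  have h2 := g_ne (F := F) ht h0
  have := ((gR_an (F := F) ht).differentiableAt.hasDerivAt.fun_div (dφ t) h1).congr_of_eventuallyEq
    (f₁ := Dg D F (uR F)) (by
      filter_upwards [nh ht h0] with s hs
      have := sφ_ne (F := F) hs.1 hs.2
      have := g_ne (F := F) hs.1 hs.2
      rw [Dg, (hasDerivAt_uR s).deriv, deriv_g hs.1 hs.2]; field_simp)
  rw [Dg, this.deriv, deriv_g ht h0, ← gR_sq ht]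
  field_simp

theorem psi_deriv {t : ℝ} (ht : t ∈ JR D) (h0 : t ≠ 0) : HasDerivAt (Dg D F (Dg D F (uR F)))
    (exp (F * t) / (2 * sφ D F t ^ 4) * sM D F t) t := by
  have h1 := sφ_ne (F := F) ht h0
  refine ((((hasDerivAt_const t (1 : ℝ)).fun_div (dφ t) h1).sub
    (((hasDerivAt_vR D F t).mul (ds2 t)).fun_div ((dφ t).pow 3)
      (pow_ne_zero 3 h1))).congr_of_eventuallyEq (by
        filter_upwards [nh ht h0] with s hs using psi_eq hs.1 hs.2)).congr_deriv ?_
  have e : sv1 D (exp (-t)) = sφ D F t / exp (F * t) := by rw [sφ]; field_simp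
  simp only [WR_eq, sM, svA, Pi.pow_apply, Pi.mul_apply, e]
  push_cast
  field_simp
  ring

variable (D F) in
/-- the classical pointwise test -/
def SchAt2 (r : ℝ) : Prop := (0 < sv2 D F r → 0 < svS D F r) ∧ (sv2 D F r = 0 → 0 < svA D F r)

theorem psi_side {σ b : ℝ} (hσ : σ = 1 ∨ σ = -1) (hb : 0 < b) (hJ : σ * b ∈ JR D)
    (h : ∀ t ∈ Ioc 0 b, SchAt2 D F (exp (-(σ * t)))) :
    σ * Dg D F (Dg D F (uR F)) 0 < σ * Dg D F (Dg D F (uR F)) (σ * b) := by
  have s2 : σ * σ = 1 := by rcases hσ with rfl | rfl <;> norm_num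
  have s0 : σ ≠ 0 := by rintro rfl; simp at s2
  have mem : ∀ t ∈ Icc 0 b, σ * t ∈ JR D := fun t ht ↦ by
    rcases hσ with rfl | rfl
    · exact JR_conn (zero_mem_JR D) hJ (by linarith [ht.1]) (by linarith [ht.2])
    · exact JR_conn hJ (zero_mem_JR D) (by linarith [ht.2]) (by linarith [ht.1])
  have p1 : ∀ t ∈ Ioc 0 b, 0 < σ * sv1 D (exp (-(σ * t))) := fun t ht ↦ by
    have : 0 < om D (σ * t) := mem t (Ioc_subset_Icc_self ht)
    have : 0 < σ * (exp (σ * t) - 1) := by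
      rcases hσ with rfl | rfl
      · have := one_lt_exp_iff.2 (show 0 < 1 * t by linarith [ht.1]); linarith
      · have := exp_lt_one_iff.2 (show -1 * t < 0 by linarith [ht.1]); linarith
    rw [sv1_eq, mul_left_comm, ← mul_assoc σ]; positivity
  have dl : ∀ t, HasDerivAt (fun t ↦ σ * t) σ t := fun t ↦ by
    simpa using (hasDerivAt_id t).const_mul σ
  choose M' hM e using dsM (D := D) (F := F)
  have := schaaf_abs (V := fun t ↦ vR D F (σ * t)) (φ := fun t ↦ σ * sφ D F (σ * t))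
    (y := fun t ↦ exp (F * (σ * t))) (f := fun t ↦ sv2 D F (exp (-(σ * t))))
    (ψ := fun t ↦ σ * Dg D F (Dg D F (uR F)) (σ * t)) hb
    (fun t ↦ (hM (σ * t)).comp t (dl t)) (fun t ↦ (dsA (D := D) (F := F) (σ * t)).comp t (dl t))
    (fun t ↦ (ds2 (σ * t)).comp t (dl t))
    (fun t ↦ (((dφ (σ * t)).comp t (dl t)).const_mul σ).congr_deriv (by
      linear_combination (exp (F * (σ * t)) * sv2 D F (exp (-(σ * t)))) * s2))
    (by simp only [Function.comp, mul_zero, neg_zero, exp_zero, sM, vR, sφ, sv1]; ring)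
    (by simp only [Function.comp, mul_zero, neg_zero, exp_zero, svA, sv1, sv2]; nlinarith)
    (by simp only [mul_zero, neg_zero, exp_zero, sv2]; nlinarith) (fun _ ↦ exp_pos _)
    (fun t ht ↦ (((AnJ.u.dg.dg _ (mem t ht)).continuousAt.comp (f := fun t ↦ σ * t)
      (dl t).continuousAt).const_mul σ).continuousWithinAt)
    (fun t ht ↦ ?_) (fun t ht hf ↦ ?_) fun t ht hf ↦ ?_
  · simpa using this
  · have m := mem t (Ioc_subset_Icc_self ht)
    have n : σ * t ≠ 0 := mul_ne_zero s0 ht.1.ne'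
    have n1 := sφ_ne (F := F) m n
    refine ⟨vR_pos m n, ?_, ?_, ?_, exp (F * (σ * t)) / (2 * sφ D F (σ * t) ^ 4), by positivity,
      (((psi_deriv m n).comp t (dl t)).const_mul σ).congr_deriv ?_⟩
    · rw [sφ, mul_left_comm]; exact mul_pos (exp_pos _) (p1 t ht)
    · rw [psi_eq m n]
      rcases hσ with rfl | rfl
      · simp
      · field_simp; ring
    · simp only [Function.comp, sM]
      linear_combination (6 * sφ D F (σ * t) ^ 2 * sv2 D F (exp (-(σ * t)))) * s2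
    · simp only [Function.comp]
      linear_combination (exp (F * (σ * t)) / (2 * sφ D F (σ * t) ^ 4) * sM D F (σ * t)) * s2
  · have h1 := (h t ht).1 hf
    have h2 := p1 t ht
    have : 0 < 4 * exp (F * (σ * t)) ^ 2 * (σ * sv1 D (exp (-(σ * t)))) ^ 3 * exp (-(σ * t)) *
      svS D F (exp (-(σ * t))) := by positivity
    simp only [Function.comp]
    refine this.trans_eq ?_
    linear_combination (-σ) * e (σ * t) + (σ * 4 * exp (F * (σ * t)) ^ 2 *
      sv1 D (exp (-(σ * t))) ^ 3 * exp (-(σ * t)) * svS D F (exp (-(σ * t)))) * s2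
  · have h1 := (h t ht).2 hf
    have h2 := p1 t ht
    rw [svA, hf] at h1
    refine neg_of_mul_pos_right (a := -(2 * (σ * sv1 D (exp (-(σ * t)))))) (h1.trans_eq ?_)
      (by linarith)
    linear_combination (2 * sv1 D (exp (-(σ * t))) * exp (-(σ * t)) * svW D F (exp (-(σ * t)))) * s2

variable (D F) in
/-- the classical test holds between conjugate points -/
def SchOK2 : Prop := ∀ a ∈ JR D, ∀ b ∈ JR D, a < 0 → 0 < b → vR D F a = vR D F b →
  ∀ t ∈ Icc a b, t ≠ 0 → SchAt2 D F (exp (-t))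

theorem SchOK2.pos (h : SchOK2 D F) {R r : ℝ} (H : Rng D F R) (hr : |r| < R) (h0 : 0 < r) :
    0 < Jf D F (phi4 D F) r := by
  have e := (H.t_deriv hr h0.ne').unique (H.av_deriv AnJ.u.dg hr h0.ne')
  have p := H.j_pos (AnJ.u (F := F)).dg.dg hr h0 fun a ha b hb a0 b0 hv ↦ by
    have h1 := psi_side (F := F) (σ := 1) (Or.inl rfl) b0 (by rwa [one_mul]) fun t ht ↦
      h a ha b hb a0 b0 hv _ ⟨by linarith [ht.1], by linarith [ht.2]⟩ (by linarith [ht.1])
    have h2 := psi_side (F := F) (σ := -1) (b := -a) (Or.inr rfl) (by linarith)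
      (by simpa using ha) fun t ht ↦
      h a ha b hb a0 b0 hv _ ⟨by linarith [ht.2], by linarith [ht.1]⟩ (by linarith [ht.1])
    simp only [one_mul, neg_mul, neg_neg] at h1 h2
    linarith
  rw [div_eq_iff (by positivity)] at e
  rw [e]
  exact mul_pos (div_pos p h0) (by positivity)

theorem SchOK2.noThree (h : SchOK2 D F) : NoThree D F :=
  fun _ _ _ _ _ _ _ _ hR H a _ h0 hab hb za _ _ ↦
    (h.pos H (by rw [abs_of_pos h0]; linarith) h0).ne' za

/-- The criterion with the test `SchOK`, off the ellipse where `sv2` has a double root. -/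
theorem schaaf (hd : (F - 1) ^ 2 + 4 * D * (1 + D) ≠ 0) (h : SchOK D F) : NoThree D F := by
  refine SchOK2.noThree fun a ha b hb a0 b0 hv t ht t0 ↦ ⟨(h a ha b hb a0 b0 hv t ht).1, fun e ↦ ?_⟩
  refine ((h a ha b hb a0 b0 hv t ht).2 e.le).lt_of_ne fun e2 ↦ hd ?_
  have n := sφ_ne (F := F) (JR_conn ha hb ht.1 ht.2) t0
  have n1 : sv1 D (exp (-t)) ≠ 0 := right_ne_zero_of_mul n
  have n2 := (exp_pos (-t)).ne'
  have e3 : svW D F (exp (-t)) = 0 := by
    rw [svA, e] at e2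
    have : 2 * sv1 D (exp (-t)) * exp (-t) * svW D F (exp (-t)) = 0 := by linarith
    exact (mul_eq_zero.1 this).resolve_left (by positivity)
  simp only [sv2, svW] at e e3
  linear_combination (-4 * D * (F - 2)) * e + ((1 + 2 * D) * (F - 1) - 2 * D * (F - 2) * exp (-t)) * e3

end Pool.Agent.Lib.MP_d6150d_an
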