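import Pool.Agent.Lib.MP_d6150d_an.SchRP
import Pool.Agent.Lib.MP_d6150d_an.SchMain

/-! The criterion of Schaaf on three regions where only the period annulus is admissible. -/

namespace Pool.Agent.Lib.MP_d6150d_an

open Real Set

variable {D F : ℝ}

theorem jr_r {t : ℝ} (ht : t ∈ JR D) : 0 < 1 + D - D * exp (-t) := by
  have h : 0 < (1 + D) * exp t - D := ht
  have e : exp t * exp (-t) = 1 := by rw [← exp_add]; simp
  have := mul_pos h (exp_pos (-t))
  linarith [show ((1 + D) * exp t - D) * exp (-t) = 1 + D - D * exp (-t) by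
    linear_combination (1 + D) * e]

theorem vR_cmp {F' a b : ℝ} (hF : F' ≤ F) (ha : a ∈ JR D) (hb : b ∈ JR D) (hab : a ≤ b) :
    vR D F a - vR D F' a ≤ vR D F b - vR D F' b := by
  have hd : ∀ t, HasDerivAt (fun t ↦ vR D F t - vR D F' t) (WR D F t - WR D F' t) t :=
    fun t ↦ (hasDerivAt_vR D F t).sub (hasDerivAt_vR D F' t)
  refine monotoneOn_of_deriv_nonneg (convex_Icc a b) (f := fun t ↦ vR D F t - vR D F' t)
    (fun t _ ↦ (hd t).continuousAt.continuousWithinAt)
    (fun t _ ↦ (hd t).differentiableAt.differentiableWithinAt) (fun t ht ↦ ?_)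
    ⟨le_rfl, hab⟩ ⟨hab, le_rfl⟩ hab
  have ht := interior_subset ht
  have h1 : 0 < om D t := JR_conn ha hb ht.1 ht.2
  rw [(hd t).deriv, WR, WR]
  have h2 : 0 ≤ (exp ((2 * F - 2) * t) - exp ((2 * F' - 2) * t)) * (exp t - 1) := by
    rcases le_total 0 t with h | h
    · exact mul_nonneg (sub_nonneg.2 (exp_le_exp.2 (by nlinarith))) (sub_nonneg.2 (one_le_exp h))
    · exact mul_nonneg_of_nonpos_of_nonpos (sub_nonpos.2 (exp_le_exp.2 (by nlinarith)))
        (sub_nonpos.2 (exp_le_one_iff.2 h))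
  nlinarith [mul_nonneg h2 h1.le]

theorem ph_closed {k : ℝ} (hk : k ≠ 0) (t : ℝ) : t * ph1 (k * t) = (exp (k * t) - 1) / k := by
  rw [exp_eq_ph]; field_simp; ring

theorem exp_nmul (n : ℕ) (t : ℝ) : exp (n * t) = exp t ^ n := exp_nat_mul t n

theorem vR_mhalf (t : ℝ) :
    vR D (-1 / 2) t = (1 - exp (-t)) ^ 2 + 2 * D * (1 - exp (-t)) ^ 3 / 3 := by
  rw [vR_eq, ph_closed (by norm_num), ph_closed (by norm_num), ph_closed (by norm_num),
    show 2 * (-1 / 2 : ℝ) * t = -t by ring,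
    show (2 * (-1 / 2 : ℝ) - 1) * t = (2 : ℕ) * -t by push_cast; ring,
    show (2 * (-1 / 2 : ℝ) - 2) * t = (3 : ℕ) * -t by push_cast; ring, exp_nmul, exp_nmul]
  ring

theorem exp_rng {a b t : ℝ} (ht : t ∈ Icc a b) : exp (-b) ≤ exp (-t) ∧ exp (-t) ≤ exp (-a) :=
  ⟨exp_le_exp.2 (neg_le_neg ht.2), exp_le_exp.2 (neg_le_neg ht.1)⟩

/-- the region `1 ≤ D`, `-1/8 ≤ F ≤ 1` -/
theorem schOK_R1 (hD : 1 ≤ D) (h1 : -1 / 8 ≤ F) (h2 : F ≤ 1) : SchOK D F := by
  intro a ha b hb a0 b0 e t ht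
  have hc := vR_cmp (F := F) (F' := -1 / 2) (by linarith) ha hb (a0.trans b0).le
  rw [e, vR_mhalf, vR_mhalf] at hc
  have ja := jr_r ha
  have jt := jr_r (JR_conn ha hb ht.1 ht.2)
  have rb : exp (-b) < 1 := exp_lt_one_iff.2 (by linarith)
  have ra : 1 < exp (-a) := one_lt_exp_iff.2 (by linarith)
  obtain ⟨t1, -⟩ := exp_rng ht
  have r0 := exp_pos (-t)
  generalize exp (-a) = A at *
  generalize exp (-b) = B at *
  generalize exp (-t) = r at *
  have k1 : D * (1 - B) ≤ 1 / 2 := by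
    by_contra h
    push Not at h
    have p1 : 0 ≤ (1 + D * (1 - A)) ^ 2 * (1 - 2 * (D * (1 - A))) :=
      mul_nonneg (sq_nonneg _) (by nlinarith)
    have p2 : 0 < (1 + D * (1 - B)) ^ 2 * (2 * (D * (1 - B)) - 1) :=
      mul_pos (pow_pos (by linarith) 2) (by linarith)
    have p3 := mul_le_mul_of_nonneg_left hc (sq_nonneg D)
    nlinarith
  have k2 : D * (1 - r) ≤ 1 / 2 := by nlinarith
  refine ⟨fun h ↦ ?_, fun h ↦ ?_⟩
  · have : 0 < (1 + 2 * D) * (F ^ 2 - 1) - 2 * (F ^ 2 - 4) * D * r := by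
      have : 0 ≤ (4 - F ^ 2) * (1 / 2 - D * (1 - r)) := mul_nonneg (by nlinarith) (by linarith)
      nlinarith [sq_nonneg F]
    rw [svS]; positivity
  · have k3 : 1 ≤ r := by
      by_contra h'
      push Not at h'
      have q1 : 1 - r ≤ 1 / 2 := by nlinarith
      have q2 : 0 ≤ D * (1 - r) := mul_nonneg (by linarith) (by linarith)
      have q3 : 0 ≤ (F + 1 / 8) * ((1 - r) * (1 + D * (1 - r))) :=
        mul_nonneg (by linarith) (mul_nonneg (by linarith) (by linarith))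
      have q4 : (1 - r) * (1 + D * (1 - r)) ≤ 1 / 2 * (3 / 2) :=
        mul_le_mul q1 (by linarith) (by linarith) (by norm_num)
      have q5 : 0 ≤ D * (1 - r) * r := mul_nonneg q2 r0.le
      rw [sv2] at h
      nlinarith
    have k4 : 0 ≤ svW D F r := by
      have : 0 ≤ (2 - F) * (D * (r - 1)) :=
        mul_nonneg (by linarith) (mul_nonneg (by linarith) (by linarith))
      rw [svW]; nlinarith
    have k5 : 0 ≤ -sv1 D r := by
      have : 0 ≤ (r - 1) * (1 + D - D * r) := mul_nonneg (by linarith) jt.le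
      rw [sv1]; nlinarith
    have := mul_nonneg (mul_nonneg k5 r0.le) k4
    rw [svA]; nlinarith [sq_nonneg (sv2 D F r)]

theorem vR_five (t : ℝ) : vR D (5 / 2) t = 2 * ((1 + D) * (exp t ^ 5 - 1) / 5 -
    (1 + 2 * D) * (exp t ^ 4 - 1) / 4 + D * (exp t ^ 3 - 1) / 3) := by
  rw [vR_eq, ph_closed (by norm_num), ph_closed (by norm_num), ph_closed (by norm_num),
    show 2 * (5 / 2 : ℝ) * t = (5 : ℕ) * t by push_cast; ring,
    show (2 * (5 / 2 : ℝ) - 1) * t = (4 : ℕ) * t by push_cast; ring,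
    show (2 * (5 / 2 : ℝ) - 2) * t = (3 : ℕ) * t by push_cast; ring, exp_nmul, exp_nmul, exp_nmul]
  ring

theorem vR_le_saddle {b s : ℝ} (hb : b ∈ JR D) (b0 : 0 ≤ b) (hD : D ≤ -1) (hs : om D s = 0) :
    vR D F b ≤ vR D F s := by
  have h1 : 0 < (1 + D) * exp b - D := hb
  have h2 : (1 + D) * exp s - D = 0 := hs
  have hbs : b ≤ s := by
    by_contra h
    have := exp_lt_exp.2 (not_le.1 h)
    nlinarith
  refine monotoneOn_of_deriv_nonneg (convex_Icc b s) vR_cont.continuousOn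
    (fun t _ ↦ (hasDerivAt_vR D F t).differentiableAt.differentiableWithinAt) (fun t ht ↦ ?_)
    ⟨le_rfl, hbs⟩ ⟨hbs, le_rfl⟩ hbs
  have ht := interior_subset ht
  have e1 := exp_le_exp.2 ht.2
  have e2 := one_le_exp (b0.trans ht.1)
  have e3 : 0 ≤ om D t := by rw [om]; nlinarith
  rw [(hasDerivAt_vR D F t).deriv, WR]
  exact mul_nonneg (by positivity) (mul_nonneg (by linarith) e3)

/-- the region `D ≤ -7/2`, `1 ≤ F ≤ 5/2` -/
theorem schOK_R2 (hD : D ≤ -7 / 2) (h1 : 1 ≤ F) (h2 : F ≤ 5 / 2) : SchOK D F := by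
  intro a ha b hb a0 b0 e t ht
  obtain ⟨d, rfl⟩ : ∃ d, D = -d := ⟨-D, by ring⟩
  have hd : 7 / 2 ≤ d := by linarith
  have hc := vR_cmp (F := 5 / 2) (F' := F) h2 ha hb (a0.trans b0).le
  have d1 : 0 < d - 1 := by linarith
  have d2 : 0 < d + 3 / 2 := by linarith
  have s1 : exp (log (d / (d - 1))) = d / (d - 1) := exp_log (by positivity)
  have s2 : exp (log (d / (d + 3 / 2))) = d / (d + 3 / 2) := exp_log (by positivity)
  have k0 := vR_le_saddle (F := 5 / 2) hb b0.le (by linarith) (s := log (d / (d - 1)))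
    (by rw [om, s1]; field_simp; ring)
  have k1 : d * (exp (-a) - 1) ≤ 3 / 2 := by
    by_contra h
    push Not at h
    have l1 : a < log (d / (d + 3 / 2)) := by
      rw [← exp_lt_exp, s2, lt_div_iff₀ d2]
      have e : exp a * exp (-a) = 1 := by rw [← exp_add]; simp
      nlinarith [mul_lt_mul_of_pos_left h (exp_pos a)]
    have l2 := vR_anti (F := 5 / 2) ha (log_nonpos (by positivity)
      ((div_le_one d2).2 (by linarith))) l1
    have l3 : vR (-d) (5 / 2) (log (d / (d + 3 / 2))) < vR (-d) (5 / 2) (log (d / (d - 1))) := by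
      linarith
    rw [vR_five, vR_five, s1, s2, ← sub_pos] at l3
    have l4 := mul_pos l3 (mul_pos (pow_pos d1 5) (pow_pos d2 5))
    have x0 : 0 ≤ d - 7 / 2 := by linarith
    have l5 : 0 ≤ 37515625 / 512 + 179003125 / 256 * (d - 7 / 2) +
        331821875 / 256 * (d - 7 / 2) ^ 2 + 143434375 / 128 * (d - 7 / 2) ^ 3 +
        8806375 / 16 * (d - 7 / 2) ^ 4 + 163625 * (d - 7 / 2) ^ 5 + 468875 / 16 * (d - 7 / 2) ^ 6 +
        23375 / 8 * (d - 7 / 2) ^ 7 + 125 * (d - 7 / 2) ^ 8 := by positivity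
    have m1 : ∀ n : ℕ, (d / (d - 1)) ^ n * (d - 1) ^ n = d ^ n := fun n ↦ by
      rw [← mul_pow, div_mul_cancel₀ _ d1.ne']
    have m2 : ∀ n : ℕ, (d / (d + 3 / 2)) ^ n * (d + 3 / 2) ^ n = d ^ n := fun n ↦ by
      rw [← mul_pow, div_mul_cancel₀ _ d2.ne']
    refine absurd l4 (not_lt.2 (le_of_eq_of_le (b := -(1 / 30) * _) ?_
      (mul_nonpos_of_nonpos_of_nonneg (by norm_num) l5)))
    linear_combination (d + 3 / 2) ^ 5 * (2 * (1 - d) / 5 * m1 5 -
      (1 - 2 * d) / 2 * (d - 1) * m1 4 - 2 * d / 3 * (d - 1) ^ 2 * m1 3) -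
      (d - 1) ^ 5 * (2 * (1 - d) / 5 * m2 5 - (1 - 2 * d) / 2 * (d + 3 / 2) * m2 4 -
      2 * d / 3 * (d + 3 / 2) ^ 2 * m2 3)
  have jt := jr_r (JR_conn ha hb ht.1 ht.2)
  obtain ⟨-, t2⟩ := exp_rng ht
  have r0 := exp_pos (-t)
  generalize exp (-a) = A at *
  generalize exp (-t) = r at *
  have k2 : 0 ≤ d * (1 - r) + 3 / 2 := by nlinarith
  refine ⟨fun _ ↦ ?_, fun h ↦ ?_⟩
  · exact (mul_pos_iff_of_pos_left (by linarith)).1 (r2_poly rfl rfl rfl rfl rfl k2 (by linarith)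
      (by linarith) (by linarith) (by linarith))
  · have k3 : r ≤ 1 := by
      by_contra h'
      push Not at h'
      have q1 : r - 1 ≤ 3 / 7 := by nlinarith
      have q2 : 0 ≤ d * (r - 1) := mul_nonneg (by linarith) (by linarith)
      have q3 : 0 ≤ (5 / 2 - F) * ((r - 1) * (1 + d * (r - 1))) :=
        mul_nonneg (by linarith) (mul_nonneg (by linarith) (by linarith))
      have q4 : 0 ≤ (3 / 7 - (r - 1)) * (d * (r - 1)) := mul_nonneg (by linarith) q2
      rw [sv2] at h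
      nlinarith
    have k4 : 0 ≤ -svW (-d) F r := by
      have q2 : 0 ≤ d * (1 - r) := mul_nonneg (by linarith) (by linarith)
      have : 0 ≤ (F - 1) * (d * (1 - r)) := mul_nonneg (by linarith) q2
      rw [svW]; nlinarith
    have k5 : 0 ≤ sv1 (-d) r := by
      have : 0 ≤ (1 - r) * (1 + -d - -d * r) := mul_nonneg (by linarith) jt.le
      rw [sv1]; nlinarith
    have := mul_nonneg (mul_nonneg k5 r0.le) k4
    rw [svA]; nlinarith [sq_nonneg (sv2 (-d) F r)]

theorem vR_level (hF : 1 < F) (t : ℝ) : F * (2 * F - 1) * (F - 1) * vR D F t - (F - 1 - D) =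
    exp (2 * F * t) * ((1 + D) * (2 * F - 1) * (F - 1) - 2 * (1 + 2 * D) * F * (F - 1) * exp (-t) +
      D * F * (2 * F - 1) * exp (-t) ^ 2) := by
  have h1 : 2 * F ≠ 0 := by positivity
  have h2 : 2 * F - 1 ≠ 0 := by linarith
  have h3 : 2 * F - 2 ≠ 0 := by linarith
  have h4 : F ≠ 0 := by positivity
  have h5 : F - 1 ≠ 0 := by linarith
  rw [vR_eq, ph_closed h1, ph_closed h2, ph_closed h3,
    show (2 * F - 1) * t = 2 * F * t + -t by ring,
    show (2 * F - 2) * t = 2 * F * t + -t + -t by ring, exp_add, exp_add, exp_add,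
    show 2 * F - 2 = 2 * (F - 1) by ring]
  have h6 : F * 2 - 1 ≠ 0 := by linarith
  field_simp
  ring

theorem concave_nonneg {p q c x x0 x1 : ℝ} (hc : 0 ≤ c) (h0 : x0 ≤ x) (h1 : x ≤ x1)
    (f0 : 0 ≤ p + q * x0 - c * x0 ^ 2) (f1 : 0 ≤ p + q * x1 - c * x1 ^ 2) :
    0 ≤ p + q * x - c * x ^ 2 := by
  rcases (h0.trans h1).eq_or_lt with h | h
  · rw [le_antisymm h1 (h ▸ h0)]; exact f1
  · have a1 := mul_nonneg (sub_nonneg.2 h1) f0
    have a2 := mul_nonneg (sub_nonneg.2 h0) f1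
    have a3 := mul_nonneg (mul_nonneg (mul_nonneg hc (sub_nonneg.2 h0)) (sub_nonneg.2 h1))
      (sub_pos.2 h).le
    refine nonneg_of_mul_nonneg_right (a := x1 - x0) ?_ (sub_pos.2 h)
    nlinarith

/-- the region `4 ≤ F`, `-1 - F/4 ≤ D ≤ -1/2` -/
theorem schOK_R3 (hF : 4 ≤ F) (h1 : -1 - F / 4 ≤ D) (h2 : D ≤ -1 / 2) : SchOK D F := by
  intro a ha b hb a0 b0 e t ht
  obtain ⟨d, rfl⟩ : ∃ d, D = -d := ⟨-D, by ring⟩
  have d1 : 1 / 2 ≤ d := by linarith
  have d2 : d ≤ 1 + F / 4 := by linarith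
  have la := vR_level (D := -d) (F := F) (by linarith) a
  have lb := vR_level (D := -d) (F := F) (by linarith) b
  rw [e, lb] at la
  have ra : 1 < exp (-a) := one_lt_exp_iff.2 (by linarith)
  have rb : exp (-b) < 1 := exp_lt_one_iff.2 (by linarith)
  have jb := jr_r hb
  have jt := jr_r (JR_conn ha hb ht.1 ht.2)
  obtain ⟨t1, -⟩ := exp_rng ht
  have r0 := exp_pos (-t)
  have B0 := exp_pos (-b)
  have ea := exp_pos (2 * F * a)
  have eb := exp_pos (2 * F * b)
  generalize exp (-a) = A at *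
  generalize exp (-b) = B at *
  generalize exp (-t) = r at *
  have F0 : 0 < F := by linarith
  have c0 : 0 ≤ d * F * (2 * F - 1) := by
    have : 0 ≤ 2 * F - 1 := by linarith
    have : 0 ≤ d := by linarith
    positivity
  have k0 : -(F - 1 + d) + 2 * F * (F - 1 + d) * (1 - B) - d * F * (2 * F - 1) * (1 - B) ^ 2 < 0 := by
    have q1 : 0 < (F - 1 + d) * (1 + 2 * F * (A - 1)) :=
      mul_pos (by linarith) (by nlinarith)
    have q2 := mul_nonneg c0 (sq_nonneg (A - 1))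
    have q3 : (1 + -d) * (2 * F - 1) * (F - 1) - 2 * (1 + 2 * -d) * F * (F - 1) * A +
        -d * F * (2 * F - 1) * A ^ 2 < 0 := by nlinarith
    have q4 := mul_neg_of_pos_of_neg ea q3
    rw [← la] at q4
    have q5 := neg_of_mul_neg_right q4 eb.le
    nlinarith
  have k1 : F * (1 - B) ≤ 2 / 3 := by
    by_contra h
    push Not at h
    have x0 : 2 / (3 * F) ≤ 1 - B := by rw [div_le_iff₀ (by positivity)]; nlinarith
    have f0 : 0 ≤ -(F - 1 + d) + 2 * F * (F - 1 + d) * (2 / (3 * F)) -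
        d * F * (2 * F - 1) * (2 / (3 * F)) ^ 2 := by
      have : -(F - 1 + d) + 2 * F * (F - 1 + d) * (2 / (3 * F)) -
        d * F * (2 * F - 1) * (2 / (3 * F)) ^ 2 = (3 * F * (F - 1) - d * (5 * F - 4)) / (9 * F) := by
        field_simp; ring
      rw [this]
      refine div_nonneg ?_ (by positivity)
      nlinarith [mul_le_mul_of_nonneg_right d2 (show 0 ≤ 5 * F - 4 by linarith)]
    rcases le_total d 1 with h' | h'
    · refine absurd k0 (not_lt.2 (concave_nonneg c0 x0 (x1 := 1) (by linarith) f0 ?_))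
      have : 0 ≤ (1 - d) * ((2 * F - 1) * (F - 1)) :=
        mul_nonneg (by linarith) (mul_nonneg (by linarith) (by linarith))
      nlinarith
    · have d0 : 0 < d := by linarith
      refine absurd k0 (not_lt.2 (concave_nonneg c0 x0 (x1 := 1 / d) ?_ f0 ?_))
      · rw [le_div_iff₀ d0]; nlinarith
      · have : -(F - 1 + d) + 2 * F * (F - 1 + d) * (1 / d) - d * F * (2 * F - 1) * (1 / d) ^ 2 =
            (d - 1) * (F - d) / d := by
          field_simp; ring
        rw [this]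
        exact div_nonneg (mul_nonneg (by linarith) (by linarith)) d0.le
  have k2 : F * (1 - r) ≤ 2 / 3 := by nlinarith
  rcases le_total r 1 with hr | hr
  · have x0 : 0 ≤ F * (1 - r) := mul_nonneg F0.le (by linarith)
    have x1 : 1 - r ≤ 1 / 6 := by nlinarith
    refine ⟨fun _ ↦ ?_, fun h ↦ ?_⟩
    · have L : 0 < (1 / 2 + F / 4) ^ 2 := by positivity
      have : 0 ≤ (1 / 2 + F / 4) ^ 2 * (F ^ 3 * svS (-d) F r - 1) := by
        rcases le_total (d - 1 / 2) (1 / 2 * (1 / 2 + F / 4)) with h | h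
        · rcases le_total (d - 1 / 2) (1 / 4 * (1 / 2 + F / 4)) with h' | h'
          · exact r3_poly0 rfl rfl rfl rfl rfl x0 (by linarith) (by linarith) (by linarith)
              (by linarith)
          · exact r3_poly1 rfl rfl rfl rfl rfl x0 (by linarith) (by linarith) (by linarith)
              (by linarith)
        · rcases le_total (d - 1 / 2) (3 / 4 * (1 / 2 + F / 4)) with h' | h'
          · exact r3_poly2 rfl rfl rfl rfl rfl x0 (by linarith) (by linarith) (by linarith)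
              (by linarith)
          · exact r3_poly3 rfl rfl rfl rfl rfl x0 (by linarith) (by linarith) (by linarith)
              (by linarith)
      have h3 := nonneg_of_mul_nonneg_right this L
      exact (mul_pos_iff_of_pos_left (pow_pos F0 3)).1 (by linarith)
    · exfalso
      have q1 : d * (1 - r) ≤ 1 / 3 := by
        nlinarith only [mul_le_mul_of_nonneg_right d2 (sub_nonneg.2 hr), x1, k2]
      have q2 : 0 ≤ F * (1 - r) * (1 - d * (1 - r)) := mul_nonneg x0 (by linarith)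
      have q3 : 0 < (1 - 2 * (d * (1 - r))) * r := mul_pos (by linarith) r0
      rw [sv2] at h
      nlinarith only [h, q2, q3]
  · have s0 : 0 ≤ d * (r - 1) := mul_nonneg (by linarith) (by linarith)
    refine ⟨fun h ↦ ?_, fun h ↦ ?_⟩
    · have : 0 < (1 + 2 * -d) * (F ^ 2 - 1) - 2 * (F ^ 2 - 4) * -d * r := by
        have : 0 ≤ (F ^ 2 - 4) * (d * (r - 1)) := mul_nonneg (by nlinarith only [hF]) s0
        nlinarith only [this, hF, d2]
      rw [svS]; positivity
    · have q1 : 0 ≤ (F - 2) * (d * (r - 1)) := mul_nonneg (by linarith) s0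
      have k4 : 0 ≤ (r - 1) * svW (-d) F r := by
        rw [sv2] at h
        rw [svW]
        rcases le_total 0 (F - 1 - 2 * d) with h' | h'
        · exact mul_nonneg (by linarith) (by nlinarith only [h', q1])
        · nlinarith only [h, mul_nonneg (sub_nonneg.2 hr) (neg_nonneg.2 h')]
      have := mul_nonneg (mul_nonneg k4 r0.le) jt.le
      rw [svA, sv1]; nlinarith only [this, sq_nonneg (sv2 (-d) F r)]

theorem sch_R1 (hD : 1 ≤ D) (h1 : -1 / 8 ≤ F) (h2 : F ≤ 1) : NoThree D F :=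
  schaaf (by nlinarith [sq_nonneg (F - 1)]) (schOK_R1 hD h1 h2)

theorem sch_R2 (hD : D ≤ -7 / 2) (h1 : 1 ≤ F) (h2 : F ≤ 5 / 2) : NoThree D F :=
  schaaf (by nlinarith [sq_nonneg (F - 1)]) (schOK_R2 hD h1 h2)

theorem sch_R3 (hF : 4 ≤ F) (h1 : -1 - F / 4 ≤ D) (h2 : D ≤ -1 / 2) : NoThree D F :=
  schaaf (by nlinarith [sq_nonneg (2 * D + 1)]) (schOK_R3 hF h1 h2)

end Pool.Agent.Lib.MP_d6150d_an
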