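import Pool.Agent.Lib.MP_d6150d_an.Sd6
import Pool.Agent.Lib.MP_d6150d_an.Cells

/-! Soundness of the coverings. -/

namespace Pool.Agent.Lib.MP_d6150d_an

set_option maxRecDepth 100000 in
theorem cx_ok : cxOK cX cY cZ 15 7 23 [11, 9, 1] [11, 7, 9] [9, 9, 1] = true := by decide +kernel

theorem allT_chain (f : ℤ → Bx → Bool) : ∀ (l : List Bx) (a : ℤ), allT (chainT f a l) = chain f a l
  | [], _ => rfl
  | x :: l, a => by rw [chainT, allT, chain, allT_chain f l]

theorem allT_last (X : Cx) (e : Env) (T : Tx) (sg : ℤ) (en : ℕ) (p : Piece) :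
    allT (lastT X e T sg en p) = chkLast X e T sg en p := by
  unfold lastT chkLast
  simp only [allT_app, allT_chain, chkRange_eq, Bool.and_assoc]
  congr 2
  congr 1 <;> split_ifs <;> simp only [allT, allT_app, allT_chain, Bool.and_true]

theorem allT_pieces (X : Cx) (e : Env) (T : Tx) (sg : ℤ) (en : ℕ) : ∀ (l : List Piece) (L : TM),
    allT (piecesT X e T sg en L l) = chkPieces X e T sg en L l
  | [], _ => rfl
  | [p], L => by rw [piecesT, chkPieces, allT, allT_last]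
  | p :: q :: l, L => by
    rw [piecesT, chkPieces]
    simp only [allT, allT_app, allT_chain, chkRange_eq, Bool.and_assoc, allT_pieces X e T sg en (q :: l)]

theorem fr.cell {C : Cell} (h : fr C 0) : chkCell cX cY cZ C = true := by
  unfold fr cellT at h
  unfold chkCell
  simpa only [List.drop_zero, allT, allT_pieces, Bool.and_assoc] using h

theorem unit_cover {c h : ℤ} (h0 : 0 < h) {t : ℝ} (h1 : c - h ≤ t * 2 ^ 48) (h2 : t * 2 ^ 48 ≤ c + h) :
    ∃ x : ℝ, |x| ≤ 1 ∧ t = (c + h * x) / 2 ^ 48 := by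
  have h0 : (0 : ℝ) < h := by exact_mod_cast h0
  refine ⟨(t * 2 ^ 48 - c) / h, abs_le.2 ⟨?_, ?_⟩, by field_simp; ring⟩
  · rw [le_div_iff₀ h0]; linarith
  · rw [div_le_iff₀ h0]; linarith

theorem Cov.sound {X : ℤ → ℤ → ℤ → ℤ → Prop} {a b c d : ℤ} (h : Cov X a b c d) {D F : ℝ}
    (hX : ∀ a b c d : ℤ, X a b c d → a ≤ D * 65536 → D * 65536 ≤ b → c ≤ F * 65536 →
      F * 65536 ≤ d → NoThree D F)
    (h1 : a ≤ D * 65536) (h2 : D * 65536 ≤ b) (h3 : c ≤ F * 65536) (h4 : F * 65536 ≤ d) :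
    NoThree D F := by
  induction h with
  | cell C h o7 =>
    obtain ⟨o1, o2, o3, o4, o5, o6⟩ := h
    have o3 := (Int.cast_le (R := ℝ)).2 o3
    have o4 := (Int.cast_le (R := ℝ)).2 o4
    have o5 := (Int.cast_le (R := ℝ)).2 o5
    have o6 := (Int.cast_le (R := ℝ)).2 o6
    push_cast at o3 o4 o5 o6
    obtain ⟨y, hy, e1⟩ := unit_cover (c := C.D0) o1 (t := D) (by linarith) (by linarith)
    obtain ⟨x, hx, e2⟩ := unit_cover (c := C.F0) o2 (t := F) (by linarith) (by linarith)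
    rw [e1, e2]
    exact (chkCell_crit cx_ok o7.cell hx hy).noThree
  | exc h => exact hX _ _ _ _ h h1 h2 h3 h4
  | sD m _ _ i1 i2 =>
    rcases le_total (D * 65536) m with h | h
    exacts [i1 h1 h h3 h4, i2 h h2 h3 h4]
  | sF m _ _ i1 i2 =>
    rcases le_total (F * 65536) m with h | h
    exacts [i1 h1 h2 h3 h, i2 h1 h2 h h4]

end Pool.Agent.Lib.MP_d6150d_an
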