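import Pool.Agent.Lib.MP_d6150d_an.ExA
import Pool.Agent.Lib.MP_d6150d_an.Sd7
import Pool.Agent.Lib.MP_d6150d_an.SchDec
import Pool.Agent.Lib.MP_d6150d_an.SchR

/-! From the coverings of five rectangles to the whole plane. -/

namespace Pool.Agent.Lib.MP_d6150d_an

/-- the union of the strips -/
def StripA (D F : ℝ) : Prop :=
  (|D| ≤ 3 / 32 ∧ 0 ≤ F ∧ F ≤ 1) ∨ (-3 / 32 ≤ D ∧ D ≤ 0 ∧ 1 ≤ F ∧ F ≤ 2) ∨
    (-1 ≤ D ∧ D ≤ -15 / 16 ∧ 0 ≤ F ∧ F ≤ 1) ∨
    (-1 ≤ D ∧ D ≤ 0 ∧ ((0 ≤ F ∧ F ≤ 1 / 16) ∨ |F - 1 / 2| ≤ 1 / 16 ∨ |F - 1| ≤ 1 / 16)) ∨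
    (|D + 1 / 2| ≤ 1 / 16 ∧ 1 / 2 ≤ F ∧ F ≤ 1) ∨
    (-33 / 16 ≤ D ∧ D ≤ -1 ∧ |F - 2| ≤ 1 / 16) ∨
    (-1 ≤ D ∧ D ≤ -1 / 2 ∧ 2 ≤ F ∧ F ≤ 33 / 16) ∨ (-1 / 2 ≤ D ∧ D ≤ 0 ∧ 31 / 16 ≤ F ∧ F ≤ 2) ∨
    (|D + F| ≤ 1 / 16 ∧ 5 / 4 ≤ F ∧ F ≤ 33 / 16) ∨
    (-17 / 16 ≤ D ∧ D ≤ -1 ∧ 1 ≤ F ∧ D + F ≤ 1 / 16) ∨
    (|F - 4 / 3| ≤ 1 / 32 ∧ ((-3 / 16 ≤ D ∧ D ≤ 0) ∨ (-23 / 16 ≤ D ∧ D ≤ -7 / 8)))

variable {D F : ℝ}

theorem exA_strip (hS : ¬SchReg D F) (hT : ¬SchReg2 D F) {a b c d : ℤ} (h : exA a b c d)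
    (h1 : a ≤ D * 65536) (h2 : D * 65536 ≤ b) (h3 : c ≤ F * 65536) (h4 : F * 65536 ≤ d) :
    StripA D F := by
  simp only [SchReg, SchReg2, not_or, not_and, not_le, not_lt] at hS hT
  obtain ⟨s1, s2, -, s4, s5, -⟩ := hS
  obtain ⟨t1, -, -, -, t5⟩ := hT
  have q1 : 0 < D → F < 1 := fun h ↦ lt_of_not_ge fun h' ↦ (s4 h.le h').1.not_gt h
  have q2 : -1 / 2 < D → F ≤ 2 := fun h ↦ le_of_not_gt fun h' ↦ (s5 h.le h'.le).1.not_gt h
  have q3 : -1 / 2 ≤ D → F ≤ 2 := fun h ↦ le_of_not_gt fun h' ↦ (s5 h h'.le).2.not_gt h'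
  have p1 : |D| ≤ 3 / 32 → StripA D F := fun h ↦ by
    have h' := abs_le.1 h
    rcases le_total F 1 with k | k
    · exact .inl ⟨h, s1.le, k⟩
    · exact .inr (.inl ⟨by linarith, le_of_not_gt fun h ↦ (q1 h).not_ge k, k, q2 (by linarith)⟩)
  have p0 : D ≤ 0 → 1 ≤ F → D + F ≤ 1 / 16 → F ≤ 5 / 4 → StripA D F := fun a k b c ↦ by
    have := t5 k c
    rcases le_total (-1) D with m | m
    · exact .inr (.inr (.inr (.inl ⟨m, a, .inr (.inr (abs_le.2 ⟨by linarith, by linarith⟩))⟩)))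
    · exact .inr (.inr (.inr (.inr (.inr (.inr (.inr (.inr (.inr (.inl
        ⟨by linarith, m, k, b⟩)))))))))
  have p2 : D ≤ -15 / 16 → F ≤ 17 / 16 → StripA D F := fun a b ↦ by
    rcases le_total F 1 with k | k
    · exact .inr (.inr (.inl ⟨le_of_not_gt fun h ↦ (s2 h.le).not_ge k, a, s1.le, k⟩))
    rcases le_total (-1) D with m | m
    · exact .inr (.inr (.inr (.inl ⟨m, by linarith, .inr (.inr (abs_le.2
        ⟨by linarith, by linarith⟩))⟩)))
    · exact p0 (by linarith) k (by linarith) (by linarith)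
  have p3 : D ≤ 1 / 16 → F ≤ 17 / 16 →
      ((0 ≤ F ∧ F ≤ 1 / 16) ∨ |F - 1 / 2| ≤ 1 / 16 ∨ |F - 1| ≤ 1 / 16) → StripA D F := fun a b h ↦ by
    rcases le_total D (-1) with m | m
    · exact p2 (by linarith) b
    rcases le_total D 0 with n | n
    · exact .inr (.inr (.inr (.inl ⟨m, n, h⟩)))
    · exact p1 (abs_le.2 ⟨by linarith, by linarith⟩)
  have p4 : -1 ≤ D → D ≤ -1 / 2 → 4 / 3 ≤ F → F ≤ 33 / 16 → StripA D F := fun a b c d ↦
    .inr (.inr (.inr (.inr (.inr (.inr (.inl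
      ⟨a, b, le_of_not_gt fun h ↦ (t1 a b c h.le).2.not_gt h, d⟩))))))
  simp only [exA, ← Int.cast_le (R := ℝ)] at h
  push_cast at h
  rcases h with h | h | ⟨k1, k2, h | h | h⟩ | h | h | h | ⟨k1, k2, h | h⟩ | h | h
  · exact p1 (abs_le.2 ⟨by linarith, by linarith⟩)
  · exact p2 (by linarith) (by linarith)
  · exact p3 (by linarith) (by linarith) (.inl ⟨s1.le, by linarith⟩)
  · exact p3 (by linarith) (by linarith) (.inr (.inl (abs_le.2 ⟨by linarith, by linarith⟩)))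
  · exact p3 (by linarith) (by linarith) (.inr (.inr (abs_le.2 ⟨by linarith, by linarith⟩)))
  · rcases le_total D (-1) with l | l
    · exact .inr (.inr (.inr (.inr (.inr (.inl
        ⟨by linarith, l, abs_le.2 ⟨by linarith, by linarith⟩⟩)))))
    rcases le_total D (-1 / 2) with m | m
    · exact p4 l m (by linarith) (by linarith)
    rcases le_total D 0 with n | n
    · exact .inr (.inr (.inr (.inr (.inr (.inr (.inr (.inl ⟨m, n, by linarith, q3 m⟩)))))))
    · exact p1 (abs_le.2 ⟨by linarith, by linarith⟩)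
  · rcases le_total F (1 / 2) with m | m
    · exact p3 (by linarith) (by linarith) (.inr (.inl (abs_le.2 ⟨by linarith, by linarith⟩)))
    rcases le_total F 1 with n | n
    · exact .inr (.inr (.inr (.inr (.inl ⟨abs_le.2 ⟨by linarith, by linarith⟩, m, n⟩))))
    · exact p3 (by linarith) (by linarith) (.inr (.inr (abs_le.2 ⟨by linarith, by linarith⟩)))
  · rcases le_total F 1 with n | n
    · exact p3 (by linarith) (by linarith) (.inr (.inr (abs_le.2 ⟨by linarith, by linarith⟩)))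
    rcases le_total F (5 / 4) with m | m
    · exact p0 (by linarith) n (by linarith) m
    · exact .inr (.inr (.inr (.inr (.inr (.inr (.inr (.inr (.inl
        ⟨abs_le.2 ⟨by linarith, by linarith⟩, m, by linarith⟩))))))))
  · rcases le_total D 0 with n | n
    · exact .inr (.inr (.inr (.inr (.inr (.inr (.inr (.inr (.inr (.inr
        ⟨abs_le.2 ⟨by linarith, by linarith⟩, .inl ⟨by linarith, n⟩⟩)))))))))
    · exact p1 (abs_le.2 ⟨by linarith, by linarith⟩)
  · exact .inr (.inr (.inr (.inr (.inr (.inr (.inr (.inr (.inr (.inr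
      ⟨abs_le.2 ⟨by linarith, by linarith⟩, .inr ⟨by linarith, by linarith⟩⟩)))))))))
  · exact absurd (t5 (by linarith) (by linarith)) (by linarith)
  · exact p4 (by linarith) (by linarith) (by linarith) (by linarith)

theorem regA_of (c1 : Cov exA (-262144) (-131072) 65536 196608)
    (c2 : Cov exA (-131072) (-65536) 65536 131072) (c3 : Cov exA (-196608) (-65536) 131072 262144)
    (c4 : Cov exA (-65536) (-32768) 131072 262144) (c5 : Cov exA (-65536) 0 65536 131072)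
    (c6 : Cov exA (-65536) 0 0 65536) (c7 : Cov exA 0 65536 0 65536) (h : ¬StripA D F) :
    NoThree D F := by
  by_cases hS : SchReg D F
  · exact hS.noThree
  by_cases hT : SchReg2 D F
  · exact hT.noThree
  have hX : ∀ a b c d : ℤ, exA a b c d → a ≤ D * 65536 → D * 65536 ≤ b → c ≤ F * 65536 →
      F * 65536 ≤ d → NoThree D F := fun a b c d k h1 h2 h3 h4 ↦
    (h (exA_strip hS hT k h1 h2 h3 h4)).elim
  have key : ∀ {a b c d : ℤ}, Cov exA a b c d → (a : ℝ) ≤ D * 65536 → D * 65536 ≤ b →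
      c ≤ F * 65536 → F * 65536 ≤ d → NoThree D F := fun k ↦ k.sound hX
  simp only [SchReg, not_or, not_and, not_le, not_lt] at hS
  obtain ⟨s1, s2, -, s4, s5, s6⟩ := hS
  rcases le_total F 1 with f1 | f1
  · rcases le_total 1 D with d1 | d1
    · exact sch_R1 d1 (by linarith) f1
    have : -1 < D := lt_of_not_ge fun h ↦ (s2 h).not_ge f1
    rcases le_total D 0 with d0 | d0
    · exact key c6 (by push_cast; linarith) (by push_cast; linarith) (by push_cast; linarith)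
        (by push_cast; linarith)
    · exact key c7 (by push_cast; linarith) (by push_cast; linarith) (by push_cast; linarith)
        (by push_cast; linarith)
  have d0 : D ≤ 0 := le_of_not_gt fun h ↦ (s4 h.le f1).1.not_gt h
  rcases le_total F 2 with f2 | f2
  · rcases le_total (-1) D with d1 | d1
    · exact key c5 (by push_cast; linarith) (by push_cast; linarith) (by push_cast; linarith)
        (by push_cast; linarith)
    rcases le_total (-2) D with d2 | d2
    · exact key c2 (by push_cast; linarith) (by push_cast; linarith) (by push_cast; linarith)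
        (by push_cast; linarith)
    rcases le_total D (-7 / 2) with d3 | d3
    · exact sch_R2 d3 f1 (by linarith)
    · exact key c1 (by push_cast; linarith) (by push_cast; linarith) (by push_cast; linarith)
        (by push_cast; linarith)
  have d5 : D ≤ -1 / 2 := le_of_not_gt fun h ↦ (s5 h.le f2).1.not_gt h
  rcases le_total 4 F with f4 | f4
  · exact sch_R3 f4 (le_of_not_gt fun h ↦ (s6 h.le).1.not_ge f4) d5
  rcases le_total (-1) D with d1 | d1
  · exact key c4 (by push_cast; linarith) (by push_cast; linarith) (by push_cast; linarith)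
      (by push_cast; linarith)
  rcases le_total (-3) D with d2 | d2
  · exact key c3 (by push_cast; linarith) (by push_cast; linarith) (by push_cast; linarith)
      (by push_cast; linarith)
  have f5 : F < 5 / 2 := lt_of_not_ge fun h ↦ ((s6 (by linarith)).2 h).not_ge d2
  rcases le_total D (-7 / 2) with d3 | d3
  · exact sch_R2 d3 f1 f5.le
  · exact key c1 (by push_cast; linarith) (by push_cast; linarith) (by push_cast; linarith)
      (by push_cast; linarith)

end Pool.Agent.Lib.MP_d6150d_an
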