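import Pool.Agent.Lib.MP_d6150d_an.GDef

/-! A generated chart: the program. -/

namespace Pool.Agent.Lib.MP_d6150d_an.S10Be

def prog8 : List Ins := .add false 10 0 :: .cpy 0 :: .cpy 86 :: []

def prog7 : List Ins := .smul 63118 345 :: .add false 1 0 :: .smul 116938 188 :: .sub false 1 0 ::
    .smul 63392 187 :: .sub false 1 0 :: .smul 1676 186 :: .add false 1 0 :: .int 88324 :: .smul
    75305 346 :: .add false 1 0 :: .smul 81141 356 :: .sub false 1 0 :: .smul 199363 199 :: .add
    false 1 0 :: .smul 62194 198 :: .add false 1 0 :: .smul 4457 197 :: .sub false 1 0 :: .int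
    (-28705) :: .smul 77499 357 :: .sub false 1 0 :: .smul 43055 367 :: .add false 1 0 :: .smul
    91826 210 :: .sub false 1 0 :: .smul 22014 209 :: .sub false 1 0 :: .smul 1475 208 :: .add true
    1 0 :: .mul 301 0 :: .add true 12 0 :: .mul 303 0 :: .add true 25 0 :: .mul 305 0 :: .add true
    38 0 :: .mul 307 0 :: .add true 51 0 :: .mul 309 0 :: .add false 68 0 :: .smul 2 96 :: .smul 4
    90 :: .smul 6 85 :: .mul 314 0 :: .add true 2 0 :: .mul 316 0 :: .add true 5 0 :: .mul 319 0 ::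
    .add false 84 0 :: .mul 183 0 :: prog8

def prog6 : List Ins := .add false 1 0 :: .sub false 5 0 :: .int (-1244) :: .smul 15357 290 :: .sub
    false 1 0 :: .smul 1371 300 :: .sub true 1 0 :: .smul (-1) 0 :: .mul 229 0 :: .add true 7 0 ::
    .mul 231 0 :: .add true 16 0 :: .mul 233 0 :: .add true 92 0 :: .mul 98 0 :: .add false 100 0 ::
    .smul 2 162 :: .add false 272 0 :: .smul 2 180 :: .add true 1 0 :: .mul 288 0 :: .smul 4 167 ::
    .add false 213 0 :: .add false 0 36 :: .add true 0 36 :: .mul 219 0 :: .smul 3 172 :: .sub false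
    195 0 :: .smul 3 190 :: .sub false 1 0 :: .smul 4 36 :: .add false 1 0 :: .smul 4 76 :: .add
    true 1 0 :: .mul 302 0 :: .add false 9 0 :: .int (-199949) :: .smul 199877 324 :: .add false 1 0
    :: .smul 81303 334 :: .sub false 1 0 :: .smul 25892 177 :: .sub false 1 0 :: .smul 20552 176 ::
    .add false 1 0 :: .smul 4508 175 :: .add false 1 0 :: .int 164258 :: .smul 198610 335 :: .sub
    false 1 0 :: prog7

def prog5 : List Ins := .sub false 21 0 :: .int 36391 :: .smul 47592 239 :: .add false 1 0 :: .smul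
    99994 249 :: .add false 1 0 :: .smul (-4) 0 :: .int 99861 :: .smul 70414 245 :: .add false 1 0
    :: .smul 76554 255 :: .sub false 1 0 :: .smul 2 0 :: .add false 6 0 :: .int 8332 :: .smul 12407
    252 :: .add false 1 0 :: .smul 37731 262 :: .add false 1 0 :: .smul 3 0 :: .sub false 6 0 ::
    .add true 0 119 :: .mul 139 0 :: .cst 1 36 :: .sub false 272 255 :: .smul 10 179 :: .add false 1
    0 :: .smul 4 270 :: .smul 10 259 :: .add false 1 0 :: .int 5 :: .sub true 1 0 :: .mul 275 0 ::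
    .add true 6 0 :: .mul 10 0 :: .mul 0 254 :: .smul 8 148 :: .smul 8 143 :: .add false 1 0 ::
    .smul 6 138 :: .sub true 1 0 :: .mul 5 0 :: .mul 159 0 :: .sub false 20 0 :: .sub false 43 0 ::
    .smul 15 69 :: .int 21359 :: .smul 54107 284 :: .sub false 1 0 :: .smul 89159 294 :: prog6

def prog4 : List Ins := .add false 1 0 :: .smul 231 34 :: .sub false 1 0 :: .smul 14783 33 :: .sub
    true 1 0 :: .mul 126 0 :: .add true 12 0 :: .mul 128 0 :: .add true 25 0 :: .mul 130 0 :: .add
    true 38 0 :: .mul 132 0 :: .add true 54 0 :: .mul 134 0 :: .add false 168 0 :: .mul 145 185 ::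
    .smul (-1) 101 :: .add false 0 180 :: .sub false 0 95 :: .sub false 0 89 :: .sub false 0 66 ::
    .int (-441) :: .smul 469 209 :: .sub false 1 0 :: .smul 83 219 :: .sub false 1 0 :: .smul (-3) 0
    :: .smul 3 112 :: .add false 1 0 :: .smul 3 222 :: .sub true 149 0 :: .mul 0 204 :: .mul 0 202
    :: .add false 196 118 :: .add false 0 8 :: .int 1090 :: .smul 20 223 :: .add false 1 0 :: .smul
    528 233 :: .add false 1 0 :: .smul 4 0 :: .add true 6 0 :: .mul 9 0 :: .smul (-1) 206 :: .smul 2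
    18 :: .add false 1 0 :: .sub false 0 203 :: .sub false 0 124 :: .add false 5 0 :: .smul 3 0 ::
    prog5

def prog3 : List Ins := .add false 1 0 :: .smul 3 0 :: .sub true 6 0 :: .mul 20 0 :: .sub false 22 0
    :: .sub true 0 17 :: .mul 124 0 :: .add false 47 0 :: .int (-15438) :: .smul 18791 146 :: .add
    false 1 0 :: .smul 19269 156 :: .sub false 1 0 :: .mul 150 150 :: .smul 5913 0 :: .add false 2 0
    :: .mul 153 161 :: .smul 4114 0 :: .sub false 2 0 :: .mul 164 164 :: .smul 4251 0 :: .add false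
    2 0 :: .int 63917 :: .smul 70900 160 :: .add false 1 0 :: .smul 1407 170 :: .sub false 1 0 ::
    .smul 52262 13 :: .add false 1 0 :: .smul 24884 12 :: .add false 1 0 :: .smul 16968 11 :: .sub
    false 1 0 :: .int (-4687) :: .smul 140023 171 :: .sub false 1 0 :: .smul 13356 181 :: .add false
    1 0 :: .smul 191365 24 :: .sub false 1 0 :: .smul 27603 23 :: .sub false 1 0 :: .smul 25866 22
    :: .add false 1 0 :: .int 634 :: .smul 52899 182 :: .add false 1 0 :: .smul 6675 192 :: .sub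
    false 1 0 :: .smul 113524 35 :: prog4

def prog2 : List Ins := .add true 1 0 :: .mul 5 0 :: .sub true 7 0 :: .mul 23 0 :: .mul 73 73 ::
    .mul 1 0 :: .smul 108 69 :: .smul 12 64 :: .add true 1 0 :: .mul 3 0 :: .int 1439 :: .smul 2344
    98 :: .add false 1 0 :: .smul 103 108 :: .sub false 1 0 :: .smul 27 0 :: .smul 27 79 :: .sub
    false 1 0 :: .int 25916 :: .smul 15809 106 :: .sub false 1 0 :: .smul 16805 116 :: .sub false 1
    0 :: .smul 9 0 :: .add false 6 0 :: .int (-99999) :: .smul 17074 113 :: .sub false 1 0 :: .smul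
    52258 123 :: .add false 1 0 :: .smul 3 0 :: .add false 6 0 :: .cst 1 8 :: .int (-80605) :: .smul
    99981 121 :: .add false 1 0 :: .smul 99997 131 :: .add false 1 0 :: .smul (-4) 0 :: .int 57722
    :: .smul 38975 127 :: .sub false 1 0 :: .smul 57675 137 :: .sub false 1 0 :: .smul 2 0 :: .add
    false 6 0 :: .int (-87027) :: .smul 99988 134 :: .sub false 1 0 :: .smul 1937 144 :: prog3

def prog1 : List Ins := .smul (-1) 0 :: .exp 0 :: .var 3 :: .mul 1 0 :: .mul 47 26 :: .smul 2 0 ::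
    .add true 54 36 :: .int 3 :: .sub true 0 33 :: .mul 12 0 :: .smul (-1) 0 :: .exp 0 :: .var 2 ::
    .mul 1 0 :: .mul 0 10 :: .mul 8 0 :: .mul 10 0 :: .mul 40 48 :: .sub false 1 0 :: .mul 43 41 ::
    .add true 68 51 :: .mul 6 6 :: .mul 1 0 :: .mul 3 0 :: .sub false 5 0 :: .inv 51 :: .mul 1 0 ::
    .mul 23 0 :: .sub false 76 0 :: .cst 1 1080 :: .int 4 :: .smul 57 74 :: .sub false 1 0 :: .smul
    6 64 :: .sub false 1 0 :: .smul 156 78 :: .smul 102 67 :: .add false 1 0 :: .smul 103 81 ::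
    .smul 312 70 :: .add true 1 0 :: .mul 84 0 :: .sub true 4 0 :: .mul 86 0 :: .add false 9 0 ::
    .mul 76 76 :: .int 60 :: .smul 480 90 :: .add false 1 0 :: .smul 320 80 :: prog2

def prog : List Ins := .cst 1 6 :: .int 1 :: .cst 4 3 :: .cst 1 32 :: .var 1 :: .mul 1 0 :: .add
    false 3 0 :: .sub false 5 0 :: .cst (-103) 96 :: .cst (-1) 64 :: .mul 0 5 :: .add false 2 0 ::
    .var 0 :: .cst 19 96 :: .cst 1 64 :: .mul 0 10 :: .add false 2 0 :: .mul 4 0 :: .add true 6 0 ::
    .smul 2 0 :: .sub true 12 0 :: .mul 20 0 :: .sub false 15 3 :: .sub true 0 21 :: .smul 2 17 ::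
    .sub true 0 23 :: .mul 19 0 :: .sub true 20 25 :: .mul 1 0 :: .inv 0 :: .mul 6 0 :: .mul 9 0 ::
    .int 1644 :: .smul 531 20 :: .sub false 1 0 :: .smul 1077 30 :: .sub false 1 0 :: .smul (-14) 0
    :: .int (-32908) :: .smul 2430 26 :: .add false 1 0 :: .smul 16727 36 :: .add false 1 0 :: .smul
    2 0 :: .sub true 6 0 :: .mul 13 0 :: .int 8 :: .int 2 :: .sub true 23 0 :: .mul 2 0 :: prog1

def vs : List Vr := [⟨3, 0, false, false⟩, ⟨3, 0, false, false⟩, ⟨1, 0, false, false⟩, ⟨1, 0, false,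
    false⟩]

def C : Chart := ⟨vs, prog, [], 2, 3⟩

end Pool.Agent.Lib.MP_d6150d_an.S10Be
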