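import Pool.Agent.Lib.MP_d6150d_an.GDef

/-! A generated chart: the program. -/

namespace Pool.Agent.Lib.MP_d6150d_an.S10Bg

def prog2 : List Ins := .add false 15 0 :: .smul (-1) 0 :: .cst (-103) 96 :: .cst (-1) 64 :: .mul 0
    99 :: .add false 2 0 :: .cst 19 96 :: .cst 1 64 :: .mul 0 103 :: .add false 2 0 :: .mul 108 0 ::
    .add true 5 0 :: .mul 58 0 :: .mul 60 57 :: .add true 62 2 :: .cst 967 1000 :: .cst (-129) 2500
    :: .mul 0 112 :: .add false 2 0 :: .cst (-711) 5000 :: .cst 213 5000 :: .mul 0 119 :: .add false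
    2 0 :: .cst 1 500 :: .mul 0 119 :: .add true 2 0 :: .mul 124 0 :: .add true 8 0 :: .exp 0 ::
    .mul 0 0 :: .mul 15 0 :: .mul 17 0 :: .add false 19 0 :: .mul 85 77 :: .smul 2 0 :: .smul 2 23
    :: .add true 84 0 :: .mul 0 8 :: .mul 3 0 :: .sub false 6 0 :: .cpy 0 :: .cpy 75 :: .cpy 40 ::
    .cpy 121 :: []

def prog1 : List Ins := .smul 2 2 :: .int 1 :: .sub true 1 0 :: .mul 5 0 :: .mul 4 0 :: .sub true 7
    3 :: .mul 2 0 :: .inv 0 :: .mul 3 0 :: .add false 52 46 :: .add false 0 42 :: .int 1090 :: .smul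
    20 60 :: .add false 1 0 :: .smul 528 59 :: .add false 1 0 :: .smul 4 0 :: .add true 6 0 :: .mul
    9 0 :: .smul (-1) 62 :: .smul 2 52 :: .add false 1 0 :: .sub false 0 34 :: .sub false 0 30 ::
    .add false 5 0 :: .add false 50 0 :: .smul (-4) 58 :: .mul 69 0 :: .add true 2 0 :: .mul 71 0 ::
    .add true 37 0 :: .mul 73 0 :: .add false 44 0 :: .add true 50 0 :: .mul 61 0 :: .smul (-16) 78
    :: .smul 4 48 :: .sub false 1 0 :: .int (-99999) :: .smul 17074 87 :: .sub false 1 0 :: .smul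
    52258 86 :: .add false 1 0 :: .smul (-3) 75 :: .mul 86 0 :: .add true 20 0 :: .mul 88 0 :: .add
    true 4 0 :: .mul 90 0 :: .add false 11 0 :: prog2

def prog : List Ins := .int 1644 :: .var 0 :: .smul 531 0 :: .sub false 2 0 :: .var 1 :: .smul 1077
    0 :: .sub false 2 0 :: .var 2 :: .int 1439 :: .smul 2344 7 :: .add false 1 0 :: .smul 103 6 ::
    .sub false 1 0 :: .int (-441) :: .smul 469 12 :: .sub false 1 0 :: .smul 83 11 :: .sub true 1 0
    :: .mul 10 0 :: .add true 6 0 :: .mul 12 0 :: .add false 14 0 :: .int 12 :: .sub false 10 16 ::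
    .sub false 6 11 :: .smul (-1) 7 :: .mul 18 0 :: .add true 2 0 :: .mul 20 0 :: .add true 5 0 ::
    .mul 22 0 :: .add true 24 0 :: .mul 9 0 :: .int (-32908) :: .smul 2430 32 :: .add false 1 0 ::
    .smul 16727 31 :: .add false 1 0 :: .int 25916 :: .smul 15809 37 :: .sub false 1 0 :: .smul
    16805 36 :: .sub false 1 0 :: .int 4 :: .cst 4 3 :: .cst 1 32 :: .mul 0 41 :: .add false 2 0 ::
    .smul 3 0 :: .sub true 5 0 :: prog1

def vs : List Vr := [⟨3, 0, false, false⟩, ⟨3, 0, false, false⟩, ⟨3, 0, false, false⟩]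

def C : Chart := ⟨vs, prog, [], 4, 3⟩

end Pool.Agent.Lib.MP_d6150d_an.S10Bg
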