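import Pool.Agent.Lib.MP_d6150d_an.GDef

/-! A generated chart: the program. -/

namespace Pool.Agent.Lib.MP_d6150d_an.S10Bl

def prog12 : List Ins := .add false 1 0 :: .smul 4457 173 :: .sub false 1 0 :: .int (-28705) ::
    .smul 77499 584 :: .sub false 1 0 :: .smul 43055 610 :: .add false 1 0 :: .smul 91826 186 ::
    .sub false 1 0 :: .smul 22014 185 :: .sub false 1 0 :: .smul 1475 184 :: .add true 1 0 :: .mul
    555 0 :: .add true 12 0 :: .mul 557 0 :: .add true 25 0 :: .mul 559 0 :: .add true 38 0 :: .mul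
    561 0 :: .add true 51 0 :: .mul 563 0 :: .add false 67 0 :: .add true 0 71 :: .mul 580 0 :: .sub
    true 73 0 :: .mul 327 0 :: .add false 84 0 :: .cpy 0 :: .cpy 152 :: []

def prog11 : List Ins := .mul 490 0 :: .add true 182 0 :: .mul 250 0 :: .add false 296 28 :: .add
    true 0 47 :: .mul 180 0 :: .smul 4 243 :: .add false 153 0 :: .add false 0 216 :: .add true 0
    216 :: .mul 159 0 :: .smul 3 248 :: .sub false 150 0 :: .smul 3 295 :: .sub false 1 0 :: .smul 4
    216 :: .add false 1 0 :: .add true 0 40 :: .mul 193 0 :: .add false 8 0 :: .int (-199949) ::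
    .smul 199877 551 :: .add false 1 0 :: .smul 81303 577 :: .sub false 1 0 :: .smul 25892 153 ::
    .sub false 1 0 :: .smul 20552 152 :: .add false 1 0 :: .smul 4508 151 :: .add false 1 0 :: .int
    164258 :: .smul 198610 562 :: .sub false 1 0 :: .smul 63118 588 :: .add false 1 0 :: .smul
    116938 164 :: .sub false 1 0 :: .smul 63392 163 :: .sub false 1 0 :: .smul 1676 162 :: .add
    false 1 0 :: .int 88324 :: .smul 75305 573 :: .add false 1 0 :: .smul 81141 599 :: .sub false 1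
    0 :: .smul 199363 175 :: .add false 1 0 :: .smul 62194 174 :: prog12

def prog10 : List Ins := .add true 303 0 :: .mul 0 388 :: .mul 0 300 :: .add true 16 0 :: .mul 455 0
    :: .smul 4 281 :: .smul 2 238 :: .add false 1 0 :: .smul 6 273 :: .smul 2 230 :: .add false 1 0
    :: .smul 8 269 :: .smul 2 227 :: .add true 1 0 :: .mul 455 0 :: .add true 4 0 :: .mul 457 0 ::
    .add true 9 0 :: .mul 458 0 :: .add true 270 0 :: .mul 0 417 :: .mul 0 270 :: .add true 17 0 ::
    .mul 474 0 :: .smul 2 211 :: .add false 18 0 :: .smul 4 247 :: .smul 2 178 :: .add false 1 0 ::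
    .smul 6 244 :: .smul 2 174 :: .add false 1 0 :: .smul 2 170 :: .mul 474 0 :: .add true 2 0 ::
    .mul 476 0 :: .add true 7 0 :: .mul 478 0 :: .add true 12 0 :: .mul 479 0 :: .add true 248 0 ::
    .mul 0 248 :: .add true 18 0 :: .mul 494 0 :: .smul 4 188 :: .smul 6 183 :: .mul 487 0 :: .add
    true 2 0 :: .mul 489 0 :: .add true 21 0 :: prog11

def prog9 : List Ins := .smul 25866 22 :: .add false 1 0 :: .int 634 :: .smul 52899 433 :: .add
    false 1 0 :: .smul 6675 459 :: .sub false 1 0 :: .smul 113524 35 :: .add false 1 0 :: .smul 231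
    34 :: .sub false 1 0 :: .smul 14783 33 :: .sub true 1 0 :: .mul 404 0 :: .add true 12 0 :: .mul
    406 0 :: .add true 25 0 :: .mul 408 0 :: .add true 38 0 :: .mul 410 0 :: .add true 54 0 :: .mul
    412 0 :: .add false 96 0 :: .add true 0 103 :: .mul 429 0 :: .sub true 105 0 :: .mul 176 0 ::
    .add false 181 0 :: .smul 2 321 :: .smul 2 292 :: .mul 421 0 :: .add true 2 0 :: .mul 422 0 ::
    .add true 401 0 :: .mul 424 0 :: .mul 0 436 :: .mul 0 353 :: .add false 142 178 :: .smul 8 301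
    :: .smul 8 332 :: .sub false 1 0 :: .add false 0 170 :: .smul (-10) 305 :: .smul 2 251 :: .add
    true 1 0 :: .mul 436 0 :: .add true 4 0 :: .mul 438 0 :: .add true 10 0 :: .mul 439 0 :: prog10

def prog8 : List Ins := .mul 1 0 :: .smul 108 336 :: .smul 12 262 :: .add true 1 0 :: .mul 3 0 ::
    .smul 27 334 :: .smul 27 341 :: .sub false 1 0 :: .smul 9 258 :: .add false 1 0 :: .smul 3 193
    :: .add false 1 0 :: .sub false 0 99 :: .sub true 0 145 :: .mul 39 0 :: .add false 10 0 :: .int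
    (-15438) :: .smul 18791 397 :: .add false 1 0 :: .smul 19269 423 :: .sub false 1 0 :: .mul 401
    401 :: .smul 5913 0 :: .add false 2 0 :: .mul 404 428 :: .smul 4114 0 :: .sub false 2 0 :: .mul
    431 431 :: .smul 4251 0 :: .add false 2 0 :: .int 63917 :: .smul 70900 411 :: .add false 1 0 ::
    .smul 1407 437 :: .sub false 1 0 :: .smul 52262 13 :: .add false 1 0 :: .smul 24884 12 :: .add
    false 1 0 :: .smul 16968 11 :: .sub false 1 0 :: .int (-4687) :: .smul 140023 422 :: .sub false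
    1 0 :: .smul 13356 448 :: .add false 1 0 :: .smul 191365 24 :: .sub false 1 0 :: .smul 27603 23
    :: .sub false 1 0 :: prog9

def prog7 : List Ins := .smul 15 273 :: .int 21359 :: .smul 54107 332 :: .sub false 1 0 :: .smul
    89159 358 :: .add false 1 0 :: .sub false 5 0 :: .int (-1244) :: .smul 15357 338 :: .sub false 1
    0 :: .smul 1371 364 :: .sub true 1 0 :: .smul (-1) 0 :: .mul 304 0 :: .add true 7 0 :: .mul 306
    0 :: .add true 16 0 :: .mul 308 0 :: .add true 54 0 :: .mul 67 0 :: .cst 1 6 :: .sub false 363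
    373 :: .sub true 0 284 :: .mul 2 0 :: .mul 0 34 :: .mul 0 118 :: .cst 1 1080 :: .smul 57 379 ::
    .sub false 282 0 :: .smul 6 353 :: .sub false 1 0 :: .smul 156 383 :: .smul 102 356 :: .add
    false 1 0 :: .smul 103 386 :: .smul 312 359 :: .add true 1 0 :: .mul 389 0 :: .sub true 4 0 ::
    .mul 391 0 :: .add false 9 0 :: .int 60 :: .smul 480 394 :: .add false 1 0 :: .smul 320 368 ::
    .add true 1 0 :: .mul 67 0 :: .sub true 6 0 :: .mul 21 0 :: .mul 59 59 :: prog8

def prog6 : List Ins := .mul 291 248 :: .mul 0 138 :: .smul (-1) 231 :: .add false 0 238 :: .sub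
    false 0 154 :: .sub false 0 88 :: .cst 1 8 :: .smul (-4) 39 :: .smul 2 84 :: .add false 1 0 ::
    .smul 3 153 :: .sub true 1 0 :: .mul 5 0 :: .sub false 7 0 :: .smul (-3) 237 :: .smul 3 244 ::
    .add false 1 0 :: .smul 3 137 :: .sub false 1 0 :: .smul (-4) 40 :: .smul 2 85 :: .add false 1 0
    :: .smul 3 135 :: .sub false 1 0 :: .add true 0 13 :: .mul 18 0 :: .cst 1 36 :: .sub false 319
    301 :: .mul 302 302 :: .smul 10 0 :: .add false 2 0 :: .smul 4 333 :: .smul 10 306 :: .add false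
    1 0 :: .int 5 :: .sub true 1 0 :: .mul 338 0 :: .add true 6 0 :: .mul 11 0 :: .mul 284 176 ::
    .mul 1 0 :: .smul 8 73 :: .smul 8 118 :: .add false 1 0 :: .smul 6 187 :: .sub true 1 0 :: .mul
    5 0 :: .mul 40 0 :: .sub false 22 0 :: .sub false 30 0 :: prog7

def prog5 : List Ins := .mul 48 48 :: .mul 1 0 :: .add true 47 0 :: .mul 204 0 :: .smul (-14) 189 ::
    .smul 2 115 :: .sub true 1 0 :: .smul 28 186 :: .smul 28 193 :: .sub false 1 0 :: .smul 10 110
    :: .add false 1 0 :: .add false 0 44 :: .int (-80605) :: .smul 99981 244 :: .add false 1 0 ::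
    .smul 99997 270 :: .add false 1 0 :: .sub false 5 0 :: .smul 48 192 :: .smul 48 199 :: .sub
    false 1 0 :: .smul 18 92 :: .add false 1 0 :: .int 36391 :: .smul 47592 255 :: .add false 1 0 ::
    .smul 99994 281 :: .add false 1 0 :: .sub false 5 0 :: .smul (-120) 203 :: .int (-76479) ::
    .smul 94591 262 :: .add false 1 0 :: .sub false 0 6 :: .sub true 4 0 :: .mul 227 0 :: .add true
    7 0 :: .mul 229 0 :: .add true 20 0 :: .mul 231 0 :: .add true 34 0 :: .mul 41 90 :: .mul 1 0 ::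
    .add true 40 0 :: .mul 246 0 :: .mul 94 95 :: .mul 0 0 :: .mul 0 97 :: .mul 0 241 :: prog6

def prog4 : List Ins := .mul 159 0 :: .mul 0 0 :: .mul 4 0 :: .add false 69 0 :: .mul 155 0 :: .smul
    68 140 :: .add false 0 65 :: .smul 160 136 :: .smul 160 143 :: .sub false 1 0 :: .smul 28 60 ::
    .add false 1 0 :: .int (-99999) :: .smul 17074 193 :: .sub false 1 0 :: .smul 52258 219 :: .add
    false 1 0 :: .smul 4 0 :: .add false 6 0 :: .int 57722 :: .smul 38975 200 :: .sub false 1 0 ::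
    .smul 57675 226 :: .sub false 1 0 :: .sub false 5 0 :: .smul 216 148 :: .smul 216 155 :: .sub
    false 1 0 :: .smul 36 48 :: .add false 1 0 :: .int 99861 :: .smul 70414 211 :: .add false 1 0 ::
    .smul 76554 237 :: .sub false 1 0 :: .sub false 5 0 :: .smul (-360) 159 :: .int (-83396) ::
    .smul 70528 218 :: .sub false 1 0 :: .smul 99995 244 :: .add false 1 0 :: .sub true 5 0 :: .mul
    184 0 :: .add true 8 0 :: .mul 186 0 :: .add true 21 0 :: .mul 188 0 :: .add true 41 0 :: .mul 0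
    146 :: prog5

def prog3 : List Ins := .smul 8 0 :: .add false 6 0 :: .int (-87027) :: .smul 99988 133 :: .sub
    false 1 0 :: .smul 1937 159 :: .add false 1 0 :: .sub false 5 0 :: .smul 128 81 :: .smul 128 88
    :: .sub false 1 0 :: .mul 63 110 :: .inv 109 :: .mul 1 0 :: .add false 99 93 :: .add false 0 88
    :: .int 1090 :: .smul 20 147 :: .add false 1 0 :: .smul 528 173 :: .add false 1 0 :: .smul 4 0
    :: .add true 6 0 :: .mul 9 0 :: .smul (-1) 109 :: .smul 2 98 :: .add false 1 0 :: .sub false 0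
    37 :: .sub false 0 28 :: .add false 5 0 :: .smul 8 0 :: .add false 20 0 :: .int 8332 :: .smul
    12407 163 :: .add false 1 0 :: .smul 37731 189 :: .add true 1 0 :: .sub false 5 0 :: .add false
    0 31 :: .smul (-160) 112 :: .add true 0 3 :: .mul 132 0 :: .add true 3 0 :: .mul 134 0 :: .add
    true 36 0 :: .mul 136 0 :: .add true 54 0 :: .mul 0 84 :: .mul 113 158 :: .sub false 0 173 ::
    prog4

def prog2 : List Ins := .smul 2 13 :: .sub true 0 11 :: .sub false 2 0 :: .mul 5 0 :: .mul 5 2 ::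
    .smul 4 18 :: .sub true 0 16 :: .sub true 2 0 :: .add true 4 0 :: .mul 17 0 :: .mul 8 7 :: .smul
    3 0 :: .sub false 2 0 :: .mul 18 0 :: .smul 3 6 :: .sub true 6 0 :: .mul 14 0 :: .mul 19 9 ::
    .mul 19 11 :: .smul 8 32 :: .sub false 0 30 :: .sub false 2 0 :: .add true 4 0 :: .mul 31 0 ::
    .add false 7 0 :: .mul 18 22 :: .smul 3 0 :: .sub false 2 0 :: .add true 14 0 :: .mul 37 0 ::
    .mul 28 17 :: .smul 5 0 :: .sub false 2 0 :: .mul 49 0 :: .smul 104 69 :: .int (-32908) :: .smul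
    2430 116 :: .add false 1 0 :: .smul 16727 142 :: .add false 1 0 :: .smul 8 0 :: .add false 6 0
    :: .smul 112 71 :: .smul 112 78 :: .sub false 1 0 :: .int 25916 :: .smul 15809 126 :: .sub false
    1 0 :: .smul 16805 152 :: .sub false 1 0 :: prog3

def prog1 : List Ins := .mul 52 41 :: .sub true 53 43 :: .mul 1 0 :: .sub false 55 27 :: .sub true 0
    46 :: .inv 0 :: .mul 3 0 :: .mul 7 0 :: .mul 56 0 :: .sub true 51 0 :: .int 1644 :: .smul 531 41
    :: .sub false 1 0 :: .smul 1077 67 :: .sub false 1 0 :: .smul 16 0 :: .int 1439 :: .smul 2344 47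
    :: .add false 1 0 :: .smul 103 73 :: .sub false 1 0 :: .smul 16 0 :: .int (-441) :: .smul 469 53
    :: .sub false 1 0 :: .smul 83 79 :: .sub true 1 0 :: .smul 16 0 :: .mul 19 0 :: .add true 7 0 ::
    .mul 21 0 :: .add true 15 0 :: .mul 22 0 :: .mul 0 34 :: .add true 76 58 :: .mul 45 45 :: .mul 1
    0 :: .smul 2 61 :: .add true 80 0 :: .mul 0 49 :: .sub false 3 0 :: .add true 0 65 :: .int 6 ::
    .smul 5 95 :: .sub true 1 0 :: .int 4 :: .smul 3 98 :: .sub true 1 0 :: .sub true 69 100 :: .mul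
    0 7 :: prog2

def prog : List Ins := .cst 1 2 :: .cst 4 3 :: .cst 1 32 :: .var 1 :: .mul 1 0 :: .add false 3 0 ::
    .smul 2 0 :: .int (-1) :: .var 2 :: .mul 1 0 :: .mul 3 0 :: .tri 0 :: .mul 7 0 :: .int 1 :: .sub
    true 9 0 :: .mul 0 7 :: .tri 0 :: .mul 4 0 :: .sub false 7 0 :: .cst (-103) 96 :: .cst (-1) 64
    :: .mul 0 21 :: .add false 2 0 :: .var 0 :: .cst 19 96 :: .cst 1 64 :: .mul 0 26 :: .add false 2
    0 :: .mul 4 0 :: .add true 6 0 :: .smul 2 12 :: .sub false 20 0 :: .int 2 :: .sub true 30 0 ::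
    .mul 0 28 :: .tri 0 :: .mul 4 0 :: .add true 7 0 :: .mul 10 0 :: .add true 22 0 :: .smul 2 0 ::
    .tri 37 :: .mul 44 40 :: .smul (-1) 0 :: .exp 0 :: .mul 5 0 :: .mul 0 0 :: .mul 8 0 :: .mul 55 0
    :: .mul 47 10 :: prog1

def vs : List Vr := [⟨4, 0, false, false⟩, ⟨3, 0, false, false⟩, ⟨8, 4, false, false⟩]

def C : Chart := ⟨vs, prog, [], 2, 3⟩

end Pool.Agent.Lib.MP_d6150d_an.S10Bl
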