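import Pool.Agent.Lib.MP_d6150d_an.GDef

/-! A generated chart: the program. -/

namespace Pool.Agent.Lib.MP_d6150d_an.S10Bm

def prog12 : List Ins := .sub false 1 0 :: .smul 1475 238 :: .add true 1 0 :: .mul 547 0 :: .add
    true 12 0 :: .mul 549 0 :: .add true 25 0 :: .mul 551 0 :: .add true 38 0 :: .mul 553 0 :: .add
    true 51 0 :: .mul 555 0 :: .add false 67 0 :: .smul 4 159 :: .smul 6 154 :: .mul 559 0 :: .add
    true 2 0 :: .mul 561 0 :: .add true 93 0 :: .mul 564 0 :: .add true 153 0 :: .mul 212 0 :: .add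
    true 9 0 :: .mul 326 0 :: .mul 377 2 :: .sub true 1 0 :: .mul 331 0 :: .add false 85 0 :: .cpy 0
    :: .cpy 155 :: []

def prog11 : List Ins := .smul 3 203 :: .sub false 211 0 :: .smul 3 291 :: .sub false 1 0 :: .smul 4
    107 :: .add false 1 0 :: .add true 0 32 :: .mul 255 0 :: .add false 8 0 :: .int (-199949) ::
    .smul 199877 549 :: .add false 1 0 :: .smul 81303 558 :: .sub false 1 0 :: .smul 25892 207 ::
    .sub false 1 0 :: .smul 20552 206 :: .add false 1 0 :: .smul 4508 205 :: .add false 1 0 :: .int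
    164258 :: .smul 198610 560 :: .sub false 1 0 :: .smul 63118 569 :: .add false 1 0 :: .smul
    116938 218 :: .sub false 1 0 :: .smul 63392 217 :: .sub false 1 0 :: .smul 1676 216 :: .add
    false 1 0 :: .int 88324 :: .smul 75305 571 :: .add false 1 0 :: .smul 81141 580 :: .sub false 1
    0 :: .smul 199363 229 :: .add false 1 0 :: .smul 62194 228 :: .add false 1 0 :: .smul 4457 227
    :: .sub false 1 0 :: .int (-28705) :: .smul 77499 582 :: .sub false 1 0 :: .smul 43055 591 ::
    .add false 1 0 :: .smul 91826 240 :: .sub false 1 0 :: .smul 22014 239 :: prog12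

def prog10 : List Ins := .mul 442 0 :: .smul 4 286 :: .smul 2 241 :: .add false 1 0 :: .smul 6 278
    :: .smul 2 233 :: .add false 1 0 :: .smul 8 274 :: .smul 2 230 :: .add true 1 0 :: .mul 454 0 ::
    .add true 4 0 :: .mul 456 0 :: .add true 9 0 :: .mul 459 0 :: .add true 275 0 :: .mul 480 0 ::
    .mul 0 421 :: .mul 0 275 :: .add true 18 0 :: .mul 462 0 :: .smul 2 174 :: .add false 19 0 ::
    .smul 4 251 :: .smul 2 77 :: .add false 1 0 :: .smul 6 248 :: .smul 2 73 :: .add false 1 0 ::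
    .smul 2 69 :: .mul 474 0 :: .add true 2 0 :: .mul 476 0 :: .add true 7 0 :: .mul 478 0 :: .add
    true 12 0 :: .mul 481 0 :: .add true 252 0 :: .mul 291 0 :: .mul 0 252 :: .add true 19 0 :: .mul
    483 0 :: .add false 292 20 :: .add true 0 40 :: .mul 242 0 :: .smul 4 198 :: .add false 214 0 ::
    .add false 0 107 :: .add true 0 107 :: .mul 220 0 :: prog11

def prog9 : List Ins := .smul 54107 439 :: .sub false 1 0 :: .smul 89159 448 :: .add false 1 0 ::
    .sub false 5 0 :: .int (-1244) :: .smul 15357 445 :: .sub false 1 0 :: .smul 1371 454 :: .sub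
    true 1 0 :: .smul (-1) 0 :: .mul 405 0 :: .add true 7 0 :: .mul 407 0 :: .add true 16 0 :: .mul
    409 0 :: .add true 52 0 :: .mul 58 0 :: .add true 60 0 :: .mul 172 0 :: .mul 223 2 :: .sub true
    1 0 :: .mul 177 0 :: .add false 183 0 :: .smul 2 324 :: .smul 2 296 :: .mul 420 0 :: .add true 2
    0 :: .mul 423 0 :: .add true 399 0 :: .mul 426 0 :: .mul 0 423 :: .mul 0 356 :: .add false 40
    140 :: .smul 8 305 :: .smul 8 335 :: .sub false 1 0 :: .add false 0 66 :: .smul (-10) 309 ::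
    .smul 2 256 :: .add true 1 0 :: .mul 435 0 :: .add true 4 0 :: .mul 437 0 :: .add true 10 0 ::
    .mul 440 0 :: .add true 307 0 :: .mul 0 391 :: .mul 0 305 :: .add true 16 0 :: prog10

def prog8 : List Ins := .mul 344 0 :: .add true 25 0 :: .mul 346 0 :: .add true 38 0 :: .mul 348 0
    :: .add true 54 0 :: .mul 350 0 :: .add false 104 0 :: .mul 361 382 :: .smul (-1) 340 :: .add
    false 0 347 :: .sub false 0 268 :: .sub false 0 204 :: .sub false 0 66 :: .smul (-3) 339 ::
    .smul 3 346 :: .add false 1 0 :: .smul 3 245 :: .sub false 1 0 :: .smul (-4) 147 :: .smul 2 194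
    :: .add false 1 0 :: .smul 3 243 :: .sub false 1 0 :: .add true 0 79 :: .mul 84 0 :: .cst 1 36
    :: .sub false 408 410 :: .smul 10 109 :: .add false 1 0 :: .smul 4 424 :: .smul 10 414 :: .add
    false 1 0 :: .int 5 :: .sub true 1 0 :: .mul 429 0 :: .add true 6 0 :: .mul 10 0 :: .mul 0 411
    :: .smul 8 178 :: .smul 8 225 :: .add false 1 0 :: .smul 6 292 :: .sub true 1 0 :: .mul 5 0 ::
    .mul 104 0 :: .sub false 20 0 :: .sub false 28 0 :: .smul 15 373 :: .int 21359 :: prog9

def prog7 : List Ins := .add false 17 0 :: .int (-15438) :: .smul 18791 341 :: .add false 1 0 ::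
    .smul 19269 350 :: .sub false 1 0 :: .mul 345 345 :: .smul 5913 0 :: .add false 2 0 :: .mul 348
    355 :: .smul 4114 0 :: .sub false 2 0 :: .mul 358 358 :: .smul 4251 0 :: .add false 2 0 :: .int
    63917 :: .smul 70900 355 :: .add false 1 0 :: .smul 1407 364 :: .sub false 1 0 :: .smul 52262 13
    :: .add false 1 0 :: .smul 24884 12 :: .add false 1 0 :: .smul 16968 11 :: .sub false 1 0 ::
    .int (-4687) :: .smul 140023 366 :: .sub false 1 0 :: .smul 13356 375 :: .add false 1 0 :: .smul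
    191365 24 :: .sub false 1 0 :: .smul 27603 23 :: .sub false 1 0 :: .smul 25866 22 :: .add false
    1 0 :: .int 634 :: .smul 52899 377 :: .add false 1 0 :: .smul 6675 386 :: .sub false 1 0 ::
    .smul 113524 35 :: .add false 1 0 :: .smul 231 34 :: .sub false 1 0 :: .smul 14783 33 :: .sub
    true 1 0 :: .mul 342 0 :: .add true 12 0 :: prog8

def prog6 : List Ins := .mul 2 0 :: .mul 0 274 :: .mul 0 52 :: .cst 1 1080 :: .smul 57 298 :: .sub
    false 217 0 :: .smul 6 289 :: .sub false 1 0 :: .smul 156 302 :: .smul 102 292 :: .add false 1 0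
    :: .smul 103 305 :: .smul 312 295 :: .add true 1 0 :: .mul 308 0 :: .sub true 4 0 :: .mul 310 0
    :: .add false 9 0 :: .mul 301 301 :: .int 60 :: .smul 480 314 :: .add false 1 0 :: .smul 320 305
    :: .add true 1 0 :: .mul 5 0 :: .sub true 7 0 :: .mul 22 0 :: .mul 300 300 :: .mul 1 0 :: .smul
    108 266 :: .smul 12 197 :: .add true 1 0 :: .mul 3 0 :: .smul 27 264 :: .smul 27 271 :: .sub
    false 1 0 :: .smul 9 193 :: .add false 1 0 :: .smul 3 130 :: .add false 1 0 :: .cst 1 8 :: .smul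
    (-4) 80 :: .smul 2 127 :: .add false 1 0 :: .smul 3 194 :: .sub true 1 0 :: .mul 5 0 :: .sub
    false 7 0 :: .sub true 0 87 :: .mul 47 0 :: prog7

def prog5 : List Ins := .smul 28 181 :: .smul 28 188 :: .sub false 1 0 :: .smul 10 110 :: .add false
    1 0 :: .add false 0 46 :: .int (-80605) :: .smul 99981 246 :: .add false 1 0 :: .smul 99997 255
    :: .add false 1 0 :: .sub false 5 0 :: .smul 48 187 :: .smul 48 194 :: .sub false 1 0 :: .smul
    18 93 :: .add false 1 0 :: .int 36391 :: .smul 47592 257 :: .add false 1 0 :: .smul 99994 266 ::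
    .add false 1 0 :: .sub false 5 0 :: .smul (-120) 198 :: .int (-76479) :: .smul 94591 264 :: .add
    false 1 0 :: .sub false 0 6 :: .sub true 4 0 :: .mul 223 0 :: .add true 7 0 :: .mul 225 0 ::
    .add true 20 0 :: .mul 227 0 :: .add true 34 0 :: .mul 38 0 :: .mul 43 93 :: .mul 1 0 :: .add
    true 42 0 :: .mul 231 0 :: .mul 97 98 :: .mul 0 0 :: .mul 0 100 :: .mul 237 257 :: .mul 1 0 ::
    .mul 261 261 :: .mul 0 262 :: .cst 1 6 :: .sub false 279 292 :: .sub true 0 260 :: prog6

def prog4 : List Ins := .sub false 1 0 :: .smul 28 58 :: .add false 1 0 :: .int (-99999) :: .smul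
    17074 193 :: .sub false 1 0 :: .smul 52258 202 :: .add false 1 0 :: .smul 4 0 :: .add false 6 0
    :: .int 57722 :: .smul 38975 200 :: .sub false 1 0 :: .smul 57675 209 :: .sub false 1 0 :: .sub
    false 5 0 :: .smul 216 141 :: .smul 216 148 :: .sub false 1 0 :: .smul 36 47 :: .add false 1 0
    :: .int 99861 :: .smul 70414 211 :: .add false 1 0 :: .smul 76554 220 :: .sub false 1 0 :: .sub
    false 5 0 :: .smul (-360) 152 :: .int (-83396) :: .smul 70528 218 :: .sub false 1 0 :: .smul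
    99995 227 :: .add false 1 0 :: .sub true 5 0 :: .mul 178 0 :: .add true 8 0 :: .mul 180 0 ::
    .add true 21 0 :: .mul 182 0 :: .add true 41 0 :: .mul 204 0 :: .mul 0 145 :: .mul 49 49 :: .mul
    1 0 :: .add true 48 0 :: .mul 187 0 :: .mul 210 210 :: .smul (-14) 184 :: .smul 2 115 :: .sub
    true 1 0 :: prog5

def prog3 : List Ins := .sub false 5 0 :: .smul 128 76 :: .smul 128 83 :: .sub false 1 0 :: .mul 64
    131 :: .mul 0 129 :: .add false 93 87 :: .add false 0 82 :: .int 1090 :: .smul 20 148 :: .add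
    false 1 0 :: .smul 528 157 :: .add false 1 0 :: .smul 4 0 :: .add true 6 0 :: .mul 9 0 :: .smul
    (-1) 103 :: .smul 2 92 :: .add false 1 0 :: .sub false 0 36 :: .sub false 0 27 :: .add false 5 0
    :: .smul 8 0 :: .add false 19 0 :: .int 8332 :: .smul 12407 164 :: .add false 1 0 :: .smul 37731
    173 :: .add true 1 0 :: .sub false 5 0 :: .add false 0 30 :: .smul (-160) 106 :: .add true 0 3
    :: .mul 127 0 :: .add true 3 0 :: .mul 129 0 :: .add true 35 0 :: .mul 131 0 :: .add true 53 0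
    :: .mul 0 83 :: .sub false 147 140 :: .sub true 0 174 :: .mul 0 0 :: .mul 3 0 :: .add true 67 0
    :: .mul 137 0 :: .smul 68 133 :: .add false 0 63 :: .smul 160 129 :: .smul 160 136 :: prog4

def prog2 : List Ins := .sub true 2 0 :: .add true 4 0 :: .mul 18 0 :: .mul 8 7 :: .smul 3 0 :: .sub
    true 2 0 :: .mul 19 0 :: .smul 3 6 :: .sub true 6 0 :: .mul 14 0 :: .mul 20 9 :: .mul 19 11 ::
    .smul 8 62 :: .sub false 0 70 :: .sub false 2 0 :: .add true 4 0 :: .mul 32 0 :: .add false 7 0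
    :: .mul 18 22 :: .smul 3 0 :: .sub false 2 0 :: .add true 14 0 :: .mul 38 0 :: .mul 28 17 ::
    .smul 5 0 :: .sub true 2 0 :: .mul 44 0 :: .smul 104 64 :: .int (-32908) :: .smul 2430 118 ::
    .add false 1 0 :: .smul 16727 127 :: .add false 1 0 :: .smul 8 0 :: .add false 6 0 :: .smul 112
    66 :: .smul 112 73 :: .sub false 1 0 :: .int 25916 :: .smul 15809 128 :: .sub false 1 0 :: .smul
    16805 137 :: .sub false 1 0 :: .smul 8 0 :: .add false 6 0 :: .int (-87027) :: .smul 99988 135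
    :: .sub false 1 0 :: .smul 1937 144 :: .add false 1 0 :: prog3

def prog1 : List Ins := .mul 3 0 :: .sub false 5 0 :: .inv 32 :: .mul 1 0 :: .mul 18 0 :: .sub true
    36 0 :: .mul 29 0 :: .mul 56 0 :: .int 1644 :: .smul 531 48 :: .sub false 1 0 :: .smul 1077 57
    :: .sub false 1 0 :: .smul 16 0 :: .int 1439 :: .smul 2344 54 :: .add false 1 0 :: .smul 103 63
    :: .sub false 1 0 :: .smul 16 0 :: .int (-441) :: .smul 469 60 :: .sub false 1 0 :: .smul 83 69
    :: .sub true 1 0 :: .smul 16 0 :: .mul 20 0 :: .add true 7 0 :: .mul 22 0 :: .add true 15 0 ::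
    .mul 26 0 :: .mul 0 23 :: .sub false 32 39 :: .add true 0 66 :: .int 6 :: .smul 5 79 :: .sub
    true 1 0 :: .int 4 :: .smul 3 82 :: .sub true 1 0 :: .int 2 :: .sub true 0 85 :: .mul 0 8 ::
    .smul 2 43 :: .sub false 0 51 :: .sub false 2 0 :: .mul 6 0 :: .mul 5 2 :: .smul 4 48 :: .sub
    true 0 56 :: prog2

def prog : List Ins := .cst 1 2 :: .cst 4 3 :: .cst 1 32 :: .var 1 :: .mul 1 0 :: .add false 3 0 ::
    .cst (-103) 96 :: .cst (-1) 64 :: .mul 0 4 :: .add false 2 0 :: .var 0 :: .cst 19 96 :: .cst 1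
    64 :: .mul 0 9 :: .add false 2 0 :: .mul 4 0 :: .add true 6 0 :: .sub false 11 0 :: .int 1 ::
    .sub true 1 0 :: .smul 2 14 :: .sub true 0 2 :: .mul 16 0 :: .sub true 17 4 :: .mul 1 0 :: .inv
    0 :: .mul 6 0 :: .cst 1 3 :: .var 2 :: .mul 1 0 :: .exp 0 :: .sub true 25 29 :: .mul 0 3 :: .exp
    0 :: .mul 3 0 :: .mul 0 0 :: .mul 30 12 :: .smul 2 0 :: .smul 2 21 :: .add true 20 0 :: .mul 9 9
    :: .mul 0 10 :: .mul 2 0 :: .mul 5 0 :: .mul 21 27 :: .sub false 1 0 :: .mul 24 22 :: .add true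
    28 30 :: .mul 6 6 :: .mul 1 0 :: prog1

def vs : List Vr := [⟨3, 0, false, false⟩, ⟨3, 0, false, false⟩, ⟨6, 0, false, false⟩]

def C : Chart := ⟨vs, prog, [], 2, 3⟩

end Pool.Agent.Lib.MP_d6150d_an.S10Bm
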