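import Pool.Agent.Lib.MP_d6150d_an.GDef

/-! A generated chart: the program. -/

namespace Pool.Agent.Lib.MP_d6150d_an.S10Br

def prog12 : List Ins := .smul 63392 163 :: .sub false 1 0 :: .smul 1676 162 :: .add false 1 0 ::
    .int 88324 :: .smul 75305 601 :: .add false 1 0 :: .smul 81141 611 :: .sub false 1 0 :: .smul
    199363 175 :: .add false 1 0 :: .smul 62194 174 :: .add false 1 0 :: .smul 4457 173 :: .sub
    false 1 0 :: .int (-28705) :: .smul 77499 612 :: .sub false 1 0 :: .smul 43055 622 :: .add false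
    1 0 :: .smul 91826 186 :: .sub false 1 0 :: .smul 22014 185 :: .sub false 1 0 :: .smul 1475 184
    :: .add true 1 0 :: .mul 555 0 :: .add true 12 0 :: .mul 557 0 :: .add true 25 0 :: .mul 559 0
    :: .add true 38 0 :: .mul 561 0 :: .add true 51 0 :: .mul 563 0 :: .add false 67 0 :: .add true
    0 71 :: .mul 580 0 :: .sub true 73 0 :: .mul 327 0 :: .add false 84 0 :: .cpy 0 :: .cpy 152 ::
    []

def prog11 : List Ins := .add true 12 0 :: .mul 479 0 :: .add true 248 0 :: .mul 0 248 :: .add true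
    18 0 :: .mul 494 0 :: .smul 4 188 :: .smul 6 183 :: .mul 487 0 :: .add true 2 0 :: .mul 489 0 ::
    .add true 21 0 :: .mul 490 0 :: .add true 182 0 :: .mul 250 0 :: .add false 296 28 :: .add true
    0 47 :: .mul 180 0 :: .smul 4 243 :: .add false 153 0 :: .add false 0 216 :: .add true 0 216 ::
    .mul 159 0 :: .smul 3 248 :: .sub false 150 0 :: .smul 3 295 :: .sub false 1 0 :: .smul 4 216 ::
    .add false 1 0 :: .add true 0 40 :: .mul 193 0 :: .add false 8 0 :: .int (-199949) :: .smul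
    199877 579 :: .add false 1 0 :: .smul 81303 589 :: .sub false 1 0 :: .smul 25892 153 :: .sub
    false 1 0 :: .smul 20552 152 :: .add false 1 0 :: .smul 4508 151 :: .add false 1 0 :: .int
    164258 :: .smul 198610 590 :: .sub false 1 0 :: .smul 63118 600 :: .add false 1 0 :: .smul
    116938 164 :: .sub false 1 0 :: prog12

def prog10 : List Ins := .smul 8 301 :: .smul 8 332 :: .sub false 1 0 :: .add false 0 170 :: .smul
    (-10) 305 :: .smul 2 251 :: .add true 1 0 :: .mul 436 0 :: .add true 4 0 :: .mul 438 0 :: .add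
    true 10 0 :: .mul 439 0 :: .add true 303 0 :: .mul 0 388 :: .mul 0 300 :: .add true 16 0 :: .mul
    455 0 :: .smul 4 281 :: .smul 2 238 :: .add false 1 0 :: .smul 6 273 :: .smul 2 230 :: .add
    false 1 0 :: .smul 8 269 :: .smul 2 227 :: .add true 1 0 :: .mul 455 0 :: .add true 4 0 :: .mul
    457 0 :: .add true 9 0 :: .mul 458 0 :: .add true 270 0 :: .mul 0 417 :: .mul 0 270 :: .add true
    17 0 :: .mul 474 0 :: .smul 2 211 :: .add false 18 0 :: .smul 4 247 :: .smul 2 178 :: .add false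
    1 0 :: .smul 6 244 :: .smul 2 174 :: .add false 1 0 :: .smul 2 170 :: .mul 474 0 :: .add true 2
    0 :: .mul 476 0 :: .add true 7 0 :: .mul 478 0 :: prog11

def prog9 : List Ins := .add false 1 0 :: .smul 16968 11 :: .sub false 1 0 :: .int (-4687) :: .smul
    140023 450 :: .sub false 1 0 :: .smul 13356 460 :: .add false 1 0 :: .smul 191365 24 :: .sub
    false 1 0 :: .smul 27603 23 :: .sub false 1 0 :: .smul 25866 22 :: .add false 1 0 :: .int 634 ::
    .smul 52899 461 :: .add false 1 0 :: .smul 6675 471 :: .sub false 1 0 :: .smul 113524 35 :: .add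
    false 1 0 :: .smul 231 34 :: .sub false 1 0 :: .smul 14783 33 :: .sub true 1 0 :: .mul 404 0 ::
    .add true 12 0 :: .mul 406 0 :: .add true 25 0 :: .mul 408 0 :: .add true 38 0 :: .mul 410 0 ::
    .add true 54 0 :: .mul 412 0 :: .add false 96 0 :: .add true 0 103 :: .mul 429 0 :: .sub true
    105 0 :: .mul 176 0 :: .add false 181 0 :: .smul 2 321 :: .smul 2 292 :: .mul 421 0 :: .add true
    2 0 :: .mul 422 0 :: .add true 401 0 :: .mul 424 0 :: .mul 0 436 :: .mul 0 353 :: .add false 142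
    178 :: prog10

def prog8 : List Ins := .sub true 4 0 :: .mul 403 0 :: .add false 9 0 :: .int 60 :: .smul 480 406 ::
    .add false 1 0 :: .smul 320 368 :: .add true 1 0 :: .mul 67 0 :: .sub true 6 0 :: .mul 21 0 ::
    .mul 59 59 :: .mul 1 0 :: .smul 108 336 :: .smul 12 262 :: .add true 1 0 :: .mul 3 0 :: .smul 27
    334 :: .smul 27 341 :: .sub false 1 0 :: .smul 9 258 :: .add false 1 0 :: .smul 3 193 :: .add
    false 1 0 :: .sub false 0 99 :: .sub true 0 145 :: .mul 39 0 :: .add false 10 0 :: .int (-15438)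
    :: .smul 18791 425 :: .add false 1 0 :: .smul 19269 435 :: .sub false 1 0 :: .mul 429 429 ::
    .smul 5913 0 :: .add false 2 0 :: .mul 432 440 :: .smul 4114 0 :: .sub false 2 0 :: .mul 443 443
    :: .smul 4251 0 :: .add false 2 0 :: .int 63917 :: .smul 70900 439 :: .add false 1 0 :: .smul
    1407 449 :: .sub false 1 0 :: .smul 52262 13 :: .add false 1 0 :: .smul 24884 12 :: prog9

def prog7 : List Ins := .mul 11 0 :: .mul 284 176 :: .mul 1 0 :: .smul 8 73 :: .smul 8 118 :: .add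
    false 1 0 :: .smul 6 187 :: .sub true 1 0 :: .mul 5 0 :: .mul 40 0 :: .sub false 22 0 :: .sub
    false 30 0 :: .smul 15 273 :: .int 21359 :: .smul 54107 360 :: .sub false 1 0 :: .smul 89159 370
    :: .add false 1 0 :: .sub false 5 0 :: .int (-1244) :: .smul 15357 366 :: .sub false 1 0 ::
    .smul 1371 376 :: .sub true 1 0 :: .smul (-1) 0 :: .mul 304 0 :: .add true 7 0 :: .mul 306 0 ::
    .add true 16 0 :: .mul 308 0 :: .add true 54 0 :: .mul 67 0 :: .cst 1 6 :: .sub false 362 385 ::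
    .sub true 0 284 :: .mul 2 0 :: .mul 0 34 :: .mul 0 118 :: .cst 1 1080 :: .smul 57 391 :: .sub
    false 282 0 :: .smul 6 353 :: .sub false 1 0 :: .smul 156 395 :: .smul 102 356 :: .add false 1 0
    :: .smul 103 398 :: .smul 312 359 :: .add true 1 0 :: .mul 401 0 :: prog8

def prog6 : List Ins := .mul 229 0 :: .add true 20 0 :: .mul 231 0 :: .add true 34 0 :: .mul 41 90
    :: .mul 1 0 :: .add true 40 0 :: .mul 246 0 :: .mul 94 95 :: .mul 0 0 :: .mul 0 97 :: .mul 0 241
    :: .mul 290 248 :: .mul 0 138 :: .smul (-1) 231 :: .add false 0 238 :: .sub false 0 154 :: .sub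
    false 0 88 :: .cst 1 8 :: .smul (-4) 39 :: .smul 2 84 :: .add false 1 0 :: .smul 3 153 :: .sub
    true 1 0 :: .mul 5 0 :: .sub false 7 0 :: .smul (-3) 237 :: .smul 3 244 :: .add false 1 0 ::
    .smul 3 137 :: .sub false 1 0 :: .smul (-4) 40 :: .smul 2 85 :: .add false 1 0 :: .smul 3 135 ::
    .sub false 1 0 :: .add true 0 13 :: .mul 18 0 :: .cst 1 36 :: .sub false 318 301 :: .mul 302 302
    :: .smul 10 0 :: .add false 2 0 :: .smul 4 345 :: .smul 10 306 :: .add false 1 0 :: .int 5 ::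
    .sub true 1 0 :: .mul 350 0 :: .add true 6 0 :: prog7

def prog5 : List Ins := .smul 70528 246 :: .sub false 1 0 :: .smul 99995 256 :: .add false 1 0 ::
    .sub true 5 0 :: .mul 184 0 :: .add true 8 0 :: .mul 186 0 :: .add true 21 0 :: .mul 188 0 ::
    .add true 41 0 :: .mul 0 146 :: .mul 48 48 :: .mul 1 0 :: .add true 47 0 :: .mul 204 0 :: .smul
    (-14) 189 :: .smul 2 115 :: .sub true 1 0 :: .smul 28 186 :: .smul 28 193 :: .sub false 1 0 ::
    .smul 10 110 :: .add false 1 0 :: .add false 0 44 :: .int (-80605) :: .smul 99981 272 :: .add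
    false 1 0 :: .smul 99997 282 :: .add false 1 0 :: .sub false 5 0 :: .smul 48 192 :: .smul 48 199
    :: .sub false 1 0 :: .smul 18 92 :: .add false 1 0 :: .int 36391 :: .smul 47592 283 :: .add
    false 1 0 :: .smul 99994 293 :: .add false 1 0 :: .sub false 5 0 :: .smul (-120) 203 :: .int
    (-76479) :: .smul 94591 290 :: .add false 1 0 :: .sub false 0 6 :: .sub true 4 0 :: .mul 227 0
    :: .add true 7 0 :: prog6

def prog4 : List Ins := .add false 0 31 :: .smul (-160) 112 :: .add true 0 3 :: .mul 132 0 :: .add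
    true 3 0 :: .mul 134 0 :: .add true 36 0 :: .mul 136 0 :: .add true 54 0 :: .mul 0 84 :: .mul
    113 158 :: .sub true 0 173 :: .mul 159 0 :: .mul 0 0 :: .mul 4 0 :: .add false 69 0 :: .mul 155
    0 :: .smul 68 140 :: .add false 0 65 :: .smul 160 136 :: .smul 160 143 :: .sub false 1 0 ::
    .smul 28 60 :: .add false 1 0 :: .int (-99999) :: .smul 17074 221 :: .sub false 1 0 :: .smul
    52258 231 :: .add false 1 0 :: .smul 4 0 :: .add false 6 0 :: .int 57722 :: .smul 38975 228 ::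
    .sub false 1 0 :: .smul 57675 238 :: .sub false 1 0 :: .sub false 5 0 :: .smul 216 148 :: .smul
    216 155 :: .sub false 1 0 :: .smul 36 48 :: .add false 1 0 :: .int 99861 :: .smul 70414 239 ::
    .add false 1 0 :: .smul 76554 249 :: .sub false 1 0 :: .sub false 5 0 :: .smul (-360) 159 ::
    .int (-83396) :: prog5

def prog3 : List Ins := .smul 16727 154 :: .add false 1 0 :: .smul 8 0 :: .add false 6 0 :: .smul
    112 71 :: .smul 112 78 :: .sub false 1 0 :: .int 25916 :: .smul 15809 154 :: .sub false 1 0 ::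
    .smul 16805 164 :: .sub false 1 0 :: .smul 8 0 :: .add false 6 0 :: .int (-87027) :: .smul 99988
    161 :: .sub false 1 0 :: .smul 1937 171 :: .add false 1 0 :: .sub false 5 0 :: .smul 128 81 ::
    .smul 128 88 :: .sub false 1 0 :: .mul 63 110 :: .inv 109 :: .mul 1 0 :: .add false 99 93 ::
    .add false 0 88 :: .int 1090 :: .smul 20 175 :: .add false 1 0 :: .smul 528 185 :: .add false 1
    0 :: .smul 4 0 :: .add true 6 0 :: .mul 9 0 :: .smul (-1) 109 :: .smul 2 98 :: .add false 1 0 ::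
    .sub false 0 37 :: .sub false 0 28 :: .add false 5 0 :: .smul 8 0 :: .add false 20 0 :: .int
    8332 :: .smul 12407 191 :: .add false 1 0 :: .smul 37731 201 :: .add true 1 0 :: .sub false 5 0
    :: prog4

def prog2 : List Ins := .add true 79 0 :: .mul 0 49 :: .sub false 3 0 :: .add true 0 65 :: .int 6 ::
    .smul 5 107 :: .sub true 1 0 :: .int 4 :: .smul 3 110 :: .sub true 1 0 :: .sub true 69 112 ::
    .mul 0 7 :: .smul 2 13 :: .sub true 0 11 :: .sub true 2 0 :: .mul 5 0 :: .mul 5 2 :: .smul 4 18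
    :: .sub true 0 16 :: .sub true 2 0 :: .add true 4 0 :: .mul 17 0 :: .mul 8 7 :: .smul 3 0 ::
    .sub true 2 0 :: .mul 18 0 :: .smul 3 6 :: .sub true 6 0 :: .mul 14 0 :: .mul 19 9 :: .mul 19 11
    :: .smul 8 32 :: .sub false 0 30 :: .sub false 2 0 :: .add true 4 0 :: .mul 31 0 :: .add false 7
    0 :: .mul 18 22 :: .smul 3 0 :: .sub false 2 0 :: .add true 14 0 :: .mul 37 0 :: .mul 28 17 ::
    .smul 5 0 :: .sub true 2 0 :: .mul 49 0 :: .smul 104 69 :: .int (-32908) :: .smul 2430 144 ::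
    .add false 1 0 :: prog3

def prog1 : List Ins := .mul 10 0 :: .add true 21 0 :: .smul 2 0 :: .tri 36 :: .mul 56 39 :: .smul
    (-1) 0 :: .exp 0 :: .mul 5 0 :: .mul 0 0 :: .mul 8 0 :: .mul 67 0 :: .mul 46 10 :: .mul 64 40 ::
    .sub true 65 42 :: .mul 1 0 :: .sub false 67 27 :: .sub true 0 45 :: .inv 0 :: .mul 3 0 :: .mul
    7 0 :: .mul 55 0 :: .sub true 50 0 :: .int 1644 :: .smul 531 69 :: .sub false 1 0 :: .smul 1077
    79 :: .sub false 1 0 :: .smul 16 0 :: .int 1439 :: .smul 2344 75 :: .add false 1 0 :: .smul 103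
    85 :: .sub false 1 0 :: .smul 16 0 :: .int (-441) :: .smul 469 81 :: .sub false 1 0 :: .smul 83
    91 :: .sub true 1 0 :: .smul 16 0 :: .mul 19 0 :: .add true 7 0 :: .mul 21 0 :: .add true 15 0
    :: .mul 22 0 :: .mul 0 34 :: .add true 75 58 :: .mul 45 45 :: .mul 1 0 :: .smul 2 61 :: prog2

def prog : List Ins := .cst 1 2 :: .cst 4 3 :: .cst 1 32 :: .var 1 :: .mul 1 0 :: .add false 3 0 ::
    .smul 2 0 :: .cst 967 1000 :: .cst (-129) 2500 :: .mul 0 5 :: .add false 2 0 :: .var 0 :: .cst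
    (-711) 5000 :: .cst 213 5000 :: .mul 0 2 :: .add false 2 0 :: .cst 1 500 :: .mul 0 13 :: .add
    true 2 0 :: .mul 7 0 :: .add true 9 0 :: .var 2 :: .mul 1 0 :: .mul 16 0 :: .tri 0 :: .mul 20 0
    :: .int 1 :: .sub true 22 0 :: .mul 0 7 :: .tri 0 :: .mul 4 0 :: .sub false 7 0 :: .cst (-103)
    96 :: .cst (-1) 64 :: .mul 0 34 :: .add false 2 0 :: .cst 19 96 :: .cst 1 64 :: .mul 0 38 ::
    .add false 2 0 :: .mul 32 0 :: .add true 5 0 :: .smul 2 11 :: .sub false 19 0 :: .int 2 :: .sub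
    true 42 0 :: .mul 0 27 :: .tri 0 :: .mul 4 0 :: .add true 7 0 :: prog1

def vs : List Vr := [⟨4, 0, false, false⟩, ⟨3, 0, false, false⟩, ⟨8, 4, false, false⟩]

def C : Chart := ⟨vs, prog, [], 2, 3⟩

end Pool.Agent.Lib.MP_d6150d_an.S10Br
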