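import Pool.Agent.Lib.MP_d6150d_an.GDef

/-! A generated chart: the program. -/

namespace Pool.Agent.Lib.MP_d6150d_an.S10Bt

def prog9 : List Ins := .cpy 0 :: .cpy 81 :: []

def prog8 : List Ins := .smul 6 170 :: .smul 2 125 :: .add false 1 0 :: .smul 8 166 :: .smul 2 122
    :: .add true 1 0 :: .mul 345 0 :: .add true 4 0 :: .mul 347 0 :: .add true 9 0 :: .mul 350 0 ::
    .add false 167 0 :: .mul 377 0 :: .mul 0 313 :: .mul 0 167 :: .add true 18 0 :: .mul 353 0 ::
    .smul 2 106 :: .add false 19 0 :: .smul 4 143 :: .smul 2 74 :: .add false 1 0 :: .smul 6 140 ::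
    .smul 2 70 :: .add false 1 0 :: .smul 2 66 :: .mul 365 0 :: .add true 2 0 :: .mul 367 0 :: .add
    true 7 0 :: .mul 369 0 :: .add true 12 0 :: .mul 372 0 :: .add true 144 0 :: .mul 183 0 :: .mul
    0 144 :: .add false 19 0 :: .mul 374 0 :: .smul 4 85 :: .smul 6 80 :: .mul 379 0 :: .add true 2
    0 :: .mul 381 0 :: .add true 22 0 :: .mul 384 0 :: .add false 79 0 :: .mul 146 0 :: .mul 196 0
    :: .mul 149 0 :: .sub false 11 0 :: prog9

def prog7 : List Ins := .sub false 1 0 :: .smul 89159 347 :: .add false 1 0 :: .sub false 5 0 ::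
    .int (-1244) :: .smul 15357 344 :: .sub false 1 0 :: .smul 1371 353 :: .sub true 1 0 :: .smul
    (-1) 0 :: .mul 299 0 :: .add true 7 0 :: .mul 301 0 :: .add true 16 0 :: .mul 303 0 :: .add true
    53 0 :: .mul 66 0 :: .mul 116 0 :: .mul 69 0 :: .sub false 75 0 :: .smul 2 216 :: .smul 2 188 ::
    .mul 311 0 :: .add true 2 0 :: .mul 314 0 :: .add false 290 0 :: .mul 317 0 :: .mul 0 314 ::
    .mul 0 248 :: .add false 37 72 :: .smul 8 197 :: .smul 8 227 :: .sub false 1 0 :: .add false 0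
    64 :: .smul (-10) 201 :: .smul 2 148 :: .add true 1 0 :: .mul 326 0 :: .add true 4 0 :: .mul 328
    0 :: .add true 10 0 :: .mul 331 0 :: .add false 199 0 :: .mul 0 283 :: .mul 0 197 :: .add true
    16 0 :: .mul 333 0 :: .smul 4 178 :: .smul 2 133 :: .add false 1 0 :: prog8

def prog6 : List Ins := .smul (-1) 226 :: .add false 0 233 :: .sub false 0 155 :: .sub false 0 91 ::
    .cst 1 8 :: .smul (-4) 40 :: .smul 2 87 :: .add false 1 0 :: .smul 3 154 :: .sub true 1 0 ::
    .mul 5 0 :: .sub false 7 0 :: .smul (-3) 232 :: .smul 3 239 :: .add false 1 0 :: .smul 3 139 ::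
    .sub false 1 0 :: .smul (-4) 41 :: .smul 2 88 :: .add false 1 0 :: .smul 3 137 :: .sub false 1 0
    :: .add true 0 13 :: .mul 18 0 :: .cst 1 36 :: .sub false 306 308 :: .mul 309 309 :: .smul 10 0
    :: .add false 2 0 :: .smul 4 323 :: .smul 10 313 :: .add false 1 0 :: .int 5 :: .sub true 1 0 ::
    .mul 328 0 :: .add true 6 0 :: .mul 11 0 :: .mul 0 310 :: .smul 8 73 :: .smul 8 120 :: .add
    false 1 0 :: .smul 6 187 :: .sub true 1 0 :: .mul 5 0 :: .mul 39 0 :: .sub false 21 0 :: .sub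
    false 29 0 :: .smul 15 267 :: .int 21359 :: .smul 54107 338 :: prog7

def prog5 : List Ins := .mul 215 215 :: .smul (-14) 183 :: .smul 2 115 :: .sub false 1 0 :: .smul 28
    180 :: .smul 28 187 :: .sub false 1 0 :: .smul 10 110 :: .add false 1 0 :: .add false 0 46 ::
    .int (-80605) :: .smul 99981 250 :: .add false 1 0 :: .smul 99997 259 :: .add false 1 0 :: .sub
    false 5 0 :: .smul 48 186 :: .smul 48 193 :: .sub false 1 0 :: .smul 18 93 :: .add false 1 0 ::
    .int 36391 :: .smul 47592 261 :: .add false 1 0 :: .smul 99994 270 :: .add false 1 0 :: .sub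
    false 5 0 :: .smul (-120) 197 :: .int (-76479) :: .smul 94591 268 :: .add false 1 0 :: .sub
    false 0 6 :: .sub true 4 0 :: .mul 222 0 :: .add true 7 0 :: .mul 224 0 :: .add true 20 0 ::
    .mul 226 0 :: .add true 34 0 :: .mul 38 0 :: .mul 43 93 :: .mul 1 0 :: .add false 42 0 :: .mul
    230 0 :: .mul 97 98 :: .mul 0 0 :: .mul 0 100 :: .mul 236 262 :: .mul 1 0 :: .mul 247 273 ::
    prog6

def prog4 : List Ins := .smul 68 132 :: .add false 0 63 :: .smul 160 128 :: .smul 160 135 :: .sub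
    false 1 0 :: .smul 28 58 :: .add false 1 0 :: .int (-99999) :: .smul 17074 197 :: .sub false 1 0
    :: .smul 52258 206 :: .add false 1 0 :: .smul 4 0 :: .add false 6 0 :: .int 57722 :: .smul 38975
    204 :: .sub false 1 0 :: .smul 57675 213 :: .sub false 1 0 :: .sub false 5 0 :: .smul 216 140 ::
    .smul 216 147 :: .sub false 1 0 :: .smul 36 47 :: .add false 1 0 :: .int 99861 :: .smul 70414
    215 :: .add false 1 0 :: .smul 76554 224 :: .sub false 1 0 :: .sub false 5 0 :: .smul (-360) 151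
    :: .int (-83396) :: .smul 70528 222 :: .sub false 1 0 :: .smul 99995 231 :: .add false 1 0 ::
    .sub true 5 0 :: .mul 177 0 :: .add true 8 0 :: .mul 179 0 :: .add true 21 0 :: .mul 181 0 ::
    .add true 41 0 :: .mul 209 0 :: .mul 0 145 :: .mul 49 49 :: .mul 1 0 :: .add false 48 0 :: .mul
    186 0 :: prog5

def prog3 : List Ins := .smul 99988 139 :: .sub false 1 0 :: .smul 1937 148 :: .add false 1 0 ::
    .sub false 5 0 :: .smul 128 75 :: .smul 128 82 :: .sub false 1 0 :: .mul 63 135 :: .mul 0 133 ::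
    .add false 92 86 :: .add false 0 81 :: .int 1090 :: .smul 20 152 :: .add false 1 0 :: .smul 528
    161 :: .add false 1 0 :: .smul 4 0 :: .add true 6 0 :: .mul 9 0 :: .smul (-1) 102 :: .smul 2 91
    :: .add false 1 0 :: .sub false 0 36 :: .sub false 0 27 :: .add false 5 0 :: .smul 8 0 :: .add
    false 19 0 :: .int 8332 :: .smul 12407 168 :: .add false 1 0 :: .smul 37731 177 :: .add true 1 0
    :: .sub false 5 0 :: .add false 0 30 :: .smul (-160) 105 :: .add true 0 3 :: .mul 126 0 :: .add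
    true 3 0 :: .mul 128 0 :: .add true 35 0 :: .mul 130 0 :: .add true 53 0 :: .mul 0 83 :: .sub
    false 146 139 :: .sub false 0 178 :: .mul 0 0 :: .mul 3 0 :: .add true 67 0 :: .mul 136 0 ::
    prog4

def prog2 : List Ins := .mul 5 0 :: .mul 5 2 :: .smul 4 47 :: .sub false 0 55 :: .sub true 2 0 ::
    .add false 4 0 :: .mul 17 0 :: .mul 8 7 :: .smul 3 0 :: .sub false 2 0 :: .mul 18 0 :: .smul 3 6
    :: .sub false 6 0 :: .mul 14 0 :: .mul 19 9 :: .mul 19 11 :: .smul 8 61 :: .sub false 0 69 ::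
    .sub false 2 0 :: .add true 4 0 :: .mul 31 0 :: .add false 7 0 :: .mul 18 22 :: .smul 3 0 ::
    .sub false 2 0 :: .add false 14 0 :: .mul 37 0 :: .mul 28 17 :: .smul 5 0 :: .sub false 2 0 ::
    .mul 43 0 :: .smul 104 63 :: .int (-32908) :: .smul 2430 122 :: .add false 1 0 :: .smul 16727
    131 :: .add false 1 0 :: .smul 8 0 :: .add false 6 0 :: .smul 112 65 :: .smul 112 72 :: .sub
    false 1 0 :: .int 25916 :: .smul 15809 132 :: .sub false 1 0 :: .smul 16805 141 :: .sub false 1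
    0 :: .smul 8 0 :: .add false 6 0 :: .int (-87027) :: prog3

def prog1 : List Ins := .sub false 1 0 :: .mul 29 27 :: .add true 33 35 :: .mul 6 6 :: .mul 1 0 ::
    .mul 3 0 :: .sub false 5 0 :: .inv 37 :: .mul 1 0 :: .mul 24 0 :: .sub false 41 0 :: .mul 34 0
    :: .mul 61 0 :: .int 1644 :: .smul 531 53 :: .sub false 1 0 :: .smul 1077 62 :: .sub false 1 0
    :: .smul 16 0 :: .int 1439 :: .smul 2344 59 :: .add false 1 0 :: .smul 103 68 :: .sub false 1 0
    :: .smul 16 0 :: .int (-441) :: .smul 469 65 :: .sub false 1 0 :: .smul 83 74 :: .sub true 1 0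
    :: .smul 16 0 :: .mul 20 0 :: .add true 7 0 :: .mul 22 0 :: .add true 15 0 :: .mul 26 0 :: .mul
    0 23 :: .sub false 32 39 :: .add false 0 71 :: .int 6 :: .smul 5 84 :: .sub true 1 0 :: .int 4
    :: .smul 3 87 :: .sub true 1 0 :: .sub true 66 89 :: .mul 0 7 :: .smul 2 42 :: .sub false 0 50
    :: .sub false 2 0 :: prog2

def prog : List Ins := .cst 1 2 :: .cst 4 3 :: .cst 1 32 :: .var 1 :: .mul 1 0 :: .add false 3 0 ::
    .cst (-103) 96 :: .cst (-1) 64 :: .mul 0 4 :: .add false 2 0 :: .var 0 :: .cst 19 96 :: .cst 1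
    64 :: .mul 0 9 :: .add false 2 0 :: .mul 4 0 :: .add true 6 0 :: .sub false 11 0 :: .int 1 ::
    .sub true 1 0 :: .smul 2 14 :: .sub true 0 2 :: .mul 16 0 :: .sub true 17 4 :: .mul 1 0 :: .inv
    0 :: .mul 6 0 :: .int 8 :: .int 2 :: .sub true 8 0 :: .mul 2 0 :: .smul (-1) 0 :: .exp 0 :: .var
    3 :: .mul 1 0 :: .mul 29 11 :: .smul 2 0 :: .smul 2 20 :: .add true 19 0 :: .int 3 :: .sub true
    0 19 :: .mul 13 0 :: .smul (-1) 0 :: .exp 0 :: .var 2 :: .mul 1 0 :: .mul 0 11 :: .mul 8 0 ::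
    .mul 11 0 :: .mul 26 32 :: prog1

def vs : List Vr := [⟨3, 0, false, false⟩, ⟨2, 0, false, false⟩, ⟨2, 0, false, false⟩, ⟨2, 0, false,
    true⟩]

def C : Chart := ⟨vs, prog, [], 2, 3⟩

end Pool.Agent.Lib.MP_d6150d_an.S10Bt
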