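import Pool.Agent.Lib.MP_d6150d_an.GDef

/-! A generated chart: the program. -/

namespace Pool.Agent.Lib.MP_d6150d_an.S10Ca

def prog1 : List Ins := .mul 47 48 :: .mul 55 0 :: .add true 2 0 :: .mul 8 0 :: .smul 2 8 :: .sub
    false 0 6 :: .sub true 2 0 :: .mul 13 0 :: .add false 65 56 :: .mul 20 0 :: .mul 62 0 :: .mul 0
    56 :: .mul 0 0 :: .mul 0 1 :: .mul 29 0 :: .mul 0 33 :: .rsq 34 :: .mul 1 0 :: .add false 10 0
    :: .cst 15 8 :: .mul 75 57 :: .sub true 76 78 :: .mul 1 0 :: .sub false 1 77 :: .inv 0 :: .mul 2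
    0 :: .mul 77 77 :: .mul 0 45 :: .mul 2 0 :: .mul 80 0 :: .mul 0 4 :: .mul 11 0 :: .mul 16 0 ::
    .sub false 14 0 :: .cpy 0 :: []

def prog : List Ins := .int 1 :: .var 1 :: .var 0 :: .sub false 1 0 :: .add true 3 0 :: .cst 1 2 ::
    .var 2 :: .mul 1 0 :: .smul (-1) 0 :: .exp 0 :: .mul 0 0 :: .mul 7 0 :: .sub true 7 0 :: .cpy 0
    :: .smul 2 11 :: .mul 0 8 :: .tri 0 :: .mul 4 0 :: .sub true 5 19 :: .mul 0 14 :: .tri 0 :: .mul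
    4 0 :: .sub false 6 0 :: .smul 2 1 :: .sub false 8 0 :: .int 2 :: .sub true 15 0 :: .mul 0 24 ::
    .tri 0 :: .mul 4 0 :: .add true 7 0 :: .mul 33 0 :: .add true 11 0 :: .smul 2 0 :: .mul 37 33 ::
    .smul (-1) 0 :: .exp 0 :: .mul 3 0 :: .mul 0 1 :: .tri 37 :: .mul 3 2 :: .mul 43 0 :: .mul 0 0
    :: .smul 4 0 :: .sub true 22 49 :: .mul 48 7 :: .smul 2 50 :: .add true 54 0 :: .mul 0 46 ::
    .sub false 3 0 :: prog1

def vs : List Vr := [⟨3, 0, false, false⟩, ⟨3, 0, false, false⟩, ⟨6, 2, false, false⟩]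

def C : Chart := ⟨vs, prog, [14], 1, 3⟩

end Pool.Agent.Lib.MP_d6150d_an.S10Ca
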