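import Pool.Agent.Lib.MP_d6150d_an.GDef

/-! A generated chart: the program. -/

namespace Pool.Agent.Lib.MP_d6150d_an.S10Cb

def prog2 : List Ins := .sub false 0 41 :: .sub false 2 0 :: .add true 4 0 :: .mul 39 0 :: .mul 37
    36 :: .smul 3 0 :: .sub false 2 0 :: .mul 13 0 :: .smul 12 58 :: .mul 0 41 :: .add false 28 0 ::
    .mul 35 0 :: .add true 4 0 :: .mul 21 0 :: .add false 25 0 :: .cpy 0 :: .cpy 28 :: []

def prog1 : List Ins := .smul 4 0 :: .sub true 29 56 :: .add true 59 50 :: .mul 0 8 :: .smul 2 52 ::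
    .add true 62 0 :: .smul (-1) 12 :: .exp 0 :: .mul 2 0 :: .sub false 5 0 :: .mul 2 2 :: .mul 0 3
    :: .mul 60 0 :: .add true 3 0 :: .mul 12 0 :: .smul 2 11 :: .sub true 0 7 :: .sub false 2 0 ::
    .mul 17 0 :: .add false 76 11 :: .mul 24 0 :: .mul 33 0 :: .mul 70 11 :: .sub true 20 0 :: .mul
    2 0 :: .mul 0 0 :: .mul 0 1 :: .mul 36 0 :: .mul 0 46 :: .rsq 47 :: .mul 1 0 :: .add true 12 0
    :: .mul 45 0 :: .mul 76 49 :: .mul 0 79 :: .mul 91 0 :: .mul 7 0 :: .sub false 4 0 :: .mul 12 0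
    :: .mul 95 55 :: .sub true 97 56 :: .mul 1 0 :: .mul 42 43 :: .smul 8 0 :: .int 4 :: .smul 3 100
    :: .sub true 1 0 :: .mul 0 29 :: .mul 46 31 :: .smul 4 45 :: prog2

def prog : List Ins := .int 1 :: .cst 15 8 :: .var 0 :: .smul 2 0 :: .sub true 0 3 :: .mul 2 0 ::
    .sub true 3 5 :: .mul 1 0 :: .var 1 :: .sub false 0 6 :: .sub false 3 0 :: .inv 0 :: .mul 4 0 ::
    .var 2 :: .smul (-1) 0 :: .mul 0 0 :: .mul 12 1 :: .tri 0 :: .mul 16 0 :: .mul 16 6 :: .tri 0 ::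
    .mul 20 0 :: .sub false 5 0 :: .smul 2 1 :: .sub false 7 0 :: .int 2 :: .sub true 26 0 :: .mul 0
    16 :: .tri 0 :: .mul 4 0 :: .add true 7 0 :: .mul 27 0 :: .add true 11 0 :: .smul 2 0 :: .mul 24
    0 :: .mul 28 0 :: .mul 0 0 :: .mul 41 0 :: .sub false 43 0 :: .cst 1 2 :: .mul 43 31 :: .smul
    (-1) 0 :: .exp 0 :: .mul 9 0 :: .mul 0 1 :: .mul 5 36 :: .tri 0 :: .mul 4 2 :: .mul 10 0 :: .mul
    0 0 :: prog1

def vs : List Vr := [⟨3, 0, false, false⟩, ⟨3, 0, false, false⟩, ⟨6, 2, false, false⟩]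

def C : Chart := ⟨vs, prog, [], 2, 3⟩

end Pool.Agent.Lib.MP_d6150d_an.S10Cb
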