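import Pool.Agent.Lib.MP_d6150d_an.GDef

/-! A generated chart: the program. -/

namespace Pool.Agent.Lib.MP_d6150d_an.S10Cc

def prog2 : List Ins := .mul 3 0 :: .add false 7 0 :: .cpy 0 :: .cpy 32 :: []

def prog1 : List Ins := .mul 13 43 :: .mul 0 0 :: .mul 15 0 :: .smul 3 51 :: .int 4 :: .sub true 1 0
    :: .mul 0 36 :: .exp 0 :: .mul 5 0 :: .sub false 37 32 :: .sub true 0 55 :: .mul 0 0 :: .mul 0 1
    :: .mul 4 0 :: .mul 13 30 :: .rsq 0 :: .mul 32 0 :: .mul 27 0 :: .add true 29 0 :: .mul 5 0 ::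
    .add false 20 0 :: .mul 33 37 :: .sub true 71 38 :: .mul 1 0 :: .smul 4 0 :: .add true 35 0 ::
    .mul 39 0 :: .mul 0 29 :: .mul 0 16 :: .mul 40 47 :: .sub true 25 26 :: .mul 0 33 :: .mul 40 35
    :: .smul 4 56 :: .sub false 0 62 :: .sub false 2 0 :: .add true 4 0 :: .mul 43 0 :: .mul 41 40
    :: .smul 3 0 :: .sub true 2 0 :: .mul 11 0 :: .add true 13 0 :: .mul 58 0 :: .mul 32 32 :: .mul
    0 34 :: .mul 37 0 :: .add true 57 23 :: .mul 0 31 :: .add true 60 0 :: prog2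

def prog : List Ins := .int 1 :: .var 0 :: .sub true 0 1 :: .var 1 :: .sub false 0 2 :: .sub false 2
    0 :: .inv 0 :: .var 2 :: .smul (-1) 0 :: .exp 0 :: .mul 3 0 :: .smul 2 9 :: .mul 0 9 :: .smul 2
    8 :: .add true 13 0 :: .int 2 :: .sub true 4 0 :: .inv 0 :: .mul 10 0 :: .smul (-1) 0 :: .exp 0
    :: .mul 6 0 :: .mul 9 0 :: .sub true 11 22 :: .add true 23 19 :: .mul 4 4 :: .mul 1 0 :: .mul 24
    0 :: .mul 26 23 :: .add false 1 0 :: .mul 6 0 :: .sub true 8 0 :: .mul 21 0 :: .sub true 32 0 ::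
    .mul 0 0 :: .mul 33 11 :: .mul 0 33 :: .cst 15 8 :: .mul 0 3 :: .sub true 38 0 :: .mul 3 0 ::
    .sub true 25 39 :: .sub false 15 20 :: .add true 0 38 :: .mul 2 0 :: .smul 2 18 :: .sub true 0
    24 :: .sub false 2 0 :: .mul 7 0 :: .mul 14 0 :: prog1

def vs : List Vr := [⟨3, 0, false, false⟩, ⟨2, 0, false, false⟩, ⟨5, 0, false, false⟩]

def C : Chart := ⟨vs, prog, [], 2, 3⟩

end Pool.Agent.Lib.MP_d6150d_an.S10Cc
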