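import Pool.Agent.Lib.MP_d6150d_an.KNJ

/-! The strip near `F = 4 / 3`: the family of operators and null functions. -/

namespace Pool.Agent.Lib.MP_d6150d_an.S10

open Real Set Filter Topology Asymptotics

/-- the free coefficients -/
structure Cf where
  a1 : ℝ
  a2 : ℝ
  a3 : ℝ
  q1 : ℝ
  q2 : ℝ
  r2 : ℝ
  k : ℝ
  n10 : ℝ
  n11 : ℝ
  n12 : ℝ
  n20 : ℝ
  n21 : ℝ
  n22 : ℝ
  n02 : ℝ
  n03 : ℝ
  n30 : ℝ
  n31 : ℝ
  e4 : ℝ
  e5 : ℝ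
  e6 : ℝ
  e7 : ℝ
  g4 : ℝ
  g5 : ℝ
  g6 : ℝ
  g7 : ℝ

/-- the level at infinity -/
noncomputable def H0 (D F : ℝ) : ℝ := (F - D - 1) / (F * (2 * F - 1) * (F - 1))

/-- the separators -/
def Es (J L x4 x5 x6 x7 e : ℝ) : ℝ :=
  J * e ^ 2 + L * e ^ 3 + e ^ 4 * (x4 + x5 * e + x6 * e ^ 2 + x7 * e ^ 3)

namespace Cf

variable (c : Cf) (D F : ℝ)

noncomputable def q3 : ℝ :=
  (4 - 3 * F) / (F - 1) * (c.a1 + c.a2 + c.a3 + 4 * c.k) + (-c.a1 + 2 * c.a3 - c.q1 - c.q2)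

noncomputable def c0 : ℝ := (-4 * c.n10 + 2 * c.n20 - 3 * c.n30) / 8

noncomputable def c1 : ℝ := (-4 * c.n11 + 2 * c.n21 - 3 * c.n31 + 3 * c.n30) / 8 -
  ja3 D F * H0 D F * (8 * c.n10 + 8 * c.n20 - 6 * c.n30) / 8

noncomputable def Ja : ℝ := ja2 D F * H0 D F * (-14 * c.a1 - 2 * c.q1)

noncomputable def La : ℝ := ja4 D F * H0 D F ^ 2 * (108 * c.a1 + 12 * c.q1) +
  ja2 D F * H0 D F * (27 * (c.a2 - c.a1) + 9 * c.q2 + 3 * c.r2 - c.c0 - c.n10)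

noncomputable def Jb : ℝ := ja2 D F * H0 D F * (-14 * c.a1 - 2 * c.q1 + 2 * (c.c0 + c.n10))

noncomputable def Lb : ℝ :=
  ja4 D F * H0 D F ^ 2 * (108 * c.a1 + 12 * c.q1 + 4 * (c.c0 + 2 * c.n10 + 2 * c.n20)) +
    ja2 D F * H0 D F * (27 * (c.a2 - c.a1) + 9 * c.q2 + 3 * c.r2 - 3 * (c.c0 + c.n10) +
      4 * (c.c1 D F + c.n11))

/-- the operator -/
noncomputable def o (i : ℝ) : Gp := ⟨0, 0, 0, c.a1 * i, c.q1 * i, (-16 * c.a1 - 4 * c.q1) * i,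
  (c.a2 - c.a1) * i ^ 2, c.q2 * i ^ 2, c.r2 * i ^ 2, (c.a3 - c.a2) * i ^ 3, c.q3 F * i ^ 3,
  -c.a3 * i ^ 4⟩

/-- the null function -/
noncomputable def n (i : ℝ) : Nl :=
  ⟨fun v ↦ c.c0 * i ^ 2 + c.c1 D F * i ^ 3 * v + c.n02 * i ^ 4 * v ^ 2 + c.n03 * i ^ 5 * v ^ 3,
    fun v ↦ c.n10 * i ^ 2 + c.n11 * i ^ 3 * v + c.n12 * i ^ 4 * v ^ 2 + 0 * v ^ 3,
    fun v ↦ c.n20 * i ^ 2 + c.n21 * i ^ 3 * v + c.n22 * i ^ 4 * v ^ 2 + 0 * v ^ 3,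
    fun v ↦ c.n30 * i ^ 2 + (c.n31 - c.n30) * i ^ 3 * v + -c.n31 * i ^ 4 * v ^ 2 + 0 * v ^ 3,
    fun _ ↦ 0⟩

/-- the derivatives of the coefficients -/
noncomputable def m (i : ℝ) : Nl :=
  ⟨fun v ↦ c.c1 D F * i ^ 3 + 2 * (c.n02 * i ^ 4) * v + 3 * (c.n03 * i ^ 5) * v ^ 2,
    fun v ↦ c.n11 * i ^ 3 + 2 * (c.n12 * i ^ 4) * v + 3 * 0 * v ^ 2,
    fun v ↦ c.n21 * i ^ 3 + 2 * (c.n22 * i ^ 4) * v + 3 * 0 * v ^ 2,
    fun v ↦ (c.n31 - c.n30) * i ^ 3 + 2 * (-c.n31 * i ^ 4) * v + 3 * 0 * v ^ 2, fun _ ↦ 0⟩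

/-- the kernel at the level `h` -/
noncomputable def K (h t : ℝ) : ℝ :=
  (c.o F (H0 D F)⁻¹).KN D F ((c.n D F (H0 D F)⁻¹).fn D F) h t

noncomputable def Ea (v : ℝ) : ℝ := Es (c.Ja D F) (c.La D F) c.e4 c.e5 c.e6 c.e7 ((H0 D F)⁻¹ * v)

noncomputable def Eb (v : ℝ) : ℝ := Es (c.Jb D F) (c.Lb D F) c.g4 c.g5 c.g6 c.g7 ((H0 D F)⁻¹ * v)

noncomputable def da (t : ℝ) : ℝ := c.K D F (vR D F t) t - c.Ea D F (vR D F t)

noncomputable def db (t : ℝ) : ℝ := c.K D F (H0 D F) t - c.Eb D F (vR D F t)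

/-- both signs are good -/
def Pos (t : ℝ) : Prop := 0 < t * c.da D F t ∧ 0 < t * c.db D F t

end Cf

variable {c : Cf} {D F t : ℝ}

theorem cub_der (x0 x1 x2 x3 v : ℝ) : HasDerivAt (fun v : ℝ ↦ x0 + x1 * v + x2 * v ^ 2 + x3 * v ^ 3)
    (x1 + 2 * x2 * v + 3 * x3 * v ^ 2) v :=
  (((((hasDerivAt_id v).const_mul x1).const_add x0).add ((hasDerivAt_pow 2 v).const_mul x2)).add
    ((hasDerivAt_pow 3 v).const_mul x3)).congr_deriv (by push_cast; ring)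

theorem n_der (i v : ℝ) : (c.n D F i).Der (c.m D F i) v :=
  ⟨cub_der .., cub_der .., cub_der .., cub_der .., hasDerivAt_const ..⟩

theorem n_an (i v : ℝ) : (c.n D F i).An v := by
  refine ⟨?_, ?_, ?_, ?_, analyticAt_const⟩ <;> simp only [Cf.n] <;> fun_prop

theorem jet_cub (x0 x1 x2 x3 : ℝ) : Jet D F (fun t ↦ x0 + x1 * vR D F t + x2 * vR D F t ^ 2 +
    x3 * vR D F t ^ 3) x0 0 x1 0 x2 0 x3 :=
  (Jet.poly x0 x1 x2 x3 0).congr fun _ _ ↦ by ring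

theorem n_jet (hH : H0 D F ≠ 0) : ∃ b5 b6, Jet D F ((c.n D F (H0 D F)⁻¹).fn D F) 0 0
    (ja2 D F * (c.c0 + c.n10) / H0 D F ^ 2) 0
    (ja4 D F * (c.c0 + 2 * c.n10 + 2 * c.n20) / H0 D F ^ 2 +
      ja2 D F * (c.c1 D F + c.n11) / H0 D F ^ 3) b5 b6 := by
  obtain ⟨a6, U⟩ := jet_uR (D := D) (F := F)
  have T1 := U.th
  have T2 := T1.th
  have T3 := T2.th
  have J1 := ((Jet.const (1 / 2)).mul T1).congr (k := U1 D F) fun _ ↦ U1_eq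
  have J2 := (((Jet.const (1 / 4)).mul T2).lin T1 (1 / 2)).congr (k := U2 D F) fun _ ↦ U2_eq
  have J3 := ((((Jet.const (1 / 8)).mul T3).lin T2 (3 / 4)).add T1).congr (k := U3 D F)
    fun _ ↦ U3_eq
  refine ⟨_, _, ((((((jet_cub _ _ _ _).mul U).add ((jet_cub _ _ _ _).mul J1)).add
    ((jet_cub _ _ _ _).mul J2)).add ((jet_cub _ _ _ _).mul J3)).congr
      (k := (c.n D F (H0 D F)⁻¹).fn D F) fun t _ ↦ (add_eq_left.2 (zero_mul _))).cast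
        (by ring) ?_ ?_ ?_ ?_ rfl rfl⟩
  · simp only [Cf.c0]; ring
  · field_simp; ring
  · simp only [Cf.c0, Cf.c1]; field_simp; ring
  · field_simp; ring

theorem big_a (hH : H0 D F ≠ 0) : c.da D F =O[𝓝 0] fun t ↦ t ^ 7 := by
  obtain ⟨a6, K⟩ := (c.o F (H0 D F)⁻¹).K_jet (D := D) (F := F)
  obtain ⟨b5, b6, J⟩ := n_jet (c := c) hH
  have := ((K.lin (Jet.v.mul (Jet.v.mul J)) 1).cast (b0 := 0) (b1 := 0) (b2 := 0) (b3 := 0)
    (b4 := c.Ja D F / H0 D F ^ 2) (b5 := 0) (b6 := c.La D F / H0 D F ^ 3) (by ring) (by ring)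
    (by ring) (by simp [Cf.o]) (by simp only [Cf.o, Cf.Ja]; field_simp; ring)
    (by simp only [Cf.o]; ring) (by simp only [Cf.o, Cf.La]; field_simp; ring)).center7
    (E := fun v ↦ (c.e4 + c.e5 * (v / H0 D F) + c.e6 * (v / H0 D F) ^ 2 +
      c.e7 * (v / H0 D F) ^ 3) / H0 D F ^ 4) (by fun_prop)
  refine this.congr_left fun t ↦ ?_
  simp only [Cf.da, Cf.K, Cf.Ea, Es, Gp.KN]
  ring

theorem big_b (hH : H0 D F ≠ 0) : c.db D F =O[𝓝 0] fun t ↦ t ^ 7 := by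
  obtain ⟨a6, K⟩ := (c.o F (H0 D F)⁻¹).K_jet (D := D) (F := F)
  obtain ⟨b5, b6, J⟩ := n_jet (c := c) hH
  have := ((Gp.KN_jet _ (H0 D F) K J).cast (b0 := 0) (b1 := 0) (b2 := 0) (b3 := 0)
    (b4 := c.Jb D F / H0 D F ^ 2) (b5 := 0) (b6 := c.Lb D F / H0 D F ^ 3) rfl rfl rfl
    (by simp [Cf.o]) (by simp only [Cf.o, Cf.Jb]; field_simp; ring)
    (by simp only [Cf.o]; ring) (by simp only [Cf.o, Cf.Lb]; field_simp; ring)).center7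
    (E := fun v ↦ (c.g4 + c.g5 * (v / H0 D F) + c.g6 * (v / H0 D F) ^ 2 +
      c.g7 * (v / H0 D F) ^ 3) / H0 D F ^ 4) (by fun_prop)
  refine this.congr_left fun t ↦ ?_
  simp only [Cf.db, Cf.K, Cf.Eb, Es]
  ring

/-- the quadratic factor -/
noncomputable def Om (D F x : ℝ) : ℝ :=
  -D / (F - 1) + 2 * (1 + 2 * D) * x / (2 * F - 1) - (1 + D) * x ^ 2 / F

theorem vR_Om (hF : 1 < F) (t : ℝ) : vR D F t = H0 D F - exp ((2 * F - 2) * t) * Om D F (exp t) := by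
  have h1 := exp_eq_ph (2 * F * t)
  have h2 := exp_eq_ph ((2 * F - 1) * t)
  have h3 := exp_eq_ph ((2 * F - 2) * t)
  rw [exp_a1] at h1
  rw [exp_a2] at h2
  have a : F ≠ 0 := by linarith
  have b : 2 * F - 1 ≠ 0 := by linarith
  have d : F - 1 ≠ 0 := by linarith
  rw [vR_eq, H0, Om]
  generalize ph1 (2 * F * t) = x1, ph1 ((2 * F - 1) * t) = x2, ph1 ((2 * F - 2) * t) = x3,
    exp ((2 * F - 2) * t) = z at *
  field_simp
  linear_combination -(1 + D) * (2 * F - 1) * (F - 1) * h1 + 2 * (1 + 2 * D) * F * (F - 1) * h2 -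
    D * F * (2 * F - 1) * h3

theorem Om_mul (hF : 1 < F) (x : ℝ) : F * (2 * F - 1) * (F - 1) * Om D F x =
    2 * (F * (F - 1)) * ((1 + 2 * D) * x) - F * (2 * F - 1) * D -
      (2 * F - 1) * (F - 1) * ((1 + D) * x ^ 2) := by
  have a := mul_inv_cancel₀ (by linarith : F ≠ 0)
  have b := mul_inv_cancel₀ (by linarith : 2 * F - 1 ≠ 0)
  have d := mul_inv_cancel₀ (by linarith : F - 1 ≠ 0)
  simp only [Om, div_eq_mul_inv]
  linear_combination -F * (2 * F - 1) * D * d + 2 * (F * (F - 1)) * ((1 + 2 * D) * x) * b -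
    (2 * F - 1) * (F - 1) * ((1 + D) * x ^ 2) * a

theorem Om_pos (hF : 1 < F) (hD : D < 0) {x : ℝ} (h0 : 0 ≤ x) (h1 : x ≤ 1) :
    0 < Om D F x := by
  have b : 0 < 2 * F - 1 := by linarith
  have d : 0 < F - 1 := by linarith
  refine (mul_pos_iff_of_pos_left (mul_pos (mul_pos (by linarith : 0 < F) b) d)).1 ?_
  have p0 := mul_nonneg (mul_pos b d).le (sub_nonneg.2 h1)
  have p1 : 0 < F * (2 * F - 1) - (2 * F - 1) * (F - 1) * x := by linarith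
  have p2 : 0 < F - D - 1 + (2 * F - 1) * (F - 1) * (1 - x) := by linarith
  rw [Om_mul hF]
  rcases h1.eq_or_lt with rfl | h1
  · linarith
  · linarith [mul_pos (mul_pos (neg_pos.2 hD) (sub_pos.2 h1)) p1, mul_nonneg h0 p2.le]

theorem H0_pos (hF : 1 < F) (hD : D < 0) : 0 < H0 D F :=
  div_pos (by linarith) (mul_pos (mul_pos (by linarith) (by linarith)) (by linarith))

/-- The criterion. -/
theorem main (hF : 1 < F) (hD : D < 0) {B : ℝ}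
    (hs : ∀ t ∈ JR D, t ≠ 0 → vR D F t < H0 D F → c.Pos D F t)
    (hP : ∀ e, 0 ≤ e → e ≤ 1 → 0 < c.a1 + e * (c.a2 + e * c.a3) ∧
      0 < -(B * (B * ((1 - e) * (c.a1 + e * (c.a2 + e * c.a3))) +
        (c.q1 + e * (c.q2 + e * (c.a3 - c.a2 + c.q3 F - e * (4 * c.a3))))) +
        (-16 * c.a1 - 4 * c.q1 + e * (c.r2 + e * (c.q3 F - e * (3 * c.a3)))))) : NoThree D F := by
  have H := H0_pos hF hD
  refine ((c.o F (H0 D F)⁻¹).cnt2 (I := univ) 1 (fun _ ↦ B) (fun _ ↦ 0) ordConnected_univ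
    fun h _ ⟨a, ha, b, _, a0, _, e, _⟩ ↦ ?_).noThree (fun _ _ ↦ trivial) le_rfl
  have l0 : 0 < h := e ▸ vR_pos ha a0.ne
  have l1 : h < H0 D F := by
    rw [← e, vR_Om hF]
    exact sub_lt_self _ (mul_pos (exp_pos _) (Om_pos hF hD (exp_pos _).le
      (exp_le_one_iff.2 a0.le)))
  have m0 : 0 < (H0 D F)⁻¹ * h := by positivity
  have m1 : (H0 D F)⁻¹ * h < 1 := by rwa [inv_mul_lt_iff₀ H, mul_one]
  obtain ⟨p1, p2⟩ := hP _ m0.le m1.le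
  refine ⟨hasDerivAt_const .., ?_, ?_, ?_⟩
  · have := mul_pos (mul_pos m0 (sub_pos.2 m1)) p1
    simp only [Gp.P, Cf.o]
    linarith
  · have := mul_pos m0 p2
    simp only [Gp.P, Gp.Q, Gp.S, Cf.o]
    linarith
  refine sg_of_sep0 (f := (c.n D F (H0 D F)⁻¹).fn D F) (fun v ↦ ((H0 D F - h) * c.Ea D F v +
    (h - v) * c.Eb D F v) / (H0 D F - v)) (fun t ht _ ↦ (n_an _ _).fn ht) fun t ht t0 l ↦ ?_
  obtain ⟨s1, s2⟩ := hs t ht t0 (l.trans l1)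
  have l2 : 0 < H0 D F - vR D F t := by linarith
  refine (mul_pos_iff_of_pos_left l2).1 ?_
  have := add_pos (mul_pos (sub_pos.2 l1) s1) (mul_pos (sub_pos.2 l) s2)
  simp only [Cf.da, Cf.db, Cf.K, Gp.KN] at this ⊢
  generalize (c.o F (H0 D F)⁻¹).K D F t = x at *
  generalize (c.n D F (H0 D F)⁻¹).fn D F = f at *
  have l3 := l2.ne'
  refine this.trans_eq ?_
  field_simp
  ring

end Pool.Agent.Lib.MP_d6150d_an.S10
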