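import Pool.Agent.Lib.MP_d6150d_an.S10x
import Pool.Agent.Lib.MP_d6150d_an.GMac

/-! The strip near `F = 4 / 3`: from the charts to the sign conditions. -/

namespace Pool.Agent.Lib.MP_d6150d_an.S10

open Real Set Filter Topology Asymptotics

/-- the quantities which depend on the parameters only -/
structure Bs (c : Cf) (D F N M iN iM H iH iF l2 q3 A2 A3 c0 c1 A4 Ja La Jb Lb : ℝ) : Prop where
  hN : N = F * (2 * F - 1) * (F - 1)
  hM : M = F - D - 1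
  hiN : iN = N⁻¹
  hiM : iM = M⁻¹
  hH : H = M * iN
  hiH : iH = N * iM
  hiF : iF = (2 * F - 1) * (F - 1) * iN
  hl2 : l2 = (4 - 3 * F) * (F * (2 * F - 1)) * iN
  hq3 : q3 = l2 * (c.a1 + c.a2 + c.a3 + 4 * c.k) + (-c.a1 + 2 * c.a3 - c.q1 - c.q2)
  hA2 : A2 = (1 - F - 2 * D) / 6 * H
  hA3 : A3 = (1 - D + 10 * D ^ 2 + F * (4 * F + 10 * D - 5)) / 36 * H
  hc0 : c0 = ((-4) * c.n10 + 2 * c.n20 - 3 * c.n30) / 8
  hc1 : c1 = ((-4) * c.n11 + 2 * c.n21 - 3 * c.n31 + 3 * c.n30) / 8 - A3 * (8 * c.n10 + 8 * c.n20 -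
    6 * c.n30) / 8
  hA4 : A4 = (4 - 57 * F - 6 * D + F * (156 * F + 102 * D - F * (103 * F + 312 * D)) - D ^ 2 * (60 +
    480 * F + 320 * D)) / 1080 * H ^ 2
  hJa : Ja = A2 * ((-14) * c.a1 - 2 * c.q1)
  hLa : La = A4 * (108 * c.a1 + 12 * c.q1) + A2 * (27 * c.a2 - 27 * c.a1 + 9 * c.q2 + 3 * c.r2 - c0
    - c.n10)
  hJb : Jb = A2 * ((-14) * c.a1 - 2 * c.q1 + 2 * c0 + 2 * c.n10)
  hLb : Lb = A4 * (108 * c.a1 + 12 * c.q1 + 4 * c0 + 8 * c.n10 + 8 * c.n20) + A2 * (27 * c.a2 - 27 *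
    c.a1 + 9 * c.q2 + 3 * c.r2 - 3 * c0 - 3 * c.n10 + 4 * c1 + 4 * c.n11)

/-- the quantities which depend on the level -/
structure Kn (c : Cf) (iF q3 c0 c1 Ja La Jb Lb e X k0a k0b ua ub k4a k4b k3a k3b k2a k2b k1a k1b Sa Sb : ℝ) :
    Prop where
  hk0a : k0a = -c.a2 + c.a1 - c.q2 - c.r2 - c0 + e * ((-3) * c.a3 + 3 * c.a2 - 3 * q3 - c1 + e * (15
    * c.a3 - c.n02 + e * (-c.n03)))
  hk0b : k0b = k0a + X * (2 * c1 + e * (4 * c.n02 + e * (6 * c.n03)))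
  hua : ua = iF * k0a
  hub : ub = iF * k0b
  hk4a : k4a = 16 * c.a1 + e * (16 * c.a2 + e * (16 * c.a3))
  hk4b : k4b = k4a + X * (2 * c.n30 + e * (2 * c.n31))
  hk3a : k3a = 104 * c.a1 + 8 * c.q1 + e * (112 * c.a2 - 112 * c.a1 + 8 * c.q2 - c.n30 + e * (128 *
    c.a3 - 128 * c.a2 + 8 * q3 - c.n31 + c.n30 + e * ((-160) * c.a3 + c.n31)))
  hk3b : k3b = k3a + X * (6 * c.n30 + 2 * c.n20 + e * (8 * c.n31 - 8 * c.n30 + 2 * c.n21 + e *
    ((-10) * c.n31 + 2 * c.n22)))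
  hk2a : k2a = 68 * c.a1 + 8 * c.q1 + e * (160 * c.a2 - 160 * c.a1 + 28 * c.q2 + 4 * c.r2 - c.n20 +
    e * (216 * c.a3 - 216 * c.a2 + 36 * q3 - c.n21 + e * ((-360) * c.a3 - c.n22)))
  hk2b : k2b = k2a + X * (4 * c.n20 + 2 * c.n10 + e * (6 * c.n21 + 2 * c.n11 + e * (8 * c.n22 + 2 *
    c.n12)))
  hk1a : k1a = (-14) * c.a1 - 2 * c.q1 + e * (28 * c.a2 - 28 * c.a1 + 10 * c.q2 + 4 * c.r2 - c.n10 +
    e * (48 * c.a3 - 48 * c.a2 + 18 * q3 - c.n11 + e * ((-120) * c.a3 - c.n12)))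
  hk1b : k1b = k1a + X * (2 * c.n10 + 2 * c0 + e * (4 * c.n11 + 2 * c1 + e * (6 * c.n12 + 2 * c.n02
    + e * (2 * c.n03))))
  hSa : Sa = Ja + e * (La + e * (c.e4 + e * (c.e5 + e * (c.e6 + e * c.e7)))) + ua
  hSb : Sb = Jb + e * (Lb + e * (c.g4 + e * (c.g5 + e * (c.g6 + e * c.g7)))) + ub

/-- the chart at the center -/
structure Ce (D F t iH ua ub k4a k4b k3a k3b k2a k2b k1a k1b x w P Q R f1 yi W mu m e X Y W7 x4a za
    x4b zb : ℝ) : Prop where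
  hx : x = Real.exp t
  hw : w = (1 + D) * x - D
  hP : P = (1 + D) * x ^ 2
  hQ : Q = (1 + 2 * D) * x
  hR : R = D
  hf1 : f1 = ph1 t
  hyi : yi = Real.exp (-(F * t))
  hW : W = f1 * w
  hmu : mu = muR D F t
  hm : m = t * mu * iH
  he : e = t * m
  hX : X = 1 - e
  hY : Y = mu * (x * yi) ^ 2 / 2
  hW7 : W7 = W ^ 7 * m
  hx4a : x4a = X * k4a
  hza : za = x4a * (Y ^ 4 * (pjR F P Q R).2.2) + k3a * (Y ^ 3 * (pjR F P Q R).2.1 * W ^ 2) + k2a *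
    (Y ^ 2 * (pjR F P Q R).1 * W ^ 4) + k1a * (Y * W ^ 6)
  hx4b : x4b = X * k4b
  hzb : zb = x4b * (Y ^ 4 * (pjR F P Q R).2.2) + k3b * (Y ^ 3 * (pjR F P Q R).2.1 * W ^ 2) + k2b *
    (Y ^ 2 * (pjR F P Q R).1 * W ^ 4) + k1b * (Y * W ^ 6)

/-- the chart on the left branch -/
structure Lf (D F H iM z x k4a k4b k3a k3b k2a k2b k1a k1b P Q W O X e Y zz W7 x4a x2a x1a za x4b
    x2b x1b zb : ℝ) : Prop where
  hP : P = (1 + D) * x ^ 2
  hQ : Q = (1 + 2 * D) * x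
  hW : W = Q - P - D
  hO : O = (2 * (F * (F - 1)) * Q - F * (2 * F - 1) * D - (2 * F - 1) * (F - 1) * P) * iM
  hX : X = z * O
  he : e = 1 - X
  hY : Y = H * e / 2
  hzz : zz = z ^ 2
  hW7 : W7 = W ^ 7 * (e * z)
  hx4a : x4a = O * k4a
  hx2a : x2a = z * k2a
  hx1a : x1a = zz * k1a
  hza : za = x4a * (Y ^ 4 * (pjR F P Q D).2.2) + k3a * (Y ^ 3 * (pjR F P Q D).2.1 * W ^ 2) + x2a *
    (Y ^ 2 * (pjR F P Q D).1 * W ^ 4) + x1a * (Y * W ^ 6)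
  hx4b : x4b = O * k4b
  hx2b : x2b = z * k2b
  hx1b : x1b = zz * k1b
  hzb : zb = x4b * (Y ^ 4 * (pjR F P Q D).2.2) + k3b * (Y ^ 3 * (pjR F P Q D).2.1 * W ^ 2) + x2b *
    (Y ^ 2 * (pjR F P Q D).1 * W ^ 4) + x1b * (Y * W ^ 6)

variable {c : Cf} {D F N M iN iM H iH iF l2 q3 A2 A3 c0 c1 A4 Ja La Jb Lb e X k0a k0b ua ub k4a k4b
    k3a k3b k2a k2b k1a k1b Sa Sb t x w P Q R f1 yi W mu m Y W7 x4a za x4b zb z O zz x2a x1a x2b x1b
    : ℝ}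

theorem Bs.eq (hF : 1 < F) (hD : D < 0)
    (b : Bs c D F N M iN iM H iH iF l2 q3 A2 A3 c0 c1 A4 Ja La Jb Lb) :
    H = H0 D F ∧ iH = (H0 D F)⁻¹ ∧ iF * F = 1 ∧ N * iM = iH ∧ l2 = (4 - 3 * F) / (F - 1) ∧
      q3 = c.q3 F ∧ c0 = c.c0 ∧ c1 = c.c1 D F ∧ Ja = c.Ja D F ∧ La = c.La D F ∧ Jb = c.Jb D F ∧
      Lb = c.Lb D F := by
  obtain ⟨hN, hM, hiN, hiM, hH, hiH, hiF, hl2, hq3, hA2, hA3, hc0, hc1, hA4, hJa, hLa, hJb, hLb⟩ := b
  have n0 : N ≠ 0 := hN ▸ (mul_pos (mul_pos (by linarith) (by linarith)) (by linarith)).ne'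
  have n1 : N * iN = 1 := hiN ▸ mul_inv_cancel₀ n0
  have e1 : H = H0 D F := by rw [hH, hiN, hN, hM, H0, div_eq_mul_inv]
  have e2 : l2 = (4 - 3 * F) / (F - 1) := by
    rw [eq_div_iff (by linarith), hl2]; linear_combination (4 - 3 * F) * (n1 - iN * hN)
  have e3 : A2 = ja2 D F * H0 D F := by rw [hA2, e1, ja2]
  have e4 : A3 = ja3 D F * H0 D F := by rw [hA3, e1, ja3]; ring
  have e5 : A4 = ja4 D F * H0 D F ^ 2 := by rw [hA4, e1, ja4]; ring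
  have e6 : c0 = c.c0 := by rw [hc0, Cf.c0]
  have e7 : c1 = c.c1 D F := by rw [hc1, e4, Cf.c1]
  refine ⟨e1, by rw [← e1, hH, hiH, hiN, hiM, mul_inv, inv_inv, mul_comm], ?_, hiH.symm, e2,
    by rw [hq3, e2, Cf.q3], e6, e7, by rw [hJa, e3, Cf.Ja], ?_, ?_, ?_⟩
  · rw [hiF]; linear_combination n1 - iN * hN
  · rw [hLa, e3, e5, e6, Cf.La]; ring
  · rw [hJb, e3, e6, Cf.Jb]; ring
  · rw [hLb, e3, e5, e6, e7, Cf.Lb]; ring

theorem hat (hF : 1 < F) (hD : D < 0)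
    (b : Bs c D F N M iN iM H iH iF l2 q3 A2 A3 c0 c1 A4 Ja La Jb Lb)
    (k : Kn c iF q3 c0 c1 Ja La Jb Lb e X k0a k0b ua ub k4a k4b k3a k3b k2a k2b k1a k1b Sa Sb)
    (ht : t ∈ JR D) (he : e = iH * vR D F t) (hX : X = 1 - e) :
    c.da D F t = e * (X * k4a * U4 D F t + k3a * U3 D F t + k2a * U2 D F t + k1a * U1 D F t) +
      e ^ 2 * (exp (F * t) * ua - Sa) ∧
    c.db D F t = e * (X * k4b * U4 D F t + k3b * U3 D F t + k2b * U2 D F t + k1b * U1 D F t) +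
      e ^ 2 * (exp (F * t) * ub - Sb) := by
  obtain ⟨e1, e2, e3, -, -, rfl, rfl, rfl, rfl, rfl, rfl, rfl⟩ := b.eq hF hD
  have hu : uR F t = iF * (exp (F * t) - 1) := by
    rw [exp_eq_ph, uR]; linear_combination -(t * ph1 (F * t)) * e3
  have hH : H0 D F - vR D F t = H0 D F * X := by
    rw [hX, he, e2, mul_sub, mul_inv_cancel_left₀ (H0_pos hF hD).ne', mul_one]
  have hi : iH * H0 D F = 1 := e2 ▸ inv_mul_cancel₀ (H0_pos hF hD).ne'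
  obtain ⟨h0a, h0b, rfl, rfl, h4a, h4b, h3a, h3b, h2a, h2b, h1a, h1b, rfl, rfl⟩ := k
  rw [Cf.da, Cf.db, Cf.K, Cf.K, Gp.KN_eq _ _ (n_der _ _) ht, Gp.KN_eq _ _ (n_der _ _) ht]
  simp only [hu, Cf.Ea, Cf.Eb, Es, Gp.k4, Gp.k3,
    Gp.k2, Gp.k1, Gp.k0, Gp.kg, Gp.P, Gp.C3, Gp.C2, Gp.C1, Gp.C0, Cf.o, Cf.n, Cf.m, ← e2, sub_self]
  constructor
  · subst h0a h4a h3a h2a h1a hX he
    ring
  · have h5 : iH * (H0 D F - vR D F t) = X := by rw [hH, ← mul_assoc, hi, one_mul]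
    generalize H0 D F - vR D F t = d at h5
    rw [← h5] at h0b h4b h3b h2b h1b
    subst h0b h4b h3b h2b h1b h0a h4a h3a h2a h1a
    rw [hX]
    subst he
    ring

theorem hom4 {l s k4 k3 k2 k1 : ℝ} (ht : t ∈ JR D) (h0 : t ≠ 0) (hs : s ≠ 0)
    (hP : P = l * PR D t) (hQ : Q = l * QR D t) (hR : R = l * D) (hY : s ^ 2 * Y = l * yR D F t)
    (hW : s * W = l * wR D t) :
    W ^ 7 * (k4 * U4 D F t + k3 * U3 D F t + k2 * U2 D F t + k1 * U1 D F t) = s * exp (F * t) *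
      (k4 * (Y ^ 4 * (pjR F P Q R).2.2) + k3 * (Y ^ 3 * (pjR F P Q R).2.1 * W ^ 2) +
        k2 * (Y ^ 2 * (pjR F P Q R).1 * W ^ 4) + k1 * (Y * W ^ 6)) := by
  have hw := wR_ne ht h0
  obtain rfl : Y = l * yR D F t / s ^ 2 := by rw [← hY]; field_simp
  obtain rfl : W = l * wR D t / s := by rw [← hW]; field_simp
  subst hP hQ hR
  simp only [pjR_smul, U1, U2, U3, U4]
  field_simp

/-- the relation between a goal at the center and the kernel -/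
def Rel (D F g d t : ℝ) : Prop :=
  g * (t ^ 3 * (muR D F t * (H0 D F)⁻¹ * exp (F * t))) = (ph1 t * om D t) ^ 7 * d

theorem cen (hF : 1 < F) (hD : D < 0)
    (b : Bs c D F N M iN iM H iH iF l2 q3 A2 A3 c0 c1 A4 Ja La Jb Lb)
    (k : Kn c iF q3 c0 c1 Ja La Jb Lb e X k0a k0b ua ub k4a k4b k3a k3b k2a k2b k1a k1b Sa Sb)
    (p : Ce D F t iH ua ub k4a k4b k3a k3b k2a k2b k1a k1b x w P Q R f1 yi W mu m e X Y W7 x4a za x4b
    zb)
    (ht : t ∈ JR D) (h0 : t ≠ 0) : Rel D F (za + W7 * (ua - yi * Sa)) (c.da D F t) t ∧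
      Rel D F (zb + W7 * (ub - yi * Sb)) (c.db D F t) t := by
  obtain ⟨hx, hw, hP, hQ, hR, hf, hy, hW, hmu, hm, he, hX, hY, h7, h4a, ha, h4b, hb⟩ := p
  obtain ⟨d1, d2⟩ := hat hF hD b k ht (by rw [he, hm, hmu, vR]; ring) hX
  have y1 : exp (F * t) * yi = 1 := by rw [hy, ← exp_add]; simp
  have y2 : exp ((2 - 2 * F) * t) = (x * yi) ^ 2 := by
    rw [hx, hy, ← exp_add, sq, ← exp_add]; congr 1; ring
  have w1 : W = ph1 t * om D t := by rw [hW, hf, hw, hx, om]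
  have H := fun k4 k3 k2 k1 ↦ hom4 (F := F) (l := 1) (s := t) (P := P) (Q := Q) (R := R) (Y := Y)
    (W := W) (k4 := k4) (k3 := k3) (k2 := k2) (k1 := k1) ht h0 h0 (by rw [hP, hx, PR, one_mul])
    (by rw [hQ, hx, QR, one_mul]) (by rw [hR, one_mul]) (by rw [hY, hmu, yR, vR, y2]; ring)
    (by rw [w1, wR_eq, exp_eq_ph t]; ring)
  have a1 := H x4a k3a k2a k1a
  have a2 := H x4b k3b k2b k1b
  rw [← ha] at a1
  rw [← hb] at a2
  simp only [Rel, ← w1, ← hmu, ← (b.eq hF hD).2.1, d1, d2, ← h4a, ← h4b]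
  subst h7 he hm
  constructor
  · linear_combination -(t * (t * mu * iH)) * a1 - W ^ 7 * (t * (t * mu * iH)) ^ 2 * Sa * y1
  · linear_combination -(t * (t * mu * iH)) * a2 - W ^ 7 * (t * (t * mu * iH)) ^ 2 * Sb * y1

theorem Rel.pos {g d : ℝ} (hF : 1 < F) (hD : D < 0) (h : Rel D F g d t) (ht : t ∈ JR D) (h0 : t ≠ 0)
    (hg : 0 < g) : 0 < t * d := by
  have p1 : 0 < (ph1 t * om D t) ^ 7 := pow_pos (mul_pos (ph1_pos t) ht) 7
  have p2 : 0 < muR D F t * (H0 D F)⁻¹ * exp (F * t) :=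
    mul_pos (mul_pos (muR_pos ht) (inv_pos.2 (H0_pos hF hD))) (exp_pos _)
  refine (mul_pos_iff_of_pos_left p1).1 ?_
  rw [mul_left_comm, ← h]
  have := mul_pos (mul_pos hg p2) (by positivity : 0 < t ^ 4)
  linarith

theorem Rel.big {G d : ℝ → ℝ} {T : ℝ} (hF : 1 < F) (hD : D < 0) (hT : T ≠ 0)
    (hd : d =O[𝓝 0] fun t ↦ t ^ 7)
    (h : ∀ r, T * r ∈ JR D → T * r ≠ 0 → Rel D F (G r) (d (T * r)) (T * r)) :
    G =O[𝓝[>] 0] fun r ↦ r ^ 4 := by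
  have z := zero_mem_JR D
  have c1 : ContinuousAt (fun t ↦ (ph1 t * om D t) ^ 7 /
      (muR D F t * (H0 D F)⁻¹ * exp (F * t))) 0 := by
    refine ContinuousAt.div (((ph1_an 0).continuousAt.mul (by unfold om; fun_prop)).pow 7)
      (((muR_an D F 0).continuousAt.mul continuousAt_const).mul (by fun_prop)) ?_
    exact (mul_pos (mul_pos (muR_pos z) (inv_pos.2 (H0_pos hF hD))) (exp_pos _)).ne'
  have c2 : Tendsto (fun r ↦ T * r) (𝓝[>] 0) (𝓝 0) := by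
    have : Tendsto (fun r ↦ T * r) (𝓝 0) (𝓝 (T * 0)) := (continuous_const.mul continuous_id).tendsto 0
    exact (mul_zero T ▸ this).mono_left nhdsWithin_le_nhds
  have c3 := (((c1.isBigO_one ℝ).mul hd).comp_tendsto c2).mul
    (isBigO_refl (fun r ↦ ((T * r) ^ 3)⁻¹) _)
  refine (c3.congr' ?_ ?_).trans (isBigO_const_mul_self (T ^ 4) _ _)
  · filter_upwards [c2.eventually ((JR_open D).mem_nhds z), self_mem_nhdsWithin] with r m r0
    have r1 : T * r ≠ 0 := mul_ne_zero hT (ne_of_gt r0)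
    have p2 := (mul_pos (mul_pos (muR_pos (F := F) m) (inv_pos.2 (H0_pos hF hD)))
      (exp_pos (F * (T * r)))).ne'
    simp only [Function.comp]
    rw [div_mul_eq_mul_div, ← h r m r1]
    generalize muR D F (T * r) * (H0 D F)⁻¹ * exp (F * (T * r)) = y at *
    generalize T * r = s at *
    field_simp
  · filter_upwards [self_mem_nhdsWithin] with r r0
    have r1 : r ≠ 0 := ne_of_gt r0
    simp only [Function.comp]
    field_simp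

theorem left {n : ℝ} (hF : 1 < F) (hD : D < 0)
    (b : Bs c D F N M iN iM H iH iF l2 q3 A2 A3 c0 c1 A4 Ja La Jb Lb)
    (k : Kn c iF q3 c0 c1 Ja La Jb Lb e X k0a k0b ua ub k4a k4b k3a k3b k2a k2b k1a k1b Sa Sb)
    (p : Lf D F H iM z x k4a k4b k3a k3b k2a k2b k1a k1b P Q W O X e Y zz W7 x4a x2a x1a za x4b x2b x1b
    zb)
    (h0 : t < 0) (hx : x = exp t) (hz : z = exp ((2 * F - 2) * t)) (hn : n = exp ((3 * F - 4) * t))
    (ga : 0 < W7 * n → 0 < za + W7 * (n * Sa - zz * ua))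
    (gb : 0 < W7 * n → 0 < zb + W7 * (n * Sb - zz * ub)) : c.Pos D F t := by
  obtain ⟨hP, hQ, hW, hO, hX, he, hY, hzz, h7, h4a, h2a, h1a, ha, h4b, h2b, h1b, hb⟩ := p
  have x1 := exp_lt_one_iff.2 h0
  have ht : t ∈ JR D := by
    have := exp_pos t
    simp only [JR, om, mem_ofPred_eq]; nlinarith
  obtain ⟨e1, e2, -, e4, -⟩ := b.eq hF hD
  have H := H0_pos hF hD
  have hi : iH * H0 D F = 1 := e2 ▸ inv_mul_cancel₀ H.ne'
  have o1 : O = iH * Om D F (exp t) := by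
    rw [hO, ← e4, b.hN, hP, hQ, hx, ← Om_mul hF]; ring
  have o2 : e = iH * vR D F t := by
    rw [he, hX, o1, vR_Om hF, hz]; linear_combination -hi
  obtain ⟨d1, d2⟩ := hat hF hD b k ht o2 (by rw [he]; ring)
  have w1 : -1 * W = 1 * wR D t := by rw [hW, hP, hQ, hx, wR, PR, QR]; ring
  have w2 : 0 < W := by
    have := mul_pos (sub_pos.2 x1) (ht : 0 < om D t)
    rw [wR_eq] at w1; linarith
  have z0 : 0 < z := hz ▸ exp_pos _
  have e0 : 0 < e := by rw [o2, e2]; exact mul_pos (inv_pos.2 H) (vR_pos ht h0.ne)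
  have y1 : Y = z * yR D F t := by
    rw [hY, e1, o2, yR, hz]
    linear_combination vR D F t / 2 * hi - vR D F t / 2 * exp_y (F := F) t
  have y2 : n * exp (F * t) = z ^ 2 := by
    rw [hn, hz, sq, ← exp_add, ← exp_add]; congr 1; ring
  have n0 : 0 < W7 * n := by rw [h7, hn]; positivity
  have Hh := fun k4 k3 k2 k1 ↦ hom4 (F := F) (l := 1) (s := -1) (P := P) (Q := Q) (R := D)
    (Y := yR D F t) (W := W) (k4 := k4) (k3 := k3) (k2 := k2) (k1 := k1) ht h0.ne (by norm_num)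
    (by rw [hP, hx, PR, one_mul]) (by rw [hQ, hx, QR, one_mul]) (by rw [one_mul]) (by ring) w1
  have a1 := Hh (X * k4a) k3a k2a k1a
  have a2 := Hh (X * k4b) k3b k2b k1b
  have p1 := mul_pos (mul_pos e0 (exp_pos (F * t))) (ga n0)
  have p2 := mul_pos (mul_pos e0 (exp_pos (F * t))) (gb n0)
  have p3 : 0 < z ^ 3 * W ^ 7 := by positivity
  subst ha hb h4a h2a h1a h4b h2b h1b hzz h7 y1
  rw [hX] at a1 a2 d1 d2
  constructor <;> refine mul_pos_of_neg_of_neg h0 (neg_of_mul_neg_left ?_ p3.le)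
  · rw [d1]
    refine Eq.trans_lt ?_ (neg_neg_of_pos p1)
    linear_combination z ^ 3 * e * a1 + e ^ 2 * z * W ^ 7 * Sa * y2
  · rw [d2]
    refine Eq.trans_lt ?_ (neg_neg_of_pos p2)
    linear_combination z ^ 3 * e * a2 + e ^ 2 * z * W ^ 7 * Sb * y2

theorem mid {u s n : ℝ} (hF : 1 < F) (hD : D < 0)
    (b : Bs c D F N M iN iM H iH iF l2 q3 A2 A3 c0 c1 A4 Ja La Jb Lb)
    (k : Kn c iF q3 c0 c1 Ja La Jb Lb e X k0a k0b ua ub k4a k4b k3a k3b k2a k2b k1a k1b Sa Sb)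
    (p : Lf D F H iM z x k4a k4b k3a k3b k2a k2b k1a k1b P Q W O X e Y zz W7 x4a x2a x1a za x4b x2b x1b
    zb)
    (h0 : t < 0) (hu : u = exp (t / 3)) (hs : s = exp ((F - 4 / 3) * t)) (hz : z = (u * s) ^ 2)
    (hx : x = u ^ 3) (hn : n = s ^ 3) (ga : 0 < za + W7 * (n * Sa - zz * ua))
    (gb : 0 < zb + W7 * (n * Sb - zz * ub)) : c.Pos D F t :=
  left hF hD b k p h0 (by rw [hx, hu, ← exp_nat_mul]; congr 1; push_cast; ring)
    (by rw [hz, hu, hs, ← exp_add, ← exp_nat_mul]; congr 1; push_cast; ring)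
    (by rw [hn, hs, ← exp_nat_mul]; congr 1; push_cast; ring) (fun _ ↦ ga) fun _ ↦ gb

theorem tail {T z0 r0 : ℝ} (hF : 1 < F) (hD : D < 0)
    (b : Bs c D F N M iN iM H iH iF l2 q3 A2 A3 c0 c1 A4 Ja La Jb Lb)
    (k : Kn c iF q3 c0 c1 Ja La Jb Lb e X k0a k0b ua ub k4a k4b k3a k3b k2a k2b k1a k1b Sa Sb)
    (p : Lf D F H iM z x k4a k4b k3a k3b k2a k2b k1a k1b P Q W O X e Y zz W7 x4a x2a x1a za x4b x2b x1b
    zb)
    (h0 : t < 0) (h1 : z0 = exp (-(T * (2 * F - 2)))) (h2 : r0 = exp (-(T * (3 - 2 * F))))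
    (hz : z = z0 * exp ((2 * F - 2) * (t + T))) (hx : x = r0 * exp ((3 - 2 * F) * (t + T)) * z)
    (ga : 0 < za - W7 * (zz * ua)) (gb : 0 < zb - W7 * (zz * ub)) (sa : 0 < Sa) (sb : 0 < Sb) :
    c.Pos D F t :=
  left hF hD b k p h0 (by rw [hx, hz, h1, h2]; simp only [← exp_add]; congr 1; ring)
    (by rw [hz, h1, ← exp_add]; congr 1; ring) rfl (fun h ↦ by linarith [mul_pos h sa])
    fun h ↦ by linarith [mul_pos h sb]

theorem tail0 {z0 r : ℝ} (hF : 1 < F) (hD : D < 0)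
    (b : Bs c D F N M iN iM H iH iF l2 q3 A2 A3 c0 c1 A4 Ja La Jb Lb)
    (k : Kn c iF q3 c0 c1 Ja La Jb Lb e X k0a k0b ua ub k4a k4b k3a k3b k2a k2b k1a k1b Sa Sb)
    (p : Lf D F H iM z x k4a k4b k3a k3b k2a k2b k1a k1b P Q W O X e Y zz W7 x4a x2a x1a za x4b x2b x1b
    zb)
    (hz : z = z0 * 0) (hx : x = r * z) (h2 : F ≤ 2) (hk : 0 < c.k) :
    0 ≤ za - W7 * (zz * ua) ∧ 0 ≤ zb - W7 * (zz * ub) := by
  obtain ⟨hP, hQ, hW, hO, hX, he, hY, hzz, h7, h4a, h2a, h1a, ha, h4b, h2b, h1b, hb⟩ := p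
  obtain ⟨e1, e2, -, e4, -, e5, -⟩ := b.eq hF hD
  have H' := H0_pos hF hD
  have hi : iH * H = 1 := by rw [e1, e2]; exact inv_mul_cancel₀ H'.ne'
  have f1 : 0 < F - 1 := by linarith
  obtain rfl : z = 0 := by rw [hz, mul_zero]
  obtain rfl : x = 0 := by rw [hx, mul_zero]
  obtain rfl : X = 0 := by rw [hX, zero_mul]
  obtain rfl : e = 1 := by rw [he, sub_zero]
  obtain rfl : P = 0 := by rw [hP]; ring
  obtain rfl : Q = 0 := by rw [hQ]; ring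
  have o1 : O * H * (F - 1) = -D := by
    rw [hO]; linear_combination -D * hi - D * H * e4 + D * H * iM * b.hN
  have o2 : q3 * (F - 1) = (4 - 3 * F) * (c.a1 + c.a2 + c.a3 + 4 * c.k) +
      (-c.a1 + 2 * c.a3 - c.q1 - c.q2) * (F - 1) := by rw [e5, Cf.q3]; field_simp
  have l4 : k4b = k4a := by rw [k.hk4b, zero_mul, add_zero]
  have l3 : k3b = k3a := by rw [k.hk3b, zero_mul, add_zero]
  have key : za * (F - 1) = (H / 2) ^ 3 * (2 - F) * D ^ 4 * (32 * c.k) * (4 - 3 * F) ^ 2 := by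
    rw [ha, h4a, h2a, h1a, hzz, hW, hY, k.hk4a, k.hk3a]
    simp only [pjR]
    linear_combination (H / 2) ^ 3 * (2 - F) * (4 - 3 * F) * D ^ 3 *
      (8 * (6 - 5 * F) * (c.a1 + c.a2 + c.a3) * o1 + 8 * D * o2)
  have k1 : 0 ≤ za := nonneg_of_mul_nonneg_left (key ▸ by
    have := sub_nonneg.2 h2
    have := e1 ▸ H'
    positivity) f1
  have k2 : zb = za := by rw [ha, hb, h4a, h4b, h2a, h2b, h1a, h1b, hzz, l4, l3]; ring
  rw [k2, hzz]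
  constructor <;> linarith

theorem rng {B : ℝ} (hF : 1 < F) (hD : D < 0)
    (b : Bs c D F N M iN iM H iH iF l2 q3 A2 A3 c0 c1 A4 Ja La Jb Lb)
    (g0 : 0 < c.a1 + e * (c.a2 + e * c.a3))
    (g1 : 0 < -(B * (B * (c.a1 + e * (c.a2 - c.a1 + e * (c.a3 - c.a2 + e * (-c.a3)))) + (c.q1 + e * (c.q2 + e *
    (c.a3 - c.a2 + q3 + e * ((-4) * c.a3))))) + ((-16) * c.a1 - 4 * c.q1 + e * (c.r2 + e * (q3 + e *
    ((-3) * c.a3)))))) :
    0 < c.a1 + e * (c.a2 + e * c.a3) ∧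
      0 < -(B * (B * ((1 - e) * (c.a1 + e * (c.a2 + e * c.a3))) +
        (c.q1 + e * (c.q2 + e * (c.a3 - c.a2 + c.q3 F - e * (4 * c.a3))))) +
        (-16 * c.a1 - 4 * c.q1 + e * (c.r2 + e * (c.q3 F - e * (3 * c.a3)))))  :=
  ⟨g0, g1.trans_eq (by rw [(b.eq hF hD).2.2.2.2.2.1]; ring)⟩

theorem rngT {T : ℝ} (hF : 1 < F) (hx : x = exp T)
    (g : 0 < F * (2 * F - 1) * D + (2 * F - 1) * (F - 1) * ((1 + D) * x ^ 2) - 2 * (F * (F - 1)) * ((1 + 2 * D) *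
    x)) : Om D F (exp T) < 0 := by
  have p : 0 < F * (2 * F - 1) * (F - 1) := mul_pos (mul_pos (by linarith) (by linarith)) (by linarith)
  refine neg_of_mul_neg_left ?_ p.le
  rw [mul_comm, Om_mul hF, ← hx]; linarith

theorem T_pos {T : ℝ} (hF : 1 < F) (hD : D < 0) (hT : Om D F (exp T) < 0) : 0 < T :=
  not_le.1 fun h ↦ (Om_pos hF hD (exp_pos _).le (exp_le_one_iff.2 h)).not_gt hT

theorem cover {T S : ℝ} (hF : 1 < F) (hD : D < 0) (h2 : F ≤ 3 / 2) (hT : Om D F (exp T) < 0)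
    (hr : ∀ r, 0 < r → r ≤ 1 → T * r ∈ JR D → T * r ≠ 0 → c.Pos D F (T * r))
    (hl : ∀ r, 0 < r → r ≤ 1 → -1 * r ∈ JR D → -1 * r ≠ 0 → c.Pos D F (-1 * r))
    (hm : ∀ t, -S ≤ t → t ≤ -1 → c.Pos D F t)
    (ht : ∀ t, t < 0 → exp ((3 - 2 * F) * (t + S)) ≤ 1 → exp ((2 * F - 2) * (t + S)) ≤ 1 →
      c.Pos D F t) : ∀ t ∈ JR D, t ≠ 0 → vR D F t < H0 D F → c.Pos D F t := fun t m t0 l ↦ by
  have T0 := T_pos hF hD hT
  rcases t0.lt_or_gt with h | h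
  · rcases le_total (-1) t with h1 | h1
    · have e : -1 * -t = t := by ring
      exact e ▸ hl (-t) (by linarith) (by linarith) (e.symm ▸ m) (e.symm ▸ t0)
    rcases le_total (-S) t with h3 | h3
    · exact hm t h3 h1
    · exact ht t h (exp_le_one_iff.2 (mul_nonpos_of_nonneg_of_nonpos (by linarith) (by linarith)))
        (exp_le_one_iff.2 (mul_nonpos_of_nonneg_of_nonpos (by linarith) (by linarith)))
  · have h1 : t ≤ T := not_lt.1 fun h1 ↦ by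
      have := vR_mono (F := F) m T0.le h1
      rw [vR_Om hF T] at this
      linarith [mul_neg_of_pos_of_neg (exp_pos ((2 * F - 2) * T)) hT]
    have e : T * (t / T) = t := mul_div_cancel₀ _ T0.ne'
    exact e ▸ hr (t / T) (div_pos h T0) ((div_le_one T0).2 h1) (e.symm ▸ m) (e.symm ▸ t0)

end Pool.Agent.Lib.MP_d6150d_an.S10
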