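import Pool.Agent.Lib.MP_d6150d_an.KN

/-! The strip `S1`, high levels: the closed form of the expression whose sign is studied. -/

namespace Pool.Agent.Lib.MP_d6150d_an.S1

/-- the quadratic factor of `κ - v`; here `β = F - 1`, `d = -D`, `s = exp t` -/
noncomputable def q (β d s : ℝ) : ℝ :=
  d / (2 * β) + (1 - 2 * d) / (2 * β + 1) * s - (1 - d) / (2 * β + 2) * s ^ 2

/-- half of the top level -/
noncomputable def kap (β d : ℝ) : ℝ := q β d 1

/-- the splitting point -/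
noncomputable def s1 (β d : ℝ) : ℝ := d / (3 / 4 + 3 * β ^ 3)

/-- the coefficient of the null function -/
def mu (β : ℝ) : ℝ := 4 - 7 * β + 5 * β ^ 2

/-- kernel plus null term minus separator, with `ζ = exp (β t)`, `v = vR / 2`, `x = h / 2 - v` -/
noncomputable def G (β d s ζ v x : ℝ) : ℝ :=
  let n := (1 - d) * s + d
  let w := (s - 1) * n
  let X := v - kap β d
  let P := pjR (1 + β) ((1 - d) * s ^ 2) ((1 - 2 * d) * s) (-d)
  let Γ := -(β * mu β * v ^ 2 * s ^ 3 / (ζ ^ 3 * w ^ 2 * n ^ 2))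
  let Γv := -(β * mu β * 2 * v * s ^ 3 / (ζ ^ 3 * w ^ 2 * n ^ 2)) +
    Γ * (3 - 3 * β - 2 * s / (s - 1) - 4 * (1 - d) * s / n) / (ζ ^ 2 * w)
  2 * β * v ^ 2 * X * (s * P.2.1 / (ζ ^ 5 * w ^ 5)) +
    ((3 * β - 1) * v ^ 2 + 2 * β * v * X) * (s * P.1 / (ζ ^ 3 * w ^ 3)) -
    ((1 - β) * v + β * X / 2) * (s / (ζ * w)) + (s * ζ - 1) / 4 + x * Γv - Γ / 2 -
    (β * kap β d * (2 * d - β) / 6 - x * (β * mu β / 2) + 9 / 8 * β * x * v)

/-- the lower test value of `x` on the left branch -/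
noncomputable def xl (β d s ζ : ℝ) : ℝ := ζ ^ 2 * (q β d s -
  Real.exp (-(2 * β) * (2 * (s - s1 β d) / (s + s1 β d))) * q β d (s1 β d))

/-- the inequality in the tail of the left branch -/
def St_tail : Prop := ∀ β d t x : ℝ, 0 < β → β ≤ 1 → 0 < d → d ≤ 3 / 32 → d ≤ 3 / 2 * β → t < 0 →
  (1 - d) * Real.exp t + d ≤ 3 / 16 →
  x = Real.exp (β * t) ^ 2 * q β d (Real.exp t) ∨ x = xl β d (Real.exp t) (Real.exp (β * t)) →
  G β d (Real.exp t) (Real.exp (β * t))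
    (kap β d - Real.exp (β * t) ^ 2 * q β d (Real.exp t)) x < 0

end Pool.Agent.Lib.MP_d6150d_an.S1
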