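import Pool.Agent.Lib.MP_d6150d_an.GDef

/-! A generated chart: the program. -/

namespace Pool.Agent.Lib.MP_d6150d_an.S1HL

def prog3 : List Ins := .mul 1 0 :: .mul 3 0 :: .add false 21 0 :: .smul 4 159 :: .cst 3 4 :: .mul
    161 161 :: .mul 0 162 :: .smul 3 0 :: .add false 3 0 :: .mul 0 158 :: .sub true 164 0 :: .mul 7
    0 :: .add false 166 2 :: .inv 0 :: .mul 2 0 :: .exp 0 :: .mul 0 170 :: .mul 155 8 :: .inv 0 ::
    .mul 175 0 :: .add false 139 0 :: .mul 4 0 :: .sub true 22 0 :: .mul 24 0 :: .mul 26 0 :: .add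
    false 44 0 :: .cpy 0 :: .cpy 24 :: []

def prog2 : List Ins := .add false 7 0 :: .cst 3 2 :: .cst 7 4 :: .mul 31 31 :: .mul 0 0 :: .mul 2 0
    :: .add false 4 0 :: .mul 105 79 :: .mul 107 0 :: .mul 0 0 :: .mul 3 0 :: .mul 0 111 :: .mul 0
    48 :: .mul 0 119 :: .mul 0 20 :: .mul 0 51 :: .mul 85 0 :: .add false 16 0 :: .mul 112 0 :: .sub
    true 113 111 :: .mul 90 0 :: .cst 1 12 :: .sub true 108 103 :: .mul 112 0 :: .add true 128 0 ::
    .sub true 116 131 :: .mul 1 0 :: .mul 5 0 :: .sub false 7 0 :: .mul 129 0 :: .add false 11 0 ::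
    .mul 37 73 :: .sub false 25 0 :: .mul 133 0 :: .mul 103 0 :: .mul 129 22 :: .mul 0 75 :: .mul 0
    109 :: .mul 138 74 :: .mul 130 31 :: .add true 62 0 :: .mul 2 0 :: .add false 126 0 :: .smul 2
    58 :: .mul 0 79 :: .sub true 2 0 :: .mul 8 0 :: .sub true 12 0 :: .mul 143 143 :: .mul 118 125
    :: prog3

def prog1 : List Ins := .sub true 15 32 :: .mul 0 49 :: .tri 0 :: .mul 4 0 :: .add true 6 0 :: .mul
    9 0 :: .add true 11 0 :: .smul 2 0 :: .mul 47 58 :: .smul (-1) 0 :: .exp 0 :: .mul 3 0 :: .mul 0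
    34 :: .mul 32 0 :: .mul 0 36 :: .mul 55 64 :: .mul 72 0 :: .mul 66 66 :: .mul 53 0 :: .mul 37 0
    :: .sub false 3 0 :: .sub true 63 77 :: .mul 0 76 :: .sub true 2 0 :: .mul 74 72 :: .mul 0 49 ::
    .smul 3 82 :: .sub true 69 0 :: .mul 0 4 :: .add false 0 12 :: .mul 47 11 :: .sub true 1 0 ::
    .mul 6 0 :: .smul 2 14 :: .sub true 0 18 :: .smul 3 0 :: .mul 0 12 :: .sub true 4 0 :: .mul 23 0
    :: .add true 15 0 :: .mul 25 0 :: .sub true 61 0 :: .mul 63 0 :: .mul 93 93 :: .mul 0 30 :: .sub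
    true 18 87 :: .mul 0 31 :: .mul 0 23 :: .sub true 0 26 :: .mul 4 0 :: prog2

def prog : List Ins := .cst 3 32 :: .var 0 :: .var 1 :: .mul 1 0 :: .sub false 3 0 :: .cpy 0 :: .var
    2 :: .smul (-1) 0 :: .tri 0 :: .mul 9 3 :: .exp 0 :: .mul 4 0 :: .smul 2 5 :: .int 1 :: .smul 2
    12 :: .sub true 1 0 :: .smul 2 16 :: .add false 0 3 :: .inv 0 :: .mul 3 0 :: .sub true 6 18 ::
    .int 2 :: .add false 5 0 :: .inv 0 :: .mul 3 0 :: .mul 0 18 :: .sub true 6 0 :: .mul 14 0 ::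
    .mul 28 0 :: .add true 27 0 :: .mul 9 23 :: .add false 0 29 :: .mul 24 0 :: .inv 0 :: .mul 4 0
    :: .cst 1 4 :: .cst 1 2 :: .add false 23 37 :: .smul 2 0 :: .mul 0 33 :: .tri 0 :: .mul 4 0 ::
    .sub true 5 30 :: .mul 0 39 :: .tri 0 :: .mul 4 0 :: .sub false 6 0 :: .smul (-1) 49 :: .smul 2
    2 :: .sub false 9 0 :: prog1

def vs : List Vr := [⟨3, 1, false, false⟩, ⟨2, 0, true, false⟩, ⟨7, 2, false, false⟩]

def C : Chart := ⟨vs, prog, [6], 2, 3⟩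

end Pool.Agent.Lib.MP_d6150d_an.S1HL
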