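import Pool.Agent.Lib.MP_d6150d_an.GDef

/-! A generated chart: the program. -/

namespace Pool.Agent.Lib.MP_d6150d_an.S1HM

def prog3 : List Ins := .mul 0 150 :: .smul 3 0 :: .add false 3 0 :: .mul 0 137 :: .sub true 105 0
    :: .mul 7 0 :: .add false 107 2 :: .inv 0 :: .mul 2 0 :: .exp 0 :: .mul 0 111 :: .mul 126 8 ::
    .inv 0 :: .mul 163 0 :: .add false 122 0 :: .mul 4 0 :: .sub true 22 0 :: .mul 24 0 :: .add
    false 42 0 :: .smul 64 0 :: .cpy 0 :: .cpy 24 :: []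

def prog2 : List Ins := .mul 32 0 :: .add true 42 0 :: .mul 0 41 :: .sub false 4 0 :: .mul 6 0 ::
    .add true 9 0 :: .mul 58 0 :: .cst 1 4 :: .mul 10 10 :: .mul 0 30 :: .mul 2 0 :: .sub false 4 0
    :: .mul 95 0 :: .mul 15 87 :: .mul 22 53 :: .mul 1 0 :: .cst 1 12 :: .sub true 80 95 :: .mul 100
    0 :: .add true 117 0 :: .sub true 87 120 :: .mul 1 0 :: .mul 5 0 :: .add false 15 0 :: .mul 8 0
    :: .add false 12 0 :: .mul 109 36 :: .mul 0 79 :: .smul 2 30 :: .smul 2 80 :: .add true 55 0 ::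
    .mul 0 70 :: .smul 2 116 :: .mul 0 68 :: .sub true 2 0 :: .mul 87 0 :: .sub true 7 0 :: .mul 9 0
    :: .mul 22 41 :: .mul 97 51 :: .sub true 0 92 :: .mul 2 0 :: .sub true 4 0 :: .mul 101 89 ::
    .mul 1 0 :: .add false 19 0 :: .smul 64 0 :: .smul 4 147 :: .cst 3 4 :: .mul 149 149 :: prog3

def prog1 : List Ins := .mul 28 41 :: .sub true 14 0 :: .mul 2 0 :: .add true 4 0 :: .mul 54 20 ::
    .add false 50 55 :: .mul 0 50 :: .mul 0 48 :: .sub true 3 0 :: .sub true 0 1 :: .sub true 55 51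
    :: .mul 1 0 :: .smul 2 56 :: .mul 0 54 :: .sub true 30 0 :: .smul 3 0 :: .mul 50 7 :: .sub true
    62 67 :: .mul 0 19 :: .sub true 2 0 :: .mul 4 0 :: .sub true 9 0 :: .mul 18 0 :: .smul 3 73 ::
    .sub true 69 0 :: .mul 0 5 :: .smul 2 54 :: .mul 0 68 :: .sub true 41 0 :: .mul 3 0 :: .mul 0 19
    :: .sub false 8 0 :: .cst 3 2 :: .cst 7 4 :: .mul 16 16 :: .mul 0 0 :: .mul 2 0 :: .add false 4
    0 :: .mul 0 72 :: .mul 0 28 :: .mul 0 90 :: .mul 30 30 :: .mul 1 0 :: .mul 51 0 :: .sub true 12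
    0 :: .mul 47 0 :: .mul 85 67 :: .mul 0 5 :: .mul 19 28 :: .sub true 93 88 :: prog2

def prog : List Ins := .cst 3 32 :: .var 0 :: .var 1 :: .mul 1 0 :: .sub false 3 0 :: .cpy 0 :: .int
    1 :: .sub true 0 3 :: .var 2 :: .smul (-1) 0 :: .exp 0 :: .mul 3 0 :: .add false 0 8 :: .cst 1 8
    :: .sub false 1 0 :: .cpy 0 :: .inv 3 :: .mul 6 0 :: .mul 0 0 :: .smul 2 17 :: .int 2 :: .add
    false 1 0 :: .inv 0 :: .mul 15 0 :: .mul 13 13 :: .mul 23 16 :: .smul (-1) 0 :: .tri 0 :: .mul 2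
    2 :: .mul 6 0 :: .sub true 0 25 :: .mul 9 0 :: .smul 2 30 :: .sub true 28 0 :: .add false 16 29
    :: .inv 0 :: .mul 2 0 :: .mul 28 8 :: .sub true 0 33 :: .mul 2 0 :: .sub false 8 0 :: .cst 1 2
    :: .mul 40 35 :: .mul 0 16 :: .add false 39 18 :: .mul 1 0 :: .mul 4 0 :: .add true 6 0 :: .mul
    46 33 :: .mul 31 33 :: prog1

def vs : List Vr := [⟨3, 1, false, false⟩, ⟨2, 0, true, false⟩, ⟨4, 0, false, false⟩]

def C : Chart := ⟨vs, prog, [6, 16], 2, 3⟩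

end Pool.Agent.Lib.MP_d6150d_an.S1HM
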