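import Pool.Agent.Lib.MP_d6150d_an.GDef

/-! A generated chart: the program. -/

namespace Pool.Agent.Lib.MP_d6150d_an.S1HR

def prog3 : List Ins := .mul 118 125 :: .mul 1 0 :: .mul 3 0 :: .add false 21 0 :: .smul 4 160 ::
    .cst 3 4 :: .mul 162 162 :: .mul 0 163 :: .smul 3 0 :: .add false 3 0 :: .mul 0 160 :: .sub true
    165 0 :: .mul 7 0 :: .add false 167 2 :: .inv 0 :: .mul 2 0 :: .exp 0 :: .mul 0 171 :: .mul 160
    8 :: .inv 0 :: .mul 176 0 :: .add false 139 0 :: .mul 4 0 :: .sub true 22 0 :: .mul 24 0 :: .mul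
    26 0 :: .add false 44 0 :: .cpy 0 :: .cpy 24 :: []

def prog2 : List Ins := .mul 4 0 :: .add false 7 0 :: .cst 3 2 :: .cst 7 4 :: .mul 31 31 :: .mul 0 0
    :: .mul 2 0 :: .add false 4 0 :: .mul 107 79 :: .mul 109 0 :: .mul 0 0 :: .mul 3 0 :: .mul 0 113
    :: .mul 0 48 :: .mul 0 120 :: .mul 0 20 :: .mul 0 51 :: .mul 85 0 :: .add true 16 0 :: .mul 96 0
    :: .sub true 97 116 :: .mul 90 0 :: .cst 1 12 :: .sub true 113 108 :: .mul 117 0 :: .add true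
    129 0 :: .sub true 121 132 :: .mul 1 0 :: .mul 5 0 :: .sub true 7 0 :: .mul 131 0 :: .add false
    11 0 :: .mul 37 73 :: .sub true 25 0 :: .mul 135 0 :: .mul 103 0 :: .mul 113 22 :: .mul 0 75 ::
    .mul 0 109 :: .mul 140 74 :: .mul 135 31 :: .add true 62 0 :: .mul 2 0 :: .add false 131 0 ::
    .smul 2 58 :: .mul 0 79 :: .sub true 2 0 :: .mul 8 0 :: .sub true 12 0 :: .mul 127 127 :: prog3

def prog1 : List Ins := .sub false 9 0 :: .sub true 15 37 :: .mul 0 51 :: .tri 0 :: .mul 4 0 :: .add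
    true 6 0 :: .mul 9 0 :: .add true 11 0 :: .smul 2 0 :: .mul 52 60 :: .smul (-1) 0 :: .exp 0 ::
    .mul 3 0 :: .mul 0 34 :: .mul 32 0 :: .mul 0 36 :: .mul 60 66 :: .mul 73 0 :: .mul 68 68 :: .mul
    58 0 :: .mul 37 0 :: .sub false 3 0 :: .sub true 68 78 :: .mul 0 77 :: .sub true 2 0 :: .mul 76
    74 :: .mul 0 49 :: .smul 3 83 :: .sub true 74 0 :: .mul 0 4 :: .add false 0 12 :: .mul 47 11 ::
    .sub true 1 0 :: .mul 6 0 :: .smul 2 14 :: .sub true 0 18 :: .smul 3 0 :: .mul 0 12 :: .sub true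
    4 0 :: .mul 23 0 :: .add true 15 0 :: .mul 25 0 :: .sub true 61 0 :: .mul 63 0 :: .mul 95 95 ::
    .mul 0 30 :: .sub true 18 92 :: .mul 0 31 :: .mul 0 23 :: .sub true 0 26 :: prog2

def prog : List Ins := .cst 3 32 :: .var 0 :: .var 1 :: .mul 1 0 :: .sub false 3 0 :: .cpy 0 :: .var
    2 :: .tri 0 :: .smul 2 2 :: .int 1 :: .smul 2 8 :: .sub true 1 0 :: .smul 2 12 :: .add false 0 3
    :: .inv 0 :: .mul 3 0 :: .sub true 6 14 :: .int 2 :: .add false 5 0 :: .inv 0 :: .mul 3 0 ::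
    .mul 0 15 :: .sub true 6 0 :: .mul 14 0 :: .add false 23 0 :: .cpy 0 :: .mul 26 21 :: .exp 0 ::
    .mul 22 0 :: .mul 29 5 :: .add true 28 0 :: .mul 14 25 :: .add false 0 30 :: .mul 26 0 :: .inv 0
    :: .mul 4 0 :: .cst 1 4 :: .cst 1 2 :: .add false 28 38 :: .smul 2 0 :: .mul 0 35 :: .tri 0 ::
    .mul 4 0 :: .sub true 5 35 :: .mul 0 41 :: .tri 0 :: .mul 4 0 :: .sub false 6 0 :: .smul (-1) 50
    :: .smul 2 2 :: prog1

def vs : List Vr := [⟨3, 1, false, false⟩, ⟨2, 0, true, false⟩, ⟨7, 2, false, false⟩]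

def C : Chart := ⟨vs, prog, [6, 26], 2, 3⟩

end Pool.Agent.Lib.MP_d6150d_an.S1HR
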