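import Pool.Agent.Lib.MP_d6150d_an.GDef

/-! A generated chart: the program. -/

namespace Pool.Agent.Lib.MP_d6150d_an.S1HT

def prog2 : List Ins := .mul 50 59 :: .sub true 93 95 :: .mul 63 0 :: .add true 73 0 :: .mul 0 72 ::
    .sub false 4 0 :: .smul 2 44 :: .mul 0 32 :: .add true 2 0 :: .mul 0 0 :: .mul 13 0 :: .sub
    false 11 0 :: .smul 4 110 :: .cst 3 4 :: .mul 22 112 :: .smul 3 0 :: .add false 2 0 :: .mul 0
    107 :: .sub true 117 0 :: .mul 6 0 :: .add false 119 2 :: .inv 0 :: .mul 2 0 :: .exp 0 :: .mul 0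
    123 :: .mul 111 8 :: .inv 0 :: .mul 125 0 :: .add false 74 0 :: .mul 4 0 :: .sub true 55 0 ::
    .mul 57 0 :: .sub true 65 0 :: .mul 0 34 :: .mul 27 3 :: .add true 29 0 :: .mul 0 0 :: .mul 40 0
    :: .sub false 4 0 :: .add false 137 138 :: .mul 0 41 :: .mul 1 52 :: .cpy 0 :: .cpy 2 :: .cpy 5
    :: .cpy 33 :: []

def prog1 : List Ins := .mul 3 0 :: .mul 0 19 :: .sub false 8 0 :: .cst 1 2 :: .cst 3 2 :: .cst 7 4
    :: .mul 17 17 :: .mul 0 0 :: .mul 2 0 :: .add false 4 0 :: .mul 0 50 :: .mul 0 29 :: .mul 0 60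
    :: .mul 31 31 :: .mul 1 0 :: .mul 11 0 :: .sub false 13 0 :: .smul 2 66 :: .add true 22 0 ::
    .mul 0 37 :: .smul 2 60 :: .mul 0 35 :: .sub true 2 0 :: .mul 11 0 :: .mul 20 49 :: .mul 1 0 ::
    .sub true 9 0 :: .cst 1 12 :: .sub true 62 58 :: .mul 76 0 :: .add false 73 0 :: .sub true 69 79
    :: .mul 1 0 :: .mul 5 0 :: .smul 4 0 :: .add false 81 0 :: .mul 26 80 :: .mul 0 62 :: .sub true
    2 0 :: .mul 57 0 :: .add false 86 87 :: .mul 89 89 :: .smul 2 0 :: .add false 2 0 :: .mul 4 0 ::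
    .mul 85 85 :: .mul 90 0 :: .mul 0 47 :: .sub true 3 0 :: .mul 22 0 :: prog2

def prog : List Ins := .var 1 :: .var 0 :: .smul 2 0 :: .int 1 :: .sub true 0 3 :: .var 2 :: .mul 5
    0 :: .sub false 3 0 :: .inv 0 :: .mul 4 0 :: .mul 7 0 :: .smul 2 4 :: .sub true 8 0 :: .add
    false 10 9 :: .inv 0 :: .mul 2 0 :: .int 2 :: .add false 14 0 :: .inv 0 :: .mul 11 0 :: .mul 10
    14 :: .mul 1 0 :: .sub false 6 0 :: .mul 12 0 :: .add false 23 0 :: .mul 23 12 :: .add false 22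
    24 :: .mul 0 19 :: .mul 0 7 :: .sub true 3 0 :: .sub true 0 1 :: .sub true 27 10 :: .mul 1 0 ::
    .smul 2 25 :: .mul 0 13 :: .sub true 22 0 :: .smul 3 0 :: .mul 27 7 :: .sub true 34 36 :: .mul 0
    38 :: .sub true 2 0 :: .mul 4 0 :: .sub true 9 0 :: .mul 18 0 :: .smul 3 42 :: .sub true 41 0 ::
    .mul 0 5 :: .smul 2 27 :: .mul 0 27 :: .sub true 33 0 :: prog1

def vs : List Vr := [⟨3, 0, false, true⟩, ⟨3, 0, false, true⟩, ⟨2, 0, false, false⟩]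

def C : Chart := ⟨vs, prog, [], 4, 3⟩

end Pool.Agent.Lib.MP_d6150d_an.S1HT
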