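import Pool.Agent.Lib.MP_d6150d_an.KNJ

/-! The strip `S1`, high levels: operator, null function, closed form. -/

namespace Pool.Agent.Lib.MP_d6150d_an.S1H

open Real Set Filter Topology Asymptotics

noncomputable def aH (b d : ℝ) : ℝ := (1 - d) / (2 * b + 2)
noncomputable def bH (b d : ℝ) : ℝ := (1 - 2 * d) / (2 * b + 1)
noncomputable def muH (b : ℝ) : ℝ := 3 / 2 + 7 / 4 * (1 - b) ^ 4
noncomputable def laH (b : ℝ) : ℝ := 3 / 4 + 3 * b ^ 3
noncomputable def kH (b d : ℝ) : ℝ := d + 2 * b * (bH b d - aH b d)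
noncomputable def pqH (b d s : ℝ) : ℝ := d + b * (2 * s * (bH b d - aH b d * s))

/-- the operator -/
noncomputable def oH (b d : ℝ) : Gp :=
  ⟨0, 0, 0, 0, 2 * kH b d, -8 * kH b d, 0, -2 * b, 4 * b + 2, 0, 0, 0⟩

/-- the null function, up to a factor -/
noncomputable def f0 (b d t : ℝ) : ℝ :=
  U1 (-d) (1 + b) t * U1 (-d) (1 + b) t * (exp ((1 - b) * t) / om (-d) t ^ 2)

noncomputable def g0 (b mu e0 pq s y Y n w P2 P3 : ℝ) : ℝ :=
  y * (-Y ^ 2 * pq * P3 / w ^ 5 + ((3 * b - 1) * Y ^ 2 - Y * pq) * P2 / w ^ 3 -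
    ((1 - b) * Y - pq / 4) / w + mu * (s / (w * n)) ^ 2 * b * Y ^ 2 / 2) + (y - 1) / 4 - e0

noncomputable def g1 (b d mu s y z Y n w P2 : ℝ) : ℝ :=
  mu / 2 - z * Y - y * mu * (s / (w * n)) ^ 2 *
    (2 * Y + Y ^ 2 * (2 * P2 / w + 2 * d / n - (1 + b)) / w) / z

noncomputable def G0 (b d t : ℝ) : ℝ :=
  g0 b (muH b) (kH b d * (2 * d - b) / 12) (pqH b d (exp t)) (exp t) (exp ((1 + b) * t))
    (yR (-d) (1 + b) t) (om (-d) t) (wR (-d) t) (pjR (1 + b) (PR (-d) t) (QR (-d) t) (-d)).1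
    (pjR (1 + b) (PR (-d) t) (QR (-d) t) (-d)).2.1

noncomputable def G1 (b d t : ℝ) : ℝ :=
  g1 b d (muH b) (exp t) (exp ((1 + b) * t)) (exp (b * t) ^ 2) (yR (-d) (1 + b) t) (om (-d) t)
    (wR (-d) t) (pjR (1 + b) (PR (-d) t) (QR (-d) t) (-d)).1

variable {b d t : ℝ}

theorem v_eq (hb : 0 ≤ b) (d t : ℝ) :
    b * vR (-d) (1 + b) t = kH b d - exp (b * t) ^ 2 * pqH b d (exp t) := by
  have z : exp ((2 * (1 + b) - 2) * t) = exp (b * t) ^ 2 := by rw [sq, ← exp_add]; ring_nf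
  have h2 := exp_eq_ph (2 * (1 + b) * t)
  have h1 := exp_eq_ph ((2 * (1 + b) - 1) * t)
  have h0 := exp_eq_ph ((2 * (1 + b) - 2) * t)
  rw [exp_a1, z] at h2
  rw [exp_a2, z] at h1
  rw [z] at h0
  have a : (2 * b + 2) * aH b d = 1 - d := mul_div_cancel₀ _ (by positivity)
  have c : (2 * b + 1) * bH b d = 1 - 2 * d := mul_div_cancel₀ _ (by positivity)
  rw [vR_eq, kH, pqH]
  linear_combination (-2 * b * aH b d) * h2 + 2 * b * bH b d * h1 + d * h0 -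
    2 * b * t * ph1 (2 * (1 + b) * t) * a + 2 * b * t * ph1 ((2 * (1 + b) - 1) * t) * c

theorem y_eq (b d t : ℝ) : vR (-d) (1 + b) t = 2 * exp (b * t) ^ 2 * yR (-d) (1 + b) t := by
  have z : exp (b * t) ^ 2 * exp ((2 - 2 * (1 + b)) * t) = 1 := by
    rw [sq, ← exp_add, ← exp_add]; ring_nf; simp
  rw [yR]; linear_combination -vR (-d) (1 + b) t * z

theorem e_eq (b t : ℝ) : exp ((1 - b) * t) = exp t ^ 2 / exp ((1 + b) * t) := by
  rw [sq, ← exp_add, ← exp_sub]; ring_nf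

theorem f0_an : AnJ (-d) (f0 b d) := fun t ht ↦
  ((ht_U1.an t ht).mul (ht_U1.an t ht)).mul (AnalyticAt.div (by fun_prop)
    (by unfold om; fun_prop) (pow_ne_zero 2 (ne_of_gt ht)))

theorem K0 (hb : 0 ≤ b) (ht : t ∈ JR (-d)) (h0 : t ≠ 0) :
    (oH b d).K (-d) (1 + b) t + 4 * kH b d * ja2 (-d) (1 + b) * vR (-d) (1 + b) t ^ 2 -
      4 * b * muH b * (vR (-d) (1 + b) t * vR (-d) (1 + b) t * f0 b d t) =
      -8 * vR (-d) (1 + b) t ^ 2 * G0 b d t := by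
  have hw := wR_ne ht h0
  have hn : om (-d) t ≠ 0 := ne_of_gt ht
  have hu : uR (1 + b) t = (exp ((1 + b) * t) - 1) / (1 + b) := by
    rw [uR, exp_eq_ph ((1 + b) * t)]; field_simp; ring
  have hk := v_eq hb d t
  have hy := (exp_pos ((1 + b) * t)).ne'
  rw [Gp.K_eq ht h0, hu]
  simp only [oH, Gp.P, Gp.C3, Gp.C2, Gp.C1, Gp.C0, f0, G0, g0, U1, U2, U3, ja2, e_eq]
  rw [y_eq] at hk ⊢
  generalize pjR _ _ _ _ = J
  rw [show kH b d = _ from eq_add_of_sub_eq hk.symm]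
  field_simp
  ring

theorem K1 (ht : t ∈ JR (-d)) (h0 : t ≠ 0) :
    4 * muH b * th (-d) (1 + b) (f0 b d) t - 2 * muH b * vR (-d) (1 + b) t +
      2 * vR (-d) (1 + b) t ^ 2 = -4 * vR (-d) (1 + b) t * G1 b d t := by
  have hw := wR_ne ht h0
  have hn : om (-d) t ≠ 0 := ne_of_gt ht
  have hY := (yR_pos (F := 1 + b) ht h0).ne'
  have hy := (exp_pos ((1 + b) * t)).ne'
  have hz := (exp_pos (b * t)).ne'
  have d1 : HasDerivAt (om (-d)) (om (-d) t - d) t :=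
    (((hasDerivAt_exp t).const_mul (1 + -d)).sub_const (-d)).congr_deriv (by rw [om]; ring)
  have d2 := ((dU1 (F := 1 + b) ht h0).mul (dU1 (F := 1 + b) ht h0)).mul
    ((((hasDerivAt_id t).const_mul (1 - b)).exp).div (d1.pow 2) (pow_ne_zero 2 hn))
  rw [th_eq ht h0 (f := f0 b d) (c := exp ((1 - b) * t) / om (-d) t ^ 2 * U1 (-d) (1 + b) t *
    (2 * (U2 (-d) (1 + b) t + U1 (-d) (1 + b) t) + U1 (-d) (1 + b) t *
      (2 * d / om (-d) t - (1 + b)) * (yR (-d) (1 + b) t / wR (-d) t))) (d2.congr_deriv (by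
        simp only [Pi.mul_apply, Pi.div_apply, Pi.pow_apply, id]; field_simp; push_cast; ring))]
  simp only [G1, g1, U1, U2, e_eq]
  rw [y_eq]
  generalize pjR _ _ _ _ = J
  field_simp
  ring

/-- the reduction of the sign condition -/
theorem sg_of {h : ℝ} (hb : 0 ≤ b) (C : ∀ t ∈ JR (-d), t ≠ 0 → vR (-d) (1 + b) t < h →
    0 < t * (G0 b d t + b * (h - vR (-d) (1 + b) t) / 2 * G1 b d t)) :
    (oH b d).Sg (-d) (1 + b) (-1) h := by
  refine sg_of_sep0 (f := fun t ↦ 4 * b * muH b * f0 b d t) (fun V ↦ V ^ 2 *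
    (-4 * kH b d * ja2 (-d) (1 + b) + b * (h - V) * (2 * muH b - 2 * V)))
    (fun t ht _ ↦ analyticAt_const.mul (f0_an t ht)) fun t ht h0 l ↦ ?_
  have p := mul_pos (mul_pos (show (0 : ℝ) < 8 by norm_num) (pow_pos (vR_pos (F := 1 + b) ht h0) 2))
    (C t ht h0 l)
  rw [Gp.KN, ((f0_an (b := b)).ht.smul (F := 1 + b) (4 * b * muH b)).eq t ht]
  refine p.trans_eq ?_
  linear_combination t * K0 hb ht h0 +
    t * b * (h - vR (-d) (1 + b) t) * vR (-d) (1 + b) t * K1 (b := b) ht h0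

theorem jf0 : ∃ a3 a4 a5 a6, Jet (-d) (1 + b) (f0 b d) 0 0 (1 / 4) a3 a4 a5 a6 := by
  obtain ⟨a6, U⟩ := jet_uR (D := -d) (F := 1 + b)
  have A := ((Jet.const (1 / 2)).mul U.th).congr (k := U1 (-d) (1 + b)) fun t ht ↦ U1_eq ht
  obtain ⟨_, _, _, _, _, _, R⟩ := jet_ex (D := -d) (F := 1 + b)
    (f := fun t ↦ exp ((1 - b) * t) / om (-d) t ^ 2) (AnalyticAt.div (by fun_prop)
      (by unfold om; fun_prop) (by simp [om]))
  exact ⟨_, _, _, _, ((A.mul A).mul R).cast (by ring) (by ring) (by simp [om]; norm_num) rfl rfl rfl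
    rfl⟩

theorem big_of {φ G : ℝ → ℝ} (h : φ =O[𝓝 0] fun t ↦ t ^ 5)
    (e : ∀ t ∈ JR (-d), t ≠ 0 → φ t = -8 * vR (-d) (1 + b) t ^ 2 * G t) :
    (fun t ↦ t * G t) =O[𝓝[≠] 0] fun t ↦ t ^ 2 := by
  have c : ContinuousAt (fun t ↦ (-8 * muR (-d) (1 + b) t ^ 2)⁻¹) 0 :=
    (continuousAt_const.mul ((muR_an _ _ 0).continuousAt.pow 2)).inv₀ (by simp [muR_zero])
  have k := ((h.mul (c.isBigO_one ℝ)).mono (nhdsWithin_le_nhds (s := {0}ᶜ))).mul
    (isBigO_refl (fun t : ℝ ↦ (t ^ 3)⁻¹) _)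
  refine k.congr' ?_ ?_
  · filter_upwards [self_mem_nhdsWithin,
      nhdsWithin_le_nhds ((JR_open (-d)).mem_nhds (zero_mem_JR _))] with t h0 ht
    have h0 : t ≠ 0 := h0
    have := (muR_pos (F := 1 + b) ht).ne'
    rw [e t ht h0, vR]; field_simp
  · filter_upwards [self_mem_nhdsWithin] with t h0
    have h0 : t ≠ 0 := h0
    field_simp

theorem big0 (hb : 0 ≤ b) (d : ℝ) : (fun t ↦ t * G0 b d t) =O[𝓝[≠] 0] fun t ↦ t ^ 2 := by
  obtain ⟨_, K⟩ := (oH b d).K_jet (D := -d) (F := 1 + b)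
  obtain ⟨_, _, _, _, J⟩ := jf0 (b := b) (d := d)
  have := ((K.lin ((Jet.v.mul Jet.v).mul J) (4 * b * muH b)).cast (b0 := 0) (b1 := 0) (b2 := 0)
    (b3 := 0) (b4 := -4 * kH b d * ja2 (-d) (1 + b)) (by ring) (by ring) (by ring)
    (by simp [oH]) (by simp only [oH]; ring) rfl rfl).center5 (E := fun _ ↦ 0) continuousAt_const
  exact big_of this fun t ht h0 ↦ by linear_combination K0 hb ht h0

theorem big1 (b d : ℝ) : (fun t ↦ t * G1 b d t) =O[𝓝[≠] 0] fun t ↦ t ^ 2 := by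
  obtain ⟨_, _, _, _, J⟩ := jf0 (b := b) (d := d)
  have := ((Jet.v.mul ((((Jet.const (8 * muH b)).mul J.th).lin Jet.v (4 * muH b)).lin
    (Jet.v.mul Jet.v) (-4))).cast (b0 := 0) (b1 := 0) (b2 := 0) (b3 := 0) (b4 := 0) (by ring)
    (by ring) (by ring) (by ring) (by ring) rfl rfl).center5 (E := fun _ ↦ 0) continuousAt_const
  exact big_of this fun t ht h0 ↦ by
    linear_combination 2 * vR (-d) (1 + b) t * K1 (b := b) ht h0

end Pool.Agent.Lib.MP_d6150d_an.S1H
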