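import Pool.Agent.Lib.MP_d6150d_an.S1Ha

/-! The strip `S1`, high levels: scaled forms and the range of the level. -/

namespace Pool.Agent.Lib.MP_d6150d_an.S1H

open Real Set Filter Topology Asymptotics

/-- the upper test value -/
noncomputable def X2 (b d t : ℝ) : ℝ := exp (b * t) ^ 2 * (pqH b d (exp t) / 2)

/-- the lower test value -/
noncomputable def X1 (b d t : ℝ) : ℝ := exp (b * t) ^ 2 * (pqH b d (exp t) / 2 -
  exp (4 * b * (d - laH b * exp t) / (d + laH b * exp t)) * d * (1 / 2 + b / ((2 * b + 1) * laH b)))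

variable {b d t : ℝ}

theorem idC {s p1 n i M ze zi y m mu pq P Q w1 P2 P3 ni mi N R0 R1 : ℝ} (hs : s = exp t)
    (hpq : pq = pqH b d s) (hp1 : p1 = ph1 t) (hn : n = (1 - d) * s + d) (hi : i = (p1 * n)⁻¹)
    (hM : M = muR (-d) (1 + b) t) (hze : ze = exp (b * t)) (hzi : zi = exp (-(2 * b * t)))
    (hy : y = s * ze) (hm : m = M * zi * i / 2) (hmu : mu = muH b) (hP : P = (1 - d) * s ^ 2)
    (hQ : Q = (1 - 2 * d) * s) (hw1 : w1 = 2 * P - Q) (hP2 : P2 = b * Q - (1 + b) * P - (1 - b) * d)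
    (hP3 : P3 = t * p1 * n * ((1 - 3 * b) * P2 + b * Q - 2 * (1 + b) * P) - 3 * w1 * P2)
    (hni : ni = p1 * i) (hmi : mi = m * i) (hN : N = mu * (s * ni) ^ 2 * t * m)
    (hR0 : R0 = y * (pq * i * (1 / 4 - mi * (P2 + mi * P3)) +
      t ^ 2 * m * ((3 * b - 1) * mi * P2 - (1 - b)) + N * b * t ^ 2 * m / 2) +
      t * ((y - 1) / 4 - kH b d * (2 * d - b) / 12))
    (hR1 : R1 = t * (mu - t ^ 2 * M) / 2 -
      y * N * zi * i * (2 + t * m * (1 - 3 * b + 2 * d * ni) - 2 * w1 * mi))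
    (ht : t ∈ JR (-d)) (h0 : t ≠ 0) : R0 = t * G0 b d t ∧ R1 = t * G1 b d t := by
  have e1 : s - 1 = t * p1 := by rw [hs, hp1, exp_eq_ph t]; ring
  have en : om (-d) t = n := by rw [om, hn, hs]; ring
  have ew : wR (-d) t = t * p1 * n := by rw [wR_eq, en, ← hs, e1]
  have w0 : P - Q - d = t * p1 * n := by rw [← e1, hP, hQ, hn]; ring
  have ey : exp ((1 + b) * t) = y := by rw [hy, hs, hze, ← exp_add]; ring_nf
  have ez : zi = (ze ^ 2)⁻¹ := by rw [hzi, hze, sq, ← exp_add, ← exp_neg]; ring_nf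
  have eY : yR (-d) (1 + b) t = t ^ 2 * M * zi / 2 := by
    rw [yR, vR, hM, hzi]; ring_nf
  have e2 : (pjR (1 + b) (PR (-d) t) (QR (-d) t) (-d)).1 = P2 := by
    simp only [pjR, PR, QR, ← hs]; rw [hP2, hP, hQ]; ring
  have e3 : (pjR (1 + b) (PR (-d) t) (QR (-d) t) (-d)).2.1 = P3 := by
    simp only [pjR, PR, QR, ← hs]; rw [hP3, ← w0, hw1, hP2, hP, hQ]; ring
  have e4 : w1 = (1 - b) * (t * p1 * n) - P2 := by rw [← w0, hw1, hP2]; ring
  have n0 : n ≠ 0 := en ▸ ne_of_gt ht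
  have p0 : p1 ≠ 0 := hp1 ▸ (ph1_pos t).ne'
  have z0 : ze ≠ 0 := hze ▸ (exp_pos _).ne'
  simp only [G0, G1, g0, g1]
  rw [en, ew, ey, eY, e2, e3, ← hze, ← hs, ← hpq, ← hmu, hR0, hR1, hN, hmi, hni, hm, hi, ez, e4]
  constructor <;> field_simp <;> ring

theorem idT {s n e sg r pq b2 u Pi La P2 Lr A1 A0 B0 mu e0 ze z v nz T H R0 R1 : ℝ} (hb : 0 ≤ b)
    (hs : s = exp t) (hn : n = (1 - d) * s + d) (he : e * n = d) (hsg : sg * n = s)
    (hr : r = 1 - s) (hmu : mu = muH b) (hpq : pq = e + 2 * b * sg * (bH b d - aH b d * s))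
    (hb2 : b2 = bH b d - 2 * aH b d * s) (hu : u = (1 + b) * (1 - d) * s)
    (hPi : Pi = b * (1 - 2 * d) - u) (hLa : La = 1 - 2 * d - 2 * (1 - d) * s)
    (hP2 : P2 = sg * Pi - (1 - b) * e) (hLr : Lr = (1 - 3 * b + 2 * e) * r - 2 * sg * La)
    (hA1 : A1 = mu * sg * r)
    (hA0 : A0 = pq * ((Pi - u) * r - 3 * La * P2) - (1 - 3 * b) * P2 * b2 * r - A1 * b * r ^ 2 / 2)
    (hB0 : B0 = b2 * P2 - (Pi + (1 - b) * (1 - d - n)) * r) (he0 : e0 = kH b d * (2 * d - b) / 12)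
    (hze : ze = exp (b * t)) (hz : z = ze ^ 2) (hv : 2 * v = vR (-d) (1 + b) t) (hnz : nz = n * z)
    (hT : T = nz * r ^ 2) (hH : H = T * ze * r ^ 3)
    (hR0 : R0 = sg ^ 2 * (v * (v * A0 + T * B0) - T ^ 2 * b2 / 4) + H * (1 / 4 + e0))
    (hR1 : R1 = sg ^ 2 * A1 * v * (2 * T - v * Lr) - H * nz * (mu / 2 - v))
    (ht : t ∈ JR (-d)) (h0 : t ≠ 0) : pqH b d s = n * pq ∧
      ∀ X, R0 + R1 * X = -(G0 b d t + nz * X * G1 b d t) * H := by
  have en : om (-d) t = n := by rw [om, hn, hs]; ring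
  have n0 : n ≠ 0 := en ▸ ne_of_gt ht
  have r0 : r ≠ 0 := by rw [hr, hs]; exact (sub_ne_zero.2 (by simpa using h0 : exp t ≠ 1).symm)
  have z0 : ze ≠ 0 := hze ▸ (exp_pos _).ne'
  have a : (2 * b + 2) * aH b d = 1 - d := mul_div_cancel₀ _ (by positivity)
  have c : (2 * b + 1) * bH b d = 1 - 2 * d := mul_div_cancel₀ _ (by positivity)
  have e0' : pqH b d s = n * pq := by
    rw [pqH, hpq]; linear_combination -he - 2 * b * (bH b d - aH b d * s) * hsg
  have k : 1 = (1 - d) * sg + e := mul_left_cancel₀ n0 (by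
    linear_combination hn - (1 - d) * hsg - he)
  have k2 : sg * d = e * s := by linear_combination e * hsg - sg * he
  have ew : wR (-d) t = -(r * n) := by rw [wR_eq, en, ← hs, hr]; ring
  have ey : exp ((1 + b) * t) = sg * n * ze := by rw [hsg, hs, hze, ← exp_add]; ring_nf
  have eY : yR (-d) (1 + b) t = v / ze ^ 2 := by
    have := y_eq b d t
    rw [← hv, ← hze] at this
    field_simp; linarith
  have e2 : (pjR (1 + b) (PR (-d) t) (QR (-d) t) (-d)).1 = n * P2 := by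
    simp only [pjR, PR, QR, ← hs]; rw [hP2, hPi, hu]
    linear_combination -(b * (1 - 2 * d) - (1 + b) * (1 - d) * s) * hsg + (1 - b) * he
  have e3 : (pjR (1 + b) (PR (-d) t) (QR (-d) t) (-d)).2.1 =
      -(r * n) * ((1 - 3 * b) * (n * P2) + s * (Pi - u)) + 3 * (s * La) * (n * P2) := by
    rw [← e2]; simp only [pjR, PR, QR, ← hs]; rw [hPi, hu, hLa, hr, hn]; ring
  have e4 : pq = r - sg * b2 := by
    rw [hpq, hb2, hr]
    linear_combination sg * c - sg * s * a - k - k2 + s * k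
  have e5 : P2 = sg * La - (1 - b) * r := by
    rw [hP2, hPi, hu, hLa, hr]
    linear_combination (1 - b) * (k + k2 - s * k)
  have e6 : B0 = b2 * P2 - La * r := by rw [hB0, hPi, hu, hLa, hn]; ring
  refine ⟨e0', fun X ↦ ?_⟩
  simp only [G0, G1, g0, g1]
  rw [en, ew, ey, eY, e2, e3, ← hze, ← hs, e0', ← hmu, ← he0, hR0, hR1, hH, hT, hnz, hz, e6, hA0,
    hA1, hLr, e4, e5]
  generalize Pi - u = U
  rw [← hsg, ← he]
  field_simp
  ring

theorem aff {A B x1 x x2 : ℝ} (h1 : x1 ≤ x) (h2 : x ≤ x2) (p1 : 0 < A + B * x1)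
    (p2 : 0 < A + B * x2) : 0 < A + B * x := by
  rcases le_total 0 B with h | h
  · nlinarith [mul_nonneg h (sub_nonneg.2 h1)]
  · nlinarith [mul_nonneg (neg_nonneg.2 h) (sub_nonneg.2 h2)]

theorem disc {sg v A0 A1 Lr B0 b2 e0 mu n r ze pq E1 C1 N j X Y : ℝ} (h1 : Y ≤ X) (h2 : X ≤ pq / 2)
    (h0 : 0 < X) (D2 : 0 < (A0 - A1 * Lr * (pq / 2)) * C1 - N * (B0 + 2 * A1 * (pq / 2)) ^ 2)
    (D1 : 0 < (A0 - A1 * Lr * Y) * C1 - N * (B0 + 2 * A1 * Y) ^ 2) (c1 : 0 < C1) (e1 : 0 < E1)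
    (hE : E1 = 1 + 4 * e0 - mu * n * pq) (hN : N = n * sg ^ 2) (hC : C1 = r * E1 * j - N * b2)
    (hj : ze * j ≤ 1) (z0 : 0 < ze) (z1 : ze ≤ 1) (v0 : 0 < v) (n0 : 0 < n) (s0 : 0 < sg)
    (r0 : 0 < r) (m0 : 0 < mu) :
    0 < sg ^ 2 * (v * (v * A0 + n * ze ^ 2 * r ^ 2 * B0) - (n * ze ^ 2 * r ^ 2) ^ 2 * b2 / 4) +
      n * ze ^ 2 * r ^ 2 * ze * r ^ 3 * (1 / 4 + e0) + (sg ^ 2 * A1 * v *
        (2 * (n * ze ^ 2 * r ^ 2) - v * Lr) -
          n * ze ^ 2 * r ^ 2 * ze * r ^ 3 * (n * ze ^ 2) * (mu / 2 - v)) * X := by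
  have N0 : 0 < N := by rw [hN]; positivity
  have D : 0 < (A0 - A1 * Lr * X) * C1 - N * (B0 + 2 * A1 * X) ^ 2 := by
    have := aff (A := A0 * C1 - N * (B0 ^ 2 - 4 * A1 ^ 2 * Y * (pq / 2)))
      (B := -(A1 * Lr * C1) - N * (4 * A1 * B0 + 4 * A1 ^ 2 * (Y + pq / 2))) h1 h2
      (by linarith) (by linarith)
    nlinarith [mul_nonneg (mul_nonneg N0.le (sq_nonneg A1))
      (mul_nonneg (sub_nonneg.2 h1) (sub_nonneg.2 h2))]
  have k1 : E1 ≤ 1 + 4 * (e0 - n * ze ^ 2 * X * (mu / 2 - v)) := by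
    have a1 : ze ^ 2 * X ≤ pq / 2 := (mul_le_of_le_one_left h0.le (pow_le_one₀ z0.le z1)).trans h2
    have a2 := mul_le_mul_of_nonneg_left a1 (mul_pos m0 n0).le
    have a3 : 0 < n * ze ^ 2 * X * v := by positivity
    rw [hE]; linarith
  have k2 : ze * j * E1 ≤ 1 + 4 * (e0 - n * ze ^ 2 * X * (mu / 2 - v)) :=
    (mul_le_of_le_one_left e1.le hj).trans k1
  have k3 := mul_le_mul_of_nonneg_left k2 (show 0 ≤ C1 * (n ^ 2 * ze ^ 3 * r ^ 5) by positivity)
  have k4 : 0 < 4 * N * v ^ 2 * ((A0 - A1 * Lr * X) * C1 - N * (B0 + 2 * A1 * X) ^ 2) := by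
    positivity
  have k5 := sq_nonneg (2 * N * v * (B0 + 2 * A1 * X) + n * ze ^ 2 * r ^ 2 * C1)
  refine (mul_pos_iff_of_pos_left (show 0 < 4 * C1 * n by positivity)).1 ?_
  have k6 : C1 * (n * ze ^ 2 * r ^ 2) ^ 2 * C1 =
      C1 * (n * ze ^ 2 * r ^ 2) ^ 2 * (r * E1 * j - N * b2) := by rw [← hC]
  rw [hN] at k4 k5 k6
  linarith

theorem bigX (hb : 0 ≤ b) {X : ℝ → ℝ} (hX : ContinuousAt X 0) :
    (fun t ↦ t * G0 b d t + t * G1 b d t * X t) =O[𝓝[≠] 0] fun t ↦ t ^ 2 :=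
  (big0 hb d).add (by
    simpa using (big1 b d).mul ((hX.isBigO_one ℝ).mono (nhdsWithin_le_nhds (s := {0}ᶜ))))

theorem la_pos (hb : 0 ≤ b) : 0 < laH b := by unfold laH; positivity

theorem c2 : ContinuousAt (X2 b d) 0 := by unfold X2 pqH; fun_prop

theorem c1 (hb : 0 ≤ b) (hd : 0 ≤ d) : ContinuousAt (X1 b d) 0 := by
  have := la_pos hb
  unfold X1 pqH; fun_prop (disch := positivity)

theorem G0_zero (h0 : t ≠ 0) : G0 0 0 t = 0 := by
  have h1 := exp_eq_ph (2 * (1 + 0) * t)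
  have h2 := exp_eq_ph ((2 * (1 + 0) - 1) * t)
  have e : vR (-0) (1 + 0) t = (exp t - 1) ^ 2 := by
    rw [exp_a1] at h1
    rw [exp_a2] at h2
    rw [show (2 * (1 + 0) - 2 : ℝ) * t = 0 by ring, exp_zero] at h1 h2
    rw [vR_eq]; linear_combination -h1 + 2 * h2
  have s1 : exp t - 1 ≠ 0 := sub_ne_zero.2 (by simpa using h0)
  have s0 := (exp_pos t).ne'
  simp only [G0, g0, yR, e, wR_eq, om, pjR, PR, QR, pqH, kH]
  norm_num
  field_simp
  ring

section bounds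

set_option linter.unusedSectionVars false

variable (b0 : 0 < b) (b1 : b ≤ 1) (d0 : 0 < d) (d1 : d ≤ 3 / 32)
include b0 b1 d0 d1

omit b1 in
theorem a_pos : 0 < aH b d := div_pos (by linarith) (by positivity)

theorem pq_pos {s : ℝ} (s0 : 0 < s) (s1 : s ≤ 1) : 0 < pqH b d s := by
  have h : aH b d < bH b d := by
    rw [aH, bH, div_lt_div_iff₀ (by positivity) (by positivity)]; nlinarith
  have := mul_le_of_le_one_right (a_pos b0 d0 d1).le s1
  have : 0 < bH b d - aH b d * s := by linarith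
  unfold pqH; positivity

theorem pq_le {s : ℝ} (s0 : 0 < s) (s1 : s ≤ d / laH b) :
    pqH b d s / 2 ≤ d * (1 / 2 + b / ((2 * b + 1) * laH b)) := by
  have l := la_pos b0.le
  have h1 : bH b d - aH b d * s ≤ 1 / (2 * b + 1) := by
    have := mul_pos (a_pos b0 d0 d1) s0
    have : bH b d ≤ 1 / (2 * b + 1) := div_le_div_of_nonneg_right (by linarith) (by positivity)
    linarith
  have h2 : s * (bH b d - aH b d * s) ≤ d / laH b * (1 / (2 * b + 1)) :=
    (mul_le_mul_of_nonneg_left h1 s0.le).trans (mul_le_mul_of_nonneg_right s1 (by positivity))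
  have h3 := mul_le_mul_of_nonneg_left h2 b0.le
  have h4 : d * (1 / 2 + b / ((2 * b + 1) * laH b)) =
      d / 2 + b * (d / laH b * (1 / (2 * b + 1))) := by field_simp
  rw [h4, pqH]; linarith

theorem x_low {h : ℝ} (h1 : vR (-d) (1 + b) (log (d / laH b)) ≤ h) (l : vR (-d) (1 + b) t < h) :
    X1 b d t ≤ b * (h - vR (-d) (1 + b) t) / 2 := by
  have la := la_pos b0.le
  have s0 := exp_pos t
  have q0 : 0 < d / laH b := div_pos d0 la
  have p0 : 0 ≤ d * (1 / 2 + b / ((2 * b + 1) * laH b)) := by positivity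
  rw [X1, mul_assoc _ d]
  rcases le_total (exp t) (d / laH b) with k | k
  · have a1 := pq_le b0 b1 d0 d1 s0 k
    have a2 : 1 ≤ exp (4 * b * (d - laH b * exp t) / (d + laH b * exp t)) := one_le_exp
      (div_nonneg (mul_nonneg (by positivity) (by rw [le_div_iff₀ la] at k; linarith))
        (by positivity))
    have a3 := mul_nonpos_of_nonneg_of_nonpos (sq_nonneg (exp (b * t)))
      (sub_nonpos.2 (a1.trans (le_mul_of_one_le_left p0 a2)))
    have a4 := mul_pos b0 (sub_pos.2 l)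
    linarith
  · have a1 := pq_le b0 b1 d0 d1 q0 le_rfl
    have a2 := v_eq b0.le d (log (d / laH b))
    have a3 := v_eq b0.le d t
    rw [exp_log q0] at a2
    have a4 := le_log_one_add_of_nonneg (x := exp t / (d / laH b) - 1)
      (sub_nonneg.2 ((one_le_div q0).2 k))
    rw [add_sub_cancel, log_div s0.ne' q0.ne', log_exp] at a4
    have a5 : exp (b * log (d / laH b)) ^ 2 ≤ exp (b * t) ^ 2 *
        exp (4 * b * (d - laH b * exp t) / (d + laH b * exp t)) := by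
      rw [sq, sq, ← exp_add, ← exp_add, ← exp_add, exp_le_exp, show 4 * b * (d - laH b * exp t) /
        (d + laH b * exp t) = -(2 * b) * (2 * (exp t / (d / laH b) - 1) /
          (exp t / (d / laH b) - 1 + 2)) by
        rw [show exp t / (d / laH b) - 1 + 2 = (d + laH b * exp t) / d by field_simp; ring]
        field_simp; ring]
      nlinarith
    have a6 := mul_le_mul_of_nonneg_left a1 (sq_nonneg (exp (b * log (d / laH b))))
    have a7 := mul_le_mul_of_nonneg_right a5 p0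
    have a8 := mul_le_mul_of_nonneg_left h1 b0.le
    linarith

theorem t_le {c : ℝ} (hd : d = b * c) (c1 : c ≤ 3 / 2)
    (h : 0 ≤ c + 2 * exp t * (bH b d - aH b d * exp t)) : t ≤ 1 := by
  by_contra k
  have s1 : 27 / 10 ≤ exp t := by
    have := exp_one_gt_d9
    have := exp_le_exp.2 (not_le.1 k).le
    linarith
  have a1 : 3 / 10 ≤ aH b d * (27 / 10) - bH b d := by
    rw [aH, bH, div_mul_eq_mul_div, div_sub_div _ _ (by positivity) (by positivity),
      le_div_iff₀ (by positivity)]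
    nlinarith
  have a2 := mul_le_mul_of_nonneg_left s1 (a_pos b0 d0 d1).le
  nlinarith

end bounds

end Pool.Agent.Lib.MP_d6150d_an.S1H
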