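import Pool.Agent.Lib.MP_d6150d_an.S1LaD

/-! A generated chart: the computations. -/

namespace Pool.Agent.Lib.MP_d6150d_an.S1La

theorem k0 : chk C 0x882882188088028808812881211880828828820188800880288188088020881888181102110
    [(0, 8796093022208), (0, 105553116266496), (0, 70368744177664)] = true := by
  decide +kernel

theorem k1 : chk C 0x881880a8802118818820a888012880888001210 [(0, 8796093022208), (0,
    105553116266496), (70368744177664, 140737488355328)] = true := by
  decide +kernel

end Pool.Agent.Lib.MP_d6150d_an.S1La
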