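import Pool.Agent.Lib.MP_d6150d_an.S1LbD

/-! A generated chart: the computations. -/

namespace Pool.Agent.Lib.MP_d6150d_an.S1Lb

theorem k0 : chk C 0x888008288288082018808802881880880201888811088082880828808210121 [(0,
    4398046511104), (0, 105553116266496), (0, 87960930222080)] = true := by
  decide +kernel

theorem k1 : chk C 0x882828808811888082121 [(4398046511104, 8796093022208), (0, 105553116266496),
    (0, 87960930222080)] = true := by
  decide +kernel

theorem k2 : chk C 0x88800888118808880110188881008881188088188101012 [(0, 8796093022208), (0,
    105553116266496), (87960930222080, 175921860444160)] = true := by
  decide +kernel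

theorem k3 : chk C 0x880880088811880888111018880088811880888011012 [(0, 8796093022208), (0,
    105553116266496), (175921860444160, 263882790666240)] = true := by
  decide +kernel

theorem k4 : chk C 0x8808802888811188881112188810880880888011118881088088088111120 [(0,
    8796093022208), (0, 105553116266496), (263882790666240, 351843720888320)] = true := by
  decide +kernel

end Pool.Agent.Lib.MP_d6150d_an.S1Lb
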