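import Pool.Agent.Lib.MP_d6150d_an.GMac
import Pool.Agent.Lib.MP_d6150d_an.KNJ
import Pool.Agent.Lib.MP_d6150d_an.S1LbK0

/-! A generated chart: the inequality. -/

namespace Pool.Agent.Lib.MP_d6150d_an.S1Lb

set_option linter.unnecessarySeqFocus false
set_option linter.unusedTactic false
set_option linter.unusedVariables false

theorem gd : Gd C [(0, 8796093022208), (0, 105553116266496), (0, 351843720888320)] := .split 2
    (.split 2 (.split 0 (chk_sound k0) (chk_sound k1)) (chk_sound k2)) (.split 2 (chk_sound k3)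
    (chk_sound k4))

set_option maxRecDepth 100000 in
theorem eq {b c r D F t M K x xi yi mu V P Q R z14 W Y k3 k2 k1 j2 j4 z22 : ℝ} (hD : D = -(2 * b *
    c)) (hF : F = 1 + b) (ht : t = -r) (hM : M = (2 * b + 1) * F) (hK : K = 2 * c * M + (2 * (1 + 2
    * D) * F - (1 + D) * (2 * b + 1))) (hx : x = Real.exp (t / 2)) (hxi : xi = Real.exp (-(t / 2)))
    (hyi : yi = Real.exp (-(F * t))) (hmu : mu = muR D F t) (hV : V = M * (t ^ 2 * mu)) (hP : P = (1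
    + D) * x) (hQ : Q = (1 + 2 * D) * xi) (hR : R = D * xi ^ 3) (hz14 : z14 = ph1 (t / 2)) (hW : W =
    z14 * (1 + xi) / 2 * (1 + D - D * xi ^ 2)) (hY : Y = mu * yi * yi * x / 2) (hk3 : k3 = 8 * (V -
    K)) (hk2 : k2 = 8 * (3 * V - K)) (hk1 : k1 = 2 * (3 * V + K)) (hj2 : j2 = ja2 D F) (hj4 : j4 =
    ja4 D F) (hz22 : z22 = k3 * (Y ^ 3 * (pjR F P Q R).2.1) + k2 * (Y ^ 2 * (pjR F P Q R).1 * W ^ 2)
    + k1 * (Y * W ^ 4)) : outR prog 0 [b, c, r] = z22 + W ^ 5 * (t * (mu * yi)) * ((-2) * K * j2 +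
    (12 * K * j4 - 6 * M * j2) * (t ^ 2 * mu)) ∧ outR (prog.take 20) 0 [b, c, r] = 3 / 4 + 3 * b ^ 3
    + D * xi ^ 2 := by
  replace hD : D = ((Int.cast (-1) : ℝ) * (((Int.cast (2) : ℝ) * b) * c)) := hD.trans (by push_cast
    <;> ring)
  replace hF : F = ((Int.cast (1) : ℝ) + b) := hF.trans (by push_cast <;> ring)
  replace ht : t = ((Int.cast (-1) : ℝ) * r) := ht.trans (by push_cast <;> ring)
  replace hM : M = ((((Int.cast (2) : ℝ) * b) + (Int.cast (1) : ℝ)) * F) := hM.trans (by push_cast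
    <;> ring)
  replace hK : K = ((((Int.cast (2) : ℝ) * c) * M) + ((((Int.cast (2) : ℝ) * ((Int.cast (1) : ℝ) +
    ((Int.cast (2) : ℝ) * D))) * F) - (((Int.cast (1) : ℝ) + D) * (((Int.cast (2) : ℝ) * b) +
    (Int.cast (1) : ℝ))))) := hK.trans (by push_cast <;> ring)
  replace hx : x = (Real.exp (((Int.cast (1) : ℝ) / (Nat.cast 2 : ℝ)) * t)) := hx.trans (congrArg
    Real.exp (by push_cast <;> ring))
  replace hxi : xi = (Real.exp ((Int.cast (-1) : ℝ) * (((Int.cast (1) : ℝ) / (Nat.cast 2 : ℝ)) *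
    t))) := hxi.trans (congrArg Real.exp (by push_cast <;> ring))
  replace hyi : yi = (Real.exp ((Int.cast (-1) : ℝ) * (F * t))) := hyi.trans (congrArg Real.exp (by
    push_cast <;> ring))
  replace hmu : mu = (mMu D F t) := hmu.trans (mMu_0 ..)
  replace hV : V = (M * ((t * t) * mu)) := hV.trans (by push_cast <;> ring)
  replace hP : P = (((Int.cast (1) : ℝ) + D) * x) := hP.trans (by push_cast <;> ring)
  replace hQ : Q = (((Int.cast (1) : ℝ) + ((Int.cast (2) : ℝ) * D)) * xi) := hQ.trans (by push_cast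
    <;> ring)
  replace hR : R = (D * ((xi * xi) * xi)) := hR.trans (by push_cast <;> ring)
  replace hz14 : z14 = (ph1 (((Int.cast (1) : ℝ) / (Nat.cast 2 : ℝ)) * t)) := hz14.trans (congrArg
    ph1 (by push_cast <;> ring))
  replace hW : W = ((((Int.cast (1) : ℝ) / (Nat.cast 2 : ℝ)) * (z14 * ((Int.cast (1) : ℝ) + xi))) *
    (((Int.cast (1) : ℝ) + D) - (D * (xi * xi)))) := hW.trans (by push_cast <;> ring)
  replace hY : Y = (((Int.cast (1) : ℝ) / (Nat.cast 2 : ℝ)) * (((mu * yi) * yi) * x)) := hY.trans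
    (by push_cast <;> ring)
  replace hk3 : k3 = ((Int.cast (8) : ℝ) * (V - K)) := hk3.trans (by push_cast <;> ring)
  replace hk2 : k2 = ((Int.cast (8) : ℝ) * (((Int.cast (3) : ℝ) * V) - K)) := hk2.trans (by
    push_cast <;> ring)
  replace hk1 : k1 = ((Int.cast (2) : ℝ) * (((Int.cast (3) : ℝ) * V) + K)) := hk1.trans (by
    push_cast <;> ring)
  replace hj2 : j2 = (((Int.cast (1) : ℝ) / (Nat.cast 6 : ℝ)) * (((Int.cast (1) : ℝ) - F) -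
    ((Int.cast (2) : ℝ) * D))) := hj2.trans (by simp only [ja2]; push_cast; ring)
  replace hj4 : j4 = (((Int.cast (1) : ℝ) / (Nat.cast 1080 : ℝ)) * (((((Int.cast (4) : ℝ) -
    ((Int.cast (57) : ℝ) * F)) - ((Int.cast (6) : ℝ) * D)) + (F * ((((Int.cast (156) : ℝ) * F) +
    ((Int.cast (102) : ℝ) * D)) - (F * (((Int.cast (103) : ℝ) * F) + ((Int.cast (312) : ℝ) * D))))))
    - ((D * D) * (((Int.cast (60) : ℝ) + ((Int.cast (480) : ℝ) * F)) + ((Int.cast (320) : ℝ) *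
    D))))) := hj4.trans (by simp only [ja4]; push_cast; ring)
  replace hz22 : z22 = (mK3 F P Q R Y W k3 k2 k1) := hz22.trans (mK3_0 ..)
  have e0 : (z22 + (((((W * W) * (W * W)) * W) * (t * (mu * yi))) * ((((Int.cast (-2) : ℝ) * K) *
    j2) + (((((Int.cast (12) : ℝ) * K) * j4) - (((Int.cast (6) : ℝ) * M) * j2)) * ((t * t) * mu)))))
    = z22 + W ^ 5 * (t * (mu * yi)) * ((-2) * K * j2 + (12 * K * j4 - 6 * M * j2) * (t ^ 2 * mu)) :=
    by push_cast <;> ring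
  have e1 : ((((Int.cast (3) : ℝ) / (Nat.cast 4 : ℝ)) + ((Int.cast (3) : ℝ) * ((b * b) * b))) + (D *
    (xi * xi))) = 3 / 4 + 3 * b ^ 3 + D * xi ^ 2 := by push_cast <;> ring
  subst hD hF ht hM hK hx hxi hyi hmu hV hP hQ hR hz14 hW hY hk3 hk2 hk1 hj2 hj4 hz22
  exact ⟨Eq.trans rfl e0, Eq.trans rfl e1⟩

theorem l0 : ((0 : ℤ) : ℝ) / 2 ^ 47 = 0 := by norm_num
theorem u0 : (1 / 16 : ℝ) = ((8796093022208 : ℤ) : ℝ) / 2 ^ 47 := by norm_num
theorem l1 : ((0 : ℤ) : ℝ) / 2 ^ 47 = 0 := by norm_num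
theorem u1 : (3 / 4 : ℝ) = ((105553116266496 : ℤ) : ℝ) / 2 ^ 47 := by norm_num
theorem l2 : ((0 : ℤ) : ℝ) / 2 ^ 47 = 0 := by norm_num
theorem u2 : (5 / 2 : ℝ) = ((351843720888320 : ℤ) : ℝ) / 2 ^ 47 := by norm_num

theorem out0 (V0 : ∀ c r : ℝ, 0 ≤ c → c ≤ 3 / 4 → 0 ≤ r → r ≤ 5 / 2 → outR prog 0 [0, c, r] = 0) (V2
    : ∀ b c : ℝ, 0 ≤ b → b ≤ 1 / 16 → 0 ≤ c → c ≤ 3 / 4 → (fun r ↦ outR prog 0 [b, c, r])
    =O[nhdsWithin 0 (Set.Ioi 0)] fun r : ℝ ↦ r ^ 4) {b c r : ℝ} (a0 : 0 ≤ b) (b0 : b ≤ 1 / 16) (a1 :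
    0 ≤ c) (b1 : c ≤ 3 / 4) (a2 : 0 ≤ r) (b2 : r ≤ 5 / 2) (p0 : 0 < b) (p2 : 0 < r) (c0 : 0 ≤ outR
    (prog.take 20) 0 [b, c, r]) : 0 < outR prog 0 [b, c, r] :=
  gd 0 (by decide) [b, c, r] (.cons ⟨l0.le.trans a0, b0.trans u0.le⟩ (.cons ⟨l1.le.trans a1,
    b1.trans u1.le⟩ (.cons ⟨l2.le.trans a2, b2.trans u2.le⟩ (.nil)))) ⟨fun _ ↦ p0, nofun, fun _ ↦
    p2, trivial⟩ (List.forall_mem_cons.2 ⟨c0, List.forall_mem_nil _⟩) (⟨fun _ y1 a1 b1 y2 a2 b2 ↦ V0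
    y1 y2 (l1.ge.trans a1) (b1.trans u1.ge) (l2.ge.trans a2) (b2.trans u2.ge), fun y0 a0 b0 ↦ ⟨fun _
    ↦ allB_iff.2 fun _ _ ↦ trivial, fun y1 a1 b1 ↦ ⟨fun _ ↦ V2 y0 y1 (l0.ge.trans a0) (b0.trans
    u0.ge) (l1.ge.trans a1) (b1.trans u1.ge), fun _ _ _ ↦ trivial⟩⟩⟩) (nofun)

end Pool.Agent.Lib.MP_d6150d_an.S1Lb
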