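import Pool.Agent.Lib.MP_d6150d_an.S1LcD

/-! A generated chart: the computations. -/

namespace Pool.Agent.Lib.MP_d6150d_an.S1Lc

theorem k0 : chk C 0x8818881208818810288088128818810888012088810881288820888812018808881012010
    [(8796093022208, 74766790688768), (0, 13194139533312), (0, 70368744177664)] = true := by
  decide +kernel

theorem k1 : chk C 0x880880088088002 [(74766790688768, 140737488355328), (0, 13194139533312), (0,
    70368744177664)] = true := by
  decide +kernel

theorem k2 : chk C 0xaa0aa88102a888102a88a110880888811012000 [(8796093022208, 140737488355328), (0,
    13194139533312), (70368744177664, 140737488355328)] = true := by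
  decide +kernel

end Pool.Agent.Lib.MP_d6150d_an.S1Lc
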