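import Pool.Agent.Lib.MP_d6150d_an.GMac
import Pool.Agent.Lib.MP_d6150d_an.KNJ
import Pool.Agent.Lib.MP_d6150d_an.S1LcK0

/-! A generated chart: the inequality. -/

namespace Pool.Agent.Lib.MP_d6150d_an.S1Lc

set_option linter.unnecessarySeqFocus false
set_option linter.unusedTactic false
set_option linter.unusedVariables false

theorem gd : Gd C [(8796093022208, 140737488355328), (0, 13194139533312), (0, 140737488355328)] :=
    .split 2 (.split 0 (chk_sound k0) (chk_sound k1)) (chk_sound k2)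

set_option maxRecDepth 100000 in
theorem eq {b d r D F t M N K x xi yi mu V P Q R z15 W Y k3 k2 k1 j2 j4 z23 : ℝ} (hD : D = -d) (hF :
    F = 1 + b) (ht : t = r) (hM : M = (2 * b + 1) * F) (hN : N = b * M) (hK : K = d * M + b * (2 *
    (1 + 2 * D) * F - (1 + D) * (2 * b + 1))) (hx : x = Real.exp (t / 2)) (hxi : xi = Real.exp (-(t
    / 2))) (hyi : yi = Real.exp (-(F * t))) (hmu : mu = muR D F t) (hV : V = N * (t ^ 2 * mu)) (hP :
    P = (1 + D) * x) (hQ : Q = (1 + 2 * D) * xi) (hR : R = D * xi ^ 3) (hz15 : z15 = ph1 (t / 2))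
    (hW : W = z15 * (1 + xi) / 2 * (1 + D - D * xi ^ 2)) (hY : Y = mu * yi * yi * x / 2) (hk3 : k3 =
    8 * (V - K)) (hk2 : k2 = 8 * (3 * V - K)) (hk1 : k1 = 2 * (3 * V + K)) (hj2 : j2 = ja2 D F) (hj4
    : j4 = ja4 D F) (hz23 : z23 = k3 * (Y ^ 3 * (pjR F P Q R).2.1) + k2 * (Y ^ 2 * (pjR F P Q R).1 *
    W ^ 2) + k1 * (Y * W ^ 4)) : outR prog 0 [b, d, r] = z23 + W ^ 5 * (t * (mu * yi)) * ((-2) * K *
    j2 + (12 * K * j4 - 6 * N * j2) * (t ^ 2 * mu)) ∧ outR (prog.take 45) 0 [b, d, r] = K - V := by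
  replace hD : D = ((Int.cast (-1) : ℝ) * d) := hD.trans (by push_cast <;> ring)
  replace hF : F = ((Int.cast (1) : ℝ) + b) := hF.trans (by push_cast <;> ring)
  replace hM : M = ((((Int.cast (2) : ℝ) * b) + (Int.cast (1) : ℝ)) * F) := hM.trans (by push_cast
    <;> ring)
  replace hN : N = (b * M) := hN.trans (by push_cast <;> ring)
  replace hK : K = ((d * M) + (b * ((((Int.cast (2) : ℝ) * ((Int.cast (1) : ℝ) + ((Int.cast (2) : ℝ)
    * D))) * F) - (((Int.cast (1) : ℝ) + D) * (((Int.cast (2) : ℝ) * b) + (Int.cast (1) : ℝ)))))) :=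
    hK.trans (by push_cast <;> ring)
  replace hx : x = (Real.exp (((Int.cast (1) : ℝ) / (Nat.cast 2 : ℝ)) * t)) := hx.trans (congrArg
    Real.exp (by push_cast <;> ring))
  replace hxi : xi = (Real.exp ((Int.cast (-1) : ℝ) * (((Int.cast (1) : ℝ) / (Nat.cast 2 : ℝ)) *
    t))) := hxi.trans (congrArg Real.exp (by push_cast <;> ring))
  replace hyi : yi = (Real.exp ((Int.cast (-1) : ℝ) * (F * t))) := hyi.trans (congrArg Real.exp (by
    push_cast <;> ring))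
  replace hmu : mu = (mMu D F t) := hmu.trans (mMu_0 ..)
  replace hV : V = (N * ((t * t) * mu)) := hV.trans (by push_cast <;> ring)
  replace hP : P = (((Int.cast (1) : ℝ) + D) * x) := hP.trans (by push_cast <;> ring)
  replace hQ : Q = (((Int.cast (1) : ℝ) + ((Int.cast (2) : ℝ) * D)) * xi) := hQ.trans (by push_cast
    <;> ring)
  replace hR : R = (D * ((xi * xi) * xi)) := hR.trans (by push_cast <;> ring)
  replace hz15 : z15 = (ph1 (((Int.cast (1) : ℝ) / (Nat.cast 2 : ℝ)) * t)) := hz15.trans (congrArg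
    ph1 (by push_cast <;> ring))
  replace hW : W = ((((Int.cast (1) : ℝ) / (Nat.cast 2 : ℝ)) * (z15 * ((Int.cast (1) : ℝ) + xi))) *
    (((Int.cast (1) : ℝ) + D) - (D * (xi * xi)))) := hW.trans (by push_cast <;> ring)
  replace hY : Y = (((Int.cast (1) : ℝ) / (Nat.cast 2 : ℝ)) * (((mu * yi) * yi) * x)) := hY.trans
    (by push_cast <;> ring)
  replace hk3 : k3 = ((Int.cast (8) : ℝ) * (V - K)) := hk3.trans (by push_cast <;> ring)
  replace hk2 : k2 = ((Int.cast (8) : ℝ) * (((Int.cast (3) : ℝ) * V) - K)) := hk2.trans (by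
    push_cast <;> ring)
  replace hk1 : k1 = ((Int.cast (2) : ℝ) * (((Int.cast (3) : ℝ) * V) + K)) := hk1.trans (by
    push_cast <;> ring)
  replace hj2 : j2 = (((Int.cast (1) : ℝ) / (Nat.cast 6 : ℝ)) * (((Int.cast (1) : ℝ) - F) -
    ((Int.cast (2) : ℝ) * D))) := hj2.trans (by simp only [ja2]; push_cast; ring)
  replace hj4 : j4 = (((Int.cast (1) : ℝ) / (Nat.cast 1080 : ℝ)) * (((((Int.cast (4) : ℝ) -
    ((Int.cast (57) : ℝ) * F)) - ((Int.cast (6) : ℝ) * D)) + (F * ((((Int.cast (156) : ℝ) * F) +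
    ((Int.cast (102) : ℝ) * D)) - (F * (((Int.cast (103) : ℝ) * F) + ((Int.cast (312) : ℝ) * D))))))
    - ((D * D) * (((Int.cast (60) : ℝ) + ((Int.cast (480) : ℝ) * F)) + ((Int.cast (320) : ℝ) *
    D))))) := hj4.trans (by simp only [ja4]; push_cast; ring)
  replace hz23 : z23 = (mK3 F P Q R Y W k3 k2 k1) := hz23.trans (mK3_0 ..)
  have e0 : (z23 + (((((W * W) * (W * W)) * W) * (t * (mu * yi))) * ((((Int.cast (-2) : ℝ) * K) *
    j2) + (((((Int.cast (12) : ℝ) * K) * j4) - (((Int.cast (6) : ℝ) * N) * j2)) * ((t * t) * mu)))))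
    = z23 + W ^ 5 * (t * (mu * yi)) * ((-2) * K * j2 + (12 * K * j4 - 6 * N * j2) * (t ^ 2 * mu)) :=
    by push_cast <;> ring
  have e1 : (K - V) = K - V := by push_cast <;> ring
  subst hD hF ht hM hN hK hx hxi hyi hmu hV hP hQ hR hz15 hW hY hk3 hk2 hk1 hj2 hj4 hz23
  exact ⟨Eq.trans rfl e0, Eq.trans rfl e1⟩

theorem l0 : ((8796093022208 : ℤ) : ℝ) / 2 ^ 47 = 1 / 16 := by norm_num
theorem u0 : (1 : ℝ) = ((140737488355328 : ℤ) : ℝ) / 2 ^ 47 := by norm_num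
theorem l1 : ((0 : ℤ) : ℝ) / 2 ^ 47 = 0 := by norm_num
theorem u1 : (3 / 32 : ℝ) = ((13194139533312 : ℤ) : ℝ) / 2 ^ 47 := by norm_num
theorem l2 : ((0 : ℤ) : ℝ) / 2 ^ 47 = 0 := by norm_num
theorem u2 : (1 : ℝ) = ((140737488355328 : ℤ) : ℝ) / 2 ^ 47 := by norm_num

theorem out0 (V2 : ∀ b d : ℝ, 1 / 16 ≤ b → b ≤ 1 → 0 ≤ d → d ≤ 3 / 32 → (fun r ↦ outR prog 0 [b, d,
    r]) =O[nhdsWithin 0 (Set.Ioi 0)] fun r : ℝ ↦ r ^ 4) {b d r : ℝ} (a0 : 1 / 16 ≤ b) (b0 : b ≤ 1)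
    (a1 : 0 ≤ d) (b1 : d ≤ 3 / 32) (a2 : 0 ≤ r) (b2 : r ≤ 1) (p2 : 0 < r) (c0 : 0 ≤ outR (prog.take
    45) 0 [b, d, r]) : 0 < outR prog 0 [b, d, r] :=
  gd 0 (by decide) [b, d, r] (.cons ⟨l0.le.trans a0, b0.trans u0.le⟩ (.cons ⟨l1.le.trans a1,
    b1.trans u1.le⟩ (.cons ⟨l2.le.trans a2, b2.trans u2.le⟩ (.nil)))) ⟨nofun, nofun, fun _ ↦ p2,
    trivial⟩ (List.forall_mem_cons.2 ⟨c0, List.forall_mem_nil _⟩) (⟨fun _ ↦ allB_iff.2 fun _ _ ↦
    trivial, fun y0 a0 b0 ↦ ⟨fun _ ↦ allB_iff.2 fun _ _ ↦ trivial, fun y1 a1 b1 ↦ ⟨fun _ ↦ V2 y0 y1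
    (l0.ge.trans a0) (b0.trans u0.ge) (l1.ge.trans a1) (b1.trans u1.ge), fun _ _ _ ↦ trivial⟩⟩⟩)
    (nofun)

end Pool.Agent.Lib.MP_d6150d_an.S1Lc
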