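import Pool.Agent.Lib.MP_d6150d_an.S1LdD

/-! A generated chart: the computations. -/

namespace Pool.Agent.Lib.MP_d6150d_an.S1Ld

theorem k0 : chk C 0x880880888008888811001008828820880880088810880888208888200110002
    [(8796093022208, 140737488355328), (0, 13194139533312), (0, 87960930222080)] = true := by
  decide +kernel

theorem k1 : chk C 0x8808802880880288088888101018818888811010200 [(8796093022208, 140737488355328),
    (0, 13194139533312), (87960930222080, 175921860444160)] = true := by
  decide +kernel

theorem k2 : chk C 0x88088188880110188088888011012 [(8796093022208, 41781441855488), (0,
    13194139533312), (175921860444160, 263882790666240)] = true := by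
  decide +kernel

theorem k3 : chk C 0xada0d21dd0d80281281888111a818281888088810111088080881888881011012
    [(8796093022208, 41781441855488), (0, 13194139533312), (263882790666240, 351843720888320)] =
    true := by
  decide +kernel

theorem k4 : chk C 0x8d8182081da0dd028d018d81028188110881881028881088022 [(41781441855488,
    74766790688768), (0, 13194139533312), (175921860444160, 351843720888320)] = true := by
  decide +kernel

theorem k5 : chk C 0x881808800881881028808802288088811088188102880880220 [(74766790688768,
    140737488355328), (0, 13194139533312), (175921860444160, 351843720888320)] = true := by
  decide +kernel

end Pool.Agent.Lib.MP_d6150d_an.S1Ld
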