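import Pool.Agent.Lib.MP_d6150d_an.S1LeD

/-! A generated chart: the computations. -/

namespace Pool.Agent.Lib.MP_d6150d_an.S1Le

theorem k0 : chk C 0xdd18283d8183820838828881232 [(0, 140737488355328), (0, 11819749998592), (0,
    562949953421312), (0, 35184372088832)] = true := by
  decide +kernel

theorem k1 : chk C 0x883882188388210 [(0, 140737488355328), (0, 11819749998592), (0,
    281474976710656), (35184372088832, 70368744177664)] = true := by
  decide +kernel

theorem k2 : chk C 0xaad2d13ad2d823dd31ad2d823d83102ad3d8321 [(0, 70368744177664), (0,
    11819749998592), (281474976710656, 562949953421312), (35184372088832, 70368744177664)] = true :=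
    by
  decide +kernel

theorem k3 : chk C 0xaadd123ad2d823dd31ad2d823dd3102aadd023dd1d80321 [(70368744177664,
    140737488355328), (0, 11819749998592), (281474976710656, 562949953421312), (35184372088832,
    70368744177664)] = true := by
  decide +kernel

theorem k4 : chk C 0xbb8218822dd18812d8182088221abe182ae23ee3ae23ba3d2d82100da3821288288218828821023
    [(0, 140737488355328), (0, 11819749998592), (0, 562949953421312), (70368744177664,
    140737488355328)] = true := by
  decide +kernel

end Pool.Agent.Lib.MP_d6150d_an.S1Le
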