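import Pool.Agent.Lib.MP_d6150d_an.GMac
import Pool.Agent.Lib.MP_d6150d_an.WMac
import Pool.Agent.Lib.MP_d6150d_an.S1LfK0

/-! A generated chart: the inequality. -/

namespace Pool.Agent.Lib.MP_d6150d_an.S1Lf

set_option linter.unnecessarySeqFocus false
set_option linter.unusedTactic false
set_option linter.unusedVariables false

theorem gd : Gd C [(0, 140737488355328), (0, 11819749998592), (0, 35184372088832), (0,
    109951162777600)] := chk_sound k0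

set_option maxRecDepth 100000 in
theorem eq {g s x l h th e ts z5 z6 M a b Z nu o dm m p2 dp dP q ee t Y H : ℝ} (hh : h = -x) (hth :
    th = -1) (he : e = l * h) (hts : ts = th * s) (hz5 : z5 = ph1 (5 * e)) (hz6 : z6 = Real.exp (5 *
    e)) (hM : M = 5 / 2 * s * z5 + g * z6 * (43 / 512 - s)) (ha : a = (1 + l * ts) / (2 - 2 * e))
    (hb : b = (1 + 2 * (l * ts)) / (1 - 2 * e)) (hZ : Z = s + 2 * e * M) (hnu : nu = 1 + l * (ts -
    th)) (ho : o = (1 - s) * nu) (hdm : dm = ts * (2 * (1 - Z) - (1 - s * Z) / 2) + th * ((1 - s) ^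
    3 * (1 + nu) / 2 - M) + h * (2 * b * (1 - Z) - a * (1 - s * Z) - M * (2 - s))) (hm : m = o ^ 2 /
    2 + l * dm) (hp2 : p2 = (mWa l h th ts s M Z).1) (hdp : dp = (mWa l h th ts s M Z).2.1) (hdP :
    dP = (mWa l h th ts s M Z).2.2) (hq : q = th + 2 * h * (b - a * s)) (hee : ee = mWb l h ts a b
    m) (ht : t = -1) (hY : Y = 0) (hH : H = mWc h Z Y t o m dm p2 dp dP q ee) : outR prog 0 [g, s,
    x, l] = H ∧ outR prog 1 [g, s, x, l] = H - ee * Z * o ^ 5 ∧ outR (prog.take 13) 0 [g, s, x, l] =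
    3 / 4 - 3 * e ^ 3 + l * th ∧ outR (prog.take 19) 0 [g, s, x, l] = 3 / 32 + l * ts := by
  replace hh : h = ((Int.cast (-1) : ℝ) * x) := hh.trans (by push_cast <;> ring)
  replace hth : th = (Int.cast (-1) : ℝ) := hth.trans (by push_cast <;> ring)
  replace he : e = (l * h) := he.trans (by push_cast <;> ring)
  replace hts : ts = (th * s) := hts.trans (by push_cast <;> ring)
  replace hz5 : z5 = (ph1 ((Int.cast (5) : ℝ) * e)) := hz5.trans (congrArg ph1 (by push_cast <;>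
    ring))
  replace hz6 : z6 = (Real.exp ((Int.cast (5) : ℝ) * e)) := hz6.trans (congrArg Real.exp (by
    push_cast <;> ring))
  replace hM : M = (((((Int.cast (5) : ℝ) / (Nat.cast 2 : ℝ)) * s) * z5) + ((g * z6) * (((Int.cast
    (43) : ℝ) / (Nat.cast 512 : ℝ)) - s))) := hM.trans (by push_cast <;> ring)
  replace ha : a = (((Int.cast (1) : ℝ) + (l * ts)) * ((Int.cast (2) : ℝ) - ((Int.cast (2) : ℝ) *
    e))⁻¹) := ha.trans (by push_cast <;> ring)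
  replace hb : b = (((Int.cast (1) : ℝ) + ((Int.cast (2) : ℝ) * (l * ts))) * ((Int.cast (1) : ℝ) -
    ((Int.cast (2) : ℝ) * e))⁻¹) := hb.trans (by push_cast <;> ring)
  replace hZ : Z = (s + (((Int.cast (2) : ℝ) * e) * M)) := hZ.trans (by push_cast <;> ring)
  replace hnu : nu = ((Int.cast (1) : ℝ) + (l * (ts - th))) := hnu.trans (by push_cast <;> ring)
  replace ho : o = (((Int.cast (1) : ℝ) - s) * nu) := ho.trans (by push_cast <;> ring)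
  replace hdm : dm = (((ts * (((Int.cast (2) : ℝ) * ((Int.cast (1) : ℝ) - Z)) - (((Int.cast (1) : ℝ)
    / (Nat.cast 2 : ℝ)) * ((Int.cast (1) : ℝ) - (s * Z))))) + (th * ((((Int.cast (1) : ℝ) /
    (Nat.cast 2 : ℝ)) * (((((Int.cast (1) : ℝ) - s) * ((Int.cast (1) : ℝ) - s)) * ((Int.cast (1) :
    ℝ) - s)) * ((Int.cast (1) : ℝ) + nu))) - M))) + (h * (((((Int.cast (2) : ℝ) * b) * ((Int.cast
    (1) : ℝ) - Z)) - (a * ((Int.cast (1) : ℝ) - (s * Z)))) - (M * ((Int.cast (2) : ℝ) - s))))) :=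
    hdm.trans (by push_cast <;> ring)
  replace hm : m = ((((Int.cast (1) : ℝ) / (Nat.cast 2 : ℝ)) * (o * o)) + (l * dm)) := hm.trans (by
    push_cast <;> ring)
  replace hp2 : p2 = (mWa l h th ts s M Z).1 := hp2.trans (mWa_0 ..)
  replace hdp : dp = (mWa l h th ts s M Z).2.1 := hdp.trans (mWa_1 ..)
  replace hdP : dP = (mWa l h th ts s M Z).2.2 := hdP.trans (mWa_2 ..)
  replace hq : q = (th + (((Int.cast (2) : ℝ) * h) * (b - (a * s)))) := hq.trans (by push_cast <;>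
    ring)
  replace hee : ee = (mWb l h ts a b m) := hee.trans (mWb_0 ..)
  replace ht : t = (Int.cast (-1) : ℝ) := ht.trans (by push_cast <;> ring)
  replace hY : Y = (Int.cast (0) : ℝ) := hY.trans (by push_cast <;> ring)
  replace hH : H = (mWc h Z Y t o m dm p2 dp dP q ee) := hH.trans (mWc_0 ..)
  have e1 : (H - ((ee * Z) * (((o * o) * (o * o)) * o))) = H - ee * Z * o ^ 5 := by push_cast <;>
    ring
  have e2 : ((((Int.cast (3) : ℝ) / (Nat.cast 4 : ℝ)) - ((Int.cast (3) : ℝ) * ((e * e) * e))) + (l *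
    th)) = 3 / 4 - 3 * e ^ 3 + l * th := by push_cast <;> ring
  have e3 : (((Int.cast (3) : ℝ) / (Nat.cast 32 : ℝ)) + (l * ts)) = 3 / 32 + l * ts := by push_cast
    <;> ring
  subst hh hth he hts hz5 hz6 hM ha hb hZ hnu ho hdm hm hp2 hdp hdP hq hee ht hY hH
  exact ⟨rfl, Eq.trans rfl e1, Eq.trans rfl e2, Eq.trans rfl e3⟩

theorem l0 : ((0 : ℤ) : ℝ) / 2 ^ 47 = 0 := by norm_num
theorem u0 : (1 : ℝ) = ((140737488355328 : ℤ) : ℝ) / 2 ^ 47 := by norm_num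
theorem l1 : ((0 : ℤ) : ℝ) / 2 ^ 47 = 0 := by norm_num
theorem u1 : (43 / 512 : ℝ) = ((11819749998592 : ℤ) : ℝ) / 2 ^ 47 := by norm_num
theorem l2 : ((0 : ℤ) : ℝ) / 2 ^ 47 = 0 := by norm_num
theorem u2 : (1 / 4 : ℝ) = ((35184372088832 : ℤ) : ℝ) / 2 ^ 47 := by norm_num
theorem l3 : ((0 : ℤ) : ℝ) / 2 ^ 47 = 0 := by norm_num
theorem u3 : (25 / 32 : ℝ) = ((109951162777600 : ℤ) : ℝ) / 2 ^ 47 := by norm_num

theorem out0 {g s x l : ℝ} (a0 : 0 ≤ g) (b0 : g ≤ 1) (a1 : 0 ≤ s) (b1 : s ≤ 43 / 512) (a2 : 0 ≤ x)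
    (b2 : x ≤ 1 / 4) (a3 : 0 ≤ l) (b3 : l ≤ 25 / 32) (c0 : 0 ≤ outR (prog.take 13) 0 [g, s, x, l])
    (c1 : 0 ≤ outR (prog.take 19) 0 [g, s, x, l]) : 0 < outR prog 0 [g, s, x, l] :=
  gd 0 (by decide) [g, s, x, l] (.cons ⟨l0.le.trans a0, b0.trans u0.le⟩ (.cons ⟨l1.le.trans a1,
    b1.trans u1.le⟩ (.cons ⟨l2.le.trans a2, b2.trans u2.le⟩ (.cons ⟨l3.le.trans a3, b3.trans u3.le⟩
    (.nil))))) ⟨nofun, nofun, nofun, nofun, trivial⟩ (List.forall_mem_cons.2 ⟨c0,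
    List.forall_mem_cons.2 ⟨c1, List.forall_mem_nil _⟩⟩) (Van.of0 rfl) (nofun)

theorem pos0 {g s x l h th e ts z5 z6 M a b Z nu o dm m p2 dp dP q ee t Y H : ℝ} (hh : h = -x) (hth
    : th = -1) (he : e = l * h) (hts : ts = th * s) (hz5 : z5 = ph1 (5 * e)) (hz6 : z6 = Real.exp (5
    * e)) (hM : M = 5 / 2 * s * z5 + g * z6 * (43 / 512 - s)) (ha : a = (1 + l * ts) / (2 - 2 * e))
    (hb : b = (1 + 2 * (l * ts)) / (1 - 2 * e)) (hZ : Z = s + 2 * e * M) (hnu : nu = 1 + l * (ts -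
    th)) (ho : o = (1 - s) * nu) (hdm : dm = ts * (2 * (1 - Z) - (1 - s * Z) / 2) + th * ((1 - s) ^
    3 * (1 + nu) / 2 - M) + h * (2 * b * (1 - Z) - a * (1 - s * Z) - M * (2 - s))) (hm : m = o ^ 2 /
    2 + l * dm) (hp2 : p2 = (mWa l h th ts s M Z).1) (hdp : dp = (mWa l h th ts s M Z).2.1) (hdP :
    dP = (mWa l h th ts s M Z).2.2) (hq : q = th + 2 * h * (b - a * s)) (hee : ee = mWb l h ts a b
    m) (ht : t = -1) (hY : Y = 0) (hH : H = mWc h Z Y t o m dm p2 dp dP q ee) (a0 : 0 ≤ g) (b0 : g ≤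
    1) (a1 : 0 ≤ s) (b1 : s ≤ 43 / 512) (a2 : 0 ≤ x) (b2 : x ≤ 1 / 4) (a3 : 0 ≤ l) (b3 : l ≤ 25 /
    32) (c0 : 0 ≤ 3 / 4 - 3 * e ^ 3 + l * th) (c1 : 0 ≤ 3 / 32 + l * ts) : 0 < H :=
  have e := eq hh hth he hts hz5 hz6 hM ha hb hZ hnu ho hdm hm hp2 hdp hdP hq hee ht hY hH
  (out0 a0 b0 a1 b1 a2 b2 a3 b3 (c0.trans_eq e.2.2.1.symm) (c1.trans_eq e.2.2.2.symm)).trans_eq e.1

theorem out1 {g s x l : ℝ} (a0 : 0 ≤ g) (b0 : g ≤ 1) (a1 : 0 ≤ s) (b1 : s ≤ 43 / 512) (a2 : 0 ≤ x)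
    (b2 : x ≤ 1 / 4) (a3 : 0 ≤ l) (b3 : l ≤ 25 / 32) (c0 : 0 ≤ outR (prog.take 13) 0 [g, s, x, l])
    (c1 : 0 ≤ outR (prog.take 19) 0 [g, s, x, l]) : 0 < outR prog 1 [g, s, x, l] :=
  gd 1 (by decide) [g, s, x, l] (.cons ⟨l0.le.trans a0, b0.trans u0.le⟩ (.cons ⟨l1.le.trans a1,
    b1.trans u1.le⟩ (.cons ⟨l2.le.trans a2, b2.trans u2.le⟩ (.cons ⟨l3.le.trans a3, b3.trans u3.le⟩
    (.nil))))) ⟨nofun, nofun, nofun, nofun, trivial⟩ (List.forall_mem_cons.2 ⟨c0,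
    List.forall_mem_cons.2 ⟨c1, List.forall_mem_nil _⟩⟩) (Van.of0 rfl) (nofun)

theorem pos1 {g s x l h th e ts z5 z6 M a b Z nu o dm m p2 dp dP q ee t Y H : ℝ} (hh : h = -x) (hth
    : th = -1) (he : e = l * h) (hts : ts = th * s) (hz5 : z5 = ph1 (5 * e)) (hz6 : z6 = Real.exp (5
    * e)) (hM : M = 5 / 2 * s * z5 + g * z6 * (43 / 512 - s)) (ha : a = (1 + l * ts) / (2 - 2 * e))
    (hb : b = (1 + 2 * (l * ts)) / (1 - 2 * e)) (hZ : Z = s + 2 * e * M) (hnu : nu = 1 + l * (ts -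
    th)) (ho : o = (1 - s) * nu) (hdm : dm = ts * (2 * (1 - Z) - (1 - s * Z) / 2) + th * ((1 - s) ^
    3 * (1 + nu) / 2 - M) + h * (2 * b * (1 - Z) - a * (1 - s * Z) - M * (2 - s))) (hm : m = o ^ 2 /
    2 + l * dm) (hp2 : p2 = (mWa l h th ts s M Z).1) (hdp : dp = (mWa l h th ts s M Z).2.1) (hdP :
    dP = (mWa l h th ts s M Z).2.2) (hq : q = th + 2 * h * (b - a * s)) (hee : ee = mWb l h ts a b
    m) (ht : t = -1) (hY : Y = 0) (hH : H = mWc h Z Y t o m dm p2 dp dP q ee) (a0 : 0 ≤ g) (b0 : g ≤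
    1) (a1 : 0 ≤ s) (b1 : s ≤ 43 / 512) (a2 : 0 ≤ x) (b2 : x ≤ 1 / 4) (a3 : 0 ≤ l) (b3 : l ≤ 25 /
    32) (c0 : 0 ≤ 3 / 4 - 3 * e ^ 3 + l * th) (c1 : 0 ≤ 3 / 32 + l * ts) : 0 < H - ee * Z * o ^ 5 :=
  have e := eq hh hth he hts hz5 hz6 hM ha hb hZ hnu ho hdm hm hp2 hdp hdP hq hee ht hY hH
  (out1 a0 b0 a1 b1 a2 b2 a3 b3 (c0.trans_eq e.2.2.1.symm) (c1.trans_eq e.2.2.2.symm)).trans_eq
    e.2.1

end Pool.Agent.Lib.MP_d6150d_an.S1Lf
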