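import Pool.Agent.Lib.MP_d6150d_an.S1LKey
import Pool.Agent.Lib.MP_d6150d_an.S1La
import Pool.Agent.Lib.MP_d6150d_an.S1Lb
import Pool.Agent.Lib.MP_d6150d_an.S1Lc
import Pool.Agent.Lib.MP_d6150d_an.S1Ld
import Pool.Agent.Lib.MP_d6150d_an.S1Le
import Pool.Agent.Lib.MP_d6150d_an.S1Lf

/-! The strip `S1`: at most one critical period among the low levels. -/

namespace Pool.Agent.Lib.MP_d6150d_an

open Real Set Filter Topology Asymptotics

noncomputable def kA (b c : ℝ) : ℝ := 2 * c * ((2 * b + 1) * (1 + b)) +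
  (2 * (1 + 2 * -(2 * b * c)) * (1 + b) - (1 + -(2 * b * c)) * (2 * b + 1))

noncomputable def kC (b d : ℝ) : ℝ := d * ((2 * b + 1) * (1 + b)) +
  b * (2 * (1 + 2 * -d) * (1 + b) - (1 + -d) * (2 * b + 1))

theorem eqLa (b c r : ℝ) : outR S1La.prog 0 [b, c, r] =
    gS (-(2 * b * c)) (1 + b) ((2 * b + 1) * (1 + b)) (kA b c) r ∧
    outR (S1La.prog.take 45) 0 [b, c, r] =
      kA b c - (2 * b + 1) * (1 + b) * vR (-(2 * b * c)) (1 + b) r :=
  S1La.eq rfl rfl rfl rfl rfl rfl rfl rfl rfl rfl rfl rfl rfl rfl rfl rfl rfl rfl rfl rfl rfl rfl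

theorem eqLb (b c r : ℝ) : outR S1Lb.prog 0 [b, c, r] =
    gS (-(2 * b * c)) (1 + b) ((2 * b + 1) * (1 + b)) (kA b c) (-r) ∧
    outR (S1Lb.prog.take 20) 0 [b, c, r] =
      3 / 4 + 3 * b ^ 3 + -(2 * b * c) * exp (-(-r / 2)) ^ 2 :=
  S1Lb.eq rfl rfl rfl rfl rfl rfl rfl rfl rfl rfl rfl rfl rfl rfl rfl rfl rfl rfl rfl rfl rfl rfl

theorem eqLc (b d r : ℝ) : outR S1Lc.prog 0 [b, d, r] =
    gS (-d) (1 + b) (b * ((2 * b + 1) * (1 + b))) (kC b d) r ∧
    outR (S1Lc.prog.take 45) 0 [b, d, r] =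
      kC b d - b * ((2 * b + 1) * (1 + b)) * vR (-d) (1 + b) r :=
  S1Lc.eq rfl rfl rfl rfl rfl rfl rfl rfl rfl rfl rfl rfl rfl rfl rfl rfl rfl rfl rfl rfl rfl rfl rfl

theorem eqLd (b d r : ℝ) : outR S1Ld.prog 0 [b, d, r] =
    gS (-d) (1 + b) (b * ((2 * b + 1) * (1 + b))) (kC b d) (-r) ∧
    outR (S1Ld.prog.take 18) 0 [b, d, r] = 3 / 4 + 3 * b ^ 3 + -d * exp (-(-r / 2)) ^ 2 :=
  S1Ld.eq rfl rfl rfl rfl rfl rfl rfl rfl rfl rfl rfl rfl rfl rfl rfl rfl rfl rfl rfl rfl rfl rfl rfl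

variable {b c t : ℝ}

theorem kA_eq (b0 : 0 < b) : kA b c = (2 * b + 1) * (1 + b) * kW (-b) c := by
  have ra := aW_eq (e := -b) (c := c) (by linarith)
  have rb := bW_eq (e := -b) (c := c) (by linarith)
  rw [kA, kW]
  linear_combination (2 * b + 1) * ra - 2 * (1 + b) * rb

theorem kC_eq (b0 : 0 < b) : kC b (2 * b * c) = b * ((2 * b + 1) * (1 + b)) * kW (-b) c := by
  rw [mul_assoc b, ← kA_eq b0, kC, kA]; ring

variable (b0 : 0 < b) (b1 : b ≤ 1) (c0 : 0 < c) (c1 : c ≤ 3 / 4) (hd : 2 * b * c ≤ 3 / 32)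
  (ht : t ∈ JR (-(2 * b * c)))
include b0 b1 c0 c1 hd ht

theorem low_right (t0 : 0 < t) (t1 : t ≤ 1) (hv : vR (-(2 * b * c)) (1 + b) t ≤ kW (-b) c) :
    t * dS (-(2 * b * c)) (1 + b) (kW (-b) c) t < 0 := by
  have n0 : 0 < (2 * b + 1) * (1 + b) := by positivity
  rcases le_total b (1 / 16) with k | k
  · refine dS_sign (kA_eq b0) n0 ht t0.ne' ((S1La.out0 (fun c r _ _ _ _ ↦ (eqLa 0 c r).1.trans
      (gS_iso (by ring) (by ring))) (fun b c a _ _ _ ↦ (gS_right (by positivity)).congr_left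
        fun r ↦ (eqLa b c r).1.symm) b0.le k c0.le c1 t0.le t1 b0 t0 ?_).trans_eq (eqLa b c t).1)
    rw [(eqLa b c t).2, kA_eq b0, ← mul_sub]
    exact mul_nonneg n0.le (sub_nonneg.2 hv)
  · refine dS_sign (kC_eq b0) (mul_pos b0 n0) ht t0.ne' ((S1Lc.out0 (fun b c a _ _ _ ↦
      (gS_right (by positivity)).congr_left fun r ↦ (eqLc b c r).1.symm) k b1 (by positivity) hd
        t0.le t1 t0 ?_).trans_eq (eqLc b _ t).1)
    rw [(eqLc b _ t).2, kC_eq b0, ← mul_sub]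
    exact mul_nonneg (mul_pos b0 n0).le (sub_nonneg.2 hv)

theorem low_left (t0 : t < 0) (t1 : -(5 / 2) ≤ t) (hs : 2 * b * c * exp (-t) ≤ 3 / 4 + 3 * b ^ 3) :
    t * dS (-(2 * b * c)) (1 + b) (kW (-b) c) t < 0 := by
  have n0 : 0 < (2 * b + 1) * (1 + b) := by positivity
  obtain ⟨r, rfl⟩ : ∃ r, t = -r := ⟨-t, (neg_neg t).symm⟩
  have r0 : 0 < r := by linarith
  have hc : 0 ≤ 3 / 4 + 3 * b ^ 3 + -(2 * b * c) * exp (-(-r / 2)) ^ 2 := by
    rw [half_sq, neg_div] at hs; linarith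
  rcases le_total b (1 / 16) with k | k
  · exact dS_sign (kA_eq b0) n0 ht t0.ne ((S1Lb.out0 (fun c r _ _ _ _ ↦ (eqLb 0 c r).1.trans
      (gS_iso (by ring) (by ring))) (fun b c a _ _ _ ↦ (gS_left (by positivity)).congr_left
        fun r ↦ (eqLb b c r).1.symm) b0.le k c0.le c1 r0.le (by linarith) b0 r0
          (hc.trans_eq (eqLb b c r).2.symm)).trans_eq (eqLb b c r).1)
  · exact dS_sign (kC_eq b0) (mul_pos b0 n0) ht t0.ne ((S1Ld.out0 (fun b c a _ _ _ ↦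
      (gS_left (by positivity)).congr_left fun r ↦ (eqLd b c r).1.symm) k b1 (by positivity) hd
        r0.le (by linarith) r0 (hc.trans_eq (eqLd b _ r).2.symm)).trans_eq (eqLd b _ r).1)

omit b0 b1 c0 c1 hd ht in
theorem tailS {e l h th : ℝ} (e0 : e < 0) (ht : t ∈ JR (2 * e * c)) (l0 : 0 < l) (hl : e = l * h)
    (hth : 2 * e * c = l * (th * exp t)) (t1 : t ≤ -(5 / 2))
    (P : ∀ {g s e ts z5 z6 M a b Z nu o dm m p2 dp dP q ee τ Y H : ℝ}, e = l * h → ts = th * s →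
      z5 = ph1 (5 * e) → z6 = exp (5 * e) → M = 5 / 2 * s * z5 + g * z6 * (43 / 512 - s) →
      a = (1 + l * ts) / (2 - 2 * e) → b = (1 + 2 * (l * ts)) / (1 - 2 * e) →
      Z = s + 2 * e * M → nu = 1 + l * (ts - th) → o = (1 - s) * nu →
      dm = ts * (2 * (1 - Z) - (1 - s * Z) / 2) + th * ((1 - s) ^ 3 * (1 + nu) / 2 - M) +
        h * (2 * b * (1 - Z) - a * (1 - s * Z) - M * (2 - s)) → m = o ^ 2 / 2 + l * dm →
      p2 = (mWa l h th ts s M Z).1 → dp = (mWa l h th ts s M Z).2.1 →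
      dP = (mWa l h th ts s M Z).2.2 → q = th + 2 * h * (b - a * s) → ee = mWb l h ts a b m →
      τ = -1 → Y = 0 → H = mWc h Z Y τ o m dm p2 dp dP q ee → 0 ≤ g → g ≤ 1 → 0 ≤ s →
      s ≤ 43 / 512 → s = exp t → 0 < H ∧ 0 < H - ee * Z * o ^ 5) : 0 < dW e c t := by
  have t0 : t < 0 := by linarith
  obtain ⟨s, hs⟩ : ∃ s, s = exp t := ⟨_, rfl⟩
  obtain ⟨ps, hps⟩ : ∃ ps, ps = ph1 (-2 * e * t) := ⟨_, rfl⟩
  obtain ⟨ts, hts⟩ : ∃ ts, ts = th * s := ⟨_, rfl⟩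
  obtain ⟨M, hM⟩ : ∃ M, M = -(t * s * ps) := ⟨_, rfl⟩
  obtain ⟨Z, hZ⟩ : ∃ Z, Z = s + 2 * e * M := ⟨_, rfl⟩
  obtain ⟨nu, hnu⟩ : ∃ nu, nu = 1 + l * (ts - th) := ⟨_, rfl⟩
  obtain ⟨o, ho⟩ : ∃ o, o = (1 - s) * nu := ⟨_, rfl⟩
  obtain ⟨dm, hdm⟩ : ∃ dm, dm = ts * (2 * (1 - Z) - (1 - s * Z) / 2) +
    th * ((1 - s) ^ 3 * (1 + nu) / 2 - M) + h * (2 * bW e c * (1 - Z) - aW e c * (1 - s * Z) -
      M * (2 - s)) := ⟨_, rfl⟩
  obtain ⟨m, hm⟩ : ∃ m, m = o ^ 2 / 2 + l * dm := ⟨_, rfl⟩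
  rw [← hs, ← hts] at hth
  have r3 : exp (-2 * e * t) = 1 + -2 * e * t * ps := by rw [hps]; exact exp_eq_ph _
  have ra := aW_eq (e := e) (c := c) (by linarith)
  have rb := bW_eq (e := e) (c := c) (by linarith)
  have hZ' : Z = s * exp (-2 * e * t) := by rw [hZ, hM, r3]; ring
  have s0 : 0 < s := hs ▸ exp_pos t
  have x1 : exp (-(5 / 2)) < 43 / 512 := by
    have h1 := quadratic_le_exp_of_nonneg (x := 1 / 2) (by norm_num)
    have h2 := pow_le_pow_left₀ (by norm_num) exp_one_gt_d9.le 2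
    rw [exp_neg, inv_lt_comm₀ (exp_pos _) (by norm_num),
      show (5 / 2 : ℝ) = (2 : ℕ) * 1 + 1 / 2 by norm_num, exp_add, exp_nat_mul]
    nlinarith
  have x2 : (1 + (-t - 5 / 2)) * s < 43 / 512 := by
    have h1 := mul_le_mul_of_nonneg_right (add_one_le_exp (-t - 5 / 2)) s0.le
    rw [hs, ← exp_add, show -t - 5 / 2 + t = -(5 / 2) by ring, ← hs] at h1
    linarith
  have s1 : s < 43 / 512 := by nlinarith
  have r5 := exp_eq_ph (5 * e)
  have z0 := exp_pos (5 * e)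
  have M0 : 5 / 2 * s * ph1 (5 * e) ≤ M := by
    have h1 : exp (-2 * e * t) ≤ exp (5 * e) := exp_le_exp.2 (by nlinarith)
    have h2 := mul_le_mul_of_nonneg_left h1 s0.le
    refine le_of_mul_le_mul_left (a := -2 * e) ?_ (by linarith)
    linear_combination h2 + hZ' - hZ + s * r5
  have M1 : M - 5 / 2 * s * ph1 (5 * e) ≤ exp (5 * e) * (43 / 512 - s) := by
    have h1 := mul_le_mul_of_nonneg_left (add_one_le_exp (2 * e * (-t - 5 / 2))) (mul_pos s0 z0).le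
    rw [mul_assoc s _ (exp _), ← exp_add, show 5 * e + 2 * e * (-t - 5 / 2) = -2 * e * t by ring,
      ← hZ'] at h1
    have h2 := mul_le_mul_of_nonneg_left x2.le (mul_pos (neg_pos.2 e0) z0).le
    refine le_of_mul_le_mul_left (a := -2 * e) ?_ (by linarith)
    linear_combination h1 + 2 * h2 + hZ - s * r5
  have w0 := mul_pos z0 (sub_pos.2 s1)
  have hv : vR (2 * e * c) (1 - e) t = 2 * ((-1) ^ 2 * m) := by
    rw [vW (by linarith), kW, ← hs, r3, hm, hdm, ho, hnu]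
    generalize aW e c = a, bW e c = b at *
    subst hl hts hM
    rw [hZ]
    linear_combination 2 * (1 - Z) * rb - (1 - s * Z) * ra +
      (4 * (1 - Z) - (1 - s * Z) + 2 * t * ps) * hth +
      (2 * (b * (1 - 2 * (l * h)) - 1 - 2 * l * th * s) -
        s * (a * (2 - 2 * (l * h)) - 1 - l * th * s)) * hZ
  have hn : om (2 * e * c) t = s * nu := by
    rw [om, ← hs, hnu, hth]; linear_combination -l * hts
  have hw : wR (2 * e * c) t = s * (-1) * o := by rw [wR_eq, hn, ← hs, ho]; ring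
  have key := keyW (dm := dm) (by linarith) ht t0.ne hl hth hts hs hZ hZ' rfl hv hw hm
  obtain ⟨H0, H1⟩ := P (g := (M - 5 / 2 * s * ph1 (5 * e)) / (exp (5 * e) * (43 / 512 - s)))
    (a := aW e c) (b := bW e c) hl hts rfl rfl (by rw [mul_assoc _ (exp _), div_mul_cancel₀ _ w0.ne']; ring)
    (by rw [aW, ← hth]; ring) (by rw [bW, ← hth]; ring) hZ hnu ho hdm hm rfl rfl rfl rfl rfl rfl rfl
    rfl (div_nonneg (sub_nonneg.2 M0) w0.le) ((div_le_one w0).2 M1) s0.le s1.le hs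
  have m0 : 0 < m := by have := vR_pos (F := 1 - e) ht t0.ne; linarith
  have o0 : 0 < o := by
    have h1 : 0 < om (2 * e * c) t := ht
    rw [hn] at h1
    rw [ho]; exact mul_pos (by linarith) ((mul_pos_iff_of_pos_left s0).1 h1)
  have Z0 : 0 < Z := by rw [hZ']; positivity
  have Y0 := exp_pos ((1 - 3 * e) * t)
  have Y1 : exp ((1 - 3 * e) * t) ≤ Z := by
    rw [hZ', hs, ← exp_add]; exact exp_le_exp.2 (by nlinarith)
  rw [show (-1 : ℝ) ^ 2 * m = m by ring] at key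
  generalize exp ((1 - 3 * e) * t) = Y, mWb l h ts (aW e c) (bW e c) m = ee,
    (mWa l h th ts s M Z).1 = p2, (mWa l h th ts s M Z).2.1 = dp, (mWa l h th ts s M Z).2.2 = dP,
    th + 2 * h * (bW e c - aW e c * s) = q at *
  have hH : 0 < mWc h Z Y (-1) o m dm p2 dp dP q ee := by
    have h1 : mWc h Z Y (-1) o m dm p2 dp dP q ee =
      mWc h Z 0 (-1) o m dm p2 dp dP q ee - ee * o ^ 5 * Y := by simp only [mWc]; ring
    rw [h1]
    rcases le_total (ee * o ^ 5) 0 with k | k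
    · linarith [mul_nonpos_of_nonpos_of_nonneg k Y0.le]
    · linarith [mul_le_mul_of_nonneg_left Y1 k]
  have h1 := mul_pos (by positivity : 0 < 32 * m ^ 2 * exp ((1 - e) * t) * l ^ 2 * (-1) ^ 4) hH
  rw [← key] at h1
  have h2 := neg_pos.2 e0
  exact (mul_pos_iff_of_pos_left (by positivity : 0 < 2 * -e * o ^ 5 * Z ^ 2)).1 (by linarith)

theorem low_tail (t1 : t ≤ -(5 / 2)) (hs : 2 * b * c * exp (-t) ≤ 3 / 4 + 3 * b ^ 3) :
    0 < dS (-(2 * b * c)) (1 + b) (kW (-b) c) t := by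
  have e1 : -(2 * b * c) = 2 * -b * c := by ring
  have e2 : 1 + b = 1 - -b := by ring
  rw [e1] at ht
  rw [e1, e2]
  have x : exp (-t) * exp t = 1 := by rw [← exp_add]; simp
  have p := exp_pos (-t)
  generalize exp (-t) = z at *
  rcases le_total (2 * c * z) 4 with k | k
  · exact tailS (neg_neg_of_pos b0) ht (h := -1) (th := -(2 * c * z)) b0 (by ring)
      (by linear_combination 2 * b * c * x) t1
      fun h1 h2 h3 h4 h5 h6 h7 h8 h9 h10 h11 h12 h13 h14 h15 h16 h17 h18 h19 h20 a0 a1 a2 a3 a4 ↦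
        have c1 := by rw [h1]; linarith
        have c2 := by rw [h2, a4]; linear_combination hd + 2 * b * c * x
        ⟨S1Le.pos0 rfl rfl h1 h2 h3 h4 h5 h6 h7 h8 h9 h10 h11 h12 h13 h14 h15 h16 h17 h18 h19 h20
          a0 a1 a2 a3 (by positivity) k b0.le b1 c1 c2,
        S1Le.pos1 rfl rfl h1 h2 h3 h4 h5 h6 h7 h8 h9 h10 h11 h12 h13 h14 h15 h16 h17 h18 h19 h20
          a0 a1 a2 a3 (by positivity) k b0.le b1 c1 c2⟩
  have k0 : 0 < 2 * c * z := by linarith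
  have k1 : b * (2 * c * z) * -(1 / (2 * c * z)) = -b := by field_simp
  have k2 : b * (2 * c * z) ≤ 25 / 32 := by
    have h1 : 4 * b ≤ b * (2 * c * z) := by nlinarith
    have h2 : b ^ 3 ≤ 1 := pow_le_one₀ b0.le b1
    have h3 : 2 * b * c * z = b * (2 * c * z) := by ring
    rw [h3] at hs
    generalize b * (2 * c * z) = ρ at *
    by_contra! h4
    have h5 := pow_le_pow_left₀ (by positivity) h1 3
    nlinarith [mul_nonneg (mul_nonneg (sub_nonneg.2 h4.le) (show 0 ≤ 15 / 4 - ρ by linarith))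
      (show 0 ≤ ρ + 145 / 32 by linarith)]
  exact tailS (neg_neg_of_pos b0) ht (l := b * (2 * c * z)) (h := -(1 / (2 * c * z))) (th := -1)
    (mul_pos b0 k0) k1.symm (by linear_combination 2 * b * c * x) t1
    fun h1 h2 h3 h4 h5 h6 h7 h8 h9 h10 h11 h12 h13 h14 h15 h16 h17 h18 h19 h20 a0 a1 a2 a3 a4 ↦
      have c1 := by rw [h1, k1]; linarith
      have c2 := by rw [h2, a4]; linear_combination hd + 2 * b * c * x
      ⟨S1Lf.pos0 rfl rfl h1 h2 h3 h4 h5 h6 h7 h8 h9 h10 h11 h12 h13 h14 h15 h16 h17 h18 h19 h20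
        a0 a1 a2 a3 (by positivity) (one_div_le_one_div_of_le (by norm_num) k) (by positivity) k2
        c1 c2,
      S1Lf.pos1 rfl rfl h1 h2 h3 h4 h5 h6 h7 h8 h9 h10 h11 h12 h13 h14 h15 h16 h17 h18 h19 h20
        a0 a1 a2 a3 (by positivity) (one_div_le_one_div_of_le (by norm_num) k) (by positivity) k2
        c1 c2⟩

omit ht in
theorem low_cnt : Cnt (-(2 * b * c)) (1 + b)
    (Iic (vR (-(2 * b * c)) (1 + b) (log (2 * b * c / (3 / 4 + 3 * b ^ 3))))) 1 := by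
  have d0 : 0 < 2 * b * c := by positivity
  have l0 : 0 < 3 / 4 + 3 * b ^ 3 := by positivity
  have ra := aW_eq (e := -b) (c := c) (by linarith)
  have rb := bW_eq (e := -b) (c := c) (by linarith)
  have hv : ∀ t, vR (-(2 * b * c)) (1 + b) t = kW (-b) c - 2 * exp (-2 * -b * t) *
      (c + bW (-b) c * exp t - aW (-b) c * exp t ^ 2) := fun t ↦ by
    rw [← vW (by linarith)]; congr 1 <;> ring
  generalize hκ : kW (-b) c = κ, aW (-b) c = α, bW (-b) c = β at *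
  have a0 : 0 < α := by nlinarith
  have a1 : α ≤ β := by
    refine le_of_mul_le_mul_left (a := (2 + 2 * b) * (1 + 2 * b)) ?_ (by positivity)
    have : 2 * b * c * b ≤ 3 / 32 := by nlinarith
    linear_combination (1 + 2 * b) * ra - (2 + 2 * b) * rb + 3 * hd + 2 * this
  have a2 : 3 / 10 ≤ 27 / 10 * α - β := by
    refine le_of_mul_le_mul_left (a := (2 + 2 * b) * (1 + 2 * b)) ?_ (by positivity)
    have h1 : 2 * b * c * b ≤ 2 * b * c := by nlinarith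
    have h2 : b * b ≤ b := by nlinarith
    linear_combination -27 / 10 * (1 + 2 * b) * ra + (2 + 2 * b) * rb + 7 / 5 * h1 + 6 / 5 * h2 +
      hd / 10 + 2 / 5 * b0
  have lt : ∀ t < 0, vR (-(2 * b * c)) (1 + b) t < κ := fun t t0 ↦ by
    have s1 := exp_lt_one_iff.2 t0
    have s2 := exp_pos t
    have : 0 ≤ exp t * (β - α * exp t) := mul_nonneg s2.le (by nlinarith)
    have := mul_pos (exp_pos (-2 * -b * t)) (show 0 < c + β * exp t - α * exp t ^ 2 by linarith)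
    rw [hv]; linarith
  have u0 : log (2 * b * c / (3 / 4 + 3 * b ^ 3)) < 0 :=
    log_neg (by positivity) ((div_lt_one l0).2 (by linarith [pow_pos b0 3]))
  have u1 := exp_log (div_pos d0 l0)
  generalize log (2 * b * c / (3 / 4 + 3 * b ^ 3)) = u at *
  refine (oW κ).cnt1 (-1) ordConnected_Iic fun h (hh : h ≤ _) ⟨x, hx, _, _, x0, _, xh, _⟩ ↦
    ⟨by simp [Gp.P, oW], ?_, fun _ ↦ 0, fun _ _ _ ↦ analyticAt_const, fun x hx y hy x0 y0 e l ↦ ?_⟩
  · have := mul_pos (xh ▸ vR_pos (F := 1 + b) hx x0.ne) (sub_pos.2 (hh.trans_lt (lt u u0)))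
    simp only [Gp.Q, oW]; linarith
  have y2 := (l.trans_le hh).trans (lt u u0)
  have y1 : y ≤ 1 := by
    by_contra k
    have h1 : 27 / 10 < exp y := lt_trans (by norm_num) (exp_one_gt_d9.trans (exp_lt_exp.2 (not_le.1 k)))
    have h2 : 27 / 10 * (3 / 10) ≤ exp y * (α * exp y - β) :=
      mul_le_mul h1.le (by nlinarith) (by norm_num) (exp_pos _).le
    have := mul_pos (exp_pos (-2 * -b * y)) (show 0 < -(c + β * exp y - α * exp y ^ 2) by linarith)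
    rw [hv] at y2; linarith
  have p2 := neg_of_mul_neg_right (hκ ▸ low_right b0 b1 c0 c1 hd hy y0 y1 (hκ ▸ y2.le)) y0.le
  have x1 : u ≤ x := le_of_not_gt fun k ↦ by linarith [vR_anti (F := 1 + b) hx u0.le k]
  have x2 : 2 * b * c * exp (-x) ≤ 3 / 4 + 3 * b ^ 3 := by
    rw [exp_neg, ← div_eq_mul_inv, div_le_comm₀ (exp_pos _) l0, ← u1]; exact exp_le_exp.2 x1
  have p1 : 0 < dS (-(2 * b * c)) (1 + b) κ x := hκ ▸ (le_total (-(5 / 2)) x).elim
    (fun k ↦ pos_of_mul_neg_right (low_left b0 b1 c0 c1 hd hx x0 k x2) x0.le)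
    fun k ↦ low_tail b0 b1 c0 c1 hd hx k x2
  simp only [dS, e] at p1 p2
  simp only [Gp.KN, th, Dg, deriv_const', mul_zero, zero_div, sub_zero, add_zero]
  linarith

end Pool.Agent.Lib.MP_d6150d_an

namespace Pool.Agent.Lib.MP_d6150d_an

open Real Set

theorem S1_low {D F : ℝ} (hD0 : -3 / 32 ≤ D) (hD1 : D < 0) (hF0 : 1 < F) (hF1 : F ≤ 2)
    (h : -D ≤ 3 / 2 * (F - 1)) :
    Cnt D F (Iic (vR D F (log (-D / (3 / 4 + 3 * (F - 1) ^ 3))))) 1 := by
  have b0 : 0 < F - 1 := by linarith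
  have e : 2 * (F - 1) * (-D / (2 * (F - 1))) = -D := by field_simp
  have := low_cnt (b := F - 1) (c := -D / (2 * (F - 1))) b0 (by linarith)
    (div_pos (by linarith) (by linarith)) (by rw [div_le_iff₀ (by positivity)]; linarith)
    (by linarith)
  rwa [e, neg_neg, add_sub_cancel] at this

end Pool.Agent.Lib.MP_d6150d_an
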