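import Pool.Agent.Lib.MP_d6150d_an.GDef

/-! A generated chart: the program. -/

namespace Pool.Agent.Lib.MP_d6150d_an.S1La

def prog2 : List Ins := .add false 13 89 :: .smul 2 0 :: .mul 5 5 :: .mul 1 0 :: .add true 4 0 ::
    .mul 50 0 :: .mul 3 10 :: .mul 95 59 :: .mul 1 0 :: .smul (-2) 98 :: .cst 1 6 :: .sub false 114
    112 :: .sub true 0 108 :: .mul 2 0 :: .mul 4 0 :: .smul 12 104 :: .cst 1 1080 :: .smul 57 118 ::
    .sub false 50 0 :: .smul 6 116 :: .sub false 1 0 :: .smul 156 122 :: .smul 102 119 :: .add false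
    1 0 :: .smul 103 125 :: .smul 312 122 :: .add true 1 0 :: .mul 128 0 :: .sub true 4 0 :: .mul
    130 0 :: .add false 9 0 :: .mul 128 128 :: .int 60 :: .smul 480 134 :: .add false 1 0 :: .smul
    320 132 :: .add false 1 0 :: .mul 5 0 :: .sub true 7 0 :: .mul 22 0 :: .mul 24 0 :: .smul 6 141
    :: .mul 0 28 :: .sub true 2 0 :: .mul 0 104 :: .add true 30 0 :: .mul 37 0 :: .add false 41 0 ::
    .cpy 0 :: []

def prog1 : List Ins := .mul 0 1 :: .mul 5 37 :: .tri 0 :: .mul 4 2 :: .mul 10 0 :: .sub true 14 44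
    :: .smul 8 0 :: .mul 0 2 :: .mul 50 7 :: .smul (-1) 9 :: .exp 0 :: .mul 56 0 :: .sub false 3 0
    :: .mul 2 2 :: .mul 0 3 :: .mul 62 0 :: .add true 3 0 :: .int 4 :: .smul 3 69 :: .sub true 1 0
    :: .sub true 41 71 :: .mul 0 4 :: .smul 2 13 :: .sub true 0 11 :: .sub true 2 0 :: .mul 5 0 ::
    .mul 5 2 :: .smul 4 18 :: .sub false 0 16 :: .sub false 2 0 :: .add true 4 0 :: .mul 14 0 ::
    .mul 8 7 :: .smul 3 0 :: .sub true 2 0 :: .mul 27 0 :: .smul 3 45 :: .sub true 0 76 :: .smul 8 0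
    :: .mul 0 14 :: .add false 93 29 :: .mul 39 0 :: .mul 48 0 :: .mul 90 29 :: .sub false 86 0 ::
    .mul 2 0 :: .mul 0 0 :: .mul 7 0 :: .add true 12 0 :: .mul 44 0 :: prog2

def prog : List Ins := .var 1 :: .smul 2 0 :: .var 0 :: .smul 2 0 :: .int 1 :: .add false 1 0 ::
    .add false 1 3 :: .mul 1 0 :: .mul 6 0 :: .mul 5 8 :: .smul (-1) 0 :: .smul 2 0 :: .add true 7 0
    :: .smul 2 0 :: .mul 0 7 :: .add false 10 4 :: .mul 0 10 :: .sub false 2 0 :: .add true 9 0 ::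
    .var 2 :: .mul 0 0 :: .smul 2 14 :: .mul 0 2 :: .tri 0 :: .mul 4 0 :: .sub true 5 22 :: .mul 0 8
    :: .tri 0 :: .mul 4 0 :: .sub false 6 0 :: .smul 2 1 :: .sub false 8 0 :: .int 2 :: .sub true 15
    0 :: .mul 0 18 :: .tri 0 :: .mul 4 0 :: .add true 7 0 :: .mul 33 0 :: .add true 11 0 :: .smul 2
    0 :: .mul 26 0 :: .mul 40 0 :: .sub false 30 0 :: .cpy 0 :: .cst 1 2 :: .mul 45 32 :: .smul (-1)
    0 :: .exp 0 :: .mul 8 0 :: prog1

def vs : List Vr := [⟨2, 1, false, false⟩, ⟨2, 0, false, false⟩, ⟨7, 4, false, false⟩]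

def C : Chart := ⟨vs, prog, [45], 1, 3⟩

end Pool.Agent.Lib.MP_d6150d_an.S1La
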