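import Pool.Agent.Lib.MP_d6150d_an.GDef

/-! A generated chart: the program. -/

namespace Pool.Agent.Lib.MP_d6150d_an.S1Lb

def prog3 : List Ins := .mul 0 96 :: .add true 30 0 :: .mul 37 0 :: .add false 41 0 :: .cpy 0 :: []

def prog2 : List Ins := .sub false 38 90 :: .mul 1 0 :: .mul 0 0 :: .mul 6 0 :: .add true 11 0 ::
    .mul 55 0 :: .add false 12 41 :: .smul 2 0 :: .mul 5 5 :: .mul 1 0 :: .add true 4 0 :: .mul 61 0
    :: .mul 3 10 :: .mul 108 69 :: .mul 1 0 :: .smul (-2) 50 :: .cst 1 6 :: .sub false 104 103 ::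
    .sub true 0 60 :: .mul 2 0 :: .mul 4 0 :: .smul 12 56 :: .cst 1 1080 :: .smul 57 109 :: .sub
    false 49 0 :: .smul 6 123 :: .sub false 1 0 :: .smul 156 113 :: .smul 102 126 :: .add false 1 0
    :: .smul 103 116 :: .smul 312 129 :: .add true 1 0 :: .mul 119 0 :: .sub true 4 0 :: .mul 121 0
    :: .add false 9 0 :: .mul 135 135 :: .int 60 :: .smul 480 125 :: .add false 1 0 :: .smul 320 139
    :: .add false 1 0 :: .mul 5 0 :: .sub true 7 0 :: .mul 22 0 :: .mul 24 0 :: .smul 6 95 :: .mul 0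
    28 :: .sub true 2 0 :: prog3

def prog1 : List Ins := .add false 51 37 :: .mul 0 37 :: .mul 47 47 :: .mul 0 13 :: .mul 2 0 ::
    .smul 2 55 :: .mul 0 4 :: .smul 2 55 :: .add false 45 0 :: .smul 2 0 :: .mul 0 46 :: .add false
    48 59 :: .mul 0 11 :: .sub false 2 0 :: .add true 7 0 :: .sub true 10 0 :: .smul 8 0 :: .mul 0
    17 :: .mul 6 22 :: .mul 10 61 :: .sub false 1 0 :: .mul 62 63 :: .mul 70 0 :: .add true 2 0 ::
    .int 4 :: .smul 3 61 :: .sub true 1 0 :: .sub true 47 63 :: .mul 0 4 :: .smul 2 10 :: .sub true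
    0 10 :: .sub true 2 0 :: .mul 5 0 :: .mul 5 2 :: .smul 4 15 :: .sub false 0 15 :: .sub false 2 0
    :: .add true 4 0 :: .mul 14 0 :: .mul 8 7 :: .smul 3 0 :: .sub true 2 0 :: .mul 24 0 :: .smul 3
    38 :: .sub true 0 29 :: .smul 8 0 :: .mul 0 14 :: .add false 84 89 :: .mul 51 0 :: .mul 96 0 ::
    prog2

def prog : List Ins := .cst 3 4 :: .var 0 :: .mul 0 0 :: .mul 0 1 :: .smul 3 0 :: .add false 4 0 ::
    .smul 2 4 :: .var 1 :: .mul 1 0 :: .smul (-1) 0 :: .cst 1 2 :: .var 2 :: .smul (-1) 0 :: .mul 2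
    0 :: .smul (-1) 0 :: .exp 0 :: .mul 0 0 :: .mul 7 0 :: .add false 12 0 :: .cpy 0 :: .int 1 ::
    .add false 0 19 :: .smul 2 0 :: .mul 0 10 :: .tri 0 :: .mul 4 0 :: .sub true 5 7 :: .mul 0 16 ::
    .tri 0 :: .mul 4 0 :: .sub false 6 0 :: .smul 2 1 :: .sub false 8 0 :: .int 2 :: .sub true 15 0
    :: .mul 0 26 :: .tri 0 :: .mul 4 0 :: .add true 7 0 :: .mul 35 0 :: .add true 11 0 :: .smul 2 0
    :: .mul 26 35 :: .smul (-1) 0 :: .exp 0 :: .mul 3 0 :: .mul 0 1 :: .tri 39 :: .mul 3 2 :: .mul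
    46 0 :: prog1

def vs : List Vr := [⟨2, 1, false, false⟩, ⟨3, 0, false, false⟩, ⟨7, 4, false, false⟩]

def C : Chart := ⟨vs, prog, [20], 1, 3⟩

end Pool.Agent.Lib.MP_d6150d_an.S1Lb
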