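import Pool.Agent.Lib.MP_d6150d_an.GDef

/-! A generated chart: the program. -/

namespace Pool.Agent.Lib.MP_d6150d_an.S1Lc

def prog2 : List Ins := .add false 13 90 :: .smul 2 0 :: .mul 5 5 :: .mul 1 0 :: .add true 4 0 ::
    .mul 50 0 :: .mul 3 10 :: .mul 95 59 :: .mul 1 0 :: .smul (-2) 99 :: .cst 1 6 :: .sub false 115
    113 :: .sub true 0 110 :: .mul 2 0 :: .mul 4 0 :: .smul 12 105 :: .cst 1 1080 :: .smul 57 119 ::
    .sub false 50 0 :: .smul 6 118 :: .sub false 1 0 :: .smul 156 123 :: .smul 102 121 :: .add false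
    1 0 :: .smul 103 126 :: .smul 312 124 :: .add true 1 0 :: .mul 129 0 :: .sub true 4 0 :: .mul
    131 0 :: .add false 9 0 :: .mul 130 130 :: .int 60 :: .smul 480 135 :: .add false 1 0 :: .smul
    320 134 :: .add false 1 0 :: .mul 5 0 :: .sub true 7 0 :: .mul 22 0 :: .mul 24 0 :: .smul 6 130
    :: .mul 0 28 :: .sub true 2 0 :: .mul 0 104 :: .add false 30 0 :: .mul 37 0 :: .add false 41 0
    :: .cpy 0 :: []

def prog1 : List Ins := .mul 0 1 :: .mul 5 37 :: .tri 0 :: .mul 4 2 :: .mul 10 0 :: .sub true 14 45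
    :: .smul 8 0 :: .mul 0 2 :: .mul 52 7 :: .smul (-1) 9 :: .exp 0 :: .mul 58 0 :: .sub false 3 0
    :: .mul 2 2 :: .mul 0 3 :: .mul 64 0 :: .add true 3 0 :: .int 4 :: .smul 3 70 :: .sub true 1 0
    :: .sub true 41 72 :: .mul 0 4 :: .smul 2 13 :: .sub true 0 11 :: .sub true 2 0 :: .mul 5 0 ::
    .mul 5 2 :: .smul 4 18 :: .sub false 0 16 :: .sub false 2 0 :: .add true 4 0 :: .mul 14 0 ::
    .mul 8 7 :: .smul 3 0 :: .sub true 2 0 :: .mul 27 0 :: .smul 3 45 :: .sub true 0 77 :: .smul 8 0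
    :: .mul 0 14 :: .add false 94 29 :: .mul 39 0 :: .mul 48 0 :: .mul 92 29 :: .sub false 88 0 ::
    .mul 2 0 :: .mul 0 0 :: .mul 7 0 :: .add true 12 0 :: .mul 44 0 :: prog2

def prog : List Ins := .var 1 :: .var 0 :: .smul 2 0 :: .int 1 :: .add false 1 0 :: .add false 1 3
    :: .mul 1 0 :: .mul 6 0 :: .smul (-1) 7 :: .smul 2 0 :: .add true 6 0 :: .smul 2 0 :: .mul 0 6
    :: .add false 9 4 :: .mul 0 9 :: .sub true 2 0 :: .mul 14 0 :: .add false 9 0 :: .mul 16 11 ::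
    .var 2 :: .mul 0 0 :: .smul 2 15 :: .mul 0 2 :: .tri 0 :: .mul 4 0 :: .sub true 5 23 :: .mul 0 8
    :: .tri 0 :: .mul 4 0 :: .sub false 6 0 :: .smul 2 1 :: .sub false 8 0 :: .int 2 :: .sub true 15
    0 :: .mul 0 18 :: .tri 0 :: .mul 4 0 :: .add true 7 0 :: .mul 35 0 :: .add true 11 0 :: .smul 2
    0 :: .mul 26 0 :: .mul 29 0 :: .sub false 31 0 :: .cpy 0 :: .cst 1 2 :: .mul 46 32 :: .smul (-1)
    0 :: .exp 0 :: .mul 8 0 :: prog1

def vs : List Vr := [⟨3, 0, false, false⟩, ⟨2, 0, false, false⟩, ⟨7, 4, false, false⟩]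

def C : Chart := ⟨vs, prog, [45], 1, 3⟩

end Pool.Agent.Lib.MP_d6150d_an.S1Lc
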