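import Pool.Agent.Lib.MP_d6150d_an.GDef

/-! A generated chart: the program. -/

namespace Pool.Agent.Lib.MP_d6150d_an.S1Ld

def prog3 : List Ins := .mul 0 96 :: .add false 30 0 :: .mul 37 0 :: .add false 41 0 :: .cpy 0 :: []

def prog2 : List Ins := .sub false 39 92 :: .mul 1 0 :: .mul 0 0 :: .mul 6 0 :: .add true 11 0 ::
    .mul 57 0 :: .add false 12 41 :: .smul 2 0 :: .mul 5 5 :: .mul 1 0 :: .add true 4 0 :: .mul 63 0
    :: .mul 3 10 :: .mul 110 71 :: .mul 1 0 :: .smul (-2) 50 :: .cst 1 6 :: .sub false 106 105 ::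
    .sub true 0 61 :: .mul 2 0 :: .mul 4 0 :: .smul 12 56 :: .cst 1 1080 :: .smul 57 111 :: .sub
    false 49 0 :: .smul 6 125 :: .sub false 1 0 :: .smul 156 115 :: .smul 102 128 :: .add false 1 0
    :: .smul 103 118 :: .smul 312 131 :: .add true 1 0 :: .mul 121 0 :: .sub true 4 0 :: .mul 123 0
    :: .add false 9 0 :: .mul 137 137 :: .int 60 :: .smul 480 127 :: .add false 1 0 :: .smul 320 141
    :: .add false 1 0 :: .mul 5 0 :: .sub true 7 0 :: .mul 22 0 :: .mul 24 0 :: .smul 6 95 :: .mul 0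
    28 :: .sub true 2 0 :: prog3

def prog1 : List Ins := .mul 0 38 :: .mul 57 0 :: .mul 49 49 :: .mul 0 15 :: .mul 2 0 :: .mul 56 4
    :: .smul 2 56 :: .add true 46 0 :: .smul 2 0 :: .mul 0 47 :: .add false 49 60 :: .mul 0 11 ::
    .sub true 2 0 :: .mul 69 0 :: .add false 8 0 :: .sub true 10 0 :: .smul 8 0 :: .mul 0 19 :: .mul
    7 24 :: .mul 11 63 :: .sub false 1 0 :: .mul 64 65 :: .mul 72 0 :: .add true 2 0 :: .int 4 ::
    .smul 3 63 :: .sub true 1 0 :: .sub true 49 65 :: .mul 0 4 :: .smul 2 10 :: .sub true 0 10 ::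
    .sub true 2 0 :: .mul 5 0 :: .mul 5 2 :: .smul 4 15 :: .sub false 0 15 :: .sub false 2 0 :: .add
    true 4 0 :: .mul 14 0 :: .mul 8 7 :: .smul 3 0 :: .sub true 2 0 :: .mul 24 0 :: .smul 3 38 ::
    .sub true 0 29 :: .smul 8 0 :: .mul 0 14 :: .add false 86 91 :: .mul 53 0 :: .mul 98 0 :: prog2

def prog : List Ins := .cst 3 4 :: .var 0 :: .mul 0 0 :: .mul 0 1 :: .smul 3 0 :: .add false 4 0 ::
    .var 1 :: .smul (-1) 0 :: .cst 1 2 :: .var 2 :: .smul (-1) 0 :: .mul 2 0 :: .smul (-1) 0 :: .exp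
    0 :: .mul 0 0 :: .mul 7 0 :: .add false 10 0 :: .cpy 0 :: .int 1 :: .add false 0 17 :: .smul 2 0
    :: .mul 0 10 :: .tri 0 :: .mul 4 0 :: .sub true 5 7 :: .mul 0 16 :: .tri 0 :: .mul 4 0 :: .sub
    false 6 0 :: .smul 2 1 :: .sub false 8 0 :: .int 2 :: .sub true 15 0 :: .mul 0 26 :: .tri 0 ::
    .mul 4 0 :: .add true 7 0 :: .mul 35 0 :: .add true 11 0 :: .smul 2 0 :: .mul 26 35 :: .smul
    (-1) 0 :: .exp 0 :: .mul 3 0 :: .mul 0 1 :: .tri 39 :: .mul 3 2 :: .mul 46 0 :: .smul 2 54 ::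
    .add false 0 38 :: prog1

def vs : List Vr := [⟨3, 0, false, false⟩, ⟨3, 0, false, false⟩, ⟨7, 4, false, false⟩]

def C : Chart := ⟨vs, prog, [18], 1, 3⟩

end Pool.Agent.Lib.MP_d6150d_an.S1Ld
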