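import Pool.Agent.Lib.MP_d6150d_an.GDef

/-! A generated chart: the program. -/

namespace Pool.Agent.Lib.MP_d6150d_an.S1Le

def prog3 : List Ins := .mul 2 0 :: .mul 116 0 :: .cst 1 180 :: .int 54 :: .int 153 :: .smul 103 153
    :: .sub false 1 0 :: .mul 155 0 :: .sub false 4 0 :: .mul 158 0 :: .int 102 :: .smul 312 59 ::
    .sub true 1 0 :: .mul 61 0 :: .int 6 :: .sub false 1 0 :: .int 60 :: .smul 480 65 :: .add false
    1 0 :: .smul 320 154 :: .add false 1 0 :: .mul 156 0 :: .sub true 6 0 :: .mul 159 0 :: .add true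
    14 0 :: .mul 22 0 :: .mul 0 93 :: .sub true 25 0 :: .mul 31 0 :: .smul 3 178 :: .mul 0 29 ::
    .mul 0 98 :: .add true 3 0 :: .int 0 :: .mul 1 0 :: .mul 0 184 :: .mul 145 145 :: .mul 147 0 ::
    .mul 2 0 :: .add false 45 0 :: .mul 7 133 :: .mul 4 151 :: .mul 1 0 :: .sub false 3 0 :: .cpy 0
    :: .cpy 5 :: []

def prog2 : List Ins := .add false 8 0 :: .sub false 82 99 :: .smul 2 0 :: .mul 0 16 :: .sub true 3
    0 :: .mul 105 0 :: .smul 3 93 :: .sub true 1 0 :: .mul 71 0 :: .sub false 14 0 :: .sub true 0 5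
    :: .mul 75 0 :: .sub true 93 15 :: .smul 3 0 :: .mul 0 22 :: .add false 3 0 :: .mul 98 61 ::
    .smul 3 0 :: .add true 61 105 :: .mul 1 0 :: .sub true 4 0 :: .mul 38 0 :: .mul 65 81 :: .add
    true 31 6 :: .mul 1 0 :: .add true 3 0 :: .mul 43 0 :: .mul 70 70 :: .mul 0 47 :: .smul 3 46 ::
    .add false 0 88 :: .mul 2 0 :: .add false 5 0 :: .mul 99 0 :: .mul 133 133 :: .mul 117 0 :: .mul
    53 95 :: .mul 96 13 :: .smul 2 57 :: .mul 0 45 :: .add true 2 0 :: .mul 4 0 :: .mul 6 0 :: .sub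
    false 9 0 :: .sub true 119 114 :: .mul 127 0 :: .add false 132 0 :: .cst 1 6 :: .smul 2 134 ::
    .sub true 148 0 :: prog3

def prog1 : List Ins := .mul 0 4 :: .cst 43 512 :: .sub true 0 39 :: .mul 2 0 :: .add false 5 0 ::
    .mul 33 0 :: .add true 43 0 :: .sub false 38 0 :: .smul 2 0 :: .mul 46 2 :: .sub false 41 0 ::
    .mul 26 0 :: .sub true 3 0 :: .mul 49 0 :: .mul 28 28 :: .mul 0 29 :: .add false 47 27 :: .mul 1
    0 :: .mul 33 0 :: .sub true 0 14 :: .mul 62 0 :: .add false 7 0 :: .smul 2 47 :: .mul 0 15 ::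
    .mul 44 13 :: .sub false 1 0 :: .sub false 49 63 :: .mul 22 0 :: .sub true 2 0 :: .mul 78 0 ::
    .add false 8 0 :: .mul 81 0 :: .add true 40 0 :: .smul 6 69 :: .add true 65 82 :: .mul 77 0 ::
    .mul 72 73 :: .sub false 1 0 :: .mul 75 62 :: .sub false 0 68 :: .mul 89 0 :: .add true 3 0 ::
    .mul 92 0 :: .sub true 0 80 :: .mul 10 0 :: .smul 3 1 :: .smul 2 83 :: .add false 1 0 :: .sub
    true 0 77 :: .mul 98 0 :: prog2

def prog : List Ins := .cst 3 4 :: .var 3 :: .int (-1) :: .mul 1 0 :: .mul 0 0 :: .mul 0 1 :: .smul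
    3 0 :: .sub false 6 0 :: .var 2 :: .smul (-1) 0 :: .mul 8 0 :: .add false 3 0 :: .cpy 0 :: .cst
    3 32 :: .var 1 :: .mul 5 0 :: .mul 14 0 :: .add false 3 0 :: .cpy 0 :: .smul 2 16 :: .int 1 ::
    .smul 2 4 :: .add true 1 0 :: .smul 2 19 :: .sub false 3 0 :: .inv 0 :: .mul 3 0 :: .add true 6
    10 :: .int 2 :: .sub false 0 5 :: .inv 0 :: .mul 3 0 :: .mul 0 17 :: .sub false 6 0 :: .mul 14 0
    :: .add false 25 0 :: .cst 1 2 :: .sub false 16 22 :: .sub false 22 28 :: .mul 37 0 :: .add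
    false 19 0 :: .mul 3 0 :: .mul 0 0 :: .mul 6 0 :: .cst 5 2 :: .mul 0 30 :: .smul 5 42 :: .tri 0
    :: .mul 4 1 :: .var 0 :: prog1

def vs : List Vr := [⟨1, 0, false, false⟩, ⟨2, 0, false, false⟩, ⟨3, 0, false, false⟩, ⟨3, 0, false,
    false⟩]

def C : Chart := ⟨vs, prog, [13, 19], 2, 3⟩

end Pool.Agent.Lib.MP_d6150d_an.S1Le
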