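import Pool.Agent.Lib.MP_d6150d_an.S1TDD

/-! A generated chart: the computations. -/

namespace Pool.Agent.Lib.MP_d6150d_an.S1TD

theorem k0 : chk C 0x88283888228813288288133 [(0, 140737488355328), (0, 17592186044416), (0,
    35184372088832), (0, 140737488355328)] = true := by
  decide +kernel

end Pool.Agent.Lib.MP_d6150d_an.S1TD
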