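import Pool.Agent.Lib.MP_d6150d_an.GMac
import Pool.Agent.Lib.MP_d6150d_an.S1TDK0

/-! A generated chart: the inequality. -/

namespace Pool.Agent.Lib.MP_d6150d_an.S1TD

set_option linter.unnecessarySeqFocus false
set_option linter.unusedTactic false
set_option linter.unusedVariables false

theorem gd : Gd C [(0, 140737488355328), (0, 17592186044416), (0, 35184372088832), (0,
    140737488355328)] := chk_sound k0

set_option maxRecDepth 100000 in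
theorem eq {rh n sg be s de d od b a u u2 al J Qh Q1 Cc os fo R2 p2 R3 W1 A B uL mu sm A2 lam il ls
    om xi z31 r T0 T1 : ℝ} (hs : s = n * sg) (hde : de = (1 - sg) / (1 - s)) (hd : d = de * n) (hod
    : od = 1 - d) (hb : b = (1 - 2 * d) / (1 + 2 * be)) (ha : a = od / (2 + 2 * be)) (hu : u = 1 -
    s) (hu2 : u2 = u * u) (hal : al = 1 - be) (hJ : J = 2 * be * (b - a * s)) (hQh : Qh = de + sg *
    J) (hQ1 : Q1 = od - J) (hCc : Cc = Q1 - n) (hos : os = od * s) (hfo : fo = (1 + be) * os) (hR2 :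
    R2 = od - be * d - fo) (hp2 : p2 = sg * R2 - al) (hR3 : R3 = be * (1 - 2 * d) - 2 * fo) (hW1 :
    W1 = 2 * os - (1 - 2 * d)) (hA : A = (1 - 3 * be) * p2 * (u * Cc) - Qh * (u * R3 + 3 * (W1 *
    p2))) (hB : B = R2 - Q1 * p2 - al * (n * (2 - s))) (huL : uL = (4 * de - 1 - 3 * be) * u + 2 *
    s) (hmu : mu = 4 - 7 * be + 5 * be ^ 2) (hsm : sm = sg * mu * u) (hA2 : A2 = A + sm * (be * u2)
    / 2) (hlam : lam = 3 / 4 + 3 * be ^ 3) (hil : il = 1 / lam) (hls : ls = lam * sg) (hom : om =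
    Real.exp ((-(4 * be)) * ((ls - de) / (ls + de)))) (hxi : xi = Qh - om * de * (1 + 2 * be * (b -
    a * (d * il)) * il)) (hz31 : z31 = Real.exp ((-6) * be)) (hr : r = rh * z31 * n / (b - a - b *
    s) * u2) (hT0 : T0 = -(A2 + r * (B + r * Cc / 4))) (hT1 : T1 = sm * (r - uL / 2)) : outR prog 0
    [rh, n, sg, be] = T0 + Qh * T1 ∧ outR prog 1 [rh, n, sg, be] = T0 + xi * T1 ∧ outR (prog.take
    12) 0 [rh, n, sg, be] = 3 / 32 - d := by
  replace hs : s = (n * sg) := hs.trans (by push_cast <;> ring)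
  replace hde : de = (((Int.cast (1) : ℝ) - sg) * ((Int.cast (1) : ℝ) - s)⁻¹) := hde.trans (by
    push_cast <;> ring)
  replace hd : d = (de * n) := hd.trans (by push_cast <;> ring)
  replace hod : od = ((Int.cast (1) : ℝ) - d) := hod.trans (by push_cast <;> ring)
  replace hb : b = (((Int.cast (1) : ℝ) - ((Int.cast (2) : ℝ) * d)) * ((Int.cast (1) : ℝ) +
    ((Int.cast (2) : ℝ) * be))⁻¹) := hb.trans (by push_cast <;> ring)
  replace ha : a = (od * ((Int.cast (2) : ℝ) + ((Int.cast (2) : ℝ) * be))⁻¹) := ha.trans (by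
    push_cast <;> ring)
  replace hu : u = ((Int.cast (1) : ℝ) - s) := hu.trans (by push_cast <;> ring)
  replace hu2 : u2 = (u * u) := hu2.trans (by push_cast <;> ring)
  replace hal : al = ((Int.cast (1) : ℝ) - be) := hal.trans (by push_cast <;> ring)
  replace hJ : J = (((Int.cast (2) : ℝ) * be) * (b - (a * s))) := hJ.trans (by push_cast <;> ring)
  replace hQh : Qh = (de + (sg * J)) := hQh.trans (by push_cast <;> ring)
  replace hQ1 : Q1 = (od - J) := hQ1.trans (by push_cast <;> ring)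
  replace hCc : Cc = (Q1 - n) := hCc.trans (by push_cast <;> ring)
  replace hos : os = (od * s) := hos.trans (by push_cast <;> ring)
  replace hfo : fo = (((Int.cast (1) : ℝ) + be) * os) := hfo.trans (by push_cast <;> ring)
  replace hR2 : R2 = ((od - (be * d)) - fo) := hR2.trans (by push_cast <;> ring)
  replace hp2 : p2 = ((sg * R2) - al) := hp2.trans (by push_cast <;> ring)
  replace hR3 : R3 = ((be * ((Int.cast (1) : ℝ) - ((Int.cast (2) : ℝ) * d))) - ((Int.cast (2) : ℝ) *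
    fo)) := hR3.trans (by push_cast <;> ring)
  replace hW1 : W1 = (((Int.cast (2) : ℝ) * os) - ((Int.cast (1) : ℝ) - ((Int.cast (2) : ℝ) * d)))
    := hW1.trans (by push_cast <;> ring)
  replace hA : A = (((((Int.cast (1) : ℝ) - ((Int.cast (3) : ℝ) * be)) * p2) * (u * Cc)) - (Qh * ((u
    * R3) + ((Int.cast (3) : ℝ) * (W1 * p2))))) := hA.trans (by push_cast <;> ring)
  replace hB : B = ((R2 - (Q1 * p2)) - (al * (n * ((Int.cast (2) : ℝ) - s)))) := hB.trans (by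
    push_cast <;> ring)
  replace huL : uL = ((((((Int.cast (4) : ℝ) * de) - (Int.cast (1) : ℝ)) - ((Int.cast (3) : ℝ) *
    be)) * u) + ((Int.cast (2) : ℝ) * s)) := huL.trans (by push_cast <;> ring)
  replace hmu : mu = (((Int.cast (4) : ℝ) - ((Int.cast (7) : ℝ) * be)) + ((Int.cast (5) : ℝ) * (be *
    be))) := hmu.trans (by push_cast <;> ring)
  replace hsm : sm = ((sg * mu) * u) := hsm.trans (by push_cast <;> ring)
  replace hA2 : A2 = (A + (((Int.cast (1) : ℝ) / (Nat.cast 2 : ℝ)) * (sm * (be * u2)))) := hA2.trans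
    (by push_cast <;> ring)
  replace hlam : lam = (((Int.cast (3) : ℝ) / (Nat.cast 4 : ℝ)) + ((Int.cast (3) : ℝ) * ((be * be) *
    be))) := hlam.trans (by push_cast <;> ring)
  replace hil : il = lam⁻¹ := hil.trans (by push_cast <;> ring)
  replace hls : ls = (lam * sg) := hls.trans (by push_cast <;> ring)
  replace hom : om = (Real.exp (((Int.cast (-1) : ℝ) * ((Int.cast (4) : ℝ) * be)) * ((ls - de) * (ls
    + de)⁻¹))) := hom.trans (congrArg Real.exp (by push_cast <;> ring))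
  replace hxi : xi = (Qh - ((om * de) * ((Int.cast (1) : ℝ) + ((((Int.cast (2) : ℝ) * be) * (b - (a
    * (d * il)))) * il)))) := hxi.trans (by push_cast <;> ring)
  replace hz31 : z31 = (Real.exp ((Int.cast (-6) : ℝ) * be)) := hz31.trans (congrArg Real.exp (by
    push_cast <;> ring))
  replace hr : r = ((((rh * z31) * n) * ((b - a) - (b * s))⁻¹) * u2) := hr.trans (by push_cast <;>
    ring)
  replace hT0 : T0 = ((Int.cast (-1) : ℝ) * (A2 + (r * (B + (((Int.cast (1) : ℝ) / (Nat.cast 4 : ℝ))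
    * (r * Cc)))))) := hT0.trans (by push_cast <;> ring)
  replace hT1 : T1 = (sm * (r - (((Int.cast (1) : ℝ) / (Nat.cast 2 : ℝ)) * uL))) := hT1.trans (by
    push_cast <;> ring)
  have e0 : (T0 + (Qh * T1)) = T0 + Qh * T1 := by push_cast <;> ring
  have e1 : (T0 + (xi * T1)) = T0 + xi * T1 := by push_cast <;> ring
  have e2 : (((Int.cast (3) : ℝ) / (Nat.cast 32 : ℝ)) - d) = 3 / 32 - d := by push_cast <;> ring
  subst hs hde hd hod hb ha hu hu2 hal hJ hQh hQ1 hCc hos hfo hR2 hp2 hR3 hW1 hA hB huL hmu hsm hA2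
    hlam hil hls hom hxi hz31 hr hT0 hT1
  exact ⟨Eq.trans rfl e0, Eq.trans rfl e1, Eq.trans rfl e2⟩

theorem l0 : ((0 : ℤ) : ℝ) / 2 ^ 47 = 0 := by norm_num
theorem u0 : (1 : ℝ) = ((140737488355328 : ℤ) : ℝ) / 2 ^ 47 := by norm_num
theorem l1 : ((0 : ℤ) : ℝ) / 2 ^ 47 = 0 := by norm_num
theorem u1 : (1 / 8 : ℝ) = ((17592186044416 : ℤ) : ℝ) / 2 ^ 47 := by norm_num
theorem l2 : ((0 : ℤ) : ℝ) / 2 ^ 47 = 0 := by norm_num
theorem u2 : (1 / 4 : ℝ) = ((35184372088832 : ℤ) : ℝ) / 2 ^ 47 := by norm_num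
theorem l3 : ((0 : ℤ) : ℝ) / 2 ^ 47 = 0 := by norm_num
theorem u3 : (1 : ℝ) = ((140737488355328 : ℤ) : ℝ) / 2 ^ 47 := by norm_num

theorem out0 {rh n sg be : ℝ} (a0 : 0 ≤ rh) (b0 : rh ≤ 1) (a1 : 0 ≤ n) (b1 : n ≤ 1 / 8) (a2 : 0 ≤
    sg) (b2 : sg ≤ 1 / 4) (a3 : 0 ≤ be) (b3 : be ≤ 1) (c0 : 0 ≤ outR (prog.take 12) 0 [rh, n, sg,
    be]) : 0 < outR prog 0 [rh, n, sg, be] :=
  gd 0 (by decide) [rh, n, sg, be] (.cons ⟨l0.le.trans a0, b0.trans u0.le⟩ (.cons ⟨l1.le.trans a1,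
    b1.trans u1.le⟩ (.cons ⟨l2.le.trans a2, b2.trans u2.le⟩ (.cons ⟨l3.le.trans a3, b3.trans u3.le⟩
    (.nil))))) ⟨nofun, nofun, nofun, nofun, trivial⟩ (List.forall_mem_cons.2 ⟨c0,
    List.forall_mem_nil _⟩) (Van.of0 rfl) (nofun)

theorem pos0 {rh n sg be s de d od b a u u2 al J Qh Q1 Cc os fo R2 p2 R3 W1 A B uL mu sm A2 lam il
    ls om xi z31 r T0 T1 : ℝ} (hs : s = n * sg) (hde : de = (1 - sg) / (1 - s)) (hd : d = de * n)
    (hod : od = 1 - d) (hb : b = (1 - 2 * d) / (1 + 2 * be)) (ha : a = od / (2 + 2 * be)) (hu : u =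
    1 - s) (hu2 : u2 = u * u) (hal : al = 1 - be) (hJ : J = 2 * be * (b - a * s)) (hQh : Qh = de +
    sg * J) (hQ1 : Q1 = od - J) (hCc : Cc = Q1 - n) (hos : os = od * s) (hfo : fo = (1 + be) * os)
    (hR2 : R2 = od - be * d - fo) (hp2 : p2 = sg * R2 - al) (hR3 : R3 = be * (1 - 2 * d) - 2 * fo)
    (hW1 : W1 = 2 * os - (1 - 2 * d)) (hA : A = (1 - 3 * be) * p2 * (u * Cc) - Qh * (u * R3 + 3 *
    (W1 * p2))) (hB : B = R2 - Q1 * p2 - al * (n * (2 - s))) (huL : uL = (4 * de - 1 - 3 * be) * u +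
    2 * s) (hmu : mu = 4 - 7 * be + 5 * be ^ 2) (hsm : sm = sg * mu * u) (hA2 : A2 = A + sm * (be *
    u2) / 2) (hlam : lam = 3 / 4 + 3 * be ^ 3) (hil : il = 1 / lam) (hls : ls = lam * sg) (hom : om
    = Real.exp ((-(4 * be)) * ((ls - de) / (ls + de)))) (hxi : xi = Qh - om * de * (1 + 2 * be * (b
    - a * (d * il)) * il)) (hz31 : z31 = Real.exp ((-6) * be)) (hr : r = rh * z31 * n / (b - a - b *
    s) * u2) (hT0 : T0 = -(A2 + r * (B + r * Cc / 4))) (hT1 : T1 = sm * (r - uL / 2)) (a0 : 0 ≤ rh)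
    (b0 : rh ≤ 1) (a1 : 0 ≤ n) (b1 : n ≤ 1 / 8) (a2 : 0 ≤ sg) (b2 : sg ≤ 1 / 4) (a3 : 0 ≤ be) (b3 :
    be ≤ 1) (c0 : 0 ≤ 3 / 32 - d) : 0 < T0 + Qh * T1 :=
  have e := eq hs hde hd hod hb ha hu hu2 hal hJ hQh hQ1 hCc hos hfo hR2 hp2 hR3 hW1 hA hB huL hmu
    hsm hA2 hlam hil hls hom hxi hz31 hr hT0 hT1
  (out0 a0 b0 a1 b1 a2 b2 a3 b3 (c0.trans_eq e.2.2.symm)).trans_eq e.1

theorem out1 {rh n sg be : ℝ} (a0 : 0 ≤ rh) (b0 : rh ≤ 1) (a1 : 0 ≤ n) (b1 : n ≤ 1 / 8) (a2 : 0 ≤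
    sg) (b2 : sg ≤ 1 / 4) (a3 : 0 ≤ be) (b3 : be ≤ 1) (c0 : 0 ≤ outR (prog.take 12) 0 [rh, n, sg,
    be]) : 0 < outR prog 1 [rh, n, sg, be] :=
  gd 1 (by decide) [rh, n, sg, be] (.cons ⟨l0.le.trans a0, b0.trans u0.le⟩ (.cons ⟨l1.le.trans a1,
    b1.trans u1.le⟩ (.cons ⟨l2.le.trans a2, b2.trans u2.le⟩ (.cons ⟨l3.le.trans a3, b3.trans u3.le⟩
    (.nil))))) ⟨nofun, nofun, nofun, nofun, trivial⟩ (List.forall_mem_cons.2 ⟨c0,
    List.forall_mem_nil _⟩) (Van.of0 rfl) (nofun)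

theorem pos1 {rh n sg be s de d od b a u u2 al J Qh Q1 Cc os fo R2 p2 R3 W1 A B uL mu sm A2 lam il
    ls om xi z31 r T0 T1 : ℝ} (hs : s = n * sg) (hde : de = (1 - sg) / (1 - s)) (hd : d = de * n)
    (hod : od = 1 - d) (hb : b = (1 - 2 * d) / (1 + 2 * be)) (ha : a = od / (2 + 2 * be)) (hu : u =
    1 - s) (hu2 : u2 = u * u) (hal : al = 1 - be) (hJ : J = 2 * be * (b - a * s)) (hQh : Qh = de +
    sg * J) (hQ1 : Q1 = od - J) (hCc : Cc = Q1 - n) (hos : os = od * s) (hfo : fo = (1 + be) * os)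
    (hR2 : R2 = od - be * d - fo) (hp2 : p2 = sg * R2 - al) (hR3 : R3 = be * (1 - 2 * d) - 2 * fo)
    (hW1 : W1 = 2 * os - (1 - 2 * d)) (hA : A = (1 - 3 * be) * p2 * (u * Cc) - Qh * (u * R3 + 3 *
    (W1 * p2))) (hB : B = R2 - Q1 * p2 - al * (n * (2 - s))) (huL : uL = (4 * de - 1 - 3 * be) * u +
    2 * s) (hmu : mu = 4 - 7 * be + 5 * be ^ 2) (hsm : sm = sg * mu * u) (hA2 : A2 = A + sm * (be *
    u2) / 2) (hlam : lam = 3 / 4 + 3 * be ^ 3) (hil : il = 1 / lam) (hls : ls = lam * sg) (hom : om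
    = Real.exp ((-(4 * be)) * ((ls - de) / (ls + de)))) (hxi : xi = Qh - om * de * (1 + 2 * be * (b
    - a * (d * il)) * il)) (hz31 : z31 = Real.exp ((-6) * be)) (hr : r = rh * z31 * n / (b - a - b *
    s) * u2) (hT0 : T0 = -(A2 + r * (B + r * Cc / 4))) (hT1 : T1 = sm * (r - uL / 2)) (a0 : 0 ≤ rh)
    (b0 : rh ≤ 1) (a1 : 0 ≤ n) (b1 : n ≤ 1 / 8) (a2 : 0 ≤ sg) (b2 : sg ≤ 1 / 4) (a3 : 0 ≤ be) (b3 :
    be ≤ 1) (c0 : 0 ≤ 3 / 32 - d) : 0 < T0 + xi * T1 :=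
  have e := eq hs hde hd hod hb ha hu hu2 hal hJ hQh hQ1 hCc hos hfo hR2 hp2 hR3 hW1 hA hB huL hmu
    hsm hA2 hlam hil hls hom hxi hz31 hr hT0 hT1
  (out1 a0 b0 a1 b1 a2 b2 a3 b3 (c0.trans_eq e.2.2.symm)).trans_eq e.2.1

end Pool.Agent.Lib.MP_d6150d_an.S1TD
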