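import Pool.Agent.Lib.MP_d6150d_an.S1TMD

/-! A generated chart: the computations. -/

namespace Pool.Agent.Lib.MP_d6150d_an.S1TM

theorem k0 : chk C 0x8808888211882880880908808910880891022880891088089102881891088189102221101 [(0,
    17592186044416), (0, 52776558133248), (-844424930131968, -538760697610240)] = true := by
  decide +kernel

theorem k1 : chk C 0x88288288111 [(17592186044416, 35184372088832), (0, 52776558133248),
    (-844424930131968, -538760697610240)] = true := by
  decide +kernel

theorem k2 : chk C 0x8888200 [(0, 35184372088832), (52776558133248, 105553116266496),
    (-844424930131968, -538760697610240)] = true := by
  decide +kernel

theorem k3 : chk C 0x88821881088288088020880880111 [(35184372088832, 70368744177664), (0,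
    105553116266496), (-844424930131968, -538760697610240)] = true := by
  decide +kernel

theorem k4 : chk C 0x882882882118828809188091288091880912210888118828808901880890128808809012102
    [(0, 17592186044416), (0, 26388279066624), (-538760697610240, -233096465088512)] = true := by
  decide +kernel

theorem k5 : chk C 0x88288208802 [(0, 17592186044416), (26388279066624, 52776558133248),
    (-538760697610240, -233096465088512)] = true := by
  decide +kernel

theorem k6 : chk C 0x8828822882880880218880121 [(17592186044416, 35184372088832), (0,
    52776558133248), (-538760697610240, -233096465088512)] = true := by
  decide +kernel

theorem k7 : chk C 0x882828828828200 [(0, 35184372088832), (52776558133248, 105553116266496),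
    (-538760697610240, -233096465088512)] = true := by
  decide +kernel

theorem k8 : chk C 0x88188128818208882188102880880088088002882881028808802880880218808801211
    [(35184372088832, 70368744177664), (0, 105553116266496), (-538760697610240, -233096465088512)] =
    true := by
  decide +kernel

theorem k9 : chk C 0x88082880880208888200288288288200288188028812882880821881208818828821021
    [(70368744177664, 140737488355328), (0, 52776558133248), (-844424930131968, -233096465088512)] =
    true := by
  decide +kernel

theorem k10 : chk C 0x881881088128808801288188128818812088188102088288218882188821002
    [(70368744177664, 140737488355328), (52776558133248, 105553116266496), (-844424930131968,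
    -233096465088512)] = true := by
  decide +kernel

theorem k11 : chk C 0x88088018880128880128818812881288182888118812088188288210200 [(0,
    70368744177664), (105553116266496, 211106232532992), (-844424930131968, -233096465088512)] =
    true := by
  decide +kernel

theorem k12 : chk C 0x8808288088021888012880882881018880120888018880102 [(70368744177664,
    140737488355328), (105553116266496, 211106232532992), (-844424930131968, -233096465088512)] =
    true := by
  decide +kernel

end Pool.Agent.Lib.MP_d6150d_an.S1TM
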