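import Pool.Agent.Lib.MP_d6150d_an.GMac
import Pool.Agent.Lib.MP_d6150d_an.S1TMK0

/-! A generated chart: the inequality. -/

namespace Pool.Agent.Lib.MP_d6150d_an.S1TM

set_option linter.unnecessarySeqFocus false
set_option linter.unusedTactic false
set_option linter.unusedVariables false

theorem gd : Gd C [(0, 140737488355328), (0, 211106232532992), (-844424930131968, -233096465088512)]
    := .split 1 (.split 0 (.split 2 (.split 0 (.split 1 (.split 0 (chk_sound k0) (chk_sound k1))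
    (chk_sound k2)) (chk_sound k3)) (.split 0 (.split 1 (.split 0 (.split 1 (chk_sound k4)
    (chk_sound k5)) (chk_sound k6)) (chk_sound k7)) (chk_sound k8))) (.split 1 (chk_sound k9)
    (chk_sound k10))) (.split 0 (chk_sound k11) (chk_sound k12))

set_option maxRecDepth 100000 in
theorem eq {be et l n sg s z4 de d t ze z2 od b a u u2 al J Qh Q1 Cc os fo R2 p2 R3 W1 A B uL mu sm
    A2 lam il ls om xi N2 S2 z39 v Lam sc Nu u5 g0 g1 T0 T1 w : ℝ} (hn : n = Real.exp l) (hsg : sg =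
    Real.exp (-et)) (hs : s = n * sg) (hz4 : z4 = ph1 (-et)) (hde : de = et * z4 / (1 - s)) (hd : d
    = de * n) (ht : t = l - et) (hze : ze = Real.exp (be * t)) (hz2 : z2 = ze * ze) (hod : od = 1 -
    d) (hb : b = (1 - 2 * d) / (1 + 2 * be)) (ha : a = od / (2 + 2 * be)) (hu : u = 1 - s) (hu2 : u2
    = u * u) (hal : al = 1 - be) (hJ : J = 2 * be * (b - a * s)) (hQh : Qh = de + sg * J) (hQ1 : Q1
    = od - J) (hCc : Cc = Q1 - n) (hos : os = od * s) (hfo : fo = (1 + be) * os) (hR2 : R2 = od - be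
    * d - fo) (hp2 : p2 = sg * R2 - al) (hR3 : R3 = be * (1 - 2 * d) - 2 * fo) (hW1 : W1 = 2 * os -
    (1 - 2 * d)) (hA : A = (1 - 3 * be) * p2 * (u * Cc) - Qh * (u * R3 + 3 * (W1 * p2))) (hB : B =
    R2 - Q1 * p2 - al * (n * (2 - s))) (huL : uL = (4 * de - 1 - 3 * be) * u + 2 * s) (hmu : mu = 4
    - 7 * be + 5 * be ^ 2) (hsm : sm = sg * mu * u) (hA2 : A2 = A + sm * (be * u2) / 2) (hlam : lam
    = 3 / 4 + 3 * be ^ 3) (hil : il = 1 / lam) (hls : ls = lam * sg) (hom : om = Real.exp ((-(4 *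
    be)) * ((ls - de) / (ls + de)))) (hxi : xi = Qh - om * de * (1 + 2 * be * (b - a * (d * il)) *
    il)) (hN2 : N2 = z2 * n) (hS2 : S2 = z2 * s) (hz39 : z39 = ph1 (be * t)) (hv : v = b * (1 - S2)
    - a * (1 - s * S2) - d * (t * z39) * (1 + ze) / 2) (hLam : Lam = N2 * ze) (hsc : sc = sg * sg)
    (hNu : Nu = N2 * u2) (hu5 : u5 = u2 * u2 * u * Lam) (hg0 : g0 = 1 / 4 + (d + 2 * be * (b - a)) *
    (2 * d - be) / 12) (hg1 : g1 = N2 * (9 / 16 * v - mu / 4)) (hT0 : T0 = u5 * g0 - sc * (v * (v *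
    A2 + Nu * B) + Nu * Nu * Cc / 4)) (hT1 : T1 = sc * (sm * (v * (Nu - v * uL / 2))) + u5 * g1) (hw
    : w = 4 * ((1 + 2 * be) * (1 + be)) ^ 2) : outR prog 0 [be, et, l] = w * (T0 + Qh * T1) ∧ outR
    prog 1 [be, et, l] = w * (T0 + xi * T1) ∧ outR (prog.take 15) 0 [be, et, l] = 3 / 32 - d := by
  replace hsg : sg = (Real.exp ((Int.cast (-1) : ℝ) * et)) := hsg.trans (congrArg Real.exp (by
    push_cast <;> ring))
  replace hs : s = (n * sg) := hs.trans (by push_cast <;> ring)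
  replace hz4 : z4 = (ph1 ((Int.cast (-1) : ℝ) * et)) := hz4.trans (congrArg ph1 (by push_cast <;>
    ring))
  replace hde : de = ((et * z4) * ((Int.cast (1) : ℝ) - s)⁻¹) := hde.trans (by push_cast <;> ring)
  replace hd : d = (de * n) := hd.trans (by push_cast <;> ring)
  replace ht : t = (l - et) := ht.trans (by push_cast <;> ring)
  replace hze : ze = (Real.exp (be * t)) := hze.trans (congrArg Real.exp (by push_cast <;> ring))
  replace hz2 : z2 = (ze * ze) := hz2.trans (by push_cast <;> ring)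
  replace hod : od = ((Int.cast (1) : ℝ) - d) := hod.trans (by push_cast <;> ring)
  replace hb : b = (((Int.cast (1) : ℝ) - ((Int.cast (2) : ℝ) * d)) * ((Int.cast (1) : ℝ) +
    ((Int.cast (2) : ℝ) * be))⁻¹) := hb.trans (by push_cast <;> ring)
  replace ha : a = (od * ((Int.cast (2) : ℝ) + ((Int.cast (2) : ℝ) * be))⁻¹) := ha.trans (by
    push_cast <;> ring)
  replace hu : u = ((Int.cast (1) : ℝ) - s) := hu.trans (by push_cast <;> ring)
  replace hu2 : u2 = (u * u) := hu2.trans (by push_cast <;> ring)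
  replace hal : al = ((Int.cast (1) : ℝ) - be) := hal.trans (by push_cast <;> ring)
  replace hJ : J = (((Int.cast (2) : ℝ) * be) * (b - (a * s))) := hJ.trans (by push_cast <;> ring)
  replace hQh : Qh = (de + (sg * J)) := hQh.trans (by push_cast <;> ring)
  replace hQ1 : Q1 = (od - J) := hQ1.trans (by push_cast <;> ring)
  replace hCc : Cc = (Q1 - n) := hCc.trans (by push_cast <;> ring)
  replace hos : os = (od * s) := hos.trans (by push_cast <;> ring)
  replace hfo : fo = (((Int.cast (1) : ℝ) + be) * os) := hfo.trans (by push_cast <;> ring)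
  replace hR2 : R2 = ((od - (be * d)) - fo) := hR2.trans (by push_cast <;> ring)
  replace hp2 : p2 = ((sg * R2) - al) := hp2.trans (by push_cast <;> ring)
  replace hR3 : R3 = ((be * ((Int.cast (1) : ℝ) - ((Int.cast (2) : ℝ) * d))) - ((Int.cast (2) : ℝ) *
    fo)) := hR3.trans (by push_cast <;> ring)
  replace hW1 : W1 = (((Int.cast (2) : ℝ) * os) - ((Int.cast (1) : ℝ) - ((Int.cast (2) : ℝ) * d)))
    := hW1.trans (by push_cast <;> ring)
  replace hA : A = (((((Int.cast (1) : ℝ) - ((Int.cast (3) : ℝ) * be)) * p2) * (u * Cc)) - (Qh * ((u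
    * R3) + ((Int.cast (3) : ℝ) * (W1 * p2))))) := hA.trans (by push_cast <;> ring)
  replace hB : B = ((R2 - (Q1 * p2)) - (al * (n * ((Int.cast (2) : ℝ) - s)))) := hB.trans (by
    push_cast <;> ring)
  replace huL : uL = ((((((Int.cast (4) : ℝ) * de) - (Int.cast (1) : ℝ)) - ((Int.cast (3) : ℝ) *
    be)) * u) + ((Int.cast (2) : ℝ) * s)) := huL.trans (by push_cast <;> ring)
  replace hmu : mu = (((Int.cast (4) : ℝ) - ((Int.cast (7) : ℝ) * be)) + ((Int.cast (5) : ℝ) * (be *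
    be))) := hmu.trans (by push_cast <;> ring)
  replace hsm : sm = ((sg * mu) * u) := hsm.trans (by push_cast <;> ring)
  replace hA2 : A2 = (A + (((Int.cast (1) : ℝ) / (Nat.cast 2 : ℝ)) * (sm * (be * u2)))) := hA2.trans
    (by push_cast <;> ring)
  replace hlam : lam = (((Int.cast (3) : ℝ) / (Nat.cast 4 : ℝ)) + ((Int.cast (3) : ℝ) * ((be * be) *
    be))) := hlam.trans (by push_cast <;> ring)
  replace hil : il = lam⁻¹ := hil.trans (by push_cast <;> ring)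
  replace hls : ls = (lam * sg) := hls.trans (by push_cast <;> ring)
  replace hom : om = (Real.exp (((Int.cast (-1) : ℝ) * ((Int.cast (4) : ℝ) * be)) * ((ls - de) * (ls
    + de)⁻¹))) := hom.trans (congrArg Real.exp (by push_cast <;> ring))
  replace hxi : xi = (Qh - ((om * de) * ((Int.cast (1) : ℝ) + ((((Int.cast (2) : ℝ) * be) * (b - (a
    * (d * il)))) * il)))) := hxi.trans (by push_cast <;> ring)
  replace hN2 : N2 = (z2 * n) := hN2.trans (by push_cast <;> ring)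
  replace hS2 : S2 = (z2 * s) := hS2.trans (by push_cast <;> ring)
  replace hz39 : z39 = (ph1 (be * t)) := hz39.trans (congrArg ph1 (by push_cast <;> ring))
  replace hv : v = (((b * ((Int.cast (1) : ℝ) - S2)) - (a * ((Int.cast (1) : ℝ) - (s * S2)))) -
    (((Int.cast (1) : ℝ) / (Nat.cast 2 : ℝ)) * ((d * (t * z39)) * ((Int.cast (1) : ℝ) + ze)))) :=
    hv.trans (by push_cast <;> ring)
  replace hLam : Lam = (N2 * ze) := hLam.trans (by push_cast <;> ring)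
  replace hsc : sc = (sg * sg) := hsc.trans (by push_cast <;> ring)
  replace hNu : Nu = (N2 * u2) := hNu.trans (by push_cast <;> ring)
  replace hu5 : u5 = (((u2 * u2) * u) * Lam) := hu5.trans (by push_cast <;> ring)
  replace hg0 : g0 = (((Int.cast (1) : ℝ) / (Nat.cast 4 : ℝ)) + (((Int.cast (1) : ℝ) / (Nat.cast 12
    : ℝ)) * ((d + (((Int.cast (2) : ℝ) * be) * (b - a))) * (((Int.cast (2) : ℝ) * d) - be)))) :=
    hg0.trans (by push_cast <;> ring)
  replace hg1 : g1 = (N2 * ((((Int.cast (9) : ℝ) / (Nat.cast 16 : ℝ)) * v) - (((Int.cast (1) : ℝ) /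
    (Nat.cast 4 : ℝ)) * mu))) := hg1.trans (by push_cast <;> ring)
  replace hT0 : T0 = ((u5 * g0) - (sc * ((v * ((v * A2) + (Nu * B))) + (((Int.cast (1) : ℝ) /
    (Nat.cast 4 : ℝ)) * ((Nu * Nu) * Cc))))) := hT0.trans (by push_cast <;> ring)
  replace hT1 : T1 = ((sc * (sm * (v * (Nu - (((Int.cast (1) : ℝ) / (Nat.cast 2 : ℝ)) * (v *
    uL)))))) + (u5 * g1)) := hT1.trans (by push_cast <;> ring)
  replace hw : w = ((Int.cast (4) : ℝ) * ((((Int.cast (1) : ℝ) + ((Int.cast (2) : ℝ) * be)) *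
    ((Int.cast (1) : ℝ) + be)) * (((Int.cast (1) : ℝ) + ((Int.cast (2) : ℝ) * be)) * ((Int.cast (1)
    : ℝ) + be)))) := hw.trans (by push_cast <;> ring)
  have e0 : (w * (T0 + (Qh * T1))) = w * (T0 + Qh * T1) := by push_cast <;> ring
  have e1 : (w * (T0 + (xi * T1))) = w * (T0 + xi * T1) := by push_cast <;> ring
  have e2 : (((Int.cast (3) : ℝ) / (Nat.cast 32 : ℝ)) - d) = 3 / 32 - d := by push_cast <;> ring
  subst hn hsg hs hz4 hde hd ht hze hz2 hod hb ha hu hu2 hal hJ hQh hQ1 hCc hos hfo hR2 hp2 hR3 hW1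
    hA hB huL hmu hsm hA2 hlam hil hls hom hxi hN2 hS2 hz39 hv hLam hsc hNu hu5 hg0 hg1 hT0 hT1 hw
  exact ⟨Eq.trans rfl e0, Eq.trans rfl e1, Eq.trans rfl e2⟩

theorem l0 : ((0 : ℤ) : ℝ) / 2 ^ 47 = 0 := by norm_num
theorem u0 : (1 : ℝ) = ((140737488355328 : ℤ) : ℝ) / 2 ^ 47 := by norm_num
theorem l1 : ((0 : ℤ) : ℝ) / 2 ^ 47 = 0 := by norm_num
theorem u1 : (3 / 2 : ℝ) = ((211106232532992 : ℤ) : ℝ) / 2 ^ 47 := by norm_num
theorem l2 : ((-844424930131968 : ℤ) : ℝ) / 2 ^ 47 = -6 := by norm_num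
theorem u2 : (-53 / 32 : ℝ) = ((-233096465088512 : ℤ) : ℝ) / 2 ^ 47 := by norm_num

theorem out0 (N : ∀ l : ℝ, -6 ≤ l → l ≤ -53 / 32 → 0 ≤ outR prog 0 [0, 0, l]) {be et l : ℝ} (a0 : 0
    ≤ be) (b0 : be ≤ 1) (a1 : 0 ≤ et) (b1 : et ≤ 3 / 2) (a2 : -6 ≤ l) (b2 : l ≤ -53 / 32) (p0 : 0 <
    be) (p1 : 0 < et) (c0 : 0 ≤ outR (prog.take 15) 0 [be, et, l]) : 0 < outR prog 0 [be, et, l] :=
  gd 0 (by decide) [be, et, l] (.cons ⟨l0.le.trans a0, b0.trans u0.le⟩ (.cons ⟨l1.le.trans a1,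
    b1.trans u1.le⟩ (.cons ⟨l2.le.trans a2, b2.trans u2.le⟩ (.nil)))) ⟨fun _ ↦ p0, fun _ ↦ p1,
    nofun, trivial⟩ (List.forall_mem_cons.2 ⟨c0, List.forall_mem_nil _⟩) (Van.of0 rfl) (fun _ _ _ _
    _ _ _ y2 a2 b2 ↦ N y2 (l2.ge.trans a2) (b2.trans u2.ge))

theorem out1 (N : ∀ l : ℝ, -6 ≤ l → l ≤ -53 / 32 → 0 ≤ outR prog 1 [0, 0, l]) {be et l : ℝ} (a0 : 0
    ≤ be) (b0 : be ≤ 1) (a1 : 0 ≤ et) (b1 : et ≤ 3 / 2) (a2 : -6 ≤ l) (b2 : l ≤ -53 / 32) (p0 : 0 <
    be) (p1 : 0 < et) (c0 : 0 ≤ outR (prog.take 15) 0 [be, et, l]) : 0 < outR prog 1 [be, et, l] :=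
  gd 1 (by decide) [be, et, l] (.cons ⟨l0.le.trans a0, b0.trans u0.le⟩ (.cons ⟨l1.le.trans a1,
    b1.trans u1.le⟩ (.cons ⟨l2.le.trans a2, b2.trans u2.le⟩ (.nil)))) ⟨fun _ ↦ p0, fun _ ↦ p1,
    nofun, trivial⟩ (List.forall_mem_cons.2 ⟨c0, List.forall_mem_nil _⟩) (Van.of0 rfl) (fun _ _ _ _
    _ _ _ y2 a2 b2 ↦ N y2 (l2.ge.trans a2) (b2.trans u2.ge))

end Pool.Agent.Lib.MP_d6150d_an.S1TM
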