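import Pool.Agent.Lib.MP_d6150d_an.S1TSD

/-! A generated chart: the computations. -/

namespace Pool.Agent.Lib.MP_d6150d_an.S1TS

theorem k0 : chk C 0x882882388388328883233888388333888883333888883333888889333332222 [(0,
    140737488355328), (0, 549755813888), (0, 70368744177664), (0, 107752139522048)] = true := by
  decide +kernel

theorem k1 : chk C 0x882882388288232883882882323 [(0, 140737488355328), (0, 549755813888),
    (70368744177664, 140737488355328), (0, 107752139522048)] = true := by
  decide +kernel

end Pool.Agent.Lib.MP_d6150d_an.S1TS
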