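import Pool.Agent.Lib.MP_d6150d_an.GMac
import Pool.Agent.Lib.MP_d6150d_an.S1TSK0

/-! A generated chart: the inequality. -/

namespace Pool.Agent.Lib.MP_d6150d_an.S1TS

set_option linter.unnecessarySeqFocus false
set_option linter.unusedTactic false
set_option linter.unusedVariables false

theorem gd : Gd C [(0, 140737488355328), (0, 549755813888), (0, 140737488355328), (0,
    107752139522048)] := .split 2 (chk_sound k0) (chk_sound k1)

set_option maxRecDepth 100000 in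
theorem eq {mh n be de d sg s od b a u u2 al J Qh Q1 Cc os fo R2 p2 R3 W1 A B uL mu sm A2 lam il ls
    om xi m bm N2 S2 v Lam Nu u5 g0 g1 T0 T1 w : ℝ} (hd : d = de * n) (hsg : sg = (1 - de) / (1 -
    d)) (hs : s = n * sg) (hod : od = 1 - d) (hb : b = (1 - 2 * d) / (1 + 2 * be)) (ha : a = od / (2
    + 2 * be)) (hu : u = 1 - s) (hu2 : u2 = u * u) (hal : al = 1 - be) (hJ : J = 2 * be * (b - a *
    s)) (hQh : Qh = de + sg * J) (hQ1 : Q1 = od - J) (hCc : Cc = Q1 - n) (hos : os = od * s) (hfo :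
    fo = (1 + be) * os) (hR2 : R2 = od - be * d - fo) (hp2 : p2 = sg * R2 - al) (hR3 : R3 = be * (1
    - 2 * d) - 2 * fo) (hW1 : W1 = 2 * os - (1 - 2 * d)) (hA : A = (1 - 3 * be) * p2 * (u * Cc) - Qh
    * (u * R3 + 3 * (W1 * p2))) (hB : B = R2 - Q1 * p2 - al * (n * (2 - s))) (huL : uL = (4 * de - 1
    - 3 * be) * u + 2 * s) (hmu : mu = 4 - 7 * be + 5 * be ^ 2) (hsm : sm = sg * mu * u) (hA2 : A2 =
    A + sm * (be * u2) / 2) (hlam : lam = 3 / 4 + 3 * be ^ 3) (hil : il = 1 / lam) (hls : ls = lam *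
    sg) (hom : om = Real.exp ((-(4 * be)) * ((ls - de) / (ls + de)))) (hxi : xi = Qh - om * de * (1
    + 2 * be * (b - a * (d * il)) * il)) (hm : m = mh * (5 / 64) / (1 + 16 * be)) (hbm : bm = be *
    m) (hN2 : N2 = n - bm) (hS2 : S2 = sg * N2) (hv : v = b * (1 - S2) - a * (1 - s * S2) + de * m /
    2) (hLam : Lam = (n - 3 / 2 * bm) * (1 - be) ^ 2) (hNu : Nu = N2 * u2) (hu5 : u5 = u2 * u2 * u *
    Lam) (hg0 : g0 = 1 / 4 + (d + 2 * be * (b - a)) * (2 * d - be) / 12) (hg1 : g1 = N2 * (9 / 16 *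
    v - mu / 4)) (hT0 : T0 = u5 * g0 - (v * (v * A2 + Nu * B) + Nu * Nu * Cc / 4)) (hT1 : T1 = sm *
    (v * (Nu - v * uL / 2)) + u5 * g1) (hw : w = 4 * ((1 + 2 * be) * (1 + be)) ^ 2) : outR prog 0
    [mh, n, be, de] = w * (T0 + Qh * T1) ∧ outR prog 1 [mh, n, be, de] = w * (T0 + xi * T1) := by
  replace hd : d = (de * n) := hd.trans (by push_cast <;> ring)
  replace hsg : sg = (((Int.cast (1) : ℝ) - de) * ((Int.cast (1) : ℝ) - d)⁻¹) := hsg.trans (by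
    push_cast <;> ring)
  replace hs : s = (n * sg) := hs.trans (by push_cast <;> ring)
  replace hod : od = ((Int.cast (1) : ℝ) - d) := hod.trans (by push_cast <;> ring)
  replace hb : b = (((Int.cast (1) : ℝ) - ((Int.cast (2) : ℝ) * d)) * ((Int.cast (1) : ℝ) +
    ((Int.cast (2) : ℝ) * be))⁻¹) := hb.trans (by push_cast <;> ring)
  replace ha : a = (od * ((Int.cast (2) : ℝ) + ((Int.cast (2) : ℝ) * be))⁻¹) := ha.trans (by
    push_cast <;> ring)
  replace hu : u = ((Int.cast (1) : ℝ) - s) := hu.trans (by push_cast <;> ring)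
  replace hu2 : u2 = (u * u) := hu2.trans (by push_cast <;> ring)
  replace hal : al = ((Int.cast (1) : ℝ) - be) := hal.trans (by push_cast <;> ring)
  replace hJ : J = (((Int.cast (2) : ℝ) * be) * (b - (a * s))) := hJ.trans (by push_cast <;> ring)
  replace hQh : Qh = (de + (sg * J)) := hQh.trans (by push_cast <;> ring)
  replace hQ1 : Q1 = (od - J) := hQ1.trans (by push_cast <;> ring)
  replace hCc : Cc = (Q1 - n) := hCc.trans (by push_cast <;> ring)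
  replace hos : os = (od * s) := hos.trans (by push_cast <;> ring)
  replace hfo : fo = (((Int.cast (1) : ℝ) + be) * os) := hfo.trans (by push_cast <;> ring)
  replace hR2 : R2 = ((od - (be * d)) - fo) := hR2.trans (by push_cast <;> ring)
  replace hp2 : p2 = ((sg * R2) - al) := hp2.trans (by push_cast <;> ring)
  replace hR3 : R3 = ((be * ((Int.cast (1) : ℝ) - ((Int.cast (2) : ℝ) * d))) - ((Int.cast (2) : ℝ) *
    fo)) := hR3.trans (by push_cast <;> ring)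
  replace hW1 : W1 = (((Int.cast (2) : ℝ) * os) - ((Int.cast (1) : ℝ) - ((Int.cast (2) : ℝ) * d)))
    := hW1.trans (by push_cast <;> ring)
  replace hA : A = (((((Int.cast (1) : ℝ) - ((Int.cast (3) : ℝ) * be)) * p2) * (u * Cc)) - (Qh * ((u
    * R3) + ((Int.cast (3) : ℝ) * (W1 * p2))))) := hA.trans (by push_cast <;> ring)
  replace hB : B = ((R2 - (Q1 * p2)) - (al * (n * ((Int.cast (2) : ℝ) - s)))) := hB.trans (by
    push_cast <;> ring)
  replace huL : uL = ((((((Int.cast (4) : ℝ) * de) - (Int.cast (1) : ℝ)) - ((Int.cast (3) : ℝ) *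
    be)) * u) + ((Int.cast (2) : ℝ) * s)) := huL.trans (by push_cast <;> ring)
  replace hmu : mu = (((Int.cast (4) : ℝ) - ((Int.cast (7) : ℝ) * be)) + ((Int.cast (5) : ℝ) * (be *
    be))) := hmu.trans (by push_cast <;> ring)
  replace hsm : sm = ((sg * mu) * u) := hsm.trans (by push_cast <;> ring)
  replace hA2 : A2 = (A + (((Int.cast (1) : ℝ) / (Nat.cast 2 : ℝ)) * (sm * (be * u2)))) := hA2.trans
    (by push_cast <;> ring)
  replace hlam : lam = (((Int.cast (3) : ℝ) / (Nat.cast 4 : ℝ)) + ((Int.cast (3) : ℝ) * ((be * be) *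
    be))) := hlam.trans (by push_cast <;> ring)
  replace hil : il = lam⁻¹ := hil.trans (by push_cast <;> ring)
  replace hls : ls = (lam * sg) := hls.trans (by push_cast <;> ring)
  replace hom : om = (Real.exp (((Int.cast (-1) : ℝ) * ((Int.cast (4) : ℝ) * be)) * ((ls - de) * (ls
    + de)⁻¹))) := hom.trans (congrArg Real.exp (by push_cast <;> ring))
  replace hxi : xi = (Qh - ((om * de) * ((Int.cast (1) : ℝ) + ((((Int.cast (2) : ℝ) * be) * (b - (a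
    * (d * il)))) * il)))) := hxi.trans (by push_cast <;> ring)
  replace hm : m = ((((Int.cast (5) : ℝ) / (Nat.cast 64 : ℝ)) * mh) * ((Int.cast (1) : ℝ) +
    ((Int.cast (16) : ℝ) * be))⁻¹) := hm.trans (by push_cast <;> ring)
  replace hbm : bm = (be * m) := hbm.trans (by push_cast <;> ring)
  replace hN2 : N2 = (n - bm) := hN2.trans (by push_cast <;> ring)
  replace hS2 : S2 = (sg * N2) := hS2.trans (by push_cast <;> ring)
  replace hv : v = (((b * ((Int.cast (1) : ℝ) - S2)) - (a * ((Int.cast (1) : ℝ) - (s * S2)))) +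
    (((Int.cast (1) : ℝ) / (Nat.cast 2 : ℝ)) * (de * m))) := hv.trans (by push_cast <;> ring)
  replace hLam : Lam = ((n - (((Int.cast (3) : ℝ) / (Nat.cast 2 : ℝ)) * bm)) * (((Int.cast (1) : ℝ)
    - be) * ((Int.cast (1) : ℝ) - be))) := hLam.trans (by push_cast <;> ring)
  replace hNu : Nu = (N2 * u2) := hNu.trans (by push_cast <;> ring)
  replace hu5 : u5 = (((u2 * u2) * u) * Lam) := hu5.trans (by push_cast <;> ring)
  replace hg0 : g0 = (((Int.cast (1) : ℝ) / (Nat.cast 4 : ℝ)) + (((Int.cast (1) : ℝ) / (Nat.cast 12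
    : ℝ)) * ((d + (((Int.cast (2) : ℝ) * be) * (b - a))) * (((Int.cast (2) : ℝ) * d) - be)))) :=
    hg0.trans (by push_cast <;> ring)
  replace hg1 : g1 = (N2 * ((((Int.cast (9) : ℝ) / (Nat.cast 16 : ℝ)) * v) - (((Int.cast (1) : ℝ) /
    (Nat.cast 4 : ℝ)) * mu))) := hg1.trans (by push_cast <;> ring)
  replace hT0 : T0 = ((u5 * g0) - ((v * ((v * A2) + (Nu * B))) + (((Int.cast (1) : ℝ) / (Nat.cast 4
    : ℝ)) * ((Nu * Nu) * Cc)))) := hT0.trans (by push_cast <;> ring)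
  replace hT1 : T1 = ((sm * (v * (Nu - (((Int.cast (1) : ℝ) / (Nat.cast 2 : ℝ)) * (v * uL))))) + (u5
    * g1)) := hT1.trans (by push_cast <;> ring)
  replace hw : w = ((Int.cast (4) : ℝ) * ((((Int.cast (1) : ℝ) + ((Int.cast (2) : ℝ) * be)) *
    ((Int.cast (1) : ℝ) + be)) * (((Int.cast (1) : ℝ) + ((Int.cast (2) : ℝ) * be)) * ((Int.cast (1)
    : ℝ) + be)))) := hw.trans (by push_cast <;> ring)
  have e0 : (w * (T0 + (Qh * T1))) = w * (T0 + Qh * T1) := by push_cast <;> ring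
  have e1 : (w * (T0 + (xi * T1))) = w * (T0 + xi * T1) := by push_cast <;> ring
  subst hd hsg hs hod hb ha hu hu2 hal hJ hQh hQ1 hCc hos hfo hR2 hp2 hR3 hW1 hA hB huL hmu hsm hA2
    hlam hil hls hom hxi hm hbm hN2 hS2 hv hLam hNu hu5 hg0 hg1 hT0 hT1 hw
  exact ⟨Eq.trans rfl e0, Eq.trans rfl e1⟩

theorem l0 : ((0 : ℤ) : ℝ) / 2 ^ 47 = 0 := by norm_num
theorem u0 : (1 : ℝ) = ((140737488355328 : ℤ) : ℝ) / 2 ^ 47 := by norm_num
theorem l1 : ((0 : ℤ) : ℝ) / 2 ^ 47 = 0 := by norm_num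
theorem u1 : (1 / 256 : ℝ) = ((549755813888 : ℤ) : ℝ) / 2 ^ 47 := by norm_num
theorem l2 : ((0 : ℤ) : ℝ) / 2 ^ 47 = 0 := by norm_num
theorem u2 : (1 : ℝ) = ((140737488355328 : ℤ) : ℝ) / 2 ^ 47 := by norm_num
theorem l3 : ((0 : ℤ) : ℝ) / 2 ^ 47 = 0 := by norm_num
theorem u3 : (49 / 64 : ℝ) = ((107752139522048 : ℤ) : ℝ) / 2 ^ 47 := by norm_num

theorem out0 (N : ∀ mh n : ℝ, 0 ≤ mh → mh ≤ 1 → 0 ≤ n → n ≤ 1 / 256 → 0 ≤ outR prog 0 [mh, n, 0, 0])
    {mh n be de : ℝ} (a0 : 0 ≤ mh) (b0 : mh ≤ 1) (a1 : 0 ≤ n) (b1 : n ≤ 1 / 256) (a2 : 0 ≤ be) (b2 :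
    be ≤ 1) (a3 : 0 ≤ de) (b3 : de ≤ 49 / 64) (p2 : 0 < be) (p3 : 0 < de) : 0 < outR prog 0 [mh, n,
    be, de] :=
  gd 0 (by decide) [mh, n, be, de] (.cons ⟨l0.le.trans a0, b0.trans u0.le⟩ (.cons ⟨l1.le.trans a1,
    b1.trans u1.le⟩ (.cons ⟨l2.le.trans a2, b2.trans u2.le⟩ (.cons ⟨l3.le.trans a3, b3.trans u3.le⟩
    (.nil))))) ⟨nofun, nofun, fun _ ↦ p2, fun _ ↦ p3, trivial⟩ (List.forall_mem_nil _) (Van.of0 rfl)
    (fun _ y0 a0 b0 y1 a1 b1 _ _ _ _ _ _ ↦ N y0 y1 (l0.ge.trans a0) (b0.trans u0.ge) (l1.ge.trans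
    a1) (b1.trans u1.ge))

theorem out1 (N : ∀ mh n : ℝ, 0 ≤ mh → mh ≤ 1 → 0 ≤ n → n ≤ 1 / 256 → 0 ≤ outR prog 1 [mh, n, 0, 0])
    {mh n be de : ℝ} (a0 : 0 ≤ mh) (b0 : mh ≤ 1) (a1 : 0 ≤ n) (b1 : n ≤ 1 / 256) (a2 : 0 ≤ be) (b2 :
    be ≤ 1) (a3 : 0 ≤ de) (b3 : de ≤ 49 / 64) (p2 : 0 < be) (p3 : 0 < de) : 0 < outR prog 1 [mh, n,
    be, de] :=
  gd 1 (by decide) [mh, n, be, de] (.cons ⟨l0.le.trans a0, b0.trans u0.le⟩ (.cons ⟨l1.le.trans a1,
    b1.trans u1.le⟩ (.cons ⟨l2.le.trans a2, b2.trans u2.le⟩ (.cons ⟨l3.le.trans a3, b3.trans u3.le⟩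
    (.nil))))) ⟨nofun, nofun, fun _ ↦ p2, fun _ ↦ p3, trivial⟩ (List.forall_mem_nil _) (Van.of0 rfl)
    (fun _ y0 a0 b0 y1 a1 b1 _ _ _ _ _ _ ↦ N y0 y1 (l0.ge.trans a0) (b0.trans u0.ge) (l1.ge.trans
    a1) (b1.trans u1.ge))

end Pool.Agent.Lib.MP_d6150d_an.S1TS
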