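import Pool.Agent.Lib.MP_d6150d_an.S1TA
import Pool.Agent.Lib.MP_d6150d_an.S1TM
import Pool.Agent.Lib.MP_d6150d_an.S1TD
import Pool.Agent.Lib.MP_d6150d_an.S1TS

/-! The strip `S1`, tail: the three charts give `St_tail`. -/

namespace Pool.Agent.Lib.MP_d6150d_an.S1

variable {be de n d sg s od b a u u2 al J Qh Q1 Cc os fo R2 p2 R3 W1 A B uL m sm A2 lam il ls om
  xi : ℝ}

/-- the corner `β = 0`, `d = 0` -/
theorem Core.corner (h : Core 0 0 n 0 1 n od b a u u2 al J Qh Q1 Cc os fo R2 p2 R3 W1 A B uL m sm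
    A2 lam il ls om xi) {v : ℝ} (hv : v = b * (1 - n) - a * (1 - n * n)) : Qh = 0 ∧ xi = 0 ∧
    u2 * u2 * u * n * (1 / 4 + (0 + 2 * 0 * (b - a)) * (2 * 0 - 0) / 12) -
      (v * (v * A2 + n * u2 * B) + n * u2 * (n * u2) * Cc / 4) = 0 := by
  have hJ : J = 0 := by rw [h.hJ]; ring
  have hQ : Qh = 0 := by rw [h.hQh, hJ]; ring
  refine ⟨hQ, by rw [h.hxi, hQ]; ring, ?_⟩
  rw [hv, h.hA2, h.hA, h.hB, h.hCc, h.hQ1, hQ, hJ, h.hp2, h.hR2, h.hfo, h.hos, h.hal, h.hu2, h.hu,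
    h.hb, h.ha, h.hod]
  ring

theorem cornerM (l : ℝ) : outR S1TM.prog 0 [0, 0, l] = 0 ∧ outR S1TM.prog 1 [0, 0, l] = 0 := by
  obtain ⟨od, b, a, u, u2, al, J, Qh, Q1, Cc, os, fo, R2, p2, R3, W1, A, B, uL, m, sm, A2, lam, il,
    ls, om, xi, h⟩ := core_ex 0 0 (Real.exp l) 0 1 (Real.exp l)
  obtain ⟨h1, h2, h3⟩ := h.corner rfl
  have e := S1TM.eq (be := 0) (et := 0) (l := l) (sg := 1) (s := Real.exp l) (de := 0) (d := 0)
    (ze := 1) (z2 := 1) (N2 := Real.exp l) (S2 := Real.exp l) (Lam := Real.exp l) (sc := 1)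
    (v := b * (1 - Real.exp l) - a * (1 - Real.exp l * Real.exp l)) rfl (by simp) (by simp) rfl
    (by simp) (by simp) rfl (by simp) (by simp) h.hod h.hb h.ha h.hu h.hu2 h.hal h.hJ h.hQh h.hQ1 h.hCc h.hos h.hfo h.hR2 h.hp2 h.hR3 h.hW1 h.hA
        h.hB h.huL h.hmu h.hsm h.hA2 h.hlam h.hil h.hls h.hom h.hxi (by simp) (by simp) rfl
    (by simp) (by simp) (by simp) rfl rfl rfl rfl rfl rfl rfl
  rw [e.1, e.2.1, h1, h2]
  constructor <;> linear_combination 4 * h3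

theorem cornerS (mh n : ℝ) :
    outR S1TS.prog 0 [mh, n, 0, 0] = 0 ∧ outR S1TS.prog 1 [mh, n, 0, 0] = 0 := by
  obtain ⟨od, b, a, u, u2, al, J, Qh, Q1, Cc, os, fo, R2, p2, R3, W1, A, B, uL, m, sm, A2, lam, il,
    ls, om, xi, h⟩ := core_ex 0 0 n 0 1 n
  obtain ⟨h1, h2, h3⟩ := h.corner rfl
  have e := S1TS.eq (mh := mh) (n := n) (be := 0) (de := 0) (d := 0) (sg := 1) (s := n) (bm := 0)
    (N2 := n) (S2 := n) (Lam := n) (v := b * (1 - n) - a * (1 - n * n)) (by simp) (by simp)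
    (by simp) h.hod h.hb h.ha h.hu h.hu2 h.hal h.hJ h.hQh h.hQ1 h.hCc h.hos h.hfo h.hR2 h.hp2 h.hR3 h.hW1 h.hA
        h.hB h.huL h.hmu h.hsm h.hA2 h.hlam h.hil h.hls h.hom h.hxi rfl (by simp) (by simp) (by simp) (by simp) (by simp) rfl rfl
    rfl rfl rfl rfl rfl
  rw [e.1, e.2, h1, h2]
  constructor <;> linear_combination 4 * h3

theorem Core.mid (h : Core be de n d sg s od b a u u2 al J Qh Q1 Cc os fo R2 p2 R3 W1 A B uL m sm
    A2 lam il ls om xi) {t z v y : ℝ} (hbe : 0 < be) (hbe1 : be ≤ 1) (hd1 : d ≤ 3 / 32)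
    (hn0 : 0 < n) (hs1 : s < 1) (hsg1 : sg < 1) (hsg : 1 / 4 ≤ sg) (hn1 : n ≤ 3 / 16)
    (hl : -6 ≤ Real.log n) (ht : s = Real.exp t) (hz : z = Real.exp (be * t))
    (hn : (1 - d) * s + d = n) (hd : d = de * n) (hs : s = n * sg)
    (hv : v = kap be d - z ^ 2 * q be d s) (hy : y = Qh ∨ y = xi) :
    0 < sg ^ 2 * (y * (sm * (v * (z ^ 2 * n * u2 - v * uL / 2))) -
          (v * (v * A2 + z ^ 2 * n * u2 * B) + z ^ 2 * n * u2 * (z ^ 2 * n * u2) * Cc / 4)) +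
        u ^ 5 * (z ^ 3 * n) * (1 / 4 + (d + 2 * be * (b - a)) * (2 * d - be) / 12 +
          y * (z ^ 2 * n * (9 / 16 * v - m / 4))) := by
  have hE := Real.exp_one_gt_d9
  have hE' := Real.exp_one_lt_d9
  have e1 : n = Real.exp (Real.log n) := (Real.exp_log hn0).symm
  generalize Real.log n = l at hl e1
  have e2 : sg = Real.exp (-(l - t)) := by
    rw [neg_sub, Real.exp_sub, ← ht, ← e1, hs]; field_simp
  have p1 : 0 < l - t := by
    rw [e2, Real.exp_lt_one_iff] at hsg1; linarith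
  have b1 : l - t ≤ 3 / 2 := by
    have h1 : Real.exp (l - t) * sg = 1 := by rw [e2, ← Real.exp_add]; simp
    have h2 : Real.exp (3 / 2) = Real.exp 1 * Real.exp (1 / 2) := by rw [← Real.exp_add]; norm_num
    have h3 := Real.add_one_le_exp (1 / 2 : ℝ)
    have h4 := Real.exp_pos (l - t)
    apply Real.exp_le_exp.1
    nlinarith
  have b2 : l ≤ -53 / 32 := by
    have h1 : Real.exp (3 * l) = n ^ 3 := by rw [e1, ← Real.exp_nat_mul]; norm_num
    have h2 : Real.exp (-5) * Real.exp 1 ^ 5 = 1 := by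
      rw [← Real.exp_nat_mul, ← Real.exp_add]; norm_num
    have h3 : Real.exp 1 ^ 5 ≤ (2.72 : ℝ) ^ 5 :=
      pow_le_pow_left₀ (by linarith) (by linarith) 5
    have h4 : n ^ 3 ≤ (3 / 16 : ℝ) ^ 3 := pow_le_pow_left₀ hn0.le hn1 3
    have h5 := Real.exp_pos (-5)
    have h6 : 3 * l ≤ -5 := by
      apply Real.exp_le_exp.1
      nlinarith
    linarith
  have e3 : de = (l - t) * ph1 (-(l - t)) / (1 - s) := by
    rw [eq_div_iff (by linarith)]
    have h1 := exp_eq_ph (-(l - t))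
    rw [← e2] at h1
    apply mul_left_cancel₀ hn0.ne'
    linear_combination hn - (1 - s) * hd - hs - n * h1
  have e4 : v = b * (1 - z * z * s) - a * (1 - s * (z * z * s)) -
      d * (t * ph1 (be * t)) * (1 + z) / 2 := by
    have h1 := exp_eq_ph (be * t)
    rw [← hz] at h1
    have h2 : t * ph1 (be * t) = (z - 1) / be := by
      rw [eq_div_iff hbe.ne']; linear_combination -h1
    rw [h.v_eq hbe hv, h2]
    field_simp
    ring
  have e := S1TM.eq (be := be) (et := l - t) (l := l) (t := t) e1 e2 hs rfl e3 hd (by ring) hz rfl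
    h.hod h.hb h.ha h.hu h.hu2 h.hal h.hJ h.hQh h.hQ1 h.hCc h.hos h.hfo h.hR2 h.hp2 h.hR3 h.hW1 h.hA
        h.hB h.huL h.hmu h.hsm h.hA2 h.hlam h.hil h.hls h.hom h.hxi rfl rfl rfl e4 rfl rfl rfl rfl rfl rfl rfl rfl rfl
  have c0 : 0 ≤ outR (S1TM.prog.take 15) 0 [be, l - t, l] := by rw [e.2.2]; linarith
  have hw : 0 < 4 * ((1 + 2 * be) * (1 + be)) ^ 2 := by positivity
  rcases hy with rfl | rfl
  · have k := S1TM.out0 (fun l _ _ ↦ (cornerM l).1.ge) hbe.le hbe1 p1.le b1 hl b2 hbe p1 c0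
    rw [e.1, mul_pos_iff_of_pos_left hw] at k
    refine k.trans_eq ?_
    rw [h.hu2]; ring
  · have k := S1TM.out1 (fun l _ _ ↦ (cornerM l).2.ge) hbe.le hbe1 p1.le b1 hl b2 hbe p1 c0
    rw [e.2.1, mul_pos_iff_of_pos_left hw] at k
    refine k.trans_eq ?_
    rw [h.hu2]; ring

theorem Core.deep (h : Core be de n d sg s od b a u u2 al J Qh Q1 Cc os fo R2 p2 R3 W1 A B uL m sm
    A2 lam il ls om xi) {t z v y : ℝ} (hbe : 0 < be) (hbe1 : be ≤ 1) (hd1 : d ≤ 3 / 32)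
    (hn0 : 0 < n) (hs1 : s < 1) (hsg0 : 0 < sg) (hsg : sg ≤ 1 / 4) (hd0 : 0 < d)
    (ht : s = Real.exp t) (hz : z = Real.exp (be * t))
    (hn : (1 - d) * s + d = n) (hd : d = de * n) (hs : s = n * sg)
    (k1 : 0 < b - a - b * s) (k2 : b - a - b * s ≤ v)
    (k3 : 0 ≤ 1 / 4 + (d + 2 * be * (b - a)) * (2 * d - be) / 12 +
      y * (z ^ 2 * n * (9 / 16 * v - m / 4))) (hy : y = Qh ∨ y = xi) :
    0 < sg ^ 2 * (y * (sm * (v * (z ^ 2 * n * u2 - v * uL / 2))) -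
          (v * (v * A2 + z ^ 2 * n * u2 * B) + z ^ 2 * n * u2 * (z ^ 2 * n * u2) * Cc / 4)) +
        u ^ 5 * (z ^ 3 * n) * (1 / 4 + (d + 2 * be * (b - a)) * (2 * d - be) / 12 +
          y * (z ^ 2 * n * (9 / 16 * v - m / 4))) := by
  have hE' := Real.exp_one_lt_d9
  have hs0 : 0 < s := ht ▸ Real.exp_pos t
  have hz0 : 0 < z := hz ▸ Real.exp_pos _
  have hv0 : 0 < v := k1.trans_le k2
  have hu0 : 0 < u := by rw [h.hu]; linarith
  have h0 : s ≤ n * (1 / 4) := hs ▸ mul_le_mul_of_nonneg_left hsg hn0.le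
  have b1 : n ≤ 1 / 8 := by linarith [mul_pos hd0 hs0]
  have ht3 : t ≤ -3 := by
    have h2 : Real.exp (-3) * Real.exp 1 ^ 3 = 1 := by
      rw [← Real.exp_nat_mul, ← Real.exp_add]; norm_num
    have h3 : Real.exp 1 ^ 3 ≤ (3 : ℝ) ^ 3 :=
      pow_le_pow_left₀ (Real.exp_pos 1).le (by linarith) 3
    have h5 := Real.exp_pos (-3)
    apply Real.exp_le_exp.1
    nlinarith
  have hz2 : z ^ 2 ≤ Real.exp (-6 * be) := by
    rw [hz, ← Real.exp_nat_mul]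
    apply Real.exp_le_exp.2
    push_cast
    nlinarith
  have hx := Real.exp_pos (-6 * be)
  have e3 : de = (1 - sg) / (1 - s) := by
    rw [eq_div_iff (by linarith)]
    apply mul_left_cancel₀ hn0.ne'
    linear_combination hn - (1 - s) * hd - hs
  have e4 : z ^ 2 * n * u2 / v = z ^ 2 * (b - a - b * s) / (Real.exp (-6 * be) * v) *
      Real.exp (-6 * be) * n / (b - a - b * s) * u2 := by field_simp
  have a0 : 0 ≤ z ^ 2 * (b - a - b * s) / (Real.exp (-6 * be) * v) := by positivity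
  have b0 : z ^ 2 * (b - a - b * s) / (Real.exp (-6 * be) * v) ≤ 1 :=
    div_le_one_of_le₀ (mul_le_mul hz2 k2 k1.le hx.le) (by positivity)
  have k : 0 < -(A2 + z ^ 2 * n * u2 / v * (B + z ^ 2 * n * u2 / v * Cc / 4)) +
      y * (sm * (z ^ 2 * n * u2 / v - uL / 2)) := by
    rcases hy with rfl | rfl
    · exact S1TD.pos0 hs e3 hd h.hod h.hb h.ha h.hu h.hu2 h.hal h.hJ h.hQh h.hQ1 h.hCc h.hos h.hfo h.hR2 h.hp2 h.hR3 h.hW1 h.hA
        h.hB h.huL h.hmu h.hsm h.hA2 h.hlam h.hil h.hls h.hom h.hxi rfl e4 rfl rfl a0 b0 hn0.le b1 hsg0.le hsg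
        hbe.le hbe1 (by linarith)
    · exact S1TD.pos1 hs e3 hd h.hod h.hb h.ha h.hu h.hu2 h.hal h.hJ h.hQh h.hQ1 h.hCc h.hos h.hfo h.hR2 h.hp2 h.hR3 h.hW1 h.hA
        h.hB h.huL h.hmu h.hsm h.hA2 h.hlam h.hil h.hls h.hom h.hxi rfl e4 rfl rfl a0 b0 hn0.le b1 hsg0.le hsg
        hbe.le hbe1 (by linarith)
  refine add_pos_of_pos_of_nonneg (mul_pos (by positivity) ?_) (mul_nonneg (by positivity) k3)
  refine (mul_pos (pow_pos hv0 2) k).trans_eq ?_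
  field_simp
  ring

theorem comb {c U w L g M : ℝ} (hc : 0 < c) (hw : 0 ≤ w) (hg : 0 ≤ g) (k : 0 < U + w * L * g)
    (hL : c * L ≤ M) : 0 < c * U + w * M * g := by
  linarith [mul_pos hc k, mul_le_mul_of_nonneg_right (mul_le_mul_of_nonneg_left hL hw) hg]

theorem Core.small (h : Core be de n d sg s od b a u u2 al J Qh Q1 Cc os fo R2 p2 R3 W1 A B uL m sm
    A2 lam il ls om xi) {t z v y : ℝ} (hbe : 0 < be) (hbe1 : be ≤ 1) (hd0 : 0 < d)
    (hn0 : 0 < n) (ht0 : t < 0) (hsg1 : sg < 1) (hsg : 1 / 4 ≤ sg) (hde : 0 < de)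
    (hl : Real.log n ≤ -6) (ht : s = Real.exp t) (hz : z = Real.exp (be * t))
    (hn : (1 - d) * s + d = n) (hd : d = de * n) (hs : s = n * sg)
    (hv : v = kap be d - z ^ 2 * q be d s)
    (k3 : 0 ≤ 1 / 4 + (d + 2 * be * (b - a)) * (2 * d - be) / 12 +
      y * (z ^ 2 * n * (9 / 16 * v - m / 4))) (hy : y = Qh ∨ y = xi) :
    0 < sg ^ 2 * (y * (sm * (v * (z ^ 2 * n * u2 - v * uL / 2))) -
          (v * (v * A2 + z ^ 2 * n * u2 * B) + z ^ 2 * n * u2 * (z ^ 2 * n * u2) * Cc / 4)) +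
        u ^ 5 * (z ^ 3 * n) * (1 / 4 + (d + 2 * be * (b - a)) * (2 * d - be) / 12 +
          y * (z ^ 2 * n * (9 / 16 * v - m / 4))) := by
  have hE := Real.exp_one_gt_d9
  have hs0 : 0 < s := ht ▸ Real.exp_pos t
  have hs1 : s < 1 := ht ▸ Real.exp_lt_one_iff.2 ht0
  have hz0 : 0 < z := hz ▸ Real.exp_pos _
  have hz1 : z ≤ 1 := hz ▸ Real.exp_le_one_iff.2 (by nlinarith)
  have hu0 : 0 < u := by rw [h.hu]; linarith
  have e1 : n = Real.exp (Real.log n) := (Real.exp_log hn0).symm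
  generalize Real.log n = l at hl e1
  have b1 : l - t ≤ 3 / 2 := by
    have h1 : Real.exp (l - t) * sg = 1 := by rw [Real.exp_sub, ← ht, ← e1, hs]; field_simp
    have h2 : Real.exp (3 / 2) = Real.exp 1 * Real.exp (1 / 2) := by rw [← Real.exp_add]; norm_num
    have h3 := Real.add_one_le_exp (1 / 2 : ℝ)
    have h4 := Real.exp_pos (l - t)
    apply Real.exp_le_exp.1
    nlinarith
  have b2 : n * (-5 - l) ≤ 1 / 400 := by
    have h2 : n * Real.exp (-6 - l) * Real.exp 1 ^ 6 = 1 := by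
      rw [e1, ← Real.exp_nat_mul, ← Real.exp_add, ← Real.exp_add]; norm_num
    have h3 : (2.718 : ℝ) ^ 6 ≤ Real.exp 1 ^ 6 := pow_le_pow_left₀ (by norm_num) (by linarith) 6
    have h4 : n * (-5 - l) ≤ n * Real.exp (-6 - l) :=
      mul_le_mul_of_nonneg_left (by linarith [Real.add_one_le_exp (-6 - l)]) hn0.le
    have h5 : 0 < n * Real.exp (-6 - l) := mul_pos hn0 (Real.exp_pos _)
    nlinarith
  have b3 : 0 ≤ n * (-6 - l) := mul_nonneg hn0.le (by linarith)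
  have b4 : n ≤ 1 / 400 := by linarith
  have hdn : d ≤ n := by nlinarith
  have hz2 : 0 ≤ 1 - z ^ 2 := sub_nonneg.2 (pow_le_one₀ hz0.le hz1)
  have hz3 : 1 - z ^ 2 ≤ be * (2 * -t) := by
    have := Real.add_one_le_exp ((2 : ℕ) * (be * t))
    rw [Real.exp_nat_mul, ← hz] at this
    push_cast at this
    linarith
  obtain ⟨c, hc⟩ : ∃ c, c = n * (1 - z ^ 2) / be := ⟨_, rfl⟩
  have hc0 : 0 ≤ c := by rw [hc]; positivity
  have hc1 : be * c = n * (1 - z ^ 2) := by rw [hc]; field_simp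
  have hc2 : c ≤ n * (2 * -t) := by
    rw [hc, div_le_iff₀ hbe]; linarith [mul_le_mul_of_nonneg_left hz3 hn0.le]
  have hc3 : c * (1 + 16 * be) ≤ 5 / 64 := by
    linarith [mul_le_mul_of_nonneg_left b1 hn0.le, mul_nonneg hn0.le (sq_nonneg z)]
  have h3 : sg * (1 - d) = 1 - de := by
    apply mul_left_cancel₀ hn0.ne'
    linear_combination hn - (1 - d) * hs - hd
  have e2 : sg = (1 - de) / (1 - d) := by rw [eq_div_iff (by linarith), h3]
  have b5 : de ≤ 49 / 64 := by nlinarith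
  have e3 : c = c * (1 + 16 * be) / (5 / 64) * (5 / 64) / (1 + 16 * be) := by field_simp
  have e4 : v = b * (1 - sg * (z ^ 2 * n)) - a * (1 - s * (sg * (z ^ 2 * n))) + de * c / 2 := by
    rw [h.v_eq hbe hv, hc, hd, hs]
    field_simp
  have e := S1TS.eq (N2 := z ^ 2 * n) hd e2 hs h.hod h.hb h.ha h.hu h.hu2 h.hal h.hJ h.hQh h.hQ1 h.hCc h.hos h.hfo h.hR2 h.hp2 h.hR3 h.hW1 h.hA
        h.hB h.huL h.hmu h.hsm h.hA2 h.hlam h.hil h.hls h.hom h.hxi e3 rfl (by linarith) rfl e4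
    rfl rfl rfl rfl rfl rfl rfl rfl
  have a0 : 0 ≤ c * (1 + 16 * be) / (5 / 64) := by positivity
  have b0 : c * (1 + 16 * be) / (5 / 64) ≤ 1 := div_le_one_of_le₀ hc3 (by norm_num)
  have hw : 0 < 4 * ((1 + 2 * be) * (1 + be)) ^ 2 := by positivity
  have k : 0 < (y * (sm * (v * (z ^ 2 * n * u2 - v * uL / 2))) -
      (v * (v * A2 + z ^ 2 * n * u2 * B) + z ^ 2 * n * u2 * (z ^ 2 * n * u2) * Cc / 4)) +
      u ^ 5 * ((n - 3 / 2 * (be * c)) * (1 - be) ^ 2) *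
        (1 / 4 + (d + 2 * be * (b - a)) * (2 * d - be) / 12 +
          y * (z ^ 2 * n * (9 / 16 * v - m / 4))) := by
    rcases hy with rfl | rfl
    · have k := S1TS.out0 (fun mh n _ _ _ _ ↦ (cornerS mh n).1.ge) a0 b0 hn0.le (by linarith)
        hbe.le hbe1 hde.le b5 hbe hde
      rw [e.1, mul_pos_iff_of_pos_left hw] at k
      refine k.trans_eq ?_
      rw [h.hu2]; ring
    · have k := S1TS.out1 (fun mh n _ _ _ _ ↦ (cornerS mh n).2.ge) a0 b0 hn0.le (by linarith)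
        hbe.le hbe1 hde.le b5 hbe hde
      rw [e.2, mul_pos_iff_of_pos_left hw] at k
      refine k.trans_eq ?_
      rw [h.hu2]; ring
  have hL : sg ^ 2 * ((n - 3 / 2 * (be * c)) * (1 - be) ^ 2) ≤ z ^ 3 * n := by
    have h4 : n - 3 / 2 * (be * c) ≤ z ^ 3 * n := by
      have : 0 ≤ n * ((z - 1) ^ 2 * (z + 1 / 2)) := by positivity
      linarith
    have h5 : 0 ≤ (sg * (1 - be)) ^ 2 := sq_nonneg _
    have h6 : (sg * (1 - be)) ^ 2 ≤ 1 :=
      pow_le_one₀ (mul_nonneg (by linarith) (by linarith))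
        (mul_le_one₀ hsg1.le (by linarith) (by linarith))
    have h7 : 0 ≤ z ^ 3 * n := by positivity
    linarith [mul_le_mul_of_nonneg_left h4 h5, mul_le_mul_of_nonneg_right h6 h7]
  exact comb (pow_pos (by linarith) 2) (pow_pos hu0 5).le k3 k hL

theorem tail : St_tail := by
  intro be d t x hbe hbe1 hd0 hd1 hdb ht0 hn1 hx
  obtain ⟨s, ht⟩ : ∃ s, s = Real.exp t := ⟨_, rfl⟩
  obtain ⟨z, hz⟩ : ∃ z, z = Real.exp (be * t) := ⟨_, rfl⟩
  rw [← ht] at hn1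
  rw [← ht, ← hz] at hx ⊢
  have hs0 : 0 < s := ht ▸ Real.exp_pos t
  have hs1 : s < 1 := ht ▸ Real.exp_lt_one_iff.2 ht0
  have hz0 : 0 < z := hz ▸ Real.exp_pos _
  have hz1 : z ≤ 1 := hz ▸ Real.exp_le_one_iff.2 (by nlinarith)
  obtain ⟨n, hn⟩ : ∃ n, (1 - d) * s + d = n := ⟨_, rfl⟩
  rw [hn] at hn1
  have hsn : s < n := by nlinarith
  have hn0 : 0 < n := hs0.trans hsn
  obtain ⟨de, hde⟩ : ∃ de, de = d / n := ⟨_, rfl⟩
  obtain ⟨sg, hsg⟩ : ∃ sg, sg = s / n := ⟨_, rfl⟩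
  have hd : d = de * n := by rw [hde]; field_simp
  have hs : s = n * sg := by rw [hsg]; field_simp
  have hde0 : 0 < de := by rw [hde]; positivity
  have hsg0 : 0 < sg := by rw [hsg]; positivity
  have hsg1 : sg < 1 := by rw [hsg]; exact (div_lt_one hn0).2 hsn
  obtain ⟨od, b, a, u, u2, al, J, Qh, Q1, Cc, os, fo, R2, p2, R3, W1, A, B, uL, m, sm, A2, lam, il,
    ls, om, xi, h⟩ := core_ex be de n d sg s
  obtain ⟨y, hy, rfl⟩ : ∃ y, (y = Qh ∨ y = xi) ∧ x = z ^ 2 * n * y / (2 * be) := by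
    rcases hx with rfl | rfl
    · exact ⟨_, .inl rfl, h.x_top hbe hd hs⟩
    · exact ⟨_, .inr rfl, h.x_low hbe hn0 hde0 hsg0 hd hs⟩
  obtain ⟨v, hv⟩ : ∃ v, v = kap be d - z ^ 2 * q be d s := ⟨_, rfl⟩
  rw [← hv]
  obtain ⟨k1, k2, k3⟩ := h.bounds hbe hbe1 hd0 hd1 hdb hs0 hn0 hde0 hsg0 hn1 hz0 hz1 hn hd hs hv
  have hu0 : 0 < u := by rw [h.hu]; linarith
  have key : 0 < sg ^ 2 * (y * (sm * (v * (z ^ 2 * n * u2 - v * uL / 2))) -
          (v * (v * A2 + z ^ 2 * n * u2 * B) + z ^ 2 * n * u2 * (z ^ 2 * n * u2) * Cc / 4)) +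
        u ^ 5 * (z ^ 3 * n) * (1 / 4 + (d + 2 * be * (b - a)) * (2 * d - be) / 12 +
          y * (z ^ 2 * n * (9 / 16 * v - m / 4))) := by
    rcases le_total sg (1 / 4) with h4 | h4
    · exact h.deep hbe hbe1 hd1 hn0 hs1 hsg0 h4 hd0 ht hz hn hd hs k1 k2 (k3 y hy) hy
    rcases le_total (-6) (Real.log n) with hl | hl
    · exact h.mid hbe hbe1 hd1 hn0 hs1 hsg1 h4 hn1 hl ht hz hn hd hs hv hy
    · exact h.small hbe hbe1 hd0 hn0 ht0 hsg1 h4 hde0 hl ht hz hn hd hs hv (k3 y hy) hy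
  have e := h.G_eq (y := y) hbe hz0.ne' hn0.ne' hs1.ne hn hd hs hv
  have hp : 0 < z ^ 3 * n * u ^ 5 := by positivity
  exact neg_of_mul_neg_right (e.trans_lt (neg_lt_zero.2 key)) hp.le

end Pool.Agent.Lib.MP_d6150d_an.S1
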