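import Pool.Agent.Lib.MP_d6150d_an.S1H0

/-! The strip `S1`, tail: the algebraic normal form of `G`. -/

namespace Pool.Agent.Lib.MP_d6150d_an.S1

/-- the named intermediate quantities shared by the three charts -/
structure Core (be de n d sg s od b a u u2 al J Qh Q1 Cc os fo R2 p2 R3 W1 A B uL m sm A2 lam il ls
    om xi : ℝ) : Prop where
  hod : od = 1 - d
  hb : b = (1 - 2 * d) / (1 + 2 * be)
  ha : a = od / (2 + 2 * be)
  hu : u = 1 - s
  hu2 : u2 = u * u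
  hal : al = 1 - be
  hJ : J = 2 * be * (b - a * s)
  hQh : Qh = de + sg * J
  hQ1 : Q1 = od - J
  hCc : Cc = Q1 - n
  hos : os = od * s
  hfo : fo = (1 + be) * os
  hR2 : R2 = od - be * d - fo
  hp2 : p2 = sg * R2 - al
  hR3 : R3 = be * (1 - 2 * d) - 2 * fo
  hW1 : W1 = 2 * os - (1 - 2 * d)
  hA : A = (1 - 3 * be) * p2 * (u * Cc) - Qh * (u * R3 + 3 * (W1 * p2))
  hB : B = R2 - Q1 * p2 - al * (n * (2 - s))
  huL : uL = (4 * de - 1 - 3 * be) * u + 2 * s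
  hmu : m = 4 - 7 * be + 5 * be ^ 2
  hsm : sm = sg * m * u
  hA2 : A2 = A + sm * (be * u2) / 2
  hlam : lam = 3 / 4 + 3 * be ^ 3
  hil : il = 1 / lam
  hls : ls = lam * sg
  hom : om = Real.exp ((-(4 * be)) * ((ls - de) / (ls + de)))
  hxi : xi = Qh - om * de * (1 + 2 * be * (b - a * (d * il)) * il)

theorem core_ex (be de n d sg s : ℝ) : ∃ od b a u u2 al J Qh Q1 Cc os fo R2 p2 R3 W1 A B uL m sm A2
    lam il ls om xi : ℝ, Core be de n d sg s od b a u u2 al J Qh Q1 Cc os fo R2 p2 R3 W1 A B uL m sm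
    A2 lam il ls om xi :=
  ⟨_, _, _, _, _, _, _, _, _, _, _, _, _, _, _, _, _, _, _, _, _, _, _, _, _, _, _,
    ⟨rfl, rfl, rfl, rfl, rfl, rfl, rfl, rfl, rfl, rfl, rfl, rfl, rfl, rfl, rfl, rfl, rfl, rfl, rfl,
      rfl, rfl, rfl, rfl, rfl, rfl, rfl, rfl⟩⟩

variable {be de n d sg s od b a u u2 al J Qh Q1 Cc os fo R2 p2 R3 W1 A B uL m sm A2 lam il ls om
  xi : ℝ}

theorem Core.G_eq (h : Core be de n d sg s od b a u u2 al J Qh Q1 Cc os fo R2 p2 R3 W1 A B uL m sm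
    A2 lam il ls om xi) {z v y : ℝ} (hbe : 0 < be) (hz : z ≠ 0) (hn0 : n ≠ 0) (hu0 : s ≠ 1)
    (hn : (1 - d) * s + d = n) (hd : d = de * n) (hs : s = n * sg)
    (hv : v = kap be d - z ^ 2 * q be d s) :
    z ^ 3 * n * u ^ 5 * G be d s z v (z ^ 2 * n * y / (2 * be)) =
      -(sg ^ 2 * (y * (sm * (v * (z ^ 2 * n * u2 - v * uL / 2))) -
          (v * (v * A2 + z ^ 2 * n * u2 * B) + z ^ 2 * n * u2 * (z ^ 2 * n * u2) * Cc / 4)) +
        u ^ 5 * (z ^ 3 * n) * (1 / 4 + (d + 2 * be * (b - a)) * (2 * d - be) / 12 +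
          y * (z ^ 2 * n * (9 / 16 * v - m / 4)))) := by
  have h1 : (1 + 2 * be) ≠ 0 := by positivity
  have h2 : (2 + 2 * be) ≠ 0 := by positivity
  have h1' : (2 * be + 1) ≠ 0 := by positivity
  have h2' : (2 * be + 2) ≠ 0 := by positivity
  have hb0 := hbe.ne'
  have hX : v - kap be d = -(z ^ 2 * n * Qh / (2 * be)) := by
    have : n * Qh = d + s * J := by rw [h.hQh, hd, hs]; ring
    rw [hv, mul_assoc, this, h.hJ, h.hb, h.ha, h.hod, q]
    field_simp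
    ring
  have hk : kap be d = (d + 2 * be * (b - a)) / (2 * be) := by
    rw [kap, q, h.hb, h.ha, h.hod]
    field_simp
    ring
  have hm : mu be = m := by rw [h.hmu, mu]
  have hP1 : (pjR (1 + be) ((1 - d) * s ^ 2) ((1 - 2 * d) * s) (-d)).1 = n * p2 := by
    have : n * p2 = s * R2 - al * n := by rw [h.hp2, hs]; ring
    rw [this, ← hn, h.hR2, h.hfo, h.hos, h.hod, h.hal]
    simp only [pjR]
    ring
  have hP2 : (pjR (1 + be) ((1 - d) * s ^ 2) ((1 - 2 * d) * s) (-d)).2.1 =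
      -(n * (n * (u * (1 - 3 * be) * p2) + s * (u * R3 + 3 * (W1 * p2)))) := by
    have e : (pjR (1 + be) ((1 - d) * s ^ 2) ((1 - 2 * d) * s) (-d)).2.1 =
        -(u * ((1 - d) * s + d)) * ((1 - 3 * be) *
          (pjR (1 + be) ((1 - d) * s ^ 2) ((1 - 2 * d) * s) (-d)).1 + s * R3) -
          3 * (s * W1 * (pjR (1 + be) ((1 - d) * s ^ 2) ((1 - 2 * d) * s) (-d)).1) := by
      rw [h.hR3, h.hW1, h.hfo, h.hos, h.hod, h.hu]
      simp only [pjR]
      ring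
    rw [e, hP1, hn]
    ring
  have hu1 : s - 1 = -u := by rw [h.hu]; ring
  have hu' : u ≠ 0 := by rw [h.hu]; exact sub_ne_zero.2 hu0.symm
  simp only [G]
  rw [hX, hk, hm, hP1, hP2, hn, hu1]
  generalize d + 2 * be * (b - a) = g
  rw [h.hA2, h.hA, h.hB, h.huL, h.hsm, h.hCc, h.hQ1, h.hQh, h.hu2, h.hp2, h.hR2, h.hfo, h.hos,
    h.hal, h.hod]
  have e1 : s = 1 - u := by rw [h.hu]; ring
  have e2 : sg = (1 - u) / n := by rw [eq_div_iff hn0, ← e1, hs]; ring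
  have e3 : d = (n - 1 + u) / u := by rw [eq_div_iff hu', ← hn, e1]; ring
  have e4 : de = (n - 1 + u) / (u * n) := by
    rw [← div_div, ← e3, eq_div_iff hn0, hd]
  rw [e4, e3, e2, e1]
  field_simp
  ring

theorem Core.v_eq (h : Core be de n d sg s od b a u u2 al J Qh Q1 Cc os fo R2 p2 R3 W1 A B uL m sm
    A2 lam il ls om xi) {z v : ℝ} (hbe : 0 < be)
    (hv : v = kap be d - z ^ 2 * q be d s) :
    v = b * (1 - z ^ 2 * s) - a * (1 - s * (z ^ 2 * s)) + d * (1 - z ^ 2) / (2 * be) := by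
  have h1 : (1 + 2 * be) ≠ 0 := by positivity
  have h2 : (2 + 2 * be) ≠ 0 := by positivity
  have h1' : (2 * be + 1) ≠ 0 := by positivity
  have h2' : (2 * be + 2) ≠ 0 := by positivity
  rw [hv, kap, q, q, h.hb, h.ha, h.hod]
  field_simp
  ring

theorem Core.x_top (h : Core be de n d sg s od b a u u2 al J Qh Q1 Cc os fo R2 p2 R3 W1 A B uL m sm
    A2 lam il ls om xi) {z : ℝ} (hbe : 0 < be) (hd : d = de * n) (hs : s = n * sg) :
    z ^ 2 * q be d s = z ^ 2 * n * Qh / (2 * be) := by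
  have h1 : (1 + 2 * be) ≠ 0 := by positivity
  have h2 : (2 + 2 * be) ≠ 0 := by positivity
  have h1' : (2 * be + 1) ≠ 0 := by positivity
  have h2' : (2 * be + 2) ≠ 0 := by positivity
  have : n * Qh = d + s * J := by rw [h.hQh, hd, hs]; ring
  rw [mul_assoc, this, h.hJ, h.hb, h.ha, h.hod, q]
  field_simp
  ring

theorem Core.x_low (h : Core be de n d sg s od b a u u2 al J Qh Q1 Cc os fo R2 p2 R3 W1 A B uL m sm
    A2 lam il ls om xi) {z : ℝ} (hbe : 0 < be) (hn : 0 < n) (hde : 0 < de)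
    (hsg : 0 < sg) (hd : d = de * n) (hs : s = n * sg) :
    xl be d s z = z ^ 2 * n * xi / (2 * be) := by
  have h1 : (1 + 2 * be) ≠ 0 := by positivity
  have h2 : (2 + 2 * be) ≠ 0 := by positivity
  have h1' : (2 * be + 1) ≠ 0 := by positivity
  have h2' : (2 * be + 2) ≠ 0 := by positivity
  have hl : 0 < lam := by rw [h.hlam]; positivity
  have e1 : s1 be d = d * il := by rw [s1, h.hil, h.hlam]; ring
  have e2 : Real.exp (-(2 * be) * (2 * (s - s1 be d) / (s + s1 be d))) = om := by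
    rw [h.hom, e1, h.hil, h.hls, hd, hs]
    congr 1
    field_simp
    ring
  have e3 : q be d (d * il) = n * (de * (1 + 2 * be * (b - a * (d * il)) * il)) / (2 * be) := by
    rw [← mul_assoc, mul_comm n de, ← hd, h.hb, h.ha, h.hod, q]
    field_simp
    ring
  rw [xl, e2, e1, e3, mul_sub, h.x_top hbe hd hs, h.hxi]
  ring

theorem ab_bounds (hbe : 0 < be) (hbe1 : be ≤ 1) (hd0 : 0 < d) (hd1 : d ≤ 3 / 32) (hs0 : 0 < s)
    (hn1 : (1 - d) * s + d ≤ 3 / 16) (hb : b * (1 + 2 * be) = 1 - 2 * d)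
    (ha : a * (2 + 2 * be) = 1 - d) : 1 / 4 ≤ b ∧ 0 < a ∧ a ≤ 1 / 2 ∧ s ≤ 1 / 4 ∧
      0 < b - a - b * s ∧ b - a ≤ 1 / 2 ∧ 2 * be * (b - a) ≤ 1 / 2 := by
  have hb1 : 1 / 4 ≤ b := by nlinarith
  have ha0 : 0 < a := by nlinarith
  have ha1 : a ≤ 1 / 2 := by nlinarith
  have hs1 : s ≤ 1 / 4 := by nlinarith
  have hba : (b - a) * ((1 + 2 * be) * (2 + 2 * be)) = 1 - d * (3 + 2 * be) := by
    linear_combination (2 + 2 * be) * hb - (1 + 2 * be) * ha
  have hpos : 0 < (1 + 2 * be) * (2 + 2 * be) := by positivity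
  have e1 : 0 < b - a - b * s := by
    have : (b - a - b * s) * ((1 + 2 * be) * (2 + 2 * be)) =
        1 - d * (3 + 2 * be) - (1 - 2 * d) * s * (2 + 2 * be) := by
      linear_combination hba - s * (2 + 2 * be) * hb
    have h3 : (1 - 2 * d) * s ≤ 3 / 16 - d := by linarith [mul_pos hd0 hs0]
    have h4 : 0 ≤ (1 - 2 * d) * s := mul_nonneg (by linarith) hs0.le
    have h5 : 0 < (b - a - b * s) * ((1 + 2 * be) * (2 + 2 * be)) := by
      rw [this]
      linarith [mul_nonneg h4 (sub_nonneg.2 hbe1), mul_nonneg hd0.le (sub_nonneg.2 hbe1)]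
    exact (mul_pos_iff_of_pos_right hpos).1 h5
  have hbs : 0 < b * s := mul_pos (by linarith) hs0
  have hba0 : 0 ≤ b - a := by linarith
  have k1 := mul_nonneg hba0 hbe.le
  have k2 := mul_nonneg hba0 (sq_nonneg be)
  have k3 := mul_pos hd0 hbe
  exact ⟨hb1, ha0, ha1, hs1, e1, by linarith, by linarith⟩

theorem sep_bound {c v : ℝ} (hbe : 0 < be) (hbe1 : be ≤ 1) (hd1 : d ≤ 3 / 32)
    (hdb : d ≤ 3 / 2 * be) (hc : c * (2 * be) ≤ d) (hv0 : 0 ≤ v)
    (hv : v ≤ 1 / 2 + c) : 9 / 16 * v - (4 - 7 * be + 5 * be ^ 2) / 4 ≤ 0 ∧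
      -1 ≤ 9 / 16 * v - (4 - 7 * be + 5 * be ^ 2) / 4 := by
  have hc1 : c ≤ 3 / 4 := by nlinarith
  refine ⟨?_, by nlinarith⟩
  rcases le_total be (1 / 8) with h8 | h8
  · nlinarith
  rcases le_total be (1 / 4) with h4 | h4
  · have : c ≤ 3 / 8 := by nlinarith
    nlinarith
  · have : c ≤ 3 / 16 := by nlinarith
    nlinarith [sq_nonneg (be - 7 / 10)]

theorem g2_bound {g N k y : ℝ} (hbe1 : be ≤ 1) (hd0 : 0 < d) (hg0 : 0 ≤ g) (hg : g ≤ 3 / 4)
    (hN0 : 0 ≤ N) (hN1 : N ≤ 3 / 16) (hk0 : k ≤ 0) (hk1 : -1 ≤ k) (hy : y ≤ 1) :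
    0 ≤ 1 / 4 + g * (2 * d - be) / 12 + y * (N * k) := by
  have h3 : N * k ≤ 0 := mul_nonpos_of_nonneg_of_nonpos hN0 hk0
  have h4 : -(3 / 16) ≤ N * k := by nlinarith
  have h6 : -1 * g ≤ g * (2 * d - be) := by nlinarith
  nlinarith

/-- the elementary bounds -/
theorem Core.bounds (h : Core be de n d sg s od b a u u2 al J Qh Q1 Cc os fo R2 p2 R3 W1 A B uL m sm
    A2 lam il ls om xi) {z v : ℝ} (hbe : 0 < be) (hbe1 : be ≤ 1) (hd0 : 0 < d)
    (hd1 : d ≤ 3 / 32) (hdb : d ≤ 3 / 2 * be) (hs0 : 0 < s) (hn0 : 0 < n) (hde : 0 < de)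
    (hsg : 0 < sg) (hn1 : n ≤ 3 / 16) (hz0 : 0 < z) (hz1 : z ≤ 1)
    (hn : (1 - d) * s + d = n) (hd : d = de * n) (hs : s = n * sg)
    (hv : v = kap be d - z ^ 2 * q be d s) :
    0 < b - a - b * s ∧ b - a - b * s ≤ v ∧ ∀ y, y = Qh ∨ y = xi →
      0 ≤ 1 / 4 + (d + 2 * be * (b - a)) * (2 * d - be) / 12 +
        y * (z ^ 2 * n * (9 / 16 * v - m / 4)) := by
  have hv' := h.v_eq hbe hv
  have hb : b * (1 + 2 * be) = 1 - 2 * d := by rw [h.hb]; field_simp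
  have ha : a * (2 + 2 * be) = 1 - d := by rw [h.ha, h.hod]; field_simp
  obtain ⟨hb1, ha0, ha1, hs1, e1, hba1, hba2⟩ := ab_bounds hbe hbe1 hd0 hd1 hs0 (hn ▸ hn1) hb ha
  have hb0 : 0 < b := by linarith
  have hz2 : 0 ≤ 1 - z ^ 2 := sub_nonneg.2 (pow_le_one₀ hz0.le hz1)
  have hc0 : 0 ≤ d * (1 - z ^ 2) / (2 * be) := by positivity
  have e2 : b - a - b * s ≤ v := by
    have h3 : 0 ≤ b * s * (1 - z ^ 2) := by positivity
    have h4 : 0 ≤ a * s * (z ^ 2 * s) := by positivity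
    rw [hv']; linarith
  have hbs : 0 < b * s := by positivity
  have hba0 : 0 ≤ b - a := by linarith
  have hc : d * (1 - z ^ 2) / (2 * be) * (2 * be) ≤ d := by
    rw [div_mul_cancel₀ _ (by positivity)]; linarith [mul_nonneg hd0.le (sq_nonneg z)]
  have has : 0 ≤ b - a * s := by linarith [mul_le_mul ha1 hs1 hs0.le (by norm_num)]
  have e3 : v ≤ 1 / 2 + d * (1 - z ^ 2) / (2 * be) := by
    have h3 : 0 ≤ z ^ 2 * s * (b - a * s) := by positivity
    rw [hv']; linarith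
  obtain ⟨e4, e5⟩ := sep_bound hbe hbe1 hd1 hdb hc (by linarith) e3
  rw [← h.hmu] at e4 e5
  have hQ : Qh ≤ 1 := by
    have h3 : sg * (1 - d) = 1 - de := by
      apply mul_left_cancel₀ hn0.ne'
      linear_combination hn - (1 - d) * hs - hd
    have h4 : J ≤ 1 - d := by rw [h.hJ]; linarith [mul_pos hbe (mul_pos ha0 hs0)]
    rw [h.hQh]; linarith [mul_le_mul_of_nonneg_left h4 hsg.le]
  have hx : xi ≤ Qh := by
    have hl : 3 / 4 ≤ lam := by rw [h.hlam]; linarith [pow_pos hbe 3]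
    have hi0 : 0 < il := by rw [h.hil]; positivity
    have hi1 : il ≤ 4 / 3 := by rw [h.hil, div_le_iff₀ (by linarith)]; linarith
    have h3 : d * il ≤ 1 / 8 := by linarith [mul_le_mul hd1 hi1 hi0.le (by norm_num)]
    have h4 : 0 ≤ b - a * (d * il) := by
      linarith [mul_le_mul ha1 h3 (mul_pos hd0 hi0).le (by norm_num)]
    have h5 : 0 < om := by rw [h.hom]; exact Real.exp_pos _
    have h6 : 0 ≤ om * de * (1 + 2 * be * (b - a * (d * il)) * il) := by positivity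
    rw [h.hxi]; linarith
  refine ⟨e1, e2, fun y hy ↦ g2_bound hbe1 hd0 (by positivity) (by linarith) (by positivity)
    (by linarith [mul_nonneg hz2 hn0.le]) e4 e5 (by rcases hy with rfl | rfl <;> linarith)⟩

end Pool.Agent.Lib.MP_d6150d_an.S1
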