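import Pool.Agent.Lib.MP_d6150d_an.GDef

/-! A generated chart: the program. -/

namespace Pool.Agent.Lib.MP_d6150d_an.S1TD

def prog2 : List Ins := .mul 43 0 :: .sub true 20 0 :: .mul 37 0 :: .mul 58 0 :: .add false 10 0 ::
    .smul 4 92 :: .smul (-1) 0 :: .cst 3 4 :: .mul 47 95 :: .smul 3 0 :: .add false 2 0 :: .mul 0
    108 :: .sub true 0 103 :: .add false 1 104 :: .inv 0 :: .mul 2 0 :: .mul 9 0 :: .exp 0 :: .mul 0
    109 :: .inv 8 :: .mul 110 0 :: .mul 85 0 :: .sub false 90 0 :: .mul 96 0 :: .mul 0 4 :: .add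
    false 123 0 :: .mul 7 0 :: .sub true 82 0 :: .mul 0 25 :: .add false 35 0 :: .cpy 0 :: .cpy 26
    :: []

def prog1 : List Ins := .sub false 0 21 :: .mul 0 26 :: .smul 3 0 :: .add true 4 0 :: .mul 9 0 ::
    .sub false 12 0 :: .cst 1 2 :: .int 4 :: .smul 7 45 :: .sub false 1 0 :: .mul 47 47 :: .smul 5 0
    :: .add true 2 0 :: .mul 60 0 :: .mul 0 57 :: .mul 58 58 :: .mul 53 0 :: .mul 2 0 :: .mul 11 0
    :: .add false 13 0 :: .var 0 :: .smul (-6) 58 :: .exp 0 :: .mul 2 0 :: .mul 0 69 :: .sub false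
    43 39 :: .mul 44 70 :: .sub true 1 0 :: .inv 0 :: .mul 4 0 :: .mul 0 14 :: .mul 41 56 :: .sub
    false 60 0 :: .sub false 50 77 :: .mul 79 0 :: .mul 61 0 :: .sub false 3 0 :: .cst 1 4 :: .mul 7
    47 :: .mul 1 0 :: .add true 3 0 :: .mul 10 0 :: .add false 22 0 :: .smul (-1) 0 :: .smul 4 85 ::
    .sub false 0 93 :: .sub true 0 82 :: .mul 0 90 :: .smul 2 92 :: .add false 1 0 :: prog2

def prog : List Ins := .cst 3 32 :: .int 1 :: .var 2 :: .sub true 1 0 :: .var 1 :: .mul 0 2 :: .sub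
    false 4 0 :: .inv 0 :: .mul 4 0 :: .mul 0 4 :: .sub false 9 0 :: .cpy 0 :: .var 3 :: .smul 3 0
    :: .sub true 12 0 :: .sub false 13 5 :: .mul 3 6 :: .sub false 1 0 :: .add false 16 5 :: .mul 3
    13 :: .mul 1 0 :: .sub true 3 0 :: .mul 19 0 :: .sub true 21 10 :: .sub true 1 0 :: .mul 10 0 ::
    .smul 2 13 :: .smul 2 17 :: .sub true 26 0 :: .add false 27 2 :: .inv 0 :: .mul 2 0 :: .int 2 ::
    .add false 0 6 :: .inv 0 :: .mul 19 0 :: .mul 0 30 :: .sub false 5 0 :: .mul 11 0 :: .sub true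
    23 0 :: .sub true 0 35 :: .mul 34 0 :: .mul 16 0 :: .mul 40 4 :: .add false 35 0 :: .mul 32 16
    :: .smul 2 25 :: .sub true 1 0 :: .mul 41 0 :: .smul 2 29 :: prog1

def vs : List Vr := [⟨1, 0, false, false⟩, ⟨1, 0, false, false⟩, ⟨2, 0, false, false⟩, ⟨3, 0, false,
    false⟩]

def C : Chart := ⟨vs, prog, [12], 2, 3⟩

end Pool.Agent.Lib.MP_d6150d_an.S1TD
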