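import Pool.Agent.Lib.MP_d6150d_an.GDef

/-! A generated chart: the program. -/

namespace Pool.Agent.Lib.MP_d6150d_an.S1TM

def prog3 : List Ins := .cst 3 4 :: .mul 50 137 :: .smul 3 0 :: .add false 2 0 :: .mul 0 154 :: .sub
    true 0 145 :: .add false 1 146 :: .inv 0 :: .mul 2 0 :: .mul 9 0 :: .exp 0 :: .mul 0 151 :: .inv
    8 :: .mul 152 0 :: .mul 121 0 :: .sub false 127 0 :: .mul 151 0 :: .mul 0 4 :: .add false 164 0
    :: .mul 7 0 :: .sub true 84 0 :: .mul 0 26 :: .add true 46 0 :: .mul 153 0 :: .cpy 0 :: .cpy 27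
    :: []

def prog2 : List Ins := .mul 86 86 :: .smul 5 0 :: .add true 2 0 :: .mul 103 0 :: .mul 0 96 :: .mul
    91 84 :: .mul 1 0 :: .mul 47 0 :: .add true 11 0 :: .mul 43 0 :: .mul 80 89 :: .mul 30 35 ::
    .sub false 39 0 :: .sub false 73 106 :: .mul 108 0 :: .mul 40 0 :: .sub true 3 0 :: .mul 6 0 ::
    .add true 8 0 :: .mul 53 0 :: .mul 9 9 :: .mul 0 39 :: .mul 89 0 :: .add false 3 0 :: .mul 72 0
    :: .sub false 74 0 :: .smul 4 116 :: .sub false 0 123 :: .sub true 0 61 :: .mul 0 121 :: .smul 2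
    123 :: .add true 1 0 :: .mul 66 0 :: .mul 73 0 :: .sub true 23 0 :: .mul 69 0 :: .mul 31 0 ::
    .mul 85 0 :: .cst 9 16 :: .mul 0 73 :: .mul 107 37 :: .sub true 1 0 :: .mul 112 0 :: .mul 111 0
    :: .add false 6 0 :: .mul 59 0 :: .add true 20 0 :: .mul 127 0 :: .smul 4 134 :: .smul (-1) 0 ::
    prog3

def prog1 : List Ins := .mul 18 0 :: .mul 51 51 :: .mul 23 45 :: .sub true 49 0 :: .mul 16 0 :: .mul
    48 2 :: .sub false 52 0 :: .mul 14 0 :: .sub false 3 0 :: .cst 1 2 :: .mul 36 33 :: .mul 50 0 ::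
    .add false 58 36 :: .mul 1 0 :: .mul 4 0 :: .sub true 6 0 :: .smul 3 52 :: .sub true 63 0 ::
    .mul 54 57 :: .sub false 30 0 :: .mul 31 63 :: .mul 54 0 :: .sub true 2 0 :: .mul 73 0 :: .sub
    true 70 60 :: .sub true 1 0 :: .mul 8 0 :: .mul 34 70 :: .sub false 40 0 :: .mul 64 0 :: .sub
    true 41 0 :: .sub true 0 75 :: .mul 74 0 :: .mul 6 0 :: .mul 84 4 :: .add false 75 0 :: .mul 72
    50 :: .smul 2 15 :: .sub true 1 0 :: .mul 81 0 :: .smul 2 19 :: .sub true 0 55 :: .mul 0 16 ::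
    .smul 3 0 :: .add true 4 0 :: .mul 9 0 :: .sub false 12 0 :: .int 4 :: .smul 7 84 :: .sub false
    1 0 :: prog2

def prog : List Ins := .cst 3 32 :: .var 1 :: .smul (-1) 0 :: .tri 0 :: .mul 4 1 :: .int 1 :: .var 2
    :: .exp 0 :: .mul 0 6 :: .sub true 3 0 :: .inv 0 :: .mul 6 0 :: .mul 0 4 :: .sub false 14 0 ::
    .cpy 0 :: .var 0 :: .smul 2 0 :: .add false 11 0 :: .add false 12 2 :: .mul 1 0 :: .mul 0 0 ::
    .smul 4 0 :: .mul 12 12 :: .mul 0 0 :: .mul 0 14 :: .sub false 18 25 :: .mul 10 0 :: .tri 0 ::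
    .mul 2 2 :: .mul 0 23 :: .mul 0 4 :: .mul 8 0 :: .cst 1 4 :: .cst 1 12 :: .smul 2 23 :: .sub
    true 31 0 :: .inv 20 :: .mul 1 0 :: .sub true 34 27 :: .int 2 :: .add false 0 25 :: .inv 0 ::
    .mul 3 0 :: .sub true 5 0 :: .mul 29 0 :: .add false 34 0 :: .sub true 11 32 :: .mul 1 0 :: .mul
    14 0 :: .add false 16 0 :: prog1

def vs : List Vr := [⟨3, 0, false, true⟩, ⟨3, 0, false, true⟩, ⟨3, 0, false, false⟩]

def C : Chart := ⟨vs, prog, [15], 2, 3⟩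

end Pool.Agent.Lib.MP_d6150d_an.S1TM
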