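import Pool.Agent.Lib.MP_d6150d_an.GDef

/-! A generated chart: the program. -/

namespace Pool.Agent.Lib.MP_d6150d_an.S1TS

def prog3 : List Ins := .mul 0 135 :: .sub true 0 141 :: .add false 1 142 :: .inv 0 :: .mul 2 0 ::
    .mul 9 0 :: .exp 0 :: .mul 0 147 :: .inv 8 :: .mul 147 0 :: .mul 115 0 :: .sub false 120 0 ::
    .mul 159 0 :: .mul 0 4 :: .add false 163 0 :: .mul 7 0 :: .sub true 82 0 :: .mul 0 26 :: .add
    true 45 0 :: .mul 161 0 :: .cpy 0 :: .cpy 27 :: []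

def prog2 : List Ins := .add true 2 0 :: .mul 86 0 :: .mul 0 85 :: .mul 101 85 :: .mul 1 0 :: .mul
    43 0 :: .add true 11 0 :: .mul 42 0 :: .mul 54 90 :: .mul 30 35 :: .sub false 38 0 :: .sub false
    69 95 :: .mul 103 0 :: .mul 81 0 :: .sub true 3 0 :: .mul 6 0 :: .add true 8 0 :: .mul 52 0 ::
    .mul 9 9 :: .mul 0 39 :: .mul 84 0 :: .add false 3 0 :: .sub false 69 0 :: .smul 4 113 :: .sub
    false 0 123 :: .sub true 0 59 :: .mul 0 109 :: .smul 2 111 :: .add false 1 0 :: .mul 64 0 ::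
    .mul 68 0 :: .sub false 22 0 :: .mul 67 0 :: .mul 30 0 :: .cst 9 16 :: .mul 0 70 :: .mul 100 35
    :: .sub true 1 0 :: .mul 84 0 :: .mul 104 0 :: .add false 6 0 :: .mul 57 0 :: .add true 19 0 ::
    .mul 135 0 :: .smul 4 142 :: .smul (-1) 0 :: .cst 3 4 :: .mul 48 145 :: .smul 3 0 :: .add false
    2 0 :: prog3

def prog1 : List Ins := .mul 13 0 :: .add false 15 0 :: .mul 17 0 :: .sub true 44 24 :: .mul 39 0 ::
    .sub false 54 0 :: .mul 15 0 :: .mul 41 2 :: .sub false 57 0 :: .mul 14 0 :: .sub false 3 0 ::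
    .cst 1 2 :: .mul 52 34 :: .mul 1 0 :: .add true 3 0 :: .smul 3 63 :: .sub true 65 0 :: .mul 65
    55 :: .sub false 55 0 :: .mul 56 53 :: .mul 65 0 :: .sub false 2 0 :: .mul 57 0 :: .sub true 0
    41 :: .mul 7 0 :: .mul 30 59 :: .sub false 35 0 :: .mul 74 0 :: .sub true 65 0 :: .sub false 0
    70 :: .mul 63 0 :: .mul 6 0 :: .mul 67 4 :: .add false 73 0 :: .mul 82 45 :: .smul 2 14 :: .sub
    true 1 0 :: .mul 70 0 :: .smul 2 18 :: .sub false 0 50 :: .mul 0 16 :: .smul 3 0 :: .add true 4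
    0 :: .mul 9 0 :: .sub false 12 0 :: .int 4 :: .smul 7 94 :: .sub false 1 0 :: .mul 96 96 ::
    .smul 5 0 :: prog2

def prog : List Ins := .int 1 :: .var 2 :: .smul 2 0 :: .add false 2 0 :: .add false 3 2 :: .mul 1 0
    :: .mul 0 0 :: .smul 4 0 :: .var 1 :: .var 3 :: .sub true 9 0 :: .mul 1 2 :: .sub false 11 0 ::
    .inv 0 :: .mul 3 0 :: .mul 6 0 :: .sub false 15 0 :: .mul 0 0 :: .mul 0 0 :: .mul 0 2 :: .cst 3
    2 :: .cst 5 64 :: .var 0 :: .mul 1 0 :: .smul 16 22 :: .add false 24 0 :: .inv 0 :: .mul 3 0 ::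
    .mul 26 0 :: .mul 8 0 :: .sub true 21 0 :: .sub true 30 29 :: .mul 0 0 :: .mul 2 0 :: .mul 14 0
    :: .cst 1 4 :: .cst 1 12 :: .smul 2 25 :: .sub false 37 0 :: .inv 35 :: .mul 1 0 :: .int 2 ::
    .add false 0 39 :: .inv 0 :: .mul 31 0 :: .sub true 4 0 :: .mul 43 0 :: .add false 35 0 :: .sub
    true 10 46 :: .mul 1 0 :: prog1

def vs : List Vr := [⟨1, 0, false, false⟩, ⟨1, 0, false, false⟩, ⟨3, 0, false, true⟩, ⟨3, 0, false,
    true⟩]

def C : Chart := ⟨vs, prog, [], 2, 3⟩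

end Pool.Agent.Lib.MP_d6150d_an.S1TS
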