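import Pool.Agent.Lib.MP_d6150d_an.S2rD

/-! A generated chart: the computations. -/

namespace Pool.Agent.Lib.MP_d6150d_an.S2r

theorem k0 : chk C 0x881828821881888222288188221 [(-140737488355328, -131941395333120),
    (35184372088832, 131941395333120), (52776558133248, 422212465065984)] = true := by
  decide +kernel

end Pool.Agent.Lib.MP_d6150d_an.S2r
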