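import Pool.Agent.Lib.MP_d6150d_an.GMac
import Pool.Agent.Lib.MP_d6150d_an.S2rK0

/-! A generated chart: the inequality. -/

namespace Pool.Agent.Lib.MP_d6150d_an.S2r

set_option linter.unnecessarySeqFocus false
set_option linter.unusedTactic false
set_option linter.unusedVariables false

theorem gd : Gd C [(-140737488355328, -131941395333120), (35184372088832, 131941395333120),
    (52776558133248, 422212465065984)] := chk_sound k0

set_option maxRecDepth 100000 in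
theorem eq {D F t r y mu v g f p : ℝ} (hr : r = Real.exp (-t)) (hy : y = Real.exp (F * t)) (hmu : mu
    = muR D F t) (hv : v = t ^ 2 * mu) (hg : g = 1 + D - (1 + 2 * D) * r + D * r ^ 2) (hf : f = (1 +
    D) * F - (1 + 2 * D) * (F - 1) * r + D * (F - 2) * r ^ 2) (hp : p = y * g) : outR prog 0 [D, F,
    t] = (p ^ 2 - v * f) * (3 + v) - 2 * p ^ 3 := by
  replace hr : r = (Real.exp ((Int.cast (-1) : ℝ) * t)) := hr.trans (congrArg Real.exp (by push_cast
    <;> ring))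
  replace hy : y = (Real.exp (F * t)) := hy.trans (congrArg Real.exp (by push_cast <;> ring))
  replace hmu : mu = (mMu D F t) := hmu.trans (mMu_0 ..)
  replace hv : v = ((t * t) * mu) := hv.trans (by push_cast <;> ring)
  replace hg : g = ((((Int.cast (1) : ℝ) + D) - (((Int.cast (1) : ℝ) + ((Int.cast (2) : ℝ) * D)) *
    r)) + (D * (r * r))) := hg.trans (by push_cast <;> ring)
  replace hf : f = (((((Int.cast (1) : ℝ) + D) * F) - ((((Int.cast (1) : ℝ) + ((Int.cast (2) : ℝ) *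
    D)) * (F - (Int.cast (1) : ℝ))) * r)) + ((D * (F - (Int.cast (2) : ℝ))) * (r * r))) := hf.trans
    (by push_cast <;> ring)
  replace hp : p = (y * g) := hp.trans (by push_cast <;> ring)
  have e0 : ((((p * p) - (v * f)) * ((Int.cast (3) : ℝ) + v)) - ((Int.cast (2) : ℝ) * ((p * p) *
    p))) = (p ^ 2 - v * f) * (3 + v) - 2 * p ^ 3 := by push_cast <;> ring
  subst hr hy hmu hv hg hf hp
  exact Eq.trans rfl e0

theorem l0 : ((-140737488355328 : ℤ) : ℝ) / 2 ^ 47 = -1 := by norm_num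
theorem u0 : (-15 / 16 : ℝ) = ((-131941395333120 : ℤ) : ℝ) / 2 ^ 47 := by norm_num
theorem l1 : ((35184372088832 : ℤ) : ℝ) / 2 ^ 47 = 1 / 4 := by norm_num
theorem u1 : (15 / 16 : ℝ) = ((131941395333120 : ℤ) : ℝ) / 2 ^ 47 := by norm_num
theorem l2 : ((52776558133248 : ℤ) : ℝ) / 2 ^ 47 = 3 / 8 := by norm_num
theorem u2 : (3 : ℝ) = ((422212465065984 : ℤ) : ℝ) / 2 ^ 47 := by norm_num

theorem out0 {D F t : ℝ} (a0 : -1 ≤ D) (b0 : D ≤ -15 / 16) (a1 : 1 / 4 ≤ F) (b1 : F ≤ 15 / 16) (a2 :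
    3 / 8 ≤ t) (b2 : t ≤ 3) : 0 < outR prog 0 [D, F, t] :=
  gd 0 (by decide) [D, F, t] (.cons ⟨l0.le.trans a0, b0.trans u0.le⟩ (.cons ⟨l1.le.trans a1,
    b1.trans u1.le⟩ (.cons ⟨l2.le.trans a2, b2.trans u2.le⟩ (.nil)))) ⟨nofun, nofun, nofun, trivial⟩
    (List.forall_mem_nil _) (Van.of0 rfl) (nofun)

theorem pos0 {D F t r y mu v g f p : ℝ} (hr : r = Real.exp (-t)) (hy : y = Real.exp (F * t)) (hmu :
    mu = muR D F t) (hv : v = t ^ 2 * mu) (hg : g = 1 + D - (1 + 2 * D) * r + D * r ^ 2) (hf : f =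
    (1 + D) * F - (1 + 2 * D) * (F - 1) * r + D * (F - 2) * r ^ 2) (hp : p = y * g) (a0 : -1 ≤ D)
    (b0 : D ≤ -15 / 16) (a1 : 1 / 4 ≤ F) (b1 : F ≤ 15 / 16) (a2 : 3 / 8 ≤ t) (b2 : t ≤ 3) : 0 < (p ^
    2 - v * f) * (3 + v) - 2 * p ^ 3 :=
  have e := eq hr hy hmu hv hg hf hp
  (out0 a0 b0 a1 b1 a2 b2).trans_eq e

end Pool.Agent.Lib.MP_d6150d_an.S2r
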