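import Pool.Agent.Lib.MP_d6150d_an.S2c
import Pool.Agent.Lib.MP_d6150d_an.S2r
import Pool.Agent.Lib.MP_d6150d_an.Blue

/-! The strip `-1 < D ≤ -15 / 16`: the period is increasing. -/

namespace Pool.Agent.Lib.MP_d6150d_an.S2

open Real Set Filter Topology

variable {D F R t : ℝ}

theorem B_ge {ξ p q f : ℝ} (F0 : 0 ≤ F) (p0 : 0 < p) (h : p * f ≤ q * (1 + (1 - F) * p)) :
    q ^ 3 * (1 + 4 * F * ξ * p - 4 * F * ξ ^ 2 * p * (1 + (1 - F) * p)) ≤
      q ^ 3 + 2 * F * (2 * ξ * p * q) * q ^ 2 - F * (2 * ξ * p * q) ^ 2 * f := by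
  have := mul_le_mul_of_nonneg_left h (show 0 ≤ 4 * F * ξ ^ 2 * p * q ^ 2 by positivity)
  linarith

theorem leftQ0 (d0 : -1 < D) (d1 : D ≤ -15 / 16) (F0 : 0 ≤ F) (t0 : t < 0)
    (h : F ≤ 1 / 2 ∨ (F ≤ 15 / 16 ∧ -11 / 16 ≤ t)) : 0 ≤ gR D F t * (F * phi4 D F t - 1) := by
  obtain ⟨ξ, p, ξ0, p0, p1, ew, -, hf, -, k⟩ := left_xi (F := F) d0 d1 t0
  have ξ1 := k h
  have q3 := pow_pos (qL_pos (mem d0 d1 t) t0) 3
  have e := (forms (F := F) (mem d0 d1 t) t0).2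
  have b := B_ge (ξ := ξ) F0 p0 hf
  rw [← ew] at b
  have b1 : 0 ≤ 1 + 4 * F * ξ * p - 4 * F * ξ ^ 2 * p * (1 + (1 - F) * p) := by
    have a1 : 0 ≤ F * ξ * p * (1 - ξ) := mul_nonneg (by positivity) (by linarith)
    have a2 : (ξ * p) ^ 2 ≤ 1 := pow_le_one₀ (by positivity) (by nlinarith)
    nlinarith [mul_nonneg (sq_nonneg (2 * F - 1)) (sq_nonneg (ξ * p))]
  have b2 : 0 ≤ 1 - F * phi4 D F t := nonneg_of_mul_nonneg_left
    (e ▸ mul_nonneg (exp_pos _).le ((mul_nonneg q3.le b1).trans b)) q3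
  exact mul_nonneg_of_nonpos_of_nonpos (gR_neg (mem d0 d1 t) t0).le (by linarith)

theorem tail_b {K ξ p : ℝ} (F0 : 1 / 2 ≤ F) (F1 : F ≤ 15 / 16) (hK : K = 2 - 2 * F) (ξ1 : K * ξ ≤ 1)
    (a0 : 0 ≤ K * ξ * p) (a1 : K * ξ * p ≤ 1) : -(4 * (2 * F - 1)) ≤
      K ^ 2 * (1 + 4 * F * ξ * p - 4 * F * ξ ^ 2 * p * (1 + (1 - F) * p)) := by
  have a2 : K * ξ * p * (K * ξ - K) ≤ 1 - K :=
    (mul_le_mul_of_nonneg_left (show K * ξ - K ≤ 1 - K by linarith) a0).trans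
      (mul_le_of_le_one_left (by linarith) a1)
  have a3 : (K * ξ * p) ^ 2 ≤ 1 := pow_le_one₀ a0 a1
  have a4 := mul_le_mul_of_nonneg_left a2 (show 0 ≤ 4 * F by linarith)
  have a5 := mul_le_mul_of_nonneg_left a3 (show 0 ≤ 4 * F * (1 - F) by nlinarith)
  have a6 : 4 * F * (1 - K) + 4 * F * (1 - F) - K ^ 2 = 4 * (2 * F - 1) := by rw [hK]; ring
  linarith

theorem leftQ (d0 : -1 < D) (d1 : D ≤ -15 / 16) (F0 : 1 / 2 ≤ F) (F1 : F ≤ 15 / 16) (t0 : t < 0) :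
    -(4 * (2 / 5)) ≤ gR D F t * (F * phi4 D F t - 1) := by
  rcases le_total (-11 / 16) t with k | k
  · exact le_trans (by norm_num) (leftQ0 d0 d1 (by linarith) t0 (Or.inr ⟨F1, k⟩))
  obtain ⟨ξ, p, ξ0, p0, p1, ew, q1, hf, k1, -⟩ := left_xi (F := F) d0 d1 t0
  have ξ1 := k1 (by linarith) (by linarith)
  have q0 := qL_pos (mem d0 d1 t) t0
  have q3 := pow_pos q0 3
  have e := (forms (F := F) (mem d0 d1 t) t0).2
  have b := B_ge (ξ := ξ) (by linarith : 0 ≤ F) p0 hf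
  rw [← ew] at b
  have g0 := neg_pos.2 (gR_neg (F := F) (mem d0 d1 t) t0)
  have y0 := exp_pos (F * t)
  have e0 := exp_pos ((2 * F - 1) * t)
  have w0 : 0 ≤ wL D F t := by rw [ew]; positivity
  have gy : (-gR D F t * exp (F * t)) ^ 2 = exp ((2 * F - 1) * t) ^ 2 * wL D F t := by
    have : exp (F * t) ^ 2 = exp ((2 * F - 1) * t) ^ 2 * exp ((2 - 2 * F) * t) := by
      rw [sq, sq, ← exp_add, ← exp_add, ← exp_add]; ring_nf
    rw [mul_pow, neg_sq, gR_sq (mem d0 d1 t), this, wL]; ring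
  have gp := mul_pos g0 y0
  obtain ⟨B, hB⟩ : ∃ B, B = qL D t ^ 3 + 2 * F * wL D F t * qL D t ^ 2 -
    F * wL D F t ^ 2 * fL D F t := ⟨_, rfl⟩
  have e2 : gR D F t * (F * phi4 D F t - 1) * qL D t ^ 3 = -gR D F t * exp (F * t) * B := by
    rw [hB]; linear_combination -gR D F t * e
  refine le_of_mul_le_mul_right ?_ q3
  rw [e2]
  generalize -gR D F t * exp (F * t) = G at gy gp
  rcases le_total 0 B with B0 | B0
  · linarith [mul_nonneg gp.le B0]
  rcases le_total (-8) t with k2 | k2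
  · have c := S2m.pos0 (D := D) (F := F) (t := t) (w := wL D F t) (q := qL D t) (f := fL D F t)
      rfl rfl rfl rfl rfl rfl rfl d0.le d1 F0 F1 k2 k
    rw [← hB] at c
    have h1 : G ≤ exp ((2 * F - 1) * t) * (wL D F t + 4) / 4 := by
      refine le_of_pow_le_pow_left₀ two_ne_zero (by positivity) ?_
      rw [gy]
      nlinarith [mul_nonneg (sq_nonneg (exp ((2 * F - 1) * t))) (sq_nonneg (wL D F t - 4))]
    linarith [mul_le_mul_of_nonpos_right h1 B0]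
  · have c := S2t.pos0 (F := F) rfl F0 F1
    have h1 : exp ((2 * F - 1) * t) ≤ exp ((2 * F - 1) * (-8)) :=
      exp_le_exp.2 (mul_le_mul_of_nonneg_left k2 (by linarith))
    have h2 := pow_le_pow_left₀ e0.le h1 2
    generalize exp ((2 * F - 1) * t) = E at *
    generalize exp ((2 * F - 1) * (-8)) = E' at *
    obtain ⟨K, hK⟩ : ∃ K, K = 2 - 2 * F := ⟨_, rfl⟩
    have K0 : 0 < K := by linarith
    rw [← hK] at c ξ1
    have a0 : 0 ≤ K * ξ * p := by positivity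
    have a1 : K * ξ * p ≤ 1 := by nlinarith [mul_nonneg K0.le ξ0]
    have h3 : K * wL D F t ≤ 2 := by rw [ew]; nlinarith
    have h4 : G * (4 * (2 * F - 1)) ≤ 8 / 5 * K ^ 2 := by
      refine le_of_pow_le_pow_left₀ two_ne_zero (by positivity) (le_of_mul_le_mul_left ?_ K0)
      rw [mul_pow, gy]
      have a := mul_le_mul h2 h3 (by positivity) (by positivity)
      nlinarith [mul_le_mul_of_nonneg_left a (sq_nonneg (2 * F - 1))]
    have h5 := tail_b F0 F1 hK ξ1 a0 a1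
    rw [← hB] at b
    refine le_of_mul_le_mul_left ?_ (pow_pos K0 2)
    have a7 := mul_le_mul_of_nonneg_left b (mul_pos gp (pow_pos K0 2)).le
    have a8 := mul_le_mul_of_nonneg_left h5 (mul_pos gp q3).le
    have a9 := mul_le_mul_of_nonneg_left h4 q3.le
    linarith

theorem left_sep (d0 : -1 < D) (d1 : D ≤ -15 / 16) (F0 : 1 / 4 ≤ F) (F1 : F ≤ 15 / 16)
    (t1 : t ≤ -9 / 32) : Dg D F (Dg D F (uR F)) t * (3 + vR D F t) < 2 := by
  have t0 : t < 0 := by linarith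
  have q0 := qL_pos (mem d0 d1 t) t0
  have q3 := pow_pos q0 3
  have e := (forms (F := F) (mem d0 d1 t) t0).1
  generalize Dg D F (Dg D F (uR F)) t = ψ at *
  have ev : vR D F t * exp ((2 - 2 * F) * t) = wL D F t := rfl
  rcases le_total (-6) t with k | k
  · have c := S2l.pos0 (D := D) (F := F) (t := t) (w := wL D F t) (q := qL D t) (f := fL D F t)
      rfl rfl rfl rfl rfl rfl rfl d0.le d1 F0 F1 k t1
    refine lt_of_mul_lt_mul_right ?_ q3.le
    linear_combination c + (3 + vR D F t) * e +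
      exp (F * t) * (wL D F t * fL D F t - qL D t ^ 2) * ev
  obtain ⟨ξ, p, ξ0, p0, p1, ew, q1, hf, k1, -⟩ := left_xi (F := F) d0 d1 t0
  have ξ1 := k1 F0 (by linarith)
  have c2 := S2p.pos2 (D := D) (F := F) rfl rfl rfl rfl rfl rfl rfl rfl rfl rfl rfl d0.le d1 F0 F1
  have c3 := S2p.pos3 (D := D) (F := F) rfl rfl rfl rfl rfl rfl rfl rfl rfl rfl rfl d0.le d1 F0 F1
  have v9 : 9 ≤ vR D F t := by
    have : vR D F (-6) ≤ vR D F t := by
      rcases k.eq_or_lt with l | l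
      exacts [l ▸ le_rfl, (vR_anti (mem d0 d1 t) (by norm_num) l).le]
    rw [vR] at this; linarith
  have y1 : exp (F * t) ≤ exp (F * (-6)) := exp_le_exp.2 (mul_le_mul_of_nonneg_left k (by linarith))
  have y0 := exp_pos (F * t)
  have e2 : ψ * vR D F t * qL D t ^ 3 =
      exp (F * t) * (2 * ξ * p) * qL D t ^ 2 * (2 * ξ * (p * fL D F t) - qL D t) := by
    rw [ew] at e ev
    linear_combination vR D F t * e + exp (F * t) * (2 * ξ * p * qL D t * fL D F t - qL D t ^ 2) * ev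
  have h1 : (1 - F) * (2 * ξ * (p * fL D F t) - qL D t) ≤ qL D t := by
    have a := mul_le_mul_of_nonneg_left hf (show 0 ≤ (2 - 2 * F) * ξ from mul_nonneg (by linarith) ξ0)
    have b : (2 - 2 * F) * ξ * (1 + (1 - F) * p) ≤ 1 * (2 - F) :=
      mul_le_mul ξ1 (by nlinarith) (by nlinarith) one_pos.le
    nlinarith
  have h2 : (1 - F) ^ 2 * (ψ * vR D F t) ≤ exp (F * t) := by
    refine le_of_mul_le_mul_right ?_ q3
    have a0 : 0 ≤ (1 - F) * (2 * ξ * p) := mul_nonneg (by linarith) (by positivity)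
    have a1 : (1 - F) * (2 * ξ * p) ≤ 1 := by nlinarith [mul_nonneg (show 0 ≤ 1 - F by linarith) ξ0]
    have a2 := mul_le_mul_of_nonneg_left h1 (mul_nonneg (mul_pos y0 (pow_pos q0 2)).le a0)
    have a3 := mul_le_mul_of_nonneg_left a1 (mul_pos y0 q3).le
    rw [mul_assoc, e2]
    linarith
  have h3 : ψ * vR D F t < 3 / 2 :=
    lt_of_mul_lt_mul_left (a := (1 - F) ^ 2) (by linarith) (sq_nonneg _)
  rcases le_total ψ 0 with l | l
  · linarith
  · linarith [mul_le_mul_of_nonneg_left v9 l]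

theorem right_sep (d0 : -1 < D) (d1 : D ≤ -15 / 16) (F0 : 1 / 4 ≤ F) (F1 : F ≤ 15 / 16)
    (t0 : 3 / 8 ≤ t) (t1 : t ≤ 3) : 2 < Dg D F (Dg D F (uR F)) t * (3 + vR D F t) := by
  have c := S2r.pos0 (D := D) (F := F) (t := t) (v := vR D F t) (f := sv2 D F (exp (-t)))
    (p := sφ D F t) rfl rfl rfl rfl rfl rfl rfl d0.le d1 F0 F1 t0 t1
  have p0 := sφ_pos (F := F) (mem d0 d1 t) (by linarith)
  refine lt_of_mul_lt_mul_right ?_ (pow_pos p0 3).le
  have e : Dg D F (Dg D F (uR F)) t * sφ D F t ^ 3 =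
      sφ D F t ^ 2 - vR D F t * sv2 D F (exp (-t)) := by
    rw [psi_eq (mem d0 d1 t) (by linarith)]; field_simp
  linear_combination c - (3 + vR D F t) * e

theorem lt_of_v {a b : ℝ} (ha : a ∈ JR D) (b0 : 0 ≤ b) (h : vR D F a < vR D F b) : a < b := by
  by_contra l
  rcases (not_lt.1 l).eq_or_lt with l | l
  · rw [l] at h; exact h.false
  · exact (vR_mono ha b0 l).not_gt h

theorem near (d0 : -1 < D) (d1 : D ≤ -15 / 16) (F0 : 1 / 4 ≤ F) (F1 : F ≤ 15 / 16)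
    (H : Rng D F R) {r : ℝ} (hr : r ∈ Ioo 0 R) (h : XR D F r ≤ 3) :
    0 < Jf D F (phi4 D F) r := by
  obtain ⟨-, -, -, m4, -, -, -, m6⟩ := H.pair hr.1 hr.2
  refine pair_pos H hr fun a ha b hb a0 b0 e k ↦ ?_
  have b3 := (lt_of_v hb m4.le (m6 ▸ k)).le.trans h
  rcases le_total b (3 / 8) with l | l
  · exact psi_lt d0 d1 (by linarith) F1 a0 b0 (Or.inr l)
  have c := S2p.pos0 (D := D) (F := F) rfl rfl rfl rfl rfl rfl rfl rfl rfl rfl rfl d0.le d1 F0 F1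
  have a1 : a ≤ -9 / 32 := by
    by_contra n
    have n1 := vR_anti (F := F) (mem d0 d1 _) a0.le (not_le.1 n)
    have n2 : vR D F (3 / 8) ≤ vR D F b := by
      rcases l.eq_or_lt with l | l
      exacts [l ▸ le_rfl, (vR_mono hb (by norm_num) l).le]
    rw [vR, vR] at n1; rw [vR] at n2 e
    linarith
  have h1 := left_sep d0 d1 F0 F1 a1
  have h2 := right_sep d0 d1 F0 F1 l b3
  rw [e] at h1
  exact lt_of_mul_lt_mul_right (h1.trans h2) (by linarith [vR_pos (F := F) hb b0.ne'])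

theorem exp3 (h : 3 ≤ t) : exp (-t) ≤ 1 / 20 := by
  have h1 : (20 : ℝ) ≤ exp 1 ^ 3 :=
    le_trans (by norm_num) (pow_le_pow_left₀ (by norm_num) exp_one_gt_d9.le 3)
  rw [← exp_nat_mul] at h1
  rw [exp_neg, one_div]
  exact inv_anti₀ (by norm_num) (h1.trans (exp_le_exp.2 (by simpa using h)))

theorem omega (d1 : D ≤ -15 / 16) (h : 3 ≤ t) :
    25 / 32 * exp (-t) ≤ F * sv1 D (exp (-t)) - sv2 D F (exp (-t)) := by
  have h1 := exp3 h
  have h0 := exp_pos (-t)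
  generalize exp (-t) = ρ at *
  have : F * sv1 D ρ - sv2 D F ρ = ρ * (-(1 + 2 * D) + 2 * D * ρ) := by simp only [sv1, sv2]; ring
  rw [this, mul_comm]
  exact mul_le_mul_of_nonneg_left (by nlinarith [mul_le_mul_of_nonneg_left h1 (show 0 ≤ -D by linarith)]) h0.le

theorem G_ge (d0 : -1 < D) (d1 : D ≤ -15 / 16) (F0 : 1 / 4 ≤ F) (F1 : F ≤ 15 / 16) (h : 3 ≤ t) :
    24 / 5 * (F - 1 / 4) < 2 * F * vR D F t - 2 * exp (F * t) * sφ D F t := by
  have c := S2p.pos1 (D := D) (F := F) rfl rfl rfl rfl rfl rfl rfl rfl rfl rfl rfl d0.le d1 F0 F1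
  have d : ∀ s, HasDerivAt (fun s ↦ 2 * F * vR D F s - 2 * exp (F * s) * sφ D F s)
      (2 * exp (F * s) ^ 2 * (F * sv1 D (exp (-s)) - sv2 D F (exp (-s)))) s := fun s ↦
    (((hasDerivAt_vR D F s).const_mul _).sub (((dey s).const_mul 2).mul (dφ s))).congr_deriv (by
      rw [WR_eq, sφ]; ring)
  have := monotoneOn_of_deriv_nonneg (convex_Ici 3)
    (fun s _ ↦ (d s).continuousAt.continuousWithinAt)
    (fun s _ ↦ (d s).differentiableAt.differentiableWithinAt) (fun s hs ↦ by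
      rw [(d s).deriv]
      exact mul_nonneg (by positivity)
        (le_trans (by positivity) (omega d1 (interior_subset hs)))) self_mem_Ici h h
  simp only [← WR_eq] at this ⊢
  rw [vR, WR, om] at this
  linarith

theorem est {C h y g ρ ω r G : ℝ} (F0 : 1 / 4 ≤ F) (F1 : F ≤ 15 / 16)
    (hC : C = 0 ∨ (C = 2 / 5 ∧ 1 / 2 ≤ F ∧ 1 ≤ y ^ 2 * ρ)) (hr : r ^ 2 = h) (r0 : 0 < r) (y0 : 0 < y)
    (g0 : 0 < g) (g1 : g ≤ 17 / 160) (ρ0 : 0 < ρ) (hω : 25 / 32 * ρ ≤ ω)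
    (eG : G = 2 * F * h - 2 * y * (y * g)) (hG : 24 / 5 * (F - 1 / 4) < G) :
    π * C < G / (4 * (y * g)) * r ∧ π * C < h * y * ω / (2 * (y * g) ^ 2) * r := by
  have G0 : 0 < G := by linarith
  have ω0 : 0 < ω := by linarith
  have h0 : 0 < h := by rw [← hr]; positivity
  rcases hC with rfl | ⟨rfl, F2, y1⟩
  · rw [mul_zero]; constructor <;> positivity
  have p2 : (π * (2 / 5)) ^ 2 ≤ 8 / 5 := by nlinarith [pi_lt_d2, pi_pos]
  have h1 : y ^ 2 * g ≤ F * h := by linarith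
  constructor
  · refine lt_of_pow_lt_pow_left₀ 2 (by positivity) (p2.trans_lt ?_)
    rw [mul_pow, div_pow, hr, div_mul_eq_mul_div, lt_div_iff₀ (by positivity)]
    have a1 : 128 / 5 * (17 / 160) * F < G ^ 2 := by nlinarith
    have a2 := mul_le_mul_of_nonneg_left (mul_le_mul h1 g1 g0.le (by nlinarith))
      (show (0 : ℝ) ≤ 128 / 5 by norm_num)
    nlinarith [mul_lt_mul_of_pos_right a1 h0]
  · refine lt_of_pow_lt_pow_left₀ 2 (by positivity) (p2.trans_lt ?_)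
    rw [mul_pow, div_pow, hr, div_mul_eq_mul_div, lt_div_iff₀ (by positivity)]
    have a0 : 25 / 32 ≤ y ^ 2 * ω := by nlinarith [mul_le_mul_of_nonneg_left hω (sq_nonneg y)]
    have a1 : y ^ 2 * g ≤ 15 / 16 * h := by nlinarith
    have a2 := pow_le_pow_left₀ (by positivity) a1 3
    have a3 := pow_le_pow_left₀ (by positivity) a0 2
    refine lt_of_mul_lt_mul_left ?_ (sq_nonneg y)
    have a4 := mul_le_mul a2 g1 g0.le (by positivity)
    have a5 := mul_le_mul_of_nonneg_left a3 (pow_pos h0 3).le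
    nlinarith [pow_pos h0 3]

theorem farr (d0 : -1 < D) (d1 : D ≤ -15 / 16) (F0 : 1 / 4 ≤ F) (F1 : F ≤ 15 / 16)
    (H : Rng D F R) {r : ℝ} (hr : r ∈ Ioo 0 R) (h : 3 ≤ XR D F r) :
    0 < Jf D F (phi4 D F) r := by
  obtain ⟨-, m2, -, m4, -, -, -, m6⟩ := H.pair hr.1 hr.2
  generalize XR D F r = b at *
  have ρ0 := exp_pos (-b)
  have ρ1 := exp3 h
  have y0 := exp_pos (F * b)
  have p0 := sφ_pos (F := F) m2 m4
  have g0 : 0 < sv1 D (exp (-b)) := pos_of_mul_pos_right p0 y0.le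
  have g1 : sv1 D (exp (-b)) ≤ 17 / 160 := by
    rw [sv1]; nlinarith [mul_pos (show 0 < -D by linarith) (pow_pos ρ0 2)]
  obtain ⟨C, C0, hC, hL⟩ : ∃ C, 0 ≤ C ∧
      (C = 0 ∨ (C = 2 / 5 ∧ 1 / 2 ≤ F ∧ 1 ≤ exp (F * b) ^ 2 * exp (-b))) ∧
      ∀ t ∈ JR D, t < 0 → -(4 * C) ≤ gR D F t * (F * phi4 D F t - 1) := by
    rcases le_total F (1 / 2) with k | k
    · exact ⟨0, le_rfl, Or.inl rfl, fun t _ t0 ↦
        le_trans (by norm_num) (leftQ0 d0 d1 (by linarith) t0 (Or.inl k))⟩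
    · refine ⟨2 / 5, by norm_num, Or.inr ⟨rfl, k, ?_⟩, fun t _ t0 ↦ leftQ d0 d1 k F1 t0⟩
      rw [sq, ← exp_add, ← exp_add]
      exact one_le_exp (by nlinarith)
  obtain ⟨E1, E2⟩ := est F0 F1 hC m6.symm hr.1 y0 g0 g1 ρ0 (omega (F := F) d1 h) rfl
    (G_ge d0 d1 F0 F1 h)
  have hB : 0 ≤ D * (F - 2) := by nlinarith
  have r0 := hr.1
  have eu := F_uR (F := F) b
  have ep : sφ D F b = exp (F * b) * sv1 D (exp (-b)) := rfl
  rw [← ep, m6] at E1 E2
  rcases le_total (r ^ 2 * sv2 D F (exp (-b))) (sφ D F b ^ 2) with k | k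
  · refine far_pos H hr (γ := 1 / (2 * r ^ 2)) (by linarith) hB m2 m4 m6 C0 hL (le_of_eq (by field_simp))
      (by rw [mul_one_div, mul_div_mul_left _ _ two_ne_zero, le_div_iff₀ (by positivity)]; linarith)
      (E1.trans_eq ?_)
    have : uR F b = (exp (F * b) - 1) / F := by rw [← eu]; field_simp
    rw [this]; field_simp; ring
  · have k1 : 1 ≤ 2 * r ^ 2 * (sv2 D F (exp (-b)) / (2 * sφ D F b ^ 2)) := by
      rw [← mul_div_assoc, le_div_iff₀ (by positivity)]; linarith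
    refine far_pos H hr (γ := sv2 D F (exp (-b)) / (2 * sφ D F b ^ 2)) (by linarith) hB m2 m4 m6 C0 hL k1
      (le_of_eq (by field_simp)) (E2.trans_le (mul_le_mul_of_nonneg_right ?_ r0.le))
    have : F * r ^ 2 * (1 / (2 * sφ D F b) - sv2 D F (exp (-b)) / (2 * sφ D F b ^ 2) * uR F b) =
        r ^ 2 * exp (F * b) * (F * sv1 D (exp (-b)) - sv2 D F (exp (-b))) / (2 * sφ D F b ^ 2) +
          r ^ 2 * (sv2 D F (exp (-b)) / (2 * sφ D F b ^ 2)) := by
      field_simp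
      linear_combination F * ep - sv2 D F (exp (-b)) * eu
    linarith

theorem small (d0 : -1 < D) (d1 : D ≤ -15 / 16) (F0 : 0 < F) (F1 : F ≤ 1 / 4)
    (H : Rng D F R) {r : ℝ} (hr : r ∈ Ioo 0 R) : 0 < Jf D F (phi4 D F) r := by
  obtain ⟨-, m2, -, m4, -, -, -, m6⟩ := H.pair hr.1 hr.2
  have sch : 3 * ((1 + D) * F) ≤ (1 + 2 * D) * (F - 1) * exp (-XR D F r) ∨ XR D F r ≤ 3 / 8 →
      0 < Jf D F (phi4 D F) r := fun h ↦ pair_pos H hr fun a ha b hb a0 b0 e k ↦ by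
    have b3 := (lt_of_v hb m4.le (m6 ▸ k)).le
    exact psi_lt d0 d1 F0 (by linarith) a0 b0 (h.imp (fun h ↦ h.trans (mul_le_mul_of_nonneg_left
      (exp_le_exp.2 (neg_le_neg b3)) (by nlinarith))) b3.trans)
  rcases le_total (XR D F r) (3 / 8) with k | k
  · exact sch (Or.inr k)
  obtain ⟨a, ha⟩ : ∃ a, F * a = 1 + D := ⟨(1 + D) / F, by field_simp⟩
  obtain ⟨β, hβ⟩ : ∃ β, (1 - 2 * F) * β = -2 * (1 + 2 * D) :=
    ⟨_, mul_div_cancel₀ _ (by linarith)⟩
  obtain ⟨c, hc⟩ : ∃ c, (1 - F) * c = -D := ⟨_, mul_div_cancel₀ _ (by linarith)⟩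
  have c0 : 0 < c := pos_of_mul_pos_right (a := 1 - F) (by linarith) (by linarith)
  have β0 : 0 < β := pos_of_mul_pos_right (a := 1 - 2 * F) (by linarith) (by linarith)
  have s1 := add_one_le_exp (XR D F r)
  rcases le_total (β - a - c) (r ^ 2) with l | l
  · refine aff_pos H hr F0 (by linarith) ha hβ hc l ?_
    have : 2 * c ≤ β * (11 / 8) := by
      refine le_of_mul_le_mul_left ?_ (show 0 < (1 - 2 * F) * (1 - F) by nlinarith)
      have e1 := congrArg ((1 - 2 * F) * ·) hc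
      have e2 := congrArg ((1 - F) * ·) hβ
      beta_reduce at e1 e2
      nlinarith
    nlinarith
  · refine sch (Or.inl ?_)
    rw [← m6, vR_expl ha hβ hc] at l
    have s0 := exp_pos (XR D F r)
    have l1 := nonpos_of_mul_nonpos_right (show exp ((2 * F - 2) * XR D F r) *
      (a * exp (XR D F r) ^ 2 - β * exp (XR D F r) + c) ≤ 0 by linarith) (exp_pos _)
    have l2 : a * exp (XR D F r) ≤ β := le_of_mul_le_mul_right (by linarith) s0
    rw [exp_neg, ← div_eq_mul_inv, le_div_iff₀ s0, ← ha]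
    have l3 := mul_le_mul_of_nonneg_left l2 (show 0 ≤ 3 * F ^ 2 by positivity)
    have l4 : 6 * F ^ 2 ≤ (1 - F) * (1 - 2 * F) := by nlinarith
    have l5 := mul_le_mul_of_nonneg_right l4 β0.le
    have e2 := congrArg ((1 - F) * ·) hβ
    beta_reduce at e2
    linarith

end S2

/-- the strip along `D = -1` -/
theorem S2_holds : St_S2 := fun _ F d0 d1 F0 F1 ↦ noThree_of_pos fun _ H r hr ↦ by
  rcases le_total F (1 / 4) with k | k
  · exact S2.small d0 d1 F0 k H hr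
  rcases le_total (XR _ F r) 3 with l | l
  exacts [S2.near d0 d1 k F1 H hr l, S2.farr d0 d1 k F1 H hr l]

end Pool.Agent.Lib.MP_d6150d_an
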