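import Pool.Agent.Lib.MP_d6150d_an.Loc2
import Pool.Agent.Lib.MP_d6150d_an.SchMain

/-! Monotonicity of the period from null functions on the two branches. -/

namespace Pool.Agent.Lib.MP_d6150d_an

open Real Set Filter Topology intervalIntegral

variable {D F R : ℝ}

variable (D F) in
/-- the integrand of the derivative of the period, corrected by a null function -/
noncomputable def IN (f : ℝ → ℝ) (h t : ℝ) : ℝ :=
  th D F (Dg D F (uR F)) t + (h - vR D F t) * Dg D F f t - gR D F t * f t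

theorem base (H : Rng D F R) {r c : ℝ} (hr : r ∈ Ioo 0 R) {f1 f2 : ℝ → ℝ}
    (a1 : ∀ t ∈ JR D, t ≤ 0 → AnalyticAt ℝ f1 t) (a2 : ∀ t ∈ JR D, 0 ≤ t → AnalyticAt ℝ f2 t)
    (hs : ∀ a ∈ JR D, ∀ b ∈ JR D, a < 0 → 0 < b → vR D F a = vR D F b → vR D F b < r ^ 2 →
      0 < IN D F f1 (r ^ 2) a + IN D F f2 (r ^ 2) b + c)
    (hc : c * (π / 2) ≤ r * (f2 0 - f1 0)) : 0 < Jf D F (phi4 D F) r := by
  have an : AnJ D (th D F (Dg D F (uR F))) := AnJ.u.dg.th
  have h1 : |r| < R := by rw [abs_of_pos hr.1]; exact hr.2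
  have e0 := (H.t_deriv h1 hr.1.ne').unique (H.av_deriv AnJ.u.dg h1 hr.1.ne')
  generalize hΨ : th D F (Dg D F (uR F)) = Ψ at an e0
  have ab : ∀ ρ ∈ Icc 0 r, |ρ| < R := fun ρ hρ ↦ by rw [abs_of_nonneg hρ.1]; exact hρ.2.trans_lt hr.2
  have ab' : ∀ ρ ∈ Icc 0 r, |-ρ| < R := fun ρ hρ ↦ by rw [abs_neg]; exact ab ρ hρ
  have g0 : gR D F 0 = 0 := by simp [gR]
  have X0 : XR D F 0 = 0 := by simpa [g0] using XR_g (F := F) (zero_mem_JR D)
  have b1 : ∀ ρ ∈ Icc 0 r, AnalyticAt ℝ f1 (XR D F (-ρ)) := fun ρ hρ ↦ a1 _ (H.mem (ab' ρ hρ))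
    (by rw [← gR_mono.le_iff_le (H.mem (ab' ρ hρ)) (zero_mem_JR D), H.eq (ab' ρ hρ), g0]
        linarith [hρ.1])
  have b2 : ∀ ρ ∈ Icc 0 r, AnalyticAt ℝ f2 (XR D F ρ) := fun ρ hρ ↦ a2 _ (H.mem (ab ρ hρ))
    (by rw [← gR_mono.le_iff_le (zero_mem_JR D) (H.mem (ab ρ hρ)), H.eq (ab ρ hρ), g0]; exact hρ.1)
  have dX : ∀ {k : ℝ → ℝ} {ρ : ℝ}, |ρ| < R → AnalyticAt ℝ k (XR D F ρ) →
      HasDerivAt (fun ρ ↦ k (XR D F ρ)) (Dg D F k (XR D F ρ)) ρ := fun {k ρ} hρ hk ↦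
    hk.differentiableAt.hasDerivAt.comp ρ (HasDerivAt.of_local_left_inverse (H.cont hρ)
      (gR_an (F := F) (H.mem hρ)).differentiableAt.hasDerivAt (gR_deriv_pos (H.mem hρ)).ne'
      (by filter_upwards [abs_nhds hρ] with x hx using H.eq hx))
  have dg : ∀ {k : ℝ → ℝ} {ρ : ℝ}, |ρ| < R → AnalyticAt ℝ k (XR D F ρ) →
      ContinuousAt (fun ρ ↦ Dg D F k (XR D F ρ)) ρ := fun {k ρ} hρ hk ↦
    (dX (k := Dg D F k) hρ (hk.deriv.div (gR_an (H.mem hρ)).deriv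
      (gR_deriv_pos (H.mem hρ)).ne')).continuousAt
  have d1 : ∀ ρ ∈ Icc 0 r, HasDerivAt (fun ρ ↦ f1 (XR D F (-ρ)))
      (-Dg D F f1 (XR D F (-ρ))) ρ := fun ρ hρ ↦
    (HasDerivAt.comp (h₂ := fun ρ ↦ f1 (XR D F ρ)) ρ (dX (ab' ρ hρ) (b1 ρ hρ))
      (hasDerivAt_neg ρ)).congr_deriv (by ring)
  have c1 : ContinuousOn (fun ρ ↦ -Dg D F f1 (XR D F (-ρ))) (Icc 0 r) := fun ρ hρ ↦
    (ContinuousAt.comp (g := fun ρ ↦ Dg D F f1 (XR D F ρ)) (dg (ab' ρ hρ) (b1 ρ hρ))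
      continuous_neg.continuousAt).neg.continuousWithinAt
  have c2 : ContinuousOn (fun ρ ↦ Dg D F f2 (XR D F ρ)) (Icc 0 r) := fun ρ hρ ↦
    (dg (ab ρ hρ) (b2 ρ hρ)).continuousWithinAt
  have n1 := quarter_null hr.1.le d1 c1
  have n2 := quarter_null hr.1.le (fun ρ hρ ↦ dX (ab ρ hρ) (b2 ρ hρ)) c2
  have c3 : ContinuousOn (fun ρ ↦ Ψ (XR D F ρ)) (Icc (-r) r) := fun ρ hρ ↦
    (H.deriv an ((abs_le.2 hρ).trans_lt hr.2)).continuousAt.continuousWithinAt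
  have m : ∀ θ ∈ uIcc 0 (π / 2), r * cos θ ∈ Icc 0 r := fun θ hθ ↦ by
    rw [uIcc_of_le (by positivity)] at hθ
    exact ⟨mul_nonneg hr.1.le (cos_nonneg_of_mem_Icc ⟨by linarith [hθ.1, pi_pos], hθ.2⟩),
      by nlinarith [cos_le_one θ, hr.1]⟩
  have i0 : IntervalIntegrable (fun θ ↦ Ψ (XR D F (-(r * cos θ))) + Ψ (XR D F (r * cos θ)))
      MeasureTheory.volume 0 (π / 2) := by
    refine ContinuousOn.intervalIntegrable (ContinuousOn.add ?_ ?_)
    · exact c3.comp (f := fun θ ↦ -(r * cos θ)) (by fun_prop) fun θ hθ ↦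
        ⟨by linarith [(m θ hθ).2], by linarith [(m θ hθ).1, hr.1]⟩
    · exact c3.comp (f := fun θ ↦ r * cos θ) (by fun_prop) fun θ hθ ↦
        ⟨by linarith [(m θ hθ).1, hr.1], (m θ hθ).2⟩
  have ii : ∀ {φ φ' : ℝ → ℝ}, (∀ ρ ∈ Icc 0 r, HasDerivAt φ (φ' ρ) ρ) → ContinuousOn φ' (Icc 0 r) →
      IntervalIntegrable (fun θ ↦ (r ^ 2 - (r * cos θ) ^ 2) * φ' (r * cos θ) -
        r * cos θ * φ (r * cos θ)) MeasureTheory.volume 0 (π / 2) := fun {φ φ'} k1 k2 ↦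
    ((ContinuousOn.mul (by fun_prop) (k2.comp (f := fun θ ↦ r * cos θ) (by fun_prop) m)).sub
      (ContinuousOn.mul (by fun_prop) (ContinuousOn.comp (g := φ) (f := fun θ ↦ r * cos θ)
        (fun ρ hρ ↦ (k1 ρ hρ).continuousAt.continuousWithinAt) (by fun_prop) m))).intervalIntegrable
  have i1 := ii d1 c1
  have i2 := ii (fun ρ hρ ↦ dX (ab ρ hρ) (b2 ρ hρ)) c2
  have i3 : IntervalIntegrable (fun _ : ℝ ↦ c) MeasureTheory.volume 0 (π / 2) :=
    intervalIntegrable_const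
  have h4 := intervalIntegral_pos_of_pos_on (((i0.add i2).sub i1).add i3) (fun θ hθ ↦ by
    have h1 : cos θ < 1 := cos_zero ▸ cos_lt_cos_of_nonneg_of_le_pi le_rfl
      (by linarith [hθ.2, pi_pos]) hθ.1
    have p1 := mul_pos hr.1 (cos_pos_of_mem_Ioo ⟨by linarith [hθ.1, pi_pos], hθ.2⟩)
    have p2 := mul_lt_of_lt_one_right hr.1 h1
    generalize r * cos θ = ρ at *
    obtain ⟨m1, m2, m3, m4, m5, e1, e2, e3⟩ := H.pair p1 (p2.trans hr.2)
    have := hs _ m1 _ m2 m3 m4 m5 (by rw [e3]; exact pow_lt_pow_left₀ p2 p1.le two_ne_zero)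
    simp only [IN, hΨ] at this
    rw [m5, e1, e2, e3] at this
    linarith) (by positivity)
  rw [integral_add ((i0.add i2).sub i1) i3, integral_sub (i0.add i2) i1, integral_add i0 i2, n1, n2,
    neg_zero, X0, intervalIntegral.integral_const, sub_zero, smul_eq_mul] at h4
  rw [div_eq_iff (pow_pos hr.1 3).ne'] at e0
  rw [e0, Av, circ_quarter hr.1.le c3]
  exact mul_pos (div_pos (by linarith) hr.1) (pow_pos hr.1 3)

theorem an_dslope {N : ℝ → ℝ} {t : ℝ} (e : ℝ) (hN : AnalyticAt ℝ N t) :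
    AnalyticAt ℝ (dslope N e) t := by
  by_cases h : t = e
  · obtain ⟨p, hp⟩ := hN
    subst h; exact ⟨_, hp.has_fpower_series_dslope_fslope⟩
  · have : AnalyticAt ℝ (fun y ↦ (N y - N e) / (y - e)) t :=
      (hN.sub analyticAt_const).div (analyticAt_id.sub analyticAt_const) (sub_ne_zero.2 h)
    refine this.congr ?_
    filter_upwards [isOpen_ne.mem_nhds h] with y hy
    rw [dslope_of_ne _ hy, slope_def_field]

theorem vR_inj {t e : ℝ} (ht : t ∈ JR D) (he : e ∈ JR D) (e0 : e ≠ 0) (h : 0 ≤ t * e)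
    (hv : vR D F t = vR D F e) : t = e := by
  by_contra n
  rcases e0.lt_or_gt with k | k
  · have k2 : t ≤ 0 := by by_contra k2; nlinarith [not_le.1 k2]
    rcases lt_or_gt_of_ne n with l | l
    exacts [(vR_anti ht k.le l).ne' hv, (vR_anti he k2 l).ne hv]
  · have k2 : 0 ≤ t := by by_contra k2; nlinarith [not_le.1 k2]
    rcases lt_or_gt_of_ne n with l | l
    exacts [(vR_mono he k2 l).ne hv, (vR_mono ht k.le l).ne' hv]

theorem Dg_u (t : ℝ) : Dg D F (uR F) t = exp (F * t) / deriv (gR D F) t := by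
  rw [Dg, (hasDerivAt_uR t).deriv]

theorem Dg_th_u {t : ℝ} (ht : t ∈ JR D) :
    Dg D F (th D F (uR F)) t = Dg D F (uR F) t + th D F (Dg D F (uR F)) t := by
  show Dg D F (fun t ↦ gR D F t * _) t = _
  rw [Dg_mul AnJ.g AnJ.u.dg ht, Dg_g ht, th]; ring

/-- the null function attached to `χ` on the branch with end `e` -/
theorem divi {χ χ' : ℝ → ℝ} (aχ : ∀ t, AnalyticAt ℝ χ t) (dχ : ∀ t, HasDerivAt χ (χ' t) t) {e : ℝ}
    (he : e ∈ JR D) (e0 : e ≠ 0) (hχ : χ e * WR D F e = exp (F * e)) : ∃ f : ℝ → ℝ,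
      f 0 = 2 * χ 0 ∧ (∀ t ∈ JR D, 0 ≤ t * e → AnalyticAt ℝ f t) ∧
      ∀ t ∈ JR D, vR D F t < vR D F e → ∃ k, 0 < k ∧ IN D F f (vR D F e) t =
        k * (χ' t * (vR D F e - vR D F t) + (χ t * WR D F t - exp (F * t)) / 2) := by
  have hp := vR_pos (F := F) he e0
  generalize hh : vR D F e = h at hp
  have aN : ∀ t ∈ JR D, AnalyticAt ℝ (fun t ↦ 2 * h * χ t - th D F (uR F) t) t := fun t ht ↦
    (analyticAt_const.mul (aχ t)).sub (AnJ.u.th t ht)
  have aM : ∀ t ∈ JR D, AnalyticAt ℝ (fun t ↦ h - vR D F t) t := fun t ht ↦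
    analyticAt_const.sub (AnJ.v t ht)
  have W0 : WR D F e ≠ 0 := by
    rcases e0.lt_or_gt with k | k
    exacts [(WR_neg he k).ne, (WR_pos he k).ne']
  have N0 : 2 * h * χ e - th D F (uR F) e = 0 := by
    have g1 := gR_deriv (F := F) he
    have g2 := (gR_deriv_pos (F := F) he).ne'
    rw [th, Dg_u, ← hχ, ← g1, ← hh, ← gR_sq he]; field_simp; ring
  have q : ∀ y, y ≠ e → dslope (fun t ↦ 2 * h * χ t - th D F (uR F) t) e y /
      dslope (fun t ↦ h - vR D F t) e y = (2 * h * χ y - th D F (uR F) y) / (h - vR D F y) :=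
    fun y hy ↦ by
      rw [dslope_of_ne _ hy, dslope_of_ne _ hy, slope_def_field, slope_def_field, N0, hh, sub_self,
        sub_zero, sub_zero, div_div_div_cancel_right₀ (sub_ne_zero.2 hy)]
  refine ⟨fun y ↦ dslope (fun t ↦ 2 * h * χ t - th D F (uR F) t) e y /
    dslope (fun t ↦ h - vR D F t) e y, ?_, fun t ht k ↦ ?_, fun t ht k ↦ ?_⟩
  · refine (q 0 e0.symm).trans ?_
    simp [th, gR, vR]; field_simp
  · refine (an_dslope e (aN t ht)).div (an_dslope e (aM t ht)) ?_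
    by_cases n : t = e
    · rw [n, dslope_same, ((hasDerivAt_vR D F e).const_sub h).deriv]; exact neg_ne_zero.2 W0
    · rw [dslope_of_ne _ n, slope_def_field, hh, sub_self, sub_zero]
      exact div_ne_zero (sub_ne_zero.2 fun l ↦ n (vR_inj ht he e0 k (by rw [hh, l])))
        (sub_ne_zero.2 n)
  · have n : t ≠ e := fun l ↦ k.ne (by rw [l, hh])
    have k0 : 0 < h - vR D F t := sub_pos.2 k
    have g1 := gR_deriv (F := F) ht
    have g2 := gR_deriv_pos (F := F) ht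
    have d1 := ((((dχ t).const_mul (2 * h)).sub
      ((AnJ.u (F := F)).th (F := F) t ht).differentiableAt.hasDerivAt).fun_div
      ((hasDerivAt_vR D F t).const_sub h) k0.ne').congr_of_eventuallyEq
      (f₁ := fun y ↦ dslope (fun t ↦ 2 * h * χ t - th D F (uR F) t) e y /
        dslope (fun t ↦ h - vR D F t) e y) (by
        filter_upwards [isOpen_ne.mem_nhds n] with y hy using q y hy)
    have d2 := Dg_th_u (F := F) ht
    rw [Dg, div_eq_iff g2.ne'] at d2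
    refine ⟨2 * h / ((h - vR D F t) * deriv (gR D F) t), by positivity, ?_⟩
    rw [IN, q t n, Dg, d1.deriv, d2]
    simp only [Pi.sub_apply]
    generalize th D F (Dg D F (uR F)) t = Ψ
    rw [th, Dg_u, ← g1]
    rw [← gR_sq ht] at k0 ⊢
    field_simp
    ring

/-- the null function that produces `phi4` -/
theorem IN_phi4 {h K t : ℝ} (h0 : h ≠ 0) (ht : t ∈ JR D) :
    IN D F (fun t ↦ (uR F t - th D F (uR F) t) / h + K) h t =
      gR D F t * (phi4 D F t / h - K) := by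
  have g2 := (gR_deriv_pos (F := F) ht).ne'
  have d1 := (((hasDerivAt_uR (F := F) t).sub
    ((AnJ.u (F := F)).th (F := F) t ht).differentiableAt.hasDerivAt).div_const h).add_const K
  have d2 := Dg_th_u (F := F) ht
  have d3 : th D F (th D F (uR F)) t = gR D F t * Dg D F (th D F (uR F)) t := rfl
  rw [d2] at d3
  rw [Dg, div_eq_iff g2] at d2
  have d4 : deriv (fun t ↦ (uR F t - th D F (uR F) t) / h + K) t = _ := d1.deriv
  rw [IN, Dg, d4, d2, phi4, d3]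
  generalize th D F (Dg D F (uR F)) t = Ψ
  rw [th, Dg_u, ← gR_sq ht]
  field_simp
  ring

theorem phi4_form {t : ℝ} (ht : t ∈ JR D) (h0 : t ≠ 0) : phi4 D F t = 2 * vR D F t / sφ D F t -
    vR D F t ^ 2 * sv2 D F (exp (-t)) / sφ D F t ^ 3 - uR F t := by
  have h1 := sφ_ne (F := F) ht h0
  have h2 := g_ne (F := F) ht h0
  have d3 : th D F (th D F (uR F)) t = gR D F t * Dg D F (th D F (uR F)) t := rfl
  rw [phi4, d3, Dg_th_u ht, th, psi_eq ht h0, Dg_u, deriv_g ht h0, ← gR_sq ht]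
  field_simp
  ring

theorem noThree_of_pos (h : ∀ R, Rng D F R → ∀ r ∈ Ioo 0 R, 0 < Jf D F (phi4 D F) r) :
    NoThree D F :=
  fun _ _ _ _ _ _ _ R hR H a _ h0 hab hb za _ _ ↦ (h R H a ⟨h0, by linarith⟩).ne' za

/-- the criterion of Chicone below a level -/
theorem pair_pos (H : Rng D F R) {r : ℝ} (hr : r ∈ Ioo 0 R)
    (hs : ∀ a ∈ JR D, ∀ b ∈ JR D, a < 0 → 0 < b → vR D F a = vR D F b → vR D F b < r ^ 2 →
      Dg D F (Dg D F (uR F)) a < Dg D F (Dg D F (uR F)) b) : 0 < Jf D F (phi4 D F) r := by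
  refine base H hr (c := 0) (f1 := fun _ ↦ 0) (f2 := fun _ ↦ 0) (fun _ _ _ ↦ analyticAt_const)
    (fun _ _ _ ↦ analyticAt_const) (fun a ha b hb a0 b0 e k ↦ ?_) (by simp)
  have h1 := hs a ha b hb a0 b0 e k
  have h2 := gR_pos (F := F) hb b0
  have h3 : gR D F a = -gR D F b := by
    have := gR_neg (F := F) ha a0
    refine (sq_eq_sq_iff_eq_or_eq_neg.1 ?_).resolve_left (by linarith)
    rw [gR_sq ha, gR_sq hb, e]
  have z : ∀ t, Dg D F (fun _ ↦ 0) t = 0 := fun t ↦ by simp [Dg]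
  simp only [IN, th, z, h3]
  nlinarith

end Pool.Agent.Lib.MP_d6150d_an
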