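import Pool.Agent.Lib.MP_d6150d_an.S2lD

/-! A generated chart: the computations. -/

namespace Pool.Agent.Lib.MP_d6150d_an.S2l

theorem k0 : chk C 0x881828802881288128808282828812188288218880288812112 [(-140737488355328,
    -131941395333120), (35184372088832, 131941395333120), (-844424930131968, -39582418599936)] =
    true := by
  decide +kernel

end Pool.Agent.Lib.MP_d6150d_an.S2l
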