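import Pool.Agent.Lib.MP_d6150d_an.GMac
import Pool.Agent.Lib.MP_d6150d_an.S2lK0

/-! A generated chart: the inequality. -/

namespace Pool.Agent.Lib.MP_d6150d_an.S2l

set_option linter.unnecessarySeqFocus false
set_option linter.unusedTactic false
set_option linter.unusedVariables false

theorem gd : Gd C [(-140737488355328, -131941395333120), (35184372088832, 131941395333120),
    (-844424930131968, -39582418599936)] := chk_sound k0

set_option maxRecDepth 100000 in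
theorem eq {D F t s y z mu w q f : ℝ} (hs : s = Real.exp t) (hy : y = Real.exp (F * t)) (hz : z =
    Real.exp ((2 - 2 * F) * t)) (hmu : mu = muR D F t) (hw : w = t ^ 2 * mu * z) (hq : q = (1 - s) *
    ((1 + D) * s - D)) (hf : f = (1 + D) * F * s ^ 2 - (1 + 2 * D) * (F - 1) * s + D * (F - 2)) :
    outR prog 0 [D, F, t] = 2 * q ^ 3 - y * (w * f - q ^ 2) * (w + 3 * z) := by
  replace hy : y = (Real.exp (F * t)) := hy.trans (congrArg Real.exp (by push_cast <;> ring))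
  replace hz : z = (Real.exp (((Int.cast (2) : ℝ) - ((Int.cast (2) : ℝ) * F)) * t)) := hz.trans
    (congrArg Real.exp (by push_cast <;> ring))
  replace hmu : mu = (mMu D F t) := hmu.trans (mMu_0 ..)
  replace hw : w = (((t * t) * mu) * z) := hw.trans (by push_cast <;> ring)
  replace hq : q = (((Int.cast (1) : ℝ) - s) * ((((Int.cast (1) : ℝ) + D) * s) - D)) := hq.trans (by
    push_cast <;> ring)
  replace hf : f = ((((((Int.cast (1) : ℝ) + D) * F) * (s * s)) - ((((Int.cast (1) : ℝ) + ((Int.cast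
    (2) : ℝ) * D)) * (F - (Int.cast (1) : ℝ))) * s)) + (D * (F - (Int.cast (2) : ℝ)))) := hf.trans
    (by push_cast <;> ring)
  have e0 : (((Int.cast (2) : ℝ) * ((q * q) * q)) - ((y * ((w * f) - (q * q))) * (w + ((Int.cast (3)
    : ℝ) * z)))) = 2 * q ^ 3 - y * (w * f - q ^ 2) * (w + 3 * z) := by push_cast <;> ring
  subst hs hy hz hmu hw hq hf
  exact Eq.trans rfl e0

theorem l0 : ((-140737488355328 : ℤ) : ℝ) / 2 ^ 47 = -1 := by norm_num
theorem u0 : (-15 / 16 : ℝ) = ((-131941395333120 : ℤ) : ℝ) / 2 ^ 47 := by norm_num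
theorem l1 : ((35184372088832 : ℤ) : ℝ) / 2 ^ 47 = 1 / 4 := by norm_num
theorem u1 : (15 / 16 : ℝ) = ((131941395333120 : ℤ) : ℝ) / 2 ^ 47 := by norm_num
theorem l2 : ((-844424930131968 : ℤ) : ℝ) / 2 ^ 47 = -6 := by norm_num
theorem u2 : (-9 / 32 : ℝ) = ((-39582418599936 : ℤ) : ℝ) / 2 ^ 47 := by norm_num

theorem out0 {D F t : ℝ} (a0 : -1 ≤ D) (b0 : D ≤ -15 / 16) (a1 : 1 / 4 ≤ F) (b1 : F ≤ 15 / 16) (a2 :
    -6 ≤ t) (b2 : t ≤ -9 / 32) : 0 < outR prog 0 [D, F, t] :=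
  gd 0 (by decide) [D, F, t] (.cons ⟨l0.le.trans a0, b0.trans u0.le⟩ (.cons ⟨l1.le.trans a1,
    b1.trans u1.le⟩ (.cons ⟨l2.le.trans a2, b2.trans u2.le⟩ (.nil)))) ⟨nofun, nofun, nofun, trivial⟩
    (List.forall_mem_nil _) (Van.of0 rfl) (nofun)

theorem pos0 {D F t s y z mu w q f : ℝ} (hs : s = Real.exp t) (hy : y = Real.exp (F * t)) (hz : z =
    Real.exp ((2 - 2 * F) * t)) (hmu : mu = muR D F t) (hw : w = t ^ 2 * mu * z) (hq : q = (1 - s) *
    ((1 + D) * s - D)) (hf : f = (1 + D) * F * s ^ 2 - (1 + 2 * D) * (F - 1) * s + D * (F - 2)) (a0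
    : -1 ≤ D) (b0 : D ≤ -15 / 16) (a1 : 1 / 4 ≤ F) (b1 : F ≤ 15 / 16) (a2 : -6 ≤ t) (b2 : t ≤ -9 /
    32) : 0 < 2 * q ^ 3 - y * (w * f - q ^ 2) * (w + 3 * z) :=
  have e := eq hs hy hz hmu hw hq hf
  (out0 a0 b0 a1 b1 a2 b2).trans_eq e

end Pool.Agent.Lib.MP_d6150d_an.S2l
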