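import Pool.Agent.Lib.MP_d6150d_an.S2mD

/-! A generated chart: the computations. -/

namespace Pool.Agent.Lib.MP_d6150d_an.S2m

theorem k0 : chk C 0x881881288188121881881188188128818812112 [(-140737488355328, -131941395333120),
    (70368744177664, 131941395333120), (-1125899906842624, -96757023244288)] = true := by
  decide +kernel

end Pool.Agent.Lib.MP_d6150d_an.S2m
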