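import Pool.Agent.Lib.MP_d6150d_an.GMac
import Pool.Agent.Lib.MP_d6150d_an.S2mK0

/-! A generated chart: the inequality. -/

namespace Pool.Agent.Lib.MP_d6150d_an.S2m

set_option linter.unnecessarySeqFocus false
set_option linter.unusedTactic false
set_option linter.unusedVariables false

theorem gd : Gd C [(-140737488355328, -131941395333120), (70368744177664, 131941395333120),
    (-1125899906842624, -96757023244288)] := chk_sound k0

set_option maxRecDepth 100000 in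
theorem eq {D F t s e z mu w q f : ℝ} (hs : s = Real.exp t) (he : e = Real.exp ((2 * F - 1) * t))
    (hz : z = Real.exp ((2 - 2 * F) * t)) (hmu : mu = muR D F t) (hw : w = t ^ 2 * mu * z) (hq : q =
    (1 - s) * ((1 + D) * s - D)) (hf : f = (1 + D) * F * s ^ 2 - (1 + 2 * D) * (F - 1) * s + D * (F
    - 2)) : outR prog 0 [D, F, t] = 32 / 5 * q ^ 3 + e * (w + 4) * (q ^ 3 + 2 * F * w * q ^ 2 - F *
    w ^ 2 * f) := by
  replace he : e = (Real.exp ((((Int.cast (2) : ℝ) * F) - (Int.cast (1) : ℝ)) * t)) := he.trans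
    (congrArg Real.exp (by push_cast <;> ring))
  replace hz : z = (Real.exp (((Int.cast (2) : ℝ) - ((Int.cast (2) : ℝ) * F)) * t)) := hz.trans
    (congrArg Real.exp (by push_cast <;> ring))
  replace hmu : mu = (mMu D F t) := hmu.trans (mMu_0 ..)
  replace hw : w = (((t * t) * mu) * z) := hw.trans (by push_cast <;> ring)
  replace hq : q = (((Int.cast (1) : ℝ) - s) * ((((Int.cast (1) : ℝ) + D) * s) - D)) := hq.trans (by
    push_cast <;> ring)
  replace hf : f = ((((((Int.cast (1) : ℝ) + D) * F) * (s * s)) - ((((Int.cast (1) : ℝ) + ((Int.cast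
    (2) : ℝ) * D)) * (F - (Int.cast (1) : ℝ))) * s)) + (D * (F - (Int.cast (2) : ℝ)))) := hf.trans
    (by push_cast <;> ring)
  have e0 : ((((Int.cast (32) : ℝ) / (Nat.cast 5 : ℝ)) * ((q * q) * q)) + ((e * (w + (Int.cast (4) :
    ℝ))) * ((((q * q) * q) + ((((Int.cast (2) : ℝ) * F) * w) * (q * q))) - ((F * (w * w)) * f)))) =
    32 / 5 * q ^ 3 + e * (w + 4) * (q ^ 3 + 2 * F * w * q ^ 2 - F * w ^ 2 * f) := by push_cast <;>
    ring
  subst hs he hz hmu hw hq hf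
  exact Eq.trans rfl e0

theorem l0 : ((-140737488355328 : ℤ) : ℝ) / 2 ^ 47 = -1 := by norm_num
theorem u0 : (-15 / 16 : ℝ) = ((-131941395333120 : ℤ) : ℝ) / 2 ^ 47 := by norm_num
theorem l1 : ((70368744177664 : ℤ) : ℝ) / 2 ^ 47 = 1 / 2 := by norm_num
theorem u1 : (15 / 16 : ℝ) = ((131941395333120 : ℤ) : ℝ) / 2 ^ 47 := by norm_num
theorem l2 : ((-1125899906842624 : ℤ) : ℝ) / 2 ^ 47 = -8 := by norm_num
theorem u2 : (-11 / 16 : ℝ) = ((-96757023244288 : ℤ) : ℝ) / 2 ^ 47 := by norm_num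

theorem out0 {D F t : ℝ} (a0 : -1 ≤ D) (b0 : D ≤ -15 / 16) (a1 : 1 / 2 ≤ F) (b1 : F ≤ 15 / 16) (a2 :
    -8 ≤ t) (b2 : t ≤ -11 / 16) : 0 < outR prog 0 [D, F, t] :=
  gd 0 (by decide) [D, F, t] (.cons ⟨l0.le.trans a0, b0.trans u0.le⟩ (.cons ⟨l1.le.trans a1,
    b1.trans u1.le⟩ (.cons ⟨l2.le.trans a2, b2.trans u2.le⟩ (.nil)))) ⟨nofun, nofun, nofun, trivial⟩
    (List.forall_mem_nil _) (Van.of0 rfl) (nofun)

theorem pos0 {D F t s e z mu w q f : ℝ} (hs : s = Real.exp t) (he : e = Real.exp ((2 * F - 1) * t))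
    (hz : z = Real.exp ((2 - 2 * F) * t)) (hmu : mu = muR D F t) (hw : w = t ^ 2 * mu * z) (hq : q =
    (1 - s) * ((1 + D) * s - D)) (hf : f = (1 + D) * F * s ^ 2 - (1 + 2 * D) * (F - 1) * s + D * (F
    - 2)) (a0 : -1 ≤ D) (b0 : D ≤ -15 / 16) (a1 : 1 / 2 ≤ F) (b1 : F ≤ 15 / 16) (a2 : -8 ≤ t) (b2 :
    t ≤ -11 / 16) : 0 < 32 / 5 * q ^ 3 + e * (w + 4) * (q ^ 3 + 2 * F * w * q ^ 2 - F * w ^ 2 * f)
    :=
  have e := eq hs he hz hmu hw hq hf
  (out0 a0 b0 a1 b1 a2 b2).trans_eq e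

end Pool.Agent.Lib.MP_d6150d_an.S2m
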