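import Pool.Agent.Lib.MP_d6150d_an.S2pD

/-! A generated chart: the computations. -/

namespace Pool.Agent.Lib.MP_d6150d_an.S2p

theorem k0 : chk C 0x8818811 [(-140737488355328, -131941395333120), (35184372088832,
    131941395333120)] = true := by
  decide +kernel

end Pool.Agent.Lib.MP_d6150d_an.S2p
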