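import Pool.Agent.Lib.MP_d6150d_an.GMac
import Pool.Agent.Lib.MP_d6150d_an.S2pK0

/-! A generated chart: the inequality. -/

namespace Pool.Agent.Lib.MP_d6150d_an.S2p

set_option linter.unnecessarySeqFocus false
set_option linter.unusedTactic false
set_option linter.unusedVariables false

theorem gd : Gd C [(-140737488355328, -131941395333120), (35184372088832, 131941395333120)] :=
    chk_sound k0

set_option maxRecDepth 100000 in
theorem eq {D F a b c e ma mb mc me x z y : ℝ} (ha : a = 3 / 8) (hb : b = -9 / 32) (hc : c = 3) (he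
    : e = -6) (hma : ma = muR D F a) (hmb : mb = muR D F b) (hmc : mc = muR D F c) (hme : me = muR D
    F e) (hx : x = Real.exp c) (hz : z = Real.exp ((2 * F - 2) * c)) (hy : y = Real.exp (F * e)) :
    outR prog 0 [D, F] = a ^ 2 * ma - b ^ 2 * mb ∧ outR prog 1 [D, F] = 2 * F * (c ^ 2 * mc) - 2 * z
    * ((x - 1) * ((1 + D) * x - D)) - 24 / 5 * (F - 1 / 4) ∧ outR prog 2 [D, F] = e ^ 2 * me - 9 ∧
    outR prog 3 [D, F] = 3 * (1 - F) ^ 2 - 2 * y := by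
  replace ha : a = ((Int.cast (3) : ℝ) / (Nat.cast 8 : ℝ)) := ha.trans (by push_cast <;> ring)
  replace hb : b = ((Int.cast (-9) : ℝ) / (Nat.cast 32 : ℝ)) := hb.trans (by push_cast <;> ring)
  replace hc : c = (Int.cast (3) : ℝ) := hc.trans (by push_cast <;> ring)
  replace he : e = (Int.cast (-6) : ℝ) := he.trans (by push_cast <;> ring)
  replace hma : ma = (mMu D F a) := hma.trans (mMu_0 ..)
  replace hmb : mb = (mMu D F b) := hmb.trans (mMu_0 ..)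
  replace hmc : mc = (mMu D F c) := hmc.trans (mMu_0 ..)
  replace hme : me = (mMu D F e) := hme.trans (mMu_0 ..)
  replace hz : z = (Real.exp ((((Int.cast (2) : ℝ) * F) - (Int.cast (2) : ℝ)) * c)) := hz.trans
    (congrArg Real.exp (by push_cast <;> ring))
  replace hy : y = (Real.exp (F * e)) := hy.trans (congrArg Real.exp (by push_cast <;> ring))
  have e0 : (((a * a) * ma) - ((b * b) * mb)) = a ^ 2 * ma - b ^ 2 * mb := by push_cast <;> ring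
  have e1 : (((((Int.cast (2) : ℝ) * F) * ((c * c) * mc)) - (((Int.cast (2) : ℝ) * z) * ((x -
    (Int.cast (1) : ℝ)) * ((((Int.cast (1) : ℝ) + D) * x) - D)))) - (((Int.cast (24) : ℝ) /
    (Nat.cast 5 : ℝ)) * (F - ((Int.cast (1) : ℝ) / (Nat.cast 4 : ℝ))))) = 2 * F * (c ^ 2 * mc) - 2 *
    z * ((x - 1) * ((1 + D) * x - D)) - 24 / 5 * (F - 1 / 4) := by push_cast <;> ring
  have e2 : (((e * e) * me) - (Int.cast (9) : ℝ)) = e ^ 2 * me - 9 := by push_cast <;> ring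
  have e3 : (((Int.cast (3) : ℝ) * (((Int.cast (1) : ℝ) - F) * ((Int.cast (1) : ℝ) - F))) -
    ((Int.cast (2) : ℝ) * y)) = 3 * (1 - F) ^ 2 - 2 * y := by push_cast <;> ring
  subst ha hb hc he hma hmb hmc hme hx hz hy
  exact ⟨Eq.trans rfl e0, Eq.trans rfl e1, Eq.trans rfl e2, Eq.trans rfl e3⟩

theorem l0 : ((-140737488355328 : ℤ) : ℝ) / 2 ^ 47 = -1 := by norm_num
theorem u0 : (-15 / 16 : ℝ) = ((-131941395333120 : ℤ) : ℝ) / 2 ^ 47 := by norm_num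
theorem l1 : ((35184372088832 : ℤ) : ℝ) / 2 ^ 47 = 1 / 4 := by norm_num
theorem u1 : (15 / 16 : ℝ) = ((131941395333120 : ℤ) : ℝ) / 2 ^ 47 := by norm_num

theorem out0 {D F : ℝ} (a0 : -1 ≤ D) (b0 : D ≤ -15 / 16) (a1 : 1 / 4 ≤ F) (b1 : F ≤ 15 / 16) : 0 <
    outR prog 0 [D, F] :=
  gd 0 (by decide) [D, F] (.cons ⟨l0.le.trans a0, b0.trans u0.le⟩ (.cons ⟨l1.le.trans a1, b1.trans
    u1.le⟩ (.nil))) ⟨nofun, nofun, trivial⟩ (List.forall_mem_nil _) (Van.of0 rfl) (nofun)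

theorem pos0 {D F a b c e ma mb mc me x z y : ℝ} (ha : a = 3 / 8) (hb : b = -9 / 32) (hc : c = 3)
    (he : e = -6) (hma : ma = muR D F a) (hmb : mb = muR D F b) (hmc : mc = muR D F c) (hme : me =
    muR D F e) (hx : x = Real.exp c) (hz : z = Real.exp ((2 * F - 2) * c)) (hy : y = Real.exp (F *
    e)) (a0 : -1 ≤ D) (b0 : D ≤ -15 / 16) (a1 : 1 / 4 ≤ F) (b1 : F ≤ 15 / 16) : 0 < a ^ 2 * ma - b ^
    2 * mb :=
  have e := eq ha hb hc he hma hmb hmc hme hx hz hy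
  (out0 a0 b0 a1 b1).trans_eq e.1

theorem out1 {D F : ℝ} (a0 : -1 ≤ D) (b0 : D ≤ -15 / 16) (a1 : 1 / 4 ≤ F) (b1 : F ≤ 15 / 16) : 0 <
    outR prog 1 [D, F] :=
  gd 1 (by decide) [D, F] (.cons ⟨l0.le.trans a0, b0.trans u0.le⟩ (.cons ⟨l1.le.trans a1, b1.trans
    u1.le⟩ (.nil))) ⟨nofun, nofun, trivial⟩ (List.forall_mem_nil _) (Van.of0 rfl) (nofun)

theorem pos1 {D F a b c e ma mb mc me x z y : ℝ} (ha : a = 3 / 8) (hb : b = -9 / 32) (hc : c = 3)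
    (he : e = -6) (hma : ma = muR D F a) (hmb : mb = muR D F b) (hmc : mc = muR D F c) (hme : me =
    muR D F e) (hx : x = Real.exp c) (hz : z = Real.exp ((2 * F - 2) * c)) (hy : y = Real.exp (F *
    e)) (a0 : -1 ≤ D) (b0 : D ≤ -15 / 16) (a1 : 1 / 4 ≤ F) (b1 : F ≤ 15 / 16) : 0 < 2 * F * (c ^ 2 *
    mc) - 2 * z * ((x - 1) * ((1 + D) * x - D)) - 24 / 5 * (F - 1 / 4) :=
  have e := eq ha hb hc he hma hmb hmc hme hx hz hy
  (out1 a0 b0 a1 b1).trans_eq e.2.1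

theorem out2 {D F : ℝ} (a0 : -1 ≤ D) (b0 : D ≤ -15 / 16) (a1 : 1 / 4 ≤ F) (b1 : F ≤ 15 / 16) : 0 <
    outR prog 2 [D, F] :=
  gd 2 (by decide) [D, F] (.cons ⟨l0.le.trans a0, b0.trans u0.le⟩ (.cons ⟨l1.le.trans a1, b1.trans
    u1.le⟩ (.nil))) ⟨nofun, nofun, trivial⟩ (List.forall_mem_nil _) (Van.of0 rfl) (nofun)

theorem pos2 {D F a b c e ma mb mc me x z y : ℝ} (ha : a = 3 / 8) (hb : b = -9 / 32) (hc : c = 3)
    (he : e = -6) (hma : ma = muR D F a) (hmb : mb = muR D F b) (hmc : mc = muR D F c) (hme : me =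
    muR D F e) (hx : x = Real.exp c) (hz : z = Real.exp ((2 * F - 2) * c)) (hy : y = Real.exp (F *
    e)) (a0 : -1 ≤ D) (b0 : D ≤ -15 / 16) (a1 : 1 / 4 ≤ F) (b1 : F ≤ 15 / 16) : 0 < e ^ 2 * me - 9
    :=
  have e := eq ha hb hc he hma hmb hmc hme hx hz hy
  (out2 a0 b0 a1 b1).trans_eq e.2.2.1

theorem out3 {D F : ℝ} (a0 : -1 ≤ D) (b0 : D ≤ -15 / 16) (a1 : 1 / 4 ≤ F) (b1 : F ≤ 15 / 16) : 0 <
    outR prog 3 [D, F] :=
  gd 3 (by decide) [D, F] (.cons ⟨l0.le.trans a0, b0.trans u0.le⟩ (.cons ⟨l1.le.trans a1, b1.trans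
    u1.le⟩ (.nil))) ⟨nofun, nofun, trivial⟩ (List.forall_mem_nil _) (Van.of0 rfl) (nofun)

theorem pos3 {D F a b c e ma mb mc me x z y : ℝ} (ha : a = 3 / 8) (hb : b = -9 / 32) (hc : c = 3)
    (he : e = -6) (hma : ma = muR D F a) (hmb : mb = muR D F b) (hmc : mc = muR D F c) (hme : me =
    muR D F e) (hx : x = Real.exp c) (hz : z = Real.exp ((2 * F - 2) * c)) (hy : y = Real.exp (F *
    e)) (a0 : -1 ≤ D) (b0 : D ≤ -15 / 16) (a1 : 1 / 4 ≤ F) (b1 : F ≤ 15 / 16) : 0 < 3 * (1 - F) ^ 2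
    - 2 * y :=
  have e := eq ha hb hc he hma hmb hmc hme hx hz hy
  (out3 a0 b0 a1 b1).trans_eq e.2.2.2

end Pool.Agent.Lib.MP_d6150d_an.S2p
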