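import Pool.Agent.Lib.MP_d6150d_an.S2tD

/-! A generated chart: the computations. -/

namespace Pool.Agent.Lib.MP_d6150d_an.S2t

theorem k0 : chk C 0x8808088008800 [(70368744177664, 131941395333120)] = true := by
  decide +kernel

end Pool.Agent.Lib.MP_d6150d_an.S2t
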