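import Pool.Agent.Lib.MP_d6150d_an.GMac
import Pool.Agent.Lib.MP_d6150d_an.S2tK0

/-! A generated chart: the inequality. -/

namespace Pool.Agent.Lib.MP_d6150d_an.S2t

set_option linter.unnecessarySeqFocus false
set_option linter.unusedTactic false
set_option linter.unusedVariables false

theorem gd : Gd C [(70368744177664, 131941395333120)] := chk_sound k0

set_option maxRecDepth 100000 in
theorem eq {F e : ℝ} (he : e = Real.exp ((2 * F - 1) * (-8))) : outR prog 0 [F] = 4 / 25 * (2 - 2 *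
    F) ^ 5 - 2 * (2 * F - 1) ^ 2 * e ^ 2 := by
  replace he : e = (Real.exp ((Int.cast (-8) : ℝ) * (((Int.cast (2) : ℝ) * F) - (Int.cast (1) :
    ℝ)))) := he.trans (congrArg Real.exp (by push_cast <;> ring))
  have e0 : ((((Int.cast (4) : ℝ) / (Nat.cast 25 : ℝ)) * (((((Int.cast (2) : ℝ) - ((Int.cast (2) :
    ℝ) * F)) * ((Int.cast (2) : ℝ) - ((Int.cast (2) : ℝ) * F))) * (((Int.cast (2) : ℝ) - ((Int.cast
    (2) : ℝ) * F)) * ((Int.cast (2) : ℝ) - ((Int.cast (2) : ℝ) * F)))) * ((Int.cast (2) : ℝ) -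
    ((Int.cast (2) : ℝ) * F)))) - (((Int.cast (2) : ℝ) * ((((Int.cast (2) : ℝ) * F) - (Int.cast (1)
    : ℝ)) * (((Int.cast (2) : ℝ) * F) - (Int.cast (1) : ℝ)))) * (e * e))) = 4 / 25 * (2 - 2 * F) ^ 5
    - 2 * (2 * F - 1) ^ 2 * e ^ 2 := by push_cast <;> ring
  subst he
  exact Eq.trans rfl e0

theorem l0 : ((70368744177664 : ℤ) : ℝ) / 2 ^ 47 = 1 / 2 := by norm_num
theorem u0 : (15 / 16 : ℝ) = ((131941395333120 : ℤ) : ℝ) / 2 ^ 47 := by norm_num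

theorem out0 {F : ℝ} (a0 : 1 / 2 ≤ F) (b0 : F ≤ 15 / 16) : 0 < outR prog 0 [F] :=
  gd 0 (by decide) [F] (.cons ⟨l0.le.trans a0, b0.trans u0.le⟩ (.nil)) ⟨nofun, trivial⟩
    (List.forall_mem_nil _) (Van.of0 rfl) (nofun)

theorem pos0 {F e : ℝ} (he : e = Real.exp ((2 * F - 1) * (-8))) (a0 : 1 / 2 ≤ F) (b0 : F ≤ 15 / 16)
    : 0 < 4 / 25 * (2 - 2 * F) ^ 5 - 2 * (2 * F - 1) ^ 2 * e ^ 2 :=
  have e := eq he
  (out0 a0 b0).trans_eq e

end Pool.Agent.Lib.MP_d6150d_an.S2t
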