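import Pool.Agent.Lib.MP_d6150d_an.S2b
import Pool.Agent.Lib.MP_d6150d_an.S2l
import Pool.Agent.Lib.MP_d6150d_an.S2m
import Pool.Agent.Lib.MP_d6150d_an.S2p
import Pool.Agent.Lib.MP_d6150d_an.S2t

/-! The strip `-1 < D ≤ -15 / 16`: the test of Schaaf and the left branch. -/

namespace Pool.Agent.Lib.MP_d6150d_an.S2

open Real Set Filter Topology

variable {D F R t : ℝ}

theorem mem (d0 : -1 < D) (d1 : D ≤ -15 / 16) (t : ℝ) : t ∈ JR D := by
  have := mul_pos (show 0 < 1 + D by linarith) (exp_pos t)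
  show 0 < (1 + D) * exp t - D
  linarith

theorem sch2 {r A B C : ℝ} (h1 : 3 / 4 ≤ F) (F1 : F ≤ 15 / 16) (h2 : 17 / 25 ≤ r) (Ap : 0 < A)
    (A1 : A ≤ 1 - F) (B0 : 15 / 16 * (2 - F) ≤ B) (C0 : 0 < C) (C1 : C ≤ F / 16) :
    0 < r * ((8 - 6 * F) * (B * r) ^ 2 + (9 * F - 5) * (B * r) * A + (2 - 3 * F) * A ^ 2) -
      C * (6 * (2 + F) * (B * r) - 3 * (1 + F) * A) := by
  have Bp : 99 / 100 < B := by linarith
  have r0 : 0 < r := by linarith
  have q1 : (17 / 25) ^ 2 * B ^ 2 ≤ (B * r) ^ 2 := by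
    rw [← mul_pow, mul_comm]
    exact pow_le_pow_left₀ (by positivity) (mul_le_mul_of_nonneg_left h2 (by linarith)) 2
  have q2 : 0 ≤ (9 * F - 5) * (B * r) * A := by
    have : 0 ≤ 9 * F - 5 := by linarith
    positivity
  have q3 : -(1 / 50) ≤ (2 - 3 * F) * A ^ 2 := by
    have a := mul_le_mul_of_nonneg_left (pow_le_pow_left₀ Ap.le A1 2)
      (show 0 ≤ 3 * F - 2 by linarith)
    have b : (3 * F - 2) * (1 - F) ^ 2 ≤ 1 / 50 := by
      nlinarith [mul_nonneg (sub_nonneg.2 h1) (sub_nonneg.2 F1), sq_nonneg (F - 7 / 9)]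
    linarith
  have q4 : 1 / 40 ≤ (8 - 6 * F) * (17 / 25) ^ 2 * B - 6 * (2 + F) * C := by
    have a := mul_le_mul_of_nonneg_left B0 (show 0 ≤ (8 - 6 * F) * (17 / 25) ^ 2 by linarith)
    have b := mul_le_mul_of_nonneg_left C1 (show 0 ≤ 6 * (2 + F) by linarith)
    nlinarith [sq_nonneg (F - 15 / 16)]
  have q5 : 1 / 50 < (8 - 6 * F) * (B * r) ^ 2 - 6 * (2 + F) * C * B := by
    have a := mul_le_mul_of_nonneg_left q1 (show 0 ≤ 8 - 6 * F by linarith)
    have b := mul_le_mul_of_nonneg_left q4 (show 0 ≤ B by linarith)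
    linarith
  have q6 : 0 < C * (3 * (1 + F) * A) := by
    have : 0 < 1 + F := by linarith
    positivity
  linarith [mul_pos r0 (sub_pos.2 q5), mul_nonneg r0.le q2, mul_nonneg r0.le (sub_nonneg.2 q3)]

theorem sch (d0 : -1 < D) (d1 : D ≤ -15 / 16) (F0 : 0 < F) (F1 : F ≤ 15 / 16) {r : ℝ} (r0 : 0 < r)
    (r1 : r ≠ 1) (h : 3 * ((1 + D) * F) ≤ (1 + 2 * D) * (F - 1) * r ∨ 17 / 25 ≤ r) :
    SchAt2 D F r := by
  obtain ⟨A, hA⟩ : ∃ A, A = (1 + 2 * D) * (F - 1) := ⟨_, rfl⟩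
  obtain ⟨B, hB⟩ : ∃ B, B = D * (F - 2) := ⟨_, rfl⟩
  obtain ⟨C, hC⟩ : ∃ C, C = (1 + D) * F := ⟨_, rfl⟩
  have A0 : 7 / 8 * (1 - F) ≤ A := by rw [hA]; nlinarith
  have A1 : A ≤ 1 - F := by rw [hA]; nlinarith
  have B0 : 15 / 16 * (2 - F) ≤ B := by rw [hB]; nlinarith
  have C0 : 0 < C := by rw [hC]; nlinarith
  have C1 : C ≤ F / 16 := by rw [hC]; nlinarith
  have e0 : B = A + 1 - C := by rw [hA, hB, hC]; ring
  have e2 : sv2 D F r = C - A * r + B * r * r := by rw [hA, hB, hC, sv2]; ring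
  have eW : svW D F r = A - 2 * (B * r) := by rw [hA, hB, svW]; ring
  have eS : svS D F r = r * ((8 - 6 * F) * (B * r) ^ 2 + (9 * F - 5) * (B * r) * A +
      (2 - 3 * F) * A ^ 2) - C * (6 * (2 + F) * (B * r) - 3 * (1 + F) * A) := by
    rw [svS, eW, e2, hA, hB]; ring
  rw [← hA, ← hC] at h
  have Ap : 0 < A := by linarith
  have h' : 3 * C ≤ A * r ∨ (3 / 4 ≤ F ∧ 17 / 25 ≤ r) := by
    rcases h with h | h
    · exact Or.inl h
    rcases le_total F (3 / 4) with k | k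
    · exact Or.inl (by nlinarith)
    · exact Or.inr ⟨k, h⟩
  have hW : 0 ≤ sv2 D F r → A < 2 * (B * r) := fun k ↦ by
    rcases h' with h | h
    · by_contra l
      have := mul_le_mul_of_nonneg_right (not_lt.1 l) r0.le
      nlinarith
    · nlinarith [h.1, h.2]
  refine ⟨fun k ↦ ?_, fun k ↦ ?_⟩
  · have k1 := hW k.le
    rw [eS]
    rcases h' with h | ⟨h1, h2⟩
    · generalize B * r = X at *
      have p1 : 0 ≤ 2 * (2 + F) * X - (1 + F) * A := by nlinarith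
      have p2 := mul_le_mul_of_nonneg_right h p1
      have p3 : 0 < (8 - 6 * F) * X ^ 2 + (7 * F - 9) * X * A + (3 - 2 * F) * A ^ 2 := by
        nlinarith [sq_nonneg (4 * X - 3 * A), sq_nonneg (2 * X - A), mul_pos Ap Ap,
          mul_nonneg F0.le (sq_nonneg (2 * X - A)), mul_nonneg (sub_nonneg.2 F1)
          (sq_nonneg (5 * X - 3 * A)), mul_nonneg F0.le (mul_pos Ap Ap).le]
      nlinarith [mul_pos r0 p3]
    · exact sch2 h1 F1 h2 Ap A1 B0 C0 C1
  · have k1 := hW k.ge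
    have k2 : r < 1 := by
      refine lt_of_le_of_ne (not_lt.1 fun l ↦ ?_) r1
      have : A * r ≤ B * r * r := by nlinarith
      linarith
    have k3 : 0 < sv1 D r := by
      have : sv1 D r = (1 - r) * (1 + D - D * r) := by rw [sv1]; ring
      rw [this]; exact mul_pos (by linarith) (by nlinarith)
    rw [svA, k, eW]
    nlinarith [mul_pos (mul_pos k3 r0) (sub_pos.2 k1)]

theorem exp38 : 17 / 25 ≤ exp (-(3 / 8 : ℝ)) :=
  le_trans (by norm_num) (one_sub_div_pow_le_exp_neg (n := 8) (t := 3 / 8) (by norm_num))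

theorem psi_lt (d0 : -1 < D) (d1 : D ≤ -15 / 16) (F0 : 0 < F) (F1 : F ≤ 15 / 16) {a b : ℝ}
    (a0 : a < 0) (b0 : 0 < b)
    (h : 3 * ((1 + D) * F) ≤ (1 + 2 * D) * (F - 1) * exp (-b) ∨ b ≤ 3 / 8) :
    Dg D F (Dg D F (uR F)) a < Dg D F (Dg D F (uR F)) b := by
  have h1 := psi_side (F := F) (σ := 1) (Or.inl rfl) b0 (mem d0 d1 _) fun t ht ↦
    sch d0 d1 F0 F1 (exp_pos _) (by simpa using ht.1.ne') (by
      have k := exp_le_exp.2 (show -b ≤ -(1 * t) by linarith [ht.2])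
      refine h.imp (fun h ↦ h.trans (mul_le_mul_of_nonneg_left k (by nlinarith))) fun h ↦ ?_
      exact (exp38.trans (exp_le_exp.2 (neg_le_neg h))).trans k)
  have h2 := psi_side (F := F) (σ := -1) (b := -a) (Or.inr rfl) (by linarith) (mem d0 d1 _)
    fun t ht ↦ sch d0 d1 F0 F1 (exp_pos _) (by simpa using ht.1.ne') (Or.inr (by
      have := one_le_exp (show 0 ≤ -(-1 * t) by linarith [ht.1]); linarith))
  simp only [one_mul, neg_mul, neg_neg] at h1 h2
  linarith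

variable (D F) in
/-- the normalised potential -/
noncomputable def wL (t : ℝ) : ℝ := vR D F t * exp ((2 - 2 * F) * t)

variable (D) in
/-- the normalised first derivative -/
noncomputable def qL (t : ℝ) : ℝ := (1 - exp t) * om D t

variable (D F) in
/-- the normalised second derivative -/
noncomputable def fL (t : ℝ) : ℝ :=
  (1 + D) * F * exp t ^ 2 - (1 + 2 * D) * (F - 1) * exp t + D * (F - 2)

theorem qL_pos (ht : t ∈ JR D) (h : t < 0) : 0 < qL D t :=
  mul_pos (sub_pos.2 (exp_lt_one_iff.2 h)) ht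

theorem forms (ht : t ∈ JR D) (h : t < 0) :
    Dg D F (Dg D F (uR F)) t * qL D t ^ 3 =
      exp (F * t) * exp ((2 - 2 * F) * t) * (wL D F t * fL D F t - qL D t ^ 2) ∧
    (1 - F * phi4 D F t) * qL D t ^ 3 =
      exp (F * t) * (qL D t ^ 3 + 2 * F * wL D F t * qL D t ^ 2 - F * wL D F t ^ 2 * fL D F t) := by
  have q0 := (qL_pos ht h).ne'
  have s0 := (exp_pos t).ne'
  have y0 := (exp_pos (F * t)).ne'
  have e1 : exp ((2 - 2 * F) * t) = exp t ^ 2 / exp (F * t) ^ 2 := by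
    rw [eq_div_iff (by positivity), sq, sq, ← exp_add, ← exp_add, ← exp_add]; ring_nf
  have e2 : sφ D F t = -(exp (F * t) * qL D t / exp t ^ 2) := by
    rw [sφ, sv1_eq, qL, exp_neg]; field_simp; ring
  have e3 : sv2 D F (exp (-t)) = fL D F t / exp t ^ 2 := by
    rw [sv2, fL, exp_neg]; field_simp
  have e4 : uR F t * F = exp (F * t) - 1 := by rw [mul_comm, F_uR]
  constructor
  · rw [psi_eq ht h.ne, e2, e3, wL, e1]; field_simp; ring
  · rw [phi4_form ht h.ne, e2, e3, wL, e1, mul_sub F, mul_comm F (uR F t), e4]; field_simp; ring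

theorem left_x {κ : ℝ} (t0 : t < 0) (h : ∀ s ∈ Ioo t 0, κ * om D s ≤
    ((2 - 2 * F) * (1 - exp s) + 2 * exp s) * om D s - (1 - exp s) * ((1 + D) * exp s)) :
    κ * wL D F t ≤ 2 * (1 - exp t) * qL D t := by
  have d : ∀ s, HasDerivAt (fun s ↦ 2 * exp ((2 * F - 2) * s) * ((1 - exp s) ^ 2 * om D s) -
      κ * vR D F s) (-(2 * exp ((2 * F - 2) * s) * (1 - exp s)) *
      (((2 - 2 * F) * (1 - exp s) + 2 * exp s) * om D s - (1 - exp s) * ((1 + D) * exp s) -
        κ * om D s)) s := fun s ↦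
    ((((dey s).const_mul 2).mul ((((hasDerivAt_exp s).const_sub 1).pow 2).mul
      (((hasDerivAt_exp s).const_mul (1 + D)).sub_const D))).sub
      ((hasDerivAt_vR D F s).const_mul κ)).congr_deriv (by
        simp only [WR, om, Pi.pow_apply, Pi.mul_apply]; push_cast; ring)
  have := antitoneOn_of_deriv_nonpos (convex_Icc t 0)
    (fun s _ ↦ (d s).continuousAt.continuousWithinAt)
    (fun s _ ↦ (d s).differentiableAt.differentiableWithinAt) (fun s hs ↦ by
      rw [interior_Icc] at hs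
      rw [(d s).deriv]
      have := sub_pos.2 (exp_lt_one_iff.2 hs.2)
      exact mul_nonpos_of_nonpos_of_nonneg (neg_nonpos.2 (by positivity)) (sub_nonneg.2 (h s hs)))
    ⟨le_rfl, t0.le⟩ ⟨t0.le, le_rfl⟩ t0.le
  simp only [vR, exp_zero, sub_self] at this
  have e : exp ((2 * F - 2) * t) * exp ((2 - 2 * F) * t) = 1 := by rw [← exp_add]; ring_nf; simp
  have h2 := mul_le_mul_of_nonneg_right this (exp_pos ((2 - 2 * F) * t)).le
  simp only [wL, qL, vR]
  linear_combination h2 + 2 * ((1 - exp t) ^ 2 * om D t) * e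

theorem left_xi (d0 : -1 < D) (d1 : D ≤ -15 / 16) (t0 : t < 0) : ∃ ξ p, 0 ≤ ξ ∧ 0 < p ∧ p < 1 ∧
    wL D F t = 2 * ξ * p * qL D t ∧ qL D t ≤ 1 ∧ p * fL D F t ≤ qL D t * (1 + (1 - F) * p) ∧
    (1 / 4 ≤ F → F ≤ 1 → (2 - 2 * F) * ξ ≤ 1) ∧ (F ≤ 1 / 2 ∨ (F ≤ 15 / 16 ∧ -11 / 16 ≤ t) → ξ ≤ 1) := by
  have hJ := mem d0 d1
  have q0 := qL_pos (hJ t) t0
  have s0 := exp_pos t
  have p0 := sub_pos.2 (exp_lt_one_iff.2 t0)
  have w0 : 0 < wL D F t := mul_pos (vR_pos (hJ t) t0.ne) (exp_pos _)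
  have pq : 0 < 2 * (1 - exp t) * qL D t := by positivity
  have om1 : ∀ s, 15 / 16 ≤ om D s := fun s ↦ by
    have := mul_pos (show 0 < 1 + D by linarith) (exp_pos s)
    rw [om]; linarith
  have key : ∀ κ, (∀ s ∈ Ioo t 0, κ * om D s ≤ ((2 - 2 * F) * (1 - exp s) + 2 * exp s) * om D s -
      (1 - exp s) * ((1 + D) * exp s)) → κ * (wL D F t / (2 * (1 - exp t) * qL D t)) ≤ 1 :=
    fun κ h ↦ by rw [← mul_div_assoc, div_le_one pq]; exact left_x t0 h
  have aux : ∀ s, s < 0 → (1 - exp s) * ((1 + D) * exp s) ≤ exp s / 15 * om D s := fun s hs ↦ by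
    have h1 := exp_pos s
    have h2 := exp_lt_one_iff.2 hs
    have : (1 - exp s) * (1 + D) ≤ om D s / 15 := by nlinarith [om1 s]
    nlinarith
  refine ⟨wL D F t / (2 * (1 - exp t) * qL D t), 1 - exp t, by positivity, p0, by linarith,
    by field_simp, ?_, ?_, fun f0 f1 ↦ key _ fun s hs ↦ ?_, fun h ↦ ?_⟩
  · simp only [qL, om]
    nlinarith [mul_pos (show 0 < 1 + D by linarith) p0, om1 t]
  · have : qL D t * (1 + (1 - F) * (1 - exp t)) - (1 - exp t) * fL D F t =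
        (1 - exp t) ^ 2 * ((1 + D) * exp t) := by simp only [qL, fL, om]; ring
    have h2 : 0 ≤ (1 - exp t) ^ 2 * ((1 + D) * exp t) :=
      mul_nonneg (sq_nonneg _) (mul_pos (by linarith) s0).le
    linarith
  · have h1 := mul_pos (exp_pos s) (hJ s)
    nlinarith [aux s hs.2]
  · refine (one_mul _).ge.trans (key 1 fun s hs ↦ ?_)
    have h0 : 0 < om D s := hJ s
    have h1 := mul_pos (exp_pos s) h0
    have h2 := mul_pos (sub_pos.2 (exp_lt_one_iff.2 hs.2)) h0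
    rcases h with h | ⟨h, h'⟩
    · nlinarith [aux s hs.2]
    · have h3 : 1 / 2 ≤ exp s := le_trans (le_trans (by norm_num)
        (one_sub_div_pow_le_exp_neg (n := 64) (t := 11 / 16) (by norm_num)))
        (exp_le_exp.2 (by linarith [hs.1]))
      have h4 := exp_lt_one_iff.2 hs.2
      have h5 : (1 + D) * exp s ≤ (2 - 2 * F) * om D s := by nlinarith [om1 s]
      nlinarith [mul_le_mul_of_nonneg_left h5 (sub_pos.2 h4).le]

end Pool.Agent.Lib.MP_d6150d_an.S2
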