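import Pool.Agent.Lib.MP_d6150d_an.GDef

/-! A generated chart: the program. -/

namespace Pool.Agent.Lib.MP_d6150d_an.S2l

def prog1 : List Ins := .sub true 43 24 :: .mul 52 0 :: .add true 2 0 :: .mul 12 0 :: .sub true 0 50
    :: .mul 46 0 :: .smul 3 16 :: .add false 16 0 :: .mul 2 0 :: .sub false 53 0 :: .cpy 0 :: []

def prog : List Ins := .int 1 :: .var 2 :: .exp 0 :: .sub true 2 0 :: .var 0 :: .add true 4 0 ::
    .mul 0 3 :: .sub false 0 2 :: .mul 4 0 :: .mul 0 0 :: .mul 0 1 :: .smul 2 0 :: .var 1 :: .mul 0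
    11 :: .exp 0 :: .mul 13 13 :: .smul 2 3 :: .mul 0 15 :: .tri 0 :: .mul 4 0 :: .sub true 5 21 ::
    .mul 0 21 :: .tri 0 :: .mul 4 0 :: .sub false 6 0 :: .smul 2 1 :: .sub false 8 0 :: .int 2 ::
    .sub true 15 0 :: .mul 0 31 :: .tri 0 :: .mul 4 0 :: .add true 7 0 :: .mul 34 0 :: .add true 11
    0 :: .smul 2 0 :: .mul 26 0 :: .sub true 11 26 :: .mul 0 42 :: .exp 0 :: .mul 3 0 :: .mul 41 34
    :: .mul 45 45 :: .mul 1 0 :: .smul 2 45 :: .add true 50 0 :: .sub true 39 51 :: .mul 1 0 :: .mul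
    0 51 :: .sub false 5 0 :: prog1

def vs : List Vr := [⟨2, 0, false, false⟩, ⟨3, 0, false, false⟩, ⟨5, 0, false, false⟩]

def C : Chart := ⟨vs, prog, [], 1, 3⟩

end Pool.Agent.Lib.MP_d6150d_an.S2l
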