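import Pool.Agent.Lib.MP_d6150d_an.GDef

/-! A generated chart: the program. -/

namespace Pool.Agent.Lib.MP_d6150d_an.S2m

def prog1 : List Ins := .mul 1 0 :: .smul 2 51 :: .add true 56 0 :: .sub true 45 57 :: .mul 1 0 ::
    .mul 0 57 :: .sub false 5 0 :: .sub true 49 32 :: .mul 58 0 :: .add false 2 0 :: .mul 12 0 ::
    .sub true 15 0 :: .mul 19 0 :: .add false 56 0 :: .cpy 0 :: []

def prog : List Ins := .cst 32 5 :: .int 1 :: .var 2 :: .exp 0 :: .sub true 2 0 :: .var 0 :: .add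
    true 4 0 :: .mul 0 3 :: .sub false 0 2 :: .mul 4 0 :: .mul 0 0 :: .mul 0 1 :: .mul 11 0 :: .var
    1 :: .smul 2 0 :: .sub true 0 13 :: .mul 0 13 :: .tri 0 :: .mul 17 17 :: .mul 6 18 :: .tri 0 ::
    .mul 10 0 :: .mul 10 6 :: .sub false 1 0 :: .smul 2 1 :: .sub false 3 0 :: .int 2 :: .sub true
    16 0 :: .mul 0 29 :: .tri 0 :: .mul 4 0 :: .add true 7 0 :: .mul 32 0 :: .add true 11 0 :: .smul
    2 0 :: .mul 20 0 :: .sub true 11 27 :: .mul 0 40 :: .exp 0 :: .mul 3 0 :: .int 4 :: .add false 1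
    0 :: .mul 30 0 :: .mul 34 3 :: .mul 0 39 :: .add false 39 0 :: .mul 6 6 :: .mul 39 0 :: .mul 47
    40 :: .mul 51 51 :: prog1

def vs : List Vr := [⟨2, 0, false, false⟩, ⟨3, 0, false, false⟩, ⟨5, 0, false, false⟩]

def C : Chart := ⟨vs, prog, [], 1, 3⟩

end Pool.Agent.Lib.MP_d6150d_an.S2m
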