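import Pool.Agent.Lib.MP_d6150d_an.GDef

/-! A generated chart: the program. -/

namespace Pool.Agent.Lib.MP_d6150d_an.S2p

def prog2 : List Ins := .sub false 1 0 :: .sub true 115 122 :: .mul 0 0 :: .smul 3 0 :: .mul 125 29
    :: .exp 0 :: .smul 2 0 :: .sub false 3 0 :: .cpy 0 :: .cpy 8 :: .cpy 36 :: .cpy 77 :: []

def prog1 : List Ins := .mul 60 0 :: .mul 54 6 :: .tri 0 :: .mul 58 0 :: .sub false 5 0 :: .smul 2 1
    :: .sub false 7 0 :: .mul 51 14 :: .tri 0 :: .mul 55 0 :: .add true 5 0 :: .mul 61 0 :: .add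
    true 9 0 :: .smul 2 0 :: .mul 22 0 :: .mul 79 0 :: .smul 2 9 :: .exp 26 :: .sub false 0 76 ::
    .add true 77 69 :: .mul 0 2 :: .sub false 0 71 :: .mul 3 0 :: .mul 6 0 :: .sub false 8 0 :: .cst
    24 5 :: .cst 1 4 :: .sub true 92 0 :: .mul 2 0 :: .sub false 4 0 :: .int (-6) :: .mul 0 0 ::
    .mul 96 1 :: .tri 0 :: .mul 100 0 :: .mul 94 6 :: .tri 0 :: .mul 98 0 :: .sub false 5 0 :: .smul
    2 1 :: .sub false 7 0 :: .mul 91 14 :: .tri 0 :: .mul 95 0 :: .add true 5 0 :: .mul 101 0 ::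
    .add true 9 0 :: .smul 2 0 :: .mul 22 0 :: .int 9 :: prog2

def prog : List Ins := .cst 3 8 :: .mul 0 0 :: .var 1 :: .smul 2 0 :: .mul 0 3 :: .tri 0 :: .mul 4 0
    :: .int 1 :: .sub true 6 0 :: .mul 0 10 :: .tri 0 :: .mul 4 0 :: .sub false 7 0 :: .var 0 ::
    .smul 2 2 :: .sub false 10 0 :: .int 2 :: .sub true 17 0 :: .mul 0 21 :: .tri 0 :: .mul 4 0 ::
    .add true 7 0 :: .mul 10 0 :: .add true 12 0 :: .smul 2 0 :: .mul 29 0 :: .cst (-9) 32 :: .mul 0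
    0 :: .mul 30 1 :: .tri 0 :: .mul 34 0 :: .mul 28 6 :: .tri 0 :: .mul 32 0 :: .sub false 5 0 ::
    .smul 2 1 :: .sub false 7 0 :: .mul 25 14 :: .tri 0 :: .mul 29 0 :: .add true 5 0 :: .mul 35 0
    :: .add true 9 0 :: .smul 2 0 :: .mul 22 0 :: .sub false 25 0 :: .int 3 :: .mul 0 0 :: .mul 56 1
    :: .tri 0 :: prog1

def vs : List Vr := [⟨2, 0, false, false⟩, ⟨6, 0, false, false⟩]

def C : Chart := ⟨vs, prog, [], 4, 3⟩

end Pool.Agent.Lib.MP_d6150d_an.S2p
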