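import Pool.Agent.Lib.MP_d6150d_an.GDef

/-! A generated chart: the program. -/

namespace Pool.Agent.Lib.MP_d6150d_an.S2r

def prog1 : List Ins := .sub true 38 0 :: .int 3 :: .add false 0 12 :: .mul 2 0 :: .mul 42 43 ::
    .smul 2 0 :: .sub false 2 0 :: .cpy 0 :: []

def prog : List Ins := .var 1 :: .var 2 :: .mul 1 0 :: .exp 0 :: .int 1 :: .var 0 :: .add true 1 0
    :: .smul 2 1 :: .add true 3 0 :: .smul (-1) 7 :: .exp 0 :: .mul 2 0 :: .sub false 5 0 :: .mul 2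
    2 :: .mul 8 0 :: .add true 2 0 :: .mul 12 0 :: .mul 0 0 :: .mul 16 16 :: .smul 2 18 :: .mul 0 18
    :: .tri 0 :: .mul 4 0 :: .sub true 5 20 :: .mul 0 24 :: .tri 0 :: .mul 4 0 :: .sub false 6 0 ::
    .smul 2 1 :: .sub false 8 0 :: .int 2 :: .sub true 15 0 :: .mul 0 34 :: .tri 0 :: .mul 4 0 ::
    .add true 7 0 :: .mul 36 0 :: .add true 11 0 :: .smul 2 0 :: .mul 26 0 :: .mul 39 45 :: .sub
    true 46 42 :: .mul 39 0 :: .mul 0 38 :: .sub false 3 0 :: .sub true 50 16 :: .mul 46 0 :: .mul 0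
    39 :: .add true 3 0 :: .mul 9 0 :: prog1

def vs : List Vr := [⟨2, 0, false, false⟩, ⟨3, 0, false, false⟩, ⟨5, 0, false, false⟩]

def C : Chart := ⟨vs, prog, [], 1, 3⟩

end Pool.Agent.Lib.MP_d6150d_an.S2r
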