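import Pool.Agent.Lib.MP_d6150d_an.GDef

/-! A generated chart: the program. -/

namespace Pool.Agent.Lib.MP_d6150d_an.S2t

def prog : List Ins := .cst 4 25 :: .int 2 :: .var 0 :: .smul 2 0 :: .sub true 2 0 :: .mul 0 0 ::
    .mul 0 0 :: .mul 0 2 :: .mul 7 0 :: .int 1 :: .sub true 6 0 :: .mul 0 0 :: .smul 2 0 :: .smul
    (-8) 2 :: .exp 0 :: .mul 0 0 :: .mul 3 0 :: .sub false 8 0 :: .cpy 0 :: []

def vs : List Vr := [⟨8, 0, false, false⟩]

def C : Chart := ⟨vs, prog, [], 1, 3⟩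

end Pool.Agent.Lib.MP_d6150d_an.S2t
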