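import Pool.Agent.Lib.MP_d6150d_an.S1LKey

/-! The strip `F` just below `2`, `-1 / 2 < D`: the operator and the algebraic identities. -/

namespace Pool.Agent.Lib.MP_d6150d_an.S6B

open Real Set Filter Topology Asymptotics

/-- the data of the operator and of the separator -/
structure Co where
  be : ℝ
  dl : ℝ
  y1 : ℝ
  y2 : ℝ
  e0 : ℝ
  e1 : ℝ
  e2 : ℝ
  ik : ℝ

variable (c : Co) (D F t : ℝ)

def Co.Q0 : ℝ := c.be * c.dl + c.y1 + c.y2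
def Co.Q1 : ℝ := -(c.be * c.dl + 2 * c.y1 + 3 * c.y2)
def Co.R1 : ℝ := 2 * (c.be * c.dl) + c.dl + 4 * c.y1 + 5 * c.y2 + 1

def Co.op : Gp := ⟨0, c.Q0, -4 * c.Q0, 0, c.Q1 * c.ik, c.R1 * c.ik, 0, (c.y1 + 3 * c.y2) * c.ik ^ 2,
  -c.ik ^ 2, 0, -c.y2 * c.ik ^ 3, 0⟩

/-- the separator -/
noncomputable def Co.sep (v : ℝ) : ℝ :=
  (8 * c.Q0 * ja4 D F + 2 * (3 * c.Q1 + c.R1) * c.ik * ja2 D F) * v ^ 2 +
    v ^ 3 * (c.ik ^ 3 * (c.e0 + (1 - c.ik * v) * (c.e1 + c.e2 * (1 - c.ik * v))))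

/-- the kernel minus the separator -/
noncomputable def Co.dB : ℝ := c.op.K D F t - c.sep D F (vR D F t)

/-- the expression computed near the center -/
noncomputable def Co.gC : ℝ :=
  let mu := muR D F t
  let zt := c.ik * mu
  let z := t ^ 2 * zt
  let p := pjR F ((1 + D) * exp (t / 2)) ((1 + 2 * D) * exp (-(t / 2))) (D * exp (-(t / 2)) ^ 3)
  let W5 := (wS D t ^ 2) ^ 2 * wS D t * exp (-(F * t))
  let u0 := W5 * ph1 (F * t)
  let u1 := 2 * (yS D F t * (wS D t ^ 2) ^ 2)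
  let u2 := 4 * (yS D F t ^ 2 * p.1 * wS D t ^ 2)
  let u3 := 8 * (yS D F t ^ 3 * p.2.1)
  W5 * (t ^ 3 * (mu * (8 * c.Q0 * ja4 D F * mu + 2 * (3 * c.Q1 + c.R1) * ja2 D F * zt) +
    t ^ 2 * zt ^ 3 * (c.e0 + (1 - z) * (c.e1 + c.e2 * (1 - z))))) -
    (c.Q0 * (u3 + u2 - 2 * (W5 * (mu * (√mu)⁻¹))) + z * (c.Q1 * (u3 + 6 * u2 + 3 * u1) +
      c.R1 * (u2 + u1) + z * ((c.y1 + 3 * c.y2) * (u3 + 7 * u2 + 5 * u1 - u0) - (u2 + 2 * u1 - u0) -
        z * c.y2 * (u3 + 9 * u2 + 9 * u1 - 3 * u0))))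

variable {c D F t}

theorem dB_center : c.dB D F =O[𝓝 0] fun t ↦ t ^ 5 := by
  obtain ⟨a6, J⟩ := c.op.K_jet (D := D) (F := F)
  exact (J.cast rfl rfl rfl (by simp only [Co.op]; ring) (by simp only [Co.op]; ring) rfl
    rfl).center5 (E := fun v ↦ c.ik ^ 3 * (c.e0 + (1 - c.ik * v) * (c.e1 + c.e2 * (1 - c.ik * v))))
      (by fun_prop)

theorem U_sc {l s P Q R Y W : ℝ} (ht : t ∈ JR D) (h0 : t ≠ 0) (hs : s ≠ 0)
    (hP : P = l * PR D t) (hQ : Q = l * QR D t) (hR : R = l * D) (hY : s ^ 2 * Y = l * yR D F t)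
    (hW : s * W = l * wR D t) : W ^ 5 * U1 D F t = s * exp (F * t) * (Y * W ^ 4) ∧
      W ^ 5 * U2 D F t = s * exp (F * t) * (Y ^ 2 * (pjR F P Q R).1 * W ^ 2) ∧
      W ^ 5 * U3 D F t = s * exp (F * t) * (Y ^ 3 * (pjR F P Q R).2.1) := by
  have hw := wR_ne ht h0
  obtain rfl : Y = l * yR D F t / s ^ 2 := by rw [← hY]; field_simp
  obtain rfl : W = l * wR D t / s := by rw [← hW]; field_simp
  subst hP hQ hR
  simp only [pjR_smul, U1, U2, U3]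
  refine ⟨?_, ?_, ?_⟩ <;> field_simp

theorem gC_eq (ht : t ∈ JR D) (h0 : t ≠ 0) :
    c.gC D F t * (t * exp (F * t)) = -(wS D t ^ 5 * c.dB D F t) := by
  have h1 := half_mul t
  have h2 : exp (F * t) * exp (-(F * t)) = 1 := by rw [← exp_add]; simp
  have h3 : exp ((2 - 2 * F) * t) = exp (t / 2) ^ 4 * exp (-(F * t)) ^ 2 := by
    rw [← exp_nat_mul, ← exp_nat_mul, ← exp_add]; congr 1; push_cast; ring
  obtain ⟨u1, u2, u3⟩ := U_sc (F := F) (l := exp (-(t / 2)) ^ 3) (P := (1 + D) * exp (t / 2))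
    (Q := (1 + 2 * D) * exp (-(t / 2))) (R := D * exp (-(t / 2)) ^ 3) (Y := yS D F t) ht h0 h0
    (by rw [PR, half_sq t]
        generalize exp (t / 2) = x, exp (-(t / 2)) = z at *
        linear_combination -(1 + D) * x * ((x * z) ^ 2 + x * z + 1) * h1)
    (by rw [QR, half_sq t]
        generalize exp (t / 2) = x, exp (-(t / 2)) = z at *
        linear_combination -(1 + 2 * D) * z * (x * z + 1) * h1) (mul_comm _ _)
    (by rw [yR, yS, vR, h3]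
        generalize exp (t / 2) = x, exp (-(t / 2)) = z at *
        linear_combination -(t ^ 2 * muR D F t * exp (-(F * t)) ^ 2 * x / 2) *
          ((x * z) ^ 2 + x * z + 1) * h1) (wS_eq D t)
  have h4 : muR D F t * (√(muR D F t))⁻¹ = √(muR D F t) := by
    rw [← div_eq_mul_inv, div_sqrt]
  rw [Co.dB, Gp.K_eq ht h0]
  simp only [Co.gC, Co.sep, Co.op, Gp.P, Gp.C3, Gp.C2, Gp.C1, Gp.C0, h4, vR, gR, uR]
  generalize √(muR D F t) = sm at *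
  generalize pjR F _ _ _ = p, muR D F t = mu, wS D t = W, yS D F t = Y,
    ph1 (F * t) = ph, exp (F * t) = y, exp (-(F * t)) = yi, c.Q0 = Q0, c.Q1 = Q1, c.R1 = R1,
    c.y1 + 3 * c.y2 = Q2, ja2 D F = j2, ja4 D F = j4 at *
  obtain ⟨z, hz⟩ : ∃ z, z = t ^ 2 * (c.ik * mu) := ⟨_, rfl⟩
  have := congrArg (· * (W ^ 5 * t * (t ^ 3 * (mu * (8 * Q0 * j4 * mu + 2 * (3 * Q1 + R1) * j2 *
    (c.ik * mu)) + t ^ 2 * (c.ik * mu) ^ 3 * (c.e0 + (1 - z) * (c.e1 + c.e2 * (1 - z)))) +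
      2 * Q0 * sm + z ^ 2 * ph * (Q2 - 1 - 3 * z * c.y2)))) h2
  subst hz
  linear_combination this + 8 * (Q0 + t ^ 2 * (c.ik * mu) * (Q1 + t ^ 2 * (c.ik * mu) *
    (Q2 - t ^ 2 * (c.ik * mu) * c.y2))) * u3 + 4 * (Q0 + t ^ 2 * (c.ik * mu) * (6 * Q1 + R1 +
      t ^ 2 * (c.ik * mu) * (7 * Q2 - 1 - 9 * t ^ 2 * (c.ik * mu) * c.y2))) * u2 +
    2 * (t ^ 2 * (c.ik * mu) * (3 * Q1 + R1 + t ^ 2 * (c.ik * mu) *
      (5 * Q2 - 2 - 9 * t ^ 2 * (c.ik * mu) * c.y2))) * u1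

theorem gC_bigO : c.gC D F =O[𝓝[≠] 0] fun t ↦ t ^ 4 := by
  have h1 := (ph1_an 0).continuousAt
  have h3 : ContinuousAt (fun t : ℝ ↦ ph1 (t / 2)) 0 :=
    ContinuousAt.comp_of_eq (g := ph1) (f := fun t : ℝ ↦ t / 2) h1 (by fun_prop) (zero_div _)
  have h4 : ContinuousAt (fun t ↦ -wS D t ^ 5 / exp (F * t)) 0 := by
    unfold wS
    exact ContinuousAt.div (by fun_prop) (by fun_prop) (exp_pos _).ne'
  refine ((((dB_center (c := c) (D := D) (F := F)).mul (h4.isBigO_one ℝ)).mono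
    nhdsWithin_le_nhds).mul (isBigO_refl (fun t : ℝ ↦ t⁻¹) _)).congr' ?_ ?_
  · filter_upwards [self_mem_nhdsWithin,
      nhdsWithin_le_nhds ((JR_open _).mem_nhds (zero_mem_JR D))] with t h0 ht
    have h0 : t ≠ 0 := h0
    have := gC_eq (c := c) (F := F) ht h0
    field_simp
    linarith
  · filter_upwards [self_mem_nhdsWithin] with t h0
    have h0 : t ≠ 0 := h0
    field_simp

theorem gC_right : c.gC D F =O[𝓝[>] 0] fun t ↦ t ^ 4 :=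
  gC_bigO.mono (nhdsWithin_mono _ fun _ h ↦ ne_of_gt h)

theorem gC_left : (fun u ↦ c.gC D F (-u)) =O[𝓝[>] 0] fun t ↦ t ^ 4 := by
  have T : Tendsto (fun u : ℝ ↦ -u) (𝓝[>] 0) (𝓝[≠] 0) := by
    simpa using (tendsto_neg_nhdsGT (a := (0 : ℝ))).mono_right (nhdsLT_le_nhdsNE _)
  exact (gC_bigO.comp_tendsto T).congr (fun u ↦ rfl) fun u ↦ by simp only [Function.comp]; ring

theorem dB_sign (ht : t ∈ JR D) (h0 : t ≠ 0) (h : 0 < c.gC D F t) : t * c.dB D F t < 0 := by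
  have h3 : 0 < c.gC D F t * (t ^ 2 * exp (F * t)) := by positivity
  refine neg_of_mul_neg_right (a := wS D t ^ 5) ?_ (pow_pos (wS_pos ht) 5).le
  linear_combination h3 + t * gC_eq (c := c) (F := F) ht h0

theorem gC_iso (hD : D = -(1 / 2)) (hF : F = 2) (h0 : c.e0 = 0) (h1 : c.e1 = 0) (h2 : c.e2 = 0) :
    c.gC D F t = 0 := by
  subst hD hF
  have m1 := half_mul t
  have m2 : exp (-(2 * t)) = exp (-(t / 2)) ^ 4 := by
    rw [← exp_nat_mul]; congr 1; push_cast; ring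
  have m3 : exp (2 * t) = exp (t / 2) ^ 4 := by rw [← exp_nat_mul]; congr 1; push_cast; ring
  have e2 := exp_eq_ph (2 * t)
  have m4 : muR (-(1 / 2)) 2 t = ph1 (2 * t) ^ 2 := by
    by_cases h : t = 0
    · simp [h, muR_zero, ph1_zero]
    apply mul_left_cancel₀ (pow_ne_zero 2 h)
    have e3 := exp_eq_ph (2 * 2 * t)
    rw [show exp (2 * 2 * t) = exp (2 * t) ^ 2 by rw [sq, ← exp_add]; congr 1; ring] at e3
    rw [← vR, vR_eq, show (2 * 2 - 2) * t = 2 * t by ring]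
    linear_combination -1 / 4 * e3 + (exp (2 * t) + 1 + 2 * t * ph1 (2 * t)) / 4 * e2
  have m5 : ph1 (2 * t) * exp (-(t / 2)) ^ 3 = wS (-(1 / 2)) t := by
    by_cases h : t = 0
    · simp [h, wS, ph1_zero]
    apply mul_left_cancel₀ h
    rw [wS_eq, wR_eq, om, half_sq t]
    rw [m3] at e2
    linear_combination -exp (-(t / 2)) ^ 3 / 2 * e2
  have m6 : muR (-(1 / 2)) 2 t * (√(muR (-(1 / 2)) 2 t))⁻¹ = ph1 (2 * t) := by
    rw [← div_eq_mul_inv, div_sqrt, m4, sqrt_sq (ph1_pos _).le]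
  have j2 : ja2 (-(1 / 2)) 2 = 0 := by norm_num [ja2]
  have j4 : ja4 (-(1 / 2)) 2 = 0 := by norm_num [ja4]
  have m7 : yS (-(1 / 2)) 2 t = wS (-(1 / 2)) t ^ 2 * exp (-(t / 2)) / 2 := by
    rw [yS, m4, m2, ← m5]
    linear_combination ph1 (2 * t) ^ 2 * exp (-(t / 2)) ^ 7 / 2 * m1
  have m8 : (wS (-(1 / 2)) t ^ 2) ^ 2 * wS (-(1 / 2)) t * exp (-(2 * t)) * ph1 (2 * t) =
      wS (-(1 / 2)) t ^ 6 * exp (-(t / 2)) := by
    rw [m2]; linear_combination wS (-(1 / 2)) t ^ 5 * exp (-(t / 2)) * m5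
  simp only [Co.gC, m6, m7, m8, h0, h1, h2, j2, j4, pjR]
  generalize exp (t / 2) = x, exp (-(t / 2)) = z, wS (-(1 / 2)) t = W,
    t ^ 2 * (c.ik * muR (-(1 / 2)) 2 t) = y at *
  linear_combination -W ^ 6 * z * (3 * (x * z + 1) * (c.Q0 + y * (c.Q1 + y * (c.y1 + 3 * c.y2 -
    y * c.y2))) - (c.Q0 + y * (6 * c.Q1 + c.R1 + y * (7 * (c.y1 + 3 * c.y2) - 1 - 9 * y * c.y2)))) * m1

end Pool.Agent.Lib.MP_d6150d_an.S6B
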