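import Pool.Agent.Lib.MP_d6150d_an.S6BKey

/-! The strip `F` just below `2`, `-1 / 2 < D`: the closed form on the left branch. -/

namespace Pool.Agent.Lib.MP_d6150d_an.S6B

open Real Set

theorem alg {be dl ik s n Z iw v X e qq p2 p3 U1 U2 U3 La Lb Qt A1 C21 C1 : ℝ}
    (hX : X = Z * qq * ik) (hz : ik * v = 1 - X) (hs : s ^ 2 = n ^ 2 * Z)
    (hA : Qt * (1 - X) = be * dl + X * A1)
    (hL : be * (qq * iw) * p3 + (1 - 3 * be) * p2 = -(e * s * iw * La + s ^ 2 * iw * Lb))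
    (a1 : U1 = -(n * (iw * v) / 2)) (a2 : s ^ 2 * U2 = -(n ^ 3 * (iw * v) ^ 2 * p2 / 4))
    (a3 : s ^ 2 * Z * U3 = -(n ^ 3 * (iw * v) ^ 3 * p3 / 8)) :
    s ^ 2 * (8 * (X * Qt) * U3 + (24 * (X * Qt) + 4 * (dl - 3 * (be * dl) + X * C21)) * U2 +
      (8 * (X * Qt) + 4 * (dl - 3 * (be * dl) + X * C21) + 2 * C1) * U1) =
    s * (dl * iw ^ 3 * v ^ 2 * n ^ 3 * (e * La + s * Lb)) - s ^ 2 * (n * iw * (v * (v * ik *
      (qq * iw) * (A1 * (qq * iw) * p3 + (6 * Qt + C21) * p2) + (4 * (X * Qt) +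
        2 * (dl - 3 * (be * dl) + X * C21) + C1)))) := by
  linear_combination (8 * Qt * s ^ 2 * U3 - n ^ 3 * iw ^ 2 * v ^ 2 *
    (A1 * (qq * iw) * p3 + (6 * Qt + C21) * p2)) * hX + 8 * Qt * qq * ik * a3 +
    (24 * (X * Qt) + 4 * (dl - 3 * (be * dl) + X * C21)) * a2 +
    s ^ 2 * (8 * (X * Qt) + 4 * (dl - 3 * (be * dl) + X * C21) + 2 * C1) * a1 -
    n ^ 3 * iw ^ 2 * v ^ 2 * (qq * iw) * p3 * (Qt * hz + hA) - n ^ 3 * iw ^ 2 * v ^ 2 * dl * hL +
    n * iw * v ^ 2 * ik * (qq * iw) * (A1 * (qq * iw) * p3 + (6 * Qt + C21) * p2) * hs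

variable (al et s n Z : ℝ)

noncomputable def qq : ℝ := (1 / 2 - et) * (1 / (1 - al)) + 2 * (2 * et * s) * (1 / (2 * (1 - al) + 1)) -
  (1 - (1 / 2 - et)) * s ^ 2 * (1 / (2 - al))

noncomputable def kap : ℝ := (1 / 2 - et) * (1 / (1 - al)) + 2 * (2 * et) * (1 / (2 * (1 - al) + 1)) -
  (1 - (1 / 2 - et)) * (1 / (2 - al))

/-- the coefficients -/
noncomputable def co (ik : ℝ) : Co := ⟨1 - al, (7 - 23 / 2 * et) * (1 / 2 - et) ^ 3,
  129 / 200 - 3 / 5 * et, 11 / 80 * et,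
  et * (53 / 2000 + et * (199 / 625 * et - 1537 / 10000)) + al * (99 / 2000 - 987 / 10000 * et),
  et * (et * (4039 / 5000 - 443 / 400 * et) - 827 / 5000) - al * (21 / 2000 + 101 / 10000 * et),
  et * (1509 / 10000 - et * (749 / 2500 + 2167 / 10000 * et)) + al * (709 / 10000 - 133 / 2500 * et),
  ik⟩

noncomputable def iw : ℝ := 1 / (1 / 2 - et + 2 * et * s - (1 - (1 / 2 - et)) * s ^ 2)

noncomputable def p2 : ℝ := (1 - al) * (2 * et * s * iw et s) - al * ((1 / 2 - et) * iw et s) -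
  (2 - al) * ((1 - (1 / 2 - et)) * s ^ 2 * iw et s)

noncomputable def p3 : ℝ := (3 * (1 - al) - 1) * p2 al et s - (1 - al) * (2 * et * s * iw et s) +
  2 * (2 - al) * ((1 - (1 / 2 - et)) * s ^ 2 * iw et s) -
    3 * (2 * ((1 - (1 / 2 - et)) * s ^ 2 * iw et s) - 2 * et * s * iw et s) * p2 al et s

noncomputable def La : ℝ := (3 * (1 - al) - 1) * p2 al et s * (1 / (2 * (1 - al) + 1)) +
  (1 - al) * (qq al et s * iw et s) * ((1 - al) - 3 * p2 al et s)

noncomputable def Lb : ℝ := (1 - (1 / 2 - et)) * (2 * (1 - al) * (qq al et s * iw et s) *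
  (3 * p2 al et s - (2 - al)) - (3 * (1 - al) - 1) * p2 al et s * (1 / (2 - al)))

noncomputable def XX : ℝ := Z * qq al et s * (1 / kap al et)

noncomputable def gg : ℝ := (7 - 23 / 2 * et) * ((1 / 2 - et) * iw et s) ^ 3 *
  (kap al et * (1 - XX al et s Z)) ^ 2

def Co.Qt (c : Co) (X : ℝ) : ℝ := c.be * c.dl + X * (c.y1 + c.y2 * X)

def Co.C21 (c : Co) (X : ℝ) : ℝ := 1 - 2 * (c.be * c.dl) - c.dl - 6 * c.y1 - 2 * c.y2 +
  X * (c.y1 - 6 * c.y2 - 1 + 3 * c.y2 * X)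

def Co.C1 (c : Co) (z : ℝ) : ℝ := 6 * c.Q0 - z * (c.be * c.dl + c.dl + 2 * c.y1 + 2 * c.y2 + 1 +
  z * (c.y1 + 3 * c.y2 - c.y2 * z))

noncomputable def T2 : ℝ :=
  let c := co al et (1 / kap al et)
  let X := XX al et s Z
  let v := kap al et * (1 - X)
  v * (v * c.ik * (qq al et s * iw et s) * ((c.y1 - c.be * c.dl + X * (c.y2 - c.y1 - c.y2 * X)) *
    (qq al et s * iw et s) * p3 al et s + (6 * c.Qt X + c.C21 X) * p2 al et s) +
      (4 * (X * c.Qt X) + 2 * (c.dl - 3 * (c.be * c.dl) + X * c.C21 X) + c.C1 (1 - X)))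

noncomputable def BB : ℝ :=
  let c := co al et (1 / kap al et)
  let X := XX al et s Z
  let v := kap al et * (1 - X)
  (1 - X) ^ 2 * ((1 - c.y1 - 3 * c.y2 + 3 * c.y2 * (1 - X)) * (n * Z - 1) * (1 / (2 - al)) -
    (1 - X) * (c.e0 + X * (c.e1 + c.e2 * X))) + v * (2 * c.Q0 * (√v)⁻¹ -
      8 * c.Q0 * ja4 (-(1 / 2 - et)) (2 - al) * v - 2 * (c.dl - c.be * c.dl - 2 * c.y1 - 4 * c.y2 + 1) *
        ja2 (-(1 / 2 - et)) (2 - al) * (1 - X))

variable {al et s n Z} {t : ℝ}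

theorem vB (ha : al < 1) (t : ℝ) : vR (-(1 / 2 - et)) (2 - al) t =
    kap al et - exp (2 * (1 - al) * t) * qq al et (exp t) := by
  have h1 := exp_eq_ph (2 * (2 - al) * t)
  have h2 := exp_eq_ph ((2 * (2 - al) - 1) * t)
  have h3 := exp_eq_ph ((2 * (2 - al) - 2) * t)
  have r1 : 1 / (1 - al) * (1 - al) = 1 := one_div_mul_cancel (by linarith)
  have r2 : 1 / (2 * (1 - al) + 1) * (2 * (1 - al) + 1) = 1 := one_div_mul_cancel (by linarith)
  have r3 : 1 / (2 - al) * (2 - al) = 1 := one_div_mul_cancel (by linarith)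
  rw [exp_a1] at h1
  rw [exp_a2] at h2
  rw [vR_eq, kap, qq, show 2 * (1 - al) * t = (2 * (2 - al) - 2) * t by ring]
  generalize 1 / (1 - al) = ib, 1 / (2 * (1 - al) + 1) = i1, 1 / (2 - al) = i2 at *
  linear_combination -(1 / 2 + et) * i2 * h1 + 4 * et * i1 * h2 + (1 / 2 - et) * ib * h3 -
    (1 + 2 * et) * (t * ph1 (2 * (2 - al) * t)) * r3 +
    4 * et * (t * ph1 ((2 * (2 - al) - 1) * t)) * r2 +
    (1 - 2 * et) * (t * ph1 ((2 * (2 - al) - 2) * t)) * r1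

theorem key (ha : al < 1) (hk : kap al et ≠ 0) (ht : t ∈ JR (-(1 / 2 - et))) (t0 : t < 0)
    (hs : s = exp t) (hn : n = exp (al * t)) (hZ : Z = exp (2 * (1 - al) * t)) :
    s * (co al et (1 / kap al et)).dB (-(1 / 2 - et)) (2 - al) t =
      gg al et s Z * n ^ 3 * (2 * et * La al et s + s * Lb al et s) +
        s * (BB al et s n Z - n * iw et s * T2 al et s Z) := by
  have r1 : 1 / (1 - al) * (1 - al) = 1 := one_div_mul_cancel (by linarith)
  have r2 : 1 / (2 * (1 - al) + 1) * (2 * (1 - al) + 1) = 1 := one_div_mul_cancel (by linarith)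
  have r3 : 1 / (2 - al) * (2 - al) = 1 := one_div_mul_cancel (by linarith)
  have r4 := one_div_mul_cancel hk
  have hy : exp ((2 - al) * t) = n * Z := by rw [hn, hZ, ← exp_add]; congr 1; ring
  have hs2 : s ^ 2 = n ^ 2 * Z := by
    rw [hs, hn, hZ, sq, sq, ← exp_add, ← exp_add, ← exp_add]; congr 1; ring
  have hz : Z * exp ((2 - 2 * (2 - al)) * t) = 1 := by rw [hZ, ← exp_add]; ring_nf; simp
  have hw : wR (-(1 / 2 - et)) t = -(1 / 2 - et + 2 * et * s - (1 - (1 / 2 - et)) * s ^ 2) := by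
    rw [wR, PR, QR, ← hs]; ring
  have r5 : iw et s * (1 / 2 - et + 2 * et * s - (1 - (1 / 2 - et)) * s ^ 2) = 1 :=
    one_div_mul_cancel (neg_ne_zero.1 (hw ▸ wR_ne ht t0.ne))
  have hv : vR (-(1 / 2 - et)) (2 - al) t = kap al et * (1 - XX al et s Z) := by
    rw [vB ha, ← hs, ← hZ, XX]; linear_combination Z * qq al et s * r4
  obtain ⟨u1, u2, u3⟩ := U_sc (F := 2 - al) (l := iw et s) (s := 1) (W := -1)
    (P := (1 - (1 / 2 - et)) * s ^ 2 * iw et s) (Q := 2 * et * s * iw et s)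
    (R := -((1 / 2 - et) * iw et s)) (Y := iw et s * yR (-(1 / 2 - et)) (2 - al) t) ht t0.ne
    one_ne_zero (by rw [PR, ← hs]; ring) (by rw [QR, ← hs]; ring) (by ring) (by ring)
    (by rw [hw]; linear_combination r5)
  have e2 : (pjR (2 - al) ((1 - (1 / 2 - et)) * s ^ 2 * iw et s) (2 * et * s * iw et s)
      (-((1 / 2 - et) * iw et s))).1 = p2 al et s := by simp only [pjR, p2]; ring
  have e3 : (pjR (2 - al) ((1 - (1 / 2 - et)) * s ^ 2 * iw et s) (2 * et * s * iw et s)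
      (-((1 / 2 - et) * iw et s))).2.1 = p3 al et s := by
    simp only [pjR, p2, p3]
    linear_combination ((3 * (1 - al) - 1) * ((1 - al) * (2 * et * s * iw et s) -
      al * ((1 / 2 - et) * iw et s) - (2 - al) * ((1 - (1 / 2 - et)) * s ^ 2 * iw et s)) -
      (1 - al) * (2 * et * s * iw et s) + 2 * (2 - al) * ((1 - (1 / 2 - et)) * s ^ 2 * iw et s)) * r5
  have hY : Z * (iw et s * yR (-(1 / 2 - et)) (2 - al) t) =
      iw et s * (kap al et * (1 - XX al et s Z)) / 2 := by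
    rw [yR, hv]; linear_combination iw et s * (kap al et * (1 - XX al et s Z)) / 2 * hz
  have hu : uR (2 - al) t = (n * Z - 1) * (1 / (2 - al)) := by
    have := exp_eq_ph ((2 - al) * t)
    rw [uR, ← hy, this]; linear_combination -(t * ph1 ((2 - al) * t)) * r3
  have hg : gR (-(1 / 2 - et)) (2 - al) t = -(kap al et * (1 - XX al et s Z) *
      (√(kap al et * (1 - XX al et s Z)))⁻¹) := by
    rw [← div_eq_mul_inv, div_sqrt, ← hv, vR, sqrt_mul (sq_nonneg t), sqrt_sq_eq_abs, abs_of_neg t0,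
      gR]
    ring
  rw [e2, hy] at u2
  rw [e3, hy] at u3
  rw [hy] at u1
  generalize iw et s * yR (-(1 / 2 - et)) (2 - al) t = Y at *
  have hY2 : iw et s * (kap al et * (1 - XX al et s Z)) = 2 * (Z * Y) := by linarith
  have K := alg (be := 1 - al) (dl := (co al et (1 / kap al et)).dl) (ik := 1 / kap al et) (s := s)
    (n := n) (Z := Z) (iw := iw et s) (v := kap al et * (1 - XX al et s Z)) (X := XX al et s Z)
    (e := 2 * et) (qq := qq al et s) (p2 := p2 al et s) (p3 := p3 al et s) (La := La al et s)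
    (Lb := Lb al et s) (U1 := U1 (-(1 / 2 - et)) (2 - al) t) (U2 := U2 (-(1 / 2 - et)) (2 - al) t)
    (U3 := U3 (-(1 / 2 - et)) (2 - al) t) (Qt := (co al et (1 / kap al et)).Qt (XX al et s Z))
    (A1 := (co al et (1 / kap al et)).y1 - (co al et (1 / kap al et)).be *
      (co al et (1 / kap al et)).dl + XX al et s Z * ((co al et (1 / kap al et)).y2 -
        (co al et (1 / kap al et)).y1 - (co al et (1 / kap al et)).y2 * XX al et s Z))
    (C21 := (co al et (1 / kap al et)).C21 (XX al et s Z))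
    (C1 := (co al et (1 / kap al et)).C1 (1 - XX al et s Z)) rfl
    (by linear_combination (1 - XX al et s Z) * r4) hs2 (by rw [Co.Qt]; simp only [co]; ring)
    (by rw [p3, La, Lb, qq]
        generalize 1 / (1 - al) = ib, 1 / (2 * (1 - al) + 1) = i1, 1 / (2 - al) = i2 at *
        linear_combination (3 * (1 - al) - 1) * p2 al et s * ((1 / 2 - et) * iw et s * r1 +
          2 * et * s * iw et s * r2 - (1 - (1 / 2 - et)) * s ^ 2 * iw et s * r3 + r5))
    (by linear_combination -u1 - n * hY)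
    (by rw [hs2, hY2]; linear_combination -n ^ 2 * Z * u2)
    (by rw [hs2, hY2]; linear_combination -n ^ 2 * Z ^ 2 * u3)
  have s0 : s ≠ 0 := hs ▸ (exp_pos t).ne'
  apply mul_left_cancel₀ s0
  rw [Co.dB, Gp.K_eq ht t0.ne, hu, hg, hv]
  have hc : (co al et (1 / kap al et)).ik * (kap al et * (1 - XX al et s Z)) = 1 - XX al et s Z := by
    simp only [co]; linear_combination (1 - XX al et s Z) * r4
  have hd : gg al et s Z = (co al et (1 / kap al et)).dl * iw et s ^ 3 *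
    (kap al et * (1 - XX al et s Z)) ^ 2 := by simp only [gg, co]; ring
  have hb : 1 - al = (co al et (1 / kap al et)).be := rfl
  have hi : 1 / kap al et = (co al et (1 / kap al et)).ik := rfl
  simp only [T2, BB, hd]
  rw [hb] at K
  generalize co al et (1 / kap al et) = c at *
  rw [hi] at K
  generalize kap al et * (1 - XX al et s Z) = v at *
  obtain hX : XX al et s Z = 1 - c.ik * v := by linarith
  rw [hX] at K ⊢
  simp only [Co.sep, Co.op, Gp.P, Gp.C3, Gp.C2, Gp.C1, Gp.C0, Co.Qt, Co.C21, Co.C1, Co.Q0, Co.Q1,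
    Co.R1] at K ⊢
  linear_combination K

theorem out_iso (s0 : 0 ≤ s) (s1 : s < 1) (hn : n = 1) (hZ : Z = s ^ 2) :
    gg 0 0 s Z * Lb 0 0 s + BB 0 0 s n Z = iw 0 s * T2 0 0 s Z := by
  subst hn hZ
  have h0 : 0 < 1 - s ^ 2 := by nlinarith
  have hk : kap 0 0 = 1 / 4 := by norm_num [kap]
  have hq : qq 0 0 s = 1 / 2 - s ^ 2 / 4 := by rw [qq]; ring
  have hi : iw 0 s = 2 / (1 - s ^ 2) := by
    rw [iw, div_eq_div_iff (by linarith) h0.ne']; ring
  have hX : XX 0 0 s (s ^ 2) = 1 - (1 - s ^ 2) ^ 2 := by rw [XX, hk, hq]; ring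
  have hr : √(1 / 4 * (1 - (1 - (1 - s ^ 2) ^ 2))) = (1 - s ^ 2) / 2 := by
    rw [← sqrt_sq (show 0 ≤ (1 - s ^ 2) / 2 by positivity)]; congr 1; ring
  have j2 : ja2 (-(1 / 2 - 0)) (2 - 0) = 0 := by norm_num [ja2]
  have j4 : ja4 (-(1 / 2 - 0)) (2 - 0) = 0 := by norm_num [ja4]
  simp only [gg, Lb, BB, T2, p3, p2, hk, hq, hi, hX, hr, j2, j4, co, Co.Qt, Co.C21, Co.C1, Co.Q0]
  obtain ⟨x, hx⟩ : ∃ x, s ^ 2 = 1 - x := ⟨1 - s ^ 2, by ring⟩
  rw [hx, sub_sub_cancel] at h0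
  simp only [hx, sub_sub_cancel]
  field_simp
  ring

end Pool.Agent.Lib.MP_d6150d_an.S6B
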