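import Pool.Agent.Lib.MP_d6150d_an.GDef

/-! A generated chart: the program. -/

namespace Pool.Agent.Lib.MP_d6150d_an.S6Ba

def prog5 : List Ins := .mul 9 0 :: .smul 2 17 :: .add false 29 0 :: .sub false 0 4 :: .sub false 3
    0 :: .mul 212 173 :: .smul 9 33 :: .add false 37 0 :: .smul 9 24 :: .add false 1 0 :: .smul 3 11
    :: .sub true 1 0 :: .mul 6 0 :: .sub true 8 0 :: .mul 221 0 :: .add true 25 0 :: .mul 223 0 ::
    .add false 37 0 :: .sub false 80 0 :: .cpy 0 :: []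

def prog4 : List Ins := .mul 142 147 :: .mul 170 0 :: .add true 2 0 :: .smul 3 201 :: .sub true 116
    0 :: .sub true 204 203 :: .mul 0 3 :: .smul 2 10 :: .sub true 0 9 :: .sub false 2 0 :: .mul 5 0
    :: .mul 5 2 :: .smul 4 15 :: .sub false 0 14 :: .sub false 2 0 :: .add true 4 0 :: .mul 13 0 ::
    .mul 8 7 :: .smul 3 0 :: .sub false 2 0 :: .mul 24 0 :: .smul 8 0 :: .mul 27 12 :: .mul 0 161 ::
    .smul 4 0 :: .add false 3 0 :: .rsq 183 :: .mul 184 0 :: .mul 160 0 :: .smul 2 0 :: .sub true 4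
    0 :: .mul 146 0 :: .smul 6 7 :: .add false 11 0 :: .mul 40 171 :: .smul 2 0 :: .smul 3 0 :: .add
    true 3 0 :: .mul 120 0 :: .add true 14 3 :: .mul 114 0 :: .add false 2 0 :: .add true 161 126 ::
    .smul 7 18 :: .add false 22 0 :: .smul 5 9 :: .add false 1 0 :: .tri 182 :: .mul 182 1 :: .sub
    true 4 0 :: prog5

def prog3 : List Ins := .mul 0 145 :: .sub true 2 0 :: .mul 156 0 :: .add false 5 0 :: .cst 4039
    5000 :: .cst 443 400 :: .mul 0 151 :: .sub true 2 0 :: .mul 153 0 :: .cst 827 5000 :: .sub true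
    1 0 :: .mul 156 0 :: .cst 21 2000 :: .cst 101 10000 :: .mul 0 159 :: .add false 2 0 :: .mul 170
    0 :: .sub false 5 0 :: .cst 1509 10000 :: .cst 749 2500 :: .cst 2167 10000 :: .mul 0 166 :: .add
    false 2 0 :: .mul 168 0 :: .sub true 5 0 :: .mul 170 0 :: .cst 709 10000 :: .cst 133 2500 ::
    .mul 0 173 :: .sub true 2 0 :: .mul 184 0 :: .add false 5 0 :: .mul 0 136 :: .add true 15 0 ::
    .mul 138 0 :: .add true 31 0 :: .mul 46 0 :: .add true 50 0 :: .mul 119 0 :: .mul 121 0 :: .mul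
    147 123 :: .mul 0 124 :: .mul 0 143 :: .mul 189 0 :: .mul 0 0 :: .mul 0 1 :: .mul 139 147 ::
    .add true 204 66 :: .mul 0 145 :: .sub false 2 0 :: prog4

def prog2 : List Ins := .mul 98 0 :: .add false 9 0 :: .mul 71 71 :: .int 60 :: .smul 480 102 ::
    .add false 1 0 :: .smul 320 75 :: .add true 1 0 :: .mul 5 0 :: .sub true 7 0 :: .mul 23 0 ::
    .mul 25 0 :: .mul 0 69 :: .smul 2 32 :: .add false 37 0 :: .smul 3 31 :: .add true 1 0 :: .smul
    (-1) 0 :: .smul 3 0 :: .smul 2 42 :: .add false 0 44 :: .smul 4 40 :: .add false 1 0 :: .smul 5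
    39 :: .add false 1 0 :: .add true 0 132 :: .add true 7 0 :: .smul 2 0 :: .cst 1 6 :: .sub false
    136 127 :: .smul 2 99 :: .sub true 1 0 :: .mul 3 0 :: .mul 5 0 :: .mul 0 90 :: .add true 22 0 ::
    .mul 93 0 :: .mul 93 93 :: .mul 0 94 :: .mul 144 0 :: .cst 53 2000 :: .cst 199 625 :: .mul 0 137
    :: .cst 1537 10000 :: .sub true 1 0 :: .mul 140 0 :: .add true 5 0 :: .mul 142 0 :: .cst 99 2000
    :: .cst 987 10000 :: prog3

def prog1 : List Ins := .tri 0 :: .smul (-1) 3 :: .exp 0 :: .add false 60 0 :: .mul 4 0 :: .mul 51 0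
    :: .add true 63 25 :: .mul 4 4 :: .mul 27 0 :: .sub false 2 0 :: .mul 4 0 :: .mul 0 0 :: .mul 0
    0 :: .mul 0 2 :: .mul 62 70 :: .smul (-1) 0 :: .exp 0 :: .mul 3 0 :: .mul 73 74 :: .int 7 ::
    .cst 23 2 :: .mul 0 66 :: .sub true 2 0 :: .mul 67 67 :: .mul 0 68 :: .mul 2 0 :: .mul 79 0 ::
    .cst 129 200 :: .cst 3 5 :: .mul 0 74 :: .sub false 2 0 :: .add false 4 0 :: .cst 11 80 :: .mul
    0 78 :: .add true 2 0 :: .smul 8 0 :: .cst 1 1080 :: .int 4 :: .smul 57 86 :: .sub false 1 0 ::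
    .smul 6 59 :: .sub false 1 0 :: .smul 156 90 :: .smul 102 62 :: .add false 1 0 :: .smul 103 93
    :: .smul 312 65 :: .add true 1 0 :: .mul 96 0 :: .sub true 4 0 :: prog2

def prog : List Ins := .int 1 :: .var 2 :: .mul 0 0 :: .var 0 :: .sub false 3 0 :: .smul 2 0 :: .add
    false 0 5 :: .mul 2 0 :: .int 2 :: .sub false 0 5 :: .mul 2 0 :: .cst 1 2 :: .var 1 :: .sub true
    1 0 :: .mul 0 7 :: .mul 0 5 :: .smul 4 3 :: .mul 0 7 :: .sub true 17 4 :: .mul 0 12 :: .sub true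
    2 0 :: .mul 16 0 :: .add true 6 0 :: .inv 0 :: .mul 13 0 :: .smul 2 15 :: .mul 0 24 :: .tri 0 ::
    .mul 4 0 :: .sub true 5 30 :: .mul 0 30 :: .tri 0 :: .mul 4 0 :: .sub false 6 0 :: .smul (-1) 24
    :: .smul 2 2 :: .sub false 9 0 :: .sub true 15 32 :: .mul 0 40 :: .tri 0 :: .mul 4 0 :: .add
    true 6 0 :: .mul 9 0 :: .add true 11 0 :: .smul 2 0 :: .mul 26 0 :: .mul 49 0 :: .sub true 52 0
    :: .cpy 0 :: .mul 43 53 :: prog1

def vs : List Vr := [⟨3, 0, false, true⟩, ⟨3, 0, false, true⟩, ⟨7, 4, false, false⟩]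

def C : Chart := ⟨vs, prog, [49], 1, 4⟩

end Pool.Agent.Lib.MP_d6150d_an.S6Ba
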