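import Pool.Agent.Lib.MP_d6150d_an.GDef

/-! A generated chart: the program. -/

namespace Pool.Agent.Lib.MP_d6150d_an.S6Bb

def prog5 : List Ins := .mul 9 0 :: .smul 2 17 :: .add false 29 0 :: .sub false 0 4 :: .sub false 3
    0 :: .mul 104 191 :: .smul 9 33 :: .add false 37 0 :: .smul 9 24 :: .add false 1 0 :: .smul 3 11
    :: .sub true 1 0 :: .mul 6 0 :: .sub true 8 0 :: .mul 113 0 :: .add true 25 0 :: .mul 115 0 ::
    .add false 37 0 :: .sub false 80 0 :: .cpy 0 :: []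

def prog4 : List Ins := .mul 190 198 :: .mul 193 0 :: .add true 2 0 :: .smul 3 184 :: .sub true 134
    0 :: .sub true 188 186 :: .mul 0 3 :: .smul 2 10 :: .sub true 0 9 :: .sub true 2 0 :: .mul 5 0
    :: .mul 5 2 :: .smul 4 15 :: .sub false 0 14 :: .sub false 2 0 :: .add true 4 0 :: .mul 13 0 ::
    .mul 8 7 :: .smul 3 0 :: .sub false 2 0 :: .mul 24 0 :: .smul 8 0 :: .mul 27 12 :: .mul 0 209 ::
    .smul 4 0 :: .add false 3 0 :: .rsq 176 :: .mul 177 0 :: .mul 205 0 :: .smul 2 0 :: .sub true 4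
    0 :: .mul 164 0 :: .smul 6 7 :: .add false 11 0 :: .mul 40 219 :: .smul 2 0 :: .smul 3 0 :: .add
    true 3 0 :: .mul 138 0 :: .add true 14 3 :: .mul 132 0 :: .add false 2 0 :: .add true 179 144 ::
    .smul 7 18 :: .add false 22 0 :: .smul 5 9 :: .add false 1 0 :: .tri 227 :: .mul 227 1 :: .sub
    true 4 0 :: prog5

def prog3 : List Ins := .mul 132 0 :: .add false 5 0 :: .mul 128 20 :: .sub true 153 0 :: .cst 4039
    5000 :: .cst 443 400 :: .mul 0 150 :: .sub true 2 0 :: .mul 152 0 :: .cst 827 5000 :: .sub true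
    1 0 :: .mul 155 0 :: .cst 21 2000 :: .cst 101 10000 :: .mul 0 158 :: .add false 2 0 :: .mul 148
    0 :: .sub false 5 0 :: .cst 1509 10000 :: .cst 749 2500 :: .cst 2167 10000 :: .mul 0 165 :: .add
    false 2 0 :: .mul 167 0 :: .sub true 5 0 :: .mul 169 0 :: .cst 709 10000 :: .cst 133 2500 ::
    .mul 0 172 :: .sub true 2 0 :: .mul 162 0 :: .add false 5 0 :: .mul 0 28 :: .add true 15 0 ::
    .mul 30 0 :: .add true 33 0 :: .mul 48 0 :: .add true 52 0 :: .mul 163 0 :: .mul 166 0 :: .mul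
    140 168 :: .mul 0 169 :: .mul 0 195 :: .mul 200 0 :: .mul 0 0 :: .mul 0 1 :: .mul 187 199 ::
    .add true 197 84 :: .mul 0 196 :: .sub false 2 0 :: prog4

def prog2 : List Ins := .smul 3 0 :: .smul 2 42 :: .add false 0 44 :: .smul 4 40 :: .add false 1 0
    :: .smul 5 39 :: .add false 1 0 :: .add true 0 107 :: .add true 7 0 :: .smul 2 0 :: .cst 1 6 ::
    .sub false 111 92 :: .smul 2 104 :: .sub true 1 0 :: .mul 3 0 :: .mul 5 0 :: .smul 2 65 :: .add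
    false 0 117 :: .mul 67 0 :: .mul 0 100 :: .mul 113 2 :: .mul 0 102 :: .smul 4 116 :: .mul 0 104
    :: .sub true 124 117 :: .mul 0 7 :: .sub true 2 0 :: .mul 76 0 :: .add true 6 0 :: .inv 0 ::
    .mul 10 0 :: .mul 0 81 :: .mul 16 0 :: .add true 38 0 :: .mul 84 0 :: .mul 3 3 :: .mul 0 4 ::
    .mul 113 0 :: .cst 53 2000 :: .cst 199 625 :: .mul 0 134 :: .cst 1537 10000 :: .sub true 1 0 ::
    .mul 137 0 :: .add true 5 0 :: .mul 139 0 :: .cst 99 2000 :: .cst 987 10000 :: .mul 0 142 ::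
    .sub true 2 0 :: prog3

def prog1 : List Ins := .sub false 50 32 :: .int 7 :: .cst 23 2 :: .mul 0 47 :: .sub true 2 0 ::
    .mul 48 48 :: .mul 0 49 :: .mul 2 0 :: .mul 7 0 :: .cst 129 200 :: .cst 3 5 :: .mul 0 55 :: .sub
    false 2 0 :: .add false 4 0 :: .cst 11 80 :: .mul 0 59 :: .add true 2 0 :: .smul 8 0 :: .cst 1
    1080 :: .int 4 :: .smul 57 51 :: .sub false 1 0 :: .smul 6 64 :: .sub false 1 0 :: .smul 156 55
    :: .smul 102 67 :: .add false 1 0 :: .smul 103 58 :: .smul 312 70 :: .add true 1 0 :: .mul 61 0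
    :: .sub true 4 0 :: .mul 63 0 :: .add false 9 0 :: .mul 76 76 :: .int 60 :: .smul 480 67 :: .add
    false 1 0 :: .smul 320 80 :: .add true 1 0 :: .mul 5 0 :: .sub true 7 0 :: .mul 23 0 :: .mul 25
    0 :: .mul 0 44 :: .smul 2 32 :: .add false 37 0 :: .smul 3 31 :: .add true 1 0 :: .smul (-1) 0
    :: prog2

def prog : List Ins := .cst 1 2 :: .var 2 :: .smul (-1) 0 :: .mul 2 0 :: .tri 0 :: .int 1 :: .smul
    (-1) 4 :: .exp 0 :: .add false 2 0 :: .mul 5 0 :: .mul 11 0 :: .var 1 :: .sub true 13 0 :: .smul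
    (-1) 0 :: .add true 8 0 :: .mul 7 7 :: .mul 2 0 :: .sub false 2 0 :: .mul 7 0 :: .mul 0 0 ::
    .mul 0 0 :: .mul 0 2 :: .int 2 :: .var 0 :: .sub false 1 0 :: .mul 0 24 :: .smul (-1) 0 :: .exp
    0 :: .mul 6 0 :: .mul 28 28 :: .mul 0 29 :: .smul 2 6 :: .mul 0 31 :: .tri 0 :: .mul 4 0 :: .sub
    true 5 31 :: .mul 0 37 :: .tri 0 :: .mul 4 0 :: .sub false 6 0 :: .smul 2 1 :: .sub false 8 0 ::
    .sub true 14 23 :: .mul 0 46 :: .tri 0 :: .mul 4 0 :: .add true 6 0 :: .mul 39 0 :: .add true 10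
    0 :: .smul 2 0 :: prog1

def vs : List Vr := [⟨3, 0, false, true⟩, ⟨3, 0, false, true⟩, ⟨7, 4, false, false⟩]

def C : Chart := ⟨vs, prog, [], 1, 4⟩

end Pool.Agent.Lib.MP_d6150d_an.S6Bb
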