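import Pool.Agent.Lib.MP_d6150d_an.GDef

/-! A generated chart: the program. -/

namespace Pool.Agent.Lib.MP_d6150d_an.S6Bc

def prog5 : List Ins := .smul 4 0 :: .smul 3 96 :: .sub false 98 0 :: .mul 204 8 :: .add false 1 0
    :: .smul 2 0 :: .add false 5 0 :: .smul 6 100 :: .add false 103 104 :: .add false 0 67 :: .add
    false 0 23 :: .add false 0 247 :: .add false 171 167 :: .mul 169 213 :: .sub true 1 0 :: .mul
    215 0 :: .add true 4 0 :: .mul 217 0 :: .sub false 10 0 :: .add false 12 0 :: .add true 21 0 ::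
    .mul 220 0 :: .mul 64 0 :: .sub true 66 0 :: .mul 263 0 :: .add false 189 0 :: .cpy 0 :: []

def prog4 : List Ins := .sub true 1 0 :: .mul 3 0 :: .mul 5 0 :: .mul 0 153 :: .sub false 14 0 ::
    .mul 154 0 :: .add false 55 0 :: .mul 151 188 :: .mul 157 160 :: .mul 0 138 :: .sub false 119 55
    :: .sub false 117 120 :: .mul 118 163 :: .sub true 1 0 :: .mul 165 0 :: .add true 4 0 :: .mul 0
    145 :: .sub false 148 154 :: .smul 2 183 :: .mul 0 153 :: .add false 2 0 :: .smul 2 155 :: .sub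
    true 0 160 :: .smul 3 0 :: .mul 0 156 :: .sub true 4 0 :: .mul 9 0 :: .add true 136 14 :: .mul
    179 0 :: .add false 74 0 :: .smul 6 0 :: .smul 2 76 :: .sub false 218 0 :: .sub false 0 79 ::
    .smul 6 143 :: .sub false 1 0 :: .smul 2 142 :: .sub false 1 0 :: .smul 6 144 :: .sub false 148
    0 :: .sub false 0 226 :: .mul 146 192 :: .add true 1 0 :: .mul 194 0 :: .add true 6 0 :: .add
    true 14 0 :: .mul 0 178 :: .add true 20 0 :: .mul 38 0 :: .mul 200 19 :: prog5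

def prog3 : List Ins := .mul 63 0 :: .mul 144 144 :: .mul 0 145 :: .mul 148 0 :: .mul 129 0 :: .add
    false 0 64 :: .add true 0 62 :: .smul 2 0 :: .rsq 107 :: .mul 1 0 :: .smul 8 3 :: .cst 1 1080 ::
    .int 4 :: .smul 57 128 :: .sub false 1 0 :: .smul (-1) 158 :: .smul 6 0 :: .sub false 2 0 ::
    .smul 156 133 :: .smul 102 3 :: .add false 1 0 :: .smul 103 136 :: .smul 312 6 :: .add true 1 0
    :: .mul 139 0 :: .sub true 4 0 :: .mul 141 0 :: .add false 9 0 :: .mul 12 12 :: .int 60 :: .smul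
    480 145 :: .add false 1 0 :: .smul 320 16 :: .add true 1 0 :: .mul 5 0 :: .sub true 7 0 :: .mul
    24 0 :: .mul 26 0 :: .mul 0 137 :: .sub false 29 0 :: .sub false 36 35 :: .smul 2 100 :: .sub
    false 1 0 :: .smul 4 99 :: .sub false 1 0 :: .add true 0 181 :: .smul 2 0 :: .cst 1 6 :: .sub
    false 184 163 :: .smul 2 33 :: prog4

def prog2 : List Ins := .mul 2 0 :: .mul 0 65 :: .cst 53 2000 :: .cst 199 625 :: .mul 0 101 :: .cst
    1537 10000 :: .sub true 1 0 :: .mul 104 0 :: .add true 5 0 :: .mul 106 0 :: .cst 99 2000 :: .cst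
    987 10000 :: .mul 0 109 :: .sub true 2 0 :: .mul 90 0 :: .add false 5 0 :: .cst 4039 5000 ::
    .cst 443 400 :: .mul 0 115 :: .sub true 2 0 :: .mul 117 0 :: .cst 827 5000 :: .sub true 1 0 ::
    .mul 120 0 :: .cst 21 2000 :: .cst 101 10000 :: .mul 0 123 :: .add false 2 0 :: .mul 104 0 ::
    .sub false 5 0 :: .cst 1509 10000 :: .cst 749 2500 :: .cst 2167 10000 :: .mul 0 130 :: .add
    false 2 0 :: .mul 132 0 :: .sub true 5 0 :: .mul 134 0 :: .cst 709 10000 :: .cst 133 2500 ::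
    .mul 0 137 :: .sub true 2 0 :: .mul 118 0 :: .add false 5 0 :: .mul 0 95 :: .add true 15 0 ::
    .mul 97 0 :: .add true 31 0 :: .mul 98 0 :: .sub false 47 0 :: prog3

def prog1 : List Ins := .mul 12 0 :: .mul 0 0 :: .mul 29 0 :: .mul 29 44 :: .smul (-1) 0 :: .exp 0
    :: .mul 0 0 :: .mul 0 1 :: .mul 5 0 :: .smul 3 34 :: .sub true 0 46 :: .mul 49 42 :: .mul 37 0
    :: .mul 39 43 :: .sub false 1 0 :: .mul 48 46 :: .mul 31 0 :: .sub true 2 0 :: .mul 7 0 :: .mul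
    0 38 :: .mul 24 51 :: .mul 46 0 :: .smul 3 4 :: .sub true 48 0 :: .mul 2 0 :: .add false 5 0 ::
    .mul 68 0 :: .mul 48 6 :: .sub true 5 43 :: .mul 1 0 :: .mul 11 44 :: .sub false 1 0 :: .mul 67
    0 :: .mul 72 0 :: .add true 7 0 :: .mul 26 0 :: .mul 36 36 :: .cst 129 200 :: .cst 3 5 :: .mul 0
    86 :: .sub false 2 0 :: .sub false 77 0 :: .cst 11 80 :: .mul 0 90 :: .smul 3 0 :: .sub false 3
    0 :: .mul 1 46 :: .add true 1 0 :: .mul 42 57 :: .sub false 0 85 :: prog2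

def prog : List Ins := .int 7 :: .cst 23 2 :: .var 1 :: .mul 1 0 :: .sub true 3 0 :: .cst 1 2 ::
    .sub true 0 3 :: .smul 2 4 :: .var 2 :: .smul (-1) 0 :: .exp 0 :: .mul 3 0 :: .add false 5 0 ::
    .int 1 :: .sub true 0 7 :: .mul 4 4 :: .mul 1 0 :: .sub true 4 0 :: .inv 0 :: .mul 12 0 :: .mul
    0 0 :: .mul 0 1 :: .mul 17 0 :: .var 0 :: .sub false 10 0 :: .inv 0 :: .mul 19 0 :: .smul 2 19
    :: .smul 2 3 :: .add false 0 15 :: .inv 0 :: .mul 3 0 :: .add false 5 0 :: .int 2 :: .sub false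
    0 10 :: .inv 0 :: .mul 21 0 :: .sub true 4 0 :: .mul 9 29 :: .smul (-1) 0 :: .exp 0 :: .smul 2
    29 :: .mul 0 11 :: .add false 16 0 :: .mul 27 8 :: .sub false 1 0 :: .mul 5 0 :: .inv 9 :: .mul
    1 0 :: .sub true 35 0 :: prog1

def vs : List Vr := [⟨2, 0, false, true⟩, ⟨3, 0, false, true⟩, ⟨6, 0, false, false⟩]

def C : Chart := ⟨vs, prog, [], 1, 3⟩

end Pool.Agent.Lib.MP_d6150d_an.S6Bc
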