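import Pool.Agent.Lib.MP_d6150d_an.GDef

/-! A generated chart: the program. -/

namespace Pool.Agent.Lib.MP_d6150d_an.S6Bd

def prog5 : List Ins := .add false 1 0 :: .smul 320 16 :: .add true 1 0 :: .mul 5 0 :: .sub true 7 0
    :: .mul 24 0 :: .mul 26 0 :: .mul 0 202 :: .sub false 29 0 :: .sub false 162 161 :: .sub false 0
    107 :: .smul 4 160 :: .sub false 1 0 :: .add true 0 254 :: .smul 2 0 :: .cst 1 6 :: .sub false
    257 225 :: .smul 2 32 :: .sub true 1 0 :: .mul 3 0 :: .mul 5 0 :: .mul 0 217 :: .sub false 13 0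
    :: .mul 218 0 :: .add false 48 0 :: .add false 107 0 :: .cpy 0 :: []

def prog4 : List Ins := .cst 101 10000 :: .mul 0 198 :: .add false 2 0 :: .mul 190 0 :: .sub false 5
    0 :: .cst 1509 10000 :: .cst 749 2500 :: .cst 2167 10000 :: .mul 0 205 :: .add false 2 0 :: .mul
    207 0 :: .sub true 5 0 :: .mul 209 0 :: .cst 709 10000 :: .cst 133 2500 :: .mul 0 212 :: .sub
    true 2 0 :: .mul 204 0 :: .add true 5 0 :: .mul 0 166 :: .add false 15 0 :: .mul 168 0 :: .add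
    false 31 0 :: .mul 169 0 :: .sub false 47 0 :: .mul 56 0 :: .smul 2 76 :: .rsq 172 :: .mul 1 0
    :: .smul 8 79 :: .cst 1 1080 :: .int 4 :: .smul 57 191 :: .sub false 1 0 :: .smul (-1) 227 ::
    .smul 6 0 :: .sub false 2 0 :: .smul 156 196 :: .smul 102 3 :: .add false 1 0 :: .smul 103 199
    :: .smul 312 6 :: .add true 1 0 :: .mul 202 0 :: .sub true 4 0 :: .mul 204 0 :: .add false 9 0
    :: .mul 12 12 :: .int 60 :: .smul 480 208 :: prog5

def prog3 : List Ins := .smul 6 0 :: .add false 53 54 :: .smul 2 58 :: .add false 1 0 :: .add false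
    0 27 :: .add false 0 146 :: .add false 62 24 :: .mul 56 103 :: .sub true 1 0 :: .mul 105 0 ::
    .add true 4 0 :: .mul 107 0 :: .sub false 11 0 :: .add false 15 0 :: .add true 24 0 :: .mul 110
    0 :: .mul 78 0 :: .sub false 80 0 :: .mul 114 114 :: .sub false 160 75 :: .sub false 0 38 ::
    .mul 39 117 :: .add true 1 0 :: .mul 156 128 :: .sub false 0 165 :: .mul 2 0 :: .mul 0 134 ::
    .cst 53 2000 :: .cst 199 625 :: .mul 0 176 :: .cst 1537 10000 :: .sub true 1 0 :: .mul 179 0 ::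
    .add true 5 0 :: .mul 181 0 :: .cst 99 2000 :: .cst 987 10000 :: .mul 0 184 :: .sub true 2 0 ::
    .mul 176 0 :: .add false 5 0 :: .cst 4039 5000 :: .cst 443 400 :: .mul 0 190 :: .sub true 2 0 ::
    .mul 192 0 :: .cst 827 5000 :: .sub true 1 0 :: .mul 195 0 :: .cst 21 2000 :: prog4

def prog2 : List Ins := .mul 0 97 :: .sub false 0 7 :: .mul 1 49 :: .sub true 1 0 :: .mul 51 0 ::
    .add true 6 0 :: .mul 0 36 :: .sub false 39 45 :: .smul 2 67 :: .mul 0 44 :: .add false 2 0 ::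
    .smul 2 46 :: .sub true 0 51 :: .smul 3 0 :: .mul 0 47 :: .sub true 4 0 :: .mul 9 0 :: .add true
    23 14 :: .mul 65 0 :: .add false 21 0 :: .smul 6 0 :: .smul 2 23 :: .sub false 113 0 :: .sub
    false 0 26 :: .smul 6 30 :: .sub false 1 0 :: .smul 2 25 :: .sub false 1 0 :: .smul 6 27 :: .sub
    false 35 0 :: .sub false 0 121 :: .smul 3 30 :: .mul 0 79 :: .add true 2 0 :: .mul 81 0 :: .add
    true 7 0 :: .add true 15 0 :: .mul 0 70 :: .add true 21 0 :: .mul 49 0 :: .mul 87 20 :: .smul 4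
    0 :: .smul 3 44 :: .sub false 46 0 :: .mul 91 8 :: .add false 1 0 :: .smul 2 0 :: .add false 5 0
    :: .add false 50 54 :: .add true 0 48 :: prog3

def prog1 : List Ins := .mul 5 0 :: .inv 7 :: .mul 1 0 :: .sub false 44 0 :: .mul 10 0 :: .mul 0 0
    :: .mul 26 0 :: .smul 16 49 :: .smul 3 27 :: .sub true 0 50 :: .mul 40 34 :: .mul 30 0 :: .mul
    49 35 :: .sub false 1 0 :: .mul 40 38 :: .mul 24 0 :: .sub true 2 0 :: .mul 7 0 :: .mul 0 31 ::
    .mul 19 43 :: .mul 39 0 :: .smul 3 4 :: .sub true 41 0 :: .mul 2 0 :: .add false 5 0 :: .mul 17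
    0 :: .mul 59 59 :: .mul 0 60 :: .mul 43 8 :: .sub true 7 38 :: .mul 1 0 :: .mul 13 39 :: .sub
    false 1 0 :: .mul 61 0 :: .mul 6 0 :: .add true 9 0 :: .mul 29 0 :: .mul 70 61 :: .mul 33 36 ::
    .mul 0 19 :: .cst 129 200 :: .cst 3 5 :: .mul 0 89 :: .sub false 2 0 :: .mul 87 87 :: .mul 0 88
    :: .mul 91 0 :: .mul 66 0 :: .sub false 4 0 :: .cst 11 80 :: prog2

def prog : List Ins := .int 7 :: .cst 23 2 :: .var 1 :: .mul 1 0 :: .sub true 3 0 :: .cst 1 2 ::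
    .sub true 0 3 :: .smul 2 4 :: .int 1 :: .var 2 :: .sub true 1 0 :: .cst 7 2 :: .var 0 :: .mul 1
    0 :: .smul (-1) 0 :: .exp 0 :: .mul 5 0 :: .var 3 :: .mul 1 0 :: .mul 11 0 :: .add false 13 0 ::
    .sub true 12 14 :: .mul 3 3 :: .mul 1 0 :: .sub false 3 0 :: .inv 0 :: .mul 19 0 :: .mul 0 0 ::
    .mul 0 1 :: .mul 24 0 :: .sub false 21 17 :: .inv 0 :: .mul 25 0 :: .smul 2 25 :: .smul 2 3 ::
    .add false 0 26 :: .inv 0 :: .mul 3 0 :: .add false 5 0 :: .int 2 :: .sub false 0 27 :: .inv 0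
    :: .mul 20 0 :: .sub true 4 0 :: .mul 26 26 :: .smul 2 25 :: .mul 0 9 :: .add false 14 0 :: .mul
    24 6 :: .sub false 1 0 :: prog1

def vs : List Vr := [⟨2, 0, false, true⟩, ⟨2, 0, false, true⟩, ⟨2, 0, false, true⟩, ⟨1, 0, false,
    false⟩]

def C : Chart := ⟨vs, prog, [], 1, 3⟩

end Pool.Agent.Lib.MP_d6150d_an.S6Bd
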