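import Pool.Agent.Lib.MP_d6150d_an.GDef

/-! A generated chart: the program. -/

namespace Pool.Agent.Lib.MP_d6150d_an.S6Be

def prog : List Ins := .int 1 :: .var 0 :: .sub false 1 0 :: .smul 3 0 :: .sub true 0 3 :: .var 1 ::
    .smul 2 0 :: .var 2 :: .mul 1 0 :: .cst 1 2 :: .sub true 0 4 :: .add false 0 2 :: .sub true 11 1
    :: .mul 5 5 :: .mul 1 0 :: .sub false 3 0 :: .inv 0 :: .mul 8 0 :: .mul 15 0 :: .mul 8 2 :: .mul
    18 0 :: .sub false 2 0 :: .int 2 :: .sub false 0 21 :: .mul 9 7 :: .mul 1 0 :: .sub true 4 0 ::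
    .mul 22 0 :: .smul 2 25 :: .add false 0 28 :: .inv 0 :: .mul 3 0 :: .inv 29 :: .mul 22 0 ::
    .smul 2 25 :: .mul 0 4 :: .add false 2 0 :: .inv 13 :: .mul 23 0 :: .sub false 2 0 :: .mul 0 23
    :: .mul 38 0 :: .smul 3 15 :: .sub true 40 0 :: .mul 2 0 :: .add false 13 0 :: .cpy 0 :: []

def vs : List Vr := [⟨1, 0, false, false⟩, ⟨2, 0, false, false⟩, ⟨2, 0, false, false⟩]

def C : Chart := ⟨vs, prog, [], 1, 3⟩

end Pool.Agent.Lib.MP_d6150d_an.S6Be
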