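import Pool.Agent.Lib.MP_d6150d_an.S6CM
import Pool.Agent.Lib.MP_d6150d_an.X2G

/-! The strip `S6`, second part: the operator, the separator and the reduction to one inequality. -/

namespace Pool.Agent.Lib.MP_d6150d_an

open Real Set Filter Topology Asymptotics

/-- the operator -/
noncomputable def sC6o (D F : ℝ) : Gp := ⟨0, 0, 0, 0, sC6k D F, -4 * sC6k D F, 0,
  -1 - sC6c D * sC6k D F, sC6s D + 1 + sC6c D * sC6k D F, 0, sC6c D, 0⟩

/-- the quadratic factor of the distance to the limit level -/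
noncomputable def sC6xi (D F x : ℝ) : ℝ := sC6x0 D F + x * (sC6x1 D F - sC6x2 D F * x)

/-- the separator -/
noncomputable def sC6E (D F v : ℝ) : ℝ := sC6a4 D F + v * (sC6a6 D F + v * sC6a8 D F)

/-- the algebraic form of the function whose sign is studied -/
noncomputable def sC6T (D F x z y : ℝ) : ℝ :=
  sC6psi F (sC6k D F) (sC6c D) (sC6s D) (sC6xi D F x) (sC6k D F - z * sC6xi D F x)
    (-(F * (sC6k D F - z * sC6xi D F x) * ((1 - x) * ((1 + D) * x - D))⁻¹)) z y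
    (-((1 + 2 * D) * x * ((1 - x) * ((1 + D) * x - D))⁻¹) -
      2 * -(D * ((1 - x) * ((1 + D) * x - D))⁻¹))
    (-(D * ((1 - x) * ((1 + D) * x - D))⁻¹)) (sC6E D F (sC6k D F - z * sC6xi D F x))

/-- the function whose sign is studied -/
noncomputable def sC6Z (D F t : ℝ) : ℝ :=
  sC6T D F (exp t) (exp ((2 * F - 2) * t)) (exp ((3 * F - 4) * t))

/-- the same divided by `t` -/
noncomputable def sC6H (D F t : ℝ) : ℝ :=
  sC6cen F (sC6k D F) (sC6c D) (sC6s D) (sC6xi D F (exp t)) t (muR D F t)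
    (F * muR D F t * (ph1 t * ((1 + D) * exp t - D))⁻¹) (exp ((2 * F - 2) * t))
    (exp ((3 * F - 4) * t)) ((1 + 2 * D) * exp t * (ph1 t * ((1 + D) * exp t - D))⁻¹ -
      2 * (D * (ph1 t * ((1 + D) * exp t - D))⁻¹)) (D * (ph1 t * ((1 + D) * exp t - D))⁻¹)
    (sC6E D F (t * t * muR D F t))

variable {D F t : ℝ}

theorem sC6_v (hF : 2 ≤ F) (t : ℝ) :
    sC6k D F - exp ((2 * F - 2) * t) * sC6xi D F (exp t) = vR D F t := by
  have e1 := exp_eq_ph (2 * F * t)
  have e2 := exp_eq_ph ((2 * F - 1) * t)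
  have e3 := exp_eq_ph ((2 * F - 2) * t)
  have k := mul_inv_cancel₀ (a := F * (2 * F - 1) * (F - 1))
    (mul_pos (mul_pos (by linarith) (by linarith)) (by linarith)).ne'
  rw [exp_a1] at e1
  rw [exp_a2] at e2
  rw [vR_eq, sC6xi, sC6k, sC6x0, sC6x1, sC6x2]
  generalize exp ((2 * F - 2) * t) = r at *
  generalize exp t = x at *
  generalize (F * (2 * F - 1) * (F - 1))⁻¹ = i at *
  generalize ph1 (2 * F * t) = a at *
  generalize ph1 ((2 * F - 1) * t) = b at *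
  generalize ph1 ((2 * F - 2) * t) = c at *
  linear_combination i * ((1 + D) * (2 * F - 1) * (F - 1) * e1 - 2 * (1 + 2 * D) * F * (F - 1) * e2 +
    D * F * (2 * F - 1) * e3) + 2 * ((1 + D) * (t * a) - (1 + 2 * D) * (t * b) + D * (t * c)) * k

theorem sC6_w (t : ℝ) : (1 - exp t) * ((1 + D) * exp t - D) = -wR D t := by rw [wR_eq, om]; ring

theorem sC6_K (hF : 2 ≤ F) (ht : t ∈ JR D) (h0 : t ≠ 0) : vR D F t * exp (F * t) * sC6Z D F t =
    exp ((2 * F - 2) * t) ^ 2 * (F ^ 3 * (sC6o D F).K D F t - vR D F t ^ 2 * sC6E D F (vR D F t)) := by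
  have hw := wR_ne ht h0
  have hF0 : F ≠ 0 := by linarith [hF] |> fun h : 0 < F ↦ h.ne'
  have hu : uR F t = (exp (F * t) - 1) / F := by rw [exp_eq_ph, uR]; field_simp; ring
  have hP : PR D t = wR D t + QR D t - D := by rw [wR]; ring
  have hz := (exp_pos ((2 * F - 2) * t)).ne'
  have hy := (exp_pos (F * t)).ne'
  have e1 : exp ((2 - 2 * F) * t) = (exp ((2 * F - 2) * t))⁻¹ := by rw [← exp_neg]; ring_nf
  have e2 : exp ((3 * F - 4) * t) = exp ((2 * F - 2) * t) ^ 2 / exp (F * t) := by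
    rw [sq, ← exp_add, ← exp_sub]; ring_nf
  have e3 := sC6_v (D := D) hF t
  rw [Gp.K_eq ht h0, hu, sC6Z, sC6T, e3, sC6_w, ← QR, e2]
  simp only [sC6o, Gp.P, Gp.C3, Gp.C2, Gp.C1, Gp.C0, sC6psi, U1, U2, U3, pjR, yR, hP, e1]
  rw [eq_add_of_sub_eq e3]
  generalize wR D t = W at *
  generalize QR D t = Q
  generalize sC6E D F (vR D F t) = E
  generalize vR D F t = v
  generalize exp ((2 * F - 2) * t) = z at *
  generalize exp (F * t) = y at *
  generalize sC6c D = c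
  generalize sC6s D = s
  generalize sC6xi D F (exp t) = x
  generalize U4 D F t = u
  generalize gR D F t = g
  field_simp
  ring

theorem sC6cen_eq (h0 : t ≠ 0) (k c s x m M z y A B E : ℝ) : t * sC6cen F k c s x t m M z y A B E =
    sC6psi F k c s x (t * t * m) (t * M) z y (A / t) (B / t) E := by
  simp only [sC6cen, sC6psi]; field_simp

theorem sC6_H (hF : 2 ≤ F) (h0 : t ≠ 0) : t * sC6H D F t = sC6Z D F t := by
  have e : t * t * muR D F t = vR D F t := by rw [vR]; ring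
  rw [sC6H, sC6cen_eq h0, sC6Z, sC6T, sC6_v hF, sC6_w, x2_wph, e]
  generalize ph1 t * ((1 + D) * exp t - D) = W
  congr 1 <;> simp only [div_eq_mul_inv, mul_inv, inv_neg, ← e] <;> generalize W⁻¹ = j <;>
    field_simp

theorem sC6_center (hF : 2 ≤ F) : sC6H D F =O[𝓝[≠] 0] fun t ↦ t ^ 4 := by
  obtain ⟨a6, J⟩ := (sC6o D F).K_jet (D := D) (F := F)
  have hF0 : F ≠ 0 := by linarith [hF] |> fun h : 0 < F ↦ h.ne'
  have h := (J.cast (b4 := sC6a4 D F / F ^ 3) (b6 := sC6a6 D F / F ^ 3) rfl rfl rfl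
    (by simp [sC6o]) (by simp only [sC6o, sC6a4]; field_simp; ring) (by simp only [sC6o]; ring)
    (by simp only [sC6o, sC6a6]; field_simp; ring)).center7 (E := fun _ ↦ sC6a8 D F / F ^ 3)
    continuousAt_const
  have hm : ContinuousAt
      (fun t ↦ F ^ 3 * exp ((2 * F - 2) * t) ^ 2 * (muR D F t * exp (F * t))⁻¹) 0 :=
    ContinuousAt.mul (by fun_prop) (ContinuousAt.inv₀ ((muR_an D F 0).continuousAt.mul
      (by fun_prop)) (by simp [muR_zero]))
  refine ((isBigO_refl (fun t : ℝ ↦ (t ^ 3)⁻¹) _).mul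
    ((h.mul (hm.isBigO_one ℝ)).mono nhdsWithin_le_nhds)).congr' ?_ ?_
  · filter_upwards [self_mem_nhdsWithin,
      nhdsWithin_le_nhds ((JR_open D).mem_nhds (zero_mem_JR D))] with t h0 ht
    have h0 : t ≠ 0 := h0
    have e1 := sC6_K hF ht h0
    have hm := (muR_pos (F := F) ht).ne'
    have hy := (exp_pos (F * t)).ne'
    rw [← sC6_H hF h0, sC6E, vR] at e1
    rw [vR]
    generalize exp ((2 * F - 2) * t) = z, exp (F * t) = y at *
    field_simp
    linear_combination -e1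
  · filter_upwards [self_mem_nhdsWithin] with t h0
    have h0 : t ≠ 0 := h0
    field_simp

theorem sC6_right (hF : 2 ≤ F) : sC6H D F =O[𝓝[>] 0] fun t ↦ t ^ 4 :=
  (sC6_center hF).mono (nhdsWithin_mono _ fun _ h ↦ ne_of_gt h)

theorem sC6_left (hF : 2 ≤ F) : (fun u ↦ sC6H D F (-u)) =O[𝓝[>] 0] fun t ↦ t ^ 4 := by
  have T : Tendsto (fun u : ℝ ↦ -u) (𝓝[>] 0) (𝓝[≠] 0) := by
    simpa using (tendsto_neg_nhdsGT (a := (0 : ℝ))).mono_right (nhdsLT_le_nhdsNE _)
  exact ((sC6_center hF).comp_tendsto T).congr (fun u ↦ rfl) fun u ↦ by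
    simp only [Function.comp]; ring

theorem sC6psi_zero {k c s x v M z y A B E : ℝ} (h1 : F * (M - z) + M * A = 0)
    (h2 : (F - 1) * A + 2 * B = 0) (h3 : (F * (M - z)) ^ 2 + F * (M ^ 2 * A - F * y) = 0)
    (h4 : y * E = 0) : sC6psi F k c s x v M z y A B E = 0 := by
  rw [sC6psi, h1, h2, h3, h4]; ring

theorem sC6T_iso {x z y : ℝ} (hD : D = -1 / 2) (hF : F = 2) (h0 : 0 ≤ x) (h1 : x ≠ 1)
    (hz : z = x * x) (hy : y = x * x) : sC6T D F x z y = 0 := by
  subst hD hF hz hy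
  have k := mul_inv_cancel₀ (mul_ne_zero (sub_ne_zero.2 h1.symm)
    (by linarith : 0 < (1 + -1 / 2) * x - -1 / 2).ne')
  have e : sC6k (-1 / 2) 2 - x * x * sC6xi (-1 / 2) 2 x = (1 - x * x) ^ 2 / 4 := by
    simp only [sC6xi, sC6k, sC6x0, sC6x1, sC6x2]; ring
  rw [sC6T, e]
  generalize ((1 - x) * ((1 + -1 / 2) * x - -1 / 2))⁻¹ = i at *
  rw [show -(2 * ((1 - x * x) ^ 2 / 4) * i) = x * x - 1 by linear_combination (x * x - 1) * k]
  refine sC6psi_zero (by linear_combination 2 * k) (by ring)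
    (by linear_combination 4 * (x * x - 1) * k) ?_
  simp only [sC6E, sC6a4, sC6a6, sC6a8, ja2, ja4]; ring

theorem sC6T_zero {x z y : ℝ} (hD : D ≠ 0) (hF : F = 2) (hx : x = 0) (hz : z = 0) (hy : y = 0) :
    sC6T D F x z y = 0 := by
  subst hF hx hz hy
  have k : D * ((1 - 0) * ((1 + D) * 0 - D))⁻¹ = -1 := by simp [hD]
  rw [sC6T, k]
  exact sC6psi_zero (by ring) (by ring) (by ring) (by ring)

theorem sC6H_iso (hD : D = -1 / 2) (hF : F = 2) (t : ℝ) : sC6H D F t = 0 := by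
  by_cases h0 : t = 0
  · simp [sC6H, sC6cen, h0, muR_zero, ph1_zero]
  refine (mul_eq_zero.1 ((sC6_H hF.ge h0).trans ?_)).resolve_left h0
  exact sC6T_iso hD hF (exp_pos t).le (by simpa using h0) (by rw [← exp_add, hF]; ring_nf)
    (by rw [← exp_add, hF]; ring_nf)

theorem sC6_xi (D F x : ℝ) : sC6xi D F x = (-(D * F * (2 * F - 1)) + x * (2 * (1 + 2 * D) * F * (F - 1) -
    (1 + D) * (2 * F - 1) * (F - 1) * x)) * (F * (2 * F - 1) * (F - 1))⁻¹ := by
  simp only [sC6xi, sC6x0, sC6x1, sC6x2]; ring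

section

variable (a1 : -83 / 64 ≤ D) (b1 : D ≤ -1 / 2) (a2 : 2 ≤ F)
include b1 a2

theorem sC6_lev (h : t < 0) : vR D F t < sC6k D F := by
  have l : 0 < F * (2 * F - 1) * (F - 1) :=
    mul_pos (mul_pos (by linarith) (by linarith)) (by linarith)
  have x0 := exp_pos t
  have x1 := (sub_pos.2 (exp_lt_one_iff.2 h)).le
  rw [← sC6_v a2, sub_lt_self_iff, sC6_xi]
  refine mul_pos (exp_pos _) (mul_pos ?_ (inv_pos.2 l))
  have p := mul_nonneg (mul_nonneg x1 (by linarith : 0 ≤ F - 1)) (add_nonneg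
    (mul_nonneg x1 (by nlinarith : 0 ≤ -D * (2 * F + 1) - 1))
    (mul_nonneg x0.le (by linarith : 0 ≤ 2 * F - 2 - 2 * D)))
  linarith

omit b1 in
include a1 in
theorem sC6_up (ht : t ∈ JR D) (h : vR D F t < sC6k D F) : 0 ≤ sC6xi D F (exp t) ∧ t ≤ 1 / 2 := by
  have l : 0 < F * (2 * F - 1) * (F - 1) :=
    mul_pos (mul_pos (by linarith) (by linarith)) (by linarith)
  have H : ∀ s, vR D F s < sC6k D F → 0 < sC6xi D F (exp s) := fun s h ↦ by
    rwa [← sC6_v a2, sub_lt_self_iff, mul_pos_iff_of_pos_left (exp_pos _)] at h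
  refine ⟨(H t h).le, not_lt.1 fun k ↦ ?_⟩
  have p := H _ ((vR_mono ht (log_nonneg (by norm_num : (1 : ℝ) ≤ 8 / 5))
    ((log_lt_iff_lt_exp (by norm_num)).2
      (by nlinarith [quadratic_le_exp_of_nonneg (x := t) (by linarith)]))).trans h)
  rw [exp_log (by norm_num), sC6_xi, mul_pos_iff_of_pos_right (inv_pos.2 l)] at p
  have d0 := sub_nonneg.2 a2
  nlinarith [mul_nonneg (sub_nonneg.2 a1)
    (by positivity : 0 ≤ 22 / 25 + 3 / 5 * (F - 2) + 18 / 25 * (F - 2) ^ 2), sq_nonneg (F - 2)]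

include a1 in
theorem sC6_red (P : ∀ t, 0 < t → t ≤ 1 / 2 → 0 ≤ sC6xi D F (exp t) → 0 < sC6H D F t)
    (N : ∀ t, t < 0 → sC6Z D F t < 0) : NoThree D F := by
  refine Crit1.noThree ⟨sC6o D F, 1, fun x ↦ by simp [sC6o, Gp.P], fun a ha b hb a0 b0 e ↦ ?_⟩
  have l := e ▸ sC6_lev b1 a2 a0
  obtain ⟨l1, l2⟩ := sC6_up a1 a2 hb l
  have v0 := vR_pos (F := F) hb b0.ne'
  constructor
  · have k : sC6k D F ≤ 1 / 2 := by
      rw [sC6k, ← div_eq_mul_inv, div_le_iff₀
        (mul_pos (mul_pos (by linarith) (by linarith)) (by linarith))]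
      nlinarith [mul_nonneg (sub_nonneg.2 a2) (sq_nonneg F)]
    have c2 : sC6c D ≤ 2 := by rw [sC6c]; nlinarith
    have c : sC6c D * vR D F b ≤ 1 := by nlinarith
    have := mul_nonneg (mul_pos v0 (sub_pos.2 l)).le (sub_nonneg.2 c)
    simp only [sC6o, Gp.Q]
    linarith
  have p1 := mul_neg_of_pos_of_neg (mul_pos (vR_pos (F := F) ha a0.ne) (exp_pos (F * a))) (N a a0)
  have p2 := mul_pos (mul_pos v0 (exp_pos (F * b))) (mul_pos b0 (P b b0 l2 l1))
  rw [sC6_H a2 b0.ne', sC6_K a2 hb b0.ne', mul_pos_iff_of_pos_left (by positivity)] at p2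
  rw [sC6_K a2 ha a0.ne, e] at p1
  have p3 := neg_of_mul_neg_right p1 (sq_nonneg _)
  refine lt_of_mul_lt_mul_left ?_ (pow_pos (by linarith : 0 < F) 3).le
  linarith

end

theorem sC6_tail {d : ℝ} (d0 : 0 < d) (d1 : d ≤ 1 / 16) (h : t ≤ -(5 / 2)) : ∃ g, 0 ≤ g ∧ g ≤ 1 ∧
    exp t - exp t * exp (d * t) = d * (5 / 3 * exp t + g * (1 / 32 + 5 / 6 * exp t)) := by
  have x0 := exp_pos t
  have r0 := exp_pos (d * t)
  have h1 : exp (d * t) * (1 + 5 / 2 * d) ≤ 1 := by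
    have := mul_le_mul_of_nonneg_left (add_one_le_exp (-(d * t))) r0.le
    rw [x2_emn] at this
    nlinarith [mul_nonneg r0.le (mul_nonneg d0.le (by linarith : 0 ≤ -t - 5 / 2))]
  have h2 : 5 / 3 * d ≤ 1 - exp (d * t) := by
    refine le_of_mul_le_mul_right ?_ (by positivity : 0 < 1 + 5 / 2 * d)
    nlinarith
  have h3 : exp t * (-t - 5 / 2) ≤ 1 / 32 := by
    have := mul_le_mul_of_nonneg_left (add_one_le_exp (-t - 7 / 2)) x0.le
    rw [← exp_add, show t + (-t - 7 / 2) = -(7 / 2) by ring] at this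
    have e : exp (-(7 / 2)) ≤ 1 / 32 := by
      rw [exp_neg, one_div]
      refine inv_anti₀ (by norm_num) (le_trans ?_ (sum_le_exp_of_nonneg (by norm_num) 10))
      simp only [Finset.sum_range_succ, Nat.factorial]; norm_num
    linarith
  have h4 := mul_le_mul_of_nonneg_left (add_one_le_exp (d * t)) x0.le
  have q : 0 < d * (1 / 32 + 5 / 6 * exp t) := by positivity
  refine ⟨(exp t - exp t * exp (d * t) - d * (5 / 3 * exp t)) / (d * (1 / 32 + 5 / 6 * exp t)),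
    div_nonneg ?_ q.le, (div_le_one q).2 ?_, by field_simp; ring⟩
  · nlinarith [mul_le_mul_of_nonneg_left h2 x0.le]
  · nlinarith [mul_le_mul_of_nonneg_left h3 d0.le]

end Pool.Agent.Lib.MP_d6150d_an
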