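import Pool.Agent.Lib.MP_d6150d_an.GMac
import Pool.Agent.Lib.MP_d6150d_an.KNJ

/-! The strip `S6`, second part: definitions and program forms. -/

namespace Pool.Agent.Lib.MP_d6150d_an

/-- the limit level -/
noncomputable def sC6k (D F : ℝ) : ℝ := (F - D - 1) * (F * (2 * F - 1) * (F - 1))⁻¹

/-- a coefficient of the operator -/
noncomputable def sC6c (D : ℝ) : ℝ :=
  57 / 50 + (-1 / 2 - D) * (-53 / 100 + 63 / 100 * (-1 / 2 - D))

/-- a coefficient of the operator -/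
noncomputable def sC6s (D : ℝ) : ℝ :=
  181 / 100 + (-1 / 2 - D) * (17 / 50 - 67 / 100 * (-1 / 2 - D))

/-- a coefficient of the separator -/
noncomputable def sC6a4 (D F : ℝ) : ℝ := F * F * F * (-2 * (sC6k D F * ja2 D F))

/-- a coefficient of the separator -/
noncomputable def sC6a6 (D F : ℝ) : ℝ :=
  F * F * F * (12 * (sC6k D F * ja4 D F) + 3 * (sC6s D - 2 - 2 * (sC6c D * sC6k D F)) * ja2 D F)

/-- a coefficient of the separator -/
noncomputable def sC6a8 (D F : ℝ) : ℝ :=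
  F * F * F * ((-1 / 2 - D) * (66 / 25 + 63 / 25 * (-1 / 2 - D)) - 44 / 25 * (F - 2))

/-- a coefficient of the potential -/
noncomputable def sC6x0 (D F : ℝ) : ℝ := -(D * F * (2 * F - 1) * (F * (2 * F - 1) * (F - 1))⁻¹)

/-- a coefficient of the potential -/
noncomputable def sC6x1 (D F : ℝ) : ℝ :=
  2 * ((1 + 2 * D) * F * (F - 1) * (F * (2 * F - 1) * (F - 1))⁻¹)

/-- a coefficient of the potential -/
noncomputable def sC6x2 (D F : ℝ) : ℝ :=
  (1 + D) * (2 * F - 1) * (F - 1) * (F * (2 * F - 1) * (F - 1))⁻¹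

/-- the kernel minus the separator, in terms of logarithmic derivatives -/
noncomputable def sC6psi (F k c s x v M z y A B E : ℝ) : ℝ :=
  M * (x * (1 - c * v) * (3 * (F * (M - z) + M * A) ^ 2 - M ^ 2 * ((F - 1) * A + 2 * B)) +
    4 * k * F * (F * (M - z) + M * A)) -
    v * ((s + 3 * c * v) * ((F * (M - z)) ^ 2 + F * (M ^ 2 * A - F * y)) + y * E)

/-- the same near the center -/
noncomputable def sC6cen (F k c s x t m M z y A B E : ℝ) : ℝ :=
  M * (x * (1 - c * (t * t * m)) * (3 * (F * (t * M - z) + M * A) ^ 2 -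
    t * M ^ 2 * ((F - 1) * A + 2 * B)) + 4 * k * F * (F * (t * M - z) + M * A)) -
    t * m * ((s + 3 * c * (t * t * m)) * ((F * (t * M - z)) ^ 2 + F * (t * M ^ 2 * A - F * y)) +
      y * E)

noncomputable def mC6Cen (F k c s x t m M z y A B E : ℝ) : ℝ :=
  let z0 := ((t * t) * m)
  let z1 := (F * ((t * M) - z))
  let z2 := (z1 + (M * A))
  let z3 := (t * (M * M))
  ((M * (((x * ((Int.cast (1) : ℝ) - (c * z0))) * (((Int.cast (3) : ℝ) * (z2 * z2)) - (z3 * (((F -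
    (Int.cast (1) : ℝ)) * A) + ((Int.cast (2) : ℝ) * B))))) + (((Int.cast (4) : ℝ) * (k * F)) *
    z2))) - ((t * m) * (((s + ((Int.cast (3) : ℝ) * (c * z0))) * ((z1 * z1) + (F * ((z3 * A) - (F *
    y))))) + (y * E))))

theorem mC6Cen_0 (F k c s x t m M z y A B E : ℝ) : sC6cen F k c s x t m M z y A B E = (mC6Cen F k c s
    x t m M z y A B E) := by
  simp only [mC6Cen, sC6cen]; push_cast; ring

noncomputable def mC6Psi (F k c s x v M z y A B E : ℝ) : ℝ :=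
  let z0 := (F * (M - z))
  let z1 := (z0 + (M * A))
  let z2 := (M * M)
  ((M * (((x * ((Int.cast (1) : ℝ) - (c * v))) * (((Int.cast (3) : ℝ) * (z1 * z1)) - (z2 * (((F -
    (Int.cast (1) : ℝ)) * A) + ((Int.cast (2) : ℝ) * B))))) + (((Int.cast (4) : ℝ) * (k * F)) *
    z1))) - (v * (((s + ((Int.cast (3) : ℝ) * (c * v))) * ((z0 * z0) + (F * ((z2 * A) - (F * y)))))
    + (y * E))))

theorem mC6Psi_0 (F k c s x v M z y A B E : ℝ) : sC6psi F k c s x v M z y A B E = (mC6Psi F k c s x v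
    M z y A B E) := by
  simp only [mC6Psi, sC6psi]; push_cast; ring

noncomputable def mC6Par (D F : ℝ) : ℝ × ℝ × ℝ × ℝ × ℝ × ℝ × ℝ × ℝ × ℝ :=
  let z0 := ((F * (((Int.cast (2) : ℝ) * F) - (Int.cast (1) : ℝ))) * (F - (Int.cast (1) : ℝ)))⁻¹
  let z1 := (((F - D) - (Int.cast (1) : ℝ)) * z0)
  let z2 := (((Int.cast (-1) : ℝ) / (Nat.cast 2 : ℝ)) - D)
  let z3 := (((Int.cast (57) : ℝ) / (Nat.cast 50 : ℝ)) + (z2 * (((Int.cast (-53) : ℝ) / (Nat.cast
    100 : ℝ)) + (((Int.cast (63) : ℝ) / (Nat.cast 100 : ℝ)) * z2))))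
  let z4 := (((Int.cast (181) : ℝ) / (Nat.cast 100 : ℝ)) + (z2 * (((Int.cast (17) : ℝ) / (Nat.cast
    50 : ℝ)) + (((Int.cast (-67) : ℝ) / (Nat.cast 100 : ℝ)) * z2))))
  let z5 := ((F * F) * F)
  let z6 := (((Int.cast (1) : ℝ) / (Nat.cast 6 : ℝ)) * (((Int.cast (1) : ℝ) - F) - ((Int.cast (2) :
    ℝ) * D)))
  (z1, z3, z4, (z5 * ((Int.cast (-2) : ℝ) * (z1 * z6))), (z5 * (((Int.cast (12) : ℝ) * (z1 *
    (((Int.cast (1) : ℝ) / (Nat.cast 1080 : ℝ)) * (((((Int.cast (4) : ℝ) - ((Int.cast (57) : ℝ) *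
    F)) - ((Int.cast (6) : ℝ) * D)) + (F * ((((Int.cast (156) : ℝ) * F) + ((Int.cast (102) : ℝ) *
    D)) - (F * (((Int.cast (103) : ℝ) * F) + ((Int.cast (312) : ℝ) * D)))))) - ((D * D) *
    (((Int.cast (60) : ℝ) + ((Int.cast (480) : ℝ) * F)) + ((Int.cast (320) : ℝ) * D))))))) +
    (((Int.cast (3) : ℝ) * ((z4 - (Int.cast (2) : ℝ)) - ((Int.cast (2) : ℝ) * (z3 * z1)))) * z6))),
    (z5 * ((z2 * (((Int.cast (66) : ℝ) / (Nat.cast 25 : ℝ)) + (((Int.cast (63) : ℝ) / (Nat.cast 25 :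
    ℝ)) * z2))) + (((Int.cast (-44) : ℝ) / (Nat.cast 25 : ℝ)) * (F - (Int.cast (2) : ℝ))))),
    ((Int.cast (-1) : ℝ) * (((D * F) * (((Int.cast (2) : ℝ) * F) - (Int.cast (1) : ℝ))) * z0)),
    ((Int.cast (2) : ℝ) * (((((Int.cast (1) : ℝ) + ((Int.cast (2) : ℝ) * D)) * F) * (F - (Int.cast
    (1) : ℝ))) * z0)), (((((Int.cast (1) : ℝ) + D) * (((Int.cast (2) : ℝ) * F) - (Int.cast (1) :
    ℝ))) * (F - (Int.cast (1) : ℝ))) * z0))

theorem mC6Par_0 (D F : ℝ) : sC6k D F = (mC6Par D F).1 := by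
  simp only [mC6Par, sC6k]; push_cast; ring

theorem mC6Par_1 (D F : ℝ) : sC6c D = (mC6Par D F).2.1 := by
  simp only [mC6Par, sC6c]; push_cast; ring

theorem mC6Par_2 (D F : ℝ) : sC6s D = (mC6Par D F).2.2.1 := by
  simp only [mC6Par, sC6s]; push_cast; ring

theorem mC6Par_3 (D F : ℝ) : sC6a4 D F = (mC6Par D F).2.2.2.1 := by
  simp only [mC6Par, sC6a4, sC6k, ja2]; push_cast; ring

theorem mC6Par_4 (D F : ℝ) : sC6a6 D F = (mC6Par D F).2.2.2.2.1 := by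
  simp only [mC6Par, sC6a6, sC6k, sC6c, sC6s, ja2, ja4]; push_cast; ring

theorem mC6Par_5 (D F : ℝ) : sC6a8 D F = (mC6Par D F).2.2.2.2.2.1 := by
  simp only [mC6Par, sC6a8]; push_cast; ring

theorem mC6Par_6 (D F : ℝ) : sC6x0 D F = (mC6Par D F).2.2.2.2.2.2.1 := by
  simp only [mC6Par, sC6x0]; push_cast; ring

theorem mC6Par_7 (D F : ℝ) : sC6x1 D F = (mC6Par D F).2.2.2.2.2.2.2.1 := by
  simp only [mC6Par, sC6x1]; push_cast; ring

theorem mC6Par_8 (D F : ℝ) : sC6x2 D F = (mC6Par D F).2.2.2.2.2.2.2.2 := by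
  simp only [mC6Par, sC6x2]; push_cast; ring

end Pool.Agent.Lib.MP_d6150d_an
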