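import Pool.Agent.Lib.MP_d6150d_an.GDef

/-! A generated chart: the program. -/

namespace Pool.Agent.Lib.MP_d6150d_an.S6Ca

def prog3 : List Ins := .mul 5 0 :: .sub true 7 0 :: .mul 22 0 :: .mul 60 0 :: .smul 12 0 :: .sub
    false 49 159 :: .mul 90 63 :: .smul 2 0 :: .sub true 2 0 :: .smul 3 0 :: .mul 0 34 :: .add true
    6 0 :: .mul 40 0 :: .cst 66 25 :: .cst 63 25 :: .mul 0 105 :: .add false 2 0 :: .mul 107 0 ::
    .cst (-44) 25 :: .sub true 170 173 :: .mul 1 0 :: .add true 3 0 :: .mul 50 0 :: .mul 105 0 ::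
    .add true 11 0 :: .mul 107 0 :: .add true 47 0 :: .mul 62 0 :: .add true 58 0 :: .mul 80 0 ::
    .sub false 82 0 :: .cpy 0 :: []

def prog2 : List Ins := .cst 17 50 :: .cst (-67) 100 :: .mul 0 42 :: .add true 2 0 :: .mul 44 0 ::
    .add false 5 0 :: .smul 3 37 :: .add false 1 0 :: .mul 34 34 :: .mul 24 30 :: .smul 3 111 ::
    .int 4 :: .sub true 1 0 :: .mul 0 102 :: .exp 0 :: .mul 116 0 :: .sub true 6 0 :: .mul 118 0 ::
    .add true 9 0 :: .mul 11 0 :: .mul 121 121 :: .mul 0 122 :: .cst 1 6 :: .sub false 121 124 ::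
    .sub true 0 109 :: .mul 2 0 :: .mul 33 0 :: .smul (-2) 0 :: .mul 6 0 :: .cst 1 1080 :: .smul 57
    131 :: .sub false 19 0 :: .smul 6 137 :: .sub false 1 0 :: .smul 156 135 :: .smul 102 140 ::
    .add false 1 0 :: .smul 103 138 :: .smul 312 143 :: .add true 1 0 :: .mul 141 0 :: .sub true 4 0
    :: .mul 143 0 :: .add false 9 0 :: .mul 149 149 :: .int 60 :: .smul 480 147 :: .add false 1 0 ::
    .smul 320 153 :: .add true 1 0 :: prog3

def prog1 : List Ins := .add true 10 0 :: .smul 2 0 :: .mul 53 0 :: .mul 32 41 :: .sub false 0 59 ::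
    .mul 42 0 :: .inv 0 :: .mul 4 0 :: .cst 57 50 :: .sub true 66 64 :: .cst (-53) 100 :: .cst 63
    100 :: .mul 0 2 :: .add false 2 0 :: .mul 4 0 :: .add false 6 0 :: .mul 55 55 :: .mul 0 15 ::
    .mul 2 0 :: .sub true 67 0 :: .mul 42 0 :: .mul 60 13 :: .sub true 0 27 :: .mul 74 0 :: .mul 58
    62 :: .mul 0 18 :: .mul 81 19 :: .smul 2 0 :: .sub true 2 0 :: .mul 21 0 :: .add true 6 0 ::
    .mul 0 0 :: .smul 3 0 :: .mul 25 25 :: .mul 73 0 :: .mul 79 6 :: .add true 0 8 :: .mul 2 0 ::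
    .sub false 5 0 :: .mul 18 0 :: .sub false 91 95 :: .sub true 0 89 :: .mul 0 84 :: .mul 0 94 ::
    .smul 4 0 :: .mul 0 14 :: .add true 6 0 :: .mul 39 0 :: .mul 87 46 :: .cst 181 100 :: prog2

def prog : List Ins := .cst (-1) 2 :: .var 0 :: .sub false 1 0 :: .int 2 :: .var 1 :: .mul 3 0 ::
    .add false 2 0 :: .mul 4 0 :: .smul 2 1 :: .int 1 :: .sub true 1 0 :: .mul 3 0 :: .mul 5 1 ::
    .sub true 6 3 :: .mul 1 0 :: .inv 0 :: .mul 4 0 :: .smul (-1) 0 :: .var 2 :: .tri 0 :: .smul 2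
    19 :: .add true 13 0 :: .mul 0 17 :: .mul 0 11 :: .mul 0 10 :: .smul 2 0 :: .add true 18 25 ::
    .mul 0 18 :: .mul 0 16 :: .mul 0 15 :: .mul 0 12 :: .sub false 5 0 :: .mul 14 0 :: .add true 17
    0 :: .cpy 0 :: .mul 28 18 :: .tri 0 :: .mul 32 0 :: .mul 31 23 :: .tri 0 :: .mul 35 0 :: .sub
    false 5 0 :: .smul 2 1 :: .sub false 7 0 :: .sub true 41 46 :: .mul 0 32 :: .tri 0 :: .mul 4 0
    :: .add true 6 0 :: .mul 54 0 :: prog1

def vs : List Vr := [⟨3, 1, false, false⟩, ⟨2, 0, false, false⟩, ⟨8, 4, false, false⟩]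

def C : Chart := ⟨vs, prog, [35], 1, 3⟩

end Pool.Agent.Lib.MP_d6150d_an.S6Ca
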