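import Pool.Agent.Lib.MP_d6150d_an.GDef

/-! A generated chart: the program. -/

namespace Pool.Agent.Lib.MP_d6150d_an.S6Cb

def prog3 : List Ins := .mul 5 0 :: .sub true 7 0 :: .mul 22 0 :: .mul 60 0 :: .smul 12 0 :: .sub
    false 49 162 :: .mul 90 63 :: .smul 2 0 :: .sub true 2 0 :: .smul 3 0 :: .mul 0 34 :: .add true
    6 0 :: .mul 40 0 :: .cst 66 25 :: .cst 63 25 :: .mul 0 105 :: .add false 2 0 :: .mul 107 0 ::
    .cst (-44) 25 :: .sub true 172 176 :: .mul 1 0 :: .add true 3 0 :: .mul 50 0 :: .mul 105 0 ::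
    .add true 11 0 :: .mul 107 0 :: .add true 47 0 :: .mul 62 0 :: .add true 58 0 :: .mul 80 0 ::
    .sub false 82 0 :: .cpy 0 :: []

def prog2 : List Ins := .cst 17 50 :: .cst (-67) 100 :: .mul 0 42 :: .add true 2 0 :: .mul 44 0 ::
    .add false 5 0 :: .smul 3 37 :: .add false 1 0 :: .mul 34 34 :: .mul 24 30 :: .smul 3 113 ::
    .int 4 :: .sub true 1 0 :: .mul 0 113 :: .exp 0 :: .mul 118 0 :: .sub false 6 0 :: .mul 120 0 ::
    .add true 9 0 :: .mul 11 0 :: .mul 123 123 :: .mul 0 124 :: .cst 1 6 :: .sub false 117 126 ::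
    .sub true 0 78 :: .mul 2 0 :: .mul 33 0 :: .smul (-2) 0 :: .mul 6 0 :: .cst 1 1080 :: .smul 57
    133 :: .sub false 19 0 :: .smul 6 117 :: .sub false 1 0 :: .smul 156 137 :: .smul 102 120 ::
    .add false 1 0 :: .smul 103 140 :: .smul 312 123 :: .add true 1 0 :: .mul 143 0 :: .sub true 4 0
    :: .mul 145 0 :: .add false 9 0 :: .mul 129 129 :: .int 60 :: .smul 480 149 :: .add false 1 0 ::
    .smul 320 133 :: .add true 1 0 :: prog3

def prog1 : List Ins := .smul 2 0 :: .mul 19 44 :: .mul 0 11 :: .mul 0 10 :: .mul 0 25 :: .sub false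
    4 0 :: .mul 27 0 :: .add true 12 0 :: .cst 57 50 :: .sub true 45 44 :: .cst (-53) 100 :: .cst 63
    100 :: .mul 0 2 :: .add false 2 0 :: .mul 4 0 :: .add false 6 0 :: .mul 66 66 :: .mul 0 40 ::
    .mul 2 0 :: .sub true 63 0 :: .mul 12 0 :: .mul 71 34 :: .sub false 0 52 :: .mul 76 0 :: .mul 27
    45 :: .mul 0 39 :: .mul 61 40 :: .smul 2 0 :: .sub false 2 0 :: .mul 42 0 :: .add true 6 0 ::
    .mul 0 0 :: .smul 3 0 :: .mul 46 46 :: .mul 84 0 :: .mul 44 6 :: .add true 0 8 :: .mul 2 0 ::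
    .sub false 5 0 :: .mul 18 0 :: .sub false 93 75 :: .sub true 0 85 :: .mul 0 49 :: .mul 0 96 ::
    .smul 4 0 :: .mul 0 14 :: .add true 6 0 :: .mul 60 0 :: .mul 98 71 :: .cst 181 100 :: prog2

def prog : List Ins := .int 2 :: .var 0 :: .var 1 :: .mul 1 0 :: .add false 3 0 :: .smul 2 0 :: .var
    2 :: .smul (-1) 0 :: .mul 2 0 :: .tri 0 :: .mul 6 0 :: .int 1 :: .sub true 8 0 :: .mul 0 7 ::
    .tri 0 :: .mul 4 0 :: .sub false 7 0 :: .cst (-1) 2 :: .sub false 0 20 :: .smul 2 3 :: .sub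
    false 11 0 :: .sub true 19 24 :: .mul 0 18 :: .tri 0 :: .mul 4 0 :: .add true 6 0 :: .mul 9 0 ::
    .add true 12 0 :: .smul 2 0 :: .mul 30 0 :: .tri 28 :: .add true 25 16 :: .mul 0 3 :: .sub false
    0 18 :: .mul 4 0 :: .inv 0 :: .mul 8 0 :: .mul 22 40 :: .mul 0 31 :: .mul 42 32 :: .sub true 43
    34 :: .mul 1 0 :: .inv 0 :: .mul 4 0 :: .smul (-1) 0 :: .smul 2 30 :: .add true 40 0 :: .mul 0
    50 :: .mul 0 7 :: .mul 0 6 :: prog1

def vs : List Vr := [⟨3, 1, false, false⟩, ⟨2, 0, false, false⟩, ⟨8, 4, false, false⟩]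

def C : Chart := ⟨vs, prog, [], 1, 3⟩

end Pool.Agent.Lib.MP_d6150d_an.S6Cb
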