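import Pool.Agent.Lib.MP_d6150d_an.GDef

/-! A generated chart: the program. -/

namespace Pool.Agent.Lib.MP_d6150d_an.S6Cd

def prog3 : List Ins := .sub true 7 0 :: .mul 22 0 :: .mul 60 0 :: .smul 12 0 :: .sub false 49 161
    :: .mul 90 63 :: .smul 2 0 :: .sub true 2 0 :: .smul 3 0 :: .mul 0 34 :: .add true 6 0 :: .mul
    40 0 :: .cst 66 25 :: .cst 63 25 :: .mul 0 105 :: .add false 2 0 :: .mul 107 0 :: .cst (-44) 25
    :: .sub true 173 175 :: .mul 1 0 :: .add true 3 0 :: .mul 50 0 :: .mul 105 0 :: .add true 11 0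
    :: .mul 107 0 :: .add true 47 0 :: .mul 62 0 :: .add false 58 0 :: .mul 80 0 :: .sub false 82 0
    :: .cpy 0 :: []

def prog2 : List Ins := .cst (-67) 100 :: .mul 0 42 :: .add true 2 0 :: .mul 44 0 :: .add false 5 0
    :: .smul 3 37 :: .add false 1 0 :: .mul 34 34 :: .mul 24 30 :: .smul 3 114 :: .int 4 :: .sub
    true 1 0 :: .mul 0 114 :: .exp 0 :: .mul 119 0 :: .sub false 6 0 :: .mul 121 0 :: .add true 9 0
    :: .mul 11 0 :: .mul 124 124 :: .mul 0 125 :: .cst 1 6 :: .sub false 118 127 :: .sub true 0 78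
    :: .mul 2 0 :: .mul 33 0 :: .smul (-2) 0 :: .mul 6 0 :: .cst 1 1080 :: .smul 57 134 :: .sub
    false 19 0 :: .smul 6 117 :: .sub false 1 0 :: .smul 156 138 :: .smul 102 120 :: .add false 1 0
    :: .smul 103 141 :: .smul 312 123 :: .add true 1 0 :: .mul 144 0 :: .sub true 4 0 :: .mul 146 0
    :: .add false 9 0 :: .mul 129 129 :: .int 60 :: .smul 480 150 :: .add false 1 0 :: .smul 320 133
    :: .add true 1 0 :: .mul 5 0 :: prog3

def prog1 : List Ins := .mul 19 45 :: .mul 0 11 :: .mul 0 10 :: .mul 0 25 :: .sub false 4 0 :: .mul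
    27 0 :: .add true 12 0 :: .cst 57 50 :: .sub true 46 44 :: .cst (-53) 100 :: .cst 63 100 :: .mul
    0 2 :: .add true 2 0 :: .mul 4 0 :: .add false 6 0 :: .mul 67 67 :: .mul 0 40 :: .mul 2 0 ::
    .sub true 64 0 :: .mul 12 0 :: .mul 72 34 :: .sub false 0 52 :: .mul 77 0 :: .mul 27 45 :: .mul
    0 39 :: .mul 61 40 :: .smul 2 0 :: .sub true 2 0 :: .mul 42 0 :: .add true 6 0 :: .mul 0 0 ::
    .smul 3 0 :: .mul 46 46 :: .mul 85 0 :: .mul 44 6 :: .add true 0 8 :: .mul 2 0 :: .sub true 5 0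
    :: .mul 18 0 :: .sub false 94 75 :: .sub true 0 86 :: .mul 0 49 :: .mul 0 97 :: .smul 4 0 ::
    .mul 0 14 :: .add true 6 0 :: .mul 60 0 :: .mul 99 71 :: .cst 181 100 :: .cst 17 50 :: prog2

def prog : List Ins := .int 2 :: .var 1 :: .add false 1 0 :: .smul 2 0 :: .var 2 :: .smul (-1) 0 ::
    .mul 2 0 :: .tri 0 :: .mul 6 0 :: .int 1 :: .sub true 8 0 :: .mul 0 7 :: .tri 0 :: .mul 4 0 ::
    .sub false 7 0 :: .cst (-1) 2 :: .var 0 :: .sub false 1 0 :: .smul 2 4 :: .sub false 12 0 ::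
    .sub true 20 23 :: .mul 0 19 :: .tri 0 :: .mul 4 0 :: .add true 6 0 :: .mul 9 0 :: .add true 13
    0 :: .smul 2 0 :: .mul 31 0 :: .tri 29 :: .add true 26 16 :: .mul 0 3 :: .sub true 0 18 :: .mul
    4 0 :: .inv 0 :: .mul 8 0 :: .mul 22 41 :: .mul 0 32 :: .mul 43 33 :: .sub true 44 35 :: .mul 1
    0 :: .inv 0 :: .mul 4 0 :: .smul (-1) 0 :: .smul 2 30 :: .add true 41 0 :: .mul 0 51 :: .mul 0 7
    :: .mul 0 6 :: .smul 2 0 :: prog1

def vs : List Vr := [⟨3, 0, false, false⟩, ⟨2, 0, false, false⟩, ⟨8, 4, false, false⟩]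

def C : Chart := ⟨vs, prog, [], 1, 3⟩

end Pool.Agent.Lib.MP_d6150d_an.S6Cd
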