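import Pool.Agent.Lib.MP_d6150d_an.GDef

/-! A generated chart: the program. -/

namespace Pool.Agent.Lib.MP_d6150d_an.S6Ce

def prog3 : List Ins := .sub false 50 149 :: .mul 85 134 :: .smul 2 0 :: .sub true 2 0 :: .smul 3 0
    :: .mul 0 35 :: .add true 6 0 :: .mul 41 0 :: .cst 66 25 :: .cst 63 25 :: .mul 0 100 :: .add
    false 2 0 :: .mul 102 0 :: .cst (-44) 25 :: .sub true 159 163 :: .mul 1 0 :: .add true 3 0 ::
    .mul 51 0 :: .mul 118 0 :: .add true 11 0 :: .mul 120 0 :: .add true 48 0 :: .mul 63 0 :: .add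
    false 59 0 :: .mul 124 0 :: .sub false 82 0 :: .smul (-1) 0 :: .cpy 0 :: []

def prog2 : List Ins := .smul 3 33 :: .add false 1 0 :: .mul 31 31 :: .mul 20 25 :: .var 4 :: .mul
    77 0 :: .sub true 77 0 :: .mul 79 0 :: .sub true 78 0 :: .mul 104 0 :: .sub false 6 0 :: .mul
    106 0 :: .add true 9 0 :: .mul 11 0 :: .mul 109 109 :: .mul 0 110 :: .cst 1 6 :: .sub false 108
    112 :: .sub true 0 83 :: .mul 2 0 :: .mul 103 0 :: .smul (-2) 0 :: .mul 6 0 :: .cst 1 1080 ::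
    .int 4 :: .smul 57 120 :: .sub false 1 0 :: .smul 6 120 :: .sub false 1 0 :: .smul 156 124 ::
    .smul 102 123 :: .add false 1 0 :: .smul 103 127 :: .smul 312 126 :: .add true 1 0 :: .mul 130 0
    :: .sub true 4 0 :: .mul 132 0 :: .add false 9 0 :: .mul 132 132 :: .int 60 :: .smul 480 136 ::
    .add false 1 0 :: .smul 320 136 :: .add true 1 0 :: .mul 5 0 :: .sub true 7 0 :: .mul 23 0 ::
    .mul 131 0 :: .smul 12 0 :: prog3

def prog1 : List Ins := .mul 45 0 :: .sub false 42 33 :: .mul 11 34 :: .sub false 0 46 :: .mul 2 0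
    :: .inv 0 :: .mul 5 0 :: .smul (-1) 0 :: .cst 57 50 :: .sub true 53 52 :: .cst (-53) 100 :: .cst
    63 100 :: .mul 0 2 :: .add false 2 0 :: .mul 4 0 :: .add false 6 0 :: .mul 0 16 :: .sub true 58
    0 :: .mul 20 0 :: .sub false 11 39 :: .mul 65 0 :: .mul 35 53 :: .mul 0 16 :: .smul (-1) 0 ::
    .mul 67 18 :: .smul (-1) 0 :: .smul 2 0 :: .sub false 3 0 :: .mul 20 0 :: .add true 8 0 :: .mul
    0 0 :: .smul 3 0 :: .mul 24 24 :: .mul 69 5 :: .add true 0 7 :: .mul 2 0 :: .sub false 4 0 ::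
    .mul 18 0 :: .mul 71 83 :: .smul 4 0 :: .mul 0 10 :: .add true 3 0 :: .mul 34 0 :: .cst 181 100
    :: .cst 17 50 :: .cst (-67) 100 :: .mul 0 36 :: .add false 2 0 :: .mul 38 0 :: .add false 5 0 ::
    prog2

def prog : List Ins := .int 2 :: .var 0 :: .var 2 :: .mul 1 0 :: .add false 3 0 :: .cst (-1) 2 ::
    .sub false 0 4 :: .sub false 2 0 :: .int 1 :: .sub true 1 0 :: .smul 2 5 :: .sub true 0 2 ::
    .mul 7 0 :: .sub true 8 4 :: .mul 1 0 :: .inv 0 :: .mul 6 0 :: .var 1 :: .cst 5 3 :: .mul 0 1 ::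
    .var 3 :: .cst 1 32 :: .cst 5 6 :: .mul 0 5 :: .add false 2 0 :: .mul 4 0 :: .add false 6 0 ::
    .mul 23 0 :: .sub true 10 0 :: .mul 0 0 :: .mul 23 25 :: .mul 0 19 :: .mul 0 16 :: .smul (-1) 0
    :: .smul 2 27 :: .add true 26 0 :: .mul 0 31 :: .mul 0 23 :: .mul 0 22 :: .smul 2 0 :: .add true
    31 33 :: .mul 0 29 :: .mul 0 28 :: .mul 0 27 :: .mul 0 26 :: .sub false 5 0 :: .mul 28 0 :: .add
    false 13 0 :: .mul 18 0 :: .sub false 32 0 :: prog1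

def vs : List Vr := [⟨3, 1, false, false⟩, ⟨3, 0, false, true⟩, ⟨2, 0, false, true⟩, ⟨1, 0, false,
    false⟩, ⟨0, 0, false, false⟩]

def C : Chart := ⟨vs, prog, [], 1, 3⟩

end Pool.Agent.Lib.MP_d6150d_an.S6Ce
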