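import Pool.Agent.Lib.MP_d6150d_an.GDef

/-! A generated chart: the program. -/

namespace Pool.Agent.Lib.MP_d6150d_an.S6Cf

def prog3 : List Ins := .mul 85 134 :: .smul 2 0 :: .sub true 2 0 :: .smul 3 0 :: .mul 0 35 :: .add
    true 6 0 :: .mul 41 0 :: .cst 66 25 :: .cst 63 25 :: .mul 0 100 :: .add false 2 0 :: .mul 102 0
    :: .cst (-44) 25 :: .sub true 160 162 :: .mul 1 0 :: .add true 3 0 :: .mul 51 0 :: .mul 118 0 ::
    .add true 11 0 :: .mul 120 0 :: .add true 48 0 :: .mul 63 0 :: .add false 59 0 :: .mul 124 0 ::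
    .sub false 82 0 :: .smul (-1) 0 :: .cpy 0 :: []

def prog2 : List Ins := .add false 1 0 :: .mul 31 31 :: .mul 20 25 :: .var 4 :: .mul 77 0 :: .sub
    true 77 0 :: .mul 79 0 :: .sub true 78 0 :: .mul 105 0 :: .sub false 6 0 :: .mul 107 0 :: .add
    true 9 0 :: .mul 11 0 :: .mul 110 110 :: .mul 0 111 :: .cst 1 6 :: .sub false 108 113 :: .sub
    true 0 83 :: .mul 2 0 :: .mul 103 0 :: .smul (-2) 0 :: .mul 6 0 :: .cst 1 1080 :: .int 4 ::
    .smul 57 121 :: .sub false 1 0 :: .smul 6 120 :: .sub false 1 0 :: .smul 156 125 :: .smul 102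
    123 :: .add false 1 0 :: .smul 103 128 :: .smul 312 126 :: .add true 1 0 :: .mul 131 0 :: .sub
    true 4 0 :: .mul 133 0 :: .add false 9 0 :: .mul 132 132 :: .int 60 :: .smul 480 137 :: .add
    false 1 0 :: .smul 320 136 :: .add true 1 0 :: .mul 5 0 :: .sub true 7 0 :: .mul 23 0 :: .mul
    131 0 :: .smul 12 0 :: .sub false 50 148 :: prog3

def prog1 : List Ins := .sub false 42 33 :: .mul 11 34 :: .sub false 0 46 :: .mul 2 0 :: .inv 0 ::
    .mul 5 0 :: .smul (-1) 0 :: .cst 57 50 :: .sub true 54 52 :: .cst (-53) 100 :: .cst 63 100 ::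
    .mul 0 2 :: .add true 2 0 :: .mul 4 0 :: .add false 6 0 :: .mul 0 16 :: .sub true 58 0 :: .mul
    20 0 :: .sub false 11 39 :: .mul 66 0 :: .mul 35 53 :: .mul 0 16 :: .smul (-1) 0 :: .mul 67 18
    :: .smul (-1) 0 :: .smul 2 0 :: .sub false 3 0 :: .mul 20 0 :: .add true 8 0 :: .mul 0 0 ::
    .smul 3 0 :: .mul 24 24 :: .mul 69 5 :: .add true 0 7 :: .mul 2 0 :: .sub true 4 0 :: .mul 18 0
    :: .mul 71 84 :: .smul 4 0 :: .mul 0 10 :: .add true 3 0 :: .mul 34 0 :: .cst 181 100 :: .cst 17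
    50 :: .cst (-67) 100 :: .mul 0 36 :: .add true 2 0 :: .mul 38 0 :: .add false 5 0 :: .smul 3 33
    :: prog2

def prog : List Ins := .int 2 :: .var 2 :: .add false 1 0 :: .cst (-1) 2 :: .var 0 :: .sub false 1 0
    :: .sub false 3 0 :: .int 1 :: .sub true 1 0 :: .smul 2 6 :: .sub true 0 2 :: .mul 8 0 :: .sub
    true 9 4 :: .mul 1 0 :: .inv 0 :: .mul 6 0 :: .var 1 :: .cst 5 3 :: .mul 0 1 :: .var 3 :: .cst 1
    32 :: .cst 5 6 :: .mul 0 5 :: .add false 2 0 :: .mul 4 0 :: .add false 6 0 :: .mul 24 0 :: .sub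
    true 10 0 :: .mul 0 0 :: .mul 23 26 :: .mul 0 19 :: .mul 0 16 :: .smul (-1) 0 :: .smul 2 27 ::
    .add true 26 0 :: .mul 0 32 :: .mul 0 23 :: .mul 0 22 :: .smul 2 0 :: .add true 31 33 :: .mul 0
    29 :: .mul 0 28 :: .mul 0 27 :: .mul 0 26 :: .sub false 5 0 :: .mul 28 0 :: .add false 13 0 ::
    .mul 18 0 :: .sub false 32 0 :: .mul 46 0 :: prog1

def vs : List Vr := [⟨3, 0, false, false⟩, ⟨3, 0, false, true⟩, ⟨2, 0, false, true⟩, ⟨1, 0, false,
    false⟩, ⟨0, 0, false, false⟩]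

def C : Chart := ⟨vs, prog, [], 1, 3⟩

end Pool.Agent.Lib.MP_d6150d_an.S6Cf
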