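import Pool.Agent.Lib.MP_d6150d_an.GDef

/-! A generated chart: the program. -/

namespace Pool.Agent.Lib.MP_d6150d_an.S6EL

def prog1 : List Ins := .mul 26 0 :: .mul 13 23 :: .mul 17 18 :: .mul 1 0 :: .sub false 3 0 :: .cpy
    0 :: []

def prog : List Ins := .int 1 :: .var 0 :: .smul 2 0 :: .add true 2 0 :: .smul (-2) 0 :: .var 1 ::
    .smul 2 0 :: .sub true 6 0 :: .inv 0 :: .mul 4 0 :: .var 2 :: .exp 0 :: .mul 2 0 :: .add true 12
    11 :: .inv 8 :: .mul 1 0 :: .mul 4 4 :: .mul 1 0 :: .sub false 5 0 :: .smul (-1) 17 :: .sub true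
    19 14 :: .inv 0 :: .mul 2 0 :: .sub true 4 0 :: .int 2 :: .sub true 19 0 :: .mul 0 15 :: .exp 0
    :: .mul 0 16 :: .mul 0 0 :: .sub true 18 29 :: .mul 17 19 :: .sub true 0 30 :: .mul 2 0 :: .mul
    0 0 :: .mul 5 0 :: .sub false 26 20 :: .sub true 0 14 :: .mul 8 14 :: .sub true 1 0 :: .mul 26
    34 :: .mul 0 24 :: .sub true 36 41 :: .mul 39 0 :: .mul 0 32 :: .sub false 3 0 :: .mul 44 20 ::
    .add true 1 0 :: .mul 8 0 :: .sub true 13 0 :: prog1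

def vs : List Vr := [⟨2, 0, false, false⟩, ⟨2, 0, false, false⟩, ⟨5, 0, false, false⟩]

def C : Chart := ⟨vs, prog, [], 1, 3⟩

end Pool.Agent.Lib.MP_d6150d_an.S6EL
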