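import Pool.Agent.Lib.MP_d6150d_an.GDef

/-! A generated chart: the program. -/

namespace Pool.Agent.Lib.MP_d6150d_an.S6ER

def prog1 : List Ins := .mul 49 37 :: .mul 0 18 :: .mul 0 46 :: .mul 42 42 :: .mul 0 43 :: .mul 2 0
    :: .mul 0 41 :: .add false 7 0 :: .cpy 0 :: []

def prog : List Ins := .var 1 :: .int 2 :: .sub true 1 0 :: .var 2 :: .mul 1 0 :: .exp 0 :: .exp 2
    :: .mul 1 0 :: .mul 0 0 :: .int 1 :: .sub true 3 0 :: .var 0 :: .add true 2 0 :: .mul 0 6 ::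
    .sub true 0 2 :: .mul 4 0 :: .mul 0 0 :: .mul 8 0 :: .smul 2 6 :: .add true 9 0 :: .smul (-2) 0
    :: .smul 2 20 :: .sub true 12 0 :: .inv 0 :: .mul 3 0 :: .inv 24 :: .mul 13 0 :: .sub false 2 0
    :: .smul (-1) 16 :: .sub true 19 28 :: .inv 0 :: .mul 2 0 :: .sub true 4 0 :: .mul 8 26 :: .mul
    27 27 :: .mul 8 0 :: .sub false 2 0 :: .sub true 0 5 :: .mul 29 0 :: .sub true 6 0 :: .mul 27 39
    :: .mul 0 6 :: .sub true 41 32 :: .mul 23 0 :: .mul 0 37 :: .sub false 3 0 :: .mul 34 43 :: .add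
    true 1 0 :: .mul 8 0 :: .sub false 31 0 :: prog1

def vs : List Vr := [⟨2, 0, false, false⟩, ⟨2, 0, false, false⟩, ⟨5, 0, false, false⟩]

def C : Chart := ⟨vs, prog, [], 1, 3⟩

end Pool.Agent.Lib.MP_d6150d_an.S6ER
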