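import Pool.Agent.Lib.MP_d6150d_an.GDef

/-! A generated chart: the program. -/

namespace Pool.Agent.Lib.MP_d6150d_an.S6ES

def prog : List Ins := .var 2 :: .smul (-1) 0 :: .exp 0 :: .smul 5 0 :: .int 1 :: .var 0 :: .smul 2
    0 :: .add true 2 0 :: .var 1 :: .sub true 0 4 :: .mul 2 0 :: .int 2 :: .sub true 3 0 :: .mul 6 0
    :: .mul 0 11 :: .sub false 4 0 :: .mul 0 0 :: .mul 13 0 :: .add true 13 12 :: .mul 0 10 :: .mul
    9 17 :: .sub false 1 0 :: .mul 16 9 :: .mul 20 20 :: .mul 1 0 :: .add true 3 0 :: .smul 3 0 ::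
    .mul 18 18 :: .sub true 0 23 :: .mul 21 0 :: .int 4 :: .sub true 3 0 :: .smul 2 0 :: .mul 0 27
    :: .mul 0 31 :: .sub false 5 0 :: .mul 9 0 :: .add false 19 0 :: .cpy 0 :: []

def vs : List Vr := [⟨2, 0, false, false⟩, ⟨2, 0, false, false⟩, ⟨4, 0, false, false⟩]

def C : Chart := ⟨vs, prog, [], 1, 3⟩

end Pool.Agent.Lib.MP_d6150d_an.S6ES
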