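import Pool.Agent.Lib.MP_d6150d_an.GDef

/-! A generated chart: the program. -/

namespace Pool.Agent.Lib.MP_d6150d_an.S6ET

def prog1 : List Ins := .add true 7 0 :: .mul 53 0 :: .add true 11 0 :: .smul 2 0 :: .mul 25 0 ::
    .cst 7 32 :: .mul 0 0 :: .mul 48 1 :: .tri 0 :: .mul 52 0 :: .mul 27 6 :: .tri 0 :: .mul 31 0 ::
    .sub false 5 0 :: .smul 2 1 :: .sub false 7 0 :: .mul 25 14 :: .tri 0 :: .mul 29 0 :: .add true
    5 0 :: .mul 78 0 :: .add true 9 0 :: .smul 2 0 :: .mul 22 0 :: .sub false 25 0 :: .cpy 0 :: .cpy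
    55 :: []

def prog : List Ins := .int 1 :: .var 2 :: .sub false 1 0 :: .var 0 :: .add true 3 0 :: .mul 0 3 ::
    .sub false 0 2 :: .mul 4 0 :: .mul 0 0 :: .mul 0 1 :: .smul 2 6 :: .add true 10 0 :: .smul (-2)
    0 :: .var 1 :: .smul 2 0 :: .sub true 14 0 :: .inv 0 :: .mul 4 0 :: .mul 0 16 :: .inv 5 :: .mul
    15 0 :: .mul 19 19 :: .mul 1 0 :: .sub false 4 0 :: .smul (-1) 20 :: .sub true 24 11 :: .inv 0
    :: .mul 2 0 :: .sub false 4 0 :: .sub true 15 28 :: .mul 18 0 :: .mul 2 0 :: .add false 22 0 ::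
    .cst (-1) 3 :: .mul 0 0 :: .mul 20 1 :: .tri 0 :: .mul 24 0 :: .sub true 25 39 :: .mul 0 7 ::
    .tri 0 :: .mul 4 0 :: .sub false 6 0 :: .smul 2 1 :: .sub false 8 0 :: .int 2 :: .sub true 35 0
    :: .mul 0 17 :: .tri 0 :: .mul 4 0 :: prog1

def vs : List Vr := [⟨2, 0, false, false⟩, ⟨2, 0, false, false⟩, ⟨2, 0, false, false⟩]

def C : Chart := ⟨vs, prog, [], 2, 3⟩

end Pool.Agent.Lib.MP_d6150d_an.S6ET
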