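import Pool.Agent.Lib.MP_d6150d_an.S6cND

/-! A generated chart: the computations. -/

namespace Pool.Agent.Lib.MP_d6150d_an.S6cN

theorem k0 : chk C 0x8828288088801288088802881880881121121 [(272678883688448, 281474976710656), (0,
    8796093022208), (-562949953421312, -316659348799488)] = true := by
  decide +kernel

theorem k1 : chk C 0x88282 [(272678883688448, 281474976710656), (8796093022208, 17592186044416),
    (-562949953421312, -316659348799488)] = true := by
  decide +kernel

theorem k2 : chk C 0x882 [(272678883688448, 281474976710656), (17592186044416, 35184372088832),
    (-562949953421312, -316659348799488)] = true := by
  decide +kernel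

theorem k3 : chk C 0x880 [(272678883688448, 281474976710656), (35184372088832, 70368744177664),
    (-562949953421312, -316659348799488)] = true := by
  decide +kernel

theorem k4 : chk C 0x8 [(272678883688448, 281474976710656), (70368744177664, 140737488355328),
    (-562949953421312, -316659348799488)] = true := by
  decide +kernel

theorem k5 : chk C 0x88182888028881211 [(272678883688448, 281474976710656), (0, 70368744177664),
    (-316659348799488, -193514046488576)] = true := by
  decide +kernel

theorem k6 : chk C 0x8808800880288182188188112 [(272678883688448, 281474976710656), (0,
    70368744177664), (-193514046488576, -70368744177664)] = true := by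
  decide +kernel

theorem k7 : chk C 0x88082880880188021881282 [(272678883688448, 281474976710656), (70368744177664,
    140737488355328), (-316659348799488, -70368744177664)] = true := by
  decide +kernel

end Pool.Agent.Lib.MP_d6150d_an.S6cN
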