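import Pool.Agent.Lib.MP_d6150d_an.S6M
import Pool.Agent.Lib.MP_d6150d_an.S6cNK0

/-! A generated chart: the inequality. -/

namespace Pool.Agent.Lib.MP_d6150d_an.S6cN

set_option linter.unnecessarySeqFocus false
set_option linter.unusedTactic false
set_option linter.unusedVariables false

theorem gd : Gd C [(272678883688448, 281474976710656), (0, 140737488355328), (-562949953421312,
    -70368744177664)] := .split 2 (.split 1 (.split 1 (.split 1 (.split 1 (chk_sound k0) (chk_sound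
    k1)) (chk_sound k2)) (chk_sound k3)) (chk_sound k4)) (.split 1 (.split 2 (chk_sound k5)
    (chk_sound k6)) (chk_sound k7))

set_option maxRecDepth 100000 in
theorem eq {F m t D k c s th R n z v rq g l H M o0 o1 o2 : ℝ} (hD : D = m - F) (hk : k = (sKap D F))
    (hc : c = (sCap D F)) (hs : s = Real.exp t) (hth : th = Real.exp ((F - 2) * t)) (hR : R = 2 * c
    * (s * th) ^ 2) (hn : n = (sNh D F s)) (hz : z = 1 - R * n) (hv : v = k * z) (hrq : rq = (√v)⁻¹)
    (hg : g = -(v * rq)) (hl : l = 1 + 2 * m - z) (hH : H = ((s - 1) * ((1 + D) * s - D)) ^ 2) (hM :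
    M = R * H) (ho0 : o0 = (sOC D F m k c s R z g).1) (ho1 : o1 = (sOC D F m k c s R z g).2.1) (ho2
    : o2 = (sOC D F m k c s R z g).2.2) : outR prog 0 [F, m, t] = -(l * (l * o0 + M * o1) + M * M *
    th * o2) := by
  replace hD : D = (m - F) := hD.trans (by push_cast <;> ring)
  replace hk : k = (sKap D F) := hk.trans (sKap_0 ..)
  replace hc : c = (sCap D F) := hc.trans (sCap_0 ..)
  replace hth : th = (Real.exp ((F - (Int.cast (2) : ℝ)) * t)) := hth.trans (congrArg Real.exp (by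
    push_cast <;> ring))
  replace hR : R = (((Int.cast (2) : ℝ) * c) * ((s * th) * (s * th))) := hR.trans (by push_cast <;>
    ring)
  replace hn : n = (sNh D F s) := hn.trans (sNh_0 ..)
  replace hz : z = ((Int.cast (1) : ℝ) - (R * n)) := hz.trans (by push_cast <;> ring)
  replace hv : v = (k * z) := hv.trans (by push_cast <;> ring)
  replace hg : g = ((Int.cast (-1) : ℝ) * (v * rq)) := hg.trans (by push_cast <;> ring)
  replace hl : l = (((Int.cast (1) : ℝ) + ((Int.cast (2) : ℝ) * m)) - z) := hl.trans (by push_cast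
    <;> ring)
  replace hH : H = (((s - (Int.cast (1) : ℝ)) * ((((Int.cast (1) : ℝ) + D) * s) - D)) * ((s -
    (Int.cast (1) : ℝ)) * ((((Int.cast (1) : ℝ) + D) * s) - D))) := hH.trans (by push_cast <;> ring)
  replace hM : M = (R * H) := hM.trans (by push_cast <;> ring)
  replace ho0 : o0 = (sOC D F m k c s R z g).1 := ho0.trans (sOC_0 ..)
  replace ho1 : o1 = (sOC D F m k c s R z g).2.1 := ho1.trans (sOC_1 ..)
  replace ho2 : o2 = (sOC D F m k c s R z g).2.2 := ho2.trans (sOC_2 ..)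
  have e0 : ((Int.cast (-1) : ℝ) * ((l * ((l * o0) + (M * o1))) + (((M * M) * th) * o2))) = -(l * (l
    * o0 + M * o1) + M * M * th * o2) := by push_cast <;> ring
  subst hD hk hc hs hth hR hn hz hv hrq hg hl hH hM ho0 ho1 ho2
  dsimp only [outR, prog, prog1, prog2, prog3, prog4, runR, stepR, gtR, List.take, sOD, sOC, sO2,
    sO1, sPd, sPc, sE0, mPj, sKap, sCap, sNh, sCenC, sCenD, sCen3, sCen4, mK3, mK4, mMu] at e0 ⊢
  exact e0

theorem l0 : ((272678883688448 : ℤ) : ℝ) / 2 ^ 47 = 31 / 16 := by norm_num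
theorem u0 : (2 : ℝ) = ((281474976710656 : ℤ) : ℝ) / 2 ^ 47 := by norm_num
theorem l1 : ((0 : ℤ) : ℝ) / 2 ^ 47 = 0 := by norm_num
theorem u1 : (1 : ℝ) = ((140737488355328 : ℤ) : ℝ) / 2 ^ 47 := by norm_num
theorem l2 : ((-562949953421312 : ℤ) : ℝ) / 2 ^ 47 = -4 := by norm_num
theorem u2 : (-1 / 2 : ℝ) = ((-70368744177664 : ℤ) : ℝ) / 2 ^ 47 := by norm_num

theorem out0 {F m t : ℝ} (a0 : 31 / 16 ≤ F) (b0 : F ≤ 2) (a1 : 0 ≤ m) (b1 : m ≤ 1) (a2 : -4 ≤ t) (b2
    : t ≤ -1 / 2) : 0 < outR prog 0 [F, m, t] :=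
  gd 0 (by decide) [F, m, t] (.cons ⟨l0.le.trans a0, b0.trans u0.le⟩ (.cons ⟨l1.le.trans a1,
    b1.trans u1.le⟩ (.cons ⟨l2.le.trans a2, b2.trans u2.le⟩ (.nil)))) ⟨nofun, nofun, nofun, trivial⟩
    (List.forall_mem_nil _) (Van.of0 rfl) (nofun)

theorem pos0 {F m t D k c s th R n z v rq g l H M o0 o1 o2 : ℝ} (hD : D = m - F) (hk : k = (sKap D
    F)) (hc : c = (sCap D F)) (hs : s = Real.exp t) (hth : th = Real.exp ((F - 2) * t)) (hR : R = 2
    * c * (s * th) ^ 2) (hn : n = (sNh D F s)) (hz : z = 1 - R * n) (hv : v = k * z) (hrq : rq =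
    (√v)⁻¹) (hg : g = -(v * rq)) (hl : l = 1 + 2 * m - z) (hH : H = ((s - 1) * ((1 + D) * s - D)) ^
    2) (hM : M = R * H) (ho0 : o0 = (sOC D F m k c s R z g).1) (ho1 : o1 = (sOC D F m k c s R z
    g).2.1) (ho2 : o2 = (sOC D F m k c s R z g).2.2) (a0 : 31 / 16 ≤ F) (b0 : F ≤ 2) (a1 : 0 ≤ m)
    (b1 : m ≤ 1) (a2 : -4 ≤ t) (b2 : t ≤ -1 / 2) : 0 < -(l * (l * o0 + M * o1) + M * M * th * o2) :=
  have e := eq hD hk hc hs hth hR hn hz hv hrq hg hl hH hM ho0 ho1 ho2
  (out0 a0 b0 a1 b1 a2 b2).trans_eq e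

end Pool.Agent.Lib.MP_d6150d_an.S6cN
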