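import Pool.Agent.Lib.MP_d6150d_an.S6M
import Pool.Agent.Lib.MP_d6150d_an.S6cQK0

/-! A generated chart: the inequality. -/

namespace Pool.Agent.Lib.MP_d6150d_an.S6cQ

set_option linter.unnecessarySeqFocus false
set_option linter.unusedTactic false
set_option linter.unusedVariables false

theorem gd : Gd C [(0, 8796093022208), (0, 2748779069440), (0, 140737488355328), (0, 4398046511104)]
    := chk_sound k0

set_option maxRecDepth 100000 in
theorem eq {d s m o F D k c R n x z v rq g o0 o1 o2 : ℝ} (hF : F = 2 - d) (hD : D = m - F) (hk : k =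
    (sKap D F)) (hc : c = (sCap D F)) (hR : R = 2 * c * s * o) (hn : n = (sNh D F s)) (hx : x = R *
    n) (hz : z = 1 - x) (hv : v = k * z) (hrq : rq = (√v)⁻¹) (hg : g = -(v * rq)) (ho0 : o0 = (sOC D
    F m k c s R z g).1) (ho1 : o1 = (sOC D F m k c s R z g).2.1) (ho2 : o2 = (sOC D F m k c s R z
    g).2.2) : outR prog 0 [d, s, m, o] = -o2 := by
  replace hF : F = ((Int.cast (2) : ℝ) - d) := hF.trans (by push_cast <;> ring)
  replace hD : D = (m - F) := hD.trans (by push_cast <;> ring)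
  replace hk : k = (sKap D F) := hk.trans (sKap_0 ..)
  replace hc : c = (sCap D F) := hc.trans (sCap_0 ..)
  replace hR : R = ((((Int.cast (2) : ℝ) * c) * s) * o) := hR.trans (by push_cast <;> ring)
  replace hn : n = (sNh D F s) := hn.trans (sNh_0 ..)
  replace hx : x = (R * n) := hx.trans (by push_cast <;> ring)
  replace hz : z = ((Int.cast (1) : ℝ) - x) := hz.trans (by push_cast <;> ring)
  replace hv : v = (k * z) := hv.trans (by push_cast <;> ring)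
  replace hg : g = ((Int.cast (-1) : ℝ) * (v * rq)) := hg.trans (by push_cast <;> ring)
  replace ho0 : o0 = (sOC D F m k c s R z g).1 := ho0.trans (sOC_0 ..)
  replace ho1 : o1 = (sOC D F m k c s R z g).2.1 := ho1.trans (sOC_1 ..)
  replace ho2 : o2 = (sOC D F m k c s R z g).2.2 := ho2.trans (sOC_2 ..)
  have e0 : ((Int.cast (-1) : ℝ) * o2) = -o2 := by push_cast <;> ring
  subst hF hD hk hc hR hn hx hz hv hrq hg ho0 ho1 ho2
  dsimp only [outR, prog, prog1, prog2, runR, stepR, gtR, List.take, sOD, sOC, sO2, sO1, sPd, sPc,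
    sE0, mPj, sKap, sCap, sNh, sCenC, sCenD, sCen3, sCen4, mK3, mK4, mMu] at e0 ⊢
  exact e0

theorem l0 : ((0 : ℤ) : ℝ) / 2 ^ 47 = 0 := by norm_num
theorem u0 : (1 / 16 : ℝ) = ((8796093022208 : ℤ) : ℝ) / 2 ^ 47 := by norm_num
theorem l1 : ((0 : ℤ) : ℝ) / 2 ^ 47 = 0 := by norm_num
theorem u1 : (5 / 256 : ℝ) = ((2748779069440 : ℤ) : ℝ) / 2 ^ 47 := by norm_num
theorem l2 : ((0 : ℤ) : ℝ) / 2 ^ 47 = 0 := by norm_num
theorem u2 : (1 : ℝ) = ((140737488355328 : ℤ) : ℝ) / 2 ^ 47 := by norm_num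
theorem l3 : ((0 : ℤ) : ℝ) / 2 ^ 47 = 0 := by norm_num
theorem u3 : (1 / 32 : ℝ) = ((4398046511104 : ℤ) : ℝ) / 2 ^ 47 := by norm_num

theorem out0 {d s m o : ℝ} (a0 : 0 ≤ d) (b0 : d ≤ 1 / 16) (a1 : 0 ≤ s) (b1 : s ≤ 5 / 256) (a2 : 0 ≤
    m) (b2 : m ≤ 1) (a3 : 0 ≤ o) (b3 : o ≤ 1 / 32) : 0 < outR prog 0 [d, s, m, o] :=
  gd 0 (by decide) [d, s, m, o] (.cons ⟨l0.le.trans a0, b0.trans u0.le⟩ (.cons ⟨l1.le.trans a1,
    b1.trans u1.le⟩ (.cons ⟨l2.le.trans a2, b2.trans u2.le⟩ (.cons ⟨l3.le.trans a3, b3.trans u3.le⟩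
    (.nil))))) ⟨nofun, nofun, nofun, nofun, trivial⟩ (List.forall_mem_nil _) (Van.of0 rfl) (nofun)

theorem pos0 {d s m o F D k c R n x z v rq g o0 o1 o2 : ℝ} (hF : F = 2 - d) (hD : D = m - F) (hk : k
    = (sKap D F)) (hc : c = (sCap D F)) (hR : R = 2 * c * s * o) (hn : n = (sNh D F s)) (hx : x = R
    * n) (hz : z = 1 - x) (hv : v = k * z) (hrq : rq = (√v)⁻¹) (hg : g = -(v * rq)) (ho0 : o0 = (sOC
    D F m k c s R z g).1) (ho1 : o1 = (sOC D F m k c s R z g).2.1) (ho2 : o2 = (sOC D F m k c s R z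
    g).2.2) (a0 : 0 ≤ d) (b0 : d ≤ 1 / 16) (a1 : 0 ≤ s) (b1 : s ≤ 5 / 256) (a2 : 0 ≤ m) (b2 : m ≤ 1)
    (a3 : 0 ≤ o) (b3 : o ≤ 1 / 32) : 0 < -o2 :=
  have e := eq hF hD hk hc hR hn hx hz hv hrq hg ho0 ho1 ho2
  (out0 a0 b0 a1 b1 a2 b2 a3 b3).trans_eq e

end Pool.Agent.Lib.MP_d6150d_an.S6cQ
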