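import Pool.Agent.Lib.MP_d6150d_an.S6cRD

/-! A generated chart: the computations. -/

namespace Pool.Agent.Lib.MP_d6150d_an.S6cR

theorem k0 : chk C 0x882818811881828188012 [(272678883688448, 281474976710656), (0, 70368744177664),
    (0, 30786325577728)] = true := by
  decide +kernel

theorem k1 : chk C 0x881828818218818812881880211 [(272678883688448, 281474976710656),
    (70368744177664, 140737488355328), (0, 15393162788864)] = true := by
  decide +kernel

theorem k2 : chk C 0x882882188288211 [(272678883688448, 281474976710656), (70368744177664,
    140737488355328), (15393162788864, 30786325577728)] = true := by
  decide +kernel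

theorem k3 : chk C 0x8818812882811 [(272678883688448, 281474976710656), (0, 70368744177664),
    (30786325577728, 61572651155456)] = true := by
  decide +kernel

end Pool.Agent.Lib.MP_d6150d_an.S6cR
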