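import Pool.Agent.Lib.MP_d6150d_an.S6cRD

/-! A generated chart: the computations. -/

namespace Pool.Agent.Lib.MP_d6150d_an.S6cR

theorem k4 : chk C 0x880880188128828821882882121 [(272678883688448, 281474976710656),
    (70368744177664, 140737488355328), (30786325577728, 61572651155456)] = true := by
  decide +kernel

end Pool.Agent.Lib.MP_d6150d_an.S6cR
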