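import Pool.Agent.Lib.MP_d6150d_an.S6cSD

/-! A generated chart: the computations. -/

namespace Pool.Agent.Lib.MP_d6150d_an.S6cS

theorem k0 : chk C 0x88088088008880012 [(272678883688448, 281474976710656), (0, 70368744177664),
    (61572651155456, 83562883710976)] = true := by
  decide +kernel

theorem k1 : chk C 0x8808881088808120288088088810021 [(272678883688448, 281474976710656),
    (70368744177664, 140737488355328), (61572651155456, 83562883710976)] = true := by
  decide +kernel

theorem k2 : chk C 0x88802 [(272678883688448, 281474976710656), (0, 140737488355328),
    (83562883710976, 105553116266496)] = true := by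
  decide +kernel

end Pool.Agent.Lib.MP_d6150d_an.S6cS
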