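import Pool.Agent.Lib.MP_d6150d_an.S6cTD

/-! A generated chart: the computations. -/

namespace Pool.Agent.Lib.MP_d6150d_an.S6cT

theorem k0 : chk C 0xa99448884188901949402 [(0, 4398046511104), (0, 2748779069440), (0,
    17592186044416), (0, 4398046511104), (0, 8796093022208)] = true := by
  decide +kernel

theorem k1 : chk C 0xaa88188088884101022 [(0, 4398046511104), (0, 2748779069440), (0,
    17592186044416), (0, 4398046511104), (8796093022208, 17592186044416)] = true := by
  decide +kernel

theorem k2 : chk C 0x8818844 [(4398046511104, 8796093022208), (0, 2748779069440), (0,
    17592186044416), (0, 4398046511104), (0, 17592186044416)] = true := by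
  decide +kernel

theorem k3 : chk C 0xaa8a94044 [(0, 8796093022208), (0, 2748779069440), (17592186044416,
    35184372088832), (0, 4398046511104), (0, 17592186044416)] = true := by
  decide +kernel

theorem k4 : chk C 0xaaaa8818884088840102222 [(0, 8796093022208), (0, 2748779069440), (0,
    35184372088832), (0, 4398046511104), (17592186044416, 35184372088832)] = true := by
  decide +kernel

theorem k5 : chk C 0xaaaaa8881488814022222 [(0, 8796093022208), (0, 2748779069440), (0,
    35184372088832), (0, 4398046511104), (35184372088832, 70368744177664)] = true := by
  decide +kernel

theorem k6 : chk C 0xaaaa8a992404444 [(0, 8796093022208), (0, 2748779069440), (35184372088832,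
    70368744177664), (0, 4398046511104), (0, 70368744177664)] = true := by
  decide +kernel

theorem k7 : chk C 0xaaaaaaaa884884022222222 [(0, 8796093022208), (0, 2748779069440), (0,
    70368744177664), (0, 4398046511104), (70368744177664, 140737488355328)] = true := by
  decide +kernel

theorem k8 : chk C 0xaaaaaaa881a881909922404444444 [(0, 8796093022208), (0, 2748779069440),
    (70368744177664, 140737488355328), (0, 4398046511104), (0, 140737488355328)] = true := by
  decide +kernel

end Pool.Agent.Lib.MP_d6150d_an.S6cT
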