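import Pool.Agent.Lib.MP_d6150d_an.S6M
import Pool.Agent.Lib.MP_d6150d_an.S6cTK0

/-! A generated chart: the inequality. -/

namespace Pool.Agent.Lib.MP_d6150d_an.S6cT

set_option linter.unnecessarySeqFocus false
set_option linter.unusedTactic false
set_option linter.unusedVariables false

theorem gd : Gd C [(0, 8796093022208), (0, 2748779069440), (0, 140737488355328), (0, 4398046511104),
    (0, 140737488355328)] := .split 2 (.split 4 (.split 2 (.split 4 (.split 4 (.split 2 (.split 0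
    (.split 4 (chk_sound k0) (chk_sound k1)) (chk_sound k2)) (chk_sound k3)) (chk_sound k4))
    (chk_sound k5)) (chk_sound k6)) (chk_sound k7)) (chk_sound k8)

set_option maxRecDepth 100000 in
theorem eq {d s m o la F D k c R n x z v rq g o0 o1 o2 H M : ℝ} (hF : F = 2 - d) (hD : D = m - F)
    (hk : k = (sKap D F)) (hc : c = (sCap D F)) (hR : R = 2 * c * s * o) (hn : n = (sNh D F s)) (hx
    : x = R * n) (hz : z = 1 - x) (hv : v = k * z) (hrq : rq = (√v)⁻¹) (hg : g = -(v * rq)) (ho0 :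
    o0 = (sOC D F m k c s R z g).1) (ho1 : o1 = (sOC D F m k c s R z g).2.1) (ho2 : o2 = (sOC D F m
    k c s R z g).2.2) (hH : H = ((s - 1) * ((1 + D) * s - D)) ^ 2) (hM : M = la * H) : outR prog 0
    [d, s, m, o, la] = -(n * (n * o0 + M * o1) + M * M * o2) ∧ outR (prog.take 43) 0 [d, s, m, o,
    la] = x - la * (1 + 2 * m - z) := by
  replace hF : F = ((Int.cast (2) : ℝ) - d) := hF.trans (by push_cast <;> ring)
  replace hD : D = (m - F) := hD.trans (by push_cast <;> ring)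
  replace hk : k = (sKap D F) := hk.trans (sKap_0 ..)
  replace hc : c = (sCap D F) := hc.trans (sCap_0 ..)
  replace hR : R = ((((Int.cast (2) : ℝ) * c) * s) * o) := hR.trans (by push_cast <;> ring)
  replace hn : n = (sNh D F s) := hn.trans (sNh_0 ..)
  replace hx : x = (R * n) := hx.trans (by push_cast <;> ring)
  replace hz : z = ((Int.cast (1) : ℝ) - x) := hz.trans (by push_cast <;> ring)
  replace hv : v = (k * z) := hv.trans (by push_cast <;> ring)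
  replace hg : g = ((Int.cast (-1) : ℝ) * (v * rq)) := hg.trans (by push_cast <;> ring)
  replace ho0 : o0 = (sOC D F m k c s R z g).1 := ho0.trans (sOC_0 ..)
  replace ho1 : o1 = (sOC D F m k c s R z g).2.1 := ho1.trans (sOC_1 ..)
  replace ho2 : o2 = (sOC D F m k c s R z g).2.2 := ho2.trans (sOC_2 ..)
  replace hH : H = (((s - (Int.cast (1) : ℝ)) * ((((Int.cast (1) : ℝ) + D) * s) - D)) * ((s -
    (Int.cast (1) : ℝ)) * ((((Int.cast (1) : ℝ) + D) * s) - D))) := hH.trans (by push_cast <;> ring)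
  replace hM : M = (la * H) := hM.trans (by push_cast <;> ring)
  have e0 : ((Int.cast (-1) : ℝ) * ((n * ((n * o0) + (M * o1))) + ((M * M) * o2))) = -(n * (n * o0 +
    M * o1) + M * M * o2) := by push_cast <;> ring
  have e1 : (x - (la * (((Int.cast (1) : ℝ) + ((Int.cast (2) : ℝ) * m)) - z))) = x - la * (1 + 2 * m
    - z) := by push_cast <;> ring
  subst hF hD hk hc hR hn hx hz hv hrq hg ho0 ho1 ho2 hH hM
  dsimp only [outR, prog, prog1, prog2, prog3, prog4, runR, stepR, gtR, List.take, sOD, sOC, sO2,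
    sO1, sPd, sPc, sE0, mPj, sKap, sCap, sNh, sCenC, sCenD, sCen3, sCen4, mK3, mK4, mMu] at e0 e1 ⊢
  exact ⟨e0, e1⟩

theorem l0 : ((0 : ℤ) : ℝ) / 2 ^ 47 = 0 := by norm_num
theorem u0 : (1 / 16 : ℝ) = ((8796093022208 : ℤ) : ℝ) / 2 ^ 47 := by norm_num
theorem l1 : ((0 : ℤ) : ℝ) / 2 ^ 47 = 0 := by norm_num
theorem u1 : (5 / 256 : ℝ) = ((2748779069440 : ℤ) : ℝ) / 2 ^ 47 := by norm_num
theorem l2 : ((0 : ℤ) : ℝ) / 2 ^ 47 = 0 := by norm_num
theorem u2 : (1 : ℝ) = ((140737488355328 : ℤ) : ℝ) / 2 ^ 47 := by norm_num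
theorem l3 : ((0 : ℤ) : ℝ) / 2 ^ 47 = 0 := by norm_num
theorem u3 : (1 / 32 : ℝ) = ((4398046511104 : ℤ) : ℝ) / 2 ^ 47 := by norm_num
theorem l4 : ((0 : ℤ) : ℝ) / 2 ^ 47 = 0 := by norm_num
theorem u4 : (1 : ℝ) = ((140737488355328 : ℤ) : ℝ) / 2 ^ 47 := by norm_num

theorem out0 (N : ∀ m o la : ℝ, 0 ≤ m → m ≤ 1 → 0 ≤ o → o ≤ 1 / 32 → 0 ≤ la → la ≤ 1 → 0 ≤ outR prog
    0 [0, 0, m, o, la]) {d s m o la : ℝ} (a0 : 0 ≤ d) (b0 : d ≤ 1 / 16) (a1 : 0 ≤ s) (b1 : s ≤ 5 /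
    256) (a2 : 0 ≤ m) (b2 : m ≤ 1) (a3 : 0 ≤ o) (b3 : o ≤ 1 / 32) (a4 : 0 ≤ la) (b4 : la ≤ 1) (p0 :
    0 < d) (p1 : 0 < s) (c0 : 0 ≤ outR (prog.take 43) 0 [d, s, m, o, la]) : 0 < outR prog 0 [d, s,
    m, o, la] :=
  gd 0 (by decide) [d, s, m, o, la] (.cons ⟨l0.le.trans a0, b0.trans u0.le⟩ (.cons ⟨l1.le.trans a1,
    b1.trans u1.le⟩ (.cons ⟨l2.le.trans a2, b2.trans u2.le⟩ (.cons ⟨l3.le.trans a3, b3.trans u3.le⟩
    (.cons ⟨l4.le.trans a4, b4.trans u4.le⟩ (.nil)))))) ⟨fun _ ↦ p0, fun _ ↦ p1, nofun, nofun,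
    nofun, trivial⟩ (List.forall_mem_cons.2 ⟨c0, List.forall_mem_nil _⟩) (Van.of0 rfl) (fun _ _ _ _
    _ _ _ y2 a2 b2 y3 a3 b3 y4 a4 b4 ↦ N y2 y3 y4 (l2.ge.trans a2) (b2.trans u2.ge) (l3.ge.trans a3)
    (b3.trans u3.ge) (l4.ge.trans a4) (b4.trans u4.ge))

end Pool.Agent.Lib.MP_d6150d_an.S6cT
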