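import Pool.Agent.Lib.MP_d6150d_an.S6cZD

/-! A generated chart: the computations. -/

namespace Pool.Agent.Lib.MP_d6150d_an.S6cZ

theorem k0 : chk C 0xaaa88814222aa944a888811128a9219924424 [(0, 0), (0, 2748779069440), (0,
    35184372088832), (0, 4398046511104), (0, 35184372088832)] = true := by
  decide +kernel

theorem k1 : chk C 0xaa8881422 [(0, 0), (0, 2748779069440), (0, 35184372088832), (0, 4398046511104),
    (35184372088832, 70368744177664)] = true := by
  decide +kernel

theorem k2 : chk C 0xaaaa94444 [(0, 0), (0, 2748779069440), (35184372088832, 70368744177664), (0,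
    4398046511104), (0, 70368744177664)] = true := by
  decide +kernel

theorem k3 : chk C 0xaaa884222 [(0, 0), (0, 2748779069440), (0, 70368744177664), (0, 4398046511104),
    (70368744177664, 140737488355328)] = true := by
  decide +kernel

theorem k4 : chk C 0xaaaaa9929244444 [(0, 0), (0, 2748779069440), (70368744177664, 140737488355328),
    (0, 4398046511104), (0, 140737488355328)] = true := by
  decide +kernel

end Pool.Agent.Lib.MP_d6150d_an.S6cZ
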