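import Pool.Agent.Lib.MP_d6150d_an.S6K
import Pool.Agent.Lib.MP_d6150d_an.S6cL
import Pool.Agent.Lib.MP_d6150d_an.S6cR
import Pool.Agent.Lib.MP_d6150d_an.S6cN
import Pool.Agent.Lib.MP_d6150d_an.S6cS
import Pool.Agent.Lib.MP_d6150d_an.S6cQ
import Pool.Agent.Lib.MP_d6150d_an.S6cT
import Pool.Agent.Lib.MP_d6150d_an.S6cZ

/-! The region `31 / 16 ≤ F ≤ 2`, `-F ≤ D ≤ -1`. -/

namespace Pool.Agent.Lib.MP_d6150d_an.S6

open Real Set Filter Topology Asymptotics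

variable {D F t m k c s θ R n z v g G l : ℝ}

/-- the pole of the separator -/
noncomputable def lz (m : ℝ) : ℝ := (Int.cast 1 : ℝ) + (Int.cast 2 : ℝ) * m

theorem lz_eq : lz m = 1 + 2 * m := by simp [lz]

/-- the function whose sign is studied -/
noncomputable def XC (D F m k c : ℝ) : ℝ → ℝ :=
  X D F c (lz m) (lz m * sE0 D F k ((Int.cast 4 : ℝ) * lz m)
    ((Int.cast 2 : ℝ) * (sPc m).1 - (lz m - (Int.cast 1 : ℝ)))) (sPc m).2.2.1 (sPc m).2.2.2.1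
    (sPc m).2.2.2.2 (o1 c (lz m) (sPc m).1 (sPc m).2.1)

theorem cenC (ht : t ∈ JR D) (t0 : t ≠ 0) :
    t * sCenC D F m k c t = 2 * (ph1 t * om D t) ^ 5 * XC D F m k c t := cen1 ht t0

theorem bigC (h1 : 31 / 16 ≤ F) (h2 : m ≤ 1) (hD : D = m - F) :
    (sCenC D F m (sKap D F) (sCap D F) =O[𝓝[>] 0] fun u ↦ u ^ 4) ∧
      (fun u ↦ sCenC D F m (sKap D F) (sCap D F) (-u)) =O[𝓝[>] 0] fun u ↦ u ^ 4 :=
  cen_bigO (X_bigO (kap_cap (by linarith) (by linarith)) (by push_cast; ring)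
    (by push_cast; ring)) fun _ ↦ cenC

theorem sgC (ht : t ∈ JR D) (t0 : t ≠ 0) (h : 0 < -sCenC D F m k c t) : 0 < t * -XC D F m k c t :=
  sg_cen (A := 2) (j := 5) ht t0 two_pos h (by linear_combination -cenC ht t0)

theorem zeroC {x y : ℝ} {o : ℝ × ℝ × ℝ} (ho : o = sOC D 2 m k c 0 0 z g) (h : 0 < -o.2.2) :
    0 ≤ -(x * (x * o.1 + y * o.2.1) + y * y * o.2.2) := by
  have h1 : o.1 = 0 := by simp [ho, sOC, sO1, pj_zero]
  have h2 : o.2.1 = 0 := by simp [ho, sOC, sO1, pj_zero]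
  rw [h1, h2]
  nlinarith [mul_nonneg (mul_self_nonneg y) h.le]

theorem Pt.tailC (P : Pt D F m t k c s θ R n z v g G l) (h1 : 31 / 16 ≤ F) (h2 : F ≤ 2) (m1 : m ≤ 1)
    (h : t ≤ -4) : 0 < t * -XC D F m k c t := by
  have tn : t < 0 := by linarith
  have hF : F = 2 - (2 - F) := by ring
  have hR : R = 2 * c * s * (s * θ ^ 2) := by rw [P.hR]; ring
  have s1 : s ≤ 5 / 256 := P.hs ▸ exp_le_of 8 h (by norm_num)
    (by norm_num [Finset.sum_range_succ, Nat.factorial]) (by norm_num)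
  have o1 : s * θ ^ 2 ≤ 1 / 32 := by
    rw [P.hs, P.hθ, sq, ← exp_add, ← exp_add]
    exact exp_le_of (x := 7 / 2) 8 (by nlinarith) (by norm_num)
      (by norm_num [Finset.sum_range_succ, Nat.factorial]) (by norm_num)
  have θ1 : 1 ≤ θ := P.hθ ▸ one_le_exp (by nlinarith)
  have s0 := P.s0
  have o0 : 0 ≤ s * θ ^ 2 := by positivity
  have l0 := P.l0
  have x0 := mul_pos P.R0 P.n0
  have a0 : 0 ≤ R * n / l := by positivity
  have a1 : R * n / l ≤ 1 := (div_le_one l0).2 P.x_le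
  have c0 : 0 ≤ R * n - R * n / l * (1 + 2 * m - z) := by rw [← P.hl]; field_simp; simp
  have q := S6cQ.pos0 hF P.hD P.hk P.hc hR P.hn rfl P.hz P.hv rfl (P.gn tn) rfl rfl rfl
    (by linarith) (by linarith) s0.le s1 P.m0 m1 o0 o1
  have key : 0 < -(n * (n * (sOC D F m k c s R z g).1 + R * n / l * G ^ 2 *
      (sOC D F m k c s R z g).2.1) + R * n / l * G ^ 2 * (R * n / l * G ^ 2) *
      (sOC D F m k c s R z g).2.2) := by
    rcases h2.eq_or_lt with e | e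
    · have E := S6cZ.eq hF P.hD P.hk P.hc hR P.hn rfl P.hz P.hv rfl (P.gn tn) rfl rfl rfl
        (congrArg (· ^ 2) P.hG) (la := R * n / l) rfl
      refine (S6cZ.out0 (fun d m o la d0 d1 m0 m1 o0 o1 _ _ ↦ ?_) (by linarith) (by linarith) s0.le
        s1 P.m0 m1 o0 o1 a0 a1 s0 (c0.trans_eq E.2.symm)).trans_eq E.1
      obtain rfl : d = 0 := le_antisymm d1 d0
      rw [(S6cZ.eq (F := 2) (R := 0) (by norm_num) rfl rfl rfl (by ring) rfl rfl rfl rfl rfl rfl rfl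
        rfl rfl rfl rfl).1]
      exact zeroC rfl (S6cQ.pos0 (d := 0) (o := o) (by norm_num) rfl rfl rfl (by ring) rfl rfl rfl rfl
        rfl rfl rfl rfl rfl le_rfl (by norm_num) le_rfl (by norm_num) m0 m1 o0 o1)
    · have E := S6cT.eq hF P.hD P.hk P.hc hR P.hn rfl P.hz P.hv rfl (P.gn tn) rfl rfl rfl
        (congrArg (· ^ 2) P.hG) (la := R * n / l) rfl
      refine (S6cT.out0 (fun m o la m0 m1 o0 o1 _ _ ↦ ?_) (by linarith) (by linarith) s0.le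
        s1 P.m0 m1 o0 o1 a0 a1 (by linarith) s0 (c0.trans_eq E.2.symm)).trans_eq E.1
      rw [(S6cT.eq (F := 2) (R := 0) (by norm_num) rfl rfl rfl (by ring) rfl rfl rfl rfl rfl rfl rfl
        rfl rfl rfl rfl).1]
      exact zeroC rfl (S6cQ.pos0 (d := 0) (o := o) (by norm_num) rfl rfl rfl (by ring) rfl rfl rfl rfl
        rfl rfl rfl rfl rfl le_rfl (by norm_num) le_rfl (by norm_num) m0 m1 o0 o1)
  have n0 := P.n0
  refine P.sg1 lz_eq (o := sOC D F m k c s R z g) rfl (x := l / n) (l' := n)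
    (M := R * n / l * G ^ 2) (by positivity) (by field_simp) (by field_simp) ?_
  nlinarith [mul_nonneg (mul_nonneg (mul_self_nonneg (R * n / l * G ^ 2)) (sub_nonneg.2 θ1)) q.le]

theorem signC (h1 : 31 / 16 ≤ F) (h2 : F ≤ 2) (m0 : 0 ≤ m) (m1 : m ≤ 1) (hD : D = m - F)
    (ht : t ∈ JR D) (t0 : t ≠ 0) (z1 : sCap D F * vR D F t < 1) :
    0 < t * -XC D F m (sKap D F) (sCap D F) t := by
  obtain ⟨s, θ, R, n, z, v, g, G, l, P⟩ :=
    exists_pt ht t0 (by linarith) (by linarith) m0 hD z1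
  rcases t0.lt_or_gt with tn | tp
  · rcases le_total t (-4) with h | h
    · exact P.tailC h1 h2 m1 h
    rcases le_total t (-1 / 2) with h' | h'
    · exact P.sg1 lz_eq rfl one_pos (one_mul _).symm (one_mul _).symm
        (S6cN.pos0 hD rfl rfl P.hs P.hθ P.hR P.hn P.hz P.hv rfl (P.gn tn) P.hl
          (congrArg (· ^ 2) P.hG) rfl rfl rfl rfl h1 h2 m0 m1 h h')
    · refine sgC ht t0 ((S6cL.out0 (fun F m a b c d ↦ ?_) h1 h2 m0 m1 (by linarith) (by linarith)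
        (neg_pos.2 tn)).trans_eq (S6cL.eq hD rfl rfl (neg_neg t).symm rfl))
      exact (bigC a d rfl).2.neg_left.congr_left fun u ↦ (S6cL.eq rfl rfl rfl rfl rfl).symm
  · rcases le_total t (7 / 16) with h | h
    · refine sgC ht t0 ((S6cR.out0 (fun F m a b c d ↦ ?_) h1 h2 m0 m1 tp.le h tp).trans_eq
        (S6cR.eq hD rfl rfl rfl))
      exact (bigC a d rfl).1.neg_left.congr_left fun u ↦ (S6cR.eq rfl rfl rfl rfl).symm
    · obtain ⟨sg, a, N, p, mm, e1, e2, e3, e4, e5, g0, p0, p1, t1, e6, e7⟩ := P.sad tp h1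
      exact P.sg1 lz_eq rfl (pow_pos g0 2) (by rw [P.hl, P.hz, e6, e5]; ring) (by rw [e7]; ring)
        (S6cS.pos0 P.hs e1 e2 e3 e4 e5 hD rfl rfl P.hθ P.hR rfl rfl (by rw [P.hz, e6]; ring) P.hv
          rfl (P.gp tp) rfl rfl rfl rfl rfl rfl h1 h2 p0 p1 h t1)

theorem famC (h1 : 31 / 16 ≤ F) (h2 : F ≤ 2) (h3 : 0 ≤ D + F) (h4 : D ≤ -1) : NoThree D F := by
  refine Crit1.noThree ⟨o1 (sCap D F) (lz (D + F)) (sPc (D + F)).1 (sPc (D + F)).2.1, -1,
    fun h ↦ by simp [o1, zo, Gp.P], fun a ha b hb a0 b0 e ↦ ?_⟩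
  obtain ⟨z0, z1, q⟩ := sep (σ := -1) (by linarith) (by linarith) lz_eq h3 (fun t ht t0 z1 ↦ by
    rw [neg_one_mul]; exact signC h1 h2 h3 (by linarith) (by ring) ht t0 z1) ha hb a0 b0 e
  refine ⟨?_, q⟩
  have := mul_nonneg (by linarith : 0 ≤ 1 + 2 * (D + F) - sCap D F * vR D F b)
    (by positivity : 0 ≤ 1 + sCap D F * vR D F b + (sCap D F * vR D F b) ^ 2)
  simp only [o1, zo, Gp.Q, lz_eq]
  linarith

end Pool.Agent.Lib.MP_d6150d_an.S6
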