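import Pool.Agent.Lib.MP_d6150d_an.S6M
import Pool.Agent.Lib.MP_d6150d_an.KNJ

/-! Operators in the normalised level `z = c v`, for `F > 1`. -/

namespace Pool.Agent.Lib.MP_d6150d_an.S6

open Real Set Filter Topology Asymptotics

variable {D F t c l0 p0 p1 ql h0 h1 h2 R1 R2 e0 e1 e2 e3 : ℝ}

/-- the operator `P z^2 w'' + Q z w' + R w` -/
noncomputable def zo (c P0 P1 P2 P3 Q0 Q1 Q2 Q3 R1 R2 : ℝ) : Gp :=
  ⟨P0 / 4, Q0 / 2 - 5 * P0 / 2, 6 * P0 - 2 * Q0, c * P1 / 4, c * (Q1 / 2 - 5 * P1 / 2),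
    c * (R1 + 6 * P1 - 2 * Q1), c ^ 2 * P2 / 4, c ^ 2 * (Q2 / 2 - 5 * P2 / 2),
    c ^ 2 * (R2 + 6 * P2 - 2 * Q2), c ^ 3 * P3 / 4, c ^ 3 * (Q3 / 2 - 11 * P3 / 4), 0⟩

/-- order one -/
noncomputable def o1 (c l0 R1 R2 : ℝ) : Gp := zo c 0 0 0 0 l0 (l0 - 1) (l0 - 1) (-1) R1 R2

/-- order two -/
noncomputable def o2 (c l0 p0 p1 ql h0 h1 h2 R1 R2 : ℝ) : Gp :=
  zo c (l0 * p0) (l0 * p1 - (l0 + 1) * p0) (p0 - (l0 + 1) * p1) p1 (ql * l0 - h0) (h0 - h1 - ql)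
    (h1 - h2) h2 R1 R2

/-- the kernel minus the separator -/
noncomputable def X (D F c l0 e0 e1 e2 e3 : ℝ) (o : Gp) (t : ℝ) : ℝ :=
  (l0 - c * vR D F t) * o.K D F t - (c * vR D F t) ^ 2 *
    (e0 + c * vR D F t * (e1 + c * vR D F t * (e2 + c * vR D F t * e3)))

theorem PR_eq : PR D t = (1 + D) * (exp t * exp t) := by rw [PR, sq]

theorem exp_F : exp (F * t) = exp t ^ 2 * exp ((F - 2) * t) := by
  rw [sq, ← exp_add, ← exp_add]; ring_nf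

theorem exp_G : exp ((2 - 2 * F) * t) = ((exp t * exp ((F - 2) * t)) ^ 2)⁻¹ := by
  rw [← exp_add, sq, ← exp_add, ← exp_neg]; ring_nf

theorem uR_eq (hF : F ≠ 0) : uR F t = (exp (F * t) - 1) / F := by
  rw [exp_eq_ph, uR]; field_simp; ring

theorem out1 (ht : t ∈ JR D) (t0 : t ≠ 0) (hF : F ≠ 0) (hc : c ≠ 0) {s θ R z l G : ℝ}
    {o : ℝ × ℝ × ℝ} (hs : s = exp t) (hθ : θ = exp ((F - 2) * t)) (hR : R = 2 * c * (s * θ) ^ 2)
    (hz : z = c * vR D F t) (hl : l = l0 - z) (hG : G = (s - 1) * ((1 + D) * s - D))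
    (ho : o = sO1 D F s R z (gR D F t) c l0 R1 R2 e0 e1 e2 e3) :
    s ^ 2 * θ * (l * (l * o.1 + R * G ^ 2 * o.2.1) + (R * G ^ 2) ^ 2 * θ * o.2.2) =
      2 * R ^ 3 * G ^ 5 * X D F c l0 e0 e1 e2 e3 (o1 c l0 R1 R2) t := by
  have hw := wR_ne ht t0
  have e : wR D t = G := by rw [wR_eq, om, hG, hs]
  have s0 : s ≠ 0 := hs ▸ exp_ne_zero _
  have θ0 : θ ≠ 0 := hθ ▸ exp_ne_zero _
  have eF : exp (F * t) = s ^ 2 * θ := by rw [exp_F, hs, hθ]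
  have eG : exp ((2 - 2 * F) * t) = ((s * θ) ^ 2)⁻¹ := by rw [exp_G, hs, hθ]
  rw [X, Gp.K_eq ht t0, uR_eq hF]
  rw [e] at hw
  simp only [ho, sO1, ← mPj_0, ← mPj_1, U1, U2, U3, U4, yR, e, eF, eG, PR_eq, QR, ← hs,
    o1, zo, Gp.P, Gp.C3, Gp.C2, Gp.C1, Gp.C0]
  push_cast
  rw [← hG]
  generalize pjR F _ _ D = J
  subst hl hz hR
  field_simp
  ring

theorem out2 (ht : t ∈ JR D) (t0 : t ≠ 0) (hF : F ≠ 0) (hc : c ≠ 0) {s θ R z n l G : ℝ}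
    {o : ℝ × ℝ × ℝ × ℝ × ℝ} (hs : s = exp t) (hθ : θ = exp ((F - 2) * t))
    (hR : R = 2 * c * (s * θ) ^ 2) (hz : z = c * vR D F t) (hn : R * n = 1 - z) (hl : l = l0 - z)
    (hG : G = (s - 1) * ((1 + D) * s - D))
    (ho : o = sO2 D F s R z (gR D F t) c l0 p0 p1 ql h0 h1 h2 R1 R2 e0 e1 e2 e3) :
    s ^ 2 * θ * (l * (l * (n * o.1 + G ^ 2 * o.2.1) + R * G ^ 2 * (n * o.2.2.1 + G ^ 2 * o.2.2.2.1)) +
      (R * G ^ 2) ^ 2 * G ^ 2 * θ * o.2.2.2.2) =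
      4 * R ^ 3 * G ^ 7 * X D F c l0 e0 e1 e2 e3 (o2 c l0 p0 p1 ql h0 h1 h2 R1 R2) t := by
  have hw := wR_ne ht t0
  have e : wR D t = G := by rw [wR_eq, om, hG, hs]
  have s0 : s ≠ 0 := hs ▸ exp_ne_zero _
  have θ0 : θ ≠ 0 := hθ ▸ exp_ne_zero _
  have R0 : R ≠ 0 := by rw [hR]; positivity
  obtain rfl : n = (1 - z) / R := by rw [← hn]; field_simp
  have eF : exp (F * t) = s ^ 2 * θ := by rw [exp_F, hs, hθ]
  have eG : exp ((2 - 2 * F) * t) = ((s * θ) ^ 2)⁻¹ := by rw [exp_G, hs, hθ]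
  rw [X, Gp.K_eq ht t0, uR_eq hF]
  rw [e] at hw
  simp only [ho, sO2, ← mPj_0, ← mPj_1, ← mPj_2, U1, U2, U3, U4, yR, e, eF, eG, PR_eq, QR,
    ← hs, o2, zo, Gp.P, Gp.C3, Gp.C2, Gp.C1, Gp.C0]
  push_cast
  rw [← hG]
  generalize pjR F _ _ D = J
  subst hl hz hR
  field_simp
  ring

theorem exp_H : exp ((2 - 2 * F) * t) = (exp ((2 * F - 2) * t))⁻¹ := by
  rw [← exp_neg]; ring_nf

theorem g_eq (ht : t ∈ JR D) : gR D F t = t * (muR D F t * (√(muR D F t))⁻¹) := by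
  rw [gR, ← div_eq_mul_inv, div_sqrt]

theorem cen1 (ht : t ∈ JR D) (t0 : t ≠ 0) : t * sCen3 D F t c l0 R1 R2 e0 e1 e2 e3 =
    2 * (ph1 t * om D t) ^ 5 * X D F c l0 e0 e1 e2 e3 (o1 c l0 R1 R2) t := by
  have e : wR D t = t * (ph1 t * ((1 + D) * exp t - D)) := by rw [wR_eq, om, exp_eq_ph t]; ring
  have hw : ph1 t * ((1 + D) * exp t - D) ≠ 0 := (mul_pos (ph1_pos t) ht).ne'
  have θ0 := exp_ne_zero ((2 * F - 2) * t)
  rw [X, Gp.K_eq ht t0, g_eq ht]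
  simp only [sCen3, ← mMu_0, ← mK3_0, U1, U2, U3, U4, yR, vR, uR, om, e, exp_H, PR_eq, QR,
    o1, zo, Gp.P, Gp.C3, Gp.C2, Gp.C1, Gp.C0]
  push_cast
  generalize pjR F _ _ D = J
  generalize ph1 t * ((1 + D) * exp t - D) = W at *
  generalize muR D F t * (√(muR D F t))⁻¹ = q
  field_simp
  ring

theorem cen2 (ht : t ∈ JR D) (t0 : t ≠ 0) :
    t * sCen4 D F t c l0 p0 p1 ql h0 h1 h2 R1 R2 e0 e1 e2 e3 = 4 * (ph1 t * om D t) ^ 7 *
      X D F c l0 e0 e1 e2 e3 (o2 c l0 p0 p1 ql h0 h1 h2 R1 R2) t := by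
  have e : wR D t = t * (ph1 t * ((1 + D) * exp t - D)) := by rw [wR_eq, om, exp_eq_ph t]; ring
  have hw : ph1 t * ((1 + D) * exp t - D) ≠ 0 := (mul_pos (ph1_pos t) ht).ne'
  have θ0 := exp_ne_zero ((2 * F - 2) * t)
  rw [X, Gp.K_eq ht t0, g_eq ht]
  simp only [sCen4, ← mMu_0, ← mK4_0, U1, U2, U3, U4, yR, vR, uR, om, e, exp_H, PR_eq, QR,
    o2, zo, Gp.P, Gp.C3, Gp.C2, Gp.C1, Gp.C0]
  push_cast
  generalize pjR F _ _ D = J
  generalize ph1 t * ((1 + D) * exp t - D) = W at *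
  generalize muR D F t * (√(muR D F t))⁻¹ = q
  field_simp
  ring

theorem X_bigO {k P0 P1 P2 P3 Q0 Q1 Q2 Q3 a b : ℝ} (kc : k * c = 1) (ha : a = 4 * Q0 - 2 * P0)
    (hb : b = 3 * P1 / 2 - Q1 + 2 * R1) :
    X D F c l0 (l0 * sE0 D F k a b) e1 e2 e3 (zo c P0 P1 P2 P3 Q0 Q1 Q2 Q3 R1 R2) =O[𝓝 0]
      fun t ↦ t ^ 5 := by
  obtain ⟨a6, J⟩ := (zo c P0 P1 P2 P3 Q0 Q1 Q2 Q3 R1 R2).K_jet (D := D) (F := F)
  have J' := ((Jet.poly l0 (-c) 0 0 0).mul J).cast (b0 := 0) (b1 := 0) (b2 := 0) (b3 := 0)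
    (b4 := c ^ 2 * (l0 * sE0 D F k a b)) (by ring) (by ring) (by ring) (by simp only [zo]; ring)
    (by
      simp only [zo, sE0, ja2, ja4, ha, hb]; push_cast
      obtain rfl : k = c⁻¹ := eq_inv_of_mul_eq_one_left kc
      have : c ≠ 0 := right_ne_zero_of_mul_eq_one kc
      field_simp; ring) rfl rfl
  refine (J'.center5 (E := fun v ↦ c ^ 3 * (e1 + c * v * (e2 + c * v * e3)))
    (by fun_prop)).congr_left fun t ↦ ?_
  rw [X]; ring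

theorem cen_bigO {M Y : ℝ → ℝ} {A : ℝ} {j : ℕ} (h : Y =O[𝓝 0] fun t ↦ t ^ 5)
    (e : ∀ t ∈ JR D, t ≠ 0 → t * M t = A * (ph1 t * om D t) ^ j * Y t) :
    (M =O[𝓝[>] 0] fun u ↦ u ^ 4) ∧ (fun u ↦ M (-u)) =O[𝓝[>] 0] fun u ↦ u ^ 4 := by
  have c1 := (ph1_an 0).continuousAt
  have c2 : ContinuousAt (fun t ↦ A * (ph1 t * om D t) ^ j) 0 := by unfold om; fun_prop
  have h1 : M =O[𝓝[≠] 0] fun u ↦ u ^ 4 := by
    refine ((isBigO_refl (fun t : ℝ ↦ t⁻¹) _).mul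
      (((c2.isBigO_one ℝ).mul h).mono nhdsWithin_le_nhds)).congr' ?_ ?_
    · filter_upwards [self_mem_nhdsWithin,
        nhdsWithin_le_nhds ((JR_open D).mem_nhds (zero_mem_JR D))] with t t0 ht
      rw [← e t ht t0, inv_mul_cancel_left₀ t0]
    · filter_upwards [self_mem_nhdsWithin] with t t0
      have : t ≠ 0 := t0
      field_simp
  refine ⟨h1.mono (nhdsWithin_mono _ fun t ht ↦ ne_of_gt ht), ?_⟩
  have h2 : Tendsto (fun u : ℝ ↦ -u) (𝓝[>] 0) (𝓝[≠] 0) :=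
    tendsto_nhdsWithin_iff.2 ⟨(continuous_neg.tendsto' (0 : ℝ) 0 neg_zero).mono_left
      nhdsWithin_le_nhds, eventually_mem_nhdsWithin.mono fun t ht ↦ (neg_neg_of_pos ht).ne⟩
  exact (h1.comp_tendsto h2).congr_right fun u ↦ by simp only [Function.comp]; ring

theorem sg_gen {G Y A B Ψ : ℝ} (h1 : 0 < t * G) (hA : 0 < A) (hB : 0 < B) (hΨ : 0 < Ψ)
    (e : B * Ψ = A * (G * Y)) : 0 < t * Y := by
  have h2 := mul_pos h1 ((mul_pos_iff_of_pos_left hA).1 (e ▸ mul_pos hB hΨ))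
  exact pos_of_mul_pos_right (a := G ^ 2) (by linarith) (sq_nonneg G)

theorem sg_cen {M Y A : ℝ} {j : ℕ} (ht : t ∈ JR D) (t0 : t ≠ 0) (hA : 0 < A) (hM : 0 < M)
    (e : t * M = A * (ph1 t * om D t) ^ j * Y) : 0 < t * Y := by
  have h := mul_pos hA (pow_pos (mul_pos (ph1_pos t) ht) j)
  refine (mul_pos_iff_of_pos_left h).1 ?_
  have := mul_pos (sq_pos_of_ne_zero t0) hM
  linear_combination this + t * e

theorem cap_pos (hF : 1 < F) (hD : D < 0) : 0 < sCap D F := by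
  have : 0 < F - 1 := by linarith
  have : 0 < 2 * F - 1 := by linarith
  have : 0 < F - D - 1 := by linarith
  simp only [sCap]; push_cast; positivity

theorem kap_cap (hF : 1 < F) (hD : D < 0) : sKap D F * sCap D F = 1 := by
  have : F - 1 ≠ 0 := by linarith
  have : F * 2 - 1 ≠ 0 := by linarith
  have : 2 * F - 1 ≠ 0 := by linarith
  have : F - D - 1 ≠ 0 := by linarith
  have : F ≠ 0 := by linarith
  simp only [sCap, sKap]; push_cast; field_simp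

theorem z_eq (hF : 1 < F) (hD : D < 0) : sCap D F * vR D F t =
    1 - 2 * sCap D F * (exp t * exp ((F - 2) * t)) ^ 2 * sNh D F (exp t) := by
  have : F - 1 ≠ 0 := by linarith
  have : F * 2 - 1 ≠ 0 := by linarith
  have : 2 * F - 1 ≠ 0 := by linarith
  have : 2 * F - 2 ≠ 0 := by linarith
  have : F - D - 1 ≠ 0 := by linarith
  have : F ≠ 0 := by linarith
  have p : ∀ a : ℝ, a ≠ 0 → t * ph1 (a * t) = (exp (a * t) - 1) / a := fun a ha ↦ by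
    rw [exp_eq_ph]; field_simp; ring
  have e : (exp t * exp ((F - 2) * t)) ^ 2 = exp ((2 * F - 2) * t) := by
    rw [← exp_add, sq, ← exp_add]; ring_nf
  rw [vR_eq, p _ (by linarith), p _ (by linarith), p _ (by linarith), e, exp_a1, exp_a2]
  simp only [sCap, sNh]; push_cast
  rw [show 2 * F - 2 = 2 * (F - 1) by ring]
  field_simp
  ring

theorem N_pos (hF : 1 < F) (s : ℝ) : 0 < (F - 1)⁻¹ - 4 * s * (2 * F - 1)⁻¹ + s * s * F⁻¹ := by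
  have : 0 < F - 1 := by linarith
  have : F * 2 - 1 ≠ 0 := by linarith
  have : 0 < 2 * F - 1 := by linarith
  have : 0 < F := by linarith
  have e : (F - 1)⁻¹ - 4 * s * (2 * F - 1)⁻¹ + s * s * F⁻¹ =
      ((F - 1) * ((2 * F - 1) * s - 2 * F) ^ 2 + F) / (F * (F - 1) * (2 * F - 1) ^ 2) := by
    field_simp; ring
  rw [e]; positivity

theorem z_lt (hF : 1 < F) (hD : D < 0) (tn : t < 0) : sCap D F * vR D F t < 1 := by
  have h1 := N_pos hF (exp t)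
  have h2 := exp_pos t
  have h3 := exp_lt_one_iff.2 tn
  have h4 := cap_pos hF hD
  have : 0 < F - 1 := by linarith
  have : F * 2 - 1 ≠ 0 := by linarith
  have : 0 < 2 * F - 1 := by linarith
  have : 0 < F := by linarith
  have h5 : 0 < 2 * F - (2 * F - 1) * exp t := by nlinarith
  have e : sNh D F (exp t) = -D * ((F - 1)⁻¹ - 4 * exp t * (2 * F - 1)⁻¹ + exp t * exp t * F⁻¹) / 2 +
      exp t * (2 * F - (2 * F - 1) * exp t) / (2 * F * (2 * F - 1)) := by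
    simp only [sNh]; push_cast
    rw [show 2 * F - 2 = 2 * (F - 1) by ring]
    field_simp; ring
  have := neg_pos.2 hD
  rw [z_eq hF hD, e, sub_lt_self_iff]
  positivity

theorem exp_le_of {x b : ℝ} (n : ℕ) (h : t ≤ -x) (h0 : 0 < x)
    (hb : b⁻¹ ≤ ∑ i ∈ Finset.range n, x ^ i / i.factorial) (b0 : 0 < b) : exp t ≤ b := by
  refine (exp_le_exp.2 h).trans ?_
  rw [exp_neg]
  exact inv_le_of_inv_le₀ b0 (hb.trans (sum_le_exp_of_nonneg h0.le n))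

/-- the quantities attached to a point of the annulus -/
structure Pt (D F m t k c s θ R n z v g G l : ℝ) : Prop where
  ht : t ∈ JR D
  t0 : t ≠ 0
  F1 : 1 < F
  m0 : 0 ≤ m
  hD : D = m - F
  hk : k = sKap D F
  hc : c = sCap D F
  hs : s = exp t
  hθ : θ = exp ((F - 2) * t)
  hR : R = 2 * c * (s * θ) ^ 2
  hn : n = sNh D F s
  hz : z = 1 - R * n
  hz' : z = c * vR D F t
  hv : v = k * z
  hg : g = gR D F t
  gp : 0 < t → g = v * (√v)⁻¹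
  gn : t < 0 → g = -(v * (√v)⁻¹)
  hG : G = (s - 1) * ((1 + D) * s - D)
  hl : l = 1 + 2 * m - z
  c0 : 0 < c
  R0 : 0 < R
  n0 : 0 < n
  l0 : 0 < l
  tG : 0 < t * G

theorem exists_pt {m : ℝ} (ht : t ∈ JR D) (t0 : t ≠ 0) (hF : 1 < F) (hD : D < 0) (m0 : 0 ≤ m)
    (hm : D = m - F) (z1 : sCap D F * vR D F t < 1) : ∃ s θ R n z v g G l,
      Pt D F m t (sKap D F) (sCap D F) s θ R n z v g G l := by
  have c0 := cap_pos hF hD
  have R0 : 0 < 2 * sCap D F * (exp t * exp ((F - 2) * t)) ^ 2 := by positivity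
  have e : vR D F t = sKap D F * (sCap D F * vR D F t) := by
    rw [← mul_assoc, kap_cap hF hD, one_mul]
  have q : vR D F t * (√(vR D F t))⁻¹ = |gR D F t| := by
    rw [← div_eq_mul_inv, div_sqrt, ← gR_sq ht, sqrt_sq_eq_abs]
  refine ⟨_, _, _, _, _, _, _, _, _, ht, t0, hF, m0, hm, rfl, rfl, rfl, rfl, rfl, rfl, z_eq hF hD,
    rfl, e, rfl, fun h ↦ ?_, fun h ↦ ?_, rfl, rfl, c0, R0, ?_, by linarith, ?_⟩
  · rw [q, abs_of_pos (gR_pos ht h)]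
  · rw [q, abs_of_neg (gR_neg ht h), neg_neg]
  · rw [z_eq hF hD, sub_lt_self_iff] at z1
    exact (mul_pos_iff_of_pos_left R0).1 z1
  · rw [← mul_assoc]
    refine mul_pos ?_ ht
    rcases t0.lt_or_gt with h | h
    · exact mul_pos_of_neg_of_neg h (sub_neg.2 (exp_lt_one_iff.2 h))
    · exact mul_pos h (sub_pos.2 (one_lt_exp_iff.2 h))

namespace Pt

variable {m k s θ R n z v g G l : ℝ} (P : Pt D F m t k c s θ R n z v g G l)
include P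

theorem s0 : 0 < s := P.hs ▸ exp_pos _

theorem θ0 : 0 < θ := P.hθ ▸ exp_pos _

theorem G0 : G ≠ 0 := right_ne_zero_of_mul P.tG.ne'

theorem sg1 (hl : l0 = 1 + 2 * m) {o : ℝ × ℝ × ℝ}
    (ho : o = sO1 D F s R z g c l0 R1 R2 e0 e1 e2 e3) {l' M x : ℝ} (x0 : 0 < x) (e1' : l = x * l')
    (e2' : R * G ^ 2 = x * M) (h : 0 < -(l' * (l' * o.1 + M * o.2.1) + M * M * θ * o.2.2)) :
    0 < t * -X D F c l0 e0 e1 e2 e3 (o1 c l0 R1 R2) t := by
  have e := out1 P.ht P.t0 (by linarith [P.F1]) P.c0.ne' P.hs P.hθ P.hR P.hz' (hl ▸ P.hl) P.hG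
    (P.hg ▸ ho)
  have := P.s0
  have := P.θ0
  have := P.R0
  have := P.G0
  refine sg_gen P.tG (A := 2 * R ^ 3 * G ^ 4) (B := s ^ 2 * θ * x ^ 2) (by positivity)
    (by positivity) h ?_
  rw [e1', e2'] at e
  linear_combination -e

theorem sg2 (hl : l0 = 1 + 2 * m) {o : ℝ × ℝ × ℝ × ℝ × ℝ}
    (ho : o = sO2 D F s R z g c l0 p0 p1 ql h0 h1 h2 R1 R2 e0 e1 e2 e3) {l' M n' H x y : ℝ}
    (x0 : 0 < x) (y0 : 0 < y) (e1' : l = x * l') (e2' : R * G ^ 2 = x * M) (e3' : n = y * n')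
    (e4' : G ^ 2 = y * H) (h : 0 < l' * (l' * (n' * o.1 + H * o.2.1) +
      M * (n' * o.2.2.1 + H * o.2.2.2.1)) + M * M * H * θ * o.2.2.2.2) :
    0 < t * X D F c l0 e0 e1 e2 e3 (o2 c l0 p0 p1 ql h0 h1 h2 R1 R2) t := by
  have e := out2 P.ht P.t0 (by linarith [P.F1]) P.c0.ne' P.hs P.hθ P.hR P.hz'
    (n := n) (by rw [P.hz]; ring) (hl ▸ P.hl) P.hG (P.hg ▸ ho)
  have := P.s0
  have := P.θ0
  have := P.R0
  have := P.G0
  refine sg_gen P.tG (A := 4 * R ^ 3 * G ^ 6) (B := s ^ 2 * θ * x ^ 2 * y) (by positivity)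
    (by positivity) h ?_
  rw [e1', e2', e3', e4'] at e
  linear_combination e

/-- near the saddle -/
theorem sad (tp : 0 < t) (hF : 31 / 16 ≤ F) : ∃ sg a N p mm, sg = F * (F - 1)⁻¹ - s ∧
    a = (F - 1) * F⁻¹ ∧ N = (F - 1)⁻¹ - 4 * s * (2 * F - 1)⁻¹ + s * s * F⁻¹ ∧ mm = p * a * N⁻¹ ∧
    m = sg * sg * mm ∧ 0 < sg ∧ 0 ≤ p ∧ p ≤ 1 ∧ t ≤ 3 / 4 ∧ n = sg ^ 2 * (a * (1 - p) / 2) ∧
    G ^ 2 = sg ^ 2 * ((s - 1) * (F - 1 + sg * mm * (s - 1))) ^ 2 := by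
  obtain ⟨sg, hsg⟩ : ∃ x, x = F * (F - 1)⁻¹ - s := ⟨_, rfl⟩
  obtain ⟨a, ha⟩ : ∃ x, x = (F - 1) * F⁻¹ := ⟨_, rfl⟩
  obtain ⟨N, hN⟩ : ∃ x, x = (F - 1)⁻¹ - 4 * s * (2 * F - 1)⁻¹ + s * s * F⁻¹ := ⟨_, rfl⟩
  have N0 : 0 < N := hN ▸ N_pos P.F1 s
  have f1 : 0 < F - 1 := by linarith
  have f2 : 0 < 2 * F - 1 := by linarith
  have f3 : 0 < F := by linarith
  have f4 : F * 2 - 1 ≠ 0 := by linarith
  have a0 : 0 < a := by rw [ha]; positivity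
  have s1 : 0 < s - 1 := sub_pos.2 (P.hs ▸ one_lt_exp_iff.2 tp)
  have m0 := P.m0
  have e1 : 2 * n = a * sg ^ 2 - m * N := by
    rw [P.hn, ha, hsg, hN, P.hD]
    simp only [sNh]; push_cast
    rw [show 2 * F - 2 = 2 * (F - 1) by ring]
    field_simp; ring
  have e2 : (1 + D) * s - D = (F - 1) * sg + m * (s - 1) := by
    rw [hsg, P.hD]; field_simp; ring
  have e3 : F * N + sg * (s - 1) = s / ((F - 1) * (2 * F - 1)) := by
    rw [hsg, hN]; field_simp; ring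
  have o0 : 0 < (F - 1) * sg + m * (s - 1) := by rw [← e2, P.hs]; exact P.ht
  have n0 := P.n0
  have g0 : 0 < sg := by
    by_contra h
    push Not at h
    have e4 : 0 < F * N + sg * (s - 1) := by rw [e3]; have := P.s0; positivity
    have e5 : F * a = F - 1 := by rw [ha]; field_simp
    have h1 := mul_pos (mul_pos f3 s1) n0
    have h2 := mul_pos (mul_pos f3 N0) o0
    have h3 := mul_nonneg (mul_nonneg f1.le (neg_nonneg.2 h)) e4.le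
    have : 2 * (F * (s - 1) * n) = (s - 1) * ((F - 1) * sg ^ 2 - F * m * N) := by
      linear_combination F * (s - 1) * e1 + (s - 1) * sg ^ 2 * e5
    nlinarith
  have p1 : m * N / (a * sg ^ 2) ≤ 1 := by rw [div_le_one (by positivity)]; linarith
  refine ⟨sg, a, N, m * N / (a * sg ^ 2), _, hsg, ha, hN, rfl, by field_simp, g0, by positivity, p1,
    ?_, ?_, ?_⟩
  · by_contra h
    push Not at h
    have h1 := sum_le_exp_of_nonneg (x := 3 / 4) (by norm_num) 4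
    have h2 := exp_le_exp.2 h.le
    have h3 : F * (F - 1)⁻¹ ≤ 31 / 15 := by rw [← div_eq_mul_inv, div_le_iff₀ f1]; linarith
    norm_num [Finset.sum_range_succ, Nat.factorial] at h1
    linarith [P.hs]
  · field_simp; linarith
  · rw [P.hG, e2]; field_simp

theorem x_le : R * n ≤ l := by linarith [P.hl, P.hz, P.m0]

end Pt

/-- separation of the two branches -/
theorem sep {σ m : ℝ} {o : Gp} (hF : 1 < F) (hD : D < 0) (hl : l0 = 1 + 2 * m) (m0 : 0 ≤ m)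
    (h : ∀ t ∈ JR D, t ≠ 0 → sCap D F * vR D F t < 1 →
      0 < t * (σ * X D F (sCap D F) l0 e0 e1 e2 e3 o t)) {a b : ℝ} (ha : a ∈ JR D) (hb : b ∈ JR D)
    (a0 : a < 0) (b0 : 0 < b) (e : vR D F a = vR D F b) : 0 < sCap D F * vR D F b ∧
      sCap D F * vR D F b < 1 ∧ σ * o.K D F a < σ * o.K D F b := by
  have z1 := z_lt hF hD a0
  have p1 := neg_of_mul_pos_right (h a ha a0.ne z1) a0.le
  have p2 := (mul_pos_iff_of_pos_left b0).1 (h b hb b0.ne' (e ▸ z1))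
  simp only [X, e] at p1 p2 z1
  refine ⟨mul_pos (cap_pos hF hD) (vR_pos hb b0.ne'), z1, ?_⟩
  refine lt_of_mul_lt_mul_left (a := l0 - sCap D F * vR D F b) ?_ (by linarith)
  linarith

theorem pj_zero (D : ℝ) : mPj 2 0 0 D = (0, 0, 0) := by simp [mPj]

end Pool.Agent.Lib.MP_d6150d_an.S6
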