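import Pool.Agent.Lib.MP_d6150d_an.GMac

/-! Program forms of the recurrent expressions. -/

namespace Pool.Agent.Lib.MP_d6150d_an

noncomputable def sKap (D F : ℝ) : ℝ :=
  (((F - D) - (Int.cast (1) : ℝ)) * ((F * (((Int.cast (2) : ℝ) * F) - (Int.cast (1) : ℝ))) * (F -
    (Int.cast (1) : ℝ)))⁻¹)

theorem sKap_0 (D F : ℝ) : (sKap D F) = (sKap D F) := by
  rfl

noncomputable def sCap (D F : ℝ) : ℝ :=
  (((F * (((Int.cast (2) : ℝ) * F) - (Int.cast (1) : ℝ))) * (F - (Int.cast (1) : ℝ))) * ((F - D) -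
    (Int.cast (1) : ℝ))⁻¹)

theorem sCap_0 (D F : ℝ) : (sCap D F) = (sCap D F) := by
  rfl

noncomputable def sNh (D F s : ℝ) : ℝ :=
  let z0 := ((Int.cast (2) : ℝ) * F)
  ((s * ((((Int.cast (1) : ℝ) + ((Int.cast (2) : ℝ) * D)) * (z0 - (Int.cast (1) : ℝ))⁻¹) -
    ((((Int.cast (1) : ℝ) + D) * s) * z0⁻¹))) - (D * (z0 - (Int.cast (2) : ℝ))⁻¹))

theorem sNh_0 (D F s : ℝ) : (sNh D F s) = (sNh D F s) := by
  rfl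

noncomputable def sE0 (D F k a b : ℝ) : ℝ :=
  (((Int.cast (1) : ℝ) / (Nat.cast 1080 : ℝ)) * (k * (((a * k) * (((Int.cast (4) : ℝ) + (F *
    ((Int.cast (-57) : ℝ) + (F * ((Int.cast (156) : ℝ) - ((Int.cast (103) : ℝ) * F)))))) + (D *
    (((Int.cast (-6) : ℝ) + (F * ((Int.cast (102) : ℝ) - ((Int.cast (312) : ℝ) * F)))) + (D *
    (((Int.cast (-60) : ℝ) - ((Int.cast (480) : ℝ) * F)) - ((Int.cast (320) : ℝ) * D))))))) +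
    ((Int.cast (180) : ℝ) * (b * (((Int.cast (1) : ℝ) - F) - ((Int.cast (2) : ℝ) * D)))))))

theorem sE0_0 (D F k a b : ℝ) : (sE0 D F k a b) = (sE0 D F k a b) := by
  rfl

noncomputable def sCen3 (D F t c l0 R1 R2 e0 e1 e2 e3 : ℝ) : ℝ :=
  let z0 := (mMu D F t)
  let z1 := ((t * z0) * c)
  let z2 := (t * z1)
  let z3 := (l0 - z2)
  let z4 := (F * t)
  let z5 := (Real.exp t)
  let z6 := ((ph1 t) * ((((Int.cast (1) : ℝ) + D) * z5) - D))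
  let z7 := (l0 - (Int.cast (1) : ℝ))
  let z8 := (z6 * z6)
  (((z3 * (Real.exp z4)) * (mK3 F (((Int.cast (1) : ℝ) + D) * (z5 * z5)) (((Int.cast (1) : ℝ) +
    ((Int.cast (2) : ℝ) * D)) * z5) D (z0 * ((Int.cast (2) : ℝ) * (Real.exp ((((Int.cast (2) : ℝ) *
    F) - (Int.cast (2) : ℝ)) * t)))⁻¹) z6 ((Int.cast (8) : ℝ) * (z3 * ((Int.cast (1) : ℝ) + (z2 *
    ((Int.cast (1) : ℝ) + z2))))) (((Int.cast (4) : ℝ) * l0) + (z2 * (((Int.cast (8) : ℝ) * (R1 +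
    z7)) + (z2 * ((((Int.cast (8) : ℝ) * R2) + ((Int.cast (12) : ℝ) * z7)) + ((Int.cast (-36) : ℝ) *
    z2)))))) (z2 * ((((Int.cast (4) : ℝ) * R1) - ((Int.cast (2) : ℝ) * z7)) + (z2 * ((((Int.cast (8)
    : ℝ) * R2) - ((Int.cast (6) : ℝ) * z7)) + ((Int.cast (-18) : ℝ) * z2))))))) + (((z8 * z8) * z6)
    * ((z3 * ((((z2 * z2) * (((Int.cast (3) : ℝ) * (z7 + z2)) - ((Int.cast (2) : ℝ) * R2))) * (ph1
    z4)) - ((Int.cast (2) : ℝ) * (l0 * (z0 * (√z0)⁻¹))))) - ((Int.cast (2) : ℝ) * ((z2 * z1) * (e0 +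
    (z2 * (e1 + (z2 * (e2 + (z2 * e3)))))))))))

theorem sCen3_0 (D F t c l0 R1 R2 e0 e1 e2 e3 : ℝ) : (sCen3 D F t c l0 R1 R2 e0 e1 e2 e3) = (sCen3 D
    F t c l0 R1 R2 e0 e1 e2 e3) := by
  rfl

noncomputable def sO1 (D F s R z g c l0 R1 R2 e0 e1 e2 e3 : ℝ) : ℝ × ℝ × ℝ :=
  let z0 := (z * z)
  let z1 := (((Int.cast (1) : ℝ) + D) * (s * s))
  let z2 := (((Int.cast (1) : ℝ) + ((Int.cast (2) : ℝ) * D)) * s)
  let z3 := (l0 - (Int.cast (1) : ℝ))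
  let z4 := ((s - (Int.cast (1) : ℝ)) * ((((Int.cast (1) : ℝ) + D) * s) - D))
  let z5 := (z4 * R)
  let z6 := (((Int.cast (3) : ℝ) * (z3 + z)) - ((Int.cast (2) : ℝ) * R2))
  (((Int.cast (8) : ℝ) * (((z0 * z) * ((Int.cast (1) : ℝ) + (z * ((Int.cast (1) : ℝ) + z)))) * (mPj
    F z1 z2 D).2.1)), (z0 * (((((Int.cast (4) : ℝ) * l0) + (z * (((Int.cast (8) : ℝ) * (R1 + z3)) +
    (z * ((((Int.cast (8) : ℝ) * R2) + ((Int.cast (12) : ℝ) * z3)) + ((Int.cast (-36) : ℝ) * z))))))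
    * (mPj F z1 z2 D).1) + ((z4 * z5) * (((((Int.cast (4) : ℝ) * R1) - ((Int.cast (2) : ℝ) * z3)) +
    (z * ((((Int.cast (8) : ℝ) * R2) - ((Int.cast (6) : ℝ) * z3)) + ((Int.cast (-18) : ℝ) * z)))) +
    ((z6 * z5) * F⁻¹))))), ((((Int.cast (2) : ℝ) * c) * z4) * (((l0 - z) * ((((Int.cast (2) : ℝ) *
    ((Int.cast (-1) : ℝ) * l0)) * g) - (((z * z) * z6) * F⁻¹))) - ((Int.cast (2) : ℝ) * ((z * z) *
    (e0 + (z * (e1 + (z * (e2 + (z * e3)))))))))))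

theorem sO1_0 (D F s R z g c l0 R1 R2 e0 e1 e2 e3 : ℝ) : (sO1 D F s R z g c l0 R1 R2 e0 e1 e2 e3).1
    = (sO1 D F s R z g c l0 R1 R2 e0 e1 e2 e3).1 := by
  rfl

theorem sO1_1 (D F s R z g c l0 R1 R2 e0 e1 e2 e3 : ℝ) : (sO1 D F s R z g c l0 R1 R2 e0 e1 e2
    e3).2.1 = (sO1 D F s R z g c l0 R1 R2 e0 e1 e2 e3).2.1 := by
  rfl

theorem sO1_2 (D F s R z g c l0 R1 R2 e0 e1 e2 e3 : ℝ) : (sO1 D F s R z g c l0 R1 R2 e0 e1 e2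
    e3).2.2 = (sO1 D F s R z g c l0 R1 R2 e0 e1 e2 e3).2.2 := by
  rfl

noncomputable def sCen4 (D F t c l0 p0 p1 ql h0 h1 h2 R1 R2 e0 e1 e2 e3 : ℝ) : ℝ :=
  let z0 := (mMu D F t)
  let z1 := ((t * z0) * c)
  let z2 := (t * z1)
  let z3 := (l0 - z2)
  let z4 := (F * t)
  let z5 := (Real.exp t)
  let z6 := ((ph1 t) * ((((Int.cast (1) : ℝ) + D) * z5) - D))
  let z7 := ((ql * l0) - h0)
  let z8 := (l0 * p0)
  let z9 := ((h0 - h1) - ql)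
  let z10 := ((l0 * p1) - ((l0 + (Int.cast (1) : ℝ)) * p0))
  let z11 := (h1 - h2)
  let z12 := (p0 - ((l0 + (Int.cast (1) : ℝ)) * p1))
  let z13 := (z6 * z6)
  (((z3 * (Real.exp z4)) * (mK4 F (((Int.cast (1) : ℝ) + D) * (z5 * z5)) (((Int.cast (1) : ℝ) +
    ((Int.cast (2) : ℝ) * D)) * z5) D (z0 * ((Int.cast (2) : ℝ) * (Real.exp ((((Int.cast (2) : ℝ) *
    F) - (Int.cast (2) : ℝ)) * t)))⁻¹) z6 ((Int.cast (16) : ℝ) * ((((Int.cast (1) : ℝ) - z2) * z3) *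
    (p0 + (p1 * z2)))) (((Int.cast (16) : ℝ) * (z7 + z8)) + (z2 * ((((Int.cast (16) : ℝ) * z9) +
    ((Int.cast (24) : ℝ) * z10)) + (z2 * ((((Int.cast (16) : ℝ) * z11) + ((Int.cast (32) : ℝ) *
    z12)) + (z2 * (((Int.cast (16) : ℝ) * h2) + ((Int.cast (40) : ℝ) * p1)))))))) ((((Int.cast (8) :
    ℝ) * z7) - ((Int.cast (4) : ℝ) * z8)) + (z2 * ((((Int.cast (16) : ℝ) * (R1 + z9)) - ((Int.cast
    (12) : ℝ) * z10)) + (z2 * ((((Int.cast (16) : ℝ) * R2) + ((Int.cast (24) : ℝ) * (z11 - z12))) +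
    (z2 * (((Int.cast (72) : ℝ) * h2) - ((Int.cast (180) : ℝ) * p1)))))))) (z2 * (((((Int.cast (8) :
    ℝ) * R1) - ((Int.cast (4) : ℝ) * z9)) + ((Int.cast (6) : ℝ) * z10)) + (z2 * (((((Int.cast (16) :
    ℝ) * R2) - ((Int.cast (12) : ℝ) * z11)) + ((Int.cast (24) : ℝ) * z12)) + (z2 * (((Int.cast (36)
    : ℝ) * h2) - ((Int.cast (150) : ℝ) * p1))))))))) + ((((z13 * z13) * z13) * z6) * ((z3 * ((((z2 *
    z2) * (((((Int.cast (6) : ℝ) * z11) - ((Int.cast (4) : ℝ) * R2)) - ((Int.cast (15) : ℝ) * z12))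
    + ((((Int.cast (30) : ℝ) * p1) - ((Int.cast (6) : ℝ) * h2)) * z2))) * (ph1 z4)) + (((Int.cast
    (4) : ℝ) * (((Int.cast (2) : ℝ) * z8) - z7)) * (z0 * (√z0)⁻¹)))) - ((Int.cast (4) : ℝ) * ((z2 *
    z1) * (e0 + (z2 * (e1 + (z2 * (e2 + (z2 * e3)))))))))))

theorem sCen4_0 (D F t c l0 p0 p1 ql h0 h1 h2 R1 R2 e0 e1 e2 e3 : ℝ) : (sCen4 D F t c l0 p0 p1 ql h0
    h1 h2 R1 R2 e0 e1 e2 e3) = (sCen4 D F t c l0 p0 p1 ql h0 h1 h2 R1 R2 e0 e1 e2 e3) := by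
  rfl

noncomputable def sO2 (D F s R z g c l0 p0 p1 ql h0 h1 h2 R1 R2 e0 e1 e2 e3 : ℝ) : ℝ × ℝ × ℝ × ℝ × ℝ :=
  let z0 := (z * z)
  let z1 := (p0 + (p1 * z))
  let z2 := (((Int.cast (1) : ℝ) + D) * (s * s))
  let z3 := (((Int.cast (1) : ℝ) + ((Int.cast (2) : ℝ) * D)) * s)
  let z4 := (z * z1)
  let z5 := ((z0 * z) * (mPj F z2 z3 D).2.1)
  let z6 := ((ql * l0) - h0)
  let z7 := (l0 * p0)
  let z8 := ((h0 - h1) - ql)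
  let z9 := ((l0 * p1) - ((l0 + (Int.cast (1) : ℝ)) * p0))
  let z10 := (h1 - h2)
  let z11 := (p0 - ((l0 + (Int.cast (1) : ℝ)) * p1))
  let z12 := ((s - (Int.cast (1) : ℝ)) * ((((Int.cast (1) : ℝ) + D) * s) - D))
  let z13 := (z12 * R)
  let z14 := (((((Int.cast (6) : ℝ) * z10) - ((Int.cast (4) : ℝ) * R2)) - ((Int.cast (15) : ℝ) *
    z11)) + ((((Int.cast (30) : ℝ) * p1) - ((Int.cast (6) : ℝ) * h2)) * z))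
  (((Int.cast (16) : ℝ) * (((z0 * z0) * z1) * (mPj F z2 z3 D).2.2)), (((((Int.cast (16) : ℝ) * (ql +
    z1)) - ((Int.cast (24) : ℝ) * z4)) + ((Int.cast (8) : ℝ) * ((z * ((Int.cast (1) : ℝ) - z)) *
    p1))) * z5), ((((Int.cast (-16) : ℝ) * (h0 + (z * (h1 + (z * h2))))) - ((Int.cast (8) : ℝ) *
    z4)) * z5), (z0 * ((((((Int.cast (8) : ℝ) * z6) - ((Int.cast (4) : ℝ) * z7)) + (z * ((((Int.cast
    (16) : ℝ) * (R1 + z8)) - ((Int.cast (12) : ℝ) * z9)) + (z * ((((Int.cast (16) : ℝ) * R2) +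
    ((Int.cast (24) : ℝ) * (z10 - z11))) + (z * (((Int.cast (72) : ℝ) * h2) - ((Int.cast (180) : ℝ)
    * p1)))))))) * (mPj F z2 z3 D).1) + ((z12 * z13) * ((((((Int.cast (8) : ℝ) * R1) - ((Int.cast
    (4) : ℝ) * z8)) + ((Int.cast (6) : ℝ) * z9)) + (z * (((((Int.cast (16) : ℝ) * R2) - ((Int.cast
    (12) : ℝ) * z10)) + ((Int.cast (24) : ℝ) * z11)) + (z * (((Int.cast (36) : ℝ) * h2) - ((Int.cast
    (150) : ℝ) * p1)))))) + ((z14 * z13) * F⁻¹))))), ((((Int.cast (2) : ℝ) * c) * z12) * (((l0 - z)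
    * ((((Int.cast (4) : ℝ) * (((Int.cast (2) : ℝ) * z7) - z6)) * g) - (((z * z) * z14) * F⁻¹))) -
    ((Int.cast (4) : ℝ) * ((z * z) * (e0 + (z * (e1 + (z * (e2 + (z * e3)))))))))))

theorem sO2_0 (D F s R z g c l0 p0 p1 ql h0 h1 h2 R1 R2 e0 e1 e2 e3 : ℝ) : (sO2 D F s R z g c l0 p0
    p1 ql h0 h1 h2 R1 R2 e0 e1 e2 e3).1 = (sO2 D F s R z g c l0 p0 p1 ql h0 h1 h2 R1 R2 e0 e1 e2
    e3).1 := by
  rfl

theorem sO2_1 (D F s R z g c l0 p0 p1 ql h0 h1 h2 R1 R2 e0 e1 e2 e3 : ℝ) : (sO2 D F s R z g c l0 p0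
    p1 ql h0 h1 h2 R1 R2 e0 e1 e2 e3).2.1 = (sO2 D F s R z g c l0 p0 p1 ql h0 h1 h2 R1 R2 e0 e1 e2
    e3).2.1 := by
  rfl

theorem sO2_2 (D F s R z g c l0 p0 p1 ql h0 h1 h2 R1 R2 e0 e1 e2 e3 : ℝ) : (sO2 D F s R z g c l0 p0
    p1 ql h0 h1 h2 R1 R2 e0 e1 e2 e3).2.2.1 = (sO2 D F s R z g c l0 p0 p1 ql h0 h1 h2 R1 R2 e0 e1 e2
    e3).2.2.1 := by
  rfl

theorem sO2_3 (D F s R z g c l0 p0 p1 ql h0 h1 h2 R1 R2 e0 e1 e2 e3 : ℝ) : (sO2 D F s R z g c l0 p0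
    p1 ql h0 h1 h2 R1 R2 e0 e1 e2 e3).2.2.2.1 = (sO2 D F s R z g c l0 p0 p1 ql h0 h1 h2 R1 R2 e0 e1
    e2 e3).2.2.2.1 := by
  rfl

theorem sO2_4 (D F s R z g c l0 p0 p1 ql h0 h1 h2 R1 R2 e0 e1 e2 e3 : ℝ) : (sO2 D F s R z g c l0 p0
    p1 ql h0 h1 h2 R1 R2 e0 e1 e2 e3).2.2.2.2 = (sO2 D F s R z g c l0 p0 p1 ql h0 h1 h2 R1 R2 e0 e1
    e2 e3).2.2.2.2 := by
  rfl

noncomputable def sPc (m : ℝ) : ℝ × ℝ × ℝ × ℝ × ℝ :=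
  ((((Int.cast (-323) : ℝ) / (Nat.cast 50 : ℝ)) + (m * (((Int.cast (1508) : ℝ) / (Nat.cast 125 : ℝ))
    + (((Int.cast (-508) : ℝ) / (Nat.cast 125 : ℝ)) * m)))), (((Int.cast (-1461) : ℝ) / (Nat.cast
    500 : ℝ)) + (m * (((Int.cast (67) : ℝ) / (Nat.cast 500 : ℝ)) + (((Int.cast (3933) : ℝ) /
    (Nat.cast 500 : ℝ)) * m)))), (((Int.cast (-3467) : ℝ) / (Nat.cast 500 : ℝ)) + (m * (((Int.cast
    (16453) : ℝ) / (Nat.cast 1000 : ℝ)) + (((Int.cast (-2029) : ℝ) / (Nat.cast 250 : ℝ)) * m)))),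
    (((Int.cast (-439) : ℝ) / (Nat.cast 125 : ℝ)) + (m * (((Int.cast (-107) : ℝ) / (Nat.cast 1000 :
    ℝ)) + (((Int.cast (2419) : ℝ) / (Nat.cast 1000 : ℝ)) * m)))), (((Int.cast (312) : ℝ) / (Nat.cast
    25 : ℝ)) + (m * (((Int.cast (-11951) : ℝ) / (Nat.cast 500 : ℝ)) + (((Int.cast (1487) : ℝ) /
    (Nat.cast 125 : ℝ)) * m)))))

theorem sPc_0 (m : ℝ) : (sPc m).1 = (sPc m).1 := by
  rfl

theorem sPc_1 (m : ℝ) : (sPc m).2.1 = (sPc m).2.1 := by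
  rfl

theorem sPc_2 (m : ℝ) : (sPc m).2.2.1 = (sPc m).2.2.1 := by
  rfl

theorem sPc_3 (m : ℝ) : (sPc m).2.2.2.1 = (sPc m).2.2.2.1 := by
  rfl

theorem sPc_4 (m : ℝ) : (sPc m).2.2.2.2 = (sPc m).2.2.2.2 := by
  rfl

noncomputable def sPd (m : ℝ) : ℝ × ℝ × ℝ × ℝ × ℝ × ℝ × ℝ × ℝ × ℝ × ℝ × ℝ :=
  ((((Int.cast (1) : ℝ) / (Nat.cast 5000 : ℝ)) + (((Int.cast (4501) : ℝ) / (Nat.cast 5000 : ℝ)) *
    m)), (((Int.cast (449) : ℝ) / (Nat.cast 2000 : ℝ)) + (((Int.cast (10071) : ℝ) / (Nat.cast 5000 :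
    ℝ)) * m)), (((Int.cast (-3331) : ℝ) / (Nat.cast 10000 : ℝ)) + (((Int.cast (-8659) : ℝ) /
    (Nat.cast 2000 : ℝ)) * m)), (((Int.cast (887) : ℝ) / (Nat.cast 1250 : ℝ)) + (((Int.cast (2367) :
    ℝ) / (Nat.cast 125 : ℝ)) * m)), (((Int.cast (31397) : ℝ) / (Nat.cast 10000 : ℝ)) + (((Int.cast
    (63121) : ℝ) / (Nat.cast 5000 : ℝ)) * m)), (((Int.cast (-5521) : ℝ) / (Nat.cast 2000 : ℝ)) +
    (((Int.cast (12987) : ℝ) / (Nat.cast 625 : ℝ)) * m)), (((Int.cast (44781) : ℝ) / (Nat.cast 5000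
    : ℝ)) + (((Int.cast (-91063) : ℝ) / (Nat.cast 10000 : ℝ)) * m)), (((Int.cast (9739) : ℝ) /
    (Nat.cast 10000 : ℝ)) + (((Int.cast (-48723) : ℝ) / (Nat.cast 10000 : ℝ)) * m)), (((Int.cast
    (-39641) : ℝ) / (Nat.cast 10000 : ℝ)) + (((Int.cast (-1039) : ℝ) / (Nat.cast 5000 : ℝ)) * m)),
    (((Int.cast (29517) : ℝ) / (Nat.cast 10000 : ℝ)) + (((Int.cast (6587) : ℝ) / (Nat.cast 400 : ℝ))
    * m)), (((Int.cast (-4349) : ℝ) / (Nat.cast 1250 : ℝ)) + (((Int.cast (-39581) : ℝ) / (Nat.cast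
    5000 : ℝ)) * m)))

theorem sPd_0 (m : ℝ) : (sPd m).1 = (sPd m).1 := by
  rfl

theorem sPd_1 (m : ℝ) : (sPd m).2.1 = (sPd m).2.1 := by
  rfl

theorem sPd_2 (m : ℝ) : (sPd m).2.2.1 = (sPd m).2.2.1 := by
  rfl

theorem sPd_3 (m : ℝ) : (sPd m).2.2.2.1 = (sPd m).2.2.2.1 := by
  rfl

theorem sPd_4 (m : ℝ) : (sPd m).2.2.2.2.1 = (sPd m).2.2.2.2.1 := by
  rfl

theorem sPd_5 (m : ℝ) : (sPd m).2.2.2.2.2.1 = (sPd m).2.2.2.2.2.1 := by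
  rfl

theorem sPd_6 (m : ℝ) : (sPd m).2.2.2.2.2.2.1 = (sPd m).2.2.2.2.2.2.1 := by
  rfl

theorem sPd_7 (m : ℝ) : (sPd m).2.2.2.2.2.2.2.1 = (sPd m).2.2.2.2.2.2.2.1 := by
  rfl

theorem sPd_8 (m : ℝ) : (sPd m).2.2.2.2.2.2.2.2.1 = (sPd m).2.2.2.2.2.2.2.2.1 := by
  rfl

theorem sPd_9 (m : ℝ) : (sPd m).2.2.2.2.2.2.2.2.2.1 = (sPd m).2.2.2.2.2.2.2.2.2.1 := by
  rfl

theorem sPd_10 (m : ℝ) : (sPd m).2.2.2.2.2.2.2.2.2.2 = (sPd m).2.2.2.2.2.2.2.2.2.2 := by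
  rfl

noncomputable def sCenC (D F m k c t : ℝ) : ℝ :=
  let z0 := ((Int.cast (1) : ℝ) + ((Int.cast (2) : ℝ) * m))
  let z1 := (sPc m).1
  (sCen3 D F t c z0 z1 (sPc m).2.1 (z0 * (sE0 D F k ((Int.cast (4) : ℝ) * z0) (((Int.cast (2) : ℝ) *
    z1) - (z0 - (Int.cast (1) : ℝ))))) (sPc m).2.2.1 (sPc m).2.2.2.1 (sPc m).2.2.2.2)

theorem sCenC_0 (D F m k c t : ℝ) : (sCenC D F m k c t) = (sCenC D F m k c t) := by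
  rfl

noncomputable def sCenD (D F m k c t : ℝ) : ℝ :=
  let z0 := ((Int.cast (1) : ℝ) + ((Int.cast (2) : ℝ) * m))
  let z1 := (sPd m).1
  let z2 := (sPd m).2.1
  let z3 := (sPd m).2.2.1
  let z4 := (sPd m).2.2.2.1
  let z5 := (sPd m).2.2.2.2.1
  let z6 := (sPd m).2.2.2.2.2.2.1
  (sCen4 D F t c z0 z1 z2 z3 z4 z5 (sPd m).2.2.2.2.2.1 z6 (sPd m).2.2.2.2.2.2.2.1 (z0 * (sE0 D F k
    (((Int.cast (4) : ℝ) * ((z3 * z0) - z4)) - ((Int.cast (2) : ℝ) * (z0 * z1))) (((((Int.cast (1) :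
    ℝ) / (Nat.cast 2 : ℝ)) * ((Int.cast (3) : ℝ) * ((z0 * z2) - ((z0 + (Int.cast (1) : ℝ)) * z1))))
    - ((z4 - z5) - z3)) + ((Int.cast (2) : ℝ) * z6)))) (sPd m).2.2.2.2.2.2.2.2.1 (sPd
    m).2.2.2.2.2.2.2.2.2.1 (sPd m).2.2.2.2.2.2.2.2.2.2)

theorem sCenD_0 (D F m k c t : ℝ) : (sCenD D F m k c t) = (sCenD D F m k c t) := by
  rfl

noncomputable def sOC (D F m k c s R z g : ℝ) : ℝ × ℝ × ℝ :=
  let z0 := ((Int.cast (1) : ℝ) + ((Int.cast (2) : ℝ) * m))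
  let z1 := (sPc m).1
  let z2 := (sPc m).2.1
  let z3 := (z0 * (sE0 D F k ((Int.cast (4) : ℝ) * z0) (((Int.cast (2) : ℝ) * z1) - (z0 - (Int.cast
    (1) : ℝ)))))
  let z4 := (sPc m).2.2.1
  let z5 := (sPc m).2.2.2.1
  let z6 := (sPc m).2.2.2.2
  ((sO1 D F s R z g c z0 z1 z2 z3 z4 z5 z6).1, (sO1 D F s R z g c z0 z1 z2 z3 z4 z5 z6).2.1, (sO1 D
    F s R z g c z0 z1 z2 z3 z4 z5 z6).2.2)

theorem sOC_0 (D F m k c s R z g : ℝ) : (sOC D F m k c s R z g).1 = (sOC D F m k c s R z g).1 := by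
  rfl

theorem sOC_1 (D F m k c s R z g : ℝ) : (sOC D F m k c s R z g).2.1 = (sOC D F m k c s R z g).2.1 :=
    by
  rfl

theorem sOC_2 (D F m k c s R z g : ℝ) : (sOC D F m k c s R z g).2.2 = (sOC D F m k c s R z g).2.2 :=
    by
  rfl

noncomputable def sOD (D F m k c s R z g : ℝ) : ℝ × ℝ × ℝ × ℝ × ℝ :=
  let z0 := ((Int.cast (1) : ℝ) + ((Int.cast (2) : ℝ) * m))
  let z1 := (sPd m).1
  let z2 := (sPd m).2.1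
  let z3 := (sPd m).2.2.1
  let z4 := (sPd m).2.2.2.1
  let z5 := (sPd m).2.2.2.2.1
  let z6 := (sPd m).2.2.2.2.2.1
  let z7 := (sPd m).2.2.2.2.2.2.1
  let z8 := (sPd m).2.2.2.2.2.2.2.1
  let z9 := (z0 * (sE0 D F k (((Int.cast (4) : ℝ) * ((z3 * z0) - z4)) - ((Int.cast (2) : ℝ) * (z0 *
    z1))) (((((Int.cast (1) : ℝ) / (Nat.cast 2 : ℝ)) * ((Int.cast (3) : ℝ) * ((z0 * z2) - ((z0 +
    (Int.cast (1) : ℝ)) * z1)))) - ((z4 - z5) - z3)) + ((Int.cast (2) : ℝ) * z7))))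
  let z10 := (sPd m).2.2.2.2.2.2.2.2.1
  let z11 := (sPd m).2.2.2.2.2.2.2.2.2.1
  let z12 := (sPd m).2.2.2.2.2.2.2.2.2.2
  ((sO2 D F s R z g c z0 z1 z2 z3 z4 z5 z6 z7 z8 z9 z10 z11 z12).1, (sO2 D F s R z g c z0 z1 z2 z3
    z4 z5 z6 z7 z8 z9 z10 z11 z12).2.1, (sO2 D F s R z g c z0 z1 z2 z3 z4 z5 z6 z7 z8 z9 z10 z11
    z12).2.2.1, (sO2 D F s R z g c z0 z1 z2 z3 z4 z5 z6 z7 z8 z9 z10 z11 z12).2.2.2.1, (sO2 D F s R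
    z g c z0 z1 z2 z3 z4 z5 z6 z7 z8 z9 z10 z11 z12).2.2.2.2)

theorem sOD_0 (D F m k c s R z g : ℝ) : (sOD D F m k c s R z g).1 = (sOD D F m k c s R z g).1 := by
  rfl

theorem sOD_1 (D F m k c s R z g : ℝ) : (sOD D F m k c s R z g).2.1 = (sOD D F m k c s R z g).2.1 :=
    by
  rfl

theorem sOD_2 (D F m k c s R z g : ℝ) : (sOD D F m k c s R z g).2.2.1 = (sOD D F m k c s R z
    g).2.2.1 := by
  rfl

theorem sOD_3 (D F m k c s R z g : ℝ) : (sOD D F m k c s R z g).2.2.2.1 = (sOD D F m k c s R z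
    g).2.2.2.1 := by
  rfl

theorem sOD_4 (D F m k c s R z g : ℝ) : (sOD D F m k c s R z g).2.2.2.2 = (sOD D F m k c s R z
    g).2.2.2.2 := by
  rfl

end Pool.Agent.Lib.MP_d6150d_an
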