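import Pool.Agent.Lib.MP_d6150d_an.GDef

/-! A generated chart: the program. -/

namespace Pool.Agent.Lib.MP_d6150d_an.S6cN

def prog4 : List Ins := .cst 1487 125 :: .mul 0 199 :: .add true 2 0 :: .mul 201 0 :: .add true 5 0
    :: .mul 164 0 :: .add true 8 0 :: .mul 166 0 :: .add true 17 0 :: .mul 168 0 :: .add true 26 0
    :: .mul 168 0 :: .smul 2 0 :: .sub true 65 0 :: .mul 79 0 :: .mul 81 0 :: .add false 84 0 ::
    .smul (-1) 0 :: .cpy 0 :: []

def prog3 : List Ins := .int (-57) :: .int 156 :: .smul 103 147 :: .sub true 1 0 :: .mul 149 0 ::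
    .add false 4 0 :: .mul 151 0 :: .add false 103 0 :: .int (-6) :: .int 102 :: .smul 312 155 ::
    .sub true 1 0 :: .mul 157 0 :: .add false 4 0 :: .int (-60) :: .smul 480 160 :: .sub false 1 0
    :: .smul 320 156 :: .sub true 1 0 :: .mul 158 0 :: .add true 6 0 :: .mul 160 0 :: .add true 14 0
    :: .mul 23 0 :: .smul 2 87 :: .sub true 0 87 :: .sub false 175 171 :: .sub true 0 151 :: .mul 2
    0 :: .smul 180 0 :: .add true 6 0 :: .mul 42 0 :: .mul 33 0 :: .mul 179 0 :: .cst (-3467) 500 ::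
    .cst 16453 1000 :: .cst (-2029) 250 :: .mul 0 185 :: .add true 2 0 :: .mul 187 0 :: .add false 5
    0 :: .cst (-439) 125 :: .cst (-107) 1000 :: .cst 2419 1000 :: .mul 0 192 :: .add true 2 0 ::
    .mul 194 0 :: .add false 5 0 :: .cst 312 25 :: .cst (-11951) 500 :: prog4

def prog2 : List Ins := .smul (-36) 59 :: .add true 1 0 :: .mul 61 0 :: .add true 13 0 :: .mul 63 0
    :: .add true 25 0 :: .mul 0 45 :: .mul 30 82 :: .mul 31 0 :: .smul 4 22 :: .smul 2 22 :: .sub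
    false 1 0 :: .smul 6 24 :: .sub false 15 0 :: .smul (-18) 73 :: .add true 1 0 :: .mul 75 0 ::
    .add false 5 0 :: .add false 30 77 :: .smul 3 0 :: .smul 2 23 :: .sub true 1 0 :: .mul 0 14 ::
    .inv 118 :: .mul 1 0 :: .add true 7 0 :: .mul 17 0 :: .add true 20 0 :: .mul 85 0 :: .mul 50 0
    :: .add true 56 0 :: .mul 89 0 :: .mul 53 53 :: .mul 0 111 :: .mul 118 57 :: .smul (-1) 131 ::
    .smul 2 0 :: .inv 127 :: .mul 125 0 :: .mul 0 98 :: .rsq 0 :: .mul 1 0 :: .smul (-1) 0 :: .mul 6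
    0 :: .mul 101 22 :: .mul 0 21 :: .sub true 2 0 :: .mul 105 0 :: .cst 1 1080 :: .mul 69 10 ::
    prog3

def prog1 : List Ins := .mul 23 32 :: .sub false 1 0 :: .add true 0 41 :: .int 4 :: .smul 3 49 ::
    .sub true 1 0 :: .sub true 37 51 :: .mul 0 4 :: .smul 2 8 :: .sub true 0 8 :: .sub false 2 0 ::
    .mul 5 0 :: .mul 5 2 :: .smul 4 13 :: .sub false 0 13 :: .sub false 2 0 :: .add true 4 0 :: .mul
    14 0 :: .mul 8 7 :: .smul 3 0 :: .sub true 2 0 :: .mul 23 0 :: .smul 8 0 :: .mul 31 0 :: .sub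
    true 56 73 :: .sub true 44 64 :: .mul 1 0 :: .mul 0 0 :: .mul 53 0 :: .smul 4 75 :: .cst (-323)
    50 :: .cst 1508 125 :: .cst (-508) 125 :: .mul 0 81 :: .add true 2 0 :: .mul 83 0 :: .add false
    5 0 :: .sub false 83 86 :: .add false 1 0 :: .smul 8 0 :: .cst (-1461) 500 :: .cst 67 500 ::
    .cst 3933 500 :: .mul 0 91 :: .add false 2 0 :: .mul 93 0 :: .add false 5 0 :: .smul 8 0 ::
    .smul 12 10 :: .add false 1 0 :: prog2

def prog : List Ins := .int 1 :: .var 1 :: .smul 2 0 :: .add false 2 0 :: .var 0 :: .smul 2 0 ::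
    .sub true 0 5 :: .mul 2 0 :: .sub true 3 7 :: .mul 1 0 :: .sub true 8 5 :: .sub false 6 0 ::
    .sub true 0 11 :: .inv 0 :: .mul 4 0 :: .smul 2 0 :: .var 2 :: .exp 0 :: .int 2 :: .sub true 14
    0 :: .mul 0 3 :: .exp 0 :: .mul 4 0 :: .mul 0 0 :: .mul 8 0 :: .smul 2 14 :: .add true 25 0 ::
    .inv 20 :: .mul 1 0 :: .add true 28 18 :: .mul 0 12 :: .inv 25 :: .mul 1 0 :: .sub true 4 0 ::
    .mul 16 0 :: .sub true 29 16 :: .inv 0 :: .mul 26 0 :: .sub true 3 0 :: .mul 14 0 :: .sub true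
    39 0 :: .sub true 37 0 :: .mul 1 1 :: .mul 0 2 :: .add false 43 3 :: .mul 4 0 :: .add false 45 0
    :: .mul 3 0 :: .mul 30 30 :: .mul 19 0 :: prog1

def vs : List Vr := [⟨2, 0, false, false⟩, ⟨3, 0, true, false⟩, ⟨6, 0, false, false⟩]

def C : Chart := ⟨vs, prog, [], 1, 3⟩

end Pool.Agent.Lib.MP_d6150d_an.S6cN
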