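import Pool.Agent.Lib.MP_d6150d_an.GDef

/-! A generated chart: the program. -/

namespace Pool.Agent.Lib.MP_d6150d_an.S6cQ

def prog2 : List Ins := .cst (-508) 125 :: .mul 0 91 :: .add true 2 0 :: .mul 93 0 :: .add false 5 0
    :: .smul 2 0 :: .sub true 0 52 :: .sub false 102 104 :: .sub true 0 79 :: .mul 2 0 :: .smul 180
    0 :: .add true 13 0 :: .mul 65 0 :: .mul 42 0 :: .mul 89 0 :: .cst (-3467) 500 :: .cst 16453
    1000 :: .cst (-2029) 250 :: .mul 0 108 :: .add true 2 0 :: .mul 110 0 :: .add false 5 0 :: .cst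
    (-439) 125 :: .cst (-107) 1000 :: .cst 2419 1000 :: .mul 0 115 :: .add true 2 0 :: .mul 117 0 ::
    .add false 5 0 :: .cst 312 25 :: .cst (-11951) 500 :: .cst 1487 125 :: .mul 0 122 :: .add true 2
    0 :: .mul 124 0 :: .add true 5 0 :: .mul 94 0 :: .add true 8 0 :: .mul 96 0 :: .add true 17 0 ::
    .mul 98 0 :: .add true 26 0 :: .mul 89 0 :: .smul 2 0 :: .sub true 74 0 :: .mul 122 0 :: .smul
    (-1) 0 :: .cpy 0 :: []

def prog1 : List Ins := .smul (-1) 0 :: .mul 6 0 :: .mul 10 10 :: .sub false 28 48 :: .add false 0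
    12 :: .smul 3 0 :: .cst (-1461) 500 :: .cst 67 500 :: .cst 3933 500 :: .mul 0 49 :: .add false 2
    0 :: .mul 51 0 :: .add false 5 0 :: .smul 2 0 :: .sub true 8 0 :: .mul 12 0 :: .inv 63 :: .mul 1
    0 :: .sub true 16 0 :: .mul 26 0 :: .cst 1 1080 :: .smul 4 46 :: .mul 0 25 :: .int 4 :: .int
    (-57) :: .int 156 :: .smul 103 73 :: .sub true 1 0 :: .mul 75 0 :: .add false 4 0 :: .mul 77 0
    :: .add false 7 0 :: .int (-6) :: .int 102 :: .smul 312 81 :: .sub true 1 0 :: .mul 83 0 :: .add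
    false 4 0 :: .int (-60) :: .smul 480 86 :: .sub false 1 0 :: .smul 320 80 :: .sub true 1 0 ::
    .mul 82 0 :: .add true 6 0 :: .mul 84 0 :: .add true 14 0 :: .mul 24 0 :: .cst (-323) 50 :: .cst
    1508 125 :: prog2

def prog : List Ins := .int 2 :: .var 0 :: .sub false 1 0 :: .smul 2 0 :: .int 1 :: .sub true 1 0 ::
    .mul 3 0 :: .sub true 4 2 :: .mul 1 0 :: .var 2 :: .sub true 0 7 :: .sub false 8 0 :: .sub true
    0 7 :: .inv 0 :: .mul 5 0 :: .smul 2 0 :: .var 1 :: .sub false 0 12 :: .add true 13 7 :: .mul 0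
    2 :: .sub false 0 9 :: .mul 3 0 :: .mul 6 0 :: .smul 2 13 :: .add false 19 0 :: .mul 9 8 :: .var
    3 :: .mul 1 0 :: .smul 2 17 :: .add true 24 0 :: .inv 24 :: .mul 1 0 :: .inv 28 :: .mul 13 0 ::
    .sub false 2 0 :: .mul 18 0 :: .sub true 32 35 :: .inv 0 :: .mul 27 0 :: .sub false 3 0 :: .mul
    12 0 :: .sub false 36 0 :: .sub true 17 0 :: .smul (-1) 18 :: .smul 2 0 :: .inv 36 :: .mul 33 0
    :: .mul 0 5 :: .rsq 0 :: .mul 1 0 :: prog1

def vs : List Vr := [⟨2, 0, false, false⟩, ⟨1, 0, false, false⟩, ⟨3, 0, true, false⟩, ⟨1, 0, true,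
    false⟩]

def C : Chart := ⟨vs, prog, [], 1, 3⟩

end Pool.Agent.Lib.MP_d6150d_an.S6cQ
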