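import Pool.Agent.Lib.MP_d6150d_an.GDef

/-! A generated chart: the program. -/

namespace Pool.Agent.Lib.MP_d6150d_an.S6cR

def prog4 : List Ins := .mul 208 0 :: .add true 5 0 :: .mul 169 0 :: .add true 8 0 :: .mul 171 0 ::
    .add true 17 0 :: .mul 173 0 :: .add true 26 0 :: .mul 65 0 :: .smul 2 0 :: .sub true 68 0 ::
    .mul 82 0 :: .add false 84 0 :: .smul (-1) 0 :: .cpy 0 :: []

def prog3 : List Ins := .sub true 1 0 :: .mul 155 0 :: .add false 4 0 :: .mul 157 0 :: .add false 94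
    0 :: .int (-6) :: .int 102 :: .smul 312 161 :: .sub true 1 0 :: .mul 163 0 :: .add false 4 0 ::
    .int (-60) :: .smul 480 166 :: .sub false 1 0 :: .smul 320 154 :: .sub true 1 0 :: .mul 156 0 ::
    .add true 6 0 :: .mul 158 0 :: .add true 14 0 :: .mul 23 0 :: .smul 2 85 :: .sub true 0 85 ::
    .sub false 182 177 :: .sub true 0 119 :: .mul 2 0 :: .smul 180 0 :: .add true 6 0 :: .mul 32 0
    :: .mul 35 0 :: .mul 186 0 :: .cst (-3467) 500 :: .cst 16453 1000 :: .cst (-2029) 250 :: .mul 0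
    192 :: .add true 2 0 :: .mul 194 0 :: .add false 5 0 :: .cst (-439) 125 :: .cst (-107) 1000 ::
    .cst 2419 1000 :: .mul 0 199 :: .add true 2 0 :: .mul 201 0 :: .add false 5 0 :: .cst 312 25 ::
    .cst (-11951) 500 :: .cst 1487 125 :: .mul 0 206 :: .add true 2 0 :: prog4

def prog2 : List Ins := .add true 1 0 :: .mul 68 0 :: .add true 13 0 :: .mul 70 0 :: .add true 25 0
    :: .mul 0 38 :: .mul 57 56 :: .sub true 0 97 :: .mul 57 0 :: .mul 0 0 :: .mul 4 0 :: .add true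
    33 0 :: .mul 70 0 :: .smul 4 27 :: .smul 2 27 :: .sub false 1 0 :: .smul 6 29 :: .sub false 20 0
    :: .smul (-18) 85 :: .add true 1 0 :: .mul 87 0 :: .add true 5 0 :: .mul 89 0 :: .mul 13 13 ::
    .mul 1 0 :: .add true 12 0 :: .mul 84 0 :: .mul 88 0 :: .mul 4 19 :: .mul 96 96 :: .add false 43
    97 :: .smul 3 0 :: .smul 2 36 :: .sub true 1 0 :: .mul 4 0 :: .mul 0 98 :: .rsq 113 :: .mul 114
    0 :: .mul 144 0 :: .smul 2 0 :: .sub true 4 0 :: .mul 107 0 :: .mul 109 110 :: .cst 1 1080 ::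
    .inv 117 :: .mul 116 0 :: .mul 67 0 :: .int (-57) :: .int 156 :: .smul 103 153 :: prog3

def prog1 : List Ins := .add true 57 38 :: .tri 54 :: .mul 2 2 :: .mul 4 0 :: .smul 2 44 :: .add
    true 64 0 :: .mul 0 6 :: .sub false 3 0 :: .add true 0 48 :: .int 4 :: .smul 3 64 :: .sub true 1
    0 :: .sub true 49 66 :: .mul 0 4 :: .smul 2 10 :: .sub true 0 8 :: .sub false 2 0 :: .mul 5 0 ::
    .mul 5 2 :: .smul 4 15 :: .sub false 0 13 :: .sub false 2 0 :: .add true 4 0 :: .mul 14 0 ::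
    .mul 8 7 :: .smul 3 0 :: .sub false 2 0 :: .mul 29 0 :: .smul 4 84 :: .cst (-323) 50 :: .cst
    1508 125 :: .cst (-508) 125 :: .mul 0 90 :: .add true 2 0 :: .mul 92 0 :: .add false 5 0 :: .sub
    false 92 95 :: .add false 1 0 :: .smul 8 0 :: .cst (-1461) 500 :: .cst 67 500 :: .cst 3933 500
    :: .mul 0 100 :: .add false 2 0 :: .mul 102 0 :: .add false 5 0 :: .smul 8 0 :: .smul 12 10 ::
    .add false 1 0 :: .smul (-36) 66 :: prog2

def prog : List Ins := .int 1 :: .var 1 :: .smul 2 0 :: .add false 2 0 :: .var 2 :: .var 0 :: .smul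
    2 0 :: .mul 0 2 :: .tri 0 :: .mul 4 0 :: .sub true 5 11 :: .mul 0 8 :: .tri 0 :: .mul 4 0 ::
    .sub false 6 0 :: .sub true 17 13 :: .smul 2 2 :: .sub false 9 0 :: .int 2 :: .sub true 16 0 ::
    .mul 0 19 :: .tri 0 :: .mul 4 0 :: .add true 7 0 :: .mul 10 0 :: .add true 12 0 :: .smul 2 0 ::
    .mul 28 0 :: .mul 28 21 :: .sub true 29 34 :: .mul 1 0 :: .sub false 31 17 :: .sub true 0 37 ::
    .inv 0 :: .mul 3 0 :: .mul 7 0 :: .mul 37 0 :: .sub true 39 0 :: .mul 38 39 :: .tri 0 :: .mul 4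
    2 :: .smul 2 23 :: .inv 0 :: .mul 18 0 :: .add false 51 9 :: .mul 10 0 :: .add false 53 0 ::
    .mul 11 0 :: .smul 8 0 :: .mul 0 5 :: prog1

def vs : List Vr := [⟨3, 0, false, false⟩, ⟨3, 0, false, false⟩, ⟨8, 4, false, false⟩]

def C : Chart := ⟨vs, prog, [], 1, 3⟩

end Pool.Agent.Lib.MP_d6150d_an.S6cR
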