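import Pool.Agent.Lib.MP_d6150d_an.GDef

/-! A generated chart: the program. -/

namespace Pool.Agent.Lib.MP_d6150d_an.S6cS

def prog4 : List Ins := .cst 16453 1000 :: .cst (-2029) 250 :: .mul 0 174 :: .add true 2 0 :: .mul
    176 0 :: .add false 5 0 :: .cst (-439) 125 :: .cst (-107) 1000 :: .cst 2419 1000 :: .mul 0 181
    :: .add true 2 0 :: .mul 183 0 :: .add false 5 0 :: .cst 312 25 :: .cst (-11951) 500 :: .cst
    1487 125 :: .mul 0 188 :: .add true 2 0 :: .mul 190 0 :: .add true 5 0 :: .mul 171 0 :: .add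
    true 8 0 :: .mul 173 0 :: .add true 17 0 :: .mul 175 0 :: .add true 26 0 :: .mul 176 0 :: .smul
    2 0 :: .sub true 65 0 :: .mul 79 0 :: .mul 81 0 :: .add false 84 0 :: .smul (-1) 0 :: .cpy 0 ::
    []

def prog3 : List Ins := .sub true 58 101 :: .smul (-1) 59 :: .smul 2 0 :: .inv 129 :: .mul 123 0 ::
    .mul 0 106 :: .rsq 0 :: .mul 1 0 :: .mul 5 0 :: .mul 109 21 :: .mul 0 155 :: .sub false 2 0 ::
    .mul 11 0 :: .cst 1 1080 :: .mul 71 9 :: .int (-57) :: .int 156 :: .smul 103 165 :: .sub true 1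
    0 :: .mul 167 0 :: .add false 4 0 :: .mul 169 0 :: .add false 109 0 :: .int (-6) :: .int 102 ::
    .smul 312 173 :: .sub true 1 0 :: .mul 175 0 :: .add false 4 0 :: .int (-60) :: .smul 480 178 ::
    .sub false 1 0 :: .smul 320 153 :: .sub true 1 0 :: .mul 155 0 :: .add true 6 0 :: .mul 157 0 ::
    .add true 14 0 :: .mul 23 0 :: .smul 2 89 :: .sub true 0 89 :: .sub false 188 189 :: .sub true 0
    134 :: .mul 2 0 :: .smul 180 0 :: .add true 6 0 :: .mul 41 0 :: .mul 33 0 :: .mul 106 0 :: .cst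
    (-3467) 500 :: prog4

def prog2 : List Ins := .sub false 8 97 :: .add false 1 0 :: .smul 8 0 :: .cst (-1461) 500 :: .cst
    67 500 :: .cst 3933 500 :: .mul 0 78 :: .add false 2 0 :: .mul 80 0 :: .add false 5 0 :: .smul 8
    0 :: .smul 12 10 :: .add false 1 0 :: .smul (-36) 64 :: .add true 1 0 :: .mul 66 0 :: .add true
    13 0 :: .mul 68 0 :: .add true 25 0 :: .mul 0 49 :: .mul 64 110 :: .sub true 0 92 :: .mul 38 0
    :: .mul 0 82 :: .mul 1 0 :: .smul 4 25 :: .smul 2 25 :: .sub false 1 0 :: .smul 6 27 :: .sub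
    false 18 0 :: .smul (-18) 81 :: .add true 1 0 :: .mul 83 0 :: .add false 5 0 :: .add false 33 85
    :: .smul 3 0 :: .smul 2 26 :: .sub true 1 0 :: .mul 0 14 :: .mul 0 134 :: .add true 6 0 :: .mul
    16 0 :: .add true 22 0 :: .mul 93 0 :: .mul 54 0 :: .add true 62 0 :: .mul 99 0 :: .mul 57 57 ::
    .mul 0 110 :: .mul 115 26 :: prog3

def prog1 : List Ins := .mul 0 1 :: .add false 48 2 :: .mul 3 0 :: .add false 50 0 :: .mul 3 0 ::
    .add true 52 26 :: .mul 0 39 :: .smul 2 28 :: .add true 55 0 :: .mul 0 49 :: .sub false 3 0 ::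
    .add true 0 32 :: .int 4 :: .smul 3 61 :: .sub true 1 0 :: .sub true 30 63 :: .mul 0 4 :: .smul
    2 10 :: .sub true 0 8 :: .sub true 2 0 :: .mul 5 0 :: .mul 5 2 :: .smul 4 15 :: .sub false 0 13
    :: .sub false 2 0 :: .add true 4 0 :: .mul 14 0 :: .mul 8 7 :: .smul 3 0 :: .sub false 2 0 ::
    .mul 25 0 :: .smul 8 0 :: .mul 35 0 :: .sub true 73 80 :: .mul 58 63 :: .mul 0 1 :: .add false
    82 0 :: .mul 3 0 :: .mul 0 0 :: .mul 48 0 :: .smul 2 62 :: .add false 88 0 :: .smul 4 0 :: .cst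
    (-323) 50 :: .cst 1508 125 :: .cst (-508) 125 :: .mul 0 68 :: .add true 2 0 :: .mul 70 0 :: .add
    false 5 0 :: prog2

def prog : List Ins := .var 1 :: .var 0 :: .int 1 :: .sub true 1 0 :: .inv 2 :: .mul 1 0 :: .mul 5 0
    :: .inv 3 :: .var 2 :: .exp 0 :: .smul 4 0 :: .smul 2 9 :: .sub true 0 9 :: .inv 0 :: .mul 3 0
    :: .sub false 7 0 :: .mul 6 6 :: .mul 0 12 :: .add true 2 0 :: .inv 0 :: .mul 13 0 :: .smul 2 0
    :: .mul 20 9 :: .mul 0 19 :: .mul 22 16 :: .sub true 0 15 :: .mul 0 0 :: .mul 0 6 :: .sub true 0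
    26 :: .sub false 27 0 :: .sub true 0 27 :: .inv 0 :: .mul 8 0 :: .smul 2 0 :: .int 2 :: .sub
    true 33 0 :: .mul 0 27 :: .exp 0 :: .mul 28 0 :: .mul 0 0 :: .mul 6 0 :: .cst 1 2 :: .sub true
    39 41 :: .mul 37 0 :: .mul 2 0 :: .mul 4 0 :: .add false 24 0 :: .mul 20 1 :: .sub true 45 0 ::
    .mul 0 0 :: prog1

def vs : List Vr := [⟨2, 0, false, false⟩, ⟨3, 0, false, false⟩, ⟨5, 0, false, false⟩]

def C : Chart := ⟨vs, prog, [], 1, 3⟩

end Pool.Agent.Lib.MP_d6150d_an.S6cS
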