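import Pool.Agent.Lib.MP_d6150d_an.GDef

/-! A generated chart: the program. -/

namespace Pool.Agent.Lib.MP_d6150d_an.S6cT

def prog4 : List Ins := .cst 1487 125 :: .mul 0 191 :: .add true 2 0 :: .mul 193 0 :: .add true 5 0
    :: .mul 166 0 :: .add true 8 0 :: .mul 168 0 :: .add true 17 0 :: .mul 170 0 :: .add true 26 0
    :: .mul 167 0 :: .smul 2 0 :: .sub true 65 0 :: .mul 79 0 :: .mul 81 0 :: .add false 83 0 ::
    .smul (-1) 0 :: .cpy 0 :: []

def prog3 : List Ins := .int (-57) :: .int 156 :: .smul 103 149 :: .sub true 1 0 :: .mul 151 0 ::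
    .add false 4 0 :: .mul 153 0 :: .add false 102 0 :: .int (-6) :: .int 102 :: .smul 312 157 ::
    .sub true 1 0 :: .mul 159 0 :: .add false 4 0 :: .int (-60) :: .smul 480 162 :: .sub false 1 0
    :: .smul 320 156 :: .sub true 1 0 :: .mul 158 0 :: .add true 6 0 :: .mul 160 0 :: .add true 14 0
    :: .mul 23 0 :: .smul 2 86 :: .sub true 0 86 :: .sub false 171 173 :: .sub true 0 156 :: .mul 2
    0 :: .smul 180 0 :: .add true 6 0 :: .mul 42 0 :: .mul 33 0 :: .mul 145 0 :: .cst (-3467) 500 ::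
    .cst 16453 1000 :: .cst (-2029) 250 :: .mul 0 177 :: .add true 2 0 :: .mul 179 0 :: .add false 5
    0 :: .cst (-439) 125 :: .cst (-107) 1000 :: .cst 2419 1000 :: .mul 0 184 :: .add true 2 0 ::
    .mul 186 0 :: .add false 5 0 :: .cst 312 25 :: .cst (-11951) 500 :: prog4

def prog2 : List Ins := .add false 1 0 :: .smul (-36) 62 :: .add true 1 0 :: .mul 64 0 :: .add true
    13 0 :: .mul 66 0 :: .add true 25 0 :: .mul 0 45 :: .mul 30 88 :: .mul 31 0 :: .smul 4 22 ::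
    .smul 2 22 :: .sub false 1 0 :: .smul 6 24 :: .sub false 15 0 :: .smul (-18) 76 :: .add true 1 0
    :: .mul 78 0 :: .add false 5 0 :: .add false 30 80 :: .smul 3 0 :: .smul 2 23 :: .sub true 1 0
    :: .mul 0 14 :: .inv 121 :: .mul 1 0 :: .add true 7 0 :: .mul 17 0 :: .add true 20 0 :: .mul 85
    0 :: .mul 50 0 :: .add true 56 0 :: .mul 98 0 :: .mul 53 53 :: .mul 118 56 :: .smul (-1) 97 ::
    .smul 2 0 :: .inv 128 :: .mul 125 0 :: .mul 0 100 :: .rsq 0 :: .mul 1 0 :: .smul (-1) 0 :: .mul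
    6 0 :: .mul 100 21 :: .mul 0 20 :: .sub true 2 0 :: .mul 107 0 :: .cst 1 1080 :: .mul 68 10 ::
    prog3

def prog1 : List Ins := .mul 25 0 :: .mul 29 34 :: .sub false 1 0 :: .add false 0 42 :: .int 4 ::
    .smul 3 52 :: .sub true 1 0 :: .sub true 56 54 :: .mul 0 4 :: .smul 2 8 :: .sub false 0 8 ::
    .sub false 2 0 :: .mul 5 0 :: .mul 5 2 :: .smul 4 13 :: .sub false 0 13 :: .sub false 2 0 ::
    .add true 4 0 :: .mul 14 0 :: .mul 8 7 :: .smul 3 0 :: .sub false 2 0 :: .mul 23 0 :: .smul 8 0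
    :: .mul 40 0 :: .sub false 58 70 :: .sub false 50 65 :: .mul 1 0 :: .mul 0 0 :: .mul 43 0 ::
    .smul 4 42 :: .cst (-323) 50 :: .cst 1508 125 :: .cst (-508) 125 :: .mul 0 74 :: .add true 2 0
    :: .mul 76 0 :: .add false 5 0 :: .sub false 50 83 :: .add false 1 0 :: .smul 8 0 :: .cst
    (-1461) 500 :: .cst 67 500 :: .cst 3933 500 :: .mul 0 84 :: .add false 2 0 :: .mul 86 0 :: .add
    false 5 0 :: .smul 8 0 :: .smul 12 10 :: prog2

def prog : List Ins := .int 2 :: .var 0 :: .sub false 1 0 :: .smul 2 0 :: .int 1 :: .sub true 1 0 ::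
    .mul 3 0 :: .sub true 4 2 :: .mul 1 0 :: .var 2 :: .sub true 0 7 :: .sub false 8 0 :: .sub true
    0 7 :: .inv 0 :: .mul 5 0 :: .smul 2 0 :: .var 1 :: .mul 1 0 :: .var 3 :: .mul 1 0 :: .smul 2 9
    :: .add true 16 0 :: .inv 16 :: .mul 1 0 :: .add true 19 13 :: .mul 0 8 :: .inv 22 :: .mul 1 0
    :: .sub false 4 0 :: .mul 12 0 :: .sub true 26 29 :: .inv 0 :: .mul 21 0 :: .sub false 3 0 ::
    .mul 14 0 :: .var 4 :: .smul 2 26 :: .add false 32 0 :: .sub false 33 3 :: .sub true 1 0 :: .mul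
    4 0 :: .sub false 6 0 :: .cpy 0 :: .mul 4 4 :: .mul 0 5 :: .add false 40 6 :: .mul 7 0 :: .add
    false 42 0 :: .mul 3 0 :: .mul 32 32 :: prog1

def vs : List Vr := [⟨1, 0, false, true⟩, ⟨1, 0, false, true⟩, ⟨2, 0, true, false⟩, ⟨1, 0, true,
    false⟩, ⟨1, 0, true, false⟩]

def C : Chart := ⟨vs, prog, [43], 1, 3⟩

end Pool.Agent.Lib.MP_d6150d_an.S6cT
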