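import Pool.Agent.Lib.MP_d6150d_an.GDef

/-! A generated chart: the program. -/

namespace Pool.Agent.Lib.MP_d6150d_an.S6dC

def prog3 : List Ins := .mul 2 0 :: .smul 180 0 :: .add true 19 0 :: .mul 90 0 :: .mul 49 0 :: .mul
    130 0 :: .cst (-39641) 10000 :: .cst (-1039) 5000 :: .mul 0 148 :: .add false 2 0 :: .cst 29517
    10000 :: .cst 6587 400 :: .mul 0 152 :: .add false 2 0 :: .cst (-4349) 1250 :: .cst (-39581)
    5000 :: .mul 0 156 :: .add false 2 0 :: .mul 126 0 :: .add true 5 0 :: .mul 128 0 :: .add true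
    11 0 :: .mul 130 0 :: .add true 17 0 :: .mul 105 0 :: .smul 4 0 :: .sub false 72 0 :: .mul 154 0
    :: .smul 3968 137 :: .sub false 174 0 :: .cpy 0 :: .cpy 3 :: []

def prog2 : List Ins := .inv 97 :: .mul 1 0 :: .sub false 34 0 :: .mul 60 0 :: .cst 1 1080 :: .smul
    4 46 :: .sub false 0 57 :: .mul 0 44 :: .int 4 :: .int (-57) :: .int 156 :: .smul 103 108 ::
    .sub true 1 0 :: .mul 110 0 :: .add false 4 0 :: .mul 112 0 :: .add false 7 0 :: .int (-6) ::
    .int 102 :: .smul 312 116 :: .sub true 1 0 :: .mul 118 0 :: .add false 4 0 :: .int (-60) ::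
    .smul 480 121 :: .sub false 1 0 :: .smul 320 115 :: .sub true 1 0 :: .mul 117 0 :: .add true 6 0
    :: .mul 119 0 :: .add true 14 0 :: .mul 24 0 :: .cst 1 2 :: .mul 109 44 :: .mul 49 88 :: .sub
    true 1 0 :: .smul 3 0 :: .mul 4 0 :: .sub false 81 66 :: .sub false 0 87 :: .sub false 2 0 ::
    .cst 44781 5000 :: .cst (-91063) 10000 :: .mul 0 134 :: .add false 2 0 :: .smul 2 0 :: .add true
    5 0 :: .sub false 143 145 :: .sub true 0 120 :: prog3

def prog1 : List Ins := .cst (-8659) 2000 :: .mul 0 41 :: .add false 2 0 :: .mul 0 28 :: .cst 887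
    1250 :: .cst 2367 125 :: .mul 0 46 :: .add false 2 0 :: .sub false 4 0 :: .sub false 10 0 ::
    .smul 4 0 :: .inv 52 :: .mul 49 0 :: .mul 0 21 :: .rsq 0 :: .mul 1 0 :: .smul (-1) 0 :: .mul 6 0
    :: .mul 26 26 :: .cst 31397 10000 :: .cst 63121 5000 :: .mul 0 61 :: .add false 2 0 :: .cst
    (-5521) 2000 :: .cst 12987 625 :: .mul 0 65 :: .add false 2 0 :: .sub false 4 0 :: .smul 6 0 ::
    .cst 9739 10000 :: .cst (-48723) 10000 :: .mul 0 71 :: .add false 2 0 :: .smul 4 0 :: .sub false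
    5 0 :: .add false 60 80 :: .cst 449 2000 :: .cst 10071 5000 :: .mul 0 78 :: .add false 2 0 ::
    .mul 4 0 :: .sub false 44 0 :: .smul 15 0 :: .sub false 8 0 :: .smul 30 4 :: .smul 6 18 :: .sub
    true 1 0 :: .mul 0 55 :: .add true 4 0 :: .mul 30 0 :: prog2

def prog : List Ins := .int 2 :: .var 0 :: .add false 1 0 :: .smul 2 0 :: .int 1 :: .sub true 1 0 ::
    .mul 3 0 :: .sub true 4 2 :: .mul 1 0 :: .var 2 :: .sub true 0 7 :: .sub false 8 0 :: .sub true
    0 7 :: .inv 0 :: .mul 5 0 :: .smul 2 0 :: .var 1 :: .sub false 0 12 :: .add true 13 7 :: .mul 0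
    2 :: .sub false 0 9 :: .mul 3 0 :: .mul 6 0 :: .smul 2 13 :: .add false 19 0 :: .mul 9 8 :: .var
    3 :: .mul 1 0 :: .smul 2 17 :: .add true 24 0 :: .inv 24 :: .mul 1 0 :: .inv 28 :: .mul 13 0 ::
    .sub false 2 0 :: .mul 18 0 :: .sub true 32 35 :: .inv 0 :: .mul 27 0 :: .sub false 3 0 :: .mul
    12 0 :: .sub false 36 0 :: .sub true 17 0 :: .cst 1 5000 :: .cst 4501 5000 :: .mul 0 35 :: .add
    false 2 0 :: .mul 22 0 :: .smul 2 0 :: .cst (-3331) 10000 :: prog1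

def vs : List Vr := [⟨2, 0, false, false⟩, ⟨1, 0, false, false⟩, ⟨3, 0, true, false⟩, ⟨1, 0, true,
    false⟩]

def C : Chart := ⟨vs, prog, [], 2, 3⟩

end Pool.Agent.Lib.MP_d6150d_an.S6dC
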