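import Pool.Agent.Lib.MP_d6150d_an.GDef

/-! A generated chart: the program. -/

namespace Pool.Agent.Lib.MP_d6150d_an.S6dM

def prog6 : List Ins := .cst (-39581) 5000 :: .mul 0 299 :: .add false 2 0 :: .mul 262 0 :: .add
    true 5 0 :: .mul 264 0 :: .add true 11 0 :: .mul 266 0 :: .add true 17 0 :: .mul 266 0 :: .smul
    4 0 :: .sub false 62 0 :: .mul 77 0 :: .mul 79 0 :: .add false 83 0 :: .cpy 0 :: []

def prog5 : List Ins := .smul 4 98 :: .sub false 0 15 :: .mul 0 12 :: .int (-57) :: .int 156 ::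
    .smul 103 250 :: .sub true 1 0 :: .mul 252 0 :: .add false 4 0 :: .mul 254 0 :: .add false 196 0
    :: .int (-6) :: .int 102 :: .smul 312 258 :: .sub true 1 0 :: .mul 260 0 :: .add false 4 0 ::
    .int (-60) :: .smul 480 263 :: .sub false 1 0 :: .smul 320 259 :: .sub true 1 0 :: .mul 261 0 ::
    .add true 6 0 :: .mul 263 0 :: .add true 14 0 :: .mul 23 0 :: .cst 1 2 :: .smul 3 110 :: .mul 1
    0 :: .sub false 0 118 :: .smul 2 121 :: .add true 1 0 :: .sub false 282 278 :: .sub true 0 258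
    :: .mul 2 0 :: .smul 180 0 :: .add true 10 0 :: .mul 48 0 :: .mul 39 0 :: .mul 286 0 :: .cst
    (-39641) 10000 :: .cst (-1039) 5000 :: .mul 0 291 :: .add false 2 0 :: .cst 29517 10000 :: .cst
    6587 400 :: .mul 0 295 :: .add false 2 0 :: .cst (-4349) 1250 :: prog6

def prog4 : List Ins := .smul 24 22 :: .add false 1 0 :: .smul 36 61 :: .smul 150 151 :: .sub true 1
    0 :: .mul 164 0 :: .add true 4 0 :: .mul 166 0 :: .add false 10 0 :: .smul 6 33 :: .smul 4 36 ::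
    .sub false 1 0 :: .smul 15 34 :: .sub false 1 0 :: .smul 30 162 :: .smul 6 74 :: .sub true 1 0
    :: .mul 0 176 :: .add true 4 0 :: .mul 0 27 :: .inv 215 :: .mul 1 0 :: .add true 13 0 :: .mul 30
    0 :: .add true 33 0 :: .mul 182 0 :: .mul 118 0 :: .add true 77 0 :: .mul 99 0 :: .add true 101
    0 :: .mul 188 0 :: .mul 102 102 :: .mul 0 124 :: .mul 0 211 :: .mul 218 127 :: .smul 2 81 ::
    .sub false 0 84 :: .smul 4 0 :: .inv 228 :: .mul 226 0 :: .mul 0 199 :: .rsq 0 :: .mul 1 0 ::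
    .smul (-1) 0 :: .mul 6 0 :: .mul 202 26 :: .mul 0 25 :: .sub false 2 0 :: .mul 206 0 :: .cst 1
    1080 :: prog5

def prog3 : List Ins := .mul 38 146 :: .sub false 0 18 :: .smul 8 0 :: .mul 149 105 :: .smul 4 0 ::
    .sub false 2 0 :: .cst 44781 5000 :: .cst (-91063) 10000 :: .mul 0 156 :: .add false 2 0 :: .sub
    false 27 23 :: .sub false 0 49 :: .add false 2 0 :: .smul 16 0 :: .mul 160 112 :: .add false 161
    164 :: .mul 0 118 :: .sub true 2 0 :: .smul 12 0 :: .sub false 5 0 :: .cst 9739 10000 :: .cst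
    (-48723) 10000 :: .mul 0 170 :: .add false 2 0 :: .smul 16 0 :: .sub false 38 34 :: .mul 10 124
    :: .sub false 129 0 :: .sub false 2 0 :: .smul 24 0 :: .add false 5 0 :: .smul 72 40 :: .smul
    180 130 :: .sub true 1 0 :: .mul 143 0 :: .add true 4 0 :: .mul 145 0 :: .add true 17 0 :: .mul
    147 0 :: .add true 33 0 :: .mul 0 119 :: .mul 84 166 :: .mul 85 0 :: .smul 8 33 :: .smul 4 32 ::
    .sub false 1 0 :: .smul 6 28 :: .add false 1 0 :: .smul 12 22 :: .sub false 24 0 :: prog4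

def prog2 : List Ins := .sub true 2 0 :: .mul 46 0 :: .smul 16 0 :: .mul 64 0 :: .sub true 86 103 ::
    .sub true 74 94 :: .mul 1 0 :: .mul 0 0 :: .cst (-3331) 10000 :: .cst (-8659) 2000 :: .mul 0 108
    :: .add false 2 0 :: .add false 0 58 :: .smul 16 0 :: .mul 73 60 :: .smul 24 0 :: .sub false 2 0
    :: .sub true 116 76 :: .mul 77 0 :: .mul 0 67 :: .smul 8 0 :: .add true 4 0 :: .mul 79 81 ::
    .mul 0 42 :: .mul 2 0 :: .mul 17 0 :: .add true 22 0 :: .mul 85 0 :: .mul 103 20 :: .cst 887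
    1250 :: .cst 2367 125 :: .mul 0 129 :: .add false 2 0 :: .cst 31397 10000 :: .cst 63121 5000 ::
    .mul 0 133 :: .add false 2 0 :: .cst (-5521) 2000 :: .cst 12987 625 :: .mul 0 137 :: .add true 2
    0 :: .mul 100 0 :: .add true 5 0 :: .mul 102 0 :: .add false 11 0 :: .smul (-16) 0 :: .smul 8 31
    :: .sub false 1 0 :: .mul 0 24 :: .mul 110 0 :: prog3

def prog1 : List Ins := .mul 0 48 :: .add false 2 0 :: .mul 0 11 :: .add false 5 0 :: .mul 10 0 ::
    .mul 37 37 :: .mul 26 0 :: .mul 30 39 :: .sub false 1 0 :: .add true 0 48 :: .int 6 :: .smul 5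
    56 :: .sub true 1 0 :: .int 4 :: .smul 3 59 :: .sub true 1 0 :: .sub true 47 61 :: .mul 0 7 ::
    .smul 2 11 :: .sub true 0 11 :: .sub true 2 0 :: .mul 5 0 :: .mul 5 2 :: .smul 4 16 :: .sub true
    0 16 :: .sub false 2 0 :: .add true 4 0 :: .mul 17 0 :: .mul 8 7 :: .smul 3 0 :: .sub true 2 0
    :: .mul 18 0 :: .smul 3 6 :: .sub true 6 0 :: .mul 14 0 :: .mul 19 9 :: .mul 19 11 :: .smul 8 30
    :: .sub false 0 30 :: .sub false 2 0 :: .add true 4 0 :: .mul 31 0 :: .add false 7 0 :: .mul 18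
    22 :: .smul 3 0 :: .sub false 2 0 :: .add true 14 0 :: .mul 37 0 :: .mul 28 17 :: .smul 5 0 ::
    prog2

def prog : List Ins := .int 1 :: .var 1 :: .smul 2 0 :: .add false 2 0 :: .var 0 :: .smul 2 0 ::
    .sub true 0 5 :: .mul 2 0 :: .sub true 3 7 :: .mul 1 0 :: .sub true 8 5 :: .sub false 6 0 ::
    .sub true 0 11 :: .inv 0 :: .mul 4 0 :: .smul 2 0 :: .var 2 :: .exp 0 :: .int 2 :: .sub true 14
    0 :: .mul 0 3 :: .exp 0 :: .mul 4 0 :: .mul 0 0 :: .mul 8 0 :: .smul 2 14 :: .add true 25 0 ::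
    .inv 20 :: .mul 1 0 :: .add true 28 18 :: .mul 0 12 :: .inv 25 :: .mul 1 0 :: .sub true 4 0 ::
    .mul 16 0 :: .sub true 29 16 :: .inv 0 :: .mul 26 0 :: .sub true 3 0 :: .mul 14 0 :: .sub true
    39 0 :: .sub true 37 0 :: .mul 1 1 :: .mul 0 0 :: .cst 1 5000 :: .cst 4501 5000 :: .mul 0 44 ::
    .add false 2 0 :: .cst 449 2000 :: .cst 10071 5000 :: prog1

def vs : List Vr := [⟨2, 0, false, false⟩, ⟨3, 0, true, false⟩, ⟨6, 0, false, false⟩]

def C : Chart := ⟨vs, prog, [], 1, 3⟩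

end Pool.Agent.Lib.MP_d6150d_an.S6dM
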