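import Pool.Agent.Lib.MP_d6150d_an.GDef

/-! A generated chart: the program. -/

namespace Pool.Agent.Lib.MP_d6150d_an.S6dR

def prog6 : List Ins := .add true 11 0 :: .mul 268 0 :: .add true 17 0 :: .mul 62 0 :: .smul 4 0 ::
    .sub true 65 0 :: .mul 87 0 :: .add false 89 0 :: .cpy 0 :: []

def prog5 : List Ins := .sub true 1 0 :: .mul 255 0 :: .add false 4 0 :: .mul 257 0 :: .add false
    182 0 :: .int (-6) :: .int 102 :: .smul 312 261 :: .sub true 1 0 :: .mul 263 0 :: .add false 4 0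
    :: .int (-60) :: .smul 480 266 :: .sub false 1 0 :: .smul 320 254 :: .sub true 1 0 :: .mul 256 0
    :: .add true 6 0 :: .mul 258 0 :: .add true 14 0 :: .mul 23 0 :: .cst 1 2 :: .smul 3 138 :: .mul
    1 0 :: .sub false 0 145 :: .smul 2 105 :: .add true 1 0 :: .sub false 286 281 :: .sub true 0 214
    :: .mul 2 0 :: .smul 180 0 :: .add true 10 0 :: .mul 38 0 :: .mul 41 0 :: .mul 290 0 :: .cst
    (-39641) 10000 :: .cst (-1039) 5000 :: .mul 0 295 :: .add false 2 0 :: .cst 29517 10000 :: .cst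
    6587 400 :: .mul 0 299 :: .add false 2 0 :: .cst (-4349) 1250 :: .cst (-39581) 5000 :: .mul 0
    303 :: .add false 2 0 :: .mul 264 0 :: .add true 5 0 :: .mul 266 0 :: prog6

def prog4 : List Ins := .add false 1 0 :: .smul 12 60 :: .sub false 23 0 :: .smul 24 59 :: .add
    false 1 0 :: .smul 36 65 :: .smul 150 154 :: .sub true 1 0 :: .mul 175 0 :: .add true 4 0 ::
    .mul 177 0 :: .add true 10 0 :: .mul 179 0 :: .mul 20 53 :: .mul 1 0 :: .add true 19 0 :: .mul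
    174 0 :: .mul 178 0 :: .mul 4 59 :: .mul 186 186 :: .smul 6 79 :: .smul 4 43 :: .sub false 1 0
    :: .smul 15 79 :: .sub false 1 0 :: .smul 30 173 :: .smul 6 86 :: .sub true 1 0 :: .mul 0 195 ::
    .add true 4 0 :: .mul 10 0 :: .mul 0 194 :: .smul 2 111 :: .sub false 0 113 :: .smul 4 0 :: .rsq
    212 :: .mul 213 0 :: .mul 2 0 :: .add false 6 0 :: .mul 205 0 :: .mul 207 208 :: .cst 1 1080 ::
    .inv 215 :: .mul 214 0 :: .smul 4 124 :: .sub false 0 12 :: .mul 0 2 :: .int (-57) :: .int 156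
    :: .smul 103 253 :: prog5

def prog3 : List Ins := .add true 4 0 :: .mul 118 0 :: .add true 16 0 :: .mul 120 0 :: .add true 31
    0 :: .mul 0 66 :: .mul 98 97 :: .sub true 0 147 :: .mul 98 0 :: .mul 0 0 :: .mul 4 0 :: .add
    false 51 0 :: .mul 120 0 :: .smul 8 43 :: .smul 4 43 :: .sub false 1 0 :: .cst 44781 5000 ::
    .cst (-91063) 10000 :: .mul 0 176 :: .add false 2 0 :: .add false 0 41 :: .smul 16 0 :: .smul 12
    38 :: .sub false 1 0 :: .cst 9739 10000 :: .cst (-48723) 10000 :: .mul 0 184 :: .add false 2 0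
    :: .smul 16 0 :: .sub false 38 35 :: .smul 24 0 :: .add false 2 0 :: .smul 72 42 :: .smul 180
    131 :: .sub true 1 0 :: .mul 152 0 :: .add true 4 0 :: .mul 154 0 :: .add true 14 0 :: .mul 156
    0 :: .add true 24 0 :: .mul 0 112 :: .mul 32 32 :: .mul 1 0 :: .add true 31 0 :: .mul 153 0 ::
    .smul 8 26 :: .smul 4 68 :: .sub false 1 0 :: .smul 6 65 :: prog4

def prog2 : List Ins := .add false 7 0 :: .mul 18 22 :: .smul 3 0 :: .sub false 2 0 :: .add true 14
    0 :: .mul 37 0 :: .mul 28 17 :: .smul 5 0 :: .sub false 2 0 :: .mul 52 0 :: .cst (-3331) 10000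
    :: .cst (-8659) 2000 :: .mul 0 120 :: .add false 2 0 :: .mul 0 120 :: .cst 887 1250 :: .cst 2367
    125 :: .mul 0 125 :: .add false 2 0 :: .sub false 4 0 :: .mul 126 72 :: .add false 1 0 :: .smul
    16 0 :: .cst 31397 10000 :: .cst 63121 5000 :: .mul 0 133 :: .add false 2 0 :: .sub false 8 0 ::
    .sub false 0 14 :: .smul 16 0 :: .mul 136 78 :: .add false 137 140 :: .mul 0 84 :: .sub true 2 0
    :: .smul 24 0 :: .add false 5 0 :: .cst (-5521) 2000 :: .cst 12987 625 :: .mul 0 146 :: .add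
    false 2 0 :: .sub false 13 0 :: .smul 16 0 :: .mul 10 90 :: .sub false 95 0 :: .smul 32 0 ::
    .add false 3 0 :: .smul 16 6 :: .smul 40 95 :: .add true 1 0 :: .mul 116 0 :: prog3

def prog1 : List Ins := .cst 449 2000 :: .cst 10071 5000 :: .mul 0 58 :: .add false 2 0 :: .mul 0 19
    :: .add false 5 0 :: .mul 10 0 :: .smul 16 0 :: .mul 0 14 :: .add true 66 47 :: .tri 63 :: .mul
    2 2 :: .mul 4 0 :: .smul 2 53 :: .add true 73 0 :: .mul 0 6 :: .sub false 3 0 :: .add true 0 57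
    :: .int 6 :: .smul 5 73 :: .sub true 1 0 :: .int 4 :: .smul 3 76 :: .sub true 1 0 :: .sub true
    61 78 :: .mul 0 7 :: .smul 2 13 :: .sub true 0 11 :: .sub false 2 0 :: .mul 5 0 :: .mul 5 2 ::
    .smul 4 18 :: .sub true 0 16 :: .sub true 2 0 :: .add false 4 0 :: .mul 17 0 :: .mul 8 7 ::
    .smul 3 0 :: .sub false 2 0 :: .mul 18 0 :: .smul 3 6 :: .sub true 6 0 :: .mul 14 0 :: .mul 19 9
    :: .mul 19 11 :: .smul 8 32 :: .sub false 0 30 :: .sub false 2 0 :: .add true 4 0 :: .mul 31 0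
    :: prog2

def prog : List Ins := .int 1 :: .var 1 :: .smul 2 0 :: .add false 2 0 :: .var 2 :: .var 0 :: .smul
    2 0 :: .mul 0 2 :: .tri 0 :: .mul 4 0 :: .sub true 5 11 :: .mul 0 8 :: .tri 0 :: .mul 4 0 ::
    .sub false 6 0 :: .sub true 17 13 :: .smul 2 2 :: .sub false 9 0 :: .int 2 :: .sub true 16 0 ::
    .mul 0 19 :: .tri 0 :: .mul 4 0 :: .add true 7 0 :: .mul 10 0 :: .add true 12 0 :: .smul 2 0 ::
    .mul 28 0 :: .mul 28 21 :: .sub true 29 34 :: .mul 1 0 :: .sub false 31 17 :: .sub true 0 37 ::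
    .inv 0 :: .mul 3 0 :: .mul 7 0 :: .mul 37 0 :: .sub true 39 0 :: .mul 38 39 :: .tri 0 :: .mul 4
    2 :: .smul 2 23 :: .inv 0 :: .mul 18 0 :: .sub true 51 9 :: .mul 0 9 :: .cst 1 5000 :: .cst 4501
    5000 :: .mul 0 54 :: .add false 2 0 :: prog1

def vs : List Vr := [⟨3, 0, false, false⟩, ⟨3, 0, false, false⟩, ⟨8, 4, false, false⟩]

def C : Chart := ⟨vs, prog, [], 1, 3⟩

end Pool.Agent.Lib.MP_d6150d_an.S6dR
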