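import Pool.Agent.Lib.MP_d6150d_an.GDef

/-! A generated chart: the program. -/

namespace Pool.Agent.Lib.MP_d6150d_an.S6dS

def prog6 : List Ins := .mul 2 0 :: .smul 180 0 :: .add true 9 0 :: .mul 46 0 :: .mul 38 0 :: .mul
    141 0 :: .cst (-39641) 10000 :: .cst (-1039) 5000 :: .mul 0 279 :: .add false 2 0 :: .cst 29517
    10000 :: .cst 6587 400 :: .mul 0 283 :: .add false 2 0 :: .cst (-4349) 1250 :: .cst (-39581)
    5000 :: .mul 0 287 :: .add false 2 0 :: .mul 268 0 :: .add true 5 0 :: .mul 270 0 :: .add true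
    11 0 :: .mul 272 0 :: .add true 17 0 :: .mul 273 0 :: .smul 4 0 :: .sub true 61 0 :: .mul 76 0
    :: .mul 78 0 :: .add false 82 0 :: .cpy 0 :: []

def prog5 : List Ins := .mul 215 42 :: .sub true 87 201 :: .smul 2 84 :: .sub false 0 87 :: .smul 4
    0 :: .inv 228 :: .mul 224 0 :: .mul 0 207 :: .rsq 0 :: .mul 1 0 :: .mul 5 0 :: .mul 210 25 ::
    .mul 0 251 :: .sub true 2 0 :: .mul 12 0 :: .cst 1 1080 :: .smul 4 100 :: .sub false 0 14 ::
    .mul 0 11 :: .int (-57) :: .int 156 :: .smul 103 270 :: .sub true 1 0 :: .mul 272 0 :: .add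
    false 4 0 :: .mul 274 0 :: .add false 202 0 :: .int (-6) :: .int 102 :: .smul 312 278 :: .sub
    true 1 0 :: .mul 280 0 :: .add false 4 0 :: .int (-60) :: .smul 480 283 :: .sub false 1 0 ::
    .smul 320 256 :: .sub true 1 0 :: .mul 258 0 :: .add true 6 0 :: .mul 260 0 :: .add true 14 0 ::
    .mul 23 0 :: .smul 3 111 :: .mul 251 0 :: .sub false 0 119 :: .smul 2 122 :: .add true 1 0 ::
    .sub false 296 297 :: .sub true 0 233 :: prog6

def prog4 : List Ins := .mul 150 0 :: .add true 17 0 :: .mul 152 0 :: .add true 33 0 :: .mul 0 123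
    :: .mul 141 198 :: .sub true 0 176 :: .mul 92 0 :: .mul 0 166 :: .mul 1 0 :: .smul 8 36 :: .smul
    4 35 :: .sub false 1 0 :: .smul 6 31 :: .add false 1 0 :: .smul 12 25 :: .sub false 27 0 ::
    .smul 24 25 :: .add false 1 0 :: .smul 36 66 :: .smul 150 160 :: .sub true 1 0 :: .mul 172 0 ::
    .add true 4 0 :: .mul 174 0 :: .add false 10 0 :: .smul 6 36 :: .smul 4 39 :: .sub false 1 0 ::
    .smul 15 37 :: .sub false 1 0 :: .smul 30 171 :: .smul 6 79 :: .sub true 1 0 :: .mul 0 184 ::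
    .add true 4 0 :: .mul 0 27 :: .mul 0 226 :: .add true 12 0 :: .mul 29 0 :: .add true 35 0 ::
    .mul 190 0 :: .mul 122 0 :: .add true 81 0 :: .mul 103 0 :: .add true 105 0 :: .mul 198 0 ::
    .mul 106 106 :: .mul 0 128 :: .mul 0 210 :: prog5

def prog3 : List Ins := .cst 12987 625 :: .mul 0 122 :: .add true 2 0 :: .mul 103 0 :: .add true 5 0
    :: .mul 105 0 :: .add false 11 0 :: .smul (-16) 0 :: .smul 8 31 :: .sub false 1 0 :: .mul 0 24
    :: .mul 115 0 :: .smul 2 133 :: .add false 161 0 :: .mul 40 0 :: .sub false 0 20 :: .smul 8 0 ::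
    .mul 3 111 :: .smul 4 0 :: .sub false 2 0 :: .cst 44781 5000 :: .cst (-91063) 10000 :: .mul 0
    143 :: .add false 2 0 :: .sub false 29 25 :: .sub false 0 51 :: .add false 2 0 :: .smul 16 0 ::
    .mul 14 118 :: .add false 15 177 :: .mul 0 124 :: .sub true 2 0 :: .smul 12 0 :: .sub false 5 0
    :: .cst 9739 10000 :: .cst (-48723) 10000 :: .mul 0 157 :: .add false 2 0 :: .smul 16 0 :: .sub
    false 40 36 :: .mul 10 130 :: .sub false 135 0 :: .sub false 2 0 :: .smul 24 0 :: .add false 5 0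
    :: .smul 72 42 :: .smul 180 136 :: .sub true 1 0 :: .mul 148 0 :: .add true 4 0 :: prog4

def prog2 : List Ins := .add true 4 0 :: .mul 31 0 :: .add false 7 0 :: .mul 18 22 :: .smul 3 0 ::
    .sub false 2 0 :: .add true 14 0 :: .mul 37 0 :: .mul 28 17 :: .smul 5 0 :: .sub true 2 0 ::
    .mul 48 0 :: .smul 16 0 :: .mul 67 0 :: .sub true 107 112 :: .mul 107 91 :: .mul 0 1 :: .add
    false 114 0 :: .mul 3 0 :: .mul 0 0 :: .cst (-3331) 10000 :: .cst (-8659) 2000 :: .mul 0 93 ::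
    .add false 2 0 :: .add false 0 62 :: .smul 16 0 :: .mul 76 64 :: .smul 24 0 :: .sub false 2 0 ::
    .sub true 127 79 :: .mul 80 0 :: .mul 0 71 :: .smul 8 0 :: .add true 4 0 :: .mul 83 84 :: .mul 0
    44 :: .mul 2 0 :: .mul 17 0 :: .add true 24 0 :: .mul 91 0 :: .mul 98 20 :: .cst 887 1250 ::
    .cst 2367 125 :: .mul 0 114 :: .add false 2 0 :: .cst 31397 10000 :: .cst 63121 5000 :: .mul 0
    118 :: .add false 2 0 :: .cst (-5521) 2000 :: prog3

def prog1 : List Ins := .mul 0 0 :: .mul 0 0 :: .cst 1 5000 :: .cst 4501 5000 :: .mul 0 25 :: .add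
    false 2 0 :: .cst 449 2000 :: .cst 10071 5000 :: .mul 0 29 :: .add false 2 0 :: .mul 0 10 ::
    .add false 5 0 :: .mul 10 0 :: .add true 61 33 :: .mul 0 44 :: .smul 2 35 :: .add true 64 0 ::
    .mul 0 60 :: .sub false 3 0 :: .add true 0 39 :: .int 6 :: .smul 5 70 :: .sub true 1 0 :: .int 4
    :: .smul 3 73 :: .sub true 1 0 :: .sub true 40 75 :: .mul 0 7 :: .smul 2 13 :: .sub true 0 11 ::
    .sub false 2 0 :: .mul 5 0 :: .mul 5 2 :: .smul 4 18 :: .sub true 0 16 :: .sub false 2 0 :: .add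
    true 4 0 :: .mul 17 0 :: .mul 8 7 :: .smul 3 0 :: .sub false 2 0 :: .mul 18 0 :: .smul 3 6 ::
    .sub true 6 0 :: .mul 14 0 :: .mul 19 9 :: .mul 19 11 :: .smul 8 32 :: .sub false 0 30 :: .sub
    false 2 0 :: prog2

def prog : List Ins := .var 0 :: .int 1 :: .sub true 1 0 :: .inv 0 :: .mul 3 0 :: .var 2 :: .exp 0
    :: .sub true 2 0 :: .cpy 0 :: .var 1 :: .inv 9 :: .mul 8 0 :: .mul 2 0 :: .smul 4 6 :: .smul 2
    13 :: .sub true 0 13 :: .inv 0 :: .mul 3 0 :: .sub false 14 0 :: .mul 12 12 :: .mul 0 9 :: .add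
    true 2 0 :: .inv 0 :: .mul 10 0 :: .smul 2 0 :: .mul 24 9 :: .mul 0 23 :: .mul 19 19 :: .mul 0 4
    :: .sub true 0 28 :: .sub false 29 0 :: .sub true 0 29 :: .inv 0 :: .mul 6 0 :: .smul 2 0 ::
    .int 2 :: .sub true 35 0 :: .mul 0 31 :: .exp 0 :: .mul 32 0 :: .mul 0 0 :: .mul 6 0 :: .cst 1 2
    :: .sub true 41 33 :: .mul 32 0 :: .mul 2 0 :: .mul 4 0 :: .add false 22 0 :: .mul 20 1 :: .sub
    true 47 0 :: prog1

def vs : List Vr := [⟨2, 0, false, false⟩, ⟨3, 0, false, false⟩, ⟨5, 0, false, false⟩]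

def C : Chart := ⟨vs, prog, [9], 1, 3⟩

end Pool.Agent.Lib.MP_d6150d_an.S6dS
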