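import Pool.Agent.Lib.MP_d6150d_an.GDef

/-! A generated chart: the program. -/

namespace Pool.Agent.Lib.MP_d6150d_an.S6dT

def prog4 : List Ins := .sub false 24 0 :: .smul 24 22 :: .add false 1 0 :: .smul 36 61 :: .smul 150
    151 :: .sub true 1 0 :: .mul 167 0 :: .add true 4 0 :: .mul 169 0 :: .add false 10 0 :: .smul 6
    33 :: .smul 4 36 :: .sub false 1 0 :: .smul 15 34 :: .sub false 1 0 :: .smul 30 162 :: .smul 6
    74 :: .sub true 1 0 :: .mul 0 179 :: .add true 4 0 :: .mul 0 27 :: .inv 218 :: .mul 1 0 :: .add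
    true 13 0 :: .mul 30 0 :: .add true 33 0 :: .mul 182 0 :: .mul 118 0 :: .add true 77 0 :: .mul
    99 0 :: .add false 101 0 :: .cpy 0 :: []

def prog3 : List Ins := .mul 116 0 :: .mul 38 113 :: .sub false 0 18 :: .smul 8 0 :: .mul 116 105 ::
    .smul 4 0 :: .sub false 2 0 :: .cst 44781 5000 :: .cst (-91063) 10000 :: .mul 0 149 :: .add
    false 2 0 :: .sub false 27 23 :: .sub false 0 49 :: .add false 2 0 :: .smul 16 0 :: .mul 127 112
    :: .add false 128 161 :: .mul 0 118 :: .sub false 2 0 :: .smul 12 0 :: .sub false 5 0 :: .cst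
    9739 10000 :: .cst (-48723) 10000 :: .mul 0 163 :: .add false 2 0 :: .smul 16 0 :: .sub false 38
    34 :: .mul 10 124 :: .sub false 129 0 :: .sub false 2 0 :: .smul 24 0 :: .add false 5 0 :: .smul
    72 40 :: .smul 180 130 :: .sub true 1 0 :: .mul 146 0 :: .add true 4 0 :: .mul 148 0 :: .add
    true 17 0 :: .mul 150 0 :: .add true 33 0 :: .mul 0 119 :: .mul 84 172 :: .mul 85 0 :: .smul 8
    33 :: .smul 4 32 :: .sub false 1 0 :: .smul 6 28 :: .add false 1 0 :: .smul 12 22 :: prog4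

def prog2 : List Ins := .smul 5 0 :: .sub false 2 0 :: .mul 46 0 :: .smul 16 0 :: .mul 70 0 :: .sub
    false 88 100 :: .sub false 80 95 :: .mul 1 0 :: .mul 0 0 :: .cst (-3331) 10000 :: .cst (-8659)
    2000 :: .mul 0 101 :: .add false 2 0 :: .add false 0 58 :: .smul 16 0 :: .mul 76 60 :: .smul 24
    0 :: .sub false 2 0 :: .sub true 113 79 :: .mul 80 0 :: .mul 0 67 :: .smul 8 0 :: .add true 4 0
    :: .mul 79 84 :: .mul 0 42 :: .mul 2 0 :: .mul 17 0 :: .add true 22 0 :: .mul 94 0 :: .mul 93 20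
    :: .cst 887 1250 :: .cst 2367 125 :: .mul 0 122 :: .add false 2 0 :: .cst 31397 10000 :: .cst
    63121 5000 :: .mul 0 126 :: .add false 2 0 :: .cst (-5521) 2000 :: .cst 12987 625 :: .mul 0 130
    :: .add true 2 0 :: .mul 103 0 :: .add true 5 0 :: .mul 105 0 :: .add false 11 0 :: .smul (-16)
    0 :: .smul 8 31 :: .sub false 1 0 :: .mul 0 24 :: prog3

def prog1 : List Ins := .cst 10071 5000 :: .mul 0 41 :: .add false 2 0 :: .mul 0 14 :: .add false 5
    0 :: .mul 10 0 :: .mul 39 39 :: .mul 32 0 :: .mul 36 41 :: .sub false 1 0 :: .add false 0 49 ::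
    .int 6 :: .smul 5 59 :: .sub true 1 0 :: .int 4 :: .smul 3 62 :: .sub true 1 0 :: .sub true 66
    64 :: .mul 0 7 :: .smul 2 11 :: .sub false 0 11 :: .sub true 2 0 :: .mul 5 0 :: .mul 5 2 ::
    .smul 4 16 :: .sub false 0 16 :: .sub false 2 0 :: .add true 4 0 :: .mul 17 0 :: .mul 8 7 ::
    .smul 3 0 :: .sub false 2 0 :: .mul 18 0 :: .smul 3 6 :: .sub true 6 0 :: .mul 14 0 :: .mul 19 9
    :: .mul 19 11 :: .smul 8 30 :: .sub false 0 30 :: .sub false 2 0 :: .add true 4 0 :: .mul 31 0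
    :: .add false 7 0 :: .mul 18 22 :: .smul 3 0 :: .sub false 2 0 :: .add true 14 0 :: .mul 37 0 ::
    .mul 28 17 :: prog2

def prog : List Ins := .int 2 :: .var 0 :: .add false 1 0 :: .smul 2 0 :: .int 1 :: .sub true 1 0 ::
    .mul 3 0 :: .sub true 4 2 :: .mul 1 0 :: .var 2 :: .sub true 0 7 :: .sub false 8 0 :: .sub true
    0 7 :: .inv 0 :: .mul 5 0 :: .smul 2 0 :: .var 1 :: .mul 1 0 :: .var 3 :: .mul 1 0 :: .smul 2 9
    :: .add true 16 0 :: .inv 16 :: .mul 1 0 :: .add true 19 13 :: .mul 0 8 :: .inv 22 :: .mul 1 0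
    :: .sub false 4 0 :: .mul 12 0 :: .sub true 26 29 :: .inv 0 :: .mul 21 0 :: .sub false 3 0 ::
    .mul 14 0 :: .var 4 :: .smul 2 26 :: .add false 32 0 :: .sub false 33 3 :: .sub true 1 0 :: .mul
    4 0 :: .sub false 6 0 :: .cpy 0 :: .mul 4 4 :: .mul 0 0 :: .cst 1 5000 :: .cst 4501 5000 :: .mul
    0 37 :: .add false 2 0 :: .cst 449 2000 :: prog1

def vs : List Vr := [⟨2, 0, false, true⟩, ⟨1, 0, false, true⟩, ⟨2, 0, true, false⟩, ⟨0, 0, true,
    false⟩, ⟨1, 0, true, false⟩]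

def C : Chart := ⟨vs, prog, [43], 1, 3⟩

end Pool.Agent.Lib.MP_d6150d_an.S6dT
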