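import Pool.Agent.Lib.MP_d6150d_an.GDef

/-! A generated chart: the program. -/

namespace Pool.Agent.Lib.MP_d6150d_an.S6dU

def prog6 : List Ins := .cst (-39581) 5000 :: .mul 0 296 :: .add false 2 0 :: .mul 265 0 :: .add
    true 5 0 :: .mul 267 0 :: .add false 11 0 :: .mul 269 0 :: .add true 17 0 :: .mul 270 0 :: .smul
    4 0 :: .sub false 62 0 :: .mul 78 0 :: .mul 80 0 :: .add false 84 0 :: .cpy 0 :: []

def prog5 : List Ins := .smul 4 99 :: .sub false 0 15 :: .mul 0 12 :: .int (-57) :: .int 156 ::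
    .smul 103 247 :: .sub true 1 0 :: .mul 249 0 :: .add false 4 0 :: .mul 251 0 :: .add false 200 0
    :: .int (-6) :: .int 102 :: .smul 312 255 :: .sub true 1 0 :: .mul 257 0 :: .add false 4 0 ::
    .int (-60) :: .smul 480 260 :: .sub false 1 0 :: .smul 320 261 :: .sub true 1 0 :: .mul 263 0 ::
    .add true 6 0 :: .mul 265 0 :: .add true 14 0 :: .mul 23 0 :: .cst 1 2 :: .smul 3 111 :: .mul 1
    0 :: .sub false 0 119 :: .smul 2 122 :: .add false 1 0 :: .sub false 279 275 :: .sub true 0 274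
    :: .mul 2 0 :: .smul 180 0 :: .add false 10 0 :: .mul 48 0 :: .mul 39 0 :: .mul 141 0 :: .cst
    (-39641) 10000 :: .cst (-1039) 5000 :: .mul 0 288 :: .add false 2 0 :: .cst 29517 10000 :: .cst
    6587 400 :: .mul 0 292 :: .add false 2 0 :: .cst (-4349) 1250 :: prog6

def prog4 : List Ins := .add false 1 0 :: .smul 36 63 :: .smul 150 154 :: .sub false 1 0 :: .mul 166
    0 :: .add false 4 0 :: .mul 168 0 :: .add false 10 0 :: .smul 6 33 :: .smul 4 36 :: .sub false 1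
    0 :: .smul 15 34 :: .sub false 1 0 :: .smul 30 165 :: .smul 6 76 :: .sub false 1 0 :: .mul 0 178
    :: .add false 4 0 :: .mul 0 27 :: .inv 211 :: .mul 1 0 :: .add true 13 0 :: .mul 30 0 :: .add
    true 33 0 :: .mul 185 0 :: .mul 121 0 :: .add true 79 0 :: .mul 101 0 :: .add true 104 0 :: .mul
    204 0 :: .mul 104 104 :: .mul 0 127 :: .mul 0 231 :: .mul 200 130 :: .sub true 85 196 :: .smul 2
    82 :: .sub false 0 85 :: .smul 4 0 :: .inv 210 :: .mul 209 0 :: .mul 0 202 :: .rsq 0 :: .mul 1 0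
    :: .smul (-1) 0 :: .mul 6 0 :: .mul 206 27 :: .mul 0 26 :: .sub false 2 0 :: .mul 13 0 :: .cst 1
    1080 :: prog5

def prog3 : List Ins := .sub false 0 20 :: .smul 8 0 :: .mul 3 108 :: .smul 4 0 :: .sub false 2 0 ::
    .cst 44781 5000 :: .cst (-91063) 10000 :: .mul 0 152 :: .add false 2 0 :: .sub false 29 25 ::
    .sub false 0 52 :: .add false 2 0 :: .smul 16 0 :: .mul 14 115 :: .add false 15 160 :: .mul 0
    121 :: .sub false 2 0 :: .smul 12 0 :: .sub false 5 0 :: .cst 9739 10000 :: .cst (-48723) 10000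
    :: .mul 0 166 :: .add false 2 0 :: .smul 16 0 :: .sub false 40 36 :: .mul 10 127 :: .sub false
    132 0 :: .sub false 2 0 :: .smul 24 0 :: .add false 5 0 :: .smul 72 42 :: .smul 180 133 :: .sub
    false 1 0 :: .mul 145 0 :: .add true 4 0 :: .mul 147 0 :: .add true 17 0 :: .mul 149 0 :: .add
    true 33 0 :: .mul 0 122 :: .mul 87 154 :: .mul 88 0 :: .smul 8 33 :: .smul 4 32 :: .sub false 1
    0 :: .smul 6 28 :: .add false 1 0 :: .smul 12 22 :: .sub false 24 0 :: .smul 24 22 :: prog4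

def prog2 : List Ins := .sub false 97 96 :: .sub false 84 92 :: .mul 1 0 :: .mul 0 0 :: .cst (-3331)
    10000 :: .cst (-8659) 2000 :: .mul 0 101 :: .add false 2 0 :: .add false 0 58 :: .smul 16 0 ::
    .mul 72 60 :: .smul 24 0 :: .sub false 2 0 :: .sub true 109 75 :: .mul 76 0 :: .mul 0 67 ::
    .smul 8 0 :: .add true 4 0 :: .mul 79 80 :: .mul 0 42 :: .mul 2 0 :: .mul 17 0 :: .add true 22 0
    :: .mul 98 0 :: .var 4 :: .mul 0 21 :: .cst 887 1250 :: .cst 2367 125 :: .mul 0 123 :: .add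
    false 2 0 :: .cst 31397 10000 :: .cst 63121 5000 :: .mul 0 127 :: .add false 2 0 :: .cst (-5521)
    2000 :: .cst 12987 625 :: .mul 0 131 :: .add false 2 0 :: .mul 100 0 :: .add true 5 0 :: .mul
    102 0 :: .add false 11 0 :: .smul (-16) 0 :: .smul 8 32 :: .sub false 1 0 :: .mul 0 25 :: .mul
    121 0 :: .smul 2 142 :: .add false 144 0 :: .mul 41 0 :: prog3

def prog1 : List Ins := .mul 10 0 :: .mul 48 48 :: .mul 36 0 :: .mul 42 50 :: .sub false 1 0 :: .add
    false 0 46 :: .int 6 :: .smul 5 49 :: .sub true 1 0 :: .int 4 :: .smul 3 52 :: .sub true 1 0 ::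
    .sub true 56 54 :: .mul 0 7 :: .smul 2 11 :: .sub false 0 11 :: .sub true 2 0 :: .mul 5 0 ::
    .mul 5 2 :: .smul 4 16 :: .sub false 0 16 :: .sub false 2 0 :: .add true 4 0 :: .mul 17 0 ::
    .mul 8 7 :: .smul 3 0 :: .sub false 2 0 :: .mul 18 0 :: .smul 3 6 :: .sub true 6 0 :: .mul 14 0
    :: .mul 19 9 :: .mul 19 11 :: .smul 8 30 :: .sub false 0 30 :: .sub false 2 0 :: .add true 4 0
    :: .mul 31 0 :: .add false 7 0 :: .mul 18 22 :: .smul 3 0 :: .sub false 2 0 :: .add true 14 0 ::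
    .mul 37 0 :: .mul 28 17 :: .smul 5 0 :: .sub false 2 0 :: .mul 46 0 :: .smul 16 0 :: .mul 74 0
    :: prog2

def prog : List Ins := .var 1 :: .var 2 :: .mul 1 0 :: .int 1 :: .var 3 :: .int 2 :: .var 0 :: .add
    false 1 0 :: .sub false 3 0 :: .smul 2 0 :: .add true 6 0 :: .smul 2 3 :: .sub true 0 8 :: .inv
    0 :: .mul 3 0 :: .add true 11 6 :: .mul 0 13 :: .inv 5 :: .mul 1 0 :: .sub false 4 0 :: .mul 17
    0 :: .sub true 9 15 :: .inv 0 :: .mul 14 0 :: .sub false 3 0 :: .mul 17 12 :: .sub true 18 22 ::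
    .mul 1 0 :: .sub false 20 19 :: .sub true 0 25 :: .inv 0 :: .mul 3 0 :: .smul 2 0 :: .mul 30 32
    :: .mul 0 0 :: .mul 2 0 :: .mul 0 11 :: .sub false 33 0 :: .mul 0 0 :: .mul 0 0 :: .cst 1 5000
    :: .cst 4501 5000 :: .mul 0 37 :: .add false 2 0 :: .cst 449 2000 :: .cst 10071 5000 :: .mul 0
    41 :: .add false 2 0 :: .mul 0 10 :: .add false 5 0 :: prog1

def vs : List Vr := [⟨2, 0, false, true⟩, ⟨2, 0, false, true⟩, ⟨1, 0, true, false⟩, ⟨1, 0, true,
    false⟩, ⟨2, 0, false, false⟩]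

def C : Chart := ⟨vs, prog, [], 1, 3⟩

end Pool.Agent.Lib.MP_d6150d_an.S6dU
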