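import Pool.Agent.Lib.MP_d6150d_an.GDef

/-! A generated chart: the program. -/

namespace Pool.Agent.Lib.MP_d6150d_an.S6dW

def prog1 : List Ins := .cst 12987 625 :: .mul 0 41 :: .add true 2 0 :: .mul 48 0 :: .add true 5 0
    :: .mul 50 0 :: .add true 11 0 :: .mul 55 0 :: .sub false 17 0 :: .mul 0 31 :: .add false 23 0
    :: .cst 44781 5000 :: .cst (-91063) 10000 :: .mul 0 53 :: .add false 2 0 :: .cst 9739 10000 ::
    .cst (-48723) 10000 :: .mul 0 57 :: .add false 2 0 :: .cst 5 2 :: .mul 0 17 :: .cst 35 4 :: .mul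
    0 52 :: .sub true 2 0 :: .mul 69 0 :: .add true 6 0 :: .mul 71 0 :: .add true 12 0 :: .mul 73 0
    :: .mul 0 77 :: .add false 19 0 :: .smul (-1) 0 :: .cpy 0 :: []

def prog : List Ins := .int 1 :: .var 0 :: .var 1 :: .mul 1 0 :: .sub true 3 0 :: .cpy 0 :: .cst 49
    64 :: .cst 1 2 :: .sub true 5 4 :: .mul 1 0 :: .sub false 3 0 :: .cpy 0 :: .cst 1 5000 :: .cst
    4501 5000 :: .mul 0 4 :: .add false 2 0 :: .cst 449 2000 :: .cst 10071 5000 :: .mul 0 8 :: .add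
    false 2 0 :: .mul 0 15 :: .add true 5 0 :: .cst 1 20 :: .smul 3 21 :: .add false 1 0 :: .mul 20
    0 :: .smul 2 22 :: .add true 1 0 :: .mul 0 0 :: .mul 24 24 :: .mul 6 28 :: .add false 8 0 ::
    .mul 2 0 :: .add false 4 0 :: .mul 7 30 :: .sub true 1 0 :: .mul 14 0 :: .cst (-3331) 10000 ::
    .cst (-8659) 2000 :: .mul 0 29 :: .add false 2 0 :: .cst 887 1250 :: .cst 2367 125 :: .mul 0 33
    :: .add false 2 0 :: .cst 31397 10000 :: .cst 63121 5000 :: .mul 0 37 :: .add false 2 0 :: .cst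
    (-5521) 2000 :: prog1

def vs : List Vr := [⟨4, 0, false, false⟩, ⟨4, 0, false, false⟩]

def C : Chart := ⟨vs, prog, [6, 12], 1, 3⟩

end Pool.Agent.Lib.MP_d6150d_an.S6dW
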