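import Pool.Agent.Lib.MP_d6150d_an.Z0
import Pool.Agent.Lib.MP_d6150d_an.KNJ
import Pool.Agent.Lib.MP_d6150d_an.SchReg

/-! The strip `F` near `1`, `D ≤ -1 / 2`: the operators of order one and the scaled identities. -/

namespace Pool.Agent.Lib.MP_d6150d_an.S7

open Real Set Filter Topology Asymptotics

/-- the coefficients of the operator and of the separator -/
structure Co where
  q1 : ℝ
  r1 : ℝ
  q2 : ℝ
  r2 : ℝ
  b : ℝ
  c : ℝ
  n0 : ℝ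
  n1 : ℝ
  n2 : ℝ

namespace Co

variable (k : Co)

def o : Gp := ⟨0, 0, 0, 0, k.q1, k.r1, 0, k.q2, k.r2, 0, 0, 0⟩

noncomputable def X (v : ℝ) : ℝ := (k.n0 + k.n1 * v + k.n2 * v ^ 2) * (1 + k.c * v)⁻¹ ^ 3

/-- the kernel minus the separator -/
noncomputable def De (D F t : ℝ) : ℝ := k.o.K D F t - vR D F t ^ 2 * (k.b + k.X (vR D F t))

def B (F P Q R Y W a M i : ℝ) : ℝ :=
  (8 * k.q1 * a + 8 * k.q2 * M) * (Y ^ 3 * (pjR F P Q R).2.1) +
    i * ((24 * k.q1 + 4 * k.r1) * a + (28 * k.q2 + 4 * k.r2) * M) *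
      (Y ^ 2 * (pjR F P Q R).1 * W ^ 2) +
    i * i * ((6 * k.q1 + 2 * k.r1) * a + (10 * k.q2 + 4 * k.r2) * M) * (Y * W ^ 4)

def N (a M : ℝ) : ℝ := k.n0 * a ^ 2 + k.n1 * a * M + k.n2 * M ^ 2

variable {k} {D F t : ℝ}

theorem hom (hF : F ≠ 0) (hb : F * k.b = k.q2 + k.r2) (ht : t ∈ JR D) (h0 : t ≠ 0)
    {l s P Q R Y W : ℝ} (hs : s ≠ 0) (hP : P = l * PR D t) (hQ : Q = l * QR D t) (hR : R = l * D)
    (hY : s ^ 2 * Y = l * yR D F t) (hW : s * W = l * wR D t) :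
    W ^ 5 * k.De D F t = exp (F * t) * vR D F t * (s * k.B F P Q R Y W 1 (vR D F t) 1 -
      W ^ 5 * vR D F t * (k.b + exp (-(F * t)) * k.X (vR D F t))) := by
  have hw := wR_ne ht h0
  have hu : uR F t = (exp (F * t) - 1) / F := by rw [← F_mul_u]; field_simp
  have h2 : k.r2 = F * k.b - k.q2 := by linarith
  have he := (exp_pos (F * t)).ne'
  obtain rfl : Y = l * yR D F t / s ^ 2 := by rw [← hY]; field_simp
  obtain rfl : W = l * wR D t / s := by rw [← hW]; field_simp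
  subst hP hQ hR
  rw [De, Gp.K_eq ht h0, hu, exp_neg]
  simp only [o, B, Gp.P, Gp.C3, Gp.C2, Gp.C1, Gp.C0, pjR_smul, U1, U2, U3, h2]
  generalize k.X _ = x
  field_simp
  ring

variable (k D F)

/-- the expression used on both sides of the center -/
noncomputable def GC (P Q R Y W t : ℝ) : ℝ := k.B F P Q R Y W 1 (t ^ 2 * muR D F t) 1 -
  W ^ 5 * (t * muR D F t) * (k.b + exp (-(F * t)) * k.X (t ^ 2 * muR D F t))

noncomputable def GR (t : ℝ) : ℝ := k.GC D F (1 + D) ((1 + 2 * D) * exp (-t)) (D * exp (-t) ^ 2)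
  (muR D F t * exp (-(F * t)) ^ 2 / 2) (ph1 (-t) * (1 + D - D * exp (-t))) t

noncomputable def GM (t : ℝ) : ℝ := k.GC D F ((1 + D) * exp t ^ 2) ((1 + 2 * D) * exp t) D
  (muR D F t * exp ((2 - 2 * F) * t) / 2) (ph1 t * ((1 + D) * exp t - D)) t

variable {k D F}

theorem eR (hF : F ≠ 0) (hb : F * k.b = k.q2 + k.r2) (ht : t ∈ JR D) (h0 : t ≠ 0) :
    (ph1 (-t) * (1 + D - D * exp (-t))) ^ 5 * k.De D F t =
      exp (F * t) * vR D F t * t * k.GR D F t := by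
  have h1 : exp (-t) * exp t = 1 := by rw [← exp_add]; simp
  have h2 : exp (-t) ^ 2 * exp ((2 - 2 * F) * t) = exp (-(F * t)) ^ 2 := by
    rw [sq, sq, ← exp_add, ← exp_add, ← exp_add]; ring_nf
  have h3 := exp_eq_ph (-t)
  rw [hom hF hb ht h0 (l := exp (-t) ^ 2) h0 (P := 1 + D) (Q := (1 + 2 * D) * exp (-t))
    (R := D * exp (-t) ^ 2) (Y := muR D F t * exp (-(F * t)) ^ 2 / 2)
    (by rw [PR]; linear_combination (-(1 + D) * (1 + exp (-t) * exp t)) * h1)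
    (by rw [QR]; linear_combination (-(1 + 2 * D) * exp (-t)) * h1) (by ring)
    (by rw [yR, vR, ← h2]; ring) (by
      rw [wR_eq, om]
      linear_combination (1 + D - D * exp (-t)) * h3 -
        ((1 + D) * (1 + exp (-t) * exp t) - (1 + 2 * D) * exp (-t)) * h1)]
  simp only [GR, GC, vR]; ring

theorem eL (hF : F ≠ 0) (hb : F * k.b = k.q2 + k.r2) (ht : t ∈ JR D) (h0 : t ≠ 0) :
    (ph1 t * ((1 + D) * exp t - D)) ^ 5 * k.De D F t =
      exp (F * t) * vR D F t * t * k.GM D F t := by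
  rw [hom hF hb ht h0 (l := 1) h0 (P := (1 + D) * exp t ^ 2) (Q := (1 + 2 * D) * exp t)
    (R := D) (Y := muR D F t * exp ((2 - 2 * F) * t) / 2) (by rw [PR, one_mul])
    (by rw [QR, one_mul]) (by ring) (by rw [yR, vR]; ring) (by
      rw [wR_eq, om]; linear_combination (D - (1 + D) * exp t) * exp_eq_ph t)]
  simp only [GM, GC, vR]; ring

theorem divO {G W : ℝ → ℝ} {m : ℕ} (hW : ContinuousAt W 0) (e : ∀ t ∈ JR D, t ≠ 0 →
    W t ^ 5 * k.De D F t = exp (F * t) * vR D F t * t * G t)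
    (h : k.De D F =O[𝓝 0] fun t ↦ t ^ (m + 3)) : G =O[𝓝[≠] 0] fun t ↦ t ^ m := by
  have c : ContinuousAt (fun t ↦ W t ^ 5 / (exp (F * t) * muR D F t)) 0 :=
    (hW.pow 5).div (ContinuousAt.mul (by fun_prop) (muR_an D F 0).continuousAt)
      (by simp [muR_zero])
  refine ((((c.isBigO_one ℝ).mul h).mono nhdsWithin_le_nhds).mul
    (isBigO_refl (fun t : ℝ ↦ (t ^ 3)⁻¹) _)).congr' ?_ ?_
  · filter_upwards [self_mem_nhdsWithin,
      nhdsWithin_le_nhds ((JR_open D).mem_nhds (zero_mem_JR D))] with t h0 ht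
    have h0 : t ≠ 0 := h0
    have h1 := e t ht h0
    have h2 := (muR_pos (F := F) ht).ne'
    rw [vR] at h1
    field_simp
    linear_combination h1
  · filter_upwards [self_mem_nhdsWithin] with t h0
    have h0 : t ≠ 0 := h0
    field_simp
    ring

theorem OR {m : ℕ} (hF : F ≠ 0) (hb : F * k.b = k.q2 + k.r2)
    (h : k.De D F =O[𝓝 0] fun t ↦ t ^ (m + 3)) : k.GR D F =O[𝓝[>] 0] fun t ↦ t ^ m :=
  (divO (((ph1_an _).continuousAt.comp (f := fun t : ℝ ↦ -t) (by fun_prop)).mul (by fun_prop))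
    (fun _ ↦ eR hF hb) h).mono (nhdsGT_le_nhdsNE 0)

theorem OL {m : ℕ} (hm : Even m) (hF : F ≠ 0) (hb : F * k.b = k.q2 + k.r2)
    (h : k.De D F =O[𝓝 0] fun t ↦ t ^ (m + 3)) :
    (fun s ↦ k.GM D F (-s)) =O[𝓝[>] 0] fun t ↦ t ^ m := by
  have h1 : Tendsto (fun s : ℝ ↦ -s) (𝓝[>] 0) (𝓝[≠] 0) := by
    simpa using (tendsto_neg_nhdsGT (a := (0 : ℝ))).mono_right (nhdsLT_le_nhdsNE _)
  exact ((divO ((ph1_an _).continuousAt.mul (by fun_prop)) (fun _ ↦ eL hF hb) h).comp_tendsto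
    h1).congr_right fun s ↦ hm.neg_pow s

theorem den (hc : 0 ≤ k.c) (ht : t ∈ JR D) : 0 < 1 + k.c * vR D F t := by
  have : 0 ≤ vR D F t := gR_sq (F := F) ht ▸ sq_nonneg _
  positivity

theorem den3 (hc : 0 ≤ k.c) (ht : t ∈ JR D) :
    (1 + k.c * vR D F t)⁻¹ ^ 3 * (1 + k.c * vR D F t) ^ 3 = 1 := by
  rw [← mul_pow, inv_mul_cancel₀ (den hc ht).ne', one_pow]

theorem O5 (hc : 0 ≤ k.c) (h4 : k.b + k.n0 = 2 * (3 * k.q1 + k.r1) * ja2 D F) :
    k.De D F =O[𝓝 0] fun t ↦ t ^ (2 + 3) := by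
  obtain ⟨a6, J⟩ := k.o.K_jet (D := D) (F := F)
  refine ((J.cast rfl rfl rfl (by simp [o]) (b4 := k.b + k.n0) (by simp [o, h4]) rfl rfl).center5
    (E := fun v ↦ (k.n1 - 3 * k.c * k.n0 + (k.n2 - 3 * k.c ^ 2 * k.n0) * v -
      k.c ^ 3 * k.n0 * v ^ 2) * (1 + k.c * v)⁻¹ ^ 3)
    (by fun_prop (disch := simp))).congr' ?_ EventuallyEq.rfl
  filter_upwards [(JR_open D).mem_nhds (zero_mem_JR D)] with t ht
  simp only [De, X]
  linear_combination vR D F t ^ 2 * k.n0 * den3 (F := F) hc ht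

theorem O7 (hc : 0 ≤ k.c) (h4 : k.b + k.n0 = 2 * (3 * k.q1 + k.r1) * ja2 D F)
    (h5 : 4 * k.q1 + k.r1 = 0) (h6 : k.n1 - 3 * k.c * k.n0 = 12 * (5 * k.q1 + k.r1) * ja4 D F +
      3 * (3 * k.q2 + k.r2) * ja2 D F) : k.De D F =O[𝓝 0] fun t ↦ t ^ (4 + 3) := by
  obtain ⟨a6, J⟩ := k.o.K_jet (D := D) (F := F)
  refine ((J.cast rfl rfl rfl (by simp [o]) (b4 := k.b + k.n0) (by simp [o, h4]) (by simp [o, h5])
    (b6 := k.n1 - 3 * k.c * k.n0) (by simp [o, h6])).center7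
    (E := fun v ↦ (k.n2 + 6 * k.c ^ 2 * k.n0 - 3 * k.c * k.n1 +
      (8 * k.c ^ 3 * k.n0 - 3 * k.c ^ 2 * k.n1) * v - k.c ^ 3 * (k.n1 - 3 * k.c * k.n0) * v ^ 2) *
        (1 + k.c * v)⁻¹ ^ 3) (by fun_prop (disch := simp))).congr' ?_ EventuallyEq.rfl
  filter_upwards [(JR_open D).mem_nhds (zero_mem_JR D)] with t ht
  simp only [De, X]
  linear_combination vR D F t ^ 2 * (k.n0 + (k.n1 - 3 * k.c * k.n0) * vR D F t) *
    den3 (F := F) hc ht

theorem posR (hF : F ≠ 0) (hb : F * k.b = k.q2 + k.r2) (ht : t ∈ JR D) (h0 : 0 < t)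
    (h : 0 < k.GR D F t) : 0 < k.De D F t := by
  have := vR_pos (F := F) ht h0.ne'
  refine (mul_pos_iff_of_pos_left (pow_pos (mul_pos (ph1_pos (-t)) (memJ_iff.1 ht)) 5)).1 ?_
  rw [eR hF hb ht h0.ne']; positivity

theorem negL (hF : F ≠ 0) (hb : F * k.b = k.q2 + k.r2) (ht : t ∈ JR D) (h0 : t < 0)
    (h : 0 < k.GM D F t) : k.De D F t < 0 := by
  have := vR_pos (F := F) ht h0.ne
  refine neg_of_mul_neg_left ?_ (pow_pos (mul_pos (ph1_pos t) ht) 5).le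
  rw [om, mul_comm, eL hF hb ht h0.ne]
  exact mul_neg_of_neg_of_pos (mul_neg_of_pos_of_neg (by positivity) h0) h

theorem noThree (h1 : 0 ≤ k.q1) (h2 : 0 ≤ k.q2) (hL : ∀ a ∈ JR D, a < 0 → k.De D F a < 0)
    (hR : ∀ a ∈ JR D, ∀ b ∈ JR D, a < 0 → 0 < b → vR D F a = vR D F b → 0 < k.De D F b) :
    NoThree D F :=
  Crit1.noThree ⟨k.o, 1, fun x ↦ by simp [o, Gp.P], fun a ha b hb a0 b0 e ↦ ⟨by
    have := vR_pos (F := F) hb b0.ne'
    simp only [o, Gp.Q]; positivity, by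
    have p1 := hL a ha a0
    have p2 := hR a ha b hb a0 b0 e
    rw [De] at p1 p2
    rw [e] at p1
    linarith⟩⟩

end Co

end Pool.Agent.Lib.MP_d6150d_an.S7
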