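import Pool.Agent.Lib.MP_d6150d_an.GDef

/-! A generated chart: the program. -/

namespace Pool.Agent.Lib.MP_d6150d_an.S7bL

def prog2 : List Ins := .mul 1 0 :: .add true 98 26 :: .mul 0 28 :: .mul 109 106 :: .smul (-1) 0 ::
    .exp 0 :: .cst 1 3 :: .cst 927 200 :: .add true 0 38 :: .sub false 106 115 :: .sub true 0 68 ::
    .mul 2 0 :: .mul 5 0 :: .sub false 0 10 :: .cst (-4443) 10000 :: .cst 2973 10000 :: .mul 0 105
    :: .sub false 2 0 :: .cst 366 625 :: .mul 0 125 :: .add true 2 0 :: .mul 0 89 :: .add false 8 0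
    :: .cst (-67) 5000 :: .cst 677 5000 :: .mul 0 114 :: .sub false 2 0 :: .cst 531 10000 :: .mul 0
    134 :: .sub true 2 0 :: .mul 98 98 :: .mul 1 0 :: .add true 9 0 :: .cst 1 5 :: .mul 0 102 ::
    .add false 132 0 :: .inv 0 :: .mul 0 0 :: .mul 0 1 :: .mul 6 0 :: .mul 34 0 :: .add false 38 0
    :: .mul 41 0 :: .sub false 45 0 :: .cpy 0 :: []

def prog1 : List Ins := .mul 0 4 :: .smul 2 10 :: .sub false 0 8 :: .sub false 2 0 :: .mul 5 0 ::
    .mul 5 2 :: .smul 4 15 :: .sub false 0 13 :: .sub false 2 0 :: .add true 4 0 :: .mul 14 0 ::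
    .mul 8 7 :: .smul 3 0 :: .sub false 2 0 :: .mul 29 0 :: .cst 927 25 :: .cst (-4027) 500 :: .cst
    9 5 :: .mul 0 57 :: .add false 2 0 :: .smul 4 0 :: .add false 5 0 :: .int 28 :: .inv 79 :: .sub
    false 0 60 :: .smul 4 0 :: .add true 3 0 :: .mul 0 45 :: .add true 6 0 :: .mul 0 25 :: .mul 44
    43 :: .sub false 0 70 :: .mul 44 0 :: .mul 0 0 :: .mul 4 0 :: .add true 20 0 :: .mul 57 0 ::
    .cst 927 100 :: .smul 2 18 :: .add false 1 0 :: .int 10 :: .add true 0 15 :: .mul 0 60 :: .add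
    true 3 0 :: .mul 10 10 :: .mul 1 0 :: .add true 9 0 :: .mul 68 0 :: .mul 3 15 :: .mul 102 75 ::
    prog2

def prog : List Ins := .cst 1 2 :: .var 1 :: .smul 2 0 :: .var 2 :: .smul (-1) 0 :: .mul 2 0 :: .tri
    0 :: .mul 6 0 :: .int 1 :: .sub true 8 0 :: .mul 0 7 :: .tri 0 :: .mul 4 0 :: .sub false 7 0 ::
    .var 0 :: .smul 2 2 :: .sub false 10 0 :: .int 2 :: .sub true 19 0 :: .mul 0 18 :: .tri 0 ::
    .mul 4 0 :: .add true 7 0 :: .mul 10 0 :: .add true 12 0 :: .smul 2 0 :: .sub true 10 29 :: .mul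
    0 28 :: .exp 0 :: .mul 3 0 :: .mul 35 0 :: .cst 309 25 :: .mul 33 33 :: .mul 0 7 :: .smul 8 0 ::
    .add false 3 0 :: .mul 0 5 :: .add true 32 24 :: .tri 39 :: .mul 2 2 :: .mul 4 0 :: .smul 2 30
    :: .add true 39 0 :: .mul 0 6 :: .sub false 3 0 :: .add true 0 34 :: .int 4 :: .smul 3 53 ::
    .sub true 1 0 :: .sub true 35 55 :: prog1

def vs : List Vr := [⟨2, 0, false, false⟩, ⟨2, 0, false, false⟩, ⟨5, 2, false, false⟩]

def C : Chart := ⟨vs, prog, [], 1, 3⟩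

end Pool.Agent.Lib.MP_d6150d_an.S7bL
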