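import Pool.Agent.Lib.MP_d6150d_an.GDef

/-! A generated chart: the program. -/

namespace Pool.Agent.Lib.MP_d6150d_an.S7bM

def prog2 : List Ins := .mul 66 0 :: .mul 13 91 :: .mul 4 19 :: .mul 1 0 :: .mul 0 67 :: .add true
    91 32 :: .mul 0 84 :: .mul 2 0 :: .sub false 7 0 :: .cst 1 3 :: .cst 927 200 :: .add true 0 43
    :: .sub false 98 112 :: .sub true 0 88 :: .mul 2 0 :: .mul 5 0 :: .sub false 0 9 :: .mul 106 106
    :: .mul 1 0 :: .cst (-4443) 10000 :: .cst 2973 10000 :: .mul 0 106 :: .sub false 2 0 :: .cst 366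
    625 :: .mul 0 124 :: .add true 2 0 :: .mul 0 115 :: .mul 0 90 :: .add false 9 0 :: .cst (-67)
    5000 :: .cst 677 5000 :: .mul 0 116 :: .sub false 2 0 :: .cst 531 10000 :: .mul 0 134 :: .sub
    true 2 0 :: .mul 99 99 :: .mul 1 0 :: .add false 9 0 :: .cpy 0 :: .cpy 31 :: []

def prog1 : List Ins := .sub false 0 8 :: .sub false 2 0 :: .mul 5 0 :: .mul 5 2 :: .smul 4 13 ::
    .sub false 0 13 :: .sub false 2 0 :: .add false 4 0 :: .mul 14 0 :: .mul 8 7 :: .smul 3 0 ::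
    .sub false 2 0 :: .mul 22 0 :: .cst 927 25 :: .cst (-4027) 500 :: .cst 9 5 :: .mul 0 51 :: .add
    false 2 0 :: .smul 4 0 :: .add true 5 0 :: .mul 0 59 :: .int 28 :: .sub false 50 70 :: .smul 4 0
    :: .add true 2 0 :: .mul 0 38 :: .add false 5 0 :: .mul 67 0 :: .mul 0 26 :: .sub false 62 65 ::
    .mul 64 63 :: .sub false 0 66 :: .mul 2 0 :: .mul 0 0 :: .mul 5 0 :: .add true 22 0 :: .mul 52 0
    :: .mul 77 77 :: .cst 927 100 :: .smul 2 21 :: .add true 1 0 :: .mul 0 80 :: .int 10 :: .add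
    true 0 19 :: .mul 0 57 :: .add true 3 0 :: .mul 8 0 :: .mul 13 13 :: .mul 1 0 :: .add false 12 0
    :: prog2

def prog : List Ins := .var 3 :: .var 2 :: .smul 2 0 :: .int 2 :: .sub true 1 0 :: .smul 8 0 :: .tri
    0 :: .smul 8 1 :: .inv 0 :: .mul 10 0 :: .add true 0 7 :: .cpy 0 :: .cst 1 2 :: .int 1 :: .var 1
    :: .add true 1 0 :: .var 0 :: .mul 0 0 :: .mul 8 0 :: .sub false 0 8 :: .mul 4 0 :: .inv 21 ::
    .mul 1 0 :: .mul 10 0 :: .smul 2 9 :: .add true 11 0 :: .mul 16 9 :: .sub false 0 16 :: .mul 2 0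
    :: .sub true 28 15 :: .inv 0 :: .mul 2 0 :: .sub false 8 0 :: .sub false 0 18 :: .cst 309 25 ::
    .mul 0 24 :: .smul 2 2 :: .smul 8 0 :: .add true 2 0 :: .mul 0 5 :: .mul 24 22 :: .mul 15 24 ::
    .sub false 1 0 :: .add false 0 28 :: .int 4 :: .smul 3 45 :: .sub true 1 0 :: .sub true 45 47 ::
    .mul 0 4 :: .smul 2 8 :: prog1

def vs : List Vr := [⟨0, 0, false, false⟩, ⟨2, 0, false, false⟩, ⟨2, 0, false, false⟩, ⟨2, 0, false,
    false⟩]

def C : Chart := ⟨vs, prog, [12], 2, 3⟩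

end Pool.Agent.Lib.MP_d6150d_an.S7bM
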