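import Pool.Agent.Lib.MP_d6150d_an.GDef

/-! A generated chart: the program. -/

namespace Pool.Agent.Lib.MP_d6150d_an.S7bR

def prog2 : List Ins := .mul 104 77 :: .mul 1 0 :: .add true 100 26 :: .mul 0 28 :: .cst 1 3 :: .cst
    927 200 :: .add true 0 35 :: .sub false 105 113 :: .sub true 0 71 :: .mul 2 0 :: .mul 5 0 ::
    .sub false 0 7 :: .cst (-4443) 10000 :: .cst 2973 10000 :: .mul 0 104 :: .sub false 2 0 :: .cst
    366 625 :: .mul 0 123 :: .add true 2 0 :: .mul 0 87 :: .add false 8 0 :: .cst (-67) 5000 :: .cst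
    677 5000 :: .mul 0 113 :: .sub false 2 0 :: .cst 531 10000 :: .mul 0 132 :: .sub true 2 0 ::
    .mul 96 96 :: .mul 1 0 :: .add true 9 0 :: .cst 1 5 :: .mul 0 100 :: .add false 131 0 :: .inv 0
    :: .mul 0 0 :: .mul 0 1 :: .mul 6 0 :: .mul 112 0 :: .add true 35 0 :: .mul 38 0 :: .sub false
    42 0 :: .cpy 0 :: []

def prog1 : List Ins := .sub true 37 56 :: .mul 0 4 :: .smul 2 16 :: .sub true 0 10 :: .sub true 2 0
    :: .mul 5 0 :: .mul 5 2 :: .smul 4 21 :: .sub false 0 15 :: .sub false 2 0 :: .add true 4 0 ::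
    .mul 14 0 :: .mul 8 7 :: .smul 3 0 :: .sub true 2 0 :: .mul 30 0 :: .cst 927 25 :: .cst (-4027)
    500 :: .cst 9 5 :: .mul 0 59 :: .add false 2 0 :: .smul 4 0 :: .add false 5 0 :: .int 28 :: .inv
    80 :: .sub false 0 62 :: .smul 4 0 :: .add true 3 0 :: .mul 0 46 :: .add true 6 0 :: .mul 0 25
    :: .mul 71 41 :: .sub true 46 0 :: .mul 42 0 :: .mul 0 0 :: .mul 4 0 :: .add true 20 0 :: .mul
    58 0 :: .cst 927 100 :: .smul 2 18 :: .add false 1 0 :: .int 10 :: .add true 0 15 :: .mul 0 61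
    :: .add true 3 0 :: .mul 10 10 :: .mul 1 0 :: .add true 9 0 :: .mul 69 0 :: .mul 3 15 :: prog2

def prog : List Ins := .cst 1 2 :: .var 1 :: .smul 2 0 :: .var 2 :: .mul 1 0 :: .tri 0 :: .mul 5 0
    :: .int 1 :: .sub true 7 0 :: .mul 0 7 :: .tri 0 :: .mul 4 0 :: .sub false 7 0 :: .var 0 ::
    .smul 2 2 :: .sub false 10 0 :: .int 2 :: .sub true 18 0 :: .mul 0 18 :: .tri 0 :: .mul 4 0 ::
    .add true 7 0 :: .mul 10 0 :: .add true 12 0 :: .smul 2 0 :: .mul 29 27 :: .smul (-1) 0 :: .exp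
    0 :: .mul 0 0 :: .mul 4 0 :: .mul 35 0 :: .cst 309 25 :: .mul 34 34 :: .mul 0 8 :: .smul 8 0 ::
    .add false 3 0 :: .mul 0 5 :: .add false 33 25 :: .smul 2 26 :: .add true 35 0 :: .smul (-1) 42
    :: .tri 0 :: .mul 4 2 :: .sub false 7 0 :: .mul 4 4 :: .mul 35 0 :: .add true 2 0 :: .int 4 ::
    .smul 3 54 :: .sub true 1 0 :: prog1

def vs : List Vr := [⟨3, 0, false, false⟩, ⟨3, 0, false, false⟩, ⟨5, 2, false, false⟩]

def C : Chart := ⟨vs, prog, [], 1, 3⟩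

end Pool.Agent.Lib.MP_d6150d_an.S7bR
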