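import Pool.Agent.Lib.MP_d6150d_an.GDef

/-! A generated chart: the program. -/

namespace Pool.Agent.Lib.MP_d6150d_an.S7bT

def prog2 : List Ins := .mul 0 1 :: .mul 0 6 :: .cst 3 32 :: .mul 94 94 :: .mul 0 95 :: .mul 15 15
    :: .mul 0 98 :: .mul 2 0 :: .mul 0 75 :: .mul 6 0 :: .cst 1 3 :: .cst 927 200 :: .add true 0 25
    :: .sub false 65 98 :: .mul 1 0 :: .mul 4 0 :: .sub false 84 99 :: .add true 116 0 :: .mul 0 86
    :: .sub false 3 0 :: .mul 24 24 :: .mul 1 0 :: .cst (-4443) 10000 :: .cst 2973 10000 :: .mul 0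
    120 :: .sub false 2 0 :: .cst 366 625 :: .mul 0 118 :: .add true 2 0 :: .mul 0 33 :: .mul 0 97
    :: .add false 9 0 :: .cst (-67) 5000 :: .cst 677 5000 :: .mul 0 130 :: .sub false 2 0 :: .cst
    531 10000 :: .mul 0 128 :: .sub true 2 0 :: .mul 106 106 :: .mul 1 0 :: .add false 9 0 :: .mul
    32 0 :: .sub false 41 0 :: .cpy 0 :: .cpy 50 :: []

def prog1 : List Ins := .mul 41 42 :: .mul 0 22 :: .mul 0 9 :: .mul 3 0 :: .add false 9 0 :: .mul 24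
    24 :: .mul 0 25 :: .smul 2 0 :: .mul 0 54 :: .mul 0 51 :: .sub true 5 0 :: .mul 28 0 :: .cst 309
    200 :: .mul 32 11 :: .sub true 27 0 :: .sub true 0 1 :: .smul 2 35 :: .mul 65 32 :: .mul 1 0 ::
    .add false 39 38 :: .mul 19 0 :: .sub true 2 0 :: .mul 6 0 :: .sub true 5 65 :: .mul 39 0 ::
    .mul 41 67 :: .sub true 1 0 :: .mul 20 0 :: .add false 5 0 :: .mul 28 48 :: .mul 0 15 :: .add
    true 2 0 :: .mul 19 0 :: .cst (-4027) 500 :: .cst 9 5 :: .mul 0 81 :: .add false 2 0 :: .add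
    true 24 0 :: .mul 0 79 :: .mul 81 81 :: .mul 1 0 :: .mul 0 26 :: .add true 9 0 :: .mul 73 0 ::
    .add true 32 0 :: .mul 93 75 :: .cst 1 5 :: .mul 0 64 :: .add false 2 0 :: .mul 0 0 :: prog2

def prog : List Ins := .int 1 :: .var 3 :: .sub false 1 0 :: .var 1 :: .add true 3 0 :: .mul 1 3 ::
    .sub false 1 0 :: .mul 4 0 :: .var 2 :: .smul 2 0 :: .mul 0 6 :: .var 0 :: .mul 1 0 :: .sub
    false 0 7 :: .smul 2 10 :: .add true 14 0 :: .int 2 :: .sub true 7 0 :: .mul 0 6 :: .sub true 17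
    0 :: .mul 10 0 :: .sub false 20 0 :: .mul 6 0 :: .sub true 13 22 :: .inv 0 :: .mul 2 0 :: .sub
    false 12 0 :: .mul 22 7 :: .sub true 1 0 :: .mul 27 0 :: .add false 22 0 :: .inv 22 :: .mul 1 0
    :: .mul 18 31 :: .sub true 0 18 :: .mul 4 0 :: .mul 5 0 :: .smul 3 0 :: .mul 0 2 :: .smul 5 30
    :: .add false 0 39 :: .mul 0 4 :: .mul 13 34 :: .mul 1 0 :: .sub false 5 0 :: .smul 3 36 :: .mul
    0 15 :: .sub true 46 38 :: .mul 0 40 :: .sub false 2 0 :: prog1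

def vs : List Vr := [⟨2, 0, false, false⟩, ⟨2, 0, false, false⟩, ⟨2, 0, false, false⟩, ⟨2, 0, false,
    false⟩]

def C : Chart := ⟨vs, prog, [], 2, 3⟩

end Pool.Agent.Lib.MP_d6150d_an.S7bT
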