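import Pool.Agent.Lib.MP_d6150d_an.GDef

/-! A generated chart: the program. -/

namespace Pool.Agent.Lib.MP_d6150d_an.S7cL

def prog3 : List Ins := .mul 0 156 :: .add true 2 0 :: .mul 119 119 :: .mul 1 0 :: .add true 9 0 ::
    .add false 152 121 :: .inv 0 :: .mul 0 0 :: .mul 0 1 :: .mul 4 0 :: .mul 58 0 :: .add true 62 0
    :: .mul 67 0 :: .sub false 71 0 :: .cpy 0 :: []

def prog2 : List Ins := .smul (-1) 0 :: .exp 0 :: .cst 1 3 :: .sub false 100 109 :: .sub true 0 61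
    :: .smul (-1) 0 :: .mul 3 0 :: .sub false 0 8 :: .cst 1 90 :: .smul 57 115 :: .sub false 62 0 ::
    .smul 6 100 :: .sub false 1 0 :: .mul 119 119 :: .smul 156 0 :: .add false 2 0 :: .smul 102 105
    :: .mul 0 123 :: .add false 2 0 :: .mul 108 108 :: .smul 60 0 :: .sub false 2 0 :: .mul 8 128 ::
    .smul 103 0 :: .sub false 2 0 :: .smul 312 114 :: .mul 0 12 :: .sub false 2 0 :: .smul 480 8 ::
    .mul 0 135 :: .sub false 2 0 :: .mul 11 120 :: .smul 320 0 :: .sub true 2 0 :: .mul 25 0 :: .cst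
    3 80 :: .add true 0 65 :: .mul 0 32 :: .mul 145 0 :: .add false 4 0 :: .cst 3 10 :: .mul 0 33 ::
    .add true 2 0 :: .mul 0 110 :: .add false 36 0 :: .cst (-2) 125 :: .cst 233 10000 :: .mul 0 136
    :: .add false 2 0 :: .cst 137 2500 :: prog3

def prog1 : List Ins := .sub true 36 56 :: .mul 0 4 :: .smul 2 10 :: .sub false 0 8 :: .sub false 2
    0 :: .mul 5 0 :: .mul 5 2 :: .smul 4 15 :: .sub false 0 13 :: .sub false 2 0 :: .add true 4 0 ::
    .mul 14 0 :: .mul 8 7 :: .smul 3 0 :: .sub false 2 0 :: .mul 29 0 :: .cst 7 20 :: .cst 207 100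
    :: .mul 0 74 :: .cst 3591 2000 :: .sub false 1 0 :: .smul 4 0 :: .add true 5 0 :: .mul 0 40 ::
    .add false 44 0 :: .mul 0 20 :: .mul 39 38 :: .sub false 0 66 :: .mul 39 0 :: .mul 0 0 :: .mul 4
    0 :: .add true 15 0 :: .mul 53 0 :: .int (-2) :: .cst 1 8 :: .add true 0 13 :: .mul 0 53 :: .add
    true 3 0 :: .mul 8 8 :: .mul 1 0 :: .add true 7 0 :: .mul 62 0 :: .mul 3 13 :: .mul 96 69 ::
    .mul 1 0 :: .cst 1 80 :: .add true 0 25 :: .inv 103 :: .mul 1 0 :: .mul 105 102 :: prog2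

def prog : List Ins := .cst 1 2 :: .var 1 :: .smul 2 0 :: .var 2 :: .smul (-1) 0 :: .mul 2 0 :: .tri
    0 :: .mul 6 0 :: .int 1 :: .sub true 8 0 :: .mul 0 7 :: .tri 0 :: .mul 4 0 :: .sub false 7 0 ::
    .var 0 :: .smul 2 2 :: .sub false 10 0 :: .int 2 :: .sub true 19 0 :: .mul 0 18 :: .tri 0 ::
    .mul 4 0 :: .add true 7 0 :: .mul 10 0 :: .add true 12 0 :: .smul 2 0 :: .sub true 10 29 :: .mul
    0 28 :: .exp 0 :: .mul 3 0 :: .mul 35 0 :: .int 8 :: .cst 1 10 :: .mul 34 34 :: .mul 0 8 :: .mul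
    2 0 :: .add false 4 0 :: .mul 0 6 :: .add true 33 25 :: .tri 40 :: .mul 2 2 :: .mul 4 0 :: .smul
    2 31 :: .add true 40 0 :: .mul 0 6 :: .sub false 3 0 :: .add true 0 35 :: .int 4 :: .smul 3 54
    :: .sub true 1 0 :: prog1

def vs : List Vr := [⟨3, 0, false, false⟩, ⟨3, 0, false, false⟩, ⟨7, 4, false, false⟩]

def C : Chart := ⟨vs, prog, [], 1, 3⟩

end Pool.Agent.Lib.MP_d6150d_an.S7cL
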