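import Pool.Agent.Lib.MP_d6150d_an.GDef

/-! A generated chart: the program. -/

namespace Pool.Agent.Lib.MP_d6150d_an.S7cM

def prog3 : List Ins := .mul 0 135 :: .add false 2 0 :: .cst 137 2500 :: .mul 0 153 :: .add true 2 0
    :: .mul 118 118 :: .mul 1 0 :: .add false 9 0 :: .cpy 0 :: .cpy 57 :: []

def prog2 : List Ins := .mul 3 0 :: .sub false 8 0 :: .cst 1 3 :: .sub false 89 103 :: .sub true 0
    79 :: .smul (-1) 0 :: .mul 3 0 :: .sub false 0 7 :: .mul 97 97 :: .mul 1 0 :: .cst 1 90 :: .smul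
    57 111 :: .sub false 67 0 :: .smul 6 98 :: .sub false 1 0 :: .mul 115 115 :: .smul 156 0 :: .add
    false 2 0 :: .smul 102 103 :: .mul 0 119 :: .add false 2 0 :: .mul 106 106 :: .smul 60 0 :: .sub
    false 2 0 :: .mul 8 124 :: .smul 103 0 :: .sub false 2 0 :: .smul 312 112 :: .mul 0 12 :: .sub
    false 2 0 :: .smul 480 8 :: .mul 0 131 :: .sub false 2 0 :: .mul 11 118 :: .smul 320 0 :: .sub
    true 2 0 :: .mul 25 0 :: .cst 3 80 :: .add true 0 70 :: .mul 0 34 :: .mul 127 0 :: .add false 4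
    0 :: .cst 3 10 :: .mul 0 35 :: .add true 2 0 :: .mul 0 134 :: .mul 0 109 :: .add false 37 0 ::
    .cst (-2) 125 :: .cst 233 10000 :: prog3

def prog1 : List Ins := .sub false 0 8 :: .sub false 2 0 :: .mul 5 0 :: .mul 5 2 :: .smul 4 13 ::
    .sub false 0 13 :: .sub false 2 0 :: .add false 4 0 :: .mul 14 0 :: .mul 8 7 :: .smul 3 0 ::
    .sub false 2 0 :: .mul 22 0 :: .cst 7 20 :: .cst 207 100 :: .mul 0 65 :: .cst 3591 2000 :: .sub
    false 1 0 :: .smul 4 0 :: .add true 5 0 :: .mul 0 33 :: .add true 36 0 :: .mul 62 0 :: .mul 0 21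
    :: .sub false 57 60 :: .mul 59 58 :: .sub false 0 61 :: .mul 2 0 :: .mul 0 0 :: .mul 5 0 :: .add
    true 17 0 :: .mul 47 0 :: .mul 72 72 :: .smul (-2) 72 :: .cst 1 8 :: .add true 0 16 :: .mul 0 49
    :: .add true 3 0 :: .mul 5 0 :: .mul 10 10 :: .mul 1 0 :: .add false 9 0 :: .mul 58 0 :: .mul 10
    83 :: .mul 4 16 :: .mul 1 0 :: .mul 0 59 :: .cst 1 80 :: .add true 0 30 :: .mul 0 77 :: prog2

def prog : List Ins := .var 3 :: .var 2 :: .smul 2 0 :: .int 2 :: .sub true 1 0 :: .smul 8 0 :: .tri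
    0 :: .smul 8 1 :: .inv 0 :: .mul 10 0 :: .add true 0 7 :: .cpy 0 :: .cst 1 2 :: .int 1 :: .var 1
    :: .add true 1 0 :: .var 0 :: .mul 0 0 :: .mul 8 0 :: .sub false 0 8 :: .mul 4 0 :: .inv 21 ::
    .mul 1 0 :: .mul 10 0 :: .smul 2 9 :: .add true 11 0 :: .mul 16 9 :: .sub false 0 16 :: .mul 2 0
    :: .sub true 28 15 :: .inv 0 :: .mul 2 0 :: .sub false 8 0 :: .sub true 0 18 :: .smul 8 23 ::
    .cst 1 10 :: .smul 2 2 :: .mul 1 0 :: .add true 3 0 :: .mul 0 5 :: .mul 24 22 :: .mul 15 24 ::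
    .sub false 1 0 :: .add false 0 28 :: .int 4 :: .smul 3 45 :: .sub true 1 0 :: .sub true 45 47 ::
    .mul 0 4 :: .smul 2 8 :: prog1

def vs : List Vr := [⟨0, 0, false, false⟩, ⟨2, 0, false, false⟩, ⟨2, 0, false, false⟩, ⟨2, 0, false,
    false⟩]

def C : Chart := ⟨vs, prog, [12], 2, 3⟩

end Pool.Agent.Lib.MP_d6150d_an.S7cM
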