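import Pool.Agent.Lib.MP_d6150d_an.GDef

/-! A generated chart: the program. -/

namespace Pool.Agent.Lib.MP_d6150d_an.S7cR

def prog3 : List Ins := .mul 117 117 :: .mul 1 0 :: .add true 9 0 :: .add false 151 119 :: .inv 0 ::
    .mul 0 0 :: .mul 0 1 :: .mul 4 0 :: .mul 132 0 :: .add true 59 0 :: .mul 64 0 :: .sub false 68 0
    :: .cpy 0 :: []

def prog2 : List Ins := .cst 1 3 :: .sub false 99 107 :: .sub true 0 64 :: .smul (-1) 0 :: .mul 3 0
    :: .sub false 0 5 :: .cst 1 90 :: .smul 57 113 :: .sub false 59 0 :: .smul 6 99 :: .sub false 1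
    0 :: .mul 117 117 :: .smul 156 0 :: .add false 2 0 :: .smul 102 104 :: .mul 0 121 :: .add false
    2 0 :: .mul 107 107 :: .smul 60 0 :: .sub false 2 0 :: .mul 8 126 :: .smul 103 0 :: .sub false 2
    0 :: .smul 312 113 :: .mul 0 12 :: .sub false 2 0 :: .smul 480 8 :: .mul 0 133 :: .sub false 2 0
    :: .mul 11 119 :: .smul 320 0 :: .sub true 2 0 :: .mul 25 0 :: .cst 3 80 :: .add true 0 62 ::
    .mul 0 32 :: .mul 143 0 :: .add false 4 0 :: .cst 3 10 :: .mul 0 33 :: .add true 2 0 :: .mul 0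
    108 :: .add false 36 0 :: .cst (-2) 125 :: .cst 233 10000 :: .mul 0 135 :: .add false 2 0 ::
    .cst 137 2500 :: .mul 0 154 :: .add true 2 0 :: prog3

def prog1 : List Ins := .sub true 1 0 :: .sub true 38 57 :: .mul 0 4 :: .smul 2 16 :: .sub true 0 10
    :: .sub true 2 0 :: .mul 5 0 :: .mul 5 2 :: .smul 4 21 :: .sub false 0 15 :: .sub false 2 0 ::
    .add true 4 0 :: .mul 14 0 :: .mul 8 7 :: .smul 3 0 :: .sub true 2 0 :: .mul 30 0 :: .cst 7 20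
    :: .cst 207 100 :: .mul 0 75 :: .cst 3591 2000 :: .sub false 1 0 :: .smul 4 0 :: .add true 5 0
    :: .mul 0 41 :: .add false 45 0 :: .mul 0 20 :: .mul 67 36 :: .sub true 41 0 :: .mul 37 0 ::
    .mul 0 0 :: .mul 4 0 :: .add true 15 0 :: .mul 54 0 :: .int (-2) :: .cst 1 8 :: .add true 0 13
    :: .mul 0 54 :: .add true 3 0 :: .mul 8 8 :: .mul 1 0 :: .add true 7 0 :: .mul 63 0 :: .mul 3 13
    :: .mul 98 71 :: .mul 1 0 :: .cst 1 80 :: .add true 0 25 :: .inv 104 :: .mul 1 0 :: prog2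

def prog : List Ins := .cst 1 2 :: .var 1 :: .smul 2 0 :: .var 2 :: .mul 1 0 :: .tri 0 :: .mul 5 0
    :: .int 1 :: .sub true 7 0 :: .mul 0 7 :: .tri 0 :: .mul 4 0 :: .sub false 7 0 :: .var 0 ::
    .smul 2 2 :: .sub false 10 0 :: .int 2 :: .sub true 18 0 :: .mul 0 18 :: .tri 0 :: .mul 4 0 ::
    .add true 7 0 :: .mul 10 0 :: .add true 12 0 :: .smul 2 0 :: .mul 29 27 :: .smul (-1) 0 :: .exp
    0 :: .mul 0 0 :: .mul 4 0 :: .mul 35 0 :: .int 8 :: .cst 1 10 :: .mul 35 35 :: .mul 0 9 :: .mul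
    2 0 :: .add false 4 0 :: .mul 0 6 :: .add false 34 26 :: .smul 2 27 :: .add true 36 0 :: .smul
    (-1) 43 :: .tri 0 :: .mul 4 2 :: .sub false 7 0 :: .mul 4 4 :: .mul 36 0 :: .add true 2 0 ::
    .int 4 :: .smul 3 55 :: prog1

def vs : List Vr := [⟨3, 0, false, false⟩, ⟨3, 0, false, false⟩, ⟨7, 4, false, false⟩]

def C : Chart := ⟨vs, prog, [], 1, 3⟩

end Pool.Agent.Lib.MP_d6150d_an.S7cR
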