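import Pool.Agent.Lib.MP_d6150d_an.GDef

/-! A generated chart: the program. -/

namespace Pool.Agent.Lib.MP_d6150d_an.S7cT

def prog3 : List Ins := .smul 312 142 :: .mul 0 34 :: .sub false 2 0 :: .smul 480 7 :: .mul 0 142 ::
    .sub false 2 0 :: .mul 10 148 :: .smul 320 0 :: .sub true 2 0 :: .mul 24 0 :: .cst 1 2 :: .cst 3
    80 :: .add true 0 88 :: .mul 0 36 :: .mul 3 0 :: .add false 5 0 :: .cst 3 10 :: .mul 0 35 ::
    .add true 2 0 :: .mul 0 84 :: .mul 0 132 :: .add false 37 0 :: .cst (-2) 125 :: .cst 233 10000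
    :: .mul 0 166 :: .add false 2 0 :: .cst 137 2500 :: .mul 0 165 :: .add true 2 0 :: .mul 141 141
    :: .mul 1 0 :: .add true 9 0 :: .mul 57 0 :: .sub false 67 0 :: .cpy 0 :: .cpy 75 :: []

def prog2 : List Ins := .add false 5 0 :: .mul 44 65 :: .mul 0 15 :: .add false 2 0 :: .smul (-3) 92
    :: .mul 0 27 :: .mul 0 19 :: .add true 3 0 :: .mul 23 0 :: .add true 25 0 :: .cst 1 10 :: .mul 0
    73 :: .add false 27 0 :: .mul 0 0 :: .mul 0 1 :: .mul 0 5 :: .mul 104 104 :: .mul 0 105 :: .mul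
    40 40 :: .mul 0 108 :: .mul 2 0 :: .mul 0 83 :: .cst 1 16 :: .mul 0 99 :: .mul 2 0 :: .cst 1 3
    :: .sub false 72 107 :: .smul (-1) 0 :: .mul 2 0 :: .add true 90 55 :: .mul 0 93 :: .sub false 2
    0 :: .mul 47 47 :: .mul 1 0 :: .cst 1 90 :: .int 4 :: .smul 57 124 :: .sub false 1 0 :: .smul 6
    130 :: .sub false 1 0 :: .smul 156 23 :: .add false 1 0 :: .smul 102 134 :: .mul 0 131 :: .add
    false 2 0 :: .mul 137 137 :: .smul 60 0 :: .sub false 2 0 :: .smul 103 30 :: .sub false 1 0 ::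
    prog3

def prog1 : List Ins := .sub false 5 0 :: .smul 3 39 :: .mul 0 16 :: .sub true 52 41 :: .mul 0 43 ::
    .sub false 2 0 :: .mul 44 45 :: .mul 0 23 :: .mul 0 9 :: .mul 3 0 :: .add true 9 0 :: .mul 58 0
    :: .mul 26 26 :: .mul 0 27 :: .smul 2 0 :: .mul 0 48 :: .mul 0 55 :: .sub false 5 0 :: .mul 29 0
    :: .cst 1 40 :: .cst 207 100 :: .mul 0 59 :: .cst 3591 2000 :: .sub false 1 0 :: .add true 4 0
    :: .mul 63 0 :: .sub false 0 37 :: .mul 66 66 :: .mul 1 0 :: .mul 44 21 :: .sub true 37 0 ::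
    .mul 2 0 :: .add false 13 0 :: .mul 45 0 :: .mul 81 60 :: .mul 49 27 :: .sub true 43 0 :: .sub
    true 0 1 :: .smul 2 52 :: .mul 86 48 :: .mul 1 0 :: .add false 56 55 :: .mul 35 0 :: .sub true 2
    0 :: .mul 6 0 :: .sub true 5 84 :: .mul 55 0 :: .mul 57 86 :: .sub true 1 0 :: .mul 35 0 ::
    prog2

def prog : List Ins := .int 1 :: .var 2 :: .var 3 :: .mul 1 0 :: .sub true 3 0 :: .sub true 4 2 ::
    .mul 4 0 :: .sub true 0 6 :: .mul 0 5 :: .sub true 3 0 :: .mul 5 0 :: .var 1 :: .smul 2 0 ::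
    .mul 0 5 :: .var 0 :: .mul 1 0 :: .mul 8 12 :: .sub false 1 0 :: .smul 2 10 :: .add true 18 0 ::
    .int 2 :: .sub true 8 0 :: .mul 0 7 :: .sub true 19 0 :: .mul 11 0 :: .sub true 24 0 :: .mul 6 0
    :: .sub true 14 26 :: .inv 0 :: .mul 2 0 :: .sub false 12 0 :: .mul 25 29 :: .mul 0 8 :: .sub
    true 2 0 :: .mul 31 0 :: .add false 24 0 :: .inv 24 :: .mul 1 0 :: .cst 1 80 :: .mul 20 35 ::
    .sub true 0 20 :: .mul 5 0 :: .mul 6 0 :: .smul 3 0 :: .mul 0 2 :: .smul 5 33 :: .add false 0 45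
    :: .mul 0 4 :: .mul 14 37 :: .mul 1 0 :: prog1

def vs : List Vr := [⟨2, 0, false, false⟩, ⟨2, 0, false, false⟩, ⟨2, 0, false, false⟩, ⟨3, 0, false,
    false⟩]

def C : Chart := ⟨vs, prog, [], 2, 3⟩

end Pool.Agent.Lib.MP_d6150d_an.S7cT
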