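import Pool.Agent.Lib.MP_d6150d_an.S8lD

/-! A generated chart: the computations. -/

namespace Pool.Agent.Lib.MP_d6150d_an.S8l

theorem k0 : chk C 0x881882088088020880882882028880088288188020202 [(87960930222080,
    145135534866432), (-8796093022208, 8796093022208), (0, 70368744177664)] = true := by
  decide +kernel

theorem k1 : chk C 0x880880188088020881881881128808808801202 [(145135534866432, 202310139510784),
    (-8796093022208, 8796093022208), (0, 70368744177664)] = true := by
  decide +kernel

theorem k2 : chk C 0x88088018808801288188108818810208808818028808818820200 [(87960930222080,
    202310139510784), (-8796093022208, 8796093022208), (70368744177664, 140737488355328)] = true :=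
    by
  decide +kernel

end Pool.Agent.Lib.MP_d6150d_an.S8l
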