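import Pool.Agent.Lib.MP_d6150d_an.GMac
import Pool.Agent.Lib.MP_d6150d_an.S8lK0

/-! A generated chart: the inequality. -/

namespace Pool.Agent.Lib.MP_d6150d_an.S8l

set_option linter.unnecessarySeqFocus false
set_option linter.unusedTactic false
set_option linter.unusedVariables false

theorem gd : Gd C [(87960930222080, 202310139510784), (-8796093022208, 8796093022208), (0,
    140737488355328)] := .split 2 (.split 0 (chk_sound k0) (chk_sound k1)) (chk_sound k2)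

set_option maxRecDepth 100000 in
theorem eq {T m r z1 D F iG N ik t x xi yi mu z z13 X P Q R z18 W Y a k3 k2 k1 z25 z26 : ℝ} (hz1 :
    z1 = Real.exp (-T)) (hD : D = -(1 - z1)⁻¹) (hF : F = m - D) (hiG : iG = (F - 1 - D)⁻¹) (hN : N =
    F * (2 * F - 1) * (F - 1)) (hik : ik = N * iG) (ht : t = -r) (hx : x = Real.exp (t / 2)) (hxi :
    xi = Real.exp (-(t / 2))) (hyi : yi = Real.exp (-(F * t))) (hmu : mu = muR D F t) (hz : z = ik *
    (t ^ 2 * mu)) (hz13 : z13 = Real.exp ((2 * F - 1) * T)) (hX : X = 1 + iG * m * z13 - z) (hP : P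
    = (1 + D) * x) (hQ : Q = (1 + 2 * D) * xi) (hR : R = D * xi ^ 3) (hz18 : z18 = ph1 (t / 2)) (hW
    : W = z18 * (1 + xi) / 2 * (1 + D - D * xi ^ 2)) (hY : Y = mu * yi * yi * x / 2) (ha : a = z *
    X) (hk3 : k3 = 4 * a) (hk2 : k2 = 12 * a - 4 - 10 * z) (hk1 : k1 = 3 * a - 5 * z) (hz25 : z25 =
    k3 * (Y ^ 3 * (pjR F P Q R).2.1) + k2 * (Y ^ 2 * (pjR F P Q R).1 * W ^ 2) + k1 * (Y * W ^ 4))
    (hz26 : z26 = (√mu)⁻¹) : outR prog 0 [T, m, r] = -(X * z25) + W ^ 5 * yi * mu * (X * z26 - 6 / 5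
    * (1 + z) * (t * z * ik)) ∧ outR (prog.take 14) 0 [T, m, r] = 33 / 16 - F - 2 * m := by
  replace hz1 : z1 = (Real.exp ((Int.cast (-1) : ℝ) * T)) := hz1.trans (congrArg Real.exp (by
    push_cast <;> ring))
  replace hD : D = ((Int.cast (-1) : ℝ) * ((Int.cast (1) : ℝ) - z1)⁻¹) := hD.trans (by push_cast <;>
    ring)
  replace hF : F = (m - D) := hF.trans (by push_cast <;> ring)
  replace hiG : iG = ((F - (Int.cast (1) : ℝ)) - D)⁻¹ := hiG.trans (by push_cast <;> ring)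
  replace hN : N = ((F * (((Int.cast (2) : ℝ) * F) - (Int.cast (1) : ℝ))) * (F - (Int.cast (1) :
    ℝ))) := hN.trans (by push_cast <;> ring)
  replace hik : ik = (N * iG) := hik.trans (by push_cast <;> ring)
  replace ht : t = ((Int.cast (-1) : ℝ) * r) := ht.trans (by push_cast <;> ring)
  replace hx : x = (Real.exp (((Int.cast (1) : ℝ) / (Nat.cast 2 : ℝ)) * t)) := hx.trans (congrArg
    Real.exp (by push_cast <;> ring))
  replace hxi : xi = (Real.exp ((Int.cast (-1) : ℝ) * (((Int.cast (1) : ℝ) / (Nat.cast 2 : ℝ)) *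
    t))) := hxi.trans (congrArg Real.exp (by push_cast <;> ring))
  replace hyi : yi = (Real.exp ((Int.cast (-1) : ℝ) * (F * t))) := hyi.trans (congrArg Real.exp (by
    push_cast <;> ring))
  replace hmu : mu = (mMu D F t) := hmu.trans (mMu_0 ..)
  replace hz : z = (ik * ((t * t) * mu)) := hz.trans (by push_cast <;> ring)
  replace hz13 : z13 = (Real.exp ((((Int.cast (2) : ℝ) * F) - (Int.cast (1) : ℝ)) * T)) :=
    hz13.trans (congrArg Real.exp (by push_cast <;> ring))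
  replace hX : X = (((Int.cast (1) : ℝ) + ((iG * m) * z13)) - z) := hX.trans (by push_cast <;> ring)
  replace hP : P = (((Int.cast (1) : ℝ) + D) * x) := hP.trans (by push_cast <;> ring)
  replace hQ : Q = (((Int.cast (1) : ℝ) + ((Int.cast (2) : ℝ) * D)) * xi) := hQ.trans (by push_cast
    <;> ring)
  replace hR : R = (D * ((xi * xi) * xi)) := hR.trans (by push_cast <;> ring)
  replace hz18 : z18 = (ph1 (((Int.cast (1) : ℝ) / (Nat.cast 2 : ℝ)) * t)) := hz18.trans (congrArg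
    ph1 (by push_cast <;> ring))
  replace hW : W = ((((Int.cast (1) : ℝ) / (Nat.cast 2 : ℝ)) * (z18 * ((Int.cast (1) : ℝ) + xi))) *
    (((Int.cast (1) : ℝ) + D) - (D * (xi * xi)))) := hW.trans (by push_cast <;> ring)
  replace hY : Y = (((Int.cast (1) : ℝ) / (Nat.cast 2 : ℝ)) * (((mu * yi) * yi) * x)) := hY.trans
    (by push_cast <;> ring)
  replace ha : a = (z * X) := ha.trans (by push_cast <;> ring)
  replace hk3 : k3 = ((Int.cast (4) : ℝ) * a) := hk3.trans (by push_cast <;> ring)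
  replace hk2 : k2 = ((((Int.cast (12) : ℝ) * a) - (Int.cast (4) : ℝ)) - ((Int.cast (10) : ℝ) * z))
    := hk2.trans (by push_cast <;> ring)
  replace hk1 : k1 = (((Int.cast (3) : ℝ) * a) - ((Int.cast (5) : ℝ) * z)) := hk1.trans (by
    push_cast <;> ring)
  replace hz25 : z25 = (mK3 F P Q R Y W k3 k2 k1) := hz25.trans (mK3_0 ..)
  have e0 : (((Int.cast (-1) : ℝ) * (X * z25)) + ((((((W * W) * (W * W)) * W) * yi) * mu) * ((X *
    z26) - ((((Int.cast (6) : ℝ) / (Nat.cast 5 : ℝ)) * ((Int.cast (1) : ℝ) + z)) * ((t * z) *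
    ik))))) = -(X * z25) + W ^ 5 * yi * mu * (X * z26 - 6 / 5 * (1 + z) * (t * z * ik)) := by
    push_cast <;> ring
  have e1 : ((((Int.cast (33) : ℝ) / (Nat.cast 16 : ℝ)) - F) - ((Int.cast (2) : ℝ) * m)) = 33 / 16 -
    F - 2 * m := by push_cast <;> ring
  subst hz1 hD hF hiG hN hik ht hx hxi hyi hmu hz hz13 hX hP hQ hR hz18 hW hY ha hk3 hk2 hk1 hz25
    hz26
  exact ⟨Eq.trans rfl e0, Eq.trans rfl e1⟩

theorem l0 : ((87960930222080 : ℤ) : ℝ) / 2 ^ 47 = 5 / 8 := by norm_num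
theorem u0 : (23 / 16 : ℝ) = ((202310139510784 : ℤ) : ℝ) / 2 ^ 47 := by norm_num
theorem l1 : ((-8796093022208 : ℤ) : ℝ) / 2 ^ 47 = -1 / 16 := by norm_num
theorem u1 : (1 / 16 : ℝ) = ((8796093022208 : ℤ) : ℝ) / 2 ^ 47 := by norm_num
theorem l2 : ((0 : ℤ) : ℝ) / 2 ^ 47 = 0 := by norm_num
theorem u2 : (1 : ℝ) = ((140737488355328 : ℤ) : ℝ) / 2 ^ 47 := by norm_num

theorem out0 (V2 : ∀ T m : ℝ, 5 / 8 ≤ T → T ≤ 23 / 16 → -1 / 16 ≤ m → m ≤ 1 / 16 → (fun r ↦ outR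
    prog 0 [T, m, r]) =O[nhdsWithin 0 (Set.Ioi 0)] fun r : ℝ ↦ r ^ 2) {T m r : ℝ} (a0 : 5 / 8 ≤ T)
    (b0 : T ≤ 23 / 16) (a1 : -1 / 16 ≤ m) (b1 : m ≤ 1 / 16) (a2 : 0 ≤ r) (b2 : r ≤ 1) (p2 : 0 < r)
    (c0 : 0 ≤ outR (prog.take 14) 0 [T, m, r]) : 0 < outR prog 0 [T, m, r] :=
  gd 0 (by decide) [T, m, r] (.cons ⟨l0.le.trans a0, b0.trans u0.le⟩ (.cons ⟨l1.le.trans a1,
    b1.trans u1.le⟩ (.cons ⟨l2.le.trans a2, b2.trans u2.le⟩ (.nil)))) ⟨nofun, nofun, fun _ ↦ p2,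
    trivial⟩ (List.forall_mem_cons.2 ⟨c0, List.forall_mem_nil _⟩) (⟨fun _ ↦ allB_iff.2 fun _ _ ↦
    trivial, fun y0 a0 b0 ↦ ⟨fun _ ↦ allB_iff.2 fun _ _ ↦ trivial, fun y1 a1 b1 ↦ ⟨fun _ ↦ V2 y0 y1
    (l0.ge.trans a0) (b0.trans u0.ge) (l1.ge.trans a1) (b1.trans u1.ge), fun _ _ _ ↦ trivial⟩⟩⟩)
    (nofun)

end Pool.Agent.Lib.MP_d6150d_an.S8l
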