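import Pool.Agent.Lib.MP_d6150d_an.S8mD

/-! A generated chart: the computations. -/

namespace Pool.Agent.Lib.MP_d6150d_an.S8m

theorem k0 : chk C 0x881881088188108818811881881102288088881228888122020 [(87960930222080,
    145135534866432), (-8796093022208, 8796093022208), (105553116266496, 369435906932736)] = true :=
    by
  decide +kernel

theorem k1 : chk C 0x881881881888012228b8018b8028b80212188188118818818802288188188022120
    [(145135534866432, 202310139510784), (-8796093022208, 8796093022208), (105553116266496,
    369435906932736)] = true := by
  decide +kernel

theorem k2 : chk C 0x88088018812b80b8011881881288188121088188118812881881000 [(87960930222080,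
    202310139510784), (-8796093022208, 8796093022208), (369435906932736, 633318697598976)] = true :=
    by
  decide +kernel

end Pool.Agent.Lib.MP_d6150d_an.S8m
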