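import Pool.Agent.Lib.MP_d6150d_an.GMac
import Pool.Agent.Lib.MP_d6150d_an.S8mK0

/-! A generated chart: the inequality. -/

namespace Pool.Agent.Lib.MP_d6150d_an.S8m

set_option linter.unnecessarySeqFocus false
set_option linter.unusedTactic false
set_option linter.unusedVariables false

theorem gd : Gd C [(87960930222080, 202310139510784), (-8796093022208, 8796093022208),
    (105553116266496, 633318697598976)] := .split 2 (.split 0 (chk_sound k0) (chk_sound k1))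
    (chk_sound k2)

set_option maxRecDepth 100000 in
theorem eq {T m L z1 D F iG N ik t x n z10 p P Q W c p2 p3 z z19 y X z22 : ℝ} (hz1 : z1 = Real.exp
    (-T)) (hD : D = -(1 - z1)⁻¹) (hF : F = m - D) (hiG : iG = (F - 1 - D)⁻¹) (hN : N = F * (2 * F -
    1) * (F - 1)) (hik : ik = N * iG) (ht : t = -(L * (2 * F - 2)⁻¹)) (hx : x = Real.exp t) (hn : n
    = Real.exp ((F - 2) * t)) (hz10 : z10 = Real.exp (-L)) (hp : p = iG * z10) (hP : P = (1 + D) * x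
    ^ 2) (hQ : Q = (1 + 2 * D) * x) (hW : W = Q - P - D) (hc : c = 2 * F * (F - 1) * Q - (2 * F - 1)
    * ((F - 1) * P + F * D)) (hp2 : p2 = (pjR F P Q D).1) (hp3 : p3 = (pjR F P Q D).2.1) (hz : z = 1
    - p * c) (hz19 : z19 = Real.exp ((2 * F - 1) * T + L)) (hy : y = m * z19 + c) (hX : X = p * y)
    (hz22 : z22 = (√(ik * z))⁻¹) : outR prog 0 [T, m, L] = z ^ 2 * y * (-(z ^ 2 * p3 * y / 2) + N *
    W ^ 2 * ((1 + z * (5 / 2 - 3 * X)) * p2 + (5 / 2 - 3 / 2 * X) * W ^ 2 * (N * p))) + N ^ 2 * W ^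
    5 * n * (X * z * z22 * ik + ik * (6 / 5) * (1 + z) * z ^ 2) ∧ outR (prog.take 14) 0 [T, m, L] =
    33 / 16 - F - 2 * m ∧ outR (prog.take 17) 0 [T, m, L] = F - 11 / 8 := by
  replace hz1 : z1 = (Real.exp ((Int.cast (-1) : ℝ) * T)) := hz1.trans (congrArg Real.exp (by
    push_cast <;> ring))
  replace hD : D = ((Int.cast (-1) : ℝ) * ((Int.cast (1) : ℝ) - z1)⁻¹) := hD.trans (by push_cast <;>
    ring)
  replace hF : F = (m - D) := hF.trans (by push_cast <;> ring)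
  replace hiG : iG = ((F - (Int.cast (1) : ℝ)) - D)⁻¹ := hiG.trans (by push_cast <;> ring)
  replace hN : N = ((F * (((Int.cast (2) : ℝ) * F) - (Int.cast (1) : ℝ))) * (F - (Int.cast (1) :
    ℝ))) := hN.trans (by push_cast <;> ring)
  replace hik : ik = (N * iG) := hik.trans (by push_cast <;> ring)
  replace ht : t = ((Int.cast (-1) : ℝ) * (L * (((Int.cast (2) : ℝ) * F) - (Int.cast (2) : ℝ))⁻¹))
    := ht.trans (by push_cast <;> ring)
  replace hn : n = (Real.exp ((F - (Int.cast (2) : ℝ)) * t)) := hn.trans (congrArg Real.exp (by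
    push_cast <;> ring))
  replace hz10 : z10 = (Real.exp ((Int.cast (-1) : ℝ) * L)) := hz10.trans (congrArg Real.exp (by
    push_cast <;> ring))
  replace hp : p = (iG * z10) := hp.trans (by push_cast <;> ring)
  replace hP : P = (((Int.cast (1) : ℝ) + D) * (x * x)) := hP.trans (by push_cast <;> ring)
  replace hQ : Q = (((Int.cast (1) : ℝ) + ((Int.cast (2) : ℝ) * D)) * x) := hQ.trans (by push_cast
    <;> ring)
  replace hW : W = ((Q - P) - D) := hW.trans (by push_cast <;> ring)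
  replace hc : c = (((((Int.cast (2) : ℝ) * F) * (F - (Int.cast (1) : ℝ))) * Q) - ((((Int.cast (2) :
    ℝ) * F) - (Int.cast (1) : ℝ)) * (((F - (Int.cast (1) : ℝ)) * P) + (F * D)))) := hc.trans (by
    push_cast <;> ring)
  replace hp2 : p2 = (mPj F P Q D).1 := hp2.trans (mPj_0 ..)
  replace hp3 : p3 = (mPj F P Q D).2.1 := hp3.trans (mPj_1 ..)
  replace hz : z = ((Int.cast (1) : ℝ) - (p * c)) := hz.trans (by push_cast <;> ring)
  replace hz19 : z19 = (Real.exp (((((Int.cast (2) : ℝ) * F) - (Int.cast (1) : ℝ)) * T) + L)) :=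
    hz19.trans (congrArg Real.exp (by push_cast <;> ring))
  replace hy : y = ((m * z19) + c) := hy.trans (by push_cast <;> ring)
  replace hX : X = (p * y) := hX.trans (by push_cast <;> ring)
  replace hz22 : z22 = (√(ik * z))⁻¹ := hz22.trans (congrArg (fun x : ℝ ↦ (√x)⁻¹) (by push_cast <;>
    ring))
  have e0 : ((((z * z) * y) * (((Int.cast (-1) : ℝ) * (((Int.cast (1) : ℝ) / (Nat.cast 2 : ℝ)) *
    (((z * z) * p3) * y))) + ((N * (W * W)) * ((((Int.cast (1) : ℝ) + (z * (((Int.cast (5) : ℝ) /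
    (Nat.cast 2 : ℝ)) - ((Int.cast (3) : ℝ) * X)))) * p2) + (((((Int.cast (5) : ℝ) / (Nat.cast 2 :
    ℝ)) - (((Int.cast (3) : ℝ) / (Nat.cast 2 : ℝ)) * X)) * (W * W)) * (N * p)))))) + ((((N * N) *
    (((W * W) * (W * W)) * W)) * n) * ((((X * z) * z22) * ik) + (((((Int.cast (6) : ℝ) / (Nat.cast 5
    : ℝ)) * ik) * ((Int.cast (1) : ℝ) + z)) * (z * z))))) = z ^ 2 * y * (-(z ^ 2 * p3 * y / 2) + N *
    W ^ 2 * ((1 + z * (5 / 2 - 3 * X)) * p2 + (5 / 2 - 3 / 2 * X) * W ^ 2 * (N * p))) + N ^ 2 * W ^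
    5 * n * (X * z * z22 * ik + ik * (6 / 5) * (1 + z) * z ^ 2) := by push_cast <;> ring
  have e1 : ((((Int.cast (33) : ℝ) / (Nat.cast 16 : ℝ)) - F) - ((Int.cast (2) : ℝ) * m)) = 33 / 16 -
    F - 2 * m := by push_cast <;> ring
  have e2 : (F - ((Int.cast (11) : ℝ) / (Nat.cast 8 : ℝ))) = F - 11 / 8 := by push_cast <;> ring
  subst hz1 hD hF hiG hN hik ht hx hn hz10 hp hP hQ hW hc hp2 hp3 hz hz19 hy hX hz22
  exact ⟨Eq.trans rfl e0, Eq.trans rfl e1, Eq.trans rfl e2⟩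

theorem l0 : ((87960930222080 : ℤ) : ℝ) / 2 ^ 47 = 5 / 8 := by norm_num
theorem u0 : (23 / 16 : ℝ) = ((202310139510784 : ℤ) : ℝ) / 2 ^ 47 := by norm_num
theorem l1 : ((-8796093022208 : ℤ) : ℝ) / 2 ^ 47 = -1 / 16 := by norm_num
theorem u1 : (1 / 16 : ℝ) = ((8796093022208 : ℤ) : ℝ) / 2 ^ 47 := by norm_num
theorem l2 : ((105553116266496 : ℤ) : ℝ) / 2 ^ 47 = 3 / 4 := by norm_num
theorem u2 : (9 / 2 : ℝ) = ((633318697598976 : ℤ) : ℝ) / 2 ^ 47 := by norm_num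

theorem out0 {T m L : ℝ} (a0 : 5 / 8 ≤ T) (b0 : T ≤ 23 / 16) (a1 : -1 / 16 ≤ m) (b1 : m ≤ 1 / 16)
    (a2 : 3 / 4 ≤ L) (b2 : L ≤ 9 / 2) (c0 : 0 ≤ outR (prog.take 14) 0 [T, m, L]) (c1 : 0 ≤ outR
    (prog.take 17) 0 [T, m, L]) : 0 < outR prog 0 [T, m, L] :=
  gd 0 (by decide) [T, m, L] (.cons ⟨l0.le.trans a0, b0.trans u0.le⟩ (.cons ⟨l1.le.trans a1,
    b1.trans u1.le⟩ (.cons ⟨l2.le.trans a2, b2.trans u2.le⟩ (.nil)))) ⟨nofun, nofun, nofun, trivial⟩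
    (List.forall_mem_cons.2 ⟨c0, List.forall_mem_cons.2 ⟨c1, List.forall_mem_nil _⟩⟩) (Van.of0 rfl)
    (nofun)

theorem pos0 {T m L z1 D F iG N ik t x n z10 p P Q W c p2 p3 z z19 y X z22 : ℝ} (hz1 : z1 = Real.exp
    (-T)) (hD : D = -(1 - z1)⁻¹) (hF : F = m - D) (hiG : iG = (F - 1 - D)⁻¹) (hN : N = F * (2 * F -
    1) * (F - 1)) (hik : ik = N * iG) (ht : t = -(L * (2 * F - 2)⁻¹)) (hx : x = Real.exp t) (hn : n
    = Real.exp ((F - 2) * t)) (hz10 : z10 = Real.exp (-L)) (hp : p = iG * z10) (hP : P = (1 + D) * x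
    ^ 2) (hQ : Q = (1 + 2 * D) * x) (hW : W = Q - P - D) (hc : c = 2 * F * (F - 1) * Q - (2 * F - 1)
    * ((F - 1) * P + F * D)) (hp2 : p2 = (pjR F P Q D).1) (hp3 : p3 = (pjR F P Q D).2.1) (hz : z = 1
    - p * c) (hz19 : z19 = Real.exp ((2 * F - 1) * T + L)) (hy : y = m * z19 + c) (hX : X = p * y)
    (hz22 : z22 = (√(ik * z))⁻¹) (a0 : 5 / 8 ≤ T) (b0 : T ≤ 23 / 16) (a1 : -1 / 16 ≤ m) (b1 : m ≤ 1
    / 16) (a2 : 3 / 4 ≤ L) (b2 : L ≤ 9 / 2) (c0 : 0 ≤ 33 / 16 - F - 2 * m) (c1 : 0 ≤ F - 11 / 8) : 0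
    < z ^ 2 * y * (-(z ^ 2 * p3 * y / 2) + N * W ^ 2 * ((1 + z * (5 / 2 - 3 * X)) * p2 + (5 / 2 - 3
    / 2 * X) * W ^ 2 * (N * p))) + N ^ 2 * W ^ 5 * n * (X * z * z22 * ik + ik * (6 / 5) * (1 + z) *
    z ^ 2) :=
  have e := eq hz1 hD hF hiG hN hik ht hx hn hz10 hp hP hQ hW hc hp2 hp3 hz hz19 hy hX hz22
  (out0 a0 b0 a1 b1 a2 b2 (c0.trans_eq e.2.1.symm) (c1.trans_eq e.2.2.symm)).trans_eq e.1

end Pool.Agent.Lib.MP_d6150d_an.S8m
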