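import Pool.Agent.Lib.MP_d6150d_an.S8rD

/-! A generated chart: the computations. -/

namespace Pool.Agent.Lib.MP_d6150d_an.S8r

theorem k0 : chk C 0x880888128880202882dd08821088188028808802020 [(87960930222080, 145135534866432),
    (-8796093022208, 8796093022208), (0, 70368744177664)] = true := by
  decide +kernel

theorem k1 : chk C 0x8818188180088081880880128808818810202 [(145135534866432, 202310139510784),
    (-8796093022208, 8796093022208), (0, 70368744177664)] = true := by
  decide +kernel

theorem k2 : chk C 0x88181881288288120880880288810882dd0810200 [(87960930222080, 202310139510784),
    (-8796093022208, 8796093022208), (70368744177664, 140737488355328)] = true := by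
  decide +kernel

end Pool.Agent.Lib.MP_d6150d_an.S8r
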