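import Pool.Agent.Lib.MP_d6150d_an.GMac
import Pool.Agent.Lib.MP_d6150d_an.S8rK0

/-! A generated chart: the inequality. -/

namespace Pool.Agent.Lib.MP_d6150d_an.S8r

set_option linter.unnecessarySeqFocus false
set_option linter.unusedTactic false
set_option linter.unusedVariables false

theorem gd : Gd C [(87960930222080, 202310139510784), (-8796093022208, 8796093022208), (0,
    140737488355328)] := .split 2 (.split 0 (chk_sound k0) (chk_sound k1)) (chk_sound k2)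

set_option maxRecDepth 100000 in
theorem eq {T m u z1 D F iG N ik t s x xi yi mu D1 s1 z15 z16 X z P Q R z22 z23 W Y a s2 k3 k2 k1
    z31 z32 : ℝ} (hz1 : z1 = Real.exp (-T)) (hD : D = -(1 - z1)⁻¹) (hF : F = m - D) (hiG : iG = (F -
    1 - D)⁻¹) (hN : N = F * (2 * F - 1) * (F - 1)) (hik : ik = N * iG) (ht : t = u * T) (hs : s = T
    - t) (hx : x = Real.exp (t / 2)) (hxi : xi = Real.exp (-(t / 2))) (hyi : yi = Real.exp (-(F *
    t))) (hmu : mu = muR D F t) (hD1 : D1 = -1 - D) (hs1 : s1 = -s) (hz15 : z15 = Real.exp ((2 * F -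
    1) * T)) (hz16 : z16 = muR D1 F s1) (hX : X = ik * z15 * z16) (hz : z = ik * (t ^ 2 * mu)) (hP :
    P = (1 + D) * x) (hQ : Q = (1 + 2 * D) * xi) (hR : R = D * xi ^ 3) (hz22 : z22 = ph1 (t / 2))
    (hz23 : z23 = ph1 s) (hW : W = z22 * (1 + xi) / 2 * (D1 * z23)) (hY : Y = mu * yi * yi * x / 2)
    (ha : a = z * X) (hs2 : s2 = s ^ 2) (hk3 : k3 = 4 * a) (hk2 : k2 = 12 * a * s2 - 4 - 10 * z)
    (hk1 : k1 = (3 * a * s2 - 5 * z) * s2) (hz31 : z31 = k3 * (Y ^ 3 * (pjR F P Q R).2.1) + k2 * (Y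
    ^ 2 * (pjR F P Q R).1 * W ^ 2) + k1 * (Y * W ^ 4)) (hz32 : z32 = (√mu)⁻¹) : outR prog 0 [T, m,
    u] = -(X * z31) + s * W ^ 5 * yi * mu * (s2 * X * z32 - 6 / 5 * (1 + z) * (t * z * ik)) ∧ outR
    (prog.take 14) 0 [T, m, u] = 33 / 16 - F - 2 * m := by
  replace hz1 : z1 = (Real.exp ((Int.cast (-1) : ℝ) * T)) := hz1.trans (congrArg Real.exp (by
    push_cast <;> ring))
  replace hD : D = ((Int.cast (-1) : ℝ) * ((Int.cast (1) : ℝ) - z1)⁻¹) := hD.trans (by push_cast <;>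
    ring)
  replace hF : F = (m - D) := hF.trans (by push_cast <;> ring)
  replace hiG : iG = ((F - (Int.cast (1) : ℝ)) - D)⁻¹ := hiG.trans (by push_cast <;> ring)
  replace hN : N = ((F * (((Int.cast (2) : ℝ) * F) - (Int.cast (1) : ℝ))) * (F - (Int.cast (1) :
    ℝ))) := hN.trans (by push_cast <;> ring)
  replace hik : ik = (N * iG) := hik.trans (by push_cast <;> ring)
  replace ht : t = (u * T) := ht.trans (by push_cast <;> ring)
  replace hs : s = (T - t) := hs.trans (by push_cast <;> ring)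
  replace hx : x = (Real.exp (((Int.cast (1) : ℝ) / (Nat.cast 2 : ℝ)) * t)) := hx.trans (congrArg
    Real.exp (by push_cast <;> ring))
  replace hxi : xi = (Real.exp ((Int.cast (-1) : ℝ) * (((Int.cast (1) : ℝ) / (Nat.cast 2 : ℝ)) *
    t))) := hxi.trans (congrArg Real.exp (by push_cast <;> ring))
  replace hyi : yi = (Real.exp ((Int.cast (-1) : ℝ) * (F * t))) := hyi.trans (congrArg Real.exp (by
    push_cast <;> ring))
  replace hmu : mu = (mMu D F t) := hmu.trans (mMu_0 ..)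
  replace hD1 : D1 = ((Int.cast (-1) : ℝ) - D) := hD1.trans (by push_cast <;> ring)
  replace hs1 : s1 = ((Int.cast (-1) : ℝ) * s) := hs1.trans (by push_cast <;> ring)
  replace hz15 : z15 = (Real.exp ((((Int.cast (2) : ℝ) * F) - (Int.cast (1) : ℝ)) * T)) :=
    hz15.trans (congrArg Real.exp (by push_cast <;> ring))
  replace hz16 : z16 = (mMu D1 F s1) := hz16.trans (mMu_0 ..)
  replace hX : X = ((ik * z15) * z16) := hX.trans (by push_cast <;> ring)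
  replace hz : z = (ik * ((t * t) * mu)) := hz.trans (by push_cast <;> ring)
  replace hP : P = (((Int.cast (1) : ℝ) + D) * x) := hP.trans (by push_cast <;> ring)
  replace hQ : Q = (((Int.cast (1) : ℝ) + ((Int.cast (2) : ℝ) * D)) * xi) := hQ.trans (by push_cast
    <;> ring)
  replace hR : R = (D * ((xi * xi) * xi)) := hR.trans (by push_cast <;> ring)
  replace hz22 : z22 = (ph1 (((Int.cast (1) : ℝ) / (Nat.cast 2 : ℝ)) * t)) := hz22.trans (congrArg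
    ph1 (by push_cast <;> ring))
  replace hW : W = ((((Int.cast (1) : ℝ) / (Nat.cast 2 : ℝ)) * (z22 * ((Int.cast (1) : ℝ) + xi))) *
    (D1 * z23)) := hW.trans (by push_cast <;> ring)
  replace hY : Y = (((Int.cast (1) : ℝ) / (Nat.cast 2 : ℝ)) * (((mu * yi) * yi) * x)) := hY.trans
    (by push_cast <;> ring)
  replace ha : a = (z * X) := ha.trans (by push_cast <;> ring)
  replace hs2 : s2 = (s * s) := hs2.trans (by push_cast <;> ring)
  replace hk3 : k3 = ((Int.cast (4) : ℝ) * a) := hk3.trans (by push_cast <;> ring)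
  replace hk2 : k2 = (((((Int.cast (12) : ℝ) * a) * s2) - (Int.cast (4) : ℝ)) - ((Int.cast (10) : ℝ)
    * z)) := hk2.trans (by push_cast <;> ring)
  replace hk1 : k1 = (((((Int.cast (3) : ℝ) * a) * s2) - ((Int.cast (5) : ℝ) * z)) * s2) :=
    hk1.trans (by push_cast <;> ring)
  replace hz31 : z31 = (mK3 F P Q R Y W k3 k2 k1) := hz31.trans (mK3_0 ..)
  have e0 : (((Int.cast (-1) : ℝ) * (X * z31)) + ((((s * (((W * W) * (W * W)) * W)) * yi) * mu) *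
    (((s2 * X) * z32) - ((((Int.cast (6) : ℝ) / (Nat.cast 5 : ℝ)) * ((Int.cast (1) : ℝ) + z)) * ((t
    * z) * ik))))) = -(X * z31) + s * W ^ 5 * yi * mu * (s2 * X * z32 - 6 / 5 * (1 + z) * (t * z *
    ik)) := by push_cast <;> ring
  have e1 : ((((Int.cast (33) : ℝ) / (Nat.cast 16 : ℝ)) - F) - ((Int.cast (2) : ℝ) * m)) = 33 / 16 -
    F - 2 * m := by push_cast <;> ring
  subst hz1 hD hF hiG hN hik ht hs hx hxi hyi hmu hD1 hs1 hz15 hz16 hX hz hP hQ hR hz22 hz23 hW hY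
    ha hs2 hk3 hk2 hk1 hz31 hz32
  exact ⟨Eq.trans rfl e0, Eq.trans rfl e1⟩

theorem l0 : ((87960930222080 : ℤ) : ℝ) / 2 ^ 47 = 5 / 8 := by norm_num
theorem u0 : (23 / 16 : ℝ) = ((202310139510784 : ℤ) : ℝ) / 2 ^ 47 := by norm_num
theorem l1 : ((-8796093022208 : ℤ) : ℝ) / 2 ^ 47 = -1 / 16 := by norm_num
theorem u1 : (1 / 16 : ℝ) = ((8796093022208 : ℤ) : ℝ) / 2 ^ 47 := by norm_num
theorem l2 : ((0 : ℤ) : ℝ) / 2 ^ 47 = 0 := by norm_num
theorem u2 : (1 : ℝ) = ((140737488355328 : ℤ) : ℝ) / 2 ^ 47 := by norm_num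

theorem out0 (V2 : ∀ T m : ℝ, 5 / 8 ≤ T → T ≤ 23 / 16 → -1 / 16 ≤ m → m ≤ 1 / 16 → (fun u ↦ outR
    prog 0 [T, m, u]) =O[nhdsWithin 0 (Set.Ioi 0)] fun u : ℝ ↦ u ^ 2) {T m u : ℝ} (a0 : 5 / 8 ≤ T)
    (b0 : T ≤ 23 / 16) (a1 : -1 / 16 ≤ m) (b1 : m ≤ 1 / 16) (a2 : 0 ≤ u) (b2 : u ≤ 1) (p2 : 0 < u)
    (c0 : 0 ≤ outR (prog.take 14) 0 [T, m, u]) : 0 < outR prog 0 [T, m, u] :=
  gd 0 (by decide) [T, m, u] (.cons ⟨l0.le.trans a0, b0.trans u0.le⟩ (.cons ⟨l1.le.trans a1,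
    b1.trans u1.le⟩ (.cons ⟨l2.le.trans a2, b2.trans u2.le⟩ (.nil)))) ⟨nofun, nofun, fun _ ↦ p2,
    trivial⟩ (List.forall_mem_cons.2 ⟨c0, List.forall_mem_nil _⟩) (⟨fun _ ↦ allB_iff.2 fun _ _ ↦
    trivial, fun y0 a0 b0 ↦ ⟨fun _ ↦ allB_iff.2 fun _ _ ↦ trivial, fun y1 a1 b1 ↦ ⟨fun _ ↦ V2 y0 y1
    (l0.ge.trans a0) (b0.trans u0.ge) (l1.ge.trans a1) (b1.trans u1.ge), fun _ _ _ ↦ trivial⟩⟩⟩)
    (nofun)

end Pool.Agent.Lib.MP_d6150d_an.S8r
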