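import Pool.Agent.Lib.MP_d6150d_an.S8tD

/-! A generated chart: the computations. -/

namespace Pool.Agent.Lib.MP_d6150d_an.S8t

theorem k0 : chk C 0xe80eb1801bee00b1188ee180180108818d81dd2d12000 [(96757023244288,
    202310139510784), (-8796093022208, 8796093022208), (0, 140737488355328), (0, 1563749870615)] =
    true := by
  decide +kernel

end Pool.Agent.Lib.MP_d6150d_an.S8t
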