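import Pool.Agent.Lib.MP_d6150d_an.GMac
import Pool.Agent.Lib.MP_d6150d_an.S8tK0

/-! A generated chart: the inequality. -/

namespace Pool.Agent.Lib.MP_d6150d_an.S8t

set_option linter.unnecessarySeqFocus false
set_option linter.unusedTactic false
set_option linter.unusedVariables false

theorem gd : Gd C [(96757023244288, 202310139510784), (-8796093022208, 8796093022208), (0,
    140737488355328), (0, 1563749870615)] := chk_sound k0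

set_option maxRecDepth 100000 in
theorem eq {T m a q z1 D F iG N t z7 x n p P Q W c p2 p3 z z18 X : ℝ} (hz1 : z1 = Real.exp (-T)) (hD
    : D = -(1 - z1)⁻¹) (hF : F = m - D) (hiG : iG = (F - 1 - D)⁻¹) (hN : N = F * (2 * F - 1) * (F -
    1)) (ht : t = -(9 / 2 * (2 * F - 2)⁻¹)) (hz7 : z7 = Real.exp t) (hx : x = a * z7) (hn : n =
    Real.exp ((F - 2) * t)) (hp : p = iG * q) (hP : P = (1 + D) * x ^ 2) (hQ : Q = (1 + 2 * D) * x)
    (hW : W = Q - P - D) (hc : c = 2 * F * (F - 1) * Q - (2 * F - 1) * ((F - 1) * P + F * D)) (hp2 :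
    p2 = (pjR F P Q D).1) (hp3 : p3 = (pjR F P Q D).2.1) (hz : z = 1 - p * c) (hz18 : z18 = Real.exp
    ((2 * F - 1) * T)) (hX : X = iG * m * z18 + p * c) : outR prog 0 [T, m, a, q] = -(12 / 5 * z ^ 2
    * p3 * W * n * (N * iG) * (1 + z)) - ((1 + z * (5 / 2 - 3 * X)) * p2 + (5 / 2 - 3 / 2 * X) * W ^
    2 * (N * p)) ^ 2 ∧ outR (prog.take 12) 0 [T, m, a, q] = 31 / 16 - F ∧ outR (prog.take 15) 0 [T,
    m, a, q] = F - 11 / 8 := by
  replace hz1 : z1 = (Real.exp ((Int.cast (-1) : ℝ) * T)) := hz1.trans (congrArg Real.exp (by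
    push_cast <;> ring))
  replace hD : D = ((Int.cast (-1) : ℝ) * ((Int.cast (1) : ℝ) - z1)⁻¹) := hD.trans (by push_cast <;>
    ring)
  replace hF : F = (m - D) := hF.trans (by push_cast <;> ring)
  replace hiG : iG = ((F - (Int.cast (1) : ℝ)) - D)⁻¹ := hiG.trans (by push_cast <;> ring)
  replace hN : N = ((F * (((Int.cast (2) : ℝ) * F) - (Int.cast (1) : ℝ))) * (F - (Int.cast (1) :
    ℝ))) := hN.trans (by push_cast <;> ring)
  replace ht : t = ((Int.cast (-1) : ℝ) * (((Int.cast (9) : ℝ) / (Nat.cast 2 : ℝ)) * (((Int.cast (2)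
    : ℝ) * F) - (Int.cast (2) : ℝ))⁻¹)) := ht.trans (by push_cast <;> ring)
  replace hx : x = (a * z7) := hx.trans (by push_cast <;> ring)
  replace hn : n = (Real.exp ((F - (Int.cast (2) : ℝ)) * t)) := hn.trans (congrArg Real.exp (by
    push_cast <;> ring))
  replace hp : p = (iG * q) := hp.trans (by push_cast <;> ring)
  replace hP : P = (((Int.cast (1) : ℝ) + D) * (x * x)) := hP.trans (by push_cast <;> ring)
  replace hQ : Q = (((Int.cast (1) : ℝ) + ((Int.cast (2) : ℝ) * D)) * x) := hQ.trans (by push_cast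
    <;> ring)
  replace hW : W = ((Q - P) - D) := hW.trans (by push_cast <;> ring)
  replace hc : c = (((((Int.cast (2) : ℝ) * F) * (F - (Int.cast (1) : ℝ))) * Q) - ((((Int.cast (2) :
    ℝ) * F) - (Int.cast (1) : ℝ)) * (((F - (Int.cast (1) : ℝ)) * P) + (F * D)))) := hc.trans (by
    push_cast <;> ring)
  replace hp2 : p2 = (mPj F P Q D).1 := hp2.trans (mPj_0 ..)
  replace hp3 : p3 = (mPj F P Q D).2.1 := hp3.trans (mPj_1 ..)
  replace hz : z = ((Int.cast (1) : ℝ) - (p * c)) := hz.trans (by push_cast <;> ring)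
  replace hz18 : z18 = (Real.exp ((((Int.cast (2) : ℝ) * F) - (Int.cast (1) : ℝ)) * T)) :=
    hz18.trans (congrArg Real.exp (by push_cast <;> ring))
  replace hX : X = (((iG * m) * z18) + (p * c)) := hX.trans (by push_cast <;> ring)
  have e0 : (((Int.cast (-1) : ℝ) * ((((((((Int.cast (12) : ℝ) / (Nat.cast 5 : ℝ)) * (z * z)) * p3)
    * W) * n) * (N * iG)) * ((Int.cast (1) : ℝ) + z))) - (((((Int.cast (1) : ℝ) + (z * (((Int.cast
    (5) : ℝ) / (Nat.cast 2 : ℝ)) - ((Int.cast (3) : ℝ) * X)))) * p2) + (((((Int.cast (5) : ℝ) /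
    (Nat.cast 2 : ℝ)) - (((Int.cast (3) : ℝ) / (Nat.cast 2 : ℝ)) * X)) * (W * W)) * (N * p))) *
    ((((Int.cast (1) : ℝ) + (z * (((Int.cast (5) : ℝ) / (Nat.cast 2 : ℝ)) - ((Int.cast (3) : ℝ) *
    X)))) * p2) + (((((Int.cast (5) : ℝ) / (Nat.cast 2 : ℝ)) - (((Int.cast (3) : ℝ) / (Nat.cast 2 :
    ℝ)) * X)) * (W * W)) * (N * p))))) = -(12 / 5 * z ^ 2 * p3 * W * n * (N * iG) * (1 + z)) - ((1 +
    z * (5 / 2 - 3 * X)) * p2 + (5 / 2 - 3 / 2 * X) * W ^ 2 * (N * p)) ^ 2 := by push_cast <;> ring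
  have e1 : (((Int.cast (31) : ℝ) / (Nat.cast 16 : ℝ)) - F) = 31 / 16 - F := by push_cast <;> ring
  have e2 : (F - ((Int.cast (11) : ℝ) / (Nat.cast 8 : ℝ))) = F - 11 / 8 := by push_cast <;> ring
  subst hz1 hD hF hiG hN ht hz7 hx hn hp hP hQ hW hc hp2 hp3 hz hz18 hX
  exact ⟨Eq.trans rfl e0, Eq.trans rfl e1, Eq.trans rfl e2⟩

theorem l0 : ((96757023244288 : ℤ) : ℝ) / 2 ^ 47 = 11 / 16 := by norm_num
theorem u0 : (23 / 16 : ℝ) = ((202310139510784 : ℤ) : ℝ) / 2 ^ 47 := by norm_num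
theorem l1 : ((-8796093022208 : ℤ) : ℝ) / 2 ^ 47 = -1 / 16 := by norm_num
theorem u1 : (1 / 16 : ℝ) = ((8796093022208 : ℤ) : ℝ) / 2 ^ 47 := by norm_num
theorem l2 : ((0 : ℤ) : ℝ) / 2 ^ 47 = 0 := by norm_num
theorem u2 : (1 : ℝ) = ((140737488355328 : ℤ) : ℝ) / 2 ^ 47 := by norm_num
theorem l3 : ((0 : ℤ) : ℝ) / 2 ^ 47 = 0 := by norm_num
theorem u3 : (1 / 90 : ℝ) ≤ ((1563749870615 : ℤ) : ℝ) / 2 ^ 47 := by norm_num

theorem out0 {T m a q : ℝ} (a0 : 11 / 16 ≤ T) (b0 : T ≤ 23 / 16) (a1 : -1 / 16 ≤ m) (b1 : m ≤ 1 /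
    16) (a2 : 0 ≤ a) (b2 : a ≤ 1) (a3 : 0 ≤ q) (b3 : q ≤ 1 / 90) (c0 : 0 ≤ outR (prog.take 12) 0 [T,
    m, a, q]) (c1 : 0 ≤ outR (prog.take 15) 0 [T, m, a, q]) : 0 < outR prog 0 [T, m, a, q] :=
  gd 0 (by decide) [T, m, a, q] (.cons ⟨l0.le.trans a0, b0.trans u0.le⟩ (.cons ⟨l1.le.trans a1,
    b1.trans u1.le⟩ (.cons ⟨l2.le.trans a2, b2.trans u2.le⟩ (.cons ⟨l3.le.trans a3, b3.trans u3⟩
    (.nil))))) ⟨nofun, nofun, nofun, nofun, trivial⟩ (List.forall_mem_cons.2 ⟨c0,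
    List.forall_mem_cons.2 ⟨c1, List.forall_mem_nil _⟩⟩) (Van.of0 rfl) (nofun)

theorem pos0 {T m a q z1 D F iG N t z7 x n p P Q W c p2 p3 z z18 X : ℝ} (hz1 : z1 = Real.exp (-T))
    (hD : D = -(1 - z1)⁻¹) (hF : F = m - D) (hiG : iG = (F - 1 - D)⁻¹) (hN : N = F * (2 * F - 1) *
    (F - 1)) (ht : t = -(9 / 2 * (2 * F - 2)⁻¹)) (hz7 : z7 = Real.exp t) (hx : x = a * z7) (hn : n =
    Real.exp ((F - 2) * t)) (hp : p = iG * q) (hP : P = (1 + D) * x ^ 2) (hQ : Q = (1 + 2 * D) * x)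
    (hW : W = Q - P - D) (hc : c = 2 * F * (F - 1) * Q - (2 * F - 1) * ((F - 1) * P + F * D)) (hp2 :
    p2 = (pjR F P Q D).1) (hp3 : p3 = (pjR F P Q D).2.1) (hz : z = 1 - p * c) (hz18 : z18 = Real.exp
    ((2 * F - 1) * T)) (hX : X = iG * m * z18 + p * c) (a0 : 11 / 16 ≤ T) (b0 : T ≤ 23 / 16) (a1 :
    -1 / 16 ≤ m) (b1 : m ≤ 1 / 16) (a2 : 0 ≤ a) (b2 : a ≤ 1) (a3 : 0 ≤ q) (b3 : q ≤ 1 / 90) (c0 : 0
    ≤ 31 / 16 - F) (c1 : 0 ≤ F - 11 / 8) : 0 < -(12 / 5 * z ^ 2 * p3 * W * n * (N * iG) * (1 + z)) -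
    ((1 + z * (5 / 2 - 3 * X)) * p2 + (5 / 2 - 3 / 2 * X) * W ^ 2 * (N * p)) ^ 2 :=
  have e := eq hz1 hD hF hiG hN ht hz7 hx hn hp hP hQ hW hc hp2 hp3 hz hz18 hX
  (out0 a0 b0 a1 b1 a2 b2 a3 b3 (c0.trans_eq e.2.1.symm) (c1.trans_eq e.2.2.symm)).trans_eq e.1

end Pool.Agent.Lib.MP_d6150d_an.S8t
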