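import Pool.Agent.Lib.MP_d6150d_an.S8uD

/-! A generated chart: the computations. -/

namespace Pool.Agent.Lib.MP_d6150d_an.S8u

theorem k0 : chk C 0x8 [(281474976710656, 290271069732864), (-299067162755072, -290271069732864),
    (0, 17592186044416), (0, 1563749870615), (0, 140737488355328)] = true := by
  decide +kernel

end Pool.Agent.Lib.MP_d6150d_an.S8u
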