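import Pool.Agent.Lib.MP_d6150d_an.GMac
import Pool.Agent.Lib.MP_d6150d_an.S8uK0

/-! A generated chart: the inequality. -/

namespace Pool.Agent.Lib.MP_d6150d_an.S8u

set_option linter.unnecessarySeqFocus false
set_option linter.unusedTactic false
set_option linter.unusedVariables false

theorem gd : Gd C [(281474976710656, 290271069732864), (-299067162755072, -290271069732864), (0,
    17592186044416), (0, 1563749870615), (0, 140737488355328)] := chk_sound k0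

set_option maxRecDepth 100000 in
theorem eq {F D x q u iG N p P Q W c j2 g1 j3 z y k : ℝ} (hiG : iG = (F - 1 - D)⁻¹) (hN : N = F * (2
    * F - 1) * (F - 1)) (hp : p = iG * q) (hP : P = (1 + D) * x) (hQ : Q = 1 + 2 * D) (hW : W = x *
    (Q - P) - D) (hc : c = 2 * F * (F - 1) * (Q * x) - (2 * F - 1) * ((F - 1) * (P * x) + F * D))
    (hj2 : j2 = (F - 1) * Q - F * P) (hg1 : g1 = (F - 1) * (5 - 3 * F) * Q - 3 * F * (2 - F) * P)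
    (hj3 : j3 = (P - Q) * ((2 - F) * (4 - 3 * F) * D + x * g1) + D * g1 - 3 * (2 * P - Q) * ((2 - F)
    * D + x * j2)) (hz : z = 1 - p * c) (hy : y = u * c) (hk : k = N * W ^ 2 * (1 + z * (5 / 2 - 3 *
    (p * y)))) : outR prog 0 [F, D, x, q, u] = -(D * k) - (3 * F - 4) * D ^ 2 * z ^ 2 * y / 2 ∧ outR
    prog 1 [F, D, x, q, u] = y * (k * j2 - z ^ 2 * j3 * y / 2) + 24 / 5 * N ^ 3 * iG * W ^ 5 * (1 +
    z) := by
  replace hiG : iG = ((F - (Int.cast (1) : ℝ)) - D)⁻¹ := hiG.trans (by push_cast <;> ring)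
  replace hN : N = ((F * (((Int.cast (2) : ℝ) * F) - (Int.cast (1) : ℝ))) * (F - (Int.cast (1) :
    ℝ))) := hN.trans (by push_cast <;> ring)
  replace hp : p = (iG * q) := hp.trans (by push_cast <;> ring)
  replace hP : P = (((Int.cast (1) : ℝ) + D) * x) := hP.trans (by push_cast <;> ring)
  replace hQ : Q = ((Int.cast (1) : ℝ) + ((Int.cast (2) : ℝ) * D)) := hQ.trans (by push_cast <;>
    ring)
  replace hW : W = ((x * (Q - P)) - D) := hW.trans (by push_cast <;> ring)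
  replace hc : c = (((((Int.cast (2) : ℝ) * F) * (F - (Int.cast (1) : ℝ))) * (Q * x)) - ((((Int.cast
    (2) : ℝ) * F) - (Int.cast (1) : ℝ)) * (((F - (Int.cast (1) : ℝ)) * (P * x)) + (F * D)))) :=
    hc.trans (by push_cast <;> ring)
  replace hj2 : j2 = (((F - (Int.cast (1) : ℝ)) * Q) - (F * P)) := hj2.trans (by push_cast <;> ring)
  replace hg1 : g1 = ((((F - (Int.cast (1) : ℝ)) * ((Int.cast (5) : ℝ) - ((Int.cast (3) : ℝ) * F)))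
    * Q) - ((((Int.cast (3) : ℝ) * F) * ((Int.cast (2) : ℝ) - F)) * P)) := hg1.trans (by push_cast
    <;> ring)
  replace hj3 : j3 = ((((P - Q) * (((((Int.cast (2) : ℝ) - F) * ((Int.cast (4) : ℝ) - ((Int.cast (3)
    : ℝ) * F))) * D) + (x * g1))) + (D * g1)) - (((Int.cast (3) : ℝ) * (((Int.cast (2) : ℝ) * P) -
    Q)) * ((((Int.cast (2) : ℝ) - F) * D) + (x * j2)))) := hj3.trans (by push_cast <;> ring)
  replace hz : z = ((Int.cast (1) : ℝ) - (p * c)) := hz.trans (by push_cast <;> ring)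
  replace hy : y = (u * c) := hy.trans (by push_cast <;> ring)
  replace hk : k = ((N * (W * W)) * ((Int.cast (1) : ℝ) + (z * (((Int.cast (5) : ℝ) / (Nat.cast 2 :
    ℝ)) - ((Int.cast (3) : ℝ) * (p * y)))))) := hk.trans (by push_cast <;> ring)
  have e0 : (((Int.cast (-1) : ℝ) * (D * k)) - (((Int.cast (1) : ℝ) / (Nat.cast 2 : ℝ)) *
    ((((((Int.cast (3) : ℝ) * F) - (Int.cast (4) : ℝ)) * (D * D)) * (z * z)) * y))) = -(D * k) - (3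
    * F - 4) * D ^ 2 * z ^ 2 * y / 2 := by push_cast <;> ring
  have e1 : ((y * ((k * j2) - (((Int.cast (1) : ℝ) / (Nat.cast 2 : ℝ)) * (((z * z) * j3) * y)))) +
    ((((((Int.cast (24) : ℝ) / (Nat.cast 5 : ℝ)) * ((N * N) * N)) * iG) * (((W * W) * (W * W)) * W))
    * ((Int.cast (1) : ℝ) + z))) = y * (k * j2 - z ^ 2 * j3 * y / 2) + 24 / 5 * N ^ 3 * iG * W ^ 5 *
    (1 + z) := by push_cast <;> ring
  subst hiG hN hp hP hQ hW hc hj2 hg1 hj3 hz hy hk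
  exact ⟨Eq.trans rfl e0, Eq.trans rfl e1⟩

theorem l0 : ((281474976710656 : ℤ) : ℝ) / 2 ^ 47 = 2 := by norm_num
theorem u0 : (33 / 16 : ℝ) = ((290271069732864 : ℤ) : ℝ) / 2 ^ 47 := by norm_num
theorem l1 : ((-299067162755072 : ℤ) : ℝ) / 2 ^ 47 = -17 / 8 := by norm_num
theorem u1 : (-33 / 16 : ℝ) = ((-290271069732864 : ℤ) : ℝ) / 2 ^ 47 := by norm_num
theorem l2 : ((0 : ℤ) : ℝ) / 2 ^ 47 = 0 := by norm_num
theorem u2 : (1 / 8 : ℝ) = ((17592186044416 : ℤ) : ℝ) / 2 ^ 47 := by norm_num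
theorem l3 : ((0 : ℤ) : ℝ) / 2 ^ 47 = 0 := by norm_num
theorem u3 : (1 / 90 : ℝ) ≤ ((1563749870615 : ℤ) : ℝ) / 2 ^ 47 := by norm_num
theorem l4 : ((0 : ℤ) : ℝ) / 2 ^ 47 = 0 := by norm_num
theorem u4 : (1 : ℝ) = ((140737488355328 : ℤ) : ℝ) / 2 ^ 47 := by norm_num

theorem out0 {F D x q u : ℝ} (a0 : 2 ≤ F) (b0 : F ≤ 33 / 16) (a1 : -17 / 8 ≤ D) (b1 : D ≤ -33 / 16)
    (a2 : 0 ≤ x) (b2 : x ≤ 1 / 8) (a3 : 0 ≤ q) (b3 : q ≤ 1 / 90) (a4 : 0 ≤ u) (b4 : u ≤ 1) : 0 <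
    outR prog 0 [F, D, x, q, u] :=
  gd 0 (by decide) [F, D, x, q, u] (.cons ⟨l0.le.trans a0, b0.trans u0.le⟩ (.cons ⟨l1.le.trans a1,
    b1.trans u1.le⟩ (.cons ⟨l2.le.trans a2, b2.trans u2.le⟩ (.cons ⟨l3.le.trans a3, b3.trans u3⟩
    (.cons ⟨l4.le.trans a4, b4.trans u4.le⟩ (.nil)))))) ⟨nofun, nofun, nofun, nofun, nofun, trivial⟩
    (List.forall_mem_nil _) (Van.of0 rfl) (nofun)

theorem pos0 {F D x q u iG N p P Q W c j2 g1 j3 z y k : ℝ} (hiG : iG = (F - 1 - D)⁻¹) (hN : N = F *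
    (2 * F - 1) * (F - 1)) (hp : p = iG * q) (hP : P = (1 + D) * x) (hQ : Q = 1 + 2 * D) (hW : W = x
    * (Q - P) - D) (hc : c = 2 * F * (F - 1) * (Q * x) - (2 * F - 1) * ((F - 1) * (P * x) + F * D))
    (hj2 : j2 = (F - 1) * Q - F * P) (hg1 : g1 = (F - 1) * (5 - 3 * F) * Q - 3 * F * (2 - F) * P)
    (hj3 : j3 = (P - Q) * ((2 - F) * (4 - 3 * F) * D + x * g1) + D * g1 - 3 * (2 * P - Q) * ((2 - F)
    * D + x * j2)) (hz : z = 1 - p * c) (hy : y = u * c) (hk : k = N * W ^ 2 * (1 + z * (5 / 2 - 3 *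
    (p * y)))) (a0 : 2 ≤ F) (b0 : F ≤ 33 / 16) (a1 : -17 / 8 ≤ D) (b1 : D ≤ -33 / 16) (a2 : 0 ≤ x)
    (b2 : x ≤ 1 / 8) (a3 : 0 ≤ q) (b3 : q ≤ 1 / 90) (a4 : 0 ≤ u) (b4 : u ≤ 1) : 0 < -(D * k) - (3 *
    F - 4) * D ^ 2 * z ^ 2 * y / 2 :=
  have e := eq hiG hN hp hP hQ hW hc hj2 hg1 hj3 hz hy hk
  (out0 a0 b0 a1 b1 a2 b2 a3 b3 a4 b4).trans_eq e.1

theorem out1 {F D x q u : ℝ} (a0 : 2 ≤ F) (b0 : F ≤ 33 / 16) (a1 : -17 / 8 ≤ D) (b1 : D ≤ -33 / 16)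
    (a2 : 0 ≤ x) (b2 : x ≤ 1 / 8) (a3 : 0 ≤ q) (b3 : q ≤ 1 / 90) (a4 : 0 ≤ u) (b4 : u ≤ 1) : 0 <
    outR prog 1 [F, D, x, q, u] :=
  gd 1 (by decide) [F, D, x, q, u] (.cons ⟨l0.le.trans a0, b0.trans u0.le⟩ (.cons ⟨l1.le.trans a1,
    b1.trans u1.le⟩ (.cons ⟨l2.le.trans a2, b2.trans u2.le⟩ (.cons ⟨l3.le.trans a3, b3.trans u3⟩
    (.cons ⟨l4.le.trans a4, b4.trans u4.le⟩ (.nil)))))) ⟨nofun, nofun, nofun, nofun, nofun, trivial⟩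
    (List.forall_mem_nil _) (Van.of0 rfl) (nofun)

theorem pos1 {F D x q u iG N p P Q W c j2 g1 j3 z y k : ℝ} (hiG : iG = (F - 1 - D)⁻¹) (hN : N = F *
    (2 * F - 1) * (F - 1)) (hp : p = iG * q) (hP : P = (1 + D) * x) (hQ : Q = 1 + 2 * D) (hW : W = x
    * (Q - P) - D) (hc : c = 2 * F * (F - 1) * (Q * x) - (2 * F - 1) * ((F - 1) * (P * x) + F * D))
    (hj2 : j2 = (F - 1) * Q - F * P) (hg1 : g1 = (F - 1) * (5 - 3 * F) * Q - 3 * F * (2 - F) * P)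
    (hj3 : j3 = (P - Q) * ((2 - F) * (4 - 3 * F) * D + x * g1) + D * g1 - 3 * (2 * P - Q) * ((2 - F)
    * D + x * j2)) (hz : z = 1 - p * c) (hy : y = u * c) (hk : k = N * W ^ 2 * (1 + z * (5 / 2 - 3 *
    (p * y)))) (a0 : 2 ≤ F) (b0 : F ≤ 33 / 16) (a1 : -17 / 8 ≤ D) (b1 : D ≤ -33 / 16) (a2 : 0 ≤ x)
    (b2 : x ≤ 1 / 8) (a3 : 0 ≤ q) (b3 : q ≤ 1 / 90) (a4 : 0 ≤ u) (b4 : u ≤ 1) : 0 < y * (k * j2 - z
    ^ 2 * j3 * y / 2) + 24 / 5 * N ^ 3 * iG * W ^ 5 * (1 + z) :=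
  have e := eq hiG hN hp hP hQ hW hc hj2 hg1 hj3 hz hy hk
  (out1 a0 b0 a1 b1 a2 b2 a3 b3 a4 b4).trans_eq e.2

end Pool.Agent.Lib.MP_d6150d_an.S8u
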