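import Pool.Agent.Lib.MP_d6150d_an.S8N
import Pool.Agent.Lib.MP_d6150d_an.S8r
import Pool.Agent.Lib.MP_d6150d_an.S8l
import Pool.Agent.Lib.MP_d6150d_an.S8m
import Pool.Agent.Lib.MP_d6150d_an.S8t
import Pool.Agent.Lib.MP_d6150d_an.S8u

/-! The strip `S8` for `F ≥ 11 / 8`: at most one critical period. -/

namespace Pool.Agent.Lib.MP_d6150d_an.S8

open Real Set Filter Topology Asymptotics

variable {D F T m t : ℝ}

/-- the normalised distance to the level of the saddle -/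
noncomputable def XX (D F T m t : ℝ) : ℝ :=
  1 + (F - 1 - D)⁻¹ * m * exp ((2 * F - 1) * T) - zz D F t

/-- the same, seen from the saddle -/
noncomputable def XS (D F T t : ℝ) : ℝ :=
  (T - t) ^ 2 * (ik D F * exp ((2 * F - 1) * T) * muR (-1 - D) F (-(T - t)))

theorem D_exp (hD : D = -(1 - exp (-T))⁻¹) (T0 : 0 < T) : D * exp (-T) = 1 + D := by
  have : 1 - exp (-T) ≠ 0 := (sub_pos.2 (exp_lt_one_iff.2 (by linarith))).ne'
  rw [hD]; field_simp; ring

theorem wS_saddle (h : D * exp (-T) = 1 + D) (t : ℝ) : wS D t =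
    (T - t) * (ph1 (t / 2) * (1 + exp (-(t / 2))) / 2 * ((-1 - D) * ph1 (T - t))) := by
  have h1 : exp (-(t / 2)) ^ 2 = exp (-T) * exp (T - t) := by
    rw [sq, ← exp_add, ← exp_add]; ring_nf
  rw [wS, h1, ← mul_assoc D, h, exp_eq_ph (T - t)]; ring

theorem XS_eq (h : D * exp (-T) = 1 + D) (hF : F = m - D) (F1 : 1 < F) (D0 : D < 0) (t : ℝ) :
    XS D F T t = XX D F T m t := by
  have h1 := vR_level (D := D) F1 t
  have h2 := vR_level (D := -1 - D) F1 (-(T - t))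
  have h3 : (F - 1 - D) * (F - 1 - D)⁻¹ = 1 := mul_inv_cancel₀ (by linarith)
  have h4 : exp ((2 * F - 1) * T) * exp (2 * F * -(T - t)) = exp (2 * F * t) * exp (-T) := by
    rw [← exp_add, ← exp_add]; ring_nf
  have h5 : exp (-t) = exp (-T) * exp (- -(T - t)) := by rw [← exp_add]; ring_nf
  obtain rfl : m = F + D := by linarith
  rw [h5] at h1
  simp only [XS, XX, zz, ik, vR] at *
  generalize exp ((2 * F - 1) * T) = E, exp (2 * F * -(T - t)) = A, exp (2 * F * t) = B,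
    exp (-T) = w, exp (- -(T - t)) = r, (F - 1 - D)⁻¹ = i at *
  linear_combination i * E * h2 + i * h1 + h3 + i * ((1 + (-1 - D)) * (2 * F - 1) * (F - 1) -
    2 * (1 + 2 * (-1 - D)) * F * (F - 1) * r + (-1 - D) * F * (2 * F - 1) * r ^ 2) * h4 +
    i * B * (2 * F - 1) * (F * w * r ^ 2 - (F - 1)) * h

theorem eql (hD : D = -(1 - exp (-T))⁻¹) (hF : F = m - D) (r : ℝ) :
    1 * outR S8l.prog 0 [T, m, r] = gA D F (-r) (XX D F T m (-r))
      (-(4 * ik D F * XX D F T m (-r) ^ 2))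
      (-(ik D F * XX D F T m (-r) * (12 * XX D F T m (-r) - 10)))
      (-(ik D F * XX D F T m (-r) * (3 * XX D F T m (-r) - 5)))
      (-(6 / 5 * (1 + zz D F (-r)) * ik D F ^ 2)) ∧
    outR (S8l.prog.take 14) 0 [T, m, r] = 33 / 16 - F - 2 * m := by
  have := S8l.eq (r := r) (ik := ik D F) (W := wS D (-r)) (Y := yS D F (-r)) (X := XX D F T m (-r))
    rfl hD hF rfl rfl rfl rfl rfl rfl rfl rfl rfl rfl rfl rfl rfl rfl rfl rfl rfl rfl rfl rfl rfl
    rfl rfl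
  refine ⟨?_, this.2⟩
  rw [this.1]; simp only [gA, zz]
  generalize -r = t
  ring

theorem eqr (hD : D = -(1 - exp (-T))⁻¹) (hF : F = m - D) (T0 : 0 < T) {u : ℝ} (ht : t = u * T) :
    (T - t) ^ 4 * outR S8r.prog 0 [T, m, u] = gA D F t (XS D F T t)
      (-(4 * ik D F * XS D F T t ^ 2)) (-(ik D F * XS D F T t * (12 * XS D F T t - 10)))
      (-(ik D F * XS D F T t * (3 * XS D F T t - 5))) (-(6 / 5 * (1 + zz D F t) * ik D F ^ 2)) ∧
    outR (S8r.prog.take 14) 0 [T, m, u] = 33 / 16 - F - 2 * m := by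
  have := S8r.eq (ik := ik D F) (Y := yS D F t) rfl hD hF rfl rfl rfl ht rfl rfl rfl rfl rfl rfl rfl
    rfl rfl rfl rfl rfl rfl rfl rfl rfl rfl rfl rfl rfl rfl rfl rfl rfl rfl
  refine ⟨?_, this.2⟩
  rw [this.1]; simp only [gA, zz, XS, wS_saddle (D_exp hD T0) t]
  generalize ph1 (t / 2) * (1 + exp (-(t / 2))) / 2 * ((-1 - D) * ph1 (T - t)) = W,
    ik D F * exp ((2 * F - 1) * T) * muR (-1 - D) F (-(T - t)) = X
  generalize T - t = s
  ring

/-- the kernel minus the separator -/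
noncomputable def HC (D F t X : ℝ) : ℝ := HH D F t X (-(4 * ik D F * X ^ 2))
  (-(ik D F * X * (12 * X - 10))) (-(ik D F * X * (3 * X - 5)))
  (-(6 / 5 * (1 + zz D F t) * ik D F ^ 2))

theorem quad_pos {a b c y : ℝ} (hc : 0 < c) (hy : 0 < y) (h : 0 < 4 * a * c - b ^ 2) :
    0 < a * y ^ 2 + b * y + c := by
  refine (mul_pos_iff_of_pos_left (by positivity : 0 < 4 * c)).1 ?_
  nlinarith [mul_pos h (pow_pos hy 2), sq_nonneg (b * y + 2 * c)]

theorem tri_x (a : 2 ≤ F) (b : F ≤ 33 / 16) (l : 9 / 2 ≤ -((2 * F - 2) * t)) :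
    exp t ≤ 1 / 8 ∧ 4 * exp t ≤ exp ((F - 2) * t) := by
  have t1 : t ≤ -(36 / 17) := by nlinarith
  constructor
  · have k1 := (sum_le_exp_of_nonneg (x := 36 / 17) (by norm_num) 6).trans
      (exp_le_exp.2 (by linarith : 36 / 17 ≤ -t))
    norm_num [Finset.sum_range_succ, Nat.factorial] at k1
    rw [exp_neg, le_inv_comm₀ (by norm_num) (exp_pos t)] at k1
    exact k1.trans (by norm_num)
  · have k1 := quadratic_le_exp_of_nonneg (x := 135 / 68) (by norm_num)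
    have k2 : exp (135 / 68) ≤ exp ((F - 3) * t) := exp_le_exp.2 (by nlinarith)
    rw [show (F - 2) * t = (F - 3) * t + t by ring, exp_add]
    exact mul_le_mul_of_nonneg_right (by linarith) (exp_pos t).le

variable (hD : D = -(1 - exp (-T))⁻¹) (hF : F = m - D) (T0 : 5 / 8 ≤ T) (T1 : T ≤ 23 / 16)
  (m0 : -1 / 16 ≤ m) (m1 : m ≤ 1 / 16) (f0 : 11 / 8 ≤ F) (f1 : 0 ≤ 33 / 16 - F - 2 * m)
  (ht : t ∈ JR D)
include hD hF T0 T1 m0 m1 f0 f1 ht

theorem C_right (h0 : 0 < t) : 0 < XX D F T m t ∧ 0 < t * HC D F t (XX D F T m t) := by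
  have T2 : 0 < T := by linarith
  have F1 : 1 < F := by linarith
  have D0 : D < 0 := by linarith
  have h1 := D_exp hD T2
  have h2 : t < T := by
    have := jr_r ht
    rw [← h1] at this
    exact neg_lt_neg_iff.1 (exp_lt_exp.1 (by nlinarith))
  have h3 : t = t / T * T := by field_simp
  rw [← XS_eq h1 hF F1 D0]
  constructor
  · have i0 := ik_pos F1 D0
    have : 0 < T - t := by linarith
    have : 0 < muR (-1 - D) F (-(T - t)) := muR_pos (by
      have e : exp (-(T - t)) = exp (-T) * exp t := by rw [← exp_add]; ring_nf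
      have := mul_pos (sub_pos.2 (one_lt_exp_iff.2 h0)) (by linarith : 0 < -1 - D)
      show 0 < (1 + (-1 - D)) * exp (-(T - t)) - (-1 - D)
      rw [e]; linear_combination this + exp t * h1)
    unfold XS; positivity
  refine gA_sign ht h0.ne' ((mul_pos (pow_pos (sub_pos.2 h2) 4) (S8r.out0 (fun T m a _ _ _ ↦ ?_)
    T0 T1 m0 m1 (div_pos h0 T2).le ((div_le_one T2).2 h2.le) (div_pos h0 T2)
    (f1.trans_eq (eqr hD hF T2 h3).2.symm))).trans_eq (eqr hD hF T2 h3).1)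
  have T2 : 0 < T := by linarith
  obtain ⟨D, hD⟩ : ∃ D, D = -(1 - exp (-T))⁻¹ := ⟨_, rfl⟩
  obtain ⟨F, hF⟩ : ∃ F, F = m - D := ⟨_, rfl⟩
  have c1 := zz_cont (D := D) (F := F)
  have c2 : ContinuousAt (XS D F T) 0 := by
    have : Continuous (muR (-1 - D) F) :=
      continuous_iff_continuousAt.2 fun t ↦ (muR_an _ F t).continuousAt
    unfold XS; fun_prop
  exact cen_bigO (D := D) (F := F) (s := T) (k := fun t ↦ (T - t) ^ 4) (b0 := XS D F T)
    (b3 := fun t ↦ -(4 * ik D F * XS D F T t ^ 2))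
    (b2 := fun t ↦ -(ik D F * XS D F T t * (12 * XS D F T t - 10)))
    (b1 := fun t ↦ -(ik D F * XS D F T t * (3 * XS D F T t - 5)))
    (c := fun t ↦ -(6 / 5 * (1 + zz D F t) * ik D F ^ 2)) T2.ne' (by fun_prop)
    (by simpa using T2.ne') c2 (by fun_prop) (by fun_prop) (by fun_prop) (by fun_prop)
    fun u ↦ (eqr hD hF T2 (mul_comm ..)).1

theorem C_left (h0 : t < 0) (hX : 0 < XX D F T m t)
    (hc : (11 / 16 ≤ T ∧ F ≤ 31 / 16) ∨ (2 ≤ F ∧ F ≤ 33 / 16 ∧ D ≤ -33 / 16)) :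
    0 < t * HC D F t (XX D F T m t) := by
  rcases le_total (-1) t with k | k
  · obtain ⟨r, rfl⟩ : ∃ r, t = -r := ⟨-t, (neg_neg t).symm⟩
    have r0 : 0 < r := by linarith
    refine gA_sign ht h0.ne ((mul_pos one_pos (S8l.out0 (fun T m _ _ _ _ ↦ ?_) T0 T1 m0 m1 r0.le
      (by linarith) r0 (f1.trans_eq (eql hD hF r).2.symm))).trans_eq (eql hD hF r).1)
    obtain ⟨D, hD⟩ : ∃ D, D = -(1 - exp (-T))⁻¹ := ⟨_, rfl⟩
    obtain ⟨F, hF⟩ : ∃ F, F = m - D := ⟨_, rfl⟩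
    have c1 := zz_cont (D := D) (F := F)
    have c2 : ContinuousAt (XX D F T m) 0 := by unfold XX; fun_prop
    exact cen_bigO (D := D) (F := F) (s := -1) (k := fun _ ↦ 1) (b0 := XX D F T m)
      (b3 := fun t ↦ -(4 * ik D F * XX D F T m t ^ 2))
      (b2 := fun t ↦ -(ik D F * XX D F T m t * (12 * XX D F T m t - 10)))
      (b1 := fun t ↦ -(ik D F * XX D F T m t * (3 * XX D F T m t - 5)))
      (c := fun t ↦ -(6 / 5 * (1 + zz D F t) * ik D F ^ 2)) (by norm_num) continuousAt_const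
      one_ne_zero c2 (by fun_prop) (by fun_prop) (by fun_prop) (by fun_prop)
      fun u ↦ by rw [neg_one_mul]; exact (eql hD hF u).1
  have l0 : 3 / 4 ≤ -((2 * F - 2) * t) := by nlinarith
  have F1 : 1 < F := by linarith
  have D0 : D < 0 := by linarith
  have i0 := ik_pos F1 D0
  have v0 := vR_pos (F := F) ht h0.ne
  have w0 := W_pos ht h0
  have hz := (z_eq F1 D0 t).symm
  have hg := sqrt_v i0 v0
  have c0 := cc_pos F1 D0 h0
  have n0 : 0 < F * (2 * F - 1) * (F - 1) := mul_pos (mul_pos (by linarith) (by linarith))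
    (by linarith)
  have q0 := exp_pos ((2 * F - 2) * t)
  have g0 : 0 < (F - 1 - D)⁻¹ := inv_pos.2 (by linarith)
  obtain ⟨N, hN⟩ : ∃ N, N = F * (2 * F - 1) * (F - 1) := ⟨_, rfl⟩
  obtain ⟨W, hW⟩ : ∃ W, W = (1 + 2 * D) * exp t - (1 + D) * exp t ^ 2 - D := ⟨_, rfl⟩
  obtain ⟨p2, hp2⟩ : ∃ p, p = (pjR F ((1 + D) * exp t ^ 2) ((1 + 2 * D) * exp t) D).1 := ⟨_, rfl⟩
  obtain ⟨p3, hp3⟩ : ∃ p, p = (pjR F ((1 + D) * exp t ^ 2) ((1 + 2 * D) * exp t) D).2.1 := ⟨_, rfl⟩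
  obtain ⟨z, hz'⟩ : ∃ z, z = ik D F * vR D F t := ⟨_, rfl⟩
  obtain ⟨p, hp⟩ : ∃ p, p = (F - 1 - D)⁻¹ * exp ((2 * F - 2) * t) := ⟨_, rfl⟩
  obtain ⟨y, hy⟩ : ∃ y, y = m * exp ((2 * F - 1) * T + -((2 * F - 2) * t)) + cc D F t := ⟨_, rfl⟩
  obtain ⟨X, hX'⟩ : ∃ X, X = XX D F T m t := ⟨_, rfl⟩
  have hk : ik D F = N * (F - 1 - D)⁻¹ := by rw [hN, ik]
  rw [← hW] at w0
  rw [← hN] at n0
  rw [← hz'] at hg
  rw [← hz', ← hp] at hz
  have e5 : zz D F t = z := hz'.symm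
  have x1 : X = (F - 1 - D)⁻¹ * m * exp ((2 * F - 1) * T) + p * cc D F t := by
    rw [hX', XX, e5, hz]; ring
  have x2 : X = p * y := by
    have : exp ((2 * F - 2) * t) * exp ((2 * F - 1) * T + -((2 * F - 2) * t)) =
      exp ((2 * F - 1) * T) := by rw [← exp_add]; ring_nf
    rw [x1, hy, hp, ← this]; ring
  rw [← hX'] at hX ⊢
  have p0 : 0 < p := by rw [hp]; positivity
  have y0 : 0 < y := (mul_pos_iff_of_pos_left p0).1 (x2 ▸ hX)
  have z0 : 0 < z := by rw [hz']; positivity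
  have n1 := exp_pos ((F - 2) * t)
  have key : 0 < z ^ 2 * y * (-(z ^ 2 * p3 * y / 2) + N * W ^ 2 * ((1 + z * (5 / 2 - 3 * X)) * p2 +
      (5 / 2 - 3 / 2 * X) * W ^ 2 * (N * p))) + N ^ 2 * W ^ 5 * exp ((F - 2) * t) *
      (X * z * (√(ik D F * z))⁻¹ * ik D F + ik D F * (6 / 5) * (1 + z) * z ^ 2) := by
    rcases le_total (-((2 * F - 2) * t)) (9 / 2) with l | l
    · have e2 := congrArg exp (neg_neg ((2 * F - 2) * t)).symm
      exact S8m.pos0 (c := cc D F t) rfl hD hF rfl hN hk (t_eq F1 t) rfl rfl e2 hp rfl rfl hW rfl hp2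
        hp3 hz rfl hy x2 rfl T0 T1 m0 m1 l0 l f1 (sub_nonneg.2 f0)
    have q1 := exp_tail l
    rw [neg_neg] at q1
    have s0 : 0 ≤ N ^ 2 * W ^ 5 * exp ((F - 2) * t) * (X * z * (√(ik D F * z))⁻¹ * ik D F) := by
      positivity
    rcases hc with ⟨a, b⟩ | ⟨a, b, c⟩
    · obtain ⟨s, hs⟩ : ∃ s, s = -(9 / 2 * (2 * F - 2)⁻¹) := ⟨_, rfl⟩
      have ts : t ≤ s := by
        rw [t_eq F1 t, hs, neg_le_neg_iff]
        exact mul_le_mul_of_nonneg_right l (inv_pos.2 (by linarith only [F1])).le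
      have g := S8t.pos0 (c := cc D F t) (a := exp (t - s)) (x := exp t) rfl hD hF rfl hN hs rfl
        (by rw [← exp_add]; ring_nf) rfl hp rfl rfl hW rfl hp2 hp3 hz rfl x1 a T1 m0 m1
        (exp_pos _).le (exp_le_one_iff.2 (sub_nonpos.2 ts)) q0.le q1 (sub_nonneg.2 b)
        (sub_nonneg.2 f0)
      rw [← hk] at g
      have n2 : exp ((F - 2) * s) ≤ exp ((F - 2) * t) :=
        exp_le_exp.2 (mul_le_mul_of_nonpos_left ts (by linarith only [b]))
      have n3 := exp_pos ((F - 2) * s)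
      generalize (1 + z * (5 / 2 - 3 * X)) * p2 + (5 / 2 - 3 / 2 * X) * W ^ 2 * (N * p) = B at *
      have g1 := mul_pos (pow_pos z0 2) (quad_pos (a := -(z ^ 2 * p3 / 2)) (b := N * W ^ 2 * B)
        (c := N ^ 2 * W ^ 5 * exp ((F - 2) * s) * (ik D F * (6 / 5) * (1 + z))) (by positivity) y0
        ((mul_pos (by positivity : 0 < N ^ 2 * W ^ 4) g).trans_eq (by ring)))
      have g2 := mul_nonneg (sub_nonneg.2 n2)
        (by positivity : 0 ≤ N ^ 2 * W ^ 5 * (ik D F * (6 / 5) * (1 + z) * z ^ 2))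
      linear_combination g1 + g2 + s0
    obtain ⟨x3, x4⟩ := tri_x a b l
    have y1 : y ≤ cc D F t := by
      have := mul_nonneg (by linarith only [hF, b, c] : 0 ≤ -m)
        (exp_pos ((2 * F - 1) * T + -((2 * F - 2) * t))).le
      linarith only [this, hy]
    have x5 : 0 ≤ 5 / 2 - 3 / 2 * X := by
      have := mul_le_mul_of_nonneg_left y1 p0.le
      linarith only [this, x2, hz, z0]
    have d0 : -17 / 8 ≤ D := by linarith only [hF, b, m0]
    have u1 := (div_le_one c0).2 y1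
    have u2 := (div_mul_cancel₀ y c0.ne').symm
    have hW' : W = exp t * (1 + 2 * D - (1 + D) * exp t) - D := by rw [hW]; ring
    have hc' : cc D F t = 2 * F * (F - 1) * ((1 + 2 * D) * exp t) -
      (2 * F - 1) * ((F - 1) * ((1 + D) * exp t * exp t) + F * D) := by rw [cc]; ring
    have g0 := mul_nonneg (mul_nonneg (sub_nonneg.2 a) y0.le) (S8u.pos0 rfl hN hp rfl rfl hW' hc' rfl
      rfl rfl hz u2 rfl a b d0 c (exp_pos t).le x3 q0.le q1 (div_pos y0 c0).le u1).le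
    have g1 := mul_pos (exp_pos t) (S8u.pos1 rfl hN hp rfl rfl hW' hc' rfl rfl rfl hz u2 rfl a b
      d0 c (exp_pos t).le x3 q0.le q1 (div_pos y0 c0).le u1)
    have g2 : 0 ≤ y * N ^ 2 * W ^ 4 * p * (5 / 2 - 3 / 2 * X) := by positivity
    have g3 := mul_nonneg (sub_nonneg.2 x4)
      (by positivity : 0 ≤ N ^ 2 * W ^ 5 * (ik D F * (6 / 5) * (1 + z)))
    have g4 := mul_pos (pow_pos z0 2) (add_pos_of_pos_of_nonneg (add_pos_of_nonneg_of_pos g0 g1)
      (add_nonneg g2 g3))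
    rw [← x2] at g4
    rw [hk] at g4 s0 ⊢
    refine (add_pos_of_pos_of_nonneg g4 s0).trans_eq ?_
    rw [hp2, hp3]; simp only [pjR]; ring
  refine gL_sign ht h0 ((mul_pos_iff_of_pos_left (by positivity : 0 < N ^ 2 * ik D F)).1
    ((mul_pos (pow_pos q0 2) key).trans_eq ?_))
  simp only [gL]
  rw [← hW, ← hp2, ← hp3, e5, ← hg, x2, hp]
  generalize (√(ik D F * z))⁻¹ = g
  rw [hz', hk]; ring

omit ht in
theorem C_holds (hc : (11 / 16 ≤ T ∧ F ≤ 31 / 16) ∨ (2 ≤ F ∧ F ≤ 33 / 16 ∧ D ≤ -33 / 16)) :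
    NoThree D F := by
  have i0 := ik_pos (F := F) (D := D) (by linarith) (by linarith)
  obtain ⟨V, hV⟩ : ∃ V, V = 1 + (F - 1 - D)⁻¹ * m * exp ((2 * F - 1) * T) := ⟨_, rfl⟩
  have e1 : ∀ t, XX D F T m t = V - ik D F * vR D F t := fun t ↦ by rw [hV]; rfl
  refine Crit1.noThree ⟨⟨0, 0, -1, 0, ik D F * V / 2, -(5 / 2 * ik D F), 0, -(ik D F ^ 2 / 2),
    ik D F ^ 2 / 2, 0, 0, 0⟩, -1, fun h ↦ by simp [Gp.P], fun a ha b hb a0 b0 e ↦ ?_⟩
  obtain ⟨h1, h2⟩ := C_right hD hF T0 T1 m0 m1 f0 f1 hb b0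
  have h3 := neg_of_mul_pos_right (C_left hD hF T0 T1 m0 m1 f0 f1 ha a0
    (by rw [e1, e, ← e1]; exact h1) hc) a0.le
  have h4 := (mul_pos_iff_of_pos_left b0).1 h2
  have v0 := vR_pos (F := F) hb b0.ne'
  rw [e1] at h1 h3 h4
  constructor
  · have := mul_pos (mul_pos i0 v0) h1
    simp only [Gp.Q]; linarith
  refine lt_of_mul_lt_mul_left ?_ h1.le
  rw [Gp.K_eq ha a0.ne, Gp.K_eq hb b0.ne']
  simp only [HC, HH, psi, show ∀ t, zz D F t = ik D F * vR D F t from fun _ ↦ rfl, e] at h3 h4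
  simp only [Gp.P, Gp.C3, Gp.C2, Gp.C1, Gp.C0, e]
  linear_combination h3 + h4

end Pool.Agent.Lib.MP_d6150d_an.S8
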