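import Pool.Agent.Lib.MP_d6150d_an.S1LKey
import Pool.Agent.Lib.MP_d6150d_an.SchR
import Pool.Agent.Lib.MP_d6150d_an.Loc2

/-! The strip `S8`: the identities behind the charts. -/

namespace Pool.Agent.Lib.MP_d6150d_an.S8

open Real Set Filter Topology Asymptotics

variable {D F t a0 a3 a2 a1 e : ℝ}

/-- the basic kernel -/
noncomputable def psi (D F t : ℝ) : ℝ := 4 * U2 D F t + gR D F t

/-- the general form of a kernel minus a separator -/
noncomputable def HH (D F t a0 a3 a2 a1 e : ℝ) : ℝ := a0 * psi D F t +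
  vR D F t * (a3 * U3 D F t + a2 * U2 D F t + a1 * U1 D F t) + e * vR D F t ^ 2

/-- the form near the center -/
noncomputable def gA (D F t a0 a3 a2 a1 e : ℝ) : ℝ :=
  let v := t ^ 2 * muR D F t
  let p := pjR F ((1 + D) * exp (t / 2)) ((1 + 2 * D) * exp (-(t / 2))) (D * exp (-(t / 2)) ^ 3)
  v * a3 * (yS D F t ^ 3 * p.2.1) + (v * a2 + 4 * a0) * (yS D F t ^ 2 * p.1 * wS D t ^ 2) +
    v * a1 * (yS D F t * wS D t ^ 4) +
    wS D t ^ 5 * exp (-(F * t)) * muR D F t * (a0 * (√(muR D F t))⁻¹ + e * (t * v))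

theorem HH_hom {l s P Q R Y W : ℝ} (ht : t ∈ JR D) (h0 : t ≠ 0) (hs : s ≠ 0)
    (hP : P = l * PR D t) (hQ : Q = l * QR D t) (hR : R = l * D) (hY : s ^ 2 * Y = l * yR D F t)
    (hW : s * W = l * wR D t) : W ^ 5 * HH D F t a0 a3 a2 a1 e = s * exp (F * t) *
      (vR D F t * a3 * (Y ^ 3 * (pjR F P Q R).2.1) +
        (vR D F t * a2 + 4 * a0) * (Y ^ 2 * (pjR F P Q R).1 * W ^ 2) +
        vR D F t * a1 * (Y * W ^ 4)) + W ^ 5 * (a0 * gR D F t + e * vR D F t ^ 2) := by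
  have hw := wR_ne ht h0
  obtain rfl : Y = l * yR D F t / s ^ 2 := by rw [← hY]; field_simp
  obtain rfl : W = l * wR D t / s := by rw [← hW]; field_simp
  subst hP hQ hR
  simp only [HH, psi, pjR_smul, U1, U2, U3]
  field_simp
  ring

theorem gA_eq (ht : t ∈ JR D) (h0 : t ≠ 0) :
    t * exp (F * t) * gA D F t a0 a3 a2 a1 e = wS D t ^ 5 * HH D F t a0 a3 a2 a1 e := by
  have h1 := half_mul t
  have h2 : exp (F * t) * exp (-(F * t)) = 1 := by rw [← exp_add]; simp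
  have h3 : exp ((2 - 2 * F) * t) = exp (t / 2) ^ 4 * exp (-(F * t)) ^ 2 := by
    rw [← exp_nat_mul, ← exp_nat_mul, ← exp_add]; congr 1; push_cast; ring
  have h4 : muR D F t * (√(muR D F t))⁻¹ = √(muR D F t) := div_sqrt
  rw [HH_hom (F := F) (l := exp (-(t / 2)) ^ 3) (P := (1 + D) * exp (t / 2))
    (Q := (1 + 2 * D) * exp (-(t / 2))) (R := D * exp (-(t / 2)) ^ 3) (Y := yS D F t) ht h0 h0
    (by rw [PR, half_sq t]
        generalize exp (t / 2) = x, exp (-(t / 2)) = z at *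
        linear_combination -(1 + D) * x * ((x * z) ^ 2 + x * z + 1) * h1)
    (by rw [QR, half_sq t]
        generalize exp (t / 2) = x, exp (-(t / 2)) = z at *
        linear_combination -(1 + 2 * D) * z * (x * z + 1) * h1) (mul_comm _ _)
    (by rw [yR, yS, vR, h3]
        generalize exp (t / 2) = x, exp (-(t / 2)) = z at *
        linear_combination -(t ^ 2 * muR D F t * exp (-(F * t)) ^ 2 * x / 2) *
          ((x * z) ^ 2 + x * z + 1) * h1) (wS_eq D t)]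
  simp only [gA, gR, vR]
  generalize pjR F _ _ _ = p
  linear_combination wS D t ^ 5 * t * muR D F t * (a0 * (√(muR D F t))⁻¹ +
    e * (t * (t ^ 2 * muR D F t))) * h2 + wS D t ^ 5 * t * a0 * h4

theorem gA_sign (ht : t ∈ JR D) (h0 : t ≠ 0) (h : 0 < gA D F t a0 a3 a2 a1 e) :
    0 < t * HH D F t a0 a3 a2 a1 e := by
  refine (mul_pos_iff_of_pos_left (pow_pos (wS_pos ht) 5)).1 ?_
  have h3 : 0 < t ^ 2 * exp (F * t) * gA D F t a0 a3 a2 a1 e := by positivity
  linear_combination h3 + t * gA_eq (F := F) (a0 := a0) (a3 := a3) (a2 := a2) (a1 := a1) (e := e)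
    ht h0

/-- the operator of order zero -/
def oN : Gp := ⟨0, 0, 1, 0, 0, 0, 0, 0, 0, 0, 0, 0⟩

theorem oN_K (ht : t ∈ JR D) : oN.K D F t = psi D F t := by
  rw [psi, U2_eq ht]
  simp only [Gp.K, Gp.P, Gp.C3, Gp.C2, Gp.C1, Gp.C0, oN]; ring

theorem psi_ht : HT D F (psi D F) fun t ↦ 8 * U3 D F t + 12 * U2 D F t + psi D F t :=
  ((ht_U2.smul 4).add HT.g).congr fun t _ ↦ by rw [psi]; ring

theorem psi_bigO : psi D F =O[𝓝 0] fun t ↦ t ^ 3 := by
  refine (oN.KN_center (D := D) (F := F) 0 (f := fun _ ↦ 0) (E := fun _ ↦ 0) analyticAt_const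
    continuousAt_const).congr' ?_ EventuallyEq.rfl
  filter_upwards [(JR_open D).mem_nhds (zero_mem_JR D)] with t ht
  rw [Gp.KN, oN_K ht, (HT.const 0).eq t ht]; ring

theorem an_bigO {f : ℝ → ℝ} (h : AnJ D f) (h0 : f 0 = 0) : f =O[𝓝 0] fun t ↦ t := by
  simpa [h0] using (h 0 (zero_mem_JR D)).differentiableAt.hasDerivAt.isBigO_sub

theorem HH_bigO {b0 b3 b2 b1 c : ℝ → ℝ} (h0 : ContinuousAt b0 0) (h3 : ContinuousAt b3 0)
    (h2 : ContinuousAt b2 0) (h1 : ContinuousAt b1 0) (hc : ContinuousAt c 0) :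
    (fun t ↦ HH D F t (b0 t) (b3 t) (b2 t) (b1 t) (c t)) =O[𝓝 0] fun t ↦ t ^ 3 := by
  have m := (muR_an D F 0).continuousAt
  have u3 := an_bigO (ht_U3 (D := D) (F := F)).an (by simp [U3, yR, vR])
  have u2 := an_bigO (ht_U2 (D := D) (F := F)).an (by simp [U2, yR, vR])
  have u1 := an_bigO (ht_U1 (D := D) (F := F)).an (by simp [U1, yR, vR])
  have k : ∀ {b u : ℝ → ℝ}, ContinuousAt b 0 → (u =O[𝓝 0] fun t ↦ t) →
      (fun t ↦ t ^ 2 * (b t * u t)) =O[𝓝 0] fun t ↦ t ^ 3 := fun hb hu ↦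
    ((isBigO_refl (fun t : ℝ ↦ t ^ 2) _).mul ((hb.isBigO_one ℝ).mul hu)).congr_right
      fun t ↦ by ring
  refine ((((((h0.isBigO_one ℝ).mul (psi_bigO (D := D) (F := F))).congr_right
    fun t ↦ one_mul _).add (k (m.mul h3) u3)).add (k (m.mul h2) u2)).add (k (m.mul h1) u1)).add
    (k (b := fun t ↦ c t * t * muR D F t ^ 2) (by fun_prop) (isBigO_refl _ _)) |>.congr_left
      fun t ↦ ?_
  simp only [HH, vR, Pi.mul_apply]; ring

theorem cen_bigO {f k b0 b3 b2 b1 c : ℝ → ℝ} {s : ℝ} (hs : s ≠ 0) (hk : ContinuousAt k 0)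
    (k0 : k 0 ≠ 0) (h0 : ContinuousAt b0 0) (h3 : ContinuousAt b3 0) (h2 : ContinuousAt b2 0)
    (h1 : ContinuousAt b1 0) (hc : ContinuousAt c 0)
    (h : ∀ u, k (s * u) * f u = gA D F (s * u) (b0 (s * u)) (b3 (s * u)) (b2 (s * u)) (b1 (s * u))
      (c (s * u))) : f =O[𝓝[>] 0] fun u ↦ u ^ 2 := by
  have p1 : ContinuousAt (fun t : ℝ ↦ ph1 (t / 2)) 0 :=
    ContinuousAt.comp_of_eq (g := ph1) (f := fun t : ℝ ↦ t / 2) (ph1_an 0).continuousAt
      (by fun_prop) (zero_div _)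
  have p2 : ContinuousAt (fun t ↦ wS D t ^ 5 / (exp (F * t) * k t)) 0 := by
    unfold wS
    exact ContinuousAt.div (by fun_prop) (by fun_prop) (by simpa using k0)
  have T0 : Tendsto (fun u : ℝ ↦ s * u) (𝓝[>] 0) (𝓝 0) :=
    ((continuous_const_mul s).tendsto' 0 0 (mul_zero s)).mono_left nhdsWithin_le_nhds
  refine ((((HH_bigO (D := D) (F := F) h0 h3 h2 h1 hc).mul (p2.isBigO_one ℝ)).comp_tendsto T0).mul
    (isBigO_refl (fun u : ℝ ↦ (s * u)⁻¹) _)).congr' ?_ EventuallyEq.rfl |>.trans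
      (((isBigO_refl (fun u : ℝ ↦ u ^ 2) _).const_mul_left (s ^ 2)).congr' ?_ EventuallyEq.rfl)
  · filter_upwards [self_mem_nhdsWithin, T0.eventually ((JR_open _).mem_nhds (zero_mem_JR D)),
      T0.eventually (hk.eventually_ne k0)] with u u0 ht kk
    have t0 : s * u ≠ 0 := mul_ne_zero hs (ne_of_gt u0)
    have := gA_eq (F := F) (a0 := b0 (s * u)) (a3 := b3 (s * u)) (a2 := b2 (s * u))
      (a1 := b1 (s * u)) (e := c (s * u)) ht t0
    rw [← h u] at this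
    simp only [Function.comp]
    generalize s * u = t at *
    field_simp
    linear_combination -this
  · filter_upwards [self_mem_nhdsWithin] with u u0
    have u0 : u ≠ 0 := ne_of_gt u0
    simp only [Function.comp]
    field_simp

/-- the form on the left branch -/
noncomputable def gL (D F t a0 a3 a2 a1 e : ℝ) : ℝ :=
  let v := vR D F t
  let q := exp ((2 * F - 2) * t)
  let P := (1 + D) * exp t ^ 2
  let Q := (1 + 2 * D) * exp t
  let W := Q - P - D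
  v ^ 4 * a3 * (pjR F P Q D).2.1 / 8 + q * ((v * a2 + 4 * a0) * v ^ 2 * (pjR F P Q D).1 * W ^ 2 / 4) +
    q ^ 2 * (v ^ 2 * a1 * W ^ 4 / 2) +
    q ^ 2 * exp ((F - 2) * t) * W ^ 5 * (a0 * √v - e * v ^ 2)

theorem W_pos (ht : t ∈ JR D) (h0 : t < 0) : 0 < (1 + 2 * D) * exp t - (1 + D) * exp t ^ 2 - D := by
  have h1 : 0 < (1 + D) * exp t - D := ht
  have h2 := mul_pos (sub_pos.2 (exp_lt_one_iff.2 h0)) h1
  linarith

theorem gL_sign (ht : t ∈ JR D) (h0 : t < 0) (h : 0 < gL D F t a0 a3 a2 a1 e) :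
    0 < t * HH D F t a0 a3 a2 a1 e := by
  have hw := W_pos ht h0
  have key := HH_hom (F := F) (a0 := a0) (a3 := a3) (a2 := a2) (a1 := a1) (e := e) (l := 1)
    (s := -1) (P := (1 + D) * exp t ^ 2) (Q := (1 + 2 * D) * exp t) (R := D) (Y := yR D F t)
    (W := (1 + 2 * D) * exp t - (1 + D) * exp t ^ 2 - D) ht h0.ne (by norm_num)
    (one_mul _).symm (one_mul _).symm (one_mul _).symm (by ring) (by simp only [wR, PR, QR]; ring)
  have g : gR D F t = -√(vR D F t) := by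
    rw [← gR_sq ht, sqrt_sq_eq_abs, abs_of_neg (gR_neg ht h0), neg_neg]
  have e1 := exp_y (F := F) t
  have e2 : exp ((F - 2) * t) * exp (F * t) = exp ((2 * F - 2) * t) := by
    rw [← exp_add]; ring_nf
  have q0 := exp_pos ((2 * F - 2) * t)
  have f0 := exp_pos (F * t)
  refine mul_pos_of_neg_of_neg h0 (neg_of_mul_neg_right (a := exp ((2 * F - 2) * t) ^ 3 *
    ((1 + 2 * D) * exp t - (1 + D) * exp t ^ 2 - D) ^ 5) ?_
    (mul_pos (pow_pos q0 3) (pow_pos hw 5)).le)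
  have h3 := mul_pos f0 h
  rw [mul_assoc, key, g, yR]
  simp only [gL] at h3
  generalize pjR F _ _ _ = p, (1 + 2 * D) * exp t - (1 + D) * exp t ^ 2 - D = W,
    exp ((2 * F - 2) * t) = q, exp ((2 - 2 * F) * t) = r, vR D F t = v at *
  linear_combination h3 - exp (F * t) * (v ^ 4 * a3 * p.2.1 / 8 * ((q * r) ^ 2 + q * r + 1) +
    q * ((v * a2 + 4 * a0) * v ^ 2 * p.1 * W ^ 2 / 4) * (q * r + 1) +
    q ^ 2 * (v ^ 2 * a1 * W ^ 4 / 2)) * e1 + q ^ 2 * W ^ 5 * (a0 * √v - e * v ^ 2) * e2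

/-- the inverse of the level at infinity -/
noncomputable def ik (D F : ℝ) : ℝ := F * (2 * F - 1) * (F - 1) * (F - 1 - D)⁻¹

/-- the conic -/
noncomputable def cc (D F t : ℝ) : ℝ := 2 * F * (F - 1) * ((1 + 2 * D) * exp t) -
  (2 * F - 1) * ((F - 1) * ((1 + D) * exp t ^ 2) + F * D)

theorem z_eq (hF : 1 < F) (hD : D < 0) (t : ℝ) :
    1 - (F - 1 - D)⁻¹ * exp ((2 * F - 2) * t) * cc D F t = ik D F * vR D F t := by
  have h1 := vR_level (D := D) hF t
  have h2 : (F - 1 - D) * (F - 1 - D)⁻¹ = 1 := mul_inv_cancel₀ (by linarith)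
  have h3 : exp t * exp (-t) = 1 := by rw [← exp_add]; simp
  rw [exp_a1] at h1
  rw [ik, cc]
  generalize exp ((2 * F - 2) * t) = q, exp t = x, exp (-t) = r, (F - 1 - D)⁻¹ = i at *
  linear_combination -i * h1 - h2 - i * q * (D * F * (2 * F - 1) * (x * r + 1) -
    2 * (1 + 2 * D) * F * (F - 1) * x) * h3

theorem ik_pos (hF : 1 < F) (hD : D < 0) : 0 < ik D F := by
  have : 0 < F - 1 := by linarith
  have : 0 < 2 * F - 1 := by linarith
  have : 0 < F - 1 - D := by linarith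
  unfold ik; positivity

theorem cc_pos (hF : 1 < F) (hD : D < 0) (h0 : t < 0) : 0 < cc D F t := by
  have : 0 < 2 * F - 1 := by linarith
  have : 0 < F - 1 - D := by linarith
  have : 0 < -D := by linarith
  have : 0 < 1 - exp t := sub_pos.2 (exp_lt_one_iff.2 h0)
  rw [show cc D F t = (F - 1 - D) * exp t ^ 2 + 2 * F * (F - 1 - D) * exp t * (1 - exp t) +
    -D * F * (2 * F - 1) * (1 - exp t) ^ 2 by rw [cc]; ring]
  positivity

theorem z_lt (hF : 1 < F) (hD : D < 0) (h0 : t < 0) : ik D F * vR D F t < 1 := by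
  have := cc_pos hF hD h0
  have : 0 < F - 1 - D := by linarith
  have : 0 < (F - 1 - D)⁻¹ * exp ((2 * F - 2) * t) * cc D F t := by positivity
  linarith [z_eq hF hD t]

theorem sqrt_v {k v : ℝ} (hk : 0 < k) (hv : 0 < v) : k * v * (√(k * (k * v)))⁻¹ = √v := by
  have := sqrt_pos.2 hv
  rw [← mul_assoc, sqrt_mul (mul_self_nonneg k), sqrt_mul_self hk.le]
  field_simp
  exact (sq_sqrt hv.le).symm

theorem exp_tail {L : ℝ} (h : 9 / 2 ≤ L) : exp (-L) ≤ 1 / 90 := by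
  have h1 := sum_le_exp_of_nonneg (x := 9 / 2) (by norm_num) 16
  rw [exp_neg, inv_le_comm₀ (exp_pos _) (by norm_num)]
  refine le_trans (le_trans ?_ h1) (exp_le_exp.2 h)
  norm_num [Finset.sum_range_succ, Nat.factorial]

end Pool.Agent.Lib.MP_d6150d_an.S8
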