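import Pool.Agent.Lib.MP_d6150d_an.S8aD

/-! A generated chart: the computations. -/

namespace Pool.Agent.Lib.MP_d6150d_an.S8a

theorem k0 : chk C 0xaad082aad2012ad28a821082aa80822108d182288882222 [(175921860444160,
    193514046488576), (-8796093022208, 8796093022208), (0, 263882790666240)] = true := by
  decide +kernel

end Pool.Agent.Lib.MP_d6150d_an.S8a
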