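import Pool.Agent.Lib.MP_d6150d_an.S8bD

/-! A generated chart: the computations. -/

namespace Pool.Agent.Lib.MP_d6150d_an.S8b

theorem k0 : chk C 0x882888222 [(175921860444160, 193514046488576), (-8796093022208, 8796093022208),
    (0, 140737488355328)] = true := by
  decide +kernel

end Pool.Agent.Lib.MP_d6150d_an.S8b
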