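import Pool.Agent.Lib.MP_d6150d_an.S8cD

/-! A generated chart: the computations. -/

namespace Pool.Agent.Lib.MP_d6150d_an.S8c

theorem k0 : chk C 0x8881088088880228818818881022022 [(175921860444160, 193514046488576),
    (-8796093022208, 8796093022208), (70368744177664, 633318697598976)] = true := by
  decide +kernel

end Pool.Agent.Lib.MP_d6150d_an.S8c
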