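import Pool.Agent.Lib.MP_d6150d_an.S8dD

/-! A generated chart: the computations. -/

namespace Pool.Agent.Lib.MP_d6150d_an.S8d

theorem k0 : chk C 0x880 [(175921860444160, 193514046488576), (-8796093022208, 8796093022208), (0,
    1563749870615), (0, 1563749870615)] = true := by
  decide +kernel

end Pool.Agent.Lib.MP_d6150d_an.S8d
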