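import Pool.Agent.Lib.MP_d6150d_an.GMac
import Pool.Agent.Lib.MP_d6150d_an.S8dK0

/-! A generated chart: the inequality. -/

namespace Pool.Agent.Lib.MP_d6150d_an.S8d

set_option linter.unnecessarySeqFocus false
set_option linter.unusedTactic false
set_option linter.unusedVariables false

theorem gd : Gd C [(175921860444160, 193514046488576), (-8796093022208, 8796093022208), (0,
    1563749870615), (0, 1563749870615)] := chk_sound k0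

set_option maxRecDepth 100000 in
theorem eq {F m x q D iG N ik p P Q W c p2 p3 z z13 g a b : ℝ} (hD : D = m - F) (hiG : iG = (F - 1 -
    D)⁻¹) (hN : N = F * (2 * F - 1) * (F - 1)) (hik : ik = N * iG) (hp : p = iG * q) (hP : P = (1 +
    D) * x ^ 2) (hQ : Q = (1 + 2 * D) * x) (hW : W = Q - P - D) (hc : c = 2 * F * (F - 1) * Q - (2 *
    F - 1) * ((F - 1) * P + F * D)) (hp2 : p2 = (pjR F P Q D).1) (hp3 : p3 = (pjR F P Q D).2.1) (hz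
    : z = 1 - p * c) (hz13 : z13 = (√(ik * z))⁻¹) (hg : g = z * z13) (ha : a = 1 - 15 / 8 * z ^ 2)
    (hb : b = 15 / 8 * z * (1 - z)) : outR prog 0 [F, m, x, q] = a * p2 ∧ outR prog 1 [F, m, x, q] =
    N * (a + 4 * b) * p2 * W ^ 2 + 15 / 8 * z ^ 2 * c * p3 ∧ outR prog 2 [F, m, x, q] = 15 / 8 * z ^
    2 + a * g ∧ outR prog 3 [F, m, x, q] = 15 / 8 * z ^ 2 + (a + b) * g := by
  replace hD : D = (m - F) := hD.trans (by push_cast <;> ring)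
  replace hiG : iG = ((F - (Int.cast (1) : ℝ)) - D)⁻¹ := hiG.trans (by push_cast <;> ring)
  replace hN : N = ((F * (((Int.cast (2) : ℝ) * F) - (Int.cast (1) : ℝ))) * (F - (Int.cast (1) :
    ℝ))) := hN.trans (by push_cast <;> ring)
  replace hik : ik = (N * iG) := hik.trans (by push_cast <;> ring)
  replace hp : p = (iG * q) := hp.trans (by push_cast <;> ring)
  replace hP : P = (((Int.cast (1) : ℝ) + D) * (x * x)) := hP.trans (by push_cast <;> ring)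
  replace hQ : Q = (((Int.cast (1) : ℝ) + ((Int.cast (2) : ℝ) * D)) * x) := hQ.trans (by push_cast
    <;> ring)
  replace hW : W = ((Q - P) - D) := hW.trans (by push_cast <;> ring)
  replace hc : c = (((((Int.cast (2) : ℝ) * F) * (F - (Int.cast (1) : ℝ))) * Q) - ((((Int.cast (2) :
    ℝ) * F) - (Int.cast (1) : ℝ)) * (((F - (Int.cast (1) : ℝ)) * P) + (F * D)))) := hc.trans (by
    push_cast <;> ring)
  replace hp2 : p2 = (mPj F P Q D).1 := hp2.trans (mPj_0 ..)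
  replace hp3 : p3 = (mPj F P Q D).2.1 := hp3.trans (mPj_1 ..)
  replace hz : z = ((Int.cast (1) : ℝ) - (p * c)) := hz.trans (by push_cast <;> ring)
  replace hz13 : z13 = (√(ik * z))⁻¹ := hz13.trans (congrArg (fun x : ℝ ↦ (√x)⁻¹) (by push_cast <;>
    ring))
  replace hg : g = (z * z13) := hg.trans (by push_cast <;> ring)
  replace ha : a = ((Int.cast (1) : ℝ) - (((Int.cast (15) : ℝ) / (Nat.cast 8 : ℝ)) * (z * z))) :=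
    ha.trans (by push_cast <;> ring)
  replace hb : b = ((((Int.cast (15) : ℝ) / (Nat.cast 8 : ℝ)) * z) * ((Int.cast (1) : ℝ) - z)) :=
    hb.trans (by push_cast <;> ring)
  have e0 : (a * p2) = a * p2 := by push_cast <;> ring
  have e1 : ((((N * (a + ((Int.cast (4) : ℝ) * b))) * p2) * (W * W)) + (((((Int.cast (15) : ℝ) /
    (Nat.cast 8 : ℝ)) * (z * z)) * c) * p3)) = N * (a + 4 * b) * p2 * W ^ 2 + 15 / 8 * z ^ 2 * c *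
    p3 := by push_cast <;> ring
  have e2 : ((((Int.cast (15) : ℝ) / (Nat.cast 8 : ℝ)) * (z * z)) + (a * g)) = 15 / 8 * z ^ 2 + a *
    g := by push_cast <;> ring
  have e3 : ((((Int.cast (15) : ℝ) / (Nat.cast 8 : ℝ)) * (z * z)) + ((a + b) * g)) = 15 / 8 * z ^ 2
    + (a + b) * g := by push_cast <;> ring
  subst hD hiG hN hik hp hP hQ hW hc hp2 hp3 hz hz13 hg ha hb
  exact ⟨Eq.trans rfl e0, Eq.trans rfl e1, Eq.trans rfl e2, Eq.trans rfl e3⟩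

theorem l0 : ((175921860444160 : ℤ) : ℝ) / 2 ^ 47 = 5 / 4 := by norm_num
theorem u0 : (11 / 8 : ℝ) = ((193514046488576 : ℤ) : ℝ) / 2 ^ 47 := by norm_num
theorem l1 : ((-8796093022208 : ℤ) : ℝ) / 2 ^ 47 = -1 / 16 := by norm_num
theorem u1 : (1 / 16 : ℝ) = ((8796093022208 : ℤ) : ℝ) / 2 ^ 47 := by norm_num
theorem l2 : ((0 : ℤ) : ℝ) / 2 ^ 47 = 0 := by norm_num
theorem u2 : (1 / 90 : ℝ) ≤ ((1563749870615 : ℤ) : ℝ) / 2 ^ 47 := by norm_num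
theorem l3 : ((0 : ℤ) : ℝ) / 2 ^ 47 = 0 := by norm_num
theorem u3 : (1 / 90 : ℝ) ≤ ((1563749870615 : ℤ) : ℝ) / 2 ^ 47 := by norm_num

theorem out0 {F m x q : ℝ} (a0 : 5 / 4 ≤ F) (b0 : F ≤ 11 / 8) (a1 : -1 / 16 ≤ m) (b1 : m ≤ 1 / 16)
    (a2 : 0 ≤ x) (b2 : x ≤ 1 / 90) (a3 : 0 ≤ q) (b3 : q ≤ 1 / 90) : 0 < outR prog 0 [F, m, x, q] :=
  gd 0 (by decide) [F, m, x, q] (.cons ⟨l0.le.trans a0, b0.trans u0.le⟩ (.cons ⟨l1.le.trans a1,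
    b1.trans u1.le⟩ (.cons ⟨l2.le.trans a2, b2.trans u2⟩ (.cons ⟨l3.le.trans a3, b3.trans u3⟩
    (.nil))))) ⟨nofun, nofun, nofun, nofun, trivial⟩ (List.forall_mem_nil _) (Van.of0 rfl) (nofun)

theorem pos0 {F m x q D iG N ik p P Q W c p2 p3 z z13 g a b : ℝ} (hD : D = m - F) (hiG : iG = (F - 1
    - D)⁻¹) (hN : N = F * (2 * F - 1) * (F - 1)) (hik : ik = N * iG) (hp : p = iG * q) (hP : P = (1
    + D) * x ^ 2) (hQ : Q = (1 + 2 * D) * x) (hW : W = Q - P - D) (hc : c = 2 * F * (F - 1) * Q - (2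
    * F - 1) * ((F - 1) * P + F * D)) (hp2 : p2 = (pjR F P Q D).1) (hp3 : p3 = (pjR F P Q D).2.1)
    (hz : z = 1 - p * c) (hz13 : z13 = (√(ik * z))⁻¹) (hg : g = z * z13) (ha : a = 1 - 15 / 8 * z ^
    2) (hb : b = 15 / 8 * z * (1 - z)) (a0 : 5 / 4 ≤ F) (b0 : F ≤ 11 / 8) (a1 : -1 / 16 ≤ m) (b1 : m
    ≤ 1 / 16) (a2 : 0 ≤ x) (b2 : x ≤ 1 / 90) (a3 : 0 ≤ q) (b3 : q ≤ 1 / 90) : 0 < a * p2 :=
  have e := eq hD hiG hN hik hp hP hQ hW hc hp2 hp3 hz hz13 hg ha hb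
  (out0 a0 b0 a1 b1 a2 b2 a3 b3).trans_eq e.1

theorem out1 {F m x q : ℝ} (a0 : 5 / 4 ≤ F) (b0 : F ≤ 11 / 8) (a1 : -1 / 16 ≤ m) (b1 : m ≤ 1 / 16)
    (a2 : 0 ≤ x) (b2 : x ≤ 1 / 90) (a3 : 0 ≤ q) (b3 : q ≤ 1 / 90) : 0 < outR prog 1 [F, m, x, q] :=
  gd 1 (by decide) [F, m, x, q] (.cons ⟨l0.le.trans a0, b0.trans u0.le⟩ (.cons ⟨l1.le.trans a1,
    b1.trans u1.le⟩ (.cons ⟨l2.le.trans a2, b2.trans u2⟩ (.cons ⟨l3.le.trans a3, b3.trans u3⟩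
    (.nil))))) ⟨nofun, nofun, nofun, nofun, trivial⟩ (List.forall_mem_nil _) (Van.of0 rfl) (nofun)

theorem pos1 {F m x q D iG N ik p P Q W c p2 p3 z z13 g a b : ℝ} (hD : D = m - F) (hiG : iG = (F - 1
    - D)⁻¹) (hN : N = F * (2 * F - 1) * (F - 1)) (hik : ik = N * iG) (hp : p = iG * q) (hP : P = (1
    + D) * x ^ 2) (hQ : Q = (1 + 2 * D) * x) (hW : W = Q - P - D) (hc : c = 2 * F * (F - 1) * Q - (2
    * F - 1) * ((F - 1) * P + F * D)) (hp2 : p2 = (pjR F P Q D).1) (hp3 : p3 = (pjR F P Q D).2.1)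
    (hz : z = 1 - p * c) (hz13 : z13 = (√(ik * z))⁻¹) (hg : g = z * z13) (ha : a = 1 - 15 / 8 * z ^
    2) (hb : b = 15 / 8 * z * (1 - z)) (a0 : 5 / 4 ≤ F) (b0 : F ≤ 11 / 8) (a1 : -1 / 16 ≤ m) (b1 : m
    ≤ 1 / 16) (a2 : 0 ≤ x) (b2 : x ≤ 1 / 90) (a3 : 0 ≤ q) (b3 : q ≤ 1 / 90) : 0 < N * (a + 4 * b) *
    p2 * W ^ 2 + 15 / 8 * z ^ 2 * c * p3 :=
  have e := eq hD hiG hN hik hp hP hQ hW hc hp2 hp3 hz hz13 hg ha hb
  (out1 a0 b0 a1 b1 a2 b2 a3 b3).trans_eq e.2.1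

theorem out2 {F m x q : ℝ} (a0 : 5 / 4 ≤ F) (b0 : F ≤ 11 / 8) (a1 : -1 / 16 ≤ m) (b1 : m ≤ 1 / 16)
    (a2 : 0 ≤ x) (b2 : x ≤ 1 / 90) (a3 : 0 ≤ q) (b3 : q ≤ 1 / 90) : 0 < outR prog 2 [F, m, x, q] :=
  gd 2 (by decide) [F, m, x, q] (.cons ⟨l0.le.trans a0, b0.trans u0.le⟩ (.cons ⟨l1.le.trans a1,
    b1.trans u1.le⟩ (.cons ⟨l2.le.trans a2, b2.trans u2⟩ (.cons ⟨l3.le.trans a3, b3.trans u3⟩
    (.nil))))) ⟨nofun, nofun, nofun, nofun, trivial⟩ (List.forall_mem_nil _) (Van.of0 rfl) (nofun)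

theorem pos2 {F m x q D iG N ik p P Q W c p2 p3 z z13 g a b : ℝ} (hD : D = m - F) (hiG : iG = (F - 1
    - D)⁻¹) (hN : N = F * (2 * F - 1) * (F - 1)) (hik : ik = N * iG) (hp : p = iG * q) (hP : P = (1
    + D) * x ^ 2) (hQ : Q = (1 + 2 * D) * x) (hW : W = Q - P - D) (hc : c = 2 * F * (F - 1) * Q - (2
    * F - 1) * ((F - 1) * P + F * D)) (hp2 : p2 = (pjR F P Q D).1) (hp3 : p3 = (pjR F P Q D).2.1)
    (hz : z = 1 - p * c) (hz13 : z13 = (√(ik * z))⁻¹) (hg : g = z * z13) (ha : a = 1 - 15 / 8 * z ^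
    2) (hb : b = 15 / 8 * z * (1 - z)) (a0 : 5 / 4 ≤ F) (b0 : F ≤ 11 / 8) (a1 : -1 / 16 ≤ m) (b1 : m
    ≤ 1 / 16) (a2 : 0 ≤ x) (b2 : x ≤ 1 / 90) (a3 : 0 ≤ q) (b3 : q ≤ 1 / 90) : 0 < 15 / 8 * z ^ 2 + a
    * g :=
  have e := eq hD hiG hN hik hp hP hQ hW hc hp2 hp3 hz hz13 hg ha hb
  (out2 a0 b0 a1 b1 a2 b2 a3 b3).trans_eq e.2.2.1

theorem out3 {F m x q : ℝ} (a0 : 5 / 4 ≤ F) (b0 : F ≤ 11 / 8) (a1 : -1 / 16 ≤ m) (b1 : m ≤ 1 / 16)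
    (a2 : 0 ≤ x) (b2 : x ≤ 1 / 90) (a3 : 0 ≤ q) (b3 : q ≤ 1 / 90) : 0 < outR prog 3 [F, m, x, q] :=
  gd 3 (by decide) [F, m, x, q] (.cons ⟨l0.le.trans a0, b0.trans u0.le⟩ (.cons ⟨l1.le.trans a1,
    b1.trans u1.le⟩ (.cons ⟨l2.le.trans a2, b2.trans u2⟩ (.cons ⟨l3.le.trans a3, b3.trans u3⟩
    (.nil))))) ⟨nofun, nofun, nofun, nofun, trivial⟩ (List.forall_mem_nil _) (Van.of0 rfl) (nofun)

theorem pos3 {F m x q D iG N ik p P Q W c p2 p3 z z13 g a b : ℝ} (hD : D = m - F) (hiG : iG = (F - 1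
    - D)⁻¹) (hN : N = F * (2 * F - 1) * (F - 1)) (hik : ik = N * iG) (hp : p = iG * q) (hP : P = (1
    + D) * x ^ 2) (hQ : Q = (1 + 2 * D) * x) (hW : W = Q - P - D) (hc : c = 2 * F * (F - 1) * Q - (2
    * F - 1) * ((F - 1) * P + F * D)) (hp2 : p2 = (pjR F P Q D).1) (hp3 : p3 = (pjR F P Q D).2.1)
    (hz : z = 1 - p * c) (hz13 : z13 = (√(ik * z))⁻¹) (hg : g = z * z13) (ha : a = 1 - 15 / 8 * z ^
    2) (hb : b = 15 / 8 * z * (1 - z)) (a0 : 5 / 4 ≤ F) (b0 : F ≤ 11 / 8) (a1 : -1 / 16 ≤ m) (b1 : m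
    ≤ 1 / 16) (a2 : 0 ≤ x) (b2 : x ≤ 1 / 90) (a3 : 0 ≤ q) (b3 : q ≤ 1 / 90) : 0 < 15 / 8 * z ^ 2 +
    (a + b) * g :=
  have e := eq hD hiG hN hik hp hP hQ hW hc hp2 hp3 hz hz13 hg ha hb
  (out3 a0 b0 a1 b1 a2 b2 a3 b3).trans_eq e.2.2.2

end Pool.Agent.Lib.MP_d6150d_an.S8d
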