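import Pool.Agent.Lib.MP_d6150d_an.GDef

/-! A generated chart: the program. -/

namespace Pool.Agent.Lib.MP_d6150d_an.S8d

def prog1 : List Ins := .sub false 0 44 :: .mul 0 0 :: .mul 3 0 :: .mul 23 27 :: .int 4 :: .smul 3
    52 :: .sub true 1 0 :: .mul 0 18 :: .mul 25 20 :: .smul 4 38 :: .sub false 0 44 :: .sub false 2
    0 :: .add true 4 0 :: .mul 28 0 :: .mul 26 25 :: .smul 3 0 :: .sub true 2 0 :: .mul 13 0 :: .add
    false 15 0 :: .mul 27 61 :: .mul 0 42 :: .rsq 0 :: .mul 44 0 :: .mul 42 0 :: .add false 44 0 ::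
    .add false 44 30 :: .mul 0 3 :: .add false 47 0 :: .cpy 0 :: .cpy 4 :: .cpy 11 :: .cpy 41 :: []

def prog : List Ins := .int 1 :: .cst 15 8 :: .var 0 :: .sub true 0 2 :: .var 1 :: .sub false 0 2 ::
    .sub false 2 0 :: .inv 0 :: .var 3 :: .mul 1 0 :: .smul 2 7 :: .mul 0 7 :: .smul 2 6 :: .add
    true 12 0 :: .var 2 :: .mul 1 0 :: .mul 4 0 :: .sub true 6 16 :: .add true 17 12 :: .mul 4 4 ::
    .mul 1 0 :: .mul 17 0 :: .mul 19 16 :: .add false 1 0 :: .mul 6 0 :: .sub false 8 0 :: .mul 16 0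
    :: .sub false 26 0 :: .mul 0 0 :: .mul 27 0 :: .sub true 29 0 :: .int 2 :: .sub true 0 29 ::
    .sub false 12 17 :: .add false 0 28 :: .mul 2 0 :: .smul 2 15 :: .sub false 0 21 :: .sub false 2
    0 :: .mul 8 0 :: .mul 37 22 :: .mul 0 37 :: .mul 40 14 :: .sub true 42 15 :: .mul 1 0 :: .smul 4
    0 :: .add true 15 0 :: .mul 5 0 :: .mul 0 9 :: .sub false 33 28 :: prog1

def vs : List Vr := [⟨2, 0, false, false⟩, ⟨2, 0, false, false⟩, ⟨1, 0, false, false⟩, ⟨1, 0, false,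
    false⟩]

def C : Chart := ⟨vs, prog, [], 4, 3⟩

end Pool.Agent.Lib.MP_d6150d_an.S8d
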