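import Pool.Agent.Lib.MP_d6150d_an.GDef

/-! A generated chart: the program. -/

namespace Pool.Agent.Lib.MP_d6150d_an.S8l

def prog2 : List Ins := .add false 105 30 :: .mul 43 0 :: .mul 52 0 :: .mul 102 30 :: .sub true 39 0
    :: .mul 2 0 :: .mul 0 0 :: .mul 7 0 :: .add false 13 0 :: .mul 48 0 :: .smul 3 48 :: .smul 5 63
    :: .sub true 1 0 :: .mul 6 6 :: .mul 1 0 :: .add true 5 0 :: .mul 55 0 :: .mul 68 0 :: .smul
    (-1) 0 :: .mul 5 13 :: .mul 0 67 :: .mul 0 75 :: .rsq 76 :: .mul 74 0 :: .cst 6 5 :: .add false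
    130 77 :: .mul 1 0 :: .mul 106 79 :: .mul 0 109 :: .mul 2 0 :: .sub false 6 0 :: .mul 9 0 ::
    .add false 13 0 :: .cpy 0 :: []

def prog1 : List Ins := .sub true 32 0 :: .cst 1 2 :: .mul 48 29 :: .smul (-1) 0 :: .exp 0 :: .mul 7
    0 :: .mul 0 1 :: .mul 5 34 :: .tri 0 :: .mul 4 2 :: .mul 10 0 :: .mul 13 12 :: .smul 4 0 :: .mul
    0 2 :: .add true 69 63 :: .mul 0 8 :: .smul 2 65 :: .add true 72 0 :: .smul (-1) 12 :: .exp 0 ::
    .mul 2 0 :: .sub false 5 0 :: .mul 2 2 :: .mul 0 3 :: .mul 73 0 :: .add true 3 0 :: .int 4 ::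
    .smul 3 75 :: .sub true 1 0 :: .sub true 43 77 :: .mul 0 4 :: .smul 2 15 :: .sub true 0 11 ::
    .sub false 2 0 :: .mul 5 0 :: .mul 5 2 :: .smul 4 20 :: .sub false 0 16 :: .sub false 2 0 ::
    .add true 4 0 :: .mul 14 0 :: .mul 8 7 :: .smul 3 0 :: .sub true 2 0 :: .mul 30 0 :: .smul 12 33
    :: .sub false 0 19 :: .smul 10 49 :: .sub true 1 0 :: .mul 0 15 :: prog2

def prog : List Ins := .cst 33 16 :: .var 1 :: .int 1 :: .var 0 :: .smul (-1) 0 :: .exp 0 :: .sub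
    true 3 0 :: .inv 0 :: .smul (-1) 0 :: .sub false 7 0 :: .sub false 9 0 :: .smul 2 9 :: .sub
    false 1 0 :: .cpy 0 :: .sub true 4 11 :: .sub false 0 6 :: .inv 0 :: .mul 0 15 :: .smul 2 8 ::
    .sub true 0 16 :: .mul 0 16 :: .exp 0 :: .mul 4 0 :: .add false 20 0 :: .mul 14 4 :: .mul 0 10
    :: .mul 0 9 :: .var 2 :: .smul (-1) 0 :: .mul 0 0 :: .mul 11 1 :: .tri 0 :: .mul 15 0 :: .mul 15
    6 :: .tri 0 :: .mul 19 0 :: .sub false 5 0 :: .smul 2 1 :: .sub false 7 0 :: .int 2 :: .sub true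
    25 0 :: .mul 0 16 :: .tri 0 :: .mul 4 0 :: .add true 7 0 :: .mul 42 0 :: .add true 11 0 :: .smul
    2 0 :: .mul 24 0 :: .mul 28 0 :: prog1

def vs : List Vr := [⟨4, 0, false, false⟩, ⟨3, 0, false, false⟩, ⟨6, 2, false, false⟩]

def C : Chart := ⟨vs, prog, [14], 1, 3⟩

end Pool.Agent.Lib.MP_d6150d_an.S8l
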