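import Pool.Agent.Lib.MP_d6150d_an.GDef

/-! A generated chart: the program. -/

namespace Pool.Agent.Lib.MP_d6150d_an.S8m

def prog2 : List Ins := .add true 21 0 :: .mul 47 0 :: .mul 21 21 :: .mul 19 19 :: .mul 0 21 :: .mul
    2 0 :: .sub true 96 77 :: .mul 0 74 :: .exp 0 :: .mul 3 0 :: .mul 23 63 :: .mul 30 91 :: .mul 0
    65 :: .rsq 0 :: .mul 3 0 :: .mul 0 3 :: .cst 6 5 :: .mul 0 5 :: .add false 115 71 :: .mul 1 0 ::
    .mul 0 72 :: .add false 5 0 :: .mul 12 0 :: .add false 21 0 :: .cpy 0 :: []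

def prog1 : List Ins := .exp 0 :: .mul 49 0 :: .add true 0 7 :: .mul 5 0 :: .cst 1 2 :: .sub false
    15 20 :: .add true 0 47 :: .int 4 :: .smul 3 48 :: .sub true 1 0 :: .sub true 31 50 :: .mul 0 4
    :: .smul 2 22 :: .sub true 0 28 :: .sub true 2 0 :: .mul 5 0 :: .mul 5 2 :: .smul 4 27 :: .sub
    false 0 33 :: .sub false 2 0 :: .add true 4 0 :: .mul 14 0 :: .mul 8 7 :: .smul 3 0 :: .sub true
    2 0 :: .mul 27 0 :: .mul 0 23 :: .mul 22 0 :: .smul (-1) 0 :: .mul 69 42 :: .mul 0 62 :: .sub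
    false 46 41 :: .sub true 0 73 :: .mul 0 0 :: .mul 3 0 :: .cst 5 2 :: .mul 62 33 :: .smul 3 0 ::
    .sub true 2 0 :: .mul 42 0 :: .add false 87 0 :: .mul 0 26 :: .cst 3 2 :: .mul 0 6 :: .sub true
    8 0 :: .mul 0 11 :: .mul 15 72 :: .mul 1 0 :: .add true 6 0 :: .mul 14 0 :: prog2

def prog : List Ins := .cst 33 16 :: .var 1 :: .int 1 :: .var 0 :: .smul (-1) 0 :: .exp 0 :: .sub
    true 3 0 :: .inv 0 :: .smul (-1) 0 :: .sub false 7 0 :: .sub false 9 0 :: .smul 2 9 :: .sub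
    false 1 0 :: .cpy 0 :: .cst 11 8 :: .sub false 5 0 :: .cpy 0 :: .sub true 7 14 :: .sub false 0 9
    :: .inv 0 :: .var 2 :: .smul (-1) 0 :: .exp 0 :: .mul 3 0 :: .smul 2 14 :: .mul 0 7 :: .smul 2
    17 :: .add true 24 0 :: .int 2 :: .sub true 4 0 :: .inv 0 :: .mul 10 0 :: .smul (-1) 0 :: .exp 0
    :: .mul 6 0 :: .mul 9 0 :: .sub true 11 33 :: .add true 34 28 :: .mul 4 4 :: .mul 1 0 :: .mul 22
    0 :: .mul 31 32 :: .add false 1 0 :: .mul 6 0 :: .sub true 8 0 :: .mul 21 0 :: .sub true 43 0 ::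
    .mul 0 0 :: .mul 11 44 :: .add false 0 28 :: prog1

def vs : List Vr := [⟨4, 0, false, false⟩, ⟨3, 0, false, false⟩, ⟨5, 0, false, false⟩]

def C : Chart := ⟨vs, prog, [14, 17], 1, 3⟩

end Pool.Agent.Lib.MP_d6150d_an.S8m
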