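import Pool.Agent.Lib.MP_d6150d_an.GDef

/-! A generated chart: the program. -/

namespace Pool.Agent.Lib.MP_d6150d_an.S8r

def prog3 : List Ins := .mul 1 0 :: .mul 140 74 :: .mul 0 146 :: .mul 2 0 :: .sub true 6 0 :: .mul
    10 0 :: .add false 15 0 :: .cpy 0 :: []

def prog2 : List Ins := .sub true 0 11 :: .sub true 2 0 :: .mul 5 0 :: .mul 5 2 :: .smul 4 20 ::
    .sub false 0 16 :: .sub false 2 0 :: .add true 4 0 :: .mul 14 0 :: .mul 8 7 :: .smul 3 0 :: .sub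
    false 2 0 :: .mul 30 0 :: .smul 12 33 :: .mul 100 100 :: .mul 1 0 :: .sub false 0 21 :: .smul 10
    38 :: .sub true 1 0 :: .mul 0 17 :: .add false 131 32 :: .mul 48 0 :: .mul 79 0 :: .tri 109 ::
    .mul 98 1 :: .mul 4 0 :: .mul 0 0 :: .mul 9 0 :: .add true 17 0 :: .mul 55 0 :: .smul 3 52 ::
    .mul 0 18 :: .smul 5 55 :: .sub true 1 0 :: .mul 0 21 :: .mul 8 8 :: .mul 1 0 :: .add true 7 0
    :: .mul 64 0 :: .mul 99 0 :: .smul (-1) 0 :: .mul 5 15 :: .mul 130 0 :: .mul 0 77 :: .mul 0 81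
    :: .mul 32 105 :: .rsq 83 :: .mul 1 0 :: .cst 6 5 :: .add false 162 72 :: prog3

def prog1 : List Ins := .cst 1 2 :: .mul 42 30 :: .tri 0 :: .mul 46 0 :: .mul 46 35 :: .tri 0 ::
    .mul 50 0 :: .sub false 5 0 :: .smul 2 1 :: .sub false 7 0 :: .mul 24 43 :: .tri 0 :: .mul 28 0
    :: .add true 5 0 :: .mul 67 0 :: .add true 9 0 :: .smul 2 0 :: .mul 69 52 :: .smul (-1) 0 ::
    .exp 0 :: .mul 3 0 :: .mul 0 1 :: .mul 27 57 :: .tri 0 :: .mul 4 2 :: .mul 32 0 :: .mul 63 63 ::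
    .mul 0 12 :: .mul 70 0 :: .mul 0 37 :: .smul 4 0 :: .mul 0 5 :: .add true 93 87 :: .mul 0 11 ::
    .smul 2 89 :: .add true 96 0 :: .smul (-1) 15 :: .exp 0 :: .mul 2 0 :: .sub false 5 0 :: .mul 2
    2 :: .mul 0 3 :: .mul 97 0 :: .add true 3 0 :: .int 4 :: .smul 3 99 :: .sub true 1 0 :: .sub
    true 66 101 :: .mul 0 4 :: .smul 2 15 :: prog2

def prog : List Ins := .cst 33 16 :: .var 1 :: .int 1 :: .var 0 :: .smul (-1) 0 :: .exp 0 :: .sub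
    true 3 0 :: .inv 0 :: .smul (-1) 0 :: .sub false 7 0 :: .sub false 9 0 :: .smul 2 9 :: .sub
    false 1 0 :: .cpy 0 :: .smul 2 4 :: .sub true 0 12 :: .mul 6 0 :: .sub true 7 14 :: .mul 1 0 ::
    .sub false 1 10 :: .inv 0 :: .mul 2 0 :: .mul 6 18 :: .exp 0 :: .mul 2 0 :: .var 2 :: .mul 0 22
    :: .sub true 23 0 :: .smul (-1) 0 :: .mul 14 0 :: .tri 0 :: .mul 18 0 :: .mul 18 5 :: .tri 0 ::
    .mul 22 0 :: .sub false 5 0 :: .int (-1) :: .sub true 0 32 :: .smul 2 3 :: .sub false 9 0 ::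
    .int 2 :: .sub true 30 0 :: .mul 0 17 :: .tri 0 :: .mul 4 0 :: .add true 7 0 :: .mul 10 0 ::
    .add true 13 0 :: .smul 2 0 :: .mul 30 0 :: prog1

def vs : List Vr := [⟨4, 0, false, false⟩, ⟨3, 0, false, false⟩, ⟨6, 2, false, false⟩]

def C : Chart := ⟨vs, prog, [14], 1, 3⟩

end Pool.Agent.Lib.MP_d6150d_an.S8r
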