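import Pool.Agent.Lib.MP_d6150d_an.GDef

/-! A generated chart: the program. -/

namespace Pool.Agent.Lib.MP_d6150d_an.S8t

def prog2 : List Ins := .mul 21 79 :: .mul 1 0 :: .add true 7 0 :: .mul 0 0 :: .sub false 20 0 ::
    .cpy 0 :: []

def prog1 : List Ins := .add false 0 41 :: .int 4 :: .smul 3 42 :: .sub true 1 0 :: .sub true 26 44
    :: .mul 0 4 :: .smul 2 16 :: .sub false 0 22 :: .sub false 2 0 :: .mul 5 0 :: .mul 5 2 :: .smul
    4 21 :: .sub false 0 27 :: .sub false 2 0 :: .add true 4 0 :: .mul 14 0 :: .mul 8 7 :: .smul 3 0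
    :: .sub true 2 0 :: .mul 20 0 :: .sub false 35 30 :: .sub false 0 62 :: .mul 2 0 :: .sub true 63
    45 :: .mul 0 42 :: .exp 0 :: .mul 3 0 :: .mul 67 40 :: .mul 0 61 :: .mul 0 60 :: .mul 3 0 ::
    .add false 78 34 :: .mul 1 0 :: .smul (-1) 0 :: .cst 5 2 :: .mul 66 83 :: .mul 49 82 :: .exp 0
    :: .mul 2 0 :: .add true 0 43 :: .smul 3 0 :: .sub true 6 0 :: .mul 45 0 :: .add false 90 0 ::
    .mul 0 35 :: .cst 3 2 :: .mul 0 6 :: .sub true 12 0 :: .mul 26 26 :: .mul 1 0 :: prog2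

def prog : List Ins := .cst 31 16 :: .var 1 :: .int 1 :: .var 0 :: .smul (-1) 0 :: .exp 0 :: .sub
    true 3 0 :: .inv 0 :: .smul (-1) 0 :: .sub false 7 0 :: .sub false 9 0 :: .cpy 0 :: .cst 11 8 ::
    .sub false 3 0 :: .cpy 0 :: .cst 12 5 :: .sub true 6 13 :: .sub false 0 8 :: .inv 0 :: .var 3 ::
    .mul 1 0 :: .smul 2 11 :: .mul 0 5 :: .smul 2 14 :: .add true 21 0 :: .var 2 :: .cst 9 2 :: .int
    2 :: .sub true 6 0 :: .inv 0 :: .mul 3 0 :: .smul (-1) 0 :: .exp 0 :: .mul 7 0 :: .mul 9 0 ::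
    .mul 12 0 :: .sub true 14 33 :: .add true 34 28 :: .mul 4 4 :: .mul 1 0 :: .mul 23 0 :: .mul 31
    32 :: .add false 1 0 :: .mul 6 0 :: .sub false 8 0 :: .mul 24 0 :: .sub false 43 0 :: .mul 0 0
    :: .mul 32 0 :: .sub false 9 14 :: prog1

def vs : List Vr := [⟨3, 0, false, false⟩, ⟨2, 0, false, false⟩, ⟨2, 0, false, false⟩, ⟨1, 0, false,
    false⟩]

def C : Chart := ⟨vs, prog, [12, 15], 1, 3⟩

end Pool.Agent.Lib.MP_d6150d_an.S8t
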