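import Pool.Agent.Lib.MP_d6150d_an.GDef

/-! A generated chart: the program. -/

namespace Pool.Agent.Lib.MP_d6150d_an.S8u

def prog2 : List Ins := .add false 10 0 :: .cpy 0 :: .cpy 47 :: []

def prog1 : List Ins := .mul 17 17 :: .mul 1 0 :: .mul 0 16 :: .mul 8 0 :: .sub false 10 0 :: .mul
    48 44 :: .mul 54 43 :: .sub false 1 0 :: .mul 16 0 :: .sub false 46 48 :: .int 2 :: .sub true 0
    59 :: .sub true 15 16 :: .mul 1 0 :: .mul 0 63 :: .int 5 :: .sub true 0 20 :: .mul 60 0 :: .mul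
    0 57 :: .mul 23 7 :: .mul 0 57 :: .sub false 2 0 :: .mul 63 0 :: .add true 8 0 :: .mul 14 0 ::
    .mul 74 3 :: .add false 1 0 :: .smul 2 64 :: .sub false 0 67 :: .smul 3 0 :: .mul 18 79 :: .mul
    72 23 :: .add true 1 0 :: .mul 3 0 :: .sub true 7 0 :: .mul 34 0 :: .mul 0 50 :: .mul 42 0 ::
    .sub true 29 0 :: .mul 53 0 :: .cst 24 5 :: .mul 83 83 :: .mul 0 84 :: .mul 2 0 :: .mul 0 74 ::
    .mul 78 78 :: .mul 0 80 :: .mul 2 0 :: .add false 94 65 :: .mul 1 0 :: prog2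

def prog : List Ins := .var 1 :: .var 0 :: .smul 2 0 :: .int 1 :: .sub true 1 0 :: .mul 3 0 :: .sub
    true 4 2 :: .mul 1 0 :: .var 2 :: .smul 2 8 :: .add true 6 0 :: .add true 7 10 :: .mul 0 3 ::
    .sub false 2 0 :: .mul 5 0 :: .sub true 0 14 :: .mul 0 0 :: .mul 9 0 :: .sub false 11 17 :: .inv
    0 :: .var 3 :: .mul 1 0 :: .mul 19 15 :: .mul 12 14 :: .mul 1 0 :: .mul 12 16 :: .mul 19 0 ::
    .mul 25 26 :: .add false 1 0 :: .mul 24 0 :: .sub true 5 0 :: .mul 9 0 :: .sub false 28 0 ::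
    .cst 5 2 :: .var 4 :: .mul 0 4 :: .mul 14 0 :: .smul 3 0 :: .sub false 4 0 :: .mul 6 0 :: .add
    false 36 0 :: .mul 23 0 :: .mul 41 0 :: .smul (-1) 0 :: .cst 1 2 :: .smul 3 43 :: .int 4 :: .sub
    true 1 0 :: .mul 47 47 :: .mul 1 0 :: prog1

def vs : List Vr := [⟨1, 0, false, false⟩, ⟨1, 0, false, false⟩, ⟨2, 0, false, false⟩, ⟨1, 0, false,
    false⟩, ⟨2, 0, false, false⟩]

def C : Chart := ⟨vs, prog, [], 2, 3⟩

end Pool.Agent.Lib.MP_d6150d_an.S8u
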