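import Pool.Agent.Lib.MP_d6150d_an.Expl

/-! The polynomials of the criterion of Schaaf, in the variable `r = exp (-t)`. -/

namespace Pool.Agent.Lib.MP_d6150d_an

open Real Set

/-- first derivative of the potential, up to a positive factor -/
def sv1 (D r : ℝ) : ℝ := (1 + D) - (1 + 2 * D) * r + D * r ^ 2

/-- second derivative of the potential -/
def sv2 (D F r : ℝ) : ℝ := (1 + D) * F - (1 + 2 * D) * (F - 1) * r + D * (F - 2) * r ^ 2

/-- third derivative of the potential, up to a positive factor -/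
def svW (D F r : ℝ) : ℝ := (1 + 2 * D) * (F - 1) - 2 * D * (F - 2) * r

/-- the leading coefficient -/
def svA (D F r : ℝ) : ℝ := 6 * sv2 D F r ^ 2 - 2 * sv1 D r * r * svW D F r

/-- the expression of Schaaf -/
def svS (D F r : ℝ) : ℝ :=
  5 * r * svW D F r ^ 2 + 3 * sv2 D F r * ((1 + 2 * D) * (F ^ 2 - 1) - 2 * (F ^ 2 - 4) * D * r)

/-- the pointwise test -/
def SchAt (D F r : ℝ) : Prop := (0 < sv2 D F r → 0 < svS D F r) ∧ (sv2 D F r ≤ 0 → 0 ≤ svA D F r)

/-- the test holds between conjugate points -/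
def SchOK (D F : ℝ) : Prop := ∀ a ∈ JR D, ∀ b ∈ JR D, a < 0 → 0 < b → vR D F a = vR D F b →
  ∀ t ∈ Icc a b, SchAt D F (exp (-t))

end Pool.Agent.Lib.MP_d6150d_an
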