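import Pool.Agent.Lib.MP_d6150d_an.SchDef

/-! Polynomial inequalities for the criterion of Schaaf on restricted ranges. -/

namespace Pool.Agent.Lib.MP_d6150d_an

theorem r2_poly {d F r a b c e f : ℝ} (ha : a = d * (1 - r) + 3 / 2) (hb : b = 1 - d * (1 - r))
    (hc : c = F - 1) (he : e = 5 / 2 - F) (hf : f = d - 7 / 2) (a0 : 0 ≤ a) (b0 : 0 ≤ b) (c0 : 0 ≤ c)
    (e0 : 0 ≤ e) (f0 : 0 ≤ f) : 0 < d * svS (-d) F r := by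
  have : d * svS (-d) F r = 1 + (
      22112 / 1125 * b ^ 3 * e ^ 3 + 3616 / 225 * b ^ 3 * e ^ 3 * f +
      4864 / 1125 * b ^ 3 * e ^ 3 * f ^ 2 + 256 / 675 * b ^ 3 * e ^ 3 * f ^ 3 +
      25616 / 1125 * b ^ 3 * c * e ^ 2 + 33872 / 1125 * b ^ 3 * c * e ^ 2 * f +
      12032 / 1125 * b ^ 3 * c * e ^ 2 * f ^ 2 + 256 / 225 * b ^ 3 * c * e ^ 2 * f ^ 3 +
      9136 / 1125 * b ^ 3 * c ^ 2 * e + 19648 / 1125 * b ^ 3 * c ^ 2 * e * f +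
      9472 / 1125 * b ^ 3 * c ^ 2 * e * f ^ 2 + 256 / 225 * b ^ 3 * c ^ 2 * e * f ^ 3 +
      2392 / 1125 * b ^ 3 * c ^ 3 + 3856 / 1125 * b ^ 3 * c ^ 3 * f +
      256 / 125 * b ^ 3 * c ^ 3 * f ^ 2 + 256 / 675 * b ^ 3 * c ^ 3 * f ^ 3 +
      49936 / 1125 * a * b ^ 2 * e ^ 3 + 9056 / 225 * a * b ^ 2 * e ^ 3 * f +
      13312 / 1125 * a * b ^ 2 * e ^ 3 * f ^ 2 + 256 / 225 * a * b ^ 2 * e ^ 3 * f ^ 3 +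
      34216 / 375 * a * b ^ 2 * c * e ^ 2 + 106096 / 1125 * a * b ^ 2 * c * e ^ 2 * f +
      35456 / 1125 * a * b ^ 2 * c * e ^ 2 * f ^ 2 + 256 / 75 * a * b ^ 2 * c * e ^ 2 * f ^ 3 +
      20476 / 375 * a * b ^ 2 * c ^ 2 * e + 79424 / 1125 * a * b ^ 2 * c ^ 2 * e * f +
      30976 / 1125 * a * b ^ 2 * c ^ 2 * e * f ^ 2 + 256 / 75 * a * b ^ 2 * c ^ 2 * e * f ^ 3 +
      11686 / 1125 * a * b ^ 2 * c ^ 3 + 18608 / 1125 * a * b ^ 2 * c ^ 3 * f +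
      2944 / 375 * a * b ^ 2 * c ^ 3 * f ^ 2 + 256 / 225 * a * b ^ 2 * c ^ 3 * f ^ 3 +
      12512 / 375 * a ^ 2 * b * e ^ 3 + 7424 / 225 * a ^ 2 * b * e ^ 3 * f +
      12032 / 1125 * a ^ 2 * b * e ^ 3 * f ^ 2 + 256 / 225 * a ^ 2 * b * e ^ 3 * f ^ 3 +
      35216 / 375 * a ^ 2 * b * c * e ^ 2 + 105376 / 1125 * a ^ 2 * b * c * e ^ 2 * f +
      34816 / 1125 * a ^ 2 * b * c * e ^ 2 * f ^ 2 + 256 / 75 * a ^ 2 * b * c * e ^ 2 * f ^ 3 +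
      30616 / 375 * a ^ 2 * b * c ^ 2 * e + 96704 / 1125 * a ^ 2 * b * c ^ 2 * e * f +
      33536 / 1125 * a ^ 2 * b * c ^ 2 * e * f ^ 2 + 256 / 75 * a ^ 2 * b * c ^ 2 * e * f ^ 3 +
      7732 / 375 * a ^ 2 * b * c ^ 3 + 28448 / 1125 * a ^ 2 * b * c ^ 3 * f +
      3584 / 375 * a ^ 2 * b * c ^ 3 * f ^ 2 + 256 / 225 * a ^ 2 * b * c ^ 3 * f ^ 3 +
      27136 / 3375 * a ^ 3 * e ^ 3 + 1984 / 225 * a ^ 3 * e ^ 3 * f +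
      3584 / 1125 * a ^ 3 * e ^ 3 * f ^ 2 + 256 / 675 * a ^ 3 * e ^ 3 * f ^ 3 +
      31616 / 1125 * a ^ 3 * c * e ^ 2 + 33152 / 1125 * a ^ 3 * c * e ^ 2 * f +
      11392 / 1125 * a ^ 3 * c * e ^ 2 * f ^ 2 + 256 / 225 * a ^ 3 * c * e ^ 2 * f ^ 3 +
      12352 / 375 * a ^ 3 * c ^ 2 * e + 36928 / 1125 * a ^ 3 * c ^ 2 * e * f +
      12032 / 1125 * a ^ 3 * c ^ 2 * e * f ^ 2 + 256 / 225 * a ^ 3 * c ^ 2 * e * f ^ 3 +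
      43456 / 3375 * a ^ 3 * c ^ 3 + 13696 / 1125 * a ^ 3 * c ^ 3 * f +
      1408 / 375 * a ^ 3 * c ^ 3 * f ^ 2 + 256 / 675 * a ^ 3 * c ^ 3 * f ^ 3) := by
    rw [ha, hb, hc, he, hf, svS, svW, sv2]; ring
  rw [this]; positivity

theorem r3_poly0 {d F r a b c e f : ℝ} (ha : a = F * (1 - r)) (hb : b = 2 / 3 - F * (1 - r))
    (hc : c = F - 4) (he : e = d - 1 / 2 - 0 * (1 / 2 + F / 4))
    (hf : f = 1 / 4 * (1 / 2 + F / 4) - (d - 1 / 2)) (a0 : 0 ≤ a) (b0 : 0 ≤ b) (c0 : 0 ≤ c)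
    (e0 : 0 ≤ e) (f0 : 0 ≤ f) : 0 ≤ (1 / 2 + F / 4) ^ 2 * (F ^ 3 * svS (-d) F r - 1) := by
  have : (1 / 2 + F / 4) ^ 2 * (F ^ 3 * svS (-d) F r - 1) =
      193482 * b ^ 3 * f ^ 2 + 311796 * b ^ 3 * e * f + 128034 * b ^ 3 * e ^ 2 +
      297216 * b ^ 3 * c * f ^ 2 + 499608 * b ^ 3 * c * e * f + 212922 * b ^ 3 * c * e ^ 2 +
      177984 * b ^ 3 * c ^ 2 * f ^ 2 + 308718 * b ^ 3 * c ^ 2 * e * f +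
      270513 / 2 * b ^ 3 * c ^ 2 * e ^ 2 + 52272 * b ^ 3 * c ^ 3 * f ^ 2 +
      185841 / 2 * b ^ 3 * c ^ 3 * e * f + 332883 / 8 * b ^ 3 * c ^ 3 * e ^ 2 +
      7560 * b ^ 3 * c ^ 4 * f ^ 2 + 54837 / 4 * b ^ 3 * c ^ 4 * e * f +
      12501 / 2 * b ^ 3 * c ^ 4 * e ^ 2 + 432 * b ^ 3 * c ^ 5 * f ^ 2 +
      1593 / 2 * b ^ 3 * c ^ 5 * e * f + 11799 / 32 * b ^ 3 * c ^ 5 * e ^ 2 +
      566622 * a * b ^ 2 * f ^ 2 + 868860 * a * b ^ 2 * e * f + 339174 * a * b ^ 2 * e ^ 2 +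
      884736 * a * b ^ 2 * c * f ^ 2 + 1425816 * a * b ^ 2 * c * e * f +
      582390 * a * b ^ 2 * c * e ^ 2 + 540000 * a * b ^ 2 * c ^ 2 * f ^ 2 +
      903492 * a * b ^ 2 * c ^ 2 * e * f + 763515 / 2 * a * b ^ 2 * c ^ 2 * e ^ 2 +
      162000 * a * b ^ 2 * c ^ 3 * f ^ 2 + 558531 / 2 * a * b ^ 2 * c ^ 3 * e * f +
      970029 / 8 * a * b ^ 2 * c ^ 3 * e ^ 2 + 23976 * a * b ^ 2 * c ^ 4 * f ^ 2 +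
      169461 / 4 * a * b ^ 2 * c ^ 4 * e * f + 18819 * a * b ^ 2 * c ^ 4 * e ^ 2 +
      1404 * a * b ^ 2 * c ^ 5 * f ^ 2 + 5067 / 2 * a * b ^ 2 * c ^ 5 * e * f +
      36729 / 32 * a * b ^ 2 * c ^ 5 * e ^ 2 + 548190 * a ^ 2 * b * f ^ 2 +
      792900 * a ^ 2 * b * e * f + 291852 * a ^ 2 * b * e ^ 2 + 870336 * a ^ 2 * b * c * f ^ 2 +
      1335762 * a ^ 2 * b * c * e * f + 1039905 / 2 * a ^ 2 * b * c * e ^ 2 +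
      541584 * a ^ 2 * b * c ^ 2 * f ^ 2 + 869484 * a ^ 2 * b * c ^ 2 * e * f +
      1411113 / 4 * a ^ 2 * b * c ^ 2 * e ^ 2 + 166032 * a ^ 2 * b * c ^ 3 * f ^ 2 +
      276399 * a ^ 2 * b * c ^ 3 * e * f + 231915 / 2 * a ^ 2 * b * c ^ 3 * e ^ 2 +
      25164 * a ^ 2 * b * c ^ 4 * f ^ 2 + 172743 / 4 * a ^ 2 * b * c ^ 4 * e * f +
      298239 / 16 * a ^ 2 * b * c ^ 4 * e ^ 2 + 1512 * a ^ 2 * b * c ^ 5 * f ^ 2 +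
      2664 * a ^ 2 * b * c ^ 5 * e * f + 37725 / 32 * a ^ 2 * b * c ^ 5 * e ^ 2 +
      175306 * a ^ 3 * f ^ 2 + 236732 * a ^ 3 * e * f + 81496 * a ^ 3 * e ^ 2 +
      283168 * a ^ 3 * c * f ^ 2 + 410850 * a ^ 3 * c * e * f + 303349 / 2 * a ^ 3 * c * e ^ 2 +
      179728 * a ^ 3 * c ^ 2 * f ^ 2 + 275358 * a ^ 3 * c ^ 2 * e * f +
      427701 / 4 * a ^ 3 * c ^ 2 * e ^ 2 + 56328 * a ^ 3 * c ^ 3 * f ^ 2 +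
      90178 * a ^ 3 * c ^ 3 * e * f + 145853 / 4 * a ^ 3 * c ^ 3 * e ^ 2 +
      8748 * a ^ 3 * c ^ 4 * f ^ 2 + 58143 / 4 * a ^ 3 * c ^ 4 * e * f +
      97351 / 16 * a ^ 3 * c ^ 4 * e ^ 2 + 540 * a ^ 3 * c ^ 5 * f ^ 2 +
      927 * a ^ 3 * c ^ 5 * e * f + 12807 / 32 * a ^ 3 * c ^ 5 * e ^ 2 := by
    rw [ha, hb, hc, he, hf, svS, svW, sv2]; ring
  rw [this]; positivity

theorem r3_poly1 {d F r a b c e f : ℝ} (ha : a = F * (1 - r)) (hb : b = 2 / 3 - F * (1 - r))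
    (hc : c = F - 4) (he : e = d - 1 / 2 - 1 / 4 * (1 / 2 + F / 4))
    (hf : f = 1 / 2 * (1 / 2 + F / 4) - (d - 1 / 2)) (a0 : 0 ≤ a) (b0 : 0 ≤ b) (c0 : 0 ≤ c)
    (e0 : 0 ≤ e) (f0 : 0 ≤ f) : 0 ≤ (1 / 2 + F / 4) ^ 2 * (F ^ 3 * svS (-d) F r - 1) := by
  have : (1 / 2 + F / 4) ^ 2 * (F ^ 3 * svS (-d) F r - 1) =
      128034 * b ^ 3 * f ^ 2 + 200340 * b ^ 3 * e * f + 82026 * b ^ 3 * e ^ 2 +
      212922 * b ^ 3 * c * f ^ 2 + 352080 * b ^ 3 * c * e * f + 149688 * b ^ 3 * c * e ^ 2 +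
      270513 / 2 * b ^ 3 * c ^ 2 * f ^ 2 + 232308 * b ^ 3 * c ^ 2 * e * f +
      101574 * b ^ 3 * c ^ 2 * e ^ 2 + 332883 / 8 * b ^ 3 * c ^ 3 * f ^ 2 +
      73521 * b ^ 3 * c ^ 3 * e * f + 65745 / 2 * b ^ 3 * c ^ 3 * e ^ 2 +
      12501 / 2 * b ^ 3 * c ^ 4 * f ^ 2 + 45171 / 4 * b ^ 3 * c ^ 4 * e * f +
      10287 / 2 * b ^ 3 * c ^ 4 * e ^ 2 + 11799 / 32 * b ^ 3 * c ^ 5 * f ^ 2 +
      5427 / 8 * b ^ 3 * c ^ 5 * e * f + 2511 / 8 * b ^ 3 * c ^ 5 * e ^ 2 +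
      339174 * a * b ^ 2 * f ^ 2 + 487836 * a * b ^ 2 * e * f + 185598 * a * b ^ 2 * e ^ 2 +
      582390 * a * b ^ 2 * c * f ^ 2 + 903744 * a * b ^ 2 * c * e * f +
      362664 * a * b ^ 2 * c * e ^ 2 + 763515 / 2 * a * b ^ 2 * c ^ 2 * f ^ 2 +
      623538 * a * b ^ 2 * c ^ 2 * e * f + 260046 * a * b ^ 2 * c ^ 2 * e ^ 2 +
      970029 / 8 * a * b ^ 2 * c ^ 3 * f ^ 2 + 205749 * a * b ^ 2 * c ^ 3 * e * f +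
      176967 / 2 * a * b ^ 2 * c ^ 3 * e ^ 2 + 18819 * a * b ^ 2 * c ^ 4 * f ^ 2 +
      131643 / 4 * a * b ^ 2 * c ^ 4 * e * f + 29043 / 2 * a * b ^ 2 * c ^ 4 * e ^ 2 +
      36729 / 32 * a * b ^ 2 * c ^ 5 * f ^ 2 + 16461 / 8 * a * b ^ 2 * c ^ 5 * e * f +
      7425 / 8 * a * b ^ 2 * c ^ 5 * e ^ 2 + 291852 * a ^ 2 * b * f ^ 2 +
      374508 * a ^ 2 * b * e * f + 129798 * a ^ 2 * b * e ^ 2 +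
      1039905 / 2 * a ^ 2 * b * c * f ^ 2 + 744048 * a ^ 2 * b * c * e * f +
      278622 * a ^ 2 * b * c * e ^ 2 + 1411113 / 4 * a ^ 2 * b * c ^ 2 * f ^ 2 +
      541629 * a ^ 2 * b * c ^ 2 * e * f + 213729 * a ^ 2 * b * c ^ 2 * e ^ 2 +
      231915 / 2 * a ^ 2 * b * c ^ 3 * f ^ 2 + 187431 * a ^ 2 * b * c ^ 3 * e * f +
      77064 * a ^ 2 * b * c ^ 3 * e ^ 2 + 298239 / 16 * a ^ 2 * b * c ^ 4 * f ^ 2 +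
      31374 * a ^ 2 * b * c ^ 4 * e * f + 53409 / 4 * a ^ 2 * b * c ^ 4 * e ^ 2 +
      37725 / 32 * a ^ 2 * b * c ^ 5 * f ^ 2 + 16413 / 8 * a ^ 2 * b * c ^ 5 * e * f +
      7197 / 8 * a ^ 2 * b * c ^ 5 * e ^ 2 + 81496 * a ^ 3 * f ^ 2 + 89252 * a ^ 3 * e * f +
      27826 * a ^ 3 * e ^ 2 + 303349 / 2 * a ^ 3 * c * f ^ 2 + 195848 * a ^ 3 * c * e * f +
      68166 * a ^ 3 * c * e ^ 2 + 427701 / 4 * a ^ 3 * c ^ 2 * f ^ 2 +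
      152343 * a ^ 3 * c ^ 2 * e * f + 56713 * a ^ 3 * c ^ 2 * e ^ 2 +
      145853 / 4 * a ^ 3 * c ^ 3 * f ^ 2 + 55675 * a ^ 3 * c ^ 3 * e * f +
      21825 * a ^ 3 * c ^ 3 * e ^ 2 + 97351 / 16 * a ^ 3 * c ^ 4 * f ^ 2 +
      9802 * a ^ 3 * c ^ 4 * e * f + 16057 / 4 * a ^ 3 * c ^ 4 * e ^ 2 +
      12807 / 32 * a ^ 3 * c ^ 5 * f ^ 2 + 5391 / 8 * a ^ 3 * c ^ 5 * e * f +
      2295 / 8 * a ^ 3 * c ^ 5 * e ^ 2 := by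
    rw [ha, hb, hc, he, hf, svS, svW, sv2]; ring
  rw [this]; positivity

theorem r3_poly2 {d F r a b c e f : ℝ} (ha : a = F * (1 - r)) (hb : b = 2 / 3 - F * (1 - r))
    (hc : c = F - 4) (he : e = d - 1 / 2 - 1 / 2 * (1 / 2 + F / 4))
    (hf : f = 3 / 4 * (1 / 2 + F / 4) - (d - 1 / 2)) (a0 : 0 ≤ a) (b0 : 0 ≤ b) (c0 : 0 ≤ c)
    (e0 : 0 ≤ e) (f0 : 0 ≤ f) : 0 ≤ (1 / 2 + F / 4) ^ 2 * (F ^ 3 * svS (-d) F r - 1) := by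
  have : (1 / 2 + F / 4) ^ 2 * (F ^ 3 * svS (-d) F r - 1) =
      82026 * b ^ 3 * f ^ 2 + 127764 * b ^ 3 * e * f + 55458 * b ^ 3 * e ^ 2 +
      149688 * b ^ 3 * c * f ^ 2 + 246672 * b ^ 3 * c * e * f + 107514 * b ^ 3 * c * e ^ 2 +
      101574 * b ^ 3 * c ^ 2 * f ^ 2 + 173988 * b ^ 3 * c ^ 2 * e * f +
      153873 / 2 * b ^ 3 * c ^ 2 * e ^ 2 + 65745 / 2 * b ^ 3 * c ^ 3 * f ^ 2 +
      57969 * b ^ 3 * c ^ 3 * e * f + 208467 / 8 * b ^ 3 * c ^ 3 * e ^ 2 +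
      10287 / 2 * b ^ 3 * c ^ 4 * f ^ 2 + 37125 / 4 * b ^ 3 * c ^ 4 * e * f +
      4239 * b ^ 3 * c ^ 4 * e ^ 2 + 2511 / 8 * b ^ 3 * c ^ 5 * f ^ 2 +
      4617 / 8 * b ^ 3 * c ^ 5 * e * f + 8559 / 32 * b ^ 3 * c ^ 5 * e ^ 2 +
      185598 * a * b ^ 2 * f ^ 2 + 254556 * a * b ^ 2 * e * f + 105894 * a * b ^ 2 * e ^ 2 +
      362664 * a * b ^ 2 * c * f ^ 2 + 546912 * a * b ^ 2 * c * e * f +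
      225558 * a * b ^ 2 * c * e ^ 2 + 260046 * a * b ^ 2 * c ^ 2 * f ^ 2 +
      416646 * a * b ^ 2 * c ^ 2 * e * f + 349731 / 2 * a * b ^ 2 * c ^ 2 * e ^ 2 +
      176967 / 2 * a * b ^ 2 * c ^ 3 * f ^ 2 + 148185 * a * b ^ 2 * c ^ 3 * e * f +
      509517 / 8 * a * b ^ 2 * c ^ 3 * e ^ 2 + 29043 / 2 * a * b ^ 2 * c ^ 4 * f ^ 2 +
      100701 / 4 * a * b ^ 2 * c ^ 4 * e * f + 22167 / 2 * a * b ^ 2 * c ^ 4 * e ^ 2 +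
      7425 / 8 * a * b ^ 2 * c ^ 5 * f ^ 2 + 13239 / 8 * a * b ^ 2 * c ^ 5 * e * f +
      23841 / 32 * a * b ^ 2 * c ^ 5 * e ^ 2 + 129798 * a ^ 2 * b * f ^ 2 +
      144684 * a ^ 2 * b * e * f + 62028 * a ^ 2 * b * e ^ 2 + 278622 * a ^ 2 * b * c * f ^ 2 +
      370440 * a ^ 2 * b * c * e * f + 292689 / 2 * a ^ 2 * b * c * e ^ 2 +
      213729 * a ^ 2 * b * c ^ 2 * f ^ 2 + 313287 * a ^ 2 * b * c ^ 2 * e * f +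
      497745 / 4 * a ^ 2 * b * c ^ 2 * e ^ 2 + 77064 * a ^ 2 * b * c ^ 3 * f ^ 2 +
      120825 * a ^ 2 * b * c ^ 3 * e * f + 98703 / 2 * a ^ 2 * b * c ^ 3 * e ^ 2 +
      53409 / 4 * a ^ 2 * b * c ^ 4 * f ^ 2 + 22035 * a ^ 2 * b * c ^ 4 * e * f +
      148815 / 16 * a ^ 2 * b * c ^ 4 * e ^ 2 + 7197 / 8 * a ^ 2 * b * c ^ 5 * f ^ 2 +
      12375 / 8 * a ^ 2 * b * c ^ 5 * e * f + 21573 / 32 * a ^ 2 * b * c ^ 5 * e ^ 2 +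
      27826 * a ^ 3 * f ^ 2 + 22052 * a ^ 3 * e * f + 14296 * a ^ 3 * e ^ 2 +
      68166 * a ^ 3 * c * f ^ 2 + 76816 * a ^ 3 * c * e * f + 65285 / 2 * a ^ 3 * c * e ^ 2 +
      56713 * a ^ 3 * c ^ 2 * f ^ 2 + 74509 * a ^ 3 * c ^ 2 * e * f +
      116365 / 4 * a ^ 3 * c ^ 2 * e ^ 2 + 21825 * a ^ 3 * c ^ 3 * f ^ 2 +
      31625 * a ^ 3 * c ^ 3 * e * f + 49653 / 4 * a ^ 3 * c ^ 3 * e ^ 2 +
      16057 / 4 * a ^ 3 * c ^ 4 * f ^ 2 + 6255 * a ^ 3 * c ^ 4 * e * f +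
      40599 / 16 * a ^ 3 * c ^ 4 * e ^ 2 + 2295 / 8 * a ^ 3 * c ^ 5 * f ^ 2 +
      3789 / 8 * a ^ 3 * c ^ 5 * e * f + 6399 / 32 * a ^ 3 * c ^ 5 * e ^ 2 := by
    rw [ha, hb, hc, he, hf, svS, svW, sv2]; ring
  rw [this]; positivity

theorem r3_poly3 {d F r a b c e f : ℝ} (ha : a = F * (1 - r)) (hb : b = 2 / 3 - F * (1 - r))
    (hc : c = F - 4) (he : e = d - 1 / 2 - 3 / 4 * (1 / 2 + F / 4))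
    (hf : f = 1 * (1 / 2 + F / 4) - (d - 1 / 2)) (a0 : 0 ≤ a) (b0 : 0 ≤ b) (c0 : 0 ≤ c)
    (e0 : 0 ≤ e) (f0 : 0 ≤ f) : 0 ≤ (1 / 2 + F / 4) ^ 2 * (F ^ 3 * svS (-d) F r - 1) := by
  have : (1 / 2 + F / 4) ^ 2 * (F ^ 3 * svS (-d) F r - 1) =
      55458 * b ^ 3 * f ^ 2 + 94068 * b ^ 3 * e * f + 48330 * b ^ 3 * e ^ 2 +
      107514 * b ^ 3 * c * f ^ 2 + 183384 * b ^ 3 * c * e * f + 86400 * b ^ 3 * c * e ^ 2 +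
      153873 / 2 * b ^ 3 * c ^ 2 * f ^ 2 + 133758 * b ^ 3 * c ^ 2 * e * f +
      61344 * b ^ 3 * c ^ 2 * e ^ 2 + 208467 / 8 * b ^ 3 * c ^ 3 * f ^ 2 +
      92529 / 2 * b ^ 3 * c ^ 3 * e * f + 21168 * b ^ 3 * c ^ 3 * e ^ 2 +
      4239 * b ^ 3 * c ^ 4 * f ^ 2 + 30699 / 4 * b ^ 3 * c ^ 4 * e * f +
      3537 * b ^ 3 * c ^ 4 * e ^ 2 + 8559 / 32 * b ^ 3 * c ^ 5 * f ^ 2 +
      1971 / 4 * b ^ 3 * c ^ 5 * e * f + 459 / 2 * b ^ 3 * c ^ 5 * e ^ 2 +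
      105894 * a * b ^ 2 * f ^ 2 + 169020 * a * b ^ 2 * e * f + 100062 * a * b ^ 2 * e ^ 2 +
      225558 * a * b ^ 2 * c * f ^ 2 + 355320 * a * b ^ 2 * c * e * f +
      171072 * a * b ^ 2 * c * e ^ 2 + 349731 / 2 * a * b ^ 2 * c ^ 2 * f ^ 2 +
      282816 * a * b ^ 2 * c ^ 2 * e * f + 126216 * a * b ^ 2 * c ^ 2 * e ^ 2 +
      509517 / 8 * a * b ^ 2 * c ^ 3 * f ^ 2 + 213147 / 2 * a * b ^ 2 * c ^ 3 * e * f +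
      46872 * a * b ^ 2 * c ^ 3 * e ^ 2 + 22167 / 2 * a * b ^ 2 * c ^ 4 * f ^ 2 +
      76635 / 4 * a * b ^ 2 * c ^ 4 * e * f + 8505 * a * b ^ 2 * c ^ 4 * e ^ 2 +
      23841 / 32 * a * b ^ 2 * c ^ 5 * f ^ 2 + 5301 / 4 * a * b ^ 2 * c ^ 5 * e * f +
      1197 / 2 * a * b ^ 2 * c ^ 5 * e ^ 2 + 62028 * a ^ 2 * b * f ^ 2 +
      103428 * a ^ 2 * b * e * f + 88542 * a ^ 2 * b * e ^ 2 + 292689 / 2 * a ^ 2 * b * c * f ^ 2 +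
      214938 * a ^ 2 * b * c * e * f + 123120 * a ^ 2 * b * c * e ^ 2 +
      497745 / 4 * a ^ 2 * b * c ^ 2 * f ^ 2 + 184458 * a ^ 2 * b * c ^ 2 * e * f +
      84900 * a ^ 2 * b * c ^ 2 * e ^ 2 + 98703 / 2 * a ^ 2 * b * c ^ 3 * f ^ 2 +
      76581 * a ^ 2 * b * c ^ 3 * e * f + 32820 * a ^ 2 * b * c ^ 3 * e ^ 2 +
      148815 / 16 * a ^ 2 * b * c ^ 4 * f ^ 2 + 60675 / 4 * a ^ 2 * b * c ^ 4 * e * f +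
      6486 * a ^ 2 * b * c ^ 4 * e ^ 2 + 21573 / 32 * a ^ 2 * b * c ^ 5 * f ^ 2 +
      4599 / 4 * a ^ 2 * b * c ^ 5 * e * f + 1005 / 2 * a ^ 2 * b * c ^ 5 * e ^ 2 +
      14296 * a ^ 3 * f ^ 2 + 35132 * a ^ 3 * e * f + 40906 * a ^ 3 * e ^ 2 +
      65285 / 2 * a ^ 3 * c * f ^ 2 + 53754 * a ^ 3 * c * e * f + 45104 * a ^ 3 * c * e ^ 2 +
      116365 / 4 * a ^ 3 * c ^ 2 * f ^ 2 + 41856 * a ^ 3 * c ^ 2 * e * f +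
      24060 * a ^ 3 * c ^ 2 * e ^ 2 + 49653 / 4 * a ^ 3 * c ^ 3 * f ^ 2 +
      18028 * a ^ 3 * c ^ 3 * e * f + 8228 * a ^ 3 * c ^ 3 * e ^ 2 +
      40599 / 16 * a ^ 3 * c ^ 4 * f ^ 2 + 15579 / 4 * a ^ 3 * c ^ 4 * e * f +
      1654 * a ^ 3 * c ^ 4 * e ^ 2 + 6399 / 32 * a ^ 3 * c ^ 5 * f ^ 2 +
      1305 / 4 * a ^ 3 * c ^ 5 * e * f + 279 / 2 * a ^ 3 * c ^ 5 * e ^ 2 := by
    rw [ha, hb, hc, he, hf, svS, svW, sv2]; ring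
  rw [this]; positivity

end Pool.Agent.Lib.MP_d6150d_an
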