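import Pool.Agent.Lib.MP_d6150d_an.Expl
import Pool.Agent.Lib.MP_d6150d_an.ChkDefs

/-! Contexts, slices and the removal of low order terms. -/

namespace Pool.Agent.Lib.MP_d6150d_an

open Finset

theorem mo_digs : ∀ (Ss : List ℕ) (xs : List ℝ) (k : ℕ),
    mo Ss xs k = (List.zipWith (fun x d ↦ x ^ d) xs (digs Ss k)).prod
  | [], _, _ => by simp [mo, digs]
  | _ :: _, [], _ => by simp [mo]
  | S :: Ss, x :: xs, k => by simp [mo, digs, mo_digs Ss xs]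

/-- correctness of the contexts -/
def Cx.ok (X : Cx) (Ss : List ℕ) (o : Bool) : Bool :=
  X.s.ok Ss [o, false, false, o] && X.b.ok Ss [o, false, false, o] && decide (X.s.n ≤ X.b.n) &&
    idx Ss X.s.n 1 [1, 0, 0, 0] && idx Ss X.s.n X.iF [0, 1, 0, 0] &&
    idx Ss X.b.n X.iD [0, 0, 1, 0] && idx Ss X.b.n (2 * X.iD) [0, 0, 2, 0] &&
    idx Ss X.b.n (X.iD + X.iF) [0, 1, 1, 0] && idx Ss X.b.n (2 * X.iF) [0, 2, 0, 0] &&
    decide (X.lin = msk (fun k ↦ X.lin.testBit (224 * k) && keep Ss k) X.b.n)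

structure Cx.Good (X : Cx) (P : St) (x y : ℝ) : Prop where
  s : X.s.Good P
  b : X.b.Good P
  le : X.s.n ≤ X.b.n
  lin : Msk P X.b X.lin
  m1 : ∀ z : ℤ, Val P X.s.n (TM.mon 1 z) fun τ ↦ z / 2 ^ 48 * τ
  mF : ∀ z : ℤ, Val P X.s.n (TM.mon X.iF z) fun _ ↦ z / 2 ^ 48 * x
  mD : ∀ z : ℤ, Val P X.b.n (TM.mon X.iD z) fun _ ↦ z / 2 ^ 48 * y
  mDD : ∀ z : ℤ, Val P X.b.n (TM.mon (2 * X.iD) z) fun _ ↦ z / 2 ^ 48 * y ^ 2
  mDF : ∀ z : ℤ, Val P X.b.n (TM.mon (X.iD + X.iF) z) fun _ ↦ z / 2 ^ 48 * (x * y)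
  mFF : ∀ z : ℤ, Val P X.b.n (TM.mon (2 * X.iF) z) fun _ ↦ z / 2 ^ 48 * x ^ 2

/-- the setting for given values of the parameters -/
def mkSt (S : ℕ) (Ss : List ℕ) (o : Bool) (m : ℕ) {x y z : ℝ} (hx : |x| ≤ 1) (hy : |y| ≤ 1)
    (hz : z ∈ Set.Icc (0 : ℝ) 1) : St where
  Ss := S :: Ss
  fl := [o, false, false, o]
  xs := [x, y, z]
  I := Set.Icc (if o then 0 else -1) 1
  m := m
  hS := by simp
  hI := fun τ hτ ↦ abs_le.2 ⟨le_trans (by split_ifs <;> norm_num) hτ.1, hτ.2⟩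
  h0 := ⟨by split_ifs <;> norm_num, by norm_num⟩
  hx := by simpa using ⟨hx, hy, abs_le.2 ⟨by linarith [hz.1], hz.2⟩⟩
  hf := fun τ hτ ↦ ⟨fun h ↦ by simpa [h] using hτ.1, by simp, by simp, fun _ ↦ hz.1, trivial⟩

theorem idx_val {P : St} {c : Ctx} (G : c.Good P) {k : ℕ} {d : List ℕ}
    (h : idx P.Ss c.n k d = true) (z : ℤ) : Val P c.n (TM.mon k z)
      fun τ ↦ z / 2 ^ 48 * (List.zipWith (fun x d ↦ x ^ d) (τ :: P.xs) d).prod := by
  simp only [idx, Bool.and_eq_true, decide_eq_true_eq] at h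
  have := G.n2
  refine (Val.mon h.1.1 (by omega) h.1.2 z).congr fun τ _ ↦ ?_
  rw [St.mo, mo_digs, h.2]

theorem msk_ind (p : ℕ → Bool) (n : ℕ) :
    msk p n = dg (fun k ↦ ind (k < n ∧ p k = true)) N0 := msk_eq p n

theorem Cx.good {X : Cx} {S : ℕ} {Ss : List ℕ} {o : Bool} (h : X.ok (S :: Ss) o = true) (m : ℕ)
    {x y z : ℝ} (hx : |x| ≤ 1) (hy : |y| ≤ 1) (hz : z ∈ Set.Icc (0 : ℝ) 1) :
    X.Good (mkSt S Ss o m hx hy hz) x y := by
  simp only [Cx.ok, Bool.and_eq_true, decide_eq_true_eq] at h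
  obtain ⟨⟨⟨⟨⟨⟨⟨⟨⟨h1, h2⟩, h3⟩, h4⟩, h5⟩, h6⟩, h7⟩, h8⟩, h9⟩, h10⟩ := h
  have s := Ctx.good (P := mkSt S Ss o m hx hy hz) h1
  have b := Ctx.good (P := mkSt S Ss o m hx hy hz) h2
  refine ⟨s, b, h3, ⟨_, _, h10.trans (msk_ind _ _), fun k hk ↦ ⟨hk.1, ?_⟩⟩,
    fun a ↦ (idx_val s h4 a).congr ?_, fun a ↦ (idx_val s h5 a).congr ?_,
    fun a ↦ (idx_val b h6 a).congr ?_, fun a ↦ (idx_val b h7 a).congr ?_,
    fun a ↦ (idx_val b h8 a).congr ?_, fun a ↦ (idx_val b h9 a).congr ?_⟩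
  · exact (Bool.and_eq_true_iff.1 hk.2).2
  all_goals simp [mkSt]

theorem taup_val {P : St} {c : Ctx} (G : c.Good P) {k : ℕ} {d : List ℕ}
    (h : idx P.Ss c.n k d = true) : Val P c.n (taup k)
      fun τ ↦ (List.zipWith (fun x d ↦ x ^ d) (τ :: P.xs) d).prod :=
  (idx_val G h _).congr fun τ _ ↦ by norm_num

section split

variable {P : St} {S : ℕ} {Ss : List ℕ} (hS : P.Ss = S :: Ss)
include hS

theorem mo_eq (k : ℕ) (τ : ℝ) : P.mo k τ = τ ^ (k % S) * mo Ss P.xs (k / S) := by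
  rw [St.mo, hS, mo]

omit hS in
theorem mod_shift {S k m : ℕ} (h : m ≤ (k + m) % S) (hS : 0 < S) :
    (k + m) % S = k % S + m ∧ (k + m) / S = k / S := by
  have h1 := Nat.mod_add_div (k + m) S
  have h2 := Nat.mod_lt (k + m) hS
  have := (Nat.div_mod_unique (a := k) (c := (k + m) % S - m) (d := (k + m) / S) hS).2
    ⟨by omega, by omega⟩
  omega

theorem keep_shift {k m : ℕ} (h : m ≤ (k + m) % S) (hk : keep P.Ss (k + m) = true) :
    keep P.Ss k = true ∧ 0 < S := by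
  rw [hS] at hk ⊢
  simp only [keep, Bool.and_eq_true, decide_eq_true_eq] at hk ⊢
  have := mod_shift h (by omega)
  exact ⟨⟨by omega, this.2 ▸ hk.2⟩, by omega⟩

theorem ev_shift {n m : ℕ} (hn : 2 * n ≤ N0) (e : ℕ → ℤ) (p : ℕ → Prop) [DecidablePred p]
    (hp : ∀ k, p k → k < n ∧ keep P.Ss k = true ∧ m ≤ k % S) (τ : ℝ) :
    P.ev (fun k ↦ if p k then e k else 0) τ =
      τ ^ m * P.ev (fun k ↦ if p (k + m) then e (k + m) else 0) τ := by
  have h1 : P.ev (fun k ↦ if p k then e k else 0) τ =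
      ∑ k ∈ range (m + N0), ((if p k then e k else 0 : ℤ) : ℝ) * P.mo k τ := by
    refine sum_subset (range_subset_range.2 (by omega)) fun k _ hk ↦ ?_
    have : ¬p k := fun h ↦ hk (mem_range.2 (by have := (hp k h).1; omega))
    simp [this]
  rw [h1, sum_range_add, sum_eq_zero, zero_add, St.ev, mul_sum]
  · refine sum_congr rfl fun k _ ↦ ?_
    rw [add_comm m k]
    split_ifs with h
    · obtain ⟨-, h2, h3⟩ := hp _ h
      have := mod_shift h3 (keep_shift hS h3 h2).2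
      rw [mo_eq hS, mo_eq hS, this.1, this.2]; ring
    · simp
  · intro k hk
    have : ¬p k := fun h ↦ by
      have := (hp k h).2.2
      have := Nat.mod_le k S
      have := mem_range.1 hk
      omega
    simp [this]

theorem ev_const (e : ℕ → ℤ) (he : ∀ k, e k ≠ 0 → k % S = 0) (τ : ℝ) : P.ev e τ = P.ev e 0 := by
  refine sum_congr rfl fun k _ ↦ ?_
  by_cases h : e k = 0
  · simp [h]
  · rw [mo_eq hS, mo_eq hS, he k h, pow_zero, pow_zero]

variable {X : Cx} (G : X.b.Good P) {a : TM} {m : ℕ}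
include G

theorem Rep.low {e : ℕ → ℤ} (R : Rep P X.b.n a e) (hl : a.l < 2 ^ 223)
    (h : okLow X P.Ss S m = true) (hm : m ≤ N0) : ∃ lo hi : ℕ → ℤ,
      Rep P X.b.n (TM.tight X.b (TM.part X.b (lowMask X m) 0 a)) lo ∧
      Rep P X.b.n (TM.tight X.b (TM.part X.b (X.b.kp - lowMask X m) m a)) hi ∧
      (∀ k, lo k ≠ 0 → k % S < m) ∧ ∀ τ, P.ev e τ = P.ev lo τ + τ ^ m * P.ev hi τ := by
  simp only [okLow, Bool.and_eq_true, decide_eq_true_eq] at h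
  have R1 := R.part G hl (fun k ↦ k < X.b.n ∧ (keep P.Ss k && decide (k % S < m)) = true) 0
    (Nat.zero_le _) (fun k h ↦ h.1) fun k h ↦ (Bool.and_eq_true_iff.1 h.2).1
  have R2 := R.part G hl (fun k ↦ k < X.b.n ∧ (keep P.Ss k && decide (m ≤ k % S)) = true) m hm
    (fun k h ↦ h.1) fun k h ↦ (keep_shift hS (of_decide_eq_true (Bool.and_eq_true_iff.1 h.2).2)
      (Bool.and_eq_true_iff.1 h.2).1).1
  rw [← msk_ind, ← h.1] at R1
  rw [← msk_ind, ← h.2] at R2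
  have l1 : ∀ M i, (TM.part X.b M i a).l < 2 ^ 223 := fun M i ↦ by rw [TM.part, if_pos hl]; exact hl
  refine ⟨_, _, (R1.tight G (l1 _ _)).1, (R2.tight G (l1 _ _)).1, fun k hk ↦ ?_, fun τ ↦ ?_⟩
  · by_contra h'; exact hk (if_neg fun h ↦ h' (by simpa using (Bool.and_eq_true_iff.1 h.2).2))
  · rw [← ev_shift hS G.n2 e (fun k ↦ k < X.b.n ∧ (keep P.Ss k && decide (m ≤ k % S)) = true)
      fun k h ↦ ⟨h.1, by simpa using h.2⟩, ← P.ev_add]
    refine congrFun (congrArg P.ev (funext fun k ↦ ?_)) τ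
    by_cases hk : e k = 0
    · simp [hk]
    · obtain ⟨h3, h4⟩ := R.supp k hk
      by_cases h5 : k % S < m <;> simp [h3, h4, h5, not_lt.1, not_le.2]

theorem Val.slice {f : ℝ → ℝ} (h : Val P X.b.n a f) {i : ℕ} (hi : okSlice X P.Ss S i = true) :
    ∃ c : ℝ, Val P X.b.n (TM.part X.b (sliceMask X i) i a) fun _ ↦ c := by
  by_cases hl : a.l < 2 ^ 223
  swap
  · rw [TM.part, if_neg hl]; exact ⟨_, Val.zero G⟩
  simp only [okSlice, idx, Bool.and_eq_true, decide_eq_true_eq] at hi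
  obtain ⟨e, R, -⟩ := h
  have n2 := G.n2
  have R1 := R.part G hl (fun k ↦ k < X.b.n ∧ (keep P.Ss k && decide (k % S = i)) = true) i
    (by omega) (fun k h ↦ h.1) fun k h ↦ (keep_shift hS
      (of_decide_eq_true (Bool.and_eq_true_iff.1 h.2).2).ge (Bool.and_eq_true_iff.1 h.2).1).1
  rw [← msk_ind, ← hi.1] at R1
  have key := ev_const hS (fun k ↦ if k + i < X.b.n ∧
      (keep P.Ss (k + i) && decide ((k + i) % S = i)) = true then e (k + i) else 0) fun k hk ↦ by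
    have h : k + i < X.b.n ∧ (keep P.Ss (k + i) && decide ((k + i) % S = i)) = true := by
      by_contra h'; exact hk (if_neg h')
    have h1 := of_decide_eq_true (Bool.and_eq_true_iff.1 h.2).2
    have := mod_shift h1.ge (keep_shift hS h1.ge (Bool.and_eq_true_iff.1 h.2).1).2
    omega
  generalize (fun k ↦ if k + i < X.b.n ∧
      (keep P.Ss (k + i) && decide ((k + i) % S = i)) = true then e (k + i) else 0) = e' at R1 key
  refine ⟨P.ev e' 0 / 2 ^ 64, _, R1, ((Nm.const 0).congr fun τ _ ↦ ?_).mono (by simp)⟩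
  rw [key τ, mul_div_cancel₀ _ (by positivity), sub_self]

end split

theorem coef_zero {c0 c1 M : ℝ}
    (h : ∀ᶠ τ in nhdsWithin (0 : ℝ) {0}ᶜ, |c0 + c1 * τ| ≤ M * τ ^ 2) : c0 = 0 ∧ c1 = 0 := by
  have h0 : c0 = 0 := abs_nonpos_iff.1 (le_of_tendsto_of_tendsto
    ((Continuous.tendsto' (by fun_prop) 0 _ (by simp)).mono_left nhdsWithin_le_nhds)
    ((Continuous.tendsto' (by fun_prop) 0 _ (by simp)).mono_left nhdsWithin_le_nhds) h)
  refine ⟨h0, ?_⟩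
  have h1 : Filter.Tendsto (fun τ : ℝ ↦ M * |τ|) (nhdsWithin 0 {0}ᶜ) (nhds 0) :=
    (Continuous.tendsto' (by fun_prop) 0 0 (by simp)).mono_left nhdsWithin_le_nhds
  refine abs_nonpos_iff.1 (ge_of_tendsto h1 ?_)
  filter_upwards [h, self_mem_nhdsWithin] with τ h hτ
  rw [h0, zero_add, abs_mul, ← sq_abs, sq, ← mul_assoc] at h
  exact le_of_mul_le_mul_right h (abs_pos.2 hτ)

theorem peel : ∀ (j : ℕ) {G : ℝ → ℝ} {η M : ℝ} {H : ℕ → ℝ → ℝ} {C δ : ℕ → ℝ},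
    Nm (Set.Icc (-1) 1) (2 * j) G η → (∀ i < j, Nm (Set.Icc (-1) 1) (2 * j) (H i) (C i)) →
    (∀ i, H i 0 = 1) →
    (∀ᶠ τ in nhdsWithin (0 : ℝ) {0}ᶜ,
      |G τ - ∑ i ∈ range j, δ i * τ ^ (2 * i + 1) * H i τ| ≤ M * τ ^ (2 * j)) →
    ∀ τ ∈ Set.Icc (-1 : ℝ) 1, |G τ - ∑ i ∈ range j, δ i * τ ^ (2 * i + 1) * H i τ| ≤
      η * (∏ i ∈ range j, (1 + C i)) * τ ^ (2 * j)
  | 0, _, _, _, _, _, _, hG, _, _, _, τ, hτ => by simpa using hG τ hτ
  | j + 1, G, η, M, H, C, δ, hG, hH, h1, hM, τ, hτ => by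
    have hI : ∀ τ ∈ Set.Icc (-1 : ℝ) 1, |τ| ≤ 1 := fun τ h ↦ abs_le.2 h
    have h0 : (0 : ℝ) ∈ Set.Icc (-1 : ℝ) 1 := by norm_num
    have nI : Set.Icc (-1 : ℝ) 1 ∈ nhdsWithin (0 : ℝ) {0}ᶜ :=
      nhdsWithin_le_nhds (Icc_mem_nhds (by norm_num) (by norm_num))
    obtain ⟨c0, g1, e0, c1, g2, e1, hg⟩ := id hG
    obtain ⟨d, k, e2, hk⟩ := id (hH 0 (by omega))
    obtain rfl : d = 1 := by simpa [h1] using (e2 0 h0).symm
    have hk := hk.weaken hI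
    have hW : ∀ i < j, Nm (Set.Icc (-1) 1) (2 * j) (H (i + 1)) (C (i + 1)) := fun i hi ↦
      (hH (i + 1) (by omega)).weak hI (n := 2)
    have key : ∀ τ ∈ Set.Icc (-1 : ℝ) 1,
        G τ - ∑ i ∈ range (j + 1), δ i * τ ^ (2 * i + 1) * H i τ = c0 + (c1 - δ 0) * τ + τ ^ 2 *
          (g2 τ + -δ 0 * k τ - ∑ i ∈ range j, δ (i + 1) * τ ^ (2 * i + 1) * H (i + 1) τ) :=
      fun τ hτ ↦ by
      rw [sum_range_succ', e0 τ hτ, e1 τ hτ, e2 τ hτ, mul_sub, mul_sum,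
        sum_congr rfl (g := fun i ↦ τ ^ 2 * (δ (i + 1) * τ ^ (2 * i + 1) * H (i + 1) τ))
          fun i _ ↦ by ring]
      ring
    have hg2 := hg.add (hk.smul (-δ 0))
    have hR := (hg2.add ((Nm.sum (range j) (f := fun i τ ↦ τ ^ (2 * i + 1) * δ (i + 1) *
      H (i + 1) τ) fun i hi ↦ (Nm.taupow hI (δ (i + 1)) (2 * i + 1)).mul hI
        (hW i (mem_range.1 hi))).smul (-1))).sup hI
    generalize _ + |(-1 : ℝ)| * _ = B at hR
    obtain ⟨z0, z1⟩ := coef_zero (c0 := c0) (c1 := c1 - δ 0) (M := |M| + B) (by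
      filter_upwards [hM, nI] with τ h hτ
      rw [key τ hτ] at h
      have h2 := hR τ hτ
      rw [sum_congr rfl (g := fun i ↦ δ (i + 1) * τ ^ (2 * i + 1) * H (i + 1) τ)
        fun i _ ↦ by ring, neg_one_mul, ← sub_eq_add_neg] at h2
      generalize g2 τ + _ - _ = r at h h2
      have h3 : τ ^ (2 * j) ≤ 1 := by
        rw [pow_mul]; exact pow_le_one₀ (sq_nonneg _) ((sq_le_one_iff_abs_le_one _).2 (hI τ hτ))
      have h4 : M * τ ^ (2 * (j + 1)) ≤ |M| * τ ^ 2 := by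
        rw [show M * τ ^ (2 * (j + 1)) = M * τ ^ (2 * j) * τ ^ 2 by ring]
        refine mul_le_mul_of_nonneg_right ((le_abs_self _).trans ?_) (sq_nonneg _)
        rw [abs_mul, abs_of_nonneg (by rw [pow_mul]; positivity : 0 ≤ τ ^ (2 * j))]
        exact mul_le_of_le_one_right (abs_nonneg _) h3
      have h5 : |τ ^ 2 * r| ≤ B * τ ^ 2 := by
        rw [abs_mul, abs_of_nonneg (sq_nonneg τ), mul_comm]
        exact mul_le_mul_of_nonneg_right h2 (sq_nonneg _)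
      have := abs_sub (c0 + (c1 - δ 0) * τ + τ ^ 2 * r) (τ ^ 2 * r)
      rw [add_sub_cancel_right] at this
      linarith)
    have hη := hg.c_le hI h0
    have hC := hk.c_le hI h0
    have := peel j (G := fun τ ↦ g2 τ + -δ 0 * k τ) (η := η * (1 + C 0)) (M := M)
      (δ := fun i ↦ δ (i + 1)) (hg2.mono (by
        rw [abs_neg, ← sub_eq_zero.1 z1]
        have := abs_nonneg c0
        have := abs_nonneg c1
        rw [abs_one] at hC ⊢
        nlinarith)) hW (fun i ↦ h1 _) (by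
      filter_upwards [hM, nI, self_mem_nhdsWithin] with τ h hτ h2
      rw [key τ hτ, z0, z1, zero_mul, zero_add, zero_add, abs_mul, abs_of_nonneg (sq_nonneg τ),
        show M * τ ^ (2 * (j + 1)) = τ ^ 2 * (M * τ ^ (2 * j)) by ring] at h
      exact le_of_mul_le_mul_left h (pow_pos (abs_pos.2 h2) 2 |>.trans_eq (sq_abs τ))) τ hτ
    rw [key τ hτ, z0, z1, zero_mul, zero_add, zero_add, abs_mul, abs_of_nonneg (sq_nonneg τ),
      prod_range_succ']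
    refine (mul_le_mul_of_nonneg_left this (sq_nonneg τ)).trans (le_of_eq ?_)
    ring

end Pool.Agent.Lib.MP_d6150d_an
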