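import Pool.Agent.Lib.MP_d6150d_an.Sd1

/-! Soundness of the building blocks. -/

set_option linter.unusedTactic false
set_option linter.unreachableTactic false

namespace Pool.Agent.Lib.MP_d6150d_an

open Real

section one

variable {P : St} {c : Ctx} (Gc : c.Good P) {F p q r y w ww u v : TM}
  {fF fp fq fr fy fw fww fu fv : ℝ → ℝ}
include Gc

theorem pj_val (hF : Val P c.n F fF) (hp : Val P c.n p fp) (hq : Val P c.n q fq)
    (hr : Val P c.n r fr) :
    Val P c.n (pj c F p q r).1 (fun τ ↦ (pjR (fF τ) (fp τ) (fq τ) (fr τ)).1) ∧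
    Val P c.n (pj c F p q r).2.1 (fun τ ↦ (pjR (fF τ) (fp τ) (fq τ) (fr τ)).2.1) ∧
    Val P c.n (pj c F p q r).2.2 fun τ ↦ (pjR (fF τ) (fp τ) (fq τ) (fr τ)).2.2 := by
  unfold pj; dsimp only
  refine ⟨?_, ?_, ?_⟩ <;> apply Val.congr
  all_goals first
    | (show Val _ _ _ _
       repeat' with_reducible first
      | assumption | apply Val.add | apply Val.sub | apply Val.smul | apply Val.mul Gc
      | apply Val.tight Gc | apply Val.int Gc | apply Val.inv Gc | apply Val.mon0 Gc)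
    | (intro τ _; simp only [pjR]; push_cast; rfl)

theorem tj_val (hF : Val P c.n F fF) (hp : Val P c.n p fp) (hq : Val P c.n q fq)
    (hr : Val P c.n r fr) (hy : Val P c.n y fy) (hw : Val P c.n w fw) (hww : Val P c.n ww fww) :
    Val P c.n (tj c F p q r y w ww).t1 (fun τ ↦ fy τ * (fww τ * fww τ * fww τ)) ∧
    Val P c.n (tj c F p q r y w ww).t2
      (fun τ ↦ fy τ * fy τ * (pjR (fF τ) (fp τ) (fq τ) (fr τ)).1 * (fww τ * fww τ)) ∧
    Val P c.n (tj c F p q r y w ww).t3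
      (fun τ ↦ fy τ * fy τ * fy τ * (pjR (fF τ) (fp τ) (fq τ) (fr τ)).2.1 * fww τ) ∧
    Val P c.n (tj c F p q r y w ww).t4
      (fun τ ↦ fy τ * fy τ * fy τ * fy τ * (pjR (fF τ) (fp τ) (fq τ) (fr τ)).2.2) ∧
    Val P c.n (tj c F p q r y w ww).w7 fun τ ↦ fww τ * fww τ * fww τ * fw τ := by
  obtain ⟨h1, h2, h3⟩ := pj_val Gc hF hp hq hr
  unfold tj; dsimp only
  refine ⟨?_, ?_, ?_, ?_, ?_⟩ <;>
    repeat' with_reducible first
      | assumption | apply Val.add | apply Val.sub | apply Val.smul | apply Val.mul Gc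
      | apply Val.tight Gc | apply Val.int Gc | apply Val.inv Gc | apply Val.mon0 Gc

theorem tot_val (hF : Val P c.n F fF) (hp : Val P c.n p fp) (hq : Val P c.n q fq)
    (hr : Val P c.n r fr) (hy : Val P c.n y fy) (hw : Val P c.n w fw) (hww : Val P c.n ww fww)
    (hu : Val P c.n u fu) {a : Co} {q2 q1 q0 : ℝ → ℝ} (h2 : Val P c.n a.a2 q2)
    (h1 : Val P c.n a.a1 q1) (h0 : Val P c.n a.a0 q0) :
    Val P c.n (sumX c (tj c F p q r y w ww) a u) fun τ ↦ totR (fF τ) (fp τ) (fq τ) (fr τ) (fy τ)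
      (fw τ) (fww τ) (q2 τ) (q1 τ) (q0 τ) (fu τ) := by
  obtain ⟨t1, t2, t3, t4, t5⟩ := tj_val Gc hF hp hq hr hy hw hww
  unfold sumX
  apply Val.congr
  · repeat' with_reducible first
      | assumption | apply Val.add | apply Val.sub | apply Val.smul | apply Val.mul Gc
      | apply Val.tight Gc | apply Val.int Gc | apply Val.inv Gc | apply Val.mon0 Gc
  · intro τ _; simp only [totR, sumR]; push_cast; rfl

omit Gc in
/-- the coefficients of the operators are enclosed -/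
structure EC (P : St) (n : ℕ) (e : Env) (p : ℝ → Par) : Prop where
  a1 : Val P n e.a1 fun τ ↦ (p τ).a1
  b1 : Val P n e.b1 fun τ ↦ (p τ).b1
  c1 : Val P n e.c1 fun τ ↦ (p τ).c1
  a2 : Val P n e.a2 fun τ ↦ (p τ).a2
  b2 : Val P n e.b2 fun τ ↦ (p τ).b2
  c2 : Val P n e.c2 fun τ ↦ (p τ).c2
  ka : Val P n e.ka fun τ ↦ (p τ).ka

theorem acoef_val {e : Env} {p : ℝ → Par} (E : EC P c.n e p) (hv : Val P c.n v fv) :
    Val P c.n (acoef c e v v).a2 (fun τ ↦ (p τ).q2 (fv τ)) ∧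
    Val P c.n (acoef c e v v).a1 (fun τ ↦ (p τ).q1 (fv τ)) ∧
    Val P c.n (acoef c e v v).a0 (fun τ ↦ (p τ).q0 (fv τ)) ∧
    Val P c.n (acoef c e v v).A1 (fun τ ↦ (p τ).A1 (fv τ)) ∧
    Val P c.n (acoef c e v v).A2 fun τ ↦ (p τ).A2 (fv τ) := by
  obtain ⟨h1, h2, h3, h4, h5, h6, h7⟩ := E
  unfold acoef; dsimp only
  refine ⟨?_, ?_, ?_, ?_, ?_⟩ <;> apply Val.congr
  all_goals first
    | (show Val _ _ _ _
       repeat' with_reducible first
      | assumption | apply Val.add | apply Val.sub | apply Val.smul | apply Val.mul Gc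
      | apply Val.tight Gc | apply Val.int Gc | apply Val.inv Gc | apply Val.mon0 Gc)
    | (intro τ _; simp only [Par.q2, Par.q1, Par.q0, Par.A1, Par.A2] <;> push_cast <;> rfl)

theorem tri_val {z : TM} {f : ℝ → ℝ} {k : ℕ} (h : Val P c.n z f) (hk : zok z k = true) :
    Val P c.n (TM.tri c k z).e (fun τ ↦ exp (f τ)) ∧
      Val P c.n (TM.tri c k z).p1 (fun τ ↦ ph1 (f τ)) ∧
      Val P c.n (TM.tri c k z).p2 fun τ ↦ ph2 (f τ) :=
  Val.tri Gc h (by
    have := of_decide_eq_true hk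
    have : 2 ^ (64 + k - 1) ≤ 2 ^ (64 + k) := Nat.pow_le_pow_right (by norm_num) (by omega)
    omega)

omit Gc in
theorem zok_neg {z : TM} {k : ℕ} (hk : zok z k = true) : zok (TM.smul (-1) z) k = true := by
  simpa [zok, TM.norm, TM.smul_eq] using hk

end one

/-- the polynomial in the parameters -/
noncomputable def parR (x y : ℝ) : List ℤ → ℝ
  | [a, b, c, d, e, f] => (a + b * y + c * x + d * y ^ 2 + e * (x * y) + f * x ^ 2) / 2 ^ 48
  | [a, b, c] => (a + b * y + c * x) / 2 ^ 48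
  | [a] => a / 2 ^ 48
  | _ => 0

/-- the polynomial part of a separator -/
noncomputable def sepP (x y : ℝ) (E : Sep) (v : ℝ) : ℝ :=
  hornerR (E.sc / 2 ^ 48 * (v - E.vc / 2 ^ 48)) (E.co.map (parR x y))

/-- the point of a box -/
noncomputable def boxR (a b : ℤ) (τ : ℝ) : ℝ := (a + b + (b - a) * τ) / 2 ^ 17

/-- the parameters are enclosed -/
structure EV (P : St) (X : Cx) (e : Env) (p : Par) : Prop where
  D : Val P X.b.n e.D fun _ ↦ p.D
  F : Val P X.s.n e.F fun _ ↦ p.F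
  C : EC P X.b.n e fun _ ↦ p
  z1 : e.z1 = true → p.c1 = 0
  z2 : e.z2 = true → p.c2 = 0

/-- scaling of the operators -/
def Par.sc (p : Par) (m1 m2 : ℝ) : Par :=
  ⟨p.D, p.F, p.a1 * m1, p.b1 * m1, p.c1, p.a2 * m2, p.b2 * m2, p.c2, p.ka * (m1 * m2)⟩

theorem Par.sc_eq (p : Par) {z1 z2 : Bool} (h1 : z1 = true → p.c1 = 0) (h2 : z2 = true → p.c2 = 0)
    (g v : ℝ) : let m1 := if z1 then 1 else g; let m2 := if z2 then 1 else g
    (p.sc m1 m2).A1 (g * v) = m1 * p.A1 v ∧ (p.sc m1 m2).A2 (g * v) = m2 * p.A2 v ∧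
    (p.sc m1 m2).q2 (g * v) = m1 * m2 * p.q2 v ∧ (p.sc m1 m2).q1 (g * v) = m1 * m2 * p.q1 v ∧
    (p.sc m1 m2).q0 (g * v) = m1 * m2 * p.q0 v := by
  cases z1 <;> cases z2 <;>
    simp only [Par.sc, Par.q2, Par.q1, Par.q0, Par.A1, Par.A2, h1, h2, Bool.false_eq_true,
      if_true, if_false] <;> refine ⟨?_, ?_, ?_, ?_, ?_⟩ <;> ring

/-- the real value of the leading coefficient -/
noncomputable def opAR (D F : ℝ) (o : Op) : ℝ := if o.kind = 0 then 1 else F - 1 - D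

/-- the real value of the coefficient of the level -/
noncomputable def opCR (F : ℝ) (o : Op) : ℝ :=
  if o.kind = 0 then o.c / 2 ^ 48 else F * ((2 * F - 1) * (F - 1))

/-- the real parameters -/
noncomputable def mkPar (D F : ℝ) (o1 o2 : Op) (ka : ℤ) : Par :=
  ⟨D, F, opAR D F o1, o1.b / 2 ^ 48 * opAR D F o1, opCR F o1, opAR D F o2,
    o2.b / 2 ^ 48 * opAR D F o2, opCR F o2, ka / 2 ^ 48 * (opAR D F o1 * opAR D F o2)⟩

namespace Cx.Good

variable {X : Cx} {P : St} {x y : ℝ} (G : X.Good P x y) {a b d t D : TM} {f g h ft fD : ℝ → ℝ}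
include G

theorem up (ha : Val P X.s.n a f) : Val P X.b.n a f := ha.mono G.le

theorem lin' (hD : Val P X.b.n D fD) (ha : Val P X.b.n a f) (hb : Val P X.b.n b g) :
    Val P X.b.n (MP_d6150d_an.lin X D a b) fun τ ↦ f τ + fD τ * g τ :=
  Val.tight G.b (ha.add (Val.mul G.b hD hb))

theorem pos (ha : Val P X.b.n a f) (hp : posX X a = true) {τ : ℝ} (hτ : τ ∈ P.I) : 0 < f τ :=
  Val.posN G.b G.lin ha hp hτ

theorem box (a b : ℤ) : Val P X.s.n (boxT a b) (boxR a b) :=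
  ((Val.mon0 G.s _).add (G.m1 _)).congr fun τ _ ↦ by simp only [boxR]; push_cast; ring

theorem par : ∀ l : List ℤ, Val P X.b.n (par X l) fun _ ↦ parR x y l
  | [a, b, c, d, e, f] => ((Val.mon0 G.b a).add ((G.mD b).add ((G.up (G.mF c)).add ((G.mDD d).add
      ((G.mDF e).add ((G.mFF f).add (Val.zero G.b))))))).congr fun τ _ ↦ by simp only [parR]; ring
  | [a, b, c] => ((Val.mon0 G.b a).add ((G.mD b).add ((G.up (G.mF c)).add (Val.zero G.b)))).congr
      fun τ _ ↦ by simp only [parR]; ring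
  | [a] => Val.mon0 G.b a
  | [] => Val.zero G.b
  | [_, _] => Val.zero G.b
  | [_, _, _, _] => Val.zero G.b
  | [_, _, _, _, _] => Val.zero G.b
  | _ :: _ :: _ :: _ :: _ :: _ :: _ :: _ => Val.zero G.b

theorem sepE (E : Sep) (ha : Val P X.b.n a f) :
    Val P X.b.n (sepE X E a) fun τ ↦ sepP x y E (f τ) := by
  have h1 : List.Forall₂ (Val P X.b.n) (E.co.map (MP_d6150d_an.par X))
      (E.co.map fun l _ ↦ parR x y l) := by
    rw [List.forall₂_map_left_iff, List.forall₂_map_right_iff, List.forall₂_same]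
    exact fun l _ ↦ G.par l
  refine (Val.tight G.b (Val.horner G.b (Val.mul G.b (Val.mon0 G.b _)
    (Val.tight G.b (ha.sub (Val.mon0 G.b _)))) h1)).congr fun τ _ ↦ ?_
  rw [sepP, List.map_map]; rfl

omit G in
theorem ite {c : Prop} [Decidable c] {n : ℕ} (ha : Val P n a f) (hb : Val P n b g) :
    Val P n (if c then a else b) fun τ ↦ if c then f τ else g τ := by
  split_ifs <;> assumption

theorem opA {D F : TM} {fD fF : ℝ} (hD' : Val P X.b.n D fun _ ↦ fD)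
    (hF' : Val P X.s.n F fun _ ↦ fF) (o : Op) :
    Val P X.b.n (opA X D F o) fun _ ↦ opAR fD fF o := by
  refine (ite (c := o.kind = 0) (Val.int G.b 1)
    (Val.tight G.b (((G.up hF').sub (Val.int G.b 1)).sub hD'))).congr fun _ _ ↦ ?_
  simp [opAR]

theorem opC {F : TM} {fF : ℝ} (hF' : Val P X.s.n F fun _ ↦ fF) (o : Op) :
    Val P X.b.n (opC X F o) fun _ ↦ opCR fF o := by
  refine (ite (c := o.kind = 0) (Val.mon0 G.b o.c) (G.up (Val.mul G.s hF' (Val.mul G.s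
    (Val.tight G.s ((hF'.smul 2).sub (Val.int G.s 1)))
    (Val.tight G.s (hF'.sub (Val.int G.s 1))))))).congr fun _ _ ↦ ?_
  simp [opCR]

theorem env_aux {D F : TM} {fD fF : ℝ} (hD' : Val P X.b.n D fun _ ↦ fD)
    (hF' : Val P X.s.n F fun _ ↦ fF) (o1 o2 : Op) (ka : ℤ) :
    EV P X ⟨D, F, MP_d6150d_an.opA X D F o1, TM.mul X.b (TM.mon 0 o1.b) (MP_d6150d_an.opA X D F o1),
      MP_d6150d_an.opC X F o1, MP_d6150d_an.opA X D F o2,
      TM.mul X.b (TM.mon 0 o2.b) (MP_d6150d_an.opA X D F o2), MP_d6150d_an.opC X F o2,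
      TM.mul X.b (TM.mon 0 ka) (TM.mul X.b (MP_d6150d_an.opA X D F o1) (MP_d6150d_an.opA X D F o2)),
      decide (o1.kind = 0) && decide (o1.c = 0), decide (o2.kind = 0) && decide (o2.c = 0)⟩
      (mkPar fD fF o1 o2 ka) := by
  have hA := G.opA hD' hF'
  have hC := G.opC hF'
  have hz : ∀ o : Op, (decide (o.kind = 0) && decide (o.c = 0)) = true → opCR fF o = 0 :=
    fun o h ↦ by
    simp only [Bool.and_eq_true, decide_eq_true_eq] at h
    simp [opCR, h]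
  refine ⟨?_, ?_, ⟨?_, ?_, ?_, ?_, ?_, ?_, ?_⟩, ?_, ?_⟩ <;> dsimp only [mkPar]
  exacts [hD', hF', hA o1, Val.mul G.b (Val.mon0 G.b o1.b) (hA o1), hC o1, hA o2,
    Val.mul G.b (Val.mon0 G.b o2.b) (hA o2), hC o2,
    Val.mul G.b (Val.mon0 G.b ka) (Val.mul G.b (hA o1) (hA o2)), hz o1, hz o2]

theorem mkEnv (D0 hD F0 hF : ℤ) (o1 o2 : Op) (ka : ℤ) :
    EV P X (mkEnv X D0 hD F0 hF o1 o2 ka)
      (mkPar ((D0 + hD * y) / 2 ^ 48) ((F0 + hF * x) / 2 ^ 48) o1 o2 ka) :=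
  G.env_aux (((Val.mon0 G.b _).add (G.mD _)).congr fun _ _ ↦ by ring)
    (((Val.mon0 G.s _).add (G.mF _)).congr fun _ _ ↦ by ring) o1 o2 ka

variable {e : Env} {p : Par}

theorem envN (E : EV P X e p) (z1 z2 : Bool) (ha : Val P X.b.n a f) :
    EC P X.b.n (envN X e z1 z2 a)
      fun τ ↦ p.sc (if z1 then 1 else f τ) (if z2 then 1 else f τ) := by
  obtain ⟨h1, h2, h3, h4, h5, h6, h7⟩ := E.C
  have i1 : Val P X.b.n (TM.int 1) fun _ ↦ 1 := by simpa using Val.int G.b 1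
  have key : ∀ (z : Bool) {b : TM} {c : ℝ}, Val P X.b.n b (fun _ ↦ c) →
      Val P X.b.n (if z then b else TM.mul X.b b a) fun τ ↦ c * if z then 1 else f τ :=
    fun z b c hb ↦ by
      cases z
      · exact Val.mul G.b hb ha
      · simpa using hb
  exact ⟨key z1 h1, key z1 h2, h3, key z2 h4, key z2 h5, h6,
    Val.mul G.b h7 (Val.mul G.b (ite i1 ha) (ite i1 ha))⟩

theorem vpow (e : Env) (ha : Val P X.b.n a f) : Val P X.b.n (vpow X e a)
    fun τ ↦ (if e.z1 then 1 else f τ) * if e.z2 then 1 else f τ := by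
  have i1 : Val P X.b.n (TM.int 1) fun _ ↦ 1 := by simpa using Val.int G.b 1
  exact Val.mul G.b (ite i1 ha) (ite i1 ha)

theorem mu {F : TM} {fF : ℝ} {k : ℕ} (hF : Val P X.s.n F fun _ ↦ fF) (ht : Val P X.s.n t ft)
    (ok : muok X F t k = true) : Val P X.s.n (mu X F t k).1 (fun τ ↦ muR 0 fF (ft τ)) ∧
      Val P X.s.n (mu X F t k).2 fun τ ↦ muR 1 fF (ft τ) - muR 0 fF (ft τ) := by
  simp only [muok, Bool.and_eq_true] at ok
  have h1 := (tri_val G.s (Val.mul G.s (hF.smul 2) ht) ok.1.1).2.2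
  have h2 := (tri_val G.s (Val.mul G.s (Val.tight G.s ((hF.smul 2).sub (Val.int G.s 1))) ht)
    ok.1.2).2.2
  have h3 := (tri_val G.s (Val.mul G.s (Val.tight G.s ((hF.smul 2).sub (Val.int G.s 2))) ht)
    ok.2).2.2
  unfold MP_d6150d_an.mu; dsimp only
  refine ⟨?_, ?_⟩ <;> apply Val.congr
  all_goals first
    | (show Val _ _ _ _
       repeat' with_reducible first
      | assumption | apply Val.add | apply Val.sub | apply Val.smul | apply Val.mul G.b
      | apply Val.tight G.b | apply Val.int G.b | apply Val.inv G.b | apply Val.mon0 G.b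
      | apply Val.mul G.s | apply Val.tight G.s | apply Val.int G.s | apply Val.inv G.s
      | apply Val.mon0 G.s | apply G.mF | apply G.mD | apply G.m1 | apply G.lin' | apply G.up)
    | (intro τ _; simp only [muR]; push_cast; ring)

theorem mkEx (E : EV P X e p) {k : ℕ} {κ : ℤ × ℤ} (ht : Val P X.s.n t ft)
    (ok : (mkEx X e t k κ).ok = true) : ∃ c : ℝ,
      Val P X.s.n (mkEx X e t k κ).p1 (fun τ ↦ ph1 (ft τ)) ∧
      Val P X.s.n (mkEx X e t k κ).lam (fun τ ↦ exp (c * ft τ)) ∧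
      Val P X.s.n (mkEx X e t k κ).x1 (fun τ ↦ exp (ft τ) * exp (c * ft τ)) ∧
      Val P X.s.n (mkEx X e t k κ).x2 (fun τ ↦ exp (ft τ) * (exp (ft τ) * exp (c * ft τ))) ∧
      Val P X.s.n (mkEx X e t k κ).eg (fun τ ↦ exp ((2 - 2 * p.F) * ft τ) * exp (c * ft τ)) ∧
      Val P X.s.n (mkEx X e t k κ).fe (fun τ ↦ exp (-p.F * ft τ)) ∧
      Val P X.s.n (mkEx X e t k κ).f1 (fun τ ↦ ph1 (-p.F * ft τ)) ∧ muok X e.F t k = true := by
  unfold MP_d6150d_an.mkEx at ok ⊢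
  simp only [Bool.and_eq_true] at ok
  obtain ⟨⟨⟨⟨o1, o2⟩, o3⟩, o4⟩, o5⟩ := ok
  have hl := Val.mul G.s ((Val.mon0 G.s κ.1).add (G.mF κ.2)) ht
  have h1 := tri_val G.s ht o1
  have h2 := (tri_val G.s hl o2).1
  have h3 := (tri_val G.s (Val.tight G.s ((Val.mul G.s (Val.tight G.s ((Val.int G.s 2).sub
    (E.F.smul 2))) ht).add hl)) o3).1
  have h4 := tri_val G.s (Val.mul G.s (E.F.smul (-1)) ht) o4
  refine ⟨_, h1.2.1, h2, Val.mul G.s h1.1 h2, Val.mul G.s h1.1 (Val.mul G.s h1.1 h2),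
    h3.congr fun τ _ ↦ ?_, h4.1.congr fun τ _ ↦ ?_, h4.2.1.congr fun τ _ ↦ ?_, o5⟩
  · rw [← exp_add]; push_cast; rfl
  · push_cast; rw [neg_one_mul]
  · push_cast; rw [neg_one_mul]

theorem nrm {z : TM} {fz : ℝ → ℝ} {k : ℕ} (s : Bool) (hz : Val P X.s.n z fz) (ok : zok z k = true)
    (ha : Val P X.b.n a f) (hb : Val P X.b.n b g) (hp : posX X (nrm X s z a b k) = true) {τ : ℝ}
    (hτ : τ ∈ P.I) : 0 < f τ + exp (fz τ) * g τ := by
  unfold MP_d6150d_an.nrm at hp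
  cases s
  · exact G.pos (Val.tight G.b (ha.add (Val.mul G.b (G.up (tri_val G.s hz ok).1) hb))) hp hτ
  · have := G.pos (Val.tight G.b ((Val.mul G.b (G.up (tri_val G.s (hz.smul (-1))
      (zok_neg ok)).1) ha).add hb)) hp hτ
    have h2 := mul_pos (exp_pos (fz τ)) this
    rwa [mul_add, ← mul_assoc, ← exp_add, show fz τ + ((-1 : ℤ) : ℝ) * fz τ = 0 by push_cast; ring,
      exp_zero, one_mul] at h2

end Cx.Good

end Pool.Agent.Lib.MP_d6150d_an
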