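import Pool.Agent.Lib.MP_d6150d_an.Sd2

/-! Soundness of the evaluations on boxes. -/

set_option linter.unusedTactic false
set_option linter.unreachableTactic false

namespace Pool.Agent.Lib.MP_d6150d_an

open Real

/-- the value of a separator -/
noncomputable def sepR (x y : ℝ) (p : Par) (z1 z2 : Bool) (E : Sep) (v : ℝ) : ℝ :=
  if E.kd = 0 then sepP x y E v else p.q0 v / p.F + if E.kd = 2 then
    1 / √v * ((if z1 then 1 else v) * if z2 then 1 else v) * sepP x y E (1 / √v) else sepP x y E v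

/-- the scaling factor near the center -/
noncomputable def bbR (p : Par) (c t : ℝ) : ℝ :=
  (ph1 t * exp (c * t) * om p.D t) ^ 7 * exp (-p.F * t)

theorem bbR_pos {p : Par} {c t : ℝ} (ht : t ∈ JR p.D) : 0 < bbR p c t :=
  mul_pos (pow_pos (mul_pos (mul_pos (ph1_pos _) (exp_pos _)) ht) _) (exp_pos _)

theorem wR_eq' (D t : ℝ) : wR D t = t * ph1 t * om D t := by rw [wR_eq, exp_eq_ph]; ring

theorem wR_sign {D t : ℝ} (ht : t ∈ JR D) (h0 : t ≠ 0) : 0 < t * wR D t ^ 7 := by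
  rw [wR_eq', show t * (t * ph1 t * om D t) ^ 7 = (t ^ 2) ^ 4 * (ph1 t * om D t) ^ 7 by ring]
  exact mul_pos (by positivity) (pow_pos (mul_pos (ph1_pos _) ht) _)

noncomputable def B1R (D F : ℝ) : ℝ := (1 + D) * (1 / F)
noncomputable def B2R (D F : ℝ) : ℝ := -2 * (1 + 2 * D) * (1 / (2 * F - 1))
noncomputable def B3R (D F : ℝ) : ℝ := D * (1 / (F - 1))
noncomputable def AR (D F : ℝ) : ℝ := -(B1R D F + B2R D F + B3R D F)

theorem vR_exp {D F : ℝ} (h1 : F ≠ 0) (h2 : 2 * F - 1 ≠ 0) (h3 : F - 1 ≠ 0) (t : ℝ) :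
    vR D F t = AR D F + exp ((2 * F - 2) * t) *
      (B3R D F + exp t * (B2R D F + exp t * B1R D F)) := by
  have h4 : 2 * F - 2 ≠ 0 := fun h ↦ h3 (by linarith)
  have k : ∀ a : ℝ, a ≠ 0 → t * ph1 (a * t) = (exp (a * t) - 1) / a := fun a ha ↦ by
    rw [exp_eq_ph]; field_simp; ring
  rw [vR_eq, k _ (mul_ne_zero two_ne_zero h1), k _ h2, k _ h4, exp_a1, exp_a2]
  simp only [AR, B1R, B2R, B3R]
  rw [show 2 * F - 2 = 2 * (F - 1) by ring]
  generalize exp (2 * (F - 1) * t) = z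
  field_simp; ring

/-- the meaning of the scaled evaluation -/
structure DpS (p : Par) (z1 z2 : Bool) (t w n w7 v1 vt A1 A2 g : ℝ) : Prop where
  pos : 0 < g
  vt : vt = vR p.D p.F t * w
  v1 : v1 = g * vR p.D p.F t
  n : n = (if z1 then 1 else g) * (if z2 then 1 else g) * w7 * exp (-p.F * t) *
    (p.N t - p.q0 (vR p.D p.F t) / p.F)
  w7 : 0 < t * w7
  A1 : A1 = (if z1 then 1 else g) * p.A1 (vR p.D p.F t)
  A2 : A2 = (if z2 then 1 else g) * p.A2 (vR p.D p.F t)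

theorem ite_pos' {z : Bool} {g : ℝ} (h : 0 < g) : 0 < if z then 1 else g := by
  split_ifs; exacts [one_pos, h]

theorem DpS.sign {p : Par} {z1 z2 : Bool} {t n w7 v1 vt A1 A2 g a x y sg : ℝ} {E : Sep}
    (S : DpS p z1 z2 t (a * a) n w7 v1 vt A1 A2 g) (ha : 0 < a) (hE : E.kd = 2)
    (ht : t ∈ JR p.D) (h0 : t ≠ 0)
    (h : 0 < sg * (n - a * exp (-p.F * t) * (w7 * (1 / √vt) *
      ((if z1 then 1 else v1) * if z2 then 1 else v1) * sepP x y E (a * (1 / √vt))))) :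
    0 < t * (sg * (p.N t - sepR x y p z1 z2 E (vR p.D p.F t))) := by
  have hv := vR_pos (F := p.F) ht h0
  have e1 : a * (1 / √vt) = 1 / √(vR p.D p.F t) := by
    rw [S.vt, sqrt_mul hv.le, sqrt_mul_self ha.le]
    have := (sqrt_pos.2 hv).ne'
    field_simp
  have e2 : ∀ z : Bool, (if z then 1 else v1) =
      (if z then 1 else g) * if z then 1 else vR p.D p.F t := fun z ↦ by
    cases z <;> simp [S.v1]
  have hm := mul_pos (mul_pos (ite_pos' (z := z1) S.pos) (ite_pos' (z := z2) S.pos))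
    (exp_pos (-p.F * t))
  have := mul_pos S.w7 h
  rw [e1, e2, e2, S.n, show ∀ A B C D : ℝ, a * A * (B * (1 / √vt) * C * D) =
    a * (1 / √vt) * (A * B * C * D) from fun _ _ _ _ ↦ by ring, e1] at this
  rw [sepR, if_neg (by omega), if_pos hE]
  have h7 : w7 ≠ 0 := by rintro rfl; simpa using S.w7
  refine (mul_pos_iff_of_pos_left (mul_pos hm (mul_self_pos.2 h7))).1 (this.trans_eq ?_)
  ring

/-- the scaled evaluation on the right -/
noncomputable def nR (p : Par) (z1 z2 : Bool) (s w : ℝ) : ℝ :=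
  let la := 1 / (1 + p.D)
  let v1 := 1 + la * p.F * (AR p.D p.F * w + s * (B2R p.D p.F + s * B3R p.D p.F))
  let q := p.sc (if z1 then 1 else la * p.F * w) (if z2 then 1 else la * p.F * w)
  let o := 1 - (2 - la) * s + (1 - la) * (s * s)
  totR p.F 1 ((2 - la) * s) ((1 - la) * (s * s)) (v1 * (1 / 2)) o (p.F * (o * o)) (q.q2 v1)
    (q.q1 v1) (q.q0 v1) 1

namespace Cx.Good

variable {X : Cx} {P : St} {x y : ℝ} (G : X.Good P x y) {e : Env} {p : Par} (E : EV P X e p)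
  {t s w a : TM} {ft fs fw fa : ℝ → ℝ} {k : ℕ} {κ : ℤ × ℤ}
include G E

theorem core (ht : Val P X.s.n t ft) (ok : (core X e t k κ).ok = true) : ∃ (c : ℝ) (n : ℝ → ℝ),
    Val P X.b.n (core X e t k κ).n0 n ∧
    Val P X.b.n (core X e t k κ).bb (fun τ ↦ bbR p c (ft τ)) ∧
    Val P X.b.n (core X e t k κ).v (fun τ ↦ vR p.D p.F (ft τ)) ∧
    Val P X.b.n (core X e t k κ).m (fun τ ↦ muR p.D p.F (ft τ)) ∧
    Val P X.b.n (core X e t k κ).A1 (fun τ ↦ p.A1 (vR p.D p.F (ft τ))) ∧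
    Val P X.b.n (core X e t k κ).A2 (fun τ ↦ p.A2 (vR p.D p.F (ft τ))) ∧
    ∀ τ, ft τ ∈ JR p.D → ft τ ≠ 0 → ft τ * n τ = bbR p c (ft τ) * p.N (ft τ) := by
  obtain ⟨c, e1, e2, e3, e4, e5, e6, e7, e8⟩ := G.mkEx E ht ok
  obtain ⟨m1, m2⟩ := G.mu E.F ht e8
  have hD := E.D
  unfold MP_d6150d_an.core; dsimp only
  generalize MP_d6150d_an.mkEx X e t k κ = T at *
  generalize MP_d6150d_an.mu X e.F t k = m at *
  have hm : ∀ t, muR 0 p.F t + p.D * (muR 1 p.F t - muR 0 p.F t) = muR p.D p.F t := fun t ↦ by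
    simp only [muR]; ring
  have hv : Val P X.b.n (MP_d6150d_an.lin X e.D (TM.mul X.s (TM.mul X.s t t) m.1)
      (TM.mul X.s (TM.mul X.s t t) m.2)) fun τ ↦ vR p.D p.F (ft τ) := by
    apply Val.congr
    · repeat' with_reducible first
      | assumption | apply Val.add | apply Val.sub | apply Val.smul | apply Val.mul G.b
      | apply Val.tight G.b | apply Val.int G.b | apply Val.inv G.b | apply Val.mon0 G.b
      | apply Val.mul G.s | apply Val.tight G.s | apply Val.int G.s | apply Val.inv G.s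
      | apply Val.mon0 G.s | apply G.mF | apply G.mD | apply G.m1 | apply G.lin' | apply G.up
    · intro τ _; rw [vR, ← hm]; ring
  have hy : Val P X.b.n (MP_d6150d_an.lin X e.D (TM.mul X.s (TM.mul X.s T.eg (TM.inv 2)) m.1)
      (TM.mul X.s (TM.mul X.s T.eg (TM.inv 2)) m.2))
      fun τ ↦ exp ((2 - 2 * p.F) * ft τ) * exp (c * ft τ) / 2 * muR p.D p.F (ft τ) := by
    apply Val.congr
    · repeat' with_reducible first
      | assumption | apply Val.add | apply Val.sub | apply Val.smul | apply Val.mul G.b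
      | apply Val.tight G.b | apply Val.int G.b | apply Val.inv G.b | apply Val.mon0 G.b
      | apply Val.mul G.s | apply Val.tight G.s | apply Val.int G.s | apply Val.inv G.s
      | apply Val.mon0 G.s | apply G.mF | apply G.mD | apply G.m1 | apply G.lin' | apply G.up
    · intro τ _; rw [← hm]; push_cast; ring
  have hw : Val P X.b.n (MP_d6150d_an.lin X e.D (TM.mul X.s T.p1 T.x1)
      (TM.mul X.s T.p1 (TM.tight X.s (T.x1.sub T.lam))))
      fun τ ↦ ph1 (ft τ) * exp (c * ft τ) * om p.D (ft τ) := by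
    apply Val.congr
    · repeat' with_reducible first
      | assumption | apply Val.add | apply Val.sub | apply Val.smul | apply Val.mul G.b
      | apply Val.tight G.b | apply Val.int G.b | apply Val.inv G.b | apply Val.mon0 G.b
      | apply Val.mul G.s | apply Val.tight G.s | apply Val.int G.s | apply Val.inv G.s
      | apply Val.mon0 G.s | apply G.mF | apply G.mD | apply G.m1 | apply G.lin' | apply G.up
    · intro τ _; rw [om]; ring
  obtain ⟨a2, a1, a0, A1, A2⟩ := acoef_val G.b E.C hv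
  have h1 := G.lin' hD (G.up e4) (G.up e4)
  have h2 := G.lin' hD (G.up e3) (G.up (e3.smul 2))
  have h3 := Val.mul G.b hD (G.up e2)
  have h4 := Val.mul G.b hw hw
  refine ⟨c, _, tot_val G.b (G.up E.F) h1 h2 h3 hy hw h4 (G.up e7) a2 a1 a0,
    (Val.mul G.b (tj_val G.b (G.up E.F) h1 h2 h3 hy hw h4).2.2.2.2 (G.up e6)).congr
      fun τ _ ↦ by rw [bbR]; ring, hv, (G.lin' hD (G.up m1) (G.up m2)).congr
      fun τ _ ↦ (hm _).symm, A1, A2, fun τ hJ h0 ↦ ?_⟩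
  generalize ft τ = t at *
  rw [tot_scale p t (t * ph1 (-p.F * t)) (l := exp (c * t)) (β := 1 / t ^ 2) (m := 1)
    (by rw [PR]; ring) (by rw [QR]; push_cast; ring) (by ring)
    (by rw [yR, vR]; field_simp) (by rw [wR_eq']; field_simp) (by rw [wR_eq']; field_simp)
    (one_mul _).symm (one_mul _).symm (one_mul _).symm, p.N_eq hJ h0, bbR, wR_eq']
  field_simp

omit E in
theorem gterm {z eg u : TM} {fz fe fu : ℝ → ℝ} (b : Bool) (hz : Val P X.s.n z fz)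
    (ok : zok z k = true) (he : Val P X.s.n eg fe) (hu : Val P X.s.n u fu)
    (h : ∀ τ, fu τ = fe τ * exp (fz τ)) :
    Val P X.s.n (gterm X.s b z eg u k).1 (fun τ ↦ ph1 (fz τ)) ∧
      Val P X.s.n (gterm X.s b z eg u k).2 fun τ ↦ fe τ * ph1 (fz τ) := by
  have h1 := (tri_val G.s hz ok).2.1
  refine ⟨h1, (ite (c := b = true) (Val.mul G.s hu (tri_val G.s (hz.smul (-1)) (zok_neg ok)).2.1)
    (Val.mul G.s he h1)).congr fun τ _ ↦ ?_⟩
  split_ifs
  · rw [h, ph1_neg]; push_cast; rw [neg_one_mul]; ring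
  · rfl

omit E in
theorem lin3 {D b d : TM} {fD fb fd : ℝ → ℝ} (hD : Val P X.b.n D fD) (ht : Val P X.s.n t ft)
    (ha : Val P X.s.n a fa) (hb : Val P X.s.n b fb) (hd : Val P X.s.n d fd) :
    Val P X.b.n (lin3 X D t a b d)
      fun τ ↦ ft τ * (fa τ - fb τ) + fD τ * (ft τ * (fa τ - 2 * fb τ + fd τ)) := by
  unfold MP_d6150d_an.lin3
  apply Val.congr
  · repeat' with_reducible first
      | assumption | apply Val.add | apply Val.sub | apply Val.smul | apply Val.mul G.b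
      | apply Val.tight G.b | apply Val.int G.b | apply Val.inv G.b | apply Val.mon0 G.b
      | apply Val.mul G.s | apply Val.tight G.s | apply Val.int G.s | apply Val.inv G.s
      | apply Val.mon0 G.s | apply G.mF | apply G.mD | apply G.m1 | apply G.lin' | apply G.up
  · intro τ _; push_cast; rfl

theorem far (fl : Bool) (md : ℕ) (ht : Val P X.s.n t ft) (ok : (far X e fl t k κ md).ok = true) :
    ∃ n bb : ℝ → ℝ, Val P X.b.n (far X e fl t k κ md).n0 n ∧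
    Val P X.b.n (far X e fl t k κ md).bb bb ∧
    Val P X.b.n (far X e fl t k κ md).v (fun τ ↦ vR p.D p.F (ft τ)) ∧
    Val P X.b.n (far X e fl t k κ md).A1 (fun τ ↦ p.A1 (vR p.D p.F (ft τ))) ∧
    Val P X.b.n (far X e fl t k κ md).A2 (fun τ ↦ p.A2 (vR p.D p.F (ft τ))) ∧
    ∀ τ, ft τ ∈ JR p.D → ft τ ≠ 0 → 0 < ft τ * bb τ ∧ n τ = bb τ *
      (p.N (ft τ) - if fl then p.q0 (vR p.D p.F (ft τ)) / p.F else 0) := by
  unfold MP_d6150d_an.far at ok ⊢
  dsimp only at ok ⊢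
  simp only [Bool.and_eq_true, Bool.or_eq_true, Bool.not_eq_true'] at ok
  obtain ⟨c, e1, e2, e3, e4, e5, e6, e7, e8⟩ := G.mkEx E ht ok.1
  have hD := E.D
  have hF := E.F
  generalize MP_d6150d_an.mkEx X e t k κ = T at *
  simp only [muok, Bool.and_eq_true] at e8
  obtain ⟨g1, g1'⟩ := G.gterm (decide (md % 2 = 1)) (Val.mul G.s (hF.smul 2) ht) e8.1.1 e5 e4
    fun τ ↦ by simp only [← exp_add]; push_cast; ring_nf
  obtain ⟨g2, g2'⟩ := G.gterm (decide (md / 2 % 2 = 1)) (Val.mul G.s (Val.tight G.s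
    ((hF.smul 2).sub (Val.int G.s 1))) ht) e8.1.2 e5 e3
    fun τ ↦ by simp only [← exp_add]; push_cast; ring_nf
  obtain ⟨g3, g3'⟩ := G.gterm (decide (md / 4 % 2 = 1)) (Val.mul G.s (Val.tight G.s
    ((hF.smul 2).sub (Val.int G.s 2))) ht) e8.2 e5 e2
    fun τ ↦ by simp only [← exp_add]; push_cast; ring_nf
  have hv := ((G.lin3 hD ht g1 g2 g3).smul 2).congr (g := fun τ ↦ vR p.D p.F (ft τ))
    fun τ _ ↦ by rw [vR_eq]; push_cast; ring
  have hy := (G.lin3 hD ht g1' g2' g3').congr (g := fun τ ↦ exp (c * ft τ) * yR p.D p.F (ft τ))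
    fun τ _ ↦ by rw [yR, vR_eq]; push_cast; ring
  have hw := (G.lin' hD (G.up (Val.tight G.s (e4.sub e3))) (G.up (Val.tight G.s
    ((e4.sub (e3.smul 2)).add e2)))).congr (g := fun τ ↦ exp (c * ft τ) * wR p.D (ft τ))
    fun τ _ ↦ by rw [wR, PR, QR]; push_cast; ring
  obtain ⟨a2, a1, a0, A1, A2⟩ := acoef_val G.b E.C hv
  have h1 := G.lin' hD (G.up e4) (G.up e4)
  have h2 := G.lin' hD (G.up e3) (G.up (e3.smul 2))
  have h3 := Val.mul G.b hD (G.up e2)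
  have h4 := Val.mul G.b hw hw
  have hu : Val P X.s.n (if fl then (TM.rcp X.s e.F).2 else TM.mul X.s t T.f1)
      fun τ ↦ if fl then 1 / p.F else ft τ * ph1 (-p.F * ft τ) := by
    cases fl
    · exact Val.mul G.s ht e7
    · exact (Val.rcp G.s hF (ok.2.resolve_left (by simp))).2
  refine ⟨_, fun τ ↦ (exp (c * ft τ) * wR p.D (ft τ)) ^ 7 * exp (-p.F * ft τ),
    tot_val G.b (G.up hF) h1 h2 h3 hy hw h4 (G.up hu) a2 a1 a0,
    (Val.mul G.b (tj_val G.b (G.up hF) h1 h2 h3 hy hw h4).2.2.2.2 (G.up e6)).congr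
      fun τ _ ↦ by ring, hv, A1, A2, fun τ hJ h0 ↦ ⟨?_, ?_⟩⟩
  · have := mul_pos (mul_pos (wR_sign hJ h0) (pow_pos (exp_pos (c * ft τ)) 7))
      (exp_pos (-p.F * ft τ))
    exact this.trans_eq (by ring)
  · beta_reduce
    generalize ft τ = t at *
    rw [tot_scale p t (if fl then 1 / p.F else t * ph1 (-p.F * t)) (l := exp (c * t)) (β := 1)
      (m := 1) (by rw [PR]; ring) (by rw [QR]; push_cast; ring) (by ring) (by ring) (by ring) (by ring)
      (one_mul _).symm (one_mul _).symm (one_mul _).symm]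
    cases fl
    · simp only [Bool.false_eq_true, if_false]; rw [p.N_eq hJ h0]; ring
    · simp only [if_true]
      rw [p.N_eq' hJ h0 (Val.rcp G.s hF (ok.2.resolve_left (by simp))).1]; ring

theorem mkTl (ok : (mkTl X e).ok = true) : p.F ≠ 0 ∧ 2 * p.F - 1 ≠ 0 ∧ p.F - 1 ≠ 0 ∧
    Val P X.s.n (mkTl X e).iF (fun _ ↦ 1 / p.F) ∧ Val P X.b.n (mkTl X e).A (fun _ ↦ AR p.D p.F) ∧
    Val P X.b.n (mkTl X e).B1 (fun _ ↦ B1R p.D p.F) ∧
    Val P X.b.n (mkTl X e).B2 (fun _ ↦ B2R p.D p.F) ∧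
    Val P X.b.n (mkTl X e).B3 fun _ ↦ B3R p.D p.F := by
  unfold MP_d6150d_an.mkTl at ok ⊢
  dsimp only at ok ⊢
  simp only [Bool.and_eq_true] at ok
  obtain ⟨a1, h1⟩ := Val.rcp G.s E.F ok.1.1
  obtain ⟨a2, h2⟩ := Val.rcp G.s (Val.tight G.s ((E.F.smul 2).sub (Val.int G.s 1))) ok.1.2
  obtain ⟨a3, h3⟩ := Val.rcp G.s (Val.tight G.s (E.F.sub (Val.int G.s 1))) ok.2
  push_cast at a2 a3 h2 h3
  have b1 := (Val.mul G.b (Val.tight G.b ((Val.int G.b 1).add E.D)) (G.up h1)).congr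
    (g := fun _ ↦ B1R p.D p.F) fun _ _ ↦ by rw [B1R]; push_cast; rfl
  have b2 := (Val.mul G.b (Val.tight G.b (((Val.int G.b 1).add (E.D.smul 2)).smul (-2)))
    (G.up h2)).congr (g := fun _ ↦ B2R p.D p.F) fun _ _ ↦ by rw [B2R]; push_cast; rfl
  have b3 := Val.mul G.b E.D (G.up h3)
  exact ⟨a1, a2, a3, h1, (Val.tight G.b (((b1.add b2).add b3).smul (-1))).congr
    fun _ _ ↦ by rw [AR, B3R]; push_cast; ring, b1, b2, b3⟩

theorem dpL (hs : Val P X.b.n s fs) (hw : Val P X.b.n w fw) (ok : (dpL X e s w).ok = true) :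
    ∃ n w7 v1 vt A1 A2 g : ℝ → ℝ, Val P X.b.n (dpL X e s w).n n ∧
    Val P X.b.n (dpL X e s w).w7 w7 ∧ Val P X.b.n (dpL X e s w).v1 v1 ∧
    Val P X.b.n (dpL X e s w).vt vt ∧ Val P X.b.n (dpL X e s w).A1 A1 ∧
    Val P X.b.n (dpL X e s w).A2 A2 ∧ ∀ τ, ∀ t ∈ JR p.D, t ≠ 0 → fs τ = exp t →
      fw τ = exp ((2 - 2 * p.F) * t) →
      DpS p e.z1 e.z2 t (fw τ) (n τ) (w7 τ) (v1 τ) (vt τ) (A1 τ) (A2 τ) (g τ) := by
  unfold MP_d6150d_an.dpL at ok ⊢
  dsimp only at ok ⊢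
  simp only [Bool.and_eq_true] at ok
  obtain ⟨f0, f1, f2, iF, tA, t1, t2, t3⟩ := G.mkTl E ok.1.1.1
  generalize MP_d6150d_an.mkTl X e = T at *
  have hg := (Val.tight G.s ((Val.int G.s 1).sub E.F)).congr (g := fun _ ↦ 1 - p.F)
    fun _ _ ↦ by simp
  have hD := (E.D.smul (-1)).congr (g := fun _ ↦ -p.D) fun _ _ ↦ by simp
  have g0 := G.pos (G.up hg) ok.1.1.2 P.h0
  have D0 := G.pos hD ok.2 P.h0
  have la := (Val.rcp G.b hD ok.1.2).2
  have lg := Val.mul G.b la (G.up hg)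
  have v0 := Val.tight G.b ((Val.mul G.b tA hw).add (Val.mul G.b hs (Val.tight G.b
    (t2.add (Val.mul G.b hs t1)))))
  have v1 := Val.tight G.b ((Val.int G.b 1).add (Val.mul G.b lg v0))
  have hP := Val.mul G.b (Val.tight G.b (la.sub (Val.int G.b 1))) (Val.mul G.b hs hs)
  have hQ := Val.mul G.b (Val.tight G.b (la.sub (Val.int G.b 2))) hs
  obtain ⟨a2, a1, a0, A1, A2⟩ := acoef_val G.b (G.envN E e.z1 e.z2 (Val.mul G.b lg hw)) v1
  have o := Val.tight G.b ((hP.sub hQ).add (Val.int G.b (-1)))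
  have hy := Val.mul G.b v1 (Val.inv G.b 2)
  have ww := Val.mul G.b (G.up hg) (Val.mul G.b o o)
  refine ⟨_, _, _, _, _, _, fun τ ↦ 1 / -p.D * (1 - p.F) * fw τ, tot_val G.b (G.up E.F) hP hQ
    (Val.int G.b (-1)) hy o ww (G.up (Val.mul G.s hg iF)) a2 a1 a0,
    Val.mul G.b (tj_val G.b (G.up E.F) hP hQ (Val.int G.b (-1)) hy o ww).2.2.2.2 (G.up hg), v1,
    Val.tight G.b (v0.add t3), A1, A2, fun τ t hJ h0 e1 e2 ↦ ?_⟩
  have D1 : p.D ≠ 0 := by linarith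
  have k1 : AR p.D p.F * fw τ + fs τ * (B2R p.D p.F + fs τ * B1R p.D p.F) + B3R p.D p.F =
      vR p.D p.F t * fw τ := by
    rw [vR_exp f0 f1 f2, e1, e2]
    linear_combination -(B3R p.D p.F + exp t * (B2R p.D p.F + exp t * B1R p.D p.F)) * exp_y t
  have k2 : ((1 : ℤ) : ℝ) + 1 / -p.D * (1 - p.F) * (AR p.D p.F * fw τ + fs τ * (B2R p.D p.F +
      fs τ * B1R p.D p.F)) = 1 / -p.D * (1 - p.F) * fw τ * vR p.D p.F t := by
    rw [eq_sub_of_add_eq k1, B3R]; field_simp; push_cast; ring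
  have k3 : (1 / -p.D - ((1 : ℤ) : ℝ)) * (fs τ * fs τ) - (1 / -p.D - ((2 : ℤ) : ℝ)) * fs τ +
      ((-1 : ℤ) : ℝ) = 1 / -p.D * wR p.D t := by
    rw [wR, PR, QR, e1]; field_simp; push_cast; ring
  obtain ⟨s1, s2, s3, s4, s5⟩ := p.sc_eq E.z1 E.z2 (1 / -p.D * (1 - p.F) * fw τ) (vR p.D p.F t)
  beta_reduce
  rw [k2, k3]
  refine ⟨by rw [e2]; positivity, k1, rfl, ?_, ?_, s1, s2⟩
  · rw [tot_scale p t (1 / p.F) (l := 1 / -p.D) (β := 1 - p.F)
      (by rw [PR, e1]; field_simp; push_cast; ring) (by rw [QR, e1]; field_simp; push_cast; ring)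
      (by field_simp; simp) (by rw [yR, e2]; push_cast; ring) (by ring) (by ring) s3 s4 s5,
      p.N_eq' hJ h0 f0]
    ring
  · have := mul_pos (wR_sign hJ h0) (mul_pos (pow_pos g0 4) (pow_pos (one_div_pos.2 D0) 7))
    exact this.trans_eq (by ring)

theorem dpR (hs : Val P X.b.n s fs) (hw : Val P X.b.n w fw) (ok : (dpR X e s w).ok = true) :
    ∃ w7 v1 vt : ℝ → ℝ,
    Val P X.b.n (dpR X e s w).n (fun τ ↦ nR p e.z1 e.z2 (fs τ) (fw τ)) ∧
    Val P X.b.n (dpR X e s w).w7 w7 ∧ Val P X.b.n (dpR X e s w).v1 v1 ∧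
    Val P X.b.n (dpR X e s w).vt vt ∧
    Val P X.b.n (dpR X e s w).gw (fun τ ↦ 1 / (1 + p.D) * p.F * fw τ) ∧
    Val P X.b.n (TM.rcp X.b (TM.tight X.b ((TM.int 1).add e.D))).2 (fun _ ↦ 1 / (1 + p.D)) ∧
    Val P X.b.n (MP_d6150d_an.mkTl X e).A (fun _ ↦ AR p.D p.F) ∧ 0 < p.F ∧
    ∀ τ, ∀ t ∈ JR p.D, t ≠ 0 → fs τ = exp (-t) → fw τ = exp (-(2 * p.F) * t) → ∃ A1 A2,
      DpS p e.z1 e.z2 t (fw τ) (nR p e.z1 e.z2 (fs τ) (fw τ)) (w7 τ) (v1 τ) (vt τ) A1 A2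
        (1 / (1 + p.D) * p.F * fw τ) := by
  unfold MP_d6150d_an.dpR at ok ⊢
  dsimp only at ok ⊢
  simp only [Bool.and_eq_true] at ok
  obtain ⟨f0, f1, f2, iF, tA, t1, t2, t3⟩ := G.mkTl E ok.1.1.1
  generalize MP_d6150d_an.mkTl X e = T at *
  have hD := ((Val.int G.b 1).add E.D).congr (g := fun _ ↦ 1 + p.D) fun _ _ ↦ by simp
  have hF := G.up E.F
  have g0 := G.pos hF ok.1.1.2 P.h0
  have D0 := G.pos hD ok.2 P.h0
  have la := (Val.rcp G.b (Val.tight G.b hD) ok.1.2).2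
  have lg := Val.mul G.b la hF
  have v0 := Val.tight G.b ((Val.mul G.b tA hw).add (Val.mul G.b hs (Val.tight G.b
    (t2.add (Val.mul G.b hs t3)))))
  have v1 := Val.tight G.b ((Val.int G.b 1).add (Val.mul G.b lg v0))
  have hQ := Val.mul G.b (Val.tight G.b ((Val.int G.b 2).sub la)) hs
  have hR := Val.mul G.b (Val.tight G.b ((Val.int G.b 1).sub la)) (Val.mul G.b hs hs)
  obtain ⟨a2, a1, a0, A1, A2⟩ := acoef_val G.b (G.envN E e.z1 e.z2 (Val.mul G.b lg hw)) v1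
  have o := Val.tight G.b (((Val.int G.b 1).sub hQ).add hR)
  have hy := Val.mul G.b v1 (Val.inv G.b 2)
  have ww := Val.mul G.b hF (Val.mul G.b o o)
  refine ⟨_, _, _, (tot_val G.b hF (Val.int G.b 1) hQ hR hy o ww (Val.int G.b 1) a2 a1
    a0).congr fun τ _ ↦ by simp only [nR]; push_cast; rfl,
    Val.mul G.b (tj_val G.b hF (Val.int G.b 1) hQ hR hy o ww).2.2.2.2 hF, v1,
    Val.tight G.b (v0.add t1), Val.mul G.b lg hw, la, tA, g0, fun τ t hJ h0 e1 e2 ↦ ?_⟩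
  have x1 : exp t * fs τ = 1 := by rw [e1, ← exp_add]; simp
  have x2 : exp ((2 * p.F - 2) * t) * fw τ = fs τ * fs τ := by
    rw [e1, e2, ← exp_add, ← exp_add]; ring_nf
  have x3 : exp ((2 - 2 * p.F) * t) * (fs τ * fs τ) = fw τ := by
    rw [e1, e2, ← exp_add, ← exp_add]; ring_nf
  have k1 : AR p.D p.F * fw τ + fs τ * (B2R p.D p.F + fs τ * B3R p.D p.F) + B1R p.D p.F =
      vR p.D p.F t * fw τ := by
    rw [vR_exp f0 f1 f2]
    linear_combination -(B3R p.D p.F + exp t * (B2R p.D p.F + exp t * B1R p.D p.F)) * x2 -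
      (B2R p.D p.F * fs τ + B1R p.D p.F * (exp t * fs τ + 1)) * x1
  have k2 : 1 + 1 / (1 + p.D) * p.F * (AR p.D p.F * fw τ + fs τ * (B2R p.D p.F +
      fs τ * B3R p.D p.F)) = 1 / (1 + p.D) * p.F * fw τ * vR p.D p.F t := by
    rw [eq_sub_of_add_eq k1, B1R]; field_simp; ring
  have k4 : 1 = 1 / (1 + p.D) * (fs τ * fs τ) * PR p.D t := by
    rw [PR]; field_simp; linear_combination -(exp t * fs τ + 1) * x1
  have k5 : (2 - 1 / (1 + p.D)) * fs τ = 1 / (1 + p.D) * (fs τ * fs τ) * QR p.D t := by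
    rw [QR]; field_simp; linear_combination -(1 + 2 * p.D) * fs τ * x1
  have k6 : (1 - 1 / (1 + p.D)) * (fs τ * fs τ) = 1 / (1 + p.D) * (fs τ * fs τ) * p.D := by
    field_simp; ring
  have k3 : 1 - (2 - 1 / (1 + p.D)) * fs τ + (1 - 1 / (1 + p.D)) * (fs τ * fs τ) =
      1 / (1 + p.D) * (fs τ * fs τ) * wR p.D t := by
    rw [wR]; linear_combination k4 - k5 + k6
  obtain ⟨s1, s2, s3, s4, s5⟩ := p.sc_eq E.z1 E.z2 (1 / (1 + p.D) * p.F * fw τ) (vR p.D p.F t)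
  simp only [nR]
  push_cast
  rw [k2, k3]
  refine ⟨_, _, by rw [e2]; positivity, k1, rfl, ?_, ?_, rfl, rfl⟩
  · rw [tot_scale p t (1 / p.F) (l := 1 / (1 + p.D) * (fs τ * fs τ)) (β := p.F) k4 k5 k6
      (by rw [yR, ← x3]; ring) (by ring) (by field_simp) s3 s4 s5, p.N_eq' hJ h0 f0]
    ring
  · have := mul_pos (wR_sign hJ h0) (mul_pos (pow_pos g0 4) (pow_pos (mul_pos (one_div_pos.2 D0)
      (mul_self_pos.2 (e1 ▸ (exp_pos _).ne'))) 7))
    exact this.trans_eq (by ring)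

end Cx.Good

end Pool.Agent.Lib.MP_d6150d_an
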