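import Pool.Agent.Lib.MP_d6150d_an.Sd3

/-! Soundness of the checks on boxes and at the center. -/

namespace Pool.Agent.Lib.MP_d6150d_an

open Real

/-- the sign condition at a point -/
def Ok (p : Par) (Ef : ℝ → ℝ) (sg t : ℝ) : Prop := t ∈ JR p.D → t ≠ 0 →
  0 < t * (sg * (p.N t - Ef (vR p.D p.F t))) ∧
    (t < 0 → 0 < p.A1 (vR p.D p.F t) ∧ 0 < p.A2 (vR p.D p.F t))

/-- the same setting with the plain bound -/
def St.z (P : St) : St := { P with m := 0 }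

theorem Val.z {P : St} {n : ℕ} {a : TM} {f : ℝ → ℝ} (h : Val P n a f) : Val P.z n a f := by
  obtain ⟨c, R, h⟩ := h
  exact ⟨c, ⟨R.supp, R.x, R.l⟩, h.sup P.hI⟩

theorem Ctx.Good.z {P : St} {c : Ctx} (G : c.Good P) : c.Good P.z :=
  ⟨G.1, G.2, G.3, G.4, G.5, G.6, G.7, G.8, G.9, G.10, G.11⟩

theorem Cx.Good.z {X : Cx} {P : St} {x y : ℝ} (G : X.Good P x y) : X.Good P.z x y :=
  ⟨G.s.z, G.b.z, G.le, G.lin, fun a ↦ (G.m1 a).z, fun a ↦ (G.mF a).z, fun a ↦ (G.mD a).z,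
    fun a ↦ (G.mDD a).z, fun a ↦ (G.mDF a).z, fun a ↦ (G.mFF a).z⟩

theorem EV.z {X : Cx} {P : St} {e : Env} {p : Par} (E : EV P X e p) : EV P.z X e p :=
  ⟨E.D.z, E.F.z, ⟨E.C.1.z, E.C.2.z, E.C.3.z, E.C.4.z, E.C.5.z, E.C.6.z, E.C.7.z⟩, E.z1, E.z2⟩

theorem Rep.val {P : St} {n : ℕ} {a : TM} {c : ℕ → ℤ} (R : Rep P n a c) :
    Val P.z n a fun τ ↦ P.ev c τ / 2 ^ 64 :=
  ⟨c, ⟨R.supp, R.x, R.l⟩, fun τ _ ↦ by
    show |2 ^ 64 * (P.ev c τ / 2 ^ 64) - P.ev c τ| ≤ _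
    rw [mul_div_cancel₀ _ (by positivity), sub_self, abs_zero]; positivity⟩

theorem box_cover {a b : ℤ} {t : ℝ} (h1 : a / 2 ^ 16 ≤ t) (h2 : t ≤ b / 2 ^ 16) :
    ∃ τ ∈ Set.Icc (-1 : ℝ) 1, boxR a b τ = t := by
  rw [div_le_iff₀ (by positivity)] at h1
  rw [le_div_iff₀ (by positivity)] at h2
  rcases (h1.trans h2).eq_or_lt with h | h
  · exact ⟨0, by norm_num, by rw [boxR]; linarith⟩
  · have h3 : (0 : ℝ) < b - a := by linarith
    refine ⟨(2 ^ 17 * t - a - b) / (b - a), ⟨?_, ?_⟩, by rw [boxR]; field_simp; ring⟩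
    · rw [le_div_iff₀ h3]; linarith
    · rw [div_le_iff₀ h3]; linarith

theorem chain_cover {f : ℤ → Bx → Bool} {Q : ℝ → Prop}
    (hf : ∀ a x, f a x = true → ∀ τ ∈ Set.Icc (-1 : ℝ) 1, Q (boxR a x.b τ)) :
    ∀ (l : List Bx) (a : ℤ), chain f a l = true → ∀ t : ℝ, a / 2 ^ 16 ≤ t →
      t < lastB a l / 2 ^ 16 → Q t
  | [], _, _, _, h1, h2 => (h2.not_ge h1).elim
  | x :: l, a, h, t, h1, h2 => by
    simp only [chain, Bool.and_eq_true] at h
    rcases le_total t (x.b / 2 ^ 16) with h3 | h3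
    · obtain ⟨τ, h4, rfl⟩ := box_cover h1 h3
      exact hf a x h.1 τ h4
    · exact chain_cover hf l x.b h.2 t h3 h2

theorem chkRange_eq (X : Cx) (e : Env) (E : Sep) (sg sd : ℤ) (cap : Option TM) :
    ∀ (l : List Bx) (a : ℤ), chkRange X e E sg sd cap a l = chain (chkBox X e E sg sd cap) a l
  | [], _ => rfl
  | x :: l, a => by rw [chkRange, chain, chkRange_eq X e E sg sd cap l]

theorem hornerR_cont : ∀ l : List ℝ, Continuous fun z ↦ hornerR z l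
  | [] => continuous_const
  | _ :: l => continuous_const.add (continuous_id.mul (hornerR_cont l))

theorem name_fun {I : Set ℝ} {f B : ℝ → ℝ} (h : ∀ τ ∈ I, |f τ| ≤ B τ) :
    ∃ g : ℝ → ℝ, (∀ τ, g τ = f τ) ∧ ∀ τ ∈ I, |g τ| ≤ B τ := ⟨f, fun _ ↦ rfl, h⟩

/-- the slope of the scaling -/
noncomputable def slopeR (p : Par) (sd : ℤ) : ℝ := if sd = 1 then p.F else 1 - p.F

namespace Cx.Good

variable {X : Cx} {P : St} {x y : ℝ} (G : X.Good P x y) {e : Env} {p : Par} (E : EV P X e p)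
  {zs za a : TM} {fs fa : ℝ → ℝ} {k : ℕ} {S : Sep} {sg sd : ℤ}
include G

theorem sepY (hm : P.m = 0) {d : Dp} {w7 v1 vt : ℝ → ℝ} (h1 : Val P X.b.n d.w7 w7)
    (h2 : Val P X.b.n d.v1 v1) (h3 : Val P X.b.n d.vt vt) (ha : Val P X.b.n a fa)
    (ok : (sepY X e S d a).1 = true) : Val P X.b.n (sepY X e S d a).2 fun τ ↦
      w7 τ * (1 / √(vt τ)) * ((if e.z1 then 1 else v1 τ) * if e.z2 then 1 else v1 τ) *
        sepP x y S (fa τ * (1 / √(vt τ))) := by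
  unfold MP_d6150d_an.sepY at ok ⊢
  dsimp only at ok ⊢
  have h4 := Val.rsq G.b hm G.lin h3 ok
  exact Val.mul G.b (Val.mul G.b (Val.mul G.b h1 h4) (G.vpow e h2)) (G.sepE S (Val.mul G.b ha h4))

include E

theorem slope (sd : ℤ) : Val P X.s.n (slope X e sd) fun _ ↦ slopeR p sd :=
  (ite (c := sd = 1) E.F (Val.tight G.s ((Val.int G.s 1).sub E.F))).congr
    fun _ _ ↦ by simp [slopeR]

theorem deep (hm : P.m = 0) {b : Bool} (hsd : sd = 1 ∨ sd = -1) (hs : Val P X.s.n zs fs)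
    (ha : Val P X.s.n za fa) (ok : deep X e S sg sd zs za k b = true) {τ : ℝ} (hτ : τ ∈ P.I)
    {t : ℝ} (h1 : fs τ = -sd * t) (h2 : fa τ = slopeR p sd * fs τ) (h3 : 0 < sd * t) :
    Ok p (sepR x y p e.z1 e.z2 S) sg t := fun hJ h0 ↦ by
  unfold MP_d6150d_an.deep at ok
  dsimp only at ok
  rcases hsd with rfl | rfl
  · simp only [if_true, Bool.and_eq_true, decide_eq_true_eq] at ok
    obtain ⟨⟨⟨⟨⟨o1, o2⟩, o3⟩, o4⟩, o5⟩, o6⟩ := ok
    have s := G.up (tri_val G.s hs o2).1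
    have a := (tri_val G.s ha o3).1
    have w := G.up (Val.mul G.s a a)
    obtain ⟨w7, v1, vt, d1, d2, d3, d4, -, -, -, -, d⟩ := G.dpR E s w o4
    have := G.pos ((Val.tight G.b (d1.sub (Val.mul G.b w (G.sepY hm d2 d3 d4 (G.up a) o5)))).smul
      sg) o6 hτ
    have e1 : fa τ = -p.F * t := by rw [h2, h1, slopeR]; simp
    obtain ⟨A1, A2, d⟩ := d τ t hJ h0 (by rw [h1]; simp) (by rw [← exp_add, e1]; ring_nf)
    refine ⟨d.sign (exp_pos _) o1 hJ h0 (by rw [← e1]; exact this), fun h ↦ ?_⟩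
    push_cast at h3; linarith
  · simp only [show ¬(-1 : ℤ) = 1 by norm_num, if_false, Bool.and_eq_true, decide_eq_true_eq] at ok
    obtain ⟨⟨⟨⟨⟨⟨⟨⟨o1, o2⟩, o3⟩, o7⟩, o4⟩, o5⟩, o8⟩, o9⟩, o6⟩ := ok
    have s := G.up (tri_val G.s hs o2).1
    have a := (tri_val G.s ha o3).1
    have w := G.up (Val.mul G.s a a)
    obtain ⟨n, w7, v1, vt, A1, A2, g, d1, d2, d3, d4, d5, d6, d⟩ := G.dpL E s w o4
    have := G.nrm b (Val.tight G.s (ha.sub (Val.mul G.s E.F hs))) o7 (d1.smul sg)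
      ((G.sepY hm d2 d3 d4 (G.up a) o5).smul (-sg)) o6 hτ
    have e0 : fs τ = t := by rw [h1]; simp
    have e1 : fa τ = (1 - p.F) * t := by rw [h2, e0, slopeR]; simp
    have d := d τ t hJ h0 (by rw [e0]) (by rw [← exp_add, e1]; ring_nf)
    refine ⟨d.sign (exp_pos _) o1 hJ h0 (this.trans_eq ?_), fun _ ↦ ⟨?_, ?_⟩⟩
    · rw [sub_eq_add_neg (fa τ), exp_add, e0, neg_mul]; push_cast; ring
    · exact (mul_pos_iff_of_pos_left (ite_pos' d.pos)).1 (d.A1 ▸ G.pos d5 o8 hτ)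
    · exact (mul_pos_iff_of_pos_left (ite_pos' d.pos)).1 (d.A2 ▸ G.pos d6 o9 hτ)

theorem boxN (hm : P.m = 0) (hsd : sd = 1 ∨ sd = -1) {a : ℤ} {b : Bx}
    (o1 : (boxN X e S sg sd a b).1.ok = true) (o2 : (boxN X e S sg sd a b).2.1 = true) :
    Val P X.b.n (boxN X e S sg sd a b).1.v (fun τ ↦ vR p.D p.F (boxR a b.b τ)) ∧
    Val P X.b.n (boxN X e S sg sd a b).1.A1 (fun τ ↦ p.A1 (vR p.D p.F (boxR a b.b τ))) ∧
    Val P X.b.n (boxN X e S sg sd a b).1.A2 (fun τ ↦ p.A2 (vR p.D p.F (boxR a b.b τ))) ∧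
    ∃ f, Val P X.b.n (boxN X e S sg sd a b).2.2 f ∧ ∀ τ t, boxR a b.b τ = t → t ∈ JR p.D →
      0 < sd * t → 0 < f τ → 0 < t * (sg * (p.N t - sepR x y p e.z1 e.z2 S (vR p.D p.F t))) := by
  have ht := G.box a b.b
  unfold MP_d6150d_an.boxN at o1 o2 ⊢
  dsimp only at o1 o2 ⊢
  by_cases h : b.md = 32
  · simp only [h, if_true, decide_eq_true_eq] at o1 o2 ⊢
    obtain ⟨c, n, h1, h2, h3, -, h5, h6, h7⟩ := G.core E ht o1
    refine ⟨h3, h5, h6, _, (Val.tight G.b ((Val.mul G.b (G.up ht) h1).sub (Val.mul G.b h2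
      (G.sepE S h3)))).smul _, ?_⟩
    rintro τ _ rfl hJ h8 h9
    have h0 : boxR a b.b τ ≠ 0 := by rintro h; simp [h] at h8
    rw [h7 τ hJ h0, ← mul_sub] at h9
    rw [sepR, if_pos o2]
    refine (mul_pos_iff_of_pos_left (bbR_pos (c := c) hJ)).1 ((mul_pos h8 h9).trans_eq ?_)
    rcases hsd with rfl | rfl <;> push_cast <;> ring
  · simp only [h, if_false, Bool.or_eq_true, decide_eq_true_eq] at o1 o2 ⊢
    obtain ⟨n, bb, h1, h2, h3, h5, h6, h7⟩ := G.far E _ _ ht o1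
    generalize MP_d6150d_an.far X e _ _ _ _ _ = r at *
    have key : Val P X.b.n (if S.kd = 2 then TM.mul X.b (TM.mul X.b (TM.rsq X.b X.lin r.v).2
        (MP_d6150d_an.vpow X e r.v)) (MP_d6150d_an.sepE X S (TM.rsq X.b X.lin r.v).2)
        else MP_d6150d_an.sepE X S r.v) fun τ ↦ sepR x y p e.z1 e.z2 S (vR p.D p.F (boxR a b.b τ)) -
          if decide (S.kd ≠ 0) then p.q0 (vR p.D p.F (boxR a b.b τ)) / p.F else 0 := by
      by_cases h2 : S.kd = 2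
      · have h4 := Val.rsq G.b hm G.lin h3 (o2.resolve_left (by simp [h2]))
        rw [if_pos h2]
        exact (Val.mul G.b (Val.mul G.b h4 (G.vpow e h3)) (G.sepE S h4)).congr
          fun τ _ ↦ by simp [sepR, h2]
      · rw [if_neg h2]
        exact (G.sepE S h3).congr fun τ _ ↦ by by_cases h0 : S.kd = 0 <;> simp [sepR, h2, h0]
    refine ⟨h3, h5, h6, _, (Val.tight G.b (h1.sub (Val.mul G.b h2 key))).smul _, ?_⟩
    rintro τ _ rfl hJ h8 h9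
    have h0 : boxR a b.b τ ≠ 0 := by rintro h; simp [h] at h8
    obtain ⟨h10, h11⟩ := h7 τ hJ h0
    have h12 : bb τ ≠ 0 := by rintro h; simp [h] at h10
    rw [h11] at h9
    refine (mul_pos_iff_of_pos_left (mul_self_pos.2 h12)).1 ((mul_pos h10 h9).trans_eq ?_)
    ring

theorem chkBox (hm : P.m = 0) (hsd : sd = 1 ∨ sd = -1) {cap : Option TM} {a : ℤ} {b : Bx}
    (ok : chkBox X e S sg sd cap a b = true) {τ : ℝ} (hτ : τ ∈ P.I) :
    (0 < sd * boxR a b.b τ → Ok p (sepR x y p e.z1 e.z2 S) sg (boxR a b.b τ)) ∧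
      ∀ L l, cap = some L → (Val P X.b.n L fun _ ↦ l) → vR p.D p.F (boxR a b.b τ) < l := by
  unfold MP_d6150d_an.chkBox at ok
  split_ifs at ok
  · simp only [Bool.and_eq_true, Option.isNone_iff_eq_none] at ok
    have h1 := (G.box a b.b).smul (-sd)
    refine ⟨G.deep E hm hsd h1 (Val.mul G.s (G.slope E sd) h1) ok.2 hτ (by push_cast; rfl) rfl,
      fun L l h ↦ by simp [ok.1] at h⟩
  · simp only [Bool.and_eq_true, Bool.or_eq_true, decide_eq_true_eq] at ok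
    obtain ⟨⟨⟨⟨o1, o2⟩, o3⟩, o4⟩, o5⟩ := ok
    obtain ⟨h1, h2, h3, f, h4, h5⟩ := G.boxN E hm hsd o1 o2
    refine ⟨fun h hJ _ ↦ ⟨h5 τ _ rfl hJ h (G.pos h4 o3 hτ), fun h6 ↦ ?_⟩, ?_⟩
    · have := o4.resolve_left (by rintro rfl; push_cast at h; linarith)
      exact ⟨G.pos h2 this.1 hτ, G.pos h3 this.2 hτ⟩
    · rintro L l rfl hL
      exact sub_pos.1 (G.pos (hL.sub h1) o5 hτ)

theorem chkRange (hm : P.m = 0) (hI : P.I = Set.Icc (-1) 1) (hsd : sd = 1 ∨ sd = -1)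
    {cap : Option TM} {a : ℤ} {l : List Bx} (ok : chkRange X e S sg sd cap a l = true) {t : ℝ}
    (h1 : a / 2 ^ 16 ≤ t) (h2 : t < lastB a l / 2 ^ 16) :
    (0 < sd * t → Ok p (sepR x y p e.z1 e.z2 S) sg t) ∧
      ∀ L l, cap = some L → (Val P X.b.n L fun _ ↦ l) → vR p.D p.F t < l :=
  chain_cover (Q := fun t ↦ (0 < sd * t → Ok p (sepR x y p e.z1 e.z2 S) sg t) ∧
      ∀ L l, cap = some L → (Val P X.b.n L fun _ ↦ l) → vR p.D p.F t < l)
    (fun _ _ h _ hτ ↦ G.chkBox E hm hsd h (hI ▸ hτ)) l a (chkRange_eq .. ▸ ok) t h1 h2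

omit E in
theorem pt (a : ℤ) : Val P X.s.n (boxT a a) fun _ ↦ a / 2 ^ 16 :=
  (G.box a a).congr fun τ _ ↦ by rw [boxR]; ring

theorem vAt {a : ℤ} (ok : vok X e a k = true) :
    Val P X.b.n (vAt X e a k) (fun _ ↦ vR p.D p.F (a / 2 ^ 16)) ∧
      Val P X.b.n (omAt X e a k) fun _ ↦ om p.D (a / 2 ^ 16) := by
  simp only [vok, Bool.and_eq_true] at ok
  have ht := G.pt a
  obtain ⟨m1, m2⟩ := G.mu E.F ht ok.1
  have h1 := G.up (tri_val G.s ht ok.2).1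
  exact ⟨(G.lin' E.D (G.up (Val.mul G.s (Val.mul G.s ht ht) m1)) (G.up (Val.mul G.s
    (Val.mul G.s ht ht) m2))).congr fun _ _ ↦ by simp only [vR, muR]; ring,
    (G.lin' E.D h1 (h1.sub (Val.int G.b 1))).congr fun _ _ ↦ by rw [om]; push_cast; ring⟩

theorem vGe {a : ℤ} {L : TM} {l : ℝ} (hL : Val P X.b.n L fun _ ↦ l) (ok : vGe X e a k L = true) :
    l < vR p.D p.F (a / 2 ^ 16) := by
  simp only [MP_d6150d_an.vGe, Bool.and_eq_true] at ok
  exact sub_pos.1 (G.pos ((G.vAt E ok.1).1.sub hL) ok.2 P.h0)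

theorem vLe {a : ℤ} {L : TM} {l : ℝ} (hL : Val P X.b.n L fun _ ↦ l) (ok : vLe X e a k L = true) :
    vR p.D p.F (a / 2 ^ 16) < l ∧ (a / 2 ^ 16 : ℝ) ∈ JR p.D := by
  simp only [MP_d6150d_an.vLe, Bool.and_eq_true] at ok
  exact ⟨sub_pos.1 (G.pos (hL.sub (G.vAt E ok.1.1).1) ok.1.2 P.h0),
    G.pos (G.vAt E ok.1.1).2 ok.2 P.h0⟩

theorem outside {a : ℤ} (ok : outside X e a k = true) : (a / 2 ^ 16 : ℝ) ∉ JR p.D := by
  simp only [MP_d6150d_an.outside, Bool.and_eq_true] at ok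
  have := G.pos ((G.vAt E ok.1).2.smul (-1)) ok.2 P.h0
  intro h
  have h : 0 < om p.D _ := h
  push_cast at this; linarith

omit E

theorem powT (ha : Val P X.b.n a fa) : ∀ n, Val P X.b.n (powT X.b a n) fun τ ↦ fa τ ^ n
  | 0 => (Val.int G.b 1).congr fun _ _ ↦ by simp
  | n + 1 => (Val.mul G.b ha (powT ha n)).congr fun _ _ ↦ pow_succ' _ _

variable {bb m A : TM} {fb fm fA : ℝ → ℝ} (hb : Val P X.b.n bb fb) (hm : Val P X.b.n m fm)
include hb hm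

theorem csteps2 : ∀ j, Val P X.b.n (csteps X bb m A j).2.1 fun τ ↦ fb τ * fm τ ^ j
  | 0 => hb.congr fun _ _ ↦ by simp
  | j + 1 => (Val.mul G.b (csteps2 j) hm).congr fun _ _ ↦ by ring

omit G hb hm in
theorem csteps3 : ∀ j, ∏ i ∈ Finset.range j, (1 + ((csteps X bb m A (i + 1)).2.1.norm : ℝ) / 2 ^ 64)
    ≤ ((csteps X bb m A j).2.2 : ℝ)
  | 0 => by simp [csteps]
  | j + 1 => by
    rw [Finset.prod_range_succ, show (csteps X bb m A (j + 1)).2.2 = (csteps X bb m A j).2.2 *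
      ((csteps X bb m A (j + 1)).2.1.norm / 2 ^ 64 + 2) from rfl, Nat.cast_mul]
    refine mul_le_mul (csteps3 j) ?_ (by positivity) (by positivity)
    have := nat_div_bound (csteps X bb m A (j + 1)).2.1.norm
    rw [Nat.cast_add]; push_cast at this ⊢; linarith

theorem csteps1 {s : ℕ} {Ss : List ℕ} (hS : P.Ss = s :: Ss) {z : ℝ} (hx : P.xs = [x, y, z])
    (hA : Val P X.b.n A fA) : ∀ j, (∀ i < j, okSlice X P.Ss s (2 * i + 1) = true) → ∃ c : ℕ → ℝ,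
    Val P X.b.n (csteps X bb m A j).1 fun τ ↦
      fA τ - ∑ i ∈ Finset.range j, c i * τ ^ (2 * i + 1) * (fb τ * fm τ ^ (i + 1))
  | 0, _ => ⟨fun _ ↦ 0, hA.congr fun _ _ ↦ by simp⟩
  | j + 1, h => by
    obtain ⟨c, h1⟩ := csteps1 hS hx hA j fun i hi ↦ h i (by omega)
    obtain ⟨d, h2⟩ := h1.slice hS G.b (h j (by omega))
    have h3 := taup_val G.b (Bool.and_eq_true_iff.1 (h j (by omega))).2
    refine ⟨fun i ↦ if i = j then d else c i, (Val.tight G.b (h1.sub (Val.mul G.b h2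
      (Val.mul G.b h3 (G.csteps2 hb hm (A := A) (j + 1)))))).congr fun τ _ ↦ ?_⟩
    beta_reduce
    rw [Finset.sum_range_succ, if_pos rfl, Finset.sum_congr rfl
      (g := fun i ↦ c i * τ ^ (2 * i + 1) * (fb τ * fm τ ^ (i + 1)))
      fun i hi ↦ by rw [if_neg (Finset.mem_range.1 hi).ne], hx]
    simp; ring

omit hb hm in
theorem chkCen (E : EV P X e p) {j : ℕ} {a : ℤ} {κ : ℤ × ℤ} (hm : P.m = 2 * j)
    (hI : P.I = Set.Icc (-1) 1) {s : ℕ} {Ss : List ℕ} (hS : P.Ss = s :: Ss) {z : ℝ}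
    (hx : P.xs = [x, y, z]) (o1 : okLow X P.Ss s (2 * j) = true) (hj : j ≤ 3)
    (o2 : ∀ i < j, okSlice X P.Ss s (2 * i + 1) = true) (hO : p.Ord j) (ha : 0 < a)
    (ok : chkCen X e S sg j a k κ = true) :
    0 < p.a1 ∧ 0 < p.a2 ∧ ∃ Ef : ℝ → ℝ, ∀ t : ℝ, |t| ≤ a / 2 ^ 16 → Ok p Ef sg t := by
  unfold MP_d6150d_an.chkCen cenN at ok
  simp only [Bool.and_eq_true] at ok
  obtain ⟨⟨⟨k1, k2⟩, k3⟩, k4⟩ := ok
  have a0 : (0 : ℝ) < a / 2 ^ 16 := by positivity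
  have ht := (G.m1 (a * 4294967296)).congr (g := fun τ ↦ a / 2 ^ 16 * τ)
    fun _ _ ↦ by push_cast; ring
  generalize (a / 2 ^ 16 : ℝ) = b at *
  generalize TM.mon 1 _ = t at *
  obtain ⟨c, n, h1, h2, h3, h4, h5, h6, h7⟩ := G.core E ht k1
  generalize MP_d6150d_an.core X e t k κ = r at *
  refine ⟨by simpa [Par.A1, vR] using G.pos h5 k3 P.h0,
    by simpa [Par.A2, vR] using G.pos h6 k4 P.h0, ?_⟩
  have hA := Val.tight G.b (h1.sub (Val.mul G.b (Val.mul G.b h2 (G.sepE S h3)) (Val.mul G.b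
    (Val.mul G.b (G.up ht) h4) (G.powT h3 j))))
  generalize TM.tight X.b (r.n0.sub _) = A at *
  obtain ⟨d, h8⟩ := G.csteps1 h2 h4 hS hx hA j o2
  have h9 := G.csteps2 h2 h4 (A := A)
  have h10 := csteps3 (X := X) (bb := r.bb) (m := r.m) (A := A) j
  generalize (csteps X r.bb r.m A j).1 = s1 at *
  generalize (csteps X r.bb r.m A j).2.2 = s2 at *
  by_cases hl : s1.l < 2 ^ 223
  swap
  · rw [TM.part, if_neg hl] at k2
    have := G.z.pos (((Val.tight G.z.b (Val.zero G.z.b)).widen _ (δ := fun _ ↦ 0)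
      fun _ _ ↦ by rw [abs_zero]; positivity).smul sg) k2 P.h0
    simp at this
  obtain ⟨c0, R, h8⟩ := h8
  obtain ⟨lo, hi, R1, R2, -, h11⟩ := R.low hS G.b hl o1 (by rw [N0_eq]; omega)
  generalize TM.tight X.b (TM.part X.b (lowMask X (2 * j)) 0 s1) = s3 at *
  obtain ⟨q, K, hK, hq⟩ := hO.jet
  have key : ∀ τ, b * τ ∈ JR p.D → τ ≠ 0 → b * τ * (n τ - bbR p c (b * τ) * sepP x y S
      (vR p.D p.F (b * τ)) * (b * τ * muR p.D p.F (b * τ) * vR p.D p.F (b * τ) ^ j) -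
      ∑ i ∈ Finset.range j, q i * b ^ (2 * i + 1) * τ ^ (2 * i + 1) *
        (bbR p c (b * τ) * muR p.D p.F (b * τ) ^ (i + 1))) = bbR p c (b * τ) * (p.N (b * τ) -
      (vR p.D p.F (b * τ) ^ (j + 1) * sepP x y S (vR p.D p.F (b * τ)) +
        ∑ i ∈ Finset.range j, q i * vR p.D p.F (b * τ) ^ (i + 1))) := fun τ hJ h0 ↦ by
    rw [mul_sub, mul_sub, h7 τ hJ (mul_ne_zero a0.ne' h0), mul_sub, mul_add, Finset.mul_sum,
      Finset.mul_sum, Finset.sum_congr rfl (g := fun i ↦ bbR p c (b * τ) *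
        (q i * vR p.D p.F (b * τ) ^ (i + 1))) fun i _ ↦ by rw [vR]; ring, pow_succ (vR _ _ _) j,
      vR]
    ring
  have hc : ContinuousAt (fun τ ↦ 2 ^ 64 * b ^ (2 * j) * bbR p c (b * τ) *
      (√(muR p.D p.F (b * τ)) ^ (2 * j + 1) * K (b * τ) - b * τ * muR p.D p.F (b * τ) ^ (j + 1) *
        sepP x y S (vR p.D p.F (b * τ))) - P.ev hi τ) 0 := by
    have c1 : Continuous (muR p.D p.F) :=
      continuous_iff_continuousAt.2 fun t ↦ (muR_an _ _ t).continuousAt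
    have c2 : Continuous ph1 := continuous_iff_continuousAt.2 fun t ↦ (ph1_an t).continuousAt
    have c3 : Continuous (bbR p c) := by unfold bbR om; fun_prop
    have c4 : Continuous (sepP x y S) := (hornerR_cont _).comp (by fun_prop)
    have c5 : ContinuousAt (fun τ ↦ K (b * τ)) 0 :=
      ContinuousAt.comp (g := K) (by simpa using hK) (by fun_prop)
    have c6 : Continuous (P.ev hi) := by
      unfold St.ev; simp only [mo_eq hS]; fun_prop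
    have c7 := vR_cont (D := p.D) (F := p.F)
    exact ((Continuous.continuousAt (by fun_prop)).mul (((Continuous.continuousAt
      (by fun_prop)).mul c5).sub (Continuous.continuousAt (by fun_prop)))).sub c6.continuousAt
  obtain ⟨M, hM⟩ := hc.norm.isBoundedUnder_le
  have tb : Filter.Tendsto (fun τ ↦ b * τ) (nhds 0) (nhds 0) :=
    Continuous.tendsto' (by fun_prop) _ _ (by simp)
  have pl := peel j (η := s3.l + s1.r) (M := M) (δ := fun i ↦ 2 ^ 64 * (q i * b ^ (2 * i + 1) - d i))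
    (H := fun i τ ↦ bbR p c (b * τ) * muR p.D p.F (b * τ) ^ (i + 1))
    (C := fun i ↦ ((csteps X r.bb r.m A (i + 1)).2.1.norm : ℝ) / 2 ^ 64)
    (hI ▸ hm ▸ (h8.add (P.ev_nm lo)).mono (by
      have : (l1 lo : ℝ) ≤ s3.l := by exact_mod_cast R1.l
      linarith)) (fun i _ ↦ hI ▸ hm ▸ (h9 (i + 1)).norm)
    (fun i ↦ by simp [bbR, ph1_zero, om, muR_zero]) (by
      filter_upwards [nhdsWithin_le_nhds (Filter.eventually_map.1 hM), nhdsWithin_le_nhds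
        (tb.eventually hq), nhdsWithin_le_nhds (tb.eventually ((JR_open p.D).eventually_mem
          (zero_mem_JR p.D))), self_mem_nhdsWithin] with τ e1 e2 e3 e4
      have e5 := key τ e3 e4
      rw [e2, gR] at e5
      refine le_of_eq_of_le ?_ (mul_le_mul_of_nonneg_right e1 (by rw [pow_mul]; positivity))
      rw [norm_eq_abs, ← abs_of_nonneg (by rw [pow_mul]; positivity : 0 ≤ τ ^ (2 * j)), ← abs_mul,
        h11]
      refine congrArg _ (mul_left_cancel₀ (mul_ne_zero a0.ne' e4) ?_)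
      simp only [mul_sub, sub_mul, Finset.sum_sub_distrib, mul_assoc (2 ^ 64 : ℝ),
        ← Finset.mul_sum] at e5 ⊢
      rw [pow_succ (vR _ _ _) j, vR] at e5
      rw [vR]
      linear_combination 2 ^ 64 * e5)
  obtain ⟨g, hg, pl⟩ := name_fun pl
  refine ⟨fun v ↦ v ^ (j + 1) * sepP x y S v + ∑ i ∈ Finset.range j, q i * v ^ (i + 1),
    fun t h hJ h0 ↦ ?_⟩
  obtain ⟨τ, rfl⟩ : ∃ τ, t = b * τ := ⟨t / b, by field_simp⟩
  have hτ : τ ∈ P.I := by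
    rw [abs_mul, abs_of_pos a0, mul_le_iff_le_one_right a0] at h
    exact hI ▸ abs_le.1 h
  have τ0 : τ ≠ 0 := right_ne_zero_of_mul h0
  have τ1 : 0 < τ ^ (2 * j) := by rw [pow_mul]; positivity
  refine ⟨?_, fun _ ↦ ⟨G.pos h5 k3 hτ, G.pos h6 k4 hτ⟩⟩
  have := G.z.pos ((R2.val.widen _ (δ := fun τ ↦ (g τ / τ ^ (2 * j)) / 2 ^ 64) fun τ hτ ↦ by
    rw [abs_div, abs_of_pos (by positivity : (0 : ℝ) < 2 ^ 64)]
    refine div_le_div_of_nonneg_right ?_ (by positivity)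
    rw [abs_div, abs_of_nonneg (by rw [pow_mul]; positivity : 0 ≤ τ ^ (2 * j))]
    refine div_le_of_le_mul₀ (by rw [pow_mul]; positivity) (by positivity)
      ((pl τ (hI ▸ hτ)).trans (mul_le_mul_of_nonneg_right ?_ (by rw [pow_mul]; positivity)))
    push_cast
    exact mul_le_mul_of_nonneg_left h10 (by positivity)).smul sg) k2 hτ
  refine (mul_pos_iff_of_pos_left (bbR_pos (c := c) hJ)).1
    ((mul_pos (mul_pos τ1 (mul_self_pos.2 h0)) this).trans_eq ?_)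
  rw [mul_left_comm (bbR _ _ _), mul_left_comm (bbR _ _ _), ← key τ hJ τ0, hg, h11]
  simp only [mul_sub, sub_mul, Finset.sum_sub_distrib, mul_assoc (2 ^ 64 : ℝ), ← Finset.mul_sum]
  field_simp
  ring

end Cx.Good

end Pool.Agent.Lib.MP_d6150d_an
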