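import Pool.Agent.Lib.MP_d6150d_an.Sd4

/-! Soundness of the checks on the tails. -/

set_option linter.unusedTactic false
set_option linter.unreachableTactic false

namespace Pool.Agent.Lib.MP_d6150d_an

open Real

/-- the operator vanishes at the finite level -/
def Kind (p : Par) (k1 k2 : ℕ) : Prop :=
  (k1 ≠ 0 → p.a1 = p.F - 1 - p.D ∧ p.c1 = p.F * ((2 * p.F - 1) * (p.F - 1))) ∧
    (k2 ≠ 0 → p.a2 = p.F - 1 - p.D ∧ p.c2 = p.F * ((2 * p.F - 1) * (p.F - 1)))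

/-- the exponent on the left tail -/
def exR (F : ℝ) (k1 k2 : ℕ) : ℝ :=
  (2 + (if k1 = 0 then 1 else 0) + if k2 = 0 then 1 else 0) * (2 * F - 2) - F

theorem dp1_id (p : Par) (t : ℝ) {g l z n1 n2 A1 A2 a0 : ℝ} (hz : z ≠ 0)
    (h1 : A1 * z = g * p.A1 (vR p.D p.F t) * n1) (h2 : A2 * z = g * p.A2 (vR p.D p.F t) * n2)
    (h0 : a0 = g * g * p.q0 (vR p.D p.F t)) {y w : ℝ} (hy : y = g * z * l * yR p.D p.F t)
    (hw : w = l * wR p.D t) {J : ℝ × ℝ × ℝ} (hJ : J = pjR p.F (l * PR p.D t) (l * QR p.D t) (l * p.D))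
    {t1 t2 t3 t4 w7 : ℝ} (e1 : t1 = y * (g * (w * w) * (g * (w * w)) * (g * (w * w))))
    (e2 : t2 = y * y * J.1 * (g * (w * w) * (g * (w * w))))
    (e3 : t3 = y * y * y * J.2.1 * (g * (w * w))) (e4 : t4 = y * y * y * y * J.2.2)
    (e7 : w7 = g * (w * w) * (g * (w * w)) * (g * (w * w)) * w * g) :
    4 * (A1 * A2) * (4 * t4 + z * (24 * t3 + z * (27 * t2 + 3 * (z * t1)))) +
      2 * (A1 * n2 * (p.b2 * g - 5 * (p.c2 * (g * vR p.D p.F t))) +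
        A2 * n1 * (p.b1 * g - 3 * (p.c1 * (g * vR p.D p.F t)))) *
        (4 * t3 + z * (12 * t2 + 3 * (z * t1))) +
      a0 * (n1 * n2) * (4 * (t2 + z * t1) - z * z * (w7 * (1 / p.F))) =
    n1 * n2 * z ^ 2 * g ^ 6 * l ^ 7 * p.tot t (1 / p.F) := by
  rw [eq_div_of_mul_eq hz h1, eq_div_of_mul_eq hz h2]
  subst h0 hy hw hJ e1 e2 e3 e4 e7
  simp only [Par.tot, totR, pjR_smul, sumR, Par.q2, Par.q1]
  generalize pjR p.F _ _ _ = J
  generalize 1 / p.F = u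
  field_simp
  ring

theorem Val.slope {P : St} {s : ℕ} {Ss : List ℕ} (hS : P.Ss = s :: Ss) {X : Cx} (G : X.b.Good P)
    (hm : P.m = 1) (o : okLow X P.Ss s 1 = true) {a : TM} {f : ℝ → ℝ} (h : Val P X.b.n a f)
    (hl : a.l < 2 ^ 223) : ∃ g, Val P.z X.b.n ((TM.tight X.b (TM.part X.b (X.b.kp - lowMask X 1) 1
      a)).widen a.r) g ∧ ∀ τ ∈ P.I, f τ = f 0 + τ * g τ := by
  obtain ⟨e, R, h⟩ := h
  obtain ⟨lo, hi, -, R2, h1, h2⟩ := R.low hS G hl o (by rw [N0_eq]; omega)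
  rw [hm] at h
  obtain ⟨c, k, h3, h4⟩ := h
  refine ⟨_, R2.val.widen _ (δ := fun τ ↦ k τ / 2 ^ 64) fun τ hτ ↦ ?_, fun τ hτ ↦ ?_⟩
  · rw [abs_div, abs_of_pos (by positivity : (0 : ℝ) < 2 ^ 64)]
    exact div_le_div_of_nonneg_right ((h4 τ hτ).trans (sub_le_self _ (abs_nonneg _)))
      (by positivity)
  · have e1 := h3 τ hτ
    have e2 := h3 0 P.h0
    beta_reduce at e1 e2
    rw [h2, ev_const hS lo (fun k hk ↦ by have := h1 k hk; omega)] at e1 e2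
    linear_combination (e1 - e2) / 2 ^ 64

theorem nR_zero (p : Par) (z1 z2 : Bool) (W : ℝ) {l v : ℝ} (hl : l = 1 / (1 + p.D) * p.F * AR p.D p.F)
    (hv : v = 1 + l * W) {q : Par} (hq : q = p.sc (if z1 then 1 else 1 / (1 + p.D) * p.F * W)
      (if z2 then 1 else 1 / (1 + p.D) * p.F * W)) :
    4 * nR p z1 z2 0 W = W * W * (l * l * (p.F * (p.F * p.F)) *
      (v * (6 * q.q1 v - 3 * (q.q2 v * (5 * v - 2))) - 4 * q.q0 v)) := by
  have h : 1 + 1 / (1 + p.D) * p.F * (AR p.D p.F * W + 0 * (B2R p.D p.F + 0 * B3R p.D p.F)) = v := by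
    rw [hv, hl]; ring
  simp only [nR]
  rw [h, ← hq]
  simp only [totR, sumR, pjR]
  generalize q.q2 v = a
  generalize q.q1 v = b
  generalize q.q0 v = c
  subst hv
  ring

namespace Cx.Good

variable {X : Cx} {P : St} {x y : ℝ} (G : X.Good P x y) {e : Env} {p : Par} (E : EV P X e p)
  {s z A B : TM} {fs fz fA fB : ℝ → ℝ} {k k1 k2 : ℕ} {S : Sep} {sg sd : ℤ}
include G

theorem quad {a b d : TM} {fa fb fd : ℝ → ℝ} (hs : Val P X.b.n s fs) (ha : Val P X.b.n a fa)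
    (hb : Val P X.b.n b fb) (hd : Val P X.b.n d fd) :
    Val P X.b.n (quad X.b s a b d) fun τ ↦ fa τ + fs τ * (fb τ + fs τ * fd τ) :=
  Val.tight G.b (ha.add (Val.mul G.b hs (Val.tight G.b (hb.add (Val.mul G.b hs hd)))))

theorem rays {ex zf : TM} {c t0 : ℝ} (hx : Val P X.s.n ex fun _ ↦ c)
    (hf : Val P X.s.n zf fun _ ↦ c * t0) (o : zok zf k = true) (hA : Val P X.b.n A fA)
    (hB : Val P X.b.n B fB) (ok : rays X ex zf A B k = true) {τ : ℝ} (hτ : τ ∈ P.I) {t : ℝ}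
    (ht : t ≤ t0) : 0 < fA τ + exp (c * t) * fB τ := by
  unfold MP_d6150d_an.rays at ok
  have e0 := exp_pos (c * t)
  split_ifs at ok with h1 h2 <;> simp only [Bool.and_eq_true, Bool.or_eq_true] at ok
  · have h3 := exp_le_exp.2 (mul_le_mul_of_nonneg_left ht (G.pos (G.up hx) h1 hτ).le)
    have h4 := G.pos hA ok.1 hτ
    rcases ok.2 with h | h
    · have := G.nrm false hf o hA hB h hτ
      rcases le_total 0 (fB τ) with h5 | h5 <;> nlinarith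
    · have := G.pos hB h hτ; positivity
  · have h3 := G.pos ((G.up hx).smul (-1)) h2 hτ
    have h3 := exp_le_exp.2 (mul_le_mul_of_nonpos_left ht (show c ≤ 0 by push_cast at h3; linarith))
    have h4 := G.pos hB ok.1 hτ
    rcases ok.2 with h | h
    · have := G.nrm true hf o hA hB h hτ
      nlinarith
    · have := G.pos hA h hτ; positivity
  · have := G.pos hA ok.1 hτ
    have := G.pos hB ok.2 hτ
    positivity

theorem svar (hI : P.I = Set.Icc 0 1) {t0 : ℝ} (hz : Val P X.s.n z fun _ ↦ t0)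
    (o : zok z k = true) : ∃ c : ℝ, 0 < c ∧ Val P X.b.n (svar X z k) (fun τ ↦ c * τ) ∧
      Val P X.b.n (TM.cst ((TM.tri X.s k z).e.norm + 1)) (fun _ ↦ c) ∧
      ∀ t ≤ t0, exp t / c ∈ P.I := by
  have h1 := (le_abs_self _).trans ((tri_val G.s hz o).1.bound P.h0)
  refine ⟨_, by positivity, (Val.mul G.b (Val.cst G.b _) (G.up (G.m1 _))).congr
    fun _ _ ↦ by norm_num, Val.cst G.b _, fun t ht ↦ hI ▸ ⟨by positivity, ?_⟩⟩
  rw [div_le_one (by positivity)]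
  refine (exp_le_exp.2 ht).trans (h1.trans (div_le_div_of_nonneg_right ?_ (by positivity)))
  push_cast; linarith

theorem link {g : TM} {c : ℝ} (hg : Val P X.s.n g fun _ ↦ c) {t u : ℤ}
    (ok : link X g t u = true) : (u / 2 ^ 16 : ℝ) < c * (t / 2 ^ 16) :=
  sub_pos.1 (G.pos (G.up ((Val.mul G.s hg (G.pt t)).sub (G.pt u))) ok P.h0)

include E

theorem slope1 : Val P X.s.n (slope1 X e) fun _ ↦ 2 * p.F - 2 :=
  (Val.tight G.s ((E.F.smul 2).sub (Val.int G.s 2))).congr fun _ _ ↦ by simp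

theorem expo1 (k1 k2 : ℕ) : Val P X.s.n (expo1 X e k1 k2) fun _ ↦ exR p.F k1 k2 :=
  (Val.tight G.s (((G.slope1 E).smul _).sub E.F)).congr fun _ _ ↦ by simp [exR]

theorem dp1 (K : Kind p k1 k2) {cap : Option (List ℤ)} (hs : Val P X.b.n s fs)
    (hz : Val P X.b.n z fz) (ok : (dp1 X e k1 k2 S cap s z).1 = true) (z1 z2 : Bool) :
    1 < p.F ∧ ∃ fA fB, Val P X.b.n (dp1 X e k1 k2 S cap s z).2.1 fA ∧
    Val P X.b.n (dp1 X e k1 k2 S cap s z).2.2 fB ∧ ∀ τ ∈ P.I, ∀ t, fs τ = exp t →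
      fz τ = exp ((2 * p.F - 2) * t) → (∀ L, cap = some L → vR p.D p.F t < parR x y L) ∧
      (0 < sg * fA τ + exp (exR p.F k1 k2 * t) * ((-sg : ℤ) * fB τ) →
        Ok p (sepR x y p z1 z2 S) sg t) := by
  unfold MP_d6150d_an.dp1 at ok ⊢
  dsimp only at ok ⊢
  simp only [Bool.and_eq_true, decide_eq_true_eq] at ok
  obtain ⟨⟨⟨⟨⟨⟨⟨o1, o2⟩, o3⟩, o4⟩, o5⟩, o6⟩, o7⟩, o8⟩ := ok
  obtain ⟨f0, f1, f2, iF, tA, t1, t2, t3⟩ := G.mkTl E o2
  generalize MP_d6150d_an.mkTl X e = T at *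
  have hg := G.up ((Val.tight G.s (E.F.sub (Val.int G.s 1))).congr (g := fun _ ↦ p.F - 1)
    fun _ _ ↦ by simp)
  have hD := (E.D.smul (-1)).congr (g := fun _ ↦ -p.D) fun _ _ ↦ by simp
  have g0 := G.pos hg o3 P.h0
  have D0 := G.pos hD o5 P.h0
  have la := (Val.rcp G.b hD o4).2
  generalize TM.tight X.s (e.F.sub (TM.int 1)) = g at *
  generalize (TM.rcp X.b (TM.smul (-1) e.D)).2 = l at *
  have v := Val.tight G.b (tA.add (Val.mul G.b hz (G.quad hs t3 t2 t1)))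
  have G1 := Val.mul G.b hg t1
  have G2 := Val.mul G.b hg t2
  have v0 := G.quad hs E.D G2 G1
  have v1 := Val.tight G.b ((Val.mul G.b hz v0).sub ((G1.add G2).add E.D))
  generalize MP_d6150d_an.quad X.b s e.D _ _ = V0 at *
  generalize TM.tight X.b ((TM.mul X.b z V0).sub _) = V1 at *
  have hP := Val.mul G.b (Val.tight G.b (la.sub (Val.int G.b 1))) (Val.mul G.b hs hs)
  have hQ := Val.mul G.b (Val.tight G.b (la.sub (Val.int G.b 2))) hs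
  have en := G.envN E false false hg
  obtain ⟨-, -, a0, A1, A2⟩ := acoef_val G.b en v1
  have n1 := ite (c := k1 = 0) hz (Val.int G.b 1)
  have n2 := ite (c := k2 = 0) hz (Val.int G.b 1)
  have A1 := ite (c := k1 = 0) A1 ((Val.mul G.b E.C.c1 v0).smul (-1))
  have A2 := ite (c := k2 = 0) A2 ((Val.mul G.b E.C.c2 v0).smul (-1))
  have w := Val.tight G.b ((hP.sub hQ).add (Val.int G.b (-1)))
  obtain ⟨r1, r2, r3, r4, r7⟩ := tj_val G.b (G.up E.F) hP hQ (Val.int G.b (-1))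
    (Val.mul G.b v1 (Val.mul G.b la (Val.inv G.b 2))) w (Val.mul G.b hg (Val.mul G.b w w))
  generalize tj X.b e.F _ _ _ _ _ _ = r at *
  have u1 := Val.mul G.b hz r1
  have w7 := Val.mul G.b r7 hg
  refine ⟨sub_pos.1 g0, _, _, Val.tight G.b (((Val.mul G.b ((Val.mul G.b A1 A2).smul 4)
    (Val.tight G.b ((r4.smul 4).add (Val.mul G.b hz (Val.tight G.b ((r3.smul 24).add (Val.mul G.b hz
      (Val.tight G.b ((r2.smul 27).add (u1.smul 3)))))))))).add (Val.mul G.b (((Val.mul G.b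
      (Val.mul G.b A1 n2) (Val.tight G.b (en.b2.sub ((Val.mul G.b E.C.c2 v1).smul 5)))).add
      (Val.mul G.b (Val.mul G.b A2 n1) (Val.tight G.b (en.b1.sub
        ((Val.mul G.b E.C.c1 v1).smul 3))))).smul 2) (Val.tight G.b ((r3.smul 4).add
      (Val.mul G.b hz (Val.tight G.b ((r2.smul 12).add (u1.smul 3)))))))).add (Val.mul G.b
      (Val.mul G.b a0 (Val.mul G.b n1 n2)) (Val.tight G.b (((r2.add u1).smul 4).sub
      (Val.mul G.b (Val.mul G.b hz hz) (Val.mul G.b w7 (G.up iF))))))),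
    Val.mul G.b (Val.mul G.b w7 (Val.mul G.b hg hg)) (G.sepE S v), fun τ hτ t e1 e2 ↦ ?_⟩
  have k0 : AR p.D p.F + fz τ * (B3R p.D p.F + fs τ * (B2R p.D p.F + fs τ * B1R p.D p.F)) =
      vR p.D p.F t := by rw [vR_exp f0 f1 f2, e1, e2]
  refine ⟨?_, fun h hJ h0 ↦ ?_⟩
  · rintro L rfl
    dsimp only at o8
    rw [← k0]
    exact sub_pos.1 (G.pos ((G.par L).sub v) o8 hτ)
  have b1 := G.pos A1 o6 hτ
  have b2 := G.pos A2 o7 hτ
  have D1 : p.D ≠ 0 := (neg_pos.1 D0).ne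
  have z0 : 0 < fz τ := e2 ▸ exp_pos _
  have k2' : fz τ * (p.D + fs τ * ((p.F - 1) * B2R p.D p.F + fs τ * ((p.F - 1) * B1R p.D p.F))) -
      ((p.F - 1) * B1R p.D p.F + (p.F - 1) * B2R p.D p.F + p.D) = (p.F - 1) * vR p.D p.F t := by
    rw [← k0, AR, B3R]; field_simp; ring
  have k3 : (1 / -p.D - ((1 : ℤ) : ℝ)) * (fs τ * fs τ) - (1 / -p.D - ((2 : ℤ) : ℝ)) * fs τ +
      ((-1 : ℤ) : ℝ) = 1 / -p.D * wR p.D t := by
    rw [wR, PR, QR, e1]; field_simp; push_cast; ring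
  have k4 : -(p.F * ((2 * p.F - 1) * (p.F - 1)) * (p.D + fs τ * ((p.F - 1) * B2R p.D p.F +
      fs τ * ((p.F - 1) * B1R p.D p.F)))) * fz τ = (p.F - 1) *
      (p.F - 1 - p.D - p.F * ((2 * p.F - 1) * (p.F - 1)) * vR p.D p.F t) := by
    have : (p.F - 1) * (p.F - 1 - p.D) = -(p.F * ((2 * p.F - 1) * (p.F - 1))) *
        ((p.F - 1) * B1R p.D p.F + (p.F - 1) * B2R p.D p.F + p.D) := by
      rw [B1R, B2R]
      linear_combination (p.F - 1) * (2 * p.F - 1) * (p.F - 1) * (1 + p.D) * mul_one_div_cancel f0 -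
        (p.F - 1) * 2 * p.F * (p.F - 1) * (1 + 2 * p.D) * mul_one_div_cancel f1
    linear_combination -(p.F * ((2 * p.F - 1) * (p.F - 1))) * k2' - this
  obtain ⟨s1, s2, -, -, s5⟩ := p.sc_eq (z1 := false) (z2 := false) (by simp) (by simp) (p.F - 1)
    (vR p.D p.F t)
  simp only [Bool.false_eq_true, if_false] at h b1 b2 s1 s2 s5
  rw [k2'] at h b1 b2
  rw [k0, k3] at h
  generalize hA1 : (if k1 = 0 then _ else ((-1 : ℤ) : ℝ) * _) = A1' at h b1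
  generalize hA2 : (if k2 = 0 then _ else ((-1 : ℤ) : ℝ) * _) = A2' at h b2
  generalize hn1 : (if k1 = 0 then fz τ else ((1 : ℤ) : ℝ)) = m1 at h
  generalize hn2 : (if k2 = 0 then fz τ else ((1 : ℤ) : ℝ)) = m2 at h
  have c1 : A1' * fz τ = (p.F - 1) * p.A1 (vR p.D p.F t) * m1 := by
    rw [← hA1, ← hn1]; split_ifs with h
    · rw [s1]
    · rw [Par.A1, (K.1 h).1, (K.1 h).2, ← k4]; simp
  have c2 : A2' * fz τ = (p.F - 1) * p.A2 (vR p.D p.F t) * m2 := by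
    rw [← hA2, ← hn2]; split_ifs with h
    · rw [s2]
    · rw [Par.A2, (K.2 h).1, (K.2 h).2, ← k4]; simp
  have m1p : 0 < m1 := by rw [← hn1]; split_ifs; exacts [z0, by simp]
  have m2p : 0 < m2 := by rw [← hn2]; split_ifs; exacts [z0, by simp]
  have ex : exp (exR p.F k1 k2 * t) = m1 * m2 * fz τ ^ 2 * exp (-p.F * t) := by
    rw [← hn1, ← hn2, exR, e2]
    split_ifs <;> simp only [Int.cast_one, sq, one_mul, mul_one, ← exp_add] <;> ring_nf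
  have j0 : (p.F - 1) * vR p.D p.F t * (1 / -p.D * (1 / (2 : ℕ))) =
      (p.F - 1) * fz τ * (1 / -p.D) * yR p.D p.F t := by
    rw [yR, e2]; push_cast
    linear_combination -((p.F - 1) * vR p.D p.F t * (1 / -p.D * (1 / 2))) * exp_y (F := p.F) t
  have j1 : (1 / -p.D - ((1 : ℤ) : ℝ)) * (fs τ * fs τ) = 1 / -p.D * PR p.D t := by
    rw [PR, e1]; field_simp; push_cast; ring
  have j2 : (1 / -p.D - ((2 : ℤ) : ℝ)) * fs τ = 1 / -p.D * QR p.D t := by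
    rw [QR, e1]; field_simp; push_cast; ring
  have j3 : pjR p.F ((1 / -p.D - ((1 : ℤ) : ℝ)) * (fs τ * fs τ)) ((1 / -p.D - ((2 : ℤ) : ℝ)) * fs τ)
      ((-1 : ℤ) : ℝ) = pjR p.F (1 / -p.D * PR p.D t) (1 / -p.D * QR p.D t) (1 / -p.D * p.D) := by
    rw [j1, j2, show ((-1 : ℤ) : ℝ) = 1 / -p.D * p.D by field_simp; simp]
  have id := dp1_id p t z0.ne' c1 c2 s5 j0 rfl j3 rfl rfl rfl rfl rfl
  simp only [Par.sc] at h id
  push_cast at h id
  rw [id, p.N_eq' hJ h0 f0, ex] at h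
  refine ⟨?_, fun _ ↦ ⟨?_, ?_⟩⟩
  · have h7 := wR_sign hJ h0
    have := mul_pos h7 h
    rw [sepR, if_neg (by omega), if_neg (by omega)]
    have w0 := wR_ne hJ h0
    refine (mul_pos_iff_of_pos_left (a := m1 * m2 * fz τ ^ 2 * exp (-p.F * t) * (p.F - 1) ^ 6 *
      (1 / -p.D) ^ 7 * (wR p.D t ^ 7) ^ 2) (by positivity)).1 (this.trans_eq ?_)
    ring
  · have := c1 ▸ mul_pos b1 z0
    exact (mul_pos_iff_of_pos_left g0).1 ((mul_pos_iff_of_pos_right m1p).1 this)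
  · have := c2 ▸ mul_pos b2 z0
    exact (mul_pos_iff_of_pos_left g0).1 ((mul_pos_iff_of_pos_right m2p).1 this)

theorem ubox1 (K : Kind p k1 k2) {cap : Option (List ℤ)} {a : ℤ} {b : Bx} (z1 z2 : Bool)
    (ok : ubox1 X e k1 k2 S sg cap a b = true) {τ : ℝ} (hτ : τ ∈ P.I) (t : ℝ)
    (ht : (2 * p.F - 2) * -t = boxR a b.b τ) : (∀ L, cap = some L → vR p.D p.F t < parR x y L) ∧
      Ok p (sepR x y p z1 z2 S) sg t := by
  unfold MP_d6150d_an.ubox1 at ok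
  simp only [Bool.and_eq_true] at ok
  obtain ⟨⟨⟨⟨⟨o1, o2⟩, o3⟩, o4⟩, o5⟩, o6⟩ := ok
  have za := (G.box a b.b).smul (-1)
  obtain ⟨h0, ig⟩ := Val.rcp G.s (G.slope1 E) o1
  have zs := Val.mul G.s za ig
  obtain ⟨-, fA, fB, h1, h2, h3⟩ := G.dp1 E (sg := sg) K (G.up (tri_val G.s zs o3).1)
    (G.up (tri_val G.s za o2).1) o5 z1 z2
  have e1 : ((-1 : ℤ) : ℝ) * boxR a b.b τ * (1 / (2 * p.F - 2)) = t := by
    rw [← ht, mul_one_div, div_eq_iff h0]; push_cast; ring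
  obtain ⟨h4, h5⟩ := h3 τ hτ t (by rw [e1]) (by rw [← ht]; simp)
  have := G.nrm _ (Val.mul G.s (G.expo1 E k1 k2) zs) o4 (h1.smul sg) (h2.smul (-sg)) o6 hτ
  rw [e1] at this
  exact ⟨h4, h5 this⟩

theorem ubox (hm : P.m = 0) (hsd : sd = 1 ∨ sd = -1) {a : ℤ} {b : Bx}
    (ok : ubox X e S sg sd a b = true) {τ : ℝ} (hτ : τ ∈ P.I) (t : ℝ) (h0 : 0 < sd * t)
    (ht : slopeR p sd * (sd * t) = boxR a b.b τ) : Ok p (sepR x y p e.z1 e.z2 S) sg t := by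
  unfold MP_d6150d_an.ubox at ok
  simp only [Bool.and_eq_true] at ok
  have za := (G.box a b.b).smul (-1)
  obtain ⟨h1, ig⟩ := Val.rcp G.s (G.slope E sd) ok.1
  exact G.deep E hm hsd (Val.mul G.s za ig) za ok.2 hτ (by rw [← ht]; field_simp; simp)
    (by field_simp) h0

variable (hI : P.I = Set.Icc 0 1) {q : ℝ} (h4 : Val P X.b.n (taup X.i4) fun _ ↦ q) {u : ℤ}
include hI h4

theorem tail1 (K : Kind p k1 k2) {cap : Option (List ℤ)} (z1 z2 : Bool)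
    (ok : tail1 X e k1 k2 S sg cap u k = true) : 0 < 2 * p.F - 2 ∧ ∀ t,
      u / 2 ^ 16 ≤ (2 * p.F - 2) * -t → q = exp ((2 * p.F - 2) * t + u / 2 ^ 16) →
      (∀ L, cap = some L → vR p.D p.F t < parR x y L) ∧ Ok p (sepR x y p z1 z2 S) sg t := by
  unfold MP_d6150d_an.tail1 at ok
  simp only [Bool.and_eq_true] at ok
  obtain ⟨⟨⟨⟨⟨o1, o2⟩, o3⟩, o4⟩, o5⟩, o6⟩ := ok
  have za := (G.pt u).smul (-1)
  obtain ⟨h0, ig⟩ := Val.rcp G.s (G.slope1 E) o1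
  have zs := Val.mul G.s za ig
  obtain ⟨c, c0, c1, -, c3⟩ := G.svar hI zs o3
  obtain ⟨hF, fA, fB, h1, h2, h3⟩ := G.dp1 E (sg := sg) K c1
    (Val.mul G.b (G.up (tri_val G.s za o2).1) h4) o5 z1 z2
  have g0 : 0 < 2 * p.F - 2 := by linarith
  refine ⟨g0, fun t ht hq ↦ ?_⟩
  have e1 : t ≤ ((-1 : ℤ) : ℝ) * (u / 2 ^ 16) * (1 / (2 * p.F - 2)) := by
    rw [mul_one_div, le_div_iff₀ g0]; push_cast; linarith
  obtain ⟨h5, h6⟩ := h3 _ (c3 t e1) t (by field_simp)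
    (by rw [hq, ← exp_add]; push_cast; ring_nf)
  exact ⟨h5, h6 (G.rays (G.expo1 E k1 k2) (Val.mul G.s (G.expo1 E k1 k2) zs) o4 (h1.smul sg)
    (h2.smul (-sg)) o6 (c3 t e1) e1)⟩

theorem tail2 (hm : P.m = 0) (ok : tail2 X e S sg u k = true) : 0 < 1 - p.F ∧ ∀ t,
    u / 2 ^ 16 ≤ (1 - p.F) * -t → q = exp ((1 - p.F) * t + u / 2 ^ 16) →
      Ok p (sepR x y p e.z1 e.z2 S) sg t := by
  unfold MP_d6150d_an.tail2 at ok
  simp only [Bool.and_eq_true, decide_eq_true_eq] at ok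
  obtain ⟨⟨⟨⟨⟨⟨⟨⟨⟨o1, o2⟩, o3⟩, o4⟩, o5⟩, o6⟩, o7⟩, o8⟩, o9⟩, o10⟩ := ok
  have za := (G.pt u).smul (-1)
  obtain ⟨h0, ig⟩ := Val.rcp G.s (G.slope E (-1)) o1
  have e0 : slopeR p (-1) = 1 - p.F := by simp [slopeR]
  rw [e0] at h0 ig
  have zs := Val.mul G.s za ig
  obtain ⟨c, c0, c1, -, c3⟩ := G.svar hI zs o3
  have a := Val.mul G.b (G.up (tri_val G.s za o2).1) h4
  obtain ⟨n, w7, v1, vt, A1, A2, g, d1, d2, d3, d4, d5, d6, d⟩ := G.dpL E c1 (Val.mul G.b a a) o6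
  have g0 : 0 < 1 - p.F := by
    simp only [MP_d6150d_an.dpL, Bool.and_eq_true] at o6
    simpa using G.pos (G.up (Val.tight G.s ((Val.int G.s 1).sub E.F))) o6.1.1.2 P.h0
  refine ⟨g0, fun t ht hq hJ h0 ↦ ?_⟩
  have e1 : t ≤ ((-1 : ℤ) : ℝ) * (u / 2 ^ 16) * (1 / (1 - p.F)) := by
    rw [mul_one_div, le_div_iff₀ g0]; push_cast; linarith
  have ex := Val.tight G.s ((Val.int G.s 1).sub (E.F.smul 2))
  have := G.rays ex (Val.mul G.s ex zs) o4 (d1.smul sg) ((G.sepY hm d2 d3 d4 a o7).smul (-sg)) o10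
    (c3 t e1) e1
  have e2 : exp (((-1 : ℤ) : ℝ) * (u / 2 ^ 16)) * q = exp ((1 - p.F) * t) := by
    rw [hq, ← exp_add]; push_cast; ring_nf
  have d := d _ t hJ h0 (by field_simp : c * (exp t / c) = exp t)
    (by rw [e2, ← exp_add]; ring_nf)
  rw [e2] at this d
  refine ⟨d.sign (exp_pos _) o5 hJ h0 (this.trans_eq ?_), fun _ ↦ ⟨?_, ?_⟩⟩
  · rw [← exp_add]; push_cast; ring_nf
  · exact (mul_pos_iff_of_pos_left (ite_pos' d.pos)).1 (d.A1 ▸ G.pos d5 o8 (c3 t e1))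
  · exact (mul_pos_iff_of_pos_left (ite_pos' d.pos)).1 (d.A2 ▸ G.pos d6 o9 (c3 t e1))

theorem tail3 (hm : P.m = 1) {s : ℕ} {Ss : List ℕ} (hS : P.Ss = s :: Ss)
    (o : okLow X P.Ss s 1 = true) (ok : tail3 X e S sg u k = true) : 0 < p.F ∧ ∀ t, 0 < t →
    u / 2 ^ 16 ≤ p.F * t → q = exp (-p.F * t + u / 2 ^ 16) →
      Ok p (sepR x y p e.z1 e.z2 S) sg t := by
  unfold MP_d6150d_an.tail3 at ok
  simp only [Bool.and_eq_true, decide_eq_true_eq] at ok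
  obtain ⟨⟨⟨⟨⟨⟨⟨⟨o1, o2⟩, o3⟩, o4⟩, o5⟩, o6⟩, o7⟩, o8⟩, o9⟩ := ok
  have za := (G.pt u).smul (-1)
  obtain ⟨h0, ig⟩ := Val.rcp G.s E.F o1
  have zs := Val.mul G.s za ig
  obtain ⟨c, c0, c1, c2, c3⟩ := G.svar hI zs o3
  have a := Val.mul G.b (G.up (tri_val G.s za o2).1) h4
  have w := Val.mul G.b a a
  obtain ⟨w7, v1, vt, d1, d2, d3, d4, d5, d6, d7, g0, d⟩ := G.dpR E c1 w o6
  refine ⟨g0, fun t t0 ht hq hJ h0 ↦ ⟨?_, fun h ↦ absurd h t0.not_gt⟩⟩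
  obtain ⟨g, h1, h2⟩ := d1.slope hS G.b hm o o8
  have hF := G.up E.F
  have lA := Val.mul G.b (Val.mul G.b d6 hF) d7
  have v0 := Val.tight G.b ((Val.int G.b 1).add (Val.mul G.b lA w))
  obtain ⟨q2, q1, q0, -, -⟩ := acoef_val G.b (G.envN E e.z1 e.z2 d5) v0
  have B0 := Val.mul G.b (Val.mul G.b (Val.mul G.b lA lA) (Val.mul G.b hF (Val.mul G.b hF hF)))
    (Val.tight G.b ((Val.mul G.b v0 (Val.tight G.b ((q1.smul 6).sub ((Val.mul G.b q2
      ((v0.smul 5).sub (Val.int G.b 2))).smul 3)))).sub (q0.smul 4)))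
  have e1 : -t ≤ ((-1 : ℤ) : ℝ) * (u / 2 ^ 16) * (1 / p.F) := by
    rw [mul_one_div, le_div_iff₀ g0]; push_cast; linarith
  have ex := Val.tight G.s ((E.F.smul 2).sub (Val.int G.s 1))
  have hτ := c3 _ e1
  have := G.z.rays ex.z (Val.mul G.s ex zs).z o4 (h1.smul (4 * sg)) ((Val.mul G.z.b c2.z
    (Val.tight G.z.b ((Val.mul G.b w B0).z.sub ((G.z.sepY rfl d2.z d3.z d4.z a.z o7).smul 4)))).smul
    sg) o9 hτ e1
  have e2 : exp (((-1 : ℤ) : ℝ) * (u / 2 ^ 16)) * q = exp (-p.F * t) := by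
    rw [hq, ← exp_add]; push_cast; ring_nf
  have e3 : c * (exp (-t) / c) = exp (-t) := by field_simp
  obtain ⟨A1, A2, d⟩ := d _ t hJ h0 e3 (by rw [e2, ← exp_add]; ring_nf)
  have h3 := h2 _ hτ
  beta_reduce at h3
  rw [e2] at this d h3
  refine d.sign (exp_pos _) o5 hJ h0 ?_
  have e4 : exp (-t) * exp ((((2 : ℤ) : ℝ) * p.F - ((1 : ℤ) : ℝ)) * -t) =
      exp (-p.F * t) * exp (-p.F * t) := by
    rw [← exp_add, ← exp_add]; push_cast; ring_nf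
  have h5 := mul_pos (div_pos (exp_pos (-t)) c0) this
  generalize exp (-p.F * t) * exp (-p.F * t) = W at *
  generalize w7 _ * _ * _ * sepP x y S _ = Y at *
  have h6 := nR_zero p e.z1 e.z2 W rfl rfl rfl
  push_cast at h5 e4
  rw [h3, mul_zero]
  generalize 1 / (1 + p.D) * p.F * AR p.D p.F * (1 / (1 + p.D) * p.F * AR p.D p.F) * _ * _ = B
    at h5 h6
  refine (mul_pos_iff_of_pos_left four_pos).1 (h5.trans_eq ?_)
  linear_combination sg * exp ((2 * p.F - 1) * -t) * (W * B - 4 * Y) * e3 +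
    sg * (W * B - 4 * Y) * e4 - sg * h6

end Cx.Good

end Pool.Agent.Lib.MP_d6150d_an
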