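import Pool.Agent.Lib.MP_d6150d_an.Sd5

/-! Soundness of the check of a cell. -/

set_option linter.unusedSectionVars false

namespace Pool.Agent.Lib.MP_d6150d_an

open Real

/-- the checks on the tails are sound -/
structure TailOK (T : Tx) (x y : ℝ) (p : Par) (z1 z2 : Bool) : Prop where
  K : Kind p T.k1 T.k2
  t1 : ∀ {S : Sep} {sg : ℤ} {cap : Option (List ℤ)} {u : ℤ} {k : ℕ},
    tail1 T.Y T.e T.k1 T.k2 S sg cap u k = true → 0 < 2 * p.F - 2 ∧ ∀ t,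
      u / 2 ^ 16 ≤ (2 * p.F - 2) * -t →
      (∀ L, cap = some L → vR p.D p.F t < parR x y L) ∧ Ok p (sepR x y p z1 z2 S) sg t
  t2 : ∀ {S : Sep} {sg : ℤ} {u : ℤ} {k : ℕ}, tail2 T.Y T.e S sg u k = true → 0 < 1 - p.F ∧ ∀ t,
    u / 2 ^ 16 ≤ (1 - p.F) * -t → Ok p (sepR x y p z1 z2 S) sg t
  t3 : ∀ {S : Sep} {sg : ℤ} {u : ℤ} {k : ℕ}, tail3 T.Y T.e S sg u k = true → 0 < p.F ∧ ∀ t, 0 < t →
    u / 2 ^ 16 ≤ p.F * t → Ok p (sepR x y p z1 z2 S) sg t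

theorem exp_mem {z : ℝ} (h : z ≤ 0) : exp z ∈ Set.Icc (0 : ℝ) 1 :=
  ⟨(exp_pos _).le, exp_le_one_iff.2 h⟩

theorem tailOK {Y : Cx} {s : ℕ} {Ss : List ℕ} (h1 : Y.ok (s :: Ss) true = true)
    (h2 : idx (s :: Ss) Y.b.n Y.i4 [0, 0, 0, 1] = true) (h3 : okLow Y (s :: Ss) s 1 = true)
    {x y : ℝ} (hx : |x| ≤ 1) (hy : |y| ≤ 1) (C : Cell) :
    TailOK (mkTx Y C) x y (mkPar ((C.D0 + C.hD * y) / 2 ^ 48) ((C.F0 + C.hF * x) / 2 ^ 48)
      C.o1 C.o2 C.ka) (mkTx Y C).e.z1 (mkTx Y C).e.z2 := by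
  have G := fun q hq ↦ Cx.good h1 1 (z := q) hx hy hq
  have E := fun q hq ↦ (G q hq).mkEnv C.D0 C.hD C.F0 C.hF C.o1 C.o2 C.ka
  have h4 : ∀ q hq, Val (mkSt s Ss true 1 hx hy (z := q) hq) Y.b.n (taup Y.i4) fun _ ↦ q :=
    fun q hq ↦ (taup_val (G q hq).b h2).congr fun _ _ ↦ by simp [mkSt]
  have z : (0 : ℝ) ∈ Set.Icc (0 : ℝ) 1 := by simp
  have K : Kind (mkPar ((C.D0 + C.hD * y) / 2 ^ 48) ((C.F0 + C.hF * x) / 2 ^ 48)
      C.o1 C.o2 C.ka) C.o1.kind C.o2.kind :=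
    ⟨fun h ↦ by simp [mkPar, opAR, opCR, h], fun h ↦ by simp [mkPar, opAR, opCR, h]⟩
  generalize mkPar _ _ _ _ _ = p at *
  unfold mkTx
  generalize mkEnv Y _ _ _ _ _ _ _ = e at *
  refine ⟨K, fun ok ↦ ?_, fun ok ↦ ?_, fun ok ↦ ?_⟩ <;> dsimp only at ok ⊢
  · exact ⟨((G 0 z).tail1 (E 0 z) rfl (h4 0 z) K e.z1 e.z2 ok).1, fun t ht ↦
      (((G _ (exp_mem (by linarith))).tail1 (E _ _) rfl (h4 _ _) K e.z1 e.z2 ok).2 t ht rfl)⟩
  · exact ⟨((G 0 z).z.tail2 (E 0 z).z rfl (h4 0 z).z rfl ok).1, fun t ht ↦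
      (((G _ (exp_mem (by linarith))).z.tail2 (E _ _).z rfl (h4 _ _).z rfl ok).2 t ht rfl)⟩
  · exact ⟨((G 0 z).tail3 (E 0 z) rfl (h4 0 z) rfl rfl h3 ok).1, fun t t0 ht ↦
      (((G _ (exp_mem (by linarith))).tail3 (E _ _) rfl (h4 _ _) rfl rfl h3 ok).2 t t0 ht rfl)⟩

/-- two points of the same level -/
structure Pair (p : Par) (a b : ℝ) : Prop where
  ha : a ∈ JR p.D
  hb : b ∈ JR p.D
  a0 : a < 0
  b0 : 0 < b
  eq : vR p.D p.F a = vR p.D p.F b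

theorem Pair.left {p : Par} {a b c : ℝ} (H : Pair p a b) (hc : c ≤ 0)
    (h : vR p.D p.F b < vR p.D p.F c) : c ≤ a :=
  not_lt.1 fun h1 ↦ (vR_anti H.ha hc h1).not_gt (H.eq ▸ h)

theorem Pair.right {p : Par} {a b c : ℝ} (H : Pair p a b) (hc : 0 ≤ c)
    (h : vR p.D p.F b < vR p.D p.F c) : b < c :=
  not_le.1 fun h1 ↦ by
    rcases h1.eq_or_lt with rfl | h1
    exacts [h.false, (vR_mono H.hb hc h1).not_gt h]

theorem int_neg {a : ℤ} (h : a < 0) : (a / 2 ^ 16 : ℝ) < 0 :=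
  div_neg_of_neg_of_pos (by exact_mod_cast h) (by positivity)

theorem int_pos {a : ℤ} (h : 0 < a) : (0 : ℝ) < a / 2 ^ 16 := by positivity

namespace Cx.Good

variable {X : Cx} {P : St} {x y : ℝ} (G : X.Good P x y) {e : Env} {p : Par} (E : EV P X e p)
  (hm : P.m = 0) (hI : P.I = Set.Icc (-1) 1) {T : Tx} (TO : TailOK T x y p e.z1 e.z2) {sg : ℤ}
  {en : ℕ} {a b : ℝ} (H : Pair p a b) {q : Piece} {L : TM} {l : ℝ}
  (hL : Val P X.b.n L fun _ ↦ l) (hl : l ≤ vR p.D p.F b)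
include G E H

include hL hl in
theorem chkLow (ok : chkLow X e L q = true) : q.l0 < 0 ∧ 0 < lastB q.r0 q.rb ∧
    a < lastB q.l0 q.lb / 2 ^ 16 ∧ q.r0 / 2 ^ 16 ≤ b := by
  simp only [MP_d6150d_an.chkLow, Bool.and_eq_true, decide_eq_true_eq] at ok
  obtain ⟨⟨⟨⟨⟨o1, o2⟩, o3⟩, o4⟩, o5⟩, o6⟩ := ok
  obtain ⟨h1, h2⟩ := G.vLe E hL o5
  obtain ⟨h3, h4⟩ := G.vLe E hL o6
  refine ⟨o1, o2, not_le.1 fun h ↦ ?_, not_lt.1 fun h ↦ ?_⟩
  · rcases h.eq_or_lt with h | h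
    · rw [h, H.eq] at h1; exact h1.not_ge hl
    · have := vR_anti (F := p.F) h2 H.a0.le h
      rw [H.eq] at this; linarith
  · have := vR_mono (F := p.F) h4 H.b0.le h
    linarith

include hm hI TO

theorem left1 {cap : Option (List ℤ)} (h : a < q.l0 / 2 ^ 16)
    (ok : (MP_d6150d_an.link X (MP_d6150d_an.slope1 X e) (-q.l0) q.lu0 &&
      chain (MP_d6150d_an.ubox1 X e T.k1 T.k2 q.E sg cap) q.lu0 q.lu &&
      MP_d6150d_an.tail1 T.Y T.e T.k1 T.k2 q.E sg cap (lastB q.lu0 q.lu) q.k) = true) :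
    (∀ L, cap = some L → vR p.D p.F a < parR x y L) ∧ Ok p (sepR x y p e.z1 e.z2 q.E) sg a := by
  simp only [Bool.and_eq_true] at ok
  obtain ⟨h1, h2⟩ := TO.t1 ok.2
  have h3 := G.link (G.slope1 E) ok.1.1
  rcases le_or_gt (lastB q.lu0 q.lu / 2 ^ 16 : ℝ) ((2 * p.F - 2) * -a) with h4 | h4
  · exact h2 a h4
  · exact chain_cover (Q := fun u ↦ ∀ t, (2 * p.F - 2) * -t = u →
      (∀ L, cap = some L → vR p.D p.F t < parR x y L) ∧ Ok p (sepR x y p e.z1 e.z2 q.E) sg t)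
      (fun _ _ h _ hτ ↦ G.ubox1 E TO.K _ _ h (hI ▸ hτ)) _ _ ok.1.2 _
      (h3.le.trans (mul_le_mul_of_nonneg_left (by push_cast; linarith) h1.le)) h4 a rfl

theorem left2 (h : a < q.l0 / 2 ^ 16)
    (ok : (MP_d6150d_an.link X (MP_d6150d_an.slope X e (-1)) (-q.l0) q.lu0 &&
      chain (MP_d6150d_an.ubox X e q.E sg (-1)) q.lu0 q.lu &&
      MP_d6150d_an.tail2 T.Y T.e q.E sg (lastB q.lu0 q.lu) q.k) = true) :
    Ok p (sepR x y p e.z1 e.z2 q.E) sg a := by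
  simp only [Bool.and_eq_true] at ok
  obtain ⟨h1, h2⟩ := TO.t2 ok.2
  have h3 := G.link (G.slope E (-1)) ok.1.1
  have e0 : slopeR p (-1) = 1 - p.F := by simp [slopeR]
  rw [e0] at h3
  rcases le_or_gt (lastB q.lu0 q.lu / 2 ^ 16 : ℝ) ((1 - p.F) * -a) with h4 | h4
  · exact h2 a h4
  · exact chain_cover (Q := fun u ↦ ∀ t, 0 < ((-1 : ℤ) : ℝ) * t →
      slopeR p (-1) * ((-1 : ℤ) * t) = u → Ok p (sepR x y p e.z1 e.z2 q.E) sg t)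
      (fun _ _ h _ hτ ↦ G.ubox E hm (Or.inr rfl) h (hI ▸ hτ)) _ _ ok.1.2 _
      (h3.le.trans (mul_le_mul_of_nonneg_left (by push_cast; linarith) h1.le)) h4 a
      (by simpa using H.a0) (by simp [e0])

theorem right3 (h : lastB q.r0 q.rb / 2 ^ 16 ≤ b)
    (ok : (MP_d6150d_an.link X e.F (lastB q.r0 q.rb) q.ru0 &&
      chain (MP_d6150d_an.ubox X e q.E sg 1) q.ru0 q.ru &&
      MP_d6150d_an.tail3 T.Y T.e q.E sg (lastB q.ru0 q.ru) q.k) = true) :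
    Ok p (sepR x y p e.z1 e.z2 q.E) sg b := by
  simp only [Bool.and_eq_true] at ok
  obtain ⟨h1, h2⟩ := TO.t3 ok.2
  have h3 := G.link E.F ok.1.1
  rcases le_or_gt (lastB q.ru0 q.ru / 2 ^ 16 : ℝ) (p.F * b) with h4 | h4
  · exact h2 b H.b0 h4
  · exact chain_cover (Q := fun u ↦ ∀ t, 0 < ((1 : ℤ) : ℝ) * t →
      slopeR p 1 * ((1 : ℤ) * t) = u → Ok p (sepR x y p e.z1 e.z2 q.E) sg t)
      (fun _ _ h _ hτ ↦ G.ubox E hm (Or.inl rfl) h (hI ▸ hτ)) _ _ ok.1.2 _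
      (h3.le.trans (mul_le_mul_of_nonneg_left h h1.le)) h4 b
      (by simpa using H.b0) (by simp [slopeR])

include hL hl

theorem chkLast (o : MP_d6150d_an.chkLow X e L q = true) (ok : chkLast X e T sg en q = true) :
    Ok p (sepR x y p e.z1 e.z2 q.E) sg a ∧ Ok p (sepR x y p e.z1 e.z2 q.E) sg b := by
  obtain ⟨l0, r0, h1, h2⟩ := G.chkLow E H hL hl o
  have l0 := (int_neg l0).le
  have r0 := (int_pos r0).le
  unfold MP_d6150d_an.chkLast at ok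
  rw [Bool.and_eq_true, Bool.and_eq_true, Bool.and_eq_true] at ok
  obtain ⟨⟨⟨o1, o2⟩, o3⟩, o4⟩ := ok
  have a0 : 0 < ((-1 : ℤ) : ℝ) * a := by simpa using H.a0
  have b0 : 0 < ((1 : ℤ) : ℝ) * b := by simpa using H.b0
  have R1 := fun h ↦ G.chkRange E hm hI (Or.inr rfl) o1 h h1
  have R2 := G.chkRange E hm hI (Or.inl rfl) o2 h2
  have hp := G.par q.lam
  have out : ∀ {k}, MP_d6150d_an.outside X e (lastB q.r0 q.rb) k = true →
      b < lastB q.r0 q.rb / 2 ^ 16 := fun h ↦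
    not_le.1 fun h3 ↦ G.outside E h (JR_conn (zero_mem_JR _) H.hb r0 h3)
  have cap : vR p.D p.F a < parR x y q.lam → MP_d6150d_an.vGe X e (lastB q.r0 q.rb) q.k
      (MP_d6150d_an.par X q.lam) = true → Ok p (sepR x y p e.z1 e.z2 q.E) sg b := fun h3 h4 ↦
    (R2 (H.right r0 (H.eq ▸ h3.trans (G.vGe E hp h4)))).1 b0
  by_cases e0 : en = 0
  · simp only [e0, if_true, OfNat.zero_ne_ofNat, zero_ne_one, or_self, if_false] at *
    have := R2 (out o4)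
    exact ⟨(R1 (H.left l0 ((this.2 _ _ rfl hp).trans (G.vGe E hp o3)))).1 a0, this.1 b0⟩
  by_cases e1 : en = 1
  · simp only [e1, if_true, one_ne_zero, true_or, if_false] at *
    have := R1 (not_lt.1 fun h ↦ G.outside E o3 (JR_conn H.ha (zero_mem_JR _) h.le l0))
    exact ⟨this.1 a0, cap (this.2 _ _ rfl hp) o4⟩
  by_cases e3 : en = 3
  · simp only [e3, if_true, OfNat.ofNat_ne_zero, OfNat.ofNat_ne_one, Nat.reduceEqDiff, or_self,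
      if_false] at *
    refine ⟨?_, ?_⟩
    · rcases le_or_gt (q.l0 / 2 ^ 16 : ℝ) a with h | h
      exacts [(R1 h).1 a0, G.left2 E hm hI TO H h o3]
    · rcases lt_or_ge b (lastB q.r0 q.rb / 2 ^ 16 : ℝ) with h | h
      exacts [(R2 h).1 b0, G.right3 E hm hI TO H h o4]
  by_cases e2 : en = 2
  · simp only [e2, if_true, OfNat.ofNat_ne_zero, OfNat.ofNat_ne_one, Nat.reduceEqDiff, or_true,
      if_false] at *
    rcases le_or_gt (q.l0 / 2 ^ 16 : ℝ) a with h | h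
    · exact ⟨(R1 h).1 a0, cap ((R1 h).2 _ _ rfl hp) o4⟩
    · have := G.left1 E hm hI TO H h o3
      exact ⟨this.2, cap (this.1 _ rfl) o4⟩
  · simp only [e0, e1, e2, e3, or_self, if_false] at *
    refine ⟨?_, (R2 (out o4)).1 b0⟩
    rcases le_or_gt (q.l0 / 2 ^ 16 : ℝ) a with h | h
    exacts [(R1 h).1 a0, (G.left1 E hm hI TO H h o3).2]

omit hL hl in
theorem chkPieces : ∀ (ps : List Piece) {L : TM} {l : ℝ}, (Val P X.b.n L fun _ ↦ l) →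
    l ≤ vR p.D p.F b → chkPieces X e T sg en L ps = true → ∃ Ef, Ok p Ef sg a ∧ Ok p Ef sg b
  | [], _, _, _, _, ok => by simp [MP_d6150d_an.chkPieces] at ok
  | [q], _, _, hL, hl, ok => by
    rw [MP_d6150d_an.chkPieces, Bool.and_eq_true] at ok
    exact ⟨_, G.chkLast E hm hI TO H hL hl ok.1 ok.2⟩
  | q :: r :: ps, _, _, hL, hl, ok => by
    rw [MP_d6150d_an.chkPieces] at ok
    simp only [Bool.and_eq_true] at ok
    obtain ⟨⟨⟨⟨⟨o1, o2⟩, o3⟩, o4⟩, o5⟩, o6⟩ := ok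
    have hp := G.par q.lam
    rcases le_or_gt (parR x y q.lam) (vR p.D p.F b) with h | h
    · exact chkPieces _ hp h o6
    obtain ⟨l0, r0, h1, h2⟩ := G.chkLow E H hL hl o1
    exact ⟨_, (G.chkRange E hm hI (Or.inr rfl) o2 (H.left (int_neg l0).le
      (h.trans (G.vGe E hp o4))) h1).1 (by simpa using H.a0),
      (G.chkRange E hm hI (Or.inl rfl) o3 h2 (H.right (int_pos r0).le
        (h.trans (G.vGe E hp o5)))).1 (by simpa using H.b0)⟩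

end Cx.Good

theorem chkJ_ord {C : Cell} (h : chkJ C = true) (D F : ℝ) :
    0 ≤ C.ka ∧ (C.j = 1 ∨ C.j = 2 ∨ C.j = 3) ∧ (mkPar D F C.o1 C.o2 C.ka).Ord C.j := by
  simp only [chkJ, Bool.and_eq_true, Bool.or_eq_true, decide_eq_true_eq] at h
  refine ⟨h.1, by omega, ?_⟩
  rcases h.2 with (h | h) | h
  · exact Or.inl h
  · refine Or.inr (Or.inl ⟨h.1, ?_⟩)
    have := congrArg (Int.cast : ℤ → ℝ) h.2
    push_cast at this
    simp only [mkPar]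
    linear_combination opAR D F C.o1 * opAR D F C.o2 / 2 ^ 96 * this
  · refine Or.inr (Or.inr ⟨h.1.1.1, ?_⟩)
    simp only [mkPar, h.1.1.2, h.1.2, h.2]
    refine ⟨by simp, by push_cast; ring, by push_cast; ring⟩

/-- correctness of the three contexts -/
def cxOK (X Y Z : Cx) (s1 s2 s3 : ℕ) (S1 S2 S3 : List ℕ) : Bool :=
  X.ok (s1 :: S1) false && Y.ok (s2 :: S2) true && idx (s2 :: S2) Y.b.n Y.i4 [0, 0, 0, 1] &&
    okLow Y (s2 :: S2) s2 1 && Z.ok (s3 :: S3) false && okLow Z (s3 :: S3) s3 2 &&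
    okLow Z (s3 :: S3) s3 4 && okLow Z (s3 :: S3) s3 6 && okSlice Z (s3 :: S3) s3 1 &&
    okSlice Z (s3 :: S3) s3 3 && okSlice Z (s3 :: S3) s3 5

theorem chkCell_crit {X Y Z : Cx} {s1 s2 s3 : ℕ} {S1 S2 S3 : List ℕ}
    (h : cxOK X Y Z s1 s2 s3 S1 S2 S3 = true) {C : Cell} (ok : chkCell X Y Z C = true) {x y : ℝ}
    (hx : |x| ≤ 1) (hy : |y| ≤ 1) :
    Crit ((C.D0 + C.hD * y) / 2 ^ 48) ((C.F0 + C.hF * x) / 2 ^ 48) := by
  simp only [cxOK, Bool.and_eq_true] at h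
  obtain ⟨⟨⟨⟨⟨⟨⟨⟨⟨⟨h1, h2⟩, h3⟩, h4⟩, h5⟩, h6⟩, h7⟩, h8⟩, h9⟩, h10⟩, h11⟩ := h
  unfold chkCell at ok
  simp only [Bool.and_eq_true, decide_eq_true_eq] at ok
  obtain ⟨⟨⟨⟨⟨o1, o2⟩, o3⟩, o4⟩, o5⟩, o6⟩ := ok
  have z : (0 : ℝ) ∈ Set.Icc (0 : ℝ) 1 := by simp
  have TO := tailOK h2 h3 h4 hx hy C
  have G := Cx.good h1 0 hx hy z
  have E := G.mkEnv C.D0 C.hD C.F0 C.hF C.o1 C.o2 C.ka
  have GZ := Cx.good h5 (2 * C.j) hx hy z
  have EZ := GZ.mkEnv C.D0 C.hD C.F0 C.hF C.o1 C.o2 C.ka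
  obtain ⟨k0, j0, hO⟩ := chkJ_ord o1 ((C.D0 + C.hD * y) / 2 ^ 48) ((C.F0 + C.hF * x) / 2 ^ 48)
  obtain ⟨a1, a2, Ef, hc⟩ := GZ.chkCen EZ rfl (by simp [mkSt]) rfl rfl
    (by rcases j0 with h | h | h <;> rw [h]; exacts [h6, h7, h8]) (by omega)
    (fun i hi ↦ by
      obtain rfl | rfl | rfl : i = 0 ∨ i = 1 ∨ i = 2 := by omega
      exacts [h9, h10, h11]) hO o2 o3
  have e1 : (mkTx Y C).e.z1 = (mkEnv X C.D0 C.hD C.F0 C.hF C.o1 C.o2 C.ka).z1 := rfl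
  have e2 : (mkTx Y C).e.z2 = (mkEnv X C.D0 C.hD C.F0 C.hF C.o1 C.o2 C.ka).z2 := rfl
  rw [e1, e2] at TO
  have ka : 0 ≤ (mkPar ((C.D0 + C.hD * y) / 2 ^ 48) ((C.F0 + C.hF * x) / 2 ^ 48)
      C.o1 C.o2 C.ka).ka := mul_nonneg (by positivity) (mul_pos a1 a2).le
  have eD : (mkPar ((C.D0 + C.hD * y) / 2 ^ 48) ((C.F0 + C.hF * x) / 2 ^ 48)
      C.o1 C.o2 C.ka).D = (C.D0 + C.hD * y) / 2 ^ 48 := rfl
  have eF : (mkPar ((C.D0 + C.hD * y) / 2 ^ 48) ((C.F0 + C.hF * x) / 2 ^ 48)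
      C.o1 C.o2 C.ka).F = (C.F0 + C.hF * x) / 2 ^ 48 := rfl
  generalize mkPar _ _ _ _ _ = p at *
  rw [← eD, ← eF]
  generalize mkEnv X _ _ _ _ _ _ _ = e at *
  refine ⟨p.a1, p.b1, p.c1, p.a2, p.b2, p.c2, p.ka, C.sg, ka, fun a ha b hb a0 b0 hv ↦ ?_⟩
  have H : Pair p a b := ⟨ha, hb, a0, b0, hv⟩
  have hp := G.par C.lam0
  obtain ⟨Ef, k1, k2⟩ : ∃ Ef, Ok p Ef C.sg a ∧ Ok p Ef C.sg b := by
    rcases le_or_gt (parR x y C.lam0) (vR p.D p.F b) with h | h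
    · exact G.chkPieces E rfl (by simp [mkSt]) TO H _ hp h o6
    have c0 := int_pos o2
    have c1 := H.right c0.le (h.trans (G.vGe E hp o4))
    have c2 := H.left (int_neg (neg_neg_of_pos o2)).le (h.trans (G.vGe E hp o5))
    push_cast at c2
    exact ⟨Ef, hc a (abs_le.2 ⟨by linarith, by linarith⟩), hc b (abs_le.2 ⟨by linarith, c1.le⟩)⟩
  obtain ⟨k3, k4⟩ := k1 ha a0.ne
  have k5 := (mul_pos_iff_of_pos_left b0).1 (k2 hb b0.ne').1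
  have k6 := neg_of_mul_pos_right k3 a0.le
  rw [hv] at k4 k6
  refine ⟨(k4 a0).1, (k4 a0).2, ?_⟩
  show C.sg * p.N a < C.sg * p.N b
  linarith

end Pool.Agent.Lib.MP_d6150d_an
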