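import Pool.Agent.Lib.MP_d6150d_an.KNJ
import Pool.Agent.Lib.MP_d6150d_an.GMac

/-! The strip near `F = 4 / 3`, small `D`: the coefficient of the separator. -/

namespace Pool.Agent.Lib.MP_d6150d_an

noncomputable def mTA (D F : ℝ) : ℝ :=
  (((Int.cast (1) : ℝ) / (Nat.cast 135 : ℝ)) * (((((((Int.cast (-320) : ℝ) * D) + (((Int.cast (-480)
    : ℝ) * F) + (Int.cast (-60) : ℝ))) * D) + (((((Int.cast (-312) : ℝ) * F) + (Int.cast (102) : ℝ))
    * F) + (Int.cast (-6) : ℝ))) * D) + (((((((Int.cast (-103) : ℝ) * F) + (Int.cast (156) : ℝ)) *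
    F) + (Int.cast (-57) : ℝ)) * F) + (Int.cast (4) : ℝ))))

theorem mTA_0 (D F : ℝ) : 8 * ja4 D F = (mTA D F) := by
  simp only [mTA, ja4]; push_cast; ring

end Pool.Agent.Lib.MP_d6150d_an
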