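import Pool.Agent.Lib.MP_d6150d_an.GDef

/-! A generated chart: the program. -/

namespace Pool.Agent.Lib.MP_d6150d_an.T10aM

def prog2 : List Ins := .add true 1 0 :: .mul 0 99 :: .int (-57) :: .add true 1 0 :: .mul 0 102 ::
    .add false 0 104 :: .add true 8 0 :: .mul 23 0 :: .mul 0 68 :: .sub false 26 0 :: .mul 70 0 ::
    .add false 30 0 :: .cpy 0 :: []

def prog1 : List Ins := .mul 35 7 :: .add true 1 0 :: .sub true 42 50 :: .mul 0 1 :: .smul 2 6 ::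
    .sub true 0 6 :: .sub true 2 0 :: .mul 53 0 :: .mul 5 2 :: .smul 4 11 :: .sub false 0 11 :: .sub
    false 2 0 :: .add true 4 0 :: .mul 11 0 :: .mul 8 7 :: .smul 3 0 :: .sub true 2 0 :: .mul 20 0
    :: .mul 33 33 :: .smul 3 0 :: .add true 2 0 :: .mul 58 0 :: .smul 6 37 :: .sub true 65 38 ::
    .mul 1 0 :: .sub true 67 0 :: .mul 0 32 :: .mul 0 20 :: .add true 6 0 :: .smul (-1) 0 :: .mul 35
    0 :: .rsq 41 :: .smul 2 0 :: .cst 1 135 :: .smul (-320) 69 :: .smul (-480) 83 :: .int (-60) ::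
    .add false 1 0 :: .add false 3 0 :: .mul 0 74 :: .smul (-312) 88 :: .int 102 :: .add true 1 0 ::
    .mul 0 91 :: .int (-6) :: .add false 1 0 :: .add true 6 0 :: .mul 0 82 :: .smul (-103) 96 ::
    .int 156 :: prog2

def prog : List Ins := .int 4 :: .var 1 :: .smul 3 0 :: .sub true 2 0 :: .var 2 :: .mul 1 0 :: .exp
    0 :: .int 1 :: .smul 2 6 :: .int 2 :: .sub true 1 0 :: .mul 0 6 :: .exp 0 :: .sub true 11 5 ::
    .var 0 :: .sub false 1 0 :: .inv 0 :: .mul 8 3 :: .smul 2 3 :: .add true 11 0 :: .exp 15 :: .mul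
    1 0 :: .mul 4 0 :: .sub true 14 15 :: .add true 16 9 :: .mul 4 4 :: .mul 1 0 :: .mul 13 0 ::
    .mul 26 13 :: .add true 1 0 :: .mul 6 0 :: .sub false 8 0 :: .mul 15 0 :: .mul 20 0 :: .sub true
    26 0 :: .mul 33 11 :: .mul 0 22 :: .mul 0 20 :: .inv 0 :: .mul 4 0 :: .sub false 18 13 :: .sub
    true 0 26 :: .inv 0 :: .mul 3 0 :: .mul 37 0 :: .mul 12 1 :: .mul 0 0 :: .mul 20 4 :: .mul 26 5
    :: .sub false 1 0 :: prog1

def vs : List Vr := [⟨3, 0, false, false⟩, ⟨3, 0, false, false⟩, ⟨6, 0, false, false⟩]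

def C : Chart := ⟨vs, prog, [], 1, 3⟩

end Pool.Agent.Lib.MP_d6150d_an.T10aM
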