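import Pool.Agent.Lib.MP_d6150d_an.GDef

/-! A generated chart: the program. -/

namespace Pool.Agent.Lib.MP_d6150d_an.T10aR

def prog2 : List Ins := .mul 24 29 :: .mul 89 0 :: .mul 0 22 :: .add true 3 0 :: .smul 3 111 :: .sub
    true 57 0 :: .sub true 91 113 :: .mul 0 3 :: .smul 2 13 :: .sub true 0 10 :: .sub true 2 0 ::
    .mul 5 0 :: .mul 5 2 :: .smul 4 18 :: .sub false 0 15 :: .sub false 2 0 :: .add true 4 0 :: .mul
    13 0 :: .mul 8 7 :: .smul 3 0 :: .sub true 2 0 :: .mul 28 0 :: .smul 24 33 :: .mul 0 33 :: .sub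
    true 76 0 :: .mul 0 14 :: .mul 122 122 :: .mul 1 0 :: .add true 6 0 :: .mul 48 0 :: .mul 41 41
    :: .smul 6 0 :: .mul 5 5 :: .mul 1 0 :: .add true 4 0 :: .mul 54 0 :: .sub false 76 0 :: .cpy 0
    :: []

def prog1 : List Ins := .add false 1 0 :: .add true 9 0 :: .mul 24 0 :: .mul 57 57 :: .mul 0 58 ::
    .mul 2 0 :: .mul 0 29 :: .rsq 30 :: .smul 2 0 :: .add false 2 0 :: .mul 33 0 :: .mul 62 0 ::
    .cst 1 2 :: .mul 36 64 :: .mul 0 65 :: .mul 2 69 :: .tri 0 :: .mul 4 2 :: .mul 7 0 :: .smul (-1)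
    5 :: .exp 0 :: .add false 67 0 :: .mul 6 0 :: .mul 12 0 :: .add true 70 62 :: .mul 4 4 :: .mul
    64 0 :: .sub false 2 0 :: .mul 4 0 :: .inv 0 :: .mul 11 0 :: .mul 88 76 :: .sub true 89 78 ::
    .mul 1 0 :: .sub false 1 72 :: .inv 0 :: .mul 2 0 :: .mul 35 62 :: .mul 1 0 :: .sub true 85 0 ::
    .mul 0 0 :: .smul 8 0 :: .mul 0 11 :: .mul 18 28 :: .mul 0 14 :: .smul 2 83 :: .add true 92 0 ::
    .mul 0 26 :: .mul 0 18 :: .sub false 4 0 :: prog2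

def prog : List Ins := .var 1 :: .var 2 :: .mul 1 0 :: .smul (-1) 0 :: .exp 0 :: .smul 2 4 :: .mul 0
    4 :: .tri 0 :: .mul 4 0 :: .int 1 :: .sub true 6 0 :: .mul 0 11 :: .tri 0 :: .mul 4 0 :: .sub
    false 7 0 :: .var 0 :: .smul 2 2 :: .sub false 10 0 :: .int 2 :: .sub true 17 0 :: .mul 0 22 ::
    .tri 0 :: .mul 4 0 :: .add true 7 0 :: .mul 10 0 :: .add true 12 0 :: .smul 2 0 :: .cst 1 135 ::
    .smul (-320) 14 :: .smul (-480) 34 :: .int (-60) :: .add false 1 0 :: .add false 3 0 :: .mul 0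
    19 :: .smul (-312) 39 :: .int 102 :: .add true 1 0 :: .mul 0 42 :: .int (-6) :: .add false 1 0
    :: .add true 6 0 :: .mul 0 27 :: .smul (-103) 47 :: .int 156 :: .add true 1 0 :: .mul 0 50 ::
    .int (-57) :: .add true 1 0 :: .mul 0 53 :: .int 4 :: prog1

def vs : List Vr := [⟨3, 0, false, false⟩, ⟨3, 0, false, false⟩, ⟨8, 4, false, false⟩]

def C : Chart := ⟨vs, prog, [], 1, 3⟩

end Pool.Agent.Lib.MP_d6150d_an.T10aR
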