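import Pool.Agent.Lib.MP_d6150d_an.GDef

/-! A generated chart: the program. -/

namespace Pool.Agent.Lib.MP_d6150d_an.T10aT

def prog2 : List Ins := .mul 23 0 :: .mul 0 70 :: .sub false 26 0 :: .mul 72 0 :: .cpy 0 :: .cpy 31
    :: []

def prog1 : List Ins := .sub true 2 0 :: .mul 6 0 :: .mul 5 2 :: .smul 4 15 :: .sub false 0 15 ::
    .sub false 2 0 :: .add true 4 0 :: .mul 15 0 :: .mul 8 7 :: .smul 3 0 :: .sub true 2 0 :: .mul
    24 0 :: .mul 36 36 :: .smul 3 0 :: .add true 2 0 :: .mul 64 0 :: .smul 6 40 :: .sub true 64 41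
    :: .mul 1 0 :: .sub true 66 0 :: .mul 0 35 :: .mul 0 20 :: .add false 6 0 :: .smul (-1) 0 ::
    .rsq 43 :: .smul 2 0 :: .cst 1 135 :: .smul (-320) 72 :: .smul (-480) 76 :: .int (-60) :: .add
    false 1 0 :: .add false 3 0 :: .mul 0 77 :: .smul (-312) 81 :: .int 102 :: .add true 1 0 :: .mul
    0 84 :: .int (-6) :: .add false 1 0 :: .add true 6 0 :: .mul 0 85 :: .smul (-103) 89 :: .int 156
    :: .add true 1 0 :: .mul 0 92 :: .int (-57) :: .add true 1 0 :: .mul 0 95 :: .add false 0 55 ::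
    .add true 8 0 :: prog2

def prog : List Ins := .var 3 :: .var 1 :: .int 1 :: .sub true 1 0 :: .var 0 :: .sub false 1 0 ::
    .inv 0 :: .smul 2 5 :: .mul 0 4 :: .smul 2 4 :: .add true 7 0 :: .var 2 :: .mul 1 0 :: .mul 4 0
    :: .sub true 6 11 :: .add true 12 10 :: .mul 4 4 :: .mul 1 0 :: .mul 14 0 :: .mul 17 14 :: .add
    false 1 0 :: .mul 6 0 :: .sub false 8 0 :: .mul 16 0 :: .mul 23 0 :: .sub false 22 0 :: .mul 24
    11 :: .mul 0 23 :: .mul 0 21 :: .inv 0 :: .mul 4 0 :: .sub false 18 13 :: .sub false 0 27 ::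
    .inv 0 :: .mul 3 0 :: .mul 11 0 :: .mul 0 0 :: .mul 19 3 :: .mul 25 4 :: .sub false 1 0 :: .mul
    35 6 :: .add false 1 0 :: .int 4 :: .smul 3 41 :: .sub true 1 0 :: .int 2 :: .sub true 0 44 ::
    .mul 0 5 :: .smul 2 10 :: .sub false 0 10 :: prog1

def vs : List Vr := [⟨2, 0, false, false⟩, ⟨2, 0, false, false⟩, ⟨2, 0, false, false⟩, ⟨3, 0, false,
    false⟩]

def C : Chart := ⟨vs, prog, [], 2, 3⟩

end Pool.Agent.Lib.MP_d6150d_an.T10aT
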