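import Pool.Agent.Lib.MP_d6150d_an.GDef

/-! A generated chart: the program. -/

namespace Pool.Agent.Lib.MP_d6150d_an.T10aW

def prog : List Ins := .var 1 :: .smul 2 0 :: .int 1 :: .sub true 1 0 :: .mul 3 0 :: .sub true 4 2
    :: .mul 1 0 :: .var 0 :: .sub false 2 0 :: .inv 0 :: .mul 3 0 :: .cst 5 8 :: .mul 0 0 :: .mul 11
    1 :: .tri 0 :: .mul 15 0 :: .mul 14 6 :: .tri 0 :: .mul 18 0 :: .sub false 5 0 :: .smul 2 1 ::
    .sub false 7 0 :: .int 2 :: .sub true 25 0 :: .mul 0 16 :: .tri 0 :: .mul 4 0 :: .add true 7 0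
    :: .mul 26 0 :: .add true 11 0 :: .smul 2 0 :: .mul 24 0 :: .mul 27 0 :: .sub false 0 36 :: .cpy
    0 :: []

def vs : List Vr := [⟨3, 0, false, false⟩, ⟨3, 0, false, false⟩]

def C : Chart := ⟨vs, prog, [], 1, 3⟩

end Pool.Agent.Lib.MP_d6150d_an.T10aW
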