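import Pool.Agent.Lib.MP_d6150d_an.Nm

/-! Soundness of the packed Taylor model arithmetic. -/

namespace Pool.Agent.Lib.MP_d6150d_an

open Finset

/-- the setting: strides, flags, values of all the variables but the first, range of the first
variable and order of the graded bound -/
structure St where
  Ss : List ℕ
  fl : List Bool
  xs : List ℝ
  I : Set ℝ
  m : ℕ
  hS : Ss ≠ []
  hI : ∀ τ ∈ I, |τ| ≤ 1
  h0 : (0 : ℝ) ∈ I
  hx : ∀ x ∈ xs, |x| ≤ 1
  hf : ∀ τ ∈ I, Flag fl (τ :: xs)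

/-- the monomials as functions of the first variable -/
def St.mo (P : St) (k : ℕ) (τ : ℝ) : ℝ := MP_d6150d_an.mo P.Ss (τ :: P.xs) k

theorem St.mo_nm (P : St) (k : ℕ) : Nm P.I P.m (P.mo k) 1 := by
  obtain ⟨S, Ss, h⟩ := List.exists_cons_of_ne_nil P.hS
  have := Nm.taupow P.hI (MP_d6150d_an.mo Ss P.xs (k / S)) (m := P.m) (k % S)
  exact (this.mono (mo_abs _ _ _ P.hx)).congr fun τ _ ↦ by simp [St.mo, h, MP_d6150d_an.mo]

theorem St.mo_zero (P : St) (τ : ℝ) : P.mo 0 τ = 1 := MP_d6150d_an.mo_zero _ _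

/-- packed signed coefficients -/
def pk (c : ℕ → ℤ) : ℤ := ∑ k ∈ range N0, c k * 2 ^ (224 * k)

/-- the polynomial with given coefficients -/
noncomputable def St.ev (P : St) (c : ℕ → ℤ) (τ : ℝ) : ℝ := ∑ k ∈ range N0, c k * P.mo k τ

/-- sum of the absolute values -/
def l1 (c : ℕ → ℤ) : ℤ := ∑ k ∈ range N0, |c k|

theorem l1_nonneg (c : ℕ → ℤ) : 0 ≤ l1 c := sum_nonneg fun _ _ ↦ abs_nonneg _

theorem St.ev_nm (P : St) (c : ℕ → ℤ) : Nm P.I P.m (P.ev c) (l1 c) := by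
  have := Nm.sum (I := P.I) (range N0) (m := P.m) (f := fun k τ ↦ (c k : ℝ) * P.mo k τ)
    (A := fun k ↦ |(c k : ℝ)| * 1) fun k _ ↦ (P.mo_nm k).smul _
  refine this.mono (le_of_eq ?_)
  simp [l1]

/-- the model `a` has coefficients `c` -/
structure Rep (P : St) (n : ℕ) (a : TM) (c : ℕ → ℤ) : Prop where
  supp : ∀ k, c k ≠ 0 → k < n ∧ keep P.Ss k = true
  x : a.x = pk c
  l : l1 c ≤ a.l

/-- the model `a` encloses the function `f` -/
def Val (P : St) (n : ℕ) (a : TM) (f : ℝ → ℝ) : Prop :=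
  ∃ c, Rep P n a c ∧ Nm P.I P.m (fun τ ↦ 2 ^ 64 * f τ - P.ev c τ) a.r

/-- correctness of the masks -/
def Ctx.ok (c : Ctx) (Ss : List ℕ) (fl : List Bool) : Bool :=
  decide (2 * c.n ≤ 16384) && decide (0 < c.n) && keep Ss 0 &&
    decide (c = mkCtx c.n (msk (fun _ ↦ true) (2 * c.n)) (msk (keep Ss) c.n)
      (msk (fun k ↦ keep Ss k && evn Ss fl k) c.n))

/-- indicator -/
def ind (p : Prop) [Decidable p] : ℕ := if p then 1 else 0

structure Ctx.Good (c : Ctx) (P : St) : Prop where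
  n2 : 2 * c.n ≤ N0
  npos : 0 < c.n
  k0 : keep P.Ss 0 = true
  kp : c.kp = dg (fun k ↦ ind (k < c.n ∧ keep P.Ss k = true)) N0
  top : c.top = dg (fun k ↦ ind (k < 2 * c.n) * 2 ^ 223) N0
  topm : c.topm = dg (fun k ↦ ind (k < 2 * c.n) * (2 ^ 223 - 1)) N0
  drop : c.drop = dg (fun k ↦ ind (k < 2 * c.n ∧ ¬(k < c.n ∧ keep P.Ss k = true)) *
    (2 ^ 224 - 1)) N0
  keepHi : c.keepHi = dg (fun k ↦ ind (k < c.n ∧ keep P.Ss k = true) * (2 ^ 224 - 2 ^ 64)) N0
  biasK : c.biasK = dg (fun k ↦ ind (k < c.n ∧ keep P.Ss k = true) * 2 ^ 159) N0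
  ev : c.ev = dg (fun k ↦ ind (k < c.n ∧ keep P.Ss k = true ∧ evn P.Ss P.fl k = true)) N0
  od : c.od = dg (fun k ↦ ind (k < c.n ∧ keep P.Ss k = true ∧ ¬evn P.Ss P.fl k = true)) N0

theorem Ctx.good {c : Ctx} {P : St} (h : c.ok P.Ss P.fl = true) : c.Good P := by
  simp only [Ctx.ok, Bool.and_eq_true, decide_eq_true_eq] at h
  obtain ⟨⟨⟨h1, h2⟩, h3⟩, h4⟩ := h
  have e1 : msk (fun _ ↦ true) (2 * c.n) = dg (fun k ↦ ind (k < 2 * c.n)) N0 := by
    rw [msk_eq]; exact dg_congr fun k _ ↦ by simp [ind]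
  have e2 : msk (keep P.Ss) c.n = dg (fun k ↦ ind (k < c.n ∧ keep P.Ss k = true)) N0 :=
    msk_eq _ _
  have e3 : msk (fun k ↦ keep P.Ss k && evn P.Ss P.fl k) c.n =
      dg (fun k ↦ ind (k < c.n ∧ keep P.Ss k = true ∧ evn P.Ss P.fl k = true)) N0 := by
    rw [msk_eq]; exact dg_congr fun k _ ↦ by simp [ind]
  rw [e1, e2, e3] at h4
  refine ⟨N0_eq ▸ h1, h2, h3, congrArg Ctx.kp h4, (congrArg Ctx.top h4).trans (dg_mul _ _ _),
    (congrArg Ctx.topm h4).trans (dg_mul _ _ _), (congrArg Ctx.drop h4).trans ?_,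
    (congrArg Ctx.keepHi h4).trans (dg_mul _ _ _), (congrArg Ctx.biasK h4).trans (dg_mul _ _ _),
    congrArg Ctx.ev h4, (congrArg Ctx.od h4).trans ?_⟩
  · show (_ - _) * _ = _
    rw [dg_sub, dg_mul]
    · refine dg_congr fun k _ ↦ congrArg (· * _) ?_
      by_cases a : k < c.n <;> by_cases b : keep P.Ss k = true <;> by_cases d : k < 2 * c.n <;>
        simp [ind, a, b, d]
    · intro k
      by_cases a : k < c.n <;> by_cases b : keep P.Ss k = true <;> by_cases d : k < 2 * c.n <;>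
        simp [ind, a, b, d]
      omega
  · show _ - _ = _
    rw [dg_sub]
    · refine dg_congr fun k _ ↦ ?_
      by_cases a : k < c.n <;> by_cases b : keep P.Ss k = true <;>
        by_cases d : evn P.Ss P.fl k = true <;> simp [ind, a, b, d]
    · intro k
      by_cases a : k < c.n <;> by_cases b : keep P.Ss k = true <;>
        by_cases d : evn P.Ss P.fl k = true <;> simp [ind, a, b, d]

theorem dg_cast (d : ℕ → ℕ) : (dg d N0 : ℤ) = pk fun k ↦ d k := by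
  simp [dg, pk]

theorem pk_add (c d : ℕ → ℤ) : pk c + pk d = pk fun k ↦ c k + d k := by
  simp only [pk, ← sum_add_distrib]; exact sum_congr rfl fun k _ ↦ (add_mul _ _ _).symm

theorem pk_sub (c d : ℕ → ℤ) : pk c - pk d = pk fun k ↦ c k - d k := by
  simp only [pk, ← sum_sub_distrib]; exact sum_congr rfl fun k _ ↦ (sub_mul _ _ _).symm

theorem abs_le_l1 {c : ℕ → ℤ} {n : ℕ} (hn : n ≤ N0) (hs : ∀ k, c k ≠ 0 → k < n) (k : ℕ) :
    |c k| ≤ l1 c := by
  by_cases h : c k = 0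
  · rw [h]; exact l1_nonneg c
  · exact single_le_sum (f := fun k ↦ |c k|) (fun _ _ ↦ abs_nonneg _)
      (mem_range.2 ((hs k h).trans_le hn))

namespace TM

theorem isub_eq (a b : ℕ) : isub a b = a - b := by
  unfold isub
  cases h : Nat.sub b a with
  | zero => have : b - a = 0 := h; show ((a - b : ℕ) : ℤ) = _; omega
  | succ k => have : b - a = k + 1 := h; show Int.negSucc k = _; omega

theorem iadd_eq (x y : ℤ) : iadd x y = x + y := by
  cases x <;> cases y <;> simp only [iadd, isub_eq, Nat.add_eq, Int.ofNat_eq_natCast] <;> omega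

theorem idif_eq (x y : ℤ) : idif x y = x - y := by
  cases x <;> cases y <;> simp only [idif, isub_eq, Nat.add_eq, Int.ofNat_eq_natCast] <;> omega

theorem badd_eq (x : ℤ) (t : ℕ) : badd x t = (x + t).toNat := by
  cases x <;> simp only [badd, Nat.add_eq, Nat.sub_eq, Int.ofNat_eq_natCast] <;> omega

theorem bmul_eq (x y : ℤ) (t : ℕ) : bmul x y t = (x * y + t).toNat := by
  cases x <;> cases y <;>
    simp only [bmul, Nat.add_eq, Nat.sub_eq, Nat.mul_eq, Int.ofNat_eq_natCast, Int.negSucc_eq,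
      mul_neg, neg_mul, neg_neg, ← Nat.cast_add_one, ← Nat.cast_mul] <;> omega

theorem add_eq (a b : TM) : add a b = ⟨a.x + b.x, a.r + b.r, a.l + b.l⟩ := by
  rw [add, iadd_eq]; rfl

theorem sub_eq (a b : TM) : sub a b = ⟨a.x - b.x, a.r + b.r, a.l + b.l⟩ := by
  rw [sub, idif_eq]; rfl

theorem smul_eq (n : ℤ) (a : TM) : smul n a = ⟨n * a.x, n.natAbs * a.r, n.natAbs * a.l⟩ := rfl

theorem absv_def (c : Ctx) (z : ℕ) : absv c z = z ^^^ (c.topm + ((z &&& c.top) >>> 223)) := rfl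

theorem ble_cases {α : Type} (a : ℕ) (x y : α) : (Bool.casesOn (motive := fun _ ↦ α) (Nat.ble a
    13479973333575319897333507543509815336818572211270286240551805124607) x y : α) =
    if a < 2 ^ 223 then y else x := by
  cases h : Nat.ble a 13479973333575319897333507543509815336818572211270286240551805124607
  · rw [if_neg]; have := Nat.not_le_of_not_ble_eq_true (h ▸ Bool.false_ne_true); omega
  · rw [if_pos]; have := Nat.le_of_ble_eq_true h; omega

theorem tight_eq (c : Ctx) (a : TM) : tight c a = if a.l < 2 ^ 223 then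
    ⟨a.x, a.r, absv c (a.x + c.top).toNat % (2 ^ 224 - 1) + 2 * c.n⟩ else a := by
  rw [tight, ble_cases, badd_eq]; rfl

end TM

/-- biased digits -/
def bd (n : ℕ) (e : ℕ → ℤ) (k : ℕ) : ℕ := if k < 2 * n then (e k + 2 ^ 223).toNat else 0

/-- approximate absolute values -/
def ad (n : ℕ) (e : ℕ → ℤ) (k : ℕ) : ℕ :=
  if k < 2 * n then (if 0 ≤ e k then e k else -e k - 1).toNat else 0

section digits

variable {c : Ctx} {P : St} (G : c.Good P) {e : ℕ → ℤ} (hs : ∀ k, e k ≠ 0 → k < 2 * c.n)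
  (hl : l1 e < 2 ^ 223)
include G hs hl

theorem e_lt (k : ℕ) : |e k| < 2 ^ 223 := (abs_le_l1 G.n2 hs k).trans_lt hl

theorem bd_lt (k : ℕ) : bd c.n e k < 2 ^ 224 := by
  have := abs_lt.1 (e_lt G hs hl k)
  unfold bd; split_ifs <;> omega

theorem bias_eq : (pk e + c.top).toNat = dg (bd c.n e) N0 := by
  rw [G.top, dg_cast, pk_add, ← Int.toNat_natCast (dg (bd c.n e) N0), dg_cast]
  refine congrArg Int.toNat (congrArg pk (funext fun k ↦ ?_))
  have := abs_lt.1 (e_lt G hs hl k)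
  have h0 := hs k
  unfold bd ind; split_ifs <;> omega

omit G hs hl in
theorem xor_aux {d : ℕ} (hd : d < 2 ^ 224) :
    d ^^^ (2 ^ 223 - 1 + (d &&& 2 ^ 223) / 2 ^ 223) =
      if 2 ^ 223 ≤ d then d - 2 ^ 223 else 2 ^ 223 - 1 - d := by
  split_ifs with h
  · have h1 : d.testBit 223 = true := by
      rw [Nat.testBit_eq_decide_div_mod_eq]; simp; omega
    rw [Nat.and_two_pow, h1]
    obtain ⟨r, rfl⟩ : ∃ r, d = 2 ^ 223 * 1 + r := ⟨d - 2 ^ 223, by omega⟩
    have hr : r < 2 ^ 223 := by omega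
    have e1 : 2 ^ 223 - 1 + true.toNat * 2 ^ 223 / 2 ^ 223 = 2 ^ 223 := by norm_num
    rw [e1, mul_one, Nat.add_sub_cancel_left]
    apply Nat.eq_of_testBit_eq
    intro i
    have := Nat.testBit_two_pow_mul_add 1 hr i
    rw [mul_one] at this
    rw [Nat.testBit_xor, this, Nat.testBit_two_pow]
    split_ifs with hi
    · simp [show 223 ≠ i by omega]
    · rw [Nat.testBit_lt_two_pow (hr.trans_le (Nat.pow_le_pow_right (by norm_num) (by omega)))]
      by_cases h2 : 223 = i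
      · subst h2; simp
      · have h3 : i - 223 ≠ 0 := by clear * - hi h2; omega
        rw [Nat.testBit_lt_two_pow (Nat.one_lt_two_pow h3), decide_eq_false h2]; rfl
  · have hr : d < 2 ^ 223 := by omega
    rw [Nat.and_two_pow, Nat.testBit_lt_two_pow hr]
    have e1 : 2 ^ 223 - 1 + false.toNat * 2 ^ 223 / 2 ^ 223 = 2 ^ 223 - 1 := by norm_num
    rw [e1, Nat.sub_sub, Nat.add_comm 1 d]
    apply Nat.eq_of_testBit_eq
    intro i
    rw [Nat.testBit_xor, Nat.testBit_two_pow_sub_one, Nat.testBit_two_pow_sub_succ hr]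
    by_cases hi : i < 223
    · simp [hi]
    · simp [hi, Nat.testBit_lt_two_pow (hr.trans_le (Nat.pow_le_pow_right (by norm_num)
        (show 223 ≤ i by omega)))]

theorem absv_eq : TM.absv c (dg (bd c.n e) N0) = dg (ad c.n e) N0 := by
  have hb := bd_lt G hs hl
  have h1 : ∀ k, ind (k < 2 * c.n) * 2 ^ 223 < 2 ^ 224 := fun k ↦ by
    unfold ind; split_ifs <;> norm_num
  have h2 : ∀ k, (bd c.n e k &&& ind (k < 2 * c.n) * 2 ^ 223) ≤ 2 ^ 223 := fun k ↦
    Nat.and_le_right.trans (by unfold ind; split_ifs <;> norm_num)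
  rw [TM.absv_def, G.top, G.topm, dg_and _ hb h1, dg_shift, dg_add, dg_xor _ hb]
  · refine dg_congr fun k _ ↦ ?_
    have := abs_lt.1 (e_lt G hs hl k)
    by_cases hk : k < 2 * c.n
    · simp only [ind, hk, if_true, one_mul]
      rw [xor_aux (hb k)]
      unfold bd ad; simp only [hk, if_true]; split_ifs <;> omega
    · simp [ind, hk, bd, ad]
  · intro k
    have h3 : (bd c.n e k &&& ind (k < 2 * c.n) * 2 ^ 223) / 2 ^ 223 ≤ 1 :=
      Nat.div_le_of_le_mul (by simpa using h2 k)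
    have h4 : ind (k < 2 * c.n) * (2 ^ 223 - 1) ≤ 2 ^ 223 - 1 := by
      unfold ind; split_ifs <;> norm_num
    omega
  · intro k
    unfold ind; split_ifs
    · rw [one_mul, Nat.and_two_pow]; exact Dvd.intro_left _ rfl
    · simp

omit G hs hl in
theorem ad_le (k : ℕ) : (ad c.n e k : ℤ) ≤ |e k| := by
  have := abs_nonneg (e k)
  have h1 := le_abs_self (e k)
  have h2 := neg_abs_le (e k)
  unfold ad; split_ifs <;> omega

omit G hl in
theorem le_ad (k : ℕ) : |e k| ≤ ad c.n e k + ind (k < 2 * c.n) := by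
  have h0 := hs k
  unfold ad ind
  rcases abs_cases (e k) with h | h <;> split_ifs <;> omega

omit hs hl in
theorem sum_ind {n : ℕ} (hn : n ≤ 2 * c.n) : ∑ k ∈ range N0, (ind (k < n) : ℤ) = n := by
  have := G.n2
  rw [← sum_filter_add_sum_filter_not (range N0) (· < n)]
  have e1 : (range N0).filter (· < n) = range n := by ext k; simp; omega
  have e2 : ∑ k ∈ range n, (ind (k < n) : ℤ) = n := by
    rw [sum_congr rfl (g := fun _ ↦ (1 : ℤ)) fun k hk ↦ by simp [ind, mem_range.1 hk]]; simp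
  rw [e1, e2, sum_eq_zero fun k hk ↦ by simp [ind, (mem_filter.1 hk).2], add_zero]

omit G hs in
theorem ad_sum : ∑ k ∈ range N0, ad c.n e k < 2 ^ 224 - 1 := by
  have : ((∑ k ∈ range N0, ad c.n e k : ℕ) : ℤ) ≤ l1 e := by
    push_cast; exact sum_le_sum fun k _ ↦ ad_le k
  omega

omit hl in
theorem l1_le_ad : l1 e ≤ (∑ k ∈ range N0, ad c.n e k : ℕ) + 2 * c.n := by
  have := sum_le_sum (s := range N0) fun k _ ↦ le_ad hs k
  rw [sum_add_distrib, sum_ind G le_rfl] at this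
  push_cast at this ⊢
  exact this

end digits

/-- convolution -/
def conv (n : ℕ) (a b : ℕ → ℤ) (k : ℕ) : ℤ :=
  ∑ p ∈ (range n ×ˢ range n).filter (fun p ↦ p.1 + p.2 = k), a p.1 * b p.2

theorem sum_supp {R : Type*} [AddCommMonoid R] {n : ℕ} (hn : n ≤ N0) {f : ℕ → R}
    (h : ∀ k, n ≤ k → f k = 0) : ∑ k ∈ range N0, f k = ∑ k ∈ range n, f k :=
  (sum_subset (range_subset_range.2 hn) fun k _ hk ↦ h k (by simpa using hk)).symm

theorem conv_sum {R : Type*} [CommRing R] {n : ℕ} (hn : 2 * n ≤ N0) {a b : ℕ → ℤ} (φ : ℕ → R)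
    (ha : ∀ k, a k ≠ 0 → k < n) (hb : ∀ k, b k ≠ 0 → k < n)
    (hφ : ∀ i j, a i ≠ 0 → b j ≠ 0 → φ (i + j) = φ i * φ j) :
    (∑ k ∈ range N0, a k * φ k) * (∑ k ∈ range N0, b k * φ k) =
      ∑ k ∈ range N0, conv n a b k * φ k := by
  have z : ∀ {a : ℕ → ℤ}, (∀ k, a k ≠ 0 → k < n) → ∀ k, n ≤ k → (a k : R) * φ k = 0 :=
    fun {a} ha k hk ↦ by
      by_cases h : a k = 0
      · simp [h]
      · exact absurd (ha k h) (by omega)
  rw [sum_supp (by omega) (z ha), sum_supp (by omega) (z hb), sum_mul_sum, ← sum_product',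
    ← sum_fiberwise_of_maps_to (t := range N0) (g := fun p : ℕ × ℕ ↦ p.1 + p.2)]
  · refine sum_congr rfl fun k _ ↦ ?_
    rw [conv, Int.cast_sum, sum_mul]
    refine sum_congr rfl fun p hp ↦ ?_
    rw [← (mem_filter.1 hp).2]
    by_cases h1 : a p.1 = 0
    · simp [h1]
    by_cases h2 : b p.2 = 0
    · simp [h2]
    rw [hφ _ _ h1 h2]; push_cast; ring
  · intro p hp
    simp only [mem_product, mem_range] at hp ⊢
    omega

theorem conv_supp {n : ℕ} {a b : ℕ → ℤ} (k : ℕ) (h : conv n a b k ≠ 0) : k < 2 * n := by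
  obtain ⟨p, hp, -⟩ := exists_ne_zero_of_sum_ne_zero h
  simp only [mem_filter, mem_product, mem_range] at hp
  omega

theorem conv_l1 {n : ℕ} (hn : 2 * n ≤ N0) {a b : ℕ → ℤ} (ha : ∀ k, a k ≠ 0 → k < n)
    (hb : ∀ k, b k ≠ 0 → k < n) : l1 (conv n a b) ≤ l1 a * l1 b := by
  have := conv_sum (R := ℤ) hn (a := fun k ↦ |a k|) (b := fun k ↦ |b k|) (fun _ ↦ 1)
    (fun k h ↦ ha k (abs_ne_zero.1 h)) (fun k h ↦ hb k (abs_ne_zero.1 h)) (by simp)
  simp only [Int.cast_id, mul_one] at this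
  rw [l1, l1, l1, this]
  refine sum_le_sum fun k _ ↦ (abs_sum_le_sum_abs _ _).trans (le_of_eq ?_)
  exact sum_congr rfl fun p _ ↦ abs_mul _ _

theorem St.ev_add (P : St) (c d : ℕ → ℤ) (τ : ℝ) :
    P.ev (fun k ↦ c k + d k) τ = P.ev c τ + P.ev d τ := by
  simp only [St.ev, ← sum_add_distrib]; exact sum_congr rfl fun k _ ↦ by push_cast; ring

theorem St.ev_smul (P : St) (a : ℤ) (c : ℕ → ℤ) (τ : ℝ) :
    P.ev (fun k ↦ a * c k) τ = a * P.ev c τ := by
  simp only [St.ev, mul_sum]; exact sum_congr rfl fun k _ ↦ by push_cast; ring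

theorem St.ev_single (P : St) {i : ℕ} (hi : i < N0) (a : ℤ) (τ : ℝ) :
    P.ev (fun k ↦ if k = i then a else 0) τ = a * P.mo i τ := by
  rw [St.ev, sum_eq_single i] <;> simp +contextual [hi]

theorem l1_add (c d : ℕ → ℤ) : l1 (fun k ↦ c k + d k) ≤ l1 c + l1 d := by
  simp only [l1, ← sum_add_distrib]; exact sum_le_sum fun k _ ↦ abs_add_le _ _

theorem l1_smul (a : ℤ) (c : ℕ → ℤ) : l1 (fun k ↦ a * c k) = |a| * l1 c := by
  simp only [l1, mul_sum, abs_mul]

namespace Val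

variable {P : St} {n : ℕ} {a b : TM} {f g : ℝ → ℝ}

theorem congr (h : Val P n a f) (e : ∀ τ ∈ P.I, g τ = f τ) : Val P n a g := by
  obtain ⟨c, R, h⟩ := h
  exact ⟨c, R, h.congr fun τ hτ ↦ by rw [e τ hτ]⟩

theorem mono {n' : ℕ} (h : Val P n a f) (hn : n ≤ n') : Val P n' a f := by
  obtain ⟨c, R, h⟩ := h
  exact ⟨c, ⟨fun k hk ↦ ⟨(R.supp k hk).1.trans_le hn, (R.supp k hk).2⟩, R.x, R.l⟩, h⟩

theorem weak {x : ℤ} {r l r' l' : ℕ} (h : Val P n ⟨x, r, l⟩ f) (hr : r ≤ r') (hl : l ≤ l') :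
    Val P n ⟨x, r', l'⟩ f := by
  obtain ⟨c, R, h⟩ := h
  exact ⟨c, ⟨R.supp, R.x, R.l.trans (Nat.cast_le.2 hl)⟩, h.mono (Nat.cast_le.2 hr)⟩

theorem norm (h : Val P n a f) : Nm P.I P.m f (a.norm / 2 ^ 64) := by
  obtain ⟨c, R, h⟩ := h
  have := (h.add (P.ev_nm c)).smul (1 / 2 ^ 64)
  refine (this.congr fun τ _ ↦ by ring).mono ?_
  have hl : (l1 c : ℝ) ≤ a.l := by exact_mod_cast R.l
  rw [TM.norm, abs_of_pos (by positivity)]; push_cast
  rw [one_div_mul_eq_div]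
  exact div_le_div_of_nonneg_right (by linarith) (by positivity)

theorem bound (h : Val P n a f) {τ : ℝ} (hτ : τ ∈ P.I) : |f τ| ≤ a.norm / 2 ^ 64 :=
  h.norm.sup P.hI τ hτ

theorem add (ha : Val P n a f) (hb : Val P n b g) : Val P n (a.add b) fun τ ↦ f τ + g τ := by
  obtain ⟨c, R, h⟩ := ha
  obtain ⟨d, R', h'⟩ := hb
  refine ⟨fun k ↦ c k + d k, ⟨fun k hk ↦ ?_, by rw [TM.add_eq, R.x, R'.x, pk_add], ?_⟩, ?_⟩
  · by_cases h : c k = 0
    · exact R'.supp k (by simpa [h] using hk)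
    · exact R.supp k h
  · have := l1_add c d
    have := R.l
    have := R'.l
    simp only [TM.add_eq]; push_cast; omega
  · refine ((h.add h').congr fun τ _ ↦ ?_).mono (by simp [TM.add_eq])
    rw [P.ev_add]; ring

theorem smul (z : ℤ) (ha : Val P n a f) : Val P n (TM.smul z a) fun τ ↦ z * f τ := by
  obtain ⟨c, R, h⟩ := ha
  refine ⟨fun k ↦ z * c k, ⟨fun k hk ↦ R.supp k (right_ne_zero_of_mul hk), ?_, ?_⟩, ?_⟩
  · simp only [TM.smul_eq, R.x, pk, mul_sum, mul_assoc]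
  · rw [l1_smul]; simp only [TM.smul_eq]; push_cast
    exact mul_le_mul_of_nonneg_left R.l (abs_nonneg _)
  · refine ((h.smul z).congr fun τ _ ↦ ?_).mono (by simp [TM.smul_eq])
    rw [P.ev_smul]; ring

theorem sub (ha : Val P n a f) (hb : Val P n b g) : Val P n (a.sub b) fun τ ↦ f τ - g τ := by
  have := ha.add (hb.smul (-1))
  have e : a.add (TM.smul (-1) b) = a.sub b := by simp [TM.add_eq, TM.sub_eq, TM.smul_eq, sub_eq_add_neg]
  rw [e] at this
  exact this.congr fun τ _ ↦ by push_cast; ring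

theorem single {i : ℕ} (hi : i < n) (hN : i < N0) (hk : keep P.Ss i = true) (z : ℤ) {l : ℕ}
    (hl : |z| ≤ l) : Val P n ⟨z * 2 ^ (224 * i), 0, l⟩ fun τ ↦ z / 2 ^ 64 * P.mo i τ := by
  refine ⟨fun k ↦ if k = i then z else 0, ⟨fun k h ↦ ?_, ?_, ?_⟩, ?_⟩
  · obtain rfl : k = i := by by_contra h'; simp [h'] at h
    exact ⟨hi, hk⟩
  · rw [pk, sum_eq_single i] <;> simp +contextual [hN]
  · rw [l1, sum_eq_single i] <;> simp +contextual [hN, hl]
  · refine ((Nm.const 0).congr fun τ _ ↦ ?_).mono (by simp)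
    rw [P.ev_single hN]; ring

theorem mon {i : ℕ} (hi : i < n) (hN : i < N0) (hk : keep P.Ss i = true) (z : ℤ) :
    Val P n (TM.mon i z) fun τ ↦ z / 2 ^ 48 * P.mo i τ := by
  have := single hi hN hk (z * 2 ^ 16) (l := z.natAbs * 2 ^ 16) (by rw [abs_mul]; simp)
  have e : TM.mon i z = ⟨z * 2 ^ 16 * 2 ^ (224 * i), 0, z.natAbs * 2 ^ 16⟩ := by
    simp only [TM.mon, TM.mk.injEq, and_true]; push_cast; ring
  rw [e]
  exact this.congr fun τ _ ↦ by push_cast; ring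

theorem widen (h : Val P n a f) (e : ℕ) {δ : ℝ → ℝ} (hδ : Nm P.I P.m δ (e / 2 ^ 64)) :
    Val P n (a.widen e) fun τ ↦ f τ + δ τ := by
  obtain ⟨c, R, h⟩ := h
  refine ⟨c, ⟨R.supp, R.x, R.l⟩, ((h.add (hδ.smul (2 ^ 64))).congr fun τ _ ↦ by ring).mono ?_⟩
  rw [abs_of_pos (by positivity), TM.widen]; push_cast; field_simp; exact le_rfl

theorem exact (h : Val P n a f) : ∃ g, Val P n a.exact g := by
  obtain ⟨c, R, -⟩ := h
  exact ⟨fun τ ↦ P.ev c τ / 2 ^ 64, c, ⟨R.supp, R.x, R.l⟩,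
    ((Nm.const 0).congr fun τ _ ↦ by ring).mono (by simp [TM.exact])⟩

variable {c : Ctx} (G : c.Good P)
include G

theorem const (z : ℤ) {l : ℕ} (hl : |z| ≤ l) : Val P c.n ⟨z, 0, l⟩ fun _ ↦ z / 2 ^ 64 := by
  have := single G.npos (by have := G.n2; have := G.npos; omega) G.k0 z hl
  simpa [P.mo_zero] using this

theorem int (z : ℤ) : Val P c.n (TM.int z) fun _ ↦ z := by
  have := const G (z * 2 ^ 64) (l := z.natAbs * 2 ^ 64) (by rw [abs_mul]; simp)
  have e : TM.int z = ⟨z * 2 ^ 64, 0, z.natAbs * 2 ^ 64⟩ := by simp [TM.int]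
  rw [e]
  exact this.congr fun τ _ ↦ by push_cast; ring

theorem cst (z : ℕ) : Val P c.n (TM.cst z) fun _ ↦ z / 2 ^ 64 := by
  simpa [TM.cst] using const G z (l := z) (by simp)

theorem mon0 (z : ℤ) : Val P c.n (TM.mon 0 z) fun _ ↦ z / 2 ^ 48 := by
  simpa [P.mo_zero] using mon G.npos (by have := G.n2; have := G.npos; omega) G.k0 z

theorem inv (q : ℕ) : Val P c.n (TM.inv q) fun _ ↦ 1 / q := by
  have h1 : ((2 ^ 64 / q : ℕ) : ℝ) ≤ 2 ^ 64 / q := by exact_mod_cast Nat.cast_div_le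
  have h2 : (2 ^ 64 / q : ℝ) < (2 ^ 64 / q : ℕ) + 1 := by
    have := Nat.lt_floor_add_one (((2 ^ 64 : ℕ) : ℝ) / q)
    rw [Nat.floor_div_eq_div] at this
    exact_mod_cast this
  have := (cst G (2 ^ 64 / q)).widen 1 (δ := fun _ ↦ 1 / q - (2 ^ 64 / q : ℕ) / 2 ^ 64)
    ((Nm.const _).mono ?_)
  · exact this.congr fun τ _ ↦ by ring
  · have e : (1 / q - (2 ^ 64 / q : ℕ) / 2 ^ 64 : ℝ) = (2 ^ 64 / q - (2 ^ 64 / q : ℕ)) / 2 ^ 64 := by
      ring
    rw [e, abs_div, abs_of_pos (by positivity : (0 : ℝ) < 2 ^ 64), abs_of_nonneg (by linarith)]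
    gcongr; push_cast; linarith

theorem tight (h : Val P c.n a f) : Val P c.n (TM.tight c a) f := by
  rw [TM.tight_eq]
  split_ifs with hl
  · obtain ⟨e, R, h⟩ := h
    have hs : ∀ k, e k ≠ 0 → k < 2 * c.n := fun k hk ↦ by have := (R.supp k hk).1; omega
    have hl' : l1 e < 2 ^ 223 := R.l.trans_lt (by exact_mod_cast hl)
    refine ⟨e, ⟨R.supp, R.x, ?_⟩, h⟩
    simp only
    rw [R.x, bias_eq G hs hl', absv_eq G hs hl', dg_mod (ad_sum hl')]
    exact_mod_cast l1_le_ad G hs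
  · exact h

end Val

end Pool.Agent.Lib.MP_d6150d_an
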