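import Pool.Agent.Lib.MP_d6150d_an.TM

/-! Soundness of the product, of the extraction of coefficients and of the sign test. -/

namespace Pool.Agent.Lib.MP_d6150d_an

open Finset

theorem and_hi {d : ℕ} (hd : d < 2 ^ 224) : d &&& (2 ^ 224 - 2 ^ 64) = d / 2 ^ 64 * 2 ^ 64 := by
  have e : (2 ^ 224 - 2 ^ 64 : ℕ) = (2 ^ 160 - 1) * 2 ^ 64 := by norm_num
  rw [e]
  apply Nat.eq_of_testBit_eq
  intro i
  rw [Nat.testBit_and, Nat.testBit_mul_two_pow, Nat.testBit_mul_two_pow,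
    Nat.testBit_two_pow_sub_one, Nat.testBit_div_two_pow]
  by_cases h : 64 ≤ i
  · rw [show i - 64 + 64 = i by clear * - h; omega]
    by_cases h2 : i - 64 < 160
    · simp [h, h2]
    · have : d.testBit i = false := Nat.testBit_lt_two_pow
        (hd.trans_le (Nat.pow_le_pow_right (by norm_num) (by clear * - h h2; omega)))
      simp [this]
  · simp [h]

theorem and_ind {d : ℕ} (hd : d < 2 ^ 224) (p : Prop) [Decidable p] :
    d &&& ind p * (2 ^ 224 - 1) = ind p * d := by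
  unfold ind; split_ifs
  · rw [one_mul, one_mul, Nat.and_two_pow_sub_one_eq_mod, Nat.mod_eq_of_lt hd]
  · simp

theorem ind_mul_lt (p : Prop) [Decidable p] {a : ℕ} (ha : a < 2 ^ 224) : ind p * a < 2 ^ 224 := by
  unfold ind; split_ifs
  · rwa [one_mul]
  · rw [zero_mul]; positivity

theorem nat_div_bound (S : ℕ) : (S : ℝ) / 2 ^ 64 ≤ (S / 2 ^ 64 : ℕ) + 1 := by
  have := Nat.lt_floor_add_one ((S : ℝ) / ((2 ^ 64 : ℕ) : ℝ))
  rw [Nat.floor_div_eq_div, Nat.cast_pow, Nat.cast_ofNat] at this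
  exact this.le

theorem int_div_bound {S : ℕ} {x n : ℤ} (h : 2 ^ 64 * x ≤ S + 2 ^ 64 * n) :
    x ≤ (S / 2 ^ 64 : ℕ) + n + 1 := by omega

/-- the product, in readable form -/
def mulS (c : Ctx) (a b : TM) : TM :=
  if a.l * b.l < 2 ^ 223 then
    let z := (a.x * b.x + c.top).toNat
    let A := TM.absv c z
    let d := (A &&& c.drop) % (2 ^ 224 - 1)
    ⟨((z &&& c.keepHi) >>> 64 : Nat) - (c.biasK : Int),
      (a.l * b.r + b.l * a.r + a.r * b.r + d + 2 * c.n) / 2 ^ 64 + c.n + 1,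
      (A % (2 ^ 224 - 1) - d + 2 * c.n) / 2 ^ 64 + c.n + 1⟩
  else ⟨0, (a.l + a.r) * (b.l + b.r) / 2 ^ 64 + 1, 0⟩

namespace Val

variable {P : St} {a b : TM} {f g : ℝ → ℝ} {c : Ctx} (G : c.Good P)
include G

theorem mulS (ha : Val P c.n a f) (hb : Val P c.n b g) :
    Val P c.n (mulS c a b) fun τ ↦ f τ * g τ := by
  unfold MP_d6150d_an.mulS
  split_ifs with hl
  swap
  · refine ⟨fun _ ↦ 0, ⟨by simp, by simp [pk], by simp [l1]⟩, ?_⟩
    have := ((ha.norm.mul P.hI hb.norm).smul (2 ^ 64)).congr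
      (g := fun τ ↦ 2 ^ 64 * (f τ * g τ) - P.ev (fun _ ↦ 0) τ) fun τ _ ↦ by simp [St.ev]
    refine this.mono ?_
    have h2 := nat_div_bound ((a.l + a.r) * (b.l + b.r))
    rw [abs_of_pos (by positivity), TM.norm, TM.norm]
    simp only [Nat.cast_add, Nat.cast_mul, Nat.cast_one] at h2 ⊢
    refine le_trans (le_of_eq ?_) h2
    field_simp
  obtain ⟨ca, Ra, ha⟩ := ha
  obtain ⟨cb, Rb, hb⟩ := hb
  have sa := fun k hk ↦ (Ra.supp k hk).1
  have sb := fun k hk ↦ (Rb.supp k hk).1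
  set e := conv c.n ca cb with he
  have hs : ∀ k, e k ≠ 0 → k < 2 * c.n := conv_supp
  have hl' : l1 e < 2 ^ 223 := by
    refine (conv_l1 G.n2 sa sb).trans_lt (lt_of_le_of_lt
      (mul_le_mul Ra.l Rb.l (l1_nonneg _) (Nat.cast_nonneg _)) ?_)
    exact_mod_cast hl
  have hx : a.x * b.x = pk e := by
    rw [Ra.x, Rb.x]
    exact conv_sum (R := ℤ) G.n2 (fun k ↦ 2 ^ (224 * k)) sa sb fun i j _ _ ↦ by ring
  have hev : ∀ τ, P.ev ca τ * P.ev cb τ = P.ev e τ := fun τ ↦
    conv_sum (R := ℝ) G.n2 (fun k ↦ P.mo k τ) sa sb fun i j hi hj ↦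
      mo_add _ _ _ _ (Ra.supp i hi).2 (Rb.supp j hj).2
  have had : ∀ k, ad c.n e k < 2 ^ 224 := fun k ↦ by
    have h1 := ad_le (c := c) (e := e) k
    have h2 := e_lt G hs hl' k
    omega
  set K : ℕ → Prop := fun k ↦ k < c.n ∧ keep P.Ss k = true with hK
  set Dk : ℕ → ℕ := fun k ↦ ind (k < 2 * c.n ∧ ¬K k) * ad c.n e k with hD
  have hDle : ∀ k, Dk k ≤ ad c.n e k := fun k ↦ by
    simp only [hD, ind]; split_ifs <;> omega
  have hDs : ∑ k ∈ range N0, Dk k ≤ ∑ k ∈ range N0, ad c.n e k := sum_le_sum fun k _ ↦ hDle k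
  have hd : (dg (ad c.n e) N0 &&& c.drop) % (2 ^ 224 - 1) = ∑ k ∈ range N0, Dk k := by
    rw [G.drop, dg_and _ had fun k ↦ ind_mul_lt _ (by norm_num),
      dg_congr fun k _ ↦ and_ind (had k) _, dg_mod (hDs.trans_lt (ad_sum hl'))]
  set c' : ℕ → ℤ := fun k ↦ if K k then e k / 2 ^ 64 else 0 with hc'
  have hz : (((dg (bd c.n e) N0 &&& c.keepHi) >>> 64 : ℕ) : ℤ) - c.biasK = pk c' := by
    have hb := bd_lt G hs hl'
    have h1 : ∀ k, bd c.n e k &&& ind (K k) * (2 ^ 224 - 2 ^ 64) =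
        ind (K k) * (bd c.n e k / 2 ^ 64) * 2 ^ 64 := fun k ↦ by
      unfold ind; split_ifs
      · rw [one_mul, one_mul, and_hi (hb k)]
      · simp
    rw [G.keepHi, G.biasK, dg_and _ hb fun k ↦ ind_mul_lt _ (by norm_num),
      dg_congr fun k _ ↦ h1 k, dg_shift _ _ fun k ↦ Dvd.intro_left _ rfl, dg_cast, dg_cast, pk_sub]
    refine congrArg pk (funext fun k ↦ ?_)
    rw [Nat.mul_div_cancel _ (by positivity)]
    have := abs_lt.1 (e_lt G hs hl' k)
    by_cases hk : K k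
    · have h2 : k < 2 * c.n := by have := hk.1; omega
      have h3 : ind (k < c.n ∧ keep P.Ss k = true) = 1 := if_pos hk
      have h4 : c' k = e k / 2 ^ 64 := if_pos hk
      rw [h3, h4, one_mul, one_mul, bd, if_pos h2]
      clear * - this
      omega
    · have h3 : ind (k < c.n ∧ keep P.Ss k = true) = 0 := if_neg hk
      have h4 : c' k = 0 := if_neg hk
      rw [h3, h4, zero_mul, zero_mul]; rfl
  simp only [hx, bias_eq G hs hl', absv_eq G hs hl', hd, hz, dg_mod (ad_sum hl')]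
  have s1 := sum_ind G (le_refl (2 * c.n))
  have s2 := sum_ind G (show c.n ≤ 2 * c.n by omega)
  refine ⟨c', ⟨fun k hk ↦ ?_, rfl, ?_⟩, ?_⟩
  · by_contra h; exact hk (if_neg h)
  · have h1 : ∀ k, 2 ^ 64 * |c' k| ≤
        ad c.n e k - Dk k + ind (k < 2 * c.n) + 2 ^ 64 * (ind (k < c.n) : ℤ) := fun k ↦ by
      have h2 := le_ad (c := c) hs k
      have h3 := hDle k
      by_cases hk : K k
      · have h4 : Dk k = 0 := by simp [hD, ind, hk]
        have h5 : ind (k < c.n) = 1 := by simp [ind, hk.1]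
        simp only [hc', hk, if_true, h4, h5]
        rcases abs_cases (e k) with h | h <;> rcases abs_cases (e k / 2 ^ 64) with h' | h' <;> omega
      · simp only [hc', hk, if_false, abs_zero]; omega
    have h2 := sum_le_sum (s := range N0) fun k _ ↦ h1 k
    rw [← mul_sum, sum_add_distrib, sum_add_distrib, sum_sub_distrib, ← mul_sum, s1, s2,
      ← Nat.cast_sum, ← Nat.cast_sum] at h2
    have h3 := int_div_bound (S := ∑ k ∈ range N0, ad c.n e k - ∑ k ∈ range N0, Dk k + 2 * c.n)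
      (x := l1 c') (n := c.n) (by
        rw [Nat.cast_add, Nat.cast_sub hDs]; exact h2)
    simpa only [Nat.cast_add, Nat.cast_one] using h3
  · set u : ℕ → ℤ := fun k ↦ e k + -2 ^ 64 * c' k with hu
    have h1 : ∀ k, |u k| ≤ Dk k + ind (k < 2 * c.n) + 2 ^ 64 * (ind (k < c.n) : ℤ) := fun k ↦ by
      have h2 := le_ad (c := c) hs k
      by_cases hk : K k
      · have h5 : ind (k < c.n) = 1 := by simp [ind, hk.1]
        simp only [hu, hc', hk, if_true, h5]
        rw [abs_le]; omega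
      · simp only [hu, hc', hk, if_false, mul_zero, add_zero]
        by_cases h6 : k < 2 * c.n
        · have h4 : Dk k = ad c.n e k := by simp [hD, ind, hk, h6]
          omega
        · have : e k = 0 := by by_contra h; exact h6 (hs k h)
          rw [this, abs_zero]; positivity
    have h2 := sum_le_sum (s := range N0) fun k _ ↦ h1 k
    rw [sum_add_distrib, sum_add_distrib, ← mul_sum, s1, s2, ← Nat.cast_sum] at h2
    have h3 : (l1 u : ℝ) ≤ (∑ k ∈ range N0, Dk k : ℕ) + 2 * c.n + 2 ^ 64 * c.n := by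
      exact_mod_cast h2
    have la : (l1 ca : ℝ) ≤ a.l := by exact_mod_cast Ra.l
    have lb : (l1 cb : ℝ) ≤ b.l := by exact_mod_cast Rb.l
    have := (((((P.ev_nm ca).mono la).mul P.hI hb).add (((P.ev_nm cb).mono lb).mul P.hI ha)).add
      ((ha.mul P.hI hb).add ((P.ev_nm u).mono h3))).smul (1 / 2 ^ 64)
    refine (this.congr fun τ _ ↦ ?_).mono ?_
    · rw [hu, P.ev_add, P.ev_smul, ← hev]; push_cast; ring
    · have h4 := nat_div_bound (a.l * b.r + b.l * a.r + a.r * b.r + ∑ k ∈ range N0, Dk k + 2 * c.n)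
      rw [abs_of_pos (by positivity)]
      simp only [Nat.cast_add, Nat.cast_mul, Nat.cast_one, Nat.cast_ofNat] at h4 ⊢
      have : (1 / 2 ^ 64 : ℝ) * (a.l * b.r + b.l * a.r + (a.r * b.r +
        ((∑ k ∈ range N0, Dk k : ℕ) + 2 * c.n + 2 ^ 64 * c.n))) = (a.l * b.r + b.l * a.r +
          a.r * b.r + (∑ k ∈ range N0, Dk k : ℕ) + 2 * c.n) / 2 ^ 64 + c.n := by ring
      rw [this]; linarith

theorem mul (ha : Val P c.n a f) (hb : Val P c.n b g) :
    Val P c.n (TM.mul c a b) fun τ ↦ f τ * g τ := by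
  have h := mulS G ha hb
  have n2 : 2 * c.n ≤ 16384 := N0_eq ▸ G.n2
  obtain ⟨x1, r1, l1⟩ := a
  obtain ⟨x2, r2, l2⟩ := b
  unfold MP_d6150d_an.mulS at h
  unfold TM.mul
  dsimp only at h
  refine (congrArg (Val P c.n · _) (TM.ble_cases _ _ _)).mpr ?_
  dsimp only
  rw [TM.isub_eq, TM.bmul_eq]
  simp only [Nat.mul_eq, Nat.add_eq, Nat.sub_eq, Nat.shiftRight_eq, Nat.land_eq,
    show ∀ a b : ℕ, a.mod b = a % b from fun _ _ ↦ rfl,
    Nat.shiftRight_eq_div_pow] at h ⊢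
  split_ifs at h ⊢
  · refine h.weak ?_ ?_
    · rw [add_mul, show (2 ^ 224 - 1 : ℕ) =
        26959946667150639794667015087019630673637144422540572481103610249215 by norm_num]
      omega
    · rw [show (2 ^ 224 - 1 : ℕ) =
        26959946667150639794667015087019630673637144422540572481103610249215 by norm_num]
      omega
  · exact h

omit a b f g in
theorem _root_.Pool.Agent.Lib.MP_d6150d_an.Rep.coef0 {a : TM} {e : ℕ → ℤ} (R : Rep P c.n a e)
    (hl : a.l < 2 ^ 223) : TM.coef c a 0 = e 0 := by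
  have hs : ∀ k, e k ≠ 0 → k < 2 * c.n := fun k hk ↦ by have := (R.supp k hk).1; omega
  have hl' : l1 e < 2 ^ 223 := R.l.trans_lt (by exact_mod_cast hl)
  obtain ⟨N, hN⟩ : ∃ N, N0 = N + 1 := ⟨16383, N0_eq⟩
  have hb := bd_lt G hs hl' 0
  rw [TM.coef, R.x, bias_eq G hs hl', mul_zero, Nat.shiftRight_zero, hN, dg_succ,
    Nat.mul_add_mod, Nat.mod_eq_of_lt hb]
  have := abs_lt.1 (e_lt G hs hl' 0)
  have := G.npos
  rw [bd, if_pos (by omega)]; omega

omit a b f g in
theorem _root_.Pool.Agent.Lib.MP_d6150d_an.Rep.part {a : TM} {e : ℕ → ℤ} (R : Rep P c.n a e)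
    (hl : a.l < 2 ^ 223) (p : ℕ → Prop) [DecidablePred p] (i : ℕ) (hi : i ≤ N0)
    (hp : ∀ k, p k → k < c.n) (hk : ∀ k, p (k + i) → keep P.Ss k = true) :
    Rep P c.n (TM.part c (dg (fun k ↦ ind (p k)) N0) i a)
      fun k ↦ if p (k + i) then e (k + i) else 0 := by
  have hs : ∀ k, e k ≠ 0 → k < 2 * c.n := fun k hk ↦ by have := (R.supp k hk).1; omega
  have hl' : l1 e < 2 ^ 223 := R.l.trans_lt (by exact_mod_cast hl)
  have hb := bd_lt G hs hl'
  have n2 := G.n2
  obtain ⟨N, hN⟩ : ∃ N, N0 = N + i := ⟨N0 - i, by omega⟩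
  have ext : ∀ d : ℕ → ℕ, dg (fun k ↦ ind (p (k + i)) * d k) N =
      dg (fun k ↦ ind (p (k + i)) * d k) N0 := fun d ↦ by
    refine (sum_supp (by omega) fun k hk ↦ ?_).symm
    have : ¬p (k + i) := fun h ↦ by have := hp _ h; omega
    simp [ind, this]
  rw [TM.part, if_pos hl]
  refine ⟨fun k h ↦ ?_, ?_, ?_⟩
  · have : p (k + i) := by by_contra h'; exact h (if_neg h')
    exact ⟨by have := hp _ this; omega, hk k this⟩
  · simp only
    rw [R.x, bias_eq G hs hl', dg_mul, dg_mul, dg_and _ hb fun k ↦ ind_mul_lt _ (by norm_num),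
      dg_congr fun k _ ↦ and_ind (hb k) _]
    conv_lhs => rw [hN]
    rw [dg_drop _ _ _ fun k ↦ ind_mul_lt _ (hb k), dg_drop _ _ _ fun k ↦ ind_mul_lt _ (by norm_num),
      ext fun k ↦ bd c.n e (k + i), ext fun _ ↦ 2 ^ 223, dg_cast, dg_cast, pk_sub]
    refine congrArg pk (funext fun k ↦ ?_)
    have := abs_lt.1 (e_lt G hs hl' (k + i))
    by_cases h : p (k + i)
    · have h2 : k + i < 2 * c.n := by have := hp _ h; omega
      simp only [ind, h, bd, h2, if_true, one_mul]; omega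
    · simp [ind, h]
  · refine le_trans ?_ R.l
    rw [l1, sum_supp (n := N) (by omega) fun k hk ↦ by
      have : ¬p (k + i) := fun h ↦ by have := hp _ h; omega
      simp [this], l1, hN, add_comm N i, sum_range_add]
    refine le_add_of_nonneg_of_le (sum_nonneg fun _ _ ↦ abs_nonneg _) (sum_le_sum fun k _ ↦ ?_)
    rw [add_comm i k]; split_ifs <;> simp

end Val

end Pool.Agent.Lib.MP_d6150d_an
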