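import Pool.Agent.Lib.MP_d6150d_an.TM2

/-! Soundness of the sign test, of inverses and of the exponential. -/

namespace Pool.Agent.Lib.MP_d6150d_an

open Finset

theorem pk_modEq (e : ℕ → ℤ) : pk e ≡ ∑ k ∈ range N0, e k [ZMOD ((2 ^ 224 - 1 : ℕ) : ℤ)] := by
  have h1 : (2 : ℤ) ^ 224 ≡ 1 [ZMOD ((2 ^ 224 - 1 : ℕ) : ℤ)] :=
    (Int.modEq_iff_dvd.2 (by norm_num)).symm
  refine Int.ModEq.sum fun k _ ↦ ?_
  have h2 := (h1.pow k).mul_left (e k)
  rwa [one_pow, mul_one, ← pow_mul] at h2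

theorem evn_zero : ∀ (Ss : List ℕ) (bs : List Bool), evn Ss bs 0 = true
  | [], _ => rfl
  | _ :: _, [] => rfl
  | S :: Ss, b :: bs => by simp [evn, evn_zero Ss bs]

/-- the second divided difference of the exponential -/
noncomputable def ph2 (z : ℝ) : ℝ := ∑' n : ℕ, z ^ n / (n + 2).factorial

/-- the first divided difference of the exponential -/
noncomputable def ph1 (z : ℝ) : ℝ := 1 + z * ph2 z

theorem ph2_summable (z : ℝ) : Summable fun n : ℕ ↦ z ^ n / (n + 2).factorial := by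
  refine Summable.of_norm_bounded (Real.summable_pow_div_factorial |z|) fun n ↦ ?_
  rw [Real.norm_eq_abs, abs_div, abs_pow, Nat.abs_cast]
  gcongr; omega

theorem exp_eq_ph (z : ℝ) : Real.exp z = 1 + z * ph1 z := by
  have h := (NormedSpace.expSeries_div_hasSum_exp z).tsum_eq
  rw [← Real.exp_eq_exp_ℝ] at h
  rw [← h, ← (Real.summable_pow_div_factorial z).sum_add_tsum_nat_add 2, ph1, ph2, mul_add,
    ← mul_assoc, ← tsum_mul_left]
  simp only [sum_range_succ, range_zero, sum_empty]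
  rw [tsum_congr (g := fun n : ℕ ↦ z * z * (z ^ n / (n + 2).factorial)) fun n ↦ by ring]
  simp; ring

theorem ph1_dbl (z : ℝ) : 2 * ph1 (2 * z) = ph1 z * (Real.exp z + 1) := by
  by_cases hz : z = 0
  · simp [hz, ph1]; norm_num
  · have h1 := exp_eq_ph z
    have h2 := exp_eq_ph (2 * z)
    rw [two_mul z, Real.exp_add, ← two_mul z] at h2
    apply mul_left_cancel₀ hz
    linear_combination -h2 + (Real.exp z + 1) * h1

theorem ph2_zero : ph2 0 = 1 / 2 := by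
  rw [ph2, tsum_eq_single 0 fun n hn ↦ by simp [hn]]; simp

theorem ph2_dbl (z : ℝ) : 4 * ph2 (2 * z) = ph1 z * ph1 z + 2 * ph2 z := by
  by_cases hz : z = 0
  · simp [hz, ph1, ph2_zero]; norm_num
  · have h1 := exp_eq_ph z
    have h2 := ph1_dbl z
    rw [h1, show ph1 (2 * z) = 1 + 2 * z * ph2 (2 * z) from rfl] at h2
    apply mul_left_cancel₀ hz
    have h3 : ph1 z = 1 + z * ph2 z := rfl
    linear_combination h2 + 2 * h3

namespace Nm

variable {I : Set ℝ}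

theorem c_le (hI : ∀ τ ∈ I, |τ| ≤ 1) (h0 : (0 : ℝ) ∈ I) {m : ℕ} {f : ℝ → ℝ} {C : ℝ}
    (h : Nm I m f C) : 0 ≤ C := (abs_nonneg _).trans (h.sup hI 0 h0)

theorem tsum (hI : ∀ τ ∈ I, |τ| ≤ 1) (h0 : (0 : ℝ) ∈ I) : ∀ {m : ℕ} {f : ℕ → ℝ → ℝ} {C : ℕ → ℝ},
    (∀ n, Nm I m (f n) (C n)) → Summable C → Nm I m (fun τ ↦ ∑' n, f n τ) (∑' n, C n)
  | 0, f, C, h, hC => fun τ hτ ↦ by
      have := tsum_of_norm_bounded hC.hasSum (f := fun n ↦ f n τ) fun n ↦ h n τ hτ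
      exact this
  | m + 1, f, C, h, hC => by
      choose c k e hk using h
      have h1 : ∀ n, |c n| ≤ C n := fun n ↦ by have := (hk n).c_le hI h0; linarith
      have sc : Summable fun n ↦ |c n| := .of_nonneg_of_le (fun _ ↦ abs_nonneg _) h1 hC
      have sk : ∀ τ ∈ I, Summable fun n ↦ k n τ := fun τ hτ ↦
        .of_norm_bounded (hC.sub sc) fun n ↦ (hk n).sup hI τ hτ
      refine ⟨∑' n, c n, fun τ ↦ ∑' n, k n τ, fun τ hτ ↦ ?_, (tsum hI h0 hk (hC.sub sc)).mono ?_⟩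
      · simp only [e _ τ hτ]
        rw [sc.of_abs.tsum_add ((sk τ hτ).mul_left τ), tsum_mul_left]
      · rw [hC.tsum_sub sc]
        have := tsum_of_norm_bounded sc.hasSum (f := c) fun n ↦ le_rfl
        rw [Real.norm_eq_abs] at this
        linarith

theorem ph2_rem (hI : ∀ τ ∈ I, |τ| ≤ 1) (h0 : (0 : ℝ) ∈ I) {m : ℕ} {f : ℝ → ℝ} {C : ℝ}
    (h : Nm I m f C) (hC : C ≤ 1) :
    Nm I m (fun τ ↦ ph2 (f τ) - ∑ n ∈ range 12, f τ ^ n / (n + 2).factorial)
      (2 * C ^ 12 / (14 : ℕ).factorial) := by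
  have hC0 := h.c_le hI h0
  have hb : ∀ n : ℕ, |(1 / (n + 12 + 2).factorial : ℝ)| * C ^ (n + 12) ≤
      C ^ 12 / (14 : ℕ).factorial * (1 / 2) ^ n := fun n ↦ by
    have h1 : (14 : ℕ).factorial * 2 ^ n ≤ (n + 12 + 2).factorial := by
      rw [show n + 12 + 2 = 14 + n by ring]
      refine le_trans ?_ Nat.factorial_mul_pow_le_factorial
      gcongr; norm_num
    have h2 : ((14 : ℕ).factorial * 2 ^ n : ℝ) ≤ (n + 12 + 2).factorial := by exact_mod_cast h1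
    have h3 : C ^ (n + 12) ≤ C ^ 12 := pow_le_pow_of_le_one hC0 hC (by omega)
    rw [abs_of_pos (by positivity)]
    calc (1 / (n + 12 + 2).factorial : ℝ) * C ^ (n + 12)
        ≤ 1 / ((14 : ℕ).factorial * 2 ^ n) * C ^ 12 := by gcongr
      _ = _ := by rw [one_div_pow]; field_simp
  have := tsum hI h0 (m := m) (f := fun n τ ↦ 1 / (n + 12 + 2).factorial * f τ ^ (n + 12))
    (fun n ↦ ((h.pow hI _).smul _).mono (hb n)) (summable_geometric_two.mul_left _)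
  rw [tsum_mul_left, tsum_geometric_two] at this
  refine (this.congr fun τ _ ↦ ?_).mono (le_of_eq (by ring))
  rw [ph2, ← (ph2_summable _).sum_add_tsum_nat_add 12, add_sub_cancel_left]
  exact tsum_congr fun n ↦ by ring

end Nm

theorem fact_eq : ∀ n, TM.fact n = n.factorial
  | 0 => rfl
  | n + 1 => by rw [TM.fact, fact_eq n, Nat.factorial_succ]

/-- Horner evaluation -/
def hornerR (z : ℝ) : List ℝ → ℝ
  | [] => 0
  | a :: l => a + z * hornerR z l

/-- a mask of admissible indices -/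
def Msk (P : St) (c : Ctx) (M : ℕ) : Prop :=
  ∃ (p : ℕ → Prop) (_ : DecidablePred p), M = dg (fun k ↦ ind (p k)) N0 ∧
    ∀ k, p k → k < c.n ∧ keep P.Ss k = true

variable {P : St} {a b z : TM} {f g : ℝ → ℝ} {c : Ctx} (G : c.Good P)
include G

theorem Rep.tight {e : ℕ → ℤ} (R : Rep P c.n a e) (hl : a.l < 2 ^ 223) :
    Rep P c.n (TM.tight c a) e ∧ ((TM.tight c a).l : ℤ) ≤ l1 e + 2 * c.n := by
  have hs : ∀ k, e k ≠ 0 → k < 2 * c.n := fun k hk ↦ by have := (R.supp k hk).1; omega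
  have hl' : l1 e < 2 ^ 223 := R.l.trans_lt (by exact_mod_cast hl)
  have e1 : (TM.tight c a).l = ∑ k ∈ range N0, ad c.n e k + 2 * c.n := by
    rw [TM.tight_eq, if_pos hl]
    simp only
    rw [R.x, bias_eq G hs hl', absv_eq G hs hl', dg_mod (ad_sum hl')]
  refine ⟨⟨R.supp, ?_, ?_⟩, ?_⟩
  · rw [TM.tight_eq, if_pos hl]; exact R.x
  · rw [e1]; exact_mod_cast l1_le_ad G hs
  · rw [e1]; push_cast
    exact add_le_add (sum_le_sum fun k _ ↦ ad_le k) le_rfl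

namespace Val

theorem pos (h : Val P c.n a f) (hp : TM.pos c a = true) {τ : ℝ} (hτ : τ ∈ P.I) : 0 < f τ := by
  simp only [TM.pos, Bool.and_eq_true, decide_eq_true_eq] at hp
  obtain ⟨hl, hp⟩ := hp
  have hl2 : a.l < 2 ^ 223 := hl.trans (by norm_num)
  obtain ⟨e, R, h⟩ := h
  have RE := R.part G hl2 (fun k ↦ k < c.n ∧ keep P.Ss k = true ∧ evn P.Ss P.fl k = true) 0
    (Nat.zero_le _) (fun k h ↦ h.1) fun k h ↦ h.2.1
  have RO := R.part G hl2 (fun k ↦ k < c.n ∧ keep P.Ss k = true ∧ ¬evn P.Ss P.fl k = true) 0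
    (Nat.zero_le _) (fun k h ↦ h.1) fun k h ↦ h.2.1
  rw [← G.ev] at RE
  rw [← G.od] at RO
  simp only [add_zero] at RE RO
  set eE : ℕ → ℤ := fun k ↦
    if k < c.n ∧ keep P.Ss k = true ∧ evn P.Ss P.fl k = true then e k else 0 with hE
  set eO : ℕ → ℤ := fun k ↦
    if k < c.n ∧ keep P.Ss k = true ∧ ¬evn P.Ss P.fl k = true then e k else 0 with hO
  have lE : (TM.part c c.ev 0 a).l = a.l := by rw [TM.part, if_pos hl2]
  have lO : (TM.part c c.od 0 a).l = a.l := by rw [TM.part, if_pos hl2]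
  obtain ⟨TE, bE⟩ := RE.tight G (lE ▸ hl2)
  obtain ⟨TO, -⟩ := RO.tight G (lO ▸ hl2)
  have l1E := RE.l
  rw [lE] at l1E
  have n2 : 2 * c.n ≤ 16384 := N0_eq ▸ G.n2
  have hS : |∑ k ∈ range N0, eE k| ≤ l1 eE := abs_sum_le_sum_abs _ _
  have hm : ((TM.tight c (TM.part c c.ev 0 a)).x + (TM.tight c (TM.part c c.ev 0 a)).l) %
      ((2 ^ 224 - 1 : ℕ) : ℤ) = ∑ k ∈ range N0, eE k + (TM.tight c (TM.part c c.ev 0 a)).l := by
    rw [TE.x, ((pk_modEq eE).add_right _).eq]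
    have := TE.l
    have := abs_le.1 hS
    apply Int.emod_eq_of_lt <;> omega
  simp only [TM.lower] at hp
  rw [hm, R.coef0 G hl2] at hp
  have hp' : (0 : ℝ) < 2 * e 0 + ((∑ k ∈ range N0, eE k : ℤ) +
      (TM.tight c (TM.part c c.ev 0 a)).l) - 2 * ((TM.tight c (TM.part c c.ev 0 a)).l +
      (TM.tight c (TM.part c c.od 0 a)).l + a.r) := by exact_mod_cast hp
  have h1 := (abs_le.1 (h.sup P.hI τ hτ)).1
  have h2 : P.ev e τ = P.ev eE τ + P.ev eO τ := by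
    rw [← P.ev_add]
    refine congrFun (congrArg P.ev (funext fun k ↦ ?_)) τ
    by_cases hk : e k = 0
    · simp [hE, hO, hk]
    · obtain ⟨h3, h4⟩ := R.supp k hk
      by_cases h5 : evn P.Ss P.fl k = true <;> simp [hE, hO, h3, h4, h5]
  have h3 := (abs_le.1 ((P.ev_nm eO).sup P.hI τ hτ)).1
  have h4 : (l1 eO : ℝ) ≤ (TM.tight c (TM.part c c.od 0 a)).l := by exact_mod_cast TO.l
  have h5 : (l1 eE : ℝ) ≤ (TM.tight c (TM.part c c.ev 0 a)).l := by exact_mod_cast TE.l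
  have h6 : ∀ k ∈ range N0, (if k = 0 then 2 * (e 0 : ℝ) else 0) + (eE k - |(eE k : ℝ)|) ≤
      2 * (eE k * P.mo k τ) := fun k _ ↦ by
    split_ifs with hk
    · subst hk
      have : eE 0 = e 0 := if_pos ⟨G.npos, G.k0, evn_zero _ _⟩
      rw [this, P.mo_zero]; linarith [le_abs_self (e 0 : ℝ)]
    · by_cases h7 : k < c.n ∧ keep P.Ss k = true ∧ evn P.Ss P.fl k = true
      · have m0 : 0 ≤ P.mo k τ := mo_nonneg _ _ _ _ (P.hf τ hτ) h7.2.2
        have m1 := (abs_le.1 ((P.mo_nm k).sup P.hI τ hτ)).2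
        rcases abs_cases (eE k : ℝ) with h8 | h8 <;> nlinarith
      · have : eE k = 0 := if_neg h7
        simp [this]
  have h7 := sum_le_sum h6
  rw [sum_add_distrib, sum_sub_distrib, ← mul_sum, sum_ite_eq',
    if_pos (mem_range.2 (by rw [N0_eq]; norm_num))] at h7
  have h8 : (l1 eE : ℝ) = ∑ k ∈ range N0, |(eE k : ℝ)| := by simp [l1]
  have h9 : (0 : ℝ) < 2 ^ 64 * f τ := by
    have : P.ev eE τ = ∑ k ∈ range N0, eE k * P.mo k τ := rfl
    push_cast at hp'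
    linarith
  exact (mul_pos_iff_of_pos_left (by positivity)).1 h9

theorem zero : Val P c.n ⟨0, 0, 0⟩ fun _ ↦ 0 := by simpa using const G 0 (l := 0) (by simp)

theorem horner (hz : Val P c.n z f) : ∀ {as : List TM} {fs : List (ℝ → ℝ)},
    List.Forall₂ (Val P c.n) as fs →
      Val P c.n (TM.horner c z as) fun τ ↦ hornerR (f τ) (fs.map (· τ))
  | _, _, .nil => zero G
  | _, _, .cons h t => h.add (mul G hz (horner hz t))

theorem partE {M : ℕ} (hM : Msk P c M) (h : Val P c.n a f) : ∃ g, Val P c.n (TM.part c M 0 a) g := by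
  by_cases hl : a.l < 2 ^ 223
  · obtain ⟨p, _, rfl, hp⟩ := hM
    obtain ⟨e, R, -⟩ := h
    have := R.part G hl p 0 (Nat.zero_le _) (fun k h ↦ (hp k h).1) fun k h ↦ (hp k h).2
    refine ⟨fun τ ↦ P.ev _ τ / 2 ^ 64, _, this, ((Nm.const 0).congr fun τ _ ↦ by ring).mono ?_⟩
    simp
  · rw [TM.part, if_neg hl]; exact ⟨_, zero G⟩

theorem hint {M : ℕ} (hM : Msk P c M) (h : Val P c.n a f) : ∃ g, Val P c.n (TM.hint c M a) g := by
  obtain ⟨g1, h1⟩ := (mul G h (cst G (2 ^ 128 / (TM.coef c a 0).toNat))).exact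
  obtain ⟨g2, h2⟩ := partE G hM h1
  obtain ⟨g3, h3⟩ := (mul G h2 (inv G 2)).exact
  obtain ⟨g4, h4⟩ := (horner G h3 (.cons (int G 1) (.cons (int G (-1)) (.cons (inv G 2)
    (.cons ((inv G 6).smul (-1)) (.cons (inv G 24) .nil)))))).exact
  exact (mul G (mul G h4 (inv G 2)) (tight G ((int G 3).sub (mul G (mul G h1 h4) h4)))).exact

theorem posN {M : ℕ} (hM : Msk P c M) (h : Val P c.n a f) (hp : TM.posN c M a = true) {τ : ℝ}
    (hτ : τ ∈ P.I) : 0 < f τ := by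
  simp only [TM.posN, Bool.or_eq_true] at hp
  rcases hp with hp | hp
  · exact pos G h hp hτ
  · obtain ⟨g, hg⟩ := hint G hM h
    have := pos G (mul G (mul G h hg) hg) hp hτ
    rw [mul_assoc] at this
    exact pos_of_mul_pos_left this (mul_self_nonneg _)

theorem newt (h : Val P c.n a f) : ∀ k, ∃ g, Val P c.n (TM.newt c a k) g
  | 0 => by
    rw [TM.newt]; split_ifs
    · exact ⟨_, cst G _⟩
    · exact ⟨_, (cst G _).smul _⟩
  | k + 1 => by
    obtain ⟨g, hg⟩ := newt h k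
    exact (mul G hg (tight G ((int G 2).sub (mul G h hg)))).exact

omit G in
theorem exact_norm (a : TM) : a.exact.norm = a.exact.l := rfl

omit G in
theorem newt_norm (c : Ctx) (a : TM) (k : ℕ) :
    (TM.newt c a (k + 1)).norm = (TM.newt c a (k + 1)).l := by
  rw [TM.newt]; exact exact_norm _

omit G in
theorem rcp_aux {α : ℝ} {e : TM} (hg : Val P c.n z g) (hz : z.norm = z.l)
    (he : Val P c.n e fun τ ↦ ((1 : ℤ) : ℝ) - α * g τ) (ok : e.norm ≤ 2 ^ 63) :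
    α ≠ 0 ∧ Val P c.n (z.widen (z.l * e.norm * (2 ^ 64 + 2 * e.norm) / 2 ^ 128 + 1))
      fun _ ↦ 1 / α := by
  have h1 := he.bound P.h0
  have h2 := hg.bound P.h0
  rw [hz] at h2
  have hε : (e.norm : ℝ) / 2 ^ 64 ≤ 1 / 2 := by
    have : (e.norm : ℝ) ≤ 2 ^ 63 := by exact_mod_cast ok
    rw [div_le_iff₀ (by positivity)]; linarith
  set ε := (e.norm : ℝ) / 2 ^ 64 with hε'
  have ε0 : 0 ≤ ε := by positivity
  push_cast at h1
  have h3 : 1 - ε ≤ |α| * |g 0| := by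
    rw [← abs_mul]; linarith [(abs_le.1 h1).2, le_abs_self (α * g 0)]
  have hα : α ≠ 0 := by rintro rfl; simp at h3; linarith
  have hα' : 0 < |α| := abs_pos.2 hα
  refine ⟨hα, (hg.widen _ (δ := fun τ ↦ 1 / α * (((1 : ℤ) : ℝ) - α * g τ))
    ((he.norm.smul _).mono ?_)).congr fun τ _ ↦ by field_simp; push_cast; ring⟩
  have h4 : |1 / α| ≤ z.l / 2 ^ 64 * (1 + 2 * ε) := by
    rw [abs_div, abs_one, div_le_iff₀ hα']
    have : |α| * |g 0| ≤ |α| * (z.l / 2 ^ 64) := by gcongr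
    nlinarith
  have h5 := Nat.lt_floor_add_one (((z.l * e.norm * (2 ^ 64 + 2 * e.norm) : ℕ) : ℝ) /
    ((2 ^ 128 : ℕ) : ℝ))
  rw [Nat.floor_div_eq_div] at h5
  rw [le_div_iff₀ (by positivity), Nat.cast_add, Nat.cast_one]
  refine le_trans ?_ h5.le
  calc |1 / α| * ε * 2 ^ 64 ≤ z.l / 2 ^ 64 * (1 + 2 * ε) * ε * 2 ^ 64 := by gcongr
    _ = _ := by rw [hε']; push_cast; ring

theorem rcp {α : ℝ} (h : Val P c.n a fun _ ↦ α) (ok : (TM.rcp c a).1 = true) :
    α ≠ 0 ∧ Val P c.n (TM.rcp c a).2 fun _ ↦ 1 / α := by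
  obtain ⟨g, hg⟩ := newt G h 4
  have hz : (TM.newt c a 4).norm = (TM.newt c a 4).l := newt_norm c a 3
  unfold TM.rcp at ok ⊢
  dsimp only at ok ⊢
  generalize TM.newt c a 4 = z at *
  have he := tight G ((int G 1).sub (mul G h hg))
  generalize TM.tight c ((TM.int 1).sub (TM.mul c a z)) = e at *
  exact rcp_aux hg hz he (of_decide_eq_true ok)

theorem nsq (h : Val P c.n a f) (hz : Val P c.n z g) : ∃ g, Val P c.n (TM.nsq c a z) g :=
  (mul G (mul G hz (inv G 2)) (tight G ((int G 3).sub (mul G (mul G h hz) hz)))).exact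

omit G in
theorem rsq_aux (hm : P.m = 0) {e : TM} (hg : Val P c.n z g) (hz : z.norm = z.l)
    (he : Val P c.n e fun τ ↦ ((1 : ℤ) : ℝ) - f τ * g τ * g τ) (ok : e.norm ≤ 2 ^ 63)
    (hp : ∀ τ ∈ P.I, 0 < g τ) :
    Val P c.n (z.widen (z.l * e.norm / 2 ^ 64 + 1)) fun τ ↦ 1 / √(f τ) := by
  refine (hg.widen _ (δ := fun τ ↦ 1 / √(f τ) - g τ) ?_).congr fun τ _ ↦ by ring
  rw [hm]
  intro τ hτ
  have g0 := hp τ hτ
  have h3 := he.bound hτ
  have h4 := hg.bound hτ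
  rw [hz, abs_of_pos g0] at h4
  have hε : (e.norm : ℝ) / 2 ^ 64 ≤ 1 / 2 := by
    have : (e.norm : ℝ) ≤ 2 ^ 63 := by exact_mod_cast ok
    rw [div_le_iff₀ (by positivity)]; linarith
  have h5 := nat_div_bound (z.l * e.norm)
  set ε := (e.norm : ℝ) / 2 ^ 64 with hε'
  push_cast at h3
  obtain ⟨h6, h7⟩ := abs_le.1 h3
  have f0 : 0 < f τ := by
    by_contra hf
    nlinarith [mul_nonneg (neg_nonneg.2 (not_lt.1 hf)) (mul_self_nonneg (g τ))]
  have s0 := Real.sqrt_pos.2 f0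
  have s1 := Real.mul_self_sqrt f0.le
  set s := √(f τ)
  have q1 : 7 / 10 ≤ s * g τ := by
    by_contra hq
    have : 0 < s * g τ := by positivity
    have e1 : f τ * g τ * g τ = (s * g τ) * (s * g τ) := by rw [← s1]; ring
    rw [e1] at h7
    generalize s * g τ = x at *
    nlinarith
  have q2 : |1 - s * g τ| ≤ ε * (s * g τ) := by
    have e1 : (1 - s * g τ) * (1 + s * g τ) = 1 - f τ * g τ * g τ := by rw [← s1]; ring
    have e2 : |1 - s * g τ| * (1 + s * g τ) ≤ ε := by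
      rw [← abs_of_pos (show 0 < 1 + s * g τ by linarith), ← abs_mul, e1]; exact h3
    have ε0 : 0 ≤ ε := by positivity
    have : |1 - s * g τ| * (1 + s * g τ) ≤ ε * (s * g τ) * (1 + s * g τ) := by
      nlinarith [mul_nonneg ε0 (show 0 ≤ s * g τ * (1 + s * g τ) - 1 by nlinarith)]
    exact le_of_mul_le_mul_right this (by linarith)
  have q3 : |1 / s - g τ| ≤ ε * g τ := by
    rw [show 1 / s - g τ = (1 - s * g τ) / s by field_simp, abs_div, abs_of_pos s0,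
      div_le_iff₀ s0]
    linarith
  refine q3.trans ?_
  rw [le_div_iff₀ (by positivity), Nat.cast_add, Nat.cast_one]
  refine le_trans ?_ h5
  calc ε * g τ * 2 ^ 64 ≤ ε * (z.l / 2 ^ 64) * 2 ^ 64 := by gcongr
    _ = _ := by rw [hε']; push_cast; field_simp

theorem rsq (hm : P.m = 0) {M : ℕ} (hM : Msk P c M) (h : Val P c.n a f)
    (ok : (TM.rsq c M a).1 = true) : Val P c.n (TM.rsq c M a).2 fun τ ↦ 1 / √(f τ) := by
  obtain ⟨g1, h1⟩ := hint G hM h
  obtain ⟨g2, h2⟩ := nsq G h (mul G h1 (cst G (TM.isq (2 ^ 192 / (TM.coef c a 0).toNat) 50)))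
  obtain ⟨g, hg⟩ := nsq G h h2
  unfold TM.rsq at ok ⊢
  dsimp only at ok ⊢
  generalize TM.nsq c a (TM.mul c (TM.hint c M a)
    (TM.cst (TM.isq (2 ^ 192 / (TM.coef c a 0).toNat) 50))) = y at *
  have hz : (TM.nsq c a y).norm = (TM.nsq c a y).l := by unfold TM.nsq; exact exact_norm _
  generalize TM.nsq c a y = z at *
  have he := tight G ((int G 1).sub (mul G (mul G h hg) hg))
  generalize TM.tight c ((TM.int 1).sub (TM.mul c (TM.mul c a z) z)) = e at *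
  rw [Bool.and_eq_true] at ok
  exact rsq_aux hm hg hz he (of_decide_eq_true ok.1) fun τ hτ ↦ posN G hM hg ok.2 hτ

theorem tri0 (h : Val P c.n z f) {C : ℝ} (hC : Nm P.I P.m f C) (hC1 : C ≤ 1) :
    Val P c.n (TM.tri0 c z).e (fun τ ↦ Real.exp (f τ)) ∧
      Val P c.n (TM.tri0 c z).p1 (fun τ ↦ ph1 (f τ)) ∧
      Val P c.n (TM.tri0 c z).p2 fun τ ↦ ph2 (f τ) := by
  have h1 : List.Forall₂ (Val P c.n) ((List.range 12).map fun n ↦ TM.inv (TM.fact (n + 2)))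
      ((List.range 12).map fun n _ ↦ 1 / (TM.fact (n + 2) : ℝ)) := by
    rw [List.forall₂_map_left_iff, List.forall₂_map_right_iff, List.forall₂_same]
    exact fun n _ ↦ inv G _
  have hN : Nm P.I P.m (fun τ ↦ ph2 (f τ) - ∑ n ∈ range 12, f τ ^ n / (n + 2).factorial)
      (2 * (z.norm / 2 ^ 64) ^ 12 / (14 : ℕ).factorial) := by
    by_cases hz : (z.norm : ℝ) / 2 ^ 64 ≤ 1
    · exact h.norm.ph2_rem P.hI P.h0 hz
    · refine (hC.ph2_rem P.hI P.h0 hC1).mono ?_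
      have := hC.c_le P.hI P.h0
      gcongr; linarith
  have h2 := (horner G h h1).widen (2 * z.norm ^ 12 / 2 ^ (64 * 11) / TM.fact 14 + 1) (hN.mono (by
    have h5 := Nat.lt_floor_add_one (((2 * z.norm ^ 12 : ℕ) : ℝ) /
      ((2 ^ (64 * 11) * TM.fact 14 : ℕ) : ℝ))
    rw [Nat.floor_div_eq_div, ← Nat.div_div_eq_div_mul] at h5
    rw [le_div_iff₀ (by positivity), Nat.cast_add, Nat.cast_one]
    refine le_trans (le_of_eq ?_) h5.le
    rw [fact_eq, Nat.cast_mul, Nat.cast_mul, Nat.cast_pow, Nat.cast_pow, div_pow, ← pow_mul,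
      show 64 * 12 = 64 * 11 + 64 by norm_num, pow_add, Nat.cast_ofNat]
    generalize (2 : ℝ) ^ (64 * 11) = A
    field_simp))
  have h3 : Val P c.n (TM.tri0 c z).p2 fun τ ↦ ph2 (f τ) := h2.congr fun τ _ ↦ by
    simp only [List.range_succ, List.range_zero, List.map_cons, List.map_nil,
      List.nil_append, List.cons_append, hornerR, sum_range_succ, range_zero, sum_empty, fact_eq]
    ring
  have h4 : Val P c.n (TM.tri0 c z).p1 fun τ ↦ ph1 (f τ) :=
    ((int G 1).add (mul G h h3)).congr fun τ _ ↦ by simp [ph1]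
  exact ⟨((int G 1).add (mul G h h4)).congr fun τ _ ↦ by simp [exp_eq_ph], h4, h3⟩

theorem dbls {t : TM.Tri} (h1 : Val P c.n t.e fun τ ↦ Real.exp (f τ))
    (h2 : Val P c.n t.p1 fun τ ↦ ph1 (f τ)) (h3 : Val P c.n t.p2 fun τ ↦ ph2 (f τ)) : ∀ k,
    Val P c.n (TM.dbls c t k).e (fun τ ↦ Real.exp (2 ^ k * f τ)) ∧
      Val P c.n (TM.dbls c t k).p1 (fun τ ↦ 2 ^ k * ph1 (2 ^ k * f τ)) ∧
      Val P c.n (TM.dbls c t k).p2 fun τ ↦ 4 ^ k * ph2 (2 ^ k * f τ)
  | 0 => by simpa [TM.dbls] using ⟨h1, h2, h3⟩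
  | k + 1 => by
    obtain ⟨a, b, d⟩ := dbls h1 h2 h3 k
    have e : ∀ τ, 2 ^ (k + 1) * f τ = 2 * (2 ^ k * f τ) := fun τ ↦ by ring
    refine ⟨(mul G a a).congr fun τ _ ↦ by rw [e, two_mul, Real.exp_add],
      (mul G b (a.add (int G 1))).congr fun τ _ ↦ ?_,
      ((mul G b b).add (d.smul 2)).congr fun τ _ ↦ ?_⟩
    · rw [e]; push_cast; linear_combination 2 ^ k * ph1_dbl (2 ^ k * f τ)
    · rw [e, show (4 : ℝ) = 2 ^ 2 by norm_num, ← pow_mul, ← pow_mul]; push_cast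
      linear_combination 2 ^ (2 * k) * ph2_dbl (2 ^ k * f τ)

theorem tri (h : Val P c.n z f) {k : ℕ} (hk : z.norm ≤ 2 ^ (64 + k)) :
    Val P c.n (TM.tri c k z).e (fun τ ↦ Real.exp (f τ)) ∧
      Val P c.n (TM.tri c k z).p1 (fun τ ↦ ph1 (f τ)) ∧
      Val P c.n (TM.tri c k z).p2 fun τ ↦ ph2 (f τ) := by
  have h1 := mul G h (inv G (2 ^ k))
  obtain ⟨a, b, d⟩ := tri0 G h1 ((h.norm.smul (1 / 2 ^ k)).congr fun τ _ ↦ by push_cast; ring) (by
    have : (z.norm : ℝ) ≤ 2 ^ 64 * 2 ^ k := by rw [← pow_add]; exact_mod_cast hk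
    rw [abs_of_pos (by positivity), one_div_mul_eq_div, div_div, div_le_one (by positivity)]
    exact this)
  obtain ⟨a, b, d⟩ := dbls G a b d k
  have e : ∀ τ, 2 ^ k * (f τ * (1 / ((2 ^ k : ℕ) : ℝ))) = f τ := fun τ ↦ by push_cast; field_simp
  simp only [e] at a b d
  exact ⟨a, (mul G b (inv G (2 ^ k))).congr fun τ _ ↦ by push_cast; field_simp,
    (mul G d (inv G (4 ^ k))).congr fun τ _ ↦ by push_cast; field_simp⟩

end Val

end Pool.Agent.Lib.MP_d6150d_an
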