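import Pool.Agent.Lib.MP_d6150d_an.S7B

/-! The cell `7 / 16 ≤ F ≤ 1 / 2`, `-2 / 5 ≤ D < 0`: the operator of order two, the separator and
the scaled identities. -/

namespace Pool.Agent.Lib.MP_d6150d_an.U23

open Real Set Filter Topology Asymptotics

/-- the coefficients of the operator and of the separator -/
structure Co where
  p1 : ℝ
  q1 : ℝ
  r1 : ℝ
  p2 : ℝ
  q2 : ℝ
  r2 : ℝ
  p3 : ℝ
  n0 : ℝ
  n1 : ℝ
  n2 : ℝ

namespace Co

variable (k : Co)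

def o : Gp := ⟨0, 0, 0, k.p1, k.q1, k.r1, k.p2, k.q2, k.r2, k.p3, 0, 0⟩

noncomputable def X (v : ℝ) : ℝ := (k.n0 + k.n1 * v + k.n2 * v ^ 2) * (1 + v / 16)⁻¹ ^ 3

/-- the kernel minus the separator -/
noncomputable def De (D F t : ℝ) : ℝ :=
  F * k.o.K D F t + k.o.C0 (vR D F t) - vR D F t ^ 2 * k.X (vR D F t)

def B (F P Q R Y W v : ℝ) : ℝ :=
  16 * (k.p1 + v * (k.p2 + v * k.p3)) * (Y ^ 4 * (pjR F P Q R).2.2) +
    (104 * k.p1 + 8 * k.q1 + v * (112 * k.p2 + 8 * k.q2 + v * (128 * k.p3))) *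
      (Y ^ 3 * (pjR F P Q R).2.1 * W ^ 2) +
    (132 * k.p1 + 24 * k.q1 + 4 * k.r1 + v * (160 * k.p2 + 28 * k.q2 + 4 * k.r2 +
      v * (216 * k.p3))) * (Y ^ 2 * (pjR F P Q R).1 * W ^ 4) +
    (18 * k.p1 + 6 * k.q1 + 2 * k.r1 + v * (28 * k.p2 + 10 * k.q2 + 4 * k.r2 + v * (48 * k.p3))) *
      (Y * W ^ 6)

/-- the kernel in reduced variables -/
def Th (v n a c d : ℝ) : ℝ :=
  (k.p1 + v * (k.p2 + v * k.p3)) * ((1 + n) ^ 4 * (15 * a ^ 3 - 20 * a * c +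
      d * (10 * a ^ 2 - 6 * c) + d ^ 2 * a) + (1 + n) ^ 3 * (a ^ 2 * (7 + 55 * n) - 32 * n * c +
      d * a * (14 * n - 2)) + (1 + n) ^ 2 * a * n * (4 + 58 * n) + n ^ 3 * (12 + 15 * n)) +
    ((k.q2 - 2 * k.p2) * v + (k.q1 - 3 * k.p1)) * ((1 + n) ^ 3 * (2 * c - 3 * a ^ 2 - d * a) -
      7 * n * a * (1 + n) ^ 2 - n ^ 2 * (2 + 3 * n)) +
    (k.r2 * v + (k.r1 - k.q1)) * ((1 + n) ^ 2 * a + n ^ 2) + k.r1 * n

variable {k} {D F t : ℝ}

theorem hom (hF : F ≠ 0) (ht : t ∈ JR D) (h0 : t ≠ 0)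
    {l s P Q R Y W : ℝ} (hs : s ≠ 0) (hP : P = l * PR D t) (hQ : Q = l * QR D t) (hR : R = l * D)
    (hY : s ^ 2 * Y = l * yR D F t) (hW : s * W = l * wR D t) :
    W ^ 7 * k.De D F t = exp (F * t) * vR D F t * (s * (F * k.B F P Q R Y W (vR D F t)) -
      W ^ 7 * vR D F t * (k.p2 + k.q2 + k.r2 + 3 * k.p3 * vR D F t +
        exp (-(F * t)) * k.X (vR D F t))) := by
  have hw := wR_ne ht h0
  have hu : uR F t = (exp (F * t) - 1) / F := by rw [← F_mul_u]; field_simp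
  have he := (exp_pos (F * t)).ne'
  obtain rfl : Y = l * yR D F t / s ^ 2 := by rw [← hY]; field_simp
  obtain rfl : W = l * wR D t / s := by rw [← hW]; field_simp
  subst hP hQ hR
  rw [De, Gp.K_eq ht h0, hu, exp_neg]
  simp only [o, B, Gp.P, Gp.C3, Gp.C2, Gp.C1, Gp.C0, pjR_smul, U1, U2, U3, U4]
  generalize k.X _ = x
  generalize pjR _ _ _ _ = J
  field_simp
  ring

theorem idT (hF : F ≠ 0) {P Q R Y W v n a c d : ℝ} (hW : W = P - Q + R)
    (hn : 2 * F * Y = (1 + n) * W) (ha : Q - 2 * R = a * F * W) (hc : R = c * F ^ 2 * W)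
    (hd : F * d = 1 - 2 * F) : F * k.B F P Q R Y W v -
      W ^ 7 * v * (k.p2 + k.q2 + k.r2 + 3 * k.p3 * v) = -(W ^ 7 * k.Th v n a c d) := by
  obtain rfl : P = W * (1 + a * F + c * F ^ 2) := by linear_combination -hW + ha + hc
  obtain rfl : Q = W * (a * F + 2 * c * F ^ 2) := by linear_combination ha + 2 * hc
  have hR : R = W * (c * F ^ 2) := by linear_combination hc
  obtain rfl : Y = (1 + n) * W / (2 * F) := by rw [← hn]; field_simp
  obtain rfl : d = (1 - 2 * F) / F := by rw [← hd]; field_simp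
  clear hW hn ha hc hd
  subst hR
  simp only [B, pjR_smul]
  simp only [pjR, Th]
  field_simp
  ring

theorem theta (hF : F ≠ 0) (ht : t ∈ JR D) (h0 : t ≠ 0) {n a c d : ℝ}
    (hn : 2 * F * yR D F t = (1 + n) * wR D t) (ha : QR D t - 2 * D = a * F * wR D t)
    (hc : D = c * F ^ 2 * wR D t) (hd : F * d = 1 - 2 * F) :
    k.De D F t = -(vR D F t * (exp (F * t) * k.Th (vR D F t) n a c d +
      vR D F t * k.X (vR D F t))) := by
  have h1 := idT (k := k) (v := vR D F t) hF (rfl : wR D t = _) hn ha hc hd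
  have h2 := hom (k := k) hF ht h0 (l := 1) one_ne_zero (one_mul _).symm (one_mul _).symm
    (one_mul _).symm (Y := yR D F t) (by ring) (W := wR D t) rfl
  have h3 : exp (F * t) * exp (-(F * t)) = 1 := by rw [← exp_add]; simp
  apply mul_left_cancel₀ (pow_ne_zero 7 (wR_ne ht h0))
  rw [h2]
  linear_combination exp (F * t) * vR D F t * h1 -
    wR D t ^ 7 * vR D F t ^ 2 * k.X (vR D F t) * h3

variable (k D F)

/-- the expression used on both sides of the center -/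
noncomputable def GC (P Q R Y W t : ℝ) : ℝ := F * k.B F P Q R Y W (t ^ 2 * muR D F t) -
  W ^ 7 * (t * muR D F t) * (k.p2 + k.q2 + k.r2 + 3 * k.p3 * (t ^ 2 * muR D F t) +
    exp (-(F * t)) * k.X (t ^ 2 * muR D F t))

noncomputable def GR (t : ℝ) : ℝ := k.GC D F (1 + D) ((1 + 2 * D) * exp (-t)) (D * exp (-t) ^ 2)
  (muR D F t * exp (-(F * t)) ^ 2 / 2) (ph1 (-t) * (1 + D - D * exp (-t))) t

noncomputable def GM (t : ℝ) : ℝ := k.GC D F ((1 + D) * exp t) (1 + 2 * D) (D * exp (-t))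
  (muR D F t * exp ((1 - 2 * F) * t) / 2) (ph1 t * (1 + D - D * exp (-t))) t

variable {k D F}

theorem eR (hF : F ≠ 0) (ht : t ∈ JR D) (h0 : t ≠ 0) :
    (ph1 (-t) * (1 + D - D * exp (-t))) ^ 7 * k.De D F t =
      exp (F * t) * vR D F t * t * k.GR D F t := by
  have h1 : exp (-t) * exp t = 1 := by rw [← exp_add]; simp
  have h2 : exp (-t) ^ 2 * exp ((2 - 2 * F) * t) = exp (-(F * t)) ^ 2 := by
    rw [sq, sq, ← exp_add, ← exp_add, ← exp_add]; ring_nf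
  have h3 := exp_eq_ph (-t)
  rw [hom hF ht h0 (l := exp (-t) ^ 2) h0 (P := 1 + D) (Q := (1 + 2 * D) * exp (-t))
    (R := D * exp (-t) ^ 2) (Y := muR D F t * exp (-(F * t)) ^ 2 / 2)
    (by rw [PR]; linear_combination (-(1 + D) * (1 + exp (-t) * exp t)) * h1)
    (by rw [QR]; linear_combination (-(1 + 2 * D) * exp (-t)) * h1) (by ring)
    (by rw [yR, vR, ← h2]; ring) (by
      rw [wR_eq, om]
      linear_combination (1 + D - D * exp (-t)) * h3 -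
        ((1 + D) * (1 + exp (-t) * exp t) - (1 + 2 * D) * exp (-t)) * h1)]
  simp only [GR, GC, vR]; ring

theorem eL (hF : F ≠ 0) (ht : t ∈ JR D) (h0 : t ≠ 0) :
    (ph1 t * (1 + D - D * exp (-t))) ^ 7 * k.De D F t =
      exp (F * t) * vR D F t * t * k.GM D F t := by
  have h1 : exp (-t) * exp t = 1 := by rw [← exp_add]; simp
  have h2 : exp (-t) * exp ((2 - 2 * F) * t) = exp ((1 - 2 * F) * t) := by
    rw [← exp_add]; ring_nf
  rw [hom hF ht h0 (l := exp (-t)) h0 (P := (1 + D) * exp t) (Q := 1 + 2 * D)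
    (R := D * exp (-t)) (Y := muR D F t * exp ((1 - 2 * F) * t) / 2)
    (by rw [PR]; linear_combination (-(1 + D) * exp t) * h1)
    (by rw [QR]; linear_combination (-(1 + 2 * D)) * h1) (by ring)
    (by rw [yR, vR, ← h2]; ring) (by
      rw [wR_eq, om]
      linear_combination -(1 + D - D * exp (-t)) * exp_eq_ph t - (1 + D) * (exp t - 1) * h1)]
  simp only [GM, GC, vR]; ring

theorem divO {G W : ℝ → ℝ} (hW : ContinuousAt W 0) (e : ∀ t ∈ JR D, t ≠ 0 →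
    W t ^ 7 * k.De D F t = exp (F * t) * vR D F t * t * G t)
    (h : k.De D F =O[𝓝 0] fun t ↦ t ^ 5) : G =O[𝓝[≠] 0] fun t ↦ t ^ 2 := by
  have c : ContinuousAt (fun t ↦ W t ^ 7 / (exp (F * t) * muR D F t)) 0 :=
    (hW.pow 7).div (ContinuousAt.mul (by fun_prop) (muR_an D F 0).continuousAt)
      (by simp [muR_zero])
  refine ((((c.isBigO_one ℝ).mul h).mono nhdsWithin_le_nhds).mul
    (isBigO_refl (fun t : ℝ ↦ (t ^ 3)⁻¹) _)).congr' ?_ ?_
  · filter_upwards [self_mem_nhdsWithin,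
      nhdsWithin_le_nhds ((JR_open D).mem_nhds (zero_mem_JR D))] with t h0 ht
    have h0 : t ≠ 0 := h0
    have h1 := e t ht h0
    have h2 := (muR_pos (F := F) ht).ne'
    rw [vR] at h1
    field_simp
    linear_combination h1
  · filter_upwards [self_mem_nhdsWithin] with t h0
    have h0 : t ≠ 0 := h0
    field_simp

theorem den (ht : t ∈ JR D) : 0 < 1 + vR D F t / 16 := by
  have : 0 ≤ vR D F t := gR_sq (F := F) ht ▸ sq_nonneg _
  positivity

theorem O5 (h4 : k.n0 = F * (9 * k.p1 + 3 * k.q1 + k.r1) * (1 - F - 2 * D) / 3 -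
    (k.p2 + k.q2 + k.r2)) : k.De D F =O[𝓝 0] fun t ↦ t ^ 5 := by
  obtain ⟨a6, J⟩ := k.o.K_jet (D := D) (F := F)
  refine ((((Jet.const F).mul J).cast (by ring) (by ring) (by ring) (by simp [o])
    (b4 := k.n0 + (k.p2 + k.q2 + k.r2)) (by simp only [o, h4, ja2]; ring) rfl rfl).center5
    (E := fun v ↦ 3 * k.p3 + (k.n1 - 3 / 16 * k.n0 + (k.n2 - 3 / 256 * k.n0) * v -
      k.n0 / 4096 * v ^ 2) * (1 + v / 16)⁻¹ ^ 3)
    (by fun_prop (disch := simp))).congr' ?_ EventuallyEq.rfl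
  filter_upwards [(JR_open D).mem_nhds (zero_mem_JR D)] with t ht
  have h3 : (1 + vR D F t / 16)⁻¹ ^ 3 * (1 + vR D F t / 16) ^ 3 = 1 := by
    rw [← mul_pow, inv_mul_cancel₀ (den ht).ne', one_pow]
  simp only [De, X, o, Gp.C0]
  linear_combination vR D F t ^ 2 * k.n0 * h3

theorem OR (hF : F ≠ 0) (h : k.De D F =O[𝓝 0] fun t ↦ t ^ 5) :
    k.GR D F =O[𝓝[>] 0] fun t ↦ t ^ 2 :=
  (divO (((ph1_an _).continuousAt.comp (f := fun t : ℝ ↦ -t) (by fun_prop)).mul (by fun_prop))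
    (fun _ ↦ eR hF) h).mono (nhdsGT_le_nhdsNE 0)

theorem OL (hF : F ≠ 0) (h : k.De D F =O[𝓝 0] fun t ↦ t ^ 5) :
    (fun s ↦ k.GM D F (-s)) =O[𝓝[>] 0] fun t ↦ t ^ 2 := by
  have h1 : Tendsto (fun s : ℝ ↦ -s) (𝓝[>] 0) (𝓝[≠] 0) := by
    simpa using (tendsto_neg_nhdsGT (a := (0 : ℝ))).mono_right (nhdsLT_le_nhdsNE _)
  exact ((divO ((ph1_an _).continuousAt.mul (by fun_prop)) (fun _ ↦ eL hF) h).comp_tendsto
    h1).congr_right fun s ↦ even_two.neg_pow s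

theorem posR (hF : F ≠ 0) (ht : t ∈ JR D) (h0 : 0 < t) (h : 0 < k.GR D F t) : 0 < k.De D F t := by
  have := vR_pos (F := F) ht h0.ne'
  refine (mul_pos_iff_of_pos_left (pow_pos (mul_pos (ph1_pos (-t)) (memJ_iff.1 ht)) 7)).1 ?_
  rw [eR hF ht h0.ne']; positivity

theorem negL (hF : F ≠ 0) (ht : t ∈ JR D) (h0 : t < 0) (h : 0 < k.GM D F t) : k.De D F t < 0 := by
  have := vR_pos (F := F) ht h0.ne
  refine neg_of_mul_neg_left ?_ (pow_pos (mul_pos (ph1_pos t) (memJ_iff.1 ht)) 7).le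
  rw [mul_comm, eL hF ht h0.ne]
  exact mul_neg_of_neg_of_pos (mul_neg_of_pos_of_neg (by positivity) h0) h

theorem noThree (hF : 0 < F) (hP : ∀ v, 0 < v → 0 < k.p1 + v * (k.p2 + v * k.p3)) (h1 : k.r1 ≤ 0)
    (h2 : k.r2 ≤ 0) (hL : ∀ a ∈ JR D, a < 0 → k.De D F a < 0)
    (hR : ∀ b ∈ JR D, 0 < b → 0 < k.De D F b) : NoThree D F :=
  CritG.noThree ⟨k.o, 1, fun _ ↦ 0, fun _ ↦ 0, fun a ha b hb a0 b0 e ↦ by
    have v0 := vR_pos (F := F) hb b0.ne'
    refine ⟨hasDerivAt_const _ _, (mul_pos v0 (hP _ v0)).trans_eq ?_, ?_, ?_⟩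
    · simp only [o, Gp.P]; ring
    · have := mul_nonpos_of_nonpos_of_nonneg h1 v0.le
      have := mul_nonpos_of_nonpos_of_nonneg h2 (sq_nonneg (vR D F b))
      simp only [o, Gp.S]; linarith
    · have p1 := hL a ha a0
      have p2 := hR b hb b0
      rw [De] at p1 p2
      rw [e] at p1
      rw [one_mul, one_mul]
      exact lt_of_mul_lt_mul_left (by linarith) hF.le⟩

end Co

end Pool.Agent.Lib.MP_d6150d_an.U23
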