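import Pool.Agent.Lib.MP_d6150d_an.U23G1

/-! The cell `7 / 16 ≤ F ≤ 1 / 2`, `-2 / 5 ≤ D < 0`: the forms used far from the center. -/

namespace Pool.Agent.Lib.MP_d6150d_an.U23

open Real Set

namespace Co

variable (k : Co)

def RU (dl w M m A : ℝ) : ℝ :=
  let n := w * m
  let N := 1 + n
  let L := A * N ^ 3 * (2 - dl * N)
  k.p3 * M ^ 2 * L

def RG (p κ x dl w z r M m A B : ℝ) : ℝ :=
  let n := w * m
  let N := 1 + n
  let Z2 := N ^ 2 * (N * (κ * p * (N * (r * A * (15 * A ^ 2 - 20 * B) + dl * (10 * A ^ 2 - 6 * B)) +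
    A ^ 2 * (7 + 55 * n) - 32 * n * B) + 14 * dl * A * m) + A * m * (4 + 58 * n)) +
    x * m ^ 3 * (12 + 15 * n)
  let Z1 := N ^ 2 * (N * (r * (2 * B - 3 * A ^ 2) - dl * A) - 7 * n * A) - x * m ^ 2 * (2 + 3 * n)
  let Z0 := N ^ 2 * A + x * m ^ 2
  let L := A * N ^ 3 * (2 - dl * N)
  κ * ((k.p2 * M + k.p1 * z) * dl * L - ((k.q2 - 2 * k.p2) * M + (k.q1 - 3 * k.p1) * z) * Z1 -
    (k.r2 * M + (k.r1 - k.q1) * z) * Z0 - k.r1 * m * κ * x) -
    (k.p3 * M ^ 2 + z * (k.p2 * M + k.p1 * z)) * Z2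

noncomputable def RE (κ z M : ℝ) : ℝ :=
  κ * M * (k.n0 * z ^ 2 + k.n1 * z * M + k.n2 * M ^ 2) * (z + M / 16)⁻¹ ^ 3

def LG (g x ee gh xh ah ch oh : ℝ) : ℝ :=
  let a := ee * ah
  let c := ee * ch
  let o := ee * oh
  let f := 1 - g
  let h := 1 - x
  let Z2 := xh * (xh * (x * (3 * x - 36) - 72) + gh * (8 + x * (144 + 24 * x))) +
    gh ^ 2 * (4 - x * (36 + 54 * x) + g * (16 * x - g)) +
    f * (ah * (8 - g * (22 - 11 * g) + x * (100 - 64 * g + 54 * x) +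
      a * (25 * g - 37 - 48 * x + 15 * a)) + (2 - g) * ch * (16 - 14 * g + 32 * x - 20 * a))
  let Z1 := x * (8 + x * (8 - x) - g * (18 + 5 * x)) + g ^ 2 * (2 + 7 * x - g) +
    f * (a * (3 * a - 6 + 4 * g - 7 * x) - 2 * c * (2 - g))
  let Z0 := g * (2 + 2 * x - g) - x * (4 - x) + a * f
  (k.p3 + o * (k.p2 + o * k.p1)) * Z2 + oh * h * ((k.q2 - 2 * k.p2 + (k.q1 - 3 * k.p1) * o) * Z1 +
    h * ((k.r2 + (k.r1 - k.q1) * o) * Z0 - k.r1 * o * h * (f + h)))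

def LN (o : ℝ) : ℝ := k.n2 + o * (k.n1 + o * k.n0)

noncomputable def LE (o : ℝ) : ℝ := k.LN o * (o + 1 / 16)⁻¹ ^ 3

variable {k} {D F t : ℝ}

theorem idR {p κ x dl w z r M m A B v : ℝ} (hw : w = p * κ * x) (hz : z = κ * w) (hr : r = z * p)
    (hM : M = v * z) : -k.Th v (w * m) (r * A) (r ^ 2 * B) dl * z ^ 2 =
      r * (dl * k.RU dl w M m A + w * k.RG p κ x dl w z r M m A B) := by
  have h1 : w ^ 2 = r * x := by rw [hr, hz, sq]; nth_rewrite 1 [hw]; ring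
  have h2 : r = w * (κ * p) := by rw [hr, hz]; ring
  have h3 : z ^ 2 = r * (κ * (κ * x)) := by rw [hr, sq]; nth_rewrite 2 [hz]; rw [hw]; ring
  subst hM
  simp only [Th, RU, RG]
  generalize 1 + w * m = N
  linear_combination (exp := 1)
    (-(z ^ 2 * ((k.p1 + v * (k.p2 + v * k.p3)) * (w * m ^ 3 * (12 + 15 * (w * m))) -
      ((k.q2 - 2 * k.p2) * v + (k.q1 - 3 * k.p1)) * (m ^ 2 * (2 + 3 * (w * m))) +
      (k.r2 * v + (k.r1 - k.q1)) * m ^ 2))) * h1 -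
    z ^ 2 * r * (k.p1 + v * (k.p2 + v * k.p3)) * N ^ 3 * (N * (r * A * (15 * A ^ 2 - 20 * B) +
      dl * (10 * A ^ 2 - 6 * B)) + A ^ 2 * (7 + 55 * (w * m)) - 32 * (w * m) * B) * h2 -
    k.r1 * w * m * h3 + r * z * ((k.p2 * v + k.p1) * dl * (A * N ^ 3 * (2 - dl * N)) -
      ((k.q2 - 2 * k.p2) * v + (k.q1 - 3 * k.p1)) * (N ^ 2 * (N * (r * (2 * B - 3 * A ^ 2) -
        dl * A) - 7 * (w * m) * A) - x * m ^ 2 * (2 + 3 * (w * m))) -
      (k.r2 * v + (k.r1 - k.q1)) * (N ^ 2 * A + x * m ^ 2)) * hz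

theorem idL {ε g x ee gh xh ah ch oh v n a c d : ℝ} (hg : g = ε * gh) (hx : x = ε * xh)
    (hee : ee = ε ^ 2) (hf : 1 - g ≠ 0) (hh : 1 - x ≠ 0) (hv : v * (ee * oh) = 1)
    (hn : (1 + n) * (1 - x) = -(1 - g)) (ha : a * (1 - g) = ee * ah - 2 * (2 - g))
    (hc : c * (1 - g) ^ 2 = (2 - g) * (2 - g + ee * ch - ee * ah)) (hd : d * (1 - g) = g) :
    k.Th v n a c d * (ee * oh * (1 - x) ^ 2) ^ 2 = ee * k.LG g x ee gh xh ah ch oh := by
  have h1 : ee * k.LG g x ee gh xh ah ch oh = k.LG g x 1 g x (ee * ah) (ee * ch) (ee * oh) := by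
    subst hg hx hee; simp only [LG]; ring
  rw [h1]
  clear h1 hg hx hee
  generalize ee * ah = A at *
  generalize ee * ch = C at *
  generalize ee * oh = o at *
  obtain ⟨f, rfl⟩ : ∃ f, g = 1 - f := ⟨1 - g, by ring⟩
  obtain ⟨h, rfl⟩ : ∃ h, x = 1 - h := ⟨1 - x, by ring⟩
  simp only [sub_sub_cancel] at *
  have ho : o ≠ 0 := right_ne_zero_of_mul_eq_one hv
  obtain rfl : v = 1 / o := by rw [← hv]; field_simp
  obtain rfl : n = -f / h - 1 := by field_simp; linear_combination hn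
  obtain rfl : a = (A - 2 * (1 + f)) / f := by field_simp; linear_combination ha
  obtain rfl : c = (1 + f) * (1 + f + C - A) / f ^ 2 := by field_simp; linear_combination hc
  obtain rfl : d = (1 - f) / f := by field_simp; linear_combination hd
  simp only [Th, LG]
  field_simp
  ring

theorem coreR {b p c κ x : ℝ} (hb : F = 1 / 2 - b) (F0 : 0 < F) (F1 : F < 1) (ht : t ∈ JR D)
    (h0 : 0 < t) (hp : p = exp (-(2 * b * t))) (hc : c = t * ph1 (-(2 * b * t))) (hκ : κ = c⁻¹)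
    (hx : x = exp ((4 * b - 1) * t) * c ^ 2) (H : ∀ i j dl w z r h W M m A B : ℝ, i = F⁻¹ →
      j = (1 - F)⁻¹ → dl = 2 * b * i → w = p * κ * x → z = κ * w → r = z * p → h = 1 + 2 * D →
      W = (1 + D - h * r + D * r ^ 2)⁻¹ →
      M = (1 + D) * (1 - z) * i - 2 * h * w + D * j * (z - r ^ 2) →
      m = (κ * (D * j * (F - r * p) - (1 + D) + h * p) - 2 * F * h) * W →
      A = i * (h - 2 * D * r) * W → B = D * i ^ 2 * W → 0 < w → z * exp (2 * F * t) = 1 →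
      0 < dl * k.RU dl w M m A + w * (k.RG p κ x dl w z r M m A B -
        k.RE κ z M * exp ((3 * b - 1 / 2) * t))) : 0 < k.De D F t := by
  have c0 : 0 < c := hc ▸ mul_pos h0 (ph1_pos _)
  have hκc : κ * c = 1 := hκ ▸ inv_mul_cancel₀ c0.ne'
  have κ0 : 0 < κ := hκ ▸ inv_pos.2 c0
  obtain ⟨i, hi⟩ : ∃ i, i = F⁻¹ := ⟨_, rfl⟩
  obtain ⟨j, hj⟩ : ∃ j, j = (1 - F)⁻¹ := ⟨_, rfl⟩
  have i1 : F * i = 1 := hi ▸ mul_inv_cancel₀ F0.ne'
  have j1 : (1 - F) * j = 1 := hj ▸ mul_inv_cancel₀ (sub_pos.2 F1).ne'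
  obtain ⟨w, hw⟩ : ∃ w, w = p * κ * x := ⟨_, rfl⟩
  obtain ⟨z, hz⟩ : ∃ z, z = κ * w := ⟨_, rfl⟩
  obtain ⟨r, hr⟩ : ∃ r, r = z * p := ⟨_, rfl⟩
  have z1 : z = exp (-(2 * F * t)) := by
    rw [show -(2 * F * t) = -(2 * b * t) + (4 * b - 1) * t by rw [hb]; ring, exp_add, ← hp, hz, hw,
      hx]
    linear_combination p * exp ((4 * b - 1) * t) * (κ * c + 1) * hκc
  have z2 : z * exp (2 * F * t) = 1 := by rw [z1, ← exp_add]; simp
  have r1 : r * exp t = 1 := by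
    rw [hr, z1, hp, ← exp_add, ← exp_add, ← exp_zero, hb]; ring_nf
  have r2 : r ^ 2 * exp ((2 - 2 * F) * t) = z := by
    rw [show (2 - 2 * F) * t = t + t + -(2 * F * t) by ring, exp_add, exp_add, ← z1]
    linear_combination z * (r * exp t + 1) * r1
  have r3 : z * exp ((2 * F - 2) * t) = r ^ 2 := by
    rw [← r2]; linear_combination r ^ 2 * exp_y (F := F) t
  have z0 : 0 < z := z1 ▸ exp_pos _
  have w0 : 0 < w := (mul_pos_iff_of_pos_left κ0).1 (hz ▸ z0)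
  have r0 : 0 < r := by rw [hr, hp]; positivity
  have hT : r ^ 2 * wR D t = 1 + D - (1 + 2 * D) * r + D * r ^ 2 := by
    rw [wR, PR, QR]
    linear_combination ((1 + D) * (r * exp t + 1) - (1 + 2 * D) * r) * r1
  obtain ⟨W, hW⟩ : ∃ W, W = (1 + D - (1 + 2 * D) * r + D * r ^ 2)⁻¹ := ⟨_, rfl⟩
  have W1 : W * (r ^ 2 * wR D t) = 1 := by
    rw [hW, ← hT]; exact inv_mul_cancel₀ (mul_ne_zero (pow_pos r0 2).ne' (wR_ne ht h0.ne'))
  have hM : (1 + D) * (1 - z) * i - 2 * (1 + 2 * D) * w + D * j * (z - r ^ 2) = vR D F t * z := by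
    have e1 := cexp (2 * F) t
    have e2 := cexp (2 * F - 2) t
    rw [vR_eq, show (2 * F - 1) * t = -(2 * b * t) by rw [hb]; ring, ← hc]
    generalize t * ph1 (2 * F * t) = a1 at e1 ⊢
    generalize t * ph1 ((2 * F - 2) * t) = a2 at e2 ⊢
    linear_combination -(1 + D) * i * z2 - (1 + D) * i * z * e1 + 2 * (1 + D) * a1 * z * i1 +
      2 * (1 + 2 * D) * c * hz + 2 * (1 + 2 * D) * w * hκc + D * j * r3 + D * j * z * e2 +
      2 * D * a2 * z * j1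
  have H := H i j _ w z r _ W _ _ _ _ hi hj rfl hw hz hr rfl hW rfl rfl rfl rfl w0 z2
  have I := idR (k := k) (dl := 2 * b * i) (A := i * (1 + 2 * D - 2 * D * r) * W)
    (m := (κ * (D * j * (F - r * p) - (1 + D) + (1 + 2 * D) * p) - 2 * F * (1 + 2 * D)) * W)
    (B := D * i ^ 2 * W) hw hz hr hM
  have T := theta (k := k) F0.ne' ht h0.ne' (d := 2 * b * i)
    (n := w * ((κ * (D * j * (F - r * p) - (1 + D) + (1 + 2 * D) * p) - 2 * F * (1 + 2 * D)) * W))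
    (a := r * (i * (1 + 2 * D - 2 * D * r) * W)) (c := r ^ 2 * (D * i ^ 2 * W))
    (mul_left_cancel₀ (pow_pos r0 2).ne' (by
      rw [yR]
      linear_combination F * vR D F t * r2 - F * hM - hT - w * (κ * (D * j * (F - r * p) - (1 + D) +
        (1 + 2 * D) * p) - 2 * F * (1 + 2 * D)) * W1 + (1 + D) * (1 - z) * i1 +
        (D * j * (F - r * p) - (1 + D) + (1 + 2 * D) * p) * hz + (1 + 2 * D - D * j * r) * hr +
        D * r ^ 2 * j1))
    (mul_left_cancel₀ (pow_pos r0 2).ne' (by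
      rw [QR]
      linear_combination (1 + 2 * D) * r * r1 - r * (1 + 2 * D - 2 * D * r) * (F * i * W1 + i1)))
    (by linear_combination -D * (F * i) ^ 2 * W1 - D * (F * i + 1) * i1)
    (by linear_combination 2 * b * i1 + 2 * hb)
  rw [hM] at H I
  have v0 := vR_pos (F := F) ht h0.ne'
  have hX : vR D F t * k.X (vR D F t) * z = w * k.RE κ z (vR D F t * z) := by
    have h1 := mul_inv_cancel₀ z0.ne'
    rw [X, RE, show z + vR D F t * z / 16 = z * (1 + vR D F t / 16) by ring, mul_inv]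
    generalize z⁻¹ = y at h1 ⊢
    linear_combination vR D F t * (k.n0 + k.n1 * vR D F t + k.n2 * vR D F t ^ 2) *
      (1 + vR D F t / 16)⁻¹ ^ 3 * ((z * y) ^ 3 * hz - z * ((z * y) ^ 2 + z * y + 1) * h1)
  have hu : exp (F * t) * p * exp ((3 * b - 1 / 2) * t) = 1 := by
    rw [hp, ← exp_add, ← exp_add, exp_eq_one_iff, hb]; ring
  refine (mul_pos_iff_of_pos_left (pow_pos z0 2)).1
    ((mul_pos (mul_pos (mul_pos v0 (exp_pos (F * t))) r0) H).trans_eq ?_)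
  rw [T]
  linear_combination -vR D F t * exp (F * t) * I + vR D F t * z * hX -
    vR D F t * w * k.RE κ z (vR D F t * z) * (exp (F * t) * exp ((3 * b - 1 / 2) * t) * hr + z * hu)

theorem coreL {b s n σ p c : ℝ} (hb : F = 1 / 2 - b) (F0 : 0 < F) (F1 : F < 1) (ht : -t ∈ JR D)
    (h0 : 0 < t) (hs : s = exp (-t)) (hD : D = s - n) (hσ : s = n * σ) (n0 : 0 < n)
    (hp : p = exp (-(2 * b * t))) (hc : c = t * ph1 (-(2 * b * t)))
    (H : ∀ G j i W al be V u I : ℝ, G = 1 - F → j = G⁻¹ → i = F⁻¹ → W = (1 - s) * (1 + D * σ) →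
      al = 2 * G * (1 + 2 * D) →
      be = n * (1 - p * (1 - σ)) - 1 - D + s * D - (1 + D) * (p - s) * G * i → V = W⁻¹ →
      u = σ * (al * c + be) → I = (W + u)⁻¹ → I * (W + u) = 1 → 0 < W * I →
      ∃ ε g x ee gh xh ah ch oh : ℝ, g = ε * gh ∧ x = ε * xh ∧ ee = ε ^ 2 ∧ g = 2 * b * j ∧
        x = u * I ∧ ee * ah = j * σ * (1 + 2 * D - 2 * (1 + D) * s) * V ∧
        ee * ch = -(j * (1 + D) * s * σ * V) ∧ ee * oh = G * σ * I * p ∧
        (0 < ee * oh → 0 < exp (-(F * t)) * (ee * k.LG g x ee gh xh ah ch oh) +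
          (ee * oh * (1 - x) ^ 2) ^ 2 * k.LE (ee * oh))) : k.De D F (-t) < 0 := by
  have t0 : -t ≠ 0 := by linarith
  have v0 := vR_pos (F := F) ht t0
  obtain ⟨i, hi⟩ : ∃ i, i = F⁻¹ := ⟨_, rfl⟩
  obtain ⟨j, hj⟩ : ∃ j, j = (1 - F)⁻¹ := ⟨_, rfl⟩
  have i1 : F * i = 1 := hi ▸ mul_inv_cancel₀ F0.ne'
  have j1 : (1 - F) * j = 1 := hj ▸ mul_inv_cancel₀ (sub_pos.2 F1).ne'
  have j0 : 0 < j := hj ▸ inv_pos.2 (sub_pos.2 F1)
  have s0 : 0 < s := hs ▸ exp_pos _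
  have p0 : 0 < p := hp ▸ exp_pos _
  have σ0 : 0 < σ := (mul_pos_iff_of_pos_left n0).1 (hσ ▸ s0)
  obtain ⟨W, hW⟩ : ∃ W, W = (1 - s) * (1 + D * σ) := ⟨_, rfl⟩
  have hw : wR D (-t) = -(n * W) := by
    rw [wR_eq, om, ← hs, hW]; linear_combination (1 - s) * hD - (1 - s) * D * hσ
  have W0 : 0 < W := by
    have h1 : 0 < om D (-t) := ht
    have h2 : s < 1 := hs ▸ exp_lt_one_iff.2 (by linarith)
    have h3 := mul_neg_of_neg_of_pos (sub_neg.2 h2) h1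
    rw [hs, ← wR_eq, hw] at h3
    exact (mul_pos_iff_of_pos_left n0).1 (by linarith)
  have V1 : W⁻¹ * W = 1 := inv_mul_cancel₀ W0.ne'
  have y1 : exp ((2 - 2 * F) * -t) = s * p := by rw [hs, hp, ← exp_add, hb]; ring_nf
  obtain ⟨u, hu⟩ : ∃ u, u = σ * (2 * (1 - F) * (1 + 2 * D) * c + (n * (1 - p * (1 - σ)) - 1 - D +
    s * D - (1 + D) * (p - s) * (1 - F) * i)) := ⟨_, rfl⟩
  have hv : W + u = vR D F (-t) * ((1 - F) * σ * p) := by
    have e1 := cexp (2 * F) (-t)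
    have e2 := cexp (2 * F - 2) (-t)
    have e3 : exp (2 * F * -t) * p = s := by rw [hs, hp, ← exp_add, hb]; ring_nf
    have e4 := exp_y (F := F) (-t)
    have e5 : -t * ph1 ((2 * F - 1) * -t) * p = -c := by
      have e6 : exp (2 * b * t) * exp (-(2 * b * t)) = 1 := by rw [← exp_add]; simp
      rw [ph1_neg, hp, hc, show (2 * F - 1) * -t = 2 * b * t by rw [hb]; ring]
      linear_combination -t * ph1 (-(2 * b * t)) * e6
    rw [y1] at e4
    apply mul_left_cancel₀ n0.ne'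
    rw [vR_eq, hu, hW]
    generalize -t * ph1 (2 * F * -t) = a1 at e1 ⊢
    generalize -t * ph1 ((2 * F - 2) * -t) = a2 at e2 ⊢
    generalize -t * ph1 ((2 * F - 1) * -t) = a3 at e5 ⊢
    generalize exp ((2 * F - 2) * -t) = a4 at e2 e4
    linear_combination (-(1 + D) * (1 - F) * i * n * σ) * (p * e1 + e3) +
      2 * (1 + D) * (1 - F) * n * σ * p * a1 * i1 + 2 * (1 + 2 * D) * (1 - F) * n * σ * e5 +
      D * n * σ * p * e2 + D * e4 - (D * p * a4 + n - 1 + n * σ * p) * hσ +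
      (1 - n * σ * p) * hD
  have Wu : 0 < W + u := by have := sub_pos.2 F1; rw [hv]; positivity
  have I1 : (W + u)⁻¹ * (W + u) = 1 := inv_mul_cancel₀ Wu.ne'
  obtain ⟨ε, g, x, ee, gh, xh, ah, ch, oh, e1, e2, e3, hg, hx, ha, hc', ho, H⟩ :=
    H _ j i W _ _ _ u _ rfl hj hi hW rfl rfl rfl hu rfl I1 (by positivity)
  have hf : 1 - g = F * j := by rw [hg]; linear_combination -j1 - 2 * j * hb
  have hg2 : 2 - g = j := by linear_combination hf - j1
  have hh : 1 - x = W * (W + u)⁻¹ := by rw [hx]; linear_combination -I1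
  have h1 : vR D F (-t) * (ee * oh) = 1 := by
    rw [ho]; linear_combination I1 - (W + u)⁻¹ * hv
  have o0 : 0 < ee * oh := (mul_pos_iff_of_pos_left v0).1 (h1 ▸ one_pos)
  have f0 : 0 < 1 - g := by rw [hf]; positivity
  have x0 : 0 < 1 - x := by rw [hh]; positivity
  have T := theta (k := k) F0.ne' ht t0 (n := -(1 - g) / (1 - x) - 1)
    (a := (ee * ah - 2 * (2 - g)) / (1 - g))
    (c := (2 - g) * (2 - g + ee * ch - ee * ah) / (1 - g) ^ 2) (d := g / (1 - g))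
    (by
      rw [yR, y1, hw, add_sub_cancel, div_mul_eq_mul_div, eq_div_iff x0.ne', hf, hh]
      linear_combination F * vR D F (-t) * p * W * (W + u)⁻¹ * hσ + F * j * n * W * I1 -
        F * j * n * W * (W + u)⁻¹ * hv - F * vR D F (-t) * n * σ * p * W * (W + u)⁻¹ * j1)
    (by
      rw [QR, ← hs, hw, div_mul_eq_mul_div, div_mul_eq_mul_div, eq_div_iff f0.ne', ha, hg2, hf]
      linear_combination F * j * (n * σ * (1 + 2 * D - 2 * (1 + D) * s) * V1 - 2 * n * hW +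
        (2 * s - 1) * hσ - 2 * (1 - s) * hD))
    (by
      rw [hw, div_mul_eq_mul_div, div_mul_eq_mul_div, eq_div_iff (pow_pos f0 2).ne', ha, hc', hg2,
        hf]
      linear_combination (F * j) ^ 2 * (n * hW + n * σ * ((1 + D) * s - (1 + 2 * D)) * V1 +
        (1 - s) * hD + (1 + D) * (1 - s) * hσ - D * (1 - s) * hσ + D * hσ))
    (by rw [← mul_div_assoc, div_eq_iff f0.ne', hf, hg]; linear_combination 2 * F * j * hb)
  have I := idL (k := k) (ah := ah) (ch := ch) e1 e2 e3 f0.ne' x0.ne' h1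
    (n := -(1 - g) / (1 - x) - 1)
    (by rw [add_sub_cancel, div_mul_cancel₀ _ x0.ne']) (div_mul_cancel₀ _ f0.ne')
    (div_mul_cancel₀ _ (pow_pos f0 2).ne') (div_mul_cancel₀ _ f0.ne')
  have hX : vR D F (-t) * k.X (vR D F (-t)) = k.LE (ee * oh) := by
    have := den (F := F) ht
    generalize ee * oh = o at h1 o0
    obtain rfl : o = 1 / vR D F (-t) := by rw [← h1]; field_simp
    rw [X, LE, LN]
    field_simp
    ring
  rw [T, neg_lt_zero, hX, mul_neg]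
  refine mul_pos v0 ((mul_pos_iff_of_pos_left (pow_pos (mul_pos o0 (pow_pos x0 2)) 2)).1
    ((H o0).trans_eq ?_))
  linear_combination -exp (-(F * t)) * I

end Co

end Pool.Agent.Lib.MP_d6150d_an.U23
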