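import Pool.Agent.Lib.MP_d6150d_an.GDef

/-! A generated chart: the program. -/

namespace Pool.Agent.Lib.MP_d6150d_an.U23a

def prog5 : List Ins := .cst 139 1000 :: .mul 0 233 :: .add true 2 0 :: .mul 252 0 :: .cst 1 3 ::
    .smul 9 176 :: .smul 3 78 :: .add false 1 0 :: .add true 0 39 :: .mul 235 0 :: .sub false 235
    216 :: .mul 1 0 :: .mul 7 0 :: .add false 188 91 :: .add false 0 49 :: .sub true 2 0 :: .mul 195
    0 :: .add true 13 0 :: .mul 197 0 :: .add false 20 0 :: .mul 27 0 :: .smul 1024 0 :: .cpy 0 ::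
    .cpy 31 :: []

def prog4 : List Ins := .smul 4 90 :: .add false 1 0 :: .sub true 0 9 :: .mul 67 0 :: .mul 183 51 ::
    .smul 2 0 :: .mul 0 58 :: .sub false 3 0 :: .mul 91 0 :: .add true 12 0 :: .mul 28 0 :: .cst
    (-317) 2000 :: .cst 73 250 :: .mul 0 195 :: .sub false 2 0 :: .cst (-233) 500 :: .cst 91 50 ::
    .mul 0 199 :: .add false 2 0 :: .sub true 0 41 :: .mul 0 149 :: .add true 6 0 :: .smul 2 137 ::
    .add false 76 0 :: .sub true 0 114 :: .mul 115 0 :: .sub false 121 141 :: .mul 142 0 :: .sub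
    false 2 0 :: .mul 93 112 :: .add false 1 0 :: .mul 9 0 :: .mul 13 161 :: .mul 0 66 :: .add false
    117 67 :: .mul 1 0 :: .sub true 4 0 :: .mul 70 0 :: .add true 27 0 :: .mul 71 0 :: .add false 74
    0 :: .smul 1024 0 :: .add false 216 237 :: .cst 1 256 :: .cst 497 2000 :: .cst 61 100 :: .mul 0
    228 :: .add true 2 0 :: .mul 4 0 :: .cst 131 2500 :: prog5

def prog3 : List Ins := .mul 0 119 :: .mul 0 28 :: .smul (-1) 0 :: .mul 5 0 :: .int 16 :: .smul 14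
    45 :: .sub false 1 0 :: .smul 32 72 :: .add false 1 0 :: .smul 20 23 :: .sub true 1 0 :: .mul 7
    0 :: .add false 16 0 :: .mul 46 0 :: .add false 48 0 :: .mul 82 0 :: .sub false 144 81 :: .mul
    97 0 :: .cst 1117 10000 :: .cst 39 100 :: .mul 0 152 :: .add false 2 0 :: .smul 2 97 :: .sub
    false 1 0 :: .cst (-89) 125 :: .cst 41 20 :: .mul 0 158 :: .sub false 2 0 :: .smul 3 99 :: .sub
    true 1 0 :: .mul 0 109 :: .add true 7 0 :: .sub false 87 97 :: .mul 98 0 :: .add false 89 0 ::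
    .int 18 :: .smul 5 101 :: .add false 1 0 :: .mul 78 0 :: .sub true 4 0 :: .mul 105 0 :: .mul 81
    81 :: .smul 7 107 :: .add false 46 0 :: .sub true 0 84 :: .mul 3 0 :: .add false 5 0 :: .smul 3
    61 :: .int 6 :: .sub false 1 0 :: prog4

def prog2 : List Ins := .mul 6 0 :: .add true 9 0 :: .mul 18 0 :: .mul 9 9 :: .int 4 :: .smul 54 20
    :: .add false 19 0 :: .mul 22 0 :: .sub false 3 0 :: .mul 101 15 :: .smul 16 25 :: .sub true 0 1
    :: .mul 2 0 :: .add false 4 0 :: .mul 10 0 :: .add false 12 0 :: .sub true 94 6 :: .mul 24 86 ::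
    .smul 2 62 :: .mul 0 81 :: .sub false 75 0 :: .mul 3 0 :: .inv 80 :: .mul 1 0 :: .int 22 ::
    .smul 11 15 :: .sub true 1 0 :: .mul 17 0 :: .sub false 33 0 :: .int 100 :: .smul 64 20 :: .sub
    false 1 0 :: .add true 0 26 :: .mul 48 0 :: .add false 5 0 :: .mul 114 11 :: .smul 25 26 :: .int
    37 :: .sub false 1 0 :: .smul 48 54 :: .sub false 1 0 :: .smul 15 5 :: .add true 1 0 :: .mul 7 0
    :: .add true 9 0 :: .mul 21 0 :: .int 2 :: .sub true 0 37 :: .mul 55 92 :: .mul 0 111 :: prog3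

def prog1 : List Ins := .mul 13 0 :: .sub false 0 29 :: .sub false 0 34 :: .mul 15 35 :: .add false
    1 0 :: .add true 33 37 :: .sub true 8 18 :: .mul 1 0 :: .mul 0 33 :: .inv 35 :: .mul 1 0 :: .sub
    true 6 0 :: .mul 54 0 :: .add true 17 0 :: .mul 33 0 :: .mul 57 0 :: .add false 24 0 :: .inv 0
    :: .mul 36 0 :: .mul 0 21 :: .mul 49 0 :: .cst (-9) 1000 :: .cst 511 10000 :: .mul 0 55 :: .sub
    false 2 0 :: .cst 31 200 :: .cst 193 500 :: .mul 0 59 :: .add true 2 0 :: .mul 8 0 :: .add true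
    5 0 :: .mul 10 0 :: .add false 62 0 :: .mul 18 15 :: .mul 76 0 :: .smul 3 0 :: .int 36 :: .sub
    false 1 0 :: .mul 3 0 :: .int 72 :: .sub false 1 0 :: .mul 7 0 :: .inv 67 :: .mul 46 0 :: .int 8
    :: .int 144 :: .smul 24 11 :: .add false 1 0 :: .mul 13 0 :: .add false 4 0 :: prog2

def prog : List Ins := .cst 1 16 :: .var 1 :: .cst 65 512 :: .cst 1 4 :: .var 2 :: .mul 1 0 :: .add
    false 3 0 :: .mul 5 0 :: .mul 0 3 :: .sub false 8 0 :: .cpy 0 :: .cst 81 500000 :: .cst 7 1000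
    :: .cst 1 5 :: .var 0 :: .smul 2 0 :: .mul 2 0 :: .smul (-1) 0 :: .mul 5 0 :: .sub false 7 0 ::
    .mul 12 12 :: .int 1 :: .cst 1 2 :: .sub true 0 14 :: .sub true 2 0 :: .var 3 :: .cst 1 128 ::
    .cst 1 8 :: .mul 0 13 :: .add false 2 0 :: .mul 4 0 :: .mul 6 0 :: .mul 11 1 :: .sub false 11 0
    :: .inv 0 :: .mul 17 0 :: .smul (-1) 0 :: .mul 0 4 :: .sub false 16 0 :: .mul 21 6 :: .add false
    18 0 :: .mul 2 0 :: .smul 2 17 :: .smul 2 25 :: .add true 22 0 :: .mul 2 0 :: .smul 2 41 :: .sub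
    true 25 0 :: .mul 0 14 :: .sub true 27 0 :: prog1

def vs : List Vr := [⟨2, 0, false, false⟩, ⟨2, 0, false, false⟩, ⟨2, 0, false, false⟩, ⟨2, 0, false,
    true⟩]

def C : Chart := ⟨vs, prog, [11], 2, 3⟩

end Pool.Agent.Lib.MP_d6150d_an.U23a
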