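import Pool.Agent.Lib.MP_d6150d_an.GDef

/-! A generated chart: the program. -/

namespace Pool.Agent.Lib.MP_d6150d_an.U23c

def prog4 : List Ins := .mul 8 0 :: .sub false 0 13 :: .cst 1 16 :: .cst 131 2500 :: .cst 139 1000
    :: .mul 0 191 :: .add true 2 0 :: .mul 4 0 :: .mul 0 169 :: .add false 7 0 :: .cst 1 256 :: .cst
    497 2000 :: .cst 61 100 :: .mul 0 199 :: .add true 2 0 :: .mul 4 0 :: .mul 177 177 :: .mul 1 0
    :: .add true 8 0 :: .mul 16 180 :: .add false 218 0 :: .inv 0 :: .mul 0 0 :: .mul 0 1 :: .mul 5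
    0 :: .mul 195 0 :: .add true 35 0 :: .mul 41 0 :: .sub false 47 0 :: .cpy 0 :: []

def prog3 : List Ins := .smul 4 0 :: .add false 5 0 :: .smul 216 105 :: .mul 114 0 :: .add true 2 0
    :: .mul 116 0 :: .add true 13 0 :: .mul 0 81 :: .mul 27 27 :: .mul 1 0 :: .add true 26 0 :: .mul
    128 0 :: .smul 18 125 :: .smul 6 51 :: .add false 1 0 :: .smul 2 24 :: .add false 1 0 :: .smul
    28 124 :: .smul 10 49 :: .add false 1 0 :: .add false 0 19 :: .smul 48 124 :: .mul 133 0 :: .add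
    true 2 0 :: .mul 135 0 :: .add true 8 0 :: .mul 17 45 :: .mul 1 0 :: .add true 16 0 :: .mul 146
    0 :: .mul 187 0 :: .mul 50 51 :: .mul 0 0 :: .mul 0 53 :: .mul 188 157 :: .mul 1 0 :: .add false
    143 67 :: .add false 0 37 :: .smul 3 141 :: .mul 0 150 :: .add false 2 0 :: .cst 1 3 :: .smul 9
    155 :: .smul 3 81 :: .add false 1 0 :: .add true 0 54 :: .mul 203 0 :: .sub false 195 204 ::
    .sub true 0 143 :: .mul 2 0 :: prog4

def prog2 : List Ins := .sub false 2 0 :: .add true 14 0 :: .mul 37 0 :: .mul 28 17 :: .smul 5 0 ::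
    .sub true 2 0 :: .mul 53 0 :: .smul 104 70 :: .cst (-89) 125 :: .cst 41 20 :: .mul 0 96 :: .sub
    false 2 0 :: .smul 8 0 :: .add false 5 0 :: .smul 112 71 :: .cst 1117 10000 :: .cst 39 100 ::
    .mul 0 103 :: .add false 2 0 :: .smul 8 0 :: .add false 5 0 :: .smul 128 74 :: .mul 83 0 :: .add
    true 2 0 :: .mul 85 0 :: .add true 11 0 :: .mul 0 40 :: .mul 113 69 :: .sub true 74 0 :: .mul 70
    0 :: .mul 0 0 :: .mul 4 0 :: .add true 25 0 :: .mul 100 0 :: .smul 132 97 :: .smul 24 23 :: .add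
    false 1 0 :: .cst (-233) 500 :: .cst 91 50 :: .mul 0 125 :: .add false 2 0 :: .smul 4 0 :: .add
    false 5 0 :: .smul 160 100 :: .smul 28 25 :: .add false 1 0 :: .cst (-317) 2000 :: .cst 73 250
    :: .mul 0 134 :: .sub false 2 0 :: prog3

def prog1 : List Ins := .add true 5 0 :: .mul 10 0 :: .add true 13 0 :: .smul 16 0 :: .mul 0 19 ::
    .add false 51 39 :: .smul 2 40 :: .add true 53 0 :: .smul (-1) 60 :: .tri 0 :: .mul 4 2 :: .sub
    false 7 0 :: .mul 4 4 :: .mul 49 0 :: .add true 2 0 :: .int 6 :: .smul 5 73 :: .sub true 1 0 ::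
    .int 4 :: .smul 3 76 :: .sub true 1 0 :: .sub true 54 78 :: .mul 0 7 :: .smul 2 19 :: .sub true
    0 13 :: .sub true 2 0 :: .mul 5 0 :: .mul 5 2 :: .smul 4 24 :: .sub true 0 18 :: .sub true 2 0
    :: .add false 4 0 :: .mul 17 0 :: .mul 8 7 :: .smul 3 0 :: .sub true 2 0 :: .mul 18 0 :: .smul 3
    6 :: .sub true 6 0 :: .mul 14 0 :: .mul 19 9 :: .mul 19 11 :: .smul 8 38 :: .sub false 0 32 ::
    .sub false 2 0 :: .add true 4 0 :: .mul 31 0 :: .add false 7 0 :: .mul 18 22 :: .smul 3 0 ::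
    prog2

def prog : List Ins := .var 1 :: .cst 1 2 :: .smul 2 1 :: .var 2 :: .mul 1 0 :: .tri 0 :: .mul 5 0
    :: .int 1 :: .sub true 7 0 :: .mul 0 7 :: .tri 0 :: .mul 4 0 :: .sub false 7 0 :: .cst 1 5 ::
    .var 0 :: .smul 2 0 :: .mul 2 0 :: .smul (-1) 0 :: .smul 2 6 :: .sub false 14 0 :: .int 2 ::
    .sub true 22 0 :: .mul 0 22 :: .tri 0 :: .mul 4 0 :: .add true 7 0 :: .mul 10 0 :: .add true 16
    0 :: .smul 2 0 :: .mul 34 31 :: .smul (-1) 0 :: .exp 0 :: .mul 0 0 :: .mul 4 0 :: .mul 38 0 ::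
    .cst 31 200 :: .cst 193 500 :: .mul 0 21 :: .add false 2 0 :: .mul 41 41 :: .mul 0 11 :: .cst
    (-9) 1000 :: .cst 511 10000 :: .mul 0 27 :: .sub false 2 0 :: .cst 81 500000 :: .cst 7 1000 ::
    .mul 0 31 :: .sub false 2 0 :: .mul 8 0 :: prog1

def vs : List Vr := [⟨3, 0, false, false⟩, ⟨2, 0, false, false⟩, ⟨7, 2, false, false⟩]

def C : Chart := ⟨vs, prog, [], 1, 3⟩

end Pool.Agent.Lib.MP_d6150d_an.U23c
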