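import Pool.Agent.Lib.MP_d6150d_an.GDef

/-! A generated chart: the program. -/

namespace Pool.Agent.Lib.MP_d6150d_an.U23e

def prog5 : List Ins := .add true 2 0 :: .mul 250 0 :: .cst 1 3 :: .smul 9 175 :: .smul 3 77 :: .add
    false 1 0 :: .add true 0 38 :: .mul 223 0 :: .sub false 223 216 :: .mul 1 0 :: .mul 7 0 :: .add
    false 187 90 :: .add false 0 48 :: .sub true 2 0 :: .mul 194 0 :: .add true 13 0 :: .mul 196 0
    :: .add false 20 0 :: .add false 198 267 :: .inv 0 :: .mul 0 0 :: .mul 0 1 :: .mul 4 0 :: .mul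
    107 107 :: .mul 206 0 :: .mul 0 0 :: .mul 3 0 :: .add false 36 0 :: .smul (-1) 257 :: .exp 0 ::
    .mul 2 0 :: .smul 256 13 :: .cpy 0 :: .cpy 2 :: []

def prog4 : List Ins := .add false 1 0 :: .sub true 0 9 :: .mul 67 0 :: .mul 176 51 :: .smul 2 0 ::
    .mul 0 58 :: .sub false 3 0 :: .mul 91 0 :: .add true 12 0 :: .mul 28 0 :: .cst (-317) 2000 ::
    .cst 73 250 :: .mul 0 182 :: .sub false 2 0 :: .cst (-233) 500 :: .cst 91 50 :: .mul 0 186 ::
    .add false 2 0 :: .sub true 0 41 :: .mul 0 149 :: .add true 6 0 :: .smul 2 137 :: .add false 76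
    0 :: .sub true 0 114 :: .mul 115 0 :: .sub false 121 141 :: .mul 142 0 :: .sub false 2 0 :: .mul
    93 112 :: .add true 1 0 :: .mul 9 0 :: .mul 13 161 :: .mul 0 66 :: .add false 117 67 :: .mul 1 0
    :: .sub true 4 0 :: .mul 70 0 :: .add true 27 0 :: .mul 71 0 :: .add true 74 0 :: .mul 226 0 ::
    .cst 1 256 :: .cst 497 2000 :: .cst 61 100 :: .mul 0 214 :: .add true 2 0 :: .mul 4 0 :: .cst
    131 2500 :: .cst 139 1000 :: .mul 0 219 :: prog5

def prog3 : List Ins := .mul 0 28 :: .smul (-1) 0 :: .mul 5 0 :: .int 16 :: .smul 14 45 :: .sub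
    false 1 0 :: .smul 32 72 :: .add false 1 0 :: .smul 20 23 :: .sub true 1 0 :: .mul 7 0 :: .add
    false 16 0 :: .mul 46 0 :: .add true 48 0 :: .mul 82 0 :: .sub true 145 81 :: .mul 97 0 :: .cst
    1117 10000 :: .cst 39 100 :: .mul 0 139 :: .add false 2 0 :: .smul 2 97 :: .sub false 1 0 ::
    .cst (-89) 125 :: .cst 41 20 :: .mul 0 145 :: .sub false 2 0 :: .smul 3 99 :: .sub true 1 0 ::
    .mul 0 109 :: .add true 7 0 :: .sub false 87 97 :: .mul 98 0 :: .add false 89 0 :: .int 18 ::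
    .smul 5 101 :: .add false 1 0 :: .mul 78 0 :: .sub true 4 0 :: .mul 105 0 :: .mul 81 81 :: .smul
    7 107 :: .add false 46 0 :: .sub true 0 84 :: .mul 3 0 :: .add false 5 0 :: .smul 3 61 :: .int 6
    :: .sub false 1 0 :: .smul 4 90 :: prog4

def prog2 : List Ins := .add true 9 0 :: .mul 18 0 :: .mul 9 9 :: .int 4 :: .smul 54 20 :: .add
    false 19 0 :: .mul 22 0 :: .sub false 3 0 :: .mul 100 15 :: .smul 16 25 :: .sub true 0 1 :: .mul
    2 0 :: .add true 4 0 :: .mul 10 0 :: .add false 12 0 :: .sub true 95 6 :: .mul 24 94 :: .smul 2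
    62 :: .mul 0 89 :: .sub false 76 0 :: .mul 3 0 :: .inv 81 :: .mul 1 0 :: .int 22 :: .smul 11 15
    :: .sub true 1 0 :: .mul 17 0 :: .sub false 33 0 :: .int 100 :: .smul 64 20 :: .sub false 1 0 ::
    .add true 0 26 :: .mul 48 0 :: .add false 5 0 :: .mul 107 11 :: .smul 25 26 :: .int 37 :: .sub
    false 1 0 :: .smul 48 54 :: .sub false 1 0 :: .smul 15 5 :: .add true 1 0 :: .mul 7 0 :: .add
    true 9 0 :: .mul 21 0 :: .int 2 :: .sub true 0 37 :: .mul 55 92 :: .mul 0 119 :: .mul 0 127 ::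
    prog3

def prog1 : List Ins := .sub false 0 30 :: .sub false 0 21 :: .mul 23 22 :: .add false 1 0 :: .add
    true 34 24 :: .sub false 9 26 :: .mul 1 0 :: .mul 0 22 :: .inv 24 :: .mul 1 0 :: .sub true 6 0
    :: .mul 53 0 :: .add true 18 0 :: .mul 41 0 :: .mul 56 0 :: .add false 25 0 :: .inv 0 :: .mul 31
    0 :: .mul 0 22 :: .mul 42 0 :: .cst (-9) 1000 :: .cst 511 10000 :: .mul 0 42 :: .sub false 2 0
    :: .cst 31 200 :: .cst 193 500 :: .mul 0 46 :: .add true 2 0 :: .mul 8 0 :: .add true 5 0 ::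
    .mul 10 0 :: .add true 49 0 :: .mul 18 15 :: .mul 75 0 :: .smul 3 0 :: .int 36 :: .sub false 1 0
    :: .mul 3 0 :: .int 72 :: .sub false 1 0 :: .mul 7 0 :: .inv 56 :: .mul 47 0 :: .int 8 :: .int
    144 :: .smul 24 11 :: .add false 1 0 :: .mul 13 0 :: .add false 4 0 :: .mul 6 0 :: prog2

def prog : List Ins := .cst 1 16 :: .var 1 :: .cst 65 512 :: .cst 1 4 :: .var 2 :: .mul 1 0 :: .add
    false 3 0 :: .mul 5 0 :: .mul 0 3 :: .sub false 8 0 :: .cpy 0 :: .cst 6 5 :: .smul 75 3 :: .add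
    false 1 0 :: .cst 81 500000 :: .cst 7 1000 :: .cst 3 8 :: .var 0 :: .mul 1 0 :: .int 1 :: .var 3
    :: .exp 0 :: .smul 4 0 :: .add false 3 0 :: .inv 0 :: .mul 6 0 :: .mul 18 18 :: .mul 0 5 :: .mul
    2 0 :: .sub false 0 3 :: .mul 14 0 :: .sub false 16 0 :: .cst 1 2 :: .sub true 0 24 :: .sub true
    14 0 :: .mul 0 13 :: .sub false 16 7 :: .mul 7 9 :: .add false 18 0 :: .mul 2 0 :: .smul 2 5 ::
    .smul 2 11 :: .add true 22 0 :: .mul 2 0 :: .smul 2 39 :: .sub true 25 0 :: .sub false 26 18 ::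
    .mul 1 0 :: .sub true 28 0 :: .mul 23 0 :: prog1

def vs : List Vr := [⟨1, 0, false, false⟩, ⟨2, 0, false, false⟩, ⟨2, 0, false, false⟩, ⟨4, 0, false,
    false⟩]

def C : Chart := ⟨vs, prog, [11], 2, 3⟩

end Pool.Agent.Lib.MP_d6150d_an.U23e
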