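import Pool.Agent.Lib.MP_d6150d_an.GDef

/-! A generated chart: the program. -/

namespace Pool.Agent.Lib.MP_d6150d_an.U23l

def prog4 : List Ins := .mul 2 0 :: .mul 8 0 :: .sub false 0 16 :: .cst 1 16 :: .cst 131 2500 ::
    .cst 139 1000 :: .mul 0 191 :: .add true 2 0 :: .mul 4 0 :: .mul 0 170 :: .add false 7 0 :: .cst
    1 256 :: .cst 497 2000 :: .cst 61 100 :: .mul 0 199 :: .add true 2 0 :: .mul 4 0 :: .mul 178 178
    :: .mul 1 0 :: .add true 8 0 :: .mul 16 181 :: .add false 218 0 :: .inv 0 :: .mul 0 0 :: .mul 0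
    1 :: .mul 5 0 :: .mul 34 0 :: .add true 38 0 :: .mul 44 0 :: .sub false 50 0 :: .cpy 0 :: []

def prog3 : List Ins := .smul 216 103 :: .mul 112 0 :: .add true 2 0 :: .mul 114 0 :: .add true 13 0
    :: .mul 0 80 :: .mul 27 27 :: .mul 1 0 :: .add true 26 0 :: .mul 126 0 :: .smul 18 123 :: .smul
    6 50 :: .add false 1 0 :: .smul 2 24 :: .add false 1 0 :: .smul 28 122 :: .smul 10 48 :: .add
    false 1 0 :: .add false 0 19 :: .smul 48 122 :: .mul 131 0 :: .add true 2 0 :: .mul 133 0 ::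
    .add true 8 0 :: .mul 17 45 :: .mul 1 0 :: .add true 16 0 :: .mul 144 0 :: .mul 185 0 :: .mul 50
    51 :: .mul 0 0 :: .mul 0 53 :: .mul 185 154 :: .mul 1 0 :: .add false 141 66 :: .add false 0 37
    :: .smul 3 139 :: .mul 0 148 :: .add false 2 0 :: .mul 196 192 :: .smul (-1) 0 :: .exp 0 :: .cst
    1 3 :: .smul 9 156 :: .smul 3 83 :: .add false 1 0 :: .add true 0 57 :: .mul 204 0 :: .sub false
    195 205 :: .sub true 0 140 :: prog4

def prog2 : List Ins := .add false 14 0 :: .mul 37 0 :: .mul 28 17 :: .smul 5 0 :: .sub true 2 0 ::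
    .mul 52 0 :: .smul 104 69 :: .cst (-89) 125 :: .cst 41 20 :: .mul 0 94 :: .sub false 2 0 ::
    .smul 8 0 :: .add false 5 0 :: .smul 112 70 :: .cst 1117 10000 :: .cst 39 100 :: .mul 0 101 ::
    .add false 2 0 :: .smul 8 0 :: .add false 5 0 :: .smul 128 73 :: .mul 82 0 :: .add true 2 0 ::
    .mul 84 0 :: .add true 11 0 :: .mul 0 40 :: .sub false 72 63 :: .mul 71 0 :: .mul 0 0 :: .mul 3
    0 :: .add true 24 0 :: .mul 98 0 :: .smul 132 95 :: .smul 24 22 :: .add false 1 0 :: .cst (-233)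
    500 :: .cst 91 50 :: .mul 0 122 :: .add false 2 0 :: .smul 4 0 :: .add false 5 0 :: .smul 160 98
    :: .smul 28 24 :: .add false 1 0 :: .cst (-317) 2000 :: .cst 73 250 :: .mul 0 131 :: .sub false
    2 0 :: .smul 4 0 :: .add false 5 0 :: prog3

def prog1 : List Ins := .add true 5 0 :: .mul 10 0 :: .add true 13 0 :: .smul 16 0 :: .mul 0 19 ::
    .add true 50 38 :: .tri 57 :: .mul 3 2 :: .smul 2 43 :: .add false 56 0 :: .sub false 2 0 ::
    .exp 65 :: .mul 47 0 :: .add true 2 0 :: .int 6 :: .smul 5 72 :: .sub true 1 0 :: .int 4 ::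
    .smul 3 75 :: .sub true 1 0 :: .sub true 52 77 :: .mul 0 7 :: .smul 2 14 :: .sub true 0 13 ::
    .sub true 2 0 :: .mul 5 0 :: .mul 5 2 :: .smul 4 19 :: .sub true 0 18 :: .sub true 2 0 :: .add
    false 4 0 :: .mul 17 0 :: .mul 8 7 :: .smul 3 0 :: .sub true 2 0 :: .mul 18 0 :: .smul 3 6 ::
    .sub true 6 0 :: .mul 14 0 :: .mul 19 9 :: .mul 19 11 :: .smul 8 33 :: .sub false 0 32 :: .sub
    false 2 0 :: .add true 4 0 :: .mul 31 0 :: .add false 7 0 :: .mul 18 22 :: .smul 3 0 :: .sub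
    false 2 0 :: prog2

def prog : List Ins := .var 1 :: .cst 1 2 :: .smul 2 1 :: .var 2 :: .smul (-1) 0 :: .mul 2 0 :: .tri
    0 :: .mul 6 0 :: .int 1 :: .sub true 8 0 :: .mul 0 7 :: .tri 0 :: .mul 4 0 :: .sub false 7 0 ::
    .cst 1 5 :: .var 0 :: .smul 2 0 :: .mul 2 0 :: .smul (-1) 0 :: .smul 2 6 :: .sub false 14 0 ::
    .int 2 :: .sub true 23 0 :: .mul 0 22 :: .tri 0 :: .mul 4 0 :: .add true 7 0 :: .mul 10 0 ::
    .add false 16 0 :: .smul 2 0 :: .sub true 25 33 :: .mul 0 32 :: .exp 0 :: .mul 3 0 :: .mul 38 0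
    :: .cst 31 200 :: .cst 193 500 :: .mul 0 20 :: .add false 2 0 :: .mul 40 40 :: .mul 0 10 :: .cst
    (-9) 1000 :: .cst 511 10000 :: .mul 0 26 :: .sub false 2 0 :: .cst 81 500000 :: .cst 7 1000 ::
    .mul 0 30 :: .sub false 2 0 :: .mul 8 0 :: prog1

def vs : List Vr := [⟨3, 0, false, false⟩, ⟨2, 0, false, false⟩, ⟨7, 2, false, false⟩]

def C : Chart := ⟨vs, prog, [], 1, 3⟩

end Pool.Agent.Lib.MP_d6150d_an.U23l
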