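import Pool.Agent.Lib.MP_d6150d_an.GDef

/-! A generated chart: the program. -/

namespace Pool.Agent.Lib.MP_d6150d_an.U23m

def prog4 : List Ins := .sub false 43 0 :: .add false 116 0 :: .mul 186 150 :: .cst 1 3 :: .smul 9
    110 :: .smul 3 96 :: .add false 1 0 :: .add true 0 62 :: .mul 206 0 :: .sub false 164 169 ::
    .mul 1 0 :: .mul 7 0 :: .add false 123 110 :: .add false 0 73 :: .sub true 2 0 :: .mul 179 179
    :: .mul 1 0 :: .cst 1 16 :: .cst 131 2500 :: .cst 139 1000 :: .mul 0 197 :: .add true 2 0 ::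
    .mul 4 0 :: .mul 0 187 :: .mul 0 172 :: .add false 8 0 :: .cst 1 256 :: .cst 497 2000 :: .cst 61
    100 :: .mul 0 206 :: .add true 2 0 :: .mul 4 0 :: .mul 0 179 :: .add true 7 0 :: .mul 31 0 ::
    .mul 17 183 :: .add false 200 0 :: .inv 0 :: .mul 0 0 :: .mul 0 1 :: .mul 5 0 :: .smul 3 242 ::
    .sub true 0 241 :: .mul 0 237 :: .exp 0 :: .mul 4 0 :: .sub false 44 0 :: .cpy 0 :: []

def prog3 : List Ins := .mul 2 0 :: .sub false 15 0 :: .mul 7 79 :: .mul 0 137 :: .mul 0 120 :: .sub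
    true 3 0 :: .mul 140 0 :: .mul 121 61 :: .add true 104 0 :: .mul 143 147 :: .mul 112 97 :: .smul
    15 43 :: .smul 20 46 :: .sub false 1 0 :: .mul 3 0 :: .smul 10 47 :: .smul 6 50 :: .sub false 1
    0 :: .mul 164 0 :: .add false 4 0 :: .mul 95 0 :: .int 7 :: .smul 55 98 :: .add true 1 0 :: .mul
    56 0 :: .add false 4 0 :: .smul 32 102 :: .mul 0 61 :: .sub true 2 0 :: .mul 19 0 :: .smul 14
    176 :: .mul 0 118 :: .mul 0 109 :: .add true 3 0 :: .mul 109 0 :: .mul 122 112 :: .int 4 ::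
    .smul 58 113 :: .add true 1 0 :: .mul 3 0 :: .add true 5 0 :: .mul 115 0 :: .mul 63 119 :: .mul
    159 0 :: .int 12 :: .smul 15 121 :: .add true 1 0 :: .mul 3 0 :: .add true 6 0 :: .mul 40 0 ::
    prog4

def prog2 : List Ins := .mul 0 77 :: .add false 2 0 :: .smul 2 13 :: .sub true 1 0 :: .mul 0 52 ::
    .cst (-89) 125 :: .cst 41 20 :: .mul 0 84 :: .sub false 2 0 :: .smul 3 15 :: .sub true 1 0 ::
    .mul 0 75 :: .add true 7 0 :: .mul 110 110 :: .mul 91 0 :: .mul 0 53 :: .smul 2 0 :: .mul 54 54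
    :: .smul 3 0 :: .sub false 2 0 :: .mul 72 0 :: .mul 117 58 :: .sub false 1 0 :: .mul 48 0 ::
    .smul 7 50 :: .mul 0 62 :: .sub true 2 0 :: .mul 51 0 :: .mul 55 55 :: .mul 95 0 :: .smul 3 56
    :: .add true 52 0 :: .mul 2 0 :: .sub true 5 0 :: .mul 21 0 :: .sub false 37 0 :: .cst (-317)
    2000 :: .cst 73 250 :: .mul 0 115 :: .sub true 2 0 :: .mul 0 88 :: .cst (-233) 500 :: .cst 91 50
    :: .mul 0 120 :: .add false 2 0 :: .sub true 0 36 :: .mul 0 110 :: .add false 6 0 :: .mul 72 85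
    :: .add false 0 19 :: prog3

def prog1 : List Ins := .mul 3 0 :: .add true 7 0 :: .mul 0 0 :: .mul 28 0 :: .mul 14 6 :: .sub
    false 14 0 :: .mul 53 0 :: .mul 16 9 :: .sub false 31 0 :: .mul 36 10 :: .add false 1 0 :: .inv
    0 :: .mul 5 0 :: .mul 15 51 :: .sub true 62 0 :: .mul 18 0 :: .sub false 0 39 :: .mul 26 55 ::
    .add true 1 0 :: .mul 53 0 :: .mul 65 29 :: .sub false 1 0 :: .mul 0 10 :: .mul 38 0 :: .add
    true 48 0 :: .mul 0 0 :: .mul 0 1 :: .mul 14 0 :: .int 2 :: .mul 75 4 :: .sub true 1 0 :: .mul 3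
    0 :: .mul 28 0 :: .mul 67 0 :: .mul 75 0 :: .cst (-9) 1000 :: .cst 511 10000 :: .mul 0 64 ::
    .sub true 2 0 :: .mul 0 37 :: .cst 31 200 :: .cst 193 500 :: .mul 0 69 :: .add true 2 0 :: .mul
    0 58 :: .add true 5 0 :: .mul 0 92 :: .mul 0 15 :: .cst 1117 10000 :: .cst 39 100 :: prog2

def prog : List Ins := .var 1 :: .smul 2 0 :: .cst 1 2 :: .sub true 0 2 :: .inv 0 :: .mul 3 0 ::
    .smul 2 2 :: .var 2 :: .mul 1 0 :: .exp 0 :: .mul 4 0 :: .mul 9 3 :: .smul (-1) 0 :: .tri 0 ::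
    .mul 8 1 :: .inv 0 :: .cst 81 500000 :: .cst 7 1000 :: .cst 1 5 :: .var 0 :: .smul 2 0 :: .mul 2
    0 :: .smul (-1) 0 :: .mul 5 0 :: .sub false 7 0 :: .int 1 :: .add true 0 3 :: .mul 15 11 ::
    .smul 4 29 :: .sub true 0 3 :: .mul 0 24 :: .exp 0 :: .mul 17 17 :: .mul 1 0 :: .mul 6 0 :: .mul
    19 0 :: .sub true 10 0 :: .mul 10 0 :: .mul 0 35 :: .smul 2 16 :: .add true 14 0 :: .smul 2 0 ::
    .mul 0 7 :: .sub false 4 0 :: .sub true 18 42 :: .inv 0 :: .mul 23 0 :: .mul 11 35 :: .mul 0 0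
    :: .sub false 13 0 :: prog1

def vs : List Vr := [⟨3, 0, false, false⟩, ⟨2, 0, false, false⟩, ⟨6, 0, false, false⟩]

def C : Chart := ⟨vs, prog, [], 1, 3⟩

end Pool.Agent.Lib.MP_d6150d_an.U23m
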