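import Pool.Agent.Lib.MP_d6150d_an.GDef

/-! A generated chart: the program. -/

namespace Pool.Agent.Lib.MP_d6150d_an.U23o

def prog5 : List Ins := .add false 184 89 :: .add false 0 48 :: .sub true 2 0 :: .mul 191 0 :: .add
    true 13 0 :: .mul 193 0 :: .add true 21 0 :: .add false 195 21 :: .inv 0 :: .mul 0 0 :: .mul 0 1
    :: .mul 4 0 :: .mul 106 106 :: .mul 202 0 :: .mul 0 0 :: .mul 3 0 :: .mul 246 266 :: .exp 0 ::
    .mul 2 0 :: .add true 40 0 :: .mul 258 0 :: .cpy 0 :: []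

def prog4 : List Ins := .cst 73 250 :: .mul 0 192 :: .sub false 2 0 :: .cst (-233) 500 :: .cst 91 50
    :: .mul 0 196 :: .add false 2 0 :: .sub true 0 40 :: .mul 0 146 :: .add true 6 0 :: .smul 2 135
    :: .add false 75 0 :: .sub true 0 128 :: .mul 129 0 :: .sub true 119 139 :: .mul 140 0 :: .sub
    false 2 0 :: .mul 92 111 :: .add true 1 0 :: .mul 9 0 :: .mul 13 158 :: .mul 0 65 :: .add false
    116 66 :: .mul 1 0 :: .sub true 4 0 :: .mul 69 0 :: .add false 27 0 :: .mul 70 0 :: .add false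
    73 0 :: .cst 1 256 :: .cst 497 2000 :: .cst 61 100 :: .mul 0 223 :: .add true 2 0 :: .mul 4 0 ::
    .cst 1 16 :: .cst 131 2500 :: .cst 139 1000 :: .mul 0 229 :: .add true 2 0 :: .mul 4 0 :: .cst 1
    3 :: .smul 9 172 :: .smul 3 76 :: .add false 1 0 :: .add true 0 38 :: .mul 226 0 :: .sub false
    226 217 :: .mul 1 0 :: .mul 7 0 :: prog5

def prog3 : List Ins := .mul 7 0 :: .add true 16 0 :: .mul 46 0 :: .add true 48 0 :: .mul 80 0 ::
    .sub true 138 80 :: .mul 95 0 :: .cst 1117 10000 :: .cst 39 100 :: .mul 0 150 :: .add false 2 0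
    :: .smul 2 95 :: .sub false 1 0 :: .cst (-89) 125 :: .cst 41 20 :: .mul 0 156 :: .sub false 2 0
    :: .smul 3 97 :: .sub true 1 0 :: .mul 0 107 :: .add true 7 0 :: .sub false 86 96 :: .mul 97 0
    :: .add false 88 0 :: .int 18 :: .smul 5 100 :: .add false 1 0 :: .mul 93 0 :: .sub true 4 0 ::
    .mul 104 0 :: .smul 7 105 :: .add false 45 0 :: .sub true 0 98 :: .mul 89 0 :: .add false 4 0 ::
    .smul 3 60 :: .int 6 :: .sub false 1 0 :: .smul 4 104 :: .add false 1 0 :: .sub true 0 9 :: .mul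
    66 0 :: .mul 175 50 :: .smul 2 0 :: .mul 0 57 :: .sub true 3 0 :: .mul 90 0 :: .add true 12 0 ::
    .mul 27 0 :: .cst (-317) 2000 :: prog4

def prog2 : List Ins := .sub true 0 16 :: .mul 17 0 :: .add true 3 0 :: .mul 9 0 :: .add false 11 0
    :: .sub true 88 21 :: .mul 23 83 :: .smul 2 58 :: .mul 0 106 :: .sub true 78 0 :: .mul 3 0 ::
    .inv 83 :: .mul 1 0 :: .int 22 :: .smul 11 30 :: .sub false 1 0 :: .mul 32 0 :: .sub false 32 0
    :: .int 100 :: .smul 64 35 :: .sub false 1 0 :: .add true 0 25 :: .mul 47 0 :: .add false 5 0 ::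
    .mul 107 11 :: .smul 25 41 :: .int 37 :: .sub false 1 0 :: .smul 48 53 :: .sub false 1 0 ::
    .smul 15 5 :: .add true 1 0 :: .mul 7 0 :: .add true 9 0 :: .mul 21 0 :: .int 2 :: .sub false 0
    52 :: .mul 54 88 :: .mul 0 136 :: .mul 0 116 :: .mul 0 28 :: .smul (-1) 0 :: .mul 5 0 :: .int 16
    :: .smul 14 60 :: .sub false 1 0 :: .smul 32 71 :: .add false 1 0 :: .smul 20 23 :: .sub true 1
    0 :: prog3

def prog1 : List Ins := .mul 1 0 :: .mul 0 30 :: .inv 32 :: .mul 1 0 :: .sub false 6 0 :: .add true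
    15 0 :: .mul 33 0 :: .add false 29 0 :: .inv 0 :: .mul 35 0 :: .mul 0 24 :: .mul 44 0 :: .cst
    (-9) 1000 :: .cst 511 10000 :: .mul 0 55 :: .sub false 2 0 :: .cst 31 200 :: .cst 193 500 ::
    .mul 0 59 :: .add true 2 0 :: .mul 8 0 :: .add true 5 0 :: .mul 10 0 :: .add true 57 0 :: .mul
    17 15 :: .smul 3 0 :: .int 36 :: .sub false 1 0 :: .mul 3 0 :: .int 72 :: .sub false 1 0 :: .mul
    6 0 :: .inv 61 :: .mul 50 0 :: .int 8 :: .int 144 :: .smul 24 11 :: .add false 1 0 :: .mul 13 0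
    :: .add true 4 0 :: .mul 6 0 :: .add true 9 0 :: .mul 17 0 :: .mul 9 9 :: .int 4 :: .smul 54 20
    :: .add true 19 0 :: .mul 22 0 :: .sub false 3 0 :: .smul 16 24 :: prog2

def prog : List Ins := .cst 2 5 :: .var 1 :: .smul (-1) 0 :: .exp 0 :: .var 2 :: .cst 3 5 :: .sub
    true 4 0 :: .mul 2 0 :: .sub true 0 6 :: .exp 0 :: .sub true 6 0 :: .add false 10 0 :: .cpy 0 ::
    .exp 5 :: .cst 81 500000 :: .cst 7 1000 :: .mul 0 5 :: .sub false 2 0 :: .int 1 :: .cst 1 2 ::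
    .var 0 :: .sub true 1 0 :: .sub true 3 0 :: .smul (-1) 15 :: .exp 0 :: .mul 2 0 :: .sub true 7
    22 :: .mul 16 2 :: .add false 9 0 :: .mul 2 0 :: .smul 2 7 :: .smul 2 20 :: .add true 13 0 ::
    .mul 2 0 :: .smul 2 13 :: .mul 0 33 :: .smul (-1) 0 :: .tri 0 :: .mul 38 1 :: .mul 7 0 :: .sub
    true 23 17 :: .mul 5 0 :: .sub true 25 0 :: .mul 35 0 :: .sub false 0 27 :: .sub false 0 36 ::
    .mul 44 37 :: .add false 1 0 :: .add true 31 39 :: .sub true 13 47 :: prog1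

def vs : List Vr := [⟨3, 0, false, false⟩, ⟨4, 0, false, false⟩, ⟨5, 0, false, false⟩]

def C : Chart := ⟨vs, prog, [13], 1, 3⟩

end Pool.Agent.Lib.MP_d6150d_an.U23o
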