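import Pool.Agent.Lib.MP_d6150d_an.GDef

/-! A generated chart: the program. -/

namespace Pool.Agent.Lib.MP_d6150d_an.U23p

def prog5 : List Ins := .smul 9 175 :: .smul 3 76 :: .add false 1 0 :: .add true 0 38 :: .mul 222 0
    :: .sub false 222 215 :: .mul 1 0 :: .mul 7 0 :: .add false 187 89 :: .add false 0 48 :: .sub
    true 2 0 :: .mul 194 0 :: .add true 13 0 :: .mul 196 0 :: .add true 20 0 :: .add false 198 254
    :: .inv 0 :: .mul 0 0 :: .mul 0 1 :: .mul 4 0 :: .mul 190 190 :: .mul 207 0 :: .mul 0 0 :: .mul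
    3 0 :: .add false 36 0 :: .smul 256 10 :: .cpy 0 :: .cpy 2 :: []

def prog4 : List Ins := .mul 180 50 :: .smul 2 0 :: .mul 0 57 :: .sub false 3 0 :: .mul 90 0 :: .add
    true 12 0 :: .mul 27 0 :: .cst (-317) 2000 :: .cst 73 250 :: .mul 0 181 :: .sub false 2 0 ::
    .cst (-233) 500 :: .cst 91 50 :: .mul 0 185 :: .add false 2 0 :: .sub true 0 40 :: .mul 0 149 ::
    .add true 6 0 :: .smul 2 136 :: .add false 75 0 :: .sub true 0 128 :: .mul 129 0 :: .sub true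
    119 140 :: .mul 141 0 :: .sub false 2 0 :: .mul 92 111 :: .add true 1 0 :: .mul 9 0 :: .mul 13
    161 :: .mul 0 65 :: .add false 116 66 :: .mul 1 0 :: .sub true 4 0 :: .mul 69 0 :: .add true 27
    0 :: .mul 70 0 :: .add true 73 0 :: .mul 214 0 :: .cst 1 256 :: .cst 497 2000 :: .cst 61 100 ::
    .mul 0 213 :: .add false 2 0 :: .mul 4 0 :: .cst 131 2500 :: .cst 139 1000 :: .mul 0 218 :: .add
    false 2 0 :: .mul 237 0 :: .cst 1 3 :: prog5

def prog3 : List Ins := .mul 5 0 :: .int 16 :: .smul 14 60 :: .sub false 1 0 :: .smul 32 72 :: .add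
    false 1 0 :: .smul 20 23 :: .sub true 1 0 :: .mul 7 0 :: .add false 16 0 :: .mul 46 0 :: .add
    true 48 0 :: .mul 83 0 :: .sub true 143 81 :: .mul 98 0 :: .cst 1117 10000 :: .cst 39 100 ::
    .mul 0 139 :: .add false 2 0 :: .smul 2 98 :: .sub false 1 0 :: .cst (-89) 125 :: .cst 41 20 ::
    .mul 0 145 :: .sub false 2 0 :: .smul 3 100 :: .sub false 1 0 :: .mul 0 110 :: .add true 7 0 ::
    .sub true 86 97 :: .mul 98 0 :: .add false 88 0 :: .int 18 :: .smul 5 101 :: .add true 1 0 ::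
    .mul 93 0 :: .sub true 4 0 :: .mul 105 0 :: .smul 7 106 :: .add false 45 0 :: .sub true 0 98 ::
    .mul 89 0 :: .add false 4 0 :: .smul 3 60 :: .int 6 :: .sub false 1 0 :: .smul 4 104 :: .add
    false 1 0 :: .sub true 0 9 :: .mul 66 0 :: prog4

def prog2 : List Ins := .mul 18 0 :: .mul 9 9 :: .int 4 :: .smul 54 21 :: .add true 20 0 :: .mul 23
    0 :: .sub false 3 0 :: .smul 16 25 :: .sub true 0 16 :: .mul 17 0 :: .add true 3 0 :: .mul 9 0
    :: .add false 11 0 :: .sub true 93 21 :: .mul 23 108 :: .smul 2 61 :: .mul 0 89 :: .sub false 76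
    0 :: .mul 3 0 :: .inv 82 :: .mul 1 0 :: .int 22 :: .smul 11 30 :: .sub true 1 0 :: .mul 32 0 ::
    .sub false 32 0 :: .int 100 :: .smul 64 35 :: .sub false 1 0 :: .add true 0 25 :: .mul 48 0 ::
    .add false 5 0 :: .mul 112 11 :: .smul 25 41 :: .int 37 :: .sub false 1 0 :: .smul 48 54 :: .sub
    false 1 0 :: .smul 15 5 :: .add true 1 0 :: .mul 7 0 :: .add true 9 0 :: .mul 21 0 :: .int 2 ::
    .sub true 0 52 :: .mul 54 91 :: .mul 0 119 :: .mul 0 141 :: .mul 0 28 :: .smul (-1) 0 :: prog3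

def prog1 : List Ins := .sub false 0 22 :: .mul 24 23 :: .add false 1 0 :: .add false 33 25 :: .sub
    true 9 27 :: .mul 1 0 :: .mul 0 23 :: .inv 25 :: .mul 1 0 :: .sub false 6 0 :: .mul 52 0 :: .add
    true 18 0 :: .inv 0 :: .mul 30 0 :: .mul 0 19 :: .mul 0 57 :: .mul 46 0 :: .cst (-9) 1000 ::
    .cst 511 10000 :: .mul 0 41 :: .sub false 2 0 :: .cst 31 200 :: .cst 193 500 :: .mul 0 45 ::
    .add false 2 0 :: .mul 8 0 :: .add true 5 0 :: .mul 10 0 :: .add true 48 0 :: .mul 42 16 :: .mul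
    73 0 :: .sub true 61 0 :: .smul 3 0 :: .int 36 :: .sub false 1 0 :: .mul 3 0 :: .int 72 :: .sub
    true 1 0 :: .mul 6 0 :: .smul 2 77 :: .inv 57 :: .mul 1 0 :: .int 8 :: .int 144 :: .smul 24 12
    :: .add true 1 0 :: .mul 14 0 :: .add false 4 0 :: .mul 6 0 :: .add true 10 0 :: prog2

def prog : List Ins := .cst 65 512 :: .cst 1 4 :: .var 1 :: .mul 1 0 :: .add false 3 0 :: .var 2 ::
    .var 3 :: .mul 1 0 :: .sub false 3 0 :: .cpy 0 :: .cst 1 16 :: .mul 3 8 :: .sub false 1 0 ::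
    .cpy 0 :: .mul 8 8 :: .mul 0 0 :: .int 1500 :: .smul 80000 9 :: .add false 1 0 :: .int 1 :: .sub
    true 0 17 :: .mul 2 0 :: .mul 6 0 :: .cst 81 500000 :: .cst 7 1000 :: .var 0 :: .mul 0 20 ::
    .sub true 0 1 :: .mul 3 0 :: .sub false 5 0 :: .cst 1 2 :: .sub true 0 19 :: .sub true 12 0 ::
    .sub false 13 6 :: .mul 6 28 :: .add false 15 0 :: .mul 2 0 :: .mul 30 0 :: .smul 2 5 :: .smul 2
    11 :: .add false 20 0 :: .mul 2 0 :: .add false 4 0 :: .smul 2 40 :: .sub true 24 0 :: .sub true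
    25 39 :: .mul 1 0 :: .sub true 27 0 :: .mul 22 0 :: .sub false 0 29 :: prog1

def vs : List Vr := [⟨1, 0, false, false⟩, ⟨2, 0, false, false⟩, ⟨3, 0, false, false⟩, ⟨4, 0, false,
    false⟩]

def C : Chart := ⟨vs, prog, [10, 14], 2, 3⟩

end Pool.Agent.Lib.MP_d6150d_an.U23p
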