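import Pool.Agent.Lib.MP_d6150d_an.GDef

/-! A generated chart: the program. -/

namespace Pool.Agent.Lib.MP_d6150d_an.U23q

def prog5 : List Ins := .add false 1 0 :: .add true 0 38 :: .mul 223 0 :: .sub false 223 217 :: .mul
    1 0 :: .mul 7 0 :: .add false 188 90 :: .add false 0 48 :: .sub true 2 0 :: .mul 195 0 :: .add
    true 13 0 :: .mul 197 0 :: .add false 20 0 :: .add false 199 252 :: .inv 0 :: .mul 0 0 :: .mul 0
    1 :: .mul 4 0 :: .mul 107 107 :: .mul 208 0 :: .mul 0 0 :: .mul 3 0 :: .add false 36 0 :: .smul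
    256 10 :: .cpy 0 :: .cpy 2 :: []

def prog4 : List Ins := .mul 0 58 :: .sub false 3 0 :: .mul 91 0 :: .add true 12 0 :: .mul 28 0 ::
    .cst (-317) 2000 :: .cst 73 250 :: .mul 0 184 :: .sub false 2 0 :: .cst (-233) 500 :: .cst 91 50
    :: .mul 0 188 :: .add false 2 0 :: .sub true 0 41 :: .mul 0 150 :: .add false 6 0 :: .smul 2 138
    :: .add false 76 0 :: .sub false 0 114 :: .mul 115 0 :: .sub true 121 142 :: .mul 143 0 :: .sub
    false 2 0 :: .mul 93 112 :: .add true 1 0 :: .mul 9 0 :: .mul 13 162 :: .mul 0 66 :: .add false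
    117 67 :: .mul 1 0 :: .sub false 4 0 :: .mul 70 0 :: .add false 27 0 :: .mul 71 0 :: .add true
    74 0 :: .mul 218 0 :: .cst 1 256 :: .cst 497 2000 :: .cst 61 100 :: .mul 0 216 :: .add false 2 0
    :: .mul 4 0 :: .cst 131 2500 :: .cst 139 1000 :: .mul 0 221 :: .add false 2 0 :: .mul 235 0 ::
    .cst 1 3 :: .smul 9 176 :: .smul 3 77 :: prog5

def prog3 : List Ins := .sub false 1 0 :: .smul 32 73 :: .add false 1 0 :: .smul 20 23 :: .sub true
    1 0 :: .mul 7 0 :: .add false 16 0 :: .mul 46 0 :: .add true 48 0 :: .mul 83 0 :: .sub true 133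
    82 :: .mul 98 0 :: .cst 1117 10000 :: .cst 39 100 :: .mul 0 141 :: .add false 2 0 :: .smul 2 98
    :: .sub false 1 0 :: .cst (-89) 125 :: .cst 41 20 :: .mul 0 147 :: .sub false 2 0 :: .smul 3 100
    :: .sub false 1 0 :: .mul 0 110 :: .add true 7 0 :: .sub false 87 98 :: .mul 99 0 :: .add false
    89 0 :: .int 18 :: .smul 5 102 :: .add false 1 0 :: .mul 78 0 :: .sub true 4 0 :: .mul 106 0 ::
    .mul 81 81 :: .smul 7 108 :: .add false 46 0 :: .sub false 0 84 :: .mul 3 0 :: .add false 5 0 ::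
    .smul 3 61 :: .int 6 :: .sub false 1 0 :: .smul 4 90 :: .add false 1 0 :: .sub true 0 9 :: .mul
    67 0 :: .mul 172 51 :: .smul 2 0 :: prog4

def prog2 : List Ins := .add false 20 0 :: .mul 23 0 :: .sub false 3 0 :: .mul 96 15 :: .smul 16 26
    :: .sub false 0 1 :: .mul 2 0 :: .add true 4 0 :: .mul 10 0 :: .add false 12 0 :: .sub true 83 6
    :: .mul 24 105 :: .smul 2 63 :: .mul 0 91 :: .sub false 77 0 :: .mul 3 0 :: .inv 82 :: .mul 1 0
    :: .int 22 :: .smul 11 15 :: .sub true 1 0 :: .mul 17 0 :: .sub false 33 0 :: .int 100 :: .smul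
    64 20 :: .sub false 1 0 :: .add true 0 26 :: .mul 49 0 :: .add false 5 0 :: .mul 103 11 :: .smul
    25 26 :: .int 37 :: .sub false 1 0 :: .smul 48 55 :: .sub false 1 0 :: .smul 15 5 :: .add true 1
    0 :: .mul 7 0 :: .add true 9 0 :: .mul 21 0 :: .int 2 :: .sub true 0 37 :: .mul 55 93 :: .mul 0
    121 :: .mul 0 138 :: .mul 0 28 :: .smul (-1) 0 :: .mul 5 0 :: .int 16 :: .smul 14 45 :: prog3

def prog1 : List Ins := .mul 1 0 :: .mul 0 21 :: .inv 23 :: .mul 1 0 :: .sub false 6 0 :: .mul 47 0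
    :: .add true 18 0 :: .mul 50 0 :: .add false 24 0 :: .inv 0 :: .mul 30 0 :: .mul 0 21 :: .mul 0
    56 :: .mul 37 0 :: .cst (-9) 1000 :: .cst 511 10000 :: .mul 0 43 :: .sub false 2 0 :: .cst 31
    200 :: .cst 193 500 :: .mul 0 47 :: .add false 2 0 :: .mul 8 0 :: .add true 5 0 :: .mul 10 0 ::
    .add true 50 0 :: .mul 19 16 :: .mul 70 0 :: .smul 3 0 :: .int 36 :: .sub false 1 0 :: .mul 3 0
    :: .int 72 :: .sub false 1 0 :: .mul 7 0 :: .mul 46 79 :: .inv 56 :: .mul 1 0 :: .int 8 :: .int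
    144 :: .smul 24 12 :: .add false 1 0 :: .mul 14 0 :: .add false 4 0 :: .mul 6 0 :: .add true 10
    0 :: .mul 19 0 :: .mul 9 9 :: .int 4 :: .smul 54 21 :: prog2

def prog : List Ins := .cst 65 512 :: .cst 1 4 :: .var 1 :: .mul 1 0 :: .add false 3 0 :: .var 2 ::
    .var 3 :: .mul 1 0 :: .sub false 3 0 :: .cpy 0 :: .cst 1 16 :: .mul 3 8 :: .sub false 1 0 ::
    .cpy 0 :: .cst 6 5 :: .smul 75 3 :: .add false 1 0 :: .cst 81 500000 :: .cst 7 1000 :: .var 0 ::
    .mul 12 13 :: .mul 1 0 :: .sub true 0 2 :: .mul 4 0 :: .sub false 6 0 :: .mul 18 18 :: .int 1 ::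
    .cst 1 2 :: .sub true 0 16 :: .sub true 2 0 :: .sub false 3 8 :: .mul 8 10 :: .add false 5 0 ::
    .mul 2 0 :: .smul 2 4 :: .smul 2 12 :: .add false 9 0 :: .mul 2 0 :: .smul 2 35 :: .sub true 12
    0 :: .sub true 13 19 :: .mul 1 0 :: .sub true 15 0 :: .mul 23 0 :: .sub false 0 17 :: .sub false
    0 22 :: .mul 24 23 :: .add false 1 0 :: .add false 21 25 :: .sub false 9 27 :: prog1

def vs : List Vr := [⟨1, 0, false, false⟩, ⟨2, 0, false, false⟩, ⟨2, 0, false, false⟩, ⟨3, 0, false,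
    false⟩]

def C : Chart := ⟨vs, prog, [10, 14], 2, 3⟩

end Pool.Agent.Lib.MP_d6150d_an.U23q
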