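import Pool.Agent.Lib.MP_d6150d_an.GDef

/-! A generated chart: the program. -/

namespace Pool.Agent.Lib.MP_d6150d_an.U23t

def prog4 : List Ins := .add true 0 66 :: .mul 169 0 :: .sub false 162 167 :: .mul 1 0 :: .mul 200 0
    :: .add false 185 114 :: .add false 0 77 :: .sub true 2 0 :: .mul 180 180 :: .mul 1 0 :: .cst
    131 2500 :: .cst 139 1000 :: .mul 0 194 :: .add true 2 0 :: .mul 213 0 :: .mul 0 187 :: .mul 0
    169 :: .add false 7 0 :: .cst 1 256 :: .cst 497 2000 :: .cst 61 100 :: .mul 0 203 :: .add true 2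
    0 :: .mul 4 0 :: .mul 0 73 :: .add false 7 0 :: .mul 29 0 :: .mul 226 180 :: .add false 200 0 ::
    .inv 0 :: .mul 0 0 :: .mul 0 1 :: .mul 5 0 :: .smul 15 224 :: .cst 5 2 :: .sub true 1 0 :: .exp
    0 :: .mul 4 0 :: .sub false 42 0 :: .mul 87 153 :: .cpy 0 :: .cpy 45 :: .cpy 3 :: []

def prog3 : List Ins := .mul 103 103 :: .mul 1 0 :: .mul 124 98 :: .add false 1 0 :: .mul 146 130 ::
    .mul 112 89 :: .smul 15 49 :: .smul 20 52 :: .sub false 1 0 :: .mul 3 0 :: .smul 10 53 :: .smul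
    6 56 :: .sub false 1 0 :: .mul 107 0 :: .add false 4 0 :: .mul 86 0 :: .int 7 :: .smul 55 89 ::
    .add true 1 0 :: .mul 62 0 :: .add false 4 0 :: .smul 32 93 :: .mul 0 67 :: .sub true 2 0 ::
    .mul 19 0 :: .smul 14 119 :: .mul 0 110 :: .mul 0 100 :: .add true 3 0 :: .mul 100 0 :: .mul 114
    103 :: .int 4 :: .smul 58 104 :: .add true 1 0 :: .mul 3 0 :: .add true 5 0 :: .mul 106 0 ::
    .mul 69 110 :: .mul 162 0 :: .int 12 :: .smul 15 112 :: .add false 1 0 :: .mul 3 0 :: .add false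
    6 0 :: .mul 40 0 :: .sub false 49 0 :: .mul 188 149 :: .smul 9 145 :: .smul 3 100 :: .add false
    1 0 :: prog4

def prog2 : List Ins := .mul 0 72 :: .add false 7 0 :: .mul 69 69 :: .mul 85 0 :: .mul 0 39 :: .smul
    2 0 :: .mul 40 40 :: .smul 3 0 :: .sub false 2 0 :: .mul 66 0 :: .mul 54 44 :: .sub false 1 0 ::
    .mul 33 0 :: .smul 7 35 :: .mul 0 48 :: .sub true 2 0 :: .mul 36 0 :: .mul 40 40 :: .mul 92 0 ::
    .smul 3 41 :: .add false 37 0 :: .mul 2 0 :: .sub true 5 0 :: .mul 21 0 :: .sub false 37 0 ::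
    .cst (-317) 2000 :: .cst 73 250 :: .mul 0 109 :: .sub true 2 0 :: .mul 0 82 :: .cst (-233) 500
    :: .cst 91 50 :: .mul 0 114 :: .add false 2 0 :: .sub true 0 36 :: .mul 0 107 :: .add false 6 0
    :: .mul 57 71 :: .add false 0 19 :: .mul 2 0 :: .sub false 15 0 :: .mul 7 64 :: .mul 0 134 ::
    .mul 0 117 :: .sub true 3 0 :: .mul 137 0 :: .cst 81 500000 :: .cst 7 1000 :: .mul 0 130 :: .sub
    false 2 0 :: prog3

def prog1 : List Ins := .mul 0 32 :: .add true 2 0 :: .mul 0 24 :: .add false 5 0 :: .smul 2 45 ::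
    .mul 0 22 :: .mul 2 0 :: .mul 22 14 :: .sub false 22 0 :: .mul 26 0 :: .mul 24 17 :: .sub false
    39 0 :: .mul 44 18 :: .add false 1 0 :: .inv 0 :: .mul 5 0 :: .mul 23 42 :: .sub false 35 0 ::
    .mul 26 0 :: .sub false 0 47 :: .mul 34 46 :: .add true 1 0 :: .mul 64 0 :: .smul 2 41 :: .mul 0
    38 :: .sub false 2 0 :: .mul 0 11 :: .mul 50 0 :: .add false 57 0 :: .mul 0 0 :: .mul 0 1 ::
    .mul 15 0 :: .int 2 :: .mul 27 4 :: .sub true 1 0 :: .mul 3 0 :: .mul 29 0 :: .cst 1117 10000 ::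
    .cst 39 100 :: .mul 0 71 :: .add false 2 0 :: .smul 2 71 :: .sub true 1 0 :: .mul 0 46 :: .cst
    (-89) 125 :: .cst 41 20 :: .mul 0 78 :: .sub false 2 0 :: .smul 3 46 :: .sub true 1 0 :: prog2

def prog : List Ins := .cst 1 16 :: .var 2 :: .cst 13 64 :: .cst 1 3 :: .var 3 :: .mul 1 0 :: .add
    false 3 0 :: .mul 5 0 :: .mul 0 3 :: .sub false 8 0 :: .cpy 0 :: .cst (-9) 1000 :: .cst 511
    10000 :: .cst 1 5 :: .var 1 :: .smul 2 0 :: .mul 2 0 :: .smul (-1) 0 :: .mul 5 0 :: .sub true 7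
    0 :: .int 1 :: .add true 0 3 :: .smul 2 17 :: .sub true 2 0 :: .mul 0 16 :: .var 0 :: .mul 1 0
    :: .mul 19 0 :: .sub false 7 0 :: .mul 7 0 :: .cst 1 2 :: .sub true 0 22 :: .inv 0 :: .mul 3 0
    :: .smul 2 16 :: .add true 14 0 :: .smul 2 0 :: .mul 0 10 :: .sub false 4 0 :: .sub true 18 7 ::
    .inv 0 :: .mul 23 0 :: .mul 14 18 :: .mul 0 0 :: .sub false 16 0 :: .mul 3 0 :: .add false 7 0
    :: .mul 27 0 :: .cst 31 200 :: .cst 193 500 :: prog1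

def vs : List Vr := [⟨2, 0, false, false⟩, ⟨2, 0, false, false⟩, ⟨2, 0, false, false⟩, ⟨3, 0, false,
    false⟩]

def C : Chart := ⟨vs, prog, [11], 3, 3⟩

end Pool.Agent.Lib.MP_d6150d_an.U23t
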