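import Pool.Agent.Lib.MP_d6150d_an.GDef

/-! A generated chart: the program. -/

namespace Pool.Agent.Lib.MP_d6150d_an.U23x

def prog1 : List Ins := .cpy 0 :: .cpy 19 :: .cpy 31 :: .cpy 37 :: []

def prog : List Ins := .cst 65 512 :: .var 1 :: .var 0 :: .smul 2 0 :: .mul 0 2 :: .smul (-1) 0 ::
    .tri 0 :: .mul 7 1 :: .mul 9 0 :: .cst 1 4 :: .mul 2 2 :: .mul 10 0 :: .mul 2 0 :: .add false 4
    0 :: .int 1 :: .sub false 1 0 :: .cst 3 128 :: .smul (-1) 17 :: .exp 0 :: .mul 0 8 :: .sub false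
    3 0 :: .cst 6 5 :: .smul 75 21 :: .add false 1 0 :: .cst 1 2 :: .smul 5 24 :: .sub true 1 0 ::
    .mul 0 27 :: .smul (-1) 0 :: .exp 0 :: .mul 0 19 :: .sub false 7 0 :: .cst 1 10000 :: .smul 1500
    25 :: .int 80000 :: .add false 1 0 :: .mul 35 28 :: .sub true 22 0 :: .mul 2 0 :: .cst 1 6 ::
    .mul 0 12 :: .smul (-1) 0 :: .exp 0 :: .mul 35 0 :: .mul 0 0 :: .mul 0 1 :: .mul 0 0 :: .mul 0
    39 :: .sub true 9 0 :: .mul 16 0 :: prog1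

def vs : List Vr := [⟨3, 0, false, false⟩, ⟨6, 0, false, false⟩]

def C : Chart := ⟨vs, prog, [], 4, 3⟩

end Pool.Agent.Lib.MP_d6150d_an.U23x
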