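import Pool.Agent.Lib.MP_d6150d_an.GDef

/-! A generated chart: the program. -/

namespace Pool.Agent.Lib.MP_d6150d_an.U23y

def prog : List Ins := .cst 13 64 :: .var 1 :: .var 0 :: .smul 2 0 :: .mul 0 2 :: .smul (-1) 0 ::
    .tri 0 :: .mul 7 1 :: .mul 9 0 :: .cst 1 3 :: .mul 2 2 :: .mul 10 0 :: .mul 2 0 :: .add false 4
    0 :: .int 1 :: .sub false 1 0 :: .cst 11 32 :: .smul 4 16 :: .sub true 0 3 :: .mul 0 19 :: .exp
    0 :: .mul 0 10 :: .sub false 5 0 :: .cpy 0 :: .cpy 8 :: []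

def vs : List Vr := [⟨3, 0, false, false⟩, ⟨6, 0, false, false⟩]

def C : Chart := ⟨vs, prog, [], 2, 3⟩

end Pool.Agent.Lib.MP_d6150d_an.U23y
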