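import Pool.Agent.Lib.MP_d6150d_an.UXM

/-! First order expansions along curves through the isochronous center. -/

namespace Pool.Agent.Lib.MP_d6150d_an.UX

open Real Set Filter Topology Asymptotics

/-- value and derivative at the origin -/
def J (f : ℝ → ℝ) (c d : ℝ) : Prop := AnalyticAt ℝ f 0 ∧ f 0 = c ∧ HasDerivAt f d 0

namespace J

variable {f g : ℝ → ℝ} {c d c' d' : ℝ}

theorem cst (c : ℝ) : J (fun _ ↦ c) c 0 := ⟨analyticAt_const, rfl, hasDerivAt_const _ _⟩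

theorem lin (c d : ℝ) : J (fun x ↦ c + d * x) c d :=
  ⟨by fun_prop, by simp, by simpa using ((hasDerivAt_id (0 : ℝ)).const_mul d).const_add c⟩

theorem cast (a : J f c d) (h : c = c') (k : d = d') : J f c' d' := h ▸ k ▸ a

theorem congr (a : J f c d) (h : ∀ x, g x = f x) : J g c d := funext h ▸ a

theorem add (a : J f c d) (b : J g c' d') : J (fun x ↦ f x + g x) (c + c') (d + d') :=
  ⟨a.1.add b.1, by rw [← a.2.1, ← b.2.1], a.2.2.add b.2.2⟩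

theorem sub (a : J f c d) (b : J g c' d') : J (fun x ↦ f x - g x) (c - c') (d - d') :=
  ⟨a.1.sub b.1, by rw [← a.2.1, ← b.2.1], a.2.2.sub b.2.2⟩

theorem neg (a : J f c d) : J (fun x ↦ -f x) (-c) (-d) := ⟨a.1.neg, by rw [← a.2.1], a.2.2.neg⟩

theorem mul (a : J f c d) (b : J g c' d') : J (fun x ↦ f x * g x) (c * c') (d * c' + c * d') :=
  ⟨a.1.mul b.1, by rw [← a.2.1, ← b.2.1], by rw [← a.2.1, ← b.2.1]; exact a.2.2.mul b.2.2⟩

theorem dvc (a : J f c d) (n : ℝ) : J (fun x ↦ f x / n) (c / n) (d / n) :=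
  ⟨a.1.div_const, by rw [← a.2.1], a.2.2.div_const n⟩

theorem pw (a : J f c d) : ∀ n : ℕ, J (fun x ↦ f x ^ (n + 1)) (c ^ (n + 1)) ((n + 1) * c ^ n * d)
  | 0 => by simpa using a
  | n + 1 => (((a.pw n).mul a).congr fun _ ↦ pow_succ _ _).cast (pow_succ _ _).symm
      (by push_cast; ring)

theorem inv (a : J f c d) (h : c ≠ 0) : J (fun x ↦ (f x)⁻¹) c⁻¹ (-d / c ^ 2) := by
  obtain ⟨a1, rfl, a3⟩ := a
  exact ⟨a1.inv h, rfl, a3.inv h⟩

theorem rsq (a : J f (c ^ 2) d) (h : 0 < c) : J (fun x ↦ (√(f x))⁻¹) c⁻¹ (-d / (2 * c ^ 3)) := by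
  have h0 : f 0 ≠ 0 := by rw [a.2.1]; positivity
  have h1 : √(f 0) = c := by rw [a.2.1, sqrt_sq h.le]
  refine (inv (c := c) ⟨ContDiffAt.analyticAt (a.1.contDiffAt.sqrt h0), h1, a.2.2.sqrt h0⟩
    h.ne').cast rfl ?_
  rw [h1]; field_simp

theorem exp (a : J f 0 d) : J (fun x ↦ Real.exp (f x)) 1 d :=
  ⟨analyticAt_rexp.comp a.1, by simp [a.2.1], by simpa [a.2.1] using a.2.2.exp⟩

theorem ph (a : J f 0 d) : ∃ e, J (fun x ↦ ph1 (f x)) 1 e :=
  have h := (ph1_an _).comp a.1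
  ⟨_, h, by simp [a.2.1, ph1_zero], h.differentiableAt.hasDerivAt⟩

theorem O (a : J f 0 d) : (fun x ↦ f x - x ^ 1 * d) =O[𝓝[>] 0] fun x ↦ x ^ 2 := by
  obtain ⟨p, hp⟩ := a.1
  have h1 : AnalyticAt ℝ (dslope f 0) 0 := ⟨_, hp.has_fpower_series_dslope_fslope⟩
  have h2 := ((isBigO_refl (fun x : ℝ ↦ x) _).mul
    h1.differentiableAt.hasDerivAt.isBigO_sub).mono (nhdsWithin_le_nhds (s := Ioi 0))
  refine h2.congr (fun x ↦ ?_) fun x ↦ by ring
  have h3 := sub_smul_dslope f 0 x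
  rw [sub_zero, smul_eq_mul, a.2.1] at h3
  rw [dslope_same, a.2.2.deriv, mul_sub, h3]; ring

theorem O2 (a : J f 0 0) : f =O[𝓝[>] 0] fun x ↦ x ^ 2 := by simpa using a.O

end J

/-- the normal form for `0 < t` -/
noncomputable def fR (D F q p c : ℝ) : ℝ :=
  let W := (1 + D - (1 + 2 * D) * q + D * q ^ 2)⁻¹
  let e := ((1 + 2 * D) * c - D * (1 - F)⁻¹ * (p - q)) * W
  let m := 1 - q * e
  let u := m * F⁻¹
  let N := u⁻¹ * W
  let n := q * p * N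
  gR 1 q 1 m u e ((1 + 2 * D) * (u * W)) (q * D * (u * W)) n (q * p * n * p * N * N)
    ((√N)⁻¹ * (64 * F + 32 * a4 D F * n * (√(1 + 4 * n))⁻¹ ^ 5))

/-- the normal form for `t < 0` -/
noncomputable def fL (D F q p c : ℝ) : ℝ :=
  let W := (-D + (1 + 2 * D) * q - (1 + D) * q ^ 2)⁻¹
  let e := q * ((1 + D) * F⁻¹ * (p - q) - (1 + 2 * D) * c) * W
  let u := (1 - e) * (1 - F)⁻¹
  let m := -(F * u)
  let N := u⁻¹ * W
  let n := q * p * N
  gL 1 m u (1 + m) e (-(q * (1 + 2 * D) * (u * W))) (-(q * q * (1 + D) * (u * W))) n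
    (n * n * p * N * (√N)⁻¹ * (64 * F - 32 * a4 D F * n * (√(1 + 4 * n))⁻¹ ^ 5))

/-- the coefficient of first order -/
noncomputable def Ph (q c : ℝ) : ℝ := 16 * q * (1 - q ^ 2 + 2 * q * c) / ((1 + q) ^ 3 * (1 - q) ^ 2)

end Pool.Agent.Lib.MP_d6150d_an.UX
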