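import Pool.Agent.Lib.MP_d6150d_an.Z0
import Pool.Agent.Lib.MP_d6150d_an.KNJ
import Pool.Agent.Lib.MP_d6150d_an.GTreeS

/-! Tools for the side `D + F ≤ 0` of the isochronous center `(-1 / 2, 1 / 2)`. -/

namespace Pool.Agent.Lib.MP_d6150d_an.Z3

open Real Set Filter Topology Asymptotics

/-- the separator -/
noncomputable def E3 (D F v : ℝ) : ℝ :=
  (1 + F * (1 + D - F) * v) * (√(1 + F * (1 - F) * v))⁻¹ ^ 3

/-- the form of `ZR` which is regular at the center -/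
noncomputable def Zc (D F t : ℝ) : ℝ :=
  let i := (2 * ph1 t * ((1 + D) * exp t - D) * exp ((2 * F - 2) * t))⁻¹
  exp (F * t) * ((1 - 2 * F * t * (muR D F t * i)) ^ 2 + 8 * F * t * (muR D F t * i) ^ 2 *
    ((1 + 2 * D) * exp t - 2 * D) * exp ((2 * F - 2) * t) * i)

variable {D F t : ℝ}

set_option linter.unusedVariables false

theorem mem (h1 : -1 ≤ D) (h2 : D < 0) (t : ℝ) : t ∈ JR D := by
  have := mul_nonneg (by linarith : 0 ≤ 1 + D) (exp_pos t).le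
  simp only [JR, om, mem_ofPred_eq]; linarith

theorem Zc_eq (ht : t ∈ JR D) (h0 : t ≠ 0) : Zc D F t = ZR D F t := by
  have h1 : wR D t = t * ph1 t * ((1 + D) * exp t - D) := by
    rw [wR_eq, om, exp_eq_ph t]; ring
  have h2 : (1 + D) * exp t - D ≠ 0 := ne_of_gt ht
  have h3 := (ph1_pos t).ne'
  have h4 : exp ((2 - 2 * F) * t) = (exp ((2 * F - 2) * t))⁻¹ := by rw [← exp_neg]; ring_nf
  have h5 := (exp_pos ((2 * F - 2) * t)).ne'
  have h6 : (pjR F (PR D t) (QR D t) D).1 = -F * wR D t - ((1 + 2 * D) * exp t - 2 * D) := by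
    simp only [pjR, wR, QR]; ring
  simp only [Zc, ZR, U1, U2, yR, vR, h6, h1, h4]
  field_simp; ring

/-- the algebraic form -/
theorem ZR_form (ht : t ∈ JR D) (h0 : t ≠ 0) (hF : F ≠ 0) {m : ℝ}
    (hm : m * wR D t = F * vR D F t * (exp t / exp ((2 * F - 1) * t))) : ZR D F t = exp (F * t) *
      ((1 - m) ^ 2 + m ^ 2 * ((1 + 2 * D) * exp t - 2 * D) / (F * wR D t)) := by
  have hw := wR_ne ht h0
  have h4 : exp ((2 - 2 * F) * t) = exp t / exp ((2 * F - 1) * t) := by rw [← exp_sub]; ring_nf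
  have h6 : (pjR F (PR D t) (QR D t) D).1 = -F * wR D t - ((1 + 2 * D) * exp t - 2 * D) := by
    simp only [pjR, wR, QR]; ring
  obtain rfl := eq_div_of_mul_eq hw hm
  simp only [ZR, U1, U2, yR, h6, h4]
  field_simp; ring

theorem Fv_eq (t : ℝ) : (1 - F) * F * vR D F t * exp t =
    (1 - F) * exp t * ((1 + D) * (exp t * exp ((2 * F - 1) * t) - 1) -
      2 * F * (1 + 2 * D) * (t * ph1 ((2 * F - 1) * t))) +
      F * D * (exp t - exp ((2 * F - 1) * t)) := by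
  have e1 := exp_eq_ph (2 * F * t)
  have e2 := exp_eq_ph ((2 * F - 2) * t)
  rw [exp_a1, mul_right_comm, mul_assoc] at e1
  rw [vR_eq, exp_a2]
  linear_combination -(1 - F) * exp t * (1 + D) * e1 + F * D * exp t * e2

theorem y_sq (t : ℝ) : exp (F * t) ^ 2 = exp t * exp ((2 * F - 1) * t) := by
  rw [sq, ← exp_add, ← exp_add]; ring_nf

theorem E3_sc {l v z o : ℝ} (hl : 0 < l) (hz : z = l ^ 2) (ho : o = F * v * z) :
    (z + (1 + D - F) * o) * (√(z + (1 - F) * o))⁻¹ ^ 3 * l = E3 D F v := by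
  have : z + (1 - F) * o = l ^ 2 * (1 + F * (1 - F) * v) := by rw [ho, hz]; ring
  rw [this, sqrt_mul (sq_nonneg l), sqrt_sq hl.le, E3, ho, hz]
  field_simp

theorem jet3 {f : ℝ → ℝ} {a0 a1 a2 a3 a4 a5 a6 : ℝ} (J : Jet D F f a0 a1 a2 a3 a4 a5 a6)
    (e0 : a0 = 0) (e1 : a1 = 0) (e2 : a2 = 0) : f =O[𝓝 0] fun t ↦ t ^ 3 := by
  obtain ⟨h, ha, e⟩ := J
  have g := (gR_an (F := F) (zero_mem_JR D)).continuousAt
  have c := ha.continuousAt
  refine (cont_bigO (D := D) (F := F) (k := fun t ↦ a3 + a4 * gR D F t + a5 * gR D F t ^ 2 +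
    a6 * gR D F t ^ 3 + gR D F t ^ 4 * h t) (by fun_prop) 3).congr' ?_ EventuallyEq.rfl
  filter_upwards [e] with t e
  rw [e, e0, e1, e2]; ring

theorem center : (fun t ↦ E3 D F (vR D F t) - Zc D F t) =O[𝓝[≠] 0] fun t ↦ t ^ 3 := by
  obtain ⟨a6, U⟩ := jet_uR (D := D) (F := F)
  have z := zero_mem_JR D
  have v := AnJ.v (F := F) 0 z
  have v0 : vR D F 0 = 0 := by simp [vR]
  have a : AnalyticAt ℝ (fun t ↦ 1 + F * (1 - F) * vR D F t) 0 := by fun_prop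
  have p : ∀ᶠ t in 𝓝 0, 0 < 1 + F * (1 - F) * vR D F t :=
    a.continuousAt.eventually (lt_mem_nhds (by simp [v0]))
  obtain ⟨r1, r2, r3, r4, r5, r6, R⟩ := jet_ex (D := D) (F := F)
    (f := fun t ↦ (√(1 + F * (1 - F) * vR D F t))⁻¹)
    ((ContDiffAt.analyticAt (a.contDiffAt.sqrt (by simp [v0]))).inv (by simp [v0]))
  simp only [v0, mul_zero, add_zero, sqrt_one, inv_one] at R
  have N := fun c ↦ (Jet.const (D := D) (F := F) 1).lin Jet.v c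
  obtain ⟨h, ha, e⟩ := (R.mul R).mul (N (-(F * (1 - F))))
  obtain ⟨-, e1, e2, -⟩ := Jet.uniq ⟨h, ha, by
    filter_upwards [e, p] with t e p
    rw [← e, ← mul_inv, mul_self_sqrt p.le]; field_simp; ring⟩ (Jet.const 1)
  refine ((jet3 (((N (-(F * (1 + D - F)))).mul ((R.mul R).mul R)).lin
    ((Jet.const 1).lin (U.th.th.lin U 1) F) 1) (by ring) (by linear_combination 3 / 2 * e1) (by
      rw [ja2]; linear_combination 3 / 2 * e2 + 3 / 4 * r1 * e1)).mono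
      nhdsWithin_le_nhds).congr' ?_ EventuallyEq.rfl
  filter_upwards [self_mem_nhdsWithin, nhdsWithin_le_nhds ((JR_open D).mem_nhds z)] with t h0 ht
  have := phi4_eq (F := F) ht h0
  rw [phi4] at this
  rw [Zc_eq ht h0, E3, ZR]
  linear_combination F * this - F_mul_u (F := F) t

/-- the numerator on the line `D + F = 0`, in homogeneous form -/
def Nz (F s r φ ψ : ℝ) : ℝ :=
  (1 - F) * F * (s - r) ^ 3 * ψ * (F * s * r * ψ - (2 * F - 1) * φ * ((1 - F) * s + F * r) ^ 2) -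
    F * r * (s - r) * ((1 - F) * s + F * r) * (s * ψ - φ * ((1 - F) * s + F * r)) ^ 2 -
    (2 * F * r - (2 * F - 1) * s) * (φ * ((1 - F) * s + F * r) ^ 2 - s * r * ψ) ^ 2

theorem Nz_O {d s r φ ψ u f : ℝ → ℝ} (hd : ContinuousAt d 0) (hs : ContinuousAt s 0)
    (hr : ContinuousAt r 0) (hφ : ContinuousAt φ 0) (hψ : ContinuousAt ψ 0) (hu : ContinuousAt u 0)
    (e : ∀ x ∈ Ioo (0 : ℝ) (1 / 16),
      f x = u x * Nz (1 / 2 + x * d x / 2) (s x) (r x) (ψ x + x * φ x) (ψ x)) :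
    f =O[𝓝[>] 0] fun x ↦ x ^ 2 := by
  have : ContinuousAt (fun x ↦ u x * (ψ x ^ 2 * (s x - r x) ^ 2 * d x ^ 2 *
      (x * d x * (s x - r x) - (s x + r x)) ^ 3 / 8 +
      (1 / 2 * (s x + r x - x * d x * (s x - r x))) ^ 2 * (ψ x * φ x * (s x - r x) * d x *
        (s x ^ 2 + 6 * s x * r x + r x ^ 2 + 4 * (x * d x) * (r x ^ 2 - s x ^ 2) +
          3 * (x * d x) ^ 2 * (s x - r x) ^ 2) / 4 -
      φ x ^ 2 * (1 / 2 * (s x + r x - x * d x * (s x - r x))) *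
        ((1 / 2 + x * d x / 2) * r x * (s x - r x) + ((1 + x * d x) * r x - x * d x * s x) *
          (1 / 2 * (s x + r x - x * d x * (s x - r x))))))) 0 := by fun_prop
  refine (((isBigO_refl (fun x : ℝ ↦ x ^ 2) _).mul (this.isBigO_one ℝ)).mono
    nhdsWithin_le_nhds).congr' ?_ (by simp)
  filter_upwards [Ioo_mem_nhdsGT (by norm_num : (0 : ℝ) < 1 / 16)] with x hx
  rw [e x hx, Nz]; ring

theorem Nz_zero (s r ψ : ℝ) : Nz (1 / 2) s r ψ ψ = 0 := by rw [Nz]; ring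

theorem ph1_c {f : ℝ → ℝ} {x : ℝ} (h : ContinuousAt f x) : ContinuousAt (fun x ↦ ph1 (f x)) x :=
  (ph1_an _).continuousAt.comp h

theorem line_eq (h0 : t ≠ 0) (h1 : 0 < F) (h2 : F < 1) : E3 (-F) F (vR (-F) F t) - Zc (-F) F t =
    exp t * (exp (F * t) * (1 - F) ^ 2 * F * exp ((2 * F - 1) * t) * (exp t - 1) ^ 3 *
      ((1 - F) * exp t + F) ^ 3)⁻¹ * Nz F (exp t) 1 (exp ((2 * F - 1) * t)) 1 := by
  have ht := mem (D := -F) (by linarith) (by linarith) t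
  have e1 := Fv_eq (D := -F) (F := F) t
  have e2 := exp_eq_ph ((2 * F - 1) * t)
  have e3 := y_sq (F := F) t
  have e4 : wR (-F) t = (exp t - 1) * ((1 - F) * exp t + F) := by rw [wR_eq, om]; ring
  have s0 := exp_pos t
  have y0 := exp_pos (F * t)
  have s1 : exp t - 1 ≠ 0 := sub_ne_zero.2 (by simpa using h0)
  have g0 := sub_pos.2 h2
  have n0 : 0 < (1 - F) * exp t + F := by positivity
  have e5 : exp ((2 * F - 1) * t) = exp (F * t) ^ 2 / exp t := by rw [e3]; field_simp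
  have e6 : vR (-F) F t = (exp ((2 * F - 1) * t) * ((1 - F) * exp t + F) ^ 2 - exp t) /
      ((1 - F) * F * exp t) := by
    rw [eq_div_iff (by positivity)]
    linear_combination e1 - 2 * F * (1 - F) * exp t * e2
  have e7 : 1 + F * (1 - F) * vR (-F) F t = (exp (F * t) * ((1 - F) * exp t + F) / exp t) ^ 2 := by
    rw [e6, e5]; field_simp; ring
  rw [Zc_eq ht h0, ZR_form ht h0 h1.ne' (m := F * vR (-F) F t * (exp t / exp ((2 * F - 1) * t)) /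
    wR (-F) t) (div_mul_cancel₀ _ (wR_ne ht h0)), E3, e7, sqrt_sq (by positivity), e4, e6, e5, Nz]
  generalize hn : (1 - F) * exp t + F = n at *
  field_simp
  subst hn
  ring

theorem line (ε : ℝ) (hε : |ε| ≤ 1) (h0 : t ≠ 0) : (fun b ↦ E3 (-(1 / 2 + ε * b)) (1 / 2 + ε * b)
    (vR (-(1 / 2 + ε * b)) (1 / 2 + ε * b) t) - Zc (-(1 / 2 + ε * b)) (1 / 2 + ε * b) t)
      =O[𝓝[>] 0] fun b ↦ b ^ 2 := by
  have s1 : exp t - 1 ≠ 0 := sub_ne_zero.2 (by simpa using h0)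
  refine Nz_O (d := fun _ ↦ 2 * ε) (s := fun _ ↦ exp t) (r := fun _ ↦ 1) (ψ := fun _ ↦ 1)
    (φ := fun b ↦ 2 * ε * t * ph1 ((2 * (1 / 2 + ε * b) - 1) * t))
    (u := fun b ↦ exp t * (exp ((1 / 2 + ε * b) * t) * (1 - (1 / 2 + ε * b)) ^ 2 * (1 / 2 + ε * b) *
      exp ((2 * (1 / 2 + ε * b) - 1) * t) * (exp t - 1) ^ 3 *
      ((1 - (1 / 2 + ε * b)) * exp t + (1 / 2 + ε * b)) ^ 3)⁻¹) (by fun_prop) (by fun_prop)
    (by fun_prop) (continuousAt_const.mul (ph1_c (by fun_prop))) (by fun_prop)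
    (continuousAt_const.mul (.inv₀ (by fun_prop) (by
      have := exp_pos t
      simp only [mul_zero, add_zero]; positivity))) fun b hb ↦ ?_
  have := abs_le.1 hε
  rw [line_eq h0 (by nlinarith [hb.1, hb.2]) (by nlinarith [hb.1, hb.2])]
  congr 2
  · ring
  · rw [exp_eq_ph]; ring

theorem centerR : (fun s ↦ E3 D F (vR D F s) - Zc D F s) =O[𝓝[>] 0] fun s ↦ s ^ 3 :=
  center.mono (nhdsGT_le_nhdsNE 0)

theorem centerL : (fun s ↦ Zc D F (-s) - E3 D F (vR D F (-s))) =O[𝓝[>] 0] fun s ↦ s ^ 3 := by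
  have : Tendsto (fun s : ℝ ↦ -s) (𝓝[>] 0) (𝓝[≠] 0) :=
    (neg_zero (G := ℝ) ▸ tendsto_neg_nhdsGT (a := (0 : ℝ))).mono_right (nhdsLT_le_nhdsNE 0)
  exact ((center (D := D) (F := F)).comp_tendsto this).neg_left.neg_right.congr
    (fun s ↦ by simp) fun s ↦ by simp only [Function.comp]; ring

variable {f : List ℝ → ℝ} {A S B X : ℤ}

theorem hy3 (h1 : ∀ a b : ℝ, (fun s ↦ f [a, s, b]) =O[𝓝[>] 0] fun s ↦ s ^ 3)
    (h2 : ∀ s : ℝ, 0 < s → (fun b ↦ f [0, s, b]) =O[𝓝[>] 0] fun b ↦ b ^ 2) :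
    ∀ t ∈ [Dt.ct 0 (.dv 3 (.dv 2 .pos)) (.dv 3 .pos) (.dv 3 .pos)],
      Hy t [(0, A), (0, S), (0, B)] f := by
  simp only [List.mem_singleton, forall_eq]
  exact ⟨⟨fun x ↦ f (0 :: x), fun _ _ _ _ _ _ ↦ by simp [AllB, Ord],
    ⟨fun b _ _ ↦ h1 0 b, fun s h _ ↦ ⟨h2 s h, fun _ _ _ ↦ trivial⟩⟩, fun a _ _ ↦
      ⟨fun b _ _ ↦ (h1 a b).sub ((h1 0 b).const_mul_left _), fun _ _ _ ↦ trivial⟩⟩,
    fun a _ _ ↦ ⟨fun b _ _ ↦ h1 a b, fun _ _ _ ↦ trivial⟩⟩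

theorem hyP (h1 : ∀ e x : ℝ, f [0, 0, e, x] = 0) (h2 : ∀ k x : ℝ, 0 < k → k ≤ S / 2 ^ 47 → 0 ≤ x →
    x ≤ X / 2 ^ 47 → (fun e ↦ f [0, k, e, x]) =O[𝓝[>] 0] fun e ↦ e ^ 2) :
    ∀ t ∈ [Dt.ct 0 (.dv 1 (.dv 2 .pos)) .pos .pos], Hy t [(0, A), (0, S), (0, B), (0, X)] f := by
  simp only [List.mem_singleton, forall_eq]
  exact ⟨⟨fun x ↦ f (0 :: x), fun _ _ _ _ _ _ _ _ _ ↦ by simp [AllB, Ord],
    ⟨fun e _ _ x _ _ ↦ h1 e x, fun k a b ↦ ⟨fun x c d ↦ h2 k x a b (by simpa using c) d,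
      fun _ _ _ ↦ trivial⟩⟩, fun _ _ _ ↦ trivial⟩, fun _ _ _ ↦ trivial⟩

theorem hyM (h1 : ∀ a e x : ℝ, f [a, 0, e, x] = 0) (h2 : ∀ k x : ℝ, 0 < k → k ≤ S / 2 ^ 47 → 0 ≤ x →
    x ≤ X / 2 ^ 47 → (∀ a, f [a, k, 0, x] = 0) ∧
      (fun e ↦ f [0, k, e, x]) =O[𝓝[>] 0] fun e ↦ e ^ 2) :
    ∀ t ∈ [Dt.ct 0 (.dv 1 (.dv 2 .pos)) (.dv 1 (.dv 1 .pos)) (.dv 1 (.dv 1 .pos)),
      .nx (.dv 1 (.dv 1 .pos))], Hy t [(0, A), (0, S), (0, B), (0, X)] f := by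
  have h3 : ∀ a : ℝ, Hy (.dv 1 (.dv 1 .pos)) [(0, S), (0, B), (0, X)] fun x ↦ f (a :: x) := fun a ↦
    ⟨fun e _ _ x _ _ ↦ h1 a e x, fun k p q ↦ ⟨fun x c d ↦ (h2 k x p q (by simpa using c) d).1 a,
      fun _ _ _ ↦ trivial⟩⟩
  simp only [List.mem_cons, List.not_mem_nil, or_false, forall_eq_or_imp, forall_eq]
  exact ⟨⟨⟨fun x ↦ f (0 :: x), fun _ _ _ _ _ _ _ _ _ ↦ by simp [AllB, Ord],
    ⟨fun e _ _ x _ _ ↦ h1 0 e x, fun k a b ↦ ⟨fun x c d ↦ (h2 k x a b (by simpa using c) d).2,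
      fun _ _ _ ↦ trivial⟩⟩, fun a _ _ ↦ ⟨fun e _ _ x _ _ ↦ by simp [AllB, Ord, h1], fun k p q ↦
        ⟨fun x c d ↦ by simp [AllB, Ord, (h2 k x p q (by simpa using c) d).1], fun _ _ _ ↦ trivial⟩⟩⟩,
    fun a _ _ ↦ h3 a⟩, fun a _ _ ↦ h3 a⟩

theorem tail {b τ : ℝ} (h0 : 0 ≤ b) (h1 : b ≤ 1 / 16) (h : 6 ≤ τ) : ∃ χ : ℝ,
    χ = τ * ph1 (-(2 * b * τ)) ∧ 0 < χ ∧ χ⁻¹ ≤ 5 / 16 ∧ b * χ ≤ 1 / 2 ∧
      exp (-(2 * b * τ)) = 1 - 2 * (b * χ) ∧ exp (-τ) * χ ^ 2 ≤ 3 / 32 ∧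
      exp (-τ) * χ ≤ 1 / 16 * exp (-(2 * b * τ)) := by
  have e1 := exp_eq_ph (-(2 * b * τ))
  have p := ph1_pos (-(2 * b * τ))
  have z0 : 0 ≤ 2 * b * τ := by positivity
  have z1 : 2 * b * τ ≤ τ / 8 := by nlinarith
  have k : 1 ≤ (1 + 2 * b * τ) * ph1 (-(2 * b * τ)) ∧ ph1 (-(2 * b * τ)) ≤ 1 := by
    generalize 2 * b * τ = z at *
    rcases z0.eq_or_lt with rfl | z0
    · simp [ph1_zero]
    have a1 := add_one_le_exp (-z)
    have a2 := mul_le_mul_of_nonneg_right (add_one_le_exp z) (exp_pos (-z)).le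
    rw [← exp_add, add_neg_cancel, exp_zero] at a2
    exact ⟨le_of_mul_le_mul_left (by nlinarith) z0, le_of_mul_le_mul_left (by nlinarith) z0⟩
  have c0 : 0 < τ * ph1 (-(2 * b * τ)) := by positivity
  have c1 : τ * ph1 (-(2 * b * τ)) ≤ τ := by nlinarith [k.2]
  have x1 : (2.7 : ℝ) ≤ exp 1 := by linarith [exp_one_gt_d9]
  have x5 : (143 : ℝ) ≤ exp 5 := by
    rw [show (5 : ℝ) = (5 : ℕ) * 1 by norm_num, exp_nat_mul]
    exact le_trans (by norm_num) (pow_le_pow_left₀ (by norm_num) x1 5)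
  refine ⟨_, rfl, c0, ?_, by linarith [exp_pos (-(2 * b * τ))], by linarith, ?_, ?_⟩
  · rw [inv_le_comm₀ c0 (by norm_num)]
    nlinarith [k.1]
  · have a1 : exp τ = exp 5 * exp 1 * exp (τ - 6) := by rw [← exp_add, ← exp_add]; ring_nf
    have a2 := quadratic_le_exp_of_nonneg (sub_nonneg.2 h)
    have a3 : 384 * exp (τ - 6) ≤ exp τ := by
      rw [a1]; gcongr; nlinarith
    rw [exp_neg, inv_mul_le_iff₀ (exp_pos τ)]
    nlinarith [pow_le_pow_left₀ c0.le c1 2]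
  · have a1 : exp τ * exp (-(2 * b * τ)) = exp 5 * exp (τ - 2 * b * τ - 5) := by
      rw [← exp_add, ← exp_add]; ring_nf
    have a2 := add_one_le_exp (τ - 2 * b * τ - 5)
    rw [exp_neg τ, inv_mul_le_iff₀ (exp_pos τ), mul_left_comm, a1]
    nlinarith

theorem right (ht : t ∈ JR D) (h0 : t ≠ 0) (hF : F ≠ 0) (hG : 1 - F ≠ 0) {q z W o : ℝ}
    (hq : q = (exp t)⁻¹) (hz : z = q * (exp ((2 * F - 1) * t))⁻¹)
    (hW : W = 1 + D - (1 + 2 * D) * q + D * q ^ 2) (ho : o = W - ((1 + 2 * D) *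
      (t * ph1 ((2 * F - 1) * t) * z) - D * (z - q ^ 2) * (1 - F)⁻¹)) : W ≠ 0 ∧
    z * exp (F * t) * (E3 D F (vR D F t) - ZR D F t) =
      z * ((z + (1 + D - F) * o) * (√(z + (1 - F) * o))⁻¹ ^ 3) -
        ((1 - o * W⁻¹) ^ 2 + q * ((o * W⁻¹) ^ 2 * (1 + 2 * D - 2 * D * q) * W⁻¹ / F)) := by
  have e1 := Fv_eq (D := D) (F := F) t
  have e2 := exp_eq_ph ((2 * F - 1) * t)
  have e3 := y_sq (F := F) t
  have s0 := (exp_pos t).ne'
  have y0 := exp_pos (F * t)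
  have p0 := (exp_pos ((2 * F - 1) * t)).ne'
  have hw := wR_ne ht h0
  have e4 : W = wR D t / exp t ^ 2 := by rw [hW, hq, wR, PR, QR]; field_simp
  have e5 : o = F * vR D F t * z := by
    rw [ho, hW, hz, hq]
    rw [mul_assoc] at e2
    generalize exp t = s, exp ((2 * F - 1) * t) = φ, t * ph1 _ = c at *
    field_simp
    linear_combination -e1 - (1 - F) * (1 + 2 * D) * s * e2
  have e6 : z = (exp (F * t))⁻¹ ^ 2 := by rw [inv_pow, e3, hz, hq, mul_inv]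
  refine ⟨e4 ▸ div_ne_zero hw (pow_ne_zero 2 s0), ?_⟩
  rw [← E3_sc (inv_pos.2 y0) e6 e5, ZR_form ht h0 hF (m := o * W⁻¹) (by
    rw [e5, e4, hz, hq]; field_simp)]
  generalize (z + (1 + D - F) * o) * _ = β, o * W⁻¹ = m
  rw [e6, e4, hq]; field_simp

theorem left (ht : t ∈ JR D) (h0 : t ≠ 0) (hF : F ≠ 0) (hG : 1 - F ≠ 0) {s z W n : ℝ}
    (hs : s = exp t) (hz : z = s * (exp ((2 * F - 1) * t))⁻¹)
    (hW : W = -D + (1 + 2 * D) * s - (1 + D) * s ^ 2) (hn : n = (1 + 2 * D) *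
      -(t * ph1 ((2 * F - 1) * t) * z) - D * (1 - z) * (1 - F)⁻¹) :
    exp ((2 * F - 1) * t) * (ZR D F t - E3 D F (vR D F t)) = exp (F * t) * (exp ((2 * F - 1) * t) *
      ((n * W⁻¹) ^ 2 - ((n - W) * W⁻¹) ^ 2 * ((1 + 2 * D) * s - 2 * D) * W⁻¹ / F) -
      (z + (1 + D - F) * (n - W)) * (√(z + (1 - F) * (n - W)))⁻¹ ^ 3) := by
  have e1 := Fv_eq (D := D) (F := F) t
  have e2 := exp_eq_ph ((2 * F - 1) * t)
  have e3 := y_sq (F := F) t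
  have s0 := (exp_pos t).ne'
  have y0 := exp_pos (F * t)
  have p0 := exp_pos ((2 * F - 1) * t)
  have hw := wR_ne ht h0
  have e4 : W = -wR D t := by rw [hW, hs, wR, PR, QR]; ring
  have e5 : n - W = F * vR D F t * z := by
    rw [hn, hW, hz, hs]
    rw [mul_assoc] at e2
    generalize exp t = s, exp ((2 * F - 1) * t) = φ, t * ph1 _ = c at *
    field_simp
    linear_combination -e1 - (1 - F) * (1 + 2 * D) * s * e2
  have e6 : z = (exp (F * t) / exp ((2 * F - 1) * t)) ^ 2 := by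
    rw [div_pow, e3, hz, hs]; field_simp
  rw [← E3_sc (div_pos y0 p0) e6 e5, ZR_form ht h0 hF (m := -((n - W) * W⁻¹)) (by
    rw [e5, e4, hz, hs]; field_simp)]
  generalize (z + (1 + D - F) * (n - W)) * _ = β
  rw [e4, hs]; field_simp; ring

end Pool.Agent.Lib.MP_d6150d_an.Z3
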