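import Pool.Agent.Lib.MP_d6150d_an.UXJ
import Pool.Agent.Lib.MP_d6150d_an.Z3a

/-! The operator of order two and the forms of its kernel. -/

namespace Pool.Agent.Lib.MP_d6150d_an.UX

open Real Set Filter Topology Asymptotics

/-- the operator -/
noncomputable def oo : Gp := ⟨16, -64, 0, 12, -28, 0, 3, -2, 0, 1 / 4, 0, 0⟩

/-- the separator -/
noncomputable def Es (D F v : ℝ) : ℝ := a4 D F * v ^ 2 * (√(1 + v / 4))⁻¹ ^ 5

/-- the kernel minus the separator -/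
noncomputable def Ky (D F t : ℝ) : ℝ := F * oo.K D F t + oo.C0 (vR D F t) - Es D F (vR D F t)

/-- the form which is regular at the center -/
noncomputable def Gc (D F t : ℝ) : ℝ :=
  let i := (ph1 t * ((1 + D) * exp t - D))⁻¹
  let U := muR D F t * exp ((2 - 2 * F) * t) * i
  kC (F * (t * U)) (t * U) (U * i * ((1 + 2 * D) * exp t)) (U * i * D) (t ^ 2 * muR D F t) -
    exp (-(F * t)) * (64 * F * (t * muR D F t * (√(muR D F t))⁻¹) +
      a4 D F * (t ^ 2 * muR D F t) ^ 2 * (√(1 + t ^ 2 * muR D F t / 4))⁻¹ ^ 5)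

variable {D F t : ℝ}

theorem red (hF : 0 < F) (h : ∀ t ∈ JR D, t ≠ 0 → 0 < t * Ky D F t) : NoThree D F := by
  refine CritG.noThree ⟨oo, 1, fun _ ↦ 0, fun _ ↦ 0, fun a ha b hb a0 b0 e ↦
    ⟨hasDerivAt_const _ _, ?_, by simp [Gp.S, oo], ?_⟩⟩
  · have := vR_pos (F := F) hb b0.ne'
    simp only [Gp.P, oo]; positivity
  have p1 := neg_of_mul_pos_right (h a ha a0.ne) a0.le
  have p2 := (mul_pos_iff_of_pos_left b0).1 (h b hb b0.ne')
  rw [Ky, e] at p1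
  rw [Ky] at p2
  exact lt_of_mul_lt_mul_left (a := F) (by linarith) hF.le

theorem kC_eq (F Y a b v : ℝ) : kC (F * (2 * Y)) (2 * Y) (2 * Y * a) (2 * Y * b) v =
    F * (16 * oo.P v * (Y ^ 4 * (pjR F (1 + a - b) a b).2.2) +
      (96 * oo.P v + 8 * oo.C3 v) * (Y ^ 3 * (pjR F (1 + a - b) a b).2.1) +
      (112 * oo.P v + 24 * oo.C3 v + 4 * oo.C2 v) * (Y ^ 2 * (pjR F (1 + a - b) a b).1) +
      (16 * oo.P v + 8 * oo.C3 v + 4 * oo.C2 v + 2 * oo.C1 v) * Y) + oo.C0 v := by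
  simp only [kC, pjR, oo, Gp.P, Gp.C3, Gp.C2, Gp.C1, Gp.C0]; ring

theorem Ky_eq (ht : t ∈ JR D) (h0 : t ≠ 0) {u A B : ℝ} (hu : u = 2 * (yR D F t / wR D t))
    (hA : A = u * ((wR D t)⁻¹ * QR D t)) (hB : B = u * ((wR D t)⁻¹ * D)) : Ky D F t =
      exp (F * t) * kC (F * u) u A B (vR D F t) - 64 * F * MP_d6150d_an.gR D F t -
        Es D F (vR D F t) := by
  have hw := wR_ne ht h0
  have e : 1 + (wR D t)⁻¹ * QR D t - (wR D t)⁻¹ * D = (wR D t)⁻¹ * PR D t := by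
    field_simp; rw [wR]; ring
  have e1 : 4 * oo.p0 + 2 * oo.q0 + oo.r0 = -64 := by norm_num [oo]
  rw [hA, hB, hu, kC_eq, e, pjR_smul, Ky, Gp.K_eq ht h0, e1, U1, U2, U3, U4]
  generalize pjR F _ _ _ = j, oo.P _ = P, oo.C3 _ = c3, oo.C2 _ = c2, oo.C1 _ = c1
  have := F_mul_u (F := F) t
  generalize oo.C0 _ = c0, Es D F _ = E, uR F t = z at *
  simp only [div_eq_mul_inv, ← inv_pow]
  linear_combination c0 * this

theorem Gc_eq (ht : t ∈ JR D) (h0 : t ≠ 0) : Gc D F t = exp (-(F * t)) * Ky D F t := by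
  have h1 : wR D t = t * ph1 t * ((1 + D) * exp t - D) := by
    rw [wR_eq, om, exp_eq_ph t]; ring
  have h2 : (1 + D) * exp t - D ≠ 0 := ne_of_gt ht
  have h3 := (ph1_pos t).ne'
  have h4 := (sqrt_pos.2 (muR_pos (F := F) ht)).ne'
  have h5 : t * muR D F t * (√(muR D F t))⁻¹ = MP_d6150d_an.gR D F t := by
    rw [MP_d6150d_an.gR, mul_assoc, ← div_eq_mul_inv, div_sqrt]
  have h6 : exp (-(F * t)) * exp (F * t) = 1 := by rw [← exp_add]; simp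
  rw [Gc, h5, Ky_eq ht h0 (u := t * (muR D F t * exp ((2 - 2 * F) * t) *
    (ph1 t * ((1 + D) * exp t - D))⁻¹)) (by rw [h1, yR, vR]; field_simp)
    (A := muR D F t * exp ((2 - 2 * F) * t) * (ph1 t * ((1 + D) * exp t - D))⁻¹ *
      (ph1 t * ((1 + D) * exp t - D))⁻¹ * ((1 + 2 * D) * exp t)) (by rw [h1, QR]; field_simp)
    (B := muR D F t * exp ((2 - 2 * F) * t) * (ph1 t * ((1 + D) * exp t - D))⁻¹ *
      (ph1 t * ((1 + D) * exp t - D))⁻¹ * D) (by rw [h1]; field_simp), Es, vR]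
  generalize kC _ _ _ _ _ = k
  linear_combination -k * h6

theorem Gc_zero : Gc D F 0 = 0 := by
  simp only [Gc, kC, muR_zero, ph1_zero, mul_zero, exp_zero, zero_mul]; ring

theorem center : Gc D F =O[𝓝[≠] 0] fun t ↦ t ^ 5 := by
  obtain ⟨a6, K⟩ := oo.K_jet (D := D) (F := F)
  have z := zero_mem_JR D
  have v := AnJ.v (F := F) 0 z
  have v0 : vR D F 0 = 0 := by simp [vR]
  have a : AnalyticAt ℝ (fun t ↦ 1 + vR D F t / 4) 0 := by fun_prop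
  obtain ⟨r1, r2, r3, r4, r5, r6, R⟩ := jet_ex (D := D) (F := F)
    (f := fun t ↦ (√(1 + vR D F t / 4))⁻¹ ^ 5)
    (((ContDiffAt.analyticAt (a.contDiffAt.sqrt (by simp [v0]))).inv (by simp [v0])).pow 5)
  simp only [v0, zero_div, add_zero, sqrt_one, inv_one, one_pow] at R
  have J := (((((Jet.const F).mul K).add (Jet.poly 0 0 (-1) (-3 / 4) 0)).lin
    ((Jet.poly 0 0 (a4 D F) 0 0).mul R) 1).congr (k := Ky D F) fun t _ ↦ by
      simp only [Ky, Es, Gp.C0, oo]; ring).cast (b0 := 0) (b1 := 0) (b2 := 0) (b3 := 0) (b4 := 0)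
      (by ring) (by ring) (by ring) (by simp only [oo]; ring) (by simp only [oo, a4]; ring) rfl rfl
  have c : ContinuousAt (fun t ↦ exp (-(F * t))) 0 := by fun_prop
  refine (((c.isBigO_one ℝ).mul (J.center5 (E := fun _ ↦ 0) continuousAt_const)).mono
    nhdsWithin_le_nhds).congr' ?_ (by simp)
  filter_upwards [self_mem_nhdsWithin, nhdsWithin_le_nhds ((JR_open D).mem_nhds z)] with t h0 ht
  rw [Gc_eq ht h0]; ring

theorem gR_base {q u e A B v κ o : ℝ} (hv : v ≠ 0) (hκ : q * κ = v⁻¹ ^ 3) :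
    v ^ 3 * q * gR 1 q 1 (1 - q * e) u e A B v⁻¹ κ o = kC (1 - q * e) u (q * A) (q * B) v - o := by
  have : ∀ x y : ℝ, v ^ 3 * q * (κ * x - y) = x - v ^ 3 * q * y := fun x y ↦ by
    rw [mul_sub, mul_assoc, ← mul_assoc q, hκ]; field_simp
  simp only [gR, sub_sub (κ * _), this, kC]
  field_simp
  ring

theorem gL_base {u A B v o : ℝ} (hv : v ≠ 0) :
    v ^ 3 * gL 1 (F * u) (-u) (1 + F * u) (1 + (1 - F) * u) (-A) (B - u - A) v⁻¹ o =
      -kC (F * u) u A B v - v ^ 3 * o := by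
  simp only [gL, kC]
  field_simp
  ring

theorem gR_hom (K x ρ m u e A B ν c o : ℝ) : K * gR K x ρ m u (ρ * e) A B ν c o =
    gR 1 (K * (x * ρ ^ 2)) 1 m u e (K * A) (K * B) ν (K * c) o := by
  simp only [gR]; ring

theorem gL_hom (k m u n e A B ν o : ℝ) : k * gL k m u n e A B ν o =
    gL 1 m u (k * n) (k * e) (k * k * A) (k * k * B) ν (k * o) := by
  simp only [gL]; ring

theorem gR_x (K ρ u e A o : ℝ) : gR K 0 ρ 1 u e A 0 0 0 o = -A * (2 - u) * (4 - u) / 4 := by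
  simp only [gR]; ring

theorem gR_k {K ρ : ℝ} (h : K * ρ = 0) (x e A B o : ℝ) : gR K x ρ 1 2 e A B 0 0 o = 0 := by
  simp only [gR, mul_right_comm K x, h]; ring

theorem gL_x (k m u n : ℝ) : gL k m u n 0 0 0 0 0 = (1 - m) * n * (m + 1) * (m + 3) / 4 := by
  simp only [gL]; ring

theorem gL_k (n e A B : ℝ) : gL 0 (-1) 2 n e A B 0 0 = 0 := by
  simp only [gL]; ring

theorem r_eq {g : ℝ} (h : 0 < g) : (√(1 + 4 * (g ^ 2)⁻¹))⁻¹ = g / 2 * (√(1 + g ^ 2 / 4))⁻¹ := by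
  rw [show 1 + 4 * (g ^ 2)⁻¹ = (2 / g) ^ 2 * (1 + g ^ 2 / 4) by field_simp; ring,
    sqrt_mul (sq_nonneg _), sqrt_sq (by positivity)]
  field_simp

theorem fR_eq {q p c g y w : ℝ} (hF : F ≠ 0) (g0 : 0 < g) (y0 : 0 < y) (w0 : w ≠ 0)
    (hw : 1 + D - (1 + 2 * D) * q + D * q ^ 2 = w) (hy : q * p = y⁻¹ ^ 2)
    (hv : F * g ^ 2 * (q * p) = w - q * ((1 + 2 * D) * c - D * (1 - F)⁻¹ * (p - q))) {u : ℝ}
    (hu : u = g ^ 2 * (q * p) / w) : y * (g ^ 2) ^ 3 * q * fR D F q p c =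
      y * kC (F * u) u (q * ((1 + 2 * D) * (u * w⁻¹))) (q * (q * D * (u * w⁻¹))) (g ^ 2) -
        64 * F * g - Es D F (g ^ 2) := by
  have e1 : 1 - q * (((1 + 2 * D) * c - D * (1 - F)⁻¹ * (p - q)) * w⁻¹) = F * u := by
    rw [hu, ← mul_div_assoc, ← mul_assoc F, hv]; field_simp
  have e2 : F * u * F⁻¹ = u := by field_simp
  have e3 : u⁻¹ * w⁻¹ = (g / y)⁻¹ ^ 2 := by rw [hu, hy]; field_simp
  have e4 : q * p * (g / y)⁻¹ ^ 2 = (g ^ 2)⁻¹ := by rw [hy]; field_simp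
  have := gR_base (q := q) (u := u) (e := ((1 + 2 * D) * c - D * (1 - F)⁻¹ * (p - q)) * w⁻¹)
    (A := (1 + 2 * D) * (u * w⁻¹)) (B := q * D * (u * w⁻¹)) (v := g ^ 2)
    (κ := q * p * (g ^ 2)⁻¹ * p * (g / y)⁻¹ ^ 2 * (g / y)⁻¹ ^ 2)
    (o := g / y * (64 * F + 32 * a4 D F * (g ^ 2)⁻¹ * (g / 2 * (√(1 + g ^ 2 / 4))⁻¹) ^ 5))
    (by positivity) (by linear_combination (g ^ 2)⁻¹ * (q * p * (g / y)⁻¹ ^ 2 + (g ^ 2)⁻¹) * e4)
  simp only [fR, hw, e1, e2, e3, e4, r_eq g0] at this ⊢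
  rw [sqrt_sq (by positivity), inv_inv, mul_assoc y, mul_assoc y, this, Es]
  field_simp
  ring

theorem fL_eq {q p c g y w : ℝ} (hF : 1 - F ≠ 0) (g0 : 0 < g) (y0 : 0 < y) (p0 : 0 < p) (w0 : w ≠ 0)
    (hw : -D + (1 + 2 * D) * q - (1 + D) * q ^ 2 = w) (hy : q = y ^ 2 * p)
    (hv : (1 - F) * g ^ 2 * (q * p) = w - q * ((1 + D) * F⁻¹ * (p - q) - (1 + 2 * D) * c)) {u : ℝ}
    (hu : -u = g ^ 2 * (q * p) / w) : y * (g ^ 2) ^ 3 * fL D F q p c =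
      -(y * kC (F * u) u (-(q * (1 + 2 * D) * (u * w⁻¹))) (-(D * (u * w⁻¹))) (g ^ 2) +
        64 * F * g - Es D F (g ^ 2)) := by
  have e1 : q * ((1 + D) * F⁻¹ * (p - q) - (1 + 2 * D) * c) * w⁻¹ = 1 + (1 - F) * u := by
    rw [← neg_neg u, hu, mul_neg, ← mul_div_assoc, ← mul_assoc (1 - F), hv]; field_simp; ring
  have e2 : (1 - (1 + (1 - F) * u)) * (1 - F)⁻¹ = -u := by field_simp; ring
  have e3 : (-u)⁻¹ * w⁻¹ = (g * y * p)⁻¹ ^ 2 := by rw [hu, hy]; field_simp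
  have e4 : q * p * (g * y * p)⁻¹ ^ 2 = (g ^ 2)⁻¹ := by rw [hy]; field_simp
  have e5 : -(F * -u) = F * u := by ring
  have e6 : -(q * (1 + 2 * D) * (-u * w⁻¹)) = - -(q * (1 + 2 * D) * (u * w⁻¹)) := by ring
  have e7 : -(q * q * (1 + D) * (-u * w⁻¹)) =
      -(D * (u * w⁻¹)) - u - -(q * (1 + 2 * D) * (u * w⁻¹)) := by
    field_simp; linear_combination -u * hw
  simp only [fL, hw, e1, e2, e3, e4, e5, r_eq g0]
  rw [e6, e7, sqrt_sq (by positivity), inv_inv, mul_assoc y, gL_base (by positivity), Es]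
  field_simp
  ring

theorem right (ht : t ∈ JR D) (h0 : 0 < t) (hF : F ≠ 0) (hG : 1 - F ≠ 0) :
    exp (F * t) * vR D F t ^ 3 * exp (-t) *
      fR D F (exp (-t)) (exp ((1 - 2 * F) * t)) (t * ph1 ((1 - 2 * F) * t)) = Ky D F t := by
  have e1 := Z3.Fv_eq (D := D) (F := F) t
  have e2 := exp_eq_ph ((1 - 2 * F) * t)
  have e3 : exp ((2 * F - 1) * t) = (exp ((1 - 2 * F) * t))⁻¹ := by rw [← exp_neg]; ring_nf
  have e4 : exp ((2 - 2 * F) * t) = exp t * exp ((1 - 2 * F) * t) := by rw [← exp_add]; ring_nf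
  have s0 := (exp_pos t).ne'
  have p0 := (exp_pos ((1 - 2 * F) * t)).ne'
  have hw := wR_ne ht h0.ne'
  rw [ph1_neg, e3, show -((2 * F - 1) * t) = (1 - 2 * F) * t by ring] at e1
  rw [Ky_eq ht h0.ne' rfl rfl rfl, ← gR_sq ht, fR_eq (w := wR D t / exp t ^ 2) hF (gR_pos ht h0)
    (exp_pos _) (by positivity) (by rw [exp_neg, wR, PR, QR]; field_simp)
    (by rw [← exp_neg (F * t), sq, ← exp_add, ← exp_add]; ring_nf) ?_
    (u := 2 * (yR D F t / wR D t)) (by rw [gR_sq ht, yR, e4, exp_neg]; field_simp)]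
  · rw [exp_neg, QR]; congr 4 <;> field_simp
  rw [gR_sq ht, exp_neg, wR, PR, QR]
  generalize exp t = s, exp ((1 - 2 * F) * t) = φ, ph1 _ = c, vR D F t = v at *
  field_simp at e1 ⊢
  linear_combination e1 - (1 - F) * (1 + 2 * D) * s * e2

theorem left (ht : -t ∈ JR D) (h0 : 0 < t) (hF : F ≠ 0) (hG : 1 - F ≠ 0) :
    exp (F * -t) * vR D F (-t) ^ 3 *
      fL D F (exp (-t)) (exp ((2 * F - 1) * t)) (t * ph1 ((2 * F - 1) * t)) = -Ky D F (-t) := by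
  have e1 := Z3.Fv_eq (D := D) (F := F) (-t)
  have e2 := exp_eq_ph ((2 * F - 1) * t)
  have e3 : exp ((2 * F - 1) * -t) = (exp ((2 * F - 1) * t))⁻¹ := by rw [← exp_neg]; ring_nf
  have e4 : exp ((2 - 2 * F) * -t) = exp (-t) * exp ((2 * F - 1) * t) := by rw [← exp_add]; ring_nf
  have s0 := (exp_pos (-t)).ne'
  have p0 := (exp_pos ((2 * F - 1) * t)).ne'
  have h1 := neg_neg_iff_pos.2 h0
  have hw := wR_ne ht h1.ne
  have hg : (-MP_d6150d_an.gR D F (-t)) ^ 2 = vR D F (-t) := by rw [neg_sq, gR_sq ht]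
  rw [ph1_neg, e3, show -((2 * F - 1) * -t) = (2 * F - 1) * t by ring] at e1
  rw [Ky_eq ht h1.ne rfl rfl rfl, ← hg, fL_eq (w := -wR D (-t)) hG (neg_pos.2 (gR_neg ht h1))
    (exp_pos _) (exp_pos _) (neg_ne_zero.2 hw) (by rw [wR, PR, QR]; ring)
    (by rw [sq, ← exp_add, ← exp_add]; ring_nf) ?_
    (u := 2 * (yR D F (-t) / wR D (-t))) (by rw [hg, yR, e4]; field_simp)]
  · rw [QR, mul_neg (64 * F), ← sub_eq_add_neg]; congr 5 <;> field_simp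
  rw [hg, wR, PR, QR]
  generalize exp (-t) = s, exp ((2 * F - 1) * t) = φ, ph1 _ = c, vR D F (-t) = v at *
  field_simp at e1 ⊢
  linear_combination e1 + F * (1 + 2 * D) * s * e2

end Pool.Agent.Lib.MP_d6150d_an.UX
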