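import Pool.Agent.Lib.MP_d6150d_an.UXcULD

/-! A generated chart: the computations. -/

namespace Pool.Agent.Lib.MP_d6150d_an.UXcUL

theorem k0 : chkT C ts 0xbbbb2bb22b200 [(0, 14293651161088), (0, 8796093022208), (0, 8796093022208)]
    = true := by
  decide +kernel

theorem k1 : chkT C ts 0xbb2bbb222 [(0, 7146825580544), (0, 8796093022208), (8796093022208,
    17592186044416)] = true := by
  decide +kernel

theorem k2 : chkT C ts 0xbbb12bb2bb212 [(7146825580544, 14293651161088), (0, 8796093022208),
    (8796093022208, 17592186044416)] = true := by
  decide +kernel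

theorem k3 : chkT C ts 0xbb2bb22 [(0, 7146825580544), (0, 8796093022208), (17592186044416,
    35184372088832)] = true := by
  decide +kernel

theorem k4 : chkT C ts 0xbbb12bb2bb212 [(7146825580544, 14293651161088), (0, 8796093022208),
    (17592186044416, 35184372088832)] = true := by
  decide +kernel

theorem k5 : chkT C ts 0xbb2bb22 [(0, 7146825580544), (0, 8796093022208), (35184372088832,
    70368744177664)] = true := by
  decide +kernel

theorem k6 : chkT C ts 0xbbb12bb1bb222 [(7146825580544, 14293651161088), (0, 8796093022208),
    (35184372088832, 70368744177664)] = true := by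
  decide +kernel

end Pool.Agent.Lib.MP_d6150d_an.UXcUL
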