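import Pool.Agent.Lib.MP_d6150d_an.GEq
import Pool.Agent.Lib.MP_d6150d_an.UXM
import Pool.Agent.Lib.MP_d6150d_an.GTreeS
import Pool.Agent.Lib.MP_d6150d_an.UXcULK0

/-! A generated chart: the inequality. -/

namespace Pool.Agent.Lib.MP_d6150d_an.UXcUL

set_option linter.unnecessarySeqFocus false
set_option linter.unusedTactic false
set_option linter.unusedVariables false
set_option linter.unusedSimpArgs false

def box : List (ℤ × ℤ) := [(0, 14293651161088), (0, 8796093022208), (0, 70368744177664)]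

theorem gd : GdT C ts box := .split 2 (.split 2 (.split 2 (chkT_sound k0) (.split 0 (chkT_sound k1)
    (chkT_sound k2))) (.split 0 (chkT_sound k3) (chkT_sound k4))) (.split 0 (chkT_sound k5)
    (chkT_sound k6))

set_option maxRecDepth 100000 in
theorem eq {a b s F D t mu x p e y i U u m A B v g r z18 z19 : ℝ} (hF : F = 1 / 2 - b) (hD : D = a -
    F) (ht : t = -s) (hmu : mu = muR D F t) (hx : x = Real.exp t) (hp : p = ph1 t) (he : e =
    Real.exp ((2 - 2 * F) * t)) (hy : y = Real.exp (-(F * t))) (hi : i = (p * ((1 + D) * x - D))⁻¹)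
    (hU : U = mu * e * i) (hu : u = t * U) (hm : m = F * u) (hA : A = U * i * ((1 + 2 * D) * x)) (hB
    : B = U * i * D) (hv : v = t ^ 2 * mu) (hg : g = (√mu)⁻¹) (hr : r = (√(1 + v / 4))⁻¹) (hz18 :
    z18 = UX.a4 D F) (hz19 : z19 = UX.kC m u A B v) : outR prog 0 [a, b, s] = y * (64 * F * (t * mu
    * g) + z18 * v ^ 2 * r ^ 5) - z19 := by
  replace hF : F = (((Int.cast (1) : ℝ) / (Nat.cast 2 : ℝ)) - b) := hF.trans (by push_cast <;> ring)
  replace hD : D = (a - F) := hD.trans (by push_cast <;> ring)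
  replace ht : t = ((Int.cast (-1) : ℝ) * s) := ht.trans (by push_cast <;> ring)
  replace hmu : mu = (mMu D F t) := hmu.trans (mMu_0 ..)
  replace he : e = (Real.exp (((Int.cast (2) : ℝ) - ((Int.cast (2) : ℝ) * F)) * t)) := he.trans
    (congrArg Real.exp (by push_cast <;> ring))
  replace hy : y = (Real.exp ((Int.cast (-1) : ℝ) * (F * t))) := hy.trans (congrArg Real.exp (by
    push_cast <;> ring))
  replace hi : i = (p * ((((Int.cast (1) : ℝ) + D) * x) - D))⁻¹ := hi.trans (by push_cast <;> ring)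
  replace hU : U = ((mu * e) * i) := hU.trans (by push_cast <;> ring)
  replace hu : u = (t * U) := hu.trans (by push_cast <;> ring)
  replace hm : m = (F * u) := hm.trans (by push_cast <;> ring)
  replace hA : A = ((U * i) * (((Int.cast (1) : ℝ) + ((Int.cast (2) : ℝ) * D)) * x)) := hA.trans (by
    push_cast <;> ring)
  replace hB : B = ((U * i) * D) := hB.trans (by push_cast <;> ring)
  replace hv : v = ((t * t) * mu) := hv.trans (by push_cast <;> ring)
  replace hr : r = (√((Int.cast (1) : ℝ) + (((Int.cast (1) : ℝ) / (Nat.cast 4 : ℝ)) * v)))⁻¹ :=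
    hr.trans (congrArg (fun x : ℝ ↦ (√x)⁻¹) (by push_cast <;> ring))
  replace hz18 : z18 = (mA4 D F) := hz18.trans (mA4_0 ..)
  replace hz19 : z19 = (mKC m u A B v) := hz19.trans (mKC_0 ..)
  have e0 : ((y * ((((Int.cast (64) : ℝ) * F) * ((t * mu) * g)) + ((z18 * (v * v)) * (((r * r) * (r
    * r)) * r)))) - z19) = y * (64 * F * (t * mu * g) + z18 * v ^ 2 * r ^ 5) - z19 := by push_cast
    <;> ring
  subst hF hD ht hmu hx hp he hy hi hU hu hm hA hB hv hg hr hz18 hz19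
  refine Eq.trans ?_ e0
  simp only [outR, prog, prog1, prog2, prog3, runR, stepR, gtR, mGR, mGL, mKC, mA4, mMu]

theorem l0 : ((0 : ℤ) : ℝ) / 2 ^ 47 = 0 := by norm_num
theorem u0 : (13 / 128 : ℝ) = ((14293651161088 : ℤ) : ℝ) / 2 ^ 47 := by norm_num
theorem l1 : ((0 : ℤ) : ℝ) / 2 ^ 47 = 0 := by norm_num
theorem u1 : (1 / 16 : ℝ) = ((8796093022208 : ℤ) : ℝ) / 2 ^ 47 := by norm_num
theorem l2 : ((0 : ℤ) : ℝ) / 2 ^ 47 = 0 := by norm_num
theorem u2 : (1 / 2 : ℝ) = ((70368744177664 : ℤ) : ℝ) / 2 ^ 47 := by norm_num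

theorem out (H : ∀ t ∈ ts, Hy t box (outR prog 0)) {a b s : ℝ} (a0 : 0 ≤ a) (b0 : a ≤ 13 / 128) (a1
    : 0 ≤ b) (b1 : b ≤ 1 / 16) (a2 : 0 ≤ s) (b2 : s ≤ 1 / 2) : 0 ≤ outR prog 0 [a, b, s] ∧ ((∀ t ∈
    ts, Str t [a, b, s]) → 0 < outR prog 0 [a, b, s]) :=
  gd [a, b, s] (.cons ⟨l0.le.trans a0, b0.trans u0.le⟩ (.cons ⟨l1.le.trans a1, b1.trans u1.le⟩
    (.cons ⟨l2.le.trans a2, b2.trans u2.le⟩ (.nil)))) (List.forall_mem_nil _) H

end Pool.Agent.Lib.MP_d6150d_an.UXcUL
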