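import Pool.Agent.Lib.MP_d6150d_an.UXcXLD

/-! A generated chart: the computations. -/

namespace Pool.Agent.Lib.MP_d6150d_an.UXcXL

theorem k0 : chkT C ts 0xbbb00 [(0, 140737488355328), (0, 14293651161088), (0, 8796093022208)] =
    true := by
  decide +kernel

theorem k1 : chkT C ts 0xbb2bb22 [(0, 70368744177664), (0, 14293651161088), (8796093022208,
    13194139533312)] = true := by
  decide +kernel

theorem k2 : chkT C ts 0xbb2bb2bb012 [(70368744177664, 140737488355328), (0, 14293651161088),
    (8796093022208, 13194139533312)] = true := by
  decide +kernel

theorem k3 : chkT C ts 0xbb2bb21bb20 [(0, 140737488355328), (0, 14293651161088), (13194139533312,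
    17592186044416)] = true := by
  decide +kernel

theorem k4 : chkT C ts 0xbb2bb2bb222 [(0, 70368744177664), (0, 14293651161088), (17592186044416,
    35184372088832)] = true := by
  decide +kernel

theorem k5 : chkT C ts 0xbb0b1bb2bb012 [(70368744177664, 140737488355328), (0, 14293651161088),
    (17592186044416, 26388279066624)] = true := by
  decide +kernel

theorem k6 : chkT C ts 0xbb1bb12 [(70368744177664, 140737488355328), (0, 14293651161088),
    (26388279066624, 35184372088832)] = true := by
  decide +kernel

theorem k7 : chkT C ts 0xbb2bb2bb222 [(0, 70368744177664), (0, 14293651161088), (35184372088832,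
    70368744177664)] = true := by
  decide +kernel

end Pool.Agent.Lib.MP_d6150d_an.UXcXL
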