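import Pool.Agent.Lib.MP_d6150d_an.UXcXLD

/-! A generated chart: the computations. -/

namespace Pool.Agent.Lib.MP_d6150d_an.UXcXL

theorem k8 : chkT C ts 0xbb1bb01bb2bb212 [(70368744177664, 140737488355328), (0, 14293651161088),
    (35184372088832, 52776558133248)] = true := by
  decide +kernel

theorem k9 : chkT C ts 0xbb0b1bb0b12 [(70368744177664, 140737488355328), (0, 14293651161088),
    (52776558133248, 70368744177664)] = true := by
  decide +kernel

end Pool.Agent.Lib.MP_d6150d_an.UXcXL
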