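import Pool.Agent.Lib.MP_d6150d_an.GEq
import Pool.Agent.Lib.MP_d6150d_an.UXM
import Pool.Agent.Lib.MP_d6150d_an.GTreeS
import Pool.Agent.Lib.MP_d6150d_an.UXcXRK0

/-! A generated chart: the inequality. -/

namespace Pool.Agent.Lib.MP_d6150d_an.UXcXR

set_option linter.unnecessarySeqFocus false
set_option linter.unusedTactic false
set_option linter.unusedVariables false
set_option linter.unusedSimpArgs false

def box : List (ℤ × ℤ) := [(0, 140737488355328), (0, 14293651161088), (0, 70368744177664)]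

theorem gd : GdT C ts box := .split 2 (.split 2 (.split 2 (chkT_sound k0) (.split 2 (.split 0
    (chkT_sound k1) (chkT_sound k2)) (chkT_sound k3))) (.split 2 (.split 0 (chkT_sound k4)
    (chkT_sound k5)) (chkT_sound k6))) (.split 2 (chkT_sound k7) (chkT_sound k8))

set_option maxRecDepth 100000 in
theorem eq {a b s F D mu x p e y i U u m A B v g r z17 z18 : ℝ} (hF : F = 1 / 2 + b) (hD : D = a * b
    - F) (hmu : mu = muR D F s) (hx : x = Real.exp s) (hp : p = ph1 s) (he : e = Real.exp ((2 - 2 *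
    F) * s)) (hy : y = Real.exp (-(F * s))) (hi : i = (p * ((1 + D) * x - D))⁻¹) (hU : U = mu * e *
    i) (hu : u = s * U) (hm : m = F * u) (hA : A = U * i * ((1 + 2 * D) * x)) (hB : B = U * i * D)
    (hv : v = s ^ 2 * mu) (hg : g = (√mu)⁻¹) (hr : r = (√(1 + v / 4))⁻¹) (hz17 : z17 = UX.kC m u A B
    v) (hz18 : z18 = UX.a4 D F) : outR prog 0 [a, b, s] = z17 - y * (64 * F * (s * mu * g) + z18 * v
    ^ 2 * r ^ 5) := by
  replace hF : F = (((Int.cast (1) : ℝ) / (Nat.cast 2 : ℝ)) + b) := hF.trans (by push_cast <;> ring)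
  replace hD : D = ((a * b) - F) := hD.trans (by push_cast <;> ring)
  replace hmu : mu = (mMu D F s) := hmu.trans (mMu_0 ..)
  replace he : e = (Real.exp (((Int.cast (2) : ℝ) - ((Int.cast (2) : ℝ) * F)) * s)) := he.trans
    (congrArg Real.exp (by push_cast <;> ring))
  replace hy : y = (Real.exp ((Int.cast (-1) : ℝ) * (F * s))) := hy.trans (congrArg Real.exp (by
    push_cast <;> ring))
  replace hi : i = (p * ((((Int.cast (1) : ℝ) + D) * x) - D))⁻¹ := hi.trans (by push_cast <;> ring)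
  replace hU : U = ((mu * e) * i) := hU.trans (by push_cast <;> ring)
  replace hu : u = (s * U) := hu.trans (by push_cast <;> ring)
  replace hm : m = (F * u) := hm.trans (by push_cast <;> ring)
  replace hA : A = ((U * i) * (((Int.cast (1) : ℝ) + ((Int.cast (2) : ℝ) * D)) * x)) := hA.trans (by
    push_cast <;> ring)
  replace hB : B = ((U * i) * D) := hB.trans (by push_cast <;> ring)
  replace hv : v = ((s * s) * mu) := hv.trans (by push_cast <;> ring)
  replace hr : r = (√((Int.cast (1) : ℝ) + (((Int.cast (1) : ℝ) / (Nat.cast 4 : ℝ)) * v)))⁻¹ :=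
    hr.trans (congrArg (fun x : ℝ ↦ (√x)⁻¹) (by push_cast <;> ring))
  replace hz17 : z17 = (mKC m u A B v) := hz17.trans (mKC_0 ..)
  replace hz18 : z18 = (mA4 D F) := hz18.trans (mA4_0 ..)
  have e0 : (z17 - (y * ((((Int.cast (64) : ℝ) * F) * ((s * mu) * g)) + ((z18 * (v * v)) * (((r * r)
    * (r * r)) * r))))) = z17 - y * (64 * F * (s * mu * g) + z18 * v ^ 2 * r ^ 5) := by push_cast
    <;> ring
  subst hF hD hmu hx hp he hy hi hU hu hm hA hB hv hg hr hz17 hz18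
  refine Eq.trans ?_ e0
  simp only [outR, prog, prog1, prog2, prog3, runR, stepR, gtR, mGR, mGL, mKC, mA4, mMu]

theorem l0 : ((0 : ℤ) : ℝ) / 2 ^ 47 = 0 := by norm_num
theorem u0 : (1 : ℝ) = ((140737488355328 : ℤ) : ℝ) / 2 ^ 47 := by norm_num
theorem l1 : ((0 : ℤ) : ℝ) / 2 ^ 47 = 0 := by norm_num
theorem u1 : (13 / 128 : ℝ) = ((14293651161088 : ℤ) : ℝ) / 2 ^ 47 := by norm_num
theorem l2 : ((0 : ℤ) : ℝ) / 2 ^ 47 = 0 := by norm_num
theorem u2 : (1 / 2 : ℝ) = ((70368744177664 : ℤ) : ℝ) / 2 ^ 47 := by norm_num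

theorem out (H : ∀ t ∈ ts, Hy t box (outR prog 0)) {a b s : ℝ} (a0 : 0 ≤ a) (b0 : a ≤ 1) (a1 : 0 ≤
    b) (b1 : b ≤ 13 / 128) (a2 : 0 ≤ s) (b2 : s ≤ 1 / 2) : 0 ≤ outR prog 0 [a, b, s] ∧ ((∀ t ∈ ts,
    Str t [a, b, s]) → 0 < outR prog 0 [a, b, s]) :=
  gd [a, b, s] (.cons ⟨l0.le.trans a0, b0.trans u0.le⟩ (.cons ⟨l1.le.trans a1, b1.trans u1.le⟩
    (.cons ⟨l2.le.trans a2, b2.trans u2.le⟩ (.nil)))) (List.forall_mem_nil _) H

end Pool.Agent.Lib.MP_d6150d_an.UXcXR
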