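import Pool.Agent.Lib.MP_d6150d_an.UXmURD

/-! A generated chart: the computations. -/

namespace Pool.Agent.Lib.MP_d6150d_an.UXmUR

theorem k0 : chkT C ts 0xbb0bbbbbb1bb1200001 [(0, 3573412790272), (0, 4398046511104),
    (70368744177664, 82463372083200)] = true := by
  decide +kernel

theorem k1 : chkT C ts 0xbb0bbbb1001 [(0, 3573412790272), (0, 4398046511104), (82463372083200,
    94557999988736)] = true := by
  decide +kernel

theorem k2 : chkT C ts 0xbbb12 [(3573412790272, 7146825580544), (0, 4398046511104), (70368744177664,
    94557999988736)] = true := by
  decide +kernel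

theorem k3 : chkT C ts 0xbb2bb1bb020 [(0, 7146825580544), (4398046511104, 8796093022208),
    (70368744177664, 94557999988736)] = true := by
  decide +kernel

theorem k4 : chkT C ts 0xbbb00bbb1bb2bb21001 [(0, 7146825580544), (0, 8796093022208),
    (94557999988736, 118747255799808)] = true := by
  decide +kernel

theorem k5 : chkT C ts 0xbb1bb2bbb1212 [(7146825580544, 14293651161088), (0, 8796093022208),
    (70368744177664, 118747255799808)] = true := by
  decide +kernel

theorem k6 : chkT C ts 0xbbb11bb2bb0bbb10210 [(0, 7146825580544), (0, 8796093022208),
    (118747255799808, 167125767421952)] = true := by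
  decide +kernel

theorem k7 : chkT C ts 0xbb1 [(7146825580544, 14293651161088), (0, 8796093022208), (118747255799808,
    167125767421952)] = true := by
  decide +kernel

theorem k8 : chkT C ts 0xbb1bb10bb1bbb0102 [(0, 7146825580544), (0, 8796093022208),
    (167125767421952, 263882790666240)] = true := by
  decide +kernel

theorem k9 : chkT C ts 0xbb2bb21 [(7146825580544, 14293651161088), (0, 8796093022208),
    (167125767421952, 263882790666240)] = true := by
  decide +kernel

end Pool.Agent.Lib.MP_d6150d_an.UXmUR
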