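import Pool.Agent.Lib.MP_d6150d_an.UXmURD

/-! A generated chart: the computations. -/

namespace Pool.Agent.Lib.MP_d6150d_an.UXmUR

theorem k10 : chkT C ts 0xbb0bb1b01bb1bb102 [(0, 7146825580544), (0, 8796093022208),
    (263882790666240, 457396837154816)] = true := by
  decide +kernel

theorem k11 : chkT C ts 0xbb1bb12 [(7146825580544, 14293651161088), (0, 8796093022208),
    (263882790666240, 457396837154816)] = true := by
  decide +kernel

theorem k12 : chkT C ts 0xbbb0b21bb1b20 [(0, 7146825580544), (0, 4398046511104), (457396837154816,
    650910883643392)] = true := by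
  decide +kernel

theorem k13 : chkT C ts 0xbb0bbbb0b211bb1b201 [(0, 7146825580544), (0, 4398046511104),
    (650910883643392, 844424930131968)] = true := by
  decide +kernel

theorem k14 : chkT C ts 0xbbbbbb00111bbbb2012 [(7146825580544, 14293651161088), (0, 4398046511104),
    (457396837154816, 844424930131968)] = true := by
  decide +kernel

theorem k15 : chkT C ts 0xbb2bbb020 [(0, 14293651161088), (4398046511104, 8796093022208),
    (457396837154816, 844424930131968)] = true := by
  decide +kernel

end Pool.Agent.Lib.MP_d6150d_an.UXmUR
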