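import Pool.Agent.Lib.MP_d6150d_an.UXmXLD

/-! A generated chart: the computations. -/

namespace Pool.Agent.Lib.MP_d6150d_an.UXmXL

theorem k0 : chkT C ts 0xbbb11bbbbb12012 [(0, 35184372088832), (0, 3573412790272), (70368744177664,
    86861418594304)] = true := by
  decide +kernel

theorem k1 : chkT C ts 0xbbb12 [(35184372088832, 70368744177664), (0, 3573412790272),
    (70368744177664, 86861418594304)] = true := by
  decide +kernel

theorem k2 : chkT C ts 0xbb0bb02 [(0, 70368744177664), (3573412790272, 7146825580544),
    (70368744177664, 86861418594304)] = true := by
  decide +kernel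

theorem k3 : chkT C ts 0xbb0bbb21bb1bb1200 [(0, 70368744177664), (0, 3573412790272),
    (86861418594304, 103354093010944)] = true := by
  decide +kernel

theorem k4 : chkT C ts 0xbb2 [(0, 70368744177664), (3573412790272, 7146825580544), (86861418594304,
    103354093010944)] = true := by
  decide +kernel

theorem k5 : chkT C ts 0xbb1bbb212 [(70368744177664, 140737488355328), (0, 7146825580544),
    (70368744177664, 103354093010944)] = true := by
  decide +kernel

theorem k6 : chkT C ts 0xbbb10bb1bb2bb2102 [(0, 70368744177664), (7146825580544, 14293651161088),
    (70368744177664, 103354093010944)] = true := by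
  decide +kernel

theorem k7 : chkT C ts 0xbb2 [(70368744177664, 140737488355328), (7146825580544, 14293651161088),
    (70368744177664, 103354093010944)] = true := by
  decide +kernel

theorem k8 : chkT C ts 0xbbb02bb1bbbb21021 [(0, 70368744177664), (0, 7146825580544),
    (103354093010944, 136339441844224)] = true := by
  decide +kernel

theorem k9 : chkT C ts 0xbb2bb21 [(70368744177664, 140737488355328), (0, 7146825580544),
    (103354093010944, 136339441844224)] = true := by
  decide +kernel

theorem k10 : chkT C ts 0xbbb1bb200 [(0, 140737488355328), (7146825580544, 14293651161088),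
    (103354093010944, 136339441844224)] = true := by
  decide +kernel

theorem k11 : chkT C ts 0xbb0bb12bb1bb0bb2120 [(0, 140737488355328), (0, 7146825580544),
    (136339441844224, 202310139510784)] = true := by
  decide +kernel

end Pool.Agent.Lib.MP_d6150d_an.UXmXL
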