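import Pool.Agent.Lib.MP_d6150d_an.UXmXLD

/-! A generated chart: the computations. -/

namespace Pool.Agent.Lib.MP_d6150d_an.UXmXL

theorem k12 : chkT C ts 0xbb2bb0bb020 [(0, 140737488355328), (7146825580544, 14293651161088),
    (136339441844224, 202310139510784)] = true := by
  decide +kernel

theorem k13 : chkT C ts 0xbb1b0bb1bb102 [(0, 140737488355328), (0, 7146825580544), (202310139510784,
    334251534843904)] = true := by
  decide +kernel

theorem k14 : chkT C ts 0xbb2bbb020 [(0, 140737488355328), (7146825580544, 14293651161088),
    (202310139510784, 334251534843904)] = true := by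
  decide +kernel

theorem k15 : chkT C ts 0xbc0b1bb1b12 [(0, 140737488355328), (0, 7146825580544), (334251534843904,
    598134325510144)] = true := by
  decide +kernel

theorem k16 : chkT C ts 0xbc0bb1bc002 [(0, 140737488355328), (7146825580544, 14293651161088),
    (334251534843904, 598134325510144)] = true := by
  decide +kernel

theorem k17 : chkT C ts 0xcbc02ccb11cbb2121 [(0, 140737488355328), (0, 14293651161088),
    (598134325510144, 1125899906842624)] = true := by
  decide +kernel

end Pool.Agent.Lib.MP_d6150d_an.UXmXL
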