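import Pool.Agent.Lib.MP_d6150d_an.UXmXRD

/-! A generated chart: the computations. -/

namespace Pool.Agent.Lib.MP_d6150d_an.UXmXR

theorem k0 : chkT C ts 0xbb2bb1bb0bbb12120 [(0, 140737488355328), (0, 3573412790272),
    (70368744177664, 94557999988736)] = true := by
  decide +kernel

theorem k1 : chkT C ts 0xbb2bb0bb020 [(0, 140737488355328), (3573412790272, 7146825580544),
    (70368744177664, 94557999988736)] = true := by
  decide +kernel

theorem k2 : chkT C ts 0xbbbb000bbbb1bb12001 [(0, 140737488355328), (0, 7146825580544),
    (94557999988736, 118747255799808)] = true := by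
  decide +kernel

theorem k3 : chkT C ts 0xbbb10bbb12bb2bb2102 [(0, 70368744177664), (7146825580544, 14293651161088),
    (70368744177664, 118747255799808)] = true := by
  decide +kernel

theorem k4 : chkT C ts 0xbbb22 [(70368744177664, 140737488355328), (7146825580544, 14293651161088),
    (70368744177664, 118747255799808)] = true := by
  decide +kernel

theorem k5 : chkT C ts 0xbbb01bbb02bbb1210 [(0, 140737488355328), (0, 7146825580544),
    (118747255799808, 167125767421952)] = true := by
  decide +kernel

theorem k6 : chkT C ts 0xbbbbb1200 [(0, 140737488355328), (7146825580544, 14293651161088),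
    (118747255799808, 167125767421952)] = true := by
  decide +kernel

theorem k7 : chkT C ts 0xbb2bb20bb1bb0b121 [(0, 70368744177664), (0, 14293651161088),
    (167125767421952, 263882790666240)] = true := by
  decide +kernel

theorem k8 : chkT C ts 0xbb2bbb021 [(70368744177664, 140737488355328), (0, 14293651161088),
    (167125767421952, 263882790666240)] = true := by
  decide +kernel

end Pool.Agent.Lib.MP_d6150d_an.UXmXR
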