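import Pool.Agent.Lib.MP_d6150d_an.UXmXRD

/-! A generated chart: the computations. -/

namespace Pool.Agent.Lib.MP_d6150d_an.UXmXR

theorem k9 : chkT C ts 0xbb1bc0b10bb0bb0b102 [(0, 140737488355328), (0, 7146825580544),
    (263882790666240, 457396837154816)] = true := by
  decide +kernel

theorem k10 : chkT C ts 0xbb2bb2ccc1200 [(0, 140737488355328), (7146825580544, 14293651161088),
    (263882790666240, 457396837154816)] = true := by
  decide +kernel

theorem k11 : chkT C ts 0xbc0bc0b1b21bbc00b12 [(0, 140737488355328), (0, 3573412790272),
    (457396837154816, 650910883643392)] = true := by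
  decide +kernel

theorem k12 : chkT C ts 0xcbcb10b21bcb10b22 [(0, 140737488355328), (0, 893353197568),
    (650910883643392, 844424930131968)] = true := by
  decide +kernel

theorem k13 : chkT C ts 0xcc2 [(0, 140737488355328), (893353197568, 1786706395136),
    (650910883643392, 844424930131968)] = true := by
  decide +kernel

theorem k14 : chkT C ts 0xbb2c0 [(0, 140737488355328), (1786706395136, 3573412790272),
    (650910883643392, 844424930131968)] = true := by
  decide +kernel

theorem k15 : chkT C ts 0xbbb01c0bb1c02 [(0, 140737488355328), (3573412790272, 7146825580544),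
    (457396837154816, 844424930131968)] = true := by
  decide +kernel

theorem k16 : chkT C ts 0xbbb01b0bbb012cbc020 [(0, 140737488355328), (7146825580544,
    14293651161088), (457396837154816, 844424930131968)] = true := by
  decide +kernel

end Pool.Agent.Lib.MP_d6150d_an.UXmXR
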