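import Pool.Agent.Lib.MP_d6150d_an.UXa
import Pool.Agent.Lib.MP_d6150d_an.UXJR
import Pool.Agent.Lib.MP_d6150d_an.UXJL
import Pool.Agent.Lib.MP_d6150d_an.UXcXR
import Pool.Agent.Lib.MP_d6150d_an.UXcXL
import Pool.Agent.Lib.MP_d6150d_an.UXcUR
import Pool.Agent.Lib.MP_d6150d_an.UXcUL
import Pool.Agent.Lib.MP_d6150d_an.UXmXR
import Pool.Agent.Lib.MP_d6150d_an.UXmXL
import Pool.Agent.Lib.MP_d6150d_an.UXmUR
import Pool.Agent.Lib.MP_d6150d_an.UXmUL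

/-! The compact part. -/

namespace Pool.Agent.Lib.MP_d6150d_an.UX

open Real Set Filter Topology Asymptotics

set_option linter.unusedVariables false

/-- the normal form for `0 < t` in terms of the time -/
noncomputable def mR (D F s : ℝ) : ℝ :=
  fR D F (exp (-s)) (exp ((1 - 2 * F) * s)) (s * ph1 ((1 - 2 * F) * s))

/-- the normal form for `t < 0` in terms of the time -/
noncomputable def mL (D F s : ℝ) : ℝ :=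
  fL D F (exp (-s)) (exp ((2 * F - 1) * s)) (s * ph1 ((2 * F - 1) * s))

section

variable {D F : ℝ → ℝ} {D1 F1 s : ℝ} (hD : J D (-1 / 2) D1) (hF : J F (1 / 2) F1) (h : 0 < s)
include hD hF h

theorem mR_J : J (fun x ↦ mR (D x) (F x) s) 0 ((D1 + F1) * Ph (exp (-s)) s) := by
  have h1 : J (fun x ↦ (1 - 2 * F x) * s) 0 (-2 * F1 * s) :=
    (((J.cst 1).sub ((J.cst 2).mul hF)).mul (J.cst s)).cast (by ring) (by ring)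
  obtain ⟨e, h2⟩ := h1.ph
  exact fR_J hD hF (J.cst _) (((J.cst s).mul h2).cast (mul_one s) rfl) h1.exp (exp_pos _).le
    (exp_lt_one_iff.2 (neg_neg_iff_pos.2 h))

theorem mL_J : J (fun x ↦ mL (D x) (F x) s) 0 ((D1 + F1) * Ph (exp (-s)) s) := by
  have h1 : J (fun x ↦ (2 * F x - 1) * s) 0 (2 * F1 * s) :=
    ((((J.cst 2).mul hF).sub (J.cst 1)).mul (J.cst s)).cast (by ring) (by ring)
  obtain ⟨e, h2⟩ := h1.ph
  exact fL_J hD hF (J.cst _) (((J.cst s).mul h2).cast (mul_one s) rfl) h1.exp (exp_pos _).le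
    (exp_lt_one_iff.2 (neg_neg_iff_pos.2 h))

end

variable {a b s D F : ℝ}

theorem jD (ε : ℝ) : J (fun b ↦ -(1 / 2 + ε * b)) (-1 / 2) (-ε) :=
  (J.lin _ ε).neg.cast (by ring) rfl

theorem mR_O (ε : ℝ) (h : 0 < s) :
    (fun b ↦ mR (-(1 / 2 + ε * b)) (1 / 2 + ε * b) s) =O[𝓝[>] 0] fun b ↦ b ^ 2 :=
  ((mR_J (jD ε) (J.lin _ ε) h).cast rfl (by ring)).O2

theorem mL_O (ε : ℝ) (h : 0 < s) :
    (fun b ↦ mL (-(1 / 2 + ε * b)) (1 / 2 + ε * b) s) =O[𝓝[>] 0] fun b ↦ b ^ 2 :=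
  ((mL_J (jD ε) (J.lin _ ε) h).cast rfl (by ring)).O2

theorem mR_0 (h : 0 < s) : mR (-1 / 2) (1 / 2) s = 0 := (mR_J (J.cst _) (J.cst _) h).2.1

theorem mL_0 (h : 0 < s) : mL (-1 / 2) (1 / 2) s = 0 := (mL_J (J.cst _) (J.cst _) h).2.1

theorem GcR (h1 : -1 ≤ D) (h2 : D < 0) (hF : F ≠ 0) (hG : 1 - F ≠ 0) (h : 0 < s) :
    Gc D F s = vR D F s ^ 3 * exp (-s) * mR D F s := by
  rw [Gc_eq (Z3.mem h1 h2 s) h.ne', ← right (Z3.mem h1 h2 s) h hF hG, exp_neg (F * s), mR]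
  field_simp

theorem GcL (h1 : -1 ≤ D) (h2 : D < 0) (hF : F ≠ 0) (hG : 1 - F ≠ 0) (h : 0 < s) :
    Gc D F (-s) = -vR D F (-s) ^ 3 * mL D F s := by
  rw [Gc_eq (Z3.mem h1 h2 _) (neg_neg_iff_pos.2 h).ne, ← neg_neg (Ky _ _ _),
    ← left (Z3.mem h1 h2 _) h hF hG, exp_neg (F * -s), mL]
  field_simp

theorem Gc_0 (t : ℝ) : Gc (-1 / 2) (1 / 2) t = 0 := by
  rcases lt_trichotomy t 0 with h | rfl | h
  · rw [← neg_neg t, GcL (by norm_num) (by norm_num) (by norm_num) (by norm_num) (neg_pos.2 h),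
      mL_0 (neg_pos.2 h), mul_zero]
  · exact Gc_zero
  · rw [GcR (by norm_num) (by norm_num) (by norm_num) (by norm_num) h, mR_0 h, mul_zero]

theorem Gc_O (ε : ℝ) (hε : |ε| ≤ 1) (t : ℝ) :
    (fun b ↦ Gc (-(1 / 2 + ε * b)) (1 / 2 + ε * b) t) =O[𝓝[>] 0] fun b ↦ b ^ 2 := by
  have c : Continuous ph1 := continuous_iff_continuousAt.2 fun z ↦ (ph1_an z).continuousAt
  have v : ∀ t, Continuous fun b ↦ vR (-(1 / 2 + ε * b)) (1 / 2 + ε * b) t := fun t ↦ by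
    simp only [vR_eq]; fun_prop
  have e := abs_le.1 hε
  have k : ∀ᶠ b in 𝓝[>] (0 : ℝ), -1 ≤ -(1 / 2 + ε * b) ∧ -(1 / 2 + ε * b) < 0 ∧
      1 / 2 + ε * b ≠ 0 ∧ 1 - (1 / 2 + ε * b) ≠ 0 := by
    filter_upwards [Ioo_mem_nhdsGT (by norm_num : (0 : ℝ) < 1 / 4)] with b hb
    have : -(1 / 4) ≤ ε * b ∧ ε * b ≤ 1 / 4 := ⟨by nlinarith [hb.1, hb.2], by nlinarith [hb.1, hb.2]⟩
    exact ⟨by linarith, by linarith, by linarith, by linarith⟩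
  rcases lt_trichotomy t 0 with h | rfl | h
  · refine ((((((v t).pow 3).neg.continuousAt (x := 0)).isBigO_one ℝ).mono nhdsWithin_le_nhds).mul
      (mL_O ε (neg_pos.2 h))).congr' ?_ (by simp)
    filter_upwards [k] with b hb
    have := GcL hb.1 hb.2.1 hb.2.2.1 hb.2.2.2 (neg_pos.2 h)
    rw [neg_neg] at this
    exact this.symm
  · simp only [Gc_zero]; exact isBigO_zero _ _
  · refine (((((((v t).pow 3).mul_const (exp (-t))).continuousAt (x := 0)).isBigO_one ℝ).mono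
      nhdsWithin_le_nhds).mul (mR_O ε h)).congr' ?_ (by simp)
    filter_upwards [k] with b hb using (GcR hb.1 hb.2.1 hb.2.2.1 hb.2.2.2 h).symm

theorem centerR : Gc D F =O[𝓝[>] 0] fun s ↦ s ^ 5 := center.mono (nhdsGT_le_nhdsNE 0)

theorem centerL : (fun s ↦ -Gc D F (-s)) =O[𝓝[>] 0] fun s ↦ s ^ 5 := by
  have : Tendsto (fun s : ℝ ↦ -s) (𝓝[>] 0) (𝓝[≠] 0) :=
    (neg_zero (G := ℝ) ▸ tendsto_neg_nhdsGT (a := (0 : ℝ))).mono_right (nhdsLT_le_nhdsNE 0)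
  exact ((center (D := D) (F := F)).comp_tendsto this).neg_left.neg_right.congr
    (fun s ↦ by simp) fun s ↦ by simp only [Function.comp]; ring

variable {f : List ℝ → ℝ} {A S B T : ℤ}

theorem hyCX (h1 : ∀ a b : ℝ, (fun s ↦ f [a, b, s]) =O[𝓝[>] 0] fun s ↦ s ^ 5)
    (h2 : ∀ s : ℝ, (fun b ↦ f [0, b, s]) =O[𝓝[>] 0] fun b ↦ b ^ 2) (h3 : ∀ a s : ℝ, f [a, 0, s] = 0) :
    ∀ t ∈ [Dt.ct 0 (.dv 2 (.dv 5 .pos)) (.dv 1 (.dv 5 .pos)) (.dv 1 (.dv 5 .pos))],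
      Hy t [(0, A), (0, B), (0, S)] f := by
  simp only [List.mem_singleton, forall_eq]
  exact ⟨⟨fun x ↦ f (0 :: x), fun _ _ _ _ _ _ ↦ by simp [AllB, Ord],
    ⟨fun s _ _ ↦ h2 s, fun b _ _ ↦ ⟨h1 0 b, fun _ _ _ ↦ trivial⟩⟩, fun a _ _ ↦
      ⟨fun s _ _ ↦ by simp [AllB, Ord, h3], fun b _ _ ↦
        ⟨(h1 a b).sub ((h1 0 b).const_mul_left _), fun _ _ _ ↦ trivial⟩⟩⟩,
    fun a _ _ ↦ ⟨fun s _ _ ↦ h3 a s, fun b _ _ ↦ ⟨h1 a b, fun _ _ _ ↦ trivial⟩⟩⟩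

theorem hyCU (h1 : ∀ a b : ℝ, (fun s ↦ f [a, b, s]) =O[𝓝[>] 0] fun s ↦ s ^ 5)
    (h2 : ∀ s : ℝ, (fun b ↦ f [0, b, s]) =O[𝓝[>] 0] fun b ↦ b ^ 2) :
    ∀ t ∈ [Dt.ct 0 (.dv 2 (.dv 5 .pos)) (.nx (.dv 5 .pos)) (.nx (.dv 5 .pos))],
      Hy t [(0, A), (0, B), (0, S)] f := by
  simp only [List.mem_singleton, forall_eq]
  exact ⟨⟨fun x ↦ f (0 :: x), fun _ _ _ _ _ _ ↦ by simp [AllB, Ord],
    ⟨fun s _ _ ↦ h2 s, fun b _ _ ↦ ⟨h1 0 b, fun _ _ _ ↦ trivial⟩⟩, fun a _ _ b _ _ ↦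
      ⟨(h1 a b).sub ((h1 0 b).const_mul_left _), fun _ _ _ ↦ trivial⟩⟩,
    fun a _ _ b _ _ ↦ ⟨h1 a b, fun _ _ _ ↦ trivial⟩⟩

theorem hyMX (hS : (0 : ℝ) < S / 2 ^ 47)
    (h2 : ∀ s : ℝ, 0 < s → (fun b ↦ f [0, b, s]) =O[𝓝[>] 0] fun b ↦ b ^ 2)
    (h3 : ∀ a s : ℝ, 0 < s → f [a, 0, s] = 0) :
    ∀ t ∈ [Dt.ct 0 (.dv 2 .pos) (.dv 1 .pos) (.dv 1 .pos), .nx (.dv 1 .pos)],
      Hy t [(0, A), (0, B), (S, T)] f := by
  have h4 : ∀ a : ℝ, Hy (.dv 1 .pos) [(0, B), (S, T)] fun x ↦ f (a :: x) := fun a ↦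
    ⟨fun s h _ ↦ h3 a s (hS.trans_le h), fun _ _ _ ↦ trivial⟩
  simp only [List.mem_cons, List.not_mem_nil, or_false, forall_eq_or_imp, forall_eq]
  exact ⟨⟨⟨fun x ↦ f (0 :: x), fun _ _ _ _ _ _ ↦ by simp [AllB, Ord],
    ⟨fun s h _ ↦ h2 s (hS.trans_le h), fun _ _ _ ↦ trivial⟩, fun a _ _ ↦
      ⟨fun s h _ ↦ by simp [AllB, Ord, h3 _ s (hS.trans_le h)], fun _ _ _ ↦ trivial⟩⟩,
    fun a _ _ ↦ h4 a⟩, fun a _ _ ↦ h4 a⟩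

theorem hyMU (hS : (0 : ℝ) < S / 2 ^ 47)
    (h2 : ∀ s : ℝ, 0 < s → (fun b ↦ f [0, b, s]) =O[𝓝[>] 0] fun b ↦ b ^ 2) :
    ∀ t ∈ [Dt.ct 0 (.dv 2 .pos) .pos .pos], Hy t [(0, A), (0, B), (S, T)] f := by
  simp only [List.mem_singleton, forall_eq]
  exact ⟨⟨fun x ↦ f (0 :: x), fun _ _ _ _ _ _ ↦ by simp [AllB, Ord],
    ⟨fun s h _ ↦ h2 s (hS.trans_le h), fun _ _ _ ↦ trivial⟩, fun _ _ _ ↦ trivial⟩,
    fun _ _ _ ↦ trivial⟩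

section X

variable (hF : F = 1 / 2 + b) (hD : D = a * b - F)
include hF hD

theorem cXR : outR UXcXR.prog 0 [a, b, s] = Gc D F s :=
  UXcXR.eq hF hD rfl rfl rfl rfl rfl rfl rfl rfl rfl rfl rfl rfl rfl rfl rfl rfl

theorem cXL : outR UXcXL.prog 0 [a, b, s] = -Gc D F (-s) :=
  (UXcXL.eq hF hD rfl rfl rfl rfl rfl rfl rfl rfl rfl rfl rfl rfl rfl rfl rfl rfl rfl).trans
    (neg_sub _ _).symm

theorem mXR : outR UXmXR.prog 0 [a, b, s] = mR D F s :=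
  UXmXR.eq hF hD rfl rfl rfl rfl rfl rfl rfl rfl rfl rfl rfl rfl rfl rfl rfl rfl rfl rfl rfl rfl
    rfl rfl rfl

theorem mXL : outR UXmXL.prog 0 [a, b, s] = mL D F s :=
  UXmXL.eq hF hD rfl rfl rfl rfl rfl rfl rfl rfl rfl rfl rfl rfl rfl rfl rfl rfl rfl rfl rfl rfl
    rfl rfl rfl

end X

section U

variable (hF : F = 1 / 2 - b) (hD : D = a - F)
include hF hD

theorem cUR : outR UXcUR.prog 0 [a, b, s] = Gc D F s :=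
  UXcUR.eq hF hD rfl rfl rfl rfl rfl rfl rfl rfl rfl rfl rfl rfl rfl rfl rfl rfl

theorem cUL : outR UXcUL.prog 0 [a, b, s] = -Gc D F (-s) :=
  (UXcUL.eq hF hD rfl rfl rfl rfl rfl rfl rfl rfl rfl rfl rfl rfl rfl rfl rfl rfl rfl).trans
    (neg_sub _ _).symm

theorem mUR : outR UXmUR.prog 0 [a, b, s] = mR D F s :=
  UXmUR.eq hF hD rfl rfl rfl rfl rfl rfl rfl rfl rfl rfl rfl rfl rfl rfl rfl rfl rfl rfl rfl rfl
    rfl rfl rfl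

theorem mUL : outR UXmUL.prog 0 [a, b, s] = mL D F s :=
  UXmUL.eq hF hD rfl rfl rfl rfl rfl rfl rfl rfl rfl rfl rfl rfl rfl rfl rfl rfl rfl rfl rfl rfl
    rfl rfl rfl

end U

theorem cX (hF : F = 1 / 2 + b) (hD : D = a * b - F) (a0 : 0 ≤ a) (a1 : a ≤ 1) (b0 : 0 < b)
    (b1 : b ≤ 13 / 128) (s0 : 0 < s) (s1 : s ≤ 1 / 2) : 0 < Gc D F s ∧ 0 < -Gc D F (-s) :=
  ⟨((UXcXR.out (hyCX (fun _ _ ↦ centerR.congr_left fun _ ↦ (cXR rfl rfl).symm)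
    (fun s ↦ (Gc_O 1 (by simp) s).congr_left fun _ ↦ (cXR (by ring) (by ring)).symm)
    fun _ s ↦ (cXR (by ring) (by ring)).trans (Gc_0 s)) a0 a1 b0.le b1 s0.le s1).2
      (by simp [UXcXR.ts, Str, b0, s0])).trans_eq (cXR hF hD),
  ((UXcXL.out (hyCX (fun _ _ ↦ centerL.congr_left fun _ ↦ (cXL rfl rfl).symm)
    (fun s ↦ (Gc_O 1 (by simp) (-s)).neg_left.congr_left fun _ ↦ (cXL (by ring) (by ring)).symm)
    fun _ s ↦ (cXL (by ring) (by ring)).trans (neg_eq_zero.2 (Gc_0 (-s)))) a0 a1 b0.le b1 s0.le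
      s1).2 (by simp [UXcXL.ts, Str, b0, s0])).trans_eq (cXL hF hD)⟩

theorem cU (hF : F = 1 / 2 - b) (hD : D = a - F) (a0 : 0 ≤ a) (a1 : a ≤ 13 / 128) (b0 : 0 ≤ b)
    (b1 : b ≤ 1 / 16) (k : 0 < b ∨ 0 < a) (s0 : 0 < s) (s1 : s ≤ 1 / 2) :
    0 < Gc D F s ∧ 0 < -Gc D F (-s) :=
  ⟨((UXcUR.out (hyCU (fun _ _ ↦ centerR.congr_left fun _ ↦ (cUR rfl rfl).symm)
    fun s ↦ (Gc_O (-1) (by simp) s).congr_left fun _ ↦ (cUR (by ring) (by ring)).symm)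
      a0 a1 b0 b1 s0.le s1).2 (by simp [UXcUR.ts, Str, k, s0])).trans_eq (cUR hF hD),
  ((UXcUL.out (hyCU (fun _ _ ↦ centerL.congr_left fun _ ↦ (cUL rfl rfl).symm)
    fun s ↦ (Gc_O (-1) (by simp) (-s)).neg_left.congr_left fun _ ↦ (cUL (by ring) (by ring)).symm)
      a0 a1 b0 b1 s0.le s1).2 (by simp [UXcUL.ts, Str, k, s0])).trans_eq (cUL hF hD)⟩

theorem mX (hF : F = 1 / 2 + b) (hD : D = a * b - F) (a0 : 0 ≤ a) (a1 : a ≤ 1) (b0 : 0 < b)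
    (b1 : b ≤ 13 / 128) (s0 : 1 / 2 ≤ s) : (s ≤ 6 → 0 < mR D F s) ∧ (s ≤ 8 → 0 < mL D F s) :=
  ⟨fun s1 ↦ ((UXmXR.out (hyMX (by norm_num)
    (fun _ h ↦ (mR_O 1 h).congr_left fun _ ↦ (mXR (by ring) (by ring)).symm)
    fun _ _ h ↦ (mXR (by ring) (by ring)).trans (mR_0 h)) a0 a1 b0.le b1 s0 s1).2
      (by simp [UXmXR.ts, Str, b0])).trans_eq (mXR hF hD),
  fun s1 ↦ ((UXmXL.out (hyMX (by norm_num)
    (fun _ h ↦ (mL_O 1 h).congr_left fun _ ↦ (mXL (by ring) (by ring)).symm)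
    fun _ _ h ↦ (mXL (by ring) (by ring)).trans (mL_0 h)) a0 a1 b0.le b1 s0 s1).2
      (by simp [UXmXL.ts, Str, b0])).trans_eq (mXL hF hD)⟩

theorem mU (hF : F = 1 / 2 - b) (hD : D = a - F) (a0 : 0 ≤ a) (a1 : a ≤ 13 / 128) (b0 : 0 ≤ b)
    (b1 : b ≤ 1 / 16) (k : 0 < b ∨ 0 < a) (s0 : 1 / 2 ≤ s) :
    (s ≤ 6 → 0 < mR D F s) ∧ (s ≤ 8 → 0 < mL D F s) :=
  ⟨fun s1 ↦ ((UXmUR.out (hyMU (by norm_num)
    fun _ h ↦ (mR_O (-1) h).congr_left fun _ ↦ (mUR (by ring) (by ring)).symm)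
      a0 a1 b0 b1 s0 s1).2 (by simp [UXmUR.ts, Str, k])).trans_eq (mUR hF hD),
  fun s1 ↦ ((UXmUL.out (hyMU (by norm_num)
    fun _ h ↦ (mL_O (-1) h).congr_left fun _ ↦ (mUL (by ring) (by ring)).symm)
      a0 a1 b0 b1 s0 s1).2 (by simp [UXmUL.ts, Str, k])).trans_eq (mUL hF hD)⟩

theorem glue (h1 : -1 ≤ D) (h2 : D < 0) (hF : 0 < F) (hG : F < 1)
    (c : ∀ s, 0 < s → s ≤ 1 / 2 → 0 < Gc D F s ∧ 0 < -Gc D F (-s))
    (r : ∀ s, 1 / 2 ≤ s → 0 < mR D F s) (l : ∀ s, 1 / 2 ≤ s → 0 < mL D F s) : NoThree D F := by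
  have k : ∀ s, 0 < s → 0 < Gc D F s ∧ 0 < -Gc D F (-s) := fun s h ↦
    (le_total s (1 / 2)).elim (c s h) fun k ↦ by
      have v1 := vR_pos (F := F) (Z3.mem h1 h2 s) h.ne'
      have v2 := vR_pos (F := F) (Z3.mem h1 h2 (-s)) (neg_neg_iff_pos.2 h).ne
      rw [GcR h1 h2 hF.ne' (sub_pos.2 hG).ne' h, GcL h1 h2 hF.ne' (sub_pos.2 hG).ne' h, neg_mul,
        neg_neg]
      exact ⟨mul_pos (by positivity) (r s k), mul_pos (by positivity) (l s k)⟩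
  refine red hF fun t ht h0 ↦ (mul_pos_iff_of_pos_left (exp_pos (-(F * t)))).1 ?_
  rw [mul_left_comm, ← Gc_eq ht h0]
  rcases h0.lt_or_gt with h | h
  · have := (k (-t) (neg_pos.2 h)).2
    rw [neg_neg] at this
    exact mul_pos_of_neg_of_neg h (by linarith)
  · exact mul_pos h (k t h).1

end Pool.Agent.Lib.MP_d6150d_an.UX
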