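import Pool.Agent.Lib.MP_d6150d_an.GTree

/-! A generated chart: the program. -/

namespace Pool.Agent.Lib.MP_d6150d_an.UXcUL

def prog3 : List Ins := .smul 64 22 :: .sub false 1 0 :: .smul 32 34 :: .add false 1 0 :: .sub false
    51 0 :: .smul 12 6 :: .smul 16 28 :: .sub false 1 0 :: .smul 3 9 :: .smul 4 31 :: .add false 1 0
    :: .add false 0 43 :: .add false 13 2 :: .smul 3 45 :: .add true 1 0 :: .mul 88 0 :: .mul 92 0
    :: .add true 5 0 :: .mul 94 0 :: .add true 11 0 :: .mul 96 0 :: .sub false 16 0 :: .sub false 86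
    0 :: .cpy 0 :: []

def prog2 : List Ins := .mul 105 0 :: .add false 93 0 :: .smul 32 0 :: .smul 2 2 :: .sub false 96 3
    :: .smul 2 0 :: .mul 7 8 :: .add true 99 41 :: .mul 0 17 :: .mul 2 0 :: .mul 3 93 :: .smul 2 0
    :: .sub false 2 0 :: .sub true 7 0 :: .add true 10 0 :: .mul 10 10 :: .mul 15 3 :: .add true 1 0
    :: .mul 4 4 :: .sub false 1 0 :: .sub false 6 20 :: .sub true 0 8 :: .sub true 0 22 :: .mul 11 0
    :: .mul 14 2 :: .sub false 1 0 :: .sub true 6 0 :: .mul 26 0 :: .mul 13 0 :: .mul 28 11 :: .smul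
    2 16 :: .mul 27 17 :: .sub true 6 0 :: .mul 2 0 :: .add false 4 0 :: .mul 12 12 :: .mul 36 22 ::
    .sub false 4 0 :: .add false 0 12 :: .add false 3 0 :: .sub true 0 3 :: .mul 29 0 :: .mul 20 20
    :: .add true 0 4 :: .mul 34 0 :: .sub false 3 0 :: .add false 11 0 :: .mul 46 0 :: .sub false 19
    0 :: .smul 16 0 :: prog3

def prog1 : List Ins := .sub false 2 0 :: .mul 8 54 :: .smul 103 0 :: .sub false 2 0 :: .smul 312 35
    :: .mul 0 12 :: .sub false 2 0 :: .smul 480 8 :: .mul 0 61 :: .sub false 2 0 :: .mul 11 41 ::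
    .smul 320 0 :: .sub true 2 0 :: .mul 26 0 :: .smul 640 0 :: .cst 1 6 :: .sub false 56 69 ::
    .smul 2 48 :: .sub true 1 0 :: .mul 3 0 :: .smul 48 0 :: .add true 6 0 :: .mul 75 0 :: .sub true
    0 63 :: .mul 75 75 :: .mul 0 43 :: .mul 0 0 :: .mul 3 0 :: .cst 1 4 :: .mul 0 3 :: .add false 70
    0 :: .rsq 0 :: .mul 0 0 :: .mul 0 0 :: .mul 0 2 :: .mul 7 0 :: .add false 50 0 :: .mul 85 0 ::
    .sub true 66 84 :: .mul 0 90 :: .exp 0 :: .mul 59 0 :: .tri 93 :: .add true 85 76 :: .mul 0 3 ::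
    .sub false 0 78 :: .mul 4 0 :: .inv 0 :: .mul 8 0 :: .mul 102 0 :: prog2

def prog : List Ins := .cst 1 2 :: .var 1 :: .sub true 1 0 :: .var 2 :: .smul (-1) 0 :: .mul 2 0 ::
    .smul (-1) 0 :: .exp 0 :: .smul 64 5 :: .smul 2 6 :: .mul 0 5 :: .tri 0 :: .mul 4 0 :: .int 1 ::
    .sub true 6 0 :: .mul 0 12 :: .tri 0 :: .mul 4 0 :: .sub false 7 0 :: .var 0 :: .sub true 0 21
    :: .smul 2 3 :: .sub false 11 0 :: .int 2 :: .sub true 18 0 :: .mul 0 24 :: .tri 0 :: .mul 4 0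
    :: .add true 7 0 :: .mul 10 0 :: .add false 13 0 :: .smul 2 0 :: .mul 33 0 :: .rsq 1 :: .mul 1 0
    :: .mul 32 0 :: .cst 1 1080 :: .int 4 :: .smul 57 41 :: .sub false 1 0 :: .smul 6 21 :: .sub
    false 1 0 :: .mul 45 45 :: .smul 156 0 :: .add false 2 0 :: .smul 102 26 :: .mul 0 49 :: .add
    false 2 0 :: .mul 29 29 :: .smul 60 0 :: prog1

def vs : List Vr := [⟨4, 1, false, false⟩, ⟨5, 2, false, false⟩, ⟨9, 5, false, false⟩]

def C : Chart := ⟨vs, prog, [], 1, 3⟩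

def ts : List Dt := [(.ct 0 (.dv 2 (.dv 5 .pos)) (.nx (.dv 5 .pos)) (.nx (.dv 5 .pos)))]

end Pool.Agent.Lib.MP_d6150d_an.UXcUL
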