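import Pool.Agent.Lib.MP_d6150d_an.GTree

/-! A generated chart: the program. -/

namespace Pool.Agent.Lib.MP_d6150d_an.UXcUR

def prog3 : List Ins := .mul 26 0 :: .smul 640 0 :: .cst 1 6 :: .sub false 160 157 :: .sub true 0
    107 :: .mul 2 0 :: .smul 48 0 :: .add true 5 0 :: .mul 162 0 :: .sub true 0 166 :: .mul 63 63 ::
    .mul 1 0 :: .mul 57 65 :: .add false 170 0 :: .rsq 0 :: .mul 0 0 :: .mul 0 0 :: .mul 0 2 :: .mul
    6 0 :: .add false 46 0 :: .mul 52 0 :: .sub false 56 0 :: .cpy 0 :: []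

def prog2 : List Ins := .smul 3 11 :: .smul 4 33 :: .add false 1 0 :: .add false 0 45 :: .cst 1 4 ::
    .add false 16 3 :: .smul 3 48 :: .add true 1 0 :: .mul 3 0 :: .mul 12 0 :: .add true 6 0 :: .mul
    14 0 :: .add true 12 0 :: .mul 16 0 :: .sub false 19 0 :: .mul 119 118 :: .smul (-1) 0 :: .exp 0
    :: .smul 64 122 :: .mul 122 94 :: .rsq 95 :: .mul 1 0 :: .mul 3 0 :: .cst 1 1080 :: .int 4 ::
    .smul 57 129 :: .sub false 1 0 :: .smul 6 115 :: .sub false 1 0 :: .mul 133 133 :: .smul 156 0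
    :: .add false 2 0 :: .smul 102 120 :: .mul 0 137 :: .add false 2 0 :: .mul 123 123 :: .smul 60 0
    :: .sub false 2 0 :: .mul 8 142 :: .smul 103 0 :: .sub false 2 0 :: .smul 312 129 :: .mul 0 12
    :: .sub false 2 0 :: .smul 480 8 :: .mul 0 149 :: .sub false 2 0 :: .mul 11 135 :: .smul 320 0
    :: .sub true 2 0 :: prog3

def prog1 : List Ins := .mul 4 38 :: .smul 2 0 :: .sub false 2 0 :: .sub true 8 0 :: .add false 11 0
    :: .mul 11 11 :: .mul 16 3 :: .add false 1 0 :: .mul 4 4 :: .sub false 1 0 :: .sub false 6 21 ::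
    .sub true 0 8 :: .sub false 0 23 :: .mul 11 0 :: .mul 14 2 :: .sub false 1 0 :: .sub true 6 0 ::
    .mul 27 0 :: .mul 13 0 :: .mul 29 11 :: .smul 2 16 :: .mul 28 17 :: .sub true 6 0 :: .mul 2 0 ::
    .add false 4 0 :: .mul 12 12 :: .mul 37 22 :: .sub false 4 0 :: .add false 0 12 :: .add false 3
    0 :: .sub true 0 3 :: .mul 29 0 :: .mul 20 20 :: .add true 0 4 :: .mul 34 0 :: .sub false 3 0 ::
    .add true 11 0 :: .mul 47 0 :: .sub false 19 0 :: .smul 16 0 :: .smul 64 22 :: .sub false 1 0 ::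
    .smul 32 34 :: .add false 1 0 :: .sub false 52 0 :: .mul 98 98 :: .mul 0 71 :: .smul 12 8 ::
    .smul 16 30 :: .sub false 1 0 :: prog2

def prog : List Ins := .int 1 :: .cst 1 2 :: .var 1 :: .sub true 1 0 :: .var 2 :: .smul 2 1 :: .mul
    0 1 :: .tri 0 :: .mul 4 0 :: .sub true 5 10 :: .mul 0 7 :: .tri 0 :: .mul 4 0 :: .sub false 6 0
    :: .var 0 :: .sub true 0 15 :: .smul 2 3 :: .sub false 10 0 :: .int 2 :: .sub true 17 0 :: .mul
    0 19 :: .tri 0 :: .mul 4 0 :: .add true 7 0 :: .mul 10 0 :: .add true 13 0 :: .smul 2 0 :: .sub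
    true 10 27 :: .mul 0 29 :: .exp 0 :: .mul 3 0 :: .tri 32 :: .add true 39 20 :: .mul 0 3 :: .sub
    false 0 22 :: .mul 4 0 :: .inv 0 :: .mul 8 0 :: .mul 41 0 :: .mul 43 0 :: .add false 47 0 ::
    .smul 32 0 :: .smul 2 2 :: .sub true 50 3 :: .smul 2 0 :: .mul 7 8 :: .smul 2 34 :: .add true 54
    0 :: .mul 0 18 :: .mul 3 0 :: prog1

def vs : List Vr := [⟨4, 1, false, false⟩, ⟨5, 2, false, false⟩, ⟨9, 5, false, false⟩]

def C : Chart := ⟨vs, prog, [], 1, 3⟩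

def ts : List Dt := [(.ct 0 (.dv 2 (.dv 5 .pos)) (.nx (.dv 5 .pos)) (.nx (.dv 5 .pos)))]

end Pool.Agent.Lib.MP_d6150d_an.UXcUR
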