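import Pool.Agent.Lib.MP_d6150d_an.GTree

/-! A generated chart: the program. -/

namespace Pool.Agent.Lib.MP_d6150d_an.UXcXR

def prog3 : List Ins := .sub true 2 0 :: .mul 26 0 :: .smul 640 0 :: .cst 1 6 :: .sub false 161 158
    :: .sub true 0 107 :: .mul 2 0 :: .smul 48 0 :: .add true 5 0 :: .mul 163 0 :: .sub true 0 167
    :: .mul 63 63 :: .mul 1 0 :: .mul 57 65 :: .add false 171 0 :: .rsq 0 :: .mul 0 0 :: .mul 0 0 ::
    .mul 0 2 :: .mul 6 0 :: .add false 46 0 :: .mul 52 0 :: .sub false 56 0 :: .cpy 0 :: []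

def prog2 : List Ins := .sub false 1 0 :: .smul 3 11 :: .smul 4 33 :: .add false 1 0 :: .add false 0
    45 :: .cst 1 4 :: .add false 16 3 :: .smul 3 48 :: .add true 1 0 :: .mul 3 0 :: .mul 12 0 ::
    .add true 6 0 :: .mul 14 0 :: .add true 12 0 :: .mul 16 0 :: .sub false 19 0 :: .mul 120 119 ::
    .smul (-1) 0 :: .exp 0 :: .smul 64 123 :: .mul 123 94 :: .rsq 95 :: .mul 1 0 :: .mul 3 0 :: .cst
    1 1080 :: .int 4 :: .smul 57 130 :: .sub false 1 0 :: .smul 6 115 :: .sub false 1 0 :: .mul 134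
    134 :: .smul 156 0 :: .add false 2 0 :: .smul 102 120 :: .mul 0 138 :: .add false 2 0 :: .mul
    123 123 :: .smul 60 0 :: .sub false 2 0 :: .mul 8 143 :: .smul 103 0 :: .sub false 2 0 :: .smul
    312 129 :: .mul 0 12 :: .sub false 2 0 :: .smul 480 8 :: .mul 0 150 :: .sub false 2 0 :: .mul 11
    135 :: .smul 320 0 :: prog3

def prog1 : List Ins := .mul 3 0 :: .mul 4 38 :: .smul 2 0 :: .sub true 2 0 :: .sub true 8 0 :: .add
    false 11 0 :: .mul 11 11 :: .mul 16 3 :: .add false 1 0 :: .mul 4 4 :: .sub false 1 0 :: .sub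
    false 6 21 :: .sub true 0 8 :: .sub false 0 23 :: .mul 11 0 :: .mul 14 2 :: .sub false 1 0 ::
    .sub true 6 0 :: .mul 27 0 :: .mul 13 0 :: .mul 29 11 :: .smul 2 16 :: .mul 28 17 :: .sub true 6
    0 :: .mul 2 0 :: .add false 4 0 :: .mul 12 12 :: .mul 37 22 :: .sub false 4 0 :: .add false 0 12
    :: .add false 3 0 :: .sub true 0 3 :: .mul 29 0 :: .mul 20 20 :: .add true 0 4 :: .mul 34 0 ::
    .sub false 3 0 :: .add true 11 0 :: .mul 47 0 :: .sub false 19 0 :: .smul 16 0 :: .smul 64 22 ::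
    .sub false 1 0 :: .smul 32 34 :: .add false 1 0 :: .sub false 52 0 :: .mul 99 99 :: .mul 0 71 ::
    .smul 12 8 :: .smul 16 30 :: prog2

def prog : List Ins := .int 1 :: .cst 1 2 :: .var 1 :: .add false 1 0 :: .var 2 :: .smul 2 1 :: .mul
    0 1 :: .tri 0 :: .mul 4 0 :: .sub true 5 10 :: .mul 0 7 :: .tri 0 :: .mul 4 0 :: .sub false 6 0
    :: .var 0 :: .mul 0 16 :: .sub false 0 16 :: .smul 2 4 :: .sub false 11 0 :: .int 2 :: .sub true
    18 0 :: .mul 0 20 :: .tri 0 :: .mul 4 0 :: .add true 7 0 :: .mul 10 0 :: .add true 14 0 :: .smul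
    2 0 :: .sub true 10 28 :: .mul 0 30 :: .exp 0 :: .mul 3 0 :: .tri 33 :: .add true 40 20 :: .mul
    0 3 :: .sub false 0 22 :: .mul 4 0 :: .inv 0 :: .mul 8 0 :: .mul 42 0 :: .mul 44 0 :: .add false
    48 0 :: .smul 32 0 :: .smul 2 2 :: .sub true 51 3 :: .smul 2 0 :: .mul 7 8 :: .smul 2 34 :: .add
    true 55 0 :: .mul 0 18 :: prog1

def vs : List Vr := [⟨4, 1, false, false⟩, ⟨6, 2, false, false⟩, ⟨9, 5, false, false⟩]

def C : Chart := ⟨vs, prog, [], 1, 3⟩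

def ts : List Dt := [(.ct 0 (.dv 2 (.dv 5 .pos)) (.dv 1 (.dv 5 .pos)) (.dv 1 (.dv 5 .pos)))]

end Pool.Agent.Lib.MP_d6150d_an.UXcXR
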