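import Pool.Agent.Lib.MP_d6150d_an.UXmULD

/-! A generated chart: the computations. -/

namespace Pool.Agent.Lib.MP_d6150d_an.UXmUL

theorem k0 : chkT C ts 0xbbb11bbbbb2bb210012 [(0, 893353197568), (0, 4398046511104),
    (70368744177664, 86861418594304)] = true := by
  decide +kernel

theorem k1 : chkT C ts 0xbb2bb21 [(893353197568, 1786706395136), (0, 4398046511104),
    (70368744177664, 86861418594304)] = true := by
  decide +kernel

theorem k2 : chkT C ts 0xbbb11 [(1786706395136, 3573412790272), (0, 4398046511104), (70368744177664,
    86861418594304)] = true := by
  decide +kernel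

theorem k3 : chkT C ts 0xbb1 [(3573412790272, 7146825580544), (0, 4398046511104), (70368744177664,
    86861418594304)] = true := by
  decide +kernel

theorem k4 : chkT C ts 0xbbb1bbb0120 [(0, 7146825580544), (4398046511104, 8796093022208),
    (70368744177664, 86861418594304)] = true := by
  decide +kernel

theorem k5 : chkT C ts 0xbbb1bb2bbb12100 [(0, 7146825580544), (0, 4398046511104), (86861418594304,
    103354093010944)] = true := by
  decide +kernel

theorem k6 : chkT C ts 0xbbbb200 [(0, 7146825580544), (4398046511104, 8796093022208),
    (86861418594304, 103354093010944)] = true := by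
  decide +kernel

theorem k7 : chkT C ts 0xbb2bbb121 [(7146825580544, 14293651161088), (0, 8796093022208),
    (70368744177664, 103354093010944)] = true := by
  decide +kernel

theorem k8 : chkT C ts 0xbb1bbb10bbbb21020 [(0, 7146825580544), (0, 4398046511104),
    (103354093010944, 136339441844224)] = true := by
  decide +kernel

theorem k9 : chkT C ts 0xbbb20 [(0, 7146825580544), (4398046511104, 8796093022208),
    (103354093010944, 136339441844224)] = true := by
  decide +kernel

theorem k10 : chkT C ts 0xbb1 [(7146825580544, 14293651161088), (0, 8796093022208),
    (103354093010944, 136339441844224)] = true := by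
  decide +kernel

theorem k11 : chkT C ts 0xbbb10bbbbb12001 [(0, 7146825580544), (0, 8796093022208), (136339441844224,
    169324790677504)] = true := by
  decide +kernel

theorem k12 : chkT C ts 0xbb1bb10 [(0, 7146825580544), (0, 8796093022208), (169324790677504,
    202310139510784)] = true := by
  decide +kernel

end Pool.Agent.Lib.MP_d6150d_an.UXmUL
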