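import Pool.Agent.Lib.MP_d6150d_an.UXmULD

/-! A generated chart: the computations. -/

namespace Pool.Agent.Lib.MP_d6150d_an.UXmUL

theorem k13 : chkT C ts 0xbb2bb21 [(7146825580544, 14293651161088), (0, 8796093022208),
    (136339441844224, 202310139510784)] = true := by
  decide +kernel

theorem k14 : chkT C ts 0xbb0bb01bb1bbb0102 [(0, 7146825580544), (0, 8796093022208),
    (202310139510784, 334251534843904)] = true := by
  decide +kernel

theorem k15 : chkT C ts 0xbb2bb21 [(7146825580544, 14293651161088), (0, 8796093022208),
    (202310139510784, 334251534843904)] = true := by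
  decide +kernel

theorem k16 : chkT C ts 0xbbb0b21bb0bb210 [(0, 14293651161088), (0, 8796093022208),
    (334251534843904, 466192930177024)] = true := by
  decide +kernel

theorem k17 : chkT C ts 0xbb0bbb01bb101 [(0, 14293651161088), (0, 8796093022208), (466192930177024,
    598134325510144)] = true := by
  decide +kernel

theorem k18 : chkT C ts 0xbbb11b0bbb11b02 [(0, 14293651161088), (0, 4398046511104),
    (598134325510144, 862017116176384)] = true := by
  decide +kernel

theorem k19 : chkT C ts 0xbbb20 [(0, 14293651161088), (4398046511104, 8796093022208),
    (598134325510144, 862017116176384)] = true := by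
  decide +kernel

theorem k20 : chkT C ts 0xbb0bb0b2b01 [(0, 14293651161088), (0, 4398046511104), (862017116176384,
    993958511509504)] = true := by
  decide +kernel

theorem k21 : chkT C ts 0xbb0bbb01b01 [(0, 14293651161088), (0, 4398046511104), (993958511509504,
    1125899906842624)] = true := by
  decide +kernel

theorem k22 : chkT C ts 0xbbb00 [(0, 14293651161088), (4398046511104, 8796093022208),
    (862017116176384, 1125899906842624)] = true := by
  decide +kernel

end Pool.Agent.Lib.MP_d6150d_an.UXmUL
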