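import Pool.Agent.Lib.MP_d6150d_an.GEq
import Pool.Agent.Lib.MP_d6150d_an.UXM
import Pool.Agent.Lib.MP_d6150d_an.GTreeS
import Pool.Agent.Lib.MP_d6150d_an.UXmULK0
import Pool.Agent.Lib.MP_d6150d_an.UXmULK1

/-! A generated chart: the inequality. -/

namespace Pool.Agent.Lib.MP_d6150d_an.UXmUL

set_option linter.unnecessarySeqFocus false
set_option linter.unusedTactic false
set_option linter.unusedVariables false
set_option linter.unusedSimpArgs false

def box : List (ℤ × ℤ) := [(0, 14293651161088), (0, 8796093022208), (70368744177664,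
    1125899906842624)]

theorem gd : GdT C ts box := .split 2 (.split 2 (.split 2 (.split 2 (.split 2 (.split 0 (.split 2
    (.split 1 (.split 0 (.split 0 (.split 0 (chkT_sound k0) (chkT_sound k1)) (chkT_sound k2))
    (chkT_sound k3)) (chkT_sound k4)) (.split 1 (chkT_sound k5) (chkT_sound k6))) (chkT_sound k7))
    (.split 0 (.split 1 (chkT_sound k8) (chkT_sound k9)) (chkT_sound k10))) (.split 0 (.split 2
    (chkT_sound k11) (chkT_sound k12)) (chkT_sound k13))) (.split 0 (chkT_sound k14) (chkT_sound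
    k15))) (.split 2 (chkT_sound k16) (chkT_sound k17))) (.split 2 (.split 1 (chkT_sound k18)
    (chkT_sound k19)) (.split 1 (.split 2 (chkT_sound k20) (chkT_sound k21)) (chkT_sound k22)))

set_option maxRecDepth 100000 in
theorem eq {a b s F D q d p z6 c j i z W e u m N n r g l A B z22 o z24 z25 : ℝ} (hF : F = 1 / 2 - b)
    (hD : D = a - F) (hq : q = Real.exp (-s)) (hd : d = (2 * F - 1) * s) (hp : p = Real.exp d) (hz6
    : z6 = ph1 d) (hc : c = s * z6) (hj : j = (1 - F)⁻¹) (hi : i = F⁻¹) (hz : z = q * p) (hW : W =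
    (-D + (1 + 2 * D) * q - (1 + D) * q ^ 2)⁻¹) (he : e = q * ((1 + D) * i * (p - q) - (1 + 2 * D) *
    c) * W) (hu : u = (1 - e) * j) (hm : m = -(F * u)) (hN : N = u⁻¹ * W) (hn : n = z * N) (hr : r =
    (√(1 + 4 * n))⁻¹) (hg : g = (√N)⁻¹) (hl : l = 1 + m) (hA : A = -(q * (1 + 2 * D) * (u * W))) (hB
    : B = -(q * q * (1 + D) * (u * W))) (hz22 : z22 = UX.a4 D F) (ho : o = n * n * p * N * g * (64 *
    F - 32 * z22 * n * r ^ 5)) (hz24 : z24 = 1) (hz25 : z25 = UX.gL z24 m u l e A B n o) : outR prog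
    0 [a, b, s] = z25 := by
  replace hF : F = (((Int.cast (1) : ℝ) / (Nat.cast 2 : ℝ)) - b) := hF.trans (by push_cast <;> ring)
  replace hD : D = (a - F) := hD.trans (by push_cast <;> ring)
  replace hq : q = (Real.exp ((Int.cast (-1) : ℝ) * s)) := hq.trans (congrArg Real.exp (by push_cast
    <;> ring))
  replace hd : d = ((((Int.cast (2) : ℝ) * F) - (Int.cast (1) : ℝ)) * s) := hd.trans (by push_cast
    <;> ring)
  replace hc : c = (s * z6) := hc.trans (by push_cast <;> ring)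
  replace hj : j = ((Int.cast (1) : ℝ) - F)⁻¹ := hj.trans (by push_cast <;> ring)
  replace hi : i = F⁻¹ := hi.trans (by push_cast <;> ring)
  replace hz : z = (q * p) := hz.trans (by push_cast <;> ring)
  replace hW : W = ((((Int.cast (-1) : ℝ) * D) + (((Int.cast (1) : ℝ) + ((Int.cast (2) : ℝ) * D)) *
    q)) - (((Int.cast (1) : ℝ) + D) * (q * q)))⁻¹ := hW.trans (by push_cast <;> ring)
  replace he : e = ((q * (((((Int.cast (1) : ℝ) + D) * i) * (p - q)) - (((Int.cast (1) : ℝ) +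
    ((Int.cast (2) : ℝ) * D)) * c))) * W) := he.trans (by push_cast <;> ring)
  replace hu : u = (((Int.cast (1) : ℝ) - e) * j) := hu.trans (by push_cast <;> ring)
  replace hm : m = ((Int.cast (-1) : ℝ) * (F * u)) := hm.trans (by push_cast <;> ring)
  replace hN : N = (u⁻¹ * W) := hN.trans (by push_cast <;> ring)
  replace hn : n = (z * N) := hn.trans (by push_cast <;> ring)
  replace hr : r = (√((Int.cast (1) : ℝ) + ((Int.cast (4) : ℝ) * n)))⁻¹ := hr.trans (congrArg (fun x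
    : ℝ ↦ (√x)⁻¹) (by push_cast <;> ring))
  replace hl : l = ((Int.cast (1) : ℝ) + m) := hl.trans (by push_cast <;> ring)
  replace hA : A = ((Int.cast (-1) : ℝ) * ((q * ((Int.cast (1) : ℝ) + ((Int.cast (2) : ℝ) * D))) *
    (u * W))) := hA.trans (by push_cast <;> ring)
  replace hB : B = ((Int.cast (-1) : ℝ) * (((q * q) * ((Int.cast (1) : ℝ) + D)) * (u * W))) :=
    hB.trans (by push_cast <;> ring)
  replace hz22 : z22 = (mA4 D F) := hz22.trans (mA4_0 ..)
  replace ho : o = (((((n * n) * p) * N) * g) * (((Int.cast (64) : ℝ) * F) - ((((Int.cast (32) : ℝ)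
    * z22) * n) * (((r * r) * (r * r)) * r)))) := ho.trans (by push_cast <;> ring)
  replace hz24 : z24 = (Int.cast (1) : ℝ) := hz24.trans (by push_cast <;> ring)
  replace hz25 : z25 = (mGL z24 m u l e A B n o) := hz25.trans (mGL_0 ..)
  subst hF hD hq hd hp hz6 hc hj hi hz hW he hu hm hN hn hr hg hl hA hB hz22 ho hz24 hz25
  simp only [outR, prog, prog1, prog2, prog3, runR, stepR, gtR, mGR, mGL, mKC, mA4, mMu]

theorem l0 : ((0 : ℤ) : ℝ) / 2 ^ 47 = 0 := by norm_num
theorem u0 : (13 / 128 : ℝ) = ((14293651161088 : ℤ) : ℝ) / 2 ^ 47 := by norm_num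
theorem l1 : ((0 : ℤ) : ℝ) / 2 ^ 47 = 0 := by norm_num
theorem u1 : (1 / 16 : ℝ) = ((8796093022208 : ℤ) : ℝ) / 2 ^ 47 := by norm_num
theorem l2 : ((70368744177664 : ℤ) : ℝ) / 2 ^ 47 = 1 / 2 := by norm_num
theorem u2 : (8 : ℝ) = ((1125899906842624 : ℤ) : ℝ) / 2 ^ 47 := by norm_num

theorem out (H : ∀ t ∈ ts, Hy t box (outR prog 0)) {a b s : ℝ} (a0 : 0 ≤ a) (b0 : a ≤ 13 / 128) (a1
    : 0 ≤ b) (b1 : b ≤ 1 / 16) (a2 : 1 / 2 ≤ s) (b2 : s ≤ 8) : 0 ≤ outR prog 0 [a, b, s] ∧ ((∀ t ∈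
    ts, Str t [a, b, s]) → 0 < outR prog 0 [a, b, s]) :=
  gd [a, b, s] (.cons ⟨l0.le.trans a0, b0.trans u0.le⟩ (.cons ⟨l1.le.trans a1, b1.trans u1.le⟩
    (.cons ⟨l2.le.trans a2, b2.trans u2.le⟩ (.nil)))) (List.forall_mem_nil _) H

end Pool.Agent.Lib.MP_d6150d_an.UXmUL
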