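import Pool.Agent.Lib.MP_d6150d_an.GTree

/-! A generated chart: the program. -/

namespace Pool.Agent.Lib.MP_d6150d_an.UXmUL

def prog3 : List Ins := .add false 2 0 :: .mul 143 143 :: .smul 60 0 :: .sub false 2 0 :: .mul 8 152
    :: .smul 103 0 :: .sub false 2 0 :: .smul 312 149 :: .mul 0 12 :: .sub false 2 0 :: .smul 480 8
    :: .mul 0 159 :: .sub false 2 0 :: .mul 11 155 :: .smul 320 0 :: .sub true 2 0 :: .mul 26 0 ::
    .smul 640 0 :: .cst 1 6 :: .sub false 134 149 :: .mul 1 0 :: .smul 48 0 :: .add true 4 0 :: .mul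
    171 0 :: .sub true 0 171 :: .smul 32 0 :: .mul 0 62 :: .smul 4 63 :: .add false 175 0 :: .rsq 0
    :: .mul 0 0 :: .mul 0 0 :: .mul 0 2 :: .mul 6 0 :: .sub false 45 0 :: .mul 47 0 :: .sub false 53
    0 :: .cpy 0 :: []

def prog2 : List Ins := .sub true 3 0 :: .mul 98 0 :: .add true 13 0 :: .mul 64 0 :: .sub false 29 0
    :: .smul 4 31 :: .add false 1 0 :: .smul 3 48 :: .add true 1 0 :: .mul 110 0 :: .mul 104 95 ::
    .inv 74 :: .mul 0 80 :: .mul 2 0 :: .smul 3 9 :: .add false 0 9 :: .add false 0 57 :: .smul 12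
    12 :: .smul 16 44 :: .sub false 1 0 :: .smul 16 15 :: .smul 64 47 :: .sub false 1 0 :: .smul 32
    64 :: .add false 1 0 :: .smul 32 69 :: .sub true 1 0 :: .mul 13 0 :: .add true 8 0 :: .mul 15 0
    :: .add true 13 0 :: .mul 17 0 :: .add false 22 0 :: .mul 19 19 :: .mul 0 119 :: .mul 0 22 ::
    .rsq 23 :: .mul 1 0 :: .smul 64 136 :: .cst 1 1080 :: .int 4 :: .smul 57 139 :: .sub false 1 0
    :: .smul 6 135 :: .sub false 1 0 :: .mul 143 143 :: .smul 156 0 :: .add false 2 0 :: .smul 102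
    140 :: .mul 0 147 :: prog3

def prog1 : List Ins := .mul 47 0 :: .sub true 10 0 :: .mul 49 0 :: .add true 13 0 :: .sub false 51
    15 :: .add true 52 16 :: .mul 1 0 :: .mul 18 5 :: .sub false 1 0 :: .smul 2 22 :: .sub true 0 7
    :: .mul 0 9 :: .add false 3 0 :: .sub false 10 26 :: .mul 61 61 :: .mul 0 15 :: .sub true 2 0 ::
    .sub false 0 30 :: .mul 19 0 :: .mul 24 2 :: .sub true 1 0 :: .mul 68 0 :: .sub true 9 0 :: .mul
    34 0 :: .mul 20 0 :: .mul 36 16 :: .mul 39 23 :: .smul 2 0 :: .mul 0 26 :: .sub false 3 0 ::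
    .sub true 43 27 :: .smul 2 0 :: .mul 79 49 :: .sub true 80 0 :: .smul 2 0 :: .mul 0 33 :: .sub
    true 14 0 :: .mul 5 0 :: .sub false 8 0 :: .mul 21 21 :: .mul 87 3 :: .sub false 0 14 :: .mul 27
    21 :: .add false 1 0 :: .add false 4 0 :: .sub true 0 18 :: .mul 47 0 :: .mul 30 30 :: .add true
    0 4 :: .mul 54 0 :: prog2

def prog : List Ins := .cst 1 4 :: .cst 1 2 :: .var 1 :: .sub true 1 0 :: .int 1 :: .var 2 :: .smul
    (-1) 0 :: .exp 0 :: .var 0 :: .sub true 0 5 :: .add true 5 0 :: .inv 7 :: .mul 1 0 :: .smul 2 9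
    :: .sub true 0 9 :: .mul 0 9 :: .tri 0 :: .sub true 2 11 :: .mul 7 0 :: .smul 2 11 :: .add true
    17 0 :: .mul 17 5 :: .mul 1 0 :: .sub true 4 0 :: .mul 18 0 :: .smul (-1) 17 :: .mul 5 20 ::
    .add false 1 0 :: .mul 22 22 :: .mul 20 0 :: .sub true 2 0 :: .inv 0 :: .mul 7 0 :: .sub true 30
    0 :: .sub true 31 32 :: .inv 0 :: .mul 2 0 :: .mul 35 0 :: .smul (-1) 0 :: .smul 2 0 :: .smul 2
    7 :: .mul 35 20 :: .mul 5 10 :: .mul 1 0 :: .smul (-1) 0 :: .mul 16 36 :: .mul 0 3 :: .smul (-1)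
    0 :: .smul 2 0 :: .sub true 4 0 :: prog1

def vs : List Vr := [⟨3, 1, false, false⟩, ⟨4, 2, false, false⟩, ⟨6, 0, false, false⟩]

def C : Chart := ⟨vs, prog, [], 1, 3⟩

def ts : List Dt := [(.ct 0 (.dv 2 .pos) .pos .pos)]

end Pool.Agent.Lib.MP_d6150d_an.UXmUL
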