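import Pool.Agent.Lib.MP_d6150d_an.GTree

/-! A generated chart: the program. -/

namespace Pool.Agent.Lib.MP_d6150d_an.UXmUR

def prog3 : List Ins := .rsq 0 :: .mul 0 0 :: .mul 0 0 :: .mul 0 2 :: .mul 6 0 :: .add false 45 0 ::
    .mul 47 0 :: .sub true 49 0 :: .mul 115 0 :: .cst 1 4 :: .smul 4 83 :: .add false 60 0 :: .smul
    3 97 :: .add true 1 0 :: .mul 4 0 :: .sub false 6 0 :: .smul 3 65 :: .add false 0 6 :: .add
    false 0 103 :: .smul 12 68 :: .smul 16 93 :: .sub true 1 0 :: .mul 133 0 :: .add true 4 0 ::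
    .mul 135 0 :: .sub false 9 0 :: .cpy 0 :: []

def prog2 : List Ins := .sub false 22 0 :: .smul 16 0 :: .smul 64 25 :: .sub false 1 0 :: .smul 32
    39 :: .add true 1 0 :: .mul 57 0 :: .sub false 62 0 :: .rsq 70 :: .smul 64 104 :: .cst 1 1080 ::
    .int 4 :: .smul 57 107 :: .sub false 1 0 :: .smul 6 100 :: .sub false 1 0 :: .mul 111 111 ::
    .smul 156 0 :: .add false 2 0 :: .smul 102 105 :: .mul 0 115 :: .add false 2 0 :: .mul 108 108
    :: .smul 60 0 :: .sub false 2 0 :: .mul 8 120 :: .smul 103 0 :: .sub false 2 0 :: .smul 312 114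
    :: .mul 0 12 :: .sub false 2 0 :: .smul 480 8 :: .mul 0 127 :: .sub false 2 0 :: .mul 11 120 ::
    .smul 320 0 :: .sub true 2 0 :: .mul 26 0 :: .smul 640 0 :: .cst 1 6 :: .sub false 121 125 ::
    .mul 1 0 :: .smul 48 0 :: .add true 4 0 :: .mul 139 0 :: .sub true 0 143 :: .smul 32 0 :: .mul 0
    108 :: .smul 4 109 :: .add false 147 0 :: prog3

def prog1 : List Ins := .smul 2 18 :: .mul 15 20 :: .mul 36 0 :: .mul 52 39 :: .mul 0 2 :: .smul 2 0
    :: .sub false 3 0 :: .mul 9 0 :: .sub true 7 0 :: .mul 12 0 :: .add false 10 0 :: .mul 29 29 ::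
    .mul 61 0 :: .mul 29 6 :: .add false 1 0 :: .mul 64 6 :: .mul 0 7 :: .sub false 2 0 :: .sub
    false 8 32 :: .mul 20 12 :: .sub true 1 0 :: .sub false 0 35 :: .mul 16 0 :: .mul 20 2 :: .sub
    false 1 0 :: .sub true 7 0 :: .mul 42 0 :: .mul 16 0 :: .mul 44 13 :: .smul 2 13 :: .mul 32 5 ::
    .mul 31 22 :: .sub true 1 0 :: .mul 3 0 :: .add false 5 0 :: .mul 13 13 :: .mul 39 3 :: .mul 51
    27 :: .sub false 1 0 :: .mul 40 14 :: .add false 1 0 :: .add false 5 0 :: .sub true 0 4 :: .mul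
    37 0 :: .mul 23 23 :: .add true 0 4 :: .mul 43 0 :: .sub false 3 0 :: .add true 13 0 :: .mul 65
    0 :: prog2

def prog : List Ins := .var 2 :: .smul (-1) 0 :: .exp 0 :: .int 1 :: .cst 1 2 :: .var 1 :: .sub true
    1 0 :: .smul 2 0 :: .sub true 4 0 :: .mul 0 8 :: .tri 0 :: .mul 10 2 :: .var 0 :: .sub true 0 8
    :: .smul 2 0 :: .add true 13 0 :: .mul 17 6 :: .mul 1 0 :: .sub true 16 13 :: .inv 0 :: .mul 6 0
    :: .sub true 12 20 :: .mul 1 0 :: .sub false 5 0 :: .add false 22 10 :: .mul 9 24 :: .sub false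
    1 0 :: .mul 26 26 :: .mul 14 0 :: .add true 2 0 :: .inv 0 :: .mul 7 0 :: .mul 31 0 :: .sub true
    31 0 :: .inv 29 :: .mul 1 0 :: .inv 0 :: .mul 0 6 :: .mul 26 0 :: .mul 27 0 :: .mul 0 31 :: .mul
    0 3 :: .mul 0 4 :: .add false 41 9 :: .smul 32 0 :: .mul 43 44 :: .mul 0 44 :: .mul 45 45 ::
    .mul 1 0 :: .smul 2 15 :: prog1

def vs : List Vr := [⟨3, 1, false, false⟩, ⟨4, 2, false, false⟩, ⟨6, 0, false, false⟩]

def C : Chart := ⟨vs, prog, [], 1, 3⟩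

def ts : List Dt := [(.ct 0 (.dv 2 .pos) .pos .pos)]

end Pool.Agent.Lib.MP_d6150d_an.UXmUR
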