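import Pool.Agent.Lib.MP_d6150d_an.GTree

/-! A generated chart: the program. -/

namespace Pool.Agent.Lib.MP_d6150d_an.UXmXL

def prog3 : List Ins := .mul 0 148 :: .add false 2 0 :: .mul 143 143 :: .smul 60 0 :: .sub false 2 0
    :: .mul 8 153 :: .smul 103 0 :: .sub false 2 0 :: .smul 312 149 :: .mul 0 12 :: .sub false 2 0
    :: .smul 480 8 :: .mul 0 160 :: .sub false 2 0 :: .mul 11 155 :: .smul 320 0 :: .sub true 2 0 ::
    .mul 26 0 :: .smul 640 0 :: .cst 1 6 :: .sub false 134 149 :: .mul 1 0 :: .smul 48 0 :: .add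
    true 4 0 :: .mul 172 0 :: .sub true 0 172 :: .smul 32 0 :: .mul 0 62 :: .smul 4 63 :: .add false
    176 0 :: .rsq 0 :: .mul 0 0 :: .mul 0 0 :: .mul 0 2 :: .mul 6 0 :: .sub false 45 0 :: .mul 47 0
    :: .sub false 53 0 :: .cpy 0 :: []

def prog2 : List Ins := .mul 54 0 :: .sub false 3 0 :: .mul 99 0 :: .add true 13 0 :: .mul 64 0 ::
    .sub false 29 0 :: .smul 4 31 :: .add false 1 0 :: .smul 3 48 :: .add true 1 0 :: .mul 111 0 ::
    .mul 105 95 :: .inv 74 :: .mul 0 80 :: .mul 2 0 :: .smul 3 9 :: .add false 0 9 :: .add false 0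
    57 :: .smul 12 12 :: .smul 16 44 :: .sub false 1 0 :: .smul 16 15 :: .smul 64 47 :: .sub false 1
    0 :: .smul 32 64 :: .add false 1 0 :: .smul 32 69 :: .sub true 1 0 :: .mul 13 0 :: .add true 8 0
    :: .mul 15 0 :: .add true 13 0 :: .mul 17 0 :: .add false 22 0 :: .mul 19 19 :: .mul 0 119 ::
    .mul 0 22 :: .rsq 23 :: .mul 1 0 :: .smul 64 137 :: .cst 1 1080 :: .int 4 :: .smul 57 140 ::
    .sub false 1 0 :: .smul 6 135 :: .sub false 1 0 :: .mul 144 144 :: .smul 156 0 :: .add false 2 0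
    :: .smul 102 140 :: prog3

def prog1 : List Ins := .sub false 4 0 :: .mul 48 0 :: .sub true 10 0 :: .mul 50 0 :: .add true 13 0
    :: .sub false 52 15 :: .add true 53 16 :: .mul 1 0 :: .mul 18 5 :: .sub true 1 0 :: .smul 2 22
    :: .sub true 0 7 :: .mul 0 9 :: .add false 3 0 :: .sub false 10 26 :: .mul 62 62 :: .mul 0 15 ::
    .sub true 2 0 :: .sub false 0 30 :: .mul 19 0 :: .mul 24 2 :: .sub false 1 0 :: .mul 69 0 ::
    .sub true 9 0 :: .mul 34 0 :: .mul 20 0 :: .mul 36 16 :: .mul 39 23 :: .smul 2 0 :: .mul 0 26 ::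
    .sub false 3 0 :: .sub true 43 27 :: .smul 2 0 :: .mul 80 49 :: .sub true 81 0 :: .smul 2 0 ::
    .mul 0 33 :: .sub true 14 0 :: .mul 5 0 :: .sub false 8 0 :: .mul 21 21 :: .mul 88 3 :: .sub
    false 0 14 :: .mul 27 21 :: .add false 1 0 :: .add false 4 0 :: .sub true 0 18 :: .mul 47 0 ::
    .mul 30 30 :: .add true 0 4 :: prog2

def prog : List Ins := .cst 1 4 :: .cst 1 2 :: .var 1 :: .add false 1 0 :: .int 1 :: .var 2 :: .smul
    (-1) 0 :: .exp 0 :: .var 0 :: .mul 0 6 :: .sub false 0 6 :: .add true 6 0 :: .inv 8 :: .mul 1 0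
    :: .smul 2 10 :: .sub true 0 10 :: .mul 0 10 :: .tri 0 :: .sub true 2 12 :: .mul 7 0 :: .smul 2
    11 :: .add true 18 0 :: .mul 18 5 :: .mul 1 0 :: .sub false 4 0 :: .mul 19 0 :: .smul (-1) 17 ::
    .mul 5 21 :: .add false 1 0 :: .mul 23 23 :: .mul 20 0 :: .sub true 2 0 :: .inv 0 :: .mul 7 0 ::
    .sub true 31 0 :: .sub true 32 33 :: .inv 0 :: .mul 2 0 :: .mul 36 0 :: .smul (-1) 0 :: .smul 2
    0 :: .smul 2 7 :: .mul 36 20 :: .mul 5 10 :: .mul 1 0 :: .smul (-1) 0 :: .mul 16 36 :: .mul 0 3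
    :: .smul (-1) 0 :: .smul 2 0 :: prog1

def vs : List Vr := [⟨3, 1, false, false⟩, ⟨4, 2, false, false⟩, ⟨6, 0, false, false⟩]

def C : Chart := ⟨vs, prog, [], 1, 3⟩

def ts : List Dt := [(.ct 0 (.dv 2 .pos) (.dv 1 .pos) (.dv 1 .pos)), (.nx (.dv 1 .pos))]

end Pool.Agent.Lib.MP_d6150d_an.UXmXL
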