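import Pool.Agent.Lib.MP_d6150d_an.GTree

/-! A generated chart: the program. -/

namespace Pool.Agent.Lib.MP_d6150d_an.UXtUL

def prog3 : List Ins := .cst 1 1080 :: .int 4 :: .smul 57 146 :: .sub false 1 0 :: .smul 6 141 ::
    .sub false 1 0 :: .mul 150 150 :: .smul 156 0 :: .add false 2 0 :: .smul 102 146 :: .mul 0 154
    :: .add false 2 0 :: .mul 149 149 :: .smul 60 0 :: .sub false 2 0 :: .mul 8 159 :: .smul 103 0
    :: .sub false 2 0 :: .smul 312 155 :: .mul 0 12 :: .sub false 2 0 :: .smul 480 8 :: .mul 0 166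
    :: .sub false 2 0 :: .mul 11 161 :: .smul 320 0 :: .sub true 2 0 :: .mul 26 0 :: .smul 640 0 ::
    .cst 1 6 :: .sub false 142 154 :: .mul 1 0 :: .smul 48 0 :: .add true 4 0 :: .mul 178 0 :: .sub
    true 0 178 :: .smul 32 0 :: .mul 0 67 :: .smul 4 68 :: .add false 182 0 :: .rsq 0 :: .mul 0 0 ::
    .mul 0 0 :: .mul 0 2 :: .mul 6 0 :: .sub false 45 0 :: .mul 47 0 :: .sub false 58 0 :: .cpy 0 ::
    []

def prog2 : List Ins := .sub false 0 16 :: .mul 49 0 :: .mul 28 28 :: .add false 0 4 :: .mul 57 0 ::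
    .sub true 3 0 :: .mul 103 0 :: .add true 13 0 :: .mul 66 0 :: .sub false 27 0 :: .smul 4 29 ::
    .add false 1 0 :: .smul 3 46 :: .add true 1 0 :: .mul 113 0 :: .mul 112 96 :: .mul 96 0 :: .inv
    77 :: .mul 0 85 :: .mul 2 0 :: .smul 3 10 :: .add false 0 10 :: .add false 0 56 :: .smul 12 13
    :: .smul 16 43 :: .sub false 1 0 :: .smul 16 16 :: .smul 64 46 :: .sub false 1 0 :: .smul 32 63
    :: .add false 1 0 :: .smul 32 68 :: .sub true 1 0 :: .mul 13 0 :: .add true 8 0 :: .mul 15 0 ::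
    .add true 13 0 :: .mul 17 0 :: .add false 23 0 :: .mul 119 131 :: .mul 121 121 :: .mul 0 122 ::
    .mul 70 0 :: .mul 3 0 :: .mul 25 25 :: .mul 0 26 :: .mul 2 0 :: .rsq 28 :: .mul 1 0 :: .smul 64
    143 :: prog3

def prog1 : List Ins := .smul (-1) 0 :: .smul 2 0 :: .sub true 5 0 :: .mul 50 0 :: .sub true 10 0 ::
    .mul 52 0 :: .add false 13 0 :: .sub false 50 15 :: .mul 52 19 :: .mul 0 24 :: .mul 42 21 ::
    .smul (-1) 0 :: .sub true 2 0 :: .mul 5 0 :: .mul 22 9 :: .sub false 1 0 :: .smul 2 26 :: .sub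
    false 0 11 :: .mul 0 13 :: .add false 3 0 :: .sub false 14 30 :: .mul 68 68 :: .mul 0 19 :: .sub
    false 2 0 :: .sub false 0 34 :: .mul 23 0 :: .mul 29 2 :: .sub true 1 0 :: .mul 75 0 :: .sub
    true 9 0 :: .mul 38 0 :: .mul 24 0 :: .mul 40 16 :: .mul 43 27 :: .smul 2 0 :: .mul 0 30 :: .sub
    false 3 0 :: .sub false 47 31 :: .smul 2 0 :: .smul 2 52 :: .mul 0 35 :: .sub true 12 0 :: .mul
    3 0 :: .sub false 6 0 :: .mul 19 19 :: .mul 92 3 :: .sub false 0 12 :: .mul 25 19 :: .add false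
    1 0 :: .add false 4 0 :: prog2

def prog : List Ins := .cst 1 4 :: .cst 1 2 :: .var 0 :: .var 3 :: .mul 1 0 :: .sub false 3 0 ::
    .int 1 :: .var 2 :: .var 1 :: .add false 0 4 :: .smul 2 0 :: .smul (-1) 0 :: .sub true 3 6 ::
    .add true 6 0 :: .mul 11 0 :: .inv 9 :: .mul 1 0 :: .smul 2 13 :: .sub true 11 0 :: .mul 16 11
    :: .mul 17 0 :: .sub false 2 0 :: .mul 5 0 :: .add true 11 0 :: .smul (-1) 11 :: .smul 2 12 ::
    .add true 19 0 :: .mul 0 6 :: .add false 3 0 :: .mul 8 8 :: .mul 16 0 :: .sub false 2 0 :: .inv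
    0 :: .mul 9 0 :: .mul 26 0 :: .mul 32 0 :: .sub false 29 0 :: .sub true 30 31 :: .inv 0 :: .mul
    2 0 :: .mul 34 0 :: .smul (-1) 0 :: .smul 2 0 :: .smul 2 8 :: .mul 36 32 :: .mul 5 12 :: .mul 1
    0 :: .mul 27 27 :: .mul 0 34 :: .mul 0 3 :: prog1

def vs : List Vr := [⟨2, 1, false, false⟩, ⟨2, 1, false, false⟩, ⟨2, 1, false, false⟩, ⟨4, 2, false,
    false⟩]

def C : Chart := ⟨vs, prog, [], 1, 3⟩

def ts : List Dt := [(.dv 1 (.ct 0 (.nx (.dv 2 .pos)) (.dv 1 .pos) (.ct 0 (.dv 2 .pos) .pos .pos))),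
    (.dv 1 .pos)]

end Pool.Agent.Lib.MP_d6150d_an.UXtUL
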