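import Pool.Agent.Lib.MP_d6150d_an.GTree

/-! A generated chart: the program. -/

namespace Pool.Agent.Lib.MP_d6150d_an.UXtUR

def prog3 : List Ins := .mul 1 0 :: .smul 4 1 :: .add false 147 0 :: .rsq 0 :: .mul 0 0 :: .mul 0 0
    :: .mul 0 2 :: .mul 6 0 :: .add false 46 0 :: .mul 48 0 :: .sub true 50 0 :: .mul 114 0 :: .cst
    1 4 :: .smul 4 84 :: .add false 61 0 :: .smul 3 98 :: .add true 1 0 :: .mul 4 0 :: .sub false 6
    0 :: .smul 3 66 :: .add false 0 6 :: .add false 0 104 :: .smul 12 69 :: .smul 16 94 :: .sub true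
    1 0 :: .mul 25 0 :: .add true 4 0 :: .mul 27 0 :: .sub false 9 0 :: .cpy 0 :: []

def prog2 : List Ins := .add true 13 0 :: .mul 61 0 :: .sub false 22 0 :: .smul 16 0 :: .smul 64 25
    :: .sub false 1 0 :: .smul 32 39 :: .add true 1 0 :: .mul 57 0 :: .sub false 60 0 :: .rsq 66 ::
    .smul 64 94 :: .cst 1 1080 :: .int 4 :: .smul 57 97 :: .sub false 1 0 :: .smul 6 98 :: .sub
    false 1 0 :: .mul 101 101 :: .smul 156 0 :: .add false 2 0 :: .smul 102 103 :: .mul 0 105 ::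
    .add false 2 0 :: .mul 106 106 :: .smul 60 0 :: .sub false 2 0 :: .mul 8 110 :: .smul 103 0 ::
    .sub false 2 0 :: .smul 312 112 :: .mul 0 12 :: .sub false 2 0 :: .smul 480 8 :: .mul 0 117 ::
    .sub false 2 0 :: .mul 11 118 :: .smul 320 0 :: .sub true 2 0 :: .mul 26 0 :: .smul 640 0 ::
    .cst 1 6 :: .sub false 123 112 :: .mul 1 0 :: .smul 48 0 :: .add true 4 0 :: .mul 129 0 :: .sub
    true 0 142 :: .smul 32 0 :: .mul 139 105 :: prog3

def prog1 : List Ins := .mul 40 0 :: .smul 2 11 :: .smul 2 14 :: .mul 11 16 :: .mul 41 0 :: .mul 32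
    37 :: .mul 0 2 :: .smul 2 0 :: .sub false 3 0 :: .mul 9 0 :: .sub false 7 0 :: .mul 51 0 :: .add
    false 10 0 :: .mul 25 25 :: .mul 62 0 :: .mul 25 6 :: .add false 1 0 :: .mul 65 6 :: .mul 0 7 ::
    .sub false 2 0 :: .sub false 8 28 :: .mul 20 12 :: .sub false 1 0 :: .sub false 0 31 :: .mul 16
    0 :: .mul 20 2 :: .sub false 1 0 :: .sub true 7 0 :: .mul 38 0 :: .mul 16 0 :: .mul 40 13 ::
    .smul 2 13 :: .mul 32 5 :: .mul 31 22 :: .sub false 1 0 :: .mul 3 0 :: .add false 5 0 :: .mul 13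
    13 :: .mul 78 3 :: .mul 47 27 :: .sub false 1 0 :: .mul 40 14 :: .add false 1 0 :: .add false 5
    0 :: .sub false 0 4 :: .mul 37 0 :: .mul 23 23 :: .add false 0 4 :: .mul 43 0 :: .sub false 3 0
    :: prog2

def prog : List Ins := .var 0 :: .var 3 :: .mul 1 0 :: .mul 0 1 :: .int 1 :: .var 2 :: .smul 2 0 ::
    .sub true 2 0 :: .mul 4 0 :: .mul 6 1 :: .var 1 :: .add false 0 5 :: .smul 2 0 :: .mul 12 2 ::
    .cst 1 2 :: .mul 14 9 :: .sub true 1 0 :: .sub false 3 0 :: .sub true 13 1 :: .inv 0 :: .mul 2 0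
    :: .mul 13 13 :: .mul 20 0 :: .mul 22 0 :: .mul 0 16 :: .sub false 20 0 :: .mul 5 0 :: .sub
    false 14 0 :: .add false 23 10 :: .smul 2 11 :: .add true 25 0 :: .mul 0 7 :: .sub false 3 0 ::
    .mul 9 9 :: .mul 16 0 :: .add true 2 0 :: .inv 0 :: .mul 9 0 :: .mul 28 0 :: .sub false 34 0 ::
    .inv 23 :: .mul 1 0 :: .inv 0 :: .mul 0 6 :: .mul 0 0 :: .mul 0 1 :: .mul 37 0 :: .add false 42
    7 :: .smul 32 0 :: .mul 48 41 :: prog1

def vs : List Vr := [⟨2, 1, false, false⟩, ⟨3, 1, false, false⟩, ⟨4, 2, false, false⟩, ⟨2, 1, false,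
    false⟩]

def C : Chart := ⟨vs, prog, [], 1, 3⟩

def ts : List Dt := [(.dv 1 (.ct 0 (.dv 2 .pos) (.ct 0 (.dv 1 .pos) .pos .pos) (.ct 0 (.dv 1 .pos)
    .pos .pos)))]

end Pool.Agent.Lib.MP_d6150d_an.UXtUR
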