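import Pool.Agent.Lib.MP_d6150d_an.GTree

/-! A generated chart: the program. -/

namespace Pool.Agent.Lib.MP_d6150d_an.UXtVR

def prog3 : List Ins := .smul 48 0 :: .add true 4 0 :: .mul 130 0 :: .sub true 0 145 :: .smul 32 0
    :: .mul 150 141 :: .mul 153 0 :: .mul 0 107 :: .mul 3 0 :: .smul 4 1 :: .add false 152 0 :: .rsq
    0 :: .mul 0 0 :: .mul 0 0 :: .mul 0 2 :: .mul 6 0 :: .add false 48 0 :: .mul 50 0 :: .sub true
    52 0 :: .mul 116 0 :: .cst 1 4 :: .smul 4 86 :: .add false 63 0 :: .smul 3 100 :: .add true 1 0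
    :: .mul 4 0 :: .sub false 6 0 :: .smul 3 68 :: .add false 0 6 :: .add false 0 106 :: .smul 12 71
    :: .smul 16 96 :: .sub true 1 0 :: .mul 25 0 :: .add true 4 0 :: .mul 27 0 :: .sub false 9 0 ::
    .cpy 0 :: []

def prog2 : List Ins := .sub false 0 4 :: .mul 37 0 :: .mul 23 23 :: .add false 0 4 :: .mul 43 0 ::
    .sub false 3 0 :: .add true 13 0 :: .mul 61 0 :: .sub false 22 0 :: .smul 16 0 :: .smul 64 25 ::
    .sub false 1 0 :: .smul 32 39 :: .add true 1 0 :: .mul 57 0 :: .sub false 60 0 :: .rsq 66 ::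
    .smul 64 95 :: .cst 1 1080 :: .int 4 :: .smul 57 98 :: .sub false 1 0 :: .smul 6 99 :: .sub
    false 1 0 :: .mul 102 102 :: .smul 156 0 :: .add false 2 0 :: .smul 102 104 :: .mul 0 106 ::
    .add false 2 0 :: .mul 107 107 :: .smul 60 0 :: .sub false 2 0 :: .mul 8 111 :: .smul 103 0 ::
    .sub false 2 0 :: .smul 312 113 :: .mul 0 12 :: .sub false 2 0 :: .smul 480 8 :: .mul 0 118 ::
    .sub false 2 0 :: .mul 11 119 :: .smul 320 0 :: .sub true 2 0 :: .mul 26 0 :: .smul 640 0 ::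
    .cst 1 6 :: .sub false 123 112 :: .mul 1 0 :: prog3

def prog1 : List Ins := .mul 0 0 :: .mul 0 1 :: .mul 39 0 :: .add false 45 7 :: .smul 32 0 :: .mul
    54 41 :: .mul 41 0 :: .smul 2 11 :: .smul 2 14 :: .mul 11 16 :: .mul 42 0 :: .mul 32 38 :: .mul
    0 2 :: .smul 2 0 :: .sub false 3 0 :: .mul 9 0 :: .sub false 7 0 :: .mul 52 0 :: .add false 10 0
    :: .mul 25 25 :: .mul 68 0 :: .mul 25 6 :: .add false 1 0 :: .mul 71 6 :: .mul 0 7 :: .sub false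
    2 0 :: .sub false 8 28 :: .mul 20 12 :: .sub false 1 0 :: .sub false 0 31 :: .mul 16 0 :: .mul
    20 2 :: .sub false 1 0 :: .sub true 7 0 :: .mul 38 0 :: .mul 16 0 :: .mul 40 13 :: .smul 2 13 ::
    .mul 32 5 :: .mul 31 22 :: .sub false 1 0 :: .mul 3 0 :: .add false 5 0 :: .mul 13 13 :: .mul 79
    3 :: .mul 47 27 :: .sub false 1 0 :: .mul 40 14 :: .add false 1 0 :: .add false 5 0 :: prog2

def prog : List Ins := .var 0 :: .var 3 :: .mul 1 0 :: .mul 0 1 :: .var 1 :: .mul 0 0 :: .mul 0 0 ::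
    .int 1 :: .var 2 :: .smul 2 0 :: .sub true 2 0 :: .mul 4 0 :: .mul 8 0 :: .mul 8 2 :: .mul 11 0
    :: .mul 10 6 :: .add false 8 0 :: .smul 2 0 :: .cst 1 2 :: .mul 18 14 :: .mul 0 11 :: .sub false
    2 0 :: .sub true 21 0 :: .mul 18 0 :: .sub true 16 2 :: .inv 0 :: .mul 2 0 :: .mul 13 13 :: .mul
    26 0 :: .mul 28 0 :: .mul 0 19 :: .sub false 23 0 :: .mul 5 0 :: .sub false 15 0 :: .add false
    26 11 :: .smul 2 12 :: .add true 28 0 :: .mul 0 7 :: .sub false 3 0 :: .mul 9 9 :: .mul 17 0 ::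
    .add true 2 0 :: .inv 0 :: .mul 9 0 :: .mul 29 0 :: .sub false 37 0 :: .inv 24 :: .mul 1 0 ::
    .inv 0 :: .mul 0 6 :: prog1

def vs : List Vr := [⟨2, 1, false, false⟩, ⟨3, 1, false, false⟩, ⟨3, 1, false, false⟩, ⟨2, 1, false,
    false⟩]

def C : Chart := ⟨vs, prog, [], 1, 3⟩

def ts : List Dt := [(.dv 1 (.dv 1 (.ct 0 (.dv 1 .pos) .pos .pos)))]

end Pool.Agent.Lib.MP_d6150d_an.UXtVR
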