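import Pool.Agent.Lib.MP_d6150d_an.GTree

/-! A generated chart: the program. -/

namespace Pool.Agent.Lib.MP_d6150d_an.UXtXL

def prog3 : List Ins := .smul 57 144 :: .sub false 1 0 :: .smul 6 136 :: .sub false 1 0 :: .mul 148
    148 :: .smul 156 0 :: .add false 2 0 :: .smul 102 141 :: .mul 0 152 :: .add false 2 0 :: .mul
    144 144 :: .smul 60 0 :: .sub false 2 0 :: .mul 8 157 :: .smul 103 0 :: .sub false 2 0 :: .smul
    312 150 :: .mul 0 12 :: .sub false 2 0 :: .smul 480 8 :: .mul 0 164 :: .sub false 2 0 :: .mul 11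
    156 :: .smul 320 0 :: .sub true 2 0 :: .mul 26 0 :: .smul 640 0 :: .cst 1 6 :: .sub false 138
    150 :: .mul 1 0 :: .smul 48 0 :: .add true 4 0 :: .mul 176 0 :: .sub true 0 176 :: .smul 32 0 ::
    .mul 0 64 :: .smul 4 65 :: .add false 180 0 :: .rsq 0 :: .mul 0 0 :: .mul 0 0 :: .mul 0 2 ::
    .mul 6 0 :: .sub false 45 0 :: .mul 47 0 :: .sub false 55 0 :: .cpy 0 :: []

def prog2 : List Ins := .add false 1 0 :: .add false 4 0 :: .sub false 0 16 :: .mul 48 0 :: .mul 28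
    28 :: .add false 0 4 :: .mul 56 0 :: .sub false 3 0 :: .mul 105 0 :: .add true 13 0 :: .mul 66 0
    :: .sub false 27 0 :: .smul 4 29 :: .add false 1 0 :: .smul 3 46 :: .add true 1 0 :: .mul 115 0
    :: .mul 97 107 :: .inv 76 :: .mul 0 84 :: .mul 2 0 :: .smul 3 9 :: .add false 0 9 :: .add false
    0 55 :: .smul 12 12 :: .smul 16 42 :: .sub false 1 0 :: .smul 16 15 :: .smul 64 45 :: .sub false
    1 0 :: .smul 32 62 :: .add false 1 0 :: .smul 32 67 :: .sub true 1 0 :: .mul 13 0 :: .add true 8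
    0 :: .mul 15 0 :: .add true 13 0 :: .mul 17 0 :: .add false 22 0 :: .mul 120 132 :: .mul 0 131
    :: .mul 22 22 :: .mul 0 23 :: .mul 2 0 :: .rsq 25 :: .mul 1 0 :: .smul 64 141 :: .cst 1 1080 ::
    .int 4 :: prog3

def prog1 : List Ins := .mul 3 3 :: .mul 0 34 :: .mul 0 3 :: .smul (-1) 0 :: .smul 2 0 :: .sub false
    5 0 :: .mul 53 0 :: .sub false 11 0 :: .mul 55 0 :: .add false 14 0 :: .sub false 53 16 :: .mul
    55 20 :: .mul 0 25 :: .mul 54 22 :: .sub true 1 0 :: .mul 4 0 :: .mul 22 8 :: .sub true 1 0 ::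
    .smul 2 26 :: .sub false 0 10 :: .mul 0 12 :: .add false 3 0 :: .sub false 13 30 :: .mul 70 70
    :: .mul 0 18 :: .sub false 2 0 :: .sub false 0 34 :: .mul 22 0 :: .mul 28 2 :: .sub false 1 0 ::
    .mul 77 0 :: .sub true 9 0 :: .mul 38 0 :: .mul 23 0 :: .mul 40 16 :: .mul 43 26 :: .smul 2 0 ::
    .mul 0 29 :: .sub false 3 0 :: .sub false 47 30 :: .smul 2 0 :: .smul 2 52 :: .mul 0 34 :: .sub
    false 12 0 :: .mul 3 0 :: .sub false 6 0 :: .mul 19 19 :: .mul 94 3 :: .sub false 0 12 :: .mul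
    25 19 :: prog2

def prog : List Ins := .cst 1 4 :: .cst 1 2 :: .var 0 :: .var 3 :: .mul 1 0 :: .add false 3 0 ::
    .int 1 :: .var 2 :: .smul 2 4 :: .sub true 2 0 :: .mul 2 0 :: .var 1 :: .sub true 5 0 :: .mul 4
    0 :: .mul 2 9 :: .sub false 0 9 :: .add true 9 0 :: .inv 11 :: .mul 1 0 :: .mul 16 11 :: .mul 10
    10 :: .mul 1 0 :: .mul 0 12 :: .sub false 16 0 :: .mul 5 0 :: .add false 11 0 :: .smul (-1) 10
    :: .smul 2 11 :: .add true 21 0 :: .mul 0 7 :: .add false 3 0 :: .mul 9 9 :: .mul 15 0 :: .sub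
    false 2 0 :: .inv 0 :: .mul 9 0 :: .mul 25 0 :: .mul 34 0 :: .sub false 31 0 :: .sub true 32 33
    :: .inv 0 :: .mul 2 0 :: .mul 36 0 :: .smul (-1) 0 :: .smul 2 0 :: .smul 2 8 :: .mul 38 25 ::
    .mul 0 33 :: .mul 6 13 :: .mul 1 0 :: prog1

def vs : List Vr := [⟨2, 1, false, false⟩, ⟨2, 1, false, false⟩, ⟨2, 1, false, false⟩, ⟨4, 2, false,
    false⟩]

def C : Chart := ⟨vs, prog, [], 1, 3⟩

def ts : List Dt := [(.dv 1 (.ct 0 (.nx (.dv 2 .pos)) (.dv 1 (.dv 1 .pos)) (.ct 0 (.dv 2 .pos) (.dv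
    1 .pos) (.dv 1 .pos)))), (.dv 1 .pos)]

end Pool.Agent.Lib.MP_d6150d_an.UXtXL
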