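import Pool.Agent.Lib.MP_d6150d_an.GTree

/-! A generated chart: the program. -/

namespace Pool.Agent.Lib.MP_d6150d_an.UXtXR

def prog3 : List Ins := .mul 2 0 :: .smul 4 1 :: .add false 147 0 :: .rsq 0 :: .mul 0 0 :: .mul 0 0
    :: .mul 0 2 :: .mul 6 0 :: .add false 47 0 :: .mul 49 0 :: .sub true 51 0 :: .mul 116 0 :: .cst
    1 4 :: .smul 4 85 :: .add false 62 0 :: .smul 3 99 :: .add true 1 0 :: .mul 4 0 :: .sub false 6
    0 :: .smul 3 67 :: .add false 0 6 :: .add false 0 105 :: .smul 12 70 :: .smul 16 95 :: .sub true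
    1 0 :: .mul 25 0 :: .add true 4 0 :: .mul 27 0 :: .sub false 9 0 :: .cpy 0 :: []

def prog2 : List Ins := .mul 62 0 :: .sub false 22 0 :: .smul 16 0 :: .smul 64 25 :: .sub false 1 0
    :: .smul 32 39 :: .add true 1 0 :: .mul 57 0 :: .sub false 61 0 :: .rsq 67 :: .smul 64 91 ::
    .cst 1 1080 :: .int 4 :: .smul 57 94 :: .sub false 1 0 :: .smul 6 95 :: .sub false 1 0 :: .mul
    98 98 :: .smul 156 0 :: .add false 2 0 :: .smul 102 100 :: .mul 0 102 :: .add false 2 0 :: .mul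
    103 103 :: .smul 60 0 :: .sub false 2 0 :: .mul 8 107 :: .smul 103 0 :: .sub false 2 0 :: .smul
    312 109 :: .mul 0 12 :: .sub false 2 0 :: .smul 480 8 :: .mul 0 114 :: .sub false 2 0 :: .mul 11
    115 :: .smul 320 0 :: .sub true 2 0 :: .mul 26 0 :: .smul 640 0 :: .cst 1 6 :: .sub false 120
    113 :: .mul 1 0 :: .smul 48 0 :: .add true 4 0 :: .mul 126 0 :: .sub true 0 141 :: .smul 32 0 ::
    .mul 145 140 :: .mul 0 107 :: prog3

def prog1 : List Ins := .smul 2 12 :: .smul 2 15 :: .mul 12 17 :: .mul 38 0 :: .mul 52 34 :: .mul 0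
    2 :: .smul 2 0 :: .sub true 3 0 :: .mul 9 0 :: .sub false 7 0 :: .mul 12 0 :: .add false 10 0 ::
    .mul 26 26 :: .mul 61 0 :: .mul 26 6 :: .add true 1 0 :: .mul 64 6 :: .mul 0 7 :: .sub false 2 0
    :: .sub false 8 29 :: .mul 20 12 :: .sub false 1 0 :: .sub false 0 32 :: .mul 16 0 :: .mul 20 2
    :: .sub true 1 0 :: .sub true 7 0 :: .mul 39 0 :: .mul 16 0 :: .mul 41 13 :: .smul 2 13 :: .mul
    32 5 :: .mul 31 22 :: .sub false 1 0 :: .mul 3 0 :: .add false 5 0 :: .mul 13 13 :: .mul 39 3 ::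
    .mul 48 27 :: .sub false 1 0 :: .mul 40 14 :: .add false 1 0 :: .add false 5 0 :: .sub false 0 4
    :: .mul 37 0 :: .mul 23 23 :: .add false 0 4 :: .mul 43 0 :: .sub false 3 0 :: .add true 13 0 ::
    prog2

def prog : List Ins := .var 0 :: .var 2 :: .mul 1 0 :: .mul 0 1 :: .int 1 :: .var 1 :: .smul 2 0 ::
    .sub true 2 0 :: .mul 0 0 :: .mul 0 1 :: .mul 6 0 :: .var 3 :: .sub true 7 0 :: .mul 6 0 ::
    .smul (-1) 0 :: .mul 14 9 :: .mul 4 0 :: .cst 1 2 :: .add false 0 2 :: .sub false 2 0 :: .sub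
    true 15 1 :: .inv 0 :: .mul 2 0 :: .sub false 15 20 :: .mul 1 0 :: .sub true 10 0 :: .add false
    21 6 :: .smul 2 7 :: .add true 23 0 :: .mul 0 26 :: .sub false 3 0 :: .mul 28 28 :: .mul 12 0 ::
    .add true 2 0 :: .inv 0 :: .mul 9 0 :: .mul 33 0 :: .sub false 32 0 :: .inv 19 :: .mul 1 0 ::
    .inv 0 :: .mul 0 6 :: .mul 0 0 :: .mul 0 1 :: .mul 33 0 :: .add false 40 7 :: .smul 32 0 :: .mul
    44 42 :: .mul 47 43 :: .mul 1 0 :: prog1

def vs : List Vr := [⟨2, 1, false, false⟩, ⟨4, 2, false, false⟩, ⟨2, 1, false, false⟩, ⟨2, 1, false,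
    false⟩]

def C : Chart := ⟨vs, prog, [], 1, 3⟩

def ts : List Dt := [(.dv 1 (.ct 1 (.dv 1 (.dv 1 .pos)) .pos .pos)), (.dv 1 (.dv 1 (.ct 0 .nn .pos
    .pos)))]

end Pool.Agent.Lib.MP_d6150d_an.UXtXR
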