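import Pool.Agent.Lib.MP_d6150d_an.KNJ
import Pool.Agent.Lib.MP_d6150d_an.WMac

/-! The wedge at the point `(0, 1)`: the operator and the algebraic identities. -/

namespace Pool.Agent.Lib.MP_d6150d_an

open Real Set Filter Topology Asymptotics

/-- the Euler operator based at `K` -/
def oW (K : ℝ) : Gp := ⟨0, 0, 0, 0, K, -4 * K, 0, -1, 1, 0, 0, 0⟩

noncomputable def aW (e c : ℝ) : ℝ := (1 + e * (2 * c)) / (2 - 2 * e)

noncomputable def bW (e c : ℝ) : ℝ := (1 + 2 * (e * (2 * c))) / (1 - 2 * e)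

noncomputable def kW (e c : ℝ) : ℝ := 2 * (c + bW e c - aW e c)

/-- the separator -/
noncomputable def eW (e c v : ℝ) : ℝ := -2 * kW e c * ja2 (2 * e * c) (1 - e) * v ^ 2 +
  (12 * kW e c * ja4 (2 * e * c) (1 - e) - 6 * ja2 (2 * e * c) (1 - e)) * v ^ 3

/-- the kernel minus the separator -/
noncomputable def dW (e c t : ℝ) : ℝ :=
  (oW (kW e c)).K (2 * e * c) (1 - e) t - eW e c (vR (2 * e * c) (1 - e) t)

variable {e c t : ℝ}

theorem aW_eq (he : e < 1 / 2) : aW e c * (2 - 2 * e) = 1 + 2 * e * c := by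
  rw [aW, div_mul_cancel₀ _ (by linarith)]; ring

theorem bW_eq (he : e < 1 / 2) : bW e c * (1 - 2 * e) = 1 + 4 * e * c := by
  rw [bW, div_mul_cancel₀ _ (by linarith)]; ring

theorem vW (he : e < 1 / 2) (t : ℝ) : vR (2 * e * c) (1 - e) t = kW e c - 2 * exp (-2 * e * t) *
    (c + bW e c * exp t - aW e c * exp t ^ 2) := by
  have h1 := exp_eq_ph (2 * (1 - e) * t)
  have h2 := exp_eq_ph ((2 * (1 - e) - 1) * t)
  have h3 := exp_eq_ph ((2 * (1 - e) - 2) * t)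
  rw [exp_a1] at h1
  rw [exp_a2] at h2
  rw [vR_eq, kW, show -2 * e * t = (2 * (1 - e) - 2) * t by ring]
  linear_combination -2 * aW e c * h1 + 2 * bW e c * h2 + 2 * c * h3 -
    2 * (t * ph1 (2 * (1 - e) * t)) * aW_eq (c := c) he +
    2 * (t * ph1 ((2 * (1 - e) - 1) * t)) * bW_eq (c := c) he

theorem dW_center : dW e c =O[𝓝 0] fun t ↦ t ^ 7 := by
  obtain ⟨a6, J⟩ := (oW (kW e c)).K_jet (D := 2 * e * c) (F := 1 - e)
  refine ((J.cast (b4 := -2 * kW e c * ja2 (2 * e * c) (1 - e)) (b6 := 12 * kW e c *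
    ja4 (2 * e * c) (1 - e) - 6 * ja2 (2 * e * c) (1 - e)) rfl rfl rfl (by simp [oW])
    (by simp only [oW]; ring) (by simp only [oW]; ring) (by simp only [oW]; ring)).center7
    (E := fun _ ↦ 0) continuousAt_const).congr_left fun t ↦ ?_
  simp only [dW, eW]; ring

section key

variable {l h th ts s M Z : ℝ}

theorem mWa_eq (hts : ts = th * s) (hZ : Z = s + 2 * (l * h) * M) :
    (pjR (1 - l * h) ((1 + l * ts) * s ^ 2) ((1 + 2 * (l * ts)) * s) (l * ts)).1 =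
      s * (mWa l h th ts s M Z).1 ∧
    (pjR (1 - l * h) ((1 + l * ts) * s ^ 2) ((1 + 2 * (l * ts)) * s) (l * ts)).2.1 =
      s ^ 2 * (3 * Z ^ 2 + l * (mWa l h th ts s M Z).2.2) ∧
    (mWa l h th ts s M Z).1 = l * (mWa l h th ts s M Z).2.1 - Z := by
  subst hts hZ
  simp only [mWa, pjR]
  push_cast
  exact ⟨by ring, by ring, by ring⟩

theorem mWb_eq {a b v : ℝ} : l ^ 2 * mWb l h ts a b v = (l * ts + 2 * (l * h) * (b - a)) *
    (ja2 (l * ts) (1 - l * h) / 2 - 6 * ja4 (l * ts) (1 - l * h) * v) +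
      3 * (l * h) * ja2 (l * ts) (1 - l * h) * v := by
  simp only [mWb, ja2, ja4]
  push_cast
  ring

theorem keyW {Y τ o m dm : ℝ} (he : e < 1 / 2) (ht : t ∈ JR (2 * e * c)) (h0 : t ≠ 0)
    (hl : e = l * h) (hD : 2 * e * c = l * ts) (hts : ts = th * s) (hs : s = exp t)
    (hZ : Z = s + 2 * e * M) (hZ' : Z = s * exp (-2 * e * t)) (hY : Y = exp ((1 - 3 * e) * t))
    (hv : vR (2 * e * c) (1 - e) t = 2 * (τ ^ 2 * m)) (hw : wR (2 * e * c) t = s * τ * o)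
    (hm : m = o ^ 2 / 2 + l * dm) :
    2 * e * dW e c t * (τ * o) ^ 5 * Z ^ 2 = 32 * (τ ^ 2 * m) ^ 2 * exp ((1 - e) * t) * l ^ 2 *
      τ ^ 4 * mWc h Z Y τ o m dm (mWa l h th ts s M Z).1 (mWa l h th ts s M Z).2.1
        (mWa l h th ts s M Z).2.2 (th + 2 * h * (bW e c - aW e c * s))
        (mWb l h ts (aW e c) (bW e c) (τ ^ 2 * m)) := by
  obtain ⟨e1, e2, e3⟩ := mWa_eq (l := l) (h := h) (M := M) hts (hl ▸ hZ)
  have e4 := mWb_eq (l := l) (h := h) (ts := ts) (a := aW e c) (b := bW e c) (v := τ ^ 2 * m)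
  have hK := vW (c := c) he t
  have hw0 := wR_ne ht h0
  have hy : Y * exp ((1 - e) * t) = Z ^ 2 := by
    rw [hY, hZ', hs, ← exp_add, ← exp_add, sq, ← exp_add]; ring_nf
  have hz : exp (-2 * e * t) * exp ((2 - 2 * (1 - e)) * t) = 1 := by rw [← exp_add]; ring_nf; simp
  have s0 : s ≠ 0 := hs ▸ (exp_pos t).ne'
  rw [← hl, ← hD] at e1 e2 e4
  rw [dW, Gp.K_eq ht h0, eW]
  simp only [Gp.P, Gp.C3, Gp.C2, Gp.C1, Gp.C0, oW, U1, U2, U3, yR, PR, QR, ← hs] at hK ⊢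
  rw [e1, e2]
  rw [hv] at hK ⊢
  rw [hw] at hw0 ⊢
  have hk : kW e c = 2 * (c + bW e c - aW e c) := rfl
  generalize mWb l h ts (aW e c) (bW e c) (τ ^ 2 * m) = ee at *
  generalize (mWa l h th ts s M Z).2.2 = dP, (mWa l h th ts s M Z).2.1 = dp,
    (mWa l h th ts s M Z).1 = p2, ja2 (2 * e * c) (1 - e) = j2, ja4 (2 * e * c) (1 - e) = j4,
    kW e c = K, aW e c = a,
    bW e c = b, exp ((1 - e) * t) = y, exp (-2 * e * t) = z, exp ((2 - 2 * (1 - e)) * t) = zi,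
    U4 (2 * e * c) (1 - e) t = x4, uR (1 - e) t = x0, gR (2 * e * c) (1 - e) t = xg at *
  have ho : τ * o ≠ 0 := right_ne_zero_of_mul (mul_assoc s τ o ▸ hw0)
  have o0 := right_ne_zero_of_mul ho
  have t0 := left_ne_zero_of_mul ho
  have z0 : z ≠ 0 := left_ne_zero_of_mul_eq_one hz
  obtain rfl : zi = 1 / z := by field_simp; linarith
  have hq : e * (K - 2 * (τ ^ 2 * m)) = Z * l * (th + 2 * h * (b - a * s)) := by
    rw [hK, hZ']
    linear_combination z * hD + l * z * hts + 2 * z * (b * s - a * s ^ 2) * hl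
  have u1 : y * (2 * (τ ^ 2 * m) * (1 / z) / 2) / (s * τ * o) * ((τ * o) ^ 5 * Z ^ 2) =
      y * (τ ^ 2 * m) * Z * (τ * o) ^ 4 := by
    rw [hZ', mul_assoc s]; field_simp
  have u2 : y * (2 * (τ ^ 2 * m) * (1 / z) / 2) ^ 2 * (s * p2) / (s * τ * o) ^ 3 *
      ((τ * o) ^ 5 * Z ^ 2) = y * (τ ^ 2 * m) ^ 2 * p2 * (τ * o) ^ 2 := by
    rw [hZ', mul_assoc s]; field_simp
  have u3 : y * (2 * (τ ^ 2 * m) * (1 / z) / 2) ^ 3 * (s ^ 2 * (3 * Z ^ 2 + l * dP)) /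
      (s * τ * o) ^ 5 * ((τ * o) ^ 5 * Z ^ 2) * Z = y * (τ ^ 2 * m) ^ 3 * (3 * Z ^ 2 + l * dP) := by
    generalize 3 * Z ^ 2 + l * dP = x
    rw [hZ', mul_assoc s]; field_simp
  generalize y * (2 * (τ ^ 2 * m) * (1 / z) / 2) / (s * τ * o) = x1,
    y * (2 * (τ ^ 2 * m) * (1 / z) / 2) ^ 2 * (s * p2) / (s * τ * o) ^ 3 = x2,
    y * (2 * (τ ^ 2 * m) * (1 / z) / 2) ^ 3 * (s ^ 2 * (3 * Z ^ 2 + l * dP)) / (s * τ * o) ^ 5 = x3
    at *
  have e5 : mWc h Z Y τ o m dm p2 dp dP (th + 2 * h * (b - a * s)) ee * (l ^ 2 * τ ^ 4) =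
      l * (th + 2 * h * (b - a * s)) * ((τ ^ 2 * m) ^ 2 * (3 * Z ^ 2 + l * dP) +
        τ ^ 2 * m * Z * p2 * (τ * o) ^ 2 - Z ^ 2 * (τ * o) ^ 4 / 4) -
      2 * (l * h) * (τ ^ 2 * m) * (τ * o) ^ 2 * (2 * (τ ^ 2 * m) * p2 + Z * (τ * o) ^ 2) +
      l ^ 2 * ee * Y * (τ * o) ^ 5 := by
    simp only [mWc]
    push_cast
    rw [e3, hm]; ring
  generalize th + 2 * h * (b - a * s) = q at *
  generalize mWc h Z Y τ o m dm p2 dp dP q ee = H at *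
  generalize τ ^ 2 * m = v at *
  generalize τ * o = w at *
  rw [← hl] at e5
  linear_combination -32 * v ^ 2 * y * e5 - 32 * v ^ 2 * w ^ 5 * l ^ 2 * ee * hy -
    32 * v ^ 2 * w ^ 5 * Z ^ 2 * e4 + 16 * v ^ 2 * w ^ 5 * Z ^ 2 * (j2 - 12 * j4 * v) * e * hk +
    (32 * v * x3 * w ^ 5 * Z ^ 2 + 32 * v ^ 3 * y * p2 * w ^ 2 - 8 * v ^ 2 * y * Z * w ^ 4) * hq +
    32 * v * l * q * u3 + 32 * e * v * (K - 6 * v) * u2 - 8 * e * v * (K + 6 * v) * u1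

end key

end Pool.Agent.Lib.MP_d6150d_an
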