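import Pool.Agent.Lib.MP_d6150d_an.GDef

/-! A generated chart: the program. -/

namespace Pool.Agent.Lib.MP_d6150d_an.WR

def prog3 : List Ins := .add false 1 0 :: .smul 320 145 :: .add false 1 0 :: .mul 147 0 :: .sub
    false 6 0 :: .mul 156 0 :: .add true 14 0 :: .mul 22 0 :: .mul 41 100 :: .mul 1 0 :: .sub true
    26 0 :: .mul 32 0 :: .smul 3 158 :: .mul 0 30 :: .mul 0 5 :: .add true 3 0 :: .smul 3 169 ::
    .sub true 163 0 :: .mul 0 168 :: .exp 0 :: .mul 4 0 :: .mul 0 171 :: .mul 142 142 :: .mul 144 0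
    :: .mul 2 0 :: .add true 49 0 :: .mul 179 0 :: .cpy 0 :: []

def prog2 : List Ins := .add false 0 82 :: .mul 3 0 :: .sub true 9 0 :: .mul 45 0 :: .mul 4 74 ::
    .add true 36 8 :: .mul 1 0 :: .add true 3 0 :: .mul 50 0 :: .mul 9 9 :: .mul 0 54 :: .smul 3 53
    :: .add false 0 81 :: .mul 2 0 :: .add true 5 0 :: .mul 91 0 :: .mul 116 116 :: .mul 112 0 ::
    .mul 60 88 :: .mul 89 13 :: .smul 2 64 :: .mul 0 50 :: .add true 2 0 :: .mul 4 0 :: .mul 6 0 ::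
    .sub false 9 0 :: .sub true 114 109 :: .mul 122 0 :: .add false 129 0 :: .cst 1 6 :: .smul 2 131
    :: .sub true 127 0 :: .mul 2 0 :: .mul 108 0 :: .cst 1 180 :: .int 54 :: .int 153 :: .smul 103
    76 :: .sub false 1 0 :: .mul 78 0 :: .sub true 4 0 :: .mul 137 0 :: .int 102 :: .smul 312 64 ::
    .sub true 1 0 :: .mul 66 0 :: .int 6 :: .sub false 1 0 :: .int 60 :: .smul 480 70 :: prog3

def prog1 : List Ins := .mul 31 13 :: .sub true 0 13 :: .mul 43 0 :: .sub true 33 0 :: .mul 4 0 ::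
    .sub true 8 0 :: .mul 59 0 :: .add false 26 0 :: .sub true 54 40 :: .smul 6 60 :: .mul 63 56 ::
    .add false 57 0 :: .mul 59 0 :: .mul 64 45 :: .sub false 1 0 :: .mul 47 52 :: .sub true 0 58 ::
    .mul 63 0 :: .add true 3 0 :: .mul 72 0 :: .sub false 0 52 :: .mul 11 0 :: .smul 3 1 :: .smul 2
    55 :: .add false 1 0 :: .sub true 0 67 :: .mul 72 0 :: .add false 8 0 :: .sub false 74 17 ::
    .smul 2 0 :: .mul 0 16 :: .sub true 3 0 :: .mul 85 0 :: .smul 3 65 :: .sub false 1 0 :: .mul 59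
    0 :: .sub false 14 0 :: .sub true 0 5 :: .mul 29 0 :: .sub true 85 15 :: .smul 3 0 :: .mul 0 22
    :: .add false 3 0 :: .mul 93 75 :: .mul 0 57 :: .smul (-1) 0 :: .mul 91 0 :: .smul 3 0 :: .mul
    89 2 :: .add false 81 0 :: prog2

def prog : List Ins := .var 0 :: .var 1 :: .smul 2 0 :: .var 2 :: .smul (-1) 0 :: .exp 0 :: .mul 3 0
    :: .int 1 :: .smul 2 0 :: .mul 8 6 :: .smul 2 0 :: .add false 3 0 :: .smul 2 11 :: .sub true 5 0
    :: .inv 0 :: .mul 3 0 :: .add false 8 6 :: .int 2 :: .sub false 0 5 :: .inv 0 :: .mul 3 0 ::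
    .tri 17 :: .mul 3 2 :: .sub true 9 0 :: .mul 17 0 :: .add true 20 0 :: .cst 1 2 :: .sub true 26
    22 :: .mul 29 0 :: .add false 23 0 :: .mul 9 0 :: .mul 0 0 :: .mul 5 0 :: .mul 12 12 :: .smul 2
    32 :: .smul (-2) 36 :: .mul 0 34 :: .tri 0 :: .mul 5 1 :: .sub true 35 0 :: .mul 23 0 :: .add
    false 43 0 :: .add false 14 38 :: .mul 17 0 :: .mul 19 0 :: .sub true 3 0 :: .mul 14 0 :: .add
    false 49 35 :: .sub true 0 31 :: .smul 2 0 :: prog1

def vs : List Vr := [⟨3, 1, false, false⟩, ⟨2, 0, false, false⟩, ⟨9, 4, false, false⟩]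

def C : Chart := ⟨vs, prog, [], 1, 3⟩

end Pool.Agent.Lib.MP_d6150d_an.WR
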