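import Pool.Agent.Lib.MP_d6150d_an.GDef

/-! A generated chart: the program. -/

namespace Pool.Agent.Lib.MP_d6150d_an.WTA

def prog3 : List Ins := .sub false 6 0 :: .mul 145 0 :: .add true 14 0 :: .mul 22 0 :: .mul 0 94 ::
    .sub true 25 0 :: .mul 31 0 :: .smul 3 155 :: .mul 0 29 :: .mul 0 99 :: .add true 3 0 :: .var 0
    :: .mul 1 0 :: .mul 0 51 :: .mul 134 134 :: .mul 136 0 :: .mul 2 0 :: .add false 45 0 :: .cpy 0
    :: []

def prog2 : List Ins := .add true 31 6 :: .mul 1 0 :: .add false 3 0 :: .mul 43 0 :: .mul 70 70 ::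
    .mul 0 47 :: .smul 3 46 :: .add false 0 76 :: .mul 2 0 :: .add true 5 0 :: .mul 87 0 :: .int
    (-1) :: .mul 0 0 :: .mul 110 0 :: .mul 54 84 :: .mul 85 14 :: .smul 2 58 :: .mul 0 46 :: .add
    false 2 0 :: .mul 4 0 :: .mul 6 0 :: .sub false 10 0 :: .sub true 108 103 :: .mul 120 0 :: .add
    false 118 0 :: .cst 1 6 :: .smul 2 120 :: .sub true 125 0 :: .mul 2 0 :: .mul 105 0 :: .cst 1
    180 :: .int 54 :: .int 153 :: .smul 103 123 :: .sub false 1 0 :: .mul 125 0 :: .sub true 4 0 ::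
    .mul 135 0 :: .int 102 :: .smul 312 60 :: .sub true 1 0 :: .mul 62 0 :: .int 6 :: .sub false 1 0
    :: .int 60 :: .smul 480 66 :: .add false 1 0 :: .smul 320 140 :: .add false 1 0 :: .mul 142 0 ::
    prog3

def prog1 : List Ins := .mul 0 15 :: .mul 32 13 :: .sub false 1 0 :: .sub false 37 48 :: .mul 22 0
    :: .sub true 2 0 :: .mul 54 0 :: .add false 8 0 :: .mul 54 0 :: .add false 28 0 :: .smul 6 54 ::
    .add false 59 51 :: .mul 61 0 :: .mul 57 58 :: .sub false 1 0 :: .mul 60 50 :: .sub false 0 57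
    :: .mul 65 0 :: .add true 3 0 :: .mul 65 0 :: .sub true 0 65 :: .mul 10 0 :: .smul 3 1 :: .smul
    2 68 :: .add false 1 0 :: .sub true 0 66 :: .mul 74 0 :: .add false 8 0 :: .sub false 76 68 ::
    .smul 2 0 :: .mul 0 16 :: .sub true 3 0 :: .mul 78 0 :: .smul 3 78 :: .sub true 1 0 :: .mul 59 0
    :: .sub false 14 0 :: .sub true 0 5 :: .mul 63 0 :: .sub false 87 15 :: .smul 3 0 :: .mul 0 22
    :: .add false 3 0 :: .mul 90 61 :: .smul 3 0 :: .add false 61 90 :: .mul 1 0 :: .sub true 4 0 ::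
    .mul 38 0 :: .mul 65 69 :: prog2

def prog : List Ins := .var 4 :: .int 1 :: .smul 2 0 :: .var 3 :: .var 1 :: .mul 4 0 :: .mul 2 0 ::
    .smul 2 0 :: .add false 6 0 :: .mul 5 7 :: .smul 2 0 :: .sub true 9 0 :: .inv 0 :: .mul 4 0 ::
    .add false 12 7 :: .int 2 :: .sub false 0 5 :: .inv 0 :: .mul 3 0 :: .mul 0 14 :: .sub false 6 0
    :: .mul 18 0 :: .add false 21 0 :: .cst 1 2 :: .sub false 22 19 :: .sub false 19 24 :: .mul 22 0
    :: .add true 25 0 :: .mul 3 0 :: .mul 0 0 :: .mul 6 0 :: .var 2 :: .mul 21 0 :: .add false 28 0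
    :: .sub false 32 0 :: .smul 2 0 :: .mul 31 2 :: .sub false 35 0 :: .mul 14 0 :: .sub true 3 0 ::
    .mul 34 0 :: .mul 16 16 :: .mul 0 17 :: .add false 41 15 :: .mul 1 0 :: .mul 21 0 :: .sub true 0
    14 :: .mul 46 0 :: .add false 7 0 :: .smul 2 35 :: prog1

def vs : List Vr := [⟨0, 0, false, false⟩, ⟨1, 0, false, false⟩, ⟨1, 0, false, false⟩, ⟨2, 0, false,
    false⟩, ⟨3, 0, false, false⟩]

def C : Chart := ⟨vs, prog, [], 1, 3⟩

end Pool.Agent.Lib.MP_d6150d_an.WTA
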