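import Pool.Agent.Lib.MP_d6150d_an.GDef

/-! A generated chart: the program. -/

namespace Pool.Agent.Lib.MP_d6150d_an.X2A

def prog2 : List Ins := .smul 5 0 :: .add true 9 0 :: .mul 11 0 :: .mul 3 3 :: .smul 3 0 :: .add
    false 2 0 :: .sub false 8 7 :: .mul 69 0 :: .add true 10 0 :: .mul 70 0 :: .sub true 4 0 :: .mul
    72 0 :: .mul 21 74 :: .mul 65 0 :: .sub false 2 0 :: .mul 59 68 :: .mul 104 79 :: .smul (-1) 0
    :: .mul 2 0 :: .add true 28 19 :: .mul 1 0 :: .sub false 6 0 :: .sub false 32 0 :: .cpy 0 :: []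

def prog1 : List Ins := .cst 45 2 :: .cst 3 4 :: .sub true 49 0 :: .mul 2 0 :: .int 9 :: .sub false
    1 0 :: .mul 6 0 :: .mul 44 0 :: .sub false 0 10 :: .mul 56 0 :: .mul 48 16 :: .sub false 45 0 ::
    .cst 27 10 :: .cst 63 10 :: .mul 0 11 :: .add false 2 0 :: .cst 1 2 :: .add true 53 0 :: .smul 8
    0 :: .sub false 3 0 :: .smul 12 2 :: .cst 16 5 :: .sub false 1 0 :: .cst 233 10 :: .mul 0 21 ::
    .sub false 2 0 :: .cst 297 100 :: .cst 537 20 :: .mul 0 25 :: .add false 2 0 :: .cst 17 2 ::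
    .mul 0 13 :: .sub true 2 0 :: .mul 21 0 :: .add true 8 0 :: .mul 23 0 :: .add true 16 0 :: .mul
    25 0 :: .add true 28 0 :: .mul 43 0 :: .mul 87 52 :: .smul 3 0 :: .mul 68 67 :: .mul 0 56 ::
    .smul (-1) 0 :: .mul 81 58 :: .smul (-1) 0 :: .smul 2 0 :: .sub false 3 0 :: .mul 60 0 :: prog2

def prog : List Ins := .var 3 :: .cst 5 2 :: .var 2 :: .smul 4 0 :: .int 3 :: .sub true 1 0 :: .mul
    4 0 :: .exp 0 :: .mul 7 0 :: .mul 0 0 :: .var 0 :: .mul 0 2 :: .cst 1 3 :: .var 1 :: .smul 2 0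
    :: .int 1 :: .sub false 0 4 :: .mul 2 0 :: .int 2 :: .smul 2 16 :: .sub true 1 0 :: .inv 0 ::
    .mul 4 0 :: .add true 7 8 :: .mul 13 13 :: .sub true 0 13 :: .mul 2 0 :: .sub true 7 11 :: .inv
    0 :: .mul 2 0 :: .add false 7 0 :: .sub false 15 6 :: .add true 16 18 :: .mul 0 8 :: .sub false
    0 20 :: .mul 3 0 :: .inv 0 :: .mul 6 0 :: .add true 0 22 :: .mul 0 3 :: .mul 27 0 :: .sub false
    29 0 :: .rsq 0 :: .mul 0 0 :: .mul 0 1 :: .mul 35 0 :: .mul 43 43 :: .sub true 31 44 :: .sub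
    false 0 33 :: .mul 2 0 :: prog1

def vs : List Vr := [⟨2, 0, false, false⟩, ⟨2, 0, false, false⟩, ⟨3, 0, false, false⟩, ⟨3, 0, false,
    false⟩]

def C : Chart := ⟨vs, prog, [], 1, 3⟩

end Pool.Agent.Lib.MP_d6150d_an.X2A
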