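import Pool.Agent.Lib.MP_d6150d_an.GDef

/-! A generated chart: the program. -/

namespace Pool.Agent.Lib.MP_d6150d_an.X2B

def prog2 : List Ins := .cst 297 100 :: .cst 537 20 :: .mul 0 41 :: .add false 2 0 :: .cst 17 2 ::
    .mul 0 13 :: .sub false 2 0 :: .mul 21 0 :: .add true 8 0 :: .mul 23 0 :: .add true 16 0 :: .mul
    25 0 :: .add false 32 0 :: .cpy 0 :: .cpy 41 :: []

def prog1 : List Ins := .add true 10 0 :: .mul 19 0 :: .sub true 4 0 :: .mul 21 0 :: .sub true 51 49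
    :: .mul 22 24 :: .mul 1 0 :: .sub false 3 0 :: .cst 45 2 :: .cst 3 4 :: .sub true 55 0 :: .mul 2
    0 :: .int 9 :: .sub true 1 0 :: .mul 59 59 :: .mul 1 0 :: .mul 55 36 :: .smul (-1) 0 :: .mul 2 0
    :: .add true 36 27 :: .mul 1 0 :: .sub false 13 0 :: .smul (-1) 0 :: .cst 1 3 :: .sub false 19
    72 :: .mul 10 0 :: .mul 0 12 :: .mul 3 0 :: .sub false 0 23 :: .mul 74 0 :: .mul 48 51 :: .mul 7
    0 :: .sub false 71 0 :: .inv 0 :: .mul 73 0 :: .sub true 82 0 :: .cst 27 10 :: .cst 63 10 ::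
    .mul 0 27 :: .add false 2 0 :: .cst 1 2 :: .add true 90 0 :: .smul 8 0 :: .sub false 3 0 ::
    .smul 12 2 :: .cst 16 5 :: .sub false 1 0 :: .cst 233 10 :: .mul 0 37 :: .sub false 2 0 :: prog2

def prog : List Ins := .var 1 :: .smul 2 0 :: .int 1 :: .var 3 :: .var 2 :: .smul 2 0 :: .int 2 ::
    .sub true 1 0 :: .smul 5 0 :: .exp 0 :: .mul 6 0 :: .sub true 8 0 :: .mul 10 0 :: .sub true 6 7
    :: .inv 0 :: .mul 2 0 :: .add true 13 14 :: .var 0 :: .sub true 0 7 :: .mul 2 0 :: .sub true 14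
    17 :: .inv 0 :: .mul 2 0 :: .add false 7 0 :: .sub false 21 6 :: .add true 22 24 :: .mul 0 8 ::
    .sub false 0 26 :: .mul 3 0 :: .inv 0 :: .mul 6 0 :: .add true 0 28 :: .mul 27 1 :: .smul 3 0 ::
    .mul 17 16 :: .mul 0 5 :: .smul (-1) 0 :: .mul 36 7 :: .smul (-1) 0 :: .smul 2 0 :: .sub false 3
    0 :: .mul 9 0 :: .smul 5 0 :: .add true 9 0 :: .mul 11 0 :: .mul 3 3 :: .smul 3 0 :: .add false
    2 0 :: .sub false 8 7 :: .mul 18 0 :: prog1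

def vs : List Vr := [⟨1, 0, false, false⟩, ⟨2, 0, false, false⟩, ⟨3, 0, false, false⟩, ⟨3, 0, false,
    false⟩]

def C : Chart := ⟨vs, prog, [], 2, 3⟩

end Pool.Agent.Lib.MP_d6150d_an.X2B
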