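import Pool.Agent.Lib.MP_d6150d_an.GMac

/-! The strip `X2`: definitions and program forms. -/

namespace Pool.Agent.Lib.MP_d6150d_an

/-- the coefficient of the operator -/
noncomputable def x2c (F : ℝ) : ℝ := 45 / 2 * (F - 3 / 4) - 9

/-- the polynomial factor of the separator -/
noncomputable def x2sep (D F x : ℝ) : ℝ :=
  F * (F * F * (1 - F - 2 * D) * x2c F / 3 - (1 - F)) +
    x * (27 / 10 + 63 / 10 * (F - 3 / 4) - 8 * (D + 1 / 2) +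
      x * (12 * (D + 1 / 2) - 16 / 5 - 233 / 10 * (F - 3 / 4) +
        x * (297 / 100 + 537 / 20 * (F - 3 / 4) - 17 / 2 * (D + 1 / 2))))

/-- the kernel in terms of logarithmic derivatives -/
noncomputable def x2phi (F n A B L : ℝ) : ℝ :=
  (n + 1) * (F * n * (3 * (F * n) + 5 * ((n + 1) * A)) + 3 * ((n + 1) * A) ^ 2 -
    (n + 1) * (2 * B + n * (2 * B - A))) - (1 - F) * (F * n * n) -
    x2c F * F ^ 2 * L * (F * n + (n + 1) * A)

/-- the same near the center -/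
noncomputable def x2cen (F t M A B L : ℝ) : ℝ :=
  t * (t * M * (F * (t * M - 1) * (3 * (F * (t * M - 1)) + 5 * (M * A)) + 3 * (M * A) ^ 2 -
    M * (2 * B + (t * M - 1) * (2 * B - A))) - (1 - F) * (F * (t * M - 1) * (t * M - 1))) -
    x2c F * F ^ 2 * L * (F * (t * M - 1) + M * A)

/-- the same in the right tail -/
noncomputable def x2tl (F q n A B L : ℝ) : ℝ :=
  (q * n + 1) * (F * n * (3 * (F * n) + 5 * ((q * n + 1) * A)) + 3 * ((q * n + 1) * A) ^ 2 -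
    (q * n + 1) * (2 * B + n * (2 * (q * B) - A))) - (1 - F) * (F * n * n) -
    x2c F * F ^ 2 * L * (F * n + (q * n + 1) * A)

noncomputable def mX2Sep (D F x : ℝ) : ℝ :=
  let z0 := (F - ((Int.cast (3) : ℝ) / (Nat.cast 4 : ℝ)))
  let z1 := (D + ((Int.cast (1) : ℝ) / (Nat.cast 2 : ℝ)))
  ((F * ((((Int.cast (1) : ℝ) / (Nat.cast 3 : ℝ)) * (((F * F) * (((Int.cast (1) : ℝ) - F) -
    ((Int.cast (2) : ℝ) * D))) * ((((Int.cast (45) : ℝ) / (Nat.cast 2 : ℝ)) * z0) - (Int.cast (9) :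
    ℝ)))) - ((Int.cast (1) : ℝ) - F))) + (x * (((((Int.cast (27) : ℝ) / (Nat.cast 10 : ℝ)) +
    (((Int.cast (63) : ℝ) / (Nat.cast 10 : ℝ)) * z0)) - ((Int.cast (8) : ℝ) * z1)) + (x *
    (((((Int.cast (12) : ℝ) * z1) - ((Int.cast (16) : ℝ) / (Nat.cast 5 : ℝ))) - (((Int.cast (233) :
    ℝ) / (Nat.cast 10 : ℝ)) * z0)) + (x * ((((Int.cast (297) : ℝ) / (Nat.cast 100 : ℝ)) +
    (((Int.cast (537) : ℝ) / (Nat.cast 20 : ℝ)) * z0)) - (((Int.cast (17) : ℝ) / (Nat.cast 2 : ℝ)) *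
    z1))))))))

theorem mX2Sep_0 (D F x : ℝ) : x2sep D F x = (mX2Sep D F x) := by
  simp only [mX2Sep, x2sep, x2c]; push_cast; ring

noncomputable def mX2Phi (F n A B L : ℝ) : ℝ :=
  let z0 := (n + (Int.cast (1) : ℝ))
  let z1 := (F * n)
  let z2 := (z0 * A)
  (((z0 * (((z1 * (((Int.cast (3) : ℝ) * z1) + ((Int.cast (5) : ℝ) * z2))) + ((Int.cast (3) : ℝ) *
    (z2 * z2))) - (z0 * (((Int.cast (2) : ℝ) * B) + (n * (((Int.cast (2) : ℝ) * B) - A)))))) -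
    (((Int.cast (1) : ℝ) - F) * (z1 * n))) - (((((((Int.cast (45) : ℝ) / (Nat.cast 2 : ℝ)) * (F -
    ((Int.cast (3) : ℝ) / (Nat.cast 4 : ℝ)))) - (Int.cast (9) : ℝ)) * (F * F)) * L) * (z1 + z2)))

theorem mX2Phi_0 (F n A B L : ℝ) : x2phi F n A B L = (mX2Phi F n A B L) := by
  simp only [mX2Phi, x2phi, x2c]; push_cast; ring

noncomputable def mX2Cen (F t M A B L : ℝ) : ℝ :=
  let z0 := (t * M)
  let z1 := (z0 - (Int.cast (1) : ℝ))
  let z2 := (F * z1)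
  let z3 := (M * A)
  ((t * ((z0 * (((z2 * (((Int.cast (3) : ℝ) * z2) + ((Int.cast (5) : ℝ) * z3))) + ((Int.cast (3) :
    ℝ) * (z3 * z3))) - (M * (((Int.cast (2) : ℝ) * B) + (z1 * (((Int.cast (2) : ℝ) * B) - A)))))) -
    (((Int.cast (1) : ℝ) - F) * (z2 * z1)))) - (((((((Int.cast (45) : ℝ) / (Nat.cast 2 : ℝ)) * (F -
    ((Int.cast (3) : ℝ) / (Nat.cast 4 : ℝ)))) - (Int.cast (9) : ℝ)) * (F * F)) * L) * (z2 + z3)))

theorem mX2Cen_0 (F t M A B L : ℝ) : x2cen F t M A B L = (mX2Cen F t M A B L) := by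
  simp only [mX2Cen, x2cen, x2c]; push_cast; ring

noncomputable def mX2Tl (F q n A B L : ℝ) : ℝ :=
  let z0 := ((q * n) + (Int.cast (1) : ℝ))
  let z1 := (F * n)
  let z2 := (z0 * A)
  (((z0 * (((z1 * (((Int.cast (3) : ℝ) * z1) + ((Int.cast (5) : ℝ) * z2))) + ((Int.cast (3) : ℝ) *
    (z2 * z2))) - (z0 * (((Int.cast (2) : ℝ) * B) + (n * (((Int.cast (2) : ℝ) * (q * B)) - A)))))) -
    (((Int.cast (1) : ℝ) - F) * (z1 * n))) - (((((((Int.cast (45) : ℝ) / (Nat.cast 2 : ℝ)) * (F -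
    ((Int.cast (3) : ℝ) / (Nat.cast 4 : ℝ)))) - (Int.cast (9) : ℝ)) * (F * F)) * L) * (z1 + z2)))

theorem mX2Tl_0 (F q n A B L : ℝ) : x2tl F q n A B L = (mX2Tl F q n A B L) := by
  simp only [mX2Tl, x2tl, x2c]; push_cast; ring

end Pool.Agent.Lib.MP_d6150d_an
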