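import Pool.Agent.Lib.MP_d6150d_an.GDef

/-! A generated chart: the program. -/

namespace Pool.Agent.Lib.MP_d6150d_an.X2P

def prog2 : List Ins := .mul 0 29 :: .add false 2 0 :: .cst 1 2 :: .add true 94 0 :: .smul 8 0 ::
    .sub false 3 0 :: .smul 12 2 :: .cst 16 5 :: .sub false 1 0 :: .cst 233 10 :: .mul 0 39 :: .sub
    false 2 0 :: .cst 297 100 :: .cst 537 20 :: .mul 0 43 :: .add false 2 0 :: .cst 17 2 :: .mul 0
    13 :: .sub true 2 0 :: .mul 21 0 :: .add true 8 0 :: .mul 23 0 :: .add true 16 0 :: .mul 25 0 ::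
    .add true 27 0 :: .mul 34 0 :: .sub false 46 0 :: .cpy 0 :: []

def prog1 : List Ins := .mul 13 0 :: .smul 5 0 :: .add true 11 0 :: .mul 13 0 :: .mul 3 3 :: .smul 3
    0 :: .add false 2 0 :: .sub false 8 7 :: .mul 19 0 :: .add true 10 0 :: .mul 23 0 :: .sub true 4
    0 :: .mul 24 0 :: .sub true 62 69 :: .mul 24 25 :: .mul 1 0 :: .sub true 3 0 :: .mul 74 0 ::
    .cst 45 2 :: .cst 3 4 :: .sub true 76 0 :: .mul 2 0 :: .int 9 :: .sub true 1 0 :: .mul 80 80 ::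
    .mul 1 0 :: .mul 0 40 :: .add true 37 26 :: .mul 1 0 :: .sub false 11 0 :: .mul 87 54 :: .cst 1
    3 :: .mul 89 89 :: .mul 0 61 :: .mul 90 0 :: .mul 3 0 :: .add false 85 0 :: .rsq 0 :: .mul 0 0
    :: .mul 0 1 :: .mul 9 0 :: .sub false 27 49 :: .mul 17 0 :: .mul 0 19 :: .mul 12 0 :: .sub false
    0 31 :: .mul 102 0 :: .sub true 96 8 :: .cst 27 10 :: .cst 63 10 :: prog2

def prog : List Ins := .var 2 :: .var 1 :: .smul 2 0 :: .mul 0 2 :: .tri 0 :: .mul 4 0 :: .int 1 ::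
    .sub true 6 0 :: .mul 0 9 :: .tri 0 :: .mul 4 0 :: .sub false 7 0 :: .var 0 :: .smul 2 2 :: .sub
    false 10 0 :: .int 2 :: .sub true 17 0 :: .mul 0 20 :: .tri 0 :: .mul 4 0 :: .add true 7 0 ::
    .mul 10 0 :: .add true 12 0 :: .smul 2 0 :: .mul 28 0 :: .smul (-1) 30 :: .mul 30 0 :: .exp 0 ::
    .mul 0 0 :: .tri 3 :: .add false 29 21 :: .mul 22 3 :: .sub true 1 0 :: .mul 4 0 :: .inv 0 ::
    .mul 8 0 :: .mul 13 0 :: .mul 44 0 :: .sub true 0 37 :: .mul 45 0 :: .smul 3 0 :: .smul 2 32 ::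
    .add true 41 0 :: .mul 0 15 :: .mul 0 9 :: .mul 17 17 :: .mul 37 0 :: .mul 0 12 :: .smul 2 0 ::
    .sub true 4 0 :: prog1

def vs : List Vr := [⟨2, 0, false, false⟩, ⟨3, 0, false, false⟩, ⟨6, 2, false, false⟩]

def C : Chart := ⟨vs, prog, [], 1, 3⟩

end Pool.Agent.Lib.MP_d6150d_an.X2P
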