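import Pool.Agent.Lib.MP_d6150d_an.GDef

/-! A generated chart: the program. -/

namespace Pool.Agent.Lib.MP_d6150d_an.X2R

def prog2 : List Ins := .cst 16 5 :: .sub false 1 0 :: .cst 233 10 :: .mul 0 40 :: .sub false 2 0 ::
    .cst 297 100 :: .cst 537 20 :: .mul 0 44 :: .add false 2 0 :: .cst 17 2 :: .mul 0 13 :: .sub
    true 2 0 :: .mul 21 0 :: .add true 8 0 :: .mul 23 0 :: .add true 16 0 :: .mul 25 0 :: .add true
    28 0 :: .mul 35 0 :: .sub false 46 0 :: .cpy 0 :: []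

def prog1 : List Ins := .sub true 0 11 :: .mul 19 0 :: .add false 4 0 :: .mul 19 0 :: .sub false 8 0
    :: .mul 21 0 :: .sub true 50 49 :: .mul 22 25 :: .mul 1 0 :: .sub false 3 0 :: .cst 45 2 :: .cst
    3 4 :: .sub true 55 0 :: .mul 2 0 :: .int 9 :: .sub true 1 0 :: .mul 59 59 :: .mul 1 0 :: .mul
    56 37 :: .mul 1 0 :: .add true 35 30 :: .mul 1 0 :: .sub false 12 0 :: .mul 61 61 :: .mul 73 62
    :: .cst 1 3 :: .mul 42 46 :: .mul 1 0 :: .add false 3 0 :: .rsq 0 :: .mul 0 0 :: .mul 0 1 ::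
    .mul 8 0 :: .sub false 26 80 :: .mul 17 0 :: .mul 0 19 :: .mul 10 0 :: .sub false 0 30 :: .mul
    81 0 :: .mul 14 8 :: .sub false 84 0 :: .cst 27 10 :: .cst 63 10 :: .mul 0 30 :: .add false 2 0
    :: .cst 1 2 :: .add true 94 0 :: .smul 8 0 :: .sub false 3 0 :: .smul 12 2 :: prog2

def prog : List Ins := .var 0 :: .var 1 :: .smul 2 0 :: .var 3 :: .cst 5 2 :: .int 1 :: .var 2 ::
    .smul 2 0 :: .sub true 2 0 :: .mul 4 0 :: .exp 0 :: .mul 7 0 :: .sub true 0 11 :: .mul 10 0 ::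
    .int 2 :: .sub true 0 7 :: .inv 0 :: .mul 3 0 :: .add true 12 15 :: .sub true 13 7 :: .mul 1 0
    :: .sub true 13 15 :: .inv 0 :: .mul 2 0 :: .sub true 6 0 :: .sub false 19 24 :: .add false 20
    24 :: .mul 25 26 :: .sub true 1 0 :: .mul 3 0 :: .inv 0 :: .mul 6 0 :: .mul 31 0 :: .add false 0
    27 :: .mul 27 2 :: .smul 3 0 :: .smul 2 8 :: .sub true 18 0 :: .mul 0 7 :: .mul 5 0 :: .smul 5 0
    :: .add true 5 0 :: .mul 7 0 :: .mul 3 3 :: .smul 3 0 :: .add false 2 0 :: .mul 44 15 :: .smul 2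
    0 :: .mul 47 1 :: .smul 2 0 :: prog1

def vs : List Vr := [⟨2, 0, false, false⟩, ⟨2, 0, false, false⟩, ⟨3, 0, false, false⟩, ⟨3, 0, false,
    false⟩]

def C : Chart := ⟨vs, prog, [], 1, 3⟩

end Pool.Agent.Lib.MP_d6150d_an.X2R
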