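import Pool.Agent.Lib.MP_d6150d_an.KN

/-! The criterion of order zero in terms of the function `ZR`. -/

namespace Pool.Agent.Lib.MP_d6150d_an

open Real Set

variable (D F : ℝ)

/-- the image of `exp (F * t)` under `1 - th ^ 2` -/
noncomputable def ZR (t : ℝ) : ℝ := exp (F * t) - 4 * F * (U2 D F t + U1 D F t)

/-- the operator of order zero -/
def o0 : Gp := ⟨0, 0, 0, 0, 0, 0, 0, 0, 1, 0, 0, 0⟩

variable {D F} {t : ℝ}

theorem F_mul_u (t : ℝ) : F * uR F t = exp (F * t) - 1 := by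
  rw [exp_eq_ph, uR]; ring

theorem o0_K (ht : t ∈ JR D) (h0 : t ≠ 0) : F * o0.K D F t = vR D F t ^ 2 * (1 - ZR D F t) := by
  rw [Gp.K_eq ht h0]
  simp only [o0, Gp.P, Gp.C3, Gp.C2, Gp.C1, Gp.C0, ZR]
  linear_combination -vR D F t ^ 2 * F_mul_u (F := F) t

theorem noThree_Z (hF : 0 < F) (σ : ℝ) (h : ∀ a ∈ JR D, ∀ b ∈ JR D, a < 0 → 0 < b →
    vR D F a = vR D F b → σ * ZR D F b < σ * ZR D F a) : NoThree D F := by
  refine Crit1.noThree ⟨o0, σ, fun x ↦ by simp [o0, Gp.P], fun a ha b hb a0 b0 e ↦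
    ⟨by simp [o0, Gp.Q], ?_⟩⟩
  have p := mul_pos (pow_pos (vR_pos (F := F) hb b0.ne') 2) (sub_pos.2 (h a ha b hb a0 b0 e))
  have e1 := o0_K (F := F) ha a0.ne
  have e2 := o0_K (F := F) hb b0.ne'
  rw [e] at e1
  refine lt_of_mul_lt_mul_left ?_ hF.le
  rw [mul_left_comm, mul_left_comm F, e1, e2]
  linarith

theorem noThree_sep (hF : 0 < F) (σ : ℝ) (E : ℝ → ℝ)
    (h : ∀ t ∈ JR D, t ≠ 0 → 0 < t * (σ * (E (vR D F t) - ZR D F t))) : NoThree D F :=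
  noThree_Z hF σ fun a ha b hb a0 b0 e ↦ by
    have p1 := neg_of_mul_pos_right (h a ha a0.ne) a0.le
    have p2 := (mul_pos_iff_of_pos_left b0).1 (h b hb b0.ne')
    rw [e] at p1
    linarith

/-- the homogeneous form -/
theorem ZR_hom (ht : t ∈ JR D) (h0 : t ≠ 0) {l P Q R Y W : ℝ} (hP : P = l * PR D t)
    (hQ : Q = l * QR D t) (hR : R = l * D) (hY : Y = l * yR D F t) (hW : W = l * wR D t) :
    W ^ 3 * ZR D F t = exp (F * t) *
      (W ^ 3 - 4 * F * Y * W ^ 2 - 4 * F * Y ^ 2 * (-F * P + (F - 1) * Q + (2 - F) * R)) := by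
  have hw := wR_ne ht h0
  subst hP hQ hR hY hW
  simp only [ZR, U1, U2, pjR]
  field_simp
  ring

end Pool.Agent.Lib.MP_d6150d_an
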