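import Pool.Agent.Lib.MP_d6150d_an.GDef

/-! A generated chart: the program. -/

namespace Pool.Agent.Lib.MP_d6150d_an.Z2B

def prog1 : List Ins := .mul 0 17 :: .add false 31 0 :: .rsq 0 :: .mul 0 0 :: .mul 0 1 :: .mul 35 0
    :: .mul 43 43 :: .mul 0 44 :: .mul 2 0 :: .sub false 15 0 :: .cpy 0 :: []

def prog : List Ins := .cst 1 2 :: .var 2 :: .add false 1 0 :: .smul 2 1 :: .var 0 :: .var 1 :: .mul
    1 0 :: .mul 3 0 :: .sub false 5 0 :: .sub true 8 7 :: .mul 3 3 :: .mul 1 0 :: .sub false 3 0 ::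
    .int 0 :: .sub false 13 0 :: .smul 2 0 :: .int 1 :: .smul 2 3 :: .mul 0 12 :: .sub false 12 0 ::
    .sub false 3 0 :: .mul 18 0 :: .add false 5 4 :: .inv 0 :: .mul 2 0 :: .sub false 5 14 :: .mul
    16 0 :: .sub false 10 9 :: .inv 0 :: .mul 2 0 :: .sub false 5 0 :: .mul 27 25 :: .sub false 1 0
    :: .mul 17 0 :: .add false 21 0 :: .mul 0 0 :: .mul 23 0 :: .smul 8 22 :: .mul 5 5 :: .mul 1 0
    :: .mul 38 33 :: .sub false 38 0 :: .mul 2 0 :: .sub false 6 0 :: .cst 1 3 :: .cst 3 2 :: .add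
    false 0 42 :: .add false 0 33 :: .mul 32 0 :: .mul 4 0 :: prog1

def vs : List Vr := [⟨2, 0, false, false⟩, ⟨2, 1, false, false⟩, ⟨3, 1, false, false⟩]

def C : Chart := ⟨vs, prog, [], 1, 3⟩

end Pool.Agent.Lib.MP_d6150d_an.Z2B
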