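import Pool.Agent.Lib.MP_d6150d_an.KNJ
import Pool.Agent.Lib.MP_d6150d_an.Z0

/-! The quadrant `D ≤ -1 / 2`, `F ≤ 1 / 2` of the double isochronous point: identities. -/

namespace Pool.Agent.Lib.MP_d6150d_an.Z2

open Real Set Filter Topology Asymptotics

/-- the separator -/
noncomputable def sep (D F v : ℝ) : ℝ := (√(1 + F * (1 - 2 * D - F) / 3 * v))⁻¹ ^ 3

/-- the separator minus the kernel -/
noncomputable def dZ (D F t : ℝ) : ℝ := sep D F (vR D F t) - ZR D F t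

theorem dZ_center {D F : ℝ} : dZ D F =O[𝓝[≠] 0] fun t ↦ t ^ 3 := by
  obtain ⟨a6, J⟩ := o0.K_jet (D := D) (F := F)
  obtain ⟨c, hc⟩ : ∃ c, c = F * (1 - 2 * D - F) / 3 := ⟨_, rfl⟩
  have J' := ((Jet.const F).mul J).cast (b0 := 0) (b1 := 0) (b2 := 0) (b3 := 0) (b4 := 0) (b5 := 0)
    (b6 := 3 / 2 * c) (by ring) (by ring) (by ring) (by simp [o0]) (by simp [o0]) (by simp [o0])
    (by simp only [o0, hc, ja2]; ring)
  have cr : ContinuousAt (fun v ↦ (√(1 + c * v))⁻¹) 0 :=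
    ContinuousAt.inv₀ (by fun_prop) (by simp)
  have B := J'.center7 (E := fun v ↦ -c ^ 2 * (√(1 + c * v))⁻¹ ^ 2 * (2 * (√(1 + c * v))⁻¹ ^ 3 +
    4 * (√(1 + c * v))⁻¹ ^ 2 + 6 * (√(1 + c * v))⁻¹ + 3) / (2 * (1 + (√(1 + c * v))⁻¹) ^ 2))
    (ContinuousAt.div (by fun_prop) (by fun_prop) (by simp))
  have cm : ContinuousAt (fun t ↦ (muR D F t ^ 2)⁻¹) 0 :=
    ((muR_an D F 0).continuousAt.pow 2).inv₀ (by simp [muR_zero])
  refine (((B.mul (cm.isBigO_one ℝ)).mono nhdsWithin_le_nhds).mul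
    (isBigO_refl (fun t : ℝ ↦ (t ^ 4)⁻¹) _)).congr' ?_ ?_
  · have cv : ContinuousAt (fun t ↦ 1 + c * vR D F t) 0 := by
      have := (vR_cont (D := D) (F := F)).continuousAt (x := 0); fun_prop
    filter_upwards [self_mem_nhdsWithin,
      nhdsWithin_le_nhds ((JR_open _).mem_nhds (zero_mem_JR D)),
      nhdsWithin_le_nhds (cv.eventually (lt_mem_nhds (a := 0) (by simp [vR])))] with t h0 ht hp
    have h0 : t ≠ 0 := h0
    have m0 := (muR_pos (F := F) ht).ne'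
    have r0 : 0 < (√(1 + c * vR D F t))⁻¹ := inv_pos.2 (sqrt_pos.2 hp)
    have r1 : (√(1 + c * vR D F t))⁻¹ ^ 2 * (1 + c * vR D F t) = 1 := by
      rw [inv_pow, sq_sqrt hp.le, inv_mul_cancel₀ hp.ne']
    rw [o0_K ht h0, dZ, sep, ← hc]
    generalize (√(1 + c * vR D F t))⁻¹ = r at *
    have e : vR D F t ^ 2 * (1 - ZR D F t) - (0 * vR D F t ^ 2 + 3 / 2 * c * vR D F t ^ 3 +
        vR D F t ^ 4 * (-c ^ 2 * r ^ 2 * (2 * r ^ 3 + 4 * r ^ 2 + 6 * r + 3) / (2 * (1 + r) ^ 2))) =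
        vR D F t ^ 2 * (r ^ 3 - ZR D F t) := by
      have h : c * vR D F t = (1 - r ^ 2) / r ^ 2 := by field_simp; linear_combination r1
      have h2 : (c * vR D F t) ^ 2 * r ^ 2 * (2 * r ^ 3 + 4 * r ^ 2 + 6 * r + 3) / (2 * (1 + r) ^ 2) =
          r ^ 3 - 1 + 3 / 2 * (c * vR D F t) := by rw [h]; field_simp; ring
      linear_combination vR D F t ^ 2 * h2
    rw [e, vR]; field_simp
  · filter_upwards [self_mem_nhdsWithin] with t h0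
    have h0 : t ≠ 0 := h0
    field_simp

/-- the expression on the right branch -/
noncomputable def fR (a b p s x : ℝ) : ℝ :=
  let F := 1 / 2 - b
  let d := 1 / 2 + a
  let z := p * s ^ 2
  let q := p * z
  let w := 1 / 2 - a + 2 * a * q - d * q ^ 2
  let n := s * (d * (1 - q * p) / (1 / 2 + b)) - 2 * a * x
  let m := w - p * s * n
  let r := (√(z + (3 / 2 + 2 * a + b) / 3 * m))⁻¹
  F * w * (s ^ 2 * r ^ 3 * w ^ 2 - n ^ 2) - 2 * m ^ 2 * (d * q - a)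

/-- the same on the face `a = 0` -/
noncomputable def fS (b p k : ℝ) : ℝ :=
  let F := 1 / 2 - b
  let z := p * k
  let q := p * z
  let w := 1 / 2 - 1 / 2 * q ^ 2
  let n := 1 / 2 * (1 - q * p) / (1 / 2 + b)
  let m := w - z * n
  let r := (√(z + (3 / 2 + b) / 3 * m))⁻¹
  F * w * (r ^ 3 * w ^ 2 - n ^ 2) - m ^ 2 * p ^ 2

/-- the expression on the left branch -/
noncomputable def fL (a b s x : ℝ) : ℝ :=
  let F := 1 / 2 - b
  let d := 1 / 2 + a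
  let z := s - 2 * b * x
  let w := d - 2 * a * s - (1 / 2 - a) * s ^ 2
  let n := d * (1 - z) / (1 + 2 * b) - (1 / 2 - a) * (z - s ^ 2) / (1 - 2 * b) - 2 * a * x
  let r := (√(z + 2 * F * (3 / 2 + 2 * a + b) / 3 * n))⁻¹
  w * (w + 2 * F * n) ^ 2 - 8 * F * n ^ 2 * (d - a * s) - z * r ^ 3 * w ^ 3

/-- the expression near the center -/
noncomputable def fC (a b t : ℝ) : ℝ :=
  let D := -1 / 2 - a
  let F := 1 / 2 - b
  let x := exp (t / 2)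
  let xi := exp (-(t / 2))
  let mu := muR D F t
  let W := ph1 (t / 2) * (1 + xi) / 2 * ((1 + D) * x - D * xi)
  let Y := mu * exp (2 * b * t) / 2
  W ^ 3 * ((√(1 + F * (1 - 2 * D - F) / 3 * (t ^ 2 * mu)))⁻¹ ^ 3 * exp (-(F * t)) - 1) +
    4 * F * t * Y * (W ^ 2 + Y * ((-F) * ((1 + D) * x ^ 2) + (F - 1) * (1 + 2 * D) +
      (2 - F) * (D * xi ^ 2)))

variable {a b t : ℝ}

theorem fR_face (b p s x : ℝ) : fR 0 b p s x = s ^ 2 * fS b p (s ^ 2) := by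
  simp only [fR, fS]
  rw [show p * s ^ 2 + (3 / 2 + 2 * 0 + b) / 3 * (1 / 2 - 0 + 2 * 0 * (p * (p * s ^ 2)) -
    (1 / 2 + 0) * (p * (p * s ^ 2)) ^ 2 - p * s * (s * ((1 / 2 + 0) * (1 - p * (p * s ^ 2) * p) /
    (1 / 2 + b)) - 2 * 0 * x)) = p * s ^ 2 + (3 / 2 + b) / 3 * (1 / 2 - 1 / 2 * (p * (p * s ^ 2)) ^ 2 -
    p * s ^ 2 * (1 / 2 * (1 - p * (p * s ^ 2) * p) / (1 / 2 + b))) by ring]
  ring

theorem fS_iso {k : ℝ} (hk : 0 ≤ k) : fS 0 1 k = 0 := by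
  simp only [fS]
  rw [show 1 * k + (3 / 2 + 0) / 3 * (1 / 2 - 1 / 2 * (1 * (1 * k)) ^ 2 -
    1 * k * (1 / 2 * (1 - 1 * (1 * k) * 1) / (1 / 2 + 0))) = ((1 + k) / 2) ^ 2 by ring,
    sqrt_sq (by positivity)]
  field_simp; ring

theorem fL_iso {s : ℝ} (hs : 0 ≤ s) (x : ℝ) : fL 0 0 s x = 0 := by
  simp only [fL]
  rw [show s - 2 * 0 * x + 2 * (1 / 2 - 0) * (3 / 2 + 2 * 0 + 0) / 3 * ((1 / 2 + 0) *
    (1 - (s - 2 * 0 * x)) / (1 + 2 * 0) - (1 / 2 - 0) * (s - 2 * 0 * x - s ^ 2) / (1 - 2 * 0) -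
    2 * 0 * x) = ((1 + s) / 2) ^ 2 by ring, sqrt_sq (by positivity)]
  field_simp; ring

theorem fL_end (a : ℝ) : fL a 0 0 0 = 0 := by
  simp only [fL]; ring

theorem mem_JR (a0 : 0 ≤ a) (a1 : a ≤ 1 / 2) (t : ℝ) : t ∈ JR (-1 / 2 - a) := by
  have := mul_nonneg (sub_nonneg.2 a1) (exp_pos t).le
  simp only [JR, om, mem_ofPred_eq]; linarith

theorem rsq_scale {X z y : ℝ} (hy : 0 < y) (hz : z = y ^ 2) : (√X)⁻¹ = y * (√(z * X))⁻¹ := by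
  rw [hz, sqrt_mul (sq_nonneg y), sqrt_sq hy.le, mul_inv, ← mul_assoc, mul_inv_cancel₀ hy.ne', one_mul]

theorem keyC (ht : t ∈ JR (-1 / 2 - a)) (h0 : t ≠ 0) : fC a b t =
    (ph1 t * (om (-1 / 2 - a) t * exp (-t))) ^ 3 * exp (-((1 / 2 - b) * t)) *
      dZ (-1 / 2 - a) (1 / 2 - b) t := by
  have e1 : exp t = exp (t / 2) ^ 2 := by rw [sq, ← exp_add]; ring_nf
  have e2 : exp (-t) = exp (-(t / 2)) ^ 2 := by rw [sq, ← exp_add]; ring_nf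
  have e3 : exp (t / 2) * exp (-(t / 2)) = 1 := by rw [← exp_add]; simp
  have e4 := exp_eq_ph (t / 2)
  have e5 := exp_eq_ph t
  have e6 : exp ((1 / 2 - b) * t) * exp (-((1 / 2 - b) * t)) = 1 := by rw [← exp_add]; simp
  have e7 : exp (2 * b * t) = exp (-t) * exp ((2 - 2 * (1 / 2 - b)) * t) := by
    rw [← exp_add]; ring_nf
  have hp : ph1 t = ph1 (t / 2) * (1 + exp (t / 2)) / 2 := by
    apply mul_left_cancel₀ h0
    linear_combination e1 - e5 + (1 + exp (t / 2)) * e4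
  have hW : ph1 (t / 2) * (1 + exp (-(t / 2))) / 2 * ((1 + (-1 / 2 - a)) * exp (t / 2) -
      (-1 / 2 - a) * exp (-(t / 2))) = ph1 t * (om (-1 / 2 - a) t * exp (-t)) := by
    rw [hp, om, e1, e2]
    linear_combination -ph1 (t / 2) / 2 * ((1 + (-1 / 2 - a)) * exp (t / 2) * (1 + exp (-(t / 2)) +
      exp (t / 2) * exp (-(t / 2))) - (-1 / 2 - a) * exp (-(t / 2))) * e3
  have H := ZR_hom (F := 1 / 2 - b) ht h0 (l := exp (-t)) (P := (1 + (-1 / 2 - a)) * exp (t / 2) ^ 2)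
    (Q := 1 + 2 * (-1 / 2 - a)) (R := (-1 / 2 - a) * exp (-(t / 2)) ^ 2)
    (Y := t ^ 2 * (muR (-1 / 2 - a) (1 / 2 - b) t * exp (2 * b * t) / 2))
    (W := t * (ph1 t * (om (-1 / 2 - a) t * exp (-t))))
    (by rw [PR, e1, e2]; linear_combination -(1 + (-1 / 2 - a)) * exp (t / 2) ^ 2 *
      (1 + exp (t / 2) * exp (-(t / 2))) * e3)
    (by rw [QR, e1, e2]; linear_combination -(1 + 2 * (-1 / 2 - a)) *
      (1 + exp (t / 2) * exp (-(t / 2))) * e3)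
    (by rw [e2]; ring) (by rw [yR, vR, e7]; ring) (by rw [wR_eq, e5]; ring)
  simp only [fC, dZ, sep, vR, hW]
  apply mul_left_cancel₀ (pow_ne_zero 3 h0)
  generalize ph1 t * (om (-1 / 2 - a) t * exp (-t)) = W,
    muR (-1 / 2 - a) (1 / 2 - b) t * exp (2 * b * t) / 2 = Y at *
  linear_combination exp (-((1 / 2 - b) * t)) * H + (t ^ 3 * W ^ 3 - 4 * (1 / 2 - b) * t ^ 4 * Y *
    (W ^ 2 + Y * (-(1 / 2 - b) * ((1 + (-1 / 2 - a)) * exp (t / 2) ^ 2) + (1 / 2 - b - 1) *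
      (1 + 2 * (-1 / 2 - a)) + (2 - (1 / 2 - b)) * ((-1 / 2 - a) * exp (-(t / 2)) ^ 2)))) * e6

theorem keyR (b0 : 0 ≤ b) (ht : t ∈ JR (-1 / 2 - a)) (h0 : t ≠ 0) :
    exp (-2 * b * t) * fR a b (exp (-2 * b * t)) (exp ((2 * b - 1 / 2) * t))
      (exp ((2 * b - 1 / 2) * t) * t * ph1 (-2 * b * t)) =
    (1 / 2 - b) * (exp (-t) ^ 2 * wR (-1 / 2 - a) t) ^ 3 * exp ((1 / 2 - b) * t) *
      dZ (-1 / 2 - a) (1 / 2 - b) t := by
  obtain ⟨y, hy⟩ : ∃ y, y = exp ((1 / 2 - b) * t) := ⟨_, rfl⟩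
  obtain ⟨i, hi⟩ : ∃ i, i = exp (-((1 / 2 - b) * t)) := ⟨_, rfl⟩
  obtain ⟨p, hp⟩ : ∃ p, p = exp (-2 * b * t) := ⟨_, rfl⟩
  obtain ⟨s, hs⟩ : ∃ s, s = exp ((2 * b - 1 / 2) * t) := ⟨_, rfl⟩
  obtain ⟨c, hc⟩ : ∃ c, c = t * ph1 (-2 * b * t) := ⟨_, rfl⟩
  have e1 : y * i = 1 := by rw [hy, hi, ← exp_add]; simp
  have e2 : p * s ^ 2 = i ^ 2 := by rw [hp, hs, hi, sq, sq, ← exp_add, ← exp_add, ← exp_add]; ring_nf
  have e3 : exp (-t) = p * (p * s ^ 2) := by rw [e2, hp, hi, sq, ← exp_add, ← exp_add]; ring_nf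
  have e4 : exp (-t) * exp t = 1 := by rw [← exp_add]; simp
  have e5 : p = 1 - 2 * b * c := by rw [hp, hc, exp_eq_ph]; ring
  have e6 : exp (-t) ^ 2 * exp ((2 - 2 * (1 / 2 - b)) * t) = p * s ^ 2 := by
    rw [e2, hi, sq, sq, ← exp_add, ← exp_add, ← exp_add]; ring_nf
  have e7 : exp (2 * (1 / 2 - b) * t) = y ^ 2 := by rw [hy, sq, ← exp_add]; ring_nf
  have e8 : exp ((2 * (1 / 2 - b) - 2) * t) = p * exp (-t) := by rw [hp, ← exp_add]; ring_nf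
  have h1 := exp_eq_ph (2 * (1 / 2 - b) * t)
  have h3 := exp_eq_ph ((2 * (1 / 2 - b) - 2) * t)
  rw [e7] at h1
  rw [e8] at h3
  obtain ⟨q, hq⟩ : ∃ q, q = p * (p * s ^ 2) := ⟨_, rfl⟩
  obtain ⟨w, hw⟩ : ∃ w, w = 1 / 2 - a + 2 * a * q - (1 / 2 + a) * q ^ 2 := ⟨_, rfl⟩
  obtain ⟨k, hk⟩ : ∃ k, k = (1 / 2 + a) * (1 - q * p) / (1 / 2 + b) := ⟨_, rfl⟩
  have hk' : k * (1 / 2 + b) = (1 / 2 + a) * (1 - q * p) := by
    rw [hk, div_mul_cancel₀ _ (by linarith)]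
  rw [← hq] at e3
  rw [e3] at e4 e6 h3
  have hW : w = q ^ 2 * wR (-1 / 2 - a) t := by
    rw [wR, PR, QR, hw]
    linear_combination -((1 / 2 - a) * (1 + q * exp t) + 2 * a * q) * e4
  have hv : (1 / 2 - b) * vR (-1 / 2 - a) (1 / 2 - b) t * (p * s ^ 2) =
      w - p * s * (s * k - 2 * a * (s * c)) := by
    apply mul_left_cancel₀ (a := 1 / 2 + b) (by linarith)
    rw [vR_eq, show (2 * (1 / 2 - b) - 1) * t = -2 * b * t by ring, ← hc, hw]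
    linear_combination p * s ^ 2 * hk' - (1 / 2 + b) * (1 / 2 - a) * (p * s ^ 2) * h1 -
      (1 / 2 - b) * (1 / 2 + a) * (p * s ^ 2) * h3 + (1 / 2 + b) * (1 / 2 - a) * (y ^ 2 * e2 +
      (1 + y * i) * e1) - (1 / 2 + b) * 2 * a * (hq + p * s ^ 2 * e5) +
      (1 / 2 + b) * (1 / 2 + a) * q * hq
  have H := ZR_hom (F := 1 / 2 - b) ht h0 (l := q ^ 2) (P := 1 / 2 - a) (Q := -2 * a * q)
    (R := -(1 / 2 + a) * q ^ 2) (Y := vR (-1 / 2 - a) (1 / 2 - b) t * (p * s ^ 2) / 2) (W := w)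
    (by rw [PR]; linear_combination -(1 / 2 - a) * (1 + q * exp t) * e4)
    (by rw [QR]; linear_combination 2 * a * q * e4) (by ring) (by rw [yR, ← e6]; ring) hW
  have hr := rsq_scale (X := 1 + (1 / 2 - b) * (1 - 2 * (-1 / 2 - a) - (1 / 2 - b)) / 3 *
    vR (-1 / 2 - a) (1 / 2 - b) t) (hi ▸ exp_pos _ : 0 < i) e2
  rw [show p * s ^ 2 * (1 + (1 / 2 - b) * (1 - 2 * (-1 / 2 - a) - (1 / 2 - b)) / 3 *
    vR (-1 / 2 - a) (1 / 2 - b) t) = p * s ^ 2 + (3 / 2 + 2 * a + b) / 3 *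
      (w - p * s * (s * k - 2 * a * (s * c))) by linear_combination (3 / 2 + 2 * a + b) / 3 * hv] at hr
  rw [mul_assoc _ t, ← hc, ← hp, ← hs, ← hy, e3, ← hW, dZ, sep, hr]
  simp only [fR, ← hq, ← hw, ← hk]
  rw [← hy] at H
  generalize (√(p * s ^ 2 + (3 / 2 + 2 * a + b) / 3 * (w - p * s * (s * k - 2 * a * (s * c)))))⁻¹ = r
  generalize s * k - 2 * a * (s * c) = n, vR (-1 / 2 - a) (1 / 2 - b) t = V,
    ZR (-1 / 2 - a) (1 / 2 - b) t = Z at *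
  have e9 : y ^ 2 * (p * s ^ 2) = 1 := by rw [e2]; linear_combination (1 + y * i) * e1
  generalize hm : w - p * s * n = m at *
  linear_combination (1 / 2 - b) * y * H - y ^ 2 * (2 * (1 / 2 - b) * w ^ 2 +
    ((1 / 2 - b) * V * (p * s ^ 2) + m) * (-(1 / 2 - b) * (1 / 2 - a) + (1 / 2 - b - 1) * (-2 * a * q) +
      (2 - (1 / 2 - b)) * (-(1 / 2 + a) * q ^ 2))) * hv - y ^ 2 * m ^ 2 * (1 / 2 - b) * hw +
    (1 / 2 - b) * w ^ 3 * r ^ 3 * (e2 - i ^ 2 * e1) +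
    p * ((1 / 2 - b) * w * n ^ 2 + 2 * m ^ 2 * ((1 / 2 + a) * q - a)) * e9 +
    2 * y ^ 2 * m ^ 2 * ((1 / 2 + a) * q - a) * hq +
    y ^ 2 * (1 / 2 - b) * w * (w - m + p * s * n) * hm

theorem keyL (b0 : 0 ≤ b) (b1 : b < 1 / 2) (ht : t ∈ JR (-1 / 2 - a)) (t0 : t < 0) :
    ∃ k, 0 ≤ k ∧ exp ((1 / 2 - b) * t) * (fL a b (exp t) (-t * exp t * ph1 (2 * b * t)) +
      k * (1 - exp (2 * b * t))) = (wR (-1 / 2 - a) t) ^ 3 * dZ (-1 / 2 - a) (1 / 2 - b) t := by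
  obtain ⟨y, hy⟩ : ∃ y, y = exp ((1 / 2 - b) * t) := ⟨_, rfl⟩
  obtain ⟨j, hj⟩ : ∃ j, j = exp ((1 / 2 + b) * t) := ⟨_, rfl⟩
  obtain ⟨p, hp⟩ : ∃ p, p = exp (2 * b * t) := ⟨_, rfl⟩
  obtain ⟨s, hs⟩ : ∃ s, s = exp t := ⟨_, rfl⟩
  obtain ⟨x, hx⟩ : ∃ x, x = -t * s * ph1 (2 * b * t) := ⟨_, rfl⟩
  obtain ⟨z, hz⟩ : ∃ z, z = s - 2 * b * x := ⟨_, rfl⟩
  have e1 : z = s * p := by rw [hz, hx, hp, exp_eq_ph (2 * b * t)]; ring
  have e2 : z = j ^ 2 := by rw [e1, hs, hp, hj, sq, ← exp_add, ← exp_add]; ring_nf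
  have e3 : j = y * p := by rw [hj, hy, hp, ← exp_add]; ring_nf
  have e4 : exp ((2 - 2 * (1 / 2 - b)) * t) = z := by rw [e1, hs, hp, ← exp_add]; ring_nf
  have e5 : exp (2 * (1 / 2 - b) * t) * z = s ^ 2 := by
    rw [← e4, hs, sq, ← exp_add, ← exp_add]; ring_nf
  have e6 : exp ((2 * (1 / 2 - b) - 2) * t) * z = 1 := by rw [← e4, ← exp_add]; ring_nf; simp
  have e7 : t * ph1 ((2 * (1 / 2 - b) - 1) * t) * z = -x := by
    rw [hx, e1, ph1_neg (2 * b * t), ← hp, show (2 * (1 / 2 - b) - 1) * t = -(2 * b * t) by ring]; ring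
  have h1 := exp_eq_ph (2 * (1 / 2 - b) * t)
  have h3 := exp_eq_ph ((2 * (1 / 2 - b) - 2) * t)
  obtain ⟨w, hw⟩ : ∃ w, w = 1 / 2 + a - 2 * a * s - (1 / 2 - a) * s ^ 2 := ⟨_, rfl⟩
  obtain ⟨n, hn⟩ : ∃ n, n = (1 / 2 + a) * (1 - z) / (1 + 2 * b) - (1 / 2 - a) * (z - s ^ 2) /
    (1 - 2 * b) - 2 * a * x := ⟨_, rfl⟩
  have hW : w = -1 * wR (-1 / 2 - a) t := by rw [wR, PR, QR, hw, ← hs]; ring
  have w0 : 0 < w := by
    have h : 0 < om (-1 / 2 - a) t := ht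
    rw [hW, wR_eq]; nlinarith [exp_lt_one_iff.2 t0]
  have hv : vR (-1 / 2 - a) (1 / 2 - b) t * z = 2 * n := by
    have c1 : 1 + 2 * b ≠ 0 := by linarith
    have c2 : 1 - 2 * b ≠ 0 := by linarith
    have k1 : t * ph1 (2 * (1 / 2 - b) * t) * z = -((z - s ^ 2) / (1 - 2 * b)) := by
      rw [← neg_div, eq_div_iff c2]; linear_combination e5 - z * h1
    have k3 : t * ph1 ((2 * (1 / 2 - b) - 2) * t) * z = -((1 - z) / (1 + 2 * b)) := by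
      rw [← neg_div, eq_div_iff c1]; linear_combination z * h3 - e6
    rw [vR_eq, hn]
    linear_combination 2 * (1 / 2 - a) * k1 + 4 * a * e7 - 2 * (1 / 2 + a) * k3
  have H := ZR_hom (F := 1 / 2 - b) ht t0.ne (l := -1) (P := -(1 / 2 - a) * s ^ 2) (Q := 2 * a * s)
    (R := 1 / 2 + a) (Y := -n) (W := w) (by rw [PR, hs]; ring) (by rw [QR, hs]; ring) (by ring)
    (by rw [yR, e4, hv]; ring) hW
  have j0 : 0 < j := hj ▸ exp_pos _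
  have hr := rsq_scale (X := 1 + (1 / 2 - b) * (1 - 2 * (-1 / 2 - a) - (1 / 2 - b)) / 3 *
    vR (-1 / 2 - a) (1 / 2 - b) t) j0 e2
  rw [show z * (1 + (1 / 2 - b) * (1 - 2 * (-1 / 2 - a) - (1 / 2 - b)) / 3 *
    vR (-1 / 2 - a) (1 / 2 - b) t) = z + 2 * (1 / 2 - b) * (3 / 2 + 2 * a + b) / 3 * n by
      linear_combination (1 / 2 - b) * (3 / 2 + 2 * a + b) / 3 * hv] at hr
  refine ⟨z * (√(z + 2 * (1 / 2 - b) * (3 / 2 + 2 * a + b) / 3 * n))⁻¹ ^ 3 * w ^ 3,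
    by rw [e2]; positivity, ?_⟩
  rw [← hs, ← hx, ← hp, ← hy, dZ, sep, hr, show wR (-1 / 2 - a) t = -w by rw [hW]; ring]
  simp only [fL, ← hz, ← hw, ← hn]
  rw [← hy] at H
  generalize (√(z + 2 * (1 / 2 - b) * (3 / 2 + 2 * a + b) / 3 * n))⁻¹ = r,
    ZR (-1 / 2 - a) (1 / 2 - b) t = Z at *
  linear_combination -H + 4 * (1 / 2 - b) ^ 2 * n ^ 2 * y * hw + r ^ 3 * w ^ 3 * (z * e3 - j * e2)

end Pool.Agent.Lib.MP_d6150d_an.Z2
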