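import Pool.Agent.Lib.MP_d6150d_an.GDef

/-! A generated chart: the program. -/

namespace Pool.Agent.Lib.MP_d6150d_an.Z2M

def prog1 : List Ins := .mul 27 27 :: .mul 1 0 :: .mul 10 10 :: .sub true 1 0 :: .mul 30 0 :: .mul
    11 11 :: .smul 2 0 :: .mul 37 40 :: .sub true 0 56 :: .mul 2 0 :: .sub false 5 0 :: .cpy 0 :: []

def prog : List Ins := .cst 1 2 :: .var 0 :: .sub true 1 0 :: .var 1 :: .sub false 3 0 :: .smul 2 1
    :: .smul (-2) 4 :: .var 2 :: .mul 1 0 :: .tri 0 :: .smul 2 10 :: .sub true 0 12 :: .mul 0 6 ::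
    .exp 0 :: .mul 0 0 :: .mul 7 0 :: .mul 8 0 :: .mul 13 0 :: .add false 15 0 :: .add false 20 17
    :: .mul 3 3 :: .mul 1 0 :: .sub true 3 0 :: .mul 22 0 :: .cst 1 3 :: .cst 3 2 :: .add false 0 22
    :: .add false 0 27 :: .mul 3 0 :: .mul 21 15 :: .int 1 :: .mul 14 23 :: .sub false 1 0 :: .mul
    13 0 :: .add false 35 34 :: .inv 0 :: .mul 2 0 :: .mul 23 0 :: .mul 24 32 :: .mul 0 30 :: .mul
    36 0 :: .sub true 3 0 :: .mul 12 0 :: .sub false 20 0 :: .mul 15 0 :: .add false 29 0 :: .rsq 0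
    :: .mul 0 0 :: .mul 0 1 :: .mul 34 0 :: prog1

def vs : List Vr := [⟨2, 0, false, false⟩, ⟨3, 0, false, true⟩, ⟨5, 0, false, false⟩]

def C : Chart := ⟨vs, prog, [], 1, 3⟩

end Pool.Agent.Lib.MP_d6150d_an.Z2M
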