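import Pool.Agent.Lib.MP_d6150d_an.GDef

/-! A generated chart: the program. -/

namespace Pool.Agent.Lib.MP_d6150d_an.Z2R

def prog1 : List Ins := .mul 28 0 :: .add false 52 0 :: .rsq 0 :: .mul 0 0 :: .mul 0 1 :: .mul 38 61
    :: .smul (-1) 0 :: .exp 0 :: .mul 3 0 :: .sub true 0 60 :: .mul 46 0 :: .smul 4 44 :: .mul 0 68
    :: .smul 2 47 :: .mul 0 70 :: .exp 0 :: .mul 17 0 :: .mul 74 0 :: .mul 5 0 :: .smul (-1) 52 ::
    .mul 74 74 :: .mul 63 0 :: .mul 2 0 :: .sub true 56 74 :: .add true 75 56 :: .mul 1 0 :: .add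
    false 3 0 :: .sub true 38 60 :: .mul 77 77 :: .mul 72 0 :: .mul 2 0 :: .add true 4 0 :: .mul 14
    0 :: .add true 70 0 :: .mul 15 0 :: .add false 24 0 :: .cpy 0 :: []

def prog : List Ins := .cst 1 2 :: .var 2 :: .mul 1 0 :: .tri 0 :: .int 1 :: .smul (-1) 4 :: .exp 0
    :: .add false 2 0 :: .mul 5 0 :: .mul 10 0 :: .cst (-1) 2 :: .var 0 :: .sub false 1 0 :: .add
    true 8 0 :: .mul 0 12 :: .mul 2 8 :: .sub false 1 0 :: .mul 7 0 :: .mul 0 0 :: .mul 0 1 :: .cst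
    1 3 :: .var 1 :: .sub true 23 0 :: .smul 2 10 :: .sub false 19 0 :: .sub true 0 2 :: .mul 3 0 ::
    .mul 6 0 :: .mul 28 28 :: .smul 2 6 :: .mul 0 30 :: .tri 0 :: .mul 4 0 :: .sub true 5 30 :: .mul
    0 36 :: .tri 0 :: .mul 4 0 :: .sub false 6 0 :: .smul 2 1 :: .sub false 8 0 :: .int 2 :: .sub
    true 15 0 :: .mul 0 46 :: .tri 0 :: .mul 4 0 :: .add true 7 0 :: .mul 39 0 :: .add true 11 0 ::
    .smul 2 0 :: .mul 26 0 :: prog1

def vs : List Vr := [⟨3, 0, false, true⟩, ⟨2, 0, false, true⟩, ⟨7, 3, false, false⟩]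

def C : Chart := ⟨vs, prog, [], 1, 3⟩

end Pool.Agent.Lib.MP_d6150d_an.Z2R
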