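import Pool.Agent.Lib.MP_d6150d_an.GDef

/-! A generated chart: the program. -/

namespace Pool.Agent.Lib.MP_d6150d_an.Z2S

def prog : List Ins := .cst 1 2 :: .var 0 :: .sub true 1 0 :: .smul (-8) 1 :: .exp 0 :: .int 1 ::
    .var 1 :: .sub true 1 0 :: .mul 3 0 :: .var 2 :: .mul 1 0 :: .mul 2 0 :: .mul 0 0 :: .mul 12 0
    :: .sub false 13 0 :: .mul 12 0 :: .cst 1 3 :: .cst 3 2 :: .add false 0 16 :: .mul 2 0 :: .mul 8
    11 :: .sub false 15 0 :: .mul 21 0 :: .add false 22 21 :: .inv 0 :: .mul 2 0 :: .mul 15 0 ::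
    .sub false 12 0 :: .mul 8 0 :: .add false 18 0 :: .rsq 0 :: .mul 0 0 :: .mul 0 1 :: .mul 18 18
    :: .mul 1 0 :: .mul 9 9 :: .sub true 1 0 :: .mul 21 0 :: .mul 10 10 :: .mul 30 30 :: .mul 1 0 ::
    .sub false 3 0 :: .cpy 0 :: []

def vs : List Vr := [⟨2, 0, false, true⟩, ⟨3, 0, false, true⟩, ⟨2, 0, false, false⟩]

def C : Chart := ⟨vs, prog, [], 1, 3⟩

end Pool.Agent.Lib.MP_d6150d_an.Z2S
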