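import Pool.Agent.Lib.MP_d6150d_an.GDef

/-! A generated chart: the program. -/

namespace Pool.Agent.Lib.MP_d6150d_an.Z2T

def prog1 : List Ins := .sub true 1 0 :: .mul 28 0 :: .mul 11 11 :: .smul 2 0 :: .mul 35 38 :: .sub
    true 0 51 :: .mul 2 0 :: .sub false 5 0 :: .cpy 0 :: []

def prog : List Ins := .cst 1 2 :: .var 2 :: .sub true 1 0 :: .var 4 :: .sub false 3 0 :: .smul 2 1
    :: .smul (-8) 4 :: .exp 0 :: .int 1 :: .var 3 :: .sub true 1 0 :: .mul 3 0 :: .var 0 :: .mul 0 0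
    :: .mul 2 0 :: .mul 3 0 :: .mul 10 0 :: .add false 12 0 :: .add false 17 14 :: .mul 3 3 :: .mul
    1 0 :: .sub true 3 0 :: .mul 19 0 :: .cst 1 3 :: .cst 3 2 :: .add false 0 19 :: .add false 0 24
    :: .mul 3 0 :: .mul 16 15 :: .mul 13 17 :: .sub false 21 0 :: .mul 12 0 :: .add false 31 30 ::
    .inv 0 :: .mul 2 0 :: .mul 22 0 :: .var 1 :: .mul 31 0 :: .sub true 2 0 :: .mul 10 0 :: .sub
    false 18 0 :: .mul 13 0 :: .add false 27 0 :: .rsq 0 :: .mul 0 0 :: .mul 0 1 :: .mul 32 0 ::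
    .mul 25 25 :: .mul 1 0 :: .mul 10 10 :: prog1

def vs : List Vr := [⟨1, 0, false, false⟩, ⟨2, 0, false, false⟩, ⟨1, 0, false, false⟩, ⟨1, 0, false,
    false⟩, ⟨3, 0, false, true⟩]

def C : Chart := ⟨vs, prog, [], 1, 3⟩

end Pool.Agent.Lib.MP_d6150d_an.Z2T
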