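import Pool.Agent.Lib.MP_d6150d_an.Z3cMLD

/-! A generated chart: the computations. -/

namespace Pool.Agent.Lib.MP_d6150d_an.Z3cML

theorem k0 : chkT C ts 0xbbb0bb11b10 [(0, 8796093022208), (0, 105553116266496), (0, 8796093022208)]
    = true := by
  decide +kernel

theorem k1 : chkT C ts 0xbb2bbb20bbb1010 [(0, 8796093022208), (105553116266496, 211106232532992),
    (0, 8796093022208)] = true := by
  decide +kernel

theorem k2 : chkT C ts 0xbb2bb0bb02bb0bb0210 [(0, 8796093022208), (211106232532992,
    316659348799488), (0, 8796093022208)] = true := by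
  decide +kernel

theorem k3 : chkT C ts 0xbb2bb0bbb2020 [(0, 8796093022208), (316659348799488, 369435906932736), (0,
    8796093022208)] = true := by
  decide +kernel

theorem k4 : chkT C ts 0xbb2bb0bbb2020 [(0, 8796093022208), (369435906932736, 422212465065984), (0,
    8796093022208)] = true := by
  decide +kernel

theorem k5 : chkT C ts 0xbb2bb20bbb201 [(0, 4398046511104), (422212465065984, 527765581332480), (0,
    4398046511104)] = true := by
  decide +kernel

end Pool.Agent.Lib.MP_d6150d_an.Z3cML
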