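import Pool.Agent.Lib.MP_d6150d_an.Z3cMLD

/-! A generated chart: the computations. -/

namespace Pool.Agent.Lib.MP_d6150d_an.Z3cML

theorem k6 : chkT C ts 0xbb0bbb002bb2bbb0201 [(0, 4398046511104), (527765581332480,
    633318697598976), (0, 4398046511104)] = true := by
  decide +kernel

theorem k7 : chkT C ts 0xbb0bbb102bb0bbb1021 [(0, 4398046511104), (633318697598976,
    738871813865472), (0, 4398046511104)] = true := by
  decide +kernel

theorem k8 : chkT C ts 0xbb0bbb102 [(0, 4398046511104), (738871813865472, 791648371998720), (0,
    4398046511104)] = true := by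
  decide +kernel

theorem k9 : chkT C ts 0xbb0bbb0b102 [(0, 4398046511104), (791648371998720, 844424930131968), (0,
    4398046511104)] = true := by
  decide +kernel

theorem k10 : chkT C ts 0xbb2bb01bb11 [(4398046511104, 8796093022208), (422212465065984,
    633318697598976), (0, 4398046511104)] = true := by
  decide +kernel

theorem k11 : chkT C ts 0xbb2bb21bb2bb211 [(4398046511104, 8796093022208), (633318697598976,
    844424930131968), (0, 4398046511104)] = true := by
  decide +kernel

end Pool.Agent.Lib.MP_d6150d_an.Z3cML
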