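import Pool.Agent.Lib.MP_d6150d_an.Z3cMLD

/-! A generated chart: the computations. -/

namespace Pool.Agent.Lib.MP_d6150d_an.Z3cML

theorem k12 : chkT C ts 0xbb0bb01bb0bb011 [(0, 4398046511104), (422212465065984, 633318697598976),
    (4398046511104, 8796093022208)] = true := by
  decide +kernel

theorem k13 : chkT C ts 0xbb2bb01bb0bb011 [(0, 4398046511104), (633318697598976, 844424930131968),
    (4398046511104, 8796093022208)] = true := by
  decide +kernel

theorem k14 : chkT C ts 0xbb1bb11bb1bb211 [(4398046511104, 8796093022208), (422212465065984,
    844424930131968), (4398046511104, 8796093022208)] = true := by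
  decide +kernel

end Pool.Agent.Lib.MP_d6150d_an.Z3cML
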