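import Pool.Agent.Lib.MP_d6150d_an.Z3cMRD

/-! A generated chart: the computations. -/

namespace Pool.Agent.Lib.MP_d6150d_an.Z3cMR

theorem k0 : chkT C ts 0xbbb1b10 [(0, 8796093022208), (0, 105553116266496), (0, 8796093022208)] =
    true := by
  decide +kernel

theorem k1 : chkT C ts 0xbbb02bbb20bb2b110 [(0, 8796093022208), (105553116266496, 211106232532992),
    (0, 8796093022208)] = true := by
  decide +kernel

theorem k2 : chkT C ts 0xbb2bbb02bbb0210 [(0, 8796093022208), (211106232532992, 316659348799488),
    (0, 8796093022208)] = true := by
  decide +kernel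

theorem k3 : chkT C ts 0xbb2bbb020bb2bbb0201 [(0, 8796093022208), (316659348799488,
    422212465065984), (0, 8796093022208)] = true := by
  decide +kernel

theorem k4 : chkT C ts 0xbbb20bb01 [(0, 4398046511104), (422212465065984, 527765581332480), (0,
    4398046511104)] = true := by
  decide +kernel

theorem k5 : chkT C ts 0xbb0bb02bb2bb201 [(0, 4398046511104), (527765581332480, 633318697598976),
    (0, 4398046511104)] = true := by
  decide +kernel

end Pool.Agent.Lib.MP_d6150d_an.Z3cMR
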