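import Pool.Agent.Lib.MP_d6150d_an.Z3cMRD

/-! A generated chart: the computations. -/

namespace Pool.Agent.Lib.MP_d6150d_an.Z3cMR

theorem k6 : chkT C ts 0xbbb02bbb021 [(0, 4398046511104), (633318697598976, 738871813865472), (0,
    4398046511104)] = true := by
  decide +kernel

theorem k7 : chkT C ts 0xbbbb002bbb021 [(0, 4398046511104), (738871813865472, 844424930131968), (0,
    4398046511104)] = true := by
  decide +kernel

theorem k8 : chkT C ts 0xbb0b1bb21 [(4398046511104, 8796093022208), (422212465065984,
    633318697598976), (0, 4398046511104)] = true := by
  decide +kernel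

theorem k9 : chkT C ts 0xbb2bb21bbb221 [(4398046511104, 8796093022208), (633318697598976,
    844424930131968), (0, 4398046511104)] = true := by
  decide +kernel

theorem k10 : chkT C ts 0xbbb10bbb101 [(0, 8796093022208), (422212465065984, 633318697598976),
    (4398046511104, 8796093022208)] = true := by
  decide +kernel

theorem k11 : chkT C ts 0xbbb20bb01bb0bb011 [(0, 8796093022208), (633318697598976, 844424930131968),
    (4398046511104, 8796093022208)] = true := by
  decide +kernel

end Pool.Agent.Lib.MP_d6150d_an.Z3cMR
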