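import Pool.Agent.Lib.MP_d6150d_an.Z3cPLD

/-! A generated chart: the computations. -/

namespace Pool.Agent.Lib.MP_d6150d_an.Z3cPL

theorem k0 : chkT C ts 0xbbbbb0bb01b1000 [(0, 70368744177664), (0, 105553116266496), (0,
    8796093022208)] = true := by
  decide +kernel

theorem k1 : chkT C ts 0xbb2bb2bbb02bbb10100 [(0, 35184372088832), (105553116266496,
    211106232532992), (0, 8796093022208)] = true := by
  decide +kernel

theorem k2 : chkT C ts 0xbb2 [(35184372088832, 70368744177664), (105553116266496, 211106232532992),
    (0, 8796093022208)] = true := by
  decide +kernel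

theorem k3 : chkT C ts 0xbb2bbb020bbbb0201 [(0, 17592186044416), (211106232532992, 316659348799488),
    (0, 8796093022208)] = true := by
  decide +kernel

theorem k4 : chkT C ts 0xbb2 [(17592186044416, 35184372088832), (211106232532992, 316659348799488),
    (0, 8796093022208)] = true := by
  decide +kernel

theorem k5 : chkT C ts 0xbb2 [(35184372088832, 70368744177664), (211106232532992, 316659348799488),
    (0, 8796093022208)] = true := by
  decide +kernel

theorem k6 : chkT C ts 0xbb2bb2bbbb20200 [(0, 35184372088832), (316659348799488, 369435906932736),
    (0, 8796093022208)] = true := by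
  decide +kernel

end Pool.Agent.Lib.MP_d6150d_an.Z3cPL
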