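import Pool.Agent.Lib.MP_d6150d_an.Z3cPLD

/-! A generated chart: the computations. -/

namespace Pool.Agent.Lib.MP_d6150d_an.Z3cPL

theorem k7 : chkT C ts 0xbb2bb0bbbb20020 [(0, 35184372088832), (369435906932736, 422212465065984),
    (0, 8796093022208)] = true := by
  decide +kernel

theorem k8 : chkT C ts 0xbbb22 [(35184372088832, 70368744177664), (316659348799488,
    422212465065984), (0, 8796093022208)] = true := by
  decide +kernel

theorem k9 : chkT C ts 0xbb1bb01bb0bb011 [(70368744177664, 140737488355328), (0, 422212465065984),
    (0, 4398046511104)] = true := by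
  decide +kernel

theorem k10 : chkT C ts 0xbb1bb11 [(70368744177664, 140737488355328), (0, 422212465065984),
    (4398046511104, 8796093022208)] = true := by
  decide +kernel

theorem k11 : chkT C ts 0xbbb0bb020bbbb2001 [(0, 17592186044416), (422212465065984,
    527765581332480), (0, 4398046511104)] = true := by
  decide +kernel

theorem k12 : chkT C ts 0xbb1 [(17592186044416, 35184372088832), (422212465065984, 527765581332480),
    (0, 4398046511104)] = true := by
  decide +kernel

theorem k13 : chkT C ts 0xbbb2bb0bb0200 [(0, 35184372088832), (527765581332480, 580542139465728),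
    (0, 4398046511104)] = true := by
  decide +kernel

end Pool.Agent.Lib.MP_d6150d_an.Z3cPL
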