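import Pool.Agent.Lib.MP_d6150d_an.Z3cPLD

/-! A generated chart: the computations. -/

namespace Pool.Agent.Lib.MP_d6150d_an.Z3cPL

theorem k14 : chkT C ts 0xbb2bb2bb2bbb10200 [(0, 35184372088832), (580542139465728,
    633318697598976), (0, 4398046511104)] = true := by
  decide +kernel

theorem k15 : chkT C ts 0xbb2b1bb11 [(35184372088832, 70368744177664), (422212465065984,
    633318697598976), (0, 4398046511104)] = true := by
  decide +kernel

theorem k16 : chkT C ts 0xbb1bbbb100bbbb10010 [(0, 35184372088832), (633318697598976,
    738871813865472), (0, 2199023255552)] = true := by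
  decide +kernel

theorem k17 : chkT C ts 0xbbbbb1000bbbbb10001 [(0, 35184372088832), (738871813865472,
    844424930131968), (0, 2199023255552)] = true := by
  decide +kernel

theorem k18 : chkT C ts 0xbb1bb11 [(35184372088832, 70368744177664), (633318697598976,
    844424930131968), (0, 2199023255552)] = true := by
  decide +kernel

theorem k19 : chkT C ts 0xbb0bb2bbb20bbb20100 [(0, 70368744177664), (633318697598976,
    738871813865472), (2199023255552, 4398046511104)] = true := by
  decide +kernel

end Pool.Agent.Lib.MP_d6150d_an.Z3cPL
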