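import Pool.Agent.Lib.MP_d6150d_an.Z3cPLD

/-! A generated chart: the computations. -/

namespace Pool.Agent.Lib.MP_d6150d_an.Z3cPL

theorem k26 : chkT C ts 0xbb1bbb00bbb0010 [(0, 70368744177664), (738871813865472, 844424930131968),
    (4398046511104, 8796093022208)] = true := by
  decide +kernel

theorem k27 : chkT C ts 0xbb1bb11bb1bb011 [(70368744177664, 140737488355328), (422212465065984,
    844424930131968), (4398046511104, 8796093022208)] = true := by
  decide +kernel

end Pool.Agent.Lib.MP_d6150d_an.Z3cPL
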