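import Pool.Agent.Lib.MP_d6150d_an.GMac
import Pool.Agent.Lib.MP_d6150d_an.GTreeS
import Pool.Agent.Lib.MP_d6150d_an.Z3cPLK0
import Pool.Agent.Lib.MP_d6150d_an.Z3cPLK1
import Pool.Agent.Lib.MP_d6150d_an.Z3cPLK2
import Pool.Agent.Lib.MP_d6150d_an.Z3cPLK3
import Pool.Agent.Lib.MP_d6150d_an.Z3cPLK4

/-! A generated chart: the inequality. -/

namespace Pool.Agent.Lib.MP_d6150d_an.Z3cPL

set_option linter.unnecessarySeqFocus false
set_option linter.unusedTactic false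
set_option linter.unusedVariables false

def box : List (ℤ × ℤ) := [(0, 140737488355328), (0, 844424930131968), (0, 8796093022208)]

theorem gd : GdT C ts box := .split 1 (.split 0 (.split 1 (.split 1 (chkT_sound k0) (.split 0
    (chkT_sound k1) (chkT_sound k2))) (.split 1 (.split 0 (.split 0 (chkT_sound k3) (chkT_sound k4))
    (chkT_sound k5)) (.split 0 (.split 1 (chkT_sound k6) (chkT_sound k7)) (chkT_sound k8)))) (.split
    2 (chkT_sound k9) (chkT_sound k10))) (.split 2 (.split 0 (.split 1 (.split 0 (.split 1 (.split 0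
    (chkT_sound k11) (chkT_sound k12)) (.split 1 (chkT_sound k13) (chkT_sound k14))) (chkT_sound
    k15)) (.split 2 (.split 0 (.split 1 (chkT_sound k16) (chkT_sound k17)) (chkT_sound k18)) (.split
    1 (chkT_sound k19) (chkT_sound k20)))) (.split 1 (chkT_sound k21) (chkT_sound k22))) (.split 0
    (.split 1 (.split 1 (chkT_sound k23) (chkT_sound k24)) (.split 1 (chkT_sound k25) (chkT_sound
    k26))) (chkT_sound k27)))

set_option maxRecDepth 100000 in
theorem eq {a s b F D t mu x p y e i M v r Z E : ℝ} (hF : F = 1 / 2 + b) (hD : D = -(a * (7 / 16 -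
    b)) - F) (ht : t = -s) (hmu : mu = muR D F t) (hx : x = Real.exp t) (hp : p = ph1 t) (hy : y =
    Real.exp (F * t)) (he : e = Real.exp ((2 * F - 2) * t)) (hi : i = (2 * p * ((1 + D) * x - D) *
    e)⁻¹) (hM : M = mu * i) (hv : v = t ^ 2 * mu) (hr : r = (√(1 + F * (1 - F) * v))⁻¹) (hZ : Z = y
    * ((1 - 2 * F * t * M) ^ 2 + 8 * F * t * M ^ 2 * ((1 + 2 * D) * x - 2 * D) * e * i)) (hE : E =
    (1 + F * (1 + D - F) * v) * r ^ 3) : outR prog 0 [a, s, b] = Z - E := by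
  replace hF : F = (((Int.cast (1) : ℝ) / (Nat.cast 2 : ℝ)) + b) := hF.trans (by push_cast <;> ring)
  replace hD : D = (((Int.cast (-1) : ℝ) * (a * (((Int.cast (7) : ℝ) / (Nat.cast 16 : ℝ)) - b))) -
    F) := hD.trans (by push_cast <;> ring)
  replace ht : t = ((Int.cast (-1) : ℝ) * s) := ht.trans (by push_cast <;> ring)
  replace hmu : mu = (mMu D F t) := hmu.trans (mMu_0 ..)
  replace hy : y = (Real.exp (F * t)) := hy.trans (congrArg Real.exp (by push_cast <;> ring))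
  replace he : e = (Real.exp ((((Int.cast (2) : ℝ) * F) - (Int.cast (2) : ℝ)) * t)) := he.trans
    (congrArg Real.exp (by push_cast <;> ring))
  replace hi : i = ((((Int.cast (2) : ℝ) * p) * ((((Int.cast (1) : ℝ) + D) * x) - D)) * e)⁻¹ :=
    hi.trans (by push_cast <;> ring)
  replace hM : M = (mu * i) := hM.trans (by push_cast <;> ring)
  replace hv : v = ((t * t) * mu) := hv.trans (by push_cast <;> ring)
  replace hr : r = (√((Int.cast (1) : ℝ) + ((F * ((Int.cast (1) : ℝ) - F)) * v)))⁻¹ := hr.trans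
    (congrArg (fun x : ℝ ↦ (√x)⁻¹) (by push_cast <;> ring))
  replace hZ : Z = (y * ((((Int.cast (1) : ℝ) - ((((Int.cast (2) : ℝ) * F) * t) * M)) * ((Int.cast
    (1) : ℝ) - ((((Int.cast (2) : ℝ) * F) * t) * M))) + (((((((Int.cast (8) : ℝ) * F) * t) * (M *
    M)) * ((((Int.cast (1) : ℝ) + ((Int.cast (2) : ℝ) * D)) * x) - ((Int.cast (2) : ℝ) * D))) * e) *
    i))) := hZ.trans (by push_cast <;> ring)
  replace hE : E = (((Int.cast (1) : ℝ) + ((F * (((Int.cast (1) : ℝ) + D) - F)) * v)) * ((r * r) *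
    r)) := hE.trans (by push_cast <;> ring)
  have e0 : (Z - E) = Z - E := by push_cast <;> ring
  subst hF hD ht hmu hx hp hy he hi hM hv hr hZ hE
  exact Eq.trans rfl e0

theorem l0 : ((0 : ℤ) : ℝ) / 2 ^ 47 = 0 := by norm_num
theorem u0 : (1 : ℝ) = ((140737488355328 : ℤ) : ℝ) / 2 ^ 47 := by norm_num
theorem l1 : ((0 : ℤ) : ℝ) / 2 ^ 47 = 0 := by norm_num
theorem u1 : (6 : ℝ) = ((844424930131968 : ℤ) : ℝ) / 2 ^ 47 := by norm_num
theorem l2 : ((0 : ℤ) : ℝ) / 2 ^ 47 = 0 := by norm_num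
theorem u2 : (1 / 16 : ℝ) = ((8796093022208 : ℤ) : ℝ) / 2 ^ 47 := by norm_num

theorem out (H : ∀ t ∈ ts, Hy t box (outR prog 0)) {a s b : ℝ} (a0 : 0 ≤ a) (b0 : a ≤ 1) (a1 : 0 ≤
    s) (b1 : s ≤ 6) (a2 : 0 ≤ b) (b2 : b ≤ 1 / 16) : 0 ≤ outR prog 0 [a, s, b] ∧ ((∀ t ∈ ts, Str t
    [a, s, b]) → 0 < outR prog 0 [a, s, b]) :=
  gd [a, s, b] (.cons ⟨l0.le.trans a0, b0.trans u0.le⟩ (.cons ⟨l1.le.trans a1, b1.trans u1.le⟩
    (.cons ⟨l2.le.trans a2, b2.trans u2.le⟩ (.nil)))) (List.forall_mem_nil _) H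

end Pool.Agent.Lib.MP_d6150d_an.Z3cPL
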