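import Pool.Agent.Lib.MP_d6150d_an.Z3cPRD

/-! A generated chart: the computations. -/

namespace Pool.Agent.Lib.MP_d6150d_an.Z3cPR

theorem k0 : chkT C ts 0xbb0bbbbb1b10000 [(0, 140737488355328), (0, 105553116266496), (0,
    4398046511104)] = true := by
  decide +kernel

theorem k1 : chkT C ts 0xbb0bb2bbb0bb01000 [(0, 70368744177664), (105553116266496, 211106232532992),
    (0, 4398046511104)] = true := by
  decide +kernel

theorem k2 : chkT C ts 0xbb1bb00 [(70368744177664, 140737488355328), (105553116266496,
    211106232532992), (0, 4398046511104)] = true := by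
  decide +kernel

theorem k3 : chkT C ts 0xbb0b0bbbbbb100000 [(0, 140737488355328), (211106232532992,
    316659348799488), (0, 4398046511104)] = true := by
  decide +kernel

theorem k4 : chkT C ts 0xbb2bbbb0bb01000 [(0, 70368744177664), (316659348799488, 422212465065984),
    (0, 4398046511104)] = true := by
  decide +kernel

theorem k5 : chkT C ts 0xbb2b0bb00 [(70368744177664, 140737488355328), (316659348799488,
    422212465065984), (0, 4398046511104)] = true := by
  decide +kernel

end Pool.Agent.Lib.MP_d6150d_an.Z3cPR
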