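import Pool.Agent.Lib.MP_d6150d_an.Z3cPRD

/-! A generated chart: the computations. -/

namespace Pool.Agent.Lib.MP_d6150d_an.Z3cPR

theorem k6 : chkT C ts 0xbbbbbbb21b10000 [(0, 140737488355328), (0, 105553116266496),
    (4398046511104, 8796093022208)] = true := by
  decide +kernel

theorem k7 : chkT C ts 0xbb0b1bb0bbbbb110000 [(0, 140737488355328), (105553116266496,
    211106232532992), (4398046511104, 8796093022208)] = true := by
  decide +kernel

theorem k8 : chkT C ts 0xbb0b0bbbbb10000 [(0, 140737488355328), (211106232532992, 316659348799488),
    (4398046511104, 8796093022208)] = true := by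
  decide +kernel

theorem k9 : chkT C ts 0xbb0bb20bb2bbbb10000 [(0, 140737488355328), (316659348799488,
    422212465065984), (4398046511104, 8796093022208)] = true := by
  decide +kernel

theorem k10 : chkT C ts 0xbb2bbb10bbb0010 [(0, 35184372088832), (422212465065984, 527765581332480),
    (0, 4398046511104)] = true := by
  decide +kernel

theorem k11 : chkT C ts 0xbb2b1 [(35184372088832, 70368744177664), (422212465065984,
    527765581332480), (0, 4398046511104)] = true := by
  decide +kernel

end Pool.Agent.Lib.MP_d6150d_an.Z3cPR
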