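import Pool.Agent.Lib.MP_d6150d_an.Z3cPRD

/-! A generated chart: the computations. -/

namespace Pool.Agent.Lib.MP_d6150d_an.Z3cPR

theorem k12 : chkT C ts 0xbb2bbbbb02000 [(0, 70368744177664), (527765581332480, 580542139465728),
    (0, 4398046511104)] = true := by
  decide +kernel

theorem k13 : chkT C ts 0xbb2bbbbb02000 [(0, 70368744177664), (580542139465728, 633318697598976),
    (0, 4398046511104)] = true := by
  decide +kernel

theorem k14 : chkT C ts 0xbb2bb2bbb0200 [(0, 35184372088832), (633318697598976, 686095255732224),
    (0, 4398046511104)] = true := by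
  decide +kernel

theorem k15 : chkT C ts 0xbb2bb2bbb0200 [(0, 35184372088832), (686095255732224, 738871813865472),
    (0, 4398046511104)] = true := by
  decide +kernel

theorem k16 : chkT C ts 0xbb2bb2bbb0200 [(0, 35184372088832), (738871813865472, 791648371998720),
    (0, 4398046511104)] = true := by
  decide +kernel

theorem k17 : chkT C ts 0xbb2bb0bbb1020 [(0, 35184372088832), (791648371998720, 844424930131968),
    (0, 4398046511104)] = true := by
  decide +kernel

theorem k18 : chkT C ts 0xbbb02bb01 [(35184372088832, 70368744177664), (633318697598976,
    738871813865472), (0, 4398046511104)] = true := by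
  decide +kernel

end Pool.Agent.Lib.MP_d6150d_an.Z3cPR
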