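import Pool.Agent.Lib.MP_d6150d_an.Z3cPRD

/-! A generated chart: the computations. -/

namespace Pool.Agent.Lib.MP_d6150d_an.Z3cPR

theorem k19 : chkT C ts 0xbb0bb02bbb021 [(35184372088832, 70368744177664), (738871813865472,
    844424930131968), (0, 4398046511104)] = true := by
  decide +kernel

theorem k20 : chkT C ts 0xbb0bb2bbb1000 [(0, 70368744177664), (422212465065984, 527765581332480),
    (4398046511104, 8796093022208)] = true := by
  decide +kernel

theorem k21 : chkT C ts 0xbb1bbb00bbb0010 [(0, 70368744177664), (527765581332480, 633318697598976),
    (4398046511104, 8796093022208)] = true := by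
  decide +kernel

theorem k22 : chkT C ts 0xbb2bbb000bb2bbb0001 [(0, 70368744177664), (633318697598976,
    738871813865472), (4398046511104, 8796093022208)] = true := by
  decide +kernel

theorem k23 : chkT C ts 0xbb2bbb000bb2bbb0001 [(0, 70368744177664), (738871813865472,
    844424930131968), (4398046511104, 8796093022208)] = true := by
  decide +kernel

end Pool.Agent.Lib.MP_d6150d_an.Z3cPR
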