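import Pool.Agent.Lib.MP_d6150d_an.Z3cPRD

/-! A generated chart: the computations. -/

namespace Pool.Agent.Lib.MP_d6150d_an.Z3cPR

theorem k30 : chkT C ts 0xbb2bb20bb20 [(105553116266496, 140737488355328), (686095255732224,
    738871813865472), (0, 4398046511104)] = true := by
  decide +kernel

theorem k31 : chkT C ts 0xbb0bb02bbb220 [(105553116266496, 140737488355328), (738871813865472,
    791648371998720), (0, 4398046511104)] = true := by
  decide +kernel

theorem k32 : chkT C ts 0xbb0bb2b02bbb220 [(105553116266496, 140737488355328), (791648371998720,
    844424930131968), (0, 4398046511104)] = true := by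
  decide +kernel

theorem k33 : chkT C ts 0xbb0bb20bb2b00 [(70368744177664, 140737488355328), (422212465065984,
    527765581332480), (4398046511104, 8796093022208)] = true := by
  decide +kernel

theorem k34 : chkT C ts 0xbb0b0bb0b01bb0bb010 [(70368744177664, 140737488355328), (527765581332480,
    633318697598976), (4398046511104, 8796093022208)] = true := by
  decide +kernel

theorem k35 : chkT C ts 0xbb0b0bb00bb0b0bb001 [(70368744177664, 140737488355328), (633318697598976,
    738871813865472), (4398046511104, 8796093022208)] = true := by
  decide +kernel

end Pool.Agent.Lib.MP_d6150d_an.Z3cPR
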