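import Pool.Agent.Lib.MP_d6150d_an.Z3cPRD

/-! A generated chart: the computations. -/

namespace Pool.Agent.Lib.MP_d6150d_an.Z3cPR

theorem k36 : chkT C ts 0xbb0bb20bb00 [(70368744177664, 140737488355328), (738871813865472,
    791648371998720), (4398046511104, 8796093022208)] = true := by
  decide +kernel

theorem k37 : chkT C ts 0xbb2b0bb20bb00 [(70368744177664, 140737488355328), (791648371998720,
    844424930131968), (4398046511104, 8796093022208)] = true := by
  decide +kernel

end Pool.Agent.Lib.MP_d6150d_an.Z3cPR
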