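import Pool.Agent.Lib.MP_d6150d_an.Z3a
import Pool.Agent.Lib.MP_d6150d_an.Z3cPR
import Pool.Agent.Lib.MP_d6150d_an.Z3cPL
import Pool.Agent.Lib.MP_d6150d_an.Z3cMR
import Pool.Agent.Lib.MP_d6150d_an.Z3cML

/-! The compact part. -/

namespace Pool.Agent.Lib.MP_d6150d_an.Z3

open Real Set Filter Topology Asymptotics

variable {a s b F D : ℝ}

theorem ePR (hF : F = 1 / 2 + b) (hD : D = -(a * (7 / 16 - b)) - F) :
    outR Z3cPR.prog 0 [a, s, b] = E3 D F (vR D F s) - Zc D F s :=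
  Z3cPR.eq hF hD rfl rfl rfl rfl rfl rfl rfl rfl rfl rfl rfl

theorem ePL (hF : F = 1 / 2 + b) (hD : D = -(a * (7 / 16 - b)) - F) :
    outR Z3cPL.prog 0 [a, s, b] = Zc D F (-s) - E3 D F (vR D F (-s)) :=
  Z3cPL.eq hF hD rfl rfl rfl rfl rfl rfl rfl rfl rfl rfl rfl rfl

theorem eMR (hF : F = 1 / 2 - b) (hD : D = -a - F) :
    outR Z3cMR.prog 0 [a, s, b] = E3 D F (vR D F s) - Zc D F s :=
  Z3cMR.eq hF hD rfl rfl rfl rfl rfl rfl rfl rfl rfl rfl rfl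

theorem eML (hF : F = 1 / 2 - b) (hD : D = -a - F) :
    outR Z3cML.prog 0 [a, s, b] = Zc D F (-s) - E3 D F (vR D F (-s)) :=
  Z3cML.eq hF hD rfl rfl rfl rfl rfl rfl rfl rfl rfl rfl rfl rfl

theorem str3 (h : 0 < s) (k : 0 < a ∨ 0 < b) :
    ∀ t ∈ [Dt.ct 0 (.dv 3 (.dv 2 .pos)) (.dv 3 .pos) (.dv 3 .pos)], Str t [a, s, b] := by
  simp only [List.mem_singleton, forall_eq, Str, h]
  tauto

theorem cP (hF : F = 1 / 2 + b) (hD : D = -(a * (7 / 16 - b)) - F) (a0 : 0 ≤ a) (a1 : a ≤ 1)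
    (b0 : 0 ≤ b) (b1 : b ≤ 1 / 16) (k : 0 < a ∨ 0 < b) (s0 : 0 < s) (s1 : s ≤ 6) :
    0 < E3 D F (vR D F s) - Zc D F s ∧ 0 < Zc D F (-s) - E3 D F (vR D F (-s)) :=
  ⟨((Z3cPR.out (hy3 (fun _ _ ↦ centerR.congr_left fun _ ↦ (ePR rfl rfl).symm) fun _ h ↦
    (line 1 (by simp) h.ne').congr_left fun _ ↦ (ePR (by ring) (by ring)).symm)
    a0 a1 s0.le s1 b0 b1).2 (str3 s0 k)).trans_eq (ePR hF hD),
  ((Z3cPL.out (hy3 (fun _ _ ↦ centerL.congr_left fun _ ↦ (ePL rfl rfl).symm) fun _ h ↦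
    (line 1 (by simp) (neg_neg_iff_pos.2 h).ne).neg_left.congr_left fun _ ↦
      (neg_sub _ _).trans (ePL (by ring) (by ring)).symm)
    a0 a1 s0.le s1 b0 b1).2 (str3 s0 k)).trans_eq (ePL hF hD)⟩

theorem cM (hF : F = 1 / 2 - b) (hD : D = -a - F) (a0 : 0 ≤ a) (a1 : a ≤ 1 / 16)
    (b0 : 0 < b) (b1 : b ≤ 1 / 16) (s0 : 0 < s) (s1 : s ≤ 6) :
    0 < E3 D F (vR D F s) - Zc D F s ∧ 0 < Zc D F (-s) - E3 D F (vR D F (-s)) :=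
  ⟨((Z3cMR.out (hy3 (fun _ _ ↦ centerR.congr_left fun _ ↦ (eMR rfl rfl).symm) fun _ h ↦
    (line (-1) (by simp) h.ne').congr_left fun _ ↦ (eMR (by ring) (by ring)).symm)
    a0 a1 s0.le s1 b0.le b1).2 (str3 s0 (.inr b0))).trans_eq (eMR hF hD),
  ((Z3cML.out (hy3 (fun _ _ ↦ centerL.congr_left fun _ ↦ (eML rfl rfl).symm) fun _ h ↦
    (line (-1) (by simp) (neg_neg_iff_pos.2 h).ne).neg_left.congr_left fun _ ↦
      (neg_sub _ _).trans (eML (by ring) (by ring)).symm)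
    a0 a1 s0.le s1 b0.le b1).2 (str3 s0 (.inr b0))).trans_eq (eML hF hD)⟩

end Pool.Agent.Lib.MP_d6150d_an.Z3
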