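import Pool.Agent.Lib.MP_d6150d_an.GTree

/-! A generated chart: the program. -/

namespace Pool.Agent.Lib.MP_d6150d_an.Z3cMR

def prog1 : List Ins := .mul 0 27 :: .inv 0 :: .mul 22 0 :: .mul 47 0 :: .sub true 61 0 :: .mul 0 0
    :: .smul 8 60 :: .mul 0 54 :: .mul 5 5 :: .mul 1 0 :: .smul 2 61 :: .add true 68 0 :: .mul 0 18
    :: .sub true 0 2 :: .mul 4 0 :: .mul 0 42 :: .mul 0 14 :: .add true 11 0 :: .mul 25 0 :: .sub
    false 28 0 :: .cpy 0 :: []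

def prog : List Ins := .int 1 :: .cst 1 2 :: .var 2 :: .sub true 1 0 :: .var 0 :: .smul (-1) 0 ::
    .sub false 0 2 :: .add true 6 0 :: .sub true 0 4 :: .mul 5 0 :: .var 1 :: .mul 0 0 :: .smul 2 8
    :: .mul 0 2 :: .tri 0 :: .mul 4 0 :: .sub true 5 17 :: .mul 0 8 :: .tri 0 :: .mul 4 0 :: .sub
    false 6 0 :: .smul 2 1 :: .sub false 8 0 :: .int 2 :: .sub true 15 0 :: .mul 0 18 :: .tri 0 ::
    .mul 4 0 :: .add true 7 0 :: .mul 28 0 :: .add true 11 0 :: .smul 2 0 :: .mul 26 0 :: .mul 29 0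
    :: .add true 39 0 :: .sub true 40 37 :: .mul 38 0 :: .mul 0 4 :: .add false 43 0 :: .rsq 0 ::
    .mul 0 0 :: .mul 0 1 :: .mul 7 0 :: .mul 45 38 :: .exp 0 :: .tri 40 :: .smul 2 1 :: .mul 47 3 ::
    .sub false 0 49 :: .mul 2 0 :: prog1

def vs : List Vr := [⟨2, 1, false, false⟩, ⟨8, 3, false, false⟩, ⟨3, 2, false, false⟩]

def C : Chart := ⟨vs, prog, [], 1, 3⟩

def ts : List Dt := [(.ct 0 (.dv 3 (.dv 2 .pos)) (.dv 3 .pos) (.dv 3 .pos))]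

end Pool.Agent.Lib.MP_d6150d_an.Z3cMR
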