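import Pool.Agent.Lib.MP_d6150d_an.GTree

/-! A generated chart: the program. -/

namespace Pool.Agent.Lib.MP_d6150d_an.Z3cPL

def prog1 : List Ins := .smul 2 31 :: .add true 51 0 :: .mul 0 19 :: .sub true 0 2 :: .mul 4 0 ::
    .mul 0 30 :: .mul 0 14 :: .add true 11 0 :: .mul 59 0 :: .sub true 22 64 :: .mul 65 0 :: .mul 64
    64 :: .mul 0 30 :: .mul 2 0 :: .add true 64 0 :: .sub true 65 70 :: .mul 71 0 :: .mul 0 4 ::
    .add false 68 0 :: .rsq 0 :: .mul 0 0 :: .mul 0 1 :: .mul 7 0 :: .sub false 14 0 :: .cpy 0 :: []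

def prog : List Ins := .cst 1 2 :: .var 2 :: .add false 1 0 :: .var 1 :: .smul (-1) 0 :: .mul 2 0 ::
    .exp 0 :: .int 1 :: .smul 2 5 :: .mul 0 4 :: .tri 0 :: .mul 4 0 :: .sub true 5 6 :: .mul 0 10 ::
    .tri 0 :: .mul 4 0 :: .sub false 6 0 :: .var 0 :: .cst 7 16 :: .sub true 0 21 :: .mul 2 0 ::
    .smul (-1) 0 :: .sub false 0 23 :: .smul 2 7 :: .sub false 14 0 :: .int 2 :: .sub true 21 0 ::
    .mul 0 26 :: .tri 0 :: .mul 4 0 :: .add true 7 0 :: .mul 10 0 :: .add false 17 0 :: .smul 2 0 ::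
    .tri 35 :: .smul 2 1 :: .add true 36 17 :: .mul 0 4 :: .sub false 0 19 :: .mul 3 0 :: .mul 0 15
    :: .inv 0 :: .mul 10 0 :: .mul 41 0 :: .sub false 44 0 :: .mul 0 0 :: .smul 8 51 :: .mul 0 50 ::
    .mul 5 5 :: .mul 1 0 :: prog1

def vs : List Vr := [⟨2, 1, false, false⟩, ⟨8, 3, false, false⟩, ⟨3, 2, false, false⟩]

def C : Chart := ⟨vs, prog, [], 1, 3⟩

def ts : List Dt := [(.ct 0 (.dv 3 (.dv 2 .pos)) (.dv 3 .pos) (.dv 3 .pos))]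

end Pool.Agent.Lib.MP_d6150d_an.Z3cPL
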