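import Pool.Agent.Lib.MP_d6150d_an.GTree

/-! A generated chart: the program. -/

namespace Pool.Agent.Lib.MP_d6150d_an.Z3tML

def prog1 : List Ins := .mul 0 1 :: .mul 5 0 :: .mul 35 0 :: .sub false 10 0 :: .cpy 0 :: []

def prog : List Ins := .int 1 :: .var 0 :: .var 1 :: .var 2 :: .mul 1 0 :: .mul 3 0 :: .smul (-1) 0
    :: .cst 1 2 :: .sub true 0 3 :: .sub false 2 0 :: .smul 2 0 :: .add true 10 0 :: .var 3 :: .mul
    1 0 :: .mul 11 1 :: .smul 2 11 :: .sub true 15 0 :: .mul 2 0 :: .sub false 17 0 :: .mul 9 0 ::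
    .sub true 19 11 :: .inv 0 :: .mul 2 0 :: .sub false 9 0 :: .smul (-1) 14 :: .mul 13 10 :: .add
    false 1 0 :: .add true 26 17 :: .mul 13 13 :: .mul 1 0 :: .sub false 3 0 :: .inv 0 :: .mul 8 0
    :: .mul 0 0 :: .sub true 10 3 :: .mul 0 3 :: .mul 0 0 :: .sub false 11 26 :: .mul 1 0 :: .mul 0
    7 :: .inv 31 :: .mul 1 0 :: .sub false 8 0 :: .sub true 15 34 :: .mul 0 9 :: .add false 27 0 ::
    .mul 25 11 :: .add false 29 0 :: .rsq 0 :: .mul 0 0 :: prog1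

def vs : List Vr := [⟨2, 1, false, false⟩, ⟨2, 1, false, false⟩, ⟨3, 2, false, false⟩, ⟨1, 0, true,
    false⟩]

def C : Chart := ⟨vs, prog, [], 1, 3⟩

def ts : List Dt := [(.ct 0 (.dv 1 (.dv 2 .pos)) (.dv 1 (.dv 1 .pos)) (.dv 1 (.dv 1 .pos))), (.nx
    (.dv 1 (.dv 1 .pos)))]

end Pool.Agent.Lib.MP_d6150d_an.Z3tML
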