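import Pool.Agent.Lib.MP_d6150d_an.GTree

/-! A generated chart: the program. -/

namespace Pool.Agent.Lib.MP_d6150d_an.Z3tMR

def prog1 : List Ins := .mul 35 31 :: .sub false 35 0 :: .mul 2 0 :: .mul 0 9 :: .inv 43 :: .mul 1 0
    :: .add false 9 0 :: .sub false 14 0 :: .cpy 0 :: []

def prog : List Ins := .var 1 :: .var 3 :: .mul 1 0 :: .int 1 :: .var 0 :: .var 2 :: .mul 5 0 ::
    .mul 2 0 :: .smul (-1) 0 :: .cst 1 2 :: .sub true 0 3 :: .sub false 2 0 :: .add false 8 0 ::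
    .sub true 0 2 :: .smul 2 2 :: .add true 11 0 :: .smul 2 10 :: .sub true 13 0 :: .mul 15 0 ::
    .mul 3 0 :: .sub false 7 0 :: .mul 2 2 :: .mul 10 0 :: .add true 2 0 :: .sub true 20 19 :: .mul
    8 0 :: .mul 8 7 :: .sub false 23 0 :: .mul 16 0 :: .sub true 25 18 :: .inv 0 :: .mul 2 0 :: .sub
    false 6 0 :: .mul 30 0 :: .sub false 10 0 :: .mul 21 0 :: .add false 33 0 :: .mul 7 2 :: .add
    false 35 0 :: .rsq 0 :: .mul 0 0 :: .mul 0 1 :: .mul 5 0 :: .inv 19 :: .mul 11 0 :: .mul 0 0 ::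
    .mul 43 0 :: .mul 12 3 :: .mul 0 0 :: .mul 31 0 :: prog1

def vs : List Vr := [⟨2, 1, false, false⟩, ⟨2, 1, false, false⟩, ⟨3, 2, false, false⟩, ⟨1, 0, true,
    false⟩]

def C : Chart := ⟨vs, prog, [], 1, 3⟩

def ts : List Dt := [(.ct 0 (.dv 1 (.dv 2 .pos)) (.dv 1 (.dv 1 .pos)) (.dv 1 (.dv 1 .pos))), (.nx
    (.dv 1 (.dv 1 .pos)))]

end Pool.Agent.Lib.MP_d6150d_an.Z3tMR
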