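import Pool.Agent.Lib.MP_d6150d_an.GTree

/-! A generated chart: the program. -/

namespace Pool.Agent.Lib.MP_d6150d_an.Z3tPL

def prog1 : List Ins := .add false 31 0 :: .rsq 0 :: .mul 0 0 :: .mul 0 1 :: .mul 5 0 :: .sub false
    9 0 :: .cpy 0 :: []

def prog : List Ins := .int 1 :: .var 2 :: .smul 2 0 :: .sub true 2 0 :: .var 0 :: .cst 7 16 :: .var
    1 :: .mul 0 5 :: .sub false 2 0 :: .mul 4 0 :: .smul (-1) 0 :: .cst 1 2 :: .add false 0 4 ::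
    .sub false 2 0 :: .smul 2 0 :: .add true 14 0 :: .var 3 :: .mul 1 0 :: .mul 11 1 :: .sub false
    18 0 :: .mul 6 0 :: .sub true 20 8 :: .inv 0 :: .mul 2 0 :: .sub false 6 0 :: .smul (-1) 11 ::
    .mul 7 22 :: .mul 11 0 :: .add false 2 0 :: .add true 28 15 :: .mul 3 3 :: .mul 1 0 :: .sub
    false 3 0 :: .inv 0 :: .mul 9 0 :: .mul 0 0 :: .sub true 11 3 :: .mul 0 3 :: .mul 0 0 :: .sub
    false 11 24 :: .mul 1 0 :: .mul 0 7 :: .inv 29 :: .mul 1 0 :: .sub true 8 0 :: .mul 41 0 :: .sub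
    true 16 33 :: .mul 0 10 :: .add true 29 0 :: .mul 27 12 :: prog1

def vs : List Vr := [⟨2, 1, false, false⟩, ⟨2, 1, false, false⟩, ⟨3, 2, false, false⟩, ⟨1, 0, true,
    false⟩]

def C : Chart := ⟨vs, prog, [], 1, 3⟩

def ts : List Dt := [(.ct 0 (.dv 1 (.dv 2 .pos)) .pos .pos)]

end Pool.Agent.Lib.MP_d6150d_an.Z3tPL
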