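import Pool.Agent.Lib.MP_d6150d_an.GTree

/-! A generated chart: the program. -/

namespace Pool.Agent.Lib.MP_d6150d_an.Z3tPR

def prog1 : List Ins := .mul 13 3 :: .mul 0 0 :: .mul 31 44 :: .sub true 31 0 :: .mul 2 0 :: .mul 0
    8 :: .inv 39 :: .mul 1 0 :: .add false 8 0 :: .sub false 13 0 :: .cpy 0 :: []

def prog : List Ins := .int 1 :: .var 2 :: .smul 2 0 :: .sub true 2 0 :: .var 1 :: .mul 0 0 :: .var
    3 :: .mul 1 0 :: .mul 0 4 :: .var 0 :: .cst 7 16 :: .mul 6 9 :: .sub true 1 0 :: .mul 3 0 ::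
    .smul (-1) 0 :: .cst 1 2 :: .add false 0 4 :: .sub false 2 0 :: .add false 17 0 :: .sub true 0 2
    :: .smul 2 2 :: .add true 20 0 :: .mul 0 14 :: .sub false 4 0 :: .mul 16 16 :: .mul 7 0 :: .add
    true 2 0 :: .mul 22 20 :: .mul 23 10 :: .sub false 25 21 :: .mul 1 0 :: .sub true 30 14 :: .inv
    0 :: .mul 2 0 :: .sub true 12 0 :: .mul 7 0 :: .sub false 9 0 :: .mul 17 0 :: .add true 29 0 ::
    .mul 35 0 :: .mul 8 3 :: .add false 32 0 :: .rsq 0 :: .mul 0 0 :: .mul 0 1 :: .mul 5 0 :: .inv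
    19 :: .mul 12 0 :: .mul 0 0 :: .mul 42 0 :: prog1

def vs : List Vr := [⟨2, 1, false, false⟩, ⟨2, 1, false, false⟩, ⟨3, 2, false, false⟩, ⟨2, 0, true,
    false⟩]

def C : Chart := ⟨vs, prog, [], 1, 3⟩

def ts : List Dt := [(.ct 0 (.dv 1 (.dv 2 .pos)) .pos .pos)]

end Pool.Agent.Lib.MP_d6150d_an.Z3tPR
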