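import Pool.Agent.Lib.MP_d6150d_an.Z0
import Pool.Agent.Lib.MP_d6150d_an.KNJ

/-! The square where the period decreases: the separator and the basic identities. -/

namespace Pool.Agent.Lib.MP_d6150d_an.Zm

open Real Set Filter Topology Asymptotics

variable (d F : ℝ)

/-- the square root in the separator -/
noncomputable def sS (v : ℝ) : ℝ := √(1 + F * (1 + 2 * d - F) / 3 * v)

/-- the difference with the separator -/
noncomputable def dl (t : ℝ) : ℝ := ZR (-d) F t - (sS d F (vR (-d) F t))⁻¹ ^ 3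

/-- the function `w - 2 F y` -/
noncomputable def aZ (t : ℝ) : ℝ :=
  t * ((1 - 2 * d) * exp t * ph1 (-((2 * F - 1) * t)) + 2 * d * ph1 ((2 - 2 * F) * t))

variable {d F} {t : ℝ}

theorem mem (d0 : 0 ≤ d) (d1 : d ≤ 1 / 2) (t : ℝ) : t ∈ JR (-d) := by
  have := exp_pos t
  show 0 < (1 + -d) * exp t - -d
  nlinarith

theorem a_eq (t : ℝ) : wR (-d) t - 2 * F * yR (-d) F t = aZ d F t := by
  have h1 := exp_eq_ph (2 * F * t)
  have h3 := exp_eq_ph (-((2 * F - 1) * t))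
  have h4 := exp_eq_ph ((2 - 2 * F) * t)
  have k3 := ph1_neg ((2 * F - 1) * t)
  have k4 := ph1_neg ((2 - 2 * F) * t)
  have e1 : exp ((2 - 2 * F) * t) * exp (2 * F * t) = exp t ^ 2 := by
    rw [sq, ← exp_add, ← exp_add]; ring_nf
  have e3 : exp ((2 - 2 * F) * t) * exp ((2 * F - 1) * t) = exp t := by rw [← exp_add]; ring_nf
  have e4 : exp t * exp (-((2 * F - 1) * t)) = exp ((2 - 2 * F) * t) := by rw [← exp_add]; ring_nf
  rw [show -((2 - 2 * F) * t) = (2 * F - 2) * t by ring] at k4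
  simp only [wR, PR, QR, yR, aZ, vR_eq]
  rw [k3]
  linear_combination (1 - d) * (exp ((2 - 2 * F) * t) * h1 - e1) +
    2 * F * (1 - 2 * d) * t * ph1 (-((2 * F - 1) * t)) * e3 - 2 * F * d * t * k4 +
    (1 - 2 * d) * (exp t * h3 - e4) + d * h4

theorem Z_id (ht : t ∈ JR (-d)) (h0 : t ≠ 0) : wR (-d) t ^ 3 * ZR (-d) F t = exp (F * t) *
    (wR (-d) t * aZ d F t ^ 2 + 4 * F * yR (-d) F t ^ 2 * ((1 - 2 * d) * exp t + 2 * d)) := by
  rw [ZR_hom ht h0 (l := 1) rfl rfl rfl (one_mul _).symm (one_mul _).symm, ← a_eq]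
  simp only [wR, QR]; ring

theorem v_nonneg (ht : t ∈ JR (-d)) : 0 ≤ vR (-d) F t := by rw [← gR_sq ht]; positivity

theorem sS_sq (c0 : 0 ≤ F * (1 + 2 * d - F)) {v : ℝ} (v0 : 0 ≤ v) :
    sS d F v ^ 2 = 1 + F * (1 + 2 * d - F) / 3 * v := sq_sqrt (by positivity)

theorem one_le_sS (c0 : 0 ≤ F * (1 + 2 * d - F)) {v : ℝ} (v0 : 0 ≤ v) : 1 ≤ sS d F v :=
  one_le_sqrt.2 (le_add_of_nonneg_right (by positivity))

theorem dl_zero : dl d F 0 = 0 := by simp [dl, sS, ZR, U1, U2, yR, vR]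

theorem dl_center (F0 : 0 < F) (c0 : 0 ≤ F * (1 + 2 * d - F)) :
    dl d F =O[𝓝[≠] 0] fun t ↦ t ^ 3 := by
  obtain ⟨a6, J⟩ := o0.K_jet (D := -d) (F := F)
  have cs : Continuous (sS d F) := by unfold sS; fun_prop
  have s0 : sS d F 0 = 1 := by simp [sS]
  have h7 := (J.cast (b4 := 0) (b6 := (1 + 2 * d - F) / 2) rfl rfl rfl (by simp [o0]) (by simp [o0])
    (by simp [o0]) (by simp only [o0, ja2]; ring)).center7
    (E := fun v ↦ -(F * (1 + 2 * d - F) / 3) ^ 2 * (3 * sS d F v ^ 3 + 6 * sS d F v ^ 2 +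
      4 * sS d F v + 2) / (2 * F * sS d F v ^ 3 * (sS d F v + 1) ^ 2))
    (ContinuousAt.div (by fun_prop) (by fun_prop) (by rw [s0]; positivity))
  have m : ContinuousAt (fun t ↦ -F / muR (-d) F t ^ 2) 0 :=
    ContinuousAt.div continuousAt_const ((muR_an (-d) F 0).continuousAt.pow 2) (by simp [muR_zero])
  refine (((h7.mul (m.isBigO_one ℝ)).mono nhdsWithin_le_nhds).mul
    (isBigO_refl (fun t : ℝ ↦ (t ^ 4)⁻¹) _)).congr' ?_ ?_
  · filter_upwards [self_mem_nhdsWithin,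
      nhdsWithin_le_nhds ((JR_open _).mem_nhds (zero_mem_JR (-d)))] with t h0 ht
    have h0 : t ≠ 0 := h0
    have e := o0_K (F := F) ht h0
    have v0 := v_nonneg (F := F) ht
    have e2 := sS_sq c0 v0
    have e1 := one_le_sS c0 v0
    have m0 := muR_pos (F := F) ht
    rw [dl]
    generalize sS d F (vR (-d) F t) = s at *
    have e3 : vR (-d) F t = t ^ 2 * muR (-d) F t := rfl
    have e4 : (F * (1 + 2 * d - F) / 3) ^ 2 * vR (-d) F t ^ 2 = (s - 1) ^ 2 * (s + 1) ^ 2 := by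
      linear_combination -(s ^ 2 - 1 + F * (1 + 2 * d - F) / 3 * vR (-d) F t) * e2
    have e5 : F * (vR (-d) F t ^ 2 * (-(F * (1 + 2 * d - F) / 3) ^ 2 *
        (3 * s ^ 3 + 6 * s ^ 2 + 4 * s + 2) / (2 * F * s ^ 3 * (s + 1) ^ 2))) =
        1 - s⁻¹ ^ 3 - 3 / 2 * (s ^ 2 - 1) := by
      have : F * (vR (-d) F t ^ 2 * (-(F * (1 + 2 * d - F) / 3) ^ 2 *
        (3 * s ^ 3 + 6 * s ^ 2 + 4 * s + 2) / (2 * F * s ^ 3 * (s + 1) ^ 2))) =
          -((F * (1 + 2 * d - F) / 3) ^ 2 * vR (-d) F t ^ 2) * (3 * s ^ 3 + 6 * s ^ 2 + 4 * s + 2) /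
            (2 * s ^ 3 * (s + 1) ^ 2) := by field_simp
      rw [this, e4]; field_simp; ring
    generalize -(F * (1 + 2 * d - F) / 3) ^ 2 * (3 * s ^ 3 + 6 * s ^ 2 + 4 * s + 2) /
      (2 * F * s ^ 3 * (s + 1) ^ 2) = E at *
    apply mul_left_cancel₀ (pow_ne_zero 2 (vR_pos (F := F) ht h0).ne')
    have e6 : vR (-d) F t ^ 2 * ((muR (-d) F t ^ 2)⁻¹ * (t ^ 4)⁻¹) = 1 := by rw [e3]; field_simp
    rw [div_eq_mul_inv]
    linear_combination -F * (o0.K (-d) F t - ((1 + 2 * d - F) / 2 * vR (-d) F t ^ 3 +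
      vR (-d) F t ^ 4 * E)) * e6 - e + vR (-d) F t ^ 2 * e5 - 3 / 2 * vR (-d) F t ^ 2 * e2
  · filter_upwards [self_mem_nhdsWithin] with t h0
    have h0 : t ≠ 0 := h0
    field_simp

theorem dl_I2 (t : ℝ) : dl 0 1 t = 0 := by
  by_cases h0 : t = 0
  · rw [h0, dl_zero]
  have ht := mem le_rfl (by norm_num : (0 : ℝ) ≤ 1 / 2) t
  have h1 := Z_id (F := 1) ht h0
  have h2 := a_eq (d := 0) (F := 1) t
  have h3 : aZ 0 1 t = exp t - 1 := by
    have := ph1_neg t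
    rw [aZ, show -((2 * 1 - 1) * t) = -t by ring]
    linear_combination -t * this - exp_eq_ph t
  have h4 : wR (-0) t = (exp t - 1) * exp t := by rw [wR_eq, om]; ring
  have h5 : yR (-0) 1 t = (exp t - 1) ^ 2 / 2 := by linear_combination -h2 / 2 - h3 / 2 + h4 / 2
  have h6 : ZR (-0) 1 t = 1 := by
    apply mul_left_cancel₀ (pow_ne_zero 3 (wR_ne ht h0))
    rw [h1, h3, h4, h5, one_mul]; ring
  rw [dl, h6]; simp [sS]

theorem dl_I1 (t : ℝ) : dl (1 / 2) (1 / 2) t = 0 := by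
  by_cases h0 : t = 0
  · rw [h0, dl_zero]
  have ht := mem (by norm_num : (0 : ℝ) ≤ 1 / 2) le_rfl t
  have h1 := Z_id (F := 1 / 2) ht h0
  have h2 := a_eq (d := 1 / 2) (F := 1 / 2) t
  have h3 : aZ (1 / 2) (1 / 2) t = exp t - 1 := by
    rw [aZ, show (2 - 2 * (1 / 2)) * t = t by ring]
    linear_combination -exp_eq_ph t
  have h4 : wR (-(1 / 2)) t = (exp t - 1) * (exp t + 1) / 2 := by rw [wR_eq, om]; ring
  have h5 : yR (-(1 / 2)) (1 / 2) t = (exp t - 1) ^ 2 / 2 := by linear_combination -h2 - h3 + h4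
  have h7 : exp t = exp (1 / 2 * t) ^ 2 := by rw [sq, ← exp_add]; ring_nf
  have h8 : vR (-(1 / 2)) (1 / 2) t * exp t = (exp t - 1) ^ 2 := by
    rw [yR, show (2 - 2 * (1 / 2)) * t = t by ring] at h5; linarith
  have p := exp_pos (1 / 2 * t)
  have h9 : sS (1 / 2) (1 / 2) (vR (-(1 / 2)) (1 / 2) t) = (exp t + 1) / (2 * exp (1 / 2 * t)) := by
    rw [sS, sqrt_eq_iff_mul_self_eq (by nlinarith [v_nonneg (F := 1 / 2) ht]) (by positivity)]
    generalize exp (1 / 2 * t) = h at *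
    field_simp
    rw [← h7]; linear_combination 3 * h8
  rw [dl, h9, sub_eq_zero]
  apply mul_left_cancel₀ (pow_ne_zero 3 (wR_ne ht h0))
  rw [h1, h3, h4, h5, h7]; field_simp; ring

/-- the admissible parameters -/
structure Adm (d F : ℝ) : Prop where
  d0 : 0 ≤ d
  d1 : d ≤ 1 / 2
  F0 : 1 / 2 ≤ F
  F1 : F ≤ 1 + d

theorem Adm.c0 (H : Adm d F) : 0 ≤ F * (1 + 2 * d - F) :=
  mul_nonneg (by linarith [H.F0]) (by linarith [H.F1, H.d0])

theorem Adm.mem (H : Adm d F) (t : ℝ) : t ∈ JR (-d) := Zm.mem H.d0 H.d1 t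

theorem sqrt_eq (d F t a : ℝ) {x : ℝ}
    (e : x = exp (2 * a) * (1 + F * (1 + 2 * d - F) / 3 * vR (-d) F t)) :
    (√x)⁻¹ = exp (-a) * (sS d F (vR (-d) F t))⁻¹ := by
  rw [e, sqrt_mul (exp_pos _).le, two_mul, exp_add, sqrt_mul_self (exp_pos _).le, mul_inv, exp_neg, sS]

theorem cvx {θ : ℝ} (h0 : 0 ≤ θ) (h1 : θ ≤ 1) (s : ℝ) : exp (θ * s) ≤ 1 - θ + θ * exp s := by
  simpa using convexOn_exp.2 (mem_univ 0) (mem_univ s) (sub_nonneg.2 h1) h0 (sub_add_cancel 1 θ)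

theorem ph1_le {z w : ℝ} (h : z ≤ w) (h0 : 0 ≤ w) : ph1 z ≤ exp w := by
  have e := exp_eq_ph z
  rcases lt_trichotomy z 0 with k | k | k
  · nlinarith [add_one_le_exp z, one_le_exp h0]
  · rw [k, ph1_zero]; exact one_le_exp h0
  · have h1 := add_one_le_exp (-z)
    have h2 : exp z * exp (-z) = 1 := by rw [← exp_add]; simp
    have h3 := exp_pos z
    refine le_trans (le_of_mul_le_mul_left ?_ k) (exp_le_exp.2 h)
    nlinarith

theorem ph1_mono (a : ℝ) {s : ℝ} (h : s ≤ t) : s * ph1 (a * s) ≤ t * ph1 (a * t) :=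
  monotone_of_deriv_nonneg (fun x ↦ (hasDerivAt_ph1 a x).differentiableAt)
    (fun x ↦ by rw [(hasDerivAt_ph1 a x).deriv]; exact (exp_pos _).le) h

theorem exp_two : 7.38 ≤ exp 2 := by
  have := pow_le_pow_left₀ (by norm_num) exp_one_gt_d9.le 2
  rw [← exp_nat_mul] at this
  norm_num at this ⊢; linarith

theorem exp_three : 20 ≤ exp 3 := by
  have := pow_le_pow_left₀ (by norm_num) exp_one_gt_d9.le 3
  rw [← exp_nat_mul] at this
  norm_num at this ⊢; linarith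

end Pool.Agent.Lib.MP_d6150d_an.Zm
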