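import Pool.Agent.Lib.MP_d6150d_an.ZmALD

/-! A generated chart: the computations. -/

namespace Pool.Agent.Lib.MP_d6150d_an.ZmAL

theorem k0 : chk C 0x888810088188800910188880008819992201888800088199922092122 [(0, 35184372088832),
    (0, 17592186044416), (0, 140737488355328)] = true := by
  decide +kernel

theorem k1 : chk C 0x888810088188091088188091021 [(0, 35184372088832), (0, 17592186044416),
    (140737488355328, 281474976710656)] = true := by
  decide +kernel

theorem k2 : chk C 0x8828088082880808802118881188811882881821222 [(35184372088832, 70368744177664),
    (0, 17592186044416), (0, 281474976710656)] = true := by
  decide +kernel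

theorem k3 : chk C 0x882808828018818810088188880100881888801008818288881000222 [(0, 70368744177664),
    (17592186044416, 35184372088832), (0, 281474976710656)] = true := by
  decide +kernel

theorem k4 : chk C 0x8828808802088800881888118910018880088288800910121 [(0, 35184372088832), (0,
    17592186044416), (281474976710656, 562949953421312)] = true := by
  decide +kernel

theorem k5 : chk C 0x882808080881808088801802881018808280881808812880012 [(35184372088832,
    70368744177664), (0, 8796093022208), (281474976710656, 562949953421312)] = true := by
  decide +kernel

end Pool.Agent.Lib.MP_d6150d_an.ZmAL
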