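import Pool.Agent.Lib.MP_d6150d_an.ZmALD

/-! A generated chart: the computations. -/

namespace Pool.Agent.Lib.MP_d6150d_an.ZmAL

theorem k6 : chk C 0x8818088180288108800881828810802 [(35184372088832, 70368744177664),
    (8796093022208, 17592186044416), (281474976710656, 562949953421312)] = true := by
  decide +kernel

theorem k7 : chk C 0x88180881802881088008818088180288108800188288218080881828080128808802882882010
    [(0, 70368744177664), (17592186044416, 35184372088832), (281474976710656, 562949953421312)] =
    true := by
  decide +kernel

end Pool.Agent.Lib.MP_d6150d_an.ZmAL
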