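import Pool.Agent.Lib.MP_d6150d_an.ZmARD

/-! A generated chart: the computations. -/

namespace Pool.Agent.Lib.MP_d6150d_an.ZmAR

theorem k0 : chk C 0x8888000881992881902018888000881881999220018888000890122 [(0, 35184372088832),
    (0, 17592186044416), (0, 105553116266496)] = true := by
  decide +kernel

theorem k1 : chk C 0x888820088188189108819920201 [(0, 35184372088832), (0, 17592186044416),
    (105553116266496, 211106232532992)] = true := by
  decide +kernel

theorem k2 : chk C 0x888888282000088188188882008901088188820910201 [(0, 35184372088832), (0,
    17592186044416), (211106232532992, 422212465065984)] = true := by
  decide +kernel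

theorem k3 : chk C 0x88188882008888200208818882008888100881888008882010222 [(0, 35184372088832),
    (17592186044416, 35184372088832), (0, 422212465065984)] = true := by
  decide +kernel

theorem k4 : chk C 0x88088180288288108828812228808088088088002188088088021880888011888112221
    [(35184372088832, 70368744177664), (0, 35184372088832), (0, 422212465065984)] = true := by
  decide +kernel

theorem k5 : chk C 0x88188188882009921088881820089092120 [(0, 17592186044416), (0, 8796093022208),
    (422212465065984, 633318697598976)] = true := by
  decide +kernel

end Pool.Agent.Lib.MP_d6150d_an.ZmAR
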