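import Pool.Agent.Lib.MP_d6150d_an.ZmARD

/-! A generated chart: the computations. -/

namespace Pool.Agent.Lib.MP_d6150d_an.ZmAR

theorem k6 : chk C 0x88188188188881820088992920010888882000899201200 [(0, 17592186044416), (0,
    8796093022208), (633318697598976, 844424930131968)] = true := by
  decide +kernel

theorem k7 : chk C 0x88821 [(17592186044416, 35184372088832), (0, 8796093022208), (422212465065984,
    844424930131968)] = true := by
  decide +kernel

theorem k8 : chk C 0x88882888888818200000888882820002000 [(0, 35184372088832), (8796093022208,
    17592186044416), (422212465065984, 844424930131968)] = true := by
  decide +kernel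

theorem k9 : chk C 0x8808808880121 [(35184372088832, 70368744177664), (0, 17592186044416),
    (422212465065984, 844424930131968)] = true := by
  decide +kernel

theorem k10 : chk C 0x888028818818818888888811000008888208822020000 [(0, 70368744177664),
    (17592186044416, 35184372088832), (422212465065984, 844424930131968)] = true := by
  decide +kernel

end Pool.Agent.Lib.MP_d6150d_an.ZmAR
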