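import Pool.Agent.Lib.MP_d6150d_an.ZmBLD

/-! A generated chart: the computations. -/

namespace Pool.Agent.Lib.MP_d6150d_an.ZmBL

theorem k0 : chk C 0x888800088811888118809921001888882111888082088828821188088029929210102 [(0,
    8796093022208), (0, 21990232555520), (0, 70368744177664)] = true := by
  decide +kernel

theorem k1 : chk C 0x888810088801888008819920101 [(0, 8796093022208), (0, 21990232555520),
    (70368744177664, 140737488355328)] = true := by
  decide +kernel

theorem k2 : chk C 0x8818818888010888012008882188880820880822088821881888209109929220101 [(0,
    8796093022208), (0, 21990232555520), (140737488355328, 281474976710656)] = true := by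
  decide +kernel

theorem k3 : chk C 0x88188118882088800288808208881021088188088010881880880108818808880010222 [(0,
    8796093022208), (21990232555520, 43980465111040), (0, 281474976710656)] = true := by
  decide +kernel

theorem k4 : chk C 0x88188888200089092108818888200890102 [(0, 2199023255552), (0, 5497558138880),
    (281474976710656, 422212465065984)] = true := by
  decide +kernel

end Pool.Agent.Lib.MP_d6150d_an.ZmBL
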