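import Pool.Agent.Lib.MP_d6150d_an.ZmBLD

/-! A generated chart: the computations. -/

namespace Pool.Agent.Lib.MP_d6150d_an.ZmBL

theorem k5 : chk C 0x88188188888182000888888200091010888888200008992920120 [(0, 2199023255552), (0,
    5497558138880), (422212465065984, 562949953421312)] = true := by
  decide +kernel

theorem k6 : chk C 0x8818812 [(2199023255552, 4398046511104), (0, 5497558138880), (281474976710656,
    562949953421312)] = true := by
  decide +kernel

theorem k7 : chk C 0x88288888881000888882100200888888210088881002020 [(0, 4398046511104),
    (5497558138880, 10995116277760), (281474976710656, 562949953421312)] = true := by
  decide +kernel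

theorem k8 : chk C 0x88188128818818882088818201088820888820012088188082888201088188088210220 [(0,
    4398046511104), (10995116277760, 21990232555520), (281474976710656, 562949953421312)] = true :=
    by
  decide +kernel

theorem k9 : chk C 0x880880188128808288801881211 [(4398046511104, 8796093022208), (0,
    21990232555520), (281474976710656, 562949953421312)] = true := by
  decide +kernel

theorem k10 : chk C 0x8818812881888208881820188082880821208880880108888010220 [(0, 4398046511104),
    (21990232555520, 32985348833280), (281474976710656, 562949953421312)] = true := by
  decide +kernel

theorem k11 : chk C 0x881881888208882018808801200881888810088810202 [(0, 4398046511104),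
    (32985348833280, 43980465111040), (281474976710656, 562949953421312)] = true := by
  decide +kernel

end Pool.Agent.Lib.MP_d6150d_an.ZmBL
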