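import Pool.Agent.Lib.MP_d6150d_an.ZmBLD

/-! A generated chart: the computations. -/

namespace Pool.Agent.Lib.MP_d6150d_an.ZmBL

theorem k12 : chk C 0x881881288188121 [(4398046511104, 8796093022208), (21990232555520,
    43980465111040), (281474976710656, 562949953421312)] = true := by
  decide +kernel

end Pool.Agent.Lib.MP_d6150d_an.ZmBL
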