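import Pool.Agent.Lib.MP_d6150d_an.ZmBRD

/-! A generated chart: the computations. -/

namespace Pool.Agent.Lib.MP_d6150d_an.ZmBR

theorem k0 : chk C 0x88088028809921880992121888108802888009929922188811880910212 [(0,
    4398046511104), (0, 21990232555520), (0, 140737488355328)] = true := by
  decide +kernel

theorem k1 : chk C 0x8808822880888008880188800899209210118828808901891922121 [(0, 4398046511104),
    (0, 21990232555520), (140737488355328, 281474976710656)] = true := by
  decide +kernel

theorem k2 : chk C 0x882888821188882112188188088188121188288811888112122 [(4398046511104,
    8796093022208), (0, 21990232555520), (0, 281474976710656)] = true := by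
  decide +kernel

theorem k3 : chk C 0x8880188188102881880882108818808801088810222 [(0, 8796093022208),
    (21990232555520, 43980465111040), (0, 281474976710656)] = true := by
  decide +kernel

theorem k4 : chk C 0x888008880188820882880890108902101 [(0, 2199023255552), (0, 2748779069440),
    (281474976710656, 351843720888320)] = true := by
  decide +kernel

theorem k5 : chk C 0x888821188088800888218881188808992011088088910120110 [(0, 2199023255552), (0,
    2748779069440), (351843720888320, 422212465065984)] = true := by
  decide +kernel

theorem k6 : chk C 0x88820 [(0, 2199023255552), (2748779069440, 5497558138880), (281474976710656,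
    422212465065984)] = true := by
  decide +kernel

theorem k7 : chk C 0x882 [(0, 2199023255552), (5497558138880, 10995116277760), (281474976710656,
    422212465065984)] = true := by
  decide +kernel

end Pool.Agent.Lib.MP_d6150d_an.ZmBR
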