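import Pool.Agent.Lib.MP_d6150d_an.ZmBRD

/-! A generated chart: the computations. -/

namespace Pool.Agent.Lib.MP_d6150d_an.ZmBR

theorem k8 : chk C 0x8808888211880888118828881188808828829921011010880881880882882890101012101 [(0,
    1099511627776), (0, 2748779069440), (422212465065984, 492581209243648)] = true := by
  decide +kernel

theorem k9 : chk C 0x8808881188088820881888118880889192011001101 [(0, 549755813888), (0,
    1374389534720), (492581209243648, 527765581332480)] = true := by
  decide +kernel

theorem k10 : chk C 0x88881118880888118828808818818882890110011088811888088188088910101102110 [(0,
    549755813888), (0, 1374389534720), (527765581332480, 562949953421312)] = true := by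
  decide +kernel

theorem k11 : chk C 0x8 [(0, 549755813888), (1374389534720, 2748779069440), (492581209243648,
    562949953421312)] = true := by
  decide +kernel

theorem k12 : chk C 0x888882111 [(549755813888, 1099511627776), (0, 2748779069440),
    (492581209243648, 562949953421312)] = true := by
  decide +kernel

theorem k13 : chk C 0x882 [(0, 1099511627776), (2748779069440, 5497558138880), (422212465065984,
    562949953421312)] = true := by
  decide +kernel

theorem k14 : chk C 0x88888821111 [(1099511627776, 2199023255552), (0, 5497558138880),
    (422212465065984, 562949953421312)] = true := by
  decide +kernel

theorem k15 : chk C 0x8 [(0, 2199023255552), (5497558138880, 10995116277760), (422212465065984,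
    562949953421312)] = true := by
  decide +kernel

theorem k16 : chk C 0x882882882881888212111 [(2199023255552, 4398046511104), (0, 10995116277760),
    (281474976710656, 562949953421312)] = true := by
  decide +kernel

theorem k17 : chk C 0x8888022 [(0, 4398046511104), (10995116277760, 21990232555520),
    (281474976710656, 562949953421312)] = true := by
  decide +kernel

theorem k18 : chk C 0x882882882881888212111 [(4398046511104, 8796093022208), (0, 21990232555520),
    (281474976710656, 562949953421312)] = true := by
  decide +kernel

theorem k19 : chk C 0x88188088120 [(0, 8796093022208), (21990232555520, 43980465111040),
    (281474976710656, 562949953421312)] = true := by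
  decide +kernel

end Pool.Agent.Lib.MP_d6150d_an.ZmBR
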