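import Pool.Agent.Lib.MP_d6150d_an.GMac
import Pool.Agent.Lib.MP_d6150d_an.PpChk
import Pool.Agent.Lib.MP_d6150d_an.ZmBRK0
import Pool.Agent.Lib.MP_d6150d_an.ZmBRK1

/-! A generated chart: the inequality. -/

namespace Pool.Agent.Lib.MP_d6150d_an.ZmBR

set_option linter.unnecessarySeqFocus false
set_option linter.unusedTactic false
set_option linter.unusedVariables false

theorem gd : Gd2 C [(0, 8796093022208), (0, 43980465111040), (0, 562949953421312)] := .split 2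
    (.split 1 (.split 0 (.split 2 (chk_sound2 k0) (chk_sound2 k1)) (chk_sound2 k2)) (chk_sound2 k3))
    (.split 1 (.split 0 (.split 1 (.split 0 (.split 2 (.split 1 (.split 1 (.split 2 (chk_sound2 k4)
    (chk_sound2 k5)) (chk_sound2 k6)) (chk_sound2 k7)) (.split 1 (.split 0 (.split 1 (.split 2
    (chk_sound2 k8) (.split 0 (.split 1 (.split 2 (chk_sound2 k9) (chk_sound2 k10)) (chk_sound2
    k11)) (chk_sound2 k12))) (chk_sound2 k13)) (chk_sound2 k14)) (chk_sound2 k15))) (chk_sound2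
    k16)) (chk_sound2 k17)) (chk_sound2 k18)) (chk_sound2 k19))

set_option maxRecDepth 100000 in
theorem eq {d h t F z1 z2 z3 z4 r s g a1 a3 a4 b2 b3 b4 W A Y i : ℝ} (hF : F = 1 + d - h) (hz1 : z1
    = -t) (hz2 : z2 = -(2 * F * t)) (hz3 : z3 = -((2 * F - 1) * t)) (hz4 : z4 = (2 - 2 * F) * t) (hr
    : r = Real.exp z1) (hs : s = Real.exp z2) (hg : g = Real.exp z3) (ha1 : a1 = ph1 z1) (ha3 : a3 =
    ph1 z3) (ha4 : a4 = ph1 z4) (hb2 : b2 = ph2 z2) (hb3 : b3 = ph2 z3) (hb4 : b4 = ph2 z4) (hW : W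
    = a1 * (1 - d + d * r)) (hA : A = (1 - 2 * d) * a3 + 2 * d * (r * a4)) (hY : Y = W - 2 * F * (1
    - d) * b2 + r * ((2 * F - 1) * (1 - 2 * d) * b3 - (2 - 2 * F) * d * (r * b4))) (hi : i = (√(s +
    2 * (F * (1 + 2 * d - F) / 3) * (t ^ 2 * Y)))⁻¹) : outR prog 0 [d, h, t] = r * (W * (A ^ 2 - (g
    * W * i) ^ 2 * i)) + 4 * F * t * Y ^ 2 * (1 - 2 * d + 2 * d * r) := by
  replace hF : F = (((Int.cast (1) : ℝ) + d) - h) := hF.trans (by push_cast <;> ring)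
  replace hz1 : z1 = ((Int.cast (-1) : ℝ) * t) := hz1.trans (by push_cast <;> ring)
  replace hz2 : z2 = ((Int.cast (-1) : ℝ) * (((Int.cast (2) : ℝ) * F) * t)) := hz2.trans (by
    push_cast <;> ring)
  replace hz3 : z3 = ((Int.cast (-1) : ℝ) * ((((Int.cast (2) : ℝ) * F) - (Int.cast (1) : ℝ)) * t))
    := hz3.trans (by push_cast <;> ring)
  replace hz4 : z4 = (((Int.cast (2) : ℝ) - ((Int.cast (2) : ℝ) * F)) * t) := hz4.trans (by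
    push_cast <;> ring)
  replace hW : W = (a1 * (((Int.cast (1) : ℝ) - d) + (d * r))) := hW.trans (by push_cast <;> ring)
  replace hA : A = ((((Int.cast (1) : ℝ) - ((Int.cast (2) : ℝ) * d)) * a3) + (((Int.cast (2) : ℝ) *
    d) * (r * a4))) := hA.trans (by push_cast <;> ring)
  replace hY : Y = ((W - ((((Int.cast (2) : ℝ) * F) * ((Int.cast (1) : ℝ) - d)) * b2)) + (r *
    ((((((Int.cast (2) : ℝ) * F) - (Int.cast (1) : ℝ)) * ((Int.cast (1) : ℝ) - ((Int.cast (2) : ℝ) *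
    d))) * b3) - ((((Int.cast (2) : ℝ) - ((Int.cast (2) : ℝ) * F)) * d) * (r * b4))))) := hY.trans
    (by push_cast <;> ring)
  replace hi : i = (√(s + (((Int.cast (2) : ℝ) * (((Int.cast (1) : ℝ) / (Nat.cast 3 : ℝ)) * (F *
    (((Int.cast (1) : ℝ) + ((Int.cast (2) : ℝ) * d)) - F)))) * ((t * t) * Y))))⁻¹ := hi.trans
    (congrArg (fun x : ℝ ↦ (√x)⁻¹) (by push_cast <;> ring))
  have e0 : ((r * (W * ((A * A) - ((((g * W) * i) * ((g * W) * i)) * i)))) + (((((Int.cast (4) : ℝ)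
    * F) * t) * (Y * Y)) * (((Int.cast (1) : ℝ) - ((Int.cast (2) : ℝ) * d)) + (((Int.cast (2) : ℝ) *
    d) * r)))) = r * (W * (A ^ 2 - (g * W * i) ^ 2 * i)) + 4 * F * t * Y ^ 2 * (1 - 2 * d + 2 * d *
    r) := by push_cast <;> ring
  subst hF hz1 hz2 hz3 hz4 hr hs hg ha1 ha3 ha4 hb2 hb3 hb4 hW hA hY hi
  exact Eq.trans rfl e0

theorem l0 : ((0 : ℤ) : ℝ) / 2 ^ 47 = 0 := by norm_num
theorem u0 : (1 / 16 : ℝ) = ((8796093022208 : ℤ) : ℝ) / 2 ^ 47 := by norm_num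
theorem l1 : ((0 : ℤ) : ℝ) / 2 ^ 47 = 0 := by norm_num
theorem u1 : (5 / 16 : ℝ) = ((43980465111040 : ℤ) : ℝ) / 2 ^ 47 := by norm_num
theorem l2 : ((0 : ℤ) : ℝ) / 2 ^ 47 = 0 := by norm_num
theorem u2 : (4 : ℝ) = ((562949953421312 : ℤ) : ℝ) / 2 ^ 47 := by norm_num

theorem out0 (V2 : ∀ d h : ℝ, 0 ≤ d → d ≤ 1 / 16 → 0 ≤ h → h ≤ 5 / 16 → (fun t ↦ outR prog 0 [d, h,
    t]) =O[nhdsWithin 0 (Set.Ioi 0)] fun t : ℝ ↦ t ^ 3) (N : ∀ t : ℝ, 0 ≤ t → t ≤ 4 → 0 ≤ outR prog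
    0 [0, 0, t]) {d h t : ℝ} (a0 : 0 ≤ d) (b0 : d ≤ 1 / 16) (a1 : 0 ≤ h) (b1 : h ≤ 5 / 16) (a2 : 0 ≤
    t) (b2 : t ≤ 4) (p2 : 0 < t) (pc : 0 < d ∨ 0 < h) : 0 < outR prog 0 [d, h, t] :=
  gd 0 (by decide) [d, h, t] (.cons ⟨l0.le.trans a0, b0.trans u0.le⟩ (.cons ⟨l1.le.trans a1,
    b1.trans u1.le⟩ (.cons ⟨l2.le.trans a2, b2.trans u2.le⟩ (.nil)))) ⟨nofun, nofun, fun _ ↦ p2,
    trivial⟩ (fun _ ↦ pc.elim (fun h ↦ .inl ⟨rfl, h⟩) (fun h ↦ .inr (.inl ⟨rfl, h⟩)))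
    (List.forall_mem_nil _) (⟨fun _ ↦ allB_iff.2 fun _ _ ↦ trivial, fun y0 a0 b0 ↦ ⟨fun _ ↦
    allB_iff.2 fun _ _ ↦ trivial, fun y1 a1 b1 ↦ ⟨fun _ ↦ V2 y0 y1 (l0.ge.trans a0) (b0.trans u0.ge)
    (l1.ge.trans a1) (b1.trans u1.ge), fun _ _ _ ↦ trivial⟩⟩⟩) (fun _ _ _ _ _ _ _ y2 a2 b2 ↦ N y2
    (l2.ge.trans a2) (b2.trans u2.ge))

end Pool.Agent.Lib.MP_d6150d_an.ZmBR
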