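import Pool.Agent.Lib.MP_d6150d_an.ZmCLD

/-! A generated chart: the computations. -/

namespace Pool.Agent.Lib.MP_d6150d_an.ZmCL

theorem k0 : chk C 0x8888100888810018808808108881088880810022288881008888100188188108818810888102221
    [(8796093022208, 70368744177664), (105553116266496, 149533581377536), (0, 281474976710656)] =
    true := by
  decide +kernel

theorem k1 : chk C 0x8818802881880880108808810208818802880880880108808810201 [(8796093022208,
    70368744177664), (105553116266496, 127543348822016), (281474976710656, 562949953421312)] = true
    := by
  decide +kernel

theorem k2 : chk C 0x8818802881880880108808810208818802881880880108808810201 [(8796093022208,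
    70368744177664), (127543348822016, 149533581377536), (281474976710656, 562949953421312)] = true
    := by
  decide +kernel

end Pool.Agent.Lib.MP_d6150d_an.ZmCL
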