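import Pool.Agent.Lib.MP_d6150d_an.GMac
import Pool.Agent.Lib.MP_d6150d_an.PpChk
import Pool.Agent.Lib.MP_d6150d_an.ZmCLK0

/-! A generated chart: the inequality. -/

namespace Pool.Agent.Lib.MP_d6150d_an.ZmCL

set_option linter.unnecessarySeqFocus false
set_option linter.unusedTactic false
set_option linter.unusedVariables false

theorem gd : Gd2 C [(8796093022208, 70368744177664), (105553116266496, 149533581377536), (0,
    562949953421312)] := .split 2 (chk_sound2 k0) (.split 1 (chk_sound2 k1) (chk_sound2 k2))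

set_option maxRecDepth 100000 in
theorem eq {d F t z1 z2 z3 z4 q p g a1 b2 b3 b4 a4 a3 W Y i n A : ℝ} (hz1 : z1 = -t) (hz2 : z2 = -(2
    * F * t)) (hz3 : z3 = -((2 * F - 1) * t)) (hz4 : z4 = -((2 - 2 * F) * t)) (hq : q = Real.exp z1)
    (hp : p = Real.exp z4) (hg : g = Real.exp z3) (ha1 : a1 = ph1 z1) (hb2 : b2 = ph2 z2) (hb3 : b3
    = ph2 z3) (hb4 : b4 = ph2 z4) (ha4 : a4 = ph1 z4) (ha3 : a3 = ph1 z3) (hW : W = a1 * ((1 - d) *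
    q + d)) (hY : Y = (2 - 2 * F) * d * (a4 - b4) + p * (2 * F * (1 - d) * b2 - (2 * F - 1) * (1 - 2
    * d) * b3)) (hi : i = (√(p + 2 * (F * (1 + 2 * d - F) / 3) * (t ^ 2 * Y)))⁻¹) (hn : n = (1 - 2 *
    d) * q + 2 * d) (hA : A = 2 * d * a4 + (1 - 2 * d) * (p * a3)) : outR prog 0 [d, F, t] = p * (W
    * i) ^ 3 - g * (W * A ^ 2 - 4 * F * t * Y ^ 2 * n) := by
  replace hz1 : z1 = ((Int.cast (-1) : ℝ) * t) := hz1.trans (by push_cast <;> ring)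
  replace hz2 : z2 = ((Int.cast (-1) : ℝ) * (((Int.cast (2) : ℝ) * F) * t)) := hz2.trans (by
    push_cast <;> ring)
  replace hz3 : z3 = ((Int.cast (-1) : ℝ) * ((((Int.cast (2) : ℝ) * F) - (Int.cast (1) : ℝ)) * t))
    := hz3.trans (by push_cast <;> ring)
  replace hz4 : z4 = ((Int.cast (-1) : ℝ) * (((Int.cast (2) : ℝ) - ((Int.cast (2) : ℝ) * F)) * t))
    := hz4.trans (by push_cast <;> ring)
  replace hW : W = (a1 * ((((Int.cast (1) : ℝ) - d) * q) + d)) := hW.trans (by push_cast <;> ring)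
  replace hY : Y = (((((Int.cast (2) : ℝ) - ((Int.cast (2) : ℝ) * F)) * d) * (a4 - b4)) + (p *
    (((((Int.cast (2) : ℝ) * F) * ((Int.cast (1) : ℝ) - d)) * b2) - (((((Int.cast (2) : ℝ) * F) -
    (Int.cast (1) : ℝ)) * ((Int.cast (1) : ℝ) - ((Int.cast (2) : ℝ) * d))) * b3)))) := hY.trans (by
    push_cast <;> ring)
  replace hi : i = (√(p + (((Int.cast (2) : ℝ) * (((Int.cast (1) : ℝ) / (Nat.cast 3 : ℝ)) * (F *
    (((Int.cast (1) : ℝ) + ((Int.cast (2) : ℝ) * d)) - F)))) * ((t * t) * Y))))⁻¹ := hi.trans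
    (congrArg (fun x : ℝ ↦ (√x)⁻¹) (by push_cast <;> ring))
  replace hn : n = ((((Int.cast (1) : ℝ) - ((Int.cast (2) : ℝ) * d)) * q) + ((Int.cast (2) : ℝ) *
    d)) := hn.trans (by push_cast <;> ring)
  replace hA : A = ((((Int.cast (2) : ℝ) * d) * a4) + (((Int.cast (1) : ℝ) - ((Int.cast (2) : ℝ) *
    d)) * (p * a3))) := hA.trans (by push_cast <;> ring)
  have e0 : ((p * (((W * i) * (W * i)) * (W * i))) - (g * ((W * (A * A)) - (((((Int.cast (4) : ℝ) *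
    F) * t) * (Y * Y)) * n)))) = p * (W * i) ^ 3 - g * (W * A ^ 2 - 4 * F * t * Y ^ 2 * n) := by
    push_cast <;> ring
  subst hz1 hz2 hz3 hz4 hq hp hg ha1 hb2 hb3 hb4 ha4 ha3 hW hY hi hn hA
  exact Eq.trans rfl e0

theorem l0 : ((8796093022208 : ℤ) : ℝ) / 2 ^ 47 = 1 / 16 := by norm_num
theorem u0 : (1 / 2 : ℝ) = ((70368744177664 : ℤ) : ℝ) / 2 ^ 47 := by norm_num
theorem l1 : ((105553116266496 : ℤ) : ℝ) / 2 ^ 47 = 3 / 4 := by norm_num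
theorem u1 : (17 / 16 : ℝ) = ((149533581377536 : ℤ) : ℝ) / 2 ^ 47 := by norm_num
theorem l2 : ((0 : ℤ) : ℝ) / 2 ^ 47 = 0 := by norm_num
theorem u2 : (4 : ℝ) = ((562949953421312 : ℤ) : ℝ) / 2 ^ 47 := by norm_num

theorem out0 (V2 : ∀ d F : ℝ, 1 / 16 ≤ d → d ≤ 1 / 2 → 3 / 4 ≤ F → F ≤ 17 / 16 → (fun t ↦ outR prog
    0 [d, F, t]) =O[nhdsWithin 0 (Set.Ioi 0)] fun t : ℝ ↦ t ^ 3) {d F t : ℝ} (a0 : 1 / 16 ≤ d) (b0 :
    d ≤ 1 / 2) (a1 : 3 / 4 ≤ F) (b1 : F ≤ 17 / 16) (a2 : 0 ≤ t) (b2 : t ≤ 4) (p2 : 0 < t) : 0 < outR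
    prog 0 [d, F, t] :=
  gd 0 (by decide) [d, F, t] (.cons ⟨l0.le.trans a0, b0.trans u0.le⟩ (.cons ⟨l1.le.trans a1,
    b1.trans u1.le⟩ (.cons ⟨l2.le.trans a2, b2.trans u2.le⟩ (.nil)))) ⟨nofun, nofun, fun _ ↦ p2,
    trivial⟩ (nofun) (List.forall_mem_nil _) (⟨fun _ ↦ allB_iff.2 fun _ _ ↦ trivial, fun y0 a0 b0 ↦
    ⟨fun _ ↦ allB_iff.2 fun _ _ ↦ trivial, fun y1 a1 b1 ↦ ⟨fun _ ↦ V2 y0 y1 (l0.ge.trans a0)
    (b0.trans u0.ge) (l1.ge.trans a1) (b1.trans u1.ge), fun _ _ _ ↦ trivial⟩⟩⟩) (nofun)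

end Pool.Agent.Lib.MP_d6150d_an.ZmCL
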