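import Pool.Agent.Lib.MP_d6150d_an.ZmCRD

/-! A generated chart: the computations. -/

namespace Pool.Agent.Lib.MP_d6150d_an.ZmCR

theorem k0 : chk C 0x880888102880881288288081222 [(8796093022208, 39582418599936), (105553116266496,
    127543348822016), (0, 422212465065984)] = true := by
  decide +kernel

theorem k1 : chk C 0x8828808882028880210888081088808102881881810880818802222 [(8796093022208,
    39582418599936), (127543348822016, 149533581377536), (0, 422212465065984)] = true := by
  decide +kernel

theorem k2 : chk C 0x8808802881808818021880880288088021880881188082881821222 [(39582418599936,
    70368744177664), (105553116266496, 149533581377536), (0, 422212465065984)] = true := by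
  decide +kernel

theorem k3 : chk C 0x8881180808088180802888208801088182808080881808028880201 [(8796093022208,
    70368744177664), (105553116266496, 149533581377536), (422212465065984, 844424930131968)] = true
    := by
  decide +kernel

end Pool.Agent.Lib.MP_d6150d_an.ZmCR
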