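import Pool.Agent.Lib.MP_d6150d_an.Zm0
import Pool.Agent.Lib.MP_d6150d_an.ZmAR
import Pool.Agent.Lib.MP_d6150d_an.ZmBR
import Pool.Agent.Lib.MP_d6150d_an.ZmCR
import Pool.Agent.Lib.MP_d6150d_an.ZmAL
import Pool.Agent.Lib.MP_d6150d_an.ZmBL
import Pool.Agent.Lib.MP_d6150d_an.ZmCL

/-! The square where the period decreases: bounded times. -/

namespace Pool.Agent.Lib.MP_d6150d_an.Zm

open Real Set Filter Topology Asymptotics

variable {d F t f : ℝ}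

/-- the programs on the right branch -/
structure CR (d F t f : ℝ) : Prop where
  out : ∀ {z1 z2 z3 z4 r s g a1 a3 a4 b2 b3 b4 W A Y i : ℝ}, z1 = -t → z2 = -(2 * F * t) →
  z3 = -((2 * F - 1) * t) → z4 = (2 - 2 * F) * t → r = exp z1 → s = exp z2 → g = exp z3 →
  a1 = ph1 z1 → a3 = ph1 z3 → a4 = ph1 z4 → b2 = ph2 z2 → b3 = ph2 z3 → b4 = ph2 z4 →
  W = a1 * (1 - d + d * r) → A = (1 - 2 * d) * a3 + 2 * d * (r * a4) →
  Y = W - 2 * F * (1 - d) * b2 + r * ((2 * F - 1) * (1 - 2 * d) * b3 - (2 - 2 * F) * d * (r * b4)) →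
  i = (√(s + 2 * (F * (1 + 2 * d - F) / 3) * (t ^ 2 * Y)))⁻¹ →
  f = r * (W * (A ^ 2 - (g * W * i) ^ 2 * i)) + 4 * F * t * Y ^ 2 * (1 - 2 * d + 2 * d * r)

/-- the programs on the left branch -/
structure CL (d F t f : ℝ) : Prop where
  out : ∀ {z1 z2 z3 z4 q p g a1 b2 b3 b4 a4 a3 W Y i n A : ℝ}, z1 = -t → z2 = -(2 * F * t) →
  z3 = -((2 * F - 1) * t) → z4 = -((2 - 2 * F) * t) → q = exp z1 → p = exp z4 → g = exp z3 →
  a1 = ph1 z1 → b2 = ph2 z2 → b3 = ph2 z3 → b4 = ph2 z4 → a4 = ph1 z4 → a3 = ph1 z3 →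
  W = a1 * ((1 - d) * q + d) →
  Y = (2 - 2 * F) * d * (a4 - b4) + p * (2 * F * (1 - d) * b2 - (2 * F - 1) * (1 - 2 * d) * b3) →
  i = (√(p + 2 * (F * (1 + 2 * d - F) / 3) * (t ^ 2 * Y)))⁻¹ → n = (1 - 2 * d) * q + 2 * d →
  A = 2 * d * a4 + (1 - 2 * d) * (p * a3) →
  f = p * (W * i) ^ 3 - g * (W * A ^ 2 - 4 * F * t * Y ^ 2 * n)

theorem CR.eq (hf : CR d F t f) (H : Adm d F) :
    f = dl d F t * ((ph1 (-t) * (1 - d + d * exp (-t))) ^ 3 * exp ((1 - F) * t)) := by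
  rw [hf.out rfl rfl rfl rfl rfl rfl rfl rfl rfl rfl rfl rfl rfl rfl rfl rfl rfl]
  by_cases h0 : t = 0
  · subst h0; simp [dl_zero, ph1_zero]
  have F0 : F ≠ 0 := by linarith [H.F0] |> ne_of_gt
  have hz := Z_id (F := F) (H.mem t) h0
  have ha := a_eq (d := d) (F := F) t
  have r1 := exp_eq_ph (-t)
  have r2 := exp_eq_ph (-(2 * F * t))
  have r3 := exp_eq_ph (-((2 * F - 1) * t))
  have r4 := exp_eq_ph ((2 - 2 * F) * t)
  have k2 : ph1 (-(2 * F * t)) = 1 + -(2 * F * t) * ph2 (-(2 * F * t)) := rfl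
  have k3 : ph1 (-((2 * F - 1) * t)) = 1 + -((2 * F - 1) * t) * ph2 (-((2 * F - 1) * t)) := rfl
  have k4 : ph1 ((2 - 2 * F) * t) = 1 + (2 - 2 * F) * t * ph2 ((2 - 2 * F) * t) := rfl
  have e1 : exp (-t) * exp t = 1 := by rw [← exp_add]; simp
  have e2 : exp (-(2 * F * t)) = exp (-t) * exp (-((2 * F - 1) * t)) := by rw [← exp_add]; ring_nf
  have e3 : exp (-t) * exp ((2 - 2 * F) * t) = exp (-((2 * F - 1) * t)) := by
    rw [← exp_add]; ring_nf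
  have e4 : exp ((1 - F) * t) * exp (F * t) * exp (-t) = 1 := by
    rw [← exp_add, ← exp_add]; ring_nf; simp
  have e5 : exp (-t) * exp (-((2 * F - 1) * t)) ^ 2 * exp (F * t) ^ 3 = exp ((1 - F) * t) := by
    rw [← exp_nat_mul, ← exp_nat_mul, ← exp_add, ← exp_add]; push_cast; ring_nf
  have hy : yR (-d) F t * 2 = vR (-d) F t * exp ((2 - 2 * F) * t) := by rw [yR]; ring
  have hs := fun x ↦ sqrt_eq d F t (-(F * t)) (x := x)
  rw [show 2 * -(F * t) = -(2 * F * t) by ring, neg_neg] at hs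
  rw [wR_eq, om] at hz ha
  rw [aZ] at hz ha
  rw [dl]
  generalize exp (-t) = r, exp (-(2 * F * t)) = s, exp (-((2 * F - 1) * t)) = g, ph1 (-t) = a1,
    ph1 (-(2 * F * t)) = a2, ph1 (-((2 * F - 1) * t)) = a3, ph1 ((2 - 2 * F) * t) = a4,
    ph2 (-(2 * F * t)) = b2, ph2 (-((2 * F - 1) * t)) = b3, ph2 ((2 - 2 * F) * t) = b4,
    exp ((2 - 2 * F) * t) = x, exp t = u, exp (F * t) = y, exp ((1 - F) * t) = k,
    yR (-d) F t = Y0, ZR (-d) F t = Z at *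
  obtain ⟨W, hW⟩ : ∃ W, W = a1 * (1 - d + d * r) := ⟨_, rfl⟩
  rw [← hW]
  obtain ⟨A, hA⟩ : ∃ A, A = (1 - 2 * d) * a3 + 2 * d * (r * a4) := ⟨_, rfl⟩
  obtain ⟨Y, hY⟩ : ∃ Y, Y = W - 2 * F * (1 - d) * b2 +
    r * ((2 * F - 1) * (1 - 2 * d) * b3 - (2 - 2 * F) * d * (r * b4)) := ⟨_, rfl⟩
  rw [← hA, ← hY]
  have w1 : t * W = r ^ 2 * ((u - 1) * ((1 + -d) * u - -d)) := by
    rw [hW]
    linear_combination (1 - d + d * r) * r1 - ((1 - d) * (r * u + 1) - (1 - 2 * d) * r) * e1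
  have w2 : t * (r * A) = r ^ 2 * (t * ((1 - 2 * d) * u * a3 + 2 * d * a4)) := by
    rw [hA]; linear_combination -t * r * (1 - 2 * d) * a3 * e1
  have w3 : t * Y = (1 - d) * a2 - r * (1 - 2 * d) * a3 - d * r ^ 2 * a4 := by
    rw [hY, hW]
    linear_combination (1 - d + d * r) * r1 - (1 - d) * k2 + r * (1 - 2 * d) * k3 + d * r ^ 2 * k4
  have w4 : t ^ 2 * Y = r ^ 2 * Y0 := by
    apply mul_left_cancel₀ (mul_ne_zero two_ne_zero F0)
    rw [hW] at w1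
    linear_combination 2 * F * t * w3 + r ^ 2 * ha + w1 - (1 - d + d * r) * r1 + (1 - d) * r2 -
      (1 - d) * e2 - (1 - 2 * d) * r * r3 - d * r ^ 2 * r4 + d * r * e3 +
      r * t * (1 - 2 * d) * a3 * e1
  rw [hs _ (by rw [w4, e2]; linear_combination F * (1 + 2 * d - F) / 3 * (r ^ 2 * hy +
    vR (-d) F t * r * e3))]
  generalize (sS d F (vR (-d) F t))⁻¹ = S
  have w5 : W ^ 3 * Z = y * r * (r * W * A ^ 2 + 4 * F * t * Y ^ 2 * (1 - 2 * d + 2 * d * r)) := by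
    apply mul_left_cancel₀ (pow_ne_zero 3 h0)
    have := congrArg (r ^ 6 * ·) hz
    beta_reduce at this
    rw [show t ^ 3 * (W ^ 3 * Z) = (t * W) ^ 3 * Z by ring, show t ^ 3 * (y * r * (r * W * A ^ 2 +
      4 * F * t * Y ^ 2 * (1 - 2 * d + 2 * d * r))) = y * ((t * W) * (t * (r * A)) ^ 2 +
      4 * F * (t ^ 2 * Y) ^ 2 * (r * (1 - 2 * d) + 2 * d * r ^ 2)) by ring, w1, w2, w4]
    linear_combination this + y * 4 * F * Y0 ^ 2 * r ^ 5 * (1 - 2 * d) * e1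
  linear_combination -k * w5 - (r * W * A ^ 2 + 4 * F * t * Y ^ 2 * (1 - 2 * d + 2 * d * r)) * e4 -
    W ^ 3 * S ^ 3 * e5

theorem CL.eq (hf : CL d F t f) (H : Adm d F) :
    f = -dl d F (-t) * ((ph1 (-t) * ((1 - d) * exp (-t) + d)) ^ 3 * exp ((1 - F) * t)) := by
  rw [hf.out rfl rfl rfl rfl rfl rfl rfl rfl rfl rfl rfl rfl rfl rfl rfl rfl rfl rfl]
  by_cases h0 : t = 0
  · subst h0; simp [dl_zero, ph1_zero]
  have F0 : F ≠ 0 := by linarith [H.F0] |> ne_of_gt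
  have hz := Z_id (F := F) (H.mem (-t)) (neg_ne_zero.2 h0)
  have ha := a_eq (d := d) (F := F) (-t)
  have r1 := exp_eq_ph (-t)
  have r2 := exp_eq_ph (-(2 * F * t))
  have r3 := exp_eq_ph (-((2 * F - 1) * t))
  have r4 := exp_eq_ph (-((2 - 2 * F) * t))
  have k2 : ph1 (-(2 * F * t)) = 1 + -(2 * F * t) * ph2 (-(2 * F * t)) := rfl
  have k3 : ph1 (-((2 * F - 1) * t)) = 1 + -((2 * F - 1) * t) * ph2 (-((2 * F - 1) * t)) := rfl
  have k4 : ph1 (-((2 - 2 * F) * t)) = 1 + -((2 - 2 * F) * t) * ph2 (-((2 - 2 * F) * t)) := rfl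
  have e1 : exp (-t) * ph1 ((2 * F - 1) * t) = exp (-((2 - 2 * F) * t)) * ph1 (-((2 * F - 1) * t)) := by
    rw [ph1_neg ((2 * F - 1) * t), ← mul_assoc, ← exp_add]; ring_nf
  have e2 : exp (-((2 - 2 * F) * t)) * exp (-(2 * F * t)) = exp (-t) ^ 2 := by
    rw [sq, ← exp_add, ← exp_add]; ring_nf
  have e3 : exp (-((2 - 2 * F) * t)) * exp (-((2 * F - 1) * t)) = exp (-t) := by
    rw [← exp_add]; ring_nf
  have e4 : exp ((1 - F) * t) * exp (F * -t) = exp (-((2 * F - 1) * t)) := by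
    rw [← exp_add]; ring_nf
  have e5 : exp (-((2 - 2 * F) * t)) * exp ((1 - F) * t) ^ 2 = 1 := by
    rw [sq, ← exp_add, ← exp_add]; ring_nf; simp
  have hy : yR (-d) F (-t) * 2 = vR (-d) F (-t) * exp ((2 - 2 * F) * -t) := by rw [yR]; ring
  have hs := fun x ↦ sqrt_eq d F (-t) (-((1 - F) * t)) (x := x)
  rw [show 2 * -((1 - F) * t) = -((2 - 2 * F) * t) by ring, neg_neg] at hs
  rw [wR_eq, om] at hz ha
  rw [aZ, mul_neg (2 * F - 1), neg_neg, mul_neg (2 - 2 * F)] at hz ha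
  rw [mul_neg (2 - 2 * F)] at hy
  rw [dl]
  generalize exp (-t) = q, exp (-(2 * F * t)) = s, exp (-((2 * F - 1) * t)) = g, ph1 (-t) = a1,
    ph1 (-(2 * F * t)) = a2, ph1 (-((2 * F - 1) * t)) = a3, ph1 (-((2 - 2 * F) * t)) = a4,
    ph2 (-(2 * F * t)) = b2, ph2 (-((2 * F - 1) * t)) = b3, ph2 (-((2 - 2 * F) * t)) = b4,
    exp (-((2 - 2 * F) * t)) = p, exp (F * -t) = y, exp ((1 - F) * t) = k,
    ph1 ((2 * F - 1) * t) = a5, yR (-d) F (-t) = Y0, ZR (-d) F (-t) = Z at *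
  obtain ⟨W, hW⟩ : ∃ W, W = a1 * ((1 - d) * q + d) := ⟨_, rfl⟩
  rw [← hW]
  obtain ⟨A, hA⟩ : ∃ A, A = 2 * d * a4 + (1 - 2 * d) * (p * a3) := ⟨_, rfl⟩
  obtain ⟨Y, hY⟩ : ∃ Y, Y = (2 - 2 * F) * d * (a4 - b4) +
    p * (2 * F * (1 - d) * b2 - (2 * F - 1) * (1 - 2 * d) * b3) := ⟨_, rfl⟩
  rw [← hA, ← hY]
  have w1 : (q - 1) * ((1 + -d) * q - -d) = -(t * W) := by
    rw [hW]; linear_combination ((1 - d) * q + d) * r1
  have w2 : -t * ((1 - 2 * d) * q * a5 + 2 * d * a4) = -(t * A) := by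
    rw [hA]; linear_combination -t * (1 - 2 * d) * e1
  have w3 : t * Y = d * a4 + p * ((1 - 2 * d) * a3 - (1 - d) * a2) := by
    rw [hY]
    linear_combination d * r4 - d * k4 - p * (1 - 2 * d) * k3 + p * (1 - d) * k2
  have w4 : Y0 = t ^ 2 * Y := by
    apply mul_left_cancel₀ (mul_ne_zero two_ne_zero F0)
    rw [w2, hA] at ha
    linear_combination -2 * F * t * w3 - ha + (1 - d) * p * r2 - (1 - d) * e2 -
      (1 - 2 * d) * p * r3 + (1 - 2 * d) * e3 + d * r4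
  rw [hs _ (by rw [← w4]; linear_combination F * (1 + 2 * d - F) / 3 * hy)]
  generalize (sS d F (vR (-d) F (-t)))⁻¹ = S
  have w5 : W ^ 3 * Z = y * (W * A ^ 2 - 4 * F * t * Y ^ 2 * ((1 - 2 * d) * q + 2 * d)) := by
    apply mul_left_cancel₀ (pow_ne_zero 3 h0)
    rw [w1, w2, w4] at hz
    linear_combination -hz
  linear_combination k * w5 + (W * A ^ 2 - 4 * F * t * Y ^ 2 * ((1 - 2 * d) * q + 2 * d)) * e4 +
    W ^ 3 * S ^ 3 * k * e5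

theorem CR.bigO {f : ℝ → ℝ} (hf : ∀ t, CR d F t (f t)) (H : Adm d F) :
    f =O[𝓝[>] 0] fun t ↦ t ^ 3 := by
  have c := (ph1_an (-0)).continuousAt
  have m : ContinuousAt (fun t ↦ (ph1 (-t) * (1 - d + d * exp (-t))) ^ 3 * exp ((1 - F) * t)) 0 := by
    have : ContinuousAt (fun t : ℝ ↦ ph1 (-t)) 0 := c.comp (f := fun t : ℝ ↦ -t) (by fun_prop)
    fun_prop
  exact (((dl_center (by linarith [H.F0]) H.c0).mono (nhdsWithin_mono _ fun _ h ↦ ne_of_gt h)).mul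
    ((m.isBigO_one ℝ).mono nhdsWithin_le_nhds)).congr (fun t ↦ ((hf t).eq H).symm) fun t ↦ mul_one _

theorem CL.bigO {f : ℝ → ℝ} (hf : ∀ t, CL d F t (f t)) (H : Adm d F) :
    f =O[𝓝[>] 0] fun t ↦ t ^ 3 := by
  have c := (ph1_an (-0)).continuousAt
  have m : ContinuousAt (fun t ↦ (ph1 (-t) * ((1 - d) * exp (-t) + d)) ^ 3 * exp ((1 - F) * t)) 0 := by
    have : ContinuousAt (fun t : ℝ ↦ ph1 (-t)) 0 := c.comp (f := fun t : ℝ ↦ -t) (by fun_prop)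
    fun_prop
  have T : Tendsto (fun u : ℝ ↦ -u) (𝓝[>] 0) (𝓝[≠] 0) := by
    simpa using (tendsto_neg_nhdsGT (a := (0 : ℝ))).mono_right (nhdsLT_le_nhdsNE _)
  exact (((dl_center (by linarith [H.F0]) H.c0).comp_tendsto T).neg_left.neg_right.mul
    ((m.isBigO_one ℝ).mono nhdsWithin_le_nhds)).congr (fun t ↦ ((hf t).eq H).symm)
    fun t ↦ by simp only [Function.comp]; ring

theorem CR.pos (hf : CR d F t f) (H : Adm d F) (h : 0 < f) : 0 < dl d F t := by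
  rw [hf.eq H] at h
  have := ph1_pos (-t)
  have : 0 ≤ 1 - d + d * exp (-t) := by linarith [mul_nonneg H.d0 (exp_pos (-t)).le, H.d1]
  exact pos_of_mul_pos_left h (by positivity)

theorem CL.neg (hf : CL d F t f) (H : Adm d F) (h : 0 < f) : dl d F (-t) < 0 := by
  rw [hf.eq H] at h
  have := ph1_pos (-t)
  have : 0 ≤ (1 - d) * exp (-t) + d :=
    add_nonneg (mul_nonneg (by linarith [H.d1]) (exp_pos (-t)).le) H.d0
  exact neg_pos.1 (pos_of_mul_pos_left h (by positivity))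

theorem admA {x b : ℝ} (a0 : 0 ≤ x) (b0 : x ≤ 1 / 2) (a1 : 0 ≤ b) (b1 : b ≤ 1 / 4) :
    Adm (1 / 2 - x) (1 / 2 + b) := ⟨by linarith, by linarith, by linarith, by linarith⟩

theorem admB {h : ℝ} (a0 : 0 ≤ d) (b0 : d ≤ 1 / 16) (a1 : 0 ≤ h) (b1 : h ≤ 5 / 16) :
    Adm d (1 + d - h) := ⟨a0, by linarith, by linarith, by linarith⟩

theorem admC (a0 : 1 / 16 ≤ d) (b0 : d ≤ 1 / 2) (a1 : 3 / 4 ≤ F) (b1 : F ≤ 17 / 16) :
    Adm d F := ⟨by linarith, b0, by linarith, by linarith⟩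

variable (H : Adm d F) (F2 : F ≤ 17 / 16) (i1 : d < 1 / 2 ∨ 1 / 2 < F) (i2 : 0 < d ∨ F < 1)
include H F2 i1 i2

theorem core_right (t0 : 0 < t) (t1 : t ≤ 4 ∨ (t ≤ 6 ∧ 1 / 16 ≤ d)) : 0 < dl d F t := by
  have t2 : t ≤ 6 := t1.elim (fun h ↦ by linarith) And.left
  obtain ⟨d0, d1, F0, F1⟩ := id H
  rcases le_total F (3 / 4) with k | k
  · have C : ∀ x b t, CR (1 / 2 - x) (1 / 2 + b) t (outR ZmAR.prog 0 [x, b, t]) :=
      fun _ _ _ ↦ ⟨ZmAR.eq rfl rfl⟩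
    have C' := C (1 / 2 - d) (F - 1 / 2) t
    rw [sub_sub_cancel, add_sub_cancel] at C'
    refine C'.pos H (ZmAR.out0 (fun x b a0 b0 a1 b1 ↦ CR.bigO (C x b) (admA a0 b0 a1 b1))
      (fun t _ _ ↦ ?_) (by linarith) (by linarith) (by linarith) (by linarith) t0.le t2 t0
      (i1.imp sub_pos.2 sub_pos.2))
    rw [(C 0 0 t).eq (admA le_rfl (by norm_num) le_rfl (by norm_num)), sub_zero, add_zero, dl_I1,
      zero_mul]
  by_cases l : 1 / 16 ≤ d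
  · have C : ∀ d F t, CR d F t (outR ZmCR.prog 0 [d, F, t]) := fun _ _ _ ↦ ⟨ZmCR.eq⟩
    exact (C d F t).pos H (ZmCR.out0 (fun x b a0 b0 a1 b1 ↦ CR.bigO (C x b) (admC a0 b0 a1 b1))
      l d1 k F2 t0.le t2 t0)
  have C : ∀ d h t, CR d (1 + d - h) t (outR ZmBR.prog 0 [d, h, t]) := fun _ _ _ ↦ ⟨ZmBR.eq rfl⟩
  have C' := C d (1 + d - F) t
  rw [sub_sub_cancel] at C'
  refine C'.pos H (ZmBR.out0 (fun x b a0 b0 a1 b1 ↦ CR.bigO (C x b) (admB a0 b0 a1 b1))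
    (fun t _ _ ↦ ?_) d0 (by linarith) (by linarith) (by linarith) t0.le
    (t1.resolve_right fun h ↦ l h.2) t0 (i2.imp_right fun h ↦ by linarith))
  rw [(C 0 0 t).eq (admB le_rfl (by norm_num) le_rfl (by norm_num)), sub_zero, add_zero, dl_I2,
    zero_mul]

theorem core_left (t0 : 0 < t) (t1 : t ≤ 4) : dl d F (-t) < 0 := by
  obtain ⟨d0, d1, F0, F1⟩ := id H
  rcases le_total F (3 / 4) with k | k
  · have C : ∀ x b t, CL (1 / 2 - x) (1 / 2 + b) t (outR ZmAL.prog 0 [x, b, t]) :=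
      fun _ _ _ ↦ ⟨ZmAL.eq rfl rfl⟩
    have C' := C (1 / 2 - d) (F - 1 / 2) t
    rw [sub_sub_cancel, add_sub_cancel] at C'
    refine C'.neg H (ZmAL.out0 (fun x b a0 b0 a1 b1 ↦ CL.bigO (C x b) (admA a0 b0 a1 b1))
      (fun t _ _ ↦ ?_) (by linarith) (by linarith) (by linarith) (by linarith) t0.le t1 t0
      (i1.imp sub_pos.2 sub_pos.2))
    rw [(C 0 0 t).eq (admA le_rfl (by norm_num) le_rfl (by norm_num)), sub_zero, add_zero, dl_I1,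
      neg_zero, zero_mul]
  rcases le_total (1 / 16) d with l | l
  · have C : ∀ d F t, CL d F t (outR ZmCL.prog 0 [d, F, t]) := fun _ _ _ ↦ ⟨ZmCL.eq⟩
    exact (C d F t).neg H (ZmCL.out0 (fun x b a0 b0 a1 b1 ↦ CL.bigO (C x b) (admC a0 b0 a1 b1))
      l d1 k F2 t0.le t1 t0)
  have C : ∀ d h t, CL d (1 + d - h) t (outR ZmBL.prog 0 [d, h, t]) := fun _ _ _ ↦ ⟨ZmBL.eq rfl⟩
  have C' := C d (1 + d - F) t
  rw [sub_sub_cancel] at C'
  refine C'.neg H (ZmBL.out0 (fun x b a0 b0 a1 b1 ↦ CL.bigO (C x b) (admB a0 b0 a1 b1))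
    (fun t _ _ ↦ ?_) d0 l (by linarith) (by linarith) t0.le t1 t0
    (i2.imp_right fun h ↦ by linarith))
  rw [(C 0 0 t).eq (admB le_rfl (by norm_num) le_rfl (by norm_num)), sub_zero, add_zero, dl_I2,
    neg_zero, zero_mul]

end Pool.Agent.Lib.MP_d6150d_an.Zm
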