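import Pool.Agent.Lib.MP_d6150d_an.GDef

/-! A generated chart: the program. -/

namespace Pool.Agent.Lib.MP_d6150d_an.ZmAL

def prog1 : List Ins := .mul 0 0 :: .mul 0 1 :: .mul 50 0 :: .mul 36 50 :: .mul 52 14 :: .mul 20 0
    :: .add false 2 0 :: .mul 0 0 :: .mul 43 0 :: .smul 4 63 :: .mul 0 61 :: .mul 16 16 :: .mul 1 0
    :: .mul 28 57 :: .add false 0 47 :: .mul 2 0 :: .sub true 7 0 :: .mul 28 0 :: .sub false 15 0 ::
    .cpy 0 :: []

def prog : List Ins := .int 2 :: .cst 1 2 :: .var 1 :: .add false 1 0 :: .smul 2 0 :: .sub true 4 0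
    :: .var 2 :: .mul 1 0 :: .smul (-1) 0 :: .tri 0 :: .smul (-1) 5 :: .tri 0 :: .int 1 :: .var 0 ::
    .sub true 16 0 :: .sub true 2 0 :: .mul 0 6 :: .add false 0 2 :: .mul 7 0 :: .cst 1 3 :: .smul 2
    5 :: .add false 8 0 :: .sub true 0 22 :: .mul 23 0 :: .mul 4 0 :: .smul 2 0 :: .mul 23 23 ::
    .mul 25 12 :: .sub true 21 20 :: .mul 1 0 :: .mul 29 14 :: .mul 30 28 :: .smul (-1) 0 :: .tri 0
    :: .mul 5 0 :: .sub true 36 24 :: .sub true 25 17 :: .mul 1 0 :: .mul 2 37 :: .smul (-1) 0 ::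
    .tri 0 :: .mul 5 0 :: .sub true 9 0 :: .mul 41 0 :: .add false 18 0 :: .mul 22 0 :: .mul 24 0 ::
    .add false 45 0 :: .rsq 0 :: .mul 34 0 :: prog1

def vs : List Vr := [⟨3, 0, false, true⟩, ⟨2, 0, false, true⟩, ⟨6, 3, false, false⟩]

def C : Chart := ⟨vs, prog, [], 1, 3⟩

end Pool.Agent.Lib.MP_d6150d_an.ZmAL
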