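import Pool.Agent.Lib.MP_d6150d_an.GDef

/-! A generated chart: the program. -/

namespace Pool.Agent.Lib.MP_d6150d_an.ZmAR

def prog1 : List Ins := .add true 7 0 :: .mul 11 0 :: .mul 13 0 :: .add false 22 0 :: .rsq 0 :: .mul
    27 0 :: .mul 0 0 :: .mul 0 2 :: .sub true 31 0 :: .mul 54 0 :: .mul 65 0 :: .smul 4 52 :: .mul 0
    69 :: .mul 12 12 :: .mul 1 0 :: .mul 59 70 :: .add false 59 0 :: .mul 2 0 :: .add false 7 0 ::
    .cpy 0 :: []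

def prog : List Ins := .var 2 :: .smul (-1) 0 :: .tri 0 :: .int 1 :: .cst 1 2 :: .var 0 :: .sub true
    1 0 :: .sub true 3 0 :: .mul 1 7 :: .add false 1 0 :: .mul 8 0 :: .smul 2 4 :: .sub true 8 0 ::
    .var 1 :: .add false 9 0 :: .smul 2 0 :: .sub true 0 12 :: .mul 0 18 :: .smul (-1) 0 :: .tri 0
    :: .mul 9 1 :: .int 2 :: .sub true 0 8 :: .mul 0 26 :: .tri 0 :: .mul 28 1 :: .mul 18 0 :: .add
    false 8 0 :: .mul 0 0 :: .mul 13 22 :: .mul 18 35 :: .smul (-1) 0 :: .tri 0 :: .cst 1 3 :: .add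
    false 36 28 :: .sub true 0 26 :: .mul 27 0 :: .mul 3 0 :: .smul 2 0 :: .mul 46 46 :: .mul 30 38
    :: .mul 0 8 :: .sub false 37 0 :: .mul 32 36 :: .mul 0 28 :: .mul 26 44 :: .mul 51 23 :: .mul 1
    0 :: .sub true 3 0 :: .mul 54 0 :: prog1

def vs : List Vr := [⟨2, 0, false, true⟩, ⟨2, 0, false, true⟩, ⟨7, 3, false, false⟩]

def C : Chart := ⟨vs, prog, [], 1, 3⟩

end Pool.Agent.Lib.MP_d6150d_an.ZmAR
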