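import Pool.Agent.Lib.MP_d6150d_an.GDef

/-! A generated chart: the program. -/

namespace Pool.Agent.Lib.MP_d6150d_an.ZmBL

def prog1 : List Ins := .mul 0 1 :: .mul 47 0 :: .mul 36 47 :: .mul 49 14 :: .mul 20 0 :: .add false
    2 0 :: .mul 0 0 :: .mul 43 0 :: .smul 4 60 :: .mul 0 58 :: .mul 16 16 :: .mul 1 0 :: .mul 28 54
    :: .add false 0 47 :: .mul 2 0 :: .sub true 7 0 :: .mul 28 0 :: .sub false 15 0 :: .cpy 0 :: []

def prog : List Ins := .int 2 :: .int 1 :: .var 0 :: .add false 1 0 :: .var 1 :: .sub true 1 0 ::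
    .smul 2 0 :: .sub true 6 0 :: .var 2 :: .mul 1 0 :: .smul (-1) 0 :: .tri 0 :: .smul (-1) 5 ::
    .tri 0 :: .sub false 16 15 :: .mul 0 3 :: .add false 0 17 :: .mul 4 0 :: .cst 1 3 :: .smul 2 20
    :: .add false 22 0 :: .sub true 0 19 :: .mul 20 0 :: .mul 4 0 :: .smul 2 0 :: .mul 20 20 :: .mul
    22 27 :: .sub true 18 17 :: .mul 1 0 :: .mul 26 14 :: .mul 27 25 :: .smul (-1) 0 :: .tri 0 ::
    .mul 5 0 :: .sub true 33 38 :: .sub true 39 17 :: .mul 1 0 :: .mul 2 34 :: .smul (-1) 0 :: .tri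
    0 :: .mul 5 0 :: .sub true 9 0 :: .mul 38 0 :: .add false 18 0 :: .mul 22 0 :: .mul 24 0 :: .add
    false 42 0 :: .rsq 0 :: .mul 34 0 :: .mul 0 0 :: prog1

def vs : List Vr := [⟨2, 0, false, true⟩, ⟨2, 0, false, true⟩, ⟨7, 3, false, false⟩]

def C : Chart := ⟨vs, prog, [], 1, 3⟩

end Pool.Agent.Lib.MP_d6150d_an.ZmBL
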