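import Pool.Agent.Lib.MP_d6150d_an.GDef

/-! A generated chart: the program. -/

namespace Pool.Agent.Lib.MP_d6150d_an.ZmBR

def prog1 : List Ins := .mul 11 0 :: .mul 13 0 :: .add false 22 0 :: .rsq 0 :: .mul 27 0 :: .mul 0 0
    :: .mul 0 2 :: .sub true 31 0 :: .mul 55 0 :: .mul 64 0 :: .smul 4 52 :: .mul 0 68 :: .mul 12 12
    :: .mul 1 0 :: .mul 60 69 :: .add false 60 0 :: .mul 2 0 :: .add false 7 0 :: .cpy 0 :: []

def prog : List Ins := .var 2 :: .smul (-1) 0 :: .tri 0 :: .int 1 :: .var 0 :: .sub false 1 0 ::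
    .mul 1 5 :: .add false 1 0 :: .mul 6 0 :: .smul 2 4 :: .sub true 6 0 :: .add false 7 6 :: .var 1
    :: .sub true 1 0 :: .smul 2 0 :: .sub true 0 11 :: .mul 0 17 :: .smul (-1) 0 :: .tri 0 :: .mul
    10 1 :: .int 2 :: .sub true 0 8 :: .mul 0 25 :: .tri 0 :: .mul 27 1 :: .mul 19 0 :: .add false 8
    0 :: .mul 0 0 :: .mul 13 23 :: .mul 18 34 :: .smul (-1) 0 :: .tri 0 :: .cst 1 3 :: .add false 35
    29 :: .sub true 0 26 :: .mul 27 0 :: .mul 3 0 :: .smul 2 0 :: .mul 45 45 :: .mul 30 39 :: .mul 0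
    8 :: .sub false 38 0 :: .mul 32 37 :: .mul 0 28 :: .mul 26 45 :: .mul 50 23 :: .mul 1 0 :: .sub
    false 3 0 :: .mul 53 0 :: .add true 7 0 :: prog1

def vs : List Vr := [⟨2, 0, false, true⟩, ⟨2, 0, false, true⟩, ⟨7, 3, false, false⟩]

def C : Chart := ⟨vs, prog, [], 1, 3⟩

end Pool.Agent.Lib.MP_d6150d_an.ZmBR
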