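import Pool.Agent.Lib.MP_d6150d_an.GDef

/-! A generated chart: the program. -/

namespace Pool.Agent.Lib.MP_d6150d_an.ZmCL

def prog1 : List Ins := .mul 36 49 :: .mul 51 14 :: .mul 20 0 :: .add false 2 0 :: .mul 0 0 :: .mul
    43 0 :: .smul 4 62 :: .mul 0 60 :: .mul 16 16 :: .mul 1 0 :: .mul 28 56 :: .add false 0 47 ::
    .mul 2 0 :: .sub true 7 0 :: .mul 28 0 :: .sub false 15 0 :: .cpy 0 :: []

def prog : List Ins := .int 2 :: .var 1 :: .smul 2 0 :: .sub true 2 0 :: .var 2 :: .mul 1 0 :: .smul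
    (-1) 0 :: .tri 0 :: .smul (-1) 5 :: .tri 0 :: .int 1 :: .var 0 :: .sub true 1 0 :: .mul 0 5 ::
    .add false 0 2 :: .mul 6 0 :: .cst 1 3 :: .smul 2 5 :: .add false 7 0 :: .sub true 0 21 :: .mul
    22 0 :: .mul 4 0 :: .smul 2 0 :: .mul 22 22 :: .mul 24 12 :: .sub true 20 19 :: .mul 1 0 :: .mul
    28 14 :: .mul 29 27 :: .smul (-1) 0 :: .tri 0 :: .mul 5 0 :: .sub true 35 23 :: .sub true 24 17
    :: .mul 1 0 :: .mul 2 36 :: .smul (-1) 0 :: .tri 0 :: .mul 5 0 :: .sub true 9 0 :: .mul 40 0 ::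
    .add false 18 0 :: .mul 22 0 :: .mul 24 0 :: .add false 44 0 :: .rsq 0 :: .mul 34 0 :: .mul 0 0
    :: .mul 0 1 :: .mul 49 0 :: prog1

def vs : List Vr := [⟨2, 0, false, false⟩, ⟨2, 0, false, false⟩, ⟨7, 3, false, false⟩]

def C : Chart := ⟨vs, prog, [], 1, 3⟩

end Pool.Agent.Lib.MP_d6150d_an.ZmCL
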