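import Pool.Agent.Lib.MP_d6150d_an.GDef

/-! A generated chart: the program. -/

namespace Pool.Agent.Lib.MP_d6150d_an.ZmCR

def prog1 : List Ins := .add false 22 0 :: .rsq 0 :: .mul 27 0 :: .mul 0 0 :: .mul 0 2 :: .sub true
    31 0 :: .mul 53 0 :: .mul 62 0 :: .smul 4 52 :: .mul 0 66 :: .mul 12 12 :: .mul 1 0 :: .mul 58
    67 :: .add false 58 0 :: .mul 2 0 :: .add false 7 0 :: .cpy 0 :: []

def prog : List Ins := .var 2 :: .smul (-1) 0 :: .tri 0 :: .int 1 :: .var 0 :: .sub true 1 0 :: .mul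
    1 5 :: .add false 1 0 :: .mul 6 0 :: .smul 2 4 :: .sub true 6 0 :: .var 1 :: .smul 2 0 :: .sub
    true 0 9 :: .mul 0 15 :: .smul (-1) 0 :: .tri 0 :: .mul 8 1 :: .int 2 :: .sub true 0 8 :: .mul 0
    23 :: .tri 0 :: .mul 25 1 :: .mul 17 0 :: .add false 8 0 :: .mul 0 0 :: .mul 13 21 :: .mul 18 32
    :: .smul (-1) 0 :: .tri 0 :: .cst 1 3 :: .add false 33 27 :: .sub true 0 26 :: .mul 27 0 :: .mul
    3 0 :: .smul 2 0 :: .mul 43 43 :: .mul 30 37 :: .mul 0 8 :: .sub false 36 0 :: .mul 32 35 ::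
    .mul 0 28 :: .mul 26 43 :: .mul 48 23 :: .mul 1 0 :: .sub true 3 0 :: .mul 51 0 :: .add true 7 0
    :: .mul 11 0 :: .mul 13 0 :: prog1

def vs : List Vr := [⟨2, 0, false, false⟩, ⟨2, 0, false, false⟩, ⟨7, 3, false, false⟩]

def C : Chart := ⟨vs, prog, [], 1, 3⟩

end Pool.Agent.Lib.MP_d6150d_an.ZmCR
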