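import Pool.Agent.Lib.MP_d6150d_an.ZmHAD

/-! A generated chart: the computations. -/

namespace Pool.Agent.Lib.MP_d6150d_an.ZmHA

theorem k0 : chk C 0x8883843883948839404 [(0, 19791209299968), (0, 70368744177664), (0,
    140737488355328), (0, 8796093022208), (0, 43980465111040)] = true := by
  decide +kernel

end Pool.Agent.Lib.MP_d6150d_an.ZmHA
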