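import Pool.Agent.Lib.MP_d6150d_an.GDef

/-! A generated chart: the program. -/

namespace Pool.Agent.Lib.MP_d6150d_an.ZmHA

def prog1 : List Ins := .add true 47 0 :: .mul 0 19 :: .mul 0 16 :: .add true 4 0 :: .mul 53 0 ::
    .add true 34 51 :: .mul 0 43 :: .mul 24 25 :: .mul 1 0 :: .add false 4 0 :: .cpy 0 :: []

def prog : List Ins := .var 0 :: .var 4 :: .var 3 :: .sub true 1 0 :: .smul 2 0 :: .var 1 :: .mul 1
    0 :: .add true 6 0 :: .int 1 :: .sub true 0 5 :: .sub false 1 7 :: .cst 1 2 :: .sub true 0 9 ::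
    .smul 2 0 :: .mul 0 13 :: .sub false 4 0 :: .mul 15 15 :: .mul 14 0 :: .sub true 2 0 :: .mul 9 0
    :: .smul 2 17 :: .mul 0 15 :: .sub true 13 14 :: .mul 9 0 :: .sub true 15 19 :: .inv 0 :: .mul 2
    0 :: .add false 5 0 :: .mul 0 0 :: .mul 9 0 :: .mul 29 2 :: .sub true 12 0 :: .mul 0 0 :: .smul
    2 0 :: .mul 0 31 :: .add false 5 0 :: .mul 35 0 :: .mul 23 4 :: .add false 1 0 :: .mul 20 20 ::
    .mul 0 21 :: .mul 31 0 :: .sub true 3 0 :: .mul 35 0 :: .mul 40 34 :: .mul 0 4 :: .var 2 :: .mul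
    1 0 :: .sub false 4 0 :: .mul 37 45 :: prog1

def vs : List Vr := [⟨2, 0, false, false⟩, ⟨1, 0, false, false⟩, ⟨1, 0, false, false⟩, ⟨2, 0, false,
    true⟩, ⟨3, 0, false, true⟩]

def C : Chart := ⟨vs, prog, [], 1, 3⟩

end Pool.Agent.Lib.MP_d6150d_an.ZmHA
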