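import Pool.Agent.Lib.MP_d6150d_an.ZmHBD

/-! A generated chart: the computations. -/

namespace Pool.Agent.Lib.MP_d6150d_an.ZmHB

theorem k0 : chk C 0x8882388838249909234 [(0, 35184372088832), (0, 140737488355328),
    (-8796093022208, 35184372088832), (0, 19791209299968), (0, 15393162788864)] = true := by
  decide +kernel

theorem k1 : chk C 0x888048943888048829432 [(35184372088832, 70368744177664), (0, 70368744177664),
    (-8796093022208, 35184372088832), (0, 19791209299968), (0, 15393162788864)] = true := by
  decide +kernel

theorem k2 : chk C 0x883888049929034888048829432 [(35184372088832, 70368744177664), (70368744177664,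
    140737488355328), (-8796093022208, 35184372088832), (0, 19791209299968), (0, 15393162788864)] =
    true := by
  decide +kernel

theorem k3 : chk C 0x8828823 [(0, 70368744177664), (0, 140737488355328), (-8796093022208,
    35184372088832), (0, 19791209299968), (15393162788864, 30786325577728)] = true := by
  decide +kernel

theorem k4 : chk C 0x8828823 [(0, 70368744177664), (0, 140737488355328), (-8796093022208,
    35184372088832), (0, 19791209299968), (30786325577728, 61572651155456)] = true := by
  decide +kernel

end Pool.Agent.Lib.MP_d6150d_an.ZmHB
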