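import Pool.Agent.Lib.MP_d6150d_an.GMac
import Pool.Agent.Lib.MP_d6150d_an.PpChk
import Pool.Agent.Lib.MP_d6150d_an.ZmHBK0

/-! A generated chart: the inequality. -/

namespace Pool.Agent.Lib.MP_d6150d_an.ZmHB

set_option linter.unnecessarySeqFocus false
set_option linter.unusedTactic false
set_option linter.unusedVariables false

theorem gd : Gd2 C [(0, 70368744177664), (0, 140737488355328), (-8796093022208, 35184372088832), (0,
    19791209299968), (0, 61572651155456)] := .split 4 (.split 4 (.split 0 (chk_sound2 k0) (.split 1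
    (chk_sound2 k1) (chk_sound2 k2))) (chk_sound2 k3)) (chk_sound2 k4)

set_option maxRecDepth 100000 in
theorem eq {x y e q a d F p w n m G : ℝ} (hd : d = 1 / 2 - a) (hF : F = 1 - e) (hp : p = q + 2 * e *
    x) (hw : w = 1 - d - 2 * a * q - d * q ^ 2) (hn : n = 2 * d * x + 2 * a * (1 - p) / (1 - 2 * e))
    (hm : m = w - q * n) (hG : G = F * w * n ^ 2 + 2 * m ^ 2 * d) : outR prog 0 [x, y, e, q, a] = q
    * (p * (q * G + 2 * a * m ^ 2 - F * w ^ 3) - e * F * w ^ 3 * y + (d + e / 2) * m * G) + (2 * d +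
    e) * a * m ^ 3 := by
  replace hd : d = (((Int.cast (1) : ℝ) / (Nat.cast 2 : ℝ)) - a) := hd.trans (by push_cast <;> ring)
  replace hF : F = ((Int.cast (1) : ℝ) - e) := hF.trans (by push_cast <;> ring)
  replace hp : p = (q + (((Int.cast (2) : ℝ) * e) * x)) := hp.trans (by push_cast <;> ring)
  replace hw : w = ((((Int.cast (1) : ℝ) - d) - (((Int.cast (2) : ℝ) * a) * q)) - (d * (q * q))) :=
    hw.trans (by push_cast <;> ring)
  replace hn : n = ((((Int.cast (2) : ℝ) * d) * x) + ((((Int.cast (2) : ℝ) * a) * ((Int.cast (1) :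
    ℝ) - p)) * ((Int.cast (1) : ℝ) - ((Int.cast (2) : ℝ) * e))⁻¹)) := hn.trans (by push_cast <;>
    ring)
  replace hm : m = (w - (q * n)) := hm.trans (by push_cast <;> ring)
  replace hG : G = (((F * w) * (n * n)) + (((Int.cast (2) : ℝ) * (m * m)) * d)) := hG.trans (by
    push_cast <;> ring)
  have e0 : ((q * (((p * (((q * G) + (((Int.cast (2) : ℝ) * a) * (m * m))) - (F * ((w * w) * w)))) -
    (((e * F) * ((w * w) * w)) * y)) + (((d + (((Int.cast (1) : ℝ) / (Nat.cast 2 : ℝ)) * e)) * m) *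
    G))) + (((((Int.cast (2) : ℝ) * d) + e) * a) * ((m * m) * m))) = q * (p * (q * G + 2 * a * m ^ 2
    - F * w ^ 3) - e * F * w ^ 3 * y + (d + e / 2) * m * G) + (2 * d + e) * a * m ^ 3 := by
    push_cast <;> ring
  subst hd hF hp hw hn hm hG
  exact Eq.trans rfl e0

theorem l0 : ((0 : ℤ) : ℝ) / 2 ^ 47 = 0 := by norm_num
theorem u0 : (1 / 2 : ℝ) = ((70368744177664 : ℤ) : ℝ) / 2 ^ 47 := by norm_num
theorem l1 : ((0 : ℤ) : ℝ) / 2 ^ 47 = 0 := by norm_num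
theorem u1 : (1 : ℝ) = ((140737488355328 : ℤ) : ℝ) / 2 ^ 47 := by norm_num
theorem l2 : ((-8796093022208 : ℤ) : ℝ) / 2 ^ 47 = -1 / 16 := by norm_num
theorem u2 : (1 / 4 : ℝ) = ((35184372088832 : ℤ) : ℝ) / 2 ^ 47 := by norm_num
theorem l3 : ((0 : ℤ) : ℝ) / 2 ^ 47 = 0 := by norm_num
theorem u3 : (9 / 64 : ℝ) = ((19791209299968 : ℤ) : ℝ) / 2 ^ 47 := by norm_num
theorem l4 : ((0 : ℤ) : ℝ) / 2 ^ 47 = 0 := by norm_num
theorem u4 : (7 / 16 : ℝ) = ((61572651155456 : ℤ) : ℝ) / 2 ^ 47 := by norm_num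

theorem out0 (N : ∀ x y e : ℝ, 0 ≤ x → x ≤ 1 / 2 → 0 ≤ y → y ≤ 1 → -1 / 16 ≤ e → e ≤ 1 / 4 → 0 ≤
    outR prog 0 [x, y, e, 0, 0]) {x y e q a : ℝ} (a0 : 0 ≤ x) (b0 : x ≤ 1 / 2) (a1 : 0 ≤ y) (b1 : y
    ≤ 1) (a2 : -1 / 16 ≤ e) (b2 : e ≤ 1 / 4) (a3 : 0 ≤ q) (b3 : q ≤ 9 / 64) (a4 : 0 ≤ a) (b4 : a ≤ 7
    / 16) (pc : 0 < q ∨ 0 < a) : 0 < outR prog 0 [x, y, e, q, a] :=
  gd 0 (by decide) [x, y, e, q, a] (.cons ⟨l0.le.trans a0, b0.trans u0.le⟩ (.cons ⟨l1.le.trans a1,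
    b1.trans u1.le⟩ (.cons ⟨l2.le.trans a2, b2.trans u2.le⟩ (.cons ⟨l3.le.trans a3, b3.trans u3.le⟩
    (.cons ⟨l4.le.trans a4, b4.trans u4.le⟩ (.nil)))))) ⟨nofun, nofun, nofun, nofun, nofun, trivial⟩
    (fun _ ↦ pc.elim (fun h ↦ .inr (.inr (.inr (.inl ⟨rfl, h⟩)))) (fun h ↦ .inr (.inr (.inr (.inr
    (.inl ⟨rfl, h⟩)))))) (List.forall_mem_nil _) (Van.of0 rfl) (fun _ y0 a0 b0 y1 a1 b1 y2 a2 b2 _ _
    _ _ _ _ ↦ N y0 y1 y2 (l0.ge.trans a0) (b0.trans u0.ge) (l1.ge.trans a1) (b1.trans u1.ge)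
    (l2.ge.trans a2) (b2.trans u2.ge))

end Pool.Agent.Lib.MP_d6150d_an.ZmHB
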