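import Pool.Agent.Lib.MP_d6150d_an.GDef

/-! A generated chart: the program. -/

namespace Pool.Agent.Lib.MP_d6150d_an.ZmHB

def prog1 : List Ins := .mul 0 19 :: .mul 0 16 :: .add true 4 0 :: .mul 52 0 :: .add false 34 52 ::
    .mul 0 45 :: .mul 24 25 :: .mul 1 0 :: .add false 4 0 :: .cpy 0 :: []

def prog : List Ins := .var 3 :: .var 2 :: .smul 2 0 :: .var 0 :: .mul 1 0 :: .add true 4 0 :: .int
    1 :: .sub true 0 5 :: .cst 1 2 :: .var 4 :: .sub true 1 0 :: .sub false 4 0 :: .smul 2 2 :: .mul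
    0 12 :: .sub false 2 0 :: .mul 14 14 :: .mul 5 0 :: .sub true 2 0 :: .mul 10 0 :: .smul 2 8 ::
    .mul 0 16 :: .sub true 14 15 :: .mul 9 0 :: .sub true 16 20 :: .inv 0 :: .mul 2 0 :: .add false
    5 0 :: .mul 0 0 :: .mul 9 0 :: .mul 28 2 :: .sub false 12 0 :: .mul 0 0 :: .smul 2 0 :: .mul 0
    22 :: .add false 5 0 :: .mul 34 0 :: .mul 23 4 :: .add false 1 0 :: .mul 20 20 :: .mul 0 21 ::
    .mul 32 0 :: .sub true 3 0 :: .mul 36 0 :: .mul 41 35 :: .mul 0 4 :: .var 1 :: .mul 1 0 :: .sub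
    false 4 0 :: .mul 39 46 :: .add false 38 0 :: prog1

def vs : List Vr := [⟨1, 0, false, false⟩, ⟨1, 0, false, false⟩, ⟨2, 0, false, false⟩, ⟨2, 0, false,
    true⟩, ⟨3, 0, false, true⟩]

def C : Chart := ⟨vs, prog, [], 1, 3⟩

end Pool.Agent.Lib.MP_d6150d_an.ZmHB
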