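import Pool.Agent.Lib.MP_d6150d_an.ZmHCD

/-! A generated chart: the computations. -/

namespace Pool.Agent.Lib.MP_d6150d_an.ZmHC

theorem k0 : chk C 0x881888880222888880222128808882293912913 [(0, 2748779069440), (0,
    10995116277760), (0, 2814749767106560), (0, 844424930131968)] = true := by
  decide +kernel

end Pool.Agent.Lib.MP_d6150d_an.ZmHC
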