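import Pool.Agent.Lib.MP_d6150d_an.GMac
import Pool.Agent.Lib.MP_d6150d_an.PpChk
import Pool.Agent.Lib.MP_d6150d_an.ZmHCK0

/-! A generated chart: the inequality. -/

namespace Pool.Agent.Lib.MP_d6150d_an.ZmHC

set_option linter.unnecessarySeqFocus false
set_option linter.unusedTactic false
set_option linter.unusedVariables false

theorem gd : Gd2 C [(0, 2748779069440), (0, 10995116277760), (0, 2814749767106560), (0,
    844424930131968)] := chk_sound2 k0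

set_option maxRecDepth 100000 in
theorem eq {s g dl ph d h e F z ri w z8 mu r : ℝ} (hd : d = dl * s ^ 2) (hh : h = ph - dl * s) (he :
    e = h * s) (hF : F = 1 - e) (hz : z = Real.exp ((-2) * h * g)) (hri : ri = Real.exp (h * g)) (hw
    : w = (1 - s) * (1 - d + dl * s)) (hz8 : z8 = ph1 ((-2) * h * g)) (hmu : mu = 2 * F * (dl * s *
    g * z8 + (1 - 2 * d) * (z - s) / (1 - 2 * e) - (1 - d) * (z - s ^ 2) / (2 - 2 * e))) (hr : r =
    (√(1 + (2 * d + e) / 3 * mu * ri ^ 2))⁻¹) : outR prog 0 [s, g, dl, ph] = F * w ^ 3 * r ^ 3 - ri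
    * (F * w ^ 2 * (s * w + 2 * mu) - (dl + h * (dl * s + 1 - 2 * d) + F * (1 - d)) * mu ^ 2) := by
  replace hd : d = (dl * (s * s)) := hd.trans (by push_cast <;> ring)
  replace hh : h = (ph - (dl * s)) := hh.trans (by push_cast <;> ring)
  replace he : e = (h * s) := he.trans (by push_cast <;> ring)
  replace hF : F = ((Int.cast (1) : ℝ) - e) := hF.trans (by push_cast <;> ring)
  replace hz : z = (Real.exp (((Int.cast (-2) : ℝ) * h) * g)) := hz.trans (congrArg Real.exp (by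
    push_cast <;> ring))
  replace hri : ri = (Real.exp (h * g)) := hri.trans (congrArg Real.exp (by push_cast <;> ring))
  replace hw : w = (((Int.cast (1) : ℝ) - s) * (((Int.cast (1) : ℝ) - d) + (dl * s))) := hw.trans
    (by push_cast <;> ring)
  replace hz8 : z8 = (ph1 (((Int.cast (-2) : ℝ) * h) * g)) := hz8.trans (congrArg ph1 (by push_cast
    <;> ring))
  replace hmu : mu = (((Int.cast (2) : ℝ) * F) * (((((dl * s) * g) * z8) + ((((Int.cast (1) : ℝ) -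
    ((Int.cast (2) : ℝ) * d)) * (z - s)) * ((Int.cast (1) : ℝ) - ((Int.cast (2) : ℝ) * e))⁻¹)) -
    ((((Int.cast (1) : ℝ) - d) * (z - (s * s))) * ((Int.cast (2) : ℝ) - ((Int.cast (2) : ℝ) *
    e))⁻¹))) := hmu.trans (by push_cast <;> ring)
  replace hr : r = (√((Int.cast (1) : ℝ) + (((((Int.cast (1) : ℝ) / (Nat.cast 3 : ℝ)) * (((Int.cast
    (2) : ℝ) * d) + e)) * mu) * (ri * ri))))⁻¹ := hr.trans (congrArg (fun x : ℝ ↦ (√x)⁻¹) (by
    push_cast <;> ring))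
  have e0 : (((F * ((w * w) * w)) * ((r * r) * r)) - (ri * (((F * (w * w)) * ((s * w) + ((Int.cast
    (2) : ℝ) * mu))) - (((dl + (h * (((dl * s) + (Int.cast (1) : ℝ)) - ((Int.cast (2) : ℝ) * d)))) +
    (F * ((Int.cast (1) : ℝ) - d))) * (mu * mu))))) = F * w ^ 3 * r ^ 3 - ri * (F * w ^ 2 * (s * w +
    2 * mu) - (dl + h * (dl * s + 1 - 2 * d) + F * (1 - d)) * mu ^ 2) := by push_cast <;> ring
  subst hd hh he hF hz hri hw hz8 hmu hr
  exact Eq.trans rfl e0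

theorem l0 : ((0 : ℤ) : ℝ) / 2 ^ 47 = 0 := by norm_num
theorem u0 : (5 / 256 : ℝ) = ((2748779069440 : ℤ) : ℝ) / 2 ^ 47 := by norm_num
theorem l1 : ((0 : ℤ) : ℝ) / 2 ^ 47 = 0 := by norm_num
theorem u1 : (5 / 64 : ℝ) = ((10995116277760 : ℤ) : ℝ) / 2 ^ 47 := by norm_num
theorem l2 : ((0 : ℤ) : ℝ) / 2 ^ 47 = 0 := by norm_num
theorem u2 : (20 : ℝ) = ((2814749767106560 : ℤ) : ℝ) / 2 ^ 47 := by norm_num
theorem l3 : ((0 : ℤ) : ℝ) / 2 ^ 47 = 0 := by norm_num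
theorem u3 : (6 : ℝ) = ((844424930131968 : ℤ) : ℝ) / 2 ^ 47 := by norm_num

theorem out0 (N : ∀ s g : ℝ, 0 ≤ s → s ≤ 5 / 256 → 0 ≤ g → g ≤ 5 / 64 → 0 ≤ outR prog 0 [s, g, 0,
    0]) {s g dl ph : ℝ} (a0 : 0 ≤ s) (b0 : s ≤ 5 / 256) (a1 : 0 ≤ g) (b1 : g ≤ 5 / 64) (a2 : 0 ≤ dl)
    (b2 : dl ≤ 20) (a3 : 0 ≤ ph) (b3 : ph ≤ 6) (pc : 0 < dl ∨ 0 < ph) : 0 < outR prog 0 [s, g, dl,
    ph] :=
  gd 0 (by decide) [s, g, dl, ph] (.cons ⟨l0.le.trans a0, b0.trans u0.le⟩ (.cons ⟨l1.le.trans a1,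
    b1.trans u1.le⟩ (.cons ⟨l2.le.trans a2, b2.trans u2.le⟩ (.cons ⟨l3.le.trans a3, b3.trans u3.le⟩
    (.nil))))) ⟨nofun, nofun, nofun, nofun, trivial⟩ (fun _ ↦ pc.elim (fun h ↦ .inr (.inr (.inl
    ⟨rfl, h⟩))) (fun h ↦ .inr (.inr (.inr (.inl ⟨rfl, h⟩))))) (List.forall_mem_nil _) (Van.of0 rfl)
    (fun _ y0 a0 b0 y1 a1 b1 _ _ _ _ _ _ ↦ N y0 y1 (l0.ge.trans a0) (b0.trans u0.ge) (l1.ge.trans
    a1) (b1.trans u1.ge))

end Pool.Agent.Lib.MP_d6150d_an.ZmHC
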