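import Pool.Agent.Lib.MP_d6150d_an.GDef

/-! A generated chart: the program. -/

namespace Pool.Agent.Lib.MP_d6150d_an.ZmHC

def prog1 : List Ins := .rsq 0 :: .mul 0 0 :: .mul 0 1 :: .mul 38 0 :: .mul 48 41 :: .mul 53 43 ::
    .smul 2 12 :: .add false 1 0 :: .mul 3 0 :: .add false 56 60 :: .sub false 0 43 :: .mul 57 0 ::
    .add false 61 0 :: .mul 57 53 :: .add false 1 0 :: .mul 21 21 :: .mul 1 0 :: .sub true 8 0 ::
    .mul 21 0 :: .sub false 15 0 :: .cpy 0 :: []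

def prog : List Ins := .int 1 :: .var 3 :: .var 2 :: .var 0 :: .mul 1 0 :: .sub false 3 0 :: .mul 0
    2 :: .sub false 6 0 :: .sub false 7 4 :: .mul 5 5 :: .mul 7 0 :: .sub false 10 0 :: .add false 0
    7 :: .mul 4 0 :: .mul 0 0 :: .mul 0 1 :: .mul 8 0 :: .cst 1 3 :: .smul 2 7 :: .add true 0 12 ::
    .mul 2 0 :: .smul 2 13 :: .var 1 :: .mul 18 0 :: .smul (-2) 18 :: .mul 0 2 :: .tri 0 :: .mul 5 1
    :: .sub false 29 11 :: .sub false 4 27 :: .mul 1 0 :: .smul 2 26 :: .sub true 33 0 :: .inv 0 ::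
    .mul 3 0 :: .add false 7 0 :: .sub false 11 28 :: .mul 27 0 :: .int 2 :: .sub false 0 7 :: .inv
    0 :: .mul 3 0 :: .sub true 6 0 :: .mul 23 0 :: .mul 25 0 :: .mul 41 24 :: .exp 0 :: .mul 0 0 ::
    .mul 3 0 :: .add false 50 0 :: prog1

def vs : List Vr := [⟨2, 0, false, false⟩, ⟨2, 0, false, false⟩, ⟨2, 0, false, true⟩, ⟨3, 0, false,
    true⟩]

def C : Chart := ⟨vs, prog, [], 1, 3⟩

end Pool.Agent.Lib.MP_d6150d_an.ZmHC
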