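import Pool.Agent.Lib.MP_d6150d_an.ZmHDD

/-! A generated chart: the computations. -/

namespace Pool.Agent.Lib.MP_d6150d_an.ZmHD

theorem k0 : chk C 0x88082838dd318388328dd3183883201 [(0, 140737488355328), (0, 1688849860263936),
    (0, 40210710958666), (0, 18141941858304)] = true := by
  decide +kernel

theorem k1 : chk C 0xaaadd1232dd08283dd1828813dd1828813012 [(0, 140737488355328), (0,
    1688849860263936), (0, 40210710958666), (18141941858304, 36283883716608)] = true := by
  decide +kernel

end Pool.Agent.Lib.MP_d6150d_an.ZmHD
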