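import Pool.Agent.Lib.MP_d6150d_an.GMac
import Pool.Agent.Lib.MP_d6150d_an.PpChk
import Pool.Agent.Lib.MP_d6150d_an.ZmHDK0

/-! A generated chart: the inequality. -/

namespace Pool.Agent.Lib.MP_d6150d_an.ZmHD

set_option linter.unnecessarySeqFocus false
set_option linter.unusedTactic false
set_option linter.unusedVariables false

theorem gd : Gd2 C [(0, 140737488355328), (0, 1688849860263936), (0, 40210710958666), (0,
    36283883716608)] := .split 3 (chk_sound2 k0) (chk_sound2 k1)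

set_option maxRecDepth 100000 in
theorem eq {g dl th f k dh d e F z6 c U v : ℝ} (hk : k = th * f) (hdh : dh = dl * k ^ 2) (hd : d = g
    * dh) (he : e = f - d) (hF : F = 1 - e) (hz6 : z6 = ph1 ((-8) * e)) (hc : c = 4 * z6) (hU : U =
    2 * F * (dh * c + ((1 - 2 * d) * (1 - 2 * e * c - k) / (1 - 2 * e) - (1 - d) * (1 - 2 * e * c) /
    (2 - 2 * e)))) (hv : v = dl * k + 1 - d) : outR prog 0 [g, dl, th, f] = ((1 + e) * dl * th + (1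
    - g * dl * th * k) * (1 - 2 * d)) * U ^ 2 - F * th * v ^ 2 * (k * v + 2 * U) ∧ outR prog 1 [g,
    dl, th, f] = U ∧ outR (prog.take 6) 0 [g, dl, th, f] = 1 / 50 - k := by
  replace hk : k = (th * f) := hk.trans (by push_cast <;> ring)
  replace hdh : dh = (dl * (k * k)) := hdh.trans (by push_cast <;> ring)
  replace hd : d = (g * dh) := hd.trans (by push_cast <;> ring)
  replace he : e = (f - d) := he.trans (by push_cast <;> ring)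
  replace hF : F = ((Int.cast (1) : ℝ) - e) := hF.trans (by push_cast <;> ring)
  replace hz6 : z6 = (ph1 ((Int.cast (-8) : ℝ) * e)) := hz6.trans (congrArg ph1 (by push_cast <;>
    ring))
  replace hc : c = ((Int.cast (4) : ℝ) * z6) := hc.trans (by push_cast <;> ring)
  replace hU : U = (((Int.cast (2) : ℝ) * F) * ((dh * c) + (((((Int.cast (1) : ℝ) - ((Int.cast (2) :
    ℝ) * d)) * (((Int.cast (1) : ℝ) - (((Int.cast (2) : ℝ) * e) * c)) - k)) * ((Int.cast (1) : ℝ) -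
    ((Int.cast (2) : ℝ) * e))⁻¹) - ((((Int.cast (1) : ℝ) - d) * ((Int.cast (1) : ℝ) - (((Int.cast
    (2) : ℝ) * e) * c))) * ((Int.cast (2) : ℝ) - ((Int.cast (2) : ℝ) * e))⁻¹)))) := hU.trans (by
    push_cast <;> ring)
  replace hv : v = (((dl * k) + (Int.cast (1) : ℝ)) - d) := hv.trans (by push_cast <;> ring)
  have e0 : (((((((Int.cast (1) : ℝ) + e) * dl) * th) + (((Int.cast (1) : ℝ) - (((g * dl) * th) *
    k)) * ((Int.cast (1) : ℝ) - ((Int.cast (2) : ℝ) * d)))) * (U * U)) - (((F * th) * (v * v)) * ((k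
    * v) + ((Int.cast (2) : ℝ) * U)))) = ((1 + e) * dl * th + (1 - g * dl * th * k) * (1 - 2 * d)) *
    U ^ 2 - F * th * v ^ 2 * (k * v + 2 * U) := by push_cast <;> ring
  have e2 : (((Int.cast (1) : ℝ) / (Nat.cast 50 : ℝ)) - k) = 1 / 50 - k := by push_cast <;> ring
  subst hk hdh hd he hF hz6 hc hU hv
  exact ⟨Eq.trans rfl e0, rfl, Eq.trans rfl e2⟩

theorem l0 : ((0 : ℤ) : ℝ) / 2 ^ 47 = 0 := by norm_num
theorem u0 : (1 : ℝ) = ((140737488355328 : ℤ) : ℝ) / 2 ^ 47 := by norm_num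
theorem l1 : ((0 : ℤ) : ℝ) / 2 ^ 47 = 0 := by norm_num
theorem u1 : (12 : ℝ) = ((1688849860263936 : ℤ) : ℝ) / 2 ^ 47 := by norm_num
theorem l2 : ((0 : ℤ) : ℝ) / 2 ^ 47 = 0 := by norm_num
theorem u2 : (2 / 7 : ℝ) ≤ ((40210710958666 : ℤ) : ℝ) / 2 ^ 47 := by norm_num
theorem l3 : ((0 : ℤ) : ℝ) / 2 ^ 47 = 0 := by norm_num
theorem u3 : (33 / 128 : ℝ) = ((36283883716608 : ℤ) : ℝ) / 2 ^ 47 := by norm_num

theorem out0 {g dl th f : ℝ} (a0 : 0 ≤ g) (b0 : g ≤ 1) (a1 : 0 ≤ dl) (b1 : dl ≤ 12) (a2 : 0 ≤ th)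
    (b2 : th ≤ 2 / 7) (a3 : 0 ≤ f) (b3 : f ≤ 33 / 128) (c0 : 0 ≤ outR (prog.take 6) 0 [g, dl, th,
    f]) : 0 < outR prog 0 [g, dl, th, f] :=
  gd 0 (by decide) [g, dl, th, f] (.cons ⟨l0.le.trans a0, b0.trans u0.le⟩ (.cons ⟨l1.le.trans a1,
    b1.trans u1.le⟩ (.cons ⟨l2.le.trans a2, b2.trans u2⟩ (.cons ⟨l3.le.trans a3, b3.trans u3.le⟩
    (.nil))))) ⟨nofun, nofun, nofun, nofun, trivial⟩ (nofun) (List.forall_mem_cons.2 ⟨c0,
    List.forall_mem_nil _⟩) (Van.of0 rfl) (nofun)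

theorem pos0 {g dl th f k dh d e F z6 c U v : ℝ} (hk : k = th * f) (hdh : dh = dl * k ^ 2) (hd : d =
    g * dh) (he : e = f - d) (hF : F = 1 - e) (hz6 : z6 = ph1 ((-8) * e)) (hc : c = 4 * z6) (hU : U
    = 2 * F * (dh * c + ((1 - 2 * d) * (1 - 2 * e * c - k) / (1 - 2 * e) - (1 - d) * (1 - 2 * e * c)
    / (2 - 2 * e)))) (hv : v = dl * k + 1 - d) (a0 : 0 ≤ g) (b0 : g ≤ 1) (a1 : 0 ≤ dl) (b1 : dl ≤
    12) (a2 : 0 ≤ th) (b2 : th ≤ 2 / 7) (a3 : 0 ≤ f) (b3 : f ≤ 33 / 128) (c0 : 0 ≤ 1 / 50 - k) : 0 <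
    ((1 + e) * dl * th + (1 - g * dl * th * k) * (1 - 2 * d)) * U ^ 2 - F * th * v ^ 2 * (k * v + 2
    * U) :=
  have e := eq hk hdh hd he hF hz6 hc hU hv
  (out0 a0 b0 a1 b1 a2 b2 a3 b3 (c0.trans_eq e.2.2.symm)).trans_eq e.1

theorem out1 {g dl th f : ℝ} (a0 : 0 ≤ g) (b0 : g ≤ 1) (a1 : 0 ≤ dl) (b1 : dl ≤ 12) (a2 : 0 ≤ th)
    (b2 : th ≤ 2 / 7) (a3 : 0 ≤ f) (b3 : f ≤ 33 / 128) (c0 : 0 ≤ outR (prog.take 6) 0 [g, dl, th,
    f]) : 0 < outR prog 1 [g, dl, th, f] :=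
  gd 1 (by decide) [g, dl, th, f] (.cons ⟨l0.le.trans a0, b0.trans u0.le⟩ (.cons ⟨l1.le.trans a1,
    b1.trans u1.le⟩ (.cons ⟨l2.le.trans a2, b2.trans u2⟩ (.cons ⟨l3.le.trans a3, b3.trans u3.le⟩
    (.nil))))) ⟨nofun, nofun, nofun, nofun, trivial⟩ (nofun) (List.forall_mem_cons.2 ⟨c0,
    List.forall_mem_nil _⟩) (Van.of0 rfl) (nofun)

theorem pos1 {g dl th f k dh d e F z6 c U v : ℝ} (hk : k = th * f) (hdh : dh = dl * k ^ 2) (hd : d =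
    g * dh) (he : e = f - d) (hF : F = 1 - e) (hz6 : z6 = ph1 ((-8) * e)) (hc : c = 4 * z6) (hU : U
    = 2 * F * (dh * c + ((1 - 2 * d) * (1 - 2 * e * c - k) / (1 - 2 * e) - (1 - d) * (1 - 2 * e * c)
    / (2 - 2 * e)))) (hv : v = dl * k + 1 - d) (a0 : 0 ≤ g) (b0 : g ≤ 1) (a1 : 0 ≤ dl) (b1 : dl ≤
    12) (a2 : 0 ≤ th) (b2 : th ≤ 2 / 7) (a3 : 0 ≤ f) (b3 : f ≤ 33 / 128) (c0 : 0 ≤ 1 / 50 - k) : 0 <
    U :=
  have e := eq hk hdh hd he hF hz6 hc hU hv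
  (out1 a0 b0 a1 b1 a2 b2 a3 b3 (c0.trans_eq e.2.2.symm)).trans_eq e.2.1

end Pool.Agent.Lib.MP_d6150d_an.ZmHD
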