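import Pool.Agent.Lib.MP_d6150d_an.GDef

/-! A generated chart: the program. -/

namespace Pool.Agent.Lib.MP_d6150d_an.ZmHD

def prog1 : List Ins := .mul 43 48 :: .add false 0 46 :: .sub false 0 42 :: .mul 0 0 :: .mul 4 0 ::
    .mul 53 2 :: .smul 2 9 :: .add false 1 0 :: .mul 3 0 :: .sub false 10 0 :: .cpy 13 :: .cpy 1 ::
    []

def prog : List Ins := .cst 1 50 :: .var 2 :: .var 3 :: .mul 1 0 :: .sub false 3 0 :: .cpy 0 :: .int
    1 :: .var 0 :: .var 1 :: .mul 5 5 :: .mul 1 0 :: .mul 3 0 :: .sub false 9 0 :: .add false 6 0 ::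
    .mul 0 5 :: .mul 0 13 :: .mul 8 7 :: .mul 0 15 :: .mul 0 14 :: .sub false 12 0 :: .smul 2 8 ::
    .sub false 14 0 :: .mul 2 0 :: .add false 7 0 :: .sub true 17 11 :: .smul 2 0 :: .smul (-8) 13
    :: .tri 0 :: .smul 4 1 :: .mul 20 0 :: .smul 2 19 :: .mul 0 2 :: .sub true 27 0 :: .sub true 0
    31 :: .mul 14 0 :: .sub true 30 4 :: .inv 0 :: .mul 2 0 :: .sub false 33 28 :: .mul 0 6 :: .int
    2 :: .sub true 0 10 :: .inv 0 :: .mul 3 0 :: .sub false 6 0 :: .add true 15 0 :: .mul 22 0 ::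
    .mul 0 0 :: .mul 26 0 :: .mul 26 49 :: prog1

def vs : List Vr := [⟨1, 0, false, false⟩, ⟨1, 0, false, false⟩, ⟨2, 0, false, false⟩, ⟨3, 0, false,
    false⟩]

def C : Chart := ⟨vs, prog, [6], 2, 3⟩

end Pool.Agent.Lib.MP_d6150d_an.ZmHD
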