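import Pool.Agent.Lib.MP_d6150d_an.ZmHED

/-! A generated chart: the computations. -/

namespace Pool.Agent.Lib.MP_d6150d_an.ZmHE

theorem k0 : chk C 0x88188388313 [(0, 2814749767107), (-8796093022208, 13194139533312), (0,
    211106232532992), (0, 140737488355328)] = true := by
  decide +kernel

theorem k1 : chk C 0x881881881813881883813288388318838831203 [(0, 2814749767107), (13194139533312,
    35184372088832), (0, 211106232532992), (0, 140737488355328)] = true := by
  decide +kernel

end Pool.Agent.Lib.MP_d6150d_an.ZmHE
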