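import Pool.Agent.Lib.MP_d6150d_an.GMac
import Pool.Agent.Lib.MP_d6150d_an.PpChk
import Pool.Agent.Lib.MP_d6150d_an.ZmHEK0

/-! A generated chart: the inequality. -/

namespace Pool.Agent.Lib.MP_d6150d_an.ZmHE

set_option linter.unnecessarySeqFocus false
set_option linter.unusedTactic false
set_option linter.unusedVariables false

theorem gd : Gd2 C [(0, 2814749767107), (-8796093022208, 35184372088832), (0, 211106232532992), (0,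
    140737488355328)] := .split 1 (chk_sound2 k0) (chk_sound2 k1)

set_option maxRecDepth 100000 in
theorem eq {k e l x d F y z4 c U : ℝ} (hd : d = l * x) (hF : F = 1 - e) (hy : y = 1 - x) (hz4 : z4 =
    ph1 ((-8) * e)) (hc : c = 4 * z4) (hU : U = 2 * F * (x * c + y * ((1 - 2 * d) * (1 - 2 * e * c -
    k) / (1 - 2 * e) - (1 - d) * (1 - 2 * e * c) / (2 - 2 * e)))) : outR prog 0 [k, e, l, x] = (1 +
    e - k) * U ^ 2 - F * (x + 2 * k * y + y / 12) * (x + k * y + 2 * U) ∧ outR prog 1 [k, e, l, x] =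
    U := by
  replace hd : d = (l * x) := hd.trans (by push_cast <;> ring)
  replace hF : F = ((Int.cast (1) : ℝ) - e) := hF.trans (by push_cast <;> ring)
  replace hy : y = ((Int.cast (1) : ℝ) - x) := hy.trans (by push_cast <;> ring)
  replace hz4 : z4 = (ph1 ((Int.cast (-8) : ℝ) * e)) := hz4.trans (congrArg ph1 (by push_cast <;>
    ring))
  replace hc : c = ((Int.cast (4) : ℝ) * z4) := hc.trans (by push_cast <;> ring)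
  replace hU : U = (((Int.cast (2) : ℝ) * F) * ((x * c) + (y * (((((Int.cast (1) : ℝ) - ((Int.cast
    (2) : ℝ) * d)) * (((Int.cast (1) : ℝ) - (((Int.cast (2) : ℝ) * e) * c)) - k)) * ((Int.cast (1) :
    ℝ) - ((Int.cast (2) : ℝ) * e))⁻¹) - ((((Int.cast (1) : ℝ) - d) * ((Int.cast (1) : ℝ) -
    (((Int.cast (2) : ℝ) * e) * c))) * ((Int.cast (2) : ℝ) - ((Int.cast (2) : ℝ) * e))⁻¹))))) :=
    hU.trans (by push_cast <;> ring)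
  have e0 : (((((Int.cast (1) : ℝ) + e) - k) * (U * U)) - ((F * ((x + (((Int.cast (2) : ℝ) * k) *
    y)) + (((Int.cast (1) : ℝ) / (Nat.cast 12 : ℝ)) * y))) * ((x + (k * y)) + ((Int.cast (2) : ℝ) *
    U)))) = (1 + e - k) * U ^ 2 - F * (x + 2 * k * y + y / 12) * (x + k * y + 2 * U) := by push_cast
    <;> ring
  subst hd hF hy hz4 hc hU
  exact ⟨Eq.trans rfl e0, rfl⟩

theorem l0 : ((0 : ℤ) : ℝ) / 2 ^ 47 = 0 := by norm_num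
theorem u0 : (1 / 50 : ℝ) ≤ ((2814749767107 : ℤ) : ℝ) / 2 ^ 47 := by norm_num
theorem l1 : ((-8796093022208 : ℤ) : ℝ) / 2 ^ 47 = -1 / 16 := by norm_num
theorem u1 : (1 / 4 : ℝ) = ((35184372088832 : ℤ) : ℝ) / 2 ^ 47 := by norm_num
theorem l2 : ((0 : ℤ) : ℝ) / 2 ^ 47 = 0 := by norm_num
theorem u2 : (3 / 2 : ℝ) = ((211106232532992 : ℤ) : ℝ) / 2 ^ 47 := by norm_num
theorem l3 : ((0 : ℤ) : ℝ) / 2 ^ 47 = 0 := by norm_num
theorem u3 : (1 : ℝ) = ((140737488355328 : ℤ) : ℝ) / 2 ^ 47 := by norm_num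

theorem out0 {k e l x : ℝ} (a0 : 0 ≤ k) (b0 : k ≤ 1 / 50) (a1 : -1 / 16 ≤ e) (b1 : e ≤ 1 / 4) (a2 :
    0 ≤ l) (b2 : l ≤ 3 / 2) (a3 : 0 ≤ x) (b3 : x ≤ 1) : 0 < outR prog 0 [k, e, l, x] :=
  gd 0 (by decide) [k, e, l, x] (.cons ⟨l0.le.trans a0, b0.trans u0⟩ (.cons ⟨l1.le.trans a1,
    b1.trans u1.le⟩ (.cons ⟨l2.le.trans a2, b2.trans u2.le⟩ (.cons ⟨l3.le.trans a3, b3.trans u3.le⟩
    (.nil))))) ⟨nofun, nofun, nofun, nofun, trivial⟩ (nofun) (List.forall_mem_nil _) (Van.of0 rfl)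
    (nofun)

theorem pos0 {k e l x d F y z4 c U : ℝ} (hd : d = l * x) (hF : F = 1 - e) (hy : y = 1 - x) (hz4 : z4
    = ph1 ((-8) * e)) (hc : c = 4 * z4) (hU : U = 2 * F * (x * c + y * ((1 - 2 * d) * (1 - 2 * e * c
    - k) / (1 - 2 * e) - (1 - d) * (1 - 2 * e * c) / (2 - 2 * e)))) (a0 : 0 ≤ k) (b0 : k ≤ 1 / 50)
    (a1 : -1 / 16 ≤ e) (b1 : e ≤ 1 / 4) (a2 : 0 ≤ l) (b2 : l ≤ 3 / 2) (a3 : 0 ≤ x) (b3 : x ≤ 1) : 0
    < (1 + e - k) * U ^ 2 - F * (x + 2 * k * y + y / 12) * (x + k * y + 2 * U) :=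
  have e := eq hd hF hy hz4 hc hU
  (out0 a0 b0 a1 b1 a2 b2 a3 b3).trans_eq e.1

theorem out1 {k e l x : ℝ} (a0 : 0 ≤ k) (b0 : k ≤ 1 / 50) (a1 : -1 / 16 ≤ e) (b1 : e ≤ 1 / 4) (a2 :
    0 ≤ l) (b2 : l ≤ 3 / 2) (a3 : 0 ≤ x) (b3 : x ≤ 1) : 0 < outR prog 1 [k, e, l, x] :=
  gd 1 (by decide) [k, e, l, x] (.cons ⟨l0.le.trans a0, b0.trans u0⟩ (.cons ⟨l1.le.trans a1,
    b1.trans u1.le⟩ (.cons ⟨l2.le.trans a2, b2.trans u2.le⟩ (.cons ⟨l3.le.trans a3, b3.trans u3.le⟩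
    (.nil))))) ⟨nofun, nofun, nofun, nofun, trivial⟩ (nofun) (List.forall_mem_nil _) (Van.of0 rfl)
    (nofun)

theorem pos1 {k e l x d F y z4 c U : ℝ} (hd : d = l * x) (hF : F = 1 - e) (hy : y = 1 - x) (hz4 : z4
    = ph1 ((-8) * e)) (hc : c = 4 * z4) (hU : U = 2 * F * (x * c + y * ((1 - 2 * d) * (1 - 2 * e * c
    - k) / (1 - 2 * e) - (1 - d) * (1 - 2 * e * c) / (2 - 2 * e)))) (a0 : 0 ≤ k) (b0 : k ≤ 1 / 50)
    (a1 : -1 / 16 ≤ e) (b1 : e ≤ 1 / 4) (a2 : 0 ≤ l) (b2 : l ≤ 3 / 2) (a3 : 0 ≤ x) (b3 : x ≤ 1) : 0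
    < U :=
  have e := eq hd hF hy hz4 hc hU
  (out1 a0 b0 a1 b1 a2 b2 a3 b3).trans_eq e.2

end Pool.Agent.Lib.MP_d6150d_an.ZmHE
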