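import Pool.Agent.Lib.MP_d6150d_an.GDef

/-! A generated chart: the program. -/

namespace Pool.Agent.Lib.MP_d6150d_an.ZmHE

def prog1 : List Ins := .cpy 15 :: .cpy 1 :: []

def prog : List Ins := .int 1 :: .var 1 :: .add false 1 0 :: .var 0 :: .sub false 1 0 :: .sub true 4
    3 :: .smul 2 0 :: .var 3 :: .smul (-8) 6 :: .tri 0 :: .smul 4 1 :: .mul 5 0 :: .sub true 13 6 ::
    .var 2 :: .mul 0 8 :: .smul 2 0 :: .sub true 17 0 :: .smul 2 17 :: .mul 0 7 :: .sub true 20 0 ::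
    .sub false 0 18 :: .mul 4 0 :: .sub true 23 4 :: .inv 0 :: .mul 2 0 :: .sub true 26 10 :: .mul 0
    6 :: .int 2 :: .sub true 0 10 :: .inv 0 :: .mul 3 0 :: .sub true 6 0 :: .mul 19 0 :: .add true
    21 0 :: .mul 29 0 :: .mul 0 0 :: .mul 33 0 :: .smul 2 35 :: .mul 0 25 :: .add false 33 0 :: .cst
    1 12 :: .mul 0 28 :: .add false 2 0 :: .mul 39 0 :: .mul 42 31 :: .add false 39 0 :: .smul 2 11
    :: .add false 1 0 :: .mul 4 0 :: .sub false 12 0 :: prog1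

def vs : List Vr := [⟨1, 0, false, false⟩, ⟨3, 0, false, false⟩, ⟨2, 0, false, false⟩, ⟨3, 0, false,
    false⟩]

def C : Chart := ⟨vs, prog, [], 2, 3⟩

end Pool.Agent.Lib.MP_d6150d_an.ZmHE
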