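import Pool.Agent.Lib.MP_d6150d_an.ZmLMain

/-! The part `F ≥ 3 / 4` of the square where the period decreases: identities. -/

namespace Pool.Agent.Lib.MP_d6150d_an.ZmH

open Real Set Z2

/-- the expression on the right branch -/
noncomputable def fH (d a e q x y : ℝ) : ℝ :=
  let F := 1 - e
  let p := q + 2 * e * x
  let w := 1 - d - 2 * a * q - d * q ^ 2
  let n := 2 * d * x + 2 * a * (1 - p) / (1 - 2 * e)
  let m := w - q * n
  let G := F * w * n ^ 2 + 2 * m ^ 2 * d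
  q * (p * (q * G + 2 * a * m ^ 2 - F * w ^ 3) - e * F * w ^ 3 * y + (d + e / 2) * m * G) +
    (2 * d + e) * a * m ^ 3

variable {a d e t D F X : ℝ}

theorem bern (hX : 0 ≤ X) : (√(1 + X))⁻¹ ^ 3 * (1 + 3 / 2 * X) ≤ 1 := by
  have r0 : 0 ≤ (√(1 + X))⁻¹ := by positivity
  have r1 : (√(1 + X))⁻¹ ^ 2 * (1 + X) = 1 := by
    rw [inv_pow, sq_sqrt (by linarith), inv_mul_cancel₀ (by linarith)]
  generalize (√(1 + X))⁻¹ = r at *
  have := mul_nonneg (sq_nonneg (r - 1)) (by linarith : 0 ≤ r + 2)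
  linear_combination 1 / 2 * this + 3 / 2 * r * r1

theorem keyR (hD : D = -d) (hF : F = 1 - e) (ha : a = 1 / 2 - d) (e1 : e ≤ 1 / 4)
    (c0 : 0 ≤ 2 * d + e) (ht : t ∈ JR D) (t0 : 0 < t) (h : 0 < fH d a e (exp (-t))
      (exp (-t) * (t * ph1 (2 * e * t))) (exp ((2 * e - 1) * t) * (t * ph1 (e * t)))) :
    dZ D F t < 0 := by
  obtain ⟨y, hy⟩ : ∃ y, y = exp (F * t) := ⟨_, rfl⟩
  obtain ⟨p, hp⟩ : ∃ p, p = exp ((2 * e - 1) * t) := ⟨_, rfl⟩
  obtain ⟨q, hq⟩ : ∃ q, q = exp (-t) := ⟨_, rfl⟩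
  obtain ⟨x, hx⟩ : ∃ x, x = q * (t * ph1 (2 * e * t)) := ⟨_, rfl⟩
  obtain ⟨u, hu⟩ : ∃ u, u = t * ph1 (e * t) := ⟨_, rfl⟩
  have e0 : p = q * exp (2 * e * t) := by rw [hp, hq, ← exp_add]; ring_nf
  have e2 : p = q + 2 * e * x := by rw [e0, hx, exp_eq_ph]; ring
  have e3 : y * p = 1 + e * u := by rw [hu, ← mul_assoc, ← exp_eq_ph, hy, hp, hF, ← exp_add]; ring_nf
  have e4 : q * exp t = 1 := by rw [hq, ← exp_add]; simp
  have e6 : q ^ 2 * exp ((2 - 2 * F) * t) = q * p := by rw [e0, hF]; ring_nf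
  have e7 : exp (2 * F * t) = y ^ 2 := by rw [hy, sq, ← exp_add]; ring_nf
  have e8 : exp ((2 * F - 1) * t) * p = 1 := by rw [hp, hF, ← exp_add]; ring_nf; simp
  have e9 : y ^ 2 * (q * p) = 1 := by
    rw [← e7, hp, hq, hF, ← exp_add, ← exp_add]; ring_nf; simp
  have k3 : t * ph1 ((2 * F - 2) * t) * p = x := by
    rw [hx, e0, ph1_neg (2 * e * t), show (2 * F - 2) * t = -(2 * e * t) by rw [hF]; ring]; ring
  have h1 := exp_eq_ph (2 * F * t)
  have h2 := exp_eq_ph ((2 * F - 1) * t)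
  obtain ⟨w, hw⟩ : ∃ w, w = 1 - d - 2 * a * q - d * q ^ 2 := ⟨_, rfl⟩
  obtain ⟨n, hn⟩ : ∃ n, n = 2 * d * x + 2 * a * (1 - p) / (1 - 2 * e) := ⟨_, rfl⟩
  obtain ⟨m, hm⟩ : ∃ m, m = w - q * n := ⟨_, rfl⟩
  have hn' : (n - 2 * d * x) * (1 - 2 * e) = 2 * a * (1 - p) := by
    rw [hn, add_sub_cancel_left, div_mul_cancel₀ _ (by linarith)]
  have k2 : 2 * a * (t * ph1 ((2 * F - 1) * t) * p) = n - 2 * d * x := by
    apply mul_right_cancel₀ (b := 1 - 2 * e) (by linarith)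
    linear_combination -hn' + 2 * a * e8 - 2 * a * p * h2 -
      4 * a * (t * ph1 ((2 * F - 1) * t) * p) * hF
  have hW : w = q ^ 2 * wR D t := by
    rw [wR, PR, QR, hw, hD, ha]
    linear_combination -((1 - d) * (1 + q * exp t) - (1 - 2 * d) * q) * e4
  have hv : F * vR D F t * (q * p) = m := by
    rw [vR_eq, hm, hw, hD]
    rw [e7] at h1
    linear_combination (1 - d) * (e9 - q * p * h1) - 2 * F * q * k2 - 2 * F * d * q * k3 -
      q * hn' - d * q * e2 - 2 * q * (n - d * x) * hF +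
      (4 * F * q * p * (t * ph1 ((2 * F - 1) * t)) + 2 * q * p) * ha
  have H := ZR_hom (F := F) ht t0.ne' (l := q ^ 2) (P := 1 - d) (Q := 2 * a * q)
    (R := -d * q ^ 2) (Y := vR D F t * (q * p) / 2) (W := w)
    (by rw [PR, hD]; linear_combination -(1 - d) * (1 + q * exp t) * e4)
    (by rw [QR, hD, ha]; linear_combination -(1 - 2 * d) * q * e4) (by rw [hD]; ring)
    (by rw [yR, ← e6]; ring) hW
  have q0 : 0 < q := hq ▸ exp_pos _
  have p0 : 0 < p := hp ▸ exp_pos _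
  have y0 : 0 < y := hy ▸ exp_pos _
  have F0 : 0 < F := by linarith
  have v0 := vR_pos (F := F) ht t0.ne'
  have m0 : 0 < m := hv ▸ by positivity
  have w0 : 0 < w := by
    rw [hW, wR_eq]; exact mul_pos (by positivity) (mul_pos (sub_pos.2 (one_lt_exp_iff.2 t0)) ht)
  have hc : F * (1 - 2 * D - F) / 3 = F * (2 * d + e) / 3 := by rw [hD, hF]; ring
  have B : sep D F (vR D F t) * (1 + 3 / 2 * (F * (2 * d + e) / 3 * vR D F t)) ≤ 1 := by
    rw [sep, hc]; exact bern (by positivity)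
  rw [← hq, ← hx, ← hp, ← hu] at h
  simp only [fH, ← e2, ← hw, ← hn, ← hm, ← hF] at h
  rw [← hy] at H
  rw [dZ]
  generalize sep D F (vR D F t) = E at *
  generalize vR D F t = V, ZR D F t = Z at *
  have i1 : F * w ^ 3 * (y * p) * Z = q * (F * w * n ^ 2 + 2 * m ^ 2 * d) + 2 * a * m ^ 2 := by
    linear_combination F * p * y * H -
      p * y ^ 2 * (2 * F * w ^ 2 + (F * V * (q * p) + m) * (-F * (1 - d) + (F - 1) * (2 * a * q) +
        (2 - F) * (-d * q ^ 2))) * hv - p * y ^ 2 * m ^ 2 * F * hw -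
      p * y ^ 2 * F * w * (w - m + q * n) * hm +
      (q * (F * w * n ^ 2 + 2 * m ^ 2 * d) + 2 * a * m ^ 2) * e9
  have i2 : 0 < F * w ^ 3 * (y * p) * (Z * (q * p + (d + e / 2) * m) - q * p) := by
    linear_combination h - (q * p + (d + e / 2) * m) * i1 + F * w ^ 3 * q * p * e3
  have i3 := (mul_pos_iff_of_pos_left (by positivity)).1 i2
  refine neg_of_mul_neg_right (a := q * p + (d + e / 2) * m) ?_
    (add_nonneg (mul_pos q0 p0).le (mul_nonneg (by linarith) m0.le))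
  linear_combination i3 + mul_le_mul_of_nonneg_left B (mul_pos q0 p0).le - (d + e / 2) * E * hv

theorem keyL {s z x w μ : ℝ} (hD : D = -d) (hF : F = 1 - e) (e1 : e ≤ 1 / 4) (ht : t ∈ JR D)
    (h0 : t ≠ 0) (hs : s = exp t) (hz : z = exp (2 * e * t)) (hx : x = -t * ph1 (2 * e * t))
    (hw : w = (1 - s) * (d + (1 - d) * s)) (hμ : μ = 2 * F * (d * x + (1 - 2 * d) * (z - s) /
      (1 - 2 * e) - (1 - d) * (z - s ^ 2) / (2 - 2 * e))) :
    w = -wR D t ∧ F * vR D F t * z = μ ∧ F * w ^ 3 * ZR D F t = exp (F * t) *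
      (F * w ^ 2 * (w + 2 * μ) - (F * (1 - d) * s ^ 2 + e * (1 - 2 * d) * s + (1 + e) * d) * μ ^ 2) := by
  have c1 : 1 - 2 * e ≠ 0 := by linarith
  have c2 : 2 - 2 * e ≠ 0 := by linarith
  have e4 : exp ((2 - 2 * F) * t) = z := by rw [hz, hF]; ring_nf
  have e5 : exp (2 * F * t) * z = s ^ 2 := by rw [hz, hs, hF, sq, ← exp_add, ← exp_add]; ring_nf
  have e6 : exp ((2 * F - 1) * t) * z = s := by rw [hz, hs, hF, ← exp_add]; ring_nf
  have k3 : t * ph1 ((2 * F - 2) * t) * z = -x := by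
    rw [hx, hz, ph1_neg (2 * e * t), show (2 * F - 2) * t = -(2 * e * t) by rw [hF]; ring]; ring
  have h1 := exp_eq_ph (2 * F * t)
  have h2 := exp_eq_ph ((2 * F - 1) * t)
  have k1 : t * ph1 (2 * F * t) * z = -((z - s ^ 2) / (2 - 2 * e)) := by
    rw [← neg_div, eq_div_iff c2]; linear_combination e5 - z * h1 - 2 * t * ph1 (2 * F * t) * z * hF
  have k2 : t * ph1 ((2 * F - 1) * t) * z = -((z - s) / (1 - 2 * e)) := by
    rw [← neg_div, eq_div_iff c1]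
    linear_combination e6 - z * h2 - 2 * t * ph1 ((2 * F - 1) * t) * z * hF
  have hW : w = -1 * wR D t := by rw [wR, PR, QR, hw, ← hs, hD]; ring
  have hv : F * vR D F t * z = μ := by
    rw [vR_eq, hμ, hD]
    linear_combination 2 * F * ((1 - d) * k1 - (1 - 2 * d) * k2 - d * k3)
  have H := ZR_hom (F := F) ht h0 (l := -1) (P := -(1 - d) * s ^ 2) (Q := -(1 - 2 * d) * s)
    (R := d) (Y := -(vR D F t * z / 2)) (W := w) (by rw [PR, hs, hD]; ring)
    (by rw [QR, hs, hD]; ring) (by rw [hD]; ring) (by rw [yR, e4]; ring) hW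
  refine ⟨by linarith, hv, ?_⟩
  rw [← hv]
  linear_combination F * H - exp (F * t) * (F * vR D F t * z) ^ 2 * (-(1 - 2 * d) * s - d) * hF

theorem iso (h0 : t ≠ 0) (hD : D = -0) (hF : F = 1 - 0) : dZ D F t = 0 := by
  have ht : t ∈ JR D := by simpa [hD, JR, om] using exp_pos t
  obtain ⟨h1, -, h2⟩ := keyL hD hF (by norm_num) ht h0 rfl rfl rfl rfl rfl
  have w0 := pow_ne_zero 3 (h1 ▸ neg_ne_zero.2 (wR_ne ht h0))
  rw [dZ, sep, sub_eq_zero]
  apply mul_left_cancel₀ w0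
  rw [show F * (1 - 2 * D - F) / 3 = 0 by rw [hD, hF]; ring]
  simp only [hF, sub_zero, mul_zero, zero_mul, exp_zero, one_mul, add_zero, sqrt_one] at h2 ⊢
  linear_combination -h2

theorem mono {A B k μ ν : ℝ} (A0 : 0 ≤ A) (B0 : 0 ≤ B) (h0 : 0 < ν) (h1 : ν ≤ μ)
    (h : A + B * ν < k * ν ^ 2) : A + B * μ < k * μ ^ 2 := by
  have h2 := mul_lt_mul_of_pos_right h (pow_pos (h0.trans_le h1) 2)
  have h3 := mul_nonneg A0 (mul_nonneg (sub_nonneg.2 h1) (by linarith : 0 ≤ μ + ν))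
  have h4 := mul_nonneg (mul_nonneg B0 (mul_pos h0 (h0.trans_le h1)).le) (sub_nonneg.2 h1)
  exact lt_of_mul_lt_mul_right (a := ν ^ 2) (by linarith) (sq_nonneg ν)

theorem ph1_ub (e1 : e ≤ 1 / 4) (t0 : 0 ≤ t) : t * ph1 (2 * e * t) ≤ 2 * (exp (t / 2) - 1) := by
  rcases le_total 0 e with h | h
  · exact ZmL.ph1_ub h e1 t
  · nlinarith [ph1_le_one (x := 2 * e * t) (by nlinarith), add_one_le_exp (t / 2)]

theorem ph1_add (k a b : ℝ) : (a + b) * ph1 (k * (a + b)) =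
    a * ph1 (k * a) + exp (k * a) * (b * ph1 (k * b)) := by
  by_cases h : k = 0
  · simp [h, ph1_zero]
  apply mul_left_cancel₀ h
  have h1 := exp_eq_ph (k * (a + b))
  rw [mul_add, exp_add] at h1
  rw [mul_add k a]
  linear_combination -h1 + exp_eq_ph (k * a) + exp (k * a) * exp_eq_ph (k * b)

end Pool.Agent.Lib.MP_d6150d_an.ZmH
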