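import Pool.Agent.Lib.MP_d6150d_an.ZmHLD

/-! A generated chart: the computations. -/

namespace Pool.Agent.Lib.MP_d6150d_an.ZmHL

theorem k0 : chk C 0x888118880099210880912 [(0, 35184372088832), (0, 52776558133248), (0,
    70368744177664)] = true := by
  decide +kernel

theorem k1 : chk C 0x88811888810088190992210 [(0, 35184372088832), (0, 52776558133248),
    (70368744177664, 140737488355328)] = true := by
  decide +kernel

theorem k2 : chk C 0x8808821881888800089010881888820091020 [(0, 35184372088832), (0,
    26388279066624), (140737488355328, 281474976710656)] = true := by
  decide +kernel

theorem k3 : chk C 0x8808888800000 [(0, 35184372088832), (26388279066624, 52776558133248),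
    (140737488355328, 281474976710656)] = true := by
  decide +kernel

theorem k4 : chk C 0x8880821888218888800008899209209922100 [(0, 17592186044416), (0,
    26388279066624), (281474976710656, 422212465065984)] = true := by
  decide +kernel

theorem k5 : chk C 0x881881888800000 [(0, 17592186044416), (26388279066624, 52776558133248),
    (281474976710656, 422212465065984)] = true := by
  decide +kernel

theorem k6 : chk C 0x880880288a118a80121 [(17592186044416, 35184372088832), (0, 52776558133248),
    (281474976710656, 422212465065984)] = true := by
  decide +kernel

theorem k7 : chk C 0x88188888820000992108818888820009102 [(0, 4398046511104), (0, 13194139533312),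
    (422212465065984, 562949953421312)] = true := by
  decide +kernel

theorem k8 : chk C 0x88888800000 [(0, 4398046511104), (13194139533312, 26388279066624),
    (422212465065984, 562949953421312)] = true := by
  decide +kernel

theorem k9 : chk C 0x8888211 [(4398046511104, 8796093022208), (0, 26388279066624), (422212465065984,
    562949953421312)] = true := by
  decide +kernel

theorem k10 : chk C 0x88288188121 [(8796093022208, 17592186044416), (0, 26388279066624),
    (422212465065984, 562949953421312)] = true := by
  decide +kernel

end Pool.Agent.Lib.MP_d6150d_an.ZmHL
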