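import Pool.Agent.Lib.MP_d6150d_an.ZmHLD

/-! A generated chart: the computations. -/

namespace Pool.Agent.Lib.MP_d6150d_an.ZmHL

theorem k11 : chk C 0x8828821881881b81b8880010000 [(0, 17592186044416), (26388279066624,
    52776558133248), (422212465065984, 562949953421312)] = true := by
  decide +kernel

theorem k12 : chk C 0x8808801880880128808802a882a1011 [(17592186044416, 35184372088832), (0,
    52776558133248), (422212465065984, 562949953421312)] = true := by
  decide +kernel

theorem k13 : chk C 0x8808802aa80a1018a8a1018aa800122 [(35184372088832, 70368744177664), (0,
    52776558133248), (0, 281474976710656)] = true := by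
  decide +kernel

theorem k14 : chk C 0xaa80a802a8020a1 [(35184372088832, 70368744177664), (0, 26388279066624),
    (281474976710656, 562949953421312)] = true := by
  decide +kernel

theorem k15 : chk C 0x88082a1880880188120880828808202 [(35184372088832, 70368744177664),
    (26388279066624, 52776558133248), (281474976710656, 562949953421312)] = true := by
  decide +kernel

theorem k16 : chk C 0x8808b0088b0088b0022 [(0, 35184372088832), (52776558133248, 79164837199872),
    (0, 281474976710656)] = true := by
  decide +kernel

theorem k17 : chk C 0x8b088018b0880128b088012b8821b812b00 [(0, 35184372088832), (52776558133248,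
    79164837199872), (281474976710656, 562949953421312)] = true := by
  decide +kernel

theorem k18 : chk C 0xb [(0, 35184372088832), (79164837199872, 105553116266496), (0,
    562949953421312)] = true := by
  decide +kernel

theorem k19 : chk C 0x8808801880880128808188022 [(35184372088832, 70368744177664), (52776558133248,
    105553116266496), (0, 281474976710656)] = true := by
  decide +kernel

end Pool.Agent.Lib.MP_d6150d_an.ZmHL
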