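import Pool.Agent.Lib.MP_d6150d_an.ZmHLD

/-! A generated chart: the computations. -/

namespace Pool.Agent.Lib.MP_d6150d_an.ZmHL

theorem k20 : chk C 0x880880188128808801880812088088008880022 [(35184372088832, 70368744177664),
    (52776558133248, 79164837199872), (281474976710656, 562949953421312)] = true := by
  decide +kernel

theorem k21 : chk C 0x880880188081288188022b888201b880120 [(35184372088832, 70368744177664),
    (79164837199872, 105553116266496), (281474976710656, 562949953421312)] = true := by
  decide +kernel

end Pool.Agent.Lib.MP_d6150d_an.ZmHL
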