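import Pool.Agent.Lib.MP_d6150d_an.GDef

/-! A generated chart: the program. -/

namespace Pool.Agent.Lib.MP_d6150d_an.ZmHL

def prog1 : List Ins := .smul 2 1 :: .sub false 8 0 :: .int 2 :: .sub true 15 0 :: .mul 0 47 :: .tri
    0 :: .mul 4 0 :: .add true 7 0 :: .mul 40 0 :: .add true 11 0 :: .smul 2 0 :: .mul 26 0 :: .mul
    28 0 :: .add false 53 0 :: .rsq 0 :: .mul 0 0 :: .mul 0 1 :: .mul 38 62 :: .smul (-1) 0 :: .exp
    0 :: .mul 3 0 :: .sub true 0 61 :: .mul 47 0 :: .smul 4 44 :: .mul 0 69 :: .smul 2 47 :: .mul 0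
    71 :: .exp 0 :: .mul 17 0 :: .mul 76 0 :: .mul 5 0 :: .smul (-1) 52 :: .mul 75 75 :: .mul 64 0
    :: .mul 2 0 :: .sub true 56 75 :: .add true 76 56 :: .mul 1 0 :: .add false 3 0 :: .sub true 38
    60 :: .mul 78 78 :: .mul 73 0 :: .mul 2 0 :: .add true 4 0 :: .mul 14 0 :: .add true 71 0 ::
    .mul 15 0 :: .add false 24 0 :: .cpy 0 :: []

def prog : List Ins := .cst 1 16 :: .var 1 :: .add false 1 0 :: .var 0 :: .sub false 1 0 :: .cpy 0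
    :: .cst 1 4 :: .add false 0 3 :: .sub false 0 6 :: .cpy 0 :: .cst 1 2 :: .var 2 :: .smul (-1) 0
    :: .mul 2 0 :: .tri 0 :: .int 1 :: .smul (-1) 4 :: .exp 0 :: .add false 2 0 :: .mul 5 0 :: .mul
    11 0 :: .cst (-1) 2 :: .sub false 20 13 :: .sub true 1 0 :: .add true 8 0 :: .mul 0 12 :: .mul 2
    8 :: .sub false 1 0 :: .mul 7 0 :: .mul 0 0 :: .mul 0 1 :: .cst 1 3 :: .sub false 32 30 :: .sub
    true 0 24 :: .sub true 25 0 :: .smul 2 11 :: .sub false 20 0 :: .sub true 0 2 :: .mul 3 0 ::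
    .mul 7 0 :: .mul 29 29 :: .smul 2 6 :: .mul 0 31 :: .tri 0 :: .mul 4 0 :: .sub true 5 31 :: .mul
    0 37 :: .tri 0 :: .mul 4 0 :: .sub false 6 0 :: prog1

def vs : List Vr := [⟨3, 0, false, true⟩, ⟨3, 0, false, true⟩, ⟨7, 3, false, false⟩]

def C : Chart := ⟨vs, prog, [6, 10], 1, 3⟩

end Pool.Agent.Lib.MP_d6150d_an.ZmHL
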