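import Pool.Agent.Lib.MP_d6150d_an.ZmHRD

/-! A generated chart: the computations. -/

namespace Pool.Agent.Lib.MP_d6150d_an.ZmHR

theorem k0 : chk C 0x8808819920921 [(0, 35184372088832), (0, 52776558133248), (0, 70368744177664)] =
    true := by
  decide +kernel

theorem k1 : chk C 0x888810088821888008d09092188800919922201 [(0, 35184372088832), (0,
    52776558133248), (70368744177664, 140737488355328)] = true := by
  decide +kernel

theorem k2 : chk C 0x88880008a18888200882888009192920101 [(0, 35184372088832), (0, 26388279066624),
    (140737488355328, 211106232532992)] = true := by
  decide +kernel

theorem k3 : chk C 0x8888100 [(0, 35184372088832), (26388279066624, 52776558133248),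
    (140737488355328, 211106232532992)] = true := by
  decide +kernel

theorem k4 : chk C 0x8882d218882088800882881880992100110 [(0, 17592186044416), (0, 13194139533312),
    (211106232532992, 281474976710656)] = true := by
  decide +kernel

theorem k5 : chk C 0x88800 [(0, 17592186044416), (13194139533312, 26388279066624), (211106232532992,
    281474976710656)] = true := by
  decide +kernel

theorem k6 : chk C 0x88810 [(0, 17592186044416), (26388279066624, 52776558133248), (211106232532992,
    281474976710656)] = true := by
  decide +kernel

theorem k7 : chk C 0x882880a80a111 [(17592186044416, 35184372088832), (0, 52776558133248),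
    (211106232532992, 281474976710656)] = true := by
  decide +kernel

theorem k8 : chk C 0x880828a1a8a1021 [(35184372088832, 70368744177664), (0, 52776558133248), (0,
    140737488355328)] = true := by
  decide +kernel

theorem k9 : chk C 0xda18a12a18a182a108828802a8082a110 [(35184372088832, 70368744177664), (0,
    52776558133248), (140737488355328, 281474976710656)] = true := by
  decide +kernel

end Pool.Agent.Lib.MP_d6150d_an.ZmHR
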