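import Pool.Agent.Lib.MP_d6150d_an.ZmHRD

/-! A generated chart: the computations. -/

namespace Pool.Agent.Lib.MP_d6150d_an.ZmHR

theorem k10 : chk C 0xb8801b8b010b81b8b0102b81b8b0108b8b01022 [(0, 35184372088832), (52776558133248,
    105553116266496), (0, 281474976710656)] = true := by
  decide +kernel

theorem k11 : chk C 0x88088018802 [(35184372088832, 70368744177664), (52776558133248,
    105553116266496), (0, 140737488355328)] = true := by
  decide +kernel

theorem k12 : chk C 0x8808088080188088012880880188122 [(35184372088832, 70368744177664),
    (52776558133248, 105553116266496), (140737488355328, 281474976710656)] = true := by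
  decide +kernel

end Pool.Agent.Lib.MP_d6150d_an.ZmHR
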