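import Pool.Agent.Lib.MP_d6150d_an.GMac
import Pool.Agent.Lib.MP_d6150d_an.PpChk
import Pool.Agent.Lib.MP_d6150d_an.ZmHRK0
import Pool.Agent.Lib.MP_d6150d_an.ZmHRK1

/-! A generated chart: the inequality. -/

namespace Pool.Agent.Lib.MP_d6150d_an.ZmHR

set_option linter.unnecessarySeqFocus false
set_option linter.unusedTactic false
set_option linter.unusedVariables false

theorem gd : Gd2 C [(0, 70368744177664), (0, 105553116266496), (0, 281474976710656)] := .split 1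
    (.split 0 (.split 2 (.split 2 (chk_sound2 k0) (chk_sound2 k1)) (.split 2 (.split 1 (chk_sound2
    k2) (chk_sound2 k3)) (.split 0 (.split 1 (.split 1 (chk_sound2 k4) (chk_sound2 k5)) (chk_sound2
    k6)) (chk_sound2 k7)))) (.split 2 (chk_sound2 k8) (chk_sound2 k9))) (.split 0 (chk_sound2 k10)
    (.split 2 (chk_sound2 k11) (chk_sound2 k12)))

set_option maxRecDepth 100000 in
theorem eq {d f u an bn t D F x xi mu P Q R z12 W z14 Y r yi : ℝ} (han : an = d - 1 / 2) (hbn : bn =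
    f - d - 1 / 2) (ht : t = u) (hD : D = -1 / 2 - an) (hF : F = 1 / 2 - bn) (hx : x = Real.exp (t /
    2)) (hxi : xi = Real.exp (-(t / 2))) (hmu : mu = muR D F t) (hP : P = (1 + D) * x ^ 2) (hQ : Q =
    1 + 2 * D) (hR : R = D * xi ^ 2) (hz12 : z12 = ph1 (t / 2)) (hW : W = z12 * (1 + xi) / 2 * ((1 +
    D) * x - D * xi)) (hz14 : z14 = Real.exp (2 * bn * t)) (hY : Y = mu * z14 / 2) (hr : r = (√(1 +
    F * (1 - 2 * D - F) / 3 * (t ^ 2 * mu)))⁻¹) (hyi : yi = Real.exp (-(F * t))) : outR prog 0 [d,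
    f, u] = -(W ^ 3 * (r ^ 3 * yi - 1) + 4 * F * t * Y * (W ^ 2 + Y * ((-F) * P + (F - 1) * Q + (2 -
    F) * R))) ∧ outR (prog.take 6) 0 [d, f, u] = 1 / 16 + f - d ∧ outR (prog.take 10) 0 [d, f, u] =
    1 / 4 + d - f := by
  replace han : an = (d - ((Int.cast (1) : ℝ) / (Nat.cast 2 : ℝ))) := han.trans (by push_cast <;>
    ring)
  replace hbn : bn = ((f - d) - ((Int.cast (1) : ℝ) / (Nat.cast 2 : ℝ))) := hbn.trans (by push_cast
    <;> ring)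
  replace hD : D = (((Int.cast (-1) : ℝ) / (Nat.cast 2 : ℝ)) - an) := hD.trans (by push_cast <;>
    ring)
  replace hF : F = (((Int.cast (1) : ℝ) / (Nat.cast 2 : ℝ)) - bn) := hF.trans (by push_cast <;>
    ring)
  replace hx : x = (Real.exp (((Int.cast (1) : ℝ) / (Nat.cast 2 : ℝ)) * t)) := hx.trans (congrArg
    Real.exp (by push_cast <;> ring))
  replace hxi : xi = (Real.exp ((Int.cast (-1) : ℝ) * (((Int.cast (1) : ℝ) / (Nat.cast 2 : ℝ)) *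
    t))) := hxi.trans (congrArg Real.exp (by push_cast <;> ring))
  replace hmu : mu = (mMu D F t) := hmu.trans (mMu_0 ..)
  replace hP : P = (((Int.cast (1) : ℝ) + D) * (x * x)) := hP.trans (by push_cast <;> ring)
  replace hQ : Q = ((Int.cast (1) : ℝ) + ((Int.cast (2) : ℝ) * D)) := hQ.trans (by push_cast <;>
    ring)
  replace hR : R = (D * (xi * xi)) := hR.trans (by push_cast <;> ring)
  replace hz12 : z12 = (ph1 (((Int.cast (1) : ℝ) / (Nat.cast 2 : ℝ)) * t)) := hz12.trans (congrArg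
    ph1 (by push_cast <;> ring))
  replace hW : W = ((((Int.cast (1) : ℝ) / (Nat.cast 2 : ℝ)) * (z12 * ((Int.cast (1) : ℝ) + xi))) *
    ((((Int.cast (1) : ℝ) + D) * x) - (D * xi))) := hW.trans (by push_cast <;> ring)
  replace hz14 : z14 = (Real.exp (((Int.cast (2) : ℝ) * bn) * t)) := hz14.trans (congrArg Real.exp
    (by push_cast <;> ring))
  replace hY : Y = (((Int.cast (1) : ℝ) / (Nat.cast 2 : ℝ)) * (mu * z14)) := hY.trans (by push_cast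
    <;> ring)
  replace hr : r = (√((Int.cast (1) : ℝ) + ((((Int.cast (1) : ℝ) / (Nat.cast 3 : ℝ)) * (F *
    (((Int.cast (1) : ℝ) - ((Int.cast (2) : ℝ) * D)) - F))) * ((t * t) * mu))))⁻¹ := hr.trans
    (congrArg (fun x : ℝ ↦ (√x)⁻¹) (by push_cast <;> ring))
  replace hyi : yi = (Real.exp ((Int.cast (-1) : ℝ) * (F * t))) := hyi.trans (congrArg Real.exp (by
    push_cast <;> ring))
  have e0 : ((Int.cast (-1) : ℝ) * ((((W * W) * W) * ((((r * r) * r) * yi) - (Int.cast (1) : ℝ))) +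
    (((((Int.cast (4) : ℝ) * F) * t) * Y) * ((W * W) + (Y * (((((Int.cast (-1) : ℝ) * F) * P) + ((F
    - (Int.cast (1) : ℝ)) * Q)) + (((Int.cast (2) : ℝ) - F) * R))))))) = -(W ^ 3 * (r ^ 3 * yi - 1)
    + 4 * F * t * Y * (W ^ 2 + Y * ((-F) * P + (F - 1) * Q + (2 - F) * R))) := by push_cast <;> ring
  have e1 : ((((Int.cast (1) : ℝ) / (Nat.cast 16 : ℝ)) + f) - d) = 1 / 16 + f - d := by push_cast
    <;> ring
  have e2 : ((((Int.cast (1) : ℝ) / (Nat.cast 4 : ℝ)) + d) - f) = 1 / 4 + d - f := by push_cast <;>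
    ring
  subst han hbn ht hD hF hx hxi hmu hP hQ hR hz12 hW hz14 hY hr hyi
  exact ⟨Eq.trans rfl e0, Eq.trans rfl e1, Eq.trans rfl e2⟩

theorem l0 : ((0 : ℤ) : ℝ) / 2 ^ 47 = 0 := by norm_num
theorem u0 : (1 / 2 : ℝ) = ((70368744177664 : ℤ) : ℝ) / 2 ^ 47 := by norm_num
theorem l1 : ((0 : ℤ) : ℝ) / 2 ^ 47 = 0 := by norm_num
theorem u1 : (3 / 4 : ℝ) = ((105553116266496 : ℤ) : ℝ) / 2 ^ 47 := by norm_num
theorem l2 : ((0 : ℤ) : ℝ) / 2 ^ 47 = 0 := by norm_num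
theorem u2 : (2 : ℝ) = ((281474976710656 : ℤ) : ℝ) / 2 ^ 47 := by norm_num

theorem out0 (V2 : ∀ d f : ℝ, 0 ≤ d → d ≤ 1 / 2 → 0 ≤ f → f ≤ 3 / 4 → (fun u ↦ outR prog 0 [d, f,
    u]) =O[nhdsWithin 0 (Set.Ioi 0)] fun u : ℝ ↦ u ^ 3) (N : ∀ u : ℝ, 0 ≤ u → u ≤ 2 → 0 ≤ outR prog
    0 [0, 0, u]) {d f u : ℝ} (a0 : 0 ≤ d) (b0 : d ≤ 1 / 2) (a1 : 0 ≤ f) (b1 : f ≤ 3 / 4) (a2 : 0 ≤
    u) (b2 : u ≤ 2) (p2 : 0 < u) (pc : 0 < d ∨ 0 < f) (c0 : 0 ≤ outR (prog.take 6) 0 [d, f, u]) (c1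
    : 0 ≤ outR (prog.take 10) 0 [d, f, u]) : 0 < outR prog 0 [d, f, u] :=
  gd 0 (by decide) [d, f, u] (.cons ⟨l0.le.trans a0, b0.trans u0.le⟩ (.cons ⟨l1.le.trans a1,
    b1.trans u1.le⟩ (.cons ⟨l2.le.trans a2, b2.trans u2.le⟩ (.nil)))) ⟨nofun, nofun, fun _ ↦ p2,
    trivial⟩ (fun _ ↦ pc.elim (fun h ↦ .inl ⟨rfl, h⟩) (fun h ↦ .inr (.inl ⟨rfl, h⟩)))
    (List.forall_mem_cons.2 ⟨c0, List.forall_mem_cons.2 ⟨c1, List.forall_mem_nil _⟩⟩) (⟨fun _ ↦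
    allB_iff.2 fun _ _ ↦ trivial, fun y0 a0 b0 ↦ ⟨fun _ ↦ allB_iff.2 fun _ _ ↦ trivial, fun y1 a1 b1
    ↦ ⟨fun _ ↦ V2 y0 y1 (l0.ge.trans a0) (b0.trans u0.ge) (l1.ge.trans a1) (b1.trans u1.ge), fun _ _
    _ ↦ trivial⟩⟩⟩) (fun _ _ _ _ _ _ _ y2 a2 b2 ↦ N y2 (l2.ge.trans a2) (b2.trans u2.ge))

end Pool.Agent.Lib.MP_d6150d_an.ZmHR
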