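import Pool.Agent.Lib.MP_d6150d_an.ZmLAD

/-! A generated chart: the computations. -/

namespace Pool.Agent.Lib.MP_d6150d_an.ZmLA

theorem k0 : chk C 0x8991289238990289230 [(0, 35184372088832), (0, 19791209299968), (0,
    8796093022208), (0, 26388279066624)] = true := by
  decide +kernel

theorem k1 : chk C 0x880808880299039909302 [(0, 35184372088832), (19791209299968, 39582418599936),
    (0, 8796093022208), (0, 26388279066624)] = true := by
  decide +kernel

theorem k2 : chk C 0x880808811 [(0, 35184372088832), (0, 39582418599936), (8796093022208,
    17592186044416), (0, 26388279066624)] = true := by
  decide +kernel

theorem k3 : chk C 0x89912899120899020 [(0, 35184372088832), (0, 9895604649984), (0, 8796093022208),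
    (26388279066624, 39582418599936)] = true := by
  decide +kernel

theorem k4 : chk C 0x8818912880991208991289200899023 [(0, 35184372088832), (0, 4947802324992), (0,
    8796093022208), (39582418599936, 52776558133248)] = true := by
  decide +kernel

theorem k5 : chk C 0x880880838909302 [(0, 35184372088832), (4947802324992, 9895604649984), (0,
    8796093022208), (39582418599936, 52776558133248)] = true := by
  decide +kernel

theorem k6 : chk C 0x88088008803881881088188100880890032 [(0, 35184372088832), (9895604649984,
    19791209299968), (0, 8796093022208), (26388279066624, 52776558133248)] = true := by
  decide +kernel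

theorem k7 : chk C 0x88088008388088183188031 [(0, 35184372088832), (0, 19791209299968),
    (8796093022208, 17592186044416), (26388279066624, 52776558133248)] = true := by
  decide +kernel

theorem k8 : chk C 0x88183880830880880188038818810880302 [(0, 35184372088832), (19791209299968,
    39582418599936), (0, 8796093022208), (26388279066624, 52776558133248)] = true := by
  decide +kernel

theorem k9 : chk C 0x88183880830 [(0, 35184372088832), (19791209299968, 39582418599936),
    (8796093022208, 17592186044416), (26388279066624, 52776558133248)] = true := by
  decide +kernel

theorem k10 : chk C 0x88081880812 [(0, 35184372088832), (0, 39582418599936), (17592186044416,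
    35184372088832), (0, 26388279066624)] = true := by
  decide +kernel

end Pool.Agent.Lib.MP_d6150d_an.ZmLA
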