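import Pool.Agent.Lib.MP_d6150d_an.ZmLAD

/-! A generated chart: the computations. -/

namespace Pool.Agent.Lib.MP_d6150d_an.ZmLA

theorem k11 : chk C 0x88088028818882128818882120188088123 [(0, 35184372088832), (0, 19791209299968),
    (17592186044416, 35184372088832), (26388279066624, 52776558133248)] = true := by
  decide +kernel

theorem k12 : chk C 0x880838818328880288230 [(0, 35184372088832), (19791209299968, 39582418599936),
    (17592186044416, 35184372088832), (26388279066624, 52776558133248)] = true := by
  decide +kernel

end Pool.Agent.Lib.MP_d6150d_an.ZmLA
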