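import Pool.Agent.Lib.MP_d6150d_an.GMac
import Pool.Agent.Lib.MP_d6150d_an.PpChk
import Pool.Agent.Lib.MP_d6150d_an.ZmLAK0
import Pool.Agent.Lib.MP_d6150d_an.ZmLAK1

/-! A generated chart: the inequality. -/

namespace Pool.Agent.Lib.MP_d6150d_an.ZmLA

set_option linter.unnecessarySeqFocus false
set_option linter.unusedTactic false
set_option linter.unusedVariables false

theorem gd : Gd2 C [(0, 35184372088832), (0, 39582418599936), (0, 35184372088832), (0,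
    52776558133248)] := .split 2 (.split 3 (.split 2 (.split 1 (chk_sound2 k0) (chk_sound2 k1))
    (chk_sound2 k2)) (.split 1 (.split 2 (.split 1 (.split 3 (chk_sound2 k3) (.split 1 (chk_sound2
    k4) (chk_sound2 k5))) (chk_sound2 k6)) (chk_sound2 k7)) (.split 2 (chk_sound2 k8) (chk_sound2
    k9)))) (.split 3 (chk_sound2 k10) (.split 1 (chk_sound2 k11) (chk_sound2 k12)))

set_option maxRecDepth 100000 in
theorem eq {k x b a s an bn F d z w n r : ℝ} (hs : s = k * x) (han : an = -a) (hbn : bn = -b) (hF :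
    F = 1 / 2 - bn) (hd : d = 1 / 2 + an) (hz : z = s - 2 * bn * x) (hw : w = d - 2 * an * s - (1 /
    2 - an) * s ^ 2) (hn : n = d * (1 - z) / (1 + 2 * bn) - (1 / 2 - an) * (z - s ^ 2) / (1 - 2 *
    bn) - 2 * an * x) (hr : r = (√(z + 2 * F * (3 / 2 + 2 * an + bn) / 3 * n))⁻¹) : outR prog 0 [k,
    x, b, a] = -(w * (w + 2 * F * n) ^ 2 - 8 * F * n ^ 2 * (d - an * s) - z * r ^ 3 * w ^ 3) := by
  replace hs : s = (k * x) := hs.trans (by push_cast <;> ring)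
  replace han : an = ((Int.cast (-1) : ℝ) * a) := han.trans (by push_cast <;> ring)
  replace hbn : bn = ((Int.cast (-1) : ℝ) * b) := hbn.trans (by push_cast <;> ring)
  replace hF : F = (((Int.cast (1) : ℝ) / (Nat.cast 2 : ℝ)) - bn) := hF.trans (by push_cast <;>
    ring)
  replace hd : d = (((Int.cast (1) : ℝ) / (Nat.cast 2 : ℝ)) + an) := hd.trans (by push_cast <;>
    ring)
  replace hz : z = (s - (((Int.cast (2) : ℝ) * bn) * x)) := hz.trans (by push_cast <;> ring)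
  replace hw : w = ((d - (((Int.cast (2) : ℝ) * an) * s)) - ((((Int.cast (1) : ℝ) / (Nat.cast 2 :
    ℝ)) - an) * (s * s))) := hw.trans (by push_cast <;> ring)
  replace hn : n = ((((d * ((Int.cast (1) : ℝ) - z)) * ((Int.cast (1) : ℝ) + ((Int.cast (2) : ℝ) *
    bn))⁻¹) - (((((Int.cast (1) : ℝ) / (Nat.cast 2 : ℝ)) - an) * (z - (s * s))) * ((Int.cast (1) :
    ℝ) - ((Int.cast (2) : ℝ) * bn))⁻¹)) - (((Int.cast (2) : ℝ) * an) * x)) := hn.trans (by push_cast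
    <;> ring)
  replace hr : r = (√(z + ((((Int.cast (1) : ℝ) / (Nat.cast 3 : ℝ)) * (((Int.cast (2) : ℝ) * F) *
    ((((Int.cast (3) : ℝ) / (Nat.cast 2 : ℝ)) + ((Int.cast (2) : ℝ) * an)) + bn))) * n)))⁻¹ :=
    hr.trans (congrArg (fun x : ℝ ↦ (√x)⁻¹) (by push_cast <;> ring))
  have e0 : ((Int.cast (-1) : ℝ) * (((w * ((w + (((Int.cast (2) : ℝ) * F) * n)) * (w + (((Int.cast
    (2) : ℝ) * F) * n)))) - ((((Int.cast (8) : ℝ) * F) * (n * n)) * (d - (an * s)))) - ((z * ((r *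
    r) * r)) * ((w * w) * w)))) = -(w * (w + 2 * F * n) ^ 2 - 8 * F * n ^ 2 * (d - an * s) - z * r ^
    3 * w ^ 3) := by push_cast <;> ring
  subst hs han hbn hF hd hz hw hn hr
  exact Eq.trans rfl e0

theorem l0 : ((0 : ℤ) : ℝ) / 2 ^ 47 = 0 := by norm_num
theorem u0 : (1 / 4 : ℝ) = ((35184372088832 : ℤ) : ℝ) / 2 ^ 47 := by norm_num
theorem l1 : ((0 : ℤ) : ℝ) / 2 ^ 47 = 0 := by norm_num
theorem u1 : (9 / 32 : ℝ) = ((39582418599936 : ℤ) : ℝ) / 2 ^ 47 := by norm_num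
theorem l2 : ((0 : ℤ) : ℝ) / 2 ^ 47 = 0 := by norm_num
theorem u2 : (1 / 4 : ℝ) = ((35184372088832 : ℤ) : ℝ) / 2 ^ 47 := by norm_num
theorem l3 : ((0 : ℤ) : ℝ) / 2 ^ 47 = 0 := by norm_num
theorem u3 : (3 / 8 : ℝ) = ((52776558133248 : ℤ) : ℝ) / 2 ^ 47 := by norm_num

theorem out0 (N : ∀ k x a : ℝ, 0 ≤ k → k ≤ 1 / 4 → 0 ≤ x → x ≤ 9 / 32 → 0 ≤ a → a ≤ 3 / 8 → 0 ≤ outR
    prog 0 [k, x, 0, a]) {k x b a : ℝ} (a0 : 0 ≤ k) (b0 : k ≤ 1 / 4) (a1 : 0 ≤ x) (b1 : x ≤ 9 / 32)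
    (a2 : 0 ≤ b) (b2 : b ≤ 1 / 4) (a3 : 0 ≤ a) (b3 : a ≤ 3 / 8) (pc : 0 < b) : 0 < outR prog 0 [k,
    x, b, a] :=
  gd 0 (by decide) [k, x, b, a] (.cons ⟨l0.le.trans a0, b0.trans u0.le⟩ (.cons ⟨l1.le.trans a1,
    b1.trans u1.le⟩ (.cons ⟨l2.le.trans a2, b2.trans u2.le⟩ (.cons ⟨l3.le.trans a3, b3.trans u3.le⟩
    (.nil))))) ⟨nofun, nofun, nofun, nofun, trivial⟩ (fun _ ↦ .inr (.inr (.inl ⟨rfl, pc⟩)))
    (List.forall_mem_nil _) (Van.of0 rfl) (fun _ y0 a0 b0 y1 a1 b1 _ _ _ y3 a3 b3 ↦ N y0 y1 y3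
    (l0.ge.trans a0) (b0.trans u0.ge) (l1.ge.trans a1) (b1.trans u1.ge) (l3.ge.trans a3) (b3.trans
    u3.ge))

end Pool.Agent.Lib.MP_d6150d_an.ZmLA
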