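import Pool.Agent.Lib.MP_d6150d_an.ZmLBD

/-! A generated chart: the computations. -/

namespace Pool.Agent.Lib.MP_d6150d_an.ZmLB

theorem k0 : chk C 0x880828822880828808288808218211881881221 [(0, 35184372088832), (0,
    39582418599936), (0, 52776558133248)] = true := by
  decide +kernel

end Pool.Agent.Lib.MP_d6150d_an.ZmLB
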