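import Pool.Agent.Lib.MP_d6150d_an.GMac
import Pool.Agent.Lib.MP_d6150d_an.PpChk
import Pool.Agent.Lib.MP_d6150d_an.ZmLBK0

/-! A generated chart: the inequality. -/

namespace Pool.Agent.Lib.MP_d6150d_an.ZmLB

set_option linter.unnecessarySeqFocus false
set_option linter.unusedTactic false
set_option linter.unusedVariables false

theorem gd : Gd2 C [(0, 35184372088832), (0, 39582418599936), (0, 52776558133248)] := chk_sound2 k0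

set_option maxRecDepth 100000 in
theorem eq {k x a s bn an F d z w n r : ℝ} (hs : s = k * x) (hbn : bn = 0) (han : an = -a) (hF : F =
    1 / 2 - bn) (hd : d = 1 / 2 + an) (hz : z = s - 2 * bn * x) (hw : w = d - 2 * an * s - (1 / 2 -
    an) * s ^ 2) (hn : n = d * (1 - z) / (1 + 2 * bn) - (1 / 2 - an) * (z - s ^ 2) / (1 - 2 * bn) -
    2 * an * x) (hr : r = (√(z + 2 * F * (3 / 2 + 2 * an + bn) / 3 * n))⁻¹) : outR prog 0 [k, x, a]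
    = -(w * (w + 2 * F * n) ^ 2 - 8 * F * n ^ 2 * (d - an * s) - z * r ^ 3 * w ^ 3) := by
  replace hs : s = (k * x) := hs.trans (by push_cast <;> ring)
  replace hbn : bn = (Int.cast (0) : ℝ) := hbn.trans (by push_cast <;> ring)
  replace han : an = ((Int.cast (-1) : ℝ) * a) := han.trans (by push_cast <;> ring)
  replace hF : F = (((Int.cast (1) : ℝ) / (Nat.cast 2 : ℝ)) - bn) := hF.trans (by push_cast <;>
    ring)
  replace hd : d = (((Int.cast (1) : ℝ) / (Nat.cast 2 : ℝ)) + an) := hd.trans (by push_cast <;>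
    ring)
  replace hz : z = (s - (((Int.cast (2) : ℝ) * bn) * x)) := hz.trans (by push_cast <;> ring)
  replace hw : w = ((d - (((Int.cast (2) : ℝ) * an) * s)) - ((((Int.cast (1) : ℝ) / (Nat.cast 2 :
    ℝ)) - an) * (s * s))) := hw.trans (by push_cast <;> ring)
  replace hn : n = ((((d * ((Int.cast (1) : ℝ) - z)) * ((Int.cast (1) : ℝ) + ((Int.cast (2) : ℝ) *
    bn))⁻¹) - (((((Int.cast (1) : ℝ) / (Nat.cast 2 : ℝ)) - an) * (z - (s * s))) * ((Int.cast (1) :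
    ℝ) - ((Int.cast (2) : ℝ) * bn))⁻¹)) - (((Int.cast (2) : ℝ) * an) * x)) := hn.trans (by push_cast
    <;> ring)
  replace hr : r = (√(z + ((((Int.cast (1) : ℝ) / (Nat.cast 3 : ℝ)) * (((Int.cast (2) : ℝ) * F) *
    ((((Int.cast (3) : ℝ) / (Nat.cast 2 : ℝ)) + ((Int.cast (2) : ℝ) * an)) + bn))) * n)))⁻¹ :=
    hr.trans (congrArg (fun x : ℝ ↦ (√x)⁻¹) (by push_cast <;> ring))
  have e0 : ((Int.cast (-1) : ℝ) * (((w * ((w + (((Int.cast (2) : ℝ) * F) * n)) * (w + (((Int.cast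
    (2) : ℝ) * F) * n)))) - ((((Int.cast (8) : ℝ) * F) * (n * n)) * (d - (an * s)))) - ((z * ((r *
    r) * r)) * ((w * w) * w)))) = -(w * (w + 2 * F * n) ^ 2 - 8 * F * n ^ 2 * (d - an * s) - z * r ^
    3 * w ^ 3) := by push_cast <;> ring
  subst hs hbn han hF hd hz hw hn hr
  exact Eq.trans rfl e0

theorem l0 : ((0 : ℤ) : ℝ) / 2 ^ 47 = 0 := by norm_num
theorem u0 : (1 / 4 : ℝ) = ((35184372088832 : ℤ) : ℝ) / 2 ^ 47 := by norm_num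
theorem l1 : ((0 : ℤ) : ℝ) / 2 ^ 47 = 0 := by norm_num
theorem u1 : (9 / 32 : ℝ) = ((39582418599936 : ℤ) : ℝ) / 2 ^ 47 := by norm_num
theorem l2 : ((0 : ℤ) : ℝ) / 2 ^ 47 = 0 := by norm_num
theorem u2 : (3 / 8 : ℝ) = ((52776558133248 : ℤ) : ℝ) / 2 ^ 47 := by norm_num

theorem out0 (V1 : ∀ k a : ℝ, 0 ≤ k → k ≤ 1 / 4 → 0 ≤ a → a ≤ 3 / 8 → outR prog 0 [k, 0, a] = 0) (V2
    : ∀ k x : ℝ, 0 ≤ k → k ≤ 1 / 4 → 0 ≤ x → x ≤ 9 / 32 → outR prog 0 [k, x, 0] = 0) {k x a : ℝ} (a0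
    : 0 ≤ k) (b0 : k ≤ 1 / 4) (a1 : 0 ≤ x) (b1 : x ≤ 9 / 32) (a2 : 0 ≤ a) (b2 : a ≤ 3 / 8) (p1 : 0 <
    x) (p2 : 0 < a) : 0 < outR prog 0 [k, x, a] :=
  gd 0 (by decide) [k, x, a] (.cons ⟨l0.le.trans a0, b0.trans u0.le⟩ (.cons ⟨l1.le.trans a1,
    b1.trans u1.le⟩ (.cons ⟨l2.le.trans a2, b2.trans u2.le⟩ (.nil)))) ⟨nofun, fun _ ↦ p1, fun _ ↦
    p2, trivial⟩ (nofun) (List.forall_mem_nil _) (⟨fun _ ↦ allB_iff.2 fun _ _ ↦ trivial, fun y0 a0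
    b0 ↦ ⟨fun _ y2 a2 b2 ↦ V1 y0 y2 (l0.ge.trans a0) (b0.trans u0.ge) (l2.ge.trans a2) (b2.trans
    u2.ge), fun y1 a1 b1 ↦ ⟨fun _ ↦ V2 y0 y1 (l0.ge.trans a0) (b0.trans u0.ge) (l1.ge.trans a1)
    (b1.trans u1.ge), fun _ _ _ ↦ trivial⟩⟩⟩) (nofun)

end Pool.Agent.Lib.MP_d6150d_an.ZmLB
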