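import Pool.Agent.Lib.MP_d6150d_an.ZmLCD

/-! A generated chart: the computations. -/

namespace Pool.Agent.Lib.MP_d6150d_an.ZmLC

theorem k0 : chk C 0x888881333889388192132 [(0, 19791209299968), (0, 17592186044416), (0,
    35184372088832), (0, 17592186044416)] = true := by
  decide +kernel

theorem k1 : chk C 0x8888133889388192132 [(19791209299968, 39582418599936), (0, 17592186044416), (0,
    35184372088832), (0, 17592186044416)] = true := by
  decide +kernel

theorem k2 : chk C 0x88288828138991913288881338991913203 [(0, 39582418599936), (17592186044416,
    35184372088832), (0, 35184372088832), (0, 17592186044416)] = true := by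
  decide +kernel

theorem k3 : chk C 0x88821 [(0, 39582418599936), (0, 35184372088832), (0, 35184372088832),
    (17592186044416, 35184372088832)] = true := by
  decide +kernel

theorem k4 : chk C 0x8818821 [(0, 39582418599936), (0, 35184372088832), (0, 35184372088832),
    (35184372088832, 70368744177664)] = true := by
  decide +kernel

theorem k5 : chk C 0x881888211 [(0, 39582418599936), (0, 35184372088832), (0, 35184372088832),
    (70368744177664, 140737488355328)] = true := by
  decide +kernel

end Pool.Agent.Lib.MP_d6150d_an.ZmLC
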