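import Pool.Agent.Lib.MP_d6150d_an.GDef

/-! A generated chart: the program. -/

namespace Pool.Agent.Lib.MP_d6150d_an.ZmLC

def prog1 : List Ins := .sub false 9 0 :: .cpy 0 :: []

def prog : List Ins := .cst 1 2 :: .var 1 :: .add false 1 0 :: .smul 4 0 :: .var 3 :: .int 1 :: .var
    0 :: .var 2 :: .smul (-4) 6 :: .exp 0 :: .mul 2 0 :: .mul 0 5 :: .smul 2 10 :: .mul 0 7 :: .add
    false 2 0 :: .mul 8 0 :: .sub false 10 0 :: .mul 12 0 :: .sub true 12 5 :: .inv 0 :: .mul 2 0 ::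
    .mul 14 16 :: .sub true 16 0 :: .mul 16 11 :: .mul 0 12 :: .sub false 10 0 :: .mul 3 0 :: .add
    false 21 14 :: .inv 0 :: .mul 2 0 :: .sub false 9 0 :: .smul 2 9 :: .sub true 26 0 :: .mul 0 27
    :: .add true 3 0 :: .mul 0 0 :: .mul 32 0 :: .mul 4 25 :: .smul 2 33 :: .add false 1 0 :: .mul 3
    0 :: .sub false 35 17 :: .mul 19 30 :: .add false 0 38 :: .mul 2 0 :: .smul 2 42 :: .mul 0 11 ::
    .add false 2 0 :: .mul 0 0 :: .mul 4 0 :: prog1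

def vs : List Vr := [⟨2, 0, false, false⟩, ⟨2, 0, false, false⟩, ⟨2, 0, false, true⟩, ⟨3, 0, false,
    true⟩]

def C : Chart := ⟨vs, prog, [], 1, 3⟩

end Pool.Agent.Lib.MP_d6150d_an.ZmLC
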