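import Pool.Agent.Lib.MP_d6150d_an.GMac
import Pool.Agent.Lib.MP_d6150d_an.PpChk
import Pool.Agent.Lib.MP_d6150d_an.ZmLEK0

/-! A generated chart: the inequality. -/

namespace Pool.Agent.Lib.MP_d6150d_an.ZmLE

set_option linter.unnecessarySeqFocus false
set_option linter.unusedTactic false
set_option linter.unusedVariables false

theorem gd : Gd2 C [(0, 17592186044416), (0, 35184372088832), (0, 35184372088832), (0,
    140737488355328)] := chk_sound2 k0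

set_option maxRecDepth 100000 in
theorem eq {l k b xh dh d sh s zh F w n : ℝ} (hdh : dh = 1) (hd : d = l * dh) (hsh : sh = k * xh)
    (hs : s = l * sh) (hzh : zh = sh + 2 * b * xh) (hF : F = 1 / 2 + b) (hw : w = (1 - s) * ((1 - d)
    * sh + dh)) (hn : n = dh * (1 - l * zh) / (1 - 2 * b) - (1 - d) * (zh - s * sh) / (1 + 2 * b) +
    (1 - 2 * d) * xh) : outR prog 0 [l, k, b, xh] = 4 * F * n ^ 2 * ((1 - 2 * d) * sh + 2 * dh) - w
    * (w + 2 * F * n) ^ 2 := by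
  replace hdh : dh = (Int.cast (1) : ℝ) := hdh.trans (by push_cast <;> ring)
  replace hd : d = (l * dh) := hd.trans (by push_cast <;> ring)
  replace hsh : sh = (k * xh) := hsh.trans (by push_cast <;> ring)
  replace hs : s = (l * sh) := hs.trans (by push_cast <;> ring)
  replace hzh : zh = (sh + (((Int.cast (2) : ℝ) * b) * xh)) := hzh.trans (by push_cast <;> ring)
  replace hF : F = (((Int.cast (1) : ℝ) / (Nat.cast 2 : ℝ)) + b) := hF.trans (by push_cast <;> ring)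
  replace hw : w = (((Int.cast (1) : ℝ) - s) * ((((Int.cast (1) : ℝ) - d) * sh) + dh)) := hw.trans
    (by push_cast <;> ring)
  replace hn : n = ((((dh * ((Int.cast (1) : ℝ) - (l * zh))) * ((Int.cast (1) : ℝ) - ((Int.cast (2)
    : ℝ) * b))⁻¹) - ((((Int.cast (1) : ℝ) - d) * (zh - (s * sh))) * ((Int.cast (1) : ℝ) + ((Int.cast
    (2) : ℝ) * b))⁻¹)) + (((Int.cast (1) : ℝ) - ((Int.cast (2) : ℝ) * d)) * xh)) := hn.trans (by
    push_cast <;> ring)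
  have e0 : (((((Int.cast (4) : ℝ) * F) * (n * n)) * ((((Int.cast (1) : ℝ) - ((Int.cast (2) : ℝ) *
    d)) * sh) + ((Int.cast (2) : ℝ) * dh))) - (w * ((w + (((Int.cast (2) : ℝ) * F) * n)) * (w +
    (((Int.cast (2) : ℝ) * F) * n))))) = 4 * F * n ^ 2 * ((1 - 2 * d) * sh + 2 * dh) - w * (w + 2 *
    F * n) ^ 2 := by push_cast <;> ring
  subst hdh hd hsh hs hzh hF hw hn
  exact Eq.trans rfl e0

theorem l0 : ((0 : ℤ) : ℝ) / 2 ^ 47 = 0 := by norm_num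
theorem u0 : (1 / 8 : ℝ) = ((17592186044416 : ℤ) : ℝ) / 2 ^ 47 := by norm_num
theorem l1 : ((0 : ℤ) : ℝ) / 2 ^ 47 = 0 := by norm_num
theorem u1 : (1 / 4 : ℝ) = ((35184372088832 : ℤ) : ℝ) / 2 ^ 47 := by norm_num
theorem l2 : ((0 : ℤ) : ℝ) / 2 ^ 47 = 0 := by norm_num
theorem u2 : (1 / 4 : ℝ) = ((35184372088832 : ℤ) : ℝ) / 2 ^ 47 := by norm_num
theorem l3 : ((0 : ℤ) : ℝ) / 2 ^ 47 = 0 := by norm_num
theorem u3 : (1 : ℝ) = ((140737488355328 : ℤ) : ℝ) / 2 ^ 47 := by norm_num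

theorem out0 (N : ∀ l k : ℝ, 0 ≤ l → l ≤ 1 / 8 → 0 ≤ k → k ≤ 1 / 4 → 0 ≤ outR prog 0 [l, k, 0, 0])
    {l k b xh : ℝ} (a0 : 0 ≤ l) (b0 : l ≤ 1 / 8) (a1 : 0 ≤ k) (b1 : k ≤ 1 / 4) (a2 : 0 ≤ b) (b2 : b
    ≤ 1 / 4) (a3 : 0 ≤ xh) (b3 : xh ≤ 1) (pc : 0 < b ∨ 0 < xh) : 0 < outR prog 0 [l, k, b, xh] :=
  gd 0 (by decide) [l, k, b, xh] (.cons ⟨l0.le.trans a0, b0.trans u0.le⟩ (.cons ⟨l1.le.trans a1,
    b1.trans u1.le⟩ (.cons ⟨l2.le.trans a2, b2.trans u2.le⟩ (.cons ⟨l3.le.trans a3, b3.trans u3.le⟩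
    (.nil))))) ⟨nofun, nofun, nofun, nofun, trivial⟩ (fun _ ↦ pc.elim (fun h ↦ .inr (.inr (.inl
    ⟨rfl, h⟩))) (fun h ↦ .inr (.inr (.inr (.inl ⟨rfl, h⟩))))) (List.forall_mem_nil _) (Van.of0 rfl)
    (fun _ y0 a0 b0 y1 a1 b1 _ _ _ _ _ _ ↦ N y0 y1 (l0.ge.trans a0) (b0.trans u0.ge) (l1.ge.trans
    a1) (b1.trans u1.ge))

end Pool.Agent.Lib.MP_d6150d_an.ZmLE
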