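import Pool.Agent.Lib.MP_d6150d_an.GDef

/-! A generated chart: the program. -/

namespace Pool.Agent.Lib.MP_d6150d_an.ZmLE

def prog : List Ins := .cst 1 2 :: .var 2 :: .add false 1 0 :: .smul 4 0 :: .int 1 :: .var 0 :: .var
    1 :: .var 3 :: .mul 1 0 :: .smul 2 7 :: .mul 0 2 :: .add false 2 0 :: .mul 6 0 :: .sub false 8 0
    :: .mul 9 0 :: .sub true 10 5 :: .inv 0 :: .mul 2 0 :: .mul 12 13 :: .sub true 14 0 :: .mul 14
    11 :: .mul 0 12 :: .sub false 10 0 :: .mul 3 0 :: .add false 19 14 :: .inv 0 :: .mul 2 0 :: .sub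
    false 9 0 :: .smul 2 9 :: .sub true 24 0 :: .mul 0 22 :: .add true 3 0 :: .mul 0 0 :: .mul 29 0
    :: .mul 4 25 :: .smul 2 30 :: .add false 1 0 :: .mul 3 0 :: .sub false 33 17 :: .mul 19 30 ::
    .add false 0 35 :: .mul 2 0 :: .smul 2 39 :: .mul 0 11 :: .add false 2 0 :: .mul 0 0 :: .mul 4 0
    :: .sub false 9 0 :: .cpy 0 :: []

def vs : List Vr := [⟨1, 0, false, false⟩, ⟨2, 0, false, false⟩, ⟨2, 0, false, true⟩, ⟨3, 0, false,
    true⟩]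

def C : Chart := ⟨vs, prog, [], 1, 3⟩

end Pool.Agent.Lib.MP_d6150d_an.ZmLE
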