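import Pool.Agent.Lib.MP_d6150d_an.Z2Main

/-! The quadrant `D ≥ -1 / 2`, `F ≥ 1 / 2` of the double isochronous point: identities. -/

namespace Pool.Agent.Lib.MP_d6150d_an.ZmL

open Real Set Z2

/-- the expression on the right branch -/
noncomputable def fT (a b p q x : ℝ) : ℝ :=
  let F := 1 / 2 + b
  let d := 1 / 2 - a
  let w := 1 / 2 + a - 2 * a * q - d * q ^ 2
  let n := d * (p - q) / (1 / 2 - b)
  let m := w - q * n - 2 * a * x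
  let r := (√(q * p + (3 / 2 - 2 * a - b) / 3 * m))⁻¹
  F * w * q * (n ^ 2 - p ^ 2 * r ^ 3 * w ^ 2) + 2 * m ^ 2 * (d * q + a)

/-- the kernel on the left branch -/
noncomputable def gL (a b s x : ℝ) : ℝ :=
  let F := 1 / 2 - b
  let d := 1 / 2 + a
  let z := s - 2 * b * x
  let w := d - 2 * a * s - (1 / 2 - a) * s ^ 2
  let n := d * (1 - z) / (1 + 2 * b) - (1 / 2 - a) * (z - s ^ 2) / (1 - 2 * b) - 2 * a * x
  w * (w + 2 * F * n) ^ 2 - 8 * F * n ^ 2 * (d - a * s)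

/-- the same after scaling -/
noncomputable def gZ (l e y k b : ℝ) : ℝ :=
  let d := l * e
  let h := k * y
  let s := l * h
  let z := h + 2 * b * y
  let F := 1 / 2 + b
  let w := (1 - s) * ((1 - d) * h + e)
  let n := e * (1 - l * z) / (1 - 2 * b) - (1 - d) * (z - s * h) / (1 + 2 * b) + (1 - 2 * d) * y
  4 * F * n ^ 2 * ((1 - 2 * d) * h + 2 * e) - w * (w + 2 * F * n) ^ 2

variable {a b t D F : ℝ}

theorem gZ_eq {l e y k x : ℝ} (ha : a = 1 / 2 - l * e) (hx : x = l * y) :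
    gL (-a) (-b) (k * x) x = -(l ^ 3 * gZ l e y k b) := by
  subst ha hx
  simp only [gL, gZ, show 1 + 2 * -b = 1 - 2 * b by ring, show 1 - 2 * -b = 1 + 2 * b by ring]
  ring

theorem keyR (hD : D = -1 / 2 + a) (hF : F = 1 / 2 + b) (a0 : 0 ≤ a) (a1 : a ≤ 1 / 2) (b0 : 0 ≤ b)
    (b1 : b < 1 / 2) (ht : t ∈ JR D) (t0 : 0 < t) (h : 0 < fT a b (exp (-2 * b * t)) (exp (-t))
      (exp (-t) * (t * ph1 (-2 * b * t)))) : dZ D F t < 0 := by
  obtain ⟨y, hy⟩ : ∃ y, y = exp (F * t) := ⟨_, rfl⟩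
  obtain ⟨i, hi⟩ : ∃ i, i = exp (-(F * t)) := ⟨_, rfl⟩
  obtain ⟨p, hp⟩ : ∃ p, p = exp (-2 * b * t) := ⟨_, rfl⟩
  obtain ⟨q, hq⟩ : ∃ q, q = exp (-t) := ⟨_, rfl⟩
  obtain ⟨c, hc⟩ : ∃ c, c = t * ph1 (-2 * b * t) := ⟨_, rfl⟩
  have e1 : y * i = 1 := by rw [hy, hi, ← exp_add]; simp
  have e2 : q * p = i ^ 2 := by rw [hp, hq, hi, hF, sq, ← exp_add, ← exp_add]; ring_nf
  have e4 : q * exp t = 1 := by rw [hq, ← exp_add]; simp
  have e5 : p = 1 - 2 * b * c := by rw [hp, hc, exp_eq_ph]; ring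
  have e6 : q ^ 2 * exp ((2 - 2 * F) * t) = q * p := by
    rw [hq, hp, hF, sq, ← exp_add, ← exp_add, ← exp_add]; ring_nf
  have e7 : exp (2 * F * t) = y ^ 2 := by rw [hy, sq, ← exp_add]; ring_nf
  have e8 : exp ((2 * F - 2) * t) * p = q := by rw [hp, hq, hF, ← exp_add]; ring_nf
  have e9 : y ^ 2 * (q * p) = 1 := by rw [e2]; linear_combination (1 + y * i) * e1
  have k2 : t * ph1 ((2 * F - 1) * t) * p = c := by
    rw [hc, hp, ph1_neg (-2 * b * t), show (2 * F - 1) * t = -(-2 * b * t) by rw [hF]; ring]; ring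
  have h1 := exp_eq_ph (2 * F * t)
  have h3 := exp_eq_ph ((2 * F - 2) * t)
  obtain ⟨w, hw⟩ : ∃ w, w = 1 / 2 + a - 2 * a * q - (1 / 2 - a) * q ^ 2 := ⟨_, rfl⟩
  obtain ⟨n, hn⟩ : ∃ n, n = (1 / 2 - a) * (p - q) / (1 / 2 - b) := ⟨_, rfl⟩
  obtain ⟨m, hm⟩ : ∃ m, m = w - q * n - 2 * a * (q * c) := ⟨_, rfl⟩
  have hn' : n * (1 / 2 - b) = (1 / 2 - a) * (p - q) := by
    rw [hn, div_mul_cancel₀ _ (by linarith)]
  have k3 : n = 2 * (1 / 2 - a) * (t * ph1 ((2 * F - 2) * t) * p) := by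
    apply mul_right_cancel₀ (b := 1 / 2 - b) (by linarith)
    rw [hF] at h3 e8 ⊢
    linear_combination hn' + (1 / 2 - a) * e8 - (1 / 2 - a) * p * h3
  have hW : w = q ^ 2 * wR D t := by
    rw [wR, PR, QR, hw, hD]
    linear_combination -((1 / 2 + a) * (1 + q * exp t) - 2 * a * q) * e4
  have hv : F * vR D F t * (q * p) = m := by
    rw [vR_eq, hm, hw, hD]
    rw [e7] at h1
    linear_combination (1 / 2 + a) * (e9 - q * p * h1) - 4 * a * F * q * k2 + F * q * k3 +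
      q * hn' - 2 * a * q * e5 - (4 * a * q * c + q * n) * hF
  have H := ZR_hom (F := F) ht t0.ne' (l := q ^ 2) (P := 1 / 2 + a) (Q := 2 * a * q)
    (R := -(1 / 2 - a) * q ^ 2) (Y := vR D F t * (q * p) / 2) (W := w)
    (by rw [PR, hD]; linear_combination -(1 / 2 + a) * (1 + q * exp t) * e4)
    (by rw [QR, hD]; linear_combination -2 * a * q * e4) (by rw [hD]; ring)
    (by rw [yR, ← e6]; ring) hW
  have hr := rsq_scale (X := 1 + F * (1 - 2 * D - F) / 3 * vR D F t) (hi ▸ exp_pos _ : 0 < i) e2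
  rw [show q * p * (1 + F * (1 - 2 * D - F) / 3 * vR D F t) = q * p + (3 / 2 - 2 * a - b) / 3 * m by
    rw [← hv, hD, hF]; ring] at hr
  have q0 : 0 < q := hq ▸ exp_pos _
  have p0 : 0 < p := hp ▸ exp_pos _
  have y0 : 0 < y := hy ▸ exp_pos _
  have c0 : 0 < c := hc ▸ mul_pos t0 (ph1_pos _)
  have F0 : 0 < F := by linarith
  have n0 : 0 ≤ n := hn ▸ div_nonneg (mul_nonneg (by linarith)
    (hp ▸ hq ▸ sub_nonneg.2 (exp_le_exp.2 (by nlinarith)))) (by linarith)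
  have w0 : 0 < w := by
    rw [hW, wR_eq]; exact mul_pos (by positivity) (mul_pos (sub_pos.2 (one_lt_exp_iff.2 t0)) ht)
  rw [← hc, ← hp, ← hq] at h
  simp only [fT, ← hw, ← hn, ← hm, ← hF] at h
  rw [← hy] at H
  rw [dZ, sep, hr]
  generalize (√(q * p + (3 / 2 - 2 * a - b) / 3 * m))⁻¹ = r, vR D F t = V, ZR D F t = Z at *
  refine neg_of_mul_neg_right (a := F * w ^ 3 * (p * y)) ?_ (by positivity)
  have k : 0 ≤ F * w * q * (2 * a * c * (2 * n + 2 * a * c)) := by positivity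
  have : F * w * q * (n ^ 2 - p ^ 2 * r ^ 3 * w ^ 2) + 2 * m ^ 2 * ((1 / 2 - a) * q + a) +
      F * w * q * (2 * a * c * (2 * n + 2 * a * c)) = -(F * w ^ 3 * (p * y) * ((i * r) ^ 3 - Z)) := by
    linear_combination -F * p * y * H + F * w ^ 3 * p * r ^ 3 * (i ^ 2 * e1 - e2) +
      p * y ^ 2 * (2 * F * w ^ 2 + (F * V * (q * p) + m) * (-F * (1 / 2 + a) + (F - 1) * (2 * a * q) +
        (2 - F) * (-(1 / 2 - a) * q ^ 2))) * hv + p * y ^ 2 * m ^ 2 * F * hw +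
      p * y ^ 2 * F * w * (w - m + q * (n + 2 * a * c)) * hm -
      (F * w * q * (n + 2 * a * c) ^ 2 + 2 * m ^ 2 * ((1 / 2 - a) * q + a)) * e9
  linarith

theorem keyL (c1 : 1 + 2 * b ≠ 0) (c2 : 1 - 2 * b ≠ 0) (ht : t ∈ JR (-1 / 2 - a)) (t0 : t < 0)
    (b0 : b ≤ 0) (h : fL a b (exp t) (-t * exp t * ph1 (2 * b * t)) < 0 ∨
      gL a b (exp t) (-t * exp t * ph1 (2 * b * t)) < 0) : 0 < dZ (-1 / 2 - a) (1 / 2 - b) t := by
  obtain ⟨y, hy⟩ : ∃ y, y = exp ((1 / 2 - b) * t) := ⟨_, rfl⟩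
  obtain ⟨j, hj⟩ : ∃ j, j = exp ((1 / 2 + b) * t) := ⟨_, rfl⟩
  obtain ⟨p, hp⟩ : ∃ p, p = exp (2 * b * t) := ⟨_, rfl⟩
  obtain ⟨s, hs⟩ : ∃ s, s = exp t := ⟨_, rfl⟩
  obtain ⟨x, hx⟩ : ∃ x, x = -t * s * ph1 (2 * b * t) := ⟨_, rfl⟩
  obtain ⟨z, hz⟩ : ∃ z, z = s - 2 * b * x := ⟨_, rfl⟩
  have e1 : z = s * p := by rw [hz, hx, hp, exp_eq_ph (2 * b * t)]; ring
  have e2 : z = j ^ 2 := by rw [e1, hs, hp, hj, sq, ← exp_add, ← exp_add]; ring_nf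
  have e3 : j = y * p := by rw [hj, hy, hp, ← exp_add]; ring_nf
  have e4 : exp ((2 - 2 * (1 / 2 - b)) * t) = z := by rw [e1, hs, hp, ← exp_add]; ring_nf
  have e5 : exp (2 * (1 / 2 - b) * t) * z = s ^ 2 := by
    rw [← e4, hs, sq, ← exp_add, ← exp_add]; ring_nf
  have e6 : exp ((2 * (1 / 2 - b) - 2) * t) * z = 1 := by rw [← e4, ← exp_add]; ring_nf; simp
  have e7 : t * ph1 ((2 * (1 / 2 - b) - 1) * t) * z = -x := by
    rw [hx, e1, ph1_neg (2 * b * t), ← hp, show (2 * (1 / 2 - b) - 1) * t = -(2 * b * t) by ring]; ring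
  have h1 := exp_eq_ph (2 * (1 / 2 - b) * t)
  have h3 := exp_eq_ph ((2 * (1 / 2 - b) - 2) * t)
  obtain ⟨w, hw⟩ : ∃ w, w = 1 / 2 + a - 2 * a * s - (1 / 2 - a) * s ^ 2 := ⟨_, rfl⟩
  obtain ⟨n, hn⟩ : ∃ n, n = (1 / 2 + a) * (1 - z) / (1 + 2 * b) - (1 / 2 - a) * (z - s ^ 2) /
    (1 - 2 * b) - 2 * a * x := ⟨_, rfl⟩
  have hW : w = -1 * wR (-1 / 2 - a) t := by rw [wR, PR, QR, hw, ← hs]; ring
  have w0 : 0 < w := by
    have h : 0 < om (-1 / 2 - a) t := ht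
    rw [hW, wR_eq]; nlinarith [exp_lt_one_iff.2 t0]
  have hv : vR (-1 / 2 - a) (1 / 2 - b) t * z = 2 * n := by
    have k1 : t * ph1 (2 * (1 / 2 - b) * t) * z = -((z - s ^ 2) / (1 - 2 * b)) := by
      rw [← neg_div, eq_div_iff c2]; linear_combination e5 - z * h1
    have k3 : t * ph1 ((2 * (1 / 2 - b) - 2) * t) * z = -((1 - z) / (1 + 2 * b)) := by
      rw [← neg_div, eq_div_iff c1]; linear_combination z * h3 - e6
    rw [vR_eq, hn]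
    linear_combination 2 * (1 / 2 - a) * k1 + 4 * a * e7 - 2 * (1 / 2 + a) * k3
  have H := ZR_hom (F := 1 / 2 - b) ht t0.ne (l := -1) (P := -(1 / 2 - a) * s ^ 2) (Q := 2 * a * s)
    (R := 1 / 2 + a) (Y := -n) (W := w) (by rw [PR, hs]; ring) (by rw [QR, hs]; ring) (by ring)
    (by rw [yR, e4, hv]; ring) hW
  have j0 : 0 < j := hj ▸ exp_pos _
  have y0 : 0 < y := hy ▸ exp_pos _
  have p1 : 1 ≤ p := hp ▸ one_le_exp (by nlinarith)
  have hr := rsq_scale (X := 1 + (1 / 2 - b) * (1 - 2 * (-1 / 2 - a) - (1 / 2 - b)) / 3 *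
    vR (-1 / 2 - a) (1 / 2 - b) t) j0 e2
  rw [show z * (1 + (1 / 2 - b) * (1 - 2 * (-1 / 2 - a) - (1 / 2 - b)) / 3 *
    vR (-1 / 2 - a) (1 / 2 - b) t) = z + 2 * (1 / 2 - b) * (3 / 2 + 2 * a + b) / 3 * n by
      linear_combination (1 / 2 - b) * (3 / 2 + 2 * a + b) / 3 * hv] at hr
  have r0 : 0 ≤ (√(z + 2 * (1 / 2 - b) * (3 / 2 + 2 * a + b) / 3 * n))⁻¹ := by positivity
  rw [← hs, ← hx] at h
  simp only [fL, gL, ← hz, ← hw, ← hn] at h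
  rw [← hy] at H
  rw [dZ, sep, hr]
  generalize (√(z + 2 * (1 / 2 - b) * (3 / 2 + 2 * a + b) / 3 * n))⁻¹ = r,
    ZR (-1 / 2 - a) (1 / 2 - b) t = Z at *
  have e : y * (w * (w + 2 * (1 / 2 - b) * n) ^ 2 - 8 * (1 / 2 - b) * n ^ 2 * (1 / 2 + a - a * s)) =
      w ^ 3 * Z := by linear_combination -H + 4 * (1 / 2 - b) ^ 2 * n ^ 2 * y * hw
  have k : 0 ≤ y * (j ^ 2 * r ^ 3 * w ^ 3) := by positivity
  have e' : w ^ 3 * (j * r) ^ 3 = y * (j ^ 2 * r ^ 3 * w ^ 3) * p := by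
    linear_combination j ^ 2 * r ^ 3 * w ^ 3 * e3
  refine (mul_pos_iff_of_pos_left (pow_pos w0 3)).1 ?_
  have k1 := mul_nonneg k (sub_nonneg.2 p1)
  rw [mul_sub, e', ← e]
  rw [e2] at h
  rcases h with h | h <;> linarith [mul_pos y0 (neg_pos.2 h)]

theorem ph1_lb (h : 0 ≤ t) : exp (t / 2) ≤ ph1 t := by
  rcases h.eq_or_lt with rfl | h
  · simp [ph1_zero]
  have h1 := self_le_sinh_iff.2 (half_pos h).le
  have h2 : exp (t / 2) * exp (-(t / 2)) = 1 := by rw [← exp_add]; simp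
  have h3 : exp (t / 2) * exp (t / 2) = 1 + t * ph1 t := by rw [← exp_add, ← exp_eq_ph, add_halves]
  rw [sinh_eq] at h1
  nlinarith [mul_le_mul_of_nonneg_left h1 (exp_pos (t / 2)).le]

theorem ph1_ub (b0 : 0 ≤ b) (b1 : b ≤ 1 / 4) (t : ℝ) :
    t * ph1 (2 * b * t) ≤ 2 * (exp (t / 2) - 1) := by
  rcases b0.eq_or_lt with rfl | h
  · have := add_one_le_exp (t / 2)
    rw [mul_zero, zero_mul, ph1_zero]; linarith
  have := convexOn_exp.2 (mem_univ (t / 2)) (mem_univ 0) (by linarith : 0 ≤ 4 * b)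
    (by linarith : 0 ≤ 1 - 4 * b) (by ring)
  simp only [smul_eq_mul, mul_zero, add_zero, exp_zero] at this
  rw [show 4 * b * (t / 2) = 2 * b * t by ring, exp_eq_ph] at this
  nlinarith

end Pool.Agent.Lib.MP_d6150d_an.ZmL
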