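import Pool.Agent.Lib.MP_d6150d_an.ZmLLD

/-! A generated chart: the computations. -/

namespace Pool.Agent.Lib.MP_d6150d_an.ZmLL

theorem k0 : chk C 0x88088199292018881089012 [(0, 35184372088832), (0, 35184372088832), (0,
    140737488355328)] = true := by
  decide +kernel

theorem k1 : chk C 0x8880088800881992018880188091021 [(0, 35184372088832), (0, 35184372088832),
    (140737488355328, 281474976710656)] = true := by
  decide +kernel

theorem k2 : chk C 0x88180880880118881188122 [(35184372088832, 70368744177664), (0, 35184372088832),
    (0, 281474976710656)] = true := by
  decide +kernel

theorem k3 : chk C 0x8888211888099211888091120 [(0, 35184372088832), (0, 17592186044416),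
    (281474976710656, 422212465065984)] = true := by
  decide +kernel

theorem k4 : chk C 0x880888018910880912188088821891012 [(0, 17592186044416), (0, 8796093022208),
    (422212465065984, 562949953421312)] = true := by
  decide +kernel

theorem k5 : chk C 0x88811888112 [(17592186044416, 35184372088832), (0, 8796093022208),
    (422212465065984, 562949953421312)] = true := by
  decide +kernel

theorem k6 : chk C 0x882880820 [(0, 35184372088832), (8796093022208, 17592186044416),
    (422212465065984, 562949953421312)] = true := by
  decide +kernel

theorem k7 : chk C 0x8818810881088801881208818088102 [(35184372088832, 70368744177664), (0,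
    8796093022208), (281474976710656, 562949953421312)] = true := by
  decide +kernel

theorem k8 : chk C 0x88180808800880802 [(35184372088832, 70368744177664), (8796093022208,
    17592186044416), (281474976710656, 562949953421312)] = true := by
  decide +kernel

theorem k9 : chk C 0x8818288188120888202 [(0, 35184372088832), (17592186044416, 35184372088832),
    (281474976710656, 562949953421312)] = true := by
  decide +kernel

end Pool.Agent.Lib.MP_d6150d_an.ZmLL
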