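import Pool.Agent.Lib.MP_d6150d_an.ZmLLD

/-! A generated chart: the computations. -/

namespace Pool.Agent.Lib.MP_d6150d_an.ZmLL

theorem k10 : chk C 0x8818080881088801088180802 [(35184372088832, 70368744177664), (17592186044416,
    35184372088832), (281474976710656, 562949953421312)] = true := by
  decide +kernel

end Pool.Agent.Lib.MP_d6150d_an.ZmLL
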