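import Pool.Agent.Lib.MP_d6150d_an.GMac
import Pool.Agent.Lib.MP_d6150d_an.PpChk
import Pool.Agent.Lib.MP_d6150d_an.ZmLLK0
import Pool.Agent.Lib.MP_d6150d_an.ZmLLK1

/-! A generated chart: the inequality. -/

namespace Pool.Agent.Lib.MP_d6150d_an.ZmLL

set_option linter.unnecessarySeqFocus false
set_option linter.unusedTactic false
set_option linter.unusedVariables false

theorem gd : Gd2 C [(0, 70368744177664), (0, 35184372088832), (0, 562949953421312)] := .split 2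
    (.split 0 (.split 2 (chk_sound2 k0) (chk_sound2 k1)) (chk_sound2 k2)) (.split 1 (.split 0
    (.split 2 (chk_sound2 k3) (.split 1 (.split 0 (chk_sound2 k4) (chk_sound2 k5)) (chk_sound2 k6)))
    (.split 1 (chk_sound2 k7) (chk_sound2 k8))) (.split 0 (chk_sound2 k9) (chk_sound2 k10)))

set_option maxRecDepth 100000 in
theorem eq {a b u an bn t D F x xi mu P Q R z12 W z14 Y r yi : ℝ} (han : an = -a) (hbn : bn = -b)
    (ht : t = -u) (hD : D = -1 / 2 - an) (hF : F = 1 / 2 - bn) (hx : x = Real.exp (t / 2)) (hxi : xi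
    = Real.exp (-(t / 2))) (hmu : mu = muR D F t) (hP : P = (1 + D) * x ^ 2) (hQ : Q = 1 + 2 * D)
    (hR : R = D * xi ^ 2) (hz12 : z12 = ph1 (t / 2)) (hW : W = z12 * (1 + xi) / 2 * ((1 + D) * x - D
    * xi)) (hz14 : z14 = Real.exp (2 * bn * t)) (hY : Y = mu * z14 / 2) (hr : r = (√(1 + F * (1 - 2
    * D - F) / 3 * (t ^ 2 * mu)))⁻¹) (hyi : yi = Real.exp (-(F * t))) : outR prog 0 [a, b, u] = W ^
    3 * (r ^ 3 * yi - 1) + 4 * F * t * Y * (W ^ 2 + Y * ((-F) * P + (F - 1) * Q + (2 - F) * R)) :=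
    by
  replace han : an = ((Int.cast (-1) : ℝ) * a) := han.trans (by push_cast <;> ring)
  replace hbn : bn = ((Int.cast (-1) : ℝ) * b) := hbn.trans (by push_cast <;> ring)
  replace ht : t = ((Int.cast (-1) : ℝ) * u) := ht.trans (by push_cast <;> ring)
  replace hD : D = (((Int.cast (-1) : ℝ) / (Nat.cast 2 : ℝ)) - an) := hD.trans (by push_cast <;>
    ring)
  replace hF : F = (((Int.cast (1) : ℝ) / (Nat.cast 2 : ℝ)) - bn) := hF.trans (by push_cast <;>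
    ring)
  replace hx : x = (Real.exp (((Int.cast (1) : ℝ) / (Nat.cast 2 : ℝ)) * t)) := hx.trans (congrArg
    Real.exp (by push_cast <;> ring))
  replace hxi : xi = (Real.exp ((Int.cast (-1) : ℝ) * (((Int.cast (1) : ℝ) / (Nat.cast 2 : ℝ)) *
    t))) := hxi.trans (congrArg Real.exp (by push_cast <;> ring))
  replace hmu : mu = (mMu D F t) := hmu.trans (mMu_0 ..)
  replace hP : P = (((Int.cast (1) : ℝ) + D) * (x * x)) := hP.trans (by push_cast <;> ring)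
  replace hQ : Q = ((Int.cast (1) : ℝ) + ((Int.cast (2) : ℝ) * D)) := hQ.trans (by push_cast <;>
    ring)
  replace hR : R = (D * (xi * xi)) := hR.trans (by push_cast <;> ring)
  replace hz12 : z12 = (ph1 (((Int.cast (1) : ℝ) / (Nat.cast 2 : ℝ)) * t)) := hz12.trans (congrArg
    ph1 (by push_cast <;> ring))
  replace hW : W = ((((Int.cast (1) : ℝ) / (Nat.cast 2 : ℝ)) * (z12 * ((Int.cast (1) : ℝ) + xi))) *
    ((((Int.cast (1) : ℝ) + D) * x) - (D * xi))) := hW.trans (by push_cast <;> ring)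
  replace hz14 : z14 = (Real.exp (((Int.cast (2) : ℝ) * bn) * t)) := hz14.trans (congrArg Real.exp
    (by push_cast <;> ring))
  replace hY : Y = (((Int.cast (1) : ℝ) / (Nat.cast 2 : ℝ)) * (mu * z14)) := hY.trans (by push_cast
    <;> ring)
  replace hr : r = (√((Int.cast (1) : ℝ) + ((((Int.cast (1) : ℝ) / (Nat.cast 3 : ℝ)) * (F *
    (((Int.cast (1) : ℝ) - ((Int.cast (2) : ℝ) * D)) - F))) * ((t * t) * mu))))⁻¹ := hr.trans
    (congrArg (fun x : ℝ ↦ (√x)⁻¹) (by push_cast <;> ring))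
  replace hyi : yi = (Real.exp ((Int.cast (-1) : ℝ) * (F * t))) := hyi.trans (congrArg Real.exp (by
    push_cast <;> ring))
  have e0 : ((((W * W) * W) * ((((r * r) * r) * yi) - (Int.cast (1) : ℝ))) + (((((Int.cast (4) : ℝ)
    * F) * t) * Y) * ((W * W) + (Y * (((((Int.cast (-1) : ℝ) * F) * P) + ((F - (Int.cast (1) : ℝ)) *
    Q)) + (((Int.cast (2) : ℝ) - F) * R)))))) = W ^ 3 * (r ^ 3 * yi - 1) + 4 * F * t * Y * (W ^ 2 +
    Y * ((-F) * P + (F - 1) * Q + (2 - F) * R)) := by push_cast <;> ring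
  subst han hbn ht hD hF hx hxi hmu hP hQ hR hz12 hW hz14 hY hr hyi
  exact Eq.trans rfl e0

theorem l0 : ((0 : ℤ) : ℝ) / 2 ^ 47 = 0 := by norm_num
theorem u0 : (1 / 2 : ℝ) = ((70368744177664 : ℤ) : ℝ) / 2 ^ 47 := by norm_num
theorem l1 : ((0 : ℤ) : ℝ) / 2 ^ 47 = 0 := by norm_num
theorem u1 : (1 / 4 : ℝ) = ((35184372088832 : ℤ) : ℝ) / 2 ^ 47 := by norm_num
theorem l2 : ((0 : ℤ) : ℝ) / 2 ^ 47 = 0 := by norm_num
theorem u2 : (4 : ℝ) = ((562949953421312 : ℤ) : ℝ) / 2 ^ 47 := by norm_num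

theorem out0 (V2 : ∀ a b : ℝ, 0 ≤ a → a ≤ 1 / 2 → 0 ≤ b → b ≤ 1 / 4 → (fun u ↦ outR prog 0 [a, b,
    u]) =O[nhdsWithin 0 (Set.Ioi 0)] fun u : ℝ ↦ u ^ 3) (N : ∀ u : ℝ, 0 ≤ u → u ≤ 4 → 0 ≤ outR prog
    0 [0, 0, u]) {a b u : ℝ} (a0 : 0 ≤ a) (b0 : a ≤ 1 / 2) (a1 : 0 ≤ b) (b1 : b ≤ 1 / 4) (a2 : 0 ≤
    u) (b2 : u ≤ 4) (p2 : 0 < u) (pc : 0 < a ∨ 0 < b) : 0 < outR prog 0 [a, b, u] :=
  gd 0 (by decide) [a, b, u] (.cons ⟨l0.le.trans a0, b0.trans u0.le⟩ (.cons ⟨l1.le.trans a1,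
    b1.trans u1.le⟩ (.cons ⟨l2.le.trans a2, b2.trans u2.le⟩ (.nil)))) ⟨nofun, nofun, fun _ ↦ p2,
    trivial⟩ (fun _ ↦ pc.elim (fun h ↦ .inl ⟨rfl, h⟩) (fun h ↦ .inr (.inl ⟨rfl, h⟩)))
    (List.forall_mem_nil _) (⟨fun _ ↦ allB_iff.2 fun _ _ ↦ trivial, fun y0 a0 b0 ↦ ⟨fun _ ↦
    allB_iff.2 fun _ _ ↦ trivial, fun y1 a1 b1 ↦ ⟨fun _ ↦ V2 y0 y1 (l0.ge.trans a0) (b0.trans u0.ge)
    (l1.ge.trans a1) (b1.trans u1.ge), fun _ _ _ ↦ trivial⟩⟩⟩) (fun _ _ _ _ _ _ _ y2 a2 b2 ↦ N y2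
    (l2.ge.trans a2) (b2.trans u2.ge))

end Pool.Agent.Lib.MP_d6150d_an.ZmLL
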