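import Pool.Agent.Lib.MP_d6150d_an.ZmLRD

/-! A generated chart: the computations. -/

namespace Pool.Agent.Lib.MP_d6150d_an.ZmLR

theorem k0 : chk C 0x88881009929218880089012 [(0, 35184372088832), (0, 35184372088832), (0,
    140737488355328)] = true := by
  decide +kernel

theorem k1 : chk C 0x8888100888800028818880091088199292021 [(0, 35184372088832), (0,
    35184372088832), (140737488355328, 281474976710656)] = true := by
  decide +kernel

theorem k2 : chk C 0x8808802881881218828818212 [(35184372088832, 70368744177664), (0,
    35184372088832), (0, 281474976710656)] = true := by
  decide +kernel

theorem k3 : chk C 0x888800088909201 [(0, 35184372088832), (0, 17592186044416), (281474976710656,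
    351843720888320)] = true := by
  decide +kernel

theorem k4 : chk C 0x8888810008808818882091001 [(0, 35184372088832), (0, 17592186044416),
    (351843720888320, 422212465065984)] = true := by
  decide +kernel

theorem k5 : chk C 0x881888882000888809192092010 [(0, 35184372088832), (0, 8796093022208),
    (422212465065984, 492581209243648)] = true := by
  decide +kernel

theorem k6 : chk C 0x88188888182000888888200091010 [(0, 35184372088832), (0, 8796093022208),
    (492581209243648, 562949953421312)] = true := by
  decide +kernel

theorem k7 : chk C 0x882888808808210088888100020 [(0, 35184372088832), (8796093022208,
    17592186044416), (422212465065984, 562949953421312)] = true := by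
  decide +kernel

theorem k8 : chk C 0x88288188121888018880122 [(35184372088832, 70368744177664), (0, 17592186044416),
    (281474976710656, 562949953421312)] = true := by
  decide +kernel

end Pool.Agent.Lib.MP_d6150d_an.ZmLR
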