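import Pool.Agent.Lib.MP_d6150d_an.ZmLRD

/-! A generated chart: the computations. -/

namespace Pool.Agent.Lib.MP_d6150d_an.ZmLR

theorem k9 : chk C 0x88188188188010088881002 [(0, 35184372088832), (17592186044416, 35184372088832),
    (281474976710656, 422212465065984)] = true := by
  decide +kernel

theorem k10 : chk C 0x8818888100888810010 [(0, 35184372088832), (17592186044416, 35184372088832),
    (422212465065984, 492581209243648)] = true := by
  decide +kernel

theorem k11 : chk C 0x888882882100088888288210001 [(0, 35184372088832), (17592186044416,
    35184372088832), (492581209243648, 562949953421312)] = true := by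
  decide +kernel

theorem k12 : chk C 0x8808802880880218818088022 [(35184372088832, 70368744177664), (17592186044416,
    35184372088832), (281474976710656, 562949953421312)] = true := by
  decide +kernel

end Pool.Agent.Lib.MP_d6150d_an.ZmLR
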