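import Pool.Agent.Lib.MP_d6150d_an.GMac
import Pool.Agent.Lib.MP_d6150d_an.PpChk
import Pool.Agent.Lib.MP_d6150d_an.ZmLSK0

/-! A generated chart: the inequality. -/

namespace Pool.Agent.Lib.MP_d6150d_an.ZmLS

set_option linter.unnecessarySeqFocus false
set_option linter.unusedTactic false
set_option linter.unusedVariables false

theorem gd : Gd2 C [(0, 35184372088832), (0, 140737488355328), (0, 4398046511104)] := chk_sound2 k0

set_option maxRecDepth 100000 in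
theorem eq {b g q z1 p a x F d w n m r : ℝ} (hz1 : z1 = Real.exp ((-8) * b)) (hp : p = z1 * (1 - g))
    (ha : a = 0) (hx : x = 0) (hF : F = 1 / 2 + b) (hd : d = 1 / 2 - a) (hw : w = 1 / 2 + a - 2 * a
    * q - d * q ^ 2) (hn : n = d * (p - q) / (1 / 2 - b)) (hm : m = w - q * n - 2 * a * x) (hr : r =
    (√(q * p + (3 / 2 - 2 * a - b) / 3 * m))⁻¹) : outR prog 0 [b, g, q] = F * w * (n ^ 2 - p ^ 2 * r
    ^ 3 * w ^ 2) + m ^ 2 := by
  replace hz1 : z1 = (Real.exp ((Int.cast (-8) : ℝ) * b)) := hz1.trans (congrArg Real.exp (by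
    push_cast <;> ring))
  replace hp : p = (z1 * ((Int.cast (1) : ℝ) - g)) := hp.trans (by push_cast <;> ring)
  replace ha : a = (Int.cast (0) : ℝ) := ha.trans (by push_cast <;> ring)
  replace hx : x = (Int.cast (0) : ℝ) := hx.trans (by push_cast <;> ring)
  replace hF : F = (((Int.cast (1) : ℝ) / (Nat.cast 2 : ℝ)) + b) := hF.trans (by push_cast <;> ring)
  replace hd : d = (((Int.cast (1) : ℝ) / (Nat.cast 2 : ℝ)) - a) := hd.trans (by push_cast <;> ring)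
  replace hw : w = (((((Int.cast (1) : ℝ) / (Nat.cast 2 : ℝ)) + a) - (((Int.cast (2) : ℝ) * a) * q))
    - (d * (q * q))) := hw.trans (by push_cast <;> ring)
  replace hn : n = ((d * (p - q)) * (((Int.cast (1) : ℝ) / (Nat.cast 2 : ℝ)) - b)⁻¹) := hn.trans (by
    push_cast <;> ring)
  replace hm : m = ((w - (q * n)) - (((Int.cast (2) : ℝ) * a) * x)) := hm.trans (by push_cast <;>
    ring)
  replace hr : r = (√((q * p) + ((((Int.cast (1) : ℝ) / (Nat.cast 3 : ℝ)) * ((((Int.cast (3) : ℝ) /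
    (Nat.cast 2 : ℝ)) - ((Int.cast (2) : ℝ) * a)) - b)) * m)))⁻¹ := hr.trans (congrArg (fun x : ℝ ↦
    (√x)⁻¹) (by push_cast <;> ring))
  have e0 : (((F * w) * ((n * n) - (((p * p) * ((r * r) * r)) * (w * w)))) + (m * m)) = F * w * (n ^
    2 - p ^ 2 * r ^ 3 * w ^ 2) + m ^ 2 := by push_cast <;> ring
  subst hz1 hp ha hx hF hd hw hn hm hr
  exact Eq.trans rfl e0

theorem l0 : ((0 : ℤ) : ℝ) / 2 ^ 47 = 0 := by norm_num
theorem u0 : (1 / 4 : ℝ) = ((35184372088832 : ℤ) : ℝ) / 2 ^ 47 := by norm_num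
theorem l1 : ((0 : ℤ) : ℝ) / 2 ^ 47 = 0 := by norm_num
theorem u1 : (1 : ℝ) = ((140737488355328 : ℤ) : ℝ) / 2 ^ 47 := by norm_num
theorem l2 : ((0 : ℤ) : ℝ) / 2 ^ 47 = 0 := by norm_num
theorem u2 : (1 / 32 : ℝ) = ((4398046511104 : ℤ) : ℝ) / 2 ^ 47 := by norm_num

theorem out0 (N : ∀ q : ℝ, 0 ≤ q → q ≤ 1 / 32 → 0 ≤ outR prog 0 [0, 0, q]) {b g q : ℝ} (a0 : 0 ≤ b)
    (b0 : b ≤ 1 / 4) (a1 : 0 ≤ g) (b1 : g ≤ 1) (a2 : 0 ≤ q) (b2 : q ≤ 1 / 32) (pc : 0 < b ∨ 0 < g) :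
    0 < outR prog 0 [b, g, q] :=
  gd 0 (by decide) [b, g, q] (.cons ⟨l0.le.trans a0, b0.trans u0.le⟩ (.cons ⟨l1.le.trans a1,
    b1.trans u1.le⟩ (.cons ⟨l2.le.trans a2, b2.trans u2.le⟩ (.nil)))) ⟨nofun, nofun, nofun, trivial⟩
    (fun _ ↦ pc.elim (fun h ↦ .inl ⟨rfl, h⟩) (fun h ↦ .inr (.inl ⟨rfl, h⟩))) (List.forall_mem_nil _)
    (Van.of0 rfl) (fun _ _ _ _ _ _ _ y2 a2 b2 ↦ N y2 (l2.ge.trans a2) (b2.trans u2.ge))

end Pool.Agent.Lib.MP_d6150d_an.ZmLS
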