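import Pool.Agent.Lib.MP_d6150d_an.ZmLTD

/-! A generated chart: the computations. -/

namespace Pool.Agent.Lib.MP_d6150d_an.ZmLT

theorem k0 : chk C 0x8880842989424 [(0, 4398046511104), (0, 17592186044416), (0, 35184372088832),
    (0, 140737488355328), (0, 70368744177664)] = true := by
  decide +kernel

end Pool.Agent.Lib.MP_d6150d_an.ZmLT
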