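import Pool.Agent.Lib.MP_d6150d_an.GMac
import Pool.Agent.Lib.MP_d6150d_an.PpChk
import Pool.Agent.Lib.MP_d6150d_an.ZmLTK0

/-! A generated chart: the inequality. -/

namespace Pool.Agent.Lib.MP_d6150d_an.ZmLT

set_option linter.unnecessarySeqFocus false
set_option linter.unusedTactic false
set_option linter.unusedVariables false

theorem gd : Gd2 C [(0, 4398046511104), (0, 17592186044416), (0, 35184372088832), (0,
    140737488355328), (0, 70368744177664)] := chk_sound2 k0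

set_option maxRecDepth 100000 in
theorem eq {q x b g a z1 p F d w n m r : ℝ} (hz1 : z1 = Real.exp ((-8) * b)) (hp : p = z1 * (1 - g))
    (hF : F = 1 / 2 + b) (hd : d = 1 / 2 - a) (hw : w = 1 / 2 + a - 2 * a * q - d * q ^ 2) (hn : n =
    d * (p - q) / (1 / 2 - b)) (hm : m = w - q * n - 2 * a * x) (hr : r = (√(q * p + (3 / 2 - 2 * a
    - b) / 3 * m))⁻¹) : outR prog 0 [q, x, b, g, a] = F * w * q * (n ^ 2 - p ^ 2 * r ^ 3 * w ^ 2) +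
    2 * m ^ 2 * (d * q + a) := by
  replace hz1 : z1 = (Real.exp ((Int.cast (-8) : ℝ) * b)) := hz1.trans (congrArg Real.exp (by
    push_cast <;> ring))
  replace hp : p = (z1 * ((Int.cast (1) : ℝ) - g)) := hp.trans (by push_cast <;> ring)
  replace hF : F = (((Int.cast (1) : ℝ) / (Nat.cast 2 : ℝ)) + b) := hF.trans (by push_cast <;> ring)
  replace hd : d = (((Int.cast (1) : ℝ) / (Nat.cast 2 : ℝ)) - a) := hd.trans (by push_cast <;> ring)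
  replace hw : w = (((((Int.cast (1) : ℝ) / (Nat.cast 2 : ℝ)) + a) - (((Int.cast (2) : ℝ) * a) * q))
    - (d * (q * q))) := hw.trans (by push_cast <;> ring)
  replace hn : n = ((d * (p - q)) * (((Int.cast (1) : ℝ) / (Nat.cast 2 : ℝ)) - b)⁻¹) := hn.trans (by
    push_cast <;> ring)
  replace hm : m = ((w - (q * n)) - (((Int.cast (2) : ℝ) * a) * x)) := hm.trans (by push_cast <;>
    ring)
  replace hr : r = (√((q * p) + ((((Int.cast (1) : ℝ) / (Nat.cast 3 : ℝ)) * ((((Int.cast (3) : ℝ) /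
    (Nat.cast 2 : ℝ)) - ((Int.cast (2) : ℝ) * a)) - b)) * m)))⁻¹ := hr.trans (congrArg (fun x : ℝ ↦
    (√x)⁻¹) (by push_cast <;> ring))
  have e0 : ((((F * w) * q) * ((n * n) - (((p * p) * ((r * r) * r)) * (w * w)))) + (((Int.cast (2) :
    ℝ) * (m * m)) * ((d * q) + a))) = F * w * q * (n ^ 2 - p ^ 2 * r ^ 3 * w ^ 2) + 2 * m ^ 2 * (d *
    q + a) := by push_cast <;> ring
  subst hz1 hp hF hd hw hn hm hr
  exact Eq.trans rfl e0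

theorem l0 : ((0 : ℤ) : ℝ) / 2 ^ 47 = 0 := by norm_num
theorem u0 : (1 / 32 : ℝ) = ((4398046511104 : ℤ) : ℝ) / 2 ^ 47 := by norm_num
theorem l1 : ((0 : ℤ) : ℝ) / 2 ^ 47 = 0 := by norm_num
theorem u1 : (1 / 8 : ℝ) = ((17592186044416 : ℤ) : ℝ) / 2 ^ 47 := by norm_num
theorem l2 : ((0 : ℤ) : ℝ) / 2 ^ 47 = 0 := by norm_num
theorem u2 : (1 / 4 : ℝ) = ((35184372088832 : ℤ) : ℝ) / 2 ^ 47 := by norm_num
theorem l3 : ((0 : ℤ) : ℝ) / 2 ^ 47 = 0 := by norm_num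
theorem u3 : (1 : ℝ) = ((140737488355328 : ℤ) : ℝ) / 2 ^ 47 := by norm_num
theorem l4 : ((0 : ℤ) : ℝ) / 2 ^ 47 = 0 := by norm_num
theorem u4 : (1 / 2 : ℝ) = ((70368744177664 : ℤ) : ℝ) / 2 ^ 47 := by norm_num

theorem out0 (N : ∀ q x b g : ℝ, 0 ≤ q → q ≤ 1 / 32 → 0 ≤ x → x ≤ 1 / 8 → 0 ≤ b → b ≤ 1 / 4 → 0 ≤ g
    → g ≤ 1 → 0 ≤ outR prog 0 [q, x, b, g, 0]) {q x b g a : ℝ} (a0 : 0 ≤ q) (b0 : q ≤ 1 / 32) (a1 :
    0 ≤ x) (b1 : x ≤ 1 / 8) (a2 : 0 ≤ b) (b2 : b ≤ 1 / 4) (a3 : 0 ≤ g) (b3 : g ≤ 1) (a4 : 0 ≤ a) (b4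
    : a ≤ 1 / 2) (pc : 0 < a) : 0 < outR prog 0 [q, x, b, g, a] :=
  gd 0 (by decide) [q, x, b, g, a] (.cons ⟨l0.le.trans a0, b0.trans u0.le⟩ (.cons ⟨l1.le.trans a1,
    b1.trans u1.le⟩ (.cons ⟨l2.le.trans a2, b2.trans u2.le⟩ (.cons ⟨l3.le.trans a3, b3.trans u3.le⟩
    (.cons ⟨l4.le.trans a4, b4.trans u4.le⟩ (.nil)))))) ⟨nofun, nofun, nofun, nofun, nofun, trivial⟩
    (fun _ ↦ .inr (.inr (.inr (.inr (.inl ⟨rfl, pc⟩))))) (List.forall_mem_nil _) (Van.of0 rfl) (fun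
    _ y0 a0 b0 y1 a1 b1 y2 a2 b2 y3 a3 b3 _ _ _ ↦ N y0 y1 y2 y3 (l0.ge.trans a0) (b0.trans u0.ge)
    (l1.ge.trans a1) (b1.trans u1.ge) (l2.ge.trans a2) (b2.trans u2.ge) (l3.ge.trans a3) (b3.trans
    u3.ge))

end Pool.Agent.Lib.MP_d6150d_an.ZmLT
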