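import Pool.Agent.Lib.MP_d6150d_an.ZmLKey
import Pool.Agent.Lib.MP_d6150d_an.ZmLR
import Pool.Agent.Lib.MP_d6150d_an.ZmLL
import Pool.Agent.Lib.MP_d6150d_an.ZmLT
import Pool.Agent.Lib.MP_d6150d_an.ZmLS
import Pool.Agent.Lib.MP_d6150d_an.ZmLA
import Pool.Agent.Lib.MP_d6150d_an.ZmLB
import Pool.Agent.Lib.MP_d6150d_an.ZmLC
import Pool.Agent.Lib.MP_d6150d_an.ZmLE

/-! The quadrant `D ≥ -1 / 2`, `F ≥ 1 / 2` of the double isochronous point. -/

namespace Pool.Agent.Lib.MP_d6150d_an.ZmL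

open Real Set Filter Topology Asymptotics Z2

theorem eqR (a b u : ℝ) : outR ZmLR.prog 0 [a, b, u] = -fC (-a) (-b) u :=
  ZmLR.eq rfl rfl rfl rfl rfl rfl rfl rfl rfl rfl rfl rfl rfl rfl rfl rfl rfl

theorem eqL (a b u : ℝ) : outR ZmLL.prog 0 [a, b, u] = fC (-a) (-b) (-u) :=
  ZmLL.eq rfl rfl rfl rfl rfl rfl rfl rfl rfl rfl rfl rfl rfl rfl rfl rfl rfl

theorem eqT (q x b g a : ℝ) : outR ZmLT.prog 0 [q, x, b, g, a] =
    fT a b (exp (-8 * b) * (1 - g)) q x := ZmLT.eq rfl rfl rfl rfl rfl rfl rfl rfl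

theorem eqS (b g q x : ℝ) : fT 0 b (exp (-8 * b) * (1 - g)) q x =
    q * outR ZmLS.prog 0 [b, g, q] := by
  rw [ZmLS.eq rfl rfl rfl rfl rfl rfl rfl rfl rfl rfl]
  simp only [fT, mul_zero, zero_mul]; ring

theorem eqA (k x b a : ℝ) : outR ZmLA.prog 0 [k, x, b, a] = -fL (-a) (-b) (k * x) x :=
  ZmLA.eq rfl rfl rfl rfl rfl rfl rfl rfl rfl

theorem eqB (k x a : ℝ) : outR ZmLB.prog 0 [k, x, a] = -fL (-a) 0 (k * x) x :=
  ZmLB.eq rfl rfl rfl rfl rfl rfl rfl rfl rfl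

theorem eqC (l b k e : ℝ) : outR ZmLC.prog 0 [l, b, k, e] = gZ l e 1 (k * exp (-4 * b)) b :=
  ZmLC.eq rfl rfl rfl rfl rfl rfl rfl rfl rfl rfl

theorem eqE (l k b y : ℝ) : outR ZmLE.prog 0 [l, k, b, y] = gZ l 1 y k b :=
  ZmLE.eq rfl rfl rfl rfl rfl rfl rfl rfl

variable {a b t g k q x : ℝ}

theorem S_iso (q0 : 0 ≤ q) : outR ZmLS.prog 0 [0, 0, q] = 0 := by
  rw [ZmLS.eq rfl rfl rfl rfl rfl rfl rfl rfl rfl rfl]
  simp only [mul_zero, zero_mul, exp_zero, sub_zero, add_zero, mul_one]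
  rw [show q + 3 / 2 / 3 * (1 / 2 - 1 / 2 * q ^ 2 - q * (1 / 2 * (1 - q) / (1 / 2))) =
    ((1 + q) / 2) ^ 2 by ring, sqrt_sq (by positivity)]
  field_simp; ring

theorem S_pos (b0 : 0 ≤ b) (b1 : b ≤ 1 / 4) (g0 : 0 ≤ g) (g1 : g ≤ 1) (q0 : 0 ≤ q)
    (q1 : q ≤ 1 / 32) (h : 0 < b ∨ 0 < g) : 0 < outR ZmLS.prog 0 [b, g, q] :=
  ZmLS.out0 (fun _ q0 _ ↦ (S_iso q0).ge) b0 b1 g0 g1 q0 q1 h

theorem exp4 : 40 ≤ exp 4 := by
  rw [show (4 : ℝ) = 3 + 1 by norm_num, exp_add]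
  nlinarith [exp3, add_one_le_exp 1]

theorem te_le (t4 : 4 ≤ t) : exp (-t) * t ≤ 1 / 8 := by
  have h1 := add_one_le_exp (t - 4)
  have h2 : 8 * t ≤ exp (4 + (t - 4)) := by rw [exp_add]; nlinarith [exp4]
  have h3 := exp_le_inv (x := -t) (by linarith) h2 (by linarith)
  rw [le_div_iff₀ (by linarith)] at h3
  linarith

theorem mem (a0 : 0 ≤ a) (a1 : a ≤ 1 / 2) (t : ℝ) : t ∈ JR (-1 / 2 - -a) := by
  have := mul_pos (by linarith : 0 < 1 / 2 + a) (exp_pos t)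
  simp only [JR, om, mem_ofPred_eq]; linarith

theorem fC_bigO (a0 : 0 ≤ a) (a1 : a ≤ 1 / 2) : fC (-a) (-b) =O[𝓝[≠] 0] fun t ↦ t ^ 3 := by
  have h1 := (ph1_an 0).continuousAt
  have c : ContinuousAt (fun t ↦ (ph1 t * (om (-1 / 2 - -a) t * exp (-t))) ^ 3 *
      exp (-((1 / 2 - -b) * t))) 0 := by unfold om; fun_prop
  refine (((c.isBigO_one ℝ).mono nhdsWithin_le_nhds).mul (dZ_center (D := -1 / 2 - -a)
    (F := 1 / 2 - -b))).congr' ?_ (Eventually.of_forall fun t ↦ one_mul _)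
  filter_upwards [self_mem_nhdsWithin] with t h0
  exact (keyC (mem a0 a1 t) h0).symm

variable (a0 : 0 ≤ a) (a1 : a ≤ 1 / 2) (b0 : 0 ≤ b) (b1 : b ≤ 1 / 4) (h : 0 < a ∨ 0 < b)
include a0 a1 b0 b1 h

theorem right_far (t4 : 4 ≤ t) :
    0 < fT a b (exp (-2 * b * t)) (exp (-t)) (exp (-t) * (t * ph1 (-2 * b * t))) := by
  obtain ⟨g, g0, g1, hg⟩ := p_eq b0 t4
  have q1 : exp (-t) ≤ 1 / 32 := exp_le_inv (by norm_num) (le_trans (by norm_num) exp4) (by linarith)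
  rcases a0.eq_or_lt with rfl | a2
  · rw [hg, eqS]
    exact mul_pos (exp_pos _) (S_pos b0 b1 g0 g1 (exp_pos _).le q1
      (.inl (h.resolve_left (lt_irrefl _))))
  have x3 := ph1_le_one (x := -2 * b * t) (by nlinarith)
  have x4 := ph1_pos (-2 * b * t)
  have t0 : 0 ≤ t := by linarith
  have x5 : 0 ≤ exp (-t) * t := by positivity
  rw [hg, ← eqT]
  refine ZmLT.out0 (fun q x b g q0 q1 _ _ b0 b1 g0 g1 ↦ ?_) (exp_pos _).le q1 (by positivity)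
    (by nlinarith [te_le t4]) b0 b1 g0 g1 a0 a1 a2
  rw [eqT, eqS]
  refine mul_nonneg q0 ?_
  rcases b0.eq_or_lt with rfl | h
  · rcases g0.eq_or_lt with rfl | h
    exacts [(S_iso q0).ge, (S_pos b0 b1 g0 g1 q0 q1 (.inr h)).le]
  · exact (S_pos b0 b1 g0 g1 q0 q1 (.inl h)).le

theorem left_far (t4 : t ≤ -4) : fL (-a) (-b) (exp t) (-t * exp t * ph1 (2 * -b * t)) < 0 ∨
    gL (-a) (-b) (exp t) (-t * exp t * ph1 (2 * -b * t)) < 0 := by
  have B : ∀ {k x a : ℝ}, 0 ≤ k → k ≤ 1 / 4 → 0 < x → x ≤ 9 / 32 → 0 < a → a ≤ 3 / 8 →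
      0 < -fL (-a) 0 (k * x) x := fun {k x a} k0 k1 x0 x1 a0 a1 ↦ eqB k x a ▸ ZmLB.out0
    (fun k a _ _ _ _ ↦ by rw [eqB, mul_zero, fL_end, neg_zero])
    (fun k x k0 _ x0 _ ↦ by rw [eqB, neg_zero, fL_iso (mul_nonneg k0 x0), neg_zero])
    k0 k1 x0.le x1 a0.le a1 x0 a0
  rw [show 2 * -b * t = 2 * b * -t by ring]
  have x4 := ph1_pos (2 * b * -t)
  have c0 : 4 * exp (4 * b) ≤ -t * ph1 (2 * b * -t) := mul_le_mul (by linarith)
    ((exp_le_exp.2 (by nlinarith)).trans (ph1_lb (by nlinarith))) (exp_pos _).le (by linarith)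
  have p0 := exp_pos t
  have x0 : 0 < -t * exp t * ph1 (2 * b * -t) := mul_pos (mul_pos (by linarith) p0) x4
  have x1 : -t * exp t * ph1 (2 * b * -t) ≤ 9 / 32 := by
    have h1 := mul_le_mul_of_nonneg_left (ph1_ub b0 b1 (-t)) p0.le
    have h2 : exp t * exp (-t / 2) = exp (t / 2) := by rw [← exp_add]; ring_nf
    have h3 : 64 / 9 ≤ exp 2 := by
      rw [show (2 : ℝ) = 1 + 1 by norm_num, exp_add]; nlinarith [exp_one_gt_d9]
    have h4 := exp_le_inv (x := t / 2) (by norm_num) h3 (by linarith)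
    linarith
  have e1 : exp (4 * b) * exp (-4 * b) = 1 := by rw [← exp_add]; simp
  have e2 := exp_pos (4 * b)
  have e3 : exp (-4 * b) ≤ 1 := exp_le_one_iff.2 (by linarith)
  have k1 : exp (4 * b) / (-t * ph1 (2 * b * -t)) ≤ 1 / 4 := by
    rw [div_le_iff₀ (by linarith)]; linarith
  have k0 : 0 < exp (4 * b) / (-t * ph1 (2 * b * -t)) := div_pos e2 (by linarith)
  have e : exp t = exp (4 * b) / (-t * ph1 (2 * b * -t)) * exp (-4 * b) *
      (-t * exp t * ph1 (2 * b * -t)) := by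
    rw [mul_right_comm (-t), ← mul_assoc, div_mul_eq_mul_div, e1, one_div_mul_cancel (by linarith),
      one_mul]
  generalize -t * exp t * ph1 (2 * b * -t) = x, exp (4 * b) / (-t * ph1 (2 * b * -t)) = k at *
  have k2 : 0 ≤ k * exp (-4 * b) := by positivity
  have k3 : k * exp (-4 * b) ≤ 1 / 4 := by nlinarith
  rw [e]
  rcases le_total a (3 / 8) with a2 | a2
  · refine .inl (neg_pos.1 ?_)
    rcases b0.eq_or_lt with rfl | b2
    · rw [neg_zero]; exact B k2 k3 x0 x1 (h.resolve_right (lt_irrefl _)) a2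
    refine eqA _ x b a ▸ ZmLA.out0 (fun k x a k0 k1 x0 x1 a0 a1 ↦ ?_) k2 k3 x0.le x1 b0 b1 a0 a2 b2
    rw [eqA, neg_zero]
    rcases x0.eq_or_lt with rfl | x0
    · rw [mul_zero, fL_end, neg_zero]
    rcases a0.eq_or_lt with rfl | a0
    · rw [neg_zero, fL_iso (mul_nonneg k0 x0.le), neg_zero]
    · exact (B k0 k1 x0 x1 a0 a1).le
  right
  rcases le_total (1 / 2 - a) x with d | d
  · rw [gZ_eq (l := x) (e := (1 / 2 - a) / x) (y := 1) (by field_simp; ring) (by ring), neg_lt_zero,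
      ← eqC]
    exact mul_pos (pow_pos x0 3) (ZmLC.out0 (fun l b _ _ _ _ ↦ by rw [eqC]; simp [gZ]) x0.le x1 b0 b1
      k0.le k1 (div_nonneg (by linarith) x0.le) ((div_le_one x0).2 d) (.inl k0))
  · have d0 := x0.trans_le d
    rw [gZ_eq (l := 1 / 2 - a) (e := 1) (y := x / (1 / 2 - a)) (by ring)
      (mul_div_cancel₀ _ d0.ne').symm, neg_lt_zero, ← eqE]
    exact mul_pos (pow_pos d0 3) (ZmLE.out0 (fun l k _ _ _ _ ↦ by rw [eqE]; norm_num [gZ]) d0.le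
      (by linarith) k2 k3 b0 b1 (div_pos x0 d0).le ((div_le_one d0).2 d) (.inr (div_pos x0 d0)))

theorem main (h0 : t ≠ 0) : t * dZ (-1 / 2 - -a) (1 / 2 - -b) t < 0 := by
  have ht := mem a0 a1 t
  have o0 : 0 < om (-1 / 2 - -a) t := ht
  have p0 := ph1_pos t
  have f0 : 0 < (ph1 t * (om (-1 / 2 - -a) t * exp (-t))) ^ 3 * exp (-((1 / 2 - -b) * t)) := by
    positivity
  rcases h0.lt_or_gt with t0 | t0
  · refine mul_neg_of_neg_of_pos t0 ?_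
    rcases le_total t (-4) with t4 | t4
    · exact keyL (by linarith) (by linarith) ht t0 (by linarith) (left_far a0 a1 b0 b1 h t4)
    · have T : Tendsto (fun u : ℝ ↦ -u) (𝓝[>] 0) (𝓝[≠] 0) := by
        simpa using (tendsto_neg_nhdsGT (a := (0 : ℝ))).mono_right (nhdsLT_le_nhdsNE _)
      have h1 := ZmLL.out0 (fun a b a0 a1 _ _ ↦
        ((fC_bigO (b := b) a0 a1).comp_tendsto T).neg_right.congr
          (fun u ↦ (eqL a b u).symm) fun u ↦ by simp only [Function.comp]; ring)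
        (fun u _ _ ↦ by rw [eqL, neg_zero, fC_iso]) a0 a1 b0 b1 (neg_pos.2 t0).le (by linarith)
        (neg_pos.2 t0) h
      rw [eqL, neg_neg, keyC ht h0] at h1
      exact (mul_pos_iff_of_pos_left f0).1 h1
  · refine mul_neg_of_pos_of_neg t0 ?_
    rcases le_total 4 t with t4 | t4
    · exact keyR (by ring) (by ring) a0 a1 b0 (by linarith) ht t0 (right_far a0 a1 b0 b1 h t4)
    · have h1 := ZmLR.out0 (fun a b a0 a1 _ _ ↦ ((fC_bigO (b := b) a0 a1).mono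
        (nhdsWithin_mono _ fun _ h ↦ ne_of_gt h)).neg_left.congr_left fun u ↦ (eqR a b u).symm)
        (fun u _ _ ↦ by rw [eqR, neg_zero, fC_iso, neg_zero]) a0 a1 b0 b1 t0.le t4 t0 h
      rw [eqR, keyC ht h0] at h1
      exact neg_of_mul_neg_left (by linarith) f0.le

end Pool.Agent.Lib.MP_d6150d_an.ZmL

namespace Pool.Agent.Lib.MP_d6150d_an

theorem ZmL_holds (D F : ℝ) (h1 : -1 / 2 ≤ D) (h2 : D ≤ 0) (h3 : 1 / 2 ≤ F) (h4 : F ≤ 3 / 4)
    (h5 : ¬(D = -1 / 2 ∧ F = 1 / 2)) : NoThree D F := by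
  refine noThree_sep (by linarith) (-1) (Z2.sep D F) fun t _ h0 ↦ ?_
  have := ZmL.main (a := D + 1 / 2) (b := F - 1 / 2) (by linarith) (by linarith) (by linarith)
    (by linarith) (by
      by_contra k
      rw [not_or, not_lt, not_lt] at k
      exact h5 ⟨by linarith [k.1], by linarith [k.2]⟩) h0
  rw [show -1 / 2 - -(D + 1 / 2) = D by ring, show 1 / 2 - -(F - 1 / 2) = F by ring, Z2.dZ] at this
  linarith

end Pool.Agent.Lib.MP_d6150d_an
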