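import Pool.Agent.Lib.MP_d6150d_an.GDef

/-! A generated chart: the program. -/

namespace Pool.Agent.Lib.MP_d6150d_an.ZmLS

def prog : List Ins := .cst 1 2 :: .var 0 :: .add false 1 0 :: .int 0 :: .add false 3 0 :: .smul 2 1
    :: .var 2 :: .mul 1 0 :: .sub false 3 0 :: .sub false 8 5 :: .mul 3 3 :: .mul 1 0 :: .sub false
    3 0 :: .mul 10 0 :: .smul (-8) 12 :: .exp 0 :: .int 1 :: .var 1 :: .sub true 1 0 :: .mul 3 0 ::
    .sub true 0 13 :: .mul 11 0 :: .sub true 21 20 :: .inv 0 :: .mul 2 0 :: .mul 0 0 :: .mul 6 6 ::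
    .mul 20 7 :: .cst 1 3 :: .cst 3 2 :: .sub false 0 24 :: .sub true 0 29 :: .mul 3 0 :: .mul 26 8
    :: .sub false 21 0 :: .mul 29 31 :: .sub false 1 0 :: .mul 4 0 :: .add false 10 0 :: .rsq 0 ::
    .mul 0 0 :: .mul 0 1 :: .mul 15 0 :: .mul 30 30 :: .mul 1 0 :: .sub true 19 0 :: .mul 32 0 ::
    .mul 10 10 :: .add false 1 0 :: .cpy 0 :: []

def vs : List Vr := [⟨3, 0, false, true⟩, ⟨3, 0, false, true⟩, ⟨2, 0, false, false⟩]

def C : Chart := ⟨vs, prog, [], 1, 3⟩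

end Pool.Agent.Lib.MP_d6150d_an.ZmLS
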