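import Pool.Agent.Lib.MP_d6150d_an.GDef

/-! A generated chart: the program. -/

namespace Pool.Agent.Lib.MP_d6150d_an.ZmLa

def prog : List Ins := .int 1 :: .var 1 :: .sub true 1 0 :: .var 0 :: .smul 8 0 :: .tri 0 :: .smul 4
    1 :: .mul 0 7 :: .cst 1 2 :: .sub false 0 7 :: .cst 1 8 :: .mul 0 10 :: .sub false 2 0 :: .cst
    19 1024 :: .sub true 1 0 :: .mul 7 0 :: .add false 15 0 :: .sub true 0 7 :: .mul 0 0 :: .int 2
    :: .sub true 0 20 :: .mul 2 0 :: .add false 13 20 :: .mul 6 6 :: .mul 1 0 :: .sub false 3 0 ::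
    .add false 24 26 :: .mul 0 9 :: .cpy 0 :: .cpy 3 :: []

def vs : List Vr := [⟨4, 0, false, true⟩, ⟨4, 0, false, true⟩]

def C : Chart := ⟨vs, prog, [], 2, 3⟩

end Pool.Agent.Lib.MP_d6150d_an.ZmLa
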