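import Pool.Agent.Lib.MP_d6150d_an.GDef

/-! A generated chart: the program. -/

namespace Pool.Agent.Lib.MP_d6150d_an.ZmLb

def prog : List Ins := .var 0 :: .smul 2 0 :: .int 2 :: .var 2 :: .smul 2 0 :: .sub true 2 0 ::
    .smul 4 0 :: .smul (-1) 0 :: .tri 0 :: .smul 4 1 :: .mul 10 0 :: .int 1 :: .sub true 0 12 ::
    .var 1 :: .sub true 11 2 :: .smul 4 0 :: .tri 0 :: .smul 4 1 :: .mul 6 0 :: .mul 8 0 :: .add
    false 11 0 :: .sub false 11 9 :: .sub true 12 25 :: .mul 0 11 :: .add false 0 27 :: .mul 3 0 ::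
    .sub true 5 0 :: .mul 0 0 :: .mul 17 16 :: .add false 0 31 :: .mul 2 0 :: .mul 31 5 :: .mul 11
    11 :: .mul 1 0 :: .sub false 3 0 :: .cpy 8 :: .cpy 1 :: []

def vs : List Vr := [⟨2, 0, false, false⟩, ⟨2, 0, false, false⟩, ⟨4, 0, false, false⟩]

def C : Chart := ⟨vs, prog, [], 2, 3⟩

end Pool.Agent.Lib.MP_d6150d_an.ZmLb
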