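import Pool.Agent.Lib.MP_d6150d_an.GDef

/-! A generated chart: the program. -/

namespace Pool.Agent.Lib.MP_d6150d_an.ZmLd

def prog1 : List Ins := .mul 32 41 :: .add false 0 22 :: .sub true 0 36 :: .mul 3 0 :: .add false 51
    0 :: .rsq 0 :: .mul 40 0 :: .mul 0 0 :: .mul 0 1 :: .mul 56 0 :: .mul 8 8 :: .mul 45 0 :: .mul 9
    9 :: .smul 2 0 :: .mul 0 21 :: .sub false 3 0 :: .sub false 6 0 :: .sub false 19 0 :: .cpy 0 ::
    []

def prog : List Ins := .var 2 :: .var 3 :: .mul 1 0 :: .var 0 :: .smul 2 0 :: .mul 0 3 :: .add false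
    3 0 :: .int 1 :: .sub false 0 5 :: .cst 1 2 :: .var 1 :: .sub true 1 0 :: .sub true 4 0 :: .mul
    0 10 :: .add false 0 2 :: .mul 6 0 :: .cst 1 3 :: .smul 2 5 :: .add false 10 0 :: .add false 9
    15 :: .sub true 1 0 :: .mul 4 0 :: .sub false 14 15 :: .sub true 15 18 :: .inv 0 :: .mul 2 0 ::
    .mul 8 0 :: .sub true 19 9 :: .mul 0 26 :: .add false 2 0 :: .sub true 0 14 :: .mul 9 0 :: .add
    false 25 0 :: .rsq 0 :: .mul 18 0 :: .mul 0 0 :: .mul 0 1 :: .mul 30 0 :: .mul 8 8 :: .mul 23 0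
    :: .mul 9 9 :: .mul 13 38 :: .add false 0 24 :: .mul 2 0 :: .inv 24 :: .mul 1 0 :: .sub false 6
    0 :: .sub false 9 0 :: .add false 38 30 :: .mul 32 0 :: prog1

def vs : List Vr := [⟨2, 1, false, false⟩, ⟨2, 0, false, false⟩, ⟨2, 0, false, false⟩, ⟨2, 0, false,
    false⟩]

def C : Chart := ⟨vs, prog, [], 1, 3⟩

end Pool.Agent.Lib.MP_d6150d_an.ZmLd
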