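import Pool.Agent.Lib.MP_d6150d_an.GDef

/-! A generated chart: the program. -/

namespace Pool.Agent.Lib.MP_d6150d_an.ZmLe

def prog : List Ins := .var 1 :: .var 2 :: .mul 1 0 :: .int 1 :: .sub false 0 1 :: .cst 1 2 :: .var
    0 :: .sub true 1 0 :: .sub true 4 0 :: .mul 0 6 :: .add false 0 2 :: .mul 6 0 :: .cst 1 3 ::
    .smul 2 5 :: .add false 8 0 :: .mul 2 0 :: .mul 2 11 :: .sub true 13 3 :: .mul 0 16 :: .add
    false 2 0 :: .sub true 0 8 :: .mul 5 0 :: .add false 19 0 :: .rsq 0 :: .mul 12 0 :: .mul 0 0 ::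
    .mul 0 1 :: .mul 24 0 :: .mul 8 8 :: .mul 17 0 :: .mul 9 9 :: .smul 2 0 :: .mul 14 29 :: .add
    false 0 19 :: .mul 2 0 :: .sub false 5 0 :: .sub false 8 0 :: .cpy 0 :: []

def vs : List Vr := [⟨3, 1, false, false⟩, ⟨2, 0, false, false⟩, ⟨3, 1, false, false⟩]

def C : Chart := ⟨vs, prog, [], 1, 3⟩

end Pool.Agent.Lib.MP_d6150d_an.ZmLe
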