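import Pool.Agent.Lib.MP_d6150d_an.ZmHKey
import Pool.Agent.Lib.MP_d6150d_an.ZmHR
import Pool.Agent.Lib.MP_d6150d_an.ZmHL
import Pool.Agent.Lib.MP_d6150d_an.ZmHA
import Pool.Agent.Lib.MP_d6150d_an.ZmHB
import Pool.Agent.Lib.MP_d6150d_an.ZmHC
import Pool.Agent.Lib.MP_d6150d_an.ZmHD
import Pool.Agent.Lib.MP_d6150d_an.ZmHE

/-! The square where the period decreases. -/

namespace Pool.Agent.Lib.MP_d6150d_an.ZmH

open Real Set Filter Topology Asymptotics Z2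

theorem eqR (d f u : ℝ) : outR ZmHR.prog 0 [d, f, u] = -fC (d - 1 / 2) (f - d - 1 / 2) u ∧
    outR (ZmHR.prog.take 6) 0 [d, f, u] = 1 / 16 + f - d ∧
    outR (ZmHR.prog.take 10) 0 [d, f, u] = 1 / 4 + d - f :=
  ZmHR.eq rfl rfl rfl rfl rfl rfl rfl rfl rfl rfl rfl rfl rfl rfl rfl rfl rfl

theorem eqL (d f u : ℝ) : outR ZmHL.prog 0 [d, f, u] = fC (d - 1 / 2) (f - d - 1 / 2) (-u) ∧
    outR (ZmHL.prog.take 6) 0 [d, f, u] = 1 / 16 + f - d ∧
    outR (ZmHL.prog.take 10) 0 [d, f, u] = 1 / 4 + d - f :=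
  ZmHL.eq rfl rfl rfl rfl rfl rfl rfl rfl rfl rfl rfl rfl rfl rfl rfl rfl rfl

theorem eqA (q x y d f : ℝ) : outR ZmHA.prog 0 [q, x, y, d, f] = fH d (1 / 2 - d) (f - d) q x y :=
  ZmHA.eq rfl rfl rfl rfl rfl rfl rfl rfl

theorem eqB (x y e q a : ℝ) : outR ZmHB.prog 0 [x, y, e, q, a] = fH (1 / 2 - a) a e q x y :=
  ZmHB.eq rfl rfl rfl rfl rfl rfl rfl

/-- the lower bound of the potential on the left branch -/
noncomputable def nu (d e g k : ℝ) : ℝ :=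
  2 * (1 - e) * (d * (4 * ph1 (-8 * e)) + g * ((1 - 2 * d) * (1 - 2 * e * (4 * ph1 (-8 * e)) - k) /
    (1 - 2 * e) - (1 - d) * (1 - 2 * e * (4 * ph1 (-8 * e))) / (2 - 2 * e)))

variable {d e f t D F : ℝ}

theorem exp4 : 54 ≤ exp 4 := by
  have h2 := pow_le_pow_left₀ (by norm_num) exp_one_gt_d9.le 4
  rw [show (4 : ℝ) = (4 : ℕ) * 1 by norm_num, exp_nat_mul]
  linarith

theorem fin {F w v W k j ν : ℝ} (F0 : 0 ≤ F) (w0 : 0 ≤ w) (h1 : w ≤ v) (h2 : w ^ 2 ≤ W) (h3 : j ≤ k)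
    (h4 : 0 ≤ ν) (h : F * W * (v + 2 * ν) < j * ν ^ 2) :
    F * w ^ 3 + 2 * F * w ^ 2 * ν < k * ν ^ 2 := by
  have := mul_le_mul_of_nonneg_left (mul_le_mul h2 (by linarith : w + 2 * ν ≤ v + 2 * ν)
    (by linarith) ((sq_nonneg w).trans h2)) F0
  linarith [mul_le_mul_of_nonneg_right h3 (sq_nonneg ν)]

theorem mem (d0 : 0 ≤ d) (d1 : d ≤ 1 / 2) (t : ℝ) : t ∈ JR (-1 / 2 - (d - 1 / 2)) := by
  have := mul_pos (by linarith : 0 < 1 - d) (exp_pos t)
  simp only [JR, om, mem_ofPred_eq]; linarith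

theorem fC_iso (t : ℝ) : fC (0 - 1 / 2) (0 - 0 - 1 / 2) t = 0 := by
  by_cases h0 : t = 0
  · simp [fC, h0]
  · rw [keyC (mem le_rfl (by norm_num) t) h0, iso h0 (by ring) (by ring), mul_zero]

theorem fC_bigO (d0 : 0 ≤ d) (d1 : d ≤ 1 / 2) : fC (d - 1 / 2) e =O[𝓝[≠] 0] fun t ↦ t ^ 3 := by
  have h1 := (ph1_an 0).continuousAt
  have c : ContinuousAt (fun t ↦ (ph1 t * (om (-1 / 2 - (d - 1 / 2)) t * exp (-t))) ^ 3 *
      exp (-((1 / 2 - e) * t))) 0 := by unfold om; fun_prop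
  refine (((c.isBigO_one ℝ).mono nhdsWithin_le_nhds).mul (dZ_center (D := -1 / 2 - (d - 1 / 2))
    (F := 1 / 2 - e))).congr' ?_ (Eventually.of_forall fun t ↦ one_mul _)
  filter_upwards [self_mem_nhdsWithin] with t h0
  exact (keyC (mem d0 d1 t) h0).symm

variable (d0 : 0 ≤ d) (d1 : d ≤ 1 / 2) (f0 : 0 ≤ f) (he : e = f - d) (e0 : -1 / 16 ≤ e)
  (e1 : e ≤ 1 / 4) (h : 0 < d ∨ 0 < f)
include d0 d1 f0 he e1

omit h in
theorem gk {s z x μ : ℝ} (hF : F = 1 - e) (t4 : t ≤ -4) (hs : s = exp t) (hz : z = exp (2 * e * t))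
    (hx : x = -t * ph1 (2 * e * t)) (hμ : μ = 2 * F * (d * x + (1 - 2 * d) * (z - s) /
      (1 - 2 * e) - (1 - d) * (z - s ^ 2) / (2 - 2 * e))) :
    ∃ g k, 0 < g ∧ g ≤ 1 ∧ 0 < k ∧ k ≤ 1 / 54 ∧ s = g * k ∧ (e ≤ 7 / 2 * k → 7 / 10 ≤ g) ∧
      nu d e g k ≤ μ := by
  obtain ⟨u, rfl⟩ : ∃ u, t = -(4 + u) := ⟨-t - 4, by ring⟩
  have u0 : 0 ≤ u := by linarith
  have h1 := ph1_add (-2 * e) 4 u
  have h2 : z = exp (-8 * e) * exp (-2 * e * u) := by rw [hz, ← exp_add]; ring_nf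
  have h3 := exp_eq_ph (-8 * e)
  have h4 := exp_eq_ph (-2 * e * u)
  rw [show -2 * e * (4 + u) = 2 * e * -(4 + u) by ring, ← neg_neg (4 + u), neg_neg (-(4 + u)), ← hx,
    show -2 * e * 4 = -8 * e by ring] at h1
  have p1 := mul_nonneg (exp_pos (-8 * e)).le (mul_nonneg u0 (ph1_pos (-2 * e * u)).le)
  have i1 : 0 ≤ (1 - 2 * d) / (1 - 2 * e) := div_nonneg (by linarith) (by linarith)
  have i2 : 0 ≤ (1 - d) / (2 - 2 * e) := div_nonneg (by linarith) (by linarith)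
  have i3 := mul_nonneg i2 (sq_nonneg s)
  have F0 : 0 ≤ 2 * F := by linarith
  simp only [hμ, nu, ← hF]
  rcases le_total 0 e with k | k
  · have k1 : exp (-(4 + u) + 2 * e * u) * (1 + u / 2) ≤ 1 / 54 := by
      have := exp_le_inv (x := -(4 + u) + 2 * e * u + u / 2) (by norm_num) exp4 (by nlinarith)
      rw [exp_add] at this
      nlinarith [add_one_le_exp (u / 2), exp_pos (-(4 + u) + 2 * e * u)]
    have k2 := mul_nonneg (exp_pos (-(4 + u) + 2 * e * u)).le u0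
    have k3 : s = exp (-2 * e * u) * exp (-(4 + u) + 2 * e * u) := by rw [hs, ← exp_add]; ring_nf
    refine ⟨_, _, exp_pos _, exp_le_one_iff.2 (by nlinarith), exp_pos _, by linarith, k3,
      fun k4 ↦ ?_, mul_le_mul_of_nonneg_left ?_ F0⟩
    · nlinarith [add_one_le_exp (-2 * e * u), mul_le_mul_of_nonneg_right k4 u0,
        exp_pos (-(4 + u) + 2 * e * u)]
    · linear_combination mul_nonneg d0 p1 + i3 - d * h1 -
        ((1 - 2 * d) / (1 - 2 * e) - (1 - d) / (2 - 2 * e)) * (h2 + exp (-2 * e * u) * h3) +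
        (1 - 2 * d) / (1 - 2 * e) * k3
  · have i4 : (1 - d) / (2 - 2 * e) ≤ 1 / 2 := by rw [div_le_iff₀ (by linarith)]; linarith
    have i5 : 0 ≤ d - 2 * e * ((1 - 2 * d) / (1 - 2 * e) - (1 - d) / (2 - 2 * e)) := by
      nlinarith [mul_nonneg (neg_nonneg.2 k) i1, mul_nonneg (neg_nonneg.2 k) (sub_nonneg.2 i4)]
    refine ⟨1, s, one_pos, le_rfl, hs ▸ exp_pos _,
      hs ▸ exp_le_inv (by norm_num) exp4 (by linarith), (one_mul s).symm, fun _ ↦ by norm_num,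
      mul_le_mul_of_nonneg_left ?_ F0⟩
    linear_combination mul_nonneg i5 p1 + i3 - d * h1 -
      ((1 - 2 * d) / (1 - 2 * e) - (1 - d) / (2 - 2 * e)) * (h2 + h3 + exp (-8 * e) * h4)

include e0 h

theorem right_far (t2 : 2 ≤ t) : 0 < fH d (1 / 2 - d) e (exp (-t))
    (exp (-t) * (t * ph1 (2 * e * t))) (exp ((2 * e - 1) * t) * (t * ph1 (e * t))) := by
  have t0 : 0 ≤ t := by linarith
  have h3 : 64 / 9 ≤ exp 2 := by
    rw [show (2 : ℝ) = 1 + 1 by norm_num, exp_add]; nlinarith [exp_one_gt_d9]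
  have q1 : exp (-t) ≤ 9 / 64 :=
    (exp_le_inv (by norm_num) h3 (by linarith)).trans (by norm_num)
  have p1 := ph1_pos (2 * e * t)
  have p2 := ph1_pos (e * t)
  have x1 : exp (-t) * (t * ph1 (2 * e * t)) ≤ 1 / 2 := by
    have h1 := mul_le_mul_of_nonneg_left (ph1_ub e1 t0) (exp_pos (-t)).le
    have h2 : exp (-t) * exp (t / 2) = exp (-t / 2) := by rw [← exp_add]; ring_nf
    have h4 : exp (-t) = exp (-t / 2) ^ 2 := by rw [sq, ← exp_add]; ring_nf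
    nlinarith [sq_nonneg (exp (-t / 2) - 1 / 2)]
  have y1 : exp ((2 * e - 1) * t) * (t * ph1 (e * t)) ≤ 1 := by
    have h1 := mul_le_mul_of_nonneg_left (ph1_ub (t := t / 2) e1 (by linarith)) (exp_pos (-t / 2)).le
    have h2 : exp (-t / 2) * exp (t / 2 / 2) = exp (-t / 4) := by rw [← exp_add]; ring_nf
    have h4 : exp (-t / 2) = exp (-t / 4) ^ 2 := by rw [sq, ← exp_add]; ring_nf
    have h5 := mul_le_mul_of_nonneg_right (exp_le_exp.2 (by nlinarith : (2 * e - 1) * t ≤ -t / 2))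
      (mul_nonneg t0 p2.le)
    rw [show 2 * e * (t / 2) = e * t by ring] at h1
    nlinarith [sq_nonneg (exp (-t / 4) - 1 / 2)]
  rcases le_total d (1 / 16) with k | k
  · have := ZmHA.out0 (fun q x y _ _ _ _ _ _ ↦ by rw [eqA]; simp only [fH]; apply ge_of_eq; ring)
      (exp_pos _).le q1 (by positivity) x1 (by positivity) y1 d0 k f0 (by linarith) h
    rwa [eqA, ← he] at this
  · have := ZmHB.out0 (a := 1 / 2 - d) (fun x y e _ _ _ _ _ _ ↦ by rw [eqB]; simp [fH])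
      (by positivity) x1 (by positivity) y1 e0 e1 (exp_pos _).le q1 (by linarith) (by linarith)
      (.inl (exp_pos _))
    rwa [eqB, sub_sub_cancel] at this

omit h in
theorem far {g k w : ℝ} (g0 : 0 < g) (g1 : g ≤ 1) (k0 : 0 < k) (k1 : k ≤ 1 / 54) (w0 : 0 ≤ w)
    (w1 : w ≤ d + (1 - d) * (g * k)) (c : 12 * g * k ^ 2 ≤ d ∨ d ≤ 12 * g * k ^ 2 ∧ 7 / 2 * k ≤ f) :
    0 < nu d e g k ∧ (1 - e) * w ^ 3 + 2 * (1 - e) * w ^ 2 * nu d e g k <
      (e * (1 - 2 * d) * (g * k) + (1 + e) * d) * nu d e g k ^ 2 := by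
  have F0 : 0 ≤ 1 - e := by linarith
  have s0 := mul_pos g0 k0
  rcases c with c1 | ⟨c1, c3⟩
  · have d3 : 0 < d := lt_of_lt_of_le (by positivity) c1
    have l0 : 0 < d + g := by linarith
    obtain ⟨y, hy⟩ : ∃ y, d = (d + g) * y := ⟨d / (d + g), (mul_div_cancel₀ _ l0.ne').symm⟩
    have y0 : 0 < y := (mul_pos_iff_of_pos_left l0).1 (hy ▸ d3)
    have y1 : y ≤ 1 := le_of_mul_le_mul_left (by linarith) l0
    have w2 : w ≤ d + g * k := by linarith [mul_nonneg d0 s0.le]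
    have w3 : w ^ 2 ≤ d * (d + 2 * (g * k) + g / 12) := by
      linarith [pow_le_pow_left₀ w0 w2 2, mul_le_mul_of_nonneg_left c1 g0.le]
    have k2 : d * (1 + e - k) ≤ e * (1 - 2 * d) * (g * k) + (1 + e) * d := by
      linarith [mul_nonneg (by linarith : 0 ≤ e + d) (mul_nonneg (by linarith : 0 ≤ 1 - 2 * d) s0.le),
        mul_nonneg d0 (mul_nonneg (sub_nonneg.2 g1) k0.le), mul_nonneg d0 (mul_nonneg d0 s0.le)]
    have P0 := ZmHE.pos0 (k := k) hy rfl rfl rfl rfl rfl k0.le (by linarith) e0 e1 l0.le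
      (by linarith) y0.le y1
    have P1 := ZmHE.pos1 (k := k) hy rfl rfl rfl rfl rfl k0.le (by linarith) e0 e1 l0.le
      (by linarith) y0.le y1
    have hg : g = (d + g) * (1 - y) := by linear_combination -hy
    generalize hU : 2 * (1 - e) * _ = U at P0 P1
    generalize d + g = l at hy hg l0
    have e2 : nu d e g k = l * U := by
      rw [nu, ← hU, hg]; linear_combination 8 * (1 - e) * ph1 (-8 * e) * hy
    rw [e2]
    refine ⟨mul_pos l0 P1, fin F0 w0 w2 w3 k2 (mul_pos l0 P1).le ?_⟩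
    rw [hg, hy]
    linear_combination mul_pos (mul_pos (pow_pos l0 3) y0) P0
  have c2 : 12 * g * k ^ 2 ≤ 1 / 200 := by nlinarith
  have f1 : 0 < f := by linarith
  have l0 : 0 < g * k ^ 2 := by positivity
  obtain ⟨a, ha⟩ : ∃ a, k = a * f := ⟨k / f, (div_mul_cancel₀ _ f1.ne').symm⟩
  obtain ⟨b, hb⟩ : ∃ b, d = g * (b * k ^ 2) :=
    ⟨d / (g * k ^ 2), by rw [mul_left_comm, div_mul_cancel₀ _ l0.ne']⟩
  have a0 : 0 ≤ a := nonneg_of_mul_nonneg_left (ha ▸ k0.le) f1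
  have a1 : a ≤ 2 / 7 := le_of_mul_le_mul_right (by linarith) f1
  have b0 : 0 ≤ b := nonneg_of_mul_nonneg_left (by linarith) l0
  have b1 : b ≤ 12 := le_of_mul_le_mul_right (by linarith) l0
  have w2 : w ≤ g * k * (b * k + 1 - d) := w1.trans_eq (by linear_combination hb)
  have P0 := ZmHD.pos0 ha rfl hb he rfl rfl rfl rfl rfl g0.le g1 b0 b1 a0 a1 f0 (by linarith)
    (by linarith)
  have P1 := ZmHD.pos1 ha rfl hb he rfl rfl rfl rfl rfl g0.le g1 b0 b1 a0 a1 f0 (by linarith)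
    (by linarith)
  generalize hU : 2 * (1 - e) * _ = U at P0 P1
  have e2 : nu d e g k = g * U := by
    rw [nu, ← hU]; linear_combination 8 * (1 - e) * ph1 (-8 * e) * hb
  rw [e2]
  refine ⟨mul_pos g0 P1, fin F0 w0 w2 (pow_le_pow_left₀ w0 w2 2) le_rfl (mul_pos g0 P1).le ?_⟩
  linear_combination mul_pos (mul_pos (mul_pos (pow_pos g0 3) k0) f1) P0 +
    (1 - e) * g ^ 3 * k * (b * k + 1 - d) ^ 2 * (k * (b * k + 1 - d) + 2 * U) * ha -
    g ^ 2 * U ^ 2 * ((1 - 2 * d) * g * k * (he - hb - g * b * k * ha) +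
      (1 + e) * (hb + g * b * k * ha))

theorem left_far (hD : D = -d) (hF : F = 1 - e) (ht : t ∈ JR D) (t4 : t ≤ -4) : 0 < dZ D F t := by
  obtain ⟨s, hs⟩ : ∃ s, s = exp t := ⟨_, rfl⟩
  obtain ⟨z, hz⟩ : ∃ z, z = exp (2 * e * t) := ⟨_, rfl⟩
  obtain ⟨x, hx⟩ : ∃ x, x = -t * ph1 (2 * e * t) := ⟨_, rfl⟩
  obtain ⟨w, hw⟩ : ∃ w, w = (1 - s) * (d + (1 - d) * s) := ⟨_, rfl⟩
  obtain ⟨μ, hμ⟩ : ∃ μ, μ = 2 * F * (d * x + (1 - 2 * d) * (z - s) / (1 - 2 * e) -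
    (1 - d) * (z - s ^ 2) / (2 - 2 * e)) := ⟨_, rfl⟩
  obtain ⟨g, k, g0, g1, k0, k1, sg, g2, hν⟩ := gk d0 d1 f0 he e1 hF t4 hs hz hx hμ
  have F0 : 0 < F := by linarith
  have s0 : 0 < s := hs ▸ exp_pos t
  have s1 : s ≤ k := sg ▸ mul_le_of_le_one_left k0.le g1
  have d2 : 0 < d + (1 - d) * s := by linarith [mul_pos (by linarith : 0 < 1 - d) s0]
  have w0 : 0 < w := hw ▸ mul_pos (by linarith) d2
  have w3 : 0 < F * w ^ 3 := by positivity
  have x1 : -t * s ≤ 5 / 64 := by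
    have h1 := add_one_le_exp (-t - 4)
    have h2 : 64 / 5 * -t ≤ exp (4 + (-t - 4)) := by
      rw [exp_add]; linarith [mul_le_mul exp4 h1 (by linarith) (exp_pos 4).le]
    have h3 := exp_le_inv (x := t) (by linarith) h2 (by linarith)
    rw [le_div_iff₀ (by linarith), ← hs] at h3
    linarith
  obtain ⟨-, hv, hZ⟩ := keyL hD hF e1 ht (by linarith) hs hz hx hw hμ
  by_cases c : 12 * g * k ^ 2 ≤ d ∨ d ≤ 12 * g * k ^ 2 ∧ 7 / 2 * k ≤ f
  · obtain ⟨n0, h4⟩ := far d0 d1 f0 he e0 e1 g0 g1 k0 k1 w0.le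
      (sg ▸ hw ▸ mul_le_of_le_one_left d2.le (by linarith)) c
    rw [← sg, ← hF] at h4
    have h5 := mul_pos (exp_pos (F * t)) (sub_pos.2 ((mono w3.le (by positivity) n0 hν h4).trans_le
      (mul_le_mul_of_nonneg_right (le_add_of_nonneg_left (mul_nonneg (mul_nonneg F0.le
        (by linarith : 0 ≤ 1 - d)) (sq_nonneg s))) (sq_nonneg μ))))
    have h6 : ZR D F t < 0 := neg_of_mul_neg_left (by linear_combination h5 + hZ) w3.le
    exact sub_pos.2 (h6.trans_le (by unfold sep; positivity))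
  rw [not_or, not_and, not_le, not_le] at c
  obtain ⟨c1, c3⟩ := c
  replace c3 := c3 c1.le
  have g3 := sub_nonneg.2 (g2 (by linarith))
  have a1 : f ≤ 6 * s := by rw [sg]; linarith [mul_nonneg g3 k0.le]
  have b1 : d ≤ 20 * s ^ 2 := by
    rw [sg]; linarith [mul_nonneg g3 (mul_pos g0 (pow_pos k0 2)).le, mul_pos g0 (pow_pos k0 2)]
  obtain ⟨a, ha⟩ : ∃ a, f = a * s := ⟨f / s, (div_mul_cancel₀ _ s0.ne').symm⟩
  obtain ⟨b, hb⟩ : ∃ b, d = b * s ^ 2 := ⟨d / s ^ 2, (div_mul_cancel₀ _ (pow_pos s0 2).ne').symm⟩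
  have he' : e = (a - b * s) * s := by linear_combination he + ha - hb
  have r1 : exp (F * t) = s * exp (-(e * t)) := by rw [hs, hF, ← exp_add]; ring_nf
  have r2 : z * exp (-(e * t)) ^ 2 = 1 := by rw [hz, sq, ← exp_add, ← exp_add]; ring_nf; simp
  have E := ZmHC.eq (g := -t * s) (h := a - b * s) (z := z) (ri := exp (-(e * t)))
    (z8 := ph1 (2 * e * t)) (mu := μ) hb rfl he' hF (hz.trans (congrArg exp (by rw [he']; ring)))
    (congrArg exp (by rw [he']; ring)) rfl (congrArg ph1 (by rw [he']; ring))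
    (by rw [hμ, hx]; linear_combination -2 * F * t * ph1 (2 * e * t) * hb) rfl
  have P := ZmHC.out0 (s := s) (g := -t * s) (dl := b) (ph := a) (fun s g _ _ _ _ ↦ by
      rw [ZmHC.eq rfl rfl rfl rfl rfl rfl rfl rfl rfl rfl]; apply ge_of_eq; simp; ring)
    s0.le (by linarith) (mul_nonneg (by linarith) s0.le) x1
    (nonneg_of_mul_nonneg_left (hb ▸ d0) (pow_pos s0 2))
    (le_of_mul_le_mul_right (hb ▸ b1) (pow_pos s0 2))
    (nonneg_of_mul_nonneg_left (ha ▸ f0) s0)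
    (le_of_mul_le_mul_right (ha ▸ a1) s0)
    (h.imp (fun h ↦ (mul_pos_iff_of_pos_right (pow_pos s0 2)).1 (hb ▸ h))
      fun h ↦ (mul_pos_iff_of_pos_right s0).1 (ha ▸ h))
  refine (mul_pos_iff_of_pos_left w3).1 ((mul_pos (pow_pos s0 3) P).trans_eq ?_)
  rw [E, dZ, sep, show F * (1 - 2 * D - F) / 3 * vR D F t = (2 * d + e) / 3 * μ * exp (-(e * t)) ^ 2 by
    rw [← hv, hD]; linear_combination -(2 * d + e) / 3 * F * vR (-d) F t * r2 - F * vR (-d) F t / 3 * hF]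
  rw [r1] at hZ
  rw [show w = s * ((1 - s) * (1 - d + b * s)) by rw [hw]; linear_combination (1 - s) * hb] at hZ ⊢
  linear_combination hZ - s * exp (-(e * t)) * μ ^ 2 * ((1 + e) * hb + (1 - 2 * d + b * s) * s * he')

theorem main (h0 : t ≠ 0) : t * dZ (-1 / 2 - (d - 1 / 2)) (1 / 2 - (f - d - 1 / 2)) t < 0 := by
  have ht := mem d0 d1 t
  have o0 : 0 < om (-1 / 2 - (d - 1 / 2)) t := ht
  have p0 := ph1_pos t
  have k0 : 0 < (ph1 t * (om (-1 / 2 - (d - 1 / 2)) t * exp (-t))) ^ 3 *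
      exp (-((1 / 2 - (f - d - 1 / 2)) * t)) := by positivity
  rcases h0.lt_or_gt with t0 | t0
  · refine mul_neg_of_neg_of_pos t0 ?_
    rcases le_total t (-4) with t4 | t4
    · exact left_far d0 d1 f0 he e0 e1 h (by ring) (by rw [he]; ring) ht t4
    · have T : Tendsto (fun u : ℝ ↦ -u) (𝓝[>] 0) (𝓝[≠] 0) := by
        simpa using (tendsto_neg_nhdsGT (a := (0 : ℝ))).mono_right (nhdsLT_le_nhdsNE _)
      have h1 := ZmHL.out0 (fun a b a0 a1 _ _ ↦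
        ((fC_bigO a0 a1).comp_tendsto T).neg_right.congr
          (fun u ↦ (eqL a b u).1.symm) fun u ↦ by simp only [Function.comp]; ring)
        (fun u _ _ ↦ by rw [(eqL 0 0 u).1, fC_iso]) d0 d1 f0 (by linarith) (neg_pos.2 t0).le
        (by linarith) (neg_pos.2 t0) h (by rw [(eqL ..).2.1]; linarith)
        (by rw [(eqL ..).2.2]; linarith)
      rw [(eqL ..).1, neg_neg, keyC ht h0] at h1
      exact (mul_pos_iff_of_pos_left k0).1 h1
  · refine mul_neg_of_pos_of_neg t0 ?_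
    rcases le_total 2 t with t2 | t2
    · exact keyR (by ring) (by rw [he]; ring) rfl e1 (by linarith) ht t0
        (right_far d0 d1 f0 he e0 e1 h t2)
    · have h1 := ZmHR.out0 (fun a b a0 a1 _ _ ↦ ((fC_bigO a0 a1).mono
        (nhdsWithin_mono _ fun _ h ↦ ne_of_gt h)).neg_left.congr_left fun u ↦ (eqR a b u).1.symm)
        (fun u _ _ ↦ by rw [(eqR 0 0 u).1, fC_iso, neg_zero]) d0 d1 f0 (by linarith) t0.le t2 t0 h
        (by rw [(eqR ..).2.1]; linarith) (by rw [(eqR ..).2.2]; linarith)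
      rw [(eqR ..).1, keyC ht h0] at h1
      exact neg_of_mul_neg_left (by linarith) k0.le

end Pool.Agent.Lib.MP_d6150d_an.ZmH

namespace Pool.Agent.Lib.MP_d6150d_an

theorem Zm_holds : St_Zm := fun D F h1 h2 h3 h4 h5 h6 h7 ↦ by
  rcases le_total F (3 / 4) with k | k
  · exact ZmL_holds D F h1 h2 h3 k h6
  refine noThree_sep (by linarith) (-1) (Z2.sep D F) fun t _ h0 ↦ ?_
  have := ZmH.main (d := -D) (f := 1 - F - D) (by linarith) (by linarith) (by linarith) rfl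
    (by linarith) (by linarith) (by
      by_contra k
      rw [not_or, not_lt, not_lt] at k
      exact h7 ⟨by linarith [k.1], by linarith [k.1, k.2]⟩) h0
  rw [show -1 / 2 - (-D - 1 / 2) = D by ring, show 1 / 2 - (1 - F - D - -D - 1 / 2) = F by ring,
    Z2.dZ] at this
  linarith

end Pool.Agent.Lib.MP_d6150d_an
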