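import Pool.Agent.Lib.MP_d6150d_an.GDef

/-! A generated chart: the program. -/

namespace Pool.Agent.Lib.MP_d6150d_an.ZmRb

def prog1 : List Ins := .inv 22 :: .mul 1 0 :: .add false 6 0 :: .add false 51 52 :: .mul 51 0 ::
    .mul 51 0 :: .mul 35 35 :: .mul 43 1 :: .int 2 :: .sub true 0 31 :: .mul 34 0 :: .sub false 5 26
    :: .mul 1 0 :: .add false 38 0 :: .rsq 0 :: .mul 7 0 :: .mul 0 0 :: .mul 0 2 :: .sub true 11 0
    :: .mul 13 0 :: .mul 8 8 :: .mul 0 20 :: .add true 2 0 :: .mul 72 0 :: .sub false 21 0 :: .cpy 0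
    :: []

def prog : List Ins := .var 3 :: .int 1 :: .sub false 0 1 :: .cst 1 2 :: .var 0 :: .sub true 1 0 ::
    .sub false 4 0 :: .mul 1 6 :: .add true 1 0 :: .mul 6 0 :: .smul 2 4 :: .var 1 :: .smul 2 0 ::
    .sub true 11 0 :: .sub true 0 13 :: .var 2 :: .mul 4 0 :: .smul 2 0 :: .sub true 16 0 :: .inv 0
    :: .mul 5 0 :: .mul 10 0 :: .mul 0 0 :: .mul 9 13 :: .mul 23 10 :: .cst 1 3 :: .add false 24 15
    :: .add false 23 10 :: .sub true 1 0 :: .mul 3 0 :: .sub true 28 19 :: .var 4 :: .mul 1 0 ::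
    .sub false 23 0 :: .mul 33 13 :: .mul 24 0 :: .sub false 2 0 :: .mul 7 0 :: .add false 13 0 ::
    .rsq 0 :: .mul 16 0 :: .mul 0 0 :: .mul 0 2 :: .sub true 20 0 :: .mul 34 0 :: .mul 44 0 :: .mul
    9 9 :: .mul 36 46 :: .add false 17 0 :: .mul 2 0 :: prog1

def vs : List Vr := [⟨2, 1, false, false⟩, ⟨2, 0, false, false⟩, ⟨2, 0, false, false⟩, ⟨1, 0, false,
    false⟩, ⟨1, 0, false, false⟩]

def C : Chart := ⟨vs, prog, [], 1, 3⟩

end Pool.Agent.Lib.MP_d6150d_an.ZmRb
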