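import Pool.Agent.Lib.MP_d6150d_an.GDef

/-! A generated chart: the program. -/

namespace Pool.Agent.Lib.MP_d6150d_an.ZmRc

def prog : List Ins := .cst 1 2 :: .int 1 :: .var 2 :: .sub false 1 0 :: .add false 2 1 :: .mul 1 0
    :: .mul 5 0 :: .var 0 :: .smul 2 0 :: .sub true 7 0 :: .sub false 0 7 :: .var 1 :: .mul 4 0 ::
    .smul 2 0 :: .sub true 12 0 :: .inv 0 :: .mul 5 0 :: .mul 0 0 :: .mul 8 11 :: .mul 16 9 :: .cst
    1 3 :: .int 2 :: .add false 21 9 :: .sub true 1 0 :: .mul 3 0 :: .mul 22 8 :: .sub false 19 0 ::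
    .mul 2 0 :: .add false 8 0 :: .rsq 0 :: .mul 11 0 :: .mul 0 0 :: .mul 0 2 :: .sub true 15 0 ::
    .mul 27 0 :: .mul 8 8 :: .inv 13 :: .mul 1 0 :: .add false 3 0 :: .cpy 0 :: []

def vs : List Vr := [⟨3, 1, false, false⟩, ⟨2, 0, false, false⟩, ⟨2, 0, false, false⟩]

def C : Chart := ⟨vs, prog, [], 1, 3⟩

end Pool.Agent.Lib.MP_d6150d_an.ZmRc
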