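import Pool.Agent.Lib.MP_d6150d_an.GDef

/-! A generated chart: the program. -/

namespace Pool.Agent.Lib.MP_d6150d_an.ZpL

def prog1 : List Ins := .sub true 58 40 :: .mul 1 0 :: .mul 0 13 :: .sub false 5 0 :: .sub true 62
    34 :: .mul 60 0 :: .mul 17 17 :: .mul 1 0 :: .add true 4 0 :: .mul 0 13 :: .mul 13 0 :: .sub
    true 41 0 :: .mul 15 0 :: .sub false 0 29 :: .mul 60 27 :: .mul 0 32 :: .cst 7 24 :: .sub false
    57 75 :: .sub true 0 19 :: .mul 2 0 :: .mul 4 0 :: .cst 12 7 :: .mul 0 36 :: .mul 3 81 :: .mul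
    70 70 :: .mul 1 0 :: .mul 0 39 :: .add false 4 0 :: .mul 7 0 :: .add false 43 2 :: .inv 0 ::
    .mul 0 0 :: .mul 3 0 :: .sub false 19 0 :: .cpy 0 :: []

def prog : List Ins := .cst 1 4096 :: .var 1 :: .cst 1 16 :: .sub true 1 0 :: .var 0 :: .cst 3 32 ::
    .add true 1 0 :: .mul 2 0 :: .mul 4 0 :: .sub false 8 0 :: .cpy 0 :: .smul 2 9 :: .var 2 ::
    .smul (-1) 0 :: .mul 2 0 :: .tri 0 :: .mul 6 0 :: .int 1 :: .sub true 8 0 :: .mul 0 7 :: .tri 0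
    :: .mul 4 0 :: .sub false 7 0 :: .smul 2 1 :: .sub false 9 0 :: .int 2 :: .sub true 18 0 :: .mul
    0 17 :: .tri 0 :: .mul 4 0 :: .add true 7 0 :: .mul 32 0 :: .add false 11 0 :: .smul 2 0 :: .mul
    38 26 :: .smul (-1) 0 :: .tri 0 :: .mul 2 2 :: .mul 6 0 :: .smul (-1) 33 :: .tri 0 :: .add true
    31 46 :: .mul 47 3 :: .sub true 1 0 :: .mul 4 0 :: .inv 0 :: .mul 9 0 :: .mul 5 55 :: .smul 2 53
    :: .add true 39 0 :: prog1

def vs : List Vr := [⟨2, 0, false, false⟩, ⟨2, 0, false, false⟩, ⟨5, 2, false, false⟩]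

def C : Chart := ⟨vs, prog, [11], 1, 3⟩

end Pool.Agent.Lib.MP_d6150d_an.ZpL
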