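import Pool.Agent.Lib.MP_d6150d_an.GDef

/-! A generated chart: the program. -/

namespace Pool.Agent.Lib.MP_d6150d_an.ZpM

def prog1 : List Ins := .mul 34 0 :: .sub false 49 51 :: .smul 4 38 :: .mul 0 35 :: .mul 0 20 ::
    .add true 3 0 :: .mul 5 0 :: .mul 60 0 :: .cst 12 7 :: .mul 59 2 :: .add false 1 0 :: .mul 3 0
    :: .mul 62 52 :: .tri 0 :: .mul 56 1 :: .mul 0 70 :: .mul 4 18 :: .smul 2 73 :: .mul 70 75 ::
    .smul 3 76 :: .sub true 0 70 :: .mul 55 0 :: .sub true 3 0 :: .mul 25 0 :: .add true 6 0 :: .mul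
    8 0 :: .add true 10 0 :: .add false 77 19 :: .mul 0 0 :: .mul 2 0 :: .add false 20 0 :: .cpy 0
    :: []

def prog : List Ins := .var 0 :: .mul 0 0 :: .mul 0 1 :: .cst 7 6 :: .mul 0 3 :: .var 1 :: .smul 2 0
    :: .int 1 :: .sub true 1 0 :: .int 2 :: .var 2 :: .smul 18 5 :: .add false 2 0 :: .mul 2 0 ::
    .add false 4 0 :: .smul (-1) 0 :: .mul 7 0 :: .exp 0 :: .mul 13 0 :: .exp 3 :: .sub false 12 0
    :: .mul 2 0 :: .smul 2 6 :: .inv 2 :: .mul 1 0 :: .sub true 17 24 :: .mul 19 10 :: .smul (-1) 0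
    :: .tri 0 :: .mul 1 11 :: .smul (-1) 15 :: .tri 0 :: .sub true 4 1 :: .mul 11 0 :: .smul 2 37 ::
    .sub true 0 31 :: .mul 0 16 :: .mul 21 21 :: .mul 12 0 :: .smul 2 8 :: .mul 0 24 :: .sub false 2
    0 :: .sub true 39 36 :: .mul 0 31 :: .smul (-1) 0 :: .tri 0 :: .add true 6 1 :: .mul 12 0 ::
    .sub true 16 0 :: .mul 30 0 :: prog1

def vs : List Vr := [⟨3, 0, false, false⟩, ⟨3, 0, false, false⟩, ⟨4, 0, false, false⟩]

def C : Chart := ⟨vs, prog, [], 1, 3⟩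

end Pool.Agent.Lib.MP_d6150d_an.ZpM
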