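import Pool.Agent.Lib.MP_d6150d_an.GDef

/-! A generated chart: the program. -/

namespace Pool.Agent.Lib.MP_d6150d_an.ZpS

def prog2 : List Ins := .mul 0 19 :: .mul 30 30 :: .mul 46 0 :: .sub false 24 25 :: .mul 1 0 :: .sub
    true 4 0 :: .mul 19 0 :: .add false 23 0 :: .cpy 0 :: []

def prog1 : List Ins := .mul 4 0 :: .mul 6 0 :: .cst 1 32 :: .add false 53 0 :: .inv 0 :: .mul 3 0
    :: .mul 0 56 :: .mul 0 55 :: .sub false 57 0 :: .mul 15 0 :: .smul (-1) 41 :: .inv 28 :: .mul 1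
    0 :: .mul 5 37 :: .mul 6 0 :: .sub false 64 0 :: .mul 3 0 :: .sub true 7 0 :: .mul 0 68 :: .mul
    0 43 :: .add true 32 0 :: .mul 35 0 :: .mul 41 0 :: .add false 45 0 :: .mul 2 2 :: .mul 72 0 ::
    .sub true 2 0 :: .mul 58 13 :: .sub false 39 0 :: .mul 15 0 :: .sub false 43 0 :: .mul 0 0 ::
    .mul 0 1 :: .mul 6 0 :: .mul 81 12 :: .add false 59 0 :: .mul 0 0 :: .mul 19 83 :: .sub false 51
    0 :: .mul 31 10 :: .sub true 1 0 :: .mul 0 0 :: .mul 36 90 :: .mul 0 66 :: .mul 0 15 :: .add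
    false 27 0 :: .mul 96 0 :: .add true 6 16 :: .mul 1 0 :: .add true 7 0 :: prog2

def prog : List Ins := .cst 23 100 :: .var 2 :: .int 1 :: .var 3 :: .sub true 1 0 :: .mul 3 0 ::
    .sub false 5 0 :: .cpy 0 :: .smul 8 6 :: .smul 8 3 :: .smul (-1) 0 :: .tri 0 :: .mul 5 1 :: .sub
    false 12 0 :: .cpy 0 :: .cst 1 4096 :: .cst 1 16 :: .sub true 13 0 :: .var 0 :: .cst 3 32 ::
    .add true 1 0 :: .mul 2 0 :: .mul 4 0 :: .sub false 7 0 :: .cpy 0 :: .mul 23 23 :: .add false 25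
    24 :: .mul 1 0 :: .cst 2 7 :: .smul 2 3 :: .sub true 1 0 :: .cst 7 24 :: .sub true 31 28 ::
    .smul 2 14 :: .sub false 1 0 :: .mul 3 0 :: .add true 35 17 :: .mul 0 10 :: .add true 37 4 ::
    .smul (-2) 0 :: .smul 2 36 :: .sub true 40 0 :: .inv 0 :: .mul 3 0 :: .var 1 :: .cst 5 4 ::
    .smul 3 42 :: .sub true 0 46 :: .smul 8 0 :: .exp 0 :: prog1

def vs : List Vr := [⟨2, 0, false, false⟩, ⟨0, 0, false, false⟩, ⟨2, 0, false, false⟩, ⟨2, 0, false,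
    false⟩]

def C : Chart := ⟨vs, prog, [8, 15, 25], 1, 3⟩

end Pool.Agent.Lib.MP_d6150d_an.ZpS
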