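import Pool.Agent.Lib.MP_d6150d_an.GDef

/-! A generated chart: the program. -/

namespace Pool.Agent.Lib.MP_d6150d_an.ZpT

def prog : List Ins := .cst 47 100 :: .cst 13 5 :: .var 1 :: .mul 1 0 :: .add false 3 0 :: .int 1 ::
    .sub true 0 3 :: .mul 0 0 :: .mul 3 0 :: .var 0 :: .sub true 4 0 :: .smul 2 0 :: .mul 0 5 ::
    .smul 2 10 :: .sub true 8 0 :: .mul 5 0 :: .add true 3 0 :: .int 4 :: .smul 18 15 :: .add false
    1 0 :: .smul (-1) 0 :: .exp 0 :: .sub false 16 0 :: .inv 0 :: .add true 18 14 :: .mul 1 0 ::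
    .sub true 0 23 :: .mul 10 0 :: .smul 2 21 :: .mul 0 14 :: .sub true 2 0 :: .mul 14 0 :: .sub
    false 23 0 :: .cpy 0 :: []

def vs : List Vr := [⟨5, 0, false, false⟩, ⟨3, 0, false, false⟩]

def C : Chart := ⟨vs, prog, [], 1, 3⟩

end Pool.Agent.Lib.MP_d6150d_an.ZpT
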