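import Pool.Agent.Lib.MP_d6150d_an.GDef

/-! A generated chart: the program. -/

namespace Pool.Agent.Lib.MP_d6150d_an.ZpU

def prog1 : List Ins := .add false 12 0 :: .smul 2 0 :: .mul 26 0 :: .cst 35 32 :: .mul 0 59 :: .mul
    0 21 :: .inv 39 :: .mul 1 0 :: .sub true 5 0 :: .mul 38 0 :: .mul 45 0 :: .mul 64 1 :: .add
    false 20 0 :: .mul 2 0 :: .sub false 0 51 :: .mul 68 40 :: .smul (-1) 0 :: .tri 0 :: .mul 45 1
    :: .cst 2 7 :: .mul 0 10 :: .add false 69 0 :: .mul 3 0 :: .add false 10 0 :: .mul 4 16 :: .sub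
    false 1 0 :: .smul 2 63 :: .mul 0 19 :: .add false 76 18 :: .mul 1 0 :: .mul 71 8 :: .add false
    0 6 :: .mul 16 0 :: .sub false 3 0 :: .mul 14 18 :: .mul 0 76 :: .sub false 27 0 :: .cpy 74 ::
    .cpy 30 :: .cpy 2 :: .cpy 6 :: .cpy 15 :: []

def prog : List Ins := .var 0 :: .cst 1 16 :: .var 1 :: .sub true 1 0 :: .mul 3 0 :: .cpy 0 :: .cst
    23 100 :: .sub false 0 4 :: .cpy 0 :: .int 1 :: .cst 47 100 :: .cst 13 5 :: .mul 0 9 :: .add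
    false 2 0 :: .smul 2 11 :: .sub true 5 0 :: .inv 0 :: .mul 0 0 :: .mul 4 0 :: .mul 16 0 :: .sub
    true 10 0 :: .cst 7 24 :: .sub true 12 19 :: .cst 3 16 :: .mul 0 23 :: .sub true 2 0 :: .mul 4 0
    :: .int 4 :: .smul 18 25 :: .add false 1 0 :: .smul (-1) 0 :: .mul 0 0 :: .mul 17 1 :: .tri 0 ::
    .mul 21 0 :: .sub true 22 27 :: .mul 0 7 :: .tri 0 :: .mul 4 0 :: .sub false 6 0 :: .int 0 ::
    .smul 2 2 :: .sub false 9 0 :: .int 2 :: .sub true 33 0 :: .mul 0 18 :: .tri 0 :: .mul 4 0 ::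
    .add false 7 0 :: .mul 10 0 :: prog1

def vs : List Vr := [⟨2, 0, false, false⟩, ⟨5, 0, false, false⟩]

def C : Chart := ⟨vs, prog, [6, 9], 5, 3⟩

end Pool.Agent.Lib.MP_d6150d_an.ZpU
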